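import Pool.Agent.BDD.Gen

/-! BDD: the context of the certificate A -/

set_option autoImplicit false

namespace Pool.Agent.BDD.A

/-- the hypotheses -/
structure Ct (c : Can) : Prop where
  pin : Pin c
  a : c.m 3 3 3 12 = true

end Pool.Agent.BDD.A
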