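import Pool.Agent.BDD.AC
import Pool.Agent.BDD.AE0

set_option autoImplicit false
set_option linter.all false

namespace Pool.Agent.BDD.A

def w0 : PV o0 := fun P h => h.t 0 0 0 2 0 5 2 4 1 3 (by decide +kernel)
def w1 : PV o1 := fun P h => h.t 0 0 0 2 1 5 2 3 0 4 (by decide +kernel)
def w2 : PV o2 := fun P h => h.t 0 0 1 1 0 2 1 3 4 5 (by decide +kernel)
def w3 : PV o3 := fun P h => h.t 0 0 1 1 0 2 3 4 1 5 (by decide +kernel)
def w4 : PV o4 := fun P h => h.t 0 0 1 1 0 3 1 2 4 5 (by decide +kernel)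
def w5 : PV o5 := fun P h => h.t 0 0 1 1 1 2 0 3 4 5 (by decide +kernel)
def w6 : PV o6 := fun P h => h.t 0 0 1 1 1 2 3 4 0 5 (by decide +kernel)
def w7 : PV o7 := fun P h => h.t 0 0 1 1 1 4 2 3 0 5 (by decide +kernel)
def w8 : PV o8 := fun P h => h.t 0 0 1 1 1 5 0 2 3 4 (by decide +kernel)
def w9 : PV o9 := fun P h => h.t 0 0 1 1 1 5 2 3 0 4 (by decide +kernel)
def w10 : PV o10 := fun P h => h.t 0 0 1 1 3 4 1 2 0 5 (by decide +kernel)
def w11 : PV o11 := fun P h => h.t 0 0 1 1 3 5 1 2 0 4 (by decide +kernel)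
def w12 : PV o12 := fun P h => h.t 0 0 1 2 0 1 2 3 4 5 (by decide +kernel)
def w13 : PV o13 := fun P h => h.t 0 0 1 2 2 3 0 1 4 5 (by decide +kernel)
def w14 : PV o14 := fun P h => h.t 0 0 1 2 2 4 0 1 3 5 (by decide +kernel)
def w15 : PV o15 := fun P h => h.t 0 0 1 3 0 1 2 3 4 5 (by decide +kernel)
def w16 : PV o16 := fun P h => h.t 0 0 1 3 0 2 1 3 4 5 (by decide +kernel)
def w17 : PV o17 := fun P h => h.t 0 0 1 3 0 3 1 2 4 5 (by decide +kernel)
def w18 : PV o18 := fun P h => h.t 0 0 1 3 0 4 1 2 3 5 (by decide +kernel)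
def w19 : PV o19 := fun P h => h.t 0 0 1 3 0 5 1 2 3 4 (by decide +kernel)
def w20 : PV o20 := fun P h => h.t 0 0 1 3 3 4 0 1 2 5 (by decide +kernel)
def w21 : PV o21 := fun P h => h.t 0 0 1 3 3 5 0 1 2 4 (by decide +kernel)
def w22 : PV o22 := fun P h => h.t 0 0 1 3 4 5 0 1 2 3 (by decide +kernel)
def w23 : PV o23 := fun P h => h.t 0 0 1 4 0 1 2 3 4 5 (by decide +kernel)
def w24 : PV o24 := fun P h => h.t 0 0 1 4 4 5 0 1 2 3 (by decide +kernel)
def w25 : PV o25 := fun P h => h.t 0 0 1 5 0 1 2 3 4 5 (by decide +kernel)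
def w26 : PV o26 := fun P h => h.t 0 0 1 6 0 1 2 3 4 5 (by decide +kernel)
def w27 : PV o27 := fun P h => h.t 0 0 1 6 0 1 4 5 2 3 (by decide +kernel)
def w28 : PV o28 := fun P h => h.t 0 0 1 6 0 2 3 4 1 5 (by decide +kernel)
def w29 : PV o29 := fun P h => h.t 0 0 1 6 0 5 1 2 3 4 (by decide +kernel)
def w30 : PV o30 := fun P h => h.t 0 0 1 6 1 2 3 4 0 5 (by decide +kernel)
def w31 : PV o31 := fun P h => h.t 0 0 1 6 1 5 2 3 0 4 (by decide +kernel)
def w32 : PV o32 := fun P h => h.t 0 0 1 6 2 3 4 5 0 1 (by decide +kernel)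
def w33 : PV o33 := fun P h => h.t 0 0 1 6 3 5 0 1 2 4 (by decide +kernel)
def w34 : PV o34 := fun P h => h.t 0 0 1 6 4 5 1 2 0 3 (by decide +kernel)
def w35 : PV o35 := fun P h => h.t 0 0 1 7 0 1 2 3 4 5 (by decide +kernel)
def w36 : PV o36 := fun P h => h.x 0 0 1 15 (by decide +kernel)
def w37 : PV o37 := fun P h => h.t 0 0 2 1 0 1 3 4 2 5 (by decide +kernel)
def w38 : PV o38 := fun P h => h.t 0 0 2 1 4 5 1 2 0 3 (by decide +kernel)
def w39 : PV o39 := fun P h => h.t 0 0 2 2 1 5 0 4 2 3 (by decide +kernel)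
def w40 : PV o40 := fun P h => h.t 0 0 2 2 2 4 0 5 1 3 (by decide +kernel)
def w41 : PV o41 := fun P h => h.t 0 0 2 2 3 4 0 5 1 2 (by decide +kernel)
def w42 : PV o42 := fun P h => h.t 0 0 2 3 0 1 2 3 4 5 (by decide +kernel)
def w43 : PV o43 := fun P h => h.t 0 0 2 3 0 2 1 3 4 5 (by decide +kernel)
def w44 : PV o44 := fun P h => h.t 0 0 2 3 0 3 1 2 4 5 (by decide +kernel)
def w45 : PV o45 := fun P h => h.t 0 0 2 3 0 5 1 4 2 3 (by decide +kernel)
def w46 : PV o46 := fun P h => h.t 0 0 2 3 0 5 3 4 1 2 (by decide +kernel)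
def w47 : PV o47 := fun P h => h.t 0 0 2 3 1 2 0 3 4 5 (by decide +kernel)
def w48 : PV o48 := fun P h => h.t 0 0 2 3 1 2 0 5 3 4 (by decide +kernel)
def w49 : PV o49 := fun P h => h.t 0 0 2 3 1 3 0 2 4 5 (by decide +kernel)
def w50 : PV o50 := fun P h => h.t 0 0 2 3 1 5 0 4 2 3 (by decide +kernel)
def w51 : PV o51 := fun P h => h.t 0 0 2 3 3 4 2 5 0 1 (by decide +kernel)
def w52 : PV o52 := fun P h => h.t 0 0 2 6 1 2 0 3 4 5 (by decide +kernel)
def w53 : PV o53 := fun P h => h.t 0 0 2 6 1 3 0 2 4 5 (by decide +kernel)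
def w54 : PV o54 := fun P h => h.t 0 0 2 6 1 5 2 3 0 4 (by decide +kernel)
def w55 : PV o55 := fun P h => h.t 0 0 2 7 0 2 1 3 4 5 (by decide +kernel)
def w56 : PV o56 := fun P h => h.t 0 0 2 7 1 2 0 3 4 5 (by decide +kernel)
def w57 : PV o57 := fun P h => h.t 0 0 2 7 1 3 0 2 4 5 (by decide +kernel)
def w58 : PV o58 := fun P h => h.t 0 0 2 7 3 4 0 5 1 2 (by decide +kernel)
def w59 : PV o59 := fun P h => h.t 0 0 3 1 0 1 3 5 2 4 (by decide +kernel)
def w60 : PV o60 := fun P h => h.t 0 0 3 1 0 2 3 5 1 4 (by decide +kernel)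
def w61 : PV o61 := fun P h => h.t 0 0 3 1 0 4 2 5 1 3 (by decide +kernel)
def w62 : PV o62 := fun P h => h.t 0 0 3 1 0 5 2 4 1 3 (by decide +kernel)
def w63 : PV o63 := fun P h => h.t 0 0 3 1 1 2 3 5 0 4 (by decide +kernel)
def w64 : PV o64 := fun P h => h.t 0 0 3 1 1 4 2 5 0 3 (by decide +kernel)
def w65 : PV o65 := fun P h => h.t 0 0 3 1 3 4 1 5 0 2 (by decide +kernel)
def w66 : PV o66 := fun P h => h.t 0 0 3 1 3 5 1 4 0 2 (by decide +kernel)
def w67 : PV o67 := fun P h => h.t 0 0 3 1 4 5 1 3 0 2 (by decide +kernel)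
def w68 : PV o68 := fun P h => h.t 0 0 3 7 0 1 2 4 3 5 (by decide +kernel)
def w69 : PV o69 := fun P h => h.t 0 0 3 7 0 3 1 4 2 5 (by decide +kernel)
def w70 : PV o70 := fun P h => h.t 0 0 4 1 0 1 2 3 4 5 (by decide +kernel)
def w71 : PV o71 := fun P h => h.t 0 0 4 3 0 1 2 3 4 5 (by decide +kernel)
def w72 : PV o72 := fun P h => h.t 0 0 4 3 0 2 1 3 4 5 (by decide +kernel)
def w73 : PV o73 := fun P h => h.t 0 0 4 4 2 3 0 1 4 5 (by decide +kernel)
def w74 : PV o74 := fun P h => h.t 0 0 4 6 0 2 1 3 4 5 (by decide +kernel)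
def w75 : PV o75 := fun P h => h.t 0 0 4 7 0 2 1 3 4 5 (by decide +kernel)
def w76 : PV o76 := fun P h => h.t 0 0 4 7 1 2 0 3 4 5 (by decide +kernel)
def w77 : PV o77 := fun P h => h.t 0 0 5 1 0 1 2 3 4 5 (by decide +kernel)
def w78 : PV o78 := fun P h => h.t 0 0 5 3 0 2 4 5 1 3 (by decide +kernel)
def w79 : PV o79 := fun P h => h.t 0 0 5 3 1 2 4 5 0 3 (by decide +kernel)
def w80 : PV o80 := fun P h => h.t 0 0 5 6 0 1 2 4 3 5 (by decide +kernel)
def w81 : PV o81 := fun P h => h.t 0 0 5 6 0 4 1 3 2 5 (by decide +kernel)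
def w82 : PV o82 := fun P h => h.x 0 0 5 12 (by decide +kernel)
def w83 : PV o83 := fun P h => h.x 0 0 5 0 (by decide +kernel)
def w84 : PV o84 := fun P h => h.t 0 0 6 1 0 1 2 3 4 5 (by decide +kernel)
def w85 : PV o85 := fun P h => h.t 0 0 6 1 4 5 0 1 2 3 (by decide +kernel)
def w86 : PV o86 := fun P h => h.t 0 0 6 2 0 3 1 2 4 5 (by decide +kernel)
def w87 : PV o87 := fun P h => h.t 0 0 6 3 0 1 2 3 4 5 (by decide +kernel)
def w88 : PV o88 := fun P h => h.t 0 0 6 3 0 2 1 3 4 5 (by decide +kernel)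
def w89 : PV o89 := fun P h => h.t 0 0 6 3 0 3 1 2 4 5 (by decide +kernel)
def w90 : PV o90 := fun P h => h.t 0 0 6 3 0 4 2 3 1 5 (by decide +kernel)
def w91 : PV o91 := fun P h => h.t 0 0 6 3 1 2 0 3 4 5 (by decide +kernel)
def w92 : PV o92 := fun P h => h.t 0 0 6 3 1 3 0 2 4 5 (by decide +kernel)
def w93 : PV o93 := fun P h => h.t 0 0 6 3 2 3 0 1 4 5 (by decide +kernel)
def w94 : PV o94 := fun P h => h.t 0 0 6 3 2 4 0 1 3 5 (by decide +kernel)
def w95 : PV o95 := fun P h => h.t 0 0 6 4 1 3 0 2 4 5 (by decide +kernel)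
def w96 : PV o96 := fun P h => h.t 0 0 6 4 2 3 0 1 4 5 (by decide +kernel)
def w97 : PV o97 := fun P h => h.t 0 0 6 6 2 3 0 1 4 5 (by decide +kernel)
def w98 : PV o98 := fun P h => h.t 0 0 6 7 0 2 1 3 4 5 (by decide +kernel)
def w99 : PV o99 := fun P h => h.t 0 0 6 7 0 3 1 2 4 5 (by decide +kernel)
def w100 : PV o100 := fun P h => h.t 0 0 6 7 1 2 0 3 4 5 (by decide +kernel)
def w101 : PV o101 := fun P h => h.t 0 0 6 7 1 3 0 2 4 5 (by decide +kernel)
def w102 : PV o102 := fun P h => h.t 0 0 6 7 2 3 0 1 4 5 (by decide +kernel)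
def w103 : PV o103 := fun P h => h.t 0 0 7 1 0 1 2 3 4 5 (by decide +kernel)
def w104 : PV o104 := fun P h => h.t 0 0 7 1 4 5 0 1 2 3 (by decide +kernel)
def w105 : PV o105 := fun P h => h.t 0 0 7 3 0 1 2 3 4 5 (by decide +kernel)
def w106 : PV o106 := fun P h => h.t 0 0 7 3 0 2 1 3 4 5 (by decide +kernel)
def w107 : PV o107 := fun P h => h.t 0 0 7 3 0 3 1 2 4 5 (by decide +kernel)
def w108 : PV o108 := fun P h => h.t 0 0 7 3 1 2 0 3 4 5 (by decide +kernel)
def w109 : PV o109 := fun P h => h.t 0 0 7 3 1 3 0 2 4 5 (by decide +kernel)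
def w110 : PV o110 := fun P h => h.t 0 0 7 3 2 3 0 1 4 5 (by decide +kernel)
def w111 : PV o111 := fun P h => h.t 0 0 7 4 1 3 0 2 4 5 (by decide +kernel)
def w112 : PV o112 := fun P h => h.t 0 0 7 6 0 3 1 2 4 5 (by decide +kernel)
def w113 : PV o113 := fun P h => h.t 0 0 7 6 0 3 4 5 1 2 (by decide +kernel)
def w114 : PV o114 := fun P h => h.t 0 0 7 6 1 2 0 3 4 5 (by decide +kernel)
def w115 : PV o115 := fun P h => h.t 0 0 7 6 1 2 3 5 0 4 (by decide +kernel)
def w116 : PV o116 := fun P h => h.t 0 0 7 6 1 3 0 2 4 5 (by decide +kernel)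
def w117 : PV o117 := fun P h => h.t 0 0 7 6 2 3 0 1 4 5 (by decide +kernel)
def w118 : PV o118 := fun P h => h.t 0 0 7 7 0 2 1 3 4 5 (by decide +kernel)
def w119 : PV o119 := fun P h => h.t 0 0 7 7 0 3 1 2 4 5 (by decide +kernel)
def w120 : PV o120 := fun P h => h.t 0 0 7 7 1 2 0 3 4 5 (by decide +kernel)
def w121 : PV o121 := fun P h => h.t 0 0 7 7 1 2 0 5 3 4 (by decide +kernel)
def w122 : PV o122 := fun P h => h.t 0 0 7 7 1 3 0 2 4 5 (by decide +kernel)
def w123 : PV o123 := fun P h => h.t 0 0 7 7 2 3 0 1 4 5 (by decide +kernel)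
def w124 : PV o124 := fun P h => h.x 0 1 0 15 (by decide +kernel)
def w125 : PV o125 := fun P h => h.x 0 1 0 13 (by decide +kernel)
def w126 : PV o126 := fun P h => h.x 0 1 0 12 (by decide +kernel)
def w127 : PV o127 := fun P h => h.t 0 1 1 2 0 2 3 4 1 5 (by decide +kernel)
def w128 : PV o128 := fun P h => h.t 0 1 1 2 0 3 4 5 1 2 (by decide +kernel)
def w129 : PV o129 := fun P h => h.t 0 1 1 2 0 4 2 5 1 3 (by decide +kernel)
def w130 : PV o130 := fun P h => h.t 0 1 1 2 1 2 0 4 3 5 (by decide +kernel)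
def w131 : PV o131 := fun P h => h.t 0 1 1 2 1 2 0 5 3 4 (by decide +kernel)
def w132 : PV o132 := fun P h => h.t 0 1 1 2 2 3 0 4 1 5 (by decide +kernel)
def w133 : PV o133 := fun P h => h.t 0 1 1 2 2 3 0 5 1 4 (by decide +kernel)
def w134 : PV o134 := fun P h => h.t 0 1 1 2 2 4 0 5 1 3 (by decide +kernel)
def w135 : PV o135 := fun P h => h.t 0 1 1 2 3 4 0 5 1 2 (by decide +kernel)
def w136 : PV o136 := fun P h => h.t 0 1 1 3 0 4 1 2 3 5 (by decide +kernel)
def w137 : PV o137 := fun P h => h.t 0 1 1 3 1 4 0 2 3 5 (by decide +kernel)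
def w138 : PV o138 := fun P h => h.t 0 1 1 3 2 4 0 1 3 5 (by decide +kernel)
def w139 : PV o139 := fun P h => h.t 0 1 1 4 0 2 3 4 1 5 (by decide +kernel)
def w140 : PV o140 := fun P h => h.t 0 1 1 4 0 3 4 5 1 2 (by decide +kernel)
def w141 : PV o141 := fun P h => h.t 0 1 1 4 2 3 0 4 1 5 (by decide +kernel)
def w142 : PV o142 := fun P h => h.t 0 1 1 4 2 4 0 5 1 3 (by decide +kernel)
def w143 : PV o143 := fun P h => h.t 0 1 1 4 3 4 0 5 1 2 (by decide +kernel)
def w144 : PV o144 := fun P h => h.t 0 1 1 5 0 1 3 4 2 5 (by decide +kernel)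
def w145 : PV o145 := fun P h => h.t 0 1 1 5 0 2 3 4 1 5 (by decide +kernel)
def w146 : PV o146 := fun P h => h.t 0 1 1 5 0 3 4 5 1 2 (by decide +kernel)
def w147 : PV o147 := fun P h => h.t 0 1 1 5 0 4 2 5 1 3 (by decide +kernel)
def w148 : PV o148 := fun P h => h.t 0 1 1 5 2 3 0 4 1 5 (by decide +kernel)
def w149 : PV o149 := fun P h => h.t 0 1 1 5 2 4 0 5 1 3 (by decide +kernel)
def w150 : PV o150 := fun P h => h.t 0 1 1 5 3 4 0 5 1 2 (by decide +kernel)
def w151 : PV o151 := fun P h => h.t 0 1 1 6 0 2 3 4 1 5 (by decide +kernel)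
def w152 : PV o152 := fun P h => h.t 0 1 1 6 0 3 4 5 1 2 (by decide +kernel)
def w153 : PV o153 := fun P h => h.t 0 1 1 6 0 4 2 5 1 3 (by decide +kernel)
def w154 : PV o154 := fun P h => h.t 0 1 1 6 1 3 4 5 0 2 (by decide +kernel)
def w155 : PV o155 := fun P h => h.t 0 1 1 6 2 3 0 4 1 5 (by decide +kernel)
def w156 : PV o156 := fun P h => h.t 0 1 1 6 2 4 0 5 1 3 (by decide +kernel)
def w157 : PV o157 := fun P h => h.t 0 1 1 6 3 4 0 5 1 2 (by decide +kernel)
def w158 : PV o158 := fun P h => h.t 0 1 1 7 0 1 2 4 3 5 (by decide +kernel)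
def w159 : PV o159 := fun P h => h.t 0 1 1 7 0 1 3 4 2 5 (by decide +kernel)
def w160 : PV o160 := fun P h => h.t 0 1 1 7 0 1 4 5 2 3 (by decide +kernel)
def w161 : PV o161 := fun P h => h.t 0 1 1 7 0 2 3 4 1 5 (by decide +kernel)
def w162 : PV o162 := fun P h => h.t 0 1 1 7 0 2 4 5 1 3 (by decide +kernel)
def w163 : PV o163 := fun P h => h.t 0 1 1 7 0 3 1 5 2 4 (by decide +kernel)
def w164 : PV o164 := fun P h => h.t 0 1 1 7 0 3 4 5 1 2 (by decide +kernel)
def w165 : PV o165 := fun P h => h.t 0 1 1 7 0 4 2 5 1 3 (by decide +kernel)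
def w166 : PV o166 := fun P h => h.t 0 1 1 7 1 2 4 5 0 3 (by decide +kernel)
def w167 : PV o167 := fun P h => h.t 0 1 1 7 1 3 0 5 2 4 (by decide +kernel)
def w168 : PV o168 := fun P h => h.t 0 1 1 7 1 3 4 5 0 2 (by decide +kernel)
def w169 : PV o169 := fun P h => h.t 0 1 1 7 2 3 0 4 1 5 (by decide +kernel)
def w170 : PV o170 := fun P h => h.t 0 1 1 7 2 4 0 5 1 3 (by decide +kernel)
def w171 : PV o171 := fun P h => h.t 0 1 1 7 3 4 0 5 1 2 (by decide +kernel)
def w172 : PV o172 := fun P h => h.t 0 1 1 7 3 4 1 5 0 2 (by decide +kernel)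
def w173 : PV o173 := fun P h => h.t 0 1 2 2 0 2 3 4 1 5 (by decide +kernel)
def w174 : PV o174 := fun P h => h.t 0 1 2 3 0 2 3 4 1 5 (by decide +kernel)
def w175 : PV o175 := fun P h => h.t 0 1 2 3 0 2 3 5 1 4 (by decide +kernel)
def w176 : PV o176 := fun P h => h.t 0 1 2 3 0 2 4 5 1 3 (by decide +kernel)
def w177 : PV o177 := fun P h => h.t 0 1 2 3 0 3 1 4 2 5 (by decide +kernel)
def w178 : PV o178 := fun P h => h.t 0 1 2 3 0 3 1 5 2 4 (by decide +kernel)
def w179 : PV o179 := fun P h => h.t 0 1 2 3 0 4 1 2 3 5 (by decide +kernel)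
def w180 : PV o180 := fun P h => h.t 0 1 2 6 0 3 4 5 1 2 (by decide +kernel)
def w181 : PV o181 := fun P h => h.t 0 1 2 6 0 5 1 2 3 4 (by decide +kernel)
def w182 : PV o182 := fun P h => h.t 0 1 2 7 0 3 4 5 1 2 (by decide +kernel)
def w183 : PV o183 := fun P h => h.x 0 1 2 15 (by decide +kernel)
def w184 : PV o184 := fun P h => h.t 0 1 3 2 0 1 2 3 4 5 (by decide +kernel)
def w185 : PV o185 := fun P h => h.t 0 1 3 2 0 1 2 4 3 5 (by decide +kernel)
def w186 : PV o186 := fun P h => h.t 0 1 3 2 0 1 2 5 3 4 (by decide +kernel)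
def w187 : PV o187 := fun P h => h.t 0 1 3 2 0 2 3 4 1 5 (by decide +kernel)
def w188 : PV o188 := fun P h => h.t 0 1 3 2 0 2 3 5 1 4 (by decide +kernel)
def w189 : PV o189 := fun P h => h.t 0 1 3 2 0 3 4 5 1 2 (by decide +kernel)
def w190 : PV o190 := fun P h => h.t 0 1 3 3 0 2 1 3 4 5 (by decide +kernel)
def w191 : PV o191 := fun P h => h.t 0 1 3 3 0 2 3 4 1 5 (by decide +kernel)
def w192 : PV o192 := fun P h => h.t 0 1 3 3 0 4 1 2 3 5 (by decide +kernel)
def w193 : PV o193 := fun P h => h.t 0 1 3 3 1 3 0 4 2 5 (by decide +kernel)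
def w194 : PV o194 := fun P h => h.t 0 1 3 3 1 4 0 2 3 5 (by decide +kernel)
def w195 : PV o195 := fun P h => h.t 0 1 3 3 2 4 0 1 3 5 (by decide +kernel)
def w196 : PV o196 := fun P h => h.t 0 1 3 4 0 1 2 3 4 5 (by decide +kernel)
def w197 : PV o197 := fun P h => h.t 0 1 3 4 0 1 2 4 3 5 (by decide +kernel)
def w198 : PV o198 := fun P h => h.t 0 1 3 4 0 1 2 5 3 4 (by decide +kernel)
def w199 : PV o199 := fun P h => h.t 0 1 3 4 0 1 3 4 2 5 (by decide +kernel)
def w200 : PV o200 := fun P h => h.t 0 1 3 4 0 1 3 5 2 4 (by decide +kernel)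
def w201 : PV o201 := fun P h => h.t 0 1 3 4 0 2 3 4 1 5 (by decide +kernel)
def w202 : PV o202 := fun P h => h.t 0 1 3 4 0 2 3 5 1 4 (by decide +kernel)
def w203 : PV o203 := fun P h => h.t 0 1 3 4 0 3 4 5 1 2 (by decide +kernel)
def w204 : PV o204 := fun P h => h.t 0 1 3 4 1 2 3 4 0 5 (by decide +kernel)
def w205 : PV o205 := fun P h => h.t 0 1 3 4 1 2 4 5 0 3 (by decide +kernel)
def w206 : PV o206 := fun P h => h.t 0 1 3 5 0 1 2 3 4 5 (by decide +kernel)
def w207 : PV o207 := fun P h => h.t 0 1 3 5 0 1 2 4 3 5 (by decide +kernel)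
def w208 : PV o208 := fun P h => h.t 0 1 3 5 0 1 2 5 3 4 (by decide +kernel)
def w209 : PV o209 := fun P h => h.t 0 1 3 5 0 2 3 4 1 5 (by decide +kernel)
def w210 : PV o210 := fun P h => h.t 0 1 3 5 0 2 3 5 1 4 (by decide +kernel)
def w211 : PV o211 := fun P h => h.t 0 1 3 5 0 3 4 5 1 2 (by decide +kernel)
def w212 : PV o212 := fun P h => h.t 0 1 3 6 0 1 2 3 4 5 (by decide +kernel)
def w213 : PV o213 := fun P h => h.t 0 1 3 6 0 1 2 4 3 5 (by decide +kernel)
def w214 : PV o214 := fun P h => h.t 0 1 3 6 0 1 2 5 3 4 (by decide +kernel)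
def w215 : PV o215 := fun P h => h.t 0 1 3 6 0 1 3 4 2 5 (by decide +kernel)
def w216 : PV o216 := fun P h => h.t 0 1 3 6 0 1 3 5 2 4 (by decide +kernel)
def w217 : PV o217 := fun P h => h.t 0 1 3 6 0 1 4 5 2 3 (by decide +kernel)
def w218 : PV o218 := fun P h => h.t 0 1 3 6 0 2 3 4 1 5 (by decide +kernel)
def w219 : PV o219 := fun P h => h.t 0 1 3 6 0 2 3 5 1 4 (by decide +kernel)
def w220 : PV o220 := fun P h => h.t 0 1 3 6 0 3 4 5 1 2 (by decide +kernel)
def w221 : PV o221 := fun P h => h.t 0 1 3 6 1 2 3 5 0 4 (by decide +kernel)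
def w222 : PV o222 := fun P h => h.t 0 1 3 6 1 2 4 5 0 3 (by decide +kernel)
def w223 : PV o223 := fun P h => h.t 0 1 3 6 2 3 4 5 0 1 (by decide +kernel)
def w224 : PV o224 := fun P h => h.t 0 1 3 7 0 1 2 3 4 5 (by decide +kernel)
def w225 : PV o225 := fun P h => h.t 0 1 3 7 0 1 2 4 3 5 (by decide +kernel)
def w226 : PV o226 := fun P h => h.t 0 1 3 7 0 1 2 5 3 4 (by decide +kernel)
def w227 : PV o227 := fun P h => h.t 0 1 3 7 0 1 3 4 2 5 (by decide +kernel)
def w228 : PV o228 := fun P h => h.t 0 1 3 7 0 1 3 5 2 4 (by decide +kernel)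
def w229 : PV o229 := fun P h => h.t 0 1 3 7 0 1 4 5 2 3 (by decide +kernel)
def w230 : PV o230 := fun P h => h.t 0 1 3 7 0 2 3 4 1 5 (by decide +kernel)
def w231 : PV o231 := fun P h => h.t 0 1 3 7 0 2 3 5 1 4 (by decide +kernel)
def w232 : PV o232 := fun P h => h.t 0 1 3 7 0 3 4 5 1 2 (by decide +kernel)
def w233 : PV o233 := fun P h => h.t 0 1 3 7 1 2 4 5 0 3 (by decide +kernel)
def w234 : PV o234 := fun P h => h.t 0 1 3 7 1 3 4 5 0 2 (by decide +kernel)
def w235 : PV o235 := fun P h => h.t 0 1 3 7 2 3 4 5 0 1 (by decide +kernel)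
def w236 : PV o236 := fun P h => h.x 0 1 3 15 (by decide +kernel)
def w237 : PV o237 := fun P h => h.t 0 1 4 3 0 2 3 4 1 5 (by decide +kernel)
def w238 : PV o238 := fun P h => h.t 0 1 4 3 0 2 3 5 1 4 (by decide +kernel)
def w239 : PV o239 := fun P h => h.t 0 1 4 3 0 2 4 5 1 3 (by decide +kernel)
def w240 : PV o240 := fun P h => h.t 0 1 4 3 0 3 1 4 2 5 (by decide +kernel)
def w241 : PV o241 := fun P h => h.t 0 1 4 3 0 3 1 5 2 4 (by decide +kernel)
def w242 : PV o242 := fun P h => h.t 0 1 4 3 0 4 1 2 3 5 (by decide +kernel)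
def w243 : PV o243 := fun P h => h.t 0 1 4 3 0 4 3 5 1 2 (by decide +kernel)
def w244 : PV o244 := fun P h => h.t 0 1 4 3 2 4 0 1 3 5 (by decide +kernel)
def w245 : PV o245 := fun P h => h.t 0 1 4 4 0 2 3 4 1 5 (by decide +kernel)
def w246 : PV o246 := fun P h => h.t 0 1 4 4 0 3 4 5 1 2 (by decide +kernel)
def w247 : PV o247 := fun P h => h.t 0 1 4 4 1 4 0 5 2 3 (by decide +kernel)
def w248 : PV o248 := fun P h => h.t 0 1 4 5 0 1 2 3 4 5 (by decide +kernel)
def w249 : PV o249 := fun P h => h.t 0 1 4 5 0 3 4 5 1 2 (by decide +kernel)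
def w250 : PV o250 := fun P h => h.t 0 1 4 6 0 3 4 5 1 2 (by decide +kernel)
def w251 : PV o251 := fun P h => h.t 0 1 4 6 0 5 1 2 3 4 (by decide +kernel)
def w252 : PV o252 := fun P h => h.t 0 1 4 7 0 1 2 3 4 5 (by decide +kernel)
def w253 : PV o253 := fun P h => h.t 0 1 4 7 0 1 2 4 3 5 (by decide +kernel)
def w254 : PV o254 := fun P h => h.t 0 1 4 7 0 1 2 5 3 4 (by decide +kernel)
def w255 : PV o255 := fun P h => h.t 0 1 4 7 0 1 3 4 2 5 (by decide +kernel)
def w256 : PV o256 := fun P h => h.t 0 1 4 7 0 1 3 5 2 4 (by decide +kernel)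
def w257 : PV o257 := fun P h => h.t 0 1 4 7 0 3 4 5 1 2 (by decide +kernel)
def w258 : PV o258 := fun P h => h.t 0 1 4 7 0 5 1 2 3 4 (by decide +kernel)
def w259 : PV o259 := fun P h => h.x 0 1 4 15 (by decide +kernel)
def w260 : PV o260 := fun P h => h.t 0 1 5 3 0 2 3 4 1 5 (by decide +kernel)
def w261 : PV o261 := fun P h => h.t 0 1 5 3 0 2 3 5 1 4 (by decide +kernel)
def w262 : PV o262 := fun P h => h.t 0 1 5 3 0 2 4 5 1 3 (by decide +kernel)
def w263 : PV o263 := fun P h => h.t 0 1 5 3 0 3 1 4 2 5 (by decide +kernel)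
def w264 : PV o264 := fun P h => h.t 0 1 5 3 0 3 1 5 2 4 (by decide +kernel)
def w265 : PV o265 := fun P h => h.t 0 1 5 3 0 4 1 2 3 5 (by decide +kernel)
def w266 : PV o266 := fun P h => h.t 0 1 5 3 0 4 3 5 1 2 (by decide +kernel)
def w267 : PV o267 := fun P h => h.t 0 1 5 4 0 3 4 5 1 2 (by decide +kernel)
def w268 : PV o268 := fun P h => h.t 0 1 5 5 0 2 3 4 1 5 (by decide +kernel)
def w269 : PV o269 := fun P h => h.t 0 1 5 5 0 3 4 5 1 2 (by decide +kernel)
def w270 : PV o270 := fun P h => h.t 0 1 5 5 1 4 0 5 2 3 (by decide +kernel)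
def w271 : PV o271 := fun P h => h.t 0 1 5 6 0 3 4 5 1 2 (by decide +kernel)
def w272 : PV o272 := fun P h => h.t 0 1 5 6 0 5 1 2 3 4 (by decide +kernel)
def w273 : PV o273 := fun P h => h.t 0 1 5 7 0 1 2 3 4 5 (by decide +kernel)
def w274 : PV o274 := fun P h => h.t 0 1 5 7 0 3 4 5 1 2 (by decide +kernel)
def w275 : PV o275 := fun P h => h.t 0 1 5 7 0 5 1 2 3 4 (by decide +kernel)
def w276 : PV o276 := fun P h => h.t 0 1 5 7 0 5 3 4 1 2 (by decide +kernel)
def w277 : PV o277 := fun P h => h.t 0 1 5 7 2 3 4 5 0 1 (by decide +kernel)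
def w278 : PV o278 := fun P h => h.x 0 1 5 15 (by decide +kernel)
def w279 : PV o279 := fun P h => h.t 0 1 6 2 0 3 4 5 1 2 (by decide +kernel)
def w280 : PV o280 := fun P h => h.t 0 1 6 3 0 2 3 4 1 5 (by decide +kernel)
def w281 : PV o281 := fun P h => h.t 0 1 6 3 0 2 3 5 1 4 (by decide +kernel)
def w282 : PV o282 := fun P h => h.t 0 1 6 3 0 2 4 5 1 3 (by decide +kernel)
def w283 : PV o283 := fun P h => h.t 0 1 6 3 0 3 1 4 2 5 (by decide +kernel)
def w284 : PV o284 := fun P h => h.t 0 1 6 3 0 3 1 5 2 4 (by decide +kernel)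
def w285 : PV o285 := fun P h => h.t 0 1 6 3 0 4 1 2 3 5 (by decide +kernel)
def w286 : PV o286 := fun P h => h.t 0 1 6 3 1 3 0 4 2 5 (by decide +kernel)
def w287 : PV o287 := fun P h => h.t 0 1 6 3 2 4 0 1 3 5 (by decide +kernel)
def w288 : PV o288 := fun P h => h.t 0 1 6 3 3 4 0 2 1 5 (by decide +kernel)
def w289 : PV o289 := fun P h => h.t 0 1 6 4 0 3 4 5 1 2 (by decide +kernel)
def w290 : PV o290 := fun P h => h.t 0 1 6 5 0 1 2 3 4 5 (by decide +kernel)
def w291 : PV o291 := fun P h => h.t 0 1 6 5 0 1 2 4 3 5 (by decide +kernel)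
def w292 : PV o292 := fun P h => h.t 0 1 6 5 0 1 3 5 2 4 (by decide +kernel)
def w293 : PV o293 := fun P h => h.t 0 1 6 5 0 2 3 5 1 4 (by decide +kernel)
def w294 : PV o294 := fun P h => h.t 0 1 6 5 0 3 1 4 2 5 (by decide +kernel)
def w295 : PV o295 := fun P h => h.t 0 1 6 5 0 3 4 5 1 2 (by decide +kernel)
def w296 : PV o296 := fun P h => h.t 0 1 6 5 0 4 1 2 3 5 (by decide +kernel)
def w297 : PV o297 := fun P h => h.t 0 1 6 6 0 3 4 5 1 2 (by decide +kernel)
def w298 : PV o298 := fun P h => h.t 0 1 6 6 1 4 0 5 2 3 (by decide +kernel)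
def w299 : PV o299 := fun P h => h.t 0 1 6 7 0 1 2 3 4 5 (by decide +kernel)
def w300 : PV o300 := fun P h => h.t 0 1 6 7 0 1 2 4 3 5 (by decide +kernel)
def w301 : PV o301 := fun P h => h.t 0 1 6 7 0 1 2 5 3 4 (by decide +kernel)
def w302 : PV o302 := fun P h => h.t 0 1 6 7 0 1 3 4 2 5 (by decide +kernel)
def w303 : PV o303 := fun P h => h.t 0 1 6 7 0 1 3 5 2 4 (by decide +kernel)
def w304 : PV o304 := fun P h => h.t 0 1 6 7 0 3 2 4 1 5 (by decide +kernel)
def w305 : PV o305 := fun P h => h.t 0 1 6 7 0 3 4 5 1 2 (by decide +kernel)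
def w306 : PV o306 := fun P h => h.t 0 1 6 7 0 5 1 2 3 4 (by decide +kernel)
def w307 : PV o307 := fun P h => h.t 0 1 6 7 0 5 2 3 1 4 (by decide +kernel)
def w308 : PV o308 := fun P h => h.t 0 1 6 7 2 4 0 1 3 5 (by decide +kernel)
def w309 : PV o309 := fun P h => h.t 0 1 6 7 3 4 0 5 1 2 (by decide +kernel)
def w310 : PV o310 := fun P h => h.t 0 1 6 7 3 5 0 2 1 4 (by decide +kernel)
def w311 : PV o311 := fun P h => h.t 0 1 6 7 3 5 1 2 0 4 (by decide +kernel)
def w312 : PV o312 := fun P h => h.x 0 1 6 15 (by decide +kernel)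
def w313 : PV o313 := fun P h => h.t 0 1 7 2 0 1 2 3 4 5 (by decide +kernel)
def w314 : PV o314 := fun P h => h.t 0 1 7 2 0 3 4 5 1 2 (by decide +kernel)
def w315 : PV o315 := fun P h => h.t 0 1 7 3 0 2 3 4 1 5 (by decide +kernel)
def w316 : PV o316 := fun P h => h.t 0 1 7 3 0 2 3 5 1 4 (by decide +kernel)
def w317 : PV o317 := fun P h => h.t 0 1 7 3 0 2 4 5 1 3 (by decide +kernel)
def w318 : PV o318 := fun P h => h.t 0 1 7 3 0 3 1 4 2 5 (by decide +kernel)
def w319 : PV o319 := fun P h => h.t 0 1 7 3 0 3 1 5 2 4 (by decide +kernel)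
def w320 : PV o320 := fun P h => h.t 0 1 7 3 0 3 2 4 1 5 (by decide +kernel)
def w321 : PV o321 := fun P h => h.t 0 1 7 3 0 3 2 5 1 4 (by decide +kernel)
def w322 : PV o322 := fun P h => h.t 0 1 7 3 0 4 1 2 3 5 (by decide +kernel)
def w323 : PV o323 := fun P h => h.t 0 1 7 3 0 4 3 5 1 2 (by decide +kernel)
def w324 : PV o324 := fun P h => h.t 0 1 7 3 1 3 0 4 2 5 (by decide +kernel)
def w325 : PV o325 := fun P h => h.t 0 1 7 3 1 3 0 5 2 4 (by decide +kernel)
def w326 : PV o326 := fun P h => h.t 0 1 7 3 1 4 2 5 0 3 (by decide +kernel)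
def w327 : PV o327 := fun P h => h.t 0 1 7 3 2 3 1 4 0 5 (by decide +kernel)
def w328 : PV o328 := fun P h => h.t 0 1 7 3 2 3 1 5 0 4 (by decide +kernel)
def w329 : PV o329 := fun P h => h.t 0 1 7 3 2 4 0 1 3 5 (by decide +kernel)
def w330 : PV o330 := fun P h => h.t 0 1 7 3 3 4 2 5 0 1 (by decide +kernel)
def w331 : PV o331 := fun P h => h.t 0 1 7 3 4 5 0 3 1 2 (by decide +kernel)
def w332 : PV o332 := fun P h => h.t 0 1 7 3 4 5 1 3 0 2 (by decide +kernel)
def w333 : PV o333 := fun P h => h.t 0 1 7 3 4 5 2 3 0 1 (by decide +kernel)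
def w334 : PV o334 := fun P h => h.t 0 1 7 4 0 1 2 3 4 5 (by decide +kernel)
def w335 : PV o335 := fun P h => h.t 0 1 7 4 0 3 4 5 1 2 (by decide +kernel)
def w336 : PV o336 := fun P h => h.t 0 1 7 5 0 1 2 3 4 5 (by decide +kernel)
def w337 : PV o337 := fun P h => h.t 0 1 7 5 0 3 4 5 1 2 (by decide +kernel)
def w338 : PV o338 := fun P h => h.t 0 1 7 6 0 1 2 5 3 4 (by decide +kernel)
def w339 : PV o339 := fun P h => h.t 0 1 7 6 0 3 1 5 2 4 (by decide +kernel)
def w340 : PV o340 := fun P h => h.t 0 1 7 6 0 3 4 5 1 2 (by decide +kernel)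
def w341 : PV o341 := fun P h => h.t 0 1 7 6 0 4 1 5 2 3 (by decide +kernel)
def w342 : PV o342 := fun P h => h.t 0 1 7 6 0 5 1 2 3 4 (by decide +kernel)
def w343 : PV o343 := fun P h => h.t 0 1 7 6 1 2 0 5 3 4 (by decide +kernel)
def w344 : PV o344 := fun P h => h.t 0 1 7 6 1 3 4 5 0 2 (by decide +kernel)
def w345 : PV o345 := fun P h => h.t 0 1 7 6 2 3 0 5 1 4 (by decide +kernel)
def w346 : PV o346 := fun P h => h.t 0 1 7 6 2 3 4 5 0 1 (by decide +kernel)
def w347 : PV o347 := fun P h => h.t 0 1 7 6 2 4 0 5 1 3 (by decide +kernel)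
def w348 : PV o348 := fun P h => h.t 0 1 7 6 2 5 0 1 3 4 (by decide +kernel)
def w349 : PV o349 := fun P h => h.t 0 1 7 6 3 4 0 5 1 2 (by decide +kernel)
def w350 : PV o350 := fun P h => h.t 0 1 7 6 4 5 0 3 1 2 (by decide +kernel)
def w351 : PV o351 := fun P h => h.t 0 1 7 7 0 2 3 4 1 5 (by decide +kernel)
def w352 : PV o352 := fun P h => h.t 0 1 7 7 0 3 4 5 1 2 (by decide +kernel)
def w353 : PV o353 := fun P h => h.t 0 1 7 7 0 4 1 5 2 3 (by decide +kernel)
def w354 : PV o354 := fun P h => h.t 0 1 7 7 2 4 3 5 0 1 (by decide +kernel)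
def w355 : PV o355 := fun P h => h.t 0 1 7 7 3 4 0 5 1 2 (by decide +kernel)
def w356 : PV o356 := fun P h => h.t 0 1 7 7 3 4 1 5 0 2 (by decide +kernel)
def w357 : PV o357 := fun P h => h.t 0 1 7 7 3 4 2 5 0 1 (by decide +kernel)
def w358 : PV o358 := fun P h => h.x 0 1 7 15 (by decide +kernel)
def w359 : PV o359 := fun P h => h.x 0 2 0 13 (by decide +kernel)
def w360 : PV o360 := fun P h => h.x 0 2 0 4 (by decide +kernel)
def w361 : PV o361 := fun P h => h.x 0 2 0 0 (by decide +kernel)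
def w362 : PV o362 := fun P h => h.x 0 2 1 15 (by decide +kernel)
def w363 : PV o363 := fun P h => h.t 0 2 2 3 2 3 0 5 1 4 (by decide +kernel)
def w364 : PV o364 := fun P h => h.t 0 2 2 6 0 5 1 2 3 4 (by decide +kernel)
def w365 : PV o365 := fun P h => h.t 0 2 2 7 0 5 1 2 3 4 (by decide +kernel)
def w366 : PV o366 := fun P h => h.t 0 2 3 6 0 3 1 2 4 5 (by decide +kernel)
def w367 : PV o367 := fun P h => h.t 0 2 3 6 0 5 1 2 3 4 (by decide +kernel)
def w368 : PV o368 := fun P h => h.t 0 2 3 6 3 4 0 1 2 5 (by decide +kernel)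
def w369 : PV o369 := fun P h => h.t 0 2 3 7 0 1 2 3 4 5 (by decide +kernel)
def w370 : PV o370 := fun P h => h.t 0 2 3 7 0 5 1 2 3 4 (by decide +kernel)
def w371 : PV o371 := fun P h => h.t 0 2 3 7 2 3 0 1 4 5 (by decide +kernel)
def w372 : PV o372 := fun P h => h.t 0 2 6 3 0 1 2 3 4 5 (by decide +kernel)
def w373 : PV o373 := fun P h => h.t 0 2 6 3 1 4 2 3 0 5 (by decide +kernel)
def w374 : PV o374 := fun P h => h.t 0 2 6 3 3 4 0 1 2 5 (by decide +kernel)
def w375 : PV o375 := fun P h => h.t 0 2 6 7 0 1 2 3 4 5 (by decide +kernel)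
def w376 : PV o376 := fun P h => h.t 0 2 6 7 0 2 1 3 4 5 (by decide +kernel)
def w377 : PV o377 := fun P h => h.t 0 2 7 3 1 3 2 4 0 5 (by decide +kernel)
def w378 : PV o378 := fun P h => h.t 0 2 7 3 1 4 2 3 0 5 (by decide +kernel)
def w379 : PV o379 := fun P h => h.t 0 2 7 3 2 3 0 4 1 5 (by decide +kernel)
def w380 : PV o380 := fun P h => h.t 0 2 7 3 2 4 0 3 1 5 (by decide +kernel)
def w381 : PV o381 := fun P h => h.t 0 2 7 3 3 4 0 1 2 5 (by decide +kernel)
def w382 : PV o382 := fun P h => h.t 0 2 7 6 0 4 1 5 2 3 (by decide +kernel)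
def w383 : PV o383 := fun P h => h.t 0 2 7 6 1 5 2 3 0 4 (by decide +kernel)
def w384 : PV o384 := fun P h => h.t 0 2 7 6 3 4 0 1 2 5 (by decide +kernel)
def w385 : PV o385 := fun P h => h.t 0 2 7 7 0 4 1 5 2 3 (by decide +kernel)
def w386 : PV o386 := fun P h => h.t 0 2 7 7 3 4 0 1 2 5 (by decide +kernel)
def w387 : PV o387 := fun P h => h.t 0 2 7 7 3 4 0 5 1 2 (by decide +kernel)
def w388 : PV o388 := fun P h => h.t 0 2 7 7 3 5 0 4 1 2 (by decide +kernel)
def w389 : PV o389 := fun P h => h.x 0 2 7 12 (by decide +kernel)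
def w390 : PV o390 := fun P h => h.x 0 2 7 4 (by decide +kernel)
def w391 : PV o391 := fun P h => h.x 0 2 7 0 (by decide +kernel)
def w392 : PV o392 := fun P h => h.x 0 3 1 15 (by decide +kernel)
def w393 : PV o393 := fun P h => h.x 0 3 2 15 (by decide +kernel)
def w394 : PV o394 := fun P h => h.t 0 3 3 3 0 2 3 5 1 4 (by decide +kernel)
def w395 : PV o395 := fun P h => h.t 0 3 3 4 0 1 2 4 3 5 (by decide +kernel)
def w396 : PV o396 := fun P h => h.t 0 3 3 4 0 1 2 5 3 4 (by decide +kernel)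
def w397 : PV o397 := fun P h => h.t 0 3 3 4 0 1 3 4 2 5 (by decide +kernel)
def w398 : PV o398 := fun P h => h.t 0 3 3 4 0 1 3 5 2 4 (by decide +kernel)
def w399 : PV o399 := fun P h => h.t 0 3 3 4 0 1 4 5 2 3 (by decide +kernel)
def w400 : PV o400 := fun P h => h.t 0 3 3 4 0 2 1 4 3 5 (by decide +kernel)
def w401 : PV o401 := fun P h => h.t 0 3 3 4 0 2 3 4 1 5 (by decide +kernel)
def w402 : PV o402 := fun P h => h.t 0 3 3 4 0 2 3 5 1 4 (by decide +kernel)
def w403 : PV o403 := fun P h => h.t 0 3 3 4 0 2 4 5 1 3 (by decide +kernel)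
def w404 : PV o404 := fun P h => h.t 0 3 3 4 0 3 4 5 1 2 (by decide +kernel)
def w405 : PV o405 := fun P h => h.t 0 3 3 4 0 4 1 2 3 5 (by decide +kernel)
def w406 : PV o406 := fun P h => h.t 0 3 3 4 0 4 2 3 1 5 (by decide +kernel)
def w407 : PV o407 := fun P h => h.t 0 3 3 4 0 4 2 5 1 3 (by decide +kernel)
def w408 : PV o408 := fun P h => h.t 0 3 3 4 0 5 1 2 3 4 (by decide +kernel)
def w409 : PV o409 := fun P h => h.t 0 3 3 4 0 5 1 3 2 4 (by decide +kernel)
def w410 : PV o410 := fun P h => h.t 0 3 3 4 0 5 2 3 1 4 (by decide +kernel)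
def w411 : PV o411 := fun P h => h.t 0 3 3 4 0 5 2 4 1 3 (by decide +kernel)
def w412 : PV o412 := fun P h => h.t 0 3 3 4 0 5 3 4 1 2 (by decide +kernel)
def w413 : PV o413 := fun P h => h.t 0 3 3 4 1 2 3 5 0 4 (by decide +kernel)
def w414 : PV o414 := fun P h => h.t 0 3 3 4 1 2 4 5 0 3 (by decide +kernel)
def w415 : PV o415 := fun P h => h.t 0 3 3 4 1 3 2 5 0 4 (by decide +kernel)
def w416 : PV o416 := fun P h => h.t 0 3 3 4 1 3 4 5 0 2 (by decide +kernel)
def w417 : PV o417 := fun P h => h.t 0 3 3 4 1 5 2 3 0 4 (by decide +kernel)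
def w418 : PV o418 := fun P h => h.t 0 3 3 5 0 2 4 5 1 3 (by decide +kernel)
def w419 : PV o419 := fun P h => h.t 0 3 3 5 0 3 2 5 1 4 (by decide +kernel)
def w420 : PV o420 := fun P h => h.t 0 3 3 5 0 4 1 2 3 5 (by decide +kernel)
def w421 : PV o421 := fun P h => h.t 0 3 3 5 0 5 1 2 3 4 (by decide +kernel)
def w422 : PV o422 := fun P h => h.t 0 3 3 5 1 2 4 5 0 3 (by decide +kernel)
def w423 : PV o423 := fun P h => h.t 0 3 3 6 0 1 2 5 3 4 (by decide +kernel)
def w424 : PV o424 := fun P h => h.t 0 3 3 6 0 1 3 5 2 4 (by decide +kernel)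
def w425 : PV o425 := fun P h => h.t 0 3 3 6 0 2 3 5 1 4 (by decide +kernel)
def w426 : PV o426 := fun P h => h.t 0 3 3 6 0 3 1 5 2 4 (by decide +kernel)
def w427 : PV o427 := fun P h => h.t 0 3 3 6 0 3 4 5 1 2 (by decide +kernel)
def w428 : PV o428 := fun P h => h.t 0 3 3 6 0 4 2 5 1 3 (by decide +kernel)
def w429 : PV o429 := fun P h => h.t 0 3 3 6 0 5 1 2 3 4 (by decide +kernel)
def w430 : PV o430 := fun P h => h.t 0 3 3 6 0 5 1 3 2 4 (by decide +kernel)
def w431 : PV o431 := fun P h => h.t 0 3 3 6 1 2 3 5 0 4 (by decide +kernel)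
def w432 : PV o432 := fun P h => h.t 0 3 3 6 1 3 4 5 0 2 (by decide +kernel)
def w433 : PV o433 := fun P h => h.t 0 3 3 6 1 5 2 3 0 4 (by decide +kernel)
def w434 : PV o434 := fun P h => h.t 0 3 3 6 1 5 3 4 0 2 (by decide +kernel)
def w435 : PV o435 := fun P h => h.t 0 3 3 7 0 1 3 4 2 5 (by decide +kernel)
def w436 : PV o436 := fun P h => h.t 0 3 3 7 0 1 4 5 2 3 (by decide +kernel)
def w437 : PV o437 := fun P h => h.t 0 3 3 7 0 2 3 4 1 5 (by decide +kernel)
def w438 : PV o438 := fun P h => h.t 0 3 3 7 0 2 4 5 1 3 (by decide +kernel)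
def w439 : PV o439 := fun P h => h.t 0 3 3 7 1 5 2 3 0 4 (by decide +kernel)
def w440 : PV o440 := fun P h => h.t 0 3 4 4 1 2 3 4 0 5 (by decide +kernel)
def w441 : PV o441 := fun P h => h.t 0 3 4 4 2 4 3 5 0 1 (by decide +kernel)
def w442 : PV o442 := fun P h => h.t 0 3 4 4 3 4 0 5 1 2 (by decide +kernel)
def w443 : PV o443 := fun P h => h.t 0 3 4 5 0 2 1 3 4 5 (by decide +kernel)
def w444 : PV o444 := fun P h => h.t 0 3 4 5 0 2 1 4 3 5 (by decide +kernel)
def w445 : PV o445 := fun P h => h.t 0 3 4 5 0 2 1 5 3 4 (by decide +kernel)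
def w446 : PV o446 := fun P h => h.t 0 3 4 5 0 3 1 4 2 5 (by decide +kernel)
def w447 : PV o447 := fun P h => h.t 0 3 4 5 0 3 2 4 1 5 (by decide +kernel)
def w448 : PV o448 := fun P h => h.t 0 3 4 5 0 3 2 5 1 4 (by decide +kernel)
def w449 : PV o449 := fun P h => h.t 0 3 4 5 1 2 0 4 3 5 (by decide +kernel)
def w450 : PV o450 := fun P h => h.t 0 3 4 5 1 3 2 5 0 4 (by decide +kernel)
def w451 : PV o451 := fun P h => h.t 0 3 4 5 2 5 0 3 1 4 (by decide +kernel)
def w452 : PV o452 := fun P h => h.t 0 3 4 5 3 4 0 5 1 2 (by decide +kernel)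
def w453 : PV o453 := fun P h => h.t 0 3 4 5 3 4 1 5 0 2 (by decide +kernel)
def w454 : PV o454 := fun P h => h.t 0 3 4 5 3 5 0 1 2 4 (by decide +kernel)
def w455 : PV o455 := fun P h => h.t 0 3 4 5 3 5 0 2 1 4 (by decide +kernel)
def w456 : PV o456 := fun P h => h.t 0 3 4 6 2 4 3 5 0 1 (by decide +kernel)
def w457 : PV o457 := fun P h => h.t 0 3 4 6 3 4 0 5 1 2 (by decide +kernel)
def w458 : PV o458 := fun P h => h.t 0 3 4 6 4 5 0 1 2 3 (by decide +kernel)
def w459 : PV o459 := fun P h => h.t 0 3 4 7 0 2 1 3 4 5 (by decide +kernel)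
def w460 : PV o460 := fun P h => h.t 0 3 4 7 0 2 1 4 3 5 (by decide +kernel)
def w461 : PV o461 := fun P h => h.t 0 3 4 7 0 2 1 5 3 4 (by decide +kernel)
def w462 : PV o462 := fun P h => h.t 0 3 4 7 1 3 2 4 0 5 (by decide +kernel)
def w463 : PV o463 := fun P h => h.t 0 3 4 7 1 3 2 5 0 4 (by decide +kernel)
def w464 : PV o464 := fun P h => h.t 0 3 4 7 2 4 3 5 0 1 (by decide +kernel)
def w465 : PV o465 := fun P h => h.t 0 3 4 7 2 5 0 3 1 4 (by decide +kernel)
def w466 : PV o466 := fun P h => h.t 0 3 4 7 2 5 1 3 0 4 (by decide +kernel)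
def w467 : PV o467 := fun P h => h.t 0 3 4 7 3 4 0 5 1 2 (by decide +kernel)
def w468 : PV o468 := fun P h => h.t 0 3 4 7 3 4 1 5 0 2 (by decide +kernel)
def w469 : PV o469 := fun P h => h.t 0 3 4 7 4 5 0 1 2 3 (by decide +kernel)
def w470 : PV o470 := fun P h => h.t 0 3 4 7 4 5 0 2 1 3 (by decide +kernel)
def w471 : PV o471 := fun P h => h.x 0 3 4 13 (by decide +kernel)
def w472 : PV o472 := fun P h => h.t 0 3 5 4 0 1 3 4 2 5 (by decide +kernel)
def w473 : PV o473 := fun P h => h.t 0 3 5 4 1 2 3 4 0 5 (by decide +kernel)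
def w474 : PV o474 := fun P h => h.t 0 3 5 4 1 2 3 5 0 4 (by decide +kernel)
def w475 : PV o475 := fun P h => h.t 0 3 5 4 2 4 3 5 0 1 (by decide +kernel)
def w476 : PV o476 := fun P h => h.t 0 3 5 5 1 5 2 3 0 4 (by decide +kernel)
def w477 : PV o477 := fun P h => h.t 0 3 5 6 0 5 1 3 2 4 (by decide +kernel)
def w478 : PV o478 := fun P h => h.t 0 3 5 6 0 5 2 3 1 4 (by decide +kernel)
def w479 : PV o479 := fun P h => h.t 0 3 5 6 1 5 0 3 2 4 (by decide +kernel)
def w480 : PV o480 := fun P h => h.t 0 3 5 6 1 5 2 3 0 4 (by decide +kernel)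
def w481 : PV o481 := fun P h => h.t 0 3 5 6 2 3 4 5 0 1 (by decide +kernel)
def w482 : PV o482 := fun P h => h.t 0 3 5 6 3 4 2 5 0 1 (by decide +kernel)
def w483 : PV o483 := fun P h => h.t 0 3 5 6 4 5 0 1 2 3 (by decide +kernel)
def w484 : PV o484 := fun P h => h.t 0 3 5 6 4 5 0 2 1 3 (by decide +kernel)
def w485 : PV o485 := fun P h => h.t 0 3 5 6 4 5 0 3 1 2 (by decide +kernel)
def w486 : PV o486 := fun P h => h.t 0 3 5 6 4 5 1 2 0 3 (by decide +kernel)
def w487 : PV o487 := fun P h => h.t 0 3 5 6 4 5 1 3 0 2 (by decide +kernel)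
def w488 : PV o488 := fun P h => h.t 0 3 5 7 0 5 1 2 3 4 (by decide +kernel)
def w489 : PV o489 := fun P h => h.t 0 3 5 7 0 5 1 3 2 4 (by decide +kernel)
def w490 : PV o490 := fun P h => h.t 0 3 5 7 1 3 4 5 0 2 (by decide +kernel)
def w491 : PV o491 := fun P h => h.t 0 3 5 7 1 4 2 5 0 3 (by decide +kernel)
def w492 : PV o492 := fun P h => h.t 0 3 5 7 1 5 2 3 0 4 (by decide +kernel)
def w493 : PV o493 := fun P h => h.t 0 3 5 7 2 5 0 3 1 4 (by decide +kernel)
def w494 : PV o494 := fun P h => h.t 0 3 5 7 3 4 1 5 0 2 (by decide +kernel)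
def w495 : PV o495 := fun P h => h.t 0 3 5 7 4 5 2 3 0 1 (by decide +kernel)
def w496 : PV o496 := fun P h => h.x 0 3 5 15 (by decide +kernel)
def w497 : PV o497 := fun P h => h.t 0 3 6 4 0 1 4 5 2 3 (by decide +kernel)
def w498 : PV o498 := fun P h => h.t 0 3 6 4 1 2 3 4 0 5 (by decide +kernel)
def w499 : PV o499 := fun P h => h.t 0 3 6 4 1 2 3 5 0 4 (by decide +kernel)
def w500 : PV o500 := fun P h => h.t 0 3 6 4 1 2 4 5 0 3 (by decide +kernel)
def w501 : PV o501 := fun P h => h.t 0 3 6 4 2 3 4 5 0 1 (by decide +kernel)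
def w502 : PV o502 := fun P h => h.t 0 3 6 4 3 4 0 5 1 2 (by decide +kernel)
def w503 : PV o503 := fun P h => h.t 0 3 6 4 3 4 1 5 0 2 (by decide +kernel)
def w504 : PV o504 := fun P h => h.t 0 3 6 5 0 1 2 3 4 5 (by decide +kernel)
def w505 : PV o505 := fun P h => h.t 0 3 6 5 0 1 2 4 3 5 (by decide +kernel)
def w506 : PV o506 := fun P h => h.t 0 3 6 5 0 1 2 5 3 4 (by decide +kernel)
def w507 : PV o507 := fun P h => h.t 0 3 6 5 0 1 3 4 2 5 (by decide +kernel)
def w508 : PV o508 := fun P h => h.t 0 3 6 5 0 1 3 5 2 4 (by decide +kernel)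
def w509 : PV o509 := fun P h => h.t 0 3 6 5 0 1 4 5 2 3 (by decide +kernel)
def w510 : PV o510 := fun P h => h.t 0 3 6 5 0 3 1 4 2 5 (by decide +kernel)
def w511 : PV o511 := fun P h => h.t 0 3 6 5 0 4 1 2 3 5 (by decide +kernel)
def w512 : PV o512 := fun P h => h.t 0 3 6 5 0 5 1 2 3 4 (by decide +kernel)
def w513 : PV o513 := fun P h => h.t 0 3 6 5 1 3 4 5 0 2 (by decide +kernel)
def w514 : PV o514 := fun P h => h.t 0 3 6 5 1 4 2 5 0 3 (by decide +kernel)
def w515 : PV o515 := fun P h => h.t 0 3 6 5 2 4 0 5 1 3 (by decide +kernel)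
def w516 : PV o516 := fun P h => h.t 0 3 6 5 2 4 1 5 0 3 (by decide +kernel)
def w517 : PV o517 := fun P h => h.t 0 3 6 5 2 5 0 3 1 4 (by decide +kernel)
def w518 : PV o518 := fun P h => h.t 0 3 6 5 2 5 1 3 0 4 (by decide +kernel)
def w519 : PV o519 := fun P h => h.t 0 3 6 5 3 4 0 1 2 5 (by decide +kernel)
def w520 : PV o520 := fun P h => h.t 0 3 6 5 3 4 0 5 1 2 (by decide +kernel)
def w521 : PV o521 := fun P h => h.t 0 3 6 5 3 4 1 5 0 2 (by decide +kernel)
def w522 : PV o522 := fun P h => h.t 0 3 6 5 3 4 2 5 0 1 (by decide +kernel)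
def w523 : PV o523 := fun P h => h.t 0 3 6 5 3 5 0 1 2 4 (by decide +kernel)
def w524 : PV o524 := fun P h => h.t 0 3 6 5 4 5 0 1 2 3 (by decide +kernel)
def w525 : PV o525 := fun P h => h.t 0 3 6 6 1 5 2 3 0 4 (by decide +kernel)
def w526 : PV o526 := fun P h => h.t 0 3 6 6 2 3 4 5 0 1 (by decide +kernel)
def w527 : PV o527 := fun P h => h.t 0 3 6 6 3 4 0 5 1 2 (by decide +kernel)
def w528 : PV o528 := fun P h => h.t 0 3 6 6 3 4 1 5 0 2 (by decide +kernel)
def w529 : PV o529 := fun P h => h.t 0 3 6 7 0 2 3 4 1 5 (by decide +kernel)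
def w530 : PV o530 := fun P h => h.t 0 3 6 7 0 4 1 5 2 3 (by decide +kernel)
def w531 : PV o531 := fun P h => h.t 0 3 6 7 0 5 1 2 3 4 (by decide +kernel)
def w532 : PV o532 := fun P h => h.t 0 3 6 7 0 5 1 3 2 4 (by decide +kernel)
def w533 : PV o533 := fun P h => h.t 0 3 6 7 0 5 1 4 2 3 (by decide +kernel)
def w534 : PV o534 := fun P h => h.t 0 3 6 7 1 2 3 4 0 5 (by decide +kernel)
def w535 : PV o535 := fun P h => h.t 0 3 6 7 1 3 4 5 0 2 (by decide +kernel)
def w536 : PV o536 := fun P h => h.t 0 3 6 7 1 4 2 5 0 3 (by decide +kernel)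
def w537 : PV o537 := fun P h => h.t 0 3 6 7 1 5 0 2 3 4 (by decide +kernel)
def w538 : PV o538 := fun P h => h.t 0 3 6 7 1 5 2 3 0 4 (by decide +kernel)
def w539 : PV o539 := fun P h => h.t 0 3 6 7 2 3 4 5 0 1 (by decide +kernel)
def w540 : PV o540 := fun P h => h.t 0 3 6 7 2 4 0 5 1 3 (by decide +kernel)
def w541 : PV o541 := fun P h => h.t 0 3 6 7 2 4 1 5 0 3 (by decide +kernel)
def w542 : PV o542 := fun P h => h.t 0 3 6 7 2 5 0 3 1 4 (by decide +kernel)
def w543 : PV o543 := fun P h => h.t 0 3 6 7 2 5 1 3 0 4 (by decide +kernel)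
def w544 : PV o544 := fun P h => h.t 0 3 6 7 3 4 0 5 1 2 (by decide +kernel)
def w545 : PV o545 := fun P h => h.t 0 3 6 7 3 4 1 5 0 2 (by decide +kernel)
def w546 : PV o546 := fun P h => h.t 0 3 6 7 3 4 2 5 0 1 (by decide +kernel)
def w547 : PV o547 := fun P h => h.t 0 3 6 7 3 5 0 1 2 4 (by decide +kernel)
def w548 : PV o548 := fun P h => h.t 0 3 6 7 3 5 0 2 1 4 (by decide +kernel)
def w549 : PV o549 := fun P h => h.t 0 3 6 7 3 5 0 4 1 2 (by decide +kernel)
def w550 : PV o550 := fun P h => h.t 0 3 6 7 3 5 1 2 0 4 (by decide +kernel)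
def w551 : PV o551 := fun P h => h.t 0 3 6 7 3 5 1 4 0 2 (by decide +kernel)
def w552 : PV o552 := fun P h => h.t 0 3 6 7 3 5 2 4 0 1 (by decide +kernel)
def w553 : PV o553 := fun P h => h.t 0 3 6 7 4 5 0 1 2 3 (by decide +kernel)
def w554 : PV o554 := fun P h => h.t 0 3 6 7 4 5 0 2 1 3 (by decide +kernel)
def w555 : PV o555 := fun P h => h.t 0 3 6 7 4 5 0 3 1 2 (by decide +kernel)
def w556 : PV o556 := fun P h => h.t 0 3 6 7 4 5 1 2 0 3 (by decide +kernel)
def w557 : PV o557 := fun P h => h.t 0 3 6 7 4 5 1 3 0 2 (by decide +kernel)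
def w558 : PV o558 := fun P h => h.t 0 3 6 7 4 5 2 3 0 1 (by decide +kernel)
def w559 : PV o559 := fun P h => h.x 0 3 6 15 (by decide +kernel)
def w560 : PV o560 := fun P h => h.x 0 3 6 5 (by decide +kernel)
def w561 : PV o561 := fun P h => h.x 0 3 6 0 (by decide +kernel)
def w562 : PV o562 := fun P h => h.t 0 3 7 4 0 1 3 4 2 5 (by decide +kernel)
def w563 : PV o563 := fun P h => h.t 0 3 7 4 0 1 3 5 2 4 (by decide +kernel)
def w564 : PV o564 := fun P h => h.t 0 3 7 4 1 2 3 4 0 5 (by decide +kernel)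
def w565 : PV o565 := fun P h => h.t 0 3 7 4 1 2 3 5 0 4 (by decide +kernel)
def w566 : PV o566 := fun P h => h.t 0 3 7 4 1 2 4 5 0 3 (by decide +kernel)
def w567 : PV o567 := fun P h => h.t 0 3 7 4 2 4 3 5 0 1 (by decide +kernel)
def w568 : PV o568 := fun P h => h.t 0 3 7 5 0 1 2 3 4 5 (by decide +kernel)
def w569 : PV o569 := fun P h => h.t 0 3 7 5 0 1 2 4 3 5 (by decide +kernel)
def w570 : PV o570 := fun P h => h.t 0 3 7 5 0 1 2 5 3 4 (by decide +kernel)
def w571 : PV o571 := fun P h => h.t 0 3 7 5 0 1 3 4 2 5 (by decide +kernel)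
def w572 : PV o572 := fun P h => h.t 0 3 7 5 0 1 3 5 2 4 (by decide +kernel)
def w573 : PV o573 := fun P h => h.t 0 3 7 5 2 3 0 5 1 4 (by decide +kernel)
def w574 : PV o574 := fun P h => h.t 0 3 7 5 3 4 0 5 1 2 (by decide +kernel)
def w575 : PV o575 := fun P h => h.t 0 3 7 6 0 3 1 5 2 4 (by decide +kernel)
def w576 : PV o576 := fun P h => h.t 0 3 7 6 0 4 1 5 2 3 (by decide +kernel)
def w577 : PV o577 := fun P h => h.t 0 3 7 6 0 5 1 2 3 4 (by decide +kernel)
def w578 : PV o578 := fun P h => h.t 0 3 7 6 0 5 2 3 1 4 (by decide +kernel)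
def w579 : PV o579 := fun P h => h.t 0 3 7 6 1 3 2 4 0 5 (by decide +kernel)
def w580 : PV o580 := fun P h => h.t 0 3 7 6 1 3 2 5 0 4 (by decide +kernel)
def w581 : PV o581 := fun P h => h.t 0 3 7 6 1 3 4 5 0 2 (by decide +kernel)
def w582 : PV o582 := fun P h => h.t 0 3 7 6 1 4 2 5 0 3 (by decide +kernel)
def w583 : PV o583 := fun P h => h.t 0 3 7 6 1 4 3 5 0 2 (by decide +kernel)
def w584 : PV o584 := fun P h => h.t 0 3 7 6 1 5 0 3 2 4 (by decide +kernel)
def w585 : PV o585 := fun P h => h.t 0 3 7 6 1 5 2 3 0 4 (by decide +kernel)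
def w586 : PV o586 := fun P h => h.t 0 3 7 6 2 3 0 5 1 4 (by decide +kernel)
def w587 : PV o587 := fun P h => h.t 0 3 7 6 2 3 1 4 0 5 (by decide +kernel)
def w588 : PV o588 := fun P h => h.t 0 3 7 6 2 3 1 5 0 4 (by decide +kernel)
def w589 : PV o589 := fun P h => h.t 0 3 7 6 2 4 0 5 1 3 (by decide +kernel)
def w590 : PV o590 := fun P h => h.t 0 3 7 6 2 4 3 5 0 1 (by decide +kernel)
def w591 : PV o591 := fun P h => h.t 0 3 7 6 2 5 0 3 1 4 (by decide +kernel)
def w592 : PV o592 := fun P h => h.t 0 3 7 6 2 5 0 4 1 3 (by decide +kernel)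
def w593 : PV o593 := fun P h => h.t 0 3 7 6 2 5 3 4 0 1 (by decide +kernel)
def w594 : PV o594 := fun P h => h.t 0 3 7 6 3 4 0 5 1 2 (by decide +kernel)
def w595 : PV o595 := fun P h => h.t 0 3 7 6 3 4 1 5 0 2 (by decide +kernel)
def w596 : PV o596 := fun P h => h.t 0 3 7 6 3 4 2 5 0 1 (by decide +kernel)
def w597 : PV o597 := fun P h => h.t 0 3 7 6 3 5 0 4 1 2 (by decide +kernel)
def w598 : PV o598 := fun P h => h.t 0 3 7 6 3 5 1 4 0 2 (by decide +kernel)
def w599 : PV o599 := fun P h => h.t 0 3 7 6 4 5 0 1 2 3 (by decide +kernel)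
def w600 : PV o600 := fun P h => h.t 0 3 7 6 4 5 0 2 1 3 (by decide +kernel)
def w601 : PV o601 := fun P h => h.t 0 3 7 6 4 5 0 3 1 2 (by decide +kernel)
def w602 : PV o602 := fun P h => h.t 0 3 7 6 4 5 1 2 0 3 (by decide +kernel)
def w603 : PV o603 := fun P h => h.t 0 3 7 6 4 5 1 3 0 2 (by decide +kernel)
def w604 : PV o604 := fun P h => h.t 0 3 7 7 1 3 4 5 0 2 (by decide +kernel)
def w605 : PV o605 := fun P h => h.t 0 3 7 7 1 5 2 3 0 4 (by decide +kernel)
def w606 : PV o606 := fun P h => h.t 0 3 7 7 3 4 0 5 1 2 (by decide +kernel)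
def w607 : PV o607 := fun P h => h.t 0 3 7 7 3 4 1 5 0 2 (by decide +kernel)
def w608 : PV o608 := fun P h => h.x 0 3 7 15 (by decide +kernel)
def w609 : PV o609 := fun P h => h.x 0 4 1 15 (by decide +kernel)
def w610 : PV o610 := fun P h => h.x 0 4 3 12 (by decide +kernel)
def w611 : PV o611 := fun P h => h.t 0 4 4 4 0 2 3 5 1 4 (by decide +kernel)
def w612 : PV o612 := fun P h => h.t 0 4 4 5 0 2 1 5 3 4 (by decide +kernel)
def w613 : PV o613 := fun P h => h.t 0 4 4 5 0 4 1 2 3 5 (by decide +kernel)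
def w614 : PV o614 := fun P h => h.t 0 4 4 5 0 5 1 2 3 4 (by decide +kernel)
def w615 : PV o615 := fun P h => h.t 0 4 4 5 0 5 1 3 2 4 (by decide +kernel)
def w616 : PV o616 := fun P h => h.t 0 4 4 5 2 3 0 4 1 5 (by decide +kernel)
def w617 : PV o617 := fun P h => h.t 0 4 4 5 3 4 0 5 1 2 (by decide +kernel)
def w618 : PV o618 := fun P h => h.t 0 4 4 6 0 4 1 2 3 5 (by decide +kernel)
def w619 : PV o619 := fun P h => h.t 0 4 4 7 0 3 1 5 2 4 (by decide +kernel)
def w620 : PV o620 := fun P h => h.t 0 4 4 7 0 4 1 2 3 5 (by decide +kernel)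
def w621 : PV o621 := fun P h => h.t 0 4 4 7 0 5 1 2 3 4 (by decide +kernel)
def w622 : PV o622 := fun P h => h.t 0 4 4 7 2 3 0 4 1 5 (by decide +kernel)
def w623 : PV o623 := fun P h => h.t 0 4 4 7 4 5 0 3 1 2 (by decide +kernel)
def w624 : PV o624 := fun P h => h.t 0 4 5 5 1 2 3 4 0 5 (by decide +kernel)
def w625 : PV o625 := fun P h => h.t 0 4 5 5 1 5 2 3 0 4 (by decide +kernel)
def w626 : PV o626 := fun P h => h.t 0 4 5 5 3 4 0 5 1 2 (by decide +kernel)
def w627 : PV o627 := fun P h => h.t 0 4 5 6 0 5 1 3 2 4 (by decide +kernel)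
def w628 : PV o628 := fun P h => h.t 0 4 5 6 1 5 0 3 2 4 (by decide +kernel)
def w629 : PV o629 := fun P h => h.t 0 4 5 6 2 4 3 5 0 1 (by decide +kernel)
def w630 : PV o630 := fun P h => h.t 0 4 5 6 3 4 0 5 1 2 (by decide +kernel)
def w631 : PV o631 := fun P h => h.t 0 4 5 6 3 4 1 5 0 2 (by decide +kernel)
def w632 : PV o632 := fun P h => h.t 0 4 5 6 3 5 1 4 0 2 (by decide +kernel)
def w633 : PV o633 := fun P h => h.t 0 4 5 6 4 5 0 2 1 3 (by decide +kernel)
def w634 : PV o634 := fun P h => h.t 0 4 5 7 0 3 1 4 2 5 (by decide +kernel)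
def w635 : PV o635 := fun P h => h.t 0 4 5 7 0 4 1 5 2 3 (by decide +kernel)
def w636 : PV o636 := fun P h => h.t 0 4 5 7 0 5 1 2 3 4 (by decide +kernel)
def w637 : PV o637 := fun P h => h.t 0 4 5 7 1 3 0 4 2 5 (by decide +kernel)
def w638 : PV o638 := fun P h => h.t 0 4 5 7 2 3 0 4 1 5 (by decide +kernel)
def w639 : PV o639 := fun P h => h.t 0 4 5 7 2 4 3 5 0 1 (by decide +kernel)
def w640 : PV o640 := fun P h => h.t 0 4 5 7 2 5 3 4 0 1 (by decide +kernel)
def w641 : PV o641 := fun P h => h.t 0 4 5 7 3 4 0 5 1 2 (by decide +kernel)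
def w642 : PV o642 := fun P h => h.t 0 4 5 7 3 4 2 5 0 1 (by decide +kernel)
def w643 : PV o643 := fun P h => h.t 0 4 5 7 3 5 2 4 0 1 (by decide +kernel)
def w644 : PV o644 := fun P h => h.x 0 4 5 12 (by decide +kernel)
def w645 : PV o645 := fun P h => h.t 0 4 6 5 0 3 2 5 1 4 (by decide +kernel)
def w646 : PV o646 := fun P h => h.t 0 4 6 5 0 5 2 4 1 3 (by decide +kernel)
def w647 : PV o647 := fun P h => h.t 0 4 6 5 0 5 3 4 1 2 (by decide +kernel)
def w648 : PV o648 := fun P h => h.t 0 4 6 6 0 2 3 4 1 5 (by decide +kernel)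
def w649 : PV o649 := fun P h => h.t 0 4 6 7 0 5 1 2 3 4 (by decide +kernel)
def w650 : PV o650 := fun P h => h.t 0 4 7 5 0 3 1 2 4 5 (by decide +kernel)
def w651 : PV o651 := fun P h => h.t 0 4 7 5 0 4 1 2 3 5 (by decide +kernel)
def w652 : PV o652 := fun P h => h.t 0 4 7 5 0 5 1 2 3 4 (by decide +kernel)
def w653 : PV o653 := fun P h => h.t 0 4 7 5 1 5 2 4 0 3 (by decide +kernel)
def w654 : PV o654 := fun P h => h.t 0 4 7 6 0 1 2 5 3 4 (by decide +kernel)
def w655 : PV o655 := fun P h => h.t 0 4 7 6 0 2 1 4 3 5 (by decide +kernel)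
def w656 : PV o656 := fun P h => h.t 0 4 7 6 0 2 3 4 1 5 (by decide +kernel)
def w657 : PV o657 := fun P h => h.t 0 4 7 6 0 3 1 2 4 5 (by decide +kernel)
def w658 : PV o658 := fun P h => h.t 0 4 7 6 0 4 2 5 1 3 (by decide +kernel)
def w659 : PV o659 := fun P h => h.t 0 4 7 6 0 5 2 4 1 3 (by decide +kernel)
def w660 : PV o660 := fun P h => h.t 0 4 7 6 1 2 0 4 3 5 (by decide +kernel)
def w661 : PV o661 := fun P h => h.t 0 4 7 6 1 3 0 2 4 5 (by decide +kernel)
def w662 : PV o662 := fun P h => h.t 0 4 7 6 1 4 2 3 0 5 (by decide +kernel)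
def w663 : PV o663 := fun P h => h.t 0 4 7 7 0 2 1 5 3 4 (by decide +kernel)
def w664 : PV o664 := fun P h => h.t 0 4 7 7 0 3 1 2 4 5 (by decide +kernel)
def w665 : PV o665 := fun P h => h.t 0 4 7 7 0 4 1 5 2 3 (by decide +kernel)
def w666 : PV o666 := fun P h => h.t 0 4 7 7 1 3 0 2 4 5 (by decide +kernel)
def w667 : PV o667 := fun P h => h.t 0 4 7 7 1 3 0 5 2 4 (by decide +kernel)
def w668 : PV o668 := fun P h => h.t 0 4 7 7 1 5 3 4 0 2 (by decide +kernel)
def w669 : PV o669 := fun P h => h.t 0 4 7 7 2 4 0 1 3 5 (by decide +kernel)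
def w670 : PV o670 := fun P h => h.t 0 4 7 7 3 4 0 2 1 5 (by decide +kernel)
def w671 : PV o671 := fun P h => h.t 0 4 7 7 3 4 0 5 1 2 (by decide +kernel)
def w672 : PV o672 := fun P h => h.t 0 4 7 7 3 5 0 4 1 2 (by decide +kernel)
def w673 : PV o673 := fun P h => h.x 0 5 1 15 (by decide +kernel)
def w674 : PV o674 := fun P h => h.x 0 5 1 12 (by decide +kernel)
def w675 : PV o675 := fun P h => h.x 0 5 3 0 (by decide +kernel)
def w676 : PV o676 := fun P h => h.t 0 5 5 5 0 2 3 5 1 4 (by decide +kernel)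
def w677 : PV o677 := fun P h => h.t 0 5 5 6 0 2 1 5 3 4 (by decide +kernel)
def w678 : PV o678 := fun P h => h.t 0 5 5 6 0 2 3 5 1 4 (by decide +kernel)
def w679 : PV o679 := fun P h => h.t 0 5 5 6 0 3 1 5 2 4 (by decide +kernel)
def w680 : PV o680 := fun P h => h.t 0 5 5 6 1 5 2 3 0 4 (by decide +kernel)
def w681 : PV o681 := fun P h => h.t 0 5 5 6 3 4 0 5 1 2 (by decide +kernel)
def w682 : PV o682 := fun P h => h.t 0 5 5 6 3 4 1 5 0 2 (by decide +kernel)
def w683 : PV o683 := fun P h => h.t 0 5 5 6 3 5 1 4 0 2 (by decide +kernel)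
def w684 : PV o684 := fun P h => h.t 0 5 5 6 4 5 0 2 1 3 (by decide +kernel)
def w685 : PV o685 := fun P h => h.t 0 5 5 6 4 5 1 3 0 2 (by decide +kernel)
def w686 : PV o686 := fun P h => h.t 0 5 5 7 0 2 1 4 3 5 (by decide +kernel)
def w687 : PV o687 := fun P h => h.t 0 5 5 7 0 5 1 2 3 4 (by decide +kernel)
def w688 : PV o688 := fun P h => h.t 0 5 6 6 0 2 1 3 4 5 (by decide +kernel)
def w689 : PV o689 := fun P h => h.t 0 5 6 6 0 2 1 5 3 4 (by decide +kernel)
def w690 : PV o690 := fun P h => h.t 0 5 6 6 0 2 3 4 1 5 (by decide +kernel)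
def w691 : PV o691 := fun P h => h.t 0 5 6 6 0 4 1 2 3 5 (by decide +kernel)
def w692 : PV o692 := fun P h => h.t 0 5 6 6 0 4 2 3 1 5 (by decide +kernel)
def w693 : PV o693 := fun P h => h.t 0 5 6 6 1 3 0 4 2 5 (by decide +kernel)
def w694 : PV o694 := fun P h => h.t 0 5 6 6 1 3 2 4 0 5 (by decide +kernel)
def w695 : PV o695 := fun P h => h.t 0 5 6 6 1 4 0 2 3 5 (by decide +kernel)
def w696 : PV o696 := fun P h => h.t 0 5 6 6 1 4 2 5 0 3 (by decide +kernel)
def w697 : PV o697 := fun P h => h.t 0 5 6 6 1 5 0 2 3 4 (by decide +kernel)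
def w698 : PV o698 := fun P h => h.t 0 5 6 6 1 5 0 3 2 4 (by decide +kernel)
def w699 : PV o699 := fun P h => h.t 0 5 6 6 2 4 0 1 3 5 (by decide +kernel)
def w700 : PV o700 := fun P h => h.t 0 5 6 6 2 5 0 1 3 4 (by decide +kernel)
def w701 : PV o701 := fun P h => h.t 0 5 6 6 3 4 0 5 1 2 (by decide +kernel)
def w702 : PV o702 := fun P h => h.t 0 5 6 6 3 4 1 2 0 5 (by decide +kernel)
def w703 : PV o703 := fun P h => h.t 0 5 6 6 3 5 0 1 2 4 (by decide +kernel)
def w704 : PV o704 := fun P h => h.t 0 5 6 6 3 5 0 2 1 4 (by decide +kernel)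
def w705 : PV o705 := fun P h => h.t 0 5 6 6 3 5 0 4 1 2 (by decide +kernel)
def w706 : PV o706 := fun P h => h.t 0 5 6 6 3 5 1 2 0 4 (by decide +kernel)
def w707 : PV o707 := fun P h => h.t 0 5 6 6 3 5 2 4 0 1 (by decide +kernel)
def w708 : PV o708 := fun P h => h.t 0 5 6 7 0 2 1 3 4 5 (by decide +kernel)
def w709 : PV o709 := fun P h => h.t 0 5 6 7 0 4 1 5 2 3 (by decide +kernel)
def w710 : PV o710 := fun P h => h.t 0 5 6 7 1 2 0 3 4 5 (by decide +kernel)
def w711 : PV o711 := fun P h => h.t 0 5 6 7 1 5 0 2 3 4 (by decide +kernel)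
def w712 : PV o712 := fun P h => h.t 0 5 6 7 2 5 0 1 3 4 (by decide +kernel)
def w713 : PV o713 := fun P h => h.x 0 5 6 15 (by decide +kernel)
def w714 : PV o714 := fun P h => h.x 0 5 6 13 (by decide +kernel)
def w715 : PV o715 := fun P h => h.x 0 5 6 12 (by decide +kernel)
def w716 : PV o716 := fun P h => h.x 0 5 6 5 (by decide +kernel)
def w717 : PV o717 := fun P h => h.x 0 5 6 0 (by decide +kernel)
def w718 : PV o718 := fun P h => h.t 0 5 7 6 0 2 3 4 1 5 (by decide +kernel)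
def w719 : PV o719 := fun P h => h.t 0 5 7 6 0 2 3 5 1 4 (by decide +kernel)
def w720 : PV o720 := fun P h => h.t 0 5 7 6 0 3 1 4 2 5 (by decide +kernel)
def w721 : PV o721 := fun P h => h.t 0 5 7 6 0 3 1 5 2 4 (by decide +kernel)
def w722 : PV o722 := fun P h => h.t 0 5 7 6 0 4 1 2 3 5 (by decide +kernel)
def w723 : PV o723 := fun P h => h.t 0 5 7 6 0 4 2 5 1 3 (by decide +kernel)
def w724 : PV o724 := fun P h => h.t 0 5 7 6 1 2 3 4 0 5 (by decide +kernel)
def w725 : PV o725 := fun P h => h.t 0 5 7 6 1 3 0 4 2 5 (by decide +kernel)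
def w726 : PV o726 := fun P h => h.t 0 5 7 6 1 3 0 5 2 4 (by decide +kernel)
def w727 : PV o727 := fun P h => h.t 0 5 7 6 1 4 0 2 3 5 (by decide +kernel)
def w728 : PV o728 := fun P h => h.t 0 5 7 6 1 4 2 5 0 3 (by decide +kernel)
def w729 : PV o729 := fun P h => h.t 0 5 7 6 2 3 4 5 0 1 (by decide +kernel)
def w730 : PV o730 := fun P h => h.t 0 5 7 6 2 4 0 1 3 5 (by decide +kernel)
def w731 : PV o731 := fun P h => h.t 0 5 7 6 2 4 3 5 0 1 (by decide +kernel)
def w732 : PV o732 := fun P h => h.t 0 5 7 6 2 5 0 1 3 4 (by decide +kernel)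
def w733 : PV o733 := fun P h => h.t 0 5 7 6 2 5 3 4 0 1 (by decide +kernel)
def w734 : PV o734 := fun P h => h.t 0 5 7 6 3 4 0 1 2 5 (by decide +kernel)
def w735 : PV o735 := fun P h => h.t 0 5 7 6 3 4 1 5 0 2 (by decide +kernel)
def w736 : PV o736 := fun P h => h.t 0 5 7 6 3 5 0 1 2 4 (by decide +kernel)
def w737 : PV o737 := fun P h => h.t 0 5 7 6 3 5 1 2 0 4 (by decide +kernel)
def w738 : PV o738 := fun P h => h.t 0 5 7 6 3 5 1 4 0 2 (by decide +kernel)
def w739 : PV o739 := fun P h => h.t 0 5 7 6 3 5 2 4 0 1 (by decide +kernel)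
def w740 : PV o740 := fun P h => h.t 0 5 7 6 4 5 0 3 1 2 (by decide +kernel)
def w741 : PV o741 := fun P h => h.t 0 5 7 6 4 5 1 3 0 2 (by decide +kernel)
def w742 : PV o742 := fun P h => h.t 0 5 7 7 0 4 1 5 2 3 (by decide +kernel)
def w743 : PV o743 := fun P h => h.t 0 5 7 7 1 4 2 3 0 5 (by decide +kernel)
def w744 : PV o744 := fun P h => h.t 0 5 7 7 1 5 2 3 0 4 (by decide +kernel)
def w745 : PV o745 := fun P h => h.t 0 5 7 7 2 3 0 1 4 5 (by decide +kernel)
def w746 : PV o746 := fun P h => h.t 0 5 7 7 2 5 0 1 3 4 (by decide +kernel)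
def w747 : PV o747 := fun P h => h.t 0 5 7 7 3 4 0 2 1 5 (by decide +kernel)
def w748 : PV o748 := fun P h => h.t 0 5 7 7 3 4 0 5 1 2 (by decide +kernel)
def w749 : PV o749 := fun P h => h.t 0 5 7 7 3 5 0 2 1 4 (by decide +kernel)
def w750 : PV o750 := fun P h => h.x 0 5 7 15 (by decide +kernel)
def w751 : PV o751 := fun P h => h.x 0 6 0 13 (by decide +kernel)
def w752 : PV o752 := fun P h => h.x 0 6 0 0 (by decide +kernel)
def w753 : PV o753 := fun P h => h.x 0 6 1 15 (by decide +kernel)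
def w754 : PV o754 := fun P h => h.x 0 6 5 15 (by decide +kernel)
def w755 : PV o755 := fun P h => h.x 0 6 5 13 (by decide +kernel)
def w756 : PV o756 := fun P h => h.x 0 6 5 4 (by decide +kernel)
def w757 : PV o757 := fun P h => h.t 0 6 6 6 0 2 1 4 3 5 (by decide +kernel)
def w758 : PV o758 := fun P h => h.t 0 6 6 6 0 2 3 5 1 4 (by decide +kernel)
def w759 : PV o759 := fun P h => h.t 0 6 6 7 0 1 2 4 3 5 (by decide +kernel)
def w760 : PV o760 := fun P h => h.t 0 6 6 7 0 2 3 4 1 5 (by decide +kernel)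
def w761 : PV o761 := fun P h => h.t 0 6 6 7 0 2 4 5 1 3 (by decide +kernel)
def w762 : PV o762 := fun P h => h.t 0 6 6 7 0 4 2 5 1 3 (by decide +kernel)
def w763 : PV o763 := fun P h => h.t 0 6 6 7 0 4 3 5 1 2 (by decide +kernel)
def w764 : PV o764 := fun P h => h.t 0 6 6 7 0 5 1 2 3 4 (by decide +kernel)
def w765 : PV o765 := fun P h => h.t 0 6 6 7 0 5 1 3 2 4 (by decide +kernel)
def w766 : PV o766 := fun P h => h.t 0 6 6 7 0 5 3 4 1 2 (by decide +kernel)
def w767 : PV o767 := fun P h => h.t 0 6 6 7 1 2 4 5 0 3 (by decide +kernel)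
def w768 : PV o768 := fun P h => h.t 0 6 6 7 1 3 4 5 0 2 (by decide +kernel)
def w769 : PV o769 := fun P h => h.t 0 6 6 7 1 4 0 2 3 5 (by decide +kernel)
def w770 : PV o770 := fun P h => h.t 0 6 6 7 1 5 0 3 2 4 (by decide +kernel)
def w771 : PV o771 := fun P h => h.t 0 6 6 7 2 3 0 4 1 5 (by decide +kernel)
def w772 : PV o772 := fun P h => h.t 0 6 6 7 2 3 0 5 1 4 (by decide +kernel)
def w773 : PV o773 := fun P h => h.t 0 6 6 7 2 3 1 5 0 4 (by decide +kernel)
def w774 : PV o774 := fun P h => h.t 0 6 6 7 2 4 0 5 1 3 (by decide +kernel)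
def w775 : PV o775 := fun P h => h.t 0 6 6 7 2 5 0 1 3 4 (by decide +kernel)
def w776 : PV o776 := fun P h => h.t 0 6 6 7 3 4 0 5 1 2 (by decide +kernel)
def w777 : PV o777 := fun P h => h.t 0 6 6 7 3 4 1 5 0 2 (by decide +kernel)
def w778 : PV o778 := fun P h => h.t 0 6 7 7 0 2 1 3 4 5 (by decide +kernel)
def w779 : PV o779 := fun P h => h.t 0 6 7 7 0 2 1 4 3 5 (by decide +kernel)
def w780 : PV o780 := fun P h => h.t 0 6 7 7 0 2 1 5 3 4 (by decide +kernel)
def w781 : PV o781 := fun P h => h.t 0 6 7 7 0 2 3 4 1 5 (by decide +kernel)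
def w782 : PV o782 := fun P h => h.t 0 6 7 7 0 3 1 2 4 5 (by decide +kernel)
def w783 : PV o783 := fun P h => h.t 0 6 7 7 0 4 1 5 2 3 (by decide +kernel)
def w784 : PV o784 := fun P h => h.t 0 6 7 7 0 4 2 5 1 3 (by decide +kernel)
def w785 : PV o785 := fun P h => h.t 0 6 7 7 1 2 0 3 4 5 (by decide +kernel)
def w786 : PV o786 := fun P h => h.t 0 6 7 7 1 2 0 4 3 5 (by decide +kernel)
def w787 : PV o787 := fun P h => h.t 0 6 7 7 1 2 0 5 3 4 (by decide +kernel)
def w788 : PV o788 := fun P h => h.t 0 6 7 7 1 2 3 4 0 5 (by decide +kernel)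
def w789 : PV o789 := fun P h => h.t 0 6 7 7 1 3 0 4 2 5 (by decide +kernel)
def w790 : PV o790 := fun P h => h.t 0 6 7 7 1 3 2 4 0 5 (by decide +kernel)
def w791 : PV o791 := fun P h => h.t 0 6 7 7 1 3 2 5 0 4 (by decide +kernel)
def w792 : PV o792 := fun P h => h.t 0 6 7 7 1 4 0 5 2 3 (by decide +kernel)
def w793 : PV o793 := fun P h => h.t 0 6 7 7 1 4 2 3 0 5 (by decide +kernel)
def w794 : PV o794 := fun P h => h.t 0 6 7 7 1 5 0 2 3 4 (by decide +kernel)
def w795 : PV o795 := fun P h => h.t 0 6 7 7 1 5 2 3 0 4 (by decide +kernel)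
def w796 : PV o796 := fun P h => h.t 0 6 7 7 2 4 0 3 1 5 (by decide +kernel)
def w797 : PV o797 := fun P h => h.t 0 6 7 7 2 4 0 5 1 3 (by decide +kernel)
def w798 : PV o798 := fun P h => h.t 0 6 7 7 2 5 0 1 3 4 (by decide +kernel)
def w799 : PV o799 := fun P h => h.t 0 6 7 7 3 4 0 5 1 2 (by decide +kernel)
def w800 : PV o800 := fun P h => h.t 0 6 7 7 3 5 0 4 1 2 (by decide +kernel)
def w801 : PV o801 := fun P h => h.x 0 6 7 15 (by decide +kernel)
def w802 : PV o802 := fun P h => h.x 0 7 0 15 (by decide +kernel)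
def w803 : PV o803 := fun P h => h.x 0 7 0 5 (by decide +kernel)
def w804 : PV o804 := fun P h => h.x 0 7 0 0 (by decide +kernel)
def w805 : PV o805 := fun P h => h.x 0 7 1 15 (by decide +kernel)
def w806 : PV o806 := fun P h => h.x 0 7 1 12 (by decide +kernel)
def w807 : PV o807 := fun P h => h.x 0 7 1 0 (by decide +kernel)
def w808 : PV o808 := fun P h => h.x 0 7 5 15 (by decide +kernel)
def w809 : PV o809 := fun P h => h.x 0 7 5 12 (by decide +kernel)
def w810 : PV o810 := fun P h => h.x 0 7 5 5 (by decide +kernel)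
def w811 : PV o811 := fun P h => h.x 0 7 6 15 (by decide +kernel)
def w812 : PV o812 := fun P h => h.x 0 7 6 13 (by decide +kernel)
def w813 : PV o813 := fun P h => h.x 0 7 6 12 (by decide +kernel)
def w814 : PV o814 := fun P h => h.x 0 7 6 5 (by decide +kernel)
def w815 : PV o815 := fun P h => h.x 0 7 6 4 (by decide +kernel)
def w816 : PV o816 := fun P h => h.t 0 7 7 7 0 2 1 4 3 5 (by decide +kernel)
def w817 : PV o817 := fun P h => h.t 0 7 7 7 0 2 3 5 1 4 (by decide +kernel)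
def w818 : PV o818 := fun P h => h.t 1 0 0 1 0 5 1 2 3 4 (by decide +kernel)
def w819 : PV o819 := fun P h => h.t 1 0 0 1 3 4 0 5 1 2 (by decide +kernel)
def w820 : PV o820 := fun P h => h.t 1 0 0 2 0 1 2 4 3 5 (by decide +kernel)
def w821 : PV o821 := fun P h => h.t 1 0 0 2 3 4 0 5 1 2 (by decide +kernel)
def w822 : PV o822 := fun P h => h.t 1 0 0 2 3 4 1 5 0 2 (by decide +kernel)
def w823 : PV o823 := fun P h => h.t 1 0 0 6 0 5 1 2 3 4 (by decide +kernel)
def w824 : PV o824 := fun P h => h.t 1 0 0 6 1 5 2 3 0 4 (by decide +kernel)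
def w825 : PV o825 := fun P h => h.t 1 0 0 6 3 4 0 5 1 2 (by decide +kernel)
def w826 : PV o826 := fun P h => h.t 1 0 0 6 4 5 0 1 2 3 (by decide +kernel)
def w827 : PV o827 := fun P h => h.t 1 0 0 7 1 5 2 3 0 4 (by decide +kernel)
def w828 : PV o828 := fun P h => h.t 1 0 1 1 0 2 1 3 4 5 (by decide +kernel)
def w829 : PV o829 := fun P h => h.t 1 0 1 1 0 2 3 4 1 5 (by decide +kernel)
def w830 : PV o830 := fun P h => h.t 1 0 1 1 0 3 1 2 4 5 (by decide +kernel)
def w831 : PV o831 := fun P h => h.t 1 0 1 1 0 4 1 2 3 5 (by decide +kernel)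
def w832 : PV o832 := fun P h => h.t 1 0 1 1 1 2 0 3 4 5 (by decide +kernel)
def w833 : PV o833 := fun P h => h.t 1 0 1 1 1 2 3 4 0 5 (by decide +kernel)
def w834 : PV o834 := fun P h => h.t 1 0 1 1 1 4 2 3 0 5 (by decide +kernel)
def w835 : PV o835 := fun P h => h.t 1 0 1 1 1 5 0 2 3 4 (by decide +kernel)
def w836 : PV o836 := fun P h => h.t 1 0 1 1 2 4 0 3 1 5 (by decide +kernel)
def w837 : PV o837 := fun P h => h.t 1 0 1 1 3 4 1 2 0 5 (by decide +kernel)
def w838 : PV o838 := fun P h => h.t 1 0 1 1 3 5 1 2 0 4 (by decide +kernel)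
def w839 : PV o839 := fun P h => h.t 1 0 1 2 3 4 0 1 2 5 (by decide +kernel)
def w840 : PV o840 := fun P h => h.t 1 0 1 3 0 1 2 3 4 5 (by decide +kernel)
def w841 : PV o841 := fun P h => h.t 1 0 1 3 0 2 3 4 1 5 (by decide +kernel)
def w842 : PV o842 := fun P h => h.t 1 0 1 3 0 4 1 2 3 5 (by decide +kernel)
def w843 : PV o843 := fun P h => h.t 1 0 1 3 0 5 1 2 3 4 (by decide +kernel)
def w844 : PV o844 := fun P h => h.t 1 0 1 3 1 2 3 4 0 5 (by decide +kernel)
def w845 : PV o845 := fun P h => h.t 1 0 1 3 1 5 2 3 0 4 (by decide +kernel)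
def w846 : PV o846 := fun P h => h.t 1 0 1 3 4 5 0 1 2 3 (by decide +kernel)
def w847 : PV o847 := fun P h => h.t 1 0 1 4 0 1 2 3 4 5 (by decide +kernel)
def w848 : PV o848 := fun P h => h.t 1 0 1 4 0 1 3 4 2 5 (by decide +kernel)
def w849 : PV o849 := fun P h => h.t 1 0 1 4 0 1 4 5 2 3 (by decide +kernel)
def w850 : PV o850 := fun P h => h.t 1 0 1 4 0 2 3 4 1 5 (by decide +kernel)
def w851 : PV o851 := fun P h => h.t 1 0 1 4 0 2 4 5 1 3 (by decide +kernel)
def w852 : PV o852 := fun P h => h.t 1 0 1 5 0 1 2 3 4 5 (by decide +kernel)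
def w853 : PV o853 := fun P h => h.t 1 0 1 6 0 1 2 3 4 5 (by decide +kernel)
def w854 : PV o854 := fun P h => h.t 1 0 1 6 0 1 3 4 2 5 (by decide +kernel)
def w855 : PV o855 := fun P h => h.t 1 0 1 6 0 1 4 5 2 3 (by decide +kernel)
def w856 : PV o856 := fun P h => h.t 1 0 1 6 0 2 3 4 1 5 (by decide +kernel)
def w857 : PV o857 := fun P h => h.t 1 0 1 6 0 2 4 5 1 3 (by decide +kernel)
def w858 : PV o858 := fun P h => h.t 1 0 1 6 0 3 4 5 1 2 (by decide +kernel)
def w859 : PV o859 := fun P h => h.t 1 0 1 6 0 5 1 2 3 4 (by decide +kernel)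
def w860 : PV o860 := fun P h => h.t 1 0 1 6 0 5 2 3 1 4 (by decide +kernel)
def w861 : PV o861 := fun P h => h.t 1 0 1 6 1 2 3 4 0 5 (by decide +kernel)
def w862 : PV o862 := fun P h => h.t 1 0 1 6 1 2 4 5 0 3 (by decide +kernel)
def w863 : PV o863 := fun P h => h.t 1 0 1 6 1 5 2 3 0 4 (by decide +kernel)
def w864 : PV o864 := fun P h => h.t 1 0 1 6 2 3 4 5 0 1 (by decide +kernel)
def w865 : PV o865 := fun P h => h.t 1 0 1 6 2 5 0 1 3 4 (by decide +kernel)
def w866 : PV o866 := fun P h => h.t 1 0 1 6 3 5 0 1 2 4 (by decide +kernel)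
def w867 : PV o867 := fun P h => h.t 1 0 1 6 4 5 0 1 2 3 (by decide +kernel)
def w868 : PV o868 := fun P h => h.t 1 0 1 6 4 5 1 2 0 3 (by decide +kernel)
def w869 : PV o869 := fun P h => h.t 1 0 1 7 0 1 2 3 4 5 (by decide +kernel)
def w870 : PV o870 := fun P h => h.t 1 0 1 7 0 1 3 4 2 5 (by decide +kernel)
def w871 : PV o871 := fun P h => h.t 1 0 1 7 0 2 3 4 1 5 (by decide +kernel)
def w872 : PV o872 := fun P h => h.t 1 0 1 7 0 5 2 3 1 4 (by decide +kernel)
def w873 : PV o873 := fun P h => h.t 1 0 1 7 1 2 3 4 0 5 (by decide +kernel)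
def w874 : PV o874 := fun P h => h.t 1 0 1 7 2 3 4 5 0 1 (by decide +kernel)
def w875 : PV o875 := fun P h => h.t 1 0 1 7 4 5 0 1 2 3 (by decide +kernel)
def w876 : PV o876 := fun P h => h.x 1 0 1 15 (by decide +kernel)
def w877 : PV o877 := fun P h => h.t 1 0 2 1 4 5 1 2 0 3 (by decide +kernel)
def w878 : PV o878 := fun P h => h.t 1 0 2 2 3 4 0 5 1 2 (by decide +kernel)
def w879 : PV o879 := fun P h => h.t 1 0 2 3 0 1 3 4 2 5 (by decide +kernel)
def w880 : PV o880 := fun P h => h.t 1 0 2 3 0 4 2 5 1 3 (by decide +kernel)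
def w881 : PV o881 := fun P h => h.t 1 0 2 3 0 5 2 3 1 4 (by decide +kernel)
def w882 : PV o882 := fun P h => h.t 1 0 2 3 2 4 1 3 0 5 (by decide +kernel)
def w883 : PV o883 := fun P h => h.t 1 0 2 3 2 5 1 3 0 4 (by decide +kernel)
def w884 : PV o884 := fun P h => h.t 1 0 2 6 1 5 0 2 3 4 (by decide +kernel)
def w885 : PV o885 := fun P h => h.t 1 0 2 6 3 4 0 5 1 2 (by decide +kernel)
def w886 : PV o886 := fun P h => h.t 1 0 2 6 3 5 0 4 1 2 (by decide +kernel)
def w887 : PV o887 := fun P h => h.t 1 0 2 6 4 5 0 1 2 3 (by decide +kernel)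
def w888 : PV o888 := fun P h => h.t 1 0 2 7 3 4 1 5 0 2 (by decide +kernel)
def w889 : PV o889 := fun P h => h.t 1 0 2 7 3 5 1 4 0 2 (by decide +kernel)
def w890 : PV o890 := fun P h => h.t 1 0 3 1 0 1 3 4 2 5 (by decide +kernel)
def w891 : PV o891 := fun P h => h.t 1 0 3 1 0 2 1 4 3 5 (by decide +kernel)
def w892 : PV o892 := fun P h => h.t 1 0 3 1 0 5 2 3 1 4 (by decide +kernel)
def w893 : PV o893 := fun P h => h.t 1 0 3 1 1 2 0 4 3 5 (by decide +kernel)
def w894 : PV o894 := fun P h => h.t 1 0 3 1 1 4 2 5 0 3 (by decide +kernel)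
def w895 : PV o895 := fun P h => h.t 1 0 3 1 1 5 0 3 2 4 (by decide +kernel)
def w896 : PV o896 := fun P h => h.t 1 0 3 1 1 5 2 3 0 4 (by decide +kernel)
def w897 : PV o897 := fun P h => h.t 1 0 3 1 4 5 1 2 0 3 (by decide +kernel)
def w898 : PV o898 := fun P h => h.t 1 0 4 1 2 3 4 5 0 1 (by decide +kernel)
def w899 : PV o899 := fun P h => h.t 1 0 4 4 0 2 3 4 1 5 (by decide +kernel)
def w900 : PV o900 := fun P h => h.t 1 0 4 4 1 2 3 4 0 5 (by decide +kernel)
def w901 : PV o901 := fun P h => h.t 1 0 4 5 0 1 2 4 3 5 (by decide +kernel)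
def w902 : PV o902 := fun P h => h.t 1 0 4 5 0 1 3 5 2 4 (by decide +kernel)
def w903 : PV o903 := fun P h => h.x 1 0 4 15 (by decide +kernel)
def w904 : PV o904 := fun P h => h.t 1 0 5 1 0 1 2 3 4 5 (by decide +kernel)
def w905 : PV o905 := fun P h => h.t 1 0 5 1 0 1 4 5 2 3 (by decide +kernel)
def w906 : PV o906 := fun P h => h.t 1 0 5 1 0 5 1 2 3 4 (by decide +kernel)
def w907 : PV o907 := fun P h => h.t 1 0 5 6 0 5 1 3 2 4 (by decide +kernel)
def w908 : PV o908 := fun P h => h.t 1 0 5 7 2 3 0 1 4 5 (by decide +kernel)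
def w909 : PV o909 := fun P h => h.t 1 0 6 1 0 1 2 3 4 5 (by decide +kernel)
def w910 : PV o910 := fun P h => h.t 1 0 6 1 0 2 1 3 4 5 (by decide +kernel)
def w911 : PV o911 := fun P h => h.t 1 0 6 1 0 3 1 2 4 5 (by decide +kernel)
def w912 : PV o912 := fun P h => h.t 1 0 6 1 0 5 1 2 3 4 (by decide +kernel)
def w913 : PV o913 := fun P h => h.t 1 0 6 1 1 2 0 3 4 5 (by decide +kernel)
def w914 : PV o914 := fun P h => h.t 1 0 6 1 1 3 0 2 4 5 (by decide +kernel)
def w915 : PV o915 := fun P h => h.t 1 0 6 1 1 4 0 5 2 3 (by decide +kernel)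
def w916 : PV o916 := fun P h => h.t 1 0 6 1 2 3 0 1 4 5 (by decide +kernel)
def w917 : PV o917 := fun P h => h.t 1 0 6 1 4 5 0 1 2 3 (by decide +kernel)
def w918 : PV o918 := fun P h => h.t 1 0 6 2 2 4 0 1 3 5 (by decide +kernel)
def w919 : PV o919 := fun P h => h.t 1 0 6 4 0 3 2 4 1 5 (by decide +kernel)
def w920 : PV o920 := fun P h => h.t 1 0 6 5 3 4 1 5 0 2 (by decide +kernel)
def w921 : PV o921 := fun P h => h.t 1 0 6 6 0 2 3 4 1 5 (by decide +kernel)
def w922 : PV o922 := fun P h => h.t 1 0 6 6 1 2 3 4 0 5 (by decide +kernel)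
def w923 : PV o923 := fun P h => h.t 1 0 6 7 0 2 3 4 1 5 (by decide +kernel)
def w924 : PV o924 := fun P h => h.t 1 0 6 7 0 3 1 2 4 5 (by decide +kernel)
def w925 : PV o925 := fun P h => h.t 1 0 6 7 0 3 4 5 1 2 (by decide +kernel)
def w926 : PV o926 := fun P h => h.t 1 0 6 7 1 2 0 4 3 5 (by decide +kernel)
def w927 : PV o927 := fun P h => h.t 1 0 6 7 1 2 3 4 0 5 (by decide +kernel)
def w928 : PV o928 := fun P h => h.t 1 0 6 7 1 3 0 2 4 5 (by decide +kernel)
def w929 : PV o929 := fun P h => h.t 1 0 6 7 1 3 4 5 0 2 (by decide +kernel)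
def w930 : PV o930 := fun P h => h.t 1 0 6 7 1 5 2 3 0 4 (by decide +kernel)
def w931 : PV o931 := fun P h => h.t 1 0 6 7 2 3 0 1 4 5 (by decide +kernel)
def w932 : PV o932 := fun P h => h.t 1 0 6 7 2 5 0 3 1 4 (by decide +kernel)
def w933 : PV o933 := fun P h => h.t 1 0 6 7 4 5 0 2 1 3 (by decide +kernel)
def w934 : PV o934 := fun P h => h.t 1 0 7 1 0 1 2 3 4 5 (by decide +kernel)
def w935 : PV o935 := fun P h => h.t 1 0 7 1 0 2 1 3 4 5 (by decide +kernel)
def w936 : PV o936 := fun P h => h.t 1 0 7 1 0 3 1 2 4 5 (by decide +kernel)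
def w937 : PV o937 := fun P h => h.t 1 0 7 1 0 3 4 5 1 2 (by decide +kernel)
def w938 : PV o938 := fun P h => h.t 1 0 7 1 0 4 1 5 2 3 (by decide +kernel)
def w939 : PV o939 := fun P h => h.t 1 0 7 1 4 5 0 1 2 3 (by decide +kernel)
def w940 : PV o940 := fun P h => h.t 1 0 7 2 3 4 0 5 1 2 (by decide +kernel)
def w941 : PV o941 := fun P h => h.t 1 0 7 4 0 3 2 4 1 5 (by decide +kernel)
def w942 : PV o942 := fun P h => h.t 1 0 7 6 0 5 1 2 3 4 (by decide +kernel)
def w943 : PV o943 := fun P h => h.t 1 0 7 6 1 5 2 3 0 4 (by decide +kernel)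
def w944 : PV o944 := fun P h => h.t 1 0 7 6 4 5 0 1 2 3 (by decide +kernel)
def w945 : PV o945 := fun P h => h.t 1 0 7 7 0 2 1 3 4 5 (by decide +kernel)
def w946 : PV o946 := fun P h => h.t 1 0 7 7 2 3 0 1 4 5 (by decide +kernel)
def w947 : PV o947 := fun P h => h.x 1 1 0 15 (by decide +kernel)
def w948 : PV o948 := fun P h => h.x 1 1 0 13 (by decide +kernel)
def w949 : PV o949 := fun P h => h.x 1 1 0 12 (by decide +kernel)
def w950 : PV o950 := fun P h => h.t 1 1 1 1 0 2 3 5 1 4 (by decide +kernel)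
def w951 : PV o951 := fun P h => h.t 1 1 1 2 0 2 3 4 1 5 (by decide +kernel)
def w952 : PV o952 := fun P h => h.t 1 1 1 2 0 3 4 5 1 2 (by decide +kernel)
def w953 : PV o953 := fun P h => h.t 1 1 1 2 0 4 2 5 1 3 (by decide +kernel)
def w954 : PV o954 := fun P h => h.t 1 1 1 2 1 2 0 4 3 5 (by decide +kernel)
def w955 : PV o955 := fun P h => h.t 1 1 1 2 1 2 0 5 3 4 (by decide +kernel)
def w956 : PV o956 := fun P h => h.t 1 1 1 2 2 3 0 4 1 5 (by decide +kernel)
def w957 : PV o957 := fun P h => h.t 1 1 1 2 2 3 0 5 1 4 (by decide +kernel)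
def w958 : PV o958 := fun P h => h.t 1 1 1 2 3 4 0 5 1 2 (by decide +kernel)
def w959 : PV o959 := fun P h => h.t 1 1 1 3 0 4 1 2 3 5 (by decide +kernel)
def w960 : PV o960 := fun P h => h.t 1 1 1 3 0 5 1 2 3 4 (by decide +kernel)
def w961 : PV o961 := fun P h => h.t 1 1 1 3 2 3 0 4 1 5 (by decide +kernel)
def w962 : PV o962 := fun P h => h.t 1 1 1 3 2 4 0 1 3 5 (by decide +kernel)
def w963 : PV o963 := fun P h => h.t 1 1 1 3 2 5 0 1 3 4 (by decide +kernel)
def w964 : PV o964 := fun P h => h.t 1 1 1 4 0 2 3 4 1 5 (by decide +kernel)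
def w965 : PV o965 := fun P h => h.t 1 1 1 4 0 3 4 5 1 2 (by decide +kernel)
def w966 : PV o966 := fun P h => h.t 1 1 1 4 0 4 2 5 1 3 (by decide +kernel)
def w967 : PV o967 := fun P h => h.t 1 1 1 4 2 3 0 4 1 5 (by decide +kernel)
def w968 : PV o968 := fun P h => h.t 1 1 1 4 3 4 0 5 1 2 (by decide +kernel)
def w969 : PV o969 := fun P h => h.t 1 1 1 5 0 1 2 4 3 5 (by decide +kernel)
def w970 : PV o970 := fun P h => h.t 1 1 1 5 0 2 3 4 1 5 (by decide +kernel)
def w971 : PV o971 := fun P h => h.t 1 1 1 5 0 3 4 5 1 2 (by decide +kernel)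
def w972 : PV o972 := fun P h => h.t 1 1 1 5 0 4 2 5 1 3 (by decide +kernel)
def w973 : PV o973 := fun P h => h.t 1 1 1 5 2 3 0 4 1 5 (by decide +kernel)
def w974 : PV o974 := fun P h => h.t 1 1 1 5 2 4 0 5 1 3 (by decide +kernel)
def w975 : PV o975 := fun P h => h.t 1 1 1 5 3 4 0 5 1 2 (by decide +kernel)
def w976 : PV o976 := fun P h => h.t 1 1 1 6 0 2 3 4 1 5 (by decide +kernel)
def w977 : PV o977 := fun P h => h.t 1 1 1 6 0 3 4 5 1 2 (by decide +kernel)
def w978 : PV o978 := fun P h => h.t 1 1 1 6 0 4 2 5 1 3 (by decide +kernel)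
def w979 : PV o979 := fun P h => h.t 1 1 1 6 2 3 0 4 1 5 (by decide +kernel)
def w980 : PV o980 := fun P h => h.t 1 1 1 6 2 4 0 5 1 3 (by decide +kernel)
def w981 : PV o981 := fun P h => h.t 1 1 1 6 3 4 0 5 1 2 (by decide +kernel)
def w982 : PV o982 := fun P h => h.t 1 1 1 7 0 1 2 4 3 5 (by decide +kernel)
def w983 : PV o983 := fun P h => h.t 1 1 1 7 0 2 3 4 1 5 (by decide +kernel)
def w984 : PV o984 := fun P h => h.t 1 1 1 7 0 2 3 5 1 4 (by decide +kernel)
def w985 : PV o985 := fun P h => h.t 1 1 1 7 0 2 4 5 1 3 (by decide +kernel)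
def w986 : PV o986 := fun P h => h.t 1 1 1 7 0 3 1 5 2 4 (by decide +kernel)
def w987 : PV o987 := fun P h => h.t 1 1 1 7 0 3 4 5 1 2 (by decide +kernel)
def w988 : PV o988 := fun P h => h.t 1 1 1 7 0 4 2 5 1 3 (by decide +kernel)
def w989 : PV o989 := fun P h => h.t 1 1 1 7 2 3 0 4 1 5 (by decide +kernel)
def w990 : PV o990 := fun P h => h.t 1 1 1 7 2 4 0 5 1 3 (by decide +kernel)
def w991 : PV o991 := fun P h => h.t 1 1 1 7 3 4 0 5 1 2 (by decide +kernel)
def w992 : PV o992 := fun P h => h.t 1 1 2 2 0 2 3 4 1 5 (by decide +kernel)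
def w993 : PV o993 := fun P h => h.t 1 1 2 2 0 4 1 5 2 3 (by decide +kernel)
def w994 : PV o994 := fun P h => h.t 1 1 2 3 0 3 4 5 1 2 (by decide +kernel)
def w995 : PV o995 := fun P h => h.t 1 1 2 3 0 4 1 5 2 3 (by decide +kernel)
def w996 : PV o996 := fun P h => h.t 1 1 2 3 0 4 2 5 1 3 (by decide +kernel)
def w997 : PV o997 := fun P h => h.t 1 1 2 3 0 5 1 2 3 4 (by decide +kernel)
def w998 : PV o998 := fun P h => h.t 1 1 2 3 0 5 1 3 2 4 (by decide +kernel)
def w999 : PV o999 := fun P h => h.t 1 1 2 3 0 5 2 3 1 4 (by decide +kernel)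
def w1000 : PV o1000 := fun P h => h.t 1 1 2 6 0 3 4 5 1 2 (by decide +kernel)
def w1001 : PV o1001 := fun P h => h.t 1 1 2 7 0 5 1 2 3 4 (by decide +kernel)
def w1002 : PV o1002 := fun P h => h.x 1 1 2 15 (by decide +kernel)
def w1003 : PV o1003 := fun P h => h.t 1 1 3 2 0 1 2 3 4 5 (by decide +kernel)
def w1004 : PV o1004 := fun P h => h.t 1 1 3 2 0 2 3 4 1 5 (by decide +kernel)
def w1005 : PV o1005 := fun P h => h.t 1 1 3 2 0 3 1 4 2 5 (by decide +kernel)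
def w1006 : PV o1006 := fun P h => h.t 1 1 3 2 0 3 4 5 1 2 (by decide +kernel)
def w1007 : PV o1007 := fun P h => h.t 1 1 3 2 0 4 1 5 2 3 (by decide +kernel)
def w1008 : PV o1008 := fun P h => h.t 1 1 3 2 0 4 2 5 1 3 (by decide +kernel)
def w1009 : PV o1009 := fun P h => h.t 1 1 3 3 0 2 1 3 4 5 (by decide +kernel)
def w1010 : PV o1010 := fun P h => h.t 1 1 3 3 0 3 1 2 4 5 (by decide +kernel)
def w1011 : PV o1011 := fun P h => h.t 1 1 3 3 0 4 1 2 3 5 (by decide +kernel)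
def w1012 : PV o1012 := fun P h => h.t 1 1 3 3 0 4 1 5 2 3 (by decide +kernel)
def w1013 : PV o1013 := fun P h => h.t 1 1 3 3 1 5 0 2 3 4 (by decide +kernel)
def w1014 : PV o1014 := fun P h => h.t 1 1 3 3 2 5 0 1 3 4 (by decide +kernel)
def w1015 : PV o1015 := fun P h => h.t 1 1 3 4 0 1 2 3 4 5 (by decide +kernel)
def w1016 : PV o1016 := fun P h => h.t 1 1 3 4 0 1 3 4 2 5 (by decide +kernel)
def w1017 : PV o1017 := fun P h => h.t 1 1 3 4 0 1 4 5 2 3 (by decide +kernel)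
def w1018 : PV o1018 := fun P h => h.t 1 1 3 4 0 2 3 4 1 5 (by decide +kernel)
def w1019 : PV o1019 := fun P h => h.t 1 1 3 4 0 3 1 4 2 5 (by decide +kernel)
def w1020 : PV o1020 := fun P h => h.t 1 1 3 4 0 3 4 5 1 2 (by decide +kernel)
def w1021 : PV o1021 := fun P h => h.t 1 1 3 4 0 4 1 5 2 3 (by decide +kernel)
def w1022 : PV o1022 := fun P h => h.t 1 1 3 4 0 4 2 5 1 3 (by decide +kernel)
def w1023 : PV o1023 := fun P h => h.t 1 1 3 4 1 2 4 5 0 3 (by decide +kernel)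
def w1024 : PV o1024 := fun P h => h.t 1 1 3 4 2 3 4 5 0 1 (by decide +kernel)
def w1025 : PV o1025 := fun P h => h.t 1 1 3 5 0 1 2 3 4 5 (by decide +kernel)
def w1026 : PV o1026 := fun P h => h.t 1 1 3 5 0 1 3 4 2 5 (by decide +kernel)
def w1027 : PV o1027 := fun P h => h.t 1 1 3 5 0 1 4 5 2 3 (by decide +kernel)
def w1028 : PV o1028 := fun P h => h.t 1 1 3 5 0 2 3 4 1 5 (by decide +kernel)
def w1029 : PV o1029 := fun P h => h.t 1 1 3 5 0 3 1 4 2 5 (by decide +kernel)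
def w1030 : PV o1030 := fun P h => h.t 1 1 3 5 0 3 4 5 1 2 (by decide +kernel)
def w1031 : PV o1031 := fun P h => h.t 1 1 3 5 0 4 1 5 2 3 (by decide +kernel)
def w1032 : PV o1032 := fun P h => h.t 1 1 3 5 0 4 2 5 1 3 (by decide +kernel)
def w1033 : PV o1033 := fun P h => h.t 1 1 3 5 1 2 4 5 0 3 (by decide +kernel)
def w1034 : PV o1034 := fun P h => h.t 1 1 3 5 2 3 0 4 1 5 (by decide +kernel)
def w1035 : PV o1035 := fun P h => h.t 1 1 3 6 0 1 2 3 4 5 (by decide +kernel)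
def w1036 : PV o1036 := fun P h => h.t 1 1 3 6 0 1 3 4 2 5 (by decide +kernel)
def w1037 : PV o1037 := fun P h => h.t 1 1 3 6 0 1 4 5 2 3 (by decide +kernel)
def w1038 : PV o1038 := fun P h => h.t 1 1 3 6 0 2 3 4 1 5 (by decide +kernel)
def w1039 : PV o1039 := fun P h => h.t 1 1 3 6 0 3 1 4 2 5 (by decide +kernel)
def w1040 : PV o1040 := fun P h => h.t 1 1 3 6 0 3 4 5 1 2 (by decide +kernel)
def w1041 : PV o1041 := fun P h => h.t 1 1 3 6 0 4 1 5 2 3 (by decide +kernel)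
def w1042 : PV o1042 := fun P h => h.t 1 1 3 6 0 4 2 5 1 3 (by decide +kernel)
def w1043 : PV o1043 := fun P h => h.t 1 1 3 6 1 2 4 5 0 3 (by decide +kernel)
def w1044 : PV o1044 := fun P h => h.t 1 1 3 6 2 3 4 5 0 1 (by decide +kernel)
def w1045 : PV o1045 := fun P h => h.t 1 1 3 6 3 4 0 5 1 2 (by decide +kernel)
def w1046 : PV o1046 := fun P h => h.t 1 1 3 6 3 4 1 5 0 2 (by decide +kernel)
def w1047 : PV o1047 := fun P h => h.t 1 1 3 7 0 1 2 3 4 5 (by decide +kernel)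
def w1048 : PV o1048 := fun P h => h.t 1 1 3 7 0 1 3 4 2 5 (by decide +kernel)
def w1049 : PV o1049 := fun P h => h.t 1 1 3 7 0 1 4 5 2 3 (by decide +kernel)
def w1050 : PV o1050 := fun P h => h.t 1 1 3 7 0 2 3 4 1 5 (by decide +kernel)
def w1051 : PV o1051 := fun P h => h.t 1 1 3 7 0 2 3 5 1 4 (by decide +kernel)
def w1052 : PV o1052 := fun P h => h.t 1 1 3 7 0 2 4 5 1 3 (by decide +kernel)
def w1053 : PV o1053 := fun P h => h.t 1 1 3 7 0 3 1 4 2 5 (by decide +kernel)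
def w1054 : PV o1054 := fun P h => h.t 1 1 3 7 0 3 1 5 2 4 (by decide +kernel)
def w1055 : PV o1055 := fun P h => h.t 1 1 3 7 0 3 4 5 1 2 (by decide +kernel)
def w1056 : PV o1056 := fun P h => h.t 1 1 3 7 0 4 1 5 2 3 (by decide +kernel)
def w1057 : PV o1057 := fun P h => h.t 1 1 3 7 0 4 2 5 1 3 (by decide +kernel)
def w1058 : PV o1058 := fun P h => h.t 1 1 3 7 1 2 4 5 0 3 (by decide +kernel)
def w1059 : PV o1059 := fun P h => h.x 1 1 3 15 (by decide +kernel)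
def w1060 : PV o1060 := fun P h => h.t 1 1 4 3 0 3 4 5 1 2 (by decide +kernel)
def w1061 : PV o1061 := fun P h => h.t 1 1 4 3 0 4 1 5 2 3 (by decide +kernel)
def w1062 : PV o1062 := fun P h => h.t 1 1 4 3 0 4 2 5 1 3 (by decide +kernel)
def w1063 : PV o1063 := fun P h => h.t 1 1 4 3 0 5 1 2 3 4 (by decide +kernel)
def w1064 : PV o1064 := fun P h => h.t 1 1 4 3 0 5 1 3 2 4 (by decide +kernel)
def w1065 : PV o1065 := fun P h => h.t 1 1 4 3 0 5 2 3 1 4 (by decide +kernel)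
def w1066 : PV o1066 := fun P h => h.t 1 1 4 3 2 4 1 5 0 3 (by decide +kernel)
def w1067 : PV o1067 := fun P h => h.t 1 1 4 4 0 3 4 5 1 2 (by decide +kernel)
def w1068 : PV o1068 := fun P h => h.t 1 1 4 4 0 4 1 5 2 3 (by decide +kernel)
def w1069 : PV o1069 := fun P h => h.t 1 1 4 5 0 1 2 3 4 5 (by decide +kernel)
def w1070 : PV o1070 := fun P h => h.t 1 1 4 5 0 1 2 4 3 5 (by decide +kernel)
def w1071 : PV o1071 := fun P h => h.t 1 1 4 5 0 1 2 5 3 4 (by decide +kernel)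
def w1072 : PV o1072 := fun P h => h.t 1 1 4 5 0 1 3 4 2 5 (by decide +kernel)
def w1073 : PV o1073 := fun P h => h.t 1 1 4 5 0 1 3 5 2 4 (by decide +kernel)
def w1074 : PV o1074 := fun P h => h.t 1 1 4 5 0 3 4 5 1 2 (by decide +kernel)
def w1075 : PV o1075 := fun P h => h.t 1 1 4 6 0 3 4 5 1 2 (by decide +kernel)
def w1076 : PV o1076 := fun P h => h.t 1 1 4 6 0 5 1 2 3 4 (by decide +kernel)
def w1077 : PV o1077 := fun P h => h.t 1 1 4 7 0 3 4 5 1 2 (by decide +kernel)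
def w1078 : PV o1078 := fun P h => h.t 1 1 4 7 0 5 1 2 3 4 (by decide +kernel)
def w1079 : PV o1079 := fun P h => h.x 1 1 4 15 (by decide +kernel)
def w1080 : PV o1080 := fun P h => h.t 1 1 5 3 0 3 4 5 1 2 (by decide +kernel)
def w1081 : PV o1081 := fun P h => h.t 1 1 5 3 0 4 1 5 2 3 (by decide +kernel)
def w1082 : PV o1082 := fun P h => h.t 1 1 5 3 0 4 2 5 1 3 (by decide +kernel)
def w1083 : PV o1083 := fun P h => h.t 1 1 5 3 0 5 1 2 3 4 (by decide +kernel)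
def w1084 : PV o1084 := fun P h => h.t 1 1 5 3 0 5 1 3 2 4 (by decide +kernel)
def w1085 : PV o1085 := fun P h => h.t 1 1 5 3 0 5 2 3 1 4 (by decide +kernel)
def w1086 : PV o1086 := fun P h => h.t 1 1 5 3 2 4 1 5 0 3 (by decide +kernel)
def w1087 : PV o1087 := fun P h => h.t 1 1 5 3 3 4 2 5 0 1 (by decide +kernel)
def w1088 : PV o1088 := fun P h => h.t 1 1 5 5 0 2 3 4 1 5 (by decide +kernel)
def w1089 : PV o1089 := fun P h => h.t 1 1 5 6 0 3 4 5 1 2 (by decide +kernel)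
def w1090 : PV o1090 := fun P h => h.t 1 1 5 6 0 5 1 2 3 4 (by decide +kernel)
def w1091 : PV o1091 := fun P h => h.t 1 1 5 7 0 2 3 4 1 5 (by decide +kernel)
def w1092 : PV o1092 := fun P h => h.t 1 1 5 7 0 2 3 5 1 4 (by decide +kernel)
def w1093 : PV o1093 := fun P h => h.t 1 1 5 7 0 3 4 5 1 2 (by decide +kernel)
def w1094 : PV o1094 := fun P h => h.t 1 1 5 7 0 4 3 5 1 2 (by decide +kernel)
def w1095 : PV o1095 := fun P h => h.t 1 1 5 7 0 5 1 2 3 4 (by decide +kernel)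
def w1096 : PV o1096 := fun P h => h.x 1 1 5 15 (by decide +kernel)
def w1097 : PV o1097 := fun P h => h.t 1 1 6 2 0 1 2 3 4 5 (by decide +kernel)
def w1098 : PV o1098 := fun P h => h.t 1 1 6 2 0 3 4 5 1 2 (by decide +kernel)
def w1099 : PV o1099 := fun P h => h.t 1 1 6 3 0 3 4 5 1 2 (by decide +kernel)
def w1100 : PV o1100 := fun P h => h.t 1 1 6 3 0 4 1 5 2 3 (by decide +kernel)
def w1101 : PV o1101 := fun P h => h.t 1 1 6 3 0 4 2 5 1 3 (by decide +kernel)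
def w1102 : PV o1102 := fun P h => h.t 1 1 6 3 0 5 1 2 3 4 (by decide +kernel)
def w1103 : PV o1103 := fun P h => h.t 1 1 6 3 0 5 1 3 2 4 (by decide +kernel)
def w1104 : PV o1104 := fun P h => h.t 1 1 6 3 0 5 2 3 1 4 (by decide +kernel)
def w1105 : PV o1105 := fun P h => h.t 1 1 6 4 0 3 4 5 1 2 (by decide +kernel)
def w1106 : PV o1106 := fun P h => h.t 1 1 6 5 0 1 2 3 4 5 (by decide +kernel)
def w1107 : PV o1107 := fun P h => h.t 1 1 6 5 0 1 2 4 3 5 (by decide +kernel)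
def w1108 : PV o1108 := fun P h => h.t 1 1 6 5 0 1 3 4 2 5 (by decide +kernel)
def w1109 : PV o1109 := fun P h => h.t 1 1 6 5 0 1 3 5 2 4 (by decide +kernel)
def w1110 : PV o1110 := fun P h => h.t 1 1 6 5 0 1 4 5 2 3 (by decide +kernel)
def w1111 : PV o1111 := fun P h => h.t 1 1 6 5 0 3 1 4 2 5 (by decide +kernel)
def w1112 : PV o1112 := fun P h => h.t 1 1 6 5 0 3 4 5 1 2 (by decide +kernel)
def w1113 : PV o1113 := fun P h => h.t 1 1 6 5 0 4 1 2 3 5 (by decide +kernel)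
def w1114 : PV o1114 := fun P h => h.t 1 1 6 5 0 5 1 2 3 4 (by decide +kernel)
def w1115 : PV o1115 := fun P h => h.t 1 1 6 6 0 2 3 4 1 5 (by decide +kernel)
def w1116 : PV o1116 := fun P h => h.t 1 1 6 6 0 3 4 5 1 2 (by decide +kernel)
def w1117 : PV o1117 := fun P h => h.t 1 1 6 6 0 4 1 5 2 3 (by decide +kernel)
def w1118 : PV o1118 := fun P h => h.t 1 1 6 7 0 1 2 3 4 5 (by decide +kernel)
def w1119 : PV o1119 := fun P h => h.t 1 1 6 7 0 1 2 4 3 5 (by decide +kernel)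
def w1120 : PV o1120 := fun P h => h.t 1 1 6 7 0 1 3 4 2 5 (by decide +kernel)
def w1121 : PV o1121 := fun P h => h.t 1 1 6 7 0 2 3 4 1 5 (by decide +kernel)
def w1122 : PV o1122 := fun P h => h.t 1 1 6 7 0 3 1 4 2 5 (by decide +kernel)
def w1123 : PV o1123 := fun P h => h.t 1 1 6 7 0 3 2 4 1 5 (by decide +kernel)
def w1124 : PV o1124 := fun P h => h.t 1 1 6 7 0 3 4 5 1 2 (by decide +kernel)
def w1125 : PV o1125 := fun P h => h.t 1 1 6 7 0 4 1 2 3 5 (by decide +kernel)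
def w1126 : PV o1126 := fun P h => h.t 1 1 6 7 0 4 2 3 1 5 (by decide +kernel)
def w1127 : PV o1127 := fun P h => h.t 1 1 6 7 0 5 1 2 3 4 (by decide +kernel)
def w1128 : PV o1128 := fun P h => h.t 1 1 6 7 1 3 0 5 2 4 (by decide +kernel)
def w1129 : PV o1129 := fun P h => h.t 1 1 6 7 1 4 0 2 3 5 (by decide +kernel)
def w1130 : PV o1130 := fun P h => h.t 1 1 6 7 2 3 1 4 0 5 (by decide +kernel)
def w1131 : PV o1131 := fun P h => h.t 1 1 6 7 2 4 0 1 3 5 (by decide +kernel)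
def w1132 : PV o1132 := fun P h => h.x 1 1 6 15 (by decide +kernel)
def w1133 : PV o1133 := fun P h => h.t 1 1 7 2 0 3 4 5 1 2 (by decide +kernel)
def w1134 : PV o1134 := fun P h => h.t 1 1 7 3 0 3 4 5 1 2 (by decide +kernel)
def w1135 : PV o1135 := fun P h => h.t 1 1 7 3 0 4 1 5 2 3 (by decide +kernel)
def w1136 : PV o1136 := fun P h => h.t 1 1 7 3 0 4 2 5 1 3 (by decide +kernel)
def w1137 : PV o1137 := fun P h => h.t 1 1 7 3 0 5 1 2 3 4 (by decide +kernel)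
def w1138 : PV o1138 := fun P h => h.t 1 1 7 3 0 5 1 3 2 4 (by decide +kernel)
def w1139 : PV o1139 := fun P h => h.t 1 1 7 3 0 5 2 3 1 4 (by decide +kernel)
def w1140 : PV o1140 := fun P h => h.t 1 1 7 3 2 3 4 5 0 1 (by decide +kernel)
def w1141 : PV o1141 := fun P h => h.t 1 1 7 3 2 5 0 1 3 4 (by decide +kernel)
def w1142 : PV o1142 := fun P h => h.t 1 1 7 4 0 3 4 5 1 2 (by decide +kernel)
def w1143 : PV o1143 := fun P h => h.t 1 1 7 5 0 1 3 5 2 4 (by decide +kernel)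
def w1144 : PV o1144 := fun P h => h.t 1 1 7 5 0 1 4 5 2 3 (by decide +kernel)
def w1145 : PV o1145 := fun P h => h.t 1 1 7 5 0 2 3 5 1 4 (by decide +kernel)
def w1146 : PV o1146 := fun P h => h.t 1 1 7 5 0 3 4 5 1 2 (by decide +kernel)
def w1147 : PV o1147 := fun P h => h.t 1 1 7 6 0 1 2 4 3 5 (by decide +kernel)
def w1148 : PV o1148 := fun P h => h.t 1 1 7 6 0 1 2 5 3 4 (by decide +kernel)
def w1149 : PV o1149 := fun P h => h.t 1 1 7 6 0 1 4 5 2 3 (by decide +kernel)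
def w1150 : PV o1150 := fun P h => h.t 1 1 7 6 0 2 3 4 1 5 (by decide +kernel)
def w1151 : PV o1151 := fun P h => h.t 1 1 7 6 0 2 4 5 1 3 (by decide +kernel)
def w1152 : PV o1152 := fun P h => h.t 1 1 7 6 0 3 4 5 1 2 (by decide +kernel)
def w1153 : PV o1153 := fun P h => h.t 1 1 7 6 0 5 1 2 3 4 (by decide +kernel)
def w1154 : PV o1154 := fun P h => h.t 1 1 7 6 1 2 4 5 0 3 (by decide +kernel)
def w1155 : PV o1155 := fun P h => h.t 1 1 7 6 2 3 4 5 0 1 (by decide +kernel)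
def w1156 : PV o1156 := fun P h => h.t 1 1 7 7 0 2 3 4 1 5 (by decide +kernel)
def w1157 : PV o1157 := fun P h => h.t 1 1 7 7 0 2 3 5 1 4 (by decide +kernel)
def w1158 : PV o1158 := fun P h => h.t 1 1 7 7 0 3 4 5 1 2 (by decide +kernel)
def w1159 : PV o1159 := fun P h => h.t 1 1 7 7 0 4 1 5 2 3 (by decide +kernel)
def w1160 : PV o1160 := fun P h => h.x 1 1 7 15 (by decide +kernel)
def w1161 : PV o1161 := fun P h => h.x 1 2 0 12 (by decide +kernel)
def w1162 : PV o1162 := fun P h => h.x 1 2 0 4 (by decide +kernel)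
def w1163 : PV o1163 := fun P h => h.x 1 2 1 15 (by decide +kernel)
def w1164 : PV o1164 := fun P h => h.t 1 2 2 6 0 5 1 2 3 4 (by decide +kernel)
def w1165 : PV o1165 := fun P h => h.t 1 2 2 6 3 4 0 5 1 2 (by decide +kernel)
def w1166 : PV o1166 := fun P h => h.t 1 2 2 7 0 5 1 2 3 4 (by decide +kernel)
def w1167 : PV o1167 := fun P h => h.t 1 2 2 7 1 5 2 3 0 4 (by decide +kernel)
def w1168 : PV o1168 := fun P h => h.t 1 2 3 6 1 2 0 3 4 5 (by decide +kernel)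
def w1169 : PV o1169 := fun P h => h.t 1 2 3 6 2 3 0 4 1 5 (by decide +kernel)
def w1170 : PV o1170 := fun P h => h.t 1 2 3 7 1 2 0 4 3 5 (by decide +kernel)
def w1171 : PV o1171 := fun P h => h.t 1 2 3 7 1 3 0 4 2 5 (by decide +kernel)
def w1172 : PV o1172 := fun P h => h.t 1 2 3 7 1 5 0 3 2 4 (by decide +kernel)
def w1173 : PV o1173 := fun P h => h.t 1 2 3 7 2 3 0 4 1 5 (by decide +kernel)
def w1174 : PV o1174 := fun P h => h.t 1 2 3 7 2 5 0 3 1 4 (by decide +kernel)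
def w1175 : PV o1175 := fun P h => h.t 1 2 6 3 0 5 1 2 3 4 (by decide +kernel)
def w1176 : PV o1176 := fun P h => h.t 1 2 6 3 1 5 0 2 3 4 (by decide +kernel)
def w1177 : PV o1177 := fun P h => h.t 1 2 6 3 2 3 0 1 4 5 (by decide +kernel)
def w1178 : PV o1178 := fun P h => h.t 1 2 6 6 0 2 3 4 1 5 (by decide +kernel)
def w1179 : PV o1179 := fun P h => h.t 1 2 6 6 1 2 3 4 0 5 (by decide +kernel)
def w1180 : PV o1180 := fun P h => h.t 1 2 6 7 0 2 3 4 1 5 (by decide +kernel)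
def w1181 : PV o1181 := fun P h => h.t 1 2 6 7 0 5 1 2 3 4 (by decide +kernel)
def w1182 : PV o1182 := fun P h => h.t 1 2 6 7 0 5 1 3 2 4 (by decide +kernel)
def w1183 : PV o1183 := fun P h => h.t 1 2 6 7 1 2 3 4 0 5 (by decide +kernel)
def w1184 : PV o1184 := fun P h => h.t 1 2 6 7 1 5 2 3 0 4 (by decide +kernel)
def w1185 : PV o1185 := fun P h => h.t 1 2 7 3 0 1 2 3 4 5 (by decide +kernel)
def w1186 : PV o1186 := fun P h => h.t 1 2 7 3 0 5 1 2 3 4 (by decide +kernel)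
def w1187 : PV o1187 := fun P h => h.t 1 2 7 3 1 2 0 3 4 5 (by decide +kernel)
def w1188 : PV o1188 := fun P h => h.t 1 2 7 3 1 5 0 2 3 4 (by decide +kernel)
def w1189 : PV o1189 := fun P h => h.t 1 2 7 6 0 5 1 2 3 4 (by decide +kernel)
def w1190 : PV o1190 := fun P h => h.t 1 2 7 6 4 5 0 1 2 3 (by decide +kernel)
def w1191 : PV o1191 := fun P h => h.t 1 2 7 7 1 3 0 2 4 5 (by decide +kernel)
def w1192 : PV o1192 := fun P h => h.t 1 2 7 7 1 5 0 2 3 4 (by decide +kernel)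
def w1193 : PV o1193 := fun P h => h.x 1 2 7 4 (by decide +kernel)
def w1194 : PV o1194 := fun P h => h.x 1 3 1 15 (by decide +kernel)
def w1195 : PV o1195 := fun P h => h.x 1 3 2 15 (by decide +kernel)
def w1196 : PV o1196 := fun P h => h.x 1 3 2 12 (by decide +kernel)
def w1197 : PV o1197 := fun P h => h.t 1 3 3 3 0 2 3 5 1 4 (by decide +kernel)
def w1198 : PV o1198 := fun P h => h.t 1 3 3 4 0 1 2 4 3 5 (by decide +kernel)
def w1199 : PV o1199 := fun P h => h.t 1 3 3 4 0 1 3 4 2 5 (by decide +kernel)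

end Pool.Agent.BDD.A
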