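import Pool.Agent.BDD.AC
import Pool.Agent.BDD.AE0

set_option autoImplicit false
set_option linter.all false

namespace Pool.Agent.BDD.A

def w1200 : PV o1200 := fun P h => h.t 1 3 3 4 0 1 4 5 2 3 (by decide +kernel)
def w1201 : PV o1201 := fun P h => h.t 1 3 3 4 0 2 3 4 1 5 (by decide +kernel)
def w1202 : PV o1202 := fun P h => h.t 1 3 3 4 0 2 4 5 1 3 (by decide +kernel)
def w1203 : PV o1203 := fun P h => h.t 1 3 3 4 0 3 4 5 1 2 (by decide +kernel)
def w1204 : PV o1204 := fun P h => h.t 1 3 3 4 1 2 3 5 0 4 (by decide +kernel)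
def w1205 : PV o1205 := fun P h => h.t 1 3 3 4 1 2 4 5 0 3 (by decide +kernel)
def w1206 : PV o1206 := fun P h => h.t 1 3 3 4 1 3 4 5 0 2 (by decide +kernel)
def w1207 : PV o1207 := fun P h => h.t 1 3 3 4 2 3 0 4 1 5 (by decide +kernel)
def w1208 : PV o1208 := fun P h => h.t 1 3 3 4 2 3 0 5 1 4 (by decide +kernel)
def w1209 : PV o1209 := fun P h => h.t 1 3 3 4 3 4 0 5 1 2 (by decide +kernel)
def w1210 : PV o1210 := fun P h => h.t 1 3 3 4 3 4 1 5 0 2 (by decide +kernel)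
def w1211 : PV o1211 := fun P h => h.t 1 3 3 5 0 2 3 4 1 5 (by decide +kernel)
def w1212 : PV o1212 := fun P h => h.t 1 3 3 5 3 4 0 5 1 2 (by decide +kernel)
def w1213 : PV o1213 := fun P h => h.t 1 3 3 6 0 1 2 5 3 4 (by decide +kernel)
def w1214 : PV o1214 := fun P h => h.t 1 3 3 6 0 1 4 5 2 3 (by decide +kernel)
def w1215 : PV o1215 := fun P h => h.t 1 3 3 6 0 3 1 5 2 4 (by decide +kernel)
def w1216 : PV o1216 := fun P h => h.t 1 3 3 6 0 3 4 5 1 2 (by decide +kernel)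
def w1217 : PV o1217 := fun P h => h.t 1 3 3 6 0 4 2 5 1 3 (by decide +kernel)
def w1218 : PV o1218 := fun P h => h.t 1 3 3 6 1 2 3 5 0 4 (by decide +kernel)
def w1219 : PV o1219 := fun P h => h.t 1 3 3 6 1 3 4 5 0 2 (by decide +kernel)
def w1220 : PV o1220 := fun P h => h.t 1 3 3 6 1 4 3 5 0 2 (by decide +kernel)
def w1221 : PV o1221 := fun P h => h.t 1 3 3 6 2 3 0 4 1 5 (by decide +kernel)
def w1222 : PV o1222 := fun P h => h.t 1 3 3 6 2 4 0 5 1 3 (by decide +kernel)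
def w1223 : PV o1223 := fun P h => h.t 1 3 3 6 3 4 0 5 1 2 (by decide +kernel)
def w1224 : PV o1224 := fun P h => h.t 1 3 3 6 3 4 1 5 0 2 (by decide +kernel)
def w1225 : PV o1225 := fun P h => h.t 1 3 3 7 3 4 0 5 1 2 (by decide +kernel)
def w1226 : PV o1226 := fun P h => h.t 1 3 4 4 0 2 3 4 1 5 (by decide +kernel)
def w1227 : PV o1227 := fun P h => h.t 1 3 4 4 0 3 4 5 1 2 (by decide +kernel)
def w1228 : PV o1228 := fun P h => h.t 1 3 4 4 0 4 1 5 2 3 (by decide +kernel)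
def w1229 : PV o1229 := fun P h => h.t 1 3 4 4 1 3 4 5 0 2 (by decide +kernel)
def w1230 : PV o1230 := fun P h => h.t 1 3 4 5 0 1 2 3 4 5 (by decide +kernel)
def w1231 : PV o1231 := fun P h => h.t 1 3 4 5 0 1 2 4 3 5 (by decide +kernel)
def w1232 : PV o1232 := fun P h => h.t 1 3 4 5 0 1 2 5 3 4 (by decide +kernel)
def w1233 : PV o1233 := fun P h => h.t 1 3 4 5 0 1 3 5 2 4 (by decide +kernel)
def w1234 : PV o1234 := fun P h => h.t 1 3 4 5 1 2 3 4 0 5 (by decide +kernel)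
def w1235 : PV o1235 := fun P h => h.t 1 3 4 5 1 2 3 5 0 4 (by decide +kernel)
def w1236 : PV o1236 := fun P h => h.t 1 3 4 5 3 5 0 4 1 2 (by decide +kernel)
def w1237 : PV o1237 := fun P h => h.t 1 3 4 6 0 4 3 5 1 2 (by decide +kernel)
def w1238 : PV o1238 := fun P h => h.t 1 3 4 6 0 5 1 2 3 4 (by decide +kernel)
def w1239 : PV o1239 := fun P h => h.t 1 3 4 6 0 5 3 4 1 2 (by decide +kernel)
def w1240 : PV o1240 := fun P h => h.t 1 3 4 7 2 3 4 5 0 1 (by decide +kernel)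
def w1241 : PV o1241 := fun P h => h.t 1 3 4 7 2 4 3 5 0 1 (by decide +kernel)
def w1242 : PV o1242 := fun P h => h.t 1 3 4 7 2 5 3 4 0 1 (by decide +kernel)
def w1243 : PV o1243 := fun P h => h.t 1 3 4 7 3 4 1 5 0 2 (by decide +kernel)
def w1244 : PV o1244 := fun P h => h.t 1 3 4 7 3 5 0 4 1 2 (by decide +kernel)
def w1245 : PV o1245 := fun P h => h.t 1 3 4 7 3 5 1 4 0 2 (by decide +kernel)
def w1246 : PV o1246 := fun P h => h.t 1 3 4 7 4 5 0 1 2 3 (by decide +kernel)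
def w1247 : PV o1247 := fun P h => h.t 1 3 4 7 4 5 1 2 0 3 (by decide +kernel)
def w1248 : PV o1248 := fun P h => h.x 1 3 4 15 (by decide +kernel)
def w1249 : PV o1249 := fun P h => h.t 1 3 5 4 0 4 2 3 1 5 (by decide +kernel)
def w1250 : PV o1250 := fun P h => h.t 1 3 5 4 0 5 1 2 3 4 (by decide +kernel)
def w1251 : PV o1251 := fun P h => h.t 1 3 5 4 0 5 2 3 1 4 (by decide +kernel)
def w1252 : PV o1252 := fun P h => h.t 1 3 5 5 1 2 3 4 0 5 (by decide +kernel)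
def w1253 : PV o1253 := fun P h => h.t 1 3 5 6 0 3 4 5 1 2 (by decide +kernel)
def w1254 : PV o1254 := fun P h => h.t 1 3 5 6 0 4 1 5 2 3 (by decide +kernel)
def w1255 : PV o1255 := fun P h => h.t 1 3 5 6 0 4 2 5 1 3 (by decide +kernel)
def w1256 : PV o1256 := fun P h => h.t 1 3 5 6 0 4 3 5 1 2 (by decide +kernel)
def w1257 : PV o1257 := fun P h => h.t 1 3 5 6 0 5 1 2 3 4 (by decide +kernel)
def w1258 : PV o1258 := fun P h => h.t 1 3 5 6 0 5 1 3 2 4 (by decide +kernel)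
def w1259 : PV o1259 := fun P h => h.t 1 3 5 6 0 5 1 4 2 3 (by decide +kernel)
def w1260 : PV o1260 := fun P h => h.t 1 3 5 6 0 5 2 3 1 4 (by decide +kernel)
def w1261 : PV o1261 := fun P h => h.t 1 3 5 6 0 5 2 4 1 3 (by decide +kernel)
def w1262 : PV o1262 := fun P h => h.t 1 3 5 6 0 5 3 4 1 2 (by decide +kernel)
def w1263 : PV o1263 := fun P h => h.t 1 3 5 7 0 1 2 5 3 4 (by decide +kernel)
def w1264 : PV o1264 := fun P h => h.t 1 3 5 7 0 3 1 5 2 4 (by decide +kernel)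
def w1265 : PV o1265 := fun P h => h.t 1 3 5 7 1 2 3 4 0 5 (by decide +kernel)
def w1266 : PV o1266 := fun P h => h.t 1 3 5 7 1 2 4 5 0 3 (by decide +kernel)
def w1267 : PV o1267 := fun P h => h.t 1 3 5 7 2 3 4 5 0 1 (by decide +kernel)
def w1268 : PV o1268 := fun P h => h.t 1 3 5 7 2 4 3 5 0 1 (by decide +kernel)
def w1269 : PV o1269 := fun P h => h.t 1 3 5 7 4 5 1 2 0 3 (by decide +kernel)
def w1270 : PV o1270 := fun P h => h.x 1 3 5 15 (by decide +kernel)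
def w1271 : PV o1271 := fun P h => h.x 1 3 5 13 (by decide +kernel)
def w1272 : PV o1272 := fun P h => h.x 1 3 5 12 (by decide +kernel)
def w1273 : PV o1273 := fun P h => h.t 1 3 6 4 0 2 3 4 1 5 (by decide +kernel)
def w1274 : PV o1274 := fun P h => h.t 1 3 6 4 0 2 4 5 1 3 (by decide +kernel)
def w1275 : PV o1275 := fun P h => h.t 1 3 6 4 0 3 4 5 1 2 (by decide +kernel)
def w1276 : PV o1276 := fun P h => h.t 1 3 6 4 0 4 1 5 2 3 (by decide +kernel)
def w1277 : PV o1277 := fun P h => h.t 1 3 6 4 0 4 2 5 1 3 (by decide +kernel)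
def w1278 : PV o1278 := fun P h => h.t 1 3 6 5 0 1 2 3 4 5 (by decide +kernel)
def w1279 : PV o1279 := fun P h => h.t 1 3 6 5 0 1 2 4 3 5 (by decide +kernel)
def w1280 : PV o1280 := fun P h => h.t 1 3 6 5 0 1 2 5 3 4 (by decide +kernel)
def w1281 : PV o1281 := fun P h => h.t 1 3 6 5 0 1 3 4 2 5 (by decide +kernel)
def w1282 : PV o1282 := fun P h => h.t 1 3 6 5 0 1 3 5 2 4 (by decide +kernel)
def w1283 : PV o1283 := fun P h => h.t 1 3 6 5 0 1 4 5 2 3 (by decide +kernel)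
def w1284 : PV o1284 := fun P h => h.t 1 3 6 5 0 2 1 3 4 5 (by decide +kernel)
def w1285 : PV o1285 := fun P h => h.t 1 3 6 5 0 2 1 4 3 5 (by decide +kernel)
def w1286 : PV o1286 := fun P h => h.t 1 3 6 5 0 2 1 5 3 4 (by decide +kernel)
def w1287 : PV o1287 := fun P h => h.t 1 3 6 5 0 3 1 4 2 5 (by decide +kernel)
def w1288 : PV o1288 := fun P h => h.t 1 3 6 5 0 4 1 3 2 5 (by decide +kernel)
def w1289 : PV o1289 := fun P h => h.t 1 3 6 5 0 4 2 3 1 5 (by decide +kernel)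
def w1290 : PV o1290 := fun P h => h.t 1 3 6 5 0 5 1 3 2 4 (by decide +kernel)
def w1291 : PV o1291 := fun P h => h.t 1 3 6 5 1 2 3 4 0 5 (by decide +kernel)
def w1292 : PV o1292 := fun P h => h.t 1 3 6 5 1 2 3 5 0 4 (by decide +kernel)
def w1293 : PV o1293 := fun P h => h.t 1 3 6 5 1 2 4 5 0 3 (by decide +kernel)
def w1294 : PV o1294 := fun P h => h.t 1 3 6 5 1 3 2 4 0 5 (by decide +kernel)
def w1295 : PV o1295 := fun P h => h.t 1 3 6 5 1 3 2 5 0 4 (by decide +kernel)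
def w1296 : PV o1296 := fun P h => h.t 1 3 6 5 2 3 0 4 1 5 (by decide +kernel)
def w1297 : PV o1297 := fun P h => h.t 1 3 6 5 2 3 0 5 1 4 (by decide +kernel)
def w1298 : PV o1298 := fun P h => h.t 1 3 6 5 2 3 4 5 0 1 (by decide +kernel)
def w1299 : PV o1299 := fun P h => h.t 1 3 6 5 2 5 3 4 0 1 (by decide +kernel)
def w1300 : PV o1300 := fun P h => h.t 1 3 6 5 3 4 0 1 2 5 (by decide +kernel)
def w1301 : PV o1301 := fun P h => h.t 1 3 6 5 3 4 0 5 1 2 (by decide +kernel)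
def w1302 : PV o1302 := fun P h => h.t 1 3 6 5 3 4 1 5 0 2 (by decide +kernel)
def w1303 : PV o1303 := fun P h => h.t 1 3 6 5 3 5 0 4 1 2 (by decide +kernel)
def w1304 : PV o1304 := fun P h => h.t 1 3 6 5 3 5 1 4 0 2 (by decide +kernel)
def w1305 : PV o1305 := fun P h => h.t 1 3 6 5 4 5 0 1 2 3 (by decide +kernel)
def w1306 : PV o1306 := fun P h => h.t 1 3 6 5 4 5 1 2 0 3 (by decide +kernel)
def w1307 : PV o1307 := fun P h => h.t 1 3 6 6 0 3 4 5 1 2 (by decide +kernel)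
def w1308 : PV o1308 := fun P h => h.t 1 3 6 6 0 4 1 5 2 3 (by decide +kernel)
def w1309 : PV o1309 := fun P h => h.t 1 3 6 6 0 4 2 5 1 3 (by decide +kernel)
def w1310 : PV o1310 := fun P h => h.t 1 3 6 6 1 2 3 4 0 5 (by decide +kernel)
def w1311 : PV o1311 := fun P h => h.t 1 3 6 7 0 1 2 3 4 5 (by decide +kernel)
def w1312 : PV o1312 := fun P h => h.t 1 3 6 7 0 1 2 4 3 5 (by decide +kernel)
def w1313 : PV o1313 := fun P h => h.t 1 3 6 7 0 1 3 4 2 5 (by decide +kernel)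
def w1314 : PV o1314 := fun P h => h.t 1 3 6 7 0 2 1 3 4 5 (by decide +kernel)
def w1315 : PV o1315 := fun P h => h.t 1 3 6 7 0 2 1 4 3 5 (by decide +kernel)
def w1316 : PV o1316 := fun P h => h.t 1 3 6 7 0 2 3 4 1 5 (by decide +kernel)
def w1317 : PV o1317 := fun P h => h.t 1 3 6 7 0 4 1 2 3 5 (by decide +kernel)
def w1318 : PV o1318 := fun P h => h.t 1 3 6 7 0 4 2 3 1 5 (by decide +kernel)
def w1319 : PV o1319 := fun P h => h.t 1 3 6 7 0 5 1 4 2 3 (by decide +kernel)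
def w1320 : PV o1320 := fun P h => h.t 1 3 6 7 0 5 2 4 1 3 (by decide +kernel)
def w1321 : PV o1321 := fun P h => h.t 1 3 6 7 0 5 3 4 1 2 (by decide +kernel)
def w1322 : PV o1322 := fun P h => h.t 1 3 6 7 1 2 3 4 0 5 (by decide +kernel)
def w1323 : PV o1323 := fun P h => h.t 1 3 6 7 1 2 4 5 0 3 (by decide +kernel)
def w1324 : PV o1324 := fun P h => h.t 1 3 6 7 1 3 2 4 0 5 (by decide +kernel)
def w1325 : PV o1325 := fun P h => h.t 1 3 6 7 1 3 2 5 0 4 (by decide +kernel)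
def w1326 : PV o1326 := fun P h => h.t 1 3 6 7 1 4 0 2 3 5 (by decide +kernel)
def w1327 : PV o1327 := fun P h => h.t 1 3 6 7 1 4 0 3 2 5 (by decide +kernel)
def w1328 : PV o1328 := fun P h => h.t 1 3 6 7 1 4 2 3 0 5 (by decide +kernel)
def w1329 : PV o1329 := fun P h => h.t 1 3 6 7 1 5 0 4 2 3 (by decide +kernel)
def w1330 : PV o1330 := fun P h => h.t 1 3 6 7 2 3 0 4 1 5 (by decide +kernel)
def w1331 : PV o1331 := fun P h => h.t 1 3 6 7 2 3 0 5 1 4 (by decide +kernel)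
def w1332 : PV o1332 := fun P h => h.t 1 3 6 7 2 3 1 4 0 5 (by decide +kernel)
def w1333 : PV o1333 := fun P h => h.t 1 3 6 7 2 3 4 5 0 1 (by decide +kernel)
def w1334 : PV o1334 := fun P h => h.t 1 3 6 7 2 4 0 1 3 5 (by decide +kernel)
def w1335 : PV o1335 := fun P h => h.t 1 3 6 7 2 4 0 3 1 5 (by decide +kernel)
def w1336 : PV o1336 := fun P h => h.t 1 3 6 7 2 4 1 3 0 5 (by decide +kernel)
def w1337 : PV o1337 := fun P h => h.t 1 3 6 7 2 4 3 5 0 1 (by decide +kernel)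
def w1338 : PV o1338 := fun P h => h.t 1 3 6 7 2 5 1 4 0 3 (by decide +kernel)
def w1339 : PV o1339 := fun P h => h.t 1 3 6 7 2 5 3 4 0 1 (by decide +kernel)
def w1340 : PV o1340 := fun P h => h.t 1 3 6 7 3 4 0 1 2 5 (by decide +kernel)
def w1341 : PV o1341 := fun P h => h.t 1 3 6 7 3 4 0 2 1 5 (by decide +kernel)
def w1342 : PV o1342 := fun P h => h.t 1 3 6 7 3 4 0 5 1 2 (by decide +kernel)
def w1343 : PV o1343 := fun P h => h.t 1 3 6 7 3 4 1 2 0 5 (by decide +kernel)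
def w1344 : PV o1344 := fun P h => h.t 1 3 6 7 3 4 1 5 0 2 (by decide +kernel)
def w1345 : PV o1345 := fun P h => h.t 1 3 6 7 3 5 0 4 1 2 (by decide +kernel)
def w1346 : PV o1346 := fun P h => h.t 1 3 6 7 3 5 1 4 0 2 (by decide +kernel)
def w1347 : PV o1347 := fun P h => h.t 1 3 6 7 4 5 0 1 2 3 (by decide +kernel)
def w1348 : PV o1348 := fun P h => h.t 1 3 6 7 4 5 0 2 1 3 (by decide +kernel)
def w1349 : PV o1349 := fun P h => h.t 1 3 6 7 4 5 0 3 1 2 (by decide +kernel)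
def w1350 : PV o1350 := fun P h => h.t 1 3 6 7 4 5 1 2 0 3 (by decide +kernel)
def w1351 : PV o1351 := fun P h => h.x 1 3 6 15 (by decide +kernel)
def w1352 : PV o1352 := fun P h => h.x 1 3 6 13 (by decide +kernel)
def w1353 : PV o1353 := fun P h => h.x 1 3 6 12 (by decide +kernel)
def w1354 : PV o1354 := fun P h => h.t 1 3 7 4 0 1 2 4 3 5 (by decide +kernel)
def w1355 : PV o1355 := fun P h => h.t 1 3 7 4 0 2 4 5 1 3 (by decide +kernel)
def w1356 : PV o1356 := fun P h => h.t 1 3 7 4 0 3 1 4 2 5 (by decide +kernel)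
def w1357 : PV o1357 := fun P h => h.t 1 3 7 4 0 3 1 5 2 4 (by decide +kernel)
def w1358 : PV o1358 := fun P h => h.t 1 3 7 4 0 3 2 4 1 5 (by decide +kernel)
def w1359 : PV o1359 := fun P h => h.t 1 3 7 4 0 3 2 5 1 4 (by decide +kernel)
def w1360 : PV o1360 := fun P h => h.t 1 3 7 4 0 4 1 5 2 3 (by decide +kernel)
def w1361 : PV o1361 := fun P h => h.t 1 3 7 4 0 4 2 5 1 3 (by decide +kernel)
def w1362 : PV o1362 := fun P h => h.t 1 3 7 4 0 4 3 5 1 2 (by decide +kernel)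
def w1363 : PV o1363 := fun P h => h.t 1 3 7 5 0 1 2 3 4 5 (by decide +kernel)
def w1364 : PV o1364 := fun P h => h.t 1 3 7 5 0 1 4 5 2 3 (by decide +kernel)
def w1365 : PV o1365 := fun P h => h.t 1 3 7 5 0 2 1 3 4 5 (by decide +kernel)
def w1366 : PV o1366 := fun P h => h.t 1 3 7 5 0 2 1 5 3 4 (by decide +kernel)
def w1367 : PV o1367 := fun P h => h.t 1 3 7 5 1 2 4 5 0 3 (by decide +kernel)
def w1368 : PV o1368 := fun P h => h.t 1 3 7 5 1 3 2 4 0 5 (by decide +kernel)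
def w1369 : PV o1369 := fun P h => h.t 1 3 7 5 2 3 0 4 1 5 (by decide +kernel)
def w1370 : PV o1370 := fun P h => h.t 1 3 7 5 2 3 4 5 0 1 (by decide +kernel)
def w1371 : PV o1371 := fun P h => h.t 1 3 7 5 3 4 0 5 1 2 (by decide +kernel)
def w1372 : PV o1372 := fun P h => h.t 1 3 7 5 3 4 1 5 0 2 (by decide +kernel)
def w1373 : PV o1373 := fun P h => h.t 1 3 7 6 0 1 2 5 3 4 (by decide +kernel)
def w1374 : PV o1374 := fun P h => h.t 1 3 7 6 0 1 4 5 2 3 (by decide +kernel)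
def w1375 : PV o1375 := fun P h => h.t 1 3 7 6 0 2 4 5 1 3 (by decide +kernel)
def w1376 : PV o1376 := fun P h => h.t 1 3 7 6 0 3 4 5 1 2 (by decide +kernel)
def w1377 : PV o1377 := fun P h => h.t 1 3 7 6 0 4 1 5 2 3 (by decide +kernel)
def w1378 : PV o1378 := fun P h => h.t 1 3 7 6 0 4 2 5 1 3 (by decide +kernel)
def w1379 : PV o1379 := fun P h => h.t 1 3 7 6 0 4 3 5 1 2 (by decide +kernel)
def w1380 : PV o1380 := fun P h => h.t 1 3 7 6 0 5 1 3 2 4 (by decide +kernel)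
def w1381 : PV o1381 := fun P h => h.t 1 3 7 6 0 5 1 4 2 3 (by decide +kernel)
def w1382 : PV o1382 := fun P h => h.t 1 3 7 6 0 5 2 3 1 4 (by decide +kernel)
def w1383 : PV o1383 := fun P h => h.t 1 3 7 6 0 5 2 4 1 3 (by decide +kernel)
def w1384 : PV o1384 := fun P h => h.t 1 3 7 6 0 5 3 4 1 2 (by decide +kernel)
def w1385 : PV o1385 := fun P h => h.t 1 3 7 6 1 2 4 5 0 3 (by decide +kernel)
def w1386 : PV o1386 := fun P h => h.t 1 3 7 6 1 3 4 5 0 2 (by decide +kernel)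
def w1387 : PV o1387 := fun P h => h.t 1 3 7 6 2 3 0 4 1 5 (by decide +kernel)
def w1388 : PV o1388 := fun P h => h.t 1 3 7 6 2 3 4 5 0 1 (by decide +kernel)
def w1389 : PV o1389 := fun P h => h.t 1 3 7 7 1 2 3 4 0 5 (by decide +kernel)
def w1390 : PV o1390 := fun P h => h.t 1 3 7 7 2 3 4 5 0 1 (by decide +kernel)
def w1391 : PV o1391 := fun P h => h.t 1 3 7 7 2 4 3 5 0 1 (by decide +kernel)
def w1392 : PV o1392 := fun P h => h.t 1 3 7 7 3 4 0 5 1 2 (by decide +kernel)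
def w1393 : PV o1393 := fun P h => h.x 1 3 7 15 (by decide +kernel)
def w1394 : PV o1394 := fun P h => h.x 1 3 7 13 (by decide +kernel)
def w1395 : PV o1395 := fun P h => h.x 1 3 7 12 (by decide +kernel)
def w1396 : PV o1396 := fun P h => h.x 1 4 1 15 (by decide +kernel)
def w1397 : PV o1397 := fun P h => h.x 1 4 3 12 (by decide +kernel)
def w1398 : PV o1398 := fun P h => h.x 1 4 3 5 (by decide +kernel)
def w1399 : PV o1399 := fun P h => h.t 1 4 4 4 0 2 3 5 1 4 (by decide +kernel)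
def w1400 : PV o1400 := fun P h => h.t 1 4 4 5 0 1 2 5 3 4 (by decide +kernel)
def w1401 : PV o1401 := fun P h => h.t 1 4 4 5 0 3 1 5 2 4 (by decide +kernel)
def w1402 : PV o1402 := fun P h => h.t 1 4 4 5 0 5 1 3 2 4 (by decide +kernel)
def w1403 : PV o1403 := fun P h => h.t 1 4 4 7 3 4 1 5 0 2 (by decide +kernel)
def w1404 : PV o1404 := fun P h => h.t 1 4 5 5 0 2 1 3 4 5 (by decide +kernel)
def w1405 : PV o1405 := fun P h => h.t 1 4 5 5 1 3 0 2 4 5 (by decide +kernel)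
def w1406 : PV o1406 := fun P h => h.t 1 4 5 5 1 3 2 4 0 5 (by decide +kernel)
def w1407 : PV o1407 := fun P h => h.t 1 4 5 6 3 4 0 5 1 2 (by decide +kernel)
def w1408 : PV o1408 := fun P h => h.t 1 4 5 6 3 5 0 4 1 2 (by decide +kernel)
def w1409 : PV o1409 := fun P h => h.t 1 4 5 7 1 2 0 4 3 5 (by decide +kernel)
def w1410 : PV o1410 := fun P h => h.t 1 4 5 7 2 4 3 5 0 1 (by decide +kernel)
def w1411 : PV o1411 := fun P h => h.t 1 4 5 7 3 4 0 5 1 2 (by decide +kernel)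
def w1412 : PV o1412 := fun P h => h.t 1 4 5 7 3 4 1 5 0 2 (by decide +kernel)
def w1413 : PV o1413 := fun P h => h.t 1 4 5 7 3 5 0 4 1 2 (by decide +kernel)
def w1414 : PV o1414 := fun P h => h.x 1 4 5 15 (by decide +kernel)
def w1415 : PV o1415 := fun P h => h.x 1 4 5 13 (by decide +kernel)
def w1416 : PV o1416 := fun P h => h.x 1 4 5 12 (by decide +kernel)
def w1417 : PV o1417 := fun P h => h.t 1 4 6 5 0 5 2 4 1 3 (by decide +kernel)
def w1418 : PV o1418 := fun P h => h.t 1 4 6 7 2 3 0 1 4 5 (by decide +kernel)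
def w1419 : PV o1419 := fun P h => h.t 1 4 6 7 3 5 1 2 0 4 (by decide +kernel)
def w1420 : PV o1420 := fun P h => h.t 1 4 7 5 1 4 0 2 3 5 (by decide +kernel)
def w1421 : PV o1421 := fun P h => h.t 1 4 7 6 0 2 3 4 1 5 (by decide +kernel)
def w1422 : PV o1422 := fun P h => h.t 1 4 7 6 1 2 3 4 0 5 (by decide +kernel)
def w1423 : PV o1423 := fun P h => h.t 1 4 7 6 1 3 0 2 4 5 (by decide +kernel)
def w1424 : PV o1424 := fun P h => h.t 1 4 7 6 1 5 0 2 3 4 (by decide +kernel)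
def w1425 : PV o1425 := fun P h => h.t 1 4 7 6 1 5 0 3 2 4 (by decide +kernel)
def w1426 : PV o1426 := fun P h => h.t 1 4 7 7 0 2 3 4 1 5 (by decide +kernel)
def w1427 : PV o1427 := fun P h => h.t 1 4 7 7 1 2 0 3 4 5 (by decide +kernel)
def w1428 : PV o1428 := fun P h => h.t 1 4 7 7 1 2 3 4 0 5 (by decide +kernel)
def w1429 : PV o1429 := fun P h => h.t 1 4 7 7 1 3 0 2 4 5 (by decide +kernel)
def w1430 : PV o1430 := fun P h => h.t 1 4 7 7 1 4 0 2 3 5 (by decide +kernel)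
def w1431 : PV o1431 := fun P h => h.t 1 4 7 7 1 5 0 2 3 4 (by decide +kernel)
def w1432 : PV o1432 := fun P h => h.x 1 5 1 15 (by decide +kernel)
def w1433 : PV o1433 := fun P h => h.x 1 5 3 15 (by decide +kernel)
def w1434 : PV o1434 := fun P h => h.x 1 5 3 12 (by decide +kernel)
def w1435 : PV o1435 := fun P h => h.x 1 5 3 0 (by decide +kernel)
def w1436 : PV o1436 := fun P h => h.x 1 5 4 5 (by decide +kernel)
def w1437 : PV o1437 := fun P h => h.t 1 5 5 5 0 2 1 4 3 5 (by decide +kernel)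
def w1438 : PV o1438 := fun P h => h.t 1 5 5 6 0 2 1 4 3 5 (by decide +kernel)
def w1439 : PV o1439 := fun P h => h.t 1 5 5 6 0 2 3 4 1 5 (by decide +kernel)
def w1440 : PV o1440 := fun P h => h.t 1 5 5 6 0 2 3 5 1 4 (by decide +kernel)
def w1441 : PV o1441 := fun P h => h.t 1 5 5 6 0 2 4 5 1 3 (by decide +kernel)
def w1442 : PV o1442 := fun P h => h.t 1 5 5 6 1 3 4 5 0 2 (by decide +kernel)
def w1443 : PV o1443 := fun P h => h.t 1 5 5 6 1 4 0 2 3 5 (by decide +kernel)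
def w1444 : PV o1444 := fun P h => h.t 1 5 5 6 1 4 3 5 0 2 (by decide +kernel)
def w1445 : PV o1445 := fun P h => h.t 1 5 5 6 1 5 2 3 0 4 (by decide +kernel)
def w1446 : PV o1446 := fun P h => h.t 1 5 5 6 2 5 0 3 1 4 (by decide +kernel)
def w1447 : PV o1447 := fun P h => h.t 1 5 5 6 2 5 0 4 1 3 (by decide +kernel)
def w1448 : PV o1448 := fun P h => h.t 1 5 5 6 3 5 1 2 0 4 (by decide +kernel)
def w1449 : PV o1449 := fun P h => h.t 1 5 5 6 3 5 1 4 0 2 (by decide +kernel)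
def w1450 : PV o1450 := fun P h => h.t 1 5 5 6 4 5 1 2 0 3 (by decide +kernel)
def w1451 : PV o1451 := fun P h => h.t 1 5 5 6 4 5 1 3 0 2 (by decide +kernel)
def w1452 : PV o1452 := fun P h => h.t 1 5 6 6 0 2 1 3 4 5 (by decide +kernel)
def w1453 : PV o1453 := fun P h => h.t 1 5 6 6 0 2 1 5 3 4 (by decide +kernel)
def w1454 : PV o1454 := fun P h => h.t 1 5 6 6 0 2 3 4 1 5 (by decide +kernel)
def w1455 : PV o1455 := fun P h => h.t 1 5 6 6 0 2 4 5 1 3 (by decide +kernel)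
def w1456 : PV o1456 := fun P h => h.t 1 5 6 6 0 3 1 2 4 5 (by decide +kernel)
def w1457 : PV o1457 := fun P h => h.t 1 5 6 6 0 4 1 3 2 5 (by decide +kernel)
def w1458 : PV o1458 := fun P h => h.t 1 5 6 6 0 4 1 5 2 3 (by decide +kernel)
def w1459 : PV o1459 := fun P h => h.t 1 5 6 6 0 4 2 3 1 5 (by decide +kernel)
def w1460 : PV o1460 := fun P h => h.t 1 5 6 6 1 2 0 4 3 5 (by decide +kernel)
def w1461 : PV o1461 := fun P h => h.t 1 5 6 6 1 2 3 4 0 5 (by decide +kernel)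
def w1462 : PV o1462 := fun P h => h.t 1 5 6 6 1 3 0 2 4 5 (by decide +kernel)
def w1463 : PV o1463 := fun P h => h.t 1 5 6 6 1 3 0 4 2 5 (by decide +kernel)
def w1464 : PV o1464 := fun P h => h.t 1 5 6 6 1 3 0 5 2 4 (by decide +kernel)
def w1465 : PV o1465 := fun P h => h.t 1 5 6 6 1 3 2 4 0 5 (by decide +kernel)
def w1466 : PV o1466 := fun P h => h.t 1 5 6 6 1 4 0 2 3 5 (by decide +kernel)
def w1467 : PV o1467 := fun P h => h.t 1 5 6 6 1 4 0 3 2 5 (by decide +kernel)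
def w1468 : PV o1468 := fun P h => h.t 1 5 6 6 1 4 0 5 2 3 (by decide +kernel)
def w1469 : PV o1469 := fun P h => h.t 1 5 6 6 1 5 0 2 3 4 (by decide +kernel)
def w1470 : PV o1470 := fun P h => h.t 1 5 6 6 1 5 0 4 2 3 (by decide +kernel)
def w1471 : PV o1471 := fun P h => h.t 1 5 6 6 1 5 2 4 0 3 (by decide +kernel)
def w1472 : PV o1472 := fun P h => h.t 1 5 6 6 2 3 0 1 4 5 (by decide +kernel)
def w1473 : PV o1473 := fun P h => h.t 1 5 6 6 2 4 0 1 3 5 (by decide +kernel)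
def w1474 : PV o1474 := fun P h => h.t 1 5 6 6 2 5 0 1 3 4 (by decide +kernel)
def w1475 : PV o1475 := fun P h => h.t 1 5 6 6 3 4 0 1 2 5 (by decide +kernel)
def w1476 : PV o1476 := fun P h => h.t 1 5 6 6 3 4 0 5 1 2 (by decide +kernel)
def w1477 : PV o1477 := fun P h => h.t 1 5 6 6 3 4 1 2 0 5 (by decide +kernel)
def w1478 : PV o1478 := fun P h => h.t 1 5 6 6 3 4 2 5 0 1 (by decide +kernel)
def w1479 : PV o1479 := fun P h => h.t 1 5 6 6 3 5 0 1 2 4 (by decide +kernel)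
def w1480 : PV o1480 := fun P h => h.t 1 5 6 6 3 5 0 2 1 4 (by decide +kernel)
def w1481 : PV o1481 := fun P h => h.t 1 5 6 6 3 5 0 4 1 2 (by decide +kernel)
def w1482 : PV o1482 := fun P h => h.t 1 5 6 6 3 5 1 2 0 4 (by decide +kernel)
def w1483 : PV o1483 := fun P h => h.t 1 5 6 6 3 5 2 4 0 1 (by decide +kernel)
def w1484 : PV o1484 := fun P h => h.t 1 5 6 7 0 1 2 3 4 5 (by decide +kernel)
def w1485 : PV o1485 := fun P h => h.t 1 5 6 7 0 2 1 3 4 5 (by decide +kernel)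
def w1486 : PV o1486 := fun P h => h.t 1 5 6 7 0 2 1 4 3 5 (by decide +kernel)
def w1487 : PV o1487 := fun P h => h.t 1 5 6 7 0 2 1 5 3 4 (by decide +kernel)
def w1488 : PV o1488 := fun P h => h.t 1 5 6 7 0 2 3 4 1 5 (by decide +kernel)
def w1489 : PV o1489 := fun P h => h.t 1 5 6 7 0 3 1 4 2 5 (by decide +kernel)
def w1490 : PV o1490 := fun P h => h.t 1 5 6 7 0 3 2 4 1 5 (by decide +kernel)
def w1491 : PV o1491 := fun P h => h.t 1 5 6 7 1 2 0 3 4 5 (by decide +kernel)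
def w1492 : PV o1492 := fun P h => h.t 1 5 6 7 1 2 3 4 0 5 (by decide +kernel)
def w1493 : PV o1493 := fun P h => h.t 1 5 6 7 1 3 0 2 4 5 (by decide +kernel)
def w1494 : PV o1494 := fun P h => h.t 1 5 6 7 1 3 2 4 0 5 (by decide +kernel)
def w1495 : PV o1495 := fun P h => h.t 1 5 6 7 1 5 2 3 0 4 (by decide +kernel)
def w1496 : PV o1496 := fun P h => h.t 1 5 6 7 2 3 0 1 4 5 (by decide +kernel)
def w1497 : PV o1497 := fun P h => h.t 1 5 6 7 2 3 1 4 0 5 (by decide +kernel)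
def w1498 : PV o1498 := fun P h => h.t 1 5 6 7 2 5 1 3 0 4 (by decide +kernel)
def w1499 : PV o1499 := fun P h => h.t 1 5 6 7 4 5 0 1 2 3 (by decide +kernel)
def w1500 : PV o1500 := fun P h => h.x 1 5 6 15 (by decide +kernel)
def w1501 : PV o1501 := fun P h => h.x 1 5 6 13 (by decide +kernel)
def w1502 : PV o1502 := fun P h => h.x 1 5 6 5 (by decide +kernel)
def w1503 : PV o1503 := fun P h => h.x 1 5 6 4 (by decide +kernel)
def w1504 : PV o1504 := fun P h => h.t 1 5 7 6 0 2 1 4 3 5 (by decide +kernel)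
def w1505 : PV o1505 := fun P h => h.t 1 5 7 6 0 2 3 4 1 5 (by decide +kernel)
def w1506 : PV o1506 := fun P h => h.t 1 5 7 6 0 3 2 4 1 5 (by decide +kernel)
def w1507 : PV o1507 := fun P h => h.t 1 5 7 6 0 4 1 2 3 5 (by decide +kernel)
def w1508 : PV o1508 := fun P h => h.t 1 5 7 6 0 5 1 3 2 4 (by decide +kernel)
def w1509 : PV o1509 := fun P h => h.t 1 5 7 6 1 2 0 4 3 5 (by decide +kernel)
def w1510 : PV o1510 := fun P h => h.t 1 5 7 6 1 3 0 4 2 5 (by decide +kernel)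
def w1511 : PV o1511 := fun P h => h.t 1 5 7 6 1 4 0 2 3 5 (by decide +kernel)
def w1512 : PV o1512 := fun P h => h.t 1 5 7 6 1 5 0 4 2 3 (by decide +kernel)
def w1513 : PV o1513 := fun P h => h.t 1 5 7 6 1 5 2 3 0 4 (by decide +kernel)
def w1514 : PV o1514 := fun P h => h.t 1 5 7 6 2 3 4 5 0 1 (by decide +kernel)
def w1515 : PV o1515 := fun P h => h.t 1 5 7 6 2 4 0 1 3 5 (by decide +kernel)
def w1516 : PV o1516 := fun P h => h.t 1 5 7 6 2 5 0 1 3 4 (by decide +kernel)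
def w1517 : PV o1517 := fun P h => h.t 1 5 7 6 2 5 3 4 0 1 (by decide +kernel)
def w1518 : PV o1518 := fun P h => h.t 1 5 7 6 3 4 0 1 2 5 (by decide +kernel)
def w1519 : PV o1519 := fun P h => h.t 1 5 7 6 3 4 1 5 0 2 (by decide +kernel)
def w1520 : PV o1520 := fun P h => h.t 1 5 7 6 3 4 2 5 0 1 (by decide +kernel)
def w1521 : PV o1521 := fun P h => h.t 1 5 7 6 3 5 1 2 0 4 (by decide +kernel)
def w1522 : PV o1522 := fun P h => h.t 1 5 7 6 3 5 1 4 0 2 (by decide +kernel)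
def w1523 : PV o1523 := fun P h => h.t 1 5 7 6 4 5 0 1 2 3 (by decide +kernel)
def w1524 : PV o1524 := fun P h => h.t 1 5 7 6 4 5 1 2 0 3 (by decide +kernel)
def w1525 : PV o1525 := fun P h => h.t 1 5 7 6 4 5 1 3 0 2 (by decide +kernel)
def w1526 : PV o1526 := fun P h => h.t 1 5 7 7 1 5 2 3 0 4 (by decide +kernel)
def w1527 : PV o1527 := fun P h => h.x 1 5 7 5 (by decide +kernel)
def w1528 : PV o1528 := fun P h => h.x 1 6 0 15 (by decide +kernel)
def w1529 : PV o1529 := fun P h => h.x 1 6 0 13 (by decide +kernel)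
def w1530 : PV o1530 := fun P h => h.x 1 6 0 5 (by decide +kernel)
def w1531 : PV o1531 := fun P h => h.x 1 6 1 15 (by decide +kernel)
def w1532 : PV o1532 := fun P h => h.x 1 6 2 15 (by decide +kernel)
def w1533 : PV o1533 := fun P h => h.x 1 6 3 15 (by decide +kernel)
def w1534 : PV o1534 := fun P h => h.x 1 6 5 15 (by decide +kernel)
def w1535 : PV o1535 := fun P h => h.x 1 6 5 13 (by decide +kernel)
def w1536 : PV o1536 := fun P h => h.x 1 6 5 12 (by decide +kernel)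
def w1537 : PV o1537 := fun P h => h.x 1 6 5 5 (by decide +kernel)
def w1538 : PV o1538 := fun P h => h.x 1 6 5 4 (by decide +kernel)
def w1539 : PV o1539 := fun P h => h.x 1 6 5 0 (by decide +kernel)
def w1540 : PV o1540 := fun P h => h.t 1 6 6 6 0 2 1 4 3 5 (by decide +kernel)
def w1541 : PV o1541 := fun P h => h.t 1 6 6 6 0 2 3 5 1 4 (by decide +kernel)
def w1542 : PV o1542 := fun P h => h.t 1 6 6 7 0 1 2 4 3 5 (by decide +kernel)
def w1543 : PV o1543 := fun P h => h.t 1 6 6 7 0 1 2 5 3 4 (by decide +kernel)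
def w1544 : PV o1544 := fun P h => h.t 1 6 6 7 0 1 3 4 2 5 (by decide +kernel)
def w1545 : PV o1545 := fun P h => h.t 1 6 6 7 0 2 3 4 1 5 (by decide +kernel)
def w1546 : PV o1546 := fun P h => h.t 1 6 6 7 0 2 4 5 1 3 (by decide +kernel)
def w1547 : PV o1547 := fun P h => h.t 1 6 6 7 0 3 1 5 2 4 (by decide +kernel)
def w1548 : PV o1548 := fun P h => h.t 1 6 6 7 0 3 4 5 1 2 (by decide +kernel)
def w1549 : PV o1549 := fun P h => h.t 1 6 6 7 0 4 2 3 1 5 (by decide +kernel)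
def w1550 : PV o1550 := fun P h => h.t 1 6 6 7 0 4 2 5 1 3 (by decide +kernel)
def w1551 : PV o1551 := fun P h => h.t 1 6 6 7 0 5 1 2 3 4 (by decide +kernel)
def w1552 : PV o1552 := fun P h => h.t 1 6 6 7 0 5 2 4 1 3 (by decide +kernel)
def w1553 : PV o1553 := fun P h => h.t 1 6 6 7 0 5 3 4 1 2 (by decide +kernel)
def w1554 : PV o1554 := fun P h => h.t 1 6 6 7 1 2 0 4 3 5 (by decide +kernel)
def w1555 : PV o1555 := fun P h => h.t 1 6 6 7 1 2 4 5 0 3 (by decide +kernel)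
def w1556 : PV o1556 := fun P h => h.t 1 6 6 7 1 3 0 5 2 4 (by decide +kernel)
def w1557 : PV o1557 := fun P h => h.t 1 6 6 7 1 4 3 5 0 2 (by decide +kernel)
def w1558 : PV o1558 := fun P h => h.t 1 6 6 7 1 5 0 3 2 4 (by decide +kernel)
def w1559 : PV o1559 := fun P h => h.t 1 6 6 7 1 5 2 3 0 4 (by decide +kernel)
def w1560 : PV o1560 := fun P h => h.t 1 6 6 7 2 3 0 4 1 5 (by decide +kernel)
def w1561 : PV o1561 := fun P h => h.t 1 6 6 7 2 3 1 5 0 4 (by decide +kernel)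
def w1562 : PV o1562 := fun P h => h.t 1 6 6 7 2 4 0 5 1 3 (by decide +kernel)
def w1563 : PV o1563 := fun P h => h.t 1 6 6 7 2 5 0 4 1 3 (by decide +kernel)
def w1564 : PV o1564 := fun P h => h.t 1 6 6 7 3 4 0 2 1 5 (by decide +kernel)
def w1565 : PV o1565 := fun P h => h.t 1 6 6 7 3 4 0 5 1 2 (by decide +kernel)
def w1566 : PV o1566 := fun P h => h.t 1 6 6 7 3 4 1 5 0 2 (by decide +kernel)
def w1567 : PV o1567 := fun P h => h.t 1 6 6 7 4 5 1 3 0 2 (by decide +kernel)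
def w1568 : PV o1568 := fun P h => h.t 1 6 7 7 0 2 1 3 4 5 (by decide +kernel)
def w1569 : PV o1569 := fun P h => h.t 1 6 7 7 0 2 3 4 1 5 (by decide +kernel)
def w1570 : PV o1570 := fun P h => h.t 1 6 7 7 0 2 4 5 1 3 (by decide +kernel)
def w1571 : PV o1571 := fun P h => h.t 1 6 7 7 0 3 1 2 4 5 (by decide +kernel)
def w1572 : PV o1572 := fun P h => h.t 1 6 7 7 0 4 1 5 2 3 (by decide +kernel)
def w1573 : PV o1573 := fun P h => h.t 1 6 7 7 0 4 3 5 1 2 (by decide +kernel)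
def w1574 : PV o1574 := fun P h => h.t 1 6 7 7 1 2 0 3 4 5 (by decide +kernel)
def w1575 : PV o1575 := fun P h => h.t 1 6 7 7 1 2 3 4 0 5 (by decide +kernel)
def w1576 : PV o1576 := fun P h => h.t 1 6 7 7 1 3 0 2 4 5 (by decide +kernel)
def w1577 : PV o1577 := fun P h => h.t 1 6 7 7 1 3 0 4 2 5 (by decide +kernel)
def w1578 : PV o1578 := fun P h => h.t 1 6 7 7 1 3 0 5 2 4 (by decide +kernel)
def w1579 : PV o1579 := fun P h => h.t 1 6 7 7 1 4 0 5 2 3 (by decide +kernel)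
def w1580 : PV o1580 := fun P h => h.t 1 6 7 7 1 5 0 2 3 4 (by decide +kernel)
def w1581 : PV o1581 := fun P h => h.t 1 6 7 7 1 5 0 4 2 3 (by decide +kernel)
def w1582 : PV o1582 := fun P h => h.t 1 6 7 7 1 5 2 3 0 4 (by decide +kernel)
def w1583 : PV o1583 := fun P h => h.t 1 6 7 7 2 3 0 1 4 5 (by decide +kernel)
def w1584 : PV o1584 := fun P h => h.t 1 6 7 7 2 4 0 1 3 5 (by decide +kernel)
def w1585 : PV o1585 := fun P h => h.t 1 6 7 7 2 4 0 3 1 5 (by decide +kernel)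
def w1586 : PV o1586 := fun P h => h.t 1 6 7 7 2 4 0 5 1 3 (by decide +kernel)
def w1587 : PV o1587 := fun P h => h.t 1 6 7 7 2 5 0 1 3 4 (by decide +kernel)
def w1588 : PV o1588 := fun P h => h.t 1 6 7 7 3 4 0 1 2 5 (by decide +kernel)
def w1589 : PV o1589 := fun P h => h.t 1 6 7 7 3 4 0 5 1 2 (by decide +kernel)
def w1590 : PV o1590 := fun P h => h.t 1 6 7 7 3 5 0 4 1 2 (by decide +kernel)
def w1591 : PV o1591 := fun P h => h.t 1 6 7 7 3 5 2 4 0 1 (by decide +kernel)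
def w1592 : PV o1592 := fun P h => h.x 1 6 7 13 (by decide +kernel)
def w1593 : PV o1593 := fun P h => h.x 1 6 7 5 (by decide +kernel)
def w1594 : PV o1594 := fun P h => h.x 1 7 0 15 (by decide +kernel)
def w1595 : PV o1595 := fun P h => h.x 1 7 0 13 (by decide +kernel)
def w1596 : PV o1596 := fun P h => h.x 1 7 0 5 (by decide +kernel)
def w1597 : PV o1597 := fun P h => h.x 1 7 0 0 (by decide +kernel)
def w1598 : PV o1598 := fun P h => h.x 1 7 1 15 (by decide +kernel)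
def w1599 : PV o1599 := fun P h => h.x 1 7 3 15 (by decide +kernel)
def w1600 : PV o1600 := fun P h => h.x 1 7 4 15 (by decide +kernel)
def w1601 : PV o1601 := fun P h => h.x 1 7 5 15 (by decide +kernel)
def w1602 : PV o1602 := fun P h => h.x 1 7 5 13 (by decide +kernel)
def w1603 : PV o1603 := fun P h => h.x 1 7 5 5 (by decide +kernel)
def w1604 : PV o1604 := fun P h => h.x 1 7 5 4 (by decide +kernel)
def w1605 : PV o1605 := fun P h => h.x 1 7 5 0 (by decide +kernel)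
def w1606 : PV o1606 := fun P h => h.x 1 7 6 15 (by decide +kernel)
def w1607 : PV o1607 := fun P h => h.x 1 7 6 5 (by decide +kernel)
def w1608 : PV o1608 := fun P h => h.t 1 7 7 7 0 2 3 5 1 4 (by decide +kernel)
def w1609 : PV o1609 := fun P h => h.t 2 0 0 1 0 4 1 2 3 5 (by decide +kernel)
def w1610 : PV o1610 := fun P h => h.t 2 0 0 1 3 4 0 1 2 5 (by decide +kernel)
def w1611 : PV o1611 := fun P h => h.t 2 0 0 2 2 3 0 4 1 5 (by decide +kernel)
def w1612 : PV o1612 := fun P h => h.t 2 0 0 2 3 4 1 5 0 2 (by decide +kernel)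
def w1613 : PV o1613 := fun P h => h.t 2 0 0 3 0 5 2 3 1 4 (by decide +kernel)
def w1614 : PV o1614 := fun P h => h.t 2 0 0 6 0 3 4 5 1 2 (by decide +kernel)
def w1615 : PV o1615 := fun P h => h.t 2 0 0 7 3 4 0 5 1 2 (by decide +kernel)
def w1616 : PV o1616 := fun P h => h.t 2 0 0 7 3 4 1 5 0 2 (by decide +kernel)
def w1617 : PV o1617 := fun P h => h.t 2 0 1 1 0 2 1 3 4 5 (by decide +kernel)
def w1618 : PV o1618 := fun P h => h.t 2 0 1 1 0 3 1 2 4 5 (by decide +kernel)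
def w1619 : PV o1619 := fun P h => h.t 2 0 1 1 0 4 1 2 3 5 (by decide +kernel)
def w1620 : PV o1620 := fun P h => h.t 2 0 1 1 0 4 1 5 2 3 (by decide +kernel)
def w1621 : PV o1621 := fun P h => h.t 2 0 1 1 1 3 0 4 2 5 (by decide +kernel)
def w1622 : PV o1622 := fun P h => h.t 2 0 1 1 1 4 0 2 3 5 (by decide +kernel)
def w1623 : PV o1623 := fun P h => h.t 2 0 1 1 1 5 0 2 3 4 (by decide +kernel)
def w1624 : PV o1624 := fun P h => h.t 2 0 1 1 2 4 0 3 1 5 (by decide +kernel)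
def w1625 : PV o1625 := fun P h => h.t 2 0 1 1 2 4 0 5 1 3 (by decide +kernel)
def w1626 : PV o1626 := fun P h => h.t 2 0 1 1 3 4 0 1 2 5 (by decide +kernel)
def w1627 : PV o1627 := fun P h => h.t 2 0 1 1 3 4 0 5 1 2 (by decide +kernel)
def w1628 : PV o1628 := fun P h => h.t 2 0 1 2 0 1 2 3 4 5 (by decide +kernel)
def w1629 : PV o1629 := fun P h => h.t 2 0 1 2 2 3 4 5 0 1 (by decide +kernel)
def w1630 : PV o1630 := fun P h => h.t 2 0 1 3 0 1 3 5 2 4 (by decide +kernel)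
def w1631 : PV o1631 := fun P h => h.t 2 0 1 3 0 2 3 5 1 4 (by decide +kernel)
def w1632 : PV o1632 := fun P h => h.t 2 0 1 3 0 4 2 5 1 3 (by decide +kernel)
def w1633 : PV o1633 := fun P h => h.t 2 0 1 3 1 2 3 5 0 4 (by decide +kernel)
def w1634 : PV o1634 := fun P h => h.t 2 0 1 3 1 3 2 4 0 5 (by decide +kernel)
def w1635 : PV o1635 := fun P h => h.t 2 0 1 3 1 4 2 5 0 3 (by decide +kernel)
def w1636 : PV o1636 := fun P h => h.t 2 0 1 3 2 3 1 4 0 5 (by decide +kernel)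
def w1637 : PV o1637 := fun P h => h.t 2 0 1 3 2 4 0 5 1 3 (by decide +kernel)
def w1638 : PV o1638 := fun P h => h.t 2 0 1 3 3 4 1 5 0 2 (by decide +kernel)
def w1639 : PV o1639 := fun P h => h.t 2 0 1 4 0 1 2 3 4 5 (by decide +kernel)
def w1640 : PV o1640 := fun P h => h.t 2 0 1 5 0 1 2 3 4 5 (by decide +kernel)
def w1641 : PV o1641 := fun P h => h.t 2 0 1 5 2 3 4 5 0 1 (by decide +kernel)
def w1642 : PV o1642 := fun P h => h.t 2 0 1 6 0 1 2 3 4 5 (by decide +kernel)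
def w1643 : PV o1643 := fun P h => h.t 2 0 1 6 2 3 4 5 0 1 (by decide +kernel)
def w1644 : PV o1644 := fun P h => h.t 2 0 1 7 0 1 2 3 4 5 (by decide +kernel)
def w1645 : PV o1645 := fun P h => h.t 2 0 1 7 2 3 4 5 0 1 (by decide +kernel)
def w1646 : PV o1646 := fun P h => h.t 2 0 1 7 3 4 0 5 1 2 (by decide +kernel)
def w1647 : PV o1647 := fun P h => h.x 2 0 1 15 (by decide +kernel)
def w1648 : PV o1648 := fun P h => h.t 2 0 2 1 0 1 2 3 4 5 (by decide +kernel)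
def w1649 : PV o1649 := fun P h => h.t 2 0 2 1 0 2 1 3 4 5 (by decide +kernel)
def w1650 : PV o1650 := fun P h => h.t 2 0 2 1 0 3 1 2 4 5 (by decide +kernel)
def w1651 : PV o1651 := fun P h => h.t 2 0 2 1 0 3 1 4 2 5 (by decide +kernel)
def w1652 : PV o1652 := fun P h => h.t 2 0 2 1 0 3 2 4 1 5 (by decide +kernel)
def w1653 : PV o1653 := fun P h => h.t 2 0 2 1 0 4 1 2 3 5 (by decide +kernel)
def w1654 : PV o1654 := fun P h => h.t 2 0 2 1 1 2 3 4 0 5 (by decide +kernel)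
def w1655 : PV o1655 := fun P h => h.t 2 0 2 1 1 3 0 2 4 5 (by decide +kernel)
def w1656 : PV o1656 := fun P h => h.t 2 0 2 1 1 4 0 2 3 5 (by decide +kernel)
def w1657 : PV o1657 := fun P h => h.t 2 0 2 1 3 4 0 1 2 5 (by decide +kernel)
def w1658 : PV o1658 := fun P h => h.t 2 0 2 2 1 2 3 4 0 5 (by decide +kernel)
def w1659 : PV o1659 := fun P h => h.t 2 0 2 2 2 5 0 1 3 4 (by decide +kernel)
def w1660 : PV o1660 := fun P h => h.t 2 0 2 6 0 2 4 5 1 3 (by decide +kernel)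
def w1661 : PV o1661 := fun P h => h.t 2 0 2 7 0 2 1 3 4 5 (by decide +kernel)
def w1662 : PV o1662 := fun P h => h.t 2 0 2 7 0 4 1 5 2 3 (by decide +kernel)
def w1663 : PV o1663 := fun P h => h.t 2 0 2 7 1 2 0 3 4 5 (by decide +kernel)
def w1664 : PV o1664 := fun P h => h.t 2 0 2 7 1 3 0 2 4 5 (by decide +kernel)
def w1665 : PV o1665 := fun P h => h.t 2 0 2 7 1 4 2 5 0 3 (by decide +kernel)
def w1666 : PV o1666 := fun P h => h.t 2 0 2 7 1 5 0 2 3 4 (by decide +kernel)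
def w1667 : PV o1667 := fun P h => h.t 2 0 2 7 2 4 3 5 0 1 (by decide +kernel)
def w1668 : PV o1668 := fun P h => h.t 2 0 2 7 3 5 1 2 0 4 (by decide +kernel)
def w1669 : PV o1669 := fun P h => h.t 2 0 2 7 4 5 1 3 0 2 (by decide +kernel)
def w1670 : PV o1670 := fun P h => h.t 2 0 2 7 4 5 2 3 0 1 (by decide +kernel)
def w1671 : PV o1671 := fun P h => h.x 2 0 2 4 (by decide +kernel)
def w1672 : PV o1672 := fun P h => h.t 2 0 3 1 0 1 2 3 4 5 (by decide +kernel)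
def w1673 : PV o1673 := fun P h => h.t 2 0 3 1 0 2 1 3 4 5 (by decide +kernel)
def w1674 : PV o1674 := fun P h => h.t 2 0 3 1 0 4 1 2 3 5 (by decide +kernel)
def w1675 : PV o1675 := fun P h => h.t 2 0 3 1 1 2 0 3 4 5 (by decide +kernel)
def w1676 : PV o1676 := fun P h => h.t 2 0 3 1 1 4 0 2 3 5 (by decide +kernel)
def w1677 : PV o1677 := fun P h => h.t 2 0 3 1 3 4 0 1 2 5 (by decide +kernel)
def w1678 : PV o1678 := fun P h => h.t 2 0 3 2 1 3 0 4 2 5 (by decide +kernel)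
def w1679 : PV o1679 := fun P h => h.t 2 0 3 2 1 3 0 5 2 4 (by decide +kernel)
def w1680 : PV o1680 := fun P h => h.t 2 0 3 2 2 3 0 4 1 5 (by decide +kernel)
def w1681 : PV o1681 := fun P h => h.t 2 0 3 2 2 3 0 5 1 4 (by decide +kernel)
def w1682 : PV o1682 := fun P h => h.t 2 0 3 4 1 2 0 5 3 4 (by decide +kernel)
def w1683 : PV o1683 := fun P h => h.t 2 0 3 4 1 3 0 2 4 5 (by decide +kernel)
def w1684 : PV o1684 := fun P h => h.t 2 0 3 4 1 3 0 5 2 4 (by decide +kernel)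
def w1685 : PV o1685 := fun P h => h.t 2 0 3 5 1 2 0 3 4 5 (by decide +kernel)
def w1686 : PV o1686 := fun P h => h.t 2 0 3 5 1 3 0 2 4 5 (by decide +kernel)
def w1687 : PV o1687 := fun P h => h.t 2 0 3 6 1 2 0 4 3 5 (by decide +kernel)
def w1688 : PV o1688 := fun P h => h.t 2 0 3 6 1 2 0 5 3 4 (by decide +kernel)
def w1689 : PV o1689 := fun P h => h.t 2 0 3 6 1 3 0 2 4 5 (by decide +kernel)
def w1690 : PV o1690 := fun P h => h.t 2 0 3 6 1 3 0 4 2 5 (by decide +kernel)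
def w1691 : PV o1691 := fun P h => h.t 2 0 3 6 1 3 0 5 2 4 (by decide +kernel)
def w1692 : PV o1692 := fun P h => h.t 2 0 3 6 1 4 0 3 2 5 (by decide +kernel)
def w1693 : PV o1693 := fun P h => h.t 2 0 3 6 1 4 0 5 2 3 (by decide +kernel)
def w1694 : PV o1694 := fun P h => h.t 2 0 3 6 1 5 0 3 2 4 (by decide +kernel)
def w1695 : PV o1695 := fun P h => h.t 2 0 3 6 1 5 0 4 2 3 (by decide +kernel)
def w1696 : PV o1696 := fun P h => h.t 2 0 3 6 2 3 0 1 4 5 (by decide +kernel)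
def w1697 : PV o1697 := fun P h => h.t 2 0 3 6 2 3 0 5 1 4 (by decide +kernel)
def w1698 : PV o1698 := fun P h => h.t 2 0 3 6 2 4 0 1 3 5 (by decide +kernel)
def w1699 : PV o1699 := fun P h => h.t 2 0 3 6 2 4 0 3 1 5 (by decide +kernel)
def w1700 : PV o1700 := fun P h => h.t 2 0 3 6 2 4 0 5 1 3 (by decide +kernel)
def w1701 : PV o1701 := fun P h => h.t 2 0 3 6 2 5 0 1 3 4 (by decide +kernel)
def w1702 : PV o1702 := fun P h => h.t 2 0 3 6 2 5 0 4 1 3 (by decide +kernel)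
def w1703 : PV o1703 := fun P h => h.t 2 0 3 6 3 4 0 2 1 5 (by decide +kernel)
def w1704 : PV o1704 := fun P h => h.t 2 0 3 6 3 4 2 5 0 1 (by decide +kernel)
def w1705 : PV o1705 := fun P h => h.t 2 0 3 6 3 5 2 4 0 1 (by decide +kernel)
def w1706 : PV o1706 := fun P h => h.t 2 0 3 6 4 5 0 2 1 3 (by decide +kernel)
def w1707 : PV o1707 := fun P h => h.t 2 0 3 6 4 5 2 3 0 1 (by decide +kernel)
def w1708 : PV o1708 := fun P h => h.t 2 0 3 7 1 2 0 4 3 5 (by decide +kernel)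
def w1709 : PV o1709 := fun P h => h.t 2 0 3 7 1 3 0 2 4 5 (by decide +kernel)
def w1710 : PV o1710 := fun P h => h.t 2 0 3 7 1 3 0 4 2 5 (by decide +kernel)
def w1711 : PV o1711 := fun P h => h.t 2 0 3 7 1 4 0 3 2 5 (by decide +kernel)
def w1712 : PV o1712 := fun P h => h.t 2 0 3 7 1 5 0 2 3 4 (by decide +kernel)
def w1713 : PV o1713 := fun P h => h.t 2 0 3 7 1 5 0 3 2 4 (by decide +kernel)
def w1714 : PV o1714 := fun P h => h.t 2 0 3 7 2 3 0 4 1 5 (by decide +kernel)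
def w1715 : PV o1715 := fun P h => h.t 2 0 3 7 2 4 0 1 3 5 (by decide +kernel)
def w1716 : PV o1716 := fun P h => h.t 2 0 3 7 2 5 0 3 1 4 (by decide +kernel)
def w1717 : PV o1717 := fun P h => h.x 2 0 3 5 (by decide +kernel)
def w1718 : PV o1718 := fun P h => h.x 2 0 3 4 (by decide +kernel)
def w1719 : PV o1719 := fun P h => h.x 2 0 3 0 (by decide +kernel)
def w1720 : PV o1720 := fun P h => h.t 2 0 4 1 0 2 3 4 1 5 (by decide +kernel)
def w1721 : PV o1721 := fun P h => h.t 2 0 4 1 0 3 1 4 2 5 (by decide +kernel)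
def w1722 : PV o1722 := fun P h => h.t 2 0 5 1 0 4 2 3 1 5 (by decide +kernel)
def w1723 : PV o1723 := fun P h => h.t 2 0 5 1 3 4 1 2 0 5 (by decide +kernel)
def w1724 : PV o1724 := fun P h => h.t 2 0 6 1 0 1 2 3 4 5 (by decide +kernel)
def w1725 : PV o1725 := fun P h => h.t 2 0 6 1 1 2 0 3 4 5 (by decide +kernel)
def w1726 : PV o1726 := fun P h => h.t 2 0 6 1 2 4 0 1 3 5 (by decide +kernel)
def w1727 : PV o1727 := fun P h => h.t 2 0 6 1 3 4 0 1 2 5 (by decide +kernel)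
def w1728 : PV o1728 := fun P h => h.t 2 0 6 5 0 1 3 5 2 4 (by decide +kernel)
def w1729 : PV o1729 := fun P h => h.t 2 0 6 5 0 4 2 5 1 3 (by decide +kernel)
def w1730 : PV o1730 := fun P h => h.t 2 0 6 6 1 3 0 2 4 5 (by decide +kernel)
def w1731 : PV o1731 := fun P h => h.t 2 0 6 6 1 4 0 5 2 3 (by decide +kernel)
def w1732 : PV o1732 := fun P h => h.t 2 0 6 6 2 5 0 1 3 4 (by decide +kernel)
def w1733 : PV o1733 := fun P h => h.t 2 0 6 6 3 4 0 1 2 5 (by decide +kernel)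
def w1734 : PV o1734 := fun P h => h.t 2 0 6 6 3 5 0 1 2 4 (by decide +kernel)
def w1735 : PV o1735 := fun P h => h.t 2 0 6 7 0 2 3 4 1 5 (by decide +kernel)
def w1736 : PV o1736 := fun P h => h.x 2 0 6 15 (by decide +kernel)
def w1737 : PV o1737 := fun P h => h.x 2 0 6 4 (by decide +kernel)
def w1738 : PV o1738 := fun P h => h.t 2 0 7 1 0 1 2 3 4 5 (by decide +kernel)
def w1739 : PV o1739 := fun P h => h.t 2 0 7 1 0 2 3 4 1 5 (by decide +kernel)
def w1740 : PV o1740 := fun P h => h.t 2 0 7 1 0 3 1 4 2 5 (by decide +kernel)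
def w1741 : PV o1741 := fun P h => h.t 2 0 7 1 0 3 2 4 1 5 (by decide +kernel)
def w1742 : PV o1742 := fun P h => h.t 2 0 7 1 0 4 1 2 3 5 (by decide +kernel)
def w1743 : PV o1743 := fun P h => h.t 2 0 7 1 1 2 3 4 0 5 (by decide +kernel)
def w1744 : PV o1744 := fun P h => h.t 2 0 7 1 1 3 0 4 2 5 (by decide +kernel)
def w1745 : PV o1745 := fun P h => h.t 2 0 7 1 1 4 0 2 3 5 (by decide +kernel)
def w1746 : PV o1746 := fun P h => h.t 2 0 7 1 2 3 1 4 0 5 (by decide +kernel)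
def w1747 : PV o1747 := fun P h => h.t 2 0 7 1 2 4 0 1 3 5 (by decide +kernel)
def w1748 : PV o1748 := fun P h => h.t 2 0 7 1 3 4 0 1 2 5 (by decide +kernel)
def w1749 : PV o1749 := fun P h => h.t 2 0 7 2 0 2 3 4 1 5 (by decide +kernel)
def w1750 : PV o1750 := fun P h => h.t 2 0 7 2 0 3 2 4 1 5 (by decide +kernel)
def w1751 : PV o1751 := fun P h => h.t 2 0 7 2 1 2 3 4 0 5 (by decide +kernel)
def w1752 : PV o1752 := fun P h => h.t 2 0 7 2 1 3 0 5 2 4 (by decide +kernel)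
def w1753 : PV o1753 := fun P h => h.t 2 0 7 2 2 5 0 1 3 4 (by decide +kernel)
def w1754 : PV o1754 := fun P h => h.t 2 0 7 2 3 5 0 2 1 4 (by decide +kernel)
def w1755 : PV o1755 := fun P h => h.t 2 0 7 4 0 2 4 5 1 3 (by decide +kernel)
def w1756 : PV o1756 := fun P h => h.t 2 0 7 4 1 2 4 5 0 3 (by decide +kernel)
def w1757 : PV o1757 := fun P h => h.t 2 0 7 6 0 2 3 4 1 5 (by decide +kernel)
def w1758 : PV o1758 := fun P h => h.t 2 0 7 6 0 3 4 5 1 2 (by decide +kernel)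
def w1759 : PV o1759 := fun P h => h.t 2 0 7 6 1 3 4 5 0 2 (by decide +kernel)
def w1760 : PV o1760 := fun P h => h.t 2 0 7 7 0 2 3 4 1 5 (by decide +kernel)
def w1761 : PV o1761 := fun P h => h.t 2 0 7 7 0 3 1 2 4 5 (by decide +kernel)
def w1762 : PV o1762 := fun P h => h.t 2 0 7 7 1 2 0 3 4 5 (by decide +kernel)
def w1763 : PV o1763 := fun P h => h.t 2 0 7 7 2 4 0 1 3 5 (by decide +kernel)
def w1764 : PV o1764 := fun P h => h.x 2 0 7 15 (by decide +kernel)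
def w1765 : PV o1765 := fun P h => h.x 2 0 7 5 (by decide +kernel)
def w1766 : PV o1766 := fun P h => h.x 2 0 7 0 (by decide +kernel)
def w1767 : PV o1767 := fun P h => h.x 2 1 0 15 (by decide +kernel)
def w1768 : PV o1768 := fun P h => h.x 2 1 0 5 (by decide +kernel)
def w1769 : PV o1769 := fun P h => h.t 2 1 1 2 0 1 2 5 3 4 (by decide +kernel)
def w1770 : PV o1770 := fun P h => h.t 2 1 1 2 0 4 1 2 3 5 (by decide +kernel)
def w1771 : PV o1771 := fun P h => h.t 2 1 1 2 0 5 1 2 3 4 (by decide +kernel)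
def w1772 : PV o1772 := fun P h => h.t 2 1 1 2 1 2 3 5 0 4 (by decide +kernel)
def w1773 : PV o1773 := fun P h => h.t 2 1 1 2 1 5 2 3 0 4 (by decide +kernel)
def w1774 : PV o1774 := fun P h => h.t 2 1 1 3 3 4 1 5 0 2 (by decide +kernel)
def w1775 : PV o1775 := fun P h => h.t 2 1 1 3 3 5 1 4 0 2 (by decide +kernel)
def w1776 : PV o1776 := fun P h => h.t 2 1 1 3 4 5 1 3 0 2 (by decide +kernel)
def w1777 : PV o1777 := fun P h => h.t 2 1 1 4 0 1 2 5 3 4 (by decide +kernel)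
def w1778 : PV o1778 := fun P h => h.t 2 1 1 4 0 2 3 4 1 5 (by decide +kernel)
def w1779 : PV o1779 := fun P h => h.t 2 1 1 4 0 4 1 2 3 5 (by decide +kernel)
def w1780 : PV o1780 := fun P h => h.t 2 1 1 4 0 5 1 2 3 4 (by decide +kernel)
def w1781 : PV o1781 := fun P h => h.t 2 1 1 4 1 2 3 5 0 4 (by decide +kernel)
def w1782 : PV o1782 := fun P h => h.t 2 1 1 4 1 5 2 3 0 4 (by decide +kernel)
def w1783 : PV o1783 := fun P h => h.t 2 1 1 5 0 1 2 4 3 5 (by decide +kernel)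
def w1784 : PV o1784 := fun P h => h.t 2 1 1 5 0 1 2 5 3 4 (by decide +kernel)
def w1785 : PV o1785 := fun P h => h.t 2 1 1 5 0 4 1 2 3 5 (by decide +kernel)
def w1786 : PV o1786 := fun P h => h.t 2 1 1 5 0 5 1 2 3 4 (by decide +kernel)
def w1787 : PV o1787 := fun P h => h.t 2 1 1 5 1 2 3 5 0 4 (by decide +kernel)
def w1788 : PV o1788 := fun P h => h.t 2 1 1 5 1 5 2 3 0 4 (by decide +kernel)
def w1789 : PV o1789 := fun P h => h.t 2 1 1 6 0 1 2 4 3 5 (by decide +kernel)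
def w1790 : PV o1790 := fun P h => h.t 2 1 1 6 0 1 2 5 3 4 (by decide +kernel)
def w1791 : PV o1791 := fun P h => h.t 2 1 1 6 0 4 1 2 3 5 (by decide +kernel)
def w1792 : PV o1792 := fun P h => h.t 2 1 1 6 0 5 1 2 3 4 (by decide +kernel)
def w1793 : PV o1793 := fun P h => h.t 2 1 1 6 1 2 3 5 0 4 (by decide +kernel)
def w1794 : PV o1794 := fun P h => h.t 2 1 1 6 1 5 2 3 0 4 (by decide +kernel)
def w1795 : PV o1795 := fun P h => h.t 2 1 1 7 0 1 2 4 3 5 (by decide +kernel)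
def w1796 : PV o1796 := fun P h => h.t 2 1 1 7 0 1 2 5 3 4 (by decide +kernel)
def w1797 : PV o1797 := fun P h => h.t 2 1 1 7 0 1 3 5 2 4 (by decide +kernel)
def w1798 : PV o1798 := fun P h => h.t 2 1 1 7 0 2 3 5 1 4 (by decide +kernel)
def w1799 : PV o1799 := fun P h => h.t 2 1 1 7 0 2 4 5 1 3 (by decide +kernel)
def w1800 : PV o1800 := fun P h => h.t 2 1 1 7 0 3 1 5 2 4 (by decide +kernel)
def w1801 : PV o1801 := fun P h => h.t 2 1 1 7 0 3 4 5 1 2 (by decide +kernel)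
def w1802 : PV o1802 := fun P h => h.t 2 1 1 7 0 4 1 2 3 5 (by decide +kernel)
def w1803 : PV o1803 := fun P h => h.t 2 1 1 7 0 5 1 2 3 4 (by decide +kernel)
def w1804 : PV o1804 := fun P h => h.t 2 1 1 7 0 5 1 3 2 4 (by decide +kernel)
def w1805 : PV o1805 := fun P h => h.t 2 1 1 7 1 2 3 5 0 4 (by decide +kernel)
def w1806 : PV o1806 := fun P h => h.t 2 1 1 7 1 5 2 3 0 4 (by decide +kernel)
def w1807 : PV o1807 := fun P h => h.t 2 1 2 2 2 3 4 5 0 1 (by decide +kernel)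
def w1808 : PV o1808 := fun P h => h.t 2 1 2 2 3 4 0 5 1 2 (by decide +kernel)
def w1809 : PV o1809 := fun P h => h.t 2 1 2 3 2 3 4 5 0 1 (by decide +kernel)
def w1810 : PV o1810 := fun P h => h.t 2 1 2 3 3 4 0 5 1 2 (by decide +kernel)
def w1811 : PV o1811 := fun P h => h.t 2 1 2 3 3 4 1 5 0 2 (by decide +kernel)
def w1812 : PV o1812 := fun P h => h.t 2 1 2 3 4 5 0 1 2 3 (by decide +kernel)
def w1813 : PV o1813 := fun P h => h.t 2 1 2 3 4 5 0 2 1 3 (by decide +kernel)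
def w1814 : PV o1814 := fun P h => h.t 2 1 2 3 4 5 1 2 0 3 (by decide +kernel)
def w1815 : PV o1815 := fun P h => h.t 2 1 2 7 2 3 4 5 0 1 (by decide +kernel)
def w1816 : PV o1816 := fun P h => h.t 2 1 2 7 4 5 0 1 2 3 (by decide +kernel)
def w1817 : PV o1817 := fun P h => h.x 2 1 2 15 (by decide +kernel)
def w1818 : PV o1818 := fun P h => h.t 2 1 3 2 0 1 2 3 4 5 (by decide +kernel)
def w1819 : PV o1819 := fun P h => h.t 2 1 3 2 1 2 0 4 3 5 (by decide +kernel)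
def w1820 : PV o1820 := fun P h => h.t 2 1 3 2 1 2 0 5 3 4 (by decide +kernel)
def w1821 : PV o1821 := fun P h => h.t 2 1 3 2 1 2 3 4 0 5 (by decide +kernel)
def w1822 : PV o1822 := fun P h => h.t 2 1 3 2 2 3 0 4 1 5 (by decide +kernel)
def w1823 : PV o1823 := fun P h => h.t 2 1 3 2 2 3 1 5 0 4 (by decide +kernel)
def w1824 : PV o1824 := fun P h => h.t 2 1 3 2 2 3 4 5 0 1 (by decide +kernel)
def w1825 : PV o1825 := fun P h => h.t 2 1 3 2 3 4 0 5 1 2 (by decide +kernel)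
def w1826 : PV o1826 := fun P h => h.t 2 1 3 2 3 4 1 5 0 2 (by decide +kernel)
def w1827 : PV o1827 := fun P h => h.t 2 1 3 3 1 3 0 2 4 5 (by decide +kernel)
def w1828 : PV o1828 := fun P h => h.t 2 1 3 3 1 4 0 2 3 5 (by decide +kernel)
def w1829 : PV o1829 := fun P h => h.t 2 1 3 3 1 5 0 2 3 4 (by decide +kernel)
def w1830 : PV o1830 := fun P h => h.t 2 1 3 3 2 4 0 3 1 5 (by decide +kernel)
def w1831 : PV o1831 := fun P h => h.t 2 1 3 3 3 5 0 1 2 4 (by decide +kernel)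
def w1832 : PV o1832 := fun P h => h.t 2 1 3 3 3 5 0 4 1 2 (by decide +kernel)
def w1833 : PV o1833 := fun P h => h.t 2 1 3 4 0 1 2 3 4 5 (by decide +kernel)
def w1834 : PV o1834 := fun P h => h.t 2 1 3 4 1 2 0 4 3 5 (by decide +kernel)
def w1835 : PV o1835 := fun P h => h.t 2 1 3 4 1 2 0 5 3 4 (by decide +kernel)
def w1836 : PV o1836 := fun P h => h.t 2 1 3 4 1 2 3 4 0 5 (by decide +kernel)
def w1837 : PV o1837 := fun P h => h.t 2 1 3 4 1 4 0 2 3 5 (by decide +kernel)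
def w1838 : PV o1838 := fun P h => h.t 2 1 3 4 1 5 0 2 3 4 (by decide +kernel)
def w1839 : PV o1839 := fun P h => h.t 2 1 3 4 2 3 0 4 1 5 (by decide +kernel)
def w1840 : PV o1840 := fun P h => h.t 2 1 3 4 2 3 1 5 0 4 (by decide +kernel)
def w1841 : PV o1841 := fun P h => h.t 2 1 3 4 2 3 4 5 0 1 (by decide +kernel)
def w1842 : PV o1842 := fun P h => h.t 2 1 3 4 2 4 1 3 0 5 (by decide +kernel)
def w1843 : PV o1843 := fun P h => h.t 2 1 3 4 3 4 0 5 1 2 (by decide +kernel)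
def w1844 : PV o1844 := fun P h => h.t 2 1 3 4 3 4 1 5 0 2 (by decide +kernel)
def w1845 : PV o1845 := fun P h => h.t 2 1 3 5 0 1 2 3 4 5 (by decide +kernel)
def w1846 : PV o1846 := fun P h => h.t 2 1 3 5 0 1 2 4 3 5 (by decide +kernel)
def w1847 : PV o1847 := fun P h => h.t 2 1 3 5 0 1 2 5 3 4 (by decide +kernel)
def w1848 : PV o1848 := fun P h => h.t 2 1 3 5 0 1 4 5 2 3 (by decide +kernel)
def w1849 : PV o1849 := fun P h => h.t 2 1 3 5 1 2 0 4 3 5 (by decide +kernel)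
def w1850 : PV o1850 := fun P h => h.t 2 1 3 5 1 2 0 5 3 4 (by decide +kernel)
def w1851 : PV o1851 := fun P h => h.t 2 1 3 5 1 2 3 4 0 5 (by decide +kernel)
def w1852 : PV o1852 := fun P h => h.t 2 1 3 5 1 4 0 3 2 5 (by decide +kernel)
def w1853 : PV o1853 := fun P h => h.t 2 1 3 5 2 3 0 4 1 5 (by decide +kernel)
def w1854 : PV o1854 := fun P h => h.t 2 1 3 5 2 3 1 5 0 4 (by decide +kernel)
def w1855 : PV o1855 := fun P h => h.t 2 1 3 5 2 3 4 5 0 1 (by decide +kernel)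
def w1856 : PV o1856 := fun P h => h.t 2 1 3 5 2 4 0 3 1 5 (by decide +kernel)
def w1857 : PV o1857 := fun P h => h.t 2 1 3 5 3 4 0 5 1 2 (by decide +kernel)
def w1858 : PV o1858 := fun P h => h.t 2 1 3 5 3 4 1 5 0 2 (by decide +kernel)
def w1859 : PV o1859 := fun P h => h.t 2 1 3 6 0 1 2 3 4 5 (by decide +kernel)
def w1860 : PV o1860 := fun P h => h.t 2 1 3 6 0 1 3 5 2 4 (by decide +kernel)
def w1861 : PV o1861 := fun P h => h.t 2 1 3 6 0 2 3 5 1 4 (by decide +kernel)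
def w1862 : PV o1862 := fun P h => h.t 2 1 3 6 1 2 0 4 3 5 (by decide +kernel)
def w1863 : PV o1863 := fun P h => h.t 2 1 3 6 1 2 0 5 3 4 (by decide +kernel)
def w1864 : PV o1864 := fun P h => h.t 2 1 3 6 1 2 3 4 0 5 (by decide +kernel)
def w1865 : PV o1865 := fun P h => h.t 2 1 3 6 2 3 0 4 1 5 (by decide +kernel)
def w1866 : PV o1866 := fun P h => h.t 2 1 3 6 2 3 1 5 0 4 (by decide +kernel)
def w1867 : PV o1867 := fun P h => h.t 2 1 3 6 2 3 4 5 0 1 (by decide +kernel)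
def w1868 : PV o1868 := fun P h => h.t 2 1 3 6 3 4 0 5 1 2 (by decide +kernel)
def w1869 : PV o1869 := fun P h => h.t 2 1 3 6 3 4 1 5 0 2 (by decide +kernel)
def w1870 : PV o1870 := fun P h => h.t 2 1 3 6 3 5 1 4 0 2 (by decide +kernel)
def w1871 : PV o1871 := fun P h => h.t 2 1 3 7 0 1 2 3 4 5 (by decide +kernel)
def w1872 : PV o1872 := fun P h => h.t 2 1 3 7 0 1 2 5 3 4 (by decide +kernel)
def w1873 : PV o1873 := fun P h => h.t 2 1 3 7 0 1 3 4 2 5 (by decide +kernel)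
def w1874 : PV o1874 := fun P h => h.t 2 1 3 7 0 2 3 4 1 5 (by decide +kernel)
def w1875 : PV o1875 := fun P h => h.t 2 1 3 7 0 3 1 5 2 4 (by decide +kernel)
def w1876 : PV o1876 := fun P h => h.t 2 1 3 7 0 5 2 3 1 4 (by decide +kernel)
def w1877 : PV o1877 := fun P h => h.t 2 1 3 7 1 2 0 4 3 5 (by decide +kernel)
def w1878 : PV o1878 := fun P h => h.t 2 1 3 7 1 2 0 5 3 4 (by decide +kernel)
def w1879 : PV o1879 := fun P h => h.t 2 1 3 7 1 2 3 4 0 5 (by decide +kernel)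
def w1880 : PV o1880 := fun P h => h.t 2 1 3 7 1 5 0 4 2 3 (by decide +kernel)
def w1881 : PV o1881 := fun P h => h.t 2 1 3 7 2 3 0 4 1 5 (by decide +kernel)
def w1882 : PV o1882 := fun P h => h.t 2 1 3 7 2 3 1 5 0 4 (by decide +kernel)
def w1883 : PV o1883 := fun P h => h.t 2 1 3 7 2 3 4 5 0 1 (by decide +kernel)
def w1884 : PV o1884 := fun P h => h.t 2 1 3 7 2 4 1 3 0 5 (by decide +kernel)
def w1885 : PV o1885 := fun P h => h.t 2 1 3 7 2 5 1 3 0 4 (by decide +kernel)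
def w1886 : PV o1886 := fun P h => h.t 2 1 3 7 3 4 0 5 1 2 (by decide +kernel)
def w1887 : PV o1887 := fun P h => h.t 2 1 3 7 3 4 1 5 0 2 (by decide +kernel)
def w1888 : PV o1888 := fun P h => h.t 2 1 3 7 3 5 0 4 1 2 (by decide +kernel)
def w1889 : PV o1889 := fun P h => h.t 2 1 3 7 3 5 2 4 0 1 (by decide +kernel)
def w1890 : PV o1890 := fun P h => h.x 2 1 3 15 (by decide +kernel)
def w1891 : PV o1891 := fun P h => h.t 2 1 4 3 2 3 4 5 0 1 (by decide +kernel)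
def w1892 : PV o1892 := fun P h => h.t 2 1 4 3 3 4 0 5 1 2 (by decide +kernel)
def w1893 : PV o1893 := fun P h => h.t 2 1 4 3 3 4 1 5 0 2 (by decide +kernel)
def w1894 : PV o1894 := fun P h => h.t 2 1 4 3 4 5 0 1 2 3 (by decide +kernel)
def w1895 : PV o1895 := fun P h => h.t 2 1 4 3 4 5 0 2 1 3 (by decide +kernel)
def w1896 : PV o1896 := fun P h => h.t 2 1 4 3 4 5 1 2 0 3 (by decide +kernel)
def w1897 : PV o1897 := fun P h => h.t 2 1 4 3 4 5 1 3 0 2 (by decide +kernel)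
def w1898 : PV o1898 := fun P h => h.t 2 1 4 7 2 3 4 5 0 1 (by decide +kernel)
def w1899 : PV o1899 := fun P h => h.t 2 1 4 7 4 5 0 1 2 3 (by decide +kernel)
def w1900 : PV o1900 := fun P h => h.x 2 1 4 15 (by decide +kernel)
def w1901 : PV o1901 := fun P h => h.t 2 1 5 3 2 3 4 5 0 1 (by decide +kernel)
def w1902 : PV o1902 := fun P h => h.t 2 1 5 3 3 4 0 5 1 2 (by decide +kernel)
def w1903 : PV o1903 := fun P h => h.t 2 1 5 3 3 4 1 5 0 2 (by decide +kernel)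
def w1904 : PV o1904 := fun P h => h.t 2 1 5 3 4 5 0 1 2 3 (by decide +kernel)
def w1905 : PV o1905 := fun P h => h.t 2 1 5 3 4 5 0 2 1 3 (by decide +kernel)
def w1906 : PV o1906 := fun P h => h.t 2 1 5 3 4 5 1 2 0 3 (by decide +kernel)
def w1907 : PV o1907 := fun P h => h.t 2 1 5 6 2 3 4 5 0 1 (by decide +kernel)
def w1908 : PV o1908 := fun P h => h.t 2 1 5 6 2 4 3 5 0 1 (by decide +kernel)
def w1909 : PV o1909 := fun P h => h.t 2 1 5 7 0 1 2 4 3 5 (by decide +kernel)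
def w1910 : PV o1910 := fun P h => h.t 2 1 5 7 0 2 3 4 1 5 (by decide +kernel)
def w1911 : PV o1911 := fun P h => h.t 2 1 5 7 4 5 0 1 2 3 (by decide +kernel)
def w1912 : PV o1912 := fun P h => h.x 2 1 5 15 (by decide +kernel)
def w1913 : PV o1913 := fun P h => h.t 2 1 6 2 2 3 4 5 0 1 (by decide +kernel)
def w1914 : PV o1914 := fun P h => h.t 2 1 6 2 4 5 0 1 2 3 (by decide +kernel)
def w1915 : PV o1915 := fun P h => h.t 2 1 6 3 2 3 4 5 0 1 (by decide +kernel)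
def w1916 : PV o1916 := fun P h => h.t 2 1 6 3 3 4 0 5 1 2 (by decide +kernel)
def w1917 : PV o1917 := fun P h => h.t 2 1 6 3 3 4 1 5 0 2 (by decide +kernel)
def w1918 : PV o1918 := fun P h => h.t 2 1 6 3 4 5 0 1 2 3 (by decide +kernel)
def w1919 : PV o1919 := fun P h => h.t 2 1 6 3 4 5 0 2 1 3 (by decide +kernel)
def w1920 : PV o1920 := fun P h => h.t 2 1 6 3 4 5 1 2 0 3 (by decide +kernel)
def w1921 : PV o1921 := fun P h => h.t 2 1 6 4 2 3 4 5 0 1 (by decide +kernel)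
def w1922 : PV o1922 := fun P h => h.t 2 1 6 4 4 5 0 1 2 3 (by decide +kernel)
def w1923 : PV o1923 := fun P h => h.t 2 1 6 5 0 1 2 3 4 5 (by decide +kernel)
def w1924 : PV o1924 := fun P h => h.t 2 1 6 5 0 1 2 4 3 5 (by decide +kernel)
def w1925 : PV o1925 := fun P h => h.t 2 1 6 5 0 1 2 5 3 4 (by decide +kernel)
def w1926 : PV o1926 := fun P h => h.t 2 1 6 5 0 1 3 4 2 5 (by decide +kernel)
def w1927 : PV o1927 := fun P h => h.t 2 1 6 5 0 1 3 5 2 4 (by decide +kernel)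
def w1928 : PV o1928 := fun P h => h.t 2 1 6 5 0 1 4 5 2 3 (by decide +kernel)
def w1929 : PV o1929 := fun P h => h.t 2 1 6 5 0 4 1 2 3 5 (by decide +kernel)
def w1930 : PV o1930 := fun P h => h.t 2 1 6 5 2 3 4 5 0 1 (by decide +kernel)
def w1931 : PV o1931 := fun P h => h.t 2 1 6 5 4 5 0 1 2 3 (by decide +kernel)
def w1932 : PV o1932 := fun P h => h.t 2 1 6 7 0 1 2 3 4 5 (by decide +kernel)
def w1933 : PV o1933 := fun P h => h.t 2 1 6 7 0 1 3 4 2 5 (by decide +kernel)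
def w1934 : PV o1934 := fun P h => h.t 2 1 6 7 0 2 3 4 1 5 (by decide +kernel)
def w1935 : PV o1935 := fun P h => h.t 2 1 6 7 2 3 4 5 0 1 (by decide +kernel)
def w1936 : PV o1936 := fun P h => h.t 2 1 6 7 3 4 0 5 1 2 (by decide +kernel)
def w1937 : PV o1937 := fun P h => h.t 2 1 6 7 3 5 0 4 1 2 (by decide +kernel)
def w1938 : PV o1938 := fun P h => h.t 2 1 6 7 3 5 1 2 0 4 (by decide +kernel)
def w1939 : PV o1939 := fun P h => h.t 2 1 6 7 4 5 0 1 2 3 (by decide +kernel)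
def w1940 : PV o1940 := fun P h => h.t 2 1 6 7 4 5 1 2 0 3 (by decide +kernel)
def w1941 : PV o1941 := fun P h => h.x 2 1 6 15 (by decide +kernel)
def w1942 : PV o1942 := fun P h => h.t 2 1 7 2 2 3 4 5 0 1 (by decide +kernel)
def w1943 : PV o1943 := fun P h => h.t 2 1 7 2 4 5 0 1 2 3 (by decide +kernel)
def w1944 : PV o1944 := fun P h => h.t 2 1 7 3 2 3 4 5 0 1 (by decide +kernel)
def w1945 : PV o1945 := fun P h => h.t 2 1 7 3 3 4 0 5 1 2 (by decide +kernel)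
def w1946 : PV o1946 := fun P h => h.t 2 1 7 3 3 4 1 5 0 2 (by decide +kernel)
def w1947 : PV o1947 := fun P h => h.t 2 1 7 3 3 5 0 4 1 2 (by decide +kernel)
def w1948 : PV o1948 := fun P h => h.t 2 1 7 3 3 5 1 4 0 2 (by decide +kernel)
def w1949 : PV o1949 := fun P h => h.t 2 1 7 3 3 5 2 4 0 1 (by decide +kernel)
def w1950 : PV o1950 := fun P h => h.t 2 1 7 3 4 5 0 1 2 3 (by decide +kernel)
def w1951 : PV o1951 := fun P h => h.t 2 1 7 3 4 5 0 2 1 3 (by decide +kernel)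
def w1952 : PV o1952 := fun P h => h.t 2 1 7 3 4 5 1 2 0 3 (by decide +kernel)
def w1953 : PV o1953 := fun P h => h.t 2 1 7 4 2 3 4 5 0 1 (by decide +kernel)
def w1954 : PV o1954 := fun P h => h.t 2 1 7 5 0 1 2 3 4 5 (by decide +kernel)
def w1955 : PV o1955 := fun P h => h.t 2 1 7 5 0 1 2 4 3 5 (by decide +kernel)
def w1956 : PV o1956 := fun P h => h.t 2 1 7 5 0 1 2 5 3 4 (by decide +kernel)
def w1957 : PV o1957 := fun P h => h.t 2 1 7 5 0 1 3 4 2 5 (by decide +kernel)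
def w1958 : PV o1958 := fun P h => h.t 2 1 7 5 0 1 4 5 2 3 (by decide +kernel)
def w1959 : PV o1959 := fun P h => h.t 2 1 7 5 2 3 4 5 0 1 (by decide +kernel)
def w1960 : PV o1960 := fun P h => h.t 2 1 7 6 0 1 2 3 4 5 (by decide +kernel)
def w1961 : PV o1961 := fun P h => h.t 2 1 7 6 0 2 1 5 3 4 (by decide +kernel)
def w1962 : PV o1962 := fun P h => h.t 2 1 7 6 0 2 3 4 1 5 (by decide +kernel)
def w1963 : PV o1963 := fun P h => h.t 2 1 7 6 0 3 1 5 2 4 (by decide +kernel)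
def w1964 : PV o1964 := fun P h => h.t 2 1 7 6 0 5 1 2 3 4 (by decide +kernel)
def w1965 : PV o1965 := fun P h => h.t 2 1 7 6 0 5 1 4 2 3 (by decide +kernel)
def w1966 : PV o1966 := fun P h => h.t 2 1 7 6 0 5 2 3 1 4 (by decide +kernel)
def w1967 : PV o1967 := fun P h => h.t 2 1 7 6 2 3 0 5 1 4 (by decide +kernel)
def w1968 : PV o1968 := fun P h => h.t 2 1 7 6 3 5 0 4 1 2 (by decide +kernel)
def w1969 : PV o1969 := fun P h => h.t 2 1 7 7 2 3 4 5 0 1 (by decide +kernel)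
def w1970 : PV o1970 := fun P h => h.t 2 1 7 7 3 4 0 5 1 2 (by decide +kernel)
def w1971 : PV o1971 := fun P h => h.t 2 1 7 7 3 4 2 5 0 1 (by decide +kernel)
def w1972 : PV o1972 := fun P h => h.t 2 1 7 7 3 5 0 4 1 2 (by decide +kernel)
def w1973 : PV o1973 := fun P h => h.t 2 1 7 7 3 5 1 4 0 2 (by decide +kernel)
def w1974 : PV o1974 := fun P h => h.t 2 1 7 7 3 5 2 4 0 1 (by decide +kernel)
def w1975 : PV o1975 := fun P h => h.x 2 1 7 15 (by decide +kernel)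
def w1976 : PV o1976 := fun P h => h.x 2 2 0 13 (by decide +kernel)
def w1977 : PV o1977 := fun P h => h.x 2 2 0 12 (by decide +kernel)
def w1978 : PV o1978 := fun P h => h.x 2 2 0 4 (by decide +kernel)
def w1979 : PV o1979 := fun P h => h.x 2 2 1 15 (by decide +kernel)
def w1980 : PV o1980 := fun P h => h.t 2 2 2 7 0 3 4 5 1 2 (by decide +kernel)
def w1981 : PV o1981 := fun P h => h.t 2 2 2 7 1 2 4 5 0 3 (by decide +kernel)
def w1982 : PV o1982 := fun P h => h.t 2 2 2 7 1 3 4 5 0 2 (by decide +kernel)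
def w1983 : PV o1983 := fun P h => h.t 2 2 2 7 2 4 0 5 1 3 (by decide +kernel)
def w1984 : PV o1984 := fun P h => h.t 2 2 2 7 2 5 0 1 3 4 (by decide +kernel)
def w1985 : PV o1985 := fun P h => h.t 2 2 2 7 3 4 0 5 1 2 (by decide +kernel)
def w1986 : PV o1986 := fun P h => h.t 2 2 2 7 3 4 1 5 0 2 (by decide +kernel)
def w1987 : PV o1987 := fun P h => h.t 2 2 2 7 3 5 1 2 0 4 (by decide +kernel)
def w1988 : PV o1988 := fun P h => h.t 2 2 3 6 1 2 0 3 4 5 (by decide +kernel)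
def w1989 : PV o1989 := fun P h => h.t 2 2 3 6 1 4 0 5 2 3 (by decide +kernel)
def w1990 : PV o1990 := fun P h => h.t 2 2 3 6 2 4 0 5 1 3 (by decide +kernel)
def w1991 : PV o1991 := fun P h => h.t 2 2 3 6 3 4 0 5 1 2 (by decide +kernel)
def w1992 : PV o1992 := fun P h => h.t 2 2 3 7 1 2 0 3 4 5 (by decide +kernel)
def w1993 : PV o1993 := fun P h => h.t 2 2 3 7 1 3 0 4 2 5 (by decide +kernel)
def w1994 : PV o1994 := fun P h => h.t 2 2 3 7 1 4 0 5 2 3 (by decide +kernel)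
def w1995 : PV o1995 := fun P h => h.t 2 2 3 7 1 5 0 2 3 4 (by decide +kernel)
def w1996 : PV o1996 := fun P h => h.t 2 2 3 7 2 3 0 4 1 5 (by decide +kernel)
def w1997 : PV o1997 := fun P h => h.t 2 2 3 7 2 4 0 5 1 3 (by decide +kernel)
def w1998 : PV o1998 := fun P h => h.x 2 2 3 5 (by decide +kernel)
def w1999 : PV o1999 := fun P h => h.t 2 2 7 3 0 1 2 3 4 5 (by decide +kernel)
def w2000 : PV o2000 := fun P h => h.t 2 2 7 3 0 3 1 2 4 5 (by decide +kernel)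
def w2001 : PV o2001 := fun P h => h.t 2 2 7 3 0 5 1 2 3 4 (by decide +kernel)
def w2002 : PV o2002 := fun P h => h.t 2 2 7 3 1 3 0 2 4 5 (by decide +kernel)
def w2003 : PV o2003 := fun P h => h.t 2 2 7 3 1 5 0 2 3 4 (by decide +kernel)
def w2004 : PV o2004 := fun P h => h.t 2 2 7 6 0 2 4 5 1 3 (by decide +kernel)
def w2005 : PV o2005 := fun P h => h.t 2 2 7 6 0 3 4 5 1 2 (by decide +kernel)
def w2006 : PV o2006 := fun P h => h.t 2 2 7 6 1 2 4 5 0 3 (by decide +kernel)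
def w2007 : PV o2007 := fun P h => h.t 2 2 7 6 2 3 1 5 0 4 (by decide +kernel)
def w2008 : PV o2008 := fun P h => h.t 2 2 7 7 0 2 3 4 1 5 (by decide +kernel)
def w2009 : PV o2009 := fun P h => h.t 2 2 7 7 0 3 4 5 1 2 (by decide +kernel)
def w2010 : PV o2010 := fun P h => h.t 2 2 7 7 1 2 0 3 4 5 (by decide +kernel)
def w2011 : PV o2011 := fun P h => h.t 2 2 7 7 1 3 0 2 4 5 (by decide +kernel)
def w2012 : PV o2012 := fun P h => h.t 2 2 7 7 1 3 4 5 0 2 (by decide +kernel)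
def w2013 : PV o2013 := fun P h => h.t 2 2 7 7 2 5 0 1 3 4 (by decide +kernel)
def w2014 : PV o2014 := fun P h => h.t 2 2 7 7 3 5 0 1 2 4 (by decide +kernel)
def w2015 : PV o2015 := fun P h => h.x 2 3 1 15 (by decide +kernel)
def w2016 : PV o2016 := fun P h => h.x 2 3 2 15 (by decide +kernel)
def w2017 : PV o2017 := fun P h => h.x 2 3 2 13 (by decide +kernel)
def w2018 : PV o2018 := fun P h => h.t 2 3 3 3 0 2 3 5 1 4 (by decide +kernel)
def w2019 : PV o2019 := fun P h => h.t 2 3 3 4 0 1 2 4 3 5 (by decide +kernel)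
def w2020 : PV o2020 := fun P h => h.t 2 3 3 4 0 1 3 4 2 5 (by decide +kernel)
def w2021 : PV o2021 := fun P h => h.t 2 3 3 4 0 1 4 5 2 3 (by decide +kernel)
def w2022 : PV o2022 := fun P h => h.t 2 3 3 4 0 2 3 4 1 5 (by decide +kernel)
def w2023 : PV o2023 := fun P h => h.t 2 3 3 4 0 2 4 5 1 3 (by decide +kernel)
def w2024 : PV o2024 := fun P h => h.t 2 3 3 4 0 3 4 5 1 2 (by decide +kernel)
def w2025 : PV o2025 := fun P h => h.t 2 3 3 4 1 2 3 5 0 4 (by decide +kernel)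
def w2026 : PV o2026 := fun P h => h.t 2 3 3 4 1 2 4 5 0 3 (by decide +kernel)
def w2027 : PV o2027 := fun P h => h.t 2 3 3 4 1 3 4 5 0 2 (by decide +kernel)
def w2028 : PV o2028 := fun P h => h.t 2 3 3 4 2 3 0 4 1 5 (by decide +kernel)
def w2029 : PV o2029 := fun P h => h.t 2 3 3 4 2 3 0 5 1 4 (by decide +kernel)
def w2030 : PV o2030 := fun P h => h.t 2 3 3 4 3 4 0 5 1 2 (by decide +kernel)
def w2031 : PV o2031 := fun P h => h.t 2 3 3 4 3 4 1 5 0 2 (by decide +kernel)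
def w2032 : PV o2032 := fun P h => h.t 2 3 3 5 0 1 2 4 3 5 (by decide +kernel)
def w2033 : PV o2033 := fun P h => h.t 2 3 3 5 0 4 3 5 1 2 (by decide +kernel)
def w2034 : PV o2034 := fun P h => h.t 2 3 3 6 0 1 2 5 3 4 (by decide +kernel)
def w2035 : PV o2035 := fun P h => h.t 2 3 3 6 0 1 3 5 2 4 (by decide +kernel)
def w2036 : PV o2036 := fun P h => h.t 2 3 3 6 0 2 3 5 1 4 (by decide +kernel)
def w2037 : PV o2037 := fun P h => h.t 2 3 3 6 0 3 4 5 1 2 (by decide +kernel)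
def w2038 : PV o2038 := fun P h => h.t 2 3 3 6 0 4 2 5 1 3 (by decide +kernel)
def w2039 : PV o2039 := fun P h => h.t 2 3 3 6 1 2 3 5 0 4 (by decide +kernel)
def w2040 : PV o2040 := fun P h => h.t 2 3 3 6 1 3 4 5 0 2 (by decide +kernel)
def w2041 : PV o2041 := fun P h => h.t 2 3 3 6 2 4 0 5 1 3 (by decide +kernel)
def w2042 : PV o2042 := fun P h => h.t 2 3 3 6 3 4 0 5 1 2 (by decide +kernel)
def w2043 : PV o2043 := fun P h => h.t 2 3 3 6 3 4 1 5 0 2 (by decide +kernel)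
def w2044 : PV o2044 := fun P h => h.t 2 3 3 7 0 1 2 5 3 4 (by decide +kernel)
def w2045 : PV o2045 := fun P h => h.t 2 3 3 7 0 1 3 4 2 5 (by decide +kernel)
def w2046 : PV o2046 := fun P h => h.t 2 3 3 7 0 2 3 4 1 5 (by decide +kernel)
def w2047 : PV o2047 := fun P h => h.t 2 3 3 7 0 3 1 5 2 4 (by decide +kernel)
def w2048 : PV o2048 := fun P h => h.t 2 3 3 7 0 3 4 5 1 2 (by decide +kernel)
def w2049 : PV o2049 := fun P h => h.t 2 3 3 7 0 4 2 5 1 3 (by decide +kernel)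
def w2050 : PV o2050 := fun P h => h.t 2 3 3 7 1 2 3 5 0 4 (by decide +kernel)
def w2051 : PV o2051 := fun P h => h.t 2 3 3 7 2 4 0 5 1 3 (by decide +kernel)
def w2052 : PV o2052 := fun P h => h.t 2 3 3 7 3 4 0 5 1 2 (by decide +kernel)
def w2053 : PV o2053 := fun P h => h.t 2 3 3 7 3 4 1 5 0 2 (by decide +kernel)
def w2054 : PV o2054 := fun P h => h.t 2 3 4 5 0 2 1 4 3 5 (by decide +kernel)
def w2055 : PV o2055 := fun P h => h.t 2 3 4 5 1 3 0 4 2 5 (by decide +kernel)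
def w2056 : PV o2056 := fun P h => h.t 2 3 4 5 2 4 0 1 3 5 (by decide +kernel)
def w2057 : PV o2057 := fun P h => h.t 2 3 4 5 3 4 0 5 1 2 (by decide +kernel)
def w2058 : PV o2058 := fun P h => h.t 2 3 4 7 2 5 3 4 0 1 (by decide +kernel)
def w2059 : PV o2059 := fun P h => h.t 2 3 4 7 3 5 0 4 1 2 (by decide +kernel)
def w2060 : PV o2060 := fun P h => h.t 2 3 4 7 3 5 1 4 0 2 (by decide +kernel)
def w2061 : PV o2061 := fun P h => h.t 2 3 4 7 4 5 0 1 2 3 (by decide +kernel)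
def w2062 : PV o2062 := fun P h => h.t 2 3 4 7 4 5 0 2 1 3 (by decide +kernel)
def w2063 : PV o2063 := fun P h => h.t 2 3 4 7 4 5 1 2 0 3 (by decide +kernel)
def w2064 : PV o2064 := fun P h => h.x 2 3 4 12 (by decide +kernel)
def w2065 : PV o2065 := fun P h => h.t 2 3 5 4 0 2 3 4 1 5 (by decide +kernel)
def w2066 : PV o2066 := fun P h => h.t 2 3 5 6 0 3 4 5 1 2 (by decide +kernel)
def w2067 : PV o2067 := fun P h => h.t 2 3 5 6 0 4 1 5 2 3 (by decide +kernel)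
def w2068 : PV o2068 := fun P h => h.t 2 3 5 6 0 4 2 5 1 3 (by decide +kernel)
def w2069 : PV o2069 := fun P h => h.t 2 3 5 6 0 4 3 5 1 2 (by decide +kernel)
def w2070 : PV o2070 := fun P h => h.t 2 3 5 6 0 5 1 3 2 4 (by decide +kernel)
def w2071 : PV o2071 := fun P h => h.t 2 3 5 6 0 5 2 3 1 4 (by decide +kernel)
def w2072 : PV o2072 := fun P h => h.t 2 3 5 6 3 4 2 5 0 1 (by decide +kernel)
def w2073 : PV o2073 := fun P h => h.t 2 3 5 6 4 5 2 3 0 1 (by decide +kernel)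
def w2074 : PV o2074 := fun P h => h.t 2 3 5 7 1 2 3 4 0 5 (by decide +kernel)
def w2075 : PV o2075 := fun P h => h.t 2 3 5 7 2 3 4 5 0 1 (by decide +kernel)
def w2076 : PV o2076 := fun P h => h.t 2 3 5 7 2 4 3 5 0 1 (by decide +kernel)
def w2077 : PV o2077 := fun P h => h.t 2 3 5 7 3 4 1 5 0 2 (by decide +kernel)
def w2078 : PV o2078 := fun P h => h.t 2 3 5 7 3 5 0 4 1 2 (by decide +kernel)
def w2079 : PV o2079 := fun P h => h.x 2 3 5 15 (by decide +kernel)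
def w2080 : PV o2080 := fun P h => h.x 2 3 5 13 (by decide +kernel)
def w2081 : PV o2081 := fun P h => h.x 2 3 5 12 (by decide +kernel)
def w2082 : PV o2082 := fun P h => h.t 2 3 6 4 0 2 4 5 1 3 (by decide +kernel)
def w2083 : PV o2083 := fun P h => h.t 2 3 6 4 0 5 1 2 3 4 (by decide +kernel)
def w2084 : PV o2084 := fun P h => h.t 2 3 6 5 0 1 2 3 4 5 (by decide +kernel)
def w2085 : PV o2085 := fun P h => h.t 2 3 6 5 0 1 2 4 3 5 (by decide +kernel)
def w2086 : PV o2086 := fun P h => h.t 2 3 6 5 0 1 2 5 3 4 (by decide +kernel)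
def w2087 : PV o2087 := fun P h => h.t 2 3 6 5 0 1 3 4 2 5 (by decide +kernel)
def w2088 : PV o2088 := fun P h => h.t 2 3 6 5 0 1 3 5 2 4 (by decide +kernel)
def w2089 : PV o2089 := fun P h => h.t 2 3 6 5 0 1 4 5 2 3 (by decide +kernel)
def w2090 : PV o2090 := fun P h => h.t 2 3 6 5 0 2 1 3 4 5 (by decide +kernel)
def w2091 : PV o2091 := fun P h => h.t 2 3 6 5 0 2 1 4 3 5 (by decide +kernel)
def w2092 : PV o2092 := fun P h => h.t 2 3 6 5 0 2 1 5 3 4 (by decide +kernel)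
def w2093 : PV o2093 := fun P h => h.t 2 3 6 5 1 2 4 5 0 3 (by decide +kernel)
def w2094 : PV o2094 := fun P h => h.t 2 3 6 5 1 3 2 4 0 5 (by decide +kernel)
def w2095 : PV o2095 := fun P h => h.t 2 3 6 5 1 3 2 5 0 4 (by decide +kernel)
def w2096 : PV o2096 := fun P h => h.t 2 3 6 5 2 3 0 4 1 5 (by decide +kernel)
def w2097 : PV o2097 := fun P h => h.t 2 3 6 5 2 3 0 5 1 4 (by decide +kernel)
def w2098 : PV o2098 := fun P h => h.t 2 3 6 5 2 3 4 5 0 1 (by decide +kernel)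
def w2099 : PV o2099 := fun P h => h.t 2 3 6 5 2 4 3 5 0 1 (by decide +kernel)
def w2100 : PV o2100 := fun P h => h.t 2 3 6 5 2 5 3 4 0 1 (by decide +kernel)
def w2101 : PV o2101 := fun P h => h.t 2 3 6 5 3 4 0 1 2 5 (by decide +kernel)
def w2102 : PV o2102 := fun P h => h.t 2 3 6 5 3 4 0 5 1 2 (by decide +kernel)
def w2103 : PV o2103 := fun P h => h.t 2 3 6 5 3 4 1 5 0 2 (by decide +kernel)
def w2104 : PV o2104 := fun P h => h.t 2 3 6 5 3 5 1 4 0 2 (by decide +kernel)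
def w2105 : PV o2105 := fun P h => h.t 2 3 6 5 4 5 0 1 2 3 (by decide +kernel)
def w2106 : PV o2106 := fun P h => h.t 2 3 6 5 4 5 0 2 1 3 (by decide +kernel)
def w2107 : PV o2107 := fun P h => h.t 2 3 6 5 4 5 1 2 0 3 (by decide +kernel)
def w2108 : PV o2108 := fun P h => h.t 2 3 6 6 0 3 4 5 1 2 (by decide +kernel)
def w2109 : PV o2109 := fun P h => h.t 2 3 6 6 0 4 1 5 2 3 (by decide +kernel)
def w2110 : PV o2110 := fun P h => h.t 2 3 6 6 0 4 2 5 1 3 (by decide +kernel)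
def w2111 : PV o2111 := fun P h => h.t 2 3 6 7 0 1 2 3 4 5 (by decide +kernel)
def w2112 : PV o2112 := fun P h => h.t 2 3 6 7 0 1 2 4 3 5 (by decide +kernel)
def w2113 : PV o2113 := fun P h => h.t 2 3 6 7 0 1 3 4 2 5 (by decide +kernel)
def w2114 : PV o2114 := fun P h => h.t 2 3 6 7 0 2 1 3 4 5 (by decide +kernel)
def w2115 : PV o2115 := fun P h => h.t 2 3 6 7 0 2 1 4 3 5 (by decide +kernel)
def w2116 : PV o2116 := fun P h => h.t 2 3 6 7 0 4 1 5 2 3 (by decide +kernel)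
def w2117 : PV o2117 := fun P h => h.t 2 3 6 7 0 5 1 2 3 4 (by decide +kernel)
def w2118 : PV o2118 := fun P h => h.t 2 3 6 7 0 5 1 4 2 3 (by decide +kernel)
def w2119 : PV o2119 := fun P h => h.t 2 3 6 7 0 5 2 3 1 4 (by decide +kernel)
def w2120 : PV o2120 := fun P h => h.t 2 3 6 7 1 2 3 4 0 5 (by decide +kernel)
def w2121 : PV o2121 := fun P h => h.t 2 3 6 7 1 3 2 4 0 5 (by decide +kernel)
def w2122 : PV o2122 := fun P h => h.t 2 3 6 7 1 4 2 3 0 5 (by decide +kernel)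
def w2123 : PV o2123 := fun P h => h.t 2 3 6 7 1 5 0 2 3 4 (by decide +kernel)
def w2124 : PV o2124 := fun P h => h.t 2 3 6 7 1 5 0 4 2 3 (by decide +kernel)
def w2125 : PV o2125 := fun P h => h.t 2 3 6 7 2 3 0 4 1 5 (by decide +kernel)
def w2126 : PV o2126 := fun P h => h.t 2 3 6 7 2 3 0 5 1 4 (by decide +kernel)
def w2127 : PV o2127 := fun P h => h.t 2 3 6 7 2 4 3 5 0 1 (by decide +kernel)
def w2128 : PV o2128 := fun P h => h.t 2 3 6 7 2 5 0 1 3 4 (by decide +kernel)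
def w2129 : PV o2129 := fun P h => h.t 2 3 6 7 2 5 1 3 0 4 (by decide +kernel)
def w2130 : PV o2130 := fun P h => h.t 2 3 6 7 2 5 3 4 0 1 (by decide +kernel)
def w2131 : PV o2131 := fun P h => h.t 2 3 6 7 3 4 0 5 1 2 (by decide +kernel)
def w2132 : PV o2132 := fun P h => h.t 2 3 6 7 3 4 1 5 0 2 (by decide +kernel)
def w2133 : PV o2133 := fun P h => h.t 2 3 6 7 3 5 0 4 1 2 (by decide +kernel)
def w2134 : PV o2134 := fun P h => h.t 2 3 6 7 3 5 1 2 0 4 (by decide +kernel)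
def w2135 : PV o2135 := fun P h => h.t 2 3 6 7 3 5 1 4 0 2 (by decide +kernel)
def w2136 : PV o2136 := fun P h => h.t 2 3 6 7 4 5 0 1 2 3 (by decide +kernel)
def w2137 : PV o2137 := fun P h => h.t 2 3 6 7 4 5 0 2 1 3 (by decide +kernel)
def w2138 : PV o2138 := fun P h => h.t 2 3 6 7 4 5 0 3 1 2 (by decide +kernel)
def w2139 : PV o2139 := fun P h => h.t 2 3 6 7 4 5 1 2 0 3 (by decide +kernel)
def w2140 : PV o2140 := fun P h => h.x 2 3 6 15 (by decide +kernel)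
def w2141 : PV o2141 := fun P h => h.x 2 3 6 13 (by decide +kernel)
def w2142 : PV o2142 := fun P h => h.x 2 3 6 12 (by decide +kernel)
def w2143 : PV o2143 := fun P h => h.t 2 3 7 4 0 1 2 4 3 5 (by decide +kernel)
def w2144 : PV o2144 := fun P h => h.t 2 3 7 4 0 1 4 5 2 3 (by decide +kernel)
def w2145 : PV o2145 := fun P h => h.t 2 3 7 4 0 2 3 4 1 5 (by decide +kernel)
def w2146 : PV o2146 := fun P h => h.t 2 3 7 4 0 2 4 5 1 3 (by decide +kernel)
def w2147 : PV o2147 := fun P h => h.t 2 3 7 4 0 3 1 4 2 5 (by decide +kernel)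
def w2148 : PV o2148 := fun P h => h.t 2 3 7 4 0 3 4 5 1 2 (by decide +kernel)
def w2149 : PV o2149 := fun P h => h.t 2 3 7 4 0 4 1 5 2 3 (by decide +kernel)
def w2150 : PV o2150 := fun P h => h.t 2 3 7 5 0 1 2 3 4 5 (by decide +kernel)
def w2151 : PV o2151 := fun P h => h.t 2 3 7 5 0 1 2 4 3 5 (by decide +kernel)
def w2152 : PV o2152 := fun P h => h.t 2 3 7 5 0 1 2 5 3 4 (by decide +kernel)
def w2153 : PV o2153 := fun P h => h.t 2 3 7 5 0 1 3 4 2 5 (by decide +kernel)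
def w2154 : PV o2154 := fun P h => h.t 2 3 7 5 0 1 3 5 2 4 (by decide +kernel)
def w2155 : PV o2155 := fun P h => h.t 2 3 7 5 0 1 4 5 2 3 (by decide +kernel)
def w2156 : PV o2156 := fun P h => h.t 2 3 7 5 1 2 3 4 0 5 (by decide +kernel)
def w2157 : PV o2157 := fun P h => h.t 2 3 7 5 2 3 0 4 1 5 (by decide +kernel)
def w2158 : PV o2158 := fun P h => h.t 2 3 7 5 2 3 4 5 0 1 (by decide +kernel)
def w2159 : PV o2159 := fun P h => h.t 2 3 7 5 3 4 0 5 1 2 (by decide +kernel)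
def w2160 : PV o2160 := fun P h => h.t 2 3 7 6 0 1 2 3 4 5 (by decide +kernel)
def w2161 : PV o2161 := fun P h => h.t 2 3 7 6 0 1 2 4 3 5 (by decide +kernel)
def w2162 : PV o2162 := fun P h => h.t 2 3 7 6 0 1 2 5 3 4 (by decide +kernel)
def w2163 : PV o2163 := fun P h => h.t 2 3 7 6 0 2 1 4 3 5 (by decide +kernel)
def w2164 : PV o2164 := fun P h => h.t 2 3 7 6 0 3 1 4 2 5 (by decide +kernel)
def w2165 : PV o2165 := fun P h => h.t 2 3 7 6 0 3 1 5 2 4 (by decide +kernel)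
def w2166 : PV o2166 := fun P h => h.t 2 3 7 6 0 3 4 5 1 2 (by decide +kernel)
def w2167 : PV o2167 := fun P h => h.t 2 3 7 6 0 4 1 5 2 3 (by decide +kernel)
def w2168 : PV o2168 := fun P h => h.t 2 3 7 6 0 4 2 5 1 3 (by decide +kernel)
def w2169 : PV o2169 := fun P h => h.t 2 3 7 6 0 4 3 5 1 2 (by decide +kernel)
def w2170 : PV o2170 := fun P h => h.t 2 3 7 6 0 5 1 2 3 4 (by decide +kernel)
def w2171 : PV o2171 := fun P h => h.t 2 3 7 6 0 5 1 3 2 4 (by decide +kernel)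
def w2172 : PV o2172 := fun P h => h.t 2 3 7 6 0 5 1 4 2 3 (by decide +kernel)
def w2173 : PV o2173 := fun P h => h.t 2 3 7 6 0 5 2 3 1 4 (by decide +kernel)
def w2174 : PV o2174 := fun P h => h.t 2 3 7 6 0 5 2 4 1 3 (by decide +kernel)
def w2175 : PV o2175 := fun P h => h.t 2 3 7 6 0 5 3 4 1 2 (by decide +kernel)
def w2176 : PV o2176 := fun P h => h.t 2 3 7 6 1 2 4 5 0 3 (by decide +kernel)
def w2177 : PV o2177 := fun P h => h.t 2 3 7 6 1 3 2 4 0 5 (by decide +kernel)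
def w2178 : PV o2178 := fun P h => h.t 2 3 7 6 2 3 0 4 1 5 (by decide +kernel)
def w2179 : PV o2179 := fun P h => h.t 2 3 7 6 2 3 0 5 1 4 (by decide +kernel)
def w2180 : PV o2180 := fun P h => h.t 2 3 7 6 2 4 0 5 1 3 (by decide +kernel)
def w2181 : PV o2181 := fun P h => h.t 2 3 7 6 3 4 0 5 1 2 (by decide +kernel)
def w2182 : PV o2182 := fun P h => h.t 2 3 7 7 1 2 3 4 0 5 (by decide +kernel)
def w2183 : PV o2183 := fun P h => h.t 2 3 7 7 2 3 4 5 0 1 (by decide +kernel)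
def w2184 : PV o2184 := fun P h => h.t 2 3 7 7 2 4 3 5 0 1 (by decide +kernel)
def w2185 : PV o2185 := fun P h => h.t 2 3 7 7 3 4 0 5 1 2 (by decide +kernel)
def w2186 : PV o2186 := fun P h => h.x 2 3 7 15 (by decide +kernel)
def w2187 : PV o2187 := fun P h => h.x 2 3 7 13 (by decide +kernel)
def w2188 : PV o2188 := fun P h => h.x 2 3 7 12 (by decide +kernel)
def w2189 : PV o2189 := fun P h => h.t 2 4 4 4 0 2 1 4 3 5 (by decide +kernel)
def w2190 : PV o2190 := fun P h => h.t 2 4 4 4 0 2 3 5 1 4 (by decide +kernel)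
def w2191 : PV o2191 := fun P h => h.t 2 4 4 5 0 2 1 5 3 4 (by decide +kernel)
def w2192 : PV o2192 := fun P h => h.t 2 4 4 5 0 3 1 5 2 4 (by decide +kernel)
def w2193 : PV o2193 := fun P h => h.t 2 4 4 5 0 3 2 4 1 5 (by decide +kernel)
def w2194 : PV o2194 := fun P h => h.t 2 4 4 5 1 3 0 5 2 4 (by decide +kernel)
def w2195 : PV o2195 := fun P h => h.t 2 4 4 5 2 5 1 3 0 4 (by decide +kernel)
def w2196 : PV o2196 := fun P h => h.t 2 4 4 6 2 3 0 4 1 5 (by decide +kernel)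
def w2197 : PV o2197 := fun P h => h.t 2 4 4 7 0 1 3 5 2 4 (by decide +kernel)
def w2198 : PV o2198 := fun P h => h.t 2 4 4 7 4 5 1 3 0 2 (by decide +kernel)
def w2199 : PV o2199 := fun P h => h.t 2 4 5 5 0 2 1 3 4 5 (by decide +kernel)
def w2200 : PV o2200 := fun P h => h.t 2 4 5 5 0 2 3 4 1 5 (by decide +kernel)
def w2201 : PV o2201 := fun P h => h.t 2 4 5 5 0 2 3 5 1 4 (by decide +kernel)
def w2202 : PV o2202 := fun P h => h.t 2 4 5 5 0 4 1 3 2 5 (by decide +kernel)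
def w2203 : PV o2203 := fun P h => h.t 2 4 5 5 0 4 2 3 1 5 (by decide +kernel)
def w2204 : PV o2204 := fun P h => h.t 2 4 5 5 1 5 2 3 0 4 (by decide +kernel)
def w2205 : PV o2205 := fun P h => h.t 2 4 5 5 2 4 0 5 1 3 (by decide +kernel)
def w2206 : PV o2206 := fun P h => h.t 2 4 5 5 2 4 1 5 0 3 (by decide +kernel)
def w2207 : PV o2207 := fun P h => h.t 2 4 5 6 0 3 1 4 2 5 (by decide +kernel)
def w2208 : PV o2208 := fun P h => h.t 2 4 5 6 0 4 1 2 3 5 (by decide +kernel)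
def w2209 : PV o2209 := fun P h => h.t 2 4 5 6 0 5 1 2 3 4 (by decide +kernel)
def w2210 : PV o2210 := fun P h => h.t 2 4 5 6 1 2 0 3 4 5 (by decide +kernel)
def w2211 : PV o2211 := fun P h => h.t 2 4 5 6 1 2 3 4 0 5 (by decide +kernel)
def w2212 : PV o2212 := fun P h => h.t 2 4 5 6 2 4 0 3 1 5 (by decide +kernel)
def w2213 : PV o2213 := fun P h => h.t 2 4 5 6 4 5 0 1 2 3 (by decide +kernel)
def w2214 : PV o2214 := fun P h => h.t 2 4 6 5 0 1 3 5 2 4 (by decide +kernel)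
def w2215 : PV o2215 := fun P h => h.t 2 4 6 5 0 2 3 5 1 4 (by decide +kernel)
def w2216 : PV o2216 := fun P h => h.t 2 4 6 5 0 3 4 5 1 2 (by decide +kernel)
def w2217 : PV o2217 := fun P h => h.t 2 4 6 5 0 4 2 3 1 5 (by decide +kernel)
def w2218 : PV o2218 := fun P h => h.t 2 4 6 5 0 4 2 5 1 3 (by decide +kernel)
def w2219 : PV o2219 := fun P h => h.t 2 4 6 5 1 2 3 5 0 4 (by decide +kernel)
def w2220 : PV o2220 := fun P h => h.t 2 4 6 5 1 4 2 5 0 3 (by decide +kernel)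
def w2221 : PV o2221 := fun P h => h.x 2 4 6 15 (by decide +kernel)
def w2222 : PV o2222 := fun P h => h.t 2 4 7 6 3 5 0 4 1 2 (by decide +kernel)
def w2223 : PV o2223 := fun P h => h.t 2 4 7 7 0 2 1 3 4 5 (by decide +kernel)
def w2224 : PV o2224 := fun P h => h.t 2 4 7 7 0 3 1 2 4 5 (by decide +kernel)
def w2225 : PV o2225 := fun P h => h.t 2 4 7 7 1 2 0 3 4 5 (by decide +kernel)
def w2226 : PV o2226 := fun P h => h.t 2 4 7 7 1 2 3 4 0 5 (by decide +kernel)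
def w2227 : PV o2227 := fun P h => h.t 2 4 7 7 1 3 0 2 4 5 (by decide +kernel)
def w2228 : PV o2228 := fun P h => h.t 2 4 7 7 1 5 3 4 0 2 (by decide +kernel)
def w2229 : PV o2229 := fun P h => h.t 2 4 7 7 2 3 0 1 4 5 (by decide +kernel)
def w2230 : PV o2230 := fun P h => h.t 2 4 7 7 3 5 0 2 1 4 (by decide +kernel)
def w2231 : PV o2231 := fun P h => h.x 2 5 1 15 (by decide +kernel)
def w2232 : PV o2232 := fun P h => h.x 2 5 1 0 (by decide +kernel)
def w2233 : PV o2233 := fun P h => h.x 2 5 3 5 (by decide +kernel)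
def w2234 : PV o2234 := fun P h => h.x 2 5 3 4 (by decide +kernel)
def w2235 : PV o2235 := fun P h => h.x 2 5 3 0 (by decide +kernel)
def w2236 : PV o2236 := fun P h => h.x 2 5 4 5 (by decide +kernel)
def w2237 : PV o2237 := fun P h => h.t 2 5 5 5 0 2 1 4 3 5 (by decide +kernel)
def w2238 : PV o2238 := fun P h => h.t 2 5 5 5 0 2 3 5 1 4 (by decide +kernel)
def w2239 : PV o2239 := fun P h => h.t 2 5 5 6 0 1 3 4 2 5 (by decide +kernel)
def w2240 : PV o2240 := fun P h => h.t 2 5 5 6 0 2 1 4 3 5 (by decide +kernel)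
def w2241 : PV o2241 := fun P h => h.t 2 5 5 6 0 2 1 5 3 4 (by decide +kernel)
def w2242 : PV o2242 := fun P h => h.t 2 5 5 6 0 2 3 4 1 5 (by decide +kernel)
def w2243 : PV o2243 := fun P h => h.t 2 5 5 6 0 2 3 5 1 4 (by decide +kernel)
def w2244 : PV o2244 := fun P h => h.t 2 5 5 6 0 2 4 5 1 3 (by decide +kernel)
def w2245 : PV o2245 := fun P h => h.t 2 5 5 6 0 4 1 2 3 5 (by decide +kernel)
def w2246 : PV o2246 := fun P h => h.t 2 5 5 6 0 4 2 5 1 3 (by decide +kernel)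
def w2247 : PV o2247 := fun P h => h.t 2 5 5 6 0 5 2 4 1 3 (by decide +kernel)
def w2248 : PV o2248 := fun P h => h.t 2 5 5 6 2 3 1 5 0 4 (by decide +kernel)
def w2249 : PV o2249 := fun P h => h.t 2 5 5 6 2 4 0 1 3 5 (by decide +kernel)
def w2250 : PV o2250 := fun P h => h.t 2 5 5 6 3 4 0 1 2 5 (by decide +kernel)
def w2251 : PV o2251 := fun P h => h.t 2 5 5 6 3 5 0 4 1 2 (by decide +kernel)
def w2252 : PV o2252 := fun P h => h.t 2 5 5 6 4 5 0 1 2 3 (by decide +kernel)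
def w2253 : PV o2253 := fun P h => h.t 2 5 5 6 4 5 0 2 1 3 (by decide +kernel)
def w2254 : PV o2254 := fun P h => h.t 2 5 5 6 4 5 1 2 0 3 (by decide +kernel)
def w2255 : PV o2255 := fun P h => h.t 2 5 5 6 4 5 1 3 0 2 (by decide +kernel)
def w2256 : PV o2256 := fun P h => h.t 2 5 6 6 0 2 1 4 3 5 (by decide +kernel)
def w2257 : PV o2257 := fun P h => h.t 2 5 6 6 0 2 1 5 3 4 (by decide +kernel)
def w2258 : PV o2258 := fun P h => h.t 2 5 6 6 0 2 3 4 1 5 (by decide +kernel)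
def w2259 : PV o2259 := fun P h => h.t 2 5 6 6 0 2 3 5 1 4 (by decide +kernel)
def w2260 : PV o2260 := fun P h => h.t 2 5 6 6 0 2 4 5 1 3 (by decide +kernel)
def w2261 : PV o2261 := fun P h => h.t 2 5 6 6 0 3 1 2 4 5 (by decide +kernel)
def w2262 : PV o2262 := fun P h => h.t 2 5 6 6 0 3 4 5 1 2 (by decide +kernel)
def w2263 : PV o2263 := fun P h => h.t 2 5 6 6 0 4 1 3 2 5 (by decide +kernel)
def w2264 : PV o2264 := fun P h => h.t 2 5 6 6 0 4 1 5 2 3 (by decide +kernel)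
def w2265 : PV o2265 := fun P h => h.t 2 5 6 6 0 4 2 3 1 5 (by decide +kernel)
def w2266 : PV o2266 := fun P h => h.t 2 5 6 6 0 4 3 5 1 2 (by decide +kernel)
def w2267 : PV o2267 := fun P h => h.t 2 5 6 6 1 2 4 5 0 3 (by decide +kernel)
def w2268 : PV o2268 := fun P h => h.t 2 5 6 6 1 3 0 4 2 5 (by decide +kernel)
def w2269 : PV o2269 := fun P h => h.t 2 5 6 6 1 3 0 5 2 4 (by decide +kernel)
def w2270 : PV o2270 := fun P h => h.t 2 5 6 6 1 3 2 4 0 5 (by decide +kernel)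
def w2271 : PV o2271 := fun P h => h.t 2 5 6 6 1 3 2 5 0 4 (by decide +kernel)
def w2272 : PV o2272 := fun P h => h.t 2 5 6 6 1 4 0 3 2 5 (by decide +kernel)
def w2273 : PV o2273 := fun P h => h.t 2 5 6 6 1 4 0 5 2 3 (by decide +kernel)
def w2274 : PV o2274 := fun P h => h.t 2 5 6 6 1 4 3 5 0 2 (by decide +kernel)
def w2275 : PV o2275 := fun P h => h.t 2 5 6 6 1 5 0 3 2 4 (by decide +kernel)
def w2276 : PV o2276 := fun P h => h.t 2 5 6 6 1 5 0 4 2 3 (by decide +kernel)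
def w2277 : PV o2277 := fun P h => h.t 2 5 6 6 1 5 2 3 0 4 (by decide +kernel)
def w2278 : PV o2278 := fun P h => h.t 2 5 6 6 2 4 0 1 3 5 (by decide +kernel)
def w2279 : PV o2279 := fun P h => h.t 2 5 6 6 2 4 0 3 1 5 (by decide +kernel)
def w2280 : PV o2280 := fun P h => h.t 2 5 6 6 2 4 3 5 0 1 (by decide +kernel)
def w2281 : PV o2281 := fun P h => h.t 2 5 6 6 2 5 0 1 3 4 (by decide +kernel)
def w2282 : PV o2282 := fun P h => h.t 2 5 6 6 3 4 0 2 1 5 (by decide +kernel)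
def w2283 : PV o2283 := fun P h => h.t 2 5 6 6 3 4 0 5 1 2 (by decide +kernel)
def w2284 : PV o2284 := fun P h => h.t 2 5 6 6 3 4 1 5 0 2 (by decide +kernel)
def w2285 : PV o2285 := fun P h => h.t 2 5 6 6 3 5 0 1 2 4 (by decide +kernel)
def w2286 : PV o2286 := fun P h => h.t 2 5 6 6 3 5 0 2 1 4 (by decide +kernel)
def w2287 : PV o2287 := fun P h => h.t 2 5 6 6 3 5 0 4 1 2 (by decide +kernel)
def w2288 : PV o2288 := fun P h => h.t 2 5 6 6 3 5 1 2 0 4 (by decide +kernel)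
def w2289 : PV o2289 := fun P h => h.t 2 5 6 6 3 5 1 4 0 2 (by decide +kernel)
def w2290 : PV o2290 := fun P h => h.t 2 5 6 7 0 3 2 4 1 5 (by decide +kernel)
def w2291 : PV o2291 := fun P h => h.t 2 5 6 7 1 3 2 4 0 5 (by decide +kernel)
def w2292 : PV o2292 := fun P h => h.t 2 5 6 7 1 4 2 3 0 5 (by decide +kernel)
def w2293 : PV o2293 := fun P h => h.t 2 5 6 7 1 5 0 2 3 4 (by decide +kernel)
def w2294 : PV o2294 := fun P h => h.t 2 5 6 7 1 5 2 3 0 4 (by decide +kernel)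
def w2295 : PV o2295 := fun P h => h.t 2 5 6 7 2 3 0 4 1 5 (by decide +kernel)
def w2296 : PV o2296 := fun P h => h.t 2 5 6 7 2 4 1 3 0 5 (by decide +kernel)
def w2297 : PV o2297 := fun P h => h.t 2 5 6 7 2 5 0 1 3 4 (by decide +kernel)
def w2298 : PV o2298 := fun P h => h.t 2 5 6 7 2 5 0 3 1 4 (by decide +kernel)
def w2299 : PV o2299 := fun P h => h.t 2 5 6 7 4 5 1 2 0 3 (by decide +kernel)
def w2300 : PV o2300 := fun P h => h.x 2 5 6 15 (by decide +kernel)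
def w2301 : PV o2301 := fun P h => h.x 2 5 6 13 (by decide +kernel)
def w2302 : PV o2302 := fun P h => h.x 2 5 6 5 (by decide +kernel)
def w2303 : PV o2303 := fun P h => h.x 2 5 6 4 (by decide +kernel)
def w2304 : PV o2304 := fun P h => h.t 2 5 7 6 0 1 2 3 4 5 (by decide +kernel)
def w2305 : PV o2305 := fun P h => h.t 2 5 7 6 0 1 2 4 3 5 (by decide +kernel)
def w2306 : PV o2306 := fun P h => h.t 2 5 7 6 0 2 3 5 1 4 (by decide +kernel)
def w2307 : PV o2307 := fun P h => h.t 2 5 7 6 0 2 4 5 1 3 (by decide +kernel)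
def w2308 : PV o2308 := fun P h => h.t 2 5 7 6 0 3 1 5 2 4 (by decide +kernel)
def w2309 : PV o2309 := fun P h => h.t 2 5 7 6 0 3 2 4 1 5 (by decide +kernel)
def w2310 : PV o2310 := fun P h => h.t 2 5 7 6 0 3 2 5 1 4 (by decide +kernel)
def w2311 : PV o2311 := fun P h => h.t 2 5 7 6 0 4 1 2 3 5 (by decide +kernel)
def w2312 : PV o2312 := fun P h => h.t 2 5 7 6 0 4 2 3 1 5 (by decide +kernel)
def w2313 : PV o2313 := fun P h => h.t 2 5 7 6 1 2 3 5 0 4 (by decide +kernel)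
def w2314 : PV o2314 := fun P h => h.t 2 5 7 6 1 3 0 4 2 5 (by decide +kernel)
def w2315 : PV o2315 := fun P h => h.t 2 5 7 6 1 3 0 5 2 4 (by decide +kernel)
def w2316 : PV o2316 := fun P h => h.t 2 5 7 6 1 3 4 5 0 2 (by decide +kernel)
def w2317 : PV o2317 := fun P h => h.t 2 5 7 6 1 4 0 2 3 5 (by decide +kernel)
def w2318 : PV o2318 := fun P h => h.t 2 5 7 6 1 5 0 3 2 4 (by decide +kernel)
def w2319 : PV o2319 := fun P h => h.t 2 5 7 6 2 4 0 1 3 5 (by decide +kernel)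
def w2320 : PV o2320 := fun P h => h.t 2 5 7 6 2 5 1 3 0 4 (by decide +kernel)
def w2321 : PV o2321 := fun P h => h.t 2 5 7 6 3 5 2 4 0 1 (by decide +kernel)
def w2322 : PV o2322 := fun P h => h.t 2 5 7 6 4 5 1 2 0 3 (by decide +kernel)
def w2323 : PV o2323 := fun P h => h.t 2 5 7 7 0 2 1 3 4 5 (by decide +kernel)
def w2324 : PV o2324 := fun P h => h.t 2 5 7 7 0 3 1 2 4 5 (by decide +kernel)
def w2325 : PV o2325 := fun P h => h.t 2 5 7 7 1 2 0 3 4 5 (by decide +kernel)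
def w2326 : PV o2326 := fun P h => h.t 2 5 7 7 1 3 0 2 4 5 (by decide +kernel)
def w2327 : PV o2327 := fun P h => h.t 2 5 7 7 2 5 0 1 3 4 (by decide +kernel)
def w2328 : PV o2328 := fun P h => h.x 2 5 7 13 (by decide +kernel)
def w2329 : PV o2329 := fun P h => h.x 2 5 7 12 (by decide +kernel)
def w2330 : PV o2330 := fun P h => h.x 2 5 7 5 (by decide +kernel)
def w2331 : PV o2331 := fun P h => h.x 2 5 7 4 (by decide +kernel)
def w2332 : PV o2332 := fun P h => h.x 2 5 7 0 (by decide +kernel)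
def w2333 : PV o2333 := fun P h => h.x 2 6 0 15 (by decide +kernel)
def w2334 : PV o2334 := fun P h => h.x 2 6 3 5 (by decide +kernel)
def w2335 : PV o2335 := fun P h => h.x 2 6 5 15 (by decide +kernel)
def w2336 : PV o2336 := fun P h => h.x 2 6 5 13 (by decide +kernel)
def w2337 : PV o2337 := fun P h => h.x 2 6 5 12 (by decide +kernel)
def w2338 : PV o2338 := fun P h => h.x 2 6 5 5 (by decide +kernel)
def w2339 : PV o2339 := fun P h => h.x 2 6 5 4 (by decide +kernel)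
def w2340 : PV o2340 := fun P h => h.x 2 6 5 0 (by decide +kernel)
def w2341 : PV o2341 := fun P h => h.t 2 6 6 6 0 2 1 4 3 5 (by decide +kernel)
def w2342 : PV o2342 := fun P h => h.t 2 6 6 6 0 2 3 5 1 4 (by decide +kernel)
def w2343 : PV o2343 := fun P h => h.t 2 6 6 7 0 1 2 4 3 5 (by decide +kernel)
def w2344 : PV o2344 := fun P h => h.t 2 6 6 7 0 1 2 5 3 4 (by decide +kernel)
def w2345 : PV o2345 := fun P h => h.t 2 6 6 7 0 1 3 4 2 5 (by decide +kernel)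
def w2346 : PV o2346 := fun P h => h.t 2 6 6 7 0 1 3 5 2 4 (by decide +kernel)
def w2347 : PV o2347 := fun P h => h.t 2 6 6 7 0 3 1 5 2 4 (by decide +kernel)
def w2348 : PV o2348 := fun P h => h.t 2 6 6 7 0 3 2 4 1 5 (by decide +kernel)
def w2349 : PV o2349 := fun P h => h.t 2 6 6 7 0 3 2 5 1 4 (by decide +kernel)
def w2350 : PV o2350 := fun P h => h.t 2 6 6 7 0 4 2 3 1 5 (by decide +kernel)
def w2351 : PV o2351 := fun P h => h.t 2 6 6 7 0 5 2 4 1 3 (by decide +kernel)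
def w2352 : PV o2352 := fun P h => h.t 2 6 6 7 1 2 0 4 3 5 (by decide +kernel)
def w2353 : PV o2353 := fun P h => h.t 2 6 6 7 1 2 4 5 0 3 (by decide +kernel)
def w2354 : PV o2354 := fun P h => h.t 2 6 6 7 1 3 0 5 2 4 (by decide +kernel)
def w2355 : PV o2355 := fun P h => h.t 2 6 6 7 1 4 0 2 3 5 (by decide +kernel)
def w2356 : PV o2356 := fun P h => h.t 2 6 6 7 1 5 2 3 0 4 (by decide +kernel)
def w2357 : PV o2357 := fun P h => h.t 2 6 6 7 2 3 0 4 1 5 (by decide +kernel)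
def w2358 : PV o2358 := fun P h => h.t 2 6 6 7 2 3 1 5 0 4 (by decide +kernel)
def w2359 : PV o2359 := fun P h => h.t 2 6 6 7 2 4 0 5 1 3 (by decide +kernel)
def w2360 : PV o2360 := fun P h => h.t 2 6 6 7 2 5 1 3 0 4 (by decide +kernel)
def w2361 : PV o2361 := fun P h => h.t 2 6 6 7 3 5 0 4 1 2 (by decide +kernel)
def w2362 : PV o2362 := fun P h => h.t 2 6 6 7 4 5 1 2 0 3 (by decide +kernel)
def w2363 : PV o2363 := fun P h => h.t 2 6 7 7 0 2 1 3 4 5 (by decide +kernel)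
def w2364 : PV o2364 := fun P h => h.t 2 6 7 7 0 3 1 2 4 5 (by decide +kernel)
def w2365 : PV o2365 := fun P h => h.t 2 6 7 7 0 4 1 5 2 3 (by decide +kernel)
def w2366 : PV o2366 := fun P h => h.t 2 6 7 7 0 4 2 3 1 5 (by decide +kernel)
def w2367 : PV o2367 := fun P h => h.t 2 6 7 7 1 2 0 3 4 5 (by decide +kernel)
def w2368 : PV o2368 := fun P h => h.t 2 6 7 7 1 2 0 4 3 5 (by decide +kernel)
def w2369 : PV o2369 := fun P h => h.t 2 6 7 7 1 2 3 4 0 5 (by decide +kernel)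
def w2370 : PV o2370 := fun P h => h.t 2 6 7 7 1 3 0 2 4 5 (by decide +kernel)
def w2371 : PV o2371 := fun P h => h.t 2 6 7 7 1 3 0 4 2 5 (by decide +kernel)
def w2372 : PV o2372 := fun P h => h.t 2 6 7 7 1 3 0 5 2 4 (by decide +kernel)
def w2373 : PV o2373 := fun P h => h.t 2 6 7 7 1 3 2 4 0 5 (by decide +kernel)
def w2374 : PV o2374 := fun P h => h.t 2 6 7 7 1 4 2 3 0 5 (by decide +kernel)
def w2375 : PV o2375 := fun P h => h.t 2 6 7 7 1 5 0 2 3 4 (by decide +kernel)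
def w2376 : PV o2376 := fun P h => h.t 2 6 7 7 1 5 0 4 2 3 (by decide +kernel)
def w2377 : PV o2377 := fun P h => h.t 2 6 7 7 1 5 2 3 0 4 (by decide +kernel)
def w2378 : PV o2378 := fun P h => h.t 2 6 7 7 2 3 0 1 4 5 (by decide +kernel)
def w2379 : PV o2379 := fun P h => h.t 2 6 7 7 2 4 0 3 1 5 (by decide +kernel)
def w2380 : PV o2380 := fun P h => h.t 2 6 7 7 2 4 0 5 1 3 (by decide +kernel)
def w2381 : PV o2381 := fun P h => h.t 2 6 7 7 2 4 1 3 0 5 (by decide +kernel)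
def w2382 : PV o2382 := fun P h => h.t 2 6 7 7 2 4 3 5 0 1 (by decide +kernel)
def w2383 : PV o2383 := fun P h => h.t 2 6 7 7 2 5 3 4 0 1 (by decide +kernel)
def w2384 : PV o2384 := fun P h => h.t 2 6 7 7 3 4 1 2 0 5 (by decide +kernel)
def w2385 : PV o2385 := fun P h => h.t 2 6 7 7 3 4 2 5 0 1 (by decide +kernel)
def w2386 : PV o2386 := fun P h => h.x 2 6 7 15 (by decide +kernel)
def w2387 : PV o2387 := fun P h => h.x 2 6 7 13 (by decide +kernel)
def w2388 : PV o2388 := fun P h => h.x 2 6 7 5 (by decide +kernel)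
def w2389 : PV o2389 := fun P h => h.x 2 6 7 4 (by decide +kernel)
def w2390 : PV o2390 := fun P h => h.x 2 7 0 15 (by decide +kernel)
def w2391 : PV o2391 := fun P h => h.x 2 7 0 5 (by decide +kernel)
def w2392 : PV o2392 := fun P h => h.x 2 7 0 0 (by decide +kernel)
def w2393 : PV o2393 := fun P h => h.x 2 7 1 15 (by decide +kernel)
def w2394 : PV o2394 := fun P h => h.x 2 7 2 13 (by decide +kernel)
def w2395 : PV o2395 := fun P h => h.x 2 7 2 5 (by decide +kernel)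
def w2396 : PV o2396 := fun P h => h.x 2 7 2 0 (by decide +kernel)
def w2397 : PV o2397 := fun P h => h.x 2 7 3 5 (by decide +kernel)
def w2398 : PV o2398 := fun P h => h.x 2 7 4 15 (by decide +kernel)
def w2399 : PV o2399 := fun P h => h.x 2 7 4 0 (by decide +kernel)

end Pool.Agent.BDD.A
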