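import Pool.Agent.BDD.AC
import Pool.Agent.BDD.AE0

set_option autoImplicit false
set_option linter.all false

namespace Pool.Agent.BDD.A

def w2400 : PV o2400 := fun P h => h.x 2 7 5 12 (by decide +kernel)
def w2401 : PV o2401 := fun P h => h.x 2 7 5 5 (by decide +kernel)
def w2402 : PV o2402 := fun P h => h.x 2 7 5 0 (by decide +kernel)
def w2403 : PV o2403 := fun P h => h.x 2 7 6 15 (by decide +kernel)
def w2404 : PV o2404 := fun P h => h.x 2 7 6 0 (by decide +kernel)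
def w2405 : PV o2405 := fun P h => h.t 2 7 7 7 0 2 1 4 3 5 (by decide +kernel)
def w2406 : PV o2406 := fun P h => h.t 2 7 7 7 0 2 3 5 1 4 (by decide +kernel)
def w2407 : PV o2407 := fun P h => h.t 3 0 0 0 0 2 1 4 3 5 (by decide +kernel)
def w2408 : PV o2408 := fun P h => h.t 3 0 0 0 0 2 3 5 1 4 (by decide +kernel)
def w2409 : PV o2409 := fun P h => h.t 3 0 0 1 0 1 3 4 2 5 (by decide +kernel)
def w2410 : PV o2410 := fun P h => h.t 3 0 0 1 0 2 1 4 3 5 (by decide +kernel)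
def w2411 : PV o2411 := fun P h => h.t 3 0 0 1 0 2 1 5 3 4 (by decide +kernel)
def w2412 : PV o2412 := fun P h => h.t 3 0 0 1 0 2 3 5 1 4 (by decide +kernel)
def w2413 : PV o2413 := fun P h => h.t 3 0 0 1 0 3 1 5 2 4 (by decide +kernel)
def w2414 : PV o2414 := fun P h => h.t 3 0 0 1 0 4 1 2 3 5 (by decide +kernel)
def w2415 : PV o2415 := fun P h => h.t 3 0 0 1 0 4 2 3 1 5 (by decide +kernel)
def w2416 : PV o2416 := fun P h => h.t 3 0 0 1 0 4 2 5 1 3 (by decide +kernel)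
def w2417 : PV o2417 := fun P h => h.t 3 0 0 1 0 5 1 3 2 4 (by decide +kernel)
def w2418 : PV o2418 := fun P h => h.t 3 0 0 1 0 5 2 3 1 4 (by decide +kernel)
def w2419 : PV o2419 := fun P h => h.t 3 0 0 1 1 2 0 4 3 5 (by decide +kernel)
def w2420 : PV o2420 := fun P h => h.t 3 0 0 1 1 3 0 5 2 4 (by decide +kernel)
def w2421 : PV o2421 := fun P h => h.t 3 0 0 1 1 4 0 2 3 5 (by decide +kernel)
def w2422 : PV o2422 := fun P h => h.t 3 0 0 1 1 5 0 2 3 4 (by decide +kernel)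
def w2423 : PV o2423 := fun P h => h.t 3 0 0 1 1 5 0 3 2 4 (by decide +kernel)
def w2424 : PV o2424 := fun P h => h.t 3 0 0 1 2 3 0 4 1 5 (by decide +kernel)
def w2425 : PV o2425 := fun P h => h.t 3 0 0 1 2 4 0 3 1 5 (by decide +kernel)
def w2426 : PV o2426 := fun P h => h.t 3 0 0 1 2 5 0 4 1 3 (by decide +kernel)
def w2427 : PV o2427 := fun P h => h.t 3 0 0 1 3 4 0 2 1 5 (by decide +kernel)
def w2428 : PV o2428 := fun P h => h.t 3 0 0 1 3 4 0 5 1 2 (by decide +kernel)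
def w2429 : PV o2429 := fun P h => h.t 3 0 0 1 3 5 0 4 1 2 (by decide +kernel)
def w2430 : PV o2430 := fun P h => h.t 3 0 0 1 4 5 0 2 1 3 (by decide +kernel)
def w2431 : PV o2431 := fun P h => h.t 3 0 0 1 4 5 0 3 1 2 (by decide +kernel)
def w2432 : PV o2432 := fun P h => h.t 3 0 0 1 4 5 1 2 0 3 (by decide +kernel)
def w2433 : PV o2433 := fun P h => h.t 3 0 0 2 0 3 1 5 2 4 (by decide +kernel)
def w2434 : PV o2434 := fun P h => h.t 3 0 0 2 0 4 2 5 1 3 (by decide +kernel)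
def w2435 : PV o2435 := fun P h => h.t 3 0 0 2 1 2 3 5 0 4 (by decide +kernel)
def w2436 : PV o2436 := fun P h => h.t 3 0 0 4 1 2 0 4 3 5 (by decide +kernel)
def w2437 : PV o2437 := fun P h => h.t 3 0 0 4 1 4 0 2 3 5 (by decide +kernel)
def w2438 : PV o2438 := fun P h => h.t 3 0 0 6 0 1 2 5 3 4 (by decide +kernel)
def w2439 : PV o2439 := fun P h => h.t 3 0 0 6 0 1 4 5 2 3 (by decide +kernel)
def w2440 : PV o2440 := fun P h => h.t 3 0 0 6 1 2 0 5 3 4 (by decide +kernel)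
def w2441 : PV o2441 := fun P h => h.t 3 0 0 7 1 5 2 3 0 4 (by decide +kernel)
def w2442 : PV o2442 := fun P h => h.t 3 0 1 1 0 2 1 3 4 5 (by decide +kernel)
def w2443 : PV o2443 := fun P h => h.t 3 0 1 1 0 2 1 5 3 4 (by decide +kernel)
def w2444 : PV o2444 := fun P h => h.t 3 0 1 1 0 2 3 4 1 5 (by decide +kernel)
def w2445 : PV o2445 := fun P h => h.t 3 0 1 1 0 2 3 5 1 4 (by decide +kernel)
def w2446 : PV o2446 := fun P h => h.t 3 0 1 1 0 2 4 5 1 3 (by decide +kernel)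
def w2447 : PV o2447 := fun P h => h.t 3 0 1 1 0 3 1 2 4 5 (by decide +kernel)
def w2448 : PV o2448 := fun P h => h.t 3 0 1 1 0 3 4 5 1 2 (by decide +kernel)
def w2449 : PV o2449 := fun P h => h.t 3 0 1 1 0 4 1 2 3 5 (by decide +kernel)
def w2450 : PV o2450 := fun P h => h.t 3 0 1 1 0 4 1 5 2 3 (by decide +kernel)
def w2451 : PV o2451 := fun P h => h.t 3 0 1 1 0 4 2 3 1 5 (by decide +kernel)
def w2452 : PV o2452 := fun P h => h.t 3 0 1 1 0 4 2 5 1 3 (by decide +kernel)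
def w2453 : PV o2453 := fun P h => h.t 3 0 1 1 1 2 0 3 4 5 (by decide +kernel)
def w2454 : PV o2454 := fun P h => h.t 3 0 1 1 1 2 0 5 3 4 (by decide +kernel)
def w2455 : PV o2455 := fun P h => h.t 3 0 1 1 1 2 3 4 0 5 (by decide +kernel)
def w2456 : PV o2456 := fun P h => h.t 3 0 1 1 1 2 3 5 0 4 (by decide +kernel)
def w2457 : PV o2457 := fun P h => h.t 3 0 1 1 1 2 4 5 0 3 (by decide +kernel)
def w2458 : PV o2458 := fun P h => h.t 3 0 1 1 1 3 0 2 4 5 (by decide +kernel)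
def w2459 : PV o2459 := fun P h => h.t 3 0 1 1 1 3 0 4 2 5 (by decide +kernel)
def w2460 : PV o2460 := fun P h => h.t 3 0 1 1 1 3 0 5 2 4 (by decide +kernel)
def w2461 : PV o2461 := fun P h => h.t 3 0 1 1 1 3 2 4 0 5 (by decide +kernel)
def w2462 : PV o2462 := fun P h => h.t 3 0 1 1 1 3 2 5 0 4 (by decide +kernel)
def w2463 : PV o2463 := fun P h => h.t 3 0 1 1 1 4 0 2 3 5 (by decide +kernel)
def w2464 : PV o2464 := fun P h => h.t 3 0 1 1 1 4 0 5 2 3 (by decide +kernel)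
def w2465 : PV o2465 := fun P h => h.t 3 0 1 1 1 4 2 3 0 5 (by decide +kernel)
def w2466 : PV o2466 := fun P h => h.t 3 0 1 1 1 4 2 5 0 3 (by decide +kernel)
def w2467 : PV o2467 := fun P h => h.t 3 0 1 1 1 5 0 2 3 4 (by decide +kernel)
def w2468 : PV o2468 := fun P h => h.t 3 0 1 1 1 5 0 4 2 3 (by decide +kernel)
def w2469 : PV o2469 := fun P h => h.t 3 0 1 1 1 5 2 3 0 4 (by decide +kernel)
def w2470 : PV o2470 := fun P h => h.t 3 0 1 1 1 5 2 4 0 3 (by decide +kernel)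
def w2471 : PV o2471 := fun P h => h.t 3 0 1 1 2 3 0 1 4 5 (by decide +kernel)
def w2472 : PV o2472 := fun P h => h.t 3 0 1 1 2 4 0 1 3 5 (by decide +kernel)
def w2473 : PV o2473 := fun P h => h.t 3 0 1 1 2 4 0 3 1 5 (by decide +kernel)
def w2474 : PV o2474 := fun P h => h.t 3 0 1 1 2 4 0 5 1 3 (by decide +kernel)
def w2475 : PV o2475 := fun P h => h.t 3 0 1 1 2 4 1 3 0 5 (by decide +kernel)
def w2476 : PV o2476 := fun P h => h.t 3 0 1 1 2 4 1 5 0 3 (by decide +kernel)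
def w2477 : PV o2477 := fun P h => h.t 3 0 1 1 2 4 3 5 0 1 (by decide +kernel)
def w2478 : PV o2478 := fun P h => h.t 3 0 1 1 3 4 0 1 2 5 (by decide +kernel)
def w2479 : PV o2479 := fun P h => h.t 3 0 1 1 3 4 0 5 1 2 (by decide +kernel)
def w2480 : PV o2480 := fun P h => h.t 3 0 1 1 3 4 1 2 0 5 (by decide +kernel)
def w2481 : PV o2481 := fun P h => h.t 3 0 1 1 3 4 1 5 0 2 (by decide +kernel)
def w2482 : PV o2482 := fun P h => h.t 3 0 1 2 0 3 1 5 2 4 (by decide +kernel)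
def w2483 : PV o2483 := fun P h => h.t 3 0 1 2 0 4 1 5 2 3 (by decide +kernel)
def w2484 : PV o2484 := fun P h => h.t 3 0 1 2 0 5 1 4 2 3 (by decide +kernel)
def w2485 : PV o2485 := fun P h => h.t 3 0 1 2 1 3 2 5 0 4 (by decide +kernel)
def w2486 : PV o2486 := fun P h => h.t 3 0 1 2 2 3 4 5 0 1 (by decide +kernel)
def w2487 : PV o2487 := fun P h => h.t 3 0 1 3 0 1 4 5 2 3 (by decide +kernel)
def w2488 : PV o2488 := fun P h => h.t 3 0 1 3 0 2 1 3 4 5 (by decide +kernel)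
def w2489 : PV o2489 := fun P h => h.t 3 0 1 3 0 2 1 4 3 5 (by decide +kernel)
def w2490 : PV o2490 := fun P h => h.t 3 0 1 3 0 2 4 5 1 3 (by decide +kernel)
def w2491 : PV o2491 := fun P h => h.t 3 0 1 3 0 3 1 2 4 5 (by decide +kernel)
def w2492 : PV o2492 := fun P h => h.t 3 0 1 3 0 3 1 4 2 5 (by decide +kernel)
def w2493 : PV o2493 := fun P h => h.t 3 0 1 3 0 3 2 4 1 5 (by decide +kernel)
def w2494 : PV o2494 := fun P h => h.t 3 0 1 3 0 4 2 3 1 5 (by decide +kernel)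
def w2495 : PV o2495 := fun P h => h.t 3 0 1 3 0 4 3 5 1 2 (by decide +kernel)
def w2496 : PV o2496 := fun P h => h.t 3 0 1 3 1 2 0 3 4 5 (by decide +kernel)
def w2497 : PV o2497 := fun P h => h.t 3 0 1 3 1 2 0 4 3 5 (by decide +kernel)
def w2498 : PV o2498 := fun P h => h.t 3 0 1 3 1 2 4 5 0 3 (by decide +kernel)
def w2499 : PV o2499 := fun P h => h.t 3 0 1 3 1 3 0 2 4 5 (by decide +kernel)
def w2500 : PV o2500 := fun P h => h.t 3 0 1 3 1 3 0 4 2 5 (by decide +kernel)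
def w2501 : PV o2501 := fun P h => h.t 3 0 1 3 1 3 2 4 0 5 (by decide +kernel)
def w2502 : PV o2502 := fun P h => h.t 3 0 1 3 1 4 0 3 2 5 (by decide +kernel)
def w2503 : PV o2503 := fun P h => h.t 3 0 1 3 1 4 2 3 0 5 (by decide +kernel)
def w2504 : PV o2504 := fun P h => h.t 3 0 1 3 1 4 3 5 0 2 (by decide +kernel)
def w2505 : PV o2505 := fun P h => h.t 3 0 1 3 2 3 0 1 4 5 (by decide +kernel)
def w2506 : PV o2506 := fun P h => h.t 3 0 1 3 2 3 0 4 1 5 (by decide +kernel)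
def w2507 : PV o2507 := fun P h => h.t 3 0 1 3 2 3 1 4 0 5 (by decide +kernel)
def w2508 : PV o2508 := fun P h => h.t 3 0 1 3 2 4 0 1 3 5 (by decide +kernel)
def w2509 : PV o2509 := fun P h => h.t 3 0 1 3 3 4 0 1 2 5 (by decide +kernel)
def w2510 : PV o2510 := fun P h => h.t 3 0 1 4 0 2 1 5 3 4 (by decide +kernel)
def w2511 : PV o2511 := fun P h => h.t 3 0 1 4 0 3 1 5 2 4 (by decide +kernel)
def w2512 : PV o2512 := fun P h => h.t 3 0 1 4 1 2 0 4 3 5 (by decide +kernel)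
def w2513 : PV o2513 := fun P h => h.t 3 0 1 4 1 2 0 5 3 4 (by decide +kernel)
def w2514 : PV o2514 := fun P h => h.t 3 0 1 4 1 2 4 5 0 3 (by decide +kernel)
def w2515 : PV o2515 := fun P h => h.t 3 0 1 4 1 4 0 3 2 5 (by decide +kernel)
def w2516 : PV o2516 := fun P h => h.t 3 0 1 5 0 1 2 3 4 5 (by decide +kernel)
def w2517 : PV o2517 := fun P h => h.t 3 0 1 5 0 2 1 5 3 4 (by decide +kernel)
def w2518 : PV o2518 := fun P h => h.t 3 0 1 5 0 4 3 5 1 2 (by decide +kernel)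
def w2519 : PV o2519 := fun P h => h.t 3 0 1 5 0 5 1 2 3 4 (by decide +kernel)
def w2520 : PV o2520 := fun P h => h.t 3 0 1 5 2 3 4 5 0 1 (by decide +kernel)
def w2521 : PV o2521 := fun P h => h.t 3 0 1 6 0 1 2 5 3 4 (by decide +kernel)
def w2522 : PV o2522 := fun P h => h.t 3 0 1 6 0 1 3 5 2 4 (by decide +kernel)
def w2523 : PV o2523 := fun P h => h.t 3 0 1 6 0 1 4 5 2 3 (by decide +kernel)
def w2524 : PV o2524 := fun P h => h.t 3 0 1 6 0 2 1 4 3 5 (by decide +kernel)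
def w2525 : PV o2525 := fun P h => h.t 3 0 1 6 0 2 1 5 3 4 (by decide +kernel)
def w2526 : PV o2526 := fun P h => h.t 3 0 1 6 0 3 1 2 4 5 (by decide +kernel)
def w2527 : PV o2527 := fun P h => h.t 3 0 1 6 0 3 2 5 1 4 (by decide +kernel)
def w2528 : PV o2528 := fun P h => h.t 3 0 1 6 0 3 4 5 1 2 (by decide +kernel)
def w2529 : PV o2529 := fun P h => h.t 3 0 1 6 0 4 2 5 1 3 (by decide +kernel)
def w2530 : PV o2530 := fun P h => h.t 3 0 1 6 0 4 3 5 1 2 (by decide +kernel)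
def w2531 : PV o2531 := fun P h => h.t 3 0 1 6 0 5 2 4 1 3 (by decide +kernel)
def w2532 : PV o2532 := fun P h => h.t 3 0 1 6 1 2 0 5 3 4 (by decide +kernel)
def w2533 : PV o2533 := fun P h => h.t 3 0 1 6 1 3 2 4 0 5 (by decide +kernel)
def w2534 : PV o2534 := fun P h => h.t 3 0 1 6 1 3 2 5 0 4 (by decide +kernel)
def w2535 : PV o2535 := fun P h => h.t 3 0 1 6 1 3 4 5 0 2 (by decide +kernel)
def w2536 : PV o2536 := fun P h => h.t 3 0 1 6 1 4 0 5 2 3 (by decide +kernel)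
def w2537 : PV o2537 := fun P h => h.t 3 0 1 6 1 4 2 3 0 5 (by decide +kernel)
def w2538 : PV o2538 := fun P h => h.t 3 0 1 6 1 4 2 5 0 3 (by decide +kernel)
def w2539 : PV o2539 := fun P h => h.t 3 0 1 6 2 3 1 5 0 4 (by decide +kernel)
def w2540 : PV o2540 := fun P h => h.t 3 0 1 6 2 3 4 5 0 1 (by decide +kernel)
def w2541 : PV o2541 := fun P h => h.t 3 0 1 6 2 4 0 3 1 5 (by decide +kernel)
def w2542 : PV o2542 := fun P h => h.t 3 0 1 6 2 4 3 5 0 1 (by decide +kernel)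
def w2543 : PV o2543 := fun P h => h.t 3 0 1 6 3 4 1 5 0 2 (by decide +kernel)
def w2544 : PV o2544 := fun P h => h.t 3 0 1 6 3 4 2 5 0 1 (by decide +kernel)
def w2545 : PV o2545 := fun P h => h.t 3 0 1 6 4 5 2 3 0 1 (by decide +kernel)
def w2546 : PV o2546 := fun P h => h.t 3 0 1 7 0 1 2 4 3 5 (by decide +kernel)
def w2547 : PV o2547 := fun P h => h.t 3 0 1 7 0 1 2 5 3 4 (by decide +kernel)
def w2548 : PV o2548 := fun P h => h.t 3 0 1 7 0 1 4 5 2 3 (by decide +kernel)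
def w2549 : PV o2549 := fun P h => h.t 3 0 1 7 0 2 1 3 4 5 (by decide +kernel)
def w2550 : PV o2550 := fun P h => h.t 3 0 1 7 0 2 3 4 1 5 (by decide +kernel)
def w2551 : PV o2551 := fun P h => h.t 3 0 1 7 0 3 1 4 2 5 (by decide +kernel)
def w2552 : PV o2552 := fun P h => h.t 3 0 1 7 0 3 2 4 1 5 (by decide +kernel)
def w2553 : PV o2553 := fun P h => h.t 3 0 1 7 0 3 4 5 1 2 (by decide +kernel)
def w2554 : PV o2554 := fun P h => h.t 3 0 1 7 0 4 1 5 2 3 (by decide +kernel)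
def w2555 : PV o2555 := fun P h => h.t 3 0 1 7 0 4 3 5 1 2 (by decide +kernel)
def w2556 : PV o2556 := fun P h => h.t 3 0 1 7 1 2 0 3 4 5 (by decide +kernel)
def w2557 : PV o2557 := fun P h => h.t 3 0 1 7 1 3 2 4 0 5 (by decide +kernel)
def w2558 : PV o2558 := fun P h => h.t 3 0 1 7 1 3 2 5 0 4 (by decide +kernel)
def w2559 : PV o2559 := fun P h => h.t 3 0 1 7 1 4 2 5 0 3 (by decide +kernel)
def w2560 : PV o2560 := fun P h => h.t 3 0 1 7 1 4 3 5 0 2 (by decide +kernel)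
def w2561 : PV o2561 := fun P h => h.t 3 0 1 7 1 5 2 3 0 4 (by decide +kernel)
def w2562 : PV o2562 := fun P h => h.t 3 0 1 7 2 3 4 5 0 1 (by decide +kernel)
def w2563 : PV o2563 := fun P h => h.t 3 0 1 7 2 4 3 5 0 1 (by decide +kernel)
def w2564 : PV o2564 := fun P h => h.t 3 0 1 7 2 5 0 1 3 4 (by decide +kernel)
def w2565 : PV o2565 := fun P h => h.t 3 0 1 7 3 4 1 5 0 2 (by decide +kernel)
def w2566 : PV o2566 := fun P h => h.t 3 0 1 7 3 4 2 5 0 1 (by decide +kernel)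
def w2567 : PV o2567 := fun P h => h.t 3 0 1 7 4 5 0 1 2 3 (by decide +kernel)
def w2568 : PV o2568 := fun P h => h.x 3 0 1 15 (by decide +kernel)
def w2569 : PV o2569 := fun P h => h.x 3 0 1 13 (by decide +kernel)
def w2570 : PV o2570 := fun P h => h.x 3 0 1 12 (by decide +kernel)
def w2571 : PV o2571 := fun P h => h.x 3 0 1 5 (by decide +kernel)
def w2572 : PV o2572 := fun P h => h.x 3 0 1 0 (by decide +kernel)
def w2573 : PV o2573 := fun P h => h.t 3 0 2 1 0 1 2 3 4 5 (by decide +kernel)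
def w2574 : PV o2574 := fun P h => h.t 3 0 2 1 0 4 1 2 3 5 (by decide +kernel)
def w2575 : PV o2575 := fun P h => h.t 3 0 2 1 1 4 0 2 3 5 (by decide +kernel)
def w2576 : PV o2576 := fun P h => h.t 3 0 2 1 2 4 0 3 1 5 (by decide +kernel)
def w2577 : PV o2577 := fun P h => h.t 3 0 2 1 2 5 0 4 1 3 (by decide +kernel)
def w2578 : PV o2578 := fun P h => h.t 3 0 2 1 2 5 1 4 0 3 (by decide +kernel)
def w2579 : PV o2579 := fun P h => h.t 3 0 2 1 3 5 2 4 0 1 (by decide +kernel)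
def w2580 : PV o2580 := fun P h => h.t 3 0 2 2 1 4 2 3 0 5 (by decide +kernel)
def w2581 : PV o2581 := fun P h => h.t 3 0 2 2 2 4 1 3 0 5 (by decide +kernel)
def w2582 : PV o2582 := fun P h => h.t 3 0 2 3 0 1 3 4 2 5 (by decide +kernel)
def w2583 : PV o2583 := fun P h => h.t 3 0 2 3 0 2 1 4 3 5 (by decide +kernel)
def w2584 : PV o2584 := fun P h => h.t 3 0 2 3 0 3 2 4 1 5 (by decide +kernel)
def w2585 : PV o2585 := fun P h => h.t 3 0 2 3 0 4 2 3 1 5 (by decide +kernel)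
def w2586 : PV o2586 := fun P h => h.t 3 0 2 3 1 3 2 4 0 5 (by decide +kernel)
def w2587 : PV o2587 := fun P h => h.t 3 0 2 6 3 4 0 5 1 2 (by decide +kernel)
def w2588 : PV o2588 := fun P h => h.t 3 0 3 1 0 1 2 3 4 5 (by decide +kernel)
def w2589 : PV o2589 := fun P h => h.t 3 0 3 1 0 2 3 4 1 5 (by decide +kernel)
def w2590 : PV o2590 := fun P h => h.t 3 0 3 1 0 3 1 2 4 5 (by decide +kernel)
def w2591 : PV o2591 := fun P h => h.t 3 0 3 1 0 4 1 2 3 5 (by decide +kernel)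
def w2592 : PV o2592 := fun P h => h.t 3 0 3 1 0 4 2 3 1 5 (by decide +kernel)
def w2593 : PV o2593 := fun P h => h.t 3 0 3 1 0 5 1 2 3 4 (by decide +kernel)
def w2594 : PV o2594 := fun P h => h.t 3 0 3 1 1 2 3 4 0 5 (by decide +kernel)
def w2595 : PV o2595 := fun P h => h.t 3 0 3 1 1 2 4 5 0 3 (by decide +kernel)
def w2596 : PV o2596 := fun P h => h.t 3 0 3 1 1 4 2 3 0 5 (by decide +kernel)
def w2597 : PV o2597 := fun P h => h.t 3 0 3 1 2 3 0 1 4 5 (by decide +kernel)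
def w2598 : PV o2598 := fun P h => h.t 3 0 3 1 2 4 0 1 3 5 (by decide +kernel)
def w2599 : PV o2599 := fun P h => h.t 3 0 3 1 2 5 0 1 3 4 (by decide +kernel)
def w2600 : PV o2600 := fun P h => h.t 3 0 3 1 3 4 0 1 2 5 (by decide +kernel)
def w2601 : PV o2601 := fun P h => h.t 3 0 3 2 0 2 3 5 1 4 (by decide +kernel)
def w2602 : PV o2602 := fun P h => h.t 3 0 3 2 0 5 1 2 3 4 (by decide +kernel)
def w2603 : PV o2603 := fun P h => h.t 3 0 3 2 0 5 2 3 1 4 (by decide +kernel)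
def w2604 : PV o2604 := fun P h => h.t 3 0 3 2 0 5 3 4 1 2 (by decide +kernel)
def w2605 : PV o2605 := fun P h => h.t 3 0 3 2 3 4 0 1 2 5 (by decide +kernel)
def w2606 : PV o2606 := fun P h => h.t 3 0 3 2 3 5 0 1 2 4 (by decide +kernel)
def w2607 : PV o2607 := fun P h => h.t 3 0 3 3 0 2 1 5 3 4 (by decide +kernel)
def w2608 : PV o2608 := fun P h => h.t 3 0 3 3 0 4 1 2 3 5 (by decide +kernel)
def w2609 : PV o2609 := fun P h => h.t 3 0 3 3 0 4 1 5 2 3 (by decide +kernel)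
def w2610 : PV o2610 := fun P h => h.t 3 0 3 3 1 2 0 5 3 4 (by decide +kernel)
def w2611 : PV o2611 := fun P h => h.t 3 0 3 3 1 4 0 5 2 3 (by decide +kernel)
def w2612 : PV o2612 := fun P h => h.t 3 0 3 3 2 4 0 3 1 5 (by decide +kernel)
def w2613 : PV o2613 := fun P h => h.t 3 0 3 3 2 4 0 5 1 3 (by decide +kernel)
def w2614 : PV o2614 := fun P h => h.t 3 0 3 3 3 4 0 1 2 5 (by decide +kernel)
def w2615 : PV o2615 := fun P h => h.t 3 0 3 3 3 4 0 5 1 2 (by decide +kernel)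
def w2616 : PV o2616 := fun P h => h.t 3 0 3 5 0 1 2 3 4 5 (by decide +kernel)
def w2617 : PV o2617 := fun P h => h.t 3 0 3 6 0 1 2 3 4 5 (by decide +kernel)
def w2618 : PV o2618 := fun P h => h.t 3 0 3 6 0 3 1 2 4 5 (by decide +kernel)
def w2619 : PV o2619 := fun P h => h.t 3 0 3 6 0 4 1 2 3 5 (by decide +kernel)
def w2620 : PV o2620 := fun P h => h.t 3 0 3 6 1 4 0 5 2 3 (by decide +kernel)
def w2621 : PV o2621 := fun P h => h.t 3 0 3 6 2 3 0 1 4 5 (by decide +kernel)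
def w2622 : PV o2622 := fun P h => h.t 3 0 3 6 2 4 0 1 3 5 (by decide +kernel)
def w2623 : PV o2623 := fun P h => h.t 3 0 3 6 2 5 3 4 0 1 (by decide +kernel)
def w2624 : PV o2624 := fun P h => h.t 3 0 3 6 3 4 0 1 2 5 (by decide +kernel)
def w2625 : PV o2625 := fun P h => h.t 3 0 3 6 4 5 0 1 2 3 (by decide +kernel)
def w2626 : PV o2626 := fun P h => h.x 3 0 3 15 (by decide +kernel)
def w2627 : PV o2627 := fun P h => h.x 3 0 3 12 (by decide +kernel)
def w2628 : PV o2628 := fun P h => h.x 3 0 3 0 (by decide +kernel)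
def w2629 : PV o2629 := fun P h => h.t 3 0 5 1 0 1 3 5 2 4 (by decide +kernel)
def w2630 : PV o2630 := fun P h => h.t 3 0 5 1 0 2 3 4 1 5 (by decide +kernel)
def w2631 : PV o2631 := fun P h => h.t 3 0 5 1 0 4 2 3 1 5 (by decide +kernel)
def w2632 : PV o2632 := fun P h => h.t 3 0 5 1 3 5 0 1 2 4 (by decide +kernel)
def w2633 : PV o2633 := fun P h => h.t 3 0 5 6 0 1 2 4 3 5 (by decide +kernel)
def w2634 : PV o2634 := fun P h => h.t 3 0 5 6 0 4 1 3 2 5 (by decide +kernel)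
def w2635 : PV o2635 := fun P h => h.t 3 0 6 1 0 1 2 3 4 5 (by decide +kernel)
def w2636 : PV o2636 := fun P h => h.t 3 0 6 1 0 1 2 4 3 5 (by decide +kernel)
def w2637 : PV o2637 := fun P h => h.t 3 0 6 1 0 2 3 4 1 5 (by decide +kernel)
def w2638 : PV o2638 := fun P h => h.t 3 0 6 1 0 3 1 2 4 5 (by decide +kernel)
def w2639 : PV o2639 := fun P h => h.t 3 0 6 1 0 3 1 5 2 4 (by decide +kernel)
def w2640 : PV o2640 := fun P h => h.t 3 0 6 1 0 4 2 3 1 5 (by decide +kernel)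
def w2641 : PV o2641 := fun P h => h.t 3 0 6 1 0 5 1 3 2 4 (by decide +kernel)
def w2642 : PV o2642 := fun P h => h.t 3 0 6 1 0 5 2 3 1 4 (by decide +kernel)
def w2643 : PV o2643 := fun P h => h.t 3 0 6 1 1 2 0 4 3 5 (by decide +kernel)
def w2644 : PV o2644 := fun P h => h.t 3 0 6 1 1 2 3 4 0 5 (by decide +kernel)
def w2645 : PV o2645 := fun P h => h.t 3 0 6 1 1 3 2 4 0 5 (by decide +kernel)
def w2646 : PV o2646 := fun P h => h.t 3 0 6 1 2 3 1 4 0 5 (by decide +kernel)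
def w2647 : PV o2647 := fun P h => h.t 3 0 6 1 2 4 0 1 3 5 (by decide +kernel)
def w2648 : PV o2648 := fun P h => h.t 3 0 6 1 2 4 1 3 0 5 (by decide +kernel)
def w2649 : PV o2649 := fun P h => h.t 3 0 6 1 3 4 0 1 2 5 (by decide +kernel)
def w2650 : PV o2650 := fun P h => h.t 3 0 6 1 3 4 1 2 0 5 (by decide +kernel)
def w2651 : PV o2651 := fun P h => h.t 3 0 6 2 0 5 3 4 1 2 (by decide +kernel)
def w2652 : PV o2652 := fun P h => h.t 3 0 6 3 0 1 2 3 4 5 (by decide +kernel)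
def w2653 : PV o2653 := fun P h => h.t 3 0 6 3 0 1 2 4 3 5 (by decide +kernel)
def w2654 : PV o2654 := fun P h => h.t 3 0 6 3 0 2 3 4 1 5 (by decide +kernel)
def w2655 : PV o2655 := fun P h => h.t 3 0 6 3 1 2 0 4 3 5 (by decide +kernel)
def w2656 : PV o2656 := fun P h => h.t 3 0 6 3 1 2 3 4 0 5 (by decide +kernel)
def w2657 : PV o2657 := fun P h => h.t 3 0 6 3 1 3 0 2 4 5 (by decide +kernel)
def w2658 : PV o2658 := fun P h => h.t 3 0 6 3 1 4 0 3 2 5 (by decide +kernel)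
def w2659 : PV o2659 := fun P h => h.t 3 0 6 3 2 3 0 1 4 5 (by decide +kernel)
def w2660 : PV o2660 := fun P h => h.t 3 0 6 3 2 4 0 1 3 5 (by decide +kernel)
def w2661 : PV o2661 := fun P h => h.t 3 0 6 6 0 3 1 2 4 5 (by decide +kernel)
def w2662 : PV o2662 := fun P h => h.t 3 0 6 6 0 4 2 3 1 5 (by decide +kernel)
def w2663 : PV o2663 := fun P h => h.t 3 0 6 6 2 3 0 1 4 5 (by decide +kernel)
def w2664 : PV o2664 := fun P h => h.t 3 0 6 6 2 5 3 4 0 1 (by decide +kernel)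
def w2665 : PV o2665 := fun P h => h.t 3 0 6 6 3 4 1 2 0 5 (by decide +kernel)
def w2666 : PV o2666 := fun P h => h.t 3 0 6 7 1 2 3 4 0 5 (by decide +kernel)
def w2667 : PV o2667 := fun P h => h.t 3 0 6 7 1 4 0 3 2 5 (by decide +kernel)
def w2668 : PV o2668 := fun P h => h.t 3 0 6 7 2 3 4 5 0 1 (by decide +kernel)
def w2669 : PV o2669 := fun P h => h.t 3 0 6 7 4 5 1 2 0 3 (by decide +kernel)
def w2670 : PV o2670 := fun P h => h.x 3 0 6 15 (by decide +kernel)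
def w2671 : PV o2671 := fun P h => h.x 3 0 6 13 (by decide +kernel)
def w2672 : PV o2672 := fun P h => h.x 3 0 6 0 (by decide +kernel)
def w2673 : PV o2673 := fun P h => h.t 3 0 7 1 0 1 2 3 4 5 (by decide +kernel)
def w2674 : PV o2674 := fun P h => h.t 3 0 7 1 0 1 2 4 3 5 (by decide +kernel)
def w2675 : PV o2675 := fun P h => h.t 3 0 7 1 0 2 1 3 4 5 (by decide +kernel)
def w2676 : PV o2676 := fun P h => h.t 3 0 7 1 0 3 2 4 1 5 (by decide +kernel)
def w2677 : PV o2677 := fun P h => h.t 3 0 7 1 1 2 0 3 4 5 (by decide +kernel)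
def w2678 : PV o2678 := fun P h => h.t 3 0 7 1 1 2 3 4 0 5 (by decide +kernel)
def w2679 : PV o2679 := fun P h => h.t 3 0 7 1 1 5 0 2 3 4 (by decide +kernel)
def w2680 : PV o2680 := fun P h => h.t 3 0 7 6 0 1 3 5 2 4 (by decide +kernel)
def w2681 : PV o2681 := fun P h => h.t 3 0 7 6 0 2 1 4 3 5 (by decide +kernel)
def w2682 : PV o2682 := fun P h => h.t 3 0 7 6 0 3 2 5 1 4 (by decide +kernel)
def w2683 : PV o2683 := fun P h => h.t 3 0 7 6 2 3 1 5 0 4 (by decide +kernel)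
def w2684 : PV o2684 := fun P h => h.t 3 0 7 6 2 4 3 5 0 1 (by decide +kernel)
def w2685 : PV o2685 := fun P h => h.x 3 0 7 15 (by decide +kernel)
def w2686 : PV o2686 := fun P h => h.x 3 0 7 12 (by decide +kernel)
def w2687 : PV o2687 := fun P h => h.x 3 0 7 0 (by decide +kernel)
def w2688 : PV o2688 := fun P h => h.x 3 1 0 15 (by decide +kernel)
def w2689 : PV o2689 := fun P h => h.x 3 1 0 13 (by decide +kernel)
def w2690 : PV o2690 := fun P h => h.x 3 1 0 12 (by decide +kernel)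
def w2691 : PV o2691 := fun P h => h.x 3 1 0 4 (by decide +kernel)
def w2692 : PV o2692 := fun P h => h.x 3 1 0 0 (by decide +kernel)
def w2693 : PV o2693 := fun P h => h.t 3 1 1 1 0 2 1 4 3 5 (by decide +kernel)
def w2694 : PV o2694 := fun P h => h.t 3 1 1 1 0 2 3 5 1 4 (by decide +kernel)
def w2695 : PV o2695 := fun P h => h.t 3 1 1 2 0 1 2 4 3 5 (by decide +kernel)
def w2696 : PV o2696 := fun P h => h.t 3 1 1 2 0 2 4 5 1 3 (by decide +kernel)
def w2697 : PV o2697 := fun P h => h.t 3 1 1 2 0 3 1 5 2 4 (by decide +kernel)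
def w2698 : PV o2698 := fun P h => h.t 3 1 1 2 0 4 1 2 3 5 (by decide +kernel)
def w2699 : PV o2699 := fun P h => h.t 3 1 1 2 0 5 1 2 3 4 (by decide +kernel)
def w2700 : PV o2700 := fun P h => h.t 3 1 1 2 1 2 0 5 3 4 (by decide +kernel)
def w2701 : PV o2701 := fun P h => h.t 3 1 1 2 1 5 2 3 0 4 (by decide +kernel)
def w2702 : PV o2702 := fun P h => h.t 3 1 1 3 0 4 1 2 3 5 (by decide +kernel)
def w2703 : PV o2703 := fun P h => h.t 3 1 1 3 1 4 0 2 3 5 (by decide +kernel)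
def w2704 : PV o2704 := fun P h => h.t 3 1 1 3 1 5 0 2 3 4 (by decide +kernel)
def w2705 : PV o2705 := fun P h => h.t 3 1 1 3 3 4 0 1 2 5 (by decide +kernel)
def w2706 : PV o2706 := fun P h => h.t 3 1 1 3 3 4 0 5 1 2 (by decide +kernel)
def w2707 : PV o2707 := fun P h => h.t 3 1 1 3 4 5 0 2 1 3 (by decide +kernel)
def w2708 : PV o2708 := fun P h => h.t 3 1 1 4 0 1 2 5 3 4 (by decide +kernel)
def w2709 : PV o2709 := fun P h => h.t 3 1 1 4 0 3 1 5 2 4 (by decide +kernel)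
def w2710 : PV o2710 := fun P h => h.t 3 1 1 4 0 5 1 2 3 4 (by decide +kernel)
def w2711 : PV o2711 := fun P h => h.t 3 1 1 4 1 2 4 5 0 3 (by decide +kernel)
def w2712 : PV o2712 := fun P h => h.t 3 1 1 5 0 1 2 4 3 5 (by decide +kernel)
def w2713 : PV o2713 := fun P h => h.t 3 1 1 5 0 1 2 5 3 4 (by decide +kernel)
def w2714 : PV o2714 := fun P h => h.t 3 1 1 5 0 1 3 4 2 5 (by decide +kernel)
def w2715 : PV o2715 := fun P h => h.t 3 1 1 5 0 1 3 5 2 4 (by decide +kernel)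
def w2716 : PV o2716 := fun P h => h.t 3 1 1 5 0 1 4 5 2 3 (by decide +kernel)
def w2717 : PV o2717 := fun P h => h.t 3 1 1 5 0 2 4 5 1 3 (by decide +kernel)
def w2718 : PV o2718 := fun P h => h.t 3 1 1 5 0 3 1 5 2 4 (by decide +kernel)
def w2719 : PV o2719 := fun P h => h.t 3 1 1 5 0 4 1 2 3 5 (by decide +kernel)
def w2720 : PV o2720 := fun P h => h.t 3 1 1 5 0 5 1 2 3 4 (by decide +kernel)
def w2721 : PV o2721 := fun P h => h.t 3 1 1 5 1 2 0 4 3 5 (by decide +kernel)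
def w2722 : PV o2722 := fun P h => h.t 3 1 1 5 1 2 0 5 3 4 (by decide +kernel)
def w2723 : PV o2723 := fun P h => h.t 3 1 1 5 1 2 4 5 0 3 (by decide +kernel)
def w2724 : PV o2724 := fun P h => h.t 3 1 1 5 1 3 4 5 0 2 (by decide +kernel)
def w2725 : PV o2725 := fun P h => h.t 3 1 1 5 1 4 0 2 3 5 (by decide +kernel)
def w2726 : PV o2726 := fun P h => h.t 3 1 1 5 1 5 0 2 3 4 (by decide +kernel)
def w2727 : PV o2727 := fun P h => h.t 3 1 1 5 3 4 0 5 1 2 (by decide +kernel)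
def w2728 : PV o2728 := fun P h => h.t 3 1 1 5 4 5 0 1 2 3 (by decide +kernel)
def w2729 : PV o2729 := fun P h => h.t 3 1 1 6 0 1 2 5 3 4 (by decide +kernel)
def w2730 : PV o2730 := fun P h => h.t 3 1 1 6 0 1 3 4 2 5 (by decide +kernel)
def w2731 : PV o2731 := fun P h => h.t 3 1 1 6 0 1 3 5 2 4 (by decide +kernel)
def w2732 : PV o2732 := fun P h => h.t 3 1 1 6 0 2 3 5 1 4 (by decide +kernel)
def w2733 : PV o2733 := fun P h => h.t 3 1 1 6 0 3 4 5 1 2 (by decide +kernel)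
def w2734 : PV o2734 := fun P h => h.t 3 1 1 6 0 5 1 2 3 4 (by decide +kernel)
def w2735 : PV o2735 := fun P h => h.t 3 1 1 6 0 5 2 3 1 4 (by decide +kernel)
def w2736 : PV o2736 := fun P h => h.t 3 1 1 6 0 5 3 4 1 2 (by decide +kernel)
def w2737 : PV o2737 := fun P h => h.t 3 1 1 6 1 2 0 5 3 4 (by decide +kernel)
def w2738 : PV o2738 := fun P h => h.t 3 1 1 6 1 2 3 5 0 4 (by decide +kernel)
def w2739 : PV o2739 := fun P h => h.t 3 1 1 6 1 2 4 5 0 3 (by decide +kernel)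
def w2740 : PV o2740 := fun P h => h.t 3 1 1 6 1 3 4 5 0 2 (by decide +kernel)
def w2741 : PV o2741 := fun P h => h.t 3 1 1 6 1 5 0 2 3 4 (by decide +kernel)
def w2742 : PV o2742 := fun P h => h.t 3 1 1 6 1 5 0 3 2 4 (by decide +kernel)
def w2743 : PV o2743 := fun P h => h.t 3 1 1 6 1 5 2 3 0 4 (by decide +kernel)
def w2744 : PV o2744 := fun P h => h.t 3 1 1 6 1 5 3 4 0 2 (by decide +kernel)
def w2745 : PV o2745 := fun P h => h.t 3 1 1 6 2 3 1 5 0 4 (by decide +kernel)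
def w2746 : PV o2746 := fun P h => h.t 3 1 1 6 2 4 0 5 1 3 (by decide +kernel)
def w2747 : PV o2747 := fun P h => h.t 3 1 1 6 2 5 1 3 0 4 (by decide +kernel)
def w2748 : PV o2748 := fun P h => h.t 3 1 1 6 3 4 0 5 1 2 (by decide +kernel)
def w2749 : PV o2749 := fun P h => h.t 3 1 1 6 3 4 1 5 0 2 (by decide +kernel)
def w2750 : PV o2750 := fun P h => h.t 3 1 1 6 3 5 0 1 2 4 (by decide +kernel)
def w2751 : PV o2751 := fun P h => h.t 3 1 1 6 3 5 0 4 1 2 (by decide +kernel)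
def w2752 : PV o2752 := fun P h => h.t 3 1 1 6 3 5 1 4 0 2 (by decide +kernel)
def w2753 : PV o2753 := fun P h => h.t 3 1 1 6 4 5 0 1 2 3 (by decide +kernel)
def w2754 : PV o2754 := fun P h => h.t 3 1 1 6 4 5 1 2 0 3 (by decide +kernel)
def w2755 : PV o2755 := fun P h => h.t 3 1 1 7 0 1 2 4 3 5 (by decide +kernel)
def w2756 : PV o2756 := fun P h => h.t 3 1 1 7 0 1 2 5 3 4 (by decide +kernel)
def w2757 : PV o2757 := fun P h => h.t 3 1 1 7 0 1 3 4 2 5 (by decide +kernel)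
def w2758 : PV o2758 := fun P h => h.t 3 1 1 7 0 1 3 5 2 4 (by decide +kernel)
def w2759 : PV o2759 := fun P h => h.t 3 1 1 7 0 1 4 5 2 3 (by decide +kernel)
def w2760 : PV o2760 := fun P h => h.t 3 1 1 7 0 2 1 4 3 5 (by decide +kernel)
def w2761 : PV o2761 := fun P h => h.t 3 1 1 7 0 2 3 4 1 5 (by decide +kernel)
def w2762 : PV o2762 := fun P h => h.t 3 1 1 7 0 2 4 5 1 3 (by decide +kernel)
def w2763 : PV o2763 := fun P h => h.t 3 1 1 7 0 3 1 5 2 4 (by decide +kernel)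
def w2764 : PV o2764 := fun P h => h.t 3 1 1 7 0 3 4 5 1 2 (by decide +kernel)
def w2765 : PV o2765 := fun P h => h.t 3 1 1 7 0 4 1 2 3 5 (by decide +kernel)
def w2766 : PV o2766 := fun P h => h.t 3 1 1 7 0 4 2 3 1 5 (by decide +kernel)
def w2767 : PV o2767 := fun P h => h.t 3 1 1 7 0 4 2 5 1 3 (by decide +kernel)
def w2768 : PV o2768 := fun P h => h.t 3 1 1 7 0 4 3 5 1 2 (by decide +kernel)
def w2769 : PV o2769 := fun P h => h.t 3 1 1 7 0 5 1 3 2 4 (by decide +kernel)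
def w2770 : PV o2770 := fun P h => h.t 3 1 1 7 0 5 2 4 1 3 (by decide +kernel)
def w2771 : PV o2771 := fun P h => h.t 3 1 1 7 0 5 3 4 1 2 (by decide +kernel)
def w2772 : PV o2772 := fun P h => h.t 3 1 1 7 1 2 0 4 3 5 (by decide +kernel)
def w2773 : PV o2773 := fun P h => h.t 3 1 1 7 1 2 3 5 0 4 (by decide +kernel)
def w2774 : PV o2774 := fun P h => h.t 3 1 1 7 1 2 4 5 0 3 (by decide +kernel)
def w2775 : PV o2775 := fun P h => h.t 3 1 1 7 1 3 0 5 2 4 (by decide +kernel)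
def w2776 : PV o2776 := fun P h => h.t 3 1 1 7 1 3 4 5 0 2 (by decide +kernel)
def w2777 : PV o2777 := fun P h => h.t 3 1 1 7 1 4 0 2 3 5 (by decide +kernel)
def w2778 : PV o2778 := fun P h => h.t 3 1 1 7 1 5 0 3 2 4 (by decide +kernel)
def w2779 : PV o2779 := fun P h => h.t 3 1 1 7 1 5 2 3 0 4 (by decide +kernel)
def w2780 : PV o2780 := fun P h => h.t 3 1 1 7 1 5 3 4 0 2 (by decide +kernel)
def w2781 : PV o2781 := fun P h => h.t 3 1 1 7 2 3 0 4 1 5 (by decide +kernel)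
def w2782 : PV o2782 := fun P h => h.t 3 1 1 7 2 3 0 5 1 4 (by decide +kernel)
def w2783 : PV o2783 := fun P h => h.t 3 1 1 7 2 4 0 1 3 5 (by decide +kernel)
def w2784 : PV o2784 := fun P h => h.t 3 1 1 7 2 4 0 5 1 3 (by decide +kernel)
def w2785 : PV o2785 := fun P h => h.t 3 1 1 7 2 5 0 1 3 4 (by decide +kernel)
def w2786 : PV o2786 := fun P h => h.t 3 1 1 7 2 5 1 3 0 4 (by decide +kernel)
def w2787 : PV o2787 := fun P h => h.t 3 1 1 7 3 4 0 1 2 5 (by decide +kernel)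
def w2788 : PV o2788 := fun P h => h.t 3 1 1 7 3 4 0 2 1 5 (by decide +kernel)
def w2789 : PV o2789 := fun P h => h.t 3 1 1 7 3 4 0 5 1 2 (by decide +kernel)
def w2790 : PV o2790 := fun P h => h.t 3 1 1 7 3 4 1 5 0 2 (by decide +kernel)
def w2791 : PV o2791 := fun P h => h.t 3 1 1 7 3 5 0 1 2 4 (by decide +kernel)
def w2792 : PV o2792 := fun P h => h.t 3 1 1 7 3 5 0 2 1 4 (by decide +kernel)
def w2793 : PV o2793 := fun P h => h.t 3 1 1 7 3 5 0 4 1 2 (by decide +kernel)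
def w2794 : PV o2794 := fun P h => h.t 3 1 1 7 3 5 1 4 0 2 (by decide +kernel)
def w2795 : PV o2795 := fun P h => h.t 3 1 1 7 4 5 0 1 2 3 (by decide +kernel)
def w2796 : PV o2796 := fun P h => h.t 3 1 1 7 4 5 0 2 1 3 (by decide +kernel)
def w2797 : PV o2797 := fun P h => h.t 3 1 1 7 4 5 0 3 1 2 (by decide +kernel)
def w2798 : PV o2798 := fun P h => h.t 3 1 1 7 4 5 1 2 0 3 (by decide +kernel)
def w2799 : PV o2799 := fun P h => h.t 3 1 1 7 4 5 1 3 0 2 (by decide +kernel)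
def w2800 : PV o2800 := fun P h => h.t 3 1 2 2 3 4 0 5 1 2 (by decide +kernel)
def w2801 : PV o2801 := fun P h => h.t 3 1 2 3 0 1 3 4 2 5 (by decide +kernel)
def w2802 : PV o2802 := fun P h => h.t 3 1 2 3 0 2 3 4 1 5 (by decide +kernel)
def w2803 : PV o2803 := fun P h => h.t 3 1 2 3 1 2 3 4 0 5 (by decide +kernel)
def w2804 : PV o2804 := fun P h => h.t 3 1 2 3 1 3 2 4 0 5 (by decide +kernel)
def w2805 : PV o2805 := fun P h => h.t 3 1 2 3 1 4 2 3 0 5 (by decide +kernel)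
def w2806 : PV o2806 := fun P h => h.t 3 1 2 3 2 3 1 4 0 5 (by decide +kernel)
def w2807 : PV o2807 := fun P h => h.t 3 1 2 3 3 4 0 2 1 5 (by decide +kernel)
def w2808 : PV o2808 := fun P h => h.t 3 1 2 3 3 4 1 2 0 5 (by decide +kernel)
def w2809 : PV o2809 := fun P h => h.t 3 1 2 7 0 2 3 5 1 4 (by decide +kernel)
def w2810 : PV o2810 := fun P h => h.x 3 1 2 15 (by decide +kernel)
def w2811 : PV o2811 := fun P h => h.t 3 1 3 2 0 1 2 3 4 5 (by decide +kernel)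
def w2812 : PV o2812 := fun P h => h.t 3 1 3 2 0 1 2 5 3 4 (by decide +kernel)
def w2813 : PV o2813 := fun P h => h.t 3 1 3 2 0 3 1 5 2 4 (by decide +kernel)
def w2814 : PV o2814 := fun P h => h.t 3 1 3 2 0 5 1 4 2 3 (by decide +kernel)
def w2815 : PV o2815 := fun P h => h.t 3 1 3 2 2 3 0 1 4 5 (by decide +kernel)
def w2816 : PV o2816 := fun P h => h.t 3 1 3 2 2 3 0 5 1 4 (by decide +kernel)
def w2817 : PV o2817 := fun P h => h.t 3 1 3 2 4 5 0 1 2 3 (by decide +kernel)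
def w2818 : PV o2818 := fun P h => h.t 3 1 3 2 4 5 0 3 1 2 (by decide +kernel)
def w2819 : PV o2819 := fun P h => h.t 3 1 3 3 0 2 1 5 3 4 (by decide +kernel)
def w2820 : PV o2820 := fun P h => h.t 3 1 3 3 0 4 1 2 3 5 (by decide +kernel)
def w2821 : PV o2821 := fun P h => h.t 3 1 3 3 0 4 1 5 2 3 (by decide +kernel)
def w2822 : PV o2822 := fun P h => h.t 3 1 3 3 1 2 0 5 3 4 (by decide +kernel)
def w2823 : PV o2823 := fun P h => h.t 3 1 3 3 1 3 0 4 2 5 (by decide +kernel)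
def w2824 : PV o2824 := fun P h => h.t 3 1 3 3 1 4 0 5 2 3 (by decide +kernel)
def w2825 : PV o2825 := fun P h => h.t 3 1 3 3 2 3 0 1 4 5 (by decide +kernel)
def w2826 : PV o2826 := fun P h => h.t 3 1 3 3 2 4 0 1 3 5 (by decide +kernel)
def w2827 : PV o2827 := fun P h => h.t 3 1 3 3 2 4 0 3 1 5 (by decide +kernel)
def w2828 : PV o2828 := fun P h => h.t 3 1 3 3 2 4 0 5 1 3 (by decide +kernel)
def w2829 : PV o2829 := fun P h => h.t 3 1 3 3 2 5 0 1 3 4 (by decide +kernel)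
def w2830 : PV o2830 := fun P h => h.t 3 1 3 3 3 4 0 1 2 5 (by decide +kernel)
def w2831 : PV o2831 := fun P h => h.t 3 1 3 3 3 4 0 5 1 2 (by decide +kernel)
def w2832 : PV o2832 := fun P h => h.t 3 1 3 3 3 5 0 4 1 2 (by decide +kernel)
def w2833 : PV o2833 := fun P h => h.t 3 1 3 4 0 4 1 2 3 5 (by decide +kernel)
def w2834 : PV o2834 := fun P h => h.t 3 1 3 4 0 4 1 5 2 3 (by decide +kernel)
def w2835 : PV o2835 := fun P h => h.t 3 1 3 4 0 5 1 2 3 4 (by decide +kernel)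
def w2836 : PV o2836 := fun P h => h.t 3 1 3 4 2 3 0 1 4 5 (by decide +kernel)
def w2837 : PV o2837 := fun P h => h.t 3 1 3 4 2 3 0 5 1 4 (by decide +kernel)
def w2838 : PV o2838 := fun P h => h.t 3 1 3 4 2 4 0 1 3 5 (by decide +kernel)
def w2839 : PV o2839 := fun P h => h.t 3 1 3 4 2 4 3 5 0 1 (by decide +kernel)
def w2840 : PV o2840 := fun P h => h.t 3 1 3 4 2 5 0 1 3 4 (by decide +kernel)
def w2841 : PV o2841 := fun P h => h.t 3 1 3 4 3 4 0 1 2 5 (by decide +kernel)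
def w2842 : PV o2842 := fun P h => h.t 3 1 3 4 3 5 0 1 2 4 (by decide +kernel)
def w2843 : PV o2843 := fun P h => h.t 3 1 3 4 4 5 0 1 2 3 (by decide +kernel)
def w2844 : PV o2844 := fun P h => h.t 3 1 3 4 4 5 2 3 0 1 (by decide +kernel)
def w2845 : PV o2845 := fun P h => h.t 3 1 3 5 0 1 2 3 4 5 (by decide +kernel)
def w2846 : PV o2846 := fun P h => h.t 3 1 3 5 0 1 2 5 3 4 (by decide +kernel)
def w2847 : PV o2847 := fun P h => h.t 3 1 3 5 0 1 3 4 2 5 (by decide +kernel)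
def w2848 : PV o2848 := fun P h => h.t 3 1 3 5 0 2 3 4 1 5 (by decide +kernel)
def w2849 : PV o2849 := fun P h => h.t 3 1 3 5 0 3 1 5 2 4 (by decide +kernel)
def w2850 : PV o2850 := fun P h => h.t 3 1 3 5 0 4 1 2 3 5 (by decide +kernel)
def w2851 : PV o2851 := fun P h => h.t 3 1 3 5 0 5 1 2 3 4 (by decide +kernel)
def w2852 : PV o2852 := fun P h => h.t 3 1 3 5 0 5 2 3 1 4 (by decide +kernel)
def w2853 : PV o2853 := fun P h => h.t 3 1 3 5 1 2 0 4 3 5 (by decide +kernel)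
def w2854 : PV o2854 := fun P h => h.t 3 1 3 5 1 2 3 4 0 5 (by decide +kernel)
def w2855 : PV o2855 := fun P h => h.t 3 1 3 5 1 4 0 5 2 3 (by decide +kernel)
def w2856 : PV o2856 := fun P h => h.t 3 1 3 5 2 3 0 1 4 5 (by decide +kernel)
def w2857 : PV o2857 := fun P h => h.t 3 1 3 5 2 3 0 5 1 4 (by decide +kernel)
def w2858 : PV o2858 := fun P h => h.t 3 1 3 5 2 3 4 5 0 1 (by decide +kernel)
def w2859 : PV o2859 := fun P h => h.t 3 1 3 5 2 4 0 1 3 5 (by decide +kernel)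
def w2860 : PV o2860 := fun P h => h.t 3 1 3 5 2 5 0 1 3 4 (by decide +kernel)
def w2861 : PV o2861 := fun P h => h.t 3 1 3 5 3 4 0 1 2 5 (by decide +kernel)
def w2862 : PV o2862 := fun P h => h.t 3 1 3 5 3 5 0 1 2 4 (by decide +kernel)
def w2863 : PV o2863 := fun P h => h.t 3 1 3 5 4 5 0 1 2 3 (by decide +kernel)
def w2864 : PV o2864 := fun P h => h.t 3 1 3 5 4 5 2 3 0 1 (by decide +kernel)
def w2865 : PV o2865 := fun P h => h.t 3 1 3 6 0 1 2 3 4 5 (by decide +kernel)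
def w2866 : PV o2866 := fun P h => h.t 3 1 3 6 0 1 2 5 3 4 (by decide +kernel)
def w2867 : PV o2867 := fun P h => h.t 3 1 3 6 0 1 3 4 2 5 (by decide +kernel)
def w2868 : PV o2868 := fun P h => h.t 3 1 3 6 0 1 3 5 2 4 (by decide +kernel)
def w2869 : PV o2869 := fun P h => h.t 3 1 3 6 0 2 1 3 4 5 (by decide +kernel)
def w2870 : PV o2870 := fun P h => h.t 3 1 3 6 0 2 1 5 3 4 (by decide +kernel)
def w2871 : PV o2871 := fun P h => h.t 3 1 3 6 0 2 4 5 1 3 (by decide +kernel)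
def w2872 : PV o2872 := fun P h => h.t 3 1 3 6 0 3 1 2 4 5 (by decide +kernel)
def w2873 : PV o2873 := fun P h => h.t 3 1 3 6 0 3 1 4 2 5 (by decide +kernel)
def w2874 : PV o2874 := fun P h => h.t 3 1 3 6 0 3 2 4 1 5 (by decide +kernel)
def w2875 : PV o2875 := fun P h => h.t 3 1 3 6 0 3 4 5 1 2 (by decide +kernel)
def w2876 : PV o2876 := fun P h => h.t 3 1 3 6 0 4 1 2 3 5 (by decide +kernel)
def w2877 : PV o2877 := fun P h => h.t 3 1 3 6 0 4 1 5 2 3 (by decide +kernel)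
def w2878 : PV o2878 := fun P h => h.t 3 1 3 6 0 5 1 2 3 4 (by decide +kernel)
def w2879 : PV o2879 := fun P h => h.t 3 1 3 6 0 5 2 3 1 4 (by decide +kernel)
def w2880 : PV o2880 := fun P h => h.t 3 1 3 6 1 2 0 3 4 5 (by decide +kernel)
def w2881 : PV o2881 := fun P h => h.t 3 1 3 6 1 3 0 4 2 5 (by decide +kernel)
def w2882 : PV o2882 := fun P h => h.t 3 1 3 6 1 3 2 4 0 5 (by decide +kernel)
def w2883 : PV o2883 := fun P h => h.t 3 1 3 6 1 3 4 5 0 2 (by decide +kernel)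
def w2884 : PV o2884 := fun P h => h.t 3 1 3 6 1 4 0 5 2 3 (by decide +kernel)
def w2885 : PV o2885 := fun P h => h.t 3 1 3 6 1 4 2 5 0 3 (by decide +kernel)
def w2886 : PV o2886 := fun P h => h.t 3 1 3 6 1 5 2 3 0 4 (by decide +kernel)
def w2887 : PV o2887 := fun P h => h.t 3 1 3 6 2 3 0 1 4 5 (by decide +kernel)
def w2888 : PV o2888 := fun P h => h.t 3 1 3 6 2 3 0 4 1 5 (by decide +kernel)
def w2889 : PV o2889 := fun P h => h.t 3 1 3 6 2 3 4 5 0 1 (by decide +kernel)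
def w2890 : PV o2890 := fun P h => h.t 3 1 3 6 2 4 0 1 3 5 (by decide +kernel)
def w2891 : PV o2891 := fun P h => h.t 3 1 3 6 2 4 0 5 1 3 (by decide +kernel)
def w2892 : PV o2892 := fun P h => h.t 3 1 3 6 2 5 0 1 3 4 (by decide +kernel)
def w2893 : PV o2893 := fun P h => h.t 3 1 3 6 3 4 0 1 2 5 (by decide +kernel)
def w2894 : PV o2894 := fun P h => h.t 3 1 3 6 3 5 0 1 2 4 (by decide +kernel)
def w2895 : PV o2895 := fun P h => h.t 3 1 3 6 4 5 0 1 2 3 (by decide +kernel)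
def w2896 : PV o2896 := fun P h => h.t 3 1 3 6 4 5 0 3 1 2 (by decide +kernel)
def w2897 : PV o2897 := fun P h => h.t 3 1 3 7 0 1 2 3 4 5 (by decide +kernel)
def w2898 : PV o2898 := fun P h => h.t 3 1 3 7 0 1 3 4 2 5 (by decide +kernel)
def w2899 : PV o2899 := fun P h => h.t 3 1 3 7 0 2 3 4 1 5 (by decide +kernel)
def w2900 : PV o2900 := fun P h => h.t 3 1 3 7 0 2 4 5 1 3 (by decide +kernel)
def w2901 : PV o2901 := fun P h => h.t 3 1 3 7 0 3 1 2 4 5 (by decide +kernel)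
def w2902 : PV o2902 := fun P h => h.t 3 1 3 7 0 3 2 4 1 5 (by decide +kernel)
def w2903 : PV o2903 := fun P h => h.t 3 1 3 7 0 3 4 5 1 2 (by decide +kernel)
def w2904 : PV o2904 := fun P h => h.t 3 1 3 7 0 4 1 2 3 5 (by decide +kernel)
def w2905 : PV o2905 := fun P h => h.t 3 1 3 7 0 4 2 5 1 3 (by decide +kernel)
def w2906 : PV o2906 := fun P h => h.t 3 1 3 7 0 5 1 2 3 4 (by decide +kernel)
def w2907 : PV o2907 := fun P h => h.t 3 1 3 7 1 2 0 4 3 5 (by decide +kernel)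
def w2908 : PV o2908 := fun P h => h.t 3 1 3 7 1 2 0 5 3 4 (by decide +kernel)
def w2909 : PV o2909 := fun P h => h.t 3 1 3 7 1 2 3 4 0 5 (by decide +kernel)
def w2910 : PV o2910 := fun P h => h.t 3 1 3 7 1 3 4 5 0 2 (by decide +kernel)
def w2911 : PV o2911 := fun P h => h.t 3 1 3 7 2 3 0 1 4 5 (by decide +kernel)
def w2912 : PV o2912 := fun P h => h.t 3 1 3 7 2 3 4 5 0 1 (by decide +kernel)
def w2913 : PV o2913 := fun P h => h.t 3 1 3 7 2 4 0 1 3 5 (by decide +kernel)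
def w2914 : PV o2914 := fun P h => h.t 3 1 3 7 2 4 3 5 0 1 (by decide +kernel)
def w2915 : PV o2915 := fun P h => h.t 3 1 3 7 2 5 0 1 3 4 (by decide +kernel)
def w2916 : PV o2916 := fun P h => h.t 3 1 3 7 2 5 3 4 0 1 (by decide +kernel)
def w2917 : PV o2917 := fun P h => h.t 3 1 3 7 3 4 0 1 2 5 (by decide +kernel)
def w2918 : PV o2918 := fun P h => h.t 3 1 3 7 3 4 1 2 0 5 (by decide +kernel)
def w2919 : PV o2919 := fun P h => h.t 3 1 3 7 3 5 0 1 2 4 (by decide +kernel)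
def w2920 : PV o2920 := fun P h => h.t 3 1 3 7 3 5 1 2 0 4 (by decide +kernel)
def w2921 : PV o2921 := fun P h => h.t 3 1 3 7 4 5 0 1 2 3 (by decide +kernel)
def w2922 : PV o2922 := fun P h => h.t 3 1 3 7 4 5 1 2 0 3 (by decide +kernel)
def w2923 : PV o2923 := fun P h => h.t 3 1 3 7 4 5 2 3 0 1 (by decide +kernel)
def w2924 : PV o2924 := fun P h => h.x 3 1 3 15 (by decide +kernel)
def w2925 : PV o2925 := fun P h => h.x 3 1 3 12 (by decide +kernel)
def w2926 : PV o2926 := fun P h => h.x 3 1 3 0 (by decide +kernel)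
def w2927 : PV o2927 := fun P h => h.t 3 1 4 3 0 3 1 4 2 5 (by decide +kernel)
def w2928 : PV o2928 := fun P h => h.t 3 1 4 3 2 4 0 1 3 5 (by decide +kernel)
def w2929 : PV o2929 := fun P h => h.t 3 1 4 5 0 2 1 4 3 5 (by decide +kernel)
def w2930 : PV o2930 := fun P h => h.t 3 1 4 5 0 2 1 5 3 4 (by decide +kernel)
def w2931 : PV o2931 := fun P h => h.t 3 1 4 6 0 2 1 3 4 5 (by decide +kernel)
def w2932 : PV o2932 := fun P h => h.t 3 1 4 6 0 3 1 4 2 5 (by decide +kernel)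
def w2933 : PV o2933 := fun P h => h.t 3 1 4 7 0 3 2 4 1 5 (by decide +kernel)
def w2934 : PV o2934 := fun P h => h.t 3 1 5 3 0 1 2 3 4 5 (by decide +kernel)
def w2935 : PV o2935 := fun P h => h.t 3 1 5 3 0 4 1 2 3 5 (by decide +kernel)
def w2936 : PV o2936 := fun P h => h.t 3 1 5 3 1 2 3 4 0 5 (by decide +kernel)
def w2937 : PV o2937 := fun P h => h.t 3 1 5 3 1 3 0 2 4 5 (by decide +kernel)
def w2938 : PV o2938 := fun P h => h.t 3 1 5 3 3 4 0 1 2 5 (by decide +kernel)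
def w2939 : PV o2939 := fun P h => h.t 3 1 5 3 3 4 0 2 1 5 (by decide +kernel)
def w2940 : PV o2940 := fun P h => h.t 3 1 5 3 3 4 1 2 0 5 (by decide +kernel)
def w2941 : PV o2941 := fun P h => h.t 3 1 5 4 0 2 3 5 1 4 (by decide +kernel)
def w2942 : PV o2942 := fun P h => h.t 3 1 5 4 0 2 4 5 1 3 (by decide +kernel)
def w2943 : PV o2943 := fun P h => h.t 3 1 5 5 0 2 1 5 3 4 (by decide +kernel)
def w2944 : PV o2944 := fun P h => h.t 3 1 5 5 0 3 4 5 1 2 (by decide +kernel)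
def w2945 : PV o2945 := fun P h => h.t 3 1 5 5 1 2 0 5 3 4 (by decide +kernel)
def w2946 : PV o2946 := fun P h => h.t 3 1 5 5 2 3 0 1 4 5 (by decide +kernel)
def w2947 : PV o2947 := fun P h => h.t 3 1 5 6 0 1 2 4 3 5 (by decide +kernel)
def w2948 : PV o2948 := fun P h => h.t 3 1 5 6 0 1 3 4 2 5 (by decide +kernel)
def w2949 : PV o2949 := fun P h => h.t 3 1 5 6 0 2 1 4 3 5 (by decide +kernel)
def w2950 : PV o2950 := fun P h => h.t 3 1 5 6 0 3 4 5 1 2 (by decide +kernel)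
def w2951 : PV o2951 := fun P h => h.t 3 1 5 6 0 4 1 3 2 5 (by decide +kernel)
def w2952 : PV o2952 := fun P h => h.t 3 1 5 6 0 5 1 3 2 4 (by decide +kernel)
def w2953 : PV o2953 := fun P h => h.t 3 1 5 6 1 2 0 4 3 5 (by decide +kernel)
def w2954 : PV o2954 := fun P h => h.t 3 1 5 6 1 2 0 5 3 4 (by decide +kernel)
def w2955 : PV o2955 := fun P h => h.t 3 1 5 6 1 2 3 4 0 5 (by decide +kernel)
def w2956 : PV o2956 := fun P h => h.t 3 1 5 6 1 2 3 5 0 4 (by decide +kernel)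
def w2957 : PV o2957 := fun P h => h.t 3 1 5 6 1 3 4 5 0 2 (by decide +kernel)
def w2958 : PV o2958 := fun P h => h.t 3 1 5 6 1 4 0 3 2 5 (by decide +kernel)
def w2959 : PV o2959 := fun P h => h.t 3 1 5 6 1 4 3 5 0 2 (by decide +kernel)
def w2960 : PV o2960 := fun P h => h.t 3 1 5 6 1 5 0 3 2 4 (by decide +kernel)
def w2961 : PV o2961 := fun P h => h.t 3 1 5 6 1 5 2 3 0 4 (by decide +kernel)
def w2962 : PV o2962 := fun P h => h.t 3 1 5 6 1 5 3 4 0 2 (by decide +kernel)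
def w2963 : PV o2963 := fun P h => h.t 3 1 5 6 2 3 0 4 1 5 (by decide +kernel)
def w2964 : PV o2964 := fun P h => h.t 3 1 5 6 2 3 4 5 0 1 (by decide +kernel)
def w2965 : PV o2965 := fun P h => h.t 3 1 5 6 2 5 0 3 1 4 (by decide +kernel)
def w2966 : PV o2966 := fun P h => h.t 3 1 5 6 2 5 3 4 0 1 (by decide +kernel)
def w2967 : PV o2967 := fun P h => h.t 3 1 5 6 3 4 0 2 1 5 (by decide +kernel)
def w2968 : PV o2968 := fun P h => h.t 3 1 5 6 3 4 2 5 0 1 (by decide +kernel)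
def w2969 : PV o2969 := fun P h => h.t 3 1 5 6 3 5 0 1 2 4 (by decide +kernel)
def w2970 : PV o2970 := fun P h => h.t 3 1 5 6 3 5 0 2 1 4 (by decide +kernel)
def w2971 : PV o2971 := fun P h => h.t 3 1 5 6 4 5 0 2 1 3 (by decide +kernel)
def w2972 : PV o2972 := fun P h => h.t 3 1 5 6 4 5 2 3 0 1 (by decide +kernel)
def w2973 : PV o2973 := fun P h => h.x 3 1 5 15 (by decide +kernel)
def w2974 : PV o2974 := fun P h => h.x 3 1 5 13 (by decide +kernel)
def w2975 : PV o2975 := fun P h => h.x 3 1 5 12 (by decide +kernel)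
def w2976 : PV o2976 := fun P h => h.x 3 1 5 0 (by decide +kernel)
def w2977 : PV o2977 := fun P h => h.t 3 1 6 3 0 1 2 3 4 5 (by decide +kernel)
def w2978 : PV o2978 := fun P h => h.t 3 1 6 3 0 1 2 4 3 5 (by decide +kernel)
def w2979 : PV o2979 := fun P h => h.t 3 1 6 3 0 2 1 3 4 5 (by decide +kernel)
def w2980 : PV o2980 := fun P h => h.t 3 1 6 3 0 3 1 2 4 5 (by decide +kernel)
def w2981 : PV o2981 := fun P h => h.t 3 1 6 3 0 3 1 4 2 5 (by decide +kernel)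
def w2982 : PV o2982 := fun P h => h.t 3 1 6 3 0 4 1 2 3 5 (by decide +kernel)
def w2983 : PV o2983 := fun P h => h.t 3 1 6 3 0 4 1 3 2 5 (by decide +kernel)
def w2984 : PV o2984 := fun P h => h.t 3 1 6 3 1 2 0 3 4 5 (by decide +kernel)
def w2985 : PV o2985 := fun P h => h.t 3 1 6 3 1 2 3 4 0 5 (by decide +kernel)
def w2986 : PV o2986 := fun P h => h.t 3 1 6 3 1 3 0 2 4 5 (by decide +kernel)
def w2987 : PV o2987 := fun P h => h.t 3 1 6 3 1 3 0 4 2 5 (by decide +kernel)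
def w2988 : PV o2988 := fun P h => h.t 3 1 6 3 1 3 2 4 0 5 (by decide +kernel)
def w2989 : PV o2989 := fun P h => h.t 3 1 6 3 1 4 0 2 3 5 (by decide +kernel)
def w2990 : PV o2990 := fun P h => h.t 3 1 6 3 1 4 2 3 0 5 (by decide +kernel)
def w2991 : PV o2991 := fun P h => h.t 3 1 6 3 2 3 0 4 1 5 (by decide +kernel)
def w2992 : PV o2992 := fun P h => h.t 3 1 6 3 2 3 1 4 0 5 (by decide +kernel)
def w2993 : PV o2993 := fun P h => h.t 3 1 6 3 2 4 0 1 3 5 (by decide +kernel)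
def w2994 : PV o2994 := fun P h => h.t 3 1 6 3 2 4 0 3 1 5 (by decide +kernel)
def w2995 : PV o2995 := fun P h => h.t 3 1 6 3 2 4 1 3 0 5 (by decide +kernel)
def w2996 : PV o2996 := fun P h => h.t 3 1 6 3 3 4 0 1 2 5 (by decide +kernel)
def w2997 : PV o2997 := fun P h => h.t 3 1 6 3 3 4 0 2 1 5 (by decide +kernel)
def w2998 : PV o2998 := fun P h => h.t 3 1 6 3 3 4 1 2 0 5 (by decide +kernel)
def w2999 : PV o2999 := fun P h => h.t 3 1 6 5 0 1 2 3 4 5 (by decide +kernel)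
def w3000 : PV o3000 := fun P h => h.t 3 1 6 5 0 1 2 4 3 5 (by decide +kernel)
def w3001 : PV o3001 := fun P h => h.t 3 1 6 5 0 1 2 5 3 4 (by decide +kernel)
def w3002 : PV o3002 := fun P h => h.t 3 1 6 5 0 1 3 4 2 5 (by decide +kernel)
def w3003 : PV o3003 := fun P h => h.t 3 1 6 5 0 1 3 5 2 4 (by decide +kernel)
def w3004 : PV o3004 := fun P h => h.t 3 1 6 5 0 1 4 5 2 3 (by decide +kernel)
def w3005 : PV o3005 := fun P h => h.t 3 1 6 5 0 2 1 5 3 4 (by decide +kernel)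
def w3006 : PV o3006 := fun P h => h.t 3 1 6 5 0 2 3 4 1 5 (by decide +kernel)
def w3007 : PV o3007 := fun P h => h.t 3 1 6 5 0 2 3 5 1 4 (by decide +kernel)
def w3008 : PV o3008 := fun P h => h.t 3 1 6 5 0 2 4 5 1 3 (by decide +kernel)
def w3009 : PV o3009 := fun P h => h.t 3 1 6 5 0 3 1 5 2 4 (by decide +kernel)
def w3010 : PV o3010 := fun P h => h.t 3 1 6 5 0 3 2 5 1 4 (by decide +kernel)
def w3011 : PV o3011 := fun P h => h.t 3 1 6 5 0 4 1 2 3 5 (by decide +kernel)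
def w3012 : PV o3012 := fun P h => h.t 3 1 6 5 0 4 2 5 1 3 (by decide +kernel)
def w3013 : PV o3013 := fun P h => h.t 3 1 6 5 0 5 1 4 2 3 (by decide +kernel)
def w3014 : PV o3014 := fun P h => h.t 3 1 6 5 0 5 2 3 1 4 (by decide +kernel)
def w3015 : PV o3015 := fun P h => h.t 3 1 6 5 0 5 2 4 1 3 (by decide +kernel)
def w3016 : PV o3016 := fun P h => h.t 3 1 6 5 1 2 0 3 4 5 (by decide +kernel)
def w3017 : PV o3017 := fun P h => h.t 3 1 6 5 1 2 0 5 3 4 (by decide +kernel)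
def w3018 : PV o3018 := fun P h => h.t 3 1 6 5 1 2 3 5 0 4 (by decide +kernel)
def w3019 : PV o3019 := fun P h => h.t 3 1 6 5 1 3 0 2 4 5 (by decide +kernel)
def w3020 : PV o3020 := fun P h => h.t 3 1 6 5 1 3 2 5 0 4 (by decide +kernel)
def w3021 : PV o3021 := fun P h => h.t 3 1 6 5 1 4 0 2 3 5 (by decide +kernel)
def w3022 : PV o3022 := fun P h => h.t 3 1 6 5 1 4 2 5 0 3 (by decide +kernel)
def w3023 : PV o3023 := fun P h => h.t 3 1 6 5 1 5 0 2 3 4 (by decide +kernel)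
def w3024 : PV o3024 := fun P h => h.t 3 1 6 5 1 5 2 4 0 3 (by decide +kernel)
def w3025 : PV o3025 := fun P h => h.t 3 1 6 5 2 3 0 1 4 5 (by decide +kernel)
def w3026 : PV o3026 := fun P h => h.t 3 1 6 5 2 3 0 5 1 4 (by decide +kernel)
def w3027 : PV o3027 := fun P h => h.t 3 1 6 5 2 3 4 5 0 1 (by decide +kernel)
def w3028 : PV o3028 := fun P h => h.t 3 1 6 5 2 4 0 1 3 5 (by decide +kernel)
def w3029 : PV o3029 := fun P h => h.t 3 1 6 5 2 4 0 5 1 3 (by decide +kernel)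
def w3030 : PV o3030 := fun P h => h.t 3 1 6 5 2 5 0 1 3 4 (by decide +kernel)
def w3031 : PV o3031 := fun P h => h.t 3 1 6 5 2 5 1 4 0 3 (by decide +kernel)
def w3032 : PV o3032 := fun P h => h.t 3 1 6 5 3 4 0 1 2 5 (by decide +kernel)
def w3033 : PV o3033 := fun P h => h.t 3 1 6 5 3 4 0 5 1 2 (by decide +kernel)
def w3034 : PV o3034 := fun P h => h.t 3 1 6 5 3 4 1 5 0 2 (by decide +kernel)
def w3035 : PV o3035 := fun P h => h.t 3 1 6 5 3 5 0 4 1 2 (by decide +kernel)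
def w3036 : PV o3036 := fun P h => h.t 3 1 6 5 3 5 1 4 0 2 (by decide +kernel)
def w3037 : PV o3037 := fun P h => h.t 3 1 6 5 3 5 2 4 0 1 (by decide +kernel)
def w3038 : PV o3038 := fun P h => h.t 3 1 6 5 4 5 0 1 2 3 (by decide +kernel)
def w3039 : PV o3039 := fun P h => h.t 3 1 6 5 4 5 1 3 0 2 (by decide +kernel)
def w3040 : PV o3040 := fun P h => h.t 3 1 6 5 4 5 2 3 0 1 (by decide +kernel)
def w3041 : PV o3041 := fun P h => h.t 3 1 6 6 0 4 1 2 3 5 (by decide +kernel)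
def w3042 : PV o3042 := fun P h => h.t 3 1 6 6 1 3 4 5 0 2 (by decide +kernel)
def w3043 : PV o3043 := fun P h => h.t 3 1 6 6 1 4 0 2 3 5 (by decide +kernel)
def w3044 : PV o3044 := fun P h => h.t 3 1 6 6 1 5 0 2 3 4 (by decide +kernel)
def w3045 : PV o3045 := fun P h => h.t 3 1 6 6 1 5 2 3 0 4 (by decide +kernel)
def w3046 : PV o3046 := fun P h => h.t 3 1 6 6 2 5 0 1 3 4 (by decide +kernel)
def w3047 : PV o3047 := fun P h => h.t 3 1 6 6 2 5 3 4 0 1 (by decide +kernel)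
def w3048 : PV o3048 := fun P h => h.t 3 1 6 6 3 4 0 1 2 5 (by decide +kernel)
def w3049 : PV o3049 := fun P h => h.t 3 1 6 6 3 4 0 5 1 2 (by decide +kernel)
def w3050 : PV o3050 := fun P h => h.t 3 1 6 6 3 5 0 1 2 4 (by decide +kernel)
def w3051 : PV o3051 := fun P h => h.t 3 1 6 6 3 5 0 4 1 2 (by decide +kernel)
def w3052 : PV o3052 := fun P h => h.t 3 1 6 6 3 5 1 2 0 4 (by decide +kernel)
def w3053 : PV o3053 := fun P h => h.t 3 1 6 6 3 5 1 4 0 2 (by decide +kernel)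
def w3054 : PV o3054 := fun P h => h.t 3 1 6 7 0 1 2 5 3 4 (by decide +kernel)
def w3055 : PV o3055 := fun P h => h.t 3 1 6 7 0 2 3 4 1 5 (by decide +kernel)
def w3056 : PV o3056 := fun P h => h.t 3 1 6 7 0 3 1 4 2 5 (by decide +kernel)
def w3057 : PV o3057 := fun P h => h.t 3 1 6 7 0 3 1 5 2 4 (by decide +kernel)
def w3058 : PV o3058 := fun P h => h.t 3 1 6 7 0 3 2 4 1 5 (by decide +kernel)
def w3059 : PV o3059 := fun P h => h.t 3 1 6 7 0 3 2 5 1 4 (by decide +kernel)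
def w3060 : PV o3060 := fun P h => h.t 3 1 6 7 0 4 1 2 3 5 (by decide +kernel)
def w3061 : PV o3061 := fun P h => h.t 3 1 6 7 0 4 1 3 2 5 (by decide +kernel)
def w3062 : PV o3062 := fun P h => h.t 3 1 6 7 0 4 1 5 2 3 (by decide +kernel)
def w3063 : PV o3063 := fun P h => h.t 3 1 6 7 0 4 2 3 1 5 (by decide +kernel)
def w3064 : PV o3064 := fun P h => h.t 3 1 6 7 0 5 1 2 3 4 (by decide +kernel)
def w3065 : PV o3065 := fun P h => h.t 3 1 6 7 0 5 1 3 2 4 (by decide +kernel)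
def w3066 : PV o3066 := fun P h => h.t 3 1 6 7 0 5 2 3 1 4 (by decide +kernel)
def w3067 : PV o3067 := fun P h => h.t 3 1 6 7 0 5 2 4 1 3 (by decide +kernel)
def w3068 : PV o3068 := fun P h => h.t 3 1 6 7 1 2 0 4 3 5 (by decide +kernel)
def w3069 : PV o3069 := fun P h => h.t 3 1 6 7 1 2 0 5 3 4 (by decide +kernel)
def w3070 : PV o3070 := fun P h => h.t 3 1 6 7 1 2 3 4 0 5 (by decide +kernel)
def w3071 : PV o3071 := fun P h => h.t 3 1 6 7 1 2 4 5 0 3 (by decide +kernel)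
def w3072 : PV o3072 := fun P h => h.t 3 1 6 7 1 3 0 5 2 4 (by decide +kernel)
def w3073 : PV o3073 := fun P h => h.t 3 1 6 7 1 4 0 2 3 5 (by decide +kernel)
def w3074 : PV o3074 := fun P h => h.t 3 1 6 7 1 4 0 3 2 5 (by decide +kernel)
def w3075 : PV o3075 := fun P h => h.t 3 1 6 7 1 4 2 3 0 5 (by decide +kernel)
def w3076 : PV o3076 := fun P h => h.t 3 1 6 7 1 5 0 2 3 4 (by decide +kernel)
def w3077 : PV o3077 := fun P h => h.t 3 1 6 7 1 5 0 3 2 4 (by decide +kernel)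
def w3078 : PV o3078 := fun P h => h.t 3 1 6 7 1 5 0 4 2 3 (by decide +kernel)
def w3079 : PV o3079 := fun P h => h.t 3 1 6 7 1 5 2 3 0 4 (by decide +kernel)
def w3080 : PV o3080 := fun P h => h.t 3 1 6 7 1 5 2 4 0 3 (by decide +kernel)
def w3081 : PV o3081 := fun P h => h.t 3 1 6 7 2 3 0 4 1 5 (by decide +kernel)
def w3082 : PV o3082 := fun P h => h.t 3 1 6 7 2 3 0 5 1 4 (by decide +kernel)
def w3083 : PV o3083 := fun P h => h.t 3 1 6 7 2 3 1 4 0 5 (by decide +kernel)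
def w3084 : PV o3084 := fun P h => h.t 3 1 6 7 2 3 4 5 0 1 (by decide +kernel)
def w3085 : PV o3085 := fun P h => h.t 3 1 6 7 2 4 0 1 3 5 (by decide +kernel)
def w3086 : PV o3086 := fun P h => h.t 3 1 6 7 2 4 0 3 1 5 (by decide +kernel)
def w3087 : PV o3087 := fun P h => h.t 3 1 6 7 2 4 0 5 1 3 (by decide +kernel)
def w3088 : PV o3088 := fun P h => h.t 3 1 6 7 2 5 0 1 3 4 (by decide +kernel)
def w3089 : PV o3089 := fun P h => h.t 3 1 6 7 2 5 0 3 1 4 (by decide +kernel)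
def w3090 : PV o3090 := fun P h => h.t 3 1 6 7 2 5 0 4 1 3 (by decide +kernel)
def w3091 : PV o3091 := fun P h => h.t 3 1 6 7 2 5 1 3 0 4 (by decide +kernel)
def w3092 : PV o3092 := fun P h => h.t 3 1 6 7 2 5 1 4 0 3 (by decide +kernel)
def w3093 : PV o3093 := fun P h => h.t 3 1 6 7 2 5 3 4 0 1 (by decide +kernel)
def w3094 : PV o3094 := fun P h => h.t 3 1 6 7 3 4 0 1 2 5 (by decide +kernel)
def w3095 : PV o3095 := fun P h => h.t 3 1 6 7 3 4 0 2 1 5 (by decide +kernel)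
def w3096 : PV o3096 := fun P h => h.t 3 1 6 7 3 4 0 5 1 2 (by decide +kernel)
def w3097 : PV o3097 := fun P h => h.t 3 1 6 7 3 4 1 2 0 5 (by decide +kernel)
def w3098 : PV o3098 := fun P h => h.t 3 1 6 7 3 4 2 5 0 1 (by decide +kernel)
def w3099 : PV o3099 := fun P h => h.t 3 1 6 7 3 5 0 2 1 4 (by decide +kernel)
def w3100 : PV o3100 := fun P h => h.t 3 1 6 7 3 5 0 4 1 2 (by decide +kernel)
def w3101 : PV o3101 := fun P h => h.t 3 1 6 7 3 5 1 2 0 4 (by decide +kernel)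
def w3102 : PV o3102 := fun P h => h.t 3 1 6 7 3 5 1 4 0 2 (by decide +kernel)
def w3103 : PV o3103 := fun P h => h.t 3 1 6 7 3 5 2 4 0 1 (by decide +kernel)
def w3104 : PV o3104 := fun P h => h.t 3 1 6 7 4 5 0 1 2 3 (by decide +kernel)
def w3105 : PV o3105 := fun P h => h.t 3 1 6 7 4 5 0 2 1 3 (by decide +kernel)
def w3106 : PV o3106 := fun P h => h.t 3 1 6 7 4 5 0 3 1 2 (by decide +kernel)
def w3107 : PV o3107 := fun P h => h.t 3 1 6 7 4 5 1 2 0 3 (by decide +kernel)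
def w3108 : PV o3108 := fun P h => h.t 3 1 6 7 4 5 2 3 0 1 (by decide +kernel)
def w3109 : PV o3109 := fun P h => h.x 3 1 6 15 (by decide +kernel)
def w3110 : PV o3110 := fun P h => h.x 3 1 6 12 (by decide +kernel)
def w3111 : PV o3111 := fun P h => h.x 3 1 6 5 (by decide +kernel)
def w3112 : PV o3112 := fun P h => h.x 3 1 6 4 (by decide +kernel)
def w3113 : PV o3113 := fun P h => h.x 3 1 6 0 (by decide +kernel)
def w3114 : PV o3114 := fun P h => h.t 3 1 7 2 0 1 2 3 4 5 (by decide +kernel)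
def w3115 : PV o3115 := fun P h => h.t 3 1 7 3 0 1 2 3 4 5 (by decide +kernel)
def w3116 : PV o3116 := fun P h => h.t 3 1 7 3 0 1 2 4 3 5 (by decide +kernel)
def w3117 : PV o3117 := fun P h => h.t 3 1 7 3 0 1 2 5 3 4 (by decide +kernel)
def w3118 : PV o3118 := fun P h => h.t 3 1 7 3 0 2 1 3 4 5 (by decide +kernel)
def w3119 : PV o3119 := fun P h => h.t 3 1 7 3 0 2 1 4 3 5 (by decide +kernel)
def w3120 : PV o3120 := fun P h => h.t 3 1 7 3 0 3 1 4 2 5 (by decide +kernel)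
def w3121 : PV o3121 := fun P h => h.t 3 1 7 3 0 3 2 4 1 5 (by decide +kernel)
def w3122 : PV o3122 := fun P h => h.t 3 1 7 3 0 4 1 2 3 5 (by decide +kernel)
def w3123 : PV o3123 := fun P h => h.t 3 1 7 3 0 4 1 3 2 5 (by decide +kernel)
def w3124 : PV o3124 := fun P h => h.t 3 1 7 3 0 4 2 3 1 5 (by decide +kernel)
def w3125 : PV o3125 := fun P h => h.t 3 1 7 3 0 5 2 4 1 3 (by decide +kernel)
def w3126 : PV o3126 := fun P h => h.t 3 1 7 3 1 2 0 3 4 5 (by decide +kernel)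
def w3127 : PV o3127 := fun P h => h.t 3 1 7 3 1 2 3 4 0 5 (by decide +kernel)
def w3128 : PV o3128 := fun P h => h.t 3 1 7 3 1 2 4 5 0 3 (by decide +kernel)
def w3129 : PV o3129 := fun P h => h.t 3 1 7 3 1 3 0 2 4 5 (by decide +kernel)
def w3130 : PV o3130 := fun P h => h.t 3 1 7 3 1 3 0 4 2 5 (by decide +kernel)
def w3131 : PV o3131 := fun P h => h.t 3 1 7 3 1 3 2 4 0 5 (by decide +kernel)
def w3132 : PV o3132 := fun P h => h.t 3 1 7 3 1 4 0 2 3 5 (by decide +kernel)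
def w3133 : PV o3133 := fun P h => h.t 3 1 7 3 1 4 0 3 2 5 (by decide +kernel)
def w3134 : PV o3134 := fun P h => h.t 3 1 7 3 1 4 2 3 0 5 (by decide +kernel)
def w3135 : PV o3135 := fun P h => h.t 3 1 7 3 2 3 0 1 4 5 (by decide +kernel)
def w3136 : PV o3136 := fun P h => h.t 3 1 7 3 2 3 0 4 1 5 (by decide +kernel)
def w3137 : PV o3137 := fun P h => h.t 3 1 7 3 2 3 0 5 1 4 (by decide +kernel)
def w3138 : PV o3138 := fun P h => h.t 3 1 7 3 2 3 1 4 0 5 (by decide +kernel)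
def w3139 : PV o3139 := fun P h => h.t 3 1 7 3 2 4 0 1 3 5 (by decide +kernel)
def w3140 : PV o3140 := fun P h => h.t 3 1 7 3 2 4 0 3 1 5 (by decide +kernel)
def w3141 : PV o3141 := fun P h => h.t 3 1 7 3 2 4 1 3 0 5 (by decide +kernel)
def w3142 : PV o3142 := fun P h => h.t 3 1 7 3 2 5 0 1 3 4 (by decide +kernel)
def w3143 : PV o3143 := fun P h => h.t 3 1 7 3 3 4 0 1 2 5 (by decide +kernel)
def w3144 : PV o3144 := fun P h => h.t 3 1 7 3 3 4 0 2 1 5 (by decide +kernel)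
def w3145 : PV o3145 := fun P h => h.t 3 1 7 3 3 4 0 5 1 2 (by decide +kernel)
def w3146 : PV o3146 := fun P h => h.t 3 1 7 3 3 4 1 2 0 5 (by decide +kernel)
def w3147 : PV o3147 := fun P h => h.t 3 1 7 3 4 5 0 1 2 3 (by decide +kernel)
def w3148 : PV o3148 := fun P h => h.t 3 1 7 3 4 5 0 2 1 3 (by decide +kernel)
def w3149 : PV o3149 := fun P h => h.t 3 1 7 4 0 2 3 5 1 4 (by decide +kernel)
def w3150 : PV o3150 := fun P h => h.t 3 1 7 4 1 4 0 2 3 5 (by decide +kernel)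
def w3151 : PV o3151 := fun P h => h.t 3 1 7 4 1 4 0 5 2 3 (by decide +kernel)
def w3152 : PV o3152 := fun P h => h.t 3 1 7 4 2 3 0 5 1 4 (by decide +kernel)
def w3153 : PV o3153 := fun P h => h.t 3 1 7 4 2 4 0 1 3 5 (by decide +kernel)
def w3154 : PV o3154 := fun P h => h.t 3 1 7 5 0 2 1 3 4 5 (by decide +kernel)
def w3155 : PV o3155 := fun P h => h.t 3 1 7 5 0 2 3 4 1 5 (by decide +kernel)
def w3156 : PV o3156 := fun P h => h.t 3 1 7 5 1 2 0 5 3 4 (by decide +kernel)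
def w3157 : PV o3157 := fun P h => h.t 3 1 7 5 1 3 0 2 4 5 (by decide +kernel)
def w3158 : PV o3158 := fun P h => h.t 3 1 7 5 1 4 0 3 2 5 (by decide +kernel)
def w3159 : PV o3159 := fun P h => h.t 3 1 7 5 1 4 0 5 2 3 (by decide +kernel)
def w3160 : PV o3160 := fun P h => h.t 3 1 7 5 2 3 0 1 4 5 (by decide +kernel)
def w3161 : PV o3161 := fun P h => h.t 3 1 7 5 2 3 1 5 0 4 (by decide +kernel)
def w3162 : PV o3162 := fun P h => h.t 3 1 7 5 2 3 4 5 0 1 (by decide +kernel)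
def w3163 : PV o3163 := fun P h => h.t 3 1 7 5 2 4 3 5 0 1 (by decide +kernel)
def w3164 : PV o3164 := fun P h => h.t 3 1 7 6 0 1 2 5 3 4 (by decide +kernel)
def w3165 : PV o3165 := fun P h => h.t 3 1 7 6 0 1 3 4 2 5 (by decide +kernel)
def w3166 : PV o3166 := fun P h => h.t 3 1 7 6 0 2 1 5 3 4 (by decide +kernel)
def w3167 : PV o3167 := fun P h => h.t 3 1 7 6 0 3 1 4 2 5 (by decide +kernel)
def w3168 : PV o3168 := fun P h => h.t 3 1 7 6 0 3 1 5 2 4 (by decide +kernel)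
def w3169 : PV o3169 := fun P h => h.t 3 1 7 6 0 3 2 4 1 5 (by decide +kernel)
def w3170 : PV o3170 := fun P h => h.t 3 1 7 6 0 3 4 5 1 2 (by decide +kernel)
def w3171 : PV o3171 := fun P h => h.t 3 1 7 6 0 4 1 5 2 3 (by decide +kernel)
def w3172 : PV o3172 := fun P h => h.t 3 1 7 6 0 4 2 5 1 3 (by decide +kernel)
def w3173 : PV o3173 := fun P h => h.t 3 1 7 6 0 5 1 4 2 3 (by decide +kernel)
def w3174 : PV o3174 := fun P h => h.t 3 1 7 6 0 5 2 4 1 3 (by decide +kernel)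
def w3175 : PV o3175 := fun P h => h.t 3 1 7 6 1 2 3 4 0 5 (by decide +kernel)
def w3176 : PV o3176 := fun P h => h.t 3 1 7 6 1 3 0 2 4 5 (by decide +kernel)
def w3177 : PV o3177 := fun P h => h.t 3 1 7 6 1 3 4 5 0 2 (by decide +kernel)
def w3178 : PV o3178 := fun P h => h.t 3 1 7 6 1 4 0 5 2 3 (by decide +kernel)
def w3179 : PV o3179 := fun P h => h.t 3 1 7 6 1 4 2 5 0 3 (by decide +kernel)
def w3180 : PV o3180 := fun P h => h.t 3 1 7 6 1 5 0 2 3 4 (by decide +kernel)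
def w3181 : PV o3181 := fun P h => h.t 3 1 7 6 1 5 2 3 0 4 (by decide +kernel)
def w3182 : PV o3182 := fun P h => h.t 3 1 7 6 1 5 2 4 0 3 (by decide +kernel)
def w3183 : PV o3183 := fun P h => h.t 3 1 7 6 1 5 3 4 0 2 (by decide +kernel)
def w3184 : PV o3184 := fun P h => h.t 3 1 7 6 2 3 0 5 1 4 (by decide +kernel)
def w3185 : PV o3185 := fun P h => h.t 3 1 7 6 2 3 4 5 0 1 (by decide +kernel)
def w3186 : PV o3186 := fun P h => h.t 3 1 7 6 2 4 0 5 1 3 (by decide +kernel)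
def w3187 : PV o3187 := fun P h => h.t 3 1 7 6 2 4 3 5 0 1 (by decide +kernel)
def w3188 : PV o3188 := fun P h => h.t 3 1 7 6 2 5 0 1 3 4 (by decide +kernel)
def w3189 : PV o3189 := fun P h => h.t 3 1 7 6 2 5 0 4 1 3 (by decide +kernel)
def w3190 : PV o3190 := fun P h => h.t 3 1 7 6 2 5 1 3 0 4 (by decide +kernel)
def w3191 : PV o3191 := fun P h => h.t 3 1 7 6 2 5 3 4 0 1 (by decide +kernel)
def w3192 : PV o3192 := fun P h => h.t 3 1 7 6 3 4 0 1 2 5 (by decide +kernel)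
def w3193 : PV o3193 := fun P h => h.t 3 1 7 6 3 4 0 2 1 5 (by decide +kernel)
def w3194 : PV o3194 := fun P h => h.t 3 1 7 6 3 4 0 5 1 2 (by decide +kernel)
def w3195 : PV o3195 := fun P h => h.t 3 1 7 6 3 4 1 5 0 2 (by decide +kernel)
def w3196 : PV o3196 := fun P h => h.t 3 1 7 6 3 5 0 1 2 4 (by decide +kernel)
def w3197 : PV o3197 := fun P h => h.t 3 1 7 6 3 5 0 2 1 4 (by decide +kernel)
def w3198 : PV o3198 := fun P h => h.t 3 1 7 6 3 5 1 2 0 4 (by decide +kernel)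
def w3199 : PV o3199 := fun P h => h.t 3 1 7 6 3 5 1 4 0 2 (by decide +kernel)
def w3200 : PV o3200 := fun P h => h.t 3 1 7 6 3 5 2 4 0 1 (by decide +kernel)
def w3201 : PV o3201 := fun P h => h.t 3 1 7 6 4 5 0 1 2 3 (by decide +kernel)
def w3202 : PV o3202 := fun P h => h.t 3 1 7 6 4 5 0 3 1 2 (by decide +kernel)
def w3203 : PV o3203 := fun P h => h.t 3 1 7 6 4 5 1 2 0 3 (by decide +kernel)
def w3204 : PV o3204 := fun P h => h.t 3 1 7 6 4 5 1 3 0 2 (by decide +kernel)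
def w3205 : PV o3205 := fun P h => h.t 3 1 7 6 4 5 2 3 0 1 (by decide +kernel)
def w3206 : PV o3206 := fun P h => h.t 3 1 7 7 0 2 1 3 4 5 (by decide +kernel)
def w3207 : PV o3207 := fun P h => h.t 3 1 7 7 0 2 3 4 1 5 (by decide +kernel)
def w3208 : PV o3208 := fun P h => h.t 3 1 7 7 0 2 4 5 1 3 (by decide +kernel)
def w3209 : PV o3209 := fun P h => h.t 3 1 7 7 0 4 1 2 3 5 (by decide +kernel)
def w3210 : PV o3210 := fun P h => h.t 3 1 7 7 0 4 1 5 2 3 (by decide +kernel)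
def w3211 : PV o3211 := fun P h => h.t 3 1 7 7 1 2 0 3 4 5 (by decide +kernel)
def w3212 : PV o3212 := fun P h => h.t 3 1 7 7 1 2 3 4 0 5 (by decide +kernel)
def w3213 : PV o3213 := fun P h => h.t 3 1 7 7 1 2 4 5 0 3 (by decide +kernel)
def w3214 : PV o3214 := fun P h => h.t 3 1 7 7 1 3 0 2 4 5 (by decide +kernel)
def w3215 : PV o3215 := fun P h => h.t 3 1 7 7 1 3 0 4 2 5 (by decide +kernel)
def w3216 : PV o3216 := fun P h => h.t 3 1 7 7 1 3 4 5 0 2 (by decide +kernel)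
def w3217 : PV o3217 := fun P h => h.t 3 1 7 7 1 4 2 3 0 5 (by decide +kernel)
def w3218 : PV o3218 := fun P h => h.t 3 1 7 7 1 5 0 4 2 3 (by decide +kernel)
def w3219 : PV o3219 := fun P h => h.t 3 1 7 7 2 3 0 1 4 5 (by decide +kernel)
def w3220 : PV o3220 := fun P h => h.t 3 1 7 7 2 4 0 1 3 5 (by decide +kernel)
def w3221 : PV o3221 := fun P h => h.t 3 1 7 7 2 4 0 3 1 5 (by decide +kernel)
def w3222 : PV o3222 := fun P h => h.t 3 1 7 7 2 4 0 5 1 3 (by decide +kernel)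
def w3223 : PV o3223 := fun P h => h.t 3 1 7 7 2 4 1 3 0 5 (by decide +kernel)
def w3224 : PV o3224 := fun P h => h.t 3 1 7 7 2 4 1 5 0 3 (by decide +kernel)
def w3225 : PV o3225 := fun P h => h.t 3 1 7 7 2 4 3 5 0 1 (by decide +kernel)
def w3226 : PV o3226 := fun P h => h.t 3 1 7 7 2 5 0 1 3 4 (by decide +kernel)
def w3227 : PV o3227 := fun P h => h.t 3 1 7 7 2 5 3 4 0 1 (by decide +kernel)
def w3228 : PV o3228 := fun P h => h.t 3 1 7 7 3 4 0 1 2 5 (by decide +kernel)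
def w3229 : PV o3229 := fun P h => h.t 3 1 7 7 3 4 0 5 1 2 (by decide +kernel)
def w3230 : PV o3230 := fun P h => h.t 3 1 7 7 3 4 1 5 0 2 (by decide +kernel)
def w3231 : PV o3231 := fun P h => h.t 3 1 7 7 3 4 2 5 0 1 (by decide +kernel)
def w3232 : PV o3232 := fun P h => h.t 3 1 7 7 3 5 0 1 2 4 (by decide +kernel)
def w3233 : PV o3233 := fun P h => h.t 3 1 7 7 3 5 0 4 1 2 (by decide +kernel)
def w3234 : PV o3234 := fun P h => h.t 3 1 7 7 3 5 1 2 0 4 (by decide +kernel)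
def w3235 : PV o3235 := fun P h => h.t 3 1 7 7 3 5 1 4 0 2 (by decide +kernel)
def w3236 : PV o3236 := fun P h => h.t 3 1 7 7 3 5 2 4 0 1 (by decide +kernel)
def w3237 : PV o3237 := fun P h => h.x 3 1 7 15 (by decide +kernel)
def w3238 : PV o3238 := fun P h => h.x 3 1 7 13 (by decide +kernel)
def w3239 : PV o3239 := fun P h => h.x 3 1 7 12 (by decide +kernel)
def w3240 : PV o3240 := fun P h => h.x 3 1 7 5 (by decide +kernel)
def w3241 : PV o3241 := fun P h => h.x 3 1 7 4 (by decide +kernel)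
def w3242 : PV o3242 := fun P h => h.x 3 1 7 0 (by decide +kernel)
def w3243 : PV o3243 := fun P h => h.x 3 2 1 15 (by decide +kernel)
def w3244 : PV o3244 := fun P h => h.t 3 2 3 3 0 2 1 5 3 4 (by decide +kernel)
def w3245 : PV o3245 := fun P h => h.t 3 2 3 3 0 4 1 2 3 5 (by decide +kernel)
def w3246 : PV o3246 := fun P h => h.t 3 2 3 3 0 4 1 5 2 3 (by decide +kernel)
def w3247 : PV o3247 := fun P h => h.t 3 2 3 3 1 2 0 5 3 4 (by decide +kernel)
def w3248 : PV o3248 := fun P h => h.t 3 2 3 3 1 4 0 5 2 3 (by decide +kernel)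
def w3249 : PV o3249 := fun P h => h.t 3 2 3 3 2 4 0 3 1 5 (by decide +kernel)
def w3250 : PV o3250 := fun P h => h.t 3 2 3 3 2 4 0 5 1 3 (by decide +kernel)
def w3251 : PV o3251 := fun P h => h.t 3 2 3 3 3 4 0 1 2 5 (by decide +kernel)
def w3252 : PV o3252 := fun P h => h.t 3 2 3 3 3 4 0 5 1 2 (by decide +kernel)
def w3253 : PV o3253 := fun P h => h.t 3 2 3 6 1 2 0 3 4 5 (by decide +kernel)
def w3254 : PV o3254 := fun P h => h.t 3 2 3 6 1 3 0 4 2 5 (by decide +kernel)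
def w3255 : PV o3255 := fun P h => h.t 3 2 3 6 1 4 0 5 2 3 (by decide +kernel)
def w3256 : PV o3256 := fun P h => h.t 3 2 3 6 2 3 0 4 1 5 (by decide +kernel)
def w3257 : PV o3257 := fun P h => h.t 3 2 3 6 2 5 0 1 3 4 (by decide +kernel)
def w3258 : PV o3258 := fun P h => h.t 3 2 3 6 3 4 0 5 1 2 (by decide +kernel)
def w3259 : PV o3259 := fun P h => h.t 3 2 3 6 3 4 2 5 0 1 (by decide +kernel)
def w3260 : PV o3260 := fun P h => h.t 3 2 3 6 4 5 0 1 2 3 (by decide +kernel)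
def w3261 : PV o3261 := fun P h => h.t 3 2 3 7 1 2 0 3 4 5 (by decide +kernel)
def w3262 : PV o3262 := fun P h => h.t 3 2 3 7 1 3 0 4 2 5 (by decide +kernel)
def w3263 : PV o3263 := fun P h => h.t 3 2 3 7 1 4 0 5 2 3 (by decide +kernel)
def w3264 : PV o3264 := fun P h => h.t 3 2 3 7 1 4 2 3 0 5 (by decide +kernel)
def w3265 : PV o3265 := fun P h => h.t 3 2 3 7 2 3 0 1 4 5 (by decide +kernel)
def w3266 : PV o3266 := fun P h => h.t 3 2 3 7 2 3 0 4 1 5 (by decide +kernel)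
def w3267 : PV o3267 := fun P h => h.t 3 2 3 7 2 4 0 1 3 5 (by decide +kernel)
def w3268 : PV o3268 := fun P h => h.t 3 2 3 7 2 4 0 5 1 3 (by decide +kernel)
def w3269 : PV o3269 := fun P h => h.t 3 2 3 7 2 4 1 5 0 3 (by decide +kernel)
def w3270 : PV o3270 := fun P h => h.t 3 2 3 7 2 5 0 1 3 4 (by decide +kernel)
def w3271 : PV o3271 := fun P h => h.t 3 2 3 7 3 4 0 1 2 5 (by decide +kernel)
def w3272 : PV o3272 := fun P h => h.t 3 2 3 7 3 4 0 5 1 2 (by decide +kernel)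
def w3273 : PV o3273 := fun P h => h.t 3 2 3 7 3 5 0 1 2 4 (by decide +kernel)
def w3274 : PV o3274 := fun P h => h.t 3 2 3 7 4 5 0 1 2 3 (by decide +kernel)
def w3275 : PV o3275 := fun P h => h.x 3 2 3 0 (by decide +kernel)
def w3276 : PV o3276 := fun P h => h.t 3 2 6 3 1 2 3 4 0 5 (by decide +kernel)
def w3277 : PV o3277 := fun P h => h.t 3 2 6 3 1 4 2 3 0 5 (by decide +kernel)
def w3278 : PV o3278 := fun P h => h.t 3 2 6 3 2 3 0 4 1 5 (by decide +kernel)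
def w3279 : PV o3279 := fun P h => h.t 3 2 6 3 2 4 0 3 1 5 (by decide +kernel)
def w3280 : PV o3280 := fun P h => h.t 3 2 6 3 3 4 0 1 2 5 (by decide +kernel)
def w3281 : PV o3281 := fun P h => h.t 3 2 7 3 0 1 2 4 3 5 (by decide +kernel)
def w3282 : PV o3282 := fun P h => h.t 3 2 7 3 1 3 2 4 0 5 (by decide +kernel)
def w3283 : PV o3283 := fun P h => h.t 3 2 7 3 1 4 2 3 0 5 (by decide +kernel)
def w3284 : PV o3284 := fun P h => h.t 3 2 7 3 2 4 0 3 1 5 (by decide +kernel)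
def w3285 : PV o3285 := fun P h => h.t 3 2 7 7 1 5 2 4 0 3 (by decide +kernel)
def w3286 : PV o3286 := fun P h => h.x 3 2 7 12 (by decide +kernel)
def w3287 : PV o3287 := fun P h => h.x 3 2 7 4 (by decide +kernel)
def w3288 : PV o3288 := fun P h => h.x 3 3 0 15 (by decide +kernel)
def w3289 : PV o3289 := fun P h => h.x 3 3 0 0 (by decide +kernel)
def w3290 : PV o3290 := fun P h => h.x 3 3 1 15 (by decide +kernel)
def w3291 : PV o3291 := fun P h => h.t 3 3 3 3 0 2 3 5 1 4 (by decide +kernel)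
def w3292 : PV o3292 := fun P h => h.t 3 3 3 4 0 1 2 4 3 5 (by decide +kernel)
def w3293 : PV o3293 := fun P h => h.t 3 3 3 4 0 1 2 5 3 4 (by decide +kernel)
def w3294 : PV o3294 := fun P h => h.t 3 3 3 4 0 2 3 4 1 5 (by decide +kernel)
def w3295 : PV o3295 := fun P h => h.t 3 3 3 4 0 2 3 5 1 4 (by decide +kernel)
def w3296 : PV o3296 := fun P h => h.t 3 3 3 4 0 2 4 5 1 3 (by decide +kernel)
def w3297 : PV o3297 := fun P h => h.t 3 3 3 4 0 3 1 5 2 4 (by decide +kernel)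
def w3298 : PV o3298 := fun P h => h.t 3 3 3 4 0 3 4 5 1 2 (by decide +kernel)
def w3299 : PV o3299 := fun P h => h.t 3 3 3 4 0 4 1 2 3 5 (by decide +kernel)
def w3300 : PV o3300 := fun P h => h.t 3 3 3 4 0 4 2 5 1 3 (by decide +kernel)
def w3301 : PV o3301 := fun P h => h.t 3 3 3 4 0 5 1 2 3 4 (by decide +kernel)
def w3302 : PV o3302 := fun P h => h.t 3 3 3 4 0 5 1 3 2 4 (by decide +kernel)
def w3303 : PV o3303 := fun P h => h.t 3 3 3 4 0 5 2 4 1 3 (by decide +kernel)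
def w3304 : PV o3304 := fun P h => h.t 3 3 3 4 1 2 3 5 0 4 (by decide +kernel)
def w3305 : PV o3305 := fun P h => h.t 3 3 3 4 1 2 4 5 0 3 (by decide +kernel)
def w3306 : PV o3306 := fun P h => h.t 3 3 3 4 1 3 4 5 0 2 (by decide +kernel)
def w3307 : PV o3307 := fun P h => h.t 3 3 3 4 1 5 2 3 0 4 (by decide +kernel)
def w3308 : PV o3308 := fun P h => h.t 3 3 3 4 1 5 3 4 0 2 (by decide +kernel)
def w3309 : PV o3309 := fun P h => h.t 3 3 3 5 0 1 2 4 3 5 (by decide +kernel)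
def w3310 : PV o3310 := fun P h => h.t 3 3 3 5 0 1 2 5 3 4 (by decide +kernel)
def w3311 : PV o3311 := fun P h => h.t 3 3 3 5 0 2 4 5 1 3 (by decide +kernel)
def w3312 : PV o3312 := fun P h => h.t 3 3 3 5 0 3 1 5 2 4 (by decide +kernel)
def w3313 : PV o3313 := fun P h => h.t 3 3 3 5 0 3 4 5 1 2 (by decide +kernel)
def w3314 : PV o3314 := fun P h => h.t 3 3 3 5 0 4 1 2 3 5 (by decide +kernel)
def w3315 : PV o3315 := fun P h => h.t 3 3 3 5 0 4 2 3 1 5 (by decide +kernel)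
def w3316 : PV o3316 := fun P h => h.t 3 3 3 5 0 5 1 2 3 4 (by decide +kernel)
def w3317 : PV o3317 := fun P h => h.t 3 3 3 5 0 5 1 3 2 4 (by decide +kernel)
def w3318 : PV o3318 := fun P h => h.t 3 3 3 5 0 5 2 3 1 4 (by decide +kernel)
def w3319 : PV o3319 := fun P h => h.t 3 3 3 5 1 2 3 5 0 4 (by decide +kernel)
def w3320 : PV o3320 := fun P h => h.t 3 3 3 5 1 2 4 5 0 3 (by decide +kernel)
def w3321 : PV o3321 := fun P h => h.t 3 3 3 5 1 5 2 3 0 4 (by decide +kernel)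
def w3322 : PV o3322 := fun P h => h.t 3 3 3 6 0 1 2 4 3 5 (by decide +kernel)
def w3323 : PV o3323 := fun P h => h.t 3 3 3 6 0 1 2 5 3 4 (by decide +kernel)
def w3324 : PV o3324 := fun P h => h.t 3 3 3 6 0 2 4 5 1 3 (by decide +kernel)
def w3325 : PV o3325 := fun P h => h.t 3 3 3 6 0 3 1 5 2 4 (by decide +kernel)
def w3326 : PV o3326 := fun P h => h.t 3 3 3 6 0 3 4 5 1 2 (by decide +kernel)
def w3327 : PV o3327 := fun P h => h.t 3 3 3 6 0 4 1 2 3 5 (by decide +kernel)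
def w3328 : PV o3328 := fun P h => h.t 3 3 3 6 0 4 2 3 1 5 (by decide +kernel)
def w3329 : PV o3329 := fun P h => h.t 3 3 3 6 0 4 2 5 1 3 (by decide +kernel)
def w3330 : PV o3330 := fun P h => h.t 3 3 3 6 0 5 1 2 3 4 (by decide +kernel)
def w3331 : PV o3331 := fun P h => h.t 3 3 3 6 0 5 1 3 2 4 (by decide +kernel)
def w3332 : PV o3332 := fun P h => h.t 3 3 3 6 0 5 2 4 1 3 (by decide +kernel)
def w3333 : PV o3333 := fun P h => h.t 3 3 3 6 1 2 3 5 0 4 (by decide +kernel)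
def w3334 : PV o3334 := fun P h => h.t 3 3 3 6 1 2 4 5 0 3 (by decide +kernel)
def w3335 : PV o3335 := fun P h => h.t 3 3 3 6 1 3 4 5 0 2 (by decide +kernel)
def w3336 : PV o3336 := fun P h => h.t 3 3 3 6 1 5 2 3 0 4 (by decide +kernel)
def w3337 : PV o3337 := fun P h => h.t 3 3 3 7 0 1 2 4 3 5 (by decide +kernel)
def w3338 : PV o3338 := fun P h => h.t 3 3 3 7 0 1 2 5 3 4 (by decide +kernel)
def w3339 : PV o3339 := fun P h => h.t 3 3 3 7 0 1 3 5 2 4 (by decide +kernel)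
def w3340 : PV o3340 := fun P h => h.t 3 3 3 7 0 2 3 5 1 4 (by decide +kernel)
def w3341 : PV o3341 := fun P h => h.t 3 3 3 7 0 3 1 5 2 4 (by decide +kernel)
def w3342 : PV o3342 := fun P h => h.t 3 3 3 7 0 4 1 2 3 5 (by decide +kernel)
def w3343 : PV o3343 := fun P h => h.t 3 3 3 7 0 4 2 5 1 3 (by decide +kernel)
def w3344 : PV o3344 := fun P h => h.t 3 3 3 7 0 5 1 2 3 4 (by decide +kernel)
def w3345 : PV o3345 := fun P h => h.t 3 3 3 7 0 5 2 4 1 3 (by decide +kernel)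
def w3346 : PV o3346 := fun P h => h.t 3 3 3 7 0 5 3 4 1 2 (by decide +kernel)
def w3347 : PV o3347 := fun P h => h.t 3 3 3 7 1 2 3 5 0 4 (by decide +kernel)
def w3348 : PV o3348 := fun P h => h.t 3 3 3 7 1 2 4 5 0 3 (by decide +kernel)
def w3349 : PV o3349 := fun P h => h.t 3 3 3 7 1 3 4 5 0 2 (by decide +kernel)
def w3350 : PV o3350 := fun P h => h.t 3 3 3 7 1 5 2 3 0 4 (by decide +kernel)
def w3351 : PV o3351 := fun P h => h.t 3 3 4 4 1 2 3 4 0 5 (by decide +kernel)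
def w3352 : PV o3352 := fun P h => h.t 3 3 4 4 1 2 4 5 0 3 (by decide +kernel)
def w3353 : PV o3353 := fun P h => h.t 3 3 4 4 1 3 2 4 0 5 (by decide +kernel)
def w3354 : PV o3354 := fun P h => h.t 3 3 4 4 1 5 2 3 0 4 (by decide +kernel)
def w3355 : PV o3355 := fun P h => h.t 3 3 4 4 2 4 3 5 0 1 (by decide +kernel)
def w3356 : PV o3356 := fun P h => h.t 3 3 4 4 3 4 0 5 1 2 (by decide +kernel)
def w3357 : PV o3357 := fun P h => h.t 3 3 4 4 3 5 0 4 1 2 (by decide +kernel)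
def w3358 : PV o3358 := fun P h => h.t 3 3 4 5 0 1 2 3 4 5 (by decide +kernel)
def w3359 : PV o3359 := fun P h => h.t 3 3 4 5 0 1 2 4 3 5 (by decide +kernel)
def w3360 : PV o3360 := fun P h => h.t 3 3 4 5 0 1 2 5 3 4 (by decide +kernel)
def w3361 : PV o3361 := fun P h => h.t 3 3 4 5 1 2 3 4 0 5 (by decide +kernel)
def w3362 : PV o3362 := fun P h => h.t 3 3 4 5 1 2 3 5 0 4 (by decide +kernel)
def w3363 : PV o3363 := fun P h => h.t 3 3 4 5 1 3 4 5 0 2 (by decide +kernel)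
def w3364 : PV o3364 := fun P h => h.t 3 3 4 5 3 4 0 5 1 2 (by decide +kernel)
def w3365 : PV o3365 := fun P h => h.t 3 3 4 6 0 1 2 3 4 5 (by decide +kernel)
def w3366 : PV o3366 := fun P h => h.t 3 3 4 6 0 1 2 4 3 5 (by decide +kernel)
def w3367 : PV o3367 := fun P h => h.t 3 3 4 6 0 1 2 5 3 4 (by decide +kernel)
def w3368 : PV o3368 := fun P h => h.t 3 3 4 6 1 2 3 4 0 5 (by decide +kernel)
def w3369 : PV o3369 := fun P h => h.t 3 3 4 6 1 3 4 5 0 2 (by decide +kernel)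
def w3370 : PV o3370 := fun P h => h.t 3 3 4 6 2 3 4 5 0 1 (by decide +kernel)
def w3371 : PV o3371 := fun P h => h.t 3 3 4 7 0 1 2 3 4 5 (by decide +kernel)
def w3372 : PV o3372 := fun P h => h.t 3 3 4 7 0 1 2 4 3 5 (by decide +kernel)
def w3373 : PV o3373 := fun P h => h.t 3 3 4 7 0 1 2 5 3 4 (by decide +kernel)
def w3374 : PV o3374 := fun P h => h.t 3 3 4 7 1 2 3 4 0 5 (by decide +kernel)
def w3375 : PV o3375 := fun P h => h.t 3 3 4 7 1 2 3 5 0 4 (by decide +kernel)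
def w3376 : PV o3376 := fun P h => h.t 3 3 4 7 1 3 4 5 0 2 (by decide +kernel)
def w3377 : PV o3377 := fun P h => h.t 3 3 4 7 1 4 2 5 0 3 (by decide +kernel)
def w3378 : PV o3378 := fun P h => h.t 3 3 4 7 1 5 2 3 0 4 (by decide +kernel)
def w3379 : PV o3379 := fun P h => h.t 3 3 4 7 2 4 0 5 1 3 (by decide +kernel)
def w3380 : PV o3380 := fun P h => h.t 3 3 4 7 2 5 0 3 1 4 (by decide +kernel)
def w3381 : PV o3381 := fun P h => h.t 3 3 4 7 3 4 0 5 1 2 (by decide +kernel)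
def w3382 : PV o3382 := fun P h => h.t 3 3 4 7 3 5 0 1 2 4 (by decide +kernel)
def w3383 : PV o3383 := fun P h => h.x 3 3 4 13 (by decide +kernel)
def w3384 : PV o3384 := fun P h => h.x 3 3 4 5 (by decide +kernel)
def w3385 : PV o3385 := fun P h => h.t 3 3 5 4 0 2 3 5 1 4 (by decide +kernel)
def w3386 : PV o3386 := fun P h => h.t 3 3 5 4 1 2 3 4 0 5 (by decide +kernel)
def w3387 : PV o3387 := fun P h => h.t 3 3 5 4 1 2 3 5 0 4 (by decide +kernel)
def w3388 : PV o3388 := fun P h => h.t 3 3 5 4 2 3 4 5 0 1 (by decide +kernel)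
def w3389 : PV o3389 := fun P h => h.t 3 3 5 4 3 4 1 5 0 2 (by decide +kernel)
def w3390 : PV o3390 := fun P h => h.t 3 3 5 6 0 1 2 3 4 5 (by decide +kernel)
def w3391 : PV o3391 := fun P h => h.t 3 3 5 6 0 1 2 4 3 5 (by decide +kernel)
def w3392 : PV o3392 := fun P h => h.t 3 3 5 6 0 1 3 4 2 5 (by decide +kernel)
def w3393 : PV o3393 := fun P h => h.t 3 3 5 6 0 1 3 5 2 4 (by decide +kernel)
def w3394 : PV o3394 := fun P h => h.t 3 3 5 6 0 1 4 5 2 3 (by decide +kernel)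
def w3395 : PV o3395 := fun P h => h.t 3 3 5 6 1 2 0 3 4 5 (by decide +kernel)
def w3396 : PV o3396 := fun P h => h.t 3 3 5 6 1 2 0 4 3 5 (by decide +kernel)
def w3397 : PV o3397 := fun P h => h.t 3 3 5 6 1 2 3 4 0 5 (by decide +kernel)
def w3398 : PV o3398 := fun P h => h.t 3 3 5 6 1 2 3 5 0 4 (by decide +kernel)
def w3399 : PV o3399 := fun P h => h.t 3 3 5 6 1 3 4 5 0 2 (by decide +kernel)
def w3400 : PV o3400 := fun P h => h.t 3 3 5 6 1 4 2 5 0 3 (by decide +kernel)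
def w3401 : PV o3401 := fun P h => h.t 3 3 5 6 1 4 3 5 0 2 (by decide +kernel)
def w3402 : PV o3402 := fun P h => h.t 3 3 5 6 1 5 2 3 0 4 (by decide +kernel)
def w3403 : PV o3403 := fun P h => h.t 3 3 5 6 1 5 2 4 0 3 (by decide +kernel)
def w3404 : PV o3404 := fun P h => h.t 3 3 5 6 1 5 3 4 0 2 (by decide +kernel)
def w3405 : PV o3405 := fun P h => h.t 3 3 5 6 2 3 0 1 4 5 (by decide +kernel)
def w3406 : PV o3406 := fun P h => h.t 3 3 5 6 2 3 0 4 1 5 (by decide +kernel)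
def w3407 : PV o3407 := fun P h => h.t 3 3 5 6 2 3 4 5 0 1 (by decide +kernel)
def w3408 : PV o3408 := fun P h => h.t 3 3 5 6 2 4 0 5 1 3 (by decide +kernel)
def w3409 : PV o3409 := fun P h => h.t 3 3 5 6 2 5 0 3 1 4 (by decide +kernel)
def w3410 : PV o3410 := fun P h => h.t 3 3 5 6 3 4 0 1 2 5 (by decide +kernel)
def w3411 : PV o3411 := fun P h => h.t 3 3 5 6 3 4 2 5 0 1 (by decide +kernel)
def w3412 : PV o3412 := fun P h => h.t 3 3 5 6 3 5 0 2 1 4 (by decide +kernel)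
def w3413 : PV o3413 := fun P h => h.t 3 3 5 6 4 5 0 1 2 3 (by decide +kernel)
def w3414 : PV o3414 := fun P h => h.t 3 3 5 6 4 5 0 2 1 3 (by decide +kernel)
def w3415 : PV o3415 := fun P h => h.t 3 3 5 6 4 5 2 3 0 1 (by decide +kernel)
def w3416 : PV o3416 := fun P h => h.t 3 3 5 7 0 1 2 4 3 5 (by decide +kernel)
def w3417 : PV o3417 := fun P h => h.t 3 3 5 7 0 1 2 5 3 4 (by decide +kernel)
def w3418 : PV o3418 := fun P h => h.t 3 3 5 7 1 2 3 4 0 5 (by decide +kernel)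
def w3419 : PV o3419 := fun P h => h.t 3 3 5 7 1 3 4 5 0 2 (by decide +kernel)
def w3420 : PV o3420 := fun P h => h.t 3 3 5 7 1 4 2 5 0 3 (by decide +kernel)
def w3421 : PV o3421 := fun P h => h.t 3 3 5 7 1 5 2 3 0 4 (by decide +kernel)
def w3422 : PV o3422 := fun P h => h.t 3 3 5 7 1 5 2 4 0 3 (by decide +kernel)
def w3423 : PV o3423 := fun P h => h.t 3 3 5 7 2 4 0 5 1 3 (by decide +kernel)
def w3424 : PV o3424 := fun P h => h.t 3 3 5 7 2 5 1 3 0 4 (by decide +kernel)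
def w3425 : PV o3425 := fun P h => h.t 3 3 5 7 2 5 3 4 0 1 (by decide +kernel)
def w3426 : PV o3426 := fun P h => h.t 3 3 5 7 3 4 2 5 0 1 (by decide +kernel)
def w3427 : PV o3427 := fun P h => h.x 3 3 5 15 (by decide +kernel)
def w3428 : PV o3428 := fun P h => h.x 3 3 5 5 (by decide +kernel)
def w3429 : PV o3429 := fun P h => h.x 3 3 5 0 (by decide +kernel)
def w3430 : PV o3430 := fun P h => h.t 3 3 6 4 0 2 3 4 1 5 (by decide +kernel)
def w3431 : PV o3431 := fun P h => h.t 3 3 6 4 1 2 3 5 0 4 (by decide +kernel)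
def w3432 : PV o3432 := fun P h => h.t 3 3 6 4 2 3 4 5 0 1 (by decide +kernel)
def w3433 : PV o3433 := fun P h => h.t 3 3 6 4 4 5 1 2 0 3 (by decide +kernel)
def w3434 : PV o3434 := fun P h => h.t 3 3 6 5 0 1 2 3 4 5 (by decide +kernel)
def w3435 : PV o3435 := fun P h => h.t 3 3 6 5 0 1 2 4 3 5 (by decide +kernel)
def w3436 : PV o3436 := fun P h => h.t 3 3 6 5 0 1 2 5 3 4 (by decide +kernel)
def w3437 : PV o3437 := fun P h => h.t 3 3 6 5 0 1 3 4 2 5 (by decide +kernel)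
def w3438 : PV o3438 := fun P h => h.t 3 3 6 5 0 1 3 5 2 4 (by decide +kernel)
def w3439 : PV o3439 := fun P h => h.t 3 3 6 5 0 1 4 5 2 3 (by decide +kernel)
def w3440 : PV o3440 := fun P h => h.t 3 3 6 5 0 4 1 2 3 5 (by decide +kernel)
def w3441 : PV o3441 := fun P h => h.t 3 3 6 5 0 4 2 5 1 3 (by decide +kernel)
def w3442 : PV o3442 := fun P h => h.t 3 3 6 5 0 5 1 2 3 4 (by decide +kernel)
def w3443 : PV o3443 := fun P h => h.t 3 3 6 5 0 5 1 3 2 4 (by decide +kernel)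
def w3444 : PV o3444 := fun P h => h.t 3 3 6 5 0 5 1 4 2 3 (by decide +kernel)
def w3445 : PV o3445 := fun P h => h.t 3 3 6 5 0 5 2 3 1 4 (by decide +kernel)
def w3446 : PV o3446 := fun P h => h.t 3 3 6 5 1 2 3 5 0 4 (by decide +kernel)
def w3447 : PV o3447 := fun P h => h.t 3 3 6 5 1 4 2 5 0 3 (by decide +kernel)
def w3448 : PV o3448 := fun P h => h.t 3 3 6 5 2 3 0 5 1 4 (by decide +kernel)
def w3449 : PV o3449 := fun P h => h.t 3 3 6 5 2 3 4 5 0 1 (by decide +kernel)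
def w3450 : PV o3450 := fun P h => h.t 3 3 6 5 2 4 0 5 1 3 (by decide +kernel)
def w3451 : PV o3451 := fun P h => h.t 3 3 6 5 2 4 1 5 0 3 (by decide +kernel)
def w3452 : PV o3452 := fun P h => h.t 3 3 6 5 2 5 0 3 1 4 (by decide +kernel)
def w3453 : PV o3453 := fun P h => h.t 3 3 6 5 3 4 2 5 0 1 (by decide +kernel)
def w3454 : PV o3454 := fun P h => h.t 3 3 6 5 3 5 0 1 2 4 (by decide +kernel)
def w3455 : PV o3455 := fun P h => h.t 3 3 6 5 4 5 0 1 2 3 (by decide +kernel)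
def w3456 : PV o3456 := fun P h => h.t 3 3 6 5 4 5 0 2 1 3 (by decide +kernel)
def w3457 : PV o3457 := fun P h => h.t 3 3 6 5 4 5 0 3 1 2 (by decide +kernel)
def w3458 : PV o3458 := fun P h => h.t 3 3 6 5 4 5 1 2 0 3 (by decide +kernel)
def w3459 : PV o3459 := fun P h => h.t 3 3 6 5 4 5 1 3 0 2 (by decide +kernel)
def w3460 : PV o3460 := fun P h => h.t 3 3 6 6 1 2 3 4 0 5 (by decide +kernel)
def w3461 : PV o3461 := fun P h => h.t 3 3 6 6 1 2 4 5 0 3 (by decide +kernel)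
def w3462 : PV o3462 := fun P h => h.t 3 3 6 6 1 3 4 5 0 2 (by decide +kernel)
def w3463 : PV o3463 := fun P h => h.t 3 3 6 6 1 5 2 3 0 4 (by decide +kernel)
def w3464 : PV o3464 := fun P h => h.t 3 3 6 6 2 3 4 5 0 1 (by decide +kernel)
def w3465 : PV o3465 := fun P h => h.t 3 3 6 6 3 4 0 5 1 2 (by decide +kernel)
def w3466 : PV o3466 := fun P h => h.t 3 3 6 6 3 4 1 5 0 2 (by decide +kernel)
def w3467 : PV o3467 := fun P h => h.t 3 3 6 7 0 1 2 3 4 5 (by decide +kernel)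
def w3468 : PV o3468 := fun P h => h.t 3 3 6 7 0 1 2 4 3 5 (by decide +kernel)
def w3469 : PV o3469 := fun P h => h.t 3 3 6 7 0 1 2 5 3 4 (by decide +kernel)
def w3470 : PV o3470 := fun P h => h.t 3 3 6 7 0 1 3 4 2 5 (by decide +kernel)
def w3471 : PV o3471 := fun P h => h.t 3 3 6 7 0 1 3 5 2 4 (by decide +kernel)
def w3472 : PV o3472 := fun P h => h.t 3 3 6 7 0 1 4 5 2 3 (by decide +kernel)
def w3473 : PV o3473 := fun P h => h.t 3 3 6 7 0 3 1 4 2 5 (by decide +kernel)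
def w3474 : PV o3474 := fun P h => h.t 3 3 6 7 0 3 1 5 2 4 (by decide +kernel)
def w3475 : PV o3475 := fun P h => h.t 3 3 6 7 1 2 0 3 4 5 (by decide +kernel)
def w3476 : PV o3476 := fun P h => h.t 3 3 6 7 1 2 0 4 3 5 (by decide +kernel)
def w3477 : PV o3477 := fun P h => h.t 3 3 6 7 1 2 0 5 3 4 (by decide +kernel)
def w3478 : PV o3478 := fun P h => h.t 3 3 6 7 1 2 3 4 0 5 (by decide +kernel)
def w3479 : PV o3479 := fun P h => h.t 3 3 6 7 1 2 3 5 0 4 (by decide +kernel)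
def w3480 : PV o3480 := fun P h => h.t 3 3 6 7 1 2 4 5 0 3 (by decide +kernel)
def w3481 : PV o3481 := fun P h => h.t 3 3 6 7 1 3 2 4 0 5 (by decide +kernel)
def w3482 : PV o3482 := fun P h => h.t 3 3 6 7 1 3 4 5 0 2 (by decide +kernel)
def w3483 : PV o3483 := fun P h => h.t 3 3 6 7 1 4 0 2 3 5 (by decide +kernel)
def w3484 : PV o3484 := fun P h => h.t 3 3 6 7 1 4 2 3 0 5 (by decide +kernel)
def w3485 : PV o3485 := fun P h => h.t 3 3 6 7 1 4 2 5 0 3 (by decide +kernel)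
def w3486 : PV o3486 := fun P h => h.t 3 3 6 7 1 5 2 3 0 4 (by decide +kernel)
def w3487 : PV o3487 := fun P h => h.t 3 3 6 7 1 5 2 4 0 3 (by decide +kernel)
def w3488 : PV o3488 := fun P h => h.t 3 3 6 7 1 5 3 4 0 2 (by decide +kernel)
def w3489 : PV o3489 := fun P h => h.t 3 3 6 7 2 3 0 4 1 5 (by decide +kernel)
def w3490 : PV o3490 := fun P h => h.t 3 3 6 7 2 3 0 5 1 4 (by decide +kernel)
def w3491 : PV o3491 := fun P h => h.t 3 3 6 7 2 3 4 5 0 1 (by decide +kernel)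
def w3492 : PV o3492 := fun P h => h.t 3 3 6 7 2 4 0 5 1 3 (by decide +kernel)
def w3493 : PV o3493 := fun P h => h.t 3 3 6 7 2 5 0 3 1 4 (by decide +kernel)
def w3494 : PV o3494 := fun P h => h.t 3 3 6 7 2 5 1 3 0 4 (by decide +kernel)
def w3495 : PV o3495 := fun P h => h.t 3 3 6 7 2 5 3 4 0 1 (by decide +kernel)
def w3496 : PV o3496 := fun P h => h.t 3 3 6 7 3 4 0 2 1 5 (by decide +kernel)
def w3497 : PV o3497 := fun P h => h.t 3 3 6 7 3 4 0 5 1 2 (by decide +kernel)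
def w3498 : PV o3498 := fun P h => h.t 3 3 6 7 3 4 1 2 0 5 (by decide +kernel)
def w3499 : PV o3499 := fun P h => h.t 3 3 6 7 3 4 1 5 0 2 (by decide +kernel)
def w3500 : PV o3500 := fun P h => h.t 3 3 6 7 3 5 0 1 2 4 (by decide +kernel)
def w3501 : PV o3501 := fun P h => h.t 3 3 6 7 3 5 0 2 1 4 (by decide +kernel)
def w3502 : PV o3502 := fun P h => h.t 3 3 6 7 3 5 0 4 1 2 (by decide +kernel)
def w3503 : PV o3503 := fun P h => h.t 3 3 6 7 3 5 1 2 0 4 (by decide +kernel)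
def w3504 : PV o3504 := fun P h => h.t 3 3 6 7 4 5 0 1 2 3 (by decide +kernel)
def w3505 : PV o3505 := fun P h => h.t 3 3 6 7 4 5 0 2 1 3 (by decide +kernel)
def w3506 : PV o3506 := fun P h => h.t 3 3 6 7 4 5 0 3 1 2 (by decide +kernel)
def w3507 : PV o3507 := fun P h => h.t 3 3 6 7 4 5 1 2 0 3 (by decide +kernel)
def w3508 : PV o3508 := fun P h => h.x 3 3 6 12 (by decide +kernel)
def w3509 : PV o3509 := fun P h => h.x 3 3 6 4 (by decide +kernel)
def w3510 : PV o3510 := fun P h => h.x 3 3 6 0 (by decide +kernel)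
def w3511 : PV o3511 := fun P h => h.t 3 3 7 4 0 1 3 5 2 4 (by decide +kernel)
def w3512 : PV o3512 := fun P h => h.t 3 3 7 4 0 2 3 5 1 4 (by decide +kernel)
def w3513 : PV o3513 := fun P h => h.t 3 3 7 4 0 2 4 5 1 3 (by decide +kernel)
def w3514 : PV o3514 := fun P h => h.t 3 3 7 4 0 3 1 4 2 5 (by decide +kernel)
def w3515 : PV o3515 := fun P h => h.t 3 3 7 4 0 3 1 5 2 4 (by decide +kernel)
def w3516 : PV o3516 := fun P h => h.t 3 3 7 4 1 2 3 4 0 5 (by decide +kernel)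
def w3517 : PV o3517 := fun P h => h.t 3 3 7 4 1 2 3 5 0 4 (by decide +kernel)
def w3518 : PV o3518 := fun P h => h.t 3 3 7 4 1 2 4 5 0 3 (by decide +kernel)
def w3519 : PV o3519 := fun P h => h.t 3 3 7 4 2 3 0 4 1 5 (by decide +kernel)
def w3520 : PV o3520 := fun P h => h.t 3 3 7 4 2 3 0 5 1 4 (by decide +kernel)
def w3521 : PV o3521 := fun P h => h.t 3 3 7 4 2 3 4 5 0 1 (by decide +kernel)
def w3522 : PV o3522 := fun P h => h.t 3 3 7 4 3 4 1 5 0 2 (by decide +kernel)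
def w3523 : PV o3523 := fun P h => h.t 3 3 7 4 4 5 0 2 1 3 (by decide +kernel)
def w3524 : PV o3524 := fun P h => h.t 3 3 7 5 0 1 2 3 4 5 (by decide +kernel)
def w3525 : PV o3525 := fun P h => h.t 3 3 7 5 0 1 2 4 3 5 (by decide +kernel)
def w3526 : PV o3526 := fun P h => h.t 3 3 7 5 0 1 2 5 3 4 (by decide +kernel)
def w3527 : PV o3527 := fun P h => h.t 3 3 7 5 0 1 4 5 2 3 (by decide +kernel)
def w3528 : PV o3528 := fun P h => h.t 3 3 7 5 0 5 1 2 3 4 (by decide +kernel)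
def w3529 : PV o3529 := fun P h => h.t 3 3 7 5 0 5 1 3 2 4 (by decide +kernel)
def w3530 : PV o3530 := fun P h => h.t 3 3 7 5 0 5 1 4 2 3 (by decide +kernel)
def w3531 : PV o3531 := fun P h => h.t 3 3 7 5 1 2 0 3 4 5 (by decide +kernel)
def w3532 : PV o3532 := fun P h => h.t 3 3 7 5 1 2 0 4 3 5 (by decide +kernel)
def w3533 : PV o3533 := fun P h => h.t 3 3 7 5 1 3 4 5 0 2 (by decide +kernel)
def w3534 : PV o3534 := fun P h => h.t 3 3 7 5 1 5 2 3 0 4 (by decide +kernel)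
def w3535 : PV o3535 := fun P h => h.t 3 3 7 5 2 3 4 5 0 1 (by decide +kernel)
def w3536 : PV o3536 := fun P h => h.t 3 3 7 5 2 4 0 5 1 3 (by decide +kernel)
def w3537 : PV o3537 := fun P h => h.t 3 3 7 5 3 4 0 5 1 2 (by decide +kernel)
def w3538 : PV o3538 := fun P h => h.t 3 3 7 6 0 1 2 3 4 5 (by decide +kernel)
def w3539 : PV o3539 := fun P h => h.t 3 3 7 6 0 1 2 4 3 5 (by decide +kernel)
def w3540 : PV o3540 := fun P h => h.t 3 3 7 6 0 1 2 5 3 4 (by decide +kernel)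
def w3541 : PV o3541 := fun P h => h.t 3 3 7 6 0 1 3 4 2 5 (by decide +kernel)
def w3542 : PV o3542 := fun P h => h.t 3 3 7 6 0 1 3 5 2 4 (by decide +kernel)
def w3543 : PV o3543 := fun P h => h.t 3 3 7 6 0 1 4 5 2 3 (by decide +kernel)
def w3544 : PV o3544 := fun P h => h.t 3 3 7 6 0 3 1 4 2 5 (by decide +kernel)
def w3545 : PV o3545 := fun P h => h.t 3 3 7 6 0 3 4 5 1 2 (by decide +kernel)
def w3546 : PV o3546 := fun P h => h.t 3 3 7 6 0 4 1 5 2 3 (by decide +kernel)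
def w3547 : PV o3547 := fun P h => h.t 3 3 7 6 0 5 1 2 3 4 (by decide +kernel)
def w3548 : PV o3548 := fun P h => h.t 3 3 7 6 1 2 3 4 0 5 (by decide +kernel)
def w3549 : PV o3549 := fun P h => h.t 3 3 7 6 1 2 3 5 0 4 (by decide +kernel)
def w3550 : PV o3550 := fun P h => h.t 3 3 7 6 1 3 4 5 0 2 (by decide +kernel)
def w3551 : PV o3551 := fun P h => h.t 3 3 7 6 1 4 2 5 0 3 (by decide +kernel)
def w3552 : PV o3552 := fun P h => h.t 3 3 7 6 1 5 0 4 2 3 (by decide +kernel)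
def w3553 : PV o3553 := fun P h => h.t 3 3 7 6 1 5 2 3 0 4 (by decide +kernel)
def w3554 : PV o3554 := fun P h => h.t 3 3 7 6 2 3 0 4 1 5 (by decide +kernel)
def w3555 : PV o3555 := fun P h => h.t 3 3 7 6 2 3 0 5 1 4 (by decide +kernel)
def w3556 : PV o3556 := fun P h => h.t 3 3 7 6 2 3 4 5 0 1 (by decide +kernel)
def w3557 : PV o3557 := fun P h => h.t 3 3 7 6 2 4 0 3 1 5 (by decide +kernel)
def w3558 : PV o3558 := fun P h => h.t 3 3 7 6 2 4 0 5 1 3 (by decide +kernel)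
def w3559 : PV o3559 := fun P h => h.t 3 3 7 6 2 4 1 5 0 3 (by decide +kernel)
def w3560 : PV o3560 := fun P h => h.t 3 3 7 6 2 5 0 3 1 4 (by decide +kernel)
def w3561 : PV o3561 := fun P h => h.t 3 3 7 6 2 5 0 4 1 3 (by decide +kernel)
def w3562 : PV o3562 := fun P h => h.t 3 3 7 6 3 4 0 2 1 5 (by decide +kernel)
def w3563 : PV o3563 := fun P h => h.t 3 3 7 6 3 4 0 5 1 2 (by decide +kernel)
def w3564 : PV o3564 := fun P h => h.t 3 3 7 6 3 4 1 5 0 2 (by decide +kernel)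
def w3565 : PV o3565 := fun P h => h.t 3 3 7 6 3 4 2 5 0 1 (by decide +kernel)
def w3566 : PV o3566 := fun P h => h.t 3 3 7 6 3 5 0 2 1 4 (by decide +kernel)
def w3567 : PV o3567 := fun P h => h.t 3 3 7 6 3 5 0 4 1 2 (by decide +kernel)
def w3568 : PV o3568 := fun P h => h.t 3 3 7 6 3 5 1 4 0 2 (by decide +kernel)
def w3569 : PV o3569 := fun P h => h.t 3 3 7 6 4 5 0 1 2 3 (by decide +kernel)
def w3570 : PV o3570 := fun P h => h.t 3 3 7 6 4 5 0 2 1 3 (by decide +kernel)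
def w3571 : PV o3571 := fun P h => h.t 3 3 7 6 4 5 0 3 1 2 (by decide +kernel)
def w3572 : PV o3572 := fun P h => h.t 3 3 7 6 4 5 1 2 0 3 (by decide +kernel)
def w3573 : PV o3573 := fun P h => h.t 3 3 7 7 1 2 3 4 0 5 (by decide +kernel)
def w3574 : PV o3574 := fun P h => h.t 3 3 7 7 1 3 4 5 0 2 (by decide +kernel)
def w3575 : PV o3575 := fun P h => h.t 3 3 7 7 1 4 2 5 0 3 (by decide +kernel)
def w3576 : PV o3576 := fun P h => h.t 3 3 7 7 1 5 2 3 0 4 (by decide +kernel)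
def w3577 : PV o3577 := fun P h => h.t 3 3 7 7 2 3 4 5 0 1 (by decide +kernel)
def w3578 : PV o3578 := fun P h => h.t 3 3 7 7 2 5 3 4 0 1 (by decide +kernel)
def w3579 : PV o3579 := fun P h => h.t 3 3 7 7 3 4 0 5 1 2 (by decide +kernel)
def w3580 : PV o3580 := fun P h => h.t 3 3 7 7 3 4 1 5 0 2 (by decide +kernel)
def w3581 : PV o3581 := fun P h => h.t 3 3 7 7 3 5 0 4 1 2 (by decide +kernel)
def w3582 : PV o3582 := fun P h => h.x 3 3 7 15 (by decide +kernel)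
def w3583 : PV o3583 := fun P h => h.x 3 3 7 13 (by decide +kernel)
def w3584 : PV o3584 := fun P h => h.x 3 3 7 5 (by decide +kernel)
def w3585 : PV o3585 := fun P h => h.x 3 4 3 13 (by decide +kernel)
def w3586 : PV o3586 := fun P h => h.x 3 4 3 5 (by decide +kernel)
def w3587 : PV o3587 := fun P h => h.t 3 4 4 5 0 3 1 5 2 4 (by decide +kernel)
def w3588 : PV o3588 := fun P h => h.t 3 4 4 5 1 4 0 2 3 5 (by decide +kernel)
def w3589 : PV o3589 := fun P h => h.t 3 4 4 7 0 1 2 5 3 4 (by decide +kernel)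
def w3590 : PV o3590 := fun P h => h.t 3 4 4 7 0 1 3 5 2 4 (by decide +kernel)
def w3591 : PV o3591 := fun P h => h.t 3 4 4 7 0 2 1 5 3 4 (by decide +kernel)
def w3592 : PV o3592 := fun P h => h.t 3 4 4 7 0 4 2 3 1 5 (by decide +kernel)
def w3593 : PV o3593 := fun P h => h.t 3 4 4 7 0 5 2 3 1 4 (by decide +kernel)
def w3594 : PV o3594 := fun P h => h.t 3 4 4 7 1 2 0 5 3 4 (by decide +kernel)
def w3595 : PV o3595 := fun P h => h.t 3 4 4 7 2 5 0 4 1 3 (by decide +kernel)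
def w3596 : PV o3596 := fun P h => h.t 3 4 5 5 0 2 3 4 1 5 (by decide +kernel)
def w3597 : PV o3597 := fun P h => h.t 3 4 5 5 0 4 1 2 3 5 (by decide +kernel)
def w3598 : PV o3598 := fun P h => h.t 3 4 5 5 1 5 2 3 0 4 (by decide +kernel)
def w3599 : PV o3599 := fun P h => h.t 3 4 5 5 2 4 0 5 1 3 (by decide +kernel)

end Pool.Agent.BDD.A
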