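import Pool.Agent.BDD.AC
import Pool.Agent.BDD.AE0
import Pool.Agent.BDD.AE1

set_option autoImplicit false
set_option linter.all false

namespace Pool.Agent.BDD.A

def w3600 : PV o3600 := fun P h => h.t 3 4 5 6 0 1 2 4 3 5 (by decide +kernel)
def w3601 : PV o3601 := fun P h => h.t 3 4 5 7 0 5 1 4 2 3 (by decide +kernel)
def w3602 : PV o3602 := fun P h => h.t 3 4 5 7 1 5 3 4 0 2 (by decide +kernel)
def w3603 : PV o3603 := fun P h => h.t 3 4 5 7 2 4 0 3 1 5 (by decide +kernel)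
def w3604 : PV o3604 := fun P h => h.x 3 4 5 12 (by decide +kernel)
def w3605 : PV o3605 := fun P h => h.t 3 4 6 5 0 3 2 5 1 4 (by decide +kernel)
def w3606 : PV o3606 := fun P h => h.t 3 4 6 5 0 4 2 5 1 3 (by decide +kernel)
def w3607 : PV o3607 := fun P h => h.t 3 4 6 5 0 5 2 4 1 3 (by decide +kernel)
def w3608 : PV o3608 := fun P h => h.t 3 4 6 5 1 4 2 5 0 3 (by decide +kernel)
def w3609 : PV o3609 := fun P h => h.t 3 4 6 5 1 5 2 4 0 3 (by decide +kernel)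
def w3610 : PV o3610 := fun P h => h.t 3 4 6 5 2 4 1 5 0 3 (by decide +kernel)
def w3611 : PV o3611 := fun P h => h.t 3 4 6 6 0 4 3 5 1 2 (by decide +kernel)
def w3612 : PV o3612 := fun P h => h.t 3 4 6 7 0 1 3 4 2 5 (by decide +kernel)
def w3613 : PV o3613 := fun P h => h.t 3 4 6 7 0 1 4 5 2 3 (by decide +kernel)
def w3614 : PV o3614 := fun P h => h.t 3 4 6 7 0 3 2 4 1 5 (by decide +kernel)
def w3615 : PV o3615 := fun P h => h.t 3 4 6 7 0 4 2 3 1 5 (by decide +kernel)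
def w3616 : PV o3616 := fun P h => h.t 3 4 6 7 0 4 2 5 1 3 (by decide +kernel)
def w3617 : PV o3617 := fun P h => h.t 3 4 7 5 0 1 2 5 3 4 (by decide +kernel)
def w3618 : PV o3618 := fun P h => h.t 3 4 7 5 0 2 3 5 1 4 (by decide +kernel)
def w3619 : PV o3619 := fun P h => h.t 3 4 7 5 0 3 2 5 1 4 (by decide +kernel)
def w3620 : PV o3620 := fun P h => h.t 3 4 7 5 0 4 1 2 3 5 (by decide +kernel)
def w3621 : PV o3621 := fun P h => h.t 3 4 7 5 0 4 3 5 1 2 (by decide +kernel)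
def w3622 : PV o3622 := fun P h => h.t 3 4 7 5 2 4 0 3 1 5 (by decide +kernel)
def w3623 : PV o3623 := fun P h => h.t 3 4 7 5 2 4 3 5 0 1 (by decide +kernel)
def w3624 : PV o3624 := fun P h => h.t 3 4 7 6 0 1 2 3 4 5 (by decide +kernel)
def w3625 : PV o3625 := fun P h => h.t 3 4 7 6 0 1 2 4 3 5 (by decide +kernel)
def w3626 : PV o3626 := fun P h => h.t 3 4 7 6 0 3 2 4 1 5 (by decide +kernel)
def w3627 : PV o3627 := fun P h => h.t 3 4 7 6 0 3 4 5 1 2 (by decide +kernel)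
def w3628 : PV o3628 := fun P h => h.t 3 4 7 6 0 4 1 3 2 5 (by decide +kernel)
def w3629 : PV o3629 := fun P h => h.t 3 4 7 6 0 4 2 5 1 3 (by decide +kernel)
def w3630 : PV o3630 := fun P h => h.t 3 4 7 6 0 5 1 4 2 3 (by decide +kernel)
def w3631 : PV o3631 := fun P h => h.t 3 4 7 6 0 5 2 4 1 3 (by decide +kernel)
def w3632 : PV o3632 := fun P h => h.t 3 4 7 6 2 3 1 4 0 5 (by decide +kernel)
def w3633 : PV o3633 := fun P h => h.t 3 4 7 6 3 5 0 4 1 2 (by decide +kernel)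
def w3634 : PV o3634 := fun P h => h.t 3 4 7 7 0 2 3 4 1 5 (by decide +kernel)
def w3635 : PV o3635 := fun P h => h.t 3 4 7 7 0 4 3 5 1 2 (by decide +kernel)
def w3636 : PV o3636 := fun P h => h.t 3 4 7 7 1 3 0 4 2 5 (by decide +kernel)
def w3637 : PV o3637 := fun P h => h.t 3 4 7 7 2 4 0 3 1 5 (by decide +kernel)
def w3638 : PV o3638 := fun P h => h.t 3 4 7 7 2 4 1 5 0 3 (by decide +kernel)
def w3639 : PV o3639 := fun P h => h.t 3 4 7 7 3 4 0 2 1 5 (by decide +kernel)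
def w3640 : PV o3640 := fun P h => h.t 3 4 7 7 3 5 0 4 1 2 (by decide +kernel)
def w3641 : PV o3641 := fun P h => h.x 3 4 7 15 (by decide +kernel)
def w3642 : PV o3642 := fun P h => h.x 3 4 7 5 (by decide +kernel)
def w3643 : PV o3643 := fun P h => h.x 3 5 1 15 (by decide +kernel)
def w3644 : PV o3644 := fun P h => h.x 3 5 1 13 (by decide +kernel)
def w3645 : PV o3645 := fun P h => h.x 3 5 1 12 (by decide +kernel)
def w3646 : PV o3646 := fun P h => h.x 3 5 1 5 (by decide +kernel)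
def w3647 : PV o3647 := fun P h => h.x 3 5 1 4 (by decide +kernel)
def w3648 : PV o3648 := fun P h => h.x 3 5 1 0 (by decide +kernel)
def w3649 : PV o3649 := fun P h => h.x 3 5 3 15 (by decide +kernel)
def w3650 : PV o3650 := fun P h => h.x 3 5 3 12 (by decide +kernel)
def w3651 : PV o3651 := fun P h => h.x 3 5 3 0 (by decide +kernel)
def w3652 : PV o3652 := fun P h => h.x 3 5 4 4 (by decide +kernel)
def w3653 : PV o3653 := fun P h => h.t 3 5 5 5 0 2 3 5 1 4 (by decide +kernel)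
def w3654 : PV o3654 := fun P h => h.t 3 5 5 6 0 3 2 4 1 5 (by decide +kernel)
def w3655 : PV o3655 := fun P h => h.t 3 5 5 6 0 4 1 2 3 5 (by decide +kernel)
def w3656 : PV o3656 := fun P h => h.t 3 5 5 6 1 2 0 5 3 4 (by decide +kernel)
def w3657 : PV o3657 := fun P h => h.t 3 5 5 6 1 2 4 5 0 3 (by decide +kernel)
def w3658 : PV o3658 := fun P h => h.t 3 5 5 6 2 3 0 4 1 5 (by decide +kernel)
def w3659 : PV o3659 := fun P h => h.t 3 5 5 6 2 4 0 1 3 5 (by decide +kernel)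
def w3660 : PV o3660 := fun P h => h.t 3 5 5 6 3 4 0 2 1 5 (by decide +kernel)
def w3661 : PV o3661 := fun P h => h.t 3 5 5 6 3 5 0 2 1 4 (by decide +kernel)
def w3662 : PV o3662 := fun P h => h.t 3 5 6 6 0 2 1 4 3 5 (by decide +kernel)
def w3663 : PV o3663 := fun P h => h.t 3 5 6 6 0 2 1 5 3 4 (by decide +kernel)
def w3664 : PV o3664 := fun P h => h.t 3 5 6 6 0 2 3 4 1 5 (by decide +kernel)
def w3665 : PV o3665 := fun P h => h.t 3 5 6 6 0 2 3 5 1 4 (by decide +kernel)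
def w3666 : PV o3666 := fun P h => h.t 3 5 6 6 0 4 1 3 2 5 (by decide +kernel)
def w3667 : PV o3667 := fun P h => h.t 3 5 6 6 0 4 1 5 2 3 (by decide +kernel)
def w3668 : PV o3668 := fun P h => h.t 3 5 6 6 0 4 2 5 1 3 (by decide +kernel)
def w3669 : PV o3669 := fun P h => h.t 3 5 6 6 1 3 0 4 2 5 (by decide +kernel)
def w3670 : PV o3670 := fun P h => h.t 3 5 6 6 1 3 0 5 2 4 (by decide +kernel)
def w3671 : PV o3671 := fun P h => h.t 3 5 6 6 1 3 2 4 0 5 (by decide +kernel)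
def w3672 : PV o3672 := fun P h => h.t 3 5 6 6 1 3 2 5 0 4 (by decide +kernel)
def w3673 : PV o3673 := fun P h => h.t 3 5 6 6 1 4 0 3 2 5 (by decide +kernel)
def w3674 : PV o3674 := fun P h => h.t 3 5 6 6 1 4 2 5 0 3 (by decide +kernel)
def w3675 : PV o3675 := fun P h => h.t 3 5 6 6 1 4 3 5 0 2 (by decide +kernel)
def w3676 : PV o3676 := fun P h => h.t 3 5 6 6 1 5 2 3 0 4 (by decide +kernel)
def w3677 : PV o3677 := fun P h => h.t 3 5 6 6 2 4 0 1 3 5 (by decide +kernel)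
def w3678 : PV o3678 := fun P h => h.t 3 5 6 6 2 4 0 3 1 5 (by decide +kernel)
def w3679 : PV o3679 := fun P h => h.t 3 5 6 6 2 4 3 5 0 1 (by decide +kernel)
def w3680 : PV o3680 := fun P h => h.t 3 5 6 6 2 5 0 1 3 4 (by decide +kernel)
def w3681 : PV o3681 := fun P h => h.t 3 5 6 6 3 4 0 1 2 5 (by decide +kernel)
def w3682 : PV o3682 := fun P h => h.t 3 5 6 6 3 4 1 5 0 2 (by decide +kernel)
def w3683 : PV o3683 := fun P h => h.t 3 5 6 6 3 5 0 1 2 4 (by decide +kernel)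
def w3684 : PV o3684 := fun P h => h.t 3 5 6 6 3 5 0 4 1 2 (by decide +kernel)
def w3685 : PV o3685 := fun P h => h.t 3 5 6 6 3 5 1 4 0 2 (by decide +kernel)
def w3686 : PV o3686 := fun P h => h.t 3 5 6 7 0 1 2 4 3 5 (by decide +kernel)
def w3687 : PV o3687 := fun P h => h.t 3 5 6 7 0 1 2 5 3 4 (by decide +kernel)
def w3688 : PV o3688 := fun P h => h.t 3 5 6 7 0 1 3 4 2 5 (by decide +kernel)
def w3689 : PV o3689 := fun P h => h.t 3 5 6 7 0 2 1 3 4 5 (by decide +kernel)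
def w3690 : PV o3690 := fun P h => h.t 3 5 6 7 0 2 1 4 3 5 (by decide +kernel)
def w3691 : PV o3691 := fun P h => h.t 3 5 6 7 0 2 1 5 3 4 (by decide +kernel)
def w3692 : PV o3692 := fun P h => h.t 3 5 6 7 0 2 3 4 1 5 (by decide +kernel)
def w3693 : PV o3693 := fun P h => h.t 3 5 6 7 0 3 1 4 2 5 (by decide +kernel)
def w3694 : PV o3694 := fun P h => h.t 3 5 6 7 0 3 1 5 2 4 (by decide +kernel)
def w3695 : PV o3695 := fun P h => h.t 3 5 6 7 0 3 2 4 1 5 (by decide +kernel)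
def w3696 : PV o3696 := fun P h => h.t 3 5 6 7 0 4 1 5 2 3 (by decide +kernel)
def w3697 : PV o3697 := fun P h => h.t 3 5 6 7 0 5 1 3 2 4 (by decide +kernel)
def w3698 : PV o3698 := fun P h => h.t 3 5 6 7 0 5 1 4 2 3 (by decide +kernel)
def w3699 : PV o3699 := fun P h => h.t 3 5 6 7 1 2 0 4 3 5 (by decide +kernel)
def w3700 : PV o3700 := fun P h => h.t 3 5 6 7 1 3 2 5 0 4 (by decide +kernel)
def w3701 : PV o3701 := fun P h => h.t 3 5 6 7 2 3 0 1 4 5 (by decide +kernel)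
def w3702 : PV o3702 := fun P h => h.t 3 5 6 7 2 3 1 4 0 5 (by decide +kernel)
def w3703 : PV o3703 := fun P h => h.t 3 5 6 7 2 4 0 1 3 5 (by decide +kernel)
def w3704 : PV o3704 := fun P h => h.t 3 5 6 7 2 4 3 5 0 1 (by decide +kernel)
def w3705 : PV o3705 := fun P h => h.t 3 5 6 7 3 4 0 2 1 5 (by decide +kernel)
def w3706 : PV o3706 := fun P h => h.t 3 5 6 7 3 4 0 5 1 2 (by decide +kernel)
def w3707 : PV o3707 := fun P h => h.t 3 5 6 7 3 5 0 2 1 4 (by decide +kernel)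
def w3708 : PV o3708 := fun P h => h.t 3 5 6 7 3 5 0 4 1 2 (by decide +kernel)
def w3709 : PV o3709 := fun P h => h.t 3 5 6 7 4 5 0 1 2 3 (by decide +kernel)
def w3710 : PV o3710 := fun P h => h.t 3 5 6 7 4 5 0 2 1 3 (by decide +kernel)
def w3711 : PV o3711 := fun P h => h.x 3 5 6 15 (by decide +kernel)
def w3712 : PV o3712 := fun P h => h.x 3 5 6 13 (by decide +kernel)
def w3713 : PV o3713 := fun P h => h.x 3 5 6 5 (by decide +kernel)
def w3714 : PV o3714 := fun P h => h.x 3 5 6 0 (by decide +kernel)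
def w3715 : PV o3715 := fun P h => h.t 3 5 7 6 0 1 2 4 3 5 (by decide +kernel)
def w3716 : PV o3716 := fun P h => h.t 3 5 7 6 0 1 3 4 2 5 (by decide +kernel)
def w3717 : PV o3717 := fun P h => h.t 3 5 7 6 0 2 3 5 1 4 (by decide +kernel)
def w3718 : PV o3718 := fun P h => h.t 3 5 7 6 0 2 4 5 1 3 (by decide +kernel)
def w3719 : PV o3719 := fun P h => h.t 3 5 7 6 0 3 1 5 2 4 (by decide +kernel)
def w3720 : PV o3720 := fun P h => h.t 3 5 7 6 0 3 2 4 1 5 (by decide +kernel)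
def w3721 : PV o3721 := fun P h => h.t 3 5 7 6 0 3 2 5 1 4 (by decide +kernel)
def w3722 : PV o3722 := fun P h => h.t 3 5 7 6 0 4 2 3 1 5 (by decide +kernel)
def w3723 : PV o3723 := fun P h => h.t 3 5 7 6 1 2 4 5 0 3 (by decide +kernel)
def w3724 : PV o3724 := fun P h => h.t 3 5 7 6 1 3 0 4 2 5 (by decide +kernel)
def w3725 : PV o3725 := fun P h => h.t 3 5 7 6 1 3 2 4 0 5 (by decide +kernel)
def w3726 : PV o3726 := fun P h => h.t 3 5 7 6 1 4 0 3 2 5 (by decide +kernel)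
def w3727 : PV o3727 := fun P h => h.t 3 5 7 6 1 4 0 5 2 3 (by decide +kernel)
def w3728 : PV o3728 := fun P h => h.t 3 5 7 6 2 3 0 5 1 4 (by decide +kernel)
def w3729 : PV o3729 := fun P h => h.t 3 5 7 6 2 4 0 1 3 5 (by decide +kernel)
def w3730 : PV o3730 := fun P h => h.t 3 5 7 6 2 4 0 3 1 5 (by decide +kernel)
def w3731 : PV o3731 := fun P h => h.t 3 5 7 6 2 4 0 5 1 3 (by decide +kernel)
def w3732 : PV o3732 := fun P h => h.t 3 5 7 6 2 5 0 1 3 4 (by decide +kernel)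
def w3733 : PV o3733 := fun P h => h.t 3 5 7 6 3 4 0 1 2 5 (by decide +kernel)
def w3734 : PV o3734 := fun P h => h.t 3 5 7 6 3 4 0 2 1 5 (by decide +kernel)
def w3735 : PV o3735 := fun P h => h.t 3 5 7 6 3 4 0 5 1 2 (by decide +kernel)
def w3736 : PV o3736 := fun P h => h.t 3 5 7 6 3 5 0 4 1 2 (by decide +kernel)
def w3737 : PV o3737 := fun P h => h.t 3 5 7 6 4 5 0 1 2 3 (by decide +kernel)
def w3738 : PV o3738 := fun P h => h.t 3 5 7 6 4 5 0 3 1 2 (by decide +kernel)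
def w3739 : PV o3739 := fun P h => h.x 3 5 7 15 (by decide +kernel)
def w3740 : PV o3740 := fun P h => h.x 3 5 7 13 (by decide +kernel)
def w3741 : PV o3741 := fun P h => h.x 3 5 7 12 (by decide +kernel)
def w3742 : PV o3742 := fun P h => h.x 3 5 7 0 (by decide +kernel)
def w3743 : PV o3743 := fun P h => h.x 3 6 0 15 (by decide +kernel)
def w3744 : PV o3744 := fun P h => h.x 3 6 0 13 (by decide +kernel)
def w3745 : PV o3745 := fun P h => h.x 3 6 0 5 (by decide +kernel)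
def w3746 : PV o3746 := fun P h => h.x 3 6 0 0 (by decide +kernel)
def w3747 : PV o3747 := fun P h => h.x 3 6 1 15 (by decide +kernel)
def w3748 : PV o3748 := fun P h => h.x 3 6 1 13 (by decide +kernel)
def w3749 : PV o3749 := fun P h => h.x 3 6 3 15 (by decide +kernel)
def w3750 : PV o3750 := fun P h => h.x 3 6 3 13 (by decide +kernel)
def w3751 : PV o3751 := fun P h => h.x 3 6 3 5 (by decide +kernel)
def w3752 : PV o3752 := fun P h => h.x 3 6 5 15 (by decide +kernel)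
def w3753 : PV o3753 := fun P h => h.x 3 6 5 13 (by decide +kernel)
def w3754 : PV o3754 := fun P h => h.x 3 6 5 12 (by decide +kernel)
def w3755 : PV o3755 := fun P h => h.x 3 6 5 5 (by decide +kernel)
def w3756 : PV o3756 := fun P h => h.x 3 6 5 4 (by decide +kernel)
def w3757 : PV o3757 := fun P h => h.x 3 6 5 0 (by decide +kernel)
def w3758 : PV o3758 := fun P h => h.t 3 6 6 6 0 2 1 4 3 5 (by decide +kernel)
def w3759 : PV o3759 := fun P h => h.t 3 6 6 6 0 2 3 5 1 4 (by decide +kernel)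
def w3760 : PV o3760 := fun P h => h.t 3 6 6 7 0 1 2 4 3 5 (by decide +kernel)
def w3761 : PV o3761 := fun P h => h.t 3 6 6 7 0 1 3 4 2 5 (by decide +kernel)
def w3762 : PV o3762 := fun P h => h.t 3 6 6 7 0 2 1 4 3 5 (by decide +kernel)
def w3763 : PV o3763 := fun P h => h.t 3 6 6 7 0 2 1 5 3 4 (by decide +kernel)
def w3764 : PV o3764 := fun P h => h.t 3 6 6 7 0 2 3 4 1 5 (by decide +kernel)
def w3765 : PV o3765 := fun P h => h.t 3 6 6 7 0 2 3 5 1 4 (by decide +kernel)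
def w3766 : PV o3766 := fun P h => h.t 3 6 6 7 0 3 1 5 2 4 (by decide +kernel)
def w3767 : PV o3767 := fun P h => h.t 3 6 6 7 0 4 1 2 3 5 (by decide +kernel)
def w3768 : PV o3768 := fun P h => h.t 3 6 6 7 0 4 2 3 1 5 (by decide +kernel)
def w3769 : PV o3769 := fun P h => h.t 3 6 6 7 0 4 2 5 1 3 (by decide +kernel)
def w3770 : PV o3770 := fun P h => h.t 3 6 6 7 0 5 1 2 3 4 (by decide +kernel)
def w3771 : PV o3771 := fun P h => h.t 3 6 6 7 0 5 2 3 1 4 (by decide +kernel)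
def w3772 : PV o3772 := fun P h => h.t 3 6 6 7 0 5 2 4 1 3 (by decide +kernel)
def w3773 : PV o3773 := fun P h => h.t 3 6 6 7 1 2 0 4 3 5 (by decide +kernel)
def w3774 : PV o3774 := fun P h => h.t 3 6 6 7 1 2 0 5 3 4 (by decide +kernel)
def w3775 : PV o3775 := fun P h => h.t 3 6 6 7 1 2 3 5 0 4 (by decide +kernel)
def w3776 : PV o3776 := fun P h => h.t 3 6 6 7 1 2 4 5 0 3 (by decide +kernel)
def w3777 : PV o3777 := fun P h => h.t 3 6 6 7 1 3 0 5 2 4 (by decide +kernel)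
def w3778 : PV o3778 := fun P h => h.t 3 6 6 7 1 4 3 5 0 2 (by decide +kernel)
def w3779 : PV o3779 := fun P h => h.t 3 6 6 7 1 5 0 3 2 4 (by decide +kernel)
def w3780 : PV o3780 := fun P h => h.t 3 6 6 7 1 5 2 3 0 4 (by decide +kernel)
def w3781 : PV o3781 := fun P h => h.t 3 6 6 7 2 3 0 4 1 5 (by decide +kernel)
def w3782 : PV o3782 := fun P h => h.t 3 6 6 7 2 3 0 5 1 4 (by decide +kernel)
def w3783 : PV o3783 := fun P h => h.t 3 6 6 7 2 4 0 5 1 3 (by decide +kernel)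
def w3784 : PV o3784 := fun P h => h.t 3 6 6 7 2 5 0 1 3 4 (by decide +kernel)
def w3785 : PV o3785 := fun P h => h.t 3 6 6 7 2 5 0 4 1 3 (by decide +kernel)
def w3786 : PV o3786 := fun P h => h.t 3 6 6 7 3 4 0 1 2 5 (by decide +kernel)
def w3787 : PV o3787 := fun P h => h.t 3 6 6 7 3 4 0 2 1 5 (by decide +kernel)
def w3788 : PV o3788 := fun P h => h.t 3 6 6 7 3 4 0 5 1 2 (by decide +kernel)
def w3789 : PV o3789 := fun P h => h.t 3 6 6 7 3 4 1 5 0 2 (by decide +kernel)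
def w3790 : PV o3790 := fun P h => h.t 3 6 6 7 4 5 0 1 2 3 (by decide +kernel)
def w3791 : PV o3791 := fun P h => h.t 3 6 6 7 4 5 0 3 1 2 (by decide +kernel)
def w3792 : PV o3792 := fun P h => h.t 3 6 7 7 0 2 1 4 3 5 (by decide +kernel)
def w3793 : PV o3793 := fun P h => h.t 3 6 7 7 0 2 1 5 3 4 (by decide +kernel)
def w3794 : PV o3794 := fun P h => h.t 3 6 7 7 0 2 3 5 1 4 (by decide +kernel)
def w3795 : PV o3795 := fun P h => h.t 3 6 7 7 0 3 1 2 4 5 (by decide +kernel)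
def w3796 : PV o3796 := fun P h => h.t 3 6 7 7 0 4 1 2 3 5 (by decide +kernel)
def w3797 : PV o3797 := fun P h => h.t 3 6 7 7 0 4 1 3 2 5 (by decide +kernel)
def w3798 : PV o3798 := fun P h => h.t 3 6 7 7 0 4 1 5 2 3 (by decide +kernel)
def w3799 : PV o3799 := fun P h => h.t 3 6 7 7 0 4 2 3 1 5 (by decide +kernel)
def w3800 : PV o3800 := fun P h => h.t 3 6 7 7 0 4 3 5 1 2 (by decide +kernel)
def w3801 : PV o3801 := fun P h => h.t 3 6 7 7 1 2 0 3 4 5 (by decide +kernel)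
def w3802 : PV o3802 := fun P h => h.t 3 6 7 7 1 2 0 4 3 5 (by decide +kernel)
def w3803 : PV o3803 := fun P h => h.t 3 6 7 7 1 2 0 5 3 4 (by decide +kernel)
def w3804 : PV o3804 := fun P h => h.t 3 6 7 7 1 2 3 4 0 5 (by decide +kernel)
def w3805 : PV o3805 := fun P h => h.t 3 6 7 7 1 3 0 4 2 5 (by decide +kernel)
def w3806 : PV o3806 := fun P h => h.t 3 6 7 7 1 3 0 5 2 4 (by decide +kernel)
def w3807 : PV o3807 := fun P h => h.t 3 6 7 7 1 3 2 4 0 5 (by decide +kernel)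
def w3808 : PV o3808 := fun P h => h.t 3 6 7 7 1 3 2 5 0 4 (by decide +kernel)
def w3809 : PV o3809 := fun P h => h.t 3 6 7 7 1 4 0 5 2 3 (by decide +kernel)
def w3810 : PV o3810 := fun P h => h.t 3 6 7 7 1 4 2 3 0 5 (by decide +kernel)
def w3811 : PV o3811 := fun P h => h.t 3 6 7 7 1 5 0 2 3 4 (by decide +kernel)
def w3812 : PV o3812 := fun P h => h.t 3 6 7 7 1 5 0 3 2 4 (by decide +kernel)
def w3813 : PV o3813 := fun P h => h.t 3 6 7 7 1 5 2 3 0 4 (by decide +kernel)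
def w3814 : PV o3814 := fun P h => h.t 3 6 7 7 1 5 3 4 0 2 (by decide +kernel)
def w3815 : PV o3815 := fun P h => h.t 3 6 7 7 2 4 0 3 1 5 (by decide +kernel)
def w3816 : PV o3816 := fun P h => h.t 3 6 7 7 2 4 0 5 1 3 (by decide +kernel)
def w3817 : PV o3817 := fun P h => h.t 3 6 7 7 2 4 1 3 0 5 (by decide +kernel)
def w3818 : PV o3818 := fun P h => h.t 3 6 7 7 2 4 1 5 0 3 (by decide +kernel)
def w3819 : PV o3819 := fun P h => h.t 3 6 7 7 2 4 3 5 0 1 (by decide +kernel)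
def w3820 : PV o3820 := fun P h => h.t 3 6 7 7 2 5 3 4 0 1 (by decide +kernel)
def w3821 : PV o3821 := fun P h => h.t 3 6 7 7 3 4 0 1 2 5 (by decide +kernel)
def w3822 : PV o3822 := fun P h => h.t 3 6 7 7 3 4 0 5 1 2 (by decide +kernel)
def w3823 : PV o3823 := fun P h => h.t 3 6 7 7 3 4 2 5 0 1 (by decide +kernel)
def w3824 : PV o3824 := fun P h => h.x 3 6 7 15 (by decide +kernel)
def w3825 : PV o3825 := fun P h => h.x 3 6 7 13 (by decide +kernel)
def w3826 : PV o3826 := fun P h => h.x 3 6 7 12 (by decide +kernel)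
def w3827 : PV o3827 := fun P h => h.x 3 6 7 5 (by decide +kernel)
def w3828 : PV o3828 := fun P h => h.x 3 6 7 4 (by decide +kernel)
def w3829 : PV o3829 := fun P h => h.x 3 7 0 15 (by decide +kernel)
def w3830 : PV o3830 := fun P h => h.x 3 7 0 5 (by decide +kernel)
def w3831 : PV o3831 := fun P h => h.x 3 7 0 4 (by decide +kernel)
def w3832 : PV o3832 := fun P h => h.x 3 7 1 15 (by decide +kernel)
def w3833 : PV o3833 := fun P h => h.x 3 7 1 13 (by decide +kernel)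
def w3834 : PV o3834 := fun P h => h.x 3 7 1 5 (by decide +kernel)
def w3835 : PV o3835 := fun P h => h.x 3 7 1 4 (by decide +kernel)
def w3836 : PV o3836 := fun P h => h.x 3 7 1 0 (by decide +kernel)
def w3837 : PV o3837 := fun P h => h.x 3 7 2 5 (by decide +kernel)
def w3838 : PV o3838 := fun P h => h.x 3 7 3 15 (by decide +kernel)
def w3839 : PV o3839 := fun P h => h.x 3 7 3 13 (by decide +kernel)
def w3840 : PV o3840 := fun P h => h.x 3 7 3 5 (by decide +kernel)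
def w3841 : PV o3841 := fun P h => h.x 3 7 4 15 (by decide +kernel)
def w3842 : PV o3842 := fun P h => h.x 3 7 4 5 (by decide +kernel)
def w3843 : PV o3843 := fun P h => h.x 3 7 4 0 (by decide +kernel)
def w3844 : PV o3844 := fun P h => h.x 3 7 5 15 (by decide +kernel)
def w3845 : PV o3845 := fun P h => h.x 3 7 5 13 (by decide +kernel)
def w3846 : PV o3846 := fun P h => h.x 3 7 5 12 (by decide +kernel)
def w3847 : PV o3847 := fun P h => h.x 3 7 5 5 (by decide +kernel)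
def w3848 : PV o3848 := fun P h => h.x 3 7 5 4 (by decide +kernel)
def w3849 : PV o3849 := fun P h => h.x 3 7 5 0 (by decide +kernel)
def w3850 : PV o3850 := fun P h => h.x 3 7 6 15 (by decide +kernel)
def w3851 : PV o3851 := fun P h => h.x 3 7 6 13 (by decide +kernel)
def w3852 : PV o3852 := fun P h => h.x 3 7 6 12 (by decide +kernel)
def w3853 : PV o3853 := fun P h => h.x 3 7 6 5 (by decide +kernel)
def w3854 : PV o3854 := fun P h => h.x 3 7 6 4 (by decide +kernel)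
def w3855 : PV o3855 := fun P h => h.x 3 7 6 0 (by decide +kernel)
def w3856 : PV o3856 := fun P h => h.t 3 7 7 7 0 2 1 4 3 5 (by decide +kernel)
def w3857 : PV o3857 := fun P h => h.t 3 7 7 7 0 2 3 5 1 4 (by decide +kernel)
def w3858 : PV o3858 := fun P h => h.t 4 0 0 0 0 2 1 4 3 5 (by decide +kernel)
def w3859 : PV o3859 := fun P h => h.t 4 0 0 0 0 2 3 5 1 4 (by decide +kernel)
def w3860 : PV o3860 := fun P h => h.t 4 0 0 1 0 1 2 4 3 5 (by decide +kernel)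
def w3861 : PV o3861 := fun P h => h.t 4 0 0 1 0 2 1 4 3 5 (by decide +kernel)
def w3862 : PV o3862 := fun P h => h.t 4 0 0 1 0 2 1 5 3 4 (by decide +kernel)
def w3863 : PV o3863 := fun P h => h.t 4 0 0 1 0 2 3 4 1 5 (by decide +kernel)
def w3864 : PV o3864 := fun P h => h.t 4 0 0 1 0 3 1 5 2 4 (by decide +kernel)
def w3865 : PV o3865 := fun P h => h.t 4 0 0 1 0 4 1 2 3 5 (by decide +kernel)
def w3866 : PV o3866 := fun P h => h.t 4 0 0 1 0 4 2 3 1 5 (by decide +kernel)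
def w3867 : PV o3867 := fun P h => h.t 4 0 0 1 0 4 2 5 1 3 (by decide +kernel)
def w3868 : PV o3868 := fun P h => h.t 4 0 0 1 0 5 1 3 2 4 (by decide +kernel)
def w3869 : PV o3869 := fun P h => h.t 4 0 0 1 0 5 2 4 1 3 (by decide +kernel)
def w3870 : PV o3870 := fun P h => h.t 4 0 0 1 1 2 3 5 0 4 (by decide +kernel)
def w3871 : PV o3871 := fun P h => h.t 4 0 0 1 1 2 4 5 0 3 (by decide +kernel)
def w3872 : PV o3872 := fun P h => h.t 4 0 0 1 1 3 0 5 2 4 (by decide +kernel)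
def w3873 : PV o3873 := fun P h => h.t 4 0 0 1 1 4 0 2 3 5 (by decide +kernel)
def w3874 : PV o3874 := fun P h => h.t 4 0 0 1 1 5 0 2 3 4 (by decide +kernel)
def w3875 : PV o3875 := fun P h => h.t 4 0 0 1 1 5 0 3 2 4 (by decide +kernel)
def w3876 : PV o3876 := fun P h => h.t 4 0 0 1 2 3 0 4 1 5 (by decide +kernel)
def w3877 : PV o3877 := fun P h => h.t 4 0 0 1 2 3 0 5 1 4 (by decide +kernel)
def w3878 : PV o3878 := fun P h => h.t 4 0 0 1 2 4 0 3 1 5 (by decide +kernel)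
def w3879 : PV o3879 := fun P h => h.t 4 0 0 1 2 5 0 4 1 3 (by decide +kernel)
def w3880 : PV o3880 := fun P h => h.t 4 0 0 1 2 5 1 3 0 4 (by decide +kernel)
def w3881 : PV o3881 := fun P h => h.t 4 0 0 1 3 4 0 1 2 5 (by decide +kernel)
def w3882 : PV o3882 := fun P h => h.t 4 0 0 1 4 5 1 2 0 3 (by decide +kernel)
def w3883 : PV o3883 := fun P h => h.t 4 0 0 2 0 3 1 5 2 4 (by decide +kernel)
def w3884 : PV o3884 := fun P h => h.t 4 0 0 2 1 2 3 5 0 4 (by decide +kernel)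
def w3885 : PV o3885 := fun P h => h.t 4 0 0 2 1 5 2 3 0 4 (by decide +kernel)
def w3886 : PV o3886 := fun P h => h.t 4 0 0 7 1 5 2 3 0 4 (by decide +kernel)
def w3887 : PV o3887 := fun P h => h.t 4 0 0 7 2 3 1 5 0 4 (by decide +kernel)
def w3888 : PV o3888 := fun P h => h.t 4 0 1 1 0 2 1 3 4 5 (by decide +kernel)
def w3889 : PV o3889 := fun P h => h.t 4 0 1 1 0 2 1 4 3 5 (by decide +kernel)
def w3890 : PV o3890 := fun P h => h.t 4 0 1 1 0 2 1 5 3 4 (by decide +kernel)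
def w3891 : PV o3891 := fun P h => h.t 4 0 1 1 0 2 3 4 1 5 (by decide +kernel)
def w3892 : PV o3892 := fun P h => h.t 4 0 1 1 0 2 3 5 1 4 (by decide +kernel)
def w3893 : PV o3893 := fun P h => h.t 4 0 1 1 0 3 1 2 4 5 (by decide +kernel)
def w3894 : PV o3894 := fun P h => h.t 4 0 1 1 0 3 4 5 1 2 (by decide +kernel)
def w3895 : PV o3895 := fun P h => h.t 4 0 1 1 0 4 1 2 3 5 (by decide +kernel)
def w3896 : PV o3896 := fun P h => h.t 4 0 1 1 0 4 1 5 2 3 (by decide +kernel)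
def w3897 : PV o3897 := fun P h => h.t 4 0 1 1 0 4 2 3 1 5 (by decide +kernel)
def w3898 : PV o3898 := fun P h => h.t 4 0 1 1 0 4 2 5 1 3 (by decide +kernel)
def w3899 : PV o3899 := fun P h => h.t 4 0 1 1 0 4 3 5 1 2 (by decide +kernel)
def w3900 : PV o3900 := fun P h => h.t 4 0 1 1 1 2 0 3 4 5 (by decide +kernel)
def w3901 : PV o3901 := fun P h => h.t 4 0 1 1 1 2 0 5 3 4 (by decide +kernel)
def w3902 : PV o3902 := fun P h => h.t 4 0 1 1 1 2 3 4 0 5 (by decide +kernel)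
def w3903 : PV o3903 := fun P h => h.t 4 0 1 1 1 2 3 5 0 4 (by decide +kernel)
def w3904 : PV o3904 := fun P h => h.t 4 0 1 1 1 3 0 2 4 5 (by decide +kernel)
def w3905 : PV o3905 := fun P h => h.t 4 0 1 1 1 3 0 4 2 5 (by decide +kernel)
def w3906 : PV o3906 := fun P h => h.t 4 0 1 1 1 3 0 5 2 4 (by decide +kernel)
def w3907 : PV o3907 := fun P h => h.t 4 0 1 1 1 3 2 4 0 5 (by decide +kernel)
def w3908 : PV o3908 := fun P h => h.t 4 0 1 1 1 3 2 5 0 4 (by decide +kernel)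
def w3909 : PV o3909 := fun P h => h.t 4 0 1 1 1 4 0 2 3 5 (by decide +kernel)
def w3910 : PV o3910 := fun P h => h.t 4 0 1 1 1 4 0 5 2 3 (by decide +kernel)
def w3911 : PV o3911 := fun P h => h.t 4 0 1 1 1 4 2 3 0 5 (by decide +kernel)
def w3912 : PV o3912 := fun P h => h.t 4 0 1 1 1 4 2 5 0 3 (by decide +kernel)
def w3913 : PV o3913 := fun P h => h.t 4 0 1 1 1 5 0 2 3 4 (by decide +kernel)
def w3914 : PV o3914 := fun P h => h.t 4 0 1 1 1 5 0 4 2 3 (by decide +kernel)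
def w3915 : PV o3915 := fun P h => h.t 4 0 1 1 1 5 2 3 0 4 (by decide +kernel)
def w3916 : PV o3916 := fun P h => h.t 4 0 1 1 1 5 2 4 0 3 (by decide +kernel)
def w3917 : PV o3917 := fun P h => h.t 4 0 1 1 2 4 0 1 3 5 (by decide +kernel)
def w3918 : PV o3918 := fun P h => h.t 4 0 1 1 2 4 0 3 1 5 (by decide +kernel)
def w3919 : PV o3919 := fun P h => h.t 4 0 1 1 2 4 0 5 1 3 (by decide +kernel)
def w3920 : PV o3920 := fun P h => h.t 4 0 1 1 2 4 1 3 0 5 (by decide +kernel)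
def w3921 : PV o3921 := fun P h => h.t 4 0 1 1 2 4 1 5 0 3 (by decide +kernel)
def w3922 : PV o3922 := fun P h => h.t 4 0 1 1 2 5 0 1 3 4 (by decide +kernel)
def w3923 : PV o3923 := fun P h => h.t 4 0 1 1 2 5 3 4 0 1 (by decide +kernel)
def w3924 : PV o3924 := fun P h => h.t 4 0 1 1 3 4 0 1 2 5 (by decide +kernel)
def w3925 : PV o3925 := fun P h => h.t 4 0 1 1 3 4 0 5 1 2 (by decide +kernel)
def w3926 : PV o3926 := fun P h => h.t 4 0 1 1 3 4 1 5 0 2 (by decide +kernel)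
def w3927 : PV o3927 := fun P h => h.t 4 0 1 1 3 5 1 2 0 4 (by decide +kernel)
def w3928 : PV o3928 := fun P h => h.t 4 0 1 2 0 3 1 2 4 5 (by decide +kernel)
def w3929 : PV o3929 := fun P h => h.t 4 0 1 2 0 3 1 5 2 4 (by decide +kernel)
def w3930 : PV o3930 := fun P h => h.t 4 0 1 2 0 3 2 4 1 5 (by decide +kernel)
def w3931 : PV o3931 := fun P h => h.t 4 0 1 2 0 3 4 5 1 2 (by decide +kernel)
def w3932 : PV o3932 := fun P h => h.t 4 0 1 2 0 4 1 2 3 5 (by decide +kernel)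
def w3933 : PV o3933 := fun P h => h.t 4 0 1 2 2 3 4 5 0 1 (by decide +kernel)
def w3934 : PV o3934 := fun P h => h.t 4 0 1 3 0 1 2 3 4 5 (by decide +kernel)
def w3935 : PV o3935 := fun P h => h.t 4 0 1 3 0 1 2 5 3 4 (by decide +kernel)
def w3936 : PV o3936 := fun P h => h.t 4 0 1 3 0 1 3 4 2 5 (by decide +kernel)
def w3937 : PV o3937 := fun P h => h.t 4 0 1 3 0 1 4 5 2 3 (by decide +kernel)
def w3938 : PV o3938 := fun P h => h.t 4 0 1 3 0 2 1 3 4 5 (by decide +kernel)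
def w3939 : PV o3939 := fun P h => h.t 4 0 1 3 0 2 1 4 3 5 (by decide +kernel)
def w3940 : PV o3940 := fun P h => h.t 4 0 1 3 0 2 1 5 3 4 (by decide +kernel)
def w3941 : PV o3941 := fun P h => h.t 4 0 1 3 0 2 3 4 1 5 (by decide +kernel)
def w3942 : PV o3942 := fun P h => h.t 4 0 1 3 0 2 3 5 1 4 (by decide +kernel)
def w3943 : PV o3943 := fun P h => h.t 4 0 1 3 0 2 4 5 1 3 (by decide +kernel)
def w3944 : PV o3944 := fun P h => h.t 4 0 1 3 0 3 1 2 4 5 (by decide +kernel)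
def w3945 : PV o3945 := fun P h => h.t 4 0 1 3 0 3 1 4 2 5 (by decide +kernel)
def w3946 : PV o3946 := fun P h => h.t 4 0 1 3 0 3 2 4 1 5 (by decide +kernel)
def w3947 : PV o3947 := fun P h => h.t 4 0 1 3 0 3 4 5 1 2 (by decide +kernel)
def w3948 : PV o3948 := fun P h => h.t 4 0 1 3 0 4 1 2 3 5 (by decide +kernel)
def w3949 : PV o3949 := fun P h => h.t 4 0 1 3 0 4 1 3 2 5 (by decide +kernel)
def w3950 : PV o3950 := fun P h => h.t 4 0 1 3 0 4 2 3 1 5 (by decide +kernel)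
def w3951 : PV o3951 := fun P h => h.t 4 0 1 3 0 4 2 5 1 3 (by decide +kernel)
def w3952 : PV o3952 := fun P h => h.t 4 0 1 3 0 4 3 5 1 2 (by decide +kernel)
def w3953 : PV o3953 := fun P h => h.t 4 0 1 3 0 5 1 2 3 4 (by decide +kernel)
def w3954 : PV o3954 := fun P h => h.t 4 0 1 3 0 5 1 3 2 4 (by decide +kernel)
def w3955 : PV o3955 := fun P h => h.t 4 0 1 3 0 5 1 4 2 3 (by decide +kernel)
def w3956 : PV o3956 := fun P h => h.t 4 0 1 3 0 5 2 3 1 4 (by decide +kernel)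
def w3957 : PV o3957 := fun P h => h.t 4 0 1 3 0 5 3 4 1 2 (by decide +kernel)
def w3958 : PV o3958 := fun P h => h.t 4 0 1 3 1 2 0 3 4 5 (by decide +kernel)
def w3959 : PV o3959 := fun P h => h.t 4 0 1 3 1 2 0 4 3 5 (by decide +kernel)
def w3960 : PV o3960 := fun P h => h.t 4 0 1 3 1 2 0 5 3 4 (by decide +kernel)
def w3961 : PV o3961 := fun P h => h.t 4 0 1 3 1 2 4 5 0 3 (by decide +kernel)
def w3962 : PV o3962 := fun P h => h.t 4 0 1 3 1 3 0 2 4 5 (by decide +kernel)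
def w3963 : PV o3963 := fun P h => h.t 4 0 1 3 1 3 0 4 2 5 (by decide +kernel)
def w3964 : PV o3964 := fun P h => h.t 4 0 1 3 1 3 2 4 0 5 (by decide +kernel)
def w3965 : PV o3965 := fun P h => h.t 4 0 1 3 1 3 4 5 0 2 (by decide +kernel)
def w3966 : PV o3966 := fun P h => h.t 4 0 1 3 1 4 0 2 3 5 (by decide +kernel)
def w3967 : PV o3967 := fun P h => h.t 4 0 1 3 1 4 0 5 2 3 (by decide +kernel)
def w3968 : PV o3968 := fun P h => h.t 4 0 1 3 1 4 2 3 0 5 (by decide +kernel)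
def w3969 : PV o3969 := fun P h => h.t 4 0 1 3 1 4 3 5 0 2 (by decide +kernel)
def w3970 : PV o3970 := fun P h => h.t 4 0 1 3 1 5 2 3 0 4 (by decide +kernel)
def w3971 : PV o3971 := fun P h => h.t 4 0 1 3 1 5 3 4 0 2 (by decide +kernel)
def w3972 : PV o3972 := fun P h => h.t 4 0 1 3 2 3 0 1 4 5 (by decide +kernel)
def w3973 : PV o3973 := fun P h => h.t 4 0 1 3 2 3 0 4 1 5 (by decide +kernel)
def w3974 : PV o3974 := fun P h => h.t 4 0 1 3 2 3 0 5 1 4 (by decide +kernel)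
def w3975 : PV o3975 := fun P h => h.t 4 0 1 3 2 3 1 4 0 5 (by decide +kernel)
def w3976 : PV o3976 := fun P h => h.t 4 0 1 3 2 3 4 5 0 1 (by decide +kernel)
def w3977 : PV o3977 := fun P h => h.t 4 0 1 3 2 4 0 5 1 3 (by decide +kernel)
def w3978 : PV o3978 := fun P h => h.t 4 0 1 3 2 4 3 5 0 1 (by decide +kernel)
def w3979 : PV o3979 := fun P h => h.t 4 0 1 3 2 5 3 4 0 1 (by decide +kernel)
def w3980 : PV o3980 := fun P h => h.t 4 0 1 3 3 4 1 2 0 5 (by decide +kernel)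
def w3981 : PV o3981 := fun P h => h.t 4 0 1 3 3 4 2 5 0 1 (by decide +kernel)
def w3982 : PV o3982 := fun P h => h.t 4 0 1 3 4 5 0 1 2 3 (by decide +kernel)
def w3983 : PV o3983 := fun P h => h.t 4 0 1 3 4 5 0 2 1 3 (by decide +kernel)
def w3984 : PV o3984 := fun P h => h.t 4 0 1 4 0 1 2 4 3 5 (by decide +kernel)
def w3985 : PV o3985 := fun P h => h.t 4 0 1 4 0 4 1 3 2 5 (by decide +kernel)
def w3986 : PV o3986 := fun P h => h.t 4 0 1 5 0 1 2 3 4 5 (by decide +kernel)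
def w3987 : PV o3987 := fun P h => h.t 4 0 1 5 0 1 4 5 2 3 (by decide +kernel)
def w3988 : PV o3988 := fun P h => h.t 4 0 1 6 0 1 2 5 3 4 (by decide +kernel)
def w3989 : PV o3989 := fun P h => h.t 4 0 1 6 0 2 1 3 4 5 (by decide +kernel)
def w3990 : PV o3990 := fun P h => h.t 4 0 1 6 0 2 1 4 3 5 (by decide +kernel)
def w3991 : PV o3991 := fun P h => h.t 4 0 1 6 0 2 1 5 3 4 (by decide +kernel)
def w3992 : PV o3992 := fun P h => h.t 4 0 1 6 0 3 1 2 4 5 (by decide +kernel)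
def w3993 : PV o3993 := fun P h => h.t 4 0 1 6 0 3 1 5 2 4 (by decide +kernel)
def w3994 : PV o3994 := fun P h => h.t 4 0 1 6 0 3 4 5 1 2 (by decide +kernel)
def w3995 : PV o3995 := fun P h => h.t 4 0 1 6 0 4 1 2 3 5 (by decide +kernel)
def w3996 : PV o3996 := fun P h => h.t 4 0 1 6 0 4 1 3 2 5 (by decide +kernel)
def w3997 : PV o3997 := fun P h => h.t 4 0 1 6 0 4 3 5 1 2 (by decide +kernel)
def w3998 : PV o3998 := fun P h => h.t 4 0 1 6 0 5 1 4 2 3 (by decide +kernel)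
def w3999 : PV o3999 := fun P h => h.t 4 0 1 6 0 5 3 4 1 2 (by decide +kernel)
def w4000 : PV o4000 := fun P h => h.t 4 0 1 6 1 2 0 3 4 5 (by decide +kernel)
def w4001 : PV o4001 := fun P h => h.t 4 0 1 6 1 2 0 4 3 5 (by decide +kernel)
def w4002 : PV o4002 := fun P h => h.t 4 0 1 6 1 2 0 5 3 4 (by decide +kernel)
def w4003 : PV o4003 := fun P h => h.t 4 0 1 6 1 3 0 5 2 4 (by decide +kernel)
def w4004 : PV o4004 := fun P h => h.t 4 0 1 6 1 3 2 5 0 4 (by decide +kernel)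
def w4005 : PV o4005 := fun P h => h.t 4 0 1 6 1 3 4 5 0 2 (by decide +kernel)
def w4006 : PV o4006 := fun P h => h.t 4 0 1 6 1 4 0 5 2 3 (by decide +kernel)
def w4007 : PV o4007 := fun P h => h.t 4 0 1 6 1 5 2 4 0 3 (by decide +kernel)
def w4008 : PV o4008 := fun P h => h.t 4 0 1 6 1 5 3 4 0 2 (by decide +kernel)
def w4009 : PV o4009 := fun P h => h.t 4 0 1 6 2 3 0 5 1 4 (by decide +kernel)
def w4010 : PV o4010 := fun P h => h.t 4 0 1 6 2 3 4 5 0 1 (by decide +kernel)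
def w4011 : PV o4011 := fun P h => h.t 4 0 1 6 2 4 0 5 1 3 (by decide +kernel)
def w4012 : PV o4012 := fun P h => h.t 4 0 1 6 2 4 3 5 0 1 (by decide +kernel)
def w4013 : PV o4013 := fun P h => h.t 4 0 1 6 2 5 3 4 0 1 (by decide +kernel)
def w4014 : PV o4014 := fun P h => h.t 4 0 1 6 3 4 0 5 1 2 (by decide +kernel)
def w4015 : PV o4015 := fun P h => h.t 4 0 1 7 0 1 2 4 3 5 (by decide +kernel)
def w4016 : PV o4016 := fun P h => h.t 4 0 1 7 0 1 4 5 2 3 (by decide +kernel)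
def w4017 : PV o4017 := fun P h => h.t 4 0 1 7 0 2 1 4 3 5 (by decide +kernel)
def w4018 : PV o4018 := fun P h => h.t 4 0 1 7 0 2 1 5 3 4 (by decide +kernel)
def w4019 : PV o4019 := fun P h => h.t 4 0 1 7 0 3 1 4 2 5 (by decide +kernel)
def w4020 : PV o4020 := fun P h => h.t 4 0 1 7 0 3 1 5 2 4 (by decide +kernel)
def w4021 : PV o4021 := fun P h => h.t 4 0 1 7 0 4 1 3 2 5 (by decide +kernel)
def w4022 : PV o4022 := fun P h => h.t 4 0 1 7 0 4 2 5 1 3 (by decide +kernel)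
def w4023 : PV o4023 := fun P h => h.t 4 0 1 7 0 4 3 5 1 2 (by decide +kernel)
def w4024 : PV o4024 := fun P h => h.t 4 0 1 7 0 5 1 2 3 4 (by decide +kernel)
def w4025 : PV o4025 := fun P h => h.t 4 0 1 7 0 5 3 4 1 2 (by decide +kernel)
def w4026 : PV o4026 := fun P h => h.t 4 0 1 7 1 2 0 3 4 5 (by decide +kernel)
def w4027 : PV o4027 := fun P h => h.t 4 0 1 7 1 2 4 5 0 3 (by decide +kernel)
def w4028 : PV o4028 := fun P h => h.t 4 0 1 7 1 3 2 4 0 5 (by decide +kernel)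
def w4029 : PV o4029 := fun P h => h.t 4 0 1 7 1 3 2 5 0 4 (by decide +kernel)
def w4030 : PV o4030 := fun P h => h.t 4 0 1 7 1 3 4 5 0 2 (by decide +kernel)
def w4031 : PV o4031 := fun P h => h.t 4 0 1 7 1 4 3 5 0 2 (by decide +kernel)
def w4032 : PV o4032 := fun P h => h.t 4 0 1 7 1 5 2 3 0 4 (by decide +kernel)
def w4033 : PV o4033 := fun P h => h.t 4 0 1 7 2 4 3 5 0 1 (by decide +kernel)
def w4034 : PV o4034 := fun P h => h.t 4 0 1 7 3 4 2 5 0 1 (by decide +kernel)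
def w4035 : PV o4035 := fun P h => h.x 4 0 1 15 (by decide +kernel)
def w4036 : PV o4036 := fun P h => h.x 4 0 1 13 (by decide +kernel)
def w4037 : PV o4037 := fun P h => h.x 4 0 1 12 (by decide +kernel)
def w4038 : PV o4038 := fun P h => h.x 4 0 1 5 (by decide +kernel)
def w4039 : PV o4039 := fun P h => h.x 4 0 1 4 (by decide +kernel)
def w4040 : PV o4040 := fun P h => h.x 4 0 1 0 (by decide +kernel)
def w4041 : PV o4041 := fun P h => h.t 4 0 2 1 0 2 3 4 1 5 (by decide +kernel)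
def w4042 : PV o4042 := fun P h => h.t 4 0 2 1 1 2 0 3 4 5 (by decide +kernel)
def w4043 : PV o4043 := fun P h => h.t 4 0 2 1 1 3 0 2 4 5 (by decide +kernel)
def w4044 : PV o4044 := fun P h => h.t 4 0 2 1 1 4 0 2 3 5 (by decide +kernel)
def w4045 : PV o4045 := fun P h => h.t 4 0 2 1 1 5 0 2 3 4 (by decide +kernel)
def w4046 : PV o4046 := fun P h => h.t 4 0 2 1 2 4 0 3 1 5 (by decide +kernel)
def w4047 : PV o4047 := fun P h => h.t 4 0 2 1 2 5 0 3 1 4 (by decide +kernel)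
def w4048 : PV o4048 := fun P h => h.t 4 0 2 1 3 5 2 4 0 1 (by decide +kernel)
def w4049 : PV o4049 := fun P h => h.t 4 0 2 2 2 5 0 1 3 4 (by decide +kernel)
def w4050 : PV o4050 := fun P h => h.t 4 0 2 3 0 2 3 4 1 5 (by decide +kernel)
def w4051 : PV o4051 := fun P h => h.t 4 0 2 3 0 3 2 4 1 5 (by decide +kernel)
def w4052 : PV o4052 := fun P h => h.t 4 0 2 3 0 4 2 3 1 5 (by decide +kernel)
def w4053 : PV o4053 := fun P h => h.t 4 0 2 3 1 4 0 2 3 5 (by decide +kernel)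
def w4054 : PV o4054 := fun P h => h.t 4 0 2 3 1 4 2 5 0 3 (by decide +kernel)
def w4055 : PV o4055 := fun P h => h.t 4 0 2 3 2 3 0 4 1 5 (by decide +kernel)
def w4056 : PV o4056 := fun P h => h.t 4 0 2 3 2 4 1 3 0 5 (by decide +kernel)
def w4057 : PV o4057 := fun P h => h.t 4 0 2 3 2 5 0 3 1 4 (by decide +kernel)
def w4058 : PV o4058 := fun P h => h.t 4 0 2 3 3 4 1 5 0 2 (by decide +kernel)
def w4059 : PV o4059 := fun P h => h.x 4 0 2 13 (by decide +kernel)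
def w4060 : PV o4060 := fun P h => h.x 4 0 2 5 (by decide +kernel)
def w4061 : PV o4061 := fun P h => h.x 4 0 2 4 (by decide +kernel)
def w4062 : PV o4062 := fun P h => h.t 4 0 3 1 0 1 2 3 4 5 (by decide +kernel)
def w4063 : PV o4063 := fun P h => h.t 4 0 3 1 0 1 3 4 2 5 (by decide +kernel)
def w4064 : PV o4064 := fun P h => h.t 4 0 3 1 0 2 1 3 4 5 (by decide +kernel)
def w4065 : PV o4065 := fun P h => h.t 4 0 3 1 0 2 3 4 1 5 (by decide +kernel)
def w4066 : PV o4066 := fun P h => h.t 4 0 3 1 0 2 4 5 1 3 (by decide +kernel)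
def w4067 : PV o4067 := fun P h => h.t 4 0 3 1 0 3 1 2 4 5 (by decide +kernel)
def w4068 : PV o4068 := fun P h => h.t 4 0 3 1 0 3 1 4 2 5 (by decide +kernel)
def w4069 : PV o4069 := fun P h => h.t 4 0 3 1 0 3 1 5 2 4 (by decide +kernel)
def w4070 : PV o4070 := fun P h => h.t 4 0 3 1 0 3 2 4 1 5 (by decide +kernel)
def w4071 : PV o4071 := fun P h => h.t 4 0 3 1 0 3 4 5 1 2 (by decide +kernel)
def w4072 : PV o4072 := fun P h => h.t 4 0 3 1 0 4 1 2 3 5 (by decide +kernel)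
def w4073 : PV o4073 := fun P h => h.t 4 0 3 1 0 4 1 5 2 3 (by decide +kernel)
def w4074 : PV o4074 := fun P h => h.t 4 0 3 1 0 4 2 3 1 5 (by decide +kernel)
def w4075 : PV o4075 := fun P h => h.t 4 0 3 1 0 5 1 2 3 4 (by decide +kernel)
def w4076 : PV o4076 := fun P h => h.t 4 0 3 1 1 2 3 4 0 5 (by decide +kernel)
def w4077 : PV o4077 := fun P h => h.t 4 0 3 1 1 3 0 2 4 5 (by decide +kernel)
def w4078 : PV o4078 := fun P h => h.t 4 0 3 1 1 3 0 4 2 5 (by decide +kernel)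
def w4079 : PV o4079 := fun P h => h.t 4 0 3 1 1 3 0 5 2 4 (by decide +kernel)
def w4080 : PV o4080 := fun P h => h.t 4 0 3 1 1 3 2 4 0 5 (by decide +kernel)
def w4081 : PV o4081 := fun P h => h.t 4 0 3 1 1 3 2 5 0 4 (by decide +kernel)
def w4082 : PV o4082 := fun P h => h.t 4 0 3 1 1 3 4 5 0 2 (by decide +kernel)
def w4083 : PV o4083 := fun P h => h.t 4 0 3 1 1 4 0 2 3 5 (by decide +kernel)
def w4084 : PV o4084 := fun P h => h.t 4 0 3 1 1 4 0 3 2 5 (by decide +kernel)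
def w4085 : PV o4085 := fun P h => h.t 4 0 3 1 1 4 2 3 0 5 (by decide +kernel)
def w4086 : PV o4086 := fun P h => h.t 4 0 3 1 1 5 0 2 3 4 (by decide +kernel)
def w4087 : PV o4087 := fun P h => h.t 4 0 3 1 2 3 0 1 4 5 (by decide +kernel)
def w4088 : PV o4088 := fun P h => h.t 4 0 3 1 2 3 0 4 1 5 (by decide +kernel)
def w4089 : PV o4089 := fun P h => h.t 4 0 3 1 2 3 0 5 1 4 (by decide +kernel)
def w4090 : PV o4090 := fun P h => h.t 4 0 3 1 2 3 1 4 0 5 (by decide +kernel)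
def w4091 : PV o4091 := fun P h => h.t 4 0 3 1 2 4 0 1 3 5 (by decide +kernel)
def w4092 : PV o4092 := fun P h => h.t 4 0 3 1 2 4 1 3 0 5 (by decide +kernel)
def w4093 : PV o4093 := fun P h => h.t 4 0 3 1 2 5 0 1 3 4 (by decide +kernel)
def w4094 : PV o4094 := fun P h => h.t 4 0 3 1 3 4 1 2 0 5 (by decide +kernel)
def w4095 : PV o4095 := fun P h => h.t 4 0 3 1 3 5 1 2 0 4 (by decide +kernel)
def w4096 : PV o4096 := fun P h => h.t 4 0 3 2 0 4 1 5 2 3 (by decide +kernel)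
def w4097 : PV o4097 := fun P h => h.t 4 0 3 2 2 3 0 4 1 5 (by decide +kernel)
def w4098 : PV o4098 := fun P h => h.t 4 0 3 2 2 4 0 3 1 5 (by decide +kernel)
def w4099 : PV o4099 := fun P h => h.t 4 0 3 2 2 4 0 5 1 3 (by decide +kernel)
def w4100 : PV o4100 := fun P h => h.t 4 0 3 2 3 4 0 1 2 5 (by decide +kernel)
def w4101 : PV o4101 := fun P h => h.t 4 0 3 3 0 2 1 4 3 5 (by decide +kernel)
def w4102 : PV o4102 := fun P h => h.t 4 0 3 3 0 2 3 4 1 5 (by decide +kernel)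
def w4103 : PV o4103 := fun P h => h.t 4 0 3 3 0 3 1 2 4 5 (by decide +kernel)
def w4104 : PV o4104 := fun P h => h.t 4 0 3 3 0 4 1 3 2 5 (by decide +kernel)
def w4105 : PV o4105 := fun P h => h.t 4 0 3 3 0 4 1 5 2 3 (by decide +kernel)
def w4106 : PV o4106 := fun P h => h.t 4 0 3 3 1 2 0 4 3 5 (by decide +kernel)
def w4107 : PV o4107 := fun P h => h.t 4 0 3 3 1 3 0 2 4 5 (by decide +kernel)
def w4108 : PV o4108 := fun P h => h.t 4 0 3 3 1 4 0 3 2 5 (by decide +kernel)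
def w4109 : PV o4109 := fun P h => h.t 4 0 3 3 1 4 0 5 2 3 (by decide +kernel)
def w4110 : PV o4110 := fun P h => h.t 4 0 3 3 2 3 0 1 4 5 (by decide +kernel)
def w4111 : PV o4111 := fun P h => h.t 4 0 3 3 2 4 0 1 3 5 (by decide +kernel)
def w4112 : PV o4112 := fun P h => h.t 4 0 3 3 2 4 0 3 1 5 (by decide +kernel)
def w4113 : PV o4113 := fun P h => h.t 4 0 3 3 2 4 0 5 1 3 (by decide +kernel)
def w4114 : PV o4114 := fun P h => h.t 4 0 3 3 3 4 0 2 1 5 (by decide +kernel)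
def w4115 : PV o4115 := fun P h => h.t 4 0 3 3 3 4 0 5 1 2 (by decide +kernel)
def w4116 : PV o4116 := fun P h => h.t 4 0 3 3 3 4 1 2 0 5 (by decide +kernel)
def w4117 : PV o4117 := fun P h => h.t 4 0 3 3 3 5 0 2 1 4 (by decide +kernel)
def w4118 : PV o4118 := fun P h => h.t 4 0 3 5 0 2 1 3 4 5 (by decide +kernel)
def w4119 : PV o4119 := fun P h => h.t 4 0 3 6 0 1 2 3 4 5 (by decide +kernel)
def w4120 : PV o4120 := fun P h => h.t 4 0 3 6 0 2 1 5 3 4 (by decide +kernel)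
def w4121 : PV o4121 := fun P h => h.t 4 0 3 6 0 3 1 2 4 5 (by decide +kernel)
def w4122 : PV o4122 := fun P h => h.t 4 0 3 6 0 3 4 5 1 2 (by decide +kernel)
def w4123 : PV o4123 := fun P h => h.t 4 0 3 6 0 4 1 5 2 3 (by decide +kernel)
def w4124 : PV o4124 := fun P h => h.t 4 0 3 6 1 2 0 5 3 4 (by decide +kernel)
def w4125 : PV o4125 := fun P h => h.t 4 0 3 6 1 4 0 5 2 3 (by decide +kernel)
def w4126 : PV o4126 := fun P h => h.t 4 0 3 6 1 5 0 4 2 3 (by decide +kernel)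
def w4127 : PV o4127 := fun P h => h.t 4 0 3 6 2 3 0 4 1 5 (by decide +kernel)
def w4128 : PV o4128 := fun P h => h.t 4 0 3 6 2 3 0 5 1 4 (by decide +kernel)
def w4129 : PV o4129 := fun P h => h.t 4 0 3 6 3 5 0 2 1 4 (by decide +kernel)
def w4130 : PV o4130 := fun P h => h.t 4 0 3 6 4 5 0 1 2 3 (by decide +kernel)
def w4131 : PV o4131 := fun P h => h.t 4 0 3 6 4 5 0 3 1 2 (by decide +kernel)
def w4132 : PV o4132 := fun P h => h.t 4 0 3 7 0 1 2 5 3 4 (by decide +kernel)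
def w4133 : PV o4133 := fun P h => h.t 4 0 3 7 0 2 1 3 4 5 (by decide +kernel)
def w4134 : PV o4134 := fun P h => h.t 4 0 3 7 0 4 1 5 2 3 (by decide +kernel)
def w4135 : PV o4135 := fun P h => h.t 4 0 3 7 1 4 0 2 3 5 (by decide +kernel)
def w4136 : PV o4136 := fun P h => h.t 4 0 3 7 1 4 0 5 2 3 (by decide +kernel)
def w4137 : PV o4137 := fun P h => h.t 4 0 3 7 2 3 0 4 1 5 (by decide +kernel)
def w4138 : PV o4138 := fun P h => h.t 4 0 3 7 2 4 3 5 0 1 (by decide +kernel)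
def w4139 : PV o4139 := fun P h => h.x 4 0 3 15 (by decide +kernel)
def w4140 : PV o4140 := fun P h => h.x 4 0 3 13 (by decide +kernel)
def w4141 : PV o4141 := fun P h => h.x 4 0 3 5 (by decide +kernel)
def w4142 : PV o4142 := fun P h => h.x 4 0 3 4 (by decide +kernel)
def w4143 : PV o4143 := fun P h => h.x 4 0 3 0 (by decide +kernel)
def w4144 : PV o4144 := fun P h => h.t 4 0 4 1 0 2 3 4 1 5 (by decide +kernel)
def w4145 : PV o4145 := fun P h => h.t 4 0 4 1 0 3 1 4 2 5 (by decide +kernel)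
def w4146 : PV o4146 := fun P h => h.t 4 0 4 1 0 3 2 4 1 5 (by decide +kernel)
def w4147 : PV o4147 := fun P h => h.t 4 0 4 7 0 1 2 3 4 5 (by decide +kernel)
def w4148 : PV o4148 := fun P h => h.t 4 0 4 7 1 2 0 3 4 5 (by decide +kernel)
def w4149 : PV o4149 := fun P h => h.t 4 0 5 1 0 2 3 4 1 5 (by decide +kernel)
def w4150 : PV o4150 := fun P h => h.t 4 0 5 1 1 5 3 4 0 2 (by decide +kernel)
def w4151 : PV o4151 := fun P h => h.t 4 0 5 3 0 1 2 3 4 5 (by decide +kernel)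
def w4152 : PV o4152 := fun P h => h.t 4 0 5 3 2 3 0 1 4 5 (by decide +kernel)
def w4153 : PV o4153 := fun P h => h.t 4 0 6 1 0 2 3 4 1 5 (by decide +kernel)
def w4154 : PV o4154 := fun P h => h.t 4 0 6 1 0 3 1 4 2 5 (by decide +kernel)
def w4155 : PV o4155 := fun P h => h.t 4 0 6 1 0 3 2 4 1 5 (by decide +kernel)
def w4156 : PV o4156 := fun P h => h.t 4 0 6 1 0 3 4 5 1 2 (by decide +kernel)
def w4157 : PV o4157 := fun P h => h.t 4 0 6 1 0 4 1 2 3 5 (by decide +kernel)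
def w4158 : PV o4158 := fun P h => h.t 4 0 6 1 0 4 1 5 2 3 (by decide +kernel)
def w4159 : PV o4159 := fun P h => h.t 4 0 6 1 0 5 1 2 3 4 (by decide +kernel)
def w4160 : PV o4160 := fun P h => h.t 4 0 6 1 0 5 2 3 1 4 (by decide +kernel)
def w4161 : PV o4161 := fun P h => h.t 4 0 6 1 1 3 0 2 4 5 (by decide +kernel)
def w4162 : PV o4162 := fun P h => h.t 4 0 6 1 1 3 0 4 2 5 (by decide +kernel)
def w4163 : PV o4163 := fun P h => h.t 4 0 6 1 2 3 0 1 4 5 (by decide +kernel)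
def w4164 : PV o4164 := fun P h => h.t 4 0 6 1 2 3 0 4 1 5 (by decide +kernel)
def w4165 : PV o4165 := fun P h => h.t 4 0 6 1 2 3 1 5 0 4 (by decide +kernel)
def w4166 : PV o4166 := fun P h => h.t 4 0 6 1 3 4 0 1 2 5 (by decide +kernel)
def w4167 : PV o4167 := fun P h => h.t 4 0 6 1 3 4 0 2 1 5 (by decide +kernel)
def w4168 : PV o4168 := fun P h => h.t 4 0 6 2 1 5 3 4 0 2 (by decide +kernel)
def w4169 : PV o4169 := fun P h => h.t 4 0 6 2 3 5 0 1 2 4 (by decide +kernel)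
def w4170 : PV o4170 := fun P h => h.t 4 0 6 3 0 3 1 2 4 5 (by decide +kernel)
def w4171 : PV o4171 := fun P h => h.t 4 0 6 3 0 3 4 5 1 2 (by decide +kernel)
def w4172 : PV o4172 := fun P h => h.t 4 0 6 3 1 3 0 2 4 5 (by decide +kernel)
def w4173 : PV o4173 := fun P h => h.t 4 0 6 3 1 4 0 5 2 3 (by decide +kernel)
def w4174 : PV o4174 := fun P h => h.t 4 0 6 3 2 3 0 1 4 5 (by decide +kernel)
def w4175 : PV o4175 := fun P h => h.t 4 0 6 3 2 3 0 4 1 5 (by decide +kernel)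
def w4176 : PV o4176 := fun P h => h.t 4 0 6 3 2 4 0 1 3 5 (by decide +kernel)
def w4177 : PV o4177 := fun P h => h.t 4 0 6 3 2 5 0 1 3 4 (by decide +kernel)
def w4178 : PV o4178 := fun P h => h.t 4 0 6 3 3 4 0 5 1 2 (by decide +kernel)
def w4179 : PV o4179 := fun P h => h.t 4 0 6 3 3 5 0 1 2 4 (by decide +kernel)
def w4180 : PV o4180 := fun P h => h.t 4 0 6 5 0 3 4 5 1 2 (by decide +kernel)
def w4181 : PV o4181 := fun P h => h.t 4 0 6 5 3 4 1 5 0 2 (by decide +kernel)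
def w4182 : PV o4182 := fun P h => h.t 4 0 6 6 0 3 1 2 4 5 (by decide +kernel)
def w4183 : PV o4183 := fun P h => h.t 4 0 6 6 1 4 0 5 2 3 (by decide +kernel)
def w4184 : PV o4184 := fun P h => h.t 4 0 6 6 3 4 0 5 1 2 (by decide +kernel)
def w4185 : PV o4185 := fun P h => h.t 4 0 6 7 0 4 2 3 1 5 (by decide +kernel)
def w4186 : PV o4186 := fun P h => h.t 4 0 6 7 1 5 0 3 2 4 (by decide +kernel)
def w4187 : PV o4187 := fun P h => h.t 4 0 6 7 3 4 0 2 1 5 (by decide +kernel)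
def w4188 : PV o4188 := fun P h => h.t 4 0 6 7 3 5 0 2 1 4 (by decide +kernel)
def w4189 : PV o4189 := fun P h => h.t 4 0 6 7 4 5 0 2 1 3 (by decide +kernel)
def w4190 : PV o4190 := fun P h => h.x 4 0 6 15 (by decide +kernel)
def w4191 : PV o4191 := fun P h => h.x 4 0 6 5 (by decide +kernel)
def w4192 : PV o4192 := fun P h => h.x 4 0 6 0 (by decide +kernel)
def w4193 : PV o4193 := fun P h => h.t 4 0 7 1 0 2 3 4 1 5 (by decide +kernel)
def w4194 : PV o4194 := fun P h => h.t 4 0 7 1 0 2 4 5 1 3 (by decide +kernel)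
def w4195 : PV o4195 := fun P h => h.t 4 0 7 1 0 3 2 5 1 4 (by decide +kernel)
def w4196 : PV o4196 := fun P h => h.t 4 0 7 1 0 3 4 5 1 2 (by decide +kernel)
def w4197 : PV o4197 := fun P h => h.t 4 0 7 1 1 2 0 5 3 4 (by decide +kernel)
def w4198 : PV o4198 := fun P h => h.t 4 0 7 1 1 2 3 4 0 5 (by decide +kernel)
def w4199 : PV o4199 := fun P h => h.t 4 0 7 1 1 3 0 4 2 5 (by decide +kernel)
def w4200 : PV o4200 := fun P h => h.t 4 0 7 1 1 3 0 5 2 4 (by decide +kernel)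
def w4201 : PV o4201 := fun P h => h.t 4 0 7 1 1 4 0 2 3 5 (by decide +kernel)
def w4202 : PV o4202 := fun P h => h.t 4 0 7 1 1 5 0 4 2 3 (by decide +kernel)
def w4203 : PV o4203 := fun P h => h.t 4 0 7 1 1 5 2 4 0 3 (by decide +kernel)
def w4204 : PV o4204 := fun P h => h.t 4 0 7 1 2 3 0 4 1 5 (by decide +kernel)
def w4205 : PV o4205 := fun P h => h.t 4 0 7 1 2 4 0 1 3 5 (by decide +kernel)
def w4206 : PV o4206 := fun P h => h.t 4 0 7 2 1 5 2 3 0 4 (by decide +kernel)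
def w4207 : PV o4207 := fun P h => h.t 4 0 7 2 2 4 1 5 0 3 (by decide +kernel)
def w4208 : PV o4208 := fun P h => h.t 4 0 7 2 2 5 0 3 1 4 (by decide +kernel)
def w4209 : PV o4209 := fun P h => h.t 4 0 7 2 3 5 0 1 2 4 (by decide +kernel)
def w4210 : PV o4210 := fun P h => h.t 4 0 7 3 0 1 2 3 4 5 (by decide +kernel)
def w4211 : PV o4211 := fun P h => h.t 4 0 7 3 0 1 2 4 3 5 (by decide +kernel)
def w4212 : PV o4212 := fun P h => h.t 4 0 7 3 1 4 0 5 2 3 (by decide +kernel)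
def w4213 : PV o4213 := fun P h => h.t 4 0 7 6 0 1 3 5 2 4 (by decide +kernel)
def w4214 : PV o4214 := fun P h => h.t 4 0 7 6 0 2 1 5 3 4 (by decide +kernel)
def w4215 : PV o4215 := fun P h => h.t 4 0 7 6 0 3 2 5 1 4 (by decide +kernel)
def w4216 : PV o4216 := fun P h => h.t 4 0 7 6 1 3 0 5 2 4 (by decide +kernel)
def w4217 : PV o4217 := fun P h => h.t 4 0 7 6 1 4 0 5 2 3 (by decide +kernel)
def w4218 : PV o4218 := fun P h => h.t 4 0 7 6 2 4 1 5 0 3 (by decide +kernel)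
def w4219 : PV o4219 := fun P h => h.t 4 0 7 6 3 4 2 5 0 1 (by decide +kernel)
def w4220 : PV o4220 := fun P h => h.t 4 0 7 6 4 5 0 3 1 2 (by decide +kernel)
def w4221 : PV o4221 := fun P h => h.t 4 0 7 7 3 4 1 5 0 2 (by decide +kernel)
def w4222 : PV o4222 := fun P h => h.x 4 0 7 15 (by decide +kernel)
def w4223 : PV o4223 := fun P h => h.x 4 0 7 5 (by decide +kernel)
def w4224 : PV o4224 := fun P h => h.x 4 0 7 0 (by decide +kernel)
def w4225 : PV o4225 := fun P h => h.x 4 1 0 15 (by decide +kernel)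
def w4226 : PV o4226 := fun P h => h.x 4 1 0 13 (by decide +kernel)
def w4227 : PV o4227 := fun P h => h.x 4 1 0 12 (by decide +kernel)
def w4228 : PV o4228 := fun P h => h.x 4 1 0 5 (by decide +kernel)
def w4229 : PV o4229 := fun P h => h.x 4 1 0 4 (by decide +kernel)
def w4230 : PV o4230 := fun P h => h.x 4 1 0 0 (by decide +kernel)
def w4231 : PV o4231 := fun P h => h.t 4 1 1 1 0 2 1 4 3 5 (by decide +kernel)
def w4232 : PV o4232 := fun P h => h.t 4 1 1 1 0 2 3 5 1 4 (by decide +kernel)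
def w4233 : PV o4233 := fun P h => h.t 4 1 1 2 0 1 3 5 2 4 (by decide +kernel)
def w4234 : PV o4234 := fun P h => h.t 4 1 1 2 0 2 3 5 1 4 (by decide +kernel)
def w4235 : PV o4235 := fun P h => h.t 4 1 1 2 0 4 1 2 3 5 (by decide +kernel)
def w4236 : PV o4236 := fun P h => h.t 4 1 1 2 0 5 1 2 3 4 (by decide +kernel)
def w4237 : PV o4237 := fun P h => h.t 4 1 1 2 3 4 0 5 1 2 (by decide +kernel)
def w4238 : PV o4238 := fun P h => h.t 4 1 1 2 3 5 1 4 0 2 (by decide +kernel)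
def w4239 : PV o4239 := fun P h => h.t 4 1 1 3 0 4 1 2 3 5 (by decide +kernel)
def w4240 : PV o4240 := fun P h => h.t 4 1 1 3 0 5 1 2 3 4 (by decide +kernel)
def w4241 : PV o4241 := fun P h => h.t 4 1 1 3 0 5 2 3 1 4 (by decide +kernel)
def w4242 : PV o4242 := fun P h => h.t 4 1 1 3 1 4 0 2 3 5 (by decide +kernel)
def w4243 : PV o4243 := fun P h => h.t 4 1 1 3 1 5 0 2 3 4 (by decide +kernel)
def w4244 : PV o4244 := fun P h => h.t 4 1 1 3 1 5 2 3 0 4 (by decide +kernel)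
def w4245 : PV o4245 := fun P h => h.t 4 1 1 3 2 3 0 4 1 5 (by decide +kernel)
def w4246 : PV o4246 := fun P h => h.t 4 1 1 3 2 4 0 5 1 3 (by decide +kernel)
def w4247 : PV o4247 := fun P h => h.t 4 1 1 3 2 5 0 4 1 3 (by decide +kernel)
def w4248 : PV o4248 := fun P h => h.t 4 1 1 3 2 5 1 3 0 4 (by decide +kernel)
def w4249 : PV o4249 := fun P h => h.t 4 1 1 3 3 4 0 1 2 5 (by decide +kernel)
def w4250 : PV o4250 := fun P h => h.t 4 1 1 3 3 4 0 5 1 2 (by decide +kernel)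
def w4251 : PV o4251 := fun P h => h.t 4 1 1 3 3 4 1 5 0 2 (by decide +kernel)
def w4252 : PV o4252 := fun P h => h.t 4 1 1 3 3 5 0 1 2 4 (by decide +kernel)
def w4253 : PV o4253 := fun P h => h.t 4 1 1 3 3 5 0 4 1 2 (by decide +kernel)
def w4254 : PV o4254 := fun P h => h.t 4 1 1 3 3 5 1 4 0 2 (by decide +kernel)
def w4255 : PV o4255 := fun P h => h.t 4 1 1 3 4 5 0 1 2 3 (by decide +kernel)
def w4256 : PV o4256 := fun P h => h.t 4 1 1 3 4 5 0 2 1 3 (by decide +kernel)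
def w4257 : PV o4257 := fun P h => h.t 4 1 1 3 4 5 0 3 1 2 (by decide +kernel)
def w4258 : PV o4258 := fun P h => h.t 4 1 1 3 4 5 1 2 0 3 (by decide +kernel)
def w4259 : PV o4259 := fun P h => h.t 4 1 1 4 0 3 4 5 1 2 (by decide +kernel)
def w4260 : PV o4260 := fun P h => h.t 4 1 1 4 0 4 2 5 1 3 (by decide +kernel)
def w4261 : PV o4261 := fun P h => h.t 4 1 1 4 1 5 0 2 3 4 (by decide +kernel)
def w4262 : PV o4262 := fun P h => h.t 4 1 1 5 0 1 2 4 3 5 (by decide +kernel)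
def w4263 : PV o4263 := fun P h => h.t 4 1 1 5 0 1 2 5 3 4 (by decide +kernel)
def w4264 : PV o4264 := fun P h => h.t 4 1 1 5 0 1 3 4 2 5 (by decide +kernel)
def w4265 : PV o4265 := fun P h => h.t 4 1 1 5 0 1 3 5 2 4 (by decide +kernel)
def w4266 : PV o4266 := fun P h => h.t 4 1 1 5 0 1 4 5 2 3 (by decide +kernel)
def w4267 : PV o4267 := fun P h => h.t 4 1 1 5 0 2 3 5 1 4 (by decide +kernel)
def w4268 : PV o4268 := fun P h => h.t 4 1 1 5 0 2 4 5 1 3 (by decide +kernel)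
def w4269 : PV o4269 := fun P h => h.t 4 1 1 5 0 3 4 5 1 2 (by decide +kernel)
def w4270 : PV o4270 := fun P h => h.t 4 1 1 5 0 4 1 2 3 5 (by decide +kernel)
def w4271 : PV o4271 := fun P h => h.t 4 1 1 5 0 4 2 3 1 5 (by decide +kernel)
def w4272 : PV o4272 := fun P h => h.t 4 1 1 5 0 5 1 3 2 4 (by decide +kernel)
def w4273 : PV o4273 := fun P h => h.t 4 1 1 5 1 2 0 4 3 5 (by decide +kernel)
def w4274 : PV o4274 := fun P h => h.t 4 1 1 5 1 2 0 5 3 4 (by decide +kernel)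
def w4275 : PV o4275 := fun P h => h.t 4 1 1 5 1 2 4 5 0 3 (by decide +kernel)
def w4276 : PV o4276 := fun P h => h.t 4 1 1 5 1 4 0 2 3 5 (by decide +kernel)
def w4277 : PV o4277 := fun P h => h.t 4 1 1 5 1 5 0 2 3 4 (by decide +kernel)
def w4278 : PV o4278 := fun P h => h.t 4 1 1 5 1 5 3 4 0 2 (by decide +kernel)
def w4279 : PV o4279 := fun P h => h.t 4 1 1 5 3 4 0 1 2 5 (by decide +kernel)
def w4280 : PV o4280 := fun P h => h.t 4 1 1 5 3 5 0 1 2 4 (by decide +kernel)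
def w4281 : PV o4281 := fun P h => h.t 4 1 1 5 4 5 0 1 2 3 (by decide +kernel)
def w4282 : PV o4282 := fun P h => h.t 4 1 1 5 4 5 0 2 1 3 (by decide +kernel)
def w4283 : PV o4283 := fun P h => h.t 4 1 1 6 0 1 2 5 3 4 (by decide +kernel)
def w4284 : PV o4284 := fun P h => h.t 4 1 1 6 0 1 3 4 2 5 (by decide +kernel)
def w4285 : PV o4285 := fun P h => h.t 4 1 1 6 0 1 4 5 2 3 (by decide +kernel)
def w4286 : PV o4286 := fun P h => h.t 4 1 1 6 0 2 3 5 1 4 (by decide +kernel)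
def w4287 : PV o4287 := fun P h => h.t 4 1 1 6 0 2 4 5 1 3 (by decide +kernel)
def w4288 : PV o4288 := fun P h => h.t 4 1 1 6 0 5 1 2 3 4 (by decide +kernel)
def w4289 : PV o4289 := fun P h => h.t 4 1 1 6 0 5 1 3 2 4 (by decide +kernel)
def w4290 : PV o4290 := fun P h => h.t 4 1 1 6 1 2 0 4 3 5 (by decide +kernel)
def w4291 : PV o4291 := fun P h => h.t 4 1 1 6 1 2 0 5 3 4 (by decide +kernel)
def w4292 : PV o4292 := fun P h => h.t 4 1 1 6 1 3 0 5 2 4 (by decide +kernel)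
def w4293 : PV o4293 := fun P h => h.t 4 1 1 6 1 3 4 5 0 2 (by decide +kernel)
def w4294 : PV o4294 := fun P h => h.t 4 1 1 6 1 5 0 2 3 4 (by decide +kernel)
def w4295 : PV o4295 := fun P h => h.t 4 1 1 6 1 5 2 3 0 4 (by decide +kernel)
def w4296 : PV o4296 := fun P h => h.t 4 1 1 6 1 5 3 4 0 2 (by decide +kernel)
def w4297 : PV o4297 := fun P h => h.t 4 1 1 6 2 3 0 4 1 5 (by decide +kernel)
def w4298 : PV o4298 := fun P h => h.t 4 1 1 6 2 3 0 5 1 4 (by decide +kernel)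
def w4299 : PV o4299 := fun P h => h.t 4 1 1 6 2 5 1 3 0 4 (by decide +kernel)
def w4300 : PV o4300 := fun P h => h.t 4 1 1 6 3 4 0 1 2 5 (by decide +kernel)
def w4301 : PV o4301 := fun P h => h.t 4 1 1 6 3 4 0 5 1 2 (by decide +kernel)
def w4302 : PV o4302 := fun P h => h.t 4 1 1 6 3 5 0 1 2 4 (by decide +kernel)
def w4303 : PV o4303 := fun P h => h.t 4 1 1 6 3 5 0 4 1 2 (by decide +kernel)
def w4304 : PV o4304 := fun P h => h.t 4 1 1 6 3 5 1 4 0 2 (by decide +kernel)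
def w4305 : PV o4305 := fun P h => h.t 4 1 1 6 4 5 0 1 2 3 (by decide +kernel)
def w4306 : PV o4306 := fun P h => h.t 4 1 1 6 4 5 0 2 1 3 (by decide +kernel)
def w4307 : PV o4307 := fun P h => h.t 4 1 1 6 4 5 1 2 0 3 (by decide +kernel)
def w4308 : PV o4308 := fun P h => h.t 4 1 1 7 0 1 2 4 3 5 (by decide +kernel)
def w4309 : PV o4309 := fun P h => h.t 4 1 1 7 0 1 2 5 3 4 (by decide +kernel)
def w4310 : PV o4310 := fun P h => h.t 4 1 1 7 0 1 3 4 2 5 (by decide +kernel)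
def w4311 : PV o4311 := fun P h => h.t 4 1 1 7 0 1 3 5 2 4 (by decide +kernel)
def w4312 : PV o4312 := fun P h => h.t 4 1 1 7 0 1 4 5 2 3 (by decide +kernel)
def w4313 : PV o4313 := fun P h => h.t 4 1 1 7 0 2 3 4 1 5 (by decide +kernel)
def w4314 : PV o4314 := fun P h => h.t 4 1 1 7 0 2 3 5 1 4 (by decide +kernel)
def w4315 : PV o4315 := fun P h => h.t 4 1 1 7 0 2 4 5 1 3 (by decide +kernel)
def w4316 : PV o4316 := fun P h => h.t 4 1 1 7 0 3 1 5 2 4 (by decide +kernel)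
def w4317 : PV o4317 := fun P h => h.t 4 1 1 7 0 3 4 5 1 2 (by decide +kernel)
def w4318 : PV o4318 := fun P h => h.t 4 1 1 7 0 4 1 2 3 5 (by decide +kernel)
def w4319 : PV o4319 := fun P h => h.t 4 1 1 7 0 4 2 3 1 5 (by decide +kernel)
def w4320 : PV o4320 := fun P h => h.t 4 1 1 7 0 4 2 5 1 3 (by decide +kernel)
def w4321 : PV o4321 := fun P h => h.t 4 1 1 7 0 5 1 2 3 4 (by decide +kernel)
def w4322 : PV o4322 := fun P h => h.t 4 1 1 7 0 5 1 3 2 4 (by decide +kernel)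
def w4323 : PV o4323 := fun P h => h.t 4 1 1 7 0 5 2 4 1 3 (by decide +kernel)
def w4324 : PV o4324 := fun P h => h.t 4 1 1 7 0 5 3 4 1 2 (by decide +kernel)
def w4325 : PV o4325 := fun P h => h.t 4 1 1 7 1 2 0 4 3 5 (by decide +kernel)
def w4326 : PV o4326 := fun P h => h.t 4 1 1 7 1 2 3 5 0 4 (by decide +kernel)
def w4327 : PV o4327 := fun P h => h.t 4 1 1 7 1 2 4 5 0 3 (by decide +kernel)
def w4328 : PV o4328 := fun P h => h.t 4 1 1 7 1 3 0 5 2 4 (by decide +kernel)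
def w4329 : PV o4329 := fun P h => h.t 4 1 1 7 1 3 4 5 0 2 (by decide +kernel)
def w4330 : PV o4330 := fun P h => h.t 4 1 1 7 1 4 0 2 3 5 (by decide +kernel)
def w4331 : PV o4331 := fun P h => h.t 4 1 1 7 1 5 0 2 3 4 (by decide +kernel)
def w4332 : PV o4332 := fun P h => h.t 4 1 1 7 1 5 0 3 2 4 (by decide +kernel)
def w4333 : PV o4333 := fun P h => h.t 4 1 1 7 1 5 2 3 0 4 (by decide +kernel)
def w4334 : PV o4334 := fun P h => h.t 4 1 1 7 1 5 3 4 0 2 (by decide +kernel)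
def w4335 : PV o4335 := fun P h => h.t 4 1 1 7 2 3 0 4 1 5 (by decide +kernel)
def w4336 : PV o4336 := fun P h => h.t 4 1 1 7 2 3 0 5 1 4 (by decide +kernel)
def w4337 : PV o4337 := fun P h => h.t 4 1 1 7 2 3 1 5 0 4 (by decide +kernel)
def w4338 : PV o4338 := fun P h => h.t 4 1 1 7 2 4 0 3 1 5 (by decide +kernel)
def w4339 : PV o4339 := fun P h => h.t 4 1 1 7 2 4 0 5 1 3 (by decide +kernel)
def w4340 : PV o4340 := fun P h => h.t 4 1 1 7 2 5 0 1 3 4 (by decide +kernel)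
def w4341 : PV o4341 := fun P h => h.t 4 1 1 7 2 5 0 3 1 4 (by decide +kernel)
def w4342 : PV o4342 := fun P h => h.t 4 1 1 7 2 5 0 4 1 3 (by decide +kernel)
def w4343 : PV o4343 := fun P h => h.t 4 1 1 7 2 5 1 3 0 4 (by decide +kernel)
def w4344 : PV o4344 := fun P h => h.t 4 1 1 7 3 4 0 1 2 5 (by decide +kernel)
def w4345 : PV o4345 := fun P h => h.t 4 1 1 7 3 4 0 5 1 2 (by decide +kernel)
def w4346 : PV o4346 := fun P h => h.t 4 1 1 7 3 4 1 5 0 2 (by decide +kernel)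
def w4347 : PV o4347 := fun P h => h.t 4 1 1 7 3 5 0 1 2 4 (by decide +kernel)
def w4348 : PV o4348 := fun P h => h.t 4 1 1 7 3 5 0 4 1 2 (by decide +kernel)
def w4349 : PV o4349 := fun P h => h.t 4 1 1 7 3 5 1 2 0 4 (by decide +kernel)
def w4350 : PV o4350 := fun P h => h.t 4 1 1 7 3 5 1 4 0 2 (by decide +kernel)
def w4351 : PV o4351 := fun P h => h.t 4 1 1 7 4 5 0 1 2 3 (by decide +kernel)
def w4352 : PV o4352 := fun P h => h.t 4 1 1 7 4 5 0 2 1 3 (by decide +kernel)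
def w4353 : PV o4353 := fun P h => h.t 4 1 1 7 4 5 0 3 1 2 (by decide +kernel)
def w4354 : PV o4354 := fun P h => h.t 4 1 1 7 4 5 1 2 0 3 (by decide +kernel)
def w4355 : PV o4355 := fun P h => h.t 4 1 1 7 4 5 1 3 0 2 (by decide +kernel)
def w4356 : PV o4356 := fun P h => h.t 4 1 2 3 1 4 2 5 0 3 (by decide +kernel)
def w4357 : PV o4357 := fun P h => h.t 4 1 2 3 1 5 2 3 0 4 (by decide +kernel)
def w4358 : PV o4358 := fun P h => h.t 4 1 2 3 2 5 1 3 0 4 (by decide +kernel)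
def w4359 : PV o4359 := fun P h => h.t 4 1 2 3 3 4 1 2 0 5 (by decide +kernel)
def w4360 : PV o4360 := fun P h => h.t 4 1 2 3 3 4 1 5 0 2 (by decide +kernel)
def w4361 : PV o4361 := fun P h => h.t 4 1 2 3 3 5 2 4 0 1 (by decide +kernel)
def w4362 : PV o4362 := fun P h => h.t 4 1 2 3 4 5 0 2 1 3 (by decide +kernel)
def w4363 : PV o4363 := fun P h => h.t 4 1 2 3 4 5 1 2 0 3 (by decide +kernel)
def w4364 : PV o4364 := fun P h => h.t 4 1 2 6 4 5 0 3 1 2 (by decide +kernel)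
def w4365 : PV o4365 := fun P h => h.t 4 1 2 7 0 1 4 5 2 3 (by decide +kernel)
def w4366 : PV o4366 := fun P h => h.t 4 1 2 7 0 4 3 5 1 2 (by decide +kernel)
def w4367 : PV o4367 := fun P h => h.t 4 1 2 7 1 5 2 3 0 4 (by decide +kernel)
def w4368 : PV o4368 := fun P h => h.t 4 1 2 7 3 5 1 4 0 2 (by decide +kernel)
def w4369 : PV o4369 := fun P h => h.t 4 1 2 7 4 5 0 3 1 2 (by decide +kernel)
def w4370 : PV o4370 := fun P h => h.t 4 1 2 7 4 5 1 3 0 2 (by decide +kernel)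
def w4371 : PV o4371 := fun P h => h.t 4 1 3 2 0 1 2 4 3 5 (by decide +kernel)
def w4372 : PV o4372 := fun P h => h.t 4 1 3 2 0 1 2 5 3 4 (by decide +kernel)
def w4373 : PV o4373 := fun P h => h.t 4 1 3 2 1 2 0 4 3 5 (by decide +kernel)
def w4374 : PV o4374 := fun P h => h.t 4 1 3 2 1 2 0 5 3 4 (by decide +kernel)
def w4375 : PV o4375 := fun P h => h.t 4 1 3 2 1 4 0 3 2 5 (by decide +kernel)
def w4376 : PV o4376 := fun P h => h.t 4 1 3 2 1 4 0 5 2 3 (by decide +kernel)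
def w4377 : PV o4377 := fun P h => h.t 4 1 3 2 1 5 0 3 2 4 (by decide +kernel)
def w4378 : PV o4378 := fun P h => h.t 4 1 3 2 2 3 0 1 4 5 (by decide +kernel)
def w4379 : PV o4379 := fun P h => h.t 4 1 3 2 2 3 0 5 1 4 (by decide +kernel)
def w4380 : PV o4380 := fun P h => h.t 4 1 3 2 2 4 0 3 1 5 (by decide +kernel)
def w4381 : PV o4381 := fun P h => h.t 4 1 3 2 2 4 1 3 0 5 (by decide +kernel)
def w4382 : PV o4382 := fun P h => h.t 4 1 3 2 2 5 0 3 1 4 (by decide +kernel)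
def w4383 : PV o4383 := fun P h => h.t 4 1 3 2 3 4 0 5 1 2 (by decide +kernel)
def w4384 : PV o4384 := fun P h => h.t 4 1 3 2 3 5 0 2 1 4 (by decide +kernel)
def w4385 : PV o4385 := fun P h => h.t 4 1 3 2 4 5 0 2 1 3 (by decide +kernel)
def w4386 : PV o4386 := fun P h => h.t 4 1 3 2 4 5 0 3 1 2 (by decide +kernel)
def w4387 : PV o4387 := fun P h => h.t 4 1 3 2 4 5 1 2 0 3 (by decide +kernel)
def w4388 : PV o4388 := fun P h => h.t 4 1 3 3 0 2 1 4 3 5 (by decide +kernel)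
def w4389 : PV o4389 := fun P h => h.t 4 1 3 3 0 2 3 4 1 5 (by decide +kernel)
def w4390 : PV o4390 := fun P h => h.t 4 1 3 3 0 3 1 2 4 5 (by decide +kernel)
def w4391 : PV o4391 := fun P h => h.t 4 1 3 3 0 4 1 2 3 5 (by decide +kernel)
def w4392 : PV o4392 := fun P h => h.t 4 1 3 3 0 4 1 3 2 5 (by decide +kernel)
def w4393 : PV o4393 := fun P h => h.t 4 1 3 3 0 4 1 5 2 3 (by decide +kernel)
def w4394 : PV o4394 := fun P h => h.t 4 1 3 3 1 2 0 4 3 5 (by decide +kernel)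
def w4395 : PV o4395 := fun P h => h.t 4 1 3 3 1 2 3 4 0 5 (by decide +kernel)
def w4396 : PV o4396 := fun P h => h.t 4 1 3 3 1 3 0 2 4 5 (by decide +kernel)
def w4397 : PV o4397 := fun P h => h.t 4 1 3 3 1 3 0 4 2 5 (by decide +kernel)
def w4398 : PV o4398 := fun P h => h.t 4 1 3 3 1 4 0 3 2 5 (by decide +kernel)
def w4399 : PV o4399 := fun P h => h.t 4 1 3 3 1 4 0 5 2 3 (by decide +kernel)
def w4400 : PV o4400 := fun P h => h.t 4 1 3 3 1 5 0 3 2 4 (by decide +kernel)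
def w4401 : PV o4401 := fun P h => h.t 4 1 3 3 1 5 2 3 0 4 (by decide +kernel)
def w4402 : PV o4402 := fun P h => h.t 4 1 3 3 2 3 0 1 4 5 (by decide +kernel)
def w4403 : PV o4403 := fun P h => h.t 4 1 3 3 2 4 0 1 3 5 (by decide +kernel)
def w4404 : PV o4404 := fun P h => h.t 4 1 3 3 2 4 0 3 1 5 (by decide +kernel)
def w4405 : PV o4405 := fun P h => h.t 4 1 3 3 2 4 0 5 1 3 (by decide +kernel)
def w4406 : PV o4406 := fun P h => h.t 4 1 3 3 2 5 0 1 3 4 (by decide +kernel)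
def w4407 : PV o4407 := fun P h => h.t 4 1 3 3 3 4 0 1 2 5 (by decide +kernel)
def w4408 : PV o4408 := fun P h => h.t 4 1 3 3 3 4 0 2 1 5 (by decide +kernel)
def w4409 : PV o4409 := fun P h => h.t 4 1 3 3 3 4 0 5 1 2 (by decide +kernel)
def w4410 : PV o4410 := fun P h => h.t 4 1 3 3 3 5 0 2 1 4 (by decide +kernel)
def w4411 : PV o4411 := fun P h => h.t 4 1 3 3 3 5 0 4 1 2 (by decide +kernel)
def w4412 : PV o4412 := fun P h => h.t 4 1 3 4 0 2 4 5 1 3 (by decide +kernel)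
def w4413 : PV o4413 := fun P h => h.t 4 1 3 4 0 3 1 4 2 5 (by decide +kernel)
def w4414 : PV o4414 := fun P h => h.t 4 1 3 4 0 3 2 5 1 4 (by decide +kernel)
def w4415 : PV o4415 := fun P h => h.t 4 1 3 4 0 3 4 5 1 2 (by decide +kernel)
def w4416 : PV o4416 := fun P h => h.t 4 1 3 4 0 4 1 5 2 3 (by decide +kernel)
def w4417 : PV o4417 := fun P h => h.t 4 1 3 4 0 5 2 4 1 3 (by decide +kernel)
def w4418 : PV o4418 := fun P h => h.t 4 1 3 4 0 5 3 4 1 2 (by decide +kernel)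
def w4419 : PV o4419 := fun P h => h.t 4 1 3 4 1 3 0 5 2 4 (by decide +kernel)
def w4420 : PV o4420 := fun P h => h.t 4 1 3 4 1 4 0 3 2 5 (by decide +kernel)
def w4421 : PV o4421 := fun P h => h.t 4 1 3 4 1 4 0 5 2 3 (by decide +kernel)
def w4422 : PV o4422 := fun P h => h.t 4 1 3 4 1 5 0 3 2 4 (by decide +kernel)
def w4423 : PV o4423 := fun P h => h.t 4 1 3 4 2 3 0 4 1 5 (by decide +kernel)
def w4424 : PV o4424 := fun P h => h.t 4 1 3 4 2 3 0 5 1 4 (by decide +kernel)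
def w4425 : PV o4425 := fun P h => h.t 4 1 3 4 2 4 0 1 3 5 (by decide +kernel)
def w4426 : PV o4426 := fun P h => h.t 4 1 3 4 3 4 0 2 1 5 (by decide +kernel)
def w4427 : PV o4427 := fun P h => h.t 4 1 3 4 4 5 2 3 0 1 (by decide +kernel)
def w4428 : PV o4428 := fun P h => h.t 4 1 3 5 0 1 2 3 4 5 (by decide +kernel)
def w4429 : PV o4429 := fun P h => h.t 4 1 3 5 0 1 2 4 3 5 (by decide +kernel)
def w4430 : PV o4430 := fun P h => h.t 4 1 3 5 0 1 2 5 3 4 (by decide +kernel)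
def w4431 : PV o4431 := fun P h => h.t 4 1 3 5 0 1 3 4 2 5 (by decide +kernel)
def w4432 : PV o4432 := fun P h => h.t 4 1 3 5 0 1 3 5 2 4 (by decide +kernel)
def w4433 : PV o4433 := fun P h => h.t 4 1 3 5 0 1 4 5 2 3 (by decide +kernel)
def w4434 : PV o4434 := fun P h => h.t 4 1 3 5 0 2 1 5 3 4 (by decide +kernel)
def w4435 : PV o4435 := fun P h => h.t 4 1 3 5 0 2 3 4 1 5 (by decide +kernel)
def w4436 : PV o4436 := fun P h => h.t 4 1 3 5 0 3 4 5 1 2 (by decide +kernel)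
def w4437 : PV o4437 := fun P h => h.t 4 1 3 5 1 2 0 3 4 5 (by decide +kernel)
def w4438 : PV o4438 := fun P h => h.t 4 1 3 5 1 2 0 4 3 5 (by decide +kernel)
def w4439 : PV o4439 := fun P h => h.t 4 1 3 5 1 2 0 5 3 4 (by decide +kernel)
def w4440 : PV o4440 := fun P h => h.t 4 1 3 5 1 5 0 3 2 4 (by decide +kernel)
def w4441 : PV o4441 := fun P h => h.t 4 1 3 5 2 3 0 1 4 5 (by decide +kernel)
def w4442 : PV o4442 := fun P h => h.t 4 1 3 5 2 4 0 1 3 5 (by decide +kernel)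
def w4443 : PV o4443 := fun P h => h.t 4 1 3 5 2 5 0 1 3 4 (by decide +kernel)
def w4444 : PV o4444 := fun P h => h.t 4 1 3 5 3 4 0 1 2 5 (by decide +kernel)
def w4445 : PV o4445 := fun P h => h.t 4 1 3 5 3 4 0 2 1 5 (by decide +kernel)
def w4446 : PV o4446 := fun P h => h.t 4 1 3 5 3 5 0 1 2 4 (by decide +kernel)
def w4447 : PV o4447 := fun P h => h.t 4 1 3 5 4 5 0 1 2 3 (by decide +kernel)
def w4448 : PV o4448 := fun P h => h.t 4 1 3 5 4 5 0 3 1 2 (by decide +kernel)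
def w4449 : PV o4449 := fun P h => h.t 4 1 3 5 4 5 1 3 0 2 (by decide +kernel)
def w4450 : PV o4450 := fun P h => h.t 4 1 3 5 4 5 2 3 0 1 (by decide +kernel)
def w4451 : PV o4451 := fun P h => h.t 4 1 3 6 0 1 2 4 3 5 (by decide +kernel)
def w4452 : PV o4452 := fun P h => h.t 4 1 3 6 0 1 2 5 3 4 (by decide +kernel)
def w4453 : PV o4453 := fun P h => h.t 4 1 3 6 0 1 3 4 2 5 (by decide +kernel)
def w4454 : PV o4454 := fun P h => h.t 4 1 3 6 0 1 3 5 2 4 (by decide +kernel)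
def w4455 : PV o4455 := fun P h => h.t 4 1 3 6 0 2 3 4 1 5 (by decide +kernel)
def w4456 : PV o4456 := fun P h => h.t 4 1 3 6 0 2 4 5 1 3 (by decide +kernel)
def w4457 : PV o4457 := fun P h => h.t 4 1 3 6 0 3 1 2 4 5 (by decide +kernel)
def w4458 : PV o4458 := fun P h => h.t 4 1 3 6 0 3 1 5 2 4 (by decide +kernel)
def w4459 : PV o4459 := fun P h => h.t 4 1 3 6 0 3 2 4 1 5 (by decide +kernel)
def w4460 : PV o4460 := fun P h => h.t 4 1 3 6 0 3 2 5 1 4 (by decide +kernel)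
def w4461 : PV o4461 := fun P h => h.t 4 1 3 6 0 3 4 5 1 2 (by decide +kernel)
def w4462 : PV o4462 := fun P h => h.t 4 1 3 6 0 4 1 5 2 3 (by decide +kernel)
def w4463 : PV o4463 := fun P h => h.t 4 1 3 6 0 5 1 4 2 3 (by decide +kernel)
def w4464 : PV o4464 := fun P h => h.t 4 1 3 6 1 2 0 4 3 5 (by decide +kernel)
def w4465 : PV o4465 := fun P h => h.t 4 1 3 6 1 2 0 5 3 4 (by decide +kernel)
def w4466 : PV o4466 := fun P h => h.t 4 1 3 6 1 2 3 4 0 5 (by decide +kernel)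
def w4467 : PV o4467 := fun P h => h.t 4 1 3 6 1 2 3 5 0 4 (by decide +kernel)
def w4468 : PV o4468 := fun P h => h.t 4 1 3 6 1 2 4 5 0 3 (by decide +kernel)
def w4469 : PV o4469 := fun P h => h.t 4 1 3 6 1 3 0 5 2 4 (by decide +kernel)
def w4470 : PV o4470 := fun P h => h.t 4 1 3 6 1 3 4 5 0 2 (by decide +kernel)
def w4471 : PV o4471 := fun P h => h.t 4 1 3 6 1 4 0 3 2 5 (by decide +kernel)
def w4472 : PV o4472 := fun P h => h.t 4 1 3 6 1 4 0 5 2 3 (by decide +kernel)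
def w4473 : PV o4473 := fun P h => h.t 4 1 3 6 1 4 3 5 0 2 (by decide +kernel)
def w4474 : PV o4474 := fun P h => h.t 4 1 3 6 1 5 0 2 3 4 (by decide +kernel)
def w4475 : PV o4475 := fun P h => h.t 4 1 3 6 1 5 0 3 2 4 (by decide +kernel)
def w4476 : PV o4476 := fun P h => h.t 4 1 3 6 1 5 0 4 2 3 (by decide +kernel)
def w4477 : PV o4477 := fun P h => h.t 4 1 3 6 1 5 2 3 0 4 (by decide +kernel)
def w4478 : PV o4478 := fun P h => h.t 4 1 3 6 2 3 0 1 4 5 (by decide +kernel)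
def w4479 : PV o4479 := fun P h => h.t 4 1 3 6 2 3 0 5 1 4 (by decide +kernel)
def w4480 : PV o4480 := fun P h => h.t 4 1 3 6 2 3 1 4 0 5 (by decide +kernel)
def w4481 : PV o4481 := fun P h => h.t 4 1 3 6 2 3 4 5 0 1 (by decide +kernel)
def w4482 : PV o4482 := fun P h => h.t 4 1 3 6 2 4 0 1 3 5 (by decide +kernel)
def w4483 : PV o4483 := fun P h => h.t 4 1 3 6 2 4 0 3 1 5 (by decide +kernel)
def w4484 : PV o4484 := fun P h => h.t 4 1 3 6 2 4 0 5 1 3 (by decide +kernel)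
def w4485 : PV o4485 := fun P h => h.t 4 1 3 6 2 5 0 1 3 4 (by decide +kernel)
def w4486 : PV o4486 := fun P h => h.t 4 1 3 6 2 5 0 3 1 4 (by decide +kernel)
def w4487 : PV o4487 := fun P h => h.t 4 1 3 6 2 5 0 4 1 3 (by decide +kernel)
def w4488 : PV o4488 := fun P h => h.t 4 1 3 6 2 5 1 3 0 4 (by decide +kernel)
def w4489 : PV o4489 := fun P h => h.t 4 1 3 6 2 5 3 4 0 1 (by decide +kernel)
def w4490 : PV o4490 := fun P h => h.t 4 1 3 6 3 4 0 1 2 5 (by decide +kernel)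
def w4491 : PV o4491 := fun P h => h.t 4 1 3 6 3 4 0 2 1 5 (by decide +kernel)
def w4492 : PV o4492 := fun P h => h.t 4 1 3 6 3 4 0 5 1 2 (by decide +kernel)
def w4493 : PV o4493 := fun P h => h.t 4 1 3 6 3 5 0 1 2 4 (by decide +kernel)
def w4494 : PV o4494 := fun P h => h.t 4 1 3 6 3 5 0 2 1 4 (by decide +kernel)
def w4495 : PV o4495 := fun P h => h.t 4 1 3 6 3 5 0 4 1 2 (by decide +kernel)
def w4496 : PV o4496 := fun P h => h.t 4 1 3 6 4 5 0 1 2 3 (by decide +kernel)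
def w4497 : PV o4497 := fun P h => h.t 4 1 3 6 4 5 0 2 1 3 (by decide +kernel)
def w4498 : PV o4498 := fun P h => h.t 4 1 3 6 4 5 0 3 1 2 (by decide +kernel)
def w4499 : PV o4499 := fun P h => h.t 4 1 3 6 4 5 1 2 0 3 (by decide +kernel)
def w4500 : PV o4500 := fun P h => h.t 4 1 3 7 0 1 2 3 4 5 (by decide +kernel)
def w4501 : PV o4501 := fun P h => h.t 4 1 3 7 0 1 2 4 3 5 (by decide +kernel)
def w4502 : PV o4502 := fun P h => h.t 4 1 3 7 0 1 2 5 3 4 (by decide +kernel)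
def w4503 : PV o4503 := fun P h => h.t 4 1 3 7 0 1 3 4 2 5 (by decide +kernel)
def w4504 : PV o4504 := fun P h => h.t 4 1 3 7 0 1 3 5 2 4 (by decide +kernel)
def w4505 : PV o4505 := fun P h => h.t 4 1 3 7 0 1 4 5 2 3 (by decide +kernel)
def w4506 : PV o4506 := fun P h => h.t 4 1 3 7 0 2 1 3 4 5 (by decide +kernel)
def w4507 : PV o4507 := fun P h => h.t 4 1 3 7 0 2 1 4 3 5 (by decide +kernel)
def w4508 : PV o4508 := fun P h => h.t 4 1 3 7 0 2 1 5 3 4 (by decide +kernel)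
def w4509 : PV o4509 := fun P h => h.t 4 1 3 7 0 2 3 4 1 5 (by decide +kernel)
def w4510 : PV o4510 := fun P h => h.t 4 1 3 7 0 2 3 5 1 4 (by decide +kernel)
def w4511 : PV o4511 := fun P h => h.t 4 1 3 7 0 2 4 5 1 3 (by decide +kernel)
def w4512 : PV o4512 := fun P h => h.t 4 1 3 7 0 3 1 4 2 5 (by decide +kernel)
def w4513 : PV o4513 := fun P h => h.t 4 1 3 7 0 3 1 5 2 4 (by decide +kernel)
def w4514 : PV o4514 := fun P h => h.t 4 1 3 7 0 3 2 5 1 4 (by decide +kernel)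
def w4515 : PV o4515 := fun P h => h.t 4 1 3 7 0 3 4 5 1 2 (by decide +kernel)
def w4516 : PV o4516 := fun P h => h.t 4 1 3 7 0 4 1 2 3 5 (by decide +kernel)
def w4517 : PV o4517 := fun P h => h.t 4 1 3 7 0 4 1 3 2 5 (by decide +kernel)
def w4518 : PV o4518 := fun P h => h.t 4 1 3 7 0 4 1 5 2 3 (by decide +kernel)
def w4519 : PV o4519 := fun P h => h.t 4 1 3 7 0 4 2 3 1 5 (by decide +kernel)
def w4520 : PV o4520 := fun P h => h.t 4 1 3 7 0 4 2 5 1 3 (by decide +kernel)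
def w4521 : PV o4521 := fun P h => h.t 4 1 3 7 0 5 1 3 2 4 (by decide +kernel)
def w4522 : PV o4522 := fun P h => h.t 4 1 3 7 0 5 2 3 1 4 (by decide +kernel)
def w4523 : PV o4523 := fun P h => h.t 4 1 3 7 0 5 2 4 1 3 (by decide +kernel)
def w4524 : PV o4524 := fun P h => h.t 4 1 3 7 1 2 3 4 0 5 (by decide +kernel)
def w4525 : PV o4525 := fun P h => h.t 4 1 3 7 1 2 3 5 0 4 (by decide +kernel)
def w4526 : PV o4526 := fun P h => h.t 4 1 3 7 1 2 4 5 0 3 (by decide +kernel)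
def w4527 : PV o4527 := fun P h => h.t 4 1 3 7 1 3 0 2 4 5 (by decide +kernel)
def w4528 : PV o4528 := fun P h => h.t 4 1 3 7 1 3 0 4 2 5 (by decide +kernel)
def w4529 : PV o4529 := fun P h => h.t 4 1 3 7 1 3 0 5 2 4 (by decide +kernel)
def w4530 : PV o4530 := fun P h => h.t 4 1 3 7 1 3 2 5 0 4 (by decide +kernel)
def w4531 : PV o4531 := fun P h => h.t 4 1 3 7 1 4 0 2 3 5 (by decide +kernel)
def w4532 : PV o4532 := fun P h => h.t 4 1 3 7 1 4 0 5 2 3 (by decide +kernel)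
def w4533 : PV o4533 := fun P h => h.t 4 1 3 7 1 4 2 3 0 5 (by decide +kernel)
def w4534 : PV o4534 := fun P h => h.t 4 1 3 7 1 4 2 5 0 3 (by decide +kernel)
def w4535 : PV o4535 := fun P h => h.t 4 1 3 7 1 5 0 2 3 4 (by decide +kernel)
def w4536 : PV o4536 := fun P h => h.t 4 1 3 7 1 5 0 3 2 4 (by decide +kernel)
def w4537 : PV o4537 := fun P h => h.t 4 1 3 7 1 5 0 4 2 3 (by decide +kernel)
def w4538 : PV o4538 := fun P h => h.t 4 1 3 7 2 3 0 1 4 5 (by decide +kernel)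
def w4539 : PV o4539 := fun P h => h.t 4 1 3 7 2 3 0 4 1 5 (by decide +kernel)
def w4540 : PV o4540 := fun P h => h.t 4 1 3 7 2 3 0 5 1 4 (by decide +kernel)
def w4541 : PV o4541 := fun P h => h.t 4 1 3 7 2 3 1 4 0 5 (by decide +kernel)
def w4542 : PV o4542 := fun P h => h.t 4 1 3 7 2 3 1 5 0 4 (by decide +kernel)
def w4543 : PV o4543 := fun P h => h.t 4 1 3 7 2 3 4 5 0 1 (by decide +kernel)
def w4544 : PV o4544 := fun P h => h.t 4 1 3 7 2 4 0 1 3 5 (by decide +kernel)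
def w4545 : PV o4545 := fun P h => h.t 4 1 3 7 2 4 0 3 1 5 (by decide +kernel)
def w4546 : PV o4546 := fun P h => h.t 4 1 3 7 2 4 0 5 1 3 (by decide +kernel)
def w4547 : PV o4547 := fun P h => h.t 4 1 3 7 2 4 1 5 0 3 (by decide +kernel)
def w4548 : PV o4548 := fun P h => h.t 4 1 3 7 2 4 3 5 0 1 (by decide +kernel)
def w4549 : PV o4549 := fun P h => h.t 4 1 3 7 2 5 0 1 3 4 (by decide +kernel)
def w4550 : PV o4550 := fun P h => h.t 4 1 3 7 2 5 0 4 1 3 (by decide +kernel)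
def w4551 : PV o4551 := fun P h => h.t 4 1 3 7 2 5 1 3 0 4 (by decide +kernel)
def w4552 : PV o4552 := fun P h => h.t 4 1 3 7 2 5 3 4 0 1 (by decide +kernel)
def w4553 : PV o4553 := fun P h => h.t 4 1 3 7 3 4 0 1 2 5 (by decide +kernel)
def w4554 : PV o4554 := fun P h => h.t 4 1 3 7 3 4 0 2 1 5 (by decide +kernel)
def w4555 : PV o4555 := fun P h => h.t 4 1 3 7 3 4 0 5 1 2 (by decide +kernel)
def w4556 : PV o4556 := fun P h => h.t 4 1 3 7 3 4 1 2 0 5 (by decide +kernel)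
def w4557 : PV o4557 := fun P h => h.t 4 1 3 7 3 4 1 5 0 2 (by decide +kernel)
def w4558 : PV o4558 := fun P h => h.t 4 1 3 7 3 4 2 5 0 1 (by decide +kernel)
def w4559 : PV o4559 := fun P h => h.t 4 1 3 7 3 5 0 1 2 4 (by decide +kernel)
def w4560 : PV o4560 := fun P h => h.t 4 1 3 7 3 5 0 2 1 4 (by decide +kernel)
def w4561 : PV o4561 := fun P h => h.t 4 1 3 7 3 5 0 4 1 2 (by decide +kernel)
def w4562 : PV o4562 := fun P h => h.t 4 1 3 7 3 5 1 2 0 4 (by decide +kernel)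
def w4563 : PV o4563 := fun P h => h.t 4 1 3 7 3 5 1 4 0 2 (by decide +kernel)
def w4564 : PV o4564 := fun P h => h.t 4 1 3 7 3 5 2 4 0 1 (by decide +kernel)
def w4565 : PV o4565 := fun P h => h.t 4 1 3 7 4 5 0 1 2 3 (by decide +kernel)
def w4566 : PV o4566 := fun P h => h.t 4 1 3 7 4 5 0 2 1 3 (by decide +kernel)
def w4567 : PV o4567 := fun P h => h.t 4 1 3 7 4 5 0 3 1 2 (by decide +kernel)
def w4568 : PV o4568 := fun P h => h.t 4 1 3 7 4 5 1 2 0 3 (by decide +kernel)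
def w4569 : PV o4569 := fun P h => h.t 4 1 3 7 4 5 1 3 0 2 (by decide +kernel)
def w4570 : PV o4570 := fun P h => h.t 4 1 3 7 4 5 2 3 0 1 (by decide +kernel)
def w4571 : PV o4571 := fun P h => h.x 4 1 3 15 (by decide +kernel)
def w4572 : PV o4572 := fun P h => h.x 4 1 3 13 (by decide +kernel)
def w4573 : PV o4573 := fun P h => h.x 4 1 3 12 (by decide +kernel)
def w4574 : PV o4574 := fun P h => h.x 4 1 3 5 (by decide +kernel)
def w4575 : PV o4575 := fun P h => h.x 4 1 3 4 (by decide +kernel)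
def w4576 : PV o4576 := fun P h => h.x 4 1 3 0 (by decide +kernel)
def w4577 : PV o4577 := fun P h => h.t 4 1 4 3 0 1 2 3 4 5 (by decide +kernel)
def w4578 : PV o4578 := fun P h => h.t 4 1 4 3 0 1 2 4 3 5 (by decide +kernel)
def w4579 : PV o4579 := fun P h => h.t 4 1 4 3 0 2 1 3 4 5 (by decide +kernel)
def w4580 : PV o4580 := fun P h => h.t 4 1 4 3 0 4 1 2 3 5 (by decide +kernel)
def w4581 : PV o4581 := fun P h => h.t 4 1 4 3 0 4 1 3 2 5 (by decide +kernel)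
def w4582 : PV o4582 := fun P h => h.t 4 1 4 3 3 4 0 5 1 2 (by decide +kernel)
def w4583 : PV o4583 := fun P h => h.t 4 1 4 3 4 5 0 1 2 3 (by decide +kernel)
def w4584 : PV o4584 := fun P h => h.t 4 1 4 4 2 5 0 1 3 4 (by decide +kernel)
def w4585 : PV o4585 := fun P h => h.t 4 1 4 5 0 2 1 4 3 5 (by decide +kernel)
def w4586 : PV o4586 := fun P h => h.t 4 1 4 5 1 2 0 5 3 4 (by decide +kernel)
def w4587 : PV o4587 := fun P h => h.t 4 1 4 7 0 1 2 3 4 5 (by decide +kernel)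
def w4588 : PV o4588 := fun P h => h.t 4 1 4 7 0 2 1 5 3 4 (by decide +kernel)
def w4589 : PV o4589 := fun P h => h.t 4 1 4 7 0 3 1 2 4 5 (by decide +kernel)
def w4590 : PV o4590 := fun P h => h.t 4 1 4 7 0 4 1 2 3 5 (by decide +kernel)
def w4591 : PV o4591 := fun P h => h.t 4 1 4 7 1 2 0 4 3 5 (by decide +kernel)
def w4592 : PV o4592 := fun P h => h.t 4 1 4 7 1 4 0 2 3 5 (by decide +kernel)
def w4593 : PV o4593 := fun P h => h.t 4 1 4 7 2 4 0 1 3 5 (by decide +kernel)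
def w4594 : PV o4594 := fun P h => h.x 4 1 4 13 (by decide +kernel)
def w4595 : PV o4595 := fun P h => h.t 4 1 5 3 0 1 2 3 4 5 (by decide +kernel)
def w4596 : PV o4596 := fun P h => h.t 4 1 5 3 0 1 2 4 3 5 (by decide +kernel)
def w4597 : PV o4597 := fun P h => h.t 4 1 5 3 1 2 3 4 0 5 (by decide +kernel)
def w4598 : PV o4598 := fun P h => h.t 4 1 5 3 1 2 3 5 0 4 (by decide +kernel)
def w4599 : PV o4599 := fun P h => h.t 4 1 5 3 2 3 4 5 0 1 (by decide +kernel)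
def w4600 : PV o4600 := fun P h => h.t 4 1 5 3 3 4 1 5 0 2 (by decide +kernel)
def w4601 : PV o4601 := fun P h => h.t 4 1 5 3 3 4 2 5 0 1 (by decide +kernel)
def w4602 : PV o4602 := fun P h => h.t 4 1 5 3 4 5 0 2 1 3 (by decide +kernel)
def w4603 : PV o4603 := fun P h => h.t 4 1 5 4 0 2 3 5 1 4 (by decide +kernel)
def w4604 : PV o4604 := fun P h => h.t 4 1 5 4 0 3 4 5 1 2 (by decide +kernel)
def w4605 : PV o4605 := fun P h => h.t 4 1 5 4 1 2 3 5 0 4 (by decide +kernel)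
def w4606 : PV o4606 := fun P h => h.t 4 1 5 5 0 2 1 3 4 5 (by decide +kernel)
def w4607 : PV o4607 := fun P h => h.t 4 1 5 5 0 2 1 5 3 4 (by decide +kernel)
def w4608 : PV o4608 := fun P h => h.t 4 1 5 5 0 2 3 4 1 5 (by decide +kernel)
def w4609 : PV o4609 := fun P h => h.t 4 1 5 5 0 2 3 5 1 4 (by decide +kernel)
def w4610 : PV o4610 := fun P h => h.t 4 1 5 5 0 3 1 2 4 5 (by decide +kernel)
def w4611 : PV o4611 := fun P h => h.t 4 1 5 5 0 3 4 5 1 2 (by decide +kernel)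
def w4612 : PV o4612 := fun P h => h.t 4 1 5 5 1 2 0 5 3 4 (by decide +kernel)
def w4613 : PV o4613 := fun P h => h.t 4 1 5 5 1 2 3 4 0 5 (by decide +kernel)
def w4614 : PV o4614 := fun P h => h.t 4 1 5 5 1 2 4 5 0 3 (by decide +kernel)
def w4615 : PV o4615 := fun P h => h.t 4 1 5 5 1 3 0 2 4 5 (by decide +kernel)
def w4616 : PV o4616 := fun P h => h.t 4 1 5 5 1 4 2 5 0 3 (by decide +kernel)
def w4617 : PV o4617 := fun P h => h.t 4 1 5 5 2 3 0 1 4 5 (by decide +kernel)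
def w4618 : PV o4618 := fun P h => h.t 4 1 5 5 2 3 4 5 0 1 (by decide +kernel)
def w4619 : PV o4619 := fun P h => h.t 4 1 5 5 3 4 0 5 1 2 (by decide +kernel)
def w4620 : PV o4620 := fun P h => h.t 4 1 5 5 3 4 2 5 0 1 (by decide +kernel)
def w4621 : PV o4621 := fun P h => h.t 4 1 5 6 0 1 2 3 4 5 (by decide +kernel)
def w4622 : PV o4622 := fun P h => h.t 4 1 5 6 0 1 2 4 3 5 (by decide +kernel)
def w4623 : PV o4623 := fun P h => h.t 4 1 5 6 0 1 2 5 3 4 (by decide +kernel)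
def w4624 : PV o4624 := fun P h => h.t 4 1 5 6 0 1 3 4 2 5 (by decide +kernel)
def w4625 : PV o4625 := fun P h => h.t 4 1 5 6 0 1 3 5 2 4 (by decide +kernel)
def w4626 : PV o4626 := fun P h => h.t 4 1 5 6 0 1 4 5 2 3 (by decide +kernel)
def w4627 : PV o4627 := fun P h => h.t 4 1 5 6 0 2 1 4 3 5 (by decide +kernel)
def w4628 : PV o4628 := fun P h => h.t 4 1 5 6 0 2 3 4 1 5 (by decide +kernel)
def w4629 : PV o4629 := fun P h => h.t 4 1 5 6 0 3 1 2 4 5 (by decide +kernel)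
def w4630 : PV o4630 := fun P h => h.t 4 1 5 6 0 3 1 4 2 5 (by decide +kernel)
def w4631 : PV o4631 := fun P h => h.t 4 1 5 6 0 3 1 5 2 4 (by decide +kernel)
def w4632 : PV o4632 := fun P h => h.t 4 1 5 6 0 3 4 5 1 2 (by decide +kernel)
def w4633 : PV o4633 := fun P h => h.t 4 1 5 6 0 4 1 3 2 5 (by decide +kernel)
def w4634 : PV o4634 := fun P h => h.t 4 1 5 6 0 4 1 5 2 3 (by decide +kernel)
def w4635 : PV o4635 := fun P h => h.t 4 1 5 6 0 4 3 5 1 2 (by decide +kernel)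
def w4636 : PV o4636 := fun P h => h.t 4 1 5 6 0 5 1 3 2 4 (by decide +kernel)
def w4637 : PV o4637 := fun P h => h.t 4 1 5 6 0 5 2 3 1 4 (by decide +kernel)
def w4638 : PV o4638 := fun P h => h.t 4 1 5 6 0 5 3 4 1 2 (by decide +kernel)
def w4639 : PV o4639 := fun P h => h.t 4 1 5 6 1 2 0 4 3 5 (by decide +kernel)
def w4640 : PV o4640 := fun P h => h.t 4 1 5 6 1 2 3 4 0 5 (by decide +kernel)
def w4641 : PV o4641 := fun P h => h.t 4 1 5 6 1 2 3 5 0 4 (by decide +kernel)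
def w4642 : PV o4642 := fun P h => h.t 4 1 5 6 1 3 4 5 0 2 (by decide +kernel)
def w4643 : PV o4643 := fun P h => h.t 4 1 5 6 1 4 0 3 2 5 (by decide +kernel)
def w4644 : PV o4644 := fun P h => h.t 4 1 5 6 1 5 2 3 0 4 (by decide +kernel)
def w4645 : PV o4645 := fun P h => h.t 4 1 5 6 2 3 0 1 4 5 (by decide +kernel)
def w4646 : PV o4646 := fun P h => h.t 4 1 5 6 2 3 0 5 1 4 (by decide +kernel)
def w4647 : PV o4647 := fun P h => h.t 4 1 5 6 2 3 4 5 0 1 (by decide +kernel)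
def w4648 : PV o4648 := fun P h => h.t 4 1 5 6 2 4 0 3 1 5 (by decide +kernel)
def w4649 : PV o4649 := fun P h => h.t 4 1 5 6 2 4 3 5 0 1 (by decide +kernel)
def w4650 : PV o4650 := fun P h => h.t 4 1 5 6 2 5 0 3 1 4 (by decide +kernel)
def w4651 : PV o4651 := fun P h => h.t 4 1 5 6 2 5 1 3 0 4 (by decide +kernel)
def w4652 : PV o4652 := fun P h => h.t 4 1 5 6 2 5 1 4 0 3 (by decide +kernel)
def w4653 : PV o4653 := fun P h => h.t 4 1 5 6 2 5 3 4 0 1 (by decide +kernel)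
def w4654 : PV o4654 := fun P h => h.t 4 1 5 6 3 4 0 1 2 5 (by decide +kernel)
def w4655 : PV o4655 := fun P h => h.t 4 1 5 6 3 4 0 2 1 5 (by decide +kernel)
def w4656 : PV o4656 := fun P h => h.t 4 1 5 6 3 4 2 5 0 1 (by decide +kernel)
def w4657 : PV o4657 := fun P h => h.t 4 1 5 6 3 5 0 2 1 4 (by decide +kernel)
def w4658 : PV o4658 := fun P h => h.t 4 1 5 6 4 5 0 2 1 3 (by decide +kernel)
def w4659 : PV o4659 := fun P h => h.t 4 1 5 6 4 5 1 2 0 3 (by decide +kernel)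
def w4660 : PV o4660 := fun P h => h.t 4 1 5 6 4 5 2 3 0 1 (by decide +kernel)
def w4661 : PV o4661 := fun P h => h.t 4 1 5 7 0 1 2 3 4 5 (by decide +kernel)
def w4662 : PV o4662 := fun P h => h.t 4 1 5 7 0 1 2 5 3 4 (by decide +kernel)
def w4663 : PV o4663 := fun P h => h.t 4 1 5 7 0 1 3 4 2 5 (by decide +kernel)
def w4664 : PV o4664 := fun P h => h.t 4 1 5 7 0 1 4 5 2 3 (by decide +kernel)
def w4665 : PV o4665 := fun P h => h.t 4 1 5 7 0 2 3 5 1 4 (by decide +kernel)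
def w4666 : PV o4666 := fun P h => h.t 4 1 5 7 0 4 1 2 3 5 (by decide +kernel)
def w4667 : PV o4667 := fun P h => h.t 4 1 5 7 1 2 3 4 0 5 (by decide +kernel)
def w4668 : PV o4668 := fun P h => h.t 4 1 5 7 1 3 0 4 2 5 (by decide +kernel)
def w4669 : PV o4669 := fun P h => h.t 4 1 5 7 2 3 0 1 4 5 (by decide +kernel)
def w4670 : PV o4670 := fun P h => h.t 4 1 5 7 2 4 0 1 3 5 (by decide +kernel)
def w4671 : PV o4671 := fun P h => h.t 4 1 5 7 2 4 0 5 1 3 (by decide +kernel)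
def w4672 : PV o4672 := fun P h => h.t 4 1 5 7 3 5 0 4 1 2 (by decide +kernel)
def w4673 : PV o4673 := fun P h => h.x 4 1 5 15 (by decide +kernel)
def w4674 : PV o4674 := fun P h => h.x 4 1 5 13 (by decide +kernel)
def w4675 : PV o4675 := fun P h => h.x 4 1 5 12 (by decide +kernel)
def w4676 : PV o4676 := fun P h => h.x 4 1 5 5 (by decide +kernel)
def w4677 : PV o4677 := fun P h => h.x 4 1 5 4 (by decide +kernel)
def w4678 : PV o4678 := fun P h => h.x 4 1 5 0 (by decide +kernel)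
def w4679 : PV o4679 := fun P h => h.t 4 1 6 3 0 1 2 3 4 5 (by decide +kernel)
def w4680 : PV o4680 := fun P h => h.t 4 1 6 3 0 1 2 4 3 5 (by decide +kernel)
def w4681 : PV o4681 := fun P h => h.t 4 1 6 3 0 1 3 4 2 5 (by decide +kernel)
def w4682 : PV o4682 := fun P h => h.t 4 1 6 3 0 2 1 3 4 5 (by decide +kernel)
def w4683 : PV o4683 := fun P h => h.t 4 1 6 3 0 2 1 4 3 5 (by decide +kernel)
def w4684 : PV o4684 := fun P h => h.t 4 1 6 3 0 2 1 5 3 4 (by decide +kernel)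
def w4685 : PV o4685 := fun P h => h.t 4 1 6 3 0 2 3 4 1 5 (by decide +kernel)
def w4686 : PV o4686 := fun P h => h.t 4 1 6 3 0 3 1 2 4 5 (by decide +kernel)
def w4687 : PV o4687 := fun P h => h.t 4 1 6 3 0 3 1 4 2 5 (by decide +kernel)
def w4688 : PV o4688 := fun P h => h.t 4 1 6 3 0 3 1 5 2 4 (by decide +kernel)
def w4689 : PV o4689 := fun P h => h.t 4 1 6 3 0 3 2 4 1 5 (by decide +kernel)
def w4690 : PV o4690 := fun P h => h.t 4 1 6 3 0 4 1 2 3 5 (by decide +kernel)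
def w4691 : PV o4691 := fun P h => h.t 4 1 6 3 0 4 1 3 2 5 (by decide +kernel)
def w4692 : PV o4692 := fun P h => h.t 4 1 6 3 0 4 3 5 1 2 (by decide +kernel)
def w4693 : PV o4693 := fun P h => h.t 4 1 6 3 0 5 1 2 3 4 (by decide +kernel)
def w4694 : PV o4694 := fun P h => h.t 4 1 6 3 0 5 1 4 2 3 (by decide +kernel)
def w4695 : PV o4695 := fun P h => h.t 4 1 6 3 1 2 0 3 4 5 (by decide +kernel)
def w4696 : PV o4696 := fun P h => h.t 4 1 6 3 1 2 3 4 0 5 (by decide +kernel)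
def w4697 : PV o4697 := fun P h => h.t 4 1 6 3 1 3 0 2 4 5 (by decide +kernel)
def w4698 : PV o4698 := fun P h => h.t 4 1 6 3 1 3 0 4 2 5 (by decide +kernel)
def w4699 : PV o4699 := fun P h => h.t 4 1 6 3 1 3 0 5 2 4 (by decide +kernel)
def w4700 : PV o4700 := fun P h => h.t 4 1 6 3 1 3 2 4 0 5 (by decide +kernel)
def w4701 : PV o4701 := fun P h => h.t 4 1 6 3 1 4 0 2 3 5 (by decide +kernel)
def w4702 : PV o4702 := fun P h => h.t 4 1 6 3 1 4 0 3 2 5 (by decide +kernel)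
def w4703 : PV o4703 := fun P h => h.t 4 1 6 3 1 5 0 2 3 4 (by decide +kernel)
def w4704 : PV o4704 := fun P h => h.t 4 1 6 3 2 3 0 1 4 5 (by decide +kernel)
def w4705 : PV o4705 := fun P h => h.t 4 1 6 3 2 3 0 4 1 5 (by decide +kernel)
def w4706 : PV o4706 := fun P h => h.t 4 1 6 3 2 3 0 5 1 4 (by decide +kernel)
def w4707 : PV o4707 := fun P h => h.t 4 1 6 3 2 3 1 4 0 5 (by decide +kernel)
def w4708 : PV o4708 := fun P h => h.t 4 1 6 3 2 3 4 5 0 1 (by decide +kernel)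
def w4709 : PV o4709 := fun P h => h.t 4 1 6 3 2 4 0 1 3 5 (by decide +kernel)
def w4710 : PV o4710 := fun P h => h.t 4 1 6 3 2 4 0 3 1 5 (by decide +kernel)
def w4711 : PV o4711 := fun P h => h.t 4 1 6 3 2 4 1 3 0 5 (by decide +kernel)
def w4712 : PV o4712 := fun P h => h.t 4 1 6 3 2 4 3 5 0 1 (by decide +kernel)
def w4713 : PV o4713 := fun P h => h.t 4 1 6 3 2 5 0 1 3 4 (by decide +kernel)
def w4714 : PV o4714 := fun P h => h.t 4 1 6 3 2 5 0 3 1 4 (by decide +kernel)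
def w4715 : PV o4715 := fun P h => h.t 4 1 6 3 2 5 0 4 1 3 (by decide +kernel)
def w4716 : PV o4716 := fun P h => h.t 4 1 6 3 2 5 1 3 0 4 (by decide +kernel)
def w4717 : PV o4717 := fun P h => h.t 4 1 6 3 2 5 3 4 0 1 (by decide +kernel)
def w4718 : PV o4718 := fun P h => h.t 4 1 6 3 3 4 0 1 2 5 (by decide +kernel)
def w4719 : PV o4719 := fun P h => h.t 4 1 6 3 3 4 0 2 1 5 (by decide +kernel)
def w4720 : PV o4720 := fun P h => h.t 4 1 6 3 3 4 0 5 1 2 (by decide +kernel)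
def w4721 : PV o4721 := fun P h => h.t 4 1 6 3 3 4 1 2 0 5 (by decide +kernel)
def w4722 : PV o4722 := fun P h => h.t 4 1 6 3 3 4 1 5 0 2 (by decide +kernel)
def w4723 : PV o4723 := fun P h => h.t 4 1 6 3 3 5 0 4 1 2 (by decide +kernel)
def w4724 : PV o4724 := fun P h => h.t 4 1 6 3 3 5 1 4 0 2 (by decide +kernel)
def w4725 : PV o4725 := fun P h => h.t 4 1 6 3 4 5 0 1 2 3 (by decide +kernel)
def w4726 : PV o4726 := fun P h => h.t 4 1 6 3 4 5 1 2 0 3 (by decide +kernel)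
def w4727 : PV o4727 := fun P h => h.t 4 1 6 4 0 2 4 5 1 3 (by decide +kernel)
def w4728 : PV o4728 := fun P h => h.t 4 1 6 4 0 3 4 5 1 2 (by decide +kernel)
def w4729 : PV o4729 := fun P h => h.t 4 1 6 4 0 4 2 5 1 3 (by decide +kernel)
def w4730 : PV o4730 := fun P h => h.t 4 1 6 4 0 4 3 5 1 2 (by decide +kernel)
def w4731 : PV o4731 := fun P h => h.t 4 1 6 4 2 3 1 4 0 5 (by decide +kernel)
def w4732 : PV o4732 := fun P h => h.t 4 1 6 5 0 1 2 4 3 5 (by decide +kernel)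
def w4733 : PV o4733 := fun P h => h.t 4 1 6 5 0 1 2 5 3 4 (by decide +kernel)
def w4734 : PV o4734 := fun P h => h.t 4 1 6 5 0 1 3 5 2 4 (by decide +kernel)
def w4735 : PV o4735 := fun P h => h.t 4 1 6 5 0 2 1 4 3 5 (by decide +kernel)
def w4736 : PV o4736 := fun P h => h.t 4 1 6 5 0 2 1 5 3 4 (by decide +kernel)
def w4737 : PV o4737 := fun P h => h.t 4 1 6 5 0 2 3 5 1 4 (by decide +kernel)
def w4738 : PV o4738 := fun P h => h.t 4 1 6 5 0 3 1 2 4 5 (by decide +kernel)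
def w4739 : PV o4739 := fun P h => h.t 4 1 6 5 0 3 1 5 2 4 (by decide +kernel)
def w4740 : PV o4740 := fun P h => h.t 4 1 6 5 0 3 2 5 1 4 (by decide +kernel)
def w4741 : PV o4741 := fun P h => h.t 4 1 6 5 0 4 1 5 2 3 (by decide +kernel)
def w4742 : PV o4742 := fun P h => h.t 4 1 6 5 0 4 2 5 1 3 (by decide +kernel)
def w4743 : PV o4743 := fun P h => h.t 4 1 6 5 0 5 2 4 1 3 (by decide +kernel)
def w4744 : PV o4744 := fun P h => h.t 4 1 6 5 1 2 0 4 3 5 (by decide +kernel)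
def w4745 : PV o4745 := fun P h => h.t 4 1 6 5 1 2 0 5 3 4 (by decide +kernel)
def w4746 : PV o4746 := fun P h => h.t 4 1 6 5 1 2 3 5 0 4 (by decide +kernel)
def w4747 : PV o4747 := fun P h => h.t 4 1 6 5 1 3 0 5 2 4 (by decide +kernel)
def w4748 : PV o4748 := fun P h => h.t 4 1 6 5 1 3 2 5 0 4 (by decide +kernel)
def w4749 : PV o4749 := fun P h => h.t 4 1 6 5 1 5 2 4 0 3 (by decide +kernel)
def w4750 : PV o4750 := fun P h => h.t 4 1 6 5 2 3 0 1 4 5 (by decide +kernel)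
def w4751 : PV o4751 := fun P h => h.t 4 1 6 5 2 3 0 5 1 4 (by decide +kernel)
def w4752 : PV o4752 := fun P h => h.t 4 1 6 5 2 3 1 5 0 4 (by decide +kernel)
def w4753 : PV o4753 := fun P h => h.t 4 1 6 5 2 4 0 1 3 5 (by decide +kernel)
def w4754 : PV o4754 := fun P h => h.t 4 1 6 5 2 4 1 5 0 3 (by decide +kernel)
def w4755 : PV o4755 := fun P h => h.t 4 1 6 5 2 4 3 5 0 1 (by decide +kernel)
def w4756 : PV o4756 := fun P h => h.t 4 1 6 5 3 4 1 5 0 2 (by decide +kernel)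
def w4757 : PV o4757 := fun P h => h.t 4 1 6 5 3 5 1 4 0 2 (by decide +kernel)
def w4758 : PV o4758 := fun P h => h.t 4 1 6 5 4 5 0 1 2 3 (by decide +kernel)
def w4759 : PV o4759 := fun P h => h.t 4 1 6 5 4 5 0 3 1 2 (by decide +kernel)
def w4760 : PV o4760 := fun P h => h.t 4 1 6 5 4 5 1 3 0 2 (by decide +kernel)
def w4761 : PV o4761 := fun P h => h.t 4 1 6 5 4 5 2 3 0 1 (by decide +kernel)
def w4762 : PV o4762 := fun P h => h.t 4 1 6 6 0 2 1 5 3 4 (by decide +kernel)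
def w4763 : PV o4763 := fun P h => h.t 4 1 6 6 0 2 3 4 1 5 (by decide +kernel)
def w4764 : PV o4764 := fun P h => h.t 4 1 6 6 0 3 1 2 4 5 (by decide +kernel)
def w4765 : PV o4765 := fun P h => h.t 4 1 6 6 0 4 2 3 1 5 (by decide +kernel)
def w4766 : PV o4766 := fun P h => h.t 4 1 6 6 1 2 3 4 0 5 (by decide +kernel)
def w4767 : PV o4767 := fun P h => h.t 4 1 6 6 1 3 0 2 4 5 (by decide +kernel)
def w4768 : PV o4768 := fun P h => h.t 4 1 6 6 1 3 0 4 2 5 (by decide +kernel)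
def w4769 : PV o4769 := fun P h => h.t 4 1 6 6 1 3 4 5 0 2 (by decide +kernel)
def w4770 : PV o4770 := fun P h => h.t 4 1 6 6 1 4 0 2 3 5 (by decide +kernel)
def w4771 : PV o4771 := fun P h => h.t 4 1 6 6 1 4 2 3 0 5 (by decide +kernel)
def w4772 : PV o4772 := fun P h => h.t 4 1 6 6 1 5 2 3 0 4 (by decide +kernel)
def w4773 : PV o4773 := fun P h => h.t 4 1 6 6 2 3 0 1 4 5 (by decide +kernel)
def w4774 : PV o4774 := fun P h => h.t 4 1 6 6 2 3 4 5 0 1 (by decide +kernel)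
def w4775 : PV o4775 := fun P h => h.t 4 1 6 6 2 4 0 1 3 5 (by decide +kernel)
def w4776 : PV o4776 := fun P h => h.t 4 1 6 6 2 4 0 3 1 5 (by decide +kernel)
def w4777 : PV o4777 := fun P h => h.t 4 1 6 6 2 4 0 5 1 3 (by decide +kernel)
def w4778 : PV o4778 := fun P h => h.t 4 1 6 6 2 5 3 4 0 1 (by decide +kernel)
def w4779 : PV o4779 := fun P h => h.t 4 1 6 6 3 4 2 5 0 1 (by decide +kernel)
def w4780 : PV o4780 := fun P h => h.t 4 1 6 6 3 5 0 1 2 4 (by decide +kernel)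
def w4781 : PV o4781 := fun P h => h.t 4 1 6 6 3 5 0 4 1 2 (by decide +kernel)
def w4782 : PV o4782 := fun P h => h.t 4 1 6 6 3 5 1 2 0 4 (by decide +kernel)
def w4783 : PV o4783 := fun P h => h.t 4 1 6 7 0 1 2 3 4 5 (by decide +kernel)
def w4784 : PV o4784 := fun P h => h.t 4 1 6 7 0 1 2 5 3 4 (by decide +kernel)
def w4785 : PV o4785 := fun P h => h.t 4 1 6 7 0 1 3 4 2 5 (by decide +kernel)
def w4786 : PV o4786 := fun P h => h.t 4 1 6 7 0 2 1 3 4 5 (by decide +kernel)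
def w4787 : PV o4787 := fun P h => h.t 4 1 6 7 0 2 1 5 3 4 (by decide +kernel)
def w4788 : PV o4788 := fun P h => h.t 4 1 6 7 0 2 3 4 1 5 (by decide +kernel)
def w4789 : PV o4789 := fun P h => h.t 4 1 6 7 0 2 3 5 1 4 (by decide +kernel)
def w4790 : PV o4790 := fun P h => h.t 4 1 6 7 0 3 1 2 4 5 (by decide +kernel)
def w4791 : PV o4791 := fun P h => h.t 4 1 6 7 0 3 1 4 2 5 (by decide +kernel)
def w4792 : PV o4792 := fun P h => h.t 4 1 6 7 0 3 2 4 1 5 (by decide +kernel)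
def w4793 : PV o4793 := fun P h => h.t 4 1 6 7 0 3 2 5 1 4 (by decide +kernel)
def w4794 : PV o4794 := fun P h => h.t 4 1 6 7 0 4 1 2 3 5 (by decide +kernel)
def w4795 : PV o4795 := fun P h => h.t 4 1 6 7 0 4 1 3 2 5 (by decide +kernel)
def w4796 : PV o4796 := fun P h => h.t 4 1 6 7 0 4 2 3 1 5 (by decide +kernel)
def w4797 : PV o4797 := fun P h => h.t 4 1 6 7 0 4 3 5 1 2 (by decide +kernel)
def w4798 : PV o4798 := fun P h => h.t 4 1 6 7 0 5 1 2 3 4 (by decide +kernel)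
def w4799 : PV o4799 := fun P h => h.t 4 1 6 7 0 5 1 3 2 4 (by decide +kernel)

end Pool.Agent.BDD.A
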