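import Pool.Agent.BDD.AC
import Pool.Agent.BDD.AE1

set_option autoImplicit false
set_option linter.all false

namespace Pool.Agent.BDD.A

def w4800 : PV o4800 := fun P h => h.t 4 1 6 7 0 5 2 3 1 4 (by decide +kernel)
def w4801 : PV o4801 := fun P h => h.t 4 1 6 7 0 5 3 4 1 2 (by decide +kernel)
def w4802 : PV o4802 := fun P h => h.t 4 1 6 7 1 2 0 3 4 5 (by decide +kernel)
def w4803 : PV o4803 := fun P h => h.t 4 1 6 7 1 2 0 5 3 4 (by decide +kernel)
def w4804 : PV o4804 := fun P h => h.t 4 1 6 7 1 2 3 4 0 5 (by decide +kernel)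
def w4805 : PV o4805 := fun P h => h.t 4 1 6 7 1 3 0 2 4 5 (by decide +kernel)
def w4806 : PV o4806 := fun P h => h.t 4 1 6 7 1 3 0 4 2 5 (by decide +kernel)
def w4807 : PV o4807 := fun P h => h.t 4 1 6 7 1 3 0 5 2 4 (by decide +kernel)
def w4808 : PV o4808 := fun P h => h.t 4 1 6 7 1 4 0 2 3 5 (by decide +kernel)
def w4809 : PV o4809 := fun P h => h.t 4 1 6 7 1 4 0 3 2 5 (by decide +kernel)
def w4810 : PV o4810 := fun P h => h.t 4 1 6 7 1 5 0 2 3 4 (by decide +kernel)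
def w4811 : PV o4811 := fun P h => h.t 4 1 6 7 1 5 0 3 2 4 (by decide +kernel)
def w4812 : PV o4812 := fun P h => h.t 4 1 6 7 1 5 0 4 2 3 (by decide +kernel)
def w4813 : PV o4813 := fun P h => h.t 4 1 6 7 1 5 2 3 0 4 (by decide +kernel)
def w4814 : PV o4814 := fun P h => h.t 4 1 6 7 2 3 0 1 4 5 (by decide +kernel)
def w4815 : PV o4815 := fun P h => h.t 4 1 6 7 2 3 0 4 1 5 (by decide +kernel)
def w4816 : PV o4816 := fun P h => h.t 4 1 6 7 2 3 0 5 1 4 (by decide +kernel)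
def w4817 : PV o4817 := fun P h => h.t 4 1 6 7 2 3 1 4 0 5 (by decide +kernel)
def w4818 : PV o4818 := fun P h => h.t 4 1 6 7 2 3 4 5 0 1 (by decide +kernel)
def w4819 : PV o4819 := fun P h => h.t 4 1 6 7 2 4 0 1 3 5 (by decide +kernel)
def w4820 : PV o4820 := fun P h => h.t 4 1 6 7 2 4 0 3 1 5 (by decide +kernel)
def w4821 : PV o4821 := fun P h => h.t 4 1 6 7 2 4 0 5 1 3 (by decide +kernel)
def w4822 : PV o4822 := fun P h => h.t 4 1 6 7 2 4 1 3 0 5 (by decide +kernel)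
def w4823 : PV o4823 := fun P h => h.t 4 1 6 7 2 5 0 1 3 4 (by decide +kernel)
def w4824 : PV o4824 := fun P h => h.t 4 1 6 7 2 5 0 3 1 4 (by decide +kernel)
def w4825 : PV o4825 := fun P h => h.t 4 1 6 7 2 5 0 4 1 3 (by decide +kernel)
def w4826 : PV o4826 := fun P h => h.t 4 1 6 7 2 5 1 3 0 4 (by decide +kernel)
def w4827 : PV o4827 := fun P h => h.t 4 1 6 7 2 5 1 4 0 3 (by decide +kernel)
def w4828 : PV o4828 := fun P h => h.t 4 1 6 7 2 5 3 4 0 1 (by decide +kernel)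
def w4829 : PV o4829 := fun P h => h.t 4 1 6 7 3 4 0 1 2 5 (by decide +kernel)
def w4830 : PV o4830 := fun P h => h.t 4 1 6 7 3 4 0 2 1 5 (by decide +kernel)
def w4831 : PV o4831 := fun P h => h.t 4 1 6 7 3 4 0 5 1 2 (by decide +kernel)
def w4832 : PV o4832 := fun P h => h.t 4 1 6 7 3 4 1 5 0 2 (by decide +kernel)
def w4833 : PV o4833 := fun P h => h.t 4 1 6 7 3 4 2 5 0 1 (by decide +kernel)
def w4834 : PV o4834 := fun P h => h.t 4 1 6 7 3 5 0 1 2 4 (by decide +kernel)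
def w4835 : PV o4835 := fun P h => h.t 4 1 6 7 3 5 0 2 1 4 (by decide +kernel)
def w4836 : PV o4836 := fun P h => h.t 4 1 6 7 3 5 0 4 1 2 (by decide +kernel)
def w4837 : PV o4837 := fun P h => h.t 4 1 6 7 3 5 1 2 0 4 (by decide +kernel)
def w4838 : PV o4838 := fun P h => h.t 4 1 6 7 3 5 1 4 0 2 (by decide +kernel)
def w4839 : PV o4839 := fun P h => h.t 4 1 6 7 3 5 2 4 0 1 (by decide +kernel)
def w4840 : PV o4840 := fun P h => h.t 4 1 6 7 4 5 0 1 2 3 (by decide +kernel)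
def w4841 : PV o4841 := fun P h => h.t 4 1 6 7 4 5 0 2 1 3 (by decide +kernel)
def w4842 : PV o4842 := fun P h => h.t 4 1 6 7 4 5 0 3 1 2 (by decide +kernel)
def w4843 : PV o4843 := fun P h => h.t 4 1 6 7 4 5 1 2 0 3 (by decide +kernel)
def w4844 : PV o4844 := fun P h => h.t 4 1 6 7 4 5 1 3 0 2 (by decide +kernel)
def w4845 : PV o4845 := fun P h => h.t 4 1 6 7 4 5 2 3 0 1 (by decide +kernel)
def w4846 : PV o4846 := fun P h => h.x 4 1 6 12 (by decide +kernel)
def w4847 : PV o4847 := fun P h => h.x 4 1 6 5 (by decide +kernel)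
def w4848 : PV o4848 := fun P h => h.x 4 1 6 0 (by decide +kernel)
def w4849 : PV o4849 := fun P h => h.t 4 1 7 2 1 2 0 5 3 4 (by decide +kernel)
def w4850 : PV o4850 := fun P h => h.t 4 1 7 2 2 3 0 1 4 5 (by decide +kernel)
def w4851 : PV o4851 := fun P h => h.t 4 1 7 2 2 4 1 3 0 5 (by decide +kernel)
def w4852 : PV o4852 := fun P h => h.t 4 1 7 2 4 5 0 2 1 3 (by decide +kernel)
def w4853 : PV o4853 := fun P h => h.t 4 1 7 2 4 5 1 2 0 3 (by decide +kernel)
def w4854 : PV o4854 := fun P h => h.t 4 1 7 3 0 1 2 3 4 5 (by decide +kernel)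
def w4855 : PV o4855 := fun P h => h.t 4 1 7 3 0 1 2 4 3 5 (by decide +kernel)
def w4856 : PV o4856 := fun P h => h.t 4 1 7 3 0 2 1 3 4 5 (by decide +kernel)
def w4857 : PV o4857 := fun P h => h.t 4 1 7 3 0 2 1 5 3 4 (by decide +kernel)
def w4858 : PV o4858 := fun P h => h.t 4 1 7 3 0 2 3 4 1 5 (by decide +kernel)
def w4859 : PV o4859 := fun P h => h.t 4 1 7 3 0 2 3 5 1 4 (by decide +kernel)
def w4860 : PV o4860 := fun P h => h.t 4 1 7 3 0 3 1 4 2 5 (by decide +kernel)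
def w4861 : PV o4861 := fun P h => h.t 4 1 7 3 0 3 2 4 1 5 (by decide +kernel)
def w4862 : PV o4862 := fun P h => h.t 4 1 7 3 0 3 2 5 1 4 (by decide +kernel)
def w4863 : PV o4863 := fun P h => h.t 4 1 7 3 0 4 1 2 3 5 (by decide +kernel)
def w4864 : PV o4864 := fun P h => h.t 4 1 7 3 0 4 1 3 2 5 (by decide +kernel)
def w4865 : PV o4865 := fun P h => h.t 4 1 7 3 0 4 1 5 2 3 (by decide +kernel)
def w4866 : PV o4866 := fun P h => h.t 4 1 7 3 0 4 2 5 1 3 (by decide +kernel)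
def w4867 : PV o4867 := fun P h => h.t 4 1 7 3 0 5 1 3 2 4 (by decide +kernel)
def w4868 : PV o4868 := fun P h => h.t 4 1 7 3 1 2 0 4 3 5 (by decide +kernel)
def w4869 : PV o4869 := fun P h => h.t 4 1 7 3 1 2 3 4 0 5 (by decide +kernel)
def w4870 : PV o4870 := fun P h => h.t 4 1 7 3 1 2 3 5 0 4 (by decide +kernel)
def w4871 : PV o4871 := fun P h => h.t 4 1 7 3 1 3 0 2 4 5 (by decide +kernel)
def w4872 : PV o4872 := fun P h => h.t 4 1 7 3 1 3 0 4 2 5 (by decide +kernel)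
def w4873 : PV o4873 := fun P h => h.t 4 1 7 3 1 3 0 5 2 4 (by decide +kernel)
def w4874 : PV o4874 := fun P h => h.t 4 1 7 3 1 3 2 4 0 5 (by decide +kernel)
def w4875 : PV o4875 := fun P h => h.t 4 1 7 3 1 3 2 5 0 4 (by decide +kernel)
def w4876 : PV o4876 := fun P h => h.t 4 1 7 3 1 3 4 5 0 2 (by decide +kernel)
def w4877 : PV o4877 := fun P h => h.t 4 1 7 3 1 4 0 2 3 5 (by decide +kernel)
def w4878 : PV o4878 := fun P h => h.t 4 1 7 3 1 4 0 3 2 5 (by decide +kernel)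
def w4879 : PV o4879 := fun P h => h.t 4 1 7 3 1 4 0 5 2 3 (by decide +kernel)
def w4880 : PV o4880 := fun P h => h.t 4 1 7 3 1 4 2 3 0 5 (by decide +kernel)
def w4881 : PV o4881 := fun P h => h.t 4 1 7 3 1 4 2 5 0 3 (by decide +kernel)
def w4882 : PV o4882 := fun P h => h.t 4 1 7 3 1 5 0 3 2 4 (by decide +kernel)
def w4883 : PV o4883 := fun P h => h.t 4 1 7 3 2 3 0 1 4 5 (by decide +kernel)
def w4884 : PV o4884 := fun P h => h.t 4 1 7 3 2 3 0 4 1 5 (by decide +kernel)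
def w4885 : PV o4885 := fun P h => h.t 4 1 7 3 2 3 1 4 0 5 (by decide +kernel)
def w4886 : PV o4886 := fun P h => h.t 4 1 7 3 2 3 4 5 0 1 (by decide +kernel)
def w4887 : PV o4887 := fun P h => h.t 4 1 7 3 2 4 0 1 3 5 (by decide +kernel)
def w4888 : PV o4888 := fun P h => h.t 4 1 7 3 2 4 0 3 1 5 (by decide +kernel)
def w4889 : PV o4889 := fun P h => h.t 4 1 7 3 2 4 0 5 1 3 (by decide +kernel)
def w4890 : PV o4890 := fun P h => h.t 4 1 7 3 2 4 1 3 0 5 (by decide +kernel)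
def w4891 : PV o4891 := fun P h => h.t 4 1 7 3 2 4 1 5 0 3 (by decide +kernel)
def w4892 : PV o4892 := fun P h => h.t 4 1 7 3 2 4 3 5 0 1 (by decide +kernel)
def w4893 : PV o4893 := fun P h => h.t 4 1 7 3 2 5 0 1 3 4 (by decide +kernel)
def w4894 : PV o4894 := fun P h => h.t 4 1 7 3 2 5 0 3 1 4 (by decide +kernel)
def w4895 : PV o4895 := fun P h => h.t 4 1 7 3 2 5 1 4 0 3 (by decide +kernel)
def w4896 : PV o4896 := fun P h => h.t 4 1 7 3 2 5 3 4 0 1 (by decide +kernel)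
def w4897 : PV o4897 := fun P h => h.t 4 1 7 3 3 4 0 1 2 5 (by decide +kernel)
def w4898 : PV o4898 := fun P h => h.t 4 1 7 3 3 4 0 2 1 5 (by decide +kernel)
def w4899 : PV o4899 := fun P h => h.t 4 1 7 3 3 4 0 5 1 2 (by decide +kernel)
def w4900 : PV o4900 := fun P h => h.t 4 1 7 3 3 4 1 2 0 5 (by decide +kernel)
def w4901 : PV o4901 := fun P h => h.t 4 1 7 3 3 4 1 5 0 2 (by decide +kernel)
def w4902 : PV o4902 := fun P h => h.t 4 1 7 3 3 4 2 5 0 1 (by decide +kernel)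
def w4903 : PV o4903 := fun P h => h.t 4 1 7 3 3 5 0 1 2 4 (by decide +kernel)
def w4904 : PV o4904 := fun P h => h.t 4 1 7 3 3 5 0 2 1 4 (by decide +kernel)
def w4905 : PV o4905 := fun P h => h.t 4 1 7 3 3 5 0 4 1 2 (by decide +kernel)
def w4906 : PV o4906 := fun P h => h.t 4 1 7 3 3 5 1 2 0 4 (by decide +kernel)
def w4907 : PV o4907 := fun P h => h.t 4 1 7 3 3 5 1 4 0 2 (by decide +kernel)
def w4908 : PV o4908 := fun P h => h.t 4 1 7 3 3 5 2 4 0 1 (by decide +kernel)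
def w4909 : PV o4909 := fun P h => h.t 4 1 7 3 4 5 0 1 2 3 (by decide +kernel)
def w4910 : PV o4910 := fun P h => h.t 4 1 7 3 4 5 0 2 1 3 (by decide +kernel)
def w4911 : PV o4911 := fun P h => h.t 4 1 7 3 4 5 0 3 1 2 (by decide +kernel)
def w4912 : PV o4912 := fun P h => h.t 4 1 7 3 4 5 1 2 0 3 (by decide +kernel)
def w4913 : PV o4913 := fun P h => h.t 4 1 7 3 4 5 1 3 0 2 (by decide +kernel)
def w4914 : PV o4914 := fun P h => h.t 4 1 7 3 4 5 2 3 0 1 (by decide +kernel)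
def w4915 : PV o4915 := fun P h => h.t 4 1 7 4 0 2 3 4 1 5 (by decide +kernel)
def w4916 : PV o4916 := fun P h => h.t 4 1 7 4 0 3 4 5 1 2 (by decide +kernel)
def w4917 : PV o4917 := fun P h => h.t 4 1 7 4 0 4 2 3 1 5 (by decide +kernel)
def w4918 : PV o4918 := fun P h => h.t 4 1 7 4 1 2 3 4 0 5 (by decide +kernel)
def w4919 : PV o4919 := fun P h => h.t 4 1 7 4 2 4 0 1 3 5 (by decide +kernel)
def w4920 : PV o4920 := fun P h => h.t 4 1 7 4 2 5 0 1 3 4 (by decide +kernel)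
def w4921 : PV o4921 := fun P h => h.t 4 1 7 4 3 4 0 2 1 5 (by decide +kernel)
def w4922 : PV o4922 := fun P h => h.t 4 1 7 5 0 1 3 4 2 5 (by decide +kernel)
def w4923 : PV o4923 := fun P h => h.t 4 1 7 5 0 1 4 5 2 3 (by decide +kernel)
def w4924 : PV o4924 := fun P h => h.t 4 1 7 5 0 2 1 5 3 4 (by decide +kernel)
def w4925 : PV o4925 := fun P h => h.t 4 1 7 5 0 2 3 4 1 5 (by decide +kernel)
def w4926 : PV o4926 := fun P h => h.t 4 1 7 5 0 5 2 4 1 3 (by decide +kernel)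
def w4927 : PV o4927 := fun P h => h.t 4 1 7 5 1 2 0 5 3 4 (by decide +kernel)
def w4928 : PV o4928 := fun P h => h.t 4 1 7 5 1 2 3 5 0 4 (by decide +kernel)
def w4929 : PV o4929 := fun P h => h.t 4 1 7 5 2 3 4 5 0 1 (by decide +kernel)
def w4930 : PV o4930 := fun P h => h.t 4 1 7 5 2 4 3 5 0 1 (by decide +kernel)
def w4931 : PV o4931 := fun P h => h.t 4 1 7 5 3 5 2 4 0 1 (by decide +kernel)
def w4932 : PV o4932 := fun P h => h.t 4 1 7 5 4 5 2 3 0 1 (by decide +kernel)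
def w4933 : PV o4933 := fun P h => h.t 4 1 7 6 0 1 2 5 3 4 (by decide +kernel)
def w4934 : PV o4934 := fun P h => h.t 4 1 7 6 0 1 3 5 2 4 (by decide +kernel)
def w4935 : PV o4935 := fun P h => h.t 4 1 7 6 0 2 1 5 3 4 (by decide +kernel)
def w4936 : PV o4936 := fun P h => h.t 4 1 7 6 0 2 3 5 1 4 (by decide +kernel)
def w4937 : PV o4937 := fun P h => h.t 4 1 7 6 0 3 1 2 4 5 (by decide +kernel)
def w4938 : PV o4938 := fun P h => h.t 4 1 7 6 0 3 1 4 2 5 (by decide +kernel)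
def w4939 : PV o4939 := fun P h => h.t 4 1 7 6 0 3 1 5 2 4 (by decide +kernel)
def w4940 : PV o4940 := fun P h => h.t 4 1 7 6 0 3 2 4 1 5 (by decide +kernel)
def w4941 : PV o4941 := fun P h => h.t 4 1 7 6 0 3 4 5 1 2 (by decide +kernel)
def w4942 : PV o4942 := fun P h => h.t 4 1 7 6 0 4 1 5 2 3 (by decide +kernel)
def w4943 : PV o4943 := fun P h => h.t 4 1 7 6 0 4 2 5 1 3 (by decide +kernel)
def w4944 : PV o4944 := fun P h => h.t 4 1 7 6 0 4 3 5 1 2 (by decide +kernel)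
def w4945 : PV o4945 := fun P h => h.t 4 1 7 6 0 5 1 2 3 4 (by decide +kernel)
def w4946 : PV o4946 := fun P h => h.t 4 1 7 6 0 5 1 4 2 3 (by decide +kernel)
def w4947 : PV o4947 := fun P h => h.t 4 1 7 6 0 5 3 4 1 2 (by decide +kernel)
def w4948 : PV o4948 := fun P h => h.t 4 1 7 6 1 2 0 3 4 5 (by decide +kernel)
def w4949 : PV o4949 := fun P h => h.t 4 1 7 6 1 2 0 5 3 4 (by decide +kernel)
def w4950 : PV o4950 := fun P h => h.t 4 1 7 6 1 2 3 5 0 4 (by decide +kernel)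
def w4951 : PV o4951 := fun P h => h.t 4 1 7 6 1 3 0 5 2 4 (by decide +kernel)
def w4952 : PV o4952 := fun P h => h.t 4 1 7 6 1 3 4 5 0 2 (by decide +kernel)
def w4953 : PV o4953 := fun P h => h.t 4 1 7 6 1 5 0 2 3 4 (by decide +kernel)
def w4954 : PV o4954 := fun P h => h.t 4 1 7 6 1 5 0 4 2 3 (by decide +kernel)
def w4955 : PV o4955 := fun P h => h.t 4 1 7 6 1 5 2 3 0 4 (by decide +kernel)
def w4956 : PV o4956 := fun P h => h.t 4 1 7 6 1 5 3 4 0 2 (by decide +kernel)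
def w4957 : PV o4957 := fun P h => h.t 4 1 7 6 2 3 0 4 1 5 (by decide +kernel)
def w4958 : PV o4958 := fun P h => h.t 4 1 7 6 2 3 4 5 0 1 (by decide +kernel)
def w4959 : PV o4959 := fun P h => h.t 4 1 7 6 2 4 0 1 3 5 (by decide +kernel)
def w4960 : PV o4960 := fun P h => h.t 4 1 7 6 2 4 0 5 1 3 (by decide +kernel)
def w4961 : PV o4961 := fun P h => h.t 4 1 7 6 2 4 1 3 0 5 (by decide +kernel)
def w4962 : PV o4962 := fun P h => h.t 4 1 7 6 2 4 1 5 0 3 (by decide +kernel)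
def w4963 : PV o4963 := fun P h => h.t 4 1 7 6 2 4 3 5 0 1 (by decide +kernel)
def w4964 : PV o4964 := fun P h => h.t 4 1 7 6 2 5 0 3 1 4 (by decide +kernel)
def w4965 : PV o4965 := fun P h => h.t 4 1 7 6 2 5 1 3 0 4 (by decide +kernel)
def w4966 : PV o4966 := fun P h => h.t 4 1 7 6 2 5 1 4 0 3 (by decide +kernel)
def w4967 : PV o4967 := fun P h => h.t 4 1 7 6 3 4 0 1 2 5 (by decide +kernel)
def w4968 : PV o4968 := fun P h => h.t 4 1 7 6 3 4 0 2 1 5 (by decide +kernel)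
def w4969 : PV o4969 := fun P h => h.t 4 1 7 6 3 4 0 5 1 2 (by decide +kernel)
def w4970 : PV o4970 := fun P h => h.t 4 1 7 6 3 4 1 5 0 2 (by decide +kernel)
def w4971 : PV o4971 := fun P h => h.t 4 1 7 6 3 5 0 1 2 4 (by decide +kernel)
def w4972 : PV o4972 := fun P h => h.t 4 1 7 6 3 5 0 2 1 4 (by decide +kernel)
def w4973 : PV o4973 := fun P h => h.t 4 1 7 6 3 5 0 4 1 2 (by decide +kernel)
def w4974 : PV o4974 := fun P h => h.t 4 1 7 6 3 5 1 2 0 4 (by decide +kernel)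
def w4975 : PV o4975 := fun P h => h.t 4 1 7 6 3 5 1 4 0 2 (by decide +kernel)
def w4976 : PV o4976 := fun P h => h.t 4 1 7 6 3 5 2 4 0 1 (by decide +kernel)
def w4977 : PV o4977 := fun P h => h.t 4 1 7 6 4 5 0 3 1 2 (by decide +kernel)
def w4978 : PV o4978 := fun P h => h.t 4 1 7 6 4 5 1 2 0 3 (by decide +kernel)
def w4979 : PV o4979 := fun P h => h.t 4 1 7 6 4 5 1 3 0 2 (by decide +kernel)
def w4980 : PV o4980 := fun P h => h.t 4 1 7 6 4 5 2 3 0 1 (by decide +kernel)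
def w4981 : PV o4981 := fun P h => h.t 4 1 7 7 0 2 1 3 4 5 (by decide +kernel)
def w4982 : PV o4982 := fun P h => h.t 4 1 7 7 0 2 1 4 3 5 (by decide +kernel)
def w4983 : PV o4983 := fun P h => h.t 4 1 7 7 0 2 1 5 3 4 (by decide +kernel)
def w4984 : PV o4984 := fun P h => h.t 4 1 7 7 0 2 3 4 1 5 (by decide +kernel)
def w4985 : PV o4985 := fun P h => h.t 4 1 7 7 0 2 3 5 1 4 (by decide +kernel)
def w4986 : PV o4986 := fun P h => h.t 4 1 7 7 0 4 1 2 3 5 (by decide +kernel)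
def w4987 : PV o4987 := fun P h => h.t 4 1 7 7 0 4 1 5 2 3 (by decide +kernel)
def w4988 : PV o4988 := fun P h => h.t 4 1 7 7 0 4 3 5 1 2 (by decide +kernel)
def w4989 : PV o4989 := fun P h => h.t 4 1 7 7 1 2 0 3 4 5 (by decide +kernel)
def w4990 : PV o4990 := fun P h => h.t 4 1 7 7 1 2 0 5 3 4 (by decide +kernel)
def w4991 : PV o4991 := fun P h => h.t 4 1 7 7 1 2 3 4 0 5 (by decide +kernel)
def w4992 : PV o4992 := fun P h => h.t 4 1 7 7 1 3 0 2 4 5 (by decide +kernel)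
def w4993 : PV o4993 := fun P h => h.t 4 1 7 7 1 3 0 5 2 4 (by decide +kernel)
def w4994 : PV o4994 := fun P h => h.t 4 1 7 7 1 3 2 5 0 4 (by decide +kernel)
def w4995 : PV o4995 := fun P h => h.t 4 1 7 7 1 4 3 5 0 2 (by decide +kernel)
def w4996 : PV o4996 := fun P h => h.t 4 1 7 7 1 5 2 3 0 4 (by decide +kernel)
def w4997 : PV o4997 := fun P h => h.t 4 1 7 7 1 5 3 4 0 2 (by decide +kernel)
def w4998 : PV o4998 := fun P h => h.t 4 1 7 7 2 3 0 1 4 5 (by decide +kernel)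
def w4999 : PV o4999 := fun P h => h.t 4 1 7 7 2 4 0 1 3 5 (by decide +kernel)
def w5000 : PV o5000 := fun P h => h.t 4 1 7 7 2 4 0 3 1 5 (by decide +kernel)
def w5001 : PV o5001 := fun P h => h.t 4 1 7 7 2 4 3 5 0 1 (by decide +kernel)
def w5002 : PV o5002 := fun P h => h.t 4 1 7 7 2 5 3 4 0 1 (by decide +kernel)
def w5003 : PV o5003 := fun P h => h.t 4 1 7 7 3 4 0 1 2 5 (by decide +kernel)
def w5004 : PV o5004 := fun P h => h.t 4 1 7 7 3 4 0 5 1 2 (by decide +kernel)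
def w5005 : PV o5005 := fun P h => h.t 4 1 7 7 3 4 1 2 0 5 (by decide +kernel)
def w5006 : PV o5006 := fun P h => h.t 4 1 7 7 3 4 2 5 0 1 (by decide +kernel)
def w5007 : PV o5007 := fun P h => h.t 4 1 7 7 3 5 0 1 2 4 (by decide +kernel)
def w5008 : PV o5008 := fun P h => h.t 4 1 7 7 3 5 0 4 1 2 (by decide +kernel)
def w5009 : PV o5009 := fun P h => h.t 4 1 7 7 3 5 1 2 0 4 (by decide +kernel)
def w5010 : PV o5010 := fun P h => h.t 4 1 7 7 3 5 1 4 0 2 (by decide +kernel)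
def w5011 : PV o5011 := fun P h => h.t 4 1 7 7 3 5 2 4 0 1 (by decide +kernel)
def w5012 : PV o5012 := fun P h => h.x 4 1 7 15 (by decide +kernel)
def w5013 : PV o5013 := fun P h => h.x 4 1 7 13 (by decide +kernel)
def w5014 : PV o5014 := fun P h => h.x 4 1 7 12 (by decide +kernel)
def w5015 : PV o5015 := fun P h => h.x 4 1 7 5 (by decide +kernel)
def w5016 : PV o5016 := fun P h => h.x 4 1 7 4 (by decide +kernel)
def w5017 : PV o5017 := fun P h => h.x 4 1 7 0 (by decide +kernel)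
def w5018 : PV o5018 := fun P h => h.x 4 2 0 12 (by decide +kernel)
def w5019 : PV o5019 := fun P h => h.x 4 2 1 15 (by decide +kernel)
def w5020 : PV o5020 := fun P h => h.t 4 2 2 3 1 5 2 3 0 4 (by decide +kernel)
def w5021 : PV o5021 := fun P h => h.t 4 2 2 3 2 4 0 5 1 3 (by decide +kernel)
def w5022 : PV o5022 := fun P h => h.t 4 2 2 3 3 5 1 2 0 4 (by decide +kernel)
def w5023 : PV o5023 := fun P h => h.t 4 2 3 3 0 2 1 4 3 5 (by decide +kernel)
def w5024 : PV o5024 := fun P h => h.t 4 2 3 3 0 4 1 5 2 3 (by decide +kernel)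
def w5025 : PV o5025 := fun P h => h.t 4 2 3 3 1 2 0 4 3 5 (by decide +kernel)
def w5026 : PV o5026 := fun P h => h.t 4 2 3 3 1 2 3 4 0 5 (by decide +kernel)
def w5027 : PV o5027 := fun P h => h.t 4 2 3 3 1 3 0 4 2 5 (by decide +kernel)
def w5028 : PV o5028 := fun P h => h.t 4 2 3 3 1 3 2 4 0 5 (by decide +kernel)
def w5029 : PV o5029 := fun P h => h.t 4 2 3 3 1 4 0 5 2 3 (by decide +kernel)
def w5030 : PV o5030 := fun P h => h.t 4 2 3 3 1 4 2 3 0 5 (by decide +kernel)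
def w5031 : PV o5031 := fun P h => h.t 4 2 3 3 1 5 0 3 2 4 (by decide +kernel)
def w5032 : PV o5032 := fun P h => h.t 4 2 3 3 1 5 2 3 0 4 (by decide +kernel)
def w5033 : PV o5033 := fun P h => h.t 4 2 3 3 2 3 0 1 4 5 (by decide +kernel)
def w5034 : PV o5034 := fun P h => h.t 4 2 3 3 2 4 0 3 1 5 (by decide +kernel)
def w5035 : PV o5035 := fun P h => h.t 4 2 3 3 2 4 0 5 1 3 (by decide +kernel)
def w5036 : PV o5036 := fun P h => h.t 4 2 3 3 2 5 0 1 3 4 (by decide +kernel)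
def w5037 : PV o5037 := fun P h => h.t 4 2 3 3 3 4 0 2 1 5 (by decide +kernel)
def w5038 : PV o5038 := fun P h => h.t 4 2 3 3 3 4 0 5 1 2 (by decide +kernel)
def w5039 : PV o5039 := fun P h => h.t 4 2 3 3 3 5 0 2 1 4 (by decide +kernel)
def w5040 : PV o5040 := fun P h => h.t 4 2 3 3 3 5 0 4 1 2 (by decide +kernel)
def w5041 : PV o5041 := fun P h => h.t 4 2 3 6 1 2 0 3 4 5 (by decide +kernel)
def w5042 : PV o5042 := fun P h => h.t 4 2 3 6 1 2 0 5 3 4 (by decide +kernel)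
def w5043 : PV o5043 := fun P h => h.t 4 2 3 6 1 3 0 5 2 4 (by decide +kernel)
def w5044 : PV o5044 := fun P h => h.t 4 2 3 6 1 4 0 5 2 3 (by decide +kernel)
def w5045 : PV o5045 := fun P h => h.t 4 2 3 6 2 3 0 5 1 4 (by decide +kernel)
def w5046 : PV o5046 := fun P h => h.t 4 2 3 6 2 4 0 5 1 3 (by decide +kernel)
def w5047 : PV o5047 := fun P h => h.t 4 2 3 6 3 4 0 5 1 2 (by decide +kernel)
def w5048 : PV o5048 := fun P h => h.t 4 2 3 6 4 5 0 1 2 3 (by decide +kernel)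
def w5049 : PV o5049 := fun P h => h.t 4 2 3 7 0 4 1 5 2 3 (by decide +kernel)
def w5050 : PV o5050 := fun P h => h.t 4 2 3 7 0 5 1 2 3 4 (by decide +kernel)
def w5051 : PV o5051 := fun P h => h.t 4 2 3 7 1 2 0 4 3 5 (by decide +kernel)
def w5052 : PV o5052 := fun P h => h.t 4 2 3 7 1 2 3 4 0 5 (by decide +kernel)
def w5053 : PV o5053 := fun P h => h.t 4 2 3 7 1 3 0 4 2 5 (by decide +kernel)
def w5054 : PV o5054 := fun P h => h.t 4 2 3 7 1 3 0 5 2 4 (by decide +kernel)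
def w5055 : PV o5055 := fun P h => h.t 4 2 3 7 1 3 2 4 0 5 (by decide +kernel)
def w5056 : PV o5056 := fun P h => h.t 4 2 3 7 1 4 0 5 2 3 (by decide +kernel)
def w5057 : PV o5057 := fun P h => h.t 4 2 3 7 1 5 0 2 3 4 (by decide +kernel)
def w5058 : PV o5058 := fun P h => h.t 4 2 3 7 2 3 0 4 1 5 (by decide +kernel)
def w5059 : PV o5059 := fun P h => h.t 4 2 3 7 2 3 1 4 0 5 (by decide +kernel)
def w5060 : PV o5060 := fun P h => h.t 4 2 3 7 2 4 0 5 1 3 (by decide +kernel)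
def w5061 : PV o5061 := fun P h => h.t 4 2 3 7 2 5 0 1 3 4 (by decide +kernel)
def w5062 : PV o5062 := fun P h => h.t 4 2 3 7 2 5 0 3 1 4 (by decide +kernel)
def w5063 : PV o5063 := fun P h => h.t 4 2 3 7 2 5 1 3 0 4 (by decide +kernel)
def w5064 : PV o5064 := fun P h => h.t 4 2 3 7 3 5 0 1 2 4 (by decide +kernel)
def w5065 : PV o5065 := fun P h => h.t 4 2 3 7 3 5 0 2 1 4 (by decide +kernel)
def w5066 : PV o5066 := fun P h => h.t 4 2 3 7 4 5 0 1 2 3 (by decide +kernel)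
def w5067 : PV o5067 := fun P h => h.x 4 2 3 15 (by decide +kernel)
def w5068 : PV o5068 := fun P h => h.x 4 2 3 13 (by decide +kernel)
def w5069 : PV o5069 := fun P h => h.x 4 2 3 5 (by decide +kernel)
def w5070 : PV o5070 := fun P h => h.t 4 2 6 3 1 2 3 4 0 5 (by decide +kernel)
def w5071 : PV o5071 := fun P h => h.t 4 2 6 3 1 4 2 3 0 5 (by decide +kernel)
def w5072 : PV o5072 := fun P h => h.t 4 2 6 3 2 3 0 4 1 5 (by decide +kernel)
def w5073 : PV o5073 := fun P h => h.t 4 2 6 3 2 3 1 4 0 5 (by decide +kernel)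
def w5074 : PV o5074 := fun P h => h.t 4 2 6 3 3 4 0 2 1 5 (by decide +kernel)
def w5075 : PV o5075 := fun P h => h.t 4 2 6 3 3 4 1 2 0 5 (by decide +kernel)
def w5076 : PV o5076 := fun P h => h.t 4 2 7 3 0 3 4 5 1 2 (by decide +kernel)
def w5077 : PV o5077 := fun P h => h.t 4 2 7 3 0 4 1 5 2 3 (by decide +kernel)
def w5078 : PV o5078 := fun P h => h.t 4 2 7 3 0 5 1 2 3 4 (by decide +kernel)
def w5079 : PV o5079 := fun P h => h.t 4 2 7 3 1 3 2 4 0 5 (by decide +kernel)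
def w5080 : PV o5080 := fun P h => h.t 4 2 7 3 1 3 4 5 0 2 (by decide +kernel)
def w5081 : PV o5081 := fun P h => h.t 4 2 7 3 1 4 0 2 3 5 (by decide +kernel)
def w5082 : PV o5082 := fun P h => h.t 4 2 7 3 1 4 2 3 0 5 (by decide +kernel)
def w5083 : PV o5083 := fun P h => h.t 4 2 7 3 1 5 0 2 3 4 (by decide +kernel)
def w5084 : PV o5084 := fun P h => h.t 4 2 7 3 1 5 2 3 0 4 (by decide +kernel)
def w5085 : PV o5085 := fun P h => h.t 4 2 7 3 2 4 0 3 1 5 (by decide +kernel)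
def w5086 : PV o5086 := fun P h => h.t 4 2 7 3 2 4 0 5 1 3 (by decide +kernel)
def w5087 : PV o5087 := fun P h => h.t 4 2 7 3 2 5 0 3 1 4 (by decide +kernel)
def w5088 : PV o5088 := fun P h => h.t 4 2 7 6 0 4 1 5 2 3 (by decide +kernel)
def w5089 : PV o5089 := fun P h => h.t 4 2 7 7 0 4 1 5 2 3 (by decide +kernel)
def w5090 : PV o5090 := fun P h => h.x 4 2 7 15 (by decide +kernel)
def w5091 : PV o5091 := fun P h => h.x 4 2 7 12 (by decide +kernel)
def w5092 : PV o5092 := fun P h => h.x 4 2 7 5 (by decide +kernel)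
def w5093 : PV o5093 := fun P h => h.x 4 3 0 15 (by decide +kernel)
def w5094 : PV o5094 := fun P h => h.x 4 3 0 13 (by decide +kernel)
def w5095 : PV o5095 := fun P h => h.x 4 3 0 12 (by decide +kernel)
def w5096 : PV o5096 := fun P h => h.x 4 3 0 5 (by decide +kernel)
def w5097 : PV o5097 := fun P h => h.x 4 3 0 4 (by decide +kernel)
def w5098 : PV o5098 := fun P h => h.x 4 3 0 0 (by decide +kernel)
def w5099 : PV o5099 := fun P h => h.x 4 3 1 15 (by decide +kernel)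
def w5100 : PV o5100 := fun P h => h.x 4 3 1 13 (by decide +kernel)
def w5101 : PV o5101 := fun P h => h.x 4 3 1 12 (by decide +kernel)
def w5102 : PV o5102 := fun P h => h.x 4 3 1 5 (by decide +kernel)
def w5103 : PV o5103 := fun P h => h.x 4 3 1 4 (by decide +kernel)
def w5104 : PV o5104 := fun P h => h.x 4 3 2 15 (by decide +kernel)
def w5105 : PV o5105 := fun P h => h.x 4 3 2 13 (by decide +kernel)
def w5106 : PV o5106 := fun P h => h.x 4 3 2 12 (by decide +kernel)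
def w5107 : PV o5107 := fun P h => h.x 4 3 2 5 (by decide +kernel)
def w5108 : PV o5108 := fun P h => h.t 4 3 3 3 0 2 3 5 1 4 (by decide +kernel)
def w5109 : PV o5109 := fun P h => h.t 4 3 3 4 0 1 2 4 3 5 (by decide +kernel)
def w5110 : PV o5110 := fun P h => h.t 4 3 3 4 0 1 3 4 2 5 (by decide +kernel)
def w5111 : PV o5111 := fun P h => h.t 4 3 3 4 0 1 4 5 2 3 (by decide +kernel)
def w5112 : PV o5112 := fun P h => h.t 4 3 3 4 0 2 1 4 3 5 (by decide +kernel)
def w5113 : PV o5113 := fun P h => h.t 4 3 3 4 0 2 1 5 3 4 (by decide +kernel)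
def w5114 : PV o5114 := fun P h => h.t 4 3 3 4 0 2 3 4 1 5 (by decide +kernel)
def w5115 : PV o5115 := fun P h => h.t 4 3 3 4 0 2 3 5 1 4 (by decide +kernel)
def w5116 : PV o5116 := fun P h => h.t 4 3 3 4 0 2 4 5 1 3 (by decide +kernel)
def w5117 : PV o5117 := fun P h => h.t 4 3 3 4 0 3 1 5 2 4 (by decide +kernel)
def w5118 : PV o5118 := fun P h => h.t 4 3 3 4 0 3 2 4 1 5 (by decide +kernel)
def w5119 : PV o5119 := fun P h => h.t 4 3 3 4 0 3 2 5 1 4 (by decide +kernel)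
def w5120 : PV o5120 := fun P h => h.t 4 3 3 4 0 3 4 5 1 2 (by decide +kernel)
def w5121 : PV o5121 := fun P h => h.t 4 3 3 4 0 4 1 2 3 5 (by decide +kernel)
def w5122 : PV o5122 := fun P h => h.t 4 3 3 4 0 4 2 5 1 3 (by decide +kernel)
def w5123 : PV o5123 := fun P h => h.t 4 3 3 4 0 4 3 5 1 2 (by decide +kernel)
def w5124 : PV o5124 := fun P h => h.t 4 3 3 4 0 5 1 2 3 4 (by decide +kernel)
def w5125 : PV o5125 := fun P h => h.t 4 3 3 4 0 5 1 3 2 4 (by decide +kernel)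
def w5126 : PV o5126 := fun P h => h.t 4 3 3 4 1 2 3 5 0 4 (by decide +kernel)
def w5127 : PV o5127 := fun P h => h.t 4 3 3 4 1 2 4 5 0 3 (by decide +kernel)
def w5128 : PV o5128 := fun P h => h.t 4 3 3 4 1 3 4 5 0 2 (by decide +kernel)
def w5129 : PV o5129 := fun P h => h.t 4 3 3 4 1 4 3 5 0 2 (by decide +kernel)
def w5130 : PV o5130 := fun P h => h.t 4 3 3 4 1 5 2 3 0 4 (by decide +kernel)
def w5131 : PV o5131 := fun P h => h.t 4 3 3 4 3 4 0 5 1 2 (by decide +kernel)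
def w5132 : PV o5132 := fun P h => h.t 4 3 3 4 3 4 1 5 0 2 (by decide +kernel)
def w5133 : PV o5133 := fun P h => h.t 4 3 3 5 0 1 3 4 2 5 (by decide +kernel)
def w5134 : PV o5134 := fun P h => h.t 4 3 3 5 0 1 3 5 2 4 (by decide +kernel)
def w5135 : PV o5135 := fun P h => h.t 4 3 3 5 0 1 4 5 2 3 (by decide +kernel)
def w5136 : PV o5136 := fun P h => h.t 4 3 3 5 0 2 1 4 3 5 (by decide +kernel)
def w5137 : PV o5137 := fun P h => h.t 4 3 3 5 0 2 1 5 3 4 (by decide +kernel)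
def w5138 : PV o5138 := fun P h => h.t 4 3 3 5 0 3 1 5 2 4 (by decide +kernel)
def w5139 : PV o5139 := fun P h => h.t 4 3 3 5 0 4 1 2 3 5 (by decide +kernel)
def w5140 : PV o5140 := fun P h => h.t 4 3 3 5 0 4 2 5 1 3 (by decide +kernel)
def w5141 : PV o5141 := fun P h => h.t 4 3 3 5 0 5 1 2 3 4 (by decide +kernel)
def w5142 : PV o5142 := fun P h => h.t 4 3 3 5 0 5 1 3 2 4 (by decide +kernel)
def w5143 : PV o5143 := fun P h => h.t 4 3 3 5 1 4 3 5 0 2 (by decide +kernel)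
def w5144 : PV o5144 := fun P h => h.t 4 3 3 5 2 3 0 5 1 4 (by decide +kernel)
def w5145 : PV o5145 := fun P h => h.t 4 3 3 6 0 1 2 5 3 4 (by decide +kernel)
def w5146 : PV o5146 := fun P h => h.t 4 3 3 6 0 1 3 4 2 5 (by decide +kernel)
def w5147 : PV o5147 := fun P h => h.t 4 3 3 6 0 1 3 5 2 4 (by decide +kernel)
def w5148 : PV o5148 := fun P h => h.t 4 3 3 6 0 2 1 4 3 5 (by decide +kernel)
def w5149 : PV o5149 := fun P h => h.t 4 3 3 6 0 2 1 5 3 4 (by decide +kernel)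
def w5150 : PV o5150 := fun P h => h.t 4 3 3 6 0 2 3 5 1 4 (by decide +kernel)
def w5151 : PV o5151 := fun P h => h.t 4 3 3 6 0 2 4 5 1 3 (by decide +kernel)
def w5152 : PV o5152 := fun P h => h.t 4 3 3 6 0 3 1 5 2 4 (by decide +kernel)
def w5153 : PV o5153 := fun P h => h.t 4 3 3 6 0 3 2 4 1 5 (by decide +kernel)
def w5154 : PV o5154 := fun P h => h.t 4 3 3 6 0 3 2 5 1 4 (by decide +kernel)
def w5155 : PV o5155 := fun P h => h.t 4 3 3 6 0 3 4 5 1 2 (by decide +kernel)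
def w5156 : PV o5156 := fun P h => h.t 4 3 3 6 0 4 2 5 1 3 (by decide +kernel)
def w5157 : PV o5157 := fun P h => h.t 4 3 3 6 0 4 3 5 1 2 (by decide +kernel)
def w5158 : PV o5158 := fun P h => h.t 4 3 3 6 0 5 1 2 3 4 (by decide +kernel)
def w5159 : PV o5159 := fun P h => h.t 4 3 3 6 0 5 1 3 2 4 (by decide +kernel)
def w5160 : PV o5160 := fun P h => h.t 4 3 3 6 0 5 2 3 1 4 (by decide +kernel)
def w5161 : PV o5161 := fun P h => h.t 4 3 3 6 1 2 4 5 0 3 (by decide +kernel)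
def w5162 : PV o5162 := fun P h => h.t 4 3 3 6 1 3 2 5 0 4 (by decide +kernel)
def w5163 : PV o5163 := fun P h => h.t 4 3 3 6 1 3 4 5 0 2 (by decide +kernel)
def w5164 : PV o5164 := fun P h => h.t 4 3 3 6 1 4 3 5 0 2 (by decide +kernel)
def w5165 : PV o5165 := fun P h => h.t 4 3 3 6 1 5 2 3 0 4 (by decide +kernel)
def w5166 : PV o5166 := fun P h => h.t 4 3 3 6 2 3 0 4 1 5 (by decide +kernel)
def w5167 : PV o5167 := fun P h => h.t 4 3 3 6 2 3 0 5 1 4 (by decide +kernel)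
def w5168 : PV o5168 := fun P h => h.t 4 3 3 6 2 4 0 5 1 3 (by decide +kernel)
def w5169 : PV o5169 := fun P h => h.t 4 3 3 6 3 4 0 5 1 2 (by decide +kernel)
def w5170 : PV o5170 := fun P h => h.t 4 3 3 6 3 4 1 5 0 2 (by decide +kernel)
def w5171 : PV o5171 := fun P h => h.t 4 3 3 7 0 1 2 4 3 5 (by decide +kernel)
def w5172 : PV o5172 := fun P h => h.t 4 3 3 7 0 1 3 4 2 5 (by decide +kernel)
def w5173 : PV o5173 := fun P h => h.t 4 3 3 7 0 1 3 5 2 4 (by decide +kernel)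
def w5174 : PV o5174 := fun P h => h.t 4 3 3 7 0 1 4 5 2 3 (by decide +kernel)
def w5175 : PV o5175 := fun P h => h.t 4 3 3 7 0 2 1 4 3 5 (by decide +kernel)
def w5176 : PV o5176 := fun P h => h.t 4 3 3 7 0 2 1 5 3 4 (by decide +kernel)
def w5177 : PV o5177 := fun P h => h.t 4 3 3 7 0 2 3 5 1 4 (by decide +kernel)
def w5178 : PV o5178 := fun P h => h.t 4 3 3 7 0 2 4 5 1 3 (by decide +kernel)
def w5179 : PV o5179 := fun P h => h.t 4 3 3 7 0 3 1 5 2 4 (by decide +kernel)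
def w5180 : PV o5180 := fun P h => h.t 4 3 3 7 0 3 2 4 1 5 (by decide +kernel)
def w5181 : PV o5181 := fun P h => h.t 4 3 3 7 0 3 2 5 1 4 (by decide +kernel)
def w5182 : PV o5182 := fun P h => h.t 4 3 3 7 0 3 4 5 1 2 (by decide +kernel)
def w5183 : PV o5183 := fun P h => h.t 4 3 3 7 0 4 1 2 3 5 (by decide +kernel)
def w5184 : PV o5184 := fun P h => h.t 4 3 3 7 0 4 2 5 1 3 (by decide +kernel)
def w5185 : PV o5185 := fun P h => h.t 4 3 3 7 0 4 3 5 1 2 (by decide +kernel)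
def w5186 : PV o5186 := fun P h => h.t 4 3 3 7 0 5 1 2 3 4 (by decide +kernel)
def w5187 : PV o5187 := fun P h => h.t 4 3 3 7 0 5 1 3 2 4 (by decide +kernel)
def w5188 : PV o5188 := fun P h => h.t 4 3 3 7 0 5 2 3 1 4 (by decide +kernel)
def w5189 : PV o5189 := fun P h => h.t 4 3 3 7 1 2 4 5 0 3 (by decide +kernel)
def w5190 : PV o5190 := fun P h => h.t 4 3 3 7 1 3 2 5 0 4 (by decide +kernel)
def w5191 : PV o5191 := fun P h => h.t 4 3 3 7 1 3 4 5 0 2 (by decide +kernel)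
def w5192 : PV o5192 := fun P h => h.t 4 3 3 7 1 4 3 5 0 2 (by decide +kernel)
def w5193 : PV o5193 := fun P h => h.t 4 3 3 7 1 5 2 3 0 4 (by decide +kernel)
def w5194 : PV o5194 := fun P h => h.t 4 3 3 7 2 3 0 4 1 5 (by decide +kernel)
def w5195 : PV o5195 := fun P h => h.t 4 3 3 7 2 4 0 5 1 3 (by decide +kernel)
def w5196 : PV o5196 := fun P h => h.t 4 3 3 7 3 4 0 5 1 2 (by decide +kernel)
def w5197 : PV o5197 := fun P h => h.t 4 3 3 7 3 4 1 5 0 2 (by decide +kernel)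
def w5198 : PV o5198 := fun P h => h.t 4 3 4 4 0 2 3 4 1 5 (by decide +kernel)
def w5199 : PV o5199 := fun P h => h.t 4 3 4 4 0 3 4 5 1 2 (by decide +kernel)
def w5200 : PV o5200 := fun P h => h.t 4 3 4 4 1 3 2 4 0 5 (by decide +kernel)
def w5201 : PV o5201 := fun P h => h.t 4 3 4 4 1 5 2 3 0 4 (by decide +kernel)
def w5202 : PV o5202 := fun P h => h.t 4 3 4 4 1 5 2 4 0 3 (by decide +kernel)
def w5203 : PV o5203 := fun P h => h.t 4 3 4 4 2 4 0 5 1 3 (by decide +kernel)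
def w5204 : PV o5204 := fun P h => h.t 4 3 4 4 2 4 3 5 0 1 (by decide +kernel)
def w5205 : PV o5205 := fun P h => h.t 4 3 4 4 3 4 0 5 1 2 (by decide +kernel)
def w5206 : PV o5206 := fun P h => h.t 4 3 4 4 3 5 0 4 1 2 (by decide +kernel)
def w5207 : PV o5207 := fun P h => h.t 4 3 4 4 3 5 1 4 0 2 (by decide +kernel)
def w5208 : PV o5208 := fun P h => h.t 4 3 4 5 0 2 1 5 3 4 (by decide +kernel)
def w5209 : PV o5209 := fun P h => h.t 4 3 4 5 0 3 1 5 2 4 (by decide +kernel)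
def w5210 : PV o5210 := fun P h => h.t 4 3 4 5 1 5 2 3 0 4 (by decide +kernel)
def w5211 : PV o5211 := fun P h => h.t 4 3 4 5 1 5 2 4 0 3 (by decide +kernel)
def w5212 : PV o5212 := fun P h => h.t 4 3 4 6 1 3 2 4 0 5 (by decide +kernel)
def w5213 : PV o5213 := fun P h => h.t 4 3 4 6 1 4 2 5 0 3 (by decide +kernel)
def w5214 : PV o5214 := fun P h => h.t 4 3 4 6 1 4 3 5 0 2 (by decide +kernel)
def w5215 : PV o5215 := fun P h => h.t 4 3 4 6 2 5 0 3 1 4 (by decide +kernel)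
def w5216 : PV o5216 := fun P h => h.t 4 3 4 6 3 5 0 4 1 2 (by decide +kernel)
def w5217 : PV o5217 := fun P h => h.t 4 3 4 7 0 1 2 3 4 5 (by decide +kernel)
def w5218 : PV o5218 := fun P h => h.t 4 3 4 7 0 1 3 5 2 4 (by decide +kernel)
def w5219 : PV o5219 := fun P h => h.t 4 3 4 7 0 2 1 3 4 5 (by decide +kernel)
def w5220 : PV o5220 := fun P h => h.t 4 3 4 7 0 2 1 4 3 5 (by decide +kernel)
def w5221 : PV o5221 := fun P h => h.t 4 3 4 7 0 2 1 5 3 4 (by decide +kernel)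
def w5222 : PV o5222 := fun P h => h.t 4 3 4 7 0 3 2 5 1 4 (by decide +kernel)
def w5223 : PV o5223 := fun P h => h.t 4 3 4 7 0 4 1 3 2 5 (by decide +kernel)
def w5224 : PV o5224 := fun P h => h.t 4 3 4 7 0 5 1 4 2 3 (by decide +kernel)
def w5225 : PV o5225 := fun P h => h.t 4 3 4 7 1 2 0 4 3 5 (by decide +kernel)
def w5226 : PV o5226 := fun P h => h.t 4 3 4 7 1 5 0 2 3 4 (by decide +kernel)
def w5227 : PV o5227 := fun P h => h.t 4 3 4 7 2 5 0 3 1 4 (by decide +kernel)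
def w5228 : PV o5228 := fun P h => h.t 4 3 4 7 2 5 1 4 0 3 (by decide +kernel)
def w5229 : PV o5229 := fun P h => h.t 4 3 4 7 3 5 0 1 2 4 (by decide +kernel)
def w5230 : PV o5230 := fun P h => h.t 4 3 4 7 4 5 0 3 1 2 (by decide +kernel)
def w5231 : PV o5231 := fun P h => h.x 4 3 4 15 (by decide +kernel)
def w5232 : PV o5232 := fun P h => h.x 4 3 4 13 (by decide +kernel)
def w5233 : PV o5233 := fun P h => h.x 4 3 4 12 (by decide +kernel)
def w5234 : PV o5234 := fun P h => h.x 4 3 4 4 (by decide +kernel)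
def w5235 : PV o5235 := fun P h => h.x 4 3 4 0 (by decide +kernel)
def w5236 : PV o5236 := fun P h => h.t 4 3 5 4 1 3 0 5 2 4 (by decide +kernel)
def w5237 : PV o5237 := fun P h => h.t 4 3 5 4 1 4 2 5 0 3 (by decide +kernel)
def w5238 : PV o5238 := fun P h => h.t 4 3 5 4 1 4 3 5 0 2 (by decide +kernel)
def w5239 : PV o5239 := fun P h => h.t 4 3 5 4 2 3 4 5 0 1 (by decide +kernel)
def w5240 : PV o5240 := fun P h => h.t 4 3 5 4 2 4 3 5 0 1 (by decide +kernel)
def w5241 : PV o5241 := fun P h => h.t 4 3 5 4 3 4 0 5 1 2 (by decide +kernel)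
def w5242 : PV o5242 := fun P h => h.t 4 3 5 4 3 4 1 5 0 2 (by decide +kernel)
def w5243 : PV o5243 := fun P h => h.t 4 3 5 6 0 1 2 4 3 5 (by decide +kernel)
def w5244 : PV o5244 := fun P h => h.t 4 3 5 6 0 1 2 5 3 4 (by decide +kernel)
def w5245 : PV o5245 := fun P h => h.t 4 3 5 6 0 1 3 5 2 4 (by decide +kernel)
def w5246 : PV o5246 := fun P h => h.t 4 3 5 6 0 3 1 4 2 5 (by decide +kernel)
def w5247 : PV o5247 := fun P h => h.t 4 3 5 6 0 5 1 3 2 4 (by decide +kernel)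
def w5248 : PV o5248 := fun P h => h.t 4 3 5 6 1 2 3 4 0 5 (by decide +kernel)
def w5249 : PV o5249 := fun P h => h.t 4 3 5 6 1 2 3 5 0 4 (by decide +kernel)
def w5250 : PV o5250 := fun P h => h.t 4 3 5 6 1 2 4 5 0 3 (by decide +kernel)
def w5251 : PV o5251 := fun P h => h.t 4 3 5 6 1 3 2 4 0 5 (by decide +kernel)
def w5252 : PV o5252 := fun P h => h.t 4 3 5 6 1 3 4 5 0 2 (by decide +kernel)
def w5253 : PV o5253 := fun P h => h.t 4 3 5 6 1 5 0 3 2 4 (by decide +kernel)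
def w5254 : PV o5254 := fun P h => h.t 4 3 5 6 1 5 2 3 0 4 (by decide +kernel)
def w5255 : PV o5255 := fun P h => h.t 4 3 5 6 1 5 3 4 0 2 (by decide +kernel)
def w5256 : PV o5256 := fun P h => h.t 4 3 5 6 2 3 0 4 1 5 (by decide +kernel)
def w5257 : PV o5257 := fun P h => h.t 4 3 5 6 2 4 0 3 1 5 (by decide +kernel)
def w5258 : PV o5258 := fun P h => h.t 4 3 5 6 2 4 3 5 0 1 (by decide +kernel)
def w5259 : PV o5259 := fun P h => h.t 4 3 5 6 2 5 0 3 1 4 (by decide +kernel)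
def w5260 : PV o5260 := fun P h => h.t 4 3 5 6 2 5 1 3 0 4 (by decide +kernel)
def w5261 : PV o5261 := fun P h => h.t 4 3 5 6 2 5 3 4 0 1 (by decide +kernel)
def w5262 : PV o5262 := fun P h => h.t 4 3 5 6 3 4 0 2 1 5 (by decide +kernel)
def w5263 : PV o5263 := fun P h => h.t 4 3 5 6 3 4 0 5 1 2 (by decide +kernel)
def w5264 : PV o5264 := fun P h => h.t 4 3 5 6 3 4 1 5 0 2 (by decide +kernel)
def w5265 : PV o5265 := fun P h => h.t 4 3 5 6 3 5 0 1 2 4 (by decide +kernel)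
def w5266 : PV o5266 := fun P h => h.t 4 3 5 6 3 5 0 2 1 4 (by decide +kernel)
def w5267 : PV o5267 := fun P h => h.t 4 3 5 6 3 5 1 4 0 2 (by decide +kernel)
def w5268 : PV o5268 := fun P h => h.t 4 3 5 6 4 5 0 1 2 3 (by decide +kernel)
def w5269 : PV o5269 := fun P h => h.t 4 3 5 6 4 5 0 2 1 3 (by decide +kernel)
def w5270 : PV o5270 := fun P h => h.t 4 3 5 6 4 5 1 3 0 2 (by decide +kernel)
def w5271 : PV o5271 := fun P h => h.t 4 3 5 7 0 1 3 4 2 5 (by decide +kernel)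
def w5272 : PV o5272 := fun P h => h.t 4 3 5 7 0 1 3 5 2 4 (by decide +kernel)
def w5273 : PV o5273 := fun P h => h.t 4 3 5 7 0 1 4 5 2 3 (by decide +kernel)
def w5274 : PV o5274 := fun P h => h.t 4 3 5 7 0 2 3 5 1 4 (by decide +kernel)
def w5275 : PV o5275 := fun P h => h.t 4 3 5 7 0 3 2 4 1 5 (by decide +kernel)
def w5276 : PV o5276 := fun P h => h.t 4 3 5 7 0 5 2 3 1 4 (by decide +kernel)
def w5277 : PV o5277 := fun P h => h.t 4 3 5 7 1 2 3 4 0 5 (by decide +kernel)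
def w5278 : PV o5278 := fun P h => h.t 4 3 5 7 1 3 2 4 0 5 (by decide +kernel)
def w5279 : PV o5279 := fun P h => h.t 4 3 5 7 1 4 2 5 0 3 (by decide +kernel)
def w5280 : PV o5280 := fun P h => h.t 4 3 5 7 2 3 1 4 0 5 (by decide +kernel)
def w5281 : PV o5281 := fun P h => h.t 4 3 5 7 2 4 0 5 1 3 (by decide +kernel)
def w5282 : PV o5282 := fun P h => h.t 4 3 5 7 2 5 0 3 1 4 (by decide +kernel)
def w5283 : PV o5283 := fun P h => h.t 4 3 5 7 2 5 1 3 0 4 (by decide +kernel)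
def w5284 : PV o5284 := fun P h => h.t 4 3 5 7 4 5 1 2 0 3 (by decide +kernel)
def w5285 : PV o5285 := fun P h => h.x 4 3 5 15 (by decide +kernel)
def w5286 : PV o5286 := fun P h => h.x 4 3 5 13 (by decide +kernel)
def w5287 : PV o5287 := fun P h => h.x 4 3 5 12 (by decide +kernel)
def w5288 : PV o5288 := fun P h => h.x 4 3 5 5 (by decide +kernel)
def w5289 : PV o5289 := fun P h => h.x 4 3 5 4 (by decide +kernel)
def w5290 : PV o5290 := fun P h => h.x 4 3 5 0 (by decide +kernel)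
def w5291 : PV o5291 := fun P h => h.t 4 3 6 4 1 5 2 3 0 4 (by decide +kernel)
def w5292 : PV o5292 := fun P h => h.t 4 3 6 4 1 5 2 4 0 3 (by decide +kernel)
def w5293 : PV o5293 := fun P h => h.t 4 3 6 4 1 5 3 4 0 2 (by decide +kernel)
def w5294 : PV o5294 := fun P h => h.t 4 3 6 4 2 3 4 5 0 1 (by decide +kernel)
def w5295 : PV o5295 := fun P h => h.t 4 3 6 4 2 5 3 4 0 1 (by decide +kernel)
def w5296 : PV o5296 := fun P h => h.t 4 3 6 4 4 5 0 1 2 3 (by decide +kernel)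
def w5297 : PV o5297 := fun P h => h.t 4 3 6 5 0 1 2 3 4 5 (by decide +kernel)
def w5298 : PV o5298 := fun P h => h.t 4 3 6 5 0 1 3 5 2 4 (by decide +kernel)
def w5299 : PV o5299 := fun P h => h.t 4 3 6 5 0 2 1 4 3 5 (by decide +kernel)
def w5300 : PV o5300 := fun P h => h.t 4 3 6 5 0 2 1 5 3 4 (by decide +kernel)
def w5301 : PV o5301 := fun P h => h.t 4 3 6 5 0 2 3 5 1 4 (by decide +kernel)
def w5302 : PV o5302 := fun P h => h.t 4 3 6 5 0 3 1 2 4 5 (by decide +kernel)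
def w5303 : PV o5303 := fun P h => h.t 4 3 6 5 0 3 1 5 2 4 (by decide +kernel)
def w5304 : PV o5304 := fun P h => h.t 4 3 6 5 0 3 2 5 1 4 (by decide +kernel)
def w5305 : PV o5305 := fun P h => h.t 4 3 6 5 0 3 4 5 1 2 (by decide +kernel)
def w5306 : PV o5306 := fun P h => h.t 4 3 6 5 0 4 1 2 3 5 (by decide +kernel)
def w5307 : PV o5307 := fun P h => h.t 4 3 6 5 0 4 1 5 2 3 (by decide +kernel)
def w5308 : PV o5308 := fun P h => h.t 4 3 6 5 0 4 2 5 1 3 (by decide +kernel)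
def w5309 : PV o5309 := fun P h => h.t 4 3 6 5 0 5 1 2 3 4 (by decide +kernel)
def w5310 : PV o5310 := fun P h => h.t 4 3 6 5 0 5 1 3 2 4 (by decide +kernel)
def w5311 : PV o5311 := fun P h => h.t 4 3 6 5 0 5 1 4 2 3 (by decide +kernel)
def w5312 : PV o5312 := fun P h => h.t 4 3 6 5 0 5 2 4 1 3 (by decide +kernel)
def w5313 : PV o5313 := fun P h => h.t 4 3 6 5 0 5 3 4 1 2 (by decide +kernel)
def w5314 : PV o5314 := fun P h => h.t 4 3 6 5 1 2 3 5 0 4 (by decide +kernel)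
def w5315 : PV o5315 := fun P h => h.t 4 3 6 5 1 3 2 5 0 4 (by decide +kernel)
def w5316 : PV o5316 := fun P h => h.t 4 3 6 5 1 3 4 5 0 2 (by decide +kernel)
def w5317 : PV o5317 := fun P h => h.t 4 3 6 5 1 4 2 5 0 3 (by decide +kernel)
def w5318 : PV o5318 := fun P h => h.t 4 3 6 5 1 5 2 3 0 4 (by decide +kernel)
def w5319 : PV o5319 := fun P h => h.t 4 3 6 5 1 5 2 4 0 3 (by decide +kernel)
def w5320 : PV o5320 := fun P h => h.t 4 3 6 5 1 5 3 4 0 2 (by decide +kernel)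
def w5321 : PV o5321 := fun P h => h.t 4 3 6 5 2 3 4 5 0 1 (by decide +kernel)
def w5322 : PV o5322 := fun P h => h.t 4 3 6 5 2 4 0 5 1 3 (by decide +kernel)
def w5323 : PV o5323 := fun P h => h.t 4 3 6 5 2 5 3 4 0 1 (by decide +kernel)
def w5324 : PV o5324 := fun P h => h.t 4 3 6 5 3 4 0 1 2 5 (by decide +kernel)
def w5325 : PV o5325 := fun P h => h.t 4 3 6 5 3 4 1 5 0 2 (by decide +kernel)
def w5326 : PV o5326 := fun P h => h.t 4 3 6 5 3 5 1 4 0 2 (by decide +kernel)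
def w5327 : PV o5327 := fun P h => h.t 4 3 6 6 0 4 1 5 2 3 (by decide +kernel)
def w5328 : PV o5328 := fun P h => h.t 4 3 6 6 0 4 2 5 1 3 (by decide +kernel)
def w5329 : PV o5329 := fun P h => h.t 4 3 6 6 1 3 2 4 0 5 (by decide +kernel)
def w5330 : PV o5330 := fun P h => h.t 4 3 6 6 1 3 2 5 0 4 (by decide +kernel)
def w5331 : PV o5331 := fun P h => h.t 4 3 6 6 1 4 0 5 2 3 (by decide +kernel)
def w5332 : PV o5332 := fun P h => h.t 4 3 6 6 1 4 2 3 0 5 (by decide +kernel)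
def w5333 : PV o5333 := fun P h => h.t 4 3 6 6 1 5 2 3 0 4 (by decide +kernel)
def w5334 : PV o5334 := fun P h => h.t 4 3 6 6 1 5 2 4 0 3 (by decide +kernel)
def w5335 : PV o5335 := fun P h => h.t 4 3 6 6 1 5 3 4 0 2 (by decide +kernel)
def w5336 : PV o5336 := fun P h => h.t 4 3 6 6 2 3 4 5 0 1 (by decide +kernel)
def w5337 : PV o5337 := fun P h => h.t 4 3 6 6 2 4 0 5 1 3 (by decide +kernel)
def w5338 : PV o5338 := fun P h => h.t 4 3 6 6 2 4 1 5 0 3 (by decide +kernel)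
def w5339 : PV o5339 := fun P h => h.t 4 3 6 6 2 5 3 4 0 1 (by decide +kernel)
def w5340 : PV o5340 := fun P h => h.t 4 3 6 6 3 4 0 5 1 2 (by decide +kernel)
def w5341 : PV o5341 := fun P h => h.t 4 3 6 6 3 5 0 4 1 2 (by decide +kernel)
def w5342 : PV o5342 := fun P h => h.t 4 3 6 6 3 5 2 4 0 1 (by decide +kernel)
def w5343 : PV o5343 := fun P h => h.t 4 3 6 7 0 1 2 3 4 5 (by decide +kernel)
def w5344 : PV o5344 := fun P h => h.t 4 3 6 7 0 1 2 4 3 5 (by decide +kernel)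
def w5345 : PV o5345 := fun P h => h.t 4 3 6 7 0 1 2 5 3 4 (by decide +kernel)
def w5346 : PV o5346 := fun P h => h.t 4 3 6 7 0 1 3 4 2 5 (by decide +kernel)
def w5347 : PV o5347 := fun P h => h.t 4 3 6 7 0 1 3 5 2 4 (by decide +kernel)
def w5348 : PV o5348 := fun P h => h.t 4 3 6 7 0 2 1 3 4 5 (by decide +kernel)
def w5349 : PV o5349 := fun P h => h.t 4 3 6 7 0 2 1 4 3 5 (by decide +kernel)
def w5350 : PV o5350 := fun P h => h.t 4 3 6 7 0 2 1 5 3 4 (by decide +kernel)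
def w5351 : PV o5351 := fun P h => h.t 4 3 6 7 0 2 3 4 1 5 (by decide +kernel)
def w5352 : PV o5352 := fun P h => h.t 4 3 6 7 0 3 1 2 4 5 (by decide +kernel)
def w5353 : PV o5353 := fun P h => h.t 4 3 6 7 0 3 1 4 2 5 (by decide +kernel)
def w5354 : PV o5354 := fun P h => h.t 4 3 6 7 0 3 1 5 2 4 (by decide +kernel)
def w5355 : PV o5355 := fun P h => h.t 4 3 6 7 0 3 2 4 1 5 (by decide +kernel)
def w5356 : PV o5356 := fun P h => h.t 4 3 6 7 0 4 1 2 3 5 (by decide +kernel)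
def w5357 : PV o5357 := fun P h => h.t 4 3 6 7 0 4 1 3 2 5 (by decide +kernel)
def w5358 : PV o5358 := fun P h => h.t 4 3 6 7 0 4 1 5 2 3 (by decide +kernel)
def w5359 : PV o5359 := fun P h => h.t 4 3 6 7 0 4 2 3 1 5 (by decide +kernel)
def w5360 : PV o5360 := fun P h => h.t 4 3 6 7 0 4 2 5 1 3 (by decide +kernel)
def w5361 : PV o5361 := fun P h => h.t 4 3 6 7 0 4 3 5 1 2 (by decide +kernel)
def w5362 : PV o5362 := fun P h => h.t 4 3 6 7 0 5 1 2 3 4 (by decide +kernel)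
def w5363 : PV o5363 := fun P h => h.t 4 3 6 7 0 5 1 3 2 4 (by decide +kernel)
def w5364 : PV o5364 := fun P h => h.t 4 3 6 7 0 5 1 4 2 3 (by decide +kernel)
def w5365 : PV o5365 := fun P h => h.t 4 3 6 7 0 5 2 3 1 4 (by decide +kernel)
def w5366 : PV o5366 := fun P h => h.t 4 3 6 7 0 5 2 4 1 3 (by decide +kernel)
def w5367 : PV o5367 := fun P h => h.t 4 3 6 7 0 5 3 4 1 2 (by decide +kernel)
def w5368 : PV o5368 := fun P h => h.t 4 3 6 7 1 2 0 3 4 5 (by decide +kernel)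
def w5369 : PV o5369 := fun P h => h.t 4 3 6 7 1 2 3 4 0 5 (by decide +kernel)
def w5370 : PV o5370 := fun P h => h.t 4 3 6 7 1 2 4 5 0 3 (by decide +kernel)
def w5371 : PV o5371 := fun P h => h.t 4 3 6 7 1 3 0 4 2 5 (by decide +kernel)
def w5372 : PV o5372 := fun P h => h.t 4 3 6 7 1 3 2 4 0 5 (by decide +kernel)
def w5373 : PV o5373 := fun P h => h.t 4 3 6 7 1 3 2 5 0 4 (by decide +kernel)
def w5374 : PV o5374 := fun P h => h.t 4 3 6 7 1 4 0 2 3 5 (by decide +kernel)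
def w5375 : PV o5375 := fun P h => h.t 4 3 6 7 1 4 0 5 2 3 (by decide +kernel)
def w5376 : PV o5376 := fun P h => h.t 4 3 6 7 1 4 2 3 0 5 (by decide +kernel)
def w5377 : PV o5377 := fun P h => h.t 4 3 6 7 1 4 2 5 0 3 (by decide +kernel)
def w5378 : PV o5378 := fun P h => h.t 4 3 6 7 1 5 0 2 3 4 (by decide +kernel)
def w5379 : PV o5379 := fun P h => h.t 4 3 6 7 1 5 0 4 2 3 (by decide +kernel)
def w5380 : PV o5380 := fun P h => h.t 4 3 6 7 1 5 2 3 0 4 (by decide +kernel)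
def w5381 : PV o5381 := fun P h => h.t 4 3 6 7 1 5 2 4 0 3 (by decide +kernel)
def w5382 : PV o5382 := fun P h => h.t 4 3 6 7 1 5 3 4 0 2 (by decide +kernel)
def w5383 : PV o5383 := fun P h => h.t 4 3 6 7 2 3 0 4 1 5 (by decide +kernel)
def w5384 : PV o5384 := fun P h => h.t 4 3 6 7 2 3 0 5 1 4 (by decide +kernel)
def w5385 : PV o5385 := fun P h => h.t 4 3 6 7 2 3 1 4 0 5 (by decide +kernel)
def w5386 : PV o5386 := fun P h => h.t 4 3 6 7 2 3 1 5 0 4 (by decide +kernel)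
def w5387 : PV o5387 := fun P h => h.t 4 3 6 7 2 4 0 3 1 5 (by decide +kernel)
def w5388 : PV o5388 := fun P h => h.t 4 3 6 7 2 4 0 5 1 3 (by decide +kernel)
def w5389 : PV o5389 := fun P h => h.t 4 3 6 7 2 4 1 5 0 3 (by decide +kernel)
def w5390 : PV o5390 := fun P h => h.t 4 3 6 7 2 4 3 5 0 1 (by decide +kernel)
def w5391 : PV o5391 := fun P h => h.t 4 3 6 7 2 5 0 3 1 4 (by decide +kernel)
def w5392 : PV o5392 := fun P h => h.t 4 3 6 7 2 5 0 4 1 3 (by decide +kernel)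
def w5393 : PV o5393 := fun P h => h.t 4 3 6 7 2 5 1 3 0 4 (by decide +kernel)
def w5394 : PV o5394 := fun P h => h.t 4 3 6 7 2 5 3 4 0 1 (by decide +kernel)
def w5395 : PV o5395 := fun P h => h.t 4 3 6 7 3 4 0 2 1 5 (by decide +kernel)
def w5396 : PV o5396 := fun P h => h.t 4 3 6 7 3 4 0 5 1 2 (by decide +kernel)
def w5397 : PV o5397 := fun P h => h.t 4 3 6 7 3 4 1 5 0 2 (by decide +kernel)
def w5398 : PV o5398 := fun P h => h.t 4 3 6 7 3 5 0 1 2 4 (by decide +kernel)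
def w5399 : PV o5399 := fun P h => h.t 4 3 6 7 3 5 0 2 1 4 (by decide +kernel)
def w5400 : PV o5400 := fun P h => h.t 4 3 6 7 3 5 0 4 1 2 (by decide +kernel)
def w5401 : PV o5401 := fun P h => h.t 4 3 6 7 4 5 0 1 2 3 (by decide +kernel)
def w5402 : PV o5402 := fun P h => h.t 4 3 6 7 4 5 0 2 1 3 (by decide +kernel)
def w5403 : PV o5403 := fun P h => h.t 4 3 6 7 4 5 0 3 1 2 (by decide +kernel)
def w5404 : PV o5404 := fun P h => h.t 4 3 6 7 4 5 1 2 0 3 (by decide +kernel)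
def w5405 : PV o5405 := fun P h => h.x 4 3 6 15 (by decide +kernel)
def w5406 : PV o5406 := fun P h => h.x 4 3 6 13 (by decide +kernel)
def w5407 : PV o5407 := fun P h => h.x 4 3 6 12 (by decide +kernel)
def w5408 : PV o5408 := fun P h => h.x 4 3 6 5 (by decide +kernel)
def w5409 : PV o5409 := fun P h => h.t 4 3 7 4 0 2 3 4 1 5 (by decide +kernel)
def w5410 : PV o5410 := fun P h => h.t 4 3 7 4 0 2 3 5 1 4 (by decide +kernel)
def w5411 : PV o5411 := fun P h => h.t 4 3 7 4 0 2 4 5 1 3 (by decide +kernel)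
def w5412 : PV o5412 := fun P h => h.t 4 3 7 4 0 3 1 4 2 5 (by decide +kernel)
def w5413 : PV o5413 := fun P h => h.t 4 3 7 4 0 3 4 5 1 2 (by decide +kernel)
def w5414 : PV o5414 := fun P h => h.t 4 3 7 4 0 4 2 5 1 3 (by decide +kernel)
def w5415 : PV o5415 := fun P h => h.t 4 3 7 4 0 5 3 4 1 2 (by decide +kernel)
def w5416 : PV o5416 := fun P h => h.t 4 3 7 4 1 2 4 5 0 3 (by decide +kernel)
def w5417 : PV o5417 := fun P h => h.t 4 3 7 4 1 3 4 5 0 2 (by decide +kernel)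
def w5418 : PV o5418 := fun P h => h.t 4 3 7 4 1 4 2 5 0 3 (by decide +kernel)
def w5419 : PV o5419 := fun P h => h.t 4 3 7 4 1 5 2 3 0 4 (by decide +kernel)
def w5420 : PV o5420 := fun P h => h.t 4 3 7 4 1 5 2 4 0 3 (by decide +kernel)
def w5421 : PV o5421 := fun P h => h.t 4 3 7 4 1 5 3 4 0 2 (by decide +kernel)
def w5422 : PV o5422 := fun P h => h.t 4 3 7 4 2 3 4 5 0 1 (by decide +kernel)
def w5423 : PV o5423 := fun P h => h.t 4 3 7 4 2 4 0 5 1 3 (by decide +kernel)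
def w5424 : PV o5424 := fun P h => h.t 4 3 7 4 2 5 3 4 0 1 (by decide +kernel)
def w5425 : PV o5425 := fun P h => h.t 4 3 7 4 3 4 0 5 1 2 (by decide +kernel)
def w5426 : PV o5426 := fun P h => h.t 4 3 7 4 3 4 1 5 0 2 (by decide +kernel)
def w5427 : PV o5427 := fun P h => h.t 4 3 7 4 3 5 0 1 2 4 (by decide +kernel)
def w5428 : PV o5428 := fun P h => h.t 4 3 7 4 3 5 0 4 1 2 (by decide +kernel)
def w5429 : PV o5429 := fun P h => h.t 4 3 7 4 3 5 1 4 0 2 (by decide +kernel)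
def w5430 : PV o5430 := fun P h => h.t 4 3 7 4 3 5 2 4 0 1 (by decide +kernel)
def w5431 : PV o5431 := fun P h => h.t 4 3 7 4 4 5 0 1 2 3 (by decide +kernel)
def w5432 : PV o5432 := fun P h => h.t 4 3 7 4 4 5 0 2 1 3 (by decide +kernel)
def w5433 : PV o5433 := fun P h => h.t 4 3 7 5 0 1 4 5 2 3 (by decide +kernel)
def w5434 : PV o5434 := fun P h => h.t 4 3 7 5 0 2 1 4 3 5 (by decide +kernel)
def w5435 : PV o5435 := fun P h => h.t 4 3 7 5 0 2 4 5 1 3 (by decide +kernel)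
def w5436 : PV o5436 := fun P h => h.t 4 3 7 5 0 4 1 2 3 5 (by decide +kernel)
def w5437 : PV o5437 := fun P h => h.t 4 3 7 5 0 4 3 5 1 2 (by decide +kernel)
def w5438 : PV o5438 := fun P h => h.t 4 3 7 5 2 5 0 3 1 4 (by decide +kernel)
def w5439 : PV o5439 := fun P h => h.t 4 3 7 5 4 5 1 2 0 3 (by decide +kernel)
def w5440 : PV o5440 := fun P h => h.t 4 3 7 6 0 1 3 4 2 5 (by decide +kernel)
def w5441 : PV o5441 := fun P h => h.t 4 3 7 6 0 1 3 5 2 4 (by decide +kernel)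
def w5442 : PV o5442 := fun P h => h.t 4 3 7 6 0 2 1 5 3 4 (by decide +kernel)
def w5443 : PV o5443 := fun P h => h.t 4 3 7 6 0 3 1 5 2 4 (by decide +kernel)
def w5444 : PV o5444 := fun P h => h.t 4 3 7 6 0 3 4 5 1 2 (by decide +kernel)
def w5445 : PV o5445 := fun P h => h.t 4 3 7 6 0 4 1 5 2 3 (by decide +kernel)
def w5446 : PV o5446 := fun P h => h.t 4 3 7 6 0 4 2 5 1 3 (by decide +kernel)
def w5447 : PV o5447 := fun P h => h.t 4 3 7 6 0 4 3 5 1 2 (by decide +kernel)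
def w5448 : PV o5448 := fun P h => h.t 4 3 7 6 0 5 1 2 3 4 (by decide +kernel)
def w5449 : PV o5449 := fun P h => h.t 4 3 7 6 0 5 1 3 2 4 (by decide +kernel)
def w5450 : PV o5450 := fun P h => h.t 4 3 7 6 0 5 1 4 2 3 (by decide +kernel)
def w5451 : PV o5451 := fun P h => h.t 4 3 7 6 0 5 2 3 1 4 (by decide +kernel)
def w5452 : PV o5452 := fun P h => h.t 4 3 7 6 0 5 2 4 1 3 (by decide +kernel)
def w5453 : PV o5453 := fun P h => h.t 4 3 7 6 0 5 3 4 1 2 (by decide +kernel)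
def w5454 : PV o5454 := fun P h => h.t 4 3 7 6 1 2 0 3 4 5 (by decide +kernel)
def w5455 : PV o5455 := fun P h => h.t 4 3 7 6 1 2 0 5 3 4 (by decide +kernel)
def w5456 : PV o5456 := fun P h => h.t 4 3 7 6 1 2 3 4 0 5 (by decide +kernel)
def w5457 : PV o5457 := fun P h => h.t 4 3 7 6 1 2 3 5 0 4 (by decide +kernel)
def w5458 : PV o5458 := fun P h => h.t 4 3 7 6 1 2 4 5 0 3 (by decide +kernel)
def w5459 : PV o5459 := fun P h => h.t 4 3 7 6 1 3 0 5 2 4 (by decide +kernel)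
def w5460 : PV o5460 := fun P h => h.t 4 3 7 6 1 3 2 5 0 4 (by decide +kernel)
def w5461 : PV o5461 := fun P h => h.t 4 3 7 6 1 3 4 5 0 2 (by decide +kernel)
def w5462 : PV o5462 := fun P h => h.t 4 3 7 6 1 4 0 5 2 3 (by decide +kernel)
def w5463 : PV o5463 := fun P h => h.t 4 3 7 6 1 4 2 3 0 5 (by decide +kernel)
def w5464 : PV o5464 := fun P h => h.t 4 3 7 6 1 4 2 5 0 3 (by decide +kernel)
def w5465 : PV o5465 := fun P h => h.t 4 3 7 6 1 5 0 2 3 4 (by decide +kernel)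
def w5466 : PV o5466 := fun P h => h.t 4 3 7 6 1 5 0 3 2 4 (by decide +kernel)
def w5467 : PV o5467 := fun P h => h.t 4 3 7 6 1 5 0 4 2 3 (by decide +kernel)
def w5468 : PV o5468 := fun P h => h.t 4 3 7 6 1 5 2 3 0 4 (by decide +kernel)
def w5469 : PV o5469 := fun P h => h.t 4 3 7 6 1 5 2 4 0 3 (by decide +kernel)
def w5470 : PV o5470 := fun P h => h.t 4 3 7 6 1 5 3 4 0 2 (by decide +kernel)
def w5471 : PV o5471 := fun P h => h.t 4 3 7 6 2 3 0 4 1 5 (by decide +kernel)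
def w5472 : PV o5472 := fun P h => h.t 4 3 7 6 2 3 0 5 1 4 (by decide +kernel)
def w5473 : PV o5473 := fun P h => h.t 4 3 7 6 2 3 4 5 0 1 (by decide +kernel)
def w5474 : PV o5474 := fun P h => h.t 4 3 7 6 2 4 0 3 1 5 (by decide +kernel)
def w5475 : PV o5475 := fun P h => h.t 4 3 7 6 2 4 0 5 1 3 (by decide +kernel)
def w5476 : PV o5476 := fun P h => h.t 4 3 7 6 2 4 1 3 0 5 (by decide +kernel)
def w5477 : PV o5477 := fun P h => h.t 4 3 7 6 2 4 3 5 0 1 (by decide +kernel)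
def w5478 : PV o5478 := fun P h => h.t 4 3 7 6 2 5 0 1 3 4 (by decide +kernel)
def w5479 : PV o5479 := fun P h => h.t 4 3 7 6 2 5 0 3 1 4 (by decide +kernel)
def w5480 : PV o5480 := fun P h => h.t 4 3 7 6 2 5 0 4 1 3 (by decide +kernel)
def w5481 : PV o5481 := fun P h => h.t 4 3 7 6 2 5 1 3 0 4 (by decide +kernel)
def w5482 : PV o5482 := fun P h => h.t 4 3 7 6 2 5 3 4 0 1 (by decide +kernel)
def w5483 : PV o5483 := fun P h => h.t 4 3 7 6 3 4 0 5 1 2 (by decide +kernel)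
def w5484 : PV o5484 := fun P h => h.t 4 3 7 6 3 4 1 2 0 5 (by decide +kernel)
def w5485 : PV o5485 := fun P h => h.t 4 3 7 6 3 4 1 5 0 2 (by decide +kernel)
def w5486 : PV o5486 := fun P h => h.t 4 3 7 6 3 5 0 1 2 4 (by decide +kernel)
def w5487 : PV o5487 := fun P h => h.t 4 3 7 6 3 5 0 4 1 2 (by decide +kernel)
def w5488 : PV o5488 := fun P h => h.t 4 3 7 6 3 5 1 4 0 2 (by decide +kernel)
def w5489 : PV o5489 := fun P h => h.t 4 3 7 6 3 5 2 4 0 1 (by decide +kernel)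
def w5490 : PV o5490 := fun P h => h.t 4 3 7 6 4 5 0 1 2 3 (by decide +kernel)
def w5491 : PV o5491 := fun P h => h.t 4 3 7 6 4 5 0 2 1 3 (by decide +kernel)
def w5492 : PV o5492 := fun P h => h.t 4 3 7 6 4 5 0 3 1 2 (by decide +kernel)
def w5493 : PV o5493 := fun P h => h.t 4 3 7 6 4 5 1 2 0 3 (by decide +kernel)
def w5494 : PV o5494 := fun P h => h.t 4 3 7 6 4 5 1 3 0 2 (by decide +kernel)
def w5495 : PV o5495 := fun P h => h.t 4 3 7 6 4 5 2 3 0 1 (by decide +kernel)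
def w5496 : PV o5496 := fun P h => h.t 4 3 7 7 0 2 3 4 1 5 (by decide +kernel)
def w5497 : PV o5497 := fun P h => h.t 4 3 7 7 0 3 4 5 1 2 (by decide +kernel)
def w5498 : PV o5498 := fun P h => h.t 4 3 7 7 0 4 1 5 2 3 (by decide +kernel)
def w5499 : PV o5499 := fun P h => h.t 4 3 7 7 0 4 2 5 1 3 (by decide +kernel)
def w5500 : PV o5500 := fun P h => h.t 4 3 7 7 0 4 3 5 1 2 (by decide +kernel)
def w5501 : PV o5501 := fun P h => h.t 4 3 7 7 1 2 3 4 0 5 (by decide +kernel)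
def w5502 : PV o5502 := fun P h => h.t 4 3 7 7 1 3 2 4 0 5 (by decide +kernel)
def w5503 : PV o5503 := fun P h => h.t 4 3 7 7 1 3 2 5 0 4 (by decide +kernel)
def w5504 : PV o5504 := fun P h => h.t 4 3 7 7 1 3 4 5 0 2 (by decide +kernel)
def w5505 : PV o5505 := fun P h => h.t 4 3 7 7 1 4 2 5 0 3 (by decide +kernel)
def w5506 : PV o5506 := fun P h => h.t 4 3 7 7 1 5 2 3 0 4 (by decide +kernel)
def w5507 : PV o5507 := fun P h => h.t 4 3 7 7 1 5 2 4 0 3 (by decide +kernel)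
def w5508 : PV o5508 := fun P h => h.t 4 3 7 7 2 3 4 5 0 1 (by decide +kernel)
def w5509 : PV o5509 := fun P h => h.t 4 3 7 7 2 4 1 5 0 3 (by decide +kernel)
def w5510 : PV o5510 := fun P h => h.t 4 3 7 7 2 4 3 5 0 1 (by decide +kernel)
def w5511 : PV o5511 := fun P h => h.x 4 3 7 15 (by decide +kernel)
def w5512 : PV o5512 := fun P h => h.x 4 3 7 13 (by decide +kernel)
def w5513 : PV o5513 := fun P h => h.x 4 3 7 12 (by decide +kernel)
def w5514 : PV o5514 := fun P h => h.x 4 3 7 5 (by decide +kernel)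
def w5515 : PV o5515 := fun P h => h.x 4 3 7 4 (by decide +kernel)
def w5516 : PV o5516 := fun P h => h.x 4 4 1 15 (by decide +kernel)
def w5517 : PV o5517 := fun P h => h.x 4 4 1 5 (by decide +kernel)
def w5518 : PV o5518 := fun P h => h.x 4 4 1 4 (by decide +kernel)
def w5519 : PV o5519 := fun P h => h.x 4 4 1 0 (by decide +kernel)
def w5520 : PV o5520 := fun P h => h.x 4 4 3 15 (by decide +kernel)
def w5521 : PV o5521 := fun P h => h.x 4 4 3 13 (by decide +kernel)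
def w5522 : PV o5522 := fun P h => h.x 4 4 3 12 (by decide +kernel)
def w5523 : PV o5523 := fun P h => h.t 4 4 4 4 0 2 1 4 3 5 (by decide +kernel)
def w5524 : PV o5524 := fun P h => h.t 4 4 4 4 0 2 3 5 1 4 (by decide +kernel)
def w5525 : PV o5525 := fun P h => h.t 4 4 4 5 0 1 2 5 3 4 (by decide +kernel)
def w5526 : PV o5526 := fun P h => h.t 4 4 4 5 0 3 1 5 2 4 (by decide +kernel)
def w5527 : PV o5527 := fun P h => h.t 4 4 4 5 0 4 1 2 3 5 (by decide +kernel)
def w5528 : PV o5528 := fun P h => h.t 4 4 4 5 1 2 0 4 3 5 (by decide +kernel)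
def w5529 : PV o5529 := fun P h => h.t 4 4 4 5 3 4 0 5 1 2 (by decide +kernel)
def w5530 : PV o5530 := fun P h => h.t 4 4 4 5 3 4 1 5 0 2 (by decide +kernel)
def w5531 : PV o5531 := fun P h => h.t 4 4 4 6 0 4 1 2 3 5 (by decide +kernel)
def w5532 : PV o5532 := fun P h => h.t 4 4 4 7 0 4 1 2 3 5 (by decide +kernel)
def w5533 : PV o5533 := fun P h => h.t 4 4 4 7 2 5 0 1 3 4 (by decide +kernel)
def w5534 : PV o5534 := fun P h => h.t 4 4 5 5 0 4 1 5 2 3 (by decide +kernel)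
def w5535 : PV o5535 := fun P h => h.t 4 4 5 5 3 4 0 5 1 2 (by decide +kernel)
def w5536 : PV o5536 := fun P h => h.t 4 4 5 6 0 5 1 3 2 4 (by decide +kernel)
def w5537 : PV o5537 := fun P h => h.t 4 4 5 6 2 3 0 4 1 5 (by decide +kernel)
def w5538 : PV o5538 := fun P h => h.t 4 4 5 6 2 3 1 4 0 5 (by decide +kernel)
def w5539 : PV o5539 := fun P h => h.t 4 4 5 6 2 5 0 3 1 4 (by decide +kernel)
def w5540 : PV o5540 := fun P h => h.t 4 4 5 6 3 4 2 5 0 1 (by decide +kernel)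
def w5541 : PV o5541 := fun P h => h.t 4 4 5 7 0 2 3 5 1 4 (by decide +kernel)
def w5542 : PV o5542 := fun P h => h.t 4 4 5 7 0 4 1 5 2 3 (by decide +kernel)
def w5543 : PV o5543 := fun P h => h.t 4 4 5 7 2 4 0 3 1 5 (by decide +kernel)
def w5544 : PV o5544 := fun P h => h.t 4 4 5 7 2 4 1 5 0 3 (by decide +kernel)
def w5545 : PV o5545 := fun P h => h.x 4 4 5 15 (by decide +kernel)
def w5546 : PV o5546 := fun P h => h.x 4 4 5 13 (by decide +kernel)
def w5547 : PV o5547 := fun P h => h.x 4 4 5 12 (by decide +kernel)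
def w5548 : PV o5548 := fun P h => h.x 4 4 5 0 (by decide +kernel)
def w5549 : PV o5549 := fun P h => h.t 4 4 6 5 0 1 2 5 3 4 (by decide +kernel)
def w5550 : PV o5550 := fun P h => h.t 4 4 6 5 0 1 3 5 2 4 (by decide +kernel)
def w5551 : PV o5551 := fun P h => h.t 4 4 6 5 0 2 3 5 1 4 (by decide +kernel)
def w5552 : PV o5552 := fun P h => h.t 4 4 6 5 0 5 2 4 1 3 (by decide +kernel)
def w5553 : PV o5553 := fun P h => h.t 4 4 6 5 1 5 2 4 0 3 (by decide +kernel)
def w5554 : PV o5554 := fun P h => h.t 4 4 6 6 3 4 2 5 0 1 (by decide +kernel)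
def w5555 : PV o5555 := fun P h => h.t 4 4 6 7 0 1 3 5 2 4 (by decide +kernel)
def w5556 : PV o5556 := fun P h => h.t 4 4 6 7 0 2 3 4 1 5 (by decide +kernel)
def w5557 : PV o5557 := fun P h => h.t 4 4 6 7 0 4 1 3 2 5 (by decide +kernel)
def w5558 : PV o5558 := fun P h => h.t 4 4 6 7 0 5 1 3 2 4 (by decide +kernel)
def w5559 : PV o5559 := fun P h => h.t 4 4 6 7 1 4 0 5 2 3 (by decide +kernel)
def w5560 : PV o5560 := fun P h => h.t 4 4 6 7 2 4 0 5 1 3 (by decide +kernel)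
def w5561 : PV o5561 := fun P h => h.t 4 4 6 7 2 5 0 3 1 4 (by decide +kernel)
def w5562 : PV o5562 := fun P h => h.t 4 4 6 7 3 4 0 2 1 5 (by decide +kernel)
def w5563 : PV o5563 := fun P h => h.t 4 4 6 7 3 4 0 5 1 2 (by decide +kernel)
def w5564 : PV o5564 := fun P h => h.t 4 4 6 7 4 5 0 3 1 2 (by decide +kernel)
def w5565 : PV o5565 := fun P h => h.x 4 4 6 15 (by decide +kernel)
def w5566 : PV o5566 := fun P h => h.t 4 4 7 5 0 1 2 4 3 5 (by decide +kernel)
def w5567 : PV o5567 := fun P h => h.t 4 4 7 5 0 2 3 4 1 5 (by decide +kernel)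
def w5568 : PV o5568 := fun P h => h.t 4 4 7 5 0 2 4 5 1 3 (by decide +kernel)
def w5569 : PV o5569 := fun P h => h.t 4 4 7 5 1 2 3 4 0 5 (by decide +kernel)
def w5570 : PV o5570 := fun P h => h.t 4 4 7 6 0 1 2 5 3 4 (by decide +kernel)
def w5571 : PV o5571 := fun P h => h.t 4 4 7 6 0 1 3 4 2 5 (by decide +kernel)
def w5572 : PV o5572 := fun P h => h.t 4 4 7 6 3 4 1 5 0 2 (by decide +kernel)
def w5573 : PV o5573 := fun P h => h.t 4 4 7 7 0 2 3 4 1 5 (by decide +kernel)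
def w5574 : PV o5574 := fun P h => h.t 4 4 7 7 0 2 3 5 1 4 (by decide +kernel)
def w5575 : PV o5575 := fun P h => h.t 4 4 7 7 1 2 3 4 0 5 (by decide +kernel)
def w5576 : PV o5576 := fun P h => h.t 4 4 7 7 1 4 0 3 2 5 (by decide +kernel)
def w5577 : PV o5577 := fun P h => h.t 4 4 7 7 1 4 0 5 2 3 (by decide +kernel)
def w5578 : PV o5578 := fun P h => h.t 4 4 7 7 3 5 0 4 1 2 (by decide +kernel)
def w5579 : PV o5579 := fun P h => h.x 4 4 7 15 (by decide +kernel)
def w5580 : PV o5580 := fun P h => h.x 4 4 7 13 (by decide +kernel)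
def w5581 : PV o5581 := fun P h => h.x 4 4 7 12 (by decide +kernel)
def w5582 : PV o5582 := fun P h => h.x 4 4 7 5 (by decide +kernel)
def w5583 : PV o5583 := fun P h => h.x 4 4 7 4 (by decide +kernel)
def w5584 : PV o5584 := fun P h => h.x 4 4 7 0 (by decide +kernel)
def w5585 : PV o5585 := fun P h => h.x 4 5 1 15 (by decide +kernel)
def w5586 : PV o5586 := fun P h => h.x 4 5 1 13 (by decide +kernel)
def w5587 : PV o5587 := fun P h => h.x 4 5 1 12 (by decide +kernel)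
def w5588 : PV o5588 := fun P h => h.x 4 5 1 5 (by decide +kernel)
def w5589 : PV o5589 := fun P h => h.x 4 5 1 4 (by decide +kernel)
def w5590 : PV o5590 := fun P h => h.x 4 5 1 0 (by decide +kernel)
def w5591 : PV o5591 := fun P h => h.x 4 5 3 15 (by decide +kernel)
def w5592 : PV o5592 := fun P h => h.x 4 5 3 13 (by decide +kernel)
def w5593 : PV o5593 := fun P h => h.x 4 5 3 12 (by decide +kernel)
def w5594 : PV o5594 := fun P h => h.x 4 5 3 5 (by decide +kernel)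
def w5595 : PV o5595 := fun P h => h.x 4 5 3 4 (by decide +kernel)
def w5596 : PV o5596 := fun P h => h.x 4 5 3 0 (by decide +kernel)
def w5597 : PV o5597 := fun P h => h.x 4 5 4 4 (by decide +kernel)
def w5598 : PV o5598 := fun P h => h.t 4 5 5 5 0 2 1 4 3 5 (by decide +kernel)
def w5599 : PV o5599 := fun P h => h.t 4 5 5 5 0 2 3 5 1 4 (by decide +kernel)
def w5600 : PV o5600 := fun P h => h.t 4 5 5 6 0 1 2 4 3 5 (by decide +kernel)
def w5601 : PV o5601 := fun P h => h.t 4 5 5 6 0 1 3 4 2 5 (by decide +kernel)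
def w5602 : PV o5602 := fun P h => h.t 4 5 5 6 0 2 3 4 1 5 (by decide +kernel)
def w5603 : PV o5603 := fun P h => h.t 4 5 5 6 0 2 3 5 1 4 (by decide +kernel)
def w5604 : PV o5604 := fun P h => h.t 4 5 5 6 0 3 1 5 2 4 (by decide +kernel)
def w5605 : PV o5605 := fun P h => h.t 4 5 5 6 0 4 1 2 3 5 (by decide +kernel)
def w5606 : PV o5606 := fun P h => h.t 4 5 5 6 0 4 2 3 1 5 (by decide +kernel)
def w5607 : PV o5607 := fun P h => h.t 4 5 5 6 0 4 2 5 1 3 (by decide +kernel)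
def w5608 : PV o5608 := fun P h => h.t 4 5 5 6 0 5 1 3 2 4 (by decide +kernel)
def w5609 : PV o5609 := fun P h => h.t 4 5 5 6 0 5 2 4 1 3 (by decide +kernel)
def w5610 : PV o5610 := fun P h => h.t 4 5 5 6 1 2 0 4 3 5 (by decide +kernel)
def w5611 : PV o5611 := fun P h => h.t 4 5 5 6 1 2 4 5 0 3 (by decide +kernel)
def w5612 : PV o5612 := fun P h => h.t 4 5 5 6 2 3 0 4 1 5 (by decide +kernel)
def w5613 : PV o5613 := fun P h => h.t 4 5 5 6 2 3 0 5 1 4 (by decide +kernel)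
def w5614 : PV o5614 := fun P h => h.t 4 5 5 6 2 4 0 1 3 5 (by decide +kernel)
def w5615 : PV o5615 := fun P h => h.t 4 5 5 6 3 4 0 1 2 5 (by decide +kernel)
def w5616 : PV o5616 := fun P h => h.t 4 5 5 6 3 4 0 2 1 5 (by decide +kernel)
def w5617 : PV o5617 := fun P h => h.t 4 5 5 6 3 4 1 5 0 2 (by decide +kernel)
def w5618 : PV o5618 := fun P h => h.t 4 5 5 6 3 5 0 2 1 4 (by decide +kernel)
def w5619 : PV o5619 := fun P h => h.t 4 5 5 6 3 5 1 2 0 4 (by decide +kernel)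
def w5620 : PV o5620 := fun P h => h.t 4 5 5 6 3 5 1 4 0 2 (by decide +kernel)
def w5621 : PV o5621 := fun P h => h.t 4 5 5 6 4 5 1 2 0 3 (by decide +kernel)
def w5622 : PV o5622 := fun P h => h.t 4 5 5 7 0 1 3 4 2 5 (by decide +kernel)
def w5623 : PV o5623 := fun P h => h.t 4 5 5 7 0 4 2 3 1 5 (by decide +kernel)
def w5624 : PV o5624 := fun P h => h.t 4 5 5 7 2 3 0 4 1 5 (by decide +kernel)
def w5625 : PV o5625 := fun P h => h.t 4 5 5 7 3 5 1 2 0 4 (by decide +kernel)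
def w5626 : PV o5626 := fun P h => h.t 4 5 6 6 0 2 1 4 3 5 (by decide +kernel)
def w5627 : PV o5627 := fun P h => h.t 4 5 6 6 0 2 1 5 3 4 (by decide +kernel)
def w5628 : PV o5628 := fun P h => h.t 4 5 6 6 0 2 3 4 1 5 (by decide +kernel)
def w5629 : PV o5629 := fun P h => h.t 4 5 6 6 0 2 4 5 1 3 (by decide +kernel)
def w5630 : PV o5630 := fun P h => h.t 4 5 6 6 0 3 1 2 4 5 (by decide +kernel)
def w5631 : PV o5631 := fun P h => h.t 4 5 6 6 0 4 1 2 3 5 (by decide +kernel)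
def w5632 : PV o5632 := fun P h => h.t 4 5 6 6 0 4 1 5 2 3 (by decide +kernel)
def w5633 : PV o5633 := fun P h => h.t 4 5 6 6 0 4 2 3 1 5 (by decide +kernel)
def w5634 : PV o5634 := fun P h => h.t 4 5 6 6 1 2 0 3 4 5 (by decide +kernel)
def w5635 : PV o5635 := fun P h => h.t 4 5 6 6 1 3 0 4 2 5 (by decide +kernel)
def w5636 : PV o5636 := fun P h => h.t 4 5 6 6 1 3 0 5 2 4 (by decide +kernel)
def w5637 : PV o5637 := fun P h => h.t 4 5 6 6 1 3 2 4 0 5 (by decide +kernel)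
def w5638 : PV o5638 := fun P h => h.t 4 5 6 6 1 3 2 5 0 4 (by decide +kernel)
def w5639 : PV o5639 := fun P h => h.t 4 5 6 6 1 4 0 2 3 5 (by decide +kernel)
def w5640 : PV o5640 := fun P h => h.t 4 5 6 6 1 4 0 3 2 5 (by decide +kernel)
def w5641 : PV o5641 := fun P h => h.t 4 5 6 6 1 4 2 3 0 5 (by decide +kernel)
def w5642 : PV o5642 := fun P h => h.t 4 5 6 6 1 4 3 5 0 2 (by decide +kernel)
def w5643 : PV o5643 := fun P h => h.t 4 5 6 6 1 5 0 4 2 3 (by decide +kernel)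
def w5644 : PV o5644 := fun P h => h.t 4 5 6 6 1 5 2 3 0 4 (by decide +kernel)
def w5645 : PV o5645 := fun P h => h.t 4 5 6 6 1 5 3 4 0 2 (by decide +kernel)
def w5646 : PV o5646 := fun P h => h.t 4 5 6 6 2 4 0 1 3 5 (by decide +kernel)
def w5647 : PV o5647 := fun P h => h.t 4 5 6 6 2 4 0 5 1 3 (by decide +kernel)
def w5648 : PV o5648 := fun P h => h.t 4 5 6 6 2 4 1 3 0 5 (by decide +kernel)
def w5649 : PV o5649 := fun P h => h.t 4 5 6 6 2 4 1 5 0 3 (by decide +kernel)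
def w5650 : PV o5650 := fun P h => h.t 4 5 6 6 2 4 3 5 0 1 (by decide +kernel)
def w5651 : PV o5651 := fun P h => h.t 4 5 6 6 2 5 3 4 0 1 (by decide +kernel)
def w5652 : PV o5652 := fun P h => h.t 4 5 6 6 3 4 0 1 2 5 (by decide +kernel)
def w5653 : PV o5653 := fun P h => h.t 4 5 6 6 3 4 0 5 1 2 (by decide +kernel)
def w5654 : PV o5654 := fun P h => h.t 4 5 6 6 3 4 1 2 0 5 (by decide +kernel)
def w5655 : PV o5655 := fun P h => h.t 4 5 6 6 3 4 2 5 0 1 (by decide +kernel)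
def w5656 : PV o5656 := fun P h => h.t 4 5 6 6 3 5 0 1 2 4 (by decide +kernel)
def w5657 : PV o5657 := fun P h => h.t 4 5 6 6 3 5 1 2 0 4 (by decide +kernel)
def w5658 : PV o5658 := fun P h => h.t 4 5 6 6 3 5 2 4 0 1 (by decide +kernel)
def w5659 : PV o5659 := fun P h => h.t 4 5 6 7 0 1 4 5 2 3 (by decide +kernel)
def w5660 : PV o5660 := fun P h => h.t 4 5 6 7 0 2 1 3 4 5 (by decide +kernel)
def w5661 : PV o5661 := fun P h => h.t 4 5 6 7 0 2 1 4 3 5 (by decide +kernel)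
def w5662 : PV o5662 := fun P h => h.t 4 5 6 7 0 2 1 5 3 4 (by decide +kernel)
def w5663 : PV o5663 := fun P h => h.t 4 5 6 7 0 2 3 4 1 5 (by decide +kernel)
def w5664 : PV o5664 := fun P h => h.t 4 5 6 7 0 3 1 4 2 5 (by decide +kernel)
def w5665 : PV o5665 := fun P h => h.t 4 5 6 7 0 3 1 5 2 4 (by decide +kernel)
def w5666 : PV o5666 := fun P h => h.t 4 5 6 7 0 3 2 4 1 5 (by decide +kernel)
def w5667 : PV o5667 := fun P h => h.t 4 5 6 7 0 4 1 5 2 3 (by decide +kernel)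
def w5668 : PV o5668 := fun P h => h.t 4 5 6 7 1 2 0 3 4 5 (by decide +kernel)
def w5669 : PV o5669 := fun P h => h.t 4 5 6 7 1 2 0 5 3 4 (by decide +kernel)
def w5670 : PV o5670 := fun P h => h.t 4 5 6 7 1 3 0 4 2 5 (by decide +kernel)
def w5671 : PV o5671 := fun P h => h.t 4 5 6 7 1 3 2 4 0 5 (by decide +kernel)
def w5672 : PV o5672 := fun P h => h.t 4 5 6 7 1 4 0 2 3 5 (by decide +kernel)
def w5673 : PV o5673 := fun P h => h.t 4 5 6 7 1 4 2 3 0 5 (by decide +kernel)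
def w5674 : PV o5674 := fun P h => h.t 4 5 6 7 2 3 1 4 0 5 (by decide +kernel)
def w5675 : PV o5675 := fun P h => h.t 4 5 6 7 2 3 1 5 0 4 (by decide +kernel)
def w5676 : PV o5676 := fun P h => h.t 4 5 6 7 2 4 3 5 0 1 (by decide +kernel)
def w5677 : PV o5677 := fun P h => h.t 4 5 6 7 4 5 0 1 2 3 (by decide +kernel)
def w5678 : PV o5678 := fun P h => h.x 4 5 6 15 (by decide +kernel)
def w5679 : PV o5679 := fun P h => h.x 4 5 6 13 (by decide +kernel)
def w5680 : PV o5680 := fun P h => h.x 4 5 6 12 (by decide +kernel)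
def w5681 : PV o5681 := fun P h => h.x 4 5 6 5 (by decide +kernel)
def w5682 : PV o5682 := fun P h => h.x 4 5 6 4 (by decide +kernel)
def w5683 : PV o5683 := fun P h => h.x 4 5 6 0 (by decide +kernel)
def w5684 : PV o5684 := fun P h => h.t 4 5 7 6 0 1 3 4 2 5 (by decide +kernel)
def w5685 : PV o5685 := fun P h => h.t 4 5 7 6 0 1 3 5 2 4 (by decide +kernel)
def w5686 : PV o5686 := fun P h => h.t 4 5 7 6 0 2 3 4 1 5 (by decide +kernel)
def w5687 : PV o5687 := fun P h => h.t 4 5 7 6 0 2 3 5 1 4 (by decide +kernel)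
def w5688 : PV o5688 := fun P h => h.t 4 5 7 6 0 3 1 5 2 4 (by decide +kernel)
def w5689 : PV o5689 := fun P h => h.t 4 5 7 6 0 3 2 4 1 5 (by decide +kernel)
def w5690 : PV o5690 := fun P h => h.t 4 5 7 6 0 3 2 5 1 4 (by decide +kernel)
def w5691 : PV o5691 := fun P h => h.t 4 5 7 6 0 4 2 3 1 5 (by decide +kernel)
def w5692 : PV o5692 := fun P h => h.t 4 5 7 6 1 2 3 4 0 5 (by decide +kernel)
def w5693 : PV o5693 := fun P h => h.t 4 5 7 6 1 2 3 5 0 4 (by decide +kernel)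
def w5694 : PV o5694 := fun P h => h.t 4 5 7 6 1 3 0 5 2 4 (by decide +kernel)
def w5695 : PV o5695 := fun P h => h.t 4 5 7 6 1 4 0 2 3 5 (by decide +kernel)
def w5696 : PV o5696 := fun P h => h.t 4 5 7 6 1 4 0 3 2 5 (by decide +kernel)
def w5697 : PV o5697 := fun P h => h.t 4 5 7 6 1 4 2 5 0 3 (by decide +kernel)
def w5698 : PV o5698 := fun P h => h.t 4 5 7 6 1 5 0 4 2 3 (by decide +kernel)
def w5699 : PV o5699 := fun P h => h.t 4 5 7 6 2 3 0 5 1 4 (by decide +kernel)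
def w5700 : PV o5700 := fun P h => h.t 4 5 7 6 2 4 0 1 3 5 (by decide +kernel)
def w5701 : PV o5701 := fun P h => h.t 4 5 7 6 2 4 0 3 1 5 (by decide +kernel)
def w5702 : PV o5702 := fun P h => h.t 4 5 7 6 2 4 0 5 1 3 (by decide +kernel)
def w5703 : PV o5703 := fun P h => h.t 4 5 7 6 2 5 0 1 3 4 (by decide +kernel)
def w5704 : PV o5704 := fun P h => h.t 4 5 7 6 3 4 0 1 2 5 (by decide +kernel)
def w5705 : PV o5705 := fun P h => h.t 4 5 7 6 3 4 0 5 1 2 (by decide +kernel)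
def w5706 : PV o5706 := fun P h => h.t 4 5 7 6 3 4 1 5 0 2 (by decide +kernel)
def w5707 : PV o5707 := fun P h => h.t 4 5 7 6 3 4 2 5 0 1 (by decide +kernel)
def w5708 : PV o5708 := fun P h => h.t 4 5 7 6 3 5 1 2 0 4 (by decide +kernel)
def w5709 : PV o5709 := fun P h => h.t 4 5 7 6 3 5 1 4 0 2 (by decide +kernel)
def w5710 : PV o5710 := fun P h => h.t 4 5 7 6 4 5 0 2 1 3 (by decide +kernel)
def w5711 : PV o5711 := fun P h => h.t 4 5 7 6 4 5 1 2 0 3 (by decide +kernel)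
def w5712 : PV o5712 := fun P h => h.t 4 5 7 7 1 2 3 4 0 5 (by decide +kernel)
def w5713 : PV o5713 := fun P h => h.t 4 5 7 7 1 2 3 5 0 4 (by decide +kernel)
def w5714 : PV o5714 := fun P h => h.x 4 5 7 15 (by decide +kernel)
def w5715 : PV o5715 := fun P h => h.x 4 5 7 13 (by decide +kernel)
def w5716 : PV o5716 := fun P h => h.x 4 5 7 12 (by decide +kernel)
def w5717 : PV o5717 := fun P h => h.x 4 5 7 5 (by decide +kernel)
def w5718 : PV o5718 := fun P h => h.x 4 5 7 4 (by decide +kernel)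
def w5719 : PV o5719 := fun P h => h.x 4 5 7 0 (by decide +kernel)
def w5720 : PV o5720 := fun P h => h.x 4 6 0 15 (by decide +kernel)
def w5721 : PV o5721 := fun P h => h.x 4 6 0 5 (by decide +kernel)
def w5722 : PV o5722 := fun P h => h.x 4 6 0 0 (by decide +kernel)
def w5723 : PV o5723 := fun P h => h.x 4 6 1 15 (by decide +kernel)
def w5724 : PV o5724 := fun P h => h.x 4 6 1 12 (by decide +kernel)
def w5725 : PV o5725 := fun P h => h.x 4 6 1 0 (by decide +kernel)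
def w5726 : PV o5726 := fun P h => h.x 4 6 2 15 (by decide +kernel)
def w5727 : PV o5727 := fun P h => h.x 4 6 3 15 (by decide +kernel)
def w5728 : PV o5728 := fun P h => h.x 4 6 3 13 (by decide +kernel)
def w5729 : PV o5729 := fun P h => h.x 4 6 3 12 (by decide +kernel)
def w5730 : PV o5730 := fun P h => h.x 4 6 3 5 (by decide +kernel)
def w5731 : PV o5731 := fun P h => h.x 4 6 5 15 (by decide +kernel)
def w5732 : PV o5732 := fun P h => h.x 4 6 5 13 (by decide +kernel)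
def w5733 : PV o5733 := fun P h => h.x 4 6 5 12 (by decide +kernel)
def w5734 : PV o5734 := fun P h => h.x 4 6 5 5 (by decide +kernel)
def w5735 : PV o5735 := fun P h => h.x 4 6 5 4 (by decide +kernel)
def w5736 : PV o5736 := fun P h => h.x 4 6 5 0 (by decide +kernel)
def w5737 : PV o5737 := fun P h => h.t 4 6 6 6 0 2 1 4 3 5 (by decide +kernel)
def w5738 : PV o5738 := fun P h => h.t 4 6 6 6 0 2 3 5 1 4 (by decide +kernel)
def w5739 : PV o5739 := fun P h => h.t 4 6 6 7 0 1 2 4 3 5 (by decide +kernel)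
def w5740 : PV o5740 := fun P h => h.t 4 6 6 7 0 1 2 5 3 4 (by decide +kernel)
def w5741 : PV o5741 := fun P h => h.t 4 6 6 7 0 1 3 4 2 5 (by decide +kernel)
def w5742 : PV o5742 := fun P h => h.t 4 6 6 7 0 1 3 5 2 4 (by decide +kernel)
def w5743 : PV o5743 := fun P h => h.t 4 6 6 7 0 2 1 4 3 5 (by decide +kernel)
def w5744 : PV o5744 := fun P h => h.t 4 6 6 7 0 2 3 4 1 5 (by decide +kernel)
def w5745 : PV o5745 := fun P h => h.t 4 6 6 7 0 2 3 5 1 4 (by decide +kernel)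
def w5746 : PV o5746 := fun P h => h.t 4 6 6 7 0 2 4 5 1 3 (by decide +kernel)
def w5747 : PV o5747 := fun P h => h.t 4 6 6 7 0 3 1 5 2 4 (by decide +kernel)
def w5748 : PV o5748 := fun P h => h.t 4 6 6 7 0 3 4 5 1 2 (by decide +kernel)
def w5749 : PV o5749 := fun P h => h.t 4 6 6 7 0 4 1 2 3 5 (by decide +kernel)
def w5750 : PV o5750 := fun P h => h.t 4 6 6 7 0 4 2 3 1 5 (by decide +kernel)
def w5751 : PV o5751 := fun P h => h.t 4 6 6 7 0 4 2 5 1 3 (by decide +kernel)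
def w5752 : PV o5752 := fun P h => h.t 4 6 6 7 0 5 1 2 3 4 (by decide +kernel)
def w5753 : PV o5753 := fun P h => h.t 4 6 6 7 0 5 1 3 2 4 (by decide +kernel)
def w5754 : PV o5754 := fun P h => h.t 4 6 6 7 0 5 2 3 1 4 (by decide +kernel)
def w5755 : PV o5755 := fun P h => h.t 4 6 6 7 0 5 3 4 1 2 (by decide +kernel)
def w5756 : PV o5756 := fun P h => h.t 4 6 6 7 1 2 0 4 3 5 (by decide +kernel)
def w5757 : PV o5757 := fun P h => h.t 4 6 6 7 1 3 0 5 2 4 (by decide +kernel)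
def w5758 : PV o5758 := fun P h => h.t 4 6 6 7 1 3 2 5 0 4 (by decide +kernel)
def w5759 : PV o5759 := fun P h => h.t 4 6 6 7 1 5 0 3 2 4 (by decide +kernel)
def w5760 : PV o5760 := fun P h => h.t 4 6 6 7 1 5 2 3 0 4 (by decide +kernel)
def w5761 : PV o5761 := fun P h => h.t 4 6 6 7 2 3 0 4 1 5 (by decide +kernel)
def w5762 : PV o5762 := fun P h => h.t 4 6 6 7 2 3 0 5 1 4 (by decide +kernel)
def w5763 : PV o5763 := fun P h => h.t 4 6 6 7 2 3 1 5 0 4 (by decide +kernel)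
def w5764 : PV o5764 := fun P h => h.t 4 6 6 7 2 4 0 1 3 5 (by decide +kernel)
def w5765 : PV o5765 := fun P h => h.t 4 6 6 7 2 4 0 3 1 5 (by decide +kernel)
def w5766 : PV o5766 := fun P h => h.t 4 6 6 7 2 5 0 1 3 4 (by decide +kernel)
def w5767 : PV o5767 := fun P h => h.t 4 6 6 7 3 4 0 1 2 5 (by decide +kernel)
def w5768 : PV o5768 := fun P h => h.t 4 6 6 7 3 4 0 2 1 5 (by decide +kernel)
def w5769 : PV o5769 := fun P h => h.t 4 6 6 7 3 4 0 5 1 2 (by decide +kernel)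
def w5770 : PV o5770 := fun P h => h.t 4 6 6 7 4 5 0 3 1 2 (by decide +kernel)
def w5771 : PV o5771 := fun P h => h.t 4 6 6 7 4 5 1 2 0 3 (by decide +kernel)
def w5772 : PV o5772 := fun P h => h.t 4 6 6 7 4 5 1 3 0 2 (by decide +kernel)
def w5773 : PV o5773 := fun P h => h.t 4 6 7 7 0 2 1 3 4 5 (by decide +kernel)
def w5774 : PV o5774 := fun P h => h.t 4 6 7 7 0 2 1 4 3 5 (by decide +kernel)
def w5775 : PV o5775 := fun P h => h.t 4 6 7 7 0 2 1 5 3 4 (by decide +kernel)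
def w5776 : PV o5776 := fun P h => h.t 4 6 7 7 0 2 3 4 1 5 (by decide +kernel)
def w5777 : PV o5777 := fun P h => h.t 4 6 7 7 0 2 3 5 1 4 (by decide +kernel)
def w5778 : PV o5778 := fun P h => h.t 4 6 7 7 0 3 1 2 4 5 (by decide +kernel)
def w5779 : PV o5779 := fun P h => h.t 4 6 7 7 0 3 4 5 1 2 (by decide +kernel)
def w5780 : PV o5780 := fun P h => h.t 4 6 7 7 0 4 1 2 3 5 (by decide +kernel)
def w5781 : PV o5781 := fun P h => h.t 4 6 7 7 0 4 1 5 2 3 (by decide +kernel)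
def w5782 : PV o5782 := fun P h => h.t 4 6 7 7 0 4 2 3 1 5 (by decide +kernel)
def w5783 : PV o5783 := fun P h => h.t 4 6 7 7 0 4 2 5 1 3 (by decide +kernel)
def w5784 : PV o5784 := fun P h => h.t 4 6 7 7 1 2 0 3 4 5 (by decide +kernel)
def w5785 : PV o5785 := fun P h => h.t 4 6 7 7 1 2 0 4 3 5 (by decide +kernel)
def w5786 : PV o5786 := fun P h => h.t 4 6 7 7 1 2 0 5 3 4 (by decide +kernel)
def w5787 : PV o5787 := fun P h => h.t 4 6 7 7 1 2 3 4 0 5 (by decide +kernel)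
def w5788 : PV o5788 := fun P h => h.t 4 6 7 7 1 2 3 5 0 4 (by decide +kernel)
def w5789 : PV o5789 := fun P h => h.t 4 6 7 7 1 2 4 5 0 3 (by decide +kernel)
def w5790 : PV o5790 := fun P h => h.t 4 6 7 7 1 3 0 4 2 5 (by decide +kernel)
def w5791 : PV o5791 := fun P h => h.t 4 6 7 7 1 3 0 5 2 4 (by decide +kernel)
def w5792 : PV o5792 := fun P h => h.t 4 6 7 7 1 3 2 4 0 5 (by decide +kernel)
def w5793 : PV o5793 := fun P h => h.t 4 6 7 7 1 3 2 5 0 4 (by decide +kernel)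
def w5794 : PV o5794 := fun P h => h.t 4 6 7 7 1 4 0 5 2 3 (by decide +kernel)
def w5795 : PV o5795 := fun P h => h.t 4 6 7 7 1 4 2 3 0 5 (by decide +kernel)
def w5796 : PV o5796 := fun P h => h.t 4 6 7 7 1 5 0 3 2 4 (by decide +kernel)
def w5797 : PV o5797 := fun P h => h.t 4 6 7 7 1 5 0 4 2 3 (by decide +kernel)
def w5798 : PV o5798 := fun P h => h.t 4 6 7 7 1 5 2 3 0 4 (by decide +kernel)
def w5799 : PV o5799 := fun P h => h.t 4 6 7 7 1 5 2 4 0 3 (by decide +kernel)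
def w5800 : PV o5800 := fun P h => h.t 4 6 7 7 2 3 0 1 4 5 (by decide +kernel)
def w5801 : PV o5801 := fun P h => h.t 4 6 7 7 2 4 0 3 1 5 (by decide +kernel)
def w5802 : PV o5802 := fun P h => h.t 4 6 7 7 2 4 0 5 1 3 (by decide +kernel)
def w5803 : PV o5803 := fun P h => h.t 4 6 7 7 2 4 1 3 0 5 (by decide +kernel)
def w5804 : PV o5804 := fun P h => h.t 4 6 7 7 2 4 1 5 0 3 (by decide +kernel)
def w5805 : PV o5805 := fun P h => h.t 4 6 7 7 2 5 0 1 3 4 (by decide +kernel)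
def w5806 : PV o5806 := fun P h => h.t 4 6 7 7 2 5 3 4 0 1 (by decide +kernel)
def w5807 : PV o5807 := fun P h => h.t 4 6 7 7 3 4 0 1 2 5 (by decide +kernel)
def w5808 : PV o5808 := fun P h => h.t 4 6 7 7 3 4 1 2 0 5 (by decide +kernel)
def w5809 : PV o5809 := fun P h => h.t 4 6 7 7 3 4 2 5 0 1 (by decide +kernel)
def w5810 : PV o5810 := fun P h => h.x 4 6 7 15 (by decide +kernel)
def w5811 : PV o5811 := fun P h => h.x 4 6 7 13 (by decide +kernel)
def w5812 : PV o5812 := fun P h => h.x 4 6 7 12 (by decide +kernel)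
def w5813 : PV o5813 := fun P h => h.x 4 6 7 5 (by decide +kernel)
def w5814 : PV o5814 := fun P h => h.x 4 6 7 0 (by decide +kernel)
def w5815 : PV o5815 := fun P h => h.x 4 7 0 15 (by decide +kernel)
def w5816 : PV o5816 := fun P h => h.x 4 7 0 4 (by decide +kernel)
def w5817 : PV o5817 := fun P h => h.x 4 7 0 0 (by decide +kernel)
def w5818 : PV o5818 := fun P h => h.x 4 7 1 15 (by decide +kernel)
def w5819 : PV o5819 := fun P h => h.x 4 7 1 12 (by decide +kernel)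
def w5820 : PV o5820 := fun P h => h.x 4 7 1 4 (by decide +kernel)
def w5821 : PV o5821 := fun P h => h.x 4 7 2 13 (by decide +kernel)
def w5822 : PV o5822 := fun P h => h.x 4 7 2 5 (by decide +kernel)
def w5823 : PV o5823 := fun P h => h.x 4 7 3 15 (by decide +kernel)
def w5824 : PV o5824 := fun P h => h.x 4 7 3 13 (by decide +kernel)
def w5825 : PV o5825 := fun P h => h.x 4 7 3 12 (by decide +kernel)
def w5826 : PV o5826 := fun P h => h.x 4 7 3 5 (by decide +kernel)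
def w5827 : PV o5827 := fun P h => h.x 4 7 3 4 (by decide +kernel)
def w5828 : PV o5828 := fun P h => h.x 4 7 3 0 (by decide +kernel)
def w5829 : PV o5829 := fun P h => h.x 4 7 4 12 (by decide +kernel)
def w5830 : PV o5830 := fun P h => h.x 4 7 4 4 (by decide +kernel)
def w5831 : PV o5831 := fun P h => h.x 4 7 5 15 (by decide +kernel)
def w5832 : PV o5832 := fun P h => h.x 4 7 5 12 (by decide +kernel)
def w5833 : PV o5833 := fun P h => h.x 4 7 5 5 (by decide +kernel)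
def w5834 : PV o5834 := fun P h => h.x 4 7 5 4 (by decide +kernel)
def w5835 : PV o5835 := fun P h => h.x 4 7 5 0 (by decide +kernel)
def w5836 : PV o5836 := fun P h => h.x 4 7 6 15 (by decide +kernel)
def w5837 : PV o5837 := fun P h => h.x 4 7 6 13 (by decide +kernel)
def w5838 : PV o5838 := fun P h => h.x 4 7 6 12 (by decide +kernel)
def w5839 : PV o5839 := fun P h => h.x 4 7 6 5 (by decide +kernel)
def w5840 : PV o5840 := fun P h => h.x 4 7 6 4 (by decide +kernel)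
def w5841 : PV o5841 := fun P h => h.x 4 7 6 0 (by decide +kernel)
def w5842 : PV o5842 := fun P h => h.t 4 7 7 7 0 2 1 4 3 5 (by decide +kernel)
def w5843 : PV o5843 := fun P h => h.t 4 7 7 7 0 2 3 5 1 4 (by decide +kernel)
def w5844 : PV o5844 := fun P h => h.p 0 1 15 0 (by decide +kernel)
def w5845 : PV o5845 := fun P h => h.p 0 1 12 0 (by decide +kernel)
def w5846 : PV o5846 := fun P h => h.p 0 1 5 0 (by decide +kernel)
def w5847 : PV o5847 := fun P h => h.p 0 2 15 0 (by decide +kernel)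
def w5848 : PV o5848 := fun P h => h.p 0 2 12 0 (by decide +kernel)
def w5849 : PV o5849 := fun P h => h.p 0 2 4 0 (by decide +kernel)
def w5850 : PV o5850 := fun P h => h.p 0 3 4 0 (by decide +kernel)
def w5851 : PV o5851 := fun P h => h.p 0 3 0 0 (by decide +kernel)
def w5852 : PV o5852 := fun P h => h.d 0 0 (by decide +kernel)
def w5853 : PV o5853 := fun P h => h.p 0 1 15 1 (by decide +kernel)
def w5854 : PV o5854 := fun P h => h.p 0 1 13 1 (by decide +kernel)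
def w5855 : PV o5855 := fun P h => h.p 0 1 12 1 (by decide +kernel)
def w5856 : PV o5856 := fun P h => h.p 0 1 5 1 (by decide +kernel)
def w5857 : PV o5857 := fun P h => h.p 0 1 4 1 (by decide +kernel)
def w5858 : PV o5858 := fun P h => h.p 0 1 0 1 (by decide +kernel)
def w5859 : PV o5859 := fun P h => h.p 0 2 15 1 (by decide +kernel)
def w5860 : PV o5860 := fun P h => h.p 0 3 15 1 (by decide +kernel)
def w5861 : PV o5861 := fun P h => h.p 0 3 0 1 (by decide +kernel)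
def w5862 : PV o5862 := fun P h => h.d 0 1 (by decide +kernel)
def w5863 : PV o5863 := fun P h => h.p 0 1 15 2 (by decide +kernel)
def w5864 : PV o5864 := fun P h => h.p 0 1 13 2 (by decide +kernel)
def w5865 : PV o5865 := fun P h => h.p 0 1 12 2 (by decide +kernel)
def w5866 : PV o5866 := fun P h => h.p 0 1 5 2 (by decide +kernel)
def w5867 : PV o5867 := fun P h => h.p 0 1 4 2 (by decide +kernel)
def w5868 : PV o5868 := fun P h => h.p 0 1 0 2 (by decide +kernel)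
def w5869 : PV o5869 := fun P h => h.p 0 2 15 2 (by decide +kernel)
def w5870 : PV o5870 := fun P h => h.p 0 2 4 2 (by decide +kernel)
def w5871 : PV o5871 := fun P h => h.p 0 6 15 2 (by decide +kernel)
def w5872 : PV o5872 := fun P h => h.p 0 6 4 2 (by decide +kernel)
def w5873 : PV o5873 := fun P h => h.p 0 6 0 2 (by decide +kernel)
def w5874 : PV o5874 := fun P h => h.d 0 2 (by decide +kernel)
def w5875 : PV o5875 := fun P h => h.p 0 1 15 3 (by decide +kernel)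
def w5876 : PV o5876 := fun P h => h.p 0 1 13 3 (by decide +kernel)
def w5877 : PV o5877 := fun P h => h.p 0 1 12 3 (by decide +kernel)
def w5878 : PV o5878 := fun P h => h.p 0 1 5 3 (by decide +kernel)
def w5879 : PV o5879 := fun P h => h.p 0 1 4 3 (by decide +kernel)
def w5880 : PV o5880 := fun P h => h.p 0 1 0 3 (by decide +kernel)
def w5881 : PV o5881 := fun P h => h.p 0 7 15 3 (by decide +kernel)
def w5882 : PV o5882 := fun P h => h.d 0 3 (by decide +kernel)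
def w5883 : PV o5883 := fun P h => h.u 0 3 (by decide +kernel)
def w5884 : PV o5884 := fun P h => h.p 0 1 15 4 (by decide +kernel)
def w5885 : PV o5885 := fun P h => h.p 0 1 13 4 (by decide +kernel)
def w5886 : PV o5886 := fun P h => h.p 0 1 12 4 (by decide +kernel)
def w5887 : PV o5887 := fun P h => h.p 0 1 5 4 (by decide +kernel)
def w5888 : PV o5888 := fun P h => h.p 0 1 4 4 (by decide +kernel)
def w5889 : PV o5889 := fun P h => h.p 0 1 0 4 (by decide +kernel)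
def w5890 : PV o5890 := fun P h => h.p 0 2 4 4 (by decide +kernel)
def w5891 : PV o5891 := fun P h => h.p 0 3 13 4 (by decide +kernel)
def w5892 : PV o5892 := fun P h => h.p 0 3 12 4 (by decide +kernel)
def w5893 : PV o5893 := fun P h => h.p 0 3 5 4 (by decide +kernel)
def w5894 : PV o5894 := fun P h => h.p 0 6 4 4 (by decide +kernel)
def w5895 : PV o5895 := fun P h => h.d 0 4 (by decide +kernel)
def w5896 : PV o5896 := fun P h => h.u 0 4 (by decide +kernel)
def w5897 : PV o5897 := fun P h => h.p 0 1 15 5 (by decide +kernel)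
def w5898 : PV o5898 := fun P h => h.p 0 1 13 5 (by decide +kernel)
def w5899 : PV o5899 := fun P h => h.p 0 1 12 5 (by decide +kernel)
def w5900 : PV o5900 := fun P h => h.p 0 1 5 5 (by decide +kernel)
def w5901 : PV o5901 := fun P h => h.p 0 1 4 5 (by decide +kernel)
def w5902 : PV o5902 := fun P h => h.p 0 1 0 5 (by decide +kernel)
def w5903 : PV o5903 := fun P h => h.p 0 2 15 5 (by decide +kernel)
def w5904 : PV o5904 := fun P h => h.p 0 3 15 5 (by decide +kernel)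
def w5905 : PV o5905 := fun P h => h.p 0 3 13 5 (by decide +kernel)
def w5906 : PV o5906 := fun P h => h.p 0 3 12 5 (by decide +kernel)
def w5907 : PV o5907 := fun P h => h.p 0 3 5 5 (by decide +kernel)
def w5908 : PV o5908 := fun P h => h.p 0 6 13 5 (by decide +kernel)
def w5909 : PV o5909 := fun P h => h.p 0 6 12 5 (by decide +kernel)
def w5910 : PV o5910 := fun P h => h.p 0 6 5 5 (by decide +kernel)
def w5911 : PV o5911 := fun P h => h.p 0 7 15 5 (by decide +kernel)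
def w5912 : PV o5912 := fun P h => h.d 0 5 (by decide +kernel)
def w5913 : PV o5913 := fun P h => h.u 0 5 (by decide +kernel)
def w5914 : PV o5914 := fun P h => h.p 0 0 5 6 (by decide +kernel)
def w5915 : PV o5915 := fun P h => h.p 0 1 15 6 (by decide +kernel)
def w5916 : PV o5916 := fun P h => h.p 0 1 13 6 (by decide +kernel)
def w5917 : PV o5917 := fun P h => h.p 0 1 12 6 (by decide +kernel)
def w5918 : PV o5918 := fun P h => h.p 0 1 5 6 (by decide +kernel)
def w5919 : PV o5919 := fun P h => h.p 0 1 4 6 (by decide +kernel)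
def w5920 : PV o5920 := fun P h => h.p 0 1 0 6 (by decide +kernel)
def w5921 : PV o5921 := fun P h => h.p 0 2 13 6 (by decide +kernel)
def w5922 : PV o5922 := fun P h => h.p 0 2 5 6 (by decide +kernel)
def w5923 : PV o5923 := fun P h => h.p 0 3 13 6 (by decide +kernel)
def w5924 : PV o5924 := fun P h => h.p 0 3 5 6 (by decide +kernel)
def w5925 : PV o5925 := fun P h => h.p 0 6 15 6 (by decide +kernel)
def w5926 : PV o5926 := fun P h => h.p 0 7 15 6 (by decide +kernel)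
def w5927 : PV o5927 := fun P h => h.p 0 7 0 6 (by decide +kernel)
def w5928 : PV o5928 := fun P h => h.d 0 6 (by decide +kernel)
def w5929 : PV o5929 := fun P h => h.p 0 1 15 7 (by decide +kernel)
def w5930 : PV o5930 := fun P h => h.p 0 1 13 7 (by decide +kernel)
def w5931 : PV o5931 := fun P h => h.p 0 1 12 7 (by decide +kernel)
def w5932 : PV o5932 := fun P h => h.p 0 1 5 7 (by decide +kernel)
def w5933 : PV o5933 := fun P h => h.p 0 3 15 7 (by decide +kernel)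
def w5934 : PV o5934 := fun P h => h.p 0 3 5 7 (by decide +kernel)
def w5935 : PV o5935 := fun P h => h.p 0 4 15 7 (by decide +kernel)
def w5936 : PV o5936 := fun P h => h.p 0 0 12 8 (by decide +kernel)
def w5937 : PV o5937 := fun P h => h.p 0 1 15 8 (by decide +kernel)
def w5938 : PV o5938 := fun P h => h.p 0 1 13 8 (by decide +kernel)
def w5939 : PV o5939 := fun P h => h.p 0 1 12 8 (by decide +kernel)
def w5940 : PV o5940 := fun P h => h.p 0 1 5 8 (by decide +kernel)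
def w5941 : PV o5941 := fun P h => h.p 0 1 0 8 (by decide +kernel)
def w5942 : PV o5942 := fun P h => h.p 0 2 13 8 (by decide +kernel)
def w5943 : PV o5943 := fun P h => h.p 0 2 4 8 (by decide +kernel)
def w5944 : PV o5944 := fun P h => h.p 0 3 15 8 (by decide +kernel)
def w5945 : PV o5945 := fun P h => h.p 0 3 13 8 (by decide +kernel)
def w5946 : PV o5946 := fun P h => h.p 0 3 0 8 (by decide +kernel)
def w5947 : PV o5947 := fun P h => h.p 0 6 0 8 (by decide +kernel)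
def w5948 : PV o5948 := fun P h => h.d 0 8 (by decide +kernel)
def w5949 : PV o5949 := fun P h => h.p 0 0 12 9 (by decide +kernel)
def w5950 : PV o5950 := fun P h => h.p 0 1 15 9 (by decide +kernel)
def w5951 : PV o5951 := fun P h => h.p 0 1 13 9 (by decide +kernel)
def w5952 : PV o5952 := fun P h => h.p 0 1 12 9 (by decide +kernel)
def w5953 : PV o5953 := fun P h => h.p 0 1 5 9 (by decide +kernel)
def w5954 : PV o5954 := fun P h => h.p 0 1 4 9 (by decide +kernel)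
def w5955 : PV o5955 := fun P h => h.p 0 1 0 9 (by decide +kernel)
def w5956 : PV o5956 := fun P h => h.p 0 2 15 9 (by decide +kernel)
def w5957 : PV o5957 := fun P h => h.p 0 2 4 9 (by decide +kernel)
def w5958 : PV o5958 := fun P h => h.p 0 3 15 9 (by decide +kernel)
def w5959 : PV o5959 := fun P h => h.p 0 3 12 9 (by decide +kernel)
def w5960 : PV o5960 := fun P h => h.p 0 3 0 9 (by decide +kernel)
def w5961 : PV o5961 := fun P h => h.p 0 6 0 9 (by decide +kernel)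
def w5962 : PV o5962 := fun P h => h.d 0 9 (by decide +kernel)
def w5963 : PV o5963 := fun P h => h.p 0 0 12 10 (by decide +kernel)
def w5964 : PV o5964 := fun P h => h.p 0 1 15 10 (by decide +kernel)
def w5965 : PV o5965 := fun P h => h.p 0 1 13 10 (by decide +kernel)
def w5966 : PV o5966 := fun P h => h.p 0 1 12 10 (by decide +kernel)
def w5967 : PV o5967 := fun P h => h.p 0 1 5 10 (by decide +kernel)
def w5968 : PV o5968 := fun P h => h.p 0 1 4 10 (by decide +kernel)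
def w5969 : PV o5969 := fun P h => h.p 0 1 0 10 (by decide +kernel)
def w5970 : PV o5970 := fun P h => h.p 0 2 13 10 (by decide +kernel)
def w5971 : PV o5971 := fun P h => h.p 0 2 5 10 (by decide +kernel)
def w5972 : PV o5972 := fun P h => h.p 0 3 15 10 (by decide +kernel)
def w5973 : PV o5973 := fun P h => h.p 0 3 13 10 (by decide +kernel)
def w5974 : PV o5974 := fun P h => h.p 0 3 12 10 (by decide +kernel)
def w5975 : PV o5975 := fun P h => h.p 0 3 5 10 (by decide +kernel)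
def w5976 : PV o5976 := fun P h => h.p 0 3 4 10 (by decide +kernel)
def w5977 : PV o5977 := fun P h => h.p 0 3 0 10 (by decide +kernel)
def w5978 : PV o5978 := fun P h => h.p 0 6 5 10 (by decide +kernel)
def w5979 : PV o5979 := fun P h => h.p 0 6 0 10 (by decide +kernel)
def w5980 : PV o5980 := fun P h => h.p 0 7 15 10 (by decide +kernel)
def w5981 : PV o5981 := fun P h => h.p 0 7 5 10 (by decide +kernel)
def w5982 : PV o5982 := fun P h => h.p 0 7 4 10 (by decide +kernel)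
def w5983 : PV o5983 := fun P h => h.p 0 7 0 10 (by decide +kernel)
def w5984 : PV o5984 := fun P h => h.d 0 10 (by decide +kernel)
def w5985 : PV o5985 := fun P h => h.p 0 1 15 11 (by decide +kernel)
def w5986 : PV o5986 := fun P h => h.p 0 1 13 11 (by decide +kernel)
def w5987 : PV o5987 := fun P h => h.p 0 1 12 11 (by decide +kernel)
def w5988 : PV o5988 := fun P h => h.p 0 1 5 11 (by decide +kernel)
def w5989 : PV o5989 := fun P h => h.p 0 1 4 11 (by decide +kernel)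
def w5990 : PV o5990 := fun P h => h.p 0 3 15 11 (by decide +kernel)
def w5991 : PV o5991 := fun P h => h.p 0 7 15 11 (by decide +kernel)
def w5992 : PV o5992 := fun P h => h.d 0 11 (by decide +kernel)
def w5993 : PV o5993 := fun P h => h.p 0 1 15 12 (by decide +kernel)
def w5994 : PV o5994 := fun P h => h.p 0 1 13 12 (by decide +kernel)
def w5995 : PV o5995 := fun P h => h.p 0 1 12 12 (by decide +kernel)
def w5996 : PV o5996 := fun P h => h.p 0 1 5 12 (by decide +kernel)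
def w5997 : PV o5997 := fun P h => h.p 0 1 4 12 (by decide +kernel)
def w5998 : PV o5998 := fun P h => h.p 0 1 0 12 (by decide +kernel)
def w5999 : PV o5999 := fun P h => h.p 0 2 5 12 (by decide +kernel)

end Pool.Agent.BDD.A
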