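import Pool.Agent.BDD.AC
import Pool.Agent.BDD.AE1

set_option autoImplicit false
set_option linter.all false

namespace Pool.Agent.BDD.A

def w6000 : PV o6000 := fun P h => h.p 0 2 4 12 (by decide +kernel)
def w6001 : PV o6001 := fun P h => h.p 0 2 0 12 (by decide +kernel)
def w6002 : PV o6002 := fun P h => h.p 0 3 15 12 (by decide +kernel)
def w6003 : PV o6003 := fun P h => h.p 0 3 13 12 (by decide +kernel)
def w6004 : PV o6004 := fun P h => h.p 0 3 12 12 (by decide +kernel)
def w6005 : PV o6005 := fun P h => h.p 0 3 5 12 (by decide +kernel)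
def w6006 : PV o6006 := fun P h => h.p 0 3 4 12 (by decide +kernel)
def w6007 : PV o6007 := fun P h => h.p 0 3 0 12 (by decide +kernel)
def w6008 : PV o6008 := fun P h => h.p 0 4 15 12 (by decide +kernel)
def w6009 : PV o6009 := fun P h => h.p 0 6 12 12 (by decide +kernel)
def w6010 : PV o6010 := fun P h => h.p 0 6 4 12 (by decide +kernel)
def w6011 : PV o6011 := fun P h => h.p 0 6 0 12 (by decide +kernel)
def w6012 : PV o6012 := fun P h => h.p 0 7 15 12 (by decide +kernel)
def w6013 : PV o6013 := fun P h => h.p 0 7 13 12 (by decide +kernel)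
def w6014 : PV o6014 := fun P h => h.d 0 12 (by decide +kernel)
def w6015 : PV o6015 := fun P h => h.p 0 1 15 13 (by decide +kernel)
def w6016 : PV o6016 := fun P h => h.p 0 1 13 13 (by decide +kernel)
def w6017 : PV o6017 := fun P h => h.p 0 1 12 13 (by decide +kernel)
def w6018 : PV o6018 := fun P h => h.p 0 1 5 13 (by decide +kernel)
def w6019 : PV o6019 := fun P h => h.p 0 1 4 13 (by decide +kernel)
def w6020 : PV o6020 := fun P h => h.p 0 1 0 13 (by decide +kernel)
def w6021 : PV o6021 := fun P h => h.p 0 2 15 13 (by decide +kernel)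
def w6022 : PV o6022 := fun P h => h.p 0 3 15 13 (by decide +kernel)
def w6023 : PV o6023 := fun P h => h.p 0 3 12 13 (by decide +kernel)
def w6024 : PV o6024 := fun P h => h.p 0 3 5 13 (by decide +kernel)
def w6025 : PV o6025 := fun P h => h.p 0 5 15 13 (by decide +kernel)
def w6026 : PV o6026 := fun P h => h.p 0 5 0 13 (by decide +kernel)
def w6027 : PV o6027 := fun P h => h.p 0 6 15 13 (by decide +kernel)
def w6028 : PV o6028 := fun P h => h.p 0 6 13 13 (by decide +kernel)
def w6029 : PV o6029 := fun P h => h.p 0 6 5 13 (by decide +kernel)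
def w6030 : PV o6030 := fun P h => h.p 0 6 0 13 (by decide +kernel)
def w6031 : PV o6031 := fun P h => h.p 0 7 15 13 (by decide +kernel)
def w6032 : PV o6032 := fun P h => h.d 0 13 (by decide +kernel)
def w6033 : PV o6033 := fun P h => h.p 0 0 5 14 (by decide +kernel)
def w6034 : PV o6034 := fun P h => h.p 0 1 15 14 (by decide +kernel)
def w6035 : PV o6035 := fun P h => h.p 0 1 13 14 (by decide +kernel)
def w6036 : PV o6036 := fun P h => h.p 0 1 12 14 (by decide +kernel)
def w6037 : PV o6037 := fun P h => h.p 0 1 5 14 (by decide +kernel)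
def w6038 : PV o6038 := fun P h => h.p 0 2 13 14 (by decide +kernel)
def w6039 : PV o6039 := fun P h => h.p 0 2 5 14 (by decide +kernel)
def w6040 : PV o6040 := fun P h => h.p 0 3 13 14 (by decide +kernel)
def w6041 : PV o6041 := fun P h => h.p 0 3 5 14 (by decide +kernel)
def w6042 : PV o6042 := fun P h => h.p 0 3 4 14 (by decide +kernel)
def w6043 : PV o6043 := fun P h => h.p 0 4 13 14 (by decide +kernel)
def w6044 : PV o6044 := fun P h => h.p 0 4 5 14 (by decide +kernel)
def w6045 : PV o6045 := fun P h => h.p 0 5 15 14 (by decide +kernel)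
def w6046 : PV o6046 := fun P h => h.p 0 6 15 14 (by decide +kernel)
def w6047 : PV o6047 := fun P h => h.p 0 6 12 14 (by decide +kernel)
def w6048 : PV o6048 := fun P h => h.p 0 6 5 14 (by decide +kernel)
def w6049 : PV o6049 := fun P h => h.p 0 6 4 14 (by decide +kernel)
def w6050 : PV o6050 := fun P h => h.p 0 6 0 14 (by decide +kernel)
def w6051 : PV o6051 := fun P h => h.p 0 7 15 14 (by decide +kernel)
def w6052 : PV o6052 := fun P h => h.p 0 7 5 14 (by decide +kernel)
def w6053 : PV o6053 := fun P h => h.p 0 7 4 14 (by decide +kernel)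
def w6054 : PV o6054 := fun P h => h.p 0 7 0 14 (by decide +kernel)
def w6055 : PV o6055 := fun P h => h.d 0 14 (by decide +kernel)
def w6056 : PV o6056 := fun P h => h.p 0 1 15 15 (by decide +kernel)
def w6057 : PV o6057 := fun P h => h.p 0 1 13 15 (by decide +kernel)
def w6058 : PV o6058 := fun P h => h.p 0 1 12 15 (by decide +kernel)
def w6059 : PV o6059 := fun P h => h.p 0 1 5 15 (by decide +kernel)
def w6060 : PV o6060 := fun P h => h.p 0 3 15 15 (by decide +kernel)
def w6061 : PV o6061 := fun P h => h.p 0 4 15 15 (by decide +kernel)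
def w6062 : PV o6062 := fun P h => h.p 0 6 15 15 (by decide +kernel)
def w6063 : PV o6063 := fun P h => h.p 0 6 0 15 (by decide +kernel)
def w6064 : PV o6064 := fun P h => h.d 0 15 (by decide +kernel)
def w6065 : PV o6065 := fun P h => h.p 0 0 12 16 (by decide +kernel)
def w6066 : PV o6066 := fun P h => h.p 0 1 13 16 (by decide +kernel)
def w6067 : PV o6067 := fun P h => h.p 0 1 12 16 (by decide +kernel)
def w6068 : PV o6068 := fun P h => h.p 0 1 5 16 (by decide +kernel)
def w6069 : PV o6069 := fun P h => h.p 0 1 4 16 (by decide +kernel)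
def w6070 : PV o6070 := fun P h => h.p 0 1 0 16 (by decide +kernel)
def w6071 : PV o6071 := fun P h => h.p 0 2 13 16 (by decide +kernel)
def w6072 : PV o6072 := fun P h => h.p 0 2 4 16 (by decide +kernel)
def w6073 : PV o6073 := fun P h => h.p 0 3 0 16 (by decide +kernel)
def w6074 : PV o6074 := fun P h => h.d 0 16 (by decide +kernel)
def w6075 : PV o6075 := fun P h => h.p 0 0 12 17 (by decide +kernel)
def w6076 : PV o6076 := fun P h => h.p 0 1 13 17 (by decide +kernel)
def w6077 : PV o6077 := fun P h => h.p 0 1 12 17 (by decide +kernel)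
def w6078 : PV o6078 := fun P h => h.p 0 1 5 17 (by decide +kernel)
def w6079 : PV o6079 := fun P h => h.p 0 1 4 17 (by decide +kernel)
def w6080 : PV o6080 := fun P h => h.p 0 1 0 17 (by decide +kernel)
def w6081 : PV o6081 := fun P h => h.p 0 2 15 17 (by decide +kernel)
def w6082 : PV o6082 := fun P h => h.p 0 2 13 17 (by decide +kernel)
def w6083 : PV o6083 := fun P h => h.p 0 2 12 17 (by decide +kernel)
def w6084 : PV o6084 := fun P h => h.p 0 2 4 17 (by decide +kernel)
def w6085 : PV o6085 := fun P h => h.p 0 3 15 17 (by decide +kernel)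
def w6086 : PV o6086 := fun P h => h.p 0 3 12 17 (by decide +kernel)
def w6087 : PV o6087 := fun P h => h.p 0 3 0 17 (by decide +kernel)
def w6088 : PV o6088 := fun P h => h.p 0 6 5 17 (by decide +kernel)
def w6089 : PV o6089 := fun P h => h.p 0 6 4 17 (by decide +kernel)
def w6090 : PV o6090 := fun P h => h.d 0 17 (by decide +kernel)
def w6091 : PV o6091 := fun P h => h.u 0 17 (by decide +kernel)
def w6092 : PV o6092 := fun P h => h.p 0 1 15 18 (by decide +kernel)
def w6093 : PV o6093 := fun P h => h.p 0 1 13 18 (by decide +kernel)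
def w6094 : PV o6094 := fun P h => h.p 0 1 12 18 (by decide +kernel)
def w6095 : PV o6095 := fun P h => h.p 0 1 5 18 (by decide +kernel)
def w6096 : PV o6096 := fun P h => h.p 0 1 4 18 (by decide +kernel)
def w6097 : PV o6097 := fun P h => h.p 0 2 13 18 (by decide +kernel)
def w6098 : PV o6098 := fun P h => h.p 0 3 15 18 (by decide +kernel)
def w6099 : PV o6099 := fun P h => h.p 0 3 13 18 (by decide +kernel)
def w6100 : PV o6100 := fun P h => h.p 0 3 12 18 (by decide +kernel)
def w6101 : PV o6101 := fun P h => h.p 0 3 5 18 (by decide +kernel)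
def w6102 : PV o6102 := fun P h => h.p 0 3 4 18 (by decide +kernel)
def w6103 : PV o6103 := fun P h => h.p 0 3 0 18 (by decide +kernel)
def w6104 : PV o6104 := fun P h => h.p 0 4 15 18 (by decide +kernel)
def w6105 : PV o6105 := fun P h => h.p 0 5 0 18 (by decide +kernel)
def w6106 : PV o6106 := fun P h => h.p 0 6 15 18 (by decide +kernel)
def w6107 : PV o6107 := fun P h => h.p 0 6 0 18 (by decide +kernel)
def w6108 : PV o6108 := fun P h => h.p 0 7 15 18 (by decide +kernel)
def w6109 : PV o6109 := fun P h => h.p 0 7 13 18 (by decide +kernel)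
def w6110 : PV o6110 := fun P h => h.p 0 7 12 18 (by decide +kernel)
def w6111 : PV o6111 := fun P h => h.p 0 7 5 18 (by decide +kernel)
def w6112 : PV o6112 := fun P h => h.p 0 7 0 18 (by decide +kernel)
def w6113 : PV o6113 := fun P h => h.d 0 18 (by decide +kernel)
def w6114 : PV o6114 := fun P h => h.u 0 18 (by decide +kernel)
def w6115 : PV o6115 := fun P h => h.p 0 1 15 19 (by decide +kernel)
def w6116 : PV o6116 := fun P h => h.p 0 1 13 19 (by decide +kernel)
def w6117 : PV o6117 := fun P h => h.p 0 1 12 19 (by decide +kernel)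
def w6118 : PV o6118 := fun P h => h.p 0 1 5 19 (by decide +kernel)
def w6119 : PV o6119 := fun P h => h.p 0 1 4 19 (by decide +kernel)
def w6120 : PV o6120 := fun P h => h.p 0 1 0 19 (by decide +kernel)
def w6121 : PV o6121 := fun P h => h.p 0 2 15 19 (by decide +kernel)
def w6122 : PV o6122 := fun P h => h.p 0 3 15 19 (by decide +kernel)
def w6123 : PV o6123 := fun P h => h.p 0 3 13 19 (by decide +kernel)
def w6124 : PV o6124 := fun P h => h.p 0 3 4 19 (by decide +kernel)
def w6125 : PV o6125 := fun P h => h.p 0 6 15 19 (by decide +kernel)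
def w6126 : PV o6126 := fun P h => h.p 0 6 5 19 (by decide +kernel)
def w6127 : PV o6127 := fun P h => h.p 0 6 4 19 (by decide +kernel)
def w6128 : PV o6128 := fun P h => h.p 0 7 15 19 (by decide +kernel)
def w6129 : PV o6129 := fun P h => h.d 0 19 (by decide +kernel)
def w6130 : PV o6130 := fun P h => h.u 0 19 (by decide +kernel)
def w6131 : PV o6131 := fun P h => h.p 0 1 15 20 (by decide +kernel)
def w6132 : PV o6132 := fun P h => h.p 0 1 13 20 (by decide +kernel)
def w6133 : PV o6133 := fun P h => h.p 0 1 12 20 (by decide +kernel)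
def w6134 : PV o6134 := fun P h => h.p 0 1 5 20 (by decide +kernel)
def w6135 : PV o6135 := fun P h => h.p 0 1 4 20 (by decide +kernel)
def w6136 : PV o6136 := fun P h => h.p 0 1 0 20 (by decide +kernel)
def w6137 : PV o6137 := fun P h => h.p 0 2 4 20 (by decide +kernel)
def w6138 : PV o6138 := fun P h => h.p 0 3 15 20 (by decide +kernel)
def w6139 : PV o6139 := fun P h => h.p 0 3 13 20 (by decide +kernel)
def w6140 : PV o6140 := fun P h => h.p 0 3 12 20 (by decide +kernel)
def w6141 : PV o6141 := fun P h => h.p 0 3 5 20 (by decide +kernel)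
def w6142 : PV o6142 := fun P h => h.p 0 3 4 20 (by decide +kernel)
def w6143 : PV o6143 := fun P h => h.p 0 3 0 20 (by decide +kernel)
def w6144 : PV o6144 := fun P h => h.p 0 6 15 20 (by decide +kernel)
def w6145 : PV o6145 := fun P h => h.p 0 6 5 20 (by decide +kernel)
def w6146 : PV o6146 := fun P h => h.p 0 6 0 20 (by decide +kernel)
def w6147 : PV o6147 := fun P h => h.p 0 7 13 20 (by decide +kernel)
def w6148 : PV o6148 := fun P h => h.p 0 7 12 20 (by decide +kernel)
def w6149 : PV o6149 := fun P h => h.p 0 7 4 20 (by decide +kernel)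
def w6150 : PV o6150 := fun P h => h.d 0 20 (by decide +kernel)
def w6151 : PV o6151 := fun P h => h.p 0 1 15 21 (by decide +kernel)
def w6152 : PV o6152 := fun P h => h.p 0 1 13 21 (by decide +kernel)
def w6153 : PV o6153 := fun P h => h.p 0 1 12 21 (by decide +kernel)
def w6154 : PV o6154 := fun P h => h.p 0 1 5 21 (by decide +kernel)
def w6155 : PV o6155 := fun P h => h.p 0 1 4 21 (by decide +kernel)
def w6156 : PV o6156 := fun P h => h.p 0 1 0 21 (by decide +kernel)
def w6157 : PV o6157 := fun P h => h.p 0 2 13 21 (by decide +kernel)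
def w6158 : PV o6158 := fun P h => h.p 0 3 15 21 (by decide +kernel)
def w6159 : PV o6159 := fun P h => h.p 0 3 5 21 (by decide +kernel)
def w6160 : PV o6160 := fun P h => h.p 0 3 4 21 (by decide +kernel)
def w6161 : PV o6161 := fun P h => h.p 0 5 15 21 (by decide +kernel)
def w6162 : PV o6162 := fun P h => h.p 0 6 15 21 (by decide +kernel)
def w6163 : PV o6163 := fun P h => h.p 0 6 4 21 (by decide +kernel)
def w6164 : PV o6164 := fun P h => h.d 0 21 (by decide +kernel)
def w6165 : PV o6165 := fun P h => h.p 0 0 5 22 (by decide +kernel)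
def w6166 : PV o6166 := fun P h => h.p 0 1 15 22 (by decide +kernel)
def w6167 : PV o6167 := fun P h => h.p 0 1 13 22 (by decide +kernel)
def w6168 : PV o6168 := fun P h => h.p 0 1 12 22 (by decide +kernel)
def w6169 : PV o6169 := fun P h => h.p 0 1 5 22 (by decide +kernel)
def w6170 : PV o6170 := fun P h => h.p 0 3 13 22 (by decide +kernel)
def w6171 : PV o6171 := fun P h => h.p 0 3 12 22 (by decide +kernel)
def w6172 : PV o6172 := fun P h => h.p 0 4 13 22 (by decide +kernel)
def w6173 : PV o6173 := fun P h => h.p 0 5 15 22 (by decide +kernel)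
def w6174 : PV o6174 := fun P h => h.p 0 6 15 22 (by decide +kernel)
def w6175 : PV o6175 := fun P h => h.p 0 6 13 22 (by decide +kernel)
def w6176 : PV o6176 := fun P h => h.p 0 6 12 22 (by decide +kernel)
def w6177 : PV o6177 := fun P h => h.p 0 6 0 22 (by decide +kernel)
def w6178 : PV o6178 := fun P h => h.p 0 7 4 22 (by decide +kernel)
def w6179 : PV o6179 := fun P h => h.d 0 22 (by decide +kernel)
def w6180 : PV o6180 := fun P h => h.p 0 1 15 23 (by decide +kernel)
def w6181 : PV o6181 := fun P h => h.p 0 1 13 23 (by decide +kernel)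
def w6182 : PV o6182 := fun P h => h.p 0 1 12 23 (by decide +kernel)
def w6183 : PV o6183 := fun P h => h.p 0 1 5 23 (by decide +kernel)
def w6184 : PV o6184 := fun P h => h.p 0 3 15 23 (by decide +kernel)
def w6185 : PV o6185 := fun P h => h.p 0 4 15 23 (by decide +kernel)
def w6186 : PV o6186 := fun P h => h.p 0 5 15 23 (by decide +kernel)
def w6187 : PV o6187 := fun P h => h.p 0 6 15 23 (by decide +kernel)
def w6188 : PV o6188 := fun P h => h.p 0 6 12 23 (by decide +kernel)
def w6189 : PV o6189 := fun P h => h.p 0 6 0 23 (by decide +kernel)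
def w6190 : PV o6190 := fun P h => h.d 0 23 (by decide +kernel)
def w6191 : PV o6191 := fun P h => h.p 0 0 12 24 (by decide +kernel)
def w6192 : PV o6192 := fun P h => h.p 0 1 15 24 (by decide +kernel)
def w6193 : PV o6193 := fun P h => h.p 0 1 13 24 (by decide +kernel)
def w6194 : PV o6194 := fun P h => h.p 0 1 12 24 (by decide +kernel)
def w6195 : PV o6195 := fun P h => h.p 0 1 5 24 (by decide +kernel)
def w6196 : PV o6196 := fun P h => h.p 0 1 4 24 (by decide +kernel)
def w6197 : PV o6197 := fun P h => h.p 0 1 0 24 (by decide +kernel)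
def w6198 : PV o6198 := fun P h => h.p 0 2 13 24 (by decide +kernel)
def w6199 : PV o6199 := fun P h => h.p 0 2 12 24 (by decide +kernel)
def w6200 : PV o6200 := fun P h => h.p 0 2 5 24 (by decide +kernel)
def w6201 : PV o6201 := fun P h => h.p 0 2 0 24 (by decide +kernel)
def w6202 : PV o6202 := fun P h => h.p 0 3 15 24 (by decide +kernel)
def w6203 : PV o6203 := fun P h => h.p 0 3 13 24 (by decide +kernel)
def w6204 : PV o6204 := fun P h => h.p 0 3 12 24 (by decide +kernel)
def w6205 : PV o6205 := fun P h => h.p 0 3 4 24 (by decide +kernel)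
def w6206 : PV o6206 := fun P h => h.p 0 3 0 24 (by decide +kernel)
def w6207 : PV o6207 := fun P h => h.p 0 5 12 24 (by decide +kernel)
def w6208 : PV o6208 := fun P h => h.p 0 6 15 24 (by decide +kernel)
def w6209 : PV o6209 := fun P h => h.p 0 6 12 24 (by decide +kernel)
def w6210 : PV o6210 := fun P h => h.p 0 7 0 24 (by decide +kernel)
def w6211 : PV o6211 := fun P h => h.d 0 24 (by decide +kernel)
def w6212 : PV o6212 := fun P h => h.p 0 0 12 25 (by decide +kernel)
def w6213 : PV o6213 := fun P h => h.p 0 1 15 25 (by decide +kernel)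
def w6214 : PV o6214 := fun P h => h.p 0 1 13 25 (by decide +kernel)
def w6215 : PV o6215 := fun P h => h.p 0 1 12 25 (by decide +kernel)
def w6216 : PV o6216 := fun P h => h.p 0 1 5 25 (by decide +kernel)
def w6217 : PV o6217 := fun P h => h.p 0 1 4 25 (by decide +kernel)
def w6218 : PV o6218 := fun P h => h.p 0 2 15 25 (by decide +kernel)
def w6219 : PV o6219 := fun P h => h.p 0 2 4 25 (by decide +kernel)
def w6220 : PV o6220 := fun P h => h.p 0 3 15 25 (by decide +kernel)
def w6221 : PV o6221 := fun P h => h.p 0 3 12 25 (by decide +kernel)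
def w6222 : PV o6222 := fun P h => h.p 0 3 4 25 (by decide +kernel)
def w6223 : PV o6223 := fun P h => h.p 0 3 0 25 (by decide +kernel)
def w6224 : PV o6224 := fun P h => h.p 0 7 15 25 (by decide +kernel)
def w6225 : PV o6225 := fun P h => h.p 0 7 0 25 (by decide +kernel)
def w6226 : PV o6226 := fun P h => h.d 0 25 (by decide +kernel)
def w6227 : PV o6227 := fun P h => h.p 0 1 15 26 (by decide +kernel)
def w6228 : PV o6228 := fun P h => h.p 0 1 13 26 (by decide +kernel)
def w6229 : PV o6229 := fun P h => h.p 0 1 12 26 (by decide +kernel)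
def w6230 : PV o6230 := fun P h => h.p 0 1 5 26 (by decide +kernel)
def w6231 : PV o6231 := fun P h => h.p 0 1 4 26 (by decide +kernel)
def w6232 : PV o6232 := fun P h => h.p 0 1 0 26 (by decide +kernel)
def w6233 : PV o6233 := fun P h => h.p 0 2 13 26 (by decide +kernel)
def w6234 : PV o6234 := fun P h => h.p 0 2 12 26 (by decide +kernel)
def w6235 : PV o6235 := fun P h => h.p 0 3 15 26 (by decide +kernel)
def w6236 : PV o6236 := fun P h => h.p 0 3 13 26 (by decide +kernel)
def w6237 : PV o6237 := fun P h => h.p 0 3 12 26 (by decide +kernel)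
def w6238 : PV o6238 := fun P h => h.p 0 3 5 26 (by decide +kernel)
def w6239 : PV o6239 := fun P h => h.p 0 3 4 26 (by decide +kernel)
def w6240 : PV o6240 := fun P h => h.p 0 3 0 26 (by decide +kernel)
def w6241 : PV o6241 := fun P h => h.p 0 4 13 26 (by decide +kernel)
def w6242 : PV o6242 := fun P h => h.p 0 6 15 26 (by decide +kernel)
def w6243 : PV o6243 := fun P h => h.p 0 6 12 26 (by decide +kernel)
def w6244 : PV o6244 := fun P h => h.p 0 6 5 26 (by decide +kernel)
def w6245 : PV o6245 := fun P h => h.p 0 6 4 26 (by decide +kernel)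
def w6246 : PV o6246 := fun P h => h.p 0 6 0 26 (by decide +kernel)
def w6247 : PV o6247 := fun P h => h.p 0 7 15 26 (by decide +kernel)
def w6248 : PV o6248 := fun P h => h.p 0 7 12 26 (by decide +kernel)
def w6249 : PV o6249 := fun P h => h.p 0 7 5 26 (by decide +kernel)
def w6250 : PV o6250 := fun P h => h.p 0 7 4 26 (by decide +kernel)
def w6251 : PV o6251 := fun P h => h.p 0 7 0 26 (by decide +kernel)
def w6252 : PV o6252 := fun P h => h.d 0 26 (by decide +kernel)
def w6253 : PV o6253 := fun P h => h.p 0 1 15 27 (by decide +kernel)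
def w6254 : PV o6254 := fun P h => h.p 0 1 13 27 (by decide +kernel)
def w6255 : PV o6255 := fun P h => h.p 0 1 12 27 (by decide +kernel)
def w6256 : PV o6256 := fun P h => h.p 0 1 5 27 (by decide +kernel)
def w6257 : PV o6257 := fun P h => h.p 0 1 4 27 (by decide +kernel)
def w6258 : PV o6258 := fun P h => h.p 0 3 15 27 (by decide +kernel)
def w6259 : PV o6259 := fun P h => h.p 0 6 15 27 (by decide +kernel)
def w6260 : PV o6260 := fun P h => h.p 0 7 15 27 (by decide +kernel)
def w6261 : PV o6261 := fun P h => h.d 0 27 (by decide +kernel)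
def w6262 : PV o6262 := fun P h => h.p 0 1 15 28 (by decide +kernel)
def w6263 : PV o6263 := fun P h => h.p 0 1 13 28 (by decide +kernel)
def w6264 : PV o6264 := fun P h => h.p 0 1 12 28 (by decide +kernel)
def w6265 : PV o6265 := fun P h => h.p 0 1 5 28 (by decide +kernel)
def w6266 : PV o6266 := fun P h => h.p 0 2 12 28 (by decide +kernel)
def w6267 : PV o6267 := fun P h => h.p 0 2 5 28 (by decide +kernel)
def w6268 : PV o6268 := fun P h => h.p 0 3 15 28 (by decide +kernel)
def w6269 : PV o6269 := fun P h => h.p 0 3 13 28 (by decide +kernel)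
def w6270 : PV o6270 := fun P h => h.p 0 3 12 28 (by decide +kernel)
def w6271 : PV o6271 := fun P h => h.p 0 3 5 28 (by decide +kernel)
def w6272 : PV o6272 := fun P h => h.p 0 3 4 28 (by decide +kernel)
def w6273 : PV o6273 := fun P h => h.p 0 3 0 28 (by decide +kernel)
def w6274 : PV o6274 := fun P h => h.p 0 6 15 28 (by decide +kernel)
def w6275 : PV o6275 := fun P h => h.p 0 6 12 28 (by decide +kernel)
def w6276 : PV o6276 := fun P h => h.p 0 6 5 28 (by decide +kernel)
def w6277 : PV o6277 := fun P h => h.p 0 6 0 28 (by decide +kernel)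
def w6278 : PV o6278 := fun P h => h.p 0 7 12 28 (by decide +kernel)
def w6279 : PV o6279 := fun P h => h.p 0 7 0 28 (by decide +kernel)
def w6280 : PV o6280 := fun P h => h.d 0 28 (by decide +kernel)
def w6281 : PV o6281 := fun P h => h.p 0 1 15 29 (by decide +kernel)
def w6282 : PV o6282 := fun P h => h.p 0 1 13 29 (by decide +kernel)
def w6283 : PV o6283 := fun P h => h.p 0 1 12 29 (by decide +kernel)
def w6284 : PV o6284 := fun P h => h.p 0 1 5 29 (by decide +kernel)
def w6285 : PV o6285 := fun P h => h.p 0 3 15 29 (by decide +kernel)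
def w6286 : PV o6286 := fun P h => h.p 0 3 13 29 (by decide +kernel)
def w6287 : PV o6287 := fun P h => h.p 0 3 12 29 (by decide +kernel)
def w6288 : PV o6288 := fun P h => h.p 0 5 15 29 (by decide +kernel)
def w6289 : PV o6289 := fun P h => h.p 0 6 15 29 (by decide +kernel)
def w6290 : PV o6290 := fun P h => h.p 0 6 12 29 (by decide +kernel)
def w6291 : PV o6291 := fun P h => h.p 0 6 4 29 (by decide +kernel)
def w6292 : PV o6292 := fun P h => h.p 0 6 0 29 (by decide +kernel)
def w6293 : PV o6293 := fun P h => h.p 0 7 13 29 (by decide +kernel)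
def w6294 : PV o6294 := fun P h => h.p 0 7 0 29 (by decide +kernel)
def w6295 : PV o6295 := fun P h => h.d 0 29 (by decide +kernel)
def w6296 : PV o6296 := fun P h => h.u 0 29 (by decide +kernel)
def w6297 : PV o6297 := fun P h => h.p 0 1 15 30 (by decide +kernel)
def w6298 : PV o6298 := fun P h => h.p 0 1 13 30 (by decide +kernel)
def w6299 : PV o6299 := fun P h => h.p 0 1 12 30 (by decide +kernel)
def w6300 : PV o6300 := fun P h => h.p 0 1 5 30 (by decide +kernel)
def w6301 : PV o6301 := fun P h => h.p 0 1 0 30 (by decide +kernel)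
def w6302 : PV o6302 := fun P h => h.p 0 2 5 30 (by decide +kernel)
def w6303 : PV o6303 := fun P h => h.p 0 3 15 30 (by decide +kernel)
def w6304 : PV o6304 := fun P h => h.p 0 3 13 30 (by decide +kernel)
def w6305 : PV o6305 := fun P h => h.p 0 3 5 30 (by decide +kernel)
def w6306 : PV o6306 := fun P h => h.p 0 4 15 30 (by decide +kernel)
def w6307 : PV o6307 := fun P h => h.p 0 6 15 30 (by decide +kernel)
def w6308 : PV o6308 := fun P h => h.p 0 6 13 30 (by decide +kernel)
def w6309 : PV o6309 := fun P h => h.p 0 6 12 30 (by decide +kernel)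
def w6310 : PV o6310 := fun P h => h.p 0 6 5 30 (by decide +kernel)
def w6311 : PV o6311 := fun P h => h.p 0 6 4 30 (by decide +kernel)
def w6312 : PV o6312 := fun P h => h.p 0 6 0 30 (by decide +kernel)
def w6313 : PV o6313 := fun P h => h.p 0 7 13 30 (by decide +kernel)
def w6314 : PV o6314 := fun P h => h.p 0 7 12 30 (by decide +kernel)
def w6315 : PV o6315 := fun P h => h.d 0 30 (by decide +kernel)
def w6316 : PV o6316 := fun P h => h.p 0 1 15 31 (by decide +kernel)
def w6317 : PV o6317 := fun P h => h.p 0 1 12 31 (by decide +kernel)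
def w6318 : PV o6318 := fun P h => h.p 0 1 5 31 (by decide +kernel)
def w6319 : PV o6319 := fun P h => h.p 0 3 15 31 (by decide +kernel)
def w6320 : PV o6320 := fun P h => h.p 0 4 15 31 (by decide +kernel)
def w6321 : PV o6321 := fun P h => h.p 0 6 15 31 (by decide +kernel)
def w6322 : PV o6322 := fun P h => h.d 0 31 (by decide +kernel)
def w6323 : PV o6323 := fun P h => h.p 1 3 0 0 (by decide +kernel)
def w6324 : PV o6324 := fun P h => h.p 1 7 13 0 (by decide +kernel)
def w6325 : PV o6325 := fun P h => h.p 1 7 5 0 (by decide +kernel)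
def w6326 : PV o6326 := fun P h => h.p 1 7 0 0 (by decide +kernel)
def w6327 : PV o6327 := fun P h => h.p 1 0 4 1 (by decide +kernel)
def w6328 : PV o6328 := fun P h => h.p 1 0 0 1 (by decide +kernel)
def w6329 : PV o6329 := fun P h => h.p 1 7 13 1 (by decide +kernel)
def w6330 : PV o6330 := fun P h => h.p 1 7 12 1 (by decide +kernel)
def w6331 : PV o6331 := fun P h => h.p 1 7 5 1 (by decide +kernel)
def w6332 : PV o6332 := fun P h => h.p 1 7 0 1 (by decide +kernel)
def w6333 : PV o6333 := fun P h => h.u 1 1 (by decide +kernel)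
def w6334 : PV o6334 := fun P h => h.p 1 0 12 2 (by decide +kernel)
def w6335 : PV o6335 := fun P h => h.p 1 0 4 2 (by decide +kernel)
def w6336 : PV o6336 := fun P h => h.p 1 0 0 2 (by decide +kernel)
def w6337 : PV o6337 := fun P h => h.p 1 7 13 2 (by decide +kernel)
def w6338 : PV o6338 := fun P h => h.p 1 7 12 2 (by decide +kernel)
def w6339 : PV o6339 := fun P h => h.p 1 7 5 2 (by decide +kernel)
def w6340 : PV o6340 := fun P h => h.p 1 7 4 2 (by decide +kernel)
def w6341 : PV o6341 := fun P h => h.p 1 7 0 2 (by decide +kernel)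
def w6342 : PV o6342 := fun P h => h.u 1 2 (by decide +kernel)
def w6343 : PV o6343 := fun P h => h.p 1 0 5 3 (by decide +kernel)
def w6344 : PV o6344 := fun P h => h.p 1 1 5 3 (by decide +kernel)
def w6345 : PV o6345 := fun P h => h.p 1 4 0 3 (by decide +kernel)
def w6346 : PV o6346 := fun P h => h.p 1 5 15 3 (by decide +kernel)
def w6347 : PV o6347 := fun P h => h.p 1 7 15 3 (by decide +kernel)
def w6348 : PV o6348 := fun P h => h.p 1 7 13 3 (by decide +kernel)
def w6349 : PV o6349 := fun P h => h.p 1 7 12 3 (by decide +kernel)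
def w6350 : PV o6350 := fun P h => h.p 1 7 5 3 (by decide +kernel)
def w6351 : PV o6351 := fun P h => h.p 1 7 4 3 (by decide +kernel)
def w6352 : PV o6352 := fun P h => h.p 1 7 0 3 (by decide +kernel)
def w6353 : PV o6353 := fun P h => h.u 1 3 (by decide +kernel)
def w6354 : PV o6354 := fun P h => h.p 1 0 4 4 (by decide +kernel)
def w6355 : PV o6355 := fun P h => h.p 1 1 12 4 (by decide +kernel)
def w6356 : PV o6356 := fun P h => h.p 1 3 4 4 (by decide +kernel)
def w6357 : PV o6357 := fun P h => h.p 1 4 12 4 (by decide +kernel)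
def w6358 : PV o6358 := fun P h => h.p 1 7 13 4 (by decide +kernel)
def w6359 : PV o6359 := fun P h => h.p 1 7 12 4 (by decide +kernel)
def w6360 : PV o6360 := fun P h => h.p 1 7 5 4 (by decide +kernel)
def w6361 : PV o6361 := fun P h => h.p 1 7 0 4 (by decide +kernel)
def w6362 : PV o6362 := fun P h => h.d 1 4 (by decide +kernel)
def w6363 : PV o6363 := fun P h => h.u 1 4 (by decide +kernel)
def w6364 : PV o6364 := fun P h => h.p 1 0 12 5 (by decide +kernel)
def w6365 : PV o6365 := fun P h => h.p 1 0 4 5 (by decide +kernel)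
def w6366 : PV o6366 := fun P h => h.p 1 0 0 5 (by decide +kernel)
def w6367 : PV o6367 := fun P h => h.p 1 6 15 5 (by decide +kernel)
def w6368 : PV o6368 := fun P h => h.p 1 7 15 5 (by decide +kernel)
def w6369 : PV o6369 := fun P h => h.p 1 7 13 5 (by decide +kernel)
def w6370 : PV o6370 := fun P h => h.p 1 7 12 5 (by decide +kernel)
def w6371 : PV o6371 := fun P h => h.p 1 7 5 5 (by decide +kernel)
def w6372 : PV o6372 := fun P h => h.p 1 7 4 5 (by decide +kernel)
def w6373 : PV o6373 := fun P h => h.p 1 7 0 5 (by decide +kernel)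
def w6374 : PV o6374 := fun P h => h.u 1 5 (by decide +kernel)
def w6375 : PV o6375 := fun P h => h.p 1 3 13 6 (by decide +kernel)
def w6376 : PV o6376 := fun P h => h.p 1 3 5 6 (by decide +kernel)
def w6377 : PV o6377 := fun P h => h.p 1 7 15 6 (by decide +kernel)
def w6378 : PV o6378 := fun P h => h.p 1 7 13 6 (by decide +kernel)
def w6379 : PV o6379 := fun P h => h.p 1 7 5 6 (by decide +kernel)
def w6380 : PV o6380 := fun P h => h.p 1 7 4 6 (by decide +kernel)
def w6381 : PV o6381 := fun P h => h.p 1 7 0 6 (by decide +kernel)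
def w6382 : PV o6382 := fun P h => h.u 1 6 (by decide +kernel)
def w6383 : PV o6383 := fun P h => h.p 1 0 15 7 (by decide +kernel)
def w6384 : PV o6384 := fun P h => h.p 1 0 5 7 (by decide +kernel)
def w6385 : PV o6385 := fun P h => h.p 1 0 4 7 (by decide +kernel)
def w6386 : PV o6386 := fun P h => h.p 1 1 15 7 (by decide +kernel)
def w6387 : PV o6387 := fun P h => h.p 1 1 13 7 (by decide +kernel)
def w6388 : PV o6388 := fun P h => h.p 1 7 13 7 (by decide +kernel)
def w6389 : PV o6389 := fun P h => h.p 1 7 5 7 (by decide +kernel)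
def w6390 : PV o6390 := fun P h => h.p 1 7 0 7 (by decide +kernel)
def w6391 : PV o6391 := fun P h => h.u 1 7 (by decide +kernel)
def w6392 : PV o6392 := fun P h => h.p 1 0 4 8 (by decide +kernel)
def w6393 : PV o6393 := fun P h => h.p 1 0 0 8 (by decide +kernel)
def w6394 : PV o6394 := fun P h => h.p 1 1 4 8 (by decide +kernel)
def w6395 : PV o6395 := fun P h => h.p 1 1 0 8 (by decide +kernel)
def w6396 : PV o6396 := fun P h => h.p 1 2 4 8 (by decide +kernel)
def w6397 : PV o6397 := fun P h => h.p 1 2 0 8 (by decide +kernel)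
def w6398 : PV o6398 := fun P h => h.p 1 3 0 8 (by decide +kernel)
def w6399 : PV o6399 := fun P h => h.p 1 5 13 8 (by decide +kernel)
def w6400 : PV o6400 := fun P h => h.p 1 5 12 8 (by decide +kernel)
def w6401 : PV o6401 := fun P h => h.p 1 5 4 8 (by decide +kernel)
def w6402 : PV o6402 := fun P h => h.p 1 5 0 8 (by decide +kernel)
def w6403 : PV o6403 := fun P h => h.p 1 6 4 8 (by decide +kernel)
def w6404 : PV o6404 := fun P h => h.p 1 6 0 8 (by decide +kernel)
def w6405 : PV o6405 := fun P h => h.p 1 7 13 8 (by decide +kernel)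
def w6406 : PV o6406 := fun P h => h.p 1 7 12 8 (by decide +kernel)
def w6407 : PV o6407 := fun P h => h.p 1 7 5 8 (by decide +kernel)
def w6408 : PV o6408 := fun P h => h.p 1 7 4 8 (by decide +kernel)
def w6409 : PV o6409 := fun P h => h.p 1 7 0 8 (by decide +kernel)
def w6410 : PV o6410 := fun P h => h.u 1 8 (by decide +kernel)
def w6411 : PV o6411 := fun P h => h.p 1 0 4 9 (by decide +kernel)
def w6412 : PV o6412 := fun P h => h.p 1 6 5 9 (by decide +kernel)
def w6413 : PV o6413 := fun P h => h.p 1 7 13 9 (by decide +kernel)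
def w6414 : PV o6414 := fun P h => h.p 1 7 12 9 (by decide +kernel)
def w6415 : PV o6415 := fun P h => h.p 1 7 5 9 (by decide +kernel)
def w6416 : PV o6416 := fun P h => h.p 1 7 4 9 (by decide +kernel)
def w6417 : PV o6417 := fun P h => h.p 1 7 0 9 (by decide +kernel)
def w6418 : PV o6418 := fun P h => h.d 1 9 (by decide +kernel)
def w6419 : PV o6419 := fun P h => h.u 1 9 (by decide +kernel)
def w6420 : PV o6420 := fun P h => h.p 1 0 12 10 (by decide +kernel)
def w6421 : PV o6421 := fun P h => h.p 1 0 5 10 (by decide +kernel)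
def w6422 : PV o6422 := fun P h => h.p 1 0 4 10 (by decide +kernel)
def w6423 : PV o6423 := fun P h => h.p 1 0 0 10 (by decide +kernel)
def w6424 : PV o6424 := fun P h => h.p 1 2 0 10 (by decide +kernel)
def w6425 : PV o6425 := fun P h => h.p 1 5 15 10 (by decide +kernel)
def w6426 : PV o6426 := fun P h => h.p 1 5 12 10 (by decide +kernel)
def w6427 : PV o6427 := fun P h => h.p 1 5 4 10 (by decide +kernel)
def w6428 : PV o6428 := fun P h => h.p 1 6 0 10 (by decide +kernel)
def w6429 : PV o6429 := fun P h => h.p 1 7 15 10 (by decide +kernel)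
def w6430 : PV o6430 := fun P h => h.p 1 7 13 10 (by decide +kernel)
def w6431 : PV o6431 := fun P h => h.p 1 7 12 10 (by decide +kernel)
def w6432 : PV o6432 := fun P h => h.p 1 7 5 10 (by decide +kernel)
def w6433 : PV o6433 := fun P h => h.p 1 7 4 10 (by decide +kernel)
def w6434 : PV o6434 := fun P h => h.p 1 7 0 10 (by decide +kernel)
def w6435 : PV o6435 := fun P h => h.d 1 10 (by decide +kernel)
def w6436 : PV o6436 := fun P h => h.u 1 10 (by decide +kernel)
def w6437 : PV o6437 := fun P h => h.p 1 0 15 11 (by decide +kernel)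
def w6438 : PV o6438 := fun P h => h.p 1 0 5 11 (by decide +kernel)
def w6439 : PV o6439 := fun P h => h.p 1 0 4 11 (by decide +kernel)
def w6440 : PV o6440 := fun P h => h.p 1 1 5 11 (by decide +kernel)
def w6441 : PV o6441 := fun P h => h.p 1 4 0 11 (by decide +kernel)
def w6442 : PV o6442 := fun P h => h.p 1 5 15 11 (by decide +kernel)
def w6443 : PV o6443 := fun P h => h.p 1 5 13 11 (by decide +kernel)
def w6444 : PV o6444 := fun P h => h.p 1 5 12 11 (by decide +kernel)
def w6445 : PV o6445 := fun P h => h.p 1 5 5 11 (by decide +kernel)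
def w6446 : PV o6446 := fun P h => h.p 1 5 4 11 (by decide +kernel)
def w6447 : PV o6447 := fun P h => h.p 1 5 0 11 (by decide +kernel)
def w6448 : PV o6448 := fun P h => h.p 1 6 0 11 (by decide +kernel)
def w6449 : PV o6449 := fun P h => h.p 1 7 15 11 (by decide +kernel)
def w6450 : PV o6450 := fun P h => h.p 1 7 13 11 (by decide +kernel)
def w6451 : PV o6451 := fun P h => h.p 1 7 12 11 (by decide +kernel)
def w6452 : PV o6452 := fun P h => h.p 1 7 5 11 (by decide +kernel)
def w6453 : PV o6453 := fun P h => h.p 1 7 4 11 (by decide +kernel)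
def w6454 : PV o6454 := fun P h => h.p 1 7 0 11 (by decide +kernel)
def w6455 : PV o6455 := fun P h => h.d 1 11 (by decide +kernel)
def w6456 : PV o6456 := fun P h => h.u 1 11 (by decide +kernel)
def w6457 : PV o6457 := fun P h => h.p 1 0 12 12 (by decide +kernel)
def w6458 : PV o6458 := fun P h => h.p 1 0 4 12 (by decide +kernel)
def w6459 : PV o6459 := fun P h => h.p 1 0 0 12 (by decide +kernel)
def w6460 : PV o6460 := fun P h => h.p 1 1 12 12 (by decide +kernel)
def w6461 : PV o6461 := fun P h => h.p 1 2 4 12 (by decide +kernel)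
def w6462 : PV o6462 := fun P h => h.p 1 2 0 12 (by decide +kernel)
def w6463 : PV o6463 := fun P h => h.p 1 3 12 12 (by decide +kernel)
def w6464 : PV o6464 := fun P h => h.p 1 3 4 12 (by decide +kernel)
def w6465 : PV o6465 := fun P h => h.p 1 4 5 12 (by decide +kernel)
def w6466 : PV o6466 := fun P h => h.p 1 5 15 12 (by decide +kernel)
def w6467 : PV o6467 := fun P h => h.p 1 5 13 12 (by decide +kernel)
def w6468 : PV o6468 := fun P h => h.p 1 5 12 12 (by decide +kernel)
def w6469 : PV o6469 := fun P h => h.p 1 5 0 12 (by decide +kernel)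
def w6470 : PV o6470 := fun P h => h.p 1 6 4 12 (by decide +kernel)
def w6471 : PV o6471 := fun P h => h.p 1 6 0 12 (by decide +kernel)
def w6472 : PV o6472 := fun P h => h.p 1 7 13 12 (by decide +kernel)
def w6473 : PV o6473 := fun P h => h.p 1 7 12 12 (by decide +kernel)
def w6474 : PV o6474 := fun P h => h.p 1 7 5 12 (by decide +kernel)
def w6475 : PV o6475 := fun P h => h.p 1 7 4 12 (by decide +kernel)
def w6476 : PV o6476 := fun P h => h.p 1 7 0 12 (by decide +kernel)
def w6477 : PV o6477 := fun P h => h.d 1 12 (by decide +kernel)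
def w6478 : PV o6478 := fun P h => h.u 1 12 (by decide +kernel)
def w6479 : PV o6479 := fun P h => h.p 1 0 13 13 (by decide +kernel)
def w6480 : PV o6480 := fun P h => h.p 1 0 12 13 (by decide +kernel)
def w6481 : PV o6481 := fun P h => h.p 1 0 5 13 (by decide +kernel)
def w6482 : PV o6482 := fun P h => h.p 1 0 4 13 (by decide +kernel)
def w6483 : PV o6483 := fun P h => h.p 1 0 0 13 (by decide +kernel)
def w6484 : PV o6484 := fun P h => h.p 1 4 5 13 (by decide +kernel)
def w6485 : PV o6485 := fun P h => h.p 1 5 15 13 (by decide +kernel)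
def w6486 : PV o6486 := fun P h => h.p 1 6 15 13 (by decide +kernel)
def w6487 : PV o6487 := fun P h => h.p 1 6 13 13 (by decide +kernel)
def w6488 : PV o6488 := fun P h => h.p 1 6 12 13 (by decide +kernel)
def w6489 : PV o6489 := fun P h => h.p 1 6 5 13 (by decide +kernel)
def w6490 : PV o6490 := fun P h => h.p 1 6 0 13 (by decide +kernel)
def w6491 : PV o6491 := fun P h => h.p 1 7 15 13 (by decide +kernel)
def w6492 : PV o6492 := fun P h => h.p 1 7 13 13 (by decide +kernel)
def w6493 : PV o6493 := fun P h => h.p 1 7 12 13 (by decide +kernel)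
def w6494 : PV o6494 := fun P h => h.p 1 7 5 13 (by decide +kernel)
def w6495 : PV o6495 := fun P h => h.p 1 7 4 13 (by decide +kernel)
def w6496 : PV o6496 := fun P h => h.p 1 7 0 13 (by decide +kernel)
def w6497 : PV o6497 := fun P h => h.d 1 13 (by decide +kernel)
def w6498 : PV o6498 := fun P h => h.u 1 13 (by decide +kernel)
def w6499 : PV o6499 := fun P h => h.p 1 0 13 14 (by decide +kernel)
def w6500 : PV o6500 := fun P h => h.p 1 0 12 14 (by decide +kernel)
def w6501 : PV o6501 := fun P h => h.p 1 0 5 14 (by decide +kernel)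
def w6502 : PV o6502 := fun P h => h.p 1 0 4 14 (by decide +kernel)
def w6503 : PV o6503 := fun P h => h.p 1 2 13 14 (by decide +kernel)
def w6504 : PV o6504 := fun P h => h.p 1 2 0 14 (by decide +kernel)
def w6505 : PV o6505 := fun P h => h.p 1 3 13 14 (by decide +kernel)
def w6506 : PV o6506 := fun P h => h.p 1 3 5 14 (by decide +kernel)
def w6507 : PV o6507 := fun P h => h.p 1 4 15 14 (by decide +kernel)
def w6508 : PV o6508 := fun P h => h.p 1 4 13 14 (by decide +kernel)
def w6509 : PV o6509 := fun P h => h.p 1 4 12 14 (by decide +kernel)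
def w6510 : PV o6510 := fun P h => h.p 1 5 15 14 (by decide +kernel)
def w6511 : PV o6511 := fun P h => h.p 1 5 13 14 (by decide +kernel)
def w6512 : PV o6512 := fun P h => h.p 1 5 0 14 (by decide +kernel)
def w6513 : PV o6513 := fun P h => h.p 1 6 15 14 (by decide +kernel)
def w6514 : PV o6514 := fun P h => h.p 1 6 13 14 (by decide +kernel)
def w6515 : PV o6515 := fun P h => h.p 1 6 12 14 (by decide +kernel)
def w6516 : PV o6516 := fun P h => h.p 1 6 5 14 (by decide +kernel)
def w6517 : PV o6517 := fun P h => h.p 1 6 4 14 (by decide +kernel)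
def w6518 : PV o6518 := fun P h => h.p 1 6 0 14 (by decide +kernel)
def w6519 : PV o6519 := fun P h => h.p 1 7 15 14 (by decide +kernel)
def w6520 : PV o6520 := fun P h => h.p 1 7 13 14 (by decide +kernel)
def w6521 : PV o6521 := fun P h => h.p 1 7 12 14 (by decide +kernel)
def w6522 : PV o6522 := fun P h => h.p 1 7 5 14 (by decide +kernel)
def w6523 : PV o6523 := fun P h => h.p 1 7 4 14 (by decide +kernel)
def w6524 : PV o6524 := fun P h => h.p 1 7 0 14 (by decide +kernel)
def w6525 : PV o6525 := fun P h => h.d 1 14 (by decide +kernel)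
def w6526 : PV o6526 := fun P h => h.u 1 14 (by decide +kernel)
def w6527 : PV o6527 := fun P h => h.p 1 0 12 15 (by decide +kernel)
def w6528 : PV o6528 := fun P h => h.p 1 0 5 15 (by decide +kernel)
def w6529 : PV o6529 := fun P h => h.p 1 1 15 15 (by decide +kernel)
def w6530 : PV o6530 := fun P h => h.p 1 1 13 15 (by decide +kernel)
def w6531 : PV o6531 := fun P h => h.p 1 3 15 15 (by decide +kernel)
def w6532 : PV o6532 := fun P h => h.p 1 6 15 15 (by decide +kernel)
def w6533 : PV o6533 := fun P h => h.p 1 6 13 15 (by decide +kernel)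
def w6534 : PV o6534 := fun P h => h.p 1 6 12 15 (by decide +kernel)
def w6535 : PV o6535 := fun P h => h.p 1 6 5 15 (by decide +kernel)
def w6536 : PV o6536 := fun P h => h.p 1 6 4 15 (by decide +kernel)
def w6537 : PV o6537 := fun P h => h.p 1 7 15 15 (by decide +kernel)
def w6538 : PV o6538 := fun P h => h.p 1 7 13 15 (by decide +kernel)
def w6539 : PV o6539 := fun P h => h.p 1 7 12 15 (by decide +kernel)
def w6540 : PV o6540 := fun P h => h.p 1 7 5 15 (by decide +kernel)
def w6541 : PV o6541 := fun P h => h.p 1 7 4 15 (by decide +kernel)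
def w6542 : PV o6542 := fun P h => h.p 1 7 0 15 (by decide +kernel)
def w6543 : PV o6543 := fun P h => h.d 1 15 (by decide +kernel)
def w6544 : PV o6544 := fun P h => h.u 1 15 (by decide +kernel)
def w6545 : PV o6545 := fun P h => h.p 1 0 12 16 (by decide +kernel)
def w6546 : PV o6546 := fun P h => h.p 1 0 4 16 (by decide +kernel)
def w6547 : PV o6547 := fun P h => h.p 1 0 0 16 (by decide +kernel)
def w6548 : PV o6548 := fun P h => h.p 1 1 4 16 (by decide +kernel)
def w6549 : PV o6549 := fun P h => h.p 1 1 0 16 (by decide +kernel)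
def w6550 : PV o6550 := fun P h => h.p 1 2 4 16 (by decide +kernel)
def w6551 : PV o6551 := fun P h => h.p 1 2 0 16 (by decide +kernel)
def w6552 : PV o6552 := fun P h => h.p 1 3 0 16 (by decide +kernel)
def w6553 : PV o6553 := fun P h => h.p 1 5 13 16 (by decide +kernel)
def w6554 : PV o6554 := fun P h => h.p 1 5 4 16 (by decide +kernel)
def w6555 : PV o6555 := fun P h => h.p 1 5 0 16 (by decide +kernel)
def w6556 : PV o6556 := fun P h => h.p 1 7 12 16 (by decide +kernel)
def w6557 : PV o6557 := fun P h => h.p 1 7 5 16 (by decide +kernel)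
def w6558 : PV o6558 := fun P h => h.p 1 7 4 16 (by decide +kernel)
def w6559 : PV o6559 := fun P h => h.p 1 7 0 16 (by decide +kernel)
def w6560 : PV o6560 := fun P h => h.d 1 16 (by decide +kernel)
def w6561 : PV o6561 := fun P h => h.u 1 16 (by decide +kernel)
def w6562 : PV o6562 := fun P h => h.p 1 0 5 17 (by decide +kernel)
def w6563 : PV o6563 := fun P h => h.p 1 0 4 17 (by decide +kernel)
def w6564 : PV o6564 := fun P h => h.p 1 0 0 17 (by decide +kernel)
def w6565 : PV o6565 := fun P h => h.p 1 5 0 17 (by decide +kernel)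
def w6566 : PV o6566 := fun P h => h.p 1 7 12 17 (by decide +kernel)
def w6567 : PV o6567 := fun P h => h.p 1 7 5 17 (by decide +kernel)
def w6568 : PV o6568 := fun P h => h.p 1 7 4 17 (by decide +kernel)
def w6569 : PV o6569 := fun P h => h.p 1 7 0 17 (by decide +kernel)
def w6570 : PV o6570 := fun P h => h.d 1 17 (by decide +kernel)
def w6571 : PV o6571 := fun P h => h.u 1 17 (by decide +kernel)
def w6572 : PV o6572 := fun P h => h.p 1 0 12 18 (by decide +kernel)
def w6573 : PV o6573 := fun P h => h.p 1 0 5 18 (by decide +kernel)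
def w6574 : PV o6574 := fun P h => h.p 1 0 4 18 (by decide +kernel)
def w6575 : PV o6575 := fun P h => h.p 1 0 0 18 (by decide +kernel)
def w6576 : PV o6576 := fun P h => h.p 1 2 0 18 (by decide +kernel)
def w6577 : PV o6577 := fun P h => h.p 1 5 15 18 (by decide +kernel)
def w6578 : PV o6578 := fun P h => h.p 1 5 5 18 (by decide +kernel)
def w6579 : PV o6579 := fun P h => h.p 1 5 0 18 (by decide +kernel)
def w6580 : PV o6580 := fun P h => h.p 1 6 0 18 (by decide +kernel)
def w6581 : PV o6581 := fun P h => h.p 1 7 5 18 (by decide +kernel)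
def w6582 : PV o6582 := fun P h => h.p 1 7 4 18 (by decide +kernel)
def w6583 : PV o6583 := fun P h => h.p 1 7 0 18 (by decide +kernel)
def w6584 : PV o6584 := fun P h => h.d 1 18 (by decide +kernel)
def w6585 : PV o6585 := fun P h => h.u 1 18 (by decide +kernel)
def w6586 : PV o6586 := fun P h => h.p 1 0 12 19 (by decide +kernel)
def w6587 : PV o6587 := fun P h => h.p 1 0 5 19 (by decide +kernel)
def w6588 : PV o6588 := fun P h => h.p 1 0 4 19 (by decide +kernel)
def w6589 : PV o6589 := fun P h => h.p 1 0 0 19 (by decide +kernel)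
def w6590 : PV o6590 := fun P h => h.p 1 1 5 19 (by decide +kernel)
def w6591 : PV o6591 := fun P h => h.p 1 5 12 19 (by decide +kernel)
def w6592 : PV o6592 := fun P h => h.p 1 5 0 19 (by decide +kernel)
def w6593 : PV o6593 := fun P h => h.p 1 6 0 19 (by decide +kernel)
def w6594 : PV o6594 := fun P h => h.p 1 7 15 19 (by decide +kernel)
def w6595 : PV o6595 := fun P h => h.p 1 7 13 19 (by decide +kernel)
def w6596 : PV o6596 := fun P h => h.p 1 7 5 19 (by decide +kernel)
def w6597 : PV o6597 := fun P h => h.p 1 7 4 19 (by decide +kernel)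
def w6598 : PV o6598 := fun P h => h.p 1 7 0 19 (by decide +kernel)
def w6599 : PV o6599 := fun P h => h.d 1 19 (by decide +kernel)
def w6600 : PV o6600 := fun P h => h.u 1 19 (by decide +kernel)
def w6601 : PV o6601 := fun P h => h.p 1 0 4 20 (by decide +kernel)
def w6602 : PV o6602 := fun P h => h.p 1 1 12 20 (by decide +kernel)
def w6603 : PV o6603 := fun P h => h.p 1 3 4 20 (by decide +kernel)
def w6604 : PV o6604 := fun P h => h.p 1 5 15 20 (by decide +kernel)
def w6605 : PV o6605 := fun P h => h.p 1 5 12 20 (by decide +kernel)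
def w6606 : PV o6606 := fun P h => h.p 1 5 4 20 (by decide +kernel)
def w6607 : PV o6607 := fun P h => h.p 1 5 0 20 (by decide +kernel)
def w6608 : PV o6608 := fun P h => h.p 1 6 4 20 (by decide +kernel)
def w6609 : PV o6609 := fun P h => h.p 1 6 0 20 (by decide +kernel)
def w6610 : PV o6610 := fun P h => h.p 1 7 13 20 (by decide +kernel)
def w6611 : PV o6611 := fun P h => h.p 1 7 12 20 (by decide +kernel)
def w6612 : PV o6612 := fun P h => h.p 1 7 5 20 (by decide +kernel)
def w6613 : PV o6613 := fun P h => h.p 1 7 4 20 (by decide +kernel)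
def w6614 : PV o6614 := fun P h => h.p 1 7 0 20 (by decide +kernel)
def w6615 : PV o6615 := fun P h => h.d 1 20 (by decide +kernel)
def w6616 : PV o6616 := fun P h => h.u 1 20 (by decide +kernel)
def w6617 : PV o6617 := fun P h => h.p 1 0 13 21 (by decide +kernel)
def w6618 : PV o6618 := fun P h => h.p 1 0 12 21 (by decide +kernel)
def w6619 : PV o6619 := fun P h => h.p 1 0 4 21 (by decide +kernel)
def w6620 : PV o6620 := fun P h => h.p 1 2 15 21 (by decide +kernel)
def w6621 : PV o6621 := fun P h => h.p 1 4 13 21 (by decide +kernel)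
def w6622 : PV o6622 := fun P h => h.p 1 6 12 21 (by decide +kernel)
def w6623 : PV o6623 := fun P h => h.p 1 7 13 21 (by decide +kernel)
def w6624 : PV o6624 := fun P h => h.p 1 7 12 21 (by decide +kernel)
def w6625 : PV o6625 := fun P h => h.p 1 7 5 21 (by decide +kernel)
def w6626 : PV o6626 := fun P h => h.p 1 7 4 21 (by decide +kernel)
def w6627 : PV o6627 := fun P h => h.p 1 7 0 21 (by decide +kernel)
def w6628 : PV o6628 := fun P h => h.d 1 21 (by decide +kernel)
def w6629 : PV o6629 := fun P h => h.u 1 21 (by decide +kernel)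
def w6630 : PV o6630 := fun P h => h.p 1 0 12 22 (by decide +kernel)
def w6631 : PV o6631 := fun P h => h.p 1 0 4 22 (by decide +kernel)
def w6632 : PV o6632 := fun P h => h.p 1 2 15 22 (by decide +kernel)
def w6633 : PV o6633 := fun P h => h.p 1 2 13 22 (by decide +kernel)
def w6634 : PV o6634 := fun P h => h.p 1 3 13 22 (by decide +kernel)
def w6635 : PV o6635 := fun P h => h.p 1 3 5 22 (by decide +kernel)
def w6636 : PV o6636 := fun P h => h.p 1 4 13 22 (by decide +kernel)
def w6637 : PV o6637 := fun P h => h.p 1 5 12 22 (by decide +kernel)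
def w6638 : PV o6638 := fun P h => h.p 1 5 0 22 (by decide +kernel)
def w6639 : PV o6639 := fun P h => h.p 1 6 15 22 (by decide +kernel)
def w6640 : PV o6640 := fun P h => h.p 1 6 13 22 (by decide +kernel)
def w6641 : PV o6641 := fun P h => h.p 1 6 12 22 (by decide +kernel)
def w6642 : PV o6642 := fun P h => h.p 1 6 5 22 (by decide +kernel)
def w6643 : PV o6643 := fun P h => h.p 1 6 4 22 (by decide +kernel)
def w6644 : PV o6644 := fun P h => h.p 1 7 15 22 (by decide +kernel)
def w6645 : PV o6645 := fun P h => h.p 1 7 13 22 (by decide +kernel)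
def w6646 : PV o6646 := fun P h => h.p 1 7 12 22 (by decide +kernel)
def w6647 : PV o6647 := fun P h => h.p 1 7 5 22 (by decide +kernel)
def w6648 : PV o6648 := fun P h => h.p 1 7 4 22 (by decide +kernel)
def w6649 : PV o6649 := fun P h => h.p 1 7 0 22 (by decide +kernel)
def w6650 : PV o6650 := fun P h => h.d 1 22 (by decide +kernel)
def w6651 : PV o6651 := fun P h => h.u 1 22 (by decide +kernel)
def w6652 : PV o6652 := fun P h => h.p 1 0 5 23 (by decide +kernel)
def w6653 : PV o6653 := fun P h => h.p 1 1 15 23 (by decide +kernel)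
def w6654 : PV o6654 := fun P h => h.p 1 1 13 23 (by decide +kernel)
def w6655 : PV o6655 := fun P h => h.p 1 2 15 23 (by decide +kernel)
def w6656 : PV o6656 := fun P h => h.p 1 3 15 23 (by decide +kernel)
def w6657 : PV o6657 := fun P h => h.p 1 5 15 23 (by decide +kernel)
def w6658 : PV o6658 := fun P h => h.p 1 6 13 23 (by decide +kernel)
def w6659 : PV o6659 := fun P h => h.p 1 6 12 23 (by decide +kernel)
def w6660 : PV o6660 := fun P h => h.p 1 6 5 23 (by decide +kernel)
def w6661 : PV o6661 := fun P h => h.p 1 6 4 23 (by decide +kernel)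
def w6662 : PV o6662 := fun P h => h.p 1 6 0 23 (by decide +kernel)
def w6663 : PV o6663 := fun P h => h.p 1 7 15 23 (by decide +kernel)
def w6664 : PV o6664 := fun P h => h.p 1 7 13 23 (by decide +kernel)
def w6665 : PV o6665 := fun P h => h.p 1 7 12 23 (by decide +kernel)
def w6666 : PV o6666 := fun P h => h.p 1 7 5 23 (by decide +kernel)
def w6667 : PV o6667 := fun P h => h.p 1 0 12 24 (by decide +kernel)
def w6668 : PV o6668 := fun P h => h.p 1 0 4 24 (by decide +kernel)
def w6669 : PV o6669 := fun P h => h.p 1 0 0 24 (by decide +kernel)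
def w6670 : PV o6670 := fun P h => h.p 1 1 4 24 (by decide +kernel)
def w6671 : PV o6671 := fun P h => h.p 1 1 0 24 (by decide +kernel)
def w6672 : PV o6672 := fun P h => h.p 1 2 12 24 (by decide +kernel)
def w6673 : PV o6673 := fun P h => h.p 1 2 4 24 (by decide +kernel)
def w6674 : PV o6674 := fun P h => h.p 1 2 0 24 (by decide +kernel)
def w6675 : PV o6675 := fun P h => h.p 1 3 0 24 (by decide +kernel)
def w6676 : PV o6676 := fun P h => h.p 1 5 13 24 (by decide +kernel)
def w6677 : PV o6677 := fun P h => h.p 1 5 12 24 (by decide +kernel)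
def w6678 : PV o6678 := fun P h => h.p 1 5 5 24 (by decide +kernel)
def w6679 : PV o6679 := fun P h => h.p 1 5 4 24 (by decide +kernel)
def w6680 : PV o6680 := fun P h => h.p 1 5 0 24 (by decide +kernel)
def w6681 : PV o6681 := fun P h => h.p 1 6 4 24 (by decide +kernel)
def w6682 : PV o6682 := fun P h => h.p 1 6 0 24 (by decide +kernel)
def w6683 : PV o6683 := fun P h => h.p 1 7 15 24 (by decide +kernel)
def w6684 : PV o6684 := fun P h => h.p 1 7 13 24 (by decide +kernel)
def w6685 : PV o6685 := fun P h => h.p 1 7 12 24 (by decide +kernel)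
def w6686 : PV o6686 := fun P h => h.p 1 7 5 24 (by decide +kernel)
def w6687 : PV o6687 := fun P h => h.p 1 7 4 24 (by decide +kernel)
def w6688 : PV o6688 := fun P h => h.p 1 7 0 24 (by decide +kernel)
def w6689 : PV o6689 := fun P h => h.d 1 24 (by decide +kernel)
def w6690 : PV o6690 := fun P h => h.u 1 24 (by decide +kernel)
def w6691 : PV o6691 := fun P h => h.p 1 0 15 25 (by decide +kernel)
def w6692 : PV o6692 := fun P h => h.p 1 0 12 25 (by decide +kernel)
def w6693 : PV o6693 := fun P h => h.p 1 0 4 25 (by decide +kernel)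
def w6694 : PV o6694 := fun P h => h.p 1 7 15 25 (by decide +kernel)
def w6695 : PV o6695 := fun P h => h.p 1 7 13 25 (by decide +kernel)
def w6696 : PV o6696 := fun P h => h.p 1 7 12 25 (by decide +kernel)
def w6697 : PV o6697 := fun P h => h.p 1 7 5 25 (by decide +kernel)
def w6698 : PV o6698 := fun P h => h.p 1 7 4 25 (by decide +kernel)
def w6699 : PV o6699 := fun P h => h.p 1 7 0 25 (by decide +kernel)
def w6700 : PV o6700 := fun P h => h.d 1 25 (by decide +kernel)
def w6701 : PV o6701 := fun P h => h.u 1 25 (by decide +kernel)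
def w6702 : PV o6702 := fun P h => h.p 1 0 12 26 (by decide +kernel)
def w6703 : PV o6703 := fun P h => h.p 1 0 4 26 (by decide +kernel)
def w6704 : PV o6704 := fun P h => h.p 1 5 0 26 (by decide +kernel)
def w6705 : PV o6705 := fun P h => h.p 1 6 4 26 (by decide +kernel)
def w6706 : PV o6706 := fun P h => h.p 1 6 0 26 (by decide +kernel)
def w6707 : PV o6707 := fun P h => h.p 1 7 15 26 (by decide +kernel)
def w6708 : PV o6708 := fun P h => h.p 1 7 13 26 (by decide +kernel)
def w6709 : PV o6709 := fun P h => h.p 1 7 12 26 (by decide +kernel)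
def w6710 : PV o6710 := fun P h => h.p 1 7 5 26 (by decide +kernel)
def w6711 : PV o6711 := fun P h => h.p 1 7 4 26 (by decide +kernel)
def w6712 : PV o6712 := fun P h => h.p 1 7 0 26 (by decide +kernel)
def w6713 : PV o6713 := fun P h => h.d 1 26 (by decide +kernel)
def w6714 : PV o6714 := fun P h => h.u 1 26 (by decide +kernel)
def w6715 : PV o6715 := fun P h => h.p 1 0 5 27 (by decide +kernel)
def w6716 : PV o6716 := fun P h => h.p 1 0 4 27 (by decide +kernel)
def w6717 : PV o6717 := fun P h => h.p 1 1 5 27 (by decide +kernel)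
def w6718 : PV o6718 := fun P h => h.p 1 4 5 27 (by decide +kernel)
def w6719 : PV o6719 := fun P h => h.p 1 5 15 27 (by decide +kernel)
def w6720 : PV o6720 := fun P h => h.p 1 5 13 27 (by decide +kernel)
def w6721 : PV o6721 := fun P h => h.p 1 5 12 27 (by decide +kernel)
def w6722 : PV o6722 := fun P h => h.p 1 5 5 27 (by decide +kernel)
def w6723 : PV o6723 := fun P h => h.p 1 5 0 27 (by decide +kernel)
def w6724 : PV o6724 := fun P h => h.p 1 6 13 27 (by decide +kernel)
def w6725 : PV o6725 := fun P h => h.p 1 6 5 27 (by decide +kernel)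
def w6726 : PV o6726 := fun P h => h.p 1 7 15 27 (by decide +kernel)
def w6727 : PV o6727 := fun P h => h.p 1 7 13 27 (by decide +kernel)
def w6728 : PV o6728 := fun P h => h.p 1 7 5 27 (by decide +kernel)
def w6729 : PV o6729 := fun P h => h.p 1 7 4 27 (by decide +kernel)
def w6730 : PV o6730 := fun P h => h.p 1 7 0 27 (by decide +kernel)
def w6731 : PV o6731 := fun P h => h.d 1 27 (by decide +kernel)
def w6732 : PV o6732 := fun P h => h.u 1 27 (by decide +kernel)
def w6733 : PV o6733 := fun P h => h.p 1 0 12 28 (by decide +kernel)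
def w6734 : PV o6734 := fun P h => h.p 1 0 4 28 (by decide +kernel)
def w6735 : PV o6735 := fun P h => h.p 1 1 12 28 (by decide +kernel)
def w6736 : PV o6736 := fun P h => h.p 1 3 12 28 (by decide +kernel)
def w6737 : PV o6737 := fun P h => h.p 1 3 4 28 (by decide +kernel)
def w6738 : PV o6738 := fun P h => h.p 1 5 15 28 (by decide +kernel)
def w6739 : PV o6739 := fun P h => h.p 1 6 12 28 (by decide +kernel)
def w6740 : PV o6740 := fun P h => h.p 1 6 4 28 (by decide +kernel)
def w6741 : PV o6741 := fun P h => h.p 1 6 0 28 (by decide +kernel)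
def w6742 : PV o6742 := fun P h => h.p 1 7 15 28 (by decide +kernel)
def w6743 : PV o6743 := fun P h => h.p 1 7 13 28 (by decide +kernel)
def w6744 : PV o6744 := fun P h => h.p 1 7 12 28 (by decide +kernel)
def w6745 : PV o6745 := fun P h => h.p 1 7 5 28 (by decide +kernel)
def w6746 : PV o6746 := fun P h => h.p 1 7 4 28 (by decide +kernel)
def w6747 : PV o6747 := fun P h => h.p 1 7 0 28 (by decide +kernel)
def w6748 : PV o6748 := fun P h => h.d 1 28 (by decide +kernel)
def w6749 : PV o6749 := fun P h => h.u 1 28 (by decide +kernel)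
def w6750 : PV o6750 := fun P h => h.p 1 0 13 29 (by decide +kernel)
def w6751 : PV o6751 := fun P h => h.p 1 0 12 29 (by decide +kernel)
def w6752 : PV o6752 := fun P h => h.p 1 0 4 29 (by decide +kernel)
def w6753 : PV o6753 := fun P h => h.p 1 0 0 29 (by decide +kernel)
def w6754 : PV o6754 := fun P h => h.p 1 4 13 29 (by decide +kernel)
def w6755 : PV o6755 := fun P h => h.p 1 4 5 29 (by decide +kernel)
def w6756 : PV o6756 := fun P h => h.p 1 5 15 29 (by decide +kernel)
def w6757 : PV o6757 := fun P h => h.p 1 5 13 29 (by decide +kernel)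
def w6758 : PV o6758 := fun P h => h.p 1 5 12 29 (by decide +kernel)
def w6759 : PV o6759 := fun P h => h.p 1 5 5 29 (by decide +kernel)
def w6760 : PV o6760 := fun P h => h.p 1 5 0 29 (by decide +kernel)
def w6761 : PV o6761 := fun P h => h.p 1 6 15 29 (by decide +kernel)
def w6762 : PV o6762 := fun P h => h.p 1 7 15 29 (by decide +kernel)
def w6763 : PV o6763 := fun P h => h.p 1 7 13 29 (by decide +kernel)
def w6764 : PV o6764 := fun P h => h.p 1 7 12 29 (by decide +kernel)
def w6765 : PV o6765 := fun P h => h.p 1 7 5 29 (by decide +kernel)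
def w6766 : PV o6766 := fun P h => h.p 1 7 4 29 (by decide +kernel)
def w6767 : PV o6767 := fun P h => h.p 1 7 0 29 (by decide +kernel)
def w6768 : PV o6768 := fun P h => h.d 1 29 (by decide +kernel)
def w6769 : PV o6769 := fun P h => h.u 1 29 (by decide +kernel)
def w6770 : PV o6770 := fun P h => h.p 1 0 15 30 (by decide +kernel)
def w6771 : PV o6771 := fun P h => h.p 1 0 13 30 (by decide +kernel)
def w6772 : PV o6772 := fun P h => h.p 1 0 12 30 (by decide +kernel)
def w6773 : PV o6773 := fun P h => h.p 1 0 5 30 (by decide +kernel)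
def w6774 : PV o6774 := fun P h => h.p 1 0 4 30 (by decide +kernel)
def w6775 : PV o6775 := fun P h => h.p 1 0 0 30 (by decide +kernel)
def w6776 : PV o6776 := fun P h => h.p 1 2 15 30 (by decide +kernel)
def w6777 : PV o6777 := fun P h => h.p 1 2 13 30 (by decide +kernel)
def w6778 : PV o6778 := fun P h => h.p 1 2 12 30 (by decide +kernel)
def w6779 : PV o6779 := fun P h => h.p 1 2 0 30 (by decide +kernel)
def w6780 : PV o6780 := fun P h => h.p 1 3 13 30 (by decide +kernel)
def w6781 : PV o6781 := fun P h => h.p 1 3 5 30 (by decide +kernel)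
def w6782 : PV o6782 := fun P h => h.p 1 4 13 30 (by decide +kernel)
def w6783 : PV o6783 := fun P h => h.p 1 4 12 30 (by decide +kernel)
def w6784 : PV o6784 := fun P h => h.p 1 5 15 30 (by decide +kernel)
def w6785 : PV o6785 := fun P h => h.p 1 5 13 30 (by decide +kernel)
def w6786 : PV o6786 := fun P h => h.p 1 5 12 30 (by decide +kernel)
def w6787 : PV o6787 := fun P h => h.p 1 5 4 30 (by decide +kernel)
def w6788 : PV o6788 := fun P h => h.p 1 5 0 30 (by decide +kernel)
def w6789 : PV o6789 := fun P h => h.p 1 6 15 30 (by decide +kernel)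
def w6790 : PV o6790 := fun P h => h.p 1 6 13 30 (by decide +kernel)
def w6791 : PV o6791 := fun P h => h.p 1 6 12 30 (by decide +kernel)
def w6792 : PV o6792 := fun P h => h.p 1 6 5 30 (by decide +kernel)
def w6793 : PV o6793 := fun P h => h.p 1 6 4 30 (by decide +kernel)
def w6794 : PV o6794 := fun P h => h.p 1 6 0 30 (by decide +kernel)
def w6795 : PV o6795 := fun P h => h.p 1 7 15 30 (by decide +kernel)
def w6796 : PV o6796 := fun P h => h.p 1 7 13 30 (by decide +kernel)
def w6797 : PV o6797 := fun P h => h.p 1 7 12 30 (by decide +kernel)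
def w6798 : PV o6798 := fun P h => h.p 1 7 5 30 (by decide +kernel)
def w6799 : PV o6799 := fun P h => h.p 1 7 4 30 (by decide +kernel)
def w6800 : PV o6800 := fun P h => h.p 1 7 0 30 (by decide +kernel)
def w6801 : PV o6801 := fun P h => h.d 1 30 (by decide +kernel)
def w6802 : PV o6802 := fun P h => h.u 1 30 (by decide +kernel)
def w6803 : PV o6803 := fun P h => h.p 1 7 13 31 (by decide +kernel)
def w6804 : PV o6804 := fun P h => h.p 1 7 5 31 (by decide +kernel)
def w6805 : PV o6805 := fun P h => h.p 2 3 5 0 (by decide +kernel)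
def w6806 : PV o6806 := fun P h => h.p 2 3 0 0 (by decide +kernel)
def w6807 : PV o6807 := fun P h => h.p 2 3 5 1 (by decide +kernel)
def w6808 : PV o6808 := fun P h => h.p 2 3 4 1 (by decide +kernel)
def w6809 : PV o6809 := fun P h => h.p 2 3 0 1 (by decide +kernel)
def w6810 : PV o6810 := fun P h => h.p 2 1 13 2 (by decide +kernel)
def w6811 : PV o6811 := fun P h => h.p 2 1 12 2 (by decide +kernel)
def w6812 : PV o6812 := fun P h => h.p 2 1 4 2 (by decide +kernel)
def w6813 : PV o6813 := fun P h => h.p 2 1 0 2 (by decide +kernel)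
def w6814 : PV o6814 := fun P h => h.p 2 3 5 2 (by decide +kernel)
def w6815 : PV o6815 := fun P h => h.p 2 3 4 2 (by decide +kernel)
def w6816 : PV o6816 := fun P h => h.p 2 3 0 2 (by decide +kernel)
def w6817 : PV o6817 := fun P h => h.p 2 1 4 3 (by decide +kernel)
def w6818 : PV o6818 := fun P h => h.p 2 1 0 3 (by decide +kernel)
def w6819 : PV o6819 := fun P h => h.p 2 3 5 3 (by decide +kernel)
def w6820 : PV o6820 := fun P h => h.p 2 3 4 3 (by decide +kernel)
def w6821 : PV o6821 := fun P h => h.p 2 6 5 3 (by decide +kernel)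
def w6822 : PV o6822 := fun P h => h.p 2 3 5 4 (by decide +kernel)
def w6823 : PV o6823 := fun P h => h.p 2 3 0 4 (by decide +kernel)
def w6824 : PV o6824 := fun P h => h.p 2 1 15 5 (by decide +kernel)
def w6825 : PV o6825 := fun P h => h.p 2 3 5 5 (by decide +kernel)
def w6826 : PV o6826 := fun P h => h.p 2 1 15 6 (by decide +kernel)
def w6827 : PV o6827 := fun P h => h.p 2 1 0 6 (by decide +kernel)
def w6828 : PV o6828 := fun P h => h.p 2 3 5 6 (by decide +kernel)
def w6829 : PV o6829 := fun P h => h.p 2 3 0 6 (by decide +kernel)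
def w6830 : PV o6830 := fun P h => h.p 2 6 5 6 (by decide +kernel)
def w6831 : PV o6831 := fun P h => h.p 2 6 0 6 (by decide +kernel)
def w6832 : PV o6832 := fun P h => h.p 2 1 15 7 (by decide +kernel)
def w6833 : PV o6833 := fun P h => h.p 2 3 5 7 (by decide +kernel)
def w6834 : PV o6834 := fun P h => h.u 2 7 (by decide +kernel)
def w6835 : PV o6835 := fun P h => h.p 2 1 0 8 (by decide +kernel)
def w6836 : PV o6836 := fun P h => h.p 2 3 5 8 (by decide +kernel)
def w6837 : PV o6837 := fun P h => h.p 2 3 4 8 (by decide +kernel)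
def w6838 : PV o6838 := fun P h => h.p 2 3 0 8 (by decide +kernel)
def w6839 : PV o6839 := fun P h => h.p 2 3 12 9 (by decide +kernel)
def w6840 : PV o6840 := fun P h => h.p 2 3 5 9 (by decide +kernel)
def w6841 : PV o6841 := fun P h => h.p 2 3 4 9 (by decide +kernel)
def w6842 : PV o6842 := fun P h => h.p 2 3 0 9 (by decide +kernel)
def w6843 : PV o6843 := fun P h => h.d 2 9 (by decide +kernel)
def w6844 : PV o6844 := fun P h => h.p 2 1 5 10 (by decide +kernel)
def w6845 : PV o6845 := fun P h => h.p 2 1 0 10 (by decide +kernel)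
def w6846 : PV o6846 := fun P h => h.p 2 3 12 10 (by decide +kernel)
def w6847 : PV o6847 := fun P h => h.p 2 3 5 10 (by decide +kernel)
def w6848 : PV o6848 := fun P h => h.p 2 3 4 10 (by decide +kernel)
def w6849 : PV o6849 := fun P h => h.p 2 3 0 10 (by decide +kernel)
def w6850 : PV o6850 := fun P h => h.p 2 7 5 10 (by decide +kernel)
def w6851 : PV o6851 := fun P h => h.p 2 7 4 10 (by decide +kernel)
def w6852 : PV o6852 := fun P h => h.p 2 0 13 11 (by decide +kernel)
def w6853 : PV o6853 := fun P h => h.p 2 1 15 11 (by decide +kernel)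
def w6854 : PV o6854 := fun P h => h.p 2 1 13 11 (by decide +kernel)
def w6855 : PV o6855 := fun P h => h.p 2 1 12 11 (by decide +kernel)
def w6856 : PV o6856 := fun P h => h.p 2 3 15 11 (by decide +kernel)
def w6857 : PV o6857 := fun P h => h.p 2 3 13 11 (by decide +kernel)
def w6858 : PV o6858 := fun P h => h.p 2 3 12 11 (by decide +kernel)
def w6859 : PV o6859 := fun P h => h.p 2 3 5 11 (by decide +kernel)
def w6860 : PV o6860 := fun P h => h.p 2 3 4 11 (by decide +kernel)
def w6861 : PV o6861 := fun P h => h.p 2 3 0 11 (by decide +kernel)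
def w6862 : PV o6862 := fun P h => h.p 2 7 12 11 (by decide +kernel)
def w6863 : PV o6863 := fun P h => h.d 2 11 (by decide +kernel)
def w6864 : PV o6864 := fun P h => h.u 2 11 (by decide +kernel)
def w6865 : PV o6865 := fun P h => h.p 2 3 12 12 (by decide +kernel)
def w6866 : PV o6866 := fun P h => h.p 2 3 5 12 (by decide +kernel)
def w6867 : PV o6867 := fun P h => h.p 2 3 4 12 (by decide +kernel)
def w6868 : PV o6868 := fun P h => h.p 2 3 0 12 (by decide +kernel)
def w6869 : PV o6869 := fun P h => h.p 2 7 5 12 (by decide +kernel)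
def w6870 : PV o6870 := fun P h => h.p 2 7 4 12 (by decide +kernel)
def w6871 : PV o6871 := fun P h => h.p 2 7 0 12 (by decide +kernel)
def w6872 : PV o6872 := fun P h => h.d 2 12 (by decide +kernel)
def w6873 : PV o6873 := fun P h => h.p 2 1 15 13 (by decide +kernel)
def w6874 : PV o6874 := fun P h => h.p 2 1 12 13 (by decide +kernel)
def w6875 : PV o6875 := fun P h => h.p 2 3 15 13 (by decide +kernel)
def w6876 : PV o6876 := fun P h => h.p 2 3 13 13 (by decide +kernel)
def w6877 : PV o6877 := fun P h => h.p 2 3 12 13 (by decide +kernel)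
def w6878 : PV o6878 := fun P h => h.p 2 3 5 13 (by decide +kernel)
def w6879 : PV o6879 := fun P h => h.p 2 3 4 13 (by decide +kernel)
def w6880 : PV o6880 := fun P h => h.p 2 7 12 13 (by decide +kernel)
def w6881 : PV o6881 := fun P h => h.d 2 13 (by decide +kernel)
def w6882 : PV o6882 := fun P h => h.p 2 3 15 14 (by decide +kernel)
def w6883 : PV o6883 := fun P h => h.p 2 3 13 14 (by decide +kernel)
def w6884 : PV o6884 := fun P h => h.p 2 3 5 14 (by decide +kernel)
def w6885 : PV o6885 := fun P h => h.p 2 3 4 14 (by decide +kernel)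
def w6886 : PV o6886 := fun P h => h.p 2 6 15 14 (by decide +kernel)
def w6887 : PV o6887 := fun P h => h.p 2 6 0 14 (by decide +kernel)
def w6888 : PV o6888 := fun P h => h.p 2 7 13 14 (by decide +kernel)
def w6889 : PV o6889 := fun P h => h.p 2 7 5 14 (by decide +kernel)
def w6890 : PV o6890 := fun P h => h.p 2 7 4 14 (by decide +kernel)
def w6891 : PV o6891 := fun P h => h.d 2 14 (by decide +kernel)
def w6892 : PV o6892 := fun P h => h.p 2 1 12 15 (by decide +kernel)
def w6893 : PV o6893 := fun P h => h.p 2 3 15 15 (by decide +kernel)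
def w6894 : PV o6894 := fun P h => h.p 2 3 13 15 (by decide +kernel)
def w6895 : PV o6895 := fun P h => h.p 2 3 5 15 (by decide +kernel)
def w6896 : PV o6896 := fun P h => h.p 2 3 4 15 (by decide +kernel)
def w6897 : PV o6897 := fun P h => h.p 2 7 12 15 (by decide +kernel)
def w6898 : PV o6898 := fun P h => h.p 2 1 15 16 (by decide +kernel)
def w6899 : PV o6899 := fun P h => h.p 2 1 0 16 (by decide +kernel)
def w6900 : PV o6900 := fun P h => h.p 2 3 5 16 (by decide +kernel)
def w6901 : PV o6901 := fun P h => h.p 2 3 4 16 (by decide +kernel)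
def w6902 : PV o6902 := fun P h => h.p 2 3 0 16 (by decide +kernel)
def w6903 : PV o6903 := fun P h => h.p 2 0 4 17 (by decide +kernel)
def w6904 : PV o6904 := fun P h => h.p 2 1 15 17 (by decide +kernel)
def w6905 : PV o6905 := fun P h => h.p 2 1 0 17 (by decide +kernel)
def w6906 : PV o6906 := fun P h => h.p 2 3 5 17 (by decide +kernel)
def w6907 : PV o6907 := fun P h => h.p 2 3 4 17 (by decide +kernel)
def w6908 : PV o6908 := fun P h => h.p 2 3 0 17 (by decide +kernel)
def w6909 : PV o6909 := fun P h => h.p 2 7 12 17 (by decide +kernel)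
def w6910 : PV o6910 := fun P h => h.u 2 17 (by decide +kernel)
def w6911 : PV o6911 := fun P h => h.p 2 1 15 18 (by decide +kernel)
def w6912 : PV o6912 := fun P h => h.p 2 1 0 18 (by decide +kernel)
def w6913 : PV o6913 := fun P h => h.p 2 3 13 18 (by decide +kernel)
def w6914 : PV o6914 := fun P h => h.p 2 3 12 18 (by decide +kernel)
def w6915 : PV o6915 := fun P h => h.p 2 3 5 18 (by decide +kernel)
def w6916 : PV o6916 := fun P h => h.p 2 3 4 18 (by decide +kernel)
def w6917 : PV o6917 := fun P h => h.p 2 3 0 18 (by decide +kernel)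
def w6918 : PV o6918 := fun P h => h.p 2 7 12 18 (by decide +kernel)
def w6919 : PV o6919 := fun P h => h.p 2 7 4 18 (by decide +kernel)
def w6920 : PV o6920 := fun P h => h.p 2 1 12 19 (by decide +kernel)
def w6921 : PV o6921 := fun P h => h.p 2 1 5 19 (by decide +kernel)
def w6922 : PV o6922 := fun P h => h.p 2 3 13 19 (by decide +kernel)
def w6923 : PV o6923 := fun P h => h.p 2 3 12 19 (by decide +kernel)
def w6924 : PV o6924 := fun P h => h.p 2 3 5 19 (by decide +kernel)
def w6925 : PV o6925 := fun P h => h.p 2 3 4 19 (by decide +kernel)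
def w6926 : PV o6926 := fun P h => h.p 2 3 0 19 (by decide +kernel)
def w6927 : PV o6927 := fun P h => h.p 2 6 5 19 (by decide +kernel)
def w6928 : PV o6928 := fun P h => h.p 2 7 12 19 (by decide +kernel)
def w6929 : PV o6929 := fun P h => h.d 2 19 (by decide +kernel)
def w6930 : PV o6930 := fun P h => h.p 2 3 5 20 (by decide +kernel)
def w6931 : PV o6931 := fun P h => h.p 2 3 4 20 (by decide +kernel)
def w6932 : PV o6932 := fun P h => h.p 2 3 0 20 (by decide +kernel)
def w6933 : PV o6933 := fun P h => h.p 2 6 0 20 (by decide +kernel)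
def w6934 : PV o6934 := fun P h => h.p 2 7 12 20 (by decide +kernel)
def w6935 : PV o6935 := fun P h => h.p 2 7 4 20 (by decide +kernel)
def w6936 : PV o6936 := fun P h => h.d 2 20 (by decide +kernel)
def w6937 : PV o6937 := fun P h => h.u 2 20 (by decide +kernel)
def w6938 : PV o6938 := fun P h => h.p 2 1 15 21 (by decide +kernel)
def w6939 : PV o6939 := fun P h => h.p 2 3 13 21 (by decide +kernel)
def w6940 : PV o6940 := fun P h => h.p 2 3 12 21 (by decide +kernel)
def w6941 : PV o6941 := fun P h => h.p 2 3 5 21 (by decide +kernel)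
def w6942 : PV o6942 := fun P h => h.p 2 3 4 21 (by decide +kernel)
def w6943 : PV o6943 := fun P h => h.p 2 7 12 21 (by decide +kernel)
def w6944 : PV o6944 := fun P h => h.d 2 21 (by decide +kernel)
def w6945 : PV o6945 := fun P h => h.p 2 3 13 22 (by decide +kernel)
def w6946 : PV o6946 := fun P h => h.p 2 3 5 22 (by decide +kernel)
def w6947 : PV o6947 := fun P h => h.p 2 3 4 22 (by decide +kernel)
def w6948 : PV o6948 := fun P h => h.p 2 6 15 22 (by decide +kernel)
def w6949 : PV o6949 := fun P h => h.p 2 6 0 22 (by decide +kernel)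
def w6950 : PV o6950 := fun P h => h.p 2 7 13 22 (by decide +kernel)
def w6951 : PV o6951 := fun P h => h.p 2 7 4 22 (by decide +kernel)
def w6952 : PV o6952 := fun P h => h.p 2 3 5 23 (by decide +kernel)
def w6953 : PV o6953 := fun P h => h.p 2 3 4 23 (by decide +kernel)
def w6954 : PV o6954 := fun P h => h.p 2 7 12 23 (by decide +kernel)
def w6955 : PV o6955 := fun P h => h.p 2 1 0 24 (by decide +kernel)
def w6956 : PV o6956 := fun P h => h.p 2 3 13 24 (by decide +kernel)
def w6957 : PV o6957 := fun P h => h.p 2 3 5 24 (by decide +kernel)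
def w6958 : PV o6958 := fun P h => h.p 2 3 4 24 (by decide +kernel)
def w6959 : PV o6959 := fun P h => h.p 2 7 4 24 (by decide +kernel)
def w6960 : PV o6960 := fun P h => h.p 2 7 0 24 (by decide +kernel)
def w6961 : PV o6961 := fun P h => h.d 2 24 (by decide +kernel)
def w6962 : PV o6962 := fun P h => h.p 2 3 13 25 (by decide +kernel)
def w6963 : PV o6963 := fun P h => h.p 2 3 12 25 (by decide +kernel)
def w6964 : PV o6964 := fun P h => h.p 2 3 5 25 (by decide +kernel)
def w6965 : PV o6965 := fun P h => h.p 2 3 0 25 (by decide +kernel)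
def w6966 : PV o6966 := fun P h => h.p 2 6 12 25 (by decide +kernel)
def w6967 : PV o6967 := fun P h => h.p 2 7 0 25 (by decide +kernel)
def w6968 : PV o6968 := fun P h => h.u 2 25 (by decide +kernel)
def w6969 : PV o6969 := fun P h => h.p 2 3 15 26 (by decide +kernel)
def w6970 : PV o6970 := fun P h => h.p 2 3 13 26 (by decide +kernel)
def w6971 : PV o6971 := fun P h => h.p 2 3 12 26 (by decide +kernel)
def w6972 : PV o6972 := fun P h => h.p 2 3 5 26 (by decide +kernel)
def w6973 : PV o6973 := fun P h => h.p 2 3 4 26 (by decide +kernel)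
def w6974 : PV o6974 := fun P h => h.p 2 3 0 26 (by decide +kernel)
def w6975 : PV o6975 := fun P h => h.p 2 7 12 26 (by decide +kernel)
def w6976 : PV o6976 := fun P h => h.p 2 7 4 26 (by decide +kernel)
def w6977 : PV o6977 := fun P h => h.p 2 7 0 26 (by decide +kernel)
def w6978 : PV o6978 := fun P h => h.d 2 26 (by decide +kernel)
def w6979 : PV o6979 := fun P h => h.p 2 1 12 27 (by decide +kernel)
def w6980 : PV o6980 := fun P h => h.p 2 1 5 27 (by decide +kernel)
def w6981 : PV o6981 := fun P h => h.p 2 1 0 27 (by decide +kernel)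
def w6982 : PV o6982 := fun P h => h.p 2 3 15 27 (by decide +kernel)
def w6983 : PV o6983 := fun P h => h.p 2 3 13 27 (by decide +kernel)
def w6984 : PV o6984 := fun P h => h.p 2 3 12 27 (by decide +kernel)
def w6985 : PV o6985 := fun P h => h.p 2 3 5 27 (by decide +kernel)
def w6986 : PV o6986 := fun P h => h.p 2 3 4 27 (by decide +kernel)
def w6987 : PV o6987 := fun P h => h.p 2 7 12 27 (by decide +kernel)
def w6988 : PV o6988 := fun P h => h.p 2 7 5 27 (by decide +kernel)
def w6989 : PV o6989 := fun P h => h.p 2 7 0 27 (by decide +kernel)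
def w6990 : PV o6990 := fun P h => h.d 2 27 (by decide +kernel)
def w6991 : PV o6991 := fun P h => h.p 2 3 15 28 (by decide +kernel)
def w6992 : PV o6992 := fun P h => h.p 2 3 13 28 (by decide +kernel)
def w6993 : PV o6993 := fun P h => h.p 2 3 12 28 (by decide +kernel)
def w6994 : PV o6994 := fun P h => h.p 2 3 5 28 (by decide +kernel)
def w6995 : PV o6995 := fun P h => h.p 2 3 4 28 (by decide +kernel)
def w6996 : PV o6996 := fun P h => h.p 2 6 0 28 (by decide +kernel)
def w6997 : PV o6997 := fun P h => h.p 2 7 12 28 (by decide +kernel)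
def w6998 : PV o6998 := fun P h => h.p 2 7 5 28 (by decide +kernel)
def w6999 : PV o6999 := fun P h => h.p 2 7 4 28 (by decide +kernel)
def w7000 : PV o7000 := fun P h => h.p 2 7 0 28 (by decide +kernel)
def w7001 : PV o7001 := fun P h => h.d 2 28 (by decide +kernel)
def w7002 : PV o7002 := fun P h => h.p 2 1 15 29 (by decide +kernel)
def w7003 : PV o7003 := fun P h => h.p 2 3 15 29 (by decide +kernel)
def w7004 : PV o7004 := fun P h => h.p 2 3 13 29 (by decide +kernel)
def w7005 : PV o7005 := fun P h => h.p 2 3 12 29 (by decide +kernel)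
def w7006 : PV o7006 := fun P h => h.p 2 3 5 29 (by decide +kernel)
def w7007 : PV o7007 := fun P h => h.p 2 3 4 29 (by decide +kernel)
def w7008 : PV o7008 := fun P h => h.p 2 7 15 29 (by decide +kernel)
def w7009 : PV o7009 := fun P h => h.p 2 7 12 29 (by decide +kernel)
def w7010 : PV o7010 := fun P h => h.p 2 0 13 30 (by decide +kernel)
def w7011 : PV o7011 := fun P h => h.p 2 0 5 30 (by decide +kernel)
def w7012 : PV o7012 := fun P h => h.p 2 3 15 30 (by decide +kernel)
def w7013 : PV o7013 := fun P h => h.p 2 3 13 30 (by decide +kernel)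
def w7014 : PV o7014 := fun P h => h.p 2 3 5 30 (by decide +kernel)
def w7015 : PV o7015 := fun P h => h.p 2 3 4 30 (by decide +kernel)
def w7016 : PV o7016 := fun P h => h.p 2 6 15 30 (by decide +kernel)
def w7017 : PV o7017 := fun P h => h.p 2 6 13 30 (by decide +kernel)
def w7018 : PV o7018 := fun P h => h.p 2 6 5 30 (by decide +kernel)
def w7019 : PV o7019 := fun P h => h.p 2 6 0 30 (by decide +kernel)
def w7020 : PV o7020 := fun P h => h.p 2 7 15 30 (by decide +kernel)
def w7021 : PV o7021 := fun P h => h.p 2 7 13 30 (by decide +kernel)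
def w7022 : PV o7022 := fun P h => h.p 2 7 12 30 (by decide +kernel)
def w7023 : PV o7023 := fun P h => h.p 2 7 5 30 (by decide +kernel)
def w7024 : PV o7024 := fun P h => h.p 2 7 4 30 (by decide +kernel)
def w7025 : PV o7025 := fun P h => h.d 2 30 (by decide +kernel)
def w7026 : PV o7026 := fun P h => h.p 2 3 12 31 (by decide +kernel)
def w7027 : PV o7027 := fun P h => h.p 2 3 5 31 (by decide +kernel)
def w7028 : PV o7028 := fun P h => h.p 2 7 12 31 (by decide +kernel)
def w7029 : PV o7029 := fun P h => h.p 3 3 0 0 (by decide +kernel)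
def w7030 : PV o7030 := fun P h => h.u 3 0 (by decide +kernel)
def w7031 : PV o7031 := fun P h => h.p 3 0 12 1 (by decide +kernel)
def w7032 : PV o7032 := fun P h => h.p 3 1 12 1 (by decide +kernel)
def w7033 : PV o7033 := fun P h => h.p 3 1 4 1 (by decide +kernel)
def w7034 : PV o7034 := fun P h => h.p 3 2 12 1 (by decide +kernel)
def w7035 : PV o7035 := fun P h => h.p 3 6 4 1 (by decide +kernel)
def w7036 : PV o7036 := fun P h => h.p 3 7 13 1 (by decide +kernel)
def w7037 : PV o7037 := fun P h => h.p 3 7 12 1 (by decide +kernel)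
def w7038 : PV o7038 := fun P h => h.p 3 7 5 1 (by decide +kernel)
def w7039 : PV o7039 := fun P h => h.p 3 7 4 1 (by decide +kernel)
def w7040 : PV o7040 := fun P h => h.p 3 7 0 1 (by decide +kernel)
def w7041 : PV o7041 := fun P h => h.u 3 1 (by decide +kernel)
def w7042 : PV o7042 := fun P h => h.p 3 0 0 2 (by decide +kernel)
def w7043 : PV o7043 := fun P h => h.p 3 2 4 2 (by decide +kernel)
def w7044 : PV o7044 := fun P h => h.p 3 2 0 2 (by decide +kernel)
def w7045 : PV o7045 := fun P h => h.p 3 4 5 2 (by decide +kernel)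
def w7046 : PV o7046 := fun P h => h.p 3 4 0 2 (by decide +kernel)
def w7047 : PV o7047 := fun P h => h.p 3 5 15 2 (by decide +kernel)
def w7048 : PV o7048 := fun P h => h.p 3 5 5 2 (by decide +kernel)
def w7049 : PV o7049 := fun P h => h.p 3 6 0 2 (by decide +kernel)
def w7050 : PV o7050 := fun P h => h.p 3 7 13 2 (by decide +kernel)
def w7051 : PV o7051 := fun P h => h.p 3 7 12 2 (by decide +kernel)
def w7052 : PV o7052 := fun P h => h.p 3 7 5 2 (by decide +kernel)
def w7053 : PV o7053 := fun P h => h.p 3 7 4 2 (by decide +kernel)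
def w7054 : PV o7054 := fun P h => h.p 3 7 0 2 (by decide +kernel)
def w7055 : PV o7055 := fun P h => h.d 3 2 (by decide +kernel)
def w7056 : PV o7056 := fun P h => h.u 3 2 (by decide +kernel)
def w7057 : PV o7057 := fun P h => h.p 3 0 0 3 (by decide +kernel)
def w7058 : PV o7058 := fun P h => h.p 3 1 13 3 (by decide +kernel)
def w7059 : PV o7059 := fun P h => h.p 3 1 5 3 (by decide +kernel)
def w7060 : PV o7060 := fun P h => h.p 3 4 12 3 (by decide +kernel)
def w7061 : PV o7061 := fun P h => h.p 3 4 0 3 (by decide +kernel)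
def w7062 : PV o7062 := fun P h => h.p 3 6 4 3 (by decide +kernel)
def w7063 : PV o7063 := fun P h => h.p 3 6 0 3 (by decide +kernel)
def w7064 : PV o7064 := fun P h => h.p 3 7 13 3 (by decide +kernel)
def w7065 : PV o7065 := fun P h => h.p 3 7 12 3 (by decide +kernel)
def w7066 : PV o7066 := fun P h => h.p 3 7 4 3 (by decide +kernel)
def w7067 : PV o7067 := fun P h => h.p 3 7 0 3 (by decide +kernel)
def w7068 : PV o7068 := fun P h => h.d 3 3 (by decide +kernel)
def w7069 : PV o7069 := fun P h => h.u 3 3 (by decide +kernel)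
def w7070 : PV o7070 := fun P h => h.p 3 4 0 4 (by decide +kernel)
def w7071 : PV o7071 := fun P h => h.p 3 6 4 4 (by decide +kernel)
def w7072 : PV o7072 := fun P h => h.p 3 6 0 4 (by decide +kernel)
def w7073 : PV o7073 := fun P h => h.p 3 7 12 4 (by decide +kernel)
def w7074 : PV o7074 := fun P h => h.p 3 7 5 4 (by decide +kernel)
def w7075 : PV o7075 := fun P h => h.p 3 7 4 4 (by decide +kernel)
def w7076 : PV o7076 := fun P h => h.p 3 7 0 4 (by decide +kernel)
def w7077 : PV o7077 := fun P h => h.d 3 4 (by decide +kernel)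
def w7078 : PV o7078 := fun P h => h.u 3 4 (by decide +kernel)
def w7079 : PV o7079 := fun P h => h.p 3 0 4 5 (by decide +kernel)
def w7080 : PV o7080 := fun P h => h.p 3 0 0 5 (by decide +kernel)
def w7081 : PV o7081 := fun P h => h.p 3 2 13 5 (by decide +kernel)
def w7082 : PV o7082 := fun P h => h.p 3 2 12 5 (by decide +kernel)
def w7083 : PV o7083 := fun P h => h.p 3 6 12 5 (by decide +kernel)
def w7084 : PV o7084 := fun P h => h.p 3 6 4 5 (by decide +kernel)
def w7085 : PV o7085 := fun P h => h.p 3 6 0 5 (by decide +kernel)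
def w7086 : PV o7086 := fun P h => h.p 3 7 13 5 (by decide +kernel)
def w7087 : PV o7087 := fun P h => h.p 3 7 12 5 (by decide +kernel)
def w7088 : PV o7088 := fun P h => h.p 3 7 5 5 (by decide +kernel)
def w7089 : PV o7089 := fun P h => h.p 3 7 4 5 (by decide +kernel)
def w7090 : PV o7090 := fun P h => h.p 3 7 0 5 (by decide +kernel)
def w7091 : PV o7091 := fun P h => h.d 3 5 (by decide +kernel)
def w7092 : PV o7092 := fun P h => h.u 3 5 (by decide +kernel)
def w7093 : PV o7093 := fun P h => h.p 3 3 5 6 (by decide +kernel)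
def w7094 : PV o7094 := fun P h => h.p 3 4 0 6 (by decide +kernel)
def w7095 : PV o7095 := fun P h => h.p 3 5 15 6 (by decide +kernel)
def w7096 : PV o7096 := fun P h => h.p 3 5 0 6 (by decide +kernel)
def w7097 : PV o7097 := fun P h => h.p 3 6 0 6 (by decide +kernel)
def w7098 : PV o7098 := fun P h => h.p 3 7 12 6 (by decide +kernel)
def w7099 : PV o7099 := fun P h => h.p 3 7 5 6 (by decide +kernel)
def w7100 : PV o7100 := fun P h => h.p 3 7 4 6 (by decide +kernel)
def w7101 : PV o7101 := fun P h => h.p 3 7 0 6 (by decide +kernel)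
def w7102 : PV o7102 := fun P h => h.d 3 6 (by decide +kernel)
def w7103 : PV o7103 := fun P h => h.u 3 6 (by decide +kernel)
def w7104 : PV o7104 := fun P h => h.p 3 1 15 7 (by decide +kernel)
def w7105 : PV o7105 := fun P h => h.p 3 6 5 7 (by decide +kernel)
def w7106 : PV o7106 := fun P h => h.p 3 6 4 7 (by decide +kernel)
def w7107 : PV o7107 := fun P h => h.p 3 7 15 7 (by decide +kernel)
def w7108 : PV o7108 := fun P h => h.p 3 7 13 7 (by decide +kernel)
def w7109 : PV o7109 := fun P h => h.p 3 7 12 7 (by decide +kernel)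
def w7110 : PV o7110 := fun P h => h.p 3 7 5 7 (by decide +kernel)
def w7111 : PV o7111 := fun P h => h.d 3 7 (by decide +kernel)
def w7112 : PV o7112 := fun P h => h.u 3 7 (by decide +kernel)
def w7113 : PV o7113 := fun P h => h.p 3 0 0 8 (by decide +kernel)
def w7114 : PV o7114 := fun P h => h.p 3 1 0 8 (by decide +kernel)
def w7115 : PV o7115 := fun P h => h.p 3 2 12 8 (by decide +kernel)
def w7116 : PV o7116 := fun P h => h.p 3 5 15 8 (by decide +kernel)
def w7117 : PV o7117 := fun P h => h.p 3 5 13 8 (by decide +kernel)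
def w7118 : PV o7118 := fun P h => h.p 3 6 4 8 (by decide +kernel)
def w7119 : PV o7119 := fun P h => h.p 3 6 0 8 (by decide +kernel)
def w7120 : PV o7120 := fun P h => h.p 3 7 12 8 (by decide +kernel)
def w7121 : PV o7121 := fun P h => h.p 3 7 4 8 (by decide +kernel)
def w7122 : PV o7122 := fun P h => h.p 3 7 0 8 (by decide +kernel)
def w7123 : PV o7123 := fun P h => h.d 3 8 (by decide +kernel)
def w7124 : PV o7124 := fun P h => h.u 3 8 (by decide +kernel)
def w7125 : PV o7125 := fun P h => h.p 3 1 12 9 (by decide +kernel)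
def w7126 : PV o7126 := fun P h => h.p 3 1 4 9 (by decide +kernel)
def w7127 : PV o7127 := fun P h => h.p 3 2 12 9 (by decide +kernel)
def w7128 : PV o7128 := fun P h => h.p 3 3 12 9 (by decide +kernel)
def w7129 : PV o7129 := fun P h => h.p 3 5 15 9 (by decide +kernel)
def w7130 : PV o7130 := fun P h => h.p 3 5 13 9 (by decide +kernel)
def w7131 : PV o7131 := fun P h => h.p 3 5 12 9 (by decide +kernel)
def w7132 : PV o7132 := fun P h => h.p 3 6 4 9 (by decide +kernel)
def w7133 : PV o7133 := fun P h => h.p 3 7 12 9 (by decide +kernel)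
def w7134 : PV o7134 := fun P h => h.p 3 7 5 9 (by decide +kernel)
def w7135 : PV o7135 := fun P h => h.p 3 7 4 9 (by decide +kernel)
def w7136 : PV o7136 := fun P h => h.d 3 9 (by decide +kernel)
def w7137 : PV o7137 := fun P h => h.u 3 9 (by decide +kernel)
def w7138 : PV o7138 := fun P h => h.p 3 0 0 10 (by decide +kernel)
def w7139 : PV o7139 := fun P h => h.p 3 2 12 10 (by decide +kernel)
def w7140 : PV o7140 := fun P h => h.p 3 4 5 10 (by decide +kernel)
def w7141 : PV o7141 := fun P h => h.p 3 5 15 10 (by decide +kernel)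
def w7142 : PV o7142 := fun P h => h.p 3 5 5 10 (by decide +kernel)
def w7143 : PV o7143 := fun P h => h.p 3 5 0 10 (by decide +kernel)
def w7144 : PV o7144 := fun P h => h.p 3 6 0 10 (by decide +kernel)
def w7145 : PV o7145 := fun P h => h.p 3 7 15 10 (by decide +kernel)
def w7146 : PV o7146 := fun P h => h.p 3 7 13 10 (by decide +kernel)
def w7147 : PV o7147 := fun P h => h.p 3 7 12 10 (by decide +kernel)
def w7148 : PV o7148 := fun P h => h.p 3 7 5 10 (by decide +kernel)
def w7149 : PV o7149 := fun P h => h.p 3 7 4 10 (by decide +kernel)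
def w7150 : PV o7150 := fun P h => h.p 3 7 0 10 (by decide +kernel)
def w7151 : PV o7151 := fun P h => h.d 3 10 (by decide +kernel)
def w7152 : PV o7152 := fun P h => h.u 3 10 (by decide +kernel)
def w7153 : PV o7153 := fun P h => h.p 3 0 0 11 (by decide +kernel)
def w7154 : PV o7154 := fun P h => h.p 3 1 13 11 (by decide +kernel)
def w7155 : PV o7155 := fun P h => h.p 3 2 13 11 (by decide +kernel)
def w7156 : PV o7156 := fun P h => h.p 3 2 12 11 (by decide +kernel)
def w7157 : PV o7157 := fun P h => h.p 3 4 12 11 (by decide +kernel)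
def w7158 : PV o7158 := fun P h => h.p 3 5 12 11 (by decide +kernel)
def w7159 : PV o7159 := fun P h => h.p 3 6 12 11 (by decide +kernel)
def w7160 : PV o7160 := fun P h => h.p 3 7 13 11 (by decide +kernel)
def w7161 : PV o7161 := fun P h => h.p 3 7 12 11 (by decide +kernel)
def w7162 : PV o7162 := fun P h => h.p 3 7 5 11 (by decide +kernel)
def w7163 : PV o7163 := fun P h => h.p 3 7 4 11 (by decide +kernel)
def w7164 : PV o7164 := fun P h => h.d 3 11 (by decide +kernel)
def w7165 : PV o7165 := fun P h => h.u 3 11 (by decide +kernel)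
def w7166 : PV o7166 := fun P h => h.p 3 2 12 12 (by decide +kernel)
def w7167 : PV o7167 := fun P h => h.p 3 5 15 12 (by decide +kernel)
def w7168 : PV o7168 := fun P h => h.p 3 5 12 12 (by decide +kernel)
def w7169 : PV o7169 := fun P h => h.p 3 5 5 12 (by decide +kernel)
def w7170 : PV o7170 := fun P h => h.p 3 6 4 12 (by decide +kernel)
def w7171 : PV o7171 := fun P h => h.p 3 6 0 12 (by decide +kernel)
def w7172 : PV o7172 := fun P h => h.p 3 7 15 12 (by decide +kernel)
def w7173 : PV o7173 := fun P h => h.p 3 7 12 12 (by decide +kernel)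
def w7174 : PV o7174 := fun P h => h.p 3 7 5 12 (by decide +kernel)
def w7175 : PV o7175 := fun P h => h.p 3 7 4 12 (by decide +kernel)
def w7176 : PV o7176 := fun P h => h.p 3 7 0 12 (by decide +kernel)
def w7177 : PV o7177 := fun P h => h.d 3 12 (by decide +kernel)
def w7178 : PV o7178 := fun P h => h.u 3 12 (by decide +kernel)
def w7179 : PV o7179 := fun P h => h.p 3 0 0 13 (by decide +kernel)
def w7180 : PV o7180 := fun P h => h.p 3 4 4 13 (by decide +kernel)
def w7181 : PV o7181 := fun P h => h.p 3 6 12 13 (by decide +kernel)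
def w7182 : PV o7182 := fun P h => h.p 3 6 4 13 (by decide +kernel)
def w7183 : PV o7183 := fun P h => h.p 3 7 13 13 (by decide +kernel)
def w7184 : PV o7184 := fun P h => h.p 3 7 12 13 (by decide +kernel)
def w7185 : PV o7185 := fun P h => h.p 3 7 5 13 (by decide +kernel)
def w7186 : PV o7186 := fun P h => h.p 3 7 4 13 (by decide +kernel)
def w7187 : PV o7187 := fun P h => h.d 3 13 (by decide +kernel)
def w7188 : PV o7188 := fun P h => h.u 3 13 (by decide +kernel)
def w7189 : PV o7189 := fun P h => h.p 3 2 15 14 (by decide +kernel)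
def w7190 : PV o7190 := fun P h => h.p 3 2 12 14 (by decide +kernel)
def w7191 : PV o7191 := fun P h => h.p 3 2 5 14 (by decide +kernel)
def w7192 : PV o7192 := fun P h => h.p 3 5 13 14 (by decide +kernel)
def w7193 : PV o7193 := fun P h => h.p 3 6 12 14 (by decide +kernel)
def w7194 : PV o7194 := fun P h => h.p 3 6 5 14 (by decide +kernel)
def w7195 : PV o7195 := fun P h => h.p 3 7 15 14 (by decide +kernel)
def w7196 : PV o7196 := fun P h => h.p 3 7 13 14 (by decide +kernel)
def w7197 : PV o7197 := fun P h => h.p 3 7 12 14 (by decide +kernel)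
def w7198 : PV o7198 := fun P h => h.p 3 7 5 14 (by decide +kernel)
def w7199 : PV o7199 := fun P h => h.p 3 7 4 14 (by decide +kernel)

end Pool.Agent.BDD.A
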