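import Pool.Agent.BDD.AC
import Pool.Agent.BDD.AE1
import Pool.Agent.BDD.AE2

set_option autoImplicit false
set_option linter.all false

namespace Pool.Agent.BDD.A

def w7200 : PV o7200 := fun P h => h.d 3 14 (by decide +kernel)
def w7201 : PV o7201 := fun P h => h.u 3 14 (by decide +kernel)
def w7202 : PV o7202 := fun P h => h.p 3 1 15 15 (by decide +kernel)
def w7203 : PV o7203 := fun P h => h.p 3 6 13 15 (by decide +kernel)
def w7204 : PV o7204 := fun P h => h.p 3 6 12 15 (by decide +kernel)
def w7205 : PV o7205 := fun P h => h.p 3 6 5 15 (by decide +kernel)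
def w7206 : PV o7206 := fun P h => h.p 3 7 15 15 (by decide +kernel)
def w7207 : PV o7207 := fun P h => h.p 3 7 13 15 (by decide +kernel)
def w7208 : PV o7208 := fun P h => h.p 3 7 5 15 (by decide +kernel)
def w7209 : PV o7209 := fun P h => h.p 3 7 4 15 (by decide +kernel)
def w7210 : PV o7210 := fun P h => h.d 3 15 (by decide +kernel)
def w7211 : PV o7211 := fun P h => h.u 3 15 (by decide +kernel)
def w7212 : PV o7212 := fun P h => h.p 3 0 0 16 (by decide +kernel)
def w7213 : PV o7213 := fun P h => h.p 3 1 0 16 (by decide +kernel)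
def w7214 : PV o7214 := fun P h => h.p 3 2 13 16 (by decide +kernel)
def w7215 : PV o7215 := fun P h => h.p 3 2 0 16 (by decide +kernel)
def w7216 : PV o7216 := fun P h => h.p 3 6 0 16 (by decide +kernel)
def w7217 : PV o7217 := fun P h => h.p 3 7 12 16 (by decide +kernel)
def w7218 : PV o7218 := fun P h => h.p 3 7 5 16 (by decide +kernel)
def w7219 : PV o7219 := fun P h => h.p 3 7 4 16 (by decide +kernel)
def w7220 : PV o7220 := fun P h => h.p 3 7 0 16 (by decide +kernel)
def w7221 : PV o7221 := fun P h => h.d 3 16 (by decide +kernel)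
def w7222 : PV o7222 := fun P h => h.u 3 16 (by decide +kernel)
def w7223 : PV o7223 := fun P h => h.p 3 0 12 17 (by decide +kernel)
def w7224 : PV o7224 := fun P h => h.p 3 1 12 17 (by decide +kernel)
def w7225 : PV o7225 := fun P h => h.p 3 1 4 17 (by decide +kernel)
def w7226 : PV o7226 := fun P h => h.p 3 2 12 17 (by decide +kernel)
def w7227 : PV o7227 := fun P h => h.p 3 6 4 17 (by decide +kernel)
def w7228 : PV o7228 := fun P h => h.p 3 7 12 17 (by decide +kernel)
def w7229 : PV o7229 := fun P h => h.p 3 7 4 17 (by decide +kernel)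
def w7230 : PV o7230 := fun P h => h.d 3 17 (by decide +kernel)
def w7231 : PV o7231 := fun P h => h.u 3 17 (by decide +kernel)
def w7232 : PV o7232 := fun P h => h.p 3 0 5 18 (by decide +kernel)
def w7233 : PV o7233 := fun P h => h.p 3 0 0 18 (by decide +kernel)
def w7234 : PV o7234 := fun P h => h.p 3 2 13 18 (by decide +kernel)
def w7235 : PV o7235 := fun P h => h.p 3 2 12 18 (by decide +kernel)
def w7236 : PV o7236 := fun P h => h.p 3 4 0 18 (by decide +kernel)
def w7237 : PV o7237 := fun P h => h.p 3 5 0 18 (by decide +kernel)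
def w7238 : PV o7238 := fun P h => h.p 3 6 0 18 (by decide +kernel)
def w7239 : PV o7239 := fun P h => h.p 3 7 15 18 (by decide +kernel)
def w7240 : PV o7240 := fun P h => h.p 3 7 13 18 (by decide +kernel)
def w7241 : PV o7241 := fun P h => h.p 3 7 12 18 (by decide +kernel)
def w7242 : PV o7242 := fun P h => h.p 3 7 5 18 (by decide +kernel)
def w7243 : PV o7243 := fun P h => h.p 3 7 4 18 (by decide +kernel)
def w7244 : PV o7244 := fun P h => h.p 3 7 0 18 (by decide +kernel)
def w7245 : PV o7245 := fun P h => h.d 3 18 (by decide +kernel)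
def w7246 : PV o7246 := fun P h => h.u 3 18 (by decide +kernel)
def w7247 : PV o7247 := fun P h => h.p 3 0 13 19 (by decide +kernel)
def w7248 : PV o7248 := fun P h => h.p 3 0 4 19 (by decide +kernel)
def w7249 : PV o7249 := fun P h => h.p 3 1 13 19 (by decide +kernel)
def w7250 : PV o7250 := fun P h => h.p 3 1 5 19 (by decide +kernel)
def w7251 : PV o7251 := fun P h => h.p 3 4 13 19 (by decide +kernel)
def w7252 : PV o7252 := fun P h => h.p 3 4 12 19 (by decide +kernel)
def w7253 : PV o7253 := fun P h => h.p 3 5 15 19 (by decide +kernel)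
def w7254 : PV o7254 := fun P h => h.p 3 6 12 19 (by decide +kernel)
def w7255 : PV o7255 := fun P h => h.p 3 6 5 19 (by decide +kernel)
def w7256 : PV o7256 := fun P h => h.p 3 7 15 19 (by decide +kernel)
def w7257 : PV o7257 := fun P h => h.p 3 7 13 19 (by decide +kernel)
def w7258 : PV o7258 := fun P h => h.p 3 7 12 19 (by decide +kernel)
def w7259 : PV o7259 := fun P h => h.p 3 7 4 19 (by decide +kernel)
def w7260 : PV o7260 := fun P h => h.d 3 19 (by decide +kernel)
def w7261 : PV o7261 := fun P h => h.u 3 19 (by decide +kernel)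
def w7262 : PV o7262 := fun P h => h.p 3 2 5 20 (by decide +kernel)
def w7263 : PV o7263 := fun P h => h.p 3 4 5 20 (by decide +kernel)
def w7264 : PV o7264 := fun P h => h.p 3 4 4 20 (by decide +kernel)
def w7265 : PV o7265 := fun P h => h.p 3 5 13 20 (by decide +kernel)
def w7266 : PV o7266 := fun P h => h.p 3 5 12 20 (by decide +kernel)
def w7267 : PV o7267 := fun P h => h.p 3 5 0 20 (by decide +kernel)
def w7268 : PV o7268 := fun P h => h.p 3 6 12 20 (by decide +kernel)
def w7269 : PV o7269 := fun P h => h.p 3 6 4 20 (by decide +kernel)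
def w7270 : PV o7270 := fun P h => h.p 3 6 0 20 (by decide +kernel)
def w7271 : PV o7271 := fun P h => h.p 3 7 13 20 (by decide +kernel)
def w7272 : PV o7272 := fun P h => h.p 3 7 12 20 (by decide +kernel)
def w7273 : PV o7273 := fun P h => h.p 3 7 5 20 (by decide +kernel)
def w7274 : PV o7274 := fun P h => h.p 3 7 4 20 (by decide +kernel)
def w7275 : PV o7275 := fun P h => h.p 3 7 0 20 (by decide +kernel)
def w7276 : PV o7276 := fun P h => h.d 3 20 (by decide +kernel)
def w7277 : PV o7277 := fun P h => h.u 3 20 (by decide +kernel)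
def w7278 : PV o7278 := fun P h => h.p 3 6 12 21 (by decide +kernel)
def w7279 : PV o7279 := fun P h => h.p 3 6 5 21 (by decide +kernel)
def w7280 : PV o7280 := fun P h => h.p 3 6 4 21 (by decide +kernel)
def w7281 : PV o7281 := fun P h => h.p 3 7 15 21 (by decide +kernel)
def w7282 : PV o7282 := fun P h => h.p 3 7 13 21 (by decide +kernel)
def w7283 : PV o7283 := fun P h => h.p 3 7 12 21 (by decide +kernel)
def w7284 : PV o7284 := fun P h => h.p 3 7 5 21 (by decide +kernel)
def w7285 : PV o7285 := fun P h => h.p 3 7 4 21 (by decide +kernel)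
def w7286 : PV o7286 := fun P h => h.p 3 7 0 21 (by decide +kernel)
def w7287 : PV o7287 := fun P h => h.d 3 21 (by decide +kernel)
def w7288 : PV o7288 := fun P h => h.u 3 21 (by decide +kernel)
def w7289 : PV o7289 := fun P h => h.p 3 0 0 22 (by decide +kernel)
def w7290 : PV o7290 := fun P h => h.p 3 2 5 22 (by decide +kernel)
def w7291 : PV o7291 := fun P h => h.p 3 3 5 22 (by decide +kernel)
def w7292 : PV o7292 := fun P h => h.p 3 5 15 22 (by decide +kernel)
def w7293 : PV o7293 := fun P h => h.p 3 5 13 22 (by decide +kernel)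
def w7294 : PV o7294 := fun P h => h.p 3 6 5 22 (by decide +kernel)
def w7295 : PV o7295 := fun P h => h.p 3 7 15 22 (by decide +kernel)
def w7296 : PV o7296 := fun P h => h.p 3 7 13 22 (by decide +kernel)
def w7297 : PV o7297 := fun P h => h.p 3 7 12 22 (by decide +kernel)
def w7298 : PV o7298 := fun P h => h.p 3 7 5 22 (by decide +kernel)
def w7299 : PV o7299 := fun P h => h.p 3 7 4 22 (by decide +kernel)
def w7300 : PV o7300 := fun P h => h.d 3 22 (by decide +kernel)
def w7301 : PV o7301 := fun P h => h.u 3 22 (by decide +kernel)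
def w7302 : PV o7302 := fun P h => h.p 3 1 15 23 (by decide +kernel)
def w7303 : PV o7303 := fun P h => h.p 3 4 15 23 (by decide +kernel)
def w7304 : PV o7304 := fun P h => h.p 3 6 15 23 (by decide +kernel)
def w7305 : PV o7305 := fun P h => h.p 3 6 13 23 (by decide +kernel)
def w7306 : PV o7306 := fun P h => h.p 3 6 5 23 (by decide +kernel)
def w7307 : PV o7307 := fun P h => h.p 3 6 0 23 (by decide +kernel)
def w7308 : PV o7308 := fun P h => h.p 3 7 15 23 (by decide +kernel)
def w7309 : PV o7309 := fun P h => h.p 3 7 13 23 (by decide +kernel)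
def w7310 : PV o7310 := fun P h => h.p 3 7 12 23 (by decide +kernel)
def w7311 : PV o7311 := fun P h => h.p 3 7 5 23 (by decide +kernel)
def w7312 : PV o7312 := fun P h => h.d 3 23 (by decide +kernel)
def w7313 : PV o7313 := fun P h => h.u 3 23 (by decide +kernel)
def w7314 : PV o7314 := fun P h => h.p 3 2 12 24 (by decide +kernel)
def w7315 : PV o7315 := fun P h => h.p 3 5 12 24 (by decide +kernel)
def w7316 : PV o7316 := fun P h => h.p 3 6 4 24 (by decide +kernel)
def w7317 : PV o7317 := fun P h => h.p 3 6 0 24 (by decide +kernel)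
def w7318 : PV o7318 := fun P h => h.p 3 7 12 24 (by decide +kernel)
def w7319 : PV o7319 := fun P h => h.p 3 7 4 24 (by decide +kernel)
def w7320 : PV o7320 := fun P h => h.p 3 7 0 24 (by decide +kernel)
def w7321 : PV o7321 := fun P h => h.d 3 24 (by decide +kernel)
def w7322 : PV o7322 := fun P h => h.u 3 24 (by decide +kernel)
def w7323 : PV o7323 := fun P h => h.p 3 1 12 25 (by decide +kernel)
def w7324 : PV o7324 := fun P h => h.p 3 2 12 25 (by decide +kernel)
def w7325 : PV o7325 := fun P h => h.p 3 3 12 25 (by decide +kernel)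
def w7326 : PV o7326 := fun P h => h.p 3 6 12 25 (by decide +kernel)
def w7327 : PV o7327 := fun P h => h.p 3 7 13 25 (by decide +kernel)
def w7328 : PV o7328 := fun P h => h.p 3 7 12 25 (by decide +kernel)
def w7329 : PV o7329 := fun P h => h.p 3 7 4 25 (by decide +kernel)
def w7330 : PV o7330 := fun P h => h.u 3 25 (by decide +kernel)
def w7331 : PV o7331 := fun P h => h.p 3 0 0 26 (by decide +kernel)
def w7332 : PV o7332 := fun P h => h.p 3 6 12 26 (by decide +kernel)
def w7333 : PV o7333 := fun P h => h.p 3 7 15 26 (by decide +kernel)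
def w7334 : PV o7334 := fun P h => h.p 3 7 13 26 (by decide +kernel)
def w7335 : PV o7335 := fun P h => h.p 3 7 12 26 (by decide +kernel)
def w7336 : PV o7336 := fun P h => h.p 3 7 5 26 (by decide +kernel)
def w7337 : PV o7337 := fun P h => h.p 3 7 4 26 (by decide +kernel)
def w7338 : PV o7338 := fun P h => h.p 3 7 0 26 (by decide +kernel)
def w7339 : PV o7339 := fun P h => h.d 3 26 (by decide +kernel)
def w7340 : PV o7340 := fun P h => h.u 3 26 (by decide +kernel)
def w7341 : PV o7341 := fun P h => h.p 3 0 5 27 (by decide +kernel)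
def w7342 : PV o7342 := fun P h => h.p 3 0 0 27 (by decide +kernel)
def w7343 : PV o7343 := fun P h => h.p 3 1 5 27 (by decide +kernel)
def w7344 : PV o7344 := fun P h => h.p 3 4 13 27 (by decide +kernel)
def w7345 : PV o7345 := fun P h => h.p 3 4 4 27 (by decide +kernel)
def w7346 : PV o7346 := fun P h => h.p 3 5 15 27 (by decide +kernel)
def w7347 : PV o7347 := fun P h => h.p 3 5 12 27 (by decide +kernel)
def w7348 : PV o7348 := fun P h => h.p 3 6 13 27 (by decide +kernel)
def w7349 : PV o7349 := fun P h => h.p 3 6 12 27 (by decide +kernel)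
def w7350 : PV o7350 := fun P h => h.p 3 7 15 27 (by decide +kernel)
def w7351 : PV o7351 := fun P h => h.p 3 7 13 27 (by decide +kernel)
def w7352 : PV o7352 := fun P h => h.p 3 7 12 27 (by decide +kernel)
def w7353 : PV o7353 := fun P h => h.p 3 7 5 27 (by decide +kernel)
def w7354 : PV o7354 := fun P h => h.p 3 7 4 27 (by decide +kernel)
def w7355 : PV o7355 := fun P h => h.d 3 27 (by decide +kernel)
def w7356 : PV o7356 := fun P h => h.u 3 27 (by decide +kernel)
def w7357 : PV o7357 := fun P h => h.p 3 0 0 28 (by decide +kernel)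
def w7358 : PV o7358 := fun P h => h.p 3 2 13 28 (by decide +kernel)
def w7359 : PV o7359 := fun P h => h.p 3 2 12 28 (by decide +kernel)
def w7360 : PV o7360 := fun P h => h.p 3 4 4 28 (by decide +kernel)
def w7361 : PV o7361 := fun P h => h.p 3 4 0 28 (by decide +kernel)
def w7362 : PV o7362 := fun P h => h.p 3 5 12 28 (by decide +kernel)
def w7363 : PV o7363 := fun P h => h.p 3 6 12 28 (by decide +kernel)
def w7364 : PV o7364 := fun P h => h.p 3 6 5 28 (by decide +kernel)
def w7365 : PV o7365 := fun P h => h.p 3 6 0 28 (by decide +kernel)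
def w7366 : PV o7366 := fun P h => h.p 3 7 15 28 (by decide +kernel)
def w7367 : PV o7367 := fun P h => h.p 3 7 13 28 (by decide +kernel)
def w7368 : PV o7368 := fun P h => h.p 3 7 12 28 (by decide +kernel)
def w7369 : PV o7369 := fun P h => h.p 3 7 5 28 (by decide +kernel)
def w7370 : PV o7370 := fun P h => h.p 3 7 4 28 (by decide +kernel)
def w7371 : PV o7371 := fun P h => h.p 3 7 0 28 (by decide +kernel)
def w7372 : PV o7372 := fun P h => h.d 3 28 (by decide +kernel)
def w7373 : PV o7373 := fun P h => h.u 3 28 (by decide +kernel)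
def w7374 : PV o7374 := fun P h => h.p 3 0 12 29 (by decide +kernel)
def w7375 : PV o7375 := fun P h => h.p 3 6 13 29 (by decide +kernel)
def w7376 : PV o7376 := fun P h => h.p 3 6 12 29 (by decide +kernel)
def w7377 : PV o7377 := fun P h => h.p 3 7 15 29 (by decide +kernel)
def w7378 : PV o7378 := fun P h => h.p 3 7 13 29 (by decide +kernel)
def w7379 : PV o7379 := fun P h => h.p 3 7 12 29 (by decide +kernel)
def w7380 : PV o7380 := fun P h => h.p 3 7 5 29 (by decide +kernel)
def w7381 : PV o7381 := fun P h => h.d 3 29 (by decide +kernel)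
def w7382 : PV o7382 := fun P h => h.u 3 29 (by decide +kernel)
def w7383 : PV o7383 := fun P h => h.p 3 2 13 30 (by decide +kernel)
def w7384 : PV o7384 := fun P h => h.p 3 2 12 30 (by decide +kernel)
def w7385 : PV o7385 := fun P h => h.p 3 4 15 30 (by decide +kernel)
def w7386 : PV o7386 := fun P h => h.p 3 5 13 30 (by decide +kernel)
def w7387 : PV o7387 := fun P h => h.p 3 5 12 30 (by decide +kernel)
def w7388 : PV o7388 := fun P h => h.p 3 6 15 30 (by decide +kernel)
def w7389 : PV o7389 := fun P h => h.p 3 6 13 30 (by decide +kernel)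
def w7390 : PV o7390 := fun P h => h.p 3 7 15 30 (by decide +kernel)
def w7391 : PV o7391 := fun P h => h.p 3 7 13 30 (by decide +kernel)
def w7392 : PV o7392 := fun P h => h.p 3 7 5 30 (by decide +kernel)
def w7393 : PV o7393 := fun P h => h.d 3 30 (by decide +kernel)
def w7394 : PV o7394 := fun P h => h.u 3 30 (by decide +kernel)
def w7395 : PV o7395 := fun P h => h.p 3 3 15 31 (by decide +kernel)
def w7396 : PV o7396 := fun P h => h.u 3 31 (by decide +kernel)
def w7397 : PV o7397 := fun P h => h.p 4 3 5 0 (by decide +kernel)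
def w7398 : PV o7398 := fun P h => h.p 4 3 4 0 (by decide +kernel)
def w7399 : PV o7399 := fun P h => h.p 4 7 15 0 (by decide +kernel)
def w7400 : PV o7400 := fun P h => h.p 4 7 4 0 (by decide +kernel)
def w7401 : PV o7401 := fun P h => h.p 4 3 4 1 (by decide +kernel)
def w7402 : PV o7402 := fun P h => h.p 4 3 0 1 (by decide +kernel)
def w7403 : PV o7403 := fun P h => h.p 4 7 15 1 (by decide +kernel)
def w7404 : PV o7404 := fun P h => h.p 4 7 4 1 (by decide +kernel)
def w7405 : PV o7405 := fun P h => h.p 4 1 15 2 (by decide +kernel)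
def w7406 : PV o7406 := fun P h => h.p 4 1 12 2 (by decide +kernel)
def w7407 : PV o7407 := fun P h => h.p 4 1 5 2 (by decide +kernel)
def w7408 : PV o7408 := fun P h => h.p 4 1 4 2 (by decide +kernel)
def w7409 : PV o7409 := fun P h => h.p 4 3 15 2 (by decide +kernel)
def w7410 : PV o7410 := fun P h => h.p 4 3 13 2 (by decide +kernel)
def w7411 : PV o7411 := fun P h => h.p 4 3 12 2 (by decide +kernel)
def w7412 : PV o7412 := fun P h => h.p 4 3 5 2 (by decide +kernel)
def w7413 : PV o7413 := fun P h => h.p 4 3 4 2 (by decide +kernel)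
def w7414 : PV o7414 := fun P h => h.p 4 3 0 2 (by decide +kernel)
def w7415 : PV o7415 := fun P h => h.p 4 7 13 2 (by decide +kernel)
def w7416 : PV o7416 := fun P h => h.p 4 7 12 2 (by decide +kernel)
def w7417 : PV o7417 := fun P h => h.p 4 7 4 2 (by decide +kernel)
def w7418 : PV o7418 := fun P h => h.p 4 7 0 2 (by decide +kernel)
def w7419 : PV o7419 := fun P h => h.d 4 2 (by decide +kernel)
def w7420 : PV o7420 := fun P h => h.u 4 2 (by decide +kernel)
def w7421 : PV o7421 := fun P h => h.p 4 1 5 3 (by decide +kernel)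
def w7422 : PV o7422 := fun P h => h.p 4 3 15 3 (by decide +kernel)
def w7423 : PV o7423 := fun P h => h.p 4 3 13 3 (by decide +kernel)
def w7424 : PV o7424 := fun P h => h.p 4 3 12 3 (by decide +kernel)
def w7425 : PV o7425 := fun P h => h.p 4 3 4 3 (by decide +kernel)
def w7426 : PV o7426 := fun P h => h.p 4 3 0 3 (by decide +kernel)
def w7427 : PV o7427 := fun P h => h.p 4 6 5 3 (by decide +kernel)
def w7428 : PV o7428 := fun P h => h.p 4 7 15 3 (by decide +kernel)
def w7429 : PV o7429 := fun P h => h.p 4 7 12 3 (by decide +kernel)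
def w7430 : PV o7430 := fun P h => h.p 4 7 4 3 (by decide +kernel)
def w7431 : PV o7431 := fun P h => h.p 4 1 12 4 (by decide +kernel)
def w7432 : PV o7432 := fun P h => h.p 4 3 12 4 (by decide +kernel)
def w7433 : PV o7433 := fun P h => h.p 4 3 5 4 (by decide +kernel)
def w7434 : PV o7434 := fun P h => h.p 4 3 4 4 (by decide +kernel)
def w7435 : PV o7435 := fun P h => h.p 4 7 4 4 (by decide +kernel)
def w7436 : PV o7436 := fun P h => h.p 4 3 15 5 (by decide +kernel)
def w7437 : PV o7437 := fun P h => h.p 4 3 13 5 (by decide +kernel)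
def w7438 : PV o7438 := fun P h => h.p 4 3 12 5 (by decide +kernel)
def w7439 : PV o7439 := fun P h => h.p 4 3 4 5 (by decide +kernel)
def w7440 : PV o7440 := fun P h => h.p 4 3 0 5 (by decide +kernel)
def w7441 : PV o7441 := fun P h => h.p 4 7 15 5 (by decide +kernel)
def w7442 : PV o7442 := fun P h => h.u 4 5 (by decide +kernel)
def w7443 : PV o7443 := fun P h => h.p 4 1 12 6 (by decide +kernel)
def w7444 : PV o7444 := fun P h => h.p 4 3 15 6 (by decide +kernel)
def w7445 : PV o7445 := fun P h => h.p 4 3 13 6 (by decide +kernel)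
def w7446 : PV o7446 := fun P h => h.p 4 3 5 6 (by decide +kernel)
def w7447 : PV o7447 := fun P h => h.p 4 3 4 6 (by decide +kernel)
def w7448 : PV o7448 := fun P h => h.p 4 7 4 6 (by decide +kernel)
def w7449 : PV o7449 := fun P h => h.p 4 3 15 7 (by decide +kernel)
def w7450 : PV o7450 := fun P h => h.p 4 3 13 7 (by decide +kernel)
def w7451 : PV o7451 := fun P h => h.p 4 3 5 7 (by decide +kernel)
def w7452 : PV o7452 := fun P h => h.p 4 6 5 7 (by decide +kernel)
def w7453 : PV o7453 := fun P h => h.p 4 1 0 8 (by decide +kernel)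
def w7454 : PV o7454 := fun P h => h.p 4 3 15 8 (by decide +kernel)
def w7455 : PV o7455 := fun P h => h.p 4 3 4 8 (by decide +kernel)
def w7456 : PV o7456 := fun P h => h.p 4 3 0 8 (by decide +kernel)
def w7457 : PV o7457 := fun P h => h.p 4 5 5 8 (by decide +kernel)
def w7458 : PV o7458 := fun P h => h.p 4 7 15 8 (by decide +kernel)
def w7459 : PV o7459 := fun P h => h.p 4 7 4 8 (by decide +kernel)
def w7460 : PV o7460 := fun P h => h.p 4 7 0 8 (by decide +kernel)
def w7461 : PV o7461 := fun P h => h.p 4 3 15 9 (by decide +kernel)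
def w7462 : PV o7462 := fun P h => h.p 4 3 12 9 (by decide +kernel)
def w7463 : PV o7463 := fun P h => h.p 4 3 4 9 (by decide +kernel)
def w7464 : PV o7464 := fun P h => h.p 4 3 0 9 (by decide +kernel)
def w7465 : PV o7465 := fun P h => h.p 4 7 15 9 (by decide +kernel)
def w7466 : PV o7466 := fun P h => h.p 4 7 4 9 (by decide +kernel)
def w7467 : PV o7467 := fun P h => h.d 4 9 (by decide +kernel)
def w7468 : PV o7468 := fun P h => h.p 4 1 12 10 (by decide +kernel)
def w7469 : PV o7469 := fun P h => h.p 4 1 5 10 (by decide +kernel)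
def w7470 : PV o7470 := fun P h => h.p 4 1 4 10 (by decide +kernel)
def w7471 : PV o7471 := fun P h => h.p 4 3 15 10 (by decide +kernel)
def w7472 : PV o7472 := fun P h => h.p 4 3 13 10 (by decide +kernel)
def w7473 : PV o7473 := fun P h => h.p 4 3 12 10 (by decide +kernel)
def w7474 : PV o7474 := fun P h => h.p 4 3 5 10 (by decide +kernel)
def w7475 : PV o7475 := fun P h => h.p 4 3 4 10 (by decide +kernel)
def w7476 : PV o7476 := fun P h => h.p 4 3 0 10 (by decide +kernel)
def w7477 : PV o7477 := fun P h => h.p 4 5 12 10 (by decide +kernel)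
def w7478 : PV o7478 := fun P h => h.p 4 7 15 10 (by decide +kernel)
def w7479 : PV o7479 := fun P h => h.p 4 7 13 10 (by decide +kernel)
def w7480 : PV o7480 := fun P h => h.p 4 7 12 10 (by decide +kernel)
def w7481 : PV o7481 := fun P h => h.p 4 7 5 10 (by decide +kernel)
def w7482 : PV o7482 := fun P h => h.p 4 7 4 10 (by decide +kernel)
def w7483 : PV o7483 := fun P h => h.p 4 1 5 11 (by decide +kernel)
def w7484 : PV o7484 := fun P h => h.p 4 3 15 11 (by decide +kernel)
def w7485 : PV o7485 := fun P h => h.p 4 3 13 11 (by decide +kernel)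
def w7486 : PV o7486 := fun P h => h.p 4 3 12 11 (by decide +kernel)
def w7487 : PV o7487 := fun P h => h.p 4 3 5 11 (by decide +kernel)
def w7488 : PV o7488 := fun P h => h.p 4 3 4 11 (by decide +kernel)
def w7489 : PV o7489 := fun P h => h.p 4 3 0 11 (by decide +kernel)
def w7490 : PV o7490 := fun P h => h.p 4 4 15 11 (by decide +kernel)
def w7491 : PV o7491 := fun P h => h.p 4 6 15 11 (by decide +kernel)
def w7492 : PV o7492 := fun P h => h.p 4 7 15 11 (by decide +kernel)
def w7493 : PV o7493 := fun P h => h.p 4 7 13 11 (by decide +kernel)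
def w7494 : PV o7494 := fun P h => h.p 4 7 12 11 (by decide +kernel)
def w7495 : PV o7495 := fun P h => h.p 4 7 4 11 (by decide +kernel)
def w7496 : PV o7496 := fun P h => h.u 4 11 (by decide +kernel)
def w7497 : PV o7497 := fun P h => h.p 4 3 15 12 (by decide +kernel)
def w7498 : PV o7498 := fun P h => h.p 4 3 13 12 (by decide +kernel)
def w7499 : PV o7499 := fun P h => h.p 4 3 12 12 (by decide +kernel)
def w7500 : PV o7500 := fun P h => h.p 4 3 5 12 (by decide +kernel)
def w7501 : PV o7501 := fun P h => h.p 4 3 4 12 (by decide +kernel)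
def w7502 : PV o7502 := fun P h => h.p 4 3 0 12 (by decide +kernel)
def w7503 : PV o7503 := fun P h => h.p 4 6 0 12 (by decide +kernel)
def w7504 : PV o7504 := fun P h => h.p 4 7 5 12 (by decide +kernel)
def w7505 : PV o7505 := fun P h => h.p 4 7 4 12 (by decide +kernel)
def w7506 : PV o7506 := fun P h => h.p 4 1 15 13 (by decide +kernel)
def w7507 : PV o7507 := fun P h => h.p 4 3 15 13 (by decide +kernel)
def w7508 : PV o7508 := fun P h => h.p 4 3 13 13 (by decide +kernel)
def w7509 : PV o7509 := fun P h => h.p 4 3 12 13 (by decide +kernel)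
def w7510 : PV o7510 := fun P h => h.p 4 3 5 13 (by decide +kernel)
def w7511 : PV o7511 := fun P h => h.p 4 3 4 13 (by decide +kernel)
def w7512 : PV o7512 := fun P h => h.p 4 6 15 13 (by decide +kernel)
def w7513 : PV o7513 := fun P h => h.p 4 7 15 13 (by decide +kernel)
def w7514 : PV o7514 := fun P h => h.u 4 13 (by decide +kernel)
def w7515 : PV o7515 := fun P h => h.p 4 3 15 14 (by decide +kernel)
def w7516 : PV o7516 := fun P h => h.p 4 3 13 14 (by decide +kernel)
def w7517 : PV o7517 := fun P h => h.p 4 3 5 14 (by decide +kernel)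
def w7518 : PV o7518 := fun P h => h.p 4 3 4 14 (by decide +kernel)
def w7519 : PV o7519 := fun P h => h.u 4 14 (by decide +kernel)
def w7520 : PV o7520 := fun P h => h.p 4 3 15 15 (by decide +kernel)
def w7521 : PV o7521 := fun P h => h.p 4 3 13 15 (by decide +kernel)
def w7522 : PV o7522 := fun P h => h.p 4 3 12 15 (by decide +kernel)
def w7523 : PV o7523 := fun P h => h.p 4 3 5 15 (by decide +kernel)
def w7524 : PV o7524 := fun P h => h.p 4 7 15 15 (by decide +kernel)
def w7525 : PV o7525 := fun P h => h.u 4 15 (by decide +kernel)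
def w7526 : PV o7526 := fun P h => h.p 4 1 12 16 (by decide +kernel)
def w7527 : PV o7527 := fun P h => h.p 4 3 12 16 (by decide +kernel)
def w7528 : PV o7528 := fun P h => h.p 4 3 5 16 (by decide +kernel)
def w7529 : PV o7529 := fun P h => h.p 4 3 4 16 (by decide +kernel)
def w7530 : PV o7530 := fun P h => h.p 4 3 0 16 (by decide +kernel)
def w7531 : PV o7531 := fun P h => h.p 4 4 5 16 (by decide +kernel)
def w7532 : PV o7532 := fun P h => h.p 4 7 4 16 (by decide +kernel)
def w7533 : PV o7533 := fun P h => h.p 4 0 0 17 (by decide +kernel)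
def w7534 : PV o7534 := fun P h => h.p 4 1 5 17 (by decide +kernel)
def w7535 : PV o7535 := fun P h => h.p 4 3 15 17 (by decide +kernel)
def w7536 : PV o7536 := fun P h => h.p 4 3 12 17 (by decide +kernel)
def w7537 : PV o7537 := fun P h => h.p 4 3 4 17 (by decide +kernel)
def w7538 : PV o7538 := fun P h => h.p 4 7 4 17 (by decide +kernel)
def w7539 : PV o7539 := fun P h => h.p 4 1 15 18 (by decide +kernel)
def w7540 : PV o7540 := fun P h => h.p 4 1 13 18 (by decide +kernel)
def w7541 : PV o7541 := fun P h => h.p 4 1 12 18 (by decide +kernel)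
def w7542 : PV o7542 := fun P h => h.p 4 1 5 18 (by decide +kernel)
def w7543 : PV o7543 := fun P h => h.p 4 1 4 18 (by decide +kernel)
def w7544 : PV o7544 := fun P h => h.p 4 1 0 18 (by decide +kernel)
def w7545 : PV o7545 := fun P h => h.p 4 3 15 18 (by decide +kernel)
def w7546 : PV o7546 := fun P h => h.p 4 3 13 18 (by decide +kernel)
def w7547 : PV o7547 := fun P h => h.p 4 3 12 18 (by decide +kernel)
def w7548 : PV o7548 := fun P h => h.p 4 3 5 18 (by decide +kernel)
def w7549 : PV o7549 := fun P h => h.p 4 3 4 18 (by decide +kernel)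
def w7550 : PV o7550 := fun P h => h.p 4 3 0 18 (by decide +kernel)
def w7551 : PV o7551 := fun P h => h.p 4 7 15 18 (by decide +kernel)
def w7552 : PV o7552 := fun P h => h.p 4 7 13 18 (by decide +kernel)
def w7553 : PV o7553 := fun P h => h.p 4 7 12 18 (by decide +kernel)
def w7554 : PV o7554 := fun P h => h.p 4 7 5 18 (by decide +kernel)
def w7555 : PV o7555 := fun P h => h.p 4 7 4 18 (by decide +kernel)
def w7556 : PV o7556 := fun P h => h.p 4 7 0 18 (by decide +kernel)
def w7557 : PV o7557 := fun P h => h.p 4 3 15 19 (by decide +kernel)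
def w7558 : PV o7558 := fun P h => h.p 4 3 13 19 (by decide +kernel)
def w7559 : PV o7559 := fun P h => h.p 4 3 12 19 (by decide +kernel)
def w7560 : PV o7560 := fun P h => h.p 4 3 5 19 (by decide +kernel)
def w7561 : PV o7561 := fun P h => h.p 4 3 4 19 (by decide +kernel)
def w7562 : PV o7562 := fun P h => h.p 4 3 0 19 (by decide +kernel)
def w7563 : PV o7563 := fun P h => h.p 4 4 15 19 (by decide +kernel)
def w7564 : PV o7564 := fun P h => h.p 4 5 15 19 (by decide +kernel)
def w7565 : PV o7565 := fun P h => h.p 4 6 15 19 (by decide +kernel)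
def w7566 : PV o7566 := fun P h => h.p 4 6 13 19 (by decide +kernel)
def w7567 : PV o7567 := fun P h => h.p 4 7 15 19 (by decide +kernel)
def w7568 : PV o7568 := fun P h => h.p 4 7 13 19 (by decide +kernel)
def w7569 : PV o7569 := fun P h => h.p 4 7 12 19 (by decide +kernel)
def w7570 : PV o7570 := fun P h => h.p 4 7 5 19 (by decide +kernel)
def w7571 : PV o7571 := fun P h => h.u 4 19 (by decide +kernel)
def w7572 : PV o7572 := fun P h => h.p 4 1 12 20 (by decide +kernel)
def w7573 : PV o7573 := fun P h => h.p 4 3 15 20 (by decide +kernel)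
def w7574 : PV o7574 := fun P h => h.p 4 3 13 20 (by decide +kernel)
def w7575 : PV o7575 := fun P h => h.p 4 3 12 20 (by decide +kernel)
def w7576 : PV o7576 := fun P h => h.p 4 3 5 20 (by decide +kernel)
def w7577 : PV o7577 := fun P h => h.p 4 3 4 20 (by decide +kernel)
def w7578 : PV o7578 := fun P h => h.p 4 6 0 20 (by decide +kernel)
def w7579 : PV o7579 := fun P h => h.p 4 7 4 20 (by decide +kernel)
def w7580 : PV o7580 := fun P h => h.p 4 1 15 21 (by decide +kernel)
def w7581 : PV o7581 := fun P h => h.p 4 3 15 21 (by decide +kernel)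
def w7582 : PV o7582 := fun P h => h.p 4 3 13 21 (by decide +kernel)
def w7583 : PV o7583 := fun P h => h.p 4 3 12 21 (by decide +kernel)
def w7584 : PV o7584 := fun P h => h.p 4 3 5 21 (by decide +kernel)
def w7585 : PV o7585 := fun P h => h.p 4 3 4 21 (by decide +kernel)
def w7586 : PV o7586 := fun P h => h.p 4 6 15 21 (by decide +kernel)
def w7587 : PV o7587 := fun P h => h.p 4 7 12 21 (by decide +kernel)
def w7588 : PV o7588 := fun P h => h.u 4 21 (by decide +kernel)
def w7589 : PV o7589 := fun P h => h.p 4 3 12 22 (by decide +kernel)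
def w7590 : PV o7590 := fun P h => h.p 4 3 5 22 (by decide +kernel)
def w7591 : PV o7591 := fun P h => h.p 4 3 4 22 (by decide +kernel)
def w7592 : PV o7592 := fun P h => h.p 4 4 12 22 (by decide +kernel)
def w7593 : PV o7593 := fun P h => h.p 4 5 15 22 (by decide +kernel)
def w7594 : PV o7594 := fun P h => h.p 4 6 12 22 (by decide +kernel)
def w7595 : PV o7595 := fun P h => h.u 4 22 (by decide +kernel)
def w7596 : PV o7596 := fun P h => h.p 4 3 15 23 (by decide +kernel)
def w7597 : PV o7597 := fun P h => h.p 4 3 13 23 (by decide +kernel)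
def w7598 : PV o7598 := fun P h => h.p 4 3 12 23 (by decide +kernel)
def w7599 : PV o7599 := fun P h => h.p 4 3 4 23 (by decide +kernel)
def w7600 : PV o7600 := fun P h => h.u 4 23 (by decide +kernel)
def w7601 : PV o7601 := fun P h => h.p 4 3 13 24 (by decide +kernel)
def w7602 : PV o7602 := fun P h => h.p 4 3 12 24 (by decide +kernel)
def w7603 : PV o7603 := fun P h => h.p 4 3 5 24 (by decide +kernel)
def w7604 : PV o7604 := fun P h => h.p 4 3 4 24 (by decide +kernel)
def w7605 : PV o7605 := fun P h => h.p 4 3 0 24 (by decide +kernel)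
def w7606 : PV o7606 := fun P h => h.p 4 5 12 24 (by decide +kernel)
def w7607 : PV o7607 := fun P h => h.p 4 7 4 24 (by decide +kernel)
def w7608 : PV o7608 := fun P h => h.p 4 7 0 24 (by decide +kernel)
def w7609 : PV o7609 := fun P h => h.u 4 24 (by decide +kernel)
def w7610 : PV o7610 := fun P h => h.p 4 3 15 25 (by decide +kernel)
def w7611 : PV o7611 := fun P h => h.p 4 3 13 25 (by decide +kernel)
def w7612 : PV o7612 := fun P h => h.p 4 3 12 25 (by decide +kernel)
def w7613 : PV o7613 := fun P h => h.p 4 3 4 25 (by decide +kernel)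
def w7614 : PV o7614 := fun P h => h.p 4 7 4 25 (by decide +kernel)
def w7615 : PV o7615 := fun P h => h.p 4 1 15 26 (by decide +kernel)
def w7616 : PV o7616 := fun P h => h.p 4 1 5 26 (by decide +kernel)
def w7617 : PV o7617 := fun P h => h.p 4 1 4 26 (by decide +kernel)
def w7618 : PV o7618 := fun P h => h.p 4 3 15 26 (by decide +kernel)
def w7619 : PV o7619 := fun P h => h.p 4 3 13 26 (by decide +kernel)
def w7620 : PV o7620 := fun P h => h.p 4 3 12 26 (by decide +kernel)
def w7621 : PV o7621 := fun P h => h.p 4 3 5 26 (by decide +kernel)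
def w7622 : PV o7622 := fun P h => h.p 4 3 4 26 (by decide +kernel)
def w7623 : PV o7623 := fun P h => h.p 4 5 12 26 (by decide +kernel)
def w7624 : PV o7624 := fun P h => h.p 4 5 4 26 (by decide +kernel)
def w7625 : PV o7625 := fun P h => h.p 4 6 15 26 (by decide +kernel)
def w7626 : PV o7626 := fun P h => h.p 4 6 12 26 (by decide +kernel)
def w7627 : PV o7627 := fun P h => h.p 4 7 15 26 (by decide +kernel)
def w7628 : PV o7628 := fun P h => h.p 4 7 13 26 (by decide +kernel)
def w7629 : PV o7629 := fun P h => h.p 4 7 12 26 (by decide +kernel)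
def w7630 : PV o7630 := fun P h => h.p 4 7 5 26 (by decide +kernel)
def w7631 : PV o7631 := fun P h => h.p 4 7 4 26 (by decide +kernel)
def w7632 : PV o7632 := fun P h => h.p 4 1 15 27 (by decide +kernel)
def w7633 : PV o7633 := fun P h => h.p 4 1 5 27 (by decide +kernel)
def w7634 : PV o7634 := fun P h => h.p 4 3 15 27 (by decide +kernel)
def w7635 : PV o7635 := fun P h => h.p 4 3 13 27 (by decide +kernel)
def w7636 : PV o7636 := fun P h => h.p 4 3 12 27 (by decide +kernel)
def w7637 : PV o7637 := fun P h => h.p 4 3 4 27 (by decide +kernel)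
def w7638 : PV o7638 := fun P h => h.p 4 4 15 27 (by decide +kernel)
def w7639 : PV o7639 := fun P h => h.p 4 6 15 27 (by decide +kernel)
def w7640 : PV o7640 := fun P h => h.p 4 6 13 27 (by decide +kernel)
def w7641 : PV o7641 := fun P h => h.p 4 7 15 27 (by decide +kernel)
def w7642 : PV o7642 := fun P h => h.p 4 7 13 27 (by decide +kernel)
def w7643 : PV o7643 := fun P h => h.p 4 7 12 27 (by decide +kernel)
def w7644 : PV o7644 := fun P h => h.p 4 3 15 28 (by decide +kernel)
def w7645 : PV o7645 := fun P h => h.p 4 3 13 28 (by decide +kernel)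
def w7646 : PV o7646 := fun P h => h.p 4 3 12 28 (by decide +kernel)
def w7647 : PV o7647 := fun P h => h.p 4 3 5 28 (by decide +kernel)
def w7648 : PV o7648 := fun P h => h.p 4 3 4 28 (by decide +kernel)
def w7649 : PV o7649 := fun P h => h.p 4 5 13 28 (by decide +kernel)
def w7650 : PV o7650 := fun P h => h.p 4 6 15 28 (by decide +kernel)
def w7651 : PV o7651 := fun P h => h.p 4 7 5 28 (by decide +kernel)
def w7652 : PV o7652 := fun P h => h.p 4 7 4 28 (by decide +kernel)
def w7653 : PV o7653 := fun P h => h.p 4 3 15 29 (by decide +kernel)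
def w7654 : PV o7654 := fun P h => h.p 4 3 13 29 (by decide +kernel)
def w7655 : PV o7655 := fun P h => h.p 4 3 12 29 (by decide +kernel)
def w7656 : PV o7656 := fun P h => h.p 4 7 15 29 (by decide +kernel)
def w7657 : PV o7657 := fun P h => h.p 4 3 15 30 (by decide +kernel)
def w7658 : PV o7658 := fun P h => h.p 4 3 13 30 (by decide +kernel)
def w7659 : PV o7659 := fun P h => h.p 4 3 12 30 (by decide +kernel)
def w7660 : PV o7660 := fun P h => h.u 4 30 (by decide +kernel)
def w7661 : PV o7661 := fun P h => h.p 4 3 15 31 (by decide +kernel)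
def w7662 : PV o7662 := fun P h => h.p 5 1 0 0 (by decide +kernel)
def w7663 : PV o7663 := fun P h => h.p 5 3 13 0 (by decide +kernel)
def w7664 : PV o7664 := fun P h => h.p 5 3 5 0 (by decide +kernel)
def w7665 : PV o7665 := fun P h => h.p 5 3 4 0 (by decide +kernel)
def w7666 : PV o7666 := fun P h => h.p 5 3 0 0 (by decide +kernel)
def w7667 : PV o7667 := fun P h => h.p 5 4 0 0 (by decide +kernel)
def w7668 : PV o7668 := fun P h => h.p 5 6 13 0 (by decide +kernel)
def w7669 : PV o7669 := fun P h => h.p 5 6 0 0 (by decide +kernel)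
def w7670 : PV o7670 := fun P h => h.p 5 7 5 0 (by decide +kernel)
def w7671 : PV o7671 := fun P h => h.p 5 7 0 0 (by decide +kernel)
def w7672 : PV o7672 := fun P h => h.d 5 0 (by decide +kernel)
def w7673 : PV o7673 := fun P h => h.p 5 0 0 1 (by decide +kernel)
def w7674 : PV o7674 := fun P h => h.p 5 1 15 1 (by decide +kernel)
def w7675 : PV o7675 := fun P h => h.p 5 1 5 1 (by decide +kernel)
def w7676 : PV o7676 := fun P h => h.p 5 1 4 1 (by decide +kernel)
def w7677 : PV o7677 := fun P h => h.p 5 1 0 1 (by decide +kernel)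
def w7678 : PV o7678 := fun P h => h.p 5 3 15 1 (by decide +kernel)
def w7679 : PV o7679 := fun P h => h.p 5 3 13 1 (by decide +kernel)
def w7680 : PV o7680 := fun P h => h.p 5 3 4 1 (by decide +kernel)
def w7681 : PV o7681 := fun P h => h.p 5 3 0 1 (by decide +kernel)
def w7682 : PV o7682 := fun P h => h.p 5 4 4 1 (by decide +kernel)
def w7683 : PV o7683 := fun P h => h.p 5 4 0 1 (by decide +kernel)
def w7684 : PV o7684 := fun P h => h.p 5 6 13 1 (by decide +kernel)
def w7685 : PV o7685 := fun P h => h.p 5 6 5 1 (by decide +kernel)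
def w7686 : PV o7686 := fun P h => h.p 5 6 0 1 (by decide +kernel)
def w7687 : PV o7687 := fun P h => h.d 5 1 (by decide +kernel)
def w7688 : PV o7688 := fun P h => h.u 5 1 (by decide +kernel)
def w7689 : PV o7689 := fun P h => h.p 5 0 0 2 (by decide +kernel)
def w7690 : PV o7690 := fun P h => h.p 5 1 15 2 (by decide +kernel)
def w7691 : PV o7691 := fun P h => h.p 5 1 12 2 (by decide +kernel)
def w7692 : PV o7692 := fun P h => h.p 5 1 5 2 (by decide +kernel)
def w7693 : PV o7693 := fun P h => h.p 5 1 4 2 (by decide +kernel)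
def w7694 : PV o7694 := fun P h => h.p 5 1 0 2 (by decide +kernel)
def w7695 : PV o7695 := fun P h => h.p 5 3 13 2 (by decide +kernel)
def w7696 : PV o7696 := fun P h => h.p 5 3 5 2 (by decide +kernel)
def w7697 : PV o7697 := fun P h => h.p 5 3 4 2 (by decide +kernel)
def w7698 : PV o7698 := fun P h => h.p 5 3 0 2 (by decide +kernel)
def w7699 : PV o7699 := fun P h => h.p 5 4 4 2 (by decide +kernel)
def w7700 : PV o7700 := fun P h => h.p 5 4 0 2 (by decide +kernel)
def w7701 : PV o7701 := fun P h => h.p 5 5 4 2 (by decide +kernel)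
def w7702 : PV o7702 := fun P h => h.p 5 5 0 2 (by decide +kernel)
def w7703 : PV o7703 := fun P h => h.p 5 6 15 2 (by decide +kernel)
def w7704 : PV o7704 := fun P h => h.p 5 6 13 2 (by decide +kernel)
def w7705 : PV o7705 := fun P h => h.p 5 6 12 2 (by decide +kernel)
def w7706 : PV o7706 := fun P h => h.p 5 6 5 2 (by decide +kernel)
def w7707 : PV o7707 := fun P h => h.p 5 6 4 2 (by decide +kernel)
def w7708 : PV o7708 := fun P h => h.p 5 6 0 2 (by decide +kernel)
def w7709 : PV o7709 := fun P h => h.p 5 7 5 2 (by decide +kernel)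
def w7710 : PV o7710 := fun P h => h.d 5 2 (by decide +kernel)
def w7711 : PV o7711 := fun P h => h.u 5 2 (by decide +kernel)
def w7712 : PV o7712 := fun P h => h.p 5 1 15 3 (by decide +kernel)
def w7713 : PV o7713 := fun P h => h.p 5 1 13 3 (by decide +kernel)
def w7714 : PV o7714 := fun P h => h.p 5 1 12 3 (by decide +kernel)
def w7715 : PV o7715 := fun P h => h.p 5 1 5 3 (by decide +kernel)
def w7716 : PV o7716 := fun P h => h.p 5 1 4 3 (by decide +kernel)
def w7717 : PV o7717 := fun P h => h.p 5 1 0 3 (by decide +kernel)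
def w7718 : PV o7718 := fun P h => h.p 5 3 15 3 (by decide +kernel)
def w7719 : PV o7719 := fun P h => h.p 5 3 13 3 (by decide +kernel)
def w7720 : PV o7720 := fun P h => h.p 5 3 5 3 (by decide +kernel)
def w7721 : PV o7721 := fun P h => h.p 5 3 4 3 (by decide +kernel)
def w7722 : PV o7722 := fun P h => h.p 5 3 0 3 (by decide +kernel)
def w7723 : PV o7723 := fun P h => h.p 5 4 13 3 (by decide +kernel)
def w7724 : PV o7724 := fun P h => h.p 5 4 12 3 (by decide +kernel)
def w7725 : PV o7725 := fun P h => h.p 5 4 4 3 (by decide +kernel)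
def w7726 : PV o7726 := fun P h => h.p 5 4 0 3 (by decide +kernel)
def w7727 : PV o7727 := fun P h => h.p 5 5 0 3 (by decide +kernel)
def w7728 : PV o7728 := fun P h => h.p 5 6 15 3 (by decide +kernel)
def w7729 : PV o7729 := fun P h => h.p 5 6 13 3 (by decide +kernel)
def w7730 : PV o7730 := fun P h => h.p 5 6 5 3 (by decide +kernel)
def w7731 : PV o7731 := fun P h => h.p 5 6 4 3 (by decide +kernel)
def w7732 : PV o7732 := fun P h => h.p 5 6 0 3 (by decide +kernel)
def w7733 : PV o7733 := fun P h => h.p 5 7 5 3 (by decide +kernel)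
def w7734 : PV o7734 := fun P h => h.d 5 3 (by decide +kernel)
def w7735 : PV o7735 := fun P h => h.p 5 1 15 4 (by decide +kernel)
def w7736 : PV o7736 := fun P h => h.p 5 1 13 4 (by decide +kernel)
def w7737 : PV o7737 := fun P h => h.p 5 1 12 4 (by decide +kernel)
def w7738 : PV o7738 := fun P h => h.p 5 1 5 4 (by decide +kernel)
def w7739 : PV o7739 := fun P h => h.p 5 1 4 4 (by decide +kernel)
def w7740 : PV o7740 := fun P h => h.p 5 1 0 4 (by decide +kernel)
def w7741 : PV o7741 := fun P h => h.p 5 3 5 4 (by decide +kernel)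
def w7742 : PV o7742 := fun P h => h.p 5 3 4 4 (by decide +kernel)
def w7743 : PV o7743 := fun P h => h.p 5 3 0 4 (by decide +kernel)
def w7744 : PV o7744 := fun P h => h.p 5 4 5 4 (by decide +kernel)
def w7745 : PV o7745 := fun P h => h.p 5 4 4 4 (by decide +kernel)
def w7746 : PV o7746 := fun P h => h.p 5 6 13 4 (by decide +kernel)
def w7747 : PV o7747 := fun P h => h.p 5 6 5 4 (by decide +kernel)
def w7748 : PV o7748 := fun P h => h.p 5 6 4 4 (by decide +kernel)
def w7749 : PV o7749 := fun P h => h.p 5 6 0 4 (by decide +kernel)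
def w7750 : PV o7750 := fun P h => h.p 5 7 5 4 (by decide +kernel)
def w7751 : PV o7751 := fun P h => h.p 5 7 0 4 (by decide +kernel)
def w7752 : PV o7752 := fun P h => h.d 5 4 (by decide +kernel)
def w7753 : PV o7753 := fun P h => h.p 5 1 15 5 (by decide +kernel)
def w7754 : PV o7754 := fun P h => h.p 5 1 13 5 (by decide +kernel)
def w7755 : PV o7755 := fun P h => h.p 5 1 5 5 (by decide +kernel)
def w7756 : PV o7756 := fun P h => h.p 5 1 4 5 (by decide +kernel)
def w7757 : PV o7757 := fun P h => h.p 5 1 0 5 (by decide +kernel)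
def w7758 : PV o7758 := fun P h => h.p 5 3 15 5 (by decide +kernel)
def w7759 : PV o7759 := fun P h => h.p 5 3 5 5 (by decide +kernel)
def w7760 : PV o7760 := fun P h => h.p 5 3 4 5 (by decide +kernel)
def w7761 : PV o7761 := fun P h => h.p 5 3 0 5 (by decide +kernel)
def w7762 : PV o7762 := fun P h => h.p 5 4 5 5 (by decide +kernel)
def w7763 : PV o7763 := fun P h => h.p 5 4 4 5 (by decide +kernel)
def w7764 : PV o7764 := fun P h => h.p 5 4 0 5 (by decide +kernel)
def w7765 : PV o7765 := fun P h => h.p 5 6 15 5 (by decide +kernel)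
def w7766 : PV o7766 := fun P h => h.p 5 6 13 5 (by decide +kernel)
def w7767 : PV o7767 := fun P h => h.p 5 6 12 5 (by decide +kernel)
def w7768 : PV o7768 := fun P h => h.p 5 6 5 5 (by decide +kernel)
def w7769 : PV o7769 := fun P h => h.p 5 6 4 5 (by decide +kernel)
def w7770 : PV o7770 := fun P h => h.p 5 6 0 5 (by decide +kernel)
def w7771 : PV o7771 := fun P h => h.p 5 7 5 5 (by decide +kernel)
def w7772 : PV o7772 := fun P h => h.p 5 7 4 5 (by decide +kernel)
def w7773 : PV o7773 := fun P h => h.p 5 7 0 5 (by decide +kernel)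
def w7774 : PV o7774 := fun P h => h.d 5 5 (by decide +kernel)
def w7775 : PV o7775 := fun P h => h.u 5 5 (by decide +kernel)
def w7776 : PV o7776 := fun P h => h.p 5 1 4 6 (by decide +kernel)
def w7777 : PV o7777 := fun P h => h.p 5 1 0 6 (by decide +kernel)
def w7778 : PV o7778 := fun P h => h.p 5 3 15 6 (by decide +kernel)
def w7779 : PV o7779 := fun P h => h.p 5 3 13 6 (by decide +kernel)
def w7780 : PV o7780 := fun P h => h.p 5 3 5 6 (by decide +kernel)
def w7781 : PV o7781 := fun P h => h.p 5 3 4 6 (by decide +kernel)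
def w7782 : PV o7782 := fun P h => h.p 5 3 0 6 (by decide +kernel)
def w7783 : PV o7783 := fun P h => h.p 5 4 0 6 (by decide +kernel)
def w7784 : PV o7784 := fun P h => h.p 5 5 5 6 (by decide +kernel)
def w7785 : PV o7785 := fun P h => h.p 5 6 13 6 (by decide +kernel)
def w7786 : PV o7786 := fun P h => h.p 5 6 12 6 (by decide +kernel)
def w7787 : PV o7787 := fun P h => h.p 5 6 5 6 (by decide +kernel)
def w7788 : PV o7788 := fun P h => h.p 5 6 0 6 (by decide +kernel)
def w7789 : PV o7789 := fun P h => h.p 5 7 5 6 (by decide +kernel)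
def w7790 : PV o7790 := fun P h => h.p 5 7 0 6 (by decide +kernel)
def w7791 : PV o7791 := fun P h => h.d 5 6 (by decide +kernel)
def w7792 : PV o7792 := fun P h => h.u 5 6 (by decide +kernel)
def w7793 : PV o7793 := fun P h => h.p 5 1 15 7 (by decide +kernel)
def w7794 : PV o7794 := fun P h => h.p 5 1 13 7 (by decide +kernel)
def w7795 : PV o7795 := fun P h => h.p 5 1 5 7 (by decide +kernel)
def w7796 : PV o7796 := fun P h => h.p 5 1 4 7 (by decide +kernel)
def w7797 : PV o7797 := fun P h => h.p 5 1 0 7 (by decide +kernel)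
def w7798 : PV o7798 := fun P h => h.p 5 3 15 7 (by decide +kernel)
def w7799 : PV o7799 := fun P h => h.p 5 3 13 7 (by decide +kernel)
def w7800 : PV o7800 := fun P h => h.p 5 3 5 7 (by decide +kernel)
def w7801 : PV o7801 := fun P h => h.p 5 3 4 7 (by decide +kernel)
def w7802 : PV o7802 := fun P h => h.p 5 3 0 7 (by decide +kernel)
def w7803 : PV o7803 := fun P h => h.p 5 4 13 7 (by decide +kernel)
def w7804 : PV o7804 := fun P h => h.p 5 4 5 7 (by decide +kernel)
def w7805 : PV o7805 := fun P h => h.p 5 4 4 7 (by decide +kernel)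
def w7806 : PV o7806 := fun P h => h.p 5 4 0 7 (by decide +kernel)
def w7807 : PV o7807 := fun P h => h.p 5 6 15 7 (by decide +kernel)
def w7808 : PV o7808 := fun P h => h.p 5 6 13 7 (by decide +kernel)
def w7809 : PV o7809 := fun P h => h.p 5 6 12 7 (by decide +kernel)
def w7810 : PV o7810 := fun P h => h.p 5 6 5 7 (by decide +kernel)
def w7811 : PV o7811 := fun P h => h.p 5 6 4 7 (by decide +kernel)
def w7812 : PV o7812 := fun P h => h.p 5 6 0 7 (by decide +kernel)
def w7813 : PV o7813 := fun P h => h.d 5 7 (by decide +kernel)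
def w7814 : PV o7814 := fun P h => h.p 5 1 15 8 (by decide +kernel)
def w7815 : PV o7815 := fun P h => h.p 5 1 12 8 (by decide +kernel)
def w7816 : PV o7816 := fun P h => h.p 5 1 5 8 (by decide +kernel)
def w7817 : PV o7817 := fun P h => h.p 5 1 4 8 (by decide +kernel)
def w7818 : PV o7818 := fun P h => h.p 5 1 0 8 (by decide +kernel)
def w7819 : PV o7819 := fun P h => h.p 5 3 4 8 (by decide +kernel)
def w7820 : PV o7820 := fun P h => h.p 5 3 0 8 (by decide +kernel)
def w7821 : PV o7821 := fun P h => h.p 5 4 0 8 (by decide +kernel)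
def w7822 : PV o7822 := fun P h => h.p 5 6 15 8 (by decide +kernel)
def w7823 : PV o7823 := fun P h => h.p 5 6 13 8 (by decide +kernel)
def w7824 : PV o7824 := fun P h => h.p 5 6 12 8 (by decide +kernel)
def w7825 : PV o7825 := fun P h => h.p 5 6 5 8 (by decide +kernel)
def w7826 : PV o7826 := fun P h => h.p 5 6 4 8 (by decide +kernel)
def w7827 : PV o7827 := fun P h => h.p 5 6 0 8 (by decide +kernel)
def w7828 : PV o7828 := fun P h => h.p 5 7 0 8 (by decide +kernel)
def w7829 : PV o7829 := fun P h => h.d 5 8 (by decide +kernel)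
def w7830 : PV o7830 := fun P h => h.u 5 8 (by decide +kernel)
def w7831 : PV o7831 := fun P h => h.p 5 1 15 9 (by decide +kernel)
def w7832 : PV o7832 := fun P h => h.p 5 1 12 9 (by decide +kernel)
def w7833 : PV o7833 := fun P h => h.p 5 1 5 9 (by decide +kernel)
def w7834 : PV o7834 := fun P h => h.p 5 1 4 9 (by decide +kernel)
def w7835 : PV o7835 := fun P h => h.p 5 1 0 9 (by decide +kernel)
def w7836 : PV o7836 := fun P h => h.p 5 3 15 9 (by decide +kernel)
def w7837 : PV o7837 := fun P h => h.p 5 3 12 9 (by decide +kernel)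
def w7838 : PV o7838 := fun P h => h.p 5 3 4 9 (by decide +kernel)
def w7839 : PV o7839 := fun P h => h.p 5 3 0 9 (by decide +kernel)
def w7840 : PV o7840 := fun P h => h.p 5 4 5 9 (by decide +kernel)
def w7841 : PV o7841 := fun P h => h.p 5 5 12 9 (by decide +kernel)
def w7842 : PV o7842 := fun P h => h.p 5 6 15 9 (by decide +kernel)
def w7843 : PV o7843 := fun P h => h.p 5 6 13 9 (by decide +kernel)
def w7844 : PV o7844 := fun P h => h.p 5 6 12 9 (by decide +kernel)
def w7845 : PV o7845 := fun P h => h.p 5 6 5 9 (by decide +kernel)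
def w7846 : PV o7846 := fun P h => h.p 5 6 4 9 (by decide +kernel)
def w7847 : PV o7847 := fun P h => h.p 5 6 0 9 (by decide +kernel)
def w7848 : PV o7848 := fun P h => h.p 5 7 12 9 (by decide +kernel)
def w7849 : PV o7849 := fun P h => h.p 5 7 0 9 (by decide +kernel)
def w7850 : PV o7850 := fun P h => h.d 5 9 (by decide +kernel)
def w7851 : PV o7851 := fun P h => h.u 5 9 (by decide +kernel)
def w7852 : PV o7852 := fun P h => h.p 5 1 15 10 (by decide +kernel)
def w7853 : PV o7853 := fun P h => h.p 5 1 12 10 (by decide +kernel)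
def w7854 : PV o7854 := fun P h => h.p 5 1 5 10 (by decide +kernel)
def w7855 : PV o7855 := fun P h => h.p 5 1 4 10 (by decide +kernel)
def w7856 : PV o7856 := fun P h => h.p 5 1 0 10 (by decide +kernel)
def w7857 : PV o7857 := fun P h => h.p 5 3 15 10 (by decide +kernel)
def w7858 : PV o7858 := fun P h => h.p 5 3 13 10 (by decide +kernel)
def w7859 : PV o7859 := fun P h => h.p 5 3 12 10 (by decide +kernel)
def w7860 : PV o7860 := fun P h => h.p 5 3 5 10 (by decide +kernel)
def w7861 : PV o7861 := fun P h => h.p 5 3 4 10 (by decide +kernel)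
def w7862 : PV o7862 := fun P h => h.p 5 3 0 10 (by decide +kernel)
def w7863 : PV o7863 := fun P h => h.p 5 4 5 10 (by decide +kernel)
def w7864 : PV o7864 := fun P h => h.p 5 4 4 10 (by decide +kernel)
def w7865 : PV o7865 := fun P h => h.p 5 4 0 10 (by decide +kernel)
def w7866 : PV o7866 := fun P h => h.p 5 6 15 10 (by decide +kernel)
def w7867 : PV o7867 := fun P h => h.p 5 6 13 10 (by decide +kernel)
def w7868 : PV o7868 := fun P h => h.p 5 6 12 10 (by decide +kernel)
def w7869 : PV o7869 := fun P h => h.p 5 6 5 10 (by decide +kernel)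
def w7870 : PV o7870 := fun P h => h.p 5 6 4 10 (by decide +kernel)
def w7871 : PV o7871 := fun P h => h.p 5 6 0 10 (by decide +kernel)
def w7872 : PV o7872 := fun P h => h.p 5 7 15 10 (by decide +kernel)
def w7873 : PV o7873 := fun P h => h.p 5 7 13 10 (by decide +kernel)
def w7874 : PV o7874 := fun P h => h.p 5 7 12 10 (by decide +kernel)
def w7875 : PV o7875 := fun P h => h.p 5 7 5 10 (by decide +kernel)
def w7876 : PV o7876 := fun P h => h.p 5 7 4 10 (by decide +kernel)
def w7877 : PV o7877 := fun P h => h.p 5 7 0 10 (by decide +kernel)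
def w7878 : PV o7878 := fun P h => h.d 5 10 (by decide +kernel)
def w7879 : PV o7879 := fun P h => h.u 5 10 (by decide +kernel)
def w7880 : PV o7880 := fun P h => h.p 5 1 15 11 (by decide +kernel)
def w7881 : PV o7881 := fun P h => h.p 5 1 13 11 (by decide +kernel)
def w7882 : PV o7882 := fun P h => h.p 5 1 12 11 (by decide +kernel)
def w7883 : PV o7883 := fun P h => h.p 5 1 5 11 (by decide +kernel)
def w7884 : PV o7884 := fun P h => h.p 5 1 4 11 (by decide +kernel)
def w7885 : PV o7885 := fun P h => h.p 5 1 0 11 (by decide +kernel)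
def w7886 : PV o7886 := fun P h => h.p 5 3 15 11 (by decide +kernel)
def w7887 : PV o7887 := fun P h => h.p 5 3 13 11 (by decide +kernel)
def w7888 : PV o7888 := fun P h => h.p 5 3 5 11 (by decide +kernel)
def w7889 : PV o7889 := fun P h => h.p 5 3 4 11 (by decide +kernel)
def w7890 : PV o7890 := fun P h => h.p 5 4 5 11 (by decide +kernel)
def w7891 : PV o7891 := fun P h => h.p 5 4 4 11 (by decide +kernel)
def w7892 : PV o7892 := fun P h => h.p 5 4 0 11 (by decide +kernel)
def w7893 : PV o7893 := fun P h => h.p 5 5 12 11 (by decide +kernel)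
def w7894 : PV o7894 := fun P h => h.p 5 6 15 11 (by decide +kernel)
def w7895 : PV o7895 := fun P h => h.p 5 6 13 11 (by decide +kernel)
def w7896 : PV o7896 := fun P h => h.p 5 6 12 11 (by decide +kernel)
def w7897 : PV o7897 := fun P h => h.p 5 6 5 11 (by decide +kernel)
def w7898 : PV o7898 := fun P h => h.p 5 6 4 11 (by decide +kernel)
def w7899 : PV o7899 := fun P h => h.p 5 6 0 11 (by decide +kernel)
def w7900 : PV o7900 := fun P h => h.p 5 7 12 11 (by decide +kernel)
def w7901 : PV o7901 := fun P h => h.p 5 7 4 11 (by decide +kernel)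
def w7902 : PV o7902 := fun P h => h.p 5 7 0 11 (by decide +kernel)
def w7903 : PV o7903 := fun P h => h.d 5 11 (by decide +kernel)
def w7904 : PV o7904 := fun P h => h.p 5 1 15 12 (by decide +kernel)
def w7905 : PV o7905 := fun P h => h.p 5 1 13 12 (by decide +kernel)
def w7906 : PV o7906 := fun P h => h.p 5 1 12 12 (by decide +kernel)
def w7907 : PV o7907 := fun P h => h.p 5 1 5 12 (by decide +kernel)
def w7908 : PV o7908 := fun P h => h.p 5 1 4 12 (by decide +kernel)
def w7909 : PV o7909 := fun P h => h.p 5 1 0 12 (by decide +kernel)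
def w7910 : PV o7910 := fun P h => h.p 5 3 15 12 (by decide +kernel)
def w7911 : PV o7911 := fun P h => h.p 5 3 13 12 (by decide +kernel)
def w7912 : PV o7912 := fun P h => h.p 5 3 12 12 (by decide +kernel)
def w7913 : PV o7913 := fun P h => h.p 5 3 5 12 (by decide +kernel)
def w7914 : PV o7914 := fun P h => h.p 5 3 4 12 (by decide +kernel)
def w7915 : PV o7915 := fun P h => h.p 5 3 0 12 (by decide +kernel)
def w7916 : PV o7916 := fun P h => h.p 5 4 12 12 (by decide +kernel)
def w7917 : PV o7917 := fun P h => h.p 5 6 15 12 (by decide +kernel)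
def w7918 : PV o7918 := fun P h => h.p 5 6 13 12 (by decide +kernel)
def w7919 : PV o7919 := fun P h => h.p 5 6 12 12 (by decide +kernel)
def w7920 : PV o7920 := fun P h => h.p 5 6 5 12 (by decide +kernel)
def w7921 : PV o7921 := fun P h => h.p 5 6 4 12 (by decide +kernel)
def w7922 : PV o7922 := fun P h => h.p 5 6 0 12 (by decide +kernel)
def w7923 : PV o7923 := fun P h => h.p 5 7 15 12 (by decide +kernel)
def w7924 : PV o7924 := fun P h => h.p 5 7 12 12 (by decide +kernel)
def w7925 : PV o7925 := fun P h => h.p 5 7 5 12 (by decide +kernel)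
def w7926 : PV o7926 := fun P h => h.p 5 7 4 12 (by decide +kernel)
def w7927 : PV o7927 := fun P h => h.p 5 7 0 12 (by decide +kernel)
def w7928 : PV o7928 := fun P h => h.d 5 12 (by decide +kernel)
def w7929 : PV o7929 := fun P h => h.u 5 12 (by decide +kernel)
def w7930 : PV o7930 := fun P h => h.p 5 1 15 13 (by decide +kernel)
def w7931 : PV o7931 := fun P h => h.p 5 1 13 13 (by decide +kernel)
def w7932 : PV o7932 := fun P h => h.p 5 1 12 13 (by decide +kernel)
def w7933 : PV o7933 := fun P h => h.p 5 1 0 13 (by decide +kernel)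
def w7934 : PV o7934 := fun P h => h.p 5 3 15 13 (by decide +kernel)
def w7935 : PV o7935 := fun P h => h.p 5 3 0 13 (by decide +kernel)
def w7936 : PV o7936 := fun P h => h.p 5 4 5 13 (by decide +kernel)
def w7937 : PV o7937 := fun P h => h.p 5 4 0 13 (by decide +kernel)
def w7938 : PV o7938 := fun P h => h.p 5 5 12 13 (by decide +kernel)
def w7939 : PV o7939 := fun P h => h.p 5 5 5 13 (by decide +kernel)
def w7940 : PV o7940 := fun P h => h.p 5 6 15 13 (by decide +kernel)
def w7941 : PV o7941 := fun P h => h.p 5 6 13 13 (by decide +kernel)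
def w7942 : PV o7942 := fun P h => h.p 5 6 12 13 (by decide +kernel)
def w7943 : PV o7943 := fun P h => h.p 5 6 5 13 (by decide +kernel)
def w7944 : PV o7944 := fun P h => h.p 5 6 4 13 (by decide +kernel)
def w7945 : PV o7945 := fun P h => h.p 5 6 0 13 (by decide +kernel)
def w7946 : PV o7946 := fun P h => h.p 5 7 15 13 (by decide +kernel)
def w7947 : PV o7947 := fun P h => h.d 5 13 (by decide +kernel)
def w7948 : PV o7948 := fun P h => h.p 5 1 15 14 (by decide +kernel)
def w7949 : PV o7949 := fun P h => h.p 5 1 0 14 (by decide +kernel)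
def w7950 : PV o7950 := fun P h => h.p 5 3 13 14 (by decide +kernel)
def w7951 : PV o7951 := fun P h => h.p 5 3 5 14 (by decide +kernel)
def w7952 : PV o7952 := fun P h => h.p 5 3 4 14 (by decide +kernel)
def w7953 : PV o7953 := fun P h => h.p 5 3 0 14 (by decide +kernel)
def w7954 : PV o7954 := fun P h => h.p 5 4 12 14 (by decide +kernel)
def w7955 : PV o7955 := fun P h => h.p 5 4 5 14 (by decide +kernel)
def w7956 : PV o7956 := fun P h => h.p 5 4 0 14 (by decide +kernel)
def w7957 : PV o7957 := fun P h => h.p 5 5 5 14 (by decide +kernel)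
def w7958 : PV o7958 := fun P h => h.p 5 6 15 14 (by decide +kernel)
def w7959 : PV o7959 := fun P h => h.p 5 6 13 14 (by decide +kernel)
def w7960 : PV o7960 := fun P h => h.p 5 6 12 14 (by decide +kernel)
def w7961 : PV o7961 := fun P h => h.p 5 6 5 14 (by decide +kernel)
def w7962 : PV o7962 := fun P h => h.p 5 6 4 14 (by decide +kernel)
def w7963 : PV o7963 := fun P h => h.p 5 6 0 14 (by decide +kernel)
def w7964 : PV o7964 := fun P h => h.p 5 7 15 14 (by decide +kernel)
def w7965 : PV o7965 := fun P h => h.p 5 7 12 14 (by decide +kernel)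
def w7966 : PV o7966 := fun P h => h.p 5 7 4 14 (by decide +kernel)
def w7967 : PV o7967 := fun P h => h.d 5 14 (by decide +kernel)
def w7968 : PV o7968 := fun P h => h.u 5 14 (by decide +kernel)
def w7969 : PV o7969 := fun P h => h.p 5 1 15 15 (by decide +kernel)
def w7970 : PV o7970 := fun P h => h.p 5 1 13 15 (by decide +kernel)
def w7971 : PV o7971 := fun P h => h.p 5 1 5 15 (by decide +kernel)
def w7972 : PV o7972 := fun P h => h.p 5 1 0 15 (by decide +kernel)
def w7973 : PV o7973 := fun P h => h.p 5 3 15 15 (by decide +kernel)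
def w7974 : PV o7974 := fun P h => h.p 5 3 5 15 (by decide +kernel)
def w7975 : PV o7975 := fun P h => h.p 5 3 0 15 (by decide +kernel)
def w7976 : PV o7976 := fun P h => h.p 5 4 15 15 (by decide +kernel)
def w7977 : PV o7977 := fun P h => h.p 5 4 12 15 (by decide +kernel)
def w7978 : PV o7978 := fun P h => h.p 5 4 5 15 (by decide +kernel)
def w7979 : PV o7979 := fun P h => h.p 5 4 4 15 (by decide +kernel)
def w7980 : PV o7980 := fun P h => h.p 5 5 12 15 (by decide +kernel)
def w7981 : PV o7981 := fun P h => h.p 5 6 13 15 (by decide +kernel)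
def w7982 : PV o7982 := fun P h => h.p 5 6 12 15 (by decide +kernel)
def w7983 : PV o7983 := fun P h => h.p 5 6 5 15 (by decide +kernel)
def w7984 : PV o7984 := fun P h => h.p 5 6 0 15 (by decide +kernel)
def w7985 : PV o7985 := fun P h => h.d 5 15 (by decide +kernel)
def w7986 : PV o7986 := fun P h => h.p 5 1 15 16 (by decide +kernel)
def w7987 : PV o7987 := fun P h => h.p 5 1 13 16 (by decide +kernel)
def w7988 : PV o7988 := fun P h => h.p 5 1 5 16 (by decide +kernel)
def w7989 : PV o7989 := fun P h => h.p 5 1 4 16 (by decide +kernel)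
def w7990 : PV o7990 := fun P h => h.p 5 1 0 16 (by decide +kernel)
def w7991 : PV o7991 := fun P h => h.p 5 3 12 16 (by decide +kernel)
def w7992 : PV o7992 := fun P h => h.p 5 3 5 16 (by decide +kernel)
def w7993 : PV o7993 := fun P h => h.p 5 3 4 16 (by decide +kernel)
def w7994 : PV o7994 := fun P h => h.p 5 3 0 16 (by decide +kernel)
def w7995 : PV o7995 := fun P h => h.p 5 6 15 16 (by decide +kernel)
def w7996 : PV o7996 := fun P h => h.p 5 6 13 16 (by decide +kernel)
def w7997 : PV o7997 := fun P h => h.p 5 6 5 16 (by decide +kernel)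
def w7998 : PV o7998 := fun P h => h.p 5 6 4 16 (by decide +kernel)
def w7999 : PV o7999 := fun P h => h.p 5 6 0 16 (by decide +kernel)
def w8000 : PV o8000 := fun P h => h.d 5 16 (by decide +kernel)
def w8001 : PV o8001 := fun P h => h.u 5 16 (by decide +kernel)
def w8002 : PV o8002 := fun P h => h.p 5 1 15 17 (by decide +kernel)
def w8003 : PV o8003 := fun P h => h.p 5 1 13 17 (by decide +kernel)
def w8004 : PV o8004 := fun P h => h.p 5 1 5 17 (by decide +kernel)
def w8005 : PV o8005 := fun P h => h.p 5 1 4 17 (by decide +kernel)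
def w8006 : PV o8006 := fun P h => h.p 5 1 0 17 (by decide +kernel)
def w8007 : PV o8007 := fun P h => h.p 5 3 15 17 (by decide +kernel)
def w8008 : PV o8008 := fun P h => h.p 5 3 12 17 (by decide +kernel)
def w8009 : PV o8009 := fun P h => h.p 5 3 4 17 (by decide +kernel)
def w8010 : PV o8010 := fun P h => h.p 5 3 0 17 (by decide +kernel)
def w8011 : PV o8011 := fun P h => h.p 5 4 15 17 (by decide +kernel)
def w8012 : PV o8012 := fun P h => h.p 5 4 4 17 (by decide +kernel)
def w8013 : PV o8013 := fun P h => h.p 5 5 12 17 (by decide +kernel)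
def w8014 : PV o8014 := fun P h => h.p 5 6 15 17 (by decide +kernel)
def w8015 : PV o8015 := fun P h => h.p 5 6 13 17 (by decide +kernel)
def w8016 : PV o8016 := fun P h => h.p 5 6 12 17 (by decide +kernel)
def w8017 : PV o8017 := fun P h => h.p 5 6 5 17 (by decide +kernel)
def w8018 : PV o8018 := fun P h => h.p 5 6 0 17 (by decide +kernel)
def w8019 : PV o8019 := fun P h => h.p 5 7 15 17 (by decide +kernel)
def w8020 : PV o8020 := fun P h => h.p 5 7 12 17 (by decide +kernel)
def w8021 : PV o8021 := fun P h => h.d 5 17 (by decide +kernel)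
def w8022 : PV o8022 := fun P h => h.p 5 0 0 18 (by decide +kernel)
def w8023 : PV o8023 := fun P h => h.p 5 1 15 18 (by decide +kernel)
def w8024 : PV o8024 := fun P h => h.p 5 1 12 18 (by decide +kernel)
def w8025 : PV o8025 := fun P h => h.p 5 1 5 18 (by decide +kernel)
def w8026 : PV o8026 := fun P h => h.p 5 1 4 18 (by decide +kernel)
def w8027 : PV o8027 := fun P h => h.p 5 1 0 18 (by decide +kernel)
def w8028 : PV o8028 := fun P h => h.p 5 3 15 18 (by decide +kernel)
def w8029 : PV o8029 := fun P h => h.p 5 3 13 18 (by decide +kernel)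
def w8030 : PV o8030 := fun P h => h.p 5 3 12 18 (by decide +kernel)
def w8031 : PV o8031 := fun P h => h.p 5 3 5 18 (by decide +kernel)
def w8032 : PV o8032 := fun P h => h.p 5 3 4 18 (by decide +kernel)
def w8033 : PV o8033 := fun P h => h.p 5 3 0 18 (by decide +kernel)
def w8034 : PV o8034 := fun P h => h.p 5 4 5 18 (by decide +kernel)
def w8035 : PV o8035 := fun P h => h.p 5 4 4 18 (by decide +kernel)
def w8036 : PV o8036 := fun P h => h.p 5 5 5 18 (by decide +kernel)
def w8037 : PV o8037 := fun P h => h.p 5 6 15 18 (by decide +kernel)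
def w8038 : PV o8038 := fun P h => h.p 5 6 13 18 (by decide +kernel)
def w8039 : PV o8039 := fun P h => h.p 5 6 12 18 (by decide +kernel)
def w8040 : PV o8040 := fun P h => h.p 5 6 5 18 (by decide +kernel)
def w8041 : PV o8041 := fun P h => h.p 5 6 4 18 (by decide +kernel)
def w8042 : PV o8042 := fun P h => h.p 5 6 0 18 (by decide +kernel)
def w8043 : PV o8043 := fun P h => h.p 5 7 13 18 (by decide +kernel)
def w8044 : PV o8044 := fun P h => h.p 5 7 5 18 (by decide +kernel)
def w8045 : PV o8045 := fun P h => h.p 5 7 0 18 (by decide +kernel)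
def w8046 : PV o8046 := fun P h => h.d 5 18 (by decide +kernel)
def w8047 : PV o8047 := fun P h => h.p 5 0 15 19 (by decide +kernel)
def w8048 : PV o8048 := fun P h => h.p 5 1 15 19 (by decide +kernel)
def w8049 : PV o8049 := fun P h => h.p 5 1 13 19 (by decide +kernel)
def w8050 : PV o8050 := fun P h => h.p 5 1 12 19 (by decide +kernel)
def w8051 : PV o8051 := fun P h => h.p 5 1 5 19 (by decide +kernel)
def w8052 : PV o8052 := fun P h => h.p 5 1 4 19 (by decide +kernel)
def w8053 : PV o8053 := fun P h => h.p 5 1 0 19 (by decide +kernel)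
def w8054 : PV o8054 := fun P h => h.p 5 3 15 19 (by decide +kernel)
def w8055 : PV o8055 := fun P h => h.p 5 3 13 19 (by decide +kernel)
def w8056 : PV o8056 := fun P h => h.p 5 3 5 19 (by decide +kernel)
def w8057 : PV o8057 := fun P h => h.p 5 3 4 19 (by decide +kernel)
def w8058 : PV o8058 := fun P h => h.p 5 3 0 19 (by decide +kernel)
def w8059 : PV o8059 := fun P h => h.p 5 4 13 19 (by decide +kernel)
def w8060 : PV o8060 := fun P h => h.p 5 4 12 19 (by decide +kernel)
def w8061 : PV o8061 := fun P h => h.p 5 4 4 19 (by decide +kernel)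
def w8062 : PV o8062 := fun P h => h.p 5 5 12 19 (by decide +kernel)
def w8063 : PV o8063 := fun P h => h.p 5 6 15 19 (by decide +kernel)
def w8064 : PV o8064 := fun P h => h.p 5 6 13 19 (by decide +kernel)
def w8065 : PV o8065 := fun P h => h.p 5 6 5 19 (by decide +kernel)
def w8066 : PV o8066 := fun P h => h.p 5 6 4 19 (by decide +kernel)
def w8067 : PV o8067 := fun P h => h.p 5 6 0 19 (by decide +kernel)
def w8068 : PV o8068 := fun P h => h.p 5 7 5 19 (by decide +kernel)
def w8069 : PV o8069 := fun P h => h.d 5 19 (by decide +kernel)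
def w8070 : PV o8070 := fun P h => h.p 5 1 15 20 (by decide +kernel)
def w8071 : PV o8071 := fun P h => h.p 5 1 13 20 (by decide +kernel)
def w8072 : PV o8072 := fun P h => h.p 5 1 12 20 (by decide +kernel)
def w8073 : PV o8073 := fun P h => h.p 5 1 5 20 (by decide +kernel)
def w8074 : PV o8074 := fun P h => h.p 5 1 4 20 (by decide +kernel)
def w8075 : PV o8075 := fun P h => h.p 5 1 0 20 (by decide +kernel)
def w8076 : PV o8076 := fun P h => h.p 5 3 15 20 (by decide +kernel)
def w8077 : PV o8077 := fun P h => h.p 5 3 13 20 (by decide +kernel)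
def w8078 : PV o8078 := fun P h => h.p 5 3 12 20 (by decide +kernel)
def w8079 : PV o8079 := fun P h => h.p 5 3 5 20 (by decide +kernel)
def w8080 : PV o8080 := fun P h => h.p 5 3 4 20 (by decide +kernel)
def w8081 : PV o8081 := fun P h => h.p 5 3 0 20 (by decide +kernel)
def w8082 : PV o8082 := fun P h => h.p 5 4 5 20 (by decide +kernel)
def w8083 : PV o8083 := fun P h => h.p 5 6 15 20 (by decide +kernel)
def w8084 : PV o8084 := fun P h => h.p 5 6 13 20 (by decide +kernel)
def w8085 : PV o8085 := fun P h => h.p 5 6 12 20 (by decide +kernel)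
def w8086 : PV o8086 := fun P h => h.p 5 6 4 20 (by decide +kernel)
def w8087 : PV o8087 := fun P h => h.p 5 6 0 20 (by decide +kernel)
def w8088 : PV o8088 := fun P h => h.p 5 7 13 20 (by decide +kernel)
def w8089 : PV o8089 := fun P h => h.p 5 7 12 20 (by decide +kernel)
def w8090 : PV o8090 := fun P h => h.p 5 7 4 20 (by decide +kernel)
def w8091 : PV o8091 := fun P h => h.p 5 7 0 20 (by decide +kernel)
def w8092 : PV o8092 := fun P h => h.d 5 20 (by decide +kernel)
def w8093 : PV o8093 := fun P h => h.u 5 20 (by decide +kernel)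
def w8094 : PV o8094 := fun P h => h.p 5 1 15 21 (by decide +kernel)
def w8095 : PV o8095 := fun P h => h.p 5 1 13 21 (by decide +kernel)
def w8096 : PV o8096 := fun P h => h.p 5 1 12 21 (by decide +kernel)
def w8097 : PV o8097 := fun P h => h.p 5 1 5 21 (by decide +kernel)
def w8098 : PV o8098 := fun P h => h.p 5 1 4 21 (by decide +kernel)
def w8099 : PV o8099 := fun P h => h.p 5 1 0 21 (by decide +kernel)
def w8100 : PV o8100 := fun P h => h.p 5 3 15 21 (by decide +kernel)
def w8101 : PV o8101 := fun P h => h.p 5 3 13 21 (by decide +kernel)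
def w8102 : PV o8102 := fun P h => h.p 5 3 12 21 (by decide +kernel)
def w8103 : PV o8103 := fun P h => h.p 5 3 5 21 (by decide +kernel)
def w8104 : PV o8104 := fun P h => h.p 5 3 4 21 (by decide +kernel)
def w8105 : PV o8105 := fun P h => h.p 5 3 0 21 (by decide +kernel)
def w8106 : PV o8106 := fun P h => h.p 5 4 15 21 (by decide +kernel)
def w8107 : PV o8107 := fun P h => h.p 5 4 5 21 (by decide +kernel)
def w8108 : PV o8108 := fun P h => h.p 5 5 5 21 (by decide +kernel)
def w8109 : PV o8109 := fun P h => h.p 5 6 15 21 (by decide +kernel)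
def w8110 : PV o8110 := fun P h => h.p 5 6 13 21 (by decide +kernel)
def w8111 : PV o8111 := fun P h => h.p 5 6 5 21 (by decide +kernel)
def w8112 : PV o8112 := fun P h => h.p 5 6 4 21 (by decide +kernel)
def w8113 : PV o8113 := fun P h => h.p 5 6 0 21 (by decide +kernel)
def w8114 : PV o8114 := fun P h => h.p 5 7 15 21 (by decide +kernel)
def w8115 : PV o8115 := fun P h => h.d 5 21 (by decide +kernel)
def w8116 : PV o8116 := fun P h => h.p 5 1 15 22 (by decide +kernel)
def w8117 : PV o8117 := fun P h => h.p 5 1 5 22 (by decide +kernel)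
def w8118 : PV o8118 := fun P h => h.p 5 1 4 22 (by decide +kernel)
def w8119 : PV o8119 := fun P h => h.p 5 1 0 22 (by decide +kernel)
def w8120 : PV o8120 := fun P h => h.p 5 3 13 22 (by decide +kernel)
def w8121 : PV o8121 := fun P h => h.p 5 3 5 22 (by decide +kernel)
def w8122 : PV o8122 := fun P h => h.p 5 3 4 22 (by decide +kernel)
def w8123 : PV o8123 := fun P h => h.p 5 3 0 22 (by decide +kernel)
def w8124 : PV o8124 := fun P h => h.p 5 4 4 22 (by decide +kernel)
def w8125 : PV o8125 := fun P h => h.p 5 5 5 22 (by decide +kernel)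
def w8126 : PV o8126 := fun P h => h.p 5 6 15 22 (by decide +kernel)
def w8127 : PV o8127 := fun P h => h.p 5 6 13 22 (by decide +kernel)
def w8128 : PV o8128 := fun P h => h.p 5 6 5 22 (by decide +kernel)
def w8129 : PV o8129 := fun P h => h.p 5 6 0 22 (by decide +kernel)
def w8130 : PV o8130 := fun P h => h.p 5 7 15 22 (by decide +kernel)
def w8131 : PV o8131 := fun P h => h.p 5 7 0 22 (by decide +kernel)
def w8132 : PV o8132 := fun P h => h.d 5 22 (by decide +kernel)
def w8133 : PV o8133 := fun P h => h.p 5 1 15 23 (by decide +kernel)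
def w8134 : PV o8134 := fun P h => h.p 5 1 13 23 (by decide +kernel)
def w8135 : PV o8135 := fun P h => h.p 5 1 12 23 (by decide +kernel)
def w8136 : PV o8136 := fun P h => h.p 5 1 4 23 (by decide +kernel)
def w8137 : PV o8137 := fun P h => h.p 5 3 15 23 (by decide +kernel)
def w8138 : PV o8138 := fun P h => h.p 5 3 5 23 (by decide +kernel)
def w8139 : PV o8139 := fun P h => h.p 5 3 4 23 (by decide +kernel)
def w8140 : PV o8140 := fun P h => h.p 5 3 0 23 (by decide +kernel)
def w8141 : PV o8141 := fun P h => h.p 5 4 12 23 (by decide +kernel)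
def w8142 : PV o8142 := fun P h => h.p 5 4 5 23 (by decide +kernel)
def w8143 : PV o8143 := fun P h => h.p 5 4 4 23 (by decide +kernel)
def w8144 : PV o8144 := fun P h => h.p 5 4 0 23 (by decide +kernel)
def w8145 : PV o8145 := fun P h => h.p 5 6 13 23 (by decide +kernel)
def w8146 : PV o8146 := fun P h => h.p 5 6 12 23 (by decide +kernel)
def w8147 : PV o8147 := fun P h => h.p 5 6 5 23 (by decide +kernel)
def w8148 : PV o8148 := fun P h => h.p 5 6 0 23 (by decide +kernel)
def w8149 : PV o8149 := fun P h => h.p 5 7 15 23 (by decide +kernel)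
def w8150 : PV o8150 := fun P h => h.d 5 23 (by decide +kernel)
def w8151 : PV o8151 := fun P h => h.p 5 1 15 24 (by decide +kernel)
def w8152 : PV o8152 := fun P h => h.p 5 1 13 24 (by decide +kernel)
def w8153 : PV o8153 := fun P h => h.p 5 1 5 24 (by decide +kernel)
def w8154 : PV o8154 := fun P h => h.p 5 1 4 24 (by decide +kernel)
def w8155 : PV o8155 := fun P h => h.p 5 1 0 24 (by decide +kernel)
def w8156 : PV o8156 := fun P h => h.p 5 3 15 24 (by decide +kernel)
def w8157 : PV o8157 := fun P h => h.p 5 3 12 24 (by decide +kernel)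
def w8158 : PV o8158 := fun P h => h.p 5 3 0 24 (by decide +kernel)
def w8159 : PV o8159 := fun P h => h.p 5 6 15 24 (by decide +kernel)
def w8160 : PV o8160 := fun P h => h.p 5 6 13 24 (by decide +kernel)
def w8161 : PV o8161 := fun P h => h.p 5 6 12 24 (by decide +kernel)
def w8162 : PV o8162 := fun P h => h.p 5 6 5 24 (by decide +kernel)
def w8163 : PV o8163 := fun P h => h.p 5 6 4 24 (by decide +kernel)
def w8164 : PV o8164 := fun P h => h.p 5 6 0 24 (by decide +kernel)
def w8165 : PV o8165 := fun P h => h.p 5 7 13 24 (by decide +kernel)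
def w8166 : PV o8166 := fun P h => h.p 5 7 12 24 (by decide +kernel)
def w8167 : PV o8167 := fun P h => h.p 5 7 5 24 (by decide +kernel)
def w8168 : PV o8168 := fun P h => h.p 5 7 0 24 (by decide +kernel)
def w8169 : PV o8169 := fun P h => h.u 5 24 (by decide +kernel)
def w8170 : PV o8170 := fun P h => h.p 5 1 0 25 (by decide +kernel)
def w8171 : PV o8171 := fun P h => h.p 5 3 15 25 (by decide +kernel)
def w8172 : PV o8172 := fun P h => h.p 5 3 12 25 (by decide +kernel)
def w8173 : PV o8173 := fun P h => h.p 5 3 5 25 (by decide +kernel)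
def w8174 : PV o8174 := fun P h => h.p 5 3 4 25 (by decide +kernel)
def w8175 : PV o8175 := fun P h => h.p 5 3 0 25 (by decide +kernel)
def w8176 : PV o8176 := fun P h => h.p 5 4 5 25 (by decide +kernel)
def w8177 : PV o8177 := fun P h => h.p 5 4 0 25 (by decide +kernel)
def w8178 : PV o8178 := fun P h => h.p 5 5 12 25 (by decide +kernel)
def w8179 : PV o8179 := fun P h => h.p 5 6 15 25 (by decide +kernel)
def w8180 : PV o8180 := fun P h => h.p 5 6 13 25 (by decide +kernel)
def w8181 : PV o8181 := fun P h => h.p 5 6 5 25 (by decide +kernel)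
def w8182 : PV o8182 := fun P h => h.p 5 6 0 25 (by decide +kernel)
def w8183 : PV o8183 := fun P h => h.p 5 7 15 25 (by decide +kernel)
def w8184 : PV o8184 := fun P h => h.p 5 7 12 25 (by decide +kernel)
def w8185 : PV o8185 := fun P h => h.p 5 7 5 25 (by decide +kernel)
def w8186 : PV o8186 := fun P h => h.p 5 7 0 25 (by decide +kernel)
def w8187 : PV o8187 := fun P h => h.d 5 25 (by decide +kernel)
def w8188 : PV o8188 := fun P h => h.p 5 1 15 26 (by decide +kernel)
def w8189 : PV o8189 := fun P h => h.p 5 1 5 26 (by decide +kernel)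
def w8190 : PV o8190 := fun P h => h.p 5 1 4 26 (by decide +kernel)
def w8191 : PV o8191 := fun P h => h.p 5 1 0 26 (by decide +kernel)
def w8192 : PV o8192 := fun P h => h.p 5 3 15 26 (by decide +kernel)
def w8193 : PV o8193 := fun P h => h.p 5 3 13 26 (by decide +kernel)
def w8194 : PV o8194 := fun P h => h.p 5 3 12 26 (by decide +kernel)
def w8195 : PV o8195 := fun P h => h.p 5 3 5 26 (by decide +kernel)
def w8196 : PV o8196 := fun P h => h.p 5 3 4 26 (by decide +kernel)
def w8197 : PV o8197 := fun P h => h.p 5 3 0 26 (by decide +kernel)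
def w8198 : PV o8198 := fun P h => h.p 5 4 5 26 (by decide +kernel)
def w8199 : PV o8199 := fun P h => h.p 5 4 0 26 (by decide +kernel)
def w8200 : PV o8200 := fun P h => h.p 5 6 15 26 (by decide +kernel)
def w8201 : PV o8201 := fun P h => h.p 5 6 13 26 (by decide +kernel)
def w8202 : PV o8202 := fun P h => h.p 5 6 12 26 (by decide +kernel)
def w8203 : PV o8203 := fun P h => h.p 5 6 5 26 (by decide +kernel)
def w8204 : PV o8204 := fun P h => h.p 5 6 4 26 (by decide +kernel)
def w8205 : PV o8205 := fun P h => h.p 5 6 0 26 (by decide +kernel)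
def w8206 : PV o8206 := fun P h => h.p 5 7 15 26 (by decide +kernel)
def w8207 : PV o8207 := fun P h => h.p 5 7 13 26 (by decide +kernel)
def w8208 : PV o8208 := fun P h => h.p 5 7 5 26 (by decide +kernel)
def w8209 : PV o8209 := fun P h => h.d 5 26 (by decide +kernel)
def w8210 : PV o8210 := fun P h => h.u 5 26 (by decide +kernel)
def w8211 : PV o8211 := fun P h => h.p 5 0 5 27 (by decide +kernel)
def w8212 : PV o8212 := fun P h => h.p 5 1 15 27 (by decide +kernel)
def w8213 : PV o8213 := fun P h => h.p 5 1 13 27 (by decide +kernel)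
def w8214 : PV o8214 := fun P h => h.p 5 1 12 27 (by decide +kernel)
def w8215 : PV o8215 := fun P h => h.p 5 1 5 27 (by decide +kernel)
def w8216 : PV o8216 := fun P h => h.p 5 1 4 27 (by decide +kernel)
def w8217 : PV o8217 := fun P h => h.p 5 1 0 27 (by decide +kernel)
def w8218 : PV o8218 := fun P h => h.p 5 3 15 27 (by decide +kernel)
def w8219 : PV o8219 := fun P h => h.p 5 3 4 27 (by decide +kernel)
def w8220 : PV o8220 := fun P h => h.p 5 3 0 27 (by decide +kernel)
def w8221 : PV o8221 := fun P h => h.p 5 4 13 27 (by decide +kernel)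
def w8222 : PV o8222 := fun P h => h.p 5 4 12 27 (by decide +kernel)
def w8223 : PV o8223 := fun P h => h.p 5 4 5 27 (by decide +kernel)
def w8224 : PV o8224 := fun P h => h.p 5 4 0 27 (by decide +kernel)
def w8225 : PV o8225 := fun P h => h.p 5 5 12 27 (by decide +kernel)
def w8226 : PV o8226 := fun P h => h.p 5 6 15 27 (by decide +kernel)
def w8227 : PV o8227 := fun P h => h.p 5 6 13 27 (by decide +kernel)
def w8228 : PV o8228 := fun P h => h.p 5 6 12 27 (by decide +kernel)
def w8229 : PV o8229 := fun P h => h.p 5 6 5 27 (by decide +kernel)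
def w8230 : PV o8230 := fun P h => h.p 5 6 4 27 (by decide +kernel)
def w8231 : PV o8231 := fun P h => h.p 5 6 0 27 (by decide +kernel)
def w8232 : PV o8232 := fun P h => h.p 5 7 15 27 (by decide +kernel)
def w8233 : PV o8233 := fun P h => h.p 5 7 5 27 (by decide +kernel)
def w8234 : PV o8234 := fun P h => h.p 5 7 4 27 (by decide +kernel)
def w8235 : PV o8235 := fun P h => h.p 5 7 0 27 (by decide +kernel)
def w8236 : PV o8236 := fun P h => h.d 5 27 (by decide +kernel)
def w8237 : PV o8237 := fun P h => h.u 5 27 (by decide +kernel)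
def w8238 : PV o8238 := fun P h => h.p 5 1 15 28 (by decide +kernel)
def w8239 : PV o8239 := fun P h => h.p 5 1 13 28 (by decide +kernel)
def w8240 : PV o8240 := fun P h => h.p 5 1 12 28 (by decide +kernel)
def w8241 : PV o8241 := fun P h => h.p 5 1 4 28 (by decide +kernel)
def w8242 : PV o8242 := fun P h => h.p 5 3 15 28 (by decide +kernel)
def w8243 : PV o8243 := fun P h => h.p 5 3 13 28 (by decide +kernel)
def w8244 : PV o8244 := fun P h => h.p 5 3 12 28 (by decide +kernel)
def w8245 : PV o8245 := fun P h => h.p 5 3 5 28 (by decide +kernel)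
def w8246 : PV o8246 := fun P h => h.p 5 3 4 28 (by decide +kernel)
def w8247 : PV o8247 := fun P h => h.p 5 3 0 28 (by decide +kernel)
def w8248 : PV o8248 := fun P h => h.p 5 6 15 28 (by decide +kernel)
def w8249 : PV o8249 := fun P h => h.p 5 6 13 28 (by decide +kernel)
def w8250 : PV o8250 := fun P h => h.p 5 6 12 28 (by decide +kernel)
def w8251 : PV o8251 := fun P h => h.p 5 6 5 28 (by decide +kernel)
def w8252 : PV o8252 := fun P h => h.p 5 6 4 28 (by decide +kernel)
def w8253 : PV o8253 := fun P h => h.p 5 6 0 28 (by decide +kernel)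
def w8254 : PV o8254 := fun P h => h.d 5 28 (by decide +kernel)
def w8255 : PV o8255 := fun P h => h.u 5 28 (by decide +kernel)
def w8256 : PV o8256 := fun P h => h.p 5 1 15 29 (by decide +kernel)
def w8257 : PV o8257 := fun P h => h.p 5 1 12 29 (by decide +kernel)
def w8258 : PV o8258 := fun P h => h.p 5 1 5 29 (by decide +kernel)
def w8259 : PV o8259 := fun P h => h.p 5 3 15 29 (by decide +kernel)
def w8260 : PV o8260 := fun P h => h.p 5 3 13 29 (by decide +kernel)
def w8261 : PV o8261 := fun P h => h.p 5 3 12 29 (by decide +kernel)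
def w8262 : PV o8262 := fun P h => h.p 5 3 0 29 (by decide +kernel)
def w8263 : PV o8263 := fun P h => h.p 5 4 5 29 (by decide +kernel)
def w8264 : PV o8264 := fun P h => h.p 5 6 15 29 (by decide +kernel)
def w8265 : PV o8265 := fun P h => h.p 5 6 13 29 (by decide +kernel)
def w8266 : PV o8266 := fun P h => h.p 5 6 12 29 (by decide +kernel)
def w8267 : PV o8267 := fun P h => h.p 5 6 5 29 (by decide +kernel)
def w8268 : PV o8268 := fun P h => h.p 5 6 4 29 (by decide +kernel)
def w8269 : PV o8269 := fun P h => h.p 5 6 0 29 (by decide +kernel)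
def w8270 : PV o8270 := fun P h => h.p 5 7 15 29 (by decide +kernel)
def w8271 : PV o8271 := fun P h => h.p 5 7 12 29 (by decide +kernel)
def w8272 : PV o8272 := fun P h => h.d 5 29 (by decide +kernel)
def w8273 : PV o8273 := fun P h => h.p 5 1 15 30 (by decide +kernel)
def w8274 : PV o8274 := fun P h => h.p 5 1 13 30 (by decide +kernel)
def w8275 : PV o8275 := fun P h => h.p 5 1 12 30 (by decide +kernel)
def w8276 : PV o8276 := fun P h => h.p 5 1 4 30 (by decide +kernel)
def w8277 : PV o8277 := fun P h => h.p 5 3 15 30 (by decide +kernel)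
def w8278 : PV o8278 := fun P h => h.p 5 3 12 30 (by decide +kernel)
def w8279 : PV o8279 := fun P h => h.p 5 3 4 30 (by decide +kernel)
def w8280 : PV o8280 := fun P h => h.p 5 4 13 30 (by decide +kernel)
def w8281 : PV o8281 := fun P h => h.p 5 4 5 30 (by decide +kernel)
def w8282 : PV o8282 := fun P h => h.p 5 4 4 30 (by decide +kernel)
def w8283 : PV o8283 := fun P h => h.p 5 6 15 30 (by decide +kernel)
def w8284 : PV o8284 := fun P h => h.p 5 6 13 30 (by decide +kernel)
def w8285 : PV o8285 := fun P h => h.p 5 6 12 30 (by decide +kernel)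
def w8286 : PV o8286 := fun P h => h.p 5 6 5 30 (by decide +kernel)
def w8287 : PV o8287 := fun P h => h.p 5 6 4 30 (by decide +kernel)
def w8288 : PV o8288 := fun P h => h.p 5 6 0 30 (by decide +kernel)
def w8289 : PV o8289 := fun P h => h.p 5 7 15 30 (by decide +kernel)
def w8290 : PV o8290 := fun P h => h.p 5 7 13 30 (by decide +kernel)
def w8291 : PV o8291 := fun P h => h.u 5 30 (by decide +kernel)
def w8292 : PV o8292 := fun P h => h.p 5 1 0 31 (by decide +kernel)
def w8293 : PV o8293 := fun P h => h.p 5 3 15 31 (by decide +kernel)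
def w8294 : PV o8294 := fun P h => h.p 5 3 12 31 (by decide +kernel)
def w8295 : PV o8295 := fun P h => h.p 5 3 5 31 (by decide +kernel)
def w8296 : PV o8296 := fun P h => h.p 5 3 4 31 (by decide +kernel)
def w8297 : PV o8297 := fun P h => h.p 5 3 0 31 (by decide +kernel)
def w8298 : PV o8298 := fun P h => h.p 5 4 12 31 (by decide +kernel)
def w8299 : PV o8299 := fun P h => h.p 5 4 5 31 (by decide +kernel)
def w8300 : PV o8300 := fun P h => h.p 5 4 0 31 (by decide +kernel)
def w8301 : PV o8301 := fun P h => h.p 5 6 13 31 (by decide +kernel)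
def w8302 : PV o8302 := fun P h => h.p 5 6 12 31 (by decide +kernel)
def w8303 : PV o8303 := fun P h => h.p 5 6 0 31 (by decide +kernel)
def w8304 : PV o8304 := fun P h => h.p 5 7 15 31 (by decide +kernel)
def w8305 : PV o8305 := fun P h => h.p 5 7 13 31 (by decide +kernel)
def w8306 : PV o8306 := fun P h => h.p 5 7 12 31 (by decide +kernel)
def w8307 : PV o8307 := fun P h => h.d 5 31 (by decide +kernel)
def w8308 : PV o8308 := fun P h => h.p 6 3 12 0 (by decide +kernel)
def w8309 : PV o8309 := fun P h => h.p 6 3 5 0 (by decide +kernel)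
def w8310 : PV o8310 := fun P h => h.p 6 7 15 0 (by decide +kernel)
def w8311 : PV o8311 := fun P h => h.p 6 7 12 0 (by decide +kernel)
def w8312 : PV o8312 := fun P h => h.p 6 7 5 0 (by decide +kernel)
def w8313 : PV o8313 := fun P h => h.p 6 1 13 1 (by decide +kernel)
def w8314 : PV o8314 := fun P h => h.p 6 1 12 1 (by decide +kernel)
def w8315 : PV o8315 := fun P h => h.p 6 1 5 1 (by decide +kernel)
def w8316 : PV o8316 := fun P h => h.p 6 1 4 1 (by decide +kernel)
def w8317 : PV o8317 := fun P h => h.p 6 3 13 1 (by decide +kernel)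
def w8318 : PV o8318 := fun P h => h.p 6 3 12 1 (by decide +kernel)
def w8319 : PV o8319 := fun P h => h.p 6 3 5 1 (by decide +kernel)
def w8320 : PV o8320 := fun P h => h.p 6 3 4 1 (by decide +kernel)
def w8321 : PV o8321 := fun P h => h.p 6 3 0 1 (by decide +kernel)
def w8322 : PV o8322 := fun P h => h.p 6 5 4 1 (by decide +kernel)
def w8323 : PV o8323 := fun P h => h.p 6 7 15 1 (by decide +kernel)
def w8324 : PV o8324 := fun P h => h.p 6 7 12 1 (by decide +kernel)
def w8325 : PV o8325 := fun P h => h.p 6 7 5 1 (by decide +kernel)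
def w8326 : PV o8326 := fun P h => h.p 6 7 4 1 (by decide +kernel)
def w8327 : PV o8327 := fun P h => h.p 6 7 0 1 (by decide +kernel)
def w8328 : PV o8328 := fun P h => h.d 6 1 (by decide +kernel)
def w8329 : PV o8329 := fun P h => h.p 6 0 0 2 (by decide +kernel)
def w8330 : PV o8330 := fun P h => h.p 6 1 15 2 (by decide +kernel)
def w8331 : PV o8331 := fun P h => h.p 6 1 13 2 (by decide +kernel)
def w8332 : PV o8332 := fun P h => h.p 6 1 5 2 (by decide +kernel)
def w8333 : PV o8333 := fun P h => h.p 6 1 4 2 (by decide +kernel)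
def w8334 : PV o8334 := fun P h => h.p 6 1 0 2 (by decide +kernel)
def w8335 : PV o8335 := fun P h => h.p 6 2 5 2 (by decide +kernel)
def w8336 : PV o8336 := fun P h => h.p 6 3 15 2 (by decide +kernel)
def w8337 : PV o8337 := fun P h => h.p 6 3 13 2 (by decide +kernel)
def w8338 : PV o8338 := fun P h => h.p 6 3 12 2 (by decide +kernel)
def w8339 : PV o8339 := fun P h => h.p 6 3 5 2 (by decide +kernel)
def w8340 : PV o8340 := fun P h => h.p 6 3 4 2 (by decide +kernel)
def w8341 : PV o8341 := fun P h => h.p 6 3 0 2 (by decide +kernel)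
def w8342 : PV o8342 := fun P h => h.p 6 4 0 2 (by decide +kernel)
def w8343 : PV o8343 := fun P h => h.p 6 5 13 2 (by decide +kernel)
def w8344 : PV o8344 := fun P h => h.p 6 5 12 2 (by decide +kernel)
def w8345 : PV o8345 := fun P h => h.p 6 5 4 2 (by decide +kernel)
def w8346 : PV o8346 := fun P h => h.p 6 5 0 2 (by decide +kernel)
def w8347 : PV o8347 := fun P h => h.p 6 6 4 2 (by decide +kernel)
def w8348 : PV o8348 := fun P h => h.p 6 6 0 2 (by decide +kernel)
def w8349 : PV o8349 := fun P h => h.p 6 7 15 2 (by decide +kernel)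
def w8350 : PV o8350 := fun P h => h.p 6 7 13 2 (by decide +kernel)
def w8351 : PV o8351 := fun P h => h.p 6 7 12 2 (by decide +kernel)
def w8352 : PV o8352 := fun P h => h.p 6 7 5 2 (by decide +kernel)
def w8353 : PV o8353 := fun P h => h.p 6 7 4 2 (by decide +kernel)
def w8354 : PV o8354 := fun P h => h.p 6 7 0 2 (by decide +kernel)
def w8355 : PV o8355 := fun P h => h.d 6 2 (by decide +kernel)
def w8356 : PV o8356 := fun P h => h.u 6 2 (by decide +kernel)
def w8357 : PV o8357 := fun P h => h.p 6 1 15 3 (by decide +kernel)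
def w8358 : PV o8358 := fun P h => h.p 6 1 13 3 (by decide +kernel)
def w8359 : PV o8359 := fun P h => h.p 6 1 12 3 (by decide +kernel)
def w8360 : PV o8360 := fun P h => h.p 6 1 5 3 (by decide +kernel)
def w8361 : PV o8361 := fun P h => h.p 6 1 4 3 (by decide +kernel)
def w8362 : PV o8362 := fun P h => h.p 6 1 0 3 (by decide +kernel)
def w8363 : PV o8363 := fun P h => h.p 6 2 5 3 (by decide +kernel)
def w8364 : PV o8364 := fun P h => h.p 6 3 15 3 (by decide +kernel)
def w8365 : PV o8365 := fun P h => h.p 6 3 13 3 (by decide +kernel)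
def w8366 : PV o8366 := fun P h => h.p 6 3 12 3 (by decide +kernel)
def w8367 : PV o8367 := fun P h => h.p 6 3 5 3 (by decide +kernel)
def w8368 : PV o8368 := fun P h => h.p 6 3 4 3 (by decide +kernel)
def w8369 : PV o8369 := fun P h => h.p 6 3 0 3 (by decide +kernel)
def w8370 : PV o8370 := fun P h => h.p 6 4 15 3 (by decide +kernel)
def w8371 : PV o8371 := fun P h => h.p 6 5 0 3 (by decide +kernel)
def w8372 : PV o8372 := fun P h => h.p 6 6 12 3 (by decide +kernel)
def w8373 : PV o8373 := fun P h => h.p 6 6 5 3 (by decide +kernel)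
def w8374 : PV o8374 := fun P h => h.p 6 7 15 3 (by decide +kernel)
def w8375 : PV o8375 := fun P h => h.p 6 7 13 3 (by decide +kernel)
def w8376 : PV o8376 := fun P h => h.p 6 7 12 3 (by decide +kernel)
def w8377 : PV o8377 := fun P h => h.p 6 7 5 3 (by decide +kernel)
def w8378 : PV o8378 := fun P h => h.p 6 7 4 3 (by decide +kernel)
def w8379 : PV o8379 := fun P h => h.p 6 7 0 3 (by decide +kernel)
def w8380 : PV o8380 := fun P h => h.d 6 3 (by decide +kernel)
def w8381 : PV o8381 := fun P h => h.u 6 3 (by decide +kernel)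
def w8382 : PV o8382 := fun P h => h.p 6 0 12 4 (by decide +kernel)
def w8383 : PV o8383 := fun P h => h.p 6 1 15 4 (by decide +kernel)
def w8384 : PV o8384 := fun P h => h.p 6 1 12 4 (by decide +kernel)
def w8385 : PV o8385 := fun P h => h.p 6 3 15 4 (by decide +kernel)
def w8386 : PV o8386 := fun P h => h.p 6 3 13 4 (by decide +kernel)
def w8387 : PV o8387 := fun P h => h.p 6 3 12 4 (by decide +kernel)
def w8388 : PV o8388 := fun P h => h.p 6 3 5 4 (by decide +kernel)
def w8389 : PV o8389 := fun P h => h.p 6 3 4 4 (by decide +kernel)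
def w8390 : PV o8390 := fun P h => h.p 6 3 0 4 (by decide +kernel)
def w8391 : PV o8391 := fun P h => h.p 6 5 15 4 (by decide +kernel)
def w8392 : PV o8392 := fun P h => h.p 6 5 5 4 (by decide +kernel)
def w8393 : PV o8393 := fun P h => h.p 6 5 4 4 (by decide +kernel)
def w8394 : PV o8394 := fun P h => h.p 6 5 0 4 (by decide +kernel)
def w8395 : PV o8395 := fun P h => h.p 6 6 0 4 (by decide +kernel)
def w8396 : PV o8396 := fun P h => h.p 6 7 15 4 (by decide +kernel)
def w8397 : PV o8397 := fun P h => h.p 6 7 13 4 (by decide +kernel)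
def w8398 : PV o8398 := fun P h => h.p 6 7 12 4 (by decide +kernel)
def w8399 : PV o8399 := fun P h => h.p 6 7 5 4 (by decide +kernel)

end Pool.Agent.BDD.A
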