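import Pool.Agent.BDD.AC
import Pool.Agent.BDD.AE2

set_option autoImplicit false
set_option linter.all false

namespace Pool.Agent.BDD.A

def w8400 : PV o8400 := fun P h => h.p 6 7 4 4 (by decide +kernel)
def w8401 : PV o8401 := fun P h => h.p 6 7 0 4 (by decide +kernel)
def w8402 : PV o8402 := fun P h => h.d 6 4 (by decide +kernel)
def w8403 : PV o8403 := fun P h => h.u 6 4 (by decide +kernel)
def w8404 : PV o8404 := fun P h => h.p 6 0 12 5 (by decide +kernel)
def w8405 : PV o8405 := fun P h => h.p 6 1 15 5 (by decide +kernel)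
def w8406 : PV o8406 := fun P h => h.p 6 1 13 5 (by decide +kernel)
def w8407 : PV o8407 := fun P h => h.p 6 1 12 5 (by decide +kernel)
def w8408 : PV o8408 := fun P h => h.p 6 3 15 5 (by decide +kernel)
def w8409 : PV o8409 := fun P h => h.p 6 3 13 5 (by decide +kernel)
def w8410 : PV o8410 := fun P h => h.p 6 3 12 5 (by decide +kernel)
def w8411 : PV o8411 := fun P h => h.p 6 3 5 5 (by decide +kernel)
def w8412 : PV o8412 := fun P h => h.p 6 3 4 5 (by decide +kernel)
def w8413 : PV o8413 := fun P h => h.p 6 3 0 5 (by decide +kernel)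
def w8414 : PV o8414 := fun P h => h.p 6 5 4 5 (by decide +kernel)
def w8415 : PV o8415 := fun P h => h.p 6 6 5 5 (by decide +kernel)
def w8416 : PV o8416 := fun P h => h.p 6 7 15 5 (by decide +kernel)
def w8417 : PV o8417 := fun P h => h.p 6 7 13 5 (by decide +kernel)
def w8418 : PV o8418 := fun P h => h.p 6 7 12 5 (by decide +kernel)
def w8419 : PV o8419 := fun P h => h.p 6 7 5 5 (by decide +kernel)
def w8420 : PV o8420 := fun P h => h.p 6 7 4 5 (by decide +kernel)
def w8421 : PV o8421 := fun P h => h.d 6 5 (by decide +kernel)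
def w8422 : PV o8422 := fun P h => h.u 6 5 (by decide +kernel)
def w8423 : PV o8423 := fun P h => h.p 6 3 13 6 (by decide +kernel)
def w8424 : PV o8424 := fun P h => h.p 6 3 5 6 (by decide +kernel)
def w8425 : PV o8425 := fun P h => h.p 6 3 4 6 (by decide +kernel)
def w8426 : PV o8426 := fun P h => h.p 6 5 4 6 (by decide +kernel)
def w8427 : PV o8427 := fun P h => h.p 6 5 0 6 (by decide +kernel)
def w8428 : PV o8428 := fun P h => h.p 6 7 15 6 (by decide +kernel)
def w8429 : PV o8429 := fun P h => h.p 6 7 13 6 (by decide +kernel)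
def w8430 : PV o8430 := fun P h => h.p 6 7 12 6 (by decide +kernel)
def w8431 : PV o8431 := fun P h => h.p 6 7 5 6 (by decide +kernel)
def w8432 : PV o8432 := fun P h => h.p 6 7 4 6 (by decide +kernel)
def w8433 : PV o8433 := fun P h => h.p 6 7 0 6 (by decide +kernel)
def w8434 : PV o8434 := fun P h => h.u 6 6 (by decide +kernel)
def w8435 : PV o8435 := fun P h => h.p 6 1 15 7 (by decide +kernel)
def w8436 : PV o8436 := fun P h => h.p 6 1 13 7 (by decide +kernel)
def w8437 : PV o8437 := fun P h => h.p 6 1 5 7 (by decide +kernel)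
def w8438 : PV o8438 := fun P h => h.p 6 3 15 7 (by decide +kernel)
def w8439 : PV o8439 := fun P h => h.p 6 3 13 7 (by decide +kernel)
def w8440 : PV o8440 := fun P h => h.p 6 3 12 7 (by decide +kernel)
def w8441 : PV o8441 := fun P h => h.p 6 3 5 7 (by decide +kernel)
def w8442 : PV o8442 := fun P h => h.p 6 5 15 7 (by decide +kernel)
def w8443 : PV o8443 := fun P h => h.p 6 6 5 7 (by decide +kernel)
def w8444 : PV o8444 := fun P h => h.p 6 7 15 7 (by decide +kernel)
def w8445 : PV o8445 := fun P h => h.p 6 7 5 7 (by decide +kernel)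
def w8446 : PV o8446 := fun P h => h.u 6 7 (by decide +kernel)
def w8447 : PV o8447 := fun P h => h.p 6 1 13 8 (by decide +kernel)
def w8448 : PV o8448 := fun P h => h.p 6 1 12 8 (by decide +kernel)
def w8449 : PV o8449 := fun P h => h.p 6 1 5 8 (by decide +kernel)
def w8450 : PV o8450 := fun P h => h.p 6 1 0 8 (by decide +kernel)
def w8451 : PV o8451 := fun P h => h.p 6 2 12 8 (by decide +kernel)
def w8452 : PV o8452 := fun P h => h.p 6 3 12 8 (by decide +kernel)
def w8453 : PV o8453 := fun P h => h.p 6 3 5 8 (by decide +kernel)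
def w8454 : PV o8454 := fun P h => h.p 6 3 4 8 (by decide +kernel)
def w8455 : PV o8455 := fun P h => h.p 6 3 0 8 (by decide +kernel)
def w8456 : PV o8456 := fun P h => h.p 6 5 15 8 (by decide +kernel)
def w8457 : PV o8457 := fun P h => h.p 6 5 12 8 (by decide +kernel)
def w8458 : PV o8458 := fun P h => h.p 6 5 0 8 (by decide +kernel)
def w8459 : PV o8459 := fun P h => h.p 6 6 12 8 (by decide +kernel)
def w8460 : PV o8460 := fun P h => h.p 6 6 0 8 (by decide +kernel)
def w8461 : PV o8461 := fun P h => h.p 6 7 15 8 (by decide +kernel)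
def w8462 : PV o8462 := fun P h => h.p 6 7 13 8 (by decide +kernel)
def w8463 : PV o8463 := fun P h => h.p 6 7 12 8 (by decide +kernel)
def w8464 : PV o8464 := fun P h => h.p 6 7 5 8 (by decide +kernel)
def w8465 : PV o8465 := fun P h => h.p 6 7 4 8 (by decide +kernel)
def w8466 : PV o8466 := fun P h => h.p 6 7 0 8 (by decide +kernel)
def w8467 : PV o8467 := fun P h => h.d 6 8 (by decide +kernel)
def w8468 : PV o8468 := fun P h => h.u 6 8 (by decide +kernel)
def w8469 : PV o8469 := fun P h => h.p 6 0 5 9 (by decide +kernel)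
def w8470 : PV o8470 := fun P h => h.p 6 0 0 9 (by decide +kernel)
def w8471 : PV o8471 := fun P h => h.p 6 1 13 9 (by decide +kernel)
def w8472 : PV o8472 := fun P h => h.p 6 1 4 9 (by decide +kernel)
def w8473 : PV o8473 := fun P h => h.p 6 3 13 9 (by decide +kernel)
def w8474 : PV o8474 := fun P h => h.p 6 3 12 9 (by decide +kernel)
def w8475 : PV o8475 := fun P h => h.p 6 3 5 9 (by decide +kernel)
def w8476 : PV o8476 := fun P h => h.p 6 3 0 9 (by decide +kernel)
def w8477 : PV o8477 := fun P h => h.p 6 5 4 9 (by decide +kernel)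
def w8478 : PV o8478 := fun P h => h.p 6 6 12 9 (by decide +kernel)
def w8479 : PV o8479 := fun P h => h.p 6 7 15 9 (by decide +kernel)
def w8480 : PV o8480 := fun P h => h.p 6 7 13 9 (by decide +kernel)
def w8481 : PV o8481 := fun P h => h.p 6 7 12 9 (by decide +kernel)
def w8482 : PV o8482 := fun P h => h.p 6 7 5 9 (by decide +kernel)
def w8483 : PV o8483 := fun P h => h.p 6 7 4 9 (by decide +kernel)
def w8484 : PV o8484 := fun P h => h.d 6 9 (by decide +kernel)
def w8485 : PV o8485 := fun P h => h.p 6 0 12 10 (by decide +kernel)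
def w8486 : PV o8486 := fun P h => h.p 6 1 15 10 (by decide +kernel)
def w8487 : PV o8487 := fun P h => h.p 6 1 13 10 (by decide +kernel)
def w8488 : PV o8488 := fun P h => h.p 6 1 5 10 (by decide +kernel)
def w8489 : PV o8489 := fun P h => h.p 6 1 0 10 (by decide +kernel)
def w8490 : PV o8490 := fun P h => h.p 6 2 13 10 (by decide +kernel)
def w8491 : PV o8491 := fun P h => h.p 6 2 5 10 (by decide +kernel)
def w8492 : PV o8492 := fun P h => h.p 6 3 15 10 (by decide +kernel)
def w8493 : PV o8493 := fun P h => h.p 6 3 13 10 (by decide +kernel)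
def w8494 : PV o8494 := fun P h => h.p 6 3 12 10 (by decide +kernel)
def w8495 : PV o8495 := fun P h => h.p 6 3 5 10 (by decide +kernel)
def w8496 : PV o8496 := fun P h => h.p 6 3 4 10 (by decide +kernel)
def w8497 : PV o8497 := fun P h => h.p 6 3 0 10 (by decide +kernel)
def w8498 : PV o8498 := fun P h => h.p 6 5 15 10 (by decide +kernel)
def w8499 : PV o8499 := fun P h => h.p 6 5 12 10 (by decide +kernel)
def w8500 : PV o8500 := fun P h => h.p 6 5 4 10 (by decide +kernel)
def w8501 : PV o8501 := fun P h => h.p 6 5 0 10 (by decide +kernel)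
def w8502 : PV o8502 := fun P h => h.p 6 6 12 10 (by decide +kernel)
def w8503 : PV o8503 := fun P h => h.p 6 7 15 10 (by decide +kernel)
def w8504 : PV o8504 := fun P h => h.p 6 7 13 10 (by decide +kernel)
def w8505 : PV o8505 := fun P h => h.p 6 7 12 10 (by decide +kernel)
def w8506 : PV o8506 := fun P h => h.p 6 7 5 10 (by decide +kernel)
def w8507 : PV o8507 := fun P h => h.p 6 7 4 10 (by decide +kernel)
def w8508 : PV o8508 := fun P h => h.p 6 7 0 10 (by decide +kernel)
def w8509 : PV o8509 := fun P h => h.d 6 10 (by decide +kernel)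
def w8510 : PV o8510 := fun P h => h.u 6 10 (by decide +kernel)
def w8511 : PV o8511 := fun P h => h.p 6 0 13 11 (by decide +kernel)
def w8512 : PV o8512 := fun P h => h.p 6 1 15 11 (by decide +kernel)
def w8513 : PV o8513 := fun P h => h.p 6 1 13 11 (by decide +kernel)
def w8514 : PV o8514 := fun P h => h.p 6 1 5 11 (by decide +kernel)
def w8515 : PV o8515 := fun P h => h.p 6 2 15 11 (by decide +kernel)
def w8516 : PV o8516 := fun P h => h.p 6 3 15 11 (by decide +kernel)
def w8517 : PV o8517 := fun P h => h.p 6 3 13 11 (by decide +kernel)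
def w8518 : PV o8518 := fun P h => h.p 6 3 12 11 (by decide +kernel)
def w8519 : PV o8519 := fun P h => h.p 6 3 5 11 (by decide +kernel)
def w8520 : PV o8520 := fun P h => h.p 6 4 15 11 (by decide +kernel)
def w8521 : PV o8521 := fun P h => h.p 6 5 15 11 (by decide +kernel)
def w8522 : PV o8522 := fun P h => h.p 6 6 15 11 (by decide +kernel)
def w8523 : PV o8523 := fun P h => h.p 6 6 13 11 (by decide +kernel)
def w8524 : PV o8524 := fun P h => h.p 6 6 5 11 (by decide +kernel)
def w8525 : PV o8525 := fun P h => h.p 6 7 15 11 (by decide +kernel)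
def w8526 : PV o8526 := fun P h => h.p 6 7 13 11 (by decide +kernel)
def w8527 : PV o8527 := fun P h => h.p 6 7 12 11 (by decide +kernel)
def w8528 : PV o8528 := fun P h => h.p 6 7 5 11 (by decide +kernel)
def w8529 : PV o8529 := fun P h => h.p 6 7 4 11 (by decide +kernel)
def w8530 : PV o8530 := fun P h => h.d 6 11 (by decide +kernel)
def w8531 : PV o8531 := fun P h => h.u 6 11 (by decide +kernel)
def w8532 : PV o8532 := fun P h => h.p 6 1 15 12 (by decide +kernel)
def w8533 : PV o8533 := fun P h => h.p 6 3 15 12 (by decide +kernel)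
def w8534 : PV o8534 := fun P h => h.p 6 3 13 12 (by decide +kernel)
def w8535 : PV o8535 := fun P h => h.p 6 3 12 12 (by decide +kernel)
def w8536 : PV o8536 := fun P h => h.p 6 3 5 12 (by decide +kernel)
def w8537 : PV o8537 := fun P h => h.p 6 3 4 12 (by decide +kernel)
def w8538 : PV o8538 := fun P h => h.p 6 3 0 12 (by decide +kernel)
def w8539 : PV o8539 := fun P h => h.p 6 5 15 12 (by decide +kernel)
def w8540 : PV o8540 := fun P h => h.p 6 5 12 12 (by decide +kernel)
def w8541 : PV o8541 := fun P h => h.p 6 5 4 12 (by decide +kernel)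
def w8542 : PV o8542 := fun P h => h.p 6 6 12 12 (by decide +kernel)
def w8543 : PV o8543 := fun P h => h.p 6 7 15 12 (by decide +kernel)
def w8544 : PV o8544 := fun P h => h.p 6 7 13 12 (by decide +kernel)
def w8545 : PV o8545 := fun P h => h.p 6 7 12 12 (by decide +kernel)
def w8546 : PV o8546 := fun P h => h.p 6 7 5 12 (by decide +kernel)
def w8547 : PV o8547 := fun P h => h.p 6 7 4 12 (by decide +kernel)
def w8548 : PV o8548 := fun P h => h.p 6 7 0 12 (by decide +kernel)
def w8549 : PV o8549 := fun P h => h.d 6 12 (by decide +kernel)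
def w8550 : PV o8550 := fun P h => h.u 6 12 (by decide +kernel)
def w8551 : PV o8551 := fun P h => h.p 6 1 15 13 (by decide +kernel)
def w8552 : PV o8552 := fun P h => h.p 6 3 15 13 (by decide +kernel)
def w8553 : PV o8553 := fun P h => h.p 6 3 13 13 (by decide +kernel)
def w8554 : PV o8554 := fun P h => h.p 6 3 5 13 (by decide +kernel)
def w8555 : PV o8555 := fun P h => h.p 6 3 4 13 (by decide +kernel)
def w8556 : PV o8556 := fun P h => h.p 6 3 0 13 (by decide +kernel)
def w8557 : PV o8557 := fun P h => h.p 6 5 15 13 (by decide +kernel)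
def w8558 : PV o8558 := fun P h => h.p 6 5 4 13 (by decide +kernel)
def w8559 : PV o8559 := fun P h => h.p 6 6 13 13 (by decide +kernel)
def w8560 : PV o8560 := fun P h => h.p 6 7 15 13 (by decide +kernel)
def w8561 : PV o8561 := fun P h => h.p 6 7 13 13 (by decide +kernel)
def w8562 : PV o8562 := fun P h => h.p 6 7 12 13 (by decide +kernel)
def w8563 : PV o8563 := fun P h => h.p 6 7 5 13 (by decide +kernel)
def w8564 : PV o8564 := fun P h => h.p 6 7 4 13 (by decide +kernel)
def w8565 : PV o8565 := fun P h => h.p 6 7 0 13 (by decide +kernel)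
def w8566 : PV o8566 := fun P h => h.u 6 13 (by decide +kernel)
def w8567 : PV o8567 := fun P h => h.p 6 3 15 14 (by decide +kernel)
def w8568 : PV o8568 := fun P h => h.p 6 3 13 14 (by decide +kernel)
def w8569 : PV o8569 := fun P h => h.p 6 3 5 14 (by decide +kernel)
def w8570 : PV o8570 := fun P h => h.p 6 3 4 14 (by decide +kernel)
def w8571 : PV o8571 := fun P h => h.p 6 5 15 14 (by decide +kernel)
def w8572 : PV o8572 := fun P h => h.p 6 5 4 14 (by decide +kernel)
def w8573 : PV o8573 := fun P h => h.p 6 7 15 14 (by decide +kernel)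
def w8574 : PV o8574 := fun P h => h.p 6 7 13 14 (by decide +kernel)
def w8575 : PV o8575 := fun P h => h.p 6 7 12 14 (by decide +kernel)
def w8576 : PV o8576 := fun P h => h.p 6 7 5 14 (by decide +kernel)
def w8577 : PV o8577 := fun P h => h.p 6 7 4 14 (by decide +kernel)
def w8578 : PV o8578 := fun P h => h.p 6 7 0 14 (by decide +kernel)
def w8579 : PV o8579 := fun P h => h.u 6 14 (by decide +kernel)
def w8580 : PV o8580 := fun P h => h.p 6 1 15 15 (by decide +kernel)
def w8581 : PV o8581 := fun P h => h.p 6 3 15 15 (by decide +kernel)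
def w8582 : PV o8582 := fun P h => h.p 6 3 13 15 (by decide +kernel)
def w8583 : PV o8583 := fun P h => h.p 6 6 13 15 (by decide +kernel)
def w8584 : PV o8584 := fun P h => h.p 6 7 15 15 (by decide +kernel)
def w8585 : PV o8585 := fun P h => h.p 6 7 13 15 (by decide +kernel)
def w8586 : PV o8586 := fun P h => h.u 6 15 (by decide +kernel)
def w8587 : PV o8587 := fun P h => h.p 6 1 15 16 (by decide +kernel)
def w8588 : PV o8588 := fun P h => h.p 6 1 13 16 (by decide +kernel)
def w8589 : PV o8589 := fun P h => h.p 6 1 12 16 (by decide +kernel)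
def w8590 : PV o8590 := fun P h => h.p 6 1 5 16 (by decide +kernel)
def w8591 : PV o8591 := fun P h => h.p 6 1 4 16 (by decide +kernel)
def w8592 : PV o8592 := fun P h => h.p 6 1 0 16 (by decide +kernel)
def w8593 : PV o8593 := fun P h => h.p 6 3 13 16 (by decide +kernel)
def w8594 : PV o8594 := fun P h => h.p 6 3 12 16 (by decide +kernel)
def w8595 : PV o8595 := fun P h => h.p 6 3 5 16 (by decide +kernel)
def w8596 : PV o8596 := fun P h => h.p 6 3 4 16 (by decide +kernel)
def w8597 : PV o8597 := fun P h => h.p 6 3 0 16 (by decide +kernel)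
def w8598 : PV o8598 := fun P h => h.p 6 4 12 16 (by decide +kernel)
def w8599 : PV o8599 := fun P h => h.p 6 4 5 16 (by decide +kernel)
def w8600 : PV o8600 := fun P h => h.p 6 5 12 16 (by decide +kernel)
def w8601 : PV o8601 := fun P h => h.p 6 5 4 16 (by decide +kernel)
def w8602 : PV o8602 := fun P h => h.p 6 5 0 16 (by decide +kernel)
def w8603 : PV o8603 := fun P h => h.p 6 6 12 16 (by decide +kernel)
def w8604 : PV o8604 := fun P h => h.p 6 6 0 16 (by decide +kernel)
def w8605 : PV o8605 := fun P h => h.p 6 7 15 16 (by decide +kernel)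
def w8606 : PV o8606 := fun P h => h.p 6 7 13 16 (by decide +kernel)
def w8607 : PV o8607 := fun P h => h.p 6 7 12 16 (by decide +kernel)
def w8608 : PV o8608 := fun P h => h.p 6 7 5 16 (by decide +kernel)
def w8609 : PV o8609 := fun P h => h.p 6 7 4 16 (by decide +kernel)
def w8610 : PV o8610 := fun P h => h.p 6 7 0 16 (by decide +kernel)
def w8611 : PV o8611 := fun P h => h.d 6 16 (by decide +kernel)
def w8612 : PV o8612 := fun P h => h.u 6 16 (by decide +kernel)
def w8613 : PV o8613 := fun P h => h.p 6 0 15 17 (by decide +kernel)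
def w8614 : PV o8614 := fun P h => h.p 6 1 15 17 (by decide +kernel)
def w8615 : PV o8615 := fun P h => h.p 6 1 13 17 (by decide +kernel)
def w8616 : PV o8616 := fun P h => h.p 6 1 12 17 (by decide +kernel)
def w8617 : PV o8617 := fun P h => h.p 6 1 4 17 (by decide +kernel)
def w8618 : PV o8618 := fun P h => h.p 6 3 15 17 (by decide +kernel)
def w8619 : PV o8619 := fun P h => h.p 6 3 13 17 (by decide +kernel)
def w8620 : PV o8620 := fun P h => h.p 6 3 12 17 (by decide +kernel)
def w8621 : PV o8621 := fun P h => h.p 6 3 5 17 (by decide +kernel)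
def w8622 : PV o8622 := fun P h => h.p 6 6 12 17 (by decide +kernel)
def w8623 : PV o8623 := fun P h => h.p 6 7 15 17 (by decide +kernel)
def w8624 : PV o8624 := fun P h => h.p 6 7 13 17 (by decide +kernel)
def w8625 : PV o8625 := fun P h => h.p 6 7 12 17 (by decide +kernel)
def w8626 : PV o8626 := fun P h => h.p 6 7 5 17 (by decide +kernel)
def w8627 : PV o8627 := fun P h => h.p 6 7 4 17 (by decide +kernel)
def w8628 : PV o8628 := fun P h => h.p 6 7 0 17 (by decide +kernel)
def w8629 : PV o8629 := fun P h => h.d 6 17 (by decide +kernel)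
def w8630 : PV o8630 := fun P h => h.u 6 17 (by decide +kernel)
def w8631 : PV o8631 := fun P h => h.p 6 0 12 18 (by decide +kernel)
def w8632 : PV o8632 := fun P h => h.p 6 0 5 18 (by decide +kernel)
def w8633 : PV o8633 := fun P h => h.p 6 0 4 18 (by decide +kernel)
def w8634 : PV o8634 := fun P h => h.p 6 0 0 18 (by decide +kernel)
def w8635 : PV o8635 := fun P h => h.p 6 1 15 18 (by decide +kernel)
def w8636 : PV o8636 := fun P h => h.p 6 1 13 18 (by decide +kernel)
def w8637 : PV o8637 := fun P h => h.p 6 1 12 18 (by decide +kernel)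
def w8638 : PV o8638 := fun P h => h.p 6 1 5 18 (by decide +kernel)
def w8639 : PV o8639 := fun P h => h.p 6 1 4 18 (by decide +kernel)
def w8640 : PV o8640 := fun P h => h.p 6 1 0 18 (by decide +kernel)
def w8641 : PV o8641 := fun P h => h.p 6 2 5 18 (by decide +kernel)
def w8642 : PV o8642 := fun P h => h.p 6 2 0 18 (by decide +kernel)
def w8643 : PV o8643 := fun P h => h.p 6 3 15 18 (by decide +kernel)
def w8644 : PV o8644 := fun P h => h.p 6 3 13 18 (by decide +kernel)
def w8645 : PV o8645 := fun P h => h.p 6 3 12 18 (by decide +kernel)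
def w8646 : PV o8646 := fun P h => h.p 6 3 5 18 (by decide +kernel)
def w8647 : PV o8647 := fun P h => h.p 6 3 4 18 (by decide +kernel)
def w8648 : PV o8648 := fun P h => h.p 6 3 0 18 (by decide +kernel)
def w8649 : PV o8649 := fun P h => h.p 6 5 13 18 (by decide +kernel)
def w8650 : PV o8650 := fun P h => h.p 6 5 12 18 (by decide +kernel)
def w8651 : PV o8651 := fun P h => h.p 6 5 4 18 (by decide +kernel)
def w8652 : PV o8652 := fun P h => h.p 6 5 0 18 (by decide +kernel)
def w8653 : PV o8653 := fun P h => h.p 6 6 12 18 (by decide +kernel)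
def w8654 : PV o8654 := fun P h => h.p 6 6 4 18 (by decide +kernel)
def w8655 : PV o8655 := fun P h => h.p 6 7 15 18 (by decide +kernel)
def w8656 : PV o8656 := fun P h => h.p 6 7 13 18 (by decide +kernel)
def w8657 : PV o8657 := fun P h => h.p 6 7 12 18 (by decide +kernel)
def w8658 : PV o8658 := fun P h => h.p 6 7 5 18 (by decide +kernel)
def w8659 : PV o8659 := fun P h => h.p 6 7 4 18 (by decide +kernel)
def w8660 : PV o8660 := fun P h => h.p 6 7 0 18 (by decide +kernel)
def w8661 : PV o8661 := fun P h => h.d 6 18 (by decide +kernel)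
def w8662 : PV o8662 := fun P h => h.u 6 18 (by decide +kernel)
def w8663 : PV o8663 := fun P h => h.p 6 0 15 19 (by decide +kernel)
def w8664 : PV o8664 := fun P h => h.p 6 1 15 19 (by decide +kernel)
def w8665 : PV o8665 := fun P h => h.p 6 1 13 19 (by decide +kernel)
def w8666 : PV o8666 := fun P h => h.p 6 1 5 19 (by decide +kernel)
def w8667 : PV o8667 := fun P h => h.p 6 2 15 19 (by decide +kernel)
def w8668 : PV o8668 := fun P h => h.p 6 3 15 19 (by decide +kernel)
def w8669 : PV o8669 := fun P h => h.p 6 3 13 19 (by decide +kernel)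
def w8670 : PV o8670 := fun P h => h.p 6 3 12 19 (by decide +kernel)
def w8671 : PV o8671 := fun P h => h.p 6 3 5 19 (by decide +kernel)
def w8672 : PV o8672 := fun P h => h.p 6 5 15 19 (by decide +kernel)
def w8673 : PV o8673 := fun P h => h.p 6 5 5 19 (by decide +kernel)
def w8674 : PV o8674 := fun P h => h.p 6 5 4 19 (by decide +kernel)
def w8675 : PV o8675 := fun P h => h.p 6 5 0 19 (by decide +kernel)
def w8676 : PV o8676 := fun P h => h.p 6 6 15 19 (by decide +kernel)
def w8677 : PV o8677 := fun P h => h.p 6 6 13 19 (by decide +kernel)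
def w8678 : PV o8678 := fun P h => h.p 6 6 5 19 (by decide +kernel)
def w8679 : PV o8679 := fun P h => h.p 6 7 15 19 (by decide +kernel)
def w8680 : PV o8680 := fun P h => h.p 6 7 13 19 (by decide +kernel)
def w8681 : PV o8681 := fun P h => h.p 6 7 12 19 (by decide +kernel)
def w8682 : PV o8682 := fun P h => h.p 6 7 5 19 (by decide +kernel)
def w8683 : PV o8683 := fun P h => h.p 6 7 0 19 (by decide +kernel)
def w8684 : PV o8684 := fun P h => h.d 6 19 (by decide +kernel)
def w8685 : PV o8685 := fun P h => h.u 6 19 (by decide +kernel)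
def w8686 : PV o8686 := fun P h => h.p 6 0 0 20 (by decide +kernel)
def w8687 : PV o8687 := fun P h => h.p 6 1 15 20 (by decide +kernel)
def w8688 : PV o8688 := fun P h => h.p 6 1 12 20 (by decide +kernel)
def w8689 : PV o8689 := fun P h => h.p 6 1 0 20 (by decide +kernel)
def w8690 : PV o8690 := fun P h => h.p 6 3 15 20 (by decide +kernel)
def w8691 : PV o8691 := fun P h => h.p 6 3 13 20 (by decide +kernel)
def w8692 : PV o8692 := fun P h => h.p 6 3 12 20 (by decide +kernel)
def w8693 : PV o8693 := fun P h => h.p 6 3 5 20 (by decide +kernel)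
def w8694 : PV o8694 := fun P h => h.p 6 3 4 20 (by decide +kernel)
def w8695 : PV o8695 := fun P h => h.p 6 5 15 20 (by decide +kernel)
def w8696 : PV o8696 := fun P h => h.p 6 5 13 20 (by decide +kernel)
def w8697 : PV o8697 := fun P h => h.p 6 5 12 20 (by decide +kernel)
def w8698 : PV o8698 := fun P h => h.p 6 5 4 20 (by decide +kernel)
def w8699 : PV o8699 := fun P h => h.p 6 5 0 20 (by decide +kernel)
def w8700 : PV o8700 := fun P h => h.p 6 6 0 20 (by decide +kernel)
def w8701 : PV o8701 := fun P h => h.p 6 7 15 20 (by decide +kernel)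
def w8702 : PV o8702 := fun P h => h.p 6 7 13 20 (by decide +kernel)
def w8703 : PV o8703 := fun P h => h.p 6 7 12 20 (by decide +kernel)
def w8704 : PV o8704 := fun P h => h.p 6 7 5 20 (by decide +kernel)
def w8705 : PV o8705 := fun P h => h.p 6 7 4 20 (by decide +kernel)
def w8706 : PV o8706 := fun P h => h.p 6 7 0 20 (by decide +kernel)
def w8707 : PV o8707 := fun P h => h.u 6 20 (by decide +kernel)
def w8708 : PV o8708 := fun P h => h.p 6 1 15 21 (by decide +kernel)
def w8709 : PV o8709 := fun P h => h.p 6 1 13 21 (by decide +kernel)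
def w8710 : PV o8710 := fun P h => h.p 6 3 15 21 (by decide +kernel)
def w8711 : PV o8711 := fun P h => h.p 6 3 13 21 (by decide +kernel)
def w8712 : PV o8712 := fun P h => h.p 6 3 12 21 (by decide +kernel)
def w8713 : PV o8713 := fun P h => h.p 6 3 5 21 (by decide +kernel)
def w8714 : PV o8714 := fun P h => h.p 6 3 4 21 (by decide +kernel)
def w8715 : PV o8715 := fun P h => h.p 6 5 15 21 (by decide +kernel)
def w8716 : PV o8716 := fun P h => h.p 6 5 12 21 (by decide +kernel)
def w8717 : PV o8717 := fun P h => h.p 6 5 4 21 (by decide +kernel)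
def w8718 : PV o8718 := fun P h => h.p 6 6 15 21 (by decide +kernel)
def w8719 : PV o8719 := fun P h => h.p 6 6 12 21 (by decide +kernel)
def w8720 : PV o8720 := fun P h => h.p 6 6 5 21 (by decide +kernel)
def w8721 : PV o8721 := fun P h => h.p 6 7 15 21 (by decide +kernel)
def w8722 : PV o8722 := fun P h => h.p 6 7 13 21 (by decide +kernel)
def w8723 : PV o8723 := fun P h => h.p 6 7 12 21 (by decide +kernel)
def w8724 : PV o8724 := fun P h => h.p 6 7 5 21 (by decide +kernel)
def w8725 : PV o8725 := fun P h => h.p 6 7 4 21 (by decide +kernel)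
def w8726 : PV o8726 := fun P h => h.p 6 7 0 21 (by decide +kernel)
def w8727 : PV o8727 := fun P h => h.d 6 21 (by decide +kernel)
def w8728 : PV o8728 := fun P h => h.u 6 21 (by decide +kernel)
def w8729 : PV o8729 := fun P h => h.p 6 1 15 22 (by decide +kernel)
def w8730 : PV o8730 := fun P h => h.p 6 1 13 22 (by decide +kernel)
def w8731 : PV o8731 := fun P h => h.p 6 3 15 22 (by decide +kernel)
def w8732 : PV o8732 := fun P h => h.p 6 3 13 22 (by decide +kernel)
def w8733 : PV o8733 := fun P h => h.p 6 3 5 22 (by decide +kernel)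
def w8734 : PV o8734 := fun P h => h.p 6 5 12 22 (by decide +kernel)
def w8735 : PV o8735 := fun P h => h.p 6 5 4 22 (by decide +kernel)
def w8736 : PV o8736 := fun P h => h.p 6 6 5 22 (by decide +kernel)
def w8737 : PV o8737 := fun P h => h.p 6 7 15 22 (by decide +kernel)
def w8738 : PV o8738 := fun P h => h.p 6 7 12 22 (by decide +kernel)
def w8739 : PV o8739 := fun P h => h.p 6 7 5 22 (by decide +kernel)
def w8740 : PV o8740 := fun P h => h.p 6 7 0 22 (by decide +kernel)
def w8741 : PV o8741 := fun P h => h.d 6 22 (by decide +kernel)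
def w8742 : PV o8742 := fun P h => h.u 6 22 (by decide +kernel)
def w8743 : PV o8743 := fun P h => h.p 6 1 15 23 (by decide +kernel)
def w8744 : PV o8744 := fun P h => h.p 6 3 15 23 (by decide +kernel)
def w8745 : PV o8745 := fun P h => h.p 6 3 13 23 (by decide +kernel)
def w8746 : PV o8746 := fun P h => h.p 6 3 5 23 (by decide +kernel)
def w8747 : PV o8747 := fun P h => h.p 6 6 13 23 (by decide +kernel)
def w8748 : PV o8748 := fun P h => h.p 6 7 15 23 (by decide +kernel)
def w8749 : PV o8749 := fun P h => h.p 6 7 13 23 (by decide +kernel)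
def w8750 : PV o8750 := fun P h => h.p 6 7 12 23 (by decide +kernel)
def w8751 : PV o8751 := fun P h => h.p 6 7 5 23 (by decide +kernel)
def w8752 : PV o8752 := fun P h => h.u 6 23 (by decide +kernel)
def w8753 : PV o8753 := fun P h => h.p 6 0 0 24 (by decide +kernel)
def w8754 : PV o8754 := fun P h => h.p 6 1 15 24 (by decide +kernel)
def w8755 : PV o8755 := fun P h => h.p 6 2 12 24 (by decide +kernel)
def w8756 : PV o8756 := fun P h => h.p 6 3 15 24 (by decide +kernel)
def w8757 : PV o8757 := fun P h => h.p 6 3 13 24 (by decide +kernel)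
def w8758 : PV o8758 := fun P h => h.p 6 3 12 24 (by decide +kernel)
def w8759 : PV o8759 := fun P h => h.p 6 3 5 24 (by decide +kernel)
def w8760 : PV o8760 := fun P h => h.p 6 3 4 24 (by decide +kernel)
def w8761 : PV o8761 := fun P h => h.p 6 3 0 24 (by decide +kernel)
def w8762 : PV o8762 := fun P h => h.p 6 4 12 24 (by decide +kernel)
def w8763 : PV o8763 := fun P h => h.p 6 4 5 24 (by decide +kernel)
def w8764 : PV o8764 := fun P h => h.p 6 4 4 24 (by decide +kernel)
def w8765 : PV o8765 := fun P h => h.p 6 4 0 24 (by decide +kernel)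
def w8766 : PV o8766 := fun P h => h.p 6 5 15 24 (by decide +kernel)
def w8767 : PV o8767 := fun P h => h.p 6 5 12 24 (by decide +kernel)
def w8768 : PV o8768 := fun P h => h.p 6 5 4 24 (by decide +kernel)
def w8769 : PV o8769 := fun P h => h.p 6 5 0 24 (by decide +kernel)
def w8770 : PV o8770 := fun P h => h.p 6 6 12 24 (by decide +kernel)
def w8771 : PV o8771 := fun P h => h.p 6 6 5 24 (by decide +kernel)
def w8772 : PV o8772 := fun P h => h.p 6 7 15 24 (by decide +kernel)
def w8773 : PV o8773 := fun P h => h.p 6 7 13 24 (by decide +kernel)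
def w8774 : PV o8774 := fun P h => h.p 6 7 12 24 (by decide +kernel)
def w8775 : PV o8775 := fun P h => h.p 6 7 5 24 (by decide +kernel)
def w8776 : PV o8776 := fun P h => h.p 6 7 4 24 (by decide +kernel)
def w8777 : PV o8777 := fun P h => h.p 6 7 0 24 (by decide +kernel)
def w8778 : PV o8778 := fun P h => h.d 6 24 (by decide +kernel)
def w8779 : PV o8779 := fun P h => h.u 6 24 (by decide +kernel)
def w8780 : PV o8780 := fun P h => h.p 6 1 5 25 (by decide +kernel)
def w8781 : PV o8781 := fun P h => h.p 6 3 15 25 (by decide +kernel)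
def w8782 : PV o8782 := fun P h => h.p 6 3 13 25 (by decide +kernel)
def w8783 : PV o8783 := fun P h => h.p 6 3 12 25 (by decide +kernel)
def w8784 : PV o8784 := fun P h => h.p 6 3 5 25 (by decide +kernel)
def w8785 : PV o8785 := fun P h => h.p 6 7 15 25 (by decide +kernel)
def w8786 : PV o8786 := fun P h => h.p 6 7 13 25 (by decide +kernel)
def w8787 : PV o8787 := fun P h => h.p 6 7 12 25 (by decide +kernel)
def w8788 : PV o8788 := fun P h => h.p 6 7 5 25 (by decide +kernel)
def w8789 : PV o8789 := fun P h => h.p 6 7 4 25 (by decide +kernel)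
def w8790 : PV o8790 := fun P h => h.u 6 25 (by decide +kernel)
def w8791 : PV o8791 := fun P h => h.p 6 1 0 26 (by decide +kernel)
def w8792 : PV o8792 := fun P h => h.p 6 3 15 26 (by decide +kernel)
def w8793 : PV o8793 := fun P h => h.p 6 3 13 26 (by decide +kernel)
def w8794 : PV o8794 := fun P h => h.p 6 3 12 26 (by decide +kernel)
def w8795 : PV o8795 := fun P h => h.p 6 3 5 26 (by decide +kernel)
def w8796 : PV o8796 := fun P h => h.p 6 5 4 26 (by decide +kernel)
def w8797 : PV o8797 := fun P h => h.p 6 5 0 26 (by decide +kernel)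
def w8798 : PV o8798 := fun P h => h.p 6 7 15 26 (by decide +kernel)
def w8799 : PV o8799 := fun P h => h.p 6 7 13 26 (by decide +kernel)
def w8800 : PV o8800 := fun P h => h.p 6 7 12 26 (by decide +kernel)
def w8801 : PV o8801 := fun P h => h.p 6 7 5 26 (by decide +kernel)
def w8802 : PV o8802 := fun P h => h.p 6 7 4 26 (by decide +kernel)
def w8803 : PV o8803 := fun P h => h.p 6 7 0 26 (by decide +kernel)
def w8804 : PV o8804 := fun P h => h.d 6 26 (by decide +kernel)
def w8805 : PV o8805 := fun P h => h.u 6 26 (by decide +kernel)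
def w8806 : PV o8806 := fun P h => h.p 6 1 12 27 (by decide +kernel)
def w8807 : PV o8807 := fun P h => h.p 6 1 5 27 (by decide +kernel)
def w8808 : PV o8808 := fun P h => h.p 6 2 15 27 (by decide +kernel)
def w8809 : PV o8809 := fun P h => h.p 6 3 15 27 (by decide +kernel)
def w8810 : PV o8810 := fun P h => h.p 6 3 13 27 (by decide +kernel)
def w8811 : PV o8811 := fun P h => h.p 6 4 15 27 (by decide +kernel)
def w8812 : PV o8812 := fun P h => h.p 6 5 15 27 (by decide +kernel)
def w8813 : PV o8813 := fun P h => h.p 6 5 4 27 (by decide +kernel)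
def w8814 : PV o8814 := fun P h => h.p 6 6 15 27 (by decide +kernel)
def w8815 : PV o8815 := fun P h => h.p 6 6 13 27 (by decide +kernel)
def w8816 : PV o8816 := fun P h => h.p 6 7 15 27 (by decide +kernel)
def w8817 : PV o8817 := fun P h => h.p 6 7 13 27 (by decide +kernel)
def w8818 : PV o8818 := fun P h => h.p 6 7 12 27 (by decide +kernel)
def w8819 : PV o8819 := fun P h => h.p 6 7 5 27 (by decide +kernel)
def w8820 : PV o8820 := fun P h => h.p 6 7 4 27 (by decide +kernel)
def w8821 : PV o8821 := fun P h => h.d 6 27 (by decide +kernel)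
def w8822 : PV o8822 := fun P h => h.u 6 27 (by decide +kernel)
def w8823 : PV o8823 := fun P h => h.p 6 1 15 28 (by decide +kernel)
def w8824 : PV o8824 := fun P h => h.p 6 3 15 28 (by decide +kernel)
def w8825 : PV o8825 := fun P h => h.p 6 3 13 28 (by decide +kernel)
def w8826 : PV o8826 := fun P h => h.p 6 3 12 28 (by decide +kernel)
def w8827 : PV o8827 := fun P h => h.p 6 3 5 28 (by decide +kernel)
def w8828 : PV o8828 := fun P h => h.p 6 5 15 28 (by decide +kernel)
def w8829 : PV o8829 := fun P h => h.p 6 5 4 28 (by decide +kernel)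
def w8830 : PV o8830 := fun P h => h.p 6 6 15 28 (by decide +kernel)
def w8831 : PV o8831 := fun P h => h.p 6 6 13 28 (by decide +kernel)
def w8832 : PV o8832 := fun P h => h.p 6 6 12 28 (by decide +kernel)
def w8833 : PV o8833 := fun P h => h.p 6 7 15 28 (by decide +kernel)
def w8834 : PV o8834 := fun P h => h.p 6 7 13 28 (by decide +kernel)
def w8835 : PV o8835 := fun P h => h.p 6 7 12 28 (by decide +kernel)
def w8836 : PV o8836 := fun P h => h.p 6 7 5 28 (by decide +kernel)
def w8837 : PV o8837 := fun P h => h.p 6 7 4 28 (by decide +kernel)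
def w8838 : PV o8838 := fun P h => h.d 6 28 (by decide +kernel)
def w8839 : PV o8839 := fun P h => h.u 6 28 (by decide +kernel)
def w8840 : PV o8840 := fun P h => h.p 6 0 15 29 (by decide +kernel)
def w8841 : PV o8841 := fun P h => h.p 6 3 15 29 (by decide +kernel)
def w8842 : PV o8842 := fun P h => h.p 6 3 13 29 (by decide +kernel)
def w8843 : PV o8843 := fun P h => h.p 6 3 12 29 (by decide +kernel)
def w8844 : PV o8844 := fun P h => h.p 6 5 15 29 (by decide +kernel)
def w8845 : PV o8845 := fun P h => h.p 6 5 4 29 (by decide +kernel)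
def w8846 : PV o8846 := fun P h => h.p 6 6 15 29 (by decide +kernel)
def w8847 : PV o8847 := fun P h => h.p 6 6 13 29 (by decide +kernel)
def w8848 : PV o8848 := fun P h => h.p 6 7 15 29 (by decide +kernel)
def w8849 : PV o8849 := fun P h => h.p 6 7 13 29 (by decide +kernel)
def w8850 : PV o8850 := fun P h => h.p 6 7 12 29 (by decide +kernel)
def w8851 : PV o8851 := fun P h => h.p 6 7 5 29 (by decide +kernel)
def w8852 : PV o8852 := fun P h => h.d 6 29 (by decide +kernel)
def w8853 : PV o8853 := fun P h => h.u 6 29 (by decide +kernel)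
def w8854 : PV o8854 := fun P h => h.p 6 1 15 30 (by decide +kernel)
def w8855 : PV o8855 := fun P h => h.p 6 1 13 30 (by decide +kernel)
def w8856 : PV o8856 := fun P h => h.p 6 1 12 30 (by decide +kernel)
def w8857 : PV o8857 := fun P h => h.p 6 3 15 30 (by decide +kernel)
def w8858 : PV o8858 := fun P h => h.p 6 3 13 30 (by decide +kernel)
def w8859 : PV o8859 := fun P h => h.p 6 3 5 30 (by decide +kernel)
def w8860 : PV o8860 := fun P h => h.p 6 5 12 30 (by decide +kernel)
def w8861 : PV o8861 := fun P h => h.p 6 5 4 30 (by decide +kernel)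
def w8862 : PV o8862 := fun P h => h.p 6 7 15 30 (by decide +kernel)
def w8863 : PV o8863 := fun P h => h.p 6 7 13 30 (by decide +kernel)
def w8864 : PV o8864 := fun P h => h.p 6 7 12 30 (by decide +kernel)
def w8865 : PV o8865 := fun P h => h.p 6 7 4 30 (by decide +kernel)
def w8866 : PV o8866 := fun P h => h.u 6 30 (by decide +kernel)
def w8867 : PV o8867 := fun P h => h.p 6 3 15 31 (by decide +kernel)
def w8868 : PV o8868 := fun P h => h.p 6 7 15 31 (by decide +kernel)
def w8869 : PV o8869 := fun P h => h.p 6 7 12 31 (by decide +kernel)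
def w8870 : PV o8870 := fun P h => h.p 6 7 5 31 (by decide +kernel)
def w8871 : PV o8871 := fun P h => h.p 7 1 13 1 (by decide +kernel)
def w8872 : PV o8872 := fun P h => h.p 7 1 12 1 (by decide +kernel)
def w8873 : PV o8873 := fun P h => h.p 7 1 5 1 (by decide +kernel)
def w8874 : PV o8874 := fun P h => h.p 7 1 4 1 (by decide +kernel)
def w8875 : PV o8875 := fun P h => h.p 7 1 0 1 (by decide +kernel)
def w8876 : PV o8876 := fun P h => h.p 7 3 12 1 (by decide +kernel)
def w8877 : PV o8877 := fun P h => h.p 7 3 4 1 (by decide +kernel)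
def w8878 : PV o8878 := fun P h => h.p 7 3 0 1 (by decide +kernel)
def w8879 : PV o8879 := fun P h => h.d 7 1 (by decide +kernel)
def w8880 : PV o8880 := fun P h => h.u 7 1 (by decide +kernel)
def w8881 : PV o8881 := fun P h => h.p 7 1 15 2 (by decide +kernel)
def w8882 : PV o8882 := fun P h => h.p 7 1 12 2 (by decide +kernel)
def w8883 : PV o8883 := fun P h => h.p 7 1 5 2 (by decide +kernel)
def w8884 : PV o8884 := fun P h => h.p 7 1 0 2 (by decide +kernel)
def w8885 : PV o8885 := fun P h => h.p 7 3 5 2 (by decide +kernel)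
def w8886 : PV o8886 := fun P h => h.p 7 3 4 2 (by decide +kernel)
def w8887 : PV o8887 := fun P h => h.p 7 3 0 2 (by decide +kernel)
def w8888 : PV o8888 := fun P h => h.p 7 4 5 2 (by decide +kernel)
def w8889 : PV o8889 := fun P h => h.p 7 4 0 2 (by decide +kernel)
def w8890 : PV o8890 := fun P h => h.p 7 5 0 2 (by decide +kernel)
def w8891 : PV o8891 := fun P h => h.d 7 2 (by decide +kernel)
def w8892 : PV o8892 := fun P h => h.u 7 2 (by decide +kernel)
def w8893 : PV o8893 := fun P h => h.p 7 1 15 3 (by decide +kernel)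
def w8894 : PV o8894 := fun P h => h.p 7 1 5 3 (by decide +kernel)
def w8895 : PV o8895 := fun P h => h.p 7 1 4 3 (by decide +kernel)
def w8896 : PV o8896 := fun P h => h.p 7 3 4 3 (by decide +kernel)
def w8897 : PV o8897 := fun P h => h.p 7 6 0 3 (by decide +kernel)
def w8898 : PV o8898 := fun P h => h.d 7 3 (by decide +kernel)
def w8899 : PV o8899 := fun P h => h.u 7 3 (by decide +kernel)
def w8900 : PV o8900 := fun P h => h.p 7 1 12 4 (by decide +kernel)
def w8901 : PV o8901 := fun P h => h.p 7 3 5 4 (by decide +kernel)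
def w8902 : PV o8902 := fun P h => h.p 7 3 4 4 (by decide +kernel)
def w8903 : PV o8903 := fun P h => h.p 7 4 4 4 (by decide +kernel)
def w8904 : PV o8904 := fun P h => h.p 7 4 0 4 (by decide +kernel)
def w8905 : PV o8905 := fun P h => h.p 7 6 0 4 (by decide +kernel)
def w8906 : PV o8906 := fun P h => h.d 7 4 (by decide +kernel)
def w8907 : PV o8907 := fun P h => h.u 7 4 (by decide +kernel)
def w8908 : PV o8908 := fun P h => h.p 7 0 12 5 (by decide +kernel)
def w8909 : PV o8909 := fun P h => h.p 7 1 15 5 (by decide +kernel)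
def w8910 : PV o8910 := fun P h => h.p 7 1 12 5 (by decide +kernel)
def w8911 : PV o8911 := fun P h => h.p 7 1 4 5 (by decide +kernel)
def w8912 : PV o8912 := fun P h => h.p 7 2 13 5 (by decide +kernel)
def w8913 : PV o8913 := fun P h => h.p 7 5 12 5 (by decide +kernel)
def w8914 : PV o8914 := fun P h => h.p 7 6 13 5 (by decide +kernel)
def w8915 : PV o8915 := fun P h => h.p 7 6 12 5 (by decide +kernel)
def w8916 : PV o8916 := fun P h => h.p 7 6 5 5 (by decide +kernel)
def w8917 : PV o8917 := fun P h => h.p 7 6 4 5 (by decide +kernel)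
def w8918 : PV o8918 := fun P h => h.p 7 6 0 5 (by decide +kernel)
def w8919 : PV o8919 := fun P h => h.p 7 7 5 5 (by decide +kernel)
def w8920 : PV o8920 := fun P h => h.d 7 5 (by decide +kernel)
def w8921 : PV o8921 := fun P h => h.u 7 5 (by decide +kernel)
def w8922 : PV o8922 := fun P h => h.p 7 3 13 6 (by decide +kernel)
def w8923 : PV o8923 := fun P h => h.p 7 3 5 6 (by decide +kernel)
def w8924 : PV o8924 := fun P h => h.p 7 6 0 6 (by decide +kernel)
def w8925 : PV o8925 := fun P h => h.p 7 7 5 6 (by decide +kernel)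
def w8926 : PV o8926 := fun P h => h.d 7 6 (by decide +kernel)
def w8927 : PV o8927 := fun P h => h.u 7 6 (by decide +kernel)
def w8928 : PV o8928 := fun P h => h.p 7 1 15 7 (by decide +kernel)
def w8929 : PV o8929 := fun P h => h.p 7 1 13 7 (by decide +kernel)
def w8930 : PV o8930 := fun P h => h.p 7 1 5 7 (by decide +kernel)
def w8931 : PV o8931 := fun P h => h.p 7 3 13 7 (by decide +kernel)
def w8932 : PV o8932 := fun P h => h.p 7 3 5 7 (by decide +kernel)
def w8933 : PV o8933 := fun P h => h.p 7 6 5 7 (by decide +kernel)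
def w8934 : PV o8934 := fun P h => h.p 7 6 4 7 (by decide +kernel)
def w8935 : PV o8935 := fun P h => h.d 7 7 (by decide +kernel)
def w8936 : PV o8936 := fun P h => h.u 7 7 (by decide +kernel)
def w8937 : PV o8937 := fun P h => h.p 7 1 4 8 (by decide +kernel)
def w8938 : PV o8938 := fun P h => h.p 7 1 0 8 (by decide +kernel)
def w8939 : PV o8939 := fun P h => h.p 7 3 12 8 (by decide +kernel)
def w8940 : PV o8940 := fun P h => h.p 7 3 5 8 (by decide +kernel)
def w8941 : PV o8941 := fun P h => h.p 7 3 4 8 (by decide +kernel)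
def w8942 : PV o8942 := fun P h => h.p 7 3 0 8 (by decide +kernel)
def w8943 : PV o8943 := fun P h => h.p 7 6 12 8 (by decide +kernel)
def w8944 : PV o8944 := fun P h => h.p 7 7 4 8 (by decide +kernel)
def w8945 : PV o8945 := fun P h => h.p 7 7 0 8 (by decide +kernel)
def w8946 : PV o8946 := fun P h => h.d 7 8 (by decide +kernel)
def w8947 : PV o8947 := fun P h => h.u 7 8 (by decide +kernel)
def w8948 : PV o8948 := fun P h => h.p 7 1 13 9 (by decide +kernel)
def w8949 : PV o8949 := fun P h => h.p 7 1 12 9 (by decide +kernel)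
def w8950 : PV o8950 := fun P h => h.p 7 1 4 9 (by decide +kernel)
def w8951 : PV o8951 := fun P h => h.p 7 3 12 9 (by decide +kernel)
def w8952 : PV o8952 := fun P h => h.p 7 3 5 9 (by decide +kernel)
def w8953 : PV o8953 := fun P h => h.p 7 3 0 9 (by decide +kernel)
def w8954 : PV o8954 := fun P h => h.p 7 6 13 9 (by decide +kernel)
def w8955 : PV o8955 := fun P h => h.p 7 6 5 9 (by decide +kernel)
def w8956 : PV o8956 := fun P h => h.p 7 7 12 9 (by decide +kernel)
def w8957 : PV o8957 := fun P h => h.d 7 9 (by decide +kernel)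
def w8958 : PV o8958 := fun P h => h.u 7 9 (by decide +kernel)
def w8959 : PV o8959 := fun P h => h.p 7 1 15 10 (by decide +kernel)
def w8960 : PV o8960 := fun P h => h.p 7 1 4 10 (by decide +kernel)
def w8961 : PV o8961 := fun P h => h.p 7 3 13 10 (by decide +kernel)
def w8962 : PV o8962 := fun P h => h.p 7 3 5 10 (by decide +kernel)
def w8963 : PV o8963 := fun P h => h.p 7 3 4 10 (by decide +kernel)
def w8964 : PV o8964 := fun P h => h.p 7 4 0 10 (by decide +kernel)
def w8965 : PV o8965 := fun P h => h.p 7 6 0 10 (by decide +kernel)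
def w8966 : PV o8966 := fun P h => h.p 7 7 12 10 (by decide +kernel)
def w8967 : PV o8967 := fun P h => h.p 7 7 5 10 (by decide +kernel)
def w8968 : PV o8968 := fun P h => h.d 7 10 (by decide +kernel)
def w8969 : PV o8969 := fun P h => h.u 7 10 (by decide +kernel)
def w8970 : PV o8970 := fun P h => h.p 7 1 15 11 (by decide +kernel)
def w8971 : PV o8971 := fun P h => h.p 7 1 13 11 (by decide +kernel)
def w8972 : PV o8972 := fun P h => h.p 7 1 5 11 (by decide +kernel)
def w8973 : PV o8973 := fun P h => h.p 7 3 15 11 (by decide +kernel)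
def w8974 : PV o8974 := fun P h => h.p 7 3 13 11 (by decide +kernel)
def w8975 : PV o8975 := fun P h => h.p 7 3 12 11 (by decide +kernel)
def w8976 : PV o8976 := fun P h => h.p 7 3 5 11 (by decide +kernel)
def w8977 : PV o8977 := fun P h => h.d 7 11 (by decide +kernel)
def w8978 : PV o8978 := fun P h => h.u 7 11 (by decide +kernel)
def w8979 : PV o8979 := fun P h => h.p 7 0 0 12 (by decide +kernel)
def w8980 : PV o8980 := fun P h => h.p 7 1 15 12 (by decide +kernel)
def w8981 : PV o8981 := fun P h => h.p 7 3 13 12 (by decide +kernel)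
def w8982 : PV o8982 := fun P h => h.p 7 3 5 12 (by decide +kernel)
def w8983 : PV o8983 := fun P h => h.p 7 3 0 12 (by decide +kernel)
def w8984 : PV o8984 := fun P h => h.p 7 4 4 12 (by decide +kernel)
def w8985 : PV o8985 := fun P h => h.p 7 4 0 12 (by decide +kernel)
def w8986 : PV o8986 := fun P h => h.p 7 6 4 12 (by decide +kernel)
def w8987 : PV o8987 := fun P h => h.p 7 6 0 12 (by decide +kernel)
def w8988 : PV o8988 := fun P h => h.d 7 12 (by decide +kernel)
def w8989 : PV o8989 := fun P h => h.u 7 12 (by decide +kernel)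
def w8990 : PV o8990 := fun P h => h.p 7 1 15 13 (by decide +kernel)
def w8991 : PV o8991 := fun P h => h.p 7 1 12 13 (by decide +kernel)
def w8992 : PV o8992 := fun P h => h.p 7 3 13 13 (by decide +kernel)
def w8993 : PV o8993 := fun P h => h.p 7 3 12 13 (by decide +kernel)
def w8994 : PV o8994 := fun P h => h.p 7 6 12 13 (by decide +kernel)
def w8995 : PV o8995 := fun P h => h.p 7 6 4 13 (by decide +kernel)
def w8996 : PV o8996 := fun P h => h.p 7 6 0 13 (by decide +kernel)
def w8997 : PV o8997 := fun P h => h.p 7 7 5 13 (by decide +kernel)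
def w8998 : PV o8998 := fun P h => h.d 7 13 (by decide +kernel)
def w8999 : PV o8999 := fun P h => h.u 7 13 (by decide +kernel)
def w9000 : PV o9000 := fun P h => h.p 7 1 15 14 (by decide +kernel)
def w9001 : PV o9001 := fun P h => h.p 7 3 15 14 (by decide +kernel)
def w9002 : PV o9002 := fun P h => h.p 7 3 13 14 (by decide +kernel)
def w9003 : PV o9003 := fun P h => h.p 7 3 12 14 (by decide +kernel)
def w9004 : PV o9004 := fun P h => h.p 7 3 5 14 (by decide +kernel)
def w9005 : PV o9005 := fun P h => h.p 7 3 4 14 (by decide +kernel)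
def w9006 : PV o9006 := fun P h => h.p 7 6 12 14 (by decide +kernel)
def w9007 : PV o9007 := fun P h => h.p 7 6 5 14 (by decide +kernel)
def w9008 : PV o9008 := fun P h => h.p 7 6 0 14 (by decide +kernel)
def w9009 : PV o9009 := fun P h => h.p 7 7 5 14 (by decide +kernel)
def w9010 : PV o9010 := fun P h => h.d 7 14 (by decide +kernel)
def w9011 : PV o9011 := fun P h => h.u 7 14 (by decide +kernel)
def w9012 : PV o9012 := fun P h => h.p 7 3 15 15 (by decide +kernel)
def w9013 : PV o9013 := fun P h => h.p 7 3 13 15 (by decide +kernel)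
def w9014 : PV o9014 := fun P h => h.p 7 3 12 15 (by decide +kernel)
def w9015 : PV o9015 := fun P h => h.p 7 3 5 15 (by decide +kernel)
def w9016 : PV o9016 := fun P h => h.p 7 4 15 15 (by decide +kernel)
def w9017 : PV o9017 := fun P h => h.p 7 6 15 15 (by decide +kernel)
def w9018 : PV o9018 := fun P h => h.p 7 6 13 15 (by decide +kernel)
def w9019 : PV o9019 := fun P h => h.p 7 6 12 15 (by decide +kernel)
def w9020 : PV o9020 := fun P h => h.p 7 6 5 15 (by decide +kernel)
def w9021 : PV o9021 := fun P h => h.p 7 7 15 15 (by decide +kernel)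
def w9022 : PV o9022 := fun P h => h.p 7 7 5 15 (by decide +kernel)
def w9023 : PV o9023 := fun P h => h.d 7 15 (by decide +kernel)
def w9024 : PV o9024 := fun P h => h.u 7 15 (by decide +kernel)
def w9025 : PV o9025 := fun P h => h.p 7 1 13 16 (by decide +kernel)
def w9026 : PV o9026 := fun P h => h.p 7 1 12 16 (by decide +kernel)
def w9027 : PV o9027 := fun P h => h.p 7 1 0 16 (by decide +kernel)
def w9028 : PV o9028 := fun P h => h.p 7 3 12 16 (by decide +kernel)
def w9029 : PV o9029 := fun P h => h.p 7 3 5 16 (by decide +kernel)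
def w9030 : PV o9030 := fun P h => h.p 7 3 4 16 (by decide +kernel)
def w9031 : PV o9031 := fun P h => h.p 7 3 0 16 (by decide +kernel)
def w9032 : PV o9032 := fun P h => h.d 7 16 (by decide +kernel)
def w9033 : PV o9033 := fun P h => h.u 7 16 (by decide +kernel)
def w9034 : PV o9034 := fun P h => h.p 7 0 0 17 (by decide +kernel)
def w9035 : PV o9035 := fun P h => h.p 7 1 13 17 (by decide +kernel)
def w9036 : PV o9036 := fun P h => h.p 7 1 12 17 (by decide +kernel)
def w9037 : PV o9037 := fun P h => h.p 7 1 5 17 (by decide +kernel)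
def w9038 : PV o9038 := fun P h => h.p 7 1 4 17 (by decide +kernel)
def w9039 : PV o9039 := fun P h => h.p 7 2 13 17 (by decide +kernel)
def w9040 : PV o9040 := fun P h => h.p 7 3 12 17 (by decide +kernel)
def w9041 : PV o9041 := fun P h => h.p 7 3 0 17 (by decide +kernel)
def w9042 : PV o9042 := fun P h => h.p 7 6 4 17 (by decide +kernel)
def w9043 : PV o9043 := fun P h => h.p 7 7 12 17 (by decide +kernel)
def w9044 : PV o9044 := fun P h => h.d 7 17 (by decide +kernel)
def w9045 : PV o9045 := fun P h => h.u 7 17 (by decide +kernel)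
def w9046 : PV o9046 := fun P h => h.p 7 1 13 18 (by decide +kernel)
def w9047 : PV o9047 := fun P h => h.p 7 1 12 18 (by decide +kernel)
def w9048 : PV o9048 := fun P h => h.p 7 1 5 18 (by decide +kernel)
def w9049 : PV o9049 := fun P h => h.p 7 1 4 18 (by decide +kernel)
def w9050 : PV o9050 := fun P h => h.p 7 1 0 18 (by decide +kernel)
def w9051 : PV o9051 := fun P h => h.p 7 2 0 18 (by decide +kernel)
def w9052 : PV o9052 := fun P h => h.p 7 3 12 18 (by decide +kernel)
def w9053 : PV o9053 := fun P h => h.p 7 3 5 18 (by decide +kernel)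
def w9054 : PV o9054 := fun P h => h.p 7 3 4 18 (by decide +kernel)
def w9055 : PV o9055 := fun P h => h.p 7 4 0 18 (by decide +kernel)
def w9056 : PV o9056 := fun P h => h.d 7 18 (by decide +kernel)
def w9057 : PV o9057 := fun P h => h.u 7 18 (by decide +kernel)
def w9058 : PV o9058 := fun P h => h.p 7 1 15 19 (by decide +kernel)
def w9059 : PV o9059 := fun P h => h.p 7 1 13 19 (by decide +kernel)
def w9060 : PV o9060 := fun P h => h.p 7 1 12 19 (by decide +kernel)
def w9061 : PV o9061 := fun P h => h.p 7 1 5 19 (by decide +kernel)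
def w9062 : PV o9062 := fun P h => h.p 7 3 15 19 (by decide +kernel)
def w9063 : PV o9063 := fun P h => h.p 7 3 13 19 (by decide +kernel)
def w9064 : PV o9064 := fun P h => h.p 7 3 12 19 (by decide +kernel)
def w9065 : PV o9065 := fun P h => h.p 7 3 0 19 (by decide +kernel)
def w9066 : PV o9066 := fun P h => h.u 7 19 (by decide +kernel)
def w9067 : PV o9067 := fun P h => h.p 7 3 5 20 (by decide +kernel)
def w9068 : PV o9068 := fun P h => h.p 7 3 4 20 (by decide +kernel)
def w9069 : PV o9069 := fun P h => h.p 7 3 0 20 (by decide +kernel)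
def w9070 : PV o9070 := fun P h => h.p 7 4 4 20 (by decide +kernel)
def w9071 : PV o9071 := fun P h => h.p 7 4 0 20 (by decide +kernel)
def w9072 : PV o9072 := fun P h => h.p 7 5 4 20 (by decide +kernel)
def w9073 : PV o9073 := fun P h => h.p 7 6 4 20 (by decide +kernel)
def w9074 : PV o9074 := fun P h => h.p 7 6 0 20 (by decide +kernel)
def w9075 : PV o9075 := fun P h => h.d 7 20 (by decide +kernel)
def w9076 : PV o9076 := fun P h => h.u 7 20 (by decide +kernel)
def w9077 : PV o9077 := fun P h => h.p 7 1 15 21 (by decide +kernel)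
def w9078 : PV o9078 := fun P h => h.p 7 1 12 21 (by decide +kernel)
def w9079 : PV o9079 := fun P h => h.p 7 1 4 21 (by decide +kernel)
def w9080 : PV o9080 := fun P h => h.p 7 3 15 21 (by decide +kernel)
def w9081 : PV o9081 := fun P h => h.p 7 3 13 21 (by decide +kernel)
def w9082 : PV o9082 := fun P h => h.p 7 3 12 21 (by decide +kernel)
def w9083 : PV o9083 := fun P h => h.p 7 3 4 21 (by decide +kernel)
def w9084 : PV o9084 := fun P h => h.p 7 4 13 21 (by decide +kernel)
def w9085 : PV o9085 := fun P h => h.p 7 5 15 21 (by decide +kernel)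
def w9086 : PV o9086 := fun P h => h.p 7 6 12 21 (by decide +kernel)
def w9087 : PV o9087 := fun P h => h.p 7 6 4 21 (by decide +kernel)
def w9088 : PV o9088 := fun P h => h.p 7 6 0 21 (by decide +kernel)
def w9089 : PV o9089 := fun P h => h.d 7 21 (by decide +kernel)
def w9090 : PV o9090 := fun P h => h.u 7 21 (by decide +kernel)
def w9091 : PV o9091 := fun P h => h.p 7 1 15 22 (by decide +kernel)
def w9092 : PV o9092 := fun P h => h.p 7 3 15 22 (by decide +kernel)
def w9093 : PV o9093 := fun P h => h.p 7 3 13 22 (by decide +kernel)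
def w9094 : PV o9094 := fun P h => h.p 7 3 5 22 (by decide +kernel)
def w9095 : PV o9095 := fun P h => h.p 7 3 4 22 (by decide +kernel)
def w9096 : PV o9096 := fun P h => h.p 7 6 12 22 (by decide +kernel)
def w9097 : PV o9097 := fun P h => h.p 7 6 5 22 (by decide +kernel)
def w9098 : PV o9098 := fun P h => h.p 7 7 5 22 (by decide +kernel)
def w9099 : PV o9099 := fun P h => h.u 7 22 (by decide +kernel)
def w9100 : PV o9100 := fun P h => h.p 7 1 15 23 (by decide +kernel)
def w9101 : PV o9101 := fun P h => h.p 7 1 13 23 (by decide +kernel)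
def w9102 : PV o9102 := fun P h => h.p 7 1 5 23 (by decide +kernel)
def w9103 : PV o9103 := fun P h => h.p 7 3 15 23 (by decide +kernel)
def w9104 : PV o9104 := fun P h => h.p 7 3 13 23 (by decide +kernel)
def w9105 : PV o9105 := fun P h => h.p 7 3 5 23 (by decide +kernel)
def w9106 : PV o9106 := fun P h => h.p 7 6 5 23 (by decide +kernel)
def w9107 : PV o9107 := fun P h => h.d 7 23 (by decide +kernel)
def w9108 : PV o9108 := fun P h => h.u 7 23 (by decide +kernel)
def w9109 : PV o9109 := fun P h => h.p 7 1 15 24 (by decide +kernel)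
def w9110 : PV o9110 := fun P h => h.p 7 1 0 24 (by decide +kernel)
def w9111 : PV o9111 := fun P h => h.p 7 3 13 24 (by decide +kernel)
def w9112 : PV o9112 := fun P h => h.p 7 3 12 24 (by decide +kernel)
def w9113 : PV o9113 := fun P h => h.p 7 3 5 24 (by decide +kernel)
def w9114 : PV o9114 := fun P h => h.p 7 3 4 24 (by decide +kernel)
def w9115 : PV o9115 := fun P h => h.p 7 3 0 24 (by decide +kernel)
def w9116 : PV o9116 := fun P h => h.p 7 6 4 24 (by decide +kernel)
def w9117 : PV o9117 := fun P h => h.p 7 6 0 24 (by decide +kernel)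
def w9118 : PV o9118 := fun P h => h.p 7 7 12 24 (by decide +kernel)
def w9119 : PV o9119 := fun P h => h.p 7 7 4 24 (by decide +kernel)
def w9120 : PV o9120 := fun P h => h.p 7 7 0 24 (by decide +kernel)
def w9121 : PV o9121 := fun P h => h.d 7 24 (by decide +kernel)
def w9122 : PV o9122 := fun P h => h.u 7 24 (by decide +kernel)
def w9123 : PV o9123 := fun P h => h.p 7 0 0 25 (by decide +kernel)
def w9124 : PV o9124 := fun P h => h.p 7 1 15 25 (by decide +kernel)
def w9125 : PV o9125 := fun P h => h.p 7 1 13 25 (by decide +kernel)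
def w9126 : PV o9126 := fun P h => h.p 7 1 5 25 (by decide +kernel)
def w9127 : PV o9127 := fun P h => h.p 7 3 15 25 (by decide +kernel)
def w9128 : PV o9128 := fun P h => h.p 7 3 13 25 (by decide +kernel)
def w9129 : PV o9129 := fun P h => h.p 7 3 12 25 (by decide +kernel)
def w9130 : PV o9130 := fun P h => h.p 7 3 5 25 (by decide +kernel)
def w9131 : PV o9131 := fun P h => h.p 7 7 12 25 (by decide +kernel)
def w9132 : PV o9132 := fun P h => h.u 7 25 (by decide +kernel)
def w9133 : PV o9133 := fun P h => h.p 7 3 12 26 (by decide +kernel)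
def w9134 : PV o9134 := fun P h => h.p 7 7 12 26 (by decide +kernel)
def w9135 : PV o9135 := fun P h => h.d 7 26 (by decide +kernel)
def w9136 : PV o9136 := fun P h => h.u 7 26 (by decide +kernel)
def w9137 : PV o9137 := fun P h => h.p 7 1 15 27 (by decide +kernel)
def w9138 : PV o9138 := fun P h => h.p 7 1 13 27 (by decide +kernel)
def w9139 : PV o9139 := fun P h => h.p 7 1 5 27 (by decide +kernel)
def w9140 : PV o9140 := fun P h => h.p 7 3 15 27 (by decide +kernel)
def w9141 : PV o9141 := fun P h => h.p 7 3 13 27 (by decide +kernel)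
def w9142 : PV o9142 := fun P h => h.p 7 3 12 27 (by decide +kernel)
def w9143 : PV o9143 := fun P h => h.p 7 3 4 27 (by decide +kernel)
def w9144 : PV o9144 := fun P h => h.p 7 4 12 27 (by decide +kernel)
def w9145 : PV o9145 := fun P h => h.p 7 6 12 27 (by decide +kernel)
def w9146 : PV o9146 := fun P h => h.d 7 27 (by decide +kernel)
def w9147 : PV o9147 := fun P h => h.u 7 27 (by decide +kernel)
def w9148 : PV o9148 := fun P h => h.p 7 0 0 28 (by decide +kernel)
def w9149 : PV o9149 := fun P h => h.p 7 2 0 28 (by decide +kernel)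
def w9150 : PV o9150 := fun P h => h.p 7 3 5 28 (by decide +kernel)
def w9151 : PV o9151 := fun P h => h.p 7 4 0 28 (by decide +kernel)
def w9152 : PV o9152 := fun P h => h.p 7 6 12 28 (by decide +kernel)
def w9153 : PV o9153 := fun P h => h.u 7 28 (by decide +kernel)
def w9154 : PV o9154 := fun P h => h.p 7 1 15 29 (by decide +kernel)
def w9155 : PV o9155 := fun P h => h.p 7 3 15 29 (by decide +kernel)
def w9156 : PV o9156 := fun P h => h.p 7 3 13 29 (by decide +kernel)
def w9157 : PV o9157 := fun P h => h.p 7 3 12 29 (by decide +kernel)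
def w9158 : PV o9158 := fun P h => h.p 7 4 13 29 (by decide +kernel)
def w9159 : PV o9159 := fun P h => h.p 7 4 12 29 (by decide +kernel)
def w9160 : PV o9160 := fun P h => h.p 7 4 5 29 (by decide +kernel)
def w9161 : PV o9161 := fun P h => h.p 7 5 15 29 (by decide +kernel)
def w9162 : PV o9162 := fun P h => h.p 7 6 15 29 (by decide +kernel)
def w9163 : PV o9163 := fun P h => h.p 7 6 12 29 (by decide +kernel)
def w9164 : PV o9164 := fun P h => h.p 7 7 12 29 (by decide +kernel)
def w9165 : PV o9165 := fun P h => h.p 7 7 5 29 (by decide +kernel)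
def w9166 : PV o9166 := fun P h => h.d 7 29 (by decide +kernel)
def w9167 : PV o9167 := fun P h => h.u 7 29 (by decide +kernel)
def w9168 : PV o9168 := fun P h => h.p 7 3 15 30 (by decide +kernel)
def w9169 : PV o9169 := fun P h => h.p 7 3 13 30 (by decide +kernel)
def w9170 : PV o9170 := fun P h => h.p 7 3 12 30 (by decide +kernel)
def w9171 : PV o9171 := fun P h => h.p 7 3 5 30 (by decide +kernel)
def w9172 : PV o9172 := fun P h => h.p 7 3 4 30 (by decide +kernel)
def w9173 : PV o9173 := fun P h => h.p 7 6 12 30 (by decide +kernel)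
def w9174 : PV o9174 := fun P h => h.p 7 6 5 30 (by decide +kernel)
def w9175 : PV o9175 := fun P h => h.p 7 6 0 30 (by decide +kernel)
def w9176 : PV o9176 := fun P h => h.p 7 7 5 30 (by decide +kernel)
def w9177 : PV o9177 := fun P h => h.d 7 30 (by decide +kernel)
def w9178 : PV o9178 := fun P h => h.u 7 30 (by decide +kernel)
def w9179 : PV o9179 := fun P h => h.k9179
def w9180 : PV o9180 := fun P h => h.k9180
def w9181 : PV o9181 := fun P h => h.k9181
def w9182 : PV o9182 := fun P h => h.k9182
def w9183 : PV o9183 := fun P h => h.k9183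
def w9184 : PV o9184 := fun P h => h.k9184
def w9185 : PV o9185 := fun P h => h.k9185
def w9186 : PV o9186 := fun P h => h.k9186
def w9187 : PV o9187 := fun P h => h.k9187
def w9188 : PV o9188 := fun P h => h.k9188
def w9189 : PV o9189 := fun P h => h.k9189
def w9190 : PV o9190 := fun P h => h.k9190

end Pool.Agent.BDD.A
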