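import Pool.Agent.BDD.AC
import Pool.Agent.BDD.AE0
import Pool.Agent.BDD.AE1
import Pool.Agent.BDD.AE2
import Pool.Agent.BDD.AD0

set_option autoImplicit false
set_option linter.all false

namespace Pool.Agent.BDD.A

theorem r0 : PImp [o9179, o394] l0 := rupP (by decide +kernel)
theorem r1 : PImp [o9180, o1197] l1 := rupP (by decide +kernel)
theorem r2 : PImp [o9181, o2018] l2 := rupP (by decide +kernel)
theorem r3 : PImp [o9182, o3291] l3 := rupP (by decide +kernel)
theorem r4 : PImp [o9183, o5108] l4 := rupP (by decide +kernel)
theorem r5 : PImp [o9183, o9179, o9180, o9181, o9182, o7029] l5 := rupP (by decide +kernel)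
theorem r6 : PImp [o9183, o9179, o9180, o9181, o9182, o7395] l6 := rupP (by decide +kernel)
theorem r7 : PImp [o1832, o9188] l7 := rupP (by decide +kernel)
theorem r8 : PImp [o9181, o9189, o1831] l8 := rupP (by decide +kernel)
theorem r9 : PImp [l8, l7] l9 := rupP (by decide +kernel)
theorem r10 : PImp [l8, o9188] l10 := rupP (by decide +kernel)
theorem r11 : PImp [l10, o9181, o1827] l11 := rupP (by decide +kernel)
theorem r12 : PImp [l10, o9181, o1828] l12 := rupP (by decide +kernel)
theorem r13 : PImp [l10, o9181, o1829] l13 := rupP (by decide +kernel)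
theorem r14 : PImp [l10, l2, o1830] l14 := rupP (by decide +kernel)
theorem r15 : PImp [l10, l8, o1774] l15 := rupP (by decide +kernel)
theorem r16 : PImp [l10, l8, o1775] l16 := rupP (by decide +kernel)
theorem r17 : PImp [l10, l8, o1776] l17 := rupP (by decide +kernel)
theorem r18 : PImp [l6, o7688, o8307] l18 := rupP (by decide +kernel)
theorem r19 : PImp [l5, o7672, o8291] l19 := rupP (by decide +kernel)
theorem r20 : PImp [o8969, o8947] l20 := rupP (by decide +kernel)
theorem r21 : PImp [l5, o7671, o9161] l21 := rupP (by decide +kernel)
theorem r22 : PImp [l5, o7668, o8845] l22 := rupP (by decide +kernel)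
theorem r23 : PImp [o8717, o8698] l23 := rupP (by decide +kernel)
theorem r24 : PImp [o8510, o8468] l24 := rupP (by decide +kernel)
theorem r25 : PImp [o7866, o7822] l25 := rupP (by decide +kernel)
theorem r26 : PImp [o7997, o8040] l26 := rupP (by decide +kernel)
theorem r27 : PImp [l6, o8307, o7711] l27 := rupP (by decide +kernel)
theorem r28 : PImp [l5, o7669, o8812] l28 := rupP (by decide +kernel)
theorem r29 : PImp [o2239, o2254] l29 := rupP (by decide +kernel)
theorem r30 : PImp [o2241, o2251] l30 := rupP (by decide +kernel)
theorem r31 : PImp [l29, l30, o2247, o2248] l31 := rupP (by decide +kernel)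
theorem r32 : PImp [o3660, o3657] l32 := rupP (by decide +kernel)
theorem r33 : PImp [o8625, o8681] l33 := rupP (by decide +kernel)
theorem r34 : PImp [l5, o8311, o8351] l34 := rupP (by decide +kernel)
theorem r35 : PImp [l34, o8324, o8376] l35 := rupP (by decide +kernel)
theorem r36 : PImp [o8400, o8420] l36 := rupP (by decide +kernel)
theorem r37 : PImp [o8442, o8182] l37 := rupP (by decide +kernel)
theorem r38 : PImp [o8397, o8417] l38 := rupP (by decide +kernel)
theorem r39 : PImp [o1550, o1558] l39 := rupP (by decide +kernel)
theorem r40 : PImp [l37, o8205, o8231] l40 := rupP (by decide +kernel)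
theorem r41 : PImp [l5, o7996, o7668] l41 := rupP (by decide +kernel)
theorem r42 : PImp [o8018, o8539] l42 := rupP (by decide +kernel)
theorem r43 : PImp [l5, o7750, o7670] l43 := rupP (by decide +kernel)
theorem r44 : PImp [o8066, o7731] l44 := rupP (by decide +kernel)
theorem r45 : PImp [o1446, o1444] l45 := rupP (by decide +kernel)
theorem r46 : PImp [o7607, o7614] l46 := rupP (by decide +kernel)
theorem r47 : PImp [l5, o7400, o7404] l47 := rupP (by decide +kernel)
theorem r48 : PImp [o7459, o7482] l48 := rupP (by decide +kernel)
theorem r49 : PImp [l48, o7466, o7495] l49 := rupP (by decide +kernel)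
theorem r50 : PImp [o7686, o8571] l50 := rupP (by decide +kernel)
theorem r51 : PImp [o7725, o7805] l51 := rupP (by decide +kernel)
theorem r52 : PImp [l5, o7417, o7400] l52 := rupP (by decide +kernel)
theorem r53 : PImp [l5, o7399, o7458] l53 := rupP (by decide +kernel)
theorem r54 : PImp [o7984, o7963] l54 := rupP (by decide +kernel)
theorem r55 : PImp [o8205, o8288] l55 := rupP (by decide +kernel)
theorem r56 : PImp [l6, l55, o8303, o8391] l56 := rupP (by decide +kernel)
theorem r57 : PImp [o8539, o8148] l57 := rupP (by decide +kernel)
theorem r58 : PImp [o7769, o7748] l58 := rupP (by decide +kernel)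
theorem r59 : PImp [l6, o8302, o8392] l59 := rupP (by decide +kernel)
theorem r60 : PImp [o9179, o190] l60 := rupP (by decide +kernel)
theorem r61 : PImp [o9179, o192] l61 := rupP (by decide +kernel)
theorem r62 : PImp [l0, o193] l62 := rupP (by decide +kernel)
theorem r63 : PImp [o9179, o194] l63 := rupP (by decide +kernel)
theorem r64 : PImp [o9179, o195] l64 := rupP (by decide +kernel)
theorem r65 : PImp [o9179, o395] l65 := rupP (by decide +kernel)
theorem r66 : PImp [o9179, o396] l66 := rupP (by decide +kernel)
theorem r67 : PImp [o9179, o397] l67 := rupP (by decide +kernel)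
theorem r68 : PImp [o9179, o398] l68 := rupP (by decide +kernel)
theorem r69 : PImp [o9179, o399] l69 := rupP (by decide +kernel)
theorem r70 : PImp [l0, o400] l70 := rupP (by decide +kernel)
theorem r71 : PImp [o9179, o401] l71 := rupP (by decide +kernel)
theorem r72 : PImp [o9179, o402] l72 := rupP (by decide +kernel)
theorem r73 : PImp [o9179, o403] l73 := rupP (by decide +kernel)
theorem r74 : PImp [o9179, o404] l74 := rupP (by decide +kernel)
theorem r75 : PImp [l0, o407] l75 := rupP (by decide +kernel)
theorem r76 : PImp [o9179, o413] l76 := rupP (by decide +kernel)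
theorem r77 : PImp [o9179, o414] l77 := rupP (by decide +kernel)
theorem r78 : PImp [l0, o415] l78 := rupP (by decide +kernel)
theorem r79 : PImp [o9179, o416] l79 := rupP (by decide +kernel)
theorem r80 : PImp [o9179, o418] l80 := rupP (by decide +kernel)
theorem r81 : PImp [l0, o419] l81 := rupP (by decide +kernel)
theorem r82 : PImp [o9179, o422] l82 := rupP (by decide +kernel)
theorem r83 : PImp [o9179, o423] l83 := rupP (by decide +kernel)
theorem r84 : PImp [o9179, o424] l84 := rupP (by decide +kernel)
theorem r85 : PImp [o9179, o425] l85 := rupP (by decide +kernel)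
theorem r86 : PImp [l0, o426] l86 := rupP (by decide +kernel)
theorem r87 : PImp [o9179, o427] l87 := rupP (by decide +kernel)
theorem r88 : PImp [l0, o428] l88 := rupP (by decide +kernel)
theorem r89 : PImp [o9179, o431] l89 := rupP (by decide +kernel)
theorem r90 : PImp [o9179, o432] l90 := rupP (by decide +kernel)
theorem r91 : PImp [o9179, o435] l91 := rupP (by decide +kernel)
theorem r92 : PImp [o9179, o436] l92 := rupP (by decide +kernel)
theorem r93 : PImp [o9179, o437] l93 := rupP (by decide +kernel)
theorem r94 : PImp [o9179, o438] l94 := rupP (by decide +kernel)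
theorem r95 : PImp [o9180, o1009] l95 := rupP (by decide +kernel)
theorem r96 : PImp [o9180, o1010] l96 := rupP (by decide +kernel)
theorem r97 : PImp [o9180, o1011] l97 := rupP (by decide +kernel)
theorem r98 : PImp [o9180, o1013] l98 := rupP (by decide +kernel)
theorem r99 : PImp [o9180, o1014] l99 := rupP (by decide +kernel)
theorem r100 : PImp [o9180, o1198] l100 := rupP (by decide +kernel)
theorem r101 : PImp [o9180, o1199] l101 := rupP (by decide +kernel)
theorem r102 : PImp [o9180, o1200] l102 := rupP (by decide +kernel)
theorem r103 : PImp [o9180, o1201] l103 := rupP (by decide +kernel)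
theorem r104 : PImp [o9180, o1202] l104 := rupP (by decide +kernel)
theorem r105 : PImp [o9180, o1203] l105 := rupP (by decide +kernel)
theorem r106 : PImp [o9180, o1204] l106 := rupP (by decide +kernel)
theorem r107 : PImp [o9180, o1205] l107 := rupP (by decide +kernel)
theorem r108 : PImp [o9180, o1206] l108 := rupP (by decide +kernel)
theorem r109 : PImp [o9180, o1211] l109 := rupP (by decide +kernel)
theorem r110 : PImp [o9180, o1213] l110 := rupP (by decide +kernel)
theorem r111 : PImp [o9180, o1214] l111 := rupP (by decide +kernel)
theorem r112 : PImp [l1, o1215] l112 := rupP (by decide +kernel)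
theorem r113 : PImp [o9180, o1216] l113 := rupP (by decide +kernel)
theorem r114 : PImp [l1, o1217] l114 := rupP (by decide +kernel)
theorem r115 : PImp [o9180, o1218] l115 := rupP (by decide +kernel)
theorem r116 : PImp [o9180, o1219] l116 := rupP (by decide +kernel)
theorem r117 : PImp [l1, o1220] l117 := rupP (by decide +kernel)
theorem r118 : PImp [l17, o1617] l118 := rupP (by decide +kernel)
theorem r119 : PImp [l17, o1618] l119 := rupP (by decide +kernel)
theorem r120 : PImp [l17, o1619] l120 := rupP (by decide +kernel)
theorem r121 : PImp [l15, o1620] l121 := rupP (by decide +kernel)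
theorem r122 : PImp [l16, o1621] l122 := rupP (by decide +kernel)
theorem r123 : PImp [l17, o1622] l123 := rupP (by decide +kernel)
theorem r124 : PImp [l17, o1623] l124 := rupP (by decide +kernel)
theorem r125 : PImp [l16, o1624] l125 := rupP (by decide +kernel)
theorem r126 : PImp [l15, o1625] l126 := rupP (by decide +kernel)
theorem r127 : PImp [l17, o1626] l127 := rupP (by decide +kernel)
theorem r128 : PImp [l15, o1627] l128 := rupP (by decide +kernel)
theorem r129 : PImp [l10, o1630] l129 := rupP (by decide +kernel)
theorem r130 : PImp [l10, o1631] l130 := rupP (by decide +kernel)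
theorem r131 : PImp [l10, o1632] l131 := rupP (by decide +kernel)
theorem r132 : PImp [l10, o1633] l132 := rupP (by decide +kernel)
theorem r133 : PImp [l14, o1634] l133 := rupP (by decide +kernel)
theorem r134 : PImp [l10, o1635] l134 := rupP (by decide +kernel)
theorem r135 : PImp [l14, o1636] l135 := rupP (by decide +kernel)
theorem r136 : PImp [l13, o1637] l136 := rupP (by decide +kernel)
theorem r137 : PImp [l10, o1638] l137 := rupP (by decide +kernel)
theorem r138 : PImp [l8, o1672] l138 := rupP (by decide +kernel)
theorem r139 : PImp [l8, o1673] l139 := rupP (by decide +kernel)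
theorem r140 : PImp [l8, o1674] l140 := rupP (by decide +kernel)
theorem r141 : PImp [l8, o1675] l141 := rupP (by decide +kernel)
theorem r142 : PImp [l8, o1676] l142 := rupP (by decide +kernel)
theorem r143 : PImp [l8, o1677] l143 := rupP (by decide +kernel)
theorem r144 : PImp [l17, o1769] l144 := rupP (by decide +kernel)
theorem r145 : PImp [l15, o1770] l145 := rupP (by decide +kernel)
theorem r146 : PImp [l15, o1771] l146 := rupP (by decide +kernel)
theorem r147 : PImp [l17, o1772] l147 := rupP (by decide +kernel)
theorem r148 : PImp [l15, o1773] l148 := rupP (by decide +kernel)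
theorem r149 : PImp [l17, o1777] l149 := rupP (by decide +kernel)
theorem r150 : PImp [l17, o1778] l150 := rupP (by decide +kernel)
theorem r151 : PImp [l15, o1779] l151 := rupP (by decide +kernel)
theorem r152 : PImp [l15, o1780] l152 := rupP (by decide +kernel)
theorem r153 : PImp [l17, o1781] l153 := rupP (by decide +kernel)
theorem r154 : PImp [l15, o1782] l154 := rupP (by decide +kernel)
theorem r155 : PImp [l17, o1783] l155 := rupP (by decide +kernel)
theorem r156 : PImp [l17, o1784] l156 := rupP (by decide +kernel)
theorem r157 : PImp [l15, o1785] l157 := rupP (by decide +kernel)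
theorem r158 : PImp [l15, o1786] l158 := rupP (by decide +kernel)
theorem r159 : PImp [l17, o1787] l159 := rupP (by decide +kernel)
theorem r160 : PImp [l15, o1788] l160 := rupP (by decide +kernel)
theorem r161 : PImp [l17, o1789] l161 := rupP (by decide +kernel)
theorem r162 : PImp [l17, o1790] l162 := rupP (by decide +kernel)
theorem r163 : PImp [l15, o1791] l163 := rupP (by decide +kernel)
theorem r164 : PImp [l15, o1792] l164 := rupP (by decide +kernel)
theorem r165 : PImp [l17, o1793] l165 := rupP (by decide +kernel)
theorem r166 : PImp [l15, o1794] l166 := rupP (by decide +kernel)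
theorem r167 : PImp [l17, o1795] l167 := rupP (by decide +kernel)
theorem r168 : PImp [l17, o1796] l168 := rupP (by decide +kernel)
theorem r169 : PImp [l17, o1797] l169 := rupP (by decide +kernel)
theorem r170 : PImp [l17, o1798] l170 := rupP (by decide +kernel)
theorem r171 : PImp [l17, o1799] l171 := rupP (by decide +kernel)
theorem r172 : PImp [l16, o1800] l172 := rupP (by decide +kernel)
theorem r173 : PImp [l17, o1801] l173 := rupP (by decide +kernel)
theorem r174 : PImp [l15, o1802] l174 := rupP (by decide +kernel)
theorem r175 : PImp [l15, o1803] l175 := rupP (by decide +kernel)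
theorem r176 : PImp [l15, o1804] l176 := rupP (by decide +kernel)
theorem r177 : PImp [l17, o1805] l177 := rupP (by decide +kernel)
theorem r178 : PImp [l15, o1806] l178 := rupP (by decide +kernel)
theorem r179 : PImp [l8, o1809] l179 := rupP (by decide +kernel)
theorem r180 : PImp [l8, o1810] l180 := rupP (by decide +kernel)
theorem r181 : PImp [l8, o1811] l181 := rupP (by decide +kernel)
theorem r182 : PImp [l8, o1812] l182 := rupP (by decide +kernel)
theorem r183 : PImp [l8, o1813] l183 := rupP (by decide +kernel)
theorem r184 : PImp [l8, o1814] l184 := rupP (by decide +kernel)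
theorem r185 : PImp [l11, o1818] l185 := rupP (by decide +kernel)
theorem r186 : PImp [l14, o1819] l186 := rupP (by decide +kernel)
theorem r187 : PImp [l14, o1820] l187 := rupP (by decide +kernel)
theorem r188 : PImp [l11, o1821] l188 := rupP (by decide +kernel)
theorem r189 : PImp [l14, o1822] l189 := rupP (by decide +kernel)
theorem r190 : PImp [l14, o1823] l190 := rupP (by decide +kernel)
theorem r191 : PImp [l11, o1824] l191 := rupP (by decide +kernel)
theorem r192 : PImp [l14, o1825] l192 := rupP (by decide +kernel)
theorem r193 : PImp [l14, o1826] l193 := rupP (by decide +kernel)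
theorem r194 : PImp [l11, o1833] l194 := rupP (by decide +kernel)
theorem r195 : PImp [l14, o1834] l195 := rupP (by decide +kernel)
theorem r196 : PImp [l14, o1835] l196 := rupP (by decide +kernel)
theorem r197 : PImp [l11, o1836] l197 := rupP (by decide +kernel)
theorem r198 : PImp [l10, o1837] l198 := rupP (by decide +kernel)
theorem r199 : PImp [l10, o1838] l199 := rupP (by decide +kernel)
theorem r200 : PImp [l14, o1839] l200 := rupP (by decide +kernel)
theorem r201 : PImp [l14, o1840] l201 := rupP (by decide +kernel)
theorem r202 : PImp [l11, o1841] l202 := rupP (by decide +kernel)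
theorem r203 : PImp [l10, o1842] l203 := rupP (by decide +kernel)
theorem r204 : PImp [l14, o1843] l204 := rupP (by decide +kernel)
theorem r205 : PImp [l14, o1844] l205 := rupP (by decide +kernel)
theorem r206 : PImp [l11, o1845] l206 := rupP (by decide +kernel)
theorem r207 : PImp [l11, o1846] l207 := rupP (by decide +kernel)
theorem r208 : PImp [l11, o1847] l208 := rupP (by decide +kernel)
theorem r209 : PImp [l11, o1848] l209 := rupP (by decide +kernel)
theorem r210 : PImp [l14, o1849] l210 := rupP (by decide +kernel)
theorem r211 : PImp [l14, o1850] l211 := rupP (by decide +kernel)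
theorem r212 : PImp [l11, o1851] l212 := rupP (by decide +kernel)
theorem r213 : PImp [l10, o1852] l213 := rupP (by decide +kernel)
theorem r214 : PImp [l14, o1853] l214 := rupP (by decide +kernel)
theorem r215 : PImp [l14, o1854] l215 := rupP (by decide +kernel)
theorem r216 : PImp [l11, o1855] l216 := rupP (by decide +kernel)
theorem r217 : PImp [l10, o1856] l217 := rupP (by decide +kernel)
theorem r218 : PImp [l14, o1857] l218 := rupP (by decide +kernel)
theorem r219 : PImp [l14, o1858] l219 := rupP (by decide +kernel)
theorem r220 : PImp [l11, o1859] l220 := rupP (by decide +kernel)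
theorem r221 : PImp [l11, o1860] l221 := rupP (by decide +kernel)
theorem r222 : PImp [l11, o1861] l222 := rupP (by decide +kernel)
theorem r223 : PImp [l14, o1862] l223 := rupP (by decide +kernel)
theorem r224 : PImp [l14, o1863] l224 := rupP (by decide +kernel)
theorem r225 : PImp [l11, o1864] l225 := rupP (by decide +kernel)
theorem r226 : PImp [l14, o1865] l226 := rupP (by decide +kernel)
theorem r227 : PImp [l14, o1866] l227 := rupP (by decide +kernel)
theorem r228 : PImp [l11, o1867] l228 := rupP (by decide +kernel)
theorem r229 : PImp [l14, o1868] l229 := rupP (by decide +kernel)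
theorem r230 : PImp [l14, o1869] l230 := rupP (by decide +kernel)
theorem r231 : PImp [l10, o1870] l231 := rupP (by decide +kernel)
theorem r232 : PImp [l11, o1871] l232 := rupP (by decide +kernel)
theorem r233 : PImp [l11, o1872] l233 := rupP (by decide +kernel)
theorem r234 : PImp [l11, o1873] l234 := rupP (by decide +kernel)
theorem r235 : PImp [l11, o1874] l235 := rupP (by decide +kernel)
theorem r236 : PImp [l12, o1875] l236 := rupP (by decide +kernel)
theorem r237 : PImp [l13, o1876] l237 := rupP (by decide +kernel)
theorem r238 : PImp [l14, o1877] l238 := rupP (by decide +kernel)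
theorem r239 : PImp [l14, o1878] l239 := rupP (by decide +kernel)
theorem r240 : PImp [l11, o1879] l240 := rupP (by decide +kernel)
theorem r241 : PImp [l10, o1880] l241 := rupP (by decide +kernel)
theorem r242 : PImp [l14, o1881] l242 := rupP (by decide +kernel)
theorem r243 : PImp [l14, o1882] l243 := rupP (by decide +kernel)
theorem r244 : PImp [l11, o1883] l244 := rupP (by decide +kernel)
theorem r245 : PImp [l10, o1884] l245 := rupP (by decide +kernel)
theorem r246 : PImp [l10, o1885] l246 := rupP (by decide +kernel)
theorem r247 : PImp [l14, o1886] l247 := rupP (by decide +kernel)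
theorem r248 : PImp [l14, o1887] l248 := rupP (by decide +kernel)
theorem r249 : PImp [l10, o1888] l249 := rupP (by decide +kernel)
theorem r250 : PImp [l10, o1889] l250 := rupP (by decide +kernel)
theorem r251 : PImp [l11, o1890] l251 := rupP (by decide +kernel)
theorem r252 : PImp [l8, o1891] l252 := rupP (by decide +kernel)
theorem r253 : PImp [l8, o1892] l253 := rupP (by decide +kernel)
theorem r254 : PImp [l8, o1893] l254 := rupP (by decide +kernel)
theorem r255 : PImp [l8, o1894] l255 := rupP (by decide +kernel)
theorem r256 : PImp [l8, o1895] l256 := rupP (by decide +kernel)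
theorem r257 : PImp [l8, o1896] l257 := rupP (by decide +kernel)
theorem r258 : PImp [l8, o1897] l258 := rupP (by decide +kernel)
theorem r259 : PImp [l8, o1901] l259 := rupP (by decide +kernel)
theorem r260 : PImp [l8, o1902] l260 := rupP (by decide +kernel)
theorem r261 : PImp [l8, o1903] l261 := rupP (by decide +kernel)
theorem r262 : PImp [l8, o1904] l262 := rupP (by decide +kernel)
theorem r263 : PImp [l8, o1905] l263 := rupP (by decide +kernel)
theorem r264 : PImp [l8, o1906] l264 := rupP (by decide +kernel)
theorem r265 : PImp [l8, o1915] l265 := rupP (by decide +kernel)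
theorem r266 : PImp [l8, o1916] l266 := rupP (by decide +kernel)
theorem r267 : PImp [l8, o1917] l267 := rupP (by decide +kernel)
theorem r268 : PImp [l8, o1918] l268 := rupP (by decide +kernel)
theorem r269 : PImp [l8, o1919] l269 := rupP (by decide +kernel)
theorem r270 : PImp [l8, o1920] l270 := rupP (by decide +kernel)
theorem r271 : PImp [l8, o1944] l271 := rupP (by decide +kernel)
theorem r272 : PImp [l8, o1945] l272 := rupP (by decide +kernel)
theorem r273 : PImp [l8, o1946] l273 := rupP (by decide +kernel)
theorem r274 : PImp [l8, o1947] l274 := rupP (by decide +kernel)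
theorem r275 : PImp [l8, o1948] l275 := rupP (by decide +kernel)
theorem r276 : PImp [l8, o1949] l276 := rupP (by decide +kernel)
theorem r277 : PImp [l8, o1950] l277 := rupP (by decide +kernel)
theorem r278 : PImp [l8, o1951] l278 := rupP (by decide +kernel)
theorem r279 : PImp [l8, o1952] l279 := rupP (by decide +kernel)
theorem r280 : PImp [l8, o2015] l280 := rupP (by decide +kernel)
theorem r281 : PImp [o9181, o2019] l281 := rupP (by decide +kernel)
theorem r282 : PImp [o9181, o2020] l282 := rupP (by decide +kernel)
theorem r283 : PImp [o9181, o2021] l283 := rupP (by decide +kernel)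
theorem r284 : PImp [o9181, o2022] l284 := rupP (by decide +kernel)
theorem r285 : PImp [o9181, o2023] l285 := rupP (by decide +kernel)
theorem r286 : PImp [o9181, o2024] l286 := rupP (by decide +kernel)
theorem r287 : PImp [o9181, o2025] l287 := rupP (by decide +kernel)
theorem r288 : PImp [o9181, o2026] l288 := rupP (by decide +kernel)
theorem r289 : PImp [o9181, o2027] l289 := rupP (by decide +kernel)
theorem r290 : PImp [l9, o2028] l290 := rupP (by decide +kernel)
theorem r291 : PImp [l9, o2029] l291 := rupP (by decide +kernel)
theorem r292 : PImp [l9, o2030] l292 := rupP (by decide +kernel)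
theorem r293 : PImp [l9, o2031] l293 := rupP (by decide +kernel)
theorem r294 : PImp [o9181, o2032] l294 := rupP (by decide +kernel)
theorem r295 : PImp [l2, o2033] l295 := rupP (by decide +kernel)
theorem r296 : PImp [o9181, o2034] l296 := rupP (by decide +kernel)
theorem r297 : PImp [o9181, o2035] l297 := rupP (by decide +kernel)
theorem r298 : PImp [o9181, o2036] l298 := rupP (by decide +kernel)
theorem r299 : PImp [o9181, o2037] l299 := rupP (by decide +kernel)
theorem r300 : PImp [l2, o2038] l300 := rupP (by decide +kernel)
theorem r301 : PImp [o9181, o2039] l301 := rupP (by decide +kernel)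
theorem r302 : PImp [o9181, o2040] l302 := rupP (by decide +kernel)
theorem r303 : PImp [l9, o2041] l303 := rupP (by decide +kernel)
theorem r304 : PImp [l9, o2042] l304 := rupP (by decide +kernel)
theorem r305 : PImp [l9, o2043] l305 := rupP (by decide +kernel)
theorem r306 : PImp [o9181, o2044] l306 := rupP (by decide +kernel)
theorem r307 : PImp [o9181, o2045] l307 := rupP (by decide +kernel)
theorem r308 : PImp [o9181, o2046] l308 := rupP (by decide +kernel)
theorem r309 : PImp [l2, o2047] l309 := rupP (by decide +kernel)
theorem r310 : PImp [o9181, o2048] l310 := rupP (by decide +kernel)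
theorem r311 : PImp [l2, o2049] l311 := rupP (by decide +kernel)
theorem r312 : PImp [o9181, o2050] l312 := rupP (by decide +kernel)
theorem r313 : PImp [l9, o2051] l313 := rupP (by decide +kernel)
theorem r314 : PImp [l9, o2052] l314 := rupP (by decide +kernel)
theorem r315 : PImp [l9, o2053] l315 := rupP (by decide +kernel)
theorem r316 : PImp [o9190, o2607] l316 := rupP (by decide +kernel)
theorem r317 : PImp [o9182, o2608] l317 := rupP (by decide +kernel)
theorem r318 : PImp [o9190, o2609] l318 := rupP (by decide +kernel)
theorem r319 : PImp [o9190, o2610] l319 := rupP (by decide +kernel)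
theorem r320 : PImp [o9190, o2611] l320 := rupP (by decide +kernel)
theorem r321 : PImp [l3, o2612] l321 := rupP (by decide +kernel)
theorem r322 : PImp [o9190, o2613] l322 := rupP (by decide +kernel)
theorem r323 : PImp [o9182, o2614] l323 := rupP (by decide +kernel)
theorem r324 : PImp [o9190, o2615] l324 := rupP (by decide +kernel)
theorem r325 : PImp [o9190, o2819] l325 := rupP (by decide +kernel)
theorem r326 : PImp [o9182, o2820] l326 := rupP (by decide +kernel)
theorem r327 : PImp [o9190, o2821] l327 := rupP (by decide +kernel)
theorem r328 : PImp [o9190, o2822] l328 := rupP (by decide +kernel)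
theorem r329 : PImp [l3, o2823] l329 := rupP (by decide +kernel)
theorem r330 : PImp [o9190, o2824] l330 := rupP (by decide +kernel)
theorem r331 : PImp [o9182, o2825] l331 := rupP (by decide +kernel)
theorem r332 : PImp [o9182, o2826] l332 := rupP (by decide +kernel)
theorem r333 : PImp [l3, o2827] l333 := rupP (by decide +kernel)
theorem r334 : PImp [o9190, o2828] l334 := rupP (by decide +kernel)
theorem r335 : PImp [o9182, o2829] l335 := rupP (by decide +kernel)
theorem r336 : PImp [o9182, o2830] l336 := rupP (by decide +kernel)
theorem r337 : PImp [o9190, o2831] l337 := rupP (by decide +kernel)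
theorem r338 : PImp [o9190, o2832] l338 := rupP (by decide +kernel)
theorem r339 : PImp [o9190, o3244] l339 := rupP (by decide +kernel)
theorem r340 : PImp [o9182, o3245] l340 := rupP (by decide +kernel)
theorem r341 : PImp [o9190, o3246] l341 := rupP (by decide +kernel)
theorem r342 : PImp [o9190, o3247] l342 := rupP (by decide +kernel)
theorem r343 : PImp [o9190, o3248] l343 := rupP (by decide +kernel)
theorem r344 : PImp [l3, o3249] l344 := rupP (by decide +kernel)
theorem r345 : PImp [o9190, o3250] l345 := rupP (by decide +kernel)
theorem r346 : PImp [o9182, o3251] l346 := rupP (by decide +kernel)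
theorem r347 : PImp [o9190, o3252] l347 := rupP (by decide +kernel)
theorem r348 : PImp [o9182, o3292] l348 := rupP (by decide +kernel)
theorem r349 : PImp [o9182, o3293] l349 := rupP (by decide +kernel)
theorem r350 : PImp [o9182, o3294] l350 := rupP (by decide +kernel)
theorem r351 : PImp [o9182, o3295] l351 := rupP (by decide +kernel)
theorem r352 : PImp [o9182, o3296] l352 := rupP (by decide +kernel)
theorem r353 : PImp [l3, o3297] l353 := rupP (by decide +kernel)
theorem r354 : PImp [o9182, o3298] l354 := rupP (by decide +kernel)
theorem r355 : PImp [o9190, o3299] l355 := rupP (by decide +kernel)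
theorem r356 : PImp [l3, o3300] l356 := rupP (by decide +kernel)
theorem r357 : PImp [o9190, o3301] l357 := rupP (by decide +kernel)
theorem r358 : PImp [o9190, o3302] l358 := rupP (by decide +kernel)
theorem r359 : PImp [o9190, o3303] l359 := rupP (by decide +kernel)
theorem r360 : PImp [o9182, o3304] l360 := rupP (by decide +kernel)
theorem r361 : PImp [o9182, o3305] l361 := rupP (by decide +kernel)
theorem r362 : PImp [o9182, o3306] l362 := rupP (by decide +kernel)
theorem r363 : PImp [o9190, o3307] l363 := rupP (by decide +kernel)
theorem r364 : PImp [o9190, o3308] l364 := rupP (by decide +kernel)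
theorem r365 : PImp [o9182, o3309] l365 := rupP (by decide +kernel)
theorem r366 : PImp [o9182, o3310] l366 := rupP (by decide +kernel)
theorem r367 : PImp [o9182, o3311] l367 := rupP (by decide +kernel)
theorem r368 : PImp [l3, o3312] l368 := rupP (by decide +kernel)
theorem r369 : PImp [o9182, o3313] l369 := rupP (by decide +kernel)
theorem r370 : PImp [o9190, o3314] l370 := rupP (by decide +kernel)
theorem r371 : PImp [o9190, o3315] l371 := rupP (by decide +kernel)
theorem r372 : PImp [o9190, o3316] l372 := rupP (by decide +kernel)
theorem r373 : PImp [o9190, o3317] l373 := rupP (by decide +kernel)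
theorem r374 : PImp [o9190, o3318] l374 := rupP (by decide +kernel)
theorem r375 : PImp [o9182, o3319] l375 := rupP (by decide +kernel)
theorem r376 : PImp [o9182, o3320] l376 := rupP (by decide +kernel)
theorem r377 : PImp [o9190, o3321] l377 := rupP (by decide +kernel)
theorem r378 : PImp [o9182, o3322] l378 := rupP (by decide +kernel)
theorem r379 : PImp [o9182, o3323] l379 := rupP (by decide +kernel)
theorem r380 : PImp [o9182, o3324] l380 := rupP (by decide +kernel)
theorem r381 : PImp [l3, o3325] l381 := rupP (by decide +kernel)
theorem r382 : PImp [o9182, o3326] l382 := rupP (by decide +kernel)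
theorem r383 : PImp [o9190, o3327] l383 := rupP (by decide +kernel)
theorem r384 : PImp [o9190, o3328] l384 := rupP (by decide +kernel)
theorem r385 : PImp [l3, o3329] l385 := rupP (by decide +kernel)
theorem r386 : PImp [o9190, o3330] l386 := rupP (by decide +kernel)
theorem r387 : PImp [o9190, o3331] l387 := rupP (by decide +kernel)
theorem r388 : PImp [o9190, o3332] l388 := rupP (by decide +kernel)
theorem r389 : PImp [o9182, o3333] l389 := rupP (by decide +kernel)
theorem r390 : PImp [o9182, o3334] l390 := rupP (by decide +kernel)
theorem r391 : PImp [o9182, o3335] l391 := rupP (by decide +kernel)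
theorem r392 : PImp [o9190, o3336] l392 := rupP (by decide +kernel)
theorem r393 : PImp [o9182, o3337] l393 := rupP (by decide +kernel)
theorem r394 : PImp [o9182, o3338] l394 := rupP (by decide +kernel)
theorem r395 : PImp [o9182, o3339] l395 := rupP (by decide +kernel)
theorem r396 : PImp [o9182, o3340] l396 := rupP (by decide +kernel)
theorem r397 : PImp [l3, o3341] l397 := rupP (by decide +kernel)
theorem r398 : PImp [o9190, o3342] l398 := rupP (by decide +kernel)
theorem r399 : PImp [l3, o3343] l399 := rupP (by decide +kernel)
theorem r400 : PImp [o9190, o3344] l400 := rupP (by decide +kernel)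
theorem r401 : PImp [o9190, o3345] l401 := rupP (by decide +kernel)
theorem r402 : PImp [o9190, o3346] l402 := rupP (by decide +kernel)
theorem r403 : PImp [o9182, o3347] l403 := rupP (by decide +kernel)
theorem r404 : PImp [o9182, o3348] l404 := rupP (by decide +kernel)
theorem r405 : PImp [o9182, o3349] l405 := rupP (by decide +kernel)
theorem r406 : PImp [o9190, o3350] l406 := rupP (by decide +kernel)
theorem r407 : PImp [l4, o4101] l407 := rupP (by decide +kernel)
theorem r408 : PImp [o9183, o4103] l408 := rupP (by decide +kernel)
theorem r409 : PImp [l4, o4104] l409 := rupP (by decide +kernel)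
theorem r410 : PImp [l4, o4106] l410 := rupP (by decide +kernel)
theorem r411 : PImp [o9183, o4107] l411 := rupP (by decide +kernel)
theorem r412 : PImp [l4, o4108] l412 := rupP (by decide +kernel)
theorem r413 : PImp [o9183, o4110] l413 := rupP (by decide +kernel)
theorem r414 : PImp [o9183, o4111] l414 := rupP (by decide +kernel)
theorem r415 : PImp [l4, o4112] l415 := rupP (by decide +kernel)
theorem r416 : PImp [l4, o4114] l416 := rupP (by decide +kernel)
theorem r417 : PImp [l4, o4117] l417 := rupP (by decide +kernel)
theorem r418 : PImp [l4, o4388] l418 := rupP (by decide +kernel)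
theorem r419 : PImp [o9183, o4390] l419 := rupP (by decide +kernel)
theorem r420 : PImp [o9183, o4391] l420 := rupP (by decide +kernel)
theorem r421 : PImp [l4, o4392] l421 := rupP (by decide +kernel)
theorem r422 : PImp [l4, o4394] l422 := rupP (by decide +kernel)
theorem r423 : PImp [o9183, o4396] l423 := rupP (by decide +kernel)
theorem r424 : PImp [l4, o4397] l424 := rupP (by decide +kernel)
theorem r425 : PImp [l4, o4398] l425 := rupP (by decide +kernel)
theorem r426 : PImp [l4, o4400] l426 := rupP (by decide +kernel)
theorem r427 : PImp [o9183, o4402] l427 := rupP (by decide +kernel)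
theorem r428 : PImp [o9183, o4403] l428 := rupP (by decide +kernel)
theorem r429 : PImp [l4, o4404] l429 := rupP (by decide +kernel)
theorem r430 : PImp [o9183, o4406] l430 := rupP (by decide +kernel)
theorem r431 : PImp [o9183, o4407] l431 := rupP (by decide +kernel)
theorem r432 : PImp [l4, o4408] l432 := rupP (by decide +kernel)
theorem r433 : PImp [l4, o4410] l433 := rupP (by decide +kernel)
theorem r434 : PImp [l4, o5023] l434 := rupP (by decide +kernel)
theorem r435 : PImp [l4, o5025] l435 := rupP (by decide +kernel)
theorem r436 : PImp [l4, o5027] l436 := rupP (by decide +kernel)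
theorem r437 : PImp [l4, o5031] l437 := rupP (by decide +kernel)
theorem r438 : PImp [o9183, o5033] l438 := rupP (by decide +kernel)
theorem r439 : PImp [l4, o5034] l439 := rupP (by decide +kernel)
theorem r440 : PImp [o9183, o5036] l440 := rupP (by decide +kernel)
theorem r441 : PImp [l4, o5037] l441 := rupP (by decide +kernel)
theorem r442 : PImp [l4, o5039] l442 := rupP (by decide +kernel)
theorem r443 : PImp [o9183, o5109] l443 := rupP (by decide +kernel)
theorem r444 : PImp [o9183, o5110] l444 := rupP (by decide +kernel)
theorem r445 : PImp [o9183, o5111] l445 := rupP (by decide +kernel)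
theorem r446 : PImp [l4, o5112] l446 := rupP (by decide +kernel)
theorem r447 : PImp [l4, o5113] l447 := rupP (by decide +kernel)
theorem r448 : PImp [o9183, o5114] l448 := rupP (by decide +kernel)
theorem r449 : PImp [o9183, o5115] l449 := rupP (by decide +kernel)
theorem r450 : PImp [o9183, o5116] l450 := rupP (by decide +kernel)
theorem r451 : PImp [l4, o5117] l451 := rupP (by decide +kernel)
theorem r452 : PImp [l4, o5118] l452 := rupP (by decide +kernel)
theorem r453 : PImp [l4, o5119] l453 := rupP (by decide +kernel)
theorem r454 : PImp [o9183, o5120] l454 := rupP (by decide +kernel)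
theorem r455 : PImp [l4, o5122] l455 := rupP (by decide +kernel)
theorem r456 : PImp [l4, o5123] l456 := rupP (by decide +kernel)
theorem r457 : PImp [o9183, o5126] l457 := rupP (by decide +kernel)
theorem r458 : PImp [o9183, o5127] l458 := rupP (by decide +kernel)
theorem r459 : PImp [o9183, o5128] l459 := rupP (by decide +kernel)
theorem r460 : PImp [l4, o5129] l460 := rupP (by decide +kernel)
theorem r461 : PImp [o9183, o5133] l461 := rupP (by decide +kernel)
theorem r462 : PImp [o9183, o5134] l462 := rupP (by decide +kernel)
theorem r463 : PImp [o9183, o5135] l463 := rupP (by decide +kernel)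
theorem r464 : PImp [l4, o5136] l464 := rupP (by decide +kernel)
theorem r465 : PImp [l4, o5137] l465 := rupP (by decide +kernel)
theorem r466 : PImp [l4, o5138] l466 := rupP (by decide +kernel)
theorem r467 : PImp [l4, o5140] l467 := rupP (by decide +kernel)
theorem r468 : PImp [l4, o5143] l468 := rupP (by decide +kernel)
theorem r469 : PImp [o9183, o5145] l469 := rupP (by decide +kernel)
theorem r470 : PImp [o9183, o5146] l470 := rupP (by decide +kernel)
theorem r471 : PImp [o9183, o5147] l471 := rupP (by decide +kernel)
theorem r472 : PImp [l4, o5148] l472 := rupP (by decide +kernel)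
theorem r473 : PImp [l4, o5149] l473 := rupP (by decide +kernel)
theorem r474 : PImp [o9183, o5150] l474 := rupP (by decide +kernel)
theorem r475 : PImp [o9183, o5151] l475 := rupP (by decide +kernel)
theorem r476 : PImp [l4, o5152] l476 := rupP (by decide +kernel)
theorem r477 : PImp [l4, o5153] l477 := rupP (by decide +kernel)
theorem r478 : PImp [l4, o5154] l478 := rupP (by decide +kernel)
theorem r479 : PImp [o9183, o5155] l479 := rupP (by decide +kernel)
theorem r480 : PImp [l4, o5156] l480 := rupP (by decide +kernel)
theorem r481 : PImp [l4, o5157] l481 := rupP (by decide +kernel)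
theorem r482 : PImp [o9183, o5161] l482 := rupP (by decide +kernel)
theorem r483 : PImp [l4, o5162] l483 := rupP (by decide +kernel)
theorem r484 : PImp [o9183, o5163] l484 := rupP (by decide +kernel)
theorem r485 : PImp [l4, o5164] l485 := rupP (by decide +kernel)
theorem r486 : PImp [o9183, o5171] l486 := rupP (by decide +kernel)
theorem r487 : PImp [o9183, o5172] l487 := rupP (by decide +kernel)
theorem r488 : PImp [o9183, o5173] l488 := rupP (by decide +kernel)
theorem r489 : PImp [o9183, o5174] l489 := rupP (by decide +kernel)
theorem r490 : PImp [l4, o5175] l490 := rupP (by decide +kernel)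
theorem r491 : PImp [l4, o5176] l491 := rupP (by decide +kernel)
theorem r492 : PImp [o9183, o5177] l492 := rupP (by decide +kernel)
theorem r493 : PImp [o9183, o5178] l493 := rupP (by decide +kernel)
theorem r494 : PImp [l4, o5179] l494 := rupP (by decide +kernel)
theorem r495 : PImp [l4, o5180] l495 := rupP (by decide +kernel)
theorem r496 : PImp [l4, o5181] l496 := rupP (by decide +kernel)
theorem r497 : PImp [o9183, o5182] l497 := rupP (by decide +kernel)
theorem r498 : PImp [l4, o5184] l498 := rupP (by decide +kernel)
theorem r499 : PImp [l4, o5185] l499 := rupP (by decide +kernel)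
theorem r500 : PImp [o9183, o5189] l500 := rupP (by decide +kernel)
theorem r501 : PImp [l4, o5190] l501 := rupP (by decide +kernel)
theorem r502 : PImp [o9183, o5191] l502 := rupP (by decide +kernel)
theorem r503 : PImp [l4, o5192] l503 := rupP (by decide +kernel)
theorem r504 : PImp [l5, o5844] l504 := rupP (by decide +kernel)
theorem r505 : PImp [l5, o5845] l505 := rupP (by decide +kernel)
theorem r506 : PImp [l5, o5846] l506 := rupP (by decide +kernel)
theorem r507 : PImp [l5, o5847] l507 := rupP (by decide +kernel)
theorem r508 : PImp [l5, o5848] l508 := rupP (by decide +kernel)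
theorem r509 : PImp [l5, o5849] l509 := rupP (by decide +kernel)
theorem r510 : PImp [l5, o5850] l510 := rupP (by decide +kernel)
theorem r511 : PImp [l5, o5851] l511 := rupP (by decide +kernel)
theorem r512 : PImp [l5, o5852] l512 := rupP (by decide +kernel)
theorem r513 : PImp [l6, o6316] l513 := rupP (by decide +kernel)
theorem r514 : PImp [l6, o6317] l514 := rupP (by decide +kernel)
theorem r515 : PImp [l6, o6318] l515 := rupP (by decide +kernel)
theorem r516 : PImp [l6, o6319] l516 := rupP (by decide +kernel)
theorem r517 : PImp [l6, o6320] l517 := rupP (by decide +kernel)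
theorem r518 : PImp [l6, o6321] l518 := rupP (by decide +kernel)
theorem r519 : PImp [l6, o6322] l519 := rupP (by decide +kernel)
theorem r520 : PImp [l8, l5, o6323] l520 := rupP (by decide +kernel)
theorem r521 : PImp [l5, o6324] l521 := rupP (by decide +kernel)
theorem r522 : PImp [l5, o6325] l522 := rupP (by decide +kernel)
theorem r523 : PImp [l5, o6326] l523 := rupP (by decide +kernel)
theorem r524 : PImp [l15, o6344] l524 := rupP (by decide +kernel)
theorem r525 : PImp [l15, o6355] l525 := rupP (by decide +kernel)
theorem r526 : PImp [l10, o6356] l526 := rupP (by decide +kernel)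
theorem r527 : PImp [l12, o6375] l527 := rupP (by decide +kernel)
theorem r528 : PImp [l14, o6376] l528 := rupP (by decide +kernel)
theorem r529 : PImp [l17, o6386] l529 := rupP (by decide +kernel)
theorem r530 : PImp [l16, o6387] l530 := rupP (by decide +kernel)
theorem r531 : PImp [l16, o6394] l531 := rupP (by decide +kernel)
theorem r532 : PImp [l17, o6395] l532 := rupP (by decide +kernel)
theorem r533 : PImp [l8, o6398] l533 := rupP (by decide +kernel)
theorem r534 : PImp [l15, o6440] l534 := rupP (by decide +kernel)
theorem r535 : PImp [l15, o6460] l535 := rupP (by decide +kernel)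
theorem r536 : PImp [l13, o6463] l536 := rupP (by decide +kernel)
theorem r537 : PImp [l10, o6464] l537 := rupP (by decide +kernel)
theorem r538 : PImp [l12, o6505] l538 := rupP (by decide +kernel)
theorem r539 : PImp [l14, o6506] l539 := rupP (by decide +kernel)
theorem r540 : PImp [l17, o6529] l540 := rupP (by decide +kernel)
theorem r541 : PImp [l16, o6530] l541 := rupP (by decide +kernel)
theorem r542 : PImp [l11, o6531] l542 := rupP (by decide +kernel)
theorem r543 : PImp [l16, o6548] l543 := rupP (by decide +kernel)
theorem r544 : PImp [l17, o6549] l544 := rupP (by decide +kernel)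
theorem r545 : PImp [l8, o6552] l545 := rupP (by decide +kernel)
theorem r546 : PImp [l15, o6590] l546 := rupP (by decide +kernel)
theorem r547 : PImp [l15, o6602] l547 := rupP (by decide +kernel)
theorem r548 : PImp [l10, o6603] l548 := rupP (by decide +kernel)
theorem r549 : PImp [l12, o6634] l549 := rupP (by decide +kernel)
theorem r550 : PImp [l14, o6635] l550 := rupP (by decide +kernel)
theorem r551 : PImp [l17, o6653] l551 := rupP (by decide +kernel)
theorem r552 : PImp [l16, o6654] l552 := rupP (by decide +kernel)
theorem r553 : PImp [l11, o6656] l553 := rupP (by decide +kernel)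
theorem r554 : PImp [l16, o6670] l554 := rupP (by decide +kernel)
theorem r555 : PImp [l17, o6671] l555 := rupP (by decide +kernel)
theorem r556 : PImp [l8, o6675] l556 := rupP (by decide +kernel)
theorem r557 : PImp [l15, o6717] l557 := rupP (by decide +kernel)
theorem r558 : PImp [l15, o6735] l558 := rupP (by decide +kernel)
theorem r559 : PImp [l13, o6736] l559 := rupP (by decide +kernel)
theorem r560 : PImp [l10, o6737] l560 := rupP (by decide +kernel)
theorem r561 : PImp [l12, o6780] l561 := rupP (by decide +kernel)
theorem r562 : PImp [l14, o6781] l562 := rupP (by decide +kernel)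
theorem r563 : PImp [l6, o6803] l563 := rupP (by decide +kernel)
theorem r564 : PImp [l6, o6804] l564 := rupP (by decide +kernel)
theorem r565 : PImp [l5, o6805] l565 := rupP (by decide +kernel)
theorem r566 : PImp [l5, o6806] l566 := rupP (by decide +kernel)
theorem r567 : PImp [l6, o7026] l567 := rupP (by decide +kernel)
theorem r568 : PImp [l6, o7027] l568 := rupP (by decide +kernel)
theorem r569 : PImp [l6, o7028] l569 := rupP (by decide +kernel)
theorem r570 : PImp [l5, o7030] l570 := rupP (by decide +kernel)
theorem r571 : PImp [l14, o7032] l571 := rupP (by decide +kernel)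
theorem r572 : PImp [l12, o7033] l572 := rupP (by decide +kernel)
theorem r573 : PImp [l10, o7058] l573 := rupP (by decide +kernel)
theorem r574 : PImp [l13, o7059] l574 := rupP (by decide +kernel)
theorem r575 : PImp [o9190, l9, o7093] l575 := rupP (by decide +kernel)
theorem r576 : PImp [l8, o7104] l576 := rupP (by decide +kernel)
theorem r577 : PImp [l11, o7114] l577 := rupP (by decide +kernel)
theorem r578 : PImp [l14, o7125] l578 := rupP (by decide +kernel)
theorem r579 : PImp [l12, o7126] l579 := rupP (by decide +kernel)
theorem r580 : PImp [l9, o9190, o7128] l580 := rupP (by decide +kernel)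
theorem r581 : PImp [l10, o7154] l581 := rupP (by decide +kernel)
theorem r582 : PImp [l8, o7202] l582 := rupP (by decide +kernel)
theorem r583 : PImp [l11, o7213] l583 := rupP (by decide +kernel)
theorem r584 : PImp [l14, o7224] l584 := rupP (by decide +kernel)
theorem r585 : PImp [l12, o7225] l585 := rupP (by decide +kernel)
theorem r586 : PImp [l10, o7249] l586 := rupP (by decide +kernel)
theorem r587 : PImp [l13, o7250] l587 := rupP (by decide +kernel)
theorem r588 : PImp [l9, o9190, o7291] l588 := rupP (by decide +kernel)
theorem r589 : PImp [l8, o7302] l589 := rupP (by decide +kernel)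
theorem r590 : PImp [l14, o7323] l590 := rupP (by decide +kernel)
theorem r591 : PImp [o9190, l9, o7325] l591 := rupP (by decide +kernel)
theorem r592 : PImp [l13, o7343] l592 := rupP (by decide +kernel)
theorem r593 : PImp [l6, o7396] l593 := rupP (by decide +kernel)
theorem r594 : PImp [l5, o7397] l594 := rupP (by decide +kernel)
theorem r595 : PImp [l5, o7398] l595 := rupP (by decide +kernel)
theorem r596 : PImp [l5, o7400] l596 := rupP (by decide +kernel)
theorem r597 : PImp [l6, o7661] l597 := rupP (by decide +kernel)
theorem r598 : PImp [l5, o7662] l598 := rupP (by decide +kernel)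
theorem r599 : PImp [l5, o7663] l599 := rupP (by decide +kernel)
theorem r600 : PImp [l5, o7664] l600 := rupP (by decide +kernel)
theorem r601 : PImp [l5, o7665] l601 := rupP (by decide +kernel)
theorem r602 : PImp [l5, o7666] l602 := rupP (by decide +kernel)
theorem r603 : PImp [l5, o7667] l603 := rupP (by decide +kernel)
theorem r604 : PImp [l5, o7669] l604 := rupP (by decide +kernel)
theorem r605 : PImp [l5, o7671] l605 := rupP (by decide +kernel)
theorem r606 : PImp [l5, o7672] l606 := rupP (by decide +kernel)
theorem r607 : PImp [l6, o8292] l607 := rupP (by decide +kernel)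
theorem r608 : PImp [l6, o8293] l608 := rupP (by decide +kernel)
theorem r609 : PImp [l6, o8294] l609 := rupP (by decide +kernel)
theorem r610 : PImp [l6, o8295] l610 := rupP (by decide +kernel)
theorem r611 : PImp [l6, o8296] l611 := rupP (by decide +kernel)
theorem r612 : PImp [l6, o8297] l612 := rupP (by decide +kernel)
theorem r613 : PImp [l6, o8298] l613 := rupP (by decide +kernel)
theorem r614 : PImp [l6, o8299] l614 := rupP (by decide +kernel)
theorem r615 : PImp [l6, o8300] l615 := rupP (by decide +kernel)
theorem r616 : PImp [l6, o8301] l616 := rupP (by decide +kernel)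
theorem r617 : PImp [l6, o8302] l617 := rupP (by decide +kernel)
theorem r618 : PImp [l6, o8303] l618 := rupP (by decide +kernel)
theorem r619 : PImp [l6, o8304] l619 := rupP (by decide +kernel)
theorem r620 : PImp [l6, o8305] l620 := rupP (by decide +kernel)
theorem r621 : PImp [l6, o8306] l621 := rupP (by decide +kernel)
theorem r622 : PImp [l6, o8307] l622 := rupP (by decide +kernel)
theorem r623 : PImp [l5, o8308] l623 := rupP (by decide +kernel)
theorem r624 : PImp [l5, o8309] l624 := rupP (by decide +kernel)
theorem r625 : PImp [l5, o8310] l625 := rupP (by decide +kernel)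
theorem r626 : PImp [l5, o8311] l626 := rupP (by decide +kernel)
theorem r627 : PImp [l5, o8312] l627 := rupP (by decide +kernel)
theorem r628 : PImp [l6, o8867] l628 := rupP (by decide +kernel)
theorem r629 : PImp [l6, o8868] l629 := rupP (by decide +kernel)
theorem r630 : PImp [l6, o8869] l630 := rupP (by decide +kernel)
theorem r631 : PImp [l6, o8870] l631 := rupP (by decide +kernel)
theorem r632 : PImp [o8129, o8042] l632 := rupP (by decide +kernel)
theorem r633 : PImp [o7954, o7916] l633 := rupP (by decide +kernel)
theorem r634 : PImp [o7824, o7919] l634 := rupP (by decide +kernel)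
theorem r635 : PImp [o664, o668] l635 := rupP (by decide +kernel)
theorem r636 : PImp [o7682, o7763] l636 := rupP (by decide +kernel)
theorem r637 : PImp [o8222, l613] l637 := rupP (by decide +kernel)
theorem r638 : PImp [o8015, o8110] l638 := rupP (by decide +kernel)
theorem r639 : PImp [o8271, l621] l639 := rupP (by decide +kernel)
theorem r640 : PImp [o8087, o7999] l640 := rupP (by decide +kernel)
theorem r641 : PImp [o8576, o8506] l641 := rupP (by decide +kernel)
theorem r642 : PImp [o5743, o5765] l642 := rupP (by decide +kernel)
theorem r643 : PImp [o8585, o8561] l643 := rupP (by decide +kernel)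
theorem r644 : PImp [o3806, o3799] l644 := rupP (by decide +kernel)
theorem r645 : PImp [o7823, o8160] l645 := rupP (by decide +kernel)
theorem r646 : PImp [o8997, o9165] l646 := rupP (by decide +kernel)
theorem r647 : PImp [o7404, o7538] l647 := rupP (by decide +kernel)
theorem r648 : PImp [o7652, o7505] l648 := rupP (by decide +kernel)
theorem r649 : PImp [o8012, o8061] l649 := rupP (by decide +kernel)
theorem r650 : PImp [o7843, o7941] l650 := rupP (by decide +kernel)
theorem r651 : PImp [o7920, o8650] l651 := rupP (by decide +kernel)
theorem r652 : PImp [o8750, l630] l652 := rupP (by decide +kernel)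
theorem r653 : PImp [l596, o7532] l653 := rupP (by decide +kernel)
theorem r654 : PImp [o7821, o7865] l654 := rupP (by decide +kernel)
theorem r655 : PImp [o7863, o8198] l655 := rupP (by decide +kernel)
theorem r656 : PImp [o8092, o8115] l656 := rupP (by decide +kernel)
theorem r657 : PImp [o7791, o7813] l657 := rupP (by decide +kernel)
theorem r658 : PImp [o8069, o8046] l658 := rupP (by decide +kernel)
theorem r659 : PImp [o8413, o8390] l659 := rupP (by decide +kernel)
theorem r660 : PImp [o7782, o7802] l660 := rupP (by decide +kernel)
theorem r661 : PImp [o7613, o7604] l661 := rupP (by decide +kernel)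
theorem r662 : PImp [l355, l443, l100, o7511, o7502, l70] l662 := rupP (by decide +kernel)
theorem r663 : PImp [l41, o7746] l663 := rupP (by decide +kernel)
theorem r664 : PImp [o5648, o5643] l664 := rupP (by decide +kernel)
theorem r665 : PImp [o8400, o8399, o8398, o797, o795] l665 := rupP (by decide +kernel)
theorem r666 : PImp [o2405, o2379, o2375, l665] l666 := rupP (by decide +kernel)
theorem r667 : PImp [o8325, l627] l667 := rupP (by decide +kernel)
theorem r668 : PImp [o8324, l626] l668 := rupP (by decide +kernel)
theorem r669 : PImp [o5799, o5804, l667, o2380, o2377, l668] l669 := rupP (by decide +kernel)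
theorem r670 : PImp [o8397, l38, o779, o8416] l670 := rupP (by decide +kernel)
theorem r671 : PImp [o8399, l627] l671 := rupP (by decide +kernel)
theorem r672 : PImp [o697, o700, o7962, o5609, o5617, o8287, o8288] l672 := rupP (by decide +kernel)
theorem r673 : PImp [l618, o7984] l673 := rupP (by decide +kernel)
theorem r674 : PImp [l673, o8269] l674 := rupP (by decide +kernel)
theorem r675 : PImp [o697, o707] l675 := rupP (by decide +kernel)
theorem r676 : PImp [o5645, o5656] l676 := rupP (by decide +kernel)
theorem r677 : PImp [l676, l675, o8288, o8287, o1480, o8252, o1471, o8250] l677 := rupP (by decide +kernel)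
theorem r678 : PImp [l676, l677, o8253, o8252, o8287, o1483, o8285, o1469] l678 := rupP (by decide +kernel)
theorem r679 : PImp [o8864, l630] l679 := rupP (by decide +kernel)
theorem r680 : PImp [l679, l630, o794, o8954, o8865] l680 := rupP (by decide +kernel)
theorem r681 : PImp [o2228, o2224] l681 := rupP (by decide +kernel)
theorem r682 : PImp [o2201, o2202] l682 := rupP (by decide +kernel)
theorem r683 : PImp [o6182, l514] l683 := rupP (by decide +kernel)
theorem r684 : PImp [o3861, o3875] l684 := rupP (by decide +kernel)
theorem r685 : PImp [l118, o3899, o6181, l684, l551, l513, o2442] l685 := rupP (by decide +kernel)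
theorem r686 : PImp [l118, l685, o6057, o2413, o2449, o5930, o2421, l551, o5929, o3894] l686 := rupP (by decide +kernel)
theorem r687 : PImp [o962, o963, o9187] l687 := rupP (by decide +kernel)
theorem r688 : PImp [l95, l96, o9186] l688 := rupP (by decide +kernel)
theorem r689 : PImp [l688, l687] l689 := rupP (by decide +kernel)
theorem r690 : PImp [l689, o950] l690 := rupP (by decide +kernel)
theorem r691 : PImp [o9185, o138] l691 := rupP (by decide +kernel)
theorem r692 : PImp [l60, o9184] l692 := rupP (by decide +kernel)
theorem r693 : PImp [l692, o9185] l693 := rupP (by decide +kernel)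
theorem r694 : PImp [l692, l691] l694 := rupP (by decide +kernel)
theorem r695 : PImp [l693, l61] l695 := rupP (by decide +kernel)
theorem r696 : PImp [l693, l62] l696 := rupP (by decide +kernel)
theorem r697 : PImp [l693, l63] l697 := rupP (by decide +kernel)
theorem r698 : PImp [l693, l64] l698 := rupP (by decide +kernel)
theorem r699 : PImp [l693, l692, o136] l699 := rupP (by decide +kernel)
theorem r700 : PImp [l693, l692, o137] l700 := rupP (by decide +kernel)
theorem r701 : PImp [l693, l692, o191] l701 := rupP (by decide +kernel)
theorem r702 : PImp [l513, o6180] l702 := rupP (by decide +kernel)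
theorem r703 : PImp [l692, l693, l694, l689, l121, l118, o831, o830, o17, o60, o59, l514, o6058, l686, l702, l684, o6057, o2413, o5930, o2421, o5929] l703 := rupP (by decide +kernel)
theorem r704 : PImp [o6057, o5930] l704 := rupP (by decide +kernel)
theorem r705 : PImp [l693, l694, l689, l118, o831, o830, o60, o59, l684, l685, l513, o6180] l705 := rupP (by decide +kernel)
theorem r706 : PImp [o6056, l513] l706 := rupP (by decide +kernel)
theorem r707 : PImp [l692, l693, l689, l703, l121, l118, o831, o830, o17, o60, o59, o5931, l705, o5930, l704, o2417, o2419, l706] l707 := rupP (by decide +kernel)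
theorem r708 : PImp [l693, l689, l690, l700, l118, o831, o830, o60, o59, o6181, o2417, o2452, o2419, l541, l513, o3889] l708 := rupP (by decide +kernel)
theorem r709 : PImp [l693, l689, l694, l118, o831, o830, o60, o59, l708, o3864, o3895, l704, o6057, o3873, l540, o5929, o2446] l709 := rupP (by decide +kernel)
theorem r710 : PImp [o2423, o2410] l710 := rupP (by decide +kernel)
theorem r711 : PImp [l692, l693, l689, o831, o830, o17, o60, o59, l118, l121, l703, l707, l683, l709, l706, l710, o6181, o3864, o5930, o3873, o5929] l711 := rupP (by decide +kernel)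
theorem r712 : PImp [o6253, l513] l712 := rupP (by decide +kernel)
theorem r713 : PImp [o2420, o2414] l713 := rupP (by decide +kernel)
theorem r714 : PImp [l693, o60, o59, l713, o5986, o6254, l684, l712] l714 := rupP (by decide +kernel)
theorem r715 : PImp [l688, o843, o842, o894, o896, o9187] l715 := rupP (by decide +kernel)
theorem r716 : PImp [l692, l693, l689, l694, l715, l711, l123, l120, o831, o830, o18, o64, o17, o60, o59, o5987, l714, o2411, o2447, o2426, o5989, o3867, o3913, o3875, o3874, l529, o5986, o5929, o5876, o5875] l716 := rupP (by decide +kernel)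
theorem r717 : PImp [l693, l689, l694, l122, o63, o60, l713, o6254, o3872, o3895, o5986, o3866, l540, o5988, o2457] l717 := rupP (by decide +kernel)
theorem r718 : PImp [l692, l693, l689, l690, l700, l715, o836, l711, l123, l120, o831, o830, o18, o64, o17, o60, o59, l716, o6255, l717, o2411, o2447, o2426, o2693, o6257, o3879, o3916, o3862, o3864, l552, o6180, o6254, o6115, o6116] l718 := rupP (by decide +kernel)
theorem r719 : PImp [l689, l694, o2422, o2448, o2416, l540, o5879, o3913] l719 := rupP (by decide +kernel)
theorem r720 : PImp [l692, l693, l689, l694, l718, l715, l711, l123, l120, o831, o830, o18, o64, o17, o60, o59, o5877, l719, l710, o5876, o6116, o3875, o3899, l684, o6115, o3867, l702, o5879, l551, o2458] l720 := rupP (by decide +kernel)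
theorem r721 : PImp [l693, l689, l694, o60, o59, o2448, l540, o3893, o3895, l712, o6254, o6116] l721 := rupP (by decide +kernel)
theorem r722 : PImp [l692, l693, l689, l694, l711, l120, o831, o830, o17, o60, o59, l718, l720, o6117, l721, l710, o6116, o3872, o3895, o3865, o5876, l540, l529, o5929, o5875] l722 := rupP (by decide +kernel)
theorem r723 : PImp [l693, o60, o59, l706, l713, o6254, o3872, o5986, o3865, o5985] l723 := rupP (by decide +kernel)
theorem r724 : PImp [l692, l693, l689, l690, l700, l722, l715, l711, l123, l120, o831, o830, o18, o64, o17, o60, o59, l716, o6255, l723, o2411, o2447, o2426, o2693, o6257, o3879, o3916, o3862, o3864, l552, o6254, o6180, o6116, o6115] l724 := rupP (by decide +kernel)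
theorem r725 : PImp [l692, l693, l689, l724, l711, l120, o5877, l722, l715, l123, o831, o830, o18, o64, o17, o60, o59, l706, o2422, o2416, o5879, o3867, o3875, o3874, o5876, o5985, o5986] l725 := rupP (by decide +kernel)
theorem r726 : PImp [l692, l693, l689, l694, l724, l715, l711, l123, l120, o831, o830, o18, o64, o17, o60, o59, o5877, l725, l710, o5876, o3875, o3899, l684, o6116, o3867, o6115, o5879, l702, o2458, l551] l726 := rupP (by decide +kernel)
theorem r727 : PImp [l692, l693, l689, l724, l711, l120, l726, o6117, l715, l123, o831, o830, o18, o64, o17, o60, o59, o2422, o2416, o6119, o3879, o3862, o3864, l712, o6254, o6116] l727 := rupP (by decide +kernel)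
theorem r728 : PImp [l692, l693, l690, l689, l694, o17, o63, o60, o59, o830, o831, l711, l120, l122, l715, o836, l724, l726, o6117, l727, l710, o6116, o3872, o3895, o3865, o5876, o3866, o5875, o5878, o5929, o2453, l529] l728 := rupP (by decide +kernel)
theorem r729 : PImp [l693, l689, l118, o60, o59, o828, l706, l513, o6057, l684] l729 := rupP (by decide +kernel)
theorem r730 : PImp [l693, l118, o60, o59, l713, l729, o6016, l684, o6282, l513, o6281] l730 := rupP (by decide +kernel)
theorem r731 : PImp [l693, l694, l689, o828, l118, o60, o59, l684, l685, l702] l731 := rupP (by decide +kernel)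
theorem r732 : PImp [l616, o8145] l732 := rupP (by decide +kernel)
theorem r733 : PImp [o3669, o3682] l733 := rupP (by decide +kernel)
theorem r734 : PImp [o7728, o7894] l734 := rupP (by decide +kernel)
theorem r735 : PImp [l673, o8148] l735 := rupP (by decide +kernel)
theorem r736 : PImp [o8180, o7843] l736 := rupP (by decide +kernel)
theorem r737 : PImp [o7827, l604] l737 := rupP (by decide +kernel)
theorem r738 : PImp [o8204, o7870] l738 := rupP (by decide +kernel)
theorem r739 : PImp [o7871, l738, o2243, o2255] l739 := rupP (by decide +kernel)
theorem r740 : PImp [o5658, o5639] l740 := rupP (by decide +kernel)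
theorem r741 : PImp [o8160, l41] l741 := rupP (by decide +kernel)
theorem r742 : PImp [o8065, o7730] l742 := rupP (by decide +kernel)
theorem r743 : PImp [l632, o7708, o7788] l743 := rupP (by decide +kernel)
theorem r744 : PImp [o7704, o7785] l744 := rupP (by decide +kernel)
theorem r745 : PImp [o3675, o3683] l745 := rupP (by decide +kernel)
theorem r746 : PImp [l34, o8657, o8607] l746 := rupP (by decide +kernel)
theorem r747 : PImp [o7494, o7429] l747 := rupP (by decide +kernel)
theorem r748 : PImp [o8149, l619] l748 := rupP (by decide +kernel)
theorem r749 : PImp [o8144, l615] l749 := rupP (by decide +kernel)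
theorem r750 : PImp [o8180, o8227] l750 := rupP (by decide +kernel)
theorem r751 : PImp [l652, o8723, o8850] l751 := rupP (by decide +kernel)
theorem r752 : PImp [o8799, o8995] l752 := rupP (by decide +kernel)
theorem r753 : PImp [l679, o8738] l753 := rupP (by decide +kernel)
theorem r754 : PImp [o8177, o8224] l754 := rupP (by decide +kernel)
theorem r755 : PImp [o8625, o8787] l755 := rupP (by decide +kernel)
theorem r756 : PImp [o8623, o8785] l756 := rupP (by decide +kernel)
theorem r757 : PImp [l756, o8479, o8323] l757 := rupP (by decide +kernel)
theorem r758 : PImp [o7843, o7684] l758 := rupP (by decide +kernel)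
theorem r759 : PImp [o8608, o8658] l759 := rupP (by decide +kernel)
theorem r760 : PImp [o7403, o7465] l760 := rupP (by decide +kernel)
theorem r761 : PImp [o7891, o7725] l761 := rupP (by decide +kernel)
theorem r762 : PImp [o7982, o7960] l762 := rupP (by decide +kernel)
theorem r763 : PImp [o8738, o8430] l763 := rupP (by decide +kernel)
theorem r764 : PImp [l734, o7807] l764 := rupP (by decide +kernel)
theorem r765 : PImp [o9007, o9174] l765 := rupP (by decide +kernel)
theorem r766 : PImp [o8326, o8378] l766 := rupP (by decide +kernel)
theorem r767 : PImp [l617, o8266] l767 := rupP (by decide +kernel)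
theorem r768 : PImp [o8349, l625] l768 := rupP (by decide +kernel)
theorem r769 : PImp [l768, o8605, o8996] l769 := rupP (by decide +kernel)
theorem r770 : PImp [o7783, o7700] l770 := rupP (by decide +kernel)
theorem r771 : PImp [l693, o241] l771 := rupP (by decide +kernel)
theorem r772 : PImp [l701, o409] l772 := rupP (by decide +kernel)
theorem r773 : PImp [l693, o262] l773 := rupP (by decide +kernel)
theorem r774 : PImp [l695, o266] l774 := rupP (by decide +kernel)
theorem r775 : PImp [l701, o429] l775 := rupP (by decide +kernel)
theorem r776 : PImp [l701, o430] l776 := rupP (by decide +kernel)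
theorem r777 : PImp [l693, o280] l777 := rupP (by decide +kernel)
theorem r778 : PImp [l693, o282] l778 := rupP (by decide +kernel)
theorem r779 : PImp [l701, l580] l779 := rupP (by decide +kernel)
theorem r780 : PImp [l701, l588] l780 := rupP (by decide +kernel)
theorem r781 : PImp [l699, l535] l781 := rupP (by decide +kernel)
theorem r782 : PImp [l699, l546] l782 := rupP (by decide +kernel)
theorem r783 : PImp [l700, l690, l541] l783 := rupP (by decide +kernel)
theorem r784 : PImp [l700, l690, l543] l784 := rupP (by decide +kernel)
theorem r785 : PImp [l694, l689, l540] l785 := rupP (by decide +kernel)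
theorem r786 : PImp [l694, l689, l544] l786 := rupP (by decide +kernel)
theorem r787 : PImp [l698, l533] l787 := rupP (by decide +kernel)
theorem r788 : PImp [l698, l589] l788 := rupP (by decide +kernel)
theorem r789 : PImp [l697, l537] l789 := rupP (by decide +kernel)
theorem r790 : PImp [l697, l586] l790 := rupP (by decide +kernel)
theorem r791 : PImp [l696, l539] l791 := rupP (by decide +kernel)
theorem r792 : PImp [l696, l584] l792 := rupP (by decide +kernel)
theorem r793 : PImp [l695, l536] l793 := rupP (by decide +kernel)
theorem r794 : PImp [l695, l587] l794 := rupP (by decide +kernel)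
theorem r795 : PImp [l693, l538] l795 := rupP (by decide +kernel)
theorem r796 : PImp [l693, l585] l796 := rupP (by decide +kernel)
theorem r797 : PImp [l692, l688, l542] l797 := rupP (by decide +kernel)
theorem r798 : PImp [l692, l688, l583] l798 := rupP (by decide +kernel)
theorem r799 : PImp [l688, o959] l799 := rupP (by decide +kernel)
theorem r800 : PImp [l688, o960] l800 := rupP (by decide +kernel)
theorem r801 : PImp [l689, o985] l801 := rupP (by decide +kernel)
theorem r802 : PImp [l689, o987] l802 := rupP (by decide +kernel)
theorem r803 : PImp [l689, o984] l803 := rupP (by decide +kernel)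
theorem r804 : PImp [l690, o988] l804 := rupP (by decide +kernel)
theorem r805 : PImp [l689, o983] l805 := rupP (by decide +kernel)
theorem r806 : PImp [l690, o986] l806 := rupP (by decide +kernel)
theorem r807 : PImp [l689, o982] l807 := rupP (by decide +kernel)
theorem r808 : PImp [l689, o977] l808 := rupP (by decide +kernel)
theorem r809 : PImp [l690, o978] l809 := rupP (by decide +kernel)
theorem r810 : PImp [l689, o976] l810 := rupP (by decide +kernel)
theorem r811 : PImp [l689, o971] l811 := rupP (by decide +kernel)
theorem r812 : PImp [l690, o972] l812 := rupP (by decide +kernel)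
theorem r813 : PImp [l689, o970] l813 := rupP (by decide +kernel)
theorem r814 : PImp [l689, o969] l814 := rupP (by decide +kernel)
theorem r815 : PImp [l689, o965] l815 := rupP (by decide +kernel)
theorem r816 : PImp [l690, o966] l816 := rupP (by decide +kernel)
theorem r817 : PImp [l689, o964] l817 := rupP (by decide +kernel)
theorem r818 : PImp [l696, l571] l818 := rupP (by decide +kernel)
theorem r819 : PImp [l696, l562] l819 := rupP (by decide +kernel)
theorem r820 : PImp [l693, l572] l820 := rupP (by decide +kernel)
theorem r821 : PImp [l693, l561] l821 := rupP (by decide +kernel)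
theorem r822 : PImp [l688, o1003] l822 := rupP (by decide +kernel)
theorem r823 : PImp [l688, o1004] l823 := rupP (by decide +kernel)
theorem r824 : PImp [l688, o1006] l824 := rupP (by decide +kernel)
theorem r825 : PImp [l688, o840] l825 := rupP (by decide +kernel)
theorem r826 : PImp [l688, o843] l826 := rupP (by decide +kernel)
theorem r827 : PImp [l688, o846] l827 := rupP (by decide +kernel)
theorem r828 : PImp [l688, o1059] l828 := rupP (by decide +kernel)
theorem r829 : PImp [l688, o1035] l829 := rupP (by decide +kernel)
theorem r830 : PImp [l688, o1025] l830 := rupP (by decide +kernel)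
theorem r831 : PImp [l688, o1015] l831 := rupP (by decide +kernel)
theorem r832 : PImp [l688, o1016] l832 := rupP (by decide +kernel)
theorem r833 : PImp [l688, o1018] l833 := rupP (by decide +kernel)
theorem r834 : PImp [l688, o1017] l834 := rupP (by decide +kernel)
theorem r835 : PImp [l688, o1020] l835 := rupP (by decide +kernel)
theorem r836 : PImp [l688, o1023] l836 := rupP (by decide +kernel)
theorem r837 : PImp [l688, o1024] l837 := rupP (by decide +kernel)
theorem r838 : PImp [l688, o1047] l838 := rupP (by decide +kernel)
theorem r839 : PImp [l688, o1048] l839 := rupP (by decide +kernel)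
theorem r840 : PImp [l688, o1050] l840 := rupP (by decide +kernel)
theorem r841 : PImp [l688, o1051] l841 := rupP (by decide +kernel)
theorem r842 : PImp [l688, o1049] l842 := rupP (by decide +kernel)
theorem r843 : PImp [l688, o1052] l843 := rupP (by decide +kernel)
theorem r844 : PImp [l688, o1055] l844 := rupP (by decide +kernel)
theorem r845 : PImp [l688, o1058] l845 := rupP (by decide +kernel)
theorem r846 : PImp [l688, o1026] l846 := rupP (by decide +kernel)
theorem r847 : PImp [l688, o1028] l847 := rupP (by decide +kernel)
theorem r848 : PImp [l688, o1027] l848 := rupP (by decide +kernel)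
theorem r849 : PImp [l688, o1030] l849 := rupP (by decide +kernel)
theorem r850 : PImp [l688, o1033] l850 := rupP (by decide +kernel)
theorem r851 : PImp [l688, o1036] l851 := rupP (by decide +kernel)
theorem r852 : PImp [l688, o1038] l852 := rupP (by decide +kernel)
theorem r853 : PImp [l688, o1037] l853 := rupP (by decide +kernel)
theorem r854 : PImp [l688, o1040] l854 := rupP (by decide +kernel)
theorem r855 : PImp [l688, o1043] l855 := rupP (by decide +kernel)
theorem r856 : PImp [l688, o1044] l856 := rupP (by decide +kernel)
theorem r857 : PImp [l689, o952] l857 := rupP (by decide +kernel)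
theorem r858 : PImp [l690, o953] l858 := rupP (by decide +kernel)
theorem r859 : PImp [l689, o951] l859 := rupP (by decide +kernel)
theorem r860 : PImp [l689, o835] l860 := rupP (by decide +kernel)
theorem r861 : PImp [l689, o832] l861 := rupP (by decide +kernel)
theorem r862 : PImp [l689, o828] l862 := rupP (by decide +kernel)
theorem r863 : PImp [l698, o392] l863 := rupP (by decide +kernel)
theorem r864 : PImp [l701, l575] l864 := rupP (by decide +kernel)
theorem r865 : PImp [l701, l591] l865 := rupP (by decide +kernel)
theorem r866 : PImp [l701, o405] l866 := rupP (by decide +kernel)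
theorem r867 : PImp [l701, o408] l867 := rupP (by decide +kernel)
theorem r868 : PImp [l701, o421] l868 := rupP (by decide +kernel)
theorem r869 : PImp [l700, o129] l869 := rupP (by decide +kernel)
theorem r870 : PImp [l700, l690, l531] l870 := rupP (by decide +kernel)
theorem r871 : PImp [l700, l690, l552] l871 := rupP (by decide +kernel)
theorem r872 : PImp [l694, o2] l872 := rupP (by decide +kernel)
theorem r873 : PImp [l694, o4] l873 := rupP (by decide +kernel)
theorem r874 : PImp [l694, o5] l874 := rupP (by decide +kernel)
theorem r875 : PImp [l694, o8] l875 := rupP (by decide +kernel)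
theorem r876 : PImp [l694, o127] l876 := rupP (by decide +kernel)
theorem r877 : PImp [l694, o128] l877 := rupP (by decide +kernel)
theorem r878 : PImp [l694, l689, l532] l878 := rupP (by decide +kernel)
theorem r879 : PImp [l693, o322] l879 := rupP (by decide +kernel)
theorem r880 : PImp [l693, o329] l880 := rupP (by decide +kernel)
theorem r881 : PImp [l701, o439] l881 := rupP (by decide +kernel)
theorem r882 : PImp [l693, o318] l882 := rupP (by decide +kernel)
theorem r883 : PImp [l693, o324] l883 := rupP (by decide +kernel)
theorem r884 : PImp [l692, o227] l884 := rupP (by decide +kernel)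
theorem r885 : PImp [l692, o230] l885 := rupP (by decide +kernel)
theorem r886 : PImp [l693, o315] l886 := rupP (by decide +kernel)
theorem r887 : PImp [l693, o320] l887 := rupP (by decide +kernel)
theorem r888 : PImp [l696, o327] l888 := rupP (by decide +kernel)
theorem r889 : PImp [l692, o225] l889 := rupP (by decide +kernel)
theorem r890 : PImp [l693, o317] l890 := rupP (by decide +kernel)
theorem r891 : PImp [l695, o323] l891 := rupP (by decide +kernel)
theorem r892 : PImp [l698, o330] l892 := rupP (by decide +kernel)
theorem r893 : PImp [l698, o333] l893 := rupP (by decide +kernel)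
theorem r894 : PImp [l693, o285] l894 := rupP (by decide +kernel)
theorem r895 : PImp [l693, o287] l895 := rupP (by decide +kernel)
theorem r896 : PImp [l701, o433] l896 := rupP (by decide +kernel)
theorem r897 : PImp [l701, o434] l897 := rupP (by decide +kernel)
theorem r898 : PImp [l693, o283] l898 := rupP (by decide +kernel)
theorem r899 : PImp [l693, o286] l899 := rupP (by decide +kernel)
theorem r900 : PImp [l696, o288] l900 := rupP (by decide +kernel)
theorem r901 : PImp [l693, o284] l901 := rupP (by decide +kernel)
theorem r902 : PImp [l693, o281] l902 := rupP (by decide +kernel)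
theorem r903 : PImp [l693, o265] l903 := rupP (by decide +kernel)
theorem r904 : PImp [l693, o263] l904 := rupP (by decide +kernel)
theorem r905 : PImp [l693, o260] l905 := rupP (by decide +kernel)
theorem r906 : PImp [l693, o242] l906 := rupP (by decide +kernel)
theorem r907 : PImp [l693, o244] l907 := rupP (by decide +kernel)
theorem r908 : PImp [l701, o417] l908 := rupP (by decide +kernel)
theorem r909 : PImp [l693, o240] l909 := rupP (by decide +kernel)
theorem r910 : PImp [l693, o176] l910 := rupP (by decide +kernel)
theorem r911 : PImp [l693, o175] l911 := rupP (by decide +kernel)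
theorem r912 : PImp [l693, o174] l912 := rupP (by decide +kernel)
theorem r913 : PImp [l693, o178] l913 := rupP (by decide +kernel)
theorem r914 : PImp [l693, o177] l914 := rupP (by decide +kernel)
theorem r915 : PImp [l693, o179] l915 := rupP (by decide +kernel)
theorem r916 : PImp [l694, o160] l916 := rupP (by decide +kernel)
theorem r917 : PImp [l694, o162] l917 := rupP (by decide +kernel)
theorem r918 : PImp [l694, o164] l918 := rupP (by decide +kernel)
theorem r919 : PImp [l694, o166] l919 := rupP (by decide +kernel)
theorem r920 : PImp [l694, o168] l920 := rupP (by decide +kernel)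
theorem r921 : PImp [l698, o331] l921 := rupP (by decide +kernel)
theorem r922 : PImp [l698, o332] l922 := rupP (by decide +kernel)
theorem r923 : PImp [l700, o165] l923 := rupP (by decide +kernel)
theorem r924 : PImp [l699, o172] l924 := rupP (by decide +kernel)
theorem r925 : PImp [l694, o159] l925 := rupP (by decide +kernel)
theorem r926 : PImp [l694, o161] l926 := rupP (by decide +kernel)
theorem r927 : PImp [l693, o325] l927 := rupP (by decide +kernel)
theorem r928 : PImp [l696, o328] l928 := rupP (by decide +kernel)
theorem r929 : PImp [l700, o163] l929 := rupP (by decide +kernel)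
theorem r930 : PImp [l699, o167] l930 := rupP (by decide +kernel)
theorem r931 : PImp [l699, o170] l931 := rupP (by decide +kernel)
theorem r932 : PImp [l699, o171] l932 := rupP (by decide +kernel)
theorem r933 : PImp [l694, o158] l933 := rupP (by decide +kernel)
theorem r934 : PImp [l699, o169] l934 := rupP (by decide +kernel)
theorem r935 : PImp [l693, o319] l935 := rupP (by decide +kernel)
theorem r936 : PImp [l693, o321] l936 := rupP (by decide +kernel)
theorem r937 : PImp [l697, o326] l937 := rupP (by decide +kernel)
theorem r938 : PImp [l693, o316] l938 := rupP (by decide +kernel)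
theorem r939 : PImp [l694, o152] l939 := rupP (by decide +kernel)
theorem r940 : PImp [l694, o154] l940 := rupP (by decide +kernel)
theorem r941 : PImp [l700, o153] l941 := rupP (by decide +kernel)
theorem r942 : PImp [l694, o151] l942 := rupP (by decide +kernel)
theorem r943 : PImp [l699, o156] l943 := rupP (by decide +kernel)
theorem r944 : PImp [l699, o157] l944 := rupP (by decide +kernel)
theorem r945 : PImp [l699, o155] l945 := rupP (by decide +kernel)
theorem r946 : PImp [l694, o146] l946 := rupP (by decide +kernel)
theorem r947 : PImp [l700, o147] l947 := rupP (by decide +kernel)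
theorem r948 : PImp [l694, o144] l948 := rupP (by decide +kernel)
theorem r949 : PImp [l694, o145] l949 := rupP (by decide +kernel)
theorem r950 : PImp [l699, o149] l950 := rupP (by decide +kernel)
theorem r951 : PImp [l699, o150] l951 := rupP (by decide +kernel)
theorem r952 : PImp [l699, o148] l952 := rupP (by decide +kernel)
theorem r953 : PImp [l693, o264] l953 := rupP (by decide +kernel)
theorem r954 : PImp [l693, o261] l954 := rupP (by decide +kernel)
theorem r955 : PImp [l694, o140] l955 := rupP (by decide +kernel)
theorem r956 : PImp [l694, o139] l956 := rupP (by decide +kernel)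
theorem r957 : PImp [l699, o142] l957 := rupP (by decide +kernel)
theorem r958 : PImp [l699, o143] l958 := rupP (by decide +kernel)
theorem r959 : PImp [l699, o141] l959 := rupP (by decide +kernel)
theorem r960 : PImp [l695, o243] l960 := rupP (by decide +kernel)
theorem r961 : PImp [l693, o237] l961 := rupP (by decide +kernel)
theorem r962 : PImp [l693, o238] l962 := rupP (by decide +kernel)
theorem r963 : PImp [l693, o239] l963 := rupP (by decide +kernel)
theorem r964 : PImp [l692, o184] l964 := rupP (by decide +kernel)
theorem r965 : PImp [l692, o185] l965 := rupP (by decide +kernel)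
theorem r966 : PImp [l692, o186] l966 := rupP (by decide +kernel)
theorem r967 : PImp [l692, o187] l967 := rupP (by decide +kernel)
theorem r968 : PImp [l692, o188] l968 := rupP (by decide +kernel)
theorem r969 : PImp [l692, o189] l969 := rupP (by decide +kernel)
theorem r970 : PImp [l692, o15] l970 := rupP (by decide +kernel)
theorem r971 : PImp [l692, o16] l971 := rupP (by decide +kernel)
theorem r972 : PImp [l692, o18] l972 := rupP (by decide +kernel)
theorem r973 : PImp [l692, o19] l973 := rupP (by decide +kernel)
theorem r974 : PImp [l692, o20] l974 := rupP (by decide +kernel)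
theorem r975 : PImp [l692, o21] l975 := rupP (by decide +kernel)
theorem r976 : PImp [l692, o22] l976 := rupP (by decide +kernel)
theorem r977 : PImp [l692, l688, l553] l977 := rupP (by decide +kernel)
theorem r978 : PImp [l692, l688, l577] l978 := rupP (by decide +kernel)
theorem r979 : PImp [l692, o212] l979 := rupP (by decide +kernel)
theorem r980 : PImp [l692, o196] l980 := rupP (by decide +kernel)
theorem r981 : PImp [l692, o197] l981 := rupP (by decide +kernel)
theorem r982 : PImp [l692, o198] l982 := rupP (by decide +kernel)
theorem r983 : PImp [l692, o199] l983 := rupP (by decide +kernel)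
theorem r984 : PImp [l692, o201] l984 := rupP (by decide +kernel)
theorem r985 : PImp [l692, o204] l985 := rupP (by decide +kernel)
theorem r986 : PImp [l692, o200] l986 := rupP (by decide +kernel)
theorem r987 : PImp [l692, o202] l987 := rupP (by decide +kernel)
theorem r988 : PImp [l692, o203] l988 := rupP (by decide +kernel)
theorem r989 : PImp [l692, o205] l989 := rupP (by decide +kernel)
theorem r990 : PImp [l692, o206] l990 := rupP (by decide +kernel)
theorem r991 : PImp [l692, o207] l991 := rupP (by decide +kernel)
theorem r992 : PImp [l692, o208] l992 := rupP (by decide +kernel)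
theorem r993 : PImp [l692, o209] l993 := rupP (by decide +kernel)
theorem r994 : PImp [l692, o210] l994 := rupP (by decide +kernel)
theorem r995 : PImp [l692, o211] l995 := rupP (by decide +kernel)
theorem r996 : PImp [l699, o131] l996 := rupP (by decide +kernel)
theorem r997 : PImp [l699, o133] l997 := rupP (by decide +kernel)
theorem r998 : PImp [l699, o134] l998 := rupP (by decide +kernel)
theorem r999 : PImp [l699, o135] l999 := rupP (by decide +kernel)
theorem r1000 : PImp [l699, o130] l1000 := rupP (by decide +kernel)
theorem r1001 : PImp [l699, o132] l1001 := rupP (by decide +kernel)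
theorem r1002 : PImp [l693, o67] l1002 := rupP (by decide +kernel)
theorem r1003 : PImp [l693, o66] l1003 := rupP (by decide +kernel)
theorem r1004 : PImp [l693, o65] l1004 := rupP (by decide +kernel)
theorem r1005 : PImp [l693, o62] l1005 := rupP (by decide +kernel)
theorem r1006 : PImp [l693, o61] l1006 := rupP (by decide +kernel)
theorem r1007 : PImp [l693, o59] l1007 := rupP (by decide +kernel)
theorem r1008 : PImp [l699, o10] l1008 := rupP (by decide +kernel)
theorem r1009 : PImp [l699, o11] l1009 := rupP (by decide +kernel)
theorem r1010 : PImp [l701, o406] l1010 := rupP (by decide +kernel)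
theorem r1011 : PImp [l701, o410] l1011 := rupP (by decide +kernel)
theorem r1012 : PImp [l701, o420] l1012 := rupP (by decide +kernel)
theorem r1013 : PImp [l701, o411] l1013 := rupP (by decide +kernel)
theorem r1014 : PImp [l701, o412] l1014 := rupP (by decide +kernel)
theorem r1015 : PImp [l692, o236] l1015 := rupP (by decide +kernel)
theorem r1016 : PImp [l692, o214] l1016 := rupP (by decide +kernel)
theorem r1017 : PImp [l699, l557] l1017 := rupP (by decide +kernel)
theorem r1018 : PImp [l699, l525] l1018 := rupP (by decide +kernel)
theorem r1019 : PImp [l700, l690, l554] l1019 := rupP (by decide +kernel)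
theorem r1020 : PImp [l700, l690, l530] l1020 := rupP (by decide +kernel)
theorem r1021 : PImp [l694, l689, l555] l1021 := rupP (by decide +kernel)
theorem r1022 : PImp [l694, l689, l529] l1022 := rupP (by decide +kernel)
theorem r1023 : PImp [l699, l534] l1023 := rupP (by decide +kernel)
theorem r1024 : PImp [l699, l547] l1024 := rupP (by decide +kernel)
theorem r1025 : PImp [l698, l545] l1025 := rupP (by decide +kernel)
theorem r1026 : PImp [l698, l582] l1026 := rupP (by decide +kernel)
theorem r1027 : PImp [l698, l520] l1027 := rupP (by decide +kernel)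
theorem r1028 : PImp [l697, l526] l1028 := rupP (by decide +kernel)
theorem r1029 : PImp [l697, l548] l1029 := rupP (by decide +kernel)
theorem r1030 : PImp [l697, l581] l1030 := rupP (by decide +kernel)
theorem r1031 : PImp [l696, l550] l1031 := rupP (by decide +kernel)
theorem r1032 : PImp [l696, l578] l1032 := rupP (by decide +kernel)
theorem r1033 : PImp [l696, l590] l1033 := rupP (by decide +kernel)
theorem r1034 : PImp [l696, l528] l1034 := rupP (by decide +kernel)
theorem r1035 : PImp [l695, l592] l1035 := rupP (by decide +kernel)
theorem r1036 : PImp [l693, l549] l1036 := rupP (by decide +kernel)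
theorem r1037 : PImp [l693, l579] l1037 := rupP (by decide +kernel)
theorem r1038 : PImp [l693, l527] l1038 := rupP (by decide +kernel)
theorem r1039 : PImp [l699, l524] l1039 := rupP (by decide +kernel)
theorem r1040 : PImp [l699, l558] l1040 := rupP (by decide +kernel)
theorem r1041 : PImp [l698, l576] l1041 := rupP (by decide +kernel)
theorem r1042 : PImp [l698, l556] l1042 := rupP (by decide +kernel)
theorem r1043 : PImp [l697, l560] l1043 := rupP (by decide +kernel)
theorem r1044 : PImp [l697, l573] l1044 := rupP (by decide +kernel)
theorem r1045 : PImp [l695, l559] l1045 := rupP (by decide +kernel)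
theorem r1046 : PImp [l695, l574] l1046 := rupP (by decide +kernel)
theorem r1047 : PImp [l699, o3] l1047 := rupP (by decide +kernel)
theorem r1048 : PImp [l699, o6] l1048 := rupP (by decide +kernel)
theorem r1049 : PImp [l699, o7] l1049 := rupP (by decide +kernel)
theorem r1050 : PImp [l699, o9] l1050 := rupP (by decide +kernel)
theorem r1051 : PImp [l692, o229] l1051 := rupP (by decide +kernel)
theorem r1052 : PImp [l692, o232] l1052 := rupP (by decide +kernel)
theorem r1053 : PImp [l692, o233] l1053 := rupP (by decide +kernel)
theorem r1054 : PImp [l692, o234] l1054 := rupP (by decide +kernel)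
theorem r1055 : PImp [l692, o235] l1055 := rupP (by decide +kernel)
theorem r1056 : PImp [l692, o228] l1056 := rupP (by decide +kernel)
theorem r1057 : PImp [l692, o231] l1057 := rupP (by decide +kernel)
theorem r1058 : PImp [l692, o226] l1058 := rupP (by decide +kernel)
theorem r1059 : PImp [l692, o224] l1059 := rupP (by decide +kernel)
theorem r1060 : PImp [l692, o217] l1060 := rupP (by decide +kernel)
theorem r1061 : PImp [l692, o220] l1061 := rupP (by decide +kernel)
theorem r1062 : PImp [l692, o222] l1062 := rupP (by decide +kernel)
theorem r1063 : PImp [l692, o223] l1063 := rupP (by decide +kernel)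
theorem r1064 : PImp [l692, o216] l1064 := rupP (by decide +kernel)
theorem r1065 : PImp [l692, o219] l1065 := rupP (by decide +kernel)
theorem r1066 : PImp [l692, o221] l1066 := rupP (by decide +kernel)
theorem r1067 : PImp [l692, o215] l1067 := rupP (by decide +kernel)
theorem r1068 : PImp [l692, o218] l1068 := rupP (by decide +kernel)
theorem r1069 : PImp [l692, o213] l1069 := rupP (by decide +kernel)
theorem r1070 : PImp [o5886, o5917] l1070 := rupP (by decide +kernel)
theorem r1071 : PImp [l758, l736, l638] l1071 := rupP (by decide +kernel)
theorem r1072 : PImp [o6035, o6298] l1072 := rupP (by decide +kernel)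
theorem r1073 : PImp [o5915, o6166] l1073 := rupP (by decide +kernel)
theorem r1074 : PImp [o5897, o6151] l1074 := rupP (by decide +kernel)
theorem r1075 : PImp [l702, o6166] l1075 := rupP (by decide +kernel)
theorem r1076 : PImp [o6133, o6153] l1076 := rupP (by decide +kernel)
theorem r1077 : PImp [o5939, o5952] l1077 := rupP (by decide +kernel)
theorem r1078 : PImp [l1077, l728, o5966] l1078 := rupP (by decide +kernel)
theorem r1079 : PImp [o6116, o5876] l1079 := rupP (by decide +kernel)
theorem r1080 : PImp [l728, o5865] l1080 := rupP (by decide +kernel)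
theorem r1081 : PImp [o5876, o5986] l1081 := rupP (by decide +kernel)
theorem r1082 : PImp [o6194, o6215] l1082 := rupP (by decide +kernel)
theorem r1083 : PImp [l799, l800, o9187] l1083 := rupP (by decide +kernel)
theorem r1084 : PImp [o6180, o6669] l1084 := rupP (by decide +kernel)
theorem r1085 : PImp [l1073, l1084] l1085 := rupP (by decide +kernel)
theorem r1086 : PImp [l118, l1072, o6035, o6297, l684] l1086 := rupP (by decide +kernel)
theorem r1087 : PImp [o5953, o6216] l1087 := rupP (by decide +kernel)
theorem r1088 : PImp [l118, l713, l730, l706, l971, l1086] l1088 := rupP (by decide +kernel)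
theorem r1089 : PImp [l1083, l782, l1039] l1089 := rupP (by decide +kernel)
theorem r1090 : PImp [l728, o6573] l1090 := rupP (by decide +kernel)
theorem r1091 : PImp [o7788, o8129] l1091 := rupP (by decide +kernel)
theorem r1092 : PImp [o7708, o7871] l1092 := rupP (by decide +kernel)
theorem r1093 : PImp [l34, o8505] l1093 := rupP (by decide +kernel)
theorem r1094 : PImp [o6587, o6036] l1094 := rupP (by decide +kernel)
theorem r1095 : PImp [l728, o6215] l1095 := rupP (by decide +kernel)
theorem r1096 : PImp [l1087, o6078] l1096 := rupP (by decide +kernel)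
theorem r1097 : PImp [o6256, o6216] l1097 := rupP (by decide +kernel)
theorem r1098 : PImp [o6067, o6481] l1098 := rupP (by decide +kernel)
theorem r1099 : PImp [l1022, l786] l1099 := rupP (by decide +kernel)
theorem r1100 : PImp [l728, l860, l1050, l1049, l873, l119, o6153, l702, o6155, l861, l126, o6079, o6216, o6078] l1100 := rupP (by decide +kernel)
theorem r1101 : PImp [o6438, o6168] l1101 := rupP (by decide +kernel)
theorem r1102 : PImp [l668, o8625] l1102 := rupP (by decide +kernel)
theorem r1103 : PImp [l732, o8227] l1103 := rupP (by decide +kernel)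
theorem r1104 : PImp [o2254, o2242] l1104 := rupP (by decide +kernel)
theorem r1105 : PImp [o1451, o1440] l1105 := rupP (by decide +kernel)
theorem r1106 : PImp [o6000, o5943] l1106 := rupP (by decide +kernel)
theorem r1107 : PImp [o6546, o6016] l1107 := rupP (by decide +kernel)
theorem r1108 : PImp [l795, l1038] l1108 := rupP (by decide +kernel)
theorem r1109 : PImp [l1108, l820, l1036] l1109 := rupP (by decide +kernel)
theorem r1110 : PImp [l97, o9186] l1110 := rupP (by decide +kernel)
theorem r1111 : PImp [l1110, o9187] l1111 := rupP (by decide +kernel)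
theorem r1112 : PImp [l1110, l1083, o961] l1112 := rupP (by decide +kernel)
theorem r1113 : PImp [l1111, l98] l1113 := rupP (by decide +kernel)
theorem r1114 : PImp [l1111, l99] l1114 := rupP (by decide +kernel)
theorem r1115 : PImp [l1111, l1110, o1012] l1115 := rupP (by decide +kernel)
theorem r1116 : PImp [o5939, o6587] l1116 := rupP (by decide +kernel)
theorem r1117 : PImp [l728, l860, l1050, l124, o6077, o6079] l1117 := rupP (by decide +kernel)
theorem r1118 : PImp [o5898, o6016] l1118 := rupP (by decide +kernel)
theorem r1119 : PImp [l1022, l878] l1119 := rupP (by decide +kernel)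
theorem r1120 : PImp [l1110, l728, l860, l1050, l124, o5855, l820, o5857, l795, o6499] l1120 := rupP (by decide +kernel)
theorem r1121 : PImp [o6500, o5856] l1121 := rupP (by decide +kernel)
theorem r1122 : PImp [l505, o5865] l1122 := rupP (by decide +kernel)
theorem r1123 : PImp [o5956, o6218] l1123 := rupP (by decide +kernel)
theorem r1124 : PImp [l1123, o6081, o5859] l1124 := rupP (by decide +kernel)
theorem r1125 : PImp [o5921, o6038] l1125 := rupP (by decide +kernel)
theorem r1126 : PImp [o6848, o6837] l1126 := rupP (by decide +kernel)
theorem r1127 : PImp [o8816, l629] l1127 := rupP (by decide +kernel)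
theorem r1128 : PImp [l653, o7579, o7435] l1128 := rupP (by decide +kernel)
theorem r1129 : PImp [o7452, o7427] l1129 := rupP (by decide +kernel)
theorem r1130 : PImp [o6061, l517] l1130 := rupP (by decide +kernel)
theorem r1131 : PImp [l509, o6072] l1131 := rupP (by decide +kernel)
theorem r1132 : PImp [o6946, o7034] l1132 := rupP (by decide +kernel)
theorem r1133 : PImp [o7434, l595] l1133 := rupP (by decide +kernel)
theorem r1134 : PImp [l1114, l1111, l430, l1027, l335, l794, l787, l637, o7457, o8060] l1134 := rupP (by decide +kernel)
theorem r1135 : PImp [l1115, o1207] l1135 := rupP (by decide +kernel)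
theorem r1136 : PImp [l1115, o1208] l1136 := rupP (by decide +kernel)
theorem r1137 : PImp [l1115, l779] l1137 := rupP (by decide +kernel)
theorem r1138 : PImp [l1115, l780] l1138 := rupP (by decide +kernel)
theorem r1139 : PImp [l1083, l781] l1139 := rupP (by decide +kernel)
theorem r1140 : PImp [l1083, l782] l1140 := rupP (by decide +kernel)
theorem r1141 : PImp [l1114, l787] l1141 := rupP (by decide +kernel)
theorem r1142 : PImp [l1114, l788] l1142 := rupP (by decide +kernel)
theorem r1143 : PImp [l1113, l789] l1143 := rupP (by decide +kernel)
theorem r1144 : PImp [l1113, l790] l1144 := rupP (by decide +kernel)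
theorem r1145 : PImp [l1112, l791] l1145 := rupP (by decide +kernel)
theorem r1146 : PImp [l1112, l792] l1146 := rupP (by decide +kernel)
theorem r1147 : PImp [l1111, l793] l1147 := rupP (by decide +kernel)
theorem r1148 : PImp [l1111, l794] l1148 := rupP (by decide +kernel)
theorem r1149 : PImp [l1110, l795] l1149 := rupP (by decide +kernel)
theorem r1150 : PImp [l1110, l796] l1150 := rupP (by decide +kernel)
theorem r1151 : PImp [l1114, o1194] l1151 := rupP (by decide +kernel)
theorem r1152 : PImp [l1115, o1225] l1152 := rupP (by decide +kernel)
theorem r1153 : PImp [l1111, o1137] l1153 := rupP (by decide +kernel)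
theorem r1154 : PImp [l1111, o1141] l1154 := rupP (by decide +kernel)
theorem r1155 : PImp [l1111, o1138] l1155 := rupP (by decide +kernel)
theorem r1156 : PImp [l1111, o1139] l1156 := rupP (by decide +kernel)
theorem r1157 : PImp [l1115, o1223] l1157 := rupP (by decide +kernel)
theorem r1158 : PImp [l1115, o1224] l1158 := rupP (by decide +kernel)
theorem r1159 : PImp [l1115, o1222] l1159 := rupP (by decide +kernel)
theorem r1160 : PImp [l1115, o1221] l1160 := rupP (by decide +kernel)
theorem r1161 : PImp [l1115, o1212] l1161 := rupP (by decide +kernel)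
theorem r1162 : PImp [l1115, o1209] l1162 := rupP (by decide +kernel)
theorem r1163 : PImp [l1115, o1210] l1163 := rupP (by decide +kernel)
theorem r1164 : PImp [l1111, o994] l1164 := rupP (by decide +kernel)
theorem r1165 : PImp [l1111, o996] l1165 := rupP (by decide +kernel)
theorem r1166 : PImp [l1111, o999] l1166 := rupP (by decide +kernel)
theorem r1167 : PImp [l1111, o995] l1167 := rupP (by decide +kernel)
theorem r1168 : PImp [l1111, o998] l1168 := rupP (by decide +kernel)
theorem r1169 : PImp [l1111, o997] l1169 := rupP (by decide +kernel)
theorem r1170 : PImp [l1083, o990] l1170 := rupP (by decide +kernel)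
theorem r1171 : PImp [l1083, o991] l1171 := rupP (by decide +kernel)
theorem r1172 : PImp [l1083, o989] l1172 := rupP (by decide +kernel)
theorem r1173 : PImp [l1111, o1135] l1173 := rupP (by decide +kernel)
theorem r1174 : PImp [l1111, o1136] l1174 := rupP (by decide +kernel)
theorem r1175 : PImp [l1111, o1134] l1175 := rupP (by decide +kernel)
theorem r1176 : PImp [l1114, o1140] l1176 := rupP (by decide +kernel)
theorem r1177 : PImp [l1083, o980] l1177 := rupP (by decide +kernel)
theorem r1178 : PImp [l1083, o981] l1178 := rupP (by decide +kernel)
theorem r1179 : PImp [l1111, o1102] l1179 := rupP (by decide +kernel)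
theorem r1180 : PImp [l1111, o1103] l1180 := rupP (by decide +kernel)
theorem r1181 : PImp [l1111, o1104] l1181 := rupP (by decide +kernel)
theorem r1182 : PImp [l1083, o979] l1182 := rupP (by decide +kernel)
theorem r1183 : PImp [l1111, o1100] l1183 := rupP (by decide +kernel)
theorem r1184 : PImp [l1111, o1101] l1184 := rupP (by decide +kernel)
theorem r1185 : PImp [l1111, o1099] l1185 := rupP (by decide +kernel)
theorem r1186 : PImp [l1113, o1086] l1186 := rupP (by decide +kernel)
theorem r1187 : PImp [l1114, o1087] l1187 := rupP (by decide +kernel)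
theorem r1188 : PImp [l1083, o974] l1188 := rupP (by decide +kernel)
theorem r1189 : PImp [l1083, o975] l1189 := rupP (by decide +kernel)
theorem r1190 : PImp [l1111, o1083] l1190 := rupP (by decide +kernel)
theorem r1191 : PImp [l1111, o1084] l1191 := rupP (by decide +kernel)
theorem r1192 : PImp [l1111, o1085] l1192 := rupP (by decide +kernel)
theorem r1193 : PImp [l1083, o973] l1193 := rupP (by decide +kernel)
theorem r1194 : PImp [l1111, o1081] l1194 := rupP (by decide +kernel)
theorem r1195 : PImp [l1111, o1082] l1195 := rupP (by decide +kernel)
theorem r1196 : PImp [l1111, o1080] l1196 := rupP (by decide +kernel)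
theorem r1197 : PImp [l1113, o1066] l1197 := rupP (by decide +kernel)
theorem r1198 : PImp [l1083, o968] l1198 := rupP (by decide +kernel)
theorem r1199 : PImp [l1111, o1063] l1199 := rupP (by decide +kernel)
theorem r1200 : PImp [l1111, o1064] l1200 := rupP (by decide +kernel)
theorem r1201 : PImp [l1111, o1065] l1201 := rupP (by decide +kernel)
theorem r1202 : PImp [l1083, o967] l1202 := rupP (by decide +kernel)
theorem r1203 : PImp [l1111, o1061] l1203 := rupP (by decide +kernel)
theorem r1204 : PImp [l1111, o1062] l1204 := rupP (by decide +kernel)
theorem r1205 : PImp [l1111, o1060] l1205 := rupP (by decide +kernel)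
theorem r1206 : PImp [l1112, o841] l1206 := rupP (by decide +kernel)
theorem r1207 : PImp [l1112, o844] l1207 := rupP (by decide +kernel)
theorem r1208 : PImp [l1112, o845] l1208 := rupP (by decide +kernel)
theorem r1209 : PImp [l1112, l818] l1209 := rupP (by decide +kernel)
theorem r1210 : PImp [l1112, l819] l1210 := rupP (by decide +kernel)
theorem r1211 : PImp [l1112, o1034] l1211 := rupP (by decide +kernel)
theorem r1212 : PImp [l1112, o1045] l1212 := rupP (by decide +kernel)
theorem r1213 : PImp [l1112, o1046] l1213 := rupP (by decide +kernel)
theorem r1214 : PImp [l1110, o1005] l1214 := rupP (by decide +kernel)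
theorem r1215 : PImp [l1110, o1007] l1215 := rupP (by decide +kernel)
theorem r1216 : PImp [l1110, o1008] l1216 := rupP (by decide +kernel)
theorem r1217 : PImp [l1110, l820] l1217 := rupP (by decide +kernel)
theorem r1218 : PImp [l1110, l821] l1218 := rupP (by decide +kernel)
theorem r1219 : PImp [l1110, o1019] l1219 := rupP (by decide +kernel)
theorem r1220 : PImp [l1110, o1021] l1220 := rupP (by decide +kernel)
theorem r1221 : PImp [l1110, o1022] l1221 := rupP (by decide +kernel)
theorem r1222 : PImp [l1110, o1053] l1222 := rupP (by decide +kernel)
theorem r1223 : PImp [l1110, o1054] l1223 := rupP (by decide +kernel)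
theorem r1224 : PImp [l1110, o1056] l1224 := rupP (by decide +kernel)
theorem r1225 : PImp [l1110, o1057] l1225 := rupP (by decide +kernel)
theorem r1226 : PImp [l1110, o1029] l1226 := rupP (by decide +kernel)
theorem r1227 : PImp [l1110, o1031] l1227 := rupP (by decide +kernel)
theorem r1228 : PImp [l1110, o1032] l1228 := rupP (by decide +kernel)
theorem r1229 : PImp [l1110, o1039] l1229 := rupP (by decide +kernel)
theorem r1230 : PImp [l1110, o1041] l1230 := rupP (by decide +kernel)
theorem r1231 : PImp [l1110, o1042] l1231 := rupP (by decide +kernel)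
theorem r1232 : PImp [l1083, o955] l1232 := rupP (by decide +kernel)
theorem r1233 : PImp [l1083, o954] l1233 := rupP (by decide +kernel)
theorem r1234 : PImp [l1111, o897] l1234 := rupP (by decide +kernel)
theorem r1235 : PImp [l1113, o895] l1235 := rupP (by decide +kernel)
theorem r1236 : PImp [l1113, o893] l1236 := rupP (by decide +kernel)
theorem r1237 : PImp [l1111, o892] l1237 := rupP (by decide +kernel)
theorem r1238 : PImp [l1113, o891] l1238 := rupP (by decide +kernel)
theorem r1239 : PImp [l1111, o890] l1239 := rupP (by decide +kernel)
theorem r1240 : PImp [l1083, o837] l1240 := rupP (by decide +kernel)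
theorem r1241 : PImp [l1083, o838] l1241 := rupP (by decide +kernel)
theorem r1242 : PImp [l1115, l864] l1242 := rupP (by decide +kernel)
theorem r1243 : PImp [l1115, l865] l1243 := rupP (by decide +kernel)
theorem r1244 : PImp [l1083, l1017] l1244 := rupP (by decide +kernel)
theorem r1245 : PImp [l1083, l1018] l1245 := rupP (by decide +kernel)
theorem r1246 : PImp [l1083, l1023] l1246 := rupP (by decide +kernel)
theorem r1247 : PImp [l1083, l1024] l1247 := rupP (by decide +kernel)
theorem r1248 : PImp [l1114, l1025] l1248 := rupP (by decide +kernel)
theorem r1249 : PImp [l1114, l1026] l1249 := rupP (by decide +kernel)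
theorem r1250 : PImp [l1114, l1027] l1250 := rupP (by decide +kernel)
theorem r1251 : PImp [l1113, l1028] l1251 := rupP (by decide +kernel)
theorem r1252 : PImp [l1113, l1029] l1252 := rupP (by decide +kernel)
theorem r1253 : PImp [l1113, l1030] l1253 := rupP (by decide +kernel)
theorem r1254 : PImp [l1112, l1031] l1254 := rupP (by decide +kernel)
theorem r1255 : PImp [l1112, l1032] l1255 := rupP (by decide +kernel)
theorem r1256 : PImp [l1112, l1033] l1256 := rupP (by decide +kernel)
theorem r1257 : PImp [l1112, l1034] l1257 := rupP (by decide +kernel)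
theorem r1258 : PImp [l1111, l1035] l1258 := rupP (by decide +kernel)
theorem r1259 : PImp [l1110, l1036] l1259 := rupP (by decide +kernel)
theorem r1260 : PImp [l1110, l1037] l1260 := rupP (by decide +kernel)
theorem r1261 : PImp [l1083, o829] l1261 := rupP (by decide +kernel)
theorem r1262 : PImp [l1083, o833] l1262 := rupP (by decide +kernel)
theorem r1263 : PImp [l1083, o834] l1263 := rupP (by decide +kernel)
theorem r1264 : PImp [l1083, o956] l1264 := rupP (by decide +kernel)
theorem r1265 : PImp [l1083, o957] l1265 := rupP (by decide +kernel)
theorem r1266 : PImp [l1083, o958] l1266 := rupP (by decide +kernel)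
theorem r1267 : PImp [l1083, l1039] l1267 := rupP (by decide +kernel)
theorem r1268 : PImp [l1083, l1040] l1268 := rupP (by decide +kernel)
theorem r1269 : PImp [l1114, l1041] l1269 := rupP (by decide +kernel)
theorem r1270 : PImp [l1114, l1042] l1270 := rupP (by decide +kernel)
theorem r1271 : PImp [l1113, l1043] l1271 := rupP (by decide +kernel)
theorem r1272 : PImp [l1113, l1044] l1272 := rupP (by decide +kernel)
theorem r1273 : PImp [l1111, l1045] l1273 := rupP (by decide +kernel)
theorem r1274 : PImp [l1111, l1046] l1274 := rupP (by decide +kernel)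
theorem r1275 : PImp [l1110, l1108] l1275 := rupP (by decide +kernel)
theorem r1276 : PImp [l1110, l1109] l1276 := rupP (by decide +kernel)
theorem r1277 : PImp [o8543, o8833] l1277 := rupP (by decide +kernel)
theorem r1278 : PImp [o7867, o8414] l1278 := rupP (by decide +kernel)
theorem r1279 : PImp [o7918, o8249] l1279 := rupP (by decide +kernel)
theorem r1280 : PImp [l284, l350, l1135, o7501, o7509, l1010] l1280 := rupP (by decide +kernel)
theorem r1281 : PImp [o7401, l595] l1281 := rupP (by decide +kernel)
theorem r1282 : PImp [o7634, o7618] l1282 := rupP (by decide +kernel)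
theorem r1283 : PImp [l284, l448, l71, o7537, o7536] l1283 := rupP (by decide +kernel)
theorem r1284 : PImp [l448, l290, o7591, l71, o7599, o7598] l1284 := rupP (by decide +kernel)
theorem r1285 : PImp [l448, l284, l350, l1280, o7509, o7499] l1285 := rupP (by decide +kernel)
theorem r1286 : PImp [l443, l281, l100, l355, l65, o7475, o7476] l1286 := rupP (by decide +kernel)
theorem r1287 : PImp [l281, l100, l355, l443, l1286, l866, o7488, o7489] l1287 := rupP (by decide +kernel)
theorem r1288 : PImp [l448, l290, l350, l71, o7637, o7636] l1288 := rupP (by decide +kernel)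
theorem r1289 : PImp [l71, l73, o7522, l597, l458] l1289 := rupP (by decide +kernel)
theorem r1290 : PImp [l73, l285, l284, l102, l101, l361, l1289, l597, o7520] l1290 := rupP (by decide +kernel)
theorem r1291 : PImp [l448, l290, l71, o7547, o7549] l1291 := rupP (by decide +kernel)
theorem r1292 : PImp [l443, l348, l282, l284, l1281, l595, o7402, l866] l1292 := rupP (by decide +kernel)
theorem r1293 : PImp [l73, l71, l288, o5205, o7046, o7045, o7581, o7583] l1293 := rupP (by decide +kernel)
theorem r1294 : PImp [l288, l361, o7655, o7653] l1294 := rupP (by decide +kernel)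
theorem r1295 : PImp [l107, l450, l448, l288, l597, l77, o7657, o7659] l1295 := rupP (by decide +kernel)
theorem r1296 : PImp [l288, l361, l77, o7509, o7507] l1296 := rupP (by decide +kernel)
theorem r1297 : PImp [l350, l103, l71, o7432, l1133] l1297 := rupP (by decide +kernel)
theorem r1298 : PImp [l284, l1287, l348, l282, l443, l65, o7413, o7414] l1298 := rupP (by decide +kernel)
theorem r1299 : PImp [l443, l282, l284, l1287, l348, l1298, l866, o7425, o7426] l1299 := rupP (by decide +kernel)
theorem r1300 : PImp [o5205, l1294] l1300 := rupP (by decide +kernel)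
theorem r1301 : PImp [l361, l1295] l1301 := rupP (by decide +kernel)
theorem r1302 : PImp [l361, l107, l77, o7636, l597, o7634] l1302 := rupP (by decide +kernel)
theorem r1303 : PImp [o6341, o6583] l1303 := rupP (by decide +kernel)
theorem r1304 : PImp [o7438, l1297] l1304 := rupP (by decide +kernel)
theorem r1305 : PImp [o6730, o6454] l1305 := rupP (by decide +kernel)
theorem r1306 : PImp [o7806, o7726] l1306 := rupP (by decide +kernel)
theorem r1307 : PImp [l1306, o7764, o7683] l1307 := rupP (by decide +kernel)
theorem r1308 : PImp [o7764, o7683] l1308 := rupP (by decide +kernel)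
theorem r1309 : PImp [o4413, o6508, l1149] l1309 := rupP (by decide +kernel)
theorem r1310 : PImp [l101, l103, l1292, l290, l71, o7439, o7438, l1296] l1310 := rupP (by decide +kernel)
theorem r1311 : PImp [o6699, o6417] l1311 := rupP (by decide +kernel)
theorem r1312 : PImp [l1250, l1248] l1312 := rupP (by decide +kernel)
theorem r1313 : PImp [l331, o2913, l563, o6538, l797, o4509, o7110, o7208] l1313 := rupP (by decide +kernel)
theorem r1314 : PImp [o7448, o7435] l1314 := rupP (by decide +kernel)
theorem r1315 : PImp [o7516, o7658] l1315 := rupP (by decide +kernel)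
theorem r1316 : PImp [l1137, l1242, l1255, l1257] l1316 := rupP (by decide +kernel)
theorem r1317 : PImp [l352, l350, l288, l107, l79, l908, l597, l458, o7520, o7522] l1317 := rupP (by decide +kernel)
theorem r1318 : PImp [o7657, l597] l1318 := rupP (by decide +kernel)
theorem r1319 : PImp [l1135, l1299, l290, l288, l287, l107, l106, l350, l351, l352, l1290, o7518, l1317, o7516, l1315, l459, l1318] l1319 := rupP (by decide +kernel)
theorem r1320 : PImp [l285, l284, l450, l448, l107, l1135, l1301, l1284, o7589, l77, o7598, l597, o7596] l1320 := rupP (by decide +kernel)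
theorem r1321 : PImp [l1320, l103, l284, l448, l71, o7575, o7577] l1321 := rupP (by decide +kernel)
theorem r1322 : PImp [o7524, o7513] l1322 := rupP (by decide +kernel)
theorem r1323 : PImp [l450, l448, l77, o7644, o7646] l1323 := rupP (by decide +kernel)
theorem r1324 : PImp [l77, l76, l450, l449, l448, l363, o7536, o7535, o7581, l293, o7582] l1324 := rupP (by decide +kernel)
theorem r1325 : PImp [l1324, l361] l1325 := rupP (by decide +kernel)
theorem r1326 : PImp [l1325, l77, l76, l450, l449, l448, l360, o7612, o7654, o7610, l293] l1326 := rupP (by decide +kernel)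
theorem r1327 : PImp [l350, l290, l71, l448, l1135, o7604, o7602] l1327 := rupP (by decide +kernel)
theorem r1328 : PImp [l338, l1250, l1252, l433] l1328 := rupP (by decide +kernel)
theorem r1329 : PImp [l350, l1321, l1135, l1291] l1329 := rupP (by decide +kernel)
theorem r1330 : PImp [l71, l448, l350, l1321, l290, l1329, l103, o7527, o7529] l1330 := rupP (by decide +kernel)
theorem r1331 : PImp [l1330, l361, l360, l908, l1163, l450, l449, l293, l1318, o7658] l1331 := rupP (by decide +kernel)
theorem r1332 : PImp [l362, l293, l108, l76, l77, o7654, o7653] l1332 := rupP (by decide +kernel)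
theorem r1333 : PImp [o6509, o4581, o6783, l1218] l1333 := rupP (by decide +kernel)
theorem r1334 : PImp [l69, l102, l283, o7454, o7456] l1334 := rupP (by decide +kernel)
theorem r1335 : PImp [l459, l108, l79, l1334, l293, o7497, o7498] l1335 := rupP (by decide +kernel)
theorem r1336 : PImp [l443, l351, l352, l355, l1335, l459, l458, l108, l107, l104, l102, l293, o7507, l1285, o7508, l281, l68, l72, o7456, o7455] l1336 := rupP (by decide +kernel)
theorem r1337 : PImp [l351, l355, l1335] l1337 := rupP (by decide +kernel)
theorem r1338 : PImp [l355, l352, l351, l102, l443, l1336, l1335, l283, o7461, o7456, o7464] l1338 := rupP (by decide +kernel)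
theorem r1339 : PImp [l353, l351, l66, l68, o7487, o7485] l1339 := rupP (by decide +kernel)
theorem r1340 : PImp [l459, l353, l352, l351, l1163, l1162, l286, l289, l1339, l867, o7474, o7472, l79, o7485, o7484] l1340 := rupP (by decide +kernel)
theorem r1341 : PImp [l352, l351, l1163, l293, l597, l1318, l79, o7658] l1341 := rupP (by decide +kernel)
theorem r1342 : PImp [l75, o7516, o7517] l1342 := rupP (by decide +kernel)
theorem r1343 : PImp [l362, l293, l459, l1163, l79, o7521, o7520] l1343 := rupP (by decide +kernel)
theorem r1344 : PImp [o9169, o7089] l1344 := rupP (by decide +kernel)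
theorem r1345 : PImp [l75, o7451, o7450] l1345 := rupP (by decide +kernel)
theorem r1346 : PImp [o8263, o8176] l1346 := rupP (by decide +kernel)
theorem r1347 : PImp [o7801, o7117] l1347 := rupP (by decide +kernel)
theorem r1348 : PImp [l217, l1186, o7721, o4600, o8057, o8050] l1348 := rupP (by decide +kernel)
theorem r1349 : PImp [l261, l1347, l1211, o7760, o4600, o8104, o8096] l1349 := rupP (by decide +kernel)
theorem r1350 : PImp [l213, l1226, o7386, o6785, o8009, o8005] l1350 := rupP (by decide +kernel)
theorem r1351 : PImp [l1250, l332, l213, l1348, l1226, l1350, l1218, l1149, o6511, o7192, o7676, o7680] l1351 := rupP (by decide +kernel)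
theorem r1352 : PImp [l293, l1163, l79, l597, l362, o7596, o7597] l1352 := rupP (by decide +kernel)
theorem r1353 : PImp [l79, l289, l1163, l362, o7557, o7558] l1353 := rupP (by decide +kernel)
theorem r1354 : PImp [l1352, l1331, l78] l1354 := rupP (by decide +kernel)
theorem r1355 : PImp [l1354, l289, l1163, l76, l1330, l360, l361, o7619, l1282] l1355 := rupP (by decide +kernel)
theorem r1356 : PImp [l79, l293, l108, l362, o7573, o7574] l1356 := rupP (by decide +kernel)
theorem r1357 : PImp [l1243, l1138, l1254, l1256] l1357 := rupP (by decide +kernel)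
theorem r1358 : PImp [l101, l103, l1292] l1358 := rupP (by decide +kernel)
theorem r1359 : PImp [l337, o2837, l1141, o7406, o4426] l1359 := rupP (by decide +kernel)
theorem r1360 : PImp [l333, l336, l1253, l1250, l433] l1360 := rupP (by decide +kernel)
theorem r1361 : PImp [o6614, o6747] l1361 := rupP (by decide +kernel)
theorem r1362 : PImp [l293, l292, l1163, l1162, l459, l454, l356, l1342, l1343] l1362 := rupP (by decide +kernel)
theorem r1363 : PImp [l293, l292, l79, l74, l459, l454, l1162, l1163, o7515, l1362, o7446, o7516, o7445] l1363 := rupP (by decide +kernel)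
theorem r1364 : PImp [l77, l458, l450, l445, l1363, l102, l104, l107, l1337, o7497, l1292, o7499, l1297] l1364 := rupP (by decide +kernel)
theorem r1365 : PImp [l1364, l288, l450, l445, l102, l104, l1337, l1292] l1365 := rupP (by decide +kernel)
theorem r1366 : PImp [l77, l361, l352, l458, l450, l288, o7409, l1358, o7411] l1366 := rupP (by decide +kernel)
theorem r1367 : PImp [l79, l362, l459, l1163, l1366, l293, o7444, o7445] l1367 := rupP (by decide +kernel)
theorem r1368 : PImp [l361, l352, l458, l450, l77, l1367, l102, l104, l107, l1292, l1297] l1368 := rupP (by decide +kernel)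
theorem r1369 : PImp [l1368, l361, l352, l458, l450, l102, l104, l107, l1292, l1304, l288, o7436] l1369 := rupP (by decide +kernel)
theorem r1370 : PImp [l1369, l1163, l1162, l1368, l362, l354, l459, l454, l287, l288, l291, l1345, o7449, o7446, o7450, o7445] l1370 := rupP (by decide +kernel)
theorem r1371 : PImp [l1369, l1163, l1162, l1368, l362, l354, l459, l454, l292, l293, o7449, l1345, o7450, o7446, o7445] l1371 := rupP (by decide +kernel)
theorem r1372 : PImp [l1163, l459, l450, l352, l362, l1370, l1371, l284, l1358, l289, o7422, l1135, o7423, o7410, l72, o7413] l1372 := rupP (by decide +kernel)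
theorem r1373 : PImp [o7443, l1197, o7431, l1133] l1373 := rupP (by decide +kernel)
theorem r1374 : PImp [l984, l985, l1373, l150, l253, l254, l1358, l595, o7413, l1203, o7408] l1374 := rupP (by decide +kernel)
theorem r1375 : PImp [l104, l450, l595, l1338, o7455] l1375 := rupP (by decide +kernel)
theorem r1376 : PImp [o4416, o6509, l1149] l1376 := rupP (by decide +kernel)
theorem r1377 : PImp [l1369, l107, l458, l450, l772, l1011, l1310, l350, l1336, l1296, o7461, o7462] l1377 := rupP (by decide +kernel)
theorem r1378 : PImp [o6796, l563] l1378 := rupP (by decide +kernel)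
theorem r1379 : PImp [o8895, o6472] l1379 := rupP (by decide +kernel)
theorem r1380 : PImp [o4601, o7714, o7681, l1187] l1380 := rupP (by decide +kernel)
theorem r1381 : PImp [l348, l284, l282, l963, l962, l102, l104, o7530, o7529] l1381 := rupP (by decide +kernel)
theorem r1382 : PImp [l597, o7634] l1382 := rupP (by decide +kernel)
theorem r1383 : PImp [l108, l105, l286, l289, o7610, l1243, o5131, o5132, o7603, o7611, o7601] l1383 := rupP (by decide +kernel)
theorem r1384 : PImp [l355, l284, l282, l963, l962, l443, o7455, o7456] l1384 := rupP (by decide +kernel)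
theorem r1385 : PImp [l284, l961, l350, l351, l352, l353, l1382, l102, l104, l107, l108, l1383, o7653, l1384, l1327, l1326] l1385 := rupP (by decide +kernel)
theorem r1386 : PImp [l614, o8223] l1386 := rupP (by decide +kernel)
theorem r1387 : PImp [l1382, l1352, l1353] l1387 := rupP (by decide +kernel)
theorem r1388 : PImp [l457, l449, l284, l983, l981, l102, l104, l107, l1292, l350, o7463, o7462] l1388 := rupP (by decide +kernel)
theorem r1389 : PImp [l284, l983, l981, l449, l457, l1388, l1382, l352, l361, l1358, l1135, o7424, o7425] l1389 := rupP (by decide +kernel)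
theorem r1390 : PImp [l291, l288, l287, l986, l983, l982, o5201, l1387, l105, l108, l1332, l356, o7582, o7584] l1390 := rupP (by decide +kernel)
theorem r1391 : PImp [l108, l104, l449, l986, l981, l351, o7437, o7439] l1391 := rupP (by decide +kernel)
theorem r1392 : PImp [l455, l986, l982, l105, l108, l1391, o3354, o7508, o7510] l1392 := rupP (by decide +kernel)
theorem r1393 : PImp [l986, l982, l287, l290, l291, l1390, l455, l1392, l1162, l1163, l1382, o7521, l354, l1345] l1393 := rupP (by decide +kernel)
theorem r1394 : PImp [l351, l360, l1358, l1283] l1394 := rupP (by decide +kernel)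
theorem r1395 : PImp [l986, l983, l981, l1389, l1387, l104, l107, l108, l1394, l362, l1332, o7610, l289, o7611] l1395 := rupP (by decide +kernel)
theorem r1396 : PImp [l982, l1395, l287, l290, l291, l1390, l1393, l455, l1392, l1162, l1163, l1382, o7523, l362, l1345] l1396 := rupP (by decide +kernel)
theorem r1397 : PImp [l71, l1135, l284, o3353, l1330, o5200, o7413, o7411] l1397 := rupP (by decide +kernel)
theorem r1398 : PImp [l350, l71, l1135, l284, o5200, o7475, o7473] l1398 := rupP (by decide +kernel)
theorem r1399 : PImp [l1135, l284, l71, l1397, l350, l1398, l448, o7622, o7620] l1399 := rupP (by decide +kernel)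
theorem r1400 : PImp [l614, o7978] l1400 := rupP (by decide +kernel)
theorem r1401 : PImp [l103, l1394, l363, l284, l448, o7613, o7612] l1401 := rupP (by decide +kernel)
theorem r1402 : PImp [l103, l101, l284, l282, l65, l67, l1394, l363, o3353, o3351, l1401, l443, o7463, o7464] l1402 := rupP (by decide +kernel)
theorem r1403 : PImp [l866, l980, l284, l282, l355, l1384, o5198, o7604, o7605] l1403 := rupP (by decide +kernel)
theorem r1404 : PImp [l1162, l1163, l597, l1352, l354, l362, l455, l1345] l1404 := rupP (by decide +kernel)
theorem r1405 : PImp [l963, l68, l67, l66, l287, l288, l290, l291, l1404, l105, l108, l1392, o5201, l1332, o7582, l356, o7584] l1405 := rupP (by decide +kernel)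
theorem r1406 : PImp [l292, l293, l1404] l1406 := rupP (by decide +kernel)
theorem r1407 : PImp [l1402, l1136, l1135, l106, l284, l67, l65, l449, l455, l457, l1339, o3353, o7425, o7424] l1407 := rupP (by decide +kernel)
theorem r1408 : PImp [l66, l68, l963, l1396, l1405, l1402, l106, l107, l1136, l1406, l286, l289, l1407, o5201, o7635, l356, o7558, o7560] l1408 := rupP (by decide +kernel)
theorem r1409 : PImp [l1161, l608, o8056, l295] l1409 := rupP (by decide +kernel)
theorem r1410 : PImp [o8010, o8105] l1410 := rupP (by decide +kernel)
theorem r1411 : PImp [l1138, o5131, o7590] l1411 := rupP (by decide +kernel)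
theorem r1412 : PImp [l1250, l1141] l1412 := rupP (by decide +kernel)
theorem r1413 : PImp [l103, l101, l866, l282, l284, l1403, l1292, l348, o5198, o7529, o7530] l1413 := rupP (by decide +kernel)
theorem r1414 : PImp [l199, l198, l332, o2838, o2840, l1309, l1376, o6782, o4580, l1218] l1414 := rupP (by decide +kernel)
theorem r1415 : PImp [o7936, o8263] l1415 := rupP (by decide +kernel)
theorem r1416 : PImp [l1328, o3147, l1361, o6361] l1416 := rupP (by decide +kernel)
theorem r1417 : PImp [o9058, o6361] l1417 := rupP (by decide +kernel)
theorem r1418 : PImp [o6666, l564] l1418 := rupP (by decide +kernel)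
theorem r1419 : PImp [l1135, l448, l1288, o7561, l1302, o7559] l1419 := rupP (by decide +kernel)
theorem r1420 : PImp [l289, l286, l65, l103, l1394, l68, l1162, l1163, o7635, l449, l455, l1358, l1339] l1420 := rupP (by decide +kernel)
theorem r1421 : PImp [l65, l103, l1394, l362, l963, l1395, l68, l289, l1420, l108, l1388, o7610, o7611] l1421 := rupP (by decide +kernel)
theorem r1422 : PImp [l963, l67, l65, l103, l1394, l362, l1421, l597, l1388, l1332] l1422 := rupP (by decide +kernel)
theorem r1423 : PImp [l68, l66, l1422, l288, l1406, l835, l290, l960, l67, l65, l833, l103, l101, l906, o3356, o3357, l1294, l1332, l444, l448, o7509, l455, o5132, o7511, l1242, l348, o7439, o7440, l198, o7385, l1414, l337, l1250, l1257, l1254, l428, o4425, o6636, l1218, o2927] l1423 := rupP (by decide +kernel)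
theorem r1424 : PImp [l66, l68, l963, l1408, l1422, l287, l288, l290, l1406, l108, l1423, l362, o7581, l1391, o7582] l1424 := rupP (by decide +kernel)
theorem r1425 : PImp [l1415, l1400] l1425 := rupP (by decide +kernel)
theorem r1426 : PImp [l754, o7892, o7593] l1426 := rupP (by decide +kernel)
theorem r1427 : PImp [l52, l47, o7430] l1427 := rupP (by decide +kernel)
theorem r1428 : PImp [o7101, o9155] l1428 := rupP (by decide +kernel)
theorem r1429 : PImp [l807, o6664, o6663] l1429 := rupP (by decide +kernel)
theorem r1430 : PImp [l933, l1429] l1430 := rupP (by decide +kernel)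
theorem r1431 : PImp [l1314, l52] l1431 := rupP (by decide +kernel)
theorem r1432 : PImp [l1163, l1162, l79, l77, l74, l73, l69, l103, l1413, l287, l288, l290, l291, l1331, o5200, l1297, l360, l361, o7499, l1364, l1318, o7501, o7658, l358, l455, o5132, o7446, l1242] l1432 := rupP (by decide +kernel)
theorem r1433 : PImp [l843, l844, o6664, o6646, l930] l1433 := rupP (by decide +kernel)
theorem r1434 : PImp [l1411, l1242, o5125, o7446] l1434 := rupP (by decide +kernel)
theorem r1435 : PImp [o7441, o8964] l1435 := rupP (by decide +kernel)
theorem r1436 : PImp [o7465, o7492] l1436 := rupP (by decide +kernel)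
theorem r1437 : PImp [l288, l1354, l107, l77, l1356, l1330, l1323] l1437 := rupP (by decide +kernel)
theorem r1438 : PImp [l1163, l1162, l351, l352, l353, l1341, l597, l1318, l455, l74, l79, l1315, o7517] l1438 := rupP (by decide +kernel)
theorem r1439 : PImp [l1162, l1438, l358, l1434, l74, l75, l1406] l1439 := rupP (by decide +kernel)
theorem r1440 : PImp [l1163, l1162, l454, l459, l1362, o7446, l75, l1345, l1343] l1440 := rupP (by decide +kernel)
theorem r1441 : PImp [l1439, l449, l1354] l1441 := rupP (by decide +kernel)
theorem r1442 : PImp [l1440, l1441] l1442 := rupP (by decide +kernel)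
theorem r1443 : PImp [l653, l647] l1443 := rupP (by decide +kernel)
theorem r1444 : PImp [l1350, o8057, o7721] l1444 := rupP (by decide +kernel)
theorem r1445 : PImp [o7315, o7720] l1445 := rupP (by decide +kernel)
theorem r1446 : PImp [o6784, o7717] l1446 := rupP (by decide +kernel)
theorem r1447 : PImp [l489, l497, o8942, o8885, l400] l1447 := rupP (by decide +kernel)
theorem r1448 : PImp [o2197, o2198] l1448 := rupP (by decide +kernel)
theorem r1449 : PImp [o7101, o9140] l1449 := rupP (by decide +kernel)
theorem r1450 : PImp [l79, l289, l1163, l362, o7545, o7546] l1450 := rupP (by decide +kernel)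
theorem r1451 : PImp [l1152, o8973, o9004, l314] l1451 := rupP (by decide +kernel)
theorem r1452 : PImp [l350, l1330, l595] l1452 := rupP (by decide +kernel)
theorem r1453 : PImp [l1163, l284, l65, l67, l68, l1422, l1419, l1387, o7635, l1135, l351, o7425] l1453 := rupP (by decide +kernel)
theorem r1454 : PImp [l336, l1254, l1312, l1138, o7530, o5124] l1454 := rupP (by decide +kernel)
theorem r1455 : PImp [o7292, o8175] l1455 := rupP (by decide +kernel)
theorem r1456 : PImp [l866, l284, l282, l348, o7549, o7550] l1456 := rupP (by decide +kernel)
theorem r1457 : PImp [l1135, l284, l350, o7622, l1302, o7620] l1457 := rupP (by decide +kernel)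
theorem r1458 : PImp [l1163, l1162, l284, l65, l67, l1422, l1453, l1419, l1135, l455, o7425, l1339] l1458 := rupP (by decide +kernel)
theorem r1459 : PImp [l1152, l1153, l1154, o7217, o7228, o6556, o6569, l932] l1459 := rupP (by decide +kernel)
theorem r1460 : PImp [l176, l844, l1433, o6646, o6665] l1460 := rupP (by decide +kernel)
theorem r1461 : PImp [l176, l167, l929, o6624, l1430, o6623] l1461 := rupP (by decide +kernel)
theorem r1462 : PImp [l1378, o6763, o6743] l1462 := rupP (by decide +kernel)
theorem r1463 : PImp [l1346, o7840] l1463 := rupP (by decide +kernel)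
theorem r1464 : PImp [l348, l282, o5125, o5124, l1454, l1456] l1464 := rupP (by decide +kernel)
theorem r1465 : PImp [l332, l1250, l428, l1259, l1138, l431, l329, l1464, o1226, l451, l1299] l1465 := rupP (by decide +kernel)
theorem r1466 : PImp [l348, l332, l1250, l431, l329, l284, l282, l866, l1465, l100, l595, l1454, l451] l1466 := rupP (by decide +kernel)
theorem r1467 : PImp [l69, l66, l107, l1377, l1422] l1467 := rupP (by decide +kernel)
theorem r1468 : PImp [l355, l866, l980, l284, l282, l102, l104, l1384, o7604, o5121, o7605] l1468 := rupP (by decide +kernel)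
theorem r1469 : PImp [l866, l980, l355, l284, l282, l100, l1384, o7604, o5121, o7605] l1469 := rupP (by decide +kernel)
theorem r1470 : PImp [l448, l1457] l1470 := rupP (by decide +kernel)
theorem r1471 : PImp [l348, l282, l102, l104, l1467, o7530, l1292, o5121] l1471 := rupP (by decide +kernel)
theorem r1472 : PImp [o3355, o7563, o7557] l1472 := rupP (by decide +kernel)
theorem r1473 : PImp [o7410, o7423] l1473 := rupP (by decide +kernel)
theorem r1474 : PImp [l289, l1163, o7634, l362, l1473, l1353, o7180, l1425, l1463, o7890, o8223] l1474 := rupP (by decide +kernel)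
theorem r1475 : PImp [l1472, o7638] l1475 := rupP (by decide +kernel)
theorem r1476 : PImp [l103, o7561, l1288] l1476 := rupP (by decide +kernel)
theorem r1477 : PImp [l203, l77, l989, l1330, o7602, o7526, l1270, o4582] l1477 := rupP (by decide +kernel)
theorem r1478 : PImp [l284, l1467, l866, l1375, l867, l980, l351, l352, l353, l1384, l1327, l77, l1332, l1383] l1478 := rupP (by decide +kernel)
theorem r1479 : PImp [l837, l835, l907, l906, o6783, o4584, o7534, o7535, l255, o7581, o7580] l1479 := rupP (by decide +kernel)
theorem r1480 : PImp [l332, l1250, l329, l1316, l837, l907, l1369, l1375, o7461, o4427, o2928, l258, o7507, o7506] l1480 := rupP (by decide +kernel)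
theorem r1481 : PImp [o2839, l835, l906, l1333, l1479, l1149, l1218] l1481 := rupP (by decide +kernel)
theorem r1482 : PImp [o2834, l1481] l1482 := rupP (by decide +kernel)
theorem r1483 : PImp [l986, l982, l1163, l1162, l292, l293, l1406, l1362, l454, l459, l1343, l1345] l1483 := rupP (by decide +kernel)
theorem r1484 : PImp [l1483, l289, l288, l286, l986, l980, l1163, l459, l1372, l1407, o7484, o3357, o7485] l1484 := rupP (by decide +kernel)
theorem r1485 : PImp [o8142, o7606] l1485 := rupP (by decide +kernel)
theorem r1486 : PImp [o5526, o7762, o7763] l1486 := rupP (by decide +kernel)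
theorem r1487 : PImp [l294, l207, l602, l773, o449, o7681, o7835, l636, o2941] l1487 := rupP (by decide +kernel)
theorem r1488 : PImp [o3587, o3588, o3389, o7937, o7557, o7564] l1488 := rupP (by decide +kernel)
theorem r1489 : PImp [l1163, o1229, l831, o5204, l288, o1232, o1071, o1400, o1401, o8107, o5208, o5209, o7762, o5525, o5526, o4586, l1487, o2056, o2055, l1488, l1486, o446, o7745, o7742, o7781] l1489 := rupP (by decide +kernel)
theorem r1490 : PImp [o6554, o7794] l1490 := rupP (by decide +kernel)
theorem r1491 : PImp [l1436, l53, o7478] l1491 := rupP (by decide +kernel)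
theorem r1492 : PImp [o3595, o3591] l1492 := rupP (by decide +kernel)
theorem r1493 : PImp [l288, l285, l283, l963, l962, l100, l1299, o7622, l348, l1456, o7414] l1493 := rupP (by decide +kernel)
theorem r1494 : PImp [o7638, o7490] l1494 := rupP (by decide +kernel)
theorem r1495 : PImp [o7893, o8225] l1495 := rupP (by decide +kernel)
theorem r1496 : PImp [l732, o8322, o8127] l1496 := rupP (by decide +kernel)
theorem r1497 : PImp [o8038, o8064] l1497 := rupP (by decide +kernel)
theorem r1498 : PImp [o8568, o7035] l1498 := rupP (by decide +kernel)
theorem r1499 : PImp [o8581, l628] l1499 := rupP (by decide +kernel)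
theorem r1500 : PImp [l300, l299, l385, l382, l113, l114, l1498, l90, l1499] l1500 := rupP (by decide +kernel)
theorem r1501 : PImp [l385, l382, l299, l300, l1500, l1159, l1157, o8536, l87, l88, o8554, o8553, l484, o8842, o8841] l1501 := rupP (by decide +kernel)
theorem r1502 : PImp [l296, l386, l469, l111, l113, o8455, l83, o8476, o8475] l1502 := rupP (by decide +kernel)
theorem r1503 : PImp [l1158, l1157, l304, l303, l385, l382, l87, l88, o8519, o8517, l484, o8810, o8809] l1503 := rupP (by decide +kernel)
theorem r1504 : PImp [l469, l386, l1501, l296, l1502, l1157, l1503, l83, o8495, o8455, o8497] l1504 := rupP (by decide +kernel)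
theorem r1505 : PImp [o8316, o6514] l1505 := rupP (by decide +kernel)
theorem r1506 : PImp [l41, o8558] l1506 := rupP (by decide +kernel)
theorem r1507 : PImp [o6538, o6388] l1507 := rupP (by decide +kernel)
theorem r1508 : PImp [l1507, o6369, o6492] l1508 := rupP (by decide +kernel)
theorem r1509 : PImp [l663, o7785] l1509 := rupP (by decide +kernel)
theorem r1510 : PImp [l598, o7990] l1510 := rupP (by decide +kernel)
theorem r1511 : PImp [l175, l174, o4308, o4309, o6492, l929, o6472, o6473] l1511 := rupP (by decide +kernel)
theorem r1512 : PImp [l331, l798, l786, l1021, o4255, l1270] l1512 := rupP (by decide +kernel)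
theorem r1513 : PImp [l843, l801, l314, l249, o6496, o6476, l1055, o7176] l1513 := rupP (by decide +kernel)
theorem r1514 : PImp [l1412, o4570, l801, o3122, o2797, l1513, l279, l1311, o6409] l1514 := rupP (by decide +kernel)
theorem r1515 : PImp [o6409, l523] l1515 := rupP (by decide +kernel)
theorem r1516 : PImp [l1412, l428, l1260, l1259, o4570, l843, l801, l310, l279, l1515, l880, o6417, o9092, o6332, o7040] l1516 := rupP (by decide +kernel)
theorem r1517 : PImp [l236, l241, l806, l917, l918, o6369, o6370] l1517 := rupP (by decide +kernel)
theorem r1518 : PImp [o2778, l1412, o4570, l806, l801, o2703, l1516, l241, l249, l1517, l932, o6359, o6361, o3135, l1513] l1518 := rupP (by decide +kernel)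
theorem r1519 : PImp [l932, l236, l249, l241, l313, l841, l806, l801, o6359, o2905, o6361, o2768, o2778, o6358, l882, o6369, o7089] l1519 := rupP (by decide +kernel)
theorem r1520 : PImp [o4569, o4570, l1055, l932, l249, l241, l314, l843, l806, l801, l1519, o6473, o6476, o2914, o6361, o7076] l1520 := rupP (by decide +kernel)
theorem r1521 : PImp [o4308, o4309, o4312, l1520, l326, o4566, l932, l236, l233, l249, l241, l309, l1222, l806, l801, o3125, o6473, o6476, o3227, o3209, l1511, o6472, o7183, l937] l1521 := rupP (by decide +kernel)
theorem r1522 : PImp [l1055, l932, l249, l241, l314, o4312, o4309, o4308, l843, l806, l801, o4570, l1520, l1521, o6359, o6361, o3139, o6476, o7176] l1522 := rupP (by decide +kernel)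
theorem r1523 : PImp [l932, l249, l241, l806, l801, o6359, o2764, o6361] l1523 := rupP (by decide +kernel)
theorem r1524 : PImp [l236, l233, l249, l241, l314, l306, o4312, o4309, o4308, o4232, l843, l806, l801, l932, l1055, l1522, l1250, l1412, l332, l878, l870, l1523, o6473, o2756, o2763, o6476, l1511, o6472, o2914, o6361, o2921, l933, l891, o7076, o6491, l489, l1175, o8942] l1524 := rupP (by decide +kernel)
theorem r1525 : PImp [l1524, l918, l233, l249, l241, o4312, o4309, l806, l801, o6493, l1511, o6496, o3209, o3227] l1525 := rupP (by decide +kernel)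
theorem r1526 : PImp [o4312, o4309, o4308, l806, l801, l241, l249, l1524, l918, l1525, l1517, o6370, o2778, o6373, o2768] l1526 := rupP (by decide +kernel)
theorem r1527 : PImp [l880, l918, l917, l916, l1526, l279, l310, o4312, o4309, o4308, l843, l806, l801, l168, l172, o6370, o6369, o2778, o2760, o6492, o2768, o6491, o6332, o9027, l1312, l332, o2923, l1217, o7040, l1149, o9001] l1527 := rupP (by decide +kernel)
theorem r1528 : PImp [l918, l917, l1526, l279, o4312, o4309, o4308, l806, l801, l1527, l176, o6330, o6332, o6329, o2768, o2778] l1528 := rupP (by decide +kernel)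
theorem r1529 : PImp [l918, l917, l806, l801, l176, o6414, o6413, o6417, o3209, o3227] l1529 := rupP (by decide +kernel)
theorem r1530 : PImp [l1526, l279, o4312, o4309, o4308, o4232, l806, l916, l917, l918, l1528, l1529, l168, l172, o6493, l1511, o2763, o2777, o6369, o2694, l870, o6368, l1412, l1516, o9110, o2707, l1270] l1530 := rupP (by decide +kernel)
theorem r1531 : PImp [o7086, o7183] l1531 := rupP (by decide +kernel)
theorem r1532 : PImp [o9120, o8945] l1532 := rupP (by decide +kernel)
theorem r1533 : PImp [o8997, o8919] l1533 := rupP (by decide +kernel)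
theorem r1534 : PImp [l755, l751] l1534 := rupP (by decide +kernel)
theorem r1535 : PImp [o8564, o8420] l1535 := rupP (by decide +kernel)
theorem r1536 : PImp [l1137, l1243, o1320, o1319, l1534, o5796, l1535, o2377, o8483, l1102, o3813] l1536 := rupP (by decide +kernel)
theorem r1537 : PImp [o8584, o9117] l1537 := rupP (by decide +kernel)
theorem r1538 : PImp [l114, l113, o5451, o5468, o8424, l382, l385, l1499, o8568, l897] l1538 := rupP (by decide +kernel)
theorem r1539 : PImp [l1157, l624, l1502] l1539 := rupP (by decide +kernel)
theorem r1540 : PImp [o2166, o2378, l1539, o5448, o8595, o8777, o3547] l1540 := rupP (by decide +kernel)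
theorem r1541 : PImp [l480, l1159, l385, o8827, o8825] l1541 := rupP (by decide +kernel)
theorem r1542 : PImp [o549, o551, l746, o3813, o8776, o8465] l1542 := rupP (by decide +kernel)
theorem r1543 : PImp [o585, o591, l1536] l1543 := rupP (by decide +kernel)
theorem r1544 : PImp [o2375, l1542] l1544 := rupP (by decide +kernel)
theorem r1545 : PImp [l112, l476, o8536, o8389, l381] l1545 := rupP (by decide +kernel)
theorem r1546 : PImp [o7133, l1137, l112, o1321, o1320, l1543, l85, l88, o552, l1540, o2117, o2123, l1544, o2116, l1545, o5159, l1541, l381, o8693, o8694] l1546 := rupP (by decide +kernel)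
theorem r1547 : PImp [l88, l114, l1137, l1242, l310, o2364, o2118, o2124, o2138, l1538, o5778, o5400, o7132, o3550, o8858, l629, o8862] l1547 := rupP (by decide +kernel)
theorem r1548 : PImp [o3553, l33, l35, o5468, o8365, o7316] l1548 := rupP (by decide +kernel)
theorem r1549 : PImp [l113, l310, o2138, l1547, l90, l1499, o7119, o7317] l1549 := rupP (by decide +kernel)
theorem r1550 : PImp [l1137, l1243, o2375, l1544, o585, o591, l755, l1102, o5796, o3813, o8483] l1550 := rupP (by decide +kernel)
theorem r1551 : PImp [o585, o591, l1535, o5796, o8725, o8850, o3812] l1551 := rupP (by decide +kernel)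
theorem r1552 : PImp [o2375, o549, o551, l1544, l746, o1581, o3813, o8916, o8914, l1093, o8507] l1552 := rupP (by decide +kernel)
theorem r1553 : PImp [l400, l113, l114, o1376, l1549, l1552, l90, o581, o585, l1548, o3795, o3502, o3506, l1499, l302, o2128, o7071, o8517, o8525, o8905] l1553 := rupP (by decide +kernel)
theorem r1554 : PImp [l1445, o7696, o7780] l1554 := rupP (by decide +kernel)
theorem r1555 : PImp [l400, o7133, l1137, o5843, o3857, l1553, l112, o1320, o1319, l1546, l1550, o2377, o2116, o2118, o2124, l1551, l85, l88, l1545, o5159, l1541, l381, o8693, o8694] l1555 := rupP (by decide +kernel)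
theorem r1556 : PImp [l88, l85, l112, o5159, l1541, o8694, l381] l1556 := rupP (by decide +kernel)
theorem r1557 : PImp [o8536, o8388] l1557 := rupP (by decide +kernel)
theorem r1558 : PImp [l88, l1557, l1541, l1556, o8693] l1558 := rupP (by decide +kernel)
theorem r1559 : PImp [l1137, o1320, o1319, l1550, o2377, o2116, o2118, o2124, l1558, l1543, l1551] l1559 := rupP (by decide +kernel)
theorem r1560 : PImp [l1137, l1243, o1586, o8483, o8788, o5801] l1560 := rupP (by decide +kernel)
theorem r1561 : PImp [o5796, o8820, o8818] l1561 := rupP (by decide +kernel)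
theorem r1562 : PImp [l311, l841, l400, l1223, o7133, o5506, o9002, o5843, o3857, l310, l843, o7122, o3581, l1555, l1559, l113, l114, o1376, l1549, o2375, l1552, l90, o585, o592, o591, l1548, o3506, o3813, o3810, l1499, o2139, l1560, o1581, l1561, o5798, o8529, o8527] l1562 := rupP (by decide +kernel)
theorem r1563 : PImp [o1581, o1338, l1548, o3813, l1561, o5798, o8529, o8527] l1563 := rupP (by decide +kernel)
theorem r1564 : PImp [l1223, l843, l841, o2375, l1552, l90, o585, o592, o591, l1563, l1550, o1329, o1349, l1548, o3506, o3813, o3810, l1499, l1560, o2139] l1564 := rupP (by decide +kernel)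
theorem r1565 : PImp [o591, o585, l1535, o5796, l652, l751, l1551] l1565 := rupP (by decide +kernel)
theorem r1566 : PImp [o581, l1565, o1576, l1537, l629, o8748] l1566 := rupP (by decide +kernel)
theorem r1567 : PImp [l1137, l1242, o1581, o1320, l1538, o5798, o8955, l680] l1567 := rupP (by decide +kernel)
theorem r1568 : PImp [l1137, l1242, l1223, o1319, o1128, l1538, o4803, o8955, o6412, l679, o8856] l1568 := rupP (by decide +kernel)
theorem r1569 : PImp [o3813, o8835, o8837] l1569 := rupP (by decide +kernel)
theorem r1570 : PImp [o5798, l1569, o3811, o8703, o8705] l1570 := rupP (by decide +kernel)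
theorem r1571 : PImp [l1526, l311, o4311, l801, l279, o4312, l1530, l1515, l803, l924, l878, l523, o2776, o6408, l169, o4310, l177, o2774, l805, o6475, o6474, l925, o2759, o2762, l806, o2764, l1511, o6491, o9027, l1312, l332, l1222, l275, l928, l1531, o4507, l1149, l883, l841, l892, l1175, l276, l486, o8942, l400, l888, l1223, o7133, o1972, o355, o1156, l1533, o5506, o9002, l1137, l1242, o5843, o1974, o357, o1158, l1532, o3857, l398, o8886, o7378, l1150, o6537, o9047, o9059, o9100, l1055, l310, l843, l1562, o7320, o3581, l1564, o2364, o2377, o2116, o2118, o2124, o2138, o1936, l1566, l85, l88, l1066, o549, o551, l1567, l1568, l1570, o5451, l1538, o8536, l1545, o8388] l1571 := rupP (by decide +kernel)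
theorem r1572 : PImp [o5451, l1538, l1504, l1545, o8388] l1572 := rupP (by decide +kernel)
theorem r1573 : PImp [o7320, o7122] l1573 := rupP (by decide +kernel)
theorem r1574 : PImp [l1526, l311, o4311, l801, l279, o4312, l1530, l1515, l803, l924, l878, l523, o2776, o6408, l169, o4310, l177, o2774, l805, o6475, o6474, l925, o2759, o2762, l806, o2764, l1511, o6491, o9027, l1312, l332, l1222, l275, l928, l1531, o4507, l1149, l883, l841, l892, l1175, l276, l486, o8942, l400, l888, l1223, o7133, o1972, o355, o1156, l1533, o5506, o9002, l843, l310, l1055, l1573, o3581, l1137, l1242, o1974, o357, o1158, l1532, o3857, l398, o7378, o6537, o9100, o2364, o2377, o2116, o2118, o2124, o2138, o1936, l1566, l85, l88, l1066, o549, o551, l1572, l1567, l1568, l1570] l1574 := rupP (by decide +kernel)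
theorem r1575 : PImp [l1137, l1243, o1150, o1580, l755, l1505, o5796, o3167, o8483] l1575 := rupP (by decide +kernel)
theorem r1576 : PImp [o8483, o8326] l1576 := rupP (by decide +kernel)
theorem r1577 : PImp [o3813, l766, o8376] l1577 := rupP (by decide +kernel)
theorem r1578 : PImp [o5796, l1576, l1577, o3812, o8529, o8527] l1578 := rupP (by decide +kernel)
theorem r1579 : PImp [o8851, l631] l1579 := rupP (by decide +kernel)
theorem r1580 : PImp [o5843, l843, l1526, l310, l1530, l1055, l801, l279, o4312, l1515, l1573, o4311, l803, l924, l878, l523, o2776, o6408, o1974, o4310, l177, o2774, l805, o6475, o6474, o357, l806, l169, o2762, o2764, l1511, o2759, l925, o6491, o1158, l1532, o3857, o1972, o355, o1156, l1533, l1222, l275, l928, l1531, l892, l1175, l276, l486, o8942, l398, o8886, o7378, l400, o9027, l1312, l332, o4507, l1150, l1149, o9047, l888, l883, o9059, l311, l1223, l841, o7133, o5506, o9002, l1571, o3581, l1574, o2375, o1962, l1552, l898, o585, o592, o591, l1575, l1578, o5795, o5798, l33, o3813, o3810, l1561, l1560, l1579] l1580 := rupP (by decide +kernel)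
theorem r1581 : PImp [o789, o556, l1579, l1499, o5792, o1341, o8561] l1581 := rupP (by decide +kernel)
theorem r1582 : PImp [o5792, o8546, o8574, o1577] l1582 := rupP (by decide +kernel)
theorem r1583 : PImp [o1577, o8834, o8836] l1583 := rupP (by decide +kernel)
theorem r1584 : PImp [o5843, o2134, o2368, o2371, l1581, o788, o790, l1582, o5790, o5784, l1583, o1568, o8863, o8862] l1584 := rupP (by decide +kernel)
theorem r1585 : PImp [o8773, o8917] l1585 := rupP (by decide +kernel)
theorem r1586 : PImp [o576, o589, o790, l1552, o3579, o8966, o3484, l1585, o5446, l1539, o8495] l1586 := rupP (by decide +kernel)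
theorem r1587 : PImp [o5776, o5790, o8479, o8525, o8482, o8526, o1577] l1587 := rupP (by decide +kernel)
theorem r1588 : PImp [o1577, o8786, o8788] l1588 := rupP (by decide +kernel)
theorem r1589 : PImp [o5843, o3857, l1533, o3507, o3801, o3805, l1584, o2374, o2167, o2369, o2373, l1586, o786, o789, l1587, o5774, o5792, l1588, o1568, o8817, l1127] l1589 := rupP (by decide +kernel)
theorem r1590 : PImp [o8682, o8626] l1590 := rupP (by decide +kernel)
theorem r1591 : PImp [o3787, o3760, o3505, o3567, o9002, o7039, l667, o8479, o8525, o1577, o8526] l1591 := rupP (by decide +kernel)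
theorem r1592 : PImp [o1586, o8377, o8378] l1592 := rupP (by decide +kernel)
theorem r1593 : PImp [o3815, o786, o789, l1590, o5801, o5795, o5792, o5787, l1591, o3797, l34, o795, l1592, o1585, l667, o8326] l1593 := rupP (by decide +kernel)
theorem r1594 : PImp [o8352, l627] l1594 := rupP (by decide +kernel)
theorem r1595 : PImp [o2374, o2381, o2369, o2373, l1593, l759, l1594] l1595 := rupP (by decide +kernel)
theorem r1596 : PImp [o3795, o3502, o8543, o8568, o1326] l1596 := rupP (by decide +kernel)
theorem r1597 : PImp [o1317, o1326, o8424, o8423] l1597 := rupP (by decide +kernel)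
theorem r1598 : PImp [o3857, o3815, o5462, o5801, o5795, o5787, o5475, l1596, o3553, l34, o2377, l1597, o1571, o1574, o1576, l666] l1598 := rupP (by decide +kernel)
theorem r1599 : PImp [o1574, o1154, o8704, o8688] l1599 := rupP (by decide +kernel)
theorem r1600 : PImp [l806, o1158, o1936, o1937, l1599, o1125, o1129, o6488, o8730, l164, o8739, o1148, o8704, o8689] l1600 := rupP (by decide +kernel)
theorem r1601 : PImp [l1526, l279, o4311, l801, o4312, l1530, l1515, l803, l924, l878, l523, o2776, o6408, o1973, l841, l311, o1972, o9059, o4310, l177, o2774, l805, o6475, o6474, l883, o355, o356, o9047, l169, l925, o2759, o2762, l806, o2764, l1511, o6491, o9027, o1156, o1157, l1312, l332, l1222, l275, l928, l1531, o4507, l1149, l1150, l892, l1175, l276, l486, o8942, l398, o8886, l1533, o1974, o357, o1158, l1532, o3857, l843, l310, l1055, l1573, o5843, l1580, l840, l927, o6537, o7378, l1589, l1595, o2371, o2368, o2129, o2119, o3186, o3184, o3171, o3168, o3164, o3546, o5501, l400, o4308, l170, o6472, l932, o4309, o6406, o576, o338, o341, o347, o788, o589, o339, o796, o345, o790, o793, l1598, o5790, o4785, o4792,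 o4796, o4817, o4822, l1600, o1962, o1966, l746, o6487, o6488, o3796, o3795, o1122, o1125, o8834, l1277] l1601 := rupP (by decide +kernel)
theorem r1602 : PImp [o4843, o8751, o8724, o6404, o8708] l1602 := rupP (by decide +kernel)
theorem r1603 : PImp [l843, l1526, l310, l1530, l1055, l801, l279, o4312, l1515, l1573, o4311, l803, l924, l878, l523, o2776, o6408, o1974, o4310, l177, o2774, l805, o6475, o6474, o357, l806, l169, o2762, o2764, l1511, o2759, l925, o6491, o1158, l1532, o3857, o1972, o355, o1156, l1533, l1222, l275, l928, l1531, l892, l1175, l276, l486, o8942, l398, o8886, o7378, o9027, l1312, l332, o4507, l1150, l1149, o1157, o6537, o9047, o356, l927, l883, o9059, o1973, o9100, l311, l841, l840, o5843, l1580, l1589, o3202, l1595, o1940, o2368, o2371, l1601, o786, o789, o311, l1602, o5792, o5787, l1537, o1568, o8561, o8417] l1603 := rupP (by decide +kernel)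
theorem r1604 : PImp [o5789, o5792, l1537, o1568, o8561, o8417] l1604 := rupP (by decide +kernel)
theorem r1605 : PImp [o786, o789, o311, l1604, l1579, l1602, o3202] l1605 := rupP (by decide +kernel)
theorem r1606 : PImp [o3164, o3171, o3184, o3186, l1600] l1606 := rupP (by decide +kernel)
theorem r1607 : PImp [l1222, o1317, o1129, l1538, o8730, o5782, l1583, o1572, o8863, l753] l1607 := rupP (by decide +kernel)
theorem r1608 : PImp [o1571, o1576, o8543, l1570, o5779] l1608 := rupP (by decide +kernel)
theorem r1609 : PImp [l1526, l279, l1530, l1055, l801, o4312, l1515, o4311, l803, l924, l878, l523, o2776, o6408, o1974, o4310, o2774, l177, l805, o6475, o6474, o9047, l169, l925, o2759, o2762, l806, o2764, l1511, o6491, o9027, o1156, l1222, l275, l928, l1531, l892, l1175, l276, l486, o8942, l398, o8886, l843, l310, l1573, l311, l1312, l332, o4507, l1149, l883, l841, l1603, o5504, o9002, o3581, l927, o9100, o356, o6537, o1158, o7378, o1972, o355, l1533, o1940, o1973, o2368, o2371, l1605, o589, l1552, o1937, o2377, o793, o790, o345, o796, o788, o347, o4308, l170, o6472, o341, o594, o338, o576, o2134, o2129,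 o2119, l1223, l888, l400, o5497, o8923, o357, l1532, o3857, o1157, o4785, o4796, o4817, o4822, l1606, o3507, o3801, o3805, l1608, o1326, o1334, o1129, l1607, o2885, o8855, o8568, o8857, l485] l1609 := rupP (by decide +kernel)
theorem r1610 : PImp [l843, l1526, l310, l1530, l1055, l801, l279, o4312, l1515, l1573, l311, o4311, l803, l924, l878, l523, o2776, o6408, l169, o4310, l177, o2774, l805, o6475, o6474, l925, o2759, o2762, l806, o2764, l1511, o6491, o9027, l1312, l332, l1222, l275, l928, l1531, o4507, l1149, l883, l841, l486, l1603, o5504, o9002, o3581, l1223, l888, l892, l1175, l276, o8942, l400, o5497, o8923, o1972, o355, o1156, l1533, o5501, l398, o8886, o7378, o1158, o6537, o9047, o356, l927, o1974, o1973, o9100, o2119, o2129, o2134, o1940, o2368, o2371, l1605, o575, o576, o589, l1552, o2116, l1609, o5462, o5795, l1538, l1557, l1545] l1610 := rupP (by decide +kernel)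
theorem r1611 : PImp [l90, l1539, l113, l114, o8339, l382, l385, o8516, o8517] l1611 := rupP (by decide +kernel)
theorem r1612 : PImp [l776, l896, l113, l114, l1503, l381, o3495, o8367, o8379, o8368, o8365, o1590, l1160, l392, o3560, o8483, o8474] l1612 := rupP (by decide +kernel)
theorem r1613 : PImp [o5455, o5459, o5462, o5803, o5808, o5472, o5475, o5483, l1611, l775, o577, l1612, l110, l1157, l1502, l379, o8319, o8321] l1613 := rupP (by decide +kernel)
theorem r1614 : PImp [l1222, o4311, l801, l1526, l279, o4312, l1530, l1515, l803, l924, l878, l523, o2776, o6408, l275, o2762, l806, o2764, l169, l1511, o4310, l177, o2774, l805, o6475, o6474, l928, l1531, l486, o1972, o355, o2759, l925, o6491, o1156, l1533, o5501, l892, l1175, l276, o8942, l398, o8886, l400, o9027, l1312, l332, o4507, l1150, l1149, o1157, o1158, o9047, o357, l888, l883, o9059, o1974, l274, l1055, l311, l310, l1223, l843, l841, l1532, o3857, l1573, l1603, o5504, o5497, o9002, o7328, o3581, l1610, o2374, o2384, o2381, o2162, o2165, o2167, o2179, o2180, o2181, o2369, o2373, l1552, o581, o582, o592, o591, l1613, l1590, o3801, o3805, o8788,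 o1577, o1574, o8819, o8817, o5776, o8526, o8525] l1614 := rupP (by decide +kernel)
theorem r1615 : PImp [o1577, o1574, o8819, o8817, o5776, o8526, o8525] l1615 := rupP (by decide +kernel)
theorem r1616 : PImp [o3578, o3580, o3801, o3805, l1615, o8788, l1243, o7329, l1137, o5505, l1587, o5785, l1588, o8817, o1568, l1127] l1616 := rupP (by decide +kernel)
theorem r1617 : PImp [o8819, o1577, l486, l1615, o8817, o3543, o3545, o5446, o5441, o8369, o8367] l1617 := rupP (by decide +kernel)
theorem r1618 : PImp [l486, l1222, l805, o1316, o1121, o1130, o1579, o1318, o8819, o8806, o2730, o6486, l979, l1016, l1617, l644, o3542, o8681, o8376, o5440, o8369] l1618 := rupP (by decide +kernel)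
theorem r1619 : PImp [l400, l1223, l899, o581, o582, o585, o592, l1590, l1618, o8788, o7328, o5500, o5499, o8945, o5784, o8944, o5790, o3801, o3805, l1588, o8817, o1568, l1127] l1619 := rupP (by decide +kernel)
theorem r1620 : PImp [l644, l1222, l843, l497, l498, o5499, o7122, o5393, o5790, o3502, l1588, o7084, o1327] l1620 := rupP (by decide +kernel)
theorem r1621 : PImp [o6367, o6486] l1621 := rupP (by decide +kernel)
theorem r1622 : PImp [l310, l1223, o789, l1590, l1620, o8788, o7328] l1622 := rupP (by decide +kernel)
theorem r1623 : PImp [l1526, l279, o4311, l801, o4312, l1530, l1515, l803, l924, l878, l523, o2776, o6408, o1972, o2373, o2369, l274, o2180, l275, o2167, l276, o2162, l177, o1967, l170, o1961, o2374, l1614, o2762, l806, o2764, l169, l1511, o4310, o2774, l805, o6475, o6474, o355, o2759, l925, o6491, o1156, l1533, l1222, l928, l1531, l892, l1175, l486, o8942, l398, o8886, l400, o9027, l1312, l332, o4507, l1150, o1157, o1158, o9047, o356, o357, l888, l883, o9059, o1974, o1973, l1055, o4785, o4817, l1619, l1064, o549, l746, l1621, o1121, l1622, o8775, l759] l1623 := rupP (by decide +kernel)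
theorem r1624 : PImp [l88, l1539, l114, o8339, l385, o8495, o8493] l1624 := rupP (by decide +kernel)
theorem r1625 : PImp [l391, l90, l116, o8517, o8516] l1625 := rupP (by decide +kernel)
theorem r1626 : PImp [l896, l392, l1625, l115, o8473, o8474] l1626 := rupP (by decide +kernel)
theorem r1627 : PImp [l385, l114, o8317, o8319] l1627 := rupP (by decide +kernel)
theorem r1628 : PImp [l1222, o4311, l801, l1526, l279, o4312, l1530, l1515, l803, l924, l878, l523, o2776, o6408, l275, o2762, l806, o2764, l169, l1511, o4310, l177, o2774, l805, o6475, o6474, l928, l1531, l486, o1972, o355, o2759, l925, o6491, o1156, l1533, o5501, l892, l1175, l276, o8942, l398, o8886, l274, o2167, o2179, o2180, o2181, l1623, o5462, o5472, o5475, o5483, l1624, l1611, l1626, l385, l1627, l1159, o8365, o8367] l1628 := rupP (by decide +kernel)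
theorem r1629 : PImp [l90, o8409, l116, o8439, l1499, o8438] l1629 := rupP (by decide +kernel)
theorem r1630 : PImp [l90, l1629, l391, o8553, l1499, l117] l1630 := rupP (by decide +kernel)
theorem r1631 : PImp [l391, o3551, o8568, l1158, o1327, o8533, o8561, o598] l1631 := rupP (by decide +kernel)
theorem r1632 : PImp [o5462, o5792, o5475, o5483, l1630, l88, l1631, l385, l1597, o1376, o1386, l1557, o8386] l1632 := rupP (by decide +kernel)
theorem r1633 : PImp [l480, l88, l385, l1597, o8424, o1386, l1557, o8386] l1633 := rupP (by decide +kernel)
theorem r1634 : PImp [o2371, o2134, o2129, l398, l1222, l841, l840, o5393, o9002, o8922, l1633, l391, o3550, o3551, o8568, o3561, l1158, o1327, l1579, l1584, o594, o790, o5809, o8533, l1583, o5746, o5342] l1634 := rupP (by decide +kernel)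
theorem r1635 : PImp [o1326, o8825, o8848, o8833] l1635 := rupP (by decide +kernel)
theorem r1636 : PImp [l484, l391, o3550, l1635, l116, o8858, l1499, o8857] l1636 := rupP (by decide +kernel)
theorem r1637 : PImp [l385, l88, l1159, o8732, o8733, o5365, o8424, o8923] l1637 := rupP (by decide +kernel)
theorem r1638 : PImp [o2368, l311, o2134, o2129, o2119, l400, l1223, l1222, l88, l89, l1634, o5461, l1636, l385, l389, l1637, l114, l115, o8691, o8693, o5168, o5165, o8594, o8692] l1638 := rupP (by decide +kernel)
theorem r1639 : PImp [o4311, l801, l1526, l279, o4312, l1530, l1515, l803, l924, l878, l523, o2776, o6408, l169, o4310, l177, o2774, l805, o6475, o6474, l925, o2759, o2762, l806, o2764, l1511, o6491, o9027, l1312, l332, o1157, o1156, o1158, o6537, l1175, o356, o355, l892, l928, l888, l927, l883, o1972, o1973, l276, l275, o9100, l1055, l311, l1222, l1531, l486, o4507, o8942, l1149, l398, o7378, l1533, o5501, l1628, o2119, o2129, o2134, o1940, o2371, l1632, l1638, l900, o592, l1579, o3202, l1602] l1639 := rupP (by decide +kernel)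
theorem r1640 : PImp [o3202, l1602] l1640 := rupP (by decide +kernel)
theorem r1641 : PImp [o8561, o8849] l1641 := rupP (by decide +kernel)
theorem r1642 : PImp [o8584, l629] l1642 := rupP (by decide +kernel)
theorem r1643 : PImp [l1640, l1579, l646, o3806, o3803, l1641, o1568, l1642] l1643 := rupP (by decide +kernel)
theorem r1644 : PImp [l646, l1641, o3806] l1644 := rupP (by decide +kernel)
theorem r1645 : PImp [l1642, o1568, o1574, o8419, l1644, o8848, l642, o8561, o3805, o3794] l1645 := rupP (by decide +kernel)
theorem r1646 : PImp [o1155, o8416, o8721, o4840, o8708] l1646 := rupP (by decide +kernel)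
theorem r1647 : PImp [o1156, l806, o1158, l900, o581, o582, o592, l1643, l1645, o3185, l1646, o1131, o8748, o8444, o6404, o8435] l1647 := rupP (by decide +kernel)
theorem r1648 : PImp [o786, o789, o311, l1645, o3185, o8748, o8444, o6404, o8435] l1648 := rupP (by decide +kernel)
theorem r1649 : PImp [o3802, o3792, o8429, o1577, o8397, l671] l1649 := rupP (by decide +kernel)
theorem r1650 : PImp [o3808, o8429, o1577, o8397, l671] l1650 := rupP (by decide +kernel)
theorem r1651 : PImp [l642, o8428, l1649, l1650, o8546, o1577, o8576, o8574, o8429] l1651 := rupP (by decide +kernel)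
theorem r1652 : PImp [o3185, l1651, o4840, o8737, o8729] l1652 := rupP (by decide +kernel)
theorem r1653 : PImp [o8546, o3822, o1589, o8576, o8578] l1653 := rupP (by decide +kernel)
theorem r1654 : PImp [o1589, o8431, o8433] l1654 := rupP (by decide +kernel)
theorem r1655 : PImp [o788, o4840, o4790, o5789, o5787, o8862, o8945, o5807, o8997, o8854, o2733, o6488, o1964, l1653, o3821, l1654, o1588, l671, o8401] l1655 := rupP (by decide +kernel)
theorem r1656 : PImp [o9002, o9169] l1656 := rupP (by decide +kernel)
theorem r1657 : PImp [l623, o8594] l1657 := rupP (by decide +kernel)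
theorem r1658 : PImp [l1222, o1334, o1326, l841, o9002, o3500, l1656, o5505, o8857, o7183, l484, o3483, o8568] l1658 := rupP (by decide +kernel)
theorem r1659 : PImp [o1326, l88, l479, l484, o8568, l385, l1597] l1659 := rupP (by decide +kernel)
theorem r1660 : PImp [o1131, o1125, l1222, o1334, l1530, l1055, o4312, l801, l1526, l279, l1515, l523, l878, o2759, o9100, o4311, l803, l924, o2776, o6408, o1972, o2762, l806, o2764, l169, l1511, o4310, l177, o2774, l805, o6475, o6474, l883, l928, l892, o355, l925, o6491, o6537, l1639, o1940, o1973, o2368, o2371, l1647, o552, l311, o2134, o2129, o2119, o1157, o1156, o1158, o356, o357, l927, o4308, l170, o6472, o1974, l274, l932, o4309, o6406, l310, l843, l841, l840, l1648, o594, o341, o349, o788, o790, l1652, l1655, l642, o8573, l1659, o5494, o5485, o7122, o7185, o3504, l403, o8857, l1656] l1660 := rupP (by decide +kernel)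
theorem r1661 : PImp [o590, l1222, o5785, o8573, l1658, l1659, l396, o5477, o7183] l1661 := rupP (by decide +kernel)
theorem r1662 : PImp [l1222, o1334, o2134, o2129, l841, l840, l1659, l1656, o8731, l403, o3568, o7185, o5485, o8863, l1583] l1662 := rupP (by decide +kernel)
theorem r1663 : PImp [o4310, l1660, o4822, o4817, o4308, o4796, o4792, o4785, o4312, o4843, o1131, o1125, l1222, o1326, l801, l1526, l279, l1530, l1515, l523, l878, o2759, o9100, o4311, l803, l924, o2776, o6408, o1972, o2762, l806, o2764, l169, l1511, l177, o2774, l805, o6475, o6474, l883, l928, l892, o355, l925, o6491, o6537, l1639, o1940, o1973, o2368, o2371, l1647, l1066, l1064, l311, o2134, o2129, o2119, o9027, l1312, l332, o1157, o357, l888, l927, l275, l274, l932, o4309, o6406, l1223, l1642, o785, o590, o340, o344, o346, o778, l1661, o8862, o8854, o2733, o8729, o6488, o1966, l1606, l1662, l1149, o4508, o4460, o9171, l1637, o8858] l1663 := rupP (by decide +kernel)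
theorem r1664 : PImp [o4508, l1218, o4460, o9171, l1637, o8858] l1664 := rupP (by decide +kernel)
theorem r1665 : PImp [o4312, l801, l1526, l279, l1530, l1515, l523, l878, o2759, o9100, o4311, l803, l924, o2776, o6408, o1972, o2762, l806, o2764, l169, l1511, o4310, l177, o2774, l805, o6475, o6474, l883, l928, l892, o355, l925, o6491, o6537, l1639, o1940, o1973, o2368, o2371, l1647, l1066, l1064, l311, o2134, o2129, o2119, o9027, l1312, l332, o1157, l888, l927, l274, l932, o4309, o6406, o4308, l1223, l1222, o1326, o1334, o1125, o1131, l1660, o4843, o4785, o4792, o4796, o4817, o4822, l1663, o3170, o3185, o6404, o8729, l939, l940, l895, o310, o311, o6488, o1966, l1606, l1664, l1149, l1659, l1662, o8731, o8857] l1665 := rupP (by decide +kernel)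
theorem r1666 : PImp [o2368, l1063, o553, o556, o8687, o8704, o8701, o3802, o3761, o8836, o5785, o9119, o3818, o5804, o8837, o2161, o2178, l1657, o3461, o8758, o8455, l470] l1666 := rupP (by decide +kernel)
theorem r1667 : PImp [o4843, o1155, l1175, o1385, o1374, o2368, o3185, l1666, l895, o593, l1646] l1667 := rupP (by decide +kernel)
theorem r1668 : PImp [l895, o593, o597, o598, l1643] l1668 := rupP (by decide +kernel)
theorem r1669 : PImp [o3805, o3794] l1669 := rupP (by decide +kernel)
theorem r1670 : PImp [o1155, o1576, o1574, o1568, o2371, o2368, o4843, l1667, l1668, l1063, o554, o553, o556, o8543, l1277, o8823, o8687, o8704, l1669, l1583, o5776, o5791] l1670 := rupP (by decide +kernel)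
theorem r1671 : PImp [l743, o8456, o8067] l1671 := rupP (by decide +kernel)
theorem r1672 : PImp [l1671, l640, o8113, o8018] l1672 := rupP (by decide +kernel)
theorem r1673 : PImp [o7770, l50] l1673 := rupP (by decide +kernel)
theorem r1674 : PImp [o7785, o7808] l1674 := rupP (by decide +kernel)
theorem r1675 : PImp [o1517, o1106, l1673, o733, o290, l604, l1510, o2285, o2278, o2297, o8075, o4662, o4622, o4625, o7924, o3696, l1674, o7766, l1105, o7748, o685, o678] l1675 := rupP (by decide +kernel)
theorem r1676 : PImp [l1312, l331, o2846, o3403, o3404, l1672, l1675, l743, o7732, o7812] l1676 := rupP (by decide +kernel)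
theorem r1677 : PImp [l56, l673, o5306, o511, o519, o7914, l109, o1288, o1289, o8278, o5263, o5264, o7982, o7962, l675] l1677 := rupP (by decide +kernel)
theorem r1678 : PImp [o290, o296, o7922, o4626, o4635, o8075, o8241, o2712] l1678 := rupP (by decide +kernel)
theorem r1679 : PImp [o2285, o2278, o2281, o1908, o1907, o2299, o2072, o2069, o2073, l1677, o1524, o1305, o1106, o1113, l1678, l674, o5711, o7927, o495, o737, o730, o8259, o5269, o5270, o7981, o7944, l1105] l1679 := rupP (by decide +kernel)
theorem r1680 : PImp [o7847, o8182] l1680 := rupP (by decide +kernel)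
theorem r1681 : PImp [o7895, o7867] l1681 := rupP (by decide +kernel)
theorem r1682 : PImp [o1522, o1520, o1106, l1680, o739, o735, o290, o8164, l1510, o5709, o5706, o8155, o7926, o7925, o4622, o4625, o2298, o2291, l1681, l1071, l1105, o7826, o685, o678] l1682 := rupP (by decide +kernel)
theorem r1683 : PImp [l1682, l56, o7899, o7871] l1683 := rupP (by decide +kernel)
theorem r1684 : PImp [o1442, o1482, o1290, o1107, o1448, o8502, o7913, l1510, o701, o2071, o8155, o7825, o4624] l1684 := rupP (by decide +kernel)
theorem r1685 : PImp [o2298, o2294, o7870, l675, o7896, o7844] l1685 := rupP (by decide +kernel)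
theorem r1686 : PImp [o4623, o4625, l1685, o2320, o2318, o7926, o7962, o1512, l675, o7982] l1686 := rupP (by decide +kernel)
theorem r1687 : PImp [o6485, o8191] l1687 := rupP (by decide +kernel)
theorem r1688 : PImp [o8536, o3445, o3444, o3443, o3442, o2356, l56, o5709, o5309, o7899, o739, o512, o290, l1684, l1686, l1687, l1510, o8155] l1688 := rupP (by decide +kernel)
theorem r1689 : PImp [o8536, o3445, o3443, o3442, l1683, l1688, o1522, o1106, l1680, o739, o290, o8164, l1510, o5709, o8155, o7926, o4623, o4625, l1686, o2298, o2294, o7826, l675, o7896, o7844] l1689 := rupP (by decide +kernel)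
theorem r1690 : PImp [o1521, o1287, o1107, o8168, l1510, o5436, o8155, o7914, o4625, o2068, o7826, o7846] l1690 := rupP (by decide +kernel)
theorem r1691 : PImp [o8459, o8502] l1691 := rupP (by decide +kernel)
theorem r1692 : PImp [o7962, o7870] l1692 := rupP (by decide +kernel)
theorem r1693 : PImp [o741, o511, o290, l1690, o705, o1481, o1470, l56, l1692, o5620, o5607, l59, o8202, o8285] l1693 := rupP (by decide +kernel)
theorem r1694 : PImp [l56, o7899] l1694 := rupP (by decide +kernel)
theorem r1695 : PImp [o736, o510, o291, l1690] l1695 := rupP (by decide +kernel)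
theorem r1696 : PImp [l954, o277, l1690] l1696 := rupP (by decide +kernel)
theorem r1697 : PImp [o8265, l616] l1697 := rupP (by decide +kernel)
theorem r1698 : PImp [l750, l1697] l1698 := rupP (by decide +kernel)
theorem r1699 : PImp [l1695, l1696, o292, l1698, o5640, o7944, o7846] l1699 := rupP (by decide +kernel)
theorem r1700 : PImp [o8459, o8478] l1700 := rupP (by decide +kernel)
theorem r1701 : PImp [o8536, l668, o2356, l1055, l1676, l369, l373, l374, o3529, o3528, o3530, o3441, o3442, o3443, o3445, l1679, o2322, o1923, l1689, l1699, l1700, o1481, l56, l1694, l1092, l1693, l1691] l1701 := rupP (by decide +kernel)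
theorem r1702 : PImp [l56, l1694, o8715] l1702 := rupP (by decide +kernel)
theorem r1703 : PImp [o1481, l1105, o8459, o1465, l1700, l1680, o735, o290, o701, o8164, l1510, o5706, o8155, o7925, o4624, o2295, o8716] l1703 := rupP (by decide +kernel)
theorem r1704 : PImp [o8536, l1055, l369, l373, l374, o3529, o3528, o3530, o3441, o3442, o3443, o3444, o3445, l1679, o2322, o1923, l1702, o1522, o1520, o1106, l1703, l1699, l1680, o739, o290, o8164, l1510, o5709, o8155, o7926, o4623, o4625, o2298, o2294, o7826, l675, o7844, o7896] l1704 := rupP (by decide +kernel)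
theorem r1705 : PImp [l1510, o6510, o7677] l1705 := rupP (by decide +kernel)
theorem r1706 : PImp [l948, l991, l1349] l1706 := rupP (by decide +kernel)
theorem r1707 : PImp [l1675, l743, o7812] l1707 := rupP (by decide +kernel)
theorem r1708 : PImp [o4783, l207, o1954, o1923, l1706, o277, l1707, o5677, o8091, o8131] l1708 := rupP (by decide +kernel)
theorem r1709 : PImp [l668, o2356, l1312, l335, l1273, l430, o4790, o4783, l336, l331, l1701, l1704, l368, o2846, o2857, o3425, o3403, o3404, l1708, o1907, l1705, o1106, l743, l1671, o8828] l1709 := rupP (by decide +kernel)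
theorem r1710 : PImp [o1907, l1705, o1106, l743, l1671, o8828] l1710 := rupP (by decide +kernel)
theorem r1711 : PImp [l814, l830, o7782, l774, o6399, o7796] l1711 := rupP (by decide +kernel)
theorem r1712 : PImp [o7811, o704, o696, o8831, l744, o1467] l1712 := rupP (by decide +kernel)
theorem r1713 : PImp [l743, l1712, o1444, o1480, o7748, o1447, o8831, o7767, o698] l1713 := rupP (by decide +kernel)
theorem r1714 : PImp [o7748, l675, o683, o7767, o679, o677, o1447, o7766, o7807, o1438] l1714 := rupP (by decide +kernel)
theorem r1715 : PImp [o4311, l801, l1526, l279, o4312, l1530, l1515, l803, l924, l878, l523, o2776, o6408, l169, o1955, o1956, o1957, l209, l208, l207, l206, l155, l389, o3404, o3403, o4310, l177, o2774, l805, o6475, o6474, l925, o2759, o2762, l806, o2764, l1511, o6491, o9027, l1312, l332, o2849, l331, o2846, l368, l366, l1639, o9047, o355, l927, l1222, o5709, o5706, o5297, o5306, o5309, l1711, l1196, o1092, o1091, o7761, o7772, o7771, l1012, l990, l868, o744, o574, o7781, o8075, o7780, o1264, o4662, o4595, o4622, o4621, o4623, o4625, l1161, o7924, o7910, o3696, o3698, o3410, l1713, o7770,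 l1714, o1481, o1449, l1105, o8459, o1438, o7785, o7807, o689] l1715 := rupP (by decide +kernel)
theorem r1716 : PImp [l1526, l279, o4311, l801, o4312, l1530, l1515, l803, l924, l878, l523, o2776, o6408, o1973, o2368, o4310, l177, o2774, l805, o6475, o6474, o355, o788, l1665, o8543, l169, o2762, l806, o2764, l1511, o2759, l925, o6491, l1175, o1386, o9100, o1972, l883, l928, l892, o6537, l1639, o1940, o2371, l1647, l1277, l311, o2129, o9027, l89, o1385, l274, o1158, o1576, l1055, o551, l276, l888, o356, o1156, o1157, l84, l1670, o1574, o8546, o3786, o3775, l671, o5788, o5801, o8400, o2178, l1657, l389, o8825, o5374, l275, l1222, o790, o1568, l841, o3557, o9002, o5391, o8397, o2164, o1375, l85, l474, o8454, o3473, o8886, o2377, o1571, o5392, o7039, l668, o3782, o2134, o1388, l927, o594, l390, o8533, o5170, l1242, l1312, l332, o4786, o4460, l1150, o4783, o4454, o5341, l480, l471, o3562, o2360, o2356, o3776, o1583, o552, o5789, o5807, o8401, o1960, o5767, o5738, o3759, o4790, o349, o3202, o1155, o8383, o8687, o1152, o1149, l336, l331, o9047, o9059, l932, o2855, o2846, o3425, o3422, o3421, o3404, l1710, l156,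 o1954, o1928, o1923, o1924, o1926, o1927, l1715, o5677, o4638, l1671, l1672, o1524, o1114, o8091, o8097, o276] l1716 := rupP (by decide +kernel)
theorem r1717 : PImp [l1526, l279, o4311, l801, o4312, l1530, l1515, l803, l924, l878, l523, o2776, o6408, o1973, o2368, o4310, l177, o2774, l805, o6475, o6474, o355, o788, l1665, o8543, l169, o2762, l806, o2764, l1511, o2759, l925, o6491, l1175, o1386, o9100, o1972, l883, l928, l892, o6537, l1639, o1940, o2371, l1647, l1277, l311, o2129, o9027, l89, o1385, l274, o1158, o1576, l1055, o551, l276, l888, o356, o1156, o1157, l84, l1670, o1574, o8546, o3786, o3775, l671, o5788, o5801, o8400, o2178, l1657, l389, o8825, o5374, l275, l1222, o790, o1568, l841, o3557, o9002, o5391, o8397, o2164, o1375, l85, l474, o8454, o3473, o7378, o8886, o2377, o1571, o5392, o7039, l668, o3782, o2134, o1388, l927, o594, l390, o8533, o5170, l1243, l1242, l1223, o5378, o9004, l1312, l332, o4786, o4460, l1150, o2119, o1376, l88, l480, o8536, o5341, l1656, o3562, o2356, o3776, o1583, o552, o5789, o5807, o8401, o2362, o1960, o5767, o5738, o3804, o5787, o9134, o8897, o4790, o4783, o349,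 o3202, o1155, o8383, o8687, o6448, o9145, o4308, l170, o6472, o341, o1152, o1149, o549, l1064, o9047, o9059, l1709, l1716, l369, l373, l374, o3529, o3528, o3530, o3441, o3442, o3443, o3445, l1704, l1679, o2322, o1923, l40, l1689, l1699, l1700, o1481, l1694, o7871, l1691, l1693] l1717 := rupP (by decide +kernel)
theorem r1718 : PImp [o8536, o2356, l1055, l369, l373, l374, o3529, o3528, o3530, o3441, o3442, o3443, o3445, l1704, l1679, o2322, o1923, l1689, l1699, l1700, o1481, l56, l1694, o7871, l1691, l1693] l1718 := rupP (by decide +kernel)
theorem r1719 : PImp [o7708, o8828] l1719 := rupP (by decide +kernel)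
theorem r1720 : PImp [o1907, l1705, o1106, l1719, o8042, o8067] l1720 := rupP (by decide +kernel)

end Pool.Agent.BDD.A
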