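import Pool.Agent.BDD.AC
import Pool.Agent.BDD.AE0
import Pool.Agent.BDD.AE1
import Pool.Agent.BDD.AE2
import Pool.Agent.BDD.AD0
import Pool.Agent.BDD.AD1

set_option autoImplicit false
set_option linter.all false

namespace Pool.Agent.BDD.A

theorem r1721 : PImp [o5677, o4635, l735, o741, o296, o8091, o8118, o1094] l1721 := rupP (by decide +kernel)
theorem r1722 : PImp [o4311, l801, l1526, l279, o4312, l1530, l1515, l803, l924, l878, l523, o2776, o6408, l169, o1955, o1954, o1957, l207, l206, l155, o5738, o3759, o4790, o4783, l1639, o4310, l177, o2774, l805, o6475, o6474, l925, o2759, o2762, l806, o2764, l1511, o6491, o6537, o355, o9100, l1222, l1721, o5709, o5297, o5306, o7788, o7812, l1711, l1196, o1092, o7761, o7772, l1012, l990, o744, o7781, o8075, o1264, o4662, o4622, o4625, o7924, o3696, l1712, l45, o1479, o7766, o8830, o699] l1722 := rupP (by decide +kernel)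
theorem r1723 : PImp [o8459, o8736] l1723 := rupP (by decide +kernel)
theorem r1724 : PImp [o7770, o8113, o5677, o4638, o8091, o8097, o276] l1724 := rupP (by decide +kernel)
theorem r1725 : PImp [l1526, l279, o4311, l801, o4312, l1530, l1515, l803, l924, l878, l523, o2776, o6408, o1973, o2368, o4310, l177, o2774, l805, o6475, o6474, o355, o788, l1665, o8543, l169, o2762, l806, o2764, l1511, o2759, l925, o6491, l1175, o1386, o9100, o1972, l883, l928, l892, o6537, l1639, o1940, o2371, l1647, l1277, l311, o2129, o9027, l89, o1385, l274, o1158, o1576, l1055, o551, l276, l888, o356, o1156, o1157, l84, l1670, o1574, o8546, o3786, o3775, l671, o5788, o5801, o8400, o2178, l1657, l389, o8825, o5374, l275, l1222, o790, o1568, l841, o3557, o9002, o5391, o8397, o2164, o1375, l85, l474, o8454, o3473, o7378, o8886, o2377, o1571, o5392, o7039, l668, o3782, o2134, o1388, l927, o594, l390, o8533, o5170, l1243, l1242, l1223, o5378, o9004, l1312, l332, o4786, o4460, l1150, o5341, l480, l471, l1656, o3562, o2360, o2356, o3776, o1583, o552, o5789, o5807, o8401, o2362, o1960, o5767, o5738, o3804, o5787, o9134,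 o4790, o4783, o349, o3202, o1155, o8383, o8687, o6448, o9145, o4308, l170, o6472, o341, o1152, o1149, o1376, o549, l1064, l88, o2119, l336, l331, o9047, o9059, l932, l1717, l1718, l366, l368, o2855, o2846, o2849, o3425, o3422, o3403, o3404, l1720, l156, o1958, o1957, o1954, o1928, o1923, o1924, o1926, o1927, l1722, o1524, o1514, o1517, o1106, o1114, l1723, o1481, l1724, o733, o729, o290, o8087, o8075, l1675, o4662, o4661, o4622, o4621, o4623, o4625, o7924, o7923, o3696, o3698, o3687, l1714] l1725 := rupP (by decide +kernel)
theorem r1726 : PImp [o4311, l801, l1526, l279, o4312, l1530, l1515, l803, l924, l878, l523, o2776, o6408, l169, o2762, l806, o2764, l1511, o2759, o4310, l177, o2774, l805, o6475, o6474, l925, o6491, l1665, o1152, o1114, o1149, o1106, o1517, o1514, o1158, o1571, o1524, l1055, o9100, l274, l276, o1973, o1972, l883, l888, o355, o356, o6537, o9027, o1156, o1157, l1639, o1940, l928, l892, o2368, o2371, l1647, l84, l89, o551, l1670, o1574, o8546, o1576, o3786, o3775, l671, o788, o8543, o5788, o5801, o8400, o2377, l1175, o1386, l1277, l311, o2129, o1385, o2178, l1657, l389,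 o8825, l841, o3557, o9002, o5392, o7039, l668, o3782, o2134, o1388, l927, o594, l390, o8533, o5170, l1242, o5341, o3562, o2356, o3776, o1583, o552, o5789, o5807, o8401, o2362, o1960, o4790, o4783, o349, o3202, o1155, o8383, o8687, l1064, l1312, l336, l331, l932, o2855, o2846, o3425, o3403, o3404, l1705, l156, o1958, o1957, o1954, o1928, o1923, o1924, o1926, o1927, l1724, o733, o729, o290, o8087, o8075, l1675, o4662, o4661, o4622, o4621, o4623, o4625, l1716, o7924, o7923, l1723, o3696, o3698, o3687, o1481, l1714] l1726 := rupP (by decide +kernel)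
theorem r1727 : PImp [o8154, o7817] l1727 := rupP (by decide +kernel)
theorem r1728 : PImp [l1700, o1481, o7944, o7846] l1728 := rupP (by decide +kernel)
theorem r1729 : PImp [l1725, l1526, l279, o4311, l801, o4312, l1530, l1515, l803, l924, l878, l523, o2776, o6408, o1973, o2368, o4310, l177, o2774, l805, o6475, o6474, o355, o788, l1665, o8543, l169, o2762, l806, o2764, l1511, o2759, l925, o6491, l1175, o1386, o9100, o1972, l883, l928, l892, o6537, l1639, o1940, o2371, l1647, l1277, l311, o2129, o9027, l89, o1385, l274, o1158, o1576, l1055, o551, l276, l888, o356, o1156, o1157, l84, l1670, o1574, o8546, o3786, o3775, l671, o5788, o5801, o8400, o2178, l1657, l389, o8825, o5374, l275, l1222, o790, o1568, l841, o3557, o9002, o5391, o8397, o2164, o1375, l85, l474, o8454, o3473, o7378, o2377, o1571, o5392, o7039, l668, o3782, o2134, o1388, l927, o594, l390, o8533, o5170, l1243, l1223, o5378, o9004, o2119, o1376, l88, l480, o8536, o5341, l1656, o2356, o3776, o1583, o552, o5789, o5807, o8401, o2362, l932, o4309, o6406, o1964, o1960, o5767, o5738, o3804, o5787, o9134, o4790, o4783, o349, o3202,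 o1155, o8383, o8687, o9145, o4308, l170, o6472, o341, o1152, o1149, o549, l1065, l1064, o1106, o1113, l1726, l369, l373, l374, o3528, o3441, o3442, o3443, o3445, l1679, o1923, o1929, l1705, o2712, l1727, o293, o294, o296, l1698, o5640, l1728, l1680] l1729 := rupP (by decide +kernel)
theorem r1730 : PImp [o2999, l1720] l1730 := rupP (by decide +kernel)
theorem r1731 : PImp [l1705, o6485, o7694] l1731 := rupP (by decide +kernel)
theorem r1732 : PImp [o1923, o1929, l1730, o3703, o3683, l56, l1694, o731, o290, o296, o7871, l1691, o705, l1731, o2712, l1727, o1145, o1111, l1692, o5672, o8207, o8290] l1732 := rupP (by decide +kernel)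
theorem r1733 : PImp [o2853, o2847, o2999, o3000, o3002, l1677] l1733 := rupP (by decide +kernel)
theorem r1734 : PImp [o3401, o3411, o3680, o3683, l1677] l1734 := rupP (by decide +kernel)
theorem r1735 : PImp [o4310, o4311, l801, l1526, l279, o4312, l1530, l1515, l803, l924, l878, l523, o2776, o6408, l177, o2774, l805, o6475, o6474, o349, l1055, o2759, o9100, l274, l276, o1973, o1972, o2762, l806, o2764, l169, l1511, l883, l888, o355, o356, l925, o6491, o6537, o9027, o1158, o1156, o1157, l1639, o1940, l928, l892, o2368, o2371, l1647, l84, l89, o551, l1665, l1670, o1574, o8546, o3202, o1155, l671, o8383, o8687, o6448, o3171, o3164, o790, o788, o4308, l170, o6472, o341, l927, o594, o1151, o1149, l1175, o1388, o1386, o1385, o1376, o1375, o1374, o1576, o1583, o1571, o1568, o552, l1064, l88, l85, l311, o2134, o2129, o2119, l1312, l336, l335, l331, o9047, o9059, l275, l932, o4309, o6406, l1222, l841, o8543, l1277, o3786, o3804, o5789, o5788, o5787, o5767, l1273, o3775, o3776, o5807, o5801, o9134, l430, o8401, o8400, o1960, o1964, o2160, o2362, o2377, o2164, o2178, o2356, o2360, l1657, l389, l390,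 o3557, o8825, o8533, o9002, o7039, l1656, l471, l474, l480, o5374, o5341, o5170, o5391, o5392, l668, o8455, o8454, o8536, l1242, o8397, o3782, o3473, o8886, l1725, l1729, l1732, o2285, o2278, o2281, o1907, o2072, o2069, l1733, l1734, o3434, o3440, o3442, o3011, o3032, o3684, o3736, o3737, l1722, l1716, l1708] l1735 := rupP (by decide +kernel)
theorem r1736 : PImp [o4312, l1530, l1055, l801, l1526, l279, l1515, l523, l878, o2759, o9100, o4311, l803, l924, o2776, o6408, l274, l276, o1973, o1972, o6475, o2762, l806, o2764, l169, l1511, o4310, l177, o2774, l805, o6474, l883, l888, o355, o356, l925, o6491, o6537, o9027, o1158, o1156, o1157, l1639, o1940, l928, l892, o2368, o2371, l1647, l84, l89, o551, l1665, l1670, o1155, o1574, o1568, o349, o788, o790, o8546, o3202, l671, o8383, o8687, l1735, o8701, l642, o8397, o3808, o3792] l1736 := rupP (by decide +kernel)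
theorem r1737 : PImp [o786, o789, o311, l1645, l1646, o3185] l1737 := rupP (by decide +kernel)
theorem r1738 : PImp [l1639, o4311, l801, l1526, l279, o4312, l1530, l1515, l803, l924, l878, l523, o2776, o6408, l169, o4310, l177, o2774, l805, o6475, o6474, l925, o2759, o2762, l806, o2764, l1511, o6491, o9027, l1312, l336, o1157, o1156, o1158, o6537, l1175, o356, o355, l892, l928, l888, l883, o1972, o1973, l276, l274, o9100, l1055, l311, o2119, o2129, o1940, o2368, o2371, l1647, l84, l88, l89, o551, l1665, o1574, o1376, o1155, l1670, l1737, o349, o8546, l1736, o3202, l671, l1145, o8383, o4492, o8687, l1541, o8693] l1738 := rupP (by decide +kernel)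
theorem r1739 : PImp [o4311, l801, l1526, l279, o4312, l1530, l1515, l803, l924, l878, l523, o2776, o6408, l169, o4310, l177, o2774, l805, o6475, o6474, l925, o2759, o2762, l806, o2764, l1511, o6491, o9027, l1312, l332, l928, l888, l275, l1223, l1222, o4508, o4507, l1218, o9171, o7183, l397] l1739 := rupP (by decide +kernel)
theorem r1740 : PImp [o576, o589, l1539, l1544, o8595, o8759] l1740 := rupP (by decide +kernel)
theorem r1741 : PImp [l403, o3579, l399, o1574, o1576, o1376, l1740, o786, o789, o8482, l1616] l1741 := rupP (by decide +kernel)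
theorem r1742 : PImp [l403, l399, o786, o789, l1587, l1616, o5792] l1742 := rupP (by decide +kernel)
theorem r1743 : PImp [o5445, o5475, l1624] l1743 := rupP (by decide +kernel)
theorem r1744 : PImp [l399, o2373, o2369, o2374, l311, l310, l1223, l1222, l843, l841, l497, l498, o5498, o5499, o7133, o7122, o8944, l1595, o3805, o3802, o3507, l1741, o1326, o1334, l1742, o594, o589, o793, l746, o3502, l1743, o5404, o5393, o8792, o8793] l1744 := rupP (by decide +kernel)
theorem r1745 : PImp [o1326, o8798, o8793] l1745 := rupP (by decide +kernel)
theorem r1746 : PImp [o1568, o8772, o8773] l1746 := rupP (by decide +kernel)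
theorem r1747 : PImp [l486, o5464, o5461, l1746, o1326, l1745, o7182] l1747 := rupP (by decide +kernel)
theorem r1748 : PImp [o788, o589, o790, o793, l769, l1743, l746, l759, l644, l1747, l480, l1624] l1748 := rupP (by decide +kernel)
theorem r1749 : PImp [l1530, l932, l1222, l801, l1526, l279, o4312, l1515, l523, l878, o2762, l806, o2764, o4311, l803, l924, o2776, o6408, l169, l1511, o4310, l177, o2774, l805, o6475, o6474, l927, o355, o9047, l925, o2759, o6491, o9027, o1158, l1738, o1972, o2374, l275, o2167, l274, o2180, o2369, o2373, l928, l396, o7183, o8886, l840, l403, o7185, l1748, o307, l399, l888, l1223, l1055, o1973, o1974, o9059, l883, o356, l1175, o1156, o1157, o2181, l1312, l332, l1739, l1149, l1150, l1744, o7328, l170, o1961, o4309, o6406, o1965, o4308, l1064, l1743, o4785, o4796, l1590, o8788, o1121, o1126, o8819, o6486, o8807, o2729] l1749 := rupP (by decide +kernel)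
theorem r1750 : PImp [o4310, o4311, l801, l1526, l279, o4312, l1530, l1515, l803, l924, l878, l523, o2776, o6408, l177, o2774, l805, o6475, o6474, l883, l1749, o591, l1222, o2762, l806, o2764, l169, l1511, l927, o355, o9047, l925, o2759, o6491, o9027, o1158, l1738, o1972, o2374, l275, o2167, l274, o2180, o2369, o2373, l928, l396, o7183, o8886, l840, l403, o7185, l1748, l399, l888, l1223, l1055, o1973, o1974, o9059, o356, l1175, o1156, o1157, o2181, l1312, l332, l1739, l1149, l1150, l1744, o7328, l395, l276, o2162, o1967, l170, o1961, o2381, o357, l892, o4785, o4817, o8788, l1619, o1586, o8819, o8997, o5802, o8820, o3816] l1750 := rupP (by decide +kernel)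
theorem r1751 : PImp [o4310, o4311, l801, l1526, l279, o4312, l1530, l1515, l803, l924, l878, l523, o2776, o6408, l177, o2774, l805, o6475, o6474, l883, o592, l888, o585, l928, o582, l892, l169, o2762, l806, o2764, l1511, o2759, l925, o6491, l1175, l276, l486, o8942, l400, l398, o9027, l1312, l332, l1739, l1150, o1972, l1738, o2373, o2369, l275, o2167, o2162, o1967, l170, o1961, o2374, o1157, o1156, o1158, o356, o357, o9059, o1974, o1973, l1223, o4785, o4817, l1750, l1619, o3575, o3576, o5794, o5791, o5498, o3805, o3809, l1588, o7328, o8817, o8818, o8787] l1751 := rupP (by decide +kernel)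
theorem r1752 : PImp [l406, o3486, o3481, l1502, l1157, l1503, l86, o8495, o8454, o8496] l1752 := rupP (by decide +kernel)
theorem r1753 : PImp [o4311, l801, l1526, l279, o4312, l1530, l1515, l803, l924, l878, l523, o2776, o6408, l275, l1222, o4310, l177, o2774, l805, o6475, o6474, l928, l892, l169, o2762, l806, o2764, l1511, o2759, l925, o6491, l1175, l276, l486, o8942, l398, o8886, l274, l1738, o2181, o2180, o2179, o2167, o2165, l927, l840, l1751, o5443, o5445, l1752, l403, o7185, o5472, o5475, o5483, l1626, l1611, l385, l1627, o8365, l1159, o8367] l1753 := rupP (by decide +kernel)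
theorem r1754 : PImp [l90, l403, o3561, o3567, o7185, o5475, o5483, l1611, l1627, l116, o8365, o8364] l1754 := rupP (by decide +kernel)
theorem r1755 : PImp [o4311, l801, l1526, l279, o4312, l1530, l1515, l803, l924, l878, l523, o2776, o6408, l275, l1222, o4310, l177, o2774, l805, o6475, o6474, l928, l892, l169, o2762, l806, o2764, l1511, o2759, l925, o6491, l1175, l276, l486, o8942, l398, o8886, o9027, l1312, l332, l1739, l1150, l1149, l274, l1738, o2181, o2180, o2167, o1972, o2381, o1156, l927, l883, o9059, l311, l841, l840, o592, o591, l1753, l1590, o3546, o5445, l1754, o9002, o7039, o3487, o5381, l667, l1592] l1755 := rupP (by decide +kernel)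
theorem r1756 : PImp [l1539, o8339] l1756 := rupP (by decide +kernel)
theorem r1757 : PImp [l1756, o8595, o8646] l1757 := rupP (by decide +kernel)
theorem r1758 : PImp [l480, l88, l114, o8795, o8793] l1758 := rupP (by decide +kernel)
theorem r1759 : PImp [l387, l88, l85, l1758, l112, o8759, o8454, o8760] l1759 := rupP (by decide +kernel)
theorem r1760 : PImp [o4311, l801, l1526, l279, o4312, l1530, l1515, l803, l924, l878, l523, o2776, o6408, l274, l1738, o2180, l275, o2167, o2165, o1972, o2374, l169, o4310, l177, o2774, l805, o6475, o6474, l925, o2759, o2762, l806, o2764, l1511, o6491, o9027, l1175, o9047, l892, l928, l276, l1055, l1222, l486, o8942, l398, o8886, l1755, l88, o549, l1749, l746, l405, o3502, l1757, o3546, l1759, l476, l1752] l1760 := rupP (by decide +kernel)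
theorem r1761 : PImp [l1064, l1065, o6486, o6487, o8334, o4687, l1624] l1761 := rupP (by decide +kernel)
theorem r1762 : PImp [l492, l476, o5357, o5359, o5381, l1752, l667, o3164, o3168, o1121, o1123, o1577, l1761, o582, o592, o591, o8377, l1592, o8375, o3815, o3808] l1762 := rupP (by decide +kernel)
theorem r1763 : PImp [l900, l90, l480, l479, o3202, o3164, l1590, o6518, l667, l856, l1212, l1213, o1121, o8668, o6486, o8809, l1016, o8810, o8671, l388] l1763 := rupP (by decide +kernel)
theorem r1764 : PImp [l90, l116, o8810, o8809] l1764 := rupP (by decide +kernel)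
theorem r1765 : PImp [l480, l479, l90, o592, l1763, o3494, o3503, l1764, l1158, o8782, o8781] l1765 := rupP (by decide +kernel)
theorem r1766 : PImp [o3486, o3494, l1759] l1766 := rupP (by decide +kernel)
theorem r1767 : PImp [l1222, l841, l806, l801, l803, l805, o4312, o4311, o4310, l1526, l311, l279, l1530, l924, l1515, l523, l878, o2759, o2776, o2774, o2764, o2762, o6408, l169, l170, l177, l274, l275, o1972, o6475, o9059, l1511, o6474, l925, l883, l928, o9047, o6491, o9027, o1156, o1157, l1312, l332, l1738, o2381, o1968, o1961, o1963, o2165, o2167, o2180, o2181, o2373, l1739, l428, l1149, l1150, l1760, l492, o7183, l396, o7039, l1762, o4685, o4726, l1765, l1064, l1766, o3164, o6486, o1121, l667, l759, l1590] l1767 := rupP (by decide +kernel)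
theorem r1768 : PImp [l222, l301, l300, l298, l1065, l89, l88, l420, o4689, l1147, o6487, o6472, l1183, o9049, l1657, l389, l1759, o8595, o8646] l1768 := rupP (by decide +kernel)
theorem r1769 : PImp [o3148, l1512, l405, o3142, o3139, l237, l235, l841, l806, o3168, l1768, o4256, o4534, l1218, l1270, o9169, l1021, l882, o2764, o6472, o6473] l1769 := rupP (by decide +kernel)
theorem r1770 : PImp [o3208, o3220] l1770 := rupP (by decide +kernel)
theorem r1771 : PImp [l924, l932, l235, l246, l803, l1770, l1769, o6492, o6472, o6475, o3232, o3216] l1771 := rupP (by decide +kernel)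
theorem r1772 : PImp [o6472, o6492] l1772 := rupP (by decide +kernel)
theorem r1773 : PImp [l245, o1971, l247, l235, l234, l308, l1223, l1222, l806, l933, l887, l936, o354, o6369, o9004, o6368, o7086, o5500, o1158, o8945] l1773 := rupP (by decide +kernel)
theorem r1774 : PImp [l235, l221, l300, l298, l1065, l1064, l480, l840, l1773, l885, o304, o6358, o7074, o5475, l759, o8608, o1121, o1336, o8640, o8644, o2866, l1759] l1774 := rupP (by decide +kernel)
theorem r1775 : PImp [l248, l932, l406, l405, l235, l479, l1767, l801, o4355, o4353, o4352, l523, o3148, o3144, o3139, o3135, o3142, l1512, l1771, o2759, o3219, o2907, o2908, l1021, l1270, o4255, o4256, o4257, o4679, l1149, l1147, l1774, l1769, o6472, o6492] l1775 := rupP (by decide +kernel)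
theorem r1776 : PImp [l221, l301, l300, l298, l1064, l89, l88, o4453, o8640, o8645, o8646, l389, l1759] l1776 := rupP (by decide +kernel)
theorem r1777 : PImp [l221, l1064, l1222, l840, o1121, o1332, o1318, l1776, o4785, o8334, l1594] l1777 := rupP (by decide +kernel)
theorem r1778 : PImp [l1512, l786, o2707] l1778 := rupP (by decide +kernel)
theorem r1779 : PImp [l627, o8608] l1779 := rupP (by decide +kernel)
theorem r1780 : PImp [l1150, o7229, l1218, o9169] l1780 := rupP (by decide +kernel)
theorem r1781 : PImp [l221, l305, l301, l300, l298, l1064, l89, l480, l479, o4785, o8658, o8640, o8644, o8791, l391, l392, l1759, o8792, o8794, l379, o8809, l470, o2872, o4457, l1258] l1781 := rupP (by decide +kernel)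
theorem r1782 : PImp [l840, o1343, o1336, o1332, o1121, l300, l298, l479, l1781, o4977, o4704, l978, l1777, o2866, o2868, l1759] l1782 := rupP (by decide +kernel)
theorem r1783 : PImp [o4977, o8377, o4704, o4713, l1274, l978, l335, o2704, l1312, l784] l1783 := rupP (by decide +kernel)
theorem r1784 : PImp [l301, l89, o4503, l978, o4453, l1776, o9133, o8794, o2867] l1784 := rupP (by decide +kernel)
theorem r1785 : PImp [l84, l479, l1767, o4231, l1222, l840, o1121, o1332, o1318, l1782, o534, l1783, o4785, o8682, l1784, l419, l427, l1148, l1250, l335] l1785 := rupP (by decide +kernel)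
theorem r1786 : PImp [o7229, l1780, l502, l332, o4883, l1312, l978, l784, o2703] l1786 := rupP (by decide +kernel)
theorem r1787 : PImp [o538, l1786, o8626, l667, o5467, o7039] l1787 := rupP (by decide +kernel)
theorem r1788 : PImp [l1055, l406, l405, l88, l1767, o4231, l843, l841, l244, l248, l1775, l1785, l1787, l1779, l1512, o7220, l786, l337, o4883, o2705, l978] l1788 := rupP (by decide +kernel)
theorem r1789 : PImp [l1512, l786, l337, l1250, o2705, l427, l978] l1789 := rupP (by decide +kernel)
theorem r1790 : PImp [o4353, o4352, l1520] l1790 := rupP (by decide +kernel)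
theorem r1791 : PImp [l1767, l785, l235, l234, o6369, l1508, o2755, o6491] l1791 := rupP (by decide +kernel)
theorem r1792 : PImp [l300, l298, l385, l1759] l1792 := rupP (by decide +kernel)
theorem r1793 : PImp [l1312, l332, l1779, o556, o8809, o9140, l489, o5492, o4506, o8626, l1150] l1793 := rupP (by decide +kernel)
theorem r1794 : PImp [l1767, l1789, l300, l88, l1792, o8595, l113, l305, l479, l114, l480, o8646, o8644, o8793, l391, o8792, o8809, l1312, l332, o2870, l405, l221, l1064, l843, l1055, l1788, l277, l1793, o1121, o9140, o8640, o5495, o4783] l1794 := rupP (by decide +kernel)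
theorem r1795 : PImp [o6496, o6373] l1795 := rupP (by decide +kernel)
theorem r1796 : PImp [o4998, l843, l806, o7286, o4887, l1218, o9173, o4785, o8626, o5809, o8640, o1124, o8628, o8726] l1796 := rupP (by decide +kernel)
theorem r1797 : PImp [o4998, l234, l308, l307, l1767, l1222, o5508, o5510, o4909, o9054, l1270, l398, l1021, o9115, o2759, l1175, o9050] l1797 := rupP (by decide +kernel)
theorem r1798 : PImp [l1794, l893, l922, l880, l916, l479, l305, l1767, l1789, l300, l88, l1792, o8595, l114, l480, o8646, o8644, o8793, l113, l391, o8792, l895, o350, l894, o348, o7084, o7181, o3488, l1312, l332, o2870, l406, l405, l221, l1064, l801, l277, l1795, l1785, l1796, o6627, l1797, l489, o5492, o4506, o8626, l1150] l1798 := rupP (by decide +kernel)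
theorem r1799 : PImp [l1798, l248, l1794, l479, l305, l1767, l1789, l300, l88, l1792, o8595, l114, l480, o8646, o8644, o8793, l113, l391, o8792, l895, o350, l406, o4231, l841, l1785, l1787] l1799 := rupP (by decide +kernel)
theorem r1800 : PImp [l235, l300, l88, l480, l1767, l1789, l1792, o8595, l114, o7181, o8646, o8644, o7084, l1794, l917, l1799, o4352, o6369, o6492] l1800 := rupP (by decide +kernel)
theorem r1801 : PImp [l1767, o4354, o4352, o4355, l427, o4503, o4538, l235, l246, l245, l307, l840, l803, l805, l916, l917, l919, l920, l921, l893, o7088, o6369, o6371, o6492, o3145, o6495, l1269, l1270, o2792, o2919, o9115, l1791, l1176] l1801 := rupP (by decide +kernel)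
theorem r1802 : PImp [l1412, l427, o4505, l1767, l843, l801, o4353, o4352, l1801, l1055, l1515, l277, l279, o7076, l1520, o6361, o3139] l1802 := rupP (by decide +kernel)
theorem r1803 : PImp [o6369, o6358] l1803 := rupP (by decide +kernel)
theorem r1804 : PImp [l1779, o1121, o8994, o6486, l1594, o8334] l1804 := rupP (by decide +kernel)
theorem r1805 : PImp [l300, l88, l480, o7083, o7084, o8646, o8644] l1805 := rupP (by decide +kernel)
theorem r1806 : PImp [l305, l480, l479, l391, o8793, o8792, o8809] l1806 := rupP (by decide +kernel)
theorem r1807 : PImp [l300, l385, l1758] l1807 := rupP (by decide +kernel)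
theorem r1808 : PImp [l300, l297, l88, l84, o1316, o1318, l1807, l379, l381, o8646, o8648, o5346, o8341, o5345, l1594, l34, o529, o3474, o9054] l1808 := rupP (by decide +kernel)
theorem r1809 : PImp [l235, l305, l300, l88, l480, l479, l840, l113, l114, l1807, l1805, o8644, o7181, l391, o8793, l1806, o8792, o7072, o9142, l1803, l885, o6492] l1809 := rupP (by decide +kernel)
theorem r1810 : PImp [l110, l300, l297, l88, l84, l379, o8595, l1778, o8597, l1259, o5158, l1138] l1810 := rupP (by decide +kernel)
theorem r1811 : PImp [l300, l88, l480, l1159, l1810, l385, o8759, o8757] l1811 := rupP (by decide +kernel)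
theorem r1812 : PImp [l405, l297, l1066, l84, l1222, l843, l841, l1055, o309, o9140, l315, o2133, o7039, o9169, l1808, l667, l1218, o5346, l332, o8648, o8597, l1312] l1812 := rupP (by decide +kernel)
theorem r1813 : PImp [l880, l221, l297, l1064, l84, l1222, l843, l801, o8648, o8597, o1316, l1312, l332, o2887, l1797, l1218, o9168, l250, l1796, o6627] l1813 := rupP (by decide +kernel)
theorem r1814 : PImp [l308, l305, l300, l88, l480, l479, l1767, l840, l405, l406, l1800, l1412, l427, l428, l430, l431, o4538, o4505, o4501, o4503, o4504, l1802, l1811, l113, l114, l1807, l379, o3488, o8646, o8644, l391, o8793, l1806, o8792, o9142, l894, o594, l91, l93, l881, l884, l1812, o348, l1813, o5158, o5346, l1138, l1254, l330, l1210, l1274, o9173, o8377] l1814 := rupP (by decide +kernel)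
theorem r1815 : PImp [l300, l88, l480, l114, o8593, o8595] l1815 := rupP (by decide +kernel)
theorem r1816 : PImp [l300, l88, l480, o3561, o3552, l1815, l1159, o8644, o8646] l1816 := rupP (by decide +kernel)
theorem r1817 : PImp [l300, l88, l1807, o8646] l1817 := rupP (by decide +kernel)
theorem r1818 : PImp [l300, l88, l1811, l428, l1250, l1412, l1512, l1792, o8595] l1818 := rupP (by decide +kernel)
theorem r1819 : PImp [l1818, l1807, l379, l1312, o2887, l332, l1816, l406, l1817, l221, l1064, l84, l479, l840, o4255, o4256, o4679, l1150, o8640, o1121, l1779, o8626, o534, o5462, l667, o7038] l1819 := rupP (by decide +kernel)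
theorem r1820 : PImp [l1816, l1814, l312, l1767, l1818, l1807, l379, l1817, l297, l84, l1222, l841, l1312, l332, l1819, l427, l428, o4538, o4504, l1218, o9169, o543, l1779, o1316, o8648, o8341, o5346, l1594] l1820 := rupP (by decide +kernel)
theorem r1821 : PImp [l1512, l786, l1778, l1250, l1021, l428, l1259, l1138, o5165, o8794, o8758] l1821 := rupP (by decide +kernel)
theorem r1822 : PImp [l221, l1767, l480, l89, l301, l1818, l114, l1817, o8644, l392, o8793, l1821, l1820, o1933, l231, o1938, l300, o2122, l297, o2113, o1940, l305, o2139, l1816, l406, l405, l1312, l113, l1806, l843, l801, l803, l427, o4538, l1270, o4505, o4503, l1021, o9140, l1809, l92, l94, l1051, l1054, l1055, o4981, o4995, o4352, l1797, o2921, o6627, o9115, o6626, l1175, o2758, o9050] l1822 := rupP (by decide +kernel)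
theorem r1823 : PImp [l1817, o4857, l1809] l1823 := rupP (by decide +kernel)
theorem r1824 : PImp [l1803, l1772] l1824 := rupP (by decide +kernel)
theorem r1825 : PImp [l880, o350, o7286, o8724] l1825 := rupP (by decide +kernel)
theorem r1826 : PImp [l1767, l1818, l1807, l379, l480, l89, l301, l114, l1817, o8644, l392, o8793, l1821, l1312, o2887, l335, l305, l391, l479, l113, o8792, o7072, l895, l1805, l300, l88, o7181, l221, l1064, l84, l843, l840, l1816, l405, l406, l1820, o2139, o2122, o1934, l1822, o4255, o4257, o4679, l1147, o8640, o1121, l1823, o5475, l1824, o4856, l1825, l1055, o7275, o8704, o534, o8724, o7284] l1826 := rupP (by decide +kernel)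
theorem r1827 : PImp [l806, l801, l932, o6747, o6744] l1827 := rupP (by decide +kernel)
theorem r1828 : PImp [l918, l806, l801, l173, o6767, o6764] l1828 := rupP (by decide +kernel)
theorem r1829 : PImp [l801, l803, l917, l920, l1828, o6699, o6698, l170, o6766, o6763] l1829 := rupP (by decide +kernel)
theorem r1830 : PImp [l840, l806, l803, l805, o6685, o6687, l172, o6744, l177, l274, o6743, o6745, o6765, l935, o7380, o9052] l1830 := rupP (by decide +kernel)
theorem r1831 : PImp [l1767, l801, o4981, o4982, o4988, o4995, o4352, o4994, l1829, l932, l924, l1830, o6688, l173, l1827] l1831 := rupP (by decide +kernel)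
theorem r1832 : PImp [l801, l171, o6747, l1772, l1273, l1147] l1832 := rupP (by decide +kernel)
theorem r1833 : PImp [l924, l932, l840, l806, l803, l176, l1772, o6492, l1147, o6473, l885, o4519, o4997, o7174, o6687, l274] l1833 := rupP (by decide +kernel)
theorem r1834 : PImp [l924, l932, l1767, l840, l806, l801, l803, o4998, l1832, o6688, l1833, l170, l172, l235, o6687, o6685, o6406, o4349, l1412, o6405, o4556, l935, o6413, o7134] l1834 := rupP (by decide +kernel)
theorem r1835 : PImp [l806, l172, o6473, l1772] l1835 := rupP (by decide +kernel)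
theorem r1836 : PImp [l1767, l806, l801, l932, l1834, o4353, l1835, l173, o6406, l1515] l1836 := rupP (by decide +kernel)
theorem r1837 : PImp [l89, l88, l480, l1767, l806, l801, l803, l300, l301, l1818, l114, l1807, o7181, l1817, l379, o8644, l392, o8793, l1821, l1312, l335, o2896, o2887, o2892, l1826, o3055, o3070, o3066, o3079, o3107, o3478, l1831, l1836, l917, l918, l920, o9049, o6413, l170, l171, l172, o6416, o6414, o6696, o4355, o6699] l1837 := rupP (by decide +kernel)
theorem r1838 : PImp [l918, l917, l806, l801, l171, l172, o6413, o6699, o6414, o6696] l1838 := rupP (by decide +kernel)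
theorem r1839 : PImp [l303, l88, l480, l114, o8733, l385, o8859, o8858] l1839 := rupP (by decide +kernel)
theorem r1840 : PImp [l303, l88, l1541, o8693, o2896, l1328] l1840 := rupP (by decide +kernel)
theorem r1841 : PImp [l302, l480, l479, l113, l114, l1839, o8732, l391, o8858, l628, o8857] l1841 := rupP (by decide +kernel)
theorem r1842 : PImp [l918, l806, l801, l173, o6496, o6493] l1842 := rupP (by decide +kernel)
theorem r1843 : PImp [l872] l1843 := rupP (by decide +kernel)
theorem r1844 : PImp [l1047] l1844 := rupP (by decide +kernel)
theorem r1845 : PImp [l874] l1845 := rupP (by decide +kernel)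
theorem r1846 : PImp [l1048] l1846 := rupP (by decide +kernel)
theorem r1847 : PImp [l875] l1847 := rupP (by decide +kernel)
theorem r1848 : PImp [l1050] l1848 := rupP (by decide +kernel)
theorem r1849 : PImp [l1007] l1849 := rupP (by decide +kernel)
theorem r1850 : PImp [l970] l1850 := rupP (by decide +kernel)
theorem r1851 : PImp [l1006] l1851 := rupP (by decide +kernel)
theorem r1852 : PImp [l972] l1852 := rupP (by decide +kernel)
theorem r1853 : PImp [l1005] l1853 := rupP (by decide +kernel)
theorem r1854 : PImp [l973] l1854 := rupP (by decide +kernel)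
theorem r1855 : PImp [l1004] l1855 := rupP (by decide +kernel)
theorem r1856 : PImp [l974] l1856 := rupP (by decide +kernel)
theorem r1857 : PImp [l1003] l1857 := rupP (by decide +kernel)
theorem r1858 : PImp [l975] l1858 := rupP (by decide +kernel)
theorem r1859 : PImp [l1002] l1859 := rupP (by decide +kernel)
theorem r1860 : PImp [l976] l1860 := rupP (by decide +kernel)
theorem r1861 : PImp [l876] l1861 := rupP (by decide +kernel)
theorem r1862 : PImp [l1001] l1862 := rupP (by decide +kernel)
theorem r1863 : PImp [l869] l1863 := rupP (by decide +kernel)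
theorem r1864 : PImp [l998] l1864 := rupP (by decide +kernel)
theorem r1865 : PImp [l877] l1865 := rupP (by decide +kernel)
theorem r1866 : PImp [l999] l1866 := rupP (by decide +kernel)
theorem r1867 : PImp [l956] l1867 := rupP (by decide +kernel)
theorem r1868 : PImp [l959] l1868 := rupP (by decide +kernel)
theorem r1869 : PImp [l957] l1869 := rupP (by decide +kernel)
theorem r1870 : PImp [l955] l1870 := rupP (by decide +kernel)
theorem r1871 : PImp [l958] l1871 := rupP (by decide +kernel)
theorem r1872 : PImp [l949] l1872 := rupP (by decide +kernel)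
theorem r1873 : PImp [l952] l1873 := rupP (by decide +kernel)
theorem r1874 : PImp [l947] l1874 := rupP (by decide +kernel)
theorem r1875 : PImp [l950] l1875 := rupP (by decide +kernel)
theorem r1876 : PImp [l946] l1876 := rupP (by decide +kernel)
theorem r1877 : PImp [l951] l1877 := rupP (by decide +kernel)
theorem r1878 : PImp [l942] l1878 := rupP (by decide +kernel)
theorem r1879 : PImp [l945] l1879 := rupP (by decide +kernel)
theorem r1880 : PImp [l941] l1880 := rupP (by decide +kernel)
theorem r1881 : PImp [l943] l1881 := rupP (by decide +kernel)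
theorem r1882 : PImp [l939] l1882 := rupP (by decide +kernel)
theorem r1883 : PImp [l944] l1883 := rupP (by decide +kernel)
theorem r1884 : PImp [l926] l1884 := rupP (by decide +kernel)
theorem r1885 : PImp [l934] l1885 := rupP (by decide +kernel)
theorem r1886 : PImp [l923] l1886 := rupP (by decide +kernel)
theorem r1887 : PImp [l931] l1887 := rupP (by decide +kernel)
theorem r1888 : PImp [l918] l1888 := rupP (by decide +kernel)
theorem r1889 : PImp [l932] l1889 := rupP (by decide +kernel)
theorem r1890 : PImp [l915] l1890 := rupP (by decide +kernel)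
theorem r1891 : PImp [l969] l1891 := rupP (by decide +kernel)
theorem r1892 : PImp [l914] l1892 := rupP (by decide +kernel)
theorem r1893 : PImp [l968] l1893 := rupP (by decide +kernel)
theorem r1894 : PImp [l913] l1894 := rupP (by decide +kernel)
theorem r1895 : PImp [l967] l1895 := rupP (by decide +kernel)
theorem r1896 : PImp [l912] l1896 := rupP (by decide +kernel)
theorem r1897 : PImp [l966] l1897 := rupP (by decide +kernel)
theorem r1898 : PImp [l911] l1898 := rupP (by decide +kernel)
theorem r1899 : PImp [l965] l1899 := rupP (by decide +kernel)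
theorem r1900 : PImp [l910] l1900 := rupP (by decide +kernel)
theorem r1901 : PImp [l964] l1901 := rupP (by decide +kernel)
theorem r1902 : PImp [l980] l1902 := rupP (by decide +kernel)
theorem r1903 : PImp [l963] l1903 := rupP (by decide +kernel)
theorem r1904 : PImp [l981] l1904 := rupP (by decide +kernel)
theorem r1905 : PImp [l962] l1905 := rupP (by decide +kernel)
theorem r1906 : PImp [l982] l1906 := rupP (by decide +kernel)
theorem r1907 : PImp [l961] l1907 := rupP (by decide +kernel)
theorem r1908 : PImp [l984] l1908 := rupP (by decide +kernel)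
theorem r1909 : PImp [l771] l1909 := rupP (by decide +kernel)
theorem r1910 : PImp [l987] l1910 := rupP (by decide +kernel)
theorem r1911 : PImp [l909] l1911 := rupP (by decide +kernel)
theorem r1912 : PImp [l988] l1912 := rupP (by decide +kernel)
theorem r1913 : PImp [l906] l1913 := rupP (by decide +kernel)
theorem r1914 : PImp [l990] l1914 := rupP (by decide +kernel)
theorem r1915 : PImp [l773] l1915 := rupP (by decide +kernel)
theorem r1916 : PImp [l991] l1916 := rupP (by decide +kernel)
theorem r1917 : PImp [l954] l1917 := rupP (by decide +kernel)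
theorem r1918 : PImp [l992] l1918 := rupP (by decide +kernel)
theorem r1919 : PImp [l905] l1919 := rupP (by decide +kernel)
theorem r1920 : PImp [l993] l1920 := rupP (by decide +kernel)
theorem r1921 : PImp [l953] l1921 := rupP (by decide +kernel)
theorem r1922 : PImp [l994] l1922 := rupP (by decide +kernel)
theorem r1923 : PImp [l904] l1923 := rupP (by decide +kernel)
theorem r1924 : PImp [l995] l1924 := rupP (by decide +kernel)
theorem r1925 : PImp [l903] l1925 := rupP (by decide +kernel)
theorem r1926 : PImp [l979] l1926 := rupP (by decide +kernel)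
theorem r1927 : PImp [l778] l1927 := rupP (by decide +kernel)
theorem r1928 : PImp [l1069] l1928 := rupP (by decide +kernel)
theorem r1929 : PImp [l902] l1929 := rupP (by decide +kernel)
theorem r1930 : PImp [l1016] l1930 := rupP (by decide +kernel)
theorem r1931 : PImp [l777] l1931 := rupP (by decide +kernel)
theorem r1932 : PImp [l1068] l1932 := rupP (by decide +kernel)
theorem r1933 : PImp [l901] l1933 := rupP (by decide +kernel)
theorem r1934 : PImp [l1065] l1934 := rupP (by decide +kernel)
theorem r1935 : PImp [l898] l1935 := rupP (by decide +kernel)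
theorem r1936 : PImp [l1061] l1936 := rupP (by decide +kernel)
theorem r1937 : PImp [l894] l1937 := rupP (by decide +kernel)
theorem r1938 : PImp [l1059] l1938 := rupP (by decide +kernel)
theorem r1939 : PImp [l890] l1939 := rupP (by decide +kernel)
theorem r1940 : PImp [l889] l1940 := rupP (by decide +kernel)
theorem r1941 : PImp [l938] l1941 := rupP (by decide +kernel)
theorem r1942 : PImp [l1058] l1942 := rupP (by decide +kernel)
theorem r1943 : PImp [l886] l1943 := rupP (by decide +kernel)
theorem r1944 : PImp [l885] l1944 := rupP (by decide +kernel)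
theorem r1945 : PImp [l935] l1945 := rupP (by decide +kernel)
theorem r1946 : PImp [l1057] l1946 := rupP (by decide +kernel)
theorem r1947 : PImp [l882] l1947 := rupP (by decide +kernel)
theorem r1948 : PImp [l1052] l1948 := rupP (by decide +kernel)
theorem r1949 : PImp [l879] l1949 := rupP (by decide +kernel)
theorem r1950 : PImp [o611] l1950 := rupP (by decide +kernel)
theorem r1951 : PImp [o676] l1951 := rupP (by decide +kernel)
theorem r1952 : PImp [o757] l1952 := rupP (by decide +kernel)
theorem r1953 : PImp [o758] l1953 := rupP (by decide +kernel)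
theorem r1954 : PImp [o816] l1954 := rupP (by decide +kernel)
theorem r1955 : PImp [o817] l1955 := rupP (by decide +kernel)
theorem r1956 : PImp [l1015] l1956 := rupP (by decide +kernel)
theorem r1957 : PImp [l863] l1957 := rupP (by decide +kernel)
theorem r1958 : PImp [l862] l1958 := rupP (by decide +kernel)
theorem r1959 : PImp [l1261] l1959 := rupP (by decide +kernel)
theorem r1960 : PImp [l861] l1960 := rupP (by decide +kernel)
theorem r1961 : PImp [l1262] l1961 := rupP (by decide +kernel)
theorem r1962 : PImp [l860] l1962 := rupP (by decide +kernel)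
theorem r1963 : PImp [l715] l1963 := rupP (by decide +kernel)
theorem r1964 : PImp [l1239] l1964 := rupP (by decide +kernel)
theorem r1965 : PImp [l825] l1965 := rupP (by decide +kernel)
theorem r1966 : PImp [l1238] l1966 := rupP (by decide +kernel)
theorem r1967 : PImp [l1206] l1967 := rupP (by decide +kernel)
theorem r1968 : PImp [l1237] l1968 := rupP (by decide +kernel)
theorem r1969 : PImp [l826] l1969 := rupP (by decide +kernel)
theorem r1970 : PImp [l1236] l1970 := rupP (by decide +kernel)
theorem r1971 : PImp [l1207] l1971 := rupP (by decide +kernel)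
theorem r1972 : PImp [l1235] l1972 := rupP (by decide +kernel)
theorem r1973 : PImp [l1208] l1973 := rupP (by decide +kernel)
theorem r1974 : PImp [l1234] l1974 := rupP (by decide +kernel)
theorem r1975 : PImp [l827] l1975 := rupP (by decide +kernel)
theorem r1976 : PImp [l859] l1976 := rupP (by decide +kernel)
theorem r1977 : PImp [l1264] l1977 := rupP (by decide +kernel)
theorem r1978 : PImp [l858] l1978 := rupP (by decide +kernel)
theorem r1979 : PImp [l857] l1979 := rupP (by decide +kernel)
theorem r1980 : PImp [l1266] l1980 := rupP (by decide +kernel)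
theorem r1981 : PImp [l817] l1981 := rupP (by decide +kernel)
theorem r1982 : PImp [l1202] l1982 := rupP (by decide +kernel)
theorem r1983 : PImp [l816] l1983 := rupP (by decide +kernel)
theorem r1984 : PImp [l815] l1984 := rupP (by decide +kernel)
theorem r1985 : PImp [l1198] l1985 := rupP (by decide +kernel)
theorem r1986 : PImp [l813] l1986 := rupP (by decide +kernel)
theorem r1987 : PImp [l1193] l1987 := rupP (by decide +kernel)
theorem r1988 : PImp [l812] l1988 := rupP (by decide +kernel)
theorem r1989 : PImp [l1188] l1989 := rupP (by decide +kernel)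
theorem r1990 : PImp [l811] l1990 := rupP (by decide +kernel)
theorem r1991 : PImp [l1189] l1991 := rupP (by decide +kernel)
theorem r1992 : PImp [l810] l1992 := rupP (by decide +kernel)
theorem r1993 : PImp [l1182] l1993 := rupP (by decide +kernel)
theorem r1994 : PImp [l809] l1994 := rupP (by decide +kernel)
theorem r1995 : PImp [l1177] l1995 := rupP (by decide +kernel)
theorem r1996 : PImp [l808] l1996 := rupP (by decide +kernel)
theorem r1997 : PImp [l1178] l1997 := rupP (by decide +kernel)
theorem r1998 : PImp [l805] l1998 := rupP (by decide +kernel)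
theorem r1999 : PImp [l1172] l1999 := rupP (by decide +kernel)
theorem r2000 : PImp [l804] l2000 := rupP (by decide +kernel)
theorem r2001 : PImp [l1170] l2001 := rupP (by decide +kernel)
theorem r2002 : PImp [l802] l2002 := rupP (by decide +kernel)
theorem r2003 : PImp [l1171] l2003 := rupP (by decide +kernel)
theorem r2004 : PImp [l1169] l2004 := rupP (by decide +kernel)
theorem r2005 : PImp [l824] l2005 := rupP (by decide +kernel)
theorem r2006 : PImp [l1168] l2006 := rupP (by decide +kernel)
theorem r2007 : PImp [l1216] l2007 := rupP (by decide +kernel)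
theorem r2008 : PImp [l1167] l2008 := rupP (by decide +kernel)
theorem r2009 : PImp [l823] l2009 := rupP (by decide +kernel)
theorem r2010 : PImp [l1166] l2010 := rupP (by decide +kernel)
theorem r2011 : PImp [l1215] l2011 := rupP (by decide +kernel)
theorem r2012 : PImp [l1165] l2012 := rupP (by decide +kernel)
theorem r2013 : PImp [l1214] l2013 := rupP (by decide +kernel)
theorem r2014 : PImp [l1164] l2014 := rupP (by decide +kernel)
theorem r2015 : PImp [l822] l2015 := rupP (by decide +kernel)
theorem r2016 : PImp [l831] l2016 := rupP (by decide +kernel)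
theorem r2017 : PImp [l1205] l2017 := rupP (by decide +kernel)
theorem r2018 : PImp [l1219] l2018 := rupP (by decide +kernel)
theorem r2019 : PImp [l1204] l2019 := rupP (by decide +kernel)
theorem r2020 : PImp [l1220] l2020 := rupP (by decide +kernel)
theorem r2021 : PImp [l1201] l2021 := rupP (by decide +kernel)
theorem r2022 : PImp [l833] l2022 := rupP (by decide +kernel)
theorem r2023 : PImp [l1203] l2023 := rupP (by decide +kernel)
theorem r2024 : PImp [l1221] l2024 := rupP (by decide +kernel)
theorem r2025 : PImp [l1200] l2025 := rupP (by decide +kernel)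
theorem r2026 : PImp [l835] l2026 := rupP (by decide +kernel)
theorem r2027 : PImp [l1199] l2027 := rupP (by decide +kernel)
theorem r2028 : PImp [l830] l2028 := rupP (by decide +kernel)
theorem r2029 : PImp [l1196] l2029 := rupP (by decide +kernel)
theorem r2030 : PImp [l1226] l2030 := rupP (by decide +kernel)
theorem r2031 : PImp [l1195] l2031 := rupP (by decide +kernel)
theorem r2032 : PImp [l1227] l2032 := rupP (by decide +kernel)
theorem r2033 : PImp [l1192] l2033 := rupP (by decide +kernel)
theorem r2034 : PImp [l847] l2034 := rupP (by decide +kernel)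
theorem r2035 : PImp [l1194] l2035 := rupP (by decide +kernel)
theorem r2036 : PImp [l1228] l2036 := rupP (by decide +kernel)
theorem r2037 : PImp [l1191] l2037 := rupP (by decide +kernel)
theorem r2038 : PImp [l849] l2038 := rupP (by decide +kernel)
theorem r2039 : PImp [l1190] l2039 := rupP (by decide +kernel)
theorem r2040 : PImp [l829] l2040 := rupP (by decide +kernel)
theorem r2041 : PImp [l1185] l2041 := rupP (by decide +kernel)
theorem r2042 : PImp [l1229] l2042 := rupP (by decide +kernel)
theorem r2043 : PImp [l1184] l2043 := rupP (by decide +kernel)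
theorem r2044 : PImp [l1230] l2044 := rupP (by decide +kernel)
theorem r2045 : PImp [l1181] l2045 := rupP (by decide +kernel)
theorem r2046 : PImp [l852] l2046 := rupP (by decide +kernel)
theorem r2047 : PImp [l1183] l2047 := rupP (by decide +kernel)
theorem r2048 : PImp [l1231] l2048 := rupP (by decide +kernel)
theorem r2049 : PImp [l1180] l2049 := rupP (by decide +kernel)
theorem r2050 : PImp [l854] l2050 := rupP (by decide +kernel)
theorem r2051 : PImp [l1179] l2051 := rupP (by decide +kernel)
theorem r2052 : PImp [l838] l2052 := rupP (by decide +kernel)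
theorem r2053 : PImp [l1175] l2053 := rupP (by decide +kernel)
theorem r2054 : PImp [l1222] l2054 := rupP (by decide +kernel)
theorem r2055 : PImp [l1174] l2055 := rupP (by decide +kernel)
theorem r2056 : PImp [l1224] l2056 := rupP (by decide +kernel)
theorem r2057 : PImp [l1156] l2057 := rupP (by decide +kernel)
theorem r2058 : PImp [l840] l2058 := rupP (by decide +kernel)
theorem r2059 : PImp [l1173] l2059 := rupP (by decide +kernel)
theorem r2060 : PImp [l1225] l2060 := rupP (by decide +kernel)
theorem r2061 : PImp [l1155] l2061 := rupP (by decide +kernel)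
theorem r2062 : PImp [l844] l2062 := rupP (by decide +kernel)
theorem r2063 : PImp [l1153] l2063 := rupP (by decide +kernel)
theorem r2064 : PImp [o1399] l2064 := rupP (by decide +kernel)
theorem r2065 : PImp [o1437] l2065 := rupP (by decide +kernel)
theorem r2066 : PImp [o1540] l2066 := rupP (by decide +kernel)
theorem r2067 : PImp [o1541] l2067 := rupP (by decide +kernel)
theorem r2068 : PImp [o1608] l2068 := rupP (by decide +kernel)
theorem r2069 : PImp [l828] l2069 := rupP (by decide +kernel)
theorem r2070 : PImp [l1151] l2070 := rupP (by decide +kernel)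
theorem r2071 : PImp [l120] l2071 := rupP (by decide +kernel)
theorem r2072 : PImp [l121] l2072 := rupP (by decide +kernel)
theorem r2073 : PImp [l125] l2073 := rupP (by decide +kernel)
theorem r2074 : PImp [l126] l2074 := rupP (by decide +kernel)
theorem r2075 : PImp [l127] l2075 := rupP (by decide +kernel)
theorem r2076 : PImp [l128] l2076 := rupP (by decide +kernel)
theorem r2077 : PImp [l138] l2077 := rupP (by decide +kernel)
theorem r2078 : PImp [l129] l2078 := rupP (by decide +kernel)
theorem r2079 : PImp [l139] l2079 := rupP (by decide +kernel)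
theorem r2080 : PImp [l130] l2080 := rupP (by decide +kernel)
theorem r2081 : PImp [l140] l2081 := rupP (by decide +kernel)
theorem r2082 : PImp [l131] l2082 := rupP (by decide +kernel)
theorem r2083 : PImp [l141] l2083 := rupP (by decide +kernel)
theorem r2084 : PImp [l132] l2084 := rupP (by decide +kernel)
theorem r2085 : PImp [l142] l2085 := rupP (by decide +kernel)
theorem r2086 : PImp [l134] l2086 := rupP (by decide +kernel)
theorem r2087 : PImp [l143] l2087 := rupP (by decide +kernel)
theorem r2088 : PImp [l137] l2088 := rupP (by decide +kernel)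
theorem r2089 : PImp [l145] l2089 := rupP (by decide +kernel)
theorem r2090 : PImp [l144] l2090 := rupP (by decide +kernel)
theorem r2091 : PImp [l146] l2091 := rupP (by decide +kernel)
theorem r2092 : PImp [l147] l2092 := rupP (by decide +kernel)
theorem r2093 : PImp [l148] l2093 := rupP (by decide +kernel)
theorem r2094 : PImp [l151] l2094 := rupP (by decide +kernel)
theorem r2095 : PImp [l149] l2095 := rupP (by decide +kernel)
theorem r2096 : PImp [l152] l2096 := rupP (by decide +kernel)
theorem r2097 : PImp [l153] l2097 := rupP (by decide +kernel)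
theorem r2098 : PImp [l154] l2098 := rupP (by decide +kernel)
theorem r2099 : PImp [l155] l2099 := rupP (by decide +kernel)
theorem r2100 : PImp [l157] l2100 := rupP (by decide +kernel)
theorem r2101 : PImp [l156] l2101 := rupP (by decide +kernel)
theorem r2102 : PImp [l158] l2102 := rupP (by decide +kernel)
theorem r2103 : PImp [l159] l2103 := rupP (by decide +kernel)
theorem r2104 : PImp [l160] l2104 := rupP (by decide +kernel)
theorem r2105 : PImp [l161] l2105 := rupP (by decide +kernel)
theorem r2106 : PImp [l163] l2106 := rupP (by decide +kernel)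
theorem r2107 : PImp [l162] l2107 := rupP (by decide +kernel)
theorem r2108 : PImp [l164] l2108 := rupP (by decide +kernel)
theorem r2109 : PImp [l165] l2109 := rupP (by decide +kernel)
theorem r2110 : PImp [l166] l2110 := rupP (by decide +kernel)
theorem r2111 : PImp [l167] l2111 := rupP (by decide +kernel)
theorem r2112 : PImp [l174] l2112 := rupP (by decide +kernel)
theorem r2113 : PImp [l168] l2113 := rupP (by decide +kernel)
theorem r2114 : PImp [l175] l2114 := rupP (by decide +kernel)
theorem r2115 : PImp [l177] l2115 := rupP (by decide +kernel)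
theorem r2116 : PImp [l178] l2116 := rupP (by decide +kernel)
theorem r2117 : PImp [l182] l2117 := rupP (by decide +kernel)
theorem r2118 : PImp [l191] l2118 := rupP (by decide +kernel)
theorem r2119 : PImp [l183] l2119 := rupP (by decide +kernel)
theorem r2120 : PImp [l193] l2120 := rupP (by decide +kernel)
theorem r2121 : PImp [l180] l2121 := rupP (by decide +kernel)
theorem r2122 : PImp [l188] l2122 := rupP (by decide +kernel)
theorem r2123 : PImp [l184] l2123 := rupP (by decide +kernel)
theorem r2124 : PImp [l192] l2124 := rupP (by decide +kernel)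
theorem r2125 : PImp [l181] l2125 := rupP (by decide +kernel)
theorem r2126 : PImp [l189] l2126 := rupP (by decide +kernel)
theorem r2127 : PImp [l179] l2127 := rupP (by decide +kernel)
theorem r2128 : PImp [l185] l2128 := rupP (by decide +kernel)
theorem r2129 : PImp [l194] l2129 := rupP (by decide +kernel)
theorem r2130 : PImp [l252] l2130 := rupP (by decide +kernel)
theorem r2131 : PImp [l200] l2131 := rupP (by decide +kernel)
theorem r2132 : PImp [l254] l2132 := rupP (by decide +kernel)
theorem r2133 : PImp [l204] l2133 := rupP (by decide +kernel)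
theorem r2134 : PImp [l257] l2134 := rupP (by decide +kernel)
theorem r2135 : PImp [l197] l2135 := rupP (by decide +kernel)
theorem r2136 : PImp [l253] l2136 := rupP (by decide +kernel)
theorem r2137 : PImp [l205] l2137 := rupP (by decide +kernel)
theorem r2138 : PImp [l256] l2138 := rupP (by decide +kernel)
theorem r2139 : PImp [l202] l2139 := rupP (by decide +kernel)
theorem r2140 : PImp [l255] l2140 := rupP (by decide +kernel)
theorem r2141 : PImp [l206] l2141 := rupP (by decide +kernel)
theorem r2142 : PImp [l259] l2142 := rupP (by decide +kernel)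
theorem r2143 : PImp [l214] l2143 := rupP (by decide +kernel)
theorem r2144 : PImp [l261] l2144 := rupP (by decide +kernel)
theorem r2145 : PImp [l218] l2145 := rupP (by decide +kernel)
theorem r2146 : PImp [l264] l2146 := rupP (by decide +kernel)
theorem r2147 : PImp [l212] l2147 := rupP (by decide +kernel)
theorem r2148 : PImp [l260] l2148 := rupP (by decide +kernel)
theorem r2149 : PImp [l219] l2149 := rupP (by decide +kernel)
theorem r2150 : PImp [l263] l2150 := rupP (by decide +kernel)
theorem r2151 : PImp [l216] l2151 := rupP (by decide +kernel)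
theorem r2152 : PImp [l262] l2152 := rupP (by decide +kernel)
theorem r2153 : PImp [l220] l2153 := rupP (by decide +kernel)
theorem r2154 : PImp [l265] l2154 := rupP (by decide +kernel)
theorem r2155 : PImp [l226] l2155 := rupP (by decide +kernel)
theorem r2156 : PImp [l267] l2156 := rupP (by decide +kernel)
theorem r2157 : PImp [l229] l2157 := rupP (by decide +kernel)
theorem r2158 : PImp [l270] l2158 := rupP (by decide +kernel)
theorem r2159 : PImp [l225] l2159 := rupP (by decide +kernel)
theorem r2160 : PImp [l266] l2160 := rupP (by decide +kernel)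
theorem r2161 : PImp [l230] l2161 := rupP (by decide +kernel)
theorem r2162 : PImp [l269] l2162 := rupP (by decide +kernel)
theorem r2163 : PImp [l228] l2163 := rupP (by decide +kernel)
theorem r2164 : PImp [l268] l2164 := rupP (by decide +kernel)
theorem r2165 : PImp [l232] l2165 := rupP (by decide +kernel)
theorem r2166 : PImp [l271] l2166 := rupP (by decide +kernel)
theorem r2167 : PImp [l242] l2167 := rupP (by decide +kernel)
theorem r2168 : PImp [l273] l2168 := rupP (by decide +kernel)
theorem r2169 : PImp [l247] l2169 := rupP (by decide +kernel)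
theorem r2170 : PImp [l279] l2170 := rupP (by decide +kernel)
theorem r2171 : PImp [l240] l2171 := rupP (by decide +kernel)
theorem r2172 : PImp [l272] l2172 := rupP (by decide +kernel)
theorem r2173 : PImp [l248] l2173 := rupP (by decide +kernel)
theorem r2174 : PImp [l278] l2174 := rupP (by decide +kernel)
theorem r2175 : PImp [l244] l2175 := rupP (by decide +kernel)
theorem r2176 : PImp [l277] l2176 := rupP (by decide +kernel)
theorem r2177 : PImp [o2189] l2177 := rupP (by decide +kernel)
theorem r2178 : PImp [o2190] l2178 := rupP (by decide +kernel)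
theorem r2179 : PImp [o2237] l2179 := rupP (by decide +kernel)
theorem r2180 : PImp [o2238] l2180 := rupP (by decide +kernel)
theorem r2181 : PImp [o2341] l2181 := rupP (by decide +kernel)
theorem r2182 : PImp [o2342] l2182 := rupP (by decide +kernel)
theorem r2183 : PImp [o2406] l2183 := rupP (by decide +kernel)
theorem r2184 : PImp [l251] l2184 := rupP (by decide +kernel)
theorem r2185 : PImp [l280] l2185 := rupP (by decide +kernel)
theorem r2186 : PImp [l317] l2186 := rupP (by decide +kernel)
theorem r2187 : PImp [l318] l2187 := rupP (by decide +kernel)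
theorem r2188 : PImp [l321] l2188 := rupP (by decide +kernel)
theorem r2189 : PImp [l322] l2189 := rupP (by decide +kernel)
theorem r2190 : PImp [l323] l2190 := rupP (by decide +kernel)
theorem r2191 : PImp [l324] l2191 := rupP (by decide +kernel)
theorem r2192 : PImp [l326] l2192 := rupP (by decide +kernel)
theorem r2193 : PImp [l327] l2193 := rupP (by decide +kernel)
theorem r2194 : PImp [l333] l2194 := rupP (by decide +kernel)
theorem r2195 : PImp [l334] l2195 := rupP (by decide +kernel)
theorem r2196 : PImp [l336] l2196 := rupP (by decide +kernel)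
theorem r2197 : PImp [l337] l2197 := rupP (by decide +kernel)
theorem r2198 : PImp [l340] l2198 := rupP (by decide +kernel)
theorem r2199 : PImp [l341] l2199 := rupP (by decide +kernel)
theorem r2200 : PImp [l344] l2200 := rupP (by decide +kernel)
theorem r2201 : PImp [l345] l2201 := rupP (by decide +kernel)
theorem r2202 : PImp [l346] l2202 := rupP (by decide +kernel)
theorem r2203 : PImp [l347] l2203 := rupP (by decide +kernel)
theorem r2204 : PImp [l348] l2204 := rupP (by decide +kernel)
theorem r2205 : PImp [l355] l2205 := rupP (by decide +kernel)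
theorem r2206 : PImp [l349] l2206 := rupP (by decide +kernel)
theorem r2207 : PImp [l357] l2207 := rupP (by decide +kernel)
theorem r2208 : PImp [l360] l2208 := rupP (by decide +kernel)
theorem r2209 : PImp [l363] l2209 := rupP (by decide +kernel)
theorem r2210 : PImp [l365] l2210 := rupP (by decide +kernel)
theorem r2211 : PImp [l370] l2211 := rupP (by decide +kernel)
theorem r2212 : PImp [l366] l2212 := rupP (by decide +kernel)
theorem r2213 : PImp [l372] l2213 := rupP (by decide +kernel)
theorem r2214 : PImp [l375] l2214 := rupP (by decide +kernel)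
theorem r2215 : PImp [l377] l2215 := rupP (by decide +kernel)
theorem r2216 : PImp [l378] l2216 := rupP (by decide +kernel)
theorem r2217 : PImp [l383] l2217 := rupP (by decide +kernel)
theorem r2218 : PImp [l379] l2218 := rupP (by decide +kernel)
theorem r2219 : PImp [l386] l2219 := rupP (by decide +kernel)
theorem r2220 : PImp [l389] l2220 := rupP (by decide +kernel)
theorem r2221 : PImp [l392] l2221 := rupP (by decide +kernel)
theorem r2222 : PImp [l393] l2222 := rupP (by decide +kernel)
theorem r2223 : PImp [l398] l2223 := rupP (by decide +kernel)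
theorem r2224 : PImp [l394] l2224 := rupP (by decide +kernel)
theorem r2225 : PImp [l400] l2225 := rupP (by decide +kernel)
theorem r2226 : PImp [l403] l2226 := rupP (by decide +kernel)
theorem r2227 : PImp [l406] l2227 := rupP (by decide +kernel)
theorem r2228 : PImp [o2407] l2228 := rupP (by decide +kernel)
theorem r2229 : PImp [o2408] l2229 := rupP (by decide +kernel)
theorem r2230 : PImp [o2693] l2230 := rupP (by decide +kernel)
theorem r2231 : PImp [o2694] l2231 := rupP (by decide +kernel)
theorem r2232 : PImp [o3653] l2232 := rupP (by decide +kernel)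
theorem r2233 : PImp [o3758] l2233 := rupP (by decide +kernel)
theorem r2234 : PImp [o3759] l2234 := rupP (by decide +kernel)
theorem r2235 : PImp [o3856] l2235 := rupP (by decide +kernel)
theorem r2236 : PImp [o3857] l2236 := rupP (by decide +kernel)
theorem r2237 : PImp [o3858] l2237 := rupP (by decide +kernel)
theorem r2238 : PImp [o3859] l2238 := rupP (by decide +kernel)
theorem r2239 : PImp [o4231] l2239 := rupP (by decide +kernel)
theorem r2240 : PImp [o4232] l2240 := rupP (by decide +kernel)
theorem r2241 : PImp [o5523] l2241 := rupP (by decide +kernel)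
theorem r2242 : PImp [o5524] l2242 := rupP (by decide +kernel)
theorem r2243 : PImp [o5598] l2243 := rupP (by decide +kernel)
theorem r2244 : PImp [o5599] l2244 := rupP (by decide +kernel)
theorem r2245 : PImp [o5737] l2245 := rupP (by decide +kernel)
theorem r2246 : PImp [o5738] l2246 := rupP (by decide +kernel)
theorem r2247 : PImp [o5842] l2247 := rupP (by decide +kernel)
theorem r2248 : PImp [o5843] l2248 := rupP (by decide +kernel)
theorem r2249 : PImp [l2236, o3792] l2249 := rupP (by decide +kernel)
theorem r2250 : PImp [l2236, o3797] l2250 := rupP (by decide +kernel)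
theorem r2251 : PImp [l2234, o3766] l2251 := rupP (by decide +kernel)
theorem r2252 : PImp [l2236, o3805] l2252 := rupP (by decide +kernel)
theorem r2253 : PImp [l2247, o5777] l2253 := rupP (by decide +kernel)
theorem r2254 : PImp [l2066, o1558] l2254 := rupP (by decide +kernel)
theorem r2255 : PImp [l1955, o749] l2255 := rupP (by decide +kernel)
theorem r2256 : PImp [l1955, o747] l2256 := rupP (by decide +kernel)
theorem r2257 : PImp [l2236, o3815] l2257 := rupP (by decide +kernel)
theorem r2258 : PImp [l2235, o3808] l2258 := rupP (by decide +kernel)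
theorem r2259 : PImp [l2067, o1557] l2259 := rupP (by decide +kernel)
theorem r2260 : PImp [l2247, o5793] l2260 := rupP (by decide +kernel)
theorem r2261 : PImp [l2247, o5788] l2261 := rupP (by decide +kernel)
theorem r2262 : PImp [l2246, o5758] l2262 := rupP (by decide +kernel)
theorem r2263 : PImp [l2233, o3779] l2263 := rupP (by decide +kernel)
theorem r2264 : PImp [l2247, o5783] l2264 := rupP (by decide +kernel)
theorem r2265 : PImp [l2246, o5751] l2265 := rupP (by decide +kernel)
theorem r2266 : PImp [l2245, o5759] l2266 := rupP (by decide +kernel)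
theorem r2267 : PImp [l2182, o2347] l2267 := rupP (by decide +kernel)
theorem r2268 : PImp [l2181, o2361] l2268 := rupP (by decide +kernel)
theorem r2269 : PImp [l1953, o693] l2269 := rupP (by decide +kernel)
theorem r2270 : PImp [l2066, o1563] l2270 := rupP (by decide +kernel)
theorem r2271 : PImp [l2181, o2259] l2271 := rupP (by decide +kernel)
theorem r2272 : PImp [l2233, o3665] l2272 := rupP (by decide +kernel)
theorem r2273 : PImp [l1954, o784] l2273 := rupP (by decide +kernel)
theorem r2274 : PImp [l1953, o763] l2274 := rupP (by decide +kernel)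
theorem r2275 : PImp [l1953, o762] l2275 := rupP (by decide +kernel)
theorem r2276 : PImp [l1952, o770] l2276 := rupP (by decide +kernel)
theorem r2277 : PImp [l2247, o5713] l2277 := rupP (by decide +kernel)
theorem r2278 : PImp [l2234, o3673] l2278 := rupP (by decide +kernel)
theorem r2279 : PImp [l2234, o3678] l2279 := rupP (by decide +kernel)
theorem r2280 : PImp [l2233, o3685] l2280 := rupP (by decide +kernel)
theorem r2281 : PImp [l2233, o3785] l2281 := rupP (by decide +kernel)
theorem r2282 : PImp [l2182, o2263] l2282 := rupP (by decide +kernel)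
theorem r2283 : PImp [l2182, o2256] l2283 := rupP (by decide +kernel)
theorem r2284 : PImp [l2180, o2240] l2284 := rupP (by decide +kernel)
theorem r2285 : PImp [l2181, o2271] l2285 := rupP (by decide +kernel)
theorem r2286 : PImp [l2244, o5607] l2286 := rupP (by decide +kernel)
theorem r2287 : PImp [l2234, o3666] l2287 := rupP (by decide +kernel)
theorem r2288 : PImp [l2181, o2355] l2288 := rupP (by decide +kernel)
theorem r2289 : PImp [l2065, o1443] l2289 := rupP (by decide +kernel)
theorem r2290 : PImp [l2233, o3668] l2290 := rupP (by decide +kernel)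
theorem r2291 : PImp [l2233, o3672] l2291 := rupP (by decide +kernel)
theorem r2292 : PImp [l2233, o3674] l2292 := rupP (by decide +kernel)
theorem r2293 : PImp [l2246, o5626] l2293 := rupP (by decide +kernel)
theorem r2294 : PImp [l2245, o5638] l2294 := rupP (by decide +kernel)
theorem r2295 : PImp [l2067, o1457] l2295 := rupP (by decide +kernel)
theorem r2296 : PImp [l1952, o769] l2296 := rupP (by decide +kernel)
theorem r2297 : PImp [l2067, o1480] l2297 := rupP (by decide +kernel)
theorem r2298 : PImp [l2183, o2371] l2298 := rupP (by decide +kernel)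
theorem r2299 : PImp [l1955, o796] l2299 := rupP (by decide +kernel)
theorem r2300 : PImp [l1954, o791] l2300 := rupP (by decide +kernel)
theorem r2301 : PImp [l2181, o2360] l2301 := rupP (by decide +kernel)
theorem r2302 : PImp [l2232, o3654] l2302 := rupP (by decide +kernel)
theorem r2303 : PImp [l2234, o3669] l2303 := rupP (by decide +kernel)
theorem r2304 : PImp [l2067, o1460] l2304 := rupP (by decide +kernel)
theorem r2305 : PImp [l2067, o1463] l2305 := rupP (by decide +kernel)
theorem r2306 : PImp [l2246, o5635] l2306 := rupP (by decide +kernel)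
theorem r2307 : PImp [l2245, o5649] l2307 := rupP (by decide +kernel)
theorem r2308 : PImp [l2246, o5747] l2308 := rupP (by decide +kernel)
theorem r2309 : PImp [l2182, o2282] l2309 := rupP (by decide +kernel)
theorem r2310 : PImp [l2182, o2286] l2310 := rupP (by decide +kernel)
theorem r2311 : PImp [l2182, o2279] l2311 := rupP (by decide +kernel)
theorem r2312 : PImp [l2182, o2275] l2312 := rupP (by decide +kernel)
theorem r2313 : PImp [l2182, o2272] l2313 := rupP (by decide +kernel)
theorem r2314 : PImp [l2182, o2268] l2314 := rupP (by decide +kernel)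
theorem r2315 : PImp [l2182, o2349] l2315 := rupP (by decide +kernel)
theorem r2316 : PImp [l2182, o2348] l2316 := rupP (by decide +kernel)
theorem r2317 : PImp [l2183, o2230] l2317 := rupP (by decide +kernel)
theorem r2318 : PImp [l2236, o3637] l2318 := rupP (by decide +kernel)
theorem r2319 : PImp [l2236, o3639] l2319 := rupP (by decide +kernel)
theorem r2320 : PImp [l2178, o2191] l2320 := rupP (by decide +kernel)
theorem r2321 : PImp [l2234, o3763] l2321 := rupP (by decide +kernel)
theorem r2322 : PImp [l2234, o3662] l2322 := rupP (by decide +kernel)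
theorem r2323 : PImp [l2234, o3769] l2323 := rupP (by decide +kernel)
theorem r2324 : PImp [l2245, l2066, l1953, l2182, l2234, o8654] l2324 := rupP (by decide +kernel)
theorem r2325 : PImp [l2245, l2066, l2234, l2182, l1953, o8559] l2325 := rupP (by decide +kernel)
theorem r2326 : PImp [l2234, o3778] l2326 := rupP (by decide +kernel)
theorem r2327 : PImp [l2181, l2246, l2234, l2067, l1953, o8815] l2327 := rupP (by decide +kernel)
theorem r2328 : PImp [l2066, l2182, l2234, l1953, l2246, o8347] l2328 := rupP (by decide +kernel)
theorem r2329 : PImp [l2066, l2246, l2182, l2234, l1953, o8847] l2329 := rupP (by decide +kernel)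
theorem r2330 : PImp [l2234, o3762] l2330 := rupP (by decide +kernel)
theorem r2331 : PImp [l2245, l2182, l1953, l2067, l2234, o8583] l2331 := rupP (by decide +kernel)
theorem r2332 : PImp [l1952, l2066, l2246, l2234, l2182, o8831] l2332 := rupP (by decide +kernel)
theorem r2333 : PImp [l2236, o3636] l2333 := rupP (by decide +kernel)
theorem r2334 : PImp [l2178, o2192] l2334 := rupP (by decide +kernel)
theorem r2335 : PImp [l2178, o2193] l2335 := rupP (by decide +kernel)
theorem r2336 : PImp [l2177, o2195] l2336 := rupP (by decide +kernel)
theorem r2337 : PImp [l2179, o2206] l2337 := rupP (by decide +kernel)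
theorem r2338 : PImp [l2153, l2166, o2161] l2338 := rupP (by decide +kernel)
theorem r2339 : PImp [l2153, l2168, o2163] l2339 := rupP (by decide +kernel)
theorem r2340 : PImp [l2204, o3385] l2340 := rupP (by decide +kernel)
theorem r2341 : PImp [l2204, o3430] l2341 := rupP (by decide +kernel)
theorem r2342 : PImp [l2204, o3512] l2342 := rupP (by decide +kernel)
theorem r2343 : PImp [l2204, o3513] l2343 := rupP (by decide +kernel)
theorem r2344 : PImp [l2204, l2223, o3514] l2344 := rupP (by decide +kernel)
theorem r2345 : PImp [l2204, l2223, o3515] l2345 := rupP (by decide +kernel)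
theorem r2346 : PImp [l2019, l2132, l2204, l661] l2346 := rupP (by decide +kernel)
theorem r2347 : PImp [l2204, l2019, l2131, l2129, l662] l2347 := rupP (by decide +kernel)
theorem r2348 : PImp [l2131, l2142, o2065] l2348 := rupP (by decide +kernel)
theorem r2349 : PImp [l2131, l2154, o2082] l2349 := rupP (by decide +kernel)
theorem r2350 : PImp [l2131, l2166, o2145] l2350 := rupP (by decide +kernel)
theorem r2351 : PImp [l2131, l2166, o2146] l2351 := rupP (by decide +kernel)
theorem r2352 : PImp [l2131, l2168, o2147] l2352 := rupP (by decide +kernel)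
theorem r2353 : PImp [l2019, l1905, l2204, l2131, o7251] l2353 := rupP (by decide +kernel)
theorem r2354 : PImp [l2131, l2019, l1905, l2205, o7344] l2354 := rupP (by decide +kernel)
theorem r2355 : PImp [l2019, l1905, l2205, l1133] l2355 := rupP (by decide +kernel)
theorem r2356 : PImp [l2019, l2131, l2204, l1905, o7501] l2356 := rupP (by decide +kernel)
theorem r2357 : PImp [l2017, l2018, o1226] l2357 := rupP (by decide +kernel)
theorem r2358 : PImp [l2018, l2033, o1249] l2358 := rupP (by decide +kernel)
theorem r2359 : PImp [l2018, l2041, o1273] l2359 := rupP (by decide +kernel)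
theorem r2360 : PImp [l2018, l2041, o1274] l2360 := rupP (by decide +kernel)
theorem r2361 : PImp [l2018, l2053, o1355] l2361 := rupP (by decide +kernel)
theorem r2362 : PImp [l2018, l2055, o1356] l2362 := rupP (by decide +kernel)
theorem r2363 : PImp [l2018, l2055, o1357] l2363 := rupP (by decide +kernel)
theorem r2364 : PImp [l2018, l2055, o1358] l2364 := rupP (by decide +kernel)
theorem r2365 : PImp [l2018, l2055, o1359] l2365 := rupP (by decide +kernel)
theorem r2366 : PImp [l2205, l2018, l1905, l2132, o7413] l2366 := rupP (by decide +kernel)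
theorem r2367 : PImp [l2018, l2131, l2205, l1905, o7447] l2367 := rupP (by decide +kernel)
theorem r2368 : PImp [l2204, l2132, l1905, l2018, o7475] l2368 := rupP (by decide +kernel)
theorem r2369 : PImp [l1904, l2204, l2018, l2132, o7488] l2369 := rupP (by decide +kernel)
theorem r2370 : PImp [l2018, l1905, l2205, l2132, o7549] l2370 := rupP (by decide +kernel)
theorem r2371 : PImp [l2204, l2132, l1905, l2018, o7622] l2371 := rupP (by decide +kernel)
theorem r2372 : PImp [l2129, l2166, o2143] l2372 := rupP (by decide +kernel)
theorem r2373 : PImp [l2129, l2166, o2144] l2373 := rupP (by decide +kernel)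
theorem r2374 : PImp [l2132, l2141, o2054] l2374 := rupP (by decide +kernel)
theorem r2375 : PImp [l2141, l2154, o2084] l2375 := rupP (by decide +kernel)
theorem r2376 : PImp [l2141, l2154, o2085] l2376 := rupP (by decide +kernel)
theorem r2377 : PImp [l2141, l2154, o2086] l2377 := rupP (by decide +kernel)
theorem r2378 : PImp [l2141, l2154, o2087] l2378 := rupP (by decide +kernel)
theorem r2379 : PImp [l2141, l2154, o2088] l2379 := rupP (by decide +kernel)
theorem r2380 : PImp [l2141, l2154, o2089] l2380 := rupP (by decide +kernel)
theorem r2381 : PImp [l2141, l2156, o2090] l2381 := rupP (by decide +kernel)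
theorem r2382 : PImp [l2141, l2156, o2091] l2382 := rupP (by decide +kernel)
theorem r2383 : PImp [l2141, l2156, o2092] l2383 := rupP (by decide +kernel)
theorem r2384 : PImp [l2141, l2166, o2150] l2384 := rupP (by decide +kernel)
theorem r2385 : PImp [l2141, l2166, o2151] l2385 := rupP (by decide +kernel)
theorem r2386 : PImp [l2141, l2166, o2152] l2386 := rupP (by decide +kernel)
theorem r2387 : PImp [l2141, l2166, o2153] l2387 := rupP (by decide +kernel)
theorem r2388 : PImp [l2141, l2166, o2154] l2388 := rupP (by decide +kernel)
theorem r2389 : PImp [l2141, l2166, o2155] l2389 := rupP (by decide +kernel)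
theorem r2390 : PImp [l2141, l2029, l1915, o7253] l2390 := rupP (by decide +kernel)
theorem r2391 : PImp [l1915, l2141, l2029, o7346] l2391 := rupP (by decide +kernel)
theorem r2392 : PImp [l2141, l1915, l2029, o7743] l2392 := rupP (by decide +kernel)
theorem r2393 : PImp [l2029, l2141, l1915, o7915] l2393 := rupP (by decide +kernel)
theorem r2394 : PImp [l2023, l1909, l2136, o7602] l2394 := rupP (by decide +kernel)
theorem r2395 : PImp [l2022, l1908, l2136, o7263] l2395 := rupP (by decide +kernel)
theorem r2396 : PImp [l2022, l2136, l1909, o7411] l2396 := rupP (by decide +kernel)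
theorem r2397 : PImp [l2022, l2136, l1908, o7424] l2397 := rupP (by decide +kernel)
theorem r2398 : PImp [l2022, l2136, l1908, o7486] l2398 := rupP (by decide +kernel)
theorem r2399 : PImp [l2022, l1908, l2136, o7636] l2399 := rupP (by decide +kernel)
theorem r2400 : PImp [l1908, l1903, o440] l2400 := rupP (by decide +kernel)
theorem r2401 : PImp [l1908, l1915, o473] l2401 := rupP (by decide +kernel)
theorem r2402 : PImp [l1908, l1915, o474] l2402 := rupP (by decide +kernel)
theorem r2403 : PImp [l1908, l1927, o498] l2403 := rupP (by decide +kernel)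
theorem r2404 : PImp [l1908, l1927, o499] l2404 := rupP (by decide +kernel)
theorem r2405 : PImp [l1908, l1927, o500] l2405 := rupP (by decide +kernel)
theorem r2406 : PImp [l1908, l1939, o564] l2406 := rupP (by decide +kernel)
theorem r2407 : PImp [l1908, l1939, o565] l2407 := rupP (by decide +kernel)
theorem r2408 : PImp [l1908, l1939, o566] l2408 := rupP (by decide +kernel)
theorem r2409 : PImp [l1957, l1908, o610] l2409 := rupP (by decide +kernel)
theorem r2410 : PImp [l2023, l2135, l1908, o7140] l2410 := rupP (by decide +kernel)
theorem r2411 : PImp [l2023, l2135, l1908, o7583] l2411 := rupP (by decide +kernel)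
theorem r2412 : PImp [l1903, l2017, l2130, o7456] l2412 := rupP (by decide +kernel)
theorem r2413 : PImp [l2130, l2017, l1903, o7605] l2413 := rupP (by decide +kernel)
theorem r2414 : PImp [l2016, l2053, o1354] l2414 := rupP (by decide +kernel)
theorem r2415 : PImp [l2016, l2130, l1903, o7414] l2415 := rupP (by decide +kernel)
theorem r2416 : PImp [l1902, l2016, l2130, o7562] l2416 := rupP (by decide +kernel)
theorem r2417 : PImp [l1902, l1915, o472] l2417 := rupP (by decide +kernel)
theorem r2418 : PImp [l1902, l1927, o497] l2418 := rupP (by decide +kernel)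
theorem r2419 : PImp [l1902, l1939, o562] l2419 := rupP (by decide +kernel)
theorem r2420 : PImp [l1902, l1939, o563] l2420 := rupP (by decide +kernel)
theorem r2421 : PImp [l2204, l2019, l2132, l1905, o7604] l2421 := rupP (by decide +kernel)
theorem r2422 : PImp [l2131, l2204, l2019, l1905, o7648] l2422 := rupP (by decide +kernel)
theorem r2423 : PImp [l2019, l2132, l2205, l1905, l595] l2423 := rupP (by decide +kernel)
theorem r2424 : PImp [l1905, l1944, o463] l2424 := rupP (by decide +kernel)
theorem r2425 : PImp [l1905, l1948, o464] l2425 := rupP (by decide +kernel)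
theorem r2426 : PImp [l1912, l1905, o441] l2426 := rupP (by decide +kernel)
theorem r2427 : PImp [l1905, l1916, o447] l2427 := rupP (by decide +kernel)
theorem r2428 : PImp [l1905, l1916, o448] l2428 := rupP (by decide +kernel)
theorem r2429 : PImp [l1905, l1920, o450] l2429 := rupP (by decide +kernel)
theorem r2430 : PImp [l1905, l1936, o456] l2430 := rupP (by decide +kernel)
theorem r2431 : PImp [l1956, l1905, o471] l2431 := rupP (by decide +kernel)
theorem r2432 : PImp [l1905, l1914, o444] l2432 := rupP (by decide +kernel)
theorem r2433 : PImp [l1905, l1914, o445] l2433 := rupP (by decide +kernel)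
theorem r2434 : PImp [l1905, l1938, o461] l2434 := rupP (by decide +kernel)
theorem r2435 : PImp [l1905, l1944, o462] l2435 := rupP (by decide +kernel)
theorem r2436 : PImp [l1905, l1938, o459] l2436 := rupP (by decide +kernel)
theorem r2437 : PImp [l1905, l1938, o460] l2437 := rupP (by decide +kernel)
theorem r2438 : PImp [l1905, l1914, o443] l2438 := rupP (by decide +kernel)
theorem r2439 : PImp [l2019, l2205, l1905, l2132, o7529] l2439 := rupP (by decide +kernel)
theorem r2440 : PImp [l2017, l2028, o1230] l2440 := rupP (by decide +kernel)
theorem r2441 : PImp [l2017, l2028, o1231] l2441 := rupP (by decide +kernel)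
theorem r2442 : PImp [l2017, l2028, o1232] l2442 := rupP (by decide +kernel)
theorem r2443 : PImp [l2017, l2028, o1233] l2443 := rupP (by decide +kernel)
theorem r2444 : PImp [l2028, l2041, o1278] l2444 := rupP (by decide +kernel)
theorem r2445 : PImp [l2028, l2041, o1279] l2445 := rupP (by decide +kernel)
theorem r2446 : PImp [l2028, l2041, o1280] l2446 := rupP (by decide +kernel)
theorem r2447 : PImp [l2028, l2041, o1281] l2447 := rupP (by decide +kernel)
theorem r2448 : PImp [l2028, l2041, o1282] l2448 := rupP (by decide +kernel)
theorem r2449 : PImp [l2028, l2041, o1283] l2449 := rupP (by decide +kernel)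
theorem r2450 : PImp [l2028, l2043, o1284] l2450 := rupP (by decide +kernel)
theorem r2451 : PImp [l2028, l2043, o1285] l2451 := rupP (by decide +kernel)
theorem r2452 : PImp [l2028, l2043, o1286] l2452 := rupP (by decide +kernel)
theorem r2453 : PImp [l2028, l2053, o1363] l2453 := rupP (by decide +kernel)
theorem r2454 : PImp [l2028, l2053, o1364] l2454 := rupP (by decide +kernel)
theorem r2455 : PImp [l2028, l2055, o1365] l2455 := rupP (by decide +kernel)
theorem r2456 : PImp [l2028, l2055, o1366] l2456 := rupP (by decide +kernel)
theorem r2457 : PImp [l1914, l2028, l2141, o7116] l2457 := rupP (by decide +kernel)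
theorem r2458 : PImp [l2028, l1915, l2141, o7129] l2458 := rupP (by decide +kernel)
theorem r2459 : PImp [l2028, l2142, l1914, o7167] l2459 := rupP (by decide +kernel)
theorem r2460 : PImp [l2028, l2142, l1915, o7698] l2460 := rupP (by decide +kernel)
theorem r2461 : PImp [l1914, l2028, l2142, o7722] l2461 := rupP (by decide +kernel)
theorem r2462 : PImp [l2028, l1915, l2142, o7862] l2462 := rupP (by decide +kernel)
theorem r2463 : PImp [l1915, l2028, l2141, o7953] l2463 := rupP (by decide +kernel)
theorem r2464 : PImp [l2028, l1914, l2141, o7975] l2464 := rupP (by decide +kernel)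
theorem r2465 : PImp [l2028, l2142, l1915, o8033] l2465 := rupP (by decide +kernel)
theorem r2466 : PImp [l1914, l2028, l2142, o8058] l2466 := rupP (by decide +kernel)
theorem r2467 : PImp [l2028, l1915, l2141, o8123] l2467 := rupP (by decide +kernel)
theorem r2468 : PImp [l1914, l2028, l2141, o8140] l2468 := rupP (by decide +kernel)
theorem r2469 : PImp [l2028, l1915, l2142, o8197] l2469 := rupP (by decide +kernel)
theorem r2470 : PImp [l2028, l1914, l2142, o8220] l2470 := rupP (by decide +kernel)
theorem r2471 : PImp [l2028, l2141, l1914, l612] l2471 := rupP (by decide +kernel)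
theorem r2472 : PImp [l2028, l2141, l660] l2472 := rupP (by decide +kernel)
theorem r2473 : PImp [l1914, l1927, o504] l2473 := rupP (by decide +kernel)
theorem r2474 : PImp [l1914, l1927, o505] l2474 := rupP (by decide +kernel)
theorem r2475 : PImp [l1914, l1927, o506] l2475 := rupP (by decide +kernel)
theorem r2476 : PImp [l1914, l1927, o507] l2476 := rupP (by decide +kernel)
theorem r2477 : PImp [l1914, l1927, o508] l2477 := rupP (by decide +kernel)
theorem r2478 : PImp [l1914, l1927, o509] l2478 := rupP (by decide +kernel)
theorem r2479 : PImp [l1914, l1939, o568] l2479 := rupP (by decide +kernel)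
theorem r2480 : PImp [l1914, l1939, o569] l2480 := rupP (by decide +kernel)
theorem r2481 : PImp [l1914, l1939, o570] l2481 := rupP (by decide +kernel)
theorem r2482 : PImp [l1914, l1939, o571] l2482 := rupP (by decide +kernel)
theorem r2483 : PImp [l1914, l1939, o572] l2483 := rupP (by decide +kernel)
theorem r2484 : PImp [l1957, l1914, o675] l2484 := rupP (by decide +kernel)
theorem r2485 : PImp [l1914, l2029, l2141, o7047] l2485 := rupP (by decide +kernel)
theorem r2486 : PImp [l2029, l2142, l1914, o7095] l2486 := rupP (by decide +kernel)
theorem r2487 : PImp [l1914, l2029, l2141, o7141] l2487 := rupP (by decide +kernel)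
theorem r2488 : PImp [l1914, l2142, l2029, o7681] l2488 := rupP (by decide +kernel)
theorem r2489 : PImp [l1914, l2029, l2141, o7761] l2489 := rupP (by decide +kernel)
theorem r2490 : PImp [l1914, l2142, l2029, o7839] l2490 := rupP (by decide +kernel)
theorem r2491 : PImp [l2141, l2029, l1914, o7935] l2491 := rupP (by decide +kernel)
theorem r2492 : PImp [l1914, l2029, l2142, o8010] l2492 := rupP (by decide +kernel)
theorem r2493 : PImp [l1914, l2029, l2141, o8105] l2493 := rupP (by decide +kernel)
theorem r2494 : PImp [l1914, l2029, l2142, o8175] l2494 := rupP (by decide +kernel)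
theorem r2495 : PImp [l1914, l2029, l2141, o8262] l2495 := rupP (by decide +kernel)
theorem r2496 : PImp [l1851, l1914, o78] l2496 := rupP (by decide +kernel)
theorem r2497 : PImp [l1855, l1914, o79] l2497 := rupP (by decide +kernel)
theorem r2498 : PImp [l2206, l2209, l359] l2498 := rupP (by decide +kernel)
theorem r2499 : PImp [l2133, l1907, l2207, l2021, o7157] l2499 := rupP (by decide +kernel)
theorem r2500 : PImp [l2133, l2158, o2083] l2500 := rupP (by decide +kernel)
theorem r2501 : PImp [l2133, l2166, o2148] l2501 := rupP (by decide +kernel)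
theorem r2502 : PImp [l2133, l2168, o2149] l2502 := rupP (by decide +kernel)
theorem r2503 : PImp [l2133, l1907, l2206, l2021, o7252] l2503 := rupP (by decide +kernel)
theorem r2504 : PImp [l2021, l2133, l1907, l2207, o7433] l2504 := rupP (by decide +kernel)
theorem r2505 : PImp [l2206, l2133, l1907, l2021, o7500] l2505 := rupP (by decide +kernel)
theorem r2506 : PImp [l2017, l2020, o1227] l2506 := rupP (by decide +kernel)
theorem r2507 : PImp [l2019, l2020, o1228] l2507 := rupP (by decide +kernel)
theorem r2508 : PImp [l2020, l2033, o1250] l2508 := rupP (by decide +kernel)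
theorem r2509 : PImp [l2020, l2033, o1251] l2509 := rupP (by decide +kernel)
theorem r2510 : PImp [l2020, l2041, o1275] l2510 := rupP (by decide +kernel)
theorem r2511 : PImp [l2020, l2043, o1276] l2511 := rupP (by decide +kernel)
theorem r2512 : PImp [l2020, l2043, o1277] l2512 := rupP (by decide +kernel)
theorem r2513 : PImp [l2020, l2055, o1360] l2513 := rupP (by decide +kernel)
theorem r2514 : PImp [l2020, l2055, o1361] l2514 := rupP (by decide +kernel)
theorem r2515 : PImp [l2020, l2055, o1362] l2515 := rupP (by decide +kernel)
theorem r2516 : PImp [l2070, l2020, o1398] l2516 := rupP (by decide +kernel)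
theorem r2517 : PImp [l2207, l1907, l2134, l2020, o7412] l2517 := rupP (by decide +kernel)
theorem r2518 : PImp [l2206, l1907, l2134, l2020, o7474] l2518 := rupP (by decide +kernel)
theorem r2519 : PImp [l2134, l2020, l1907, l2207, o7548] l2519 := rupP (by decide +kernel)
theorem r2520 : PImp [l2206, l2020, l1907, l2134, o7621] l2520 := rupP (by decide +kernel)
theorem r2521 : PImp [l2206, l2133, l2021, l1907, o7060] l2521 := rupP (by decide +kernel)
theorem r2522 : PImp [l2206, l1907, l2021, l2133, o7647] l2522 := rupP (by decide +kernel)
theorem r2523 : PImp [l2133, l2207, l1907, l2021, o7576] l2523 := rupP (by decide +kernel)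
theorem r2524 : PImp [l2021, l2134, l2207, l1907, o7528] l2524 := rupP (by decide +kernel)
theorem r2525 : PImp [l2154, l2041, l1927, o8455] l2525 := rupP (by decide +kernel)
theorem r2526 : PImp [l1927, l2041, l2154, o8761] l2526 := rupP (by decide +kernel)
theorem r2527 : PImp [l2040, l2053, o1373] l2527 := rupP (by decide +kernel)
theorem r2528 : PImp [l2040, l1927, l2154, o8341] l2528 := rupP (by decide +kernel)
theorem r2529 : PImp [l2154, l1926, l2040, o8369] l2529 := rupP (by decide +kernel)
theorem r2530 : PImp [l2040, l2154, l1927, o8497] l2530 := rupP (by decide +kernel)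
theorem r2531 : PImp [l2040, l1927, l2154, o8648] l2531 := rupP (by decide +kernel)
theorem r2532 : PImp [l2166, l1939, l2053, o7107] l2532 := rupP (by decide +kernel)
theorem r2533 : PImp [l2166, l1939, l2053, o8942] l2533 := rupP (by decide +kernel)
theorem r2534 : PImp [l2053, l1939, l2166, o9115] l2534 := rupP (by decide +kernel)
theorem r2535 : PImp [l1941, l2055, l2168, l2222, o7108] l2535 := rupP (by decide +kernel)
theorem r2536 : PImp [l2222, l1941, l2055, l2168, o8941] l2536 := rupP (by decide +kernel)
theorem r2537 : PImp [l2222, l2168, l2055, l1941, o9114] l2537 := rupP (by decide +kernel)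
theorem r2538 : PImp [l1957, l2070, l2185, o7210] l2538 := rupP (by decide +kernel)
theorem r2539 : PImp [l1957, l2070, l2185, o7222] l2539 := rupP (by decide +kernel)
theorem r2540 : PImp [l2208, o3585] l2540 := rupP (by decide +kernel)
theorem r2541 : PImp [l2206, o3586] l2541 := rupP (by decide +kernel)
theorem r2542 : PImp [l2220, o3750] l2542 := rupP (by decide +kernel)
theorem r2543 : PImp [l2218, o3751] l2543 := rupP (by decide +kernel)
theorem r2544 : PImp [l2226, o3839] l2544 := rupP (by decide +kernel)
theorem r2545 : PImp [l2224, o3840] l2545 := rupP (by decide +kernel)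
theorem r2546 : PImp [l2245, o5328] l2546 := rupP (by decide +kernel)
theorem r2547 : PImp [l2219, l2157, l1931, l2045, o7159] l2547 := rupP (by decide +kernel)
theorem r2548 : PImp [l2185, l2157, o2334] l2548 := rupP (by decide +kernel)
theorem r2549 : PImp [l2184, l2134, o2064] l2549 := rupP (by decide +kernel)
theorem r2550 : PImp [l2184, l2142, o2079] l2550 := rupP (by decide +kernel)
theorem r2551 : PImp [l2184, l2144, o2080] l2551 := rupP (by decide +kernel)
theorem r2552 : PImp [l2184, l2146, o2081] l2552 := rupP (by decide +kernel)
theorem r2553 : PImp [l2184, l2154, o2140] l2553 := rupP (by decide +kernel)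
theorem r2554 : PImp [l2184, l2156, o2141] l2554 := rupP (by decide +kernel)
theorem r2555 : PImp [l2184, l2158, o2142] l2555 := rupP (by decide +kernel)
theorem r2556 : PImp [l2184, l2166, o2186] l2556 := rupP (by decide +kernel)
theorem r2557 : PImp [l2184, l2168, o2187] l2557 := rupP (by decide +kernel)
theorem r2558 : PImp [l2184, l2170, o2188] l2558 := rupP (by decide +kernel)
theorem r2559 : PImp [l2184, l1957, l2070, o7078] l2559 := rupP (by decide +kernel)
theorem r2560 : PImp [l2184, l1957, l2070, o7164] l2560 := rupP (by decide +kernel)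
theorem r2561 : PImp [l2184, l1957, l2070, o7178] l2561 := rupP (by decide +kernel)
theorem r2562 : PImp [l2184, l1957, l2070, o7260] l2562 := rupP (by decide +kernel)
theorem r2563 : PImp [l2184, l2070, l1957, o7355] l2563 := rupP (by decide +kernel)
theorem r2564 : PImp [l2185, l2141, o2235] l2564 := rupP (by decide +kernel)
theorem r2565 : PImp [l2185, l2143, o2234] l2565 := rupP (by decide +kernel)
theorem r2566 : PImp [l2185, l2145, o2233] l2566 := rupP (by decide +kernel)
theorem r2567 : PImp [l1956, l1915, o496] l2567 := rupP (by decide +kernel)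
theorem r2568 : PImp [l1956, l1927, o559] l2568 := rupP (by decide +kernel)
theorem r2569 : PImp [l1956, l1933, o560] l2569 := rupP (by decide +kernel)
theorem r2570 : PImp [l1956, l1937, o561] l2570 := rupP (by decide +kernel)
theorem r2571 : PImp [l1956, l1939, o608] l2571 := rupP (by decide +kernel)
theorem r2572 : PImp [l1956, l2070, l2185, o7041] l2572 := rupP (by decide +kernel)
theorem r2573 : PImp [l1956, l2070, l2184, o7055] l2573 := rupP (by decide +kernel)
theorem r2574 : PImp [l1956, l2069, l2185, o7069] l2574 := rupP (by decide +kernel)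
theorem r2575 : PImp [l1956, l2069, l2185, o7077] l2575 := rupP (by decide +kernel)
theorem r2576 : PImp [l1956, l2070, l2184, o7092] l2576 := rupP (by decide +kernel)
theorem r2577 : PImp [l1956, l2070, l2185, o7102] l2577 := rupP (by decide +kernel)
theorem r2578 : PImp [l1956, l2069, l2184, o7112] l2578 := rupP (by decide +kernel)
theorem r2579 : PImp [l1956, l2069, l2184, o7123] l2579 := rupP (by decide +kernel)
theorem r2580 : PImp [l1956, l2070, l2185, o7137] l2580 := rupP (by decide +kernel)
theorem r2581 : PImp [l1956, l2070, l2184, o7151] l2581 := rupP (by decide +kernel)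
theorem r2582 : PImp [l1956, l2069, l2185, o7165] l2582 := rupP (by decide +kernel)
theorem r2583 : PImp [l1956, l2069, l2185, o7177] l2583 := rupP (by decide +kernel)
theorem r2584 : PImp [l1956, l2070, l2184, o7188] l2584 := rupP (by decide +kernel)
theorem r2585 : PImp [l1956, l2070, l2185, o7200] l2585 := rupP (by decide +kernel)
theorem r2586 : PImp [l1956, l2069, l2184, o7211] l2586 := rupP (by decide +kernel)
theorem r2587 : PImp [l1956, l2069, l2184, o7221] l2587 := rupP (by decide +kernel)
theorem r2588 : PImp [l1956, l2070, l2185, o7231] l2588 := rupP (by decide +kernel)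
theorem r2589 : PImp [l1956, l2070, l2184, o7245] l2589 := rupP (by decide +kernel)
theorem r2590 : PImp [l1956, l2069, l2185, o7261] l2590 := rupP (by decide +kernel)
theorem r2591 : PImp [l1956, l2069, l2185, o7276] l2591 := rupP (by decide +kernel)
theorem r2592 : PImp [l1956, l2070, l2184, o7288] l2592 := rupP (by decide +kernel)
theorem r2593 : PImp [l1956, l2070, l2185, o7300] l2593 := rupP (by decide +kernel)
theorem r2594 : PImp [l1956, l2069, l2184, o7313] l2594 := rupP (by decide +kernel)
theorem r2595 : PImp [l1956, l2069, l2184, o7321] l2595 := rupP (by decide +kernel)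
theorem r2596 : PImp [l1956, l2070, l2185, o7330] l2596 := rupP (by decide +kernel)
theorem r2597 : PImp [l1956, l2070, l2184, o7339] l2597 := rupP (by decide +kernel)
theorem r2598 : PImp [l1956, l2069, l2185, o7356] l2598 := rupP (by decide +kernel)
theorem r2599 : PImp [l1956, l2069, l2185, o7372] l2599 := rupP (by decide +kernel)
theorem r2600 : PImp [l1956, l2070, l2184, o7382] l2600 := rupP (by decide +kernel)
theorem r2601 : PImp [l1956, l2070, l2185, o7393] l2601 := rupP (by decide +kernel)
theorem r2602 : PImp [l1956, l2069, l2184, l593] l2602 := rupP (by decide +kernel)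
theorem r2603 : PImp [l2069, l2053, o1393] l2603 := rupP (by decide +kernel)
theorem r2604 : PImp [l2069, l2055, o1394] l2604 := rupP (by decide +kernel)
theorem r2605 : PImp [l2069, l2057, o1395] l2605 := rupP (by decide +kernel)
theorem r2606 : PImp [l2069, l2029, o1270] l2606 := rupP (by decide +kernel)
theorem r2607 : PImp [l2069, l2031, o1271] l2607 := rupP (by decide +kernel)
theorem r2608 : PImp [l2069, l2033, o1272] l2608 := rupP (by decide +kernel)
theorem r2609 : PImp [l2069, l2017, o1248] l2609 := rupP (by decide +kernel)
theorem r2610 : PImp [l2070, l2022, o1397] l2610 := rupP (by decide +kernel)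
theorem r2611 : PImp [l2070, l2038, o1433] l2611 := rupP (by decide +kernel)
theorem r2612 : PImp [l2070, l2034, o1434] l2612 := rupP (by decide +kernel)
theorem r2613 : PImp [l2070, l2028, o1435] l2613 := rupP (by decide +kernel)
theorem r2614 : PImp [l2070, l2050, o1533] l2614 := rupP (by decide +kernel)
theorem r2615 : PImp [l2070, l2062, o1599] l2615 := rupP (by decide +kernel)
theorem r2616 : PImp [l2184, l1957, l2070, o7068] l2616 := rupP (by decide +kernel)
theorem r2617 : PImp [l2184, l1957, l2070, o7373] l2617 := rupP (by decide +kernel)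
theorem r2618 : PImp [l2184, l1957, l2070, o7277] l2618 := rupP (by decide +kernel)
theorem r2619 : PImp [l2185, l1957, l2070, l570] l2619 := rupP (by decide +kernel)
theorem r2620 : PImp [l2142, l2157, o2066] l2620 := rupP (by decide +kernel)
theorem r2621 : PImp [l2144, l2157, o2067] l2621 := rupP (by decide +kernel)
theorem r2622 : PImp [l2144, l2157, o2068] l2622 := rupP (by decide +kernel)
theorem r2623 : PImp [l2144, l2157, o2069] l2623 := rupP (by decide +kernel)
theorem r2624 : PImp [l2146, l2157, o2070] l2624 := rupP (by decide +kernel)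
theorem r2625 : PImp [l2146, l2157, o2071] l2625 := rupP (by decide +kernel)
theorem r2626 : PImp [l2154, l2157, o2108] l2626 := rupP (by decide +kernel)
theorem r2627 : PImp [l2156, l2157, o2109] l2627 := rupP (by decide +kernel)
theorem r2628 : PImp [l2181, l2156, l2157, o2110] l2628 := rupP (by decide +kernel)
theorem r2629 : PImp [l2166, l2157, o2166] l2629 := rupP (by decide +kernel)
theorem r2630 : PImp [l2168, l2157, o2167] l2630 := rupP (by decide +kernel)
theorem r2631 : PImp [l2168, l2157, o2168] l2631 := rupP (by decide +kernel)
theorem r2632 : PImp [l2168, l2157, o2169] l2632 := rupP (by decide +kernel)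
theorem r2633 : PImp [l2170, l2157, o2170] l2633 := rupP (by decide +kernel)
theorem r2634 : PImp [l2170, l2157, o2171] l2634 := rupP (by decide +kernel)
theorem r2635 : PImp [l2170, l2157, o2172] l2635 := rupP (by decide +kernel)
theorem r2636 : PImp [l2170, l2157, o2173] l2636 := rupP (by decide +kernel)
theorem r2637 : PImp [l2170, l2157, o2174] l2637 := rupP (by decide +kernel)
theorem r2638 : PImp [l2170, l2157, o2175] l2638 := rupP (by decide +kernel)
theorem r2639 : PImp [l1931, l2045, l2218, l2157, o7254] l2639 := rupP (by decide +kernel)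
theorem r2640 : PImp [l2045, l2219, l2157, l1931, o7349] l2640 := rupP (by decide +kernel)
theorem r2641 : PImp [l2045, l2157, l2219, l1931, o8388] l2641 := rupP (by decide +kernel)
theorem r2642 : PImp [l2218, l2045, l1931, l2157, o8536] l2642 := rupP (by decide +kernel)
theorem r2643 : PImp [l2019, l2044, o1237] l2643 := rupP (by decide +kernel)
theorem r2644 : PImp [l2021, l2044, o1238] l2644 := rupP (by decide +kernel)
theorem r2645 : PImp [l2021, l2044, o1239] l2645 := rupP (by decide +kernel)
theorem r2646 : PImp [l2029, l2044, o1253] l2646 := rupP (by decide +kernel)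
theorem r2647 : PImp [l2031, l2044, o1254] l2647 := rupP (by decide +kernel)
theorem r2648 : PImp [l2031, l2044, o1255] l2648 := rupP (by decide +kernel)
theorem r2649 : PImp [l2031, l2044, o1256] l2649 := rupP (by decide +kernel)
theorem r2650 : PImp [l2033, l2044, o1257] l2650 := rupP (by decide +kernel)
theorem r2651 : PImp [l2033, l2044, o1258] l2651 := rupP (by decide +kernel)
theorem r2652 : PImp [l2033, l2044, o1259] l2652 := rupP (by decide +kernel)
theorem r2653 : PImp [l2033, l2044, o1260] l2653 := rupP (by decide +kernel)
theorem r2654 : PImp [l2033, l2044, o1261] l2654 := rupP (by decide +kernel)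
theorem r2655 : PImp [l2033, l2044, o1262] l2655 := rupP (by decide +kernel)
theorem r2656 : PImp [l2041, l2044, o1307] l2656 := rupP (by decide +kernel)
theorem r2657 : PImp [l2043, l2044, o1308] l2657 := rupP (by decide +kernel)
theorem r2658 : PImp [l2066, l2043, l2044, o1309] l2658 := rupP (by decide +kernel)
theorem r2659 : PImp [l2053, l2044, o1376] l2659 := rupP (by decide +kernel)
theorem r2660 : PImp [l2055, l2044, o1377] l2660 := rupP (by decide +kernel)
theorem r2661 : PImp [l2055, l2044, o1378] l2661 := rupP (by decide +kernel)
theorem r2662 : PImp [l2055, l2044, o1379] l2662 := rupP (by decide +kernel)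
theorem r2663 : PImp [l2057, l2044, o1380] l2663 := rupP (by decide +kernel)
theorem r2664 : PImp [l2057, l2044, o1381] l2664 := rupP (by decide +kernel)
theorem r2665 : PImp [l2057, l2044, o1382] l2665 := rupP (by decide +kernel)
theorem r2666 : PImp [l2057, l2044, o1383] l2666 := rupP (by decide +kernel)
theorem r2667 : PImp [l2057, l2044, o1384] l2667 := rupP (by decide +kernel)
theorem r2668 : PImp [l2219, l1931, l2158, l2044, o7181] l2668 := rupP (by decide +kernel)
theorem r2669 : PImp [l1930, l2158, l2218, l2044, o7268] l2669 := rupP (by decide +kernel)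
theorem r2670 : PImp [l2044, l2158, l2218, l1931, o7278] l2670 := rupP (by decide +kernel)
theorem r2671 : PImp [l2219, l1931, l2044, l2157, o7326] l2671 := rupP (by decide +kernel)
theorem r2672 : PImp [l1930, l2219, l2044, l2158, o7363] l2672 := rupP (by decide +kernel)
theorem r2673 : PImp [l2219, l2158, l2044, l1931, o7376] l2673 := rupP (by decide +kernel)
theorem r2674 : PImp [l2219, l2158, l1931, l2044, o8339] l2674 := rupP (by decide +kernel)
theorem r2675 : PImp [l1930, l2158, l2044, l2219, o8367] l2675 := rupP (by decide +kernel)
theorem r2676 : PImp [l2219, l1931, l2157, l2044, o8424] l2676 := rupP (by decide +kernel)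
theorem r2677 : PImp [l2044, l2219, l1930, l2157, o8441] l2677 := rupP (by decide +kernel)
theorem r2678 : PImp [l2218, l2044, l2158, l1931, o8495] l2678 := rupP (by decide +kernel)
theorem r2679 : PImp [l1930, l2158, l2044, l2218, o8519] l2679 := rupP (by decide +kernel)
theorem r2680 : PImp [l2218, l1931, l2044, l2157, o8569] l2680 := rupP (by decide +kernel)
theorem r2681 : PImp [l2219, l2044, l2158, l1931, o8646] l2681 := rupP (by decide +kernel)
theorem r2682 : PImp [l2219, l1930, l2158, l2044, o8671] l2682 := rupP (by decide +kernel)
theorem r2683 : PImp [l2219, l1930, l2157, l2044, o8746] l2683 := rupP (by decide +kernel)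
theorem r2684 : PImp [l2218, l2158, l1931, l2044, o8795] l2684 := rupP (by decide +kernel)
theorem r2685 : PImp [l1919, l1930, o477] l2685 := rupP (by decide +kernel)
theorem r2686 : PImp [l1919, l1930, o478] l2686 := rupP (by decide +kernel)
theorem r2687 : PImp [l1923, l1930, o479] l2687 := rupP (by decide +kernel)
theorem r2688 : PImp [l1930, l1941, o576] l2688 := rupP (by decide +kernel)
theorem r2689 : PImp [l1930, l1943, o578] l2689 := rupP (by decide +kernel)
theorem r2690 : PImp [l1930, l1947, o584] l2690 := rupP (by decide +kernel)
theorem r2691 : PImp [l1930, l2045, l2219, l2158, o7193] l2691 := rupP (by decide +kernel)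
theorem r2692 : PImp [l2219, l2157, l1930, l2045, o7332] l2692 := rupP (by decide +kernel)
theorem r2693 : PImp [l2045, l1930, l2219, l2158, o8319] l2693 := rupP (by decide +kernel)
theorem r2694 : PImp [l2219, l2045, l1930, l2157, o8411] l2694 := rupP (by decide +kernel)
theorem r2695 : PImp [l2045, l1930, l2158, l2218, o8475] l2695 := rupP (by decide +kernel)
theorem r2696 : PImp [l2045, l1930, l2157, l2218, o8554] l2696 := rupP (by decide +kernel)
theorem r2697 : PImp [l1930, l2045, l2219, l2158, o8621] l2697 := rupP (by decide +kernel)
theorem r2698 : PImp [l2219, l1930, l2157, l2045, o8713] l2698 := rupP (by decide +kernel)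
theorem r2699 : PImp [l1930, l2045, l2158, l2218, o8784] l2699 := rupP (by decide +kernel)
theorem r2700 : PImp [l1896, l1930, o373] l2700 := rupP (by decide +kernel)
theorem r2701 : PImp [l1851, l1930, o90] l2701 := rupP (by decide +kernel)
theorem r2702 : PImp [l2041, l2154, l1926, o7388] l2702 := rupP (by decide +kernel)
theorem r2703 : PImp [l2041, l2154, l1926, o8321] l2703 := rupP (by decide +kernel)
theorem r2704 : PImp [l2153, l1926, l2041, o8413] l2704 := rupP (by decide +kernel)
theorem r2705 : PImp [l2041, l1926, l2154, o8476] l2705 := rupP (by decide +kernel)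
theorem r2706 : PImp [l2153, l1926, l2041, o8556] l2706 := rupP (by decide +kernel)
theorem r2707 : PImp [l2223, o3583] l2707 := rupP (by decide +kernel)
theorem r2708 : PImp [l2219, o3508] l2708 := rupP (by decide +kernel)
theorem r2709 : PImp [l2221, o3509] l2709 := rupP (by decide +kernel)
theorem r2710 : PImp [l2069, l2041, o1351] l2710 := rupP (by decide +kernel)
theorem r2711 : PImp [l2069, l2043, o1352] l2711 := rupP (by decide +kernel)
theorem r2712 : PImp [l2069, l2045, o1353] l2712 := rupP (by decide +kernel)
theorem r2713 : PImp [l2185, l2169, o2397] l2713 := rupP (by decide +kernel)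
theorem r2714 : PImp [l2065, l2232, l1951, l2180, l2244, o7701] l2714 := rupP (by decide +kernel)
theorem r2715 : PImp [l2244, o5604] l2715 := rupP (by decide +kernel)
theorem r2716 : PImp [l1950, o619] l2716 := rupP (by decide +kernel)
theorem r2717 : PImp [l1950, o612] l2717 := rupP (by decide +kernel)
theorem r2718 : PImp [l2205, o3383] l2718 := rupP (by decide +kernel)
theorem r2719 : PImp [l2247, o5505] l2719 := rupP (by decide +kernel)
theorem r2720 : PImp [l2247, o5507] l2720 := rupP (by decide +kernel)
theorem r2721 : PImp [l2247, o5509] l2721 := rupP (by decide +kernel)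
theorem r2722 : PImp [l1947, l2227, l2173, l2061, o7163] l2722 := rupP (by decide +kernel)
theorem r2723 : PImp [l2247, o5503] l2723 := rupP (by decide +kernel)
theorem r2724 : PImp [l1945, l2059, l2171, o7162] l2724 := rupP (by decide +kernel)
theorem r2725 : PImp [l2169, l2057, l1943, l2225, o7161] l2725 := rupP (by decide +kernel)
theorem r2726 : PImp [l2057, l2169, l1943, l2225, o9067] l2726 := rupP (by decide +kernel)
theorem r2727 : PImp [l2167, l2223, l2055, l1941, o7160] l2727 := rupP (by decide +kernel)
theorem r2728 : PImp [l2167, l1941, l2223, l2055, o9068] l2728 := rupP (by decide +kernel)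
theorem r2729 : PImp [l2053, l1939, l2165, o9069] l2729 := rupP (by decide +kernel)
theorem r2730 : PImp [l2053, l1939, l2166, o9031] l2730 := rupP (by decide +kernel)
theorem r2731 : PImp [l2245, o5334] l2731 := rupP (by decide +kernel)
theorem r2732 : PImp [l2245, o5338] l2732 := rupP (by decide +kernel)
theorem r2733 : PImp [l2221, l2049, l2161, l1935, o8691] l2733 := rupP (by decide +kernel)
theorem r2734 : PImp [l2245, o5330] l2734 := rupP (by decide +kernel)
theorem r2735 : PImp [l2155, l2043, l1929, l2217, o8694] l2735 := rupP (by decide +kernel)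
theorem r2736 : PImp [l2033, l2145, l2213, l1919, o7158] l2736 := rupP (by decide +kernel)
theorem r2737 : PImp [l2241, o5207] l2737 := rupP (by decide +kernel)
theorem r2738 : PImp [l2241, o5202] l2738 := rupP (by decide +kernel)
theorem r2739 : PImp [l2240, o4320] l2739 := rupP (by decide +kernel)
theorem r2740 : PImp [l2239, o4350] l2740 := rupP (by decide +kernel)
theorem r2741 : PImp [l2248, o5000] l2741 := rupP (by decide +kernel)
theorem r2742 : PImp [l2247, o5010] l2742 := rupP (by decide +kernel)
theorem r2743 : PImp [l2239, o4343] l2743 := rupP (by decide +kernel)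
theorem r2744 : PImp [l2240, o4316] l2744 := rupP (by decide +kernel)
theorem r2745 : PImp [l2239, o4342] l2745 := rupP (by decide +kernel)
theorem r2746 : PImp [l2239, o4348] l2746 := rupP (by decide +kernel)
theorem r2747 : PImp [l2239, o4332] l2747 := rupP (by decide +kernel)
theorem r2748 : PImp [l2239, o4338] l2748 := rupP (by decide +kernel)
theorem r2749 : PImp [l2239, o4341] l2749 := rupP (by decide +kernel)
theorem r2750 : PImp [l2239, o4330] l2750 := rupP (by decide +kernel)
theorem r2751 : PImp [l2239, o4331] l2751 := rupP (by decide +kernel)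
theorem r2752 : PImp [l2247, o4985] l2752 := rupP (by decide +kernel)
theorem r2753 : PImp [l2239, o4304] l2753 := rupP (by decide +kernel)
theorem r2754 : PImp [l2246, o4776] l2754 := rupP (by decide +kernel)
theorem r2755 : PImp [l2239, o4299] l2755 := rupP (by decide +kernel)
theorem r2756 : PImp [l2246, o4768] l2756 := rupP (by decide +kernel)
theorem r2757 : PImp [l2239, o4303] l2757 := rupP (by decide +kernel)
theorem r2758 : PImp [l2239, o4294] l2758 := rupP (by decide +kernel)
theorem r2759 : PImp [l2102, o7816] l2759 := rupP (by decide +kernel)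
theorem r2760 : PImp [l2243, o4616] l2760 := rupP (by decide +kernel)
theorem r2761 : PImp [l2100, o7817] l2761 := rupP (by decide +kernel)
theorem r2762 : PImp [l2239, o4276] l2762 := rupP (by decide +kernel)
theorem r2763 : PImp [l2239, o4277] l2763 := rupP (by decide +kernel)
theorem r2764 : PImp [l2243, o4609] l2764 := rupP (by decide +kernel)
theorem r2765 : PImp [l2240, o4260] l2765 := rupP (by decide +kernel)
theorem r2766 : PImp [l2239, o4261] l2766 := rupP (by decide +kernel)
theorem r2767 : PImp [l2239, o4254] l2767 := rupP (by decide +kernel)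
theorem r2768 : PImp [l2239, o4248] l2768 := rupP (by decide +kernel)
theorem r2769 : PImp [l2239, o4247] l2769 := rupP (by decide +kernel)
theorem r2770 : PImp [l2239, o4253] l2770 := rupP (by decide +kernel)
theorem r2771 : PImp [l2239, o4242] l2771 := rupP (by decide +kernel)
theorem r2772 : PImp [l2239, o4243] l2772 := rupP (by decide +kernel)
theorem r2773 : PImp [l2239, o4238] l2773 := rupP (by decide +kernel)
theorem r2774 : PImp [l2247, o4221] l2774 := rupP (by decide +kernel)
theorem r2775 : PImp [l2238, o3883] l2775 := rupP (by decide +kernel)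
theorem r2776 : PImp [l2238, o3867] l2776 := rupP (by decide +kernel)
theorem r2777 : PImp [l2240, o3918] l2777 := rupP (by decide +kernel)
theorem r2778 : PImp [l2237, o3880] l2778 := rupP (by decide +kernel)
theorem r2779 : PImp [l2240, o3905] l2779 := rupP (by decide +kernel)
theorem r2780 : PImp [l2239, o3921] l2780 := rupP (by decide +kernel)
theorem r2781 : PImp [l2239, o3926] l2781 := rupP (by decide +kernel)
theorem r2782 : PImp [l2238, o3864] l2782 := rupP (by decide +kernel)
theorem r2783 : PImp [l2239, o3916] l2783 := rupP (by decide +kernel)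
theorem r2784 : PImp [l2237, o3878] l2784 := rupP (by decide +kernel)
theorem r2785 : PImp [l2239, o3898] l2785 := rupP (by decide +kernel)
theorem r2786 : PImp [l2239, o3908] l2786 := rupP (by decide +kernel)
theorem r2787 : PImp [l2239, o3912] l2787 := rupP (by decide +kernel)
theorem r2788 : PImp [l2237, o3873] l2788 := rupP (by decide +kernel)
theorem r2789 : PImp [l2239, o3892] l2789 := rupP (by decide +kernel)
theorem r2790 : PImp [l2239, o3903] l2790 := rupP (by decide +kernel)
theorem r2791 : PImp [l2196, o3290] l2791 := rupP (by decide +kernel)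
theorem r2792 : PImp [l2190, o3288] l2792 := rupP (by decide +kernel)
theorem r2793 : PImp [l2231, l2239, l783] l2793 := rupP (by decide +kernel)
theorem r2794 : PImp [l2231, l2239, l784] l2794 := rupP (by decide +kernel)
theorem r2795 : PImp [l2226, o3376] l2795 := rupP (by decide +kernel)
theorem r2796 : PImp [l2205, l2226, o3377] l2796 := rupP (by decide +kernel)
theorem r2797 : PImp [l2207, l2226, o3378] l2797 := rupP (by decide +kernel)
theorem r2798 : PImp [l2226, o3379] l2798 := rupP (by decide +kernel)
theorem r2799 : PImp [l2209, l2226, o3380] l2799 := rupP (by decide +kernel)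
theorem r2800 : PImp [l2226, o3382] l2800 := rupP (by decide +kernel)
theorem r2801 : PImp [l2226, o3419] l2801 := rupP (by decide +kernel)
theorem r2802 : PImp [l2211, l2226, o3420] l2802 := rupP (by decide +kernel)
theorem r2803 : PImp [l2213, l2226, o3421] l2803 := rupP (by decide +kernel)
theorem r2804 : PImp [l2226, o3423] l2804 := rupP (by decide +kernel)
theorem r2805 : PImp [l2215, l2226, o3424] l2805 := rupP (by decide +kernel)
theorem r2806 : PImp [l2226, o3482] l2806 := rupP (by decide +kernel)
theorem r2807 : PImp [l2226, l2217, o3485] l2807 := rupP (by decide +kernel)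
theorem r2808 : PImp [l2226, l2219, o3486] l2808 := rupP (by decide +kernel)
theorem r2809 : PImp [l2226, o3492] l2809 := rupP (by decide +kernel)
theorem r2810 : PImp [l2221, l2226, o3493] l2810 := rupP (by decide +kernel)
theorem r2811 : PImp [l2226, o3500] l2811 := rupP (by decide +kernel)
theorem r2812 : PImp [l2226, o3501] l2812 := rupP (by decide +kernel)
theorem r2813 : PImp [l2226, o3503] l2813 := rupP (by decide +kernel)
theorem r2814 : PImp [l2226, o3574] l2814 := rupP (by decide +kernel)
theorem r2815 : PImp [l2225, l2226, o3576] l2815 := rupP (by decide +kernel)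
theorem r2816 : PImp [l1947, l2061, l2174, l2226, o9111] l2816 := rupP (by decide +kernel)
theorem r2817 : PImp [l1945, l2059, l2172, o7110] l2817 := rupP (by decide +kernel)
theorem r2818 : PImp [l1945, l2059, l2172, o8939] l2818 := rupP (by decide +kernel)
theorem r2819 : PImp [l1945, l2172, l2059, o9112] l2819 := rupP (by decide +kernel)
theorem r2820 : PImp [l2224, l2227, l401] l2820 := rupP (by decide +kernel)
theorem r2821 : PImp [l2224, l402] l2821 := rupP (by decide +kernel)
theorem r2822 : PImp [l2224, l2057, l1943, l2170, o7109] l2822 := rupP (by decide +kernel)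
theorem r2823 : PImp [l2224, l2170, l1943, l2057, o8940] l2823 := rupP (by decide +kernel)
theorem r2824 : PImp [l2224, l2057, l2170, l1943, o9113] l2824 := rupP (by decide +kernel)
theorem r2825 : PImp [l2233, o3466] l2825 := rupP (by decide +kernel)
theorem r2826 : PImp [l2220, o3369] l2826 := rupP (by decide +kernel)
theorem r2827 : PImp [l2220, o3399] l2827 := rupP (by decide +kernel)
theorem r2828 : PImp [l2211, l2220, o3400] l2828 := rupP (by decide +kernel)
theorem r2829 : PImp [l2213, l2220, o3402] l2829 := rupP (by decide +kernel)
theorem r2830 : PImp [l2220, o3408] l2830 := rupP (by decide +kernel)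
theorem r2831 : PImp [l2215, l2220, o3409] l2831 := rupP (by decide +kernel)
theorem r2832 : PImp [l2220, o3412] l2832 := rupP (by decide +kernel)
theorem r2833 : PImp [l2220, o3462] l2833 := rupP (by decide +kernel)
theorem r2834 : PImp [l2220, l2219, o3463] l2834 := rupP (by decide +kernel)
theorem r2835 : PImp [l2220, o3550] l2835 := rupP (by decide +kernel)
theorem r2836 : PImp [l2223, l2220, o3551] l2836 := rupP (by decide +kernel)
theorem r2837 : PImp [l2225, l2220, o3553] l2837 := rupP (by decide +kernel)
theorem r2838 : PImp [l2220, o3558] l2838 := rupP (by decide +kernel)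
theorem r2839 : PImp [l2220, o3559] l2839 := rupP (by decide +kernel)
theorem r2840 : PImp [l2227, l2220, o3560] l2840 := rupP (by decide +kernel)
theorem r2841 : PImp [l2220, o3566] l2841 := rupP (by decide +kernel)
theorem r2842 : PImp [l2220, l2049, l1935, l2162, o7106] l2842 := rupP (by decide +kernel)
theorem r2843 : PImp [l2220, l2049, l2162, l1935, o8757] l2843 := rupP (by decide +kernel)
theorem r2844 : PImp [l2047, l2160, l1933, o7105] l2844 := rupP (by decide +kernel)
theorem r2845 : PImp [l2216, l380] l2845 := rupP (by decide +kernel)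
theorem r2846 : PImp [l2216, l384] l2846 := rupP (by decide +kernel)
theorem r2847 : PImp [l2216, l2223, o3544] l2847 := rupP (by decide +kernel)
theorem r2848 : PImp [l2216, l1929, l2043, l2156, o8454] l2848 := rupP (by decide +kernel)
theorem r2849 : PImp [l2214, o3363] l2849 := rupP (by decide +kernel)
theorem r2850 : PImp [l2214, l2217, o3447] l2850 := rupP (by decide +kernel)
theorem r2851 : PImp [l2214, o3450] l2851 := rupP (by decide +kernel)
theorem r2852 : PImp [l2214, o3451] l2852 := rupP (by decide +kernel)
theorem r2853 : PImp [l2214, l2221, o3452] l2853 := rupP (by decide +kernel)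
theorem r2854 : PImp [l2214, o3454] l2854 := rupP (by decide +kernel)
theorem r2855 : PImp [l2214, o3533] l2855 := rupP (by decide +kernel)
theorem r2856 : PImp [l2214, l2225, o3534] l2856 := rupP (by decide +kernel)
theorem r2857 : PImp [l2214, o3536] l2857 := rupP (by decide +kernel)
theorem r2858 : PImp [l2210, l367] l2858 := rupP (by decide +kernel)
theorem r2859 : PImp [l2210, l371] l2859 := rupP (by decide +kernel)
theorem r2860 : PImp [l2210, l1917, l2144, l2031, o7819] l2860 := rupP (by decide +kernel)
theorem r2861 : PImp [l2208, l364] l2861 := rupP (by decide +kernel)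
theorem r2862 : PImp [l2226, o3284] l2862 := rupP (by decide +kernel)
theorem r2863 : PImp [l2224, o3283] l2863 := rupP (by decide +kernel)
theorem r2864 : PImp [l2235, o3285] l2864 := rupP (by decide +kernel)
theorem r2865 : PImp [l2224, o3282] l2865 := rupP (by decide +kernel)
theorem r2866 : PImp [l2226, o3281] l2866 := rupP (by decide +kernel)
theorem r2867 : PImp [l2220, o3279] l2867 := rupP (by decide +kernel)
theorem r2868 : PImp [l2220, o3278] l2868 := rupP (by decide +kernel)
theorem r2869 : PImp [l2218, o3277] l2869 := rupP (by decide +kernel)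
theorem r2870 : PImp [l2218, o3276] l2870 := rupP (by decide +kernel)
theorem r2871 : PImp [l2203, o3257] l2871 := rupP (by decide +kernel)
theorem r2872 : PImp [l2203, o3260] l2872 := rupP (by decide +kernel)
theorem r2873 : PImp [l2203, o3265] l2873 := rupP (by decide +kernel)
theorem r2874 : PImp [l2203, o3267] l2874 := rupP (by decide +kernel)
theorem r2875 : PImp [l2203, o3270] l2875 := rupP (by decide +kernel)
theorem r2876 : PImp [l2203, o3271] l2876 := rupP (by decide +kernel)
theorem r2877 : PImp [l2203, o3273] l2877 := rupP (by decide +kernel)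
theorem r2878 : PImp [l2203, o3274] l2878 := rupP (by decide +kernel)
theorem r2879 : PImp [l2203, o3275] l2879 := rupP (by decide +kernel)
theorem r2880 : PImp [l2203, l1900, l2014, l2127, o6838] l2880 := rupP (by decide +kernel)
theorem r2881 : PImp [l2012, l2201, l1898, l2125, o6837] l2881 := rupP (by decide +kernel)
theorem r2882 : PImp [l2198, l343] l2882 := rupP (by decide +kernel)
theorem r2883 : PImp [l2217, o3254] l2883 := rupP (by decide +kernel)
theorem r2884 : PImp [l2219, o3255] l2884 := rupP (by decide +kernel)
theorem r2885 : PImp [l2217, o3256] l2885 := rupP (by decide +kernel)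
theorem r2886 : PImp [l2219, o3258] l2886 := rupP (by decide +kernel)
theorem r2887 : PImp [l2223, o3262] l2887 := rupP (by decide +kernel)
theorem r2888 : PImp [l2225, o3263] l2888 := rupP (by decide +kernel)
theorem r2889 : PImp [l2223, o3266] l2889 := rupP (by decide +kernel)
theorem r2890 : PImp [l2225, o3268] l2890 := rupP (by decide +kernel)
theorem r2891 : PImp [l2227, o3269] l2891 := rupP (by decide +kernel)
theorem r2892 : PImp [l2225, o3272] l2892 := rupP (by decide +kernel)
theorem r2893 : PImp [l2123, l1896, l2010, o6836] l2893 := rupP (by decide +kernel)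
theorem r2894 : PImp [l2199, o3264] l2894 := rupP (by decide +kernel)
theorem r2895 : PImp [l2226, o3144] l2895 := rupP (by decide +kernel)
theorem r2896 : PImp [l2224, o3146] l2896 := rupP (by decide +kernel)
theorem r2897 : PImp [l1889, l2003, o6542] l2897 := rupP (by decide +kernel)
theorem r2898 : PImp [l2231, o2767] l2898 := rupP (by decide +kernel)
theorem r2899 : PImp [l2230, o2794] l2899 := rupP (by decide +kernel)
theorem r2900 : PImp [l2226, o3133] l2900 := rupP (by decide +kernel)
theorem r2901 : PImp [l2226, o3140] l2901 := rupP (by decide +kernel)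
theorem r2902 : PImp [l2224, o3141] l2902 := rupP (by decide +kernel)
theorem r2903 : PImp [l2236, o3221] l2903 := rupP (by decide +kernel)
theorem r2904 : PImp [l2235, o3235] l2904 := rupP (by decide +kernel)
theorem r2905 : PImp [l2001, l2116, l1887, o6541] l2905 := rupP (by decide +kernel)
theorem r2906 : PImp [l1887, l2001, l2116, o9025] l2906 := rupP (by decide +kernel)
theorem r2907 : PImp [l2230, o2786] l2907 := rupP (by decide +kernel)
theorem r2908 : PImp [l2226, o3130] l2908 := rupP (by decide +kernel)
theorem r2909 : PImp [l2226, o3136] l2909 := rupP (by decide +kernel)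
theorem r2910 : PImp [l2224, o3138] l2910 := rupP (by decide +kernel)
theorem r2911 : PImp [l2236, o3215] l2911 := rupP (by decide +kernel)
theorem r2912 : PImp [l2235, o3224] l2912 := rupP (by decide +kernel)
theorem r2913 : PImp [l2235, o3230] l2913 := rupP (by decide +kernel)
theorem r2914 : PImp [l1885, l1999, o6540] l2914 := rupP (by decide +kernel)
theorem r2915 : PImp [l1885, l1999, o9026] l2915 := rupP (by decide +kernel)
theorem r2916 : PImp [l2231, o2763] l2916 := rupP (by decide +kernel)
theorem r2917 : PImp [l2230, o2793] l2917 := rupP (by decide +kernel)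
theorem r2918 : PImp [l2226, o3123] l2918 := rupP (by decide +kernel)
theorem r2919 : PImp [l2224, o3124] l2919 := rupP (by decide +kernel)
theorem r2920 : PImp [l2224, o3134] l2920 := rupP (by decide +kernel)
theorem r2921 : PImp [l2114, o6539] l2921 := rupP (by decide +kernel)
theorem r2922 : PImp [l2230, o2778] l2922 := rupP (by decide +kernel)
theorem r2923 : PImp [l2226, o3119] l2923 := rupP (by decide +kernel)
theorem r2924 : PImp [l2226, o3120] l2924 := rupP (by decide +kernel)
theorem r2925 : PImp [l2224, o3121] l2925 := rupP (by decide +kernel)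
theorem r2926 : PImp [l2224, o3131] l2926 := rupP (by decide +kernel)
theorem r2927 : PImp [l2112, o6538] l2927 := rupP (by decide +kernel)
theorem r2928 : PImp [l2230, o2777] l2928 := rupP (by decide +kernel)
theorem r2929 : PImp [l2226, o3116] l2929 := rupP (by decide +kernel)
theorem r2930 : PImp [l2224, o3127] l2930 := rupP (by decide +kernel)
theorem r2931 : PImp [l2220, o2997] l2931 := rupP (by decide +kernel)
theorem r2932 : PImp [l2218, o2998] l2932 := rupP (by decide +kernel)
theorem r2933 : PImp [l1883, l1997, o8587] l2933 := rupP (by decide +kernel)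
theorem r2934 : PImp [l2230, o2752] l2934 := rupP (by decide +kernel)
theorem r2935 : PImp [l2220, o2994] l2935 := rupP (by decide +kernel)
theorem r2936 : PImp [l2218, o2995] l2936 := rupP (by decide +kernel)
theorem r2937 : PImp [l2233, o3053] l2937 := rupP (by decide +kernel)
theorem r2938 : PImp [l1881, l1995, l2110, o6536] l2938 := rupP (by decide +kernel)
theorem r2939 : PImp [l1881, l1995, l2110, o8588] l2939 := rupP (by decide +kernel)
theorem r2940 : PImp [l2230, o2747] l2940 := rupP (by decide +kernel)
theorem r2941 : PImp [l2220, o2987] l2941 := rupP (by decide +kernel)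
theorem r2942 : PImp [l2220, o2991] l2942 := rupP (by decide +kernel)
theorem r2943 : PImp [l2218, o2992] l2943 := rupP (by decide +kernel)
theorem r2944 : PImp [l1879, l1993, o6535] l2944 := rupP (by decide +kernel)
theorem r2945 : PImp [l1879, l1993, o8589] l2945 := rupP (by decide +kernel)
theorem r2946 : PImp [l2230, o2751] l2946 := rupP (by decide +kernel)
theorem r2947 : PImp [l2220, o2983] l2947 := rupP (by decide +kernel)
theorem r2948 : PImp [l2218, o2990] l2948 := rupP (by decide +kernel)
theorem r2949 : PImp [l2108, o6534] l2949 := rupP (by decide +kernel)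
theorem r2950 : PImp [l2108, o8590] l2950 := rupP (by decide +kernel)
theorem r2951 : PImp [l2230, o2742] l2951 := rupP (by decide +kernel)
theorem r2952 : PImp [l2220, o2981] l2952 := rupP (by decide +kernel)
theorem r2953 : PImp [l2218, o2988] l2953 := rupP (by decide +kernel)
theorem r2954 : PImp [l2106, o6533] l2954 := rupP (by decide +kernel)
theorem r2955 : PImp [l2106, o8591] l2955 := rupP (by decide +kernel)
theorem r2956 : PImp [l2230, o2741] l2956 := rupP (by decide +kernel)
theorem r2957 : PImp [l2220, o2978] l2957 := rupP (by decide +kernel)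
theorem r2958 : PImp [l2218, o2985] l2958 := rupP (by decide +kernel)
theorem r2959 : PImp [l2214, o2939] l2959 := rupP (by decide +kernel)
theorem r2960 : PImp [l2212, o2940] l2960 := rupP (by decide +kernel)
theorem r2961 : PImp [l1991, l1877, o7986] l2961 := rupP (by decide +kernel)
theorem r2962 : PImp [l2104, l1989, l1875, o7987] l2962 := rupP (by decide +kernel)
theorem r2963 : PImp [l2231, o2718] l2963 := rupP (by decide +kernel)
theorem r2964 : PImp [l2102, o7988] l2964 := rupP (by decide +kernel)
theorem r2965 : PImp [l2100, o7989] l2965 := rupP (by decide +kernel)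
theorem r2966 : PImp [l2230, o2725] l2966 := rupP (by decide +kernel)
theorem r2967 : PImp [l2230, o2726] l2967 := rupP (by decide +kernel)
theorem r2968 : PImp [l2212, o2936] l2968 := rupP (by decide +kernel)
theorem r2969 : PImp [l2231, o2709] l2969 := rupP (by decide +kernel)
theorem r2970 : PImp [l2197, l331] l2970 := rupP (by decide +kernel)
theorem r2971 : PImp [l2202, l2197, o2815] l2971 := rupP (by decide +kernel)
theorem r2972 : PImp [l2202, l2197, o2817] l2972 := rupP (by decide +kernel)
theorem r2973 : PImp [l2197, o2818] l2973 := rupP (by decide +kernel)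
theorem r2974 : PImp [l2197, o2836] l2974 := rupP (by decide +kernel)
theorem r2975 : PImp [l2197, o2838] l2975 := rupP (by decide +kernel)
theorem r2976 : PImp [l2197, o2841] l2976 := rupP (by decide +kernel)
theorem r2977 : PImp [l2197, o2842] l2977 := rupP (by decide +kernel)
theorem r2978 : PImp [l2197, o2843] l2978 := rupP (by decide +kernel)
theorem r2979 : PImp [l2197, o2844] l2979 := rupP (by decide +kernel)
theorem r2980 : PImp [l2197, o2856] l2980 := rupP (by decide +kernel)
theorem r2981 : PImp [l2197, o2859] l2981 := rupP (by decide +kernel)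
theorem r2982 : PImp [l2197, o2860] l2982 := rupP (by decide +kernel)
theorem r2983 : PImp [l2197, o2861] l2983 := rupP (by decide +kernel)
theorem r2984 : PImp [l2197, o2862] l2984 := rupP (by decide +kernel)
theorem r2985 : PImp [l2197, o2863] l2985 := rupP (by decide +kernel)
theorem r2986 : PImp [l2197, o2864] l2986 := rupP (by decide +kernel)
theorem r2987 : PImp [l2197, o2887] l2987 := rupP (by decide +kernel)
theorem r2988 : PImp [l2197, o2890] l2988 := rupP (by decide +kernel)
theorem r2989 : PImp [l2197, o2892] l2989 := rupP (by decide +kernel)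
theorem r2990 : PImp [l2197, o2893] l2990 := rupP (by decide +kernel)
theorem r2991 : PImp [l2197, o2894] l2991 := rupP (by decide +kernel)
theorem r2992 : PImp [l2197, o2895] l2992 := rupP (by decide +kernel)
theorem r2993 : PImp [l2197, o2911] l2993 := rupP (by decide +kernel)
theorem r2994 : PImp [l2197, o2913] l2994 := rupP (by decide +kernel)
theorem r2995 : PImp [l2197, o2915] l2995 := rupP (by decide +kernel)
theorem r2996 : PImp [l2197, o2917] l2996 := rupP (by decide +kernel)
theorem r2997 : PImp [l2197, o2918] l2997 := rupP (by decide +kernel)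
theorem r2998 : PImp [l2197, o2919] l2998 := rupP (by decide +kernel)
theorem r2999 : PImp [l2197, o2920] l2999 := rupP (by decide +kernel)
theorem r3000 : PImp [l2197, o2921] l3000 := rupP (by decide +kernel)
theorem r3001 : PImp [l2197, o2922] l3001 := rupP (by decide +kernel)
theorem r3002 : PImp [l2197, o2923] l3002 := rupP (by decide +kernel)
theorem r3003 : PImp [l2197, o2926] l3003 := rupP (by decide +kernel)
theorem r3004 : PImp [l2197, l1141] l3004 := rupP (by decide +kernel)
theorem r3005 : PImp [l2197, l1142] l3005 := rupP (by decide +kernel)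
theorem r3006 : PImp [l2195, l1143] l3006 := rupP (by decide +kernel)
theorem r3007 : PImp [l2195, l1144] l3007 := rupP (by decide +kernel)
theorem r3008 : PImp [l2192, l330] l3008 := rupP (by decide +kernel)
theorem r3009 : PImp [l2217, o2881] l3009 := rupP (by decide +kernel)
theorem r3010 : PImp [l2219, o2884] l3010 := rupP (by decide +kernel)
theorem r3011 : PImp [l2217, o2888] l3011 := rupP (by decide +kernel)
theorem r3012 : PImp [l2219, o2891] l3012 := rupP (by decide +kernel)
theorem r3013 : PImp [l2193, l2196, o2706] l3013 := rupP (by decide +kernel)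
theorem r3014 : PImp [l2193, o2814] l3014 := rupP (by decide +kernel)
theorem r3015 : PImp [l2193, o2833] l3015 := rupP (by decide +kernel)
theorem r3016 : PImp [l2193, o2835] l3016 := rupP (by decide +kernel)
theorem r3017 : PImp [l2193, o2850] l3017 := rupP (by decide +kernel)
theorem r3018 : PImp [l2193, o2851] l3018 := rupP (by decide +kernel)
theorem r3019 : PImp [l2193, o2852] l3019 := rupP (by decide +kernel)
theorem r3020 : PImp [l2193, o2876] l3020 := rupP (by decide +kernel)
theorem r3021 : PImp [l2193, o2878] l3021 := rupP (by decide +kernel)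
theorem r3022 : PImp [l2193, o2879] l3022 := rupP (by decide +kernel)
theorem r3023 : PImp [l2193, o2886] l3023 := rupP (by decide +kernel)
theorem r3024 : PImp [l2193, o2901] l3024 := rupP (by decide +kernel)
theorem r3025 : PImp [l2193, o2904] l3025 := rupP (by decide +kernel)
theorem r3026 : PImp [l2193, o2906] l3026 := rupP (by decide +kernel)
theorem r3027 : PImp [l2193, o2916] l3027 := rupP (by decide +kernel)
theorem r3028 : PImp [l2193, o2925] l3028 := rupP (by decide +kernel)
theorem r3029 : PImp [l2193, l1147] l3029 := rupP (by decide +kernel)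
theorem r3030 : PImp [l2193, l1148] l3030 := rupP (by decide +kernel)
theorem r3031 : PImp [l2217, o2873] l3031 := rupP (by decide +kernel)
theorem r3032 : PImp [l2219, o2877] l3032 := rupP (by decide +kernel)
theorem r3033 : PImp [l2202, o2811] l3033 := rupP (by decide +kernel)
theorem r3034 : PImp [l1980, l1866, o6898] l3034 := rupP (by decide +kernel)
theorem r3035 : PImp [l2231, o2697] l3035 := rupP (by decide +kernel)
theorem r3036 : PImp [l2220, o2658] l3036 := rupP (by decide +kernel)
theorem r3037 : PImp [l2220, o2655] l3037 := rupP (by decide +kernel)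
theorem r3038 : PImp [l2220, o2653] l3038 := rupP (by decide +kernel)
theorem r3039 : PImp [l2218, o2654] l3039 := rupP (by decide +kernel)
theorem r3040 : PImp [l2218, o2656] l3040 := rupP (by decide +kernel)
theorem r3041 : PImp [l2228, o2437] l3041 := rupP (by decide +kernel)
theorem r3042 : PImp [l2191, l2196, o2597] l3042 := rupP (by decide +kernel)
theorem r3043 : PImp [l2191, l2196, o2598] l3043 := rupP (by decide +kernel)
theorem r3044 : PImp [l2191, l2196, o2599] l3044 := rupP (by decide +kernel)
theorem r3045 : PImp [l2191, l2196, o2600] l3045 := rupP (by decide +kernel)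
theorem r3046 : PImp [l2202, l2191, o2605] l3046 := rupP (by decide +kernel)
theorem r3047 : PImp [l2202, l2191, o2606] l3047 := rupP (by decide +kernel)
theorem r3048 : PImp [l2191, o2621] l3048 := rupP (by decide +kernel)
theorem r3049 : PImp [l2191, o2622] l3049 := rupP (by decide +kernel)
theorem r3050 : PImp [l2191, o2624] l3050 := rupP (by decide +kernel)
theorem r3051 : PImp [l2191, o2625] l3051 := rupP (by decide +kernel)
theorem r3052 : PImp [l2191, o2628] l3052 := rupP (by decide +kernel)
theorem r3053 : PImp [l2186, l320] l3053 := rupP (by decide +kernel)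
theorem r3054 : PImp [l2219, o2620] l3054 := rupP (by decide +kernel)
theorem r3055 : PImp [l2187, l2196, o2590] l3055 := rupP (by decide +kernel)
theorem r3056 : PImp [l2187, l2196, o2591] l3056 := rupP (by decide +kernel)
theorem r3057 : PImp [l2187, l2192, o2592] l3057 := rupP (by decide +kernel)
theorem r3058 : PImp [l2187, l2196, o2593] l3058 := rupP (by decide +kernel)
theorem r3059 : PImp [l2187, l2192, o2596] l3059 := rupP (by decide +kernel)
theorem r3060 : PImp [l2202, l2187, o2602] l3060 := rupP (by decide +kernel)
theorem r3061 : PImp [l2198, l2187, o2603] l3061 := rupP (by decide +kernel)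
theorem r3062 : PImp [l2187, o2604] l3062 := rupP (by decide +kernel)
theorem r3063 : PImp [l2187, o2618] l3063 := rupP (by decide +kernel)
theorem r3064 : PImp [l2187, o2619] l3064 := rupP (by decide +kernel)
theorem r3065 : PImp [l2187, o2623] l3065 := rupP (by decide +kernel)
theorem r3066 : PImp [l2187, o2627] l3066 := rupP (by decide +kernel)
theorem r3067 : PImp [l2196, o2588] l3067 := rupP (by decide +kernel)
theorem r3068 : PImp [l2192, o2589] l3068 := rupP (by decide +kernel)
theorem r3069 : PImp [l2192, o2594] l3069 := rupP (by decide +kernel)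
theorem r3070 : PImp [l1965, l1850, l2078, o6060] l3070 := rupP (by decide +kernel)
theorem r3071 : PImp [l1850, l1965, l2078, o7212] l3071 := rupP (by decide +kernel)
theorem r3072 : PImp [l2229, o2434] l3072 := rupP (by decide +kernel)
theorem r3073 : PImp [l2229, o2433] l3073 := rupP (by decide +kernel)
theorem r3074 : PImp [l2231, o2473] l3074 := rupP (by decide +kernel)
theorem r3075 : PImp [l2231, o2459] l3075 := rupP (by decide +kernel)
theorem r3076 : PImp [l2230, o2476] l3076 := rupP (by decide +kernel)
theorem r3077 : PImp [l2230, o2481] l3077 := rupP (by decide +kernel)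
theorem r3078 : PImp [l1846, l1961, o6059] l3078 := rupP (by decide +kernel)
theorem r3079 : PImp [l1846, l1961, o6545] l3079 := rupP (by decide +kernel)
theorem r3080 : PImp [l2228, o2429] l3080 := rupP (by decide +kernel)
theorem r3081 : PImp [l2230, o2470] l3081 := rupP (by decide +kernel)
theorem r3082 : PImp [l1844, l1959, o6057] l3082 := rupP (by decide +kernel)
theorem r3083 : PImp [l1959, l1844, o6546] l3083 := rupP (by decide +kernel)
theorem r3084 : PImp [l2230, o2452] l3084 := rupP (by decide +kernel)
theorem r3085 : PImp [l2230, o2462] l3085 := rupP (by decide +kernel)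
theorem r3086 : PImp [l2230, o2466] l3086 := rupP (by decide +kernel)
theorem r3087 : PImp [l2228, o2423] l3087 := rupP (by decide +kernel)
theorem r3088 : PImp [l2228, o2425] l3088 := rupP (by decide +kernel)
theorem r3089 : PImp [l2186, l2197, o2495] l3089 := rupP (by decide +kernel)
theorem r3090 : PImp [l2188, l2197, o2504] l3090 := rupP (by decide +kernel)
theorem r3091 : PImp [l2230, o2445] l3091 := rupP (by decide +kernel)
theorem r3092 : PImp [l2230, o2456] l3092 := rupP (by decide +kernel)
theorem r3093 : PImp [l2228, o2422] l3093 := rupP (by decide +kernel)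
theorem r3094 : PImp [l2197, o2487] l3094 := rupP (by decide +kernel)
theorem r3095 : PImp [l2197, o2490] l3095 := rupP (by decide +kernel)
theorem r3096 : PImp [l2197, o2498] l3096 := rupP (by decide +kernel)
theorem r3097 : PImp [l2184, l2127, o2016] l3097 := rupP (by decide +kernel)
theorem r3098 : PImp [l2184, l2125, o2017] l3098 := rupP (by decide +kernel)
theorem r3099 : PImp [l2075, o1767] l3099 := rupP (by decide +kernel)
theorem r3100 : PImp [l2071, o1768] l3100 := rupP (by decide +kernel)
theorem r3101 : PImp [l2134, l2175, o2058] l3101 := rupP (by decide +kernel)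
theorem r3102 : PImp [l2138, l2175, o2059] l3102 := rupP (by decide +kernel)
theorem r3103 : PImp [l2138, l2175, o2060] l3103 := rupP (by decide +kernel)
theorem r3104 : PImp [l2140, l2175, o2061] l3104 := rupP (by decide +kernel)
theorem r3105 : PImp [l2140, l2175, o2062] l3105 := rupP (by decide +kernel)
theorem r3106 : PImp [l2140, l2175, o2063] l3106 := rupP (by decide +kernel)
theorem r3107 : PImp [l2142, l2175, o2075] l3107 := rupP (by decide +kernel)
theorem r3108 : PImp [l2144, l2175, o2076] l3108 := rupP (by decide +kernel)
theorem r3109 : PImp [l2148, l2175, o2077] l3109 := rupP (by decide +kernel)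
theorem r3110 : PImp [l2150, l2175, o2078] l3110 := rupP (by decide +kernel)
theorem r3111 : PImp [l2156, l2175, o2127] l3111 := rupP (by decide +kernel)
theorem r3112 : PImp [l2175, l2158, o2130] l3112 := rupP (by decide +kernel)
theorem r3113 : PImp [l2160, l2175, o2131] l3113 := rupP (by decide +kernel)
theorem r3114 : PImp [l2160, l2175, o2132] l3114 := rupP (by decide +kernel)
theorem r3115 : PImp [l2175, l2162, o2133] l3115 := rupP (by decide +kernel)
theorem r3116 : PImp [l2175, l2162, o2135] l3116 := rupP (by decide +kernel)
theorem r3117 : PImp [l2175, l2164, o2136] l3117 := rupP (by decide +kernel)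
theorem r3118 : PImp [l2175, l2164, o2137] l3118 := rupP (by decide +kernel)
theorem r3119 : PImp [l2175, l2164, o2139] l3119 := rupP (by decide +kernel)
theorem r3120 : PImp [l2166, l2175, o2183] l3120 := rupP (by decide +kernel)
theorem r3121 : PImp [l2168, l2175, o2184] l3121 := rupP (by decide +kernel)
theorem r3122 : PImp [l2172, l2175, o2185] l3122 := rupP (by decide +kernel)
theorem r3123 : PImp [l2061, l1947, l2226, l2173, o7259] l3123 := rupP (by decide +kernel)
theorem r3124 : PImp [l2227, l2173, l2061, l1947, o7354] l3124 := rupP (by decide +kernel)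
theorem r3125 : PImp [l2142, l2171, o2074] l3125 := rupP (by decide +kernel)
theorem r3126 : PImp [l2154, l2171, o2120] l3126 := rupP (by decide +kernel)
theorem r3127 : PImp [l2156, l2171, o2121] l3127 := rupP (by decide +kernel)
theorem r3128 : PImp [l2171, l2158, o2122] l3128 := rupP (by decide +kernel)
theorem r3129 : PImp [l2160, l2171, o2125] l3129 := rupP (by decide +kernel)
theorem r3130 : PImp [l2160, l2171, o2126] l3130 := rupP (by decide +kernel)
theorem r3131 : PImp [l2171, l2166, o2182] l3131 := rupP (by decide +kernel)
theorem r3132 : PImp [l1945, l2059, l2171, o7353] l3132 := rupP (by decide +kernel)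
theorem r3133 : PImp [l2057, l2169, l2224, l1943, o7258] l3133 := rupP (by decide +kernel)
theorem r3134 : PImp [l2169, l2057, l1943, l2225, o7352] l3134 := rupP (by decide +kernel)
theorem r3135 : PImp [l2224, l2057, l1943, l2169, o9150] l3135 := rupP (by decide +kernel)
theorem r3136 : PImp [l2167, l1941, l2222, l2055, o7257] l3136 := rupP (by decide +kernel)
theorem r3137 : PImp [l2167, l1941, l2055, l2223, o7351] l3137 := rupP (by decide +kernel)
theorem r3138 : PImp [l2154, l2165, o2111] l3138 := rupP (by decide +kernel)
theorem r3139 : PImp [l2154, l2165, o2112] l3139 := rupP (by decide +kernel)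
theorem r3140 : PImp [l2154, l2165, o2113] l3140 := rupP (by decide +kernel)
theorem r3141 : PImp [l2156, l2165, o2114] l3141 := rupP (by decide +kernel)
theorem r3142 : PImp [l2156, l2165, o2115] l3142 := rupP (by decide +kernel)
theorem r3143 : PImp [l2053, l2165, l1939, o7256] l3143 := rupP (by decide +kernel)
theorem r3144 : PImp [l2053, l2165, l1939, o7350] l3144 := rupP (by decide +kernel)
theorem r3145 : PImp [l2051, l1937, l2163, o8385] l3145 := rupP (by decide +kernel)
theorem r3146 : PImp [l1937, l2051, l2163, o8533] l3146 := rupP (by decide +kernel)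
theorem r3147 : PImp [l2220, l2161, l1935, l2049, o8825] l3147 := rupP (by decide +kernel)
theorem r3148 : PImp [l2159, l2166, o2176] l3148 := rupP (by decide +kernel)
theorem r3149 : PImp [l2159, l2168, o2177] l3149 := rupP (by decide +kernel)
theorem r3150 : PImp [l2159, l2172, o2178] l3150 := rupP (by decide +kernel)
theorem r3151 : PImp [l1933, l2047, l2159, o7255] l3151 := rupP (by decide +kernel)
theorem r3152 : PImp [l2159, l1933, l2047, o8387] l3152 := rupP (by decide +kernel)
theorem r3153 : PImp [l2159, l2047, l1933, o8535] l3153 := rupP (by decide +kernel)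
theorem r3154 : PImp [l2155, l2217, l1929, l2043, o7348] l3154 := rupP (by decide +kernel)
theorem r3155 : PImp [l2136, l2151, o2057] l3155 := rupP (by decide +kernel)
theorem r3156 : PImp [l2151, l2154, o2098] l3156 := rupP (by decide +kernel)
theorem r3157 : PImp [l2151, l2156, o2099] l3157 := rupP (by decide +kernel)
theorem r3158 : PImp [l2151, l2158, o2100] l3158 := rupP (by decide +kernel)
theorem r3159 : PImp [l2151, l2160, o2102] l3159 := rupP (by decide +kernel)
theorem r3160 : PImp [l2151, l2160, o2103] l3160 := rupP (by decide +kernel)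
theorem r3161 : PImp [l2151, l2162, o2104] l3161 := rupP (by decide +kernel)
theorem r3162 : PImp [l2151, l2164, o2105] l3162 := rupP (by decide +kernel)
theorem r3163 : PImp [l2151, l2164, o2106] l3163 := rupP (by decide +kernel)
theorem r3164 : PImp [l2151, l2164, o2107] l3164 := rupP (by decide +kernel)
theorem r3165 : PImp [l2151, l2166, o2158] l3165 := rupP (by decide +kernel)
theorem r3166 : PImp [l2151, l2172, o2159] l3166 := rupP (by decide +kernel)
theorem r3167 : PImp [l2039, l1925, l2151, o7910] l3167 := rupP (by decide +kernel)
theorem r3168 : PImp [l2037, l2214, l2149, l1923, o7911] l3168 := rupP (by decide +kernel)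
theorem r3169 : PImp [l2147, l2154, o2093] l3169 := rupP (by decide +kernel)
theorem r3170 : PImp [l2147, l2156, o2094] l3170 := rupP (by decide +kernel)
theorem r3171 : PImp [l2147, l2156, o2095] l3171 := rupP (by decide +kernel)
theorem r3172 : PImp [l2147, l2160, o2096] l3172 := rupP (by decide +kernel)
theorem r3173 : PImp [l2147, l2160, o2097] l3173 := rupP (by decide +kernel)
theorem r3174 : PImp [l2147, l2164, o2101] l3174 := rupP (by decide +kernel)
theorem r3175 : PImp [l2147, l2166, o2156] l3175 := rupP (by decide +kernel)
theorem r3176 : PImp [l2147, l2172, o2157] l3176 := rupP (by decide +kernel)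
theorem r3177 : PImp [l2035, l2147, l1921, o7912] l3177 := rupP (by decide +kernel)
theorem r3178 : PImp [l1919, l2145, l2213, l2033, o7347] l3178 := rupP (by decide +kernel)
theorem r3179 : PImp [l2033, l2145, l2213, l1919, o7741] l3179 := rupP (by decide +kernel)
theorem r3180 : PImp [l2033, l1919, l2212, l2145, o7913] l3180 := rupP (by decide +kernel)
theorem r3181 : PImp [l2031, l1917, l2210, l2143, o7914] l3181 := rupP (by decide +kernel)
theorem r3182 : PImp [l2025, l2137, l1911, l2209, o7345] l3182 := rupP (by decide +kernel)
theorem r3183 : PImp [l2137, l2208, l1911, l2025, o7645] l3183 := rupP (by decide +kernel)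
theorem r3184 : PImp [l2117, l2175, o2002] l3184 := rupP (by decide +kernel)
theorem r3185 : PImp [l2121, l2175, o2003] l3185 := rupP (by decide +kernel)
theorem r3186 : PImp [l2117, l2175, o2000] l3186 := rupP (by decide +kernel)
theorem r3187 : PImp [l2121, l2175, o2001] l3187 := rupP (by decide +kernel)
theorem r3188 : PImp [l2117, l2175, o1999] l3188 := rupP (by decide +kernel)
theorem r3189 : PImp [l2202, l1900, l2014, l2128, o6823] l3189 := rupP (by decide +kernel)
theorem r3190 : PImp [l2203, l2014, l2128, l1900, o6868] l3190 := rupP (by decide +kernel)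
theorem r3191 : PImp [l2202, l1900, l2014, l2128, o6932] l3191 := rupP (by decide +kernel)
theorem r3192 : PImp [l2126, l2166, o1995] l3192 := rupP (by decide +kernel)
theorem r3193 : PImp [l2012, l2201, l1898, l2126, o6867] l3193 := rupP (by decide +kernel)
theorem r3194 : PImp [l2200, l1898, l2012, l2126, o6931] l3194 := rupP (by decide +kernel)
theorem r3195 : PImp [l2200, l1898, l2012, l2126, o7155] l3195 := rupP (by decide +kernel)
theorem r3196 : PImp [l2124, l2154, o1988] l3196 := rupP (by decide +kernel)
theorem r3197 : PImp [l2124, l2158, o1989] l3197 := rupP (by decide +kernel)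
theorem r3198 : PImp [l2124, l2158, o1990] l3198 := rupP (by decide +kernel)
theorem r3199 : PImp [l2124, l2158, o1991] l3199 := rupP (by decide +kernel)
theorem r3200 : PImp [l2124, l2166, o1992] l3200 := rupP (by decide +kernel)
theorem r3201 : PImp [l2124, l2168, o1993] l3201 := rupP (by decide +kernel)
theorem r3202 : PImp [l2124, l2170, o1994] l3202 := rupP (by decide +kernel)
theorem r3203 : PImp [l2124, l2168, o1996] l3203 := rupP (by decide +kernel)
theorem r3204 : PImp [l2124, l2170, o1997] l3204 := rupP (by decide +kernel)
theorem r3205 : PImp [l2185, l2124, o1998] l3205 := rupP (by decide +kernel)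
theorem r3206 : PImp [l1896, l2010, l2124, o6822] l3206 := rupP (by decide +kernel)
theorem r3207 : PImp [l2010, l1896, l2124, o6866] l3207 := rupP (by decide +kernel)
theorem r3208 : PImp [l1896, l2010, l2124, o6930] l3208 := rupP (by decide +kernel)
theorem r3209 : PImp [l1896, l2010, l2124, o7156] l3209 := rupP (by decide +kernel)
theorem r3210 : PImp [l2199, l2008, l2122, l1894, o6865] l3210 := rupP (by decide +kernel)
theorem r3211 : PImp [l1887, l2001, l2115, o6597] l3211 := rupP (by decide +kernel)
theorem r3212 : PImp [l1887, l2001, l2115, o6729] l3212 := rupP (by decide +kernel)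
theorem r3213 : PImp [l2174, l243] l3213 := rupP (by decide +kernel)
theorem r3214 : PImp [l2111, o1910] l3214 := rupP (by decide +kernel)
theorem r3215 : PImp [l2111, o1934] l3215 := rupP (by decide +kernel)
theorem r3216 : PImp [l2168, l238] l3216 := rupP (by decide +kernel)
theorem r3217 : PImp [l2170, l239] l3217 := rupP (by decide +kernel)
theorem r3218 : PImp [l1883, l1997, o6593] l3218 := rupP (by decide +kernel)
theorem r3219 : PImp [l2162, l227] l3219 := rupP (by decide +kernel)
theorem r3220 : PImp [l1879, l1993, o6725] l3220 := rupP (by decide +kernel)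
theorem r3221 : PImp [l2105, o6724] l3221 := rupP (by decide +kernel)
theorem r3222 : PImp [l2156, l223] l3222 := rupP (by decide +kernel)
theorem r3223 : PImp [l2158, l224] l3223 := rupP (by decide +kernel)
theorem r3224 : PImp [l1991, l1877, o6592] l3224 := rupP (by decide +kernel)
theorem r3225 : PImp [l1991, l1877, o6723] l3225 := rupP (by decide +kernel)
theorem r3226 : PImp [l1991, l1877, o8238] l3226 := rupP (by decide +kernel)
theorem r3227 : PImp [l1989, l1875, l2103, o8239] l3227 := rupP (by decide +kernel)
theorem r3228 : PImp [l2150, l215] l3228 := rupP (by decide +kernel)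
theorem r3229 : PImp [l1873, l1987, o6722] l3229 := rupP (by decide +kernel)
theorem r3230 : PImp [l1987, l1873, o8240] l3230 := rupP (by decide +kernel)
theorem r3231 : PImp [l2101, o6591] l3231 := rupP (by decide +kernel)
theorem r3232 : PImp [l2101, o6721] l3232 := rupP (by decide +kernel)
theorem r3233 : PImp [l2099, o6720] l3233 := rupP (by decide +kernel)
theorem r3234 : PImp [l2144, l210] l3234 := rupP (by decide +kernel)
theorem r3235 : PImp [l2146, l211] l3235 := rupP (by decide +kernel)
theorem r3236 : PImp [l2138, l201] l3236 := rupP (by decide +kernel)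
theorem r3237 : PImp [l1982, l1868, o6718] l3237 := rupP (by decide +kernel)
theorem r3238 : PImp [l2132, l195] l3238 := rupP (by decide +kernel)
theorem r3239 : PImp [l2134, l196] l3239 := rupP (by decide +kernel)
theorem r3240 : PImp [l2119, l190] l3240 := rupP (by decide +kernel)
theorem r3241 : PImp [l2125, l186] l3241 := rupP (by decide +kernel)
theorem r3242 : PImp [l2123, l187] l3242 := rupP (by decide +kernel)
theorem r3243 : PImp [l2115, o1744] l3243 := rupP (by decide +kernel)
theorem r3244 : PImp [l2113, o1746] l3244 := rupP (by decide +kernel)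
theorem r3245 : PImp [l2115, o1740] l3245 := rupP (by decide +kernel)
theorem r3246 : PImp [l2113, o1741] l3246 := rupP (by decide +kernel)
theorem r3247 : PImp [l2113, o1739] l3247 := rupP (by decide +kernel)
theorem r3248 : PImp [l2113, o1743] l3248 := rupP (by decide +kernel)
theorem r3249 : PImp [l2101, o1723] l3249 := rupP (by decide +kernel)
theorem r3250 : PImp [l2101, o1722] l3250 := rupP (by decide +kernel)
theorem r3251 : PImp [l2097, o1721] l3251 := rupP (by decide +kernel)
theorem r3252 : PImp [l2095, o1720] l3252 := rupP (by decide +kernel)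
theorem r3253 : PImp [l2185, l2088, o1719] l3253 := rupP (by decide +kernel)
theorem r3254 : PImp [l2088, l2166, o1715] l3254 := rupP (by decide +kernel)
theorem r3255 : PImp [l2088, l2164, o1707] l3255 := rupP (by decide +kernel)
theorem r3256 : PImp [l2088, l2154, o1696] l3256 := rupP (by decide +kernel)
theorem r3257 : PImp [l2088, l2154, o1698] l3257 := rupP (by decide +kernel)
theorem r3258 : PImp [l2088, l2154, o1701] l3258 := rupP (by decide +kernel)
theorem r3259 : PImp [l2088, l2156, o1703] l3259 := rupP (by decide +kernel)
theorem r3260 : PImp [l2088, l2156, o1706] l3260 := rupP (by decide +kernel)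
theorem r3261 : PImp [l2185, l2086, o1718] l3261 := rupP (by decide +kernel)
theorem r3262 : PImp [l2086, l2166, o1709] l3262 := rupP (by decide +kernel)
theorem r3263 : PImp [l2086, l2166, o1712] l3263 := rupP (by decide +kernel)
theorem r3264 : PImp [l2086, l2168, o1711] l3264 := rupP (by decide +kernel)
theorem r3265 : PImp [l2086, l2168, o1713] l3265 := rupP (by decide +kernel)
theorem r3266 : PImp [l2086, l2168, o1716] l3266 := rupP (by decide +kernel)
theorem r3267 : PImp [l2086, l2164, o1705] l3267 := rupP (by decide +kernel)
theorem r3268 : PImp [l2086, l2154, o1689] l3268 := rupP (by decide +kernel)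
theorem r3269 : PImp [l2086, l2156, o1692] l3269 := rupP (by decide +kernel)
theorem r3270 : PImp [l2086, l2156, o1694] l3270 := rupP (by decide +kernel)
theorem r3271 : PImp [l2086, l2156, o1699] l3271 := rupP (by decide +kernel)
theorem r3272 : PImp [l2086, l2158, o1695] l3272 := rupP (by decide +kernel)
theorem r3273 : PImp [l2086, l2158, o1702] l3273 := rupP (by decide +kernel)
theorem r3274 : PImp [l2086, l2142, o1686] l3274 := rupP (by decide +kernel)
theorem r3275 : PImp [l2086, l2130, o1683] l3275 := rupP (by decide +kernel)
theorem r3276 : PImp [l2084, l2081, o1613] l3276 := rupP (by decide +kernel)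
theorem r3277 : PImp [l2125, l2084, o1678] l3277 := rupP (by decide +kernel)
theorem r3278 : PImp [l2123, l2084, o1679] l3278 := rupP (by decide +kernel)
theorem r3279 : PImp [l2125, l2084, o1680] l3279 := rupP (by decide +kernel)
theorem r3280 : PImp [l2123, l2084, o1681] l3280 := rupP (by decide +kernel)
theorem r3281 : PImp [l1856, l1971, l2084, o5934] l3281 := rupP (by decide +kernel)
theorem r3282 : PImp [l2185, l2084, o1717] l3282 := rupP (by decide +kernel)
theorem r3283 : PImp [l2084, l2168, o1708] l3283 := rupP (by decide +kernel)
theorem r3284 : PImp [l2084, l2168, o1710] l3284 := rupP (by decide +kernel)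
theorem r3285 : PImp [l2084, l2168, o1714] l3285 := rupP (by decide +kernel)
theorem r3286 : PImp [l2084, l2164, o1704] l3286 := rupP (by decide +kernel)
theorem r3287 : PImp [l2084, l2156, o1687] l3287 := rupP (by decide +kernel)
theorem r3288 : PImp [l2084, l2156, o1690] l3288 := rupP (by decide +kernel)
theorem r3289 : PImp [l2084, l2158, o1688] l3289 := rupP (by decide +kernel)
theorem r3290 : PImp [l2084, l2158, o1691] l3290 := rupP (by decide +kernel)
theorem r3291 : PImp [l2084, l2158, o1693] l3291 := rupP (by decide +kernel)
theorem r3292 : PImp [l2084, l2158, o1697] l3292 := rupP (by decide +kernel)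
theorem r3293 : PImp [l2084, l2158, o1700] l3293 := rupP (by decide +kernel)
theorem r3294 : PImp [l2084, l2142, o1685] l3294 := rupP (by decide +kernel)
theorem r3295 : PImp [l2084, l2134, o1682] l3295 := rupP (by decide +kernel)
theorem r3296 : PImp [l2084, l2134, o1684] l3296 := rupP (by decide +kernel)
theorem r3297 : PImp [l1850, l1965, l2078, o5933] l3297 := rupP (by decide +kernel)
theorem r3298 : PImp [l1850, l1965, l2078, o6184] l3298 := rupP (by decide +kernel)
theorem r3299 : PImp [l1850, l1965, l2078, o7113] l3299 := rupP (by decide +kernel)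
theorem r3300 : PImp [l2092, o1651] l3300 := rupP (by decide +kernel)
theorem r3301 : PImp [l2090, o1652] l3301 := rupP (by decide +kernel)
theorem r3302 : PImp [l2090, o1654] l3302 := rupP (by decide +kernel)
theorem r3303 : PImp [l2085, l136] l3303 := rupP (by decide +kernel)
theorem r3304 : PImp [l2083, l135] l3304 := rupP (by decide +kernel)
theorem r3305 : PImp [l1846, l1961, o5932] l3305 := rupP (by decide +kernel)
theorem r3306 : PImp [l1961, l1846, o6667] l3306 := rupP (by decide +kernel)
theorem r3307 : PImp [l2114, o1646] l3307 := rupP (by decide +kernel)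
theorem r3308 : PImp [l2083, l133] l3308 := rupP (by decide +kernel)
theorem r3309 : PImp [l1844, l1959, o5930] l3309 := rupP (by decide +kernel)
theorem r3310 : PImp [l1844, l1959, o6668] l3310 := rupP (by decide +kernel)
theorem r3311 : PImp [l1844, l1959, o6181] l3311 := rupP (by decide +kernel)
theorem r3312 : PImp [l1959, l1844, o6392] l3312 := rupP (by decide +kernel)
theorem r3313 : PImp [l2069, l2014, o1195] l3313 := rupP (by decide +kernel)
theorem r3314 : PImp [l2069, l2010, o1196] l3314 := rupP (by decide +kernel)
theorem r3315 : PImp [l1979, o1163] l3315 := rupP (by decide +kernel)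
theorem r3316 : PImp [l1984, o1396] l3316 := rupP (by decide +kernel)
theorem r3317 : PImp [l1990, o1432] l3317 := rupP (by decide +kernel)
theorem r3318 : PImp [l1996, o1531] l3318 := rupP (by decide +kernel)
theorem r3319 : PImp [l2002, o1598] l3319 := rupP (by decide +kernel)
theorem r3320 : PImp [l1962, o948] l3320 := rupP (by decide +kernel)
theorem r3321 : PImp [l1960, o949] l3321 := rupP (by decide +kernel)
theorem r3322 : PImp [l2017, l2062, o1240] l3322 := rupP (by decide +kernel)
theorem r3323 : PImp [l2019, l2062, o1241] l3323 := rupP (by decide +kernel)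
theorem r3324 : PImp [l2021, l2062, o1242] l3324 := rupP (by decide +kernel)
theorem r3325 : PImp [l2023, l2062, o1243] l3325 := rupP (by decide +kernel)
theorem r3326 : PImp [l2025, l2062, o1244] l3326 := rupP (by decide +kernel)
theorem r3327 : PImp [l2025, l2062, o1245] l3327 := rupP (by decide +kernel)
theorem r3328 : PImp [l2027, l2062, o1246] l3328 := rupP (by decide +kernel)
theorem r3329 : PImp [l2027, l2062, o1247] l3329 := rupP (by decide +kernel)
theorem r3330 : PImp [l2029, l2062, o1267] l3330 := rupP (by decide +kernel)
theorem r3331 : PImp [l2031, l2062, o1268] l3331 := rupP (by decide +kernel)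
theorem r3332 : PImp [l2039, l2062, o1269] l3332 := rupP (by decide +kernel)
theorem r3333 : PImp [l2041, l2062, o1333] l3333 := rupP (by decide +kernel)
theorem r3334 : PImp [l2043, l2062, o1337] l3334 := rupP (by decide +kernel)
theorem r3335 : PImp [l2045, l2062, o1339] l3335 := rupP (by decide +kernel)
theorem r3336 : PImp [l2047, l2062, o1342] l3336 := rupP (by decide +kernel)
theorem r3337 : PImp [l2047, l2062, o1344] l3337 := rupP (by decide +kernel)
theorem r3338 : PImp [l2049, l2062, o1345] l3338 := rupP (by decide +kernel)
theorem r3339 : PImp [l2049, l2062, o1346] l3339 := rupP (by decide +kernel)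
theorem r3340 : PImp [l2051, l2062, o1347] l3340 := rupP (by decide +kernel)
theorem r3341 : PImp [l2051, l2062, o1348] l3341 := rupP (by decide +kernel)
theorem r3342 : PImp [l2051, l2062, o1350] l3342 := rupP (by decide +kernel)
theorem r3343 : PImp [l2053, l2062, o1390] l3343 := rupP (by decide +kernel)
theorem r3344 : PImp [l2055, l2062, o1391] l3344 := rupP (by decide +kernel)
theorem r3345 : PImp [l2059, l2062, o1392] l3345 := rupP (by decide +kernel)
theorem r3346 : PImp [l2062, l1949, l2175, o7040] l3346 := rupP (by decide +kernel)
theorem r3347 : PImp [l2176, l1948, l2062, o7076] l3347 := rupP (by decide +kernel)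
theorem r3348 : PImp [l2176, l1949, l2062, o7090] l3348 := rupP (by decide +kernel)
theorem r3349 : PImp [l2175, l2062, l1948, o7122] l3349 := rupP (by decide +kernel)
theorem r3350 : PImp [l2062, l1948, l2176, o7176] l3350 := rupP (by decide +kernel)
theorem r3351 : PImp [l1948, l2175, l2062, o7220] l3351 := rupP (by decide +kernel)
theorem r3352 : PImp [l2176, l2062, l1948, o7275] l3352 := rupP (by decide +kernel)
theorem r3353 : PImp [l2062, l2175, l1948, o7320] l3353 := rupP (by decide +kernel)
theorem r3354 : PImp [l2062, l1948, l2176, o7371] l3354 := rupP (by decide +kernel)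
theorem r3355 : PImp [l2062, l2176, l1948, o8973] l3355 := rupP (by decide +kernel)
theorem r3356 : PImp [l1949, l2062, l2175, o9001] l3356 := rupP (by decide +kernel)
theorem r3357 : PImp [l2175, l2062, l1948, o9012] l3357 := rupP (by decide +kernel)
theorem r3358 : PImp [l1948, l2176, l2062, o9062] l3358 := rupP (by decide +kernel)
theorem r3359 : PImp [l2175, l2062, l1949, o9092] l3359 := rupP (by decide +kernel)
theorem r3360 : PImp [l1948, l2062, l2175, o9103] l3360 := rupP (by decide +kernel)
theorem r3361 : PImp [l2176, l2062, l1948, o9140] l3361 := rupP (by decide +kernel)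
theorem r3362 : PImp [l1949, l2062, l2175, o9168] l3362 := rupP (by decide +kernel)
theorem r3363 : PImp [l2008, l2062, o1186] l3363 := rupP (by decide +kernel)
theorem r3364 : PImp [l2008, l2062, o1188] l3364 := rupP (by decide +kernel)
theorem r3365 : PImp [l2004, l2062, o1185] l3365 := rupP (by decide +kernel)
theorem r3366 : PImp [l2004, l2062, o1187] l3366 := rupP (by decide +kernel)
theorem r3367 : PImp [l2173, l2060, l1947, l2226, o7039] l3367 := rupP (by decide +kernel)
theorem r3368 : PImp [l1946, l2174, l2060, l2226, o7075] l3368 := rupP (by decide +kernel)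
theorem r3369 : PImp [l2174, l2226, l2060, l1947, o7089] l3369 := rupP (by decide +kernel)
theorem r3370 : PImp [l2173, l2227, l2060, l1946, o7121] l3370 := rupP (by decide +kernel)
theorem r3371 : PImp [l2173, l1947, l2060, l2227, o7135] l3371 := rupP (by decide +kernel)
theorem r3372 : PImp [l1946, l2174, l2060, l2227, o7175] l3372 := rupP (by decide +kernel)
theorem r3373 : PImp [l2174, l2227, l2060, l1947, o7186] l3373 := rupP (by decide +kernel)
theorem r3374 : PImp [l1946, l2060, l2226, l2173, o7219] l3374 := rupP (by decide +kernel)
theorem r3375 : PImp [l2226, l1947, l2060, l2173, o7229] l3375 := rupP (by decide +kernel)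
theorem r3376 : PImp [l1946, l2226, l2060, l2174, o7274] l3376 := rupP (by decide +kernel)
theorem r3377 : PImp [l2226, l2060, l1947, l2174, o7285] l3377 := rupP (by decide +kernel)
theorem r3378 : PImp [l1946, l2060, l2173, l2227, o7319] l3378 := rupP (by decide +kernel)
theorem r3379 : PImp [l1946, l2060, l2227, l2174, o7370] l3379 := rupP (by decide +kernel)
theorem r3380 : PImp [l1946, l2060, l2173, l2227, o8931] l3380 := rupP (by decide +kernel)
theorem r3381 : PImp [l2060, l2174, l1947, l2226, o8961] l3381 := rupP (by decide +kernel)
theorem r3382 : PImp [l2060, l2226, l1946, l2174, o8974] l3382 := rupP (by decide +kernel)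
theorem r3383 : PImp [l2060, l2173, l2226, l1947, o9002] l3383 := rupP (by decide +kernel)
theorem r3384 : PImp [l1946, l2173, l2226, l2060, o9013] l3384 := rupP (by decide +kernel)
theorem r3385 : PImp [l2227, l1946, l2174, l2060, o9063] l3385 := rupP (by decide +kernel)
theorem r3386 : PImp [l2173, l1947, l2227, l2060, o9093] l3386 := rupP (by decide +kernel)
theorem r3387 : PImp [l2173, l1946, l2060, l2227, o9104] l3387 := rupP (by decide +kernel)
theorem r3388 : PImp [l1946, l2226, l2174, l2060, o9141] l3388 := rupP (by decide +kernel)
theorem r3389 : PImp [l2060, l1947, l2226, l2173, o9169] l3389 := rupP (by decide +kernel)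
theorem r3390 : PImp [l2029, l2058, o1265] l3390 := rupP (by decide +kernel)
theorem r3391 : PImp [l2029, l2058, o1266] l3391 := rupP (by decide +kernel)
theorem r3392 : PImp [l2041, l2058, o1322] l3392 := rupP (by decide +kernel)
theorem r3393 : PImp [l2041, l2058, o1323] l3393 := rupP (by decide +kernel)
theorem r3394 : PImp [l2043, l2058, o1324] l3394 := rupP (by decide +kernel)
theorem r3395 : PImp [l2043, l2058, o1325] l3395 := rupP (by decide +kernel)
theorem r3396 : PImp [l2045, l2058, o1328] l3396 := rupP (by decide +kernel)
theorem r3397 : PImp [l2047, l2058, o1330] l3397 := rupP (by decide +kernel)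
theorem r3398 : PImp [l2047, l2058, o1331] l3398 := rupP (by decide +kernel)
theorem r3399 : PImp [l2049, l2058, o1335] l3399 := rupP (by decide +kernel)
theorem r3400 : PImp [l2051, l2058, o1340] l3400 := rupP (by decide +kernel)
theorem r3401 : PImp [l2053, l2058, o1389] l3401 := rupP (by decide +kernel)
theorem r3402 : PImp [l2171, l1945, l2058, o7038] l3402 := rupP (by decide +kernel)
theorem r3403 : PImp [l1944, l2172, l2058, o7074] l3403 := rupP (by decide +kernel)
theorem r3404 : PImp [l2172, l2058, l1945, o7088] l3404 := rupP (by decide +kernel)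
theorem r3405 : PImp [l1944, l2172, l2058, o7174] l3405 := rupP (by decide +kernel)
theorem r3406 : PImp [l1945, l2058, l2172, o7185] l3406 := rupP (by decide +kernel)
theorem r3407 : PImp [l1944, l2171, l2058, o7218] l3407 := rupP (by decide +kernel)
theorem r3408 : PImp [l1944, l2172, l2058, o7273] l3408 := rupP (by decide +kernel)
theorem r3409 : PImp [l2058, l2172, l1945, o7284] l3409 := rupP (by decide +kernel)
theorem r3410 : PImp [l1944, l2058, l2172, o7369] l3410 := rupP (by decide +kernel)
theorem r3411 : PImp [l1944, l2058, l2172, o8975] l3411 := rupP (by decide +kernel)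
theorem r3412 : PImp [l2171, l2058, l1945, o9003] l3412 := rupP (by decide +kernel)
theorem r3413 : PImp [l1944, l2058, l2171, o9014] l3413 := rupP (by decide +kernel)
theorem r3414 : PImp [l2172, l2058, l1945, o9052] l3414 := rupP (by decide +kernel)
theorem r3415 : PImp [l2172, l2058, l1944, o9064] l3415 := rupP (by decide +kernel)
theorem r3416 : PImp [l2058, l2172, l1945, o9133] l3416 := rupP (by decide +kernel)
theorem r3417 : PImp [l2058, l2172, l1944, o9142] l3417 := rupP (by decide +kernel)
theorem r3418 : PImp [l2171, l2058, l1945, o9170] l3418 := rupP (by decide +kernel)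
theorem r3419 : PImp [l1943, l2056, l2169, l2224, o7037] l3419 := rupP (by decide +kernel)
theorem r3420 : PImp [l1942, l2224, l2056, l2170, o7073] l3420 := rupP (by decide +kernel)
theorem r3421 : PImp [l1943, l2056, l2224, l2170, o7087] l3421 := rupP (by decide +kernel)
theorem r3422 : PImp [l1942, l2225, l2169, l2056, o7120] l3422 := rupP (by decide +kernel)
theorem r3423 : PImp [l2056, l1943, l2225, l2169, o7133] l3423 := rupP (by decide +kernel)
theorem r3424 : PImp [l1942, l2056, l2225, l2170, o7173] l3424 := rupP (by decide +kernel)
theorem r3425 : PImp [l2170, l2225, l1943, l2056, o7184] l3425 := rupP (by decide +kernel)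
theorem r3426 : PImp [l1942, l2169, l2056, l2224, o7217] l3426 := rupP (by decide +kernel)
theorem r3427 : PImp [l2224, l2056, l1943, l2169, o7228] l3427 := rupP (by decide +kernel)
theorem r3428 : PImp [l1942, l2056, l2224, l2170, o7272] l3428 := rupP (by decide +kernel)
theorem r3429 : PImp [l2224, l2056, l1943, l2170, o7283] l3429 := rupP (by decide +kernel)
theorem r3430 : PImp [l1942, l2169, l2056, l2225, o7318] l3430 := rupP (by decide +kernel)
theorem r3431 : PImp [l2169, l2056, l1943, l2225, o7328] l3431 := rupP (by decide +kernel)
theorem r3432 : PImp [l1942, l2170, l2225, l2056, o7368] l3432 := rupP (by decide +kernel)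
theorem r3433 : PImp [l2170, l1943, l2056, l2225, o7379] l3433 := rupP (by decide +kernel)
theorem r3434 : PImp [l2225, l2056, l2170, l1943, o8885] l3434 := rupP (by decide +kernel)
theorem r3435 : PImp [l2225, l1943, l2169, l2056, o8923] l3435 := rupP (by decide +kernel)
theorem r3436 : PImp [l1942, l2225, l2169, l2056, o8932] l3436 := rupP (by decide +kernel)
theorem r3437 : PImp [l1943, l2224, l2056, l2170, o8962] l3437 := rupP (by decide +kernel)
theorem r3438 : PImp [l1942, l2224, l2056, l2170, o8976] l3438 := rupP (by decide +kernel)
theorem r3439 : PImp [l2169, l2224, l2056, l1943, o9004] l3439 := rupP (by decide +kernel)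
theorem r3440 : PImp [l1942, l2224, l2169, l2056, o9015] l3440 := rupP (by decide +kernel)
theorem r3441 : PImp [l2170, l2056, l1943, l2225, o9053] l3441 := rupP (by decide +kernel)
theorem r3442 : PImp [l2225, l1943, l2169, l2056, o9094] l3442 := rupP (by decide +kernel)
theorem r3443 : PImp [l1942, l2056, l2225, l2169, o9105] l3443 := rupP (by decide +kernel)
theorem r3444 : PImp [l2169, l2056, l2224, l1943, o9171] l3444 := rupP (by decide +kernel)
theorem r3445 : PImp [l2222, l1941, l2167, l2054, o7036] l3445 := rupP (by decide +kernel)
theorem r3446 : PImp [l2222, l2054, l1941, l2168, o7086] l3446 := rupP (by decide +kernel)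
theorem r3447 : PImp [l1941, l2223, l2168, l2054, o7183] l3447 := rupP (by decide +kernel)
theorem r3448 : PImp [l1940, l2168, l2222, l2054, o7271] l3448 := rupP (by decide +kernel)
theorem r3449 : PImp [l2168, l2222, l2054, l1941, o7282] l3449 := rupP (by decide +kernel)
theorem r3450 : PImp [l2167, l2223, l1941, l2054, o7327] l3450 := rupP (by decide +kernel)
theorem r3451 : PImp [l1940, l2054, l2223, l2168, o7367] l3451 := rupP (by decide +kernel)
theorem r3452 : PImp [l1941, l2054, l2168, l2223, o7378] l3452 := rupP (by decide +kernel)
theorem r3453 : PImp [l1941, l2054, l2168, l2223, o8886] l3453 := rupP (by decide +kernel)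
theorem r3454 : PImp [l1940, l2223, l2054, l2168, o8896] l3454 := rupP (by decide +kernel)
theorem r3455 : PImp [l2054, l2168, l1941, l2222, o8963] l3455 := rupP (by decide +kernel)
theorem r3456 : PImp [l1941, l2167, l2222, l2054, o9005] l3456 := rupP (by decide +kernel)
theorem r3457 : PImp [l2223, l2054, l1941, l2168, o9054] l3457 := rupP (by decide +kernel)
theorem r3458 : PImp [l1941, l2223, l2054, l2167, o9095] l3458 := rupP (by decide +kernel)
theorem r3459 : PImp [l1940, l2054, l2168, l2222, o9143] l3459 := rupP (by decide +kernel)
theorem r3460 : PImp [l2222, l2167, l1941, l2054, o9172] l3460 := rupP (by decide +kernel)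
theorem r3461 : PImp [l2029, l2052, o1263] l3461 := rupP (by decide +kernel)
theorem r3462 : PImp [l2052, l2041, o1311] l3462 := rupP (by decide +kernel)
theorem r3463 : PImp [l2041, l2052, o1312] l3463 := rupP (by decide +kernel)
theorem r3464 : PImp [l2041, l2052, o1313] l3464 := rupP (by decide +kernel)
theorem r3465 : PImp [l2052, l2043, o1314] l3465 := rupP (by decide +kernel)
theorem r3466 : PImp [l2043, l2052, o1315] l3466 := rupP (by decide +kernel)
theorem r3467 : PImp [l1938, l2052, l2166, o7172] l3467 := rupP (by decide +kernel)
theorem r3468 : PImp [l2052, l2166, l1939, o7281] l3468 := rupP (by decide +kernel)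
theorem r3469 : PImp [l1938, l2052, l2166, o7366] l3469 := rupP (by decide +kernel)
theorem r3470 : PImp [l2052, l2166, l1939, o7377] l3470 := rupP (by decide +kernel)
theorem r3471 : PImp [l2052, l2166, l1939, o8887] l3471 := rupP (by decide +kernel)
theorem r3472 : PImp [l1938, l2052, l2166, o9065] l3472 := rupP (by decide +kernel)
theorem r3473 : PImp [l1936, l2050, l2164, o7072] l3473 := rupP (by decide +kernel)
theorem r3474 : PImp [l1937, l2164, l2050, o7085] l3474 := rupP (by decide +kernel)
theorem r3475 : PImp [l1936, l2163, l2050, o7119] l3475 := rupP (by decide +kernel)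
theorem r3476 : PImp [l1936, l2050, l2164, o7171] l3476 := rupP (by decide +kernel)
theorem r3477 : PImp [l1936, l2163, l2050, o7216] l3477 := rupP (by decide +kernel)
theorem r3478 : PImp [l2050, l1936, l2164, o7270] l3478 := rupP (by decide +kernel)
theorem r3479 : PImp [l2050, l1936, l2164, o7365] l3479 := rupP (by decide +kernel)
theorem r3480 : PImp [l1937, l2164, l2050, o8336] l3480 := rupP (by decide +kernel)
theorem r3481 : PImp [l1936, l2050, l2164, o8364] l3481 := rupP (by decide +kernel)
theorem r3482 : PImp [l2050, l2163, l1936, o8438] l3482 := rupP (by decide +kernel)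
theorem r3483 : PImp [l2164, l1937, l2050, o8492] l3483 := rupP (by decide +kernel)
theorem r3484 : PImp [l2050, l1936, l2164, o8516] l3484 := rupP (by decide +kernel)
theorem r3485 : PImp [l1937, l2050, l2163, o8567] l3485 := rupP (by decide +kernel)
theorem r3486 : PImp [l1936, l2050, l2163, l1499] l3486 := rupP (by decide +kernel)
theorem r3487 : PImp [l1937, l2164, l2050, o8643] l3487 := rupP (by decide +kernel)
theorem r3488 : PImp [l1936, l2050, l2164, o8668] l3488 := rupP (by decide +kernel)
theorem r3489 : PImp [l1936, l2163, l2050, o8744] l3489 := rupP (by decide +kernel)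
theorem r3490 : PImp [l1937, l2050, l2164, o8792] l3490 := rupP (by decide +kernel)
theorem r3491 : PImp [l1936, l2050, l2164, o8809] l3491 := rupP (by decide +kernel)
theorem r3492 : PImp [l1937, l2163, l2050, o8857] l3492 := rupP (by decide +kernel)
theorem r3493 : PImp [l1936, l2050, l2163, l628] l3493 := rupP (by decide +kernel)
theorem r3494 : PImp [l2220, l2048, l1935, l2162, o7084] l3494 := rupP (by decide +kernel)
theorem r3495 : PImp [l2221, l2048, l2161, l1934, o7118] l3495 := rupP (by decide +kernel)
theorem r3496 : PImp [l2048, l2221, l2162, l1934, o7170] l3496 := rupP (by decide +kernel)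
theorem r3497 : PImp [l2221, l2162, l1935, l2048, o7182] l3497 := rupP (by decide +kernel)
theorem r3498 : PImp [l1935, l2161, l2220, l2048, o7227] l3498 := rupP (by decide +kernel)
theorem r3499 : PImp [l2048, l2220, l1934, l2162, o7269] l3499 := rupP (by decide +kernel)
theorem r3500 : PImp [l2162, l1935, l2048, l2220, o7280] l3500 := rupP (by decide +kernel)
theorem r3501 : PImp [l2221, l1935, l2048, l2162, o8337] l3501 := rupP (by decide +kernel)
theorem r3502 : PImp [l2221, l1934, l2162, l2048, o8365] l3502 := rupP (by decide +kernel)
theorem r3503 : PImp [l2161, l1935, l2221, l2048, o8423] l3503 := rupP (by decide +kernel)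
theorem r3504 : PImp [l2048, l2221, l2161, l1934, o8439] l3504 := rupP (by decide +kernel)
theorem r3505 : PImp [l2220, l2048, l1935, l2162, o8493] l3505 := rupP (by decide +kernel)
theorem r3506 : PImp [l2048, l2220, l1934, l2162, o8517] l3506 := rupP (by decide +kernel)
theorem r3507 : PImp [l2220, l1935, l2161, l2048, o8568] l3507 := rupP (by decide +kernel)
theorem r3508 : PImp [l2048, l2161, l2220, l1934, o8582] l3508 := rupP (by decide +kernel)
theorem r3509 : PImp [l2221, l1935, l2048, l2162, o8644] l3509 := rupP (by decide +kernel)
theorem r3510 : PImp [l2221, l2162, l2048, l1934, o8669] l3510 := rupP (by decide +kernel)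
theorem r3511 : PImp [l1934, l2048, l2221, l2161, o8745] l3511 := rupP (by decide +kernel)
theorem r3512 : PImp [l2220, l1935, l2162, l2048, o8793] l3512 := rupP (by decide +kernel)
theorem r3513 : PImp [l2220, l2162, l1934, l2048, o8810] l3513 := rupP (by decide +kernel)
theorem r3514 : PImp [l2220, l2161, l1935, l2048, o8858] l3514 := rupP (by decide +kernel)
theorem r3515 : PImp [l2046, l2041, o1310] l3515 := rupP (by decide +kernel)
theorem r3516 : PImp [l2046, l2059, o1387] l3516 := rupP (by decide +kernel)
theorem r3517 : PImp [l2046, l1933, l2160, o7279] l3517 := rupP (by decide +kernel)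
theorem r3518 : PImp [l2046, l2160, l1932, o7364] l3518 := rupP (by decide +kernel)
theorem r3519 : PImp [l2160, l2046, l1933, o8338] l3519 := rupP (by decide +kernel)
theorem r3520 : PImp [l2046, l2160, l1932, o8366] l3520 := rupP (by decide +kernel)
theorem r3521 : PImp [l1932, l2159, l2046, o8440] l3521 := rupP (by decide +kernel)
theorem r3522 : PImp [l2046, l1933, l2160, o8494] l3522 := rupP (by decide +kernel)
theorem r3523 : PImp [l1932, l2160, l2046, o8518] l3523 := rupP (by decide +kernel)
theorem r3524 : PImp [l2046, l1932, l2160, o8670] l3524 := rupP (by decide +kernel)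
theorem r3525 : PImp [l2046, l2160, l1933, o8794] l3525 := rupP (by decide +kernel)
theorem r3526 : PImp [l2042, l1929, l2156, l2217, o7375] l3526 := rupP (by decide +kernel)
theorem r3527 : PImp [l2042, l2217, l1929, l2156, o8340] l3527 := rupP (by decide +kernel)
theorem r3528 : PImp [l2217, l2156, l1928, l2042, o8368] l3528 := rupP (by decide +kernel)
theorem r3529 : PImp [l2042, l1929, l2155, l2217, o8425] l3529 := rupP (by decide +kernel)
theorem r3530 : PImp [l2216, l2042, l1929, l2156, o8496] l3530 := rupP (by decide +kernel)
theorem r3531 : PImp [l2042, l2155, l2216, l1929, o8570] l3531 := rupP (by decide +kernel)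
theorem r3532 : PImp [l2042, l2217, l1929, l2156, o8647] l3532 := rupP (by decide +kernel)
theorem r3533 : PImp [l2025, l2038, o1236] l3533 := rupP (by decide +kernel)
theorem r3534 : PImp [l2038, l2041, o1298] l3534 := rupP (by decide +kernel)
theorem r3535 : PImp [l2038, l2045, o1299] l3535 := rupP (by decide +kernel)
theorem r3536 : PImp [l2038, l2047, o1301] l3536 := rupP (by decide +kernel)
theorem r3537 : PImp [l2038, l2047, o1302] l3537 := rupP (by decide +kernel)
theorem r3538 : PImp [l2038, l2049, o1303] l3538 := rupP (by decide +kernel)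
theorem r3539 : PImp [l2038, l2049, o1304] l3539 := rupP (by decide +kernel)
theorem r3540 : PImp [l2038, l2051, o1305] l3540 := rupP (by decide +kernel)
theorem r3541 : PImp [l2038, l2051, o1306] l3541 := rupP (by decide +kernel)
theorem r3542 : PImp [l2038, l2053, o1370] l3542 := rupP (by decide +kernel)
theorem r3543 : PImp [l2059, l2038, o1371] l3543 := rupP (by decide +kernel)
theorem r3544 : PImp [l2059, l2038, o1372] l3544 := rupP (by decide +kernel)
theorem r3545 : PImp [l2152, l1924, l2038, o7267] l3545 := rupP (by decide +kernel)
theorem r3546 : PImp [l2152, l2038, l1924, o7718] l3546 := rupP (by decide +kernel)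
theorem r3547 : PImp [l2038, l2151, l1925, o7778] l3547 := rupP (by decide +kernel)
theorem r3548 : PImp [l1924, l2151, l2038, o7798] l3548 := rupP (by decide +kernel)

end Pool.Agent.BDD.A
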