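import Pool.Agent.BDD.AC
import Pool.Agent.BDD.AE0
import Pool.Agent.BDD.AE1
import Pool.Agent.BDD.AE2
import Pool.Agent.BDD.AD0
import Pool.Agent.BDD.AD1
import Pool.Agent.BDD.AD2
import Pool.Agent.BDD.AD3

set_option autoImplicit false
set_option linter.all false

namespace Pool.Agent.BDD.A

theorem r11085 : PImp [l10394, l4208, l2658, l2327, l2657, l7703, l3008, l1412, l430, l4971, l4970, l4967, l1209, l1210, l4124, l11084, l4280, o695, l2269, o690, l11071, o4441, o5249, o5243, o5272, l10754, l2385, l2382, l2463, o7966, l2393, o1498, o7921] l11085 := rupP (by decide +kernel)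
theorem r11086 : PImp [l10395, l10394, l10393, l2615, l7190, l4602, l2708, l4082, l5925, l8603, o5511, l3118, l4132, l481, l480, l7707, o3564, l3119, l4129, o3563, l8235, o8801, o8506, o8504, o5349, l3532, l2711, o5768, l4208, o3464, l2658, l2327, o5761, l3509, l2834, l7703, l1412, l4967, l4209, l2657, o8770, l2260, l4563, o5344, l2531, o5811, o5512, o5371, o9086, o4939, o4935, l5035, l4834, o4977, l5238, o5017, l3008, l430, l4971, l4970, l2668, l4127, l2992, l1209, l1210, l11072, l11082, o3434, o3435, o3436, o3437, o3438, o3439, o3532, l11083, l11085, l2484, l2474, l2475, l2476, l2477, l2480, l10543, l10592, o5285, o5286, o5632, l10468, l11063, l2550, l9817, o7792] l11086 := rupP (by decide +kernel)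
theorem r11087 : PImp [l3325, l3327, l5102, l3239, l5173, l8315, l8923, o5518, l4495] l11087 := rupP (by decide +kernel)
theorem r11088 : PImp [l3327, l11087, l5102, l7334, l2549, l5173, l8315, l3632, l2609, o3384, o7660] l11088 := rupP (by decide +kernel)
theorem r11089 : PImp [l3927, l2362, l2414, l1128, l648, o7459, l2352, l2372, o5222, o5218, l2439, l2413] l11089 := rupP (by decide +kernel)
theorem r11090 : PImp [l3008, l430, l4971, l4967, l3327, o1429, l11087, l5102, l2409, l2408, l7334, l3104, l11088, o5226, o7428, l1436] l11090 := rupP (by decide +kernel)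
theorem r11091 : PImp [l5102, l5139, l3236, l5089, l2394, l3631, o5203] l11091 := rupP (by decide +kernel)
theorem r11092 : PImp [l5122, l5089, l2394, o5205] l11092 := rupP (by decide +kernel)
theorem r11093 : PImp [l5117, l11092] l11093 := rupP (by decide +kernel)
theorem r11094 : PImp [l1412, l4967, l5102, l3103, l8315, l653, o5583, o7459] l11094 := rupP (by decide +kernel)
theorem r11095 : PImp [l3008, l430, l4970, l4967, l11093, l3236, l10550, l2976, l3922, l3237] l11095 := rupP (by decide +kernel)
theorem r11096 : PImp [o5288, o5286, o5285, l3008, l1412, l430, l4971, l10508, l7190, l4602, o3427, l2981, l2980, o5511, o5512, l4970, l4967, l4966, l1209, l1210, l3344, l3927, l4201, l10877, l2550, l5667, l10605, l2450, l2452, l4281, l4081, l1091, l8020, l8320, o2283, l7352, o5652, o8844, l11090, l2362, l2414, l11089, l11094, l3328, l11095, l2408, l6399, l2351, l2373, l760, o5219, o5217, l2439, l2413] l11096 := rupP (by decide +kernel)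
theorem r11097 : PImp [l3442, l2615, l7190, l4602, o3427, l7703, l2983, l2980, l4082, l4084, l2711, o5512, l4593, l4189, l5035, l4834, o5017, l3008, l1412, l430, l4971, l4967, l4966, l10406, l1209, l1210, l3423, l10508, l10942, l2424, o5285, o5288, l11096, l2484, l2475, l2477, l5118, l11002, l8020, l2452, l2448, o7717, l10664, o4736, l2314, o8065] l11097 := rupP (by decide +kernel)
theorem r11098 : PImp [l3239, l5173, l8315, l8923, o5518, l4495] l11098 := rupP (by decide +kernel)
theorem r11099 : PImp [l5077, l5105, l5141, l3622] l11099 := rupP (by decide +kernel)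
theorem r11100 : PImp [l3325, l3327, l11099, l3239, l2549, l5173, l8315, l11098, l2609, l7334, l10553, l455, o5132, l5150] l11100 := rupP (by decide +kernel)
theorem r11101 : PImp [l4967, l11095, l11099, l3236, l5122, l5089, l2394, l3631, o5203] l11101 := rupP (by decide +kernel)
theorem r11102 : PImp [l1412, l4967, l11099, l3103, l8315, l653, o5583, o7459] l11102 := rupP (by decide +kernel)
theorem r11103 : PImp [l3236, l5117, l4310, l4307] l11103 := rupP (by decide +kernel)
theorem r11104 : PImp [l1242, o5511, o5512, l5035, l4834, o5017, l7703, l3008, l1412, l430, l4970, l4967, l3927, l2424, l11100, l2362, l2414, l11089, l11101, l4498, l2408, l11102, l3328, l11103, l2501, l1435, o8889, l1322] l11104 := rupP (by decide +kernel)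
theorem r11105 : PImp [l4588, l5144, l6442] l11105 := rupP (by decide +kernel)
theorem r11106 : PImp [l4588, l11105, l3926, l5093, l5149, l5080, l5140] l11106 := rupP (by decide +kernel)
theorem r11107 : PImp [l9432, l9817, l8320, o8150] l11107 := rupP (by decide +kernel)
theorem r11108 : PImp [l2484, l4081, o717, o715, l10567, o5683, o5589, l28, l2649, l8005, l4470] l11108 := rupP (by decide +kernel)
theorem r11109 : PImp [l7703, l3008, l1412, l430, l4971, l11106, l3442, l2615, l7190, l4602, l4082, o5512, l4593, l4189, l5035, l4834, o5017, l4970, l4967, l4966, l10406, l1209, l1210, l2981, l2827, l2829, o3427, l11097, l11108, l11080, l11107, l11104] l11109 := rupP (by decide +kernel)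
theorem r11110 : PImp [l3236, l3104, l5117, l5122, l760, o5206, o5219, l5076, l2439] l11110 := rupP (by decide +kernel)
theorem r11111 : PImp [l11110, l2501, l1435, o8889, l1322] l11111 := rupP (by decide +kernel)
theorem r11112 : PImp [l3008, l1412, l430, l4971, l11106, o5511, l4970, l4967, l1209, l1210, l3344, l3927, l11090, l2362, l2414, l11094, l3328, l11111, l2408, l4179, l11095, l11093, l6382, l3236, l4823, l4824] l11112 := rupP (by decide +kernel)
theorem r11113 : PImp [l3008, l1412, l430, l4971, l11106, o5511, l4970, l4967, l1209, l1210, l3927, l11112, l1242, l11100, l2362, l2414, l11102, l3328, l11111, l2408, l4179, l11095, l11093, l6382, l3236, l4823, l4824] l11113 := rupP (by decide +kernel)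
theorem r11114 : PImp [o3439, o3438, o3437, o3436, o3435, o3434, l4082, l2711, l3008, l1412, l430, l4971, l4970, l4967, l4966, l2992, l1209, l1210, l11080, l10942, l2484, o714, o713, o5285, l11071] l11114 := rupP (by decide +kernel)
theorem r11115 : PImp [l8923, o3153, l4495, o7608, o4919] l11115 := rupP (by decide +kernel)
theorem r11116 : PImp [o5285, o3439, o3438, o3437, o3436, o3435, o3434, l2658, l2327, l2657, l10854, l11084, o690, l11071] l11116 := rupP (by decide +kernel)
theorem r11117 : PImp [l2615, l7190, l4082, l4208, l2477, l10901, o6700, l11067] l11117 := rupP (by decide +kernel)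
theorem r11118 : PImp [o3439, o3438, o3437, o3436, o3435, o3434, l2615, l7190, l4082, l4084, l4208, l2658, l2327, l2657, l5035, l4834, o5017, l7703, l3008, l1412, l430, l4971, l4970, l4967, l4966, l2992, l1209, l1210, l11114, l11117, l4124, l10884, l11116, o6700, l11084, o5682, o5718, o5590, o5589, o2974, l4280, o695, o690, l10574, l4475, l11071, l5751, l3930] l11118 := rupP (by decide +kernel)
theorem r11119 : PImp [o3438, o3437, o3436, l7190, l4082, l2711, l2658, l2657, l4208, o5285, o5286, l11116, l2484, l2475, l2476, l2477, l2480, l8343, l11080, l10592, l2550, o7792, o5632, l11063] l11119 := rupP (by decide +kernel)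
theorem r11120 : PImp [l10393, l2652, o7960, l6206, l3164] l11120 := rupP (by decide +kernel)
theorem r11121 : PImp [l10395, l10393, l10394, l2615, l498, l10396, l5925, l4129, l3119, l2660, l481, l480, l8603, l7707, l11055, o3563, l7703, l1210, l4183, l10406, l2988, l3927, l2659, l2661, o3556, o3564, o5512, l4593, l11073, l8235, o8801, l3118, l4132, o8506, o8504, o5768, l4208, o3464, o5511, o5349, l3532, l2658, l2327, o5761, l3509, l2834, l3370, l1412, l4967, l4209, l2657, o8770, l2260, l4563, o5807, o5344, l2531, o5811, o9086, l2994, l4773, l4769, l3794, o4939, l5238, l4189, l5035, l4834, o5017, l3008, l430, l4971, l4970, l4966, l5719, l3387, l3473, l2668, l2992, l1209, l3442, l3423, l7190, l4082, l4602, l2708, l11086, l11106, l2424, l11109, o3434, o3435, o3436, o3437, o3438, o3439, o3531, o3532, l11113, l11118, l11119, o5680, o5682, o5585, l10543, l2477, l4260, o691, o695, o690, l11071, l11120, l2447, o1469, l634, l5751, o7921, l2382] l11121 := rupP (by decide +kernel)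
theorem r11122 : PImp [l10393, l10395, l3161, l2379, l2314, l9533, l5667, l3536, o7694, l7352, o4736] l11122 := rupP (by decide +kernel)
theorem r11123 : PImp [l10664, l8921, l638, o7766] l11123 := rupP (by decide +kernel)
theorem r11124 : PImp [l10394, l10395, o694, l11123, l3171, l2379, l2313, l11122, l4819, l1446, l2474, l3574, o4735, o8066] l11124 := rupP (by decide +kernel)
theorem r11125 : PImp [l2828, l2981, l2980, l1209, l1210, o5285, o5286, o5288, l11124, l2477, l4280, o699, l2269, l11076, l10981] l11125 := rupP (by decide +kernel)
theorem r11126 : PImp [l10394, o694, o714, l11123, l11124, l8390, l3171, l11122, l2607, l3604] l11126 := rupP (by decide +kernel)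
theorem r11127 : PImp [l1209, l1210, l2980, l2828, l2827, l11125, o5683, l10492, l11126, o699, l28, l1091, o7708] l11127 := rupP (by decide +kernel)
theorem r11128 : PImp [l4208, l2658, l2327, l2657, l4204, o694, o688, l11123, l10592, o2319, l2314, o2278, l2293, o5632, l11062, l2473, l2476, l2479, l11066, o5652, o5704, o7847, o7849, o7902, o1475, o7897] l11128 := rupP (by decide +kernel)
theorem r11129 : PImp [l4208, l2658, l2327, o5285, o5287, l11128, l2477, l2269, o690, l11068] l11129 := rupP (by decide +kernel)
theorem r11130 : PImp [l10395, l10394, l10393, l5925, l4208, l481, l480, l8603, l7707, o3464, l3532, l2658, l2327, l2834, l1412, l4967, l2657, o8770, l2531, l3008, l430, l4971, l4970, l4966, l3473, l2668, l2992, l1209, l1210, l11127, o3434, o3435, o3436, o3437, o3438, o3439, o3531, o3532, l11083, l11129, o5679, o5682, o5718, o5590, l10592, l10523, l2477, o727, o695, l2269, l10753, l10574] l11130 := rupP (by decide +kernel)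
theorem r11131 : PImp [l622, o8272] l11131 := rupP (by decide +kernel)
theorem r11132 : PImp [o694, o714, l11131, l2564, o2302, o2301, o7792, l5667, l11122, o1536, o7717, l7352, o4736] l11132 := rupP (by decide +kernel)
theorem r11133 : PImp [l4208, l2477, l4280, l2269, l11081] l11133 := rupP (by decide +kernel)
theorem r11134 : PImp [l4082, l2711, l3008, l430, l4971, l4967, l1209, l1210, l2980, l2982, l2827, l2829, l11079, l11133, l4204, o714, l11132, l8390, o5590, o5588, l2606, l2608, l4944, l1446, o7694] l11134 := rupP (by decide +kernel)
theorem r11135 : PImp [o688, o714, l10592, l11131, l2293, o2300, o8427, l6856] l11135 := rupP (by decide +kernel)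
theorem r11136 : PImp [l4208, l2327, o5285, l11135, l2477, l2269, o690, l11068] l11136 := rupP (by decide +kernel)
theorem r11137 : PImp [l10394, l10393, l10395, l5925, l8603, l3532, l2711, l4208, l481, l480, l7707, o3464, l2658, l2327, l2834, l1412, l4967, l2657, o8770, l2531, l3008, l430, l4970, l2668, l2992, l1209, l1210, l4082, l4610, o6436, o3749, o6768, l11130, o8434, l11134, o3434, o3436, o3438, o3439, o3651, l11136, o5679, o5590, l10592, l10523, l2477, l2269, o7959, l10753, l2379] l11137 := rupP (by decide +kernel)
theorem r11138 : PImp [l10394, l4201, l11122, l10664, l2448, o1473, l2305, l4583, l28, l2383, o5652, o8499] l11138 := rupP (by decide +kernel)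
theorem r11139 : PImp [o694, l11138, l5118, l11002, l2452, l2448, l1446, l10664, o4736, l2314, o8065] l11139 := rupP (by decide +kernel)
theorem r11140 : PImp [l2829, l2827, l2983, l2981, l2980, l4208, l1209, l1210, o5285, o5286, o5288, l11125, l11139, l2477, l4280, l11004, l10422] l11140 := rupP (by decide +kernel)
theorem r11141 : PImp [l1209, l1210, l2980, l11140, o5590, l10492, o3427, l2583, l8001, l7985, l10021] l11141 := rupP (by decide +kernel)
theorem r11142 : PImp [l4208, l2658, l2327, l2657, l4204, o694, o688, l10592, l2293, o5632, l11062, l2474, l2476, l2479, l10408, l11066, l3107, o5704, o7849, o1516, o1518, o7902, l617, o7897, o2273] l11142 := rupP (by decide +kernel)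
theorem r11143 : PImp [l10393, l4208, l2658, l2327, l3112, o5285, o5286, o5287, l11129, l11142, l2477, l2269, o690, l11068] l11143 := rupP (by decide +kernel)
theorem r11144 : PImp [l10395, l10394, l10393, l5925, l4208, l481, l480, l8603, l7707, o3464, l3532, l2658, l2327, l2834, l7703, l1412, l4967, l2657, o8770, l2531, l3119, l4129, o3563, o8801, o9086, o8506, l3008, l430, l4971, l4970, l4966, l3473, l2668, l4127, l2992, l1209, l1210, l11141, o3434, o3435, o3436, o3437, o3438, o3439, o3531, o3532, l11083, l11143, o5679, o5681, o5683, o5682, o5718, o5590, l10592, l2477, o695, l2269, l10545] l11144 := rupP (by decide +kernel)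
theorem r11145 : PImp [o3663, l10584, l5669, o1454, l2293, o8264] l11145 := rupP (by decide +kernel)
theorem r11146 : PImp [l10453, l8007, l4284, o1537, o7809, o8146] l11146 := rupP (by decide +kernel)
theorem r11147 : PImp [l3107, l5667, l21, l2447, o5703, o8146] l11147 := rupP (by decide +kernel)
theorem r11148 : PImp [l2980, l11146, o9075, l10422, o3742, l4284, l11147, l3234, l3611, l4807] l11148 := rupP (by decide +kernel)
theorem r11149 : PImp [l11145, l2850, l2287, l11148, o3752, o8778, o2301, o8254, o1538, l732, o8768] l11149 := rupP (by decide +kernel)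
theorem r11150 : PImp [l5667, o7694, l2448, o4734, l732] l11150 := rupP (by decide +kernel)
theorem r11151 : PImp [l7703, l2980, l4123, l2567, l11122, o2264, o2257, l11149, l8921, l2850, l11150, l3234, l11076, l3611, l4807] l11151 := rupP (by decide +kernel)
theorem r11152 : PImp [l7703, l2983, l2981, l2980, o5285, o5286, o5288, l11151, l5042, l5118, l11002, l3930, l2452, l2448, o7717, l4957, o4734, o4606, l10539] l11152 := rupP (by decide +kernel)
theorem r11153 : PImp [l4204, l4201, l11122, l28, l11150, l2655, l4944] l11153 := rupP (by decide +kernel)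
theorem r11154 : PImp [l2568, l4208, l2658, l2327, l2657, l2834, l4209, l7703, l3008, l430, l4971, l4970, l4967, l4966, l1209, l1210, l2980, l2982, l2827, l2829, l11133, o694, o688, l11152, o5683, o5590, o5588, l11153, l1446, l10021] l11154 := rupP (by decide +kernel)
theorem r11155 : PImp [l10393, l5925, l4208, l2658, l2327, l2657, l8603, l4204, o694, o688, l10592, o5243, o5247, o5246, l2293, l11062, l2473, l2474, l10468, l2486, l2450, l2452, l673, o2283, l7352, l8399, o4736, l7291] l11155 := rupP (by decide +kernel)
theorem r11156 : PImp [l10395, l10394, l10393, l2713, l5925, l8603, l3532, l2711, l4208, l481, l480, l7707, o3464, l2658, l2327, l3509, l2834, l7703, l1412, l4967, l4209, l2657, o8770, l2531, l3119, l4129, o3563, l8235, o8801, o9086, o8506, l5238, l3008, l430, l4971, l4970, l2668, l4127, l2992, l1209, l1210, l3112, l11137, l2571, l11144, l11154, o3434, o3435, o3436, o3438, o3439, o3532, l11083, l11155, l2477, l4280, l2269, o690, l11068, o4441, o5243, l10754, l2463, l2390] l11156 := rupP (by decide +kernel)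
theorem r11157 : PImp [l10393, l10395, l3161, l2379, o2315, l6571, l9533, l5667, o3537, l3543, o7694, o8208, o4924] l11157 := rupP (by decide +kernel)
theorem r11158 : PImp [l8445, o7766, o7808] l11158 := rupP (by decide +kernel)
theorem r11159 : PImp [l11145, l8921] l11159 := rupP (by decide +kernel)
theorem r11160 : PImp [o2257, l11158, l11159] l11160 := rupP (by decide +kernel)
theorem r11161 : PImp [l10395, l7703, l2980, l1209, l1210, l4204, o688, l11160, l2379, l5667, l10825, l4125, l11157] l11161 := rupP (by decide +kernel)
theorem r11162 : PImp [l7703, l3008, l430, l4971, l4966, l4208, l1209, l2980, l2827, l2829, l11161, l2477, l4280, o699, l2269, l11133, l11077, l9992, l11076, l2392] l11162 := rupP (by decide +kernel)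
theorem r11163 : PImp [l10393, l3112, l11128, l11142] l11163 := rupP (by decide +kernel)
theorem r11164 : PImp [l10393, l10395, l2858, l5925, l4208, l2658, l2327, l2657, l8603, l4204, o694, o688, l10592, l11160, o5243, o5247, o5246, o5262, l2293, l3161, l2379, l2314, l11062, l11163, l4263, l2486, l3536, o8229, l8399, o4736, l7291] l11164 := rupP (by decide +kernel)
theorem r11165 : PImp [l10395, l10393, l10394, l5925, l4129, l3119, l2660, l481, l480, l8603, l7707, o3563, l8235, o8801, l3118, l4132, o3564, l2661, o8506, o8504, o5768, l4208, o3464, o5511, o5349, l3532, l2658, l2327, o5761, l3509, l2834, l7703, l1412, l4967, l4209, l2657, o8770, l2260, o5807, o5344, l2531, o5811, o5512, o5371, o9086, o4939, o4935, l5238, l3008, l430, l4971, l4970, l4966, l3473, l2668, l4127, l2992, l1209, l1210, l11156, l11162, o3434, o3435, o3436, o3437, o3438, o3439, o3531, o3532, l11083, l11164, l2477, l4280, o727, o695, l2269, o690, l11071, o4441, o5249, o5243, o5272, l10754, l2385, l2382, l2463, l5680, o7966, o7921, o1498] l11165 := rupP (by decide +kernel)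
theorem r11166 : PImp [l2713, o5017, l7703, l3008, l430, l4971, l4970, l4967, l4966, o9075, o8978, l10771, l10732] l11166 := rupP (by decide +kernel)
theorem r11167 : PImp [l3008, l430, l4971, l4970, l4967, l4966, l422, l328, l10804, l10977] l11167 := rupP (by decide +kernel)
theorem r11168 : PImp [l7703, l328, o5017, l11037, l2711, l3008, l430, l4970, l4967, l1210, l4773, l4769, l3000, l2995, l5035, l11166, o3584, o3239, l2583, l11167, l4117, l10816] l11168 := rupP (by decide +kernel)
theorem r11169 : PImp [l7703, l3008, l430, l4970, l4967, l5035, l4117, l10816] l11169 := rupP (by decide +kernel)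
theorem r11170 : PImp [o7729, o7808] l11170 := rupP (by decide +kernel)
theorem r11171 : PImp [l3008, l430, l4971, l11106, l4967, o1430, l3325, l3327, o1429, l11099, l3104, l3105, l5173, l8315, l11098, o5579, o5580, l2407, l2408, o7428, o7493, o3634] l11171 := rupP (by decide +kernel)
theorem r11172 : PImp [l3008, l1412, l430, l4971, l11106, o5511, o5512, l4970, l4967, l3927, l2362, l2414, l11089, l11101, l11102, l2408, l3328, l11111] l11172 := rupP (by decide +kernel)
theorem r11173 : PImp [l3008, l430, l4971, l11106, l4967, l3325, l3327, o1429, l11171, l11099, l3104, l5173, l8315, l11098, o5579, l2408, o7428, l1436] l11173 := rupP (by decide +kernel)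
theorem r11174 : PImp [l2571, l3008, l1412, l430, l4971, l11106, l2713, l2615, o5512, l4593, l4189, o5511, l4970, l4967, l3927, l2362, l2414, l11172, l11102, l2583, l3328, o3582, l11111, o9075, l2408, l4179, l11093, l6382, l3236, l4823, l4824] l11174 := rupP (by decide +kernel)
theorem r11175 : PImp [l7703, l3008, l1412, l430, l4971, l11106, l2424, l328, l5035, l4834, o5017, l2615, l11037, o5512, l4593, l4189, l4970, l4967, l3122, l1209, l3344, l3345, l4138, l11174, l3325, l3327, o1429, l11173, l11099, o9131, o8925, l3104, l5173, l8315, l11098, l11167, o5579, l2408, l10771, o7428, o9071] l11175 := rupP (by decide +kernel)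
theorem r11176 : PImp [l10395, l10393, l7703, l1209, l1210, l5719, l4204, l3008, l430, l4971, l3161, l6571, o3537, l3119, o2315, l2379, l2713, l328, o5017, l11037, l5661, o3582, o8978, l2996, l4773, l4769, l3759, l2980, l2981, l2829, l5667, l3930, l2448, l2449, l2456, l10825, l8005, l10665, l4125, l4278, o5665, l8445, l2293, o8208, o3658, o8226, o4927, o5624, o2245, o8225, o7784, o8178, l11168] l11176 := rupP (by decide +kernel)
theorem r11177 : PImp [l10395, l10394, l10393, l7703, l328, o5017, l480, l8603, l1210, l4183, l2988, l3927, l2659, l2661, l5925, l481, l7707, o3556, o3564, o5512, l4593, l11073, l8235, l11037, l2571, l4129, l3119, l2660, o3563, o8801, l3118, l4132, o8506, o8504, o5761, l3509, l2834, l1412, l4967, l4209, o5511, o5349, l3532, l2657, o8770, l2260, o5807, o5753, o5344, l2531, o5768, o5811, o5371, o9086, o4977, l5238, l4189, l3008, l430, l4971, l4970, l4966, l5719, l3473, o3464, l2668, l4208, l2991, l2992, l1209, l4204, o688, l11160, l3161, l6571, o3449, l11176, o3434, o3435, o3436, o3437, o3438, o3531, l11028, l11164] l11177 := rupP (by decide +kernel)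
theorem r11178 : PImp [l10393, o3427, l8326, o5590, l8392, l10570, l9017] l11178 := rupP (by decide +kernel)
theorem r11179 : PImp [o695, o699, o691, l2711, l3008, l1412, l430, l4970, l4967, l2992, l1209, l1210, l11178, o3434, o3435, o3436, o3437, o3438, o3439, o3532, l11071, o4441, o4447, o5249, o5244, o5272, l11120, l10574, l2447, l5873] l11179 := rupP (by decide +kernel)
theorem r11180 : PImp [l10393, l2981, l2827, o3427, l8326, o5683, o5589, l28, l2649, l4470, l8005] l11180 := rupP (by decide +kernel)
theorem r11181 : PImp [l10395, l10393, l10394, l498, l10396, l5925, l4129, l3119, l2660, l481, l480, l8603, l7707, l11055, o3563, l7703, l1210, l4183, l10406, l2988, l3927, l2659, l2661, o3556, o3564, o5512, l4593, l11073, l8235, o8801, l3118, l4132, o8506, o8504, o5768, l4208, o3464, o5511, o5349, l3532, l2658, l2327, l3336, l3334, o5344, l2531, o5792, o5811, o5371, o9086, l2994, l4773, l4769, l3794, o4939, l5035, l3370, l4834, o4977, l3509, l4209, l5238, l4189, o5017, l3008, l1412, l430, l4970, l4967, l5719, l3387, l3473, l2668, l4127, l2991, l2992, l1209, l3442, l3423, l328, l2615, l2711,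 l11121, l2713, l11165, l11037, l2571, l2568, l11175, l5661, o3582, o9075, l11177, l2477, l4280, l4260, o727, o691, o699, o695, o690, o756, l11179, l11180, o3434, o3435, o3436, o3437, o3438, o3439, l11071, o4447, o5249, o5244, l11120, l2447, o1469, l634, l5751, o7921, l2382] l11181 := rupP (by decide +kernel)
theorem r11182 : PImp [l10393, l2555, l2557, l8217, l5660, l7926, l4082] l11182 := rupP (by decide +kernel)
theorem r11183 : PImp [o694, l2658, l1209, l2980, l2982, l2827, l11140, o5683, o5588, l11153] l11183 := rupP (by decide +kernel)
theorem r11184 : PImp [l10395, l10393, l5925, l4208, l481, l480, l8603, l7707, o3464, l2658, l2327, l2834, l1412, l4967, l2657, o8770, l2531, l3008, l430, l4971, l4970, l4966, l2668, l2992, l1209, l1210, l422, l11183, o3434, o3435, o3436, o3437, o3438, o3439, o3531, l10824, l10592, l11143, o5679] l11184 := rupP (by decide +kernel)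
theorem r11185 : PImp [l1210, l2980, l11140, o5590, l1446, l10021] l11185 := rupP (by decide +kernel)
theorem r11186 : PImp [l10395, l10394, l10393, l5925, l4208, l481, l480, l8603, l7707, o3464, l3532, l2658, l2327, l2834, l1412, l4967, l2657, o8770, l2531, l3008, l430, l4971, l4970, l4966, l2668, l2992, l1209, l1210, l11184, l11185, o3434, o3435, o3436, o3437, o3438, o3439, o3531, l11028, l10592, l11143, o5679] l11186 := rupP (by decide +kernel)
theorem r11187 : PImp [l1209, l2980, l2827, l2829, l11140, l11077, o5590, l9992, o6719] l11187 := rupP (by decide +kernel)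
theorem r11188 : PImp [l10395, l10394, l10393, l5925, l4208, l481, l480, l8603, l7707, o3464, l3532, l2658, l2327, l2834, l7703, l1412, l4967, l2657, o8770, l2531, l3119, l4129, o3563, o8801, o9086, o8506, l3008, l430, l4971, l4970, l4966, l3473, l2668, l2992, l1209, l1210, l11186, l2477, o699, o695, l2269, o690, l11187, o3434, o3435, o3436, o3437, o3438, o3439, o3532, l11071, o4441, o5252, o5248, o5249, o5243, o5272, l10545] l11188 := rupP (by decide +kernel)
theorem r11189 : PImp [l2539, l4080, o3427, l9432, l9817, o8150] l11189 := rupP (by decide +kernel)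
theorem r11190 : PImp [l2588, l2577] l11190 := rupP (by decide +kernel)
theorem r11191 : PImp [l2980, l11189, l2564, o2301, o2302, l5667, l11122, l2452, o7717, l7352, o4736] l11191 := rupP (by decide +kernel)
theorem r11192 : PImp [l10394, l10393, l11190, l5925, l4208, l481, l480, l8603, l7707, o3464, l3532, l2658, l2327, l3008, l1412, l430, l4971, l4970, l4967, l2668, l4204, o694, l11191, o3434, o3435, o3436, o3438, o3439, l11155, l11028] l11192 := rupP (by decide +kernel)
theorem r11193 : PImp [l2827, l2829, l11081] l11193 := rupP (by decide +kernel)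
theorem r11194 : PImp [l10395, l10394, l10393, l5925, l4208, l481, l480, l8603, l7707, o3464, l3532, l2658, l2327, l2834, l7703, l1412, l4967, l2657, o8770, l2531, l3119, l4129, o3563, o8801, o9086, o8506, o5511, l3008, l430, l4970, l2668, l4127, l2992, l1209, l1210, l11188, l11190, l4082, l2539, l2708, o8684, l11192, l2477, l4280, l2269, l11193, o3434, o3435, o3436, o3437, o3438, o3439, o3532, l11083, l11085] l11194 := rupP (by decide +kernel)
theorem r11195 : PImp [l10395, l10393, l10394, l5925, l4208, l481, l480, l8603, l7707, o3464, l3532, l2658, l2327, l2834, l7703, l1412, l4967, l2657, o8770, l2531, l2660, l3119, l4129, o3563, o8801, o9086, o4939, o4935, o5511, l3008, l430, l4971, l4970, l4966, l3473, l2668, l4127, l2992, l1209, l1210, l11194, l11162, o3434, o3435, o3436, o3437, o3438, o3439, o3531, o3532, l11083, l11164, l2477, o727, o695, l2269, o690, l11071, o4441, o5252, o5248, o5249, o5243, o5272, l10544, l2385, l2382, l2463, l5680, o7966, o7921, o1498] l11195 := rupP (by decide +kernel)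
theorem r11196 : PImp [l3008, l1412, l430, l4971, l11106, o5511, l4970, l4967, l3927, l2362, l2414, l11102, l3328, l11111, l2408, l4179, l11095, l11093, l6382, l3236, l4823, l4824] l11196 := rupP (by decide +kernel)
theorem r11197 : PImp [l3008, l1412, l430, l4971, l4970, l4967, l4966, l1209, l3344, l3345, l11196, l11173, o9131, o8925, l6261, l10883, l2539] l11197 := rupP (by decide +kernel)
theorem r11198 : PImp [l2539, l10866] l11198 := rupP (by decide +kernel)
theorem r11199 : PImp [o8226, o7894] l11199 := rupP (by decide +kernel)
theorem r11200 : PImp [l7982, l10493, l11199, o2300, l8392, l5532] l11200 := rupP (by decide +kernel)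
theorem r11201 : PImp [o5679, l2293, o8132, o8226, o2300] l11201 := rupP (by decide +kernel)
theorem r11202 : PImp [l10393, l10395, l4204, o688, l11160, l3161, l2379, l6571, l5667, o3449, l2448, l2449, l2613, l10825, l2567, l11201, l11170, l11200] l11202 := rupP (by decide +kernel)
theorem r11203 : PImp [l5667, l8005, l3930] l11203 := rupP (by decide +kernel)
theorem r11204 : PImp [l2834, l4208, l2991, l1209, l1210, l2980, l2981, l11198, l2568, o6801, o3112, o2973, o8661, l11202, l2477, l4280, l11203, l9992, l11076, l2391] l11204 := rupP (by decide +kernel)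
theorem r11205 : PImp [l11028, l11164] l11205 := rupP (by decide +kernel)
theorem r11206 : PImp [l10395, l10394, l10393, l5925, l4208, l481, l480, l8603, l7707, o3464, l3532, l2658, l2327, l3509, l2834, l1412, l4967, l4209, l2657, o8770, l2531, l8235, l5238, l3008, l430, l4971, l4970, l4966, l3473, l2668, l2992, l1209, l1210, l11204, o3434, o3435, o3436, o3437, o3438, o3439, o3531, o3532, l11205, l2477, l4260, o727, o691, o695, o690, l11071, o4441, o4447, o5249, o5244, o5272, l11120, l10574, l2447, l5873] l11206 := rupP (by decide +kernel)
theorem r11207 : PImp [l3008, l430, l4971, l4967, l4966, l1209, l1210, l2980, l2981, o3427, l11080, l2484, l4081, l11203, l11076, l2391, o4442, l3930, l4470] l11207 := rupP (by decide +kernel)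
theorem r11208 : PImp [l10393, l10394, l10395, l5035, l498, l11055, l3370, l4834, o5017, l7703, l3008, l1412, l430, l4971, l4970, l2994, l1210, l4773, l4769, l3794, l4967, l4966, l5719, l3387, l10396, l481, l480, l8603, l7707, o3564, o3563, l3122, o3556, o3464, l5925, l2668, l4127, l4129, l4208, l2661, l2660, l3927, l2659, l2988, l2992, l10406, l4183, l1209, l3442, l3423, l4138, l3119, l3118, o5512, o5511, l4189, l4593, l11073, l5238, l4209, l4132, l8235, l3509, o8801, l2834, o4977, o4939, o8506, o9086, o8504, o5349, o5344, o5371, o5811, o5761, o5792, l2260, o5768, l3532, l2531, o5807, l2657, l2658, l3334, o8770, l2327, l11181, l2603, o1593, l11182, l11195, l11106, l2424, l11197, l11206, l11190, l4082, l2539, l2708, l11207, o3434, o3435, o3436, o3437, o3438, o3439, o3531, l11205, l2477, l4280, l4260, o691, o690, l11116, l11071, o5680, o5585, o5589, l11120, l2447, l3569, l634, l5751, l3912, l3233] l11208 := rupP (by decide +kernel)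
theorem r11209 : PImp [o3582, l2604, o8969, l4083, l7766] l11209 := rupP (by decide +kernel)
theorem r11210 : PImp [l7703, l328, l2557, l9109, l10633, l2615] l11210 := rupP (by decide +kernel)
theorem r11211 : PImp [l2604, l8106, l11209] l11211 := rupP (by decide +kernel)
theorem r11212 : PImp [l7703, l328, l5035, l11211, o2924, l5518, l2574, o6342] l11212 := rupP (by decide +kernel)
theorem r11213 : PImp [l10393, l7703, l3008, l498, l11055, l3370, l1412, l430, l4971, l4967, l4966, l433, l1210, l4773, l4769, l5035, l4834, l481, l10396, l480, l8603, l7707, l3473, l1209, l3423, o5017, l11208, l11210, l2713, l11212, l11049, l5519, l4595] l11213 := rupP (by decide +kernel)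
theorem r11214 : PImp [l2604, l9159] l11214 := rupP (by decide +kernel)
theorem r11215 : PImp [o6731, o6599] l11215 := rupP (by decide +kernel)
theorem r11216 : PImp [l2571, o6584, l8126, o6713, l2592, o8801, o9086] l11216 := rupP (by decide +kernel)
theorem r11217 : PImp [l10393, l2555, l4082, l2617, l7926] l11217 := rupP (by decide +kernel)
theorem r11218 : PImp [l2660, l7703, l328, l2557, l11214, l2614, l2615, l11217, l2571, l11216, l8126, o2924, l2592, o6629] l11218 := rupP (by decide +kernel)
theorem r11219 : PImp [l3933, l4208, l1209, l1210, l2980, l2828, l11140, l11185, l10492, l4201, l11126, l11187, l2269] l11219 := rupP (by decide +kernel)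
theorem r11220 : PImp [l4204, l11061, l8341, l3931, l11163, l5751] l11220 := rupP (by decide +kernel)
theorem r11221 : PImp [l10393, l10395, l2711, l2658, l2657, l3933, l5925, l4208, l8603, o694, l10592, o714, l8921, o5247, o5246, o5262, o5632, l2379, o2339, l11220, l2476, l2480, l11063, l9017, o8187, l11143] l11221 := rupP (by decide +kernel)
theorem r11222 : PImp [l10393, l10394, l3119, l5925, l4129, l481, l480, l8603, l7707, o3563, o8801, o9086, o8506, o5445, o3749, l7703, l2992, l4896, l3008, l1412, l430, l4971, l4970, l4967, l4966, o3564, l3473, o3464, l2668, l4208, l1209, l1210, l3118, l4209, l4132, l3509, o8504, l2834, o5371, o5353, o5761, l2260, o5768, l3525, o5807, l4563, l3933, l2657, l2658, l3334, l2711, o8770, l2327, o8662, l11219, o3434, o3435, o3436, o3437, o3438, o3439, o3531, o3532, o3651, l11221, l2477, o699, o695, l2269, o690, l11068, o4441, o5252, o5248, o5249, o5274, l10545, o5247, l10530, o1472, o1473, l9894] l11222 := rupP (by decide +kernel)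
theorem r11223 : PImp [l10393, l480, l481, l5228, l6184] l11223 := rupP (by decide +kernel)
theorem r11224 : PImp [l11131, l8390, o7985] l11224 := rupP (by decide +kernel)
theorem r11225 : PImp [l3933, l11122, l11150] l11225 := rupP (by decide +kernel)
theorem r11226 : PImp [l10393, l3933, l4082, l4896, l3008, l430, l4971, l1209, l1210, l2980, l2981, l2827, l2829, l11079, l11133, o694, o714, l11224, l2564, l5667, l3930, l2452, l2448, l11225, l5042, l1446, l4957, o4734, o4606, l10539] l11226 := rupP (by decide +kernel)
theorem r11227 : PImp [o694, o714, l10592, l8921, o8426, l2314, o1465, l7352, l8399, o5733, l10156] l11227 := rupP (by decide +kernel)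
theorem r11228 : PImp [l1412, o4441, o690, l3933, l5751, l10754, l2448, l2449, l9894] l11228 := rupP (by decide +kernel)
theorem r11229 : PImp [l10393, l10394, l8603, l480, l481, l7707, l11223, l3509, l2834, l4132, l4209, l2604, l3119, l7703, l1210, l5925, l4129, o3563, l3008, l1412, l430, l4970, l11218, l2713, l4971, l2994, l4773, l4769, l3794, l4967, l5719, o3564, o3464, l2668, l4208, l2661, l2660, l2992, l1209, l328, l3118, l4084, l4082, l9965, l8882, l8367, o9057, o8801, l11037, o8920, o5445, o4935, o4939, o5838, o8506, o9086, l4189, l4593, l11222, o8504, o5371, o5761, o5768, l3525, l3933, l2657, l2658, o8770, l2327, l11226, o3434, o3436, o3438, o3439, l11227, l2477, l4280, l2269, o690, l11068, l11228, l2463, l2390] l11229 := rupP (by decide +kernel)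
theorem r11230 : PImp [l10393, l2604, l3119, l7703, l1210, l8603, l481, l480, l7707, l5925, l4129, o3563, l3008, l1412, l430, l4970, l11218, l2713, l11229, l2571, o9147, o9066] l11230 := rupP (by decide +kernel)
theorem r11231 : PImp [l10393, l10395, l2711, l2658, l2657, l5925, l4208, l8603, o694, o714, l11123, l10592, l11224, l2379, o5247, o5246, o5262, o5632, l11220, l2476, l2480, l11063, l9017, o8187, o5285, l11163] l11231 := rupP (by decide +kernel)
theorem r11232 : PImp [l10393, l10394, l2660, l3119, l5925, l4129, l481, l480, l8603, l7707, o3563, o8801, o9086, o8506, o4939, l5035, l4834, o4977, o5445, l2604, l7703, l3008, l1412, l430, l4970, l4967, l4966, o3564, l3473, o3464, l2668, l4127, l4208, l2661, l2992, l1209, l1210, l3118, l4209, l4132, l3509, o8504, l2834, o5371, o5353, o5761, l2260, o5768, l3525, o5807, l4563, l3933, l2657, l2658, l3334, o8770, l2327, l11162, o3434, o3435, o3436, o3437, o3438, o3439, o3531, o3532, o3651, l11231, l2477, l4280, o727, o695, l2269, o690, l11071, o4441, o5249, o5274, l11228, l10574] l11232 := rupP (by decide +kernel)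
theorem r11233 : PImp [l10393, l10395, l10394, l480, l481, l5228, l3856, l3524, l3520] l11233 := rupP (by decide +kernel)
theorem r11234 : PImp [o694, o714, l10592, l8921, o8426, l2314, o1465, o8229, l8399, o5733, l10156] l11234 := rupP (by decide +kernel)
theorem r11235 : PImp [l10393, l10394, l11230, l2604, l3119, l7703, l1210, l8603, l481, l480, l7707, l5925, l4129, o3563, l3008, l1412, l430, l4970, l11218, l2713, l4971, l2994, l4773, l4769, l3794, l4967, l5035, l4834, l5719, o3564, l3473, o3464, l2668, l4127, l4208, l2661, l2660, l2988, l2992, l1209, l328, l3118, l4084, l4082, l9965, l8882, l8367, o9057, o8801, l11037, o8920, o5445, o4977, o4939, o5838, o8506, o9086, l4189, l4593, l11233, l4209, l4132, l3509, l11232, o8504, l2834, o5371, o5761, o5768, l3525, l3933, l2657, l2658, o8770, l2327, l11162, o3434, o3435, o3436, o3437, o3438, o3439, o3532, l11234, l2477, l4280, o727, o695, l2269, o690, l11071, o5249, o5274, l11228, l2385, l2382, l2463, l5680, o7966, o7921, o1498] l11235 := rupP (by decide +kernel)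
theorem r11236 : PImp [l10393, l2604, l3119, l7703, l1210, l8603, l481, l480, l7707, l5925, l4129, o3563, l3008, l1412, l430, l4970, l11218, l2713, l11230, l11235, l2571, l2590, o9147, o3582] l11236 := rupP (by decide +kernel)
theorem r11237 : PImp [l8094, o6585, o2924] l11237 := rupP (by decide +kernel)
theorem r11238 : PImp [l10393, l3119, l7703, l1210, l8603, l481, l480, l7707, l5925, l4129, o3563, l3008, l1412, l430, l4970, l11218, l2713, l4183, l328, l2604, l11236, l11237, l2571, l2568, o9147, o3584, l7469] l11238 := rupP (by decide +kernel)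
theorem r11239 : PImp [l10393, l498, l10396, l5925, l4129, l481, l480, l8603, l7707, l10406, l7703, l1210, l3442, l3423, l3008, l5035, l3119, l11055, o3563, l3370, l3387, l4773, l5719, l1412, l4834, l430, l4967, l4970, l11213, o5826, l11218, l2713, l11238, l2615, l9208, l2571, l2588, l10912] l11239 := rupP (by decide +kernel)
theorem r11240 : PImp [l2556, l8677] l11240 := rupP (by decide +kernel)
theorem r11241 : PImp [l1244, l4618, l1209, l1210, l7771, l10092, l3308, l10796, l10789] l11241 := rupP (by decide +kernel)
theorem r11242 : PImp [l5034, l4618, l1210, l10799, l3308, l5068, l4054, l3075, o2463, o3946, o3952, o3907, l2787, l4030, l4020, l3991, l4995] l11242 := rupP (by decide +kernel)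
theorem r11243 : PImp [l10728, l8753, l10068, l3075] l11243 := rupP (by decide +kernel)
theorem r11244 : PImp [o5405, l7703, o6436, l10984, l11242] l11244 := rupP (by decide +kernel)
theorem r11245 : PImp [l7703, l4618, l11243, l4233, l1209, l1210, l2604, l2710, l11240, l11244, l4086, l10702, l7856, l11242, l9961, o2691, l3261, l4054, l7171, o4036, o6179] l11245 := rupP (by decide +kernel)
theorem r11246 : PImp [l10395, l10394, l10393, l7703, l2994, l5035, l2998, l11239, l3927, l498, l10396, l2659, l3117, l4183, l481, l480, l8603, l7707, o3556, l10406, l3137, l2727, o8525, o5810, o5408, l5925, l2988, l1210, o5511, l2730, l8259, o5406, l3532, l3509, l4662, l4850, l2996, l8235, l3762, l495, l3758, l4768, l8721, o4327, l2749, l3794, l3442, l2992, l2991, l2668, l3473, l2728, o5405, l2531, o4829, l4888, l4855, l4780, l4781, l4846, l1412, l499, o4893, o5017, o4334, o4906, l4968, l3423, l4794, l5238, l4896, l4969, l3801, l11241, l11245, l3769, l10372, l5514, l4618, l11243, l3772, l4118, l5034, l1209, l10756, l10905, l3089, o2557, l5068, l7806, l3303, l3243, l10159, o3946, o4031, o3907, o6249, l3986,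 l3992, l4031, o3887, o818, l3276, o2424, o6212, o6191] l11246 := rupP (by decide +kernel)
theorem r11247 : PImp [l5667, l11029, l3930, o4273, l4476] l11247 := rupP (by decide +kernel)
theorem r11248 : PImp [l1209, l1210, l2980, l2981, o3427, l11080, l2484, l4081, l11247, l11076, l2391, o4442, l3930, l4470] l11248 := rupP (by decide +kernel)
theorem r11249 : PImp [l10393, l2858, l4204, l10543, l8921, o5287, o5290, l3161, l11061, l4263] l11249 := rupP (by decide +kernel)
theorem r11250 : PImp [l3930, l2469, l4475, o4442] l11250 := rupP (by decide +kernel)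
theorem r11251 : PImp [l1412, l2656, o5408, l4208, l4201, l11249, l4280, o695, o690, l10764, l11031, o2712, l11250, l2646, l5751, l5893, l464, l465, l10749, l737, l6923] l11251 := rupP (by decide +kernel)
theorem r11252 : PImp [l10394, l10393, l10395, l2708, l1412, o5406, l3532, l2657, o5405, l2531, l2656, l4208, l2992, l1209, l1210, l4082, l11248, l2858, o3434, o3435, o3436, o3438, o3439, l11251, l5040, l2477, l10543, l10592, l8921, o5285, o5290, o4633, o4622, l3161, l2379, l2486, l4263, o8053, l4950, o2713] l11252 := rupP (by decide +kernel)
theorem r11253 : PImp [l10395, l10394, l10393, l3927, l498, l10396, l2659, l3117, l4183, l481, l480, l8603, l7707, o3556, l11239, l10406, l3137, l2727, o8525, l2728, l495, l3473, o3464, l5925, l2668, l2661, l7703, l2991, l2988, l2992, l1210, l3442, l3423, l2998, l2996, l2994, l5035, l3118, l499, o5810, o5511, o5405, o5406, o5408, l2730, l4794, l2531, l3532, l8259, l5238, l4209, l4132, l8235, l3509, l3762, l2836, l4662, l2844, o4829, l3758, l3769, l4850, l4888, l4896, l4768, o8504, l4855, l4846, l8721, l4780, l4781, o4815, l1412, o4906, o4893, o5017,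 o4327, o4334, o4297, o4300, l4968, l4969, l4618, l2749, l3794, l3801, l11241, l11245, l10372, l5514, l11246, l11252, l11190] l11253 := rupP (by decide +kernel)
theorem r11254 : PImp [l2556, l7190, l11052] l11254 := rupP (by decide +kernel)
theorem r11255 : PImp [l2604, l7703, l328, l4084, l11237, l8882, o5819, l3762] l11255 := rupP (by decide +kernel)
theorem r11256 : PImp [l7703, l2996, l2604, l11254, l2713, l11255, l2571, o9147, l2707, l6942] l11256 := rupP (by decide +kernel)
theorem r11257 : PImp [l6707, l6039, l8214] l11257 := rupP (by decide +kernel)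
theorem r11258 : PImp [l3927, l5035, l2556, l11257, l2571, l8127, l8126, l4778, l2592] l11258 := rupP (by decide +kernel)
theorem r11259 : PImp [l5035, l4834, l8602, l3370] l11259 := rupP (by decide +kernel)
theorem r11260 : PImp [l10393, l7703, l2994, l498, l10396, l8603, l11239, l11259, l5035, l2998, l3000, l4838, l4850, l7692, o4334, o4335, l3801, l10406, l3137, l495, l2996, l3758, l4768, l3927, l499, o4909, o4559, l2730, l4855, l2728, l1210, l3442, l11253, l11256, l2615, l11258, l2713, l10173] l11260 := rupP (by decide +kernel)
theorem r11261 : PImp [l10393, l10914, l2711, l2555, l8726, l5741, l8902, o6382] l11261 := rupP (by decide +kernel)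
theorem r11262 : PImp [l10394, l10395, l10393, l480, l481, l10406, l4183, l7703, l1210, l3345, l3927, l3423, l4138, l3000, l2998, l2996, l2994, l5035, l3117, l498, l499, l2992, l2988, l10396, l2659, l8603, l5925, l7707, l2668, o3556, l3473, l11239, l3131, l3137, l495, l2727, l2728, o8525, l11259, o4906, l4838, l4841, o4909, l4968, l4850, l7692, l4855, o4834, o4559, l4846, o4334, o4329, o5009, l3758, l3769, l4888, o4497, l4794, o4335, o4306, o8967, l4768, l3532, l3794, l3854, o9164, l5238, l11260, o5730, o4574, o5824, l11261, l11049, l6173, l9771, l2619] l11262 := rupP (by decide +kernel)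
theorem r11263 : PImp [l10393, l7703, l1209, l480, l11262, l2846, l8671, l5989, l1412, l6133, l2843, l4967] l11263 := rupP (by decide +kernel)
theorem r11264 : PImp [l2604, l2711, l10402, l8370] l11264 := rupP (by decide +kernel)
theorem r11265 : PImp [l10395, l10393, l11263, o5407, l5035, l7703, l3000, l498, o5364, l3423, l3345, l4183, o5363, o5362, l10405, l5433, l6818, l3336, l3115, l2988, l5412, l4130, l6253, l3370, l8721, l4841, o4906, l3118, l2661, l4132, l1210, l8376, l2674, o8350, o9087, l8369, o9106, l3117, l3927, l2659, o4492, l2992, l4892, o8374, o9074, o8525, l3442, l328, o5512, l2727, l10400, l2713, l11264, l2614, l2615, l8565] l11265 := rupP (by decide +kernel)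
theorem r11266 : PImp [l498, l3370, l3442, l7703, l328, l2604, l2711, l11254, l10402, l8036, l2571, l2544, l6942] l11266 := rupP (by decide +kernel)
theorem r11267 : PImp [l3137, l2727] l11267 := rupP (by decide +kernel)
theorem r11268 : PImp [l10393, l3370, l5433, l8376, l2674, l2614, l2615, l8565] l11268 := rupP (by decide +kernel)
theorem r11269 : PImp [l10395, l10393, l7703, l1210, l3345, l3927, l3442, l3423, l3000, l5035, l3118, l3117, l3115, l498, l499, l4183, l10406, l11263, o5363, o5364, o5362, o4492, l10405, l2992, l2988, l5433, l4892, l6818, l8376, l2659, l2661, o8374, l3336, l5412, l2674, o8525, o9074, l8369, l4132, l4130, o8350, o9106, o9087, l6253, l3370, l8721, o4906, l4841, l11267, l10400, l11268, l2604, l9725, o5407, l11265, l11266] l11269 := rupP (by decide +kernel)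
theorem r11270 : PImp [l10393, l5038, l5037, l480, l8674, l2846, l5989, l4614, l2843] l11270 := rupP (by decide +kernel)
theorem r11271 : PImp [l10393, l7703, l5035, l5037, l5038, l4100, l11270, o5364, o4492, l5934, l6818, l3336, l6253, l8720, l5225, l2992, l4425] l11271 := rupP (by decide +kernel)
theorem r11272 : PImp [l10395, l11243, l5034, l1209, l9976, l10756, l3243, l4055, l3089, o2557, o2442, o6249, o3946, o4027, l3992, o6034] l11272 := rupP (by decide +kernel)
theorem r11273 : PImp [l5667, l3931, o7694, l4468, o4274] l11273 := rupP (by decide +kernel)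
theorem r11274 : PImp [l1209, l1210, l2980, l2981, l2982, o3427, l11080, l2484, l4080, l4081, l11273, l11076, l2391, o4442, l3930, l4470] l11274 := rupP (by decide +kernel)
theorem r11275 : PImp [l2469, l11250, o4441, o2712, o7694] l11275 := rupP (by decide +kernel)
theorem r11276 : PImp [l2657, l2656, l11275, l2646, l5751, l5893, l464, l465, l11071, l10526, l10749, l2327, o5650] l11276 := rupP (by decide +kernel)
theorem r11277 : PImp [l2657, l2656, l4208, l4201, l11249, l4280, o691, o690, l11276, l5680, l10447, l2463] l11277 := rupP (by decide +kernel)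
theorem r11278 : PImp [l10393, l10395, l2711, l2657, l2531, l2656, l4618, l2793, l7703, l5178, l4208, l2991, l2992, l1209, l1210, l5035, l2555, l7190, l8377, l4082, l4602, l2708, o8629, o8579, l11241, l4118, l11243, o853, l3772, l11272, l11274, l2858, o3434, o3435, o3436, o3437, o3438, o3439, l11277, l5040, l2477, l10543, l10592, l8921, o5285, o5290, o4622, o4655, l3161, l2379, l2486, l4263, l4925, o8053, o2716] l11278 := rupP (by decide +kernel)
theorem r11279 : PImp [o2442, l8986] l11279 := rupP (by decide +kernel)
theorem r11280 : PImp [l7703, l328, l11237, o6436, l4618, l5178, l2991, l2992, l1210, l5034, l11243, l10984, l11244, l10799, l3308, l11279, o2449, l4054, o3946, o3952, l2785, l3991, l4995, l4049] l11280 := rupP (by decide +kernel)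
theorem r11281 : PImp [l4763, l10690, l5849, l6031, o3897] l11281 := rupP (by decide +kernel)
theorem r11282 : PImp [l2713, l4618, l2793, l7703, l5178, l4129, l1209, l1210, l328, l10907, l11237, l4610, o5810, l11280, l10810, l7771, l11241, l11281, l3308, l10796, l10789] l11282 := rupP (by decide +kernel)
theorem r11283 : PImp [l5178, l4618, l11243, l5034, l1209, l7945, l11272, l9961, o2449, l4054, l2785, l5022, l4049] l11283 := rupP (by decide +kernel)
theorem r11284 : PImp [l4618, l7703, l5178, l2991, l2992, l1209, l1210, l5035, l4118, l4233, l11243, l4086, o853, l3772, l11283, l10702, l7856, l11242, l9961, l4054, o2691, l3261, o4036, l7171, o6179] l11284 := rupP (by decide +kernel)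
theorem r11285 : PImp [l4618, l2793, l5178, l1209, l1210, l10995, l7771, l11241, l11281, l3308, l10796, l10789] l11285 := rupP (by decide +kernel)
theorem r11286 : PImp [l10395, l7703, l11267, l5035, l3000, l4838, l4841, l11285, l2531, l2996, l2604, l2711, l11278, l2713, l11282, l2571, l2590, l11284, o3582, o5017, o9147] l11286 := rupP (by decide +kernel)
theorem r11287 : PImp [l10393, l10395, l2708, l4082, l2531, l11243, o853, l2657, l2656, l4208, l2991, l2992, l1209, l1210, l11272, l11274, o3434, o3435, o3436, o3437, o3438, o3439, l11277, l5040, l2477, l10543, l10592, l8921, o5285, o4622, o4655, o8426, l3161, l2379, l2486, o8053, l2651, l4925, o2716] l11287 := rupP (by decide +kernel)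
theorem r11288 : PImp [l10395, l10393, l10372, l2539, l2708, l4082, l481, l480, l8603, l7707, l3473, l11243, l5034, l2988, l1210, l8249, l3509, l2834, l8235, l5238, l4209, l2657, l5925, l2531, l2656, o3464, l4208, l2668, l10397, l2992, l1209, l422, l3000, l2996, l11287, l11252, l10898, l10756, o3434, o3435, o3436, o3437, o3438, o3439, l3089, o2560, o2557, l5068, l7806, l3303, o1745, l3243, o3946, o4031, o3907, o6250, o6249, l3992, l4031, o827, o3887, l3276, o2424, o6191, o6212, l10901, l10998, l4201, l10902, l4280, o695, o5590, l10764, l5893, l11275] l11288 := rupP (by decide +kernel)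
theorem r11289 : PImp [l5034, l1209, l3247, l9961, l4055, l3089, o2549, o2442, o3946, o6247, l3992, o4016, o6564] l11289 := rupP (by decide +kernel)
theorem r11290 : PImp [l5178, l4618, l11243, l5034, l1210, l11272, l11279, o2449, l4054, l2785, l5022, l4049] l11290 := rupP (by decide +kernel)
theorem r11291 : PImp [l5178, l4618, l11243, l5034, l1209, l1210, l11290, l5068, l10756, o2449, l4054, l2785, l5022, l4049] l11291 := rupP (by decide +kernel)
theorem r11292 : PImp [l10395, l10393, l8603, l480, l7703, l2988, l1210, l5178, l8249, l8235, l481, l7707, l3473, l5035, l3000, l4838, l4618, l10397, l5925, l2668, l11267, l4841, l5238, l11285, l11243, l2996, l2991, l4118, l2531, o853, l3772, l11291, l3303, l1209, l9961, l4055, o3907, l4031, l5034, l3089, o3946, l3992, l4119, l4209, l2793, l3117, l4183, l3927, l2659, o3556, o8525, o3464, l11286, l2615, l10372, o876, l2713, l10910, o5810, o5017, o4036, l11288, l4086, o6801, l3282, o6179, o2690] l11292 := rupP (by decide +kernel)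
theorem r11293 : PImp [l10395, l10394, l10393, l7703, l2991, l2988, l480, l481, l3115, l11271, l11269, l3216, l4183, l1209, l1210, l3927, l3442, l3423, l3000, l2998, l2996, l2995, l2994, l2993, l5035, l3117, l498, l499, l2659, l8603, l5925, l10397, l2668, l7707, l11259, l3144, o6726, l11267, o3556, l3473, o4906, l4838, l4841, o4893, o4909, l487, l2729, o4312, o8525, l4968, l4969, l4871, l4850, l5178, l4618, l2749, l2793, o5343, o5348, o5368, o4805, o4790, o4786, o4783, o4802, l4877, o4324, l4867, l3802, l3793, l2531, l3532, l4899, l4906, l4768, l8249, l4781, l4780, l5238, l8235, l11285, l5034, l4115, l4118, l11243, o853, l3770, l3772, l11291, l3247, l9961, l4055, l11289, l3089, o2549, o2442, o3946, o6247, l3992, o4016, l11292, o6034, o5730, o4574, o5824, l11261, l6173, l9771, l5519] l11293 := rupP (by decide +kernel)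
theorem r11294 : PImp [l10393, l7703, l5035, l4967, l4838, l1412, l8721, l3370] l11294 := rupP (by decide +kernel)
theorem r11295 : PImp [l10393, l480, l7703, l1209, l498, l3000, l11294, l11293, l6133, l5242, l2843] l11295 := rupP (by decide +kernel)
theorem r11296 : PImp [l10393, l7703, l1209, l498, l3000, l11294, l480, l11295, l2846, l5989, l6133, l2843] l11296 := rupP (by decide +kernel)
theorem r11297 : PImp [l10393, l3345, l3423, l498, l7703, l3000, l11294, l2998, l2995, l2994, l3008, l5035, l3115, l11271, l4183, l11269, l3216, l4871, l4850, l4867, l1412, l4834, l430, o4549, o4560, o4562, l5796, l4971, l3793, l4768, l4780, l11296, o5352, o5357, l10405, l5433, l2675, l2674] l11297 := rupP (by decide +kernel)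
theorem r11298 : PImp [l10393, l498, l432, o4900, l1412, l8721, l3370] l11298 := rupP (by decide +kernel)
theorem r11299 : PImp [l7703, l2998, l2994, l5035, l4885, l5795, o4528, o4334, l3457, l4850] l11299 := rupP (by decide +kernel)
theorem r11300 : PImp [l7703, l2995, l5035, o4906, l4968, l11299, l4871, l5592, l5796] l11300 := rupP (by decide +kernel)
theorem r11301 : PImp [l10393, l5035, l4834, l8721, l3370] l11301 := rupP (by decide +kernel)
theorem r11302 : PImp [l10393, l480, l8603, l6133, l2843, l2846, l5242] l11302 := rupP (by decide +kernel)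
theorem r11303 : PImp [l10393, l3119, l3118, l3115, l6818, l8376, l3336, l3397, l3394, l4129, l8369, l667, o8481, l644, o8464, o783, o8462] l11303 := rupP (by decide +kernel)
theorem r11304 : PImp [l10393, l11303, l5934, l5905] l11304 := rupP (by decide +kernel)
theorem r11305 : PImp [l10393, l498, l11301, l3115, l11298, l11271, l7703, l1209, l1210, l3000, l11294, l4138, l3423, l11297, l11300, l11302, o5363, o5364, o5365, l11304] l11305 := rupP (by decide +kernel)
theorem r11306 : PImp [l10393, l10395, l4082, l3119, l5989, l7703, l1209, l11302, l5925, l4129, l2808, l487, l10818, l2711, l4767, l10508, l2424, l480, l10397, l3513, l4209, l4779, l2658, l3933, l490, l481, l7707, l3473, o3464, l4208, l2992, l2668, l5035, l3000, l4841, l1210, l422, l11214, l8377, l4602, o5017, l2708, l10936, l2980, l2981, l2803, o3427, l11070, l11014, l10492, o694, o714, o5285, o5286, o5287, o5288, o5290, l11107, l9817, o1538, l10664, l2379, l10892, l2473, l2474, l2476, l10540] l11306 := rupP (by decide +kernel)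
theorem r11307 : PImp [l10393, l2604, l7703, l10397, l1209, l11302, l5925, l5989, l2668, l487, l4779, l11167, l4767, l3119, l4129, l2808, l10818, l481, l480, l7707, l3473, l2991, l2992, l328, l11306, l2713, l10907, l11237, o5813, l10984] l11307 := rupP (by decide +kernel)
theorem r11308 : PImp [l10393, l7190, l2713, l7703, l10397, l1209, l11302, l5925, l5989, l2668, l487, l5035, l2998, l4850, l4779, l11167, l4086, l3119, l4129, l2808, l10818, l2711, l2604, l481, l480, l7707, l3473, l4968, l4767, l10801, l4118, l4117, l3513, l4209, l3933, l490, l4208, l2991, l2992, l4969, l3000, l4841, o5841, o4846, l10803, o3582, o8969, o8978, o9075, l10758, l10697, l2980, l2981, l2803, o3427, l11107, l11014, l10492, l10142, l5532, l8007, o4630, l2564, l2607, l4951, l4476] l11308 := rupP (by decide +kernel)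
theorem r11309 : PImp [l10393, l7703, l481, l1209, l11302, l480, l7707, l3473, l4968, l487, l5035, l2998, l4850, l4767, l10397, l5925, l5989, l2668, l4779, l11167, l10801, l4232, l4117, l5034, l2994, l3794, o4963, o4944, l3119, l4129, l2808, l10818, l3336, l2992, l4969, l1210, l3000, l11307, l7190, l4086, l11308, o5725, o6732, o6477, l10815, l9961, l4055, l3089, o2569, o3946, o3952, l3992, l3986, l3282, l3320, l6061, o6280] l11309 := rupP (by decide +kernel)
theorem r11310 : PImp [l2342, l2520, o7479, o5223] l11310 := rupP (by decide +kernel)
theorem r11311 : PImp [l3239, l3633, l4496, o3516, o4588, o7480] l11311 := rupP (by decide +kernel)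
theorem r11312 : PImp [l10393, l744, o7959, o3414, l3161, l3554] l11312 := rupP (by decide +kernel)
theorem r11313 : PImp [l2980, l2982, l7985, o4430, o4433, l10829, l3537, l11312, o4633, l4464, l4468] l11313 := rupP (by decide +kernel)
theorem r11314 : PImp [l10393, l10397, l5989, o3525, l11083] l11314 := rupP (by decide +kernel)
theorem r11315 : PImp [l2477, l4260, l11313] l11315 := rupP (by decide +kernel)
theorem r11316 : PImp [l10393, l10395, o3521, l5989, o3432, l5925, l2405, l4209, l2658, l481, l11302, l480, l7707, l3473, o3464, l4208, l2992, l2668, l10397, l10528, o7491, l11314, l2980, o3388, l11315, l4204, o688, l11123, l3161, l2379, o2308, l1071, o2215, l6571, l5667, l8001, l2651, o1452, o1490, o3449, l10825, l2441, o4432, o4924, o4585, l11199, l4162, l2402, o2245, o8035, o3618, o3596, o3389, o8207, l3565, o5623, l4278, o8125, o7893] l11316 := rupP (by decide +kernel)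
theorem r11317 : PImp [l10393, l480, l10397, l3513, l4209, l3933, l5989, l2992, l5925, l2668, l10142, l11123, o5247, o5246, o5662, o5243, l8445, o8180, o2307, l10707, o3690, o1486, l4161, o8206] l11317 := rupP (by decide +kernel)
theorem r11318 : PImp [l5667, l3931, l2448, l5689, l11312, o4655] l11318 := rupP (by decide +kernel)
theorem r11319 : PImp [l10393, l10508, l1138, l10496, l480, l10397, l3513, l3933, l481, l11302, l7707, l3473, l5925, l2980, l2985, l11317, l2477, l4280, l4260, o645, l7985, o4428, o4433, o4585, l11318, l4581, l2374, l2441, o8124, o8282] l11319 := rupP (by decide +kernel)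
theorem r11320 : PImp [l10393, l3117, l11302, l481, l480, l7707, o3556, l5925, l4164, l2662, l4165, l2661, l3118, l5989, o3464, l4163, l3336, l3115, l8893, l2251, l6253, l3927, l2993, o6795, o4983, o5782, o8799, o8798, o4944, o4846, o5841, l1138, o8917, l10508, l2437, l2434, l2436, o8503, o9088, l10397, l2809, l3513, l4209, l4195, o5345, o4803, o4787, o5798, o4325, l3334, l2658, l2657, l3933, l4191, l4198, l490, l3473, l4208, l2992, l2668, l2660, l3344, l3119, l11089, l10517, o1431, o1430, o1423, l3327, o1429, l11099, l3236, l3102, l3104, l3105, l10496, l11310, l2975, l2517, l456, l455, l11311, l5108, l2404, l7334, l3636, o3521, l2798, o7627, o7553, o5555, o4917, o9160, l11316, l11319, o3434, o3435, o3436, o3437, o3438, o3439, o3525, l10998, l2477, l4280, o727, o695, o690, l10854, l11276, o5682, o5718, o5590, l10574] l11320 := rupP (by decide +kernel)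
theorem r11321 : PImp [l3325, l1128, l2796, l5098, l2353, l2422] l11321 := rupP (by decide +kernel)
theorem r11322 : PImp [l11321, l3926, l2364, l2365, l11099, l3102, l3105, l11310, l2975, l2517, l455, l11311, l7334] l11322 := rupP (by decide +kernel)
theorem r11323 : PImp [l10393, l2829, l7703, l2985, l3933, l498, l4125, l4162, l10590, o5283, o5276, o4663, l10829, l3534, l3536, l3537, l3544, l10664, l3161, o2308, o2269, l4915, l10712, o4654, l11170, l10509, l2831, o3693, o3658, l3565, o8207, l4278, o5623, o8125, o7893] l11323 := rupP (by decide +kernel)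
theorem r11324 : PImp [l10394, l7703, l2981, l3933, l4204, o694, o688, l11323, l5042, l5162, l3171, l11158, l10664, l5669, l2448, o5243, l2493, l2492] l11324 := rupP (by decide +kernel)
theorem r11325 : PImp [l10393, l480, l10397, l3513, l4209, l3927, l7703, l2993, o6795, l2994, l4195, l4191, l3794, o4325, l5989, l11302, l5925, l4129, l2808, l487, l10818, l2658, l3933, l4198, l481, l7707, l3473, o3464, l4127, l4208, l2992, l2668, l2660, l499, l10528, l11314, l2980, l2982, l2985, l2803, l11324, l2477, l4280, l4260, o726, l10590, o5284, o5276, l11318, l10829, l4464, l3537, l11312, o4633] l11325 := rupP (by decide +kernel)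
theorem r11326 : PImp [l5667, l4942, l3931] l11326 := rupP (by decide +kernel)
theorem r11327 : PImp [l4204, l10142, o4633, l8445, o3414, l11326, l3235, l3894, l9048] l11327 := rupP (by decide +kernel)
theorem r11328 : PImp [l490, l499, l2980, l2981, l2982, l2985, l2803, l11327, l2477, l4280, l4260, o726, l10590, o5271, o5284, o5276, o5275, l11318, l3234, l3235, l4581, l4300, l4815, l2448, l4471, l11312, o4630] l11328 := rupP (by decide +kernel)
theorem r11329 : PImp [l10393, l3933, l481, l11302, l480, l7707, l3473, l5989, o3464, l5925, l4208, l2668, l10397, o3434, o3435, o3436, o3437, o3438, o3439, o3525, l11028, l2477, l4280, o727, o695, o690, l10854, l11276, o5682, o5718, o5590, l10574] l11329 := rupP (by decide +kernel)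
theorem r11330 : PImp [l10393, l498, l7703, l3000, l11294, l11298, l1210, l1209, l3115, l11271, l499, l11301, o4909, o4906, l4968, l11305, l3422, l2660, l5989, l2992, l5925, l4127, l3927, l4195, l4191, l3119, l11302, l4129, l2808, l487, l10818, l2993, o6795, o4312, l5178, l4618, l2793, l4163, l3336, l6253, o5358, o5375, o5345, l5035, l2998, l2994, l3794, l2749, l4850, l4767, l4779, l4165, l2661, l3118, l481, l480, l7707, o3464, l8893, l2251, o4983, o5782, o8799, l10397, l2809, l3513, l4209, l3117, l2662, l4164, o3556, o8798, o8503, o5841, o4944, o4846, l11329, l1138, l2657, o3782, o5756, o8770, l4969, o8917, l10508, l2437, l2434, l2424, o9088, o4803, o4787, o4325, l5796, l3933, l4198, l490, l3473, l2668, l3443, l4841, l422, l11320, l11322, l11325, l11328] l11330 := rupP (by decide +kernel)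
theorem r11331 : PImp [l5667, l3931, l2448, l4949, o4633, l11170, l10493] l11331 := rupP (by decide +kernel)
theorem r11332 : PImp [l10395, l3933, l4204, l11331, l3234, l2379, l10664, l3537, l3876, o4648, l5669, o7766] l11332 := rupP (by decide +kernel)
theorem r11333 : PImp [l1509, o8674, o7959] l11333 := rupP (by decide +kernel)
theorem r11334 : PImp [l10395, l3933, l11332, l2477, l4280, l4260, l7985, o4433, l11318, l2379, l11333, o4630, l3915, l4471] l11334 := rupP (by decide +kernel)
theorem r11335 : PImp [l10393, l5667, l2448, l2454, l10825, l10664, l4161, l3161, o2307, l6571, o3535, o8206, o5662, l10930, l10493] l11335 := rupP (by decide +kernel)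
theorem r11336 : PImp [l10395, l4204, o688, l11335, l2379, l2380, l11158, l11123, l10664, o3663, l10493, o1454, o8264, o5627] l11336 := rupP (by decide +kernel)
theorem r11337 : PImp [o4760, l1509, o7918, l11312, l3225] l11337 := rupP (by decide +kernel)
theorem r11338 : PImp [l10395, l3933, l4208, l11334, l11336, l2477, l4280, l4260, l7985, o4433, l11318, l3235, l2379, l11337, o4630, l3915, l4471] l11338 := rupP (by decide +kernel)
theorem r11339 : PImp [l10395, l3933, l11332, l2477, l4280, l4260, o726, l10590, o5284, l11318, l2379, l11333, o4630, l3915, l4471] l11339 := rupP (by decide +kernel)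
theorem r11340 : PImp [o4760, l1509, l3225, o7959, l3537] l11340 := rupP (by decide +kernel)
theorem r11341 : PImp [l10393, l10395, l3117, l2662, l11305, l3115, l11298, l11271, l5925, l4164, l498, l7703, l3000, l11294, l1209, l11302, l481, l480, l7707, o3556, l4165, l2661, l3118, l5989, o3464, l4163, l3119, l4129, l2808, l3927, l1210, l4195, l487, l10818, l3336, l11301, l2993, o6795, o4312, l5178, l8893, l2251, l3422, l6253, l2994, l4191, l3794, o4983, o5782, o8799, o8798, o8503, o9088, o5756, o4963, o4944, l10397, l2809, l3513, l4209, o8917, l5035, l2998, l2749, l4850, l4779, l4767, o5345, o4803, o4787, o5375, o5358, o3782, o4325, l2657, l3933, l4618, l2793, l4198, l3473, l4127, l4208, l2992, l2668, l2660, l3443, o4906, l4969, l4968, l499, o4909, l4841, o5841, o4846, l11329, l2980, l2981, l2982, l2984, l2985, l2803, l11330, l11339, l11336, l2477, l4280, l4260, o726, l10590, o5284, l11318, l3235, l2379, l11340, o4630, l3915, l4471] l11341 := rupP (by decide +kernel)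
theorem r11342 : PImp [l10395, l10393, l4082, l7415, l7255, l2542] l11342 := rupP (by decide +kernel)
theorem r11343 : PImp [l2713, l10680, l3261, l5859, l7207, o4229, l5735] l11343 := rupP (by decide +kernel)
theorem r11344 : PImp [l2980, l2981, l2982, l2984, l2985, l11338] l11344 := rupP (by decide +kernel)
theorem r11345 : PImp [l10393, l3119, l5989, l498, l7703, l3000, l11294, l11298, l1209, l3115, l11271, l11302, l5925, l4129, l2808, l3927, l11305, l1210, l4195, l487, l10818, l2711, l2604, l481, l480, l7707, l3473, l11301, o4906, l4968, l2993, o6795, o4312, l5178, l5035, l2998, l2994, l4191, l3794, l2749, l4850, l4767, l3117, l2662, l4164, o3556, l4165, l2661, l3118, o3464, l4163, l3336, l8893, l2251, l3422, l6253, o4983, o5782, o8799, o8798, o8503, l10397, l2668, l3443, l499, o4909, l4618, l2793, o8917, l4779, l11167, l10801, l3772, l4118, l4117, o9088, o5756, o4963, l2809, l3513, l4209, o5345, o4803, o4787, o4784, o5795, o5375, o5358, o3782, o4325, l2658, l2657, l3933, l4198, l4208, l2992, l4969, o4893, l4841, l422, l2996, l11309, l11341, o5725, l11342, l7190, l4086, o6732, o6477, l11343,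 l10413, l11344, o3434, o3435, o3436, o3437, o3438, o3439, l11028, l2477, l4280, o690, l11276, l11071, l5871, o4441] l11345 := rupP (by decide +kernel)
theorem r11346 : PImp [o7479, o7415] l11346 := rupP (by decide +kernel)
theorem r11347 : PImp [l490, l3344, l11089, l10517, o1430, l3327, l11099, l3236, l3239, l3101, l3105, l5173, l3322, l11115, l11346, o5225, o7552, l2399, l2799] l11347 := rupP (by decide +kernel)
theorem r11348 : PImp [l3933, l7190, l10771] l11348 := rupP (by decide +kernel)
theorem r11349 : PImp [o3427, l11107, l2484, l4081, o717, o715, l11178] l11349 := rupP (by decide +kernel)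
theorem r11350 : PImp [l2711, l7703, l11167, l2994, l3794, o4944, l4208, l2991, l2992, l2660, l1209, l1210, o5841, o4846, l11348, l4082, l6208, l6039, l2708, l11349, o3434, o3435, o3436, o3438, o3525, l10901, l10884] l11350 := rupP (by decide +kernel)
theorem r11351 : PImp [l10393, l3119, l4129, l2808, l487, l10818, l2711, l4767, l10508, l2424, l5035, l2425, l4779, l7703, l3000, l4841, l1210, l328, l11347, l11350, o5725, l8377, l11237, o6732, o6477] l11351 := rupP (by decide +kernel)
theorem r11352 : PImp [l2981, l2980, l2477, l4280, l11203, l9992, l11076, l2392] l11352 := rupP (by decide +kernel)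
theorem r11353 : PImp [l3933, l4208, l2980, l2982, l2984, l11352, l11332, l11336] l11353 := rupP (by decide +kernel)
theorem r11354 : PImp [o5841, o4846, o5680, o5682, o5718, o5590, o5585, l10574, l11120, l5751, l2447] l11354 := rupP (by decide +kernel)
theorem r11355 : PImp [l10393, l3927, l7703, l1210, l4195, l487, l5035, l2998, l2993, o6795, o4312, l2994, l4191, l3794, l2749, l4850, l4767, l5989, l1209, l11302, l481, l480, l7707, o3464, l5925, l4163, l3119, l4129, l2808, l10818, l3336, l3115, l5178, l8893, l2251, l3118, l2661, l4165, l6253, o4983, o5782, o8917, l10508, l2437, l3117, l2662, l4164, o3556, o8799, o8798, o8503, o9088, o5756, l10397, l2809, l3513, l4209, l4779, o5345, o4803, o4787, o4784, o3782, l2658, l2657, l3933, l4618, l2793, l4198, l490, l3473, l4127, l4208, l2992, l2668, l2660, l3000, l4841, l11351, l10413, l11353, o3434, o3435, o3436, o3437, o3438, o3439, o3525, l11028, l2477, l4260, o727, o691, o695, o690, l11071, o4441, o4447, o5249, o5274, o5244, l10574, l11120, l5751, l2447] l11355 := rupP (by decide +kernel)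
theorem r11356 : PImp [l490, l2514, l11099, l3236, l3105, l11310, l11346, l2976, o5220, o4591, l2439, l4486, l4961] l11356 := rupP (by decide +kernel)
theorem r11357 : PImp [l10393, o4312, l4618, l2793, l5178, l2814, l3000, l11347, l11356, l3327, l3329, l2645, l10548, l1128, l2502, l2500, o3633, l2318, o7503, o7651, o5562] l11357 := rupP (by decide +kernel)
theorem r11358 : PImp [l3933, l11332, l11336] l11358 := rupP (by decide +kernel)
theorem r11359 : PImp [l10395, l4208, l2980, l2981, l2982, l2984, l2985, l11358, l4280, l4260, l11203, l3235, l2379, l11340, o4630, l3915, l4471] l11359 := rupP (by decide +kernel)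
theorem r11360 : PImp [l10393, l11305, l7703, l498, l11301, o4906, l4969, l3927, l11298, l1210, l4195, l487, l5035, l2998, l3000, l11294, l2993, o6795, o4312, l2994, l4191, l3794, l2749, l4850, l4767, l5989, l1209, l3115, l11271, l11302, l481, l480, l7707, o3464, l5925, l4163, l3119, l4129, l2808, l10818, l3336, l5178, l8893, l2251, l3118, l2661, l4165, l3422, l6253, o4983, o5782, o8917, l10508, l2437, l2430, l2435, l2424, l2425, l3117, l2662, l4164, o3556, o8799, o8798, o8503, o9088, o5756, o4963, l10397, l2809, l3513, l4209, l4779, o5345, o4803, o4787, o5375, o5358, o3782, l2658, l2657, l3933, l4618, l2793, l4198, l490, l3473, l4127, l4208, l2992, l2668, l2660, l3443, l4968, l499, o4909, l4841, l11345, l11355, l11357, l10413, l11359, o3434, o3435, o3436, o3437, o3438, o3439, o3525, l11028, l2477, l4260, o727, o691, o695, o690, l11071, o4441, o4447, o5249, o5274, o5244, l10574, l11120, l5751, l2447] l11360 := rupP (by decide +kernel)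
theorem r11361 : PImp [l5104, l5103, l5106] l11361 := rupP (by decide +kernel)
theorem r11362 : PImp [l10393, l6200] l11362 := rupP (by decide +kernel)
theorem r11363 : PImp [l452, l450, l5155, l5156] l11363 := rupP (by decide +kernel)
theorem r11364 : PImp [l11270, l10397] l11364 := rupP (by decide +kernel)
theorem r11365 : PImp [l3238, l5093, l5117, l3926, l5122, o5206, l6368, l3925, l5076, l2976, o5205, l5092, l2439, l5148, l3008, l5157, l451, o5199, l5109] l11365 := rupP (by decide +kernel)
theorem r11366 : PImp [l11365, l2498, l5093, l5117, l3926, l5122, o5206, l3925, l5084, l5090, l5143, l4498, l5145] l11366 := rupP (by decide +kernel)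
theorem r11367 : PImp [l4588, l5093, l5151, l4587, l5078, l5119] l11367 := rupP (by decide +kernel)
theorem r11368 : PImp [l2498, l11363, l2368, l4587, l4588, l11366, l5151, l5120, l2369, l2398] l11368 := rupP (by decide +kernel)
theorem r11369 : PImp [l451, l3236, l453, l450, l2498, l5143, l4587, l3183, l2522] l11369 := rupP (by decide +kernel)
theorem r11370 : PImp [l3236, l3926, l5077, l5142] l11370 := rupP (by decide +kernel)
theorem r11371 : PImp [l10395, l3934, l473, l10393, l5433, l5934, l5905, l2705] l11371 := rupP (by decide +kernel)
theorem r11372 : PImp [l10393, l481, l11371, l485, l5198] l11372 := rupP (by decide +kernel)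
theorem r11373 : PImp [l3004, l4655] l11373 := rupP (by decide +kernel)
theorem r11374 : PImp [l11305, o5513, l3319, l11054, l10910, o2393] l11374 := rupP (by decide +kernel)
theorem r11375 : PImp [l3926, o1078, l8413, o1429] l11375 := rupP (by decide +kernel)
theorem r11376 : PImp [l4083, l6039, o9178, l2707] l11376 := rupP (by decide +kernel)
theorem r11377 : PImp [l2602, l7478, o3838] l11377 := rupP (by decide +kernel)
theorem r11378 : PImp [l11305, l494, l490, l3927, l3144, l7703, l3008, l3026, l5035, o4532, l4872, l1210, l404, l3137, o5513, l11374, o1160, l10908, o1975, l11377, l4083, l9898, o9178, l4602, l2707] l11378 := rupP (by decide +kernel)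
theorem r11379 : PImp [o2393, l5518, l5775, l2707, o358, o9147] l11379 := rupP (by decide +kernel)
theorem r11380 : PImp [l10395, l3927, o1160, l11305, l494, l3137, l3435, l7703, l3008, l325, l5269, l433, l11048, l11379, o1941, l9109, l8902, l2586, l2578] l11380 := rupP (by decide +kernel)
theorem r11381 : PImp [o2393, l5518, l2707, l4606, o9147, o358] l11381 := rupP (by decide +kernel)
theorem r11382 : PImp [l3927, o1160, l10914, l11381] l11382 := rupP (by decide +kernel)
theorem r11383 : PImp [l11305, l494, l490, l3927, l3144, l3435, l5035, o1132, o1160, l11380, l11382, o1975, l8726, l8905, l4083] l11383 := rupP (by decide +kernel)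
theorem r11384 : PImp [l10395, o1941, l7935, o8550] l11384 := rupP (by decide +kernel)
theorem r11385 : PImp [l11305, l3435, l5035, l3318, l3319, l11049, l4082, l4083, l6007, l2707, l2708, l11384, o2393, l10167, o9122] l11385 := rupP (by decide +kernel)
theorem r11386 : PImp [o1975, l8905, l4083, l2586, l2578] l11386 := rupP (by decide +kernel)
theorem r11387 : PImp [l10974, l5269, l10995, l10454, l10978, l11041] l11387 := rupP (by decide +kernel)
theorem r11388 : PImp [l10974, l5269, l1210, l1209, l11387, l5034, l10736, l10751, l10799, l11279, o2442, l4060, o2493, l3308, o6034, o3895, o3947, l5050, l4047, l4995] l11388 := rupP (by decide +kernel)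
theorem r11389 : PImp [l10785, l10800] l11389 := rupP (by decide +kernel)
theorem r11390 : PImp [l10974, l5269, l10995, l10454, l11012, l11041] l11390 := rupP (by decide +kernel)
theorem r11391 : PImp [l10393, o1132, l7703, l1210, l5035, l5269, l11388, l11390, l4502, l10785, l10799, l11389, o102, l3308, o4496, o1643, o1647, l1073, o2540, o6034, o2568, o4035, o4010, l8265, o6312, o1528] l11391 := rupP (by decide +kernel)
theorem r11392 : PImp [l1210, l1209, l11167, l5034, l10736, l10799, l10756, l3308, l4060, o2493, l1073, o6034, l8986, o3947, o3895, l4995, l5050, l4047] l11392 := rupP (by decide +kernel)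
theorem r11393 : PImp [l10393, o2393, l7703, l1210, l1209, l480, l485, l11270, l8603, l7707, l3473, l5989, l5925, l2668, l2992, l3012, l10397, l3000, l2996, l5035, l11392, l1412, o4726, o4258, l7840, l4888, l4896, l8248, l4502, l10736, l10751, o123, o120, o853, l9759, o2557, o2563, o927, l3303, l4055, o1748, o4036, o4033, o4028, o6251, o6249, o1594, o1765, l5808] l11393 := rupP (by decide +kernel)
theorem r11394 : PImp [l10393, l7703, l1210, l5035, l11167, l4502, l10785, l10799, l11389, o102, l3308, o4496, o1643, o1647, l1073, o6034, o2540, o2568, o4035, o4010, l8265, o6312, o1528] l11394 := rupP (by decide +kernel)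
theorem r11395 : PImp [l3303, l9961, o1748, o2557, o2563, o2569, l4055, o4036, o4033, o4028, o6251, o6249, o1594, o1765, o6295, o6280] l11395 := rupP (by decide +kernel)
theorem r11396 : PImp [l1412, l7840, l7703, l1210, l1209, l3000, l2996, l5035, l5034, l4502, l10785, o123, o120, o853, o927, l11395, l3308, l7120, l9759, l1073, o3956, o2449, l3095, l4995, l4049] l11396 := rupP (by decide +kernel)
theorem r11397 : PImp [l10393, l11270, l5925, l8603, l10397, o1939, l11305, l494, l490, l3927, l3144, o1969, o2370, o5449, o351, l5035, o305, o800, l5989, o3479, o8659, o8609, l11378, o4574, o5730, l7703, l3008, l3026, o4532, l4873, l4872, l1210, l1209, o4539, o1159, o1152, o1575, o1559, o1147, o1115, o9018, l3000, l8731, l4841, l480, l485, l7707, l3473, l3137, l2668, l2992, l3032, l3012, l3435, l3431, o352, o340, l11385, o1132, o1160, l11383, l11386, o2393, l5518, l10914, l2707, l2708, o5825, o9147, l4771, o9136, o358, o801, o8920, l4609, l7491, o8510, o8579, o6768, o8629, l11391, l11393, l11394, l1412, o4726, l7840, l4888, l4896, l11396, l8103, l8043, l7781, l4534, l4533] l11397 := rupP (by decide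 +kernel)
theorem r11398 : PImp [l10393, o1939, l11305, l494, l490, l3927, l11270, l10397, l3144, o1969, o2370, o5449, l8603, o351, l5035, l5925, o305, o800, l5989, o3479, o8659, o8609, l7703, l3000, l8731, l4841, l480, l485, l7707, l3473, l3137, l1209, l1210, l11378, o4574, l11397, l1137, l4775, o4405, l501, o5825, l11048, o1160, l11050, l5519, l10167] l11398 := rupP (by decide +kernel)
theorem r11399 : PImp [l429, l433, l5269, l7703, l3008, l325, l5035, o5513, o5101, l9222, l8215, l8214] l11399 := rupP (by decide +kernel)
theorem r11400 : PImp [l10394, l10393, o1159, l3927, o1152, o1575, l11270, l8603, o1939, l11305, l494, l490, l10397, l3144, o1969, o2370, o351, l5035, l5925, o305, o800, o5449, l5989, o3479, o8659, o1559, o1147, o1115, o9018, o1582, o8609, l7703, l3000, l8731, l4841, o2364, l480, l485, l7707, l3473, l3137, l2668, l3011, l3435, l3431, o5451, l429, o4898, o4705, l1145, l1146, l433, l3006, l3007, l501, l3835, l755, l1412, l5269, l4771, l4775, l5238, l8235, l8893, l8728, l3319, l8730, o1975, l11399, l7935, l2584, l2576] l11400 := rupP (by decide +kernel)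
theorem r11401 : PImp [l3927, l7703, l3008, l325, l5035, o1160, l11386, o2393, l10914, l9776, o358, l2574, o9147, l2707] l11401 := rupP (by decide +kernel)
theorem r11402 : PImp [l10395, o1941, l8634, l4082, l11384, o8821] l11402 := rupP (by decide +kernel)
theorem r11403 : PImp [l10393, o1939, l11305, l494, l490, l3927, l11270, l10397, l3144, o1969, o2370, o351, l5035, l5925, o305, o800, l3137, l8603, l5989, l3435, o5449, l7703, l3000, l3008, l3026, l8731, o3479, l4841, o8659, o8609, o9018, l11400, l424, o4532, l1209, l1210, l11378, l11398, o4572, l4873, o5730, l11401, l3318, l3319, l11402, o2393, l5519, l2707, l10167, o9122, o5825, l4083, l4775, l7971] l11403 := rupP (by decide +kernel)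
theorem r11404 : PImp [o3564, o3563, o8817, o8799, o8801] l11404 := rupP (by decide +kernel)
theorem r11405 : PImp [l10393, l11305, l494, l490, o5452, o5450, o351, l7703, l3000, l480, l485, l11270, o1159, l3927, l5035, o1939, l5989, l5925, l8603, l10397, o1152, o305, l7707, l3144, o1569, o1575, o799, o1969, o2363, o2367, l11404, l8731, l11403, l4838] l11405 := rupP (by decide +kernel)
theorem r11406 : PImp [l10393, l480, l485, l11270, l11305, l3431, l11405, l4224, l8647, l390, l2846] l11406 := rupP (by decide +kernel)
theorem r11407 : PImp [l1697, o7981, o7941] l11407 := rupP (by decide +kernel)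
theorem r11408 : PImp [l11275, l5873, l5751, o4439, o4438, o4738, l10749] l11408 := rupP (by decide +kernel)
theorem r11409 : PImp [l3933, o1116, o1117, o297, o727, o699, o691, o695, o690, o290, o295, l5041, l11408, l10447, o5245, o5272, o4441, l10574] l11409 := rupP (by decide +kernel)
theorem r11410 : PImp [o7981, o7895] l11410 := rupP (by decide +kernel)
theorem r11411 : PImp [o7842, o8652] l11411 := rupP (by decide +kernel)
theorem r11412 : PImp [o4622, o4621, l11411, o1454, o1461, o7981, l11410, o2269, l8399] l11412 := rupP (by decide +kernel)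
theorem r11413 : PImp [o3414, l9048, l4923, o4655, o7981, o8698] l11413 := rupP (by decide +kernel)
theorem r11414 : PImp [o272, o3397, l3933, l5667, l3930, o1109, o1110, o1143, o1144, l10825, l3932, o271, o273, o7694, l5189, l3586, o731, o4927, o4432, o1911, l6571, o2323, o3449, o3535, o8206, o5659, o5662, l10618, l11410, o7981, o3406, o3658, o3694, o7894, l3565, o8207, o2245, o268, o5623, l1495, o7841] l11414 := rupP (by decide +kernel)
theorem r11415 : PImp [l10393, l10395, o3556, o1152, o1939, o8798, o9088, o8503, o3464, o688, o272, l11414, l3234, o1927, o1928, l3228, l11158, o3414, l2322, l9048, l3894, o1090, o4629, o8652] l11415 := rupP (by decide +kernel)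
theorem r11416 : PImp [l10393, o3556, o1152, o1939, o299, o8798, o9088, o3490, o2367, o302, o3478, l10818, l3933, o303, o297, l3008, l325, l2983, l3018, o2845, l2985, o3418, l11415, o699, o725, o690, o290, l10590, o295, o5284, o5277, o5278, l5041, l11318, l3234, l2458, l3601, l4581, l3229, l3893] l11416 := rupP (by decide +kernel)
theorem r11417 : PImp [l10393, o3556, o1152, o1939, o299, o8798, o8503, l1210, l2993, o6795, o4784, o4787, o4803, l4195, o5345, o1969, o2367, o302, o3478, o4503, l10818, o1117, l3933, l4198, l4191, l1209, o3464, o297, l2992, l11416, l2859, o3437, o3439, o3525, o3434, o3435, o3436, o3438, l376, l11409, o688, o694, o272, l11412, o4439, o4437, o4438, o4433, l8341, o290, o706, l10468, l2494, l3930, o1109, l10825, l3932, l3616, o2716, o2715, l9048, l8000, l4934, l11410, o4643] l11417 := rupP (by decide +kernel)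
theorem r11418 : PImp [l5667, l3930, o1109, l3932, l11413, l4949, l11170, o4633] l11418 := rupP (by decide +kernel)
theorem r11419 : PImp [l10395, l3234, l3228, o1928, o3414, l2322, l9048, l3894, o1090, o4629, o8652] l11419 := rupP (by decide +kernel)
theorem r11420 : PImp [l10395, o688, o272, l11418, o1927, l11419, l6715, o8110, o7766] l11420 := rupP (by decide +kernel)
theorem r11421 : PImp [o297, l3008, l325, l2983, l3018, o2845, l2985, o3418, l11420, o699, o725, o690, o290, l10590, o295, o5284, o5278, l5041, l11318, l3234, l3601, l3229, l3893] l11421 := rupP (by decide +kernel)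
theorem r11422 : PImp [l10393, l1137, l10508, o253, o254, o256, o3556, l3927, o1152, o1939, o299, o8798, o9088, o8503, l1210, l2993, o6795, l3430, l3422, o301, o1969, o2364, o2367, o302, o3478, o4503, l10818, o1117, l3933, o1124, o1565, l6253, o4784, o4787, o4803, l4195, o5345, l8893, l4198, l4191, l490, l1209, l498, l503, l3443, o3464, o1159, o1575, o303, o297, l2992, l11417, l11322, l11421, l2859, o3437, o3439, o3525, o3434, o3435, o3436, o3438, l376, l11409, o688, o694, o272, l11412, o4439, o4437, o4438, o4433, l8341, o290, o706, l10468, l2494, l3930, o1109, l3932, l11413, l9048, l4925, l4917] l11422 := rupP (by decide +kernel)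
theorem r11423 : PImp [o3414, o3689, l9048, o1911, o8206, o5662, o7981, o8698] l11423 := rupP (by decide +kernel)
theorem r11424 : PImp [l5667, l3930, o1109, o1144, l10825, l3932, o273, l11423, l6715, l11170, o8064] l11424 := rupP (by decide +kernel)
theorem r11425 : PImp [l10395, o688, o272, l11424, o1927, l11419, l11158] l11425 := rupP (by decide +kernel)
theorem r11426 : PImp [l10393, l10395, o1152, o1939, l11270, l5925, o299, o8798, o9088, o8503, l3933, l480, l485, l8603, l7707, l3473, l5989, o3464, o297, l10397, l3008, l325, l3017, l3018, o2845, l2984, l2985, l11425, o699, o690, o290, o295, l5041, l11203, l3234, o1927, l3228, l11340, o5247, o4643, l3586, l3885] l11426 := rupP (by decide +kernel)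
theorem r11427 : PImp [o688, o694, o272, l11412, o4439, o4437, o4438, o4433, l8341, l8343, l2494, l3930, l10825, l3932, l3616, o2715, l4934, l4927] l11427 := rupP (by decide +kernel)
theorem r11428 : PImp [o2719, l1510, l8005, l3930] l11428 := rupP (by decide +kernel)
theorem r11429 : PImp [l11428, o2712, l11250, l5873, l5751, o4439, o4438, o4738, l10749] l11429 := rupP (by decide +kernel)
theorem r11430 : PImp [l10393, l480, l485, l11270, l8603, l7707, o3556, o1152, o1939, l5925, o299, o8798, o8503, l1210, l2993, o6795, o4784, o4787, l4195, o5345, l3933, o1116, o1117, l4198, l4191, l1209, l3473, l5989, o3464, o297, l2992, l10397, l11426, o3437, o3439, o3525, o3434, o3435, o3436, o3438, l11427, o727, o699, o691, o695, o690, o290, o295, l5041, l11429, l10447, o5245, o5272, o4441, l10574] l11430 := rupP (by decide +kernel)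
theorem r11431 : PImp [l3008, l325, l3018, o2845, l2985, l11420] l11431 := rupP (by decide +kernel)
theorem r11432 : PImp [l3930, o1109, l3932, l11413, l3599, l4925, l4917] l11432 := rupP (by decide +kernel)
theorem r11433 : PImp [l1209, o3464, o688, o694, o272, l11431, o3439, o3436, o3438, l11412, o4439, o4437, o4433, l8341, l11432, l8343, l2494] l11433 := rupP (by decide +kernel)
theorem r11434 : PImp [l10393, l10395, l5041, l11270, l5925, o297, o699, o290, l480, l485, l8603, l7707, l3473, l3008, l325, l3017, o2845, l2984, l11203, l3234, o1927, l3228, l11333, o5247, o4643, l3586, l3885] l11434 := rupP (by decide +kernel)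
theorem r11435 : PImp [l10393, l10395, l5989, o3478, l3430, o4900, l1210, l2993, l3927, o6795, o4312, l5178, l11270, l5925, o301, o1939, o1969, o2364, o2367, l8603, o302, l498, l503, o4883, o4503, l10818, o1117, l3933, o1124, o1565, l8893, o3782, l480, l3008, l3031, l3422, l6253, o5375, l8249, l4438, o1152, o299, l485, l7707, o3556, o1159, o1569, o300, o2363, l2814, o3796, o8799, o8798, o5756, o8770, o4906, l4969, o8917, l10508, o253, o255, o256, o250, o4980, o9088, o8503, o4998, o5806, o4784, o4787, o4803, l4195, o5345, o1116, l1021, l785, l4198, l4191, l4968, l1209, l3443, o4912, l3473, o3464, o1575, o297, l2992, l10397, l11422, l11357, l1247, l11430, l11433, o699, o691, o690, o290, o295, l5041, l11434, o3437, o3439, o3434, o3435, o3436, o3438, l11429, o1927, l10447, l11333, o5243] l11435 := rupP (by decide +kernel)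
theorem r11436 : PImp [l6707, l10372, l3099, l2592, l6558, l5715, o124, o4036, o2569, o6252] l11436 := rupP (by decide +kernel)
theorem r11437 : PImp [l10898, l2539] l11437 := rupP (by decide +kernel)
theorem r11438 : PImp [l5178, l10801, o876, l5034, l4526, l1021, l785, l1210, l1209, l10751, l11279, l3303, l4055, l11436, l6261, l11437] l11438 := rupP (by decide +kernel)
theorem r11439 : PImp [l10393, l11406, l5035, l7703, l3000, l11270, l5989, l8731, l4838, l3430, l5925, o305, l4841, l3008, l3025, l3927, o4900, l1210, l4195, l4191, l3794, l2993, o6795, o4312, l2748, o4325, l2998, l2749, l4850, l498, l503, o4883, o4503, l4767, l4779, o4983, l3422, o301, o1939, o1969, o2364, o2367, l8603, o302, o3478, l10818, o1117, l3933, o1124, o1565, l6253, o5782, l2747, o1152, o299, l480, l485, l7707, o3556, o1159, o1569, o300, o2363, l2814, l5178, l8893, o3796, o8799, o8798, o4947, o4906, l4969, o8917, l10508, o257, l11435, l11360, o4912, l10397, l2668, o8503, l1021, l785, l3443, l11167, o9088, l3031, o5375, l8249, o3490, o3782, o4998, o5806, o4784, o4803, l4198, l4968, l1209, l3473, o3464, o297, l2992,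 l325, l3018, o2845, l11425, l11438, l11341, o5814, o5724, l10164, l6558, l6707] l11439 := rupP (by decide +kernel)
theorem r11440 : PImp [l10393, l5989, l480, l485, l11270, l8603, l7707, o3464, l5925, l2668, l10397, o3434, o3435, o3436, o3438, l11028] l11440 := rupP (by decide +kernel)
theorem r11441 : PImp [l10393, l11406, l5035, l7703, l3000, l11270, l5989, l8731, l4838, l3430, l5925, o305, l4841, l3008, l3025, l3927, o4900, l1210, l4195, l4191, l3794, l2993, o6795, o4312, l2748, o4325, l2998, l2749, l4850, l498, l503, o4883, o4503, l4767, l4779, o4983, l3422, o301, o1939, o1969, o2364, o2367, l8603, o302, o3478, l10818, o1117, l3933, o1124, o1565, l6253, o5782, l2747, o1152, o299, l480, l485, l7707, o3556, o1159, o1569, o300, o2363, l2814, l5178, l8893, o3796, o8799, o8798, o4947, o4906, l4969, o8917, l10508, o257, l11435, l11360, l3473, l4968, o4912, l10397, l2668, o8503, l1021, l785, l3443, l11167, l10801, o876, l5034, l4526, o253, o254, o256, o5756, o9088, l3031, o5375, l8249, l4438, o3782, o4998, o5806, o4787, o4803, o5345, o5358, l4198, l490, l1209, o297, l325, l11440, l3018, o2845,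 l2984, l11439, l11358, l11322, l1138, l10751, l11279, l3303, l4055, l11436, l10164, l6261, o5814, o5017, l2539, l10876] l11441 := rupP (by decide +kernel)
theorem r11442 : PImp [l10202, l6707] l11442 := rupP (by decide +kernel)
theorem r11443 : PImp [l7703, l3008, l325, o5814, o5724, l10164, l6558, l11442] l11443 := rupP (by decide +kernel)
theorem r11444 : PImp [l10393, l11270, l5989, l8731, l3927, o1152, l11406, l5925, o299, l480, l485, l8603, l7707, o3556, o1939, o1159, o1569, o300, o1969, o2363, l7703, l5035, l3000, l4838, l3430, o4900, l1210, l2993, o6795, l3008, l3025, l4195, l4191, l3794, o4983, l3422, o301, o2364, o2367, o302, o3478, l498, l503, o4883, o4503, l10818, o1117, l3933, o1124, o1565, l6253, o5782, l2814, o4312, l5178, l8893, o3796, o8799, o8798, o4980, l3443, o4906, l4968, l4198, l2998, l2749, l4850, o4803, o4998, o5806, o8503, o305, l4841, l2748, o4325, l4767, l4779, l2747, o4947, l4969, o8917, l10508, o257, l11435, l11360, l11443, o4848, l3031, o5375, l8249, l4438, o3490, o3782, o5345, l1021, l785, l490, l1209, l3473, o297, l2992, l10397, l325, l11441, o699, o290, l11341,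 l10824, l3017, o2845, o3418, l11014] l11444 := rupP (by decide +kernel)
theorem r11445 : PImp [l11353, l11359] l11445 := rupP (by decide +kernel)
theorem r11446 : PImp [l10393, l7703, l11406, l5035, l11270, l5925, o305, l5989, l8731, l3000, l4841, l4838, l3008, l3025, l3927, l3430, o4900, l1210, l4195, l4191, l3794, l2993, o6795, o4312, l2748, o4325, l2998, l2749, l4850, l498, l503, o4883, o4503, l4767, l4779, o4983, l3422, o301, o1939, o1969, o2364, o2367, l8603, o302, o3478, l10818, o1117, l3933, o1124, o1565, l6253, o5782, l2747, o1152, o299, l480, l485, l7707, o3556, o1159, o1569, o300, o2363, l2814, l5178, l8893, o3796, o8799, o8798, o4947, o4906, l4969, o8917, l10508, o257, l11435, o253, o255, o256, o250, o4980, o5756, o9088, o8503, l3031, o5375, l8249, l4438, o3782, o4998, o5806, o4787, o4803, o5345, o5358, o1116, l1021, l785, l4198, l4968, l1209, l3443, l3473, o3464, o1575, l2668, o297, l2992, l10397, l11360, l11443, l11444, l11357, l10413, l11445, o3437, o3439, o3525, o3434, o3435, o3436, o3438, l11440, o727, o699, o691, o695, o690, o290, o295, l10854, l11071, l11354] l11446 := rupP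 (by decide +kernel)
theorem r11447 : PImp [l11209, l4595, l2580] l11447 := rupP (by decide +kernel)
theorem r11448 : PImp [l10393, l11270, l5989, l8731, l11406, l5035, l7703, l3000, l4838, l3430, l498, l503, o4883, o4906, l4969, o4900, l1210, l1209, l3422, l4841, o3478, l2814, l480, l485, l8603, l7707, l3473, o3556, o1159, l3927, o1152, o1569, l5925, o302, o300, o299, o301, o305, l2998, l2993, l3008, l3025, l325, o1939, o1969, l4195, o6795, o2363, o2364, o2367, l4191, o4312, o4503, l3794, l2747, l2748, l2749, l5178, l10818, o4325, o4983, l4850, l3933, o1117, l4767, l4779, o1124, o1565, l6253, l8893, o5782, o3796, o8799, o8917, o8798, l10508, o8503, o4947, o257, l11435, l11446, o5826, o4574, l11210, o2393, l11447, l5519, l5525, l2574, l9776] l11448 := rupP (by decide +kernel)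
theorem r11449 : PImp [l10393, l5989, l11406, l7703, l3000, l3008, l3026, l3025, l11270, l5035, l8731, l4838, l3430, o4906, l11448, l3216, l4871, o4536, l5796, l4784, l3793] l11449 := rupP (by decide +kernel)
theorem r11450 : PImp [l2260, o8506, o8504] l11450 := rupP (by decide +kernel)
theorem r11451 : PImp [l10394, l10393, o302, o300, l3008, l3031, l2993, o1939, o1969, l4195, o6795, o2363, o2367, l490, l4198, o4312, o4998, o4503, l5178, l11450, o5355, o5385, o8801, l3532, l8249, l5651, l3512] l11451 := rupP (by decide +kernel)
theorem r11452 : PImp [l10393, l485, l7707, o3563, o3564, o1159, l3927, o1152, o1575, o1569, l7703, l3008, l3026, l3025, l5035, l3430, l3378, l11298, l503, l11301, l1210, o4883, o4903, l11451, l3216, l4871, o4536, l5796, l4784, l3793] l11452 := rupP (by decide +kernel)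
theorem r11453 : PImp [l10395, l10393, o1939, o1935, o2382, o2363] l11453 := rupP (by decide +kernel)
theorem r11454 : PImp [l10393, l11406, l11270, l480, l7703, l3430, l498, l11298, l1209, l10396, l6133, l2846, l2843] l11454 := rupP (by decide +kernel)
theorem r11455 : PImp [l10393, l11270, l5035, l4834, l8731, l8671] l11455 := rupP (by decide +kernel)
theorem r11456 : PImp [l11406, l7703, l3000, l3008, l3026, l3025, l5035, l11449, l11455, l4838, l3430, l11454, o4906, l3216, l4871, o4536, l5796, l4784, l3793] l11456 := rupP (by decide +kernel)
theorem r11457 : PImp [l10393, l11456, l11406, l7703, l3000, l480, l485, l11270, o1159, l3927, l11453, o1939, l5989, l5925, l8603, o1152, o299, o300, l7707, l11452, o1569, o3556, o3564, l11294, o5488, o5489, o8799, o8798] l11457 := rupP (by decide +kernel)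
theorem r11458 : PImp [l10393, l10394, l11270, l7703, l5035, l4838, l11294, l4834, o5465, o4557, l8671, o4839, l1145, l3012, l3826] l11458 := rupP (by decide +kernel)
theorem r11459 : PImp [l7703, l3008, l5035, l3025, l3026, l3000, l11406, l11456, l11457, l11458, l3378, l11454, l11301, o4904, l3216, l4871, o4536, l5796, l4784, l3793] l11459 := rupP (by decide +kernel)
theorem r11460 : PImp [l10393, l480, l485, l11270, l8603, l7707, l5035, l5925, o305, l7703, l5989, l2992, o3468, o3467, o1152, l11453, o1939, o340, o351, l2534, o799, o5444, o8679, l4896, l11223, o4721, l4438, l1210, o771, l3444, o8656, o5452] l11460 := rupP (by decide +kernel)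
theorem r11461 : PImp [o301, o300, o302, o8656, o8350, l1594, l34, o5791, o5782] l11461 := rupP (by decide +kernel)
theorem r11462 : PImp [l7703, l5035, l4838, l4967, l4836, o4909, l3351] l11462 := rupP (by decide +kernel)
theorem r11463 : PImp [l10393, l5989, o3470, o3469, o3468, l11270, l8603, l5925, l2820, l404, l11455, l11462, l11453, o1939, o1969, l11460, o2364, o2367, l11461] l11463 := rupP (by decide +kernel)
theorem r11464 : PImp [l10393, l11459, l2820, l11455, l11270, o1159, l3927, l7703, o1939, l5989, l8603, o1152, o3467, o1569, l11463, l3216, l8615, l4770, o340, l501, o4898, o4904, l1210, l4969, l3444, o8374, l494, o8679, l3136] l11464 := rupP (by decide +kernel)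
theorem r11465 : PImp [l10393, l10394, l3935, l2843, l4632, l5208] l11465 := rupP (by decide +kernel)
theorem r11466 : PImp [l10395, l10393, l7703, l480, l11270, l485, l11459, l2820, l404, l11455, l11462, l11464, l3935, l11465, l6133, l5603, l5437, l4224, l2846, l4241] l11466 := rupP (by decide +kernel)
theorem r11467 : PImp [o4574, l7703, l2998, l5035, l11305, o4546, l4850, l1210, l1209, l3927, l501, o5825, l11048, o1160, l11050, l5519, l10167] l11467 := rupP (by decide +kernel)
theorem r11468 : PImp [l11305, l3435, l11466, l11371, l5035, o5168, o5728, o5193, l3384, l11401, l3318, l3319, l11049, l11402, l4083, l2619, o2393, l2707, l10167, o9122] l11468 := rupP (by decide +kernel)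
theorem r11469 : PImp [o2393, l5519, l8144, l2707, o9122] l11469 := rupP (by decide +kernel)
theorem r11470 : PImp [l10393, l10394, l11305, l3435, l11466, l11371, l6818, l5035, l4775, l11468, l483, o5391, l4664, l3384, l11401, l3319, l11049, l4083, l11469, l7935, o6731, o6478] l11470 := rupP (by decide +kernel)
theorem r11471 : PImp [l10393, o3573, o3793, o3489, l7703, l2998, l5035, l11305, o4546, l4850, o4540, l1210, l1209, o340, l3927, l11466, l11371, o1152, o1939, l1127, o8905, l11378, o4574, l11470, o4889, l11467] l11471 := rupP (by decide +kernel)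
theorem r11472 : PImp [l10393, l10395, l7703, l3008, l3032, l11466, l11371, o4472, l4908, l1210, l2674, o340, l11305, l6818, l3933, l3927, l325, o5513, l11378, l11374, o5407, l11214, o1132, o1160, l10402, l8366] l11472 := rupP (by decide +kernel)
theorem r11473 : PImp [l4498, o245, o335, o621] l11473 := rupP (by decide +kernel)
theorem r11474 : PImp [l7703, l3008, l8318, l10924, l5102, l3236, l10499, l3238, l3015, l8923] l11474 := rupP (by decide +kernel)
theorem r11475 : PImp [l2976, l5509, o4423, l2355, l2367, l4484] l11475 := rupP (by decide +kernel)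
theorem r11476 : PImp [l5098, l11368] l11476 := rupP (by decide +kernel)
theorem r11477 : PImp [l11370, l2422, l3924, l2347, l446, l2412] l11477 := rupP (by decide +kernel)
theorem r11478 : PImp [l7703, l11474, l11475, l11477, l11366, l5102, l10499] l11478 := rupP (by decide +kernel)
theorem r11479 : PImp [o7567, o7641] l11479 := rupP (by decide +kernel)
theorem r11480 : PImp [l7117, l6566, l9099, l8827] l11480 := rupP (by decide +kernel)
theorem r11481 : PImp [l11480, l8043, l8770, l9202, o2488] l11481 := rupP (by decide +kernel)
theorem r11482 : PImp [l1131, o7010, o6084] l11482 := rupP (by decide +kernel)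
theorem r11483 : PImp [o5957, o6219] l11483 := rupP (by decide +kernel)
theorem r11484 : PImp [l3193, l3653] l11484 := rupP (by decide +kernel)
theorem r11485 : PImp [l2882, l11484, l437, l3661, l4829, l4352] l11485 := rupP (by decide +kernel)
theorem r11486 : PImp [l2882, o4056, o4057, l8038, l3707, l3675, l1000] l11486 := rupP (by decide +kernel)
theorem r11487 : PImp [l3240, l8907, l4764, l3683, l3675] l11487 := rupP (by decide +kernel)
theorem r11488 : PImp [l2892, l11486, o4209, l11487, o313, o6989, o6967] l11488 := rupP (by decide +kernel)
theorem r11489 : PImp [l3240, o1629, l3241, o1670, l11488, o2812, l7111, l7942] l11489 := rupP (by decide +kernel)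
theorem r11490 : PImp [l3241, o4045, o4047, o4048, o4061, l4678, o6813, l4974, o1002, o3243, o6872] l11490 := rupP (by decide +kernel)
theorem r11491 : PImp [l7069, o183, l11485, l8907, l3241, o1808, l4764, o1628, o1658, o1098, o884, l11482, o2435, o2576, o2579, l11483, o1, l11490, o3885, o6039, o5999] l11491 := rupP (by decide +kernel)
theorem r11492 : PImp [l8500, l6071] l11492 := rupP (by decide +kernel)
theorem r11493 : PImp [o6191, l11491] l11493 := rupP (by decide +kernel)
theorem r11494 : PImp [l10393, l11106, o246, o4574, l7703, l3008, l325, l9776, o6456, o1132, l7840, o250, l5035, o257, l424, l418, l1210, l1209, l2992, l3012, o351, l2998, l11481, l4506, o73, l10801, l10751, l10813, l8090, o111, o96, o95, o24, l10807, l5068, o2559, o2538, o2542, o1643, o1609, o1647, l3303, o1734, l7770, o1748, o1528, o867, o6011, o1616, o1615, l5808, o4187, o4188, o4189, o6250, o4142, o4141, o4040, o4039, o4038, o4037, o932, o930, l4718, l4027, o6010, o4186, l11489, o1942, o1979, o2008, o1666, l11492, l2887, l2888, l2890, l7069, o183, o182, l11485, l8907, o388, l3241, o1808, l4764, o1815, o1986, o1985,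 o1098, o1180, o884, l11482, o2576, o2579, l11490, o4207, o4206, o4208, o7021, o6959, o385, o1192, o6987] l11494 := rupP (by decide +kernel)
theorem r11495 : PImp [l10393, l7703, l1210, l1209, l5035, l4502, l10801, l10751, o102, l10807, o2542, o1643, l5825, o1647, l7770, o4035, o1528, l5808] l11495 := rupP (by decide +kernel)
theorem r11496 : PImp [l424, l418, l1209, l3008, l325, l11480, l10731, l3308, l10796, l10789] l11496 := rupP (by decide +kernel)
theorem r11497 : PImp [o4574, l7703, l3008, l325, l9776, o6456, o1132, l7840, l2992, o340, l11494, l11496, l10813, l11495] l11497 := rupP (by decide +kernel)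
theorem r11498 : PImp [l10393, l7703, l1210, l1209, l5035, l4502, l10801, l10751, o102, o804, l10807, o2542, o2569, o1643, o1647, l7770, o1528, o6130, l5808] l11498 := rupP (by decide +kernel)
theorem r11499 : PImp [l7117, l1074, l7199] l11499 := rupP (by decide +kernel)
theorem r11500 : PImp [o4139, o4038, o4035, l8743] l11500 := rupP (by decide +kernel)
theorem r11501 : PImp [l7703, l10813, l11498] l11501 := rupP (by decide +kernel)
theorem r11502 : PImp [o1160, l5035, l7703, l1210, l11386, o2393, l3008, l325, o4574, l9776, l2574, l9435, o6456, o358, o1132, l7840, l424, l418, l2992, o340, l3000, l2767, l11497, l11501, o35, l11499, l3308, o1738, l10731, o869, l9099, l11500, l4070, o5817, l2789, o6260, o5875, o2548] l11502 := rupP (by decide +kernel)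
theorem r11503 : PImp [l10393, o4574, l7703, l3008, l325, l9776, o6456, o1132, l7840, l1210, l1209, l2992, l3012, o340, o351, l5035, o352, l2998, l5034, l4502, l10801, l10751, l10813, l4526, o102, o101, o122, l10807, l5068, l8778, o2559, o2538, o2542, l11495, o1643, o1647, l3303, o1609, o1734, l7770, o1748, o1528, o867, o6011, o1616, o1615, l5808, o4187, o4188, o4189, o6250, o4142, o4141, o4040, o4039, o4038, o4037, o932, o930, l11489, l4718, l4027, o6010, o1942, o1979, l8594, o4186, o2008, o1666, l2887, l2888, l2890, l7069, o183, o182, l11485, l8907, o388, l3241, o1808, l4764, o1815, o1986, o1985, o1098, o1180, o884, l11482, o2576, o2579, l11490, o4207, o4206, o4208, o7021, o6959, o385, o1192, o6987] l11503 := rupP (by decide +kernel)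
theorem r11504 : PImp [l7840, l424, l418, l7703, l1210, l1209, l3008, l325, l11497, o4251, l11503, l11480, l11481, l11499, l10232, l3308] l11504 := rupP (by decide +kernel)
theorem r11505 : PImp [l10395, l10393, l7703, l2998, l5035, l11305, o4546, l4850, l11472, o4574, l7840, o1970, l11466, l11371, l2674, l3008, l3032, o4472, l4909, l11106, l4908, l424, l418, o4492, l1210, l1209, l2673, l2992, o340, l3435, l3431, o1969, o3573, o1159, l3927, o1152, o1575, o1569, l6818, l3933, o1158, l325, o1132, o1160, l11386, l11048, o2393, l9776, o358, l2574, o6456, l9435, l11478, l4498, l11502, l11504, l11501, l11499, l3308, l3303, l9755, l8043, l10731, l10232, o4251] l11505 := rupP (by decide +kernel)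
theorem r11506 : PImp [o4045, o4047, o4061, l4678, o6863, l4974, o3243] l11506 := rupP (by decide +kernel)
theorem r11507 : PImp [l10393, l7703, l10807, o1643, l11049, o6478, l7840, l10751, o2569, l2998, o2559, o876, l5035, o352, l4502, o122, l2559, l2562, o351, l3008, l325, l5068, l7770, l3303, l9194, o1609, o6011, o1748, l3099, o4142, o4141, o4039, o4038, o4037, o4187, o4188, o4189, o1616, o1615, l8132, l11489, l4027, o6250, o1942, l11492, o932, o930, o2008, o1666, l2887, l2888, l2890, l7069, o6010, o182, l11485, l8907, o4186, o388, l3241, o1808, l4764, o1817, o1815, o1986, o1985, l3315, o1098, o1180, o884, l11482, o2576, l11483, o359, l11506, o4207, o4206, o4208, o7021, o6959, o385, o1192, o6987] l11507 := rupP (by decide +kernel)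
theorem r11508 : PImp [l10393, o1643, o876, l8155, o6034, o4219, l2774, o4035, o6312, l9189, o944, o2390, o6279] l11508 := rupP (by decide +kernel)
theorem r11509 : PImp [l10393, l7703, l1210, o4574, l11049, l2559, l2562, o1975, l7840, o5773, l1209, l2992, l3012, l5035, o352, l3000, l2996, l5034, l4502, l10801, l10751, l4526, o102, o101, o123, o120, o853, l10807, o876, o2501, o2557, o2563, o2538, o2542, o2442, o927, o1643, o1734, l11508, l5068, l11507, l9194, l3981, o4141] l11509 := rupP (by decide +kernel)
theorem r11510 : PImp [l7703, l1210, o4574, l11049, l7840, l424, l418, l1209, l3008, l325, l2559, l9771, l2562, l11509, l11480, l11481, l11496, l11499, o4258, o4251, l3308, l10232] l11510 := rupP (by decide +kernel)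
theorem r11511 : PImp [l9683, o6363, o6478] l11511 := rupP (by decide +kernel)
theorem r11512 : PImp [l10395, l10393, l7703, l2998, l5035, l11305, o4546, l4850, o3573, o1970, o1159, o351, l642, o5786, o9098, l11472, o4574, o1969, l3927, o1158, o352, l2814, o5773, o9021, o8956, o1939, o2367, o305, o799, o3478, l11466, l11371, o1152, o1575, o8994, l3008, l3032, o4472, l4909, l4908, l1210, l1209, l2674, l2673, o340, l3435, l3431, l6818, l3933, o1124, o1569, l325, l11505, l3319, l11049, l4083, l11469, l11510, l11511] l11512 := rupP (by decide +kernel)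
theorem r11513 : PImp [l10393, l3008, l325, l11480, l11499, l3954, l3308, o924, l10724, l7871] l11513 := rupP (by decide +kernel)
theorem r11514 : PImp [l7703, l1210, l5035, o1160, l11503, l11386] l11514 := rupP (by decide +kernel)
theorem r11515 : PImp [l10395, l10393, l7703, l3927, l11466, l11371, o1152, l11305, l3431, l3012, l2674, l1210, l424, l418, l3008, l3032, o4472, l4908, l4909, l11513, l2998, l5035, o4546, l4850, l11472, o4574, o1970, o4492, l1209, l2673, l3435, o1159, o1575, o1569, l6818, l3933, o1158, l11514, l3319, l11049, l9771, l4083, l11469] l11515 := rupP (by decide +kernel)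
theorem r11516 : PImp [l11305, l3435, l7703, l3008, l325, l5035, o1160, l11386, l8383, o2393, l9776, l9435, l2574] l11516 := rupP (by decide +kernel)
theorem r11517 : PImp [l10395, l10393, l10394, o1159, l3927, l11466, l11371, o1152, o1569, o351, l5035, o305, o799, l7703, l6818, l3008, l3031, l5412, l4438, o771, l11453, o8917, o8799, o3573, o3793, o3489, o3478, o3787, l2998, l11305, o4546, l4850, o1970, l3032, o4472, l4909, l1210, l1209, l2674, o297, o340, l494, l490, o352, o1939, o1969, o2367, l2814, l3933, o1116, o1575, l476, l472, o1158, l325, l11471, l642, o5741, o5786, o9074, o5773, o5461, o8525, o5458, o5369, o8994, o9098, o8956, o9021, l3500, l3505, o8522, l4663, l4664, l11472, o4574, l11470, l11512, l433, l3006, l3007, l11515, l11516, l3319, l11049, l4083, l11511, l11469] l11517 := rupP (by decide +kernel)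
theorem r11518 : PImp [l404, l3927, o1132, o1160, l10908, l11377, l4082, l11342, l10401, l4602] l11518 := rupP (by decide +kernel)
theorem r11519 : PImp [l10395, l10393, o3496, o3489, o351, l5035, o305, o799, l11466, l7703, l11371, l6818, l3008, l3031, l5412, l4438, o771, l2998, l11305, o4546, l4850, l3032, o4472, l4908, l1210, l3000, l4841, l404, o1159, l3927, o1152, o1569, l3933, l11453, o8799, l11517, l3351, l3374, o4903, o5196, o5402, o5193, l3491, l3473, l11467, o5513, o5407, l11518, l3319, l10909, l11054] l11519 := rupP (by decide +kernel)
theorem r11520 : PImp [o1098, l3716, o1183, o5052, o6988] l11520 := rupP (by decide +kernel)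
theorem r11521 : PImp [l2882, l2889, l11487, l339, l1000, o313, l4500, o386, l11520, l4338, l4334] l11521 := rupP (by decide +kernel)
theorem r11522 : PImp [l3240, o1629, l3241, o1668, l11521, o2812, l7111, l7942] l11522 := rupP (by decide +kernel)
theorem r11523 : PImp [l10395, l10393, o4574, l7703, l3008, l325, l9776, o6456, o1132, l7840, l1210, l1209, l2992, l3012, o340, l5035, o352, o1939, l5034, l4502, l10801, l10751, l10813, l4526, o102, o99, l10807, o2501, o2529, o2542, l11495, l8778, l8053, l5068, o1643, o1644, o1647, o2450, l3303, o1609, l7770, o1758, o1748, o1528, o867, o6011, o1616, o1615, l5808, o4142, o4040, o4039, o4038, o4037, o4035, l3969, l4718, l4027, o818, o2428, o2431, o825, o6009, l11522, o1913, o1914, o1942, o1979, l11492, o1666, l11493, o3253, l2886, l7069, o5936, o183, o180, l11485, l8907, l3241, o1808, l4764, o1628, o1658, o1098, o877, o884, l11482, o2435, o2576, o2579, l11483, l11490, o1, o4168, o4169, o7016, o7019, o181, o1532, o1097, o992, o878, o5999, o4042, o4060, l4974, o6872, o3243] l11523 := rupP (by decide +kernel)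
theorem r11524 : PImp [l5817, l4523, l4517] l11524 := rupP (by decide +kernel)
theorem r11525 : PImp [l7703, l3008, l325, o4574, l9776, l2574, l2591, l2582, l424, l418, l1210, l1209, l11523, l11480, l11524, l3308, l3303, l10724, l10234, o2489, o3958, l4710] l11525 := rupP (by decide +kernel)
theorem r11526 : PImp [l418, l325, o869, l7117, l9099, l3308, o1738, l11500, l4070, l9755, o5817, l2789, o6260, o5875, o2548] l11526 := rupP (by decide +kernel)
theorem r11527 : PImp [l7703, l3008, l325, o4574, l9776, l2574, l2582, o6456, l2591, o358, o5825, o1132, l7840, l424, l418, l1210, l1209, l2992, o340, l3000, l11525, l11501, o35, l11526, l11524, l3308, l3303, l10724, l10234, o2489, o3958, l4710] l11527 := rupP (by decide +kernel)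
theorem r11528 : PImp [l7840, o2478, l7069, l11493, o183, l11485, l8907, o5936, l3241, o1808, l4764, l3662, o1628, o1658, o1098, o877, l442, o4384, o4385, o884, l3642, l11482, o1002, o992, o2435, o2576, l11483, o878, l4678, o1, o5999, l4974, o4060, o3243, o6872] l11528 := rupP (by decide +kernel)
theorem r11529 : PImp [l3206, l3673] l11529 := rupP (by decide +kernel)
theorem r11530 : PImp [l2973, l6071, o4383, l11529, l1000, l3692, l4500, l3940] l11530 := rupP (by decide +kernel)
theorem r11531 : PImp [l10393, o4574, l7703, l3008, l325, l9776, o6456, o358, o5825, o1132, l7840, l1210, l1209, o340, l5035, o352, l5034, l4502, l10801, l10751, l11501, l10813, l4526, o102, l10807, o2501, o2542, l5068, l11495, l8778, l8053, o1643, o1647, l3303, l4062, o1609, l1139, l7770, o1748, o3906, o1528, o867, o1616, o1615, l4027, l5808, l11522, o2424, o2427, o4142, o4040, o4039, o4037, o1942, o1979, l3969, o1666, o818, o825, l11530, l2882, l2888, l7069, l11528, o183, l11485, l8907, o4409, l3241, o1808, l4764, l3662, o5032, o1815, o1985, o1133, l442, l3699, l3642, l4500, o173, o1002, o992, o314, o365, o1166,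 o6987, o4853, o5822, l4974, o6872, o3243] l11531 := rupP (by decide +kernel)
theorem r11532 : PImp [l418, l5817, o3940, o3934, o3959, l5823, l10234, l3303] l11532 := rupP (by decide +kernel)
theorem r11533 : PImp [l418, l11532, l3308, l3303, l10724, l10234, o2489, o3958, l4710] l11533 := rupP (by decide +kernel)
theorem r11534 : PImp [l418, l325, l11480, l11526] l11534 := rupP (by decide +kernel)
theorem r11535 : PImp [l5817, o3959, o3939, l4523, l10234, l9734, o2488] l11535 := rupP (by decide +kernel)
theorem r11536 : PImp [l7703, l3008, l325, o4574, l9776, l2574, l2591, l2582, l7840, l424, l418, l1210, l1209, l2992, l3000, l11527, l11531, o35, l11534, l11533, l2772, l11535, l3308, l3303, l10724, l10234, o2489, o3958, l4710] l11536 := rupP (by decide +kernel)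
theorem r11537 : PImp [l3240, o182, l8907, o388, l4764, l3675, o5060, o6959, o6976] l11537 := rupP (by decide +kernel)
theorem r11538 : PImp [o352, l2882, l2889, l2890, l339, l11537, l1000, o313, l4500, o386, l11520, l4338, l4334] l11538 := rupP (by decide +kernel)
theorem r11539 : PImp [l7703, l1210, l1209, o351, l3008, l325, l5035, l3240, o1629, l3241, o1668, o1669, l11538, o2812, l7111, l7877] l11539 := rupP (by decide +kernel)
theorem r11540 : PImp [l10393, l7840, o2478, o1609, o1615, o1616, o1647, o1643, o4574, l7703, l3008, l325, l9776, o6456, o1132, l1210, l7770, o1528, o867, l5808, o4142, o4141, o4040, o4039, o4037, o4035, l3969, l3981, o818, o825, l11539, o1942, o1979, l11492, o1666, l7069, l11493, o183, l11485, l8907, o5936, l3241, o1808, l4764, l3659, o1628, o1658, o1098, o877, l442, o4382, o884, l3642, l11482, o1002, o992, o2435, o2576, l11483, o878, l4678, o1, o5999, o4042, o4060, l4974, o6872, o3243] l11540 := rupP (by decide +kernel)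
theorem r11541 : PImp [l8155, o6034, o4217, o4035, o6309, l5808, o1530] l11541 := rupP (by decide +kernel)
theorem r11542 : PImp [l10393, l3303, o1647, o1643, l7703, l10801, o853, o927, l7840, l1209, l10751, o2442, l2996, o2557, o2501, l5035, o352, l4502, o120, l5034, l4526, o1132, o4574, l8185, l1210, o8542, o5750, l11541, l7770, o1528, o867, l5808, o4142, o4040, o4038, o4037, l3969, l4718, l4027, l5841, o2428, o2431, l11540] l11542 := rupP (by decide +kernel)
theorem r11543 : PImp [l10393, o1647, l7825, l8155, l7207, o4218, o1529, o6311] l11543 := rupP (by decide +kernel)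
theorem r11544 : PImp [l10393, l7703, l10801, o853, o927, o4574, l3008, l325, l9776, o6456, l1209, l7840, l10751, o2569, o2442, l2996, o2557, o358, l5035, l4502, o804, o352, o120, o1132, l8185, l1210, o1939, o1643, o1644, o1647, o1758, o1759, l11543, l3006, o8542, o5750, l11541, l5068, l7770, l3303, o1528, o1748, l5808, l11542, o6130] l11544 := rupP (by decide +kernel)
theorem r11545 : PImp [l7840, l3074, o1942, l11492, o1666, o1663, l7069, l11485, l8907, l3241, l4764, l3659, o1098, o877, l442, o4380, o4382, o4097, o884, l3642, l11482, o992, o2435, o2576, o2577, o878, l4678, l4681, o6200, o38, o173, o41] l11545 := rupP (by decide +kernel)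
theorem r11546 : PImp [o1969, o1761, o351, l7703, l3008, l325, l5035, l11545, l3240, o1816, l3241, o2011, o2010, l11538, o2812, l7111, l7877] l11546 := rupP (by decide +kernel)
theorem r11547 : PImp [l11492, l2890, l7069, o182, l11485, l8907, o388, l3241, o1808, l4764, o1815, o1986, l3691, o5060, o6959, o6976] l11547 := rupP (by decide +kernel)
theorem r11548 : PImp [o351, o1969, l7703, l3008, l325, l5035, l11546, l11547, l3240, o1816, l3241, o2011, o2010, l11538, o2812, l7875, l7877, l3680, l3672] l11548 := rupP (by decide +kernel)
theorem r11549 : PImp [o6987, l569] l11549 := rupP (by decide +kernel)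
theorem r11550 : PImp [l10393, l11371, l6818, l3933, l3677, o1098, o5054, o5056, o5044, o1180, o7021, o382, o385, o8335, o1181, l11549] l11550 := rupP (by decide +kernel)
theorem r11551 : PImp [o1942, l11492, o2005, o2008, l2884, l2887, l2888, l7069, l11550, l4764, l4828, l8907, l439, l3193] l11551 := rupP (by decide +kernel)
theorem r11552 : PImp [o351, l7703, l3008, l325, l5035, l3240, o1816, l3241, o2011, o2010, l11538, o2812, l7877, l7111, l7941, l3680, l3672] l11552 := rupP (by decide +kernel)
theorem r11553 : PImp [l10393, l11371, l6818, l3933, o1969, l2674, l11552, o351, l5035, o305, o799, l2673, o1939, l11548, l11551] l11553 := rupP (by decide +kernel)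
theorem r11554 : PImp [l3241, l8907, l3659, l442, o4375, o4097, l3642, l4688, o992, o173, o878, o40, o6200] l11554 := rupP (by decide +kernel)
theorem r11555 : PImp [l4978, l4976] l11555 := rupP (by decide +kernel)
theorem r11556 : PImp [l3721, l3717] l11556 := rupP (by decide +kernel)
theorem r11557 : PImp [l10393, l7840, l3074, o1969, o1761, o351, l5035, o305, o799, l11371, l2674, l2673, l6818, l3933, o1939, l11552, o1942, l11492, o2005, o2008, o1666, o1663, l2882, l2884, l2887, l2888, l7069, l339, l11553, l8495, o1098, o877, l11550, o884, l11556, o314, o57, l1131, o2435, o2576, o2578, l11555, l11554] l11557 := rupP (by decide +kernel)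
theorem r11558 : PImp [l10393, o1969, o1761, o305, o799, l11371, l2674, l2673, l6818, l3933, o1939, l11551, l11545, l11547] l11558 := rupP (by decide +kernel)
theorem r11559 : PImp [l3690, l3672] l11559 := rupP (by decide +kernel)
theorem r11560 : PImp [l10393, l11371, l2674, o351, o1969, l6818, l3933, l7703, l3008, l325, l5035, l11558, l3240, o1816, l3241, o2011, o2010, l11538, o2812, l7877, l11559, l8313, l7941] l11560 := rupP (by decide +kernel)
theorem r11561 : PImp [l10393, l7840, l3074, l11371, l6818, l3933, o1942, l11492, o2005, o2008, o1666, o1663, l2882, l2884, l2887, l2888, l7069, l339, l8495, o1098, o877, l11550, o884, l11556, o314, o57, l1131, o2435, o2576, o2578, l11554, l11555] l11561 := rupP (by decide +kernel)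
theorem r11562 : PImp [l10393, l11371, l6818, o1117, l3933, o1098, l3672, o1179, o5045, o6927, o8451] l11562 := rupP (by decide +kernel)
theorem r11563 : PImp [l10394, l10395, l10393, l7703, l3008, l325, o4574, l11371, l2674, l9776, l2574, l2591, l2582, l6818, l3031, l5412, l494, l490, o5457, l4664, l7840, l4663, l1210, l1209, o351, l5035, o305, o799, l2673, l2992, l3012, o1969, o1117, l3933, o1939, l5034, l4502, l10801, l10751, l4526, o102, o101, o99, o2501, o2529, o2538, o2542, o2442, l11544, l3308, o1738, l3975, o5964, l3303, l4059, o1761, o4078, l2789, l8702, o3917, o3909, o2478, l3074, o2427, l4009, l4017, l3956, o818, o825, l11557, l11560, l11561, l3240, o1816, l3241, o2011, o2010, l11538, o2812, l2868, l7877, o313, o384, l11562, l8313, l7941] l11563 := rupP (by decide +kernel)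
theorem r11564 : PImp [l10394, l10395, l10393, l7703, l3008, l325, o4574, l11371, l2674, l9776, l2574, l2582, o5825, l6818, l3031, l5412, l494, l490, o5457, l4664, l7840, l4663, l424, l418, l1210, l1209, l2673, l3000, o1152, l11563, o35, l11534, l11524, l3308, l3303, l10724, l10234, o2489, o3958, l4710] l11564 := rupP (by decide +kernel)
theorem r11565 : PImp [l10393, l7703, l10801, o853, o927, o358, l5035, l4502, o804, o352, o120, o6456, o2569, l7840, o2442, l2996, o2557, l3006, o1132, l1210, l1209, o1969, o1939, o1643, o1644, o1647, o1758, l11541, l7770, o1528, o867, l5808, o4035, o6130, l11552, o1979, l11530, l2882, l7069, l339, o183, l11485, l3241, o1808, l8907, o1628, o1658, l4764, l3659, o877, l11556, l442, o4382, o314, l3642, l4680, o56, o1002, o992, o2485, o878, o5999, o4042, o4060, l4974, o6872, o3243] l11565 := rupP (by decide +kernel)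
theorem r11566 : PImp [l7703, o2493, l5035, l5034, l4502, l10801, o102, o99, l11565, l3994, l3988] l11566 := rupP (by decide +kernel)
theorem r11567 : PImp [l7703, l3008, l3029, l7840, l424, l418, l1210, l1209, l2992, l3012, l325, o2529, o2542, l11566, l11533, l9099] l11567 := rupP (by decide +kernel)
theorem r11568 : PImp [l1209, l10801, l10751] l11568 := rupP (by decide +kernel)
theorem r11569 : PImp [l7703, l3008, l325, o4574, l9776, l2574, l2591, l2582, o5825, l8185, l7840, l1210, l1209, l424, l3000, l3029, o8542, o5750, l11567, l11568, o35, l11533, l11534] l11569 := rupP (by decide +kernel)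
theorem r11570 : PImp [o1644, l11543, o1759] l11570 := rupP (by decide +kernel)
theorem r11571 : PImp [l7703, l1210, l5035, l5034, l4502, l10801, o102, o101, o120, o804, o853, o927, l11570, l3994, l3988] l11571 := rupP (by decide +kernel)
theorem r11572 : PImp [l424, l418, l7703, l1210, l1209, l2992, l3012, l3008, l325, o2493, o2489, o2557, o2538, o2542, o2442, o2569, l11571, l9099, l9571, l11533, l8795, o4063] l11572 := rupP (by decide +kernel)
theorem r11573 : PImp [l10394, l10395, l10393, l3927, o1160, l11466, l11371, l6818, l3933, o1132, o4574, l7703, l3008, l3031, l5412, o3489, l11305, l494, l490, l11519, o5457, l4664, l7840, l4663, o351, l5035, o305, o799, l4438, o771, l11453, o1159, o1152, o1569, o9087, o8504, o3478, o3781, l2998, o4546, l4850, o1970, l3032, o4472, l4909, l4908, l424, l418, o4492, l1210, l1209, l2674, l2673, o340, l3000, l4841, l3435, l3431, o352, l404, l2996, o1575, o1117, l325, o1939, l10914, l9776, l9725, o5825, o358, l2574, l2582, l2591, o6456, l5727, l3357, l4771, l4775, l11401, l11536, l11564, l11569, l11572, o2463, o2449, l11568, o35, l11534, l4763, l11533, l10724,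 o4241, l2772, l8212] l11573 := rupP (by decide +kernel)
theorem r11574 : PImp [l10394, l10395, l10393, l11466, l11371, l6818, l7703, l3008, l3031, l5412, o3489, l11305, l494, l490, l11519, o5457, l4663, l2998, l5035, o4546, l4850, l1210, l3000, l4841, l3435, l404, l3927, l325, o1160, l11573, o1975, l11386, l3357, l3384, l9714, l9219] l11574 := rupP (by decide +kernel)
theorem r11575 : PImp [l3319, l7703, l2998, l5035, l11305, o4546, l4850, l1210, l1209, l11466, l11268, l11469, l501, l4083, l4775, l7971] l11575 := rupP (by decide +kernel)
theorem r11576 : PImp [l10393, o1643, o876, o340, o102, l5034, l4526, l8634, o6478, o6731, l2559, l2562, l11371, l6818, l3933, o1914, l11492, l11551, l2882, l2886, l7069, l8053, l5068, l7770, l339, o180, l11485, o2450, l3303, l9194, o1609, o867, o6011, l3241, o1808, l8907, o1657, o4142, o4141, o4040, o4039, o4038, o4037, o4035, o1817, o1628, o1658, l4764, o1612, l3969, l3981, l4718, l4027, l3315, o877, l11556, o818, o2431, o822, l4078, o314, l11482, o56, o2435, o2576, l11506, o4169, o7019, o1097, o992, o878, o5999, o4042, o4060, l4974, o6863, o3243] l11576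 := rupP (by decide +kernel)
theorem r11577 : PImp [l3240, o1816, l3241, o2010, l11521, o2812, l7877, l7111, l11559, l7941] l11577 := rupP (by decide +kernel)
theorem r11578 : PImp [l10393, l10395, l7703, l2992, o2542, o2501, o2493, o4574, l3008, l3032, l11371, o4472, l4908, l1210, o351, l5035, o305, o799, l2674, l2673, l5034, l4502, l10801, l8064, l11576] l11578 := rupP (by decide +kernel)
theorem r11579 : PImp [l10393, l7840, l424, l418, l11371, l2673, l7703, l3008, l325, o2442, l11578, l9099, l9571, l11524, o5950] l11579 := rupP (by decide +kernel)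
theorem r11580 : PImp [l10393, l10395, o4574, l8634, o6478, o6731, l2559, l2562, l7840, l7703, l3008, l3032, l11371, o4472, l4909, l4908, l424, l418, l1210, l1209, o351, l5035, o305, o799, l2674, l2673, o352, o1969, l6818, l3933, l325, o1939, l11577, l11551, l11579, l11568, l11480, l7814, l11524, l3308] l11580 := rupP (by decide +kernel)
theorem r11581 : PImp [l10393, l10395, o4574, l8634, o6478, o6731, l2559, l2562, l7703, l3008, l3032, l11371, o4472, l4909, l4908, l1210, l1209, o351, l5035, o305, o799, l2674, l2673, o1969, l6818, l3933, o1939, l11580, l11552, l11492, l11551, l2882, l2890, l7069, l339, o182, l11485, l8907, o388, l3241, o1808, l4764, l3659, o1817, o1815, o1986, l3315, o1098, l11556, l442, o1183, l4078, l3642, o992, o1167, o6976, o4852, o5821, l4974, o6863, o3243] l11581 := rupP (by decide +kernel)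
theorem r11582 : PImp [l4764, l4828, l8907, l3193, l439] l11582 := rupP (by decide +kernel)
theorem r11583 : PImp [l10393, l7703, l1210, l5035, o305, o799, l11371, l2674, l2673, l6818, l3933, o1939, o1942, l11530, o2005, o2008, l2882, l2884, l2887, l2888, l2890, l7069, l339, o182, o388, l11582, l3315, o1098, l11550, l11556, o1183, l11485, l4078, l3241, o1808, l8907, o1817, o1815, o1986, l3662, l442, l3642, o992, o1167, o8912, o4852, o5821, l4974, o6863, o3243] l11583 := rupP (by decide +kernel)
theorem r11584 : PImp [l5035, o352, l7703, l3008, l325, l11552, l11577] l11584 := rupP (by decide +kernel)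
theorem r11585 : PImp [l10394, l10395, l10393, o4574, l11466, l7703, l11371, l6818, l3008, l3031, l5412, o3489, l11305, l494, l490, l11519, o5457, l4664, l4663, o351, l5035, o305, o799, l4438, o771, l11453, o1159, l3927, o1152, o1569, o9087, o8504, o3496, l2998, o4546, l4850, o1970, l3032, o4472, l4909, l4908, l1210, l1209, l2674, l3000, l4841, l3435, l3431, o1969, o1575, l3933, l11574, l3319, l11575, o1975, l11050, l8634, l2559, l10205, l501, o5488, l3374, l2562, l9437, l4771, l4775, l3478, l3484, o6478, o6731, l11584, l3384, l11583, l11581] l11585 := rupP (by decide +kernel)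
theorem r11586 : PImp [l7703, l3000, l5035, l4841, l11305, l3435, l404, l3008, l325, o1160, l11516, l3357, l3384, o4903, l9725, l9769, l9219] l11586 := rupP (by decide +kernel)
theorem r11587 : PImp [l10394, l10395, l10393, l11466, l7703, l11371, l6818, l3008, l3031, l5412, o3489, l11305, l494, l490, l11519, o5457, l4664, l4663, l11453, o1159, l3927, o1152, o1569, o351, l5035, o305, o799, l4438, o771, o8504, o3496, l2998, o4546, l4850, l3032, o4472, l4909, l1210, l2674, l325, o4574, l11585, l6221, l11586, l11575, l8634, l11511] l11587 := rupP (by decide +kernel)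
theorem r11588 : PImp [l3927, o1160, o340, l7703, l3008, l325, l10402, l10908, l8366] l11588 := rupP (by decide +kernel)
theorem r11589 : PImp [l10393, l11466, o5407, l11305, o5513, l11371, l2674, l6818, l3933, l3927, l5035, o1132, o1160, l11588, o1975, l9932, l8377, l4083, l9898] l11589 := rupP (by decide +kernel)
theorem r11590 : PImp [l10393, l10395, l10394, l7703, l2998, l5035, l11305, o4546, l4850, l3008, l3032, l11466, l11371, o4472, l4908, l6818, l3031, l5412, l1210, l494, l490, o3489, l11519, o5457, l4663, l4664, l11587, o5513, l11589, l3319, l11374, l9222, l3374, l11268] l11590 := rupP (by decide +kernel)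
theorem r11591 : PImp [l10393, l10395, o351, l5035, o305, o799, l11466, l11371, l2674, l7703, l3008, l3031, o1159, l3927, o1152, o1569, l6818, l11453, l5412, l4438, o771, l11590, o8350, o8656] l11591 := rupP (by decide +kernel)
theorem r11592 : PImp [l10393, l7840, l3008, o2489, l8780, l8794, l8770] l11592 := rupP (by decide +kernel)
theorem r11593 : PImp [l7840, l8794, l10751] l11593 := rupP (by decide +kernel)
theorem r11594 : PImp [l10393, l3927, o1160, l4438, l8185, l2835, l390, l7703, l2996, o1152, l2707, l2591, o9147, l3491, l1127, l485, l642, o5756, o5775, l3500, o8994, o8832, o5005, l3764, l11592, l11593, l11499, l3308, l8870, l10724] l11594 := rupP (by decide +kernel)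
theorem r11595 : PImp [l10394, l10393, l3933, o1132, l5208, l390, l433, l1412, l7840, l5269, l7703, l3006, l2992, o1117, o1124, o1565, l3008, l5035, l3003, o3749, l2574, l2599, l4873, l4971, l4892, l8812, l8797, o6353, o4518, o4515, o4977, l3478, l3500, l8811, o8994, l8099, l11524, l8116, l8117, l3308] l11595 := rupP (by decide +kernel)
theorem r11596 : PImp [l10394, l3933, o1132, l5208, o3548, o3460, l2835, l433, l5269, l1412, l7703, l3007, l3006, l2992, l3008, l3026, o1159, l3927, o1152, o1575, o1117, l11595, l2582, l11594] l11596 := rupP (by decide +kernel)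
theorem r11597 : PImp [l10394, l10395, l10393, l3927, o1160, l7703, l11371, l6818, o1117, l3933, o1124, o1565, l8818, l4438, l433, l1412, l5208, o3460, l8185, l390, o351, l5035, o305, o800, o774, o799, l2674, l2673, o340, o358, o312, l11596, l3505, l485, o5333, l3491, o8373, o9147, l2574, l2707] l11597 := rupP (by decide +kernel)
theorem r11598 : PImp [l10393, l4082, l4083, o9057, o3838, l4606, l8724, l3505, o5728] l11598 := rupP (by decide +kernel)
theorem r11599 : PImp [l10394, l10393, l10395, o358, l5035, l11305, l3435, l7703, l3000, l4841, l3927, o1160, l11386, o2393, l11466, l11371, l6818, o1117, l3933, o1124, o1565, o1939, o1969, o2364, l3431, l8818, l4438, l433, l1412, l5727, l5208, o3460, l8185, o3549, l2835, o351, o305, o799, o771, o340, o2367, o1159, o1152, o1569, l11453, o8799, o8917, l11597, o8906, o8905, l2707, o5756, l2574, o8373] l11599 := rupP (by decide +kernel)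
theorem r11600 : PImp [l433, l5269, l1412, l3007, l3006, l3008, l325, l11593, l11481, l418, l421, l8789, l8117, l9663] l11600 := rupP (by decide +kernel)
theorem r11601 : PImp [l10393, l433, l1412, l7840, l5269, l7703, l3006, l3008, l11600, l1217, l3798, l421, o5820, l8793, l8794, l8085, l9202] l11601 := rupP (by decide +kernel)
theorem r11602 : PImp [l7117, l8870] l11602 := rupP (by decide +kernel)
theorem r11603 : PImp [l11602, l4763, l8085, l8117, l8842, l8118, l5051, l4547, o3876, l4530, o3869] l11603 := rupP (by decide +kernel)
theorem r11604 : PImp [l433, l1412, l7840, l5269, l7703, l3007, l3006, o2463, l3075, o2449, l11601, l11603, l8794, l8742] l11604 := rupP (by decide +kernel)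
theorem r11605 : PImp [l10393, l7703, o2493, l429, l433, l1412, l3006, l1145, l5035, l5034, l4502, l8794, l5068, l8787, o102, o804, l4059, o6456, l7827, o4069, l3988] l11605 := rupP (by decide +kernel)
theorem r11606 : PImp [l10395, l10394, l10393, l3927, o1160, l11466, l11371, l6818, l3933, o1132, l5035, l11591, o4897, l5727, l7703, o1117, o1124, o1565, o1939, o1969, o2364, l11305, l3431, l1146, o4898, l501, l4770, l4775, l8818, l5208, o3549, l390, o351, o305, o799, l4438, o771, l429, l433, l1412, l7840, l4771, l5269, l404, l3357, l3007, l3006, l1145, l2674, l2673, o3478, l2992, o340, l3000, l4841, l3435, l3008, l3025, o1159, o1152, o1569, l11453, l11386, o2393, l8383, l11598, o358, l11599, o4979, o8504, o9087, o5494, o5840, l4891, l4892, l3478, l3484, l2574, l2707, l9435, o9147, l11604, o2489, o2442, l11592, l11605, l8779, l8770] l11606 := rupP (by decide +kernel)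
theorem r11607 : PImp [l10394, l10393, o2393, l3933, o1132, l5208, o3549, o3548, l2835, l390, l4438, o771, l433, l1412, l7840, l5269, l3006, o1939, o2367, o2364, l11453, o8917, l2260, o5775, o8994, l1127, o8905, o9147, o6732, o3824, l2707, l2574, l2599, l8812, l8797, l3478, l3484, l3500, l3505, l8811, l8794, l11524, l8116, l8117, l3308] l11607 := rupP (by decide +kernel)
theorem r11608 : PImp [l10395, l10394, l10393, l501, o4533, o4526, o5005, o5003, o4327, l3927, o1160, l11466, l11371, l6818, l3933, o1132, l5035, l5727, l7703, o1117, o1124, o1565, o1939, o2364, l11305, l3431, l4770, l4775, l8818, l5208, o3549, l390, o351, o305, o800, l4438, o774, o799, o771, l433, l1412, l7840, l4771, l5269, l404, l3357, l3006, l2674, l2673, o3478, l2992, o340, l3435, o1159, o1152, o1575, o1569, l3008, l325, l11453, o2393, l8383, l11598, o5819, o358, o312, l11607, o4979, o8504, o9087, o5494, o5840, l4892, l3478, l3484, l2574, l2707, l9435, o9147, l8793, l4763, l8794, l7772, l407, l8795, l8830, l409, l316, o2496, l8117, l4992, l8842, l3308, l4515, l2786, l4547] l11608 := rupP (by decide +kernel)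
theorem r11609 : PImp [l10393, l10394, l11371, l6818, l8913, o5312, o5326, l8452] l11609 := rupP (by decide +kernel)
theorem r11610 : PImp [l10393, l11371, l6818, o1117, l8185, l2674, l3933, o1116, o730, o699, l2269, o690, l11352, o336, o295, l2859, o3437, o3439, o3434, o3435, o3436, o3438, l5041, l376, l11609, o1473, l9427, o1454, o1459, o1466, l2305, l7060, l8406, l2309, o7922, o8251, o5654] l11610 := rupP (by decide +kernel)
theorem r11611 : PImp [l10394, l10393, l10395, l11466, l11371, l7703, l6818, o1117, l3933, o1124, o1565, o1939, o2364, l8818, l5035, l5727, l5208, l3505, l3500, l2708, o1132, l4438, l1412, o3460, l8185, o3461, l390, o351, o305, o799, o771, l7840, l5269, l2674, l2673, o297, o340, o2367, o1116, o1159, l3927, o1152, o1575, o1569, l11453, o8799, o8917, l2260, o5775, o8994, l1127, o8905, l10528, l11610, o694, o714, l11123, l8910, l8915, o2339, l8922, l8919, l8318, l5102, l3236, o1899, l6954, l8918, l3238, o2229, o2399, o1077, o1079, l8431, l4965, l2766, o2708, o6507, o257, l10924, l8917] l11611 := rupP (by decide +kernel)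
theorem r11612 : PImp [l10393, l10395, l5041, l11371, l6818, l3933, l325, o3414, l2322, l11609, l9427, l1279, l3017, o2845, o1927, l11203] l11612 := rupP (by decide +kernel)
theorem r11613 : PImp [l4027, l4031] l11613 := rupP (by decide +kernel)
theorem r11614 : PImp [l9432, l10828, l9817] l11614 := rupP (by decide +kernel)
theorem r11615 : PImp [o1494, o7981, o7875, o2315] l11615 := rupP (by decide +kernel)
theorem r11616 : PImp [l1071, o8651] l11616 := rupP (by decide +kernel)
theorem r11617 : PImp [l10395, o708, o714, o275, l11614, o3756, o3846, o3429, l1698, o5694, o4760, o5735, l11616, o1452, o7981, l11615, o1090, o1927, o2339, o735, l9048, l4921, o7850, o271, o2716, o1096, o7717, l5881] l11617 := rupP (by decide +kernel)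
theorem r11618 : PImp [l10393, l11371, l2674, l325, o2865, l3031, o730, l2269, o690, o336, o295, l5041, l11612, o3438, o3003, o3010, l11203, l10452, l9992, l2392] l11618 := rupP (by decide +kernel)
theorem r11619 : PImp [l10393, l10395, l390, l11371, l6818, l3933, o1116, l476, o3414, o3406, l1698, o5304, o5315, o4760, o5735, o5319, l11616, o1452, o7981, o1090, o1927, o2339, l9048, l4921, l4626, l6194, l3228, o2716, l4808, o3427, l1705, l3606, o7717, l5881] l11619 := rupP (by decide +kernel)
theorem r11620 : PImp [l10393, l11371, l4892, l6818, l3933, o1116, o1117, o708, o714, l11617, o275, l11619, o3039, l8445, o3756, o4760, l10930, o5735, l6194, o1454, o2402, o1112, o1911, l3866] l11620 := rupP (by decide +kernel)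
theorem r11621 : PImp [o1959, o7872, o4669, l4456, l4455] l11621 := rupP (by decide +kernel)
theorem r11622 : PImp [l10394, l3933, o1116, l11453, o1452, o1485, o1090, l11621, o1911, o2306, o8289, l3555, o8284, o5437, l8452] l11622 := rupP (by decide +kernel)
theorem r11623 : PImp [l10395, l5041, l3933, l325, o3414, o3689, l2322, l11622, l9427, l1279, l3017, o2845, o1927, l11203] l11623 := rupP (by decide +kernel)
theorem r11624 : PImp [l10393, l11371, l2674, l325, o2865, l3031, l6818, o730, l2269, o690, o719, l11618, o336, o295, l5041, l11623, o3438, o3003, o3010, l11203, l10452, l9992, l2392] l11624 := rupP (by decide +kernel)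
theorem r11625 : PImp [o1465, l8399, o2269, o7981, l732] l11625 := rupP (by decide +kernel)
theorem r11626 : PImp [o3756, o3754, l11625, l1071, o8345, l11616] l11626 := rupP (by decide +kernel)
theorem r11627 : PImp [l9048, l4265] l11627 := rupP (by decide +kernel)
theorem r11628 : PImp [l10393, l11371, l4892, l6818, o1117, l7703, l5035, o708, o694, o714, l11620, o275, l8915, o5591, l11626, l11614, l6194, o2402, o1911, l11627, l2832, l2986, l6565, l8445, l3866, o4760] l11628 := rupP (by decide +kernel)
theorem r11629 : PImp [l5041, o3438, o3015, o3003, o3010, l11203, l3234, l10452, l2472, l3228, l8912, l2763, o4597, l3905, l3591] l11629 := rupP (by decide +kernel)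
theorem r11630 : PImp [l10394, l10395, l10393, l7703, l11466, l11371, l6818, o1117, l3933, o1124, o1565, o1939, o1969, o2364, l11305, l3431, l11591, l1146, o4898, l501, l4770, l4775, l8818, l4438, l429, l433, l1412, l5035, o4897, l5727, l5208, o3460, l8185, o3549, o3461, l2835, l390, o351, o305, o799, o771, l7840, l4771, l5269, l404, l3357, l3007, l3006, l1145, l2674, l2673, o297, o3478, l2992, l3008, l325, o2865, l3032, l3031, o340, l3000, l4841, l3435, l494, o2367, o3573, l3025, l2996, o1159, l3927, o1152, o1575, o1132, o1160, l11606, l3763, l1218, l3797, o4327, o5003, o5005, l2752, l11608, o1941, o1975, l9303, l9611, l8906, l8903, l2707, l2708, l2586, o801, l485, l3478, l3484, o8879, l6022, l3500, l3505, l11611, o4979, o5791, l4891, l11628, o730, l2269, o690, o719, l11624, o336, o295, l11629, l11612, l11623] l11630 := rupP (by decide +kernel)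
theorem r11631 : PImp [l10395, o3414, l1698, o3712, o4760, o5735, o5326, l11616, l11627, o1501, o7981, l4268, o1927, o2339, l4921, o7878, o2716, o278, l1705, o7717, l5881] l11631 := rupP (by decide +kernel)
theorem r11632 : PImp [l10393, l11371, l6818, o1117, l3933, l476, l472, o708, o275, l11631, o3438, o3039, o3003, l8445, o4760, l10930, o5298, o5312, o1109, o1454, l5667, o1112, l2392, l3866, l4293] l11632 := rupP (by decide +kernel)
theorem r11633 : PImp [o1452, l1278, o2257, o8283, o7958] l11633 := rupP (by decide +kernel)
theorem r11634 : PImp [l10393, l11371, l6818, o1117, l3933, o1454, l9427, o1112, l9533, l10829, l3179] l11634 := rupP (by decide +kernel)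
theorem r11635 : PImp [l2322, l11633] l11635 := rupP (by decide +kernel)
theorem r11636 : PImp [l10393, l11371, l2674, l6818, l3933, o1116, o730, o690, o336, o295, l5041, l11634, l11635, o3438, o3003, o3010, l11203, l10452, l2472, l5870, o8075] l11636 := rupP (by decide +kernel)
theorem r11637 : PImp [l10393, l11371, l6818, l3933, o1116, o1117, o1452, o1501, l11625, o1090, o3001, l9048, l3228, o1911, l3234, o2402, l1705, l10825, o278, o7878, o7775] l11637 := rupP (by decide +kernel)
theorem r11638 : PImp [o3414, o3712, l11637, l1071, o8345, l11616] l11638 := rupP (by decide +kernel)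
theorem r11639 : PImp [l10393, o312, o8422, l7840, l11371, l2674, l2673, o305, l6818, o1117, l3933, l11636, o708, o694, l11632, o275, l11638, o3446, o3039, l8445, o4760, l10930, o5319, o1454, o1112, l6793, l3866] l11639 := rupP (by decide +kernel)
theorem r11640 : PImp [l476, l472, o3414, l1698, o3712, o4760, o5298, o5735, o5312, o5326, l11627, l3228, o1911, l4268, l3234, o2402, l3317, l4921, o7878, o2716, o278, l1446, l3590, l2490, l5881] l11640 := rupP (by decide +kernel)
theorem r11641 : PImp [l10393, l11371, l6818, o1117, l3933, o3039, l8445, o4760, l10930, o1454, o1112, l3865, l3866] l11641 := rupP (by decide +kernel)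
theorem r11642 : PImp [o7878, o7775] l11642 := rupP (by decide +kernel)
theorem r11643 : PImp [o1452, o1494, o1501, l11625, o1090, o3728, l9048, o1911, o2325, o2402, l11642, o809, o8068, o7733] l11643 := rupP (by decide +kernel)
theorem r11644 : PImp [l10393, l11371, l3318, l6818, l3933, o1116, o1117, o708, o694, o275, l11641, o3414, o3712, l11640, l11643, l736, l1697, o8651] l11644 := rupP (by decide +kernel)
theorem r11645 : PImp [l4455, l4453] l11645 := rupP (by decide +kernel)
theorem r11646 : PImp [l10395, l10394, l10393, l11371, l6818, l5208, l390, o3749, o1941, l3318, l4438, o1117, o3460, l8185, o3461, l7840, l2674, l2673, o305, o340, l3933, o1116, l11453, l5663, o358, o312, l2576, l3494, l7566, o8917, o8422, o4979, o5494, l4891, l4892, l3478, l11639, l11644, o730, o690, o336, o295, l5041, l11634, o1452, l11635, o1090, o3438, o3039, l11645, l3591, l3595] l11646 := rupP (by decide +kernel)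
theorem r11647 : PImp [l10395, o708, o275, o694, o3749, o1941, l11371, l3318, o358, o312, l2576, o8422, l11644, l11640, l11638] l11647 := rupP (by decide +kernel)
theorem r11648 : PImp [l11511, o6455] l11648 := rupP (by decide +kernel)
theorem r11649 : PImp [l10393, l2576, l11371, l2674, l2673, l6818, o1117, l3933, o708, o275, l11647, o3446, o3039, l8445, l11641, o4760, l10930, o5319, o1454, o1112, l6793, l3866] l11649 := rupP (by decide +kernel)
theorem r11650 : PImp [l10393, l5041, l11371, l6818, l3933, o1116, o1117, o3414, l11635, o1454, l9427, o1112, l10829, l4670, l3167, l4803] l11650 := rupP (by decide +kernel)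
theorem r11651 : PImp [o3010, o3018, o3003, o3438, l5041, l11629, l11203, l8914, l3234, o4598, l3605, l3892, l3891] l11651 := rupP (by decide +kernel)
theorem r11652 : PImp [l11645, l3591, l3595] l11652 := rupP (by decide +kernel)
theorem r11653 : PImp [l10394, l10393, l7703, l3003, l4438, l11371, l6818, o1117, l5208, o3460, l8185, o3461, l390, o351, l5035, o305, o799, o771, l7840, l2674, l2992, l3008, l325, o2865, l3031, o340, o1939, l11646, l3473, o8905, l6221, l485, o4980, l4891, l4892, l11648, l2576, l11649, o730, o690, o336, o295, l11650, o3438, o3039, l11652, l10829, l4670, l3873, l3874] l11653 := rupP (by decide +kernel)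
theorem r11654 : PImp [l10393, l390, l485, l3494, l3491, l2576, l2563] l11654 := rupP (by decide +kernel)
theorem r11655 : PImp [l10393, l10395, l11371, l6818, l3933, o1116, o1117, l476, l472, o1452, o1501, l11643, o1090, l1698, l9048, o4760, o5298, o5312, o7981, l4921, o1927, o2339, o2716, l11642, o278, l3590, l2490, o7717, l5881] l11655 := rupP (by decide +kernel)
theorem r11656 : PImp [l736, o8345, o8651] l11656 := rupP (by decide +kernel)
theorem r11657 : PImp [l5663, o6363, o6455] l11657 := rupP (by decide +kernel)
theorem r11658 : PImp [o3414, o3712, l11656, l11655] l11658 := rupP (by decide +kernel)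
theorem r11659 : PImp [l10395, l10393, o3749, o1941, l11371, l3318, l6818, o1117, l3933, l11453, l11657, o358, l2576, o8917, o4979, l4892, l11658, o3446, o3039, l8445, l11641, o4760, l10930, o5319, o1454, o1112, l3866, l6793] l11659 := rupP (by decide +kernel)
theorem r11660 : PImp [l10395, l10393, o1941, l3318, l5732, l7566, l2563, l2576] l11660 := rupP (by decide +kernel)
theorem r11661 : PImp [l11371, l11660, o340, o708, o694, o275, l11659] l11661 := rupP (by decide +kernel)
theorem r11662 : PImp [l10393, l10395, l5041, l11371, l6818, l3933, o3414, l2322, l11609, o1109, l1279, l9427, o1927, l3017, l4582, l10605] l11662 := rupP (by decide +kernel)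
theorem r11663 : PImp [l10394, l10395, l10393, l7703, l11466, l11371, l6818, o1117, l3933, o1124, o1565, o1939, o1969, o2364, l11305, l3431, l11591, l1146, o4898, l501, l4770, l4775, l8818, l4438, l429, l433, l1412, l5035, o4897, l5727, l5208, o3460, l8185, o3549, o3461, l2835, l390, o351, o305, o799, o771, l7840, l4771, l5269, l404, l3357, l3007, l3006, l1145, l2674, l2673, o297, o3478, l2992, l3000, l4841, l3435, o1159, l3927, o1152, o1575, o1569, l3008, l11453, l11630, l3319, l8730, o1975, l9437, l3003, l11654, l3500, l3505, l11653, l11660, l11657, l2576, l2597, o8917, o4979, l4891, l11661, o730, l2269, o690, o336, o295, l11662, o3438, o3039, l11652, l10829, l4670, l3179, l3874, l3873] l11663 := rupP (by decide +kernel)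
theorem r11664 : PImp [l10393, l11466, l11371, l2673, l11305, l494, l490, l3431, l3927, l7703, l3008, l325, l11589, l8732, l8459] l11664 := rupP (by decide +kernel)
theorem r11665 : PImp [l11305, l3927, l7703, l11591, l429, o4898, l1145, l433, l3007, l501, l1412, l5269, l4770, l4771, l11663, o5101, l11664, l3319, l8125, o1975, l11399] l11665 := rupP (by decide +kernel)
theorem r11666 : PImp [l10395, l10393, l11371, l6818, l3933, l476, l472, l2702, l5411, l3797, o4315] l11666 := rupP (by decide +kernel)
theorem r11667 : PImp [o1816, o2010, l11521, o2812, l7875, l7111, l8505] l11667 := rupP (by decide +kernel)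
theorem r11668 : PImp [l421, l418, l1210, l1209, l3008, l325, l11480, l11496, l8085, l7772, l9884, l9202, o3940, l4548] l11668 := rupP (by decide +kernel)
theorem r11669 : PImp [l2882, l339, l7840, l3074, o2478, o183, l11582, l11485, l8907, o1098, o1133, l11556, l3241, o884, o314, l11482, o2576, o2578, o2579, l4679, o4233, o4234, o6813, l4688, o1002, o992, o173, l3704, o1166, o365, o4387, l11549, l4974, o5822, o3243, o6872] l11669 := rupP (by decide +kernel)
theorem r11670 : PImp [o351, l7703, l3008, l325, l5035, o1816, o2011, o2010, l11538, o2812, l7875, l7111, l8505] l11670 := rupP (by decide +kernel)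
theorem r11671 : PImp [l2882, l339, l1000, l6081, l3678, l4500, l4335, l4364, l4366] l11671 := rupP (by decide +kernel)
theorem r11672 : PImp [o1454, l736, l650, o2257, o7940, o8346] l11672 := rupP (by decide +kernel)
theorem r11673 : PImp [l5825, o5964] l11673 := rupP (by decide +kernel)
theorem r11674 : PImp [l11492, l2890, l11671, o182, l11582, l11485, o388, l3691, l3241, o1808, o5060, o1815, o1986, o6959, o6976] l11674 := rupP (by decide +kernel)
theorem r11675 : PImp [o351, l7703, l3008, l325, l5035, l11674, o1816, o2011, o2010, l11538, o2812, l7875, l11559, l8505] l11675 := rupP (by decide +kernel)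
theorem r11676 : PImp [l8445, l9047, l10930, o8861] l11676 := rupP (by decide +kernel)
theorem r11677 : PImp [l7703, l1210, l5035, o1979, l11530, l2882, l2890, l11671, l339, o183, o182, l11582, l11485, l8907, o388, o1098, l11556, l3241, o1808, l3662, o1183, o1815, o1986, l442, o4385, l3642, l4974, o1002, o992, o3243, o1167, o6872, o8912, o5821] l11677 := rupP (by decide +kernel)
theorem r11678 : PImp [l5035, o352, l7703, l3008, l325, l11667, l11670] l11678 := rupP (by decide +kernel)
theorem r11679 : PImp [l421, l418, l325, l11480, l11533] l11679 := rupP (by decide +kernel)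
theorem r11680 : PImp [l421, l418, o6456, l7703, l1210, l1209, o1132, l7840, o351, l3008, l325, l5035, l11677, o1816, l11678, o2011, o2010, l11679, l11495, l11538, o2812, l7875, l11559, l8505] l11680 := rupP (by decide +kernel)
theorem r11681 : PImp [l10393, l2882, l339, l11582, l11556, o1133, o1098, l11485, l8907, l3008, l325, l9776, o183, l3303, o1657, l5034, l4526, o1979, o1914, o1132, l7840, l10807, l11613, o1643, o1647, o1609, o2478, l7770, o6011, o1612, o1528, o887, l5808, o4142, o4040, o4039, o4037, l3969, o818, o825, o822, l11669, l11482, o2576, o2579, l4679, l11490, l2773, o4169, l4974, o7019, o3243, o1532, o1097, o6872, o992, o5822, o1166, l11549, o6975] l11681 := rupP (by decide +kernel)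
theorem r11682 : PImp [o340, l7703, l2992, o5825, l3008, l325, l9776, o358, o1160, o2393, l2574, l2707, o9147, l11680, l421, l418, o6456, l1210, l1209, l7840, o351, l5035, l11668, l11678, l4502, l10801, l11568, l5068, o1979, l11492, o102, o2501, o2542, l2882, l2888, l2890, l2886, l11671, l339, o183, o182, o180, l11582, l11485, l8907, o388, o1098, l11556, l3241, o1808, o1183, o1815, o1986, o1985, l11681, l3659, l442, o4385, l3642, l4974, o1002, o992, o3243, o1167, o6872, o6976, o5821] l11682 := rupP (by decide +kernel)
theorem r11683 : PImp [l10394, l10393, l7703, l3008, l325, l9776, o358, l3927, o1160, o2393, l2992, l11466, l11371, l4892, l2574, l2707, o9147, l421, l418, l1210, l1209, l6818, l5208, o3549, o5825, l3933, o1132, l7840, l4891, o340, l11305, l3435, l3431, o1969, o1159, o1152, o1575, o1158, l11680, l11682, l11675, l11495, l11480, l11496, l4763, l3954, l10731, o945, o928, l3308, o1644, l5817, l1074, o1760, o3944, l5043, l10776] l11683 := rupP (by decide +kernel)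
theorem r11684 : PImp [l10393, o358, l426, l421, l418, l7703, l429, l1210, l1209, l7840, o340, o1969, l5035, l11668, l11678, l5034, l4502, l10801, l11568, l5068, o1942, l11492, l4526, o102, o804, l8778, o2501, o2442, l3303, l2882, l11671, l7827, l4059, l339, l8495, o1738, o5964, l3975, l11556, o1664, o1663, l2789, o314, l8702, o3917, o3909, o57, o2478, l3074, o2427, l4009, l4017, o877, o818, o822, l11482, o2435, o2576, o2578, l11554, l11555] l11684 := rupP (by decide +kernel)
theorem r11685 : PImp [l3008, l325, l11480, l11496, l4763, l3954, l10731, o945, o928, l3308, o1644, l5817, l1074, o1760, o3944, l5043, l10776] l11685 := rupP (by decide +kernel)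
theorem r11686 : PImp [l7840, l3074, o1942, l11492, o1664, o1663, l2882, l11671, l339, l8495, o1098, l11556, o877, o884, o314, o57, l1131, o2435, o2576, o2578, l11554, l11555] l11686 := rupP (by decide +kernel)
theorem r11687 : PImp [l10394, l10393, o358, l426, l421, l418, l7703, l429, l1210, l1209, l11305, l494, l490, o4531, l11466, l11371, l6818, l5208, o3549, l7840, l4892, l4891, o340, l3435, l3431, o351, o1969, o1159, l3927, o1152, o1575, l3933, o1158, l3008, l325, l5035, l11684, l11685, l5034, l4502, l10801, l11568, l5068, l11495, l4526, o102, o804, o2501, o2442, l3303, l4059, l7827, l11673, o1738, l3975, l2789, l8702, o3917, o3909, o2478, l3074, o2427, l4009, l4017, l3956, o818, o825, l11686, o1816, o2011, o2010, l11538, o2812, l7875, l8505, l3680, l3672] l11687 := rupP (by decide +kernel)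
theorem r11688 : PImp [l10393, l7703, l3008, l325, o4575, l9776, o358, l3927, o1160, o2393, l2992, l11466, l11371, l4892, l2574, l2707, o9147, o6456, l429, l1210, l1209, l11305, l494, l490, o4531, l426, o5825, l6818, l3933, o1132, l7840, l4891, l3012, o340, l3435, l3431, l5035, o352, l2996, o1159, o1152, o1575, o1939, l11683, l11687, l11679, l11568, o2493, o2557, o2538, o2542, o2569, l11571] l11688 := rupP (by decide +kernel)
theorem r11689 : PImp [l10393, l5068, l3303, o1657, l5034, l11485, l3241, l2882, l339, l11556, o1979, l10807, l11613, l6709, o1643, o1644, o1647, o1609, l3074, o2427, l2777, l7770, o1751, o1612, l4017, o1528, o887, o818, l5808, o822, o4035, l11482, o2435, o2576, l4679, o4361, l3642, o1002, o992, o878, o5999, o4042, o4060, l4974, o6872, o3243] l11689 := rupP (by decide +kernel)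
theorem r11690 : PImp [l3241, l3659, l442, l3642, o1002, o992, o1167, o6976, o4852, o5821, l4974, o6872, o3243] l11690 := rupP (by decide +kernel)
theorem r11691 : PImp [o4258, l7703, l1210, l1209, l5035, l4502, l10801, l11568, o102, o56, o2542, l11689] l11691 := rupP (by decide +kernel)
theorem r11692 : PImp [o4258, o6456, l7703, l1210, l1209, o1132, l7840, o351, o1969, l3008, l325, l5035, l11678, o1979, l8594, l2882, l2890, l11671, l339, o183, o182, l11582, l11485, l8907, l11556, o388, o1098, l3241, o1808, o314, o1183, o1815, o1986, o1985, l11690, l11691, l11480, l9575, l9884, l4551, o2450, l5957] l11692 := rupP (by decide +kernel)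
theorem r11693 : PImp [l10394, l10393, l1246, o4258, l418, l7703, l1210, l1209, l11466, l11371, l6818, l5208, o3549, l3933, o1132, l7840, l3000, l5035, l4841, l11305, l3435, l3431, o1969, o1159, l3927, o1152, o1575, o1158, l3008, l325, l11692, l11675, l11495, l11480, l4763, l3954, l10232, o945, o928, l3308, o1644, l5817, l1074, l11499, o1760, o3944, l5043, l10776] l11693 := rupP (by decide +kernel)
theorem r11694 : PImp [o6456, l7703, l1210, l1209, o1132, l7840, o351, o1969, l5035, l11678, o1979, l11530, l2882, l2890, l11671, l339, o183, o182, l11582, l11485, l8907, l11556, o388, o1098, l3241, o1808, o314, o1183, o1815, o1986, o1985, l11690, l11691] l11694 := rupP (by decide +kernel)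
theorem r11695 : PImp [l10393, l421, l418, l7703, l1210, l1209, l7840, l11305, l3435, l3431, o1159, l3927, l11466, l11371, o1152, o1575, l6818, l3933, l3008, l11693, l11679, l5034, l10801, l11568, l5068, l4526, o2501, o2442, l3303, l4062, o4091, l3966, o947, l11694, l11673, o6366, o4035, o1647, l5808] l11695 := rupP (by decide +kernel)
theorem r11696 : PImp [l10393, l429, o4258, o358, l7703, l1210, l7840, o340, l3008, l5035, l5034, l4502, l10801, l11568, l5068, l4526, o102, o99, o804, l8778, o2501, o2489, o2529, l3303, l7827, l4059, l8702, o1738, l3996, l3975, o4091, o2427, o4122, l3966, l11686, o6243, o6309] l11696 := rupP (by decide +kernel)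
theorem r11697 : PImp [l429, o4258, l426, l421, l418, l7703, l1210, l1209, o1969, l3008, l325, l11678, l11696, l11480, l9575, l9884, o2493, l4551, l9705] l11697 := rupP (by decide +kernel)
theorem r11698 : PImp [l11697, l426, l421, l418, l7703, l429, l1209, l7840, o340, o351, o1969, l3008, l325, l5035, l11696, l11495, o1816, o2011, o2010, l11538, o2812, l7875, l8505, l3680, l3672] l11698 := rupP (by decide +kernel)
theorem r11699 : PImp [l10394, l10393, o4251, l429, o4258, l426, l421, l418, l7703, l1210, l11305, l494, l490, o4531, l11466, l11371, l6818, l5208, o3549, l4892, l3481, l3484, l3478, l7840, l4891, l3435, l3431, o1159, l3927, o1152, o1575, l3933, o1158, l3008, l325, l11697, l11698, l11480, l4763, l3954, l10232, o945, o928, l3308, o1644, l5817, l1074, l11499, o1760, o3944, l5043, l10776] l11699 := rupP (by decide +kernel)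
theorem r11700 : PImp [l10394, l10393, l11466, l11371, l6818, l476, o1939, o1969, o2367, o351, l5035, l7703, l3008, l3025, l11666, o305, o799, o3478, o1159, l3927, o1152, o1575, l11665, o8658, o1160, l2674, l9725, l503, o5480, o5492, l8383, o5825, o5472, l8848, l5727, l5208, l4663, l3505, l3500, l2992, o4977, l4892, l3481, l3484, l3478, o3556, l4775, l4771, l404, l3357, o2393, o1970, l3933, o1132, l7840, l4891, l2673, l3012, o340, l3000, l4841, l11305, l494, l490, l3435, l3431, o352, l2996, l325, l426, l429, o4531, o4575, l1209, l1210, l9776, o6456, l11586, o358, l2574, l2707, o9147, l1127, l642, l11688, o4251, l11695, l11699, l11679, l11568, o2493, o2557, o2538, o2542, o2569, l11571] l11700 := rupP (by decide +kernel)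
theorem r11701 : PImp [l10393, l7703, l1210, l5035, l4502, l10801, l11568, l5068, o804, l8778, o2501, o2569, l8702, l8687] l11701 := rupP (by decide +kernel)
theorem r11702 : PImp [l4763, l3006, l433, o2493, o2442, l9571, o5950, o4067, o3888, l7859, l9705, l4701] l11702 := rupP (by decide +kernel)
theorem r11703 : PImp [l7703, l3006, l5035, l404, o1160, l9725, l3357, l5727, l8383, o2393, l7840, l11305, l3435, l3431, l3008, l325, l424, l1210, o4574, o4244, l2768, l418, l11516, l9776, o6456, o4246, o358, l2574, l2707, o9147, l11701, l11480, l4763, l11702, o2463, o2449, l7814, l8269, l8118, l8164] l11703 := rupP (by decide +kernel)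
theorem r11704 : PImp [l10393, l7703, l5035, l5034, l4502, l8794, l11593, l4526, o102, o804, l8778, o2501, l5068, l7827, l4059, l3975, o4079] l11704 := rupP (by decide +kernel)
theorem r11705 : PImp [l7840, l3008, l421, l2769, l11534, l9575, l11702] l11705 := rupP (by decide +kernel)
theorem r11706 : PImp [l11602, o2442, l8779] l11706 := rupP (by decide +kernel)
theorem r11707 : PImp [l7772, l3006, l11705, l9202, l8830] l11707 := rupP (by decide +kernel)
theorem r11708 : PImp [l10393, l7703, l1146, l3006, l433, o2393, l3927, o1160, l11466, l11371, l6818, l3933, o1132, l7840, o340, l11305, l3435, l3431, o1969, l3000, l3008, l3025, l2996, o1158, l325, o5819, o5820, l9776, o6456, l3764, o358, l2574, l2707, o9147, l11704, o35, l11706, l3954, l8085, l9884, o1597, o945, l3307, l11707, l3308, o1763, o1766, l9733, l5808, l4547, o4036] l11708 := rupP (by decide +kernel)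
theorem r11709 : PImp [l10393, o4571, o4573, l433, o358, l8843] l11709 := rupP (by decide +kernel)
theorem r11710 : PImp [l10393, l8794, l8864] l11710 := rupP (by decide +kernel)
theorem r11711 : PImp [l8085, l7772, l7200, l8830, l3074, o2449, l9202, l11603] l11711 := rupP (by decide +kernel)
theorem r11712 : PImp [l10393, l7703, l1146, l3006, l433, o2393, l3927, o1160, l11466, l11371, l6818, l3933, o1132, l7840, l2992, l11305, l3435, l3431, l5035, l11708, o4573, o4571, l11709, l4083, l4606, o3838, l3003, o8998, l11710, l11711, l7909, l11706] l11712 := rupP (by decide +kernel)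
theorem r11713 : PImp [l10393, l11371, l6818, l3933, o1132, l8874, l8864] l11713 := rupP (by decide +kernel)
theorem r11714 : PImp [l10394, o853, l7909, l9395, l11602] l11714 := rupP (by decide +kernel)
theorem r11715 : PImp [l10394, l10393, l7703, l3927, l3000, l5035, l4841, l2992, l11466, l11371, l3008, l3025, l11666, l2673, l2674, l11665, o1939, o1969, o2367, o351, o305, o799, o3478, o1159, o1152, o1575, o8658, o4977, l4891, l4892, l6818, l3933, o1132, o1160, l8383, o5825, l4771, l4775, l9725, o5492, l3481, l3478, l3484, l476, l503, o5480, o5472, l8848, l5727, l5208, l3505, l4663, l11700, l11703, l1146, l3006, l433, l3500, o5838, l404, l3357, o2393, l7840, l3032, l3012, l11305, l3435, l3431, l325, l11712, l9435, l11586, l3003, l2574, o4573, o4571, o6497, l11713, o26, l11714, l8085, l7772, l3303, l7200, l8830, l3308, l4535, l9202, l4547, l7199, l2786, o3888, o6151] l11715 := rupP (by decide +kernel)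
theorem r11716 : PImp [l7909, l11706] l11716 := rupP (by decide +kernel)
theorem r11717 : PImp [l10394, l10393, l11466, l11371, l6818, l476, o1939, o1969, o2367, o351, l5035, l7703, l3008, l3025, l11666, o305, o799, o3478, o1159, l3927, o1152, o1575, l11665, o8658, o1160, l2674, l9725, l503, o5480, o5492, l8383, o5825, o5472, l8848, l5727, l5208, l4663, l3505, l3500, l2992, o4977, l4892, l3481, l3484, l3478, l4775, l4771, o5838, l404, l3357, o2393, l3933, o1132, l7840, l4891, l2673, l3012, l3000, l4841, l11305, l3435, l3431, l11700, l433, l3006, l11703, l1146, l11715, l1218, l3797, l421, o4315, o4511, o5820, l11709, l4083, l4606, o3838, l3003, o8998, l11713, l11716, l7772, l8830, l3075, l8117, l8842, l3308, l2790, l2786, l7199, l5823, l1074] l11717 := rupP (by decide +kernel)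
theorem r11718 : PImp [o1647, l11541] l11718 := rupP (by decide +kernel)
theorem r11719 : PImp [o1942, l11492, o2005, o2008, l2884, l2887, l2888, l11671, l11582, l11550] l11719 := rupP (by decide +kernel)
theorem r11720 : PImp [l8505, l7842] l11720 := rupP (by decide +kernel)
theorem r11721 : PImp [o351, l7703, l3008, l325, l5035, o1816, o2011, o2010, l11538, o2812, l7111, l11720] l11721 := rupP (by decide +kernel)
theorem r11722 : PImp [l8155, l8148, o8404, o8908, o1731, o1762, l11718, o1738] l11722 := rupP (by decide +kernel)
theorem r11723 : PImp [l10393, l7703, l1145, l1276, l5272, l7840, l2992, l11371, l4892, l4891, l3012, l3011, o340, o351, l5035, o352, o1969, l2996, l6818, o1117, l3933, l3008, l325, o1939, l4502, l10801, l10813, l11568, o100, o99, o120, o853, o2557, o2533, o2529, o2442, o922, o927, l11722, l11719, o1816, l11721, o2011, o2010, l11538, o2812, l7941, l11720, l11559] l11723 := rupP (by decide +kernel)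
theorem r11724 : PImp [l7840, l8085, l7772, l9884, l9202, o3938, o2450, l5957] l11724 := rupP (by decide +kernel)
theorem r11725 : PImp [l426, l7840, l3008, l11716, l11679, l4763, l3954, l11685, o945, o928, l2767, o4251, l1246, l11724, l10232, l3308, o1644, l5817, l1074, l11499, o1760, o3944, l5043, l10776] l11725 := rupP (by decide +kernel)
theorem r11726 : PImp [o1942, l11492, o2005, o2008, l2884, l2887, l2888, l11671, l8495, l11550] l11726 := rupP (by decide +kernel)
theorem r11727 : PImp [l10393, o358, l7703, l1145, l1276, l5272, l7840, l2992, l11371, l4892, l4891, l3012, o340, o351, l5035, o352, o1969, l2996, l6818, l3933, l3008, l325, o1939, l10813, l11568, l11723, o2493, o2557, o2538, o2542, o2569, l11571, l11726, o1816, l11721, o2011, o2010, l11538, o2812, l7941, l11720, l3680, l3672] l11727 := rupP (by decide +kernel)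
theorem r11728 : PImp [l10394, l10393, l11466, l476, l11371, o1939, o1969, o2367, o351, l5035, l7703, l3008, l3025, l11666, o305, o799, o3478, o1159, l3927, o1152, o1575, l11665, o8658, o1160, l2674, l9725, l503, o5480, o5492, l8383, o5825, o5472, l8848, l4438, l6818, o1117, l5727, l5208, o3460, l8185, l4663, l3505, l3500, o3549, l2992, o4977, l4892, l3481, l3484, l3478, o3556, l4775, l4771, l404, l3357, o2393, o1970, l3933, o1132, l7840, l4891, l2673, o340, l3000, l4841, l11305, l3435, l3431, o1158, l325, l11717, l5272, l1276, l1275, l5776, l1145, l3794, o4571, l9776, o6456, l11586, o358, l2574, l2707, o9147, l1127, l642, l11727, l11716, l11725, l4763, o4252, o4244, l11702, o2463, o2449, l10724, l8212] l11728 := rupP (by decide +kernel)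
theorem r11729 : PImp [o1979, l11492, l2882, l2890, l11671, l339, o183, o182, l11582, l11485, l8907, l11556, o388, o1098, l3241, o1808, o1183, o1815, o1986, l11690] l11729 := rupP (by decide +kernel)
theorem r11730 : PImp [o351, l7703, l3008, l325, l5035, o1816, o2011, o2010, l11538, o2812, l7875, l11720, l11559] l11730 := rupP (by decide +kernel)
theorem r11731 : PImp [l7703, l1210, l1209, o351, l5035, l11730, o1979, l11729, l11677, l11530, o4091, l2882, l2890, l11671, l3966, l339, o183, o182, l11582, l11485, l8907, o877, l11556, o388, l3241, o1808, o940, o1815, o1986, l11690] l11731 := rupP (by decide +kernel)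
theorem r11732 : PImp [l10393, o358, l7703, l3008, l3030, l421, l418, o6456, l3007, l429, l1210, l1209, l11371, l6818, l3933, o1132, l7840, l4892, l4891, o340, o351, l5035, o352, o1969, l2996, l325, o1939, l5034, l4502, l10801, l11501, l11568, l4526, o102, o804, o853, o2493, o2501, o2557, o2538, o2542, o2442, o2569, l5068, o927, l3303, l4059, l11731, l7827, l11571, o1738, o5964, l3975, l2789, l8702, o3917, o3909, o2478, l3074, o2427, l4009, l4017, l3956, o818, o825, l11686, o1816, o2011, o2010, l11538, o2812, l2868, l7875, l11720, o313, l11562, o384] l11732 := rupP (by decide +kernel)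
theorem r11733 : PImp [l10395, l4763, l3008, l3030, l421, l418, o2493, o2524, o2442, l9571, o5950, o6015, o1642, l5817, l9745, o8329, o3938, o4121, l4548, l4701] l11733 := rupP (by decide +kernel)
theorem r11734 : PImp [l10393, l7703, l3008, l325, l3007, o4575, l9776, o358, o1160, o2393, o9066, o9147, l429, l1210, l1209, l3030, l421, o5825, l7840, l11371, l4892, l4891, l5035, o305, l3000, l476, l472, l11732, o35, o26, l11534, l3963, l11533, l11733, l3075, l5045, l4535, l4533] l11734 := rupP (by decide +kernel)
theorem r11735 : PImp [l10393, o351, o1969, l11371, l6818, l3933, l7703, l3008, l325, l5035, o1939, l11719, o1816, o2011, o2010, l11538, o2812, l11720, l11559, l8313, l7941] l11735 := rupP (by decide +kernel)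
theorem r11736 : PImp [l10393, o358, l7703, l3008, l3030, l421, l418, l3007, l429, l1210, l1209, l7840, l2992, l11371, l4892, l4891, o351, o799, l3012, l3011, o340, l5035, o352, o1969, l2996, l6818, o1117, l3933, l325, o1939, l4502, l10801, l11501, l11568, o100, o99, o120, o853, o2557, o2533, o2529, o2442, o922, o927, l11722, l11735, l11726, o1816, o2011, o2010, l11538, o2812, l2868, l11720, o313, o384, l11562, l8313, l7941] l11736 := rupP (by decide +kernel)
theorem r11737 : PImp [l10393, l10394, o1970, l3927, o1160, l11466, l11371, l6818, l3933, o1132, l7840, l7703, l2992, o1939, o1969, o2367, o351, l5035, l3008, l3025, l11666, o305, o799, o3478, o1159, o1152, o1575, l11665, o8658, o4977, l4892, l4891, l2674, l2673, l3031, l3012, o340, l3000, l4841, l11305, l3435, l3431, l404, o1117, l476, l472, l325, o2393, l9725, l8383, l503, l5727, l3357, o5492, o5825, o5480, l3481, l4771, l4775, o5472, o3556, l3478, l3484, l8848, l4438, l5208, o3460, l3500, l3505, l4663, l8185, l11728, l3007, l3030, l429, o4575, l421, l1209, l1210, l9776, o6456, l11586, o358, o9066, o9147, l1127, l642, l11734, l11736,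 o35, o26, l11534, l4763, l3963, l11533, l11733, o2449, l10724, l5051, l8661, l4542] l11737 := rupP (by decide +kernel)
theorem r11738 : PImp [o1975, l404, l11386, l8905, l3357, l4083, o5823, l8384] l11738 := rupP (by decide +kernel)
theorem r11739 : PImp [o3464, o3414, l2322, l11609] l11739 := rupP (by decide +kernel)
theorem r11740 : PImp [l10393, l11371, l2674, l6818, l3933, o1116, o730, l2269, o690, o336, o295, l5041, l11634, o1452, o1090, l11739, o3446, o3039, l8403, o4760, o5319, l4453, l3559] l11740 := rupP (by decide +kernel)
theorem r11741 : PImp [o688, o694, l8441, o714, l11614, o3756, o3757, o3754, o3752, o3846, l1698, o5694, l11672, o7981, l11615, o1465, o2269, o2339, o735, o7897, o7850, l2306, o1534, o5655, l618, o8231] l11741 := rupP (by decide +kernel)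
theorem r11742 : PImp [l10393, l10394, l11371, l6818, o5312, o5326, l8452] l11742 := rupP (by decide +kernel)
theorem r11743 : PImp [l10393, l10395, l11371, l6818, o1117, o1465, l5041, o3464, o1152, o3414, o3689, l2322, l11742, o8284, o2315, o2269, l8449, l2277, o5693, o8044, o8203, o3728] l11743 := rupP (by decide +kernel)
theorem r11744 : PImp [l10393, l11371, l2674, l6818, l3933, o1116, o730, l2269, o725, o690, o719, l11740, o336, o295, l5041, l11634, o1452, o1494, o1090, l11743, o3446, o3039, l8403, o4760, o5319, l4453, l3559] l11744 := rupP (by decide +kernel)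
theorem r11745 : PImp [l10393, l10395, l11371, l6818, l3933, o1116, o1117, l2322, l1698, o4760, l11672, o7981, o1452, o1927, o2306, o2339, o1090, o1959, l6194, l4921, o3427, o7850, o2716, l4628, o1096, o7717, l5881] l11745 := rupP (by decide +kernel)
theorem r11746 : PImp [l10393, o714, o688, l11371, l6818, l3933, o1132, l7840, o1939, o1969, o2367, o1117, l11453, l8441, l11741, o5594, l11745, o3039, o3756, l8445, l6194, o4760, l10930, o2402, o1454, o1911, o1112, l3866] l11746 := rupP (by decide +kernel)
theorem r11747 : PImp [o3756, o3757, o3754, l11625, l736, o8345, l11672] l11747 := rupP (by decide +kernel)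
theorem r11748 : PImp [l5674, o1095, l3866, o4932, o8890, o8114] l11748 := rupP (by decide +kernel)
theorem r11749 : PImp [l10393, l11371, l6818, l3933, o1132, o4977, o1117, o708, o688, o694, o714, o275, l11746, l8397, l11747, l11614, l6194, o2339, o2402, o1911, l11748, o3040, o3034, o3033, l1697, l11625, l11672] l11749 := rupP (by decide +kernel)
theorem r11750 : PImp [l10393, l10395, l5041, l11371, l6818, l3933, l11739, o1109, l1279, l9427, o1927, o2845, l5667] l11750 := rupP (by decide +kernel)
theorem r11751 : PImp [l10393, l11371, l6818, l3933, o1116, o1452, l8403, o1090, o4760, l3591, l4453] l11751 := rupP (by decide +kernel)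
theorem r11752 : PImp [l10393, l11371, l6818, o1117, l3933, o3438, o3039, o3015, o3003, o3756, l8391, o5594, l11751, o1109, o1454, l5667, o1112, l3905, l3904] l11752 := rupP (by decide +kernel)
theorem r11753 : PImp [o1494, l11743] l11753 := rupP (by decide +kernel)
theorem r11754 : PImp [l10393, l10395, l11466, l11371, o1939, o1969, o2367, o351, l5035, o305, o799, o1159, l3927, o1152, o1575, o8658, o4977, l7703, l1210, o4718, l5460, o771, l2708, o3464, l429, l3006, o4719, l1146, o800, l2674, l2673, l2992, l3008, l325, o2865, l3032, l3011, l6818, l3933, l11749, o730, l2269, o725, o690, o719, l11744, o336, o295, l5041, l11752, l11750, l11753, o1109, l1279, l9427, o1927, o2845, l5667] l11754 := rupP (by decide +kernel)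
theorem r11755 : PImp [l10394, l10393, o1939, o1969, o2367, o351, l5035, o305, o799, o1159, l3927, l11466, l11371, o1152, o1575, o8658, o4977, l7703, l1210, o4719, l6818, o1117, l5208, o3460, l3500, l8185, l11754] l11755 := rupP (by decide +kernel)
theorem r11756 : PImp [l10395, l10394, l10393, l7703, l5035, l11305, l3435, l3000, l4841, l3927, o1160, l11738, l1210, l429, l3007, l11466, l11371, l6818, l3008, l3031, l3025, l3797, o4315, l5413, o1939, o1969, o2367, o351, l11666, o305, o799, o3478, o1159, o1152, o1575, o8658, o4977, o4719, l9285, l3374, l5208, l3505, o4819, o8374, o9074, o1975, l3384, l8906, o801, l9611, l2707, l494, l490, o4544, l5269, o4999, o1941, l3431, l9303, o5841, o8879, l11755] l11756 := rupP (by decide +kernel)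
theorem r11757 : PImp [l10393, l3927, o1160, l7703, l2992, l11466, l11371, o1939, o1969, o2367, o351, l5035, l3008, l3025, l11666, o305, o799, o3478, o1159, o1152, o1575, l11665, o8658, o4977, l4892, l4891, o297, l3031, o340, l3000, l4841, l11305, l3435, l2996, l6818, l11737, l11738, l1210, l3797, l3763, l9285, o4718, o4315, o4830, l501, l3481, l5413, l4775, l4438, l4771, l11756, l5776] l11757 := rupP (by decide +kernel)
theorem r11758 : PImp [l4850, l4846] l11758 := rupP (by decide +kernel)
theorem r11759 : PImp [l3319, l5035, l7703, l2998, l11758, l11305, l3431, l11466, o2393, l11268, l8144, l501, l3374, l4775, l7919, l4083, l2619, o9122, l2707] l11759 := rupP (by decide +kernel)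
theorem r11760 : PImp [l4083, o8891, l2707, o3242, l2576, l6140] l11760 := rupP (by decide +kernel)
theorem r11761 : PImp [l10393, l3241, o1817, o1098, l3315, l5068, l3303, o1657, o1914, o2501, o876, l5034, l4526, l10807, l9190, l11613, o1643, o1644, o1609, o4142, o4039, o4037, o4035, o2427, l7770, o1751, o1612, l3969, o6011, o887, o818, o822, l11482, o2576, o2435, l11506, o4169, o7019, o1097, o992, o878, o5999, o4042, o4060, l4974, o6863, o3243] l11761 := rupP (by decide +kernel)
theorem r11762 : PImp [l11492, l11530] l11762 := rupP (by decide +kernel)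
theorem r11763 : PImp [l7703, l2992, l7840, o4574, l3008, l325, l11511, l11568, o2542, o340, l5035, l4502, o102, l10801, o6478, o6731, l424, l418, l1209, o351, o1969, l11678, l11762, l2882, l2890, l2886, l11671, l339, o182, o180, l11582, l11485, l11556, o388, l3315, o1098, l3241, o1808, l8907, l4078, o314, o1183, o1817, o1815, o1986, o1985, o56, l11761, l3659, l442, l3642, o992, o1167, o6976, o4852, o5821, l4974, o6863, o3243] l11763 := rupP (by decide +kernel)
theorem r11764 : PImp [l10394, l10393, o4574, l5035, l7703, l3000, l4841, l11466, l11371, l3008, l3025, l11666, l2674, l3319, o1975, l424, l418, l11760, o358, o6478, o6731, l3006, l325, l11511, l11305, o4529, l1209, l6818, l5208, o3549, l2998, l11758, o1970, l7840, l2992, l4892, l4891, l2673, l3435, l3431, o1969, o1159, l3927, o1152, o1575, l3933, o1158, l11725, l10801, l11568, o876, o2442, l5068, o2569, l3303, l3099, l11763, l11673, o4035, l9189, o6261, o5913, l11675] l11764 := rupP (by decide +kernel)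
theorem r11765 : PImp [l10394, l10393, o5824, l3384, l11466, l11371, l6818, l476, o1939, o1969, o2367, o351, l5035, l7703, l3008, l3025, l11666, o305, o799, o3478, o1159, l3927, o1152, o1575, l11665, o8658, o5475, o5483, o5472, l8848, l5208, l4663, l3505, l3500, l2992, o4977, l4892, l3481, l3484, l3478, l2998, l11758, l4775, l4771, l11757, l11759, o1975, l3319, l2674, l3000, l4841, l404, l424, l418, l11760, o358, o8977, o3838, l9437, l11764, l2562] l11765 := rupP (by decide +kernel)
theorem r11766 : PImp [l7703, l5035, l4502, l8794, l11593, o804, o876, l5068, o2569, l8132, l3303, l3099] l11766 := rupP (by decide +kernel)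
theorem r11767 : PImp [l7840, l7703, l11766, l11716, l7772, l8830, o2463, l3075, o2449, l11603] l11767 := rupP (by decide +kernel)
theorem r11768 : PImp [l10393, o1975, l9437, l7703, l3003, l11657, l2597, l3008, l325, l5035, l5034, l4502, l8874, l10807, l4526, o804, o876, l1073, l3095, o2568, l9527, l8132, l5068, l3099, l3075, l8686] l11768 := rupP (by decide +kernel)
theorem r11769 : PImp [o1975, l9437, l7703, l3003, l11657, l2597, l2576, l7840, l11767, l11768, l11716, l4763, l7772, l9884, l8830, l3075, o2449, l4547, l8842, l5051, o3907, o3896] l11769 := rupP (by decide +kernel)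
theorem r11770 : PImp [l5068, o2569, l3303, l8132, l3099] l11770 := rupP (by decide +kernel)
theorem r11771 : PImp [l10393, l7703, l3003, l429, l3006, l5035, l5034, l4502, l8874, l4526, o804, o876, l11770, l3075, l8686, l3099, l6709, l8132, o4089, l8863, l3052, l3308, l3974] l11771 := rupP (by decide +kernel)
theorem r11772 : PImp [l10394, l10393, l11466, l11371, l6818, l476, o1939, o1969, o2367, o351, l5035, l7703, l3008, l3025, l11666, o305, o799, o3478, o1159, l3927, o1152, o1575, l11665, o8658, o5475, o5483, o5472, l8848, l5208, l4663, l3505, l3500, l2992, o4977, l4892, l3481, l3484, l3478, l2998, l11758, l4775, l4771, l11757, l11759, o1975, l3319, l7840, l2674, l2673, l3012, l3000, l4841, l11305, l3435, l3431, l404, o5824, l3384, l11765, l429, l1146, l3006, l3007, l9437, o3838, l3003, o8977, l11657, l11760, l2576, l2597, l418, l421, l11769, l3798, o4315, l11771, l11716, l8085, l7772, l3303, l8830, l3075, l4547, l8842, l2786] l11772 := rupP (by decide +kernel)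
theorem r11773 : PImp [l7703, l3008, l325, o5017, l8636, l10205, l11511] l11773 := rupP (by decide +kernel)
theorem r11774 : PImp [l5035, l7703, l2998, l11758, l11757, l3319, l11759, o1975, l11773, o5825, o5824, l11772, l3374] l11774 := rupP (by decide +kernel)
theorem r11775 : PImp [l10393, o2493, o876, l5034, l5272, o4571, l10807, o1643, l3989, o6312, o4138, o4140, o944, o6279, l9189, o2390] l11775 := rupP (by decide +kernel)
theorem r11776 : PImp [l10395, l10394, l10393, l5035, l7703, l2998, l11758, l11757, l3319, o1970, l7840, l2992, l11466, l11371, o1939, o1969, o2367, o351, l3008, l3025, l11666, o305, o799, o3478, o1159, l3927, o1152, o1575, l11665, o8658, o4977, l4892, l4891, l2674, l2673, l3031, l3012, l3011, o340, l3000, l4841, l11305, l3435, l3431, o352, l3026, l2996, l6818, l3933, o1124, o1117, o1158, l325, l11774, l5272, l1275, l1145, l3794, o4571, l1217, l5412, l11575, l4438, o1975, l11773, o5825, o5824, o5823, l11760, l4771, l4775, o5475, o5483, o5472, l3374, l3384, o358, l3501, l3481, l11511, o3460, o3549, l3500, l3505, l4663, l3478, l3484, l5663, l8185, l2562, l9437, l3006,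 o6478, o8542, o6731, l11725, l5034, l4502, l10801, l11568, o102, o100, o99, o123, o120, o119, o853, o876, o2493, o2557, o2554, o2563, o2533, o2529, o2542, o2569, o922, o927, l8148, l8155, o4183, o4184, l11775, l11735, o8404, o8908, o1731, o1762, o6309, o1738, o942, l3989, o4134, o4140, o6278, o2391, o5913, o6261] l11776 := rupP (by decide +kernel)
theorem r11777 : PImp [l5035, o2393, l8144, l8729, l4083, l2619, o9122, l2707] l11777 := rupP (by decide +kernel)

end Pool.Agent.BDD.A
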