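import Pool.Agent.BDD.AC
import Pool.Agent.BDD.AE0
import Pool.Agent.BDD.AE1
import Pool.Agent.BDD.AE2
import Pool.Agent.BDD.AD0
import Pool.Agent.BDD.AD1
import Pool.Agent.BDD.AD2
import Pool.Agent.BDD.AD3
import Pool.Agent.BDD.AD4

set_option autoImplicit false
set_option linter.all false

namespace Pool.Agent.BDD.A

theorem r11778 : PImp [l3008, o2501, o2489, l8857, o2569, l3303, l8132, l3099] l11778 := rupP (by decide +kernel)
theorem r11779 : PImp [l7840, l7703, l5035, l5034, l4502, l8794, o804, o876, l11778, o2463, l3075, o2449, l8824, l8686, l8661, l1073, l8685, l8851, l3308] l11779 := rupP (by decide +kernel)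
theorem r11780 : PImp [l11716, l7772, l8830, l3075, l8117, l4547, l8842, l2786] l11780 := rupP (by decide +kernel)
theorem r11781 : PImp [l10394, l10393, l5035, l7703, l2998, l11758, l7840, l2992, l11466, l11371, o1939, o1969, o2367, o351, l3008, l3025, l11666, o305, o799, o3478, o1159, l3927, o1152, o1575, l11665, o8658, o4977, l4892, l2674, l2673, l3031, l3012, l3000, l4841, l11305, l494, l490, l3435, l3431, l404, l6818, l11757, l3319, l11776, l1210, l1218, l5776, l3797, l429, o4897, o4898, l1146, o4719, o4718, l421, o4544, o4315, l3006, l3007, l5727, l3357, l501, l3481, l5269, l5413, l5208, l4771, l4775, l3478, l3484, l3500, l3505, l11777, o1975, l11773, l9437, o3838, l3003, o8977, l11657, l2576, l2597, l11780, l5034, l4502, l8874, l4526, o804, o876, l11778, l3075, l8686, l3099, l6709, l8132, o4089, l8863, l3052, l3308, l3974] l11781 := rupP (by decide +kernel)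
theorem r11782 : PImp [o340, o2393, l10402, o358, l8366, l7708, o9066, o9147] l11782 := rupP (by decide +kernel)
theorem r11783 : PImp [l11305, o5513, l494, l7703, l3008, l325, l5035, l11782, o1975, l9932, l4082, l4083, l10401, l9898, l4602] l11783 := rupP (by decide +kernel)
theorem r11784 : PImp [l10393, l11466, l11781, o5407, l5035, l7703, l2998, l11758, l11371, l3008, l3025, l11666, l2674, l2673, l11305, l494, l490, l3431, l6818, l3933, l3927, o1132, o1160, l11783, l1210, l3797, l429, o4897, o4898, o4544, l3007, l5727, l501, l5269, l8734, l4771, l8459] l11784 := rupP (by decide +kernel)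
theorem r11785 : PImp [l3319, l11305, o5513, l11054, l11466, l11374, l11268, l3374] l11785 := rupP (by decide +kernel)
theorem r11786 : PImp [l10393, l7703, l2992, l11466, l11371, o1939, o1969, o2367, o351, l5035, l3008, l3025, l11666, o305, o799, o3478, o1159, l3927, o1152, o1575, l11665, o8658, o4977, l4891, l11305, l3431, l2998, l11758, l11781, o5513, l11784, l3319, l11054, o2393, l11785, l1210, l1218, o4897, l9632, l5727] l11786 := rupP (by decide +kernel)
theorem r11787 : PImp [l10393, l10394, l11371, l6818, o5475, o5472, l3501, l4664] l11787 := rupP (by decide +kernel)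
theorem r11788 : PImp [l3927, o1160, l7703, l3008, l3025, l11305, l494, l490, o4544, l3797, l3435, l5035, o4576, l11738, o5825, o2393, l11212] l11788 := rupP (by decide +kernel)
theorem r11789 : PImp [l10393, l7703, l3008, l3025, l11305, l494, l490, o4544, l3797, l11466, l11371, l2674, l404, l6818, l3933, l3927, l325, l5035, o1132, o1160, l11788, o5513, o5407, l11782, o1975, l11377, l4082, l4083, l10401, l9898, l4602] l11789 := rupP (by decide +kernel)
theorem r11790 : PImp [l5519, l10167] l11790 := rupP (by decide +kernel)
theorem r11791 : PImp [l10393, l501, l11371, l7703, l3008, l325, l5035, o4576, o5825, l11790, o1975, l8567, l4083, l11511, l6175, l8569] l11791 := rupP (by decide +kernel)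
theorem r11792 : PImp [l10393, l10394, l7703, l3000, l5035, l4841, l11305, l494, l490, l3435, o351, o1939, o1969, o2367, l2998, l3008, l3025, o1159, l3927, l11466, l11371, o1152, o1575, l6818, l476, l3011, l2992, o3478, l11666, o305, l2674, l11665, o799, o8658, o4977, l4891, l4892, l11786, l1412, o4544, o4559, o4491, l3798, l3797, l4850, l3837, l11787, l11789, l3319, l11791, o5513, l10909, l11054] l11792 := rupP (by decide +kernel)
theorem r11793 : PImp [l10394, l4775, o5471, l4664, l4247] l11793 := rupP (by decide +kernel)
theorem r11794 : PImp [l10394, l10393, l3927, o1160, l10187, o2393, o340, o1152, o1939, l4664, l3505, o5458, l3512, l1127, l10908, l9140, o358, l8683, o9147, o9066] l11794 := rupP (by decide +kernel)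
theorem r11795 : PImp [l10393, l10395, l10394, l11371, l6818, l5412, l4250, l3858, l4247] l11795 := rupP (by decide +kernel)
theorem r11796 : PImp [l10393, l7703, l11466, l11305, l3431, l476, l472, l1412, o4482, l433, l429, l11795, l3008, l3025, l494, l490, o4544, l3797, l4969, l404, l11371, l6818, l3927, l5035, o1160, l11788, o5513, l11794, o1975, l11377, l11214, l4083, l9898] l11796 := rupP (by decide +kernel)
theorem r11797 : PImp [l10393, l501, l433, l426, l421, l418, l11371, o4576, l11791, o5825, l11790, o1975, l9974, l8567] l11797 := rupP (by decide +kernel)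
theorem r11798 : PImp [l10393, l10395, l7703, l3000, l5035, l4841, l11305, l494, l490, l3435, o351, o1939, o1969, o2370, l2998, l3008, l3025, l11466, l11371, l6818, o1117, l3933, o1124, o1566, l476, l472, l11792, l2846, o3539, o3543, l8671, l5175, l5467, l1412, o305, l4592, l433, o4544, o4559, o800, l4968, l3798, l3797, l4850, o8776, l11793, l11796, l3319, l11797, o5513, l9222, l10909] l11798 := rupP (by decide +kernel)
theorem r11799 : PImp [l10395, l10393, l10394, l5038, l5039, l11371, l6818, l3933, l476, l472, l2525, l5225, l5224, l3012, l2992, l4429, l4425, l4431, o4977, o8658] l11799 := rupP (by decide +kernel)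
theorem r11800 : PImp [l10393, l10394, l5038, l5039, l11371, l3012, l2674, l4429] l11800 := rupP (by decide +kernel)
theorem r11801 : PImp [l10394, l10393, l11305, l494, l490, o351, o1939, o1969, o2367, o1159, l3927, l11466, l11371, o1152, o1575, l6818, l476, l7703, l5035, l11798, l5038, o306, o787, l11799, l1412, o4494, l11800, l2846, o3543, l5467, l4664, l3505, o5458, l3512, o8798] l11801 := rupP (by decide +kernel)
theorem r11802 : PImp [o4326, l2740] l11802 := rupP (by decide +kernel)
theorem r11803 : PImp [l10393, o690, o295, o730, o336, l2269, l11371, l8458, l5225, l11618, l11662, l11651] l11803 := rupP (by decide +kernel)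
theorem r11804 : PImp [l10393, l10395, l11371, l6818, l3933, o1116, o1452, o1090, l5041, l8458, o1152, l11453, o1939, o3414, o3689, l2322, l11742, o8284, l8449, o2306, o4670, o1959, l4456, l4455] l11804 := rupP (by decide +kernel)
theorem r11805 : PImp [l10393, l11371, l8458, l6818, l3933, o1116, o1452, o1090, l11804, o3438, o3039, l11652] l11805 := rupP (by decide +kernel)
theorem r11806 : PImp [l10393, l11371, l4891, l8458, l2708, l6818, l3933, o1132, o8328, o3460, o1117, l8185, o351, l5035, o305, o799, o771, o297, o340, o3461, l390, l2673, l5225, l7703, l1146, l1145, l7840, o1939, o1969, o2367, l3008, l325, l11628, o730, l2269, o690, o719, o336, o295, l5041, l11803, l11805, o1454, l9427, l11634, o1112, l3017, o2845, l3932, l11203, l3914, l3913] l11806 := rupP (by decide +kernel)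
theorem r11807 : PImp [l3180, l3179] l11807 := rupP (by decide +kernel)
theorem r11808 : PImp [l9048, l6565] l11808 := rupP (by decide +kernel)
theorem r11809 : PImp [l674, o8113] l11809 := rupP (by decide +kernel)
theorem r11810 : PImp [l10393, l11371, l8458, l2708, l6818, l3933, o1132, o8328, l2673, l5225, o305, o1117, l11740, o708, o688, o694, o714, o275, l11746, l8397, l11747, o5594, l11614, l6194, o2335, o2402, o1911, l11808, o1095, l11807, o1496, o290, l11809, o4758, l6228, l3866] l11810 := rupP (by decide +kernel)
theorem r11811 : PImp [l3180, l3178] l11811 := rupP (by decide +kernel)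
theorem r11812 : PImp [l10393, l11371, l8458, l2708, l6818, l3933, o1132, o8328, l2673, l5225, o1117, o337, o295, l4080, o718, o724, l11746, l8397, l11747, o5594, l11614, l6194, o2335, o2402, o1911, l11808, o1095, o1496, l11811, o290, l11809, o4758, l6228, l3866] l11812 := rupP (by decide +kernel)
theorem r11813 : PImp [l10395, l10394, l10393, o340, l5035, o275, o710, o708, l5041, l5042, o272, l11466, l11371, l4891, l8458, l2708, l6818, l3933, o1132, o8328, l7703, o1117, o1124, o1565, o1939, o1969, o2364, l8818, l5208, l3500, l3505, o3460, l4438, l8185, o351, l5039, o305, o799, o771, o297, o3461, l390, l5225, o1159, l3927, o1152, o1575, l3008, l325, l11810, l11750, l11752] l11813 := rupP (by decide +kernel)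
theorem r11814 : PImp [l10393, l11371, l6818, l3933, o1116, o1452, o1090, l5041, l5042, o5594, o5592, l4628, l4626, l2985, o3406, l11751] l11814 := rupP (by decide +kernel)
theorem r11815 : PImp [l10393, l11371, l6818, l3933, o1116, o1452, o1090, l5041, l5042, l3228, l3234, l11814, o4673, o4678, l8393, l4456, o2716] l11815 := rupP (by decide +kernel)
theorem r11816 : PImp [l10393, l11371, l6818, l3933, o1116, o1452, o1090, l5041, l5042, o5594, o5591, l3591, l3547, o3439, o3438, l11742, o8284] l11816 := rupP (by decide +kernel)
theorem r11817 : PImp [l11815, o1959, o2306, l11816, o5735, l8403, o8284] l11817 := rupP (by decide +kernel)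
theorem r11818 : PImp [l10395, l10394, l10393, l11466, l11371, l5035, l4834, l8458, l2708, l6818, l3933, o1132, o8328, l7703, o1117, o1124, o1565, o1939, o1969, o2364, l1146, l8818, l5208, l3500, l3505, o3460, l4438, l8185, o351, l5039, o305, o800, o774, o799, o771, o297, o340, o3461, l5225, l1145, l7840, o1159, l3927, o1152, o1575, l3008, l325, l11453, o4843, l4891, l11806, l11812, l5041, o275, o272, l5042, o708, o710, l11813, l11817, o1109, o1454, l11634, l9427, o1112, l3017, o2845, l3932, l5667, l3913, l3914] l11818 := rupP (by decide +kernel)
theorem r11819 : PImp [o5594, l6194, l4628, o3427] l11819 := rupP (by decide +kernel)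
theorem r11820 : PImp [l10393, l11371, l6818, o1117, l3933, o1112, l11808, o1454, o1911, o2402, l11819, o5735, l8915, l1103, l8445] l11820 := rupP (by decide +kernel)
theorem r11821 : PImp [l2708, l11820, l3932, o1095, l3930, o1486, l11656, o3438, o3003, l5667, l8912, o7740] l11821 := rupP (by decide +kernel)
theorem r11822 : PImp [o3756, o3754, o3846, l11626, l1698, l10514, o8233, o5674] l11822 := rupP (by decide +kernel)
theorem r11823 : PImp [l10393, l5041, l5042, l11371, l8458, l6818, o1117, l3933, o1112, o1454, l11805, l11739, o3438, o3039, l11652] l11823 := rupP (by decide +kernel)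
theorem r11824 : PImp [l3930, l8453, l1705] l11824 := rupP (by decide +kernel)
theorem r11825 : PImp [o1095, o1090, o1486, l1071, l11656, o2257, l11123, l8445, o5629, o8652, o7765] l11825 := rupP (by decide +kernel)
theorem r11826 : PImp [l10395, l2708, l11820, l11821, l3932, o1095, l3930, o1493, o1486, l1071, l11656, o3438, o3039, o3003, l2278, l8445, l9047, l9533, l3866, l5667, l8912, o4756, o1924, o4641, l58] l11826 := rupP (by decide +kernel)
theorem r11827 : PImp [o2269, l6194, o3754, o3752, l11626, o7850, o7897, o8227, o1534, l2306, o5655, l673, o8231] l11827 := rupP (by decide +kernel)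
theorem r11828 : PImp [o5735, l8915, l1103] l11828 := rupP (by decide +kernel)
theorem r11829 : PImp [l11827, l732, o7981] l11829 := rupP (by decide +kernel)
theorem r11830 : PImp [l11828, l11829] l11830 := rupP (by decide +kernel)
theorem r11831 : PImp [l11830, l8445, l11170] l11831 := rupP (by decide +kernel)
theorem r11832 : PImp [l10393, l11371, l6818, o1117, l3933, o1112, l11808, o1454, o1461, o1911, o2402, l11831] l11832 := rupP (by decide +kernel)
theorem r11833 : PImp [l10393, l10395, l2708, l11371, l2673, o337, l4080, o718, o724, l11826, o336, o290, o736, l11832, l3932, o1095, l3930, o1493, o1486, l1071, l11656, o3438, o3003, l2278, l8445, l9047, l5667, o8099, o1924, o4647, o7769, l740] l11833 := rupP (by decide +kernel)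
theorem r11834 : PImp [o3414, l2322, l1279, l3167, o8248, o5321] l11834 := rupP (by decide +kernel)
theorem r11835 : PImp [l10393, l10395, o340, l11371, l8458, l5225, o305, o1152, l476, l472, l11833, l5041, o275, o272, l5042, o708, o710, l11823, l3932, o1095, o1090, l11824, o1486, l3234, o1927, o1928, l3228, l11834, l11651, l6198] l11835 := rupP (by decide +kernel)
theorem r11836 : PImp [l2322, o8345, l11672] l11836 := rupP (by decide +kernel)
theorem r11837 : PImp [l10393, l10395, l2708, l11371, l6818, o1117, l11820, l3932, o1095, l3930, o1493, o1486, l1071, l11836, o3438, o3039, o3003, l2278, l8445, l9047, l10829, l9533, l3179, l3866, l5667, l8912, o4756, o1924, o4641, l58] l11837 := rupP (by decide +kernel)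
theorem r11838 : PImp [l11828, l6194, o3753, o3752, l11747, o7850, l1698, o1535, o1534, l673, o8231, o2287, l740, o7898] l11838 := rupP (by decide +kernel)
theorem r11839 : PImp [l11838, l8445, l11170] l11839 := rupP (by decide +kernel)
theorem r11840 : PImp [l10393, l11371, l6818, o1117, l3933, o1112, l11808, o1454, o1911, o2402, l11839] l11840 := rupP (by decide +kernel)
theorem r11841 : PImp [l10393, l10395, l2708, l11371, l2673, l6818, o1117, o337, o295, l4080, o718, o724, l11837, o336, o290, o736, l11840, l3932, o1095, l3930, o1493, o1486, l1071, l11836, o3438, o3003, l2278, l8445, l9047, l5667, o8099, o1924, o4647, o7769, l740] l11841 := rupP (by decide +kernel)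
theorem r11842 : PImp [l10393, l10395, l11371, l6818, o1117, l3933, o1112, o1454, l5041, l5042, l8458, o1152, l11453, o1939, o3414, o3689, l2322, l11739, l11742, o8284, l8449, o1927, o2306, o4666, o1959, l4469, l4625, o2713, o4595, l8393] l11842 := rupP (by decide +kernel)
theorem r11843 : PImp [l10393, l10395, l5041, l5042, l11371, l8458, l6818, o1117, l3933, o1112, o1454, o1461, l11842, o3446, o3039, o3003, l2303, l8403, o5319, o7785, l3559, o1927, o2269, l4453, l8393, o7706, o4756, o4640] l11843 := rupP (by decide +kernel)
theorem r11844 : PImp [l10394, l10393, l10395, l11466, l11371, l5035, l4834, l8458, l2708, l6818, l3933, o1132, o8328, l7703, o1117, o1124, o1565, o1939, o1969, o2364, l1146, l8818, l5208, l3500, l3505, o3460, l4438, l8185, o351, l5039, o305, o800, o774, o340, o3461, l390, l5225, l1145, l7840, o1159, l3927, o1152, o1569, l476, l472, l11818, l11835, l11841, l5041, o275, o272, o708, o710, l11843, l3932, o1095, o1090, l11824, o1486, l3234, o1927, o1928, l3228, l11834, o3039, l6198, l3874, l3873] l11844 := rupP (by decide +kernel)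
theorem r11845 : PImp [l8318, l5102, l3236, o5422, o5417, o5416, l5151, l5075, l10924, l11474, l2398] l11845 := rupP (by decide +kernel)
theorem r11846 : PImp [l3236, l3238, l8318, l494, l490, l7703, l3008, o335, l11479, o5422, o5417, o5416, o5415, l5151, l5075, l2518, l10924, l2398, l3015, l8923] l11846 := rupP (by decide +kernel)
theorem r11847 : PImp [l3238, l7703, l3008, l4587, l10924, l11368, l8923, l3015] l11847 := rupP (by decide +kernel)
theorem r11848 : PImp [l10395, l11371, o1921, l5102, o1076, l6423, l11361, l4308] l11848 := rupP (by decide +kernel)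
theorem r11849 : PImp [l11093, l3926] l11849 := rupP (by decide +kernel)
theorem r11850 : PImp [l4498, l4587, l3236, l8918, l11849] l11850 := rupP (by decide +kernel)
theorem r11851 : PImp [l11361, l3620] l11851 := rupP (by decide +kernel)
theorem r11852 : PImp [l4498, l4587, l3236, l3238, l11849, l11851, l11092, o4579, l8923, l4497] l11852 := rupP (by decide +kernel)
theorem r11853 : PImp [l3236, l3238, l455, l5075, l451, l2518, l3632, l4573, l8923] l11853 := rupP (by decide +kernel)
theorem r11854 : PImp [l3624, l3617] l11854 := rupP (by decide +kernel)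
theorem r11855 : PImp [l3236, l3238, l8431, l4962, l2969, l11854, l460, l5151, l11853] l11855 := rupP (by decide +kernel)
theorem r11856 : PImp [o289, l11848, l3236, l11855, l3926, l5093, l11366, l2423, l2439] l11856 := rupP (by decide +kernel)
theorem r11857 : PImp [l11850, l11852] l11857 := rupP (by decide +kernel)
theorem r11858 : PImp [l11857, l5102, l6382, l4824, l4822] l11858 := rupP (by decide +kernel)
theorem r11859 : PImp [l3236, l8318, l5035, o257, l10924, l11853, l11368, o5521, o5427, l2795, l2718, o7556, o7519, o1600] l11859 := rupP (by decide +kernel)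
theorem r11860 : PImp [l10393, l11466, l11371, l8458, l2673, l5225, l7840, l3927, l7703, l11858, o289, l4079, l11856, l11848, l8318, l3236, o1899, o1142, l3238, o2229, o2399, l11846, l8431, l4965, o2708, l2969, l11859, l5151, l11367, o4577, l5078, l5096, o6507] l11860 := rupP (by decide +kernel)
theorem r11861 : PImp [l3236, l8318, l5035, o257, l10924, o671, o641, l11368, o3374, l2370, o7554, l5096, o5425, o5423, o1070, l11361, l5075, o3432, l3632, o7639, l4487, l4484, o2215, o616, o4605, l761] l11861 := rupP (by decide +kernel)
theorem r11862 : PImp [l3236, l3238, l8318, l7840, o289, l8431, l4965, o4259, o4730, o2708, l4960, o2711, l11861, l5151, l11367, o4577, l5078, l5096, o6507] l11862 := rupP (by decide +kernel)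
theorem r11863 : PImp [l10393, o271, o1911, o2402, l3228, l3234, l11466, l11371, l6818, o1117, l3933, o1112, o1461, o1454, l4080, o337, l8458, l2708, o351, l5035, o305, o800, l390, l2673, l5225, o1159, l3927, l7703, l3008, l325, o3406, l11828, o5594, o5592, l4628, l4626, o3407, o2845, l2985, o3397, o3398, o3427, l5667, o268, l4919, l8919, o1106, o1107, o687, o680, l1091, o2287, o2283, o7731, o7730, l11860, l8393, l632, o4281, o4628, l740, l1103, l9900, l1697, l8318, l5102, o1142, o1105, l3236, o1899, o1428, o2225, l11862, l4498, o251, l11851, l4587, o660, o5425, l11092, o7554, l11368, o3374] l11863 := rupP (by decide +kernel)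
theorem r11864 : PImp [l10393, l3228, l3234, l11466, l11371, l6818, o1117, l3933, o1112, o1461, o1454, l8458, l476, l472, o271, l11863, o3438, o3022, o3003, l8445, l6715, l5667, l4929, o5298, o4754, l6828, o1106, l8443, l11860] l11864 := rupP (by decide +kernel)
theorem r11865 : PImp [l494, l490, o5417, o5415, l11853, l2518, l2975] l11865 := rupP (by decide +kernel)
theorem r11866 : PImp [l11626, l8915, l8919] l11866 := rupP (by decide +kernel)
theorem r11867 : PImp [l494, l490, o1142, l11479, o5422, l11865, l5151] l11867 := rupP (by decide +kernel)
theorem r11868 : PImp [l10395, l10393, l11466, l11371, l8458, l2708, l7703, l6818, o1117, l3933, o1124, o1565, o1939, o2364, l8818, l5039, l2673, l5225, l3927, l11858, l11860, o335, o289, l11848, l3236, o1899, l11866, l11867, l5093, l11366, l4586, l2524] l11868 := rupP (by decide +kernel)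
theorem r11869 : PImp [l10394, l10393, l5042, l3234, l11371, l6818, o1117, o1461, o1454, l5208, l5039, l3008, l325, l2983, l3017, o2845, l2985, o3397, l5667, l4817, l8444, l4954, l5881, l8437, o4608] l11869 := rupP (by decide +kernel)
theorem r11870 : PImp [l10394, l10393, l3236, l3234, l11371, l6818, o1117, o1461, o1454, l8458, l5208, o3460, l5039, l2673, l5225, l494, l490, l8441, l11479, o5596, o5595, o5417, o5411, o5415, l5075, l2518, l3632, l2976, l2423, l4484, l4482, l10664, o2269, l11869, o3436, o3438, l2490, o7897, l1698, l5881, o4659, o5602, o4618] l11870 := rupP (by decide +kernel)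
theorem r11871 : PImp [l5035, o257, o671, l3236, l10924, l11368, o3374, l2370, o7554, l5096, o5425, o5423, o1070, l11361, l5075, o3432, l3632, l4484, l4482, o4605, l10664, l761, l11861, o2215, o7491] l11871 := rupP (by decide +kernel)
theorem r11872 : PImp [l10394, l10393, l3236, l3238, l8431, l11371, l6818, l3933, o1105, o2225, l5039, o289, l11808, l3228, l3234, o1117, o1112, o1454, o295, o1132, l8458, l5208, o3460, l4438, l8185, l2673, l5225, l7840, l7703, l5035, o257, o246, o640, o639, l11870, l8397, l11747, l8000, o7687, o2716, l4919, o1096, o8053, o4281, o4259, l4960, o2711, l11871, l11854, l460, l455, l5075, l451, l2518, o3352, l3632, l446, l2423, l4484, l2415, o4605, o1067, o1070, o1071, l761, l1494, l2334, l1400, l1485] l11872 := rupP (by decide +kernel)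
theorem r11873 : PImp [l5151, o334, o5425, l5078, l4566, o7570, l11368, o3374] l11873 := rupP (by decide +kernel)
theorem r11874 : PImp [l10394, l10393, o2225, l3236, o335, l5035, o352, o336, o746, l11808, l3228, l11371, l6818, l3933, o1112, o351, l5039, o305, o800, l4438, o774, o337, o724, o718, o295, o1132, l8458, l5208, o3460, o1117, l8185, l2673, l5225, l7703, o1142, o1428, l11873, l11870, l11872, l8397, l11747, l8919] l11874 := rupP (by decide +kernel)
theorem r11875 : PImp [l10393, l10395, l7703, l11466, l11371, l6818, o1117, l3933, o1124, o1565, o1939, o2364, l8458, l8818, o1159, l3927, l3236, o1899, l11874, l5093, l11366, l4586, l2524] l11875 := rupP (by decide +kernel)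
theorem r11876 : PImp [l10393, l10395, l11466, l11371, l8458, l7703, l6818, o1117, l3933, o1124, o1565, o1939, o2364, l8818, l5039, l2673, l5225, o289, l11875, o1921, l5102, o1076, l6423, l11361, o3432, l4309, o8342, o7512] l11876 := rupP (by decide +kernel)
theorem r11877 : PImp [l4498, l4587, l3236, o1899, l11849, o2225, o1142, l11851, o1428, o5425, l11092, o7554, l11368, o3374] l11877 := rupP (by decide +kernel)
theorem r11878 : PImp [l10394, l10393, l10395, o351, l5035, l7703, l11466, l11371, l6818, o1117, l3933, o1124, o1565, o1939, o2364, l8458, l8818, l5039, o305, o800, l4438, o774, o337, o724, o718, l4080, l2708, l3927, o1160, l5208, o3460, l8185, o1159, l11808, o1911, o2402, l11864, l11868, l11876, o251, o660, l11877, l5102, l6382, l4824, l4822] l11878 := rupP (by decide +kernel)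
theorem r11879 : PImp [l10395, l10394, l10393, l11466, l11371, l8458, l6818, l7703, o1117, l3933, o1124, o1565, o1939, o1969, o2364, l8818, l5208, o3460, l4438, l8185, o8373, o351, l5035, l5039, o305, o800, o774, o799, o771, o3461, l5225, o1159, l3927, o1152, o1569, l11453, o337, o295, o718, l11878, l3932, o1095, o1090, l3930, o1486, l1071, o2257, l11836, o3438, o3003, l8445, l9047, l5667, o5628, o8917, o1958, o7765, o7940, o5685, o3687, o7946] l11879 := rupP (by decide +kernel)
theorem r11880 : PImp [l10393, l5041, l5042, l11371, l8458, l2673, l5225, l7840, l11858, l11823, l11856, l3932, l3930, l11824, l5870, l8912, o6346] l11880 := rupP (by decide +kernel)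
theorem r11881 : PImp [l10394, l10393, l10395, o4543, l11466, l11371, l5035, l4834, l8458, l2708, l7703, l6818, o1117, l3933, o1124, o1565, o1939, o1969, o2364, o4555, l1146, l8818, l5039, l8900, o1941, o1132, l1145, l8902, o8328, l8721, l3374, l5208, l3500, l3505, o1975, o3460, l4438, l8185, o340, o3461, l390, l5225, o4561, l3007, l3006, l3384, l501, l7840, o4567, o1159, l3927, o1152, o1569, l476, l472, l11844, l4892, l11879, l5041, o275, o272, o708, o710, l11880, l11843, l3932, o1095, o1090, l11824, o1486, l3234, o1927, o1928, l3228, l11834, o3015, l6198, l3904, l3905] l11881 := rupP (by decide +kernel)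
theorem r11882 : PImp [o5437, o5835, l4628, l7293, o3427] l11882 := rupP (by decide +kernel)
theorem r11883 : PImp [l11626, l8915, l7293] l11883 := rupP (by decide +kernel)
theorem r11884 : PImp [o1911, l6571, l11882, o3535, o8232] l11884 := rupP (by decide +kernel)
theorem r11885 : PImp [l9048, l5674, l2986] l11885 := rupP (by decide +kernel)
theorem r11886 : PImp [l490, o1112, o1146, o1454, o1461, l11885, l3228, o1911, l6571, l11884, l3234, o3535, l5652, l5042, o290, o8232, l468, l3558, o5437, o5433, o3446, l5138, l1698, o3434, o3436, l2490, o7981, o1106, o2269, l673, o7897, o8231, l2306, o5655] l11886 := rupP (by decide +kernel)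
theorem r11887 : PImp [l2708, l11883, l11886, o1095, o1486, o1605, l11656, o3756, l7293, l9817] l11887 := rupP (by decide +kernel)
theorem r11888 : PImp [l2708, o1152, o337, o295, l4080, o718, o724, l11887, o2337, o2340, o2402, o1911, l11885, o1095, o1090, o1491, o1486, l11656, l2303, o3756, l8445, l11614, o5326, o7768, l11627, o5636, o3413, o5628, o7765] l11888 := rupP (by decide +kernel)
theorem r11889 : PImp [l10394, l10393, l10395, l7703, l3008, l3025, l3797, l11466, l11371, l6818, o1117, l3933, o1124, o1565, o1939, o1969, o2364, l8458, l11305, l3431, l8818, l5208, l3500, l3505, o3460, l4438, l8185, o351, l5035, l5039, o305, o800, o774, o340, o3461, l2835, l390, l2673, l5225, l3435, l494, o1159, l3927, o1152, o1569, l476, l472, l11888, l5041, o275, o272, o708, o710, l11823, l3932, o1095, o1090, l11824, o1486, l3234, o1927, o1928, l3228, l11834, o3015, l6198, l3904, l3905] l11889 := rupP (by decide +kernel)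
theorem r11890 : PImp [o295, l2708, l11885, o1911, o2402, l11886, l8397, l11747, l7293] l11890 := rupP (by decide +kernel)
theorem r11891 : PImp [l10395, l2708, o337, o295, l4080, o718, o724, l11890, l3932, o1095, l3930, o1491, o1486, l1071, l11836, o3438, o3015, o3003, l2303, o3756, l8445, l5667, l11614, o1925, l3898, o7768, o4742, o4628, l8912, o8099] l11891 := rupP (by decide +kernel)
theorem r11892 : PImp [l10394, l10393, l10395, l7703, l3008, l3025, l3797, l11466, l11371, l6818, o1117, l3933, o1124, o1565, o1939, o1969, o2364, l8458, l11305, l3431, l8818, l5208, l3500, l3505, o3460, l4438, l8185, o351, l5035, l5039, o305, o800, o774, o340, o3461, l2835, l390, l2673, l5225, l7840, l3435, l494, o1159, l3927, o1152, o1569, l476, l472, l11889, l11891, l5041, o275, o272, o708, o710, l11843, l3932, o1095, o1090, l11824, o1486, l3234, o1927, o1928, l3228, l11834, o3015, l6198, l3904, l3905] l11892 := rupP (by decide +kernel)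
theorem r11893 : PImp [l10395, l10394, l10393, l11466, l11371, l8458, l6818, l7703, o1117, l3933, o1124, o1565, o1939, o2364, l8818, l5208, o3460, l8185, o8373, o351, l5035, l5039, o305, o800, o774, l5225, o1159, l3927, o1152, o1569, o337, o295, l4080, o718, o724, l11868, o2340, o2402, o1911, l11885, o1095, o1090, o1486, l11656, l8445, l9455, o5628, o7765, o8652] l11893 := rupP (by decide +kernel)
theorem r11894 : PImp [l10395, l10394, l10393, l11466, l11371, l6818, l7703, o1117, l3933, o1124, o1565, o1939, o1969, o2364, l8458, l8818, l5208, l3500, l3505, l4438, o340, o3461, l390, l5039, l3927, l5035, l11893, o275, o272, o708, o710, l11880] l11894 := rupP (by decide +kernel)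
theorem r11895 : PImp [l10393, l3228, l3234, l11466, l11371, l6818, o1117, l3933, o1112, o1461, l8458, o3461, l11863, o3015, o3003, l2303, l8445, l4945, l8393, l8447, o4742, o4628] l11895 := rupP (by decide +kernel)
theorem r11896 : PImp [o7898, o7731] l11896 := rupP (by decide +kernel)
theorem r11897 : PImp [l1698, o7981, o5691, o5628, o2269, o7848, l734, o2267, l2311, o1513, l11896, l740, o4647, l5881, o8170, l1705] l11897 := rupP (by decide +kernel)
theorem r11898 : PImp [l10393, l5042, l7703, l11885, o1911, o2324, l3228, l3234, l11466, l11371, l6818, o1117, l3933, o1112, o1461, o1454, o295, l5035, o305, o800, l8458, l2673, l5225, l7840, o1124, o1565, o1159, l3927, o3406, o3696, l11828, o5593, l4808, l11897, l11747, l8000, l11625, l5510, l8919, o2716, o2717, l8447, o1096, l4954, o8053, o4608, l2762, o4628, o5606, l9900, l732, l8318, l5102, o1142, o1105, o1899, o1428, o2225, l11862, o251, l11877, o660] l11898 := rupP (by decide +kernel)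
theorem r11899 : PImp [l10394, l10393, l10395, o351, l5035, l7703, l11466, l11371, l6818, o1117, l3933, o1124, o1565, o1939, o2364, l8458, l8818, l5039, o305, o800, l4438, o774, o337, o724, o718, l4080, l5208, o3460, l8185, o8373, l4892, o8933, l2708, l3927, o1160, o3461, o352, o1112, l11885, o1461, l3228, o1911, l3234, o2402, l11895, o336, o736, o746, l11898, o3438, o3039, o3003, l2303, l8445, l5667, l4919, l8447, o4756, o8053, o4640] l11899 := rupP (by decide +kernel)
theorem r11900 : PImp [l10395, l10394, l10393, l11466, l11371, l8458, l6818, l7703, o1117, l3933, o1124, o1565, o1939, o1969, o2364, l8818, l5208, o3460, l4438, l8185, o8373, o351, l5035, l5039, o305, o800, o774, o8933, o3461, l5225, o1159, l3927, o1152, o1569, o337, o295, o718, l11899, l3932, o1095, o1090, l3930, o1486, l1071, l11836, o2257, o3438, o3003, l8445, l5667, l9455, o5686, o5628, o1958, o7765, o7940, o3687, o7946] l11900 := rupP (by decide +kernel)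
theorem r11901 : PImp [l10394, l10393, l10395, l11466, l11371, l5035, l11801, l4834, l8458, l8721, l3374, l6818, l7703, o1117, l3933, o1124, o1565, o1939, o1969, o2364, l11305, l3431, o4555, l1146, l2998, l11758, l501, l4775, l8818, l5208, o3460, l4438, l8185, o340, o351, l5039, o305, o799, o3549, o3548, o3461, l2835, l390, l5225, l4771, l2993, l476, l5224, o3164, l3008, l3025, o3168, l3026, o3173, l3000, o3202, l1145, o4561, l3007, l3006, l3384, l7840, o4567, l4844, l3435, o2367, o3573, o1159, l3927, o1152, o1575, o1569, l472, o1132, o1160, l8900, o1941, o1975, l8903, l8727, l8906, l485, l3478, l3484, l9611, l9303, o358, o801, l8905, l3505, l3500, l2707, l2708, o5823, o5818, l8902, o8328, l3797, o4543, l11881, l11892, l11894, l11900, l5041, o275, o272, o708, o710, l11843, l3932, o1095, o1090, l11824, o1486, l3234, o1927, o1928, l3228, l11834, o3015, l6198, l3904, l3905] l11901 := rupP (by decide +kernel)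
theorem r11902 : PImp [l11777, l9437, o1975] l11902 := rupP (by decide +kernel)
theorem r11903 : PImp [l7703, o4555, l1146, o5513, l9305, l10173, o2393] l11903 := rupP (by decide +kernel)
theorem r11904 : PImp [l10393, l11371, l6818, l3933, o1116, l11635, l11739] l11904 := rupP (by decide +kernel)
theorem r11905 : PImp [l10393, l11371, l6818, o1117, l3933, o1112, o1454, l11904, o3438, o3039, l11652] l11905 := rupP (by decide +kernel)
theorem r11906 : PImp [l10393, l11371, l6818, o1117, l3933, o1112, o1461, o1454, o1116, l476, l472, l11655, l11643, l1698, o5298, o5312, o7981, l5138, o2269, o3436, l2490, o7897, l5881, o4659, o5602, o4618] l11906 := rupP (by decide +kernel)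
theorem r11907 : PImp [l10393, l11371, l3318, l8458, l7840, l3317, l11885, l3228, o1911, l6570, l3234, o2402, o3649, l11642, o278, l5042, l11906, o3438, o3018, o3010, l5163] l11907 := rupP (by decide +kernel)
theorem r11908 : PImp [l11836, l736] l11908 := rupP (by decide +kernel)
theorem r11909 : PImp [l10395, l3932, l3930, l1510, o1925, l3898, o6442, o7768, o4742, o4628] l11909 := rupP (by decide +kernel)
theorem r11910 : PImp [l10395, l10394, l10393, o358, l11466, l11371, l8458, l6818, l7703, o1117, l3933, o1124, o1565, o1939, o1969, o2364, l8818, l5208, o3460, l8185, o3461, l5039, l2673, l5225, l5035, o305, o1159, l3927, o1152, o1575, o1569, o708, o688, o694, o275, l11907, o1095, o1496, o1493, o1491, o1486, l11908, o3438, o3015, o3003, o3018, o3010, l2278, l2303, l8445, l11909, l5042, o336, o290, l5163, o736, l3228, o1931, o1959, l11809, o2316, l740, o7769] l11910 := rupP (by decide +kernel)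
theorem r11911 : PImp [l10393, l10395, l5041, l11371, l6818, o1117, l3933, o1112, l11905, o1454, o1461, l11904, o3446, o3039, o3003, l2303, l8403, o5319, o7785, l3559, o1927, o2269, l4453, l1510, o7706, o4756, o8027, o4640] l11911 := rupP (by decide +kernel)
theorem r11912 : PImp [l3930, l8453, l1510] l11912 := rupP (by decide +kernel)
theorem r11913 : PImp [l10393, l10395, l11371, l8458, l5225, l476, l472, o730, l2269, o690, o336, o295, l5041, l11911, l3932, o1095, o1090, o1486, l11912, l3234, o1927, o1928, l3228, l11834, l6198, o3039, l3874, l3873] l11913 := rupP (by decide +kernel)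
theorem r11914 : PImp [o8067, o8018] l11914 := rupP (by decide +kernel)
theorem r11915 : PImp [o1454, o7981, o5628, o5691, o2269, l734, o7848, o2250, o1513, o2243, o2244, l11896, l740, l11914, l32, l1680, l11625, o8231] l11915 := rupP (by decide +kernel)
theorem r11916 : PImp [l10393, l11371, l8458, l5225, l8318, l2673, l5035, o352, l7703, l11858, o335, o289, l11848, l3236, o1899, o2225, o2399, l11847, l11845, o7567, o3641, l11873, o259, l10924, o7442, o5522, l2398, l2397] l11916 := rupP (by decide +kernel)
theorem r11917 : PImp [l10395, l10393, o1911, o2402, o2324, l11466, l11371, l6818, o1117, l3933, o1112, o1454, l3317, l8837, l7703, o1124, o1565, o1939, o2364, l5035, l4834, l8458, l8818, l5039, o312, o358, l2673, l5225, l8721, l3384, l3374, l501, l7840, o1159, l3927, l3008, l325, o3696, o3712, l11642, o810, o278, o754, o755, l11915, l1103, l9900, l11625, o3436, l3594, l3589, l8318, o1142, l3316, o1428, l11916, l11779, l8810, l7772, l8830, l3075, l8876, l4547, l8842, o3907] l11917 := rupP (by decide +kernel)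
theorem r11918 : PImp [l10394, l10393, l10395, l7703, l11466, l11371, l6818, o1117, l3933, o1124, o1565, o1939, o2364, l5035, l4834, l8458, l8818, l5039, o312, l8721, l3374, l5208, o3461, l3384, l3317, o1112, l11885, o1454, o1461, o1911, o2402, l11917, o3677, l2303, l8445, o8768, o5628, o2269, l734, o8769, o2250, o7730, o3711, o2244, l2306, l11642, o5655, o754, l11914] l11918 := rupP (by decide +kernel)
theorem r11919 : PImp [l3860, l6793, l3865] l11919 := rupP (by decide +kernel)
theorem r11920 : PImp [l10394, l10393, l10395, o351, l5035, l7703, l11466, l11371, l6818, o1117, l3933, o1124, o1565, o1939, o1969, o2364, l11801, l4834, l8458, l11305, l3431, o4555, l1146, l2998, l11758, l8721, l501, l4775, l8818, l5039, o305, o799, l3374, l5208, o3549, o3548, o3461, o3460, l390, l5225, l4771, l2993, l476, l5224, o3164, l3008, l3025, o3168, l3026, o3173, l3000, o3202, l1145, o4561, l3007, l3006, l3384, o4567, l4844, l494, l490, l3435, o3573, l404, o1159, l3927, o1152, o1569, l11453, o340, l4438, o297, o771, l8185, l11901, l3319, l11903, l11777, l11902, o1941, o1975, o3838, l3003, o3749, l11654, l11660,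 l11657, l3505, l3500, l8636, l2576, l2597, o5823, o8917, o4552, o4543, o5494, l3478, l11913, o708, o688, o694, l11910, o275, o8373, o5757, l11918, o1095, o1090, o1486, l11908, o3446, o3039, l8445, o5319, o5687, o5628, l11919, o1930, o1959, o7765, o7940, o3687, o7946] l11920 := rupP (by decide +kernel)
theorem r11921 : PImp [l10395, l10394, l10393, o1939, o1969, o2367, o2364, l7703, l2998, l11466, l11371, l6818, o1117, l3933, o1124, o1565, o1159, l3927, o1152, o1575, l476, l5035, o351, l11305, l3431, l11801, l4834, l8721, o4555, l5224, l8458, l11758, l501, l3374, l1146, o3189, l4775, l8818, l5039, l5208, o305, l390, o799, l11920, l11800, l4431, o8658, o5475, o5483, l3505, l3483] l11921 := rupP (by decide +kernel)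
theorem r11922 : PImp [l10393, l11466, l11371, l6818, o1117, l3933, o1124, o1565, l7703, o1939, o1969, o2364, l11921, l3430, o5364, l11298, l3422, l1210, l6253, l8376, o301] l11922 := rupP (by decide +kernel)
theorem r11923 : PImp [l7703, l2998, l2993, l3008, l3026, l3025, l3927, l5035, l3216, l4871, l11758, l1412, l4834, l433, o4317, l5796, o4537, l2750, l3793, l11305, o6429] l11923 := rupP (by decide +kernel)
theorem r11924 : PImp [l2707, o8978, o9147, o5825, l5653] l11924 := rupP (by decide +kernel)
theorem r11925 : PImp [l7703, l3008, l325, l5035, l9811, l3303, l9755, l11613, l6709, l5034, l4502, o2478, o3924, l4526, o804, l4009, o947, l7207, o1647, l5738, l7100, o5098] l11925 := rupP (by decide +kernel)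
theorem r11926 : PImp [l4502, o804, l7207, o1647, l3308, l9086, l9084] l11926 := rupP (by decide +kernel)
theorem r11927 : PImp [l7703, l5035, l3954, o1597, l11926, l11499, l10731, l3308] l11927 := rupP (by decide +kernel)
theorem r11928 : PImp [l7703, l5035, l4502, l8955, o101, o119, l3091, l10815, l1073, o6092, l4053, o3888] l11928 := rupP (by decide +kernel)
theorem r11929 : PImp [l7703, l3008, l1218, l325, l11925, l11928, l7117, l9099, l3308, l3091, l4070, o5875, o3895, l2779, o3891, l5047, l6290, l1246, o2464] l11929 := rupP (by decide +kernel)
theorem r11930 : PImp [l8702, o2461, l4059, o2450, o3895, l5047] l11930 := rupP (by decide +kernel)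
theorem r11931 : PImp [o6959, o6976] l11931 := rupP (by decide +kernel)
theorem r11932 : PImp [o182, o388, l11931, o5064, l3642, l2880] l11932 := rupP (by decide +kernel)
theorem r11933 : PImp [l3704, l4351] l11933 := rupP (by decide +kernel)
theorem r11934 : PImp [l3241, l2882, l2891, l11932, l1000, l11933, l437, l4348, l3652] l11934 := rupP (by decide +kernel)
theorem r11935 : PImp [l3240, l3241, l6997, l442, l439, l4635, l3679, l4764] l11935 := rupP (by decide +kernel)
theorem r11936 : PImp [l10394, l10393, l3927, o1160, l11923, l11922, l5035, l11466, l11371, l7703, l3008, l3378, l11301, l503, o4887, l1218, l8376, o305, o351, o799, o1159, o1152, o1575, o5380, l2998, o4904, l11305, o4550, l4850, o5195, o5193, l4769, l641, o3563, l4969, o5381, o4972, l2678, l11800, l3481, l5909, o3555, l6818, o4968, l2996, o3184, l3837, l3501, l7707, l4800, l4661, l5208, l5178, l3497, l3488, o340, l5730, o1939, o1969, o2367, o9163, l3000, o3202, l5719, o1970, l494, l490, l3435, l3431, o352, l1217, l4968, l4841, o4977, o4897, o4883, o4910, l3387, l3370, o1117, l3933, o1124, o1565, l325, l11726, l3240, o1816, o2011,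 l11927, l11929, l11934, o2812, l11935, l1000, l8313, l3672, l436, o5029, l3711, l11933] l11936 := rupP (by decide +kernel)
theorem r11937 : PImp [l2884, l2887, l2888, l11671, l8495, l11550] l11937 := rupP (by decide +kernel)
theorem r11938 : PImp [l3209, l3681] l11938 := rupP (by decide +kernel)
theorem r11939 : PImp [o1942, o2005, o2008, l11937, l8500, l11938, l3682, l4337] l11939 := rupP (by decide +kernel)
theorem r11940 : PImp [l3683, l3675] l11940 := rupP (by decide +kernel)
theorem r11941 : PImp [l3240, l11940, l4764, l2893, l4672, o5035] l11941 := rupP (by decide +kernel)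
theorem r11942 : PImp [l3240, l2882, l11941, l1000, l11933, l4348, l3706] l11942 := rupP (by decide +kernel)
theorem r11943 : PImp [l3240, o2812, l11935, l1000, l8313, l3672, l436, o5029, l3711, l11933] l11943 := rupP (by decide +kernel)
theorem r11944 : PImp [l10394, l10393, l11923, l11922, l5035, l11466, l11371, l7703, l3008, l3378, l11301, l503, o4887, l1218, l8376, o305, o351, o799, o1159, l3927, o1152, o1575, o5380, l2998, o4904, l11305, o4550, l4850, o5195, o5193, l4769, l641, o3563, l4969, o5381, o4972, l2678, l11800, l3481, l5909, o3555, l6818, o4968, l2996, o3184, l3837, l3501, l7707, l4800, l4661, l5208, l3488, l5730, o1939, o1969, o2367, o9163, l5719, o1970, l494, l490, l3435, l3431, l1217, l4968, l3000, l4841, o4910, l3387, l3370, l325, l11936, l11939, l3240, o1816, o2011, l11943, l11934, l11942] l11944 := rupP (by decide +kernel)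
theorem r11945 : PImp [l11933, l3715] l11945 := rupP (by decide +kernel)
theorem r11946 : PImp [l3241, l4635, l3644, o1002, o992, o1166, l11945, l3701, l4500, o173, o314, l4974, o365, o5019, l11549, o6864, o3837] l11946 := rupP (by decide +kernel)
theorem r11947 : PImp [l11371, o1152, o1942, o1979, o2005, o2008, l11937, l2973, l8500, l7605, l436, o5056, l6070, o5029, o5035, o5038, o183, o1133, l11946, l3195, l3657] l11947 := rupP (by decide +kernel)
theorem r11948 : PImp [l3240, l11943, l2882, l11941, l1000, l11933, l437, l4348, l3652] l11948 := rupP (by decide +kernel)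
theorem r11949 : PImp [l436, o183, l3209, o1133, l11946, l3194, l3657] l11949 := rupP (by decide +kernel)
theorem r11950 : PImp [l11371, o1152, o1942, o1979, l11947, o2005, o2008, l11937, l2973, l8500, o5056, o5029, o5035, o5038, l11949, l3682, l4337] l11950 := rupP (by decide +kernel)
theorem r11951 : PImp [l7703, l3008, l325, l5035, l3240, o1816, l11943, l11948, o2011, l11934] l11951 := rupP (by decide +kernel)
theorem r11952 : PImp [l10394, l10393, l11923, o1969, l11922, l3378, l3370, l11301, o4910, l7703, o4904, l4969, l3008, l503, o4887, l1217, o351, l11305, l3431, o5195, l494, l490, l1218, l2998, l5035, o4550, l4850, l5719, l11466, l11371, l8376, l5909, o305, o799, o1159, l3927, o1152, o1575, o5380, o5193, l4769, l641, o3563, o5381, o4972, l2678, l11800, l3481, l3488, o3555, l6818, o4968, l2996, o3184, l3837, l5208, l3501, l7707, o358, o1160, l3000, l4841, l3497, l3387, l4800, l4661, l8726, o2393, l11924, l2574, o5513, o340, o312, l7469, o9147, l11951, o8906, l3003, o6600, l5730, o1939, o2367, o9163, o1970, l3435, l4968, l11944, l11950] l11952 := rupP (by decide +kernel)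
theorem r11953 : PImp [l436, l1000, l3682, l4359, l4362] l11953 := rupP (by decide +kernel)
theorem r11954 : PImp [l10394, l10393, l7703, l11466, l3927, l11371, o1152, o1159, o1575, l11923, l11922, l3378, l11301, o4904, l4968, l3008, l503, o4887, l1218, o351, l11305, l5035, l8376, o305, o799, l2998, o4550, l4850, o5195, o5193, l4769, l2678, l5909, o1939, o1969, o2367, o5380, l641, o9163, l4969, o5381, o4972, l11800, o3563, l5730, l6818, o4968, l2996, o3184, l3837, o3555, l4800, l4661, o358, o1160, l3000, l4841, l3501, l3497, l3387, l8726, o2393, l11924, l2574, o5513, o340, o312, l7469, o9147, l3370, o4910, l1217, l3431, l494, l490, l5719, l3481, l3488, l5208, l7707, l11951, o1942, o2005, o1970, o2008, l11937, l2973, o1979, o8906, l3003, o6600, l3435, l8500, l436, o5056, o5029, o5035, o5038, l11952, l11953, o183, l11938, l3209, o1133, l11946, l3195, l3657] l11954 := rupP (by decide +kernel)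
theorem r11955 : PImp [l11529, l11938] l11955 := rupP (by decide +kernel)
theorem r11956 : PImp [l1000, l4500, o4383, l3674, l3940] l11956 := rupP (by decide +kernel)
theorem r11957 : PImp [l11956, l3682, l4337] l11957 := rupP (by decide +kernel)
theorem r11958 : PImp [o183, l11529, l3209, l11955, l436, o5056, o5029, o5035, o5038, o1133, l11946, l3195, l3657] l11958 := rupP (by decide +kernel)
theorem r11959 : PImp [l10394, l10393, l11466, l11371, l7703, l3008, l11923, l11922, l3378, l11301, l503, o4887, l1218, l8376, o312, o358, l5035, o305, o351, o799, o1159, l3927, o1152, o1575, o5380, l2998, o4904, l11305, o4550, l4850, o5195, o5193, l4769, l641, o3563, l4969, o5381, o4972, l2678, l11800, l3481, l5909, o3555, l6818, o4968, l2996, o3184, l3837, l3501, l7707, l4800, l4661, l3497, l5208, l3488, o340, l5730, o1939, o1969, o2367, o9163, l5719, o1970, l494, l490, l3435, l3431, l1217, l4968, l3000, l4841, o4897, o4910, l3387, l3370, o1160, l8726, o2393, l11924, l3003, l2574, o6600, o5513, l7469, o9147, o8906, l11951, o1942, o1979, o2005, o2008, l11937, l2973, l11954, l11958, l11956, l11957, l11953] l11959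 := rupP (by decide +kernel)
theorem r11960 : PImp [l7971, l6261] l11960 := rupP (by decide +kernel)
theorem r11961 : PImp [l10394, l10393, l7703, l3008, l11923, l11922, l3378, l11301, l503, o4887, l1218, l11466, l11371, l6818, o5381, o4968, l2996, l5035, l8376, o305, o351, o799, o1159, l3927, o1152, o1575, o5380, l2998, o4904, l11305, o4550, l4850, o5195, o5193, l4769, l641, o3184, l3837, o3555, l4800, l4661, l5909, l3501, l3497, o1939, o1969, o2367, o9163, l5719, l3431, l3000, l4841, o4910, l11959, l11960, l6271, l5714, o4576, l6172, l3003, o6374] l11961 := rupP (by decide +kernel)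
theorem r11962 : PImp [o4576, l9776] l11962 := rupP (by decide +kernel)
theorem r11963 : PImp [l10393, l11371, l6818, l3933, o1132, l11962, o5407, l10402] l11963 := rupP (by decide +kernel)
theorem r11964 : PImp [l10393, l11371, l6818, l3933, o1132, o1160, l11963, o1975, l9109, l9898, o5407, l8377] l11964 := rupP (by decide +kernel)
theorem r11965 : PImp [l5704, l5519] l11965 := rupP (by decide +kernel)
theorem r11966 : PImp [l11965, o5513, l10911] l11966 := rupP (by decide +kernel)
theorem r11967 : PImp [l10394, l10393, l11923, l11922, l5035, l11466, l11371, l7703, l3008, l3378, l11301, l503, o4887, l1218, l8376, o305, o351, o799, o1159, l3927, o1152, o1575, o5380, l2998, o4904, l11305, o4550, l4850, o5195, o5193, l4769, l641, o3555, l6818, o5381, o4968, l2996, o3184, l3837, l5208, l4969, o4972, l2678, l11800, o3563, l5730, l5909, l3435, l494, l1217, l3000, l4841, o4910, l3387, l3370, l325, l11961, l4083, l11964, l3319, l11966, o1975, l7763, l3003, l2560, l11657] l11967 := rupP (by decide +kernel)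
theorem r11968 : PImp [o5825, l2574, l7732] l11968 := rupP (by decide +kernel)
theorem r11969 : PImp [l3681, l4764, l3194, l4635] l11969 := rupP (by decide +kernel)
theorem r11970 : PImp [o1942, l11726, o2005, o2008, l11937, l8500, o5035, l11969, l3682, l4337] l11970 := rupP (by decide +kernel)
theorem r11971 : PImp [l3240, l3241, l11941, l11932] l11971 := rupP (by decide +kernel)
theorem r11972 : PImp [l7703, l3008, l325, l5035, l3240, o1816, l11943, o2011, l2882, l2891, l11971, l1000, l11933, l4348, l3700] l11972 := rupP (by decide +kernel)
theorem r11973 : PImp [o1942, o2005, o2008, l11937, l8500, o5035, l11970, l11953, l7775, l11969] l11973 := rupP (by decide +kernel)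
theorem r11974 : PImp [l7207, o1647, l5738, l7100, o5098] l11974 := rupP (by decide +kernel)
theorem r11975 : PImp [o1644, o1647, o1758, l5735, l7059, o5721] l11975 := rupP (by decide +kernel)
theorem r11976 : PImp [l5034, l4526, l11974, o947, o1530, l11975, l3308, l7100, l8064, l3303, o3972, o2508, l4009] l11976 := rupP (by decide +kernel)
theorem r11977 : PImp [o1647, l7207, o1530, l11975] l11977 := rupP (by decide +kernel)
theorem r11978 : PImp [l10393, l7703, l3008, l3014, l2973, o1942, l5178, l325, l5035, o1939, l3241, l4635, l11945, l3701, l4500, o314, l4974, l4686, o4237, l10723, l4502, o99, o804, o55, l11976, l11977, l3308, o1738, l11930, o1661, l4053, o3938, o3929, l3997, o2601, o6233, o6198] l11978 := rupP (by decide +kernel)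
theorem r11979 : PImp [l7703, l3008, l325, l5035, l4502, o99, o804, l11976] l11979 := rupP (by decide +kernel)
theorem r11980 : PImp [l10723, l10973, l7117, o3936, o3891, l3308, l5863, l4070] l11980 := rupP (by decide +kernel)
theorem r11981 : PImp [l10393, l8500, l436, l7703, l3008, l325, o2812, o2813, l5178, l5035, o1939, l11927, l6070, l11978, l3657, l1233, l3191, o6899, l11980, l4502, l11979, o99, o804, l11977, l3308, l11930, l4053, o3888, o6092, o2444, l1140, o4235, l3949, l3715, l3712] l11981 := rupP (by decide +kernel)
theorem r11982 : PImp [l3241, l4635, l11945, l3644, l3701, o1002, o992, l4500, o173, o1166, o314, l4974, o365, o5019, l11549, o6936, o3837] l11982 := rupP (by decide +kernel)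
theorem r11983 : PImp [l3194, l3657] l11983 := rupP (by decide +kernel)
theorem r11984 : PImp [l8500, l436, l7703, l2973, l8726, o1979, l5653, l3003, o6600, o358, o1160, o183, l11981, l11983, l4635, l4764, o1133, l11982] l11984 := rupP (by decide +kernel)
theorem r11985 : PImp [l8500, l11984, l3682, l4337] l11985 := rupP (by decide +kernel)
theorem r11986 : PImp [l7703, l5035, l3954, o1597, l11926, l10731, l3308, l10796, l10789] l11986 := rupP (by decide +kernel)
theorem r11987 : PImp [l10393, l8500, l11953, l436, l7703, l3008, l325, o2812, o2813, l5178, l5035, o1939, l3208, l11986, l11980, l11979, l11978, l4502, l3657, o99, o804, l1233, l11977, l3191, l3308, o6899, l11930, l6649, o3888, o6092, o2444, l1140, o4235, l3949, l3715, l3712] l11987 := rupP (by decide +kernel)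
theorem r11988 : PImp [l10394, l10393, l7703, l11466, l3927, l11371, o1152, o1159, o1575, l11923, l11922, l3378, l11301, o4904, l4968, l3008, l503, o4887, l1218, o351, l11305, l5035, l8376, o305, o799, l2998, o4550, l4850, o5195, o5193, l4769, l2678, l5909, o1939, o1969, o2367, o5380, l641, o9163, l4969, o5381, o4972, l11800, o3563, l5730, l6818, o4968, l2996, o3184, l3837, o3555, l4800, l4661, o358, o1160, l3000, l4841, l3501, l3497, l3387, l8726, o2393, l3481, l3488, l11968, o5513, o9066, o9147, l3370, o4910, l1217, l3431, l494, l490, l5719, l5208, l7707, l11967, l11972, o1942, o2005, o1970, o2008, l11937, l2973, o1979, l5653, l3003, o6600, o8906, o5407, l3933, o1132, o340, l3435, o4897, o4883, l8500, l436, o5056, o5029, o5035, o5038, l11973, l11985, l11953, o183, l11987, l11983, l4635, l4764, o1133, l11982] l11988 := rupP (by decide +kernel)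
theorem r11989 : PImp [l2973, l11957, l11762, l11529, l11969, o5035] l11989 := rupP (by decide +kernel)
theorem r11990 : PImp [l11529, l7775] l11990 := rupP (by decide +kernel)
theorem r11991 : PImp [l11956, l11953] l11991 := rupP (by decide +kernel)
theorem r11992 : PImp [l2973, l11989, l11991, l11529, l11990, o5035, l11969] l11992 := rupP (by decide +kernel)
theorem r11993 : PImp [l7703, l3008, l1218, l1217, l5035, l3954, o1597, l11926, l7772, l10731, l8043, l11533, o3936, o3938, l3308, l7200, l5812, l3085] l11993 := rupP (by decide +kernel)
theorem r11994 : PImp [l5035, l4083, l3319, l8726, l7703, l5178, l3008, l1218, l11993, l11980, l11979, l4502, o99, o804, l11977, l3308, l11930, l4053, o3938, l3997, l4000] l11994 := rupP (by decide +kernel)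
theorem r11995 : PImp [l7703, l11992, l2973, l5035, l4083, l3319, l8726, l5653, l3003, o6600, o1979, l3008, l1218, l11957, o183, l11529, l436, o5056, o5029, o5035, o5038, l11994, l11983, l4635, l4764, o1133, l11982] l11995 := rupP (by decide +kernel)
theorem r11996 : PImp [l7703, l5178, l5035, l3954, o1597, l11926, l10731, l8043, l3308, l7200, l7199, l5266, l8946, l4547] l11996 := rupP (by decide +kernel)
theorem r11997 : PImp [l5035, l4083, l3319, l8726, l11996, l11980, l4502, o99, o804, l11977, l3308, l6649, o3938, l3997, l4000] l11997 := rupP (by decide +kernel)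
theorem r11998 : PImp [l10394, l10393, l5035, l4083, l11967, l11923, l11922, l11466, l11371, l7703, l3008, l3378, l11301, l503, o4887, l1218, l8376, o305, o351, o799, o1159, l3927, o1152, o1575, o5380, l2998, o4904, l11305, o4550, l4850, o5195, o5193, l4769, l641, o3563, l4969, o5381, o4972, l2678, l11800, l3481, l5909, o3555, l6818, o4968, l2996, o3184, l3837, l3501, l7707, l4800, l4661, l3497, l5208, l3488, o340, l5730, o1939, o1969, o2367, o9163, l5719, o1970, l494, l490, l3435, l3431, l1217, l4968, l3000, l4841, o4897, o4893, o4883, o4910, l3387, l3370, l3933, o1124, o1606, l3319, l8726, l11988, o2393, l11968, o5513, o5407, o9066, o9147, o8906, l5653, l11972, l3003, o1942, o1979, o6600, o2005, o2008, l11937, l2973, l11992, l11995, l11991, o183, l11529, l436, o5056, o5029, o5035, o5038, l11997, l11983, l4635, l4764, o1133, l11982] l11998 := rupP (by decide +kernel)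
theorem r11999 : PImp [l10394, l10393, l7703, l3008, l11923, l11922, l3378, l11301, l503, o4887, l1218, l11466, l11371, l6818, o5381, o4968, l2996, l5035, l8376, o305, o351, o799, o1159, l3927, o1152, o1575, o5380, l2998, o4904, l11305, o4550, l4850, o5195, o5193, l4769, l641, o3184, l3837, o3555, l4800, l4661, l5909, l3501, l3497, o1939, o1969, o2367, o9163, l5719, l3431, l3000, l4841, o4883, l4083, l11998, o1160, l11960, l6271, l5714, l6172, l6140, l3003] l11999 := rupP (by decide +kernel)
theorem r12000 : PImp [l11983, l3241, l4635, o1817, l3644, l4764, o992, l3315, o1133, l11945, o1166, l3701, l4500, o173, l4078, o314, l4974, o365, o5019, l11549, o6929, o3837] l12000 := rupP (by decide +kernel)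
theorem r12001 : PImp [l11371, o1152, o1942, o2005, o2008, l11937, l11973, l8500, l436, o5056, o5029, o5035, o5038, l12000, l3682, l4337, l11953] l12001 := rupP (by decide +kernel)
theorem r12002 : PImp [l11529, l436, o5056, o5029, o5035, o5038, l12000] l12002 := rupP (by decide +kernel)
theorem r12003 : PImp [l10394, l10393, l11923, l11922, l5035, l11466, l11371, l7703, l3008, l3378, l11301, l503, o4887, l1218, l8376, o305, o351, o799, o1159, l3927, o1152, o1575, o5380, l2998, o4904, l11305, o4550, l4850, o5195, o5193, l4769, l641, o3563, l4969, o5381, o4972, l2678, l11800, l3481, l5909, o3555, l6818, o4968, l2996, o3184, l3837, l3501, l7707, l4800, l4661, l5208, l3488, l5730, o1939, o1969, o2367, o9163, l5719, o1970, l494, l490, l3435, l3431, l1217, l4968, l3000, l4841, o4897, o4910, l3387, l3370, l325, l11967, l11999, o358, l11964, l3319, l11966, o1975, l7763, l3003, l5787, o5513, l6707, l11442, o9076, o6731, o6363, l11972, o1942, o2005, o2008, l11937, l2973, l12001, l11992, l12002, l11956, l11957, l11953] l12003 := rupP (by decide +kernel)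
theorem r12004 : PImp [l7703, l3008, l325, l5035, l3240, o1816, l11943, o2011, l2882, l2891, l11971, l1000, l11933, l437, l3652, l4325] l12004 := rupP (by decide +kernel)
theorem r12005 : PImp [o1979, l11371, o1152, o1942, o2005, o2008, l11937, l2973, l11958, l11973, l11950, l8500, l11953] l12005 := rupP (by decide +kernel)
theorem r12006 : PImp [l10393, o2393, l5035, l4083, l11371, l8376, o305, o351, o800, o812, o340, l5909, l2678, o1970, l494, l490, o799, o1969, o1152, l7703, o1939, l11924, l3003, l2574, o6600, o5513, l7469, o9147, o8906, l12004, o1942, o1979, o2005, o2008, l11937, l2973, l11958, l12005, l11957, l11991] l12006 := rupP (by decide +kernel)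
theorem r12007 : PImp [l3689, l4764, l3208, l3194, l4635] l12007 := rupP (by decide +kernel)
theorem r12008 : PImp [l11953, l3682, l4337] l12008 := rupP (by decide +kernel)
theorem r12009 : PImp [o1942, o2005, o2008, l11937, l8500, o5035, l12007, l12008] l12009 := rupP (by decide +kernel)
theorem r12010 : PImp [l10393, l11371, l8376, l5909, l2678, l494, l490, l5035, o305, o799, o1969, l7703, l3008, l325, o1939, l12009, l3240, o1816, l11943, o2011, l2882, l2891, l11971, l1000, l11933, l437, l3700, l4325] l12010 := rupP (by decide +kernel)
theorem r12011 : PImp [o5511, o5017, l11212] l12011 := rupP (by decide +kernel)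
theorem r12012 : PImp [l11529, l12007, o5035] l12012 := rupP (by decide +kernel)
theorem r12013 : PImp [o1942, o2005, o2008, l11937, l2973, l12012, l11957, l11991] l12013 := rupP (by decide +kernel)
theorem r12014 : PImp [l10394, l10393, l5035, l4083, l12003, l11923, l11922, l11466, l11371, l7703, l3008, l3378, l11301, l503, o4887, l1218, l8376, o305, o351, o799, o1159, l3927, o1152, o1575, o5380, l2998, o4904, l11305, o4550, l4850, o5195, o5193, l4769, l641, o3563, l4969, o5381, o4972, l2678, l11800, l3481, l5909, o3555, l6818, o4968, l2996, o3184, l3837, l3501, l7707, l4800, l4661, l3497, l5208, l3488, l5730, o1939, o1969, o2367, o9163, l5719, o1970, l494, l490, l3435, l3431, l1217, l4968, l3000, l4841, o4897, o4910, l3387, l3370, l325, l3319, l8726, o2393, l12006, l12011, o9066, o9147, o8906, l12010, l12013, l3240, o1816, l11943, o2011, l2882, l2891, l11971, l1000, l11933, l437, l3700, l4325] l12014 := rupP (by decide +kernel)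
theorem r12015 : PImp [l12009, l12013] l12015 := rupP (by decide +kernel)
theorem r12016 : PImp [l10393, l11371, l8376, l5909, l2678, l494, l490, l5035, o305, o799, o1969, l7703, l3008, l325, o1939, l12015, l3240, o1816, l11943, l12004, o2011, l2882, l2891, l11971, l1000, l11933, l437, l3700, l4325] l12016 := rupP (by decide +kernel)
theorem r12017 : PImp [l6261, o4576, o6801, o6419] l12017 := rupP (by decide +kernel)
theorem r12018 : PImp [l10394, l10393, l12003, l7703, l3008, l11923, l11922, l3378, l11301, l503, o4887, l1218, l11466, l11371, l6818, o5381, o4968, l2996, l5035, l8376, o305, o351, o799, o1159, l3927, o1152, o1575, o5380, l2998, o4904, l11305, o4550, l4850, o5195, o5193, l4769, l641, o3184, l3837, o3555, l4800, l4661, l5909, l3501, l3497, o1939, o1969, o2367, o9163, l5719, l3431, l3000, l4841, o4883, o4910, l4083, l12014, o1160, l12017, l6271, l5714, l6172, l6140, l3003] l12018 := rupP (by decide +kernel)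
theorem r12019 : PImp [l10394, l10393, l11923, l11922, l7703, l2998, l5035, l3378, l11301, o4904, l11305, o4550, l4850, o5195, o5193, l4769, l3008, l503, o4887, l1218, l5719, o1970, l3435, l3431, l494, l11466, l11371, l8376, o305, o351, o799, l1217, l4969, l4968, l3000, l4841, o5381, o4972, o4968, o4897, o4910, l3387, l3370, o5380, o1939, o1969, o2367, l2996, o1159, l3927, o1152, o1575, l6818, l325, l641, l2678, l5909, o3563, o3555, o3184, o9163, l11800, l5730, l3481, l3837, l3488, l5208, l4800, l3501, l4661, l7707, l12003, l12018, o358, l11964, l3319, l11966, o1975, l7763, l3003, l5787, l11442, o6731, o6363, l12016] l12019 := rupP (by decide +kernel)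
theorem r12020 : PImp [l10393, l5730, o3564, l3491, l5732, o5395, o8504, o8526] l12020 := rupP (by decide +kernel)
theorem r12021 : PImp [l10395, l4441, l4442] l12021 := rupP (by decide +kernel)
theorem r12022 : PImp [l10395, o1935, o2403, o2393, l7720] l12022 := rupP (by decide +kernel)
theorem r12023 : PImp [l5035, l4083, l3927, o1975, l11968, l12011, o8988, l5711, l2583] l12023 := rupP (by decide +kernel)
theorem r12024 : PImp [l5035, l4083, l11923, l11922, l7703, l2998, l3378, l11301, o4904, l11305, o4550, l4850, o5195, o5193, l4769, l494, l490, l3431, l4969, l3000, l4841, l3387, l3008, l325, l3319, l12023, o2393, l9109, l7190] l12024 := rupP (by decide +kernel)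
theorem r12025 : PImp [l10393, l11923, l11922, l7703, l2998, l5035, l3378, l11301, o4904, l11305, o4550, l4850, o5195, o5193, l4769, l3008, l503, o4887, l1218, l5719, l3435, l3431, l3000, l4841, o4883, l11466, l11371, l3927, l4083, l12024, o1160, l11960, l6271, o5825, l9211] l12025 := rupP (by decide +kernel)
theorem r12026 : PImp [l6208, l11962, l11237, l9140] l12026 := rupP (by decide +kernel)
theorem r12027 : PImp [l10393, o358, l11466, l11371, l11923, l11922, l3378, l11301, o4904, o4476, l12019, l12021, l7703, l2998, l5035, l11305, o4550, l4850, o5195, o5193, l4769, l3431, l3008, l503, o4887, l1218, l476, o4471, l3000, l4841, o4897, o4910, l3387, l3927, l325, l3319, l11964, l2846, l11795, l3505, l3512, l12026, o1975, l9109, o5513, l9898, l11214] l12027 := rupP (by decide +kernel)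
theorem r12028 : PImp [l3927, o1160, o2393, l7915, o5511, l11447, l5519] l12028 := rupP (by decide +kernel)
theorem r12029 : PImp [l10395, o1941, o5407, l2617, l6707, o3749, o8707] l12029 := rupP (by decide +kernel)
theorem r12030 : PImp [l12029, o5825, l9211] l12030 := rupP (by decide +kernel)
theorem r12031 : PImp [l5519, l4595] l12031 := rupP (by decide +kernel)
theorem r12032 : PImp [l10393, l11466, l11371, l11923, l11922, l3378, l11301, o4904, o4476, l12019, l12021, o340, l7703, l2998, l5035, l11305, o4550, l4850, o5195, o5193, l4769, l494, l490, l3435, l3008, l503, o4887, l1217, l4969, l4968, l3000, l4841, o4883, l3370, o1159, l3927, o1152, o1569, l11453, l5730, l12020, l12025, o358, o801, l12027, o1592, o1160, l12030, l12028, l12031, o5513, l10911] l12032 := rupP (by decide +kernel)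
theorem r12033 : PImp [l10393, o3564, l3491, l5732, o5395, o8504, o8526] l12033 := rupP (by decide +kernel)
theorem r12034 : PImp [l11371, o1152, o1942, o1979, l12005, o2005, o2008, l11937, l2973, l11958, l11956, l12008] l12034 := rupP (by decide +kernel)
theorem r12035 : PImp [l3241, l442, l3651, l2880, l1233] l12035 := rupP (by decide +kernel)
theorem r12036 : PImp [l2882, o182, o388, l12035, l437, o5062, l4672, l11933, l11931, l3703] l12036 := rupP (by decide +kernel)
theorem r12037 : PImp [l10393, l494, l5035, l11371, l8376, o305, o351, o799, o1969, l7703, l3008, l325, o1939, l12034, l3240, o1816, l11943, o2011, l2882, l2891, l12036, l1000, l11933, l437, l4348, l3652] l12037 := rupP (by decide +kernel)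
theorem r12038 : PImp [l10393, l11529, l436, l5035, l4083, o183, l7703, o2816, l2973, o1979, o1942, l3319, o1939, l4635, l4764, o1133, l11945, l11982, l3701, l11986, l4500, l4683, l11980, o314, l4502, o99, o804, o55, l11977, l3308, o1738, l6958, o1661, o3938, o3930, l3997, l7100, o2601, o6198, o6233] l12038 := rupP (by decide +kernel)
theorem r12039 : PImp [l10394, l10393, l11923, l11922, l3378, l11305, o5195, l3435, o2393, l11301, l7703, o4904, l4969, l494, l490, l3319, l12011, l5035, l4083, o5193, l11968, l8363, o9066, o8906, l11466, l3927, l11371, o1152, o1159, o1575, l4968, l3008, l503, o4887, l1218, o351, l8376, o305, o799, l2998, o4550, l4850, l4769, l11453, o1569, l12019, o4476, l12021, l12033, l390, l2846, l12032, o1939, o1942, o2005, o1970, o2008, l11937, l11529, o5038, o5035, o5029, o5056, l436, l325, o2812, o2813, l3370, l3387, o4910, o4897, l3000, l4841, l1217, l3431, l5719, l5653, l3003, o6600, l6818, l6184, l5208, l3481, l3501, l7707, l12037, l5178, l3497, o5407, l3933, o1124, o1606, o340, o4883, l11973, l12038, l3657, l11983, l1233, l11986, l3208, l3191, o6899, l11980, l4502, o99, o804,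 l11977, l3308, l6958, o3938, o3888, l7100, o6092, l4059, o2444, l1140, o4235, l3949, l3715, l3712] l12039 := rupP (by decide +kernel)
theorem r12040 : PImp [l11529, l436, l5035, l4083, o183, l7703, l2973, o1979, l3319, l4635, l4764, o1133, l11945, l11982, l3701, l11996, l4500, l11980, o37, o361, o86, l11977, l3308, l6958, o3938, l3997, l4000] l12040 := rupP (by decide +kernel)
theorem r12041 : PImp [l10394, l10393, l11466, l3927, l11371, o1152, o1159, o1575, l7703, l11923, l11922, l3378, l11301, o4904, l4968, l3008, l503, o4887, l1218, o351, l11305, l5035, l8376, o305, o799, l2998, o4550, l4850, o5195, o5193, l4769, l11453, o1569, l12019, o4476, l12021, l12033, l390, l2846, l12032, o1939, o1942, o2005, o1970, o2008, l11937, l3370, l3387, o4910, o4897, l3000, l4841, l4969, l1217, l3431, l3435, l5719, l4083, l3319, o2393, l11968, l8363, l494, l490, l12011, o9066, o8906, l5653, l3003, o6600, l6818, l6184, l5208, l3481, l3501, l7707, l12037, l3497, o5407, l3933, o1124, o1606, o340, o4883, o180, l11529, o5056, o5029, o5035, o5038, l12039, l11992, l12040, l11983, l11996, l11980, l4502, o99, o804, l11977,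 l3308, l6958, o3938, l3997, l4000] l12041 := rupP (by decide +kernel)
theorem r12042 : PImp [l10393, l11453, l11466, l11371, o1159, l3927, o1152, o1569, l11923, l11922, l3378, l11305, o5195, o5193, l12019, l11301, o4904, o4476, l12021, l12033, l390, l2846, o2393, l7703, l4969, l494, l490, l3319, l12011, l5035, l4083, l11968, l8363, o9066, o8906, l12032, l2998, o4550, l4850, l4769, o1970, l3435, l3008, l503, o4887, l1218, l8376, o305, o351, o799, l4968, l3000, l4841, o4897, l3387, o1575, o1939, o1942, o2005, o2008, l11937, l2973, l12041, l12008, l8500, l11956] l12042 := rupP (by decide +kernel)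
theorem r12043 : PImp [l10394, l10393, l11923, l11922, l3378, l11301, l7703, o4904, l4969, l11305, l494, l490, l3319, o2393, l12011, o5195, o5193, l5035, l4083, l11968, l12032, l11466, l11371, o4476, l12019, l12021, l2998, o4550, l4850, l4769, l3008, l503, o4887, l1218, l5719, o1970, l3435, l3431, o351, l1217, l4968, l3000, l4841, o4897, o4910, l3387, l3370, o1969, o1159, l3927, o1152, o1575, o1569, l6818, l325, l11453, l8363, l5653, o9066, l3003, o8906, o6600, l12033, l390, l3481, l2846, l6184, l5208, l3501, l7707, l12037, l12042, l3240, o1816, l11943, o2011, l2882, l2891, l12036, l1000, l11933, l4348, l3700] l12043 := rupP (by decide +kernel)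
theorem r12044 : PImp [l3319, l5035, l4083, l11305, l494, l490, l7703, l3008, l11923, l11922, l3378, l11301, l503, o4887, l1217, o4904, l4969, o4897, l325, o2393, l12011, l12043, l7733, o9147, o9066] l12044 := rupP (by decide +kernel)
theorem r12045 : PImp [l5035, l4083, l11923, l11922, l7703, l2998, l3378, l11301, o4904, l11305, o4550, l4850, o5195, o5193, l4769, l3000, l4841, l3387, l3008, l325, l3319, l12044, l9109, l7190] l12045 := rupP (by decide +kernel)
theorem r12046 : PImp [l10393, l12019, l11923, l11922, l7703, l3008, l3378, l11301, l503, o4887, l1218, l2998, l5035, o4904, l11305, o4550, l4850, l5719, o5195, o5193, l3431, l3000, l4841, o4883, l3387, l11466, l11371, l3927, l4083, l12045, o1160, l11960, o1975, l6271, o5825, l8566, l3003, l6141, l2576] l12046 := rupP (by decide +kernel)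
theorem r12047 : PImp [l3927, o1160, o358, l12019, l11923, l11922, l3378, l11305, o5195, o5193, l494, l490, l7703, l3008, l11301, l503, o4887, l1217, l3370, l5035, l11966, l12028] l12047 := rupP (by decide +kernel)
theorem r12048 : PImp [l11371, o1152, o1942, o2005, o2008, l11937, l2973, l12001, l11992, l12002, l12008, l11956] l12048 := rupP (by decide +kernel)
theorem r12049 : PImp [l10395, l10394, l10393, l12019, l11923, l11922, l7703, l2998, l5035, l3378, l11301, o4904, l11305, o4550, l4850, o5195, o5193, l4769, l3008, l503, o4887, l1218, l5719, o1970, l3435, l3431, l494, l11466, l11371, l8376, o305, o351, o799, l1217, l4969, l4968, o4476, l3000, l4841, o4897, o4910, l3387, l3370, o1969, o1159, l3927, o1152, o1575, o1569, l6818, l325, o1939, l12021, o340, l12032, l12046, o358, o801, l12027, o1592, o1160, l12047, o1941, o1975, l7763, l3003, l5787, o5513, o5407, l6707, l11442, l12029, l2560, o8707, o9076, o6731, o6363, l390, o2871, l3481, l2543, l5412, l3488, l5208, l3501, l7707, l12048, l3240, o1816, l11943, o2011, l2882, l2891, l12036, l1000, l11933, l4348, l3700] l12049 := rupP (by decide +kernel)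
theorem r12050 : PImp [l490, l3927, l5035, l4083, l11960, o1132, o1160, l12011, l7767, o9147, o9066] l12050 := rupP (by decide +kernel)
theorem r12051 : PImp [l10394, l10393, l11371, l6818, l7703, l11392, l4900, l4889, l11394] l12051 := rupP (by decide +kernel)
theorem r12052 : PImp [o1644, l1073, o1647, o1758, o2528, o6034, o3994, o4035, o6309, l5808, o1530] l12052 := rupP (by decide +kernel)
theorem r12053 : PImp [l3008, l1217, l10798, l6465, l4057, o2451, l7050, l2779] l12053 := rupP (by decide +kernel)
theorem r12054 : PImp [l3008, l1218, l12053, l3308, l9811, l1073, o2448, l3095, l3091, l9004] l12054 := rupP (by decide +kernel)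
theorem r12055 : PImp [l5992, l5004, l5006] l12055 := rupP (by decide +kernel)
theorem r12056 : PImp [l9086, l9084] l12056 := rupP (by decide +kernel)
theorem r12057 : PImp [l10394, l10393, l3927, l11466, l11371, o1152, l11305, l494, l490, l7703, l3008, l11923, l11922, l3378, l11301, l503, o4887, l1218, l8376, l12049, l2674, l2846, l3370, l6818, l3431, o4897, l476, o4904, o4471, l11795, l4664, o5458, o3543, o1939, l12019, l3505, l3512, o8798, l3933, l4969, o5195, o5193, l2998, l5035, o4550, l4850, l5719, l390, l485, l11453, o1159, o1569, l3490, l12033, o2393, l12050, o801, o358, l3473, l3494, l4769, l3435, l4968, o5381, o4972, o5380, o4977, o4910, l3387, o1124, l325, o1606, l3319, l12011, o5825, o5838, l8367, l9140, l3003, l4607, l2543, l11237, l11167, l6209, l5034, l12051, l5178, l12054, l4763, l9145, l12056, l3308, l10068, l7120, l7859, l5033, o3957, l5029, l4994] l12057 := rupP (by decide +kernel)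
theorem r12058 : PImp [l10393, l11453, l11466, l11371, o1159, l3927, o1152, o1569, l11923, l11922, l3378, l11305, o5195, o5193, l12019, l7703, l3008, l11301, l503, o4887, l1218, l8376, l12049, l2674, l2846, l390, l3431, o4897, l476, o4904, o4471, l11795, l3505, l485, l3512, l3490, l12033, l2998, l5035, o4550, l4850, l5719, l494, l490, l1217, l4969, l3370, l6818, l3933, o2393, l12050, o358, l12057, o1160, l12028, l12031, l10911, o5513] l12058 := rupP (by decide +kernel)
theorem r12059 : PImp [l10393, l11923, o1975, l11922, l7703, l2998, l5035, l3378, l11301, o4904, l11305, o4550, l4850, o5195, o5193, l4769, l11466, l11371, l3008, l503, o4887, l1218, l8376, l3000, l4841, l3387, l6818, l3933, l3927, l325, o1132, o1160, l9109, l12022, o5513, l4083, l11214, l9898] l12059 := rupP (by decide +kernel)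
theorem r12060 : PImp [l10393, l11371, l8376, l2674, l6247, o358, l5717, l6271, l8566, o5825] l12060 := rupP (by decide +kernel)
theorem r12061 : PImp [l10393, l12019, l11923, l11922, l7703, l2998, l5035, l3378, l11301, o4904, l11305, o4550, l4850, o5195, o5193, l4769, l3435, l3431, l11466, l11371, l3008, l503, o4887, l1218, l8376, l1217, l476, o4471, l4969, l4968, l3000, l4841, o4897, o4883, l3387, o1159, l3927, o1152, o1569, l11453, l12049, l2674, l2846, l390, l11795, l3505, l485, l3494, l3512, l3490, l12033, l12058, o1975, l12059, l3318, l3319, l12060, l4082, l12029, l12030, l7935] l12061 := rupP (by decide +kernel)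
theorem r12062 : PImp [l3927, o1160, l12011, l9965, o5825] l12062 := rupP (by decide +kernel)
theorem r12063 : PImp [l10393, l11453, l11466, l11371, o1159, l3927, o1152, o1569, l11923, l11922, l3378, l11305, o5195, o5193, l12019, l7703, l3008, l11301, l503, o4887, l1218, l8376, l2673, l2846, l390, l3431, o4897, l476, o4904, o4471, l11795, l3505, l485, l3512, l3490, l12033, l2998, l5035, o4550, l4850, l5719, l494, l490, l1217, l4969, l3370, l6818, l3933, o2393, l12050, o358, l12062, l12031, o5513, l9208] l12063 := rupP (by decide +kernel)
theorem r12064 : PImp [l10395, l10393, l11371, l3318, o1941, l8376, l2673, o358, l6268, l6271, o5837, l2576, l8566] l12064 := rupP (by decide +kernel)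
theorem r12065 : PImp [l10393, l12019, l11923, l11922, l7703, l2998, l5035, l3378, l11301, o4904, l11305, o4550, l4850, o5195, o5193, l4769, l3435, l3431, l11466, l11371, l3008, l503, o4887, l1218, l8376, l476, o4471, l4968, l3000, l4841, o4897, o4883, o5381, o1159, l3927, o1152, o1569, l11453, l2673, l2846, l390, l11795, l3505, l485, l3494, l3512, l3490, l12033, l12063, o1975, l12059, l3318, l3319, l12064, l4082, l12029, l12030, l7935] l12065 := rupP (by decide +kernel)
theorem r12066 : PImp [l10393, l11453, o1939, o3556, o3564, l12033, o306, o780, o8504, o5775, o8799, o8798] l12066 := rupP (by decide +kernel)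
theorem r12067 : PImp [l10393, l10394, l8363, l12066, l390, l2846, l6184, l4800, l4661] l12067 := rupP (by decide +kernel)
theorem r12068 : PImp [o5825, o2393, o351, l7703, l3008, l325, l5035, o358, l12067, l7733, o9147, o9066] l12068 := rupP (by decide +kernel)
theorem r12069 : PImp [l3008, l325, l10977, l9099, l8870, l1084, l5847, l5267, o3958, l6290] l12069 := rupP (by decide +kernel)
theorem r12070 : PImp [l7703, l5035, l12069, l5034, l9145, l10799, l3308, l1073, l3095, l9096, l713, l5072, l5050] l12070 := rupP (by decide +kernel)
theorem r12071 : PImp [l7703, l5035, l5034, l9145, l10799, l3308, l1073, l3095, o6034, l9096, o3947, l713, l4995, l5050, l4049] l12071 := rupP (by decide +kernel)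
theorem r12072 : PImp [l7703, l12071, l10977, l3008, l325, l12070, l9060, l7838, l1084, l5847, l5267, o3958, l6290] l12072 := rupP (by decide +kernel)
theorem r12073 : PImp [l1084, l5847, l3095, l407, l409, l3989, l728, l4512, l4701] l12073 := rupP (by decide +kernel)
theorem r12074 : PImp [l9099, l1246, l4070, o2460, o3906, l6290] l12074 := rupP (by decide +kernel)
theorem r12075 : PImp [l7703, l3008, l325, l12071, l10977, l12072, l10454, l12073, l3308, l3303, l12074, l7053, o3958, o3906, l6288] l12075 := rupP (by decide +kernel)
theorem r12076 : PImp [l7703, l3008, l1218, l5035, l5034, l9145, l12053, l3308, l1073, l3095, o6034, l9096, o3947, l713, l4995, l5050, l4049] l12076 := rupP (by decide +kernel)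
theorem r12077 : PImp [l7703, l3008, l1218, l325, l12075, l5178, l12076, l10977, l12073, l3308, l9755, l9754, l3091, o5875, o6459] l12077 := rupP (by decide +kernel)
theorem r12078 : PImp [l10393, l7703, l5035, l4502, l10801, o101, o119, l10799, l3308, l10815, l1073, l4889, l3095, l10756, l9096] l12078 := rupP (by decide +kernel)
theorem r12079 : PImp [l9099, l9754, l9028, l785] l12079 := rupP (by decide +kernel)
theorem r12080 : PImp [l10977, l3008, l325, l12069, l12074, l10454] l12080 := rupP (by decide +kernel)
theorem r12081 : PImp [l3008, l325, l10977, l12073, l3308, l3303, l12079, l12080, l7053, l7838, l10454, l4070, o3906] l12081 := rupP (by decide +kernel)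
theorem r12082 : PImp [l3008, l1218, l1217, l12053, l8261, l8262, l3308, l3091, l1073] l12082 := rupP (by decide +kernel)
theorem r12083 : PImp [l10394, l10393, o2393, l12065, l12061, l12019, l11923, l11922, l7703, l2998, l5035, l3378, l11301, o4904, l11305, o4550, l4850, o5195, o5193, l4769, l494, l490, o5506, l3435, l3431, o351, o352, l11466, l11371, l3008, l503, o4887, l1218, l8376, l1217, l476, o4471, l4969, l4968, l3000, l4841, o5380, o4977, o4897, o4883, o4910, l3387, l3370, l6818, o1117, l3933, o1124, o1565, o1159, l3927, o1152, o1569, l325, o1939, o1132, o1160, l12011, o5825, o5838, l12068, l4083, l8367, l12027, l4608, l3003, l4607, l2674, l11237, l8882, o9057, l2846, o3543, l2543, o8920, l390, l11795, l4664, l3505, l12066, o5458, l485, o8798, l3490, o8905, o801, l6209, l12077, l12081, l5034, l12078, l5178, l12082, l12056, l3308, l10068, l7120, l7859, l5033, o3949, l4999, l5029] l12083 := rupP (by decide +kernel)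
theorem r12084 : PImp [l11923, l11922, l7703, l3008, l3378, l11301, l503, o4887, l1218, l2998, l5035, o4904, l11305, o4550, l4850, l5719, o5195, o5193, l3431, l1217, l3370, l12083, l11960, l12031, o5513, l9208] l12084 := rupP (by decide +kernel)
theorem r12085 : PImp [l11923, o1975, l11922, l7703, l2998, l5035, l3378, l11301, o4904, l11305, o4550, l4850, o5195, o5193, l4769, l3008, l503, o4887, l1218, l3000, l4841, l3387, l3927, l325, o1160, l9109, o5513, l7190, l11214, l4083, l9898] l12085 := rupP (by decide +kernel)
theorem r12086 : PImp [l10393, l11371, o358, l6271, o5825, l8566, l3003, l6141, l2576] l12086 := rupP (by decide +kernel)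
theorem r12087 : PImp [o4576, o5825, l11511, l8569, l5663] l12087 := rupP (by decide +kernel)
theorem r12088 : PImp [l10394, l4661, l4800] l12088 := rupP (by decide +kernel)
theorem r12089 : PImp [l10393, l10395, l12019, l11923, l11922, l3378, l11305, o5195, o5193, o5506, l3435, o351, l7703, l3008, l11301, l503, o4887, l1218, o4904, l4968, l3000, l5035, l4841, o4897, o4883, o4910, l3387, o1159, l3927, l11466, l11371, o1152, o1569, l6818, l325, l12065, l12061, l12084, o1975, l12085, l3319, l12086, l4083, l12087, l2617, l11442, l3003, o6731, l12066, l390, o2871, l5412, l12088] l12089 := rupP (by decide +kernel)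
theorem r12090 : PImp [l2707, l5653, l5711] l12090 := rupP (by decide +kernel)
theorem r12091 : PImp [l10394, l10393, o358, o5825, o1160, o2393, o1970, l494, l490, l5035, l11371, l8376, o305, o351, o799, o1969, o1152, l6818, l7703, l3008, l325, o1939, l12090, l2590, l2583, l7478, o9147, o8906, l12066, l12067, l390, l2846, l6184, l11800, l2674, l5208, l3481, l3501, l12015, l7707, l3240, o1816, l11943, o2011, l2882, l2891, l12036, l1000, l11933, l437, l4325, l3652, l3700] l12091 := rupP (by decide +kernel)
theorem r12092 : PImp [l10393, o5825, o1160, o2393, l494, o351, l11371, l8376, o1152, l5035, o358, l12091, l2673, l2846, l390, l12066, l8733, o9147, o9066] l12092 := rupP (by decide +kernel)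
theorem r12093 : PImp [l10393, l10394, o2393, l12089, l12019, l11923, l11922, l7703, l2998, l5035, l3378, l11301, o4904, l11305, o4550, l4850, o5195, o5193, l4769, l3008, l503, o4887, l1218, l5719, l494, l490, o5506, l3435, l3431, l11466, l11371, l8376, l1217, l476, o4471, l4969, l4968, l3000, l4841, o5381, o4972, o4897, o4910, l3387, l3370, o5380, o1159, l3927, o1152, o1575, o1569, l6818, l3933, o1939, o1132, o1160, l12011, o5825, o5838, l12092, l4083, l12027, l8367, l2674, l4608, l2543, l2846, o3543, l8882, l11795, l4664, o5458, o8798, o801, o8662, o8484] l12093 := rupP (by decide +kernel)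
theorem r12094 : PImp [l12089, l11923, l11922, l7703, l3008, l3378, l11301, l503, o4887, l1218, l2998, l5035, o4904, l11305, o4550, l4850, l5719, o5195, o5193, l3431, l1217, o4910, l3370, l12093, l12017, l12031, o5513, l9208] l12094 := rupP (by decide +kernel)
theorem r12095 : PImp [l10395, l10394, l10393, l5035, l11466, l11371, l7703, l3008, l11923, l11922, l3378, l11301, l503, o4887, l1218, l8376, o305, l1217, o4904, l4969, l4968, l3000, l4841, o5381, o4972, o4897, o4883, o4910, l3387, l3370, o1969, l2998, o1159, l3927, o1152, o1575, o1569, l6818, l325, o1939, o351, l11305, o799, l494, l3431, l3435, o4550, o5195, o5506, l4850, o5193, o1970, l5719, l4769, l12019, l12089, l12094, o1975, l12085, l3319, l12086, l4083, l12087, l2617, l6707, l11442, l3003, o6731, o6363, l12066, l390, o2871, l2846, l5412, l11800, l2674, l2673, l12088, l5208, l5730, l3481, l3501, l12015, l3488, l7707, l3240, o1816, l11943, o2011, o2396, l2882, l2891, l2879, l12036, l1000, o313, l11933, o391, o5107, o6843, o6937] l12095 := rupP (by decide +kernel)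
theorem r12096 : PImp [l10393, l11466, l11371, l6818, o1117, l3933, o1124, o1565, l7703, l3008, o1939, l11923, o1969, l11922, o2364, l3378, l503, l3370, l11301, o4887, l1218, l8376, l12095, l3430, o301, o5364, l6253] l12096 := rupP (by decide +kernel)
theorem r12097 : PImp [l10393, o5485, l3490, o8799] l12097 := rupP (by decide +kernel)
theorem r12098 : PImp [l10394, l10393, o351, l11466, l11371, l5035, l7703, l3000, l12096, l4838, l4834, l8458, l11294, l501, o1159, l3927, o1152, o1569, l6818, l11453, l3374, l8854, l5038, o306, l5208, o780, l390, o3549, l12097, l485, l3483, l3505] l12098 := rupP (by decide +kernel)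
theorem r12099 : PImp [l10393, l7703, l3000, l12096, l11294, l501, l5035, l4838, l4834, l2998, l2996, l11466, l11371, l8376, l12098, l4773, l5388, l4846, l4772, o4326, l3762] l12099 := rupP (by decide +kernel)
theorem r12100 : PImp [l10393, l7703, l5035, l3000, l12096, l4838, l11294, o4557, l1145, o4563, l3006, l11466, l11371, l4834, l8458, l501, l12098, l5039, l8901, l5038] l12100 := rupP (by decide +kernel)
theorem r12101 : PImp [l3006, l6476, l8790, o2501] l12101 := rupP (by decide +kernel)
theorem r12102 : PImp [o2552, o2530, o6313, o4185, o5816, o6047, l8782, o1530] l12102 := rupP (by decide +kernel)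
theorem r12103 : PImp [l10393, l5039, l7703, o4557, l1145, l11371, l8458, o5823, o4543, l6001, l5268, l5274, o5818, l3008, l1218, l421, l3927, o1160, l6818, l3933, o1132, l2992, l3012, l1146, o4563, l3007, l3006, l4967, l2996, o1152, l5035, l8817, l8776, o853, l8789, o923, l5034, l4502, l4526, o99, o118, o804, l12101, l3308, o1643, o1644, o1647, o1732, o1760, l12102, l4058, o4079, o4157, o4229, l3974, l8782, l3054, o1530, o6047] l12103 := rupP (by decide +kernel)
theorem r12104 : PImp [l3303, l9961, l8861, l8863, l3091, l1246, l4029, o2454] l12104 := rupP (by decide +kernel)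
theorem r12105 : PImp [l10393, l5034, l4526, l3008, l1218, l421, l2992, l1145, o1643, o1644, o1647, o1732, o1760, l12102, l12104, l4058, o4079, o4157, o4229, l3974, l8782, l3054, o1530, o6047] l12105 := rupP (by decide +kernel)
theorem r12106 : PImp [l10393, l7703, l1145, l11371, l8458, l6001, l5274, l3008, l1218, l421, l3012, l6818, l3933, l5035, l4502, l8874, o99, o118, o804, o853, o923, l12105, l3308, l12104, o2493, o2489, l8858] l12106 := rupP (by decide +kernel)
theorem r12107 : PImp [l421, l6566, o4081, o4076, o4085, l8757, l8788, l8870] l12107 := rupP (by decide +kernel)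
theorem r12108 : PImp [l421, l3007, l3006, l12107, l9744, l7772, l9663, l8830] l12108 := rupP (by decide +kernel)
theorem r12109 : PImp [l10395, l10394, l10393, l3927, o1160, o358, o9147, o4844, l11371, l8458, o5823, o4543, l5274, l6818, l7703, o4557, l1146, l8818, l5208, o3461, l2835, l5039, l1145, l6001, l5268, o5818, l3008, l1218, l421, l3933, o1132, l5035, o352, o4563, l3006, l4967, l2996, o1116, o1152, o340, o297, l1127, o5841, o5742, o8522, l12103, l8833, l12106] l12109 := rupP (by decide +kernel)
theorem r12110 : PImp [l10393, o306, l3483, o780, l12097] l12110 := rupP (by decide +kernel)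
theorem r12111 : PImp [l10393, l7703, o4557, l1145, l11371, l8458, o5823, o4543, l6001, l5268, l5274, l3008, l1218, o358, l3927, o1160, l1146, o4563, l2707, l9435, o9147, l12109, l12108] l12111 := rupP (by decide +kernel)
theorem r12112 : PImp [l10393, l7703, o4557, l1145, l11371, l8458, o5823, o4543, l6001, l5268, l5274, o5818, l3008, l1218, l421, l3927, o1160, l6818, l3933, o1132, l1146, o4563, l3006, l4967, l2996, l12103, l8843, l12106] l12112 := rupP (by decide +kernel)
theorem r12113 : PImp [l10393, l3006, o2493, o2542, o2569, o2443, l8546] l12113 := rupP (by decide +kernel)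
theorem r12114 : PImp [l8713, l3308, l4058, l713, o3891, o5915] l12114 := rupP (by decide +kernel)
theorem r12115 : PImp [l10393, l5039, l7703, o4557, l1145, l11371, l8458, o5823, o4543, l6001, l5268, l5274, l3927, o1160, o4563, l3006, o1152, l8817, l6476, l12114] l12115 := rupP (by decide +kernel)
theorem r12116 : PImp [l10393, l7703, o4557, l1145, l11371, l8458, o5823, o4543, l6001, l5268, l5274, o5818, l3008, l1218, l421, l3927, o1160, l6818, l3933, o1132, l2992, l3012, l1146, o4563, l3006, l4967, l12108, l8874, l12112, l1245, l12113, l12115, l12104, l12114, l8843] l12116 := rupP (by decide +kernel)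
theorem r12117 : PImp [l3008, l325, l8810, l7772, l8043, l8830, l9202] l12117 := rupP (by decide +kernel)
theorem r12118 : PImp [l10395, l10394, l10393, l7703, o4557, l1145, l11371, l8458, o5823, o4543, l6001, l5268, l5274, o5818, l3008, l1218, l421, o358, l3927, o1160, l6818, l3933, o1132, o2393, o351, l5035, o352, l2992, l3012, l1146, o4563, l3007, l3006, l501, l4967, o1116, l11453, o1939, l3216, o1970, l4774, o1969, o2366, o2367, o2370, l8818, l5039, l5208, o305, l390, l2839, o3461, o3554, o3555, l4662, o800, o799, o8465, o8506, o5165, o4844, o8915, o8801, l3500, l12110, o340, o297, l4438, o771, o8799, o5494, o5840, o5745, l3478, l3484, o8522, l12111, l3003, l2574, l2599, l8837, l12116, l1244, l12117, l8874, l12113, o2460, l12115, l8895, l8843, l12114] l12118 := rupP (by decide +kernel)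
theorem r12119 : PImp [l4772, l3758, l3762] l12119 := rupP (by decide +kernel)
theorem r12120 : PImp [l10395, l10394, l10393, o351, l5035, l7703, l11371, l8458, l6818, o4557, l1146, l11453, l2996, l501, l12119, o1970, o2366, l8818, l5039, o305, o799, l2673, o1939, l3216, o1969, o2367, l3008, l1218, l421, o358, l3927, o1160, o2393, l1145, o4563, l4967, o1152, o5823, o5818, o4543, l5274, l5268, l6001, l5208, l390, l2839, o3555, l12118, l12110, o8506, l1138, o5169, o5168, l4438, o8801, l8819, l3478, l3484, l3500, o771, l8843, o8799, o5840] l12120 := rupP (by decide +kernel)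
theorem r12121 : PImp [l10395, l10394, l10393, o358, l3927, o1160, o2393, o351, l7703, o4557, l1146, l11371, l8458, l501, l2996, l6818, l5035, l11453, o1939, l12119, l3216, o1970, l3763, o1969, o2366, o2367, l8818, l5039, o305, o799, l12120, o4525, l8106, l8107, l5274, o8978, l5208, l390, l2839, o3555, l5460, l12110, o8506, o5485, l3491, l11404] l12121 := rupP (by decide +kernel)
theorem r12122 : PImp [l10394, l10393, l11371, l6818, l5208, l4662, l3505, o5333, o5337] l12122 := rupP (by decide +kernel)
theorem r12123 : PImp [l10395, l10393, o1939, o1935, o2383, o2364] l12123 := rupP (by decide +kernel)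
theorem r12124 : PImp [l8733, l8363] l12124 := rupP (by decide +kernel)
theorem r12125 : PImp [l10393, l5034, l4526, l3308, o1643, o1644, o1647, o1732, o1760, l12102, l4063, o4079, o4157, o4229, l3974, l8782, l3054, o1530, o6047] l12125 := rupP (by decide +kernel)
theorem r12126 : PImp [l10393, l7703, l1145, l11371, l8458, l6001, l5274, l3008, l1218, l421, l6818, l3933, o1132, l2992, l3012, l3006, l5035, l4502, l8874, o118, o804, o99, o853, o923, l12125, l12101, l12106, l8825] l12126 := rupP (by decide +kernel)
theorem r12127 : PImp [l10394, l2844] l12127 := rupP (by decide +kernel)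
theorem r12128 : PImp [l10394, l2944] l12128 := rupP (by decide +kernel)
theorem r12129 : PImp [l10394, l2945] l12129 := rupP (by decide +kernel)
theorem r12130 : PImp [l10395, l2954] l12130 := rupP (by decide +kernel)
theorem r12131 : PImp [l10395, o6532] l12131 := rupP (by decide +kernel)
theorem r12132 : PImp [l10395, o8592] l12132 := rupP (by decide +kernel)
theorem r12133 : PImp [l10395, o1941] l12133 := rupP (by decide +kernel)
theorem r12134 : PImp [l10395, o1935] l12134 := rupP (by decide +kernel)
theorem r12135 : PImp [l10393, o1939] l12135 := rupP (by decide +kernel)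
theorem r12136 : PImp [l10395, l3215] l12136 := rupP (by decide +kernel)
theorem r12137 : PImp [l10395, o1932] l12137 := rupP (by decide +kernel)
theorem r12138 : PImp [l10395, o1930] l12138 := rupP (by decide +kernel)
theorem r12139 : PImp [l10393, o1931] l12139 := rupP (by decide +kernel)
theorem r12140 : PImp [l10395, o1923] l12140 := rupP (by decide +kernel)
theorem r12141 : PImp [l10395, o1925] l12141 := rupP (by decide +kernel)
theorem r12142 : PImp [l10395, o1927] l12142 := rupP (by decide +kernel)
theorem r12143 : PImp [l10395, o1928] l12143 := rupP (by decide +kernel)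
theorem r12144 : PImp [l10395, o1921] l12144 := rupP (by decide +kernel)
theorem r12145 : PImp [l10393, o1922] l12145 := rupP (by decide +kernel)
theorem r12146 : PImp [l10395, o1913] l12146 := rupP (by decide +kernel)
theorem r12147 : PImp [l10393, o1914] l12147 := rupP (by decide +kernel)
theorem r12148 : PImp [l10393, o1643] l12148 := rupP (by decide +kernel)
theorem r12149 : PImp [l10395, o1642] l12149 := rupP (by decide +kernel)
theorem r12150 : PImp [l10393, l3478] l12150 := rupP (by decide +kernel)
theorem r12151 : PImp [l10393, l3483] l12151 := rupP (by decide +kernel)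
theorem r12152 : PImp [l10393, l3484] l12152 := rupP (by decide +kernel)
theorem r12153 : PImp [l10393, l3500] l12153 := rupP (by decide +kernel)
theorem r12154 : PImp [l10393, l3815] l12154 := rupP (by decide +kernel)
theorem r12155 : PImp [l10394, l3826] l12155 := rupP (by decide +kernel)
theorem r12156 : PImp [l10394, l3833] l12156 := rupP (by decide +kernel)
theorem r12157 : PImp [l10394, l3836] l12157 := rupP (by decide +kernel)
theorem r12158 : PImp [l10394, l3837] l12158 := rupP (by decide +kernel)
theorem r12159 : PImp [l10395, l3854] l12159 := rupP (by decide +kernel)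
theorem r12160 : PImp [l10395, l3855] l12160 := rupP (by decide +kernel)
theorem r12161 : PImp [l10395, l3856] l12161 := rupP (by decide +kernel)
theorem r12162 : PImp [l10395, o6639] l12162 := rupP (by decide +kernel)
theorem r12163 : PImp [l10394, l4243] l12163 := rupP (by decide +kernel)
theorem r12164 : PImp [l10394, l4244] l12164 := rupP (by decide +kernel)
theorem r12165 : PImp [l10394, l4245] l12165 := rupP (by decide +kernel)
theorem r12166 : PImp [l10394, l4247] l12166 := rupP (by decide +kernel)
theorem r12167 : PImp [l10394, l4248] l12167 := rupP (by decide +kernel)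
theorem r12168 : PImp [l10395, l4439] l12168 := rupP (by decide +kernel)
theorem r12169 : PImp [l10395, l4441] l12169 := rupP (by decide +kernel)
theorem r12170 : PImp [l10395, l4443] l12170 := rupP (by decide +kernel)
theorem r12171 : PImp [l10395, l4447] l12171 := rupP (by decide +kernel)
theorem r12172 : PImp [l10395, o8640] l12172 := rupP (by decide +kernel)
theorem r12173 : PImp [l10395, l4576] l12173 := rupP (by decide +kernel)
theorem r12174 : PImp [l10395, l4592] l12174 := rupP (by decide +kernel)
theorem r12175 : PImp [l10394, l4633] l12175 := rupP (by decide +kernel)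
theorem r12176 : PImp [l10395, o8450] l12176 := rupP (by decide +kernel)
theorem r12177 : PImp [l10394, l4663] l12177 := rupP (by decide +kernel)
theorem r12178 : PImp [l10394, l4800] l12178 := rupP (by decide +kernel)
theorem r12179 : PImp [l10393, l4888] l12179 := rupP (by decide +kernel)
theorem r12180 : PImp [l10393, l4891] l12180 := rupP (by decide +kernel)
theorem r12181 : PImp [l10393, l4892] l12181 := rupP (by decide +kernel)
theorem r12182 : PImp [l10393, l4894] l12182 := rupP (by decide +kernel)
theorem r12183 : PImp [l10393, l4896] l12183 := rupP (by decide +kernel)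
theorem r12184 : PImp [l10394, l4900] l12184 := rupP (by decide +kernel)
theorem r12185 : PImp [l10394, l4902] l12185 := rupP (by decide +kernel)
theorem r12186 : PImp [l10394, l4903] l12186 := rupP (by decide +kernel)
theorem r12187 : PImp [l10394, l4905] l12187 := rupP (by decide +kernel)
theorem r12188 : PImp [l10395, l4908] l12188 := rupP (by decide +kernel)
theorem r12189 : PImp [l10395, l4909] l12189 := rupP (by decide +kernel)
theorem r12190 : PImp [l10395, l4911] l12190 := rupP (by decide +kernel)
theorem r12191 : PImp [l10395, l4913] l12191 := rupP (by decide +kernel)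
theorem r12192 : PImp [l10393, l4613] l12192 := rupP (by decide +kernel)
theorem r12193 : PImp [l10393, l5250] l12193 := rupP (by decide +kernel)
theorem r12194 : PImp [l10393, l2673] l12194 := rupP (by decide +kernel)
theorem r12195 : PImp [l10393, l2674] l12195 := rupP (by decide +kernel)
theorem r12196 : PImp [l10395, l2702] l12196 := rupP (by decide +kernel)
theorem r12197 : PImp [l10393, l2697] l12197 := rupP (by decide +kernel)
theorem r12198 : PImp [l10395, l2531] l12198 := rupP (by decide +kernel)
theorem r12199 : PImp [l10394, l3532] l12199 := rupP (by decide +kernel)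
theorem r12200 : PImp [l10393, l2681] l12200 := rupP (by decide +kernel)
theorem r12201 : PImp [l10393, l5226] l12201 := rupP (by decide +kernel)
theorem r12202 : PImp [l10393, l2668] l12202 := rupP (by decide +kernel)
theorem r12203 : PImp [l10393, l4612] l12203 := rupP (by decide +kernel)
theorem r12204 : PImp [l10393, l2672] l12204 := rupP (by decide +kernel)
theorem r12205 : PImp [l10393, l3497] l12205 := rupP (by decide +kernel)
theorem r12206 : PImp [l10394, l3526] l12206 := rupP (by decide +kernel)
theorem r12207 : PImp [l10393, l3488] l12207 := rupP (by decide +kernel)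
theorem r12208 : PImp [l10393, l4217] l12208 := rupP (by decide +kernel)
theorem r12209 : PImp [l10393, l3474] l12209 := rupP (by decide +kernel)
theorem r12210 : PImp [l10393, l3513] l12210 := rupP (by decide +kernel)
theorem r12211 : PImp [l10393, l3506] l12211 := rupP (by decide +kernel)
theorem r12212 : PImp [l10393, l3494] l12212 := rupP (by decide +kernel)
theorem r12213 : PImp [l10393, l3512] l12213 := rupP (by decide +kernel)
theorem r12214 : PImp [l10393, l5198] l12214 := rupP (by decide +kernel)
theorem r12215 : PImp [l10393, l4241] l12215 := rupP (by decide +kernel)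
theorem r12216 : PImp [l10393, l5225] l12216 := rupP (by decide +kernel)
theorem r12217 : PImp [l10394, l4437] l12217 := rupP (by decide +kernel)
theorem r12218 : PImp [l10394, l3835] l12218 := rupP (by decide +kernel)
theorem r12219 : PImp [l10393, l4889] l12219 := rupP (by decide +kernel)
theorem r12220 : PImp [l10393, l3809] l12220 := rupP (by decide +kernel)
theorem r12221 : PImp [l10393, l4425] l12221 := rupP (by decide +kernel)
theorem r12222 : PImp [l10393, l4427] l12222 := rupP (by decide +kernel)
theorem r12223 : PImp [l10393, l2842] l12223 := rupP (by decide +kernel)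
theorem r12224 : PImp [l10393, l4224] l12224 := rupP (by decide +kernel)
theorem r12225 : PImp [l10393, l3490] l12225 := rupP (by decide +kernel)
theorem r12226 : PImp [l10393, l6247] l12226 := rupP (by decide +kernel)
theorem r12227 : PImp [l10393, l3491] l12227 := rupP (by decide +kernel)
theorem r12228 : PImp [l10394, l4662] l12228 := rupP (by decide +kernel)
theorem r12229 : PImp [l10393, l2675] l12229 := rupP (by decide +kernel)
theorem r12230 : PImp [l10393, l3481] l12230 := rupP (by decide +kernel)
theorem r12231 : PImp [l10394, l3838] l12231 := rupP (by decide +kernel)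
theorem r12232 : PImp [l10393, l4614] l12232 := rupP (by decide +kernel)
theorem r12233 : PImp [l10394, l4431] l12233 := rupP (by decide +kernel)
theorem r12234 : PImp [l10394, l4429] l12234 := rupP (by decide +kernel)
theorem r12235 : PImp [l10394, l10393, l5224] l12235 := rupP (by decide +kernel)
theorem r12236 : PImp [l10393, l5242] l12236 := rupP (by decide +kernel)
theorem r12237 : PImp [l10393, l5238] l12237 := rupP (by decide +kernel)
theorem r12238 : PImp [l10393, l3487] l12238 := rupP (by decide +kernel)
theorem r12239 : PImp [l10393, l5175] l12239 := rupP (by decide +kernel)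
theorem r12240 : PImp [l10393, l3510] l12240 := rupP (by decide +kernel)
theorem r12241 : PImp [l10394, l5208] l12241 := rupP (by decide +kernel)
theorem r12242 : PImp [l10394, l3520] l12242 := rupP (by decide +kernel)
theorem r12243 : PImp [l10394, l3524] l12243 := rupP (by decide +kernel)
theorem r12244 : PImp [l10393, l3501] l12244 := rupP (by decide +kernel)
theorem r12245 : PImp [l10393, l3509] l12245 := rupP (by decide +kernel)
theorem r12246 : PImp [l10393, l3502] l12246 := rupP (by decide +kernel)
theorem r12247 : PImp [l10394, l4664] l12247 := rupP (by decide +kernel)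
theorem r12248 : PImp [l10393, l3473] l12248 := rupP (by decide +kernel)
theorem r12249 : PImp [l10393, l3505] l12249 := rupP (by decide +kernel)
theorem r12250 : PImp [l10393, l3499] l12250 := rupP (by decide +kernel)
theorem r12251 : PImp [l10393, l5617] l12251 := rupP (by decide +kernel)
theorem r12252 : PImp [l10393, l5467] l12252 := rupP (by decide +kernel)
theorem r12253 : PImp [l10393, l5730] l12253 := rupP (by decide +kernel)
theorem r12254 : PImp [l10393, l5731] l12254 := rupP (by decide +kernel)
theorem r12255 : PImp [l10393, l5732] l12255 := rupP (by decide +kernel)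
theorem r12256 : PImp [l10393, l5460] l12256 := rupP (by decide +kernel)
theorem r12257 : PImp [l10393, l5733] l12257 := rupP (by decide +kernel)
theorem r12258 : PImp [l10393, l5434] l12258 := rupP (by decide +kernel)
theorem r12259 : PImp [l10393, l5603] l12259 := rupP (by decide +kernel)
theorem r12260 : PImp [l10393, l5438] l12260 := rupP (by decide +kernel)
theorem r12261 : PImp [l10393, l5411] l12261 := rupP (by decide +kernel)
theorem r12262 : PImp [l10393, l5413] l12262 := rupP (by decide +kernel)
theorem r12263 : PImp [l10393, l5600] l12263 := rupP (by decide +kernel)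
theorem r12264 : PImp [l10395, l5412] l12264 := rupP (by decide +kernel)
theorem r12265 : PImp [l10394, l5651] l12265 := rupP (by decide +kernel)
theorem r12266 : PImp [l10395, l5437] l12266 := rupP (by decide +kernel)
theorem r12267 : PImp [l10393, l6224] l12267 := rupP (by decide +kernel)
theorem r12268 : PImp [l10393, l6217] l12268 := rupP (by decide +kernel)
theorem r12269 : PImp [l10393, l7250] l12269 := rupP (by decide +kernel)
theorem r12270 : PImp [l10393, l6212] l12270 := rupP (by decide +kernel)
theorem r12271 : PImp [l10393, l6200] l12271 := rupP (by decide +kernel)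
theorem r12272 : PImp [l10393, l6001] l12272 := rupP (by decide +kernel)
theorem r12273 : PImp [l10393, l6462] l12273 := rupP (by decide +kernel)
theorem r12274 : PImp [l10394, l6886] l12274 := rupP (by decide +kernel)
theorem r12275 : PImp [l10393, l6246] l12275 := rupP (by decide +kernel)
theorem r12276 : PImp [l10393, l6178] l12276 := rupP (by decide +kernel)
theorem r12277 : PImp [l10393, l6818] l12277 := rupP (by decide +kernel)
theorem r12278 : PImp [l10393, l5909] l12278 := rupP (by decide +kernel)
theorem r12279 : PImp [l10393, l6889] l12279 := rupP (by decide +kernel)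
theorem r12280 : PImp [l10393, l6245] l12280 := rupP (by decide +kernel)
theorem r12281 : PImp [l10393, l7472] l12281 := rupP (by decide +kernel)
theorem r12282 : PImp [l10393, l6170] l12282 := rupP (by decide +kernel)
theorem r12283 : PImp [l10393, l6811] l12283 := rupP (by decide +kernel)
theorem r12284 : PImp [l10393, l6184] l12284 := rupP (by decide +kernel)
theorem r12285 : PImp [l10393, l7254] l12285 := rupP (by decide +kernel)
theorem r12286 : PImp [l10393, l5989] l12286 := rupP (by decide +kernel)
theorem r12287 : PImp [l10393, l6249] l12287 := rupP (by decide +kernel)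
theorem r12288 : PImp [l10393, l5925] l12288 := rupP (by decide +kernel)
theorem r12289 : PImp [l10395, l7415] l12289 := rupP (by decide +kernel)
theorem r12290 : PImp [l10393, l5949] l12290 := rupP (by decide +kernel)
theorem r12291 : PImp [l10393, l6133] l12291 := rupP (by decide +kernel)
theorem r12292 : PImp [l10393, l6248] l12292 := rupP (by decide +kernel)
theorem r12293 : PImp [l10393, l7255] l12293 := rupP (by decide +kernel)
theorem r12294 : PImp [l10393, l8671] l12294 := rupP (by decide +kernel)
theorem r12295 : PImp [l10393, l8900] l12295 := rupP (by decide +kernel)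
theorem r12296 : PImp [l10393, l8647] l12296 := rupP (by decide +kernel)
theorem r12297 : PImp [l10395, l8818] l12297 := rupP (by decide +kernel)
theorem r12298 : PImp [l10393, l8607] l12298 := rupP (by decide +kernel)
theorem r12299 : PImp [l10394, l8464] l12299 := rupP (by decide +kernel)
theorem r12300 : PImp [l10393, l8458] l12300 := rupP (by decide +kernel)
theorem r12301 : PImp [l10393, l8377] l12301 := rupP (by decide +kernel)
theorem r12302 : PImp [l10393, l7638] l12302 := rupP (by decide +kernel)
theorem r12303 : PImp [l10393, l7666] l12303 := rupP (by decide +kernel)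
theorem r12304 : PImp [l10393, l8603] l12304 := rupP (by decide +kernel)
theorem r12305 : PImp [l10393, l8903] l12305 := rupP (by decide +kernel)
theorem r12306 : PImp [l10393, l8901] l12306 := rupP (by decide +kernel)
theorem r12307 : PImp [l10393, l8848] l12307 := rupP (by decide +kernel)
theorem r12308 : PImp [l10393, l8776] l12308 := rupP (by decide +kernel)
theorem r12309 : PImp [l10393, l8874] l12309 := rupP (by decide +kernel)
theorem r12310 : PImp [l10395, l8925] l12310 := rupP (by decide +kernel)
theorem r12311 : PImp [l10393, l8567] l12311 := rupP (by decide +kernel)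
theorem r12312 : PImp [l10393, l8615] l12312 := rupP (by decide +kernel)
theorem r12313 : PImp [l10393, l8614] l12313 := rupP (by decide +kernel)
theorem r12314 : PImp [l10393, l8376] l12314 := rupP (by decide +kernel)
theorem r12315 : PImp [l10393, l8235] l12315 := rupP (by decide +kernel)
theorem r12316 : PImp [l10395, l7726] l12316 := rupP (by decide +kernel)
theorem r12317 : PImp [l10393, l8249] l12317 := rupP (by decide +kernel)
theorem r12318 : PImp [l10393, l7707] l12318 := rupP (by decide +kernel)
theorem r12319 : PImp [l10395, l10394, l9117] l12319 := rupP (by decide +kernel)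
theorem r12320 : PImp [l10393, l7876] l12320 := rupP (by decide +kernel)
theorem r12321 : PImp [l10394, l9791] l12321 := rupP (by decide +kernel)
theorem r12322 : PImp [l10395, l9976] l12322 := rupP (by decide +kernel)
theorem r12323 : PImp [l10395, l10107] l12323 := rupP (by decide +kernel)
theorem r12324 : PImp [l6566, o4076, l8757, l3308, l8870, l4073, l8779, l2786, o3888, o6115] l12324 := rupP (by decide +kernel)
theorem r12325 : PImp [l8474, l9573, l1246, l8845, l9572] l12325 := rupP (by decide +kernel)
theorem r12326 : PImp [l407, l409, l4763, l3008, l325, o2493, o2501, o2489, l12325, l4993, l4551, l9747] l12326 := rupP (by decide +kernel)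
theorem r12327 : PImp [l3007, l3006, l12324, l7772, l12326, l9663, l9575, l9388, l9389, l3303, l2789, l8846, l5672, o5853, l5267] l12327 := rupP (by decide +kernel)
theorem r12328 : PImp [o340, l7703, l1145, l11371, l12300, l12272, l5274, o358, l12277, l3933, o1132, l5035, o352, l2992, l3012, l3007, l3006, l2996, l5034, l12309, l12126, l4526, l9435, o6362, l2574, l2599, l8837, l1245, l12113, o2460, l8895, l3308, l4063, l12114, o4079, o4084, o3897, l1073, l3974, l713, l4984, l4045] l12328 := rupP (by decide +kernel)
theorem r12329 : PImp [l4763, o2493, l8474, l4993, l4551, l9747] l12329 := rupP (by decide +kernel)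
theorem r12330 : PImp [o5818, l7703, l3007, l495, l12124, o5823, l1137, l1145, l11371, l12300, l12272, l5268, l5274, l3008, l1218, l421, o358, o351, l1146, l3006, l4967, l12277, l3933, o1116, l325, l5035, l5039, l12241, o305, l12194, l390, l2839, o3461, o3554, o3555, l12228, o800, o799, l12110, o8465, o8506, o5165, l4438, o297, o4844, o8915, o8801, l12153, o771, o8799, o5494, o5840, o5745, l12150, l12152, o8522, l12328, l12327, o9147, l2707, l2574, l8837, l8810, l1244, l7772, l407, l409, l12329, l9388, o2460, l4554, l5045, l3303] l12330 := rupP (by decide +kernel)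
theorem r12331 : PImp [l11371, l12277, l476, l12218, o4705, o4695, l12260, l12214] l12331 := rupP (by decide +kernel)
theorem r12332 : PImp [o2393, l7703, l5035, l3000, l12096, l4838, l11294, o4563, l3007, l3927, o1160, l501, l495, l12124, l12100, l3380, l12099, o358, l11466, l11371, l12277, l3933, o1132, l498, l3435, l3431, o351, l4834, l12300, l3011, o4557, l1145, l4844, l2996, o1117, o1124, o1566, o1565, o1159, o1152, o1575, o1569, l12123, l11453, l12135, l12119, l3216, o1970, l4774, l3763, o1969, o4525, o2367, o2370, l5274, l12121, l12331, l5039, l12241, l12330, o305, o312, l390, l2839, o3548, l8106, l8107, o800, l12110, l2574, l2542, o8978, o3838, l4438, l12256, l3349, o774, l8812] l12332 := rupP (by decide +kernel)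
theorem r12333 : PImp [l11371, l12300, l12277, l5039, l12122, l12216, l12129, o4705, l12244, l12249] l12333 := rupP (by decide +kernel)
theorem r12334 : PImp [l7703, l11466, l11371, l5035, l3000, l12096, l4838, l4834, l12300, l3011, l11294, o4557, l1145, l3008, l3026, l3025, l12099, l1218, l12332, l12333, l12331, o4510, o4543, l3797, o4863, l4867] l12334 := rupP (by decide +kernel)
theorem r12335 : PImp [l4773, l12119] l12335 := rupP (by decide +kernel)
theorem r12336 : PImp [l5039, l7703, l11466, l11371, l5035, l3000, l12096, l4838, l4834, l12300, l3012, l11294, l501, o1159, l3927, o1152, o1569, l12277, l11453, l3374, l12295, l12241, l11800, l12233, l12282, o3549, l12110] l12336 := rupP (by decide +kernel)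
theorem r12337 : PImp [l8799, l8866, l8870] l12337 := rupP (by decide +kernel)
theorem r12338 : PImp [l3007, l4967, l3008, l325, l12108, l12337, l9744, l7772, l3308, l8846] l12338 := rupP (by decide +kernel)
theorem r12339 : PImp [l5034, l4526, l5274, l3008, l3303, l12104, l4059, o2493, o2501, o2489, o2569, l8858, l8859, o1647] l12339 := rupP (by decide +kernel)
theorem r12340 : PImp [l3308, o853, o2493, o2552, o2530, l3993, o6313, l409, o4185, l4993, o6047, o823, o865, o819] l12340 := rupP (by decide +kernel)
theorem r12341 : PImp [l5268, l5274, l7703, l3008, l1218, l11371, l12300, l2992, l3012, l1146, l1145, l3006, l4967, l12277, l3933, l325, l5035, l4606, l9776, l3003, o6585, o6497, l12338, l5034, l4502, l12309, l11713, l4526, o118, o99, o853, o923, l12339, l3308, l12148, o1644, o1647, o1732, o1760, l12340, l4058, l12114, o4079, o3906, l1246, l3974, o2460, l3052, l4026, l8859] l12341 := rupP (by decide +kernel)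
theorem r12342 : PImp [l5035, l12334, l4083, l3927, o1160, o2393, l7703, l3000, l12096, l11294, l498, l3435, l3431, o351, o352, l4838, o4557, l1146, l11466, l11371, l4834, l12300, o4563, l501, l4844, l2996, l12277, o1117, l3933, o1124, o1566, o1565, o1116, o1159, o1152, o1575, o1569, l12123, l11453, l12135, l12297, l5039, o305, l12216, l12194, o800, o799, l12336, l3380, l12119, l12335, l3216, o1970, l4774, l7600, l3763, o1969, o4525, o2367, o2370, l5274, l12241, l390, o3461, o3549, l12228, o3554, o3555, l12110, o8465, o8506, o340, l4438, o297, o5397, o8915, o8801, o771, l12213, o8799, l12153, o5494, o5745, l12150, l12152, o8522, l12341, o5513, l7659, l8882] l12342 := rupP (by decide +kernel)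
theorem r12343 : PImp [l11466, l11371, l5035, l7703, l3000, l12096, l4838, l4834, l12300, l11294, l501, l2996, l12314, l12335, l12295, l12336, l5038] l12343 := rupP (by decide +kernel)
theorem r12344 : PImp [l7703, l5035, l3000, l12096, l4838, l11294, o4557, l1145, o4563, l3006, l11466, l11371, l4834, l12300, l501, l12336, l5038, l12306, l12295] l12344 := rupP (by decide +kernel)
theorem r12345 : PImp [l3007, l3008, l325, o35, l12327, o115, l12337, l3954, l7772, o931, o926, l8846, l3308, l3303, l5672, l4732, o2544, o2539, o4166, o4164, o6029, o1733, o5947, o5961] l12345 := rupP (by decide +kernel)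
theorem r12346 : PImp [o351, l5035, l11371, l12300, l7703, l1145, l3011, l12331, l5039, o305, o799, l4438, o771, o340, l12194, l12272, l5268, l5274, l3008, l1218, l421, o352, l2992, l3012, l1146, l3006, l12277, l3933, l325, l4606, l9776, l3003, o6585, o6497, l12345, l5034, l4502, l12309, l11713, l4526, o118, o99, o853, l12339, o923, l3308, l12148, o1644, o1647, o1732, o1760, l12340, l4058, l12114, o4079, o3906, l1246, l3974, o2460, l3052, l8859, l4026] l12346 := rupP (by decide +kernel)
theorem r12347 : PImp [l5035, l12334, l4083, l3927, o1160, o2393, l7703, l3000, l12096, l11294, l498, l3435, l3431, o351, l11466, l11371, l4838, l4834, l12300, l3011, o4557, l1145, o4563, l501, l4844, l4967, l2996, l12277, o1117, l3933, o1124, o1566, o1565, o1116, o1159, o1152, o1575, o1569, l12123, l11453, l12135, l12342, l1137, l12343, l12344, l3380, l12119, l3216, o1970, l4774, l3763, o1969, o4525, o2367, o2370, l5274, l12331, l12241, l5039, l390, o3461, o3548, o3549, l12228, o3554, o3555, o305, l12110, o5165, o800, o799, l4438, o297, l12153, o8465, o8506, o771, l10260, o4844, o5397, o8915, o8801, o8799, o5494,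 o5745, l12150, l12152, o8522, l12346, o5513, l7659, l8882] l12347 := rupP (by decide +kernel)
theorem r12348 : PImp [l7703, l11371, l12300, l3011, o4557, l1145, l12277, l3008, l5035, l12218, l12331, l12158, o4510, o4543, l1218, l3797, o4863, l4867] l12348 := rupP (by decide +kernel)
theorem r12349 : PImp [o708, o688, o694, o714, l11123, l11676, o275, l11825, l8173, l12142, l1071, o2339, l2314, l1698, o1146, l11808, o3754, o3427, o1465, o5298, l11884, o7897, l2490, o4640, l5881] l12349 := rupP (by decide +kernel)
theorem r12350 : PImp [o1454, l7274, o2257, o7958, o8283] l12350 := rupP (by decide +kernel)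
theorem r12351 : PImp [l11371, l12277, l3933, o1116, o1117, o3663, l12350, o1110, o1452, l1279, l12142, o8160, l11428, o8155, o3017, o4640, l9489] l12351 := rupP (by decide +kernel)
theorem r12352 : PImp [l11371, l12300, l12216, o730, l2269, o690, o336, o295, l5041, l12351, o3438, o3003, l11428, l9992, l10452, l2392] l12352 := rupP (by decide +kernel)
theorem r12353 : PImp [l11371, l12300, l2708, l12194, l12216, o305, l12277, o1117, l476, l472, o8839, l12349, l12352] l12353 := rupP (by decide +kernel)
theorem r12354 : PImp [o688, o714, l11123, l11676, l11825, l8173, l1071, o8227, o3663, o1112, l11224, o5628, o2300, o7894] l12354 := rupP (by decide +kernel)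
theorem r12355 : PImp [l12142, o8160, l11428, o8155, o3017, o4640, l9489] l12355 := rupP (by decide +kernel)
theorem r12356 : PImp [l5041, o3663, o3693, l12350, o1504, o1110, o1112, o1452, l12355, o2257, o7918, l11834, o5666, o1911, o8165, o2323] l12356 := rupP (by decide +kernel)
theorem r12357 : PImp [o730, l2269, o720, o690, o336, o295, l5041, l12356, o3438, o3003, l11428, l9992, l10452, l2392] l12357 := rupP (by decide +kernel)
theorem r12358 : PImp [l11371, l12277, o1117, o8459, l12300, l12194, l12216, l3933, l12353, l12354] l12358 := rupP (by decide +kernel)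
theorem r12359 : PImp [o5735, o5628, l734, o2300, l657, o7985] l12359 := rupP (by decide +kernel)
theorem r12360 : PImp [l11371, l12277, o1117, o8459, l12300, l2708, l3318, l12194, l12216, o305, l3933, o1124, o1566, o1116, l476, l472, l12357, o688, o714, l11123, l11825, l1071, l3317, o1112, l12358, o8380, l12359, l1103, l8445] l12360 := rupP (by decide +kernel)
theorem r12361 : PImp [o730, l2269, o720, o690, o336, o295, l11651, l12356] l12361 := rupP (by decide +kernel)
theorem r12362 : PImp [l12349, l12354] l12362 := rupP (by decide +kernel)
theorem r12363 : PImp [l11371, l12277, o1117, o8459, l12300, l2708, l3318, l12194, l12216, o305, l3933, o1124, o1566, o1116, l476, l472, l12360, l12361, o688, o714, l11123, l12362, l11825, l1071, o8380, l3317, o1112, l12359, l1103, l8445] l12363 := rupP (by decide +kernel)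
theorem r12364 : PImp [o688, o694, o714, l11747, l8173] l12364 := rupP (by decide +kernel)
theorem r12365 : PImp [l12357, l12361] l12365 := rupP (by decide +kernel)
theorem r12366 : PImp [l11371, l12277, o1117, o8459, l12300, l2708, l3318, l12194, l12216, o305, l3933, o1124, o1566, o1116, l476, l472, l12363, l12365, o688, o694, o714, l12364, l11825, l11747, o8380, l3317, o1112, l10828, o7813, l12359, o2300, l8445, l11199, o3663] l12366 := rupP (by decide +kernel)
theorem r12367 : PImp [l8053, o2444] l12367 := rupP (by decide +kernel)
theorem r12368 : PImp [o4779, l12366] l12368 := rupP (by decide +kernel)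
theorem r12369 : PImp [l11371, l12300, l12216, l12277, l3933, o1116, o1117, o699, o691, o695, o690, l11352, o3437, o3439, o3434, o3435, o3436, o3438, l12350, o1462, o1472, o1456, l2304, o1452, l8406, l2310, o2281, o7922, l678, o7919] l12369 := rupP (by decide +kernel)
theorem r12370 : PImp [l5035, l7703, l3000, l12096, l4838, l4834, l11466, l11371, l12300, l3008, l3025, l3026, l11294, l12348, l12277, l2996, l501, o4557, l3011, l12333, l12335, l3374, l12241, o3460, o1117, l11453, o1159, l3927, o1152, o1569, o351, l390, o3549, l12110, l4438, o3548, l3933, o1124, o1565, l12123, l5039, o305, o800, o774, o8774, o5754, o8459, l12135, l3216, o1969, o2367, o799, l476, l12235, o1575, o8658, o8994, o4843, l4771, o5839, l2708, l498, o5468, l12153, o297, o340, o3461, l2835, l3384, l3318, l3435, l3431, l12194, l12216, l325, o2865, l3032, l3031, l1146, l1145, o4563, l3007, l3006, l495, l4844, o1116, l12368, o5741, l1127, o8905, l12369, o688, o694, o714, l11123, l12364, l11747, l1071, o8380, o1452, o1501, l12359, l10828, o7813, l8445, l2293, o2300, o3663, o8226] l12370 := rupP (by decide +kernel)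
theorem r12371 : PImp [o8522, l10528, o5741, l1127] l12371 := rupP (by decide +kernel)
theorem r12372 : PImp [l3927, l11466, l11371, o1152, l12277, l3933, o1116, l7703, l3008, l3025, l3026, l5035, l3000, l12096, l4838, l11294, l4834, l12348, l2996, l501, o4557, l12300, l3011, l12333, l12335, l3374, l12241, l2835, o3461, l11453, o1159, o1569, o351, l390, o3549, l12110, o340, l5039, o297, l12371, l12135, l3216, o1969, o2367, o305, o799, l476, l12235, o1575, o8658, l4771, l498, o3548, o1117, o1124, o1565, l12123, o800, l4438, o774, o8774, o5468, l12153, l3384, l3435, l3431, l12194, l12216, l3012, l1146, l1145, o4563, l3006, l4844, l12370, l1246, l1245, l1244, l12308, l12108, l8053, l8742] l12372 := rupP (by decide +kernel)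
theorem r12373 : PImp [o694, o3756, o3846, l11822, l1698, o8913, l11615] l12373 := rupP (by decide +kernel)
theorem r12374 : PImp [l12135, o2367, l3318, o708, o688, o714, o275, l11825, l3317, o1112, l11808, o1454, o1492, o1911, o2325, l12373, l10828, l5708, o8380, l12359, l1103, l8445] l12374 := rupP (by decide +kernel)
theorem r12375 : PImp [l5035, l7703, l3000, l12096, l4838, o4843, o1159, l3927, l11466, l11371, o1152, o1569, o351, l3008, l3025, l3026, l11294, l4834, l12348, l5039, o305, o799, l11453, l501, o4557, l12300, l3011, l12333, l12277, l2996, l12335, l3374, l12241, l390, o3549, l12110, l4438, o771, o8917, o4970, o4817, o5744, l3933, o1116, l2835, o3461, o340, o297, l12371, o3460, o1117, o3548, o1124, o1565, l12123, o800, o774, o8774, o5754, o8459, l12135, l3216, o1969, o2367, l476, l12235, o1575, o8658, o8994, l4771, l498, o5468, l12153, l3384, l3435, l3431, l12194, l12216, l325, o2865, l3032, l3031, l3012, l1146, l1145, o4563, l3007, l3006, l4844, o1566, l472, l12374, l12365, l1246, l1245, l12308, l8789, l8053, l8742] l12375 := rupP (by decide +kernel)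
theorem r12376 : PImp [l3318, o688, o694, o714, l11825, l11747, l3317, o1112, l10828, o7813, l5708, o8380, l12359, o2300, l8445, l11199, o3663] l12376 := rupP (by decide +kernel)
theorem r12377 : PImp [l3927, l11466, l11371, o1152, l12277, l3933, o1116, l7703, l3008, l3025, l3026, l5035, l3000, l12096, l4838, l11294, l4834, l12348, l2996, l501, o4557, l12300, l3011, l12333, l12335, l3374, l12241, l2835, o3461, l11453, o1159, o1569, o351, l390, o3549, l12110, o340, l5039, o297, l12371, o3460, o1117, l4438, o3548, o1124, o1565, l12123, o305, o800, o774, o8774, o5754, o8459, l12135, l3216, o1969, o2367, o799, l476, l12235, o1575, o8658, o8994, o4843, l4771, o5839, l2708, l2707, l498, o5468, l12153, o771, l3384, l3435, l3431, l12194, l12216, l325, o2865, l3032, l3031, l1146, l1145, o4563, l3007, l3006, l4844, o1566, l472, l12372, o8917, o4970, o5744, o4817, l12375, l12376, l12365, l1246, l1244] l12377 := rupP (by decide +kernel)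
theorem r12378 : PImp [l3318, o688, o714, l11123, l12362, l11825, l1071, o8380, l3317, o1112, l12359, l1103, l8445] l12378 := rupP (by decide +kernel)
theorem r12379 : PImp [o1090, o1484, l11621, o2304, o7958, o8283] l12379 := rupP (by decide +kernel)
theorem r12380 : PImp [l5041, o1969, o1116, l12134, o3689, o3663, o3693, l12379, o1504, o1110, o1112, o1452, l12355, o2257, o7918, l11834, o5666, o1911, o8165, o2323] l12380 := rupP (by decide +kernel)
theorem r12381 : PImp [l5041, l12380, o3438, o3003, l11651, l11428, l9992, l10452, l2392] l12381 := rupP (by decide +kernel)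
theorem r12382 : PImp [l2269, o699, l12142, o8160, l2314, l1705, o3025, o3017, l8454, o7825] l12382 := rupP (by decide +kernel)
theorem r12383 : PImp [o1969, o1116, l12134, o3689, o3663, o3693, l12379, o1472, o1504, l2304, o1110, o1112, o1452, l12382, o2257, o7918, l11834, o5666, o1911, o8165, o2323] l12383 := rupP (by decide +kernel)
theorem r12384 : PImp [o730, l2269, o720, o690, o719, o336, o295, l5041, l12381, l1246, l1245, l12383, o3438, o3003, o3010, l11203, l9992, l10452, l2392] l12384 := rupP (by decide +kernel)
theorem r12385 : PImp [l12135, l3216, o1969, o2367, l7703, l3000, l12096, l11294, l501, l2996, l11466, l5035, l4838, l4834, o4557, l11371, l12300, l3011, l3008, l3025, l3026, l12348, l12333, l12335, l4771, l12277, l3374, l12241, o3548, o1117, l3933, o1124, o1565, l12123, o351, l5039, o305, o800, l11453, o1159, l3927, o1152, o1569, l390, o3549, l12110, l4438, o774, o8774, o5839, l2708, l2707, l498, o5468, l12153, o799, o771, o297, o340, o3461, o3460, l2835, l476, l12235, l3384, l3435, l3431, l12194, l12216, l2992, l325, o2865, l3032, l3031, l1146, l1145, o4563, l3007, l3006, l495, l4844,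 o1566, o1116, o1575, l472, o4843, o8994, o8658, o5754, o5794, o8459, l12371, l12377, o8799, o4970, o5744, o4817, o4991, l12384, l12376, l12378, l12374] l12385 := rupP (by decide +kernel)
theorem r12386 : PImp [l11371, l12277, l3933, o1116, o1117, o3663, l12350, o1472, l2304, o1110, o1452, l12382, l1279] l12386 := rupP (by decide +kernel)
theorem r12387 : PImp [l5041, o3438, o3003, l11651, l11428, l9992, l10452, l2392] l12387 := rupP (by decide +kernel)
theorem r12388 : PImp [l11371, l12277, o1117, o1454, l9894, l11742] l12388 := rupP (by decide +kernel)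
theorem r12389 : PImp [l5697, l3092, l11613] l12389 := rupP (by decide +kernel)
theorem r12390 : PImp [l11656, l1698, o1465, o7981, o5636, l2314, o7897, o3754, o7730, l8173] l12390 := rupP (by decide +kernel)
theorem r12391 : PImp [o694, o714, l12390, l8445, l11158, l11676, l2303, l9455, o5636, l2314, o7730, o1465] l12391 := rupP (by decide +kernel)
theorem r12392 : PImp [l11371, l12300, l12194, l12216, l12277, l3933, o1116, o1117, l12391, o730, l2269, o690, o336, o295, l12387, o3414, o3663, l12388, o1472, l2304, o1110, o1452, l12382, l2283, l1279, o7918, o8248, o5627] l12392 := rupP (by decide +kernel)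
theorem r12393 : PImp [l1698, o5735, l11371, l12181, l11619, l8173, o2300, o7985] l12393 := rupP (by decide +kernel)
theorem r12394 : PImp [o3754, o3427, o7897, l3606, o4640, l2490, l5881] l12394 := rupP (by decide +kernel)
theorem r12395 : PImp [o714, l390, l11371, l12277, l3933, o1116, o1117, l476, l472, o3414, o3406, o3663, l11656, l1698, o1452, o1465, o1501, o5304, o5315, o5298, o5319, o5326, o7981, o5628, o1090, l11627, l12142, l2314, o7894, l4626, l3228, l4808, l12393, o4779, l12394, l8173, o8380, l12359] l12395 := rupP (by decide +kernel)
theorem r12396 : PImp [l11371, l12277, l3933, o1116, o708, o688, o694, o714, o275, l12395, l8445, l11676, l9455, o8380, o1452, o1501, l12359] l12396 := rupP (by decide +kernel)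
theorem r12397 : PImp [l11371, l12300, l2708, o297, o340, o3461, o3460, l390, l12194, l12216, l5035, o305, l7703, l2992, l3008, l325, o2865, l3032, l3031, l3012, l3011, l1146, l1145, l3007, l3006, l12277, l3933, o1116, o1117, l476, l472, l12108, l12309, l10807, l1073, l12367, l12389, l12392, o8459, l12396, o730, o690, o336, o295, l12387, o3663, l12386, l12350, l12185, o1472, l2304, o1110, o1112, o1452, o4769, l12382, l2283, o7918, l11834, o4622, l3228, l8912, l3234, o8155] l12397 := rupP (by decide +kernel)
theorem r12398 : PImp [o8373, l12364] l12398 := rupP (by decide +kernel)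
theorem r12399 : PImp [o3663, l11656, o1452, l11199, o2258, l732, o7981] l12399 := rupP (by decide +kernel)
theorem r12400 : PImp [o694, o688, l11371, l12277, l3933, o1116, o1117, l12398, l12399, l8445, l11158, l11676, l2303, l9455, o5636, l2314, o7730, o1465] l12400 := rupP (by decide +kernel)
theorem r12401 : PImp [o3663, l11656, o1452, o1501, l11199, l6862, o2300] l12401 := rupP (by decide +kernel)
theorem r12402 : PImp [l11371, l12277, l3933, o1116, o1117, o688, o694, o714, l12400, o8459, l12364, l11747, o8380, l12401, l8445, o5735, l9455, o5628, l9501, o1452, o2300, l734] l12402 := rupP (by decide +kernel)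
theorem r12403 : PImp [l2269, l11371, l12300, l12277, l3933, o1116, l12388, o1472, l2304, o1110, o1452, l12382, l2283, l1279, o7918, o8248, o5627] l12403 := rupP (by decide +kernel)
theorem r12404 : PImp [o690, l11371, l12277, l3933, o1116, o1117, l476, l472, o3414, o3663, l12403, o8459, l12386, l12350, l12185, o1472, l2304, o1110, o1112, o1452, o4769, l12382, l2283, o7918, l11834, o4622, l3228, l8912, l3234, o8155] l12404 := rupP (by decide +kernel)
theorem r12405 : PImp [l11371, l12300, l2708, o297, o3461, o3460, l390, l12216, l5035, o305, l7703, l2992, l3008, l325, o2865, l3032, l3031, l3012, l3011, l1146, l1145, l3007, l3006, l12397, l12402, o730, o690, o336, o295, l12404, o3438, l11651, l11352] l12405 := rupP (by decide +kernel)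
theorem r12406 : PImp [l11656, l1698, o1465, o7981, l2306, l2314, o7897, o7730, o3754, l8173] l12406 := rupP (by decide +kernel)
theorem r12407 : PImp [o694, o714, l12406, l8445, l11158, l11676, l2303, l9455, l2306, l2314, o1465, o7730] l12407 := rupP (by decide +kernel)
theorem r12408 : PImp [o297, l11371, l12300, l12194, l12216, l2992, l3008, l325, o2865, l3032, l3031, l3012, l3011, l1146, l1145, l3007, l3006, l12277, l3933, o1116, o1117, l12108, l12309, l10807, l1073, l12367, l12392, o8459, l12407, o730, o690, o336, o295, l12387, o3663, l12386, l12350, o1472, l2304, o1110, o1452, l12382, l2283, o7918, o8248, l2293] l12408 := rupP (by decide +kernel)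
theorem r12409 : PImp [o690, l11371, l12277, l3933, o1116, o1117, o3414, o3663, l12403, o8459, l12386, l12350, o1472, l2304, o1110, o1452, l12382, l2283, o7918, o8248, l2293] l12409 := rupP (by decide +kernel)
theorem r12410 : PImp [l11371, l12300, l2708, o297, o3461, o3460, l390, l12216, l5035, o305, l7703, l2992, l3008, l325, o2865, l3032, l3031, l3011, l1146, l1145, l3007, l3006, l12405, l12408, l12402, o730, o690, o336, o295, l12409, o3438, l11651, l11352] l12410 := rupP (by decide +kernel)
theorem r12411 : PImp [o3754, o3752, o3845, o7897, o7876, o5655, o738, l1680, o8231] l12411 := rupP (by decide +kernel)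
theorem r12412 : PImp [o714, l11453, l12134, o3667, l11656, l1698, o3693, o1452, o1465, o1489, o1501, o7981, o5690, o5633, o5696, o2310, o2317, o2278, l2282, l2314, o7873, o723, o7844, o1495, l12411, l8173, o8380, l12359] l12412 := rupP (by decide +kernel)
theorem r12413 : PImp [o688, o694, o714, l12391, l12407, o5763, l12412, l8445, l11676, l9455, o8380, o1452, o1501, l12359] l12413 := rupP (by decide +kernel)
theorem r12414 : PImp [o8283, o8200] l12414 := rupP (by decide +kernel)
theorem r12415 : PImp [l476, l472, l11371, o1090, l12414, o5316, o7958, l4626, l12138] l12415 := rupP (by decide +kernel)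
theorem r12416 : PImp [l8912, o8155] l12416 := rupP (by decide +kernel)
theorem r12417 : PImp [l5041, l11371, l12300, o3461, o3460, l390, l12277, l3933, o1116, l476, l472, o3406, o3663, l12415, o1472, l2304, o1110, o1112, o1452, l12382, l2283, l1279, o7918, l11834, o8248, l12185, l3228, o5600, o4657, l3234, l12416, o4620, o4614] l12417 := rupP (by decide +kernel)
theorem r12418 : PImp [o297, l11371, l12300, l12216, o730, o690, o336, o295, l5041, l12417, o3438, o3003, o3010, l11651, l11203, l9992, l10452, l2392] l12418 := rupP (by decide +kernel)
theorem r12419 : PImp [l11371, l12300, l2708, o351, l5035, o305, o799, o771, o297, o3461, o3460, l12194, l12216, l7703, l2992, l3008, l325, o2865, l3032, l3031, l3012, l3011, l1146, l1145, l3007, l3006, l12277, l3933, o1116, o1117, l11453, l12410, o8799, l12418, l12402, l12413] l12419 := rupP (by decide +kernel)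
theorem r12420 : PImp [o5629, o3663, o3667, o714, o694, l12123, l11453, l12134, o1452, o1465, o1489, o1501, o7981, o7894, o2310, o2312, o2317, o2278, l2282, l2314, o2258, o7873, o723, o742, o7848, o1508, o1526, o8228, o5698, l12411, l8173, o8380, o8373, l12359] l12420 := rupP (by decide +kernel)
theorem r12421 : PImp [o3663, o5629, l12420, o1454, l1071, l650, l2283, o7940] l12421 := rupP (by decide +kernel)
theorem r12422 : PImp [o1465, o7981, l2314, o7897, o3754, o7730, l8173] l12422 := rupP (by decide +kernel)
theorem r12423 : PImp [o714, o694, o3663, l1698, o3693, o3696, o5690, o5691, l12421, l2306, l12422, o1454, l1071, l650, l2283, o8346, o7940] l12423 := rupP (by decide +kernel)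
theorem r12424 : PImp [o714, o694, o1569, l1127, l8441, l642, l12423, o3756, l8445, l11158, l11676, l2303, l9501, l9455, l2314, o8380, l5734, o1452, o1465, l12359, o7730, o5636] l12424 := rupP (by decide +kernel)
theorem r12425 : PImp [o1501, o714, o694, o688, o7981, l12422, o2258, o5636, l12364, l12359, o8380] l12425 := rupP (by decide +kernel)
theorem r12426 : PImp [o714, o694, o688, l11371, l12277, l3933, o1116, o1117, o1452, l11199, l12425, l732, o2258, l12364, l11747, o8380, l8391, l9501, o2300] l12426 := rupP (by decide +kernel)
theorem r12427 : PImp [o688, l11371, l12277, o1117, o3663, l12426, o1454, l1071, l2283, l11407, o8346, o7940] l12427 := rupP (by decide +kernel)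
theorem r12428 : PImp [l11371, l12277, l3933, o1116, o1117, o688, o694, o714, l12424, l12427, o3756, l8445, l11158, l11676, l2303, l8391, l9501, l9455, l2314, o8380, l5734, o1452, o1465, l12359, o7730, o5636] l12428 := rupP (by decide +kernel)
theorem r12429 : PImp [o690, l11371, l12300, o3461, o3460, l390, l12417, l12409, l12404] l12429 := rupP (by decide +kernel)
theorem r12430 : PImp [l11371, l12277, l3933, o1116, o1117, o1452, o1465, o1501, l8403, o1090, l657, o7785, l3591, l4453, o2232, l2314, o4756, l8393, o7706, o4640] l12430 := rupP (by decide +kernel)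
theorem r12431 : PImp [l11371, l12300, l2708, o351, l5035, o305, o799, o771, o297, o340, o3461, o3460, l12194, l12216, l7703, l2992, l3008, l325, o2865, l3032, l3012, l3011, l1146, l1145, l3007, l3006, o1575, o1569, l12277, o1117, l3933, l12419, l12428, o730, l2269, o690, o336, o295, l12429, o3438, o3039, o3015, o3003, o3756, l2303, l8391, o5594, l12430, o1109, o1454, l41, l5667, o1112, l6198, l3904, l3905] l12431 := rupP (by decide +kernel)
theorem r12432 : PImp [o3754, o3752, o3845, o3427, o7897, o7876, l3606, l29, o738, l2490, o7984, o1106] l12432 := rupP (by decide +kernel)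
theorem r12433 : PImp [o5735, o714, o1116, l12123, l11453, l12134, o1452, o1465, o1489, o7981, o1090, l12142, o2310, o2312, o2317, o2260, l11808, l4626, o7873, l3228, l4808, o728, o742, o7848, o1513, o1526, l12432, l8173, l9501, o8380, l11896, o2303] l12433 := rupP (by decide +kernel)
theorem r12434 : PImp [l2265, l11371, l12277, l3933, o1116, o1117, l476, l472, o3406, l1698, o3693, o3696, o5304, o5315, o5298, o5319, o5688, o5691, l2306, o5639, o5646, o5696, l12433, o1473, l11908, l1071, l650, l9433, o2280, o3681, o7770, o7749] l12434 := rupP (by decide +kernel)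
theorem r12435 : PImp [l11371, l12277, l3933, o1116, o8522, o8395, l10528, o1117, o708, o688, o694, o714, o275, l12434, o3756, l8445, l11676, l2303, o5735, l9455, l2306, o8380, l9501, o1465, o2302, o7730] l12435 := rupP (by decide +kernel)
theorem r12436 : PImp [l5041, l11371, l12277, l3933, o1116, o1452, l11742, o1090, l12415, l2293, o8283, l12138, l3554, l4625] l12436 := rupP (by decide +kernel)
theorem r12437 : PImp [o7918, o5694, o5646, o2260, l43, o7822, o3735, o3728, o5628, l8408, o7922] l12437 := rupP (by decide +kernel)
theorem r12438 : PImp [l11371, l12300, o3460, l390, l12277, l3933, o1116, o1117, o3414, o3406, o3663, l12436, o1473, o1109, o1510, o1454, l2305, o1112, l12437, l741, o8249, l2293, o2280, l12180, o8248, l12138, l12143, l9533, l12416, o3434, o4647, o7922] l12438 := rupP (by decide +kernel)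
theorem r12439 : PImp [o1452, o1465, o1501, o1090, l11652, l8391, l8403, l657, l1509, l2306, o5700, o2332, o2260, o7706, l605, l29, o1523, l1091] l12439 := rupP (by decide +kernel)
theorem r12440 : PImp [l12439, l41, l6198] l12440 := rupP (by decide +kernel)
theorem r12441 : PImp [l11371, l12300, l2708, l12277, o1117, o1565, l12123, o351, l5035, o305, o800, o774, o8774, o799, o771, o297, o340, o3461, o2393, l12194, l12216, l7703, l2992, l1146, l1145, l3007, l3006, o1566, l3933, o1116, o1569, l12431, o8522, o5748, o8395, l12435, o730, o699, l2269, o725, o690, o336, o295, l12438, o3438, o3039, o3756, o3677, l2303, o3729, l12440] l12441 := rupP (by decide +kernel)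
theorem r12442 : PImp [l5708, l6862, o8380, o2300] l12442 := rupP (by decide +kernel)
theorem r12443 : PImp [o1501, o1465, o714, o5735, o5688, o5691, o7981, o5629, o7873, o2278, l2282, l2314, o7894, o723, o742, o2258, o7848, o1508, o1526, l12442, l11747, l12411, o8228, o5698] l12443 := rupP (by decide +kernel)
theorem r12444 : PImp [o1501, o1465, o714, l12443, l1103, l732, l2294, l11199, l2314, o8229, o3754, l10828, l12442] l12444 := rupP (by decide +kernel)
theorem r12445 : PImp [o5735, l2306, o7981, l2314, o7897, o3754, o7730, l5708] l12445 := rupP (by decide +kernel)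
theorem r12446 : PImp [o714, o1452, o1465, o1489, o1501, o1090, l11808, o1911, o2323, o2324, o2326, l12444, l12445, l1103, l732, l11199, o2258, l11747, l10828, l12442] l12446 := rupP (by decide +kernel)
theorem r12447 : PImp [o3667, o3663, o3693, o3696, l12446, o1454, l1071, l2283, l11407, o8346, o7940] l12447 := rupP (by decide +kernel)
theorem r12448 : PImp [o714, l11371, l12277, l3933, o1116, o1117, o1452, o1465, o1501, l6715, o7729, l2314, o8380, o7730, l12359, o5636] l12448 := rupP (by decide +kernel)
theorem r12449 : PImp [l11371, l12277, l3933, o1116, o1117, l12447, o3438, o3015, o3003, l8445, l2303, l12448, o1109, o1454, l2305, l5667, o1112, l11909, l12141, o8099, l3898, o7768, o4628, o4742] l12449 := rupP (by decide +kernel)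
theorem r12450 : PImp [o5735, o714, o1116, l12123, l11453, l12134, o1452, o1465, o1489, o1501, o7981, o1090, l12142, o2310, o2312, o2317, o2260, l11808, o7873, l3228, l4626, o728, o742, l4808, o7848, o1513, o1526, l12432, l6862, l5708, o8380, l11896, o2303] l12450 := rupP (by decide +kernel)
theorem r12451 : PImp [l2265, l11371, l12277, l3933, o1116, o1117, l476, l472, o3406, o3693, o3696, l1698, o5304, o5315, o5298, o5319, o5688, o5691, l2306, o5639, o5646, o5696, l12450, l2305, l11908, l1071, l650, o2270, l9444, o7768] l12451 := rupP (by decide +kernel)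
theorem r12452 : PImp [o3756, o714, o1465, o1501, l11170, l6862, o8380, o7730, o2302] l12452 := rupP (by decide +kernel)
theorem r12453 : PImp [l2708, o3461, o3460, l11371, l12277, l3933, o1116, o1117, o708, o688, o694, o275, l12449, o8522, l10528, l12451, l8445, l2303, l2306, l12452, l2305, o7768, o8860] l12453 := rupP (by decide +kernel)
theorem r12454 : PImp [l11371, l12300, o3438, l12277, l3933, o1116, o1452, o1090, l11652, l8403, l8391, o5312, l12430] l12454 := rupP (by decide +kernel)
theorem r12455 : PImp [l2269, l11371, l12300, o3461, l12277, o1117, l3933, l12429, o3039, o3015, o3003, o3756, l2303, l12454, o1109, o1454, l41, l1705, o1112, l6198, l3904, l3905] l12455 := rupP (by decide +kernel)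
theorem r12456 : PImp [l3216, o1969, l7703, l3000, l12096, l11294, l501, l2996, l11466, l5035, l4838, l4834, o4557, l11371, l12300, l3011, l3008, l3025, l3026, l12348, l12333, l12335, l4771, l12277, l3374, l12241, l390, l11453, o1159, l3927, o1152, o1569, o351, o3549, l12110, o3548, o1117, l3933, o1124, o1565, l12123, l5039, o305, o800, l4438, o774, o8774, o2393, l12347, l3319, l498, l3431, l1146, l11960, l9970, l8144, o5823, o5493, l12152, l12150, o4548, o4552, l2619, l2707, l4083, o8935, o5839, l2708, l4082, o5468, l12153, o799, o771, o297, o340, o3461, l2835, o3480, l476, l12235, l3384, l3318, l3435, l12194, l12216, l2992, l325, o2865, l3032, l3012, l1145, o4563, l3007, l3006, l4844, o1566, o1116, l12385, l12441, l12453, o730, o699, l2269, o725, o690, o336, o295, l12455, o8522, o5748, o8395, l12438, o3438, o3039, o3756, o3677, l2303, o3729, l12440] l12456 := rupP (by decide +kernel)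
theorem r12457 : PImp [l3228, l11371, o1090, o714, l12277, o1117, l476, l472, o5304, o5315, o5298, o5735, o5319, o5628, l4626, o7894, l4808, l12442, l11747, l12394] l12457 := rupP (by decide +kernel)
theorem r12458 : PImp [o3663, o714, o694, l11371, l12300, l2708, l12277, l3933, o1116, o1117, o8994, o8658, o5754, o4817, l8921, l11656, o8459, l12142, o2306, l2314, o1452, o1465, o1501, o1959, l12457, l1103, l11199, l11747, l10828, l12442] l12458 := rupP (by decide +kernel)
theorem r12459 : PImp [o694, l12135, o1969, o2367, l11371, l12300, l2708, o771, o3460, l12277, l3933, o1116, o1117, l11453, o3406, o3667, o3663, o3693, o3696, l12458, l12446, o1454, l736, l2283, l11407, o8346, o7940] l12459 := rupP (by decide +kernel)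
theorem r12460 : PImp [o694, l11371, l12300, l2708, o3461, o799, l12194, l12216, l12277, l3933, o1116, o1117, l12459, o3446, o3039, o3015, o3003, l8445, l2278, l2303, o5319, l12448, o1473, o1454, o1466, l2305, o8861, o1112, l9047, l11919, l11909, l12139, o336, o290, l11809, l2310, o736, l740, o7769] l12460 := rupP (by decide +kernel)
theorem r12461 : PImp [l2265, l2708, o3461, l390, l11371, l12277, l3933, o1116, o1117, l476, l472, o3414, o3406, o3693, o3696, l1698, o5304, o5315, o5298, o5319, o5312, o5326, o5691, o5689, l2306, o5639, o5646, o5696, l12450, o1454, l2305, l11908, l736, l650, o1112, o2270, l9444, l4268, o7768, o3436, l11807, l4294] l12461 := rupP (by decide +kernel)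
theorem r12462 : PImp [l11371, l12300, l2708, o305, o799, o771, o3461, l12194, l12216, l12277, l3933, o1116, o1117, o708, o688, o694, o275, l12460, o8522, l10528, o8395, l12461, l8445, l2303, l2306, l12452, l2305, o8861, o7685, l9047, o7768] l12462 := rupP (by decide +kernel)
theorem r12463 : PImp [l5041, l11371, l12277, l3933, o1116, o1452, l11742, l12415, l1496, l7274] l12463 := rupP (by decide +kernel)
theorem r12464 : PImp [l11371, l12277, l3933, o1117, o1454, o1112, l3932, o1116, l2305, o1473, l2269, o699, l12300, l476, o5304, o5315, o7918, l3177, l2314, l4671, o3434, o3436, l8454, o7825] l12464 := rupP (by decide +kernel)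
theorem r12465 : PImp [l5041, l2269, l11371, l12300, o3461, o3460, l390, l12277, o1117, l3933, l476, l472, o3414, o3406, o3663, l12463, o1109, o1454, o1112, l12464, l741, o8249, l2283, l12185, o8248, l11834, o4657, o5600, l3228, o4618, l3234, o7990, o8155] l12465 := rupP (by decide +kernel)
theorem r12466 : PImp [l11371, l12277, l3933, o1116, o1117, o1452, o1465, o1090, l11652, l8403, l1674, l12142, l2314, l1510, l4466, o7706, o8027, o4742, o4628] l12466 := rupP (by decide +kernel)
theorem r12467 : PImp [l2269, l11371, l12300, o3461, l12277, o1117, l3933, l12465, o3438, o3039, o3015, o3003, l2303, l12466, o1109, o1454, l41, l1510, o1112, l6198, l3904, l3905] l12467 := rupP (by decide +kernel)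
theorem r12468 : PImp [l11371, l12300, o3460, l390, l12277, l3933, o1116, o1117, o3414, o3406, o3667, o3663, l12463, o1473, o1510, o1454, o1459, l2305, l12437, o1112, l741, o8249, l2293, o2274, o2280, o2266, o8248, o7919, l12138, l9533, o3434, o3435, o7922, l678] l12468 := rupP (by decide +kernel)
theorem r12469 : PImp [l11466, l7703, l3008, l3025, l3026, l5035, l3000, l12096, l4838, l11294, l4834, l12348, l11371, l12277, l2996, l501, o4557, l12300, l3011, l12333, l12335, l3374, l12241, l390, l11453, o1159, l3927, o1152, o1569, o351, o3549, l12110, o3548, o1117, l3933, o1124, o1565, l12123, l5039, o305, o800, l4438, o774, o8774, o2393, l12347, l3319, l498, l3431, l1146, l11960, l9970, l8144, o5823, o5493, l12152, l12150, l2619, l2707, l4083, o8935, o5839, l2708, l4082, o5468, l12153, o297, o340, o3461, l2835, o3480, l476, l12235, l3384, l3318, l3435, l12216, l2992, l325, o2865, l3032, l3012, l1145, o4563, l3007, l3006, l4844, o1566, o1116, o1575, l3216, l4771, l12456, l3764, l12462, o730, o699, o691, o695, l2269, o725, o690, o336, o295, l12467, o8522, l12371, o5748, o8395, l12468, o3438, o3039, o3756,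 o3677, l2303, o3729, l12440] l12469 := rupP (by decide +kernel)
theorem r12470 : PImp [l11371, l12277, l3933, o1116, o708, o714, l11123, l11676, o275, l12142, l736, o8227, o1452, o1501, o5735, o5312, o4742, o4734, o1090, l5708, l4947, l11808, o3427, o2713, l4628, l1446] l12470 := rupP (by decide +kernel)
theorem r12471 : PImp [l2269, o699, l11371, l12300, o3461, o3460, l12277, l3933, o1116, o3406, o3663, l12415, o1472, o1509, l2304, o1452, l1279, l741, l12464, o8522, l12437] l12471 := rupP (by decide +kernel)
theorem r12472 : PImp [l12142, o8038, l4466, o4742] l12472 := rupP (by decide +kernel)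
theorem r12473 : PImp [l11371, l12277, l3933, o1116, l476, l472, o1452, l12466, o1090, l12472, l2283, l6771, o5305, o4755, l3591, l4453] l12473 := rupP (by decide +kernel)
theorem r12474 : PImp [l41, l6198] l12474 := rupP (by decide +kernel)
theorem r12475 : PImp [l11466, l7703, l3008, l3025, l3026, l5035, l3000, l12096, l4838, l11294, l4834, l12348, l11371, l12277, l2996, l501, o4557, l12300, l3011, l12333, l12335, l3374, l12241, l498, o3548, o1117, l3933, o1124, o1565, l12123, o351, l5039, o305, o800, l11453, o1159, l3927, o1152, o1569, l390, o3549, l12110, l4438, o774, o8774, o5468, l12153, o297, o340, o3461, l2835, o3480, l476, l12235, l3384, l12347, l3319, l3318, o2393, l3435, l3431, l12194, l12216, l2992, l325, o2865, l3032, l3012, l1146, l1145, o4563, l3007, l3006, l495, l4844, l2998, o1566, o1116, l11960, l4083, l9970, l4082, l2619, l8144, l2707, l2708, o5823, o5839, o8935, o5493, l12150, l12152, l12469, l3137, l4187, l8600, l5388, l4846, l4776, l5791, l3758, l5387, l1127, l878, o4346, o5011, l2739, o4965, l3762, o4940, l8837, o5800, o5784, o4937, l12185, l12470, o730, o699, l2269, o725, o690,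 o336, o295, l5041, l12471, o3438, o3039, o3015, o3003, o3756, o3677, l2303, o3729, l12474, o1452, o1465, l12473, o1090, o8522, l12472, l12440, o7785, o2280, l2285, o8128, l10643, o7749, o7788] l12475 := rupP (by decide +kernel)
theorem r12476 : PImp [l878, l7703, l11371, l12300, l3012, l3006, l3008, l5035, l12327, l4502, l12309, l10751, o804, o876, o2493, o2489, l5068, l8702, l4059, l8858, o2690, o4229, o1647, o5928] l12476 := rupP (by decide +kernel)
theorem r12477 : PImp [o1647, l1073, l8824, o6328, l5068, l8702, o4230, o2690, o5928] l12477 := rupP (by decide +kernel)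
theorem r12478 : PImp [l3308, l3008, o2493, o2489, l8858] l12478 := rupP (by decide +kernel)
theorem r12479 : PImp [l878, l7703, l11371, l12300, l3012, l5035, l4502, l12309, o804, o876, l12477, l3308, l3303, l12478, l8863, l3075, l4029] l12479 := rupP (by decide +kernel)
theorem r12480 : PImp [l11466, l11371, l7703, l3008, l3025, l3026, l5035, l3000, l12096, l4838, l11294, l4834, l12348, l12277, l2996, l501, o4557, l12300, l3011, l12333, l12335, l3374, l12241, l390, l11453, o1159, l3927, o1152, o1569, o351, o3549, l12110, l495, l12475, l4775, l3137, l12255, l2998, l4846, o4346, l1246, l12227, l12150, l3758, l3762, l4852, l5791, l4776, l5388, l8600, l4187, l498, o3548, o1117, l3933, o1124, o1565, l12123, l5039, o305, o800, l4438, o774, o8774, o5468, l12153, o340, l3384, l12347, l3319, o2393, l3435, l3431, l12194, l12216, l1146, l1145, o4563, l3007, l3006, l4844, l4967, l325, l4082, o801, l6261, l8143, l2593, o5823, o5818, o4552, o4543, o6525, l12476, l12479, l12324, l7772, l8846, l8845, l3308, l8876] l12480 := rupP (by decide +kernel)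
theorem r12481 : PImp [o1452, l11615, o1090, o735, l4947, o271, o2713, l1446] l12481 := rupP (by decide +kernel)
theorem r12482 : PImp [l3899, l3896] l12482 := rupP (by decide +kernel)
theorem r12483 : PImp [l11466, l11371, o1159, l3927, o1152, o1575, l12277, l3933, o1116, l12096, l5035, l7703, l3000, l4838, l4834, l11294, o4557, l12300, l3011, l3008, l3025, l3026, l12348, l12333, l2996, l501, l12335, l3384, l11453, o1569, o351, l3374, l12241, l390, o3549, l12110, l5039, o305, o799, l4438, o771, l495, l12475, l4775, l3137, l12255, l5388, l878, l2998, l4846, o4346, l8837, o3573, o5008, o8956, o2372, l4852, l498, o3548, o1117, o1124, o1565, l12123, o800, o774, o8774, o5468, l12153, l4844, l5791, o4563, l3007, l1146, l3435, l11676, o340, o708, o275, l12194, l3431, l1698, l2835, l1127, o5011, o5784, o5694, l5387, o4940, o4742, o5800, l2739, o4937, o4734, l4776, l11407, l12142, l12482, o1112, o1454, l12481, o3526, l12347, l3317, l12227, l12150, l8600, l12480, o3427, o714, l5708, l8388] l12483 := rupP (by decide +kernel)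
theorem r12484 : PImp [l2601, l2619] l12484 := rupP (by decide +kernel)
theorem r12485 : PImp [l5514, l12484] l12485 := rupP (by decide +kernel)
theorem r12486 : PImp [l11466, l12096, l5035, l7703, l3000, l4838, l4834, l11294, o4557, l11371, l12300, l3011, l3008, l3025, l3026, l12348, l12333, l12347, o351, l5039, o305, o800, l498, l3435, l12216, l3032, l3012, l1145, o4563, l3006, l501, l495, l2998, l2996, l12277, o1117, l3933, o1124, o1566, o1565, o1116, o1159, l3927, o1152, o1569, l476, l12123, l11453, l12335, l3374, l12235, l12241, l390, l2835, o3548, o3549, l12110, o340, l4438, o297, o774, o8774, l12475, l4775, l3137, l4187, l8600, l5388, l4846, l3758, l5387, l12255, l12227, l1127, o5011, o4965, l3762, o4940, l12150, o5784, l12185, l12485, l12483, o730, o725, o690, o336, o295, l5041, l12471, o3015, l12474, o1452, o1090, l12472, o7785, o8477] l12486 := rupP (by decide +kernel)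
theorem r12487 : PImp [o694, o688, o771, l11371, l12300, o3461, l12277, l3933, o1116, l12459, o8522, l10528, o8395, l12461] l12487 := rupP (by decide +kernel)
theorem r12488 : PImp [l2303, o688, l11371, l12277, l3933, o1116, o1117, l12448, l12452, o8522, l2306] l12488 := rupP (by decide +kernel)
theorem r12489 : PImp [o714, o694, l11371, l12300, o3461, l2708, l5035, o305, o799, l12194, l12216, l7703, l2992, l3008, l325, o2865, l3032, l12277, l3933, o1116, l3927, o1152, o1575, o1569, o1117, l11453, l3216, l3763, l12487, o3446, o3039, o3015, o3003, o3756, l8445, l2303, o5319, o5735, l12488, o1473, o1454, l2305, o1112, l11919, l12139, o1959, o2231, o2313, l9501, l11909, o7768, o290, l2306, l11809, o5655] l12489 := rupP (by decide +kernel)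
theorem r12490 : PImp [l11371, l12277, l3933, o1116, l476, l472, l1698, l650, o5298, o5312, o5735, o4742, o4734, o1452, o1501, o1090, l5708, l11808, l4947, o3427, o2713, l4628, l2490, o7717] l12490 := rupP (by decide +kernel)
theorem r12491 : PImp [l5035, l7703, l3000, l12096, l4838, l4834, l11466, l476, l12235, l3008, l3025, l3026, l11294, l12348, l11371, l12277, o4557, l12300, l3011, l12333, l12347, l1145, l4967, l7711, l4597, l3319, o2393, l2707, l4083, o8947, o5823, o4543, l5274, l12241, l390, l11453, o1159, l3927, o1152, o1569, l501, o351, o3549, l12110, o3548, o1117, l3933, o1124, o1565, l12123, l5039, o305, o800, l4438, o774, o8774, o5493, l12152, l12150, l498, o5468, l12153, o5839, l4082, o297, o340, o3461, l2835, l5268, o8935, l2708, l12486, l3318, l3435, l3431, l12194, l2992, l1146, o4563, l3007, l3006, l495, l4844, l2998, l2996, o1566, o708, o694, o714, o275, l12489, l3137, l8600, l5388, l4846, l4776, l5791, l5387, l1127, l878, o4346, o5011, l2739, o4976, l11123, o4940, l8837, o5800, o4937, l12142, l12490, o3039, o3756, l8445, l8388, l9501, l5708, l12488, l7293, l3317, l12283] l12491 :=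 rupP (by decide +kernel)
theorem r12492 : PImp [o3693, o3414, o719, l11371, l12300, l12277, l3933, o1116, l12123, l11453, o1452, o1485, o1489, l11739, l11742, o1090, o8799, o8284, o2306, o2310, o2312, o7872, o1959, o7873, o4670, o5684, l4625, o5697, l4456, l4455, o8200, o5591, o5439, o2260, l8391, o8166, l2313, o3753, o1513, o8204] l12492 := rupP (by decide +kernel)
theorem r12493 : PImp [l11371, l12277, l3933, o1116, l2305, o1117, o1454, o1473, l2269, o699, l12464, o8522, l12371, o8395, l12437] l12493 := rupP (by decide +kernel)
theorem r12494 : PImp [l741, l1279, l11834, o8248, l3228, o5600, l3234, o4618, l1510, o8155] l12494 := rupP (by decide +kernel)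
theorem r12495 : PImp [l5041, l2269, o695, o691, o699, l390, l11371, o5493, l12152, l12150, l12300, o3461, o3460, l12277, l3933, o1116, o1117, l476, l472, o3406, o3689, o3667, o3663, o3696, l12492, o1473, o1109, o1510, o1454, o1459, o1112, l12493, l741, l1279, l12185, o4657, l12494, l12138, l2283, l9533, o2274, o2280, o2266, o3434, o3435, o7922, l678, o7919] l12495 := rupP (by decide +kernel)
theorem r12496 : PImp [l2303, o3677, l2269, o699, o8522, o5748, o8395, l12440] l12496 := rupP (by decide +kernel)
theorem r12497 : PImp [l2269, l11371, l12300, o3480, l476, l12235, l390, o5493, l12152, l12150, o3461, l7703, l2992, l3008, l325, o2865, l3032, l3012, l12277, o1117, o1566, o1565, l3933, o1116, l3927, o1152, l3216, l4771, l3797, l12495, o3438, o3039, o3015, o3003, o3756, l2303, o3729, l12496, l12466, o1109, o1454, l12474, l1510, o1112, l3904, l3905] l12497 := rupP (by decide +kernel)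
theorem r12498 : PImp [l11371, l12277, l3933, o1116, o1117, o1452, o1485, o1465, o1494, l11742, o8284, o2306, o2315, o7872, o5684, o5692, o5712, o8200, o8044, o2260, o3728, l2314, o8203] l12498 := rupP (by decide +kernel)
theorem r12499 : PImp [l5041, l2269, l11371, l12300, o3461, o3460, l390, o3414, o3406, o3689, o3663, l12498, o1510, l1279, l12493, l741] l12499 := rupP (by decide +kernel)
theorem r12500 : PImp [o1909, l4466, o8043, o4926] l12500 := rupP (by decide +kernel)
theorem r12501 : PImp [l11466, l7703, l3008, l3025, l3026, l5035, l3000, l12096, l4838, l11294, l4834, l12348, l11371, l12277, o4557, l12300, l3011, l12333, l12347, l1145, l4967, l7711, l4597, l3319, o2393, l2707, l4083, o8947, o5823, o4543, l5274, l12241, l390, l11453, o1159, l3927, o1152, o1569, l501, o351, o3549, l12110, o3548, o1117, l3933, o1124, o1565, l12123, l5039, o305, o800, l4438, o774, o8774, o5493, l12152, l12150, l498, o5468, l12153, o799, o771, o297, o340, l2835, o8935, o5818, l2708, l12486, l3318, l3435, l12216, l3032, l3012, l1146, o4563, l3007, l3006, l495, l2998, l2996, o1566, o1116, o1575, l476, l12235, l12491,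 o730, o722, o720, o725, o690, o719, o336, o295, l12497, l4187, l8600, l5388, l4846, l3758, l5387, o5008, l2739, o4965, l3762, l3797, o4940, l12185, l12136, l12499, o3015, o3719, o3756, l12474, o1452, o1489, o1501, o1090, l12472, o7785, l8403, l12500, o2232, l4464, l657, o4675] l12501 := rupP (by decide +kernel)
theorem r12502 : PImp [l3228, l3234, o1501, l11371, l12277, o1117, o1465, l3933, o1116, o1452, o7981, l12457, l2314] l12502 := rupP (by decide +kernel)
theorem r12503 : PImp [o714, l11371, l12277, l3933, o1116, o1117, o3406, o3663, l11908, o1452, o1501, o1090, l11808, l12502, l1103, l11199, l11747, l10828, l12442] l12503 := rupP (by decide +kernel)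
theorem r12504 : PImp [o708, o688, o694, o275, l12503, l8445, l12488, l9455] l12504 := rupP (by decide +kernel)
theorem r12505 : PImp [o3414, l11371, l12300, l12277, o1117, o1465, l11804, l11742, o8284, o5637, o4622, l12142, l2314, l8393, o8203, o3017] l12505 := rupP (by decide +kernel)
theorem r12506 : PImp [l5041, l2269, l11371, l12300, o3461, o3460, l390, l12277, l3933, o1116, o1117, l476, l472, o3406, o3663, l12505, o1473, o1109, o1454, l2305, l12464, o1112, l12382, o4657, l2283, l12494] l12506 := rupP (by decide +kernel)
theorem r12507 : PImp [l11371, l12277, l3933, o1116, o1452, o1090, o1117, o1465, l5041, o5319, l1674, l3559, l12142, l2314, l11645, o7706, l8393, o4628] l12507 := rupP (by decide +kernel)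
theorem r12508 : PImp [l11371, l12277, l3933, o1116, o1452, l12466, o1090, l12507, o4657, o4633, o4622, l4450, l4455, l4464, l8393] l12508 := rupP (by decide +kernel)
theorem r12509 : PImp [l11466, l11371, l5035, l7703, l3000, l12096, l4838, l4834, l12300, l2708, l2707, l12486, l11294, o4557, l3011, l3008, l3025, l3026, l12348, l12333, l12347, l3319, l3318, o2393, o351, l5039, o305, o799, o800, l498, l3435, l3431, l12216, l2992, l325, o2865, l3032, l1146, l1145, o4563, l3007, l3006, l501, l4844, l4967, l2996, l12277, o1117, l3933, o1124, o1566, o1565, o1116, o1159, l3927, o1152, o1575, o1569, l12123, l11453, l12135, l7711, l4083, l4597, o8947, o5823, o8935, o4543, l5274, l5268, l12241, l390, l2835, o3460, o3461, o3548, o3549, l12110, o340, l4438, o297, l4082, o771, o774, o8774, o5468, o5839, o5493, l12153, l12150, l12152, l12501, l12119, o3554, o3555, l3216, l4774, l3763, o1969, l3797, o2367, o2370, o8506, l10260, o8915, o8801, o5754, l12371, o4792, o4788, o4817, o8459, l12504, o730, l2269, o690, o719, o336, o295, l12506, o3438, o3446, o3039, o3015, o3003, l2303, l12508, o1109, o1454, l12474, l1510,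 o1112, l3904, l3905] l12509 := rupP (by decide +kernel)
theorem r12510 : PImp [l3228, l3234, l4083, o811, o6525, o8355, o2300, l657, o3754, o3427, o2973, l8399, o7897, l4628, o4628, l5881, o8170] l12510 := rupP (by decide +kernel)
theorem r12511 : PImp [o708, o275, l11371, l12277, l3933, o1116, o1452, o1090, l11808, l3228, l3234, l3318, o1501, o1117, o1465, o5312, o5735, o7981, o5628, l2314, o7894, l12510, o801, o750, l12442, o3754, o3427, l8399, o7897, l4628, o4628, l5881, o6510, o8170] l12511 := rupP (by decide +kernel)
theorem r12512 : PImp [l5523, l657] l12512 := rupP (by decide +kernel)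
theorem r12513 : PImp [l11371, l3318, o1501, l12277, l3933, o1116, o1452, l12300, l2708, o1117, o5818, o5840, l12511, l1103, l11199, l11625, o3754, l12512, o2300, o8355, o714, l10828, l12442] l12513 := rupP (by decide +kernel)
theorem r12514 : PImp [o8958, o8947] l12514 := rupP (by decide +kernel)
theorem r12515 : PImp [l3008, l1218, l421, o1647, l8887, l1073, o4230, o3893, l8824, o5928, l5067, l8702, o2690] l12515 := rupP (by decide +kernel)
theorem r12516 : PImp [l5035, l4083, o6525, l878, l7703, l11371, l12300, l3012, l4502, l12309, o804, o876, l12515, l3308, l12478, l3303, l8863, l3075, l4029] l12516 := rupP (by decide +kernel)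
theorem r12517 : PImp [l11466, l7703, l3008, l3025, l3026, l5035, l3000, l12096, l4838, l11294, l4834, l12348, l11371, l12277, l3374, l12241, l1137, l12228, o5165, l12153, l2998, l501, l4775, l4846, o4346, l1246, l2996, o4557, l12300, l3011, l12333, l3758, l3762, l4852, l4776, l495, l3137, l3384, l498, l3431, l5039, l12194, l1146, o4563, l3007, l4844, l325, l12324, l7772, l8846, l8845, l3308, l8876] l12517 := rupP (by decide +kernel)
theorem r12518 : PImp [o4571, l5035, l4083, l12516, l2593] l12518 := rupP (by decide +kernel)
theorem r12519 : PImp [o2278, l2313, o8182, o7898, l740] l12519 := rupP (by decide +kernel)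
theorem r12520 : PImp [l12142, o1452, o1465, o1489, o1494, o1501, o1090, o7873, l11808, l4947, o728, l4626, o2713, l2963, l5708, o3754, o3753, o3752, o3846, o3427, o7875, l4628, o735, o7717, o1089, l1705, l3907, o1088, o1445, l12519, o8522, o2260, l2306, o5646, o7897, l6923, l29] l12520 := rupP (by decide +kernel)
theorem r12521 : PImp [l5035, l7703, l3000, l12096, l4838, l4834, o2393, l11466, l11294, o4557, l11371, l12300, l3011, l3008, l3025, l3026, l12348, l12333, l12347, l3319, l2707, l12509, l12514, o5818, l2708, l12486, l1218, l421, l3318, o351, l5039, o305, o799, l498, l3435, l3431, l12194, l12216, l1146, l1145, o4563, l3006, l501, l495, l4844, l2998, l2996, l12277, l3933, o1116, o1159, l3927, o1152, o1575, o1569, o1117, l476, l11453, l3374, l3384, l12235, l4775, l10173, l12241, l3137, l4187, l8600, l5388, l4846, l4776, l3758, l5387, l390, o3461, o3548, o3549, o3406, l1698, l878, o4346, l4852, l11407, l3762, l3797, o3694, l12110, o5319, o5312, l8837, l12142, o2310, l12136, o340, l4438, o297, l12227, l3214, o8658, o708, o771, o694, l12150, o4954, o4951, o4949, o5838, o5688, o5694, o275, o4743,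 o4740, o4734, o5735, l12517, l12518, o750, l12520, o1109, o1454, o1112, l3899, o2713, l3897, l1705] l12521 := rupP (by decide +kernel)
theorem r12522 : PImp [l12142, o2315, l2314, l1705, o3017, o7845, o5674, o8167, o8185] l12522 := rupP (by decide +kernel)
theorem r12523 : PImp [l5035, l7703, l3000, l12096, l4838, l4834, o2393, l11466, l11294, o4557, l11371, l12300, l3011, l3008, l3025, l3026, l12348, l12333, l12347, l3319, l2707, l12509, l12514, l12486, o351, l5039, o305, o799, o800, l498, l3435, l3431, l12194, l12216, l1145, o4563, l3007, l501, l4844, l2996, l12277, o1117, l3933, o1124, o1566, o1116, o1159, l3927, o1152, o1575, o1569, l11453, l12135, l12521, l3380, l12119, l4774, l3216, l3763, o1969, l3797, o4525, o2367, o2370, l5274, l5268, l12241, l390, l2835, o3460, o3461, o3549, o3554, o3555, o3663, l12110, o8465, o3700, o8506, o340, l4438, o297, o4793, o8801, l12371, o771, o694, o688, o8799, o5744, o5750, o8459, l12513, o1109, o1510, o1454, l2305, l12522, o8345, l11407, l2283, o5629, o7940] l12523 := rupP (by decide +kernel)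
theorem r12524 : PImp [o351, l11466, l12096, l5035, l7703, l3000, l4838, l4834, l11294, o4557, l11371, l12300, l3011, l3008, l3025, l3026, l12348, l12333, l501, l495, o1159, l3927, o1152, o1569, l12277, l11453, l3374, l4775, l12241, l3137, l390, o3549, l12255, l12110] l12524 := rupP (by decide +kernel)
theorem r12525 : PImp [o351, l5035, l11466, l7703, l3008, l3025, l3026, l3000, l12096, l4838, l11294, l4834, l12348, l5039, o305, o799, o4557, l11371, l12300, l3011, l12333, l501, l2996, o1159, l3927, o1152, o1575, o1569, l12277, l11453, l12135, l12524, l12119, l3216, l3763, o1969, o4525, o2367, l5274, l12241, l390, o3549, o3555, l12256, l12110, o8506, o5485, l12255, l11404] l12525 := rupP (by decide +kernel)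
theorem r12526 : PImp [l7703, l3008, l11466, l11371, l5035, l3000, l12096, l4838, l4834, l12300, l3032, o3015, l12525, l1137, o351, l3025, l3026, l11294, l12348, l5039, o305, o799, o4557, l3011, l12333, l1146, o4563, l3007, l501, l4844, l2998, l2996, o1159, l3927, o1152, o1575, o1569, l12277, o1117, l3933, l476, l11453, l3374, l12235, l4775, l12241, l8600, l5388, l4846, l5791, l5387, l390, o3549, l12228, o4346, l4852, l3797, l12110, o5165, l8837, l12136, o340, l12153, o8658, o708, l8445, l11158, o4954, o275, l11170, l12142, o4743, o1454, o7684, o1112, l3897] l12526 := rupP (by decide +kernel)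
theorem r12527 : PImp [l12486, l12509, l12525, l5035, l7703, l3000, l12096, l4838, l4834, o2393, l11466, l11294, o4557, l11371, l12300, l3011, l3008, l3025, l3026, l12348, l12333, l12347, l3319, l2707, l12514, o5818, l1137, l2708, l3318, o351, l5039, o305, o799, o800, l498, l3435, l3431, l12216, l1146, l1145, o4563, l3007, l501, l4844, l2996, l12277, o1117, l3933, o1124, o1566, o1116, o1159, l3927, o1152, o1575, o1569, l11453, l12135, l12523, o3438, o3446, l12526, l3380, l12119, l4774, l3216, l3763, o1969, l3797, o4525, o2367, o2370, l5274, l5268, l12241, l390, l2835, o3461, o3549, l12228, o3554, o3555, o3397, l12110, o5165, o8465, o8506, o340, l4438, o297, l12153, o4793, o8915, o8801, l12371, o771, o694, o688, l8445, l11158, o2278, l2314, o8799, o5319, o5312, o5690, l6779, l12139, o5840, o5834, o5663, o1452, o1465, o1501, l12448, l10930, l6793, o801, l734, l12510] l12527 := rupP (by decide +kernel)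
theorem r12528 : PImp [l5035, l11466, l7703, l3008, l3025, l3026, l3000, l12096, l4838, l11294, l4834, l12348, l5039, o305, l12527, o730, o336, o351, o800, o725, o720, l12486, l12509, l12525, l1137, l11371, l12300, l2708, o4557, l3011, l12333, l12347, l3318, o799, l498, l3435, l12216, l3032, l1145, o4563, l3006, l501, l495, l2998, l2996, l12277, o1117, l3933, o1124, o1566, o1116, o1159, l3927, o1152, o1575, o1569, l476, l11453, l3374, l12235, l4775, l12241, l3137, l4187, l8600, l5388, l4846, l3758, l5387, l390, l2835, o3549, l12228, o4346, o5008, l2739, l4852, l3762, l3797, l12110, o5165, l1246, l12136, o340, l4438, o297, l12227, l1268, o8658, o771, o690, l12150, o5795, o719, o295, l12499, o3015, o3756, o3719, l12474, o1452, o1489, o1501, o1090, l12500, l12512, o2232] l12528 := rupP (by decide +kernel)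
theorem r12529 : PImp [l7703, l3008, l12486, l1218, l11466, l12096, l5035, l3000, l4838, l4834, l11294, o4557, l11371, l12300, l3011, l3025, l3026, l12348, l12333, l12347, l3319, o2393, o351, l5039, o305, o799, o800, l498, l3435, l3431, l12216, l2992, l325, o2865, l3032, l1145, o4563, l3007, l3006, l501, l2996, l12277, o1117, l3933, o1124, o1566, o1116, o1159, l3927, o1152, o1575, o1569, l11453, l12135, l2707, l12509, l1137, l12514, l12525, l12527, o730, o336, l12528, l3380, l12119, l4774, l3216, l3763, o1969, l3797, o4525, l11802, o2367, o2370, l5274, l12241, l9632, l390, l2835, o3460, o3461, o3549, l12228, o3554, o3555, o5823, l12110, o5165, o8465, o8506, o340, l4438, o297, o4827, o4793, o4789, o8801, l12371, o771, o690, l2269, o8799, o719, o295, o5494, o5750, l12506, l12150, o3438, o3446, o3039, o3015, o3003, o3670, l12508, o1109, o1454, l12474, l1510, o1112, l3904, l3905] l12529 := rupP (by decide +kernel)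
theorem r12530 : PImp [l7703, l3003, l3319, o2393, l498, l3431, o4557, l1145, l5035, l4834, l3374, l9632, l2619, l8144, o6525, o5818] l12530 := rupP (by decide +kernel)
theorem r12531 : PImp [l11466, l12096, l5035, l7703, l3000, l4838, l4834, l11294, o4557, l11371, l12300, l3011, l3008, l3025, l3026, l12348, l12333, l1145, l501, l2996, l12347, l12486, l1218, l12529, l12530, l12119, l4774, l3763, l5519, o4525, l5514, l5274] l12531 := rupP (by decide +kernel)
theorem r12532 : PImp [l5035, o1160, l8727, l7736, l8906] l12532 := rupP (by decide +kernel)
theorem r12533 : PImp [l3319, l8638, l9437] l12533 := rupP (by decide +kernel)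
theorem r12534 : PImp [l5102, o1899, l8918, o335, l11867] l12534 := rupP (by decide +kernel)
theorem r12535 : PImp [l12531, l3216, o1975, l7703, l3000, l5035, l12096, l4838, l4844, l3927, l11294, l501, l495, o4563, l3006, l11466, l11371, l4834, l12300, l3008, l3025, l3026, l12348, l5039, l12216, l12533, o1160, l4771, o4557, l1145, l8727, o5595, o5596, l3234, l12277, l3374, l12241, o3548, o3696, o3694, l11453, o1159, o1152, o1569, o351, l3011, l12333, l390, o3549, l12110, l4438, o694, l2707, l3384, l12532, l1218, l421, l2586, l4082, l12133, l3933, o1132, l2708, l498, l3435, l8902, o8328, l4775, o1117, o1124, o1565, l12123, o305, o800, o774, o8774, o799, o771, o340, l2835, l3431, l12194, l3007, l4967, o1158, l12394, l1127, l1698, l5510, o5756, o5690, o5691, o1535, o1603, o7873, o7874, o728, l11896, l740, l12534, o1078, o1076, o1409, o1429, o1418, l12310, o257, o250, o672, o641, l10548, l1134, l12145, o5540, o8520, o8370] l12535 := rupP (by decide +kernel)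
theorem r12536 : PImp [l8837, l1244, l7703, l3008, l1218, l421, l11466, l3025, l3026, l5035, l3000, l12096, l4838, l11294, l4834, l12348, l11371, l12277, l3374, l12241, l498, o3548, o1117, l3933, o1124, o1565, l12123, o351, l5039, o305, o800, l11453, o1159, l3927, o1152, o1569, l501, o4557, l12300, l3011, l12333, l390, o3549, l12110, l4438, o774, o8774, o5468, l12153, l3384, l12531, l3435, l3431, l12194, l12216, l3012, l1146, l1145, o4563, l3007, l3006, l4844, l4967, o1575, o1158, l325, l12308, o853, l12337, l10807, o923, l5034, l8742, l8887, l1073, l4526, o2501, o2489, l8857, o2450, o4077, l12389, l3969, l5053, l684, l8924, o1078, o1076, o1429, l12310, o257, o672, l10548, l10549, l2521, l2505] l12536 := rupP (by decide +kernel)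
theorem r12537 : PImp [l8837, l1244, l11453, l5035, l11466, l11371, o1159, l3927, o1152, o1569, l7703, l3000, l12096, l11294, l501, o351, l4838, l4834, o4557, l12300, l3011, l3008, l3025, l3026, l12348, l12333, l12277, l3374, l12241, l390, o3549, l12110, o340, l12531, l498, l3435, l3431, l5039, l12194, l12216, o305, l2992, l3012, l1145, o4563, l3007, l3006, l4967, o1575, o1117, l3933, o1158, l5034, l4502, l12309, l4526, o102, o101, o853, l10807, o922, o923, l12148, l8887, l1073, o1734, o4163, o4161, o4087, o4077, l3096, o2535, o2540, l12389, o6050, o6049, l11856, o867, o824, l4498, o251, l4981, o819, l4587, o661, l11613, l4984, l8508, l8083, l5053, l684, l8924, o1078, l6382, o1429, o4583, l10548, l3919, l3918] l12537 := rupP (by decide +kernel)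
theorem r12538 : PImp [o5636, o5643, o7897, l11896, o3754, l6194] l12538 := rupP (by decide +kernel)
theorem r12539 : PImp [l11820, l11832, o290] l12539 := rupP (by decide +kernel)
theorem r12540 : PImp [l5035, l7703, l3000, l12096, l4838, l4834, l11466, l11371, l12300, l3008, l3025, l3026, l11294, l12348, l12277, l3374, l12241, o3460, o1117, l11453, o1159, l3927, o1152, o1569, l501, o351, o4557, l3011, l12333, l390, o3549, l12110, l4438, l2708, l3384, l12531, l4844, l495, o4563, l3006, l5039, l12216, l3216, o1975, l12533, o1160, l4771, l1145, l8727, l2586, l4082, l12133, l3933, o1132, l498, l3435, l8902, o8328, o694, o714, o1465, o340, o708, o275, o1116, o1452, o1090, l11808, o1911, o2402, l12194, l3431, l1698, o5735, o305, o799, o771, o3548, o3694, o1969, o2323, o1489, o1124, o1565, l12123, o800, o774, o8774, o5689, o7873, o728, l4775, o3696, o5691, o2324, o742, o7848, o1513, o7981, l2313, l2314, o723, o1566, o1508, o3667, l2282, o8228, l12538, o8459, l3228, o3406, l476, o5315, o5319, l4626, l4808, o5468, l12153, l3012, l1146, l3007, l12539, l12186, l12535, l11896, o4754, o4652] l12540 := rupP (by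 decide +kernel)
theorem r12541 : PImp [l11371, l12277, l3933, o1116, o1452, o1090, l11808, o1911, o2402, o1117, l11820, l11839, o290] l12541 := rupP (by decide +kernel)
theorem r12542 : PImp [l11466, l11371, l12277, o1117, l3933, o1124, o1566, l7703, l3000, l12096, l11294, l501, l4775, l3008, l3025, l3026, l5035, l4838, l4834, l12348, l3374, l12241, o3548, o3696, o1565, l12123, o351, l5039, o305, o800, l11453, o1159, l3927, o1152, o1569, o4557, l12300, l3011, l12333, l390, o3549, l12110, l4438, o774, o8774, l12194, l498, l3431, l1698, o5691, l3216, o1969, l4844, l3384, o340, o708, o275, o1116, o1452, o1090, l11808, o1911, o2324, o3694, o2323, o1489, o5689, o7873, o742, o7848, o1508, o1513, o799, o771, o728, o723, l12531, l12133, l495, o4563, l3006, l12216, o1975, l12533, o1132, o1160, l4771, l1145, l8727, l2586, l3435, l8902, o5735, o7981, o5312, l476, l472, o5298, o2402, l3228, l3234, o1465, o3460, o3667, l4082, o714, o297, o688, o694, l2708, o8328, o5468, l12153, l2992, l3012, l1146, l3007, l325, l2282, l2313, l2314, o8228, l12538, o8459, l12540, l12541, l12186, l12181, l11896, l11897, l740, l4628,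 o4642, o2845, l4582, o8027] l12542 := rupP (by decide +kernel)
theorem r12543 : PImp [l11371, o1078, o1076, o1429, l12310, o257, o672, l1128, l10548, o3375, l2521, l2505] l12543 := rupP (by decide +kernel)
theorem r12544 : PImp [l3228, l3234, o271, l4628, l8443, o2845] l12544 := rupP (by decide +kernel)
theorem r12545 : PImp [l12531, l3216, o1975, l7703, l3000, l5035, l12096, l4838, l4844, l11294, l3384, l11453, l11466, l11371, o1159, l3927, o1152, o1569, l501, o351, l4834, o4557, l12300, l3011, l3008, l3025, l3026, l12348, l12333, l12277, l3374, l12241, l390, o3549, l12110, o340, o708, o275, l3933, o1116, o1452, o1090, l11808, o1911, o2402, o1969, o2326, o2324, o2323, l3228, l3234, o1489, o1117, o1465, o3548, o3696, o3694, o3460, o3663, o3406, l495, o4563, l3006, l5039, l12216, l12533, o1160, l4771, l1145, l8727, l2586, l4082, o714, o297, o688, l4438, o694, l12133, o1132, l2708, l498, l3435, l8902, o8328, l12135, o2367, o1575, o305, o799, l3007, l12305, l12150, l4775, o1124, o1565, l12123, o800, o774, o8774, o771, o3461, l2707, l3431, l12194, l3012, l4967, l476, l472, o1158, l325, l1698, o5304, o5315,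 o5298, o5319, o5312, o7981, o5691, o5689, o5735, l4626, o7873, l4808, o728, o742, o7848, o1513, o1526, l12542, o8522, o2260, l2265, o8395, l2306, o5639, o5646, o7894, o5696, l12432, o5628, l5510, l6194, o1534, l12186, l11896, o4777, l31, l12543, l12534, l12544, o290, o7812, o7984] l12545 := rupP (by decide +kernel)
theorem r12546 : PImp [o7981, o5735, o2258, l6194, l11747] l12546 := rupP (by decide +kernel)
theorem r12547 : PImp [l12546, l732, o2258, l11828, l11747, l6194] l12547 := rupP (by decide +kernel)
theorem r12548 : PImp [l7703, l11466, l11371, l5035, l3000, l12096, l4838, l4834, l12300, l2992, l11453, o1159, l3927, o1152, o1569, l11294, l501, o351, o4557, l3011, l3008, l3025, l3026, l12348, l12333, l12277, l3374, l12241, l390, o3549, l12110, l12181, l8837, l5039, o297, o688, o3460, o3663, l3933, o1116, o1452, l11199, o3461, l10528, o1489, o1117, o1465, o3548, o3696, o3694, l4438, o694, l1218, l421, l498, o1124, o1565, l12123, o305, o800, o774, o8774, o5468, l12153, o799, o771, l3384, l3435, l3431, l12194, l12216, l325, o2865, l1146, l1145, o4563, l3007, l3006, l4844, l4967, o7981, o5689,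 o4756, l2314, o2258, o7873, l8399, o8373, o728, o742, o3001, o7730, l11915, l1705, o4640, o290, o8027, o6485, l12536, l12537, l12117, l12337, l9744, l7772, l8043, l8830, l7200, l4535, l4547, o3907] l12548 := rupP (by decide +kernel)
theorem r12549 : PImp [l3236, l3238, l7703, l3008, l5035, o257, l10499, o671, o641, l3015, o3374, l2519, o7554, l451, o5425, o5423, l2423, l11361, l11851, l5075, l3632, l4494, o3432, o289, l4487, o4727, o4603, o7639, o616, l761, o2215] l12549 := rupP (by decide +kernel)
theorem r12550 : PImp [l4587, l11873, l4498] l12550 := rupP (by decide +kernel)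
theorem r12551 : PImp [l5102, l3228, l3234, l7703, l3008, l325, o268, l12544, l8393, o687, l2755, o4284, l12549] l12551 := rupP (by decide +kernel)
theorem r12552 : PImp [l12531, l3216, o1975, l7703, l3000, l5035, l12096, l4838, l4844, l11294, l3384, l11453, l11466, l11371, o1159, l3927, o1152, o1569, l501, o351, l4834, o4557, l12300, l3011, l3008, l3025, l3026, l12348, l12333, l12277, l3374, l12241, l390, o3549, l12110, o340, o708, o275, l3933, o1116, o1452, o1090, l11808, o1911, o2402, o1969, o2324, o2323, l3228, l3234, o1117, o1465, o3460, o3663, o3406, l495, o4563, l3006, l5039, l12216, l12533, o1160, l4771, l1145, l8727, l2586, l4082, o714, o297, o688, l4438, o694, l12133, o1132, l2708, l498, l3435, l8902, o8328, l12135, o2367, o1575, o305, o799, l3007, l12305, l12150, l2707, l12532, l4775, o3548, o1124, o1565, l12123, o800, o774, o8774, o5468, l12153, o3461, l3431, o352, l12194, l325, o2865, l3012, l1146, o1158, l12545, l10528, l11199, l8000, l12547, l12186, l4919, l12548, l732, l9900, l2314, o2258, l12536, l12543, l8399, l11828, l11747, l5102, o1142, o1105, o3001, o5596, o5594, o5592, l5510,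 l3236, o1899, l6954, o1428, l1705, l4626, o1534, o2225, o1070, l12550, l12551, o336, o8053, o746, o4622, l12549] l12552 := rupP (by decide +kernel)

end Pool.Agent.BDD.A
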