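import Pool.Agent.BDD.AC
import Pool.Agent.BDD.AE0
import Pool.Agent.BDD.AE1
import Pool.Agent.BDD.AE2
import Pool.Agent.BDD.AD0
import Pool.Agent.BDD.AD1
import Pool.Agent.BDD.AD2
import Pool.Agent.BDD.AD3
import Pool.Agent.BDD.AD4

set_option autoImplicit false
set_option linter.all false

namespace Pool.Agent.BDD.A

theorem r12553 : PImp [o5735, l476, l472, o5298, o5304, l11371, l12277, l3933, o1116, o1452, o1090, l11808, o1911, o2402, l3228, l3234, o1117, o1465, o694, l12300, l2708, l2707, l12194, l12216, l11884, l6194, l12541, o290, l3604, l2490, l5881, o3752, o8459, o2258, o1106, o4665, l673, o5636, l12432, o8231] l12553 := rupP (by decide +kernel)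
theorem r12554 : PImp [l5102, o1142, l3236, o1899, o1428, o2225, l12550, l11865, o4593, l11479, o335, l4479, l4480] l12554 := rupP (by decide +kernel)
theorem r12555 : PImp [o8520, o8370] l12555 := rupP (by decide +kernel)
theorem r12556 : PImp [l11453, l5035, l11466, l11371, o1159, l3927, o1152, o1569, l7703, l3000, l12096, l11294, l501, o351, l4838, l4834, o4557, l12300, l3011, l3008, l3025, l3026, l12348, l12333, l12277, l3374, l12241, l390, o3549, l12110, l498, l3435, o352, l5039, l12194, l12216, o4563, l3007, o1158, l12554, o1078, o1076, o1429, o1418, l12310, o257, o250, o672, l10548, l12145, l12555, o5296, l11361, l6382, l4308] l12556 := rupP (by decide +kernel)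
theorem r12557 : PImp [l3228, l3234, l3008, l325, o271, l4628, l4582, l2983, o2845, o1106, l4936, l8443, o4752] l12557 := rupP (by decide +kernel)
theorem r12558 : PImp [o8373, l11897] l12558 := rupP (by decide +kernel)
theorem r12559 : PImp [l12552, l12531, l3216, o1975, l7703, l3000, l5035, l12096, l4838, l4844, l11294, l3384, l11453, l11466, l11371, o1159, l3927, o1152, o1569, l501, o351, l4834, o4557, l12300, l3011, l3008, l3025, l3026, l12348, l12333, l12277, l3374, l12241, l390, o3549, l12110, o340, o708, o275, l3933, o1116, o1452, o1090, l11808, o1911, o2402, o1969, o2326, o2324, o2323, l3228, l3234, o1489, o1117, o1465, o1485, o3548, o3696, o3694, o3460, o3663, o3667, o3406, l495, o4563, l3006, l5039, l12216, l12533, o1160, l4771, l1145, l8727, l2586, l4082, o714, o297, o688, l4438, o694, l12133, o1132, l2708, l498, l3435, l8902, o8328, l2707, l12532, l3797, l9303, l12135, o2367, o1575, o305, o799, l3007, l12305, l4775, o1124, o1565, l12123, o800, o774, o8774, o5468, l12153, o771, l3431, l12194, l2992, l1146, o1566, l476, l472, l1698, o5304, o5315, o5298, o5319, o5312, o7981, o5691, o5689,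 o5735, l4626, o7873, l4808, o723, o728, o742, o7848, o1513, o1508, o1526, l12553, l12181, l12556, l12557, o290, l12558, o8459, o2258, o2265, o5755, o5636, o7894, o8228, o5695, l664, o5629, l11896, o5646, l31, l12432, l5510, o1534, o7984, o7812] l12559 := rupP (by decide +kernel)
theorem r12560 : PImp [l8837, l1244, l7703, l3000, l12096, l11294, l2996, l3927, l5035, l4838, l4834, l4844, o4557, l1145, l12531, l2707, l3384, l501, l4771, l3216, o1975, l495, o4563, l3006, l11466, l11371, l12300, l3008, l3025, l3026, l12348, l5039, l12216, l12533, l12532, l3763, o4525, l1218, l421, l11453, o1159, o1152, o1569, o351, l3011, l12333, l12277, l3374, l12241, l390, o3549, l12110, o1160, l8727, l2586, l4082, l12133, l3933, o1132, l2708, l498, l3435, l8902, o8328, l12135, o1969, o2367, o1575, o305, o799, l3007, l12305, l12150, l3797, l4775, o3548, o1117, o1124, o1565, l12123, o800, l4438, o774, o8774, o5468, l12153, l3431, o352, l12194, l3012, l1146, l4967, o1158, l325, l12543, l12308, l5102, o1142, l12337, l3236, o1899, o1428, l5034, l4502, l8742, l3238, o2225, o2399, l4526, o2501, o2489, l8857, l4059, l12478,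 o2443, l12550, l3303, o4194, o4091, o1644, o1639, l11865, l3966, o1756, o4593, o4589, o4147, o4148, o947, l6373, o2510, l4490, o335, l4079, l4506, l4960, o76, o6008, o2514, o6044, o903, o900, o1068, l11368, l3015, l2718, l11853, o7519, o5521] l12560 := rupP (by decide +kernel)
theorem r12561 : PImp [l5102, o1142, l3236, o1899, o1428, l3238, o2225, l12550, l11865, o4589, l6373, l4490, o335, o8904, o7567] l12561 := rupP (by decide +kernel)
theorem r12562 : PImp [o1970, l3216, l11371, o1078, o1076, o1429, o1427, o1418, l12310, o257, o250, o672, o671, l10548, l12145, o1953, l12555, o2226, o5572, o7504, o9144] l12562 := rupP (by decide +kernel)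
theorem r12563 : PImp [l5035, l3927, o1158, l11466, l11371, o1152, l7703, l3000, l12096, l4838, l11294, o4563, l3006, l3008, l3025, l3026, l4834, l12348, l5039, l12300, l12216, l12194, o351, l3374, l11453, o1159, o1569, l501, o4557, l3011, l12333, l12277, l12241, l390, o3549, l12110, o305, o799, l4438, o771, o8799, l12562, o297, o688, o3460, o3663, l3933, o1116, o1452, l11199, o3461, l10528, o1489, o1117, o1465, o3548, o3696, o3694, o694, l3384, l12531, l4844, l495, l3216, o1975, l12533, o1160, l4771, l1145, l8727, l2586, l4082, l12133, o1132, l2708, l498, l3435, l8902, o8328, o1969, l4775, o1124, o1565, l12123, o800, o774, o8774, l3431, o352, l325, o2865, l1146, l3007, o7981, o5689, o5686, o4756, l2314, o2258, o7873, o4929, l8399, o8373, o728, o742, o3001, o7730, l11915, l1705, o4640, o290, o8027, l12560, l12561] l12563 := rupP (by decide +kernel)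
theorem r12564 : PImp [l7703, l3000, l12096, l11294, l501, l5035, l4838, o4563, l3007, l11466, l4834, o4557, l11371, l12300, l3011, l3008, l3025, l3026, l12348, l12333, o352, l3927, o1158, o1152, l3006, l5039, l12216, l12194, o351, l3374, l11453, o1159, o1569, l12277, l12241, l390, o3549, l12110, o305, o799, l4438, o771, o8799, l12562, l498, l3435, l5102, l3236, o1142, o1428, l3216, o1969, o1899, o2225, l12550, l12531, o1975, o2399, l3238, l3933, o1105, l2996, l4844, l1145, l2707, l3384, l4771, l495, l12533, l12532, l3763, o4525, l1218, l421, o1160, l8727, l2586, l4082, l12133, o1132, l2708, l8902, o8328, l12135, o2367, o1575, l12305, l12150, l3797, l4775, o3548, o1117, o1124, o1565, l12123, o800, o774, o8774, o5468, l12153, o3479, l3431, l3012, l1146, l4967, l325, l12560, l11865, l12308, o4351, o4590, o5571, l12337, l878, l6373, l4505, l8742, o2708, l2969, l4490, o2501, o2489, l8857, l4059, l12478, o2517, o2510, l11853, o335, o289, l4079, l4506, o4149, o4144, o1640, o1639, o6045, o5521, o5237, o4578, o7567, o6008, o7544, o3625, o901, o1079, o7639, o7519, o2215, o3652, l761, o7699] l12564 := rupP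 (by decide +kernel)
theorem r12565 : PImp [l5102, l3236, l3238, l8431, l4965, l11371, l12277, l3933, o1105, l7703, l12300, l3012, l3008, l5035, l4502, l12309, l4505, l10751, l4506, o75, o2501, o2489, l8857, l4059, l12478, o2517, o2510, o2511, o4149, o4145, o4144, o1640, o1644, o1639, o6045, o1755, o6008, o6043, o901, o899, o1068, l11368, o3374, o7554, o5425, o5423, l11361, l5075, l3632, o3432, l4487, l4484, o7639, o616, o4605, o2215, l761] l12565 := rupP (by decide +kernel)
theorem r12566 : PImp [l878, l3008, l325, l12337, l8043, l8899, l9813] l12566 := rupP (by decide +kernel)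
theorem r12567 : PImp [o251, l11851, o655, o5425, o5426, o7554, o7628, l2333] l12567 := rupP (by decide +kernel)
theorem r12568 : PImp [l5102, l3236, l3238, l8431, o289, l7703, l3008, l325, l11371, l12300, o2865, o3461, l12277, l3933, o1116, o297, l10528, l2314, l8399, o3001, l3012, l12186, l8837, l3228, l3234, l11064, l4945, l12216, o268, l12544, l8393, o626, l2755, o4284, l878, l12566, o4259, l2765, o4728, l4960, l12565, o2711] l12568 := rupP (by decide +kernel)
theorem r12569 : PImp [l11466, l11371, l5035, l7703, l3000, l12096, l4838, l4834, l12300, l3008, l3025, l3026, l11294, l12348, l12277, l3374, l12241, o3460, o3663, o3406, l11453, o1159, l3927, o1152, o1569, l501, o351, o4557, l3011, l12333, l390, o3549, l12110, o340, o708, o275, l3384, l12531, l4844, l495, o4563, l3006, l5039, l12216, l3216, o1975, l12533, o1160, l4771, l1145, l8727, l2586, l4082, o714, o297, o688, l4438, o694, l2996, l2707, l12532, l3763, o4525, l1218, l421, l12133, l3933, o1132, l2708, l498, l3435, l8902, o8328, l12135, o1969, o2367, o1575, o305, o799, l3007, l12305, l12150, l4775, o3548, o1117, o1124, o1565, l12123,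 o800, o774, o8774, o5468, l12153, o771, o3461, l2814, l3431, o352, l12194, l325, o2865, l1146, l4967, o1116, o1158, o1452, o1465, o1090, l11808, l3228, o1911, l3234, o2323, o2324, o2402, l12552, o8799, l12559, l10528, l11199, l8000, l11064, l12547, l4919, l4945, l8837, l12562, l5102, o1142, l3236, o1899, o1428, o1426, l3238, o2225, o2223, l12550, o257, o249, o671, l12563, l732, l9900, l2314, o2258, l8399, l11828, l11747, o3026, o3001, o5596, o5595, o5594, o5592, l5510, l1705, l4626, o1534, l3930, l4936, l12564, l12567, o335, o289, l8431, l12568, o336, o8053, o642, o4622, o4279, o4728, l878, l12566, o4259, l2765, l12565, l4960, o2711] l12569 := rupP (by decide +kernel)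
theorem r12570 : PImp [o694, l11371, l12277, l3933, o1132, l12300, o1116, o1117, l476, l472, l2305, o1538, l11908, l736, o8459, o2270, o8345, l11407, o5636, o5298, o5735, l9444, o3436, o3009, o3754, o7768, l9479, l5510] l12570 := rupP (by decide +kernel)
theorem r12571 : PImp [l2707, l11884, l7293, o336, o290, o3754, o3752, o3845, o7850, l2255, o8234, o1534, l673, l1104, l12411, o7897, l2306] l12571 := rupP (by decide +kernel)
theorem r12572 : PImp [l7703, l3000, l12096, l11294, l3374, l498, l3435, o351, l11466, l11371, l5035, l4838, l4834, l12300, l3008, l3025, l3026, l12348, l5039, l12194, l12216, o4557, l3011, l12333, o4563, l3007, l3006, l4967, l3927, o1158, l12534, o1078, o1076, l12543, o1429, l12310, l11856, o257, l6382, o672, o4583, l10548, l3919, l3918] l12572 := rupP (by decide +kernel)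
theorem r12573 : PImp [o8443, o8459] l12573 := rupP (by decide +kernel)
theorem r12574 : PImp [o1159, l7703, l3000, l12096, l11294, l501, l4775, l11466, l3008, l3025, l3026, l5035, l4838, l4834, l12348, l11371, l12277, l3374, l12241, o3548, o3696, o1117, l3933, o1124, o1565, l12123, o351, l5039, o305, o800, l11453, l3927, o1152, o1569, o4557, l12300, l3011, l12333, l390, o3549, l12110, l4438, o774, o8774, o5691, l3216, o1969, l3384, l2832, o340, o708, o275, o1116, l3031, l12216, l12194, l498, l3431, l3435, l12531, l2708, o3460, o3461, l4844, l495, o4563, l3006, o1975, l12533, l12133, o1132, o1160, l4771, l1145, l8727, l2586, l8902, l4082, o8328, o297, o688, o714, l12570, o1452, o1090, l9048, o1911, o2324, o3694, o2323, o1489, o5689, o7873, o742, o7848, o1526, o799, o771, o728, l3228, o3406, l476, o5315, o5319, l4626, l4808, o5735, o7981, o5312, l472, o5298, l12569, l12573, o2402, o2326, l3234, l1119, o1465, o1485, o694, l12135, o2367, o1575, l3007, l12305, l12150, l2707, l12532, l3797, l9303, o352, l2992, l1146, l12571, l12181, l12558, l12557, l12556, l12572] l12574 := rupP (by decide +kernel)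
theorem r12575 : PImp [l11466, l11371, l12277, o1117, l5035, l7703, l3000, l12096, l4838, l4834, l12300, l3008, l3025, l3026, l11294, l12348, l3374, l12241, o3460, l11453, o1159, l3927, o1152, o1569, l501, o351, o4557, l3011, l12333, l390, o3549, l12110, l4438, l3031, l5039, l12216, l12194, l498, l3431, l3435, l12531, l2708, l3384, o3461, l4775, l4844, l495, o4563, l3006, l3216, o1975, l12533, l12133, l3933, o1132, o1160, l4771, l1145, l8727, l2586, l8902, l4082, o8328, o297, o688, o714, l12570, l12569, l12573, l2832, o340, o708, o275, o1116, o1452, o1090, l9048, o1911, o2402, o1969, o2324, o2323, l3228, l3234, o694, l12135, o2367, o1575, o305, o799, l3007, l12305, l12150, l2707, l12532, o5735, l12574, l8000, l11747, l7293, l4919, l12548, l12563] l12575 := rupP (by decide +kernel)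
theorem r12576 : PImp [l7703, l3000, l12096, l11294, l501, l5035, l4838, o4563, l3007, l11466, l4834, o4557, l11371, l12300, l3011, l3008, l3025, l3026, l12348, l12333, o352, l3927, o1158, l3006, l5039, l12216, l12194, o351, l3374, l12543, l498, l3435, l5102, l3236, o1159, o1142, o1428, l12550, l12277, l3933, o1105, l3012, l11453, o1152, o1569, l12241, l390, o3549, l12110, l12186, l3228, l3234, l1145, l1705, l4438, o694, o340, o708, l12536, l6954, o1070, l12551, o336, o8053, o746, o4622, l12549] l12576 := rupP (by decide +kernel)
theorem r12577 : PImp [l5035, l11453, l11466, l11371, o1159, l3927, o1152, o1569, l7703, l3000, l12096, l11294, l501, o351, l4838, l4834, o4557, l12300, l3011, l3008, l3025, l3026, l12348, l12333, l12277, l3374, l12241, l390, o3549, l12110, o340, o708, o275, l3384, l12531, l4844, l495, o4563, l3006, l5039, l12216, l3216, o1975, l12533, o1160, l4771, l1145, l8727, l2586, l4082, o714, o297, o688, l4438, o694, l2996, l2707, l12532, l3763, o4525, l1218, l421, l12133, l3933, o1132, l2708, l498, l3435, l8902, o8328, l12135, o1969, o2367, o1575, o305, o799, l3007, l12305, l12150,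 l4775, o3548, o1117, o1124, o1565, l12123, o800, o774, o8774, o5468, l12153, o3461, o3460, l2814, l3431, o352, l12194, l3031, l1146, l4967, o1116, o1158, l2832, o3406, l12570, o1452, o1465, l12569, o1090, l1119, l9048, l3228, o1911, l3234, o2402, l12573, l12575, l11828, l1103, l732, l9900, o5596, o5595, o5594, o5592, l8000, l11064, l11747, l4626, o2724, o2716, l5510, l7293, l4929, l1705, o1534, l8837, l4945, l12543, l5102, o1142, l3236, o1899, o1428, o1426, l3238, o2225, o2223, l12550, o257, o249, o671, l12576, l12564, l12567, o335, o289, l8431, l12568, o336, o8053, o642, o4622, o4280, o4728, l12566, o4259, l2765, l12565, l4960, o2711] l12577 := rupP (by decide +kernel)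
theorem r12578 : PImp [l7293, l11170, o2337, o7810, o8457] l12578 := rupP (by decide +kernel)
theorem r12579 : PImp [l11466, l11371, l12277, l3933, l7703, l3000, l12096, l11294, l3374, l5035, l4838, o4557, l1145, l12142, l1705, o1106, l3930, l3008, l3025, l3026, l4834, l12348, l12241, l498, o3548, o1117, o1124, o1565, l12123, o351, l5039, o305, o800, l11453, o1159, l3927, o1152, o1569, l501, l12300, l3011, l12333, l390, o3549, l12110, l4438, o774, o8774, o5468, l12153, l3435, l12194, l12216, l1146, o4563, l3007, l4967, o1158, l11203, l12534, l4936, o1078, o1076, o4613, o1409, o1429, o1418, l12310, o8053, o257, o250, o249, o271, o268, o672, l1091, o626, l10548, l1104, l1134, l12145, o7730, o5538, l12555, l2306, o5554] l12579 := rupP (by decide +kernel)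
theorem r12580 : PImp [l3930, l5042, l5881, l4954, o4608] l12580 := rupP (by decide +kernel)
theorem r12581 : PImp [l11466, l11371, l12277, l3933, o1116, o1452, o1090, o1159, l3927, o1152, o1569, o1489, o1117, o1465, l7703, l3008, l3025, l3026, l5035, l3000, l12096, l4838, l11294, l4834, l12348, l3374, l12241, l498, o3548, o1124, o1565, l12123, o351, l5039, o305, o800, l11453, l501, o4557, l12300, l3011, l12333, l390, o3549, l12110, l4438, o774, o8774, o5468, l12153, l1146, o4563, l3007, l4844, l8445, o5312, l476, l472, o5298, o3461, o3677, o3460, o3670, l3031, o3010, l325, o2865, o3018, o3003, l2992, o3039, o3438, o340, o708, o275, o297, o688, o694, l3384, l3435, l1145, o7808, l11808, l12142, l8437, l3228, l4919, l1705, o4756, o1106, l12580, l12544, l12556, l12579] l12581 := rupP (by decide +kernel)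
theorem r12582 : PImp [l7703, l11466, l11371, l5035, l3000, l12096, l4838, l4834, l12300, l2992, l11453, o1159, l3927, o1152, o1569, l11294, l501, o351, o4557, l3011, l3008, l3025, l3026, l12348, l12333, l12277, l3374, l12241, l390, o3549, l12110, l12181, l3012, l12186, l3933, o1116, o1452, o1090, o1117, o1465, l498, o3548, o1124, o1565, l12123, l5039, o305, o800, l4438, o774, o8774, o5468, l12153, l1146, o4563, l3007, l4844, l8445, o3460, o3670, l325, o2865, o3003, l3032, o3015, o340, o708, o275, o694, l12150, l1145, l12581, l1119, l8447, o4659, o4644, o5602, l4941, o4618, l1705, o8053, l8393, l12556, l12572] l12582 := rupP (by decide +kernel)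
theorem r12583 : PImp [l7703, l3000, l12096, l11294, l498, l3435, l5102, o1899, l3927, o1142, l11466, l5035, l4838, l4834, o4557, l11371, l12300, l3011, l3008, l3025, l3026, l12348, l12333, o4563, l3007, l4967, l12536, l8918, o335, o8904, o7567] l12583 := rupP (by decide +kernel)
theorem r12584 : PImp [l11466, l11371, l5035, l7703, l3000, l12096, l4838, l4834, l12300, l3008, l3025, l3026, l11294, l12348, l12277, l3374, l12241, o3461, l3933, o1116, l5039, l11453, o1159, l3927, o1152, o1569, l501, o351, o4557, l3011, l12333, l390, o3549, l12110, o297, l4771, l3216, o1969, l12531, l4844, l12135, o2367, o1575, l495, o4563, l3006, l12216, o1975, l12533, o305, o799, l3384, l3007, l498, l3435, l1145, o1132, l12305, l2707, l12532, l3797, o1160, l8727, l2586, l4082, l12133, l2708, l8902, o8328, l1218, l421, l12577, l4438, o694, o714, o3756, o3460, o3670, o3548, o1117, o1124, o1565, l12123, o800, o774, o8774, o5468, l12153, l1146, l8445, o5735, o1465, l12578, l12582, l10528, o1452, o1090, o5686, o5689, l476, o5304, l325, o2865, o3003, l3032, o3015, l2992, o3039, o340, o708, o275, l12150, l4775, o352, l12194,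 o1158, o7808, l11808, l12142, l2314, l4919, l1705, l4945, o7730, o4756, o4929, o5670, o4640, l12562, o8053, l5102, o1142, l8393, l3236, o1899, o1428, o2225, l12550, l11865, l12583, l12564, l12561] l12584 := rupP (by decide +kernel)
theorem r12585 : PImp [l12531, l12133, l3927, l5035, l7703, l3000, l12096, l4838, l4844, l11294, l501, l495, o4563, l3006, l11466, l11371, l4834, l12300, l3008, l3025, l3026, l12348, l5039, l12216, l3216, o1975, l12533, l12277, l3933, o1132, l3384, o1160, l4771, o4557, l1145, l8727, l2586, l11453, o1159, o1152, o1569, o351, l3011, l12333, l3374, l12241, l390, o3549, l12110, l498, l3435, l8902, o3548, o1117, o1124, o1565, l12123, o305, o800, l4438, o774, o8774, o5468, l12153, l1146, l3007, l12577, l8445, o5735, o5686, o5689, o3461, o3677, o3460, o3670, l2708, o3756, l325, o2865, o3003, l3032, o3015, o340, o708, o275, l4082, o714, o694, l2707, l12532, l1218, l421, o8328, l12135, o1969, o2367, o1575, o799, l12305, l12150, l3797, l4775, o297, o352, l12194, l2992, l3012, o1116, o1158, o1452, o1465, o1090, l12578, l12186, l12181, l12582, l10528, l12584, l8447, o4659, o4644,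 o8457, l2306, o5670, o4929, l4941, l2309, o5655, l12562, l1705, l11914, l5102, o1142, o1106, l632, l3236, o1899, o1428, o2225, l12550, l11865, l12583, l12560, l12561] l12585 := rupP (by decide +kernel)
theorem r12586 : PImp [l11453, l5035, l11466, l11371, o1159, l3927, o1152, o1569, l7703, l3000, l12096, l11294, l501, o351, l4838, l4834, o4557, l12300, l3011, l3008, l3025, l3026, l12348, l12333, l12277, l3374, l12241, l390, o3549, l12110, l3384, l12531, l4844, l495, o4563, l3006, l5039, l12216, l3216, o1975, l12533, o1160, l4771, l1145, l8727, l2586, l4082, l12133, l3933, o1132, l2708, l498, l3435, l8902, o8328, l4775, o3548, o1117, o1124, o1565, l12123, o305, o800, l4438, o774, o8774, o5468, l12153, o340, o3460, l3431, l325, o2865, l3032, l1146, l3007, o1116, o708, o694, o275, l12577, o3015, o3003, o3670, l8445, l12585, o1109, o1454, l2305, l9455, l1705, o1112, l12141, l3898, l11909, o7768, o4742, o8099, o4628] l12586 := rupP (by decide +kernel)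
theorem r12587 : PImp [o3677, l11371, l12277, l3933, o1116, o1117, o1452, o1465, o1090, l11823, l8403, o7785, l12142, l12472, l1705, l8393, o1106, o4628, l1091, o7706, l1104] l12587 := rupP (by decide +kernel)
theorem r12588 : PImp [l11453, l5035, l11466, l11371, o1159, l3927, o1152, o1569, l7703, l3000, l12096, l11294, l501, o351, l4838, l4834, o4557, l12300, l3011, l3008, l3025, l3026, l12348, l12333, l12277, l3374, l12241, l390, o3549, l12110, l3384, l12531, l4844, l495, o4563, l3006, l5039, l12216, l3216, o1975, l12533, o1160, l4771, l1145, l8727, l2586, l4082, l12133, l3933, o1132, l2708, l498, l3435, l8902, o8328, l9303, o5823, l12135, o1969, o2367, o1575, o305, o799, l3007, l12305, l12150, l2707, l12532, l3797, o3548, o1117, o1124, o1565, l12123, o800, l4438, o774, o8774, o5468, l12153, o771, o297, o340, o3461, o3460, l2835, l476, l12235, l2992, l325, o2865, l3032, l3012, l1146, o1566, l12586, o730, o722, o720, o725, o690, o699, l2269, o719, o336, o295, l12495, o3015, o3003, o3670, l12587, o1109, o1454, l12474, l1705, o1112, l3904, l3905] l12588 := rupP (by decide +kernel)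
theorem r12589 : PImp [l11453, l5035, l11466, l11371, o1159, l3927, o1152, o1569, l7703, l3000, l12096, l11294, l501, o351, l4838, l4834, o4557, l12300, l3011, l3008, l3025, l3026, l12348, l12333, l12277, l3374, l12241, l390, o3549, l12110, l3384, l12531, l5039, o305, o799, l498, l3435, l12216, l1145, o4563, l3007, l3006, l495, l4844, o1575, l3933, l12135, l3216, o1969, o1975, o2367, l12533, o1132, l12305, l12588, l12152] l12589 := rupP (by decide +kernel)
theorem r12590 : PImp [o1452, o1485, o1090, l11808, l3228, o1911, l6570, l3234, o3535, o1912, o8232, o5435, o4931, o4923, l4921, o2716, l1705, l3930, o7717, l3606, l11819, o3427, l8388] l12590 := rupP (by decide +kernel)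
theorem r12591 : PImp [l11371, l12277, l3933, o1117, o1454, o1112, o1109, l12300, o3461, o3460, l2832, l12570, l1698, o7941, o5326, o4757, l12142, l4269, l3867, l1705, o2716] l12591 := rupP (by decide +kernel)
theorem r12592 : PImp [l5714, l11371, l12300, l2708, l12277, l3933, o1132, l12133, o8579, l6179, l4603, o8328, o1116, o708, o688, o714, o275, l12590, l12591, l8445, l6192, l6808] l12592 := rupP (by decide +kernel)
theorem r12593 : PImp [l11466, l11371, l5035, l7703, l3000, l12096, l4838, l4834, l12300, l2708, l12531, l12133, o351, l3008, l3025, l3026, l11294, l12348, l5039, o305, o799, o800, l498, l3435, l3431, l12194, l12216, o4557, l3011, l12333, l501, l495, l490, l3032, l3031, l3012, l1146, l1145, o4563, l3007, l3006, l4844, l2998, l2996, l12277, o1117, l3933, o1124, o1566, o1565, o1116, o1159, l3927, o1152, o1575, o1569, l476, l12123, l11453, l3374, l3384, l12235, l12241, l390, l2835, o3460, o3548, o3549, l12110, o340, l4438, o297, o771, o774, o8774, o5468, l12153, l12589, l3137, l4187, l8600, l5388, l4846, l4776, l5791, l3758, l5387, l12255, l12227, l1127, l878, o4346, o5008, o5011, l2739,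 o4311, l4852, o4965, l5714, l3762, o4940, l12150, l8837, o5784, l12185, l4082, o8431, l9771, o1132, o8579, l6179, l3797, l12592, o730, o720, o725, o690, l2269, o719, o336, o295, l12499, o3438, o3015, o3719, o3670, l12474, o1452, o1465, o1489, o1090, l12500, l12472, l3234, l12141, o7785, l3228, l8403, l3591, o8128, o5307] l12593 := rupP (by decide +kernel)
theorem r12594 : PImp [l11808, o1911, o2402, l12133, l2586, l4080, l11820, l7293, o336, o3754, l2256, o7897, o8233, o5675] l12594 := rupP (by decide +kernel)
theorem r12595 : PImp [l9932, l4603] l12595 := rupP (by decide +kernel)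
theorem r12596 : PImp [l11808, o1911, o2402, l11371, l12300, l2708, l12133, l12194, l12216, l12277, l3933, o1132, l12595, l2586, l8902, l11841, l4080, o5723, o5735, o6418, l7293, l12594, o2976, l8000] l12596 := rupP (by decide +kernel)
theorem r12597 : PImp [l2707, l12133, o5814, o8355, o8891, o312, l7763] l12597 := rupP (by decide +kernel)
theorem r12598 : PImp [l476, l472, l11371, l3318, l3319, l12597, o5405, o5840, l2561, l8566, o358] l12598 := rupP (by decide +kernel)
theorem r12599 : PImp [l11479, o5573, o663, o7628, o7552] l12599 := rupP (by decide +kernel)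
theorem r12600 : PImp [l5102, o1142, o1899, o1426, o2223, l12599, o5422, l11865, l5151, l11851] l12600 := rupP (by decide +kernel)
theorem r12601 : PImp [o5707, o5622, o5625, o5540, o5544, l12555, o2222, l653, o7607] l12601 := rupP (by decide +kernel)
theorem r12602 : PImp [o7730, o7897] l12602 := rupP (by decide +kernel)
theorem r12603 : PImp [l7703, l2996, l3000, l12096, l11294, l501, l11466, l5035, l4838, l4834, o4557, l11371, l12300, l3011, l3008, l3025, l3026, l12348, l12333, l12119, l3216, o1969, o1911, o2325, l3228, l3234, l12277, l12335, l3763, o4525, l5274, l12241, o3548, o1117, l3933, o1124, o1565, l12123, o351, l5039, o305, o800, l11453, o1159, l3927, o1152, o1569, l390, o3549, l12110, l4438, o774, o8774, o1566, l12135, o2370, o3554, o8465, o799, o771, o3555, o2367, o1575, o8506, o8801, o8799, o5745, o5766, l12228, o5397, o5494, l12152, o5791, l7600, l4774, l498, l3435, o352, l12194, l12216, l495, l490, l1145, o4563, l3007, o1158, l325, o8233, l2256, o336, l4628, l12416, o2845, o8027, l12600, o1078, o1076, o1409, o1429, o1418, l12310, o257, o250, o672, o641, l12601, l1134] l12603 := rupP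 (by decide +kernel)
theorem r12604 : PImp [l5102, l3236, l3238, l5034, l4526, l3008, l11865, o4589, l6373, l4490, o335, l4079, l4506, o7567, o75, o8904, l8742, o2501, o2489, l8857, l4059, l12478, o2510, o2511, l3303, o4091, o4146, o4144, o1644, o1639, l3966, o1755, o6008, o947, o6043, o903, o899, o1068, l11368, l3015, l2718, l11853, o7519, o5521] l12604 := rupP (by decide +kernel)
theorem r12605 : PImp [o1969, l5102, o1142, o1899, o1426, o2223, o2399, l12604, l4587, o334, l4498, o669, l5151, o5426, l3624, o7642, o3522] l12605 := rupP (by decide +kernel)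
theorem r12606 : PImp [l5035, l7703, l3000, l12096, l4838, l4834, l12531, l2996, l11294, l501, l11466, o4557, l11371, l12300, l3011, l3008, l3025, l3026, l12348, l12333, l12593, l12335, l495, o4563, l3006, l5039, l12216, l2708, l12119, l3216, o1975, o1159, l3927, o1152, o1569, o351, o305, o799, l11453, l12277, l3763, o4525, l5274, l12241, l390, o3549, l12110, l4438, o771, o3555, l12135, o1969, o2367, o1575, o8506, o8801, o8799, o1117, l3933, o1124, o1566, o2370, o800, o3554, o8465, o5745, o5772, l12598, l12595, l498, l3431, l4844, l3007, l1145, l1146, l12194, o3460, o5750, o8459, l12133, o1132, l3435, l5268, l2586, l8902, l12228, o5397, o5494, l12152, l12213, l12153, o694, o340, o708, o275, l4080, l11828, o5593, o5594, o3700, o3548, o3694, o3663, l3380, o1116, o1452, o1090, l11808, o1911, o2325, o2323, o1494, o1489, o1465, o297, o688, o1565, l12123, o774, o8774, o5766, o3461, o8522, l12150, o4832, o4950, o8915, l3797, o4793, o4844, l1218, l4774, o352, l2992, l325, o2865, l3012, l4967, o1158, o5689, o5686, o5629, o7981, o7873, o7894, o2278, l2314, o723, o742, o2245, l12596, l12602, o5606, o5675,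 o4628, o5655, l12603, o8229, o3681, o3658, l11914, o7999, o8557, o681, o8042, l1495, o7841, o8125, l12338, l4502, l12309, l12605, l3926, o1078, o1076, o1429, o1418, l12310, o257, o250, o672, l12601, o5236, o5241, l5159, l5117, l2354] l12606 := rupP (by decide +kernel)
theorem r12607 : PImp [l3236, l3238, l3008, l11865, l11476, o4592, o4587, l2977, l3015, l2974, l2718, l4481, l11853, o7544, l4079, o5521, o1079, o7519] l12607 := rupP (by decide +kernel)
theorem r12608 : PImp [l4587, o334, l4498, o669, l5151, o5426, l3624, o7642, o3522] l12608 := rupP (by decide +kernel)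
theorem r12609 : PImp [l5268, l5274, o1969, l5035, o352, l11371, l12300, l12194, l12216, l7703, l3012, l3007, l3006, l4967, l5102, o1142, o1899, o1426, o2223, o2399, l12608, l12607, l1137, l1138, l12338, l12308, l12605, l4502] l12609 := rupP (by decide +kernel)
theorem r12610 : PImp [l12531, l7703, l2996, l3000, l12096, l11294, l501, l11466, l5035, l4838, l4834, o4557, l11371, l12300, l3011, l3008, l3025, l3026, l12348, l12333, l12593, l12119, l3216, o1975, l4844, l12335, l3763, o4525, l5268, l3380, l11453, o1159, l3927, o1152, o1569, o351, l12277, l5274, l12241, l390, o3549, l12110, o340, o708, o275, l3933, o1116, o1452, o1090, l11808, o1911, o2402, l495, o4563, l3006, l5039, l12216, l2708, o305, o799, l4438, o771, o3555, l12135, o1969, o2367, o1575, o8506, o8801, o8799, o1117, o1124, o1566, o2370, o800, o3554, o8465, o5745, o5772, l12598, l12595, l2586, l4080, o694, l12133, o1132, l498, l3435, l1145, l8902, o3460, o5750, o8459, o297, o3461, l12228, o5397, o5494, l12152, o8522, l12150, o4832, o4950, l12213, l12153, o8915, l3797, l1218, l7600, l4774, l3431, l12194, l1146, l3007, o1158, l11828, l12606,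 l1103, l732, l9900, o5650, l11625, o2278, o3681, o3754, l11914, o7999, o8557, l8920, l6194, o8042, l12609, l3926, o1078, o1076, o1429, l12310, o257, o672, l1128, l648, l46, o5432, o5412, l5159, l2355] l12610 := rupP (by decide +kernel)
theorem r12611 : PImp [l11466, l7703, l3008, l3025, l3026, l5035, l3000, l12096, l4838, l11294, l4834, l12348, l11371, l12277, l2996, l501, o4557, l12300, l3011, l12333, l12119, l12335, l3763, o4525, l5274, l12241, o3548, o1117, l3933, o1124, o1565, l12123, o351, l5039, o305, o800, l11453, o1159, l3927, o1152, o1569, l390, o3549, l12110, l4438, o774, o8774, o1566, l12135, l3216, o1969, o2370, o3554, o8465, o799, o771, o3555, o2367, o1575, o8506, o8801, o8799, o5745, o5766, l12228, o5397, o5494, l12152, o5791, l7600, l4774, l498, l3435, l12194, l12216, l495, l490, o4563, l3007, o1158, l12600, o1078, o1076, o1409, o1429, o1418, l12310, o257, o250, o672, o641, l12601, l1134] l12611 := rupP (by decide +kernel)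
theorem r12612 : PImp [l5268, l5274, o1969, l5035, o352, l7703, l11371, l12300, l3012, l3007, l3006, l4967, l5102, o1142, o1899, o1426, o2223, o2399, l12608, l12607, l1137, l1138, l12338, l4502, l12309, l12605] l12612 := rupP (by decide +kernel)
theorem r12613 : PImp [l5035, l11453, l11466, l11371, o1159, l3927, o1152, o1569, l7703, l3000, l12096, l11294, l501, o351, l4838, l4834, o4557, l12300, l3011, l3008, l3025, l3026, l12348, l12333, l12277, l2996, l12593, l12119, l12335, l3763, o4525, l5274, l12241, l390, o3549, l12110, o340, o708, o275, l4438, o694, l5268, l12531, l495, o4563, l3006, l5039, l12216, l2708, l3216, o1975, o305, o799, o771, o3555, l12135, o1969, o2367, o1575, o8506, o8801, o8799, o1117, l3933, o1124, o1566, o2370, o800, o3554, o8465, o5745, o5772, l12598, l12595, l2586, o3548, o1565, l12123, o774, o8774, o5766, o1116, o297, o3461, l12228, o5397, o5494, l12152, o8522, l12150, o4832, o4950, l12213, l12153, o8915, l3797, o4793, l1218, l4774, l3380, l498, l3435, l3431, l12194, l325, o2865, l1146, l1145, l3007, l4844, l476, o1158, o1452, o1465, o1489, o1090, l11808, l3228, l3234,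 l12610, o3003, o3677, l2278, l8445, l9047, l1705, o5315, o5686, l10930, o2278, l2313, l2314, o1106, o1107, l12602, o5675, o4628, o5655, l2307, o8053, o6485, l11914, o8042, o8041, o711, l12611, l12612, l3926, o1078, o1076, o1429, o1418, l12310, o257, o250, o672, l12601, o5236, o5241, l5159, l5117, l2354] l12613 := rupP (by decide +kernel)
theorem r12614 : PImp [l11371, l12277, l3933, o1116, l2305, o1117, o1454, o1109, o694, o3663, o3700, l12570, l12522, o8345, l11407, l2283, o5629, o7940] l12614 := rupP (by decide +kernel)
theorem r12615 : PImp [l12531, l12133, l11466, l7703, l3000, l12096, l11294, l501, l495, l5035, l4838, o4563, l3006, l3008, l3025, l3026, l4834, l12348, l5039, l11371, l12300, l12216, l2708, l2996, o4557, l3011, l12333, l12593, l12119, l3216, o1975, o1159, l3927, o1152, o1569, o351, o305, o799, l11453, l12277, l12335, l3763, o4525, l5274, l12241, l390, o3549, l12110, l4438, o771, o3555, l12135, o1969, o2367, o1575, o8506, o8801, o8799, o1117, l3933, o1124, o1566, o2370, o800, o3554, o8465, o5745, o5772, l12598, o1132, l12595, l498, l3435, l1145, l5268, l2586, l8902, o1116, o297,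 o3461, l12228, o5397, o5494, l12152, o8522, l12213, l12153, o8915, o340, o3460, l4774, l3431, l12194, l3031, l1146, l3007, l4844, o708, o688, o275, l4080, l12613, o1510, l12614, l8445, o7766, l6808] l12615 := rupP (by decide +kernel)
theorem r12616 : PImp [o351, l5035, l11466, l7703, l3008, l3025, l3026, l3000, l12096, l4838, l11294, l4834, l12348, l5039, o305, o799, o800, l498, l3435, l11371, l12300, l12216, o4557, l3011, l12333, l2992, l325, o2865, l3032, l1145, o4563, l3007, l3006, l501, l2996, l12277, o1117, l3933, o1124, o1566, o1116, o1159, l3927, o1152, o1575, o1569, l11453, l12135, l12593, l3380, l12119, l12335, l4774, l3216, l3763, o1969, l3797, o4525, l11802, o2367, o2370, l5274, l12241, l390, l2835, o3460, o3461, o3549, l12228, o3554, o3555, l12110, o8465, o8506, l4438, o297, o4827, o5397, o4793, o4789, o8801, o771, l12213, o8799, o5494, o5745, o5750, l12150, l12152, o8522, l12615, o730, o690, l2269, o719, o336, o295, l12506, o3438, o3446, o3039, o3015, o3003, o3670, l12508, o1109, o1454, l12474, l1705, o1112, l3904, l3905] l12616 := rupP (by decide +kernel)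
theorem r12617 : PImp [l3927, o1160, l5035, l3216, l4771, o1975, l9611, l8727] l12617 := rupP (by decide +kernel)
theorem r12618 : PImp [l11371, l12277, l3933, o1132, l4082, l4598, o5407, l4602, l12285] l12618 := rupP (by decide +kernel)
theorem r12619 : PImp [l11466, l7703, l3008, l3025, l3026, l5035, l3000, l12096, l4838, l11294, l4834, l12348, l11371, l12277, l3374, l12241, l390, l3384, l12616, l12531, l498, l3435, o4557, l1145, l501, l4844, l2998, l12617, l8600, l4846, l4776, l12618, l4852, l8726] l12619 := rupP (by decide +kernel)
theorem r12620 : PImp [o3434, o3436, l2490, o1106, l673, l1104, l8399, o7897, o8231, l2306, o5655] l12620 := rupP (by decide +kernel)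
theorem r12621 : PImp [l3234, o1912, l7703, l3003, l3012, l3927, l3008, l325, l3216, l4775, l11903, l11657, o312, l2576, l11642, o278, o754, l12620, l2983, l3017, o2845, l2827, o3397, l2488, l5163, l5111, o8053, o1106, l12186, o4752, o4642, o4640, o7812, o7730, l1104] l12621 := rupP (by decide +kernel)
theorem r12622 : PImp [l495, l7703, l2998, l2996, l5035, l4187, l4846, l4776, l5791, o4965, l9771, l12185] l12622 := rupP (by decide +kernel)
theorem r12623 : PImp [l11466, l11371, l12277, l3933, o1116, o1452, o1090, l12619, l3317, l3319, l12531, l7703, l3000, l12096, l11294, l3384, l5035, o340, o708, o275, l3008, l3025, l3026, l4838, l4834, l12348, l3374, l12241, l2832, l9048, l3228, l3234, o1912, l498, o351, l5039, o305, o800, l4438, o774, o1117, o1124, o1565, l12123, l8893, o8774, o5468, l12153, l12616, l2542, o3712, o3696, o3694, o3406, l12300, o3460, o297, o688, o694, o799, o771, o1159, l3927, o1152, o1569, o1489, o1465, l3003, l3435, l3431, l12194, o4557, l3011, l12333, l3012, l1146, o4563, l3007, l3006, l501, l4844, l4967, l476, l472, l11453, o5298, o5319, o5689, o7981, o8698, l4626, o2310,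 o2312, o7873, o728, o742, l12622, l3216, l4775, l12621, l11903, l12573, l11657, o312, l2576, l11642, o278, o754, l12620, l2983, l3017, l5163, o8373, l11915] l12623 := rupP (by decide +kernel)
theorem r12624 : PImp [l5035, o340, o708, o275, l11466, l7703, l3008, l3025, l3026, l3000, l12096, l4838, l11294, l4834, l12348, l5039, o297, o688, l4438, o694, o351, o305, o800, o774, l11371, l12277, l3933, o1116, o1452, o1090, o1117, o1465, l12616, l3003, l12531, l498, l3435, l3431, l12300, l12216, o4557, l3011, l12333, l501, l495, l490, l325, o2865, l3012, l1146, l1145, o4563, l3007, l3006, l4844, l4967, o1124, o1565, o1159, l3927, o1152, o1575, l476, l12123, l3374, l3384, l12235, l12241, l8893, l390, o3460, o3461, l2542, l2832, o8774, o3663, o3712, l9048, o5468, l3228, l12153, l3234, o1912, l12619, l3318, l3319, l3317, l12623, l1103, l732, l9900, l3137, l3144, l10528, l11199, l9779, l4775, l4771, o1969, o1975, l11903, l2314, o2258, o4552, o5493, l11657, l8399, l12150, o358, l2576, l2597, o3436, o3026, o3001, l11643, l11642, l1705, l8837, o278, l5042, l5111, o8053, o4279, l878, l12566, l4502, l12309, l10751,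 o804, o876, l11778] l12624 := rupP (by decide +kernel)
theorem r12625 : PImp [l7190, l2578] l12625 := rupP (by decide +kernel)
theorem r12626 : PImp [l11371, l12277, l3933, o1132, l12625, l4082, l4598, o5407, l4602, l12289] l12626 := rupP (by decide +kernel)
theorem r12627 : PImp [l11371, l12273, l2576] l12627 := rupP (by decide +kernel)
theorem r12628 : PImp [l7703, l12616, l3003, l12531, o351, l5035, l11466, l3008, l3025, l3026, l3000, l12096, l4838, l11294, l4834, l12348, l5039, o305, o799, o800, l498, l3435, o4557, l11371, l12300, l3011, l12333, l1145, l501, l4844, l2996, l12277, o1117, l3933, o1124, o1566, o1565, o1159, l3927, o1152, o1575, l12123, l12135, l4438, o774, l12624, l3380, l12119, l12335, l3216, l3763, o1969, o4525, l11802, o2367, o2370, l5274, l12299, l12241, o8774, l390, l12228, o3554, o3555, l2542, o8465, o8506, o5397, o8915, o5493, l12150, l12626, l12627, l2618, l11657] l12628 := rupP (by decide +kernel)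
theorem r12629 : PImp [l11466, l12096, l5035, l7703, l3000, l4838, l4834, l11294, o4557, l11371, l12300, l3011, l3008, l3025, l3026, l12348, l12333, l3012, l501, o1159, l3927, o1152, o1569, l12277, l11453, l11800, l12233, l12282, l12110, o3549, o3564, l12241, l3374] l12629 := rupP (by decide +kernel)
theorem r12630 : PImp [o351, l5035, l11466, l7703, l3008, l3025, l3026, l3000, l12096, l4838, l11294, l4834, l12348, l5039, o305, o800, l12629, l4438, o774, l11371, l12277, o1117, l3933, o1124, o1565, l12123, l3374, l8893, o8774, l12628, o4557, l1146, o4563, l3007, l4844, l12241, l498, o5468, l12153, l8445, o5686, o3549, l12619, l3319, l12300, o3479, l2281, l12616, l2544, l3384, l325, o2865, o3003, l2992, o3039, o1116, o1452, o1090, o1465, o340, o708, o275, o694, o799, o771, o297, l3003, l12531, l3435, l3431, o352, l12194, l12216, l3011, l12333, l1145, l3006, l501, l4967, l2998, o1159, l3927, o1152, o1569, o1158, l11453, l6715, l11808, l10930, l12142, l4971, l8837, l4919, l1705, o4346, o4339, o4245, o4930, o4756, l4846, l4867, l9306, l4771, o1969, o1975, l11657, l2576, l8636, l2597, o8917, o5823, o5494,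 l12582, l10528, l12562, l2314, l5102, o1142, l3316, l12602, l3236, o1899, o1428, o4640, o2225, o2399, o8053, l8393, l12550, l8918, o259, l10499, l11865, o335, l3015, o7567, l11853, o3641, o5521, o7442] l12630 := rupP (by decide +kernel)
theorem r12631 : PImp [l4941, l4946] l12631 := rupP (by decide +kernel)
theorem r12632 : PImp [l2461, o278, l3591, l11642, l6570, o3649] l12632 := rupP (by decide +kernel)
theorem r12633 : PImp [o1912, o5312, l476, l472, o5298, l11371, l12277, l3933, o1116, o1452, o1090, l3317, o1117, o1465, l12273, l2576, l12632, l4945, l8447, o8373, o4742, o5628, o4628, l764, o8053, o3711, o278, l11642] l12633 := rupP (by decide +kernel)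
theorem r12634 : PImp [l7703, l3008, l325, l11466, l11371, l5035, l3000, l12096, l4838, l4834, l12300, o2865, o351, l12629, l12628, o3003, l3032, o3015, o3438, l12277, l3933, o1116, o1452, o1090, o340, o708, o275, l3025, l3026, l11294, l12348, l5039, o297, o688, l4438, o694, o305, o800, o774, l12616, l3003, l12531, l498, l3435, o4557, l3011, l12333, l1146, l1145, o4563, l3007, l4844, o1117, o1124, o1565, l476, l12123, l3374, l12235, l2544, l12619, l2801, l12241, l8893, o3782, o3826, o3706, o8774, o5468, l12153, l8445, l12630, l12573, l12631, l1705, l12633, l2560, l11657] l12634 := rupP (by decide +kernel)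
theorem r12635 : PImp [o351, l12629, l7703, l12616, l3003, l12531, l5035, l11466, l3008, l3025, l3026, l3000, l12096, l4838, l11294, l4834, l12348, l5039, o305, o799, l498, l3435, o4557, l11371, l12300, l3011, l12333, l501, l4844, l2996, o1159, l3927, o1152, o1575, l12277, l12135, l12634, l3380, l12119, l12335, l3216, l3763, o1969, o4525, o2367, l5274, l12241, o3555, l2542, o8506, l12626, o8915, l12627, l2560, l11657] l12635 := rupP (by decide +kernel)
theorem r12636 : PImp [o351, l12629, l12616, l12531, l11466, l7703, l3008, l3025, l3026, l5035, l3000, l12096, l4838, l11294, l4834, l12348, l501, l495, l490, l498, l4844, l11371, l12277, l3927, l3374, l12619, l12241, l3319, l390, l12255, l11660, l3144, l9305] l12636 := rupP (by decide +kernel)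
theorem r12637 : PImp [o351, l12629, l5035, l11466, l7703, l3008, l3025, l3026, l3000, l12096, l4838, l11294, l4834, l12348, l5039, o305, o799, o4557, l11371, l12300, l3011, l12333, l501, l2996, o1159, l3927, o1152, o1575, o1569, l12277, l11453, l12135, l12636, l12119, l12335, l3216, l3763, o1969, o4525, o2367, l5274, l12241, l390, o3555, l12256, l12255, o8506, o5485, l11404] l12637 := rupP (by decide +kernel)
theorem r12638 : PImp [l2305, o694, l5791, l4775, l1071, l11908, o8345, l11407, o8459, o2270, l9444, o5636, o7768] l12638 := rupP (by decide +kernel)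
theorem r12639 : PImp [l2560, l11657] l12639 := rupP (by decide +kernel)
theorem r12640 : PImp [l11466, l11371, l12277, l3933, o1117, l12637, l12635, o1454, o1112, o1116, l2305, o1109, l5035, o351, l12629, o340, o708, o275, l7703, l3008, l3025, l3026, l3000, l12096, l4838, l11294, l4834, l12348, l5039, o297, o688, l4438, o694, o305, o800, o774, l12616, l3003, l12531, l498, l3435, l3431, l12300, l12194, l12216, o4557, l3011, l12333, l325, o2865, l3032, l1146, l1145, l501, l2996, o1124, o1565, l476, l12123, l3374, l3384, l12235, o3479, l12619, l12241, l8893, o3782, l2281, o8774, o5468, l12153, l12639, l12273, l2576, l12638, o3015, o3003, o3670, l638, l1705, l11909, l12141, l3898, o8099, o7768, o4742, o4628] l12640 := rupP (by decide +kernel)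
theorem r12641 : PImp [l12637, o351, l12629, l7703, l12616, l3003, l12531, l5035, l11466, l3008, l3025, l3026, l3000, l12096, l4838, l11294, l4834, l12348, l5039, o305, o799, l498, l3435, o4557, l11371, l12300, l3011, l12333, l501, l4844, l2996, o1159, l3927, o1152, o1575, l12277, l12135, l3380, l12119, l12335, l3216, l3763, o1969, o4525, o2367, l5274, l12241, o3555, l2542, o8506, l12626, o8915, l12639, l12627] l12641 := rupP (by decide +kernel)
theorem r12642 : PImp [o1106, o8053, o4642, o4628, o7812, o7730, l1104] l12642 := rupP (by decide +kernel)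
theorem r12643 : PImp [l5042, l11371, l12277, l3933, o1116, o1452, o1090, l2832, l9048, l3228, l3234, o3406, o1117, o1465, l3012, l476, l472, l3008, l325, o5304, o5315, o5298, o7981, l4808, l12620, l3604, l2983, l3018, o2845, l2827, o3397, l12186, l4945, l4936, o4742, o4746, l12642, o6510, o4628, o4621, o7730, l734, l2314, o2260] l12643 := rupP (by decide +kernel)
theorem r12644 : PImp [l421, l11371, l12300, l12194, l12216, l3012, l4967, l3008, l325, l12308, o876, l12337, l8742, l11778, l4504, o752] l12644 := rupP (by decide +kernel)
theorem r12645 : PImp [l6954, o8053, o1070, o4622, l12549] l12645 := rupP (by decide +kernel)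
theorem r12646 : PImp [l7703, l3000, l12096, l11294, l498, l3435, l12531, l12616, l3003, l12637, o351, l12629, l12641, l12619, l12639, l11466, l5035, l4838, l4834, o4557, l11371, l12300, l3011, l3008, l3025, l3026, l12348, l12333, l3318, o1501, l12277, o1117, l3933, o1124, o1565, l5039, o305, o800, l4438, o774, l12123, l3374, l8893, l2544, o3826, o3712, l12273, l2576, l2996, l5791, l3216, o1975, l3384, o1116, o1452, o1090, o340, o708, o275, l12241, l2832, l9048, o1911, o2402, l11642, o278, o358, o810, o808, l3228, l3234, l476, l12235, o3782, o3663, o1465, l12640, l1217, o297, o688, o694, o1969, l390, o1159, l3927, o1152, o1569, o799, o771, o3549, l11453, o8917, o5488, l12150, l501, l4771, l4775, o8774, o5468, l12153, l2597, o312, o3479, l2281, l3431, o352, l12194, l12216, l325, o2865, l1146, l1145, o4563, l3007, l3006, l4844, o1575, o1158, l1103, l732, l9900, l10528, l11199, l2314, o2258, l8399, l11643, o3436, o3001, l12562, l5102, o1142, o1105, l3236, o1899, l6954, o1428, o2225, o1077, l12550, o257, l10499, o672, o671, o639, l2976, o3374, l10821, o1403, o1068, l12644, o7554, o5423, l5075, o3387,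 l3632, l4484, l12645, o1093, o6510, o1420, o4605, l636] l12646 := rupP (by decide +kernel)
theorem r12647 : PImp [l11466, l11371, l12277, l3933, o1116, o1452, o1090, o351, l12629, l12641, l12619, l3318, o1501, o1117, o1465, l5035, o340, o708, o275, l7703, l3008, l3025, l3026, l3000, l12096, l4838, l11294, l4834, l12348, l5039, o297, o688, l4438, o694, l12531, l2996, o4557, l12300, l3011, l12333, l12616, l498, l3435, l3003, l12637, l12639, l12273, l2576, l5791, l3216, o1975, o1969, l501, l4775, o312, o358, o305, o800, o774, o1124, o1565, l12123, l3374, l8893, o8774, l2544, o3826, l476, l12235, o3782, l12241, l3384, l3431, l1146, l1145, o4563, l3007, l4844, l472, l2832, o3406, o3696, o3712, l9048, l3228, o1911, l3234, o2324, o2402, l11642, o810, o278, o754, o755, l5042, l12646, o5304, o5315, o5298, o7981, l12643, l4808, l12620, l12573, l3604, o8373, l11915] l12647 := rupP (by decide +kernel)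
theorem r12648 : PImp [l495, l490, l3008, l5102, o1142, l8918, l3236, o1899, o1428, o335, l3238, o2225, l11479, l12550, o5417, o5411, l10499, l5075, l2423, l3015, l3632, l8923] l12648 := rupP (by decide +kernel)
theorem r12649 : PImp [l7703, l2996, l11466, l12096, l5035, l3000, l4838, l4834, l11294, o4557, l11371, l12300, l3011, l3008, l3025, l3026, l12348, l12333, l12616, l12531, l5039, o351, l12629, l12641, l12619, l498, l3435, l3003, l12637, l12639, l12273, l2576, l5791, l3216, o1969, l2597, l3374, o352, l12194, l12216, o4563, l3007, l501, l4967, l3927, o1152, o1158, o1159, l12648, o1078, o1076, o1409, o1429, o1418, l12310, o257, o250, o672, o641, l10548, l1134, l12145, o5540, l12555] l12649 := rupP (by decide +kernel)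
theorem r12650 : PImp [l11466, l11371, l12277, l3933, o1107, o1106, l7703, l3008, l3025, l3026, l5035, l3000, l12096, l4838, l11294, l4834, l12348, l12641, l3374, l12241, l498, o351, l5039, o305, o800, l12629, l4438, o774, o1117, o1124, o1565, l12123, l8893, o8774, o5468, l12153, o4557, l1146, o4563, l3007, l4844, l12647, l8445, l3435, l6715, l12142, o1116, o1452, o1090, o340, o708, o275, l12300, l3032, o3015, l10930, l4945, o4742, o3479, l2281, l2278, o3677, l325, o2865, o3003, o1159, l3927, o1152, o1569, o1489, o1465, l12640, l1217, l421, o694, l390, o799, o771, o3549, l11453, l12616, l12531, l12619, l3003, l12637, l12639, l12273, l2576, o8917, o5488, l12150, l501, l2996, l3011, l12333, l5791, l4771, l4775, l2597, o312, l476, l12235, o3782, l3384, l3431, l12194, l12216, l1145, l3006, l4967, o1158, o271, l1091, l1104, l12602, o5636, l2306, o4628, o8459, o5655, l2307, o8027, o2287, o8041, o711, l12649, l12562, l12644, l5102, l8918, l3236, l11854, l3238, l460, l5151, l455, l5075, l10499, l451, l3632, l3015, l2423, l8923] l12650 := rupP (by decide +kernel)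
theorem r12651 : PImp [l11466, l7703, l3008, l3025, l3026, l5035, l3000, l12096, l4838, l11294, l4834, l12348, l11371, l12277, l12641, l3374, l12241, l498, o351, l5039, o305, o800, l12629, l4438, o774, o1117, l3933, o1124, o1565, l12123, l8893, o8774, o5468, l12153, o4557, l1146, o4563, l3007, l4844, l12647, l8445, l3435, l6715, l12142, o1116, o1452, o1090, o340, o708, o275, l12300, l3032, o3015, l10930, l4945, o4742, l3012, l12186, o3479, l2281, o3677, l476, l12235, o3782, o3670, l325, o2865, o3003, o1465, o694, l12650, o290, l12642] l12651 := rupP (by decide +kernel)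
theorem r12652 : PImp [l11466, l7703, l3008, l3025, l3026, l5035, l3000, l12096, l4838, l11294, l4834, l12348, l11371, l12277, l12641, l3374, l12241, l498, o351, l5039, o305, o800, l12629, l4438, o774, o1117, l3933, o1124, o1565, l12123, l8893, o8774, o5468, l12153, o4557, l1146, o4563, l3007, l4844, l12647, l8445, l476, l12235, o3782, o3670, l12300, l3031, o3010, l325, o2865, o3003, o1465, o1116, o1452, l12640, o297, o688, o694, l12637, l3435, l1145, l6715, l10930, l12142, l8437, l12651, l1510, o6510, l5042, o4608, l4954, l3907] l12652 := rupP (by decide +kernel)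
theorem r12653 : PImp [l4914, l6213] l12653 := rupP (by decide +kernel)
theorem r12654 : PImp [l5035, o351, l12629, o340, o708, o275, l11466, l7703, l3008, l3025, l3026, l3000, l12096, l4838, l11294, l4834, l12348, l5039, o297, o688, l4438, o694, l11371, l12277, l12641, l3374, l12241, l498, o305, o800, o774, o1117, l3933, o1124, o1565, l12123, l8893, o8774, o5468, l12153, l3435, l12531, l12616, l3003, l12637, l12619, l12639, l2544, o3826, l476, l12235, o3782, o4557, l12300, l3011, l12333, l2992, l325, o2865, l3032, l1146, l1145, o4563, l3007, l4844, o1116, o1452, o1465, o1090, l12647, o3438, o3039, o3015, o3003, o3670, l8445, o5312, l12652, l12573, l12631, l12633, l1510, o6510, l12653, l3590, l4945, l8447, o4611, o5602] l12654 := rupP (by decide +kernel)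
theorem r12655 : PImp [l11371, l12277, l3933, o1116, l2305, o694, o1117, l11908, l736, o8459, o2270, o8345, l11407, o5636, l9444, o7768] l12655 := rupP (by decide +kernel)
theorem r12656 : PImp [l7703, l3000, l12096, l11294, l501, l12641, l2996, l11466, l5035, l4838, l4834, o4557, l11371, l12300, l3011, l3008, l3025, l3026, l12348, l12333, l12616, l12531, l5039, o351, l12629, l12619, l498, l3435, l3003, l12637, l12639, l12273, l2576, l5791, l4775, l3216, l12277, l3374, l12241, o305, o800, l4438, o774, o1117, l3933, o1124, o1565, l12123, l8893, o8774, o5468, l12153, o3479, l2281, l476, l12235, o3782, l3384, o297, o340, l3431, l12194, l12216, l2992, l325, o2865, l3032, l1146, l1145, o1116, l12135, o708, o694, o688, o275, l12654, o1473, o1454, o1466, l2305, o1112, l12655, o3446, o3039, o3015, o3003, o3670, l2278, l638, l11909, o5319, o336, o290, l11919, o736, l12139, o1959, l11809, o2316, l740, o7769] l12656 := rupP (by decide +kernel)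
theorem r12657 : PImp [l11371, l12277, l3933, o1116, o1452, l2269, l390, l2832, o3406, o3663, l11739, l12436, l12388, o8522] l12657 := rupP (by decide +kernel)
theorem r12658 : PImp [l2269, o699, o690, l390, l11371, l12300, l12277, l3933, o1116, o1117, o1452, o1465, o1090, l11911, o8459, l12573, o5755, l12657, o3438, o3039, o3015, o3003, o3729, o3670, o3677, l11652, l12466, l8403, o7785, o5636, o5700, o2319, o2260, o7706, l605, l29, o1523, l1091] l12658 := rupP (by decide +kernel)
theorem r12659 : PImp [l11371, l12277, l3933, o1117, o1454, o1112, o1109, o1116, o1473, l5041, o699, l390, l12300, l476, l472, o3406, o3663, l12493, l741, l1279, l12185, o4657, l12494, l12138, l12143, l2283, l9533, l1510, o2280, o3434, o8155, o7922, o4642] l12659 := rupP (by decide +kernel)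
theorem r12660 : PImp [l11466, l11371, l5035, l7703, l3000, l12096, l4838, l4834, l12300, l3008, l3025, l3026, l11294, l12348, l5039, l12216, o305, o4557, l3011, l12333, l2992, l325, o2865, l3032, l3012, l1145, o4563, l3007, l3006, l498, l501, l2996, l12277, o1117, l3933, o1124, o1566, o1565, o1159, l3927, o1152, o1569, l476, l12123, l11453, l12134, o351, l3435, o800, o799, l12531, l12616, l3003, l12629, o340, l4438, o297, o771, o774, l12637, l12641, l3374, l12235, o3479, o3480, l12619, l12241, l8893, o3782, l2281, l12639, l390, l2835, o3549, o8774, l12273, l2576, l2597, o5468, o8917, l5791, o5488, l4771, l12150, l12656, o730, o725, o690, o336, o295, l12658, o1510, o1454, o1112, l12659, o3438, o3039, l12474, l10829, l4670, l3873, l3874] l12660 := rupP (by decide +kernel)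
theorem r12661 : PImp [l3228, l11371, l12277, l3933, o1116, o1452, o1090, o1117, o1465, l476, o5304, o5315, o5319, o7981, o5686, l2306, l4626, o2269, o7872, o7897, l4808, l12602, o273, o3436, l3604] l12661 := rupP (by decide +kernel)
theorem r12662 : PImp [l2586, l2578] l12662 := rupP (by decide +kernel)
theorem r12663 : PImp [l9817, l10828] l12663 := rupP (by decide +kernel)
theorem r12664 : PImp [l3236, l3238, o253, l11865, o4590, l6373, l2969, l11853, o5420, o7628, o7552] l12664 := rupP (by decide +kernel)
theorem r12665 : PImp [l3238, l4587, l11367, l4498, l8431, l5151, l6373, o4577, l5078, o2708, l5096, o6507] l12665 := rupP (by decide +kernel)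
theorem r12666 : PImp [l5102, o1142, l3236, o1899, o1426, l12665, o2223, l12664] l12666 := rupP (by decide +kernel)
theorem r12667 : PImp [l11371, o1078, o1076, o1429, l12310, o256, l10548, l10549, l2521, l2505] l12667 := rupP (by decide +kernel)
theorem r12668 : PImp [l7703, l3000, l12096, l11294, l501, l495, l490, l12660, l3927, l11466, l11371, o1152, l3008, l3025, l3026, l5035, l4838, l4834, l12348, l5039, o299, l12277, l12241, l2835, l12135, o4557, l12300, l3011, l12333, o8503, o8798, l4194, l4788, l4789, l3797, o4668, l4790, l1145, l4844, o4840, o1159, o1569, o300, o3549, l11453, o8799, o5488, o4481, l5268, l498, l3436, l11808, l3228, l3234, l2993, o6519, o4351, l878, l8000, o2716, l1705, l3930, l11064, l390, o302, o301, o1117, l3933, o1124, o1565, l12123, l8893, o8774, o5779, l4558, o1575, o1969, o2367, o8506, o3563, l4771, l4775, l12151, l4438, o4489, l12150, o4936, o4318, l12134, o305, o5766, o5748, o8466, o3819, o5468, l12153, o8918, o303, l12194, l12216, l3012, l1146, o4563, l3007, l3006, l4967, o1158, l12295, l8459, o1912, l12662, l4080, l4598, o3427, l12663, o5593, l11819, l3581, o268,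 o680, l1495, l12667, l5102, o1142, l12666, l3236, o1899, o1421, o1428, o1426, o8027, l3238, l12665, o2225, o2223, o4613, o255, o250, o8178, l12567, o632, l12566, l8592, o289, l4506, l8431, l4504, l12309, l4505, o2501, o2489, l8857, l4059, l12478, o2517, o648, o74, l6373, o4729, o4146, o4144, o4149, o1640, o1644, o1639, o6045, o2510, o2511, o6008, o1755, o6043, o902, o899, o1068, l11368, o3374, o3362, o7554, o5423, o5543, l5075, o8221, o3431, o2220, o7640] l12668 := rupP (by decide +kernel)
theorem r12669 : PImp [l7711, l5661, l5519] l12669 := rupP (by decide +kernel)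
theorem r12670 : PImp [l3319, l5035, o2393, l12669, l4082, l9970, l4080, l2619, l2707, l2708, o3427, l5534, l12663, o5839, l12442] l12670 := rupP (by decide +kernel)
theorem r12671 : PImp [l12133, l11371, l3318, l12194, l12273, o312, l2576, l7713, l2708, o8566, o8355] l12671 := rupP (by decide +kernel)
theorem r12672 : PImp [l7703, l3000, l12096, l11294, l501, l495, l12660, l3927, l11466, l11371, o1152, l3008, l3025, l3026, l5035, l4838, l4834, l12348, l5039, o299, l12277, l12241, l2835, l12135, o4557, l12300, l3011, l12333, o8503, o8798, l4788, l390, o302, o1159, o1569, o300, o3549, l11453, o8799, o301, o1117, l3933, o1124, o1565, l12123, l8893, o8774, o5779, l4558, o1575, l490, l4194, o1969, o2367, o8506, o3563, l4775, o5488, l12151, l4790, l498, o5468, l12153, o8918, l3436, l12216, l1146, l1145, o4563, l3007, l3006, l4844, l4967, l325, l3318, l3319, l3317, l12670, o1975, l12671, l4083, l7935, l7763, o5513, o5099, l8215] l12672 := rupP (by decide +kernel)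
theorem r12673 : PImp [l7703, l3000, l12096, l11294, l501, l495, l12660, l3927, l11466, l11371, o1152, l3008, l3025, l3026, l5035, l4838, l4834, l12348, l5039, o299, l12277, l12241, l2835, l12135, o4557, l12300, l3011, l12333, o8503, o8798, l4788, l4790, l1145, l4844, o4840, o1159, o1569, o300, o3549, l11453, o8799, o5488, o4481, l5268, l498, l3436, l11808, l3228, l3234, l2993, l490, l4194, o6519, o4351, l878, l8000, o2716, l1705, l3930, o2245, o1117, l3933, o1124, o1565, o301, l12123, l8893, o3460, l390, l12151, l4438, l8927, o2269, o3461, o1116, o297, l10528, l2309, o2252, o2723, o302, o8774, o5779, l4558, o1575, o1969, o2367, o8506, o3563, l4771, o1566, o5766, l2265, o303, o2370, o8465, o4936, l4789, l3797, l12134, o305, o5748, o8466, o3819, o5468, l12153, o8918, l12194, l12216, l1146, o4563, l3007, l3006, o1158, l12672, l12295, l8459, o1912, l12662, l4080, l4598, o3427, l12663, o5593, l5510, o7734, l3581, l4936, l12667, o4928, l5102, o1142, o1105, l12666, l12668, l3236, o1899, o1428, o1426, o290, o8053, l3238, l12665, o2225, o2223, o4618, o255, o252, o250, o248, l8432, l12567, o629, o289, l8431,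 l6373, o4604, o4916, o4730, l2969, o7551, l8434, o3625, o3617, l460, o7639, l1308, l455, l5075, o2215, o1404, l451, l2518, l3632, l761, l4573, l4494, o4603] l12673 := rupP (by decide +kernel)
theorem r12674 : PImp [o7553, o7416] l12674 := rupP (by decide +kernel)
theorem r12675 : PImp [l3636, l3632] l12675 := rupP (by decide +kernel)
theorem r12676 : PImp [l3008, l2976, l3015, o3375, l1443, o1431, l12674, o3381, o7629, l12675, o5409, o4915, o4918, l5091] l12676 := rupP (by decide +kernel)
theorem r12677 : PImp [l490, l11099, o1142, o1899, o1426, o2227, o2224, o2223, l12676, o3511, l2518, o7628, o5414] l12677 := rupP (by decide +kernel)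
theorem r12678 : PImp [l3926, o1078, o1429, l10548, l10549, l11366, l11369, l2356] l12678 := rupP (by decide +kernel)
theorem r12679 : PImp [o4596, o4613, l4626, o268, l1495, o7784] l12679 := rupP (by decide +kernel)
theorem r12680 : PImp [l490, l3927, l4194, o1969, l4788, l4790, o1158, o1159, o256, o254, o253, l12678, l12677] l12680 := rupP (by decide +kernel)
theorem r12681 : PImp [l5268, l11106, l12667, l11099, l12665, l3236] l12681 := rupP (by decide +kernel)
theorem r12682 : PImp [l3228, l3234, o273, o269, o8027, l4557, o4667, l12679, o7873, o5624, o4619] l12682 := rupP (by decide +kernel)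
theorem r12683 : PImp [l11466, l11371, l12277, l3933, o1116, o1452, o1090, o1159, l3927, o1152, o1569, o1489, o1485, l7703, l3000, l12096, l11294, l498, l12660, l3436, l3008, l3025, l3026, l5035, l4838, l4834, l12348, l5039, o302, o303, o300, o299, o301, l12300, l12194, l12216, o305, o4557, l3011, l12333, l501, l495, l490, l1146, l1145, o4563, l3007, l3006, l4844, l2993, o1117, o1124, o1566, o1565, o1575, o1158, l12123, l11453, l12135, l12134, l12241, l8893, l390, l2835, o3460, o3461, o3549, o3406, o8774, o3691, o3694, o8503, o3663, o4840, o8918, o5766, o8798, o5779, l2265, o5748, l4788, l4194, o8799, l4558, o8466, l4789, l4790, o1969, o6519, o5488, o4970, o3819, o3569, l3797, o2367, o2370, o4351, o4936, l12151, o4481, o4794, o8506, o8465, l878, l4438, o297, l5268, o3563, o694, l8927, o688, l4775, o272, l11808, l3228, o1911, l3234, o2323, l12661, l1103, l732, l9900, o4658, o4636, l10528, l8000, l11199, l11625, o2269, l2309, o2716, o2252, o2245, o3728, o3436, o3658, o3660, l1705, l12673, l1242, l12681, o256, o255, o252, o250, l12680, l12678, l11099, o1142, o1105, l3236, o1899, o1428, o1426, l3238,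 o2225, o2223, l12567, o289, l12682, o290, l3594, o8053, l3590, o248, o629, o5144, o4618, l8431, l8432, l6373, o4604, o4916, o4730, l2969, o7551, l8434, o3625, o3617, l460, o7639, l1308, l455, l5075, o2215, o1404, l451, l2518, l12675, l761, l2355, l4494, o4603] l12683 := rupP (by decide +kernel)
theorem r12684 : PImp [l11466, l12096, l5035, l7703, l3000, l4838, l4834, l11294, o4557, l11371, l12300, l3011, l3008, l3025, l3026, l12348, l12333, l501, l2996, l5274, l3374, o4525, l12119, l12335, l3763] l12684 := rupP (by decide +kernel)
theorem r12685 : PImp [o3003, o3010, l11158, l8445, l12142, o7729, o5691, l1705, o4925, l3930, l4474, l4954] l12685 := rupP (by decide +kernel)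
theorem r12686 : PImp [l11466, l7703, l3008, l3025, l3026, l5035, l3000, l12096, l4838, l11294, l4834, l12348, l11371, l12277, l12684, l12241, l390, o4557, l12300, l3011, l12333, o1159, l3927, o1152, o1569, l5039, l12660, o300, o3549, l11453, o299, l2835, l12135, o8503, o8798, o8799, o5488, l12151, l12152, l1145, l2993, l501, l495, l490, l4194, o6519, l4788, l4790, l498, o301, o1117, l3933, o1124, o1565, l12123, l8893, o8774, o5468, l12153, o8918, l3436, l12216, l325, o2865, l3031, l1146, o4563, l3007, l4844, l12685, l12683] l12686 := rupP (by decide +kernel)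
theorem r12687 : PImp [l650, o7843, o5628, o2257, o7940] l12687 := rupP (by decide +kernel)
theorem r12688 : PImp [o1454, o3663, l11908, l12687, l2293, o8346, o8179] l12688 := rupP (by decide +kernel)
theorem r12689 : PImp [l7703, l3000, l12096, l11294, l501, l495, l12660, l3927, l11466, l11371, o1152, l3008, l3025, l3026, l5035, l4838, l4834, l12348, l5039, o299, l12277, l12684, l12241, l2835, l12135, o4557, l12300, l3011, l12333, o8503, o8798, l4788, l390, o302, o1159, o1569, o300, o3549, l11453, o8799, o301, o1117, l3933, o1124, o1565, l12123, l8893, o8774, o5779, l4558, o1575, l490, l4194, o1969, o2367, o8506, o3563, l4775, o3460, o5488, l12151, l4438, l8927, o297, l4790, l498, o5468, l12153, o5752, o5766, o8918, o3461, l3436, l12216, l1146, o4563, l3007, l4844, o688, l12686, l12688, l11158, l6808] l12689 := rupP (by decide +kernel)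
theorem r12690 : PImp [o7867, o5628, o2257, o7958] l12690 := rupP (by decide +kernel)
theorem r12691 : PImp [l2832, o3691, o3663, l12690, o5660, o8284, o4636, o8289, l12142, l4469, l4468, o1959, o2713, l8393, l4625, o4595] l12691 := rupP (by decide +kernel)
theorem r12692 : PImp [o7706, o7787] l12692 := rupP (by decide +kernel)
theorem r12693 : PImp [o4794, o4808, l11371, l12300, o3461, o3460, l390, l12277, l3933, o1116, o1117, o1152, o1452, o1485, o1465, o1090, l12691, o3015, o3003, o3670, l12587, l12692, l2306, o4644, l8403, o8127, l4468, l12142] l12693 := rupP (by decide +kernel)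
theorem r12694 : PImp [l11371, l12277, l3933, o1116, l2305, o1117, o1454, o1473, l2269, o699, l12464, l12437, o8395] l12694 := rupP (by decide +kernel)
theorem r12695 : PImp [l11371, l12277, l3933, o1117, o1454, o1112, o1109, l5041, l12300, o3461, o3460, l390, l476, l472, o3406, o3663, l12694, l741, o4658, o2257, l12494] l12695 := rupP (by decide +kernel)
theorem r12696 : PImp [l11466, l11371, l12277, o1117, l3933, o1124, o1566, o1565, o1159, l3927, o1152, o1575, o1569, l7703, l3008, l325, l5035, l12123, l11453, l12135, l3025, l3026, l2993, l3000, l12096, l4838, l11294, l4834, l501, l498, o4563, o4557, l12300, l495, l3006, l3007, l1145, l3011, l3032, o2865, l2992, l490, l12348, l5039, l12333, l12216, l12660, o301, o299, o300, o303, o302, l12684, l12241, l8893, l390, l2835, o3460, o3549, o8774, o8503, o5468, o4840, o5766, o8798, o5779, o5752, l4788, l4194, o8799, l4558, l4789, l4790, o1969, o6519, o5488, l3797, o2367, o4351, l12151, l12150, o4481, o8506, l878, l4438, o297, l12152, o3563, l8927, l4771, l12689, o725, o690, o699, l2269, o719, o295, o290, l12693, o1510, o1454, o1112, l12695, o3438, o3039,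 l12474, l10829, l4670, l3873, l3874] l12696 := rupP (by decide +kernel)
theorem r12697 : PImp [l11371, l12277, o1117, l3933, o1124, o1565, l12123, l8893, l10278, l3427, l3439, l1102, l1145, l1209] l12697 := rupP (by decide +kernel)
theorem r12698 : PImp [l1242, l5102, l3236, l3238, l2498, l5098, l12675, l11115] l12698 := rupP (by decide +kernel)
theorem r12699 : PImp [l1242, l2820, o1158, l5102, o1142, o1899, l6954, o2227, o2229, o2224, o1077, l12698, o3375, o3371, o3373, l1443, o1431, l12674, l635, o7567, o7428] l12699 := rupP (by decide +kernel)
theorem r12700 : PImp [l2820, o1158, l12699, o1078, o1409, o1429, l10548, l1128, l12144, o3622, o2219, o8060, o7724] l12700 := rupP (by decide +kernel)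
theorem r12701 : PImp [l11466, l11371, l12277, l3933, o1107, l12135, l7703, l12696, l12697, o3469, l12300, l1412, l4967, l433, l429, l1210, l3444, o4537, l5035, l476, o4494, l2820, l404, o3506, l12252, o3477, l12249, l485, l12213, l12225, l12187, o3078, l4871, o1969, o2370, o2367, o4550, o3090, l4850, l12247, l2734, o5639, o5332, o5636, l4438, o694, l12239, o297, o688, o351, o5167, l1242, l4969, l12212, l10508, o257, o672, l12227, l12248, o250, l3427, l1209, l4968, l4834, l4836, o305, o799, o800, o3396, o3691, o1159, l3927, o1152, o1569, o1489, o1117, o1465, o1116, o1452, o1124, o1566, o1575, l501, l3384, o5474, o5480, l4775, o7981, o8776, o8801, o8994, o8658, l10493, l2281, o3715, l10592, o8814, l11199, l2279, o8767, o3730, l2311, o7707, o631, l12700, l11321, l3926, l5102, o1142, o1105, l3236, o1899, l5173, o1426, l3238, o2229, o2223, o1077, o1072, l12698, l11115, o3365, o3361, l4498, o245, o335, o289, o620, l6377, o5556, o8765, o2210, l613, o7977] l12701 := rupP (by decide +kernel)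
theorem r12702 : PImp [o1078, l12678, o1429, o1418, l10548, l12145, l10549, l11366, l11369, o5214, o8811, o7503] l12702 := rupP (by decide +kernel)
theorem r12703 : PImp [l3236, l3238, l3016, o3371, l2519, o4421, l4488, o335, o7567, o7428] l12703 := rupP (by decide +kernel)
theorem r12704 : PImp [l1242, l5102, l3236, l3238, l2498, l2520, l5098, l12675, o4419, l4494, l4495] l12704 := rupP (by decide +kernel)
theorem r12705 : PImp [l12704, l1242, l5102, o1899, o1142, l12699, l12703] l12705 := rupP (by decide +kernel)
theorem r12706 : PImp [l3236, l3238, l12674, l11115, o662, l635, o623, o659, o657, o650, o652, o651, o7569, l4498, o7428, o5558, o5559, o5229, o8985, o5570, o5533, o5566, o5567, o5569, o8763, o8762, o7565, l5164, o7956, o7864, o2209, o2211, o2215, l2335, o2200, o7955, o7897, o7981, l633, o5534, o3658, o624, o8036, o7980] l12706 := rupP (by decide +kernel)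
theorem r12707 : PImp [o7496, o7525] l12707 := rupP (by decide +kernel)
theorem r12708 : PImp [o9147, o9066] l12708 := rupP (by decide +kernel)
theorem r12709 : PImp [o2393, l12026, o358, o259, l12708, o5511, o5579, l2574, l12707, l2718] l12709 := rupP (by decide +kernel)
theorem r12710 : PImp [l433, o1160, o1079, l12709, o1900, l9109, l7190, l6039, o5234, l4079, l2718, o7660] l12710 := rupP (by decide +kernel)
theorem r12711 : PImp [l3319, l9771, o2393, l11960, l4083, l11965, o5513, l8123, o9023] l12711 := rupP (by decide +kernel)
theorem r12712 : PImp [l433, l11371, l12277, l3933, o1132, o1160, o1079, l12710, l12709, l9109, o5407, l7190, l4082, l12618, l12293] l12712 := rupP (by decide +kernel)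
theorem r12713 : PImp [l3008, l3016, l3236, l3238, o688, l1412, l433, l4969, l429, l4967, o1452, l2314, o7897, l2291, o3671, l10878, l12706, l2519, l2370, o4421, l5121, l4488, o245, o335, o289, o267, o613, o7428, o5570, o5567, o7565, o7864, o2215] l12713 := rupP (by decide +kernel)
theorem r12714 : PImp [l11466, l476, l12696, l7703, l12697, o3477, l11371, o3469, l12300, l12277, l12247, l2734, l3933, o1116, l12239, l2820, l404, o3506, l12252, l12249, l485, l12213, l12225, o297, l12227, l3008, l3927, l5035, l4834, l1412, l4967, l4836, l433, l429, l4969, l1209, l1210, l3444, l3427, o5167, l1242, l12212, l10508, o257, o351, o672, o4537, o4494, l12187, o3078, l4871, o1969, o1158, o1152, o250, l12248, l12702, l12705, l6738, l5102, l5173, o1077, o1899, o2227, l12704, o3375, l1443, o1403, o1068, o1431, o1117, o1124, o1566, o1425, o3391, o3360, o3359, o3358, o3396, o3361, o3362, l2849, o3373, o3371, o3367, o3366, o3365, o3368, l2795, l3016, l3015, o3370, o1452, o1090, o1074, o1067, o1075, o2224, o2229, l3236, l3238, o1565, o1142, o1421, o1422, o1105, o5332, o5636, o5312, o5319, l472, o5298, o5315, o5304,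 l4438, o694, o633, l1243, l12123, l494, l490, o5456, l755, o783, o5457, l3439, l4968, l4966, o305, l12174, l12226, o3694, o1159, o1569, o1489, o1465, l325, o274, l4629, l3228, o1911, l3234, o2323, l5751, l12701, o5380, o5506, o5279, o5281, o5282, o1070, o1073, o1069, o1071, l12713, o7981, l2283, o9016, l12706, o5578, o4919, o4920, o5564, o5563, o9158, l4494, l4488, o8811, o245, l11473, l7334, o335, o289, o267, o2213, o618, o614, o662, o5227, o5215, o7428, o7976, o8762, o5532, o8764, o8985, o5566, o5569, o5535, o5530, o2212, o2207, o7956, o8280, o2211, o2200, o653, o625, o7897, o9072, o3658, l12712, o7980, l3319, o7938, l9771, l12711, o2393, l12017, l4083, l11965, o5513, l8123, o9023] l12714 := rupP (by decide +kernel)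
theorem r12715 : PImp [l12714, l12135, l7703, l11466, l11371, l12696, l12697, o3469, l12300, l1412, l4967, l433, l429, l1210, l3444, o4537, l5035, l476, o4494, l2820, l404, o3506, l12252, o3477, l12249, l485, l12213, l12225, l12187, o3078, l4871, o1969, o2367, o4550, o3090, l4850, l472, o5298, o351, l12239, o305, o799, o3391, o1159, l3927, o1152, o1575, l501, o5480, l12701, l4775, o8801, o8994, l2491, l2490] l12715 := rupP (by decide +kernel)
theorem r12716 : PImp [l12142, l2314, l11064, l1446, o7897, o2951, o3005] l12716 := rupP (by decide +kernel)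
theorem r12717 : PImp [l11466, l476, l472, l11371, l12696, l7703, l12697, o3469, l12300, l1412, o4478, o4734, o3477, l12277, l12247, o5332, o5636, l5035, l2820, l404, o3506, l12252, l12249, l485, l12213, l12225, o340, o708, o275, l4438, o694, o5167, l1242, l433, l4969, l12212, l10508, o250, o633, o351, o257, o672, l12227, l12248, l12239, o297, l1243, l2734, l429, l1210, l3444, l494, l490, o5456, o4537, l3427, l1209, l4834, l4836, o4494, l4967, o3396, o3391, l3933, o1116, o1452, o1090, o1117, o1465, o1124, o1565, l3927, o1152, o1158, l3008, l12187, o3078, l4871, o1969, l12702, l5102, o1142, l3236, o1899, l5173, o1421, l3238, o2227, o2229, o1077, o1075, o1074, l12704, o3370, l3015, l3016, l2795, o3375, o3366, o3371, l2849, o3360, l1443, o1403, o1068, l12705, l6738, l12714, o336, o640, l12715, o5506, l12716, o7981, l2283, o9016, o5578, o4919, o4920, o5564, o9158, l4494, l4488, o8811, o245, l7334, o335, o289, o2213, o618, o5227, o5215, o7428, o7976, o5532, o8764, o5529, o2208, l1346, l614] l12717 := rupP (by decide +kernel)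
theorem r12718 : PImp [l4629, l3228, l3561, l2860, l4460, l4461] l12718 := rupP (by decide +kernel)
theorem r12719 : PImp [l11466, l476, l11371, l12696, l7703, l12697, o3469, l12300, l1412, o4491, o4752, o4756, o5312, o5319, o5304, l5035, l2820, l404, o3506, l12252, o3477, l12249, l485, l12213, l12225, o340, o708, o275, l433, l429, l1210, l3444, l3439, l4967, o3396, o3391, l12277, l3933, o1116, o1452, o1090, l12717, l11410, l12718, l3593, l4922, l4918] l12719 := rupP (by decide +kernel)
theorem r12720 : PImp [o271, l4629, l3228, l3234, l4930, l5751, o2958, o1106, o7694, o3025, o3005, o7963, l8399, o7983, l1104, o7981] l12720 := rupP (by decide +kernel)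
theorem r12721 : PImp [l5042, o688, o1452, l9048, o7981, l3228, l12142, l12716, l1446, l10528, o2260, l2290, l11199, o3656, o2943, o2945, l4956, l4818, l3887] l12721 := rupP (by decide +kernel)
theorem r12722 : PImp [l8399, o7983] l12722 := rupP (by decide +kernel)
theorem r12723 : PImp [l476, l472, l1412, o4478, o4734, o4482, o4742, o4740, o4491, o4754, o4752, o5312, o5298, o5304, o4485, o4498, l11371, l12277, l3933, o1116, o1452, o1090, o1117, o1465, l12182, l12190, l12720, l12721, l12722, l2291, o3013, o3681, o3048, l4944, o3016, l1446] l12723 := rupP (by decide +kernel)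
theorem r12724 : PImp [l1412, o271, l4629, l3228, l3561, l3234, l2860, l4463, l4461, l5751, o681, o682, o2953, o1106, o1107, o1108, o7694, l11275, o2750, o3000, o3002, o3019, o7870, o7960, o7963, o2255, l4565] l12724 := rupP (by decide +kernel)
theorem r12725 : PImp [l5035, l12696, l2820, l404, l7703, l11466, l12697, o3506, l11371, o3469, l12252, o3477, l12249, l485, l12213, l12225, o340, o708, o275, l4438, o694, l12227, l12239, o297, l476, l12300, l12277, l12247, l2734, o5332, l1412, l433, l429, l1210, l3444, l3439, l4969, l472, o4478, o4491, l4967, l2832, o3396, o3391, l3933, o1116, o1452, o1090, o5304, o5298, o5319, o5312, o5636, o5639, o5646, o5631, o4756, o4752, o4734, l12719, l12723, l11410, l12724, l3593, l4922, l4918] l12725 := rupP (by decide +kernel)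
theorem r12726 : PImp [o5480, o5438, o8801, o8658, l12674, o623, l2716, o7569, o651, o650, l6377, o5542, o5541, o8282, o8199, o2199] l12726 := rupP (by decide +kernel)
theorem r12727 : PImp [o2393, l12026, o358, o312, o259, l12708, o5511, o8978, o5810, o5579, l2574, o3826, l2718, o8778, o7496, o2221] l12727 := rupP (by decide +kernel)
theorem r12728 : PImp [l3236, l3238, l433, l429, l1210, l1209, l4969, l4967, l4966, l3008, l325, o1132, o1160, o1079, l12727, o1912, o1900, l9109, l7190, o5286, l8315, l4080, l4079, l9432, o7850, l10553, o7660, o8093, l6039, o7595] l12728 := rupP (by decide +kernel)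
theorem r12729 : PImp [l3316, l11371, l3318, l7703, l1412, l433, l429, l1210, l1209, l4967, l5035, o2393, l11960, l4083, l4082, l11965, l4079, o5513, o5407, l2539, l8123, l8315, l2718, o3826, o7609, o8530, o2221] l12729 := rupP (by decide +kernel)
theorem r12730 : PImp [l11371, l12273, l2576, l2589] l12730 := rupP (by decide +kernel)
theorem r12731 : PImp [o1899, l3927, o1142, l12696, o3371, l7703, l11466, l11371, l12697, o3469, l12300, l1412, l433, l4969, o351, l5035, o257, o672, o3373, o1158, l4967, l429, l1210, l3444, o4537, l476, o4494, l12187, o3078, l4871, o1969, o2227, l3427, l1209, l2820, o3375, l1443, o1431, o2224, l12674, l635, o7428, o8985, l4834, l4836, o1077, o1403, o1068, l12252, l3236, l3238, o2229, l11115, l4498, l494, l490, l3439, l4968, l472, l12277, l3933, l12239, l12174, l404, o3506, l12728, l3318, l3319, l12729, l12730, l4082, l7935, l12029] l12731 := rupP (by decide +kernel)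
theorem r12732 : PImp [l3236, l3238, l433, l4969, l429, l4967, l4966, l3008, l325, o1132, o1160, o1079, l12727, o1900, l9109, l7190, l4599, l8315, l10555] l12732 := rupP (by decide +kernel)
theorem r12733 : PImp [l3316, l11371, l3318, l7703, l1412, l433, l429, l1210, l1209, l4967, l5035, o2393, l12017, l4083, l4082, l11965, l4079, o5513, o5407, l2539, l8123, l8315, l2718, o3826, o7609, o8530, o2221] l12733 := rupP (by decide +kernel)
theorem r12734 : PImp [o1077, l7703, l11466, l11371, l12696, l12697, o3469, l12300, l1412, l4967, l433, l429, l1210, l3444, o4537, l5035, l476, o4494, l12187, o3078, l4871, o1969, o1899, o2227, l3427, l1209, l2820, o3375, l1443, o1403, o1068, l3927, o1158, o1431, o3373, o3371, o3365, o2224, o2229, l3236, l3238, l12277, l3933, o1105, o1142, o351, o257, o672, l494, l490, l3439, l4969, l4968, l4834, l4836, l12239, o305, l472, l12174, l12252, l404, o3506, l12674, l11115, l635, o657, l4498, o7428, o8985, o5570, o7565, l12731, l12732, l3318, l3319, l12733, l12730, l4082, l7935, l12029] l12734 := rupP (by decide +kernel)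
theorem r12735 : PImp [l433, l11371, l12277, l3933, o1132, o1160, o1079, l12727, o1900, l9109, l7190, o5234, l4079, l12618, o7660, l2718] l12735 := rupP (by decide +kernel)
theorem r12736 : PImp [l11960, l12017] l12736 := rupP (by decide +kernel)
theorem r12737 : PImp [l11371, l3318, l1412, o2393, l12736, l4083, l4082, l11965, l4079, o5513, o5407, l2539, l8123, o5234, l2718, o3826, o7609, o8530, o2221] l12737 := rupP (by decide +kernel)
theorem r12738 : PImp [l476, l472, l11371, l12277, l3933, l12239, l12174, l12226, l12273, l2576, l7713, o259, o5520, l2718, o7514] l12738 := rupP (by decide +kernel)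
theorem r12739 : PImp [l1242, l7703, l11466, l11371, l12696, l12697, o3469, l12300, l1412, l433, l4969, l10508, l3927, o1158, o1152, l2820, l404, o3506, l485, l12225, o250, l12248, l12227, o351, l5035, o257, o672, l12702, l5102, l3236, l10496, o1077, l12135, l4967, l429, l1210, l3444, o4537, l476, o4494, l12187, o3078, l4871, o1969, o2367, o1899, o2223, o2224, o2227, l3238, o1159, o1142, o1426, l12142, l12277, l3933, o1116, o1452, o1090, l11064, o2951, l12239, o297, l1243, l494, l490, l3439, l3427, l1209, l4968, l4834, l4836, o4491, l4966, o305, o799, o3396, o3391, l472, l12174, l12252, o1117, o1465, o1575, l3008, l325, l12704, l12705, l3016, o3375, o3371, o3373, o3361, o3358, o3359, l6738, l6856, l1443, l2314, o2249, o1431, o1403, l7352, o7897, o1068, o5303, o4745, o3005, l12716, l1510, o6756, o274, o1070, o1069, l12726, o5380, l12734, l2519, l2370, o4421, o5210, l5121, l4488, l613, l7334, o335, o2210, o7428, o8985, o5229, l12735, l3318, l3319, l3316, l12737, o1900, l12738, l4082, l7935, l12029] l12739 := rupP (by decide +kernel)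
theorem r12740 : PImp [l490, l2517, o3371, o3372, o5413, o5414, l2519, o7567, o7552, o663] l12740 := rupP (by decide +kernel)
theorem r12741 : PImp [l5751, o7694, o1070, o2929, o7891] l12741 := rupP (by decide +kernel)
theorem r12742 : PImp [l12142, l12716, l1446, o2260, o3004, l11199] l12742 := rupP (by decide +kernel)
theorem r12743 : PImp [l12142, l1412, l433, l429, l464, o4445, o4438, o5251, o5237, o5238, l4937, o2953, l12742, l5751, o267, o7694, l12741, o1070, o1069, o1071, l770, o7956, o2929, o2930, l682, o7979, l1400] l12743 := rupP (by decide +kernel)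
theorem r12744 : PImp [o5167, l1242, l5102, l3236, l10496, l3238, l12142, l11371, l12277, l3933, o1116, o1452, o1090, l11064, o2951, l1243, l1412, l433, l429, o1117, o1465, l12740, l2498, l2520, l5098, l2861, l12675, o4419, l5150, l3625, l3631, l4495, l4487, o617, o616, l12743, o5306, o5139, l3613, o290, l2494, l10825, o1106, o3019, o3005, l618, l8399, l1104] l12744 := rupP (by decide +kernel)
theorem r12745 : PImp [l12142, o351, l5035, l11466, o5167, l1242, l7703, l11371, l12696, l12697, o3469, l12300, l1412, l433, l4969, l10508, o257, o672, l485, l2820, l404, o3506, l12225, l12227, l12248, l12239, o297, o250, l476, l2734, l429, l1210, l3444, l494, l490, o5458, o4537, l3439, o4494, o4491, l4967, o3391, l12252, l12277, l3933, o1116, o1452, o1090, o1117, o1465, l3927, o1152, o1158, o1159, l12187, l12702, l11064, o3078, l5102, o1142, o2951, l4871, l3236, o1899, o1426, o1969, l10496, o2223, o1077, o1412, l12739, l12744, l6738, l2314, l7352, o7897, o4745, o3005, l12716, l1510, o7694] l12745 := rupP (by decide +kernel)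
theorem r12746 : PImp [l681, l2820, o3375, o3371, o3373, l12703, l1443, o1431, l12674, l635, o7567, o7428] l12746 := rupP (by decide +kernel)
theorem r12747 : PImp [l5034, l4526, o2393, l12026, l8250, o124] l12747 := rupP (by decide +kernel)
theorem r12748 : PImp [l433, o1160, l12747, l9109, l8726, o5286, l4080, l10156] l12748 := rupP (by decide +kernel)
theorem r12749 : PImp [o351, l5035, o274, o748, l11466, l11371, l12696, l7703, l12697, o3469, l12300, l464, l5751, l1412, l433, l429, o4438, l3927, o1152, l12135, l1210, l3444, l494, l490, o5458, o8679, o5167, l1243, l1242, o4550, l3439, l3427, l1209, l4969, l4968, l4834, l4836, l4967, l4966, o4498, l12239, o305, o799, o800, l476, l472, l12277, l3933, l12174, l12226, l12252, o352, l2820, o1117, o1124, o1566, o1565, o1159, o1575, l3008, l325, o5369, o8801, o5380, o8994, o5673, o5556, l4770, o3202, l3384, l8937, o8208, o7642, o8984, l4775, l4771, o3094, o3088, o3156, l10659, o6756, l4502, l10801, o121, o101, o119, o853, l10815, o927, l6476, o2557, o2554, l12748, l9771, l12736, l4080, l11965, l10156, o5286] l12749 := rupP (by decide +kernel)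
theorem r12750 : PImp [l2574, l2582] l12750 := rupP (by decide +kernel)
theorem r12751 : PImp [l6476, o2557, o2554, l8250] l12751 := rupP (by decide +kernel)
theorem r12752 : PImp [o2393, l3216, l7703, l1210, l5035, l12135, l4502, l10801, o121, o101, o99, o119, o804, o853, o927, l12751, l3308, l10815, l11977] l12752 := rupP (by decide +kernel)
theorem r12753 : PImp [o3094, o3088, l12752] l12753 := rupP (by decide +kernel)
theorem r12754 : PImp [l9060, l7838, l1084, l5847, l5267, o3958, l6290] l12754 := rupP (by decide +kernel)
theorem r12755 : PImp [l433, l426, l421, l418, l429, l1210, l1209, l4969, l4968, l4967, l4966, l3008, l325, l12754, l8770, l10731, l10796] l12755 := rupP (by decide +kernel)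
theorem r12756 : PImp [l12754, l7772, l11524, o3938, l3308, l4753, l4758] l12756 := rupP (by decide +kernel)
theorem r12757 : PImp [l433, l426, l421, l418, l429, l1209, l4969, l4968, l4967, l4966, l3008, l325, l12754, l12755, l8043, l10731, l8045, l9156] l12757 := rupP (by decide +kernel)
theorem r12758 : PImp [o2393, l12135, l6958, l6476, o3938, o3991, o2489, o2555, l8250, l3998, o2666, l12149, l11977, o6174] l12758 := rupP (by decide +kernel)
theorem r12759 : PImp [l1021, l10718] l12759 := rupP (by decide +kernel)
theorem r12760 : PImp [o2393, l3927, o1160, o1132, l3216, l1242, l433, l426, l421, l418, l7703, l429, l1210, l4968, l4967, l3008, l5035, l12135, l5034, l4502, l10801, l4504, l12753, o121, o99, o119, o804, o853, o3202, o927, l12758, l3308, l7120, l11977, o3949, l3761, l1085, l3991, l12759, l11568, l9096] l12760 := rupP (by decide +kernel)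
theorem r12761 : PImp [l4523, l4521] l12761 := rupP (by decide +kernel)
theorem r12762 : PImp [l3303, l5672, o2496, l12761, l4710, o3938, l4753, l4758] l12762 := rupP (by decide +kernel)
theorem r12763 : PImp [l433, l426, l421, l418, l429, l1210, l1209, l4969, l4967, l4966, l3008, l325, l12754, l12757, l12762, l3308, l9155, l12761, l3094] l12763 := rupP (by decide +kernel)
theorem r12764 : PImp [l3927, o1160, o340, l1243, l11466, l11371, l12696, l7703, l12697, o3469, l12300, l1412, l433, l429, l1210, l3444, o4540, o4550, l3439, l4969, l5035, l4834, l4836, l476, l472, o4485, o4498, l12277, l3933, l12239, l12174, l12252, o351, o352, l2820, o1117, o1124, o1565, o1159, o1152, o1575, l3008, l325, o2393, l12026, o358, l12750, o5513, o5407, l6049, l5780, l12760, o8988] l12764 := rupP (by decide +kernel)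
theorem r12765 : PImp [l7703, l11466, l11371, l12696, l12697, o3469, l12252, l12226, l476, l472, l12277, l3933, l12239, l12174, l12300, l1412, l433, l429, l1210, l3444, l3427, l1243, l12763, l3236, l3238, l1242, l4969, l10508, l5173, l3439, l1209, l4967, l4966, l3008, l325, o1079, l12764, o1912, o1900, l9109, l7190, o5286, o5234, l4080, l4079, l9432, o7660, o7903, o7467, l9017] l12765 := rupP (by decide +kernel)
theorem r12766 : PImp [l1412, o2393, l12736, l4083, l4080, l12031, l8020, o5513, l8123, o5286, o7903, o9023, o7985] l12766 := rupP (by decide +kernel)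
theorem r12767 : PImp [l11466, o5167, l1242, l5102, l7703, l3008, l3927, o1158, l12696, l11371, l12697, o3469, l12300, l1412, l433, l429, l4969, l1209, l1210, l3444, l3427, l10508, o351, l5035, o257, o672, o1142, o1899, l3236, l3238, o1898, l1448, l12746, l2520, l5150, l2498, l2861, l3625, o335, l476, l472, o5294, l5098, o1152, l2820, l404, o3506, l485, l12225, o340, l12135, l494, l490, o5458, o8679, l5173, o1077, o1159, o1426, l12227, l12248, l1243, l4968, l4834, l4836, l4967, l4966, l12277, l3933, l12239, l12174, l12252, o1116, o1452, o1090, o1575, o1494, l11115, o245, l2399, l3636, o620, l2395, l12749, o5475, l4780, l12765, l3318, l3319, l3317, l12766, l12730, l6707, o4576, o5729, l11402] l12767 := rupP (by decide +kernel)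
theorem r12768 : PImp [l3303, l6958, o1748, o4033, o6112, o6251] l12768 := rupP (by decide +kernel)
theorem r12769 : PImp [l1242, l7703, l1412, l433, l429, l1210, l4968, l4967, l5035, l12135, l5034, l4502, l10801, o99, o123, o804, l11974, o947, o1594, l4008, l12768, l3308, l7120, l11977, o3957, l4049, l1085, l3985, l713, l9096] l12769 := rupP (by decide +kernel)
theorem r12770 : PImp [l433, l429, l1209, l4968, l8043, l10731, l9156, l3308, l10796, l9102, l4551, l10789, l4548] l12770 := rupP (by decide +kernel)
theorem r12771 : PImp [l4763, l4521, l7859, o3962, l4726, l4723] l12771 := rupP (by decide +kernel)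
theorem r12772 : PImp [l325, l3303, l5672, o2496, o2500, l12771, l4710, o3938, l4753, l4758] l12772 := rupP (by decide +kernel)
theorem r12773 : PImp [l3927, o1160, l11466, l11371, l12277, l3933, o1132, l12696, l7703, l12697, o3469, l12300, l1412, l433, l429, l1210, l3444, o4540, l6736, l3216, l1243, l3439, l3427, l426, l421, l418, l1209, l4969, l4968, l4967, l4966, l5035, l4834, l476, l472, l12239, l12174, l12252, o352, l2820, l3008, l325, o2393, l12026, o358, l12750, o5513, o5407, l6049, l5780, o8988, l12769, l12754, l12770, l12772, l3308, l9155, l3094, l3095, l7199, l4521, l7859, o3944, l6130, l5043] l12773 := rupP (by decide +kernel)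
theorem r12774 : PImp [l3236, l3238, l1242, l7703, l11466, l11371, l12696, l12697, o3469, l12300, l1412, l433, l4969, l10508, l5173, l429, l1210, l3444, l3439, l1209, l4967, l4966, l476, l472, l12277, l3933, l12239, l12174, l3008, l325, o1079, l12773, o1912, o1900, l9109, l7190, o5286, o5234, l4080, l4079, l9432, o7660, o7903, o7467, l9017] l12774 := rupP (by decide +kernel)
theorem r12775 : PImp [l12133, o5729, o5591, l5521, o8209, o278, o754, o8821, l11384] l12775 := rupP (by decide +kernel)
theorem r12776 : PImp [l11466, l11371, l12696, l7703, l12697, o3469, l12300, l1412, l433, l429, l1210, l3444, o4540, l6736, l3216, o5167, l1243, l1242, l3427, l1209, l4969, l4968, l4966, l476, l472, l12277, l3933, l12239, l12174, l12252, l2820, l5035, l3318, l3319, l3317, l12766, o1975, o1912, l12775, o5513, l12273, l9221] l12776 := rupP (by decide +kernel)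
theorem r12777 : PImp [l3636, l3627] l12777 := rupP (by decide +kernel)
theorem r12778 : PImp [l4485, l4484] l12778 := rupP (by decide +kernel)
theorem r12779 : PImp [l11466, o5167, l12776, l12774] l12779 := rupP (by decide +kernel)
theorem r12780 : PImp [l4770, l4780] l12780 := rupP (by decide +kernel)
theorem r12781 : PImp [l11466, l11371, l485, l12696, l2820, l404, l7703, l12697, o3506, l12225, l12227, o5167, l1242, l5102, l3008, l3927, o1158, o3469, l12300, l1412, l433, l429, l4969, l1209, l1210, l3444, l3427, l10508, o351, l5035, o257, o672, o1142, o1899, l3236, l3238, o1898, l1448, l12746, l2498, l12252, l5098, l2520, o4424, l12778, l12777, l3636, l5150, l2861, l3625, l12248, o340, l12277, l3933, o1116, o1452, o1090, l12135, l3607, o271, l12779, l12780, l3216, o1969, o2367, o2370, o2325, o2223, l12767] l12781 := rupP (by decide +kernel)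
theorem r12782 : PImp [l32, l618, o8229, l1104] l12782 := rupP (by decide +kernel)
theorem r12783 : PImp [l12696, l7703, l11466, l12697, o3477, l2832, l11371, l12277, l3933, o1116, o1452, o1090, l3556, l3228, l11453, o2306, l12142, l485, l2820, l404, o3506, l12225, l12227, o5167, l1243, o3469, l12300, l1412, l433, l429, l1210, l3444, l3427, o3391, l476, l472, l12239, l12174, o1117, o1465, l12781, o5306, o5303, o5139, l3613, o290, l2494, o1106, l12782, l11914, o8148] l12783 := rupP (by decide +kernel)
theorem r12784 : PImp [o2393, l12026, o358, l12750, l12708, o5513] l12784 := rupP (by decide +kernel)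
theorem r12785 : PImp [l3236, l3238, l5173, l1412, l433, l429, l1210, l1209, l4969, l4967, l4966, l3008, l325, o1160, o1079, l12784, o1912, o1900, l9109, l7190, o5286, l8315, l4080, l4079, l9432, o7903, o7660, l9017, o7467] l12785 := rupP (by decide +kernel)
theorem r12786 : PImp [l1412, o2393, l12736, l4083, l4080, l12031, o5513, l8123, o5286, o9023, o3739, o7985, o7903] l12786 := rupP (by decide +kernel)
theorem r12787 : PImp [l5102, l3236, l3238, l4498, l11091, l11115] l12787 := rupP (by decide +kernel)
theorem r12788 : PImp [l5102, l3236, l3238, o1898, l7703, l11466, l11371, l12696, l12697, o3469, l12300, l1412, l433, l4969, l10508, l5173, o1077, l5035, o257, l429, l1210, l3444, l3439, l3427, l1209, l4968, l4834, l4836, l4967, l476, l472, l12277, l3933, l12239, l12174, l12252, l2820, l404, o3506, l3927, l12787, l12785, l3318, l3319, l3317, l12786, l12730, l4082, l11215, l12029, o4576] l12788 := rupP (by decide +kernel)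
theorem r12789 : PImp [l7703, l1412, l433, l429, l1210, l1209, l4969, l4967, l4966, l3008, l325, l5035, o1160, l12784, o1975, o1912, l9109, o5513, l7190, o5286, l4083, l4080, l9432, o9178, o7903, o8957, l9017] l12789 := rupP (by decide +kernel)
theorem r12790 : PImp [o4576, o5591, l11215, o278, o8209, o8046] l12790 := rupP (by decide +kernel)
theorem r12791 : PImp [l12696, l7703, l11466, l12697, o3477, l2832, l11371, l12277, l3933, o1116, o1452, o1090, l3556, l3228, l12142, l485, l2820, l404, o3506, l12225, l12227, o3469, l12239, o297, o5167, l1243, l1242, l476, l2734, l12300, l1412, l433, l429, l1210, l3444, l494, l490, l3439, l3427, l1209, l4968, o3391, l472, l12174, l12252, o3691, o1117, o1465, l3927, l5035, l12783, l3143, l6738, l2314, l7352, o5303, l3607, l12788, l12789, l3319, l3317, l12786, o1975, o1912, l12790, o5513, l12273, l9221] l12791 := rupP (by decide +kernel)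
theorem r12792 : PImp [l1435, o9055, o8889] l12792 := rupP (by decide +kernel)
theorem r12793 : PImp [l635, o335, l11473, l6382, l4823, l2861, l5107, l3182] l12793 := rupP (by decide +kernel)
theorem r12794 : PImp [l12780, l12792, l3216, o1953] l12794 := rupP (by decide +kernel)
theorem r12795 : PImp [o351, l5035, l11466, o5167, l1242, l7703, l11371, l12696, l12697, o3469, l12300, l1412, l433, l4969, l10508, o257, o672, l485, l2820, l404, o3506, l12225, l12227, l429, l1210, l3444, o4540, l4968, l12252, l3927, o1158, l12791, o1078, o1429, l10548, l12793, o258, l12794, l6736, l3216, o1953, l1435, o3371, l2800, l11366, l11369, l4306, l5083] l12795 := rupP (by decide +kernel)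
theorem r12796 : PImp [l3308, l1242, l433, l429, l1210, l4968, o2493, l9096, o5915, l710, l2789, l9004] l12796 := rupP (by decide +kernel)
theorem r12797 : PImp [o4123, o4140, l7059, l5808, o1530] l12797 := rupP (by decide +kernel)
theorem r12798 : PImp [l3989, l3987] l12798 := rupP (by decide +kernel)
theorem r12799 : PImp [o4576, l11371, l12277, l3933, o1132, l1242, l7703, l433, l429, l1210, l1209, l4968, l4967, l5035, l5034, l4502, l10801, o99, l10799, l3308, o1644, o1647, l12798, o1758, l12797, l10756, l4060, l12796] l12799 := rupP (by decide +kernel)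
theorem r12800 : PImp [l433, l426, l421, l418, l429, l1210, l4969, l4967, l4966, l3008, l325, l12757, l12756] l12800 := rupP (by decide +kernel)
theorem r12801 : PImp [l1243, l1242, l7703, l1412, l433, l429, l1210, l1209, l426, l421, l4969, l4968, l4967, l5035, o4576, l5525, l2582, o6436, l9152, l12800, l5034, l10801, l12799, l10799, l4871, l4622, o2764, l7120, l1021, l8261, l12082, o3895, l4058] l12801 := rupP (by decide +kernel)
theorem r12802 : PImp [l433, l429, l4967, l4968, l10801, l10802, l10799] l12802 := rupP (by decide +kernel)
theorem r12803 : PImp [l433, l429, l4967, l4968, l10801, l5034, l1210, l1209, o1647, o1609, l12798, l11977, l7207, o1615, o4134, l10756, o1596, o6248, o2555] l12803 := rupP (by decide +kernel)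
theorem r12804 : PImp [l7703, l433, l429, l4967, l4968, l10801, l1209, l3761, l10756, o2555, o2557, l8250] l12804 := rupP (by decide +kernel)
theorem r12805 : PImp [o2489, l4055, l3998, o3938] l12805 := rupP (by decide +kernel)
theorem r12806 : PImp [l1412, l433, l429, l4967, l4968, l10801, l5034, l426, l421, l418, l1210, l1209, l3008, l12135, l3303, o1748, l12803, l12805, l9961, l4057, l1021, l6465, o3895, o3909, l3081, l5849, l4019] l12806 := rupP (by decide +kernel)
theorem r12807 : PImp [l433, l429, l4967, l1242, l4968, l10801, l1210, l1209, l3308, l11977, l10756, l4060, l12796] l12807 := rupP (by decide +kernel)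
theorem r12808 : PImp [o2393, l3927, o1160, o1132, l1242, l1412, l433, l429, o4540, o4550, l426, l421, l418, l7703, l1210, l1209, l4968, l4967, l3008, l5035, l12135, l5034, l4502, l10801, o121, o99, o119, o804, o853, o927, l12807, l3303, l12804, l12806, l11977, l3766, l12805, l10680, l4057, l1021, l6465, o3895, o3909, l3081, l4746, l4019] l12808 := rupP (by decide +kernel)
theorem r12809 : PImp [l4763, l9155, l7859, o6575, l4703, o3947] l12809 := rupP (by decide +kernel)
theorem r12810 : PImp [l4763, l1412, l433, l426, l421, l418, l325, l3303, l5672, o2496, o2500, l12809, l4710, l407, o3962, l4705, l4726, l4723] l12810 := rupP (by decide +kernel)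
theorem r12811 : PImp [l1412, l433, l426, l421, l418, l429, l1210, l1209, l4969, l4968, l4967, l4966, l3008, l325, l12754, l12757, l12800, l12810, l3308, l8045, l9155, l9156, l5267, l5672] l12811 := rupP (by decide +kernel)
theorem r12812 : PImp [l11466, l12135, l3927, l12696, l11371, l7703, l12697, o3469, l12252, l12226, l12300, l476, l472, l12277, l3933, l12239, l12174, l5035, l4834, l4836, l1412, l433, l429, l1210, l3444, l3427, l3439, o4537, l494, l490, l12801, o5407, o5513, o2393, o1160, o1132, l1243, l1242, o4540, o4529, o4550, l4967, o351, o352, o1159, o1152, o1575, o358, l2590, l5780, o8988, l12811, l4502, l12808, o99, o119, o804, l4850, l3762, l12807, o2780, o2781, l12806, l3800] l12812 := rupP (by decide +kernel)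
theorem r12813 : PImp [l4083, l4610, o9057, l2545] l12813 := rupP (by decide +kernel)
theorem r12814 : PImp [l12148, o1647, l12798, o1610, l7207, o4133, o4123, o1614, o1530, o6247, l7059, o2548, l1085] l12814 := rupP (by decide +kernel)
theorem r12815 : PImp [l5034, l3303, l3248, l12814, l12805, o2451, l6465] l12815 := rupP (by decide +kernel)
theorem r12816 : PImp [o2393, l3927, o1160, l11466, l11371, l12277, l3933, o1132, l1243, l1242, l12696, l7703, l12697, o3469, l12300, l1412, l433, l429, l1210, l3444, l494, l490, o4537, l3439, l3427, l426, l421, l418, l1209, l4968, l5035, l4834, l4836, l4967, l476, l472, l12239, l12174, l12226, l12252, l3008, l12135, l12801, o5513, l12813, o358, l2590, l5780, l12812, o8988, l4871, l12811, o2764, o2771, l5034, l4502, l10801, l1021, o99, o804, o869, l12815, l7120, o3895, l4060, l5859, l10756] l12816 := rupP (by decide +kernel)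
theorem r12817 : PImp [l12142, l4943, l12184, o2951, o3019, o3005, o7963, o8697, l1104] l12817 := rupP (by decide +kernel)
theorem r12818 : PImp [l11466, l11371, l12277, l3933, o1132, l12142, l12696, l2820, l404, l7703, l12697, o3506, l12225, l12227, l12248, o340, o5167, l1242, o3469, l12300, l1412, l433, l429, l1210, l3444, l3439, l1209, l4969, l476, o4494, l4967, l4966, o3391, l472, l12239, l12174, o1116, o1452, o1090, o1117, o1465, l3008, l325, l464, o4440, o4438, o5258, o5251, l3607, o271, l5751, o7694, o1106, l12817, l12816, l12133, o1912, l9109, o5407, l7190, o5286, l4082, l4080, l10492, o7903, o8866, l9017, o8484] l12818 := rupP (by decide +kernel)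
theorem r12819 : PImp [l12142, l1243, l11371, l12277, l3933, l476, o5306, o5303, o5139, l3613, o290, l2494, o1106, l12782, l11914, o8148] l12819 := rupP (by decide +kernel)
theorem r12820 : PImp [l12142, l11466, l11371, l12696, l2820, l404, l7703, l12697, o3506, l12225, l12227, o5167, l1243, l1242, o3469, l12300, l1412, l433, l429, l1210, l3444, l3439, l3427, l1209, l4969, l4968, l476, o4494, l4966, o3391, l472, l12277, l3933, l12239, l12174, l12252, o1116, o1452, o1090, o1117, o1465, l5035, l12819, l464, o4440, o4438, o5258, o5251, l3607, l12818, o271, l5751, o7694, l3318, l3319, l3317, o1106, l12766, l12817, l12730, l6707, o4576, o5729, l11402] l12820 := rupP (by decide +kernel)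
theorem r12821 : PImp [l3303, l433, l426, l421, l418, l10804, l7053, l12079, o3906, l4071] l12821 := rupP (by decide +kernel)
theorem r12822 : PImp [l10454, l1412, l433, l426, l421, l418, l3303, l12821, l4763, l10086, l7772, o3944, o3962, l5655, l1116, l4726, l4723] l12822 := rupP (by decide +kernel)
theorem r12823 : PImp [l433, l426, l421, l418, l3308, l11524, l10804, l5847, o3938, l3310, l3082] l12823 := rupP (by decide +kernel)
theorem r12824 : PImp [l3303, l10454, l433, l426, l421, l418, l10804, l7053, l12079, o3906, l4070] l12824 := rupP (by decide +kernel)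
theorem r12825 : PImp [l1243, l7703, l1412, l433, l429, l1210, l1209, l4969, l4968, l4967, l4966, l3008, l325, o4576, l5525, l2582, o6436, l9152, l12799, l12823, l12822, l12824, l10086, l12810] l12825 := rupP (by decide +kernel)
theorem r12826 : PImp [l5035, l12135, o2393, l12825, o5513, l12813, l12708, o358] l12826 := rupP (by decide +kernel)
theorem r12827 : PImp [l494, l490, l3143, l1242, l7703, l1412, l433, l429, l1210, l1209, l4969, l4967, l4966, l3008, l325, l5035, o1160, l12826, o1912, l9109, o1975, o5513, l7190, o5286, l4083, l4080, l10492, o9178, o7903, o8957, l9017] l12827 := rupP (by decide +kernel)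
theorem r12828 : PImp [l12142, l11466, l11371, l12696, l2820, l404, l7703, l12697, o3506, l12225, l12227, l12248, o3469, l12239, o297, o340, o5167, l1243, l1242, l476, l2734, l12300, l1412, l433, l429, l1210, l3444, l3439, l3427, l1209, l4968, l472, o4482, o4494, o4491, o3391, l12277, l3933, l12174, l12226, l12252, o3691, o1116, o1452, o1090, o1117, o1465, l3927, l5035, l12820, l6738, l2314, o2278, l7352, o5300, o5303, l10643, o4741, o4745, l3607, o271, l5751, o7694, l737, l12817, l12827, l3319, l3317, l12786, l12730, l6707, l6007, l2562] l12828 := rupP (by decide +kernel)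
theorem r12829 : PImp [l5034, l433, l429, l1209, l426, l421, l4968, l3303, l10798, l9514, l5265, l8479, l8083] l12829 := rupP (by decide +kernel)
theorem r12830 : PImp [o4576, l11371, l12277, l3933, o1132, l1242, l7703, l433, l429, l1210, l4968, l4967, l5035, l5034, l4502, l10801, o99, l12829, l3308, o1644, o1647, l12798, o1758, l12797, l1085, l3991, l9096, l3091, l11568] l12830 := rupP (by decide +kernel)
theorem r12831 : PImp [l10086, l4758, l4753] l12831 := rupP (by decide +kernel)
theorem r12832 : PImp [l1412, l433, l426, l421, l418, l429, l4763, l3954, l7772, o945, o928, o3936, o3944, o3938, l12831, l3308, o1644, l9155, o1760, o6015, l10776, l5043] l12832 := rupP (by decide +kernel)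
theorem r12833 : PImp [l418, l3303, l12079, l7053, l4070, o3906] l12833 := rupP (by decide +kernel)
theorem r12834 : PImp [l7703, l1412, l433, l429, l1209, l4969, l5525, l2582, o4576, l9152, o6436, l1243, l1242, l426, l421, l418, l1210, l4967, l4966, o4498, l3008, l325, l12830, l12832, l12754, l10454, l11980, l12833, l3308, l5847, o3938, l3310, l3082] l12834 := rupP (by decide +kernel)
theorem r12835 : PImp [l12142, l429, o4440, o4438, o5258, o5251, l3607, o271, o7694, l12817] l12835 := rupP (by decide +kernel)
theorem r12836 : PImp [l11371, l12277, l3933, o1116, l476, o5303, l12819, l7352, l6738, l2314] l12836 := rupP (by decide +kernel)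
theorem r12837 : PImp [l5034, l433, l429, l1209, l3303, l8479, l9514, o2494, l5265, l3986, l4055, o3952] l12837 := rupP (by decide +kernel)
theorem r12838 : PImp [l1242, l7703, l1412, l433, l429, l1210, l4968, l4967, l5035, l5034, l4502, l10801, o99, o804, l11974, o947, l4008, l12837, l3308, l7120, l12798, l11977, l1085, l3991, l4049, l9096, l713] l12838 := rupP (by decide +kernel)
theorem r12839 : PImp [l4763, l1412, l433, l426, l421, l418, l429, l325, l3303, l12831, l5672, o3969, o3938, o3964, o2496, o2506, l4698, l4710, l4991] l12839 := rupP (by decide +kernel)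
theorem r12840 : PImp [l4763, l4008, l433, l4968, l4548, l9102, o6032, l4693, o5093] l12840 := rupP (by decide +kernel)
theorem r12841 : PImp [l3927, o1160, l11466, l11371, l12277, l3933, o1132, l7703, l12696, l12697, o351, l5035, o3469, l12239, o305, o799, l12135, l12300, l1412, l433, l429, l1210, l3444, o4540, o3477, l12252, l12249, l12213, l6736, l3216, o1969, o2367, o1159, o1152, o1575, l7174, l1594, l644, o1970, l485, l2820, l404, o3506, l12225, l12227, l12248, o340, l12247, o5167, l1243, l1242, l12212, o4529, l3439, l3427, l426, l421, l418, l1209, l4969, l4968, l4834, l4836, l4967, l4966, o4498, l476, l472, l12174, l12226, o1158, l3008, l325, o2393, l12834, o5513, o5407, l9140, o358, l12708, o9147, o3242, o8988, l12838, l12754, l3954, l12832, o1597, l12839, l3308, l7118, l9155, o1647, l3096, o2568, l7207, o124, l12840, l9156, l5267, l5672] l12841 := rupP (by decide +kernel)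
theorem r12842 : PImp [l11466, l11371, l12696, l7703, l12697, o3469, l12252, o3477, l12249, l485, l2820, l404, o3506, l12213, l12225, l12227, l12300, l12277, l12247, o5167, l1242, l12212, l1412, l433, l429, l1210, l3444, l3439, l1209, l4969, l4967, l4966, l476, l472, l3933, l12239, l12174, l3008, l325, o1132, l12841, l12133, o1912, l9109, o5407, l7190, o5286, l4082, l4080, l10492, o8866, o8484, o7903, o7850] l12842 := rupP (by decide +kernel)
theorem r12843 : PImp [l12696, l7703, l11466, l11371, l12697, o3469, l12300, l1412, l433, l429, l1210, l3444, l494, l490, o4540, l3439, l3427, l1209, l4969, l4968, l476, o4494, o3477, l2832, o3396, o3391, l472, l12277, l3933, l12239, l12174, l12252, o3696, o3694, o3691, l2820, l404, o3506, o351, o1116, o1452, o1090, o1159, l3927, o1152, o1569, o1489, o1117, o1465, l5035, l12123, l11453, l12247, l12249, o5167, o5332, o5456, l2734, l485, l12212, l12213, l1242, l1243, l10508, l12225, o257, o250, o340, o297, l4438, l12227, o671, o633, o708, o688, o694, o275, l12725, o5259, o5266, o5256, l732, o5665, o5667, l2293, o5632, l3556, l12142, o2310, o2312, o8207, l3228,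 l3565, o742, o638, l4811, o8184, o1526, l12745, l12795, l12828, l6736, l3216, l12836, l464, l3607, o271, l5751, o1106, l12835, l12842, l3319, l3317, l12776, l12786, o1912, o1975, l12790, o5513, l12273, l9221] l12843 := rupP (by decide +kernel)
theorem r12844 : PImp [l11795, l11372, l1243, o5169] l12844 := rupP (by decide +kernel)
theorem r12845 : PImp [l12696, l11466, l476, l472, l11371, l7703, l12697, o3469, o3477, l12300, l1412, l433, o4482, l429, l12843, l12844] l12845 := rupP (by decide +kernel)
theorem r12846 : PImp [l485, l483, o3469, l12307, l8893, l5039, o301] l12846 := rupP (by decide +kernel)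
theorem r12847 : PImp [l11371, l476, l485, l12846, l2846, l12252, l11372, l12249] l12847 := rupP (by decide +kernel)
theorem r12848 : PImp [l12123, l11371, l12277, o1117, l3933, o1124, o1565, l12847, o5339, o1116, o1452, o1090, o1465, o1152, o1485, l476, l472, l11453, l12135, l5039, l12241, o301, o299, l390, l2832, l8893, o3469, o3691, l12252, l12300, l12174, o3391, l12122, l12249, l6253, o5333, l12213, o5358, o5345, o5740, l12225, o8798, l3440, l7167, o297, l4438, l12227, o3774, o8996, o3723, l4192, o688, o694, o8770, l4197, o272, l11625, l7982, l10584, l9048, o5662, o2306, o2269, o8206, o8229, o273, o5311, l3593] l12848 := rupP (by decide +kernel)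
theorem r12849 : PImp [l11371, l12277, l3008, o3469, l3031, l12266, l8893, l12264, l1102, l1146] l12849 := rupP (by decide +kernel)
theorem r12850 : PImp [l12696, l11466, l11371, l12277, o1117, l3933, o1124, o1565, l476, l472, l3927, l7703, l12123, l12845, l12848, l12849, l2846, l12300, l1412, l433, o4482, l429, l12844] l12850 := rupP (by decide +kernel)
theorem r12851 : PImp [l12247, l12178] l12851 := rupP (by decide +kernel)
theorem r12852 : PImp [l11371, l12277, l3933, o1132, l12314, l12195, o2393, l11963, o358, o312, l12708, o8978, o5511, o5810, l8107, l2708, o8611, o8531] l12852 := rupP (by decide +kernel)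
theorem r12853 : PImp [l11371, l12277, l3933, o1132, o1160, l12852, l7710, l9109, l4082, l12618, o5407, l10401] l12853 := rupP (by decide +kernel)
theorem r12854 : PImp [l12736, l11966] l12854 := rupP (by decide +kernel)
theorem r12855 : PImp [l12696, l2820, l3374, l11301, l11466, o5381, o4968, o4745, l404, l11462, l3927, l5035, l7703, l5178, o4317, l5726, l5721, o5457, o1159, l11371, o1152, o1569, l11453, o351, o4898, l1210, l3444, o5195, l1243, l3427, l12277, o1117, l3933, o1124, o1565, l12123, o5456, l755, o783, o3468, o8656, o5458, l483, l485, l12225, o340, l12135, o3467, o8987, o8679, l12227, l1242, l3439, l4793, l8382, l12314, l1209, o4910, l4966, o4904, l4969, l4968, l12142, o1116, o1452, o1090, o1465, l3008, l325, l11199, l12716, o8602, o5265, l12853, l3317, l12854, o1912, l12790, l12273, l2617, l2560] l12855 := rupP (by decide +kernel)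
theorem r12856 : PImp [l11371, l12314, l12195, o2393, l11963, o358, l12750, l12708, o5513] l12856 := rupP (by decide +kernel)
theorem r12857 : PImp [l11371, l12277, l3933, o1132, o1160, l12856, l7710, l9109, l4082, l12618, o5407, l10401] l12857 := rupP (by decide +kernel)
theorem r12858 : PImp [l390, l485, l12213, l12225, l12212, l11654, l6172, l5704] l12858 := rupP (by decide +kernel)
theorem r12859 : PImp [l11466, l11371, l5035, l12696, l2820, l404, l3374, l11301, l11462, l7703, l5178, o4317, l5726, o4898, l1210, l3927, l8382, l12277, l12851, l483, l485, l390, l12213, l12225, l12227, l12314, o297, l4438, o340, l2832, o351, l3444, o5195, l1243, l3427, o1117, l3933, o1124, o1565, l12123, l5721, o5456, l755, o783, o5457, o5458, l476, l2734, o5332, l1242, l3439, l4793, l1209, o4910, l4966, o4904, l4969, l4968, o1465, o1116, o1159, o1152, o1569, l3008, l325, l11453, l12135, o3467, o3468, o3469, l12194, o3460, o3461, o3449, o8679, o8987, o8656, o8995, o9020, o8770, o8814, o2269, l7352, l12855, l12857, l3319, l12854, o1975, l12858, o5513, l12273, l9221] l12859 := rupP (by decide +kernel)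
theorem r12860 : PImp [l5178, l3303, l10738, l5977, l2779, l4760, l4761] l12860 := rupP (by decide +kernel)
theorem r12861 : PImp [l12798, o4123, o4140, l5713, o1530, o6309, l7059, o2528, l1085] l12861 := rupP (by decide +kernel)
theorem r12862 : PImp [o4576, l11371, l12277, l3933, o1132, l7703, l1210, l5035, l5034, l4502, o99, o804, l12860, l3308, o1644, o1647, o1758, l12861, l9786, l5031, l5033] l12862 := rupP (by decide +kernel)
theorem r12863 : PImp [l9099, l9755, l8870, l3091, l1084] l12863 := rupP (by decide +kernel)
theorem r12864 : PImp [l4966, l3008, l325, l12863, l12770, l12762] l12864 := rupP (by decide +kernel)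
theorem r12865 : PImp [o8600, o7897] l12865 := rupP (by decide +kernel)
theorem r12866 : PImp [o4576, l11371, l12277, l3933, o1132, l7703, l1210, l5035, l5034, l4502, l12862, o99, o804, l12860, l3308, l12148, l12055, o1647, o1732, l12861] l12866 := rupP (by decide +kernel)
theorem r12867 : PImp [l476, l2734, l7703, l1210, l1209, l4966, l5178, l5274, l11371, l12277, l3933, o1116, l3008, l325, o4438, o5251, l12865, l2291, o3005, o8814, l1446, l598, o6756, l12866, l12864, l12823] l12867 := rupP (by decide +kernel)
theorem r12868 : PImp [l1243, l3228, l11371, l12277, l3933, o1116, o1452, o1090, o1117, o1465, l466, l12819, l3598, l4821] l12868 := rupP (by decide +kernel)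
theorem r12869 : PImp [l1243, l1242, l11371, l7703, l1210, l12314, l12142, l12277, o1117, o1465, l3008, l325, l12868, o4438, o5251, l12865, o3005, l1446, l598, o7694, l12026, o358, l2574, l12867, l2591] l12869 := rupP (by decide +kernel)
theorem r12870 : PImp [l12142, l11371, l12277, l3933, o1116, o1452, o1090, l11064, o2951, l8000, l476, l2734, l1243, l1242, l7703, l1210, l1209, l4966, l5178, l5274, o1117, o1465, l3008, l325, l12869, l10454, l6738, l4923, l2314, o4266, l7352, l8399, l12716, o5300, o3005, l5751, o7694, o6756, l12026, o358, l2574, l2591, l12866, l12823, l12074, l12770, l12762] l12870 := rupP (by decide +kernel)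
theorem r12871 : PImp [l4966, l3008, l325, l12864, l12823] l12871 := rupP (by decide +kernel)
theorem r12872 : PImp [l3303, l5034, l4526, l3008, l6958, l6476, o3978, o2501, o2569, l12805, l3968, o1647, o947, l6061, o6280] l12872 := rupP (by decide +kernel)
theorem r12873 : PImp [l5178, l5274, l3303, l12872, l5977, l2779, l4760, l4761] l12873 := rupP (by decide +kernel)
theorem r12874 : PImp [o2393, l12142, l11371, l12277, l3933, o1116, o1452, o1090, l11064, o2951, l1243, l1242, l5035, o352, l11453, o2306, o1959, l7703, l1210, l12314, l1209, l5178, l5274, o1117, o1465, l12135, o8656, o3105, l12870, o5513, l12813, o358, l12708, o9147, l12868, o3241, o8988, o4438, o5251, l12865, o3005, l8001, l1446, l598, o6756, l12871, l5034, l4502, o101, o119, o804, l12873, l3308, l7120, l12055, o3895, l10815, l5859] l12874 := rupP (by decide +kernel)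
theorem r12875 : PImp [l6958, l12768, o3938, o4036, o1594, l7100, l5713, o1647] l12875 := rupP (by decide +kernel)
theorem r12876 : PImp [l5274, l3303, l12875, l5977, l2779, l4760, l4761] l12876 := rupP (by decide +kernel)
theorem r12877 : PImp [l7703, l1210, l5178, l5035, l5034, l4502, o99, o123, o804, l12876, l3308, l12148, o1647, o1732, l12861, l10068, l5031, l5033] l12877 := rupP (by decide +kernel)
theorem r12878 : PImp [l3303, l12863, l8043, l7772, o3938, l4758, l4753] l12878 := rupP (by decide +kernel)
theorem r12879 : PImp [l1084, l5847, l3071, l3094] l12879 := rupP (by decide +kernel)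
theorem r12880 : PImp [l476, l2734, l483, l1243, l1242, l11371, l7703, l1210, l12314, l1209, l12142, l5178, l5274, l12277, l3933, o1116, o1452, o1090, o1117, o1465, l3008, l325, l12868, o4438, o5251, l12865, l2291, o3005, l2322, o8814, l1446, l598, o6756, l11199, o8602, o5265, l12877, o25, l12878, l3308, o1640, l12879, l3965, l7772, l9155, o4151, l7199, o2516, o6025] l12880 := rupP (by decide +kernel)
theorem r12881 : PImp [l1246, l3303, l12074, l8043, l5672, l7772, o2460, o3938, l4753] l12881 := rupP (by decide +kernel)
theorem r12882 : PImp [l11371, l12277, l3933, o1132, l6226, l12142, l5035, o708, o275, o1116, o1452, o1090, l11064, o2951, l8000, o688, l476, l2734, l483, l1243, l1242, l7703, l1210, l1209, l4966, l5178, l5274, o1117, o1465, l3008, l325, o4576, l2574, l2591, l12880, l10454, l6738, l4923, l2314, l12877, o4266, l7352, l8399, l12716, o5300, l2291, o3671, l10878, o3005, l5751, o25, l2322, o6756, o8602, o5265, l12881, l3308, o1640, l12879, l9155, l3965, l7772, l7199, o2516, o4151, o6025] l12882 := rupP (by decide +kernel)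
theorem r12883 : PImp [l12768, l11974, o1594] l12883 := rupP (by decide +kernel)
theorem r12884 : PImp [l3303, l5977, l2779, l4760, l4761] l12884 := rupP (by decide +kernel)
theorem r12885 : PImp [l5274, l12884, l6958, l12768, l12883, o3938, o4012, o933, o1594, l7100, l12148, o1647, o6146, l8782, o2672, l8265] l12885 := rupP (by decide +kernel)
theorem r12886 : PImp [l5034, l4502, o102, o101, o123, o119, o804, l12885, l3308, l7120, l12055, o3895, l10815, l5859] l12886 := rupP (by decide +kernel)
theorem r12887 : PImp [o2393, l6226, l12142, l5035, o708, o275, l11371, l12277, l3933, o1116, o1452, o1090, l11064, o2951, o688, l483, l1243, l1242, l7703, l1210, l12314, l1209, l4966, l5178, l5274, o1117, o1465, l3008, l325, l12135, l12882, o5513, l12708, o9147, o8679, l12868, o8988, o3104, o3824, o4438, o5251, l12865, l2291, o3005, l2322, l1446, l598, o6756, l11199, o8602, o5265, l12886, o25, l12878, l3308, o1640, l12879, l3965, l7772, l9155, o4151, l7199, o2516, o6025] l12887 := rupP (by decide +kernel)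
theorem r12888 : PImp [l1246, l1244] l12888 := rupP (by decide +kernel)
theorem r12889 : PImp [l5035, o352, l7703, l3008, l325, l12026, l12887, o358] l12889 := rupP (by decide +kernel)
theorem r12890 : PImp [o1647, l11371, l12277, l3933, o1132, l2574, l12861, l2591] l12890 := rupP (by decide +kernel)
theorem r12891 : PImp [l5034, l5178, l5274, l11371, l3008, l3303, l12884, l9514, l6709, l12837, o2565, o2536, o2460, l7050, l4008, o818, l12805, o3997, l3956, o947, o825, o1647, o6209, l12890, o5513, o9147, o8988, o2687, l8782, o6280] l12891 := rupP (by decide +kernel)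
theorem r12892 : PImp [l10068, l5031, l5033] l12892 := rupP (by decide +kernel)
theorem r12893 : PImp [l12888, l7703, l1210, l5178, l5035, l5034, l4502, o101, o99, o119, o804, l12891, l3308, o1644, o1758, l12892, l12890, o5513, o9147, o8988, l7120, l10815, o3895, l5859] l12893 := rupP (by decide +kernel)
theorem r12894 : PImp [l12863, l10454, l12074] l12894 := rupP (by decide +kernel)
theorem r12895 : PImp [l12888, l1209, l4966, l3008, l325, l3303, l12894, l4763, l10731, l5672, l4008, o2496, o2506, l4732, o2460, o2479, o3924, l4753, l4715, o3938, o3964, l4710, l4991] l12895 := rupP (by decide +kernel)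
theorem r12896 : PImp [l5713, l7207, o4222, o4192, o6031, o6030, o6011] l12896 := rupP (by decide +kernel)
theorem r12897 : PImp [l3308, l5982, o3895, o2464, l5656, l5043] l12897 := rupP (by decide +kernel)
theorem r12898 : PImp [l3308, l9155, o124, o802, l4526, l12897, o4033, l7118, o6225, o6294] l12898 := rupP (by decide +kernel)
theorem r12899 : PImp [o5729, o5823, l2574, l12896, l2591] l12899 := rupP (by decide +kernel)
theorem r12900 : PImp [l12888, l7703, l5178, o4329, l5035, l5725, l4853, o4317, l5726, l4875, o352, l1209, o4887, l5274, l11371, l12277, o1117, l3933, o1124, o1565, o358, l12893, o35, l12895, l3308, l12148, o1644, o1647, l12879, l9155, l3954, o2547, o2540, o2562, o1597, o946, o931, l12898, l12899, o5513, o9147, o8988, o2685, l8782, o6280] l12900 := rupP (by decide +kernel)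
theorem r12901 : PImp [l3303, l10798, l9514, o2460] l12901 := rupP (by decide +kernel)
theorem r12902 : PImp [l6226, l12142, l11371, l12277, l3933, o1116, o1452, o1090, l11064, o2951, l476, l2734, l483, l1243, l3228, o1117, o1465, l3545, o8698, o5591, o5259, o5256, l11131, l3565, o8187, l4811, o1096, l12836, o4438, o5251, l3602, l12865, o7694, o3005] l12902 := rupP (by decide +kernel)
theorem r12903 : PImp [l5034, o4576, l11371, l12277, l3933, o1132, l12901, l3308, o1644, o1647, l12798, l12052, o1758, l12797] l12903 := rupP (by decide +kernel)
theorem r12904 : PImp [l12888, l7703, l1210, l5178, l5035, l4502, o99, l12903, l12884, l12892] l12904 := rupP (by decide +kernel)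
theorem r12905 : PImp [l3927, o1160, l7703, l12850, l5178, l12696, l2820, l3374, l11301, o4329, l404, l11462, l5035, l5725, l4853, o708, o275, o351, o4898, l1210, l3444, o5195, l1243, l3427, l11466, l11371, l12277, o1117, l3933, o1124, o1565, l12123, o4317, l5726, l5721, o5456, l755, o783, o5457, o5458, l1242, l3439, l4793, l12314, o305, o799, l8382, l12135, o1969, o2367, l11453, l6226, o2306, o1959, l1209, o4904, l4969, l4968, o5380, o4977, l3351, o4887, o4910, l5274, o1159, o1152, o1569, o1158, o2393, l12874, l12889, l1594, o3107, o3695, l12900, l4083, l4080, l9140, l6007, l7490, o4576, o5823, l9152, o8969, o3740, l12902, l12904, l12895, l3308, l12879, l9155, l5817, l3094, o3938, l4518, l5982, l9157, l5071] l12905 := rupP (by decide +kernel)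
theorem r12906 : PImp [l1242, l1210, l5102, l12704, l3236, o1899, l5173, l3238, o2399, l4578, o1079, o5121, o5231, l2355, l10553] l12906 := rupP (by decide +kernel)
theorem r12907 : PImp [l11366, l5100] l12907 := rupP (by decide +kernel)
theorem r12908 : PImp [o351, l5035, l12696, l2820, l3374, l7703, l11301, o4898, l1210, l3444, o5195, l1242, o4904, l4969, l10508, o257, o672, l4968, l12906, o1078, l12907, l3236, l12793, l12794] l12908 := rupP (by decide +kernel)
theorem r12909 : PImp [l476, l2734, l11371, l12314, l12142, l5893, l3930, l12836, o5251, l12865, o3005, o7694, l1446] l12909 := rupP (by decide +kernel)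
theorem r12910 : PImp [l11371, l12277, l3933, o1116, o1452, o1090, o4438, o4266, l12868, l4923] l12910 := rupP (by decide +kernel)
theorem r12911 : PImp [l11371, o1076, l12907, l3236, l12144, l10549, l12793, l11369, o654, o258, l5083, l6423] l12911 := rupP (by decide +kernel)
theorem r12912 : PImp [l11466, l7703, l12850, l5178, l6226, l12696, l2820, l3374, l11301, o4898, l11371, l1210, l12314, l11453, o2306, l5035, l404, l11462, o4317, l5726, o1959, l3927, l5721, l4793, l3444, l3427, o5195, o708, o275, l12277, l3933, o1116, o1452, o1090, l8000, l12910, l12142, l11064, o2951, o351, l1242, o4904, l4969, l10508, o257, o672, l476, l2734, l3439, o305, o799, l8382, l3228, l1209, o4910, l4966, l4968, o1117, o1465, l3008, l325, o1160, l12905, l7710, l9109, o1975, l4083, o5513, o9178, o9099, o8957, l4602, l5893, l12909, l3930, l12908, l12836, o5251, l12865, o3005, l1446, o6756, l12911, l5102, l12704, l3236, o1899, l5173, l3016, l2718, l2519, l3238, o2399, o1079, o4421, o5233, l4488, o7660, l4079] l12912 := rupP (by decide +kernel)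
theorem r12913 : PImp [l1242, l5102, l12704, l3316, o1899, l2718, o2399, o7514, o7419] l12913 := rupP (by decide +kernel)
theorem r12914 : PImp [l12913, l3926, o1078, l12907, l3236, l10549, l12793, o1953, l5153, l1435, o5416, o8889] l12914 := rupP (by decide +kernel)
theorem r12915 : PImp [o876, l3303, l3099, l6709, l9519, l7050, o2479, o4036, l5739] l12915 := rupP (by decide +kernel)
theorem r12916 : PImp [l5034, l4526, l11371, l12314, l12273, l12252, l1242, l12277, l3933, o853, o876, l12915, l3308, l12149, o1644, l12798, o1758, o4120, o4123, o4140, o8470, l3040, o2670, l3976, o6252, o4115, l3099, l4983, o865, o6309, o8469] l12916 := rupP (by decide +kernel)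
theorem r12917 : PImp [l12888, l7703, l1210, l5178, l5035, l4502, l4504, o99, o804, l12916, l12884, l12892] l12917 := rupP (by decide +kernel)
theorem r12918 : PImp [l3308, l5982, l9157, l5071] l12918 := rupP (by decide +kernel)
theorem r12919 : PImp [l11371, l3318, o3391, l12252, o351, l5035, l1242, l10508, o257, o672, l7703, l1210, l12314, o297, o340, l1243, l11453, o2306, o1959, l3228, l1209, l5178, l5274, l12135, o358, o312, o259, l12736, l12133, l12730, o1975, l12273, l2576, o4576, o5729, l2584, o8566, l12914, l12909, l12917, l12895, l3308, l12879, l9155, l4763, l3095, l12918, o3952, l7118, l4513, l4995] l12919 := rupP (by decide +kernel)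
theorem r12920 : PImp [l5035, l4083, l7703, l3008, l12031, l6706, o5513] l12920 := rupP (by decide +kernel)
theorem r12921 : PImp [o3391, l11466, l11371, l12226, l12252, l5035, l483, l485, l12225, o340, o708, o275, l12227, l12248, l7703, l12696, l2820, l12850, l3374, l11301, o4898, l1210, l12314, o297, l3444, o5195, l3439, l3427, l404, l11462, l5178, o4317, l5726, l3927, l5721, l4793, l8382, l11453, l6226, o2306, o1959, l1209, o4904, l4969, l4968, o4476, o5380, o4977, l3351, o4887, l12142, o4910, l12277, l3933, o1116, o1452, o1090, o1117, o1465, l12182, l12190, l8000, l11064, o2951, l12910, l12912, l3318, l12919, l4082, l12920, l12029, o4576, l7935, o6731, o6478] l12921 := rupP (by decide +kernel)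
theorem r12922 : PImp [l10815, l5859] l12922 := rupP (by decide +kernel)
theorem r12923 : PImp [l5034, l1210, l5178, o3104, o3113, l12873, l3308, l7120, o3895, o3893, l12922, l10068, l5799, l5029] l12923 := rupP (by decide +kernel)
theorem r12924 : PImp [l12860, l12873, o6732] l12924 := rupP (by decide +kernel)
theorem r12925 : PImp [l11371, l12277, o1117, l3933, o853, o921, o6175, l6059, l4060, o2639, o2754] l12925 := rupP (by decide +kernel)
theorem r12926 : PImp [l7710, l11371, l12277, l3933, o1132, l7703, l1210, l5274, o4452, l5178, l5035, l12123, l12135, l12811, l5034, l4502, o101, o99, o98, o119, o804, l12923, l12219, l12924, l3308, l7120, o1644, l11977, o3995, o3895, o3893, o1757, l12925, l5799] l12926 := rupP (by decide +kernel)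
theorem r12927 : PImp [o271, l12142, l12884, l12885, l12883, o6756, l12817] l12927 := rupP (by decide +kernel)
theorem r12928 : PImp [l7703, l1210, l5178, l5035, l5034, l4502, o102, o101, o123, o119, o804, l12927, l3308, l7120, o3895, o3893, l12922, l10068, l5799, l5029] l12928 := rupP (by decide +kernel)
theorem r12929 : PImp [l4966, l3008, l325, l12754, l12770, l12772, l3308, l9155, l3095, l7199, o6336, l7859, o3893, l6130, l5043] l12929 := rupP (by decide +kernel)
theorem r12930 : PImp [o3104, l12928] l12930 := rupP (by decide +kernel)
theorem r12931 : PImp [l7710, l12750, o5407, l11371, l12277, l3933, o1132, o1106, l7703, l1210, l1209, l5274, o4452, l5178, o1116, o1452, o1090, o1117, o1465, l5035, l12123, l12135, l12926, l12929, l5034, l4502, o102, o99, o98, o123, o804, l12927, l3308, l7120, o1644, o3995, o3895, o3893, o1757, l12930, l12219, l11977, l5799, l12925] l12931 := rupP (by decide +kernel)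
theorem r12932 : PImp [l3303, l12884, o853, o927, l8251, l4057, l6465, l2779, l5265, l5676] l12932 := rupP (by decide +kernel)
theorem r12933 : PImp [l5034, o2393, o4329, l12135, o3104, o3094, l12932, l3308, l7120, l11977, o3893, l10815, l5799] l12933 := rupP (by decide +kernel)
theorem r12934 : PImp [l1242, o1647, l11977, l12798, l7207, l3991, o4105, o947, l3986, l4008] l12934 := rupP (by decide +kernel)
theorem r12935 : PImp [l5034, l5274, l3303, l12884, l12934, l12805, l4057, l6465, l2779, l5265, l5676] l12935 := rupP (by decide +kernel)
theorem r12936 : PImp [l11371, l12277, l3933, o1132, l1243, l1242, l5274, o4452, l7703, l5178, l3008, l5035, l12123, l12135, l12811, l5034, l4502, o101, o99, o98, o120, o119, o804, l12933, l12935, l3308, l7120, o1644, l11977, o3995, o3895, o3893, o1757, l5799, l12925] l12936 := rupP (by decide +kernel)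
theorem r12937 : PImp [l5178, l12884, l12837, l11974, l4008, o947] l12937 := rupP (by decide +kernel)
theorem r12938 : PImp [o5407, l11371, l12277, l3933, o1132, l5274, o4452, l7703, l5178, l5035, l12123, l12135, l5034, l4502, o99, o98, o804, l12937, l3308, l7120, o1644, o1647, l11977, o3995, o3895, o3893, o1757, l10641, l5799, l1085, l12925, o2528] l12938 := rupP (by decide +kernel)
theorem r12939 : PImp [l7207, o1647, l5738, l4710, o5098] l12939 := rupP (by decide +kernel)
theorem r12940 : PImp [l4763, l4008, l1210, l1209, l3008, l325, l3303, l10731, l5672, o2496, l4732, o3924, l12939, o124, l4717, l4715] l12940 := rupP (by decide +kernel)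
theorem r12941 : PImp [l3308, l5982, o3895, l5267, l6130, l5071, l5656] l12941 := rupP (by decide +kernel)
theorem r12942 : PImp [l3927, o1160, l11466, l11371, l12277, l3933, l5035, l12696, l2820, l404, l3374, l11301, l11462, l7703, l5178, o4317, l5726, o4898, l1210, l8382, l12142, o1117, o1465, l12314, l5721, l4793, l3444, l3427, o5195, l476, l2734, o297, l11453, o2306, o1959, l3228, l12836, l464, l3607, l5751, o1106, o5251, l483, l485, o5258, o4438, o4904, o4440, o340, o5458, l1243, l1242, l3439, o352, o4329, l5725, l1209, o4910, l4966, l4969, l4968, o4476, o5381, o4972, o5380, o4977, l5274, o1116, o1452, o1090, o1124, o1565, o1159, o1152, o1575, o1569, l3008, l325, l12135, o358, l7710, l12750, o2393, o5513, o5407, l12708, o9147, o8679, o8988, o3824, l12931, l12835, l12936, l12938, l12754, l4763, l3954, o1597, l12940, l3308, l9155, l3095, l7859, l12941, o3952, l7118, l4513] l12942 := rupP (by decide +kernel)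
theorem r12943 : PImp [l5034, o4576, l11371, l12277, l3933, o1132, l1242, l7703, l12135, l12053, l3308, o1644, o1647, l12798, o1758, o4123, o4140, l12797, l5808, l12082, o1530, l12076, o6309, o8469] l12943 := rupP (by decide +kernel)
theorem r12944 : PImp [l5035, l7703, l5178, o4329, l5725, o4317, l5726, l1210, l4502, o99, l12943, l12884, l10068, l3308, l5033, l5799, o3888] l12944 := rupP (by decide +kernel)
theorem r12945 : PImp [l7703, l3008, l325, l12026, l1243, l1210, l1209, l4966, l5274, o4576, l5525, l7490, l9152, l12944, l12800, l12823, l12824, l10731, l7772, o3938, l4758, l4753] l12945 := rupP (by decide +kernel)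
theorem r12946 : PImp [o2393, l3927, o1160, l12696, l2820, l3374, l7703, l11301, o4898, l1210, l3444, o5195, l3439, l3427, l5035, l404, l11462, l5178, o4317, l5726, l5721, l4793, l8382, o4904, l4969, l4968, l3351, o4887, o4910, l11466, l12945, o5513, l12813] l12946 := rupP (by decide +kernel)
theorem r12947 : PImp [l5034, l4526, o4576, l3008, l3303, l12837, l10798, l9514, l4008, l5265, o2506, o947, l4695, l5655, o4143, o3944, l5808, l7100, o1647] l12947 := rupP (by decide +kernel)
theorem r12948 : PImp [l5034, l11371, l12277, l3933, o1132, l1242, l12947, l3308, o1644, o1647, l12798, o1758, o4105, l12797, l1085, l3991, l9096, l713, l4995, l5050, l4049] l12948 := rupP (by decide +kernel)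
theorem r12949 : PImp [l7703, l1210, l1209, l5178, l5274, l5035, l4502, o99, l12948, l12884, l10068, l3308, l5033, l5799, o3888] l12949 := rupP (by decide +kernel)
theorem r12950 : PImp [l4966, l5274, l3008, l325, l12754, l11980, l12879, l10454, l3308, l12833] l12950 := rupP (by decide +kernel)
theorem r12951 : PImp [l1210, l10731, l4758, l4753] l12951 := rupP (by decide +kernel)
theorem r12952 : PImp [l12942, l11466, l11371, l12277, l3933, l5035, l12696, l2820, l404, l3374, l11301, l11462, l7703, l5178, o4317, l5726, o4898, l1210, l3927, l8382, l12142, o1117, o1465, l12314, l5721, l4793, l3444, l3427, o5195, l476, l2734, o297, l11453, o2306, o1959, l3228, l12836, l464, l3607, l5751, o1106, o340, l483, l485, l1243, l3439, l1209, o4904, l4969, l4968, o5381, o4972, l3351, o4887, o4910, l5274, o1116, o1452, o1090, l3008, l325, l12135, l12026, l12835, l12946, l9140, o4576, l5525, l7490, l9152, l12949, l12950, l7772, o3938, l12951, l3308, l9155, l4517, l4518, l5982, l4548, l5267] l12952 := rupP (by decide +kernel)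
theorem r12953 : PImp [l11466, l11371, l12277, o1117, o1465, l7703, l12696, l2820, l3374, l11301, o4898, l1210, l12314, l5035, l404, l11462, l5178, o4317, l5726, l3927, l5721, l4793, l3444, l3427, o5195, l476, l2734, o297, l11453, o2306, o1959, l3228, l12836, l3439, l8382, l1209, o4910, l4966, o4904, l4969, l12142, l3933, l3008, l325, o1132, l12942, l4082, l4080, l12952, l12133, o1912, l9109, o5407, o5286, o8866, o8484, l9432, o7903, l9017] l12953 := rupP (by decide +kernel)
theorem r12954 : PImp [l11371, l12314, l12736, o278, o1912, l12730, l12273, l12790, o5591, o8209, l658] l12954 := rupP (by decide +kernel)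
theorem r12955 : PImp [l12850, l5035, l12696, l2820, l404, l3374, l11301, l11462, l7703, l5178, o4317, l5726, o4898, l1210, l3927, l8382, l11466, l11371, l12277, l12851, l483, l485, l476, l2734, l3444, o5195, l1243, l3427, l5721, l4793, l11453, l6226, o2306, o1959, l3228, l12314, l1209, o4904, l4968, l12142, o4910, l3933, o1116, o1452, o1090, o1117, o1465, l390, l2832, o3406, l12212, l12213, l12225, o340, l4438, o297, l12248, l12227, o708, o694, o688, o275, l12859, l12252, l12226, o3391, l12921, o7895, l3549, o5259, o5256, l3565, l4811, l12836, l3607, l12953, l3318, l3317, l12954, l4082, l12920, l12133, l12029, o5729, l11384, o8821] l12955 := rupP (by decide +kernel)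
theorem r12956 : PImp [l2846, l3228, l11371, l12277, l3933, o1116, o1452, o1090, o1117, o1465, l476, o5304, o5319, o5312, o5636, o4752, l12865, o3436, o3448, o3026, l3590, l3558, l5740] l12956 := rupP (by decide +kernel)
theorem r12957 : PImp [l11371, l12277, l3933, o1132, o1160, l12852, l12133, l7710, l9109, l4082, o5407, l12298, l12289, o8866] l12957 := rupP (by decide +kernel)
theorem r12958 : PImp [l11371, l5714, l12273, l2597, l12790] l12958 := rupP (by decide +kernel)
theorem r12959 : PImp [l5035, l12696, l12955, o3475, o3476, l3927, l11466, l11371, o1152, l2820, l12850, l3374, o5380, o1159, o1569, l7703, l11301, o4898, l1210, l12314, l2846, l12195, o351, l3444, o5195, l1243, l3427, l12277, o1117, l3933, o1124, o1565, l12123, l404, l11462, l5178, o4317, l5726, l5721, l8382, l12851, o5456, l755, o783, l483, l12245, l12276, o708, o275, o5381, o4972, l11800, o297, o688, l4438, o694, o5458, l12135, o8987, o8679, l12194, l12205, l12088, l3008, l325, o2867, o2882, l476, l2734, o5332, l3439, l4793, l11453, l6226, o2306, o1959, l1209, o4910, l4966, o4904, l4969, l4968, o4968, l12142, o1116, o1452,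 o1090, o1465, l12956, l1103, o5266, l6738, l8000, l2314, l4923, l7352, o4266, l12742, l12957, l3317, l12854, o1912, l12958, l7935, l11215, l11442] l12959 := rupP (by decide +kernel)
theorem r12960 : PImp [l11371, l12277, l3933, o1132, o1160, l12856, l12133, l7710, l9109, l4082, o5407, l12298, l12289, o8866] l12960 := rupP (by decide +kernel)
theorem r12961 : PImp [l4966, l11371, l5714, l12273, l6172, l3003, o4576, o6374] l12961 := rupP (by decide +kernel)
theorem r12962 : PImp [l12696, l2820, l12850, l3374, l7703, l11301, o4898, l1210, l3444, o5195, l1243, l3439, l3427, l5035, l404, l11462, l5178, o4317, l5726, l3927, l5721, l4793, l8382, o351, l11466, l11371, l12314, l1209, o4910, l4966, o4904, l4969, l4968, o5381, o4972, o5380, l12277, o1117, l3933, o1124, o1565, o1159, o1152, o1569, l3008, l325, l12123, l12135, l12851, l483, o5456, o5458, l755, o783, l12955, l2846, o3475, o3476, l12088, l12245, l12205, l11800, l12195, l12194, l12276, o8679, o8987, l12959, l5668, l12960, l12854, l12961, l7935, l11215, l11442] l12962 := rupP (by decide +kernel)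
theorem r12963 : PImp [l11371, l12277, l3008, l12264, l12844, o2874] l12963 := rupP (by decide +kernel)
theorem r12964 : PImp [l12696, l2820, l11466, l11371, l12277, o1117, l3933, o1124, o1565, l476, l7703, l12123, l12850, l3374, l11301, o4904, o4898, o4471, l1210, l12314, l12963, l12962, l3426, o301, o5364, l6253, l8369, l12300, o3469] l12964 := rupP (by decide +kernel)
theorem r12965 : PImp [l11466, l11371, l12277, l3933, o1132, o5168, l1243, l1242, l7703, l433, l429, l1210, l4969, l5035, l4836, l4967, o4498, l12696, l2820, o1117, o1124, o1566, o1565, o1159, l3927, o1152, o1575, l501, l3384, o5474, o5480, l4775, l4771, o8776, o8801, o8994, o8658, o3193, l11167, o3017, l11169, l8001] l12965 := rupP (by decide +kernel)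
theorem r12966 : PImp [l11466, l11371, l12696, l7703, l12697, o3469, l12252, o3477, l12300, l1412, l433, l429, l476, l472, o4482, l12963, l12249, o5168, l1242, l4969, l12212, l10508, l12213, l3927, o1158, o1152, l2820, l404, o3506, l485, l12225, o250, l12248, l12227, o351, l5035, o257, o672, l12702, l5102, l3236, l10496, l3238, o1899, l12277, l3933, o1105, o1142, l1210, l3444, o5468, o5345, l1243, l3439, o5470, l4967, l4966, l12239, l12174, l3008, l325, l12704, l3016, o3365, o3371, l12734, l2519, l2370, o4421, l5121, l4488, l7334, o335, o289, o7428, o5570, l12735, o7565] l12966 := rupP (by decide +kernel)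
theorem r12967 : PImp [l7703, l433, l429, l1210, l4968, l4967, l5035, l5034, l4502, l10801, o101, o119, o804, l12802, l7120, l12922, o3895] l12967 := rupP (by decide +kernel)
theorem r12968 : PImp [l5102, l3236, l7703, l433, l4969, l10508, l426, l421, l418, l4968, l429, l4967, l4966, l3008, l325, l12967, l12895, l12823, l10497, l2498, l2520, l12675, o4424, l4485, l4483] l12968 := rupP (by decide +kernel)
theorem r12969 : PImp [l7703, l4967, l1021, l433, l429, l1210, l426, l421, l4968, l5035, l4502, l10801, l5697, o804, l8247, l9514, o2460] l12969 := rupP (by decide +kernel)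
theorem r12970 : PImp [l9099, l1084, l3091] l12970 := rupP (by decide +kernel)
theorem r12971 : PImp [o2393, l3927, o1160, l11466, l11371, l12696, l7703, l12697, o3469, l12252, o3477, l12300, l1412, l433, l429, l476, l472, o4482, l12963, l12249, l485, l2820, l404, o3506, l12213, l12225, l12227, l12888, o1158, o1152, o5168, l1242, l4969, l12212, l10508, o250, l12248, o351, l5035, o257, o672, l12702, o4498, l12182, l12135, l1210, l3444, o5468, o5345, l3143, o1969, o2370, o2367, l494, l3136, o1970, o340, l1243, o4529, l3439, l3427, l426, l421, l418, l12277, l12851, l4968, l4834, l4836, l4967, l12239, o305, o799, o800, l3933, l12174, l12226, o352, o1117, o1124, o1565, l3008, l325, o358, l12708, o5511, o5017, l2574, o6456, l2591, l11321, l12965, o5380, l12966, l1594, l8001, l644, o2716, l1021, l12968, l12969, l12895, l3308, l12970, l12832, l9155, l7118, l3095, l3091, o2448, o3895, l9745, l4548, l5656] l12971 := rupP (by decide +kernel)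
theorem r12972 : PImp [l1242, l7703, l433, l429, l1210, l1209, l4968, l4967, l5034, l10801, l12078, l10799, l7120, l5859, o3895] l12972 := rupP (by decide +kernel)
theorem r12973 : PImp [l7703, l3008, l325, l1412, l12026, l1243, l433, l426, l421, l418, l429, l1209, l4969, l4968, l4967, l4966, o4576, l5525, l7490, l9152, l12972, l12895, l12823] l12973 := rupP (by decide +kernel)
theorem r12974 : PImp [l5035, l12973, o5513, l12813] l12974 := rupP (by decide +kernel)
theorem r12975 : PImp [l7703, l433, l429, l1210, l4968, l4967, l5035, l5034, l4502, l10801, l12829, l7120, o101, o119, o3895, l12922] l12975 := rupP (by decide +kernel)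
theorem r12976 : PImp [l3927, o1160, l11466, l476, l472, l11371, l12696, l7703, l12697, o3469, l12300, l1412, o4485, l2820, l404, o3506, l12252, o3477, l433, l429, o4482, l12963, l12249, l485, l12213, l12225, l12190, o4498, l12182, l12135, l1210, l3444, o5468, o5345, l3143, o1969, o2370, o2367, l12227, l12248, o340, l494, l3136, o5168, l1243, l1242, l3439, l3427, l12212, o5333, l426, l421, l418, l1209, l4969, l4968, l5035, l4834, l4836, l4967, o351, l12239, o305, o799, o800, l12277, l3933, l12174, l12226, o352, o1117, o1124, o1566, o1565, l3008, l325, l12134, o2393, l12971, l12026, l8001, o3160, o2716, o3729, o3734, l1021, o8777, o8776, o5486, o5760, l1594, o3063, l12974, l9140, o4576, l5525, l7490, l9152, l12975, o35, l12895, l3308, o1641, o1644, l12970, l3954, l7772, l9155, o908, o4210, o4152, o2546, o2520, o6031, o8047, o6026] l12976 := rupP (by decide +kernel)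
theorem r12977 : PImp [l1242, l5102, l3236, l10496, l3238, l1210, l12704, l8315, l10553] l12977 := rupP (by decide +kernel)
theorem r12978 : PImp [l2517, o3372, o5414, l6377, o7552] l12978 := rupP (by decide +kernel)
theorem r12979 : PImp [l1242, l5102, l3236, l3238, l12142, l1210, l12977, l8001, o3003, l12978, l2498, l2520, l2371, l2861, l12675, o4419, l5150, l5086, l4495, o5294, l3625, o5240, o5527, o2931, o2929, o289, o7565, o2215, o7864, o7891] l12979 := rupP (by decide +kernel)
theorem r12980 : PImp [l2517, l2519] l12980 := rupP (by decide +kernel)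
theorem r12981 : PImp [l11466, l476, l472, l12696, l7703, l11371, l12697, o3469, l12300, l1412, l433, l429, l1210, l3444, l12252, o3477, o4482, l12963, l12249, o5468, o5345, l3927, l3143, o1969, o5168, l1242, o1158, o1152, l2820, l4969, l12212, l10508, l404, o3506, l485, l12213, l12225, o250, l12248, l12227, o351, l5035, o257, o672, l12702, l5102, o1899, o2223, l3236, l10496, l3238, o1159, o1142, o1426, l12277, l3933, o1105, l11453, o2306, o1959, l8000, o5335, o1116, l12239, o297, l6738, l2282, l3228, l12135, o2367, l12142, o5318, l3439, l494, l1209, l4968, l4967, l4966, o305, o799, l12174, o1575, l3008, l325, o1132, o1079, l12976, l12133, o1912, l9109, o1900, o5407, l7190, o5285, l4082, l4080, l9432, o8866, o8484, o8742, l5893, l9017, l4602, l3930, o1108, o1070, o8093, o3428, l11321, l3565, l4937, l12979, l7174, l12966, l8001, o3003, o2954, o8039, o630, l12980, l2498, l2520, l2371, l12675, o4419, l5150, l5086, l4495, o5294, l8491, o5240, o5527, o2931, o2929, o289, l4487, o7565, o616, o2215, o7891] l12981 := rupP (by decide +kernel)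
theorem r12982 : PImp [l11371, l3318, l1412, o2393, l12736, l12031, l4083, l4082, l4080, o5513, o5407, o5285, l8123, l9432, o9023, o3826, o7985, o8530, o2300] l12982 := rupP (by decide +kernel)
theorem r12983 : PImp [l3317, l11371, l1242, l10508, l5102, l3236, l10496, o1075, l3238, l3228, l1243, l12142, o5318, l433, l429, l476, l472, o259, l12273, l12954, l2576, l12730, l5042, o336, l5138, l3588, l1446, l2584, o732, o643, l2859, l11321, o3003, o3005, l12913, l4811, l12980, l4937, l2498, l2520, l2371, o2954, l12675, o4419, l5150, o5211, o8016, l5086, l4495, o5294, l8491, o1408, o5531, o2932, o335, o656, o7566, o2220, o8221, o8059] l12983 := rupP (by decide +kernel)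
theorem r12984 : PImp [l11466, l476, l11371, l12696, l7703, l12697, o3469, l12300, l1412, o4491, l12252, o3477, l433, l429, l472, o4482, l12963, l12249, l485, l2820, l404, o3506, l12213, l12225, l12227, o5335, l12277, l3933, o1116, l12239, o297, l6738, l2314, l7352, o4745, o4751, o5311, o5303, o5300, l2282, o351, l5035, o5168, l1242, l4969, l12212, l10508, o257, o672, l11453, o2306, l1210, l3444, o5468, o5345, l3927, l3143, o1959, l12248, o250, l1243, l3427, o1117, o1124, o1565, l12123, l755, l1209, l4968, l4967, o305, o1152, o1158, l12702, l8399, o1142, o1421, l12981, l3318, l3319, l3317, l12982, o1975, l12983, l4082, l7935, l12029] l12984 := rupP (by decide +kernel)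
theorem r12985 : PImp [o358, l12750, l12708, o5513] l12985 := rupP (by decide +kernel)
theorem r12986 : PImp [l7703, l1412, l433, l4969, o1160, o2393, l12985, l429, l1209, l5525, o4576, l9152, l7490, o340, l1243, l1210, l4968, l476, o4494, l4967, l4966, o4498, l5035, o352, l11371, l3008, l325, l12827, l12184, o2731, l1021, l12972, l12823, l12824, l12839] l12986 := rupP (by decide +kernel)
theorem r12987 : PImp [l1412, l433, l426, l421, l429, l325, l12839, l12833, l11980] l12987 := rupP (by decide +kernel)
theorem r12988 : PImp [l9028, l1084, l3091] l12988 := rupP (by decide +kernel)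
theorem r12989 : PImp [l7703, l11466, l11371, l12696, l12697, o3469, l12300, l1412, l433, l4969, l429, l1210, l3444, l12252, o3477, l476, l472, o4482, l12963, l12249, l485, l2820, l404, o3506, l12213, l12225, l12227, l3927, o1160, o2393, l12985, l12277, l3933, l12239, l12174, l3439, l12212, o5468, o5345, l3143, l12789, l10454, l12248, o340, l494, l3136, o5168, l1243, l1242, l3427, l426, l421, l418, l1209, l4968, l5035, l4834, l4836, o4494, l4967, l4966, o4498, l12226, o352, o1117, o1124, o1565, l3008, o4576, l5525, l7490, l9152, l12986, l12842, l12184, l12219, o2731, l1021, l12975, l12987, l3308, l12988, l7772, l9155, o3938, l4517, l4518, l3091, l4548] l12989 := rupP (by decide +kernel)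
theorem r12990 : PImp [l3927, o1160, l11466, l11371, l12696, l7703, l12697, o3469, l12252, o3477, l12300, l1412, l433, l429, l476, l472, o4482, l12963, l12249, l485, l2820, l404, o3506, l12213, l12225, l12227, l1210, l3444, l4969, l5035, o2393, l12985, l12989, o5513, l9140, l12813] l12990 := rupP (by decide +kernel)
theorem r12991 : PImp [l11466, l11371, l12696, l7703, l12697, o3469, l12252, o3477, l12300, l1412, l433, l429, l476, l472, o4482, l12963, l12249, l485, l2820, l404, o3506, l12213, l12225, l12227, l12248, l1210, l3444, o5468, o5345, l3927, l3143, o5168, l1242, l3439, l12212, l1209, l4969, l4967, l4966, l12277, l3933, l12239, l12174, l3008, l325, o1132, l12789, l8001, o3003, l12990, l12133, o1912, l9109, o5407, l7190, o5285, l4082, l4080, l9432, o8866, o8484, o7903, l9017] l12991 := rupP (by decide +kernel)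
theorem r12992 : PImp [l1412, o2393, l12736, l12031, l4083, l4080, o5513, o5285, l8123, l9432, o9023, o7903, o7985] l12992 := rupP (by decide +kernel)
theorem r12993 : PImp [l3593, l5138] l12993 := rupP (by decide +kernel)
theorem r12994 : PImp [l12964, l11466, l11371, l12277, l3933, o1116, o1452, o1090, o1117, o1465, l3927, o1152, o1485, l12696, l2820, l404, l476, l472, l7703, l5035, l11453, l12697, o3469, o3477, o3506, l12239, l12252, l12300, l12174, l1412, l433, l4966, l4967, o4491, o4482, l429, l4968, l4969, l12963, l1209, l1210, l11170, l12249, l12851, l3444, o5259, o5266, o5256, l732, o8541, l485, o5168, o5335, o5468, l12212, l12213, l3427, o5316, l12142, o2306, o8064, l1243, o5345, l12225, l3143, o340, l4438, o297, l12227, o1959, o708, o694, o688, l6738, o275, l6856, l2314, l7352, o5300, o5303, o5311, o4745, l12984, l12991, l3318, l3319, l3317, l12992, l12993, l12954, l4082, l7935, l12029] l12994 := rupP (by decide +kernel)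
theorem r12995 : PImp [o5729, l2574, l2708, o8611, o8531] l12995 := rupP (by decide +kernel)
theorem r12996 : PImp [o312, l483, l485, o340, l12227, l390, l2846, l12995, o5513, l8366] l12996 := rupP (by decide +kernel)
theorem r12997 : PImp [l485, l11371, l11800, l2846, l390, l12213, l12225] l12997 := rupP (by decide +kernel)
theorem r12998 : PImp [l7703, l5178, l5274, l12866, l12895, l3308, l12879, l12761, l9155, l3094] l12998 := rupP (by decide +kernel)
theorem r12999 : PImp [l11371, l12277, l3933, o1132, l7703, l1209, l5178, l5274, l12135, l12998, l12877, l12895, l3308, l12879, l9155, l7199, o6336, l12918, o3888] l12999 := rupP (by decide +kernel)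
theorem r13000 : PImp [l7703, l1210, l1209, l5178, o4329, l5035, l5034, l4502, o101, o120, o119, o804, l12932, l12892, l7120, l12922, o3895] l13000 := rupP (by decide +kernel)
theorem r13001 : PImp [o2393, l3927, o1160, l11466, l11371, l12277, l3933, o1132, l12696, l2820, l3374, l11301, o4904, o4476, l7703, o5381, o4972, o4898, l476, o4471, l12963, l5035, l404, l11462, l5178, o4317, l5726, l1210, l8382, l12851, l483, l12997, l12190, o5380, o4977, l12182, l12314, o297, o340, l485, l3444, o5195, l1243, l1242, o351, o305, o799, l2534, o5458, l2734, l4793, l12135, o1969, o2367, l3439, l3427, o4329, l5725, l1209, o4910, l4966, l4969, l4968, l3351, o4887, l5274, o352, o1117, o1124, o1565, o1116, o1159, o1152, o1575, o1158, l3008, l325, o358, l12996, l12708, l6738, l12957, o5511, o5017, l2846, l12252, l12226, l2574, l390, l12212, l12213, l2591, l12248, l12999, l1594, o3107, o3097, l12900, l13000, l12895, l3308, l12823, l12879, l10766, l7118, l12918] l13001 := rupP (by decide +kernel)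
theorem r13002 : PImp [l390, o3498, l2846, l1594, l11963] l13002 := rupP (by decide +kernel)
theorem r13003 : PImp [l4966, l3008, l325, l12895, l12823] l13003 := rupP (by decide +kernel)
theorem r13004 : PImp [l5178, l12884, l12053] l13004 := rupP (by decide +kernel)
theorem r13005 : PImp [l7703, l1210, l5178, l5274, l5035, l13003, l5034, l4502, o101, o119, l13004, l12892, l7120, l12922, o3895] l13005 := rupP (by decide +kernel)
theorem r13006 : PImp [l5178, l12884, l12901] l13006 := rupP (by decide +kernel)
theorem r13007 : PImp [l12888, l7703, l1210, l5178, l5035, l5034, l4502, o101, o119, l13006, l12892, l7120, l12922, o3895] l13007 := rupP (by decide +kernel)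
theorem r13008 : PImp [l7703, l3008, l325, l12026, l5035, l5178, o4329, l5725, l1209, l5274, o4576, l5525, l7490, l9152, l13005, l13007, l12895, l3308, l12148, l12879, l3954, l9155, l7772, o6281, o931, o2540, o4174, o6015, o6030, o8663] l13008 := rupP (by decide +kernel)
theorem r13009 : PImp [l3927, o1160, l12696, l2820, l3374, l11301, l11466, o5380, o4977, l11371, l7703, o5381, o4972, o4898, l476, o4904, o4471, l12963, l5035, l404, l11462, l5178, o4317, l5726, l1210, l8382, l12277, l12851, l483, l12997, l12182, o340, l485, l3444, o5195, l1243, l1242, o351, l12314, o305, o799, l2534, o5458, l4793, l12135, o1969, o2367, l3439, l3427, o4910, l4966, l4969, l4968, l3351, o4887, o352, o1117, l3933, o1124, o1565, o1152, l3008, l325, o2393, l13001, l13002, l12227, l12248, l12957, l2846, l12252, l12226, l12212, l12213, l12026, l1594, o3107, l13008, o5513, l9140, l12813] l13009 := rupP (by decide +kernel)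
theorem r13010 : PImp [l1242, l5102, l12704, l3236, o1899, l5173, l3016, l2718, l2519, l3238, o2399, o1079, o4421, o5233, l4488, o7660, l4079] l13010 := rupP (by decide +kernel)
theorem r13011 : PImp [l12907, l3236, l10549, l10550] l13011 := rupP (by decide +kernel)
theorem r13012 : PImp [l7703, l12696, l2820, l3374, l11301, o4904, l4969, o4898, l1210, l3444, o5195, l1242, l10501, l3008, l12908, l13010] l13012 := rupP (by decide +kernel)
theorem r13013 : PImp [l1242, l5102, l3236, l3238, l2498, l2520, l5098, l2371, l2861, l12675, o4419, l5150, l5086, l4495, o5294, l3625, o5240, o5527, o2931, o2929, o289, o7565, o2215, o7864, o7891] l13013 := rupP (by decide +kernel)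
theorem r13014 : PImp [l12978, l12980] l13014 := rupP (by decide +kernel)
theorem r13015 : PImp [l11466, l11371, l7703, l12696, l2820, l3374, l11301, o4898, l1210, l12314, o5381, o4972, l476, o4904, o4471, l12963, l5035, l404, l11462, l5178, o4317, l5726, l3927, l8382, l12277, l12851, l483, l12997, o297, l12142, l485, l3444, o5195, l1242, l2734, l2534, l4793, l3439, o4329, l5725, l2537, o1969, l1209, o4910, l4966, l4969, l4968, l3933, o1116, l472, o1159, l3008, l325, o1132, o1160, l13009, l12133, l7710, l9109, o1975, l4083, l4082, o5513, o5407, o9178, o8866, o8484, o9099, l5893, l4602, l12298, l2709, o3510, l12252, l12212, l12213, l12227, l12248, l10501, l6738, l2314, l7352, o5303, l13011, l5102, o1142, o1105, l3236, o1899, o1426, l10496, o2223, o1070, l13012, l8001, o3003, l13013, l13014] l13015 := rupP (by decide +kernel)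
theorem r13016 : PImp [l7742, l3003, l12639] l13016 := rupP (by decide +kernel)
theorem r13017 : PImp [l11371, l12277, l390, o3498, l12088, l12205, o9163, l12961] l13017 := rupP (by decide +kernel)
theorem r13018 : PImp [l11466, l11371, l7703, l12696, l2820, l3374, l11301, o4898, l1210, l12314, o5381, o4972, l476, o4904, o4471, l12963, l5035, l404, l11462, l5178, o4317, l5726, l3927, l8382, l12277, l12851, l483, l12997, o297, l4438, l11453, o2306, o1959, l3228, l12142, o5332, o5627, o5632, l485, l3444, o5195, l1243, l1242, o351, o305, o799, o5262, o5256, l2734, l12135, o1969, o2367, l3427, o4329, l5725, l2537, l1209, l4969, l4968, o5380, o4977, o4910, o1090, l3933, o1116, o1159, o1152, o1575, o1117, l472, l12182, o3039, l4923, o4266, o4275, l13015, l3317, l12854, o1975, l13016, l12273, l13017, l12227, l12248, l6738, l6856, l2314, l2282, o2258, o2245, l7352, l8399, o8524, o5303, o5311, o5612, o3465, l12212, l12213, l11654, l10508, l12954, l2584, o259, l13011, l5042, o336, l5138, l1446, l5102, o1142, o1105, o732, l2859, o3436, o3003, l3236, o1899, o1426, l4811, l12252, l10496, o2223, l4937, l12913,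 o1075, o2945, o2954, l13014, o8016, l13013, o1407, o1406, o7939, o8062] l13018 := rupP (by decide +kernel)
theorem r13019 : PImp [o340, l7710, l12750, o2393, o5513, l12985, l8366] l13019 := rupP (by decide +kernel)
theorem r13020 : PImp [l11371, l12277, l3933, o1132, l390, l13002, l2846, l9109, o1975, l12298, o5513, o9099, o9178] l13020 := rupP (by decide +kernel)
theorem r13021 : PImp [l7703, l1210, l5178, l5035, l5034, l4502, l13004, o101, o119, l7120, o3895, l12922, l5029, l10068] l13021 := rupP (by decide +kernel)
theorem r13022 : PImp [l1242, l7703, l12696, l2820, l3374, l11301, o4898, l1209, l6007, o4910, o4576, l9152, l7490, l11466, o5381, o4972, l476, o4904, o4471, l12963, l11371, l12277, l12851, l483, l12997, l1243, l404, l11462, l5035, l5178, o4329, l5725, l1210, l4966, l4969, l4968, o5380, o4977, l3351, o4887, o1117, l3933, o1124, o1565, o1159, l3927, o1152, o1569, l3008, l325, l11453, o8656, l12945, l2263, l12219, o3106, l13021, l12950, l12823, l10731, l12810] l13022 := rupP (by decide +kernel)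
theorem r13023 : PImp [o4576, l1242, l7703, l1210, l5178, l5035, l5034, l4502, l12949, o101, o119, l1247, l13006, l7120, o3895, l12922, l5029, l10068] l13023 := rupP (by decide +kernel)
theorem r13024 : PImp [l1209, l5178, l5274, l12950, l7772, o3944, o3938, l12951, l3308, l7120, l9155, l12941] l13024 := rupP (by decide +kernel)
theorem r13025 : PImp [l7703, l11466, l12696, l2820, l3374, l11301, o5381, o4972, o4898, l476, o4904, o4471, l12963, l11371, l12277, l12851, l483, l12997, l1243, l1242, l404, l11462, l5035, l5178, o4329, l5725, o4317, l5726, l1209, l4969, l4968, o5380, o4977, l3351, o4887, o4910, o1117, l3933, o1124, o1565, l12135, o4576, l6007, l7490, l9152, l13022, l13024, l12949, l12184, l12219, o3102, l13023] l13025 := rupP (by decide +kernel)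
theorem r13026 : PImp [l3927, o1160, l12696, l2820, l3374, o5195, l5035, o2393, l13025, o5513, l9140, l12813] l13026 := rupP (by decide +kernel)
theorem r13027 : PImp [l11466, l11371, l7703, l12696, l2820, l3374, l11301, o4898, l1210, l12314, o5381, o4972, l476, o4904, o4471, l12963, l5035, l404, l11462, l5178, o4317, l5726, l3927, l8382, l12277, l12851, l483, l12997, o297, o340, l11453, o2306, o1959, o351, l3444, o5195, l1243, l3427, o1117, l3933, o1124, o1565, l12123, l2534, o5456, l755, o783, l12135, o1969, o2367, o2315, l12142, l485, o305, o799, o5457, l2734, l4793, l3439, o4329, l5725, l1209, o4910, l4966, l4969, o4968, o5380, o352, o1116, l3008, l325, o1160, l13019, l4083, l4080, l13020, l12227, l12248, l10454, l6738, l12960, l2314, o2278, l2846, l12252, l12226, l7352, l12212, l12213, o5300, o5303, o5311, o5652, o4745, o5699, l12789, l12993, o274, l5873, o271, o748, o1106, o7708, o7709, o3677, o3724, l13026, o1912, l9109, o1975, o5513, o5285, o9178, l9432, o8957, o7903, l9017] l13027 := rupP (by decide +kernel)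
theorem r13028 : PImp [l12142, o1912, l11371, l12277, l3933, o1116, o1452, o1090, l3317, o297, l485, o1117, o1465, l12273, l13017, o4576, l12227, l11660, l8634, l6738, l2584, l2314, l752, l7352, l12790, o5311, l3593, l5138] l13028 := rupP (by decide +kernel)
theorem r13029 : PImp [l12964, l11466, l11371, l12277, l3933, o1116, o1452, o1090, o1159, l3927, o1152, o1575, o1494, o1117, o1465, l12696, l2820, l404, o1124, o1565, o1569, l476, l7703, l5035, l12123, l11453, l12135, o351, l12994, l5178, l3374, o5380, o5381, l11301, o4904, o4910, o4898, o4972, l11462, o4317, l4968, l4969, o4471, l4966, l1209, l1210, l5726, l11170, l12963, l12314, l8382, l3444, o1969, l2534, l12851, o305, l3427, o5195, o2367, l4793, l483, o5456, l2734, o5457, o5262, o799, l1242, l1243, l732, l755, o2306, o8064, o8541, o783, o1959, l12997, o340, l4438, o297, o708, o694, o688, o275, l13018, l13027, l3319, l12854, o1975, l13028, l7742, l3003, l5787, o5513, l9221] l13029 := rupP (by decide +kernel)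
theorem r13030 : PImp [l4967, l1021, o2393, l433, l4968, l3927, o1160, l10718, l12320] l13030 := rupP (by decide +kernel)
theorem r13031 : PImp [o3469, l12849, l8893, l5039, o301] l13031 := rupP (by decide +kernel)
theorem r13032 : PImp [l1242, l10501, l5102, l3236, l10496, o1070, l12142, l13014, l13013, o7694, l1446] l13032 := rupP (by decide +kernel)
theorem r13033 : PImp [l1242, l10501, l2820, o1158, l12702, l5102, o1142, o1105, l3236, o1899, o1426, l10496, o2229, o2223, o1077, l13032, l12698, l11346, o3372, o7552] l13033 := rupP (by decide +kernel)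
theorem r13034 : PImp [l3927, o1160, l5034, l4526, o2759, l433, l429, l1210, l1209, l4969, l4967, l4966, l8726, o124, o2393, l12750, o5513, o5285, l12708, o9057, o3836, o3849, o6732, l10492, l13030, o6615] l13034 := rupP (by decide +kernel)
theorem r13035 : PImp [l1412, l433, l4968, l429, l4967, l1242, l3008, l325, l12026, l5848, l7490, l9152, l10811, l12054] l13035 := rupP (by decide +kernel)
theorem r13036 : PImp [l5035, o257, l4836, l1242, l12696, l2820, l3927, o1158, o1159, l11321, l11375, l5102, o1142, l3236, o1899, l5173, o1426, l3238, o2229, o2223, o1077, l11115, l11346, l7334, o5227] l13036 := rupP (by decide +kernel)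
theorem r13037 : PImp [l433, l4969, l10501, l4967, o1159, l3927, l5102, o1142, l3236, o1899, l5173, o1426, l3238, o2229, o2223, o1077, l11346, o5227, l7334, l11115, l11101] l13037 := rupP (by decide +kernel)
theorem r13038 : PImp [l5035, l1242, l7703, l433, l4969, l10501, o257, l4968, l4836, l4967, l12696, l2820, l3927, l11466, l11371, o1152, o1158, l13036, l13037, o1078, o1429, o1418, l10548, l12145, l10550, o3370, o7578, o8811] l13038 := rupP (by decide +kernel)
theorem r13039 : PImp [l1412, l4967, o2759, l1021, l433, l429, l1242, l4968, l1243, l11167, l10801, l1209, l4969, l4966, l3008, l325, o1132, l13034, l4080, l10156, o5285, o5731, o4673, l9109, l13035] l13039 := rupP (by decide +kernel)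
theorem r13040 : PImp [l13029, l12964, l11466, l11371, l12277, l3933, o1116, o1452, o1090, o1159, l3927, o1152, o1569, o1489, o1117, o1465, l12696, l2820, o1124, o1566, o1565, l476, l472, l7703, l5035, l12123, l11453, l12135, l12847, o5169, o5339, l1242, l1243, l13031, l2846, l12239, l12252, l12300, l12174, l390, o305, o301, o299, o300, o303, l1412, l4834, l6253, l8893, l433, o4498, l4966, l4967, o4491, o4494, o4482, l4836, o5358, o5354, o5345, o4825, l2308, o5740, o4803, l429, l4968, l4969, o4709, l6715, l12963, l3440, l1209, l1210, l11170, l10501, l12142, o2306, o2310, o8541, l12851, l12249, o5269, l2293, o5665, o8064, o257, o256, o253, o5257, l12997, l12212, l12213, l4438, o297, l12227, l12248, o250, l7167, o8798, o694, o688, l6738, l6856, l4192, o8656, l4786, o3795, o3718, o8996, o272, l2315, l2314, o2245, o1969, o6795, l4197, l4193, o1959, o3814, l11167, l7352, o3054, o8776, l4504, o5300, o5303, o5311, o5652, o4745, o5612, o5479, o114, o112, o97, l5893, l13033, o3205, o3095, l12993, o273, o269, l4557, o8207, o3161, l13038, l5189, o7694, l2859, o2945, l3565, o268, o8062, o8013, o7957, l13039,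 l3318, l3319, l3317, l12954, l12992, l7935, l11217] l13040 := rupP (by decide +kernel)
theorem r13041 : PImp [l12696, l2820, l11466, l11371, l12277, o1117, l3933, o1124, o1565, l7703, l12123, l13029, l13040, l3374, l3426, l11301, o4898, o5364, l1210, l8369, l12314, o3469, o301, l12300, l6253] l13041 := rupP (by decide +kernel)
theorem r13042 : PImp [l12142, l736, o8180, l12482, o4742] l13042 := rupP (by decide +kernel)
theorem r13043 : PImp [l12482, l5893] l13043 := rupP (by decide +kernel)
theorem r13044 : PImp [o5636, o5646, o4742, o4734, o7941, l13043, l12140, l12141, o7943, l32, l28, o7770] l13044 := rupP (by decide +kernel)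
theorem r13045 : PImp [o3691, l13042, l13044, l1697, o5662, o5627, o8183, o2304, o8264, o8501] l13045 := rupP (by decide +kernel)
theorem r13046 : PImp [l11466, l11371, l12277, l3933, o1117, l13041, o1454, o1112, o1116, l2305, o1124, o1565, o1505, o1109, o1473, l12696, l2820, l404, l476, l472, l7703, l5035, l12134, l12697, o3469, o3477, o3506, l12239, l12252, l12226, l12300, l1412, l433, o4494, o4478, o4482, l429, l12963, l1209, l1210, l12249, l3444, l485, o5168, o5333, o5335, o5468, l12997, l12212, l3427, l12227, l1243, o340, o297, l4438, o708, o688, o694, o275, l13045, l638, l6808, o7766] l13046 := rupP (by decide +kernel)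
theorem r13047 : PImp [l650, l758, o7766] l13047 := rupP (by decide +kernel)
theorem r13048 : PImp [l13042, l11159, o2257] l13048 := rupP (by decide +kernel)
theorem r13049 : PImp [l11466, l11371, l12277, l3933, o1117, l13041, o1454, o1112, l12696, o1124, o1565, l3927, o1152, l476, l472, l7703, l12123, l12135, l13046, l12847, l13031, o5169, o5339, l2846, l12239, l12252, l12226, l12300, l12174, l1243, o301, o299, l1412, l8893, l6253, l433, l4967, o4494, o4482, o5358, o5345, o5740, l429, l12963, l3440, l1209, l1210, l12249, o5333, l12997, l12212, l12213, o297, l4438, l7167, o8798, o688, l4192, l2321, o3774, o8996, o272, l4197, o8770, l13047, o5627, l13048, l638, l2272, o8501, o8014] l13049 := rupP (by decide +kernel)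
theorem r13050 : PImp [l11371, l12277, l483, o5392, l12851, l8369, l12300, o3469] l13050 := rupP (by decide +kernel)
theorem r13051 : PImp [l4438, o694, l485, o7941, l12205, l390, l12212, l12227, l13044] l13051 := rupP (by decide +kernel)
theorem r13052 : PImp [l11371, l12314, o297, o688, o272, o5168, l1243, o5335, o5333, l12277, l3933, o1117, o1454, o1112, o1116, l2305, o1109, o1473, l13042, l13051, o5266, o5627, o8345, l1697, l12278, l12195, l2846, l2832, l4273, l12138, o8264, o8501] l13052 := rupP (by decide +kernel)
theorem r13053 : PImp [o4742, o4734, o7766, l13043, l12212, l3898, l3022, o3015] l13053 := rupP (by decide +kernel)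
theorem r13054 : PImp [l11371, l12314, o297, o688, o272, o5335, l12135, o1969, o2370, l12277, l3933, o1117, o1454, o1112, o1124, o1565, o1505, o1109, l12123, l8382, l3444, o337, l6253, l3427, l13052, l6808, l13053, o5662, l638, o8500, l12226, l12278, o3467, l6868, o3718, o2305, o8019] l13054 := rupP (by decide +kernel)
theorem r13055 : PImp [l12696, l2820, l404, l11466, l11371, l12277, o1117, l3933, o1124, o1565, l3927, l7703, l3008, l5035, l12123, l13041, l13049, l5274, l5178, l3374, o4452, o5381, l11301, o5382, o4898, l11462, o4972, o4317, o4959, l1209, l1210, l5726, l12963, l12314, o305, l13050, l12997, l4438, o776, l13054, l3426, o5364, l8369, l6253, o3469, l12300] l13055 := rupP (by decide +kernel)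
theorem r13056 : PImp [l476, l472, l11371, o3469, o3477, l12252, l12300, l12249, l1412, l433, o4482, l429, l12963] l13056 := rupP (by decide +kernel)
theorem r13057 : PImp [l11371, l12277, o1117, l3933, o1124, o1565, l12123, l8893, l12697, l13031, o301, l12239] l13057 := rupP (by decide +kernel)
theorem r13058 : PImp [l12696, l2820, l11466, l11371, l12277, o1117, l3933, o1124, o1565, l7703, l12123, l13056, l13057, l3374, l11301, o4898, o5392, l1210, l8369] l13058 := rupP (by decide +kernel)
theorem r13059 : PImp [l5041, l476, l472, l1412, o4478, o4491, l11371, l12277, l3933, o1116, o1452, o1090, o1117, o1465, o5298, o7959, o5319, o5636, o5646, o4756, o4734, l12142, l4627, l6206, l5751, l4454, o7694, o1106, o2967, o2971, o3025, o3017, o7963, o7869, l1104] l13059 := rupP (by decide +kernel)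
theorem r13060 : PImp [l11371, l12239, o295, l5041, o290, l12300, l12252, l12277, o1117, o1465, l3933, o1116, o1452, l476, l11453, l12134, o3691, o3391, o3396, l13059, o5662, o5256, o5627, o8206, l9115, o2304, o2313, o5303, o8283, o8286, l2322, l2291] l13060 := rupP (by decide +kernel)
theorem r13061 : PImp [l744, o7785, o4742, l12142, l4466, l4467] l13061 := rupP (by decide +kernel)
theorem r13062 : PImp [l12142, o2306, o8038, o8206, o8656, o3686, o3699, o8037, o2258, o2269, o8040, o5300, o5303, o7706, l5751, l9115, l2460] l13062 := rupP (by decide +kernel)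
theorem r13063 : PImp [l11466, l11371, l12696, o3469, l12239, l13055, l13058, o3477, l12258, l2820, l404, o3506, l485, l12213, l12225, l4438, o690, o295, l5041, o5335, l12300, l12277, o1117, l3933, o1124, o1565, l12123, l5035, o305, o776, l6253, l2308, l476, o5358, o297, l2269, o724, o699, o290, l7703, l1412, l433, l429, l1210, l4968, l472, o4482, l12252, o1116, o1452, o1090, o1465, l3927, o1152, o1485, o5168, l1242, o5165, o5333, o1159, o1569, l11453, o351, l3439, o783, l13060, l13061, o5662, o5259, o5266, o5256, o5627, l13062, o8127, l6771, l12138, l3565, l6724, o3395, o8037] l13063 := rupP (by decide +kernel)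
theorem r13064 : PImp [l11371, l12239, o295, o290, l12300, l1412, l12252, l12277, l3933, o1116, o1452, o1090, o3391, l13060, o2967, l5686, l4454, l3598, o4448] l13064 := rupP (by decide +kernel)
theorem r13065 : PImp [l11466, l11371, l12277, l3933, o1116, o1452, o1090, o1117, o1465, l3927, o1152, o1485, l13058, o5168, l1242, o5165, o5335, o5333, l485, l13055, l12696, l2820, l404, o1124, o1565, l476, l472, l7703, l5035, l12123, l12135, l13057, o3469, o3477, o3506, l12239, l12252, l12300, l12258, o305, l1412, l4834, l12122, l12213, l433, o4491, o4482, l4836, l12225, l429, l4968, o297, l4438, l1210, o699, l2269, o776, o690, o290, o724, l6253, o295, o5345, o5740, o4803, l5041, l13063, o299, l7167, o8798, l4192, o3205, o3774, o6795, l4193, o8770, o3069, l13064, l13061, o3718, o3039, o3670, o5662, o5259, o5256, o8127, o8130, o2269, o1959, o8040, l3228, l3565, l11645, o5303, l2859, l4292, l3603] l13065 := rupP (by decide +kernel)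
theorem r13066 : PImp [o7959, o7867, o4742, l12142, l4467, l4466] l13066 := rupP (by decide +kernel)
theorem r13067 : PImp [l4438, o690, o1452, l485, l390, o3460, o3461, l12213, l12227, o3663, o8814, l9894] l13067 := rupP (by decide +kernel)
theorem r13068 : PImp [l12138, o1959, o8283, l6771, o8130, o3715] l13068 := rupP (by decide +kernel)
theorem r13069 : PImp [l4438, o690, o1452, o1090, l13066, o5662, o5266, o5627, l13067, l13068, l6724, l3553, l12414, o3453] l13069 := rupP (by decide +kernel)
theorem r13070 : PImp [l11371, l12314, l4438, o690, o295, l5041, o297, l12277, l3933, o1116, o1452, o1090, o5168, l1242, o5335, o5333, o3468, o3471, l3032, l12195, o8656, l13069, o3015, o3446, l12472, l1674, o5662, o5259, o5627, l3564, l13068] l13070 := rupP (by decide +kernel)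
theorem r13071 : PImp [l11371, l12252, l12277, l3933, o1116, o1452, o1090, l13061, o3396, l13059] l13071 := rupP (by decide +kernel)
theorem r13072 : PImp [l12138, o1959, o8283, l6771, o3716, o8130] l13072 := rupP (by decide +kernel)
theorem r13073 : PImp [l11466, l11371, l7703, l12696, l2820, l13065, l3374, l11301, o4898, l1210, l12314, l13055, o5382, o4959, l12963, l13058, o5381, o4972, l12997, l4438, o690, o295, l5041, l5035, o305, o776, o297, l2269, o724, o699, o290, l404, l11462, l5178, o4317, l5726, l3351, o4909, l4966, l3008, o4893, l4970, l12277, l3933, o1116, o1452, o1090, o1117, o1465, l3927, o1152, o1485, o5168, l1242, o5165, o5335, o5333, o1159, o1569, l476, l11453, o351, l3444, l3439, l13063, l8382, o783, o5468, o5469, l13070, l2846, l12213, l13071, o5662, o5259, o5266, o5256, o5627, l13072, l6724, l3565, o3396, o3395, l13062, o8037, o8127, l6771] l13073 := rupP (by decide +kernel)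
theorem r13074 : PImp [l13058, l12696, l2820, l11466, l11371, l12277, o1117, l3933, o1124, o1565, l7703, l5035, l12123, l13065, l3374, o5381, l11301, o5382, o4898, o4972, o4959, l1210, l12963, l12997, l12314, l4438, o305, o776, l13073, l3426, o5364, l8369, l6253, o3469, l12300] l13074 := rupP (by decide +kernel)
theorem r13075 : PImp [l11371, l12277, l3933, o1117, o1454, o1112, o1109, l476, l472, o5298, l10523, o5319, o4756, o4734, l5751, o3039, o3446, l9464, l5870] l13075 := rupP (by decide +kernel)
theorem r13076 : PImp [l9073, l5873, o4263] l13076 := rupP (by decide +kernel)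
theorem r13077 : PImp [l5035, o352, l11466, l11371, l12277, l3933, o1117, l13074, o1454, o1112, l3932, o1109, l13058, o5168, l1243, l1242, o5165, l485, l13055, l12696, l2820, l404, o1124, o1565, l3927, o1152, l7703, l3008, l12123, l12135, o3467, o3469, l2992, l12697, l10278, l5274, l5178, l3374, l3351, l494, l8601, o5482, o5468, l3427, l3439, o4452, o5381, o5382, o4898, o4893, o4521, l11462, o4972, l755, o4968, o4959, l1209, l1210, l12963, l4970, l5726, l12997, o798, o718, l8382, o340, o730, o337, o8679, o8987, o336, l5041, l13075, o5256, l13076, l3234, l5680, l4290, l4291, l2983, l3018, l3906, l3893, l3892, o4263, l5871] l13077 := rupP (by decide +kernel)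
theorem r13078 : PImp [l1412, o4482, o4478, o5298, o4742, o4734, l5751, l3232, l5871, l3903] l13078 := rupP (by decide +kernel)
theorem r13079 : PImp [o2258, o2249, o2269, o2244, o8162, o7999, l32] l13079 := rupP (by decide +kernel)
theorem r13080 : PImp [l11371, l12239, o295, l5041, l12300, l12277, l3933, o1116, l2305, o1117, o1454, o1473, l476, o3391, o8249, l9115, o5306, o5303, l13079, o8159, o3663, l2322, o3671, o3679, o8162, o8253, l1104] l13080 := rupP (by decide +kernel)
theorem r13081 : PImp [o3395, o3659, l4290, o2946, l3234, l1510] l13081 := rupP (by decide +kernel)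
theorem r13082 : PImp [l11371, l12239, o295, l5041, o297, l2269, o699, l476, l12300, l1412, o4494, l12277, l3933, o1117, o1454, o1112, l3932, o1109, o1116, o1473, l472, l13080, l41, l12474, l12184, o3036, l13081, o8083, l12143, l2283, l5751, l1510, o2280, o5297, o3019, o8253] l13082 := rupP (by decide +kernel)
theorem r13083 : PImp [l11466, l11371, l12277, l3933, o1117, l13074, o1454, o1112, l3932, o1109, l13058, o5168, l1242, o5165, o5333, l485, l13055, l12696, l476, l472, l7703, l5035, l13077, l2846, l12239, l12300, l390, l12258, l12213, o305, l1412, l12228, l12225, o730, l433, l4438, l12227, l12248, o336, l429, l4968, o690, l1210, o295, l3444, l5041, l3439, l13078, o5256, o5627, l13082, l5178, l13076, l3234, l12143, l4290, l4291, o8083, o3395] l13083 := rupP (by decide +kernel)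
theorem r13084 : PImp [l13083, l12696, l2820, l11466, l11371, l12277, o1117, l3933, o1124, o1565, l7703, l12123, o3469, l13031, l3374, l3426, l11301, o4898, o5364, l1210, l8369] l13084 := rupP (by decide +kernel)
theorem r13085 : PImp [o1454, o1112, o1109, o5298, l663, l13078, l5751, l2391, l2292, o3679, l10764] l13085 := rupP (by decide +kernel)
theorem r13086 : PImp [l5041, o3396, o2967, l4805, l6834] l13086 := rupP (by decide +kernel)
theorem r13087 : PImp [l7703, l5035, l12123, l11453, l12135, l3927, o1159, l11466, l476, l11371, l12277, l472, o1152, l3933, o1117, o1569, o1124, o1116, o1565, l12696, l13055, l13058, l485, o5168, o5333, o5335, o5165, l1242, l13074, o1109, o1454, o1112, l13083, l13084, l2846, l12239, l12300, l390, l12258, l12213, o301, o299, o300, l1412, l4834, l12228, l12225, l6253, l433, o4491, o297, l4438, l12227, l12248, o5358, o5345, l2308, o5740, o4803, l429, l4968, o699, o695, o690, l3426, l7167, o8798, l1210, o290, o295, l13057, l4836, l4192, o8656, o3205, l2321, o3774, o6795, o3099, o8770, o2758, o3069, l1021, l13085, o5259, o5627, l13086, l41, l12474, l2272, o2257, o8083]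 l13087 := rupP (by decide +kernel)

end Pool.Agent.BDD.A
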