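import Pool.Agent.BDD.AC
import Pool.Agent.BDD.AE0
import Pool.Agent.BDD.AE1
import Pool.Agent.BDD.AE2
import Pool.Agent.BDD.AD0
import Pool.Agent.BDD.AD1
import Pool.Agent.BDD.AD2
import Pool.Agent.BDD.AD3
import Pool.Agent.BDD.AD4

set_option autoImplicit false
set_option linter.all false

namespace Pool.Agent.BDD.A

theorem r13088 : PImp [l7703, l3000, l2998, l2996, l13087, l5035, l11758, l4846, l4838, l4863, o5011, l2741] l13088 := rupP (by decide +kernel)
theorem r13089 : PImp [l476, l472, l11371, l12277, l1412, l12851, l433, o4482, l12963, l429] l13089 := rupP (by decide +kernel)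
theorem r13090 : PImp [l13087, l11305, l6132, l494] l13090 := rupP (by decide +kernel)
theorem r13091 : PImp [l7703, l3000, l3008, l3025, l13087, l5035, l13088, l3216, l13090, l3422, l494, l3430, l7704, l4838, l10084, o4561, l3006] l13091 := rupP (by decide +kernel)
theorem r13092 : PImp [l11371, l12277, o1117, l3933, o1124, o1565, l476, l472, l13087, l7703, l3008, l5035, l12123, l3025, l3026, l13091, l1412, l13089, l433, l4967, o4491, o4494, o4482, l483, l429, l4968, l1210, l12963, l12314, l12997, o305, l4438, o776, l6253, o4812, o4807, l4871, l4885] l13092 := rupP (by decide +kernel)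
theorem r13093 : PImp [l13092, l2820, l11371, l12277, o1117, l3933, o1124, o1565, l7703, l12123, l13056, l13057, l3374, l11301, o4898, o5392, l1210, l8369] l13093 := rupP (by decide +kernel)
theorem r13094 : PImp [o351, l13093, o5168, l1243, l13092, l2820, l404, l11371, l12277, o1117, l3933, o1124, o1565, l7703, l5035, l12123, l11453, l12300, o3468, o3469, l13057, l10278, l3351, l494, l8601, o5468, o5469, l3427, o4893, l490, o4521, l11462, l755, l5726, o783, l2533, o8606, o1119] l13094 := rupP (by decide +kernel)
theorem r13095 : PImp [l7703, l476, l472, l13094, l1412, o4482, l433, l429, l12963, o4494, l13093, l12997, l4438, o351, l5035, l11371, l1210, l12314, o305, o799, o771, o340, l13092, l3444, l3427, o5470, o5469, l12277, o1117, l3933, o1124, o1565, l13087, l11453, l12135, o3467, o3468, o3469, o8623, l13057, o1118, o8606, o1156, o1572] l13095 := rupP (by decide +kernel)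
theorem r13096 : PImp [l13092, l11371, l13087, l7703, l5035, l13094, l1412, l4834, l433, l4967, l429, l1210, l3444, l494, o4550, l13095, l12252, l3455, l4850, l5725, l5363, l4836, l2907, o2776] l13096 := rupP (by decide +kernel)
theorem r13097 : PImp [l13096, l13092, l2820, l11371, l12277, o1117, l3933, o1124, o1565, l7703, l12123, o3469, l13031, l3374, l3426, l11301, o4898, o5364, l1210, l8369] l13097 := rupP (by decide +kernel)
theorem r13098 : PImp [l11453, l12135, o1119, o1118, o8773, o8605, o3777, o3767] l13098 := rupP (by decide +kernel)
theorem r13099 : PImp [l13087, l7703, l12123, l11453, l12135, l476, l11371, l12277, l3933, o1117, o1124, o1565, o1566, l13092, l13093, l485, o5168, o5333, o5335, o5165, l13096, l13097, l2846, l12239, l12300, l390, l12258, l12213, o301, o299, o300, o302, l12228, l12225, l6253, l4438, o5358, l2308, o5740, l3426, l13057, l13098, o1156, o1152, o1572, o1586, o8798, o8773, o3774, l644, o8770, l1779, o2350] l13099 := rupP (by decide +kernel)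
theorem r13100 : PImp [l7703, l13091, l1412, l4967, l433, l2998, l5035, l11305, l13090, o4550, l4850] l13100 := rupP (by decide +kernel)
theorem r13101 : PImp [l7703, l1412, l433, l429, l1210, l2998, l2993, l2996, o1156, o1152, o6795, o1586, o8798, l3216, l1779, o8464, o4952, l10190] l13101 := rupP (by decide +kernel)
theorem r13102 : PImp [l11453, l12135, o1119, o1118, o8773, o8461, l6273] l13102 := rupP (by decide +kernel)
theorem r13103 : PImp [l13099, l11270, l12304, l480, l12245, o3549, l12315, l13087, l12193, l7703, l13091, l1412, l4967, l13100, l3430, l12288, o302, o300, o299, l433, l429, l1210, l485, l12318, o3556, l12286, l2993, l12135, o5358, l12199, l3933, o1117, o1124, o1566, l13102, o6795, l13101, l12136] l13103 := rupP (by decide +kernel)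
theorem r13104 : PImp [l11270, l12288, o299, l480, l485, l12304, l12318, o3556, o1152, o6795, o8798, l4190, o5444] l13104 := rupP (by decide +kernel)
theorem r13105 : PImp [l13099, l11270, l12288, l13100, o301, l7703, l13091, l1412, l433, l429, l1210, l4968, l4967, l12304, l2993, l3008, l3025, l480, l13087, l12123, l12135, l12193, l12245, l12315, o3548, l13103, l6253, o8505, l13104, o6683, l4885, l6257, l2750] l13105 := rupP (by decide +kernel)
theorem r13106 : PImp [l7703, l13091, l1412, l433, l429, l1210, l426, l421, l4969, l13099, l480, l485, l11270, l12304, l12318, l3008, l12286, l3031, l12288, l13105, l11223, l11233, o4471, o4459, l12199, l12317] l13106 := rupP (by decide +kernel)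
theorem r13107 : PImp [l7703, l3008, l3025, l13087, l5035, l13091, l1412, l4834, l433, l4967, l4968, l13106, l5178, l6257, o4317, l4885, l5726] l13107 := rupP (by decide +kernel)
theorem r13108 : PImp [l13099, l480, l485, l11270, l7703, l3000, l13107, l3935, l11458, l11465, l12291, l12259, l12266, l12224, l2846, l12215] l13108 := rupP (by decide +kernel)
theorem r13109 : PImp [l7840, l11758, o2776] l13109 := rupP (by decide +kernel)
theorem r13110 : PImp [l5035, l5363, l13109, l4859, l7692, l4850, o3232, l2912] l13110 := rupP (by decide +kernel)
theorem r13111 : PImp [l3216, l5035, l7840, l2533, o2774, o2776, o1120, l12172, o4804, l7692, l4864, l4851] l13111 := rupP (by decide +kernel)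
theorem r13112 : PImp [l5035, l13099, l11270, l12288, o305, o351, o799, l7703, l3008, l325, l12286, o2865, l13108, o3470, l12304, l11364, l2820, l404, l11455, l11462, l13087, l12135, l4836, l13110, l3216, l3417, o1969, l495, o5462, l3408, o2367, l490, l1779, l13111, l1412, l433, o4556, l4968, l4862, l4864] l13112 := rupP (by decide +kernel)
theorem r13113 : PImp [l13099, l11270, l12288, l12286, l13108, l2820, l11455, l7703, l13112, l12290, l3374, o5159, o4898, o5195, l1210, l3444] l13113 := rupP (by decide +kernel)
theorem r13114 : PImp [l13099, l13108, l2820, l11455, l11270, l13087, l7703, l12286, l12288, l11364, l12304, o3467, o3468, o3470, l13113, o299, o300, o302, l12312, l12313, l3459, l3417, l3448, l11298, o4906, o4541, l4968, l4862, l4864] l13114 := rupP (by decide +kernel)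
theorem r13115 : PImp [l7703, l13099, l480, l11270, l485, l13108, l2820, l404, l11455, l11462, l13114, l3935, l11465, l12291, l12259, l12266, l12224, l2846, l12215] l13115 := rupP (by decide +kernel)
theorem r13116 : PImp [l2998, l2994, l13115, l5192, l11758, l3216, l9238, l5794, o4909, l3357] l13116 := rupP (by decide +kernel)
theorem r13117 : PImp [l5112, l3000, l13115, l5036, l12123, l5039, l12241, o297, o3548, l12177, l13116, l4376, o342, l1243, l3431, l2274, l1137, o5364, o8481] l13117 := rupP (by decide +kernel)
theorem r13118 : PImp [l483, l5112, l3008, l3031, l2994, l2993, l3927, l12277, l3933, o1124, o1117, o1565, l476, l13115, l5036, l13117, l12260, l12214, l12262, l390, l12227, o4315, o4312, l3807, o6726] l13118 := rupP (by decide +kernel)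
theorem r13119 : PImp [o1159, l3927, l13115, l5036, o353, l11758, l3216, o1970, l5794, l5682, o6537, o4984, o9022, o9118] l13119 := rupP (by decide +kernel)
theorem r13120 : PImp [l13115, l11453, l5794, l5682, l5268, l12128, l785, o4510, o4509, o4806, o4313, l3371, o8526, l3776, l2819] l13120 := rupP (by decide +kernel)
theorem r13121 : PImp [l7840, l5112, l3011, l3000, l2998, l2995, l2994, l2993, l2996, l3927, o1152, o1159, o1569, l12277, l13115, l5036, l5039, l12241, l12194, o297, o3549, l13119, l4374, o342, l3423, o761, l494, l490, l13120, l4403, l3144, l2746, l2744, l3806] l13121 := rupP (by decide +kernel)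
theorem r13122 : PImp [l483, l5112, l3008, l3031, l3011, l2994, l3927, o1152, l476, l472, l12277, l13115, l5036, l12135, o340, l13118, l13121, l12260, l12214, l12264, l12166, l390, l2835, l12211, l12227, l1145, l3423, o8525, l12331, l12159, l494, o5343, l12161, l3137, l3144, l3797, o4510, o4509, l3371, l2819] l13122 := rupP (by decide +kernel)
theorem r13123 : PImp [l13115, l5794, l5682, l5268, l785, o4510, o4314, o4509, l3371, l4385, l2819] l13123 := rupP (by decide +kernel)
theorem r13124 : PImp [l7840, l5112, l3012, l3000, l2998, l2995, l2994, l2993, l3927, l12277, l13115, l5036, l13122, l5038, l11800, l12233, l5039, l12241, l12282, l12194, l12249, l12151, l13119, o5169, l1243, l4376, l5128, l3423, l494, l490, l13123, l4403, l3144, l2746, l2744, l3806] l13124 := rupP (by decide +kernel)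
theorem r13125 : PImp [l13124, o5168, l1243, l485, l5112, l3000, l2998, l2994, l2993, l12277, l5039, l12241, l12194, l390, l12213, l13119, l12225, l4376, l13121] l13125 := rupP (by decide +kernel)
theorem r13126 : PImp [l5112, l3008, l3031, l12277, l13124, o5168, o5165, l13125, l12258, l12264, l12163, l1145] l13126 := rupP (by decide +kernel)
theorem r13127 : PImp [o353, o305, o781, o776, o8817, l6253, l2308] l13127 := rupP (by decide +kernel)
theorem r13128 : PImp [l5112, l3008, l3031, l3000, l12277, l3933, o1124, o1117, o1565, l476, l13115, l5036, l12123, l11453, l1412, l13089, l433, o4494, l483, o5167, l2734, l429, l4969, l11800, l485, l1243, l12264, l12229, o340, l4438, l12241, l390, o3549, l12227, l13127, l4376, l5128, o4567, l3423] l13128 := rupP (by decide +kernel)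
theorem r13129 : PImp [l13115, l5036, l4838, o4912, l4376, l3431] l13129 := rupP (by decide +kernel)
theorem r13130 : PImp [o358, l12022, o1975, l7708, l8108, o5824] l13130 := rupP (by decide +kernel)
theorem r13131 : PImp [l8723, l9776, o4571] l13131 := rupP (by decide +kernel)
theorem r13132 : PImp [l7935, l11217] l13132 := rupP (by decide +kernel)
theorem r13133 : PImp [o4395, l1242, l390, o1132, o1160, l13130, l4083, l13131, o1975, l7757, l12626, l2542] l13133 := rupP (by decide +kernel)
theorem r13134 : PImp [o2393, l8882, o5511, l8108] l13134 := rupP (by decide +kernel)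
theorem r13135 : PImp [o4395, l1242, l390, o1132, o1160, l13133, l13130, l4083, l13134, o1975, l7757, l12626, l2542] l13135 := rupP (by decide +kernel)
theorem r13136 : PImp [l6259, o4571, o5824, l8634, o2393, l8143] l13136 := rupP (by decide +kernel)
theorem r13137 : PImp [o2393, l7752, l5519, l5514] l13137 := rupP (by decide +kernel)
theorem r13138 : PImp [o4395, l1243, l5112, l1146, l1145, l13115, l2994, l5682, o4510, l3367, l3389, l4967, l5269, l3008, l325, l5036, l13135, l3319, l13136, l4083, l13137, l10372, l7935] l13138 := rupP (by decide +kernel)
theorem r13139 : PImp [o358, l12022, o1975, l7708, l8380, o5824] l13139 := rupP (by decide +kernel)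
theorem r13140 : PImp [o4571, l9776] l13140 := rupP (by decide +kernel)
theorem r13141 : PImp [l5112, l3008, l325, o2393, l13140, l7659, l5774, l5662] l13141 := rupP (by decide +kernel)
theorem r13142 : PImp [l5112, l4967, l5269, o1132, o1160, l13139, l4083, l13141, o1975, l12618, l7757] l13142 := rupP (by decide +kernel)
theorem r13143 : PImp [o2393, l8143] l13143 := rupP (by decide +kernel)
theorem r13144 : PImp [l6259, o5824, l13143, o1975, l12311] l13144 := rupP (by decide +kernel)
theorem r13145 : PImp [l5039, o305, l4438, o777, l13115, o353, l5036, o340, o788, o781, l12277, l12241, o3460, o3549, l390, l12194, l12195, l3927, o1152, o1159, o1569, l13128, l13126, l12122, l5112, l4967, l5269, l3008, l325, o2865, l3031, l2995, l2994, l2993, o1575, l3933, o1124, o1117, o1566, l11453, l12135, l5794, l5682, o1969, l5268, l12131, l5643, o6537, l4794, l12130, o4510, o4789, l2744, o4509, o4792, o4791, o2367, o2370, l5387, o8465, l4876, l4868, l4160, o8526, o9073, l5133, l10323, l4189, o3780, l3389, l3367, l12256, l12255, l1145, l1146, o4395, o4869, o8377, o9152, l1242, l1243, l13138, l13142, l3319, l13144, l4083,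 l13137, l10372, l7935] l13145 := rupP (by decide +kernel)
theorem r13146 : PImp [l2995, l2994, l2996, l3927, l13115, l5036, l3216, l4867, l5388, l2744, o4896, l3806, l3144] l13146 := rupP (by decide +kernel)
theorem r13147 : PImp [l12022, o1975, l12124, o5824, l8380] l13147 := rupP (by decide +kernel)
theorem r13148 : PImp [o2393, l13140, l7659] l13148 := rupP (by decide +kernel)
theorem r13149 : PImp [o1132, o1160, l13147, l4083, l13148, o1975, l7757, o3838, l4598, o5513, l8459, o9099] l13149 := rupP (by decide +kernel)
theorem r13150 : PImp [o5824, l2619, o8947, l2707] l13150 := rupP (by decide +kernel)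
theorem r13151 : PImp [o2393, l13150, l8564, l5662] l13151 := rupP (by decide +kernel)
theorem r13152 : PImp [o4571, l5797] l13152 := rupP (by decide +kernel)
theorem r13153 : PImp [l12277, l12241, l390, l5039, l12194, l12195, l3927, o1152, o1159, o1569, l13128, l13126, l12122, l5112, l3000, l4967, l13129, l5269, l3012, l3008, l325, l2995, l2994, l2993, l3933, l13115, l5036, l13146, l5794, l5682, l13145, l5268, l5643, o6537, o4510, o4511, l2744, o4509, l11800, l12233, l12151, l5387, l3349, l4876, l4868, l4160, o4484, o5169, l12225, l4189, l3389, l1145, l1146, o4869, l1242, l1243, l13149, l3319, l13144, l4083, l13151, o1975, l7763, l3003, o3838, l13152, o5513, l2618, o9076] l13153 := rupP (by decide +kernel)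
theorem r13154 : PImp [l5112, l3008, l325, l13115, l5036, l13140, o5513, l5662, l8036] l13154 := rupP (by decide +kernel)
theorem r13155 : PImp [l13115, l3389, l494, l5036, o1132, o1160, l13147, l13154, l12133, l8459, l8902, o5727] l13155 := rupP (by decide +kernel)
theorem r13156 : PImp [o5824, l2619, l12514, l2707] l13156 := rupP (by decide +kernel)
theorem r13157 : PImp [l5039, o297, l13153, o342, o767, o761, l5112, l3927, o1152, o1159, o1569, l13128, l13126, l4967, l3000, l13129, l4374, l1137, o4411, l3007, l3006, o4409, l1146, l1145, l1243, l1242, l13115, l5036, l3423, l4378, l12277, l12241, o3549, l390, l12194, l12195, l12122, l5269, l3008, l3031, l2995, l2994, o1575, l3933, l11453, l12135, l5794, l5682, o1969, l4409, l5268, l12130, o4510, o4792, o4791, o2367, l4410, l3371, o8526, o3478, l12256, l12255, o9152, l13155, l3318, l3319, l13144, l13132, o2393, l13156, l4597, l5662] l13157 := rupP (by decide +kernel)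
theorem r13158 : PImp [l2995, l2994, l3927, l5036, l4403, l3144, l2746, l2744, l3806] l13158 := rupP (by decide +kernel)
theorem r13159 : PImp [l5268, l6566, l6290, o3907, o2496, l3075, l9098, l3082] l13159 := rupP (by decide +kernel)
theorem r13160 : PImp [l5643, l878, l5268, l4967, l1137, o4411, l3007, l3006, o4409, l1146, l1145, l1243, l5269, l3008, l325, l13159, l9575, l8697] l13160 := rupP (by decide +kernel)
theorem r13161 : PImp [l5034, l4526, l1145, l3008, o2501, o2489, o2569, l8857, l3303, l4059, o4079, l8859, l3975, o1647] l13161 := rupP (by decide +kernel)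
theorem r13162 : PImp [l5112, l13161, l9961, l3075, o2463, l9700] l13162 := rupP (by decide +kernel)
theorem r13163 : PImp [l5112, l4967, l13162, l9763, l9703, l8873] l13163 := rupP (by decide +kernel)
theorem r13164 : PImp [l5643, l878, l5268, l4967, l1137, o4411, l3006, o4409, l1145, l1243, l5269, l3008, o2489, o2442, l8697, l9098, l712, l3082, o3888] l13164 := rupP (by decide +kernel)
theorem r13165 : PImp [l5643, l878, l5112, l4967, l1137, o4411, l3007, l3006, o4409, l1146, l1145, l1243, l1242, l5269, l13163, l13160, l13164, l9575, l3075, o2449, l6566, l8508, o3911, l5050, l6130] l13165 := rupP (by decide +kernel)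
theorem r13166 : PImp [l5112, l4967, l13162, l9703, l8873, l5031, l10069] l13166 := rupP (by decide +kernel)
theorem r13167 : PImp [l1137, o4411, l3006, o4409, l1146, l1145, l1243, l9575, l12326, l7772] l13167 := rupP (by decide +kernel)
theorem r13168 : PImp [l5643, l878, l5112, l4967, l1137, o4411, l3007, l3006, o4409, l1243, l1242, l5269, l3008, l325, l13165, l13166, l13167, l6566, l13159, o3907, l5060, l3082, l3075, l7839, l3305] l13168 := rupP (by decide +kernel)
theorem r13169 : PImp [l5034, l4526, l1145, l3008, o2501, o2489, o2569, l8710, l3303, l4059, o4079, l8859, l3975, o1647] l13169 := rupP (by decide +kernel)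
theorem r13170 : PImp [l5112, l13169, l9961, l3075, o2463, l9700] l13170 := rupP (by decide +kernel)
theorem r13171 : PImp [l5112, l4967, l13170, l9703, l8873, l3075, l10069, l8753, l5029] l13171 := rupP (by decide +kernel)
theorem r13172 : PImp [l6566, l7053, l6290, o3907, l3303, l3075, l3082] l13172 := rupP (by decide +kernel)
theorem r13173 : PImp [l9575, l9706] l13173 := rupP (by decide +kernel)
theorem r13174 : PImp [o2542, o2569, l9342, l12148, o1647, o6063, o6032, o1528] l13174 := rupP (by decide +kernel)
theorem r13175 : PImp [l13115, l3371, l3367, l3389, l5643, l878, l5268, l5112, l4967, l1137, o4411, l3007, l3006, o4409, l1146, l1145, l1243, l1242, l5036, l3423, l5269, l3008, l325, o2393, l13140, l13148, l13154, o5513, o5099, l5662, o6714, l2707, o8906, l13168, l13171, o36, l4422, l13173, l6566, l13172, o4166, o4076, o3907, o3911, o4227, l13174, o2449, l4069, l5050, l6130] l13175 := rupP (by decide +kernel)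
theorem r13176 : PImp [l5268, l5112, l2994, l13115, l5682, o4510, l3371, l3389, l5036, l3423, l494, o4517, l2993, o6537, o4318, l4967, l1137, o4411, l3007, o4409, l1145, l1242, l5269, o1132, o1160, l13147, l13175, o1975, l8459, o5824, l4598, l2707, l7757, o9024] l13176 := rupP (by decide +kernel)
theorem r13177 : PImp [o2393, l13156, l4597, l5662] l13177 := rupP (by decide +kernel)
theorem r13178 : PImp [l2561, l13152, l3003] l13178 := rupP (by decide +kernel)
theorem r13179 : PImp [l12277, l12241, l390, l5039, l12194, l12195, l3927, o1152, o1159, o1569, l13128, l13126, l12122, l5112, l3000, l4967, l13129, l5269, l2992, l3008, l325, l2998, l2995, l2994, l3933, l13115, l5036, l13153, l4374, l4378, l1137, l3423, l1243, o4409, o4411, l494, l1146, l3006, l3007, l490, l13158, l5794, l5682, l4409, l4406, l13157, l5268, l5643, o4510, o4314, l4410, l12221, l12151, l12209, l3371, l4385, l12225, l5133, l13176, l3319, l13144, l13177, o1975, l13178, o5513, o5099, l8215, l2707, l7763, o8891] l13179 := rupP (by decide +kernel)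
theorem r13180 : PImp [l3927, o1152, o1159, o1569, l13128, l13126, l12277, l12241, l12228, l13179, l12153, o5168, o5165] l13180 := rupP (by decide +kernel)
theorem r13181 : PImp [l12124, o5824, l8380] l13181 := rupP (by decide +kernel)
theorem r13182 : PImp [o2393, l5112, l429, l3007, l3008, l325, l13154, l13140, l13131, l8882, o5513] l13182 := rupP (by decide +kernel)
theorem r13183 : PImp [l5112, l3008, l325, l4604, l6097, l5662] l13183 := rupP (by decide +kernel)
theorem r13184 : PImp [l3927, o1160, l13115, l5112, l2994, l5036, l2993, o4502, o6726, l5794, l494, l3137, l2996, l3779, o4524, l4160, o4525, l429, l3007, o2393, l13181, l4083, l13182, l13183, l8036, o5511, l11211] l13184 := rupP (by decide +kernel)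
theorem r13185 : PImp [l5112, l2996, l13115, l5036, l494, l3137, l3779, o4525, l3927, l2993, o4502, o6726, l5133, o4395, l1242, l1145, l5269, o1132, o1160, l13184, l12133, o1975, l8459, l8717, o5727, l8902] l13185 := rupP (by decide +kernel)
theorem r13186 : PImp [l6261, o5824, l8143] l13186 := rupP (by decide +kernel)
theorem r13187 : PImp [o2393, l13186, l4083, l13137] l13187 := rupP (by decide +kernel)
theorem r13188 : PImp [l11660, l9437] l13188 := rupP (by decide +kernel)
theorem r13189 : PImp [o5513, l8127] l13189 := rupP (by decide +kernel)
theorem r13190 : PImp [l13115, l5112, l2994, l3927, l5036, l2993, l12227, o4502, o6726, l5794, l494, l3137, l2996, l3779, o4524, l4160, o3478, o4525, o4395, l1243, l429, l3006, l1146, l1145, o340, l4967, l5269, o1152, o1159, o1575, o353, o788, o8377, o9152, l13185, l3318, l3319, l13187, o1975, l13132, o358, l13189, o5824, l8636] l13190 := rupP (by decide +kernel)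
theorem r13191 : PImp [o5727, l6007, l8724] l13191 := rupP (by decide +kernel)
theorem r13192 : PImp [l494, l13115, l5036, o2393, l13181, l4082, l13154, l13191, o5513, l5662, l8036] l13192 := rupP (by decide +kernel)
theorem r13193 : PImp [l13115, l5036, l5112, l2993, o4502, o6726, o1132, o1160, l13192, l12133, o1975, l8459, l8717, o5727, l8902] l13193 := rupP (by decide +kernel)
theorem r13194 : PImp [o2393, l13177, l13186] l13194 := rupP (by decide +kernel)
theorem r13195 : PImp [o358, l13189, o5824, l8636] l13195 := rupP (by decide +kernel)
theorem r13196 : PImp [l5112, l3000, l2995, l2994, l2993, l2996, l3008, l3927, o1152, o1159, o1569, l12277, o1117, l3933, l476, l472, l13115, l5036, l11453, l12135, l3011, l3031, l13128, l13126, l4967, l5269, l13129, l13180, l5038, l12264, l12266, o340, l429, l1145, l1146, l3006, l3007, l12331, l12159, l12218, o4452, o4543, o4395, l12161, o4705, o4706, l1242, l1243, l1218, l12260, l12250, l12214, l12164, l12166, o4863, l390, l2835, o3460, l12211, o5341, l12227, l12248, l3423, o8525, l1700, l494, o4502, o5343, o2350, l3137, o6726, l3779, l5133, l5794, o4804, o4524, o4525,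 l4160, l13190, l4410, l13193, l3318, l3319, l13194, l12133, o1975, l13195, l4082, l13178, l13132, l7926, o5407, l2708, o8839] l13196 := rupP (by decide +kernel)
theorem r13197 : PImp [l3927, o1152, l12277, l3933, l476, l472, l13115, l5036, l12135, l5112, l2994, l13196, l2846, o3543, l12239, l12300, l390, l12174, l1412, l13089, l9238, o4494, l483, l485, l12258, l12997, o340, l12227, l11267, l3137, o8525, o5356] l13197 := rupP (by decide +kernel)
theorem r13198 : PImp [l3927, l5036, o4510, o4504, l3807, l3806, o6726] l13198 := rupP (by decide +kernel)
theorem r13199 : PImp [l5036, o340, o781, o761, o353, o342] l13199 := rupP (by decide +kernel)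
theorem r13200 : PImp [l11453, l12135, l485, o4481, o5398, o5399, l12244, l12181, o8374, o8525, o3549, o8526] l13200 := rupP (by decide +kernel)
theorem r13201 : PImp [l13115, l13119, l4967, o4905, o4899, l4846, l2915] l13201 := rupP (by decide +kernel)
theorem r13202 : PImp [l13115, l5274, l2993, l2994, l13198, l3000, l2998, l2996, l5036, l4376, l4374, l3423, o5506, o5008, o5004, l2915, l4385] l13202 := rupP (by decide +kernel)
theorem r13203 : PImp [l13115, l5274, l2993, l2994, l13198, o5380, l5178, l2998, l2996, o5169, o5483, l1243, l13202, l13201, l1412, l4834, l4967, o4315, o4317, l3807, l5726] l13203 := rupP (by decide +kernel)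
theorem r13204 : PImp [l5039, l12194, l12195, l13197, l5274, l3927, o1152, o1159, o1569, l13115, l5036, l2993, l2994, l2992, l13198, l13203, o4481, l12221, o340, o297, l13200, l13199] l13204 := rupP (by decide +kernel)
theorem r13205 : PImp [l3927, l5036, l5794, l3144, l3806] l13205 := rupP (by decide +kernel)
theorem r13206 : PImp [l13115, l4376, l4375, l5798, l3375, l4404, o2899, l4639, l5275] l13206 := rupP (by decide +kernel)
theorem r13207 : PImp [l13115, l12135, l13206, l5831, o1969, l4639, l5169, o2370, l5275, l12171, l1770, o2899, o3059, l10267] l13207 := rupP (by decide +kernel)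
theorem r13208 : PImp [l494, l433, l429, o2393, l7733, l4083, l13148, l11962, l9140] l13208 := rupP (by decide +kernel)
theorem r13209 : PImp [l12662, o5513, l11377] l13209 := rupP (by decide +kernel)
theorem r13210 : PImp [l12268, l5276, l4655, l1316, o1160, l13208, l13209, l12618, l7495, l4603] l13210 := rupP (by decide +kernel)
theorem r13211 : PImp [l7495, l5519] l13211 := rupP (by decide +kernel)
theorem r13212 : PImp [l404, o358, l13186, l2596, o9045, o3838] l13212 := rupP (by decide +kernel)
theorem r13213 : PImp [l404, l1357, o2393, l13211, o5513, l13212, l4597, l4083, o3838, o9033] l13213 := rupP (by decide +kernel)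
theorem r13214 : PImp [l4438, l13115, l5039, o297, l13199, o771, l12277, l3933, o1124, o1117, o1566, l13197, l13204, l1357, l476, l472, l4655, o4482, o4491, l12274, l483, l5274, l5036, l433, l429, l1254, l3442, o4502, o4561, o4537, o4550, o4529, l5276, l494, l490, l13205, l13207, l3386, l3367, o3478, l3389, l2901, l404, o5167, o5193, o5380, o5469, l1242, o4498, l5113, l1360, l12195, l3927, o1152, o1159, o1575, o1569, l11453, l12135, l5831, l4848, o1969, l4639, l2817, l2819, o2367, l5275, l12171, l12228, o8377, o9152, o3056, l12245, l12181, o8680, o8986, o2889, l13210, l3319, l13213, o1975, l12311, l13188, l6707] l13214 := rupP (by decide +kernel)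
theorem r13215 : PImp [l494, l433, l429, o2393, l7733, l11962, o5513, l9140, l4608, l13148, l2707, o9147] l13215 := rupP (by decide +kernel)
theorem r13216 : PImp [l404, l503, l433, l429, o1160, l13215, o1975, l13209, l9714, l12618, l4603] l13216 := rupP (by decide +kernel)
theorem r13217 : PImp [l1357, o2393, l13211, o5513, l13212, l6341, l4597, l2544] l13217 := rupP (by decide +kernel)
theorem r13218 : PImp [l13115, l12277, l3933, o1124, o1117, o1566, l13197, l13204, l1357, l476, l472, l4655, o4482, o4491, l12274, l483, l5274, l5036, l433, l429, l1254, l3442, o4502, o4561, o4537, o4550, o4529, l5276, l494, l490, l13205, l13207, l3386, l3367, o3478, l3389, l3025, l2918, l2901, l2895, o3573, o5167, o5193, o5380, o5469, o5468, l1242, l5113, l1360, l1316, l5039, l12195, l3927, o1152, o1159, o1575, o1569, o1565, l12123, l11453, l12135, l4438, o297, l13199, o771, l13214, o342, l4375, l4377, l4404, l5170, l2274, l4386, o1969, o3117, o8787, l2817, l2819, o2367, o3548, o3798, o9152, l12245, o8680, o8986, l12270, l12268, l13216, l3319, l13217, o1975, l12311, l13188, l6707] l13218 := rupP (by decide +kernel)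
theorem r13219 : PImp [o5824, l8380] l13219 := rupP (by decide +kernel)
theorem r13220 : PImp [o2393, o1160, l404, l494, l490, o358, l13181, l13219, o5513, l12090, l7243, o3838] l13220 := rupP (by decide +kernel)
theorem r13221 : PImp [o1160, l5275, l13220, l4083, l13148] l13221 := rupP (by decide +kernel)
theorem r13222 : PImp [l7495, l4598] l13222 := rupP (by decide +kernel)
theorem r13223 : PImp [l404, l4655, l433, l429, l1254, l5276, l1357, o1160, l13221, o1975, l13209, l4083, l13222, o5513, l4603, o9099, o3838] l13223 := rupP (by decide +kernel)
theorem r13224 : PImp [l13115, l4655, l433, l429, l1254, l3386, l3367, l3389, l2901, l5276, l5036, l3442, o4529, l494, l490, l13205, o4550, o4537, o4561, l5113, l13197, l5274, l3927, l5831, l4848, l4639, l2817, l2819, l5275, l13223, l3319, l13213, o1975, l12311, l4083, l12087, o5513, l2618, l6707, l8214] l13224 := rupP (by decide +kernel)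
theorem r13225 : PImp [l11930, o2442, l3308, l11673, o6297] l13225 := rupP (by decide +kernel)
theorem r13226 : PImp [l4053, l8553, l8851, o3938, o4036, l4008, l3997, o947, o1647, l5808] l13226 := rupP (by decide +kernel)
theorem r13227 : PImp [l4655, l433, l429, l1254, l5113, l1316, l13225, l3068, l3075, o2449, l13226, l7031, l8660] l13227 := rupP (by decide +kernel)
theorem r13228 : PImp [l786, l4655, l433, l429, l1254, l1316, l5274, l5034, l13227, l4763, l7613, l2779, o3895, l5978, l5977, l5020, l5028, l5015, l5265] l13228 := rupP (by decide +kernel)
theorem r13229 : PImp [l4655, l433, l429, l5276, l1360, l13228, l6595, l10973, l712, o3936, o2453, l6290, l6321] l13229 := rupP (by decide +kernel)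
theorem r13230 : PImp [l4053, l8508, l8851, o3938, o4036, l4008, l3997, o947, o1647, l5808] l13230 := rupP (by decide +kernel)
theorem r13231 : PImp [l4655, l433, l429, l1254, l5113, l1316, l13225, l3068, l3075, o2449, l13230, l7031, l8660] l13231 := rupP (by decide +kernel)
theorem r13232 : PImp [l786, l4655, l433, l429, l1254, l1316, l5274, l5034, l13231, l4763, l7613, l2779, o3895, l5978, l5977, l5020, l5028, l5015, l5265] l13232 := rupP (by decide +kernel)
theorem r13233 : PImp [l5276, l1360, l706, l712, o5985] l13233 := rupP (by decide +kernel)
theorem r13234 : PImp [l5113, l13229, l13232, o35, l6595, o113, o869, l13233, l3067, o2442, o2447, o2674, o2638, l6508, o4132, l4002, o8979, o1647, o5929, o1758, o3994, o4035, o6188, l5808, o1530] l13234 := rupP (by decide +kernel)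
theorem r13235 : PImp [l4053, l8553, l8851, o3938, o4036, l4008, l3997, o947, o1647, l7171, o6164] l13235 := rupP (by decide +kernel)
theorem r13236 : PImp [l4655, l433, l429, l1254, l5113, l1316, l13225, l3068, o2691, l3075, o2449, l13235, l7031, l8660] l13236 := rupP (by decide +kernel)
theorem r13237 : PImp [l786, l4655, l433, l429, l1254, l1316, l5274, l5034, l13236, l4763, l7613, l2779, o3895, l5978, l5977, l5020, l5028, l5015, l5265] l13237 := rupP (by decide +kernel)
theorem r13238 : PImp [l4655, l433, l429, l5276, l1360, l13237, l6595, l10973, l13233, o3936, o2453, l6290, l6321] l13238 := rupP (by decide +kernel)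
theorem r13239 : PImp [l4053, l8508, l8851, o3938, o4036, l4008, l3997, o947, o1647, l7171, o6164] l13239 := rupP (by decide +kernel)
theorem r13240 : PImp [l4655, l433, l429, l1254, l5113, l1316, l13225, l3068, o2691, l3075, o2449, l13239, l7031, l8660] l13240 := rupP (by decide +kernel)
theorem r13241 : PImp [l786, l4655, l433, l429, l1254, l1316, l5274, l5034, l13240, l4763, l7613, l2779, o3895, l5978, l5977, l5020, l5028, l5015, l5265] l13241 := rupP (by decide +kernel)
theorem r13242 : PImp [l5276, l13234, l13238, l13241, l6595, l13233, o2442, o2453, o2447, l6508, l6321, l4041, l3305] l13242 := rupP (by decide +kernel)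
theorem r13243 : PImp [l5034, l13236, l7613, l7154] l13243 := rupP (by decide +kernel)
theorem r13244 : PImp [l4655, l433, l429, l5276, l1360, l13243, l6595, l10973, l13233, o3936, o2453, l6290, l6321] l13244 := rupP (by decide +kernel)
theorem r13245 : PImp [l5034, l13240, l7613, l7154] l13245 := rupP (by decide +kernel)
theorem r13246 : PImp [l786, l5276, l5113, l5274, l13242, l13244, l13245, o35, l6595, o113, l13233, l3067, o2442, o2453, o2447, o2638, l6508, l6321, l3305, l4002, l7839, o1610, l12148, o1647, o5929, o1614, o3994, o4035, o6188, l5808, o1530] l13246 := rupP (by decide +kernel)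
theorem r13247 : PImp [l4053, l8549, l8851, o3938, o4036, l4008, l3997, o947, o1647, l7171, o6164] l13247 := rupP (by decide +kernel)
theorem r13248 : PImp [l4655, l433, l429, l1254, l5113, l1316, l13225, l3068, o2691, l3075, o2449, l13247, l7031, l8660] l13248 := rupP (by decide +kernel)
theorem r13249 : PImp [l786, l4655, l433, l429, l1254, l1316, l5274, l5034, l13248, l4763, l7613, o3895, l5978, l5025, l5020] l13249 := rupP (by decide +kernel)
theorem r13250 : PImp [l3311, l4070] l13250 := rupP (by decide +kernel)
theorem r13251 : PImp [o1160, l786, l2901, l4655, l5113, l1357, l5274, l12135, o2393, l13220, l11962, l13148, o5513, l4608, l2707, l2791, o9147, o8906, o6714, l1127, l13246, l13249, l6595, l13233, o2442, o2453, o2447, l13250, l2779, o3895, l6301, l5809, l6130, l8118] l13251 := rupP (by decide +kernel)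
theorem r13252 : PImp [l404, l503, l4655, l433, l429, l1254, l5276, o1132, o1160, l13251, o1975, l13209, l9714, o5513, l4603, o3838, o9108, o9099] l13252 := rupP (by decide +kernel)
theorem r13253 : PImp [o5825, l2618, l6707, l2707, o8891, o9153] l13253 := rupP (by decide +kernel)
theorem r13254 : PImp [l5039, l13197, l5274, l3927, o1152, l12277, l3933, o1124, o1117, o1566, l476, l472, l13115, l5036, l12195, l12194, l13204, l1357, l1360, l5113, l4655, l5276, l433, o4498, o4491, o4482, l429, l12274, l1254, l483, o5167, l3442, l485, l1242, l494, o5470, o4502, o4561, o4537, o4550, o4529, l490, l13205, l3025, l13207, l3386, o5193, l2895, l2901, l2918, l3389, l3367, l13218, l12280, l12302, l12279, l12221, l12245, l12282, o3556, l12209, l12225, l13224, l4375, l4377, l4404, l5170, l4386, l4640, l4639, o2765, o2783, o3117, l2817, l2819, l13252, l3319, l13217, o1975, l12311, l13253, o5511, l7495, l5787, o2924] l13254 := rupP (by decide +kernel)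
theorem r13255 : PImp [l3927, o1152, o1159, o1569, l13115, l5036, l11453, l12135, l5039, l13254, l2846, o3542, o3543, l12252, l390, l12249, l485, o5333, l12213, l12225, o340, o297, l12227, l13199, o8817, o8526, o5749, o8525] l13255 := rupP (by decide +kernel)
theorem r13256 : PImp [l5274, l13115, l2996, l2993, l2994, l2998, l3009, l13198, l12264, l429, o4395, o4888, o4884, l433, l1243, l2915, l1412, l13202, l4846] l13256 := rupP (by decide +kernel)
theorem r13257 : PImp [l1360, l7495, l11660] l13257 := rupP (by decide +kernel)
theorem r13258 : PImp [o358, l8126, o3838, l2592, l5768] l13258 := rupP (by decide +kernel)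
theorem r13259 : PImp [l4655, l433, l429, l1254, l1138, l1242, l7495, l11962, l6007] l13259 := rupP (by decide +kernel)
theorem r13260 : PImp [l12267, l12268, l494, l4655, l433, l429, l1254, l1316, o2393, l7733, l4082, l13259, o5513, o5407, l12289, o3749, o3824, l8367, o9147] l13260 := rupP (by decide +kernel)
theorem r13261 : PImp [l503, l4655, l433, l429, l1254, l5276, o1132, o1160, l13260, o1975, l13209, l9714, l4082, o5407, l4603, l12289, o3749] l13261 := rupP (by decide +kernel)
theorem r13262 : PImp [l13115, l5036, l13255, l5038, o340, l13197, l3927, o1152, o1159, o1575, l12277, l3933, l476, l472, l12135, l13256, l5113, l4655, l5276, l433, o4491, o4482, l429, l1254, l3442, l12157, l12160, l494, o4529, l2942, l12231, l12158, l490, l12260, l12240, l12165, o5461, l13205, l485, l12259, l3804, l12268, l12163, l12167, o8679, o3058, o3072, o3572, o2984, o1969, l4639, l3137, o3563, o2367, l4159, l3375, l2819, o5376, l2817, l13261, l3319, l13217, o1975, l13257, o5513, l13258, l13253, l6707, l1594, o9152] l13262 := rupP (by decide +kernel)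
theorem r13263 : PImp [l12277, l3933, l476, l472, l13115, l5036, l12135, l3927, o1152, l13255, l5038, o340, l13262, l2846, o3543, l12239, l12300, l12174, l390, l12258, l11372, l12211, o8525, l1412, l12227, o5343, o5356, l3137, o4553, l4638] l13263 := rupP (by decide +kernel)
theorem r13264 : PImp [l4846, l13109, l11802, l4838] l13264 := rupP (by decide +kernel)
theorem r13265 : PImp [l3000, l2998, l2996, l13115, l5036, l501, l498, l495, l3431, l6132, l4397, l4395, o4554, l1412, l13264, l4376, l4385, l11802] l13265 := rupP (by decide +kernel)
theorem r13266 : PImp [l13265, l2998, l2996, l13115, l5036, l494, l3431, l2720, l6132, l4397, l4395, o4554, l2741, l1412, l4846, l4385] l13266 := rupP (by decide +kernel)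
theorem r13267 : PImp [l5036, l4401, l6132, l4399, l3447] l13267 := rupP (by decide +kernel)
theorem r13268 : PImp [l6253, l2274, o342, l4846, l13109, l4967, o4907] l13268 := rupP (by decide +kernel)
theorem r13269 : PImp [l13263, l12277, l3933, o1124, o1117, o1565, l13115, l5036, l12123, l3008, l2996, l2998, l3000, l13265, l13266, o5364, l3423, l13267, l4395, o4872, l4397, l1217, l3450, l13268, l668, o8481] l13269 := rupP (by decide +kernel)
theorem r13270 : PImp [l11453, o8624, l13115, o5487, l3375, l5193, o3563] l13270 := rupP (by decide +kernel)
theorem r13271 : PImp [o3556, l4655, l433, l429, l1254, l1360, l1357, l1316, l13263, l12277, l3933, o1124, o1117, o1565, l13115, l5036, l12135, o1158, o1156, o1152, o1572, o1589, o8525, o5356, o4545, l5987, l6169, o5460, l13270, o5380, l3386, l9235, l3367] l13271 := rupP (by decide +kernel)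
theorem r13272 : PImp [l13115, l5036, l5039, o297, l12194, l13269, l4655, l433, l429, l1254, l3442, l12277, l476, o4491, l12274, l483, o5470, l1360, l1357, l4438, l13199, o771, o340, l3933, o1116, l12135, o3556, o3464, l12255, l12152, o5339, o8814, o2345, l13271, o1118, o8785] l13272 := rupP (by decide +kernel)
theorem r13273 : PImp [l5128, l4386, o2799, o2773] l13273 := rupP (by decide +kernel)
theorem r13274 : PImp [l13115, l5036, l1316, l1357, l5112, l4655, l433, l429, l1254, l3442, l494, o4567, o4550, o4540, l5987, l6169, l4397, l13273, l4848, l5725, o2773, l4838, o2799] l13274 := rupP (by decide +kernel)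
theorem r13275 : PImp [l3009, l2994, l2996, l12277, l5036, l3216, l6132, l13267, l3447, l12194, l4416, l5039, o4875, l12264] l13275 := rupP (by decide +kernel)
theorem r13276 : PImp [l13115, l5036, l13263, l13274, l13266, l3423, l13265, o5380, l2996, l3008, l12277, l3012, l3009, l13275, l4395, o4872, o4884, o4960, l4397, l1218, l12264, l1243, l12314, l12251, l12195, l390, l12234, l13272] l13276 := rupP (by decide +kernel)
theorem r13277 : PImp [l13115, l5036, l12123, l12277, l3933, o1117, o1124, o1565, l13263, l13274, l13266, o5364, l3423, l13276, o3541, l12300, o8481, l6253] l13277 := rupP (by decide +kernel)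
theorem r13278 : PImp [l12292, l2994, l3216, l5794, l10323, o4696, l12172, l12131] l13278 := rupP (by decide +kernel)
theorem r13279 : PImp [l13277, l480, l485, l11270, l12304, l12318, o3556, l13115, l12288, o297, l13199, l12286, l12292, o2880, l2994, l2993, l2996, l3008, l5036, o340, l11364, l11453, l12135, l3927, o1159, o1152, o1569, l13278, l3137, l11267, l494, l3776, o8525, l498, o4872, l1218, l3389, o3564, o8817, o5776, o4993, o4990, l3807, o6726] l13279 := rupP (by decide +kernel)
theorem r13280 : PImp [l6132, l3457] l13280 := rupP (by decide +kernel)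
theorem r13281 : PImp [l13115, l5036, l11453, l12135, o1156, o6726, o1572, o1589, o1969, l4420, o8786, o2367, o4943, o4970, l9235, o4843, o4837, o4800, l5248, l4850] l13281 := rupP (by decide +kernel)
theorem r13282 : PImp [l5036, o6694, o6762, l4420, l5682] l13282 := rupP (by decide +kernel)
theorem r13283 : PImp [l13115, l13282, l3933, o1117, o1124, o1565, l13281] l13283 := rupP (by decide +kernel)
theorem r13284 : PImp [l13115, l11270, l12288, o297, l13199, l12304, l11364, l12286, l5036, l12193, l4438, o771, l13282, o6726, l4420, l5682, l13283, l12199, l12206] l13284 := rupP (by decide +kernel)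
theorem r13285 : PImp [l13115, l5036, l13277, l480, l11270, l12292, l12286, l12288, l485, l12304, l3008, l2996, l2993, l2994, l2995, l2998, l3000, l3009, l12318, l13279, l13265, l13266, l3423, l13280, l4395, o4872, l4397, l1217, l1218, l3450, l3389, o4891, o4901, o3564, l4969, l4967, l13284, l11223, l11233, o4482, o4471, o4459, l12198, l12173, l12199, l12317] l13285 := rupP (by decide +kernel)
theorem r13286 : PImp [l13285, l11371, l480, l485, l11270, l11362, l3000, l2994, l13115, l5039, l11465, l12254, l4967, l12232, l13129, l12224, l1412, l12203, l1243, l5794, l1137, l13146, l4374] l13286 := rupP (by decide +kernel)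
theorem r13287 : PImp [l11371, l480, l485, l11270, l11362, l3935, l12291, l12259, l12266, l12224, l2846, l12215] l13287 := rupP (by decide +kernel)
theorem r13288 : PImp [l13115, l5036, l12135, l13285, l3935, l11362, l11371, o1127, l3933, l2995, l3000, l480, l11270, o1124, l485, l13287, l5039, l11465, l4438, l13286, l12254, l4967, l12232, l13129, l12193, l12224, l1412, l3011, l3012, l12192, l12236, l1243, l3431, l12321, l12175, l12129, l1137, l498, o4869, o4295, o5377, l4374, l1210, o4346, o4339, o305, l3389, l4867, o777, o3554, o1969, o2370, o8465, o1576, o1591] l13288 := rupP (by decide +kernel)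
theorem r13289 : PImp [l3216, l13288, l13115, l5036, l12123, l10276, l10278, l1145, l494, o4529, l4188, l3807, l4639] l13289 := rupP (by decide +kernel)
theorem r13290 : PImp [l12277, l3933, o1124, o1117, o1565, l476, l472, l13288, l2820, l13115, l13289, o3469, l12300, l1412, l433, l4967, l429, l2819, l12239, l12174, o4541, l4638] l13290 := rupP (by decide +kernel)
theorem r13291 : PImp [l13115, l5036, o340, l13290, l12277, l3933, o1124, o1117, o1565, l3927, o1152, l13288, l12123, l12135, o3467, o3469, l3010, l10276, l10278, l1145, l494, o4472, l3136, l12189, o8679, o8374] l13291 := rupP (by decide +kernel)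
theorem r13292 : PImp [l13290, l3008, l12277, l3933, l476, l472, l3927, o1152, o1159, o1575, o1569, l13288, l2820, l13115, l5036, l11453, l12135, o340, l13291, l2846, l12239, l12300, l12174, l390, o297, l1412, l13089, l13199, l433, o4482, l483, o4688, l429, l12963, l485, l1218, l4438, l12227, l3444, l3389, o771, l494, l3427, o5469, o5470, o5487, l3136, o8817, o8679, l1669, o8751, l1590] l13292 := rupP (by decide +kernel)
theorem r13293 : PImp [l13288, l13115, l12123, o3469, l11800, l10276, o4484, l1145] l13293 := rupP (by decide +kernel)
theorem r13294 : PImp [l12277, l3933, o1124, o1117, o1565, l476, l13292, l5038, l13293, l2846, l12252, l12300, l12249, l1412, l12997, o4494] l13294 := rupP (by decide +kernel)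
theorem r13295 : PImp [l4655, l433, l429, l5112, l5274, l13288, l2926, l2920, l2896, o3128, l13115, o4567, o4502, o4529, o4532, l5169, l5171] l13295 := rupP (by decide +kernel)
theorem r13296 : PImp [l13288, l13115, l5036, l12123, l12277, l3933, o1117, o1124, o1565, l13294, l4655, l433, l429, l1254, l13295, o5364, l10278, o9097, o3469, l6253, l12300] l13296 := rupP (by decide +kernel)
theorem r13297 : PImp [l11453, l12135, o5452, o5453, o8680, o8679] l13297 := rupP (by decide +kernel)
theorem r13298 : PImp [l5036, l3216, l5794, l2536, l4411, l2535] l13298 := rupP (by decide +kernel)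
theorem r13299 : PImp [l13288, l13115, l5036, l12135, l3927, o1159, o1152, o1569, l13296, l11270, l12292, l12286, l12288, o340, l12304, o3467, o3468, o2880, o297, l13199, l13297, l3444, l1210, l429, o4696, o4874, l433, l3007, l12172, l12131, l1412, o8679, o8374, l13298, o5447, l4186] l13299 := rupP (by decide +kernel)
theorem r13300 : PImp [l12277, l3933, o1124, o1117, o1565, l13299, l13288, l2820, l404, l13115, l5036, l12123, o3469, l13293, l13057, l10276, l10278, o340, l1145, l494, l3427, l1209, l1210, o4540, l1102, l12314, l3389, o775, l2274, l12195, o342, l3351, o5197, l1243, l6169, l3449, l4400, l4402] l13300 := rupP (by decide +kernel)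
theorem r13301 : PImp [l476, l472, l13299, l13288, l13115, l5036, l3008, l13300, l12252, l12300, l1412, l13089, l433, o4482, o5167, o4688, l429, l1243, l1218, l3444, l494, l3427, o4540, l3455, l6169] l13301 := rupP (by decide +kernel)
theorem r13302 : PImp [l4655, l433, l429, l13288, l2910, l13115, l5036, l494, l3427, o4540, l4396, l3449, l4400] l13302 := rupP (by decide +kernel)
theorem r13303 : PImp [l13299, l13288, l13115, l5036, l12123, l12277, l3933, o1117, o1124, o1565, l13301, l4655, l433, l429, l1254, l13302, o5364, l10278, o9097, o3469, l6253, l12300] l13303 := rupP (by decide +kernel)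
theorem r13304 : PImp [l12135, l12134, o2385, o2367] l13304 := rupP (by decide +kernel)
theorem r13305 : PImp [l13115, l13303, l11270, l12288, o297, l13199, l480, l485, l12304, l12318, l13288, l12286, o3470, o3468, o3467, l5036, o340, l13304, l12135, o5450, o5453, l3427, o8623, o8679, l13297, l11223, o1569, o1578, l4438, o8626, o771] l13305 := rupP (by decide +kernel)
theorem r13306 : PImp [l13288, l13115, l5036, l13299, l13303, l12292, l12286, l3008, o3470, l13305, l498, l3444, l503, l1210, l1218, o4863, o4874, l5475] l13306 := rupP (by decide +kernel)
theorem r13307 : PImp [l12135, l13115, l5036, l13288, l13306, l11362, l11371, o1127, l13287, l480, l11270, l5039, l11465, l485, o340, l12254, l4967, l12232, l12224, l12208, o4726, o3467, l2992, l1243, l12154, l12220, l1138, o8623, l1276, o8323] l13307 := rupP (by decide +kernel)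
theorem r13308 : PImp [l11371, l12277, l3933, l476, l472, l13307, l3213, l3216, l12196, l12229, l12261, l11666, l3797, l4969, o4314, l3006, l4835, l4380, l4388] l13308 := rupP (by decide +kernel)
theorem r13309 : PImp [l11487, o2812, l11720] l13309 := rupP (by decide +kernel)
theorem r13310 : PImp [l3240, l13309, l1000, l7111, l2882, l11933, l4348, l437, l3652] l13310 := rupP (by decide +kernel)
theorem r13311 : PImp [l3008, l325, l1209, l1210, l424, l418, l4967, l13310, l4966, l878, l11496, l5034, l4502, l10801, l11568, o102, l10807, o2542, l5068, l12148, o1609, l3303, l7770, l11613, l6709, l3074, l2777, l4017, o818, o825, l11492, o1657, l2882, l2890, l11671, o1612, l339, o182, l11582, l11485, l11556, o388, o1098, o884, l11482, o2576, l4679, o4368, o6890, o6870] l13311 := rupP (by decide +kernel)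
theorem r13312 : PImp [l4967, l4966, l424, l418, l1210, l1209, l3008, l325, l13310, o1943, o2014, l13311, l11762, l2890, l11671, o182, l11485, l8907, o388, l3662, o5087, o6890, o6870] l13312 := rupP (by decide +kernel)
theorem r13313 : PImp [o1943, l11492, o2014, l2890, l11485, l8907, l3659, o5087, o6890, o6870] l13313 := rupP (by decide +kernel)
theorem r13314 : PImp [l3240, l8907, l4764, l3659, l3675, o5035] l13314 := rupP (by decide +kernel)
theorem r13315 : PImp [o182, o388, l13313, l13314, o2812, l11720] l13315 := rupP (by decide +kernel)
theorem r13316 : PImp [l11492, l11671] l13316 := rupP (by decide +kernel)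
theorem r13317 : PImp [l13315, l1000, l13316, l3240, l7111, l2882, l11933, l4348, l437, l3652] l13317 := rupP (by decide +kernel)
theorem r13318 : PImp [l1210, o1943, l11762, o2014, l2890, l11485, l8907, l3662, o5087, o6890, o6870] l13318 := rupP (by decide +kernel)
theorem r13319 : PImp [l424, l418, l3008, l325, o182, o388, l13318, l13314, o2812, l11720] l13319 := rupP (by decide +kernel)
theorem r13320 : PImp [l11762, l11671] l13320 := rupP (by decide +kernel)
theorem r13321 : PImp [l1210, l1209, l1000, l13320, l3240, l7111, l2882, l11933, l437, l4348, l3652] l13321 := rupP (by decide +kernel)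
theorem r13322 : PImp [l4966, l4967, l13321, o182, o388, l424, l418, l1210, l1209, l3008, l325, l3213, l3216, l13310, l13312, o1942, l11762, o2012, l2890, l11485, l8907, l13311, l3662, o5087, o6890, o6870] l13322 := rupP (by decide +kernel)
theorem r13323 : PImp [l1210, o1942, l11762, o2012, l2890, l11485, l8907, l3659, o5087, o6890, o6870] l13323 := rupP (by decide +kernel)
theorem r13324 : PImp [l13314, o2812, l11720] l13324 := rupP (by decide +kernel)
theorem r13325 : PImp [l4967, l4966, l424, l418, l1210, l1209, l3008, l325, l3213, l3216, l13321, o182, o388, l13322, l13324, l13323, l13317, l13319] l13325 := rupP (by decide +kernel)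
theorem r13326 : PImp [o6890, o6870] l13326 := rupP (by decide +kernel)
theorem r13327 : PImp [l424, l418, l1210, l3008, l325, o182, l13309, o388, o1943, l11762, l2882, l2890, l11582, l11485, l3241, o1807, o1982, l13326, o5081, o5083, l11945] l13327 := rupP (by decide +kernel)
theorem r13328 : PImp [l1000, l3240, l7111, l2882, l11933, l437, l8521, l3652] l13328 := rupP (by decide +kernel)
theorem r13329 : PImp [l1210, l1209, l13328, l13320] l13329 := rupP (by decide +kernel)
theorem r13330 : PImp [l4967, l4966, l424, l418, l1210, l503, l3008, l325, l3213, l3216, l13325, l13329, o182, l13327, o388, l13324, l13323, l13315, l13319] l13330 := rupP (by decide +kernel)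
theorem r13331 : PImp [l2882, l2890, l11582, l11485, l3241, o1807, o1982, l13326, o5081, o5083, l11945] l13331 := rupP (by decide +kernel)
theorem r13332 : PImp [l12147, o1943, l13331, o3280, l11529, o5047, o8515, o6949] l13332 := rupP (by decide +kernel)
theorem r13333 : PImp [l11371, l12255, o182, o180, o388, l13332, l13309, l13324] l13333 := rupP (by decide +kernel)
theorem r13334 : PImp [l11671, l2973, l7605, l11957] l13334 := rupP (by decide +kernel)
theorem r13335 : PImp [l4967, l4966, l11371, l12253, l12227, l485, l483, l13089, l12150, l12255, l424, l418, l1210, l1209, l503, l3008, l325, l12277, l3933, l13330, l13333, l1000, l13334, l3240, l7111, l2882, l11933, l437, l4354, l3652] l13335 := rupP (by decide +kernel)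
theorem r13336 : PImp [l1210, l11762, l2882, l11582, l3677, l436, o5029, l3715, l11945, l3705, l4352] l13336 := rupP (by decide +kernel)
theorem r13337 : PImp [l424, l418, l3008, l325, l13336, l13309, l13324] l13337 := rupP (by decide +kernel)
theorem r13338 : PImp [l13337, l13321, l13329] l13338 := rupP (by decide +kernel)
theorem r13339 : PImp [l2882, l11582, l3677, l436, o5029, l3715, l11945, l3705, l4352] l13339 := rupP (by decide +kernel)
theorem r13340 : PImp [l12147, l13339, o3280, l11529, o5047, o8515, o6949] l13340 := rupP (by decide +kernel)
theorem r13341 : PImp [l11371, l12255, o180, l13340, l13309, l13324] l13341 := rupP (by decide +kernel)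
theorem r13342 : PImp [l4967, l4966, l11371, l12253, l12227, l485, l483, l13089, l12150, l12255, l424, l418, l1210, l1209, l3008, l325, l13335, l13338, l13341, l1000, l13334, l3240, l7111, l2882, l11933, l437, l4354, l3652] l13342 := rupP (by decide +kernel)
theorem r13343 : PImp [l1210, o1943, l11762, l13331] l13343 := rupP (by decide +kernel)
theorem r13344 : PImp [o1645, o1629, o1753, o6001, o6266, o4049] l13344 := rupP (by decide +kernel)
theorem r13345 : PImp [l3240, l3241, l1138, l1137, l4967, l878, l1210, l11371, l12277, o1117, l3933, l2882, l2889, l2890, l2885, l8907, l4764, l3659, o1098, l3675, l3687, l442, o5087, o5086, o4373, o4385, o5032, o5022, o1179, o1183, o5045, l11496, l3642, l13326, o6850, o6835, l3699, l5034, l4502, l10801, l11568, o1987, o2007, o2699, l4500, l4526, o101, o2442, l5068, o2450, o2483, o1982, o7018, l4677, o38, o54, o2486, l3303, l4059, l8702, o3895, o3917, o2478, l4046, l4009, o818, o877, o821, l13344, o5964, o3931, o3933, o6266, o6201, o1659] l13345 := rupP (by decide +kernel)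
theorem r13346 : PImp [l4966, l4967, l1138, l1137, l13321, o182, o387, o388, o4568, l424, l418, l503, l3008, l325, l2992, l11371, l12277, l3933, l13322, l13343, l13345, o2812, l11720] l13346 := rupP (by decide +kernel)
theorem r13347 : PImp [l1210, l11371, l12277, o1117, l3933, l476, l472, l3213, l3216, l12146, o1942, o1943, l11762, o2004, o2005, l2882, o3253, l2883, l2884, l2888, l11582, o1098, l3677, o1178, l436, o5041, o5043, o5044, o7017, l3715, o7016, o376, o173, o365, o364, o8335, o1181, l11549, o6897, o2013, o2009] l13347 := rupP (by decide +kernel)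
theorem r13348 : PImp [l2889, l8907, l4764, l3659, o1098, o5086, o1183, o6850, o6889] l13348 := rupP (by decide +kernel)
theorem r13349 : PImp [l424, l418, l3008, l325, l11371, l12277, l3933, l13347, l3240, l13309, l13348, o2812, l11720] l13349 := rupP (by decide +kernel)
theorem r13350 : PImp [l11371, l3010, o4472, l12189, l12253, o3556, l1642, o4568, l4967, l4966, l3009, l12277, l12264, l12227, l485, l12244, o3549, l483, l12177, l13089, l12153, l12249, l12150, l12255, l12188, l2992, l13342, l1137, l1138, l13321, o182, o387, l13349, o8574, l13346] l13350 := rupP (by decide +kernel)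
theorem r13351 : PImp [o182, o387, o388, l4967, l4966, l424, l418, l503, l3008, l325, l13327, l13343, l13324, l13345, o2812, l11720] l13351 := rupP (by decide +kernel)
theorem r13352 : PImp [l4967, l11371, l12277, l3009, l12264, l3010, o4472, l12189, l12253, l12227, l485, l12244, l483, l12177, l13089, l12153, l12249, l12150, l12255, l12188, l424, l418, l1210, l503, l3008, l325, l13351, l1138, l13333] l13352 := rupP (by decide +kernel)
theorem r13353 : PImp [l1000, l2882, l11933, l437, l3652, l4325, l4348] l13353 := rupP (by decide +kernel)
theorem r13354 : PImp [l4967, l4966, l11371, l12277, l3009, l12264, l3010, o4472, l12189, l12253, l12227, l485, l12244, l483, l12177, l12153, l12150, l12255, l1209, l13352, l13334, l3240, l13353, l7875, l11559] l13354 := rupP (by decide +kernel)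
theorem r13355 : PImp [l11371, l3010, o4472, l12189, l12253, o3556, l1642, l12277, l3009, l12264, l12227, l485, l12244, l483, l12177, l13089, l12153, l12249, l12150, l12188, l424, l418, l1210, l3008, l325, o182, o387, l13349, l1138, l13341] l13355 := rupP (by decide +kernel)
theorem r13356 : PImp [l3009, l11371, l12277, l12264, l3010, o4472, l12189, l12253, l12227, l485, l12244, o3549, l483, l12177, l12153, l12150, l12255, l1210, o340, o351, l5035, l3927, o1152, l3213, l4966, l4967, o4566, o4568, l4189, l4593, l4767, l4779, l13350, o9042, l13354, l13355, l13334, l3240, l13353, l7941, l11559] l13356 := rupP (by decide +kernel)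
theorem r13357 : PImp [l8363, o183, o4575, o5067, o6961, o6456, o3243] l13357 := rupP (by decide +kernel)
theorem r13358 : PImp [o1943, l11955, l13331] l13358 := rupP (by decide +kernel)
theorem r13359 : PImp [l415, l11486, o4055, o5890, o5999, o2581] l13359 := rupP (by decide +kernel)
theorem r13360 : PImp [l5034, l4526, l3308, l3303, o3980, o3974, o4116, l4718, l4694, o2479, l3975, l4735] l13360 := rupP (by decide +kernel)
theorem r13361 : PImp [l11371, l12277, l3933, o1132, l13140, o5407, l10402] l13361 := rupP (by decide +kernel)
theorem r13362 : PImp [l3240, l3241, l2882, l2890, l11487, l8907, l4764, l3659, l3675, l442, o5087, o5032, l436, o4363, l3642, l13326, l3699, l434, l4500, l4676, o1002, l13357, o2394] l13362 := rupP (by decide +kernel)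
theorem r13363 : PImp [o1160, l13361, l9777, l8363] l13363 := rupP (by decide +kernel)
theorem r13364 : PImp [o1160, l13361, l13181, l13362] l13364 := rupP (by decide +kernel)
theorem r13365 : PImp [l13307, l3434, l3441, l13309, l3240, o351, l5035, o182, o388, l1137, l498, l503, l3350, l3361, l3372, l2882, l2890, l8907, l4764, l3659, l3675, o5087, o5032, o4363, l13326, l3699, l4500, l4676, l13364, l3319, l7919, l12485, l3315, l9780, l4083, l4078, l8564, o5099, o5105, o2394, o6690, o6863, o3243] l13365 := rupP (by decide +kernel)
theorem r13366 : PImp [l13307, l3434, l3441, l13365, o2812, l11720] l13366 := rupP (by decide +kernel)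
theorem r13367 : PImp [l2596, l2585] l13367 := rupP (by decide +kernel)
theorem r13368 : PImp [l3319, l9780, o5099, l13367, o6690, o6561] l13368 := rupP (by decide +kernel)
theorem r13369 : PImp [l5035, l13307, l3434, l498, l503, l3350, l3361, l3372, l13368, o1160, l13361, o358, l13181, l8363, o5826, o9032, o9121] l13369 := rupP (by decide +kernel)
theorem r13370 : PImp [l3008, l325, l1209, l1210, l424, l418, l5035, l3000, l13307, l3010, l11371, o4472, l12188, l4839, l4843, l4835, l12189, l12253, l3434, l498, l503, l3350, l3361, l12227, l485, l483, l13089, l3213, l2998, l4847, o4907, o4409, l1137, l13369, l1138, l12277, l3009, l12264, l12244, l12177, l12153, l12249, l12150, l12255, l3347, l3006, o351, o182, o388, l13366, o1943, l13358, l13331, l2973, l6071, o4383, l3206, l4499, l4974] l13370 := rupP (by decide +kernel)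
theorem r13371 : PImp [l1000, l2882, l11671, l6081, l13353, l439, o5030, l4349, l3654] l13371 := rupP (by decide +kernel)
theorem r13372 : PImp [l3240, l13353, l7875, l11559] l13372 := rupP (by decide +kernel)
theorem r13373 : PImp [o4409, l1138, l1137, l13307, l3213, l2998, l5035, l3000, l3010, l11371, o4472, l12188, l4839, l4835, l4847, o4907, l12277, l3009, l12264, l12189, l12253, l3434, l498, l503, l3350, l3361, l12227, l485, l12244, l483, l12177, l13089, l12153, l12150, l12255, l4843, l424, l418, l1210, l1209, l3425, l3008, l325, l13369, l13370, l1000, l4500, l13372, l13371, l2973, l6071, l7605, o4383, l3692, l3940] l13373 := rupP (by decide +kernel)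
theorem r13374 : PImp [l2882, l2890, l11582, l11485, l8907, l3241, o1807, o1982, l13326, o5081, o5083, l3715, l3704] l13374 := rupP (by decide +kernel)
theorem r13375 : PImp [o1943, l13374, l6071, l3693, l3206] l13375 := rupP (by decide +kernel)
theorem r13376 : PImp [o5099, l12485, l10910, l7711, o2394, l4078, o6690, o6863, o3243] l13376 := rupP (by decide +kernel)
theorem r13377 : PImp [l2585, l7711] l13377 := rupP (by decide +kernel)
theorem r13378 : PImp [l3240, o351, l5035, o182, o388, l1137, l13307, l3434, l498, l503, l3350, l3361, l3372, l2882, l2890, l11487, l8907, l13364, l3659, l4764, l3319, l3315, o5087, o5032, l3675, l9780, l13326, l3699, o4363, o5512, o5099, o5105, l4500, l4676, l13376, l13377, o6690, o6561] l13378 := rupP (by decide +kernel)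
theorem r13379 : PImp [l439, o4374, l442, o6813, l4825] l13379 := rupP (by decide +kernel)
theorem r13380 : PImp [l13373, o4409, l1138, l13307, l3213, l2998, l5035, l3000, l3010, l11371, o4472, l12188, l4839, l4835, l4847, o4907, l12277, l3009, l12264, l12189, l12253, l3434, l498, l503, l3350, l3361, l12227, l485, l12244, l483, l12177, l13089, l12153, l12249, l12150, l12255, l3347, l3006, l4843, l424, l418, l1210, l1209, o351, l3441, l3008, l325, o182, o388, l13375, l3240, l3241, l13378, l2973, o2812, l11720, l13379, o4363, l3679, l3034, l3937] l13380 := rupP (by decide +kernel)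
theorem r13381 : PImp [l1000, l4500, l2882, l11671, l6081, l339, l4335, o5026, l3718] l13381 := rupP (by decide +kernel)
theorem r13382 : PImp [l1000, l4500, l1138, l13381, l2973, l6071, l7605, o4383, l3692, l3940] l13382 := rupP (by decide +kernel)
theorem r13383 : PImp [l2882, l1000, l3684, l3707, o5028] l13383 := rupP (by decide +kernel)
theorem r13384 : PImp [l1000, l1137, l2882, l13383, l4334, l4360, l436] l13384 := rupP (by decide +kernel)
theorem r13385 : PImp [o4409, l11371, l12277, l3009, l12264, l3010, o4472, l12189, l3000, l13307, l5035, l12188, l4839, l4835, l12253, l3434, l498, l503, l3350, l3361, l12227, l485, l12244, l483, l12177, l12153, l12150, l12255, l1210, l3425, l13373, l13380, l1000, l4500, l13382, l13384, l2973, l11559, l3937, l3939] l13385 := rupP (by decide +kernel)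
theorem r13386 : PImp [o340, l503, l11371, o1152, o1160, l13361, l13363, l13181, l1642, o2395, o2005, o8335, o1181, l11549, o6897] l13386 := rupP (by decide +kernel)
theorem r13387 : PImp [o1181, o1165, l11549, o993, o4851, o6897, l4979] l13387 := rupP (by decide +kernel)
theorem r13388 : PImp [l13387, o1189, o7009, o6880] l13388 := rupP (by decide +kernel)
theorem r13389 : PImp [o1984, o1980] l13389 := rupP (by decide +kernel)
theorem r13390 : PImp [l11555, l13388, o2701] l13390 := rupP (by decide +kernel)
theorem r13391 : PImp [o312, l5661, l8560] l13391 := rupP (by decide +kernel)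
theorem r13392 : PImp [l13307, l3213, l3216, o1942, o1943, l13389, l3927, l2998, l5035, l3000, l3010, l11371, o4472, l12188, l4839, l4835, l4847, o1152, o1159, o1569, o1575, l2994, l13308, l12195, l12194, l3434, l498, o5363, l3441, l3425, o351, o305, o799, l3009, l12277, l12264, l4438, o771, l4843, l3372, l503, l3350, l3361, l3347, l2995, l4868, l2746, o4345, l12189, l12253, l12255, l1246, l13356, o4905, o4907, o4409, l1138, l10213, o1979, l12147, l12146, o182, o388, o180, l13385, l1137, l12227, l485, l12244, l483, l12177, l13089, l12153, o3556, l3006, l424, l418, l1210, l1209, l3008, l325, l3933, o1124, l476, l472, l2882, o3253, l2884, o3261, l2888, l2890, l2886, l11582, l339, o1098, o1133, l3677, o1183, l436, o5051, o5041, o5044, o5047, l434, l3715, o7020, o7016, o7019, l3721, o173, o1097, o365, o364, l13386, l3318, l3319, l9780, o5407, o5099, l13390, o1808, l8907, o1983, l3704, o992, o5083, o5078, o1166, o1167, o9039, o6897, l13391, o6690, o6543] l13392 := rupP (by decide +kernel)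
theorem r13393 : PImp [l13307, l11371, l3927, o1152, o1159, o1569, o1575, l2994, l2998, l3000, l13308, l12195, l12194, l3434, l498, o5363, l3441, l3425, l5035, l3010, o4472, l12188, l4839, o351, o305, o799, l3009, l12277, l12264, l4438, o771, l4843, l4835, l3372, l503, l3350, l3361, l3347, l3213, l3216, l2995, l4868, l2746, o4345, l12189, l12253, l12255, l1246, l13356, o4409, l1138, l12227, l485, l12244, l483, l12177, l12153, l12150, l3008, l325, l13392, l2973, l3014, o2812, l6071, l11955, o4376, o4383, l3206, l13379, l4499, l4980] l13393 := rupP (by decide +kernel)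
theorem r13394 : PImp [l503, o1160, l13361, l13363, o1002, l13181, o6897, l13357, o2395] l13394 := rupP (by decide +kernel)
theorem r13395 : PImp [l2596, l11960, l3003, l6294] l13395 := rupP (by decide +kernel)
theorem r13396 : PImp [l4078, l9876, o6690, o3243, o6863, o6543, o2395, o6897] l13396 := rupP (by decide +kernel)
theorem r13397 : PImp [l3240, l3241, l1137, l13307, l3213, l2998, l5035, l4847, o4907, l11371, l12253, l12195, l3434, l498, l503, l3350, l3361, l12227, l485, l483, l13089, l12255, l3006, l3372, l3008, l325, l3216, l2882, l2888, l11487, l8907, l3659, l4764, l442, o5084, o5032, o1133, l3675, l3642, l3699, l436, o4363, o992, l4500, o173, l434, l4676, o1166, o314, o365, l13394, l3318, l3319, l3315, l9780, o5407, o5099, o5104, l13396, l13391, l13395, l6294, o6701] l13397 := rupP (by decide +kernel)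
theorem r13398 : PImp [l3927, l13307, l3213, l2998, l5035, l3000, l3010, l11371, o4472, l12188, l4839, l4835, l4847, o1152, o1159, o1569, o1575, l2994, l13308, l12195, l12194, l3434, l498, o5363, l3441, l3425, o351, o305, o799, l3009, l12277, l12264, l4438, o771, l4843, l3372, l503, l3350, l3361, l3347, l3216, l2995, l4868, l2746, o4345, l12189, l12253, l12255, l1246, l13356, o4905, o4907, o4409, l1138, l10213, l12227, l485, l12244, l483, l12177, l12153, l12249, l3006, l424, l418, l1210, l1209, l3008, l325, l13393, l3240, l3241, l13397, l2973, l3014, o2812, l13379, l11720, o4363, l3679, l3034, l4764, l3946, l4635, o4377] l13398 := rupP (by decide +kernel)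
theorem r13399 : PImp [l3240, l13384, l13353] l13399 := rupP (by decide +kernel)
theorem r13400 : PImp [l13307, l11371, l3927, o1152, o1159, o1569, o1575, l2994, l2998, l3000, l13308, l12195, l12194, l3434, l498, o5363, l3441, l3425, l5035, l3010, o4472, l12188, l4839, o351, o305, o799, l3009, l12277, l12264, l4438, o771, l4843, l4835, l3372, l503, l3350, l3361, l3347, l3213, l3216, l2995, l4868, l2746, o4345, l12189, l12253, l12255, l1246, l13356, o4409, l12227, l485, l12244, l483, l12177, l12153, l12150, l1210, l1209, l13398, l1000, l13382, l4500, l13399, l2973, l7111, l11559, l3939, l3942] l13400 := rupP (by decide +kernel)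
theorem r13401 : PImp [o2012, o2014] l13401 := rupP (by decide +kernel)
theorem r13402 : PImp [o5085, l3677, l13326] l13402 := rupP (by decide +kernel)
theorem r13403 : PImp [l5035, l4083, l4597, l9876, o8977, o3838] l13403 := rupP (by decide +kernel)
theorem r13404 : PImp [l2886, l2890, l2892, l2888, o3261, l2884, o3253, l2882, o351, l5035, o182, o388, o180, l13307, l3213, l3216, o1942, o1943, l13401, o1979, l12147, l12146, l11371, l3000, l4839, l4835, l12253, l12195, l3434, l498, l503, l3350, l3361, l12227, l485, l483, l13089, l12255, o3556, l3006, l3372, l4843, l3008, l325, l12277, l3933, o1124, l476, l472, o1098, o1133, l13402, l436, o5051, o5041, o5044, o5047, l3715, o7020, o7016, o7019, o173, o1190, o365, o364, o7000, l13386, o5066, l3318, l3319, l3315, l9780, o5512, o5407, o5104, l13403, o183, l13391, l13395, o6968, o6910] l13404 := rupP (by decide +kernel)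
theorem r13405 : PImp [o351, l5035, o182, o388, l13307, l3213, l3216, o1942, o1943, l13401, l3000, l4839, l4835, l11371, l12195, l3434, l498, o1158, l2890, l13404, o1001, l4828, o1191, o5085, o6870] l13405 := rupP (by decide +kernel)
theorem r13406 : PImp [l11371, l12277, l3009, l12264, l12195, l3010, o4472, l12189, l3000, l13307, l5035, l12188, l4839, l4835, l12253, l3434, l498, l503, l3350, l3361, l12227, l485, l12244, l483, l12177, l12153, l12150, l12255, l3347, l424, l418, l1210, l1209, l3008, l325, l13405, o2812, l6071, l11955, l439, o4374, l13379, l442, o6827, l3189] l13406 := rupP (by decide +kernel)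
theorem r13407 : PImp [l1000, l4500, l3674, l4975] l13407 := rupP (by decide +kernel)
theorem r13408 : PImp [l1138, l1137, l11371, l12277, l3009, l12264, l12195, l3010, o4472, l12189, l3000, l13307, l5035, l12188, l4839, l4835, l12253, l3434, l498, l503, l3350, l3361, l12227, l485, l12244, l483, l12177, l12153, l12150, l3347, l3425, l12194, l13406, l1000, l13381, l4500, l2973, l6071, o4383, l13407, l6076, l3940] l13408 := rupP (by decide +kernel)
theorem r13409 : PImp [o56, o57, l13359] l13409 := rupP (by decide +kernel)
theorem r13410 : PImp [l8757, l8846] l13410 := rupP (by decide +kernel)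
theorem r13411 : PImp [l878, l418, l3950, o947, o888, o889, l5808, o4141, o4139, l13409, l4502, l13410, l3308, l9744, l9755] l13411 := rupP (by decide +kernel)
theorem r13412 : PImp [o2333, o1976, o1977, l13411, l4008, o867, l728, l4526, l4503, o124, l7770, o3743, l7171, o5928, o6179] l13412 := rupP (by decide +kernel)
theorem r13413 : PImp [l3006, o4575, o6456, l878, l418, l3008, l325, l13412, o1647, l3308, l3303, l9744, l9755, l5034, l10751, l4526, o2493, o2501, o2569, l9720, l3988, o4091, o4140, l3966, l6083, o947] l13413 := rupP (by decide +kernel)
theorem r13414 : PImp [l434, o5067, o2333, o1976, o1977, l13411, l4008, o867, o839, l728, l4526, l4501, l4503, o124, o58, l7770, o3743, o2587, l7171, o6179, o5922, o4060] l13414 := rupP (by decide +kernel)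
theorem r13415 : PImp [l3006, o4575, o6456, l878, l418, l3008, l325, l13413, l13414, o1647, l3308, l3303, l9744, l9755, l5034, l9961, l4526, o2493, o2501, o2569, l9720, l3988, o4091, o4140, l3966, l6083, o947] l13415 := rupP (by decide +kernel)
theorem r13416 : PImp [l418, l3008, l325, l13410, l3308, l9755, l10232] l13416 := rupP (by decide +kernel)
theorem r13417 : PImp [o885, o886, l13409] l13417 := rupP (by decide +kernel)
theorem r13418 : PImp [l878, o4141, o4222, o4139, l13416, l4502, l13417, o931, o5926, o9034] l13418 := rupP (by decide +kernel)
theorem r13419 : PImp [o2392, o2333, o1976, o1977, l13418, l5808, o947, o1528, l4008, l728, l4526, l4503, o124, l7770, o6179, o3743] l13419 := rupP (by decide +kernel)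
theorem r13420 : PImp [l3308, l3303, l1137, l878, l1210, l424, l3008, l325, o4141, o4139, o4143, o4040, l13416, l5034, l13360, l4526, l3966, l4009, o2509] l13420 := rupP (by decide +kernel)
theorem r13421 : PImp [l5034, l4502, l4526, o102, o804, l6159, l2792, o3743, o6211, o947, o1528, l3966, l7770, o4130, o6246] l13421 := rupP (by decide +kernel)
theorem r13422 : PImp [l1138, l1137, l878, l424, l418, l1210, l3008, l325, o1647, l3308, l3303, l13420, l13421, l9755, l10232] l13422 := rupP (by decide +kernel)
theorem r13423 : PImp [l434, o5067, l878, o4141, o4059, o4139, l13416, l4502, o55, l13417, l1125, o918] l13423 := rupP (by decide +kernel)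
theorem r13424 : PImp [l11371, l12277, l3933, o1098, o4409, l1137, l2882, l3009, l12264, l3010, o4472, l12189, l3000, l13307, l12188, l4839, l4835, l12253, l3434, l498, l503, l3350, l3361, l12227, l485, l12244, l12249, l12255, l13399, l11940, l3675, l436, l3713, l3240, l11933, l4348, l3241, l437, l442, l3642, o992, o1164, o1000, o4363, l339, l434, l3719, l4676, l3006, o4381, l4682, o2800, o314, o173, o365, l2884, l1138, l3213, l2998, l4847, o4907, l483, l12177, l13089, l12153, l12150, l3216, l2995, l4868, o4345, l1246, o3556, l2746, l3347, l3008, l3029, l4843, l424, l418, l1210, l1209, o340, l3425, l3441, l325, o1152, l476, l472, o1132, o1160, l13361, l13363, o1002, o358, l13181, l8363, o183, l1642, o2404, o2394, o5826, o4575, l2574, o5067, o6456, l2707, l2708, o3243, o9032, o6834, l13415, l13422, o2333, o1976, o1977, o1978, l13419, l13423, l5808, o947, o1528, l4008, l728, l4526, l4503, o124, l7770, o6179, o3743] l13424 := rupP (by decide +kernel)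
theorem r13425 : PImp [l498, l13307, l3372, l503, l5035, l3350, l3213, l3216, l3319, l9780, o5512, l13395, l13403] l13425 := rupP (by decide +kernel)
theorem r13426 : PImp [l13307, l3434, l498, l503, l2882, l3000, l3010, l11371, o4472, l12188, l4839, l4835, l3350, l3361, l3009, l12277, l12264, l12189, l12253, l12227, l485, l12244, l12249, l12255, o4409, l13399, l11940, l3675, l436, l3713, l3240, l11933, o5083, l2890, l13326, l13424] l13426 := rupP (by decide +kernel)
theorem r13427 : PImp [o2390, o1976, o1977, l13411, l4008, o875, l728, l4526, l4501, o6054, o2567, o5927, l4009, l4010] l13427 := rupP (by decide +kernel)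
theorem r13428 : PImp [l878, l418, o4035, o4224, o4040, o4039, o4037, l13427, o1647, l3308, l9744, l9755, l5828, o5964] l13428 := rupP (by decide +kernel)
theorem r13429 : PImp [o2390, o2333, o1976, o1977, l5808, l13411, o1528, o1594, l4008, l728, l4526, l4501, l4503, o124, o6179, o3743, o3829, o6312, o6054, o4220] l13429 := rupP (by decide +kernel)
theorem r13430 : PImp [l3006, o4575, o6456, o1160, l878, l418, l3008, l325, l13428, l13429, o1647, l3308, l3303, l9744, l9755, l5034, l9961, l4526, o2493, o2501, o2569, l9720, l6083, o4091, o947, l3966] l13430 := rupP (by decide +kernel)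
theorem r13431 : PImp [l434, o5067, l3006, o4575, l1137, l878, l1246, l3008, l3029, l1210, l424, l3213, l3216, o4141, o4059, o4139, l13420, l13416, o1644, o1645, l4502, o1749, o1751, o1754, o55, l13418, l13417, o918, o6903, o5921] l13431 := rupP (by decide +kernel)
theorem r13432 : PImp [o2333, l5808, o947, o1528, l4008, l728, l4526, l4503, o124, o6179, o3743, o8613, o6312] l13432 := rupP (by decide +kernel)
theorem r13433 : PImp [l5034, l4502, l4526, o101, o804, l6159, l2792, o3744, o6211, o947, o1529, l3966, o4129, o6311, o6245] l13433 := rupP (by decide +kernel)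
theorem r13434 : PImp [l418, l3008, l325, l13432, o1647, l3308, l3303, l13433, l9755, l10232] l13434 := rupP (by decide +kernel)
theorem r13435 : PImp [l11371, l3009, l12277, l12264, l3010, o4472, l12189, l3000, l13307, l5035, l12188, l4839, l4835, l12253, l3434, l498, l503, l3350, l3361, l12227, l485, l12244, l12249, l12255, o4409, l13399, l11940, l2882, l339, l3675, l436, l434, l3719, o314, l3713, o173, o365, o4363, l4676, o1133, l3933, o1098, o351, o182, o388, l2890, l2888, l3240, l3241, l1138, l1137, l3213, l2998, l4847, o4907, l3216, l2995, l4868, l2746, l483, l13089, l878, l12177, l12153, l12150, o3556, o4345, l3347, l3006, l3372, l4843, l424, l418, l1210, l1209, o340, l3425, l3441, o5365, l3008, l325, l2993, o1152, l476, l11933, l437, o5083, o5078, o4381, l4348, l442, l4682, l3642, o2800, o1000, o992, o1164, o1166, o1167, l13425, o1132, o1160, l13361, l13363, o1002, o358, l13181, l8363, o183, l1642, o6897, o2404, o5826, o4575, l2574, o5067, o2395, o6456, l2707, l2708, o3243, o9032, o6834, l13426, l13430, l13434, o9039, l13431] l13435 := rupP (by decide +kernel)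
theorem r13436 : PImp [l5034, l4502, l4526, o102, l13417, l7770, l3956, o2545, l4014, l4009] l13436 := rupP (by decide +kernel)
theorem r13437 : PImp [l418, l13410, l3308, l3303, l9755, l10234] l13437 := rupP (by decide +kernel)
theorem r13438 : PImp [o2333, o1976, o1977, l13436] l13438 := rupP (by decide +kernel)
theorem r13439 : PImp [l1137, l878, l424, o4141, o4139, o4143, o4040, o4038, l13437, l5034, l4526, l13438, o1647, l3308, l13360, l3303, l3966, l4009, o2509] l13439 := rupP (by decide +kernel)
theorem r13440 : PImp [o2333, l5808, o947, o1528, l4008, l728, l4526, l4503, o124, l7770, o6179, o3743] l13440 := rupP (by decide +kernel)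
theorem r13441 : PImp [l11371, l12253, l12255, o4575, o6456, o3243, l13399, l3675, l436, l434, o5067, l2574, o183, l12277, l3933, o1132, l2882, l11940, l3713, o173, o365, o1098, l3240, l1138, l1137, l878, l12227, l12150, l424, l418, l476, l472, o993, o1164, o1166, l3704, l11549, o6897, o4381, o2395, l4682, o6978, o6834, o2800, l13439, l13440, o1647, l3308, l3303, l13421, l9755, l10234, l2779, l7814, l4755] l13441 := rupP (by decide +kernel)
theorem r13442 : PImp [o1160, l13361, l13181, l2888, l2884, o2396, l13386] l13442 := rupP (by decide +kernel)
theorem r13443 : PImp [o6966, o8335] l13443 := rupP (by decide +kernel)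
theorem r13444 : PImp [o2392, o1976, o1977, l13417, o931, o6051, o9123] l13444 := rupP (by decide +kernel)
theorem r13445 : PImp [l1137, l878, l424, o4141, o4222, o4139, o4143, o4040, o4038, l13437, l5034, l4502, l4526, l13444, o1647, l3308, l13360, l3303, l3966, l4009, o2509] l13445 := rupP (by decide +kernel)
theorem r13446 : PImp [o2390, o2333, l5808, o947, o1528, o1594, l4008, l728, l4526, l4501, l4503, o124, o6179, o3743, o3829, o6312, o6054, o4220] l13446 := rupP (by decide +kernel)
theorem r13447 : PImp [l2884, l11371, l12253, l12255, l13399, l3675, o5044, l13443, l11940, l2882, l339, l436, l434, l3719, o314, l3713, o173, o365, o1133, l2888, l1138, l1137, l878, l12227, l12150, l1246, o3556, l424, l418, o340, l498, l503, o5365, o1152, l12277, l3933, l476, o1132, o1160, l13361, l13363, o358, l13181, l8363, o183, l1642, o2404, o5826, o4575, l2574, o5067, o6456, l2707, l2708, o3243, o9032, l13442, o6978, o6834, l13441, l13445, l13446, o1647, l3308, l3303, l13433, l9755, l10234, l2779, o3919, o3910, l4755, l6166, l10690, l5672] l13447 := rupP (by decide +kernel)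
theorem r13448 : PImp [l2882, l339, l5035, l13307, l11371, l2994, l2998, l3000, l13308, l12195, l3434, l498, l503, l3010, o4472, l12188, l4839, l4835, l3350, l3361, l12189, l12253, l12255, l3927, o1152, o1159, o1569, o1575, l12194, o5363, l3441, l3425, o351, o305, o799, l3009, l12277, l12264, l4438, o771, l4843, l3372, l3347, l3213, l3216, l2995, l4868, l2746, o4345, l1246, l13356, o4409, o4896, l4847, o4907, o4905, l1138, l10213, l13400, l13408, l13399, l2888, l2884, l3240, l3241, l1137, l12227, l485, l12244, l483, l12177, l13089, l12153, l12249, l3008, l3029, l3006, l1210, l1209, l325, l2992, l3933, o1098, l3675, l11940, o1183, l436, o5044, o4363, l434, l3713, l3719, o173, o314, o279, l4676, o365, o364, l13435, l13443, o1181, l11549, o5061, o5057, o4851, l3642, l2881, l4682, o992, o2800, l13447, l3318, l3319, l9780, o5512, o5407, o5099, l13403, l13391, o6701, l6294] l13448 := rupP (by decide +kernel)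
theorem r13449 : PImp [l3927, l2994, l2998, l3000, l13308, l13307, l11371, o1152, o1159, o1569, o1575, l12195, l12194, l3434, l498, o5363, l3441, l3425, l5035, l3010, o4472, l12188, l4839, o351, o305, o799, l3009, l12277, l12264, l4438, o771, l4843, l4835, l3372, l503, l3350, l3361, l3347, l3213, l3216, l2995, l4868, l2746, o4345, l12189, l12253, l12255, l1246, l13356, o4409, o4896, l4847, o4907, o4905, l1138, l10213, l13400, l13408, l1137, l12227, l485, l483, l13089, l13399, l13448, l4673, l8038] l13449 := rupP (by decide +kernel)
theorem r13450 : PImp [l3240, l3241, l11559, l3679, l13379] l13450 := rupP (by decide +kernel)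
theorem r13451 : PImp [l1233, l3240, l3241, l11720, l4635, l4825, l442] l13451 := rupP (by decide +kernel)
theorem r13452 : PImp [o351, l2994, l2998, l3000, l13308, l5035, o305, o799, l13307, l11371, l12195, l3434, l498, l503, l3425, l3441, o5363, l12194, l3008, l325, l3010, l3009, l2995, l3927, o1152, o1159, o1575, o1569, l12277, l3213, l3216, l424, o4472, l1209, l1210, l12264, l418, l12188, l12189, l4438, l4839, o771, l4843, l4835, l3350, l4868, l3372, l4847, l12253, l3361, l3347, o4345, l2746, l12255, l1246, l13356, o4409, o4896, o4907, o4905, l1138, l10213, l13400, l13408, l3240, l3241, l13449, o2812, l13450, l4764, l1233, l13451, l7111, o6905, o6776] l13452 := rupP (by decide +kernel)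
theorem r13453 : PImp [l13307, l429, o4900, l3006, l4835] l13453 := rupP (by decide +kernel)
theorem r13454 : PImp [l13307, l11371, l2994, l2998, l3000, l13308, l12195, l3434, l3010, l5035, l13453, o4472, l13452, l12169] l13454 := rupP (by decide +kernel)
theorem r13455 : PImp [l3927, l11371, l13307, l3213, l3216, l2996, l2993, l2994, l2998, l3000, l13308, l12195, l3434, l13454, l10323, l3779, l2914, o4869, o6537] l13455 := rupP (by decide +kernel)
theorem r13456 : PImp [l3927, l11371, l13307, l3213, l3216, l13455, l5113, l5112, l4655, l5276, l7703, l7614, l2730, l4593, o4560, o4544, o4538, l5794, l12195, o4565, o4553, l5169, l12204, l3779, l1770, o2783, l5131, o2773, l4381, l4389] l13456 := rupP (by decide +kernel)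
theorem r13457 : PImp [l11371, l13456, l5036, l7703, l2994, l2998, l3000, l13308, l12195, l3010, l3012, l5035, l13307, l3213, o4472, o4484, l1210, l12169, l12185, l4789, l4839, l494, l4835, l3424] l13457 := rupP (by decide +kernel)
theorem r13458 : PImp [l13307, l13456, l5036, l5035, l7703, l3000, l13457, l429, l13453, l3006, l3432, l4835, l4839] l13458 := rupP (by decide +kernel)
theorem r13459 : PImp [l11371, l13458, l12300, l1412, l433, l429, l476, l472, o4482, o4494, l2846, l390, l12252, l13307, l3213, l3216, l3000, l12844, l4968, l10323, l12249, l5035, l485, l12997, l4839, l12227, o4564, l4835, l3361, l3350] l13459 := rupP (by decide +kernel)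
theorem r13460 : PImp [l11371, l12277, l3933, l476, l472, l13307, l3213, l3216, l13458, l12239, l12174, l13459, l5276, l7703, l12287, l5794, l4639, l4411] l13460 := rupP (by decide +kernel)
theorem r13461 : PImp [l5035, l13307, l3213, l3216, l10084, l4864, l4839, l4847, l11802] l13461 := rupP (by decide +kernel)
theorem r13462 : PImp [l3000, l2998, l2995, l2994, l2996, l3008, l13307, l3213, l3216, l5035, l13461, l4970, l7704, l4872, o4866, l5367] l13462 := rupP (by decide +kernel)
theorem r13463 : PImp [l13307, l4839, l3361, l4835, l3350] l13463 := rupP (by decide +kernel)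
theorem r13464 : PImp [l13460, l11371, l476, l13307, l3213, l2996, l2998, l3000, l13462, l5036, l13275, l13267, l6132, l3447, l2846, l12300, l3433, o5359, o5354, l4399, l390, l13089, o5484, o4885, o4960, o4891, o4951, l483, l12844, l4968, l485, l12997, l12227, l13463, l4380, l4390, l7692] l13464 := rupP (by decide +kernel)
theorem r13465 : PImp [l11371, l12277, l3933, l13307, l3213, l3216, l13464, l5112, l7703, l5036, l13460, l6132, l4655, l433, l429, l1254, l1138, o5183, l2730, o1118, l494, l498, l503, o5356, l476, l472, o4478, l5113, l1316, o3143, l3350, l4835, l4840, l5131, l12229, l12263, l12194, o3201, o3205, l13267, l10286, o3071, o8479, l12176, o8461] l13465 := rupP (by decide +kernel)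
theorem r13466 : PImp [l13464, l7703, l5036, o352, l13460, l13307, l3213, l11371, l6132, l494, l498, l503, l476, o5354, l13280, l5113, l12277, l3933, o1124, o1117, o1565, l7594, l4837, l4833, l3347, o2912, l3350, l3358, l5277, l12268, o306, l12282, o782, o3572, l6253, o8545] l13466 := rupP (by decide +kernel)
theorem r13467 : PImp [l11371, l12277, l3933, l13307, l3213, l3216, l13464, l5112, l7703, l5036, l13460, l6132, l4655, l433, l429, l1254, l1138, o5183, l2730, o1120, l494, l498, l503, o5359, l3447, l13466, o3143, l13465, l3350, o3540, l12300, l6258, o9096, o8563] l13467 := rupP (by decide +kernel)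
theorem r13468 : PImp [l13467, l11371, l12277, l3933, l13307, l3213, l3216, l13464, l5112, l7703, l5036, l13460, l6132, l4655, l433, l429, l1254, l1138, o5183, l2730, o1118, o5356, l3447, o4498, l1316, l4380, l4382, l12194, l5039, l12229, l5038, l12181, o340, o3205, o8479, o8560] l13468 := rupP (by decide +kernel)
theorem r13469 : PImp [o8479, o8560] l13469 := rupP (by decide +kernel)
theorem r13470 : PImp [o2773, o2799] l13470 := rupP (by decide +kernel)
theorem r13471 : PImp [l13468, l13467, l11371, l12277, l3933, l13307, l3213, l3216, l13464, l5112, l7703, l5036, l13460, l6132, l4655, l433, l429, l1254, l1138, o5183, l2730, o1118, o5356, l3447, l1316, l4381, l12280, o340, l13469, l2835, o3556, l12269, l12284, l5039, l12194, l13267, l13470, l4389, l7692, l4387, l4398] l13471 := rupP (by decide +kernel)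
theorem r13472 : PImp [l13307, l3213, l13470, l4387, l11802, l4389, l4400] l13472 := rupP (by decide +kernel)
theorem r13473 : PImp [l13467, l13307, l3213, l3216, l13464, l5112, l7703, l5036, l13460, l11371, l6132, l4655, l433, l429, l1254, l1138, o5183, l2730, l3447, l13468, l13471, l5235, l13472, o3231, l13267, l4399, o3211, o4354, o6762, l5185] l13473 := rupP (by decide +kernel)
theorem r13474 : PImp [l11371, l12277, l3933, l13307, l3213, l3216, l13460, l13464, l1316, l5112, l4655, l7703, l433, l5036, l429, l6132, l3447, l1254, o5356, l1138, o5183, l2730, o1118, l13473, o3543, l12252, l13469, l12302, o340] l13474 := rupP (by decide +kernel)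
theorem r13475 : PImp [l2992, l11371, l13307, l3213, l3216, l4840, l4839, l12229, l4968, l12263, l12195, o4903, l1412, l5132] l13475 := rupP (by decide +kernel)
theorem r13476 : PImp [l5035, l13474, o3469, l2820, l11371, l12277, l3933, o1124, o1117, o1565, l13307, l13475, l4835, l3006, l429, o4487, o4563, o4561, l1210, o4836, l3368, l3421, l8369, o8398, o8418] l13476 := rupP (by decide +kernel)
theorem r13477 : PImp [l2992, l3012, o3472, o3471, o3470, o3469, l11371, l12277, o1117, o1566, o1565, l12185, l12180, o4974, o4972, o4971, o4977, o8703, o8739, l13031, o8610, o8609, o2384, o2376] l13477 := rupP (by decide +kernel)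
theorem r13478 : PImp [l11371, l3927, o1152, o1159, o1575, l2992, l13474, o3470, l2820, l12277, l3933, o1124, l13307, l3213, l4840, l4839, l12229, l4968, l12263, l12195, o305, o301, o303, o302, o4906, l1412, o4913, l3428, l4787, l13477, l12221, l11799, o4977, o8739] l13478 := rupP (by decide +kernel)
theorem r13479 : PImp [l5035, l3927, l13474, o3469, l2820, l11371, l12277, l3933, o1124, o1117, o1565, l13307, l13476, l13478, l4835, l3006, l429, o4487, l4969, o4563, l1210, o4836, l12229, l3368, l8369, o301, o8398] l13479 := rupP (by decide +kernel)
theorem r13480 : PImp [l12147, l7063, o5074, o6887, o8667] l13480 := rupP (by decide +kernel)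
theorem r13481 : PImp [l2882, o3259, l11671, o180, l8495, l13480, l436, o5029, l3715, l11945, l3705, l4352] l13481 := rupP (by decide +kernel)
theorem r13482 : PImp [l1210, l13481, l11989, l8500, o5035, l12008, l11969] l13482 := rupP (by decide +kernel)
theorem r13483 : PImp [l3675, l2893] l13483 := rupP (by decide +kernel)
theorem r13484 : PImp [l3240, l13483, o5035, l4672, l3659] l13484 := rupP (by decide +kernel)
theorem r13485 : PImp [l3240, l2882, l11942, l13484, l1000, l11933, l3706, l4348] l13485 := rupP (by decide +kernel)
theorem r13486 : PImp [l3672, l4332] l13486 := rupP (by decide +kernel)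
theorem r13487 : PImp [l3240, o2812, l11943, l11935, l13486, o5035, l3656, l4327] l13487 := rupP (by decide +kernel)
theorem r13488 : PImp [l11941, l13484] l13488 := rupP (by decide +kernel)
theorem r13489 : PImp [l3240, l13487, l2882, l13485, l13488, l1000, l11933, l437, l3706, l4325] l13489 := rupP (by decide +kernel)
theorem r13490 : PImp [o182, l11529, o388, o5060, o6935, o6951] l13490 := rupP (by decide +kernel)
theorem r13491 : PImp [o351, l13479, l5035, l11371, l3927, o1152, l3009, l13474, o3467, l3008, l325, l2820, l12277, l13307, l3213, l3216, l4837, l4842, l3376, o5380, o5381, o4898, o4904, o4910, l3388, l3368, o4972, l1209, l1210, l12264, l4968, l4969, l4966, l4967, l11800, l12314, l2537, o340, l12255, l12195, l12194, l4188, l2536, l9251, l390, l12253, l12230, l11787, o8374, l12251, l12241, l12088, l12244, l12207, l4767, l4779, o5362, l12318, l12205, l3429, l3437, l13489, o1942, o1943, l13481, l13482, l13401, l2973, l2862, l13490, l12008, l11957, l6190] l13491 := rupP (by decide +kernel)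
theorem r13492 : PImp [l13479, l5035, l13474, l2820, l13307, l3213, l13491, l4833, l3368, l501, o4569, l495, l1412, l2536] l13492 := rupP (by decide +kernel)
theorem r13493 : PImp [l5035, l13474, l2820, l11371, l12277, l3933, o1124, o1117, o1565, l13307, l4837, l3376, l3428, o4898, l3368, o5364, l1209, l1210, l668, l12314, o8398, o301] l13493 := rupP (by decide +kernel)
theorem r13494 : PImp [l3011, l13474, o3469, l2820, l404, l11371, l12277, l3933, o1124, o1117, o1565, l13307, l5035, l13479, l13492, l13493, l4833, l3420, l3368, l3347, l3428, o4555, l3438, o4543, l1145, l5274, l12331, l13031, l12241, l5039, l390, o301, o8703, o5481, o5493, l12249, l12256] l13494 := rupP (by decide +kernel)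
theorem r13495 : PImp [l13494, l5036, l3927, l13474, o3469, l2820, l404, l11371, l12277, l3933, o1124, o1117, o1565, l13307, l13475, l4835, l3006, l429, o4487, o4563, o4564, l1209, o4836, l3369, l3347, l668, o8398, o8418] l13495 := rupP (by decide +kernel)
theorem r13496 : PImp [l13495, l13494, l11371, l13307, l3213, l3216, l4383, l12195, l12261, l11666, o4312, o4315, l5169, l1770] l13496 := rupP (by decide +kernel)
theorem r13497 : PImp [l11371, l12195, l3010, l13474, o3469, l2820, l12277, l3933, o1124, o1117, o1565, o4472, o4479, l1209, l1210, o4557, l12169, o4831, l5136, o342, o297, l668, o8418, l2274] l13497 := rupP (by decide +kernel)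
theorem r13498 : PImp [l5036, l13307, l3213, l3216, l433, l1412, l2536, l2535, o4881, o4895, l4411, l4388, o2792, o2776] l13498 := rupP (by decide +kernel)
theorem r13499 : PImp [l13494, l13474, l11371, l13307, l13495, l13496, l4380, l13498, l429, l4969, l13497, l12229] l13499 := rupP (by decide +kernel)
theorem r13500 : PImp [l4967, l2819, o4556, l4159, l4638] l13500 := rupP (by decide +kernel)
theorem r13501 : PImp [l13307, l4833, l3347] l13501 := rupP (by decide +kernel)
theorem r13502 : PImp [l13474, l2820, l404, l13307, l3213, l13494, l5036, l13499, l13500, l1412, l2536, l2818, l494, o4913, l501, l3421, l503, l13501, l4379] l13502 := rupP (by decide +kernel)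
theorem r13503 : PImp [l12188, l12169] l13503 := rupP (by decide +kernel)
theorem r13504 : PImp [o340, l12180, o4980, o8623, o8721] l13504 := rupP (by decide +kernel)
theorem r13505 : PImp [l11371, l3010, l13307, l5035, l4839, l4840, l12229, l12195, l13503, o4472, l1146, l1145, l13474, l2820, l4968, o4904, l3376, l2992, l12263, l1412, o4906, l3011, o3470, o3469, o3467, l12277, l3933, o1124, o1117, o1565, l3213, l13476, o352, l3429, o1120, o1118, l13504, l11800, o306, l12221, o4974, o782, o4977, o8703, l5461, l12299, o4249, l4851, l878, o2776] l13505 := rupP (by decide +kernel)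
theorem r13506 : PImp [l3011, l13474, o3469, l11371, l12277, l3933, o1124, o1117, o1565, l13307, l3213, l13031, l12299, l5178, l4851, l878, o2776] l13506 := rupP (by decide +kernel)
theorem r13507 : PImp [l5035, l3010, l2992, l13474, o3469, l2820, l11371, l12277, l3933, o1124, o1117, o1565, l13307, l4840, l4839, l12229, l4968, l12263, l12195, o4904, l1412, l3376, l13503, o4472, l1145, l13505, o301, l13506, o8703, o4978, l12221, l12180] l13507 := rupP (by decide +kernel)
theorem r13508 : PImp [l5035, l13502, l3009, l13474, l2820, l11371, l12277, l13307, l3213, l3216, l13507, l4837, l4842, l3376, o5381, o4898, o4904, l3388, o4972, l12264, l4968, l4969, l11800, l12255, l390, l12253, l12241, l10084, l5178, l5798, o4317, l4870] l13508 := rupP (by decide +kernel)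
theorem r13509 : PImp [l13508, l5035, l3009, l13474, o3469, l2820, l11371, l12277, l3933, o1124, o1117, o1565, l13307, l429, o4487, l4969, o4563, l1209, l12264, l11800, o4836, l12229, l3368, l4438, l668, o305, o776, o8398] l13509 := rupP (by decide +kernel)
theorem r13510 : PImp [l503, l498, l13474, l11371, l12277, l3933, l13307, l3213, l3216, l5132, l3429, l3437, o1120, l5461, l12256, o5487] l13510 := rupP (by decide +kernel)
theorem r13511 : PImp [l3011, l13474, o3470, o3469, l2820, l404, l11371, l12277, l3933, o1124, o1117, o1565, l13307, l5035, l13508, l13509, l433, l3006, l1412, l5370, l503, o4558, o4543, l3355, l3352, l1145, l5274, l12331, l12272, l12241, l5039, l390, l13510, o301, l13031, o8703, o5481, o5493, l12249, l12256] l13511 := rupP (by decide +kernel)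
theorem r13512 : PImp [l13511, l5036, l13502, l3010, l2992, l13474, l2820, l404, l11371, l12277, l3933, l13307, l3213, l3216, l4840, l4839, l13475, l12229, l4968, l12263, o1120, l12195, l12194, o4906, o4903, l13503, l3429, l3352, o4462, l10282, l5682, l4417] l13512 := rupP (by decide +kernel)
theorem r13513 : PImp [l13511, l3009, l3008, l13474, l2820, l404, l11371, l12277, l13307, l3213, l3216, l13512, l4837, l4842, l3352, o5394, o4887, o4897, l3361, o4971, l1218, l12264, l11800, l12314, l12255, l12194, l390, l12241, l5178, o4317, o4315, l4870, l5682, l5798] l13513 := rupP (by decide +kernel)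
theorem r13514 : PImp [l13513, l3009, l13474, o3469, l2820, l404, l11371, l12277, l3933, o1124, o1117, o1565, l13307, l429, o4487, l4969, o4564, l1209, l12264, l11800, o4836, l12229, l3347, l4438, l668, o305, o776, o8398] l13514 := rupP (by decide +kernel)
theorem r13515 : PImp [l13511, l5036, l3011, l13474, o3470, l2820, l404, l11371, l12277, l13307, l13513, l13514, l433, l3006, l1412, l5370, o4558, o4543, l3355, l3352, l1145, l5274, l12331, l12272, l12241, l13510, l390] l13515 := rupP (by decide +kernel)
theorem r13516 : PImp [l13515, l13511, l13502, l11371, l13307, l3213, l3216, l4383, l4382, l12195, l12261, o4317, o4329, o4315, l4408, l4390, l4389, l4417, o2764, l2922] l13516 := rupP (by decide +kernel)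
theorem r13517 : PImp [l13515, l13511, l5036, l13502, l13474, o3469, l2820, l11371, l12277, l3933, o1124, o1117, o1565, l476, l13307, l3213, l13516, l4381, l3377, l3449, l5767, o5381, o4898, o5354, o4972, l1209, l1210, l668, l11800, l12314, o8418, o342, o297, l2274] l13517 := rupP (by decide +kernel)
theorem r13518 : PImp [l13517, l13515, l13511, l11371, l1210, l13497, l12314] l13518 := rupP (by decide +kernel)
theorem r13519 : PImp [o9007, o8723] l13519 := rupP (by decide +kernel)
theorem r13520 : PImp [o8326, o2351, o8420, o2358, l12573, l5345] l13520 := rupP (by decide +kernel)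
theorem r13521 : PImp [o5803, o5797] l13521 := rupP (by decide +kernel)
theorem r13522 : PImp [l13521, l668, l13520] l13522 := rupP (by decide +kernel)
theorem r13523 : PImp [l5036, l13474, o3471, o3470, o3469, l2820, l11371, l12277, l3933, o1124, o1117, o1566, o1565, l476, l13307, l3213, l3216, l501, l3377, l495, l490, l2533, o1120, l5279, o5480, o5487, o5472, l12307, l4438, l12244, o3460, l13519, l13521, l13522, o8418, o8420, o2359, o2356, o8326, l667] l13523 := rupP (by decide +kernel)
theorem r13524 : PImp [l13307, l3213, o4888, o4884, l3369, l4388, l4398, o3232, l2912] l13524 := rupP (by decide +kernel)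
theorem r13525 : PImp [l11371, l12195, o342, o297, o768, o767, l2274, l13523] l13525 := rupP (by decide +kernel)
theorem r13526 : PImp [l11371, l12195, l13525, l12169, l12168] l13526 := rupP (by decide +kernel)
theorem r13527 : PImp [l13518, l429, l433, l1412, l1146, l1145, l13517, l13515, l13511, l13502, l3010, l3011, l3008, l13474, l2820, l11371, l12277, l3933, l476, l472, l13307, l4380, l13524, l13526, l5039, l12196, l12261, l12331, l1218, l878, o4543, o4863, o2764, l5254] l13527 := rupP (by decide +kernel)
theorem r13528 : PImp [l13474, l2820, l404, l11371, l13307, l3213, l3011, l3010, l13502, l13511, l13515, l13517, l13518, l429, l1145, l1146, l433, l1412, l13527, l4379, l3348, l3369, l13472, o4543, l12331, l12272, l5039, l4402, l13526, l4399] l13528 := rupP (by decide +kernel)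
theorem r13529 : PImp [l13307, l3361, o4570, l3352, l5131] l13529 := rupP (by decide +kernel)
theorem r13530 : PImp [l667, l5345] l13530 := rupP (by decide +kernel)
theorem r13531 : PImp [l668, o8481, l644, o8480, o2365, l10306, o2373] l13531 := rupP (by decide +kernel)
theorem r13532 : PImp [o8418, o8562, l644, o8561, o8480, o2354, l9235, o2350] l13532 := rupP (by decide +kernel)
theorem r13533 : PImp [l13474, l2820, l404, l11371, l12277, l3933, o1124, o1117, o1565, l476, l472, l13307, l3213, l3216, l13528, l2846, l12239, l12252, l12300, l390, l1412, l13089, l433, o4494, o4482, l4966, l4967, l483, o5167, l2734, l429, l4968, l12963, l485, l12997, l12212, l1209, o297, l12227, l13529, l5035, o342, l6203, l5036, l13500, l3381, l13199, o767, l2274, l3455, o5380, o5357, o5354, o5183, l2534, o1120, o1119, l13530, l13532, l668, l13531, o8481, l644, l4382, o8480, l5235, o8561] l13533 := rupP (by decide +kernel)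
theorem r13534 : PImp [l13474, l13533, l2896, l4655, l5113, l2820, l404, l13307, l4837, l13501, o4570] l13534 := rupP (by decide +kernel)
theorem r13535 : PImp [l13534, l13533, l4655, l433, l429, l1254, l1138, l13474, l2926, l2920, l2910, l2902, l2896, l7703, l2820, l13307, l3213, l3216, l4381, l3377, l4389, l4407, o5193, l7692, l5796, l5180, l2817, l4393] l13535 := rupP (by decide +kernel)
theorem r13536 : PImp [l13307, l13474, l13533, l4655, l7703, l2896, l5036, l13534, l13535, o4567, l4379, l3421] l13536 := rupP (by decide +kernel)
theorem r13537 : PImp [l13536, l12292, l4968, l13307, l3213, o4244, o4546, l1244, l4851, o2780] l13537 := rupP (by decide +kernel)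
theorem r13538 : PImp [l3676, l8038] l13538 := rupP (by decide +kernel)
theorem r13539 : PImp [l2882, l8039, l11487, l1000, l13538, l436, l3714, l4360] l13539 := rupP (by decide +kernel)
theorem r13540 : PImp [l3240, l3241, l13539, l7619, l7799] l13540 := rupP (by decide +kernel)
theorem r13541 : PImp [l2882, l339, l12146, o5071, o5070, l3207, o5028, o5026, o1098, l3708, l3717, o6886, o173, o314, o365, o364, o8641, o1181, l569, o6897] l13541 := rupP (by decide +kernel)
theorem r13542 : PImp [l13307, l3213, l3216, o1942, o1943, l13401, l13389, l3432, l3433, l13536, l12292, l4968, l3006, o3253, l2884, l2888, l2890, l7069, o182, o388, l13541, l7894, o5060, o1001, o6999, o1191] l13542 := rupP (by decide +kernel)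
theorem r13543 : PImp [l12147, l5269, l1412, l480, l485, l11270, l12304, l12318, l12248, l11364, l12292, o3280, l6071, l7605, l8594, o5075, o180, o8808, o6831] l13543 := rupP (by decide +kernel)
theorem r13544 : PImp [l2882, o173, l3947, o365, l3653, o992, l3700, o1166, o5050, l569] l13544 := rupP (by decide +kernel)
theorem r13545 : PImp [l11270, o180, l2882, l339, l12147, l439, o5075, l3207, l442, o6887, o1133, l11556, o1190, o1097, o314, o6871, l3190, o4366, o4365, o6955, o2698, l13544, l3715, l3708] l13545 := rupP (by decide +kernel)
theorem r13546 : PImp [l12292, l4968, l3006, l13545, o5060, o6999, o7024] l13546 := rupP (by decide +kernel)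
theorem r13547 : PImp [l11270, o180, l2882, l12147, l12146, l439, o5075, o5070, l3207, l442, o6887, o1098, o1133, o1190, o1097, o1183, o6886, o6871, l3190, o375, o4366, o4365, o1807, o6955, o1981, o2698, o7023, l13544, o5055, l3708] l13547 := rupP (by decide +kernel)
theorem r13548 : PImp [o1152, o1158, l13536, l11270, l13307, l3432, o340, l3213, l3216, l12292, l2995, l4872, l3433, o1124, l4968, l3006, l433, l12304, o1942, o1943, l13389, l13401, l13543, o2005, l2882, o3253, l2888, l2889, l2892, l2890, l2886, l7069, o182, o388, o387, l13546, l13542, l1243, l13547, l436, l7894, o5029, o5035, l6069] l13548 := rupP (by decide +kernel)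
theorem r13549 : PImp [l436, l434, l2882, l339, l6064, l4674, l4360] l13549 := rupP (by decide +kernel)
theorem r13550 : PImp [l13307, l3213, l3216, o1942, o1943, l13401, l13389, o1158, l13536, l11270, l3432, o340, l12292, l2995, l4872, l3433, o1124, l4968, l3006, l2882, o3253, l2888, l2889, l2892, l2890, l2886, l7069, o182, o388, o387, l13546, l13542, l13547, l7894, l1243, o5029, o5035, l436, l6069] l13550 := rupP (by decide +kernel)
theorem r13551 : PImp [o5073, l6077, o1098, o1179, o6830, o8755] l13551 := rupP (by decide +kernel)
theorem r13552 : PImp [l13536, l11270, l12304, o4707, l12292, l3011, l12217, o1117, l480, l12245, l12237, o1152, l12288, o2880, o4696, l12172, l12131, l1145, l4968, l433, l5269, l1412, l3006, l485, l12318, l12248, l12202, l13307, l3213, l3216, o1942, l13548, o2005, o2006, l13550, l2973, l2868, l8594, l13551, o4359, l7775, l3682, l3943, l1000, l4500] l13552 := rupP (by decide +kernel)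
theorem r13553 : PImp [l7815, l13549, l439, l8038, l6073] l13553 := rupP (by decide +kernel)
theorem r13554 : PImp [l13536, l11270, l12304, l12292, o2880, l12288, o4696, l12172, o1124, o4707, l3011, l12217, o1117, o1565, l480, l12245, o3548, o305, l4438, o776, l12315, l13307, l3432, l3434, l1146, l4968, l433, l1412, l3007, l11364, o8774, o8933, l13552, l3240, l13540, l3241, l13553, l7619, l7799] l13554 := rupP (by decide +kernel)
theorem r13555 : PImp [l13307, l3432, l3434, l13536, l11270, l12304, l12292, o2880, l12288, o4696, l12172, o1116, l1146, o4707, l4968, l433, l1412, l3007, l480, l485, l12318, o3464, o297, l11364, l3011, l12245, l12315, l12217, l13554, o2344, o8814, l2732, l12228, l12127, l13552, l3240, l13540, l3241, l13553, l7619, l7799] l13555 := rupP (by decide +kernel)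
theorem r13556 : PImp [l12218, l12210, l12242, l12243] l13556 := rupP (by decide +kernel)
theorem r13557 : PImp [l13536, l480, l12292, l3011, l11364, l13307, l4840, l4839, l4968, l3007, o4906, l13537, o4707, l1145, l13556, o4904, l3379, l3376, l3382, l433, o4911, o4914, l2992, l11270, l12180, o4980, l3012, l12185, o4974, l485, l12304, l12318, l3213, l3216, l2995, l13462, o3556, l3432, l4872, l3927, o1159, l4771, l4775, o351, o340, o4317, o4324, l5796, o1152, o1575, l2750, l1244, l629, l13555] l13557 := rupP (by decide +kernel)
theorem r13558 : PImp [l13536, l11270, l12288, o305, l12304, l11364, l12292, o2880, l3012, l3011, l480, l13307, l4840, l4839, l4968, l12185, l3007, o4906, o4904, o4974, l3379, l3376, l13537, o4707, o4696, l1145, l12172, l12132, o1124, l13556, l4438, l12217, o776, o1117, o1565, l13557, o3469, o8703, l8893] l13558 := rupP (by decide +kernel)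
theorem r13559 : PImp [l13536, l12292, l13307, l11364, l13558, l3001, l4837, l3388, l3376] l13559 := rupP (by decide +kernel)
theorem r13560 : PImp [l5684, o2764] l13560 := rupP (by decide +kernel)
theorem r13561 : PImp [l13536, l12292, l11270, l480, l13307, l3213, l3216, l3012, l13559, l3935, l13287, l12236, l12321, l5039, l11465, l12155, o4972, l12192, l4967, l12228, l5272, l1145, o5389, o5397, l5178, l1412, o4477, o4240, o4515, l1210, l878, l13560, l3001, l4837, l3376] l13561 := rupP (by decide +kernel)
theorem r13562 : PImp [l12292, l11270, l480, l12286, l12294, l13287, l1412, l11465, l4967] l13562 := rupP (by decide +kernel)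
theorem r13563 : PImp [l13536, l13562, l13307, o3478, l3377, l5279, l1590, o8943] l13563 := rupP (by decide +kernel)
theorem r13564 : PImp [l5036, l13536, l11270, l12304, l12288, l12292, l13562, o2880, l13307, l3213, l13278, l13280] l13564 := rupP (by decide +kernel)
theorem r13565 : PImp [l13536, l11364, l13562, l480, l485, l12292, l11270, l13307, l13561, l5036, o353, o340, o788, l13564, l2820, l404, l3361, l3352, l503, o5492, l5131, l4837, l498, l4968, l13537, l433, l3007, l1146, l1412, l13563] l13565 := rupP (by decide +kernel)
theorem r13566 : PImp [l13536, l12292, l13307, l11364, l13565, l4845, l4835, l3006, l4968, o4564, l13463] l13566 := rupP (by decide +kernel)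
theorem r13567 : PImp [l13536, l12292, l11270, l480, l13562, l3012, l13566, l12321, l13287, l12236, l3935, l11465, l12228, o4488, l3007, l4967, l1412, l5039, l12192, l5178, l878, l12155, l1145, l1210, o4477, l5272, o4240, o4726, l12156, l13307, l3213, l3216, l13561, o4910, o4317, o4977, l5036, o353, l13560, o340, o788, l3001, l13563] l13567 := rupP (by decide +kernel)
theorem r13568 : PImp [l13536, l12292, l13562, l3012, l11270, l480, l13307, l13566, l3935, l13287, l12236, l12321, l11465, l12155, l4967, l12228, l5272, o4488, l3006, l13567, o4543, l4835, l5370, l3002] l13568 := rupP (by decide +kernel)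
theorem r13569 : PImp [l13568, l13307, l3213, l3216, l5247, l4410] l13569 := rupP (by decide +kernel)
theorem r13570 : PImp [l13536, l13562, l13568, l5035, l13564, o3470, l2820, l11270, l12304, l12292, l13307, l3213, l3216, l4967, l13500, l13569, o2764, l5650, l2922, o2783, l1021, l5796, o4308, l5170] l13570 := rupP (by decide +kernel)
theorem r13571 : PImp [l13536, l11270, l13568, o342, l12288, o297, o767, l5035, l13564, l2820, l12304, l5036, l12292, l13562, l2992, l13307, l3213, l13570, l1412, o4726, o4913, o4910, l2536, l12183, o4977, l13569, l13563, o2764, l1146, l878, o4258] l13571 := rupP (by decide +kernel)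
theorem r13572 : PImp [l13568, l5035, l13307, l3213, l3216, l2750, o4340, l4407, l5798, l4408, l5682] l13572 := rupP (by decide +kernel)
theorem r13573 : PImp [l13568, l13307, l4381, l5035, l3213, l3216, o4317, o4315, l4407, l5798, l4408, l5682] l13573 := rupP (by decide +kernel)
theorem r13574 : PImp [l13568, l5035, l5036, l13571, l13307, l4381, l13573, l13572, l3213, l3216, l13536, l11270, l12304, l12292, l13564, l2820, l3377, o4910, l4967, o4538, l2534, o9050, l4966, l5767, l13562, l12288, l12202, l785, l5177, l5796, l4407, o2756] l13574 := rupP (by decide +kernel)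
theorem r13575 : PImp [l13568, l5035, l13536, l12292, l13307, l13564, l2820, l13571, l4381, l3377, o4910, l4967, l13573, l13574, l1021] l13575 := rupP (by decide +kernel)
theorem r13576 : PImp [l13568, l5035, l13536, l12292, l13562, l3012, l11270, l480, l13307, l3213, l13575, l13287, l12321, l5039, l11465, l12155, l12192, l4967, l5272, l5178, l1412, l5269, o4910, o4909, o4525, o4515, l878, l13573, l4638, l5247, o2764] l13576 := rupP (by decide +kernel)
theorem r13577 : PImp [l13576, l13568, l5035, l5036, l13536, l11270, o342, l13562, l480, l485, l12292, l13307, l12288, l12304, l13564, o297, l12202, l12318, l2820, o767, l5235, l3421, l12237, l3369, o5450, o4567, o4555, l11223, l1412, l1146, l13563] l13577 := rupP (by decide +kernel)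
theorem r13578 : PImp [l13576, l13536, l12292, l13562, l3012, l13577, l11270, l480, l12321, l12155, l1145, o4557, l13287, l12236, l3935, l11465, l12228, o4477, o4882, l4967, l1412, l5039, l12192, l5178, l878, l13568, l13307, l3213, l4380, o2776, l4388] l13578 := rupP (by decide +kernel)
theorem r13579 : PImp [l13307, l13536, l480, l11270, l12292, l13562, l3012, l13568, l5035, l5036, l13576, l13577, l12321, l12155, l1145, o4555, l13578, l3000, l4379, l3421] l13579 := rupP (by decide +kernel)
theorem r13580 : PImp [l13579, l3929] l13580 := rupP (by decide +kernel)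
theorem r13581 : PImp [l13580, l3927] l13581 := rupP (by decide +kernel)
theorem r13582 : PImp [l13580, l13579, l426, l421, l418, l429, l501, l498, o4525, o4547, l4143, l7656, l4771, l9168] l13582 := rupP (by decide +kernel)
theorem r13583 : PImp [l12195, l12278, l2846, l12249, l12213] l13583 := rupP (by decide +kernel)
theorem r13584 : PImp [l13579, l13582, l4139] l13584 := rupP (by decide +kernel)
theorem r13585 : PImp [l13579, l13580, l7703, l2999, l2997, l3749, l4769, l7692, l3759] l13585 := rupP (by decide +kernel)
theorem r13586 : PImp [l13580, l13579, l7703, l2997, l2999, l4145, l4141, l12335, l13585, l3758, l3748, l7692] l13586 := rupP (by decide +kernel)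
theorem r13587 : PImp [l1210, o4469, l12314, l12963, l13583] l13587 := rupP (by decide +kernel)
theorem r13588 : PImp [l13579, l3729, l12134, l7703, o1153, l429, l4969, l1210, l13586, l13584, l13587, l480, l11270, l13562, l12288, l485, l12304, l3009, o3480, o305, l12318, l12315, o8660, l11223, o4959, l11233] l13588 := rupP (by decide +kernel)
theorem r13589 : PImp [l13579, l1412, l7703, l1210, o4258, o4540, o4546, l878, l7656, o2776, l3749] l13589 := rupP (by decide +kernel)
theorem r13590 : PImp [l13579, l3785, l3782] l13590 := rupP (by decide +kernel)
theorem r13591 : PImp [l12123, l11453, o4974, l7680, o4809] l13591 := rupP (by decide +kernel)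
theorem r13592 : PImp [l13580, l2995, o3077, o3076, l2536, o299, o300, o302, l12275] l13592 := rupP (by decide +kernel)
theorem r13593 : PImp [l13580, o4091, l3966, o4195, o4914, l12011, o947, o5820, o5816, l8859, l8782, o5912] l13593 := rupP (by decide +kernel)
theorem r13594 : PImp [l5269, o2393, o1647, l13593, l12669, l4080, l11614, o3427, l5519, l5514] l13594 := rupP (by decide +kernel)
theorem r13595 : PImp [l421, l11499, l3308, l3303, l9891, l9397, o4081, o4076, o4085, l8827, l8788] l13595 := rupP (by decide +kernel)
theorem r13596 : PImp [l13579, l13580, l13581, l7703, l3007, l433, l1412, l5269, o4904, l4145, l4146, o4911, l4775, l3008, l1218, o4906, l4174, l3134, l2996, l3763, o4327, o4525, l5274, l5268, l1246, l13595, l5034, l4526, o351, o799, o771, o5003, l13304, l476, l12235, l4143, o8658, l2260, o4977, o5480, l11799, o340, o297, o800, l3216, l2994, l3797, l2998, l4771, l2992, l3006, l11453, l12135, l11744, o688, o708, l11123, o272, o2306, o1959, l6571, o3535, l8794, l11593, o853, o2501, o2489, l12478, o2559, l8857, l4059, o929, l3303, o1609, o4084, o4200, o3906, o1748, l4027, o1616, l3969, o2424,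 o5982, o818, o3887, o6191, o6212, l1071, o1487, o8232, o5662, o5669, l11170, l10514, o3436, l13594, l12133, o1975, l9771, l12617, o1132, o1160, l8727, l8726, l2707, l2708, l4082, l8902, l11741] l13596 := rupP (by decide +kernel)
theorem r13597 : PImp [l433, l1412, l7840, l3006, l8113, l8753, l3075] l13597 := rupP (by decide +kernel)
theorem r13598 : PImp [l5034, o2493, l12478, o2559, l3993, l8887, l409, o4197, o3890, o3901, l4056, l3303, o1609, l3983, o1748, l4027, o1616, o818, o2424, o5982, o3887, o5914, o6191] l13598 := rupP (by decide +kernel)
theorem r13599 : PImp [l5034, l5274, l13598, o2449, l9961, l5072, l4054, o3896] l13599 := rupP (by decide +kernel)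
theorem r13600 : PImp [l13579, l13580, l1246, o4904, l7703, l2996, l3763, o4525, l5268, l5274, o4327, o4906, l4174, l3134, o352, l2998, l3008, l1218, l433, o4911, l4145, l4775, l4771, o305, l4146, l5269, l1412, l3007, l3006, l7840, l8185, l13595, l5034, l4502, o122, l13597, o853, o929, l13599, l11593, l13596, o2493, o2501, o2489, l12478, o2559, l8857, o2450, l3993, l3303, o1609, l409, o1748, o1616, l3983, o5982, l4749, o4202] l13600 := rupP (by decide +kernel)
theorem r13601 : PImp [l5034, l3008, o2493, o2501, o2489, l12478, o2559, l8857, o2450, l3993, l3303, o1609, l409, o1748, o1616, l3983, o5982, l4748, o4202] l13601 := rupP (by decide +kernel)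
theorem r13602 : PImp [l5274, l3008, l1218, l421, l13601, l12104, l8824, l3308, l1073] l13602 := rupP (by decide +kernel)
theorem r13603 : PImp [l5034, o2493, l12478, o2559, o2450, l3993, l8887, l409, o3890, l4056, l3303, o1609, l3983, o1748, o1616, l4748, o5982, o4202] l13603 := rupP (by decide +kernel)
theorem r13604 : PImp [l3303, l4053, l6163, l8863] l13604 := rupP (by decide +kernel)
theorem r13605 : PImp [l1246, l5274, o853, o929, l13602, l13603, o2460, l13604, l3308, l4054, l8887, o3890] l13605 := rupP (by decide +kernel)
theorem r13606 : PImp [l5274, l1412, l4502, o122, l13605, l9703, l9763, l8873] l13606 := rupP (by decide +kernel)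
theorem r13607 : PImp [l1246, o2443, l706, l712, l3308, o3890, l4073] l13607 := rupP (by decide +kernel)
theorem r13608 : PImp [l9397, l4038] l13608 := rupP (by decide +kernel)
theorem r13609 : PImp [l1246, l13607, o2460, l13608, l3303, l5801, l3312, o4076, l9399] l13609 := rupP (by decide +kernel)
theorem r13610 : PImp [l3006, l433, l3008, o2501, o2489, l10789, l4708, l3308, l7772, l9579] l13610 := rupP (by decide +kernel)
theorem r13611 : PImp [l13581, l13580, l13579, l7703, l3008, l1145, l3216, o1152, l433, l1412, o4913, o4904, l4145, l4143, l476, l12235, l12300, l3012, o1153, l12277, l3933, o1116, o1546, o1555, l5039, l12195, l13592, l13590, l1218, l421, l3782, l3786, l13304, o1970, o2381, o4911, l4775, l4771, l12194, o305, o1548, l2259, o3479, l2992, o1117, l1146, l4146, l5269, o4906, l3007, l3006, l2996, l2998, l10351, l4174, l3763, o351, o352, l3134, o4525, o5005, o4336, o800, o799, l5274, l5268, o8353, l11799, o8658, l12241, o5797, l4438, o5480, o5487, o4977, l390, o3460, l2835, l12249, l12153, l12256, l12150, l12181, l12180, l1246, l13600, l13606, l13609, l13610, l9388, o2460, o3906, l5045, l4540] l13611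 := rupP (by decide +kernel)
theorem r13612 : PImp [l13581, l13579, l13580, l433, l1412, l12300, l5039, l12195, o1153, l12277, l3933, o1116, o1555, o1546, o4904, l4145, l476, l12235, l4143, o4913, o1152, l13611, l2536, o3467, o3468, o299, o300, o302, l12275] l13612 := rupP (by decide +kernel)
theorem r13613 : PImp [l13579, l13580, l7703, l2996, l2998, l3748, l7692, l3744, l3758] l13613 := rupP (by decide +kernel)
theorem r13614 : PImp [l13579, l7692, l7656] l13614 := rupP (by decide +kernel)
theorem r13615 : PImp [l33, o8657] l13615 := rupP (by decide +kernel)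
theorem r13616 : PImp [l13579, o1153, l12277, l3933, o1116, o1546, o1548, l13588, l433, l1412, l3729, o4904, l4145, l476, l12235, l12300, l7703, o4906, l4143, l13589, l1146, l3007, l3731, l12123, l5039, l12195, l13612, l13613, o3469, l13614, o4525, o4327, l2748, l5274, l12241, l13615, l12213, l13591, l12249] l13616 := rupP (by decide +kernel)
theorem r13617 : PImp [l13579, l13580, l7703, l3729, l13588, l433, o4906, o4904, l4145, l4143, l13589, l1145, l1412, l12277, l12300, l3011, l3009, l13616, l12262, l12218, l878, o4317, o4315, l12158, o2762, o2764, l3784, l3797] l13617 := rupP (by decide +kernel)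
theorem r13618 : PImp [l13579, l3729, l13588, o4904, l4145, l4143, l13617, l11270, l13562, l12288, l12200] l13618 := rupP (by decide +kernel)
theorem r13619 : PImp [l13579, l7703, l10356, l2820, l3213, l498, l4144, l9168] l13619 := rupP (by decide +kernel)
theorem r13620 : PImp [l13579, l13580, l7692, l3749, l7664, o3232, l2912, l3761] l13620 := rupP (by decide +kernel)
theorem r13621 : PImp [l13579, l13580, l13581, o4344, l7703, l10356, l2820, l3213, l3216, l13619, l2767, o4527, l4140, l4967, l2534, l3757, l1021, o2757, l3759, o6519] l13621 := rupP (by decide +kernel)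
theorem r13622 : PImp [l13579, l13581, l13580, l7703, l13618, l3213, l10356, l3730, l3216, l13620, o4327, o4344, l2748, l13621, l433, o4906, l2768, l1412, l1145, l2823, l13590, o6519, o2764, o6377, l2922, l3792] l13622 := rupP (by decide +kernel)
theorem r13623 : PImp [l5034, l1247, l3008, o2493, o2557, l7806, l5068, o2461, o3952, o4031, o3896, l3303, l12805, l4031, l3986, o3877, o1748, o1609, o818, o1616, o6250, o2441, o2561, o6033, l8661, o6065] l13623 := rupP (by decide +kernel)
theorem r13624 : PImp [l4967, o853, o929, l13623, o2444, o2451, l3075, l1085, l8096, l3308] l13624 := rupP (by decide +kernel)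
theorem r13625 : PImp [l1244, l1247, l4967, l1210, l4502, o122, l13624, l10801, l12056, l5178, l3308, l10068, l5033, o3888, l5799] l13625 := rupP (by decide +kernel)
theorem r13626 : PImp [l4967, l4966, l3008, l325, l12754, l10977] l13626 := rupP (by decide +kernel)
theorem r13627 : PImp [l7207, l5808, l8856, o5912] l13627 := rupP (by decide +kernel)
theorem r13628 : PImp [o2393, o1647, l13627, o947, l11960, l4083, l12031, o5513, l5866, o3832, o3829, o6690, o4037, o6179, o6190] l13628 := rupP (by decide +kernel)
theorem r13629 : PImp [l4438, o694, l11676, l11123, o714, l13052, o3671, o2269, l10156, o1465, o8229, o5733] l13629 := rupP (by decide +kernel)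
theorem r13630 : PImp [o5300, o4745, l5871, l5751, l11275] l13630 := rupP (by decide +kernel)
theorem r13631 : PImp [l2269, o695, o699, l3933, o1116, o1117, o3391, l2322, o3671, l13630, o5636, o5254, o5248, o5647, l10530, l12319, o1089, l11275] l13631 := rupP (by decide +kernel)
theorem r13632 : PImp [l13581, l13579, o1153, l12277, l3933, o853, o929, l3736, l13622, l3727, l7703, l3000, l3001, l4143, o4898, l1210, l12314, o305, o4469, l12963, o4484, l4139, l12195, l2846, l12278, l12249, l12997, l4438, o776, l3002, l12123, o3229, o3813, l10352, l4172, o352, l3732, o4910, l4109, o4883, o4904, l4968, l4969, l476, l472, l12174, l12212, l3133, l13626, l4502, o122, o123, l5034, l4526, o1116, o297, l390, l485, l12227, o5335, o5470, l12135, o1152, o340, o8679, o3784, o8814, o3770, l4621, o2798, o777, l12248, o5333, o5168, l12300, l13089, l12226, o1117, o4479, o4465, l13587, o5380, l4967, l4966, l1209, l4149, l3008, l325, o2493, o2501, o2442, l9096, l3303, l4055, l12805, l10159, o1748, o4033, o3978, o4031, o3896, o1609, l3986, o6251, l3968, o1616, o6250, o2561, l8661, l4750, o8603, l13628, l9771, l8726, l9109, l4082,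 o5407, l13629, o730, o699, l2269, o718, o725, o690, o336, o337, l5041, l13631, o3724, o3677, l2303, l10590, o5705, o5699, l11075, l26, o1089, o2283, o8087] l13632 := rupP (by decide +kernel)
theorem r13633 : PImp [l13579, o1153, l7703, l13622, l3727, l3001, l4143, o4898, o4910, l3002, l4109, o4883, o4904, l4968, l4139, l13587, l1210, l12314, l12278, l12277, l3933, l12195, l12300, l476, l472, l12174, o4469, l12963, o4484, l2846, l12249, l12997, l390, l485, l12227, l12248, o2798, l3000, o305, l4438, o776, l12123, o3229, o3813, l10352, l4172, o352, l3732, l4969, l12212, l12888, l3133, l13626, l13625, l1244, l1247, l4967, l13632, o2444, o2451, l3075, l1085, l8096, l3308] l13633 := rupP (by decide +kernel)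
theorem r13634 : PImp [l10801, l12056, l5178, l3308, l10068, l5033, o3888, l5799] l13634 := rupP (by decide +kernel)
theorem r13635 : PImp [l3303, l5034, l3008, o2493, o2557, o2461, l4055, l12805, l3986, l4031, o4031, o1609, o818, o3876, o1616, o6250, o2441, o2561, o6075, l8661, o6065] l13635 := rupP (by decide +kernel)
theorem r13636 : PImp [l5034, l3303, l10159, o1748, l13635, o2451, l3075, l8096] l13636 := rupP (by decide +kernel)
theorem r13637 : PImp [l13580, l13579, o1153, l12277, l3933, o1116, l2259, l7703, l13622, l3001, l3727, l4143, o4898, l1210, l12314, l4139, l12278, o5381, l13304, o1970, o2381, o305, o4469, l12963, o4484, l12195, l2846, l12249, l12997, l4438, o777, o8507, o776, l390, l485, l12248, l12227, l12300, l11793, l4767, l4779, l12212, o5168, l476, l472, l12174, l13587, o4910, l4967, o4904, l4969, l4968, l1209, l3002, l4109, o4883, l3732, l12123, l3000, l7692, l3749, l7664, l3751, l3761, o2798, o3229, o2779, o3813, l1244, l12888, l10352, l1247, l4172, o352, l3133, l13626, l5034, l4502, l13625, o122, l13634, o853, l13633, o929, l13636, l3308, l1073, l12798, l3991, l9096, o2444] l13637 := rupP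 (by decide +kernel)
theorem r13638 : PImp [l13579, l13580, l13581, l3216, l7703, l13622, l3001, l3727, l4143, o4910, l4967, o4898, l1210, l4139, l3000, l12277, l12314, o5381, l12195, l2846, l12300, l11793, l4767, l13637, o4327, o4344, l2748, o4539, l3757, l1021, l3792, l3794, l2537, o2757, o6519] l13638 := rupP (by decide +kernel)
theorem r13639 : PImp [l13579, l13580, l13581, l7703, l13622, l3001, l3727, l4143, o4904, l4969, o4898, l1210, l1209, l4139, l12123, l11453, l12134, l3000, o1153, l3216, l13638, l11270, l13562, l12288, l3011, o3480, o3468, o3469, o305, l35, o8660, o5769, o5806, o5770, l2308, o4967, o5327, o5003, o4989, o5007, l12199, l7664, l3933, l12158, l3761, o1116, l4438, o2798, o2757, o1546, o776, o6795, o8656, o351, o783] l13639 := rupP (by decide +kernel)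
theorem r13640 : PImp [l13580, l13579, o5003, o5007, l3762, l3746, l13470] l13640 := rupP (by decide +kernel)
theorem r13641 : PImp [l13581, l13579, l13639, l7703, l13622, l3001, l3727, l4143, o4898, l1210, l4139, l12123, l11453, l12135, l12134, l3002, o1152, o1153, l12277, l12314, o5380, o5382, l13587, l12278, o4469, o4484, l3933, o305, l12195, o8508, l12963, o1116, l2846, l12249, o1546, l12997, o297, l4438, o776, l13640, l2720, l2260, l2261, l10352, o3100, o3820, o3796, o3795, l12187, o8504, o8525, o759] l13641 := rupP (by decide +kernel)
theorem r13642 : PImp [l13579, l7703, l13622, l3001, l3000, o1153, l12134, l12123, l3727, l4143, l4139, o4898, o4904, l1209, l4969, l13639, l13641, l11270, l13562, l12288, o3480, o3469, o305, l35, o8660, o5806, o5007, l13640, l3746, l3748] l13642 := rupP (by decide +kernel)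
theorem r13643 : PImp [l13579, l13580, l13581, l7703, l13622, l3000, l3001, l13642, l3213, l3728, l3216, l1138, l4144, l1242, o4898, o4904, o4910, l1210, l4967, l7664, o4329, l7692, o4550, o4347, l2749, l1021, l3757, l2824, l3792, l3794, o2757, o6519] l13643 := rupP (by decide +kernel)
theorem r13644 : PImp [l13580, l13500, l2818, l11373] l13644 := rupP (by decide +kernel)
theorem r13645 : PImp [l13580, l3008, l325, l3216, l501, l13644, o2902, o2898, l5794, l13198, l5268] l13645 := rupP (by decide +kernel)
theorem r13646 : PImp [l13580, l3216, l13645, o4898, o4910, l10323, l13500, l2820] l13646 := rupP (by decide +kernel)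
theorem r13647 : PImp [l13580, l3216, l5276, l5794, l5112, l5274, l2895, l4630, o4509, o4503, l1770, l5169] l13647 := rupP (by decide +kernel)
theorem r13648 : PImp [l13579, l13580, l3216, l13646, l5112, l4655, l5276, l433, l5794, l429, l13647, l5798, l1254, l3783, o4317, l5796, l1099, l4411] l13648 := rupP (by decide +kernel)
theorem r13649 : PImp [l13580, l13579, o4542, o4547, l3775, l3748, l2907, o2776] l13649 := rupP (by decide +kernel)
theorem r13650 : PImp [l13579, l13580, l13581, l501, l495, l13648, l5036, l2996, l2993, l2994, l2998, l3137, l13198, l3748, l3777, l5268, o4329, o4347, l3776, l5794, o6449] l13650 := rupP (by decide +kernel)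
theorem r13651 : PImp [l13579, l13581, l12123, l12135, o1152, o1153, l12277, l12300, l3933, l3012, o1116, o1548, o3467, o3469, l13615, o4974, l11800, l12186, o340, o8374, o8679] l13651 := rupP (by decide +kernel)
theorem r13652 : PImp [l13651, l11270, l13562, l12288, l12200] l13652 := rupP (by decide +kernel)
theorem r13653 : PImp [l13579, l3729, l404, l13643, l13648, l5036, l3123, l13649, l429, l1146, o4897, l433, l4109, l1412, l13650, l13652] l13653 := rupP (by decide +kernel)
theorem r13654 : PImp [l13579, l404, l12134, l13643, o1153, l3729, l13653, l503, o4898, l4766, l4106, l1210, l13587, l480, l11270, l13562, l12288, l485, l12304, l3009, o3480, o305, l12318, l12315, o8660, l11223, l11233, o4959] l13654 := rupP (by decide +kernel)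
theorem r13655 : PImp [l13579, l13580, l3123, o4530, l3775, o3231, o3211, l2911, l13198] l13655 := rupP (by decide +kernel)
theorem r13656 : PImp [l13579, o1153, l12277, o4469, o4484, o4492, o5380, l12314, l3933, l12963, l12195, l12278, o1116, l2846, o1555, l12249, l12997, o340, o788, o8377, o3107, o8528, l12182] l13656 := rupP (by decide +kernel)
theorem r13657 : PImp [l13579, l13581, o1152, o1153, o1570, o1584] l13657 := rupP (by decide +kernel)
theorem r13658 : PImp [l13579, l13580, l13643, l13648, l3729, l13654, l2820, l2997, l2999, l13650, l3748, l2722, l7692, l3776] l13658 := rupP (by decide +kernel)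
theorem r13659 : PImp [l13581, l13579, l13304, l12123, l11453, l12135, l13657, l13643, l13648, o353, l5036, o1152, l3008, l13658, l3000, l3001, l3002, l3727, l4109, o4887, o4897, o4903, o4883, l4106, l1217, l1218, l4969, l13655, l13656, l11270, l13562, o340, o3467, o3468, o3469, o781, o8374, l35, l6273, o8679, o8680] l13659 := rupP (by decide +kernel)
theorem r13660 : PImp [l13579, l13580, l13581, l5036, l3124, o4530, o4514, o4520, o4504, l13649, l3777, l7652, o2774, o2788, l5275, o2783, l4639, o6594] l13660 := rupP (by decide +kernel)
theorem r13661 : PImp [l13579, l13657, l13659, l12292, l12277, o1117, o1560, l4655, l433, l426, l421, l429, o4495, l5112, l5274, l1360, l13304, l13643, l13648, o353, l5036, l3729, l2895, o3143, l4110, l4108, l13660, o5380, l12303, l7651, o340, o3202, o788, l12181, o8377] l13661 := rupP (by decide +kernel)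
theorem r13662 : PImp [l13580, l13579, l501, o4530, o4534, l13655, l3132, l3777, l7682, l13470] l13662 := rupP (by decide +kernel)
theorem r13663 : PImp [l13580, l13579, l13648, o3137, l2901, l4766, l3774, l3746, l7692] l13663 := rupP (by decide +kernel)
theorem r13664 : PImp [l13579, l13580, l13581, l13648, l5036, l7692, l7682, l6354, o2799, o3236, o3214, l13470, l5798, l786, l3777, l5794, o4312, o6726] l13664 := rupP (by decide +kernel)
theorem r13665 : PImp [l13579, l13580, l13581, l13643, l13648, l5036, l13659, l1360, l5112, l4655, l5276, l5274, l433, l426, l429, l421, l1254, l13661, l3727, l13662, l13663, l2820, l13664, o4327, o4344, o4553, l5793, l786, l2730, o2796, o2783, o6347] l13665 := rupP (by decide +kernel)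
theorem r13666 : PImp [l13643, l13648, l13665, l3213] l13666 := rupP (by decide +kernel)
theorem r13667 : PImp [l13580, l13579, l13666, l11362, l3008, l11371, l13562, o2869, l13287, l5039, l12192, l3935, l3933, l12132, o4685, l1218, l5178, o4327, l480, l11465, l4967, o4911, o4910, l4773, l13620, l4143, l3727] l13667 := rupP (by decide +kernel)
theorem r13668 : PImp [l13579, l13666, l11362, l11371, l13562, l13287, l5039, l12192, l5178, o4329, l480, l11465, l4967, l1412, l878, l3729, o2776, l3748] l13668 := rupP (by decide +kernel)
theorem r13669 : PImp [l13579, l13666, l11362, l11371, l480, l13287, l11465, l4967, o4910, l13667, l13668, l3001, l3727, l4143] l13669 := rupP (by decide +kernel)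
theorem r13670 : PImp [l13579, l13666, l11362, l3008, l11371, l13562, o2869, l13287, l5039, l12192, l3935, l3933, l12132, o4685, l1218, l5178, o4327, l11270, l12296, l1243, l1138, l13669, l3213, l3728, l13620] l13670 := rupP (by decide +kernel)
theorem r13671 : PImp [l13580, l13581, l13666, l3935, l11362, l11371, l13287, l480, l11270, l13562, l5039, l11465, l3012, l12236, l12192, l4967, l12321, l12228, l5178, l1412, l5269, o4488, l878, o4315, o4327, l3007, l13670, l5036, l5792, l3807, l4639] l13671 := rupP (by decide +kernel)
theorem r13672 : PImp [l13580, l13579, l13671, l5035, l3216, l13646, l5112, l4655, l5276, l13647, l433, l5794, l426, l429, l5798, l421, l1254, l1138, l10365, o5188, l4630, l2817, l4411, l5796, l5165] l13672 := rupP (by decide +kernel)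
theorem r13673 : PImp [l13580, l13579, l13672, l13671, l5035, l7692, l3775, l3212, l2907, o2776] l13673 := rupP (by decide +kernel)
theorem r13674 : PImp [l13579, l13672, l13671, l12888, o2780, l3212, l3755] l13674 := rupP (by decide +kernel)
theorem r13675 : PImp [l13579, l13672, l13671, l7692, l13673, l3212, l3211] l13675 := rupP (by decide +kernel)
theorem r13676 : PImp [l13579, l13581, l13580, l13672, l13671, l5035, l5036, l3741, l13674, l13675, o4327, o4344, l2748, l3776, l5793, o2774, o2787, o2788, l1022, o6347, l4411] l13676 := rupP (by decide +kernel)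
theorem r13677 : PImp [l13579, l13580, l13671, l13676, l3738, l13672, l5035, l7692, l3211, l13470, l3212, l3777] l13677 := rupP (by decide +kernel)
theorem r13678 : PImp [l13579, l13580, l13581, l13677, o4327, o4344, l13671, l13676, l3738, l13672, l5035, l5036, l3123, o4898, o4910, l4766, l5793, o4539, o4553, l3774, l1360, l2727, o3231, l4967, o3211, l2534, o6449] l13678 := rupP (by decide +kernel)
theorem r13679 : PImp [l13580, l13579, l13672, l13671, l5035, l13676, l3738, l13677, l13678, l3001, l1360, l5793, l3776, l13470, l3754, l3211] l13679 := rupP (by decide +kernel)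
theorem r13680 : PImp [l13672, l13679, l3213] l13680 := rupP (by decide +kernel)
theorem r13681 : PImp [l13680, l13580, o4354, l3216, l7703, l5035, l501, o4569, o4557, l4771, l1412, l1145, l3761, l878, l3763, o2764, l13590] l13681 := rupP (by decide +kernel)
theorem r13682 : PImp [l13579, l13657, o1153, l12123, l11453, l12134, o5363, l12314, o5382, o5364, o305, o8508, l35, o3820, o3796, o8504, o8526] l13682 := rupP (by decide +kernel)
theorem r13683 : PImp [l13579, l12135, l2725, o340, o3467, o8374, o8679] l13683 := rupP (by decide +kernel)
theorem r13684 : PImp [l13581, l13579, l13657, o1152, l13304, l12123, l11453, l13682, l11270, l13562, l12288, l12304, o3478, l13683, l4170, o3468, o3469, l11461] l13684 := rupP (by decide +kernel)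
theorem r13685 : PImp [l13680, l13581, l13579, l7703, o4884, l1210, l1209, o5004, o5506, l4139, o4354, o4310, l5035, l3725, l13684, l4969, l433, l1412, l878, o2759, o6795, l2725, l4783] l13685 := rupP (by decide +kernel)
theorem r13686 : PImp [l13579, o1153, l12314, o5382, o305, l12195, o8508, o3538] l13686 := rupP (by decide +kernel)
theorem r13687 : PImp [l11270, l1210, l11960, l4082, l13562, l12265, o3460, l480, l12304, l3009, l12317, l12315, l4438, l12237, o1117, l485, l12207, l12288, l12202, l2992, l11364, l1209, l11440, l8170, l11437, l2708, l2619] l13687 := rupP (by decide +kernel)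
theorem r13688 : PImp [o2393, l5035, o5826, l8562, l2619, l8242] l13688 := rupP (by decide +kernel)
theorem r13689 : PImp [l13579, l13680, l5035, l12134, l3725, l4139, l7703, l1210, l13686, l13562, l12265, o3460, o1117, l11270, l480, l3009, l12317, l4438, l8185, l12288, o305, o776, l12304, l12315, l12237, l12198, l485, l12207, l12248, l12202, l2992, o297, l11364, l2726, l1209, l4149, l3733, o1647, l13627, o947, l11960, l13687, o730, l2269, o718, o336, o337, l5041, l13688, l11437, o3436, o3438, l9427, l10743, o3434, l10742, l5871, l10753] l13689 := rupP (by decide +kernel)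
theorem r13690 : PImp [l13579, l13680, l13581, o5006, l5035, l12134, l3725, l4139, l7703, o4884, l1210, l13686, l13562, o3478, l13304, o351, l11270, l12288, o305, o799, l1594, l4558, l480, l12304, o4568, l10818, l3009, o4843, o4499, l12317, l12315, l4438, o776, o1153, o4496, l12198, o1116, o1548, l12123, l2995, l3785, l3787, l12265, o3548, o8800, o5753, o3460, l12237, l433, l4968, o4497, l4967, l4966, o4354, o4310, o4321, l11364, l1244, l1139, l485, l12207, l12248, l12202, l2992, l3012, l13590, o5004, o5506, l2726, l2998, o352, l13685, l1209, o4868, l4149, l3733, l3008, l12800, l5034, l4502, l10801, l11568, l4526, o122, o853, l12322, o2493, o2501, o2559, l4055, l12805, o929, l3303, o3952, o3978, o4028, o3907, o1609, o1748, l3986, l3968, l4031, o1616, o818, o2424, o6250, o3886, l6005, o5949, l13689, l9771, o1132, o1160, l8726, l11386, l11254, l4082, l4602, l12301, l11070, o5015, l2708, l10936] l13690 := rupP (by decide +kernel)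
theorem r13691 : PImp [l7703, l433, l4968, l4967, l4966, l3008, l5035, o853, l10992, l12322, l10756, o925, l5034, l4502, l3303, o2493, o2554, o2450, l4055, l12805, o119, o1748, o3952, o1609, l3986, o1615, l4751, o6248, o4024] l13691 := rupP (by decide +kernel)
theorem r13692 : PImp [l433, l4968, l4967, l10801, l10766, l7772, l12951, o3938] l13692 := rupP (by decide +kernel)
theorem r13693 : PImp [o1117, l12277] l13693 := rupP (by decide +kernel)
theorem r13694 : PImp [o1564, o1555] l13694 := rupP (by decide +kernel)
theorem r13695 : PImp [l6354, l5798] l13695 := rupP (by decide +kernel)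
theorem r13696 : PImp [l785, l1021] l13696 := rupP (by decide +kernel)
theorem r13697 : PImp [o2764, l2922] l13697 := rupP (by decide +kernel)
theorem r13698 : PImp [o2764, o2785] l13698 := rupP (by decide +kernel)
theorem r13699 : PImp [o2774, o2787] l13699 := rupP (by decide +kernel)
theorem r13700 : PImp [o2776, l2907] l13700 := rupP (by decide +kernel)
theorem r13701 : PImp [o2776, o2792] l13701 := rupP (by decide +kernel)
theorem r13702 : PImp [o2776, o2791] l13702 := rupP (by decide +kernel)
theorem r13703 : PImp [o2758, o2799] l13703 := rupP (by decide +kernel)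
theorem r13704 : PImp [o2757, l2907] l13704 := rupP (by decide +kernel)
theorem r13705 : PImp [o2761, l2907] l13705 := rupP (by decide +kernel)
theorem r13706 : PImp [o2756, o2797] l13706 := rupP (by decide +kernel)
theorem r13707 : PImp [l2251, o3791] l13707 := rupP (by decide +kernel)
theorem r13708 : PImp [l2321, o3791] l13708 := rupP (by decide +kernel)
theorem r13709 : PImp [l1145, l1209] l13709 := rupP (by decide +kernel)
theorem r13710 : PImp [l1145, l1210] l13710 := rupP (by decide +kernel)
theorem r13711 : PImp [l1146, l1210] l13711 := rupP (by decide +kernel)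
theorem r13712 : PImp [l4969, l3006] l13712 := rupP (by decide +kernel)
theorem r13713 : PImp [l4969, l3007] l13713 := rupP (by decide +kernel)
theorem r13714 : PImp [o5805, l2264] l13714 := rupP (by decide +kernel)
theorem r13715 : PImp [o5805, o5779] l13715 := rupP (by decide +kernel)
theorem r13716 : PImp [l5643, l13696] l13716 := rupP (by decide +kernel)
theorem r13717 : PImp [o1562, o1559] l13717 := rupP (by decide +kernel)
theorem r13718 : PImp [l13680, o4564, o4570, l4655, l3007] l13718 := rupP (by decide +kernel)
theorem r13719 : PImp [l13680, o4558, o4570, l4655, l1146] l13719 := rupP (by decide +kernel)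
theorem r13720 : PImp [l3935, l12277] l13720 := rupP (by decide +kernel)
theorem r13721 : PImp [l13720, l3935, l11270, l12288] l13721 := rupP (by decide +kernel)
theorem r13722 : PImp [l13720, l3935, l11364] l13722 := rupP (by decide +kernel)
theorem r13723 : PImp [l13720, l11270, l3935, l12304] l13723 := rupP (by decide +kernel)
theorem r13724 : PImp [l13562, l12292, o2880] l13724 := rupP (by decide +kernel)
theorem r13725 : PImp [l13562, l12292, l3011] l13725 := rupP (by decide +kernel)
theorem r13726 : PImp [l13562, l12292, l3012] l13726 := rupP (by decide +kernel)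
theorem r13727 : PImp [l13562, l12292, l2992] l13727 := rupP (by decide +kernel)
theorem r13728 : PImp [l3933, l13721, l13720, l13724, l13723, l12316] l13728 := rupP (by decide +kernel)
theorem r13729 : PImp [l3933, l13723, l13721, l13720, l13724, l12172] l13729 := rupP (by decide +kernel)
theorem r13730 : PImp [l3933, l13723, l13720, l13562, l13721, l12198] l13730 := rupP (by decide +kernel)
theorem r13731 : PImp [l13723, l13720, l13562, l13721, l12199] l13731 := rupP (by decide +kernel)
theorem r13732 : PImp [l13729, l3933, l13720, o4685] l13732 := rupP (by decide +kernel)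
theorem r13733 : PImp [l13729, l3933, l13720, o4696] l13733 := rupP (by decide +kernel)
theorem r13734 : PImp [l13730, l3933, l13720, o5158] l13734 := rupP (by decide +kernel)
theorem r13735 : PImp [l13731, l13720, o5327] l13735 := rupP (by decide +kernel)
theorem r13736 : PImp [l13732, l3933, l13720, l12292, l3008, l1218] l13736 := rupP (by decide +kernel)
theorem r13737 : PImp [l13680, o4346, o4323] l13737 := rupP (by decide +kernel)
theorem r13738 : PImp [l13680, o4346, l11802, o4319] l13738 := rupP (by decide +kernel)
theorem r13739 : PImp [l13680, l2740, o4311] l13739 := rupP (by decide +kernel)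
theorem r13740 : PImp [l12271, l12292, l13720, l3933, o1116] l13740 := rupP (by decide +kernel)
theorem r13741 : PImp [l325, l3008, l12292, l5277, l1412, l13680, o4565, l490, l494, o5363] l13741 := rupP (by decide +kernel)
theorem r13742 : PImp [l12292, l5112, l5274, o4452] l13742 := rupP (by decide +kernel)
theorem r13743 : PImp [l13657, l13579, o1153, l13694] l13743 := rupP (by decide +kernel)
theorem r13744 : PImp [l13740, l12271, l13579, o1153, l2259] l13744 := rupP (by decide +kernel)
theorem r13745 : PImp [l13740, l12271, l13579, o1153, o1548] l13745 := rupP (by decide +kernel)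
theorem r13746 : PImp [l13680, o4346, o4339] l13746 := rupP (by decide +kernel)
theorem r13747 : PImp [l13562, l11371, l12239] l13747 := rupP (by decide +kernel)
theorem r13748 : PImp [l13562, l11371, l12300] l13748 := rupP (by decide +kernel)
theorem r13749 : PImp [l13562, l13748, l1412, o4498] l13749 := rupP (by decide +kernel)
theorem r13750 : PImp [l13562, l13748, l1412, l433, o4476] l13750 := rupP (by decide +kernel)
theorem r13751 : PImp [l13562, l13748, l1412, l433, o4487] l13751 := rupP (by decide +kernel)
theorem r13752 : PImp [l13562, l13748, l1412, l433, l429, o4469] l13752 := rupP (by decide +kernel)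
theorem r13753 : PImp [l11371, l13693] l13753 := rupP (by decide +kernel)
theorem r13754 : PImp [l11371, l13720, l3933, o1116] l13754 := rupP (by decide +kernel)
theorem r13755 : PImp [l13754, l11371, l13579, o1153, o1548] l13755 := rupP (by decide +kernel)
theorem r13756 : PImp [l13287, l11371, l480, l11465] l13756 := rupP (by decide +kernel)
theorem r13757 : PImp [l11371, l13562, l13287, l12236] l13757 := rupP (by decide +kernel)
theorem r13758 : PImp [l11371, l13562, l11270, l12296] l13758 := rupP (by decide +kernel)
theorem r13759 : PImp [l11371, l13726, l12271, l480, l11270, l12321] l13759 := rupP (by decide +kernel)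
theorem r13760 : PImp [l13287, l5039, l11371, l13562, l12192] l13760 := rupP (by decide +kernel)
theorem r13761 : PImp [l13287, l5039, l11371, l13562, l12203] l13761 := rupP (by decide +kernel)
theorem r13762 : PImp [l13756, l12271, l4967] l13762 := rupP (by decide +kernel)
theorem r13763 : PImp [l13756, l3935, l13287, l13757, l12228] l13763 := rupP (by decide +kernel)
theorem r13764 : PImp [l13757, l13287, l11371, l480, l12223] l13764 := rupP (by decide +kernel)
theorem r13765 : PImp [l13757, l390, l11371, l11270, l480, l485, l12208] l13765 := rupP (by decide +kernel)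
theorem r13766 : PImp [l13759, l11371, l11270, l13726, l12155] l13766 := rupP (by decide +kernel)
theorem r13767 : PImp [l13759, l11371, l11270, l13726, l12156] l13767 := rupP (by decide +kernel)
theorem r13768 : PImp [l13760, l12271, l5178] l13768 := rupP (by decide +kernel)
theorem r13769 : PImp [l13760, l11371, l13725, l13287, l3935, l12129] l13769 := rupP (by decide +kernel)
theorem r13770 : PImp [l13760, l5274, l13758, l1243, o4389] l13770 := rupP (by decide +kernel)
theorem r13771 : PImp [l13760, l5274, l13758, l1243, o4395] l13771 := rupP (by decide +kernel)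
theorem r13772 : PImp [l13762, l11373, l13768, l878] l13772 := rupP (by decide +kernel)
theorem r13773 : PImp [l13763, l11371, o5331] l13773 := rupP (by decide +kernel)
theorem r13774 : PImp [l13763, l13760, l5274, l13680, o4543, o5396] l13774 := rupP (by decide +kernel)
theorem r13775 : PImp [l13763, l13759, o4488] l13775 := rupP (by decide +kernel)
theorem r13776 : PImp [l13763, l13759, o4477] l13776 := rupP (by decide +kernel)
theorem r13777 : PImp [l13766, l13758, l1243, l1138, l13765, l1276] l13777 := rupP (by decide +kernel)
theorem r13778 : PImp [l13766, l12271, l13710] l13778 := rupP (by decide +kernel)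
theorem r13779 : PImp [l13769, l13759, o4295] l13779 := rupP (by decide +kernel)
theorem r13780 : PImp [l13760, l5274, l13680, o4543, l13758, l1243, o5196] l13780 := rupP (by decide +kernel)
theorem r13781 : PImp [l13775, l12271, l3006] l13781 := rupP (by decide +kernel)
theorem r13782 : PImp [l13775, l12271, l3007] l13782 := rupP (by decide +kernel)
theorem r13783 : PImp [l13680, o4841, l13749, l13741, o2865] l13783 := rupP (by decide +kernel)
theorem r13784 : PImp [l13730, l472, l477, l13763, o1116] l13784 := rupP (by decide +kernel)
theorem r13785 : PImp [l476, l477, l13763, l11270, l12288] l13785 := rupP (by decide +kernel)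
theorem r13786 : PImp [l476, l477, l13763, l11364] l13786 := rupP (by decide +kernel)
theorem r13787 : PImp [l13731, l477, l13763, o1117] l13787 := rupP (by decide +kernel)
theorem r13788 : PImp [l476, l11270, l477, l13763, l12304] l13788 := rupP (by decide +kernel)
theorem r13789 : PImp [l13784, l472, l477, l13763, l13579, o1153, o1548] l13789 := rupP (by decide +kernel)
theorem r13790 : PImp [l472, l13785, l476, l13562, l13730, l12173] l13790 := rupP (by decide +kernel)
theorem r13791 : PImp [l13755, l13789, o5158] l13791 := rupP (by decide +kernel)
theorem r13792 : PImp [l13721, l3933, l13785, l472, l13747, l12196] l13792 := rupP (by decide +kernel)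
theorem r13793 : PImp [l5039, l13287, l5038, l12288] l13793 := rupP (by decide +kernel)
theorem r13794 : PImp [l13793, l13747, l5039, l13287, l12229] l13794 := rupP (by decide +kernel)
theorem r13795 : PImp [l13753, l13787, l472, o5158] l13795 := rupP (by decide +kernel)
theorem r13796 : PImp [l13793, l11270, o297] l13796 := rupP (by decide +kernel)
theorem r13797 : PImp [l13773, l13735, l3933, o1116] l13797 := rupP (by decide +kernel)
theorem r13798 : PImp [l13580, l7703, l501, l13681, l2997, l4773, l3763] l13798 := rupP (by decide +kernel)
theorem r13799 : PImp [l13579, l3736, l3008, o2563, l9759, l12805, o2569, l3303, o1647, l9184, o1748, o5815, o6251] l13799 := rupP (by decide +kernel)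
theorem r13800 : PImp [l13579, l13580, l4141, l4139, o5826, o4574, l5665, l10914, l13688] l13800 := rupP (by decide +kernel)
theorem r13801 : PImp [l13579, l13580, l2994, l3213, l10356, l3216, l10323, l5794, o4395, l5268] l13801 := rupP (by decide +kernel)
theorem r13802 : PImp [l13680, l13579, l8837, l13746, l3790, l3781, l3725] l13802 := rupP (by decide +kernel)
theorem r13803 : PImp [l13580, l5794, l3216, l13802, l3776, l3805, o4902, l13205] l13803 := rupP (by decide +kernel)
theorem r13804 : PImp [l13680, l13579, l13801, l3000, l2996, l2995, l2994, l13748, l3011, l4967, l1145, o4395, l5268, l13803, l5035, l3725, l10349, l3134, l11364, l12333, l12331] l13804 := rupP (by decide +kernel)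
theorem r13805 : PImp [l13680, l13579, l13748, o5818, o5826, o4572, o4574, o4571, l3134, l1149, l11364, l12333, l12331] l13805 := rupP (by decide +kernel)
theorem r13806 : PImp [l13680, l13579, l13580, l13801, l3000, l2994, l2993, l13748, l3011, l3008, l13805, l20, l4083, l5035, l3740, l2725, o5195, o4555, l3134, l13198, l1145, l11364, l12333, l12331] l13806 := rupP (by decide +kernel)
theorem r13807 : PImp [l13580, l13579, l13680, l13801, l3000, l2998, l2996, l5035, l3740, l2725, o5195, l3134, l13645, l3777, l3755, l11802] l13807 := rupP (by decide +kernel)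
theorem r13808 : PImp [l13680, l13579, l13801, l3000, l13807, l4083, l3725, l20, l13806, o5826, l13780] l13808 := rupP (by decide +kernel)
theorem r13809 : PImp [l13580, l13680, l13579, l7495, l2994, l2995, l2996, l2998, l3000, l2707, l13801, o2393, l13808, l5036, l5035, l3725, l4170, l494, o4555, l4174, l1145, l10350, l3216, l4789, l10336] l13809 := rupP (by decide +kernel)
theorem r13810 : PImp [l13680, l13579, l12123, l13748, o3469, l3011, l13780, o4555, l4172, o1153, l13733, l1145, l1146, o4395, o1116, o1548, l13615, o5451, l12333, l12331] l13810 := rupP (by decide +kernel)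
theorem r13811 : PImp [l13680, l13579, l13580, l5035, l3723, l1145, o4880, o4874, l10349, o2764, l2922, l3788, l3791] l13811 := rupP (by decide +kernel)
theorem r13812 : PImp [l13579, l12123, l11453, l12135, l13748, o3469, o3468, o3467, l1243, l5036, l13810, l4168, l13811, l1210, l13792, o301, o299, o300, l12216, l34, l768, l11270, l13774, l6273, l12304, l13657, o8656] l13812 := rupP (by decide +kernel)
theorem r13813 : PImp [l13794, l13748, l35, l12216, l13774, o5358, o5375, o5379, l12200, l13731, l12175, l12317, l12245, l12228] l13813 := rupP (by decide +kernel)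
theorem r13814 : PImp [l13581, o1152, l13683, l11270, l12021, o4462] l13814 := rupP (by decide +kernel)
theorem r13815 : PImp [l13680, l13579, l498, l503, l4783, l12123, l2820, l404, l13748, o3469, l3009, l4967, l424, o4258, l1209, l1210, l878, l13813, l4106, l3737, l3740, o2776, l13814, l13759, l13760, l13774, o4965, l2906, l3755] l13815 := rupP (by decide +kernel)
theorem r13816 : PImp [l13680, l13579, l13580, l503, l2820, l404, l4139, l4106, l13298, l3737, l3740, l3755, l3774, o2776, l2907] l13816 := rupP (by decide +kernel)
theorem r13817 : PImp [l13579, l13581, l13580, l13812, l1243, l13748, l498, l4783, l13794, l13815, l13771, o4395, o4890, o4885, o4874, o1152, l5268, l13816, l13811, l12216, l13298, l11270, l5793, l13683] l13817 := rupP (by decide +kernel)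
theorem r13818 : PImp [l13581, l13780, o1152, l11270, o5453, o340, o8679] l13818 := rupP (by decide +kernel)
theorem r13819 : PImp [l13680, l12135, l13748, o3467, l1243, l3011, l13812, l13817, o4555, l1145, o4395, l13818, l12333, l12331] l13819 := rupP (by decide +kernel)
theorem r13820 : PImp [l13581, l13748, o3467, l494, l13780, l13818, l490, o1152, l12251, o5169, l2533, l390, l12151, l12152, o340, o8679, o8374, l12189, o4941, o6449, o6347] l13820 := rupP (by decide +kernel)
theorem r13821 : PImp [l13579, l13794, l498, l13304, l12123, l11453, l12134, l13748, o3472, o3470, o3469, o3468, l11371, l13755, o5380, o5382, o5363, o5364, l12216, l13657, l13743, o1153, o8377, o8354, o8350, o8376, l2300, o798] l13821 := rupP (by decide +kernel)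
theorem r13822 : PImp [o8679, o8374] l13822 := rupP (by decide +kernel)
theorem r13823 : PImp [l13581, l13822, o1152, l13767, l13777, o8623, o8323] l13823 := rupP (by decide +kernel)
theorem r13824 : PImp [l13579, l12135, l13748, o3467, l13820, l4783, l13821, l11270, o340, l13823] l13824 := rupP (by decide +kernel)
theorem r13825 : PImp [l13680, l13579, l13581, l2820, l404, l13748, o3470, o3469, o3468, o3467, l1243, l3010, l3011, l12123, l13819, l13824, l5036, l5035, l3725, l3723, l13728, l4139, l4168, l4106, o4557, l4143, l13780, l13719, o4543, l1145, l13657, l13743, o1153, o1152, o1116, o1548, l13615, o5451, l12331, l5039, o299, o300, o302, l12275] l13825 := rupP (by decide +kernel)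
theorem r13826 : PImp [l13680, l13579, l3213, l2820, l5036, l4176, l5035, l4148, o4555, l3734, l13798, l1145, l11802, l3745, l3753] l13826 := rupP (by decide +kernel)
theorem r13827 : PImp [l5038, l11270, l11371, l12251, o5169, l12122, l390, l12151] l13827 := rupP (by decide +kernel)
theorem r13828 : PImp [l13581, l13580, l13680, l13579, l7495, l4967, l1243, l13809, l2820, l404, l13825, l3213, l3216, l13826, l2823, l2533, l498, l2822, o4896, o4892, l503, l4148, l4411, l4112, l13298, l4372, l2921, l13697] l13828 := rupP (by decide +kernel)
theorem r13829 : PImp [l13580, l13581, l2533, o4892, o4886, l2532, l4411, l5794, l13716, o6537, l878, o2755] l13829 := rupP (by decide +kernel)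
theorem r13830 : PImp [l13579, l13748, l4783, l13821, l13683, l11270] l13830 := rupP (by decide +kernel)
theorem r13831 : PImp [l13579, l13580, l4967, l13829, l3216, l3213, l4783, l13815, l13830, o4885, l5793] l13831 := rupP (by decide +kernel)
theorem r13832 : PImp [l13680, l13748, o3467, l3010, l3011, l4967, l13829, l12137, l3216, l3213, l13824, l13831, o4555, l13818, l1145, o4395, l12331, l12333] l13832 := rupP (by decide +kernel)
theorem r13833 : PImp [l13680, l13748, l3011, o4555, l13818, l1145, o4395, l12331, l12333] l13833 := rupP (by decide +kernel)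
theorem r13834 : PImp [l13579, l13748, o3467, l3010, l12135, l13824, l13833, l4783, l13821, l13823, l11270, o340] l13834 := rupP (by decide +kernel)
theorem r13835 : PImp [l13581, l13680, l13580, l13579, l13828, l13758, o1152, l7495, l4967, l13809, l2820, l13832, l5035, l13834, l3213, l2823, l3216, l2536, l498, l2533, o4907, l4140, o4892, l3724, l10320, l3792, l13701, l3745] l13835 := rupP (by decide +kernel)
theorem r13836 : PImp [l13580, l13680, l13579, l3213, l2823, l3216, o4880, o4874, l13829, l3792, l5035, l3724, l3782, l13697] l13836 := rupP (by decide +kernel)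
theorem r13837 : PImp [l13579, l12135, l13748, o3467, l4783, l13821, l13823, l11270, o340] l13837 := rupP (by decide +kernel)
theorem r13838 : PImp [l13581, o1152, l13748, l13794, l13823, l12216, o340, l5038, l12169, l12170, l12333, o8655, l12282, o5473, l12151] l13838 := rupP (by decide +kernel)
theorem r13839 : PImp [l13581, l13734, l13795, o1115, l4967, o4409, o1152, l13748, l3011, l3012, l5038, l11800, l12333, l12233, l12282, l12151, o5482, o8679, o8655] l13839 := rupP (by decide +kernel)
theorem r13840 : PImp [l13581, l4967, o4409, l1145, l13734, l13795, o1115, l1242, o1152, l13748, l3010, l3011, l2992, o3467, l13836, l12135, l13837, l494, l13818, l490, l476, l2533, l13838, l13839, o340, l12181, o8679, o5461, o5473, o5458, o4958, l12307, l12178, o6347, l390, o6449, l12152] l13840 := rupP (by decide +kernel)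
theorem r13841 : PImp [l494, l490, l13840, l13734, l13795, o1115, l4967, o4409, l13748, l3010, l3011, o3556, l2835, l13838, l13839, l12207, l485, l483, l12246, l12178] l13841 := rupP (by decide +kernel)
theorem r13842 : PImp [l13581, l13680, l13579, l11364, l13786, l12123, l11453, l12135, o1152, l13657, l13748, o340, l1127, o5461, o5473, o5458, o8525, l12307, l5039, l12333, l12178, o297, l3725, o3548, o3549, l5035, o342, l13199, l2274, o8526, o8818, l2264, o5773] l13842 := rupP (by decide +kernel)
theorem r13843 : PImp [l13579, l13580, l5035, l3790, l2921, l5794] l13843 := rupP (by decide +kernel)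
theorem r13844 : PImp [l13579, l13680, l13580, l12135, l13840, l3000, l2995, l2994, l13734, l13795, o1115, l4967, o4409, l13791, l13748, l3011, l494, l3134, l490, l11364, l13841, l13842, l5038, l12333, l3725, l5035, l3740, l13843, l2746, l2744, l3807, l3806] l13844 := rupP (by decide +kernel)
theorem r13845 : PImp [l13680, l13579, l13840, l3000, l2995, l4967, o4409, l1145, l13844, l2725, l10349, l3740] l13845 := rupP (by decide +kernel)
theorem r13846 : PImp [l13580, l13579, l13828, l13758, l7495, l4967, l13835, o4409, l1145, l13840, l2994, l2998, l13845, l3213, l10356, l3216, l13645, l5794, o4888, l2905, l3745] l13846 := rupP (by decide +kernel)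
theorem r13847 : PImp [l13579, l13680, l5036, l5035, o807, l7495, l4967, l2996, l2998, l3000, l2707, l13809, l10356, l3725, o4409, o2393, l4170, l20, l1145, l4174, o5824, l10350, l13798, l3745, l11802] l13847 := rupP (by decide +kernel)
theorem r13848 : PImp [l13680, l13580, l13581, l5036, l13738, l13739, l2740, l3795, l3797, l878, o6795, o2755] l13848 := rupP (by decide +kernel)
theorem r13849 : PImp [l13581, l13579, l13680, l3216, l1145, l5036, l5035, l13748, l3011, l3012, o2792, l13701, o2755, l3723, o6519, o6795, l4106, l10336, o4543, l13592, l12331, l5039] l13849 := rupP (by decide +kernel)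
theorem r13850 : PImp [l13579, l13580, l3216, l1242, l1145, l404, l5036, l5035, l501, l4143, l495, l4771, l13788, o5159, l13848, l3745, l13849, l3792, l3795] l13850 := rupP (by decide +kernel)
theorem r13851 : PImp [l13580, l13680, l13579, l1242, l1145, l5036, l5035, l13850, o4884, o4888, l4139, l3757, l3745, l3723, l13700] l13851 := rupP (by decide +kernel)
theorem r13852 : PImp [l13580, l13680, l13579, l5035, o4884, l4139, l3723, l3756, l3725, l13700, l3744] l13852 := rupP (by decide +kernel)
theorem r13853 : PImp [l13579, l13680, l13581, l13580, l5036, l5035, l3744, l3725, l13703, l13470, l13695, l3758, o4354, o4310, o4313, l3762, o6707, o6795, l3797] l13853 := rupP (by decide +kernel)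
theorem r13854 : PImp [l13680, l13579, l13580, l5036, l5035, l13852, l4143, l13853, l3742, l3723, l6234, l13700] l13854 := rupP (by decide +kernel)
theorem r13855 : PImp [l13680, l13580, l13579, l13581, l2820, l5036, l5035, l13854, l13739, l11802, o4905, o4908, l4770, l6736, l3760, l3748, l13704, o6707, l4193, l13848] l13855 := rupP (by decide +kernel)
theorem r13856 : PImp [l13680, l13581, l13579, l5036, l5035, l1145, l3216, l13657, l13743, o1152, l2820, l13748, o3470, l13851, l1138, l13848, l3745, l404, l13700, l13704, l13705, l3723, o6519, l4168, o4870, l4172, l13849, l12304] l13856 := rupP (by decide +kernel)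
theorem r13857 : PImp [l13581, l13579, l13580, l13748, o3470, l2820, l5036, l5035, o1152, l13743, l13657, l4967, l1145, l13855, l3216, l13851, l1138, o4395, l13848, l5274, l3745, l13827, l3743, l13856, l3757, l3761] l13857 := rupP (by decide +kernel)
theorem r13858 : PImp [l13680, l13579, l13748, o3470, o3469, o3468, l13657, l11453, l12123, l13304, l13857, o4555, l1210, l4168, l13792, l11461, l12216, l12200] l13858 := rupP (by decide +kernel)
theorem r13859 : PImp [l13579, l13680, l3213, l3216, l5036, l5035, o4555, o4258, l1210, l4169, l878, l3724, l10320, o2764, l13590] l13859 := rupP (by decide +kernel)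
theorem r13860 : PImp [l13680, l13579, l13580, l3213, l3216, l5036, l5035, l4169, o4890, o4874, l3724, l3745, l3792, l13701] l13860 := rupP (by decide +kernel)
theorem r13861 : PImp [l13680, l13579, l13580, l2619, l4595, l7495, l4967, l13828, l13758, l13846, l5036, l5035, l13847, l13858, l3213, l3216, l13859, l1145, l13860, l4173, l13848, l3745, l3743, l3724, l13701, l3792, l3795] l13861 := rupP (by decide +kernel)
theorem r13862 : PImp [l13579, l11373, l5036, l7703, l10356, l13859, l1145, l13860, l4175, l2580, l3003, l5519, o6525, o6333] l13862 := rupP (by decide +kernel)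
theorem r13863 : PImp [l13580, l13680, l13579, l5036, l7703, l4967, l11373, l5035, l13771, l1145, l13858, l2994, l2995, l2996, l2998, l3000, l10349, l3725, l494, l4174, l10350, l3216, l4789, l10336] l13863 := rupP (by decide +kernel)
theorem r13864 : PImp [l5036, l7703, l4967, l13862, l13863, l1210, o4409, l7971, l1137] l13864 := rupP (by decide +kernel)
theorem r13865 : PImp [l1210, o4409, l7971, l1137] l13865 := rupP (by decide +kernel)
theorem r13866 : PImp [l13861, l13864, l4967, l11373, l13865, l13771, l1145, l13845, l1137, l2580, l3003, l5519, o6525, o6333] l13866 := rupP (by decide +kernel)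
theorem r13867 : PImp [l4655, l13211, l7495, l7646, o4576, o2924, o6333] l13867 := rupP (by decide +kernel)
theorem r13868 : PImp [l13867, l3003, l5519, o6525, o6333] l13868 := rupP (by decide +kernel)
theorem r13869 : PImp [l13579, l13580, l13861, l13864, l13867, l4967, l13866, l11373, l13865, l3213, l13771, l1145, l3216, l13868, l2580, l1137, l13840, l2994, l2998, l10356, l5794, l3807, l13738, l3745, l2905] l13869 := rupP (by decide +kernel)
theorem r13870 : PImp [l13580, l13579, l3213, l3216, l2994, l2998, l10356, l5794, l3807, l13738, l3745, l2905] l13870 := rupP (by decide +kernel)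
theorem r13871 : PImp [l13680, l13579, l13580, l1145, l13870, l3213, l3216, l13771, l4967, l11373, l1242, l13840, l5036, l13860, l5035, l4173, l3724, l13848, l3745, l13701, l3792, l3795] l13871 := rupP (by decide +kernel)
theorem r13872 : PImp [l1145, l13771, l4967, l11373, l13748, l3011, o4395, l5274, l13827, l12304, l12331, l12272, l5039, o312, o8355, o8566] l13872 := rupP (by decide +kernel)
theorem r13873 : PImp [l4967, l11373, l13771, l3318, l13872, l13871, l13863, l13845] l13873 := rupP (by decide +kernel)
theorem r13874 : PImp [l13748, l3318, l12200, o8566, l12216, o8355] l13874 := rupP (by decide +kernel)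
theorem r13875 : PImp [l4967, l11373, l13748, l13869, l12133, l2584, l2589, l2708, l13873, l1210, l13792, o312, l13874, l11371, l13760, o5730, o8611, o8566] l13875 := rupP (by decide +kernel)
theorem r13876 : PImp [l13793, l12200] l13876 := rupP (by decide +kernel)
theorem r13877 : PImp [l13680, l13579, l4967, l11373, l13748, l3010, l13863, l13845, l13824, l3000, l13807, l3725] l13877 := rupP (by decide +kernel)
theorem r13878 : PImp [l13579, l2820, l3213, l3216, l11373, l13836, l13829, l2823, l4140, l498] l13878 := rupP (by decide +kernel)
theorem r13879 : PImp [l13680, l13579, l13580, l4967, l11373, l3008, l13869, l13875, l3003, l2576, o6374, o4572, o4574, o6435, l13770, l1149, l13877, l3213, l13870, l13871, l3216, l1138, l13878, l5036, l13860, l13848, l5035, o5195, l3745, l3743, l3724, l13798, l13700, l3757] l13879 := rupP (by decide +kernel)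
theorem r13880 : PImp [l13879, l4967, l11373, l13748, l3011, l3008, l325, l13869, l424, l421, l1149, l3029, l7935, l13178, l2561, l13722, l11364, l5274, l3003, l2559, l12331, l12122, l11648, l12241, l13877, l390, l13871, l12255, l13827] l13880 := rupP (by decide +kernel)
theorem r13881 : PImp [l13579, l11373, l13748, l5269, l13801, o3467, l13859, l2822, o340, l9251, l13823] l13881 := rupP (by decide +kernel)
theorem r13882 : PImp [l13581, l13680, l13879, l4967, l11373, l13748, l3009, l3010, l3008, l13869, o1152, l13880, l418, l1218, o4572, l13178, l13792, o6478, l3006, l13712, o6731, l429, o4561, o4251, o4411, l13722, l13786, l11364, o4464, o5358, o4288, l12251, o5169, o5168, l13755, l12264, l12216, l12169, l390, l12249, l12152, l13881, l12123, l13683, l13821, o301, o3548, o8505] l13882 := rupP (by decide +kernel)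
theorem r13883 : PImp [l13869, l13879, l13882, l13760, l13781, l5274, l13178] l13883 := rupP (by decide +kernel)
theorem r13884 : PImp [l13883, l12292, l13720, l12271, l3318, l5112, l13790, l4655, o4490, l7495, l13869, l12133, l12267, l6233, l5038, l12274, l483, o5729, l12228, l485, l12245, l12238, l6334, l12225, o8403, o8804] l13884 := rupP (by decide +kernel)
theorem r13885 : PImp [l4655, l433, l429, l1254, l12292, l13720, l3933, l5112, l13790, o4490, l13742, o3111, o3109, l12157, l12162, l12274, o312, o5729, o8422] l13885 := rupP (by decide +kernel)
theorem r13886 : PImp [l13869, l12133, l13883, l4655, l12271, l12292, l7495, o4576, l3318, l13720, l13884, l2559, l2576, l8634, o6374, l13885, l2543, l6334] l13886 := rupP (by decide +kernel)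
theorem r13887 : PImp [l4655, l433, l429, l1254, l1138, l1242, o4576, l7495, l5112, l4598, l7509] l13887 := rupP (by decide +kernel)
theorem r13888 : PImp [l13680, l13579, l12292, l476, l4655, o4565, o5348, l7703, l5036, o4567, l1360, l12135, l4783, o8525, o3556] l13888 := rupP (by decide +kernel)
theorem r13889 : PImp [l13680, l13579, l4655, l433, l429, l1254, l1138, l1242, l7703, l3213, l13647, l4372, l3724] l13889 := rupP (by decide +kernel)
theorem r13890 : PImp [l13581, l13579, l13680, l7495, l13887, l2574, l4655, o4576, o6353, l12292, l13720, l3933, o1132, l433, l429, l1254, l5112, l13790, o4565, o5347, o5346, l476, o5350, o5828, l7703, l5036, o4570, o5394, o4490, l13745, l13744, l13742, l1360, o1153, l13743, o1160, o3111, o3109, l12157, l12162, l12274, o312, o5729, o8381, o8446, l13889, l12134, l12123, l13304, o2393, o2389, l8107, o3853, o3852, o3851, o3850, o8527, o8528, l7651, o8507, o8508, o766, o773] l13890 := rupP (by decide +kernel)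
theorem r13891 : PImp [l12292, l13720, l5112, l13790, l4655, o4490, o3749, l2542, l12269, l5038, l12274, l483, l2543, l6334, l12245] l13891 := rupP (by decide +kernel)
theorem r13892 : PImp [l12292, l13720, l12269, l12282] l13892 := rupP (by decide +kernel)
theorem r13893 : PImp [l13579, l13680, l5112, l13790, l4655, o4565, o5346, o4570, o4569, l7703, l1360, l13304, l12303, l7651, o3563, o3571, l4766, l4106, l3737] l13893 := rupP (by decide +kernel)
theorem r13894 : PImp [l13680, l13579, l13580, l7703, l5036, l4655, o4567, o4566, l5112, l3213, l4631, l13889, l2535] l13894 := rupP (by decide +kernel)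
theorem r13895 : PImp [l13581, l13680, o1152, l13743, l13886, l1360, l5112, l4655, l12292, l7703, l7495, l13790, l433, o4565, o4490, o4576, l476, l13720, l5036, l429, o5348, l1254, l13887, l13891, l13890, l4604, l6208, o6342, o3111, l12157, l12274, l483, l12228, l12245, l13892, l13894, l12135, l13893, o340, l13888, o8525, o8374] l13895 := rupP (by decide +kernel)
theorem r13896 : PImp [l13680, l13579, l13837, l3000, l13807, l3725] l13896 := rupP (by decide +kernel)
theorem r13897 : PImp [l13680, l13579, l4967, l11373, l13877, o4555, o4409, l13896, l5036, l13858, l5035, l3000, l3725] l13897 := rupP (by decide +kernel)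
theorem r13898 : PImp [l13680, l13579, l4967, l11373, l13863, l13858, o4555, l4170] l13898 := rupP (by decide +kernel)
theorem r13899 : PImp [l13581, l13579, l3216, o6726, l3744, l13739] l13899 := rupP (by decide +kernel)
theorem r13900 : PImp [l13581, l13680, l13579, l13580, l13807, l2998, l2996, l2995, l2993, l1138, l11373, l13748, l5269, o1160, o4555, o4557, o4558, l1210, o4574, l2725, l13792, l12152, l12255, o5169, l12200, l13899, l13590, l3785, l13737, l3744, l10323, l3759, l4141, o4899, l10914, l9715] l13900 := rupP (by decide +kernel)
theorem r13901 : PImp [l13579, l13895, l4967, l11373, l13748, l3011, l3008, o1153, l13886, l13897, l13898, l13845, l13834, l13805, l2995, l3000, l13807, o3556, l13900, l13733, l1145, o1116, l10349, o1548, l494, l3134, l490, l13722, l13842] l13901 := rupP (by decide +kernel)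
theorem r13902 : PImp [l13579, l13580, l3213, l3216, l10356, l13801, l10323, l13871] l13902 := rupP (by decide +kernel)
theorem r13903 : PImp [l13581, l13580, l13680, l13579, l2820, l3213, l3216, l11373, l13829, l2536, l2533, l5035, l495, o4907, o4892, l4767, l3792, l3724, l10320, l13701, l3745] l13903 := rupP (by decide +kernel)
theorem r13904 : PImp [l13680, l13579, l13580, l4967, l11373, l3213, l3216, l13902, l13903, l5036, l13859, l5035, l1145, l13871, l1138, l13848, l3745, l3743, l3724, l13701, l3795, l3792] l13904 := rupP (by decide +kernel)
theorem r13905 : PImp [l4967, l11373, l13748, l3011, l5038, l11270, l11800, l12333, o4484] l13905 := rupP (by decide +kernel)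
theorem r13906 : PImp [l13895, l4967, l11373, l13748, l13904, l13897, l13898, l13845, l13905, l13901, l390, l12207, l12251, l485, l480] l13906 := rupP (by decide +kernel)
theorem r13907 : PImp [l13581, l13580, l13579, l2998, l2995, l2994, o5826, o1160, l4170, l13807, l4108, l3781, l3744, l11386, l4106, l5794, l4593, o2393, l11211, l5848, l4141, l13147] l13907 := rupP (by decide +kernel)
theorem r13908 : PImp [l13579, l13680, l13886, l13906, l3935, l12271, l11371, l13287, l13757, l13758, l13759, l13760, l13761, l13762, l13763, l13764, l13765, l13770, l13771, l13774, l13778, l13780, l3933, l13904, l13793, l390, l12177, l1243, o4955, o4965, l11373, o4548, o4473, o4557, o1132, l13825, l3000, l13907, l13896, l3725, l5036, l5035] l13908 := rupP (by decide +kernel)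
theorem r13909 : PImp [l13680, l13579, l13896, l3725, l5036, l5035] l13909 := rupP (by decide +kernel)
theorem r13910 : PImp [l13581, o1160, l9159, o1132, l13147, o2393, l4083, l11237, l8367, l4608] l13910 := rupP (by decide +kernel)
theorem r13911 : PImp [l4967, o5099, l4597, o6561, l3003] l13911 := rupP (by decide +kernel)
theorem r13912 : PImp [l13779, l13776, l13775, l13766, o2501, l9718] l13912 := rupP (by decide +kernel)
theorem r13913 : PImp [l13757, l390, l13758, l1243, l1138, l13765, l3935, l3933, o853, l11371, l11270, l4504, l9065, o2652, l13772, l3303, l13912, l3075, l4029, l4025] l13913 := rupP (by decide +kernel)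
theorem r13914 : PImp [l13758, l1243, l1138, l13781, l13778, l13772, l13766, l13765, l5034, l13913, l9759, l7120, o2449, l5022, l4049] l13914 := rupP (by decide +kernel)
theorem r13915 : PImp [l13764, l13761, l8757, l5847] l13915 := rupP (by decide +kernel)
theorem r13916 : PImp [l13779, l13776, l13764, l13761, l5269, l3008, l325, l13914, l13915, l3308, l3303, l9397, o4076, o3907, l8758, l9342] l13916 := rupP (by decide +kernel)
theorem r13917 : PImp [l5034, l4763, o2449, l8118, l5841, l4760, o3895] l13917 := rupP (by decide +kernel)
theorem r13918 : PImp [l3008, l325, o2488, o2501, l9578] l13918 := rupP (by decide +kernel)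
theorem r13919 : PImp [l3075, l5672, l3303, l9734, l4552] l13919 := rupP (by decide +kernel)
theorem r13920 : PImp [l13919, l13610, l13918] l13920 := rupP (by decide +kernel)
theorem r13921 : PImp [l4967, l11373, l3008, l4763, l13920, l5034, l4504, l13917, l4526, o752, o2442, o2492, o2501, o2569, l9659, l4700, l4759, o5094, o3888, l6061, o6192, o1647] l13921 := rupP (by decide +kernel)
theorem r13922 : PImp [l3008, l325, o2488, o2501, l9759, l13799, l9713, l5745] l13922 := rupP (by decide +kernel)
theorem r13923 : PImp [l4504, o117, l13922, l3075, o2449, l8686, l4025, l6465, o3900, l2779, l6059] l13923 := rupP (by decide +kernel)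
theorem r13924 : PImp [l13581, l13580, l13579, l13680, l4967, l11373, l13904, l13758, l13825, l13767, l13908, l3000, l1243, l13780, l13909, l4170, l13807, l3733, l5269, l13760, l3008, l325, o5099, l13778, l11371, l13748, l12197, l3935, l3933, l13757, l390, l13759, l13770, o4473, l13771, o4557, l1138, l2995, l13774, o4955, l3781, o4965, l2998, l3744, l13761, l2994, l5794, l4593, l4141, l2730, o5511, l13910, l13911, l5661, l2707, o6701, o312, o358, o2393, o4548, l4108, l4113, l4106, o305, l2725, l2726, l1137, l5274, l11270, l13781, l13779, l13777, l13776, l13775, l13772, l13768, l13766, l13765, l13764, o8906, o9147, l13921, o876, l13916, l13923, l13915, l3308, l9755, l7793, l8471, o4065, l9342] l13924 := rupP (by decide +kernel)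
theorem r13925 : PImp [l13581, l13580, l13579, l13680, l13908, l13904, l3008, l325, l4967, l5269, o5099, l13778, l11371, l11373, l13748, l13767, l12197, l3935, l3933, l13757, l390, l13758, l13825, l13759, l13770, o4473, l13771, o4557, l1243, l1138, l13780, l3000, l13909, l4170, l13807, l2995, l13774, o4955, l3781, o4965, l2998, l3744, l13761, l2994, l5794, l13760, l4593, l4141, l2730, o5511, l13910, l3733, o2393, l13911, o358, l5661, l13924, l10912] l13925 := rupP (by decide +kernel)
theorem r13926 : PImp [l13680, l13581, l13580, l13579, l4967, l11373, l13748, l13908, o5099, l5269, l3008, l325, l13904, l3935, l11371, l13757, l13758, l13759, l13760, l13761, l13767, l13770, l13771, l13774, l13775, l13778, l13780, l12197, l3933, l390, l1243, l13825, o4955, o4965, o4548, o4473, o4557, l1138, l2994, l2995, l2998, l3000, l13909, l4170, l2726, l13807, l4108, l3733, l3781, l3744, l4113, l5794, l2730, l4593, l4141, o5511, l13910, l13925, l10372, o1975, l6124, l11376, l8633] l13926 := rupP (by decide +kernel)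
theorem r13927 : PImp [l10372, o1975, l6124, l11376, l8633] l13927 := rupP (by decide +kernel)
theorem r13928 : PImp [l13581, l13580, l13579, l13680, l4967, l11373, l13926, l13904, l13897, l13898, l13845, l5274, o4543, o5197, o4395, l1210, l13792, l13834, l13807, l12134, l4108, l4106, l13686, l13748, o2880, l12200, l2998, l2995, l2993, l11364, l13899, l3785, l13737, l3744, l13278, l4141, l4593, l13908, l2730, o5511, o4535, l4113, o5196, l2726, l3000, l3733, l1138, l5269, l13927, o2393, l13911, o358, l5661, l2707, l10912, o9147] l13928 := rupP (by decide +kernel)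
theorem r13929 : PImp [l13680, l13579, l13581, l13580, l13904, l4967, l11373, l13926, l13897, l13898, l13845, l13834, l2998, l2995, l2993, l1138, l13807, l13905, l13748, o2880, l12134, l5269, l13908, l5274, o4543, o4395, o5197, l4108, l1210, l4106, l13792, l13686, l12200, l11364, l13899, l2730, l3785, o5511, l13737, l3744, l13278, l4141, l13928, o1160, l9159, l10908] l13929 := rupP (by decide +kernel)
theorem r13930 : PImp [l13581, l13580, l13579, l13792, o2393, o1160, l11373, l13748, o5099, l325, l13590, l3785, l3794, l1149, o4520, o4987, o4892, l4141, l4139, o5496, l13181, l12201, l11237] l13930 := rupP (by decide +kernel)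
theorem r13931 : PImp [l13680, l13579, l13930, l3216, l3781, l10350, l3784] l13931 := rupP (by decide +kernel)
theorem r13932 : PImp [l13579, l13580, l13680, l3781, l13899, l3806, l2746, l2744] l13932 := rupP (by decide +kernel)
theorem r13933 : PImp [l13580, l13579, l2998, l2996, l2995, l2994, l2993, l3008, l13931, l13932, l13590, l3785, l1145, l13737, l10323, l3744] l13933 := rupP (by decide +kernel)
theorem r13934 : PImp [l13579, l13904, l4967, l11373, l13926, l13897, l13898, l13845, l13834, l3000, l2995, l13807, l13905, o340, o1153, l13748, l3011, l12135, l13736, l1210, l13710, o1116, l13804, l10349, o1548, l13823, l494, l3134, l490, l13722, l13842] l13934 := rupP (by decide +kernel)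
theorem r13935 : PImp [l13680, l13579, l13590, l7736, l3216, l13932, l7749, l10350] l13935 := rupP (by decide +kernel)
theorem r13936 : PImp [l13581, l13680, l13579, l13580, l13792, l2998, l2996, l2995, l2994, l2993, l11373, l13748, o2880, l12134, o5099, o1160, l13933, l9932, l4602, l4083, l2707, l13935, l5272, l1145, o4543, o4555, o4557, l4108, l2726, l4106, l13686, l12201, l11364, l13899, l3785, o1975, l13737, l11376, l3744, o5015, l13278, l3759] l13936 := rupP (by decide +kernel)
theorem r13937 : PImp [l4597, l2539] l13937 := rupP (by decide +kernel)
theorem r13938 : PImp [l13680, l13580, l13579, l13908, l4967, l13904, l13926, l13897, l13898, l11373, l13845, l13834, l13807, l1138, l13934, l13929, l13936, l13792, l3000, l3733, l2998, l2996, l2995, l2993, l13748, o2880, l12134, o5099, l5269, l5272, l1145, o4543, o4555, o4557, l4108, l2726, l4106, l4113, l13686, l12201, l11364, l13899, l3785, l13737, l3744, l13278, l3759, l4141, o4899, o4901, o5015, o4551, l13927, o2393, l10173, l13937, o358, l5661, o9147, l2707] l13938 := rupP (by decide +kernel)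
theorem r13939 : PImp [l13680, l13579, l3216, l3781, l13932, l10350, l3784] l13939 := rupP (by decide +kernel)
theorem r13940 : PImp [l13579, l4967, l13904, l11373, l13926, l13897, l13898, l13845, l13834, l13807, l2993, l2994, l2995, l2996, l2998, l13934, l13939, l13590, l3785, l13938, l3787] l13940 := rupP (by decide +kernel)
theorem r13941 : PImp [l13680, l13894, l13304, l4655, o4569, l12292, o5380, l12271, l13743, l1360, l7651, l12278, o3555, o3563, l12269, l13892, l5038, l12244, l12245] l13941 := rupP (by decide +kernel)
theorem r13942 : PImp [l13581, l13680, l13894, l12135, l7703, l5036, l4655, o4567, l12292, o5362, l12271, o1152, l1360, l12269, o340, o3556, o8525] l13942 := rupP (by decide +kernel)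
theorem r13943 : PImp [l13680, l13579, l13580, l13894, l13304, l7703, l5036, l4655, o4569, l12292, o5380, l12271, l13743, o4566, l5112, l1360, l4593, l13942, l5038, l12302, l12281, l5039, l7651, l13941, o3178, l4766, l3774, l3775] l13943 := rupP (by decide +kernel)
theorem r13944 : PImp [l13579, l13680, l13940, l4655, l7703, l13894, o4567, o4570, l5036, l13943, l2820, l2896, l4783, l404, l3737, l4106, l3723] l13944 := rupP (by decide +kernel)
theorem r13945 : PImp [l13680, l13579, l7703, l5036, l4655, o4567, l13894, l2820, l2896, l4783, l404, l3737, l4106, l3723] l13945 := rupP (by decide +kernel)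
theorem r13946 : PImp [l13680, l13579, l4655, o4569, l13894, l7703, l404, l2895, l4766, l3737, l4106, l3723] l13946 := rupP (by decide +kernel)
theorem r13947 : PImp [l13581, l13580, l13680, l13579, l13718, l13946, l5112, l7703, l5036, l4655, o4566, l13945, l4593, o4565, l2730, l13894, l13304, l12134, o4567, l12292, o5367, o4569, o5380, l1360, l13782, o1153, l13743, l13794, l5793, o4354, o4310, o6594, o6726, l3777, o2909, l13699, o3213, o3115, l3737, o305, l4108, l3723, o8354, l7651, o3821] l13947 := rupP (by decide +kernel)
theorem r13948 : PImp [l13579, l13680, l13581, l13947, l1089, l4655, o4565, l5112, l7703, l5036, l13718, l13945, l2730, l13894, l13304, l12134, o4567, l12292, o5367, o4569, o5380, l1360, l13782, o1153, l13743, o2789, l3723, l4106, l3780, l4108, l2746, o4309, l7651, o6594, o3164, o3084, o8354, o8379] l13948 := rupP (by decide +kernel)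

end Pool.Agent.BDD.A
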