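import Pool.Agent.BDD.AC
import Pool.Agent.BDD.AE0
import Pool.Agent.BDD.AE1
import Pool.Agent.BDD.AE2
import Pool.Agent.BDD.AD0
import Pool.Agent.BDD.AD1
import Pool.Agent.BDD.AD2
import Pool.Agent.BDD.AD3
import Pool.Agent.BDD.AD4

set_option autoImplicit false
set_option linter.all false

namespace Pool.Agent.BDD.A

theorem r13949 : PImp [l13680, l13579, l4655, l433, l426, l13947, l4971, l13894, l13718, l13948, o3139, l3725, l4108] l13949 := rupP (by decide +kernel)
theorem r13950 : PImp [l13580, l13680, l13579, l13718, l1360, l5112, l4655, l7703, l13894, o4566, l5036, l13945, l4593, l13947, l1089, l13949, l3740, o2790, l3754, l3211] l13950 := rupP (by decide +kernel)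
theorem r13951 : PImp [l13680, l13579, l13581, l13944, l13950, l4967, l3007, l2767, l11373, l878, o4411, l13713, l5035, l3737, l5036, l3740, o2764, o2762, l13807, l13843, l13829, o4896, l3143] l13951 := rupP (by decide +kernel)
theorem r13952 : PImp [l13579, l13951, l13944, l13950, l4967, l11373, l13748, l2992, l13713, l13794, l13782, l13718, l13905, l4108, l12183, l4106, o4726, l12216] l13952 := rupP (by decide +kernel)
theorem r13953 : PImp [l13680, l13579, l13944, l13950, l13718, l13951, l13952, l3725, l3002, l3723, l4106] l13953 := rupP (by decide +kernel)
theorem r13954 : PImp [l13944, l13950, l4967, l3007, l11373, l429, o4411, l13953, l13801, l13903, l13859] l13954 := rupP (by decide +kernel)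
theorem r13955 : PImp [l13954, l13756] l13955 := rupP (by decide +kernel)
theorem r13956 : PImp [l13955, l13657] l13956 := rupP (by decide +kernel)
theorem r13957 : PImp [l13955, l13743] l13957 := rupP (by decide +kernel)
theorem r13958 : PImp [l13955, l13579, o1153] l13958 := rupP (by decide +kernel)
theorem r13959 : PImp [l13955, l13581, o1152] l13959 := rupP (by decide +kernel)
theorem r13960 : PImp [l13680, l13579, l3213, l3216, l3000, l3002, l3724, l1242, l4107, l1138, o4570, o4558, l11373, l13903, l1145, l13848, l3745, l3743] l13960 := rupP (by decide +kernel)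
theorem r13961 : PImp [l13680, l13954, l13579, l503, o4570, l13645, l13798, l11373, l11802, l7840, l3745, o2776] l13961 := rupP (by decide +kernel)
theorem r13962 : PImp [l13579, l13680, l10336, l13590] l13962 := rupP (by decide +kernel)
theorem r13963 : PImp [o2764, o2762, l13962] l13963 := rupP (by decide +kernel)
theorem r13964 : PImp [l13579, l13680, l13954, l13580, l13581, l3213, l3216, l13960, l3726, l13870, l2820, l404, l13961, l4107, l13963, l1021, l7840, l11373, l433, o4565, l13500, l429, l2534, l1210, l13590, l13697, l13698, l3792, o4308, l3795, o6644] l13964 := rupP (by decide +kernel)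
theorem r13965 : PImp [l13680, l13954, l13579, l3213, l13964, l5035, l4637, l13645, l2897, l2816, l4657] l13965 := rupP (by decide +kernel)
theorem r13966 : PImp [l13579, l13580, l13954, l13965, l13645, l2722, l2819, l13644] l13966 := rupP (by decide +kernel)
theorem r13967 : PImp [l13579, l13580, l5035, o2776, o2762, l3755, l13738, l3212, l3807, l3806] l13967 := rupP (by decide +kernel)
theorem r13968 : PImp [l13581, l13954, l13680, l13579, l13580, l7840, l11373, o4565, l5035, l5036, o4566, l2727, l2534, o2792, l3755, l13738, l3212, l3806] l13968 := rupP (by decide +kernel)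
theorem r13969 : PImp [l13580, l13581, l5036, o4308, l3804, o6594] l13969 := rupP (by decide +kernel)
theorem r13970 : PImp [l13579, l13680, l13581, l13954, l13580, l5035, l5036, l13965, l3740, l13966, l13967, l1021, l7840, l11373, l433, o4565, o4566, l2727, l2534, l13968, o2783, l13969, l4969, l3803] l13970 := rupP (by decide +kernel)
theorem r13971 : PImp [l13579, l8837, l13746, l3790, l3789] l13971 := rupP (by decide +kernel)
theorem r13972 : PImp [l13680, l13580, l13746, l2746, l2744, o4309, l1267, l3804, l3806, l5785] l13972 := rupP (by decide +kernel)
theorem r13973 : PImp [l13680, l13954, l13579, l13580, l13581, l13965, l5035, l5036, l13970, l3000, l3002, l3737, l4969, l13713, l4765, l433, o4543, l11373, l13829, l5268, l7840, l13971, l13972, l3789, l2916, l13706, l3805, l10252, l2747, o4308, o6726] l13973 := rupP (by decide +kernel)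
theorem r13974 : PImp [l13680, l13579, l13955, l13958, l13956, l13959, l13720, l13733, o1116, o1548, l3011, l1146, l1145, l13973, l13965, l12123, l11453, l12135, l12134, l3723, l4106, l3742, o4543, l4109, o3236, l3744, l5274, l12331, l13615, l5039, l12241, o5493, o305, l390, l12151, o8354, o340, l13714, l13715, l8387] l13974 := rupP (by decide +kernel)
theorem r13975 : PImp [l13954, l13680, l13579, l2820, l404, l3216, l5036, l13973, l13965, l12135, l4969, l13713, l4783, l433, l13972, o4555, l11373, l13737, l13748, l7840, o3480, o3467, o3469, l13818, l13974, l3725, o2776, l3744] l13975 := rupP (by decide +kernel)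
theorem r13976 : PImp [o2776, o2759, o2764, o2774, o2762, l13939] l13976 := rupP (by decide +kernel)
theorem r13977 : PImp [l13958, l12123, l12134, o5364, o5367, l35, o8508, o3820] l13977 := rupP (by decide +kernel)
theorem r13978 : PImp [l13581, l12135, o3214, o6594, l13977, l11270, l13562, o340, o3467, l13823] l13978 := rupP (by decide +kernel)
theorem r13979 : PImp [l13680, l13954, l13579, l13973, l5036, l13965, l3725, l13976, l7840, l11373, l433, l429, l1209, l2820, l404, o4570, l4106, o4567, l13975, l13794, o305, l3216, l3744, l13739, l13978, l1770, l13932, o2785] l13979 := rupP (by decide +kernel)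
theorem r13980 : PImp [l13680, l13579, l13954, l13580, l13975, l5036, l13973, l13965, l3725, l13976, l1021, l13979, l13702, l13701, l3803, l13969] l13980 := rupP (by decide +kernel)
theorem r13981 : PImp [l13579, l13955, l13958, l13680, l3216, l5036, l13973, l13965, l12123, l12134, l2820, l404, l13975, l13794, o305, l13980, l3723, l13728, l4106, o1116, l13718, l13719, o4570, o4558, l4109, o1548, l11373, l13748, o3480, o3467, o3469, l13876, o8354, l13615, l13974, o4833, o4961] l13981 := rupP (by decide +kernel)
theorem r13982 : PImp [l13680, l13579, l5036, l13973, l13965, l13981, l2993, l2994, l2995, l2998, l3000, l13932, l3725] l13982 := rupP (by decide +kernel)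
theorem r13983 : PImp [l13579, l13580, l13982, l13973, l2994, l2995, l2998, l3807, l13962, l13738, l1145, l3744, l10323] l13983 := rupP (by decide +kernel)
theorem r13984 : PImp [l13581, l13680, l13954, l2534, o4565, l2533, l11373] l13984 := rupP (by decide +kernel)
theorem r13985 : PImp [l13680, l13579, l13973, l13965, l5036, l13982, l13984, l3000, l13983, l3725] l13985 := rupP (by decide +kernel)
theorem r13986 : PImp [l13956, l13958, o1573, o1587] l13986 := rupP (by decide +kernel)
theorem r13987 : PImp [l13986, l13957, l13717] l13987 := rupP (by decide +kernel)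
theorem r13988 : PImp [l5269, l13985, l13965, o358, l7741, l13865, o2393, l2588, o5514, l10173, o9147, l2707] l13988 := rupP (by decide +kernel)
theorem r13989 : PImp [l13579, l13680, l13954, l11373, l7840, l5269, l13710, l5272, l13965, l13973, l3723, l3725, l13794, o305, o876, l7862, l13923] l13989 := rupP (by decide +kernel)
theorem r13990 : PImp [l13579, l13680, l13955, l13954, l4082, l3318, l11373, l7840, l5269, l13710, l1145, l13973, l13965, l3723, l3733, l3725, l13985, o5405, o5099, o5514, l13927, o8779, o6690, o8839, l13989, l11243, l13920] l13990 := rupP (by decide +kernel)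
theorem r13991 : PImp [l13579, l13680, l13955, l11373, l1145, l5272, l13794, l12195, l480, l485, l12318, l12248, l12202, l11364, l13965, l13973, l3723, l3725, l3008, l325, l13988, l4083, l6097, l2708, l2707, l13990, o5823, l5555] l13991 := rupP (by decide +kernel)
theorem r13992 : PImp [l13955, o4409, l13973, l13965, l13936, o5823, l13900] l13992 := rupP (by decide +kernel)
theorem r13993 : PImp [l13973, l13965, o5823, l5555] l13993 := rupP (by decide +kernel)
theorem r13994 : PImp [l13579, l13680, l13954, l7840, l13973, l13965, l3733, l3725, l11243, l13920] l13994 := rupP (by decide +kernel)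
theorem r13995 : PImp [l13955, l13579, l13680, l13954, l13965, l13973, l3723, l3725, l13794, l12195, l480, l485, l12318, l1145, l13710, l13992, l12248, l11373, o4251, o4250, l11364, l12202, l13988, l3008, l325, l5272, l4083, l6097, l2707, l13993, o5405, l2708, l4082, l3318, o8779, o8839, l13994, o876, l3736, l5269, l3733, o5514, l13985, l13927, o5099, o6690, l7840, o305, l13991, l7862, l4504, o117, l13922, l3075, l9961, l3308, l4054, o1647, o3888, o3907, o6166, l4030, o2562, o2568, o1748, o6251, l9184, o5815] l13995 := rupP (by decide +kernel)
theorem r13996 : PImp [l13579, l13680, l13955, l13954, o4251, l5269, l11373, l13710, l1145, l5272, l13794, l12195, l480, l485, l12318, l12202, l11364, l13973, l13965, l3723, l3733, l3725, l13985, l3008, l325, l13992, l13988, l4083, l6097, l2707, l13993, o5099, o5514, l13927, o6690, l13995, o6543] l13996 := rupP (by decide +kernel)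
theorem r13997 : PImp [o358, l5661, l2707, l10912, o9147] l13997 := rupP (by decide +kernel)
theorem r13998 : PImp [l13579, l13680, l13954, l13965, l2726, l13985, l13973, o5818, o5826, l13927, o2393, l13997, o6690, o6561] l13998 := rupP (by decide +kernel)
theorem r13999 : PImp [l13680, l13579, l5269, l11373, l13965, l13973, l3723, l3725, l4170, l2726, l2725, l13985, l4141, l3733, l13998, o5514, l13800, l8635] l13999 := rupP (by decide +kernel)
theorem r14000 : PImp [l13955, l13579, l13680, l13581, l13580, o4354, l13710, l1145, l5272, l13965, l13973, l3723, l3725, l4170, l2726, l2725, l13985, l4141, l13794, l12195, l11364, l11373, l5269, o4899, o4892, o4251, o4901, o4708, l4775, l4771, l13996, l13999, o1160, l9715, l13800, o5514, l10908] l14000 := rupP (by decide +kernel)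
theorem r14001 : PImp [l13579, l13680, l13581, l13958, l13954, l13955, l13730, o853, o929, o4565, l2730, l4794, l433, l4968, l4966, l1244, l5272, l13985, l13965, l13973, l3723, l3725, l4141, l13794, o305, l3008, l325, l10804, l5034, l4504, l10756, l12323, o116, o2560, o2492, l4055, o2450, l12805, l3303, o3952, o3907, o1609, o1748, l3986, l4031, o1616, l3085, o6250, l13690, o4032, l4746] l14001 := rupP (by decide +kernel)
theorem r14002 : PImp [l13954, l13958, l13691, l10974] l14002 := rupP (by decide +kernel)
theorem r14003 : PImp [l13579, l13680, l13581, l13730, o4565, l2730, l4794, l1244, o4354, o4310, l13710, l3008, l1149, l5272, l13973, o352, l13965, l3723, l3725, l13985, l14001, l14002] l14003 := rupP (by decide +kernel)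
theorem r14004 : PImp [l13579, l13680, l13954, l4966, l13710, l1145, l5272, l13965, l13973, l3725, l13794, o305, l3008, l10974, l10994, l5034, l4504, l7115, o116, l3303, l9961, o1748, o2560, o2492, l4055, o2450, l12805, o3952, o1609, l3986, o1616, l4751, o6250, o4032] l14004 := rupP (by decide +kernel)
theorem r14005 : PImp [l3303, l5034, o2560, o2492, l4055, o2450, l12805, o3952, o3907, o4028, o1609, l3986, l4031, o1616, o818, o2424, o6250, o3886, o4032, o6165, l4746, o5936] l14005 := rupP (by decide +kernel)
theorem r14006 : PImp [l13956, l13955, l13579, l13680, l13581, l13580, l13958, l13954, l13973, l13965, l3723, l3733, l3725, l13794, o305, l13985, l11453, l12134, l3008, l325, l13783, o4841, l13714, o3054, l13749, o8508, o9162, l13702, l13698, l1770, l13699, l2992, l3012, o3469, l12195, l13707, l12222, l480, l11364, l12202, o5448, o5478, o5465, o8817, l12179, l485, l4170, l4141, o8799, o8917, l12318, l12248, l2725, l2726, l13939, l10350, l13962, l3759, l5272, l1145, l13710, l3794, o4354, o4948, l3785, o4322, o4799, l1244, l14000, o4565, o4568, l4966, o4496, l4794, l2730, l4779, l4767, l13730, l13692, o853, o929,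 l14003, l14004, l10804, l4504, l7115, o116, l3303, o1748, l14005, o2460, l4057, l4025, l2779] l14006 := rupP (by decide +kernel)
theorem r14007 : PImp [l13580, l13680, l13579, l13958, l2998, l2996, l2995, l2994, l2993, l13965, l13973, l3723, l3725, l13985, l13304, l12134, o351, l13939, o799, l13962, l1145, l3794, o4557, o5001, l4141, o5805, l4558, o3573, o8508, l1594, o3822] l14007 := rupP (by decide +kernel)
theorem r14008 : PImp [l13680, l13579, l13956, l13955, l13965, l13973, l3723, l3725, o305, l11453, l14007, l4170, o300, o5451, o8504, l12195, o3542] l14008 := rupP (by decide +kernel)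
theorem r14009 : PImp [l13579, l13680, l13958, l13955, l13956, l13959, l13965, l13973, l3723, l3725, l13794, o305, l13985, l11453, l12135, l12134, l3008, l14006, l14008, l2820, o3469, l4143, l13562, l13748, l13749, l13750, l13751, l13752, o5382, l13089, l13056, o4840, o4691, o4710, l12963, o8508, o5463, l12997, l1218, l13707, l13708, o297, l13682, o8504, o8525, o759] l14009 := rupP (by decide +kernel)
theorem r14010 : PImp [l13680, l13954, l13955, l13579, l13973, l13965, l3723, l1209, l13709, l429, l433, l11373, l13748, l7840, l12195, o2764, o5451, l10349] l14010 := rupP (by decide +kernel)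
theorem r14011 : PImp [l13680, l13579, l1146, o4555, l13711, l13973, l13965, l3012, l3011, o3469, o3078, o3090, o3072, o3069, o3082, l4170, l13939, l3785, l3787] l14011 := rupP (by decide +kernel)
theorem r14012 : PImp [l13955, l13680, l13579, l13965, l13973, l3723, l3725, l13794, o305, l13985, l1146, l13711, o4555, l14011, l13562, l13587, l13977, o3228, o3232, l10350, l3752, l3749] l14012 := rupP (by decide +kernel)
theorem r14013 : PImp [l13956, l13973, l13965, l11453, l13562, o3538, o5363, o8504, o300, l13984, l13939] l14013 := rupP (by decide +kernel)
theorem r14014 : PImp [l13955, l12195, l13876] l14014 := rupP (by decide +kernel)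
theorem r14015 : PImp [l13579, l13680, l13958, l13965, l13973, l3723, l3725, l13794, o305, l12134, l14010, l14012, l14009, l14014, l13562, l13748, l13749, l13089, o4845, o5463, o8508, l13977, l13707, o3219, o3220, o3226, o3228, o3232, l14013] l14015 := rupP (by decide +kernel)
theorem r14016 : PImp [l13955, l13986, l12258, l12213, l4438, o8800, o776] l14016 := rupP (by decide +kernel)
theorem r14017 : PImp [l13579, l13955, l13680, l13965, l13973, l3723, l3725, l13794, o305, l12123, l14015, o4842, o4831, l13749, l2992, l3011, l12195, l14014, l12222, l480, l11364, l14016, o3497, l12257, l4108, l13556, o4543, l5272] l14017 := rupP (by decide +kernel)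
theorem r14018 : PImp [l13957, l1594, o8377] l14018 := rupP (by decide +kernel)
theorem r14019 : PImp [l13987, l13797, o5760, o8814, o8659, o2346] l14019 := rupP (by decide +kernel)
theorem r14020 : PImp [l13986, o8376, l34] l14020 := rupP (by decide +kernel)
theorem r14021 : PImp [l13680, l13986, l13955, l13958, l13579, l13957, l13965, l13973, l3723, l3725, l13794, o305, l13985, l13304, l12123, l12135, l12134, l14017, l14020, o4842, o8681, l13749, o8657, l12195, l480, l13796, l11364, l485, l2275, l12318, o3572, o3464, o3491, l2323, o8660, o5465, o5769, o5770, l4141, l14019, o3478, l1594, o8377] l14021 := rupP (by decide +kernel)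
theorem r14022 : PImp [l13680, l13955, o3203, l14020, o4842, o5364, l12183, l11270] l14022 := rupP (by decide +kernel)
theorem r14023 : PImp [o5400, o5364, l14016, l11270] l14023 := rupP (by decide +kernel)
theorem r14024 : PImp [l13579, l13680, l13958, l13965, l12123, l13973, l13794, o305, l14021, l13718, l3007, o4561, l3723, l14022, l3725, l4108, o3497, l14023, l13985, o4563, l4141, l13304, l12134, o5754, o5755, l14018, o8508, l644, o3478, o3192, o3196, o3201, o3095, o3099, o3074, o3077, o3068, l14013] l14024 := rupP (by decide +kernel)
theorem r14025 : PImp [l13579, l13680, l13955, l13965, l12123, l13973, o305, l13718, l3007, o4561, l3723, l3725, l4108, o3497, l14023, o3469, l12195, l14008, l11270, o4841, l12183] l14025 := rupP (by decide +kernel)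
theorem r14026 : PImp [l13579, l13680, l13955, l13965, l13973, l3723, l3725, l12134, l13686, l13056, o5333] l14026 := rupP (by decide +kernel)
theorem r14027 : PImp [l13579, l13680, l13794, l13973, l13965, l12123, l3723, l14021, l3007, l429, o4561, o4563, l1210, l14022, l14024, l14026, l13562, l13727, l14025] l14027 := rupP (by decide +kernel)
theorem r14028 : PImp [l13680, l13579, l13985, l13973, l13965, l4139, l3001, l4141, l3725] l14028 := rupP (by decide +kernel)
theorem r14029 : PImp [l13954, l13680, l13579, l13581, o4569, l11373, l13748, l3011, l3012, l2992, l7840, l501, l495, l490, o4557, l1145, l13985, l13973, l13965, o3469, o3106, o3090, o3082, l3725, l13963, l3216, l13976, l10350, l4194] l14029 := rupP (by decide +kernel)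
theorem r14030 : PImp [l13954, l13680, l13579, l13581, o4569, l11373, l7840, l501, l495, l490, o4557, l1145, l13985, l13973, l13965, l3725, l13963, o2776, o2774, l3216, l13976, l10350, l13855, l4194] l14030 := rupP (by decide +kernel)
theorem r14031 : PImp [l13579, l13958, l13680, l13986, l13956, l13955, l13985, l13973, l13965, l12123, l11453, l12134, l13794, o305, l14027, l14028, o4569, o4563, o4557, l11373, l3007, l1145, l1146, l13748, l2992, l3011, l14029, l14030, l3001, l3002, o3108, o3107, l4143, l4106, o8354, l13723, l13615, o4543, o4833, l13714, l12218, o5481, l5274, l12241, l7680, l12249] l14031 := rupP (by decide +kernel)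
theorem r14032 : PImp [l13579, l13680, l13955, l13986, l13956, l13958, l14031, l4969, l433, l11373, l13748, l3011, l2992, l13713, l13985, l13973, l13965, l12123, l11453, l12134, l14028, o4557, l14029, l14030, l1145, l1146, l3001, l3002, o3108, o3107, l4143, l4106, l13876, l13615, o4543, o5481, l12331, l12244, l5039, l12249, o305, l7680, o8354, l13714] l14032 := rupP (by decide +kernel)
theorem r14033 : PImp [l13581, l13955, l13957, l13987, l13579, l13680, l13954, l13580, l14031, l4969, l433, l11373, l7840, l13973, l13965, l14032, l3723, o2776, l3725, l14030, o4894, l3744, o2774, l13985, l3745, l3759, l13748, l4141, o3479, l13710, l13792, l14014, l13304, o1970, o2381, o3478, l13713, l3008, l4971, o2762, o2764, o4867, l3781, l3794, o4865, l12195, o5462, o8682, o2759, l5272, o4255, o4308, o6795, o352, l2299, o8659, o4957, o4938, l3009, l3011, l12158, l12191] l14033 := rupP (by decide +kernel)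
theorem r14034 : PImp [l13954, o8380, o8779] l14034 := rupP (by decide +kernel)
theorem r14035 : PImp [l13581, l13958, l13580, l13954, l13579, l13680, l13955, l14031, l4969, l433, l11373, l13748, l14032, l13973, l13965, l3723, l14030, o4894, l7840, o2776, l3725, l3744, l3745, l13710, l13792, l12195, l14033, l12237, l13713, l11270, l480, l485, l12207, l3008, l4971, o2762, l13985, o2764, o4867, l3781, l3794, o4865, l12134, o305, l4141, o3480, l14014, o8660, o5454, o2759, l5272, o4255, o4308, o6795, l13984, l1145, o4555, l2726, l12202, l11364, o4405, l1138, o4892, l13709, l3752, l503, l13712, l325, l13992, l3318, l13988, l4082, l4083, l6097, l2708, l2707, l13993, o5405, l14034] l14035 := rupP (by decide +kernel)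
theorem r14036 : PImp [l13955, l13581, l13680, l13954, l13579, l13580, l14035, l13973, l14031, l4969, l433, l11373, l7840, l13965, l14032, l3723, o2764, l3725, l3008, l4971, l14030, o4867, l3781, o2759, o4894, o2776, l3744, l3745, l13710, l5272, o4255, o2762, l13985, l3794, o4308, o6795, l13984, o4881, l13748, l13792, l12195, o5446, l11364, l11270, l14014, l1145, o4405, l1138, o4555, l3752, l4141, l4149, l3733, l5269, l13713, o5730, o5811, l13998, l11214, l10908] l14036 := rupP (by decide +kernel)
theorem r14037 : PImp [l13954, l13580, l13680, l13581, l13958, l13579, l13957, l13987, l13955, l3008, l13965, l12134, l13304, l13973, l13985, l14031, l4969, l13712, l13713, l4971, l433, l11373, l13748, l7840, l14032, l3723, l3725, o2776, o2759, o2764, o2774, o2762, l14030, l4141, o4894, o4867, o3480, o3478, o3479, l3744, l3781, o1970, l3745, o2381, l5272, l1145, l13709, l13710, l3794, l3759, o4255, o4555, o4405, l13792, o4308, o4987, o4865, o4892, l1137, l1138, o305, l12195, l14014, o6795, l480, l11270, o5462, o8660, o352, l13984, l2726, l485, o8682, o5454, l2299, l12207, o8659, o5798, o4957, l14036, o5405, o5839, o4847, l13900,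 l11049, l8635, l13688] l14037 := rupP (by decide +kernel)
theorem r14038 : PImp [l14037, l4655] l14038 := rupP (by decide +kernel)
theorem r14039 : PImp [l14037, l13950] l14039 := rupP (by decide +kernel)
theorem r14040 : PImp [l14038, l13680, o4570] l14040 := rupP (by decide +kernel)
theorem r14041 : PImp [l14039, l14037, l13943] l14041 := rupP (by decide +kernel)
theorem r14042 : PImp [l14041, l14040, l14037, l13945] l14042 := rupP (by decide +kernel)

end Pool.Agent.BDD.A
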