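import Pool.Agent.BDD.AC
import Pool.Agent.BDD.AE0
import Pool.Agent.BDD.AE1
import Pool.Agent.BDD.AE2
import Pool.Agent.BDD.AD0
import Pool.Agent.BDD.AD1

set_option autoImplicit false
set_option linter.all false

namespace Pool.Agent.BDD.A

theorem r3549 : PImp [l2152, l1924, l2038, o7886] l3549 := rupP (by decide +kernel)
theorem r3550 : PImp [l2152, l1924, l2038, o8054] l3550 := rupP (by decide +kernel)
theorem r3551 : PImp [l1924, l2038, l2151, o8137] l3551 := rupP (by decide +kernel)
theorem r3552 : PImp [l2152, l2038, l1924, o8218] l3552 := rupP (by decide +kernel)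
theorem r3553 : PImp [l2152, l2038, l1925, o8028] l3553 := rupP (by decide +kernel)
theorem r3554 : PImp [l2152, l2038, l1925, o8192] l3554 := rupP (by decide +kernel)
theorem r3555 : PImp [l2038, l1925, l2151, o8277] l3555 := rupP (by decide +kernel)
theorem r3556 : PImp [l1924, l2151, l2038, l608] l3556 := rupP (by decide +kernel)
theorem r3557 : PImp [l2150, l2215, l2036, l1923, o7695] l3557 := rupP (by decide +kernel)
theorem r3558 : PImp [l2150, l1922, l2036, l2215, o7719] l3558 := rupP (by decide +kernel)
theorem r3559 : PImp [l2215, l2036, l1923, l2149, o7779] l3559 := rupP (by decide +kernel)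
theorem r3560 : PImp [l2215, l2149, l2036, l1922, o7799] l3560 := rupP (by decide +kernel)
theorem r3561 : PImp [l2150, l2214, l1922, l2036, o7887] l3561 := rupP (by decide +kernel)
theorem r3562 : PImp [l2150, l2215, l2036, l1922, o8055] l3562 := rupP (by decide +kernel)
theorem r3563 : PImp [l2215, l2036, l2149, l1923, o8120] l3563 := rupP (by decide +kernel)
theorem r3564 : PImp [l2150, l2036, l1923, l2215, o8029] l3564 := rupP (by decide +kernel)
theorem r3565 : PImp [l2150, l1923, l2214, l2036, o8193] l3565 := rupP (by decide +kernel)
theorem r3566 : PImp [l2017, l2034, o1234] l3566 := rupP (by decide +kernel)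
theorem r3567 : PImp [l2017, l2034, o1235] l3567 := rupP (by decide +kernel)
theorem r3568 : PImp [l2029, l2034, o1252] l3568 := rupP (by decide +kernel)
theorem r3569 : PImp [l2034, l2041, o1291] l3569 := rupP (by decide +kernel)
theorem r3570 : PImp [l2034, l2041, o1292] l3570 := rupP (by decide +kernel)
theorem r3571 : PImp [l2034, l2041, o1293] l3571 := rupP (by decide +kernel)
theorem r3572 : PImp [l2034, l2043, o1294] l3572 := rupP (by decide +kernel)
theorem r3573 : PImp [l2034, l2043, o1295] l3573 := rupP (by decide +kernel)
theorem r3574 : PImp [l2034, l2047, o1296] l3574 := rupP (by decide +kernel)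
theorem r3575 : PImp [l2034, l2047, o1297] l3575 := rupP (by decide +kernel)
theorem r3576 : PImp [l2034, l2051, o1300] l3576 := rupP (by decide +kernel)
theorem r3577 : PImp [l2034, l2053, o1367] l3577 := rupP (by decide +kernel)
theorem r3578 : PImp [l2034, l2055, o1368] l3578 := rupP (by decide +kernel)
theorem r3579 : PImp [l2059, l2034, o1369] l3579 := rupP (by decide +kernel)
theorem r3580 : PImp [l2034, l2148, l1920, o7169] l3580 := rupP (by decide +kernel)
theorem r3581 : PImp [l2148, l2034, l1921, o7859] l3581 := rupP (by decide +kernel)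
theorem r3582 : PImp [l2148, l2034, l1921, o8030] l3582 := rupP (by decide +kernel)
theorem r3583 : PImp [l2148, l1921, l2034, o8194] l3583 := rupP (by decide +kernel)
theorem r3584 : PImp [l2034, l2147, l1921, o8278] l3584 := rupP (by decide +kernel)
theorem r3585 : PImp [l1920, l2034, l2147, l609] l3585 := rupP (by decide +kernel)
theorem r3586 : PImp [l2032, l1919, l2145, l2213, o7131] l3586 := rupP (by decide +kernel)
theorem r3587 : PImp [l2146, l2032, l1918, l2213, o7168] l3587 := rupP (by decide +kernel)
theorem r3588 : PImp [l2032, l2212, l2146, l1918, o7266] l3588 := rupP (by decide +kernel)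
theorem r3589 : PImp [l2146, l1918, l2213, l2032, o7362] l3589 := rupP (by decide +kernel)
theorem r3590 : PImp [l2146, l1918, l2213, l2032, o7720] l3590 := rupP (by decide +kernel)
theorem r3591 : PImp [l2032, l2145, l2213, l1919, o7780] l3591 := rupP (by decide +kernel)
theorem r3592 : PImp [l1918, l2032, l2145, l2213, o7800] l3592 := rupP (by decide +kernel)
theorem r3593 : PImp [l1918, l2146, l2032, l2212, o7888] l3593 := rupP (by decide +kernel)
theorem r3594 : PImp [l2146, l1918, l2032, l2213, o8056] l3594 := rupP (by decide +kernel)
theorem r3595 : PImp [l2032, l1919, l2145, l2213, o8121] l3595 := rupP (by decide +kernel)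
theorem r3596 : PImp [l1918, l2032, l2145, l2213, o8138] l3596 := rupP (by decide +kernel)
theorem r3597 : PImp [l2146, l2032, l2213, l1919, o8031] l3597 := rupP (by decide +kernel)
theorem r3598 : PImp [l2032, l2146, l2212, l1919, o8195] l3598 := rupP (by decide +kernel)
theorem r3599 : PImp [l1918, l2032, l2212, l2145, l610] l3599 := rupP (by decide +kernel)
theorem r3600 : PImp [l1916, l2030, l2143, l2211, o7117] l3600 := rupP (by decide +kernel)
theorem r3601 : PImp [l2030, l1917, l2143, l2211, o7130] l3601 := rupP (by decide +kernel)
theorem r3602 : PImp [l2030, l2210, l2144, l1916, o7265] l3602 := rupP (by decide +kernel)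
theorem r3603 : PImp [l2144, l2030, l2211, l1917, o7697] l3603 := rupP (by decide +kernel)
theorem r3604 : PImp [l2144, l1916, l2211, l2030, o7721] l3604 := rupP (by decide +kernel)
theorem r3605 : PImp [l2030, l1917, l2143, l2211, o7781] l3605 := rupP (by decide +kernel)
theorem r3606 : PImp [l2144, l2030, l1917, l2210, o7861] l3606 := rupP (by decide +kernel)
theorem r3607 : PImp [l2144, l1916, l2030, l2210, o7889] l3607 := rupP (by decide +kernel)
theorem r3608 : PImp [l2210, l1917, l2143, l2030, o7952] l3608 := rupP (by decide +kernel)
theorem r3609 : PImp [l2144, l2211, l2030, l1917, o8032] l3609 := rupP (by decide +kernel)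
theorem r3610 : PImp [l2144, l2211, l2030, l1916, o8057] l3610 := rupP (by decide +kernel)
theorem r3611 : PImp [l2030, l1917, l2211, l2143, o8122] l3611 := rupP (by decide +kernel)
theorem r3612 : PImp [l1916, l2030, l2143, l2211, o8139] l3612 := rupP (by decide +kernel)
theorem r3613 : PImp [l2030, l2144, l2210, l1917, o8196] l3613 := rupP (by decide +kernel)
theorem r3614 : PImp [l2144, l2210, l1916, l2030, o8219] l3614 := rupP (by decide +kernel)
theorem r3615 : PImp [l2030, l2210, l2143, l1917, o8279] l3615 := rupP (by decide +kernel)
theorem r3616 : PImp [l1916, l2030, l2210, l2143, l611] l3616 := rupP (by decide +kernel)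
theorem r3617 : PImp [l2026, l2140, l1912, o7070] l3617 := rupP (by decide +kernel)
theorem r3618 : PImp [l2026, l2140, l1912, o7361] l3618 := rupP (by decide +kernel)
theorem r3619 : PImp [l2026, l1912, l2140, o7422] l3619 := rupP (by decide +kernel)
theorem r3620 : PImp [l1913, l2140, l2026, o7471] l3620 := rupP (by decide +kernel)
theorem r3621 : PImp [l1912, l2026, l2140, o7484] l3621 := rupP (by decide +kernel)
theorem r3622 : PImp [l2139, l1912, l2026, o7520] l3622 := rupP (by decide +kernel)
theorem r3623 : PImp [l1913, l2140, l2026, o7545] l3623 := rupP (by decide +kernel)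
theorem r3624 : PImp [l2140, l1912, l2026, o7557] l3624 := rupP (by decide +kernel)
theorem r3625 : PImp [l1913, l2140, l2026, o7618] l3625 := rupP (by decide +kernel)
theorem r3626 : PImp [l2140, l1912, l2026, o7634] l3626 := rupP (by decide +kernel)
theorem r3627 : PImp [l2138, l2208, l1910, l2024, o7264] l3627 := rupP (by decide +kernel)
theorem r3628 : PImp [l2209, l2024, l2138, l1910, o7360] l3628 := rupP (by decide +kernel)
theorem r3629 : PImp [l2024, l2138, l1911, l2209, o7410] l3629 := rupP (by decide +kernel)
theorem r3630 : PImp [l2209, l2024, l2138, l1910, o7423] l3630 := rupP (by decide +kernel)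
theorem r3631 : PImp [l1911, l2024, l2138, l2208, o7472] l3631 := rupP (by decide +kernel)
theorem r3632 : PImp [l1910, l2024, l2138, l2208, o7485] l3632 := rupP (by decide +kernel)
theorem r3633 : PImp [l2138, l1911, l2209, l2024, o7546] l3633 := rupP (by decide +kernel)
theorem r3634 : PImp [l1910, l2209, l2024, l2138, o7558] l3634 := rupP (by decide +kernel)
theorem r3635 : PImp [l1911, l2024, l2208, l2138, o7619] l3635 := rupP (by decide +kernel)
theorem r3636 : PImp [l1910, l2208, l2024, l2138, o7635] l3636 := rupP (by decide +kernel)
theorem r3637 : PImp [l2004, l2050, o1177] l3637 := rupP (by decide +kernel)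
theorem r3638 : PImp [l2008, l2050, o1176] l3638 := rupP (by decide +kernel)
theorem r3639 : PImp [l2008, l2050, o1175] l3639 := rupP (by decide +kernel)
theorem r3640 : PImp [l2202, l2127, l1900, l2015, o6816] l3640 := rupP (by decide +kernel)
theorem r3641 : PImp [l2202, l1900, l2015, l2128, o6829] l3641 := rupP (by decide +kernel)
theorem r3642 : PImp [l2203, l1900, l2015, l2127, o6849] l3642 := rupP (by decide +kernel)
theorem r3643 : PImp [l2203, l1901, l2015, l2127, o6861] l3643 := rupP (by decide +kernel)
theorem r3644 : PImp [l2202, l1900, l2015, l2127, o6917] l3644 := rupP (by decide +kernel)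
theorem r3645 : PImp [l2202, l1901, l2015, l2127, o6926] l3645 := rupP (by decide +kernel)
theorem r3646 : PImp [l2203, l1900, l2015, l2127, o6974] l3646 := rupP (by decide +kernel)
theorem r3647 : PImp [l2013, l2055, o1172] l3647 := rupP (by decide +kernel)
theorem r3648 : PImp [l2013, l2055, o1174] l3648 := rupP (by decide +kernel)
theorem r3649 : PImp [l2200, l1898, l2013, l2125, o6815] l3649 := rupP (by decide +kernel)
theorem r3650 : PImp [l2200, l1899, l2013, l2125, o6820] l3650 := rupP (by decide +kernel)
theorem r3651 : PImp [l2201, l2125, l1898, l2013, o6848] l3651 := rupP (by decide +kernel)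
theorem r3652 : PImp [l1899, l2125, l2013, l2201, o6860] l3652 := rupP (by decide +kernel)
theorem r3653 : PImp [l2201, l1898, l2013, l2126, o6885] l3653 := rupP (by decide +kernel)
theorem r3654 : PImp [l2201, l1899, l2013, l2126, o6896] l3654 := rupP (by decide +kernel)
theorem r3655 : PImp [l2200, l1898, l2013, l2125, o6916] l3655 := rupP (by decide +kernel)
theorem r3656 : PImp [l2200, l1899, l2013, l2125, o6925] l3656 := rupP (by decide +kernel)
theorem r3657 : PImp [l2200, l1898, l2013, l2126, o6947] l3657 := rupP (by decide +kernel)
theorem r3658 : PImp [l2200, l1899, l2013, l2126, o6953] l3658 := rupP (by decide +kernel)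
theorem r3659 : PImp [l2201, l1898, l2013, l2125, o6973] l3659 := rupP (by decide +kernel)
theorem r3660 : PImp [l1899, l2013, l2201, l2125, o6986] l3660 := rupP (by decide +kernel)
theorem r3661 : PImp [l2201, l1898, l2013, l2126, o7015] l3661 := rupP (by decide +kernel)
theorem r3662 : PImp [l2125, l1898, l2013, l2201, o7081] l3662 := rupP (by decide +kernel)
theorem r3663 : PImp [l1899, l2201, l2013, l2126, o7214] l3663 := rupP (by decide +kernel)
theorem r3664 : PImp [l2200, l1899, l2013, l2125, o7358] l3664 := rupP (by decide +kernel)
theorem r3665 : PImp [l2013, l1968, o880] l3665 := rupP (by decide +kernel)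
theorem r3666 : PImp [l2011, l2041, o1168] l3666 := rupP (by decide +kernel)
theorem r3667 : PImp [l2011, l2043, o1169] l3667 := rupP (by decide +kernel)
theorem r3668 : PImp [l2011, l2055, o1170] l3668 := rupP (by decide +kernel)
theorem r3669 : PImp [l2011, l2055, o1171] l3669 := rupP (by decide +kernel)
theorem r3670 : PImp [l2011, l2055, o1173] l3670 := rupP (by decide +kernel)
theorem r3671 : PImp [l2123, l1896, l2011, o6814] l3671 := rupP (by decide +kernel)
theorem r3672 : PImp [l2123, l1897, l2011, o6819] l3672 := rupP (by decide +kernel)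
theorem r3673 : PImp [l1896, l2011, l2124, o6828] l3673 := rupP (by decide +kernel)
theorem r3674 : PImp [l1897, l2011, l2124, o6833] l3674 := rupP (by decide +kernel)
theorem r3675 : PImp [l2123, l1896, l2011, o6847] l3675 := rupP (by decide +kernel)
theorem r3676 : PImp [l2123, l1897, l2011, o6859] l3676 := rupP (by decide +kernel)
theorem r3677 : PImp [l1896, l2011, l2124, o6884] l3677 := rupP (by decide +kernel)
theorem r3678 : PImp [l1897, l2011, l2124, o6895] l3678 := rupP (by decide +kernel)
theorem r3679 : PImp [l2123, l1896, l2011, o6915] l3679 := rupP (by decide +kernel)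
theorem r3680 : PImp [l2123, l1897, l2011, o6924] l3680 := rupP (by decide +kernel)
theorem r3681 : PImp [l1896, l2011, l2124, o6946] l3681 := rupP (by decide +kernel)
theorem r3682 : PImp [l1897, l2011, l2124, o6952] l3682 := rupP (by decide +kernel)
theorem r3683 : PImp [l2123, l1896, l2011, o6972] l3683 := rupP (by decide +kernel)
theorem r3684 : PImp [l2123, l1897, l2011, o6985] l3684 := rupP (by decide +kernel)
theorem r3685 : PImp [l1896, l2011, l2124, o7014] l3685 := rupP (by decide +kernel)
theorem r3686 : PImp [l1897, l2011, l2124, l568] l3686 := rupP (by decide +kernel)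
theorem r3687 : PImp [l2123, l1896, l2011, o7082] l3687 := rupP (by decide +kernel)
theorem r3688 : PImp [l1897, l2011, l2124, o7115] l3688 := rupP (by decide +kernel)
theorem r3689 : PImp [l1896, l2011, l2124, o7127] l3689 := rupP (by decide +kernel)
theorem r3690 : PImp [l2123, l1897, l2011, o7166] l3690 := rupP (by decide +kernel)
theorem r3691 : PImp [l1896, l2011, l2124, o7226] l3691 := rupP (by decide +kernel)
theorem r3692 : PImp [l1897, l2011, l2124, o7314] l3692 := rupP (by decide +kernel)
theorem r3693 : PImp [l1896, l2011, l2124, o7324] l3693 := rupP (by decide +kernel)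
theorem r3694 : PImp [l2123, l1897, l2011, o7359] l3694 := rupP (by decide +kernel)
theorem r3695 : PImp [l2011, l1964, o879] l3695 := rupP (by decide +kernel)
theorem r3696 : PImp [l2011, l1968, o881] l3696 := rupP (by decide +kernel)
theorem r3697 : PImp [l2011, l1970, o882] l3697 := rupP (by decide +kernel)
theorem r3698 : PImp [l2011, l1972, o883] l3698 := rupP (by decide +kernel)
theorem r3699 : PImp [l1894, l2121, l2009, l2199, o6846] l3699 := rupP (by decide +kernel)
theorem r3700 : PImp [l2121, l1895, l2009, l2199, o6858] l3700 := rupP (by decide +kernel)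
theorem r3701 : PImp [l2198, l1894, l2121, l2009, o6914] l3701 := rupP (by decide +kernel)
theorem r3702 : PImp [l2198, l1895, l2121, l2009, o6923] l3702 := rupP (by decide +kernel)
theorem r3703 : PImp [l1894, l2121, l2009, l2199, o6971] l3703 := rupP (by decide +kernel)
theorem r3704 : PImp [l2199, l2121, l2009, l1895, o6984] l3704 := rupP (by decide +kernel)
theorem r3705 : PImp [l1895, l2199, l2009, l2122, l567] l3705 := rupP (by decide +kernel)
theorem r3706 : PImp [l2199, l2121, l2009, l1895, o7262] l3706 := rupP (by decide +kernel)
theorem r3707 : PImp [l2119, l1893, l2007, o6857] l3707 := rupP (by decide +kernel)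
theorem r3708 : PImp [l2120, l1892, l2007, o6883] l3708 := rupP (by decide +kernel)
theorem r3709 : PImp [l1893, l2007, l2120, o6894] l3709 := rupP (by decide +kernel)
theorem r3710 : PImp [l2119, l1892, l2007, o6913] l3710 := rupP (by decide +kernel)
theorem r3711 : PImp [l2119, l1893, l2007, o6922] l3711 := rupP (by decide +kernel)
theorem r3712 : PImp [l1892, l2007, l2120, o6945] l3712 := rupP (by decide +kernel)
theorem r3713 : PImp [l2119, l1892, l2007, o6970] l3713 := rupP (by decide +kernel)
theorem r3714 : PImp [l2119, l1893, l2007, o6983] l3714 := rupP (by decide +kernel)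
theorem r3715 : PImp [l2120, l1892, l2007, o7013] l3715 := rupP (by decide +kernel)
theorem r3716 : PImp [l2117, l1891, l2005, o6856] l3716 := rupP (by decide +kernel)
theorem r3717 : PImp [l2118, l1890, l2005, o6882] l3717 := rupP (by decide +kernel)
theorem r3718 : PImp [l1891, l2118, l2005, o6893] l3718 := rupP (by decide +kernel)
theorem r3719 : PImp [l2117, l1890, l2005, o6969] l3719 := rupP (by decide +kernel)
theorem r3720 : PImp [l2117, l1891, l2005, o6982] l3720 := rupP (by decide +kernel)
theorem r3721 : PImp [l2118, l1890, l2005, o7012] l3721 := rupP (by decide +kernel)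
theorem r3722 : PImp [l1891, l2118, l2005, o7215] l3722 := rupP (by decide +kernel)
theorem r3723 : PImp [l1888, l2003, o6341] l3723 := rupP (by decide +kernel)
theorem r3724 : PImp [l2003, l1888, o6381] l3724 := rupP (by decide +kernel)
theorem r3725 : PImp [l1888, l2003, o6434] l3725 := rupP (by decide +kernel)
theorem r3726 : PImp [l2003, l1888, o6524] l3726 := rupP (by decide +kernel)
theorem r3727 : PImp [l1888, l2003, o6583] l3727 := rupP (by decide +kernel)
theorem r3728 : PImp [l2003, l1888, o6649] l3728 := rupP (by decide +kernel)
theorem r3729 : PImp [l2003, l1888, o6712] l3729 := rupP (by decide +kernel)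
theorem r3730 : PImp [l2003, l1888, o6800] l3730 := rupP (by decide +kernel)
theorem r3731 : PImp [l2003, l1888, o8909] l3731 := rupP (by decide +kernel)
theorem r3732 : PImp [l2003, l1888, o8990] l3732 := rupP (by decide +kernel)
theorem r3733 : PImp [l2003, l1888, o9077] l3733 := rupP (by decide +kernel)
theorem r3734 : PImp [l2003, l1888, o9124] l3734 := rupP (by decide +kernel)
theorem r3735 : PImp [l2003, l1888, o9154] l3735 := rupP (by decide +kernel)
theorem r3736 : PImp [l2003, o874] l3736 := rupP (by decide +kernel)
theorem r3737 : PImp [l1889, l2003, o6352] l3737 := rupP (by decide +kernel)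
theorem r3738 : PImp [l1889, l2003, o6598] l3738 := rupP (by decide +kernel)
theorem r3739 : PImp [l1889, l2003, o8980] l3739 := rupP (by decide +kernel)
theorem r3740 : PImp [l1889, l2003, o6454] l3740 := rupP (by decide +kernel)
theorem r3741 : PImp [l1889, l2003, o6730] l3741 := rupP (by decide +kernel)
theorem r3742 : PImp [l2115, l1886, l2001, o6340] l3742 := rupP (by decide +kernel)
theorem r3743 : PImp [l2116, l2001, l1886, o6380] l3743 := rupP (by decide +kernel)
theorem r3744 : PImp [l2001, l1886, l2115, o6433] l3744 := rupP (by decide +kernel)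
theorem r3745 : PImp [l2001, l2116, l1886, o6523] l3745 := rupP (by decide +kernel)
theorem r3746 : PImp [l2115, l2001, l1886, o6582] l3746 := rupP (by decide +kernel)
theorem r3747 : PImp [l1886, l2116, l2001, o6648] l3747 := rupP (by decide +kernel)
theorem r3748 : PImp [l2115, l1886, l2001, o6711] l3748 := rupP (by decide +kernel)
theorem r3749 : PImp [l2001, l1886, l2116, o6799] l3749 := rupP (by decide +kernel)
theorem r3750 : PImp [l2001, l1886, l2116, o8871] l3750 := rupP (by decide +kernel)
theorem r3751 : PImp [l2001, l2116, l1886, o8948] l3751 := rupP (by decide +kernel)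
theorem r3752 : PImp [l2001, l1886, l2116, o9035] l3752 := rupP (by decide +kernel)
theorem r3753 : PImp [l1886, l2116, l2001, o9125] l3753 := rupP (by decide +kernel)
theorem r3754 : PImp [l2115, l2001, l1887, o6351] l3754 := rupP (by decide +kernel)
theorem r3755 : PImp [l2115, l2001, l1887, o6453] l3755 := rupP (by decide +kernel)
theorem r3756 : PImp [l1884, l1999, o6339] l3756 := rupP (by decide +kernel)
theorem r3757 : PImp [l1999, l1884, o6379] l3757 := rupP (by decide +kernel)
theorem r3758 : PImp [l1999, l1884, o6432] l3758 := rupP (by decide +kernel)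
theorem r3759 : PImp [l1884, l1999, o6522] l3759 := rupP (by decide +kernel)
theorem r3760 : PImp [l1884, l1999, o6581] l3760 := rupP (by decide +kernel)
theorem r3761 : PImp [l1884, l1999, o6647] l3761 := rupP (by decide +kernel)
theorem r3762 : PImp [l1999, l1884, o6710] l3762 := rupP (by decide +kernel)
theorem r3763 : PImp [l1999, l1884, o6798] l3763 := rupP (by decide +kernel)
theorem r3764 : PImp [l1999, l1884, o8872] l3764 := rupP (by decide +kernel)
theorem r3765 : PImp [l1884, l1999, o8910] l3765 := rupP (by decide +kernel)
theorem r3766 : PImp [l1884, l1999, o8949] l3766 := rupP (by decide +kernel)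
theorem r3767 : PImp [l1884, l1999, o8991] l3767 := rupP (by decide +kernel)
theorem r3768 : PImp [l1884, l1999, o9036] l3768 := rupP (by decide +kernel)
theorem r3769 : PImp [l1884, l1999, o9078] l3769 := rupP (by decide +kernel)
theorem r3770 : PImp [l1999, o870] l3770 := rupP (by decide +kernel)
theorem r3771 : PImp [l1999, o871] l3771 := rupP (by decide +kernel)
theorem r3772 : PImp [l1999, o873] l3772 := rupP (by decide +kernel)
theorem r3773 : PImp [l1999, o872] l3773 := rupP (by decide +kernel)
theorem r3774 : PImp [l1885, l1999, o6350] l3774 := rupP (by decide +kernel)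
theorem r3775 : PImp [l1999, l1885, o6596] l3775 := rupP (by decide +kernel)
theorem r3776 : PImp [l1999, l1885, o6452] l3776 := rupP (by decide +kernel)
theorem r3777 : PImp [l1885, l1999, o6728] l3777 := rupP (by decide +kernel)
theorem r3778 : PImp [l1885, l1999, o8900] l3778 := rupP (by decide +kernel)
theorem r3779 : PImp [l1885, l1999, l564] l3779 := rupP (by decide +kernel)
theorem r3780 : PImp [l2113, o6338] l3780 := rupP (by decide +kernel)
theorem r3781 : PImp [l2113, o6431] l3781 := rupP (by decide +kernel)
theorem r3782 : PImp [l2114, o6521] l3782 := rupP (by decide +kernel)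
theorem r3783 : PImp [l2114, o6646] l3783 := rupP (by decide +kernel)
theorem r3784 : PImp [l2113, o6709] l3784 := rupP (by decide +kernel)
theorem r3785 : PImp [l2114, o6797] l3785 := rupP (by decide +kernel)
theorem r3786 : PImp [l2114, o8873] l3786 := rupP (by decide +kernel)
theorem r3787 : PImp [l2114, o9037] l3787 := rupP (by decide +kernel)
theorem r3788 : PImp [l2114, o9126] l3788 := rupP (by decide +kernel)
theorem r3789 : PImp [l2113, o6349] l3789 := rupP (by decide +kernel)
theorem r3790 : PImp [l2113, o6451] l3790 := rupP (by decide +kernel)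
theorem r3791 : PImp [l2111, o6337] l3791 := rupP (by decide +kernel)
theorem r3792 : PImp [l2112, o6378] l3792 := rupP (by decide +kernel)
theorem r3793 : PImp [l2111, o6430] l3793 := rupP (by decide +kernel)
theorem r3794 : PImp [l2112, o6520] l3794 := rupP (by decide +kernel)
theorem r3795 : PImp [l2112, o6645] l3795 := rupP (by decide +kernel)
theorem r3796 : PImp [l2111, o6708] l3796 := rupP (by decide +kernel)
theorem r3797 : PImp [l2112, l1378] l3797 := rupP (by decide +kernel)
theorem r3798 : PImp [l2112, o8874] l3798 := rupP (by decide +kernel)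
theorem r3799 : PImp [l2111, o8911] l3799 := rupP (by decide +kernel)
theorem r3800 : PImp [l2112, o8950] l3800 := rupP (by decide +kernel)
theorem r3801 : PImp [l2112, o9038] l3801 := rupP (by decide +kernel)
theorem r3802 : PImp [l2111, o9079] l3802 := rupP (by decide +kernel)
theorem r3803 : PImp [l2111, o6348] l3803 := rupP (by decide +kernel)
theorem r3804 : PImp [l2111, o6595] l3804 := rupP (by decide +kernel)
theorem r3805 : PImp [l2111, o6450] l3805 := rupP (by decide +kernel)
theorem r3806 : PImp [l2111, o6727] l3806 := rupP (by decide +kernel)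
theorem r3807 : PImp [l2112, l563] l3807 := rupP (by decide +kernel)
theorem r3808 : PImp [l1997, l1882, o6428] l3808 := rupP (by decide +kernel)
theorem r3809 : PImp [l1882, l1997, o6518] l3809 := rupP (by decide +kernel)
theorem r3810 : PImp [l1997, l1882, o6580] l3810 := rupP (by decide +kernel)
theorem r3811 : PImp [l1882, l1997, o6706] l3811 := rupP (by decide +kernel)
theorem r3812 : PImp [l1882, l1997, o6794] l3812 := rupP (by decide +kernel)
theorem r3813 : PImp [l1882, l1997, o8405] l3813 := rupP (by decide +kernel)
theorem r3814 : PImp [l1997, l1882, o8551] l3814 := rupP (by decide +kernel)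
theorem r3815 : PImp [l1882, l1997, o8614] l3815 := rupP (by decide +kernel)
theorem r3816 : PImp [l1997, l1882, o8708] l3816 := rupP (by decide +kernel)
theorem r3817 : PImp [l1997, o855] l3817 := rupP (by decide +kernel)
theorem r3818 : PImp [l1997, o857] l3818 := rupP (by decide +kernel)
theorem r3819 : PImp [l1997, o858] l3819 := rupP (by decide +kernel)
theorem r3820 : PImp [l1997, o862] l3820 := rupP (by decide +kernel)
theorem r3821 : PImp [l1997, o864] l3821 := rupP (by decide +kernel)
theorem r3822 : PImp [l1883, l1997, o8532] l3822 := rupP (by decide +kernel)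
theorem r3823 : PImp [l1997, l1883, o6448] l3823 := rupP (by decide +kernel)
theorem r3824 : PImp [l1997, l1883, o8383] l3824 := rupP (by decide +kernel)
theorem r3825 : PImp [l1883, l1997, o8687] l3825 := rupP (by decide +kernel)
theorem r3826 : PImp [l1995, l1880, l2110, o6517] l3826 := rupP (by decide +kernel)
theorem r3827 : PImp [l2110, l1880, l1995, o6643] l3827 := rupP (by decide +kernel)
theorem r3828 : PImp [l1995, l1880, l2109, o6705] l3828 := rupP (by decide +kernel)
theorem r3829 : PImp [l2110, l1995, l1880, o6793] l3829 := rupP (by decide +kernel)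
theorem r3830 : PImp [l1880, l2110, l1995, o8313] l3830 := rupP (by decide +kernel)
theorem r3831 : PImp [l2109, l1995, l1880, o8406] l3831 := rupP (by decide +kernel)
theorem r3832 : PImp [l1880, l1995, l2110, o8471] l3832 := rupP (by decide +kernel)
theorem r3833 : PImp [l2110, l1880, l1995, o8615] l3833 := rupP (by decide +kernel)
theorem r3834 : PImp [l2109, l1880, l1995, o8709] l3834 := rupP (by decide +kernel)
theorem r3835 : PImp [l1993, l1878, o6516] l3835 := rupP (by decide +kernel)
theorem r3836 : PImp [l1878, l1993, o6642] l3836 := rupP (by decide +kernel)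
theorem r3837 : PImp [l1993, l1878, o6792] l3837 := rupP (by decide +kernel)
theorem r3838 : PImp [l1993, l1878, o8314] l3838 := rupP (by decide +kernel)
theorem r3839 : PImp [l1993, l1878, o8407] l3839 := rupP (by decide +kernel)
theorem r3840 : PImp [l1878, l1993, o8616] l3840 := rupP (by decide +kernel)
theorem r3841 : PImp [l1993, o854] l3841 := rupP (by decide +kernel)
theorem r3842 : PImp [l1993, o856] l3842 := rupP (by decide +kernel)
theorem r3843 : PImp [l1993, o861] l3843 := rupP (by decide +kernel)
theorem r3844 : PImp [l1993, o860] l3844 := rupP (by decide +kernel)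
theorem r3845 : PImp [l1993, o863] l3845 := rupP (by decide +kernel)
theorem r3846 : PImp [l1993, o868] l3846 := rupP (by decide +kernel)
theorem r3847 : PImp [l1879, l1993, o8384] l3847 := rupP (by decide +kernel)
theorem r3848 : PImp [l1879, l1993, o8688] l3848 := rupP (by decide +kernel)
theorem r3849 : PImp [l2108, o6515] l3849 := rupP (by decide +kernel)
theorem r3850 : PImp [l2108, o6641] l3850 := rupP (by decide +kernel)
theorem r3851 : PImp [l2108, o6791] l3851 := rupP (by decide +kernel)
theorem r3852 : PImp [l2108, o8315] l3852 := rupP (by decide +kernel)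
theorem r3853 : PImp [l2108, o8780] l3853 := rupP (by decide +kernel)
theorem r3854 : PImp [l2106, o6514] l3854 := rupP (by decide +kernel)
theorem r3855 : PImp [l2106, o6640] l3855 := rupP (by decide +kernel)
theorem r3856 : PImp [l2106, o6790] l3856 := rupP (by decide +kernel)
theorem r3857 : PImp [l2106, o8316] l3857 := rupP (by decide +kernel)
theorem r3858 : PImp [l2106, o8472] l3858 := rupP (by decide +kernel)
theorem r3859 : PImp [l2106, o8617] l3859 := rupP (by decide +kernel)
theorem r3860 : PImp [l1876, l1991, o6512] l3860 := rupP (by decide +kernel)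
theorem r3861 : PImp [l1991, l1876, o6579] l3861 := rupP (by decide +kernel)
theorem r3862 : PImp [l1991, l1876, o6638] l3862 := rupP (by decide +kernel)
theorem r3863 : PImp [l1876, l1991, o6704] l3863 := rupP (by decide +kernel)
theorem r3864 : PImp [l1991, l1876, o6788] l3864 := rupP (by decide +kernel)
theorem r3865 : PImp [l1991, l1876, o7674] l3865 := rupP (by decide +kernel)
theorem r3866 : PImp [l1991, l1876, o7753] l3866 := rupP (by decide +kernel)
theorem r3867 : PImp [l1876, l1991, o7831] l3867 := rupP (by decide +kernel)
theorem r3868 : PImp [l1876, l1991, o7930] l3868 := rupP (by decide +kernel)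
theorem r3869 : PImp [l1876, l1991, o8002] l3869 := rupP (by decide +kernel)
theorem r3870 : PImp [l1876, l1991, o8094] l3870 := rupP (by decide +kernel)
theorem r3871 : PImp [l1876, l1991, o8256] l3871 := rupP (by decide +kernel)
theorem r3872 : PImp [l1991, l1877, o7904] l3872 := rupP (by decide +kernel)
theorem r3873 : PImp [l1991, l1877, o6447] l3873 := rupP (by decide +kernel)
theorem r3874 : PImp [l1991, l1877, o7735] l3874 := rupP (by decide +kernel)
theorem r3875 : PImp [l1877, l1991, o8070] l3875 := rupP (by decide +kernel)
theorem r3876 : PImp [l1874, l1989, l2103, o6427] l3876 := rupP (by decide +kernel)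
theorem r3877 : PImp [l1989, l1874, l2104, o6787] l3877 := rupP (by decide +kernel)
theorem r3878 : PImp [l1989, l1874, l2103, o7754] l3878 := rupP (by decide +kernel)
theorem r3879 : PImp [l1989, l2103, l1874, o7931] l3879 := rupP (by decide +kernel)
theorem r3880 : PImp [l1989, l2104, l1874, o8003] l3880 := rupP (by decide +kernel)
theorem r3881 : PImp [l1874, l2103, l1989, o8095] l3881 := rupP (by decide +kernel)
theorem r3882 : PImp [l1989, l1875, l2103, o7905] l3882 := rupP (by decide +kernel)
theorem r3883 : PImp [l1989, l1875, l2103, o6446] l3883 := rupP (by decide +kernel)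
theorem r3884 : PImp [l1989, l1875, l2103, o7736] l3884 := rupP (by decide +kernel)
theorem r3885 : PImp [l1875, l1989, l2103, o8071] l3885 := rupP (by decide +kernel)
theorem r3886 : PImp [l1987, l1872, o6578] l3886 := rupP (by decide +kernel)
theorem r3887 : PImp [l1872, l1987, o7832] l3887 := rupP (by decide +kernel)
theorem r3888 : PImp [l1872, l1987, o7932] l3888 := rupP (by decide +kernel)
theorem r3889 : PImp [l1872, l1987, o8257] l3889 := rupP (by decide +kernel)
theorem r3890 : PImp [l1987, l1873, o7906] l3890 := rupP (by decide +kernel)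
theorem r3891 : PImp [l1873, l1987, o6445] l3891 := rupP (by decide +kernel)
theorem r3892 : PImp [l1987, l1873, o7737] l3892 := rupP (by decide +kernel)
theorem r3893 : PImp [l1873, l1987, o8072] l3893 := rupP (by decide +kernel)
theorem r3894 : PImp [l2101, o6426] l3894 := rupP (by decide +kernel)
theorem r3895 : PImp [l2102, o6637] l3895 := rupP (by decide +kernel)
theorem r3896 : PImp [l2102, o6786] l3896 := rupP (by decide +kernel)
theorem r3897 : PImp [l2102, o7675] l3897 := rupP (by decide +kernel)
theorem r3898 : PImp [l2101, o7755] l3898 := rupP (by decide +kernel)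
theorem r3899 : PImp [l2102, o7833] l3899 := rupP (by decide +kernel)
theorem r3900 : PImp [l2102, o8004] l3900 := rupP (by decide +kernel)
theorem r3901 : PImp [l2101, o8097] l3901 := rupP (by decide +kernel)
theorem r3902 : PImp [l2101, o8258] l3902 := rupP (by decide +kernel)
theorem r3903 : PImp [l2101, o7907] l3903 := rupP (by decide +kernel)
theorem r3904 : PImp [l2101, o6444] l3904 := rupP (by decide +kernel)
theorem r3905 : PImp [l2101, o7738] l3905 := rupP (by decide +kernel)
theorem r3906 : PImp [l2101, o8073] l3906 := rupP (by decide +kernel)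
theorem r3907 : PImp [l2100, o7676] l3907 := rupP (by decide +kernel)
theorem r3908 : PImp [l2099, o7756] l3908 := rupP (by decide +kernel)
theorem r3909 : PImp [l2100, o7834] l3909 := rupP (by decide +kernel)
theorem r3910 : PImp [l2100, o8005] l3910 := rupP (by decide +kernel)
theorem r3911 : PImp [l2099, o8098] l3911 := rupP (by decide +kernel)
theorem r3912 : PImp [l2099, o7908] l3912 := rupP (by decide +kernel)
theorem r3913 : PImp [l2099, o6443] l3913 := rupP (by decide +kernel)
theorem r3914 : PImp [l2099, o7739] l3914 := rupP (by decide +kernel)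
theorem r3915 : PImp [l2099, o8074] l3915 := rupP (by decide +kernel)
theorem r3916 : PImp [l1985, o849] l3916 := rupP (by decide +kernel)
theorem r3917 : PImp [l1985, o851] l3917 := rupP (by decide +kernel)
theorem r3918 : PImp [l1871, l1985, o6345] l3918 := rupP (by decide +kernel)
theorem r3919 : PImp [l1871, l1985, o6441] l3919 := rupP (by decide +kernel)
theorem r3920 : PImp [l1982, o848] l3920 := rupP (by decide +kernel)
theorem r3921 : PImp [l1982, o850] l3921 := rupP (by decide +kernel)
theorem r3922 : PImp [l1982, l1868, o7572] l3922 := rupP (by decide +kernel)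
theorem r3923 : PImp [l2094, o6636] l3923 := rupP (by decide +kernel)
theorem r3924 : PImp [l2023, l832] l3924 := rupP (by decide +kernel)
theorem r3925 : PImp [l2027, l834] l3925 := rupP (by decide +kernel)
theorem r3926 : PImp [l1981, l2027, l836] l3926 := rupP (by decide +kernel)
theorem r3927 : PImp [l2059, l839] l3927 := rupP (by decide +kernel)
theorem r3928 : PImp [l2063, l842] l3928 := rupP (by decide +kernel)
theorem r3929 : PImp [l1998, l2063, l845] l3929 := rupP (by decide +kernel)
theorem r3930 : PImp [l2035, l846] l3930 := rupP (by decide +kernel)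
theorem r3931 : PImp [l2039, l848] l3931 := rupP (by decide +kernel)
theorem r3932 : PImp [l1986, l2039, l850] l3932 := rupP (by decide +kernel)
theorem r3933 : PImp [l2047, l851] l3933 := rupP (by decide +kernel)
theorem r3934 : PImp [l2051, l853] l3934 := rupP (by decide +kernel)
theorem r3935 : PImp [l1992, l2051, l855] l3935 := rupP (by decide +kernel)
theorem r3936 : PImp [l1865, l1980, o6424] l3936 := rupP (by decide +kernel)
theorem r3937 : PImp [l1865, l1980, o6504] l3937 := rupP (by decide +kernel)
theorem r3938 : PImp [l1865, l1980, o6576] l3938 := rupP (by decide +kernel)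
theorem r3939 : PImp [l1865, l1980, o6779] l3939 := rupP (by decide +kernel)
theorem r3940 : PImp [l1980, l1865, o6824] l3940 := rupP (by decide +kernel)
theorem r3941 : PImp [l1980, l1865, o6873] l3941 := rupP (by decide +kernel)
theorem r3942 : PImp [l1865, l1980, o6904] l3942 := rupP (by decide +kernel)
theorem r3943 : PImp [l1865, l1980, o6938] l3943 := rupP (by decide +kernel)
theorem r3944 : PImp [l1865, l1980, o7002] l3944 := rupP (by decide +kernel)
theorem r3945 : PImp [l1861, l1977, o6874] l3945 := rupP (by decide +kernel)
theorem r3946 : PImp [l2091, o6778] l3946 := rupP (by decide +kernel)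
theorem r3947 : PImp [l2089, o6503] l3947 := rupP (by decide +kernel)
theorem r3948 : PImp [l2089, o6633] l3948 := rupP (by decide +kernel)
theorem r3949 : PImp [l2089, o6777] l3949 := rupP (by decide +kernel)
theorem r3950 : PImp [l2002, o939] l3950 := rupP (by decide +kernel)
theorem r3951 : PImp [l2002, o936] l3951 := rupP (by decide +kernel)
theorem r3952 : PImp [l2002, o935] l3952 := rupP (by decide +kernel)
theorem r3953 : PImp [l1998, o938] l3953 := rupP (by decide +kernel)
theorem r3954 : PImp [l2002, o934] l3954 := rupP (by decide +kernel)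
theorem r3955 : PImp [l1996, o916] l3955 := rupP (by decide +kernel)
theorem r3956 : PImp [l1996, o917] l3956 := rupP (by decide +kernel)
theorem r3957 : PImp [l1996, o914] l3957 := rupP (by decide +kernel)
theorem r3958 : PImp [l1996, o913] l3958 := rupP (by decide +kernel)
theorem r3959 : PImp [l1992, o915] l3959 := rupP (by decide +kernel)
theorem r3960 : PImp [l1996, o911] l3960 := rupP (by decide +kernel)
theorem r3961 : PImp [l1996, o912] l3961 := rupP (by decide +kernel)
theorem r3962 : PImp [l1996, o910] l3962 := rupP (by decide +kernel)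
theorem r3963 : PImp [l1996, o909] l3963 := rupP (by decide +kernel)
theorem r3964 : PImp [l1990, o906] l3964 := rupP (by decide +kernel)
theorem r3965 : PImp [l1990, o904] l3965 := rupP (by decide +kernel)
theorem r3966 : PImp [l1975, l2191, l1859, l2087, o5977] l3966 := rupP (by decide +kernel)
theorem r3967 : PImp [l2190, l1859, l2087, l1975, o6103] l3967 := rupP (by decide +kernel)
theorem r3968 : PImp [l2191, l1859, l2087, l1975, o6240] l3968 := rupP (by decide +kernel)
theorem r3969 : PImp [l1973, l2085, l1857, l2189, o5976] l3969 := rupP (by decide +kernel)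
theorem r3970 : PImp [l1973, l2189, l2086, l1857, o6042] l3970 := rupP (by decide +kernel)
theorem r3971 : PImp [l2188, l2085, l1857, l1973, o6102] l3971 := rupP (by decide +kernel)
theorem r3972 : PImp [l2189, l2085, l1857, l1973, o6239] l3972 := rupP (by decide +kernel)
theorem r3973 : PImp [l2188, l2085, l1858, l1973, o6124] l3973 := rupP (by decide +kernel)
theorem r3974 : PImp [l2084, l1855, l1971, o5924] l3974 := rupP (by decide +kernel)
theorem r3975 : PImp [l2083, l1971, l1855, o5975] l3975 := rupP (by decide +kernel)
theorem r3976 : PImp [l1971, l2084, l1855, o6041] l3976 := rupP (by decide +kernel)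
theorem r3977 : PImp [l2083, l1855, l1971, o6101] l3977 := rupP (by decide +kernel)
theorem r3978 : PImp [l2083, l1971, l1855, o6238] l3978 := rupP (by decide +kernel)
theorem r3979 : PImp [l1971, l2084, l1855, o6305] l3979 := rupP (by decide +kernel)
theorem r3980 : PImp [l1971, l2084, l1855, o7031] l3980 := rupP (by decide +kernel)
theorem r3981 : PImp [l1971, l2084, l1855, o7223] l3981 := rupP (by decide +kernel)
theorem r3982 : PImp [l2083, l1855, l1971, o7374] l3982 := rupP (by decide +kernel)
theorem r3983 : PImp [l1969, l2081, l2187, l1853, o5974] l3983 := rupP (by decide +kernel)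
theorem r3984 : PImp [l2186, l2081, l1969, l1853, o6100] l3984 := rupP (by decide +kernel)
theorem r3985 : PImp [l2186, l2082, l1853, l1969, o6171] l3985 := rupP (by decide +kernel)
theorem r3986 : PImp [l2187, l2081, l1969, l1853, o6237] l3986 := rupP (by decide +kernel)
theorem r3987 : PImp [l2080, l1851, l1967, o5923] l3987 := rupP (by decide +kernel)
theorem r3988 : PImp [l2079, l1967, l1851, o5973] l3988 := rupP (by decide +kernel)
theorem r3989 : PImp [l1967, l2080, l1851, o6040] l3989 := rupP (by decide +kernel)
theorem r3990 : PImp [l1967, l1851, l2079, o6099] l3990 := rupP (by decide +kernel)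
theorem r3991 : PImp [l2080, l1851, l1967, o6170] l3991 := rupP (by decide +kernel)
theorem r3992 : PImp [l2079, l1967, l1851, o6236] l3992 := rupP (by decide +kernel)
theorem r3993 : PImp [l1967, l2080, l1851, o6304] l3993 := rupP (by decide +kernel)
theorem r3994 : PImp [l2079, l1967, l1851, o7079] l3994 := rupP (by decide +kernel)
theorem r3995 : PImp [l1852, l1967, l2079, o6123] l3995 := rupP (by decide +kernel)
theorem r3996 : PImp [l2077, l1965, l1849, o5972] l3996 := rupP (by decide +kernel)
theorem r3997 : PImp [l2077, l1965, l1849, o6098] l3997 := rupP (by decide +kernel)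
theorem r3998 : PImp [l2077, l1965, l1849, o6235] l3998 := rupP (by decide +kernel)
theorem r3999 : PImp [l1849, l2078, l1965, o6303] l3999 := rupP (by decide +kernel)
theorem r4000 : PImp [l2077, l1965, l1849, o7080] l4000 := rupP (by decide +kernel)
theorem r4001 : PImp [l2077, l1965, l1849, o7179] l4001 := rupP (by decide +kernel)
theorem r4002 : PImp [l1850, l1965, l2077, o6122] l4002 := rupP (by decide +kernel)
theorem r4003 : PImp [l1850, l1965, l2077, o7357] l4003 := rupP (by decide +kernel)
theorem r4004 : PImp [l2077, l1850, l1965, o5990] l4004 := rupP (by decide +kernel)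
theorem r4005 : PImp [l2077, l1850, l1965, o6258] l4005 := rupP (by decide +kernel)
theorem r4006 : PImp [l1965, l2078, l1850, l516] l4006 := rupP (by decide +kernel)
theorem r4007 : PImp [l1960, l1240] l4007 := rupP (by decide +kernel)
theorem r4008 : PImp [l1962, l1241] l4008 := rupP (by decide +kernel)
theorem r4009 : PImp [l2075, o5868] l4009 := rupP (by decide +kernel)
theorem r4010 : PImp [l2076, o5920] l4010 := rupP (by decide +kernel)
theorem r4011 : PImp [l2075, o5969] l4011 := rupP (by decide +kernel)
theorem r4012 : PImp [l2075, o6232] l4012 := rupP (by decide +kernel)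
theorem r4013 : PImp [l2076, o6301] l4013 := rupP (by decide +kernel)
theorem r4014 : PImp [l2076, o6691] l4014 := rupP (by decide +kernel)
theorem r4015 : PImp [l2075, o5880] l4015 := rupP (by decide +kernel)
theorem r4016 : PImp [l2075, o6120] l4016 := rupP (by decide +kernel)
theorem r4017 : PImp [l1963, l1847, l2073, o5867] l4017 := rupP (by decide +kernel)
theorem r4018 : PImp [l2074, l1847, l1963, o5919] l4018 := rupP (by decide +kernel)
theorem r4019 : PImp [l2073, l1963, l1847, o5968] l4019 := rupP (by decide +kernel)
theorem r4020 : PImp [l1963, l1847, l2073, o6096] l4020 := rupP (by decide +kernel)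
theorem r4021 : PImp [l1963, l2073, l1847, o6231] l4021 := rupP (by decide +kernel)
theorem r4022 : PImp [l1963, l1847, l2073, o6479] l4022 := rupP (by decide +kernel)
theorem r4023 : PImp [l1963, l1847, l2073, o6617] l4023 := rupP (by decide +kernel)
theorem r4024 : PImp [l1963, l1847, l2073, o6750] l4024 := rupP (by decide +kernel)
theorem r4025 : PImp [l1845, l1961, o5866] l4025 := rupP (by decide +kernel)
theorem r4026 : PImp [l1845, l1961, o5918] l4026 := rupP (by decide +kernel)
theorem r4027 : PImp [l1845, l1961, o5967] l4027 := rupP (by decide +kernel)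
theorem r4028 : PImp [l1845, l1961, o6037] l4028 := rupP (by decide +kernel)
theorem r4029 : PImp [l1961, l1845, o6095] l4029 := rupP (by decide +kernel)
theorem r4030 : PImp [l1845, l1961, o6169] l4030 := rupP (by decide +kernel)
theorem r4031 : PImp [l1845, l1961, o6230] l4031 := rupP (by decide +kernel)
theorem r4032 : PImp [l1845, l1961, o6300] l4032 := rupP (by decide +kernel)
theorem r4033 : PImp [l1845, l1961, o6364] l4033 := rupP (by decide +kernel)
theorem r4034 : PImp [l1961, l1845, o6480] l4034 := rupP (by decide +kernel)
theorem r4035 : PImp [l1845, l1961, o6618] l4035 := rupP (by decide +kernel)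
theorem r4036 : PImp [l1845, l1961, o6692] l4036 := rupP (by decide +kernel)
theorem r4037 : PImp [l1845, l1961, o6751] l4037 := rupP (by decide +kernel)
theorem r4038 : PImp [l1846, l1961, o5878] l4038 := rupP (by decide +kernel)
theorem r4039 : PImp [l1846, l1961, o6118] l4039 := rupP (by decide +kernel)
theorem r4040 : PImp [l1961, l1846, o6457] l4040 := rupP (by decide +kernel)
theorem r4041 : PImp [l1846, l1961, o6733] l4041 := rupP (by decide +kernel)
theorem r4042 : PImp [l1846, l1961, o5988] l4042 := rupP (by decide +kernel)
theorem r4043 : PImp [l1846, l1961, o6256] l4043 := rupP (by decide +kernel)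
theorem r4044 : PImp [l1961, l1846, l515] l4044 := rupP (by decide +kernel)
theorem r4045 : PImp [l2072, o5917] l4045 := rupP (by decide +kernel)
theorem r4046 : PImp [l2071, o5966] l4046 := rupP (by decide +kernel)
theorem r4047 : PImp [l2072, o6036] l4047 := rupP (by decide +kernel)
theorem r4048 : PImp [l2071, o6094] l4048 := rupP (by decide +kernel)
theorem r4049 : PImp [l2072, o6168] l4049 := rupP (by decide +kernel)
theorem r4050 : PImp [l2071, o6229] l4050 := rupP (by decide +kernel)
theorem r4051 : PImp [l2072, o6299] l4051 := rupP (by decide +kernel)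
theorem r4052 : PImp [l2072, o6562] l4052 := rupP (by decide +kernel)
theorem r4053 : PImp [l1843, l1959, o5864] l4053 := rupP (by decide +kernel)
theorem r4054 : PImp [l1843, l1959, o5916] l4054 := rupP (by decide +kernel)
theorem r4055 : PImp [l1843, l1959, o5965] l4055 := rupP (by decide +kernel)
theorem r4056 : PImp [l1843, l1959, o6035] l4056 := rupP (by decide +kernel)
theorem r4057 : PImp [l1843, l1959, o6093] l4057 := rupP (by decide +kernel)
theorem r4058 : PImp [l1959, l1843, o6167] l4058 := rupP (by decide +kernel)
theorem r4059 : PImp [l1959, l1843, o6228] l4059 := rupP (by decide +kernel)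
theorem r4060 : PImp [l1843, l1959, o6298] l4060 := rupP (by decide +kernel)
theorem r4061 : PImp [l1843, l1959, o6327] l4061 := rupP (by decide +kernel)
theorem r4062 : PImp [l1959, l1843, o6365] l4062 := rupP (by decide +kernel)
theorem r4063 : PImp [l1959, l1843, o6411] l4063 := rupP (by decide +kernel)
theorem r4064 : PImp [l1843, l1959, o6482] l4064 := rupP (by decide +kernel)
theorem r4065 : PImp [l1959, l1843, o6563] l4065 := rupP (by decide +kernel)
theorem r4066 : PImp [l1843, l1959, o6619] l4066 := rupP (by decide +kernel)
theorem r4067 : PImp [l1843, l1959, o6693] l4067 := rupP (by decide +kernel)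
theorem r4068 : PImp [l1843, l1959, o6752] l4068 := rupP (by decide +kernel)
theorem r4069 : PImp [l1959, l1844, o5876] l4069 := rupP (by decide +kernel)
theorem r4070 : PImp [l1959, l1844, o6116] l4070 := rupP (by decide +kernel)
theorem r4071 : PImp [l1959, l1844, o6458] l4071 := rupP (by decide +kernel)
theorem r4072 : PImp [l1959, l1844, o6734] l4072 := rupP (by decide +kernel)
theorem r4073 : PImp [l1959, l1844, o5986] l4073 := rupP (by decide +kernel)
theorem r4074 : PImp [l1959, l1844, o6254] l4074 := rupP (by decide +kernel)
theorem r4075 : PImp [l1959, l1844, o6354] l4075 := rupP (by decide +kernel)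
theorem r4076 : PImp [l1844, l1959, o6601] l4076 := rupP (by decide +kernel)
theorem r4077 : PImp [l1956, l1900, o393] l4077 := rupP (by decide +kernel)
theorem r4078 : PImp [l1865, o362] l4078 := rupP (by decide +kernel)
theorem r4079 : PImp [l1870, o609] l4079 := rupP (by decide +kernel)
theorem r4080 : PImp [l1876, o673] l4080 := rupP (by decide +kernel)
theorem r4081 : PImp [l1872, o674] l4081 := rupP (by decide +kernel)
theorem r4082 : PImp [l1882, o753] l4082 := rupP (by decide +kernel)
theorem r4083 : PImp [l1888, o805] l4083 := rupP (by decide +kernel)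
theorem r4084 : PImp [l1884, o806] l4084 := rupP (by decide +kernel)
theorem r4085 : PImp [l1847, o125] l4085 := rupP (by decide +kernel)
theorem r4086 : PImp [l1845, o126] l4086 := rupP (by decide +kernel)
theorem r4087 : PImp [l2230, l2240, l870] l4087 := rupP (by decide +kernel)
theorem r4088 : PImp [l2230, l2240, l871] l4088 := rupP (by decide +kernel)
theorem r4089 : PImp [l1909, l1948, o467] l4089 := rupP (by decide +kernel)
theorem r4090 : PImp [l1909, l1948, o468] l4090 := rupP (by decide +kernel)
theorem r4091 : PImp [l1913, l1948, o469] l4091 := rupP (by decide +kernel)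
theorem r4092 : PImp [l1913, l1948, o470] l4092 := rupP (by decide +kernel)
theorem r4093 : PImp [l1921, l1948, o494] l4093 := rupP (by decide +kernel)
theorem r4094 : PImp [l1948, l1927, o539] l4094 := rupP (by decide +kernel)
theorem r4095 : PImp [l1948, l1933, o544] l4095 := rupP (by decide +kernel)
theorem r4096 : PImp [l1948, l1933, o545] l4096 := rupP (by decide +kernel)
theorem r4097 : PImp [l1948, l1933, o546] l4097 := rupP (by decide +kernel)
theorem r4098 : PImp [l1937, l1948, o553] l4098 := rupP (by decide +kernel)
theorem r4099 : PImp [l1937, l1948, o554] l4099 := rupP (by decide +kernel)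
theorem r4100 : PImp [l1937, l1948, o555] l4100 := rupP (by decide +kernel)
theorem r4101 : PImp [l1937, l1948, o556] l4101 := rupP (by decide +kernel)
theorem r4102 : PImp [l1937, l1948, o557] l4102 := rupP (by decide +kernel)
theorem r4103 : PImp [l1937, l1948, o558] l4103 := rupP (by decide +kernel)
theorem r4104 : PImp [l1945, l1948, o606] l4104 := rupP (by decide +kernel)
theorem r4105 : PImp [l1954, l1945, l1948, o607] l4105 := rupP (by decide +kernel)
theorem r4106 : PImp [l2175, l2063, l1948, o7054] l4106 := rupP (by decide +kernel)
theorem r4107 : PImp [l2176, l1948, l2063, o7101] l4107 := rupP (by decide +kernel)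
theorem r4108 : PImp [l2175, l2063, l1948, o7150] l4108 := rupP (by decide +kernel)
theorem r4109 : PImp [l2175, l2063, l1948, o7244] l4109 := rupP (by decide +kernel)
theorem r4110 : PImp [l2175, l2063, l1948, o7338] l4110 := rupP (by decide +kernel)
theorem r4111 : PImp [l1948, l2063, l2175, o9080] l4111 := rupP (by decide +kernel)
theorem r4112 : PImp [l2176, l2063, l1948, o9127] l4112 := rupP (by decide +kernel)
theorem r4113 : PImp [l2063, l2175, l1948, o9155] l4113 := rupP (by decide +kernel)
theorem r4114 : PImp [l1896, l1948, o381] l4114 := rupP (by decide +kernel)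
theorem r4115 : PImp [l1849, l1948, o105] l4115 := rupP (by decide +kernel)
theorem r4116 : PImp [l1849, l1948, o106] l4116 := rupP (by decide +kernel)
theorem r4117 : PImp [l1849, l1948, o107] l4117 := rupP (by decide +kernel)
theorem r4118 : PImp [l1849, l1948, o108] l4118 := rupP (by decide +kernel)
theorem r4119 : PImp [l1849, l1948, o109] l4119 := rupP (by decide +kernel)
theorem r4120 : PImp [l1849, l1948, o110] l4120 := rupP (by decide +kernel)
theorem r4121 : PImp [l1911, l1946, o465] l4121 := rupP (by decide +kernel)
theorem r4122 : PImp [l1911, l1946, o466] l4122 := rupP (by decide +kernel)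
theorem r4123 : PImp [l1915, l1946, o490] l4123 := rupP (by decide +kernel)
theorem r4124 : PImp [l1917, l1946, o491] l4124 := rupP (by decide +kernel)
theorem r4125 : PImp [l1919, l1946, o492] l4125 := rupP (by decide +kernel)
theorem r4126 : PImp [l1923, l1946, o493] l4126 := rupP (by decide +kernel)
theorem r4127 : PImp [l1946, l1927, o535] l4127 := rupP (by decide +kernel)
theorem r4128 : PImp [l1946, l1929, o536] l4128 := rupP (by decide +kernel)
theorem r4129 : PImp [l1946, l1931, o538] l4129 := rupP (by decide +kernel)
theorem r4130 : PImp [l1946, l1933, o540] l4130 := rupP (by decide +kernel)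
theorem r4131 : PImp [l1946, l1933, o541] l4131 := rupP (by decide +kernel)
theorem r4132 : PImp [l1946, l1935, o542] l4132 := rupP (by decide +kernel)
theorem r4133 : PImp [l1946, l1935, o543] l4133 := rupP (by decide +kernel)
theorem r4134 : PImp [l1937, l1946, o547] l4134 := rupP (by decide +kernel)
theorem r4135 : PImp [l1937, l1946, o548] l4135 := rupP (by decide +kernel)
theorem r4136 : PImp [l1937, l1946, o550] l4136 := rupP (by decide +kernel)
theorem r4137 : PImp [l1939, l1946, o604] l4137 := rupP (by decide +kernel)
theorem r4138 : PImp [l1943, l1946, o605] l4138 := rupP (by decide +kernel)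
theorem r4139 : PImp [l2226, l2061, l1946, l2173, o7053] l4139 := rupP (by decide +kernel)
theorem r4140 : PImp [l2226, l2174, l1946, l2061, o7100] l4140 := rupP (by decide +kernel)
theorem r4141 : PImp [l2227, l2061, l2173, l1946, o7149] l4141 := rupP (by decide +kernel)
theorem r4142 : PImp [l2227, l2061, l1946, l2174, o7199] l4142 := rupP (by decide +kernel)
theorem r4143 : PImp [l1946, l2061, l2226, l2173, o7243] l4143 := rupP (by decide +kernel)
theorem r4144 : PImp [l2061, l2226, l1946, l2174, o7299] l4144 := rupP (by decide +kernel)
theorem r4145 : PImp [l1946, l2173, l2227, l2061, o7337] l4145 := rupP (by decide +kernel)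
theorem r4146 : PImp [l2226, l2173, l2061, l1946, o8992] l4146 := rupP (by decide +kernel)
theorem r4147 : PImp [l2227, l2061, l1946, l2173, o9081] l4147 := rupP (by decide +kernel)
theorem r4148 : PImp [l2174, l1946, l2226, l2061, o9128] l4148 := rupP (by decide +kernel)
theorem r4149 : PImp [l2061, l2226, l2173, l1946, o9156] l4149 := rupP (by decide +kernel)
theorem r4150 : PImp [l1896, l1946, o379] l4150 := rupP (by decide +kernel)
theorem r4151 : PImp [l1896, l1946, o380] l4151 := rupP (by decide +kernel)
theorem r4152 : PImp [l1920, l1945, o573] l4152 := rupP (by decide +kernel)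
theorem r4153 : PImp [l1932, l1945, o586] l4153 := rupP (by decide +kernel)
theorem r4154 : PImp [l1932, l1945, o587] l4154 := rupP (by decide +kernel)
theorem r4155 : PImp [l1932, l1945, o588] l4155 := rupP (by decide +kernel)
theorem r4156 : PImp [l1945, l1936, o594] l4156 := rupP (by decide +kernel)
theorem r4157 : PImp [l1945, l1936, o595] l4157 := rupP (by decide +kernel)
theorem r4158 : PImp [l1945, l1936, o596] l4158 := rupP (by decide +kernel)
theorem r4159 : PImp [l2059, l2172, l1945, o7311] l4159 := rupP (by decide +kernel)
theorem r4160 : PImp [l1945, l2059, l2172, o7208] l4160 := rupP (by decide +kernel)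
theorem r4161 : PImp [l1919, l1942, o488] l4161 := rupP (by decide +kernel)
theorem r4162 : PImp [l1919, l1942, o489] l4162 := rupP (by decide +kernel)
theorem r4163 : PImp [l1942, l1929, o530] l4163 := rupP (by decide +kernel)
theorem r4164 : PImp [l1942, l1931, o531] l4164 := rupP (by decide +kernel)
theorem r4165 : PImp [l1942, l1931, o532] l4165 := rupP (by decide +kernel)
theorem r4166 : PImp [l1942, l1931, o533] l4166 := rupP (by decide +kernel)
theorem r4167 : PImp [l1942, l1935, o537] l4167 := rupP (by decide +kernel)
theorem r4168 : PImp [l1942, l2224, l2057, l2169, o7051] l4168 := rupP (by decide +kernel)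
theorem r4169 : PImp [l1942, l2224, l2057, l2170, o7098] l4169 := rupP (by decide +kernel)
theorem r4170 : PImp [l1942, l2057, l2225, l2169, o7147] l4170 := rupP (by decide +kernel)
theorem r4171 : PImp [l1942, l2170, l2225, l2057, o7197] l4171 := rupP (by decide +kernel)
theorem r4172 : PImp [l2057, l2169, l1942, l2224, o7241] l4172 := rupP (by decide +kernel)
theorem r4173 : PImp [l2170, l2224, l1942, l2057, o7297] l4173 := rupP (by decide +kernel)
theorem r4174 : PImp [l1942, l2225, l2169, l2057, o7335] l4174 := rupP (by decide +kernel)
theorem r4175 : PImp [l2170, l2224, l1942, l2057, o8952] l4175 := rupP (by decide +kernel)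
theorem r4176 : PImp [l1942, l2057, l2170, l2224, o9130] l4176 := rupP (by decide +kernel)
theorem r4177 : PImp [l1896, l1942, o377] l4177 := rupP (by decide +kernel)
theorem r4178 : PImp [l1896, l1942, o378] l4178 := rupP (by decide +kernel)
theorem r4179 : PImp [l1912, l1941, o567] l4179 := rupP (by decide +kernel)
theorem r4180 : PImp [l1932, l1941, o579] l4180 := rupP (by decide +kernel)
theorem r4181 : PImp [l1932, l1941, o580] l4181 := rupP (by decide +kernel)
theorem r4182 : PImp [l1934, l1941, o583] l4182 := rupP (by decide +kernel)
theorem r4183 : PImp [l1941, l1936, o590] l4183 := rupP (by decide +kernel)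
theorem r4184 : PImp [l1850, l1941, o68] l4184 := rupP (by decide +kernel)
theorem r4185 : PImp [l1852, l1941, o69] l4185 := rupP (by decide +kernel)
theorem r4186 : PImp [l2222, l2055, l2167, l1941, o7064] l4186 := rupP (by decide +kernel)
theorem r4187 : PImp [l2167, l2055, l2223, l1941, o8902] l4187 := rupP (by decide +kernel)
theorem r4188 : PImp [l2168, l2055, l1941, l2222, o7309] l4188 := rupP (by decide +kernel)
theorem r4189 : PImp [l1941, l2168, l2223, l2055, o7207] l4189 := rupP (by decide +kernel)
theorem r4190 : PImp [l1938, l2165, l2053, o7145] l4190 := rupP (by decide +kernel)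
theorem r4191 : PImp [l1938, l2053, l2166, o7195] l4191 := rupP (by decide +kernel)
theorem r4192 : PImp [l1938, l2165, l2053, o7239] l4192 := rupP (by decide +kernel)
theorem r4193 : PImp [l2053, l1938, l2166, o7295] l4193 := rupP (by decide +kernel)
theorem r4194 : PImp [l1938, l2165, l2053, o7333] l4194 := rupP (by decide +kernel)
theorem r4195 : PImp [l1938, l2053, l2166, o7390] l4195 := rupP (by decide +kernel)
theorem r4196 : PImp [l1938, l2053, l2166, o8878] l4196 := rupP (by decide +kernel)
theorem r4197 : PImp [l1938, l2053, l2166, o8953] l4197 := rupP (by decide +kernel)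
theorem r4198 : PImp [l1938, l2053, l2166, o9041] l4198 := rupP (by decide +kernel)
theorem r4199 : PImp [l1909, l1936, o457] l4199 := rupP (by decide +kernel)
theorem r4200 : PImp [l1913, l1936, o458] l4200 := rupP (by decide +kernel)
theorem r4201 : PImp [l1915, l1936, o481] l4201 := rupP (by decide +kernel)
theorem r4202 : PImp [l1921, l1936, o482] l4202 := rupP (by decide +kernel)
theorem r4203 : PImp [l1925, l1936, o483] l4203 := rupP (by decide +kernel)
theorem r4204 : PImp [l1925, l1936, o484] l4204 := rupP (by decide +kernel)
theorem r4205 : PImp [l1925, l1936, o485] l4205 := rupP (by decide +kernel)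
theorem r4206 : PImp [l1925, l1936, o486] l4206 := rupP (by decide +kernel)
theorem r4207 : PImp [l1925, l1936, o487] l4207 := rupP (by decide +kernel)
theorem r4208 : PImp [l1936, l1927, o526] l4208 := rupP (by decide +kernel)
theorem r4209 : PImp [l1936, l1933, o527] l4209 := rupP (by decide +kernel)
theorem r4210 : PImp [l1952, l1936, l1933, o528] l4210 := rupP (by decide +kernel)
theorem r4211 : PImp [l1949, l1936, o599] l4211 := rupP (by decide +kernel)
theorem r4212 : PImp [l1949, l1936, o600] l4212 := rupP (by decide +kernel)
theorem r4213 : PImp [l1949, l1936, o601] l4213 := rupP (by decide +kernel)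
theorem r4214 : PImp [l1949, l1936, o602] l4214 := rupP (by decide +kernel)
theorem r4215 : PImp [l1949, l1936, o603] l4215 := rupP (by decide +kernel)
theorem r4216 : PImp [l1936, l2051, l2163, o7049] l4216 := rupP (by decide +kernel)
theorem r4217 : PImp [l1936, l2051, l2164, o7097] l4217 := rupP (by decide +kernel)
theorem r4218 : PImp [l2163, l1936, l2051, o7144] l4218 := rupP (by decide +kernel)
theorem r4219 : PImp [l1936, l2163, l2051, o7238] l4219 := rupP (by decide +kernel)
theorem r4220 : PImp [l2051, l2163, l1936, o8408] l4220 := rupP (by decide +kernel)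
theorem r4221 : PImp [l1936, l2163, l2051, o8552] l4221 := rupP (by decide +kernel)
theorem r4222 : PImp [l2164, l1936, l2051, o8618] l4222 := rupP (by decide +kernel)
theorem r4223 : PImp [l2163, l1936, l2051, o8710] l4223 := rupP (by decide +kernel)
theorem r4224 : PImp [l1936, l2051, l2164, o8781] l4224 := rupP (by decide +kernel)
theorem r4225 : PImp [l1936, l2163, l2051, o8841] l4225 := rupP (by decide +kernel)
theorem r4226 : PImp [l1896, l1936, o374] l4226 := rupP (by decide +kernel)
theorem r4227 : PImp [l1890, l1936, o372] l4227 := rupP (by decide +kernel)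
theorem r4228 : PImp [l1849, l1936, o87] l4228 := rupP (by decide +kernel)
theorem r4229 : PImp [l1849, l1936, o88] l4229 := rupP (by decide +kernel)
theorem r4230 : PImp [l1849, l1936, o89] l4230 := rupP (by decide +kernel)
theorem r4231 : PImp [l1849, l1936, o91] l4231 := rupP (by decide +kernel)
theorem r4232 : PImp [l1849, l1936, o92] l4232 := rupP (by decide +kernel)
theorem r4233 : PImp [l1849, l1936, o93] l4233 := rupP (by decide +kernel)
theorem r4234 : PImp [l1851, l1936, o94] l4234 := rupP (by decide +kernel)
theorem r4235 : PImp [l1919, l1934, o480] l4235 := rupP (by decide +kernel)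
theorem r4236 : PImp [l1931, l1934, o525] l4236 := rupP (by decide +kernel)
theorem r4237 : PImp [l2049, l1934, l2161, l2221, o8409] l4237 := rupP (by decide +kernel)
theorem r4238 : PImp [l2049, l2220, l2161, l1934, o8553] l4238 := rupP (by decide +kernel)
theorem r4239 : PImp [l2221, l1934, l2049, l2162, o8619] l4239 := rupP (by decide +kernel)
theorem r4240 : PImp [l2049, l2221, l2161, l1934, o8711] l4240 := rupP (by decide +kernel)
theorem r4241 : PImp [l2220, l1934, l2162, l2049, o8782] l4241 := rupP (by decide +kernel)
theorem r4242 : PImp [l2220, l2161, l2049, l1934, o8842] l4242 := rupP (by decide +kernel)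
theorem r4243 : PImp [l2047, l2160, l1932, o7194] l4243 := rupP (by decide +kernel)
theorem r4244 : PImp [l2160, l1932, l2047, o7294] l4244 := rupP (by decide +kernel)
theorem r4245 : PImp [l2160, l2047, l1932, o8318] l4245 := rupP (by decide +kernel)
theorem r4246 : PImp [l2159, l2047, l1932, o8410] l4246 := rupP (by decide +kernel)
theorem r4247 : PImp [l2160, l1932, l2047, o8474] l4247 := rupP (by decide +kernel)
theorem r4248 : PImp [l2047, l2160, l1932, o8620] l4248 := rupP (by decide +kernel)
theorem r4249 : PImp [l2047, l2159, l1932, o8712] l4249 := rupP (by decide +kernel)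
theorem r4250 : PImp [l2047, l2160, l1932, o8783] l4250 := rupP (by decide +kernel)
theorem r4251 : PImp [l2159, l2047, l1932, o8843] l4251 := rupP (by decide +kernel)
theorem r4252 : PImp [l2217, l2043, l1928, l2156, o7389] l4252 := rupP (by decide +kernel)
theorem r4253 : PImp [l2043, l1928, l2156, l2217, o8320] l4253 := rupP (by decide +kernel)
theorem r4254 : PImp [l2155, l1928, l2217, l2043, o8412] l4254 := rupP (by decide +kernel)
theorem r4255 : PImp [l2216, l2155, l1928, l2043, o8555] l4255 := rupP (by decide +kernel)
theorem r4256 : PImp [l2155, l2217, l2043, l1928, o8714] l4256 := rupP (by decide +kernel)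
theorem r4257 : PImp [l1909, l1924, o452] l4257 := rupP (by decide +kernel)
theorem r4258 : PImp [l1909, l1924, o453] l4258 := rupP (by decide +kernel)
theorem r4259 : PImp [l1924, l1933, o520] l4259 := rupP (by decide +kernel)
theorem r4260 : PImp [l1924, l1933, o521] l4260 := rupP (by decide +kernel)
theorem r4261 : PImp [l1924, l1933, o522] l4261 := rupP (by decide +kernel)
theorem r4262 : PImp [l1924, l1937, o524] l4262 := rupP (by decide +kernel)
theorem r4263 : PImp [l2152, l1924, l2039, o7096] l4263 := rupP (by decide +kernel)
theorem r4264 : PImp [l2039, l2151, l1924, o7143] l4264 := rupP (by decide +kernel)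
theorem r4265 : PImp [l1924, l2151, l2039, o7237] l4265 := rupP (by decide +kernel)
theorem r4266 : PImp [l2152, l1924, l2039, o7678] l4266 := rupP (by decide +kernel)
theorem r4267 : PImp [l2039, l1924, l2151, o7758] l4267 := rupP (by decide +kernel)
theorem r4268 : PImp [l2152, l1924, l2039, o7836] l4268 := rupP (by decide +kernel)
theorem r4269 : PImp [l1924, l2151, l2039, o7934] l4269 := rupP (by decide +kernel)
theorem r4270 : PImp [l1924, l2038, l2151, o7973] l4270 := rupP (by decide +kernel)
theorem r4271 : PImp [l2152, l1924, l2039, o8007] l4271 := rupP (by decide +kernel)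
theorem r4272 : PImp [l1924, l2039, l2151, o8100] l4272 := rupP (by decide +kernel)
theorem r4273 : PImp [l2152, l2039, l1924, o8171] l4273 := rupP (by decide +kernel)
theorem r4274 : PImp [l1924, l2039, l2151, o8259] l4274 := rupP (by decide +kernel)
theorem r4275 : PImp [l1911, l1922, o451] l4275 := rupP (by decide +kernel)
theorem r4276 : PImp [l1913, l1922, o454] l4276 := rupP (by decide +kernel)
theorem r4277 : PImp [l1913, l1922, o455] l4277 := rupP (by decide +kernel)
theorem r4278 : PImp [l1919, l1922, o476] l4278 := rupP (by decide +kernel)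
theorem r4279 : PImp [l1922, l1927, o513] l4279 := rupP (by decide +kernel)
theorem r4280 : PImp [l1922, l1929, o514] l4280 := rupP (by decide +kernel)
theorem r4281 : PImp [l1922, l1933, o515] l4281 := rupP (by decide +kernel)
theorem r4282 : PImp [l1922, l1933, o516] l4282 := rupP (by decide +kernel)
theorem r4283 : PImp [l1922, l1935, o517] l4283 := rupP (by decide +kernel)
theorem r4284 : PImp [l1922, l1935, o518] l4284 := rupP (by decide +kernel)
theorem r4285 : PImp [l1922, l1937, o523] l4285 := rupP (by decide +kernel)
theorem r4286 : PImp [l2150, l1922, l2215, l2037, o7679] l4286 := rupP (by decide +kernel)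
theorem r4287 : PImp [l2215, l1922, l2037, l2149, o8101] l4287 := rupP (by decide +kernel)
theorem r4288 : PImp [l1922, l2037, l2214, l2149, o8260] l4288 := rupP (by decide +kernel)
theorem r4289 : PImp [l2148, l1921, l2035, o8157] l4289 := rupP (by decide +kernel)
theorem r4290 : PImp [l1921, l2035, l2147, o8244] l4290 := rupP (by decide +kernel)
theorem r4291 : PImp [l2035, l1921, l2147, o8078] l4291 := rupP (by decide +kernel)
theorem r4292 : PImp [l2148, l2035, l1921, o7991] l4292 := rupP (by decide +kernel)
theorem r4293 : PImp [l2146, l1918, l2033, l2213, o7387] l4293 := rupP (by decide +kernel)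
theorem r4294 : PImp [l1918, l2213, l2033, l2145, o7759] l4294 := rupP (by decide +kernel)
theorem r4295 : PImp [l1918, l2032, l2212, l2145, o7974] l4295 := rupP (by decide +kernel)
theorem r4296 : PImp [l1918, l2033, l2145, l2213, o8103] l4296 := rupP (by decide +kernel)
theorem r4297 : PImp [l2146, l2033, l1918, l2212, o8173] l4297 := rupP (by decide +kernel)
theorem r4298 : PImp [l1912, l1917, o475] l4298 := rupP (by decide +kernel)
theorem r4299 : PImp [l2031, l1917, l2210, l2143, o8246] l4299 := rupP (by decide +kernel)
theorem r4300 : PImp [l2031, l2143, l1917, l2211, o8080] l4300 := rupP (by decide +kernel)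
theorem r4301 : PImp [l2144, l2031, l1917, l2211, o7993] l4301 := rupP (by decide +kernel)
theorem r4302 : PImp [l1912, l1909, o442] l4302 := rupP (by decide +kernel)
theorem r4303 : PImp [l1912, l1927, o501] l4303 := rupP (by decide +kernel)
theorem r4304 : PImp [l1912, l1933, o502] l4304 := rupP (by decide +kernel)
theorem r4305 : PImp [l1912, l1933, o503] l4305 := rupP (by decide +kernel)
theorem r4306 : PImp [l2139, l1912, l2027, o7046] l4306 := rupP (by decide +kernel)
theorem r4307 : PImp [l2027, l2140, l1912, o7094] l4307 := rupP (by decide +kernel)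
theorem r4308 : PImp [l2139, l2027, l1912, o7236] l4308 := rupP (by decide +kernel)
theorem r4309 : PImp [l2139, l2027, l1912, o7507] l4309 := rupP (by decide +kernel)
theorem r4310 : PImp [l2027, l2140, l1912, o7535] l4310 := rupP (by decide +kernel)
theorem r4311 : PImp [l2139, l1912, l2027, o7581] l4311 := rupP (by decide +kernel)
theorem r4312 : PImp [l2027, l2139, l1912, o7653] l4312 := rupP (by decide +kernel)
theorem r4313 : PImp [l1849, l1912, o71] l4313 := rupP (by decide +kernel)
theorem r4314 : PImp [l1849, l1912, o72] l4314 := rupP (by decide +kernel)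
theorem r4315 : PImp [l1901, l1927, o368] l4315 := rupP (by decide +kernel)
theorem r4316 : PImp [l1901, l1939, o371] l4316 := rupP (by decide +kernel)
theorem r4317 : PImp [l2202, l2014, l1901, l2127, o6809] l4317 := rupP (by decide +kernel)
theorem r4318 : PImp [l1901, l2203, l2014, l2127, o6842] l4318 := rupP (by decide +kernel)
theorem r4319 : PImp [l2202, l2014, l1901, l2127, o6908] l4319 := rupP (by decide +kernel)
theorem r4320 : PImp [l2203, l2014, l1901, l2127, o6965] l4320 := rupP (by decide +kernel)
theorem r4321 : PImp [l2202, l2014, l1901, l2127, o7189] l4321 := rupP (by decide +kernel)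
theorem r4322 : PImp [l1901, l1853, o46] l4322 := rupP (by decide +kernel)
theorem r4323 : PImp [l1901, l1859, o51] l4323 := rupP (by decide +kernel)
theorem r4324 : PImp [l2200, l1899, l2125, l2012, o6808] l4324 := rupP (by decide +kernel)
theorem r4325 : PImp [l2012, l2201, l1899, l2125, o6841] l4325 := rupP (by decide +kernel)
theorem r4326 : PImp [l2012, l2201, l1899, l2126, o6879] l4326 := rupP (by decide +kernel)
theorem r4327 : PImp [l2200, l1899, l2125, l2012, o6907] l4327 := rupP (by decide +kernel)
theorem r4328 : PImp [l2200, l1899, l2126, l2012, o6942] l4328 := rupP (by decide +kernel)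
theorem r4329 : PImp [l2201, l1899, l2126, l2012, o7007] l4329 := rupP (by decide +kernel)
theorem r4330 : PImp [l2012, l1899, l2201, l2126, o7234] l4330 := rupP (by decide +kernel)
theorem r4331 : PImp [l2200, l1899, l2125, l2012, o7383] l4331 := rupP (by decide +kernel)
theorem r4332 : PImp [l2010, l2123, l1897, o6807] l4332 := rupP (by decide +kernel)
theorem r4333 : PImp [l2010, l1897, l2124, o6825] l4333 := rupP (by decide +kernel)
theorem r4334 : PImp [l2010, l1897, l2123, o6840] l4334 := rupP (by decide +kernel)
theorem r4335 : PImp [l2010, l1897, l2124, o6878] l4335 := rupP (by decide +kernel)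
theorem r4336 : PImp [l2010, l2123, l1897, o6906] l4336 := rupP (by decide +kernel)
theorem r4337 : PImp [l2010, l1897, l2124, o6941] l4337 := rupP (by decide +kernel)
theorem r4338 : PImp [l2010, l2123, l1897, o6964] l4338 := rupP (by decide +kernel)
theorem r4339 : PImp [l2010, l1897, l2124, o7006] l4339 := rupP (by decide +kernel)
theorem r4340 : PImp [l2010, l1897, l2124, o7139] l4340 := rupP (by decide +kernel)
theorem r4341 : PImp [l2010, l2123, l1897, o7190] l4341 := rupP (by decide +kernel)
theorem r4342 : PImp [l2010, l1897, l2124, o7235] l4342 := rupP (by decide +kernel)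
theorem r4343 : PImp [l2010, l2123, l1897, o7384] l4343 := rupP (by decide +kernel)
theorem r4344 : PImp [l1895, l1896, o363] l4344 := rupP (by decide +kernel)
theorem r4345 : PImp [l1895, l1927, o366] l4345 := rupP (by decide +kernel)
theorem r4346 : PImp [l1895, l1927, o367] l4346 := rupP (by decide +kernel)
theorem r4347 : PImp [l1895, l1939, o370] l4347 := rupP (by decide +kernel)
theorem r4348 : PImp [l1895, l2199, l2008, l2121, o6839] l4348 := rupP (by decide +kernel)
theorem r4349 : PImp [l1895, l2199, l2122, l2008, o6877] l4349 := rupP (by decide +kernel)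
theorem r4350 : PImp [l2198, l1895, l2122, l2008, o6940] l4350 := rupP (by decide +kernel)
theorem r4351 : PImp [l2199, l1895, l2121, l2008, o6963] l4351 := rupP (by decide +kernel)
theorem r4352 : PImp [l2199, l1895, l2122, l2008, o7005] l4352 := rupP (by decide +kernel)
theorem r4353 : PImp [l2198, l1895, l2121, l2008, o7191] l4353 := rupP (by decide +kernel)
theorem r4354 : PImp [l2008, l2199, l1895, l2121, o7290] l4354 := rupP (by decide +kernel)
theorem r4355 : PImp [l1895, l1853, o45] l4355 := rupP (by decide +kernel)
theorem r4356 : PImp [l1895, l1849, o48] l4356 := rupP (by decide +kernel)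
theorem r4357 : PImp [l1895, l1853, o50] l4357 := rupP (by decide +kernel)
theorem r4358 : PImp [l2006, l1893, l2120, o6876] l4358 := rupP (by decide +kernel)
theorem r4359 : PImp [l2006, l1893, l2120, o6939] l4359 := rupP (by decide +kernel)
theorem r4360 : PImp [l2006, l2119, l1893, o6962] l4360 := rupP (by decide +kernel)
theorem r4361 : PImp [l2006, l1893, l2120, o7004] l4361 := rupP (by decide +kernel)
theorem r4362 : PImp [l2006, l1893, l2120, o7043] l4362 := rupP (by decide +kernel)
theorem r4363 : PImp [l1891, l1939, o369] l4363 := rupP (by decide +kernel)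
theorem r4364 : PImp [l2004, l1891, l2118, o6875] l4364 := rupP (by decide +kernel)
theorem r4365 : PImp [l2004, l1891, l2118, o7003] l4365 := rupP (by decide +kernel)
theorem r4366 : PImp [l2004, l1891, l2118, o7044] l4366 := rupP (by decide +kernel)
theorem r4367 : PImp [l1891, l1849, o42] l4367 := rupP (by decide +kernel)
theorem r4368 : PImp [l1891, l1849, o43] l4368 := rupP (by decide +kernel)
theorem r4369 : PImp [l1891, l1849, o44] l4369 := rupP (by decide +kernel)
theorem r4370 : PImp [l1891, l1849, o47] l4370 := rupP (by decide +kernel)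
theorem r4371 : PImp [l1891, l1849, o49] l4371 := rupP (by decide +kernel)
theorem r4372 : PImp [l2003, l1889, o6390] l4372 := rupP (by decide +kernel)
theorem r4373 : PImp [l2002, l1889, o6332] l4373 := rupP (by decide +kernel)
theorem r4374 : PImp [l2002, l1889, o6417] l4374 := rupP (by decide +kernel)
theorem r4375 : PImp [l2002, l1889, o6569] l4375 := rupP (by decide +kernel)
theorem r4376 : PImp [l2002, l1889, o6699] l4376 := rupP (by decide +kernel)
theorem r4377 : PImp [l2002, l1889, o9000] l4377 := rupP (by decide +kernel)
theorem r4378 : PImp [l1889, l2002, o9091] l4378 := rupP (by decide +kernel)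
theorem r4379 : PImp [l1889, l2002, o6373] l4379 := rupP (by decide +kernel)
theorem r4380 : PImp [l2002, l1889, o6496] l4380 := rupP (by decide +kernel)
theorem r4381 : PImp [l1889, l2002, o6627] l4381 := rupP (by decide +kernel)
theorem r4382 : PImp [l2002, l1889, o6767] l4382 := rupP (by decide +kernel)
theorem r4383 : PImp [l1889, l2002, o8881] l4383 := rupP (by decide +kernel)
theorem r4384 : PImp [l1889, l2002, o8959] l4384 := rupP (by decide +kernel)
theorem r4385 : PImp [l2115, l2000, l1887, o6416] l4385 := rupP (by decide +kernel)
theorem r4386 : PImp [l2115, l1887, l2000, o6568] l4386 := rupP (by decide +kernel)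
theorem r4387 : PImp [l2000, l1887, l2116, o6372] l4387 := rupP (by decide +kernel)
theorem r4388 : PImp [l2116, l2000, l1887, o6495] l4388 := rupP (by decide +kernel)
theorem r4389 : PImp [l2000, l1887, l2116, o6626] l4389 := rupP (by decide +kernel)
theorem r4390 : PImp [l2116, l1887, l2000, o6766] l4390 := rupP (by decide +kernel)
theorem r4391 : PImp [l2116, l2000, l1887, o9046] l4391 := rupP (by decide +kernel)
theorem r4392 : PImp [l1885, o343] l4392 := rupP (by decide +kernel)
theorem r4393 : PImp [l1999, l1885, o6389] l4393 := rupP (by decide +kernel)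
theorem r4394 : PImp [l1885, l1998, o6331] l4394 := rupP (by decide +kernel)
theorem r4395 : PImp [l1885, l1998, o6415] l4395 := rupP (by decide +kernel)
theorem r4396 : PImp [l1885, l1998, o6567] l4396 := rupP (by decide +kernel)
theorem r4397 : PImp [l1998, l1885, o6697] l4397 := rupP (by decide +kernel)
theorem r4398 : PImp [l1998, l1885, o6371] l4398 := rupP (by decide +kernel)
theorem r4399 : PImp [l1998, l1885, o6494] l4399 := rupP (by decide +kernel)
theorem r4400 : PImp [l1885, l1998, o6625] l4400 := rupP (by decide +kernel)
theorem r4401 : PImp [l1885, l1998, o6765] l4401 := rupP (by decide +kernel)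
theorem r4402 : PImp [l1885, l1998, o8882] l4402 := rupP (by decide +kernel)
theorem r4403 : PImp [l2113, o6414] l4403 := rupP (by decide +kernel)
theorem r4404 : PImp [l2113, o6566] l4404 := rupP (by decide +kernel)
theorem r4405 : PImp [l2114, o6370] l4405 := rupP (by decide +kernel)
theorem r4406 : PImp [l2114, o6493] l4406 := rupP (by decide +kernel)
theorem r4407 : PImp [l2114, o6624] l4407 := rupP (by decide +kernel)
theorem r4408 : PImp [l2114, o6764] l4408 := rupP (by decide +kernel)
theorem r4409 : PImp [l2114, o8883] l4409 := rupP (by decide +kernel)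
theorem r4410 : PImp [l2114, o9048] l4410 := rupP (by decide +kernel)
theorem r4411 : PImp [l2112, o6388] l4411 := rupP (by decide +kernel)
theorem r4412 : PImp [l2111, o6329] l4412 := rupP (by decide +kernel)
theorem r4413 : PImp [l2111, o6413] l4413 := rupP (by decide +kernel)
theorem r4414 : PImp [l2111, o6695] l4414 := rupP (by decide +kernel)
theorem r4415 : PImp [l2112, o6369] l4415 := rupP (by decide +kernel)
theorem r4416 : PImp [l2112, o6492] l4416 := rupP (by decide +kernel)
theorem r4417 : PImp [l2112, o6623] l4417 := rupP (by decide +kernel)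
theorem r4418 : PImp [l2112, o6763] l4418 := rupP (by decide +kernel)
theorem r4419 : PImp [l2112, o8960] l4419 := rupP (by decide +kernel)
theorem r4420 : PImp [l2112, o9049] l4420 := rupP (by decide +kernel)
theorem r4421 : PImp [l1883, o27] l4421 := rupP (by decide +kernel)
theorem r4422 : PImp [l1883, o32] l4422 := rupP (by decide +kernel)
theorem r4423 : PImp [l1883, l1996, o8729] l4423 := rupP (by decide +kernel)
theorem r4424 : PImp [l1883, l1996, o6490] l4424 := rupP (by decide +kernel)
theorem r4425 : PImp [l1883, l1996, o8330] l4425 := rupP (by decide +kernel)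
theorem r4426 : PImp [l1883, l1996, o8486] l4426 := rupP (by decide +kernel)
theorem r4427 : PImp [l1883, l1996, o8635] l4427 := rupP (by decide +kernel)
theorem r4428 : PImp [l1883, o308] l4428 := rupP (by decide +kernel)
theorem r4429 : PImp [l1881, l1994, l2110, o8331] l4429 := rupP (by decide +kernel)
theorem r4430 : PImp [l1881, l2110, l1994, o8487] l4430 := rupP (by decide +kernel)
theorem r4431 : PImp [l1881, l1994, l2110, o8636] l4431 := rupP (by decide +kernel)
theorem r4432 : PImp [l1879, o28] l4432 := rupP (by decide +kernel)
theorem r4433 : PImp [l1879, o30] l4433 := rupP (by decide +kernel)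
theorem r4434 : PImp [l1879, o31] l4434 := rupP (by decide +kernel)
theorem r4435 : PImp [l1879, o34] l4435 := rupP (by decide +kernel)
theorem r4436 : PImp [l1992, l1879, o6489] l4436 := rupP (by decide +kernel)
theorem r4437 : PImp [l1992, l1879, o8637] l4437 := rupP (by decide +kernel)
theorem r4438 : PImp [l1879, o298] l4438 := rupP (by decide +kernel)
theorem r4439 : PImp [l2108, o6488] l4439 := rupP (by decide +kernel)
theorem r4440 : PImp [l2108, o6622] l4440 := rupP (by decide +kernel)
theorem r4441 : PImp [l2108, o8332] l4441 := rupP (by decide +kernel)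
theorem r4442 : PImp [l2108, o8488] l4442 := rupP (by decide +kernel)
theorem r4443 : PImp [l2108, o8638] l4443 := rupP (by decide +kernel)
theorem r4444 : PImp [l2108, o6659] l4444 := rupP (by decide +kernel)
theorem r4445 : PImp [l2106, o8333] l4445 := rupP (by decide +kernel)
theorem r4446 : PImp [l2106, o8639] l4446 := rupP (by decide +kernel)
theorem r4447 : PImp [l2106, o6658] l4447 := rupP (by decide +kernel)
theorem r4448 : PImp [l1877, l1990, o6565] l4448 := rupP (by decide +kernel)
theorem r4449 : PImp [l1990, l1877, o7948] l4449 := rupP (by decide +kernel)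
theorem r4450 : PImp [l1990, l1877, o8116] l4450 := rupP (by decide +kernel)
theorem r4451 : PImp [l1990, l1877, o8273] l4451 := rupP (by decide +kernel)
theorem r4452 : PImp [l1877, l1990, o6760] l4452 := rupP (by decide +kernel)
theorem r4453 : PImp [l1877, l1990, o7690] l4453 := rupP (by decide +kernel)
theorem r4454 : PImp [l1877, l1990, o7852] l4454 := rupP (by decide +kernel)
theorem r4455 : PImp [l1990, l1877, o8023] l4455 := rupP (by decide +kernel)
theorem r4456 : PImp [l1877, l1990, o8188] l4456 := rupP (by decide +kernel)
theorem r4457 : PImp [l1988, l1875, l2103, o8274] l4457 := rupP (by decide +kernel)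
theorem r4458 : PImp [l1986, l1873, o8275] l4458 := rupP (by decide +kernel)
theorem r4459 : PImp [l1873, l1986, o6759] l4459 := rupP (by decide +kernel)
theorem r4460 : PImp [l1986, l1873, o7691] l4460 := rupP (by decide +kernel)
theorem r4461 : PImp [l1873, l1986, o7853] l4461 := rupP (by decide +kernel)
theorem r4462 : PImp [l1986, l1873, o8024] l4462 := rupP (by decide +kernel)
theorem r4463 : PImp [l1873, o270] l4463 := rupP (by decide +kernel)
theorem r4464 : PImp [l2101, o8117] l4464 := rupP (by decide +kernel)
theorem r4465 : PImp [l2102, o6758] l4465 := rupP (by decide +kernel)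
theorem r4466 : PImp [l2102, o7692] l4466 := rupP (by decide +kernel)
theorem r4467 : PImp [l2102, o7854] l4467 := rupP (by decide +kernel)
theorem r4468 : PImp [l2102, o8025] l4468 := rupP (by decide +kernel)
theorem r4469 : PImp [l2102, o8189] l4469 := rupP (by decide +kernel)
theorem r4470 : PImp [l2099, o7776] l4470 := rupP (by decide +kernel)
theorem r4471 : PImp [l2099, o8118] l4471 := rupP (by decide +kernel)
theorem r4472 : PImp [l2099, o8276] l4472 := rupP (by decide +kernel)
theorem r4473 : PImp [l2100, o6757] l4473 := rupP (by decide +kernel)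
theorem r4474 : PImp [l2100, o7693] l4474 := rupP (by decide +kernel)
theorem r4475 : PImp [l2100, o7855] l4475 := rupP (by decide +kernel)
theorem r4476 : PImp [l2100, o8026] l4476 := rupP (by decide +kernel)
theorem r4477 : PImp [l2100, o8190] l4477 := rupP (by decide +kernel)
theorem r4478 : PImp [l1871, l1984, o7405] l4478 := rupP (by decide +kernel)
theorem r4479 : PImp [l1871, l1984, o7539] l4479 := rupP (by decide +kernel)
theorem r4480 : PImp [l1871, l1984, o7615] l4480 := rupP (by decide +kernel)
theorem r4481 : PImp [l1869, l2098, l1983, o7540] l4481 := rupP (by decide +kernel)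
theorem r4482 : PImp [l1981, l1868, o6484] l4482 := rupP (by decide +kernel)
theorem r4483 : PImp [l1981, l1868, o6755] l4483 := rupP (by decide +kernel)
theorem r4484 : PImp [l1981, l1868, o7406] l4484 := rupP (by decide +kernel)
theorem r4485 : PImp [l1868, l1981, o7468] l4485 := rupP (by decide +kernel)
theorem r4486 : PImp [l1868, l1981, o7541] l4486 := rupP (by decide +kernel)
theorem r4487 : PImp [l1868, o247] l4487 := rupP (by decide +kernel)
theorem r4488 : PImp [l2096, o7407] l4488 := rupP (by decide +kernel)
theorem r4489 : PImp [l2096, o7469] l4489 := rupP (by decide +kernel)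
theorem r4490 : PImp [l2096, o7542] l4490 := rupP (by decide +kernel)
theorem r4491 : PImp [l2096, o7616] l4491 := rupP (by decide +kernel)
theorem r4492 : PImp [l2094, o6621] l4492 := rupP (by decide +kernel)
theorem r4493 : PImp [l2094, o6754] l4493 := rupP (by decide +kernel)
theorem r4494 : PImp [l2094, o7408] l4494 := rupP (by decide +kernel)
theorem r4495 : PImp [l2094, o7470] l4495 := rupP (by decide +kernel)
theorem r4496 : PImp [l2094, o7543] l4496 := rupP (by decide +kernel)
theorem r4497 : PImp [l2094, o7617] l4497 := rupP (by decide +kernel)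
theorem r4498 : PImp [l1867, l1913, l989] l4498 := rupP (by decide +kernel)
theorem r4499 : PImp [l1866, l1979, o6826] l4499 := rupP (by decide +kernel)
theorem r4500 : PImp [l1861, l997] l4500 := rupP (by decide +kernel)
theorem r4501 : PImp [l1888, o104] l4501 := rupP (by decide +kernel)
theorem r4502 : PImp [l1888, o103] l4502 := rupP (by decide +kernel)
theorem r4503 : PImp [l1882, o85] l4503 := rupP (by decide +kernel)
theorem r4504 : PImp [l1882, o84] l4504 := rupP (by decide +kernel)
theorem r4505 : PImp [l1876, o77] l4505 := rupP (by decide +kernel)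
theorem r4506 : PImp [l1870, o70] l4506 := rupP (by decide +kernel)
theorem r4507 : PImp [l2188, l2086, l1858, l1972, o6160] l4507 := rupP (by decide +kernel)
theorem r4508 : PImp [l1970, l2084, l1856, o5907] l4508 := rupP (by decide +kernel)
theorem r4509 : PImp [l1856, l2084, l1970, o6024] l4509 := rupP (by decide +kernel)
theorem r4510 : PImp [l1970, l2084, l1856, o6159] l4510 := rupP (by decide +kernel)
theorem r4511 : PImp [l2186, l1854, l1968, l2082, o5906] l4511 := rupP (by decide +kernel)
theorem r4512 : PImp [l2187, l1854, l2082, l1968, o6023] l4512 := rupP (by decide +kernel)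
theorem r4513 : PImp [l2187, l2082, l1854, l1968, o6287] l4513 := rupP (by decide +kernel)
theorem r4514 : PImp [l2187, l1854, l2082, l1968, o7232] l4514 := rupP (by decide +kernel)
theorem r4515 : PImp [l1966, l2080, l1852, o5905] l4515 := rupP (by decide +kernel)
theorem r4516 : PImp [l1966, l2080, l1852, o6286] l4516 := rupP (by decide +kernel)
theorem r4517 : PImp [l2078, l1850, l1964, o5904] l4517 := rupP (by decide +kernel)
theorem r4518 : PImp [l1850, l2078, l1964, o6022] l4518 := rupP (by decide +kernel)
theorem r4519 : PImp [l2078, l1850, l1964, o6158] l4519 := rupP (by decide +kernel)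
theorem r4520 : PImp [l1964, l2078, l1850, o6285] l4520 := rupP (by decide +kernel)
theorem r4521 : PImp [l1964, l2078, l1850, o7042] l4521 := rupP (by decide +kernel)
theorem r4522 : PImp [l2078, l1850, l1964, o7138] l4522 := rupP (by decide +kernel)
theorem r4523 : PImp [l1850, l2078, l1964, o7233] l4523 := rupP (by decide +kernel)
theorem r4524 : PImp [l2078, l1850, l1964, o7331] l4524 := rupP (by decide +kernel)
theorem r4525 : PImp [l1845, l1008] l4525 := rupP (by decide +kernel)
theorem r4526 : PImp [l1847, l1009] l4526 := rupP (by decide +kernel)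
theorem r4527 : PImp [l2076, o5902] l4527 := rupP (by decide +kernel)
theorem r4528 : PImp [l2076, o6020] l4528 := rupP (by decide +kernel)
theorem r4529 : PImp [l2076, o6156] l4529 := rupP (by decide +kernel)
theorem r4530 : PImp [l2074, l1848, l1962, o5901] l4530 := rupP (by decide +kernel)
theorem r4531 : PImp [l2074, l1962, l1848, o6019] l4531 := rupP (by decide +kernel)
theorem r4532 : PImp [l2074, l1848, l1962, o6155] l4532 := rupP (by decide +kernel)
theorem r4533 : PImp [l1846, l1960, o5900] l4533 := rupP (by decide +kernel)
theorem r4534 : PImp [l1846, l1960, o6018] l4534 := rupP (by decide +kernel)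
theorem r4535 : PImp [l1960, l1846, o6154] l4535 := rupP (by decide +kernel)
theorem r4536 : PImp [l1846, l1960, o6284] l4536 := rupP (by decide +kernel)
theorem r4537 : PImp [l1846, l1960, o6334] l4537 := rupP (by decide +kernel)
theorem r4538 : PImp [l1960, l1846, o6420] l4538 := rupP (by decide +kernel)
theorem r4539 : PImp [l1846, l1960, o6572] l4539 := rupP (by decide +kernel)
theorem r4540 : PImp [l1846, l1960, o6702] l4540 := rupP (by decide +kernel)
theorem r4541 : PImp [l1846, l1961, o6183] l4541 := rupP (by decide +kernel)
theorem r4542 : PImp [l2072, o5899] l4542 := rupP (by decide +kernel)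
theorem r4543 : PImp [l2072, o6017] l4543 := rupP (by decide +kernel)
theorem r4544 : PImp [l2072, o6153] l4544 := rupP (by decide +kernel)
theorem r4545 : PImp [l2072, o6283] l4545 := rupP (by decide +kernel)
theorem r4546 : PImp [l2072, o6421] l4546 := rupP (by decide +kernel)
theorem r4547 : PImp [l1958, l1844, o5898] l4547 := rupP (by decide +kernel)
theorem r4548 : PImp [l1958, l1844, o6016] l4548 := rupP (by decide +kernel)
theorem r4549 : PImp [l1958, l1844, o6152] l4549 := rupP (by decide +kernel)
theorem r4550 : PImp [l1844, l1958, o6282] l4550 := rupP (by decide +kernel)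
theorem r4551 : PImp [l1958, l1844, o6335] l4551 := rupP (by decide +kernel)
theorem r4552 : PImp [l1844, l1958, o6422] l4552 := rupP (by decide +kernel)
theorem r4553 : PImp [l1844, l1958, o6574] l4553 := rupP (by decide +kernel)
theorem r4554 : PImp [l1958, l1844, o6703] l4554 := rupP (by decide +kernel)
theorem r4555 : PImp [l2235, o3638] l4555 := rupP (by decide +kernel)
theorem r4556 : PImp [l2067, o1547] l4556 := rupP (by decide +kernel)
theorem r4557 : PImp [l1951, o686] l4557 := rupP (by decide +kernel)
theorem r4558 : PImp [l2248, o5790] l4558 := rupP (by decide +kernel)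
theorem r4559 : PImp [l2247, l669] l4559 := rupP (by decide +kernel)
theorem r4560 : PImp [l2067, o1550] l4560 := rupP (by decide +kernel)
theorem r4561 : PImp [l2181, o2284] l4561 := rupP (by decide +kernel)
theorem r4562 : PImp [l2181, o2289] l4562 := rupP (by decide +kernel)
theorem r4563 : PImp [l2248, o5801] l4563 := rupP (by decide +kernel)
theorem r4564 : PImp [l2248, o5576] l4564 := rupP (by decide +kernel)
theorem r4565 : PImp [l2180, o2246] l4565 := rupP (by decide +kernel)
theorem r4566 : PImp [l1955, o670] l4566 := rupP (by decide +kernel)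
theorem r4567 : PImp [l1955, l670] l4567 := rupP (by decide +kernel)
theorem r4568 : PImp [l1955, o779] l4568 := rupP (by decide +kernel)
theorem r4569 : PImp [l2233, l2067, l2246, l1953, l2181, o8677] l4569 := rupP (by decide +kernel)
theorem r4570 : PImp [l2181, l2245, l2067, l1953, l2234, o8523] l4570 := rupP (by decide +kernel)
theorem r4571 : PImp [l2247, o5574] l4571 := rupP (by decide +kernel)
theorem r4572 : PImp [l2233, l2182, l2067, l2246, l1953, o8747] l4572 := rupP (by decide +kernel)
theorem r4573 : PImp [l2019, l2205, l2132, l1281] l4573 := rupP (by decide +kernel)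
theorem r4574 : PImp [l2131, l2019, l2205, l1904, o7439] l4574 := rupP (by decide +kernel)
theorem r4575 : PImp [l2131, l2205, l1904, l2019, o7585] l4575 := rupP (by decide +kernel)
theorem r4576 : PImp [l1927, l2041, l2154, o8597] l4576 := rupP (by decide +kernel)
theorem r4577 : PImp [l2023, l1909, l2136, o7527] l4577 := rupP (by decide +kernel)
theorem r4578 : PImp [l2017, l2130, l1903, o7530] l4578 := rupP (by decide +kernel)
theorem r4579 : PImp [l2017, l2130, l1903, o7303] l4579 := rupP (by decide +kernel)
theorem r4580 : PImp [l2141, l1915, l2029, o8247] l4580 := rupP (by decide +kernel)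
theorem r4581 : PImp [l2029, l2141, l1915, o8081] l4581 := rupP (by decide +kernel)
theorem r4582 : PImp [l1915, l2029, l2142, l602] l4582 := rupP (by decide +kernel)
theorem r4583 : PImp [l1915, l2029, l2142, o7994] l4583 := rupP (by decide +kernel)
theorem r4584 : PImp [l2029, l1915, l2142, o8158] l4584 := rupP (by decide +kernel)
theorem r4585 : PImp [l1915, l2029, l2142, o7820] l4585 := rupP (by decide +kernel)
theorem r4586 : PImp [l2021, l2134, l2207, l1907, l594] l4586 := rupP (by decide +kernel)
theorem r4587 : PImp [l1906, l1911, l1013] l4587 := rupP (by decide +kernel)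
theorem r4588 : PImp [l1906, l1913, l1014] l4588 := rupP (by decide +kernel)
theorem r4589 : PImp [l2153, l2041, l659] l4589 := rupP (by decide +kernel)
theorem r4590 : PImp [l2153, l1927, l2041, o8538] l4590 := rupP (by decide +kernel)
theorem r4591 : PImp [l2153, l2041, l1927, o8390] l4591 := rupP (by decide +kernel)
theorem r4592 : PImp [l2154, l1927, l2041, o7304] l4592 := rupP (by decide +kernel)
theorem r4593 : PImp [l2168, l2055, l2223, l1941, o9030] l4593 := rupP (by decide +kernel)
theorem r4594 : PImp [l1957, l2070, l2185, o7111] l4594 := rupP (by decide +kernel)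
theorem r4595 : PImp [l1957, l2070, l2185, o7124] l4595 := rupP (by decide +kernel)
theorem r4596 : PImp [l1957, l2070, l2185, o7312] l4596 := rupP (by decide +kernel)
theorem r4597 : PImp [l1957, l2070, l2185, o7322] l4597 := rupP (by decide +kernel)
theorem r4598 : PImp [l2069, l2184, l1957, o7103] l4598 := rupP (by decide +kernel)
theorem r4599 : PImp [l2069, l2184, l1957, o7136] l4599 := rupP (by decide +kernel)
theorem r4600 : PImp [l2069, l2184, l1957, o7201] l4600 := rupP (by decide +kernel)
theorem r4601 : PImp [l2069, l2184, l1957, o7230] l4601 := rupP (by decide +kernel)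
theorem r4602 : PImp [l2069, l2184, l1957, o7301] l4602 := rupP (by decide +kernel)
theorem r4603 : PImp [l2069, l2184, l1957, o7394] l4603 := rupP (by decide +kernel)
theorem r4604 : PImp [l2069, l2185, l1957, o7056] l4604 := rupP (by decide +kernel)
theorem r4605 : PImp [l2069, l2185, l1957, o7091] l4605 := rupP (by decide +kernel)
theorem r4606 : PImp [l2069, l2185, l1957, o7152] l4606 := rupP (by decide +kernel)
theorem r4607 : PImp [l2069, l2185, l1957, o7187] l4607 := rupP (by decide +kernel)
theorem r4608 : PImp [l2069, l2185, l1957, o7246] l4608 := rupP (by decide +kernel)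
theorem r4609 : PImp [l2069, l2185, l1957, o7287] l4609 := rupP (by decide +kernel)
theorem r4610 : PImp [l2069, l2185, l1957, o7340] l4610 := rupP (by decide +kernel)
theorem r4611 : PImp [l2069, l2185, l1957, o7381] l4611 := rupP (by decide +kernel)
theorem r4612 : PImp [l2219, l1931, l2045, l2158, o7204] l4612 := rupP (by decide +kernel)
theorem r4613 : PImp [l2219, l1931, l2158, l2045, o8595] l4613 := rupP (by decide +kernel)
theorem r4614 : PImp [l2218, l2045, l1931, l2158, o8759] l4614 := rupP (by decide +kernel)
theorem r4615 : PImp [l2045, l1931, l2218, l2158, o8453] l4615 := rupP (by decide +kernel)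
theorem r4616 : PImp [l2045, l2219, l1931, l2158, l624] l4616 := rupP (by decide +kernel)
theorem r4617 : PImp [l2219, l2157, l1931, l2045, o8693] l4617 := rupP (by decide +kernel)
theorem r4618 : PImp [l2230, l2239, l1019] l4618 := rupP (by decide +kernel)
theorem r4619 : PImp [l2230, l2239, l1020] l4619 := rupP (by decide +kernel)
theorem r4620 : PImp [l2173, l2226, l1947, l2061, o8981] l4620 := rupP (by decide +kernel)
theorem r4621 : PImp [l2057, l2224, l2169, l1943, o8982] l4621 := rupP (by decide +kernel)
theorem r4622 : PImp [l2053, l1939, l2165, o8983] l4622 := rupP (by decide +kernel)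
theorem r4623 : PImp [l2049, l2161, l2220, l1935, o8534] l4623 := rupP (by decide +kernel)
theorem r4624 : PImp [l2155, l2216, l1929, l2043, o8537] l4624 := rupP (by decide +kernel)
theorem r4625 : PImp [l2152, l2038, l1925, o7857] l4625 := rupP (by decide +kernel)
theorem r4626 : PImp [l2150, l2036, l2214, l1923, o7858] l4626 := rupP (by decide +kernel)
theorem r4627 : PImp [l2214, l1923, l2149, l2036, o7950] l4627 := rupP (by decide +kernel)
theorem r4628 : PImp [l2146, l2032, l2212, l1919, o7860] l4628 := rupP (by decide +kernel)
theorem r4629 : PImp [l2212, l1919, l2145, l2032, o7951] l4629 := rupP (by decide +kernel)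
theorem r4630 : PImp [l2059, l2172, l1945, o9028] l4630 := rupP (by decide +kernel)
theorem r4631 : PImp [l2225, l2057, l1943, l2170, o9029] l4631 := rupP (by decide +kernel)
theorem r4632 : PImp [l2221, l1935, l2049, l2162, o8593] l4632 := rupP (by decide +kernel)
theorem r4633 : PImp [l1929, l2043, l2217, l2156, o8596] l4633 := rupP (by decide +kernel)
theorem r4634 : PImp [l2202, l1900, l2014, l2127, o6902] l4634 := rupP (by decide +kernel)
theorem r4635 : PImp [l2200, l1898, l2012, l2125, o6901] l4635 := rupP (by decide +kernel)
theorem r4636 : PImp [l2123, l1896, l2010, o6900] l4636 := rupP (by decide +kernel)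
theorem r4637 : PImp [l1889, l2003, o9109] l4637 := rupP (by decide +kernel)
theorem r4638 : PImp [l1999, l1885, l1418] l4638 := rupP (by decide +kernel)
theorem r4639 : PImp [l2112, o6664] l4639 := rupP (by decide +kernel)
theorem r4640 : PImp [l2112, o8937] l4640 := rupP (by decide +kernel)
theorem r4641 : PImp [l1883, l1997, o6662] l4641 := rupP (by decide +kernel)
theorem r4642 : PImp [l1883, l1997, o8754] l4642 := rupP (by decide +kernel)
theorem r4643 : PImp [l1881, l1995, l2110, o6661] l4643 := rupP (by decide +kernel)
theorem r4644 : PImp [l1881, l2110, l1995, o8447] l4644 := rupP (by decide +kernel)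
theorem r4645 : PImp [l1879, l1993, o6660] l4645 := rupP (by decide +kernel)
theorem r4646 : PImp [l1879, l1993, o8448] l4646 := rupP (by decide +kernel)
theorem r4647 : PImp [l2108, o8449] l4647 := rupP (by decide +kernel)
theorem r4648 : PImp [l1877, l1991, o7814] l4648 := rupP (by decide +kernel)
theorem r4649 : PImp [l1877, l1991, o8151] l4649 := rupP (by decide +kernel)
theorem r4650 : PImp [l2104, l1875, l1989, o8152] l4650 := rupP (by decide +kernel)
theorem r4651 : PImp [l1873, l1987, o7815] l4651 := rupP (by decide +kernel)
theorem r4652 : PImp [l2102, o8153] l4652 := rupP (by decide +kernel)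
theorem r4653 : PImp [l2100, o8154] l4653 := rupP (by decide +kernel)
theorem r4654 : PImp [l2196, l1249] l4654 := rupP (by decide +kernel)
theorem r4655 : PImp [l2196, l1250] l4655 := rupP (by decide +kernel)
theorem r4656 : PImp [l2194, l1251] l4656 := rupP (by decide +kernel)
theorem r4657 : PImp [l1947, l2227, l2061, l2174, o7209] l4657 := rupP (by decide +kernel)
theorem r4658 : PImp [l2057, l1943, l2224, l2170, o7310] l4658 := rupP (by decide +kernel)
theorem r4659 : PImp [l1937, l2051, l2164, o8756] l4659 := rupP (by decide +kernel)
theorem r4660 : PImp [l1937, l2164, l2051, o7307] l4660 := rupP (by decide +kernel)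
theorem r4661 : PImp [l1933, l2047, l2160, o7205] l4661 := rupP (by decide +kernel)
theorem r4662 : PImp [l2160, l2047, l1933, o8758] l4662 := rupP (by decide +kernel)
theorem r4663 : PImp [l1933, l2047, l2160, o7306] l4663 := rupP (by decide +kernel)
theorem r4664 : PImp [l2160, l2047, l1933, o8452] l4664 := rupP (by decide +kernel)
theorem r4665 : PImp [l1929, l2043, l2156, l2217, o7203] l4665 := rupP (by decide +kernel)
theorem r4666 : PImp [l2216, l1929, l2043, l2156, o7305] l4666 := rupP (by decide +kernel)
theorem r4667 : PImp [l2152, l2039, l1925, o8156] l4667 := rupP (by decide +kernel)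
theorem r4668 : PImp [l2150, l2037, l2215, l1923, l599] l4668 := rupP (by decide +kernel)
theorem r4669 : PImp [l2146, l2033, l1919, l2213, o7992] l4669 := rupP (by decide +kernel)
theorem r4670 : PImp [l2146, l1919, l2213, l2033, l600] l4670 := rupP (by decide +kernel)
theorem r4671 : PImp [l2144, l1917, l2031, l2211, l601] l4671 := rupP (by decide +kernel)
theorem r4672 : PImp [l2012, l1898, l2201, l2125, o6958] l4672 := rupP (by decide +kernel)
theorem r4673 : PImp [l2123, l1896, l2010, o6957] l4673 := rupP (by decide +kernel)
theorem r4674 : PImp [l2119, l1892, l2006, o6956] l4674 := rupP (by decide +kernel)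
theorem r4675 : PImp [l1866, l1979, o6911] l4675 := rupP (by decide +kernel)
theorem r4676 : PImp [l1979, l1865, o6462] l4676 := rupP (by decide +kernel)
theorem r4677 : PImp [l1865, l1979, o6853] l4677 := rupP (by decide +kernel)
theorem r4678 : PImp [l2093, l1864, l1978, o6810] l4678 := rupP (by decide +kernel)
theorem r4679 : PImp [l1863, l2093, l1978, o6461] l4679 := rupP (by decide +kernel)
theorem r4680 : PImp [l1863, l2093, l1978, o6854] l4680 := rupP (by decide +kernel)
theorem r4681 : PImp [l1862, l1976, o6811] l4681 := rupP (by decide +kernel)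
theorem r4682 : PImp [l1861, l1976, o6855] l4682 := rupP (by decide +kernel)
theorem r4683 : PImp [l1861, l1976, o6920] l4683 := rupP (by decide +kernel)
theorem r4684 : PImp [l1861, l1976, o6979] l4684 := rupP (by decide +kernel)
theorem r4685 : PImp [l2091, o6844] l4685 := rupP (by decide +kernel)
theorem r4686 : PImp [l2091, o6921] l4686 := rupP (by decide +kernel)
theorem r4687 : PImp [l2091, o6980] l4687 := rupP (by decide +kernel)
theorem r4688 : PImp [l2089, o6812] l4688 := rupP (by decide +kernel)
theorem r4689 : PImp [l2089, o6817] l4689 := rupP (by decide +kernel)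
theorem r4690 : PImp [l2190, l1860, l2087, l1974, o5861] l4690 := rupP (by decide +kernel)
theorem r4691 : PImp [l2087, l1860, l2191, l1974, o5960] l4691 := rupP (by decide +kernel)
theorem r4692 : PImp [l2190, l2087, l1860, l1974, o6087] l4692 := rupP (by decide +kernel)
theorem r4693 : PImp [l2191, l2087, l1860, l1974, o6223] l4693 := rupP (by decide +kernel)
theorem r4694 : PImp [l2190, l2087, l1859, l1974, l511] l4694 := rupP (by decide +kernel)
theorem r4695 : PImp [l2191, l2087, l1859, l1974, o5946] l4695 := rupP (by decide +kernel)
theorem r4696 : PImp [l2190, l1859, l1974, l2087, o6073] l4696 := rupP (by decide +kernel)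
theorem r4697 : PImp [l2191, l1859, l1974, l2087, o6206] l4697 := rupP (by decide +kernel)
theorem r4698 : PImp [l2189, l2085, l1858, l1972, o6222] l4698 := rupP (by decide +kernel)
theorem r4699 : PImp [l2188, l1972, l2085, l1857, l510] l4699 := rupP (by decide +kernel)
theorem r4700 : PImp [l2189, l1857, l2085, l1972, o6205] l4700 := rupP (by decide +kernel)
theorem r4701 : PImp [l2081, l1854, l2187, l1968, o5959] l4701 := rupP (by decide +kernel)
theorem r4702 : PImp [l2186, l2081, l1854, l1968, o6086] l4702 := rupP (by decide +kernel)
theorem r4703 : PImp [l2187, l2081, l1854, l1968, o6221] l4703 := rupP (by decide +kernel)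
theorem r4704 : PImp [l1968, l2187, l2081, l1853, o6204] l4704 := rupP (by decide +kernel)
theorem r4705 : PImp [l2079, l1851, l1966, o5945] l4705 := rupP (by decide +kernel)
theorem r4706 : PImp [l2079, l1851, l1966, o6203] l4706 := rupP (by decide +kernel)
theorem r4707 : PImp [l1964, l2077, l1850, o5860] l4707 := rupP (by decide +kernel)
theorem r4708 : PImp [l2077, l1850, l1964, o5958] l4708 := rupP (by decide +kernel)
theorem r4709 : PImp [l1964, l2077, l1850, o6085] l4709 := rupP (by decide +kernel)
theorem r4710 : PImp [l2077, l1850, l1964, o6220] l4710 := rupP (by decide +kernel)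
theorem r4711 : PImp [l2077, l1850, l1964, o7289] l4711 := rupP (by decide +kernel)
theorem r4712 : PImp [l1964, l2077, l1849, o5944] l4712 := rupP (by decide +kernel)
theorem r4713 : PImp [l1964, l2077, l1849, o6202] l4713 := rupP (by decide +kernel)
theorem r4714 : PImp [l2075, o5858] l4714 := rupP (by decide +kernel)
theorem r4715 : PImp [l2075, o5955] l4715 := rupP (by decide +kernel)
theorem r4716 : PImp [l2075, o6080] l4716 := rupP (by decide +kernel)
theorem r4717 : PImp [l2075, o6770] l4717 := rupP (by decide +kernel)
theorem r4718 : PImp [l2075, o5941] l4718 := rupP (by decide +kernel)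
theorem r4719 : PImp [l2075, o6070] l4719 := rupP (by decide +kernel)
theorem r4720 : PImp [l2075, o6197] l4720 := rupP (by decide +kernel)
theorem r4721 : PImp [l2075, o6383] l4721 := rupP (by decide +kernel)
theorem r4722 : PImp [l1848, l1962, l2073, o5857] l4722 := rupP (by decide +kernel)
theorem r4723 : PImp [l1962, l1848, l2073, o5954] l4723 := rupP (by decide +kernel)
theorem r4724 : PImp [l2073, l1848, l1962, o6079] l4724 := rupP (by decide +kernel)
theorem r4725 : PImp [l1848, l2073, l1962, o6217] l4725 := rupP (by decide +kernel)
theorem r4726 : PImp [l1848, l2073, l1962, o6771] l4726 := rupP (by decide +kernel)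
theorem r4727 : PImp [l1962, l2073, l1847, o6069] l4727 := rupP (by decide +kernel)
theorem r4728 : PImp [l1962, l2073, l1847, o6196] l4728 := rupP (by decide +kernel)
theorem r4729 : PImp [l1960, l1846, o5856] l4729 := rupP (by decide +kernel)
theorem r4730 : PImp [l1846, l1960, o5953] l4730 := rupP (by decide +kernel)
theorem r4731 : PImp [l1846, l1960, o6078] l4731 := rupP (by decide +kernel)
theorem r4732 : PImp [l1846, l1960, o6216] l4732 := rupP (by decide +kernel)
theorem r4733 : PImp [l1846, l1960, o6630] l4733 := rupP (by decide +kernel)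
theorem r4734 : PImp [l1846, l1960, o6772] l4734 := rupP (by decide +kernel)
theorem r4735 : PImp [l1960, l1845, l506] l4735 := rupP (by decide +kernel)
theorem r4736 : PImp [l1960, l1845, o5940] l4736 := rupP (by decide +kernel)
theorem r4737 : PImp [l1960, l1845, o6068] l4737 := rupP (by decide +kernel)
theorem r4738 : PImp [l1960, l1845, o6195] l4738 := rupP (by decide +kernel)
theorem r4739 : PImp [l1960, l1845, o6527] l4739 := rupP (by decide +kernel)
theorem r4740 : PImp [l2071, o5855] l4740 := rupP (by decide +kernel)
theorem r4741 : PImp [l2071, o6077] l4741 := rupP (by decide +kernel)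
theorem r4742 : PImp [l2071, o6215] l4742 := rupP (by decide +kernel)
theorem r4743 : PImp [l2071, o6501] l4743 := rupP (by decide +kernel)
theorem r4744 : PImp [l2071, o6773] l4744 := rupP (by decide +kernel)
theorem r4745 : PImp [l2071, l505] l4745 := rupP (by decide +kernel)
theorem r4746 : PImp [l2071, o5939] l4746 := rupP (by decide +kernel)
theorem r4747 : PImp [l2071, o6067] l4747 := rupP (by decide +kernel)
theorem r4748 : PImp [l2071, o6194] l4748 := rupP (by decide +kernel)
theorem r4749 : PImp [l2071, o6384] l4749 := rupP (by decide +kernel)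
theorem r4750 : PImp [l2071, o6528] l4750 := rupP (by decide +kernel)
theorem r4751 : PImp [l2071, o6652] l4751 := rupP (by decide +kernel)
theorem r4752 : PImp [l1958, l1844, o5854] l4752 := rupP (by decide +kernel)
theorem r4753 : PImp [l1958, l1844, o5951] l4753 := rupP (by decide +kernel)
theorem r4754 : PImp [l1844, l1958, o6076] l4754 := rupP (by decide +kernel)
theorem r4755 : PImp [l1958, l1844, o6214] l4755 := rupP (by decide +kernel)
theorem r4756 : PImp [l1958, l1844, o6502] l4756 := rupP (by decide +kernel)
theorem r4757 : PImp [l1958, l1844, o6631] l4757 := rupP (by decide +kernel)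
theorem r4758 : PImp [l1844, l1958, o6774] l4758 := rupP (by decide +kernel)
theorem r4759 : PImp [l1958, l1843, o5938] l4759 := rupP (by decide +kernel)
theorem r4760 : PImp [l1958, l1843, o6066] l4760 := rupP (by decide +kernel)
theorem r4761 : PImp [l1958, l1843, o6193] l4761 := rupP (by decide +kernel)
theorem r4762 : PImp [l1958, l1843, o6385] l4762 := rupP (by decide +kernel)
theorem r4763 : PImp [l1960, l1263] l4763 := rupP (by decide +kernel)
theorem r4764 : PImp [l1976, l1265] l4764 := rupP (by decide +kernel)
theorem r4765 : PImp [l1949, l2063, l2175, o7067] l4765 := rupP (by decide +kernel)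
theorem r4766 : PImp [l1947, l2173, l2226, l2061, o7066] l4766 := rupP (by decide +kernel)
theorem r4767 : PImp [l2059, l1944, l2172, o7099] l4767 := rupP (by decide +kernel)
theorem r4768 : PImp [l2171, l1944, l2059, o7148] l4768 := rupP (by decide +kernel)
theorem r4769 : PImp [l1944, l2059, l2172, o7198] l4769 := rupP (by decide +kernel)
theorem r4770 : PImp [l2171, l2059, l1944, o7242] l4770 := rupP (by decide +kernel)
theorem r4771 : PImp [l2172, l2059, l1944, o7298] l4771 := rupP (by decide +kernel)
theorem r4772 : PImp [l1944, l2171, l2059, o7336] l4772 := rupP (by decide +kernel)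
theorem r4773 : PImp [l1944, l2059, l2172, o7392] l4773 := rupP (by decide +kernel)
theorem r4774 : PImp [l2059, l2172, l1944, o8876] l4774 := rupP (by decide +kernel)
theorem r4775 : PImp [l2059, l1944, l2172, o8951] l4775 := rupP (by decide +kernel)
theorem r4776 : PImp [l2171, l1944, l2059, o8993] l4776 := rupP (by decide +kernel)
theorem r4777 : PImp [l1944, l2172, l2059, o9040] l4777 := rupP (by decide +kernel)
theorem r4778 : PImp [l2171, l2059, l1944, o9082] l4778 := rupP (by decide +kernel)
theorem r4779 : PImp [l1944, l2172, l2059, o9129] l4779 := rupP (by decide +kernel)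
theorem r4780 : PImp [l2171, l2059, l1944, o7052] l4780 := rupP (by decide +kernel)
theorem r4781 : PImp [l2059, l1944, l2171, o9157] l4781 := rupP (by decide +kernel)
theorem r4782 : PImp [l2057, l2169, l1943, l2225, o8901] l4782 := rupP (by decide +kernel)
theorem r4783 : PImp [l2224, l2169, l1943, l2057, o7065] l4783 := rupP (by decide +kernel)
theorem r4784 : PImp [l1940, l2223, l2055, l2167, o7146] l4784 := rupP (by decide +kernel)
theorem r4785 : PImp [l1940, l2223, l2055, l2168, o7196] l4785 := rupP (by decide +kernel)
theorem r4786 : PImp [l2055, l1940, l2167, l2222, o7240] l4786 := rupP (by decide +kernel)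
theorem r4787 : PImp [l1940, l2055, l2168, l2222, o7296] l4787 := rupP (by decide +kernel)
theorem r4788 : PImp [l1940, l2223, l2167, l2055, o7334] l4788 := rupP (by decide +kernel)
theorem r4789 : PImp [l1940, l2223, l2168, l2055, o7391] l4789 := rupP (by decide +kernel)
theorem r4790 : PImp [l1940, l2168, l2055, l2223, o8877] l4790 := rupP (by decide +kernel)
theorem r4791 : PImp [l1940, l2223, l2167, l2055, o9083] l4791 := rupP (by decide +kernel)
theorem r4792 : PImp [l1940, l2222, l2055, l2167, o7050] l4792 := rupP (by decide +kernel)
theorem r4793 : PImp [l2053, l2166, l1939, o7308] l4793 := rupP (by decide +kernel)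
theorem r4794 : PImp [l2053, l2166, l1939, o7206] l4794 := rupP (by decide +kernel)
theorem r4795 : PImp [l1937, l2163, l2051, o7063] l4795 := rupP (by decide +kernel)
theorem r4796 : PImp [l1937, l2163, l2051, o8824] l4796 := rupP (by decide +kernel)
theorem r4797 : PImp [l2051, l1937, l2163, o8690] l4797 := rupP (by decide +kernel)
theorem r4798 : PImp [l2221, l2161, l1935, l2049, o8386] l4798 := rupP (by decide +kernel)
theorem r4799 : PImp [l2220, l2049, l2161, l1935, o7062] l4799 := rupP (by decide +kernel)
theorem r4800 : PImp [l1933, l2047, l2160, l623] l4800 := rupP (by decide +kernel)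
theorem r4801 : PImp [l2159, l1933, l2047, o8826] l4801 := rupP (by decide +kernel)
theorem r4802 : PImp [l2155, l2043, l1929, l2217, o8389] l4802 := rupP (by decide +kernel)
theorem r4803 : PImp [l1925, l2039, l2151, o8242] l4803 := rupP (by decide +kernel)
theorem r4804 : PImp [l2151, l2039, l1925, o8076] l4804 := rupP (by decide +kernel)
theorem r4805 : PImp [l2037, l2214, l1923, l2149, o8243] l4805 := rupP (by decide +kernel)
theorem r4806 : PImp [l2215, l2037, l1923, l2149, o8077] l4806 := rupP (by decide +kernel)
theorem r4807 : PImp [l1920, l2035, l2147, o7142] l4807 := rupP (by decide +kernel)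
theorem r4808 : PImp [l2148, l1920, l2035, o7837] l4808 := rupP (by decide +kernel)
theorem r4809 : PImp [l2148, l1920, l2035, o8008] l4809 := rupP (by decide +kernel)
theorem r4810 : PImp [l1920, l2147, l2035, o8102] l4810 := rupP (by decide +kernel)
theorem r4811 : PImp [l2148, l2035, l1920, o8172] l4811 := rupP (by decide +kernel)
theorem r4812 : PImp [l2147, l2035, l1920, o7048] l4812 := rupP (by decide +kernel)
theorem r4813 : PImp [l1920, l2147, l2035, o8261] l4813 := rupP (by decide +kernel)
theorem r4814 : PImp [l2033, l1919, l2212, l2145, o8245] l4814 := rupP (by decide +kernel)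
theorem r4815 : PImp [l2033, l2145, l1919, l2213, o8079] l4815 := rupP (by decide +kernel)
theorem r4816 : PImp [l1916, l2144, l2031, l2210, o7293] l4816 := rupP (by decide +kernel)
theorem r4817 : PImp [l1916, l2144, l2031, l2211, o7680] l4817 := rupP (by decide +kernel)
theorem r4818 : PImp [l1916, l2144, l2031, l2210, o7838] l4818 := rupP (by decide +kernel)
theorem r4819 : PImp [l2144, l1916, l2031, l2211, o8009] l4819 := rupP (by decide +kernel)
theorem r4820 : PImp [l1916, l2031, l2143, l2211, o8104] l4820 := rupP (by decide +kernel)
theorem r4821 : PImp [l2144, l1916, l2210, l2031, o8174] l4821 := rupP (by decide +kernel)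
theorem r4822 : PImp [l2139, l1913, l2027, o7061] l4822 := rupP (by decide +kernel)
theorem r4823 : PImp [l2139, l1913, l2027, o7644] l4823 := rupP (by decide +kernel)
theorem r4824 : PImp [l2139, l1913, l2027, o7573] l4824 := rupP (by decide +kernel)
theorem r4825 : PImp [l2202, l2127, l1900, l2014, l566] l4825 := rupP (by decide +kernel)
theorem r4826 : PImp [l2012, l1898, l2126, l2201, o6995] l4826 := rupP (by decide +kernel)
theorem r4827 : PImp [l2123, l1896, l2010, l565] l4827 := rupP (by decide +kernel)
theorem r4828 : PImp [l2010, l1896, l2124, o6994] l4828 := rupP (by decide +kernel)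
theorem r4829 : PImp [l1894, l2008, l2122, l2199, o6993] l4829 := rupP (by decide +kernel)
theorem r4830 : PImp [l1892, l2006, l2120, o6992] l4830 := rupP (by decide +kernel)
theorem r4831 : PImp [l1890, l2004, l2118, o6991] l4831 := rupP (by decide +kernel)
theorem r4832 : PImp [l1888, l2002, l523] l4832 := rupP (by decide +kernel)
theorem r4833 : PImp [l2002, l1888, o6361] l4833 := rupP (by decide +kernel)
theorem r4834 : PImp [l1888, l2002, l1515] l4834 := rupP (by decide +kernel)
theorem r4835 : PImp [l2002, l1888, o6476] l4835 := rupP (by decide +kernel)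
theorem r4836 : PImp [l2002, l1888, o6559] l4836 := rupP (by decide +kernel)
theorem r4837 : PImp [l2002, l1888, o6614] l4837 := rupP (by decide +kernel)
theorem r4838 : PImp [l1888, l2002, o6688] l4838 := rupP (by decide +kernel)
theorem r4839 : PImp [l2002, l1888, o6747] l4839 := rupP (by decide +kernel)
theorem r4840 : PImp [l1888, l2002, o8893] l4840 := rupP (by decide +kernel)
theorem r4841 : PImp [l2002, l1888, o8928] l4841 := rupP (by decide +kernel)
theorem r4842 : PImp [l1888, l2002, o8970] l4842 := rupP (by decide +kernel)
theorem r4843 : PImp [l1888, l2002, o9058] l4843 := rupP (by decide +kernel)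
theorem r4844 : PImp [l2002, l1888, o9100] l4844 := rupP (by decide +kernel)
theorem r4845 : PImp [l1888, l2002, o9137] l4845 := rupP (by decide +kernel)
theorem r4846 : PImp [l2115, l1886, l2000, o6408] l4846 := rupP (by decide +kernel)
theorem r4847 : PImp [l2116, l2000, l1886, o6475] l4847 := rupP (by decide +kernel)
theorem r4848 : PImp [l2115, l1886, l2000, o6558] l4848 := rupP (by decide +kernel)
theorem r4849 : PImp [l2116, l2000, l1886, o6613] l4849 := rupP (by decide +kernel)
theorem r4850 : PImp [l2115, l1886, l2000, o6687] l4850 := rupP (by decide +kernel)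
theorem r4851 : PImp [l2116, l2000, l1886, o6746] l4851 := rupP (by decide +kernel)
theorem r4852 : PImp [l1886, l2000, l2115, o8929] l4852 := rupP (by decide +kernel)
theorem r4853 : PImp [l2000, l1886, l2116, o8971] l4853 := rupP (by decide +kernel)
theorem r4854 : PImp [l2116, l1886, l2000, o9059] l4854 := rupP (by decide +kernel)
theorem r4855 : PImp [l2115, l1886, l2000, o9101] l4855 := rupP (by decide +kernel)
theorem r4856 : PImp [l1886, l2000, l2116, o9138] l4856 := rupP (by decide +kernel)
theorem r4857 : PImp [l1884, l1998, l522] l4857 := rupP (by decide +kernel)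
theorem r4858 : PImp [l1884, l1998, o6360] l4858 := rupP (by decide +kernel)
theorem r4859 : PImp [l1884, l1998, o6407] l4859 := rupP (by decide +kernel)
theorem r4860 : PImp [l1884, l1998, o6474] l4860 := rupP (by decide +kernel)
theorem r4861 : PImp [l1884, l1998, o6557] l4861 := rupP (by decide +kernel)
theorem r4862 : PImp [l1884, l1998, o6612] l4862 := rupP (by decide +kernel)
theorem r4863 : PImp [l1884, l1998, o6686] l4863 := rupP (by decide +kernel)
theorem r4864 : PImp [l1884, l1998, o6745] l4864 := rupP (by decide +kernel)
theorem r4865 : PImp [l1884, l1998, o9060] l4865 := rupP (by decide +kernel)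
theorem r4866 : PImp [l2114, o6359] l4866 := rupP (by decide +kernel)
theorem r4867 : PImp [l2113, o6406] l4867 := rupP (by decide +kernel)
theorem r4868 : PImp [l2114, o6473] l4868 := rupP (by decide +kernel)
theorem r4869 : PImp [l2113, o6556] l4869 := rupP (by decide +kernel)
theorem r4870 : PImp [l2114, o6611] l4870 := rupP (by decide +kernel)
theorem r4871 : PImp [l2113, o6685] l4871 := rupP (by decide +kernel)
theorem r4872 : PImp [l2114, o6744] l4872 := rupP (by decide +kernel)
theorem r4873 : PImp [l2114, o8894] l4873 := rupP (by decide +kernel)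
theorem r4874 : PImp [l2113, o8930] l4874 := rupP (by decide +kernel)
theorem r4875 : PImp [l2114, o8972] l4875 := rupP (by decide +kernel)
theorem r4876 : PImp [l2114, o9061] l4876 := rupP (by decide +kernel)
theorem r4877 : PImp [l2113, o9102] l4877 := rupP (by decide +kernel)
theorem r4878 : PImp [l2114, o9139] l4878 := rupP (by decide +kernel)
theorem r4879 : PImp [l2111, l521] l4879 := rupP (by decide +kernel)
theorem r4880 : PImp [l2112, o6358] l4880 := rupP (by decide +kernel)
theorem r4881 : PImp [l2111, o6405] l4881 := rupP (by decide +kernel)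
theorem r4882 : PImp [l2112, o6472] l4882 := rupP (by decide +kernel)
theorem r4883 : PImp [l2112, o6610] l4883 := rupP (by decide +kernel)
theorem r4884 : PImp [l2111, o6684] l4884 := rupP (by decide +kernel)
theorem r4885 : PImp [l2112, o6743] l4885 := rupP (by decide +kernel)
theorem r4886 : PImp [l2112, o8895] l4886 := rupP (by decide +kernel)
theorem r4887 : PImp [l1996, l1882, o6404] l4887 := rupP (by decide +kernel)
theorem r4888 : PImp [l1882, l1996, o6471] l4888 := rupP (by decide +kernel)
theorem r4889 : PImp [l1882, l1996, o6609] l4889 := rupP (by decide +kernel)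
theorem r4890 : PImp [l1882, l1996, o6682] l4890 := rupP (by decide +kernel)
theorem r4891 : PImp [l1996, l1882, o6741] l4891 := rupP (by decide +kernel)
theorem r4892 : PImp [l1996, l1882, o8357] l4892 := rupP (by decide +kernel)
theorem r4893 : PImp [l1996, l1882, o8435] l4893 := rupP (by decide +kernel)
theorem r4894 : PImp [l1996, l1882, o8512] l4894 := rupP (by decide +kernel)
theorem r4895 : PImp [l1882, l1996, o8580] l4895 := rupP (by decide +kernel)
theorem r4896 : PImp [l1996, l1882, o8664] l4896 := rupP (by decide +kernel)
theorem r4897 : PImp [l1882, l1996, o8743] l4897 := rupP (by decide +kernel)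
theorem r4898 : PImp [l2109, l1880, l1994, o6403] l4898 := rupP (by decide +kernel)
theorem r4899 : PImp [l1880, l1994, l2110, o6470] l4899 := rupP (by decide +kernel)
theorem r4900 : PImp [l1994, l1880, l2110, o6608] l4900 := rupP (by decide +kernel)
theorem r4901 : PImp [l2109, l1994, l1880, o6681] l4901 := rupP (by decide +kernel)
theorem r4902 : PImp [l1994, l1880, l2110, o6740] l4902 := rupP (by decide +kernel)
theorem r4903 : PImp [l1994, l2110, l1880, o8358] l4903 := rupP (by decide +kernel)
theorem r4904 : PImp [l2109, l1994, l1880, o8436] l4904 := rupP (by decide +kernel)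
theorem r4905 : PImp [l1994, l1880, l2110, o8513] l4905 := rupP (by decide +kernel)
theorem r4906 : PImp [l1994, l1880, l2110, o8665] l4906 := rupP (by decide +kernel)
theorem r4907 : PImp [l1992, l1878, o8359] l4907 := rupP (by decide +kernel)
theorem r4908 : PImp [l2108, o6739] l4908 := rupP (by decide +kernel)
theorem r4909 : PImp [l2108, o8360] l4909 := rupP (by decide +kernel)
theorem r4910 : PImp [l2107, o8437] l4910 := rupP (by decide +kernel)
theorem r4911 : PImp [l2108, o8514] l4911 := rupP (by decide +kernel)
theorem r4912 : PImp [l2108, o8666] l4912 := rupP (by decide +kernel)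
theorem r4913 : PImp [l2106, o8361] l4913 := rupP (by decide +kernel)
theorem r4914 : PImp [l1876, l1990, o6402] l4914 := rupP (by decide +kernel)
theorem r4915 : PImp [l1990, l1876, o6469] l4915 := rupP (by decide +kernel)
theorem r4916 : PImp [l1990, l1876, o6555] l4916 := rupP (by decide +kernel)
theorem r4917 : PImp [l1990, l1876, o6607] l4917 := rupP (by decide +kernel)
theorem r4918 : PImp [l1876, l1990, o6680] l4918 := rupP (by decide +kernel)
theorem r4919 : PImp [l1990, l1876, o7712] l4919 := rupP (by decide +kernel)
theorem r4920 : PImp [l1876, l1990, o7793] l4920 := rupP (by decide +kernel)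
theorem r4921 : PImp [l1990, l1876, o7880] l4921 := rupP (by decide +kernel)
theorem r4922 : PImp [l1990, l1876, o7969] l4922 := rupP (by decide +kernel)
theorem r4923 : PImp [l1876, l1990, o8048] l4923 := rupP (by decide +kernel)
theorem r4924 : PImp [l1990, l1876, o8133] l4924 := rupP (by decide +kernel)
theorem r4925 : PImp [l1990, l1876, o8212] l4925 := rupP (by decide +kernel)
theorem r4926 : PImp [l1874, l1988, l2103, o6401] l4926 := rupP (by decide +kernel)
theorem r4927 : PImp [l1874, l2104, l1988, o6606] l4927 := rupP (by decide +kernel)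
theorem r4928 : PImp [l1988, l1874, l2103, o6679] l4928 := rupP (by decide +kernel)
theorem r4929 : PImp [l2104, l1874, l1988, o7713] l4929 := rupP (by decide +kernel)
theorem r4930 : PImp [l1988, l1874, l2104, o7881] l4930 := rupP (by decide +kernel)
theorem r4931 : PImp [l1874, l1988, l2103, o7970] l4931 := rupP (by decide +kernel)
theorem r4932 : PImp [l2104, l1874, l1988, o8049] l4932 := rupP (by decide +kernel)
theorem r4933 : PImp [l1988, l2103, l1874, o8134] l4933 := rupP (by decide +kernel)
theorem r4934 : PImp [l1988, l1874, l2104, o8213] l4934 := rupP (by decide +kernel)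
theorem r4935 : PImp [l1986, l1872, o6678] l4935 := rupP (by decide +kernel)
theorem r4936 : PImp [l1872, l1986, o7714] l4936 := rupP (by decide +kernel)
theorem r4937 : PImp [l1986, l1872, o7882] l4937 := rupP (by decide +kernel)
theorem r4938 : PImp [l1872, l1986, o8050] l4938 := rupP (by decide +kernel)
theorem r4939 : PImp [l1986, l1872, o8135] l4939 := rupP (by decide +kernel)
theorem r4940 : PImp [l1986, l1872, o8214] l4940 := rupP (by decide +kernel)
theorem r4941 : PImp [l2101, o6400] l4941 := rupP (by decide +kernel)
theorem r4942 : PImp [l2102, o6468] l4942 := rupP (by decide +kernel)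
theorem r4943 : PImp [l2102, o6605] l4943 := rupP (by decide +kernel)
theorem r4944 : PImp [l2101, o6677] l4944 := rupP (by decide +kernel)
theorem r4945 : PImp [l2102, o7715] l4945 := rupP (by decide +kernel)
theorem r4946 : PImp [l2101, o7795] l4946 := rupP (by decide +kernel)
theorem r4947 : PImp [l2102, o7883] l4947 := rupP (by decide +kernel)
theorem r4948 : PImp [l2101, o7971] l4948 := rupP (by decide +kernel)
theorem r4949 : PImp [l2102, o8051] l4949 := rupP (by decide +kernel)
theorem r4950 : PImp [l2102, o8215] l4950 := rupP (by decide +kernel)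
theorem r4951 : PImp [l2100, o6467] l4951 := rupP (by decide +kernel)
theorem r4952 : PImp [l2099, o6553] l4952 := rupP (by decide +kernel)
theorem r4953 : PImp [l2099, o6676] l4953 := rupP (by decide +kernel)
theorem r4954 : PImp [l2100, o7716] l4954 := rupP (by decide +kernel)
theorem r4955 : PImp [l2099, o7796] l4955 := rupP (by decide +kernel)
theorem r4956 : PImp [l2100, o7884] l4956 := rupP (by decide +kernel)
theorem r4957 : PImp [l2100, o8052] l4957 := rupP (by decide +kernel)
theorem r4958 : PImp [l2099, o8136] l4958 := rupP (by decide +kernel)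
theorem r4959 : PImp [l2100, o8216] l4959 := rupP (by decide +kernel)
theorem r4960 : PImp [l1984, l1870, o7632] l4960 := rupP (by decide +kernel)
theorem r4961 : PImp [l1867, l1981, o6465] l4961 := rupP (by decide +kernel)
theorem r4962 : PImp [l2096, o6357] l4962 := rupP (by decide +kernel)
theorem r4963 : PImp [l2096, o7421] l4963 := rupP (by decide +kernel)
theorem r4964 : PImp [l2096, o7483] l4964 := rupP (by decide +kernel)
theorem r4965 : PImp [l2096, o7633] l4965 := rupP (by decide +kernel)
theorem r4966 : PImp [l2197, l1269] l4966 := rupP (by decide +kernel)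
theorem r4967 : PImp [l2197, l1270] l4967 := rupP (by decide +kernel)
theorem r4968 : PImp [l2195, l1271] l4968 := rupP (by decide +kernel)
theorem r4969 : PImp [l2195, l1272] l4969 := rupP (by decide +kernel)
theorem r4970 : PImp [l2193, l1273] l4970 := rupP (by decide +kernel)
theorem r4971 : PImp [l2193, l1274] l4971 := rupP (by decide +kernel)
theorem r4972 : PImp [l1979, l1865, o6397] l4972 := rupP (by decide +kernel)
theorem r4973 : PImp [l1865, l1979, o6551] l4973 := rupP (by decide +kernel)
theorem r4974 : PImp [l1865, l1979, o6674] l4974 := rupP (by decide +kernel)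
theorem r4975 : PImp [l1979, l1865, o6832] l4975 := rupP (by decide +kernel)
theorem r4976 : PImp [l2092, l1978, l1863, o6396] l4976 := rupP (by decide +kernel)
theorem r4977 : PImp [l1863, l2092, l1978, o6550] l4977 := rupP (by decide +kernel)
theorem r4978 : PImp [l1863, l1978, l2092, o6673] l4978 := rupP (by decide +kernel)
theorem r4979 : PImp [l1861, l1976, o6892] l4979 := rupP (by decide +kernel)
theorem r4980 : PImp [l2090, o6672] l4980 := rupP (by decide +kernel)
theorem r4981 : PImp [l2088, l1974, l1859, l2191, o6007] l4981 := rupP (by decide +kernel)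
theorem r4982 : PImp [l2088, l2190, l1859, l1974, o6143] l4982 := rupP (by decide +kernel)
theorem r4983 : PImp [l2088, l1974, l1859, l2191, o6273] l4983 := rupP (by decide +kernel)
theorem r4984 : PImp [l1972, l2086, l1857, l2189, o6006] l4984 := rupP (by decide +kernel)
theorem r4985 : PImp [l2188, l1972, l2086, l1857, o6142] l4985 := rupP (by decide +kernel)
theorem r4986 : PImp [l2189, l1857, l2086, l1972, o6272] l4986 := rupP (by decide +kernel)
theorem r4987 : PImp [l2189, l1857, l2086, l1972, o7247] l4987 := rupP (by decide +kernel)
theorem r4988 : PImp [l1970, l2084, l1855, o5893] l4988 := rupP (by decide +kernel)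
theorem r4989 : PImp [l1970, l1855, l2084, o6005] l4989 := rupP (by decide +kernel)
theorem r4990 : PImp [l1970, l2084, l1855, o6141] l4990 := rupP (by decide +kernel)
theorem r4991 : PImp [l1970, l2084, l1855, o6271] l4991 := rupP (by decide +kernel)
theorem r4992 : PImp [l2186, l1968, l2082, l1853, o5892] l4992 := rupP (by decide +kernel)
theorem r4993 : PImp [l1968, l2082, l2187, l1853, o6004] l4993 := rupP (by decide +kernel)
theorem r4994 : PImp [l1968, l2186, l2082, l1853, o6140] l4994 := rupP (by decide +kernel)
theorem r4995 : PImp [l1968, l2187, l2082, l1853, o6270] l4995 := rupP (by decide +kernel)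
theorem r4996 : PImp [l2186, l1968, l2082, l1853, o7341] l4996 := rupP (by decide +kernel)
theorem r4997 : PImp [l1966, l2080, l1851, o5891] l4997 := rupP (by decide +kernel)
theorem r4998 : PImp [l1966, l2080, l1851, o6003] l4998 := rupP (by decide +kernel)
theorem r4999 : PImp [l1966, l2080, l1851, o6139] l4999 := rupP (by decide +kernel)
theorem r5000 : PImp [l1966, l2080, l1851, o6269] l5000 := rupP (by decide +kernel)
theorem r5001 : PImp [l1966, l2080, l1851, o7248] l5001 := rupP (by decide +kernel)
theorem r5002 : PImp [l1964, l2078, l1849, o6002] l5002 := rupP (by decide +kernel)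
theorem r5003 : PImp [l1964, l2078, l1849, o6138] l5003 := rupP (by decide +kernel)
theorem r5004 : PImp [l1964, l2078, l1849, o6268] l5004 := rupP (by decide +kernel)
theorem r5005 : PImp [l1964, l2078, l1849, o7057] l5005 := rupP (by decide +kernel)
theorem r5006 : PImp [l1964, l2078, l1849, o7153] l5006 := rupP (by decide +kernel)
theorem r5007 : PImp [l1964, l2078, l1849, o7342] l5007 := rupP (by decide +kernel)
theorem r5008 : PImp [l2076, o5889] l5008 := rupP (by decide +kernel)
theorem r5009 : PImp [l2076, o5998] l5009 := rupP (by decide +kernel)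
theorem r5010 : PImp [l2076, o6136] l5010 := rupP (by decide +kernel)
theorem r5011 : PImp [l2076, o6437] l5011 := rupP (by decide +kernel)
theorem r5012 : PImp [l2074, l1847, l1962, o5888] l5012 := rupP (by decide +kernel)
theorem r5013 : PImp [l2074, l1962, l1847, o5997] l5013 := rupP (by decide +kernel)
theorem r5014 : PImp [l2074, l1847, l1962, o6135] l5014 := rupP (by decide +kernel)
theorem r5015 : PImp [l1845, l1960, o5887] l5015 := rupP (by decide +kernel)
theorem r5016 : PImp [l1845, l1960, o5996] l5016 := rupP (by decide +kernel)
theorem r5017 : PImp [l1845, l1960, o6134] l5017 := rupP (by decide +kernel)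
theorem r5018 : PImp [l1845, l1960, o6265] l5018 := rupP (by decide +kernel)
theorem r5019 : PImp [l1845, l1960, o6586] l5019 := rupP (by decide +kernel)
theorem r5020 : PImp [l2072, o5886] l5020 := rupP (by decide +kernel)
theorem r5021 : PImp [l2072, o5995] l5021 := rupP (by decide +kernel)
theorem r5022 : PImp [l2072, o6133] l5022 := rupP (by decide +kernel)
theorem r5023 : PImp [l2072, o6264] l5023 := rupP (by decide +kernel)
theorem r5024 : PImp [l2072, o6343] l5024 := rupP (by decide +kernel)
theorem r5025 : PImp [l2072, o6587] l5025 := rupP (by decide +kernel)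
theorem r5026 : PImp [l2072, o6715] l5026 := rupP (by decide +kernel)
theorem r5027 : PImp [l1958, l1843, o5885] l5027 := rupP (by decide +kernel)
theorem r5028 : PImp [l1958, l1843, o5994] l5028 := rupP (by decide +kernel)
theorem r5029 : PImp [l1958, l1843, o6132] l5029 := rupP (by decide +kernel)
theorem r5030 : PImp [l1958, l1843, o6263] l5030 := rupP (by decide +kernel)
theorem r5031 : PImp [l1843, l1958, o6439] l5031 := rupP (by decide +kernel)
theorem r5032 : PImp [l1958, l1843, o6588] l5032 := rupP (by decide +kernel)
theorem r5033 : PImp [l1958, l1843, o6716] l5033 := rupP (by decide +kernel)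
theorem r5034 : PImp [l1845, l1049] l5034 := rupP (by decide +kernel)
theorem r5035 : PImp [l1884, l1949, l1053] l5035 := rupP (by decide +kernel)
theorem r5036 : PImp [l1947, l1056] l5036 := rupP (by decide +kernel)
theorem r5037 : PImp [l1937, l1060] l5037 := rupP (by decide +kernel)
theorem r5038 : PImp [l1878, l1937, l1062] l5038 := rupP (by decide +kernel)
theorem r5039 : PImp [l1933, l1067] l5039 := rupP (by decide +kernel)
theorem r5040 : PImp [l1916, l1925, l80] l5040 := rupP (by decide +kernel)
theorem r5041 : PImp [l1920, l1925, l82] l5041 := rupP (by decide +kernel)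
theorem r5042 : PImp [l1916, l1923, l81] l5042 := rupP (by decide +kernel)
theorem r5043 : PImp [l1850, l730] l5043 := rupP (by decide +kernel)
theorem r5044 : PImp [l1959, l1850, l731] l5044 := rupP (by decide +kernel)
theorem r5045 : PImp [l1846, l1960, l1121] l5045 := rupP (by decide +kernel)
theorem r5046 : PImp [l2071, l1077] l5046 := rupP (by decide +kernel)
theorem r5047 : PImp [l2071, l1078] l5047 := rupP (by decide +kernel)
theorem r5048 : PImp [l1846, l1960, l1087] l5048 := rupP (by decide +kernel)
theorem r5049 : PImp [l1846, l1960, l1096] l5049 := rupP (by decide +kernel)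
theorem r5050 : PImp [l2072, l1070] l5050 := rupP (by decide +kernel)
theorem r5051 : PImp [l2072, l1076] l5051 := rupP (by decide +kernel)
theorem r5052 : PImp [l1959, l1088] l5052 := rupP (by decide +kernel)
theorem r5053 : PImp [l2071, l1082] l5053 := rupP (by decide +kernel)
theorem r5054 : PImp [l1846, l1097] l5054 := rupP (by decide +kernel)
theorem r5055 : PImp [l2072, l1090] l5055 := rupP (by decide +kernel)
theorem r5056 : PImp [l2071, l1098] l5056 := rupP (by decide +kernel)
theorem r5057 : PImp [l2201, l1898, l2125, l1126] l5057 := rupP (by decide +kernel)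
theorem r5058 : PImp [l2071, l1117] l5058 := rupP (by decide +kernel)
theorem r5059 : PImp [l2072, l1100] l5059 := rupP (by decide +kernel)
theorem r5060 : PImp [l1959, l1844, l1081] l5060 := rupP (by decide +kernel)
theorem r5061 : PImp [l1958, l1844, l1118] l5061 := rupP (by decide +kernel)
theorem r5062 : PImp [l2071, l1120] l5062 := rupP (by decide +kernel)
theorem r5063 : PImp [l2071, l1095] l5063 := rupP (by decide +kernel)
theorem r5064 : PImp [l2071, l1080] l5064 := rupP (by decide +kernel)
theorem r5065 : PImp [l2071, l1122] l5065 := rupP (by decide +kernel)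
theorem r5066 : PImp [l1959, l1844, l1079] l5066 := rupP (by decide +kernel)
theorem r5067 : PImp [l1959, l1843, l1086] l5067 := rupP (by decide +kernel)
theorem r5068 : PImp [l1959, l1843, l1072] l5068 := rupP (by decide +kernel)
theorem r5069 : PImp [l2124, l2011, l1896, l1132] l5069 := rupP (by decide +kernel)
theorem r5070 : PImp [l2072, l1094] l5070 := rupP (by decide +kernel)
theorem r5071 : PImp [l1844, l1107] l5071 := rupP (by decide +kernel)
theorem r5072 : PImp [l2072, l1101] l5072 := rupP (by decide +kernel)
theorem r5073 : PImp [l2064, l2017, l2242, l1909, l2211, l2140, l1905, l2026, l1912, l1489] l5073 := rupP (by decide +kernel)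
theorem r5074 : PImp [l2140, l1913, l2026, l1450] l5074 := rupP (by decide +kernel)
theorem r5075 : PImp [l2138, l2024, l2209, l1473] l5075 := rupP (by decide +kernel)
theorem r5076 : PImp [l2204, l2027, l2019, l2017, l2136, l1478] l5076 := rupP (by decide +kernel)
theorem r5077 : PImp [l2137, l2026, l2133, l2139, l1441] l5077 := rupP (by decide +kernel)
theorem r5078 : PImp [l2023, l2136, l1902, l1912, l1422] l5078 := rupP (by decide +kernel)
theorem r5079 : PImp [l2136, l1912, l1395] l5079 := rupP (by decide +kernel)
theorem r5080 : PImp [l2135, l2027, l1904, l2023, l1293] l5080 := rupP (by decide +kernel)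
theorem r5081 : PImp [l2026, l2134, l1912, l1902, l2138, l2136, l1458] l5081 := rupP (by decide +kernel)
theorem r5082 : PImp [l2204, l2016, l2022, l1319] l5082 := rupP (by decide +kernel)
theorem r5083 : PImp [l2204, l2139, l2027, l1336] l5083 := rupP (by decide +kernel)
theorem r5084 : PImp [l2019, l2204, l2017, l2136, l1384] l5084 := rupP (by decide +kernel)
theorem r5085 : PImp [l2136, l2022, l1909, l1399] l5085 := rupP (by decide +kernel)
theorem r5086 : PImp [l2204, l2136, l2022, l1909, l1398] l5086 := rupP (by decide +kernel)
theorem r5087 : PImp [l1909, l1330] l5087 := rupP (by decide +kernel)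
theorem r5088 : PImp [l1909, l2018, l2022, l2205, l2132, l1291] l5088 := rupP (by decide +kernel)
theorem r5089 : PImp [l2019, l2132, l1905, l1909, l1452] l5089 := rupP (by decide +kernel)
theorem r5090 : PImp [l2019, l2204, l1909, l2132, l1327] l5090 := rupP (by decide +kernel)
theorem r5091 : PImp [l1909, l1905, l2205, l1374] l5091 := rupP (by decide +kernel)
theorem r5092 : PImp [l2019, l2017, l2136, l2205, l1292] l5092 := rupP (by decide +kernel)
theorem r5093 : PImp [l2027, l2136, l1902, l1467] l5093 := rupP (by decide +kernel)
theorem r5094 : PImp [l2027, l2023, l1904, l2205, l1310] l5094 := rupP (by decide +kernel)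
theorem r5095 : PImp [l2018, l2132, l1904, l1476] l5095 := rupP (by decide +kernel)
theorem r5096 : PImp [l2016, l2136, l2018, l1299] l5096 := rupP (by decide +kernel)
theorem r5097 : PImp [l2016, l2018, l2205, l1903, l2136, l1456] l5097 := rupP (by decide +kernel)
theorem r5098 : PImp [l2019, l2204, l1903, l2136, l1469] l5098 := rupP (by decide +kernel)
theorem r5099 : PImp [l2204, l2027, l1903, l2136, l1468] l5099 := rupP (by decide +kernel)
theorem r5100 : PImp [l2027, l2205, l2136, l1471] l5100 := rupP (by decide +kernel)
theorem r5101 : PImp [l1903, l2136, l2205, l2018, l1464] l5101 := rupP (by decide +kernel)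
theorem r5102 : PImp [l2137, l2133, l2026, l2139, l1442] l5102 := rupP (by decide +kernel)
theorem r5103 : PImp [l1913, l1368] l5103 := rupP (by decide +kernel)
theorem r5104 : PImp [l2027, l1369] l5104 := rupP (by decide +kernel)
theorem r5105 : PImp [l2139, l1371] l5105 := rupP (by decide +kernel)
theorem r5106 : PImp [l2026, l1912, l1372] l5106 := rupP (by decide +kernel)
theorem r5107 : PImp [l2139, l2027, l1913, l1356] l5107 := rupP (by decide +kernel)
theorem r5108 : PImp [l2026, l1910, l2140, l1353] l5108 := rupP (by decide +kernel)
theorem r5109 : PImp [l2027, l2096, l2207, l1912, l1482] l5109 := rupP (by decide +kernel)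
theorem r5110 : PImp [l2002, l1888, l1417] l5110 := rupP (by decide +kernel)
theorem r5111 : PImp [l2142, l1914, l1872, l1380] l5111 := rupP (by decide +kernel)
theorem r5112 : PImp [l2196, l1312] l5112 := rupP (by decide +kernel)
theorem r5113 : PImp [l2196, l1328] l5113 := rupP (by decide +kernel)
theorem r5114 : PImp [l1905, l2027, l1912, l1480] l5114 := rupP (by decide +kernel)
theorem r5115 : PImp [l2205, l2136, l1903, l1466] l5115 := rupP (by decide +kernel)
theorem r5116 : PImp [l1912, l2140, l2026, l1474] l5116 := rupP (by decide +kernel)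
theorem r5117 : PImp [l2027, l2132, l1905, l1375] l5117 := rupP (by decide +kernel)
theorem r5118 : PImp [l1914, l2029, l1410] l5118 := rupP (by decide +kernel)
theorem r5119 : PImp [l2022, l2132, l2136, l1908, l1904, l1419] l5119 := rupP (by decide +kernel)
theorem r5120 : PImp [l2022, l1908, l2136, l1302] l5120 := rupP (by decide +kernel)
theorem r5121 : PImp [l2207, l1868, l1981, l1359] l5121 := rupP (by decide +kernel)
theorem r5122 : PImp [l2023, l2136, l1903, l1413] l5122 := rupP (by decide +kernel)
theorem r5123 : PImp [l2204, l2136, l1912, l1385] l5123 := rupP (by decide +kernel)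
theorem r5124 : PImp [l2140, l2026, l1282] l5124 := rupP (by decide +kernel)
theorem r5125 : PImp [l2026, l1912, l1382] l5125 := rupP (by decide +kernel)
theorem r5126 : PImp [l1911, l2026, l1355] l5126 := rupP (by decide +kernel)
theorem r5127 : PImp [l1910, l1912, l2026, l1387] l5127 := rupP (by decide +kernel)
theorem r5128 : PImp [l2002, l1889, l1311] l5128 := rupP (by decide +kernel)
theorem r5129 : PImp [l1889, l2003, l1305] l5129 := rupP (by decide +kernel)
theorem r5130 : PImp [l2196, l2002, l1888, l1416] l5130 := rupP (by decide +kernel)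
theorem r5131 : PImp [l2002, l1888, l1361] l5131 := rupP (by decide +kernel)
theorem r5132 : PImp [l2053, l2056, l2170, l1943, l1939, l2166, l1447] l5132 := rupP (by decide +kernel)
theorem r5133 : PImp [l1945, l2197, l2112, l2059, l2172, l1313] l5133 := rupP (by decide +kernel)
theorem r5134 : PImp [l2112, l1379] l5134 := rupP (by decide +kernel)
theorem r5135 : PImp [l2112, l1462] l5135 := rupP (by decide +kernel)
theorem r5136 : PImp [l1947, l2060, l2226, l1344] l5136 := rupP (by decide +kernel)
theorem r5137 : PImp [l1918, l2038, l2213, l1924, l1409] l5137 := rupP (by decide +kernel)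
theorem r5138 : PImp [l1918, l2032, l2213, l1445] l5138 := rupP (by decide +kernel)
theorem r5139 : PImp [l1913, l2026, l2023, l1432] l5139 := rupP (by decide +kernel)
theorem r5140 : PImp [l2023, l1902, l1912, l1424] l5140 := rupP (by decide +kernel)
theorem r5141 : PImp [l2139, l1913, l1364] l5141 := rupP (by decide +kernel)
theorem r5142 : PImp [l2139, l2206, l2026, l1362] l5142 := rupP (by decide +kernel)
theorem r5143 : PImp [l2139, l2027, l1908, l2208, l1332] l5143 := rupP (by decide +kernel)
theorem r5144 : PImp [l2139, l2026, l1912, l1483] l5144 := rupP (by decide +kernel)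
theorem r5145 : PImp [l2206, l2027, l1912, l2140, l1907, l2208, l1383] l5145 := rupP (by decide +kernel)
theorem r5146 : PImp [l1913, l2135, l1437] l5146 := rupP (by decide +kernel)
theorem r5147 : PImp [l1913, l2027, l1365] l5147 := rupP (by decide +kernel)
theorem r5148 : PImp [l1913, l2197, l1982, l2023, l2136, l1477] l5148 := rupP (by decide +kernel)
theorem r5149 : PImp [l2027, l1906, l1912, l1377] l5149 := rupP (by decide +kernel)
theorem r5150 : PImp [l2204, l2026, l2140, l1340] l5150 := rupP (by decide +kernel)
theorem r5151 : PImp [l2026, l1912, l1484] l5151 := rupP (by decide +kernel)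
theorem r5152 : PImp [l2135, l1908, l2027, l1912, l2023, l1300] l5152 := rupP (by decide +kernel)
theorem r5153 : PImp [l2204, l2131, l2019, l2023, l1285] l5153 := rupP (by decide +kernel)
theorem r5154 : PImp [l2204, l1905, l2022, l2136, l1470] l5154 := rupP (by decide +kernel)
theorem r5155 : PImp [l2204, l1904, l2018, l2132, l2022, l1288] l5155 := rupP (by decide +kernel)
theorem r5156 : PImp [l2204, l1905, l2022, l2136, l1457] l5156 := rupP (by decide +kernel)
theorem r5157 : PImp [l2027, l2136, l2205, l1381] l5157 := rupP (by decide +kernel)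
theorem r5158 : PImp [l1914, l2142, l2029, l1455] l5158 := rupP (by decide +kernel)
theorem r5159 : PImp [l2204, l2027, l1338] l5159 := rupP (by decide +kernel)
theorem r5160 : PImp [l2176, l1948, l1449] l5160 := rupP (by decide +kernel)
theorem r5161 : PImp [l2144, l2031, l2211, l1916, l1350] l5161 := rupP (by decide +kernel)
theorem r5162 : PImp [l1916, l2144, l2211, l1444] l5162 := rupP (by decide +kernel)
theorem r5163 : PImp [l2144, l1916, l1872, l2211, l1351] l5163 := rupP (by decide +kernel)
theorem r5164 : PImp [l2205, l1912, l2026, l2140, l1475] l5164 := rupP (by decide +kernel)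
theorem r5165 : PImp [l2112, l2063, l1460] l5165 := rupP (by decide +kernel)
theorem r5166 : PImp [l2003, l1888, l1303] l5166 := rupP (by decide +kernel)
theorem r5167 : PImp [l2063, l1948, l1428] l5167 := rupP (by decide +kernel)
theorem r5168 : PImp [l2224, l1943, l2062, l1948, l1451] l5168 := rupP (by decide +kernel)
theorem r5169 : PImp [l2112, l1430] l5169 := rupP (by decide +kernel)
theorem r5170 : PImp [l2112, l1461] l5170 := rupP (by decide +kernel)
theorem r5171 : PImp [l2062, l2113, l2169, l2224, l1459] l5171 := rupP (by decide +kernel)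
theorem r5172 : PImp [l1988, l2103, l1874, l1490] l5172 := rupP (by decide +kernel)
theorem r5173 : PImp [l2016, l2140, l1493] l5173 := rupP (by decide +kernel)
theorem r5174 : PImp [l2051, l2218, l2158, l1502] l5174 := rupP (by decide +kernel)
theorem r5175 : PImp [l1930, l2218, l2158, l2050, l1503] l5175 := rupP (by decide +kernel)
theorem r5176 : PImp [l2106, l1505] l5176 := rupP (by decide +kernel)
theorem r5177 : PImp [l2112, l1508] l5177 := rupP (by decide +kernel)
theorem r5178 : PImp [l2197, l1512] l5178 := rupP (by decide +kernel)
theorem r5179 : PImp [l2169, l1516] l5179 := rupP (by decide +kernel)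
theorem r5180 : PImp [l2170, l1889, l1517] l5180 := rupP (by decide +kernel)
theorem r5181 : PImp [l2230, l1518] l5181 := rupP (by decide +kernel)
theorem r5182 : PImp [l1888, l2170, l1519] l5182 := rupP (by decide +kernel)
theorem r5183 : PImp [l2170, l1888, l1520] l5183 := rupP (by decide +kernel)
theorem r5184 : PImp [l1888, l2170, l1523] l5184 := rupP (by decide +kernel)
theorem r5185 : PImp [l2170, l1526] l5185 := rupP (by decide +kernel)
theorem r5186 : PImp [l2045, l1931, l2158, l1539] l5186 := rupP (by decide +kernel)
theorem r5187 : PImp [l2218, l2045, l1935, l2157, l2161, l1931, l1541] l5187 := rupP (by decide +kernel)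
theorem r5188 : PImp [l2155, l2157, l1929, l2045, l1931, l1545] l5188 := rupP (by decide +kernel)
theorem r5189 : PImp [l2032, l2213, l1554] l5189 := rupP (by decide +kernel)
theorem r5190 : PImp [l2155, l1935, l2161, l2157, l2045, l1556] l5190 := rupP (by decide +kernel)
theorem r5191 : PImp [l2045, l2157, l1931, l1557] l5191 := rupP (by decide +kernel)
theorem r5192 : PImp [l1948, l2175, l2062, l1573] l5192 := rupP (by decide +kernel)
theorem r5193 : PImp [l2068, l1588] l5193 := rupP (by decide +kernel)
theorem r5194 : PImp [l1955, l2248, l2236, l2068, l1947, l2173, l2060, l1595] l5194 := rupP (by decide +kernel)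
theorem r5195 : PImp [l2221, l2219, l1935, l1931, l2161, l2157, l2054, l1597] l5195 := rupP (by decide +kernel)
theorem r5196 : PImp [l2248, l1935, l1931, l2161, l2157, l2219, l2225, l2183, l2054, l1598] l5196 := rupP (by decide +kernel)
theorem r5197 : PImp [l1882, l1602] l5197 := rupP (by decide +kernel)
theorem r5198 : PImp [l2220, l1934, l2048, l2164, l2162, l1625] l5198 := rupP (by decide +kernel)
theorem r5199 : PImp [l1934, l2220, l2164, l2162, l2160, l1626] l5199 := rupP (by decide +kernel)
theorem r5200 : PImp [l1934, l2163, l2161, l1630] l5200 := rupP (by decide +kernel)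
theorem r5201 : PImp [l2220, l1935, l2163, l2161, l2223, l1947, l2054, l1631] l5201 := rupP (by decide +kernel)
theorem r5202 : PImp [l2163, l2161, l2157, l2223, l2053, l1947, l2054, l1632] l5202 := rupP (by decide +kernel)
theorem r5203 : PImp [l2221, l1935, l2161, l2157, l2053, l2054, l1633] l5203 := rupP (by decide +kernel)
theorem r5204 : PImp [l2220, l1935, l2163, l2161, l2054, l1636] l5204 := rupP (by decide +kernel)
theorem r5205 : PImp [l1882, l1640] l5205 := rupP (by decide +kernel)
theorem r5206 : PImp [l1882, l1646] l5206 := rupP (by decide +kernel)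
theorem r5207 : PImp [l1934, l1939, l1941, l1947, l1647] l5207 := rupP (by decide +kernel)
theorem r5208 : PImp [l2160, l2047, l1933, l1657] l5208 := rupP (by decide +kernel)
theorem r5209 : PImp [l1936, l1943, l1947, l1668] l5209 := rupP (by decide +kernel)
theorem r5210 : PImp [l2210, l1937, l2051, l2045, l1931, l2163, l2157, l1948, l1679] l5210 := rupP (by decide +kernel)
theorem r5211 : PImp [l2212, l2045, l1931, l2157, l1689] l5211 := rupP (by decide +kernel)
theorem r5212 : PImp [l2210, l2043, l1931, l2157, l1693] l5212 := rupP (by decide +kernel)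
theorem r5213 : PImp [l2210, l2246, l2043, l1929, l2157, l1888, l1699] l5213 := rupP (by decide +kernel)
theorem r5214 : PImp [l2211, l1888, l1708] l5214 := rupP (by decide +kernel)
theorem r5215 : PImp [l2141, l2099, l1711] l5215 := rupP (by decide +kernel)
theorem r5216 : PImp [l2099, l1721] l5216 := rupP (by decide +kernel)
theorem r5217 : PImp [l2101, l1724] l5217 := rupP (by decide +kernel)
theorem r5218 : PImp [l2100, l1727] l5218 := rupP (by decide +kernel)
theorem r5219 : PImp [l2108, l1732] l5219 := rupP (by decide +kernel)
theorem r5220 : PImp [l2143, l2147, l1937, l2045, l1931, l1733] l5220 := rupP (by decide +kernel)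
theorem r5221 : PImp [l2143, l2147, l2220, l1937, l2045, l1931, l1734] l5221 := rupP (by decide +kernel)
theorem r5222 : PImp [l1955, l1886, l1737] l5222 := rupP (by decide +kernel)
theorem r5223 : PImp [l1935, l2162, l2158, l1743] l5223 := rupP (by decide +kernel)
theorem r5224 : PImp [l2226, l2158, l2156, l1752] l5224 := rupP (by decide +kernel)
theorem r5225 : PImp [l2219, l1931, l2158, l1756] l5225 := rupP (by decide +kernel)
theorem r5226 : PImp [l2219, l1931, l2158, l1757] l5226 := rupP (by decide +kernel)
theorem r5227 : PImp [l2218, l1935, l2162, l2158, l2156, l2220, l1759] l5227 := rupP (by decide +kernel)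
theorem r5228 : PImp [l2048, l2220, l1934, l2164, l2162, l1764] l5228 := rupP (by decide +kernel)
theorem r5229 : PImp [l1934, l2226, l2164, l2162, l2158, l1947, l1765] l5229 := rupP (by decide +kernel)
theorem r5230 : PImp [l2112, l1772] l5230 := rupP (by decide +kernel)
theorem r5231 : PImp [l1947, l2173, l2226, l2060, l1780] l5231 := rupP (by decide +kernel)
theorem r5232 : PImp [l2170, l1888, l1790] l5232 := rupP (by decide +kernel)
theorem r5233 : PImp [l2172, l1791] l5233 := rupP (by decide +kernel)
theorem r5234 : PImp [l2218, l2162, l1935, l1792] l5234 := rupP (by decide +kernel)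
theorem r5235 : PImp [l1889, l2002, l1795] l5235 := rupP (by decide +kernel)
theorem r5236 : PImp [l1889, l2172, l1801] l5236 := rupP (by decide +kernel)
theorem r5237 : PImp [l2112, l1803] l5237 := rupP (by decide +kernel)
theorem r5238 : PImp [l2048, l2044, l2162, l1935, l1805] l5238 := rupP (by decide +kernel)
theorem r5239 : PImp [l2220, l2048, l2050, l2162, l1935, l1806] l5239 := rupP (by decide +kernel)
theorem r5240 : PImp [l2218, l2044, l2162, l1935, l1807] l5240 := rupP (by decide +kernel)
theorem r5241 : PImp [l2172, l2044, l2162, l1935, l1809] l5241 := rupP (by decide +kernel)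
theorem r5242 : PImp [l2219, l2221, l2049, l2162, l1935, l1815] l5242 := rupP (by decide +kernel)
theorem r5243 : PImp [l2227, l2162, l1935, l1816] l5243 := rupP (by decide +kernel)
theorem r5244 : PImp [l2044, l2162, l1935, l1817] l5244 := rupP (by decide +kernel)
theorem r5245 : PImp [l2160, l1933, l1821] l5245 := rupP (by decide +kernel)
theorem r5246 : PImp [l2112, l1824] l5246 := rupP (by decide +kernel)
theorem r5247 : PImp [l1889, l1828] l5247 := rupP (by decide +kernel)
theorem r5248 : PImp [l1889, l1829] l5248 := rupP (by decide +kernel)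
theorem r5249 : PImp [l2114, l1835] l5249 := rupP (by decide +kernel)
theorem r5250 : PImp [l2162, l1935, l1837] l5250 := rupP (by decide +kernel)
theorem r5251 : PImp [l2111, l1889, l1838] l5251 := rupP (by decide +kernel)
theorem r5252 : PImp [l2045, l2161, l1935, l1840] l5252 := rupP (by decide +kernel)
theorem r5253 : PImp [l2044, l2161, l1935, l1841] l5253 := rupP (by decide +kernel)
theorem r5254 : PImp [l1889, l1842] l5254 := rupP (by decide +kernel)
theorem r5255 : PImp [l1244, l1139] l5255 := rupP (by decide +kernel)
theorem r5256 : PImp [l1244, l1140] l5256 := rupP (by decide +kernel)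
theorem r5257 : PImp [l1245, l1139] l5257 := rupP (by decide +kernel)
theorem r5258 : PImp [l1246, l1268] l5258 := rupP (by decide +kernel)
theorem r5259 : PImp [l1247, l1268] l5259 := rupP (by decide +kernel)
theorem r5260 : PImp [l1140, l1268] l5260 := rupP (by decide +kernel)
theorem r5261 : PImp [o2775, o2766] l5261 := rupP (by decide +kernel)
theorem r5262 : PImp [o2775, o2765] l5262 := rupP (by decide +kernel)
theorem r5263 : PImp [o2784, o2780] l5263 := rupP (by decide +kernel)
theorem r5264 : PImp [o2746, o2744] l5264 := rupP (by decide +kernel)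
theorem r5265 : PImp [o2451, o2460] l5265 := rupP (by decide +kernel)
theorem r5266 : PImp [o2461, o2443] l5266 := rupP (by decide +kernel)
theorem r5267 : PImp [o2444, o2460] l5267 := rupP (by decide +kernel)
theorem r5268 : PImp [l427, l4655, l2970, l797] l5268 := rupP (by decide +kernel)
theorem r5269 : PImp [l4655, l3005] l5269 := rupP (by decide +kernel)
theorem r5270 : PImp [l423, l427, l4655, l3006] l5270 := rupP (by decide +kernel)
theorem r5271 : PImp [l423, l427, l4655, l3007] l5271 := rupP (by decide +kernel)
theorem r5272 : PImp [l422, l427, l4655, l1145] l5272 := rupP (by decide +kernel)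
theorem r5273 : PImp [l422, l427, l4655, l1146] l5273 := rupP (by decide +kernel)
theorem r5274 : PImp [l427, l4655, l2970, l798] l5274 := rupP (by decide +kernel)
theorem r5275 : PImp [l328, l4655, l427, l977] l5275 := rupP (by decide +kernel)
theorem r5276 : PImp [l4655, l4654] l5276 := rupP (by decide +kernel)
theorem r5277 : PImp [l328, l4655, l427, l978] l5277 := rupP (by decide +kernel)
theorem r5278 : PImp [l328, l4655, l428, l325, l1259] l5278 := rupP (by decide +kernel)
theorem r5279 : PImp [o8724, o8626] l5279 := rupP (by decide +kernel)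
theorem r5280 : PImp [l4153, l4156, l5253, l3825] l5280 := rupP (by decide +kernel)
theorem r5281 : PImp [l5113, l3008, l5280, o8724, l5279, l2635, l5231] l5281 := rupP (by decide +kernel)
theorem r5282 : PImp [l2698, l4897, l2683] l5282 := rupP (by decide +kernel)
theorem r5283 : PImp [l3493, l4897, l3489] l5283 := rupP (by decide +kernel)
theorem r5284 : PImp [l4134, o4785, o3467, l5113, l2989, l2987, l2992, l1767, l5178, l481, l5283, l3934, l3400, l3816, l5282, l4165, l4129, o8689, o8608, l2626, l3849, l3126, o2343, l5272, o8721, o4501, o8416, l3446] l5284 := rupP (by decide +kernel)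
theorem r5285 : PImp [o3467, l5113, l2992, l3008, l481, l4134, l5284, o4709, o4725, o4814, l1218, l4967, l4890, l3400, l3813, o9175, o8416] l5285 := rupP (by decide +kernel)
theorem r5286 : PImp [l5036, l1767, l3008, l2820, l3929, o4704, o4709, o4725, o4510, o4509, o4500, l1218, l4966, l4967, l5136, l3389, l3418, l4618, l5233, l3217, l2534] l5286 := rupP (by decide +kernel)
theorem r5287 : PImp [l1767, l3929, l428, l1218, l3389, l3418, l5232, l5236] l5287 := rupP (by decide +kernel)
theorem r5288 : PImp [l1767, l5113, l3008, l481, l2820, l3929, l5286, l5280, l5281, o8722, o5485, o5488, o4979, l5287, l1412, l5269, l2767, o4258, l3007, l1146, l1590, l5197, l5038, l3825, l5253] l5288 := rupP (by decide +kernel)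
theorem r5289 : PImp [l481, l5283, l5282, l3816] l5289 := rupP (by decide +kernel)
theorem r5290 : PImp [l5113, l2991, l2992, l3008, l481, o4796, o4785, l5288, l4135, l4132, l5285, l4182, l4165, l5289, o4704, o4709, o4725, o4837, o4451, l1218, l4967, l4890, l3935, l2698, l4256, o8722, l3829, o4966] l5290 := rupP (by decide +kernel)
theorem r5291 : PImp [l3008, o4709, o4725, o4814, l1217, l1218, l4967, l642, l667, l4890, o8417, l3400, o8419, l2300, l671, l4568, l4567, o9175] l5291 := rupP (by decide +kernel)
theorem r5292 : PImp [o5462, l5113, l2987, l2992, l1767, l5178, l481, l4135, l5291, o4305, l5283, l5289, l3934, l4129, o8689, l1779, l671, l3126, l3403] l5292 := rupP (by decide +kernel)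
theorem r5293 : PImp [l5113, l2989, l2987, l2992, l481, l5283, l5289, l3849, l3934, o8689] l5293 := rupP (by decide +kernel)
theorem r5294 : PImp [o3467, l5113, l2992, l1767, l3008, l481, l2820, l5290, o5462, o5467, l5292, l5286, o4977, l2757, o4305, l5287, o4258, l1145, l5293, l5038, l3825, l5253] l5294 := rupP (by decide +kernel)
theorem r5295 : PImp [l5113, l481, l3929, l2992, l5294, l3342, l5253, l5038, l5283, l4890, o4725, l4967] l5295 := rupP (by decide +kernel)
theorem r5296 : PImp [l2845, l2846, l480, l481, l3493, l4225, l4242, l5039, l5187] l5296 := rupP (by decide +kernel)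
theorem r5297 : PImp [l5296, l5037, l5038, l5253, l5187] l5297 := rupP (by decide +kernel)
theorem r5298 : PImp [l480, l481, l5038, l5253, l2733, l3147, l390, l4796] l5298 := rupP (by decide +kernel)
theorem r5299 : PImp [o4709, o4819, l3813, l1217, o8323, o8416] l5299 := rupP (by decide +kernel)
theorem r5300 : PImp [l5297, l2992, o3467, o4958, l5289, l3816, l4165, l4183, o8721, l2638, o9008, o8623, l1145, l3427, l1210, l3444] l5300 := rupP (by decide +kernel)
theorem r5301 : PImp [l2750, o4315, l5297, l2992, l3008, o3469, o3467, l481, l3929, l3400, l3338, l5300, o4709, l3813, o4842, l5299, l1217, l668, l4568, o8418, l2273] l5301 := rupP (by decide +kernel)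
theorem r5302 : PImp [l5297, l480, l481, l5113, l5295, l5298, l5301, l5253, l3493, l390, l3489, l3511] l5302 := rupP (by decide +kernel)
theorem r5303 : PImp [l480, l481, l5253, l3493, l390, l3489, l3511] l5303 := rupP (by decide +kernel)
theorem r5304 : PImp [l5297, l480, l481, l5303, l4617, l5039, l2698, l4240, l390, l4242, l4225] l5304 := rupP (by decide +kernel)
theorem r5305 : PImp [l5297, l5302, l5304, l5037, l5038, l4617, l5253] l5305 := rupP (by decide +kernel)
theorem r5306 : PImp [l5038, l1242, o5169, o5168, l3503, l390, l3507, l3485] l5306 := rupP (by decide +kernel)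
theorem r5307 : PImp [l5038, l5037, l5306, l2676, l2846, l2845, l2680, l3507, l485, l3514, l3492] l5307 := rupP (by decide +kernel)
theorem r5308 : PImp [l5307, l5038, l5037, l2846, l2845, l2642, l4623, l485, l3147, l4796] l5308 := rupP (by decide +kernel)
theorem r5309 : PImp [o8722, l3449, o8417, o5744, o5356, o8419, l4567, l2300] l5309 := rupP (by decide +kernel)
theorem r5310 : PImp [l3929, l4415, l4416, l4406, o2769, l2922, l1245, o2764, o4324, l4379, l4373, l3356, l3346] l5310 := rupP (by decide +kernel)
theorem r5311 : PImp [l5037, l5307, l5308, l2641, o3467, l2821, l4415, l5310, l2926, o3187, l1145, l3824, o4492] l5311 := rupP (by decide +kernel)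
theorem r5312 : PImp [l5305, l5308, l476, l5037, l5307, l3935, l2641, l4802, l2627, o2357, l473, l3934, l4591, l2626, o2343, l3129, o3467, l3400, l3396, l4165, l5309, o5739, o4819, o8721, l3825, o8701] l5312 := rupP (by decide +kernel)
theorem r5313 : PImp [l5305, l473, l476, l2820, l3929, l5037, l5038, l4099, l4135, l5307, l3934, l3935, l5308, o3467, l2641, l4591, l4802, l3139, l3129, l5311, o8417, l3404, l4405, o4809, o4509, o3182, o3191, l2939, l5270, l5312, l5208, o5336, l390, l3146] l5313 := rupP (by decide +kernel)
theorem r5314 : PImp [l485, l4237, l5200, l390, l4221] l5314 := rupP (by decide +kernel)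
theorem r5315 : PImp [l476, o4494, l4655, l2642, l5188, l2991, l3826] l5315 := rupP (by decide +kernel)
theorem r5316 : PImp [l3934, l4589, l2989, l3849] l5316 := rupP (by decide +kernel)
theorem r5317 : PImp [l476, o4494, l4655, l3935, l3934, l473, l5315, l5039, l5316, l2846, l2696, l2706, l4238, l4255, l3849, o5168, o5165, l4250, l3853] l5317 := rupP (by decide +kernel)
theorem r5318 : PImp [l5039, l3935, l3934, l473, l476, l2846, l2696, l2706, l4238, l4255, l3849, o5168, o5165, l4250, l3853] l5318 := rupP (by decide +kernel)
theorem r5319 : PImp [l3934, l473, l476, o8417, o5363, o4809, o4795, o4529, o4537, o4494, l4655, l3006, l1145, l5317, l5191, l5318, l2704, l2989, l3849] l5319 := rupP (by decide +kernel)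
theorem r5320 : PImp [l5318, l2694] l5320 := rupP (by decide +kernel)
theorem r5321 : PImp [l476, o5363, o4809, o4795, o4529, o4537, o4494, l4655, l3006, l1145, l5320, l5191, l5315] l5321 := rupP (by decide +kernel)
theorem r5322 : PImp [l429, l3006, l1145, l3934, l473, l5320, l2642, l2989, l4591, l3849] l5322 := rupP (by decide +kernel)
theorem r5323 : PImp [l429, l3006, l1145, l4165, l2642, l5188, l5315, l4183, o3467, l2991, l3830, o8323, o8416] l5323 := rupP (by decide +kernel)
theorem r5324 : PImp [l5039, l2694, l2846, l2845, l2696, l4238, l485, l4242, l4225] l5324 := rupP (by decide +kernel)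
theorem r5325 : PImp [l5324, l429, l3006, l5191, l5322, l5323, o4794] l5325 := rupP (by decide +kernel)
theorem r5326 : PImp [l5324, l4165, l3400, l3396, l2820, l3929, l5325, l422, l1210, o4529, o4528, o4510, l3460, o5365, l3444, l2630, o8419, l4156, l671, l3368] l5326 := rupP (by decide +kernel)
theorem r5327 : PImp [l3929, l4156, l4213, l4879, l4866] l5327 := rupP (by decide +kernel)
theorem r5328 : PImp [l2630, l667, l3445] l5328 := rupP (by decide +kernel)
theorem r5329 : PImp [l5313, l5305, l473, l3396, l5319, l5324, l4165, l5326, l4655, l2920, l2926, l428, o4544, o4512, o5346, l5328, o8419, l671, l5327] l5329 := rupP (by decide +kernel)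
theorem r5330 : PImp [l2919, l2925, l5327] l5330 := rupP (by decide +kernel)
theorem r5331 : PImp [l2820, l3929, l495, l496, l493, l3403, l3368, l3460, l1218, l428, o4873, o4878, o4887, l1412, l4857, l4832, l4846, o2776, l2907] l5331 := rupP (by decide +kernel)
theorem r5332 : PImp [l4213, l4156, l2820, l3929, l671, l5330, l5331, l490, o4512, o4517, o4544, l1149, l3029, l1412, l3456, l3216, l3403, l4866, l4882, o4509, o5483, l2916, l5268, l4087, l4619, l3486, l3482] l5332 := rupP (by decide +kernel)
theorem r5333 : PImp [l4156, l2820, l5332, o5380, o5376, o5359, o4510, l5272, l5274, l3456, l1779, l3408, o8704] l5333 := rupP (by decide +kernel)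
theorem r5334 : PImp [l427, l5268, l1412, l3486, l390, l3475, l3482, l3495, l3504] l5334 := rupP (by decide +kernel)
theorem r5335 : PImp [l485, l390, l3482, l3504] l5335 := rupP (by decide +kernel)
theorem r5336 : PImp [l5334, l485, l482, o4468, o4481, l5335, l3486, l4895, l3508, o2739, l4893, l3521, l4907, l3520] l5336 := rupP (by decide +kernel)
theorem r5337 : PImp [l3489, l3493] l5337 := rupP (by decide +kernel)
theorem r5338 : PImp [l5334, l1412, l5269, o4255, l4087, l5336, l5337] l5338 := rupP (by decide +kernel)
theorem r5339 : PImp [o5169, l3493, l1242, l2845, l2676] l5339 := rupP (by decide +kernel)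
theorem r5340 : PImp [l473, l2688, l5333, l3394, l5338, o4496, l5339, l5335, l3486, l5276, l4895, l4967, l4890] l5340 := rupP (by decide +kernel)
theorem r5341 : PImp [l5334, l485, o4481, l5335, l3486, l4895, l3508, l4893, l2846, l2677] l5341 := rupP (by decide +kernel)
theorem r5342 : PImp [l473, l2300, o771, l4568, l4209, l5340, l4164, l5341, l5337, l3493, l5269, l5275, l2845, o2889, o4496, l2677, l4893] l5342 := rupP (by decide +kernel)
theorem r5343 : PImp [l473, l5337, l3493, l5339, l5269, l5275, l2845, o2889, o4496, l2677, l4893] l5343 := rupP (by decide +kernel)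
theorem r5344 : PImp [l5343, l485, l390, l2845, l5335, l3503, l5039, l2676] l5344 := rupP (by decide +kernel)
theorem r5345 : PImp [o8419, o8445] l5345 := rupP (by decide +kernel)
theorem r5346 : PImp [l2820, l4165, l4129, l3418, l1218, l1149, o4859, l3456] l5346 := rupP (by decide +kernel)
theorem r5347 : PImp [l5305, l5313, l5329, l5342, l5343, l5344, l3486, l5268, l5276, o4511, o4509, o4481, l3008, o5404, o5402, l4895, o8417, l4893, l4890, l4967, o4255, l1767, l5345, l2630, l5346, l5039, l5341] l5347 := rupP (by decide +kernel)
theorem r5348 : PImp [l5303, l5343, l4133, l4129, l5341] l5348 := rupP (by decide +kernel)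
theorem r5349 : PImp [l3213, l4846, l4832, o2776] l5349 := rupP (by decide +kernel)
theorem r5350 : PImp [l4215, l4157, l3929, l5303, l5343, l5344, l3486, l5268, l5276, o4511, o4509, o4481, l3008, o5402, l4895, o8397, l4890, l4967, l1412, o4255, o4909, o4905, o4899, l1767, l4087, o4318, o4250, l3029, l5349, l4860, l4858] l5350 := rupP (by decide +kernel)
theorem r5351 : PImp [o4313, o4315, l3216, l3929, l501, l3403, l4858, l4880, l2908, l4860, l4868, l2922, l5182, o2764, l4832] l5351 := rupP (by decide +kernel)
theorem r5352 : PImp [l3216, l3929, o4314, l5351, o4509, o4562, l5270, l1412, l4882, l4087, l2916, l4880, l4866] l5352 := rupP (by decide +kernel)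
theorem r5353 : PImp [l3216, l5350, l4157, o4509, l3408, l5270, l5272, l5304, l4882, l4880, o8397, o4809, o4795, l5321, l5317] l5353 := rupP (by decide +kernel)
theorem r5354 : PImp [o5376, o4495, l671, l5345, l3813] l5354 := rupP (by decide +kernel)
theorem r5355 : PImp [l3929, l5182, l4832] l5355 := rupP (by decide +kernel)
theorem r5356 : PImp [l5347, l5350, l3400, l3396, l4215, l4157, l2820, l3929, l3216, l2630, l2632, l5352, l2751, l5353, l501, l3403, l4880, o3171, l2925, l2926, o3179, l4882, l5270, l4868, l3006, o4255, o2769, l2922, o2764, o3064, l4966, o2749, l5354, l481, l5304, o8702, l5355, o4998, o4979, l2253, l5299, o8396] l5356 := rupP (by decide +kernel)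
theorem r5357 : PImp [l3148, l4868, o2769, l4866, o3064, o2749, o8396, l3813, o8416] l5357 := rupP (by decide +kernel)
theorem r5358 : PImp [o4819, l3400, l3929, o3171, l2925, o3179, l5357, l4881, l4867, l2922, o2764, l5355, o4315, l4836, l1778] l5358 := rupP (by decide +kernel)
theorem r5359 : PImp [l3929, l4879, l4880, l4868, l4866] l5359 := rupP (by decide +kernel)
theorem r5360 : PImp [l501, l5356, l3129, l3213, l5347, l5350, l3396, l3935, l4215, l4157, l5359, l2926, l5358, l3006, o4495, l5297, l5304, l2992, l5289, o8702, l4129, l2735, o8397, l671, o5372] l5360 := rupP (by decide +kernel)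
theorem r5361 : PImp [l3929, l2925, l4882, l4881, l4867, l2922, o2764, l5355, o4315, l4836, l1778] l5361 := rupP (by decide +kernel)
theorem r5362 : PImp [l5356, l3213, l5347, l4215, l4157, l3929, l501, l5360, l5361, l4879, l4880, o8397, l4866, o4791, o8702, l5261, l5304, l4857, o4458, o4873] l5362 := rupP (by decide +kernel)
theorem r5363 : PImp [l4857, l4861] l5363 := rupP (by decide +kernel)
theorem r5364 : PImp [l3929, l4879, l4880, l5261, l4866] l5364 := rupP (by decide +kernel)
theorem r5365 : PImp [l5347, l2820, l3929, l4157, l4215, l5356, l3213, l5362, l487, o4509, l3407, o4544, l5270, l1412, l5363, l5364, l4882, l4867, l2922, o2764, l4832, l4836] l5365 := rupP (by decide +kernel)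
theorem r5366 : PImp [l4832, o4315, l4836, l1778] l5366 := rupP (by decide +kernel)
theorem r5367 : PImp [l5035, l3929, l4868, l4882] l5367 := rupP (by decide +kernel)
theorem r5368 : PImp [l3217, l4867, l1412, l427, l428, o4510, l1218, l3389] l5368 := rupP (by decide +kernel)
theorem r5369 : PImp [l5036, l2820, l3929, l427, l428, o4544, l4966, l4967, o4510, o4512, l1218, l2534, l5136, l3460, l3389, l5183, o4315, l2751, l4618, l5233] l5369 := rupP (by decide +kernel)
theorem r5370 : PImp [o4909, l3347, l4833, l4835] l5370 := rupP (by decide +kernel)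
theorem r5371 : PImp [l2260, o4835, o8704, o8739, l3342, l4423] l5371 := rupP (by decide +kernel)
theorem r5372 : PImp [o4315, o4910, o4255, l3383, l5272] l5372 := rupP (by decide +kernel)
theorem r5373 : PImp [l671, o8704] l5373 := rupP (by decide +kernel)
theorem r5374 : PImp [l5038, l5307, l5253] l5374 := rupP (by decide +kernel)
theorem r5375 : PImp [l5374, l5037, l5191, l5373, l5298] l5375 := rupP (by decide +kernel)
theorem r5376 : PImp [l3929, l4416, l4406] l5376 := rupP (by decide +kernel)
theorem r5377 : PImp [l5374, l5037, l5297, l5298, l4617] l5377 := rupP (by decide +kernel)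
theorem r5378 : PImp [l2820, l5347, l5365, l5037, l5038, l5374, l3934, l3935, l3400, l5377, l476, l473, l5308, o3467, l2641, l4802, o8397, l4591, l2627, l3129, o4809, o4791, o8702, o5363, o2352, o4487, l4656, l2988, l3006, l2955, l5208, l390, l3146, l4796, o5482, l3147, o8701, o5387, l4134, o8721, l3409] l5378 := rupP (by decide +kernel)
theorem r5379 : PImp [o4529, o4537, l3439, l4656, l1145] l5379 := rupP (by decide +kernel)
theorem r5380 : PImp [l2637, l2631, l3929, l5037, l5374, l5377, l3935, l3396, l476, l5308, l2641, l4802, l3127, l5379, l3419, o5365, l667] l5380 := rupP (by decide +kernel)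
theorem r5381 : PImp [l476, l3935, l2637, l2631, l2641, l4802, l5379, l3127, l3419, o5365, l667] l5381 := rupP (by decide +kernel)
theorem r5382 : PImp [l473, l3934, l5036, l2637, l2631, l2820, l5381, l2642, l4590, l5270, l3126, o4510, l3367, o5380, l667] l5382 := rupP (by decide +kernel)
theorem r5383 : PImp [l5039, l2846, l2845, l2696, l4238, l485, l4242, l4225] l5383 := rupP (by decide +kernel)
theorem r5384 : PImp [l3338, l3935, l5036, l2637, l2631, l2820, l476, l5382, l5324, l2689, l5383, o3469, l4254, l3127, l4253, l3130, l667, l1102, o5380, l3375] l5384 := rupP (by decide +kernel)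
theorem r5385 : PImp [l5036, l5380, l4157, l2631, l2820, l3929, l3934, l3396, l5384, l481, l5297, l5304, l5113, l5301, l2992, l2987, l1767, l5286, l3816, l5281, o4305, l5289, o5445, o8689, l5328, l3126] l5385 := rupP (by decide +kernel)
theorem r5386 : PImp [l2637, l2820, l3929, l5036, l5380, l5385, l5303, l5343, l5344, l3477, l3486, l5112, l5268, l3008, o4510, l3389, l1210, l1218, o4249, l1145, l1767, l3439, o4858] l5386 := rupP (by decide +kernel)
theorem r5387 : PImp [o4315, o4314, l4834, l5349, l4087] l5387 := rupP (by decide +kernel)
theorem r5388 : PImp [l2740, l4834, l4846, l5349, l2907] l5388 := rupP (by decide +kernel)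
theorem r5389 : PImp [l3929, l5035, l5387, l5366, l1778, l5363, l5364, l5388, l4838, l4618, o2764, l5367, l4881, l4867] l5389 := rupP (by decide +kernel)

end Pool.Agent.BDD.A
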