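import Pool.Agent.BDD.AC
import Pool.Agent.BDD.AE0
import Pool.Agent.BDD.AE1
import Pool.Agent.BDD.AE2
import Pool.Agent.BDD.AD0
import Pool.Agent.BDD.AD1
import Pool.Agent.BDD.AD2

set_option autoImplicit false
set_option linter.all false

namespace Pool.Agent.BDD.A

theorem r5390 : PImp [l3929, l2631, l2637, l5386, l5035, l5389, l2919, l2925, l4879, l4880, l4866] l5390 := rupP (by decide +kernel)
theorem r5391 : PImp [l4087, l3929, l5035, l5352, l5349] l5391 := rupP (by decide +kernel)
theorem r5392 : PImp [l2820, l3929, l3341, l3397, l5374, l5303, l5343, l5344, l3486, l5268, l5276, o4511, o4509, o4481, l3008, o5404, l4895, l4890, l4893, l4967, l1412, o4909, o4255, o4905, l5338, l1767, l5039, l5391, l4157, l4156, l5346, l2630, l3404, l5345] l5392 := rupP (by decide +kernel)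
theorem r5393 : PImp [l2630, l4156, l3929, o4510, o4509, o5380, l3404, l4398, o8419, l5345, o3194, l3342, l4893, l4887] l5393 := rupP (by decide +kernel)
theorem r5394 : PImp [l5297, l5308, l5268, l5270, l3486, l2642, l5383] l5394 := rupP (by decide +kernel)
theorem r5395 : PImp [l4156, l4157, l2812, l3929, l3216, l2630, l3404, o8419, l4415, l3342, l4416, l3493, o8561, o5402] l5395 := rupP (by decide +kernel)
theorem r5396 : PImp [l3493, l3486, l485, l5276, l3508, l1210, l3507, l1145] l5396 := rupP (by decide +kernel)
theorem r5397 : PImp [l5297, l2812, l5394, o4510, o5380, o4509, o4511, l476, l5308, l5395, l3129, l3418, l5396, l3935, l5383, l2642, l4624] l5397 := rupP (by decide +kernel)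
theorem r5398 : PImp [l5035, l3929, l2919, l2925, l4879, l4880, l4866] l5398 := rupP (by decide +kernel)
theorem r5399 : PImp [l3213, l5389] l5399 := rupP (by decide +kernel)
theorem r5400 : PImp [l2820, l5390, l5392, l5378, o3807, o3468, o3476, l2812, l5394, o4509, l5397, l5398, l5399, l3216, l3403, l4880, o3210, l5367] l5400 := rupP (by decide +kernel)
theorem r5401 : PImp [o3210, l5367] l5401 := rupP (by decide +kernel)
theorem r5402 : PImp [l5035, l3929, l2258, o3807, l5401, l4880, o3209, l4866] l5402 := rupP (by decide +kernel)
theorem r5403 : PImp [l2846, l5174, l480, l5250, l4614, l2699, l4241] l5403 := rupP (by decide +kernel)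
theorem r5404 : PImp [l2845, l2846, l481, l480, l5250, l5228] l5404 := rupP (by decide +kernel)
theorem r5405 : PImp [l5035, l5352, l2751, l3216, l3219, l3929, l4880, l4866, l3403, l2916, l487, l4618, o4544, l1412, l5403, l5404, l476, l5175, l2848, l3530, l2678] l5405 := rupP (by decide +kernel)
theorem r5406 : PImp [l3223, l5404, l2669, l473, o5380, l4129, l2678, l671, l2530, l3392] l5406 := rupP (by decide +kernel)
theorem r5407 : PImp [l3934, l3223, l5174, o4452, l4615, o6789] l5407 := rupP (by decide +kernel)
theorem r5408 : PImp [l5398, l2820, l5035, l5399, l5352, l1778, l5112, l2751, l3216, l5400, l3929, l2846, l2845, l5405, o3166, l4882, l5367, l5270, l3006, l2922, o2764, l4866, o4510, l2771, l4968, l5366, l4833, l1218, l5131, l5406, l5407, l481, l480, l5250, l5038, l4241, l4224] l5408 := rupP (by decide +kernel)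
theorem r5409 : PImp [l5112, l2992, l5250, l4613, l5038, l2691, l2697, l1145, l3815, l1210, l3812] l5409 := rupP (by decide +kernel)
theorem r5410 : PImp [l3219, l3935, l5409, l476, l4616, l4253, l2693] l5410 := rupP (by decide +kernel)
theorem r5411 : PImp [l476, l2988, l2992, l3223, l3219, l5037, l5039, l2675, l4892, l3528, o4306, o4492, l3854, l1145] l5411 := rupP (by decide +kernel)
theorem r5412 : PImp [l1210, o4469, l3856] l5412 := rupP (by decide +kernel)
theorem r5413 : PImp [l3223, l3219, l5412, o4249, l1145, l3854, l5176, o4682, o4683, o4684, l5199, l4245] l5413 := rupP (by decide +kernel)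
theorem r5414 : PImp [l390, l3119, l500, l3352, l3355, o8704, o5483, o5475, l3484, l3505, l3483] l5414 := rupP (by decide +kernel)
theorem r5415 : PImp [l5112, l2988, l5035, l3223, l3219, l3929, l476, l473, l5411, l4129, l2674, l2528, l3527, l3392, l1779, l3119, l5413, l5208, l5414, l3347, l5373, l671, l3376, o5380] l5415 := rupP (by decide +kernel)
theorem r5416 : PImp [l390, l5228] l5416 := rupP (by decide +kernel)
theorem r5417 : PImp [l5400, l2821, l2820, l5035, l5398, l5399, l3216, l5352, l2751, l1778, l5408, l5410, l5415, l481, l480, l5250, l5038, l5416, l3496, l3510, l4882, l3488, l4880, l3473] l5417 := rupP (by decide +kernel)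
theorem r5418 : PImp [l3008, l5036, l2820, l3929, l3216, l5369, l4416, l5246, l4878, l1412, l3404, l5262, l487, o6368, l2533] l5418 := rupP (by decide +kernel)
theorem r5419 : PImp [l5036, l2820, l3929, l3213, l3128, l5231, o8626, o5445, l667, l3445] l5419 := rupP (by decide +kernel)
theorem r5420 : PImp [l3008, l481, l5417, l5400, l3223, l3929, l1767, l5286, o4305, o8640, l3392, l5419, l3216, l5418, l5246, l4410, l4405] l5420 := rupP (by decide +kernel)
theorem r5421 : PImp [l3929, l3216, l4391, l4387, l5246] l5421 := rupP (by decide +kernel)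
theorem r5422 : PImp [l4153, l4155, l3128, l5346, l5419, o8682, o5462] l5422 := rupP (by decide +kernel)
theorem r5423 : PImp [l5417, l4153, l5038, l2987, l3008, l480, l481, l5400, l3929, l3496, l3510, l2682, l3488, l2668, l2681, l3473, l3491, l5420, l2750, o4314, l5422, l3216, l5421, l5369, l4416, l4878, l1412, l2916, l4087] l5423 := rupP (by decide +kernel)
theorem r5424 : PImp [l5112, l480, l5400, l5423, l4613, l4239, l2697] l5424 := rupP (by decide +kernel)
theorem r5425 : PImp [l480, l481, l5400, l5038, l5424, l390, l5416, l4224, l4241] l5425 := rupP (by decide +kernel)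
theorem r5426 : PImp [l480, l481, l5417, l5400, l3223, l5112, l3008, l5425, l5039, l5250, l4613, l2668, l2681, o4318, l5238, l3509, l390, l3512, l5239, l3490, l5255, l5256, l4157, l4156, l3473, l5246, l3216, l3140, l5346, l5419, o8682, o5462] l5426 := rupP (by decide +kernel)
theorem r5427 : PImp [l390, l5250, l2750, o4313, l5039, l480, l481, l2820, l5244, l3512, l5241, l3490, l3402, l4157, l4156, l4394, l5346, l2908] l5427 := rupP (by decide +kernel)
theorem r5428 : PImp [l5039, l5274, o4509, o4510, l480, l481, l3223, l2820, l3929, l390, l5427, l3934, l3396, l2843, l4576, l4659, o5158, o5369, l4156, l4224, o4395, l1357, l1209, l1210, l667, l5136, o8419] l5428 := rupP (by decide +kernel)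
theorem r5429 : PImp [l480, l5428, l5242, l3509, l5244] l5429 := rupP (by decide +kernel)
theorem r5430 : PImp [l5400, l5417, l5426, l5429, l480, l3223, l5423, l3510, l4655, l2682, l432, l2681, l1254, l1138, o5158, l4576, l2531] l5430 := rupP (by decide +kernel)
theorem r5431 : PImp [l5400, l5417, l5426, l5429, l5038, l5274, l480, l481, l3219, l5430, l3935, l4239, l4222, l4248, l4224, o5160, l4245, l1357, o4395, l1209] l5431 := rupP (by decide +kernel)
theorem r5432 : PImp [l5417, l5400, l481, l480, l5426, l5429, l5038, l5431, l390, l5416, l4224, l4241] l5432 := rupP (by decide +kernel)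
theorem r5433 : PImp [l476, l3219, l3935, l4616, l2693, l4253] l5433 := rupP (by decide +kernel)
theorem r5434 : PImp [l485, l5416] l5434 := rupP (by decide +kernel)
theorem r5435 : PImp [l3223, l3219, l4244, l4247, l1316, l2988, l1276, l5176] l5435 := rupP (by decide +kernel)
theorem r5436 : PImp [l4154, l5433, o3469, l5036, l3223, l3219, l2820, l3929, l5434, l483, l5199, l3506, o5169, l1242, l3523, l4247, l3398, l5435, l1316, l2988, l5413, l5412, l1767, l1146, l1145, o4869, l1102, l3854, l3439, l3429, o8723, o8418, o4682, l3369, o4510] l5436 := rupP (by decide +kernel)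
theorem r5437 : PImp [l2988, l1209, l5176, l1145] l5437 := rupP (by decide +kernel)
theorem r5438 : PImp [l3223, l3219, l483, l3502, l3520, l4245, l5437, l4655, l432, o4491, l1254, l3838, l3836] l5438 := rupP (by decide +kernel)
theorem r5439 : PImp [l1276, l3857, l3855] l5439 := rupP (by decide +kernel)
theorem r5440 : PImp [l5433, l476, l5036, l3223, l3219, l3929, l4153, l5436, l5438, o5168, l3510, l1242, o5165, l3524, l4243, l3394, l5272, l1275, o4510, o4513, o4458, o5380, l5439, l667, l3119, o8419, l3421] l5440 := rupP (by decide +kernel)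
theorem r5441 : PImp [l3223, l3929, l3119, l3140, l3369, l4416, l4415] l5441 := rupP (by decide +kernel)
theorem r5442 : PImp [l3219, l3929, l3501, l5208, l3497, l5274, o4510, o5380, l5441, l667, l3367, l3217, l3369, l4416, l4415] l5442 := rupP (by decide +kernel)
theorem r5443 : PImp [l4156, o4511, o4510, o5394, o5380, l3367, l5345, l3361, o2353, l4211, o8327] l5443 := rupP (by decide +kernel)
theorem r5444 : PImp [l427, l3929, l503, o4855, l3367, o4910, l1767, l3217, l3361, l5235, l4379, l4618, l4406, o2764] l5444 := rupP (by decide +kernel)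
theorem r5445 : PImp [l2820, l5400, l5417, l5432, l5433, l5440, l5039, l2674, l3219, l476, l3527, l473, l3223, l2528, l3392, l5442, l2833, l390, l3393, l2656, o3472, l2821, l3929, l485, o5168, l2731, l3494, l3512, o5165, l3490, l4662, l2844, l4210, l4156, l3491, l2327, l5443, l5272, l5273, l5444, l501, o5487, l3412, l3409, l5279] l5445 := rupP (by decide +kernel)
theorem r5446 : PImp [l5273, o4704, o5487, l4424, l5279, l4156] l5446 := rupP (by decide +kernel)
theorem r5447 : PImp [l5272, l5270, l427, l2821, l5370, l5168] l5447 := rupP (by decide +kernel)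
theorem r5448 : PImp [l427, l4655, l2992, l5272, l2820, l5400, l5417, l5432, l5433, l5440, l5039, l2674, l3219, l476, l3527, l473, l3223, l2528, l3392, l5442, l3500, l3505, l390, l5036, l3929, l498, l3383, l3217, l4415, l4416, l5446, l3483, l3484, l5447, l5376, l2922, o2764, l4381, l4379] l5448 := rupP (by decide +kernel)
theorem r5449 : PImp [l5270, l423, l427, l5445, l5417, l2821, l2820, l3929, l5448, l503, o4868, l3367, o4910, o4894, l5370, l3213, l5235, l4388, l4379, l4398, o3234, o3222] l5449 := rupP (by decide +kernel)
theorem r5450 : PImp [l3367, l3369] l5450 := rupP (by decide +kernel)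
theorem r5451 : PImp [l5036, l3929, l4405, l5376, l2916, l5262, l4087, o6368, l2751] l5451 := rupP (by decide +kernel)
theorem r5452 : PImp [l2916, l5262, l4087, o6368, l2751] l5452 := rupP (by decide +kernel)
theorem r5453 : PImp [l2928, l4087, o6368, l2751] l5453 := rupP (by decide +kernel)
theorem r5454 : PImp [l3217, l3929, l5452, l5453, l5184, o2762, l4837] l5454 := rupP (by decide +kernel)
theorem r5455 : PImp [l2820, l5400, l5417, l5432, l5433, l5440, l5039, l2674, l3219, l476, l3527, l473, l3223, l2528, l3392, l5442, l5445, l483, l4664, l3500, l3505, l390, l5036, l2821, l3929, l427, l5270, l5272, l4655, l2992, l5449, l5450, l498, l488, l3383, l3217, l2533, l5451, l5370, l5447, l3352, l5454, l4416, l5446, l3483, l3484] l5455 := rupP (by decide +kernel)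
theorem r5456 : PImp [l2820, l5400, l5417, l5432, l5433, l5440, l5039, l2674, l3219, l476, l3527, l473, l3223, l2528, l3392, l5442, l5036, l3929, l5445, l483, l4664, l5455, o4510, o4467, l3367, l5450, l4646, l3217, l2941, l4415, l1217, l425, l2771, l1767, l4087, o4876, o2755, l2533, o8884] l5456 := rupP (by decide +kernel)
theorem r5457 : PImp [l3223, l3929, o5380, l667, l3119, l3140, l5441, l3369, l4415, o8419, o3187, l4156, l4425, l4424] l5457 := rupP (by decide +kernel)
theorem r5458 : PImp [l2820, l5400, l5417, o3467, l5432, l5433, l5440, l5039, l2674, l473, l3223, l2528, l3392, l5456, l5457, l3929, o4510, l5272, l3383, l3377, l3217, l488, o4544, l4655, l2992, l5448, l4415, l485, l4416, l5446] l5458 := rupP (by decide +kernel)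
theorem r5459 : PImp [l5417, l5036, l5400, l3223, l3219, l2821, l2820, l3929, o3467, l5432, l476, l473, l5433, l5440, l5039, l2674, l2528, l3527, l3392, l5442, l390, l5456, l5457, l498, l488, o4510, o4544, l5270, l5272, l4655, l1412, l3383, l2992, l3217, l3377, l3381, l2533, l5458, l5451, l5370, l5447, l3352, l5454, l4416, l5446, l3483, l3484] l5459 := rupP (by decide +kernel)
theorem r5460 : PImp [l3483, l3484] l5460 := rupP (by decide +kernel)
theorem r5461 : PImp [l5274, l5273, l5279, o8608, o8704] l5461 := rupP (by decide +kernel)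
theorem r5462 : PImp [l427, l5269, l5271, l5460, o5487, l3474, l5461, l4156, o8682, o8751] l5462 := rupP (by decide +kernel)
theorem r5463 : PImp [l427, l1412, l5272, l5270, l5459, l2845, l5417, l5036, l5400, l2821, l2820, l3929, l498, l488, l3383, l2533, l3377, l3381, l5451, l5370, l5447, l3352, l5462, l3396, l5174, l5461, o5467] l5463 := rupP (by decide +kernel)
theorem r5464 : PImp [l5274, l5273, l1779, l667, o8626] l5464 := rupP (by decide +kernel)
theorem r5465 : PImp [l3223, l3929, o4855, l5450, l3369, l3119, l5464, l3342, l3392, l5404, l473, l5175, l2530, l2678] l5465 := rupP (by decide +kernel)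
theorem r5466 : PImp [l5272, l5459, l5417, l5400, l2820, l3929, l5465, l3383, l5463, l3217] l5466 := rupP (by decide +kernel)
theorem r5467 : PImp [l5175, l2678] l5467 := rupP (by decide +kernel)
theorem r5468 : PImp [l2845, l2846, l3219, l5467, l481, l480, l5227, l5228] l5468 := rupP (by decide +kernel)
theorem r5469 : PImp [l2846, l3223, l3219, l3929, l3383, l3217, l3381, l4415, o3168, l5468, l3935, l5174, l5227, o4700, l3854] l5469 := rupP (by decide +kernel)
theorem r5470 : PImp [l3929, l3217, l5370, l4415, l5376, l4379, l2922, o2764] l5470 := rupP (by decide +kernel)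
theorem r5471 : PImp [l5459, l5417, l5400, l3219, l2821, l2820, l3929, l427, l422, l5270, l5272, l1412, l5466, l5469, l503, o4855, o4910, l5470, l3119, l3367, l5464, l3342, l3394, l5468, l5404, l476, l5175, l3530] l5471 := rupP (by decide +kernel)
theorem r5472 : PImp [l3929, l4655, o4255, l1210, l1767, l1145, o4869, l3439] l5472 := rupP (by decide +kernel)
theorem r5473 : PImp [o4509, o4510, l5036, l2820, l3929, l3367, l3389, l5472, l428, l432, l1218, l1210, l2919, l2925, l2900, l2908, l5112, l4412, l4415, l3404, l4405, l4394, l5387, l4848, l2743] l5473 := rupP (by decide +kernel)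
theorem r5474 : PImp [l3217, l4415, l2926, l2925, l3213, l5036, l3929, o4544, l4966, l4967, l5369, l2534, l5376, l2922, o2764, l5233, l4379, l2750, o4315] l5474 := rupP (by decide +kernel)
theorem r5475 : PImp [l3929, l2820, l2821, l5417, l5471, o4511, o4510, l5473, l3217, l3369, l4415, l2925, l5474, o4255, o4909, l1767, l5470, o4318, l3029, o4250] l5475 := rupP (by decide +kernel)
theorem r5476 : PImp [l3217, l3929, l4655, o4909, l2994, l2995, l3000, l4416, l4406, l4835, l4868] l5476 := rupP (by decide +kernel)
theorem r5477 : PImp [l2916, l1514] l5477 := rupP (by decide +kernel)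
theorem r5478 : PImp [l5477, l5180, l5181, l5184] l5478 := rupP (by decide +kernel)
theorem r5479 : PImp [l503, l5036, l3929, l3217, l5476, l428, o4544, o4513, l3425, l4416, l2994, l3025, l4415, l1316, l1357, l5112, l3369, l2730, o2899, l5277, l5478, o4315, l2751, l2794, o6368, l2928] l5479 := rupP (by decide +kernel)
theorem r5480 : PImp [l2994, l3025, l4655, l428, o4513, l1259, l3442] l5480 := rupP (by decide +kernel)
theorem r5481 : PImp [l3008, l2924, l4655, l3386, l432, l1254] l5481 := rupP (by decide +kernel)
theorem r5482 : PImp [l4655, l2895, l432, l3386, l1254] l5482 := rupP (by decide +kernel)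
theorem r5483 : PImp [l2996, l5036, l3929, l428, l4967, o4513, o4512, l3423, l3447, l4395, l5387, l4850, l2743] l5483 := rupP (by decide +kernel)
theorem r5484 : PImp [l3929, o4512, o4256, l3447, l5387] l5484 := rupP (by decide +kernel)
theorem r5485 : PImp [l5036, o5380, l5209, l5377] l5485 := rupP (by decide +kernel)
theorem r5486 : PImp [l5036, l3026, l5263, l3929, l503, o4877, l4846, l3447, l2719, l3453, l490, l3122, l1149, l1150, l3349, o3577, l4105, l4104, l3120, l3024, o3540, l3423, o4858, l1767, o6491, o6537, l1778, l3343, l3401, o5498, l5194, o5501, l3119, o2367, l2298, l5485, o5445, o5475, o5483, o5792, l5202, l5207, l5039, l4095, l4096, l5196, l5201, l5195, o788, l5222] l5486 := rupP (by decide +kernel)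
theorem r5487 : PImp [l5203, l5208, o4698, l2945] l5487 := rupP (by decide +kernel)
theorem r5488 : PImp [l2641, l5188, l2627, l3934, l473, l4591, l2626, l3935, l2859, l2858, o3434, o3435, o3437, o3438, o3524, l5210, l2375, l5219, l2444, l3576, l1680, l1705, l4285, o2712, l5218] l5488 := rupP (by decide +kernel)
theorem r5489 : PImp [l3235, l3234, l473, o5706, o5297, o5309, o5306, l5215, l5189, l4294, l3605, l3390, o8075, o7771, l2762, l4152, l3914] l5489 := rupP (by decide +kernel)
theorem r5490 : PImp [l2386, l2384, l2375, l1767, l3400, l3399, l3934, l1412, l5214, l5489, l1671, l3540, o1525, l5217, o8087] l5490 := rupP (by decide +kernel)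
theorem r5491 : PImp [l5216, l3540, o1525, l5217, o8087] l5491 := rupP (by decide +kernel)
theorem r5492 : PImp [o4950, l1767, l2676, l3400, l2835, o8543, o5749, o4766, l390, l3146, l4795, l1277, l2837, l2834, l2833, l3934, l473, l2641, l4591, l2626, l3929, l3338, l3399, l5269, l1412, l4618, l5488, l2980, l2981, l2982, l2983, l2801, l2803, o3407, l2828, l1720, l2375, l2384, l2386, l5490, l5491, l5489, l1675, o7788, o8766] l5492 := rupP (by decide +kernel)
theorem r5493 : PImp [l3824, l3825, l2626, l3934, o3737, o3684, o3025, o3028, o3030, l1720, l2375, l2384, l5491, l1675, o7788, o7812] l5493 := rupP (by decide +kernel)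
theorem r5494 : PImp [o734, o745, o7943, o8270, o5668] l5494 := rupP (by decide +kernel)
theorem r5495 : PImp [o3681, l390, l3934, l3234, l2375, l2376, l2377, l2378, l2384, l2389, l5221, l2444, o1525, o1514, o1476, l5494, l2479, o7927, o8075, o4664] l5495 := rupP (by decide +kernel)
theorem r5496 : PImp [l5495, l1705, l1731, o6738, o8053] l5496 := rupP (by decide +kernel)
theorem r5497 : PImp [l5188, l2627, l1723, l3934, l2620, l5211, o8720, l1702, l2444, o1519, l1680, o1481, l5158, o735, o8164, o705, o8155, o5706, o4625, o7925, o7826, o2296] l5497 := rupP (by decide +kernel)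
theorem r5498 : PImp [l5188, l2627, o8834, o5749, l1723, o4950, o4766, l390, l3146, o3709, o3680, o3677, o3681, o3683, o3707, o3705, o3407, o3701, l5496, l5497, l3234, l2375, l2376, l2377, l2378, l2384, l2389, l5220, o1525, o1514, o1476, o1481, l5494, o7927, o5710, o5703, o5708, l674, l767, o8252, l675] l5498 := rupP (by decide +kernel)
theorem r5499 : PImp [l2676, l3399, l3400, l1277, o8834, o4950, l1767, o8543, o5749, o4766, l2834, l2833, l2641, l3824, l3825, l3823, l3934, l473, l4591, l3396, l4105, l5036, l3929, l5498, o3737, o3735, o3434, o3025, o3028, o3030, l1720, l5493, l3234, l2375, l2384, l2386, l5491, o5706, o5297, o5306, l5215, l2489, l3605, l3390, o8075, o7771, l2762, l4152, l3914] l5499 := rupP (by decide +kernel)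
theorem r5500 : PImp [l3234, l473, o5706, o5297, o5306, l5215, l2489, l3605, l3390, o8075, o7771, l2762, l4152, l3914] l5500 := rupP (by decide +kernel)
theorem r5501 : PImp [l1767, l2676, l3934, l473, l2641, l4591, l2626, l3400, l3399, l1412, o3737, o3735, o3684, o3434, o3025, o3028, o3030, o3032, l1720, l5214, l2375, l2384, l2386, l5500, l1671, o8087, l3540, o1525, l5217] l5501 := rupP (by decide +kernel)
theorem r5502 : PImp [o730, l5494, l1697, o7981, o1439, o1450] l5502 := rupP (by decide +kernel)
theorem r5503 : PImp [o3683, o3681, o3677, o3680, l390, l3234, l2375, l2376, l2377, l2378, l2379, l2384, l2389, l5221, o1525, o1514, l5502, o7927, o5710, o5703, l674, l767, l675, l678] l5503 := rupP (by decide +kernel)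
theorem r5504 : PImp [l2836, o3540, l2676, l3399, l3400, l2835, l1277, o8834, o4950, o8543, o5749, o4766, l390, l3146, l2837, l2834, l2833, l2641, l3824, l3825, l3823, l5188, l2627, l3934, l473, l4591, l3396, l5269, l1412, l4105, l5492, l5499, l5501, o3709, o3680, o3677, o3681, o3683, o3707, o3705, o3407, o3701, l5503, l2620, l5211, l1702, l2444, o1519, l1680, l1705, l1703, o735, l2473, o8164, o8155, o5706, o4623, o4625, o7925, o2296, o2292, o7826, l675, o7896, o7844] l5504 := rupP (by decide +kernel)
theorem r5505 : PImp [l1700, l3935, l3934, l4097, l5039, l3576, o1481, l5213, l4618, o2712, l5218, l4280, l4283, l1698, l1728, o5639] l5505 := rupP (by decide +kernel)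
theorem r5506 : PImp [l5039, l5188, l2627, l1700, l390, l3146, o5339, l3935, l3934, l4097, o3709, o3680, o3677, o3683, o3407, o3701, l5503, l5496, l2620, l3107, l5505, l56, o7899, o7871, o8502, l5212, l4618, l5219] l5506 := rupP (by decide +kernel)
theorem r5507 : PImp [l2836, l3929, l5036, l3435, o3540, l5039, l2676, l3399, l3400, l2835, l1277, o8834, o8543, o5749, l2837, l2834, l2833, l2641, l3824, l3825, l3823, l5188, l3113, l3934, l473, l4591, l2640, l3338, l4097, l4095, l3431, l5269, l1412, l4105, o4766, o4950, l1767, l5504, l5506, o3737, o3735, o3434, o3025, o3028, o3030, l1720, l5501, l2375, l2384, l2386, l5493, l5491, l5500] l5507 := rupP (by decide +kernel)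
theorem r5508 : PImp [o7788, o1473, o699, l2332] l5508 := rupP (by decide +kernel)
theorem r5509 : PImp [l453, l450, l451, l5126, l2523, l2524] l5509 := rupP (by decide +kernel)
theorem r5510 : PImp [l606, o7687] l5510 := rupP (by decide +kernel)
theorem r5511 : PImp [o9153, l2603, l4083, l2600] l5511 := rupP (by decide +kernel)
theorem r5512 : PImp [o2386, l2548, l5511, l2615, l2602, l4603] l5512 := rupP (by decide +kernel)
theorem r5513 : PImp [l2575, l4610] l5513 := rupP (by decide +kernel)
theorem r5514 : PImp [l2585, l2539] l5514 := rupP (by decide +kernel)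
theorem r5515 : PImp [l5514, l2590, l4607] l5515 := rupP (by decide +kernel)
theorem r5516 : PImp [l2576, o6363] l5516 := rupP (by decide +kernel)
theorem r5517 : PImp [l5516, l4598, o6391] l5517 := rupP (by decide +kernel)
theorem r5518 : PImp [l2574, l4604] l5518 := rupP (by decide +kernel)
theorem r5519 : PImp [l2572, l2619] l5519 := rupP (by decide +kernel)
theorem r5520 : PImp [o2976, o3427, l5517, l5518, l5519] l5520 := rupP (by decide +kernel)
theorem r5521 : PImp [l658, o8000, o8021] l5521 := rupP (by decide +kernel)
theorem r5522 : PImp [o8092, o7879] l5522 := rupP (by decide +kernel)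
theorem r5523 : PImp [o7830, o7851] l5523 := rupP (by decide +kernel)
theorem r5524 : PImp [l2556, l2561, o9011, l2603] l5524 := rupP (by decide +kernel)
theorem r5525 : PImp [l5518, l5519] l5525 := rupP (by decide +kernel)
theorem r5526 : PImp [l5491, l1671, l3540, o1525, l5217, o8087] l5526 := rupP (by decide +kernel)
theorem r5527 : PImp [o3741, o3650, l5512, l2553, o2403, l5513, l2596, l2615, l4597, l4083, o9122] l5527 := rupP (by decide +kernel)
theorem r5528 : PImp [l2618, l2592, o6629] l5528 := rupP (by decide +kernel)
theorem r5529 : PImp [l1412, o5511, o5099, l5527, o2976, o3427, l5515, l5528, l2579, l4602] l5529 := rupP (by decide +kernel)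
theorem r5530 : PImp [o2976, o3427, l5520, l5525, l5516, l4598, l2578] l5530 := rupP (by decide +kernel)
theorem r5531 : PImp [l4083, l5524] l5531 := rupP (by decide +kernel)
theorem r5532 : PImp [o8092, o8132] l5532 := rupP (by decide +kernel)
theorem r5533 : PImp [l5269, l1412, l5529, o5593, o5727, o5825, o4571, l5530, o3712, o3741, o3650, l5521, l5532, l2567, o754, o8150, l5531, l656, l2548, o8727, o8468] l5533 := rupP (by decide +kernel)
theorem r5534 : PImp [l4083, l5531, l2713, l20, o8947, l4606, l2615] l5534 := rupP (by decide +kernel)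
theorem r5535 : PImp [o5593, o5727, o5825, o4571, l5530, o3712, o3741, o3650, l5521, l5534, l2567, l2568, o8092, o1535, o8566, o8741] l5535 := rupP (by decide +kernel)
theorem r5536 : PImp [l2387, l2379, l2375, l3234, o3434, l1412, o7788, l2473, l4262, l4285, o733, l3540, l3576, o1517, l3905, l3914, o4742, o4435, o4925, l4291, o8089, l2850, l1697, o8284, l1105, l5533, l5535, o5511, o5099, l5527, o2976, o3427, l5515, l5528, o6651, l2579] l5536 := rupP (by decide +kernel)
theorem r5537 : PImp [o5339, l2676, l2641, l3824, l3825, l3934, l473, l4591, l2626, l3400, l3399, l5269, l1412, l3929, o3737, o3735, o3434, o3025, o3028, o3030, o3038, l1720, l3234, l2375, l2379, l2384, l2386, l5526, o5706, o5297, o5306, l5536, o7770, o7812, l5215, l3390, l2489, o7771, l3605, l4152, l3914, o4740, o4435, l4291, l2850, l1697, o8284, l5508] l5537 := rupP (by decide +kernel)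
theorem r5538 : PImp [l1705, l1731, o6738, o8053] l5538 := rupP (by decide +kernel)
theorem r5539 : PImp [l5042, l2473, l2477, l1694, l1698, l3576, l1680, o4740, l3909] l5539 := rupP (by decide +kernel)
theorem r5540 : PImp [l5039, l4280, l4283, l4285, l1698, l1694, o5639, l1680, l1728] l5540 := rupP (by decide +kernel)
theorem r5541 : PImp [l1694, l3576, o8182, l5218, l2761, o5306, o4435, l3181, l4289] l5541 := rupP (by decide +kernel)
theorem r5542 : PImp [l3540, l3576, l2759, l5218, o4269, o4436, l3226, l4667] l5542 := rupP (by decide +kernel)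
theorem r5543 : PImp [l2761, l3181, o4435, l4289] l5543 := rupP (by decide +kernel)
theorem r5544 : PImp [l473, l3929, l5036, l3435, l3431, l421, l5269, l1412, o3540, l2990, o3202, l4105, l4104, l5207, l5039, l4096, l4097, l2676, l3934, l3935, l3396, l3399, l3400, l3335, l3339, l2640, l2641, o8419, l4591, l5188, o8401, o8400, l4156, o788, o790, l2627, l3824, l3823, l5487, l390, l2833, l2834, l2835, l2836, l3146, l1277, o8543, o4703, o4693, o5339, l4795, o8834, o5749, l2939, o5780, l5507, o4695, l2756, o4802, o4307, l4087, l5537, o3709, o3677, o3683, o3407, o3411, o3415, o3701, l5503, l2620, l5538, o2716, o2713, o2712, l5539, l5540, l5541, l4262, l5542, l56, l5219, o7871, o5306, l5543, l4475, o4435, l3583, l3584] l5544 := rupP (by decide +kernel)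
theorem r5545 : PImp [l3929, l5036, l5480, l5481, l3026, l5366, l5263, l4416, l5482, l5483, l1412, l503, l5484, o4877, l4846, l2632, l2631, l2630, l4420, l5269, o4909, l5486, o5195, o5193, l3406, l3389, l3367, l3404, l3416, l3447, l2719, l3452, l3453, l490, l3122, o4872, l1149, l1150, l3349, o3577, l2257, o3540, o3491, o3171, o3202, l5264, l3024, l325, o3166, l473, o5380, o5381, o5382, l5544, l5268, o4239, l5393, l5037, l5374, l3934, l2641, l4591, l3824, l2949, o4301] l5545 := rupP (by decide +kernel)
theorem r5546 : PImp [l3929, l5036, l5480, l5481, l4420, l4416, l5366, l3026, l5263, l5482, l5483, l1412, l5269, l503, o4909, l5484, l5486, o4877, l4846, l2630, l5545, l5377, o5450, l4156, l5205] l5546 := rupP (by decide +kernel)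
theorem r5547 : PImp [l1590, o5445, l667, l4563, l5225, l1592, l2690] l5547 := rupP (by decide +kernel)
theorem r5548 : PImp [l3929, l5036, l5480, l4416, l5481, l3026, l5366, l5263, l5482, l5483, l1412, l503, l5484, o4877, l4846, l4420, l5269, o4909, l5486, o5195, o5193, l3406, l3367, l3447, l2719, l3453, l1150, l3349, o3577, l2257, o3166, o3540, l3401, l5546, l3223, l3116, l3119, l5547, l4392, l1594, o8658, l5226, o4788, l2527, o8592] l5548 := rupP (by decide +kernel)
theorem r5549 : PImp [l3223, l3219, o5380, o4788, o4843, o4817, l1590, l759, l5229, l2945, l4436] l5549 := rupP (by decide +kernel)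
theorem r5550 : PImp [l3929, l3367, l5482, l2990, l3223, l3119, l5549, o5445, l667, l1594, o4933, l5225, l3392, o8377, o8362] l5550 := rupP (by decide +kernel)
theorem r5551 : PImp [l5038, l5374, l5037, l5188, l3935, l5208, l4796, l2627, l4087, o3709, o3677, o3683, o3407, o3411, o3415, o3701, l5503, l2620, l5538, l5540, o2716, o2713, o2712, l5042, l5541, l4262, l5542, l56, o7871, o5306, l5543, l4475, o4435, l3583, l3584] l5551 := rupP (by decide +kernel)
theorem r5552 : PImp [l2600, l2602] l5552 := rupP (by decide +kernel)
theorem r5553 : PImp [l5552, l5513, l2596] l5553 := rupP (by decide +kernel)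
theorem r5554 : PImp [l5513, l4597] l5554 := rupP (by decide +kernel)
theorem r5555 : PImp [l4083, l2561, l20, l2713] l5555 := rupP (by decide +kernel)
theorem r5556 : PImp [o5593, o5727, o5825, o4571, l5530, o3712, o3741, o3650, l5521, l5522, o1535, l2606, o7830, o8132, l5555, l2568, o8566, o8741] l5556 := rupP (by decide +kernel)
theorem r5557 : PImp [o3741, o3650, l5553, l4083, l5554, l2556, l4603, o9153, l2615] l5557 := rupP (by decide +kernel)
theorem r5558 : PImp [l1412, o5511, o5099, l5557, o2976, o3427, l5515, l5528, l2579, o6651, l4602] l5558 := rupP (by decide +kernel)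
theorem r5559 : PImp [l2606, l2710, l4606, o8092, l2553, o754, o8579] l5559 := rupP (by decide +kernel)
theorem r5560 : PImp [l4083, l5559, l2615, l2561, o8947, l2713] l5560 := rupP (by decide +kernel)
theorem r5561 : PImp [o3712, l4099, l2980, l2981, l2982, l2801, l2803, o3407, l1705, l2375, l2379, l2384, l2386, l2387, l5526, o5710, o5706, o7773, o7771, o808, o743, o7924, o5691, o5716, l1698, l5521, o8092, l5532, o8284, o1538, o8566, o8741] l5561 := rupP (by decide +kernel)
theorem r5562 : PImp [l2855, l2850, l5038, l5374, l5037, l2641, l5188, l3935, l5208, l2834, l4796, o3464, l2627, l2640, l4087, o3434, o3435, o3524, l5551, l5503, l2620, l5538, l5540, o2712, l5042, l5541, l5218, l3576, l56, o7871] l5562 := rupP (by decide +kernel)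
theorem r5563 : PImp [l3399, l3929, l3390, l3391, l3461, l5561] l5563 := rupP (by decide +kernel)
theorem r5564 : PImp [l5215, l2472] l5564 := rupP (by decide +kernel)
theorem r5565 : PImp [o3650, l2856, o3741, l2850, o3712, o5727, l5374, l4797, l4796, o3464, l5037, l3934, l2641, l4591, l2626, l2640, l3400, l3399, l4103, l4099, l3929, l5562, l2980, l2981, l2982, l2801, l2803, o3407, l5538, l3235, l2375, l2379, l2384, l2386, l2387, l5526, o5706, o5297, o5309, l5564, l3390, l3391, l3461, l2489, o7771, l3591, o743, o7924, o5691, o5716, l1698, l5521, o8284, l5508, l5217, l5560, l2568, l2571, l5563] l5565 := rupP (by decide +kernel)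
theorem r5566 : PImp [l4099, l5037, l4104, l2980, l2981, l2982, l2985, l2801, l2803, o3407, l5538, l3234, l2375, l2379, l2384, l2386, l2387, l5526, o5706, o5297, o5306, o7771, l2489, o743, l4152, l3605, o7924, l3177, o5691, l5556, l1698, o8284, l5508, l1105] l5566 := rupP (by decide +kernel)
theorem r5567 : PImp [l2855, l2850, l5038, l5374, l5037, l2641, l5188, l3935, l5208, l2834, l4796, o3464, l2627, l2640, l4087, o3434, o3435, o3524, l5551, l5503, l2620, l5538, l5540, o2712, l5218, l4475, o4435, l3583, l3584] l5567 := rupP (by decide +kernel)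
theorem r5568 : PImp [l2856, l2850, l5374, l4797, l4796, o3464, l4795, l5037, l3934, l2641, l4591, l2626, l2640, l3400, l3399, l4103, l4099, l4105, l3929, l5567, l2980, l2981, l2982, l2801, o3407, l5538, l2375, l2384, l5526, o5297, l5564, l3390, l3461, l5566] l5568 := rupP (by decide +kernel)
theorem r5569 : PImp [l5374, l4797, l4795, l5037, l3934, l2641, l4591, l3400, l3399, l4103, l4105, l4104, l5036, o5825, o4571, l5568, l5562, l5565, l2985, l5530] l5569 := rupP (by decide +kernel)
theorem r5570 : PImp [o2976, o3427, l5515, l5528, l2579, o6651, l4602] l5570 := rupP (by decide +kernel)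
theorem r5571 : PImp [l4603, l4610] l5571 := rupP (by decide +kernel)
theorem r5572 : PImp [o5099, o5511, l1412, l2985, l5558, l5570, o3741, o3650, l5553, l4083, l5571, l2615, o9122, o9153] l5572 := rupP (by decide +kernel)
theorem r5573 : PImp [l5562, l5567] l5573 := rupP (by decide +kernel)
theorem r5574 : PImp [l5374, l4797, l4796, l5037, l3934, l2641, l4591, l3400, l3399, l4103, l5269, l1412, l4105, l3929, l2856, l5569, l5572, l5573] l5574 := rupP (by decide +kernel)
theorem r5575 : PImp [l3929, l5036, l5480, l5481, l3026, l5366, l5263, l4416, l5482, l5483, l1412, l503, l5484, o4877, l4846, o3540, o3166, l3024, l4420, o4909, l1150, l1149, o4872, l3447, l3453, l5269, l5486, o5195, o5193, l3406, l5548, o6491, l5550, l2632, l2631, o4854, l2750, o4318, l3389, l3367, l3404, l3416, l3435, l3431, l2719, l3452, l490, l3349, o3202, l4104, l325, o3171, o5445, o5442, o5807, l4563, o4933, l5393, l5037, l5038, l5374, l4098, l4099, l3934, l3935, l3399, l3400, l2641, l4591, l5188, l3824, l3825, o4481, o4958, o4301, o4774, l3823, l4797, o8701, l2950, l2949, l4796, l5208, l2836,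 l5204, o8834, o5392, o5341, l5574, l2859, o2847, o2848, l3019, l2804, l2805, o3426, o3411, l5538, l3234, l2375, l2384, l2386, l2387, l5526, o5706, o5297, o5306, l5564, l2489, l3605, l3390, l3461, o7771, o743, l4152, o8089, l3914, o4925] l5575 := rupP (by decide +kernel)
theorem r5576 : PImp [l5293, l5304] l5576 := rupP (by decide +kernel)
theorem r5577 : PImp [l5475, l3929, l5479, l5036, l5480, l5481, l3026, l3024, o3166, l503, o3540, l4420, l4416, l4406, l4876, l5366, l4868, l5263, l5482, l5483, l1412, l5269, o4909, l5484, l1150, l1149, o4877, o4872, l4846, l3447, l3453, l5486, o5195, o5193, l3406, l5548, o6491, l5550, l5575, o5380, o4796, o4788, o4843, l5377, l5576] l5577 := rupP (by decide +kernel)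
theorem r5578 : PImp [l5036, l5475, l3929, l5479, l5480, l5481, l3026, l5577, l4413, l3371, l4403, l5368] l5578 := rupP (by decide +kernel)
theorem r5579 : PImp [l3929, l4413, l4867, l4403] l5579 := rupP (by decide +kernel)
theorem r5580 : PImp [l481, o4726, l5303, l4223, l3816] l5580 := rupP (by decide +kernel)
theorem r5581 : PImp [l5344, l485, l4220, l4237, l5039, l4798, l2641] l5581 := rupP (by decide +kernel)
theorem r5582 : PImp [l4655, l2992, l5580, l5344, l5581, o4704, l4223, l3816] l5582 := rupP (by decide +kernel)
theorem r5583 : PImp [l5274, l5270, l5582, l5037, l5038, l5374, l5377, l2641, l3935, l5188, l5208] l5583 := rupP (by decide +kernel)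
theorem r5584 : PImp [l5037, l4101, l1804] l5584 := rupP (by decide +kernel)
theorem r5585 : PImp [l4655, l2987, l1412, l5274, l5273, l5272, l5271, l496, l501, l3929, l3383, l2838, o3563, l5583, l3223, l3119, l5584, l4156, l1590, o5445, o5443, o5475, l5433, l5438, l5223, l3501] l5585 := rupP (by decide +kernel)
theorem r5586 : PImp [l5226, l5410, l2675, l2682] l5586 := rupP (by decide +kernel)
theorem r5587 : PImp [l5377, l5304] l5587 := rupP (by decide +kernel)
theorem r5588 : PImp [l3934, l473, l5272, l5268, l5039, l5324, l2704, o6513, l5314, o4679] l5588 := rupP (by decide +kernel)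
theorem r5589 : PImp [l473, l5272, l3934, l3335, l5588, l4094, l2641, l4591, o8401, l3849, o4801] l5589 := rupP (by decide +kernel)
theorem r5590 : PImp [l5268, l5589, l3486, l5344] l5590 := rupP (by decide +kernel)
theorem r5591 : PImp [l5475, o3540, l3929, l5036, l5578, l498, l488, o4510, o4544, l5270, l5271, l5274, l4655, l1412, l2992, l2987, l2989, l2994, l2995, l2996, l3000, l5579, l4420, l4416, l5376, l5585, l3213, l5476, l3434, l3433, l4835, l4401, o4315, o4324, o4999, l4839, l4840, o4337, l2751, l3354, o3491, l3352, l5586, l2633, l2635, l5587, l5590, l5037, l5374, l4101, l5371, l2641, o4979, l3824] l5591 := rupP (by decide +kernel)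
theorem r5592 : PImp [l3008, l2994, l2995, l5399, l5367, l3216] l5592 := rupP (by decide +kernel)
theorem r5593 : PImp [l3929, l3216, l3217, l4879, l4881, l3458, l3422] l5593 := rupP (by decide +kernel)
theorem r5594 : PImp [l5592, l4655, l428, o4513, o4512, l432, l1254, l5593, l427, o4509, o4510, l5112, l5035, l3929, l4882, l5367, l5401, l2922, l2815, l2794, l3405, l3372, l5387] l5594 := rupP (by decide +kernel)
theorem r5595 : PImp [l3929, l3213, l5387, l5179, l4618, l4838] l5595 := rupP (by decide +kernel)
theorem r5596 : PImp [l3929, l5179, o4315, l4838, l4618] l5596 := rupP (by decide +kernel)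
theorem r5597 : PImp [l5344, l3396, l3399, l3400, l3813, o8397, l4567, o8419, l2300] l5597 := rupP (by decide +kernel)
theorem r5598 : PImp [l5597, l5374, l3824] l5598 := rupP (by decide +kernel)
theorem r5599 : PImp [l5587, o5380, o5363, o5362, o4498, l2629, l2630, l2631, l5598] l5599 := rupP (by decide +kernel)
theorem r5600 : PImp [l5433, o4498, l2675, l4891, l2674, l4425] l5600 := rupP (by decide +kernel)
theorem r5601 : PImp [l3929, l5475, o3540, l5591, l5035, l5592, l4655, l5113, l427, l428, l432, o4510, o4513, o4512, l1254, l1138, l5593, l5402, l2836, l5594, l3025, l4880, l5364, l5359, l4866, o2782, o3173, l2918, l2916, l4876, o2702, o3060, o2982, l2946, l2917, l5277, l5595, l5596, l4835, l4839, l4840, l5599, l3219, l5600, l481, l480, l5243, o5160, l5038, l3524, l3488, l4248, l4239] l5601 := rupP (by decide +kernel)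
theorem r5602 : PImp [l390, l5038, l4239, l4222] l5602 := rupP (by decide +kernel)
theorem r5603 : PImp [l5038, l390, l5602, l3488, l3510] l5603 := rupP (by decide +kernel)
theorem r5604 : PImp [l481, l480, l5250, l5603, l5038, l4224, l5410, l4241, l2846] l5604 := rupP (by decide +kernel)
theorem r5605 : PImp [l481, l480, l2744, l2750, l5250, l5603, l5038, l4618, l5178, l4967, l1412, o4896, o4255, l5604, l5270, l5271, l5404, l3473, l2682, l2668, l5230, l5246, l2994, l4880, l2928, l5036, o6368, l2533] l5605 := rupP (by decide +kernel)
theorem r5606 : PImp [l3223, l2744, l2750, l481, l480, l5250, l5038, l5603, l5605, l1357, l5112, o2705, l4224, l5278, l5404, l5228, l3510, l1138, l2682, o5158, l2681, l4576, l2531] l5606 := rupP (by decide +kernel)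
theorem r5607 : PImp [l3929, l4655, o2705, l2909, l1257, o4556, o3118, o4542, l4880, l5237, l3404, l5450, l4394] l5607 := rupP (by decide +kernel)
theorem r5608 : PImp [o4910, l5269, l4156, l5372, l1590, o8751, l3377, o8724] l5608 := rupP (by decide +kernel)
theorem r5609 : PImp [o3563, o3571, l5601, l5606, l2744, l4618, o4328, o4319, l2746, l3929, o5169, l3473, l1242, l5607, l4967, o4910, o4255, o5487, l5270, l5271, l5273, l5608, l4882, l4880] l5609 := rupP (by decide +kernel)
theorem r5610 : PImp [l4882, l3411, o2766, l5363] l5610 := rupP (by decide +kernel)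
theorem r5611 : PImp [o3563, l5601, l2744, l4618, l2746, o4328, l3929, l5609, l3478, l3484, l1360, l1246, l5258, l5178, l4967, o4910, o4911, o4255, l5270, l5610, l5372, l3377, l5131, l4381, l5247, o2771] l5611 := rupP (by decide +kernel)
theorem r5612 : PImp [l473, l3223, l3934, l5433, l5403, l4615, l2695, l2705] l5612 := rupP (by decide +kernel)
theorem r5613 : PImp [l5038, l5037, l476, l3219, l2846, l5467, l3530, l3505, l4662, o5168, o5165] l5613 := rupP (by decide +kernel)
theorem r5614 : PImp [l5601, l2744, l2750, l4618, l5606, l5612, l5611, l5037, l3223, l473, l5613, l2674, l2528, l3392, l3219, l476, l3527, l5038, o3563, o3571, l2746, l4662, o5165, l4664, l3505, l3500, l5277, l1789, l3483, o2705, l5415, l3474, l4967, l2992, l4415, o4910, o4255, l5446, l4416] l5614 := rupP (by decide +kernel)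
theorem r5615 : PImp [l5601, l2744, l2750, l4618, l5606, l5612, l5611, l5037, l3223, l473, l5613, l2674, l2528, l3392, l3219, l476, l3527, l5038, o3563, o3571, o4328, o4319, l2745, l3929, l1242, l5614, l5442, l5208, l5035, l5274, l5178, o4509, l2901, l5607, l3403, l4848] l5615 := rupP (by decide +kernel)
theorem r5616 : PImp [l5601, l2744, l2750, l4618, l5606, l5612, l5611, l5037, l5038, l5613, l2674, l5615, o5169, o5168, l3483, l3501, l3505] l5616 := rupP (by decide +kernel)
theorem r5617 : PImp [l476, l3219, o5168, o5167, l5438, l4800, l3501, l3519] l5617 := rupP (by decide +kernel)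
theorem r5618 : PImp [l3929, l4129, l4880, l627, l3119, l3368, l3385] l5618 := rupP (by decide +kernel)
theorem r5619 : PImp [l5616, l2845, l390, l5601, l2744, l2750, l4618, l5606, l5612, l473, l476, l3223, l3219, l4619, l5039, l2674, l2528, l3527, l3501, l3392, l5208, l4800, l485, l3509, l3497, l5274, l4661, l3487, o4510, o4500, l3476, l3488, o5380, l5230, l2928, l5618, l5036, l5442, l5177, l2820, o6368, l2730] l5619 := rupP (by decide +kernel)
theorem r5620 : PImp [l5601, l2744, l4618, l2750, l5606, l476, l5612, l5616, l390, l2845, l5619, l5438, l485, l5603] l5620 := rupP (by decide +kernel)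
theorem r5621 : PImp [l5374, l5303, l5343, l3482] l5621 := rupP (by decide +kernel)
theorem r5622 : PImp [l476, l3935, l2845, l390, l482, l5581, l5037, l5038, l3145, l4802, l4800] l5622 := rupP (by decide +kernel)
theorem r5623 : PImp [l5622, l2845, l390, l5037, l5038, l4797, l2641, l2733, l4798] l5623 := rupP (by decide +kernel)
theorem r5624 : PImp [l5620, l5601, l2744, l4619, l5621, l5623, l473, l476, l3399, l3396, l3935, l3934, l2845, l390, l2750, o4328, l5039, l4209, l2641, l4802, l4591, l2628, l5208, l5274, l1778, o4510, o4509, o4255, o4239, o4500, o5380, o4498, o4494, l1259, o5349, l3827, l2934, l3830, l3813, l667, o8419, l3126, l2316, l4156, o771, l3403, o8397, l3405, l4882, o3074] l5624 := rupP (by decide +kernel)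
theorem r5625 : PImp [l5601, l2744, l4619, l5620, l5621, l3935, l3934, l2845, l390, l476, l473, l5622, l5623, l4223, l5624, l4240, l4237, l483, l2694, l4246, l4245, l2641, l4591, l5437, l4655, o2705, o4494, l5278, l3827, l3830] l5625 := rupP (by decide +kernel)
theorem r5626 : PImp [l5620, l5601, l2744, l4619, l390, l5621, l5625, l481, l480, l5377, l5587, l4223, l2733, l4240] l5626 := rupP (by decide +kernel)
theorem r5627 : PImp [l481, l5297, l5377, l5587, l5113, l4967, o4255, o4726, l5272, o4681, o4686, l5576] l5627 := rupP (by decide +kernel)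
theorem r5628 : PImp [l5601, l2744, l5627, o3563, l2746, l3929, l4967, o4910, o4255, o5487, l5270, l5271, l5272, l5273, o4697, l5394, l5608, l2987, l4882, l4880, l5588, l5315] l5628 := rupP (by decide +kernel)
theorem r5629 : PImp [l3935, l3934, l473, l476, l4802, l4589, l5324] l5629 := rupP (by decide +kernel)
theorem r5630 : PImp [l3934, l5601, l2744, l4618, l5620, l5627, l473, l476, l5626, o3563, o3571, o4328, o4319, o5169, l1242, l5628, l4655, o2705, l5607, o4494, o4485, l5278, o2986, o2980, l3827, l3850, l5629, l5383, l4590, l2642] l5630 := rupP (by decide +kernel)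
theorem r5631 : PImp [l2846, l5383, l4238, l4623, l2642] l5631 := rupP (by decide +kernel)
theorem r5632 : PImp [l5601, l2744, l4618, l5627, l476, l3935, l2641, l4802, l2628, l3934, l473, l4591, l3399, l3396, o4328, o4319, l4209, l4798, l4664, l5277, o2705, l4967, l2992, l2991, o4255, l5272, l5315, o4809, l2753, o4822, l3830, l3813, l5464, o8419, l3126, l2316, l4156, o771, l4860, o8397, o3095] l5632 := rupP (by decide +kernel)
theorem r5633 : PImp [l4655, o2996, o4498, l3814] l5633 := rupP (by decide +kernel)
theorem r5634 : PImp [l5601, l2744, l4618, l5627, l5631, l3935, l3934, l473, l476, l2641, l4802, l4591, l5632, l5176, l4238, l4245] l5634 := rupP (by decide +kernel)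
theorem r5635 : PImp [l5601, l2744, l4618, l5620, l5627, l5626, l5630, l485, l482, l4221, l5631, l5633, l4967, l2987, l2988, o4255, l5270, l5272, l5634, l5588] l5635 := rupP (by decide +kernel)
theorem r5636 : PImp [l5038, l485, l3146, l4798, l4623] l5636 := rupP (by decide +kernel)
theorem r5637 : PImp [l3935, l483, l4798, l4664] l5637 := rupP (by decide +kernel)
theorem r5638 : PImp [l667, l4559, l3126, l36, l3403, l4398] l5638 := rupP (by decide +kernel)
theorem r5639 : PImp [l4655, o4556, l2909, l4857, l3403] l5639 := rupP (by decide +kernel)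
theorem r5640 : PImp [l5601, l2744, l4618, l5620, l5627, l5626, l5635, l5308, l5037, l2641, l5636, o5169, l1242, l4796, o3563, l2807, l3934, l473, l4591, l476, l3935, l4802, l5038, l3929, l3339, l3338, l3396, o3571, o4328, o4319, o4986, l4655, l5112, o2705, l2909, l1257, o4544, o4556, l1789, o3118, o4542, o5346, o5347, l5637, l3147, o3497, l5638, l5639, l4415, l5450] l5640 := rupP (by decide +kernel)
theorem r5641 : PImp [o4910, l5372, l3377] l5641 := rupP (by decide +kernel)
theorem r5642 : PImp [l5601, l2744, l4618, l5620, l5627, l5626, o3563, l2746, o4328, l3929, l3396, l5635, l5037, l5308, l2641, l5636, l4796, l5259, l5640, l5178, l4967, o4910, o4255, o5487, l5461, l5641, l4136, l1779, o8704] l5642 := rupP (by decide +kernel)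
theorem r5643 : PImp [l5268, l5276, o4255, l4967] l5643 := rupP (by decide +kernel)
theorem r5644 : PImp [l5374, l3486] l5644 := rupP (by decide +kernel)
theorem r5645 : PImp [l3356, l5366, l4838] l5645 := rupP (by decide +kernel)
theorem r5646 : PImp [l5601, l2744, l4618, l4967, o4255, l5272, l2746, o4909, l3008, l5643, l3929, o3571, l5645, l3217, l5620, l5642, l5644] l5646 := rupP (by decide +kernel)
theorem r5647 : PImp [l5601, l2744, l4618, l2746, l3929, l328, l3008, l4967, o4255, o4909, l5272, l5646, l5626, l3217, l5645, l3002, o2900, o2903, l4838, l5251] l5647 := rupP (by decide +kernel)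
theorem r5648 : PImp [l3217, l3929, l404, l2821, l3386, l5593] l5648 := rupP (by decide +kernel)
theorem r5649 : PImp [l5278, o4328, o4319, l2744, l2745, l3929, l3216, l3217, l5648, o3129, o3126, o3118, l4848, l4857, l4412, l3346] l5649 := rupP (by decide +kernel)
theorem r5650 : PImp [l5601, o4328, o4319, l2744, l2750, l4618, l5643, l5647, l4655, l5112, o2705, l427, o4554, o4511, o4510, o4502, l5649, l5620, l5626, l5642, l5644] l5650 := rupP (by decide +kernel)
theorem r5651 : PImp [l5208, l4248] l5651 := rupP (by decide +kernel)
theorem r5652 : PImp [l3552, l3556] l5652 := rupP (by decide +kernel)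
theorem r5653 : PImp [l2598, l2602] l5653 := rupP (by decide +kernel)
theorem r5654 : PImp [l5093, l5099] l5654 := rupP (by decide +kernel)
theorem r5655 : PImp [l5064, l5065, l4740] l5655 := rupP (by decide +kernel)
theorem r5656 : PImp [l728, l4543] l5656 := rupP (by decide +kernel)
theorem r5657 : PImp [l5047, l5656, l4995, l4047] l5657 := rupP (by decide +kernel)
theorem r5658 : PImp [l5058, l4048, l4747] l5658 := rupP (by decide +kernel)
theorem r5659 : PImp [l4526, l4049, l5014, l4008, l4986, l4696] l5659 := rupP (by decide +kernel)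
theorem r5660 : PImp [l2594, l2592] l5660 := rupP (by decide +kernel)
theorem r5661 : PImp [l5660, l2588, l2590] l5661 := rupP (by decide +kernel)
theorem r5662 : PImp [l2539, l4608] l5662 := rupP (by decide +kernel)
theorem r5663 : PImp [l4598, l2559] l5663 := rupP (by decide +kernel)
theorem r5664 : PImp [l2556, l5663, l2707, l4600, o8989, l2615] l5664 := rupP (by decide +kernel)
theorem r5665 : PImp [l5525, l2580, l2582] l5665 := rupP (by decide +kernel)
theorem r5666 : PImp [l2584, l2586] l5666 := rupP (by decide +kernel)
theorem r5667 : PImp [l1510, l5118, l2488] l5667 := rupP (by decide +kernel)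
theorem r5668 : PImp [l1103, o7895, o7981] l5668 := rupP (by decide +kernel)
theorem r5669 : PImp [l650, o7981] l5669 := rupP (by decide +kernel)
theorem r5670 : PImp [l2583, l5653] l5670 := rupP (by decide +kernel)
theorem r5671 : PImp [o6090, o6074] l5671 := rupP (by decide +kernel)
theorem r5672 : PImp [l4731, l4729] l5672 := rupP (by decide +kernel)
theorem r5673 : PImp [l4728, l4725] l5673 := rupP (by decide +kernel)
theorem r5674 : PImp [l4914, l4918] l5674 := rupP (by decide +kernel)
theorem r5675 : PImp [l5672, l4735] l5675 := rupP (by decide +kernel)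
theorem r5676 : PImp [l4025, l4038] l5676 := rupP (by decide +kernel)
theorem r5677 : PImp [l4729, l4735] l5677 := rupP (by decide +kernel)
theorem r5678 : PImp [l5676, l5677] l5678 := rupP (by decide +kernel)
theorem r5679 : PImp [o6179, o6113] l5679 := rupP (by decide +kernel)
theorem r5680 : PImp [l4580, l2393] l5680 := rupP (by decide +kernel)
theorem r5681 : PImp [l3000, l4835, l5534, o5828, o5826, l4195, l3435] l5681 := rupP (by decide +kernel)
theorem r5682 : PImp [l4418, l3807] l5682 := rupP (by decide +kernel)
theorem r5683 : PImp [l4597, o5511, l2617, l2556, o9153, o9178] l5683 := rupP (by decide +kernel)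
theorem r5684 : PImp [o4345, l3785, l4838, l4872, l4839] l5684 := rupP (by decide +kernel)
theorem r5685 : PImp [l4838, l4839] l5685 := rupP (by decide +kernel)
theorem r5686 : PImp [l4451, l4449] l5686 := rupP (by decide +kernel)
theorem r5687 : PImp [o2717, l2966] l5687 := rupP (by decide +kernel)
theorem r5688 : PImp [l3930, o4272, o4282, l4474, o4263, o7694] l5688 := rupP (by decide +kernel)
theorem r5689 : PImp [l3930, l5687, l5688, l4476, o4270, o8027] l5689 := rupP (by decide +kernel)
theorem r5690 : PImp [l3303, l4030, l2779, o2460, l4060] l5690 := rupP (by decide +kernel)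
theorem r5691 : PImp [l3303, o2460, l4028, l5068] l5691 := rupP (by decide +kernel)
theorem r5692 : PImp [l3304, l3303, l3092, l4026, l3085, l1242, l4054, l1138, o3888, o6166] l5692 := rupP (by decide +kernel)
theorem r5693 : PImp [l3304, l3303, l5692, o2454, o2460, l4028, l5691, l5067, o6297, o3893] l5693 := rupP (by decide +kernel)
theorem r5694 : PImp [l3304, l3303, o2454, o2460, l4032, l5068, l4060, o6034, o3906, o3891] l5694 := rupP (by decide +kernel)
theorem r5695 : PImp [l3304, l3303, l5694, l3092, l3085, l4030, l1138, l4058, l1242, o3906, o5915, o3891] l5695 := rupP (by decide +kernel)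
theorem r5696 : PImp [l3303, l4026, l3085, l4054] l5696 := rupP (by decide +kernel)
theorem r5697 : PImp [l3303, l5695, l5693, l2786, l5696, o2460, l4028, l4056] l5697 := rupP (by decide +kernel)
theorem r5698 : PImp [l3308, l5697, l4027, o2474, o2464, o2460, o2454, l5034, l4056, o6034, o3881, o3891, l2789, o3870, l1268, l4087, l4019, l1412, o3947, l4995, o2494, l4994, l5113] l5698 := rupP (by decide +kernel)
theorem r5699 : PImp [o2460, o2454, l3308, l5698, l2784, l4060, o3860, o6297] l5699 := rupP (by decide +kernel)
theorem r5700 : PImp [l5041, l4450, l4455, l3564] l5700 := rupP (by decide +kernel)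
theorem r5701 : PImp [l5041, l5700, l4806, l2961] l5701 := rupP (by decide +kernel)
theorem r5702 : PImp [l4264, l3869, l4271] l5702 := rupP (by decide +kernel)
theorem r5703 : PImp [l2959, o2938, l432, l1254, l5113, l5112, o4449, o4450, l5701, l5702, l3551, l4923, l3550] l5703 := rupP (by decide +kernel)
theorem r5704 : PImp [l2561, l4595] l5704 := rupP (by decide +kernel)
theorem r5705 : PImp [l1412, o4576, l5704, l4600, o6436] l5705 := rupP (by decide +kernel)
theorem r5706 : PImp [l2603, l4610, o9178, l2556] l5706 := rupP (by decide +kernel)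
theorem r5707 : PImp [l5113, l5112, l2615, l2618, l2713, o9033, o9122] l5707 := rupP (by decide +kernel)
theorem r5708 : PImp [o7813, o7734] l5708 := rupP (by decide +kernel)
theorem r5709 : PImp [l4419, l4883] l5709 := rupP (by decide +kernel)
theorem r5710 : PImp [l2615, l2617, l2713, o9033, o9122] l5710 := rupP (by decide +kernel)
theorem r5711 : PImp [o5511, l5552, l2596, l2713, l2603, o9147] l5711 := rupP (by decide +kernel)
theorem r5712 : PImp [l5525, l2595, l2576] l5712 := rupP (by decide +kernel)
theorem r5713 : PImp [o6150, o6280] l5713 := rupP (by decide +kernel)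
theorem r5714 : PImp [l5666, l5552] l5714 := rupP (by decide +kernel)
theorem r5715 : PImp [l5666, l2602, o6584, o6769] l5715 := rupP (by decide +kernel)
theorem r5716 : PImp [l5113, l1357, l2791, l2596, o6732, l3320, o4037, l5713] l5716 := rupP (by decide +kernel)
theorem r5717 : PImp [l5712, l5660] l5717 := rupP (by decide +kernel)
theorem r5718 : PImp [o9045, o9177] l5718 := rupP (by decide +kernel)
theorem r5719 : PImp [l4777, l4773] l5719 := rupP (by decide +kernel)
theorem r5720 : PImp [l2590, l2544, l2615, o9045, o9177] l5720 := rupP (by decide +kernel)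
theorem r5721 : PImp [l2730, l2534] l5721 := rupP (by decide +kernel)
theorem r5722 : PImp [l1412, o4576, o6436, l4595] l5722 := rupP (by decide +kernel)
theorem r5723 : PImp [l3442, l3444] l5723 := rupP (by decide +kernel)
theorem r5724 : PImp [l3804, l3806] l5724 := rupP (by decide +kernel)
theorem r5725 : PImp [l4850, l4848] l5725 := rupP (by decide +kernel)
theorem r5726 : PImp [l4871, l4869] l5726 := rupP (by decide +kernel)
theorem r5727 : PImp [l3351, l3353] l5727 := rupP (by decide +kernel)
theorem r5728 : PImp [l606, o7710] l5728 := rupP (by decide +kernel)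
theorem r5729 : PImp [l5644, l5621] l5729 := rupP (by decide +kernel)
theorem r5730 : PImp [l3476, l3481] l5730 := rupP (by decide +kernel)
theorem r5731 : PImp [l390, l2845, l5242, l4616] l5731 := rupP (by decide +kernel)
theorem r5732 : PImp [l3484, l3491] l5732 := rupP (by decide +kernel)
theorem r5733 : PImp [l5039, l3509, l2674, l480] l5733 := rupP (by decide +kernel)
theorem r5734 : PImp [o8021, o8291] l5734 := rupP (by decide +kernel)
theorem r5735 : PImp [o5928, o6055] l5735 := rupP (by decide +kernel)
theorem r5736 : PImp [l1138, l1242, o876, l5735, o4227, o6650, o6801] l5736 := rupP (by decide +kernel)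
theorem r5737 : PImp [l3282, l5736, l3320, l5713, o4035, o6362, o6600] l5737 := rupP (by decide +kernel)
theorem r5738 : PImp [o5948, l512] l5738 := rupP (by decide +kernel)
theorem r5739 : PImp [o4227, o6252, o2572, o6113, o6584] l5739 := rupP (by decide +kernel)
theorem r5740 : PImp [l4460, l4671] l5740 := rupP (by decide +kernel)
theorem r5741 : PImp [o6802, o6526] l5741 := rupP (by decide +kernel)
theorem r5742 : PImp [l5035, l5113, l4655, l5131, o4569, l3368, l3385] l5742 := rupP (by decide +kernel)
theorem r5743 : PImp [l5034, o3895, o3954, o3948, l4057, l3991, l4059, l4704, l3986] l5743 := rupP (by decide +kernel)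
theorem r5744 : PImp [l2858, l3550, l3595] l5744 := rupP (by decide +kernel)
theorem r5745 : PImp [l4057, l4059] l5745 := rupP (by decide +kernel)
theorem r5746 : PImp [l5267, o2444, l4039, o3911, l4038, l1267] l5746 := rupP (by decide +kernel)
theorem r5747 : PImp [o3893, o3895, l702, l3311] l5747 := rupP (by decide +kernel)
theorem r5748 : PImp [l3311, l3312, l1412, l427, o3944, l4006, l3298] l5748 := rupP (by decide +kernel)
theorem r5749 : PImp [l5747, l5748, l3310, l3309, l2789, l5643, o5929, l706] l5749 := rupP (by decide +kernel)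
theorem r5750 : PImp [l2786, l4039, l4043, l5265, o2464, l3075, l1244, l4618, o3901, o6393, l702, l1412, l5275, l4967, o2705] l5750 := rupP (by decide +kernel)
theorem r5751 : PImp [l4585, l4582] l5751 := rupP (by decide +kernel)
theorem r5752 : PImp [o4266, o4263, l4950, o2727, o2935, l4924, l3550] l5752 := rupP (by decide +kernel)
theorem r5753 : PImp [o6173, o7673] l5753 := rupP (by decide +kernel)
theorem r5754 : PImp [l728, l5749, l5058, l3303, l4722] l5754 := rupP (by decide +kernel)
theorem r5755 : PImp [l702, l5275, l3008, l1357, l5269, l428, l1259, l5158, o2845, o852, l3294, l1244, l513, l4088, o2442, o2447, o2458, o2471, o2453, l465, l463, l3594, l5137, l5752, o2858, o3986, o7677, l4924, l4920, l5753, l2496, l2497, l728, l4008, l5754, o3922, o3910, l4714, l3305] l5755 := rupP (by decide +kernel)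
theorem r5756 : PImp [o852, l5042, l3294, l1244, l513, l702, l4088, o2442, o2447, o2458, o2471, o2453, l5269, o3943, l428, l3008, l1259, l1357, l5112, l1138, l5158, l5755, o4442, o4443, o4446, l2488, o5139, o4118, l5753, l2496, l2497, o6186, l728, l5754, o2629, o2630, l4008, o3922, o3910, l3907, l4945, l4714, l3604, l3305, l5172] l5756 := rupP (by decide +kernel)
theorem r5757 : PImp [l2776, o3913, l2788, l5643, o5929, l706] l5757 := rupP (by decide +kernel)
theorem r5758 : PImp [l3303, l5044, l3309, l3310, l5757, l728, l4542, l4530, o2412, o2463, l3093, o5929, l2789, l702, l4088] l5758 := rupP (by decide +kernel)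
theorem r5759 : PImp [l728, l3303, l5044, l3309, l3310, l5757, l5758, o2449, l4543, l3081, l4531] l5759 := rupP (by decide +kernel)
theorem r5760 : PImp [l702, o3894, l4088] l5760 := rupP (by decide +kernel)
theorem r5761 : PImp [l3076, l5760, l4619, l684, l2779, l3309, l4038, l4069] l5761 := rupP (by decide +kernel)
theorem r5762 : PImp [o2449, l3075, l3309, l5062, l4069, l3008, l4038, l5112, l2779, l2794] l5762 := rupP (by decide +kernel)
theorem r5763 : PImp [l5759, l5761, l3075, l5762, o3896, l684, l5044, l4070, o3902, l4039] l5763 := rupP (by decide +kernel)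
theorem r5764 : PImp [o7797, o7972] l5764 := rupP (by decide +kernel)
theorem r5765 : PImp [l3235, l5276, l5269, l427, l5275, l5040, l3931, l5764, o4266, l607, o4430, o4433, l4924, l2968, l5137, o2858] l5765 := rupP (by decide +kernel)
theorem r5766 : PImp [l2713, o9099, l2618, l2603] l5766 := rupP (by decide +kernel)
theorem r5767 : PImp [l3369, l3377] l5767 := rupP (by decide +kernel)
theorem r5768 : PImp [o9090, o9108] l5768 := rupP (by decide +kernel)
theorem r5769 : PImp [l5519, o6353] l5769 := rupP (by decide +kernel)
theorem r5770 : PImp [o8998, o9033] l5770 := rupP (by decide +kernel)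
theorem r5771 : PImp [l2582, l2580] l5771 := rupP (by decide +kernel)
theorem r5772 : PImp [l5112, l2791, l5771, o6498, o6560] l5772 := rupP (by decide +kernel)
theorem r5773 : PImp [l5130, l5131, o2912, l4835] l5773 := rupP (by decide +kernel)
theorem r5774 : PImp [l5571, l4597, l2616] l5774 := rupP (by decide +kernel)
theorem r5775 : PImp [l4606, l4596] l5775 := rupP (by decide +kernel)
theorem r5776 : PImp [l3797, l3794] l5776 := rupP (by decide +kernel)
theorem r5777 : PImp [l4139, l4146] l5777 := rupP (by decide +kernel)
theorem r5778 : PImp [l5519, l4604] l5778 := rupP (by decide +kernel)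
theorem r5779 : PImp [o6363, l4598] l5779 := rupP (by decide +kernel)
theorem r5780 : PImp [l2713, l2596, o9147, l2604] l5780 := rupP (by decide +kernel)
theorem r5781 : PImp [l5663, l5779] l5781 := rupP (by decide +kernel)
theorem r5782 : PImp [l2713, l2596, o8920, l2604] l5782 := rupP (by decide +kernel)
theorem r5783 : PImp [o6644, o6663] l5783 := rupP (by decide +kernel)
theorem r5784 : PImp [l3929, l5035, l4884, l4869, o2775] l5784 := rupP (by decide +kernel)
theorem r5785 : PImp [l3927, l5036, l3804, o6726, o2772] l5785 := rupP (by decide +kernel)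
theorem r5786 : PImp [o5511, l5766, o9057, o9033] l5786 := rupP (by decide +kernel)
theorem r5787 : PImp [o4576, l5781, l5519, l5778, o6342] l5787 := rupP (by decide +kernel)
theorem r5788 : PImp [l5771, l5666] l5788 := rupP (by decide +kernel)
theorem r5789 : PImp [l2730, l4198] l5789 := rupP (by decide +kernel)
theorem r5790 : PImp [l5782, l2556, l2602, o8898, l2615] l5790 := rupP (by decide +kernel)
theorem r5791 : PImp [l3758, l3765] l5791 := rupP (by decide +kernel)
theorem r5792 : PImp [l3216, l3775, l3777, o4310, o2757, o6726] l5792 := rupP (by decide +kernel)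
theorem r5793 : PImp [l3776, l3774] l5793 := rupP (by decide +kernel)
theorem r5794 : PImp [l2927, l3807] l5794 := rupP (by decide +kernel)
theorem r5795 : PImp [l4885, o4328, l5594] l5795 := rupP (by decide +kernel)
theorem r5796 : PImp [l2747, o4317] l5796 := rupP (by decide +kernel)
theorem r5797 : PImp [l5781, o6382, l2559, o6363] l5797 := rupP (by decide +kernel)
theorem r5798 : PImp [l2916, l2917] l5798 := rupP (by decide +kernel)
theorem r5799 : PImp [o6262, o6131] l5799 := rupP (by decide +kernel)
theorem r5800 : PImp [l5799, l4519, l4550, l3068] l5800 := rupP (by decide +kernel)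
theorem r5801 : PImp [l4541, l4044] l5801 := rupP (by decide +kernel)
theorem r5802 : PImp [l5054, l4039] l5802 := rupP (by decide +kernel)
theorem r5803 : PImp [l5278, l5277, l4736, l4733] l5803 := rupP (by decide +kernel)
theorem r5804 : PImp [l5034, l4525, l4727, l4697, o2468, l4985, l4748, l5046] l5804 := rupP (by decide +kernel)
theorem r5805 : PImp [l3303, l5016, l5027, l3085] l5805 := rupP (by decide +kernel)
theorem r5806 : PImp [l4068, l4057] l5806 := rupP (by decide +kernel)
theorem r5807 : PImp [l5677, l5803] l5807 := rupP (by decide +kernel)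
theorem r5808 : PImp [l5713, o6164, o6295] l5808 := rupP (by decide +kernel)
theorem r5809 : PImp [l728, l4045, l4052] l5809 := rupP (by decide +kernel)
theorem r5810 : PImp [l4065, l3083] l5810 := rupP (by decide +kernel)
theorem r5811 : PImp [l5112, l5810, l3043, l3281, l3974] l5811 := rupP (by decide +kernel)
theorem r5812 : PImp [l3091, l4547, o5884, l5027] l5812 := rupP (by decide +kernel)
theorem r5813 : PImp [l3303, l5028, l5016] l5813 := rupP (by decide +kernel)
theorem r5814 : PImp [l702, l4002] l5814 := rupP (by decide +kernel)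
theorem r5815 : PImp [l4033, l4062, l4029, l4057] l5815 := rupP (by decide +kernel)
theorem r5816 : PImp [l1357, l1316, l5048, l4754, l3085] l5816 := rupP (by decide +kernel)
theorem r5817 : PImp [l4520, l4519] l5817 := rupP (by decide +kernel)
theorem r5818 : PImp [l3308, l5799, l5800, l4520, l4519] l5818 := rupP (by decide +kernel)
theorem r5819 : PImp [l5799, l5817] l5819 := rupP (by decide +kernel)
theorem r5820 : PImp [l4754, o6213, o2442] l5820 := rupP (by decide +kernel)
theorem r5821 : PImp [l5112, l2794, o3888, l1357, l5820, l4760, o6192, o2442] l5821 := rupP (by decide +kernel)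
theorem r5822 : PImp [l5112, l2794, l5113, l1357, l1316, l5273, o3938, o3888, l5818, l3303, l5821, l5799, l4519, l5048, o2595] l5822 := rupP (by decide +kernel)
theorem r5823 : PImp [l5061, l4547, o6015, o2442] l5823 := rupP (by decide +kernel)
theorem r5824 : PImp [o2442, l5028, o5993] l5824 := rupP (by decide +kernel)
theorem r5825 : PImp [o5915, o6564] l5825 := rupP (by decide +kernel)
theorem r5826 : PImp [l5825, o5929, o6547] l5826 := rupP (by decide +kernel)
theorem r5827 : PImp [o5985, o5875] l5827 := rupP (by decide +kernel)
theorem r5828 : PImp [l5034, l3308, l3304, o2458, o2447, o5863, l4017, l4745] l5828 := rupP (by decide +kernel)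
theorem r5829 : PImp [l2794, o3897, o3891, l2779, o3909, l5826, l3304, l3308, l5827, l5828, o5964, l4055, l3075, l4053, l4025] l5829 := rupP (by decide +kernel)
theorem r5830 : PImp [l3304, l3308, l5815, l5802, l5814, l4074, l3068] l5830 := rupP (by decide +kernel)
theorem r5831 : PImp [l3217, l3216, l5725, l4869, l4838, l5798] l5831 := rupP (by decide +kernel)
theorem r5832 : PImp [l3216, l4655, l432, l1254, l1360, l5648, l3805, l4768, l3793] l5832 := rupP (by decide +kernel)
theorem r5833 : PImp [l3303, l5815] l5833 := rupP (by decide +kernel)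
theorem r5834 : PImp [l4655, l432, l1254, l1357, o3938, o3907, o3888, l5830, l702, l5833, l4058, l4060] l5834 := rupP (by decide +kernel)
theorem r5835 : PImp [o3891, l2779, l5807, l3303, l3304, l5823, l5824, l5027] l5835 := rupP (by decide +kernel)
theorem r5836 : PImp [l4655, l432, l1254, l1357, o3938, o3907, o3888, l5830, l702, o6297, l5833, o2442, l4058] l5836 := rupP (by decide +kernel)
theorem r5837 : PImp [l5834, l5836] l5837 := rupP (by decide +kernel)
theorem r5838 : PImp [l3308, l5823, l5824, l5027] l5838 := rupP (by decide +kernel)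
theorem r5839 : PImp [l4763, l5277, o3897, o3891, o3909, l5835, l5838, l3303, l5046, o2467, l5065, l4722] l5839 := rupP (by decide +kernel)
theorem r5840 : PImp [l4507, l4985] l5840 := rupP (by decide +kernel)
theorem r5841 : PImp [l4740, l4745] l5841 := rupP (by decide +kernel)
theorem r5842 : PImp [l3303, l5841, o2468, o3915, l5058, l4727] l5842 := rupP (by decide +kernel)
theorem r5843 : PImp [l5112, l1357, l1316, l5842, l5053, l5046] l5843 := rupP (by decide +kernel)
theorem r5844 : PImp [l3084, l4055, l5047] l5844 := rupP (by decide +kernel)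
theorem r5845 : PImp [l5034, l5028, l5021] l5845 := rupP (by decide +kernel)
theorem r5846 : PImp [o3897, l5046, l3084, l5841, l4745, l4752, l5034] l5846 := rupP (by decide +kernel)
theorem r5847 : PImp [l4006, l3298] l5847 := rupP (by decide +kernel)
theorem r5848 : PImp [l2619, l4604] l5848 := rupP (by decide +kernel)
theorem r5849 : PImp [l5046, l5065, l4744] l5849 := rupP (by decide +kernel)
theorem r5850 : PImp [l3303, l5676, l3075, l4042, l4062] l5850 := rupP (by decide +kernel)
theorem r5851 : PImp [l3308, l3216, l3929, l2924, o2781, l5682, l5035, l3410, l4851, l501, l2907, o2776, l4837, l3387, l5847, l4058, o6297, o2442] l5851 := rupP (by decide +kernel)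
theorem r5852 : PImp [l3308, l4058, o6297, o2442] l5852 := rupP (by decide +kernel)
theorem r5853 : PImp [o3890, o3896, l3308, l5852, l513, l5748, o2442] l5853 := rupP (by decide +kernel)
theorem r5854 : PImp [l3308, l4655, l428, o3945, o3952, l427, o3938, l432, l1254, l5113, o3896, l5853, o2705, l5275, l5847, l5034, l4058, l3993, l3084, l4994, l4051] l5854 := rupP (by decide +kernel)
theorem r5855 : PImp [l4883, l4417] l5855 := rupP (by decide +kernel)
theorem r5856 : PImp [l5854, o3907, l4655, l428, l1218, l3308, o3945, o3952, l427, o3938, l432, l1254, l5113, l3216, o2705, l5275, l5847, l5034, l4058, l3993, l3084, l3086, l3085, l4994, l4032, l4031, l4051, l4021, l684, l4023, o6297, o2443, l5855, l5135, l5851] l5856 := rupP (by decide +kernel)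
theorem r5857 : PImp [l3308, l4655, l432, l1254, l5112, l5856, l2794, o3888, l5852, l5044, l513, l5748, o2442] l5857 := rupP (by decide +kernel)
theorem r5858 : PImp [l3308, l5044, l513, l5748, o2442] l5858 := rupP (by decide +kernel)
theorem r5859 : PImp [l4058, l4060] l5859 := rupP (by decide +kernel)
theorem r5860 : PImp [l4655, l427, o3938, l432, l1254, l3308, l5857, l5859, l5044, l4006, l5748, o2488, l5847, l5275] l5860 := rupP (by decide +kernel)
theorem r5861 : PImp [l4006, l5847, o2488, l5275] l5861 := rupP (by decide +kernel)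
theorem r5862 : PImp [l4042, l4043] l5862 := rupP (by decide +kernel)
theorem r5863 : PImp [l3303, l4074, l5861, l5862, l5266, o5985, l712] l5863 := rupP (by decide +kernel)
theorem r5864 : PImp [l3303, l706, l5746, l713, l3995, l5065] l5864 := rupP (by decide +kernel)
theorem r5865 : PImp [l5682, l4886] l5865 := rupP (by decide +kernel)
theorem r5866 : PImp [o9033, o9057] l5866 := rupP (by decide +kernel)
theorem r5867 : PImp [o6226, o6090] l5867 := rupP (by decide +kernel)
theorem r5868 : PImp [l4603, l4600, o4571, o6526] l5868 := rupP (by decide +kernel)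
theorem r5869 : PImp [o6129, o6261] l5869 := rupP (by decide +kernel)
theorem r5870 : PImp [o7909, o7740] l5870 := rupP (by decide +kernel)
theorem r5871 : PImp [l5870, o7949, o7777] l5871 := rupP (by decide +kernel)
theorem r5872 : PImp [o7856, o7694] l5872 := rupP (by decide +kernel)
theorem r5873 : PImp [o7818, l598] l5873 := rupP (by decide +kernel)
theorem r5874 : PImp [l5871, l5872, l5873] l5874 := rupP (by decide +kernel)
theorem r5875 : PImp [l4476, o2848, l3584, l3583] l5875 := rupP (by decide +kernel)
theorem r5876 : PImp [l5275, l4939, l3585, o2854] l5876 := rupP (by decide +kernel)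
theorem r5877 : PImp [l3234, l5275, l5876, l4471, l3584, o2848] l5877 := rupP (by decide +kernel)
theorem r5878 : PImp [o4264, o4262, o4431, o4922, l5877, l639, l3911, o3155] l5878 := rupP (by decide +kernel)
theorem r5879 : PImp [l4655, l432, l1254, l427, l5765, l2387, l5878, o7757, o6577] l5879 := rupP (by decide +kernel)
theorem r5880 : PImp [o7677, o7835] l5880 := rupP (by decide +kernel)
theorem r5881 : PImp [o8217, o8053] l5881 := rupP (by decide +kernel)
theorem r5882 : PImp [l4655, l432, l1254, l427, o4264, o4262, o4431, l5877] l5882 := rupP (by decide +kernel)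
theorem r5883 : PImp [l3930, l5112, l5042, l5765, l4955, l4952] l5883 := rupP (by decide +kernel)
theorem r5884 : PImp [l3930, l4655, l432, l1254, l1138, l1242, l5882, o4270, l5883, o7949, o7777] l5884 := rupP (by decide +kernel)
theorem r5885 : PImp [l5042, l4655, l432, l1254, l1138, l1242, l5113, l3234, l5680, o2845, l4581, o8075, o7740, o4444, o5139, l3605, l3892, o2854, l4290, l3177] l5885 := rupP (by decide +kernel)
theorem r5886 : PImp [l5042, l5113, l5112, l4300, l2965, l4289, o2848] l5886 := rupP (by decide +kernel)
theorem r5887 : PImp [l5113, l5042, l4093, l5885, l5751, l5873, l461, l464, l4584, o5434, o4262, l2802, o8090, l5886, l3176, l5875, l3609] l5887 := rupP (by decide +kernel)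
theorem r5888 : PImp [l5876, l3609] l5888 := rupP (by decide +kernel)
theorem r5889 : PImp [l5275, l5113, l1357, l4584, l5888, l4300, l4811, o2848, l4809, l3910] l5889 := rupP (by decide +kernel)
theorem r5890 : PImp [l3910, o2848, l4813, l4811] l5890 := rupP (by decide +kernel)
theorem r5891 : PImp [l5275, l4655, l432, l1254, l427, l1357, o4264, o4262, o4441, o4429, o4431, l5889, l5158, l2492, l5890, l5876, l3610] l5891 := rupP (by decide +kernel)
theorem r5892 : PImp [l1316, l5891, l5873, l5880] l5892 := rupP (by decide +kernel)
theorem r5893 : PImp [l5873, l5880] l5893 := rupP (by decide +kernel)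
theorem r5894 : PImp [l5374, l5460, l3490] l5894 := rupP (by decide +kernel)
theorem r5895 : PImp [l5038, l5374, l5894, l390, l2845, l5733] l5895 := rupP (by decide +kernel)
theorem r5896 : PImp [l5276, l5113, l5644, l5587, l5344] l5896 := rupP (by decide +kernel)
theorem r5897 : PImp [l3223, l473, l5467, l2674, l2529] l5897 := rupP (by decide +kernel)
theorem r5898 : PImp [l1590, o8788] l5898 := rupP (by decide +kernel)
theorem r5899 : PImp [l667, o9006] l5899 := rupP (by decide +kernel)
theorem r5900 : PImp [l5894, l5895, l3480, l3487] l5900 := rupP (by decide +kernel)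
theorem r5901 : PImp [l5038, l5037, l5900, l5731, l4660, l4659] l5901 := rupP (by decide +kernel)
theorem r5902 : PImp [l5038, l5037, l1360, l5900, l5901, l5731, o2996, l4641, l4642] l5902 := rupP (by decide +kernel)
theorem r5903 : PImp [l5113, l5037, l5902, l5587, l5374, l5191] l5903 := rupP (by decide +kernel)
theorem r5904 : PImp [l5113, l5587, l5896, l5191, l5324] l5904 := rupP (by decide +kernel)
theorem r5905 : PImp [l5433, l2695] l5905 := rupP (by decide +kernel)
theorem r5906 : PImp [l1357, l1316, l5039, l5905, l481, l480, l4224, l5603] l5906 := rupP (by decide +kernel)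
theorem r5907 : PImp [l5906, l3934, l3223, l4655, l432, l1254, l1138, l5112, l1357, l481, o5158, l4224, l4576, l2845] l5907 := rupP (by decide +kernel)
theorem r5908 : PImp [l5906, l5907, l5433, l4615] l5908 := rupP (by decide +kernel)
theorem r5909 : PImp [l5467, l2674] l5909 := rupP (by decide +kernel)
theorem r5910 : PImp [l3219, l4655, l432, l1254, l1138, l5112, l5909, o5159, l2684, l4633, l3532, l2681] l5910 := rupP (by decide +kernel)
theorem r5911 : PImp [l5039, l481, l480, l2682, l3488, l5228, l2846] l5911 := rupP (by decide +kernel)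
theorem r5912 : PImp [l5903, l5904, l3119, l5908, l5910, l5911, o5376, l5467, l5897, l2808, l3392, l667] l5912 := rupP (by decide +kernel)
theorem r5913 : PImp [l3119, l5908, l5910, l5911, o5376, l5467, l5897, l2808, l3392, l667] l5913 := rupP (by decide +kernel)
theorem r5914 : PImp [l5113, l5902, l5587, l5374, l5623, l5636, l4796] l5914 := rupP (by decide +kernel)
theorem r5915 : PImp [l3303, l4655, l428, o3945, l427, o3938, l5276, l5113, l1360, l3216, l3929, l5863, l3056, l4071, l4070, l5864, l3067, l4002, l5847, l5750, l3299, l5275, l4088, o2496, l4039, o3907, l5676, l4041, l1267, l5865, l4883, l5709, o2775, l5855, o2762, o2899, l4407, l4837, l3409, l501, l3367, l3404, l3416, l5912, l5914, l4156, l5913, l2630, l5587, l5896, o5376, l5324, l3396, l2642, o8419, l2808] l5915 := rupP (by decide +kernel)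
theorem r5916 : PImp [l4156, l5896, l3396, l5113, l5587, l2630, l3409, l3404, o5376, o8419, l2813, o8563, l5633] l5916 := rupP (by decide +kernel)
theorem r5917 : PImp [l4035, l4025] l5917 := rupP (by decide +kernel)
theorem r5918 : PImp [l5896, l3399, l4655, l5113, l5587, o4498, l2631, l3303, l3216, l4883, l5855, l4401, l4157, l5916, l5917, l5833, l4031, l4029, l3810, l3414, o2996, o3095, l4220, o8722, o5485] l5918 := rupP (by decide +kernel)
theorem r5919 : PImp [l5896, l5113, l5587, l5034, l5112, l5324, l5904, l4129, l1245, o8546, o3563, l4220, l4223, l5917, l4031, o3919, l4029, o2475, l4727, l4020] l5919 := rupP (by decide +kernel)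
theorem r5920 : PImp [l5896, l3396, l5113, l5587, l2630, l3303, l1360, l3216, l3929, l5918, l5682, l5865, l5035, l4862, l4885, l4851, l2909, o2779, l2907, l3410, l3405, o5376, l5919, l5815, l5850] l5920 := rupP (by decide +kernel)
theorem r5921 : PImp [o8848, o8560] l5921 := rupP (by decide +kernel)
theorem r5922 : PImp [l5034, l4234, l4525, o4019, l4655, l432, o3964, o3978, o3969, l5113, l3216, l3929, l2629, o1726, l5587, l5896, o4498, o4131, l3400, l3821, l5920, l4059, l5745, l3811, o6246, l3043, l4064, l3971, l3977, l3953, l3284, l5921, o3187, o3191, o2684, l5855, l4407, o6147, l4116] l5922 := rupP (by decide +kernel)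
theorem r5923 : PImp [l5906, l5907, l5908, l5186] l5923 := rupP (by decide +kernel)
theorem r5924 : PImp [l5113, l490, l4655, o4544, l4883, l4157, l5855, l5709, l5923, l3223, l3219, l432, l1254, o4549, o4566, l428, l3929, l476, o4462, o4458, o4479, l5467, l5909, l2675, l5039, l4909, l3528, l3855, l3836, l3838, l3397, l2951, l2952, o3056, l2916, o2762, l3502, l4245, l4407, l4837, o5464, l4248, l3118, o8624] l5924 := rupP (by decide +kernel)
theorem r5925 : PImp [l480, l5039, l5911, l5434, l3510] l5925 := rupP (by decide +kernel)
theorem r5926 : PImp [l5923, l490, l4655, o4544, l5113, l3025, l5709, l5924, l480, l5925, l5910, l5745, l2681, l5244, l2846, l5434] l5926 := rupP (by decide +kernel)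
theorem r5927 : PImp [l3219, l5434, l2846, l3524, l4633] l5927 := rupP (by decide +kernel)
theorem r5928 : PImp [l5923, l3219, l4655, l432, l1254, l1138, l5112, l480, o5159, o5160, l5925, l5927, l5240, l5244, l4633, l3532] l5928 := rupP (by decide +kernel)
theorem r5929 : PImp [l473, l3223, l4129, l5909, l2674, o8464, l2530, l3392] l5929 := rupP (by decide +kernel)
theorem r5930 : PImp [l3452, l3453, l4655, o4566, l490, o4544, o4549, o4560, l5860, l5915, o4554, l5113, l1360, l3216, l3929, l4183, l5922, l5923, l5926, l5682, l5865, l5035, l4862, l4885, l4851, l2909, l2907, o2776, l3410, l4837, l501, l3415, l3370, l3119, l5928, o4498, o5376, l4891, o3194, l5929, l2679, l2675] l5930 := rupP (by decide +kernel)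
theorem r5931 : PImp [l5910, l5909, l5745, l5244] l5931 := rupP (by decide +kernel)
theorem r5932 : PImp [l3219, l5038, l5037, l4655, l432, l1254, l1138, l5112, o5159, l5240, l5244, l4633, l3532] l5932 := rupP (by decide +kernel)
theorem r5933 : PImp [l5038, l5037, l5860, l5113, l3216, l3929, l5931, l5709, l5682, l5035, l4862, l4885, l4136, l4851, l2909, l2907, o2776, l3410, l4837, l501, l3370, l3119, l5932, o5376, l5929, l1594] l5933 := rupP (by decide +kernel)
theorem r5934 : PImp [l5433, l5186, l4615] l5934 := rupP (by decide +kernel)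
theorem r5935 : PImp [l5038, l5037, l4655, l432, l1254, l1138, l5112, l3223, l5933, l3934, l5731, l5934, l481, o5158, l4659, l4576, l2526] l5935 := rupP (by decide +kernel)
theorem r5936 : PImp [l4883, l4135, o3172, o8834] l5936 := rupP (by decide +kernel)
theorem r5937 : PImp [l3303, l3216, l3929, o3182, o3204, o3564, l4407, l4837, l3409, l501, l3416, l3389, l4031, l4029, l4057, l3085, l5266, l2794, o3888, o6297, o6227] l5937 := rupP (by decide +kernel)
theorem r5938 : PImp [l490, l4655, o4549, o4544, o4554, o4560, o4566, l430, l428, l5113, l5112, l1357, l3453, l3452, l3216, l3929, l5860, l3303, l5915, l5930, l5037, l5038, l5935, l2631, l5587, l5374, l5308, l476, l473, l5623, o4462, l3934, l3935, l3399, l2641, o2996, l4802, l4591, l5636, l4796, l4970, o2982, o2989, l4647, l5637, o5464, l5936, l5682, l4417, l5917, l5937, o8834, l4099, l4407, l5798, l5247, l4376] l5938 := rupP (by decide +kernel)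
theorem r5939 : PImp [l3929, l4407, l5798, l5247, l4376] l5939 := rupP (by decide +kernel)
theorem r5940 : PImp [l3303, l5917, o3906, o3897, l5655, l5047] l5940 := rupP (by decide +kernel)
theorem r5941 : PImp [l4655, l432, l1254, l1138, l1242, l5112, o3906, l2779, l1245, o3891, l2794, l5697, o5915, l4031, l3092] l5941 := rupP (by decide +kernel)
theorem r5942 : PImp [l4655, l432, l1254, l1138, l1242, l5113, l1316, l5034, l4525, l5940, l3308, l5941, l5917, l4026, l4028, l4056, l3043, l3056, l5267, l5265, l3974, o5915, o4109, l2789, l4994, o3895, l4045] l5942 := rupP (by decide +kernel)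
theorem r5943 : PImp [l3308, l3083, l5847, l3068, l3309, l3297] l5943 := rupP (by decide +kernel)
theorem r5944 : PImp [l5038, l5037, l490, l4655, o4549, o4544, o4566, l430, l428, l5113, l5112, l1360, l1357, l3216, l3929, l2630, l2631, l5587, l5374, l5308, l476, l473, l5623, o4498, o4462, l3934, l3935, l3396, l3399, l2640, l2641, o3464, o2996, l4802, l4591, l5636, l3218, l4795, l4796, l4970, o2982, l4647, l4444, l5637, o5464, l5936, l5682, l4419, l4417, l5939, l4101, l4099, o8834, o3764, o3204, o3564, o8704, l4837, l3409, o5487, l3416, l3367, l5942, l5943, l3303, l5862, l5802, l5676] l5944 := rupP (by decide +kernel)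
theorem r5945 : PImp [l3223, l5038, l5037, l4655, l432, l1254, l1138, l5112, l3934, l5731, l5934, l481, o5158, l4659, l4576, l2526] l5945 := rupP (by decide +kernel)
theorem r5946 : PImp [l4655, l5037, l5944, l5945, l5932, o4498, l5909, l2674, l4426, l2932] l5946 := rupP (by decide +kernel)
theorem r5947 : PImp [l4655, l428, o4458, l473, l476, l3223, l3219, l432, l1254, l490, o4544, l5113, l5909, l2674, l5709, l2846, l2953, o3542, l3530, l2530, l2525, l5682, l3397, l3855, l4885, l4132, l3505, l4664, o5464, l4662, o8834, o8773] l5947 := rupP (by decide +kernel)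
theorem r5948 : PImp [l5896, l490, l4655, o4544, l430, l1360, l5947, l2679, l2675, l4971, l5865, l5924] l5948 := rupP (by decide +kernel)
theorem r5949 : PImp [l3219, l4633, l3532, l2681] l5949 := rupP (by decide +kernel)
theorem r5950 : PImp [l4655, l432, l1254, l1138, l5112, l5896, l5948, l480, o5159, l5925, l5949, l2846, l5240, l5434] l5950 := rupP (by decide +kernel)
theorem r5951 : PImp [l4655, l428, l5113, l5923, l5587, o4462, l473, l3934, l432, l1254, l2642, l2948, l4590, l3850] l5951 := rupP (by decide +kernel)
theorem r5952 : PImp [l3935, l4240, l4245, l483] l5952 := rupP (by decide +kernel)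
theorem r5953 : PImp [l4883, o3074, l4157, o8722] l5953 := rupP (by decide +kernel)
theorem r5954 : PImp [l4655, l432, l5113, l5946, l5923, l5587, o4484, l428, o4462, o4498, l473, l476, l2631, l3216, l2629, l3929, l3339, l3400, l3399, l3935, l3934, l1254, l490, o4544, o4554, o4560, l5112, l1316, l5951, l2641, l4802, l4591, l3827, l3850, l2935, l3830, l3829, l1218, o2982, l5622, l4223, o5473, l4218, o8848, l5952, l4798, o5464, l5953, l5682, l5135, l2924, o3187, l5035, l4862, l4128, l3410, l3811, l4851, l501, o5373, l2907, o3092, o8400, l2794, l2634, o3895, l3370, l3387, l5942, l5943, l5655, l5047] l5954 := rupP (by decide +kernel)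
theorem r5955 : PImp [l4655, l432, l1254, l428, l5276, l5113, l3453, l3452, l3216, l5938, l5946, l4183, l5950, l3934, l3935, l5923, l5587, l476, l473, o4458, l5954, l5039, l5324, l5383, l4254, l2704, l2702, l2703, l3855, l5314, l1218, l2952, l4225, l5952, l4223] l5955 := rupP (by decide +kernel)
theorem r5956 : PImp [l5655, l5047] l5956 := rupP (by decide +kernel)
theorem r5957 : PImp [l3308, o2449, o2447, l4548, o6281, o6015] l5957 := rupP (by decide +kernel)
theorem r5958 : PImp [l4763, l5957, o2467, l4542, l5012, l5048, l5678] l5958 := rupP (by decide +kernel)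
theorem r5959 : PImp [l1245, o3906, o3895, o3909, l5956, l5958, l5027, o2461, l4736, l5016] l5959 := rupP (by decide +kernel)
theorem r5960 : PImp [l4655, o3969, l4763, l5113, l4525, l5030, l4985, l3043] l5960 := rupP (by decide +kernel)
theorem r5961 : PImp [l3308, l5960, l4549, o6281, o2442] l5961 := rupP (by decide +kernel)
theorem r5962 : PImp [l3303, l5048, l5677, o2461, l4731, l4754] l5962 := rupP (by decide +kernel)
theorem r5963 : PImp [l4655, l432, l5113, l5923, l5587, o4484, l428, o4462, o4498, l2631, l3216, l2629, l3400, l3399, l3935, l1254, o4544, l5112, l1357, l1316, l3929, l3222, l3827, l3850, l2936, l2935, l3830, l3829, l1218, o2982, l5622, l4223, o5473, l4218, l5952, o8848, l5039, l4800, l2641, o5457, l5953, l5682, l5865, l5135, l2924, o3187, l5035, l4862, l3410, l3813, l4851, l501, l3405, o2779, l2907, o2776, l1245, l2794, l4837, l3370, l5959, o3890, l5961, l3303, l5962, l4760, l4761, o2461, l4736, l4738] l5963 := rupP (by decide +kernel)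
theorem r5964 : PImp [l4763, l5034, l4760, l4761, l4704, l5053, l4999, l710, o5937, o6192] l5964 := rupP (by decide +kernel)
theorem r5965 : PImp [l4655, l428, o3945, o3952, l5113, l5112, l1357, l1316, l3303, l5956, l5964, l5048, l5677, l4731, l5816, l4754, l2794, o2442, o3888, o6213, o6281] l5965 := rupP (by decide +kernel)
theorem r5966 : PImp [l4763, o2442, l5266, l710, l3076, l5048, l4545, l5656, l2785, o3913, l4531] l5966 := rupP (by decide +kernel)
theorem r5967 : PImp [l3308, l4763, l5817, l4520, l4549, l316, l4994, l5966, o6281, l684, o3888, l4545, l2794, l3084] l5967 := rupP (by decide +kernel)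
theorem r5968 : PImp [l4655, o3952, l427, o3938, l5113, l5112, l1357, l1316, l3308, l5967, l5960, l5003, l5004] l5968 := rupP (by decide +kernel)
theorem r5969 : PImp [l1789, o3888, l4087, l4763, l5034, l4760, l4761, o2442, l4704, o6192, l4999] l5969 := rupP (by decide +kernel)
theorem r5970 : PImp [l5277, o2897, l5969, l5962, o2702, o2765, l4970, l5682, l4885] l5970 := rupP (by decide +kernel)
theorem r5971 : PImp [l5968, l4655, l428, o3945, o3952, l4763, l430, l5113, l5112, l1357, l1316, l3929, l5970, l5965, l5709, l5682, l5035, l4885, l4872, o2769, l5962, l5964, l5655, l5046] l5971 := rupP (by decide +kernel)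
theorem r5972 : PImp [l4763, l5034, l5964, l5065, l5046] l5972 := rupP (by decide +kernel)
theorem r5973 : PImp [l4763, l4709, l4702, l4999] l5973 := rupP (by decide +kernel)
theorem r5974 : PImp [l5968, l3303, l4655, l428, o3945, o3952, l427, o3938, l5113, l5112, l1357, l1316, l5048, l3069, l3059, l5973, l5816, l4754, l2794, o2442, o3888, o6213, o6281] l5974 := rupP (by decide +kernel)
theorem r5975 : PImp [l4655, l428, l5113, l5112, l1357, l1316, o3952, o3945, l5968, l5971, l1217, l5974, l5969, l5972] l5975 := rupP (by decide +kernel)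
theorem r5976 : PImp [l4763, o3906, l2779, l5846, l2794] l5976 := rupP (by decide +kernel)
theorem r5977 : PImp [l4736, l4735] l5977 := rupP (by decide +kernel)
theorem r5978 : PImp [l3303, l5976, l5977, l4733, l4757, l5677, l4752] l5978 := rupP (by decide +kernel)
theorem r5979 : PImp [l5113, l5923, l5587, l476, l3935, l5951, l2641, l4802] l5979 := rupP (by decide +kernel)
theorem r5980 : PImp [l3935, l5113, l4183, l5923, l5587, l476, l5963, l5979, l5324, l5383, l4254] l5980 := rupP (by decide +kernel)
theorem r5981 : PImp [o3906, l2779, o3891, l2794, o5897, l3092] l5981 := rupP (by decide +kernel)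
theorem r5982 : PImp [l5981, l4533, l5677] l5982 := rupP (by decide +kernel)
theorem r5983 : PImp [l3308, l4763, l5113, l5112, l1357, l1316, l4655, l5982, l5048, l4536, l4534, l4548, l3056, l5267, l5265, o5897, o3943, l2789, l4999, o3895, l4542] l5983 := rupP (by decide +kernel)
theorem r5984 : PImp [l5027, l4763, o3897, l1245, l5845, o2450] l5984 := rupP (by decide +kernel)
theorem r5985 : PImp [l4655, l432, l1254, l490, o4549, o4544, o4554, o4560, o4566, l430, l5113, l5112, l1357, l1316, l3216, l3929, l3935, l3396, l3399, l5980, l5037, l5038, l5945, l2630, l2631, l5587, l5308, l476, l5623, o4484, l2641, o2996, o3464, l5636, l4802, l4796, l4970, o2989, o2982, l4644, l5978, l5637, o5464, l5936, l5682, l4417, l5939, l4101, l4099, o8834, o3764, o3564, o3204, o8704, l3409, l4837, o5487, l3404, l3367, l5983, l5027, l5984, l1268, o3906, l5977, l5813, o2461] l5985 := rupP (by decide +kernel)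
theorem r5986 : PImp [l5950, l5037, l5374, l5932, l5947] l5986 := rupP (by decide +kernel)
theorem r5987 : PImp [l3453, l3452, l490, l3216, l4655, o4544, o4549, l5955, l5975, l5985, l5986] l5987 := rupP (by decide +kernel)
theorem r5988 : PImp [l3219, l476, l5225, l5224, o3540] l5988 := rupP (by decide +kernel)
theorem r5989 : PImp [l480, l2846, l5240, l5434] l5989 := rupP (by decide +kernel)
theorem r5990 : PImp [l3223, l3219, l3518, l5437, l4245] l5990 := rupP (by decide +kernel)
theorem r5991 : PImp [l5989, l2990, l480, l3219, l3008, l4970, l3030, l430, l4180, l5434, l2809, l5990, o4720, o5456, l3524, l3840, l33] l5991 := rupP (by decide +kernel)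
theorem r5992 : PImp [l5007, l5002] l5992 := rupP (by decide +kernel)
theorem r5993 : PImp [l5992, o5897, o6575] l5993 := rupP (by decide +kernel)
theorem r5994 : PImp [l3119, l3116, l3929, l3394, l3395, l1779, o8609, l3374, o5449, o4860, l3423, l1217, l5678, l4730, l3075, l4759] l5994 := rupP (by decide +kernel)
theorem r5995 : PImp [l3115, l3223, l3219, l3008, l4970, l430, l1412, o4065, l3030, l3029, l4129, l4128, l5988, l481, l480, o4726, l5989, l2988, l2992, l2681, l2807, l2808, l4427, l3488, l3491, l5991, l5238, l3509, l3512, l5993, l3304, l3308, l5994, l4446, l3525, o4687, o5160, l1217, l1137, l5678, l4730, l3075, l4759] l5995 := rupP (by decide +kernel)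
theorem r5996 : PImp [l5995, l5037, l5925, l2675, l2679] l5996 := rupP (by decide +kernel)
theorem r5997 : PImp [l5374, l5344, l3486, l5343, l482, l485, l476, l2846, l2680, l3531, l3153, l3508] l5997 := rupP (by decide +kernel)
theorem r5998 : PImp [l3000, l2995, l2994, l3008, l3216, l3929, l5682, l5865, l5035, l4137, l4885, l4970, l4872, l430, l3029, o4865, o4322, l5796, l2747, l1412, l3410, o3891, l4835, l2779, l4087, l3408, l3411, l5996, l2630, l5587, l5374, l5348, l5343, l476, l5344, l2688, l2299, l3486, l5268, l3384, o4470, o4461, o4481, o5381, l4895, o2733, o2740, l4908, l4902, l2338, l5997, l2676, l2807, l2808, l3529, o8432, o8400, l3394, l5373] l5998 := rupP (by decide +kernel)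
theorem r5999 : PImp [l2631, l5374, l5337, l4157, l5303, l482, l5344, l3486, l5268, l2772, o4455, o4509, l2744, o4791, l3406, l5601, l643, l2814, l2252] l5999 := rupP (by decide +kernel)
theorem r6000 : PImp [l476, l3219, l5988, l5224, l5175, l5601, l5411, l2744] l6000 := rupP (by decide +kernel)
theorem r6001 : PImp [l473, l476, l3223, l2987, l5225, l2675, l5039, l2529, o6513, o4679, o4680, l5198, l5438] l6001 := rupP (by decide +kernel)
theorem r6002 : PImp [l3219, l476, l6000, l3406, o4509, l6001, l5175, l5467, l2848, l3530] l6002 := rupP (by decide +kernel)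
theorem r6003 : PImp [l5987, l2994, l3453, l490, l3216, o4544, o4531, o4516, o4528, l1412, l5269, l3006, l3007, l1145, l4882, l5230, l4420, l5999, l6002, l5989, l2682, l2681] l6003 := rupP (by decide +kernel)
theorem r6004 : PImp [l4133, l3119, l3219, l3929, o4884, o4707, l3374, l4437, o8608, l3394] l6004 := rupP (by decide +kernel)
theorem r6005 : PImp [o5936, o5963] l6005 := rupP (by decide +kernel)
theorem r6006 : PImp [l2707, l5788, l5711] l6006 := rupP (by decide +kernel)
theorem r6007 : PImp [l5778, l5663] l6007 := rupP (by decide +kernel)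
theorem r6008 : PImp [l2544, l6007, o5511, l5866, l2713, l4602, l2618] l6008 := rupP (by decide +kernel)
theorem r6009 : PImp [o5511, l5683, l5706] l6009 := rupP (by decide +kernel)
theorem r6010 : PImp [l5035, l4084, l6008, l2707, l6009, o5824, l5534] l6010 := rupP (by decide +kernel)
theorem r6011 : PImp [l5665, l2578, l2576] l6011 := rupP (by decide +kernel)
theorem r6012 : PImp [l2585, l5528] l6012 := rupP (by decide +kernel)
theorem r6013 : PImp [l1412, o8785, l3465, l6010, l2571, l6006, o2924, l6011, o5099, l6012, l2579, l2590] l6013 := rupP (by decide +kernel)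
theorem r6014 : PImp [l1412, o2924, l6011, o5099, l6012, l2579, l2590] l6014 := rupP (by decide +kernel)
theorem r6015 : PImp [l2571, l6014, l2707, l5714, l5788, l2713, o5511, o9132, o9147] l6015 := rupP (by decide +kernel)
theorem r6016 : PImp [o5406, l5683, l4610, l2710, l2555, o8866] l6016 := rupP (by decide +kernel)
theorem r6017 : PImp [l3933, l4183, o5444, l3117, l1412, l5035, l6013, l6015, l4084, l4082, l6008, l2707, l2708, l6016, o5824, o5730, l5555, l24, l2710, o8579] l6017 := rupP (by decide +kernel)
theorem r6018 : PImp [l2707, l5681, l6009] l6018 := rupP (by decide +kernel)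
theorem r6019 : PImp [o5511, l5866, l2713, l4602, l2618] l6019 := rupP (by decide +kernel)
theorem r6020 : PImp [l3000, l5035, l4835, l328, l4084, l6018, l2544, o2924, l6019, o4571, l5778, l5797] l6020 := rupP (by decide +kernel)
theorem r6021 : PImp [l3000, l5035, l4835, l1412, l328, o8924, l3465, l6020, l2571, l6014, l6015, l6006] l6021 := rupP (by decide +kernel)
theorem r6022 : PImp [l2555, l2561, o8579, l2710] l6022 := rupP (by decide +kernel)
theorem r6023 : PImp [o4726, l5989, l2992, l4427, l4183, l2682, l2668, l2808, o5444, l3000, l5035, l3929, l4835, l3119, l3118, l3117, l1412, l328, l3933, l3394, l3397, o9019, l1779, o8773, o8934, l5949, l6021, l6013, l6017, l6015, l4084, l4082, l6008, l2707, l2708, l6016, o5824, o5730, l6022, l2713, l4606, o8947, l2615] l6023 := rupP (by decide +kernel)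
theorem r6024 : PImp [o4571, o5824, l5555, l20, l2713, l5741, o6700] l6024 := rupP (by decide +kernel)
theorem r6025 : PImp [o5511, l5683, l4610, l2556, o9153, o9178] l6025 := rupP (by decide +kernel)
theorem r6026 : PImp [l5842, l3100, o2570, o6211, l5867] l6026 := rupP (by decide +kernel)
theorem r6027 : PImp [l4763, l6025, o4139, o5824, l5555, l4601, l3321, l5741, l6026] l6027 := rupP (by decide +kernel)
theorem r6028 : PImp [l4710, o6281] l6028 := rupP (by decide +kernel)
theorem r6029 : PImp [l6028, l4761, l6025, l6027, o5824, l2713, l20] l6029 := rupP (by decide +kernel)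
theorem r6030 : PImp [l4763, l5842, o2449, o2447, o2491, l6029, l6024, l4755, l6025, l4761] l6030 := rupP (by decide +kernel)
theorem r6031 : PImp [l4755, l4761] l6031 := rupP (by decide +kernel)
theorem r6032 : PImp [l3303, l4756, l3075, l4737] l6032 := rupP (by decide +kernel)
theorem r6033 : PImp [l6024, l6031, l6025] l6033 := rupP (by decide +kernel)
theorem r6034 : PImp [l4970, l430, l1412, l3029, l3303, l6030, l6032, o2489, o2442, l6033, l6028, l4761, l4737, l4738] l6034 := rupP (by decide +kernel)
theorem r6035 : PImp [l4763, l3308, l5817, o6131, l5034, l5030, l713, l5051, l5026] l6035 := rupP (by decide +kernel)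
theorem r6036 : PImp [l4756, l6032, l4760] l6036 := rupP (by decide +kernel)
theorem r6037 : PImp [l2707, l6034] l6037 := rupP (by decide +kernel)
theorem r6038 : PImp [o4571, l5778, l5797] l6038 := rupP (by decide +kernel)
theorem r6039 : PImp [l4602, l2618] l6039 := rupP (by decide +kernel)
theorem r6040 : PImp [l4970, l430, l5035, l4084, l6037, l2544, o2924, l6038, o5099, l6019, l6039, l2539, o6585] l6040 := rupP (by decide +kernel)
theorem r6041 : PImp [l4755, l4710, o6281] l6041 := rupP (by decide +kernel)
theorem r6042 : PImp [l3000, l5035, l3008, l4970, l3029, l3929, l4835, l3115, l5991, l5244, l430, o4726, l5989, l2992, l4427, l481, l480, l3509, l390, l3473, l5239, l1244, l3512, l2835, l2836, l3030, l2682, l2668, l5238, l4133, l4132, l3219, l4763, l328, l6023, l3525, l3522, l3517, l6035, l3303, l6036, l3089, o2489, o2442, l6040, l6041, l5034, l4086, l4761, l4762, l4706, l4738, l4704, l6014, l4739, l5714, l5788, l6015, l2596, l3282, o5096, l3321, o6014, o5895] l6042 := rupP (by decide +kernel)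
theorem r6043 : PImp [l5714, l5788, l2596, l3282, o5096, l3321, o6014, o5895] l6043 := rupP (by decide +kernel)
theorem r6044 : PImp [l2544, o2924, l6019, l6038] l6044 := rupP (by decide +kernel)
theorem r6045 : PImp [l2713, l20, o8947, l4606, l2615] l6045 := rupP (by decide +kernel)
theorem r6046 : PImp [l4084, l6044, l2707, l6025, o5824, l6045, l2561, l4600] l6046 := rupP (by decide +kernel)
theorem r6047 : PImp [l2707, l5714, l5788, l2713, o5511, o9132, o9147] l6047 := rupP (by decide +kernel)
theorem r6048 : PImp [o2463, o2449, l5655, l5842, o3915, l4747, l5058] l6048 := rupP (by decide +kernel)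
theorem r6049 : PImp [l2713, l2590, l5720, l2588] l6049 := rupP (by decide +kernel)
theorem r6050 : PImp [l5269, o2924, l6011, o5099, l6049, l2594, l5528] l6050 := rupP (by decide +kernel)
theorem r6051 : PImp [l1244, l4763, l3008, l4970, l430, l1412, l3030, l3029, l328, l3303, l6048, l3089, o2489, o2442, l6041, l5034, l4761, l4762, l4706, l4738, l4704, l4739, l4737, l6046, l2571, l4086, l6050, l6043, l6047] l6051 := rupP (by decide +kernel)
theorem r6052 : PImp [l1138, l1137, l480, l5244, l3509, l3512, l2835, l2836, l5989, l2682, l2668, l5239, l5238, l4133, l4132, l2808, o5444, l3119, l3118, l3117, l3219, l1412, l3929, l5949, o5166, l3517, l3933, l3394, l3397, o9019, o8773, o8934, l6046, l2571, l6050, l2707, l5788, l6047, l5711, o8785, l3462] l6052 := rupP (by decide +kernel)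
theorem r6053 : PImp [l3000, l5035, l3008, l4970, l3029, l3929, l4835, l3119, l3115, l3219, l3030, l430, l328, l490, l481, l480, o4726, o5446, o5445, l5989, l5991, l2990, l2992, l2682, l2808, l4133, l5244, l5238, l3509, l5239, l4427, l2668, l390, l3512, l4183, l3473, l6004, l422, l1210, l1209, o4399, o4547, o3936, o3941, l1137, l1138, l6042, l6051, l6035, l6052, o8608, l3394, l3525, l3517] l6053 := rupP (by decide +kernel)
theorem r6054 : PImp [l3008, l4970, l430, l1412, l6053, l5988, l5175, l2675] l6054 := rupP (by decide +kernel)
theorem r6055 : PImp [l4137, l3216, l3929, l2630, l5374, l5348, l5337, l5587, l5344, l2688, l2299, l475, l3486, l5268, l3384, o4470, o4461, o4481, o5381, l4895, o2733, o2740, l4908, l4902, l2338, l5997, l2676, l2807, l2808, l3529, o8432, o8400, l3394, l5373] l6055 := rupP (by decide +kernel)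
theorem r6056 : PImp [l5987, l2994, l3452, l3216, l6003, l5682, l4885, l3008, l4970, l3029, l430, l5269, o4865, l3410, l3408, l3000, l5035, l3929, l2995, l4872, l5796, l4835, l1412, l2747, l4087, l6055, l3411, l2996, l4860, o4322, l2998, l4851, l5865, l3453, l490, l5998, o3907, o3888, l6054] l6056 := rupP (by decide +kernel)
theorem r6057 : PImp [l5988, l5175, l2675] l6057 := rupP (by decide +kernel)
theorem r6058 : PImp [l3008, l4970, l430, l1412, l6057, l3030, l5989, l2682, l2681, o4726, l2992, l4427, l481, l480, l3000, l5035, l3029, l3929, l4835, l3115, l5991, l3509, l390, l3473, l4183, l5239, l3512, l2835, l2836, l2668, l5238, l4133, l4132, l2808, o5444, l3119, l3118, l3117, l328, l3933, l3394, l3397, l6023, o9019, l1779, o8773, o8934, l6046, l2571, l6050, l6047, l6006, o8785, l3462] l6058 := rupP (by decide +kernel)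
theorem r6059 : PImp [l5858, l4060, l5034, o2449, l5050, l4049, l5022] l6059 := rupP (by decide +kernel)
theorem r6060 : PImp [l3303, l4057, l3075, l4039] l6060 := rupP (by decide +kernel)
theorem r6061 : PImp [o6055, o6014] l6061 := rupP (by decide +kernel)
theorem r6062 : PImp [o9153, o9178] l6062 := rupP (by decide +kernel)
theorem r6063 : PImp [l2556, l6062, o5511, l5555, l4600] l6063 := rupP (by decide +kernel)
theorem r6064 : PImp [l3683, l3720, l996] l6064 := rupP (by decide +kernel)
theorem r6065 : PImp [l6064, l4338, l4673] l6065 := rupP (by decide +kernel)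
theorem r6066 : PImp [l1232, l4339, l3190] l6066 := rupP (by decide +kernel)
theorem r6067 : PImp [l3241, l6066, l3686, l3661, l4826] l6067 := rupP (by decide +kernel)
theorem r6068 : PImp [l3686, l3715, l3721, l4077, l4356, l4687, o6891, o2484, o1161, o2580, o6039, o5971] l6068 := rupP (by decide +kernel)
theorem r6069 : PImp [l4764, l4339, l4830, l4826, l4351] l6069 := rupP (by decide +kernel)
theorem r6070 : PImp [l4337, l3208] l6070 := rupP (by decide +kernel)
theorem r6071 : PImp [l6070, l3681, l3682] l6071 := rupP (by decide +kernel)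
theorem r6072 : PImp [l3671, l3672] l6072 := rupP (by decide +kernel)
theorem r6073 : PImp [l3240, l6072, l5057, l3676] l6073 := rupP (by decide +kernel)
theorem r6074 : PImp [l3240, l5057, l4334] l6074 := rupP (by decide +kernel)
theorem r6075 : PImp [l6073, l6074, l4827, l4332] l6075 := rupP (by decide +kernel)
theorem r6076 : PImp [l3206, l4333] l6076 := rupP (by decide +kernel)
theorem r6077 : PImp [l6076, l3207, l4335] l6077 := rupP (by decide +kernel)
theorem r6078 : PImp [l3717, l3722] l6078 := rupP (by decide +kernel)
theorem r6079 : PImp [l3199, l6071, l2882, l2872, l6069, l3686, l4226, o7019, o6996] l6079 := rupP (by decide +kernel)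
theorem r6080 : PImp [l342, l6065] l6080 := rupP (by decide +kernel)
theorem r6081 : PImp [l3686, l4339] l6081 := rupP (by decide +kernel)
theorem r6082 : PImp [l6071, l2882, l6081, l5057, l3653, l3210, l4349] l6082 := rupP (by decide +kernel)
theorem r6083 : PImp [o6211, l5867] l6083 := rupP (by decide +kernel)
theorem r6084 : PImp [o1578, o1569] l6084 := rupP (by decide +kernel)
theorem r6085 : PImp [l6071, l2882, l342, l436, l435, l437, o4054, l6079, l6069, o5048, l3721, l6067, l4368, l4078, l4687, l3097, o2482, o6990, o1162, o5970, o6038] l6085 := rupP (by decide +kernel)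
theorem r6086 : PImp [o5020, o5021, l6082] l6086 := rupP (by decide +kernel)
theorem r6087 : PImp [l5269, l1412, l435, l436, o4363, o4357, o5069, l6071, l342, l2882, l6086, l437, l6069, l6085, l3721, o3243, l4972] l6087 := rupP (by decide +kernel)
theorem r6088 : PImp [o6234, o6199] l6088 := rupP (by decide +kernel)
theorem r6089 : PImp [l4322, l4355, l3673, l3708, l2882] l6089 := rupP (by decide +kernel)
theorem r6090 : PImp [l5034, l1138, l3223, o1656, o1653, l3196, l6087, o5028, o5026, o4096, o4099, o5070, l6077, l6089, o0, l6088, l3061, l3062, l3072, o2651, l3708, l6078, o6072, l4345, o884, o8642] l6090 := rupP (by decide +kernel)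
theorem r6091 : PImp [l439, l6075] l6091 := rupP (by decide +kernel)
theorem r6092 : PImp [o6267, o6302] l6092 := rupP (by decide +kernel)
theorem r6093 : PImp [l3640, l4825] l6093 := rupP (by decide +kernel)
theorem r6094 : PImp [l442, o4097, l6092, l4323, l6093] l6094 := rupP (by decide +kernel)
theorem r6095 : PImp [l6093, l3655, l1233, l4635, l4634] l6095 := rupP (by decide +kernel)
theorem r6096 : PImp [o3888, l1138, l1137, o4726, l1412, l4087, l2707, l6025, o4571, o4139, o5824, l5555, l6045, l5741, l4601, o6382, o2569, l6059, l3303, l3100, l4074, l6083, l4525, l4230, l4031, l3998, l3320, o2424, l3088, l3276, l3291, l5743, l3972, o3868, o4159, l6005, o6047, l6090, l3240, l3242, l3280, l6091, l435, l6080, l3046, l6094, l6095, l3680, l4336] l6096 := rupP (by decide +kernel)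
theorem r6097 : PImp [o2924, l6044, l6038, o5099, l6039, o6585, l2539] l6097 := rupP (by decide +kernel)
theorem r6098 : PImp [o3888, l1138, l2992, l3008, l4970, l430, l1412, l4087, l3030, l3029, l4968, l5035, l328, l4084, l6097, l2707, l6025, o4571, o5824, l5555, l6045, l5741, o6382, l6059, l6060, l3089, l3090, o2489, o2530, l6096] l6098 := rupP (by decide +kernel)
theorem r6099 : PImp [l2707, l5714, o9056, o9024] l6099 := rupP (by decide +kernel)
theorem r6100 : PImp [o4571, o5824, l6099, l6014, l2576, o6391, o2924] l6100 := rupP (by decide +kernel)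
theorem r6101 : PImp [l5269, l2556, l6100, l5552, l5660] l6101 := rupP (by decide +kernel)
theorem r6102 : PImp [l3240, l3242, l3280, l6091, l435, l6080, l3046, l6094, l6095, l3680, l4336] l6102 := rupP (by decide +kernel)
theorem r6103 : PImp [l1138, l3060, l6071, l6076, o5028, o4096, l6089, l6088] l6103 := rupP (by decide +kernel)
theorem r6104 : PImp [o5028, l6077, l3708, l3709] l6104 := rupP (by decide +kernel)
theorem r6105 : PImp [l2882, l342, l5269, l1412, l435, l436, o4363, o4357, l6086, l6081, l437, o4360, o4356, o4058, l6079, l6069, o5726, o5048, l3721, l3715, l6067, l4972, l4687, o3243, l3035, l6068, l3947, o2800, l3661, l4684] l6105 := rupP (by decide +kernel)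
theorem r6106 : PImp [l3053, l319, l1412, l4087, l1138, o3888, l6059, l1137, l5665, o5099, l5269, o2450, o2569, l4074, l5034, l4525, l4086, l3998, l3282, l5743, o4093, o4228, o6014, o6091, l6102, o1653, l3205, l6103, l2882, l6105, l439, o5030, o5028, l6077, l6104, l3708, l3678, l5057, l3653, l4349] l6106 := rupP (by decide +kernel)
theorem r6107 : PImp [o3888, l1138, l1137, l3008, l4970, l430, l1412, l4087, l3030, l3029, l4968, l328, l6098, l2571, l6101, l5665, l2713, o5099, o5511, o5406, l6049, l2596, o6732, l2707, o9147, o8926, l6059, l6060, l3090, l6106] l6107 := rupP (by decide +kernel)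
theorem r6108 : PImp [l2882, l439, o5030, o5028, l6077, l6104, l3708, l3678, l5057, l3653, l4349] l6108 := rupP (by decide +kernel)
theorem r6109 : PImp [l1138, l5269, l1412, l342, l2882, l2877, l6108, l435, l436, o4363, l6086, l6081, l437, o5063, l6079, l6069, l4151, l4077, o5726, l3721, l4972, o3243, o6891, o1193, o6999, o6959] l6109 := rupP (by decide +kernel)
theorem r6110 : PImp [l1138, l5269, l3205, l6109, l6071, l6076, l3692, l3673] l6110 := rupP (by decide +kernel)
theorem r6111 : PImp [l3242, l3240, l3046, l6094, l6095, l3680, l4341] l6111 := rupP (by decide +kernel)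
theorem r6112 : PImp [l3240, l3280, l6091, l435, l6111, l342, l6064, l4764, l4338, l5057, l4672] l6112 := rupP (by decide +kernel)
theorem r6113 : PImp [l1137, l2571, l6101, l5665, l2713, o5099, o5511, o5406, l6049, l2596, o6732, l2707, l6110, o9147] l6113 := rupP (by decide +kernel)
theorem r6114 : PImp [l2713, l20, o9122, o5826, l2615, l4610] l6114 := rupP (by decide +kernel)
theorem r6115 : PImp [l1138, l5269, l1412, l342, l2882, l2877, l6108, l6081, l435, l436, o4363, o4357, o5059, l6086, l4151, l437, o4356, o5063, l6079, l6069, o5048, l3721, l3715, l6067, l4972, l4687, l3035, l3947, l3661, l3185, o6959, l4078, l3097, o5092, o1193, o6990, o3243] l6115 := rupP (by decide +kernel)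
theorem r6116 : PImp [l319, l1138, l1137, l5269, l1412, l6059, l6060, l4074, l4525, l3998, l6112, l6113, l4084, l6097, l2707, l6114, l2556, l6062, o9011, o5511, l2561, l5741, l6115, l6071, l6076, l3692, l3673] l6116 := rupP (by decide +kernel)
theorem r6117 : PImp [l1412, l4084, l6097, l2707, l6114, l2556, l6062, o5511, o5013, l2561, l5741, o6382] l6117 := rupP (by decide +kernel)
theorem r6118 : PImp [l6117, l2571, l6101, l5665, l2713, o5511, l6049, l2707, o9147, o8926] l6118 := rupP (by decide +kernel)
theorem r6119 : PImp [l2995, l2994, l5682, l5035, l4872, l2747, o3888, o4322, o3907, l1138, l1137, l1244, l3008, l4970, l430, l1412, l4087, l3000, l3029, l5796, l4835, o4865, l3030, l4968, l328, l6107, l6118, l6059, l6116, l6060, l3090] l6119 := rupP (by decide +kernel)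
theorem r6120 : PImp [l2571, l6101, l5665, l2713, o5511, l6049, l2707, o9147, o9132] l6120 := rupP (by decide +kernel)
theorem r6121 : PImp [l1138, l1137, l3000, l2994, l5682, l5035, l3008, l4970, l3029, l2995, l4872, l5796, l4835, l430, l1412, l3030, l328, l6119, l6120, l4084, l6097, l2707, l6024, o5511, l6062, l6025, l2556, l6114] l6121 := rupP (by decide +kernel)
theorem r6122 : PImp [l1412, l5035, l4084, l6097, l2707, l6063, l2713, l6114, l20, l6025, o5826] l6122 := rupP (by decide +kernel)
theorem r6123 : PImp [l5665, l2713, o5511, l6049, l2707, o9147, o9132] l6123 := rupP (by decide +kernel)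
theorem r6124 : PImp [l5552, l5660] l6124 := rupP (by decide +kernel)
theorem r6125 : PImp [l5269, l2556, l6124, o4571, o5824, l6099, o2924, l6050, l2576, o6391] l6125 := rupP (by decide +kernel)
theorem r6126 : PImp [l3008, l4970, o4399, l1138, l1137, l2995, l2994, l5682, l5035, l4872, o4532, l1209, l1210, l424, l422, l2992, l430, l1412, l2747, l4087, l3000, l3029, l5796, l4835, o4322, l3030, l328, o3907, o3888, o3936, o3941, o3975, l6121, l6122, l2571, l6125, l5665, l2713, l6123, o5099, o5511, o5406, l6049, l2596, l2707, o6732, o9147, o8926, l6059, l6060, l4074, o2489, o2530, o2569, l4230, l3998, l4086, l3291, l3282, l6061, o5721, o6309, o6275] l6126 := rupP (by decide +kernel)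
theorem r6127 : PImp [l3303, l5655, l5676, o2449, l4042, l4055] l6127 := rupP (by decide +kernel)
theorem r6128 : PImp [l3308, l3089, o2450, l3989, l5055] l6128 := rupP (by decide +kernel)
theorem r6129 : PImp [l3308, l3008, l4970, l3030, l3029, l430, l328, l6122, l2571, l6125, l5665, l2713, o5511, l6049, l2707, o9147, o8926, l6128, l3075, o2449, l5676, l5050, l4026, l5759] l6129 := rupP (by decide +kernel)
theorem r6130 : PImp [l728, l4542] l6130 := rupP (by decide +kernel)
theorem r6131 : PImp [l3075, o2463, o2449, l5676, l6130, l5026, l5050, l4018] l6131 := rupP (by decide +kernel)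
theorem r6132 : PImp [l5987, l3000, l2998, l2996, l2995, l2994, l3008, l3453, l3452, l490, l3216, l3929, l6003, l5682, l5865, l5035, l4885, l4970, l4872, l4851, l430, l3029, l3030, o4865, o4322, l5796, l2747, l1412, l5269, l4860, l3410, l3408, l3411, l4835, l4087, l6055, l3219, l3223, l3115, l6056, l6057, l481, l480, o4726, o5446, o5445, l5989, l5991, l2988, l2990, l2992, l2682, l2808, l2681, l5238, l3509, l4427, l2668, l6004, l390, l3512, l5239, l422, l1210, l1209, o4399, o4532, o4547, l3473, l1244, l1137, l1138, l6058, l4446, l3525, l3532, l3522, l3517, o4692, l6126, o4065, o4070, o3897, l2779, o3909, l6127, l3308, l6129, l6131, o2489, l4056, l3070, l3082] l6132 := rupP (by decide +kernel)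
theorem r6133 : PImp [l480, l481, l3219, l3935, l5038, l5603, l4224, l4241, l4245, l4239, l4248] l6133 := rupP (by decide +kernel)
theorem r6134 : PImp [l3929, o4318, o4321, l5682, l5035, l4885, l4872] l6134 := rupP (by decide +kernel)
theorem r6135 : PImp [o4517, l4970, l5682, l4885] l6135 := rupP (by decide +kernel)
theorem r6136 : PImp [o8485, o6145] l6136 := rupP (by decide +kernel)
theorem r6137 : PImp [l3050, o2541, o2537, l5655, o3970, o3915, l5058, l4727, l4526, l3971, l4020] l6137 := rupP (by decide +kernel)
theorem r6138 : PImp [o2467, l5058, l4727, l4048, l4020] l6138 := rupP (by decide +kernel)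
theorem r6139 : PImp [l5665, l2713, o5511, l5653, o9132, l2615] l6139 := rupP (by decide +kernel)
theorem r6140 : PImp [o4571, l2578, o6374] l6140 := rupP (by decide +kernel)
theorem r6141 : PImp [l6140, l2594, l2581] l6141 := rupP (by decide +kernel)
theorem r6142 : PImp [l5665, l6049, l2707, l6139] l6142 := rupP (by decide +kernel)
theorem r6143 : PImp [l2707, l5714, l5552, o5824, o9032, o8999] l6143 := rupP (by decide +kernel)
theorem r6144 : PImp [l5274, l2571, l6142, l2556, l6143, o2924, l6141] l6144 := rupP (by decide +kernel)
theorem r6145 : PImp [o2924, l6039, l6038] l6145 := rupP (by decide +kernel)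
theorem r6146 : PImp [l6145, l2707, l6063] l6146 := rupP (by decide +kernel)
theorem r6147 : PImp [l2707, l6025, l20, o5824] l6147 := rupP (by decide +kernel)
theorem r6148 : PImp [l5269, l2571, l6144, l6142, l6050, l2556, l6143] l6148 := rupP (by decide +kernel)
theorem r6149 : PImp [l2707, l2708, l6147, l20, o5826, o5836, l5683, l2712, o8805, o8866] l6149 := rupP (by decide +kernel)
theorem r6150 : PImp [l5035, l5274, l1412, l4084, l4082, l6146, l2713, l6149, o2924, l6044, l5525, o5099, l4608, o6561] l6150 := rupP (by decide +kernel)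
theorem r6151 : PImp [l3223, l3219, l3216, l3452, l5987, l3008, l2994, l6135, l430, l5269, l1412, l3030, l3029, l6132, l3935, l3000, l2995, l328, l3453, l490, l3929, l481, l480, o5446, o5445, l6133, o4726, l5039, l5250, l5234, l5731, l6134, l2988, l2992, l5242, l4612, l4613, l2933, l3809, l2842, l2843, l5274, l4633, l2955, l4224, l1145, l1149, o5159, o5372, o4791, l1210, l1137, l1138, l5682, l5035, l4885, l3410, l5684, l3408, l5796, o4797, o4532, o4520, l4835, l6150, l2571, l6148, l6123, l2556, l6143, o2924, l6050, l6141] l6151 := rupP (by decide +kernel)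
theorem r6152 : PImp [l3216, l3452, l5987, l3008, l2994, l6135, l430, l1412, l6132, l6151, l5433, l5174] l6152 := rupP (by decide +kernel)
theorem r6153 : PImp [l5308, l5383, l2642] l6153 := rupP (by decide +kernel)
theorem r6154 : PImp [l2594, l2581] l6154 := rupP (by decide +kernel)
theorem r6155 : PImp [l4998, l3070, o6297] l6155 := rupP (by decide +kernel)
theorem r6156 : PImp [o3911, o3893, o3915, l5059, l4049, l5022] l6156 := rupP (by decide +kernel)
theorem r6157 : PImp [l1412, l4087, l5269, o2467, l6156, o3913, o4093, o4086, l6130, l4526, l4045, l4008, l4984, l5012, l4694] l6157 := rupP (by decide +kernel)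
theorem r6158 : PImp [l3308, o4071, l5052, l5043, l5002] l6158 := rupP (by decide +kernel)
theorem r6159 : PImp [o6074, l5679] l6159 := rupP (by decide +kernel)
theorem r6160 : PImp [o5874, l512] l6160 := rupP (by decide +kernel)
theorem r6161 : PImp [o2467, l5655, o3915, l5658] l6161 := rupP (by decide +kernel)
theorem r6162 : PImp [l6160, o5882, o5862] l6162 := rupP (by decide +kernel)
theorem r6163 : PImp [l3303, l4039, l4057, l4029] l6163 := rupP (by decide +kernel)
theorem r6164 : PImp [l3303, l4760, l4737] l6164 := rupP (by decide +kernel)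
theorem r6165 : PImp [l4763, l3303, l4732, l1357, l4755, l3008, l3075, l5265, l4756, l4754, o2500, l3076, l5272, l4741, l5673, o3953, l4704] l6165 := rupP (by decide +kernel)
theorem r6166 : PImp [l3303, l4763, l6165, l5034, l4738, l4761, l4728, l3075, l3076] l6166 := rupP (by decide +kernel)
theorem r6167 : PImp [l5037, l5113, l5945, l5587, l5308, l2641] l6167 := rupP (by decide +kernel)
theorem r6168 : PImp [l5113, l5923, l5587, l5324, l5951, l2641] l6168 := rupP (by decide +kernel)
theorem r6169 : PImp [l4397, l4396] l6169 := rupP (by decide +kernel)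
theorem r6170 : PImp [l3219, l5038, l390, l3487, l4800, l482] l6170 := rupP (by decide +kernel)
theorem r6171 : PImp [l2707, l5766] l6171 := rupP (by decide +kernel)
theorem r6172 : PImp [l5714, l2578, l2576] l6172 := rupP (by decide +kernel)
theorem r6173 : PImp [l5788, l5704] l6173 := rupP (by decide +kernel)
theorem r6174 : PImp [l2616, l4597] l6174 := rupP (by decide +kernel)
theorem r6175 : PImp [l2544, l5663, l2713, l2619, o8892, l2604] l6175 := rupP (by decide +kernel)
theorem r6176 : PImp [l4606, l4600] l6176 := rupP (by decide +kernel)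
theorem r6177 : PImp [l2544, l5766, l2556, o9033, l4608, l2615] l6177 := rupP (by decide +kernel)
theorem r6178 : PImp [l3117, l3118, o8655, o8350, l642] l6178 := rupP (by decide +kernel)
theorem r6179 : PImp [o8866, o8805] l6179 := rupP (by decide +kernel)
theorem r6180 : PImp [l5714, l2596, l5653] l6180 := rupP (by decide +kernel)
theorem r6181 : PImp [l2594, l2604, l2713, o9066] l6181 := rupP (by decide +kernel)
theorem r6182 : PImp [l3320, l4603, l3282, o6628, o6150, o6164] l6182 := rupP (by decide +kernel)
theorem r6183 : PImp [o4037, l6182, l4597, o6599] l6183 := rupP (by decide +kernel)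
theorem r6184 : PImp [l3510, l478, l5438] l6184 := rupP (by decide +kernel)
theorem r6185 : PImp [l6167, l6168] l6185 := rupP (by decide +kernel)
theorem r6186 : PImp [l1360, l2791, l6173, l5705, l4606] l6186 := rupP (by decide +kernel)
theorem r6187 : PImp [l5113, l6186, l2619, l3320, o6342, o2691, o6628, o6150, o6164] l6187 := rupP (by decide +kernel)
theorem r6188 : PImp [o2691, o6650, o6150, l3320] l6188 := rupP (by decide +kernel)
theorem r6189 : PImp [l3282, l2588, l3320, l6181, o3831, o6150, o5895] l6189 := rupP (by decide +kernel)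
theorem r6190 : PImp [l6077, l3673, l3674] l6190 := rupP (by decide +kernel)
theorem r6191 : PImp [l5668, l1698, o8735, o7941] l6191 := rupP (by decide +kernel)
theorem r6192 : PImp [o8796, l1674] l6192 := rupP (by decide +kernel)
theorem r6193 : PImp [o2257, l6192, o5627, o8145, o8109, o1454] l6193 := rupP (by decide +kernel)
theorem r6194 : PImp [l5708, l5510] l6194 := rupP (by decide +kernel)
theorem r6195 : PImp [l6191, l1279, o7959, o8284] l6195 := rupP (by decide +kernel)
theorem r6196 : PImp [l1138, l1242, o1452, l1674, o8126, o5627] l6196 := rupP (by decide +kernel)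
theorem r6197 : PImp [o690, l6196, o8084, o7746] l6197 := rupP (by decide +kernel)
theorem r6198 : PImp [o8084, o7746] l6198 := rupP (by decide +kernel)
theorem r6199 : PImp [o7885, o8217] l6199 := rupP (by decide +kernel)
theorem r6200 : PImp [l5923, l5945] l6200 := rupP (by decide +kernel)
theorem r6201 : PImp [l5113, l5587, l5989, l6200] l6201 := rupP (by decide +kernel)
theorem r6202 : PImp [l3133, l3134] l6202 := rupP (by decide +kernel)
theorem r6203 : PImp [l4384, l4379] l6203 := rupP (by decide +kernel)
theorem r6204 : PImp [l328, l5113, l5110, l5131, l4837, o3135, l3358, l3354] l6204 := rupP (by decide +kernel)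
theorem r6205 : PImp [l328, l5113, l5278, l5275, l3158, l3161, l6197, l732, o7808] l6205 := rupP (by decide +kernel)
theorem r6206 : PImp [l4454, l4453] l6206 := rupP (by decide +kernel)
theorem r6207 : PImp [l5278, l1138, l1242, l328, l5276, l657, o7985, o7967] l6207 := rupP (by decide +kernel)
theorem r6208 : PImp [o6342, o6436] l6208 := rupP (by decide +kernel)
theorem r6209 : PImp [o8662, o8742] l6209 := rupP (by decide +kernel)
theorem r6210 : PImp [l328, l4655, o4576, l5278, l5519, l2619, o6333, o6650] l6210 := rupP (by decide +kernel)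
theorem r6211 : PImp [o4576, l427, o6584, l2576, l6140] l6211 := rupP (by decide +kernel)
theorem r6212 : PImp [l3219, l6200, l5928, l3488, l476, l485, l482, l5438, l4800] l6212 := rupP (by decide +kernel)
theorem r6213 : PImp [l3591, l4920, l5040] l6213 := rupP (by decide +kernel)
theorem r6214 : PImp [l5278, l1138, o5142, o5141, l3932, l3931, l5039, l328, l5113, l5112, l1316, l5277, l2475, l4259, l4581, l4300, l2962, l5893, o4265] l6214 := rupP (by decide +kernel)
theorem r6215 : PImp [o706, o7962, o7922, l2297] l6215 := rupP (by decide +kernel)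
theorem r6216 : PImp [l4655, l2791, o6478, o4576, o6749, l2617] l6216 := rupP (by decide +kernel)
theorem r6217 : PImp [l1360, l3219, l6200, l5732, l5928, l3488, l390, l2845, l476, l485, l482, l6212, l5438, l3501, l3519] l6217 := rupP (by decide +kernel)
theorem r6218 : PImp [l5377, l5374, l5308, l5623, o3464] l6218 := rupP (by decide +kernel)
theorem r6219 : PImp [l476, l6218, l3219, l5038, l5037, o3464, l2833, l2674, l3501, l3527, l3509, l6170] l6219 := rupP (by decide +kernel)
theorem r6220 : PImp [l4655, l6218, l6200, l5932, o4498, l6219, l2932, l5467, l4426] l6220 := rupP (by decide +kernel)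
theorem r6221 : PImp [l3484, l3473] l6221 := rupP (by decide +kernel)
theorem r6222 : PImp [l4655, l430, l5113, l2618, o4573, l5797, o6599] l6222 := rupP (by decide +kernel)
theorem r6223 : PImp [l6222, l2791, o6599, o6749, l2561, l2617] l6223 := rupP (by decide +kernel)
theorem r6224 : PImp [l1360, l3219, l6200, l5928, l6221, l476, l390, l2845, l3488, l6212, l485, l482, l5438, l3501, l3519] l6224 := rupP (by decide +kernel)
theorem r6225 : PImp [l4916, l4449] l6225 := rupP (by decide +kernel)
theorem r6226 : PImp [o8601, l616] l6226 := rupP (by decide +kernel)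
theorem r6227 : PImp [l4260, o699, l3874, o7922, o3038] l6227 := rupP (by decide +kernel)
theorem r6228 : PImp [o3038, l3868, o7922, o7945] l6228 := rupP (by decide +kernel)
theorem r6229 : PImp [l465, l3235, l2489, l3591] l6229 := rupP (by decide +kernel)
theorem r6230 : PImp [l3235, l3234, l4655, l432, l1254, l1138, l1242, l5112, l3591, l5040, l3592, l5172] l6230 := rupP (by decide +kernel)
theorem r6231 : PImp [l4655, o4448, l3235, l5276, l5112, l6230, l2960, l4295, l6225, l4629] l6231 := rupP (by decide +kernel)
theorem r6232 : PImp [l6201, l6224, l5896, l5383, l5951] l6232 := rupP (by decide +kernel)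
theorem r6233 : PImp [l4656, l2936, l6201, l6232, o4487, l5308, l3219, l6200, l5467, l4430] l6233 := rupP (by decide +kernel)
theorem r6234 : PImp [l3756, l3760] l6234 := rupP (by decide +kernel)
theorem r6235 : PImp [l3929, l5035, l2923, l2918, l4883, l4869] l6235 := rupP (by decide +kernel)
theorem r6236 : PImp [l4869, l4874] l6236 := rupP (by decide +kernel)
theorem r6237 : PImp [l5724, l3797, l4639] l6237 := rupP (by decide +kernel)
theorem r6238 : PImp [l3927, o4308, l3797, o6644, o2765] l6238 := rupP (by decide +kernel)
theorem r6239 : PImp [l3927, l4655, l432, l1254, l1138, l1242, l428, l1218, l6238, o4544, l3792, l2925, l3794, l4191] l6239 := rupP (by decide +kernel)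
theorem r6240 : PImp [l3927, l4655, l432, l1254, l1138, l1242, o4544, l3792, l2926, l3794, l4191] l6240 := rupP (by decide +kernel)
theorem r6241 : PImp [l4655, l433, l5113, l5587, o4487, o4498, l2629, l432, l1254, l5112, l1099, l6240, l3927, o4308, o6644, o6795, l6238, l3797, l5262, l2930, o3185, o3073, l3827, l6167, l5623, l3822, l1245, l3146, o4322, l4796, l5165, l3340, l4428, o8543, o5362, l3432, l3436] l6241 := rupP (by decide +kernel)
theorem r6242 : PImp [l4655, l5113, l5587, o4498, l2629, l3927, l5112, l1099, l6240, o4308, l432, l1254, o6644, o8875, o6795, l6238, l428, l1218, l3797, l5262, o3207, l2930, l6241, o3085, o3793, o2993, l2932, l2931, l5623, l5581, l5952, l3813, o5339, l4132, l4167, l6185, l1245, o4322, l5165, l3340, l3341, o8701, o5477, o5739, l4791, o8397, l2631] l6242 := rupP (by decide +kernel)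
theorem r6243 : PImp [l5896, l5374] l6243 := rupP (by decide +kernel)
theorem r6244 : PImp [l6242, l6243] l6244 := rupP (by decide +kernel)
theorem r6245 : PImp [l6200, l3223, l4655, l430, l5037, l5932, l2670, o4463, l2674, l4440, l4441] l6245 := rupP (by decide +kernel)
theorem r6246 : PImp [l3119, l6178, o8658] l6246 := rupP (by decide +kernel)
theorem r6247 : PImp [l2670, l5175] l6247 := rupP (by decide +kernel)
theorem r6248 : PImp [l6200, l4655, l432, l1254, l1138, l5112, l5989, o5159, l5932, l5949, l5925] l6248 := rupP (by decide +kernel)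
theorem r6249 : PImp [l4655, l432, l6248, o4479, l427, o4452, l473, l476, l6200, l3223, l3219, l1254, l2846, l2943, l2958, l5467, l5175, o8489, l3530, l2525, l3836, l2844, l4664] l6249 := rupP (by decide +kernel)
theorem r6250 : PImp [l2844, l4664] l6250 := rupP (by decide +kernel)
theorem r6251 : PImp [o5365, l3424, o8464, o8546] l6251 := rupP (by decide +kernel)
theorem r6252 : PImp [l4655, l432, l5113, l6251, l5131, o4555] l6252 := rupP (by decide +kernel)
theorem r6253 : PImp [o8463, l626] l6253 := rupP (by decide +kernel)
theorem r6254 : PImp [l2744, l5601] l6254 := rupP (by decide +kernel)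
theorem r6255 : PImp [l6254, l4883, l4885, o3171, l4908, l4441] l6255 := rupP (by decide +kernel)
theorem r6256 : PImp [l6252, l6251, l3432] l6256 := rupP (by decide +kernel)
theorem r6257 : PImp [l5594, l2744] l6257 := rupP (by decide +kernel)
theorem r6258 : PImp [o8464, o8546] l6258 := rupP (by decide +kernel)
theorem r6259 : PImp [l6124, l5661, l2596] l6259 := rupP (by decide +kernel)
theorem r6260 : PImp [l4655, l432, l1254, l5113, o9178, l6171] l6260 := rupP (by decide +kernel)
theorem r6261 : PImp [l2588, l2596] l6261 := rupP (by decide +kernel)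
theorem r6262 : PImp [l3935, l476, l5037, l5324, l4254, l4252] l6262 := rupP (by decide +kernel)
theorem r6263 : PImp [l3850, l3851] l6263 := rupP (by decide +kernel)
theorem r6264 : PImp [l3934, l473, l6262, l2641, l4591, l6263, l3824, l3218] l6264 := rupP (by decide +kernel)
theorem r6265 : PImp [l2639, l5308, l5383] l6265 := rupP (by decide +kernel)
theorem r6266 : PImp [l6264, l6265] l6266 := rupP (by decide +kernel)
theorem r6267 : PImp [l4655, l432, l1254, l430, l5113, l5587, l6243, o4463, o4498, l6266] l6267 := rupP (by decide +kernel)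
theorem r6268 : PImp [l5467, l5175, l2568, o8853, o8509] l6268 := rupP (by decide +kernel)
theorem r6269 : PImp [l476, l3219, l6268, l2673, l2675, l3528, l4252] l6269 := rupP (by decide +kernel)
theorem r6270 : PImp [l476, l3219, l2675, l3528, l4252] l6270 := rupP (by decide +kernel)
theorem r6271 : PImp [o5407, l2614, l2555, l6269, l5552, l2581, l2592, l5467, l6270, l2674, l2568, o8355, o8728] l6271 := rupP (by decide +kernel)
theorem r6272 : PImp [l5718, l2571, o9033, o5511, l5789, l3472] l6272 := rupP (by decide +kernel)
theorem r6273 : PImp [l2308, o5764] l6273 := rupP (by decide +kernel)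
theorem r6274 : PImp [l4655, l432, l1254, l1138, l1242, l3916, l3920, o847, l5102, l3236, l3239, l5096, l451, o5121, l5101, l2416] l6274 := rupP (by decide +kernel)
theorem r6275 : PImp [l4990, l4510] l6275 := rupP (by decide +kernel)
theorem r6276 : PImp [l5154, l5155] l6276 := rupP (by decide +kernel)
theorem r6277 : PImp [l4655, l432, l1254, l1138, l1242, l3916, l3920, o847, l6274, l5102, l5082, l3236, l450, l6276] l6277 := rupP (by decide +kernel)
theorem r6278 : PImp [l4655, l432, l1254, l1138, l1242, l3926, l5102, l3239, l3236, l5096, l451, o5121, l5101, l2416] l6278 := rupP (by decide +kernel)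
theorem r6279 : PImp [l4655, l432, l1254, l5112, l1316, l5192, l5978, l6164, l4761] l6279 := rupP (by decide +kernel)
theorem r6280 : PImp [o2461, o2455, l6164, l504, o3891, o3906] l6280 := rupP (by decide +kernel)
theorem r6281 : PImp [l4655, l430, o3977, o3967, l428, o3963, o3981, l3303, l4007, l4763, l5113, l5112, l1316, l6279, l6280, l1140, o3919, o3906, l5804, l5969] l6281 := rupP (by decide +kernel)
theorem r6282 : PImp [l5081, l5151] l6282 := rupP (by decide +kernel)
theorem r6283 : PImp [l5102, l3236, l6282] l6283 := rupP (by decide +kernel)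
theorem r6284 : PImp [l5974, l4754, o2492] l6284 := rupP (by decide +kernel)
theorem r6285 : PImp [l4763, l4655, l432, l1254, l430, l427, l5113, l1357, o3975, o3958, o3977, l6275, l5840, l4710, l316, l6284, l4758, l4757] l6285 := rupP (by decide +kernel)
theorem r6286 : PImp [l3085, o2461, l3074, l1140, o3919, l4727, l4020] l6286 := rupP (by decide +kernel)
theorem r6287 : PImp [l4655, l427, o3958, l432, l1254, l1138, l1242, l5112, l5826, l5861, l4070, o3906, o3891] l6287 := rupP (by decide +kernel)
theorem r6288 : PImp [l5863, l4070] l6288 := rupP (by decide +kernel)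
theorem r6289 : PImp [l4655, l427, o3958, l1360, l6287, l5827, l6288, o3906, o3891] l6289 := rupP (by decide +kernel)
theorem r6290 : PImp [l3305, l4038] l6290 := rupP (by decide +kernel)
theorem r6291 : PImp [l4655, l432, l1254, l5112, l1316, l3303, l4738, l5192, l5978, l4760, l4761] l6291 := rupP (by decide +kernel)
theorem r6292 : PImp [l4655, l427, o3958, l1360, l4044, l6289, l5862, l3308, l5256, l5847, l5861, o3906, l3311] l6292 := rupP (by decide +kernel)
theorem r6293 : PImp [l4027, l4028] l6293 := rupP (by decide +kernel)
theorem r6294 : PImp [o6801, o6571] l6294 := rupP (by decide +kernel)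
theorem r6295 : PImp [l3336, l4655, l432, o4479, l433, o4487, l476, l1254, l5112, l5035, o3853, o3111, l3836, l4130, l6253, o5364, o4825, o5354, o8774, l3430, l5725, l6132, l5719] l6295 := rupP (by decide +kernel)
theorem r6296 : PImp [l1138, l1242, l4086, l3997, l4029, l3282, l3303, l5735, l5859, o4229] l6296 := rupP (by decide +kernel)
theorem r6297 : PImp [l4655, l428, o3963, l427, o3958, l432, l1254, l1360, o876, l6296, l5847, l3308, l3990, l6288, l728, o3906, l1140, o3897, o2465, l4744] l6297 := rupP (by decide +kernel)
theorem r6298 : PImp [l4763, l4655, l430, o3967, l427, o3958, l5113, l5034, l5003, l4994, l6281] l6298 := rupP (by decide +kernel)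
theorem r6299 : PImp [l3059, l3045, l4655, l432, l1254, l6294, o6650, l430, l5113, l5112, l1316, o3967, o3977, l6297, l4763, l4007, l6298, l5974, l6285, l5978, o3906, o3863, l4985, l4994, l1140, l2778, o3882, o2475, o2480, l4532, l4716] l6299 := rupP (by decide +kernel)
theorem r6300 : PImp [l4655, l432, l1254, l428, l427, l1316, l5034, l4086, l5736, l3282, l3261, l3990, o3943, o3945, o3950, o3966, o5964, l4053, l5844, l5828] l6300 := rupP (by decide +kernel)
theorem r6301 : PImp [l3303, l4038, l1089, l5066, o2461] l6301 := rupP (by decide +kernel)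
theorem r6302 : PImp [l3059, l4655, l427, l5112, l6300, l6301, l3308, l5943, l5847, o3938] l6302 := rupP (by decide +kernel)
theorem r6303 : PImp [l5977, l3303, l5015, l5968, l5027, l5032] l6303 := rupP (by decide +kernel)
theorem r6304 : PImp [l5277, l5275, o2595, l6299, l6302, l6303, l4734, l5974, l3303, l3304, l4533, l4547, l5266, o6336, o6015] l6304 := rupP (by decide +kernel)
theorem r6305 : PImp [l4655, l432, o3975, o3981, l1254, l1138, l1242, l5113, l5112, l5035, l3075, o2460, l3043, o2691, l3077, l3977, l3967, l3282, o5928, o4225, l4720, l4838, o2790, o2796, l4848, l4883, l5719] l6305 := rupP (by decide +kernel)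
theorem r6306 : PImp [l4525, l5035, l4834, l5112, l1316, l3303, l4031, l6305, l4059, o3906, l2779, o3897, l2794, l5844] l6306 := rupP (by decide +kernel)
theorem r6307 : PImp [l4655, l432, l1254, l1138, l1242, l4086, l6306, l3261, l5859, l5735, o4229] l6307 := rupP (by decide +kernel)
theorem r6308 : PImp [l4655, l427, o3958, l432, l1254, l6294, o6650, l1360, o876, l6307, l4044, l5847, l5862, l3308, l5256, l6288, o3906] l6308 := rupP (by decide +kernel)
theorem r6309 : PImp [l4763, l4655, l430, o3967, l5113, l5034, l6291, l5968, l4994, l5032, l3057] l6309 := rupP (by decide +kernel)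
theorem r6310 : PImp [l1357, l5035, l6308, l6309, l4732, l4536] l6310 := rupP (by decide +kernel)
theorem r6311 : PImp [l5112, l1360, l6293, l4042, l3079] l6311 := rupP (by decide +kernel)
theorem r6312 : PImp [l5277, l5275, l5035, l6304, l6310, l6311, l5803, l5016, l4534] l6312 := rupP (by decide +kernel)
theorem r6313 : PImp [l4655, l432, l1254, l427, l4086, l5736, l3282, l3261, l3997, o3938, l4055, l4053] l6313 := rupP (by decide +kernel)
theorem r6314 : PImp [l4655, l427, l5112, l6313, l6301, l3308, l5943, l5847, o3938] l6314 := rupP (by decide +kernel)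
theorem r6315 : PImp [l5277, l5275, l4655, l430, o2595, l6299, l6314, l6303, l4734, l5974, l3303, l3304, l4533, l4522, l4547, o3935, l3085, l5823] l6315 := rupP (by decide +kernel)
theorem r6316 : PImp [l4655, l432, l1254, l427, l4086, l6313, l5736, l3068, l3282, l3261, l4055, o3938, l4059, l3998] l6316 := rupP (by decide +kernel)
theorem r6317 : PImp [l5112, l1360, l6316, l4042, l3079] l6317 := rupP (by decide +kernel)
theorem r6318 : PImp [l6294, o2924, l5277, l5275, l3028, o3838, l2544, l4655, l432, l6267, l6248, o4479, l433, o4487, l476, l3115, l6200, l3219, l5035, l6270, l2674, l2673, l3527, l3336, l6295, l2542, o3749, l6184, l3501, l4130, l485, l3509, l3497, l6253, l3487, o4825, o4807, l3476, l6312, l6315, l6310, l6317, l5803, l5016, l4534] l6318 := rupP (by decide +kernel)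
theorem r6319 : PImp [l2615, l5112, l1357, l6267, l3219, l6200, l6248, l3115, l476, l6271, l2596, l2713, l6261, l2585, l6272, l2544, l6294, o2924, l5277, l6318, l5467, l5175, l2543, l3530, l6295] l6319 := rupP (by decide +kernel)
theorem r6320 : PImp [l6243, l6271, l6248] l6320 := rupP (by decide +kernel)
theorem r6321 : PImp [l4039, l3303, l3304, l5801, l706, l5861, l3311, l3309, l5749, l2779, o5929, o3894] l6321 := rupP (by decide +kernel)
theorem r6322 : PImp [l2592, l5113, l6320, l6200, l5587, o5407, l4655, o4498, l430, o4463, l473, l2629, l3340, l3934, l2556, l2615, l432, l1254, l5035, l5528, o6374, l6185, l6233, l6262, l4591, l6263, l4428, l5623, l3824, l3822, l3146, o3556, l4796, o8543, o5352, o4823, o5810, l4872, o3834, o9090, l2571, l4195, l3469] l6322 := rupP (by decide +kernel)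
theorem r6323 : PImp [o3854, o3853, o8834, o8774, o8773] l6323 := rupP (by decide +kernel)
theorem r6324 : PImp [o2924, l5277, l4655, l432, l5113, l6200, l5587, o4479, l433, o4487, o4498, l430, o4463, l473, l476, l3341, l3338, l3935, l3934, l1254, l5112, l5035, l6262, l2641, l4802, l4591, l3113, l6263, l5038, l4135, l4100, l5623, l3824, l3822, l5637, l6253, l3146, o3749, l2731, o4825, o4807, o5354, l2308, l4796, l6323, o3241, o9090, o3238, l4848, l2571, l4883, l4789] l6324 := rupP (by decide +kernel)
theorem r6325 : PImp [l5113, l6200, l5587, l5308, l5383, l5951] l6325 := rupP (by decide +kernel)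
theorem r6326 : PImp [l5552, l2707, o9167, l6062] l6326 := rupP (by decide +kernel)
theorem r6327 : PImp [l6319, l2615, l4655, l432, l1254, l430, l5113, l2556, l6320, l3934, l6200, l3340, l5587, l2629, l473, o4463, o4498, o5407, l6325, l6262, l2641, l4591, l6263, l4428, l5623, l3824, l3822, l3146, o3556, l4796, o8543, o5810, l6326, l2592, l6322, l6324] l6327 := rupP (by decide +kernel)
theorem r6328 : PImp [l6243, l2542, o3749, l6212, l5038, l3501, l3509] l6328 := rupP (by decide +kernel)
theorem r6329 : PImp [l6243, l3115, l6248, l3219, o2924, l5277, l2544, l6295] l6329 := rupP (by decide +kernel)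
theorem r6330 : PImp [l5718, l5866] l6330 := rupP (by decide +kernel)
theorem r6331 : PImp [l6243, l6248, l476, l3219, l6270, l2674, l3527, l6328, l6329] l6331 := rupP (by decide +kernel)
theorem r6332 : PImp [l5467, l5175, l2543, l2568, o8630, o8509] l6332 := rupP (by decide +kernel)
theorem r6333 : PImp [l5112, l6330, l6331] l6333 := rupP (by decide +kernel)
theorem r6334 : PImp [l6243, l2542, o3749, l6212, l6170] l6334 := rupP (by decide +kernel)
theorem r6335 : PImp [l5718, o9033] l6335 := rupP (by decide +kernel)
theorem r6336 : PImp [l5112, l2615, l6335, l6243, l2614, l3219, l6248, l476, o5407, l6332, l6270, l6333, l2674, l3527, l6334, l6329] l6336 := rupP (by decide +kernel)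
theorem r6337 : PImp [l2615, l4655, l432, l1254, l430, l5113, l5112, l1357, l5035, l6319, l6327, l2596, l2713, l6261, l6294, o2924, o6650, l5277, l4834, o5017, l6335, l2544, l6336, l3934, l3935, l6200, l3338, l3340, l3341, l3342, l6325, l5587, l2629, l6262, l476, l473, o4463, o4498, l2641, l4802, l4129, l4591, l6263, l3824, l3113, l5038, l4135, l4428, l4100, l5623, l3822, l5637, l6253, o3556, o3749, o3563, l6258, l1277, l2731, o5744, l6323] l6337 := rupP (by decide +kernel)
theorem r6338 : PImp [l5035, l3370, l5192, o4569, l4838] l6338 := rupP (by decide +kernel)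
theorem r6339 : PImp [l476, l3219, l4129, l2674, l3527, l3394, l667, o8464] l6339 := rupP (by decide +kernel)
theorem r6340 : PImp [l3119, l5035, l2544, o3838, o3835, o3834, o3832, l5776, l6338, l4834, l4838, l3378, o5380, l6339, l2675, l2672, l4873, l5795, o4324] l6340 := rupP (by decide +kernel)
theorem r6341 : PImp [o9033, o9045] l6341 := rupP (by decide +kernel)
theorem r6342 : PImp [l1357, l2596, l6261, l6243, l2614, l6248, o5407, l6332, l3119, l2585, l2713, l6337, l2615, l4655, l432, l1254, l5113, l5112, o6571, o6333, l6340, l6341, o5511, o5513, o5813, l5789, l3442, l3927, l3467, l3422, l6339, l5037, l2675, l6224, l5134, l4880, l4883] l6342 := rupP (by decide +kernel)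
theorem r6343 : PImp [l3336, l4655, l432, l6248, o4479, l433, o4487, l476, l3115, l3219, l1254, l1138, l5112, l5035, o3111, o3853, l3836, l4130, l6253, o5364, o4825, o5354, o8774, l5725, l3378, l3430, l3453, l4777, o5193] l6343 := rupP (by decide +kernel)
theorem r6344 : PImp [l6328, l6334] l6344 := rupP (by decide +kernel)
theorem r6345 : PImp [l2544, o2924, l5277, l6243, l6248, l476, l3219, l2674, l3527, l6343, l6344] l6345 := rupP (by decide +kernel)
theorem r6346 : PImp [l1357, l2596, l6261, l6243, l2614, l6248, o5407, l6332, l4655, l427, o4452, l473, l476, l3223, l3219, l2713, l2615, l432, l1254, l5112, l5035, l6342, o2924, o6650, l5277, l4834, o5017, l6341, l6345, l5037, l2675, l2529, l3528, o6639, o2977, l2957, l6212] l6346 := rupP (by decide +kernel)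
theorem r6347 : PImp [l6243, l6248, l4655, l433, l430, l5112, l5035, l2545, l2544, o3838, o3835, o3832, l6340, l6338, l4834, l4838, l5726, l3378, o4537, o4536, o4522, l5796, l5832] l6347 := rupP (by decide +kernel)
theorem r6348 : PImp [l4655, l432, l1254, l5113, l5112, l1789, o4315, o4312, l4883, l3927, o8938, o6644] l6348 := rupP (by decide +kernel)
theorem r6349 : PImp [l476, l3219, l2674, l3527] l6349 := rupP (by decide +kernel)
theorem r6350 : PImp [l476, l3219, l6349, l2675, l3528] l6350 := rupP (by decide +kernel)
theorem r6351 : PImp [l6243, l6248, l1357, l2596, l6261, l2614, o5407, l6332, l6350, l3336, l3115, l2585, l2713, l2615, l4655, l432, l1254, l5112, l1316, o6571, l6294, o6333, l6347, l6341, o5513, o5812, l668, o3469, o8481, l3442, l6253, l3422] l6351 := rupP (by decide +kernel)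
theorem r6352 : PImp [l4655, l432, l1254, l1138, l5112, l5035, l3378, l5725, l3430, o5193, l3453, l4777] l6352 := rupP (by decide +kernel)
theorem r6353 : PImp [l4128, l4129, l6243, l6248, l6350, l5113, l5112, l6339, l3394, l4883, o5760, o8775, o3225, o8609, l2257] l6353 := rupP (by decide +kernel)
theorem r6354 : PImp [l2898, l2899] l6354 := rupP (by decide +kernel)
theorem r6355 : PImp [l4655, l430, l6248, o4463, o4014, o3981, l3045, l432, l1254, l5113, l4525, l4029, l4233, l3255, l4982, o6177, o867] l6355 := rupP (by decide +kernel)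
theorem r6356 : PImp [l4655, l430, l6248, o4463, o4011, l427, o4452, o4000, o3958, l432, o3975, l3045, o853, l6355, o26, l5847, o6187, l3977, o1730, o33, o6089, o6127] l6356 := rupP (by decide +kernel)
theorem r6357 : PImp [l3059, l4655, l432, l1254, l5112, l1316, l6356, l6298, l5974, l5978, l5983] l6357 := rupP (by decide +kernel)
theorem r6358 : PImp [l4525, l4086, l4026, l4232, o5928, l3282, o1737, l3997, l413, o4172, l4694, o5872, o866] l6358 := rupP (by decide +kernel)
theorem r6359 : PImp [l3045, l4655, l432, l1254, l1138, l1242, l5112, o876, l6358, l6301, l3308, l702, l5826] l6359 := rupP (by decide +kernel)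
theorem r6360 : PImp [l5277, l5275, l4655, l432, l1254, o6650, o2690, o2595, o2649, o2644, o2648, l6357, o4227, l6359, l6303, l5677, l4540] l6360 := rupP (by decide +kernel)
theorem r6361 : PImp [o2665, o2669, o6310, o6210, o1733, o944, o6246] l6361 := rupP (by decide +kernel)
theorem r6362 : PImp [o7533, o6306] l6362 := rupP (by decide +kernel)
theorem r6363 : PImp [l4655, l432, l1254, l1138, l1242, l3926, l5102, l3239, l3236, l433, l427, l5112, o4425, o4420, o4412, l4578, l6276] l6363 := rupP (by decide +kernel)
theorem r6364 : PImp [l4498, l5127, l3626, l3628, l2861] l6364 := rupP (by decide +kernel)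
theorem r6365 : PImp [l4498, l6364, l3618, l3621] l6365 := rupP (by decide +kernel)
theorem r6366 : PImp [l4655, l432, l1254, l1138, l1242, l1360, l3926, l5102, l3239, l3295, l6362, o2512, l6365, l4495, l4497] l6366 := rupP (by decide +kernel)
theorem r6367 : PImp [l4491, l5127, l5126] l6367 := rupP (by decide +kernel)
theorem r6368 : PImp [l4655, l432, l1254, l1138, l5112, l5654, l5100] l6368 := rupP (by decide +kernel)
theorem r6369 : PImp [l4655, l432, l1254, l1138, l1242, l1357, l5102, l2507, l3236, l5115, l5084, l2346] l6369 := rupP (by decide +kernel)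
theorem r6370 : PImp [l433, l428, l427, o4420, o4414, o4412, l5146, l4312, l4311] l6370 := rupP (by decide +kernel)
theorem r6371 : PImp [l1130, o5935, o6185] l6371 := rupP (by decide +kernel)
theorem r6372 : PImp [l6370, l3236] l6372 := rupP (by decide +kernel)
theorem r6373 : PImp [l4965, l4491] l6373 := rupP (by decide +kernel)
theorem r6374 : PImp [l6369, l6363] l6374 := rupP (by decide +kernel)
theorem r6375 : PImp [l4655, l432, l1254, l1138, l1242, l5102, l3236, l6374, l4588, l6282] l6375 := rupP (by decide +kernel)
theorem r6376 : PImp [l4655, l6375, l6368, l6372] l6376 := rupP (by decide +kernel)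
theorem r6377 : PImp [o7642, o7568] l6377 := rupP (by decide +kernel)
theorem r6378 : PImp [l4655, l432, l1254, l1138, l1242, l5276, l1360, l5102, l2514, l3239, l3295, l3105, l6371, o6306, o2512, o2513, l4489, l6283, l6369, l6366, l4495, l2407, l6377, o5426, l3618, l3621] l6378 := rupP (by decide +kernel)
theorem r6379 : PImp [l6367, l6373] l6379 := rupP (by decide +kernel)
theorem r6380 : PImp [l4655, l432, l1254, l1138, l1242, l433, l430, l5276, l5102, l6375, l3239, l3295, o3984, l6371, o6306, l6378, o2513, o4422, o4417, o4418, l6379] l6380 := rupP (by decide +kernel)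
theorem r6381 : PImp [o5295, l4824, o7650, o3432] l6381 := rupP (by decide +kernel)
theorem r6382 : PImp [l5147, l5103] l6382 := rupP (by decide +kernel)
theorem r6383 : PImp [l6381, l6382] l6383 := rupP (by decide +kernel)
theorem r6384 : PImp [l4200, l6383] l6384 := rupP (by decide +kernel)
theorem r6385 : PImp [l6243, l6248, l3223, l5113, l6380, l3328, l2644, l6368, l3236, l2349, l2351, l6384, l4179, l1435, o7513, o7656] l6385 := rupP (by decide +kernel)
theorem r6386 : PImp [o1417, l2358, o1436, l6205, o7791, l3597, o5287] l6386 := rupP (by decide +kernel)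
theorem r6387 : PImp [l4655, l432, l1254, l1138, l1242, l5113, o3438, o3756, l2272, o3607, l6386, o8082, o7744] l6387 := rupP (by decide +kernel)
theorem r6388 : PImp [l6243, l4655, l432, l1254, l5276, l1360, l1357, l6195, o2971, l6191, l3161, l4260, l645, l2651, l4454, l4456] l6388 := rupP (by decide +kernel)
theorem r6389 : PImp [o2236, l6387] l6389 := rupP (by decide +kernel)
theorem r6390 : PImp [l3534, l3546, o8063, o5323] l6390 := rupP (by decide +kernel)
theorem r6391 : PImp [l4204, o688, l6390, l2650, l4670, o8014, o5313] l6391 := rupP (by decide +kernel)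
theorem r6392 : PImp [l6206, l3597, o4448] l6392 := rupP (by decide +kernel)
theorem r6393 : PImp [l2272, o3438, l4209, l6243, l6248, l6350, l2658, l3933, l5112, l4655, l2433, o644, l6389, l3155, o2209, l6391, l4260, o690, l6392, l2650, l4670, o7995, o5313] l6393 := rupP (by decide +kernel)
theorem r6394 : PImp [o8142, o7477] l6394 := rupP (by decide +kernel)
theorem r6395 : PImp [l6394, o7623, o7804] l6395 := rupP (by decide +kernel)
theorem r6396 : PImp [l4655, l432, l1254, l1138, l1242, l6283, l2400, l2426, l5102, l3236, l6243, l3487, l3476, l5277, l5275, l5112, l1360, l1357, o5428, o5429, o5430, o7554, o7568, l6377, l4555, o3635, o3629, o3626, o8903, l5127, o7641, o5216, o5206, l2737, o3590, o3594, o3843, o8599, o7563, o7531, o7419, l6388, o3459, o3607, o3605, l6393, o614, o615, l6395, l2320, o2194, l1426, l649, l1307, o5528] l6396 := rupP (by decide +kernel)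
theorem r6397 : PImp [l4655, l432, l1254, l1138, l1242, l5102, l3239, l6375, l2506, l6243, l6248, l6350, l3842, l6277, l3487, l4208, l2673, l2674, l1360, l4314, l6283, l4179, o6172, l2435, l2431, l6369, o919, o899, l4495, l2403, l2407, l6396, l3619, l3621] l6397 := rupP (by decide +kernel)
theorem r6398 : PImp [o876, l4655, l432, l1254, l1138, l1242, l4086, l1357, l2596, l2585, l3282, l5735, o4228, l6261, l5825, l6277, l6243, l2614, l6248, o5407, l6332, l2542, l6184, l2674, l3501, l3497, l3509, o5333, l485, o3749, l5275, l5276, l5102, l2516, l2513, l2514, l2515, l6375, l3239, l3295, l3296, l3104, l3105, l3106, o4594, o3985, o3984, l6371, o6306, o2436, o2512, o2513, l6397, l4489, l4491] l6398 := rupP (by decide +kernel)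
theorem r6399 : PImp [l1435, o7513, o7656] l6399 := rupP (by decide +kernel)
theorem r6400 : PImp [l1357, l6261, l4655, l432, l1254, l1138, l1242, l5825, l2596, l5112, l2615, l2713, l6351, o6650, l5035, o2924, l5277, l4834, o5017, l6341, l2545, l6346, l6277, l4137, l6243, l6248, l2614, o5407, l6332, l6350, l3933, l3028, o3838, l2674, l2673, l2544, l6343, l2568, o8355, l2542, l6184, l3501, l485, l3509, o3749, l3487, l3116, l3119, l3337, o5333, o4479, l3115, l3336, l4130, l6253, o4807, o5364, l433, o4487, o4825, l476, o5354, l6352, l4838, l6353, l2585, l6337, l5776, l5798, l6354, l4848, l4777, o5193, l3380, l4129, l2660, o5483, o8658, o8915, o8801, o3107, o3079, l2731, l4208, l2658, o8774, l4128, l3219, l4800, o5471, o8609, l2323, l4569, l6360, o3811, l2308, l4132, l2661, l3118, o8799, l3476, l3497, l5275, l5113, l6385, l6398, l3327, l3328, l6368, l3236, l2351, l2352, l6399, o666, l4179, l648, l6382, o3523, l4824] l6400 := rupP (by decide +kernel)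
theorem r6401 : PImp [l4179, l4655, l432, l1254, l1138, l1242, l5102, l3236, l5112, o3631, o3629, o3627, o3611, l2341, o3433, o9151, l2370, l5106, o5575, o5573, o5212, o5295, o7554, o7568, o3632, o3593, l2407, o620, o8598, l5085, o7592, o5531, o2196, o7566] l6401 := rupP (by decide +kernel)
theorem r6402 : PImp [l3618, l3621] l6402 := rupP (by decide +kernel)
theorem r6403 : PImp [l2435, l4655, l432, l1254, l1138, l1242, l5102, l1669, l1360, l6401, o3615, l6402, o5429, o7628, l6377, l4121, l6365] l6403 := rupP (by decide +kernel)
theorem r6404 : PImp [l4655, l432, l1254, l5276, l1360, l1357, l2291, l6195, l6191, o3600, l2314, o2214, l645, l2269, l654, o1465, o5549, o8203] l6404 := rupP (by decide +kernel)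
theorem r6405 : PImp [l3534, l3553, o7703, o5268] l6405 := rupP (by decide +kernel)
theorem r6406 : PImp [l6243, l3487, l4209, l3476, l5277, l5275, l6248, l6350, l2658, l2657, l3933, l5112, l2433, o644, l2717, l6404, o3459, o3438, l2272, l6389, l3155, o2209, l6391, l4260, o690, l6405, l2650, l4670, o7995, o5313] l6406 := rupP (by decide +kernel)
theorem r6407 : PImp [l5275, l2611, l3537, l6207, o5735, o5546, o8145, l649, o2215] l6407 := rupP (by decide +kernel)
theorem r6408 : PImp [o2216, o2236, l6407, l2650, l2509, o8797, o7762, o8109, o8107] l6408 := rupP (by decide +kernel)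
theorem r6409 : PImp [l4655, l432, l1254, l1138, l1242, l6283, l2426, l5102, l3236, l2516, l6243, l6248, l6350, l3933, l2510, l5275, o5407, l5276, l5112, l1360, l1357, o5295, o5429, o5430, o7568, l6377, o3635, o3629, o3626, o8903, l5127, o7641, o5216, o5206, l2737, o3589, o3594, o3613, o3843, o8599, o7563, o7531, o7565, o7419, l6406, o646, o647, o614, o615, l6191, l2272, o3607, o3605, l6408, l2320, o2194, l1426, l649, l1307, o5528] l6409 := rupP (by decide +kernel)
theorem r6410 : PImp [l3619, l3621] l6410 := rupP (by decide +kernel)
theorem r6411 : PImp [l1360, l4655, l432, l1254, l1138, l1242, l5102, l6410, l6283, l2435, l4132, o658, l4121, o622, l6409] l6411 := rupP (by decide +kernel)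
theorem r6412 : PImp [l4655, l432, l1254, l1138, l1242, l5102, l3236, l2506, l6243, l6248, l1357, l2596, l6261, l2614, o5407, l6332, l6350, l2512, l2511, l3842, l6277, l2674, l2542, l6184, l3501, l2731, l3509, o3749, l485, l3487, l4208, l2658, l4569, l3497, o5333, l3219, l4800, l2673, l2545, l2585, l5112, l1360, l4303, l4305, l4314, l6283, l4304, l4179, o6172, l2435, l2431, l6369, o919, o899, l6403, l6410, o5428, o5429, o7554, o3632, l6411, l2407, o620, o7628, l2342, o3517, o3614, o3592, l2370, l3629, l5085, o7592, o5212, o5292, o8598, o7566, o2196] l6412 := rupP (by decide +kernel)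
theorem r6413 : PImp [o5429, l3623, o7628, o3522] l6413 := rupP (by decide +kernel)
theorem r6414 : PImp [o876, l4655, l432, l1254, l1138, l1242, l4086, l1357, l2596, l2585, l3282, l5735, o4228, l6261, l5825, l6277, l6243, l2614, l6248, o5407, l6332, l2542, l6184, l2674, l3501, l3509, l2544, l5275, l5276, l5035, l5102, l2513, l2514, l2515, l6375, l3295, l3296, l3104, l3105, l3106, o4594, o3985, o3984, l6371, o6306, o2436, l6412, l4092, l6413, l5103, l3620] l6414 := rupP (by decide +kernel)
theorem r6415 : PImp [o4917, l6376, o8888, o7587] l6415 := rupP (by decide +kernel)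
theorem r6416 : PImp [l4655, l432, l1254, o665, l4121, l6415, o3985, o3984, o6241, l3041, o2515, o6104, l3923, l3252] l6416 := rupP (by decide +kernel)
theorem r6417 : PImp [l6368, l3251, l3236, l3926, l4138, l4303, l4313, l4314, l6416, l2420, l5114, o5295, l4312, o8342, o7586, l4311] l6417 := rupP (by decide +kernel)
theorem r6418 : PImp [l5035, l1357, l6261, l6243, l6248, l2596, l2614, o5407, l6332, l6350, l3933, l6351, o2924, l3028, l5112, l2615, l2713, l4655, l432, l1254, o6650, l5277, l4834, o5017, l6341, o3838, l2545, l6346, l2674, l2673, l2544, l6343, l2568, o8355, l2542, l6184, l3501, l485, l3509, o3749, l3487, l1138, l3116, l3119, l3337, o5333, o4479, l3115, l3336, l4130, l6253, o4807, o5364, l433, o4487, o4825, l476, o5354, l6352, l4838, l6353, l2585, l6337, l5776, l5798, l6354, l4848, l4777, o5193, l3380, l4129, l2660, o5483, o8658, o8915, o8801, o3107, o3079, l2731, l4208, l2658, o8774, l4128, l3219, l4800, o5471, o8609, l2323, l4569, l6360, l1242, l5825, o6297, o2409, o876, l4086, l3282, l5735, o4228, l6277, l4138, l3122, l3345, o3809, o9043, o3811, o3771,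 o3789, l2308, l4132, l2661, l3118, o8799, o4812, l3223, l5113, l6400, l6414, l3326, l2644, l3917, l6368, l3236, l2349, l2350, l6417, l6382, l6384, l4823, l4824] l6418 := rupP (by decide +kernel)
theorem r6419 : PImp [o5429, l6377, l3626, l5127, l2861, l3630] l6419 := rupP (by decide +kernel)
theorem r6420 : PImp [l5106, l3621] l6420 := rupP (by decide +kernel)
theorem r6421 : PImp [l4121, l6419] l6421 := rupP (by decide +kernel)
theorem r6422 : PImp [l4655, l432, l1254, l1138, l1242, l5102, l3236, l4138, l5112, l1360, l4305, l4304, l4179, l6420, o5428, o5429, l6421, o667, l2407, l2420, o620, o7628, o7554, l6369, l2342, o3517, o3614, o3592, o3632, l2357, l2370, l5075, l5085, o7592, o5212, o5292, o8598, o7566, o2196] l6422 := rupP (by decide +kernel)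
theorem r6423 : PImp [o5295, l4312, o8342, o7586, l4311] l6423 := rupP (by decide +kernel)
theorem r6424 : PImp [l3926, l4303, l6423, l450, l458, l5083, l5114, l5094] l6424 := rupP (by decide +kernel)
theorem r6425 : PImp [l6243, l6248, l2673, l2674, l3223, l5113, l2644, l6368, l3236, l2349, l6424, l6382, l6384, l4823, l4824] l6425 := rupP (by decide +kernel)
theorem r6426 : PImp [l6243, l6248, l1357, l2596, l6261, l2614, o5407, l6332, l6350, l3843, l5112, l2615, l2713, l4655, l432, l1254, l6351, o6650, l5035, o2924, l5277, l4834, o5017, l6341, l2545, l6346, l6277, o876, l430, o4463, o4014, o4009, o4006, o4034, o3967, o3975, o3981, l3933, l3028, o3838, l2674, l2673, l2544, l6343, l2568, o8355, l2542, l6184, l3501, l485, l3509, o3749, l3487, l1138, l3116, l3119, l3337, o5333, o4479, l3115, l3336, l4130, l6253, o4807, o5364, l433, o4487, o4825, l476, o5354, l6352, l4838, l6353, l2585, l6337, l5776, l5798, l6354, l4848, l4777, o5193, l3380, l4129, l2660, o5483, o8658, o8915, o8801, o3107, o3079, l2731, l4208, l2658, o8774, l4128, l3219, l4800, o5471, o8609, l2323, l4569,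 l6360, o3771, l3334, l1242, l5113, l6292, l5034, l4525, l4086, l4120, l4230, l4231, l4233, l4032, o1748, l6361, o2664, l3051, l3065, l3967, l3977, o898, l3291, l3282, o6176, l5735, l3844, o4228, o4226, l4994, l5053, l4727, o2418, l6418] l6426 := rupP (by decide +kernel)
theorem r6427 : PImp [l3924, l5096, l6278, l450, l6276] l6427 := rupP (by decide +kernel)
theorem r6428 : PImp [l4655, l432, l1254, l1138, l1242, l5102, l3239, l4498, l4588, l4092, l6369, l6363, l6413, l4494, l4495, l5103, l3620] l6428 := rupP (by decide +kernel)
theorem r6429 : PImp [l6243, l6248, l1357, l2596, l6351, l3028, l5112, l2615, l2713, l6261, l4655, l432, l1254, o6650, l5035, o2924, l5277, l4834, o5017, l6341, l2545, l6346, l2614, o5407, l6332, l2674, l2544, l6350, l6343, l2542, l6184, l3219, l4800, l3501, l3509, l3115, l3336, l4130, l6253, o5364, l433, o4487, o4825, l476, o5354, l6352, o8774, l1138, l3116, l3119, l3337, o5333, o4479, o4807, l4838, l6353, l2585, l6337, l5776, l5798, l6354, l4848, l4777, o5193, l4129, l2660, l485, o5483, o8658, o8801, l1242, o3749, l3487, l6425, l5102, l3236,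 l6427, l3106, l2511, l2512, l2513, l2514, l3105, l6428, l6422, l3933, o3838, l2673, l2568, o8355, l3380, o8915, o3107, o3079, l2731, l4208, l2658, l4128, o5471, o8609, l2323, l4569, l6360, l6426, l6309, l4732, l4536] l6429 := rupP (by decide +kernel)
theorem r6430 : PImp [l4655, l432, l1254, l1138, l1242, l5102, l3236, l6427, l2357, l6243, l6248, l6350, l3933, l2359, l4179, l1360, l6420, l2506, l3239, l3487, l4208, l2673, l2674, l4495, l2403, l2407, l6396] l6430 := rupP (by decide +kernel)
theorem r6431 : PImp [l4655, l432, l1254, l1138, l1357, l6261, l2596, l5112, l2615, l2713, l6351, o6650, l5035, o2924, l5277, l4834, o5017, l6341, l2544, l6243, l3116, l3119, l2614, l6248, o5407, l6332, l6350, l3337, l2674, l2545, l6346, l6343, l2542, l6184, l3501, o5333, o4479, l3115, l3336, l4130, l6253, o4807, o5364, l433, o4487, o4825, l476, o5354, l6352, l4838, l6353, l2585, l6337, l5776, l5798, l6354, l4848, l4777, o5193, l1360, l3028, l3509, o3749, l485, l3487, l6425, l1242, l5102, l3105, l3236, l6427, l4129, l2660, o5483, o8658, o8801, l2514, l6428, l6420, o5428, l4304, l4305,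 l2515, l2513, l3933, o3838, l2673, l2568, o8355, l3380, o8915, o3107, o3079, l2731, l4208, l2658, o8774, l4128, l3219, l4800, o5471, o8609, l2323, l4569, l6360, o3811, l2308, l4132, l2661, l3118, o8799, o3809, l3122, l3345, l3106, l3104, l2516, l2512, l2511, l3476, l3497, l4138, o9043, l6422, l6375, l6283, o4594, l2435, l2431, l6369, l6429, o7554, l2357, o2933, l6403, l6430, l6311, l5803, l5016, l4534] l6431 := rupP (by decide +kernel)
theorem r6432 : PImp [l6243, l3115, l1357, l2596, l6351, o2924, l5277, l6248, l6261, l2614, o5407, l6332, l6350, l3336, l5112, l2615, l2713, l4655, l432, l1254, o6650, l5035, l4834, o5017, l6341, l2545, l6346, l2544, l2674, l6343, l2542, l6184, l4130, l6253, o5364, l433, o4487, o4825, l476, o5354, l6352, o8774, l4838, l428, o4458, o4787, o4479, o4807, l3501, l3509, o5333, l485, l4129, l6337, l3337, l3119, l3116, l2585, l6353, l2660, l5776, l5798, l6354, l4848, l4777, o5483, o8658, o3809, o3207, l6431, l3927, o6644] l6432 := rupP (by decide +kernel)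
theorem r6433 : PImp [l4655, l430, l6243, l6248, o4463, l3223, l5113, l5112, l4883, l6255, o2796, l2794] l6433 := rupP (by decide +kernel)
theorem r6434 : PImp [l5112, l5035, l6433, l2660, l3798, o8658, l5798, o5475, l6354, l4777, l4848] l6434 := rupP (by decide +kernel)
theorem r6435 : PImp [o8464, o8775] l6435 := rupP (by decide +kernel)
theorem r6436 : PImp [l1357, l2596, l5112, l2615, l2713, l6261, l4655, l432, l1254, l6351, o6650, l5035, o2924, l5277, l4834, o5017, l6341, l2545, l6346, l2544, l6243, l6248, l2614, o5407, l6332, l6350, l3336, o4479, l433, o4487, l476, l3119, l3115, l4129, l2674, l6343, l2542, l6184, l3501, l4130, l3509, l6253, o5364, o4825, o4807, o5354, l6352, l4838, l6432, l6434, l6435, l3394, l3798, l5798, l6354, l4848, l4777, l4774] l6436 := rupP (by decide +kernel)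
theorem r6437 : PImp [l1357, l2596, l5112, l2615, l2713, l6261, l4655, l432, l1254, l6351, o6650, l5035, o2924, l5277, l4834, o5017, l6341, l2545, l6243, l6248, l2614, o5407, l6332, l6350, l3933, l427, o4452, l3223, l6346, l6436, l5039, o6639, l6184, l2957] l6437 := rupP (by decide +kernel)
theorem r6438 : PImp [o4227, o4229, l4029, l5854, l3303] l6438 := rupP (by decide +kernel)
theorem r6439 : PImp [l3045, l4655, l432, l1254, l1138, l1242, l4525, l4086, l6438, o5928, l3282, l3253, l3977, l416, o3980, l4694, l4009] l6439 := rupP (by decide +kernel)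
theorem r6440 : PImp [l6277, o876, l5275, l4655, l432, l1254, o6650, l5276, o2690, l6304, o2478, l6439, l6290, o23, l6289, l6371, l3275] l6440 := rupP (by decide +kernel)
theorem r6441 : PImp [l1140, l1089, l4655, l430, l5113, o2479, o2474, o2460, l6311, o3981, o3977, l6292, o3919, o3906, o3925, l5034, l4525, l5694, l4021, l4059, l4012, l4697, l4985] l6441 := rupP (by decide +kernel)
theorem r6442 : PImp [l3236, l4588, l6282] l6442 := rupP (by decide +kernel)
theorem r6443 : PImp [l1140, l1089, l6441, l6440] l6443 := rupP (by decide +kernel)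
theorem r6444 : PImp [l5277, o2595, l6303, l4519, l4524] l6444 := rupP (by decide +kernel)
theorem r6445 : PImp [l3216, l5112, l2615, l2713, l4655, l432, l1254, o6650, l5035, o2924, l5277, l4834, o5017, l6341, o3838, l2544, l2545, l3028, l6243, l6248, l6350, l3336, o4479, l433, o4487, l3115, l1138, l1242, l1316, l2674, l2673, l6345, l6343, l2542, o3749, l6184, l3501, l4130, l485, l3509, l3497, l6253, l3487, o4812, o4825, o4807, l6425, l6236, l5726, l4869, l5831, l5102, l4884, l4838, o2789, l2917, l3239, l3796, l5260, l1089, l1140, l2794, l4772, l4768, l4778, l6442, l6443, l4763, l5822, l5978, o3906, o3895, l3308, l6444, o2464, o2460, l5957, l5845] l6445 := rupP (by decide +kernel)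
theorem r6446 : PImp [l1357, l2596, l2585, l6261, l4655, l432, l1254, l427, l6243, l2614, l3223, l6248, o4452, o5407, l6332, l6350, l3933, l6351, o2924, l6437, l6445, l5037, l5039, o6639, o2977, l2957, l6212, l6184] l6446 := rupP (by decide +kernel)
theorem r6447 : PImp [l4655, l433, l5113, l6200, l5587, o4487, l432, l1254, l2935, l2835, l2542, l3827, l4644, o8630, o8549, l4428, l5637, l1277, l3147] l6447 := rupP (by decide +kernel)
theorem r6448 : PImp [l5113, l5112, l5035, l4883, l4885, l4872, l2922, l2898, l4848, l3451, l5987] l6448 := rupP (by decide +kernel)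
theorem r6449 : PImp [l4655, l433, l5113, l6200, l5587, o4487, o4825, l476, l3935, l6325, l2641, l4802, l3113, l4129, l3342, l3338, l432, l1254, l5112, l5035, l4838, o8774, l5798, o3572, l6354, l5623, l4848, l3827, l2630, l4777, o3091, o8704, o5483] l6449 := rupP (by decide +kernel)
theorem r6450 : PImp [l2615, l4655, l432, l1254, l5112, l2920, o3469, l2545, l4866, l6341, o5014, o5812, o6650, l668, o6333] l6450 := rupP (by decide +kernel)
theorem r6451 : PImp [o5476, l6253, l3370] l6451 := rupP (by decide +kernel)
theorem r6452 : PImp [l482, l5113, l6200, l5587, l476, l3935, l6325, l2641, l4802, l3113, l4655, l432, o4479, l433, o4487, l3338, l1254, l1138, l5112, l5035, l2544, o3838, l6451, o4812, o4825, o4836, o4807, o5354, l6448, l5776, l6449, l3378, l5725, o5193, l4777] l6452 := rupP (by decide +kernel)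
theorem r6453 : PImp [l6200, l2629, l5113, l5587, l476, l3935, l6325, l2641, l4802, l3113, o5407, l3340, l3338, l4655, l432, l1254, l5112, l4130, l6447, l4800, l6452, l6341, o5513, o5812, l3442, l6253, l3422] l6453 := rupP (by decide +kernel)
theorem r6454 : PImp [l5113, l6446, l6200, l5587, l476, l3935, l6325, l2641, l4802, l3113, l3934, l473, l4591, l2568, o5407, l4655, l432, o4479, l433, o4487, l428, o4458, l2548, l3338, l1357, l2596, l2585, l6261, l2713, l2615, l1254, l1138, l1242, l5035, l6450, l6337, l1218, l6453, l5038, l5439, l3836, l3827, l2942, o2989, l5952, l5581, l4223] l6454 := rupP (by decide +kernel)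
theorem r6455 : PImp [l5113, l6200, l5587, l476, l3935, l6325, l2641, l4802, l4655, l433, o4487, l432, l1254, l390, l2935, l3827, l4644, l5636, l4796, l5637, l3147] l6455 := rupP (by decide +kernel)
theorem r6456 : PImp [l3216, l5035, o4812, o4825, o4836, o4807, o4787, o5354, l5726, l4869, l5831, l4884, l4838, l2917, o2756, l3927, l3796, l4187, o6707] l6456 := rupP (by decide +kernel)
theorem r6457 : PImp [l5113, l6200, l5587, l476, l3935, l6325, l2641, l4802, l3113, l3338, l4655, l432, l1254, l4130, l6455, l4798, o5468, l6253, l3442, l3422] l6457 := rupP (by decide +kernel)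
theorem r6458 : PImp [l5113, l6200, l5587, l476, l3935, l6325, l2641, l4802, l3113, l3934, l473, l4591, l4655, l432, o4479, l433, o4487, l428, o4458, l3338, l1254, l1138, l1242, l5112, l1316, l6456, l6457, l5439, l3836, l668, l2942, o8481, o3096, l2809, o3497, l6253, l6338] l6458 := rupP (by decide +kernel)
theorem r6459 : PImp [l5113, l6446, l6200, l5587, l473, l6325, l3342, l3934, l1357, l2596, l2585, l5112, l2641, l4129, l4591, l6454, l3140, l6458, l2820, o3470, l3374, l627, o5380] l6459 := rupP (by decide +kernel)
theorem r6460 : PImp [l4655, l432, l1254, l433, l430, l428, l5276, l5113, l6446, l3934, l3935, l6200, l6325, l5587, l476, l473, o4463, o4487, l6459, l5037, l5039, l5324, l4254, l2704, l4252, l4253, l3827, l3850, l5314, l1218, l2935, o2982, l5952, l4223] l6460 := rupP (by decide +kernel)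
theorem r6461 : PImp [l2673, l6268] l6461 := rupP (by decide +kernel)
theorem r6462 : PImp [o5407, l2555, l2614, l2568, l6461, l5552, l2581, l2592, l5909, o8728, o8355] l6462 := rupP (by decide +kernel)
theorem r6463 : PImp [l5552, l2709, o8853, o8380] l6463 := rupP (by decide +kernel)
theorem r6464 : PImp [l668, o5476, o8481, l2809, l3370, l6253] l6464 := rupP (by decide +kernel)
theorem r6465 : PImp [l5655, l4057, o3895] l6465 := rupP (by decide +kernel)
theorem r6466 : PImp [l4655, l432, l1254, l1138, l1242, l5034, l6465, l5854, l5050, o3895] l6466 := rupP (by decide +kernel)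
theorem r6467 : PImp [l4002, l3299] l6467 := rupP (by decide +kernel)
theorem r6468 : PImp [l4655, l428, l1218, l432, l1254, l1138, l1242, l427, l3069, o2461, o2465, l6466, l6467, o3938, o3944, l4069, l6130, l5050] l6468 := rupP (by decide +kernel)
theorem r6469 : PImp [l5112, l2794, l4655, l427, l1360, l6468, l3075, l6311, o3958, o3906, l5854, l3303, l5863, l4031] l6469 := rupP (by decide +kernel)
theorem r6470 : PImp [l5655, l4760, o3895] l6470 := rupP (by decide +kernel)
theorem r6471 : PImp [l4763, l5113, l5112, l5034, l6470, l4996, l4994] l6471 := rupP (by decide +kernel)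
theorem r6472 : PImp [l3059, o2461, o2465, l6471, l5974, l5983, o3895, l5655] l6472 := rupP (by decide +kernel)
theorem r6473 : PImp [l4655, l432, l5113, l5112, l4759, o3952, o3946, l5969] l6473 := rupP (by decide +kernel)
theorem r6474 : PImp [l6473, l3308, l5005, l5992] l6474 := rupP (by decide +kernel)
theorem r6475 : PImp [l1244, l5112, l2794, l4655, l428, l1218, l432, l1254, l6469, l6472, o2496, l3075, l6474, l5974, l4757, l5983] l6475 := rupP (by decide +kernel)
theorem r6476 : PImp [l4057, l4053] l6476 := rupP (by decide +kernel)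
theorem r6477 : PImp [l4655, l432, l1254, l1138, l1242, l5034, l6476, l5854, l5050, o3895] l6477 := rupP (by decide +kernel)
theorem r6478 : PImp [l4655, l428, l1218, l432, l1254, l1138, l1242, l427, l3069, o2461, o2465, l6477, l6467, o3938, o3944, l4069, l6130, l5050] l6478 := rupP (by decide +kernel)
theorem r6479 : PImp [l5112, l2794, l4655, l427, l1360, l6478, l3075, l6311, o3958, o3906, l5854, l3303, l5863, l4031] l6479 := rupP (by decide +kernel)
theorem r6480 : PImp [l3303, l4760, l4735, o3906] l6480 := rupP (by decide +kernel)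
theorem r6481 : PImp [l5112, l6480, l5968, l5033] l6481 := rupP (by decide +kernel)
theorem r6482 : PImp [l4763, l1244, o2461, o2465, l6481, l5974, l5983, o3895, l5841] l6482 := rupP (by decide +kernel)
theorem r6483 : PImp [l1244, l5112, l2794, l4655, l428, l1218, l432, l1254, l6475, l6479, l6482, o2496, l3075, l6474, l5974, l4757, l5983] l6483 := rupP (by decide +kernel)
theorem r6484 : PImp [l5655, l4754, o3895] l6484 := rupP (by decide +kernel)
theorem r6485 : PImp [l5112, l3059, o2461, o2465, l6471, l6484, l3308, l4549, l5982] l6485 := rupP (by decide +kernel)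
theorem r6486 : PImp [l6483, l1244, l5112, l2794, l4655, l428, l1218, l1357, l1316, l6469, l6485, o2496, l3075, l6474, l5048, l3303, l4550, l4553] l6486 := rupP (by decide +kernel)
theorem r6487 : PImp [l4763, l5113, l5112, l5034, l6480, l4996, l4994] l6487 := rupP (by decide +kernel)
theorem r6488 : PImp [l4763, l5841, l4754, o3895] l6488 := rupP (by decide +kernel)
theorem r6489 : PImp [l1244, l5112, l3059, o2461, o2465, l6487, l6488, l3308, l4549, l5982] l6489 := rupP (by decide +kernel)
theorem r6490 : PImp [l1244, l5112, l2794, l4655, l428, l1218, l1357, l1316, l6486, l6479, l6489, o2496, l3075, l6474, l5048, l4537, l4539] l6490 := rupP (by decide +kernel)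
theorem r6491 : PImp [l4655, l432, l1254, l1138, l1242, l6355, l5917, l4026] l6491 := rupP (by decide +kernel)
theorem r6492 : PImp [l6224, l4655, l432, l1254, l1138, l1242, l427, l3069, o2649, o2461, o2465, l6491, l6467, o3938, o3944, l4069, l6130, l5050] l6492 := rupP (by decide +kernel)
theorem r6493 : PImp [l6217, l1244, l4655, l428, l1218, l427, l1360, l6492, l3075, l6311, o3958, o3906, l5854, l3303, l5863, l4031] l6493 := rupP (by decide +kernel)
theorem r6494 : PImp [l5968, l4550] l6494 := rupP (by decide +kernel)
theorem r6495 : PImp [l1244, l5112, l2794, l1357, l1316, l6489, o2496, l3075, l6474, l5048, l3303, l6494, o3906, l4548, l4534] l6495 := rupP (by decide +kernel)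
theorem r6496 : PImp [l3045, l4655, l432, l1254, l1138, l1242, l4525, l4086, l6355, o3924, l4026, l4009, l3099, l4694, l413, l3997, l5825, o4035, o6113, o6252] l6496 := rupP (by decide +kernel)
theorem r6497 : PImp [l6224, l5112, l2794, l4655, l432, l1254, l1138, l1242, l427, l3069, o2649, o2478, o2461, o2465, l6496, l6467, o3938, o3944, l4069, l6130, l5050] l6497 := rupP (by decide +kernel)
theorem r6498 : PImp [l6217, l1244, l6224, l4655, l428, l1218, l427, l1360, l6490, l6495, o876, l6493, l6497, l3075, l6311, o3958, o3906, l5854, l3303, l5863, l4031] l6498 := rupP (by decide +kernel)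

end Pool.Agent.BDD.A
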