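import Pool.Agent.BDD.AC
import Pool.Agent.BDD.AE0
import Pool.Agent.BDD.AE1
import Pool.Agent.BDD.AE2
import Pool.Agent.BDD.AD0
import Pool.Agent.BDD.AD1
import Pool.Agent.BDD.AD2

set_option autoImplicit false
set_option linter.all false

namespace Pool.Agent.BDD.A

theorem r6499 : PImp [l5112, l1360, l2611, l3536, l3537, l6226, o2339, l2314, o7903, o8229, o5733] l6499 := rupP (by decide +kernel)
theorem r6500 : PImp [l1357, l1316, o694, o714, l6499, l2651, l650, l736, l1697] l6500 := rupP (by decide +kernel)
theorem r6501 : PImp [l5756, l4945, l2466, o4443] l6501 := rupP (by decide +kernel)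
theorem r6502 : PImp [l5037, l1316, l4655, l4204, l2685, l6501, l3931, l3900, l5893, o4263] l6502 := rupP (by decide +kernel)
theorem r6503 : PImp [l1244, l4655, l428, l1218, l5113, l2687, l2685, l6502, l5879, l2384, l5884, o746, l3330, o8091, o7751] l6503 := rupP (by decide +kernel)
theorem r6504 : PImp [o2278, l2314, l26, o5652, l737, l1092] l6504 := rupP (by decide +kernel)
theorem r6505 : PImp [o8719, o8622] l6505 := rupP (by decide +kernel)
theorem r6506 : PImp [o2461, o2465, l6466] l6506 := rupP (by decide +kernel)
theorem r6507 : PImp [l6506, l6311, l4032, l4031] l6507 := rupP (by decide +kernel)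
theorem r6508 : PImp [l4655, l432, l1254, l1138, l1242, l427, o3938, o3944, l4069, l6130, l5050] l6508 := rupP (by decide +kernel)
theorem r6509 : PImp [l4655, l432, l1254, l1138, l1242, l5112, l5826, l428, l1218, l2687, l2685, o709, l6502, l5879] l6509 := rupP (by decide +kernel)
theorem r6510 : PImp [l4655, l432, l1254, l1138, l1242, l1316, l5956, l6130, l5050] l6510 := rupP (by decide +kernel)
theorem r6511 : PImp [l1360, l1357, l1316, o694, o714, l736, o1501, o1465, o7903, o8229, o5733] l6511 := rupP (by decide +kernel)
theorem r6512 : PImp [o2339, o2269, l6511, l645, o8717, o8201] l6512 := rupP (by decide +kernel)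
theorem r6513 : PImp [l5276, l1316, l5669, l1697] l6513 := rupP (by decide +kernel)
theorem r6514 : PImp [o8728, o3671, o3712, l6512, l6513, l1279, o7959, o8284] l6514 := rupP (by decide +kernel)
theorem r6515 : PImp [l4655, l432, l1254, l1138, l1242, l5112, l5874, l4235, o4733, l26] l6515 := rupP (by decide +kernel)
theorem r6516 : PImp [l1316, l4655, l2379, o2269, l6515, l5040, l6501, l3931, l3900, l5893, o4263] l6516 := rupP (by decide +kernel)
theorem r6517 : PImp [l6226, l1697, o8651] l6517 := rupP (by decide +kernel)
theorem r6518 : PImp [o8728, l5112, o3671, o3712, l6512, l6517, l1279, o7959, o8284] l6518 := rupP (by decide +kernel)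
theorem r6519 : PImp [l5039, l4655, l428, l1218, l432, l1254, l1138, l1242, l5113, l5112, l3069, o2461, o2465, l6508, l4002, l5826, l5847, l6516, o2257, l6197, l6503, l6509, l2273] l6519 := rupP (by decide +kernel)
theorem r6520 : PImp [l1244, l5112, l2794, l4655, l427, l5276, l1360, l6507, l6519, l3075, o2453, l6311, l706, o3958, o3906, l3308, l5863] l6520 := rupP (by decide +kernel)
theorem r6521 : PImp [l5005, l4713] l6521 := rupP (by decide +kernel)
theorem r6522 : PImp [l6521, l4712, l5992] l6522 := rupP (by decide +kernel)
theorem r6523 : PImp [l5112, l2794, l4655, l432, l1254, l1316, l6489, o2496, l3075, l6522, l5974, l5978, l4553] l6523 := rupP (by decide +kernel)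
theorem r6524 : PImp [o2461, o2465, l6477] l6524 := rupP (by decide +kernel)
theorem r6525 : PImp [l6524, l6311, l4032, l4031] l6525 := rupP (by decide +kernel)
theorem r6526 : PImp [l5037, l1316, l4655, l4206, l2686, l6501, l3931, l3900, l5893, o4263] l6526 := rupP (by decide +kernel)
theorem r6527 : PImp [l5112, l2379, o2269, l6526, o702, l26, o5652, o7706, l28, o1477] l6527 := rupP (by decide +kernel)
theorem r6528 : PImp [l4655, l428, l1218, l432, l1254, l1138, l1242, l5113, l5112, l3069, o2461, o2465, l6508, l4002, l5826, l5847, l6527, o2257, l6197, l6503, l6509, l2273] l6528 := rupP (by decide +kernel)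
theorem r6529 : PImp [l5112, l6505, o8603, l1244, l2794, l4655, l428, l1218, l427, l5276, l1360, o8656, l6518, o3438, o3677, o3012, l2303, o3664, o3729, l6523, l6520, l6525, l6528, l3075, o2453, l6311, l706, o3958, o3906, l3308, l5863] l6529 := rupP (by decide +kernel)
theorem r6530 : PImp [o2649, l6491] l6530 := rupP (by decide +kernel)
theorem r6531 : PImp [l6530, l6311, l4032, l4031] l6531 := rupP (by decide +kernel)
theorem r6532 : PImp [l1279, o7959, o8284] l6532 := rupP (by decide +kernel)
theorem r6533 : PImp [o8728, l5037, l4655, l432, l1254, l5112, o2965, o3671, o3712, l6514, l6512, l6532, l4204, l2685, l6226, l1697, l3537, l3570, o5301, o4749, l3879, l4816, l4817] l6533 := rupP (by decide +kernel)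
theorem r6534 : PImp [l5112, l2794, l3069, o2649, o2478, l6496] l6534 := rupP (by decide +kernel)
theorem r6535 : PImp [l4655, l428, l1218, l6531, l6534, l6311, l4032, l4031] l6535 := rupP (by decide +kernel)
theorem r6536 : PImp [o760, l2296] l6536 := rupP (by decide +kernel)
theorem r6537 : PImp [l1497, l744] l6537 := rupP (by decide +kernel)
theorem r6538 : PImp [l4655, l428, l1218, l432, l1254, l1138, l1242, l2379, l6502, l6537, l2448, o1511, l5892, l5887] l6538 := rupP (by decide +kernel)
theorem r6539 : PImp [l1244, l4655, l428, l1218, l432, l1254, l5113, l3069, o2461, o2465, l6508, l6510, l4002, o3893, l5847, l6538, o2257, l6197, l2687, l2685, l6502, l5884, o7757, l5882, o4262, l3911] l6539 := rupP (by decide +kernel)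
theorem r6540 : PImp [l4655, l427, l5276, l1360, l3075, o2453, l6311, l706, o3958, o3906, l3308, l5863] l6540 := rupP (by decide +kernel)
theorem r6541 : PImp [o1465, l1497, o7706, o5636] l6541 := rupP (by decide +kernel)
theorem r6542 : PImp [l4655, l428, l1218, l2379, o2269, l6526, l6541, l2448, o1511, l5892, l5887] l6542 := rupP (by decide +kernel)
theorem r6543 : PImp [l4655, l432, l1254, l3223, l427, l6248, o4452, o6639, o3007, o3003, l5037, o2753, l6498, l6217, l1244, l6224, l5112, l2794, l428, l1218, l1138, l1242, l5113, o876, l6535, l6540, l3069, o2461, o2465, l6539, l6508, l4002, l5826, l5847, l6542, o2257, l6197, l2687, l2685, l6502, l5884, o7757, l5882, o4262, l3911] l6543 := rupP (by decide +kernel)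
theorem r6544 : PImp [l5112, l5039, l3219, l4655, l432, l6248, o4479, l1254, l3836, o3049, l473, l3223, l2529, l2703, l2942, l4245, o5332, l4248, l6505, o8603, l5037, l427, o4452, o6639, o2753, l4243, l6212, o2984, l6498, l476, l2734, l6217, l6224, l2794, l428, o4458, l3855, o3042, l3333, l430, o4463, l1218, l2555, l1316, l6529, l6533, o3438, o3012, l2303, o3664, l6543, l6489, o2496, l6522, l5974, l5978, l5983] l6544 := rupP (by decide +kernel)
theorem r6545 : PImp [l6507, l6525] l6545 := rupP (by decide +kernel)
theorem r6546 : PImp [l5112, o8603, o8728, l2322, o3671, o3712, l6512, o2257, l6532, l6226, o1454, o8651, o5627, o8264, o8371] l6546 := rupP (by decide +kernel)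
theorem r6547 : PImp [l1244, l4655, l428, l1218, l2687, l2685, l6502, l5884, o7757, l5882, o4262, l3911] l6547 := rupP (by decide +kernel)
theorem r6548 : PImp [l4655, l432, l1254, l5113, o2257, l6197] l6548 := rupP (by decide +kernel)
theorem r6549 : PImp [l1244, l5112, l2794, l5039, l4655, l428, l1218, l432, l1254, l1138, l1242, l6545, l6540, l3069, o2461, o2465, l6508, l4002, l5826, l5847, l6547, l6548, l6516, l6527] l6549 := rupP (by decide +kernel)
theorem r6550 : PImp [l5112, l6505, o8603, l2794, l4655, l428, l1218, l1357, l1316, l6546, o3438, o3677, o3003, o3007, o3012, l2303, o3664, l6549, l6489, o2496, l3075, l6522, l5048, l3303, l4553, l6494] l6550 := rupP (by decide +kernel)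
theorem r6551 : PImp [l5893, l3910, o4262] l6551 := rupP (by decide +kernel)
theorem r6552 : PImp [o8264, o8371] l6552 := rupP (by decide +kernel)
theorem r6553 : PImp [o8728, l4655, l432, l1254, l5276, l5112, l1316, l2322, o3671, o3712, l6512, o2257, l6532, o694, l6226, l2305, o1454, l6552, l2293, o5634, l5669, o8734, o7943] l6553 := rupP (by decide +kernel)
theorem r6554 : PImp [l1316, l6548, l2379, l22, l1497, l2448, l3570, o1511, l6551, l5887] l6554 := rupP (by decide +kernel)
theorem r6555 : PImp [l5037, l6217, l1244, l6224, l5112, l4655, l432, l1254, l3223, l427, l6248, o4452, o6639, o2753, l2794, l428, l1218, l1138, l1242, o876, l6535, l6540, l3069, o2461, o2465, l6508, l4002, l5826, l5847, l6547] l6555 := rupP (by decide +kernel)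
theorem r6556 : PImp [l5112, l6243, l6248, l5175, l6350, l2657, l5039, l3219, l4655, l432, o4479, l1254, l3836, o4498, l5037, l2675, l4892, o3049, l473, l3223, l2529, l2703, l2942, l4245, o5332, l4248, l6505, o8603, l427, o4452, o6639, o2753, l430, o4463, l4909, o2734, l6184, l4243, l476, l5438, l3496, l6212, o2984, l6498, l2734, l1316, l3115, l3336, l6464, l2308, o5354, l428, o4458, o4787, o4816, l433, o4487, o4836, o4825, o4812, o5364, l6217, l1244, l6224, l2794, l3855, l4903, o3042, l3333, l2656, l2672, l1218, l2555, l3118, l2614, l1357, l5035, o2897, l3436, l3430, l4838, o3098, o2790, o2789, l4848, l4869, l3454, l3763, l2661, o2909, o3081, l6544, l6550, l6553, o3438, o3003, o3007, o3012, o3664, l6554, l6555, l6489, o2496, l3075, l6522, l5048, l3303, l6494, l5071, o3906, l4534] l6556 := rupP (by decide +kernel)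
theorem r6557 : PImp [l6460, l2615, l4655, l432, l1254, l5113, l5112, l1316, l6243, l2614, l6320, l3219, l3223, l6248, l3115, l2555, l473, o4479, o5407, l6462, l5037, l5039, l5175, l2675, l2529, l2703, l6350, l3336, l3836, l2942, l6184, l4245, l6212, l4248, l4243, o2984, l6463, l2581, l2592, o3749, o2924, l5528, l6347, o6374, o6713, l6464, o5364, o5812, l6341, o9090, l2571, l6556, l3426] l6557 := rupP (by decide +kernel)
theorem r6558 : PImp [l6154, o6435, l5552, o6769] l6558 := rupP (by decide +kernel)
theorem r6559 : PImp [l5113, l6557, l6200, l5587, l4655, l432, l1254, l430, o4463, l6325, l3934, l473, l6262, l2641, l4591, l6263, l5623, l5636, o5339, l5035, l4100, l476, l3935, l4802, l3113, l3338, l433, o4487, l4796, l4970, o2989, l4644, l6253, o5740, l4428, l3340, l2629, l6337, o8701, o3467] l6559 := rupP (by decide +kernel)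
theorem r6560 : PImp [l4655, l432, l5113, l6557, l6200, l5587, o4479, l433, o4487, l428, o4458, l430, o4463, l473, l476, l6325, l3338, l3935, l3934, l1254, l5112, l5035, l6262, l2641, l4802, l4591, l3113, l6263, l4100, l5623, l5636, l4796, l4970, o2989, l4644, l6253, o4812, l6559, l6456, l4869, l2920] l6560 := rupP (by decide +kernel)
theorem r6561 : PImp [l5112, l2794, l4655, l432, l1254, l1316, l5034, l5942, o3907, o3888, l5852, l6060, l5956, l5843, o2450, l4050] l6561 := rupP (by decide +kernel)
theorem r6562 : PImp [o692, o690, l634, o5631, o5630, o8161, o2265, o2261, o8284, o8248, o1454] l6562 := rupP (by decide +kernel)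
theorem r6563 : PImp [o692, l634, l2628, l2627, o8161, l2621, o2277, o2292, o8250, l4291, l6562, l2853, l2857, o1470, o8252, o7925, o5702] l6563 := rupP (by decide +kernel)
theorem r6564 : PImp [l5112, l1316, l2379, l2313, l5893, o4732, o7998, o8163] l6564 := rupP (by decide +kernel)
theorem r6565 : PImp [l3548, l3551] l6565 := rupP (by decide +kernel)
theorem r6566 : PImp [l5802, l5801] l6566 := rupP (by decide +kernel)
theorem r6567 : PImp [l4763, l5843, l5968, l5983, l5984] l6567 := rupP (by decide +kernel)
theorem r6568 : PImp [l5112, l2794, l4655, l432, l1254, l5942, o3907, o3888, l5852, l3303, l4031, l4029] l6568 := rupP (by decide +kernel)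
theorem r6569 : PImp [l4231, l5942, o4004, l5854, l4057, o2533, o6310, o6244] l6569 := rupP (by decide +kernel)
theorem r6570 : PImp [l3550, l3546] l6570 := rupP (by decide +kernel)
theorem r6571 : PImp [l6570, l4271, l4266] l6571 := rupP (by decide +kernel)
theorem r6572 : PImp [l4007, l4763, l4655, l430, l5113, l5112, l1316, o3981, o3977, o3919, l5017, l5804] l6572 := rupP (by decide +kernel)
theorem r6573 : PImp [l5034, l4763, l5112, l2794, l3074, l6572, l5675, l2777, l5012] l6573 := rupP (by decide +kernel)
theorem r6574 : PImp [l5018, l4738] l6574 := rupP (by decide +kernel)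
theorem r6575 : PImp [l1268, l5277, l6573, l6574, l5807, l5016] l6575 := rupP (by decide +kernel)
theorem r6576 : PImp [l5277, l4655, l432, l1254, l5112, l1316, l6575, l5974, l5978, l5983] l6576 := rupP (by decide +kernel)
theorem r6577 : PImp [l5942, l5854, l3303, l5917, l4031, l4029] l6577 := rupP (by decide +kernel)
theorem r6578 : PImp [l6561, l6569] l6578 := rupP (by decide +kernel)
theorem r6579 : PImp [l4655, l432, l1254, l433, l5113, l6200, l5587, o4487, l476, l3935, l6325, l2641, l4802, l3827, o2738, l5277, l5275, l2935, l428, l1218, o2989, l5581, l4218, l4223, l3830, l2640, l427, l5112, l1357, l3820, l6578, l6566, l6311, l5678, o2595, l3303, l3304, l5943, l3298, o3938] l6579 := rupP (by decide +kernel)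
theorem r6580 : PImp [l5277, l6567, l6576] l6580 := rupP (by decide +kernel)
theorem r6581 : PImp [l6568, l6577] l6581 := rupP (by decide +kernel)
theorem r6582 : PImp [l5277, l5275, l6200, l5113, l5587, l4655, l432, l1254, l433, o4487, l476, l3935, l6325, l2641, l4802, l3827, l2935, l428, l1218, o2989, l5581, l4218, l4223, l3830, l2640, l427, l5112, l1357, l6580, l6579, l6581, l6566, l6311, l5678, o2595, l3303, l3304, l5943, l3298, o3938] l6582 := rupP (by decide +kernel)
theorem r6583 : PImp [l5112, l2794, l4655, l432, l1254, l4231, l5942, l6569, o4004, o3888, l5852, l3303, l6137, o6310, o6244] l6583 := rupP (by decide +kernel)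
theorem r6584 : PImp [l4655, l432, l1254, l433, l5113, l6200, l5587, o4487, l476, l3935, l6325, l2641, l4802, l3827, o2738, o2732, l2935, l428, l1218, o2989, l5581, l4218, l4223, l3830, l2640, l1357, l3820, l6583, l6566, l6311, l5678, l3306] l6584 := rupP (by decide +kernel)
theorem r6585 : PImp [l5034, l4763, l4655, l430, l5113, o3967, l6279, l4994] l6585 := rupP (by decide +kernel)
theorem r6586 : PImp [l4525, l4007, l5112, l2794, l3059, o2478, l6585, o3924, l5807, l5008] l6586 := rupP (by decide +kernel)
theorem r6587 : PImp [l2779, l6291, l5968] l6587 := rupP (by decide +kernel)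
theorem r6588 : PImp [l5112, l2794, l6586, l6587, l5807, l5016] l6588 := rupP (by decide +kernel)
theorem r6589 : PImp [l5277, l4655, l432, l1254, l5112, l1316, l6588, l5974, l5978, l5983] l6589 := rupP (by decide +kernel)
theorem r6590 : PImp [l5277, l5275, l6200, l5113, l5587, l4655, l432, l1254, l433, o4487, l476, l3935, l6325, l2641, l4802, l3827, l2935, l428, l1218, o2989, l5581, l4218, l4223, l3830, l2640, l1357, l6582, l6589, l6584, l6581, l6566, l6311, l5678, l3306] l6590 := rupP (by decide +kernel)
theorem r6591 : PImp [l4655, l432, l1254, l5942, l5697, l5917, l4031, l3085, l6163, l4058] l6591 := rupP (by decide +kernel)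
theorem r6592 : PImp [l1357, l6591, l6566, l6311, l5678, l6290, l3085, l3303, l3304, l3309, l5749, l5044] l6592 := rupP (by decide +kernel)
theorem r6593 : PImp [l5277, l5112, l6572, l3085, l5807, l5805, l6480, l5968] l6593 := rupP (by decide +kernel)
theorem r6594 : PImp [l1268, l6593, l6574, l5807, l5016] l6594 := rupP (by decide +kernel)
theorem r6595 : PImp [l4655, l432, l1254, l5112, l1316, l5974, l5978, l5983] l6595 := rupP (by decide +kernel)
theorem r6596 : PImp [l5277, l6567, l6594] l6596 := rupP (by decide +kernel)
theorem r6597 : PImp [l5807, l3303, l5805, l5968] l6597 := rupP (by decide +kernel)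
theorem r6598 : PImp [l5277, l5275, l6200, l5113, l5587, l4655, l432, l1254, l433, o4487, l476, l3935, l6325, l2641, l4802, l3827, l2935, l428, l1218, o2989, l5581, l4218, l4223, l3830, l2640, l6590, l6592, l6595, l6596, l4618, l6597, l2779, l6587, l6279, l5968] l6598 := rupP (by decide +kernel)
theorem r6599 : PImp [l6581, l6569] l6599 := rupP (by decide +kernel)
theorem r6600 : PImp [l4655, l432, l1254, l433, l5113, l6200, l5587, o4487, l476, l3935, l6325, l2641, l4802, l3827, o2738, l2935, l428, l1218, o2989, l5581, l4218, l4223, l3830, l2640, l5112, l1357, l3820, l6599, l6566, l6540, l5678, l3303, l5943, l5854] l6600 := rupP (by decide +kernel)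
theorem r6601 : PImp [l4525, l4007, l5112, l2794, l5257, l1268, l5277, l6573, o2479, l6574, l5807, o3924, l5009] l6601 := rupP (by decide +kernel)
theorem r6602 : PImp [l5113, l6200, l5587, l6325, l2641, l6598, l5257, l5277, l5275, l4655, l433, o4487, l476, l3935, l4802, l432, l1254, l3827, l3830, l428, l1218, l5112, l2794, l6600, l4007, l6595, l4525, l6601, l6586, o2479, l6587, l5807, o3924, l5009] l6602 := rupP (by decide +kernel)
theorem r6603 : PImp [l5112, l3085, l6480, l5968, l5027] l6603 := rupP (by decide +kernel)
theorem r6604 : PImp [l5807, l3303, l5813, l5968] l6604 := rupP (by decide +kernel)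
theorem r6605 : PImp [l5277, l5275, l6200, l5113, l5587, l4655, l432, l1254, l433, o4487, l476, l3935, l6325, l2641, l4802, l3827, l2935, l428, l1218, o2989, l5581, l4218, l4223, l3830, l2640, l6598, l5257, l1268, l6602, l6592, l6595, l6603, o2460, l6604, l6587, l6574, l4618] l6605 := rupP (by decide +kernel)
theorem r6606 : PImp [l5968, l5965] l6606 := rupP (by decide +kernel)
theorem r6607 : PImp [l5113, l6200, l5587, l6325, l2641, l1245, l4655, l432, l1254, l433, o4487, l476, l3935, l4802, l3827, l2935, l428, l1218, o2989, l5581, l4218, l3830, l5112, l1357, l1316, l2794, l6600, l6595, l6606, l5978, l5959, l5027, l5028] l6607 := rupP (by decide +kernel)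
theorem r6608 : PImp [l6569, l6577] l6608 := rupP (by decide +kernel)
theorem r6609 : PImp [l5113, l6200, l5587, l6325, l2641, l1245, l4655, l432, l1254, l433, o4487, l476, l3935, l4802, l3827, o2745, l2935, l428, l1218, o2989, l5581, l4218, l4223, l3830, l2640, l1357, l3820, l6608, l6566, l6311, l5678, l6290, o2461, l3303, l3304, l5749, l3309, l5044] l6609 := rupP (by decide +kernel)
theorem r6610 : PImp [l5277, l5275, l6200, l5113, l5587, l4655, l432, l1254, l433, o4487, l476, l3935, l6325, l2641, l4802, l3827, l2935, l428, l1218, o2989, l5581, l4218, l3830, l5112, l1316, l6605, l1245, l6607, l6609, l6595, l6606, l6603, l5978, o3906, l5027, l6604] l6610 := rupP (by decide +kernel)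
theorem r6611 : PImp [l5112, l4655, l432, l1254, l433, l5113, l6200, l5587, o4487, l476, l3935, l6325, l2641, l4802, l3827, o4498, l3813, l2934, l2794, l3810, l2935, l428, l1218, o2989, l5581, l4218, l4223, l3830, l2640, l427, l1357, l6600, l6581, l5837, l6566, l5943, l6311, l5678, l3303] l6611 := rupP (by decide +kernel)
theorem r6612 : PImp [l5277, l5275, l5113, l6200, l5587, l4655, l432, l1254, l433, o4487, l476, l3935, l6325, l2641, l4802, l3827, l2935, l428, l1218, o2989, l5581, o5339, l1316, l3113, l3830, l3338, l4223, l5952, l4800, l6464, l2308, o5740, o5354, o4479, o4807, o4825, o4812, l4798, l4132, l4218, l430, o4463, l3934, l473, l4591, l3850, l2627, l4129, o4498, o4458, l3342, l3341, l3340, l5112, l5035, l6456, l2629, l2556, l6448, l3797, o3073, o3074, o3063, o8701, o8606, o801, l3129, o2357, o9090, o8704, l2544, o3838, o5475, l4769, l4777, l6610, l3813, l3814, o2749, l2934, l2794, l6611, l6606, l5978, l5839, o3906, l3308, l5838, l1268, l5807, l5799, o6281, l4534, l4547, l5266] l6612 := rupP (by decide +kernel)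
theorem r6613 : PImp [l5113, l5112, l2901, l2544, l2811, l4848, l2632, l2557, o8701, o9090, o801] l6613 := rupP (by decide +kernel)
theorem r6614 : PImp [l5113, l5587, l476, o5354, l4655, l432, o4479, o4807, l433, o4487, o4825, o4812, l428, l1218, o2989, o4458, l5112, l5035, l2791, l6613, l2820, l6456, l2629, l2556, l6448, l3797, o3835, o3073, o9090, o8701, o801] l6614 := rupP (by decide +kernel)
theorem r6615 : PImp [o5354, o4807, o4825, o4812, l5112, l2820, o2899, l6456, l3797, l6448] l6615 := rupP (by decide +kernel)
theorem r6616 : PImp [l5113, l5587, o5407, o5812, l4655, l433, o4487, o4825, l432, o4479, l428, o4458, l476, l5112, l5035, o2924, l5552, l6615, l2901, l2811, l4848, l2632, l2557, o8701, o801, o9167, o9090] l6616 := rupP (by decide +kernel)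
theorem r6617 : PImp [l6200, l3340, l5113, l5587, l6325, l2641, l2568, l4655, l428, l1218, l432, l1254, l433, o4487, l476, l3935, l4802, l3827, o2989, l2935, l5581, l4223, l1316, l3113, l3830, l3338, l5952, l4800, l6464, o5339, o5740, o5407, o5812, l6614, l6616, o5354, o4479, o4807, o4825, o4812, o4458, l5112, l5035, l5552, l6613, l2820, l6456, l6612, l2629, l2556, l6448, l3797, o3073, o8701, o801, o8891, o9090] l6617 := rupP (by decide +kernel)
theorem r6618 : PImp [l4655, l432, l1254, l5113, l5112, l5035, l2901, l2923, l2929, l6235, l4848, l5831, l3927, l2557, o6644, l2571, o9167, o9090] l6618 := rupP (by decide +kernel)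
theorem r6619 : PImp [l5113, l6200, l5587, l476, l3935, l6325, l2641, l4802, l3113, l2568, l4655, l428, l1218, o5407, l432, o4479, l433, o4487, o4458, l3340, l3338, l1254, l5112, l1316, l3827, l2935, l3830, o2989, l5581, l4223, o5339, l5952, l4800, l6464, o4812, o4825, o4836, o4807, o4787, o5354, o5812, o5740, l6614, l6616, l6617, l6618, l2820, l6456, l2629, l2556, l6448, l3797, o3073, o8701, o801, o9167, o9090] l6619 := rupP (by decide +kernel)
theorem r6620 : PImp [l4086, l5942, l6581, o4036, l5854, l3100, l4057, o6252, o2569] l6620 := rupP (by decide +kernel)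
theorem r6621 : PImp [l5112, l1360, l1357, o876, l6620, l6566, l6290, l5862, l3079] l6621 := rupP (by decide +kernel)
theorem r6622 : PImp [l1245, l5112, l2794, o6374, l1357, l1316, l6621, l6606, l5959] l6622 := rupP (by decide +kernel)
theorem r6623 : PImp [o4036, l5854, l3100, l4057, o6252, o6113] l6623 := rupP (by decide +kernel)
theorem r6624 : PImp [l5034, l4655, l428, l1218, l432, l1254, l1138, l1242, l5113, l3059, o2461, o2455, o2465, l6623, l4053, o3895, l3308, l4045, o5915, l4994, o3947] l6624 := rupP (by decide +kernel)
theorem r6625 : PImp [l3999, l3998] l6625 := rupP (by decide +kernel)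
theorem r6626 : PImp [l5112, o2705, l2794, l4655, l428, l1218, o2702, l430, l427, l4086, l6624, o2496, l3075, o2453, l6625, o3938, o3960, o3944, l4066, l6311, l5067] l6626 := rupP (by decide +kernel)
theorem r6627 : PImp [l5112, l1360, l1357, o876, l6626, l6566, l6290, l3079, l4042] l6627 := rupP (by decide +kernel)
theorem r6628 : PImp [l1245, l5112, o2461, l6480, l5968, l5027] l6628 := rupP (by decide +kernel)
theorem r6629 : PImp [l4655, l432, l5113, l5112, l1357, l5968, o3952, o3946, l5964, o3896] l6629 := rupP (by decide +kernel)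
theorem r6630 : PImp [l4655, l428, l1218, o2702, l1245, o2705, o6374, l6622, l6627, l6595, l6628, l6629, o3906, l5977, l5016] l6630 := rupP (by decide +kernel)
theorem r6631 : PImp [l1245, l5112, o2461, l6480, l5960, l5027] l6631 := rupP (by decide +kernel)
theorem r6632 : PImp [l4655, l432, l5113, l5112, l1357, l1316, o3952, o3946, l5960, l5972] l6632 := rupP (by decide +kernel)
theorem r6633 : PImp [l1245, l6631, l6632, o3906, l5977, l5016] l6633 := rupP (by decide +kernel)
theorem r6634 : PImp [l1357, l1316, l5962, l4550, l4549] l6634 := rupP (by decide +kernel)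
theorem r6635 : PImp [l1245, o6374, l4655, l432, l1254, l5112, l1357, l1316, l6621, l6633, l6634, l5978, o3906, l3308, l5982, l3075, l5048, l4548, l4534] l6635 := rupP (by decide +kernel)
theorem r6636 : PImp [l4655, l432, l5113, l5112, l1357, o3952, o3946, l5960, l5964, o3896] l6636 := rupP (by decide +kernel)
theorem r6637 : PImp [l1245, l6631, l6636, o3906, l5977, l5016] l6637 := rupP (by decide +kernel)
theorem r6638 : PImp [o6374, l5113, l5587, l476, o5354, l4655, l432, o4479, o4816, l433, o4487, o4825, o5364, l428, l1218, o4458, l2615, l1254, l5112, l1316, l5035, o2705, o2702, l6615, l1245, l2901, l2909, l4848, l4862, l2632, l2557, o8701, o9090, o3467, l2571, l3436, l4790, l6630, l6635, l6627, l6637, l6634, l5978, l3308, l5982, l3075, o2453, l4548, o6015, o6336] l6638 := rupP (by decide +kernel)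
theorem r6639 : PImp [l4655, l432, l1254, l5112, l4086, l5942, l6591, o4036, o3907, l2794, l6581, o3900, l5852, l3100, l4057, o6252, o2569] l6639 := rupP (by decide +kernel)
theorem r6640 : PImp [l4655, l428, l1218, l5112, l1357, l1316, l1268, l6639, l6566, o3911, o3907, l5956, l5943] l6640 := rupP (by decide +kernel)
theorem r6641 : PImp [l4086, l5942, l6620, l5854, l6623, l3303, l3085, l5917, l4031] l6641 := rupP (by decide +kernel)
theorem r6642 : PImp [l4655, l432, l5113, l5587, o4479, o4807, l433, o4487, o4812, l5112, l5035, o8933, l6236, o3169, l2556, l4883, o9090, l6244, l2571] l6642 := rupP (by decide +kernel)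
theorem r6643 : PImp [l5112, l1360, l1357, o876, l6640, l1245, l6641, l6566, l6290, l5862, l3079] l6643 := rupP (by decide +kernel)
theorem r6644 : PImp [l4655, l432, l1254, l5112, l1316, l6632, l5978, l5984] l6644 := rupP (by decide +kernel)
theorem r6645 : PImp [l4655, l428, l5113, l5587, o4458, o4787, l432, o4479, o4807, l433, o4487, o4825, o4812, l5035, l4834, l476, l5112, l1268, l6644, l6595, l6618, l2820, o3564, l6456, o8834, l4872, l2631, o2770, l4848] l6645 := rupP (by decide +kernel)
theorem r6646 : PImp [o6374, l5113, l5587, l476, o5354, l4655, l428, o4458, o4787, l432, o4479, o4816, o4807, l433, o4487, o4825, o4812, l5035, l4834, l1218, l2615, l1254, l5112, l1316, l6643, l6645, l1245, l6637, l6595, l6634, l6618, l5978, o3906, l2820, o3564, l3308, l5807, l6456, l6448, o8834, l5982, l4534, l2631, l3767, l3762] l6646 := rupP (by decide +kernel)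
theorem r6647 : PImp [l3303, l3100, l4031, o6252, l6163, o2569] l6647 := rupP (by decide +kernel)
theorem r6648 : PImp [o4036, o3907, l6647, l4058, o2569, o6252, o6315] l6648 := rupP (by decide +kernel)
theorem r6649 : PImp [l4066, l4053] l6649 := rupP (by decide +kernel)
theorem r6650 : PImp [l4655, l432, l1254, l1138, l1242, l5113, l5034, l4525, l4086, l6648, o3897, o3891, l6649, l3308, o5915, o6034, l4056, l3043, l3974, o4113, l4985, l713, l4045] l6650 := rupP (by decide +kernel)
theorem r6651 : PImp [l5112, l1360, l1357, l6650, l6566, o3902, l5827, o5929, o6547] l6651 := rupP (by decide +kernel)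
theorem r6652 : PImp [o4036, l5854, l6623, l3303, l6647, o2461, l4027] l6652 := rupP (by decide +kernel)
theorem r6653 : PImp [l4655, l432, l1254, l1138, l1242, o2455, l6624, o5915, l2790] l6653 := rupP (by decide +kernel)
theorem r6654 : PImp [l4655, l432, l1254, l1138, l1242, l4086, l6652, o3906, l6649, l3308, l6653, o2571, l6311, l4056, l5267, o5915, o4035, o6252, o6315] l6654 := rupP (by decide +kernel)
theorem r6655 : PImp [l5112, l1360, l1357, o876, l6651, l1268, l6654, l6566, l6290, l5862, l3079] l6655 := rupP (by decide +kernel)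
theorem r6656 : PImp [l4763, l4655, l432, l5113, l5112, l1357, l1316, o3952, o3946, l5960, l5964, l5046, l5841] l6656 := rupP (by decide +kernel)
theorem r6657 : PImp [l4655, l432, l1254, l5112, l1316, l6656, l5978, l5984] l6657 := rupP (by decide +kernel)
theorem r6658 : PImp [l4655, l428, l5113, l5587, o4458, o4787, l432, o4479, o4807, l433, o4487, o4825, o4812, l5035, l4834, l476, l5112, l1268, l6657, l6595, l6618, l2820, o3564, l6456, o8834, l4872, l2631, o2770, l4848] l6658 := rupP (by decide +kernel)
theorem r6659 : PImp [o6374, l5113, l5587, l476, o5354, l4655, l428, o4458, o4787, l432, o4479, o4816, o4807, l433, o4487, o4825, o4812, l5035, l4834, l1218, l2615, l1254, l5112, l1316, l6646, l6655, l6658, l1245, l6637, l6595, l6634, l6618, l5978, o3906, l2820, o3564, l3308, l5807, l6456, l6448, o8834, l5982, l4534, l2631, l3767, l3762] l6659 := rupP (by decide +kernel)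
theorem r6660 : PImp [l5065, l5047] l6660 := rupP (by decide +kernel)
theorem r6661 : PImp [l5034, l4763, l4655, l432, l5113, l5112, l1357, l1316, o3952, o3946, l5960, l5964, l5047, l4745] l6661 := rupP (by decide +kernel)
theorem r6662 : PImp [l4655, l432, l1254, l5112, l1316, l6637, l1268, l6661, l5978, l5984] l6662 := rupP (by decide +kernel)
theorem r6663 : PImp [l4655, l432, l1254, l5113, l5112, l5035, l2901, l2923, l2929, l6235, l4848, l5831, l3927, l2557, o6644, o9090, l2571] l6663 := rupP (by decide +kernel)
theorem r6664 : PImp [l5113, l6557, l6200, l5587, l2615, l6460, l6560, l6619, l5623, l6325, l2641, l5636, o5339, l5035, l4100, l476, l3935, l4802, l3113, l3338, l4655, l433, o4487, l428, l1218, o2989, l4644, l6253, l2308, o5740, o5407, o5812, o5350, o5354, o4458, o4787, l432, o4479, o4807, o4825, o4812, l4834, l4643, o4498, l3824, l3822, l4796, l4428, l4135, l2640, l3341, l3340, l5112, l2791, o3748, l2581, l2592, l5528, l6323, l6638, o2979, l6642, l6659, l6663, l2820, o3564, l6456, l6448, o8834, l3927, l2631, l4196, l4187] l6664 := rupP (by decide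 +kernel)
theorem r6665 : PImp [l5113, l5587, o5407, o5812, l4655, l428, o4458, o4787, l432, o4479, o4807, l433, o4487, o4825, o4812, l2615, l5112, l5035, l2592, o3749, o2924, l6323, l6663, o3241, o3564, l4848, o8834, l2631] l6665 := rupP (by decide +kernel)
theorem r6666 : PImp [l2632, l2557, o8701, o3824, o9167, o9153] l6666 := rupP (by decide +kernel)
theorem r6667 : PImp [l4655, l428, l6560, l1218, l5113, l6557, l6200, l5587, o5407, l433, o4487, l476, l6325, l3341, l3340, l3338, l3935, l6460, l2615, l5112, l5035, l2641, l4802, l3113, l6619, l5038, l4135, l4428, l4100, l5623, l5636, l4796, l6455, o2989, o5339, l4644, l4834, l6253, o4825, o5812, o5740, l2308, l6664, l6665, l5552, l2709, l6666, l5725, l4848, o8774, o3190] l6667 := rupP (by decide +kernel)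
theorem r6668 : PImp [l4655, l433, l5113, l6200, l5587, o4487, l473, l476, l6325, l3935, l3934, l432, l1254, l5276, l5037, l5039, l5324, l4254, l2704, l2703, l3827, l5314, l2935, o2989, l5952, l4223] l6668 := rupP (by decide +kernel)
theorem r6669 : PImp [l5113, l6200, l5587, l476, l3935, l6325, l4655, l428, l1218, l6668, l2641, l4802, l3113, l433, o4487, l3340, l3338, l432, l1254, l1316, l3827, l2935, l3830, o2989, l5952, l5581, l4800, o5339, l6464, o5812, o5740, l6614] l6669 := rupP (by decide +kernel)
theorem r6670 : PImp [l5623, l5636, l4795] l6670 := rupP (by decide +kernel)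
theorem r6671 : PImp [o4787, o4807, o4836, o4825, o4812, l5112, l5552, l6618, l2820, o3584, l6456, l2556, o8898, o9167] l6671 := rupP (by decide +kernel)
theorem r6672 : PImp [o2732, o2738, l6581, l6583] l6672 := rupP (by decide +kernel)
theorem r6673 : PImp [l6672, l6591, o2745, l1245, l6608] l6673 := rupP (by decide +kernel)
theorem r6674 : PImp [l6200, l5113, l5587, l4655, l432, l1254, l433, o4487, l476, l3935, l6325, l428, l1218, l6668, l2641, l4802, l3827, l2935, o2989, l5581, l4218, l4223, l3830, l2640, l427, l5112, l1357, l3820, l6673, l6566, l6311, l4041, l3303, l3304, l5943, l5847, o3938] l6674 := rupP (by decide +kernel)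
theorem r6675 : PImp [l1316, l5112, l4655, l432, l1254, l5978, l6662, l5027, l5028] l6675 := rupP (by decide +kernel)
theorem r6676 : PImp [l6200, l5113, l5587, l4655, l432, l1254, l433, o4487, l476, l3935, l6325, l428, l1218, l6668, l2641, l4802, l3827, l2935, o2989, l5581, l4218, l3830, o4498, l5112, l1316, l6674, l6606, l5978, l6675, l6595, l3813, l4547, o2749, l2934, o2450, l5957] l6676 := rupP (by decide +kernel)
theorem r6677 : PImp [l5112, l1316, o3907, o3911, l5943, l5956] l6677 := rupP (by decide +kernel)
theorem r6678 : PImp [o3938, o3890, l5814] l6678 := rupP (by decide +kernel)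
theorem r6679 : PImp [l5277, l5275, l6200, l5113, l5587, l6325, l4655, l428, l1218, l6668, l2641, l6670, l432, l1254, l433, o4487, l476, l3935, l4802, l3827, l2935, o2989, l5581, l4218, l4223, l3830, l2640, l427, l5112, l1357, l3820, l6673, l6566, l6311, o2595, l6677, l1267, o2461, l6678, l5943, l4069] l6679 := rupP (by decide +kernel)
theorem r6680 : PImp [l1316, l5112, l4655, l432, l1254, l5277, l5978, l5984, l5027, l1267, o3906, o2461, l6604] l6680 := rupP (by decide +kernel)
theorem r6681 : PImp [l5113, l6557, l6200, l5587, l476, l3935, l6325, l4655, l428, l6560, l1218, l6668, l2641, l4802, l3114, l3113, l3934, l473, l4591, l2568, l4128, o5407, l432, o4479, l433, o4487, o4498, o4458, l430, o4463, l3341, l3340, l3339, l3338, l6460, l2615, l1254, l5112, l1316, l5035, l6667, l6670, l3827, l3850, l2935, l3830, o2989, l5581, l4223, l4218, o5339, l6669, l5952, l4132, l4800, l6464, o4812, o4825, o4807, o5354, o5812, o5740, l2308, l6616, l5277, l6671, l6613, l2820, l6456, l6448, l2629, l2556, l4873, o3076, o3077, o3067, o8701, o8606, o8609, o801, l3129, o5471, o9090,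 l4769, o8891, o9167, l6679, l6606, l5978, l6680, l6595, l3813, l4547, o2749, l2934, o2450, l5957] l6681 := rupP (by decide +kernel)
theorem r6682 : PImp [l1140, l1245] l6682 := rupP (by decide +kernel)
theorem r6683 : PImp [l5034, l6682, l5112, l5942, l6577, l5854, l3303, l4057, l5917, l4031, l6286] l6683 := rupP (by decide +kernel)
theorem r6684 : PImp [l5113, l6557, l6200, l5587, l4655, l432, l1254, l433, o4487, l476, l3935, l6325, l428, l6560, l1218, l6668, l2641, l4802, l3827, l2935, o2989, l5581, o5339, l1316, l3113, l3830, l3338, l4223, l5952, l4800, l6464, o5740, o5407, o5812, o5354, o4479, o4807, o4825, o4812, l2568, o4458, l3340, l6460, l2615, l5112, l5035, l2573, l6613, l2820, l6456, l6448, l2629, l2556, l3797, o3073, o8701, o801, o9090, o8891] l6684 := rupP (by decide +kernel)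
theorem r6685 : PImp [l5113, l5587, l476, o5354, l4655, l428, o4458, o4787, l432, o4479, o4807, l433, o4487, o4836, o4825, o4812, l1218, l5112, l6618, l2820, l6456, l6448, l2629, l2556, l3797, o9167, o3073, o801, o8701] l6685 := rupP (by decide +kernel)
theorem r6686 : PImp [l4655, l427, l1360, o3938, l5854, l6288] l6686 := rupP (by decide +kernel)
theorem r6687 : PImp [l6682, l4655, l428, l1218, l5112, l1360, l6683, l6686, l5943, o3906, l3303, l6301, l5862] l6687 := rupP (by decide +kernel)
theorem r6688 : PImp [l4655, l432, l1254, l5112, l1316, l5978, l5032, l5027] l6688 := rupP (by decide +kernel)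
theorem r6689 : PImp [l4763, l4655, l432, l5113, l5112, l1357, l1316, l5034, l6688, o3952, o3946, l5972, l6632, l4994, l4995] l6689 := rupP (by decide +kernel)
theorem r6690 : PImp [l4655, l428, l5113, l5587, o4458, o4787, l432, o4479, o4807, l433, o4487, o4836, o4825, o4812, l1218, l476, l5112, l6618, l6685, l2820, o3824, l6456, l2629, l2556, o8701, o9090, o801] l6690 := rupP (by decide +kernel)
theorem r6691 : PImp [l6681, l5113, l6557, l6200, l5587, l476, l3935, l6325, l4655, l428, l6560, l1218, l6668, l2641, l4802, l3113, l2568, l2640, o5407, l433, o4487, o4498, l3340, l3338, l6460, l2615, l432, l1254, l5112, l1316, l3827, l2935, l3830, o2989, l5581, l4223, l4218, o5339, l6669, l5952, o3112, l4800, l6464, o5812, o5740, l6616, l5275, l5277, l6684, l6687, l6689, l6690, l6606, l6595, l5978, l3813, l4547, o2749, l2934, o2450, l5957] l6691 := rupP (by decide +kernel)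
theorem r6692 : PImp [l5113, l6557, l6200, l5587, l6325, l4655, l428, l6560, l1218, l6668, l2641, o4498, l6681, l6691, l3218, l3824] l6692 := rupP (by decide +kernel)
theorem r6693 : PImp [o3888, l5852, l3303, l4059, l5917, o2460, l6163] l6693 := rupP (by decide +kernel)
theorem r6694 : PImp [l5112, l2794, l4655, l432, l1254, l1138, l1242, l6693, l2779, l5917, l6311, l4026] l6694 := rupP (by decide +kernel)
theorem r6695 : PImp [l5277, l5275, l4655, l428, l1218, l427, l5112, l1357, l6694, l6566, l6311, l6677, o2595, l1267, l6678, l4038, l5943, l3303] l6695 := rupP (by decide +kernel)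
theorem r6696 : PImp [l1316, l5112, l4655, l432, l1254, l5978, l3308, l5113, l6675, l5027, l5799, l5824] l6696 := rupP (by decide +kernel)
theorem r6697 : PImp [l5277, l5112, l2794, l6606, l2779, l5807, l6696, l4540, l4534] l6697 := rupP (by decide +kernel)
theorem r6698 : PImp [l5854, l3303, l4059, l5917, o2460, l4029] l6698 := rupP (by decide +kernel)
theorem r6699 : PImp [l4655, l432, l1254, l1138, l1242, l6698, l2779, l5917, l6311, l4026] l6699 := rupP (by decide +kernel)
theorem r6700 : PImp [l6692, l5113, l6557, l6200, l5587, l476, l3935, l6325, l4655, l428, l6560, l1218, l6668, l2641, l4802, l3114, l3113, l3934, l473, l4591, l2568, l4128, l2640, o5407, l432, o4479, l433, o4487, o4498, o4458, l430, o4463, l3340, l3339, l3338, l6460, l2615, l1254, l5112, l1316, l5035, l3827, l3850, l6684, l3811, l2935, l3830, o2989, o3047, l3810, l3814, o2749, l2934, o2889, l5581, l4223, l4218, o3043, l2794, l5275, l5277, o5339, l6669, l5952, l4834, o3112, l4130, l4800, o4315, o4329, o4317, l6253, o5354, o5812, o5740, l6690, l5552, l6613, l2820, l6456, l6448, l3797, l6239,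 o3059, l4187, o8609, o5471, l4769, l6697, l6695, l6682, l6699, l6686, o3895, l5943, l5956] l6700 := rupP (by decide +kernel)
theorem r6701 : PImp [l5725, l4848, o8774, o3190] l6701 := rupP (by decide +kernel)
theorem r6702 : PImp [l2592, l6124, l2709, l6666] l6702 := rupP (by decide +kernel)
theorem r6703 : PImp [l5552, l2709, l6666] l6703 := rupP (by decide +kernel)
theorem r6704 : PImp [o6629, o6713] l6704 := rupP (by decide +kernel)
theorem r6705 : PImp [l2615, l4655, l433, l428, l5113, l5112, l5035, l6460, l6557, l3935, l6200, l3338, l3340, l3341, l6325, l5587, l476, o4487, o5407, l6560, l1218, l6668, l2641, l4802, l3113, l6692, l6700, l5038, l4135, l4428, l4100, l5623, l5636, l4796, l6455, o2989, o5339, l4644, l4643, l4834, l6253, o4825, o5812, o5740, l2308, l6701, l6702, l6703, l6704, l6665] l6705 := rupP (by decide +kernel)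
theorem r6706 : PImp [l2615, l2713, o9033, o9122, l4597, l4838, o3838, l3027] l6706 := rupP (by decide +kernel)
theorem r6707 : PImp [l2618, l2617] l6707 := rupP (by decide +kernel)
theorem r6708 : PImp [l6200, l6248, l2936, l6350, l3336, l2935, o5407, l4655, l433, o4487, l428, o4458, l3115, l3223, l3219, l6705, l4084, l5112, l1316, l5035, l2825, o2989, o3043, l1218, l1217, l3856, l4800, l6464, o4836, o5812, l6706] l6708 := rupP (by decide +kernel)
theorem r6709 : PImp [l4029, l4031] l6709 := rupP (by decide +kernel)
theorem r6710 : PImp [o3754, o8065, o7734, o5733] l6710 := rupP (by decide +kernel)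
theorem r6711 : PImp [l6513, o714, o694, o2339, l6710, l6500, o8229, o7734, o5733] l6711 := rupP (by decide +kernel)
theorem r6712 : PImp [l5275, l2658, l2657, l2614, l1360, l1357, l1316, o714, l6513, o688, l1071, o2269, o1452, o1501, o1465, o7895, o5627, o8226, l6711, o2300, l6207, l27, o8150] l6712 := rupP (by decide +kernel)
theorem r6713 : PImp [l3161, l645, l2651, o8201, l6206, o4760] l6713 := rupP (by decide +kernel)
theorem r6714 : PImp [l3223, l1357, l1316, l3161, l2379, l1071, l3864, l5893, o7717, o1501, l3597, l5708, o5287] l6714 := rupP (by decide +kernel)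
theorem r6715 : PImp [l732, l1674] l6715 := rupP (by decide +kernel)
theorem r6716 : PImp [l5277, l6200, l2658, l4655, l6248, o4498, l6712, l4260, o690, l6713, o2257, l1279, o1452, o7959, o8283, o5627] l6716 := rupP (by decide +kernel)
theorem r6717 : PImp [l1360, l1357, l1316, l6513, o688, l1071, o2258, o1452, o7895, o8226, o5627] l6717 := rupP (by decide +kernel)
theorem r6718 : PImp [l5277, l6200, l2658, l4655, l6248, o4498, l2322, l6716, l6717, l4260, o690, l6713, l2283, l1279, o1452, o7959, o8283, o5627] l6718 := rupP (by decide +kernel)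
theorem r6719 : PImp [l6200, l2658, l2327, l6718] l6719 := rupP (by decide +kernel)
theorem r6720 : PImp [l1360, l1357, l1316, o694, o714, l6513, l1071, o1501, o1465, l2314, o8229, o5733, l5708, l6207, o7903] l6720 := rupP (by decide +kernel)
theorem r6721 : PImp [l5277, l6200, l2658, l2657, l4655, l6248, o4498, l2614, l432, l1254, l6719, l4569, l2291, l6720, l4260, o690, l6713, l2283, l1279, o1452, o7959, o5627, o8283, o8126] l6721 := rupP (by decide +kernel)
theorem r6722 : PImp [l3223, l1360, l1357, l1316, l3161, l2379, l1071, l6714, l3864, l5893, o1501, o7885, l3597, l5708, o5287] l6722 := rupP (by decide +kernel)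
theorem r6723 : PImp [l4655, l432, l1254, l1138, l1242, l4204, o714, l6722, l6715, l638, l3537, o7766, l3877, l3878] l6723 := rupP (by decide +kernel)
theorem r6724 : PImp [l3554, l3553] l6724 := rupP (by decide +kernel)
theorem r6725 : PImp [l5277, l5275, l6248, o5339, l6200, l2658, l4655, o4498, l3219, l432, l1254, l5276, l1360, l1357, l6721, l6191, l4260, o690, l6713, l1279, l2651, o1452, o7959, o5269, o5627, l6724, l3157, o8283, o8126] l6725 := rupP (by decide +kernel)
theorem r6726 : PImp [l5034, o3906, l6709, o3897, l3303, l5050, l5070] l6726 := rupP (by decide +kernel)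
theorem r6727 : PImp [l5256, o4278, l6200, l2657, l4655, l6248, o4498, l427, o4452, l3223, l5276, l4204, o694, l6723, o4428, o4430, o4750, o4733, o4734, l638, l2651, o1465, l732, l6565, l2379, l3597, l2492, l2473, l2450, l735, l1104, o8229, o8065] l6727 := rupP (by decide +kernel)
theorem r6728 : PImp [l2327, l2303, l2314, o7997] l6728 := rupP (by decide +kernel)
theorem r6729 : PImp [l3161, l6206, l2653, l2654, l2655, l4670, o5309, o5310, o5311, l6728, l4569, l2313, o2278, o7998, o8164, l2280] l6729 := rupP (by decide +kernel)
theorem r6730 : PImp [l5275, l4655, l5703, l5277, l4209, l4208, l6200, l2658, l6248, l3219, l432, l1254, l1138, l1242, l5113, l5112, l6727, l2477, l4260, o690, o699, o695, l2269, l6729, l6198, l2651, o1452, l1674, l6392, o5627, l3157, l6205, o8283] l6730 := rupP (by decide +kernel)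
theorem r6731 : PImp [l6200, l2657, l4655, l6248, o4498, l427, o4452, l3223, l5276, l1357, l1316, l3161, l2379, l1071, l6722, l3864, o1465, o4428, o4430, o4750, o4733, l3597, l2492, l2473, l2450, l735, o8231, l1104, l733, o8065] l6731 := rupP (by decide +kernel)
theorem r6732 : PImp [l4655, l430, l6248, o4463, l432, l1254, l1138, l1242, l4204, o694, o714, l6731, l6715, l638, l3537, o7766, o4749, l3877, l3878] l6732 := rupP (by decide +kernel)
theorem r6733 : PImp [l5113, l5112, l2303, o3677, o7997, o8087, l1104] l6733 := rupP (by decide +kernel)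
theorem r6734 : PImp [l6248, l6200, l5112, l3161, l6206, l2653, l2654, l2655, l4670, o5309, o5310, o5311, l6733, l4569, l2313, o2278, o7998, o8164, l2280] l6734 := rupP (by decide +kernel)
theorem r6735 : PImp [l5277, l5275, l6200, l2935, l2936, l6248, l6350, l6212, l6184, l4655, l433, o4487, l3219, l4903, l2675, l2674, l3501, l3497, l3509, l4800, o5332, l4209, l3481, o5339, l5730, l4208, l2673, l2658, l4902, o5407, l2614, l432, l1254, l1138, l1242, l5113, l4768, l4769, l4777, l6725, o3459, o3438, o3756, o3031, o3036, l5703, l6730, l6732, l2477, l4260, o690, o699, o695, l2269, l6734, l6198, l2651, o1452, l1674, l6392, o5627, l3157, l6205, o8283] l6735 := rupP (by decide +kernel)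
theorem r6736 : PImp [l3762, l3760] l6736 := rupP (by decide +kernel)
theorem r6737 : PImp [o3651, l5708, o5285, o5287, o5733, o5731, l3597, l2492, l2473, l2450, l735, l1104, o8229, o8065] l6737 := rupP (by decide +kernel)
theorem r6738 : PImp [l2327, o8676] l6738 := rupP (by decide +kernel)
theorem r6739 : PImp [l5275, l6200, l2657, l6248, o5407, l3223, l5276, l1357, l1316, o694, o714, l6513, l6720, l3161, l2379, l1071, o3754, l2651, o1501, o1465, l6737] l6739 := rupP (by decide +kernel)
theorem r6740 : PImp [l645, o7867, o8201] l6740 := rupP (by decide +kernel)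
theorem r6741 : PImp [l5277, l6200, l2658, l4655, l432, l1254, l6738, l6739, o690, l6740, l1279, l2283, o1452, o7959, o5627, o8283, o8126] l6741 := rupP (by decide +kernel)
theorem r6742 : PImp [l5277, l5275, l6248, o5339, l6200, l2658, l3219, l4655, l432, l1254, l5276, l1360, l1357, l6741, l6191, l4260, o690, l6740, l1279, l2651, o1452, o7959, o5269, o5627, l6724, l3157, o8283, o8126] l6742 := rupP (by decide +kernel)
theorem r6743 : PImp [l4655, l6248, o4498, l6200, l4204, l6727, o4760, l638, l2651, l6565, l4923] l6743 := rupP (by decide +kernel)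
theorem r6744 : PImp [l2651, o8038, l4453, o4760] l6744 := rupP (by decide +kernel)
theorem r6745 : PImp [l3223, l3161, l2379, o2278, l2314, l6744, l2448, o1473, l2305, l4582, l737, o5300, o8164, o7997, l733] l6745 := rupP (by decide +kernel)
theorem r6746 : PImp [l4209, l4208, l6200, l2658, l3933, l4655, l6248, o4498, l476, l432, l1254, l1138, l1242, l5113, l5112, l6738, l6743, l2477, l4260, o690, o699, l2269, l6745, l6198, l2283, o1452, l1674, l6197, o5627, o8283] l6746 := rupP (by decide +kernel)
theorem r6747 : PImp [l4655, l6248, o4498, l6200, l4204, l6732, o4760, l638, l2651, l6565, l4923] l6747 := rupP (by decide +kernel)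
theorem r6748 : PImp [l2269, o699, l4655, l6248, o4498, l476, l6200, l3223, l5112, l3161, l2379, l6745, l6744, o8676, l2448, o1473, l2305, l4582, o5302, o5300, l6733] l6748 := rupP (by decide +kernel)
theorem r6749 : PImp [l5277, l5275, l6200, l2935, l2936, l6248, l6350, l6212, l6184, l4655, l433, o4487, l3219, l4903, l2675, l2674, l3501, l3497, l3509, l4800, o5332, l4209, l3481, o5339, l5730, l4208, l2673, l2658, l3933, l4902, l2614, l432, l1254, l1138, l1242, l5113, l6339, l6735, l6736, l4769, l4777, l6742, o3459, o3438, o3756, o3031, o3036, l6746, l6747, l2477, l4260, o690, l6748, l6198, l2651, o1452, l1674, o5269, o5627, l6724, l3157, l6205, o8283] l6749 := rupP (by decide +kernel)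
theorem r6750 : PImp [l5275, l6200, l2657, l6248, o5407, l3223, l5276, l1357, l1316, o694, o714, l6513, l3161, l2379, l736, l2314, l2651, o1501, o1465, l6737, o3754, l6511, l18, l6207] l6750 := rupP (by decide +kernel)
theorem r6751 : PImp [l1279, o7959, o8322] l6751 := rupP (by decide +kernel)
theorem r6752 : PImp [l6713, l6740] l6752 := rupP (by decide +kernel)
theorem r6753 : PImp [l4260, l6751, l6752] l6753 := rupP (by decide +kernel)
theorem r6754 : PImp [l5277, l5275, l6200, l2658, l4655, l6248, o4498, l432, l1254, l5276, l1360, l1357, l6753, l6191, l6750, l6738] l6754 := rupP (by decide +kernel)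
theorem r6755 : PImp [l3223, l3161, l2379, l3865, l2611, l3536, l6737] l6755 := rupP (by decide +kernel)
theorem r6756 : PImp [l5256, l6248, o5407, l4655, l432, l1254, l1138, l1242, l5276, o4278, l6755, l6715, l638, l3537, o7766, l3877, l3878] l6756 := rupP (by decide +kernel)
theorem r6757 : PImp [o4760, l638, l2651, l6565, l4923] l6757 := rupP (by decide +kernel)
theorem r6758 : PImp [l3223, l3161, l2379, l3865, l2611, l3536, l5708, o5285, o5287, o5733, o5731, l3597, l2492, l2473, l2450, l735, o8231, l1104, l733, o8065] l6758 := rupP (by decide +kernel)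
theorem r6759 : PImp [l6248, o5407, l4655, o4498, l430, o4463, l6200, l432, l1254, l1138, l1242, l5276, l4204, o694, o714, l6757, l6756, l6758, l6715, l638, l3537, o7766, o4749, l3877, l3878] l6759 := rupP (by decide +kernel)
theorem r6760 : PImp [l5277, l5275, l6200, l2935, l2936, l6248, l6350, l6212, l6184, l4655, l433, o4487, l3219, l4903, l2675, l2674, l3501, l3497, l3509, l4800, o5332, l4209, l3481, o5339, l5730, l4208, l2673, l2658, l3933, l4902, l2614, l432, l1254, l1138, l1242, l5113, l3415, l4777, l4769, l6754, o3459, o3438, o3756, o3031, o3036, l6759, l2477, l4260, o690, l6748, l6198, l2651, o1452, l1674, o5269, o5627, l6724, l3157, l6205, o8283] l6760 := rupP (by decide +kernel)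
theorem r6761 : PImp [l5035, l4848, l6736, o3233, l6354, l4863, o3217] l6761 := rupP (by decide +kernel)
theorem r6762 : PImp [l6248, o5407, l6200, l2614, l6725, l6742] l6762 := rupP (by decide +kernel)
theorem r6763 : PImp [l6747, l6743] l6763 := rupP (by decide +kernel)
theorem r6764 : PImp [l1138, l1242, o1452, l1674, l6196, o5627, o8283] l6764 := rupP (by decide +kernel)
theorem r6765 : PImp [l1138, l1242, l2651, l1674, l6764, o5269, l3156, l6724] l6765 := rupP (by decide +kernel)
theorem r6766 : PImp [l5277, l5275, l6200, l2935, l2936, l6248, l6350, l6212, l6184, l4655, l433, o4487, l3219, l4903, l2675, l2674, l3501, l3497, l3509, l4800, o5332, l4209, l3481, o5339, l5730, l4208, l2673, l2658, l3933, l4902, o4498, l476, l2614, l3223, l432, l1254, l5113, l6749, l6762, o3459, o3438, o3756, o3031, o3036, l6763, l2477, l4260, o690, l6748, l6765, l3537, o8084, o5308, o4760, l4670, l3874] l6766 := rupP (by decide +kernel)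
theorem r6767 : PImp [l5277, l5275, l6200, l2935, l2936, l6248, l6350, l6212, l6184, l4655, l433, o4487, l3219, l4903, l2675, l2674, l3501, l3497, l3509, l4800, o5332, l4209, l3481, o5339, l5730, l4208, l2673, l2658, l3933, l4902, o4498, l476, l2614, l3223, l432, l1254, l5113, l5112, l6761, l3415, l4777, l4769, l6766, l6760, l6754, o3459, o3438, o3756, o3031, o3036, l6759, l2477, l4260, o690, l6748, l6765, l3537, o8084, o5308, o4760, l4670, l3874] l6767 := rupP (by decide +kernel)
theorem r6768 : PImp [l5275, l6200, l2658, l4655, l432, l1254, l5276, l1360, l1357, l6191, l6738, l6739] l6768 := rupP (by decide +kernel)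
theorem r6769 : PImp [l4655, l2960, l4453, l3597, o4448] l6769 := rupP (by decide +kernel)
theorem r6770 : PImp [l6200, l6248, l2936, l6350, l2658, l1360, l3161, l645, l2651, o1452, l6769, o3037, l4456, l4454, l1681, o5627, o8283, o8200] l6770 := rupP (by decide +kernel)
theorem r6771 : PImp [o8283, o8126] l6771 := rupP (by decide +kernel)
theorem r6772 : PImp [l5277, l6200, l2935, l2936, l6184, l6248, l2675, l2674, l3501, l3497, l3509, l3219, l6350, l4800, o5332, o5339, l2673, l2658, l3223, l4655, l432, l1254, l6768, l2477, l4260, o690, l6770, l1279, l2651, o1452, o7959, o5269, o5627, l6771, l3156, o8200, l3553, o3449] l6772 := rupP (by decide +kernel)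
theorem r6773 : PImp [l6200, l3223, l4655, l432, l1254, l2651, l6764, l6769, l3156] l6773 := rupP (by decide +kernel)
theorem r6774 : PImp [l5277, l5275, l6200, l2935, l2936, l6248, l6350, l6212, l6184, l4655, l433, o4487, l3219, l4903, l2675, l2674, l3501, l3509, l4800, o5332, l4209, l3481, o5339, l5730, l4208, l2658, l3933, l4902, o4498, l476, l5113, l4777, l4769, l6772, o3459, o3438, o3756, o3031, o3036, l6763, l2477, l4260, o690, l6748, l6773, l3537, l6198, o8084, o5308, o4760, l4670, l3874] l6774 := rupP (by decide +kernel)
theorem r6775 : PImp [l6248, l3219, l4655, l432, l1254, l1138, l1242, o2938, l6769, l3157, l3547, l6771, o5323] l6775 := rupP (by decide +kernel)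
theorem r6776 : PImp [l4456, l3235, o4266, o4269, l5893, l4466, o7856, o2720] l6776 := rupP (by decide +kernel)
theorem r6777 : PImp [l5277, l5275, l6200, l2935, l2936, l6184, l6248, l2675, l2674, l3501, l3497, l3509, l3219, l6350, l4800, o5332, l2673, l2658, l4655, l432, l1254, l5276, l1360, l1357, l1316, l6191, l2477, l4260, o690, l6770, l1279, l2651, o1452, l6775, l6776, l5686, l4451, l6772, l4448] l6777 := rupP (by decide +kernel)
theorem r6778 : PImp [l2651, o1501, l6715, l6565, l5708, l2379, l4923, o5287, o4266, l3597, l1446] l6778 := rupP (by decide +kernel)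
theorem r6779 : PImp [o8572, o7684] l6779 := rupP (by decide +kernel)
theorem r6780 : PImp [l6192, o8110] l6780 := rupP (by decide +kernel)
theorem r6781 : PImp [l6200, l3223, l4655, l432, l1254, l1138, l1242, l4204, o714, l6763, l6778, l3537, l6780, l3161, l3869, l3864] l6781 := rupP (by decide +kernel)
theorem r6782 : PImp [l5277, l5275, o3103, l6200, l2935, l2936, l6248, l6350, l6212, l6184, l4655, l433, o4487, l3219, l4903, l2675, l2674, l3501, l3509, l4800, o5332, l4209, l3481, o5339, l5730, l4208, l2658, l3933, l4902, l5113, l5112, l5035, l6339, l6774, l4848, l4788, l4768, o3176, l2899, o2790, l3137, l4187, l2794, l6777, o3459, o3438, o3756, o3031, o3036, o3003, l6781, l2477, l4260, o690, l6748, l6773, l6198] l6782 := rupP (by decide +kernel)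
theorem r6783 : PImp [l5275, l5276, l4655, l432, l1254, l1357, l1360, l6191, l3415, l4777, l4769, l6750] l6783 := rupP (by decide +kernel)
theorem r6784 : PImp [l5275, l6200, l2658, l4655, l432, l1254, l5276, l5112, l1360, l1357, l5035, l6191, l6738, l6783, l4848, o3233, o3223, l4863, l4788, l3137] l6784 := rupP (by decide +kernel)
theorem r6785 : PImp [l3415, l4777] l6785 := rupP (by decide +kernel)
theorem r6786 : PImp [l5275, o3103, l6200, l2935, l2936, l6248, l6350, l6212, l6184, l4655, l433, o4487, l3219, l4903, l2675, l2674, l3501, l3497, l3509, l4209, l3481, o5339, l4208, l2673, l2614, l3223, l432, l1254, l1138, l1242, l5112, l5035, l4204, o714, l6784, o3459, o3438, o3756, o3031, o3036, o3729, l6759, l6785, l4848, l2899, o3157, l2794, l6778, l3537, l6780, l3161, l3865, l3869] l6786 := rupP (by decide +kernel)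
theorem r6787 : PImp [l6200, l6248, l2936, l6350, l2658, l2657, l4655, o4498, l430, o4463, l427, o4452, l476, l6770, l1279, l6751, l2651, o1452, o1465, o8322, l6775, o4734, o5308, o4760, o4743, o4749, o5636, o5646, o3035, l5686, l6231, l4454, o7961, l4466, l5873, l2285, l2309, o3023, l2450, o7871] l6787 := rupP (by decide +kernel)
theorem r6788 : PImp [l5277, l6200, l2935, l2936, l6248, l6350, l6212, l6184, l4655, l433, o4487, l3219, l4903, l2675, l2674, l3501, l3509, l4800, o5332, l4209, l3481, o5339, l5730, l4208, l2658, l3933, l4902, o4498, l476, l2614, l5113, l6767, l6782, l6786, l2477, l4260, o690, o699, l2269, l6787, o3438, o3036, l6748, l6773, l3537, l6198, o8084, o5308, o4760, l4670, l3874] l6788 := rupP (by decide +kernel)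
theorem r6789 : PImp [l4777, l4769, l6768] l6789 := rupP (by decide +kernel)
theorem r6790 : PImp [l5275, l5276, l6248, l6200, l2675, l2673, l4655, l432, l1254, l1357, l1360, l6191, l5277, l6350, l6339, l6789, l6736, l4788, l3137] l6790 := rupP (by decide +kernel)
theorem r6791 : PImp [l5275, l6248, l6200, l2675, l2673, l6350, l2658, l4655, l432, l1254, l5276, l5112, l1360, l1357, l6191, l6738, l6790, l6784, l6783, l6761] l6791 := rupP (by decide +kernel)
theorem r6792 : PImp [l2657, l4655, l432, l1254, l1138, l1242, l5276, l2651, o1501, o1465, l6715, l6565, l5708, l2379, o5285, o5287, o5733, o5731, l6737, l3597, l2492, l2473, l2450, l735, o8231, l1104, l733, o8065] l6792 := rupP (by decide +kernel)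
theorem r6793 : PImp [l4286, l4668] l6793 := rupP (by decide +kernel)
theorem r6794 : PImp [l1357, l1316, l6757, l6792, l3537, l1071, l638, o7766, o5317, l3866, l6793] l6794 := rupP (by decide +kernel)
theorem r6795 : PImp [l4655, l432, l1254, l1138, l1242, l1316, l2651, o1501, l6715, l6565, l4923, l5708, l2379, o4266, o5287, l5893, o7717, l3597] l6795 := rupP (by decide +kernel)
theorem r6796 : PImp [o3438, l6200, l6248, l6350, l3933, l2675, o5407, l4655, o4498, l476, l3223, l432, l1254, l1138, l1242, l5112, l1316, l5035, l6339, l6794, l6785, l4848, l6736, l2899, o3157, l2794, l6795, l2448, l3537, l6780, l3161, l2379, l3869, l5893, o4266] l6796 := rupP (by decide +kernel)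
theorem r6797 : PImp [l6757, l6792, l3537, l3865, l3866, l4272, l4267] l6797 := rupP (by decide +kernel)
theorem r6798 : PImp [l2313, o2278, o8066, o8182, l2278, l2280] l6798 := rupP (by decide +kernel)
theorem r6799 : PImp [l2658, l2657, l4655, l432, l1254, l1138, l1242, l1357, l2651, o1501, o1465, l6715, l6565, l4923, l5708, l2379, o4266, o4268, o5287, o5289, o5733, o5732, o5731, l3597, l3564, l2473, l2474, o7717, l3907, l2646, l3574, l6798, o8676, l2303, o3677, o8065, o8113, l1104] l6799 := rupP (by decide +kernel)
theorem r6800 : PImp [l5277, l5275, o3103, o3102, l6200, l2935, l2936, l6248, l6350, l6212, l6184, l4655, l433, o4487, l3219, l4903, l2675, l2674, l3501, l3497, l3509, l4209, l3481, o5339, l4208, o5407, o4498, l3223, l432, l1254, l1138, l1242, l5112, l5035, l4204, o694, o714, l6791, o3459, l2852, o3438, o3756, o3036, o3726, o3729, l6796, l6797, l6785, l4848, l6761, l2899, o3158, o3157, l2794, l6799, l3537, l6780, l3161, l3865, l3869] l6800 := rupP (by decide +kernel)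
theorem r6801 : PImp [l6761, l6752, l4769, l6532] l6801 := rupP (by decide +kernel)
theorem r6802 : PImp [l6248, o5332, l6200, l2936, l6350, l2658, l3219, l3161, l3171, o2314, l645, l2651, o1452, o1494, l6769, o3037, l4456, l4454, o7867, o5269, o5259, o5256, o5627, l3553, l3564, o8200, o3456, o3537, l4289, o2260, o7875, l3574, l2313, o5702, o8204] l6802 := rupP (by decide +kernel)
theorem r6803 : PImp [l4655, l6248, o4498, l430, o4463, l476, l6200, l5112, l2660, l6801, l6802, l6532, l1279, o8284, l4769, l2651, o1494, o5308, o4743, o4749, o5694, l3760, l4768, l6231, l4466, l3125, o3159, o7875] l6803 := rupP (by decide +kernel)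
theorem r6804 : PImp [l6435, l627] l6804 := rupP (by decide +kernel)
theorem r6805 : PImp [l6248, l6200, l3219, l4655, l432, l1254, l1138, l1242, l2651, o1465, l6769, l3157, l3159, l3591, l6196, o5311, o3664, o8128, o3670] l6805 := rupP (by decide +kernel)
theorem r6806 : PImp [l6200, l6248, l2936, l6350, l4655, l433, o4487, l3219, l4903, l2675, l4129, l5277, l2935, l6212, l6184, l4800, o5332, l4128, l3337, l5112, o3102, o8609, o5760, l6804, l3394, o5471, l2674, l3501, l3509, l4209, l3481, o5339, l5730, l4208, l2658, l2657, l3933, l4902, o4498, l476, l2614, l5113, l6788, l6800, l2477, l4260, l4280, o690, o726, o695, l2269, l6803, o3438, o3036, l6748, l6805, l3537, l6198, o8084, o5308, o4760, l4670, l3874] l6806 := rupP (by decide +kernel)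
theorem r6807 : PImp [o714, o694, l5275, l6200, l2658, l2657, l6248, o5407, l3223, l4655, l432, l1254, l5276, l1360, l1357, l1316, l6191, l6513, l6738, l3161, l2379, l736, l2314, l2651, o1501, o1465, l6737, o3754, l6511, l6207, l622] l6807 := rupP (by decide +kernel)
theorem r6808 : PImp [o7684, o8015] l6808 := rupP (by decide +kernel)
theorem r6809 : PImp [l4266, l4271] l6809 := rupP (by decide +kernel)
theorem r6810 : PImp [l6808, l6809, l3157, l3870, l3866, o7766, o5627, o8346, o8109] l6810 := rupP (by decide +kernel)
theorem r6811 : PImp [l3161, o8015, l3865, o4760] l6811 := rupP (by decide +kernel)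
theorem r6812 : PImp [l3865, l4271, o4450] l6812 := rupP (by decide +kernel)
theorem r6813 : PImp [l5275, l6200, l2935, l2936, l6248, l6350, l6212, l6184, l4655, l433, o4487, l3219, l4903, l2675, l2674, l3501, l3497, l3509, l4800, o5332, l4209, l3481, o5339, l4208, l2673, l2657, o5407, o4498, l3223, l4204, o694, o714, o688, l6807, o3459, o3438, o3756, o3036, l6792, l3537, o1454, l6810, l6811, l6812, l3157, l3870, l3866, o7766, o5627, o8346, o8109] l6813 := rupP (by decide +kernel)
theorem r6814 : PImp [l4655, l6248, o4498, l6200, l6752, l6802] l6814 := rupP (by decide +kernel)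
theorem r6815 : PImp [l6200, l6248, l2936, l6350, l3394, o5332, l2658, l3223, l4655, l432, l1254, l6803, l6814, l1279, o7959, l2651, o1452, o5269, o5627, l6775, l6771, o3037, l3156, o8200, l6724] l6815 := rupP (by decide +kernel)
theorem r6816 : PImp [l6200, l2935, l2936, l6248, l6350, l5113, l6705, l3219, l4655, l433, o4487, l4902, l6707, l6708, l6212, l6184, l4903, l2675, l2674, l3501, l3509, l4800, o5332, l4209, l4130, l3481, o5339, l5730, l2713, l4208, l4128, l4129, l3337, l3336, l2658, l2657, l3933, l4082, l432, o4479, o4498, l476, l2614, l3119, l3116, l3115, l4084, l2615, l5112, l5035, o9033, o9122, o8935, l4597, l2544, o3838, l2545, l6451, o4825, o4836, o4816, o5354, o8774, l4838, o3853, o2912, o3102, l5277, o8609, o5471, o5760, l6804, l3394, l6806, l4778, l4777, l4769, l6813, l2477, l4260, l4280, o690, o726, o695, l2269, l6815, o3438, o3036, l6748, l6805, l3537, l6198, o8084, o5308, o4760, l4670, l3874] l6816 := rupP (by decide +kernel)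
theorem r6817 : PImp [l6248, o5407, l4655, l433, o4487, l3115, l6200, l3219, l6705, l5113, l2936, l2935, l4902, l6350, l3336, l6707, l6708, l6212, l6184, l4130, l4800, l6816, o5812, l626, l6451, l2809] l6817 := rupP (by decide +kernel)
theorem r6818 : PImp [l476, l3219, l6350, l5467, l5175, l3530] l6818 := rupP (by decide +kernel)
theorem r6819 : PImp [l4597, l2708, l2555, l2617, o8839] l6819 := rupP (by decide +kernel)
theorem r6820 : PImp [l4236, o772, l6511, l6253, o3029, l4646] l6820 := rupP (by decide +kernel)
theorem r6821 : PImp [l6200, l6248, l6818, l3336, o5407, l2614, l3115, l5113, l5112, l2791, l2708, l6819, o8779, o8839, l6707, l5710, o6690, o5511, o5812, o6410, l5721, l6253, l4163] l6821 := rupP (by decide +kernel)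
theorem r6822 : PImp [l4236, o771, o772, o8350, l6253, o3081, l4646] l6822 := rupP (by decide +kernel)
theorem r6823 : PImp [l2808, l6248, l5112, l3374, o5380, l4655, l432, l1254, l1138, o5193, l2909, l2895, l6705, l4082, l6200, l6818, l3336, l2658, l3933, o5407, o4479, l3119, l3118, l3115, l3219, l4084, l2615, l5113, l4129, l2674, l627, l3394, l3464, o1545, l4780, l3216, l6821, l2618, l2544, l2713, o9033, o5811, o5812, l6822, l4209, l3836, o3096, l3838, l668] l6823 := rupP (by decide +kernel)
theorem r6824 : PImp [l2895, l6705, l4082, l6200, l6248, l6818, l3336, l3933, o5407, l4655, l432, o4479, l473, l2614, l3115, l3223, l3219, l4084, l2615, l1254, l5113, l5112, l6823, l5039, l2672, l2703, l3836, l6707, l2942, o3096, l2713, l4245, l668, l4248, o5812, l6341, o9122, l2544, l6819] l6824 := rupP (by decide +kernel)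
theorem r6825 : PImp [o9153, o9122] l6825 := rupP (by decide +kernel)
theorem r6826 : PImp [l6200, l3223, l1360, l1357, l1316, l3161, l2379, l736, o2339, l2651, o1501, o7903, l4925, o5287, o4266, l3598, o7835, o7885] l6826 := rupP (by decide +kernel)
theorem r6827 : PImp [l2846, l6200, l6248, l6818, l3219, l4655, l432, o4479, l1254, l2943, l3836, l5467, l3505, l5112, l3512, l5245, l2958, l2845, l1357, o3391, o2970, o3414, o2947, o3690, o3739, l6826, l6517, l6226, l3537, o8651, o5269, l4273, l3871, l3861] l6827 := rupP (by decide +kernel)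
theorem r6828 : PImp [o8829, o8064] l6828 := rupP (by decide +kernel)
theorem r6829 : PImp [l3161, l6828, l3537, l638, l6808, o4760, l6811, l3862] l6829 := rupP (by decide +kernel)
theorem r6830 : PImp [l5112, l6248, o5407, o3825, o8612, l6200, l2846, l6818, l3219, l4655, l432, o4479, l1254, l2943, l3836, l5467, l3505, l3494, l1360, l2845, l3484, l5732, l5175, l476, l4666, l6249, l6247, o4498, l1138, l1242, l4204, o714, l6827, l6829, l6715, o8110, o7766] l6830 := rupP (by decide +kernel)
theorem r6831 : PImp [l2651, o8201, l4454, o4760] l6831 := rupP (by decide +kernel)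
theorem r6832 : PImp [l3933, l3223, l3161, l2379, l6831, l2448, l3537, l5873, l4649, o4266] l6832 := rupP (by decide +kernel)
theorem r6833 : PImp [l2651, o1452, o7959, o5269, l2293, o8284, l3554, l6771, l3157] l6833 := rupP (by decide +kernel)
theorem r6834 : PImp [l3235, l4649, l5873, o4266] l6834 := rupP (by decide +kernel)
theorem r6835 : PImp [l6200, l6248, l6818, l3219, l4655, l432, o4479, l1254, l2943, l3836, l4260, l5175, l2477, l2846, l5467, l3505, l5112, l3512, l5245, l476, l2848, l4664, l4662, o5333, o5339, l2845, l2658, l2657, l3933, o4498, l5113, o3391, o2970, o3414, l6832, l6833, l2448, l3537, l2295, o1454, o7918, o1473, l2293, o5632, l6834, l3157, l3162, l3163, l3164, l3180, o8248, o8085, o5309, o3663, o3676, l678, o8087] l6835 := rupP (by decide +kernel)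
theorem r6836 : PImp [l4655, l432, l1254, l2959, o2969, l5703, l6206, l3557, o5320, o8126, o8037] l6836 := rupP (by decide +kernel)
theorem r6837 : PImp [l6200, l6248, l6818, l3219, l4655, l432, o4479, l1254, l2943, l3836, l2846, l5467, l3505, l3512, l5175, l476, l4666, l2658, o4498, l2651, o1452, l6836, l4454, o4448, o4761, l3598, o3390, o8126, o8037] l6837 := rupP (by decide +kernel)
theorem r6838 : PImp [l2846, l6200, l6248, l6818, l3219, l4655, l432, o4479, l1254, l2943, l3836, l5467, l3505, l5112, l3512, l5245, l5175, l476, l2848, l4664, l4662, l3933, l3223, l3161, l2379, l6837, l2448, l3537, l5873, l6834, o4266, l2961] l6838 := rupP (by decide +kernel)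
theorem r6839 : PImp [l6248, l2846, l6200, l6818, l3219, l4655, l432, o4479, l1254, l2943, l3836, l5467, l3505, o5333, l4209, l5175, l4208, l1360, l2845, l3484, l6221, l6249, l2658, l1138, l1242, l5113, o8656, l6830, o692, l2477, l4260, l4280, o690, o699, o695, l6835, l6838, l6198, l2651, o7785, l6837, o5269, l3157, l6764, l6196, l3555, o3413] l6839 := rupP (by decide +kernel)
theorem r6840 : PImp [l2846, l6200, l6248, l6818, l3219, l4655, l432, o4479, l1254, l2943, l3836, l5467, l3505, l5112, l3512, l5245, l6247, l2958, o4498, l6829, o3391, o2970, o2947, o3712, l6826] l6840 := rupP (by decide +kernel)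
theorem r6841 : PImp [l1357, l1316, l4268, l4273] l6841 := rupP (by decide +kernel)
theorem r6842 : PImp [o4450, l3871, l4274] l6842 := rupP (by decide +kernel)
theorem r6843 : PImp [l3933, l4655, l432, l1254, l1138, l1242, l5112, o2970, o3414, o2952, o2947, l6226, l2448, l3537, l6841, l6842, l3868, o4266, o4269, l3895, o7933, l5871] l6843 := rupP (by decide +kernel)
theorem r6844 : PImp [l2846, l6200, l6248, l6818, l3219, l4655, l432, o4479, l1254, l2943, l3836, l5467, l3505, l5112, l3512, l5245, l3494, l1360, l2845, l5732, l6221, l5175, l476, l4666, l6249, l6247, l2958, l2948, l1138, l1242, l4204, o714, l6840, l6843, l6715, l638, o7766] l6844 := rupP (by decide +kernel)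
theorem r6845 : PImp [l3161, l4655, l6248, o4498, l6200, l432, l1254, l1138, l1242, l2651, l6537, o8038, l6769, l4454, o4760] l6845 := rupP (by decide +kernel)
theorem r6846 : PImp [l6200, l6248, l6818, l3933, l3223, l5112, l3161, l2379, l6845, l2448, l3537, l5873, l6834, o4266, l2961] l6846 := rupP (by decide +kernel)
theorem r6847 : PImp [l6817, l6705, l4082, l6200, l6248, l6818, l3336, l2658, o5407, l4655, l432, o4479, l433, o4487, l476, l2614, l3118, l3117, l3115, l3112, l3223, l3219, l4084, l2615, l1254, l1138, l1242, l5113, l5112, l1360, l5035, l2909, l6824, l2846, l2845, l2943, l5467, l5175, l6249, l2848, l6221, l3484, l3836, l3505, l4208, o5339, l4132, l4130, l4209, l4664, o5333, l3512, l6253, l4662, l5245, o5364, o4825, o4816, o5812, o5740, l2308, l5707, l5725, l5710, l4862, l2661, l2662, l6825, o3582, o9033, l3426, l2713, l4183, l3439, l3427, l6216, l6223, o8679, l6839, o2403, o3824, l6844, o692, l2477, l4260, o690, o699, o695, l6835, l6846, l6198, l2651, o7785, l6765, o5269, l6724, l3157, l3555, l6196, o3405] l6847 := rupP (by decide +kernel)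
theorem r6848 : PImp [l4129, l1357, l1360, l1316, l736, o7895, l750, l4130, l4209, o8774, l6820] l6848 := rupP (by decide +kernel)
theorem r6849 : PImp [l4208, o3838, l1357, l1360, l1316, l736, o7895, l750, l6200, l6248, l6818, l3336, l2658, l2657, l4655, l432, o4479, l3115, l3219, l1254, l5112, o3464, l3484, o3414, o3749, o3572, o5339, o3649, o8612, l2327, o2339, l2314, l6848, l3836, l2942, l3837, l3838, o3111, l4245, l6347, l4243] l6849 := rupP (by decide +kernel)
theorem r6850 : PImp [l1357, l1360, l1316, l736, o7895, l750, o1465, o1501, o714, l5276, o3457, o3649, o8229, l6511, o5733, o7985] l6850 := rupP (by decide +kernel)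
theorem r6851 : PImp [l2514, l2513, l3927, l3216, l4655, l432, l1254, l1138, l1242, l5102, l3236, l6427, l2512, l2511, l4129, l2820, o5407, l5276, l5112, l1360, l5035, l4773, o5193, o5483, l3763, o8658, o3083, o3695, o8801, o3175, o3725, l6428, o6644, o8229, l6422, o5733, l6737, o7903, o8001] l6851 := rupP (by decide +kernel)
theorem r6852 : PImp [l1360, l1316, l1357, l736, o7895, o5257, l3161, l6200, l2651, l3564, l4283, l2660, l6248, l6818, l2658, l750, o5339, l6738, l2314, l2313, o5256, l5275, l4655, l430, l4970, l2657, o1465, o1501, l3223, l2379, l3219, l3171, o714, o5407, l4809, l3574, l6851, l4769, l6807, l44, o8230, o5732, l6207, o8255, o7903] l6852 := rupP (by decide +kernel)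
theorem r6853 : PImp [l6705, l5113, l6200, l2614, l6248, o5407, l4082, l6819, l2618, l2713, l1357, l1360, l1316, l736, o7895, l750, l6818, l2657, o1465, o1501, l6817, o2965, o714, l4204, l6847, l2820, l3336, l2658, l4655, l432, o4479, l428, o4458, l476, l3119, l3115, l3219, l4084, l2615, l1254, l1138, l1242, l430, l5112, l5035, l4970, l2672, l6425, l4129, l2674, l2673, l4208, l2511, l2512, l5102, l3236, l3105, l3106, l6849, l390, o2883, l6212, l3479, l5277, l6184, l5256, l6427, o5339, l4834, l4130, l4209, l4259, l4800, l3501, o4324, o4334, l6738, l6253, l3509, l3497, l6701, l2314, o4807, o4816, o4787, o5354, o5812, o8774, l3216, o8935, o3853, l6448, l3927, l2660, l2513, l2514, l6850, l376, l6852, l6785, l5719, o5193, o5483, l3763, o8658, o3083, o3695, o8801, o3175, o3725, l6428, o6644, o8229, l6422, o5733, l5708, o7903, o8001] l6853 := rupP (by decide +kernel)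
theorem r6854 : PImp [l5035, l6338, l4838, l4834] l6854 := rupP (by decide +kernel)
theorem r6855 : PImp [l6200, l6248, l6818, l3933, l4655, l427, o4452, l3223, l432, l1254, l6849, o2977, o6639] l6855 := rupP (by decide +kernel)
theorem r6856 : PImp [o8063, o8226] l6856 := rupP (by decide +kernel)
theorem r6857 : PImp [l1360, l1316, l1357, l736, o7895, o5257, l3161, l6200, l2651, l3564, l4283, l2660, l6248, l6818, l2658, l750, l476, l2734, l6738, l2314, l2313, o5256, l482, l5039, l5275, l2657, o1465, o1501, l3223, l2379, l3219, l3171, o714, o5407, l6851, l4809, l4769, l3574, l6807, l44, o8380, o8230, o2300, o5732, l6207] l6857 := rupP (by decide +kernel)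
theorem r6858 : PImp [l1357, l1360, l1316, l736, o7895, l750, l6200, l6248, l6818, l2657, o1465, l2614, o1501, l2658, o1452, l6817, o2965, l6705, l4082, o714, l4204, l6847, l2820, l3336, o5407, l4655, l432, o4479, l428, o4458, l476, l3119, l3115, l3219, l4084, l2615, l1254, l1138, l1242, l5113, l5112, l5035, l6819, l2618, o3838, l2713, l6853, l6854, l3027, l4832, o2912, l5277, l6855, l390, l6212, l6184, l5256, l5039, l4133, l4130, l4209, l4210, l4261, l4259, l4800, o4324, o4334, l2674, l2673, l6425, l6253, l483, l482, o5332, l2734, l6701, l2511, l2512, l5102, o4807, o4816, o4787, o5354, o5812, o8774, l3509, l3497, o5627, l6738, l3216, l3236, l3105, l3106, o8935, o3853, l2314, l6448, l6427, l6850, l3927, l2660, l2513, l2514, l376, l6856, l6857, l6785, l5719, o5193, o5483, l5135, o8658, o8801, o3055, o3695, l6428, o3165, o3725, o6644, o8229, l6422, o5733, l6711, l5708, o2300, o8001] l6858 := rupP (by decide +kernel)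
theorem r6859 : PImp [l6200, l6248, l6818, l3336, o5407, l2614, l3115, l4655, l432, l1254, l5112, l2708, o8779, o8380, o8839, l2675, l5710, o5513, o5812, l3442, l6253, l4163] l6859 := rupP (by decide +kernel)
theorem r6860 : PImp [l6847, l2820, l6705, l4082, l6200, l6248, l6818, l3336, l3933, o5407, l473, l3115, l3223, l4084, l4655, l432, l1254, l1316, l3378, l3370, l6859, l5707, o5513, o5812, l3442, l6253, l4166, o8481, l2703, l668] l6860 := rupP (by decide +kernel)
theorem r6861 : PImp [l5277, o3572, o2984, l3836, l4130, l6253, o8774] l6861 := rupP (by decide +kernel)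
theorem r6862 : PImp [l657, o8150] l6862 := rupP (by decide +kernel)
theorem r6863 : PImp [o714, l2658, l2657, l4655, l432, l1254, l1138, l1242, o1452, o1501, o1465, l6792, l6862, o8380, o2300, o2302, l742, l2302, o3659, o8063, o7728] l6863 := rupP (by decide +kernel)
theorem r6864 : PImp [l3161, l6200, l6248, l6818, o5407, l4655, o4498, l3223, l432, l1254, l6863, l3537, l6808, o8015, l6811, o4760, l3862] l6864 := rupP (by decide +kernel)
theorem r6865 : PImp [l2651, o1501, o1465, o1494, o7729, l6862, l5708, o5671, l6710, o5287, o5733, o3702, l3597, o8229, o8233, l2481] l6865 := rupP (by decide +kernel)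
theorem r6866 : PImp [l6200, l6705, l2614, l6248, o5407, l4082, l6860, l6819, o3838, l4655, l6847, l6854, l3027, l432, l1254, l3219, l3115, o4479, l6818, l3336, o2912, l6861, l390, l6212, l6184, l5039, l6425, l5277, l4130, l6253, o4807, l2820, l433, o4487, o4812, o4825, l476, o5354, l5035, l5112, l6817, l6701, l3216, l6448, l2514, l2513, l2660, l3927, l1138, l1242, l5102, l3236, l6427, o8774, o3853, l4084, l2615, l5113, l2618, l2713, o5812, o8935, l3106, l3105, l4800, l483, l3509, l428, o4458, o4787, o4816, l2512, l2511, l2734, o5332, l482, l2674, l4204, l4259, l4261, l4210, l4209, l4133, l4131, l5275, o714, l3337, l2658, l2657, l3933, o4498, l427, o4452, l3119, l3116, l3223, l1357, l1316, l3161, l2379, o2314, l6858, o3438, o3459, o3722, o3847, l6864, l6785, l5719, l4774, o5193, o5483, o5471, l3763, o8658, o8801, o8609, o3083, o3771, l6428, l2323, o3175, o8603, l4569, o6644, o2269, o2278, l6422, l6865, l2448, o1473, l2305, l5893, o4750, o4733, o8017, l733, o8164, l1680] l6866 := rupP (by decide +kernel)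
theorem r6867 : PImp [l4655, l432, l1254, l4271, l6809, o4450, l6812, l3862] l6867 := rupP (by decide +kernel)
theorem r6868 : PImp [l638, l2293, o8109, o8346] l6868 := rupP (by decide +kernel)
theorem r6869 : PImp [l6200, l6248, l6818, l2658, l2305, o1473, l2657, o1454, l3537, l3219, l6867, l3157, l3159, l3162, l6868, o5636, o5646, o7766, o7768, l733, o7945, o8672] l6869 := rupP (by decide +kernel)
theorem r6870 : PImp [l4204, l6705, l5113, l6200, l2614, l6248, o5407, l4082, l6860, l6819, l2618, l2713, l6847, l2820, l6817, l6818, l3336, l2657, l4655, l432, o4479, l433, o4487, l476, l3119, l3115, l3219, l4084, l2615, l1254, l1138, l1242, l5112, l5035, o3838, l6854, o2912, l5275, l5277, l6861, l390, l6212, l6184, l5039, l4133, l4130, l4209, l4261, l4259, l4800, l2674, l2673, l6253, l483, l482, o5332, l2734, o4812, o4825, o4807, o5354, o5812, o8774, l3509, l3497, l6701, o8935, l3216, l6448, l2660, l6866, l6513, l6715, o3459, o3720, l6869, l6785, o5483, o8658, o3771, o3692, o8801, o8603, l6780, l6193] l6870 := rupP (by decide +kernel)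
theorem r6871 : PImp [l2820, l6200, l6248, l6818, l3336, l3933, o5407, l473, l3115, l3223, l4655, l432, l1254, l1316, o5513, o5515, o5812, l3442, l3370, l6253, l4166, o8481, l2703, l668] l6871 := rupP (by decide +kernel)
theorem r6872 : PImp [l482, l2658, l3219, l3161, l3171, l6752, l645, l2651, o1452, l4456, l4454, o7867, o5269, l2293, o5256, o5257, l3553, l3564, o3449, o3455, o3456, l4289, o8200, l3574, o2260, l2313, o2278, o8204, o5656, l737, l739] l6872 := rupP (by decide +kernel)
theorem r6873 : PImp [o8284, o5269, l2293, l6771, l6724, o8200] l6873 := rupP (by decide +kernel)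
theorem r6874 : PImp [l3235, l6873, o4734, o4760, l5873, l4454, o7856] l6874 := rupP (by decide +kernel)
theorem r6875 : PImp [o8284, l2293, l6771] l6875 := rupP (by decide +kernel)
theorem r6876 : PImp [l6200, l6248, l6818, l2658, o1452, l2651, l4655, o4498, l3219, l432, l1254, l5112, l3157, l6875, o7959, o4760, l6225] l6876 := rupP (by decide +kernel)
theorem r6877 : PImp [l5277, o3449, o2934, l6874] l6877 := rupP (by decide +kernel)
theorem r6878 : PImp [o2970, l6248, l476, l2734, l482, l6200, l6818, l2658, l4655, o4498, l427, o4452, l432, l1254, l5112, l2651, o1452, l6876, l3235, l6877, l2858, l3553, l6392, l463, o4433, o5269, l4582, o7959, o7856, l4769, o2957, o5471, o3679, o8609, l2323] l6878 := rupP (by decide +kernel)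
theorem r6879 : PImp [o3449, l4667, o8248, l3157] l6879 := rupP (by decide +kernel)
theorem r6880 : PImp [l6248, l476, l2734, l482, l5277, l6200, l6818, l2658, l2657, l3933, l4655, o4498, l3219, l5113, o2970, l6872, l6878, l2448, l3537, o1454, o7918, l1279, o1473, o5269, l2293, l6879, l2858, l4804, l4670, l3235, o5309, l5873, o8155, o2957, o2947, o8087, o3027, o2253, o8248, l2284] l6880 := rupP (by decide +kernel)
theorem r6881 : PImp [l3223, l2379, l3219, l3171, l3161, l6200, l6248, l6818, l2657, l4655, l427, o4452, l473, l432, l1254, l1138, l1242, l2651, o1465, o8038, l6392, o4734, o4746, o5301, o5636, o5646, l5873, l5740, l2450, o7856, o3018, o2957, o2948, o7788, o7706, l1104] l6881 := rupP (by decide +kernel)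
theorem r6882 : PImp [l2269, o695, o699, l6200, l6248, l6818, l2658, l3933, l4655, o4498, l427, o4452, l3223, l5112, l2379, l6748, o3034, l6881, l2448, o1473, o1466, l2305, l5873, o4750, o4732, o4733, o8155, l6733, o2956, l4569, o7998, l2313] l6882 := rupP (by decide +kernel)
theorem r6883 : PImp [l1138, l1242, l2651, o1465, o7785, o5269, l3553, l3157, l3159, l3591, l6196, o5311, o3664, o8128, o3670] l6883 := rupP (by decide +kernel)
theorem r6884 : PImp [l6847, l2820, l6817, l6705, l4082, l6200, l6248, l6818, l3337, l3336, l2658, l2657, l3933, o5407, l4655, l432, o4479, l433, o4487, l430, o4463, l427, o4452, l476, l2614, l3116, l3115, l3219, l4084, l2615, l1254, l5113, l5112, l5035, l6860, l6819, l2618, l2713, l6871, o9033, o3838, l6870, o8935, l6854, o2912, l5277, l6861, l390, l6212, l6184, l5039, l4131, l4130, l4209, l4210, l4800, l4260, l4282, l2674, l2477, l6253, o690, o699, o695, l2269, l483, l482, o5332, l2734, o4812, o4825, o4807, o5354, o8774, l3509, l3476, l6701, l3216, l6448, l6880, o3438, o3459, l6882, l6883, l2448, l3537, l6198, o8084, o4734, o4743,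 l5873, l3231, l3905] l6884 := rupP (by decide +kernel)
theorem r6885 : PImp [l6200, l6248, l6818, l3336, o5407, l4655, l432, o4479, l476, l3115, l3219, l6705, l4084, l2615, l1254, l5112, l6847, l6884, l2846, l2943, l5175, l2848, l3836, l4130, l4664, l6253, l4662, o5812, l5707, l5710, o3584, l6825] l6885 := rupP (by decide +kernel)
theorem r6886 : PImp [l4800, l2942, l4664, l4646] l6886 := rupP (by decide +kernel)
theorem r6887 : PImp [o3491, o3838, o3850, l6819, l4597, o8355, l2555] l6887 := rupP (by decide +kernel)
theorem r6888 : PImp [l6200, l6248, l6885, l5037, l2674, l3219, l4655, l432, o4479, l6818, l5038, l6886, l483, l3336, o5407, l2614, l3115, l6705, l1254, l4662, l3509, l6170, l6887, l404, l6854, l6861, o2912] l6888 := rupP (by decide +kernel)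
theorem r6889 : PImp [l5038, l390, l3512, l5894] l6889 := rupP (by decide +kernel)
theorem r6890 : PImp [l2615, l5112, l5707, l6825, l5710] l6890 := rupP (by decide +kernel)
theorem r6891 : PImp [l6200, l6248, l6818, l3336, o5407, l3115, o5812, l6871, l626, l2809] l6891 := rupP (by decide +kernel)
theorem r6892 : PImp [l5035, l6885, l4100, l1360, l6200, l3219, l4655, l432, l6248, o4479, l6818, l5038, l6886, l483, l3223, l430, o4463, l5037, l2674, l4441, l4442, l6889, l6891, l6705, l4084, l6888, l6890] l6892 := rupP (by decide +kernel)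
theorem r6893 : PImp [l3219, l4655, l432, l6248, o4479, l6200, l6818, l6885, l5038, l6886, l483, l5035, l4100, l5037, o5407, l430, o4463, l2614, l3112, l3223, l6705, l4084, l2615, l5113, l5112, l1360, l2674, l4441, l4442, l6889, l6891, l6892, o9033, l2713, o2403, l2618, l2617, l2708, o8839, o8355] l6893 := rupP (by decide +kernel)
theorem r6894 : PImp [l4655, l432, l3219, l6200, l6248, o4479, l6818, l6885, l5038, l6886, l483, l482, l6893, l2846, l2845, l3512, l3490] l6894 := rupP (by decide +kernel)
theorem r6895 : PImp [l6243, l6325, l3935, l5113, l5587, l476, l5979, l5324, l4254] l6895 := rupP (by decide +kernel)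
theorem r6896 : PImp [l1360, l1357, l1316, l736, l1681, o8227] l6896 := rupP (by decide +kernel)
theorem r6897 : PImp [o3832, o2889, o2924, o3105, l4597, o8606, l2554, l2617, o2387, o9153] l6897 := rupP (by decide +kernel)
theorem r6898 : PImp [o8109, o8264] l6898 := rupP (by decide +kernel)
theorem r6899 : PImp [l5275, l6862, l622, l6207] l6899 := rupP (by decide +kernel)
theorem r6900 : PImp [o8267, o8111] l6900 := rupP (by decide +kernel)
theorem r6901 : PImp [o714, l1697, o5627, l6898, o1454, o1500, o1464, o8421, l6900, o4759, o5733, o7774, o2976, o7947, l3868] l6901 := rupP (by decide +kernel)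
theorem r6902 : PImp [l6243, l3935, l5276, l5275, l1360, l6325, l5113, l5587, l4655, l428, l432, l1254, l430, o4463, l6895, l3222, l6263, l1218, l6668, l2640, l5668, l3537, l2628, l433, o4487, l3827, o2989, l2935, l5581, l4218, l6896, l2283, l2627, o2270, l2624, l3830, l4223, l5952, l4209, o694, l4208, o688, l4082, o714, l4204, l2641, l4798, o5333, o5407, o4498, l4084, l2615, l1138, l1242, l1316, o2386, o8935, l2557, o2330, l4597, l2544, l2545, l6448, l4769, l6899, l6901, l5669, o4760, o5735, l3814, l3868, l3813, o2976, o7774] l6902 := rupP (by decide +kernel)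
theorem r6903 : PImp [l2713, o9153, l2618, l2617] l6903 := rupP (by decide +kernel)
theorem r6904 : PImp [l6710, l742] l6904 := rupP (by decide +kernel)
theorem r6905 : PImp [l6809, l6808, o8064, l6571, o4760, l4919] l6905 := rupP (by decide +kernel)
theorem r6906 : PImp [l3222, l3934, l4655, o4498, l432, l1254, l1138, l1242, l3160, l2379, o2258, l2314, l6896, o3036, o3459, o3756, o3015, l6809, l2611, l3538, l6862, l6905, l4949, l6904, l4945, l2302, l6390, o3659] l6906 := rupP (by decide +kernel)
theorem r6907 : PImp [l6895, l3222, l3126, l2557, l4597, l2544, l3140, l2545, l6448, l4777, l4769, l4084, l2615, o8935, l2628, o2345, o2386, l5275, l4655, l432, l5113, l5587, o4479, l6243, l3935, l433, o4487, l1254, l3827, l3830, l2935, l428, l430, o4463, l6263, l1218, o2989, l6325, l5581, l4223, l5952, l6886, l4209, l4218, l6668, l4208, l2640, l3850, l2627, l4082, o5407, l1138, l1242, l5276, l4204, o714, o688, o694, l6906, l2624, o2291, o2301, l6902, l6899, o3438, l2850, o3036, o3756, l6715, l2611, l2612, l2613, l3870, l3866, o7766, o7774, o5256, o5257, o5285, o5287,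 o5732, o5731, l4806, l4815, l4283, l4809, l2473, l2492, l3172, l2381, l735, l1105, o8112, l2278, o8268, l2280, l674] l6907 := rupP (by decide +kernel)
theorem r6908 : PImp [l6895, l2627, o2258, l6243, l4655, l433, l5113, l5587, o4487, l432, l1254, l3827, l3830, l2935, l428, l430, o4463, l3222, l6263, l1218, o2989, l6325, l5581, l4223, l5952, l4209, o690, l6668, l2641, l4798, o5333, l4218, o4498, l5112, l1360, l6740, l645, l1681, l3811, o5627, l2937, o3051, l2322, o8603, o8200, o1453] l6908 := rupP (by decide +kernel)
theorem r6909 : PImp [o2278, l5112, l1360, l3540, l4453, l1702, l6504, l733] l6909 := rupP (by decide +kernel)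
theorem r6910 : PImp [l4655, l432, l1254, l433, l5113, l5587, o4487, l6243, l6895, l3827, o3036, l6325, l2850, o3438, l2628, l2314, l3160, l428, l430, o4463, l3222, l6263, l1218, l6668, l4208, l2269, o699, l3830, l2935, o2989, l5581, l4223, l5952, l4260, l2477, l2641, l4798, o5333, o4479, l3935, l6886, l4209, l4218, o5339, l2627, o4498, l5112, o8038, o5257, l3810, l5701, l3811, l6909, l4670, o5311, l26, o3670, o8603, o8653] l6910 := rupP (by decide +kernel)
theorem r6911 : PImp [l6243, l4655, l432, l1254, l430, l5113, l5587, o4463, l6895, l3222, l3850, o3015, l6325, o3438, l2379, l3160, l433, o4487, l3827, l3830, l2935, l428, l6263, l1218, o2989, l5581, l4223, l5952, l4260, l6668, l2477, l476, l6910, o5308, o4743, o7704, l4670, l4466] l6911 := rupP (by decide +kernel)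
theorem r6912 : PImp [l26, o3670, o8603, o8653] l6912 := rupP (by decide +kernel)
theorem r6913 : PImp [l2328, o8718] l6913 := rupP (by decide +kernel)
theorem r6914 : PImp [o1473, l2305, o8164, o7997, l733] l6914 := rupP (by decide +kernel)
theorem r6915 : PImp [l6243, l4655, l428, l432, l1254, l430, l5113, l5587, o4463, l6895, l3222, l6263, l1218, l6668, l4208, l2269, o699, l433, o4487, l3827, l2935, l6325, l2641, l3830, o2989, l5581, l4223, l5952, l4798, o5333, l4209, o5339, l2628, l2627, l3934, o4498, l427, o4452, l5112, l1316, l2379, o2278, l2314, l6908, l6911, l2448, l5893, o4750, o4733, l6912, l6914, o8718, l2303, o3677, o7997, o8042, o1478] l6915 := rupP (by decide +kernel)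
theorem r6916 : PImp [o7959, o8284] l6916 := rupP (by decide +kernel)
theorem r6917 : PImp [l2624, o690, l5277, o8249, o5262, o5256, o5257, o5627, l4804, l4806, o2937, o3449, o3458, l6879, l4289, l3227, l3882, l6563, o1455, l2295] l6917 := rupP (by decide +kernel)
theorem r6918 : PImp [l2624, l6916, l3537, l3570, o1510, l6917, o7918, o4760, l3874, l3872] l6918 := rupP (by decide +kernel)
theorem r6919 : PImp [l4655, l432, l1254, l433, l5113, l5587, o4487, l6243, l6895, l3827, l428, l430, o4463, l3222, l6263, l1218, o2989, o3459, l6325, o3438, l2935, l6668, l2641, l3830, l5581, l4223, l5952, l4798, o5333, o4479, l3935, l6886, l1138, l1242, o5262, o5627, l4804, l3535, l3538, l3591, o8126, o5311, o3664, o8128, o3670] l6919 := rupP (by decide +kernel)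
theorem r6920 : PImp [l5113, l6894, l5587, l4655, l432, l1254, l433, o4487, l6243, l6895, l3827, l2935, l6325, l428, l430, o4463, l3222, l6263, l1218, o2989, l5581, o5339, l1316, l3113, l3830, l3338, o4479, l3935, l4223, l5952, l6886, l6464, l2308, o5407, o5812, l476, o5354, o4807, o4836, o4825, o4812, l6668, l2641, l4798, o5333, l4209, l4130, l4132, l4208, l4128, l4129, l2628, l2627, l3114, l3342, l3341, l3339, l3934, o4498, l6705, l4084, l2615, l1138, l1242, l5112, l5035, l6890, o8774, l4838, o3853, o3102, o3832, o8609, o5471, o5760, l6897, l5277, l6804, l3126, l3140, l6903, o8935, l2557, l4597, l2544, l2545, l6448, l4769, l6907, l2477, l4280, l4260, o726, o695, l2269, o690, l6915, l2624, o2270, l2283, l6918, o3036, l6919, l1674, o4760, l3537, l3874] l6920 := rupP (by decide +kernel)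
theorem r6921 : PImp [l3160, l6896, l6571, o3459] l6921 := rupP (by decide +kernel)
theorem r6922 : PImp [o2976, l3866, o7774, o7687] l6922 := rupP (by decide +kernel)
theorem r6923 : PImp [o7945, o7922] l6923 := rupP (by decide +kernel)
theorem r6924 : PImp [l5113, l1316, l1697, o5257, o5627, l6898, o1454, l2289, o1464, o1441, l6900, o5652, o4759, o4745, o4747, o5733, l5893, l2381, l6922, l3868, l6923, l2854, o3021, o3752, l4806, l3908, o7687, o7774] l6924 := rupP (by decide +kernel)
theorem r6925 : PImp [l5276, l1360, l1316, l5668, l2448, l3537, l3570, o1538, l6924, l5669, o4760, o5735, l3868, l6922] l6925 := rupP (by decide +kernel)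
theorem r6926 : PImp [l4655, l432, l1254, l1138, l1242, l5112, l6715, o8145, o5308, o4760, o5636, o5735, l6213, l6922, o1536, o8600, o7810] l6926 := rupP (by decide +kernel)
theorem r6927 : PImp [l5113, l5587, o5407, o8839, l4655, l432, l1254, l433, o4487, l6243, l6895, l3827, l2935, l6325, l428, l430, o4463, l3222, l6263, l1218, l6668, l2641, l3830, o2989, l5581, l4223, l5952, l4798, o5333, o4479, l3935, l6886, l4209, l4218, o5339, l4208, l2640, l2628, l2627, l3934, o4498, l476, l5276, l4204, o714, o688, o694, l6921, l2624, o2270, l2283, l6925, o3438, o3036, o3756, l6926, l3537, o1538, l3870, l6922, l3863, o5287, o5732, o5731, o8021, l4815, o2335, o2336, l2473, l2474, l735, l1105, o8112, o8343, o8268, l6676] l6927 := rupP (by decide +kernel)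
theorem r6928 : PImp [o8717, o8201, o5627, l3811, l2937, l2322, o8159, o8200] l6928 := rupP (by decide +kernel)
theorem r6929 : PImp [l6915, l6895, l2627, o2258, l6243, l4655, l433, l5113, l5587, o4487, l432, l1254, l3827, l3830, l2935, l428, l430, o4463, l3222, l6263, l1218, o2989, l6325, l5581, l4223, l5952, l4209, o690, l6668, l4208, o695, l2641, l4798, o5333, o5339, l2628, l3934, o4498, l427, o4452, l6928, l2448, o7823, l6564, o5627, o1466, o8718, o1455, l2322, o8159] l6929 := rupP (by decide +kernel)
theorem r6930 : PImp [l6243, l4655, l433, l5113, l5587, o4487, l6895, l432, l1254, l3827, l3830, l2935, l428, l430, o4463, l3222, l6263, l1218, o2989, l6325, l5581, l4223, l5952, l4260, l3935, l3934, l5112, l1316, l3171, l2379, l6915, l6929, o3031, l6911, l2448, l3537, l5893, l2962, o4265, l2794, l4618] l6930 := rupP (by decide +kernel)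
theorem r6931 : PImp [l6916, l3537, o1506, o7918, o5262, o5627, o5665, l4804, o8088, o3449, o3457, o3416, o8248, l3180, o1454, o5311, o1464, o8251] l6931 := rupP (by decide +kernel)
theorem r6932 : PImp [l6894, l6243, l6325, l3338, l3935, l5113, l5587, o5407, l4655, l432, o4479, l433, o4487, o4498, l428, o4458, l430, o4463, l476, l6705, l4084, l2615, l1254, l1138, l1242, l5112, l1316, l5035, l4082, l6895, l3222, l3113, l3111, l2627, l2628, l3827, l6263, l2935, l3830, l1218, l6668, o2989, l2641, l4129, l4208, l5581, l4223, l5952, l4209, l4798, l6886, o5333, l6464, o5364, o4812, o4825, o4836, o4787, o5350, o5812, l6920, o9033, l2713, o2403, l2618, l2617, l6216, l2616, l2791, l2708, l2707, l6223, o3242, o3241, o3239, o3238, o3237, l3426, l5171, l3468, l4848, l6348, l5783, l3439, l3427, l2630, l6927, l2477, l4260, o721, l2269, o690, l6930, l2624, o2270, l2283, o2290, l6931, o3036, l6919, o7785, o4760, l3537, l3874] l6932 := rupP (by decide +kernel)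
theorem r6933 : PImp [l6903, l6825, l2544, l2557, l4597] l6933 := rupP (by decide +kernel)
theorem r6934 : PImp [l4655, l432, l1254, l433, l430, l5113, l5112, l5035, l2615, l6705, l4084, l6894, l5587, l6243, l476, o4487, o4479, o5407, l3935, l3338, l3340, l3341, l6325, l6932, l5037, l5038, l6167, l4135, l4428, l4100, l5623, l4802, l6455, l4798, l5636, l4796, l3113, l2731, l4970, o2989, o2982, l4644, l6253, o4825, o4807, o5812, o5740, l2308, l6701, l3216, l2631, l2632, l5936, o8834, o8701, l3927, o3564, o3467, l6933, o9033, l6171] l6934 := rupP (by decide +kernel)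
theorem r6935 : PImp [l3025, l3024, l4655, l428, l1218, l430, l1357, l6135, l3927, l5780, o6795, l2571] l6935 := rupP (by decide +kernel)
theorem r6936 : PImp [l6934, l2602, l5112, l5035, l3025, l6935, l3216, l5726, l4884, l3796, l4788, l3137] l6936 := rupP (by decide +kernel)
theorem r6937 : PImp [l5112, l2920, l2926, l2930, l2896, l5171, l6348] l6937 := rupP (by decide +kernel)
theorem r6938 : PImp [l6934, l5113, l5112, l1357, l2602, l6936, l2920, l2926, l2896, l3426, l5171, l4883, l2571, l5780] l6938 := rupP (by decide +kernel)
theorem r6939 : PImp [l6248, l476, o5354, l4655, l428, o4458, o4787, l432, o4479, o4807, l433, o4487, o4836, o4812, o5364, l6934, l6200, l6818, l2711, l3336, l3118, l3115, l5112, l5035, l6938, l2544, l2545, o3749, o3838, o3564, o3853, o8774, l5727, l3430, o8773, l3360, l2571, o1592, o9147, l2594, l2713] l6939 := rupP (by decide +kernel)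
theorem r6940 : PImp [l3117, l6200, l6934, l5113, l5112, l5035, l2791, l2602, l2708, l2707, o3241, o3240, l2713, o3824, l3426, l4848, l4862, l2571, l4183, l2662, l2604, o9066, o8679] l6940 := rupP (by decide +kernel)
theorem r6941 : PImp [l5035, l3216, l5726, l4884, l3796, l4788, l3137] l6941 := rupP (by decide +kernel)
theorem r6942 : PImp [l2590, l2713, o9066] l6942 := rupP (by decide +kernel)
theorem r6943 : PImp [l4655, l428, l1218, l6934, l430, l5112, l3024, l3025, l6941, l6135, l3927, l2604, o6795, l2571, l3137, l6942, l2594, l2557, o9108] l6943 := rupP (by decide +kernel)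
theorem r6944 : PImp [l6248, l1360, l6200, l3484, o5339, l5732, l6818, l3336, l4655, l432, o4479, l433, o4487, l428, o4458, l476, l3115, l3223, l3219, l6934, l5113, l5112, l1316, l5035, l2936, l2935, l4903, o2989, l2675, l1218, l1217, l3020, l2673, l3856, l4132, l4130, l6886, l6891, l6464, o5364, o4812, o4825, o4836, o4807, o4816, o4787, o5354, o5740, l2308, l6939, l6940, l6943, l2920, l2926, l2896, l2902, l3426, l5171, l4883, l4848, l2571, l4188, l2604, l6942, l2594] l6944 := rupP (by decide +kernel)
theorem r6945 : PImp [l6200, l6248, l6818, l3336, l4655, l432, o4479, l3115, l3219, l4130, l6886, l626, l6451, l2809] l6945 := rupP (by decide +kernel)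
theorem r6946 : PImp [l6200, l6248, l6818, l3336, l4655, l432, o4479, l476, l3115, l3219, l1254, l1138, l1316, l6945, l3836, l5438, l3838, o5165, l6464] l6946 := rupP (by decide +kernel)
theorem r6947 : PImp [l3836, l4646, l4130, l6253] l6947 := rupP (by decide +kernel)
theorem r6948 : PImp [l6200, l6248, l6818, l3336, l4655, l432, o4479, l3115, l3219, l1254, l6947, l2942, l2943, l6946] l6948 := rupP (by decide +kernel)
theorem r6949 : PImp [l6248, o5407, l6948, o5812, l476, o5350, o5354, l4655, l432, o4479, o4807, l433, o4487, o4825, o4812, o5364, l6934, l1357, l3430, l6448, l2571, l3471, l2604, l5711, o9147, l2594, l2713] l6949 := rupP (by decide +kernel)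
theorem r6950 : PImp [l6248, o5407, l6948, o5812, l4655, l432, o4479, o4807, o5364, l6934, l5113, l5112, l1357, l2926, l2545, l3426, l4883, l2602, l2571, l5780] l6950 := rupP (by decide +kernel)
theorem r6951 : PImp [l6248, o5407, l6948, o5812, l476, o5354, l4655, l432, o4479, o4807, l433, o4487, o4825, o4812, o5364, l6200, l6818, l3336, l3115, l3219, l6934, l1254, l5112, l5035, l2942, l3836, l4645, l4130, l6886, l6701, l4662, l3216, l6950, l3430, l6448, l2571, l2604, o9147, l2713, l2602, l2594] l6951 := rupP (by decide +kernel)
theorem r6952 : PImp [l2602, l5711, l2713, o801, o9136, o8798] l6952 := rupP (by decide +kernel)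
theorem r6953 : PImp [l6951, l2846, l6248, o5407, l6948, o5812, l476, o5350, o5354, l4655, l432, o4479, o4807, l433, o4487, o4825, o4812, l6200, l6818, l3336, l3117, l3115, l6934, l5112, l1357, l5035, l5039, l4130, l2569, l2674, l2673, l6701, l3216, l6950, o3556, l6448, l3927, l2662, l2604, l6952, o3749, o3838, o3853, o8774, l5727, l6949, l3360] l6953 := rupP (by decide +kernel)
theorem r6954 : PImp [l3236, l3924, l5096, l5173, l5095] l6954 := rupP (by decide +kernel)
theorem r6955 : PImp [l4525, l4086, l6625, l319, l3997, l3971, l3282, l5716] l6955 := rupP (by decide +kernel)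
theorem r6956 : PImp [o3896, l4655, l427, o3938, o3969, l5854, l6955, l6467, l4074, l3068] l6956 := rupP (by decide +kernel)
theorem r6957 : PImp [l4655, l427, l5113, o3938, o3890, l6956, l5818, l5819, l5821] l6957 := rupP (by decide +kernel)
theorem r6958 : PImp [l4053, l4055] l6958 := rupP (by decide +kernel)
theorem r6959 : PImp [l3303, l6958, l4042, l4069, o2461] l6959 := rupP (by decide +kernel)
theorem r6960 : PImp [l4655, l432, l1254, l1138, l1242, l5112, l1360, l6959, l5943, l5810, l5034, o2451, l5050] l6960 := rupP (by decide +kernel)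
theorem r6961 : PImp [l5112, l2794, l4655, l432, l1254, l6482, o2496, l3075, l6474, l5983, l4757] l6961 := rupP (by decide +kernel)
theorem r6962 : PImp [l4069, l4053] l6962 := rupP (by decide +kernel)
theorem r6963 : PImp [l5112, l2794, l4655, l432, l1254, l1138, l1242, o3895, l2779, l6961, l6960, l6311, o2461, o2465, l6962, l5050, l6130] l6963 := rupP (by decide +kernel)
theorem r6964 : PImp [o2496, l3075, l6625, l5863] l6964 := rupP (by decide +kernel)
theorem r6965 : PImp [l6468, l6478] l6965 := rupP (by decide +kernel)
theorem r6966 : PImp [l4655, l427, o3938, l5112, l2794, l1360, l5854, l6964, l6965] l6966 := rupP (by decide +kernel)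
theorem r6967 : PImp [l4655, l432, l5113, l5112, o3952, o3946, l6966, l5974, l5968, l5969] l6967 := rupP (by decide +kernel)
theorem r6968 : PImp [l5112, l2794, l1244, l1360, l6483, l6967, l2779, l6961, l6965, l3075, l5810, l4055, l3303, l4042] l6968 := rupP (by decide +kernel)
theorem r6969 : PImp [l1360, l3303, l5655, o2465, o2451, l6311, l4042, l4055] l6969 := rupP (by decide +kernel)
theorem r6970 : PImp [l6968, l5112, l2794, l1244, l4655, l432, l1254, l1138, l1242, l6956, o3895, l2779, l6963, l6969, l5943, l5810, l5034, o2451, l5050] l6970 := rupP (by decide +kernel)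
theorem r6971 : PImp [l1244, l6968, l6970, l6495, l6961, l6957] l6971 := rupP (by decide +kernel)
theorem r6972 : PImp [l4655, l427, l1360, o3938, l5854, l6964, l3069, o2461, l6678, l4057] l6972 := rupP (by decide +kernel)
theorem r6973 : PImp [l6969, l6960, l6962, l6311, o2461] l6973 := rupP (by decide +kernel)
theorem r6974 : PImp [l5112, l2794, l4655, l432, l1254, l1138, l1242, l6972, o3895, l2779, l6973, l5943, l5810, l5034, o2451, l5050] l6974 := rupP (by decide +kernel)
theorem r6975 : PImp [l6482, l6595, l6522, o2496] l6975 := rupP (by decide +kernel)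
theorem r6976 : PImp [l4655, l427, l1360, o3969, o3938, o3896, l5854, l6955, l6964, l6678, l3069] l6976 := rupP (by decide +kernel)
theorem r6977 : PImp [l5112, l2794, l1244, l4655, l432, l1254, l1138, l1242, l6971, l6975, l6974, l6976, o3895, l2779, l6973, l5943, l5810, l5034, o2451, l5050] l6977 := rupP (by decide +kernel)
theorem r6978 : PImp [o6177, o6189] l6978 := rupP (by decide +kernel)
theorem r6979 : PImp [l3300, l3301, l6093, l6095, l442] l6979 := rupP (by decide +kernel)
theorem r6980 : PImp [l996, l1000, l3300, l3301, o1665, o6818, l3313, l4317, l441, l442, o5065, l4327, l4764, l4689, l3648, l3680, o2696, o6919, l3205, l4973, o390, o6944, o5019] l6980 := rupP (by decide +kernel)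
theorem r6981 : PImp [o4235, l6980] l6981 := rupP (by decide +kernel)
theorem r6982 : PImp [o6655, o6620] l6982 := rupP (by decide +kernel)
theorem r6983 : PImp [l3301, o1667, l6982, o4850, o6977, o6960] l6983 := rupP (by decide +kernel)
theorem r6984 : PImp [o3928, o3932, l6982, o6082, l3302, o820, o6121] l6984 := rupP (by decide +kernel)
theorem r6985 : PImp [l3303, l5035, o13, o14, l4114, l4150, l6983, o1752, l6984, o4849, o6998, o7023] l6985 := rupP (by decide +kernel)
theorem r6986 : PImp [l1000, l4655, l432, l1254, l1360, o4235, o6632, l3948, l3643, l3660, l442] l6986 := rupP (by decide +kernel)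
theorem r6987 : PImp [l1357, l4655, l3300, l3301, l6986, o4378, o6981, l4320] l6987 := rupP (by decide +kernel)
theorem r6988 : PImp [l6979, o2803, l2878, l6983] l6988 := rupP (by decide +kernel)
theorem r6989 : PImp [l4655, l432, l1254, l5113, l442, o5061, l3657, l3363, o6997, o6934] l6989 := rupP (by decide +kernel)
theorem r6990 : PImp [l4655, l432, l1254, l1138, l1242, l6989, l6093, l3189, l3641] l6990 := rupP (by decide +kernel)
theorem r6991 : PImp [l5035, l4114, l4178, l6988, l3277, o1750, l6990, o2803, o2582, o2586, l2876, l2878, l6985] l6991 := rupP (by decide +kernel)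
theorem r6992 : PImp [l3301, l5112, l4655, o2802, o2809, o2810, l6981, o4378, o6905, l3645] l6992 := rupP (by decide +kernel)
theorem r6993 : PImp [l6992, l3033, o2695, l6987] l6993 := rupP (by decide +kernel)
theorem r6994 : PImp [l4328, l3658] l6994 := rupP (by decide +kernel)
theorem r6995 : PImp [l6994, o5035, l6076, l3674] l6995 := rupP (by decide +kernel)
theorem r6996 : PImp [l4655, l432, l1254, l1138, l5276, l6993, l3277, l3278, l6995, l6081, l3678, l4342] l6996 := rupP (by decide +kernel)
theorem r6997 : PImp [o4378, l4825, o6813] l6997 := rupP (by decide +kernel)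
theorem r6998 : PImp [l5112, l4655, o2802, l6997, l442, l3655, l4635] l6998 := rupP (by decide +kernel)
theorem r6999 : PImp [l3300, l3301, l6998, o3114, l6983] l6999 := rupP (by decide +kernel)
theorem r7000 : PImp [l4655, l432, l1254, l1138, l1242, l6989, o5038, l6076, l3673] l7000 := rupP (by decide +kernel)
theorem r7001 : PImp [l6200, l6248, l6818, l3933, o853, l4655, l432, o4479, l6948, o4807, l3216, l433, o4487, o4812, o4825, l476, o5354, l6448, l3797, o5364, l3430, l3436, o6732, o2897, l1244, o5350, o4816, o4836, l2711, o4498, l1254, l427, l5113, l1360, l5035, o3938, o4012, o3896, o3890, o4036, l5854, o1747, o1745, l6964, l3045, o2690, l3069, o2650, o2461, o2455, l4057, o6115, l3286, l3282, l3284, l3285, l6978, o1528, o826, l5808, o6150, o124, l6996, l4114, l4178, l6991, l6999, l3277, l3278, o1750, l7000, o2803, o2582, o2586, l2876, l2878, l6985] l7001 := rupP (by decide +kernel)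
theorem r7002 : PImp [l1360, l6969, l6959, l6962, l6311, o2461] l7002 := rupP (by decide +kernel)
theorem r7003 : PImp [l6248, l6948, o5364, l3430, l5112, l2794, l4655, l432, l1254, l1138, l1242, l6968, l6975, l7001, o3895, l2779, l7002, l5810, o2451, l5050, l6130] l7003 := rupP (by decide +kernel)
theorem r7004 : PImp [l6093, l442, o5061, l4635, l3647, o6975, o6918] l7004 := rupP (by decide +kernel)
theorem r7005 : PImp [l5112, l3300, l3301, o1662, l7004, o2803, l2878, l6983] l7005 := rupP (by decide +kernel)
theorem r7006 : PImp [l5035, l4114, l4178, l7005, l3277, o1750, l6990, o2803, o2582, o2586, l2876, l2878, l6985] l7006 := rupP (by decide +kernel)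
theorem r7007 : PImp [o4378, l4317, o6818] l7007 := rupP (by decide +kernel)
theorem r7008 : PImp [l996, l1000, l5112, l4655, o2802, o2810, l7007, l440, l441, l442, l3645, l4327, l3313, o6905, l4764, l3665, l3702, o3932, l3680, o2807, o2583, l3205, l4973, o6157, o5019, o360, o6944] l7008 := rupP (by decide +kernel)
theorem r7009 : PImp [l3300, l3301, l7008, l3033, o2695, l6987] l7009 := rupP (by decide +kernel)
theorem r7010 : PImp [l4655, l432, l1254, l1138, l5276, l996, l7009, l3277, l3278, l6995, o2808, l6081, o4386, l3678, l3941, l6077] l7010 := rupP (by decide +kernel)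
theorem r7011 : PImp [l5112, l4655, o2802, l6997, l442, o5061, l4635, l3647, o6975, o6918] l7011 := rupP (by decide +kernel)
theorem r7012 : PImp [l3300, l3301, o1662, l7011, o3114, l6983] l7012 := rupP (by decide +kernel)
theorem r7013 : PImp [l6200, l6248, l6818, l3933, o853, l2791, l2602, o6732, o2897, l2711, l4655, o4498, l432, l1254, l427, l5113, l1360, l5035, o3969, o3938, o4012, o3896, o4036, l6964, l6955, l3045, o2690, l3069, o2650, l4002, l3286, l3282, l3284, l3285, l6978, o1528, o826, l5808, o6150, o124, l3973, l7010, l4114, l4178, l7006, l7012, l3277, l3278, o1750, l7000, o2803, o2582, o2586, l2876, l2878, l6985] l7013 := rupP (by decide +kernel)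
theorem r7014 : PImp [l2602, l6977, l5112, l2794, l1244, l7013, o3895, l2779, l7002] l7014 := rupP (by decide +kernel)
theorem r7015 : PImp [l4655, l432, l6248, o4479, l6948, o4807, l433, o4487, o4812, o4825, l476, o5354, l3216, l6448, o5364, l3430, l3436, l5112, l2794, o5350, o4816, o4836, l6934, l1357, l1316, l3303, o1747, o1742, l7014, l6482, l6975, o2496, l3075, l5048, l6474] l7015 := rupP (by decide +kernel)
theorem r7016 : PImp [l5854, l5968] l7016 := rupP (by decide +kernel)
theorem r7017 : PImp [l5112, l2794, l6975, l6961] l7017 := rupP (by decide +kernel)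
theorem r7018 : PImp [l6248, l6948, o5364, l3430, l6934, l2602, l2791, l5112, l2794, l1244, l4655, l432, l1254, l1138, l1242, l6977, l7003, l7015, l7016, o3895, l7017, l5810, o2451, l5050, l6130] l7018 := rupP (by decide +kernel)
theorem r7019 : PImp [l5113, l1357, l1316, o3890, l5962, l5821, l5799] l7019 := rupP (by decide +kernel)
theorem r7020 : PImp [l3303, l5112, l2794, l1244, l4655, l432, l1254, l1357, l1316, l4763, l7019, o3895, l2779, l5978, l5841, l5677, o2451, o2491, l5048, l6474] l7020 := rupP (by decide +kernel)
theorem r7021 : PImp [l1360, l1316, l3643, l4318] l7021 := rupP (by decide +kernel)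
theorem r7022 : PImp [l342, l996, l438, l441, l4365, l3686] l7022 := rupP (by decide +kernel)
theorem r7023 : PImp [l4655, l432, l1254, l1138, l5112, l6993, l3277, l3278, l6995, l7022, o5040, l4330, l3663] l7023 := rupP (by decide +kernel)
theorem r7024 : PImp [l6200, l6248, l6818, l3933, o853, o6732, o2897, l1244, l2711, l4655, o4498, l432, l1254, l427, l5113, l1360, l5035, o3938, o4012, o3896, o3890, o4036, l6964, l3045, o2690, l3069, o2650, o2461, o2455, l5806, o6115, l3286, l3282, l3284, l3285, l6978, o1528, o826, l5713, o124, o6164, l7023, l4114, l4178, l6991, l6999, l3277, l3278, o1750, l7000, o2803, o2582, o2586, l2876, l2878, l6985] l7024 := rupP (by decide +kernel)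
theorem r7025 : PImp [o3895, l2779, l7002] l7025 := rupP (by decide +kernel)
theorem r7026 : PImp [l4655, l432, l1254, l1138, l5276, l5112, l7009, l3277, l3278, l6995, l7022, o5040, o5038, l3663, l3678, l4326, l6077] l7026 := rupP (by decide +kernel)
theorem r7027 : PImp [l4655, l432, l6248, o4479, l6948, o4807, l3216, l433, o4487, o4812, o4825, l476, o5354, l6448, l3797, o5364, l3430, l3436, o6732, o2897, l5112, l2794, l1244, o5350, o4816, o4836, l6200, l6818, l2711, l3933, o4498, l1254, l427, l5113, l1360, l5035, l3303, o1747, o1745, o1742, l7020, o853, l7025, o3969, o3938, o4012, o3896, o4036, l6964, l3045, o2690, l3069, o2650, o2461, l6163, l4037, l6678, l4002, l7024, l3286, l3282, l3284, l3285, l6978, o1528, o826, l5713, o124, o6164, l3973, l7026, l4114, l4178, l7006, l7012, l3277, l3278, o1750, l7000, o2803, o2582, o2586, l2876, l2878, l6985] l7027 := rupP (by decide +kernel)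
theorem r7028 : PImp [l3308, l4655, l427, l5113, o3938, o3890, l5818, l5799, l6634] l7028 := rupP (by decide +kernel)
theorem r7029 : PImp [l1357, l1316, l5677, o2496, l5048, l5002, l6521] l7029 := rupP (by decide +kernel)
theorem r7030 : PImp [l5982, l5015] l7030 := rupP (by decide +kernel)
theorem r7031 : PImp [l3308, l4655, l432, l1254, l1138, l1242, l5113, l5112, l5854, l5810, l5811, o3895, l3056, o2451, o4109, l5809, l4994, l6130] l7031 := rupP (by decide +kernel)
theorem r7032 : PImp [l6934, l2602, l2713, l2791, l6951, l3219, l6200, l6248, l6818, l4655, l432, l1254, l1138, l476, l2846, l5438, o5165, l4243, l4248, l5112, o4479, l3836, l2940, l2794, o2743, l1244, l3496, l3838, l3837, l6184, l3023, o5407, l6948, o5812, o5354, o4807, l433, o4487, o4825, o4812, o5364, l3336, l3117, l3115, l1357, l5035, l4180, l6701, l3436, l3430, l3216, l6448, l2662, l2604, l5780, o8920, o9136, o8798, l4164, l2675, l2672, l7018, l7027, l3308, l7031, l7028, l2779, l7029, l7030, l3075, l5016, l5071, l4534] l7032 := rupP (by decide +kernel)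
theorem r7033 : PImp [l6951, l3219, l6200, l6248, l6818, l4655, l432, l1254, l1138, l476, l2846, l5438, o5165, l4243, l4248, l5112, o4479, l3836, l2940, l2794, o2743, l1244, l3496, l3838, l3837, l6184, l3023, o5407, l6948, o5812, o5354, o4807, l433, o4487, o4825, o4812, o5364, l3336, l3115, l6934, l1357, l5035, l2791, l2602, l2713, l7032, o8787, o3181, o3190, l4869, l4848, l6448, l2604, l5780, l2571, o8920, o9136, l3436, l3430, l4163, l2675, l2672, l7018, l7027, l3308, l7031, l7028, l2779, l7029, l7030, l3075, l5016, l5071, l4534] l7033 := rupP (by decide +kernel)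
theorem r7034 : PImp [o2924, l6347] l7034 := rupP (by decide +kernel)
theorem r7035 : PImp [l6200, l6951, l2846, l6248, l6818, l3219, l4655, l432, o4479, l1254, l6953, l3836, l3837, l3838, o2984, l1138, l476, l5438, o5165, l4243, l7034, o3465, o3045, o3556, l7033] l7035 := rupP (by decide +kernel)
theorem r7036 : PImp [l4655, l433, l6248, o4487, l6948, o4836, o4812, o5364, l5112, l7035, l2920, l2896, l5171, l6950] l7036 := rupP (by decide +kernel)
theorem r7037 : PImp [l6942, l2594, l2557, o9108] l7037 := rupP (by decide +kernel)
theorem r7038 : PImp [l4655, l432, o3964, o3978, l3303, l5113, l6686, l4525, l4086, l4059, l3043, l3977, l3967, l3282, o947, l5713] l7038 := rupP (by decide +kernel)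
theorem r7039 : PImp [l4655, l428, l1218, o4036, l7038, l6595, l6629] l7039 := rupP (by decide +kernel)
theorem r7040 : PImp [l3303, l4053, l6958, o2461, l4027] l7040 := rupP (by decide +kernel)
theorem r7041 : PImp [l4655, l432, l1254, l5112, l1360, l1316, l3303, l7039, l2779, l5978, l7040, l6301, l4042] l7041 := rupP (by decide +kernel)
theorem r7042 : PImp [l4655, l432, l1254, l1138, l1242, l5112, l5943, l5034, l4056, l5050, o2451] l7042 := rupP (by decide +kernel)
theorem r7043 : PImp [l2779, l6482, l5983, l5019, l5977] l7043 := rupP (by decide +kernel)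
theorem r7044 : PImp [l4655, l428, l1218, l432, l1254, l1138, l1242, l5112, o2705, o2924, l2794, l6238, l1244, o6600, o6748, l7041, l7016, o3895, l7043, l5943, l7042, l5034, l5070, l5050] l7044 := rupP (by decide +kernel)
theorem r7045 : PImp [l7036, o3556, o3824, o3582, l6248, o5407, l6948, o5812, l476, o5354, l4655, l428, o4458, o4787, l432, o4479, o4807, l433, o4487, o4825, o4812, o5364, l6934, l6200, l6818, l2711, l3336, l3117, l3115, l1254, l5112, l5035, l5039, l4130, l2569, l6701, l3216, l6448, l3927, l2662, l2604, l7037, l2571, o9099, o801, o9057, l3430, l4789, l4790, l2556, o8798, o8918, o8774, l2590, o3541, o8685, l2674, l2673, o8467, o8752, l7044, o6644, o3165, o2977] l7045 := rupP (by decide +kernel)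
theorem r7046 : PImp [l7036, l6934, l6200, l6248, l6818, l2711, o5407, l4655, l432, o4479, l3219, l1254, o3556, o3582, o3824, l7045, l3836, l2942, l2943, l6184, l2590, l2594, l2555, o8752, o8742] l7046 := rupP (by decide +kernel)
theorem r7047 : PImp [l4655, l6248, o4498, o4012, l427, o3938, l3303, l432, l1254, l5113, l1360, o2443, l5863, o6227, l4086, l4233, l4031, l3286, l3282, o2690, o2650, o6150, o6177, o1528] l7047 := rupP (by decide +kernel)
theorem r7048 : PImp [l7047, o2460, l6163] l7048 := rupP (by decide +kernel)
theorem r7049 : PImp [l1268, l3303, l1357, l1316, o4036, o3888, o3907, l7048, l6656, l5049] l7049 := rupP (by decide +kernel)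
theorem r7050 : PImp [l3303, l6958, l4055, l4025, o2460] l7050 := rupP (by decide +kernel)
theorem r7051 : PImp [l3303, l4655, l432, l1254, l5112, l1360, l1316, l7049, l2779, l5978, l7050, l4042, l4041] l7051 := rupP (by decide +kernel)
theorem r7052 : PImp [l5034, l4086, l4057, o2443, o2450, o6227, l4050, l3282, l5716] l7052 := rupP (by decide +kernel)
theorem r7053 : PImp [l4042, l4038] l7053 := rupP (by decide +kernel)
theorem r7054 : PImp [l4655, l432, o3964, o3969, l3977, l3971, l3282, l5716] l7054 := rupP (by decide +kernel)
theorem r7055 : PImp [l4655, l432, o3964, o3969, l3303, l2791, l1360, l7048, o3907, l1267, o3896, l7053, l4525, l4086, l7052, l7054, l3978, l3972, l3282, l5716] l7055 := rupP (by decide +kernel)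
theorem r7056 : PImp [l4763, l4655, l432, o3946, o3952, l3303, l5113, l5112, l1357, l1316, o3907, l5842, l5049, l5046, l5964] l7056 := rupP (by decide +kernel)
theorem r7057 : PImp [l3303, l4655, l432, l5113, l5112, l1357, l1316, o3952, o3946, o4036, o3888, l7055, l7056, o3896, l5964, l5048, l5672] l7057 := rupP (by decide +kernel)
theorem r7058 : PImp [l3303, l2791, l4655, l432, l1254, l5276, l5112, l1360, l1316, l7051, l7057, l2779, l5978, l7050, l7053, l1267, l4069, o3902, o2443, l706, o5985] l7058 := rupP (by decide +kernel)
theorem r7059 : PImp [o6309, o6176] l7059 := rupP (by decide +kernel)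
theorem r7060 : PImp [o8770, o8832] l7060 := rupP (by decide +kernel)
theorem r7061 : PImp [o4378, l2880, o6845] l7061 := rupP (by decide +kernel)
theorem r7062 : PImp [l5112, l4655, l3300, l3301, o1665, l6979, l342, o2808, o2803, l7061, l438, l441, l442, o5065, l3646, l4672, l3313, l4764, l3648, l3683, l3721, l4973, o6919, l3205, o5019, o3287, o7001] l7062 := rupP (by decide +kernel)
theorem r7063 : PImp [l3207, l3677] l7063 := rupP (by decide +kernel)
theorem r7064 : PImp [l7063, o5035, l4826, l3661] l7064 := rupP (by decide +kernel)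
theorem r7065 : PImp [l6076, l3673] l7065 := rupP (by decide +kernel)
theorem r7066 : PImp [l4655, l432, l1254, l1138, l1242, l5113, l4151, l4077, l7062, l3277, l3278, o1750, l7064, l2863, l7065, o5035, o5056, l3657, l3363, o6943, o6934] l7066 := rupP (by decide +kernel)
theorem r7067 : PImp [o2804, o2803, l6987] l7067 := rupP (by decide +kernel)
theorem r7068 : PImp [l4655, l432, l1254, l1138, l3301, o1611, l7067, l3046, l6094, o5040, l4319, l3645] l7068 := rupP (by decide +kernel)
theorem r7069 : PImp [l6081, l3678, l4342] l7069 := rupP (by decide +kernel)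
theorem r7070 : PImp [l6070, l3682] l7070 := rupP (by decide +kernel)
theorem r7071 : PImp [l3276, l5276, l5113, l7066, l7068, l3278, l7069, l7070, l3692, l4333] l7071 := rupP (by decide +kernel)
theorem r7072 : PImp [l3301, o1611, l7067, l3046, l6092, o4100, l4319, l3645] l7072 := rupP (by decide +kernel)
theorem r7073 : PImp [l4655, l432, l1254, l1138, l5112, l7022, o5040, l4330, l3663] l7073 := rupP (by decide +kernel)
theorem r7074 : PImp [l3276, l5113, l7066, l7068, l3277, l3278, l7073, l7070, l3692, l4333] l7074 := rupP (by decide +kernel)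
theorem r7075 : PImp [l7071, l7074] l7075 := rupP (by decide +kernel)
theorem r7076 : PImp [l5112, l4655, o2808, l7061, l441, l442, o5065, l3646, l4672, l3313, o6955, l4764, l3648, o4236, l3683, l4685, o6919, l3205, l4973, o3287, o7001, o5019] l7076 := rupP (by decide +kernel)
theorem r7077 : PImp [l3655, l4635] l7077 := rupP (by decide +kernel)
theorem r7078 : PImp [l3013, l4655, l427, l5112, l3300, l3301, o1665, l6998, o2700, l7076, l7077, l442, o4371, l4825, o6845] l7078 := rupP (by decide +kernel)
theorem r7079 : PImp [l4655, l432, l1254, l1138, l1242, l5113, l4151, l4077, l7078, l3277, l3278, o1750, l7064, l7065, l2863, o5035, o5056, l3657, l3363, o6943, o6934] l7079 := rupP (by decide +kernel)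
theorem r7080 : PImp [l5276, l7073, l7069] l7080 := rupP (by decide +kernel)
theorem r7081 : PImp [l2791, o6732, o4036, l4655, l6248, o4498, o3997, l432, o3964, o3978, l1244, l6200, l6818, l2711, l1254, l5113, l3291, l3282, l3276, l3284, l7059, o1530, o6150, l2792, l7075, l7079, l4323, l7072, l3277, l3278, l7080, l7070, l4333, l3692] l7081 := rupP (by decide +kernel)
theorem r7082 : PImp [o2805, l3240, l3242, l3184, l7076] l7082 := rupP (by decide +kernel)
theorem r7083 : PImp [l4655, l432, l1254, l1138, o2801, o2805, l7082, l7064, l3241, l3185, l7076] l7083 := rupP (by decide +kernel)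
theorem r7084 : PImp [l3240, l3242, l7077, l6093, l442] l7084 := rupP (by decide +kernel)
theorem r7085 : PImp [l6248, l6948, o5364, l5112, l3426, l3439, l4138, l4655, l433, o4487, o4825, l5035, l2902, l4848, l432, o4479, o4807, l5113, o4812, l2896, o4836, l2920, l5171, l2926, l4883, l6937, l476, o5354, l1254, l1138, l1242, l4151, l4077, l7083, l2863, l2865, l7084, l3201, l6190, o5035, o5053, o5056, l3208, l7077, l3669, l3192, l3657, o6950, l3363, o385, o6943] l7085 := rupP (by decide +kernel)
theorem r7086 : PImp [o2804, l1357, l3240, l3242, l7021, l6986, l4320, o6981] l7086 := rupP (by decide +kernel)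
theorem r7087 : PImp [l5276, o2801, l7086, l7080, l7069, l3241, l7022, l7021] l7087 := rupP (by decide +kernel)
theorem r7088 : PImp [l4336, l3680] l7088 := rupP (by decide +kernel)
theorem r7089 : PImp [l7088, l4332, l3694] l7089 := rupP (by decide +kernel)
theorem r7090 : PImp [l4655, l432, l1254, l1138, l1242, l5113, l7087, l7089, l6190, l7070] l7090 := rupP (by decide +kernel)
theorem r7091 : PImp [l4655, l427, l5112, l3240, l3242, l7077, l6998, l442, o4371, l4825, o6845] l7091 := rupP (by decide +kernel)
theorem r7092 : PImp [l4086, l4525, l4655, l427, o3938, l1244, l3013, o1745, l2791, o6732, l6248, l476, l6948, o5354, l433, o4487, o4825, l5112, l5035, l2902, l4848, o5364, l3426, l432, o4479, o4807, l5113, o4812, l2896, o4836, l2920, l5171, l2926, l4883, l4188, l3427, l3439, l4138, l6937, l1254, l1138, l1242, l4057, o2461, l7081, l3998, l4001, o2496, l7090, l4151, l4077, l7085, l7083, l2863, l2865, l7091, l3201, l6190, o5035, o5053, o5056, l3208, l7077, l3669, l3192, l3657, o6950, l3363, o385, o6943] l7092 := rupP (by decide +kernel)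
theorem r7093 : PImp [l3240, l3242, l7061, l441, l442, l3683, l4672, l4764] l7093 := rupP (by decide +kernel)
theorem r7094 : PImp [l4655, l432, l1254, l1138, l5112, l342, l2882, o2808, o2803, l7093, l3205, l7064, l7063, l3241, l3187, l435, o5029, o5035, o5038, o5056, l4672, l3646, l4764, l3647, l3703, l3313, l3721, l4347, l4973, o6928, o5019, o3286, o7001] l7094 := rupP (by decide +kernel)
theorem r7095 : PImp [l6093, l7004, o5061, o6909, o6928] l7095 := rupP (by decide +kernel)
theorem r7096 : PImp [l5112, l7095, l4655, l7011, l6997, o5061, o6909, o6928] l7096 := rupP (by decide +kernel)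
theorem r7097 : PImp [l3240, l4655, l432, l1254, l1138, l5112, o5035, l3679, l4635, l4764] l7097 := rupP (by decide +kernel)
theorem r7098 : PImp [l4655, l427, l3240, l3242, l3186, l7096, l7097, l441, o4372, l4825, o6845] l7098 := rupP (by decide +kernel)
theorem r7099 : PImp [l6248, l6200, l5467, l4188, l2661, l4655, l432, l1254, l1138, l1242, l5113, l4077, l7094, l2863, l2865, l2869, l7098, l3201, l3197, l7065, o5044, o5053, o5056, l3208, l3669, o6950, o382, o385, o8491, o1182, o6954, o6928] l7099 := rupP (by decide +kernel)
theorem r7100 : PImp [l3998, l3997] l7100 := rupP (by decide +kernel)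
theorem r7101 : PImp [l2882, l1000, o5029, o5035, l6081, l3705, l4329] l7101 := rupP (by decide +kernel)
theorem r7102 : PImp [l1000, l4655, l432, l1254, l1138, l5276, l5112, o2806, o2803, l7067, l7086, l3277, l7101, l439, o4379, l3678, l3663, l3945, l6077] l7102 := rupP (by decide +kernel)
theorem r7103 : PImp [l4655, l427, o3938, l1244, l3013, l6248, l6948, o5364, l5112, l3426, l6200, l6818, l3336, l3115, l1357, l3427, l755, l4180, l2820, l3374, o5388, l3219, l2846, l4662, l6249, l5467, l6247, l2791, o6732, l4138, o792, l476, o5354, l433, o4487, o4825, l5035, l2902, l4848, l432, o4479, o4807, l5113, o4812, l2896, o4836, l2920, l5171, l2926, l4883, l4188, l3439, l6937, o5350, l4230, l7092, l7099, l7100, l7102, l7089, l7070, l4333, l3692] l7103 := rupP (by decide +kernel)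
theorem r7104 : PImp [l1244, l3013, l6248, l476, l6948, o5354, l4655, l433, o4487, o4825, l5112, l5035, l2902, l4848, o5364, l3426, l432, o4479, o4807, l5113, o4812, l2896, o4836, l2920, l5171, l2926, l4883, l4188, l427, l7103, l4074, l6678, l3068] l7104 := rupP (by decide +kernel)
theorem r7105 : PImp [l6248, l6948, o5364, l4655, l433, o4487, o4812, o4836, l6937, l1357, l1316, l7104, l6656, l5962] l7105 := rupP (by decide +kernel)
theorem r7106 : PImp [l3303, l4655, l432, l1254, l5112, l1360, l1316, o3895, l2779, l5978, l6969, l7002, l6958, l7053] l7106 := rupP (by decide +kernel)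
theorem r7107 : PImp [l6200, l6248, l6818, l4655, l432, l1254, l3291, l3282, l7059, l5716, l3844] l7107 := rupP (by decide +kernel)
theorem r7108 : PImp [l5112, l4655, l342, o2803, o2585, o2584, l7093, o1653, l7063, o1649, l435, l4828, l3721, l3696, l4368, l4369, l508, l2775, o6097, o6071] l7108 := rupP (by decide +kernel)
theorem r7109 : PImp [l5112, l7084, l7091] l7109 := rupP (by decide +kernel)
theorem r7110 : PImp [l4655, l432, l1254, l1138, l1242, l5112, l7108, l2863, l7109, l7065, o5035, o5056, l7077, l3192, l3657, l7000, l3363, o6943] l7110 := rupP (by decide +kernel)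
theorem r7111 : PImp [l3240, l7088, l439, l4332, l4331, l3672, l3650] l7111 := rupP (by decide +kernel)
theorem r7112 : PImp [l1244, o3896, l4655, l6248, o4498, o3997, l427, o3938, l432, o3946, o3952, l3013, l3303, l1254, l1138, l1242, l5113, l5112, l1357, l5034, l4086, l4230, l5964, l7107, l3998, l4001, o6227, l3992, l7100, l4057, o2461, o2488, l710, l4031, l4050, l2784, l7110, l7087, l7111, l7070, l6190] l7112 := rupP (by decide +kernel)
theorem r7113 : PImp [l6248, l1360, l6200, l3484, o5339, l6948, l2308, l5112, l6221, l5732, l6944, o5740, l7046, l2820, l3374, o5391, o5364, l3426, l6818, l3336, l3115, l1357, l3427, l755, l4180, l7036, o5407, o5812, l4655, l433, o4487, o4825, l432, o4479, o4816, l6934, l2571, l5035, l2902, l4848, o4807, l5113, o4812, l2896, o4836, l2920, l5171, l2926, l4883, l2604, l7037, l6940, l2846, l3219, l3512, l5245, l3494, o5388, l4662, l2602, l2713, o8988, o9066, l6249, l5467, l6247, l2948, l2791, o6732, l476, o5354, l4188, l3439, l6937, o5350, l2711, l427, l1316, l7058, l3013, l1244, l7106, o3938, o3888, l7105, l7112, l5962, l5863,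 l6678, l3068] l7113 := rupP (by decide +kernel)
theorem r7114 : PImp [l4655, l430, l4970, l6248, l6200, l5467, l6247, l5112, l3426, l3427, l3439, l432, l1254, l1138, l1242, l5113, l4077, l7099, l7094, l2863, l2865, l7109, l3201, l7065, o5035, o5053, o5056, l3208, l7077, l3669, l3192, l3657, o6950, l3363, o385, o6943] l7114 := rupP (by decide +kernel)
theorem r7115 : PImp [l3308, l1138, l1242, l5859, o3891, o5915, o6034] l7115 := rupP (by decide +kernel)
theorem r7116 : PImp [l1268, l4655, l432, l1254, l7115, l4763, l6656, l5033, o3895, o2450, l5845] l7116 := rupP (by decide +kernel)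
theorem r7117 : PImp [l1084, l706] l7117 := rupP (by decide +kernel)
theorem r7118 : PImp [l4550, l4552] l7118 := rupP (by decide +kernel)
theorem r7119 : PImp [l4655, l430, l4970, l3308, l5276, l5112, l1268, l7116, l7117, l6595, l1074, l7118, o3895, o3891, l5982, o6015, o2464, l5043] l7119 := rupP (by decide +kernel)
theorem r7120 : PImp [l5050, l5021, l4047] l7120 := rupP (by decide +kernel)
theorem r7121 : PImp [l4655, l432, l1254, l1138, l1242, l5034, l7120, o3895, l5859, l6656] l7121 := rupP (by decide +kernel)
theorem r7122 : PImp [l3308, l4655, l430, l5276, l5112, l1357, l1316, l4970, l7119, l7121, l7117, l6595, l1074, l7118, o2444, o2455, l2779, l5071, l5048, l4534] l7122 := rupP (by decide +kernel)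
theorem r7123 : PImp [l3308, l4655, l6248, o4498, l432, l1254, l1138, l1242, l5034, l4086, l4230, l7120, l7107, o3999] l7123 := rupP (by decide +kernel)
theorem r7124 : PImp [l5968, l4550, l4552] l7124 := rupP (by decide +kernel)
theorem r7125 : PImp [l6248, l1360, l6200, l3484, o5339, l6948, l2308, l5112, l6221, l5732, l6944, o5740, l7046, l2820, l3374, o5391, o5364, l3426, l6818, l3336, l3115, l1357, l3427, l755, l4180, l7036, o5407, o5812, l4655, l433, o4487, o4825, l432, o4479, o4816, l6934, l2571, l5035, l2902, l4848, o4807, l5113, o4812, l2896, o4836, l2920, l5171, l2926, l4883, l2604, l7037, l6940, l2846, l3219, l3512, l5245, l3494, o5388, l4662, l2602, l2713, o8988, l5467, l6247, l476, o5354, l4188, l3439, l6937, l1254, l1138, l1242, l5276, l1316, l7113, l3308, l7122, l7123, l7117, l4763, l1074, l7124, o3895, l2779, l5982, l7120, l5048, l4534, l4542, l5043] l7125 := rupP (by decide +kernel)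
theorem r7126 : PImp [l1268, l7048, o3907] l7126 := rupP (by decide +kernel)
theorem r7127 : PImp [l4655, l432, l1254, l5113, l3291, l3282, l3980, l7059, l2792, o1530, o6150] l7127 := rupP (by decide +kernel)
theorem r7128 : PImp [l7088, l4343, l3694] l7128 := rupP (by decide +kernel)
theorem r7129 : PImp [l4230, l4086, l4525, l2791, l4655, l6248, o4498, l432, l1254, l1138, l1242, l427, l5113, o3964, o3938, o3997, o4036, o3888, l7126, l1244, l7127, l3998, l4001, l7100, l4057, o2488, l7087, l7128, l7070, l6190] l7129 := rupP (by decide +kernel)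
theorem r7130 : PImp [l5034, l7129, o3895, l2779, l6958, l4055, l7050, l5065, o2451] l7130 := rupP (by decide +kernel)
theorem r7131 : PImp [l4655, l432, l1254, l5112, l1316, l7130, l5978, l4760, l4761] l7131 := rupP (by decide +kernel)
theorem r7132 : PImp [l4655, l432, l1254, l1138, l1242, l5034, l7131, l7120, o3895, l5859, l5960] l7132 := rupP (by decide +kernel)
theorem r7133 : PImp [l3308, l4655, l427, l1360, o3938, o4036, o3888, l5863, l7126, o6115, o2444] l7133 := rupP (by decide +kernel)
theorem r7134 : PImp [l5276, l1360, l7117, l3304, l7133, l2779, l4041, l4042] l7134 := rupP (by decide +kernel)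
theorem r7135 : PImp [l1357, l1316, l5048, l5049, l4734] l7135 := rupP (by decide +kernel)
theorem r7136 : PImp [l6249, l6248, l6200, l5467, l6247, l2948, l2791, o6732, l5112, l3426, l4188, l3427, l3439, l6818, l2711, l4655, l432, l1254, l1138, l1242, l7114, l7132, l7134, l4763, l7135, l3303, l3304, l7124, l1074, o3895, l2779, l7120, l4533, l4542, l4534, l5043] l7136 := rupP (by decide +kernel)
theorem r7137 : PImp [l3240, l7088, l439, l4343, l4331, l3672, l3650] l7137 := rupP (by decide +kernel)
theorem r7138 : PImp [l7123, l3303, l4230, l4086, l4525, l5034, l4655, l428, l1217, l6248, o4498, l432, l1254, l1138, l1242, l427, l5113, o3946, o3964, o3938, o3997, o4036, o3888, l7127, l7055, o6227, o6483, l3998, l7100, l3992, l1244, l4057, o3896, o2461, l710, o2488, l4031, l4050, l2784, l7110, l7087, l7137, l7070, l6190] l7138 := rupP (by decide +kernel)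
theorem r7139 : PImp [l7123, l5034, l7138, o3895, l2779, l6958, l4055, l7050, l5065, o2451] l7139 := rupP (by decide +kernel)
theorem r7140 : PImp [l4655, l432, l1254, l5112, l1316, l7123, l7139, l5978, l4760, l4761] l7140 := rupP (by decide +kernel)
theorem r7141 : PImp [l3308, o3938, l4074, l4002, l3068] l7141 := rupP (by decide +kernel)
theorem r7142 : PImp [l4655, l427, l5276, l1360, l3770, l7117, l3304, l3308, o1738, l7141, l2779, l4042, l7053, o2678, l4069, o6128, l5266, o4015, o5985] l7142 := rupP (by decide +kernel)
theorem r7143 : PImp [l6248, l1360, l6200, l3484, o5339, l6948, l2308, l5112, l6221, l5732, l6944, o5740, l7046, l2820, l3374, o5391, o5364, l3426, l6818, l3336, l3115, l1357, l3427, l755, l4180, l7036, o5407, o5812, l4655, l433, o4487, o4825, l432, o4479, o4816, l6934, l2571, l5035, l2902, l4848, o4807, l5113, o4812, l2896, o4836, l2920, l5171, l2926, l4883, l2604, l7037, l6940, l2846, l3219, l3512, l5245, l3494, o5388, l4662, l2602, l2713, o8988, o9066, l6249, l5467, l6247, l2948, l2791, o6732, l4138, o792, l476, o5354, l4188, l3439, l6937,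 o5350, l2711, l1254, l1138, l1242, l428, l7125, l1217, l7136, l7140, l4184, l7142, l4763, l7135, l3303, l3304, l7124, l1074, o3895, l2779, l7120, l4533, l4542, l4534, l5043] l7143 := rupP (by decide +kernel)
theorem r7144 : PImp [l4655, l432, l1254, l5113, l3286, l3282, o6177, o6150, o1528] l7144 := rupP (by decide +kernel)
theorem r7145 : PImp [l4655, l432, l1254, l1138, l1357, l342, l2882, o2808, o2803, l7082, l7063, l435, l436, o5029, o5035, l3685, l4831, l6069, l3938, l3944] l7145 := rupP (by decide +kernel)
theorem r7146 : PImp [l4655, l427, o3938, l7143, l6248, l6948, o5364, l5112, l6200, l1360, l6221, l5732, l6944, l3484, o5339, o5740, l7046, l3426, l6818, l3336, l3115, l1357, l3427, l755, l4180, l2308, l2820, l3374, o5391, l7036, o5407, o5812, l433, o4487, o4825, l432, o4479, o4816, l6934, l2571, l5035, l2902, l4848, o4807, l5113, o4812, l2896, o4836, l2920, l5171, l2926, l4883, l2604, l7037, l6940, l2846, l3512, l6625, l2711, l2602, l4086, l4233, o4498, o4012, l2791, o6732, o4036, o2659, o3289, l7144, l4001, l7100, l428, l1218, l3219, l5245, l3494, o5388,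 l4662, l2713, o8988, o9066, l6249, l5467, l6247, l2948, l476, o5354, l4188, l3439, l4138, l6937, l1254, l1138, l1242, l7058, l1244, l4057, o2488, l7090, l4151, l4077, l7145, l2863, l2865, l7109, l3201, l7065, o5035, o5053, o5056, l3208, l7077, l3669, l3192, l3657, o6950, l3363, o385, o6943] l7146 := rupP (by decide +kernel)
theorem r7147 : PImp [l4233, l4086, l7143, l6248, l6948, o5364, l5112, l6200, l1360, l6221, l5732, l6944, l3484, o5339, o5740, l7046, l3426, l6818, l3336, l3115, l1357, l3427, l755, l4180, l2308, l2820, l3374, o5391, l7036, o5407, o5812, l4655, l433, o4487, o4825, l432, o4479, o4816, l6934, l2571, l5035, l2902, l4848, o4807, l5113, o4812, l2896, o4836, l2920, l5171, l2926, l4883, l2604, l7037, l6940, l2846, l3512, l2602, l2791, o6732, l2711, o4498, l427, o3938, o4012, o4036, l6625, o2659, o3289, l7144, l7146, l3308] l7147 := rupP (by decide +kernel)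
theorem r7148 : PImp [l5034, l6248, l1360, l6200, l3484, o5339, l6948, l2308, l5112, l6221, l5732, l6944, o5740, l7046, l2820, l3374, o5391, o5364, l3426, l6818, l3336, l3115, l1357, l3427, l755, l4180, l7036, o5407, o5812, l4655, l433, o4487, o4825, l432, o4479, o4816, l6934, l2571, l5035, l2902, l4848, o4807, l5113, o4812, l2896, o4836, l2920, l5171, l2926, l4883, l2604, l7037, l6940, l2846, l3219, l3512, l5245, l2602, l2713, o8988, l5467, l3439, l1254, l1138, l1242, l7147, o3895, l2779, l7120, l7050, l6969, l7040] l7148 := rupP (by decide +kernel)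
theorem r7149 : PImp [l4655, l428, l1218, l6248, l6948, o5364, l5112, l3426, l3439, l4138, l433, o4487, o4825, l5035, l2902, l4848, l432, o4479, o4807, l5113, o4812, l2896, o4836, l2920, l5171, l2926, l4883, l6937, l476, o5354, l1254, l1138, l1242, l4151, l4077, l7145, l2863, l2865, l7109, l3201, l7065, o5035, o5053, o5056, l3208, l7077, l3669, l3192, l3657, o6950, l3363, o385, o6943] l7149 := rupP (by decide +kernel)
theorem r7150 : PImp [l3240, l7088, l439, l3664, l4324] l7150 := rupP (by decide +kernel)
theorem r7151 : PImp [l4233, l4086, l1360, l6200, l5732, l2791, o6732, l6248, l476, l6948, o5354, l4655, l433, o4487, o4825, l5112, l5035, l2902, l4848, o5364, l3426, l432, o4479, o4807, l5113, o4812, l2896, o4836, l2920, l5171, l2926, l4883, l4188, l3427, l6221, l6818, l2711, o4498, l1254, l1138, l1242, l427, o3938, o4012, o4036, o3888, l6625, l7126, o2659, o3289, l1244, l7144, l7100, l4001, l4057, o2488, l7149, l7087, l7150, l7070, l6190] l7151 := rupP (by decide +kernel)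
theorem r7152 : PImp [l5034, l7151, o3895, l2779, l6958, l4055, l7050, l5065, o2451] l7152 := rupP (by decide +kernel)
theorem r7153 : PImp [l5034, l7143, l6248, l1360, l6200, l3484, o5339, l6948, l2308, l5112, l6221, l5732, l6944, o5740, l7046, l2820, l3374, o5391, o5364, l3426, l6818, l3336, l3115, l1357, l3427, l755, l4180, l7036, o5407, o5812, l4655, l433, o4487, o4825, l432, o4479, o4816, l6934, l2571, l5035, l2902, l4848, o4807, l5113, o4812, l2896, o4836, l2920, l5171, l2926, l4883, l2604, l7037, l6940, l2846, l3219, l3512, l5245, l3494, o5388, l4662, l2602, l2713, o8988, o9066, l6249, l5467, l6247, l2948, l3439, l1254, l1138, l1242, l7148, l7152, l7120, o3895, l4058, l4061] l7153 := rupP (by decide +kernel)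
theorem r7154 : PImp [l4655, l432, l1254, l1138, l1242, l5112, l1316, o3895, l5978, l7120] l7154 := rupP (by decide +kernel)
theorem r7155 : PImp [l6248, l1360, l6200, l3484, o5339, l6948, l2308, l5112, l6221, l5732, l6944, o5740, l7046, l2820, l3374, o5391, o5364, l3426, l6818, l3336, l3115, l1357, l3427, l755, l4180, l7036, o5407, o5812, l4655, l433, o4487, o4825, l432, o4479, o4816, l6934, l2571, l5035, l2902, l4848, o4807, l5113, o4812, l2896, o4836, l2920, l5171, l2926, l4883, l2604, l7037, l6940, l2846, l3219, l3512, l5245, o5388, l4662, l2602, l2713, o8988, l3439, l6937, l5034, l7153, l7154, l5960, l4760, l4761] l7155 := rupP (by decide +kernel)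
theorem r7156 : PImp [l4655, l432, l1254, l5113, l5112, l1357, l1316, l3303, l5978, l5048, o4004, o2646, l6136, o6088] l7156 := rupP (by decide +kernel)
theorem r7157 : PImp [l6248, l1360, l6200, l3484, o5339, l6948, l2308, l5112, l6221, l5732, l6944, o5740, l7046, l2820, l3374, o5391, o5364, l3426, l6818, l3336, l3115, l1357, l3427, l755, l4180, l7036, o5407, o5812, l4655, l433, o4487, o4825, l432, o4479, o4816, l6934, l2571, l5035, l2902, l4848, o4807, l5113, o4812, l2896, o4836, l2920, l5171, l2926, l4883, l2604, l7037, l6940, l2846, l3219, l3512, l5245, l3494, o5388, l4662, l2602, l2713, o8988, o9066, l5467, l6247, l2948, l2791, o6732, l476, o5354, l4188, l3439, l6937, l2711, l7155, l4433, l7134, l4763, l3958, l7156, l3308, l7124, l1074, o3895, l7154, l4542, l5043, l4543] l7157 := rupP (by decide +kernel)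
theorem r7158 : PImp [l4655, o2803, l7093, l7063, l4828, l3685] l7158 := rupP (by decide +kernel)
theorem r7159 : PImp [l4655, l428, l1218, l432, l1254, l1138, l1242, l5112, l7158, l2863, l7109, l7065, o5035, o5056, l7077, l3192, l3657, l7000, l3363, o6943] l7159 := rupP (by decide +kernel)
theorem r7160 : PImp [l7088, o5072, l4332, l3667, l3672, o8755, o6821] l7160 := rupP (by decide +kernel)
theorem r7161 : PImp [l4655, l432, l1254, l1138, l1242, l5113, l7070, l6190] l7161 := rupP (by decide +kernel)
theorem r7162 : PImp [l4233, l4086, l1360, l6200, l5732, l6221, l6248, l6818, l4655, o4498, l427, o3938, o4012, o4036, o3888, l6625, l7055, o2659, o3289, l1244, l7144, l7100, l4001, l4057, o2488, l7159, l4315, l7087, l2868, l7161, l3240, l7088, l7160, l439, l4324, l4764, l3650, l3672] l7162 := rupP (by decide +kernel)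
theorem r7163 : PImp [l5034, l7162, o3895, l2779, l6958, l4055, l7050, l5065, o2451] l7163 := rupP (by decide +kernel)
theorem r7164 : PImp [l4086, l5034, l1360, l6200, l5732, l6221, l4655, l432, l1254, l1138, l1242, l7163, l3308, l3261, l7120, l5716, o3895, o3893, l4051, l4058, o6297, l710] l7164 := rupP (by decide +kernel)
theorem r7165 : PImp [l4655, l428, l1218, l6200, l1360, l6221, l427, l5113, l5112, l5034, l7164, l7154, o3938, o3888, l5818, l4760, l4761] l7165 := rupP (by decide +kernel)
theorem r7166 : PImp [l6248, o5407, l6948, o5812, l476, o5350, o5354, l4655, l432, o4479, o4816, o4807, l433, o4487, o4836, o4825, o4812, o5364, l6934, l6200, l6818, l2711, l3336, l3115, l3219, l428, l5113, l5112, l1360, l1357, l5035, l6221, l5732, l3484, o5339, l6944, o5740, l2308, l7036, l7046, l2820, l2920, l2926, l2896, l2902, l6937, l3426, l5171, l3374, l4883, l4848, l2571, l3439, l3427, o5388, o5391, l4188, l2604, l755, l7037, l4180, l2689, l2791, l2602, l6940, o6732, l2713, l2846, l2948, l6247, l5467, l6249, o9066, o8988, l4662, l3512, l3494, l5245, l7143, l1218,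 l7157, l7165, l4433, l4184, l7142, l4763, l3958, l7156, l3308, l7124, l1074, o3895, l7154, l4542, l5043, l4543] l7166 := rupP (by decide +kernel)
theorem r7167 : PImp [o8798, o8655] l7167 := rupP (by decide +kernel)
theorem r7168 : PImp [l6248, o5407, l6948, o5812, l476, o5350, o5354, l4655, l432, o4479, o4807, l433, o4487, o4825, o4812, l3117, l6200, l6934, l1357, l6950, l6448, l3927, l2662, l2604, l7167, o801, o9147, l5711, l2713, l2594] l7168 := rupP (by decide +kernel)
theorem r7169 : PImp [l4655, l6248, o4498, l432, l1254, l427, o3938, o3997, o4012, l5859, l7100, l3303, l3291, l3282, l6709, l4027, l7059, o2690, o2650, o1530, o5895, l7144] l7169 := rupP (by decide +kernel)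
theorem r7170 : PImp [l4525, l5034, l4655, l432, l1254, l1138, l1242, l5112, l4773, l4769, l7169, l6726, l7040, l6311, l7120, l3045, l4026, o2480, o3895, o3979, o3923, l3967, l4719] l7170 := rupP (by decide +kernel)
theorem r7171 : PImp [o5895, o6150] l7171 := rupP (by decide +kernel)
theorem r7172 : PImp [l6200, l6248, l6818, l3933, o853, l4525, l2711, l4655, o4498, l430, o4463, l432, l1254, l427, l5113, o3969, o3978, o3938, o4012, o3991, l6625, l7100, l319, l3286, l3289, l3282, o6307, o3746, l7171, l3320, o947, o1528, l3971, l3967, o6177, l5854, o2649, o3907, l4032] l7172 := rupP (by decide +kernel)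
theorem r7173 : PImp [l3303, l7040, l6709] l7173 := rupP (by decide +kernel)
theorem r7174 : PImp [o8658, o8801] l7174 := rupP (by decide +kernel)
theorem r7175 : PImp [l4587, l5034, l4655, l432, l1254, l1138, l1242, l5102, l3236, l6427, l3239, l6200, l6248, l6818, l2711, o8774, o3853, l6369, l6374, l4494, l4495, l7170, l7172, l7173, l3308, l7120, l6726, o3895, l6311, l2789, o2455, o5915] l7175 := rupP (by decide +kernel)
theorem r7176 : PImp [l4655, l6248, o4498, l432, l1254, l427, l5113, o3938, o3997, l7100, l3291, l3282, l7059, o1530, o6275, l7171, o3745] l7176 := rupP (by decide +kernel)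
theorem r7177 : PImp [l2794, l4618] l7177 := rupP (by decide +kernel)
theorem r7178 : PImp [l5034, l5260, l4655, l432, l1254, l1138, l1242, l7170, l7176, l6958, o3895, l7120] l7178 := rupP (by decide +kernel)
theorem r7179 : PImp [l4086, l5034, l4655, l433, l6248, o4487, l6948, o4825, l5035, l4851, l3216, l432, l1254, l1138, l1242, l5102, l5260, l430, l4970, l476, o5354, o4479, o4807, o4812, l6934, l6200, l6818, l2711, l3336, l3119, l3117, l3115, l5112, l1360, o3833, l7168, l5653, l6365, l2544, l2545, l2594, l6448, l2660, l2662, l7167, l1127, l7174, o5475, l4769, l7175, o3855, l7177, l7178, l7172, l7173, o3895, l7120] l7179 := rupP (by decide +kernel)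
theorem r7180 : PImp [l4655, l430, l4970, l5113, l5112, l6235, l3410, l3415] l7180 := rupP (by decide +kernel)
theorem r7181 : PImp [l3216, l6248, o5407, l6948, o5812, l6934, l7168, l7179, l5653, o8906, l2594, l2713] l7181 := rupP (by decide +kernel)
theorem r7182 : PImp [l4233, l4230, l4228, l6934, l4655, l433, l6248, o4487, l6948, o4812, l432, o4479, o4807, l6200, l6818, l7166, l390, l2845, l6212, l430, o4463, l3223, l4908, o2875, l5035, l5112, l3336, l3115, o4825, l6184, l4130, l3219, l4902, l6701, l7180, l2604, l2662, l5275, l5039, l4970, l6425, o4498, l4891, l6886, l482, l3476, l483, l3509, l476, o5350, o5458, l2673, l2674, l2569, l4133, o5407, o5812, o4816, o5364, l3117, l7167, o801, l7181, l6940, l6181] l7182 := rupP (by decide +kernel)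
theorem r7183 : PImp [l4086, l4525, l4655, l432, l5113, o3969, o3964, l4059, l3043, o2676, l3977, l3971, l6189] l7183 := rupP (by decide +kernel)
theorem r7184 : PImp [l5112, l1316, l7183, l7040, l4053, o3906, l2779, o3897, l2794, l5844] l7184 := rupP (by decide +kernel)
theorem r7185 : PImp [l5034, l4655, l432, l1254, l1138, l1242, l4773, l5719, l4769, l7184, l3308, l5859, l7120, o3895, l2789, o5915, o6034] l7185 := rupP (by decide +kernel)
theorem r7186 : PImp [l4655, l432, l1254, l1138, l1242, l5102, l3236, l6427, l3106, l3105, l3104, l5035, l5112, l6200, l6248, l6818, l3336, l3115, l433, o4487, l6948, o4825, l390, l2845, l6184, l4130, l6701, l3122, l3216, l2512, l2511, l430, l4970, l3219, o4479, l6886, l483, l3509, l476, o5350, o5458, l482, l5039, l2674, l4133, l4132, o5354, l428, o4458, o4787, o5364, l3119, l3117, l6785, l6352, o5193, o5483, o8774, l6369, l6428, o8658, l2357, l4305, l4304, l1669, o3764, o3809, o3177, o8655, o6644, o781, l6403, o9043] l7186 := rupP (by decide +kernel)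
theorem r7187 : PImp [l3308, l4525, l4655, l432, l1254, l5113, o3978, o3964, o3991, l5854, l4058, l3979, o6307, o3907, o2461, o3746, l4032, l7171, l3967, o947] l7187 := rupP (by decide +kernel)
theorem r7188 : PImp [l3308, l4655, l432, l1254, l1138, l1242, l7042, l4056, o3895, o2444, l2789, o5915] l7188 := rupP (by decide +kernel)
theorem r7189 : PImp [l6248, l476, l6948, o5354, l3219, l4655, l432, o4479, l6200, l6818, l390, l2845, l6184, l6886, o5460, l4132, l2661, l3118, o8799, o3854, l3933, o853, l4086, l5034, l2515, l2514, l2513, l6934, l2604, l3345, l2662, l2660, l3927, l5035, l433, o4487, o4812, l5112, l3336, l3115, o4825, l4130, l6701, l3216, l4872, l1254, l1138, l1242, l5102, l5260, l430, l4970, l483, l3509, l5039, l2674, o5407, o5812, o4463, l3223, l1360, l2713, o9136, o9147, l5653, l6365, l2544, l2545, l4587, l7185, l7186, l7184, l3308, l3261, l3268, l7187, l7188, l7120, o3895, l2789, o5915, o6034] l7189 := rupP (by decide +kernel)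
theorem r7190 : PImp [l2602, l2594] l7190 := rupP (by decide +kernel)
theorem r7191 : PImp [l6934, l7190, l2713, l2604, l6248, o5407, l6948, o5812, l7189, o9136, o8906] l7191 := rupP (by decide +kernel)
theorem r7192 : PImp [o6748, o6600] l7192 := rupP (by decide +kernel)
theorem r7193 : PImp [l4655, l432, l1254, l5112, l1316, l3303, l5978, l4760, l5977, o2461, l6291] l7193 := rupP (by decide +kernel)
theorem r7194 : PImp [l4086, l6934, l6200, l6248, l6818, l7166, l390, l2845, l6212, l4655, l430, o4463, l3223, l4908, o2875, l5275, l7190, l7192, l2713, l433, o4487, l6948, o4812, l432, o4479, o4807, l5035, l5112, l3336, l3115, o4825, l6184, l4130, l3219, l4902, l6701, l7180, l2604, l2662, l3216, l5277, l5260, l6886, l482, l3476, l483, l3509, l476, o5350, o5458, l5039, l2673, l2569, o5407, o5812, l3117, l5113, l7182, l7167, l3321, l6637, o801, o9066, l7168, l5653, o3838, l7193, l3261, l5960, l5032, l7171, o2691] l7194 := rupP (by decide +kernel)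
theorem r7195 : PImp [l4086, l6934, l7190, l7192, l2713, l2604, l5260, l6248, o5407, l6948, o5812, l5113, l5035, o9136, l7191, o9147, o8906, l3321, l5653, o3838, l7193, l3261, l5960, l5032, l7171, o2691] l7195 := rupP (by decide +kernel)
theorem r7196 : PImp [o9066, o3237, l2571, o6644] l7196 := rupP (by decide +kernel)
theorem r7197 : PImp [l5260, l3303, l5862, o2461, l4070, l4072] l7197 := rupP (by decide +kernel)
theorem r7198 : PImp [l4655, l430, l4970, l427, l5112, l1360, l7197, l3308, l5943, l5847, o3938] l7198 := rupP (by decide +kernel)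
theorem r7199 : PImp [o6336, o6015] l7199 := rupP (by decide +kernel)
theorem r7200 : PImp [l4534, l4536] l7200 := rupP (by decide +kernel)
theorem r7201 : PImp [l3308, l7200, o2461, l4547, l4533, l5981] l7201 := rupP (by decide +kernel)
theorem r7202 : PImp [l4655, l432, l1254, l428, l6248, o4458, l6948, o4787, o5407, o5812, l6200, l6818, l7166, l390, l2845, l6212, l5035, l5112, l3336, l3115, l433, o4487, o4825, l6184, l4130, l3219, l4902, l6701, l3216, o4812, o4479, o4807, l430, o4463, l3223, l4908, o2875, l7180, l3927, l6934, l2604, l5275, l7190, l2713, l7192, l7196, l2662, l2660, l5277, l5260, l4970, l6886, l483, l3497, l3509, l476, o5350, o5458, l5039, l2673, l2674, l2569, l4133, l3119, l3117, l5113, l1357, l1316, l7174, l7167, l7194, l7168, o5475, o801, l5653, o8906, l2544, l4777, l7198, l4007, l3321, l5974, l5978, l3308, l3261, l7199, l3042, o2692, l7171, o124, l7201, l4692, l5048, o3983, l4690, o2480, l4714] l7202 := rupP (by decide +kernel)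
theorem r7203 : PImp [l7202, l4655, l432, l1254, l428, l6248, o4458, l6948, o4787, o5407, o5812, l6200, l6818, l7166, l390, l2845, l6212, l5035, l5112, l3336, l3115, l433, o4487, o4825, l6184, l4130, l3219, l4902, l6701, l3216, o4812, o4479, o4807, l430, o4463, l3223, l4908, o2875, l7180, l3927, l6934, l2604, l5275, l7190, l2713, l7192, l7196, l5277, l5039, l4970, l6425, l6886, l482, l3476, l4228, l7195] l7203 := rupP (by decide +kernel)
theorem r7204 : PImp [l6200, l7166, l390, l2845, l6248, l6818, l6212, l6184, l3219, l4655, l432, o4479, l6886, l483, l3497, l5039, l2673, l4130, o5407, l6948, o5812, l428, o4458, o4787, o4807, l433, o4487, o4825, o4812, l3336, l430, o4463, l3115, l3223, l6934, l1254, l5112, l1357, l1316, l5035, l4970, l4908, l4902, l5260, o2875, l6701, l5275, l5277, l3216, l7180, l3927, l2604, l7190, l2713, l7192, l7196, l7202, o9136, o9147, l7203, l7198, l5974, l5978, l4554, l7201, o2461, l5048] l7204 := rupP (by decide +kernel)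
theorem r7205 : PImp [l5112, l5035, l3397, o8606, o3468, o8773, l6448, l5831, l4884] l7205 := rupP (by decide +kernel)
theorem r7206 : PImp [l4655, l432, l1254, l5113, o3835, o6600, l5135, o4036, l7059, l5713, o1530] l7206 := rupP (by decide +kernel)
theorem r7207 : PImp [l5713, l7171, l6061] l7207 := rupP (by decide +kernel)
theorem r7208 : PImp [l4525, l4655, l427, l5113, o3969, o3938, l7100, l3282, l7207, l3320, l3972, l3971] l7208 := rupP (by decide +kernel)
theorem r7209 : PImp [l5112, l1316, l3303, l6709, l7208, l7173, l6958, l4053, l6311, o2450, l3085, l5047, l2794, o3895] l7209 := rupP (by decide +kernel)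
theorem r7210 : PImp [l6200, l6248, l6818, l3933, o853, l4086, l4525, l5034, l3117, l2662, l7167, o801, l4655, l432, o4479, l6948, o4816, l6736, l3216, l6934, l2604, o5407, o5812, l2711, o4498, l427, o4452, l3223, l1254, l1138, l1242, l5113, l7190, l7168, l2713, l5653, o8906, l2544, l3370, l4769, l7209, l3308, l3267, l3272, l3261, l3268, l7120, l7207, o3979, o3968, o3999, o4013, o3992, l3320, o947, o1528, o1530, o6177, o6176, l7059, l3979, o6307, l4051, l3967, o2439, o2440, l3087, o2415, l4058, l4026, l6726] l7210 := rupP (by decide +kernel)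
theorem r7211 : PImp [l5276, l1357, l6180, l5711] l7211 := rupP (by decide +kernel)
theorem r7212 : PImp [l6200, l7166, l390, l2845, l6248, l6818, l6212, l6184, l2569, l3117, l476, l6948, o5350, l3219, l4655, l432, o4479, l6886, o5458, l483, l3509, l3118, l433, o4487, o4812, o4825, o4836, o4807, o5354, l4132, o5460, l7205, l2662, l7167, o801, o5407, o5812, l6934, l2604, l482, l3119, l4133, l2660, l7174, o5487, l5039, l2673, l3497, l3927, l7211, l2544, l3387, l7190, l2713, o8906, o4816, l6736, o5475, l4769, l3370, o3838, l7204, l3476, l2674, l1254, l5113, l5112, l1316, l5035, l4086, l4228, l4230, l4233, l7210, l3321, l7207, l3261, l5978, l7193, l6629, l1140] l7212 := rupP (by decide +kernel)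
theorem r7213 : PImp [l4655, l427, l1360, o3938, l5847, l6288, l3308] l7213 := rupP (by decide +kernel)
theorem r7214 : PImp [l7213, l4655, l432, l427, l1360, l3303, l5862, l3045, l6301, o3981, o3975, o3958, o3906, l2779, l5847, l1140, l2781, l3977, o2480, l4692, l4016] l7214 := rupP (by decide +kernel)
theorem r7215 : PImp [l5276, l5112, l7213, l7214, l3308, l5943, l7117, l3027, l4838] l7215 := rupP (by decide +kernel)
theorem r7216 : PImp [l4655, l428, l5974, l5968, l1218, l3303, l7135] l7216 := rupP (by decide +kernel)
theorem r7217 : PImp [l3308, l4007, l1140, o2454, o2443, o3906, l4547, l4533, o5897, l4692, o3976] l7217 := rupP (by decide +kernel)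
theorem r7218 : PImp [l6200, l7166, l390, l2845, l6248, l6818, l6212, l6184, l2569, l3117, l476, l6948, o5350, l3219, l4655, l432, o4479, l6886, o5458, l483, l3509, l3118, l433, o4487, o4812, o4825, o4836, o4807, o5354, l4132, o5460, l7205, l2662, l7167, o801, l3119, l4133, l2660, l7174, o5475, l482, o5487, o4816, l6736, l3216, l6934, l2604, l3927, l7204, l3476, l3497, l5039, l2673, l2674, o5407, o5812, l1254, l5113, l5112, l1357, l1316, l5035, l7211, l2544, o3838, l3387, l3370, l4769, l4777, l7190, l7168, l2713, o8906, l7212, l7215, l4763, l4007, l3321, l7216, l5978, l3308, l3261, l7199, l7207, l3042, o124, l4085, l7217, l7201, l5048, l4692, l5266, o2465, o3979, l4547, l4542] l7218 := rupP (by decide +kernel)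
theorem r7219 : PImp [l6934, l3118, l6200, l6248, l6818, l4655, l433, o4487, l6948, o4812, o4825, o4836, l432, o4479, o4807, l476, o5354, l7166, l2845, l390, l6212, l6184, l4132, l3219, l6886, o5460, l7205, l2604, l2662, l483, l3509, o5350, o5458, l2569, o5407, o5812, o4816, o5364, l3117, l6736, l7167, o801, l7218, l6940, l7037] l7219 := rupP (by decide +kernel)
theorem r7220 : PImp [l4655, l6248, o4498, o3997, l432, o3964, o3978, l4086, l4525, l6200, l6818, l2711, l5113, l3303, l4059, l3043, l3967, l3977, o947, l3291, l3282, l7206, l7171, o2691] l7220 := rupP (by decide +kernel)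
theorem r7221 : PImp [l6200, l6248, l6818, l3933, o853, l4086, l4655, l430, o4463, l3223, l432, l1254, l7220, l3261, l3268, l5859, l5854, l7187, l1140] l7221 := rupP (by decide +kernel)
theorem r7222 : PImp [l5277, l6338, o2912] l7222 := rupP (by decide +kernel)
theorem r7223 : PImp [l4655, l432, o3964, o3969, l4525, l5113, l4059, l3043, o2691, l3977, l3971, l3282, l3320, l7171] l7223 := rupP (by decide +kernel)
theorem r7224 : PImp [l4086, l4655, l432, l1254, l5112, l7221, l3216, l5726, l4848, l4838, o2790, o3832, l1140, l7223, l5859, l5854] l7224 := rupP (by decide +kernel)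
theorem r7225 : PImp [l3303, l5112, l1316, l1140, o2450, o3906, l5047, l4027, o3895, l3085, l2794] l7225 := rupP (by decide +kernel)
theorem r7226 : PImp [l5112, l1316, l6958, l4053, l7225, l7040, o3906, l2779, o3897, l2794, l5844] l7226 := rupP (by decide +kernel)
theorem r7227 : PImp [l3308, l5034, l4056, o2443, l7120, o6034, l2782, l2788] l7227 := rupP (by decide +kernel)
theorem r7228 : PImp [l3308, l4525, l5034, l4655, l432, l1254, l1138, l1242, l5113, l1140, o3906, l7227, l3043, l3056, o2460, l3974, l4026, o4109, o4115, o4125, o4136, l4994, l3967, o859, l3773, o947, l7059, o6314, l7171, o3830] l7228 := rupP (by decide +kernel)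
theorem r7229 : PImp [l3267, l3308, l5034, l6200, l6248, l6818, l2711, l4655, o4498, l432, l1254, l1138, l1242, l5113, l5112, l7207, l7120, l3320, o1528, o4013, o3895, o6177, o6312, l2794, l2789, l4051, o2448, o5915] l7229 := rupP (by decide +kernel)
theorem r7230 : PImp [l4118, l4117, l4086, l4525, l5034, o3854, l6200, l6248, l6818, l3933, l3223, l3219, l4655, l432, l1254, l1138, l1242, l428, l5113, o853, l3843, l3772, l7224, l7226, l3308, l3272, l3261, l3271, l3268, l7229, l4056, l3043, l3056, l3974, o4109, o4124, o4125, o4128, o4137, l4994, o859, o6176, l7059, o2640, l1218, o6307, o6310, l7188, o2532, o2683, l1140, l7228, o6111, o3906, l3263, l4026, l3244] l7230 := rupP (by decide +kernel)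
theorem r7231 : PImp [l5968, l6629, l7193, l1140] l7231 := rupP (by decide +kernel)
theorem r7232 : PImp [l6934, l2604, l3927, l6248, o5407, l6948, o5812, l476, o5350, o5354, l4655, l432, o4479, o4807, l433, o4487, o4836, o4825, o4812, o5364, l1254, l5113, l5112, l1316, l5035, l7190, l2713, o9136, l7211, o8906, l2544, o3838, l7222, l7230, l7231, l5978, l3308, l5799, o6589, o5884] l7232 := rupP (by decide +kernel)
theorem r7233 : PImp [l5275, l5035, l2544, o3838, l3387, o2912, l3378, l4838] l7233 := rupP (by decide +kernel)
theorem r7234 : PImp [l2602, l7211, l2713, o9136] l7234 := rupP (by decide +kernel)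
theorem r7235 : PImp [l4655, l433, l6248, o4487, l6948, o4836, l6934, l476, o5350, o5407, o5812, l7166, l2845, l6200, l390, l6818, l6212, l6184, l5039, l2673, l3219, l432, o4479, l6886, l483, l3497, l3118, o4812, o4825, o4807, o5354, l4132, o5460, l7205, l3927, l2604, l7219, l7234, l7233, l2661, o8799, l7204, l482, l3476, l3509, l2674, l4228, l4230, l4231, l4233, l7232] l7235 := rupP (by decide +kernel)
theorem r7236 : PImp [l6248, l476, l6948, o5354, l4655, l433, o4487, o4836, o4825, o5364, l432, l427, l5112, l1360, l5035, l7213, l7215, l6352, l4838, l3027, l5943, l3303, l5862, l3045, l6301, o3975, o3958, o3906, l2779, l2781, l5847, l1140, l3977, o2480, l4016, l4716] l7236 := rupP (by decide +kernel)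
theorem r7237 : PImp [l6248, l476, l6948, o5354, l4655, l433, o4487, o4836, o4825, o5364, l5035, l5974, l7216, l3027, l6352, l4838] l7237 := rupP (by decide +kernel)
theorem r7238 : PImp [l7219, l6934, l3118, l6200, l6248, l6818, l4655, l433, o4487, l6948, o4812, o4825, o4836, l432, o4479, o4807, l476, o5354, l7166, l2845, l390, l6212, l6184, l4132, l3219, l6886, o5460, l7205, l2604, l3927, l483, l3497, l3509, l5039, l2673, l2674, o5407, o5812, o5350, l1254, l5112, l1357, l1316, l7234, l2544, l2545, o3838, l7233, l7222, l7190, l2713, o9136, o9147, l7235, l7236, l7237, l5978, l3308, l4554, l7199, o2443, l5266, l7201, l5048] l7238 := rupP (by decide +kernel)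
theorem r7239 : PImp [l5112, l2794, l4655, l432, l1254, o4036, o3888, l5852, l3303, l4059, l7038, l3075, o3907, l4029] l7239 := rupP (by decide +kernel)
theorem r7240 : PImp [l5112, l2794, l4525, l5034, l4655, l432, l1254, l1138, l1242, l5113, l7239, l7226, o3895, l3308, l5070, l3044, l3058, l4045, l3974, l4994, o4109] l7240 := rupP (by decide +kernel)
theorem r7241 : PImp [l5034, l6248, l476, l6948, o5354, l3219, l4655, l432, o4479, l6200, l6818, l390, l2845, l6184, l6886, o5460, l4132, l3118, l433, o4487, o4812, o4825, o4836, o4807, l7205, l2661, o8799, l6934, l2604, l2662, l2660, l3927, l483, l3509, o5350, o5458, l5039, l2673, l2674, l2569, l4133, o5407, o5812, l428, o4458, o4787, o5364, l3119, l3117, l1254, l5112, l5035, l7190, l6181, l2713, l2571, o801, l3426, l4788, l3430, l4194, o8655, l4789, l4838, l7196, o6644, o3504, l2811, l1669, o6600, o2795, l7222, o8658, l2794, o5475, l4769, l7240, l7231, l6688, l7154] l7241 := rupP (by decide +kernel)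
theorem r7242 : PImp [l2604, l5112, l6942, o6600, l2571, l7239, l3426, l4788, l4789] l7242 := rupP (by decide +kernel)
theorem r7243 : PImp [o9066, o9108] l7243 := rupP (by decide +kernel)
theorem r7244 : PImp [l5275, o2889, l7243, l2571, o801, l3426, l3430, o8655, l4838, o3104] l7244 := rupP (by decide +kernel)
theorem r7245 : PImp [l6248, o5407, l6948, o5812, l476, o5350, o5354, l4655, l428, o4458, o4787, l432, o4479, o4816, o4807, l433, o4487, o4836, o4825, o4812, o5364, l6200, l6818, l3118, l3117, l3219, l6934, l1254, l5112, l1360, l5035, l7166, l390, l2845, l6212, l6184, l5039, l4132, l2569, l6886, l2673, l483, l482, o5460, o5458, l3509, l3476, l7204, l7205, l3927, l2662, l2604, l7219, l7238, l6940, l7244, l7190, l6181, l7241, l2713, l2571, o801, l3426, l4788, l3430, l4194, o8655, l4789, l4790, l4838, l7196, o6644, o3504, l2811, o8918, l1218, o6600, o2795, l7222, l6595, o6353, l2794, l7213, l2779, l5943, l7053, l6301, l3079] l7245 := rupP (by decide +kernel)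
theorem r7246 : PImp [l5571, l4610, o8866, l2555] l7246 := rupP (by decide +kernel)
theorem r7247 : PImp [l4082, l6200, l6248, l6818, l2711, o5407, l7246, l2542, o3749, l6212, l2543] l7247 := rupP (by decide +kernel)
theorem r7248 : PImp [l4082, l6200, l6248, l6818, l2711, o5407, l3223, l4655, l432, l1254, l7247, l6209, o8742, l2553, l4608, l4610] l7248 := rupP (by decide +kernel)
theorem r7249 : PImp [l4655, l428, l6934, l6200, l6248, l6818, l2711, l7245, l4082, o5407, l6179, l1218, l4084, l6948, o5812, l476, o5354, l432, o4479, o4807, l433, o4487, o4836, o4825, o4812, l3118, l3219, l1254, l5113, l5112, l1360, o2996, l3484, o3749, o2989, o3747, o5339, l4603, l2308, l2713, o6714, o9136, o6436, l2604, o9122, l5467, l7205, l4132, l3836, o2743, l5784, l6448, l4883, l2926] l7249 := rupP (by decide +kernel)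
theorem r7250 : PImp [l6200, l6248, l6818, l390, l2845, l6212] l7250 := rupP (by decide +kernel)
theorem r7251 : PImp [l7245, l4082, l4084, l6248, o5407, l6948, o5812, l6934, l6200, l6818, l2711, l3336, l3115, l3112, l4655, l432, l1254, l1357, l7248, l7250, l7249, o3853, o8742, o8787, o2403, o8774, o9136, o9122] l7251 := rupP (by decide +kernel)
theorem r7252 : PImp [l6200, l6248, l6818, l2711, o5407, l4655, l432, o4479, l3219, l1254, l6209, l7246, l2543, l2542, l6184, l6886, l3509, l483] l7252 := rupP (by decide +kernel)
theorem r7253 : PImp [l2708, l7246] l7253 := rupP (by decide +kernel)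
theorem r7254 : PImp [l4608, l2555, o8742, o3749] l7254 := rupP (by decide +kernel)
theorem r7255 : PImp [l4610, l7246, l2555, o8742] l7255 := rupP (by decide +kernel)
theorem r7256 : PImp [o5862, l5738] l7256 := rupP (by decide +kernel)
theorem r7257 : PImp [l1138, l1242, l5102, l2409, l2407, l6377, o5418, o5830, l3628, o7595, l2540] l7257 := rupP (by decide +kernel)
theorem r7258 : PImp [l4655, l432, l1254, l1138, l1242, l5102, l3236, l6427, l3239, o3800, o3798, l2249, o3807, l1127, l641, l7257, l4587, l6369, l6374, l4494, l4495] l7258 := rupP (by decide +kernel)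
theorem r7259 : PImp [l435, l6080] l7259 := rupP (by decide +kernel)
theorem r7260 : PImp [l4655, l432, l1254, l1360, o2971, o2633, o7895, l4925, o5539, o3987, o6173, o902, o8221, o8059] l7260 := rupP (by decide +kernel)
theorem r7261 : PImp [l1360, l1316, o7631, l49] l7261 := rupP (by decide +kernel)
theorem r7262 : PImp [o7640, o7566] l7262 := rupP (by decide +kernel)
theorem r7263 : PImp [o628, l6248, o5332, l6200, l6818, l2658, l3219, l4655, l432, l1254, l1357, l1316, l3161, l3171, o1728, l1071, o2218, o2220, l2651, o1452, l7260, l2850, o8829, o5627, o5256, o5257, o5539, l6856, l3564, o2209, l4809, o7594, l3567, o3609, o8059] l7263 := rupP (by decide +kernel)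
theorem r7264 : PImp [l4655, l6248, o4498, l6200, l4891, l2845, l390, l6184, l3219, l432, o4479, l6818, l6886, l483, l3497, l476, l2734, o5332, l5039, l2673, l2674, l4210, l4209, l430, o4463, l4204, o714, o80, o694, o688, l7263, l6513, o3459, o3756, l6869, o8145, l2651, o5308, o4749, o5735, l6231, l2550, o8255, o7687] l7264 := rupP (by decide +kernel)
theorem r7265 : PImp [l6200, l3219, l4655, l433, l6248, o4487, l4902, l432, l1254, l1138, l1242, l2845, l390, l6184, l5039, l6425, l5102, l3236, l6427, l2549, l3239, l2514, l6818, l2512, o4479, l6886, l482, l3476, o5460, l476, l2734, o5332, l2674, l4210, l4209, l4131, l4082, l2658, l2657, l3933, l5113, l5035, l6738, l7257, l4587, l4090, l4199, l6369, l6374, l2359, l2362, l4494, l4492, l4495, l7261, o3519, o3523, o7555, l3629, o5561, l460, o5291, o5292, l5074, l4305, l7262, l7264, l2477, l4280, l4260, o699, o695, l2269, o690, l6880, o3438, o3459, l6882, l2283, l6198, o7785, o1452, l6883, o5627, o8126, o3664, o8832, o8443] l7265 := rupP (by decide +kernel)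
theorem r7266 : PImp [l4587, l4655, l432, l1254, l1138, l1242, l5102, l3236, l6427, l2506, l1316, o3605, o3606, o3608, o8059, l2336, o2205, l2335, o2204, l5073, o1402, o7649, o8061] l7266 := rupP (by decide +kernel)
theorem r7267 : PImp [l5276, l4655, l432, l1254, l1357, l1360, l6191, l1138, l1242, l5102, l6365, l3236, l6427, l6200, l6248, l6818, l2512, l3219, l1316, l3161, l3171, o2309, l1071, o8829, l6867, o1490, o5665, o5256, o5257, o5539, o5537, o8043, l3564, o637, o634, l4809, l3566, l3567, l637, o8141, l7266, o7566, o2218, o2220, o8059, o3599, o3598, l1463, l1386, o7890] l7267 := rupP (by decide +kernel)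
theorem r7268 : PImp [l6200, l2845, l390, l6184, l4305, l1360, l4655, l432, l1254, l1138, l1242, l5102, l6365, l4199, l3219, l6248, o4479, l6818, l6886, l483, l3497, l476, l2734, o5332, l5039, l2673, l2674, l4210, l4209, l430, o4463, l5276, l1357, l4204, o714, o694, o688, o627, o628, l6191, o3438, l2850, o3459, o3721, o3756, l7267, l6869, l2651, l732, o5308, o4749, o5735, l6231, l2550, o8255, o7687] l7268 := rupP (by decide +kernel)
theorem r7269 : PImp [l6200, l3219, l4655, l433, l6248, o4487, l4902, l432, l1254, l1138, l1242, l2845, l390, l6184, l5039, l6425, l5102, l3236, l6427, l3239, o4479, o4816, l6736, l2660, l6818, l6886, l482, l3476, l476, o5354, o5460, l2734, o5332, l2674, l4210, l4209, l4131, l4082, o5812, o4836, l2658, l2657, l5113, l1360, l5035, l7265, l6365, l4587, l4090, l4121, l6369, l6374, l2362, l2357, l4494, l4492, l4495, l7261, l2344, o3519, o3523, o7555, l2370, l2519, l3629, o5561, o4921, o5560, l460, o5292, l2738, l5074, l7268, l2477, l4280, l4260, o699, o695, l2269, o690, l6880, o3438, l6882, l6198, l2651, o7785, o1465, o1452, o5262, o5627,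 l6724, l3157, l3159, l3591, o8126, o5311, o3664, o8128, o3670] l7269 := rupP (by decide +kernel)
theorem r7270 : PImp [o690, l1138, l1242, o7785, o1452, l6883, o5627, o8126, o3664, o8832, o8443] l7270 := rupP (by decide +kernel)
theorem r7271 : PImp [l6200, l3219, l4655, l433, l6248, o4487, l4902, l432, l1254, l1138, l1242, l2845, l390, l6184, l5039, l6425, l5102, l3236, l6427, l2549, l3239, l2514, l6818, l2512, o4479, l6886, l482, l3476, o5460, l476, l2734, o5332, l2674, l4210, l4209, l4131, l4082, l2658, l2657, l3933, l5113, l5035, l6738, l7257, l4587, l4090, l4199, l6369, l6374, l2359, l2362, l4494, l4492, l4495, l7261, o3519, o3523, o7555, l3629, o5561, l460, o5291, o5292, l5074, l4305, l7262, l7264, l2477, l4280, l4260, o699, o695, l2269, o690, l6880, o3438, o3459, l6882, l2283, l7270, o8084, o8813] l7271 := rupP (by decide +kernel)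
theorem r7272 : PImp [o5332, l482, l1138, l1242, l2651, o7785, l7270, o5262, l3156, l6724] l7272 := rupP (by decide +kernel)
theorem r7273 : PImp [l6200, l3219, l4655, l433, l6248, o4487, l4902, l432, o4479, o4816, l6736, l6818, l2845, l390, l6184, l6886, l483, o5475, l4777, l4769, l4167, l1254, l1138, l1242, l5039, l6425, l5102, l3236, l6427, l2549, l3239, l2662, l2660, l2514, l482, l3476, l476, o5350, o5458, o5354, o5460, l2734, o5332, l2674, l4210, l4209, l4130, l4133, l4131, l4082, o5812, o4836, l2658, l2657, o4498, l3223, l5113, l1360, l5035, o8774, l7258, l7269, l7271, l6365, l4587, l4090, l4121, l6369, l6374, l2362, l2357, l4494, l4492, l4495, l7261, l2344, o3519, o3523, o7555, l2370, l2519, l3629, o5561, o4921, o5560, l460, o5292, l2738, l5074, l7268, l2477, l4280, l4260, o699, o695, l2269, o690, l6880, o3438, o3459, l6882, l7272, l3537, o8084, o5308, o4760, l4670, l3874, l3224] l7273 := rupP (by decide +kernel)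
theorem r7274 : PImp [o7867, o8201] l7274 := rupP (by decide +kernel)
theorem r7275 : PImp [l3933, o2971, l7274, l2448, l3537, l6834] l7275 := rupP (by decide +kernel)
theorem r7276 : PImp [l6200, l6248, l6818, l2658, l3933, l4655, l427, o4452, l3223, l3161, l7275, o3438, l6881, l2448, o1466, l6564] l7276 := rupP (by decide +kernel)

end Pool.Agent.BDD.A
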