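import Pool.Agent.BDD.AC
import Pool.Agent.BDD.AE0
import Pool.Agent.BDD.AE1
import Pool.Agent.BDD.AE2
import Pool.Agent.BDD.AD0
import Pool.Agent.BDD.AD1
import Pool.Agent.BDD.AD2

set_option autoImplicit false
set_option linter.all false

namespace Pool.Agent.BDD.A

theorem r7277 : PImp [l3933, l6916, o2971, l2448, l3537, l6834, l3224, l3226] l7277 := rupP (by decide +kernel)
theorem r7278 : PImp [l4199, l4587, l6200, l6248, l6818, l2658, l2845, l390, l6184, l4210, l476, l3219, l4655, l432, o4479, l6886, l2734, l6738, o4498, l4891, l433, o4487, l4902, l1254, l1138, l1242, l5039, l428, l1218, l6425, l5102, l3236, l6427, l3239, l2512, o5332, l2674, l4209, l2657, l3933, l3223, l5113, l2359, l2362, l6363, l4494, l4492, l4495, l7261, o3519, o3523, o7555, l3629, o5561, l460, o5291, o5292, l5074, l4305, l7262, l7264, l2477, l4280, l4260, o699, o695, l2269, l7276, l7277, o3438, o3459, l7272, o8084, o8813] l7278 := rupP (by decide +kernel)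
theorem r7279 : PImp [l4655, l432, l1254, l1138, l1242, l6200, l2845, l390, l6184, l5039, l428, l1218, l6425, l5102, l2549, l3236, l2514, l3219, l6248, o4479, l6818, l6886, o5460, l4082, l7257, l4587, l4090, l7278, l2507, l5098, l5115] l7279 := rupP (by decide +kernel)
theorem r7280 : PImp [l2845, l6200, l6248, l6818, l3933, l5112, l3161, l7276, l7275, l2271, l2850, o3459, o3664, l6405, l2650, l6793, o7995, o5320] l7280 := rupP (by decide +kernel)
theorem r7281 : PImp [l1360, l6200, l2845, l390, l6184, l5039, l4655, l428, l1218, l6425, l432, l1254, l1138, l1242, l5102, l6365, l4587, l6248, l6818, l2657, l3219, o4479, l6886, o5332, l4209, l7060, o4498, l4891, l433, o4487, l4902, l3236, l6427, l3239, l2660, l476, o5354, o5460, l2734, l482, l2674, l4210, o4836, l2658, l3223, l5113, l2362, l2357, l6363, l4494, l4492, l4495, l7261, l2344, o3519, o3523, o7555, l2370, l2519, l3629, o5561, o4921, o5560, l460, o5292, l2738, l5074, l7268, l2477, l4280, l4260, o699, o695, l2269, o690, l7280, l7277, o3438, o3459, l7272, l3537, l6198, o8084, o5308, o4760, l4670, l3874, l3224]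 l7281 := rupP (by decide +kernel)
theorem r7282 : PImp [l4655, l432, l6248, o4479, o4816, l6736, l3219, l6200, l6818, l2845, l390, l6184, l6886, l483, o5475, l4777, l4769, l3763, o2909, l4167, l1254, l1138, l1242, l5039, l428, l1218, l6425, l5102, l3236, l2662, l476, o5350, o5458, o5332, l4209, l4082, o5812, o5354, l2657, l1360, l5035, o3907, l2786, o3890, l7273, l7060, l7279, l1127, l6365, o3773, l4587, l4090, l4121, l7281, l2507, l5098, l5115] l7282 := rupP (by decide +kernel)
theorem r7283 : PImp [l6200, l6248, l6818, l3933, l6709, l4032, o2649, l6355] l7283 := rupP (by decide +kernel)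
theorem r7284 : PImp [l4655, l430, l6248, o4463, o3991, l7282, o6106] l7284 := rupP (by decide +kernel)
theorem r7285 : PImp [l4655, l6248, o4498, l6200, l4891, l7283, l6277, l6818, l3933, o853, l4228, l427, o3938, o3890, l7284, l7100, o6297, o2635] l7285 := rupP (by decide +kernel)
theorem r7286 : PImp [o6307, o6046] l7286 := rupP (by decide +kernel)
theorem r7287 : PImp [l4655, l6248, o4498, l6200, l4891, l7283, o3907, l7285] l7287 := rupP (by decide +kernel)
theorem r7288 : PImp [l6200, l3219, l4655, l433, l6248, o4487, l4902, l432, o4479, o4816, l6736, l6818, l2845, l390, l6184, l6886, l483, o5475, l4769, l5039, l2674, l4230, l4228, l4525, l5034, l3933, l3223, l1254, l1138, l1242, l5113, o853, l7287, l7226, l3308, l3272, l3268, l7286, l3048, l3063, l3974, o4109, o4125, l4994, o859, o6176, o2641, l4051, l5070] l7288 := rupP (by decide +kernel)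
theorem r7289 : PImp [l4655, l432, l6248, o4479, l6948, o4816, l3118, l6200, l6818, l433, o4487, o4812, o4825, o4836, o4807, l476, o5354, l2845, l390, l6184, l4132, l3219, l6886, o5460, l7205, l6736, l483, l3119, l4133, l2660, l7174, o5475, l4769, l3117, o5350, o5458, l2662, l7167, l1254, l1138, l1242, l5039, l428, l1218, l6425, l5102, l3105, l3103, l482, l3476, l2673, l7222, l5034, l3337, l3336, l3116, l3115, l5113, l5035, l5260, l7288, l4763, l7231, l6637, l7193, l7120, l5032, l5022, o2451] l7289 := rupP (by decide +kernel)
theorem r7290 : PImp [l4123, l2401, o8281, o3602, o3604, o8045, o5831, o7687, o7734] l7290 := rupP (by decide +kernel)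
theorem r7291 : PImp [o7885, o7717] l7291 := rupP (by decide +kernel)
theorem r7292 : PImp [l1360, l1316, o2634, o7895, o8211, o5536, o4150, l5893, l2455, l2442, l7291, l2401, l7290, o8198, o8034] l7292 := rupP (by decide +kernel)
theorem r7293 : PImp [o7687, o7734] l7293 := rupP (by decide +kernel)
theorem r7294 : PImp [o1465, o907, l7292, o3756, l7293, o5733, o8229, o8065] l7294 := rupP (by decide +kernel)
theorem r7295 : PImp [l1357, l1316, l2379, o2319, o2339, o1729, l2314, l7294, l736, l6808] l7295 := rupP (by decide +kernel)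
theorem r7296 : PImp [l6200, l6248, l6818, l2658, l2845, l390, l6184, l4210, l476, l3219, l4655, l432, o4479, l6886, l2734, l6738, l1254, l1138, l1242, l5039, l428, l1218, l6425, l5102, l3236, l6427, l483, l3497, o5332, l2673, l2674, l4209, l2555, l2657, l430, o4463, l3223, l4204, o714, o81, o694, o688, l7295, l6513, o3459, o3756, l6869, l2651, l732, o5308, o4749, o5735, l6231, l7293, l2550] l7296 := rupP (by decide +kernel)
theorem r7297 : PImp [l6200, l6248, l6818, l2658, l3933, l6748, l6882, o3036] l7297 := rupP (by decide +kernel)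
theorem r7298 : PImp [o5332, l1138, l1242, l2651, o7785, o1465, o1452, o5262, o5627, l6724, o8126, l3159, l3591, o3664, o5311, o3670, o8128] l7298 := rupP (by decide +kernel)
theorem r7299 : PImp [l1360, l1316, l7293, o7903, o7850] l7299 := rupP (by decide +kernel)
theorem r7300 : PImp [l1360, l1316, l5893, l7291, l2469, l2465] l7300 := rupP (by decide +kernel)
theorem r7301 : PImp [l1357, l1316, o2339, l2314, l1071, o1465, l7299, o5733, o8229, o8065] l7301 := rupP (by decide +kernel)
theorem r7302 : PImp [l6200, l2845, l390, l6184, l5039, l4655, l428, l1218, l6425, l432, l1254, l1138, l1242, l5102, l6442, l2424, l6248, l6818, l2658, l4210, l476, l3219, o4479, l6886, l2734, l6738, l483, l3497, o5332, l2673, l2674, l4209, l2555, l2657, l430, o4463, l4204, o714, o694, o688, l7296, o9084, l7301, l6513, o3459, o3756, l6869, l2651, l732, o5308, o4749, o5735, l6231, l7293, l2550] l7302 := rupP (by decide +kernel)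
theorem r7303 : PImp [l3161, l4655, l6248, o4498, l6200, l2651, l7274, l6769, l6831] l7303 := rupP (by decide +kernel)
theorem r7304 : PImp [l6200, l6248, l6818, l2658, l3933, l4655, o4498, l427, o4452, l3223, l6752, l7303, l2448, o1466, l6564] l7304 := rupP (by decide +kernel)
theorem r7305 : PImp [l3161, l4655, l6248, o4498, l6200, l6881, l6744, o3036] l7305 := rupP (by decide +kernel)
theorem r7306 : PImp [l2269, o695, o699, l6200, l6248, l6818, l2658, l3933, l4655, l427, o4452, l3223, l7304, o3438, l7297, l7305, l2448, o1466, l6564] l7306 := rupP (by decide +kernel)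
theorem r7307 : PImp [l6200, l6248, l6818, l2658, l476, l3219, l4655, l432, o4479, l6886, l2734, l6738, o5332, l5039, l2674, l2657, l1254, l5113, l2477, l4280, l4260, l2269, o690, l7306, l6532, l2283, o3438, l7298, o8084, o8813] l7307 := rupP (by decide +kernel)
theorem r7308 : PImp [l4655, l432, l1254, l1138, l1242, l6200, l2845, l390, l6184, l5039, l428, l1218, l6425, l5102, l2549, l3236, l2514, l3219, l6248, o4479, l6818, l6886, o5460, l4082, l2409, l2407, l6377, o5557, o5418, o5410, o5830, l4564, o7595, l2540, l2541, l3630, l4573, l7302, l2362] l7308 := rupP (by decide +kernel)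
theorem r7309 : PImp [l6200, l6248, l6818, l2658, l4210, l476, l3219, l4655, l432, o4479, l6886, l2734, l6738, l2314, o2278, l3223, l2379, l3161, o5292, l1254, l1138, o5130, l460, l4204, l4258, l4209, o694, l1242, l5102, l3239, l3236, l2512, l483, l2657, o4498, l428, l5112, l1360, l1357, l1316, l5087, l4577, o4413, o5213, l2362, l4494, l4492, l4495, l7301, l1071, l7261, l4892, l2651, o1465, o3523, l742, l5074, o8229, l4305, o5652, o4745, l7262, l5893, o2220, l2450, l7260, l733, o7871, o7899] l7309 := rupP (by decide +kernel)
theorem r7310 : PImp [l1138, l1242, l5102, l2861, o3520, l2540, l3625, o7630, l4079, o5829, o7595] l7310 := rupP (by decide +kernel)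
theorem r7311 : PImp [o1728, l7309] l7311 := rupP (by decide +kernel)
theorem r7312 : PImp [l4204, l4258, l6200, l2845, l390, l6184, l4210, o688, l4209, o694, l4082, o714, l4655, l432, l1254, l1138, l1242, l5102, l3236, l6427, l2549, l2513, l6248, l6818, l2511, l3219, o4479, l6886, l483, l3497, l476, l2734, o5332, l5039, l2673, l2674, l2555, l430, o4463, l427, o4452, l5112, l1316, l460, o5130, o5291, l7310, l5087, l4577, o4426, o5212, l2362, l4484, l4485, l7261, o3523, l5074, l4304, l7311, l6513, o3459, o3756, l6869, l2651, l6715, l732, o4734, o5308, o4749, o5735, o5553, l6231, l2550, l5893, l7293, l2443, l1129, o8598, o3610, o2212, o7803] l7312 := rupP (by decide +kernel)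
theorem r7313 : PImp [l4229, l4655, l430, l6248, o4463, o3993, l6200, l6818, l3842, l427, o3938, l7100, l3290, o6308, l4228, l3933, o853, l3289, l7286, l432, o3946, l5034, l3993, o3952, l6277, l1254, l1138, l1242, l2845, l390, l6184, l5039, l428, l1218, l6425, l5102, l3219, o4479, l6886, l482, l3476, l2673, l2674, l4210, l4209, l1360, l1316, l5035, l5256, o3890, l7016, l3303, l3984, l6709, l3961, l2786, l2777, l7307, o80, l7308, l4090, l4122, l7312, l3629, o5228, o3519, l3631, l49] l7313 := rupP (by decide +kernel)
theorem r7314 : PImp [l4655, l432, l1254, l6709, l4032, l7283, l3303, o2523, l4058, l5266] l7314 := rupP (by decide +kernel)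
theorem r7315 : PImp [l3223, l1360, l3161, l2379, o2339, l6867, l7293, o5285, o5287, o5545, o5546, o5547, o8021, l7300, l3597, l2606, o1414, o1415, o1416, o4263, l2433, l2432, l2438, l6199, l1386, l4949, l749, o2944, o8142, o3597, l682, o8061] l7315 := rupP (by decide +kernel)
theorem r7316 : PImp [l4655, l432, l1254, l1138, l1242, l6200, l2845, l390, l6184, l5039, l428, l2555, l6248, l6818, l2711, o5407, o8742, o8866, l1218, l6425, l5102, l4498, l1360, l6420, l5127, l3626, l2861, l3630, o5234, l3236, l5079, l6427, l2609, l3219, o4479, l6886, l483, l3497, l476, l2734, o5332, l2673, l2674, l4210, l4209, o8328, l430, o4463, l5276, l1357, l4204, o714, o694, o688, l6191, o3438, o3459, o3756, l7315, l6869, l2651, l732, o5308, o4749, o5735, l6231, l7299, l2550] l7316 := rupP (by decide +kernel)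
theorem r7317 : PImp [l6200, l6248, l6818, l2657, l4655, o4498, l6752, l7303, l2322, o7823, o1454, o5627, o8159] l7317 := rupP (by decide +kernel)
theorem r7318 : PImp [l2269, o699, l6200, l6248, l6818, l2658, l3933, l3223, l4655, l432, l1254, l5113, l5112, l1316, l3161, l2379, l7306, o8676, l2271, l7317, o3438, l2850, l7297, l7305, l2448, l3537, l5893, l6834, l6793, o4266, l5701] l7318 := rupP (by decide +kernel)
theorem r7319 : PImp [l1138, l1242, l2651, o7785, l7298, o5262, l3156, l6724] l7319 := rupP (by decide +kernel)
theorem r7320 : PImp [l6248, l476, l3219, l4655, l432, o4479, l6200, l6818, l6886, l2734, o5332, l5039, l2673, l2674, l2658, l2657, o4498, l3223, l1254, l5276, l5113, l1360, l1357, l2477, l4280, l4260, l2269, o690, l7318, l6195, o3438, l7319, l3537, l6198, o8084, o5308, o4760, l4670, l3874, l3224] l7320 := rupP (by decide +kernel)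
theorem r7321 : PImp [l4655, l432, l1254, l1138, l1242, l427, l4201, l3597, l465, o4448, o4430, o5255, l5751, l4919, o7856, l2450, o3034, o2950, o2955, o7788, l742, l1104] l7321 := rupP (by decide +kernel)
theorem r7322 : PImp [l1360, l1357, l1316, l2313, o2278, l44, l2278, l2280, l1680, o8231, o7899] l7322 := rupP (by decide +kernel)
theorem r7323 : PImp [o5627, o5667, o5539, o5537, o8020, o1513, o1411, o1413, l637, o8141, l7322, o8676, l2271, l2303, o8063, l742, o3655, o2242, o3598, l2337, o8059] l7323 := rupP (by decide +kernel)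
theorem r7324 : PImp [l4655, l432, l1254, l6248, o5407, l6200, l6818, l2711, l4082, l7252, l7255, l7254, o3459, l3161, l6867, l3223, l2379, l4258, l4257, l4587, l4608, l2555, o8742, o3756, l2845, o3438, l1138, l1242, l390, l6184, l5039, l428, o8866, l1218, l6425, l5102, l3236, l6427, l2609, l2549, l3239, l2515, l2513, l476, l3219, o4479, l6886, l2734, o5332, l483, l2673, l2674, l4210, o8328, o5812, o5364, l2658, l430, o4463, l427, o4452, l5276, l5112, l1360, l1357, l1316, l460, o5130, o5291, o5293, o5421, l5126, l5124, l7310, o4413, o5232, o5213, o5212, l5074, l4577, l7315, l4179, l2362, l4494, l4495, l4909, l5116, o7641, l7261, l1492, o3601, l7321, l2473, l2474, l2482, l2427, l2432, l2438, l7323, o4734, o5550, o5551, o5552, l5893, o7885, l2440, l2441, l2442, o2941, o2942, o7725, l51, o7806, l682, o7804] l7324 := rupP (by decide +kernel)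
theorem r7325 : PImp [l4655, l432, l1254, l1138, l1242, l5102, l1360, l1316, l3629, o3518, l3631, l1491, o7641, o7627] l7325 := rupP (by decide +kernel)
theorem r7326 : PImp [l4082, l7252, l4655, l432, l1254, l6248, o5407, l6200, l6818, l2711, l7255, l4608, l7254, l7316, l2845, l390, l6184, l3219, o4479, l6886, l483, l3497, l5039, l2673, l5276, l1357, l1360, l6191, l4210, o688, l4209, o694, o714, l4204, l2555, o8742, o8328, l2658, l2657, o2311, l6808, o1465, o1452, l7324] l7326 := rupP (by decide +kernel)
theorem r7327 : PImp [l6200, l6248, l6818, l3933, o853, l4655, l432, l1254, l1138, l1242, o5407, l2711, l4082, l7252, l7255, l7254, l2845, l390, l6184, l5039, l428, l4608, l2555, o8742, o8866, l1218, l6425, l5102, l3236, l6427, l2609, l2515, l2511, l3219, o4479, l6886, l482, l3476, l483, l3497, l476, l2734, o5332, l2673, l2674, l4210, l4209, o8328, l4228, o5812, o5350, o5354, l430, o4463, l427, o4452, l5276, l1360, l1357, l1316, l5035, o3938, l7100, l3289, l7286, l7313, l7314, l2786, l7320, l4204, o714, o694, o688, l6191, l7316, o3459, l4090, l4122, l4258,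 l7325, l460, o5291, l5126, l5124, o5212, l5074, l4304, l7326, l6869, l2651, l6715, l732, o4734, o5308, o4749, o5735, o5553, l6231, l2550, l5893, l7299, l2443, l1129, o3610, o7723, o7803] l7327 := rupP (by decide +kernel)
theorem r7328 : PImp [l5070, l4045] l7328 := rupP (by decide +kernel)
theorem r7329 : PImp [l6200, l6248, l4655, l432, l1254, o5407, l6818, l2711, l4082, l7252, l7255, l7254, l2845, l390, l6184, l5039, l2674, l4608, l2555, o8742, o8866, l4230, l4228, l4525, l5034, l3933, l3223, l1138, l1242, l5113, o853, l7327, l7226, l3308, l3272, l3268, l7286, l3048, l3063, l3974, o4109, o4125, l4994, o859, o6176, o2438, l7328, o3895, l4051, l2789, l3093, o5915] l7329 := rupP (by decide +kernel)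
theorem r7330 : PImp [l5034, l7251, l7245, l4082, l6248, l476, l6948, o5350, o5354, l4655, l432, o4479, o4816, o4807, l433, o4487, o4836, o4825, o4812, l6934, l6200, l6818, l2711, l3336, o5407, l3119, l3118, l3117, l3112, l3219, l1254, l1138, l1242, l428, l5113, l5112, l1316, l5035, l7252, l7255, l4608, l2544, l2545, o3838, l7254, l2555, l7222, l390, l2845, o8742, o8328, l6184, o8866, l5039, l4132, l4133, l6886, l1218, l2673, l483, l482, o5460, o5458, l6425, l3476, l7205, l5102, l2660, l2662, l6736, l3236, l3103, l3104, l3105, l3106, l7174, l7167, l6427, o5487, o5475, l2261, l4167, l3322, l2609, l4769, l4777, l7289, l7329, l4763, l7231, l5978, l6688, l7120, l5022, l5023] l7330 := rupP (by decide +kernel)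
theorem r7331 : PImp [l7251, l7245, l4082, l6934, l6200, l6248, l6818, l2711, o5407, l4655, l432, o4479, l3219, l1254, l6209, l7249, l390, l2845, l6184, l6886, l3509, l483] l7331 := rupP (by decide +kernel)
theorem r7332 : PImp [l4655, l432, l1254, l1138, l1242, l5102, l3236, l6427, l2357, l5112, l7257, l6377, l4302, o7628, l2342, o3517, o3592, l2370, l3629, l5085, o7592, o5212, o5292, o8598, l7262, o2196] l7332 := rupP (by decide +kernel)
theorem r7333 : PImp [l4655, l432, l1254, l1138, l1242, l5102, l3236, l6427, l2515, l2514, l2513, l3106, l3105, l3104, l3102, l476, o5350, o5458, l482, l4130, l4133, l4131, o5354, l5112, l1360, l5035, o5193, o5483, o5471, l3378, l6428, o8658, o8609, o8774, l4305, l4304, l6420, l1669, o3764, o5428, o5429, o8655, l4167, l6422, l6442, l2435, l6369, o7554, l2364, l2357, o3632, l6403, o5577, l7332, l6365, l3626, l5123, l4089, l4302, l2861, l2370, o7629, l3629, l2396, o5212, o5200, o3593, o3616, o5292, o8598, o7592, o7566, o2196] l7333 := rupP (by decide +kernel)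
theorem r7334 : PImp [l3636, l3634] l7334 := rupP (by decide +kernel)
theorem r7335 : PImp [l1138, l1242, l5102, l2409, l7334, l3628, o5234, l2540, o7595] l7335 := rupP (by decide +kernel)
theorem r7336 : PImp [l2269, o695, o699, l6200, l390, l6184, l4260, l5039, l4280, l2477, l5256, l6248, l476, l3219, l4655, l432, o4479, l6818, l6886, l2734, o5332, l482, l2674, l4130, l4131, l4525, l2658, l2657, l1254, l5113, l4029, o3925, o2409, o2432, l4721, l4720, o8774, l6880, o3438, o3459, l6882, l6883, o8084, o8813] l7336 := rupP (by decide +kernel)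
theorem r7337 : PImp [l2651, o1465, o7867, o8203, o5262, o5652, l3553, l737, o7871, o3455] l7337 := rupP (by decide +kernel)
theorem r7338 : PImp [l2314, o2278, l3161, o690, l6248, l476, l2734, o5332, l6200, l6818, l2658, l2657, l3933, l4655, o4498, l427, o4452, l3223, o2970, l6872, l7060, o3671, l7337, l2448, o1466, l6564] l7338 := rupP (by decide +kernel)
theorem r7339 : PImp [l2269, o695, o699, l6200, l390, l6184, l4260, l5039, l4280, l2477, l6248, l476, l3219, l4655, l432, o4479, l6818, l6886, l2734, o5332, l2674, l2658, l3933, l427, o4452, l3223, l7338, o3438, l6881, l7297, l2448, o1466, l6564] l7339 := rupP (by decide +kernel)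
theorem r7340 : PImp [l6200, l390, l6184, l4260, l5039, l4280, l2477, l6248, l2674, l3219, l4655, l432, o4479, l6818, l6886, l4130, l4131, l7277, o8774, l6880] l7340 := rupP (by decide +kernel)
theorem r7341 : PImp [l6200, l6248, l6818, l2658, l2657, l3219, l4655, l432, l1254, l5113, o3438, o3459, l7270, o8084, o8813] l7341 := rupP (by decide +kernel)
theorem r7342 : PImp [l4121, l4199, l4655, l430, l6248, o4463, o3991, l6200, l6818, l3933, o853, l4228, l3223, l4908, l390, l6184, l5039, l2673, l5256, l7016, l4059, o2637, o6106, o3978, l4525, l3303, l3043, l3967, l5260, o2444, o3890, l2658, l4210, l476, l3219, l432, o4479, l6886, l2734, l6738, o2875, o4498, l4891, l433, o4487, l4902, l6277, l1254, l1138, l1242, l428, l1218, l6425, l5102, l3236, l6427, l2514, l3239, l482, l3476, l2512, o5332, l483, l2674, l4209, o5364, l5112, l460, o5130, o5291, o5292, o5420, l3635, o7628, l5087, l4577, o3522, o4413, o5213, l2359, l4494, l4495, l5074, l4492, l4305, l7262, l7264, l2477, l4260, o699, o695, l2269, o690, l7336, l7339, l2283, l7341, l2786, l7340] l7342 := rupP (by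 decide +kernel)
theorem r7343 : PImp [l4655, l432, l1254, l1138, l1242, l6200, l428, l1218, l390, l6184, l5039, l6425, l5102, l6248, l2674, l4082, o5407, l1360, l1316, l7335, l7342, l3629, o5228, o3519, l3631, l49] l7343 := rupP (by decide +kernel)
theorem r7344 : PImp [o2637, o6307, l4059, l3268] l7344 := rupP (by decide +kernel)
theorem r7345 : PImp [o1452, o7867, o8200, o5627] l7345 := rupP (by decide +kernel)
theorem r7346 : PImp [l3161, l6248, o5332, l6200, l6818, l2658, l3933, l5112, o2970, l2322, l6880, l7177, l7345, l2448, l3537, l6834] l7346 := rupP (by decide +kernel)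
theorem r7347 : PImp [o690, l2269, o695, o699, l6200, l390, l6184, l4260, l5039, l4280, l2477, l6248, l476, l3219, l4655, l432, o4479, l6818, l6886, l2734, o5332, l2674, l4131, l2658, l3933, l3223, l5112, l1316, l3161, l3171, l2379, l7339, o8676, l2271, l2321, l7346, o3438, l6881, l7297, l2448, l3537, l7177, l5893, l4670, l6214, l4650, o4265] l7347 := rupP (by decide +kernel)
theorem r7348 : PImp [l6200, l390, l6184, l4260, l5039, l4280, l2477, l6248, l2674, l3219, l4655, l432, o4479, l6818, l6886, l4130, l4131, l5112, l7340, l7177, o8774, l6880] l7348 := rupP (by decide +kernel)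
theorem r7349 : PImp [o5332, l482, l1138, l1242, l2651, o7785, l7270, o5262, l3156, l3553] l7349 := rupP (by decide +kernel)
theorem r7350 : PImp [l1360, l6200, l4655, l428, l1218, l390, l6184, l5039, l6425, l432, l1254, l1138, l1242, l5102, l6365, l4121, l4587, l430, l6248, o4463, l3223, l4908, o2875, o4498, l4891, l3219, l433, o4487, l4902, l2514, l2662, l2660, l3927, l3239, l3236, o4479, l6818, l6886, l482, l3476, l476, o5350, o5458, l483, l2674, l4210, l4209, o4458, o4787, o5364, l2658, l2657, l5113, l5112, l460, o5130, o5292, o5420, l3635, l5126, o5204, o7628, l2498, l4577, o4426, o4413, o5213, o5212, o3522, l5115, l4494, l4495, l5074, o3149, l4492, o6644, l7268, l4183, l2477, l4260, o699, o695, l2269, o690, l1127, l7347, l7348, o3438, o3459, l7349, l3537, l6198, o8084, o5308, o4760, l4670, l3874, l3224] l7350 := rupP (by decide +kernel)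
theorem r7351 : PImp [l6934, l7245, l6200, l6248, l6818, l2711, l4082, o5407, l6179, l4603, l4655, l432, l1254, l1138, l1242, l428, l1218, l390, l6184, l5039, l6425, l5102, l3236, l6427, l2609, l476, l6948, o5354, l3219, o4479, l6886, o5460, l4132, l3118, l433, o4487, o4812, o4825, o4836, o4807, l7205, l2661, o8799, l2662, l2660, l3105, l3103, l2512, l2511, l2674, l4130, o8805, o8328, o5812, l3337, l3336, l430, o4463, l3119, l3117, l3116, l3115, l3223, l5112, l1360, l1316, l5035, l4908, l4902, o3174, l6701, l4869, l7333, l501, l4769, l7343, l6365, l7350, l3629, o5228, o3519, l3631, l49] l7351 := rupP (by decide +kernel)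
theorem r7352 : PImp [o8229, o8065] l7352 := rupP (by decide +kernel)
theorem r7353 : PImp [l6200, l6248, l6818, l3161, o2339, l2314, l7299, o5733, l7352, l3536, l6841, l6809] l7353 := rupP (by decide +kernel)
theorem r7354 : PImp [l6200, l6248, l6818, l2658, l6738, l4655, l430, o4463, l476, l4204, o714, o694, o688, l7353, l6513, o3459, l6869, l2651, l732, o5308, o4749, o5735, l6231, l7299, l2550] l7354 := rupP (by decide +kernel)
theorem r7355 : PImp [l3223, l2379, l3219, l3171, l3161, l6248, l476, l2734, l390, l6200, l6818, l2657, l4655, o4498, l5112, l1316, l2651, l6769, l6872, l4456, l7177, o4266, l6206, l5893, o7867, l7337, l3930, o5256, l2851, l3582] l7355 := rupP (by decide +kernel)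
theorem r7356 : PImp [l2314, o2278, l6200, l6248, l6818, l2658, l3933, l4655, l427, o4452, l3223, l7355, l2448, l645, o1466, l6564] l7356 := rupP (by decide +kernel)
theorem r7357 : PImp [l2269, o695, o699, l6200, l390, l6184, l4260, l5039, l4280, l2477, l6248, l476, l3219, l4655, l432, o4479, l6818, l6886, l2734, o5332, l2674, l2658, l3933, l427, o4452, l3223, l7356, o3438, l7305, l7297, l2448, o1466, l6564] l7357 := rupP (by decide +kernel)
theorem r7358 : PImp [l5256, l6438, o4227, o2539, l7336] l7358 := rupP (by decide +kernel)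
theorem r7359 : PImp [o5332, l1138, l1242, l2651, o7785, o1465, o1452, o5262, o5627, l3553, o8126, l3159, l3591, o3664, o5311, o3670, o8128] l7359 := rupP (by decide +kernel)
theorem r7360 : PImp [l6200, l6248, l6818, l2658, l476, l3219, l4655, l432, o4479, l390, l6184, l6886, l2734, l6738, l5039, l2657, l1254, l5113, l2477, l4260, l2269, o690, l7357, l2283, l7358, o6526, l6532, o3438, o3459, l7359, o8084, o8813] l7360 := rupP (by decide +kernel)
theorem r7361 : PImp [l1138, l1242, l5102, l2409, l7334, o5234, l5075, o7595, l2540] l7361 := rupP (by decide +kernel)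
theorem r7362 : PImp [l4655, l433, l6248, o4487, l3219, l6200, l4903, o4498, l4892, l430, o4463, l3223, l4909, l4204, l6818, l2657, l432, o4479, l1360, l1357, l1316, l3161, l2379, o1728, l2314, l1071, o2220, l2651, o1465, l7260, l7352, l742, o3438, o4745, o2961, l2302, l7321, l5893, o2944, o7885] l7362 := rupP (by decide +kernel)
theorem r7363 : PImp [l4204, l4258, l6200, l390, l6184, l4210, o688, l4209, o694, l6248, l6818, l2658, l476, l3219, l4655, l432, o4479, l6886, l2734, l6738, l1254, l1138, l1242, l5102, l3239, l3236, l483, l3497, l2512, l2511, o5332, l5039, l2673, l2674, l428, l5112, l460, o5130, o5291, o5292, o5420, l3635, o7628, l5087, l4577, o3522, o4413, o5213, o5212, l4494, l4495, l5074, l4492, l4305, l4304, l7262, l7362, l6513, o3459, l6869, l6715, l732, l1129, o5553, o8598, o3610, o2212, o7803, o7624] l7363 := rupP (by decide +kernel)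
theorem r7364 : PImp [l4655, l433, l6248, o4487, o4812, o4020, o4018, o4004, l430, o4463, o3993, o3991, l432, o3964, o3978, o3969, l3771, l3770, l6277, l6200, l6818, l3843, l3842, l3933, o853, l2711, l4082, o5407, l6179, l4603, l2545, l2544, l1254, l1138, l1242, l428, l1218, l390, l6184, l5039, l6425, l5102, l3236, l6427, l2609, l2514, l3219, o4479, l6886, l482, l3476, l483, l3497, l476, l2734, o5332, l2673, l2674, l4210, l4209, o8805, o8328, l4231, l4229, l4228, l5035, l4116, l4115, l4525, o4807, o5364, l1360, l1316, l5256, o3890, l7016, l3303, l4059, l3100, l3043, l3977, l3971, l3967, l3289, l3290, l3292, o6297, l3320, o6307, o6308, o6310, o3746, o2680, o2682, l7256, o6108, o6109, l3247, l3245, l3797, o2899, o3835, l7360, o80, l7354, l7361, l4121, l7363, l3629, o3517, o3518, o3519, l3631, o7628, l1491, l49, l4571, l4564] l7364 := rupP (by decide +kernel)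
theorem r7365 : PImp [l6200, l6248, l6818, l2657, o5407, l5276, l3161, o2339, l6808, l6867, l7299, o1465, o5287, o5733, o5731, o8021, l3597, o1534, l2473, l735, l1104, o8231, o8065, l733] l7365 := rupP (by decide +kernel)
theorem r7366 : PImp [l6200, l390, l6184, l3219, l4655, l432, l6248, o4479, l6818, l6886, l483, l3497, l476, l2734, o5332, l5039, l2673, l2674, l4210, l4209, o5407, o8328, l430, o4463, l1254, l5276, l1360, l1357, l4204, o714, o694, o688, l6191, o3438, o3459, o3756, l7365, l6869, l2651, l732, o5308, o4749, o5735, l6231, l7299, l2550] l7366 := rupP (by decide +kernel)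
theorem r7367 : PImp [o1452, l7345, o8200, o7866] l7367 := rupP (by decide +kernel)
theorem r7368 : PImp [l2322, l7367, l645, o7823, o1454, o8159, o5627] l7368 := rupP (by decide +kernel)
theorem r7369 : PImp [l2269, o699, l6200, l390, l6184, l4260, l5039, l4280, l2477, l6248, l476, l3219, l4655, l432, o4479, l6818, l6886, l2734, o5332, l2674, l2658, l2657, l3933, l3223, l1254, l5113, l5112, l1316, l3161, l2379, l7357, o8676, l2271, l7368, o3438, l2850, l7297, l7305, l7177, l2448, l3537, l5893, l6793, l6834, o4266, l5701] l7369 := rupP (by decide +kernel)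
theorem r7370 : PImp [l2269, o699, o691, l6200, l6248, l6818, l2658, l2657, l3933, l4655, o4498, l430, o4463, l427, o4452, l473, l476, l432, l1254, l1138, l1242, l5276, l1360, l1357, l1316, l6195, l1279, l2651, o1465, o1452, o8284, o4734, o4737, o5298, o5301, o5308, o5314, o4743, o4749, o5636, o5646, o5631, l6231, l4466, l5893, l4467, l3930, l2450, l2447, o7856, l2462, l3605, l4474, l3581, o2947, l2967, l3591, o2717, o2848, o3008, o3006, l6877, o7868, l3553, o5268, o7958, l2283, l30, o8676, l2285, o7788, o7961, o3681] l7370 := rupP (by decide +kernel)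
theorem r7371 : PImp [o5332, l482, l1138, l1242, l2651, o1452, o7785, l7359, o5627, l3156, l6405, o8200] l7371 := rupP (by decide +kernel)
theorem r7372 : PImp [l6200, l390, l6184, l3219, l4655, l432, l6248, o4479, l6818, l6886, l483, l3497, l476, l2734, o5332, l482, l5039, l2673, l2674, l2658, l2657, l3933, o4498, l3223, l1254, l5113, l2477, l4280, l4260, l2269, o690, l7369, l7370, o3438, o3459, l7371, l3537, l6198, o8084, o5308, o4760, l4670, l3874, l3224] l7372 := rupP (by decide +kernel)
theorem r7373 : PImp [l4498, l6420, l5125, l5127, l2861, l5075] l7373 := rupP (by decide +kernel)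
theorem r7374 : PImp [l4655, l430, l6248, o4463, l6200, l3223, l4909, o688, l4204, l6818, l2658, l2657, l427, o4452, l1360, l1316, l3161, l2379, o2311, l6808, l6867, o1465, o1452, l7321, l2473, l2474, l2427, l2432, l2438, l2482, l7323, o4734, o5550, o5551, o5552, l5893, o7885, l2440, l2441, l2442, o2941, o2942, l51, o7725, o7806, o7804, l682] l7374 := rupP (by decide +kernel)
theorem r7375 : PImp [l4204, l1360, l4655, l432, l1254, l1138, l1242, l5102, l7373, l4258, l4257, l4587, l5276, l1357, l6191, l4210, o688, l4209, o694, l3236, l6427, l2514, l3927, l3239, l6200, l6248, l6818, l2511, l476, l3219, o4479, l6886, l2734, o5332, l483, l5039, l428, o4458, o4787, o5364, l5112, l1316, l460, o5130, o5291, o5293, o5419, o5420, l3635, l5126, o7628, l4577, o4413, o5213, o5212, o3522, l2364, l4494, l4495, l5074, o7629, o3149, l4304, l5116, o3601, o6644, l7374, l6869, l6715, l732, l1129, o5553, o8598, o3610, o2212, o7624, o7803] l7375 := rupP (by decide +kernel)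
theorem r7376 : PImp [l4655, l6934, l7245, l6200, l6248, l6818, l2711, l4082, o5407, l7330, l6179, l6948, o5812, l4084, l3118, l433, o4487, o4812, o4825, o4836, l432, o4479, o4807, l476, o5354, l7251, l7249, l390, l6184, l4132, l3219, l6886, o5460, l7205, l2604, o9136, l2713, l4603, l2544, o3838, l7222, l2545, l1254, l1138, l1242, l428, l1218, l5039, l6425, l5102, l3101, o2398, l3236, l6427, l3322, l2661, o8799, l2514, l3105, l3104, l3103, l3102, l482, l3476, l483, l3497, l2673, l2674, l4210, l4209, o8805, o8328, l7331, l3337, l3336, l430, o4463, l3116, l3115, l3112, l3223, l5276, l5112, l1360, l1357, l1316, l5035, l7351, l7364, l7372, l6191, l7366, o3438, o3459, l4909, o3174, l4869, l7373, l4089, l4121, l7375, l3629, o3517, o3518, o3519, l3631, o7628, l1491, l49, l4571, l4564] l7376 := rupP (by decide +kernel)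
theorem r7377 : PImp [l3308, l4525, l5034, l4655, l430, l6248, o4463, l427, o4452, l476, l6200, l432, l1254, l1138, l1242, l5113, l5112, l1316, l6532, l1279, l4056, l2651, o8284, l3043, l3056, o4734, o5308, o4743, o4749, l3974, l6231, l4466, o4109, l5893, l4467, o2631, l4994, o7856, o2519, l2967, l4045, l2794, o3895] l7377 := rupP (by decide +kernel)
theorem r7378 : PImp [l6200, l6248, l390, l6184, l5039, l2674, l7226, l3219, l4655, l432, o4479, l6818, l6886, l482, l3476, l483, l3497, l476, l2734, o5332, l428, l1218, l6425, l2673, l4210, l4209, l4082, l2658, l2657, l3933, o5407, l3223, l1254, l5113, l7335, l7361, l7354, l2477, l4260, l2269, o690, l7369, l7377, o3438, o3459, l7371, o8084, o8813] l7378 := rupP (by decide +kernel)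
theorem r7379 : PImp [l3223, l3268, l3272, l3308, l6200, l6248, l6818, l3933, o853, l4655, l432, l1254, l1138, l1242, l5113, l7286, l3048, l3063, l3974, o4109, o4125, l4994, o859, l7328, l4051, o6176, o2642] l7379 := rupP (by decide +kernel)
theorem r7380 : PImp [l4121, l3223, l6200, l6248, l390, l6184, l5039, l2674, l7226, l3268, l3308, l6277, l4655, l432, l1254, l1138, l1242, l428, l1218, l6425, l5102, l3236, l6427, l3118, l6818, l433, o4487, l6948, o4812, o4825, o4836, o4479, o4807, l476, o5354, l4132, l3219, l6886, o5460, l7205, l2514, l3105, l483, l3497, l2734, o5332, l2673, l4210, l4209, l4130, l4230, l4228, l4525, l5034, o5364, l3336, l430, o4463, l3115, l5112, l1360, l5035, o80, l7354, l4909, l4903, l1089, l6701, l7379, l4056, l7188, l4769, o2637, o2444, o5193, o5915, l3378, l6428, l7363, l6420, l3617, l3629, l2861] l7380 := rupP (by decide +kernel)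
theorem r7381 : PImp [l6248, l476, l6948, o5354, l3219, l4655, l432, o4479, l6200, l6818, l390, l6184, l6886, o5460, l4132, l3118, l433, o4487, o4812, o4825, o4836, o4807, l7205, l2661, o8799, l2662, l2660, l428, l1218, l5039, l6425, l2512, l2511, l2674, l4130, l4230, l4228, l4525, l5034, l3337, l3336, l430, o4463, l3119, l3117, l3116, l3115, l3223, l5112, l5035, l4908, l4902, l7333, l7379, l6701, l4769] l7381 := rupP (by decide +kernel)
theorem r7382 : PImp [l6200, l6248, l390, l6184, l5039, l2674, l7226, l6934, l7245, l4603, l4655, l432, l1254, l1138, l1242, l428, l1218, l6425, l5102, l3236, l6427, l2609, l3219, o4479, l6818, l6886, l482, l3476, l4210, l4209, l4082, l2658, l2657, l3933, o5407, l3223, l5113, l7378, l7380, l2477, l4260, l2269, o690, l7369, l7377, o3438, o3459, l7371, o8084, o8813] l7382 := rupP (by decide +kernel)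
theorem r7383 : PImp [l4655, l6934, l7245, l6200, l6248, l6818, l2711, l4082, o5407, l7330, l6179, l6948, o5812, l4084, l3118, l433, o4487, o4812, o4825, o4836, l432, o4479, o4807, l476, o5354, l7251, l7249, l390, l6184, l4132, l3219, l6886, o5460, l7205, l2604, o9136, l2713, l4603, l2544, o3838, l7222, l2545, l1254, l1138, l1242, l428, l1218, l5039, l6425, l5102, l3101, o2398, l3236, l6427, l2609, l3322, l2661, o8799, l2514, l3105, l3102, l482, l3476, l483, l3497, l2673, l2674, l4210, l4209, l4130, o8805, o8328, l7331, l4230, l4228, l4525, l5034, l3336, l430, o4463, l3115, l3112, l3223, l5276, l5112, l1360, l1357, l5035, l7376, l7226, l7381, l7382, l7372, l6191, l7366, o3438, o3459, l4909, l4903, l1089, l7373, o3174, l7379, l6701, l4089, l4121, l4869, l7188, l4769, l7375, o5193, l3629, l3378, l6428, l2861, l6420, l3617] l7383 := rupP (by decide +kernel)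
theorem r7384 : PImp [l4525, l4655, l432, l1254, l5113, l5112, l1316, l7231, l5978, l6688, l3308, l5032, l3043, l4990, l4988] l7384 := rupP (by decide +kernel)
theorem r7385 : PImp [l5256, l4655, l432, l1254, l1138, l1242, l5102, l3236, l6427, l482, l4133, l428, l1218, l5035, l4116, l4525, l5112, l1360, o3969, o3964, o4020, o3890, l7016, l4059, l3100, l3043, o2691, l3977, l3971, o6297, l3320, o2675, o2673, l7256, o6109, l6438, l3245, l3246, o2556, l6785, o6644, o5193, o5483, l6428, o8658, l4305, l4304, l6420, l4179, l6422, o5425, o5426, l6442, l6377, o7628, l2435, l6369, l2407, o620, l2342, o3517, o7554, l2357, l2370, l3629, l2396, o3632, o3592, o5212, o5200, o5292, o8598, o7592, l7262, o2196] l7385 := rupP (by decide +kernel)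
theorem r7386 : PImp [l5034, l4655, l432, l1254, l1138, l1242, l5113, l7226, l4065, l3308, l3056, l5825, o3947, l2788, l4994, l2782, l5809] l7386 := rupP (by decide +kernel)
theorem r7387 : PImp [l4655, l432, l1254, l5112, l5035, l3597, l4923, l2432, o3036, o3163, o3162, l6701, l5831, o6644, l6785, l2407, l2408, o5483, o5426, o7568, o7641, o8658, o3619, o3612, l649, o7565, o2215] l7387 := rupP (by decide +kernel)
theorem r7388 : PImp [o3721, o3717, l4498, l1360, l4655, l432, l1254, l1138, l1242, l5102, l6420, l5127, o5216, l6248, o5364, o5424, o5295, l3236, l5079, l6200, l6818, l3933, l2510, l428, o4458, o4787, l433, o4487, o4836, o4825, o4812, l3336, o5407, l5113, l5112, l5035, l3161, o2339, l7299, o5287, o5736, o5546, o5547, o5548, o4678, l7387, l2650, l2508, l2509, l3869, o3036, o3163, o3162, l6701, l5831, o6644, l6785, l2407, o5483, o5426, o7568, o8658, o3629, o3621, o3623, o3688, o8599, o8011, o8014, o2209, o8106, o8082, o8107] l7388 := rupP (by decide +kernel)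
theorem r7389 : PImp [l2651, l732, o5308, o4749, o5735, l6231, l7293, l2550] l7389 := rupP (by decide +kernel)
theorem r7390 : PImp [l6200, l6248, l6818, l2657, l3119, l4655, l432, l1254, l1138, l1242, l5112, o5193, o5483, l3380, o8658, o3771, o3688, o8603, l6193] l7390 := rupP (by decide +kernel)
theorem r7391 : PImp [l3115, l6200, l390, l6184, l4130, l6248, l6818, l3336, l6948, o8774, l476, o5354, l3219, l4655, l432, o4479, l6886, o5460, l4132, l3118, l433, o4487, o4812, o4825, o4836, o4807, l7205, l2661, o8799, l1254, l1138, l1242, l428, l6934, l2711, l7245, l4082, o5407, l6179, l1218, l5039, l6425, l5102, l3236, l6427, l2515, l2514, l2660, l3927, l3105, l3104, l482, l3476, l483, l3497, o5332, l2673, l2674, l4210, l4209, l4133, o8805, o8328, l3933, l430, o4463, l3119, l5276, l1360, l1357, l4498, l2403, l2405, l6365, l7373, l6420, l5079, l7372, l6375, l2430, l6369, l4204, o714, o688, l6191, o4594, o633, l2359, o3438, o3756, o3717, l7388, l7389, o8796, o8110, l7390, l4777, l4778] l7391 := rupP (by decide +kernel)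
theorem r7392 : PImp [l4655, l433, l6248, o4487, l6200, l3219, l4902, l7186] l7392 := rupP (by decide +kernel)
theorem r7393 : PImp [l4655, l432, l1254, l5112, l5035, l2651, o1465, o1494, l3597, l4923, o3036, o3163, o3162, l6701, l5831, o6644, l6785, l2481, o5483, o8233, o8658, o3702, o3771, o8065, o8603, o2269] l7393 := rupP (by decide +kernel)
theorem r7394 : PImp [o3438, o694, l4655, l430, l6248, o4463, o3991, o3969, l6200, l6818, l3336, o8774, l3933, o853, l4525, l5034, o5407, o5812, l428, o4458, o4787, l433, o4487, o4836, o4825, o4812, l2657, l3223, l3219, l5112, l1357, l3161, l3171, l2379, o2314, o2339, l7299, o5287, o5733, o5832, o4678, o4677, o4673, l7393, l2448, l3537, l6779, l3869, l3880, o3024, l7344, l7379, l3048, o3746, l3303, l3100, l3971, l3320, l7256, o4228, o4226, l5053, l6138, o2728, o8155, o8170] l7394 := rupP (by decide +kernel)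
theorem r7395 : PImp [o3756, l6248, o5407, l4655, l430, o4463, l476, l6200, l7394, l7389, o8796, o8110] l7395 := rupP (by decide +kernel)
theorem r7396 : PImp [l4130, o8774, l4655, l432, l1254, l1138, l1242, l5102, l3236, l6427, l476, o5350, o5458, l482, l4133, l433, o4487, o4825, l5112, l5035, l4903, l6701, l6785, o5193, o5483, l6428, o8658, l6422, l1669, l4167, o8655] l7396 := rupP (by decide +kernel)
theorem r7397 : PImp [l7330, l7331, l4230, l4228, l7251, l7245, l4082, l4084, l6248, o5407, l6948, o5812, l476, o5354, l4655, l428, o4458, o4787, l432, o4479, o4807, l433, o4487, o4836, o4825, o4812, o5364, l6934, l6200, l6818, l2711, l3336, l3119, l3118, l3117, l3116, l3115, l3219, l1254, l1138, l1242, l5276, l1360, l1357, l5035, l6179, o8805, l7249, l1218, o8328, l390, l6184, l5039, l4132, l4133, l4130, l4209, l4210, l6886, l2674, l2673, l6425, l483, l482, o5332, o5460, l2511, l2512, l5102, l3497, l3476, l7205, l3236, l3239, l3105, l3106, l3927, l2660, l2661, l2662, l3345, l2604, l2513, l2514, l2515, l6427, o8799, o9136, l2713, l4603, l2544, l2545, o3838, l7222,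 l7384, l3771, l7383, l6352, l4838, o8774, o3832, o6570, l7386, l7385, l7391, l4587, l6369, l6374, l4494, l4492, l7392, l7396, l7372, l4204, o714, l6191, o3717, l7395] l7397 := rupP (by decide +kernel)
theorem r7398 : PImp [l7330, l7331, l7245, l4082, l6934, l6200, l6248, l6818, l2711, o5407, l3223, l4655, l432, l1254, l7397, o8742, l2708, l2553, l4608] l7398 := rupP (by decide +kernel)
theorem r7399 : PImp [l6200, l6248, l6818, l4655, l432, o4479, l3219, l1254, l7330, l7398, l2846, l2943, l5467, l3836, l3505, l3512] l7399 := rupP (by decide +kernel)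
theorem r7400 : PImp [l4655, l432, l1254, l6934, l6248, o5407, l6200, l6818, l2711, l7245, l4082, l7255, l7251, l4084, l6948, o5812, l476, o5354, o4479, o4807, l433, o4487, o4836, o4825, o4812, l3118, l3219, l2708, l6179, l7249, l4603, l390, l2713, l6184, o9136, l4132, l6886, l2604, o5460, l7205] l7400 := rupP (by decide +kernel)
theorem r7401 : PImp [l4655, l433, l6248, o4487, l6948, o4836, l6200, l6818, l476, l3219, l7233, l7400, l5175, l4666] l7401 := rupP (by decide +kernel)
theorem r7402 : PImp [l5112, l1360, l7213, l5943, o3906, l3303, l6301, l4042] l7402 := rupP (by decide +kernel)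
theorem r7403 : PImp [l4655, l7222, l432, l1254, l5112, l1316, l7402, l7237, l6595, l5978, o3906, l4547, l3308, l5807, l7199, l7200, l5266] l7403 := rupP (by decide +kernel)
theorem r7404 : PImp [l4655, l7222, l432, l1254, l5112, l1357, l1316, l1140, l5256, l7236, l7237, l6595, l5978, l4547, l7201, o2461, l5048] l7404 := rupP (by decide +kernel)
theorem r7405 : PImp [l4655, l7222, l6248, l476, l6948, o5354, l432, o4479, o4807, l433, o4487, o4836, o4825, o4812, l6934, l6200, l6818, l2711, o5407, l3118, l3219, l428, l2542, l6184, l5039, l4132, l6886, l2674, l2673, l483, o5460, l3509, l3497, l7205, l4608, l2555, o8328, o8866, l1218, l7404, l7402, l7403, l6595, o2899, l3799, l3797] l7405 := rupP (by decide +kernel)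
theorem r7406 : PImp [l7401, l7399, l7251, l7245, l4082, l6934, l6200, l6248, l6818, l2711, o5407, l3223, l4655, l432, l1254, l7400, l2544, l2545, o3838, l7405, l6209, o8742, l4608, l2553] l7406 := rupP (by decide +kernel)
theorem r7407 : PImp [l7245, l4082, l6934, l6200, l6248, l6818, l2711, o5407, l4655, l432, o4479, l3219, l1254, l7251, l7406, l2846, l2845, l2943, l5467, l3836, l3505, l3512, l7252, l7255, l7254] l7407 := rupP (by decide +kernel)
theorem r7408 : PImp [o2996, l5113, l5112, l5035, o3825, o3824, o3195, o3199, o3556, l4848, l3426, l4862, l4183, l2662, o8679] l7408 := rupP (by decide +kernel)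
theorem r7409 : PImp [l7407, l7245, l4082, l4655, l432, l6248, o4479, l6948, o4816, l433, o4487, o4825, o5364, l6934, l6200, l6818, l2711, o5407, l3117, l1254, l1360, l7250, l3484, o5482, l7408, l6209, l2708, l7254] l7409 := rupP (by decide +kernel)
theorem r7410 : PImp [l2791, l4603, o6714, l4525, l4655, l432, l5113, l7226, o3969, o3964, o4036, l4059, l3043, o2691, l3977, l3971, l6182] l7410 := rupP (by decide +kernel)
theorem r7411 : PImp [l4525, l5034, l6200, l6248, l6818, l3933, l3223, l4655, l432, l1254, l1138, l1242, l5113, o853, l7410, l3308, l3268, l7379, l7286, l3048, l3063, o2525, o2521, l3974, o5915, o4109, l4994, l4058, l2788, l7328, l2782] l7411 := rupP (by decide +kernel)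
theorem r7412 : PImp [l4763, l5034, l4655, l432, l5113, l5112, l1357, o3952, o3946, l5968, l5964, l1116, l5841] l7412 := rupP (by decide +kernel)
theorem r7413 : PImp [l7407, o3827, o3824, o3825, l4230, l4228, l5034, l7409, l7245, l4082, l4655, l432, l6248, o4479, l6948, o4807, l433, o4487, o4836, o4812, o5364, l6934, l6200, l6818, l2711, l3336, o5407, l3119, l3118, l3117, l3115, l1254, l1138, l1242, l5113, l5112, l1357, l1316, l2791, o3584, l2707, l7255, o3239, o3242, o3238, l3374, l6937, l3426, l5171, l3439, l3427, l6179, o8805, o5380, l2720, l4138, l4183, l4883, l755, l4603, o8328, l667, o5780, o5778, o783, o792, l757, l2661, o6714, o9163, l1594, o8987, o8656, l7411, l4763, l7412, l5978, l6688, l3308, l5032, l7120, l7154, o2691, l6183, l7177] l7413 := rupP (by decide +kernel)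
theorem r7414 : PImp [l5035, l4118, l4525, l7409, l7407, l7245, l4082, l4084, l6248, o5407, l6948, o5812, l476, o5354, l4655, l432, o4479, o4816, o4807, l433, o4487, o4836, o4825, o4812, l6934, l6200, l6818, l2711, l3337, l3336, l3119, l3118, l3116, l3115, l3219, l1254, l428, l5113, l5112, o3825, o3824, o3827, o3828, l7413, l2542, o3749, l6184, l5039, l4132, l4131, l4133, l4130, l4209, l4210, l6886, l2674, l2673, o8609, l483, l482, o5332, o5460, o5474, o5471, o5760, l3509, l3476, l7205, o8606, l627, l4608, l3927, l2662, l6246, l2555, l5766, l4167, o8328, o8866, l2557, l1218, l5725, l4848, l6701, l3136, l6736, l3137, l4780, l4838, o3132, l4902, l4903, l3370, o2790, l7384, l7372, l1140, l3772, l7366, l7386, o3964, o4029, o3890, l7016, l4059, l3243, l3043, o6111, l3977, o2677, o6297] l7414 := rupP (by decide +kernel)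
theorem r7415 : PImp [l6209, o8742, l2708, l4608, l2553] l7415 := rupP (by decide +kernel)
theorem r7416 : PImp [o3827, o3825, l4655, l432, l6248, o4479, l6948, o4807, l433, o4487, o4836, o4812, o5364, l6934, l6200, l6818, l2711, l3336, o5407, l3119, l3118, l3115, l1254, l428, l5113, l5112, l1357, l2791, o3584, l2707, l7255, o3239, o3242, o3238, l3374, l6937, l3426, l5171, l3427, l6179, o8805, o5380, l2720, l4138, l4883, l755, l1218, l4603, o8328, o5780, o783, o792, l2660, l2661, l4605, o9163, o8656, l6595, l7213, l7402, l5943, l5256, l7214] l7416 := rupP (by decide +kernel)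
theorem r7417 : PImp [l7407, l4655, l432, l1254, l6934, l3223, l6248, o5407, l6200, l6818, l2711, l7245, l4082, l7415, o3828, o3827, o3824, o3825, l7409, l4084, l6948, o5812, l476, o5354, o4479, o4807, l433, o4487, o4836, o4825, o4812, l3337, l3119, l3118, l3116, l3219, l428, l5113, l5112, l5035, l7414, l7416, l2542, l6184, l5039, l4132, l4131, l4133, l6886, l2674, o8609, l483, o5332, o5460, o5471, o5760, l3509, l7205, o8606, l627, l4608, l3927, l2662, l6246, l2555, l5766, l4167, o8866, l2557, l1218, l4848, l3136, l4780, o3132, l7405] l7417 := rupP (by decide +kernel)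
theorem r7418 : PImp [l4084, l6248, o5407, l6948, o5812, l476, o5354, l4655, l432, o4479, o4807, l433, o4487, o4836, o4825, o4812, l6200, l6818, l3337, l3118, l3116, l3219, l1254, l5113, l5112, l2542, l6184, l5039, l4132, l4131, l6886, l2674, o8609, l483, o5460, o5474, o5471, l3509, l7205, l3387, l3927, l6177, l4780, l3216] l7418 := rupP (by decide +kernel)
theorem r7419 : PImp [l7407, l7245, l4082, l6248, l476, l6948, o5354, l4655, l432, o4479, o4807, l433, o4487, o4836, o4825, o4812, o5364, l6934, l6200, l6818, l2711, o5407, l3223, l1254, l5113, l5112, l5035, l7409, l7415, o3828, l7417, l7418, l2791, l2707, o3241, o3239, o3242, o3238, l3426, l5171, l4848, l4883, l4188] l7419 := rupP (by decide +kernel)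
theorem r7420 : PImp [l6934, l4655, l432, l1254, l3219, l6200, l6248, o4479, o5407, l6818, l2711, l7245, l4082, l7419, l2846, l2845, l2943, l5467, l3836, l3505, l3512, l7248, l7252, l7255, l7254] l7420 := rupP (by decide +kernel)
theorem r7421 : PImp [l5113, l7420, l5587, l4655, l432, l1254, l6895, l6243, l433, o4487, l3827, l2935, l6325, l3222, l430, o4463, l3850, l428, l6263, l1218, o2982, l5581, o5339, l1316, l3113, l3852, l3338, o4479, l3935, l4223, l5952, l6886, l6464, l2308, o5740, o5407, o5812, o4836, o4825, l4132, l6668, l2640, l2641, l6934, l2712, l3341, l3340, o4458, l476, l5112, l5035, l4082, l5653, l2590, l2594, l2554, l5275, l7233, o8752, l6615, o3825, l2901, l6613, o8606, l4848, o2387, l7037, o9099] l7421 := rupP (by decide +kernel)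
theorem r7422 : PImp [l5571, l4603, o8805, l2548] l7422 := rupP (by decide +kernel)
theorem r7423 : PImp [l6325, l3820, l6673] l7423 := rupP (by decide +kernel)
theorem r7424 : PImp [l4763, l5034, l4655, l432, l5113, l5112, l1357, l1316, o3952, o3946, l6656, l5972, l4995, l4994] l7424 := rupP (by decide +kernel)
theorem r7425 : PImp [l5034, l4655, l432, l1254, l5112, l1316, l7423, l4763, l7424, l5978, l6696, l6675, l5027, l3084, l5845, l5023] l7425 := rupP (by decide +kernel)
theorem r7426 : PImp [o6242, o6307] l7426 := rupP (by decide +kernel)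
theorem r7427 : PImp [o3991, l7426, o2525, l4057, l4058] l7427 := rupP (by decide +kernel)
theorem r7428 : PImp [l4525, l5034, l6325, l4655, l432, l1254, l1138, l1242, l5113, l3817, l7427, l6649, l3308, l3268, l5941, l7286, l6293, l4026, l3048, l3063, o2521, l3974, o5915, o4109, l2788, l4994, o3870, l4017, l4023] l7428 := rupP (by decide +kernel)
theorem r7429 : PImp [l4655, l432, o3946, o3952, l5113, l5112, l1357, l7193, l5964, l7056, o3896] l7429 := rupP (by decide +kernel)
theorem r7430 : PImp [l4763, l5034, l5113, l4655, o3952, l6656, l7429, l4995, l4994] l7430 := rupP (by decide +kernel)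
theorem r7431 : PImp [l4655, l432, l1254, l3850, l3852, l6263, l5112, l1316, l5034, l4228, l7425, l7428, l4763, l7430, l5978, l6696, l6675, l5027, l3084, l5845, l5023] l7431 := rupP (by decide +kernel)
theorem r7432 : PImp [o3907, l6678] l7432 := rupP (by decide +kernel)
theorem r7433 : PImp [l4655, l427, l5276, l5112, l1360, l1357, l6566, l6311, l3069, l7432, l5943, l3303, l7053, l4069, l5266, l706, l712, o5985] l7433 := rupP (by decide +kernel)
theorem r7434 : PImp [l1357, l1316, l5048, l5672] l7434 := rupP (by decide +kernel)
theorem r7435 : PImp [l6494, l4549] l7435 := rupP (by decide +kernel)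
theorem r7436 : PImp [l6243, l4655, l432, l1254, l6895, l3222, l430, l5113, l5587, o4463, l3850, l428, l6263, l1218, o2982, l433, o4487, l3827, l2935, l6325, l5581, l4218, l4223, l6668, l2640, l2641, l3852, o4498, l5112, l3810, l3811, l3813, l7431, l7433, l7434, l3303, l3304, l7435, l5982, l4553, l4539, o2460, o3906, l1245] l7436 := rupP (by decide +kernel)
theorem r7437 : PImp [o699, l4260, o4448, o5255, l3874, l3872, l6227, l737] l7437 := rupP (by decide +kernel)
theorem r7438 : PImp [l2269, l5113, l4655, l3537, o1473, l2305, l7437, o5311, l4815, o8251, o3436] l7438 := rupP (by decide +kernel)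
theorem r7439 : PImp [l4655, l432, l1254, l6895, l6243, l433, l5113, l5587, o4487, l3827, l2935, l6325, l428, l430, o4463, l3222, l6263, l1218, l6668, l2641, l3850, l3852, o2982, l5581, l4223, l5952, l4798, l4209, l4208, l2628, l2627, l3935, l1138, l1242, l2477, l4260, l2269, o690, l6930, l2624, l2283, o2270, l7438, l6916, o7785, l6919] l7439 := rupP (by decide +kernel)
theorem r7440 : PImp [l6808, l6828] l7440 := rupP (by decide +kernel)
theorem r7441 : PImp [l6243, l4655, l5113, l5587, o4498, l3813, l432, l1254, l6895, l433, o4487, l3827, l2935, l6325, l428, l430, o4463, l3222, l6263, l1218, l6668, l2641, l3850, l3852, o2982, l5581, l4223, l5952, l4798, o5333, l4209, l2640, l2627, l3935, l3934, o5407, l476, l5276, l1360, l1357, l1316, l1268, o2737, l7439, l4204, o714, o694, l6191, o3438, o3003, o3039, l7440, l2624, o2270, l6926, l2448, l3537, o1538, l3870, o4266, l6922, l5893, o5285, o7757, l4581] l7441 := rupP (by decide +kernel)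
theorem r7442 : PImp [l3160, l6905] l7442 := rupP (by decide +kernel)
theorem r7443 : PImp [l6895, l2628, l6243, l4655, l428, l432, l1254, l430, l5113, l5587, o4463, l3222, l6263, l1218, l6668, l4208, l433, o4487, l3827, l2935, l6325, l3850, o2982, l5581, o5339, l4223, l6913, l2641, l3852, l5952, l4798, o5333, l4209, l2640, l2627, l3935, o4498, l476, l5276, l1360, l1357, l4204, o714, o694, l6191, o3438, o3459, o3039, l7442, l2624, o2270, l6926, l3537, l2305, o1538, l3870, l6922, o5733, o8344, o8111] l7443 := rupP (by decide +kernel)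
theorem r7444 : PImp [l6916, l3537, o1473, o8249, l7437, o5308] l7444 := rupP (by decide +kernel)
theorem r7445 : PImp [l6895, l2628, l6243, l4655, l428, l432, l1254, l430, l5113, l5587, o4463, l3222, l6263, l1218, l6668, l4208, l433, o4487, l3827, l2935, l6325, l3850, o2982, l5581, o5339, l4223, l6913, l2641, l3852, l5952, l4798, l4209, l2627, l3935, o5407, l476, l1138, l1242, l7441, l7443, l2477, l4260, l2269, o690, l6930, l2624, l2283, o2270, l7444, l6919, o7785, o5308, l3537, o1473, l7437] l7445 := rupP (by decide +kernel)
theorem r7446 : PImp [l5113, l5587, l4655, l432, l1254, l6895, l6243, l433, o4487, l3827, l2935, l6325, l428, l430, o4463, l3222, l6263, l1218, l6668, l2641, l3850, l3852, o2982, l5581, l4223, l5952, l4798, o5333, l4209, l4218, l2640, l2627, l3935, o4498, l476, l5276, l1360, l1357, l4204, o714, o694, l6191, l6921, o3438, o3036, l2303, l2624, o2270, l6926, l3537, l2305, o1538, l3870, o8111, l6922, o5733] l7446 := rupP (by decide +kernel)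
theorem r7447 : PImp [l4655, l432, l1254, l5276, l1360, l1357, l6195, o2971, l6916, l3537, o8249, l3872, o4760] l7447 := rupP (by decide +kernel)
theorem r7448 : PImp [l6243, l3817, l6895, l2628, l4655, l428, l432, l1254, l430, l5113, l5587, o4463, l3222, l6263, l1218, l6668, l4208, l433, o4487, l3827, l2935, l6325, l3850, o2982, l5581, o5339, l4223, l3852, l2641, l4218, l7425, l6913, l4228, l5952, l4209, l2640, l2627, l3935, o5407, o4498, l1138, l1242, l427, o3938, o3991, l7100, l7426, o2525, o2521, o2532, l4058, o5915, l3303, l4064, l6163, l2790, o3902, l4037, l7445, l2937, o2748, l1267, l1268, l7446, l2477, l4260, l2269, o690, l6930, l2624, l2283, o2270, l7447, o3036, l6919, o7785, o4760, l3537, l3874] l7448 := rupP (by decide +kernel)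
theorem r7449 : PImp [l6243, l4655, l433, l5113, l5587, o4487, l432, l1254, l6895, l3827, l430, o4463, l3222, l6263, l3850, l3852, l6325, l428, l1218, l6668, l2641, o2982, l2935, l5581, l4223, l4218, l7425, l4228, l4525, l5034, l1138, l1242, l3817, l7448, l6649, l3308, l3268, l5941, l7286, l6293, l4026, l3048, l3063, o2521, l3974, o5915, o4109, l2788, l4994, o3870, l4017, l4023] l7449 := rupP (by decide +kernel)
theorem r7450 : PImp [l5034, l4655, l432, l1254, l5112, l1316, l4763, l7430, l5978, l6696, l6675, l5027, l3084, l5845, l5023] l7450 := rupP (by decide +kernel)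
theorem r7451 : PImp [l5112, l6243, l4655, l432, l1254, l6895, l3222, l430, l5113, l5587, o4463, l3850, o4498, l3811, l2946, l2794, o2748, l433, o4487, l3827, l2937, l3814, l4525, l3852, l2935, l428, l6263, l1218, o2982, l6325, l5581, l4223, l5952, l4209, l6668, l4208, l2640, l2641, l2628, l2627, l3935, l1138, l1242, o3969, o3888, l5852, l3303, l4059, l3043, l3075, o2449, l3971, l6163, l5842, l4037, l1267, l1268, l7446, l2477, l4260, l2269, o690, l6930, l2624, l2283, o2270, l7447, o3036, l6919, o7785, o4760, l3537, l3874] l7451 := rupP (by decide +kernel)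
theorem r7452 : PImp [l7436, l6243, l4655, l432, l1254, l6895, l3222, l430, l5113, l5587, o4463, l3850, l428, l6263, l1218, o2982, l433, o4487, l3827, l2935, l6325, l5581, l4218, l4223, o5339, l6668, l4208, l2640, l2641, l3852, l2628, o5407, o4498, l1138, l1242, l5112, l4525, l4228, l4230, l7450, l3817, l3819, l7449, l3811, l2937, o2748, l2946, l6695, l2794, l6913, l7451, l6649, l2779, l3308, l3270, l3268, l6293, l7286, l3045, o2661, l3974, o6176, o4125] l7452 := rupP (by decide +kernel)
theorem r7453 : PImp [l3304, l4534, o3906, l1245, o3891, o2454, o6015] l7453 := rupP (by decide +kernel)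
theorem r7454 : PImp [l3304, l3303, l4007, l4763, l5113, l5112, l4655, l5982, l7453, l4548, l3043, l3075, o2460, o2444, l3077, l1245, o5897, o3906, o3965, l2789, o3924, l4985, l4528] l7454 := rupP (by decide +kernel)
theorem r7455 : PImp [l6934, l7420, l5113, l5587, o5407, l6243, l2712, l4655, l432, l1254, l430, o4463, l6895, l3222, l6263, l7421, l428, l1218, l6668, l2568, l6325, l7415, l7422, l433, o4487, l3827, l2935, l3850, o2982, l5581, o5339, l1316, l3113, l3852, l3338, o4479, l3935, l4223, l5952, l6886, l6464, l2308, l476, o5354, o4807, o4836, o4825, o4812, l2641, l4798, l4132, l4218, l4129, l2640, l2627, l3342, l3341, o4498, o4458, l5112, l5035, l2544, l2545, o3838, l7233, l6615, l6456, l7222, l6448, l3797, o3835, o3061, o3063, o8606, l3129, o2357, o8704, o5475, l4777, l4769, l7452, l7433, l4763, l7434, l3303, l7435, l7454, l3813, l5061, l2946, l7453, l2794, l3074, o3909, l4530, l5012] l7455 := rupP (by decide +kernel)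
theorem r7456 : PImp [l7420, l6895, l4655, l432, l5113, l5587, o4479, l6243, l3935, l430, o4463, l3222, l1254, l3850, l3852, l433, o4487, l3827, l2935, l428, l6263, l1218, o2982, l6325, l5581, l4223, l5952, l6886, l3114, l6668, l4128, l3339, l5112, l6934, o5407, l2712, l7421, l2568, l7415, l7455, o3828, o8609, o5471, l4132, l3341, o5339, l1316, l3113, l3338, l6464, l2308, o3825, o8606, l3142, l3129, l7422, l4130, o814, o5812, l476, o5350, l2641, l3403, l3927, l5786, l6177] l7456 := rupP (by decide +kernel)
theorem r7457 : PImp [l5113, l7420, l5587, l4655, l432, l1254, l6895, l6243, l433, o4487, l3827, l2935, l6325, l3222, l430, o4463, l3850, l428, l6263, l1218, o2982, l5581, o5339, l1316, l3113, l3852, l3338, o4479, l3935, l4223, l5952, l6886, l6464, l2308, o5407, o5812, l476, o5350, o5354, o4807, o4825, o4812, l4130, l4132, l6668, l6934, l2712, l3341, l5112, l7421, l2568, o814, l7415, l7422, l7455, o3825, o8606, l3129, l3142, l7456, l2820, l6448, l3927, l5786, l5766, l4608, l2557] l7457 := rupP (by decide +kernel)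
theorem r7458 : PImp [l5653, l2708, l4082, l7422] l7458 := rupP (by decide +kernel)
theorem r7459 : PImp [l4082, o8402, l7190, l2548] l7459 := rupP (by decide +kernel)
theorem r7460 : PImp [l3160, o2339, l6808, o2258, l6867, l7299, o1452, l6390, o5736, o8394] l7460 := rupP (by decide +kernel)
theorem r7461 : PImp [l6243, l6325, o3438, l3935, l4655, l5113, l5587, o4498, l476, l2624, o2270, l6926, l3537, l2305, o1538, l3870, l6922, o5733, o8344, o8111] l7461 := rupP (by decide +kernel)
theorem r7462 : PImp [l6895, l2628, l6243, l4655, l428, l432, l1254, l430, l5113, l5587, o4463, l3222, l6263, l1218, l6668, l4208, l433, o4487, l3827, l2935, l6325, l3850, o2982, l5581, o5339, l4223, l6913, l2641, l3852, l5952, l4798, o5333, l4209, l2640, l2627, l3934, l5276, l1360, l1357, l4204, o714, o694, o688, l6191, o3459, o3039, l7461, l3160, l7460, l6867, l4919, l4923] l7462 := rupP (by decide +kernel)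
theorem r7463 : PImp [l4655, l432, l1254, l430, l5113, l5587, o4463, l6243, l6895, l3222, l6263, l6325, l428, l1218, l6668, l2641, l6682, l5854, l3303, o3991, l3817, l4228, o5407, l2712, l433, o4487, l3827, o3112, l7459, l2568, l2640, l7458, l2935, l3850, l3852, o2982, l5581, l4223, l5952, l4798, l4209, l4218, o5339, l4208, l2628, l2627, l3935, o4498, l476, l1138, l1242, l3811, l6687, l7427, l7426, l6709, l6913, l4608, o2525, o2532, l4037, l2554, l4064, l7462, l2477, l4260, l2269, o690, l6930, l7439, l2624, l2283, o2270, l7444, l6919, o7785, o5308, l3537, o1473, l7437] l7463 := rupP (by decide +kernel)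
theorem r7464 : PImp [l6895, l2628, l6243, l4655, l428, l432, l1254, l430, l5113, l5587, o4463, l3222, l6263, l1218, l6668, l4208, l433, o4487, l3827, l2935, l6325, l3850, o2982, l5581, o5339, l4223, l6913, l2641, l3852, l5952, l4798, o5333, l4209, l2640, l2627, l3934, l5276, l1360, l1357, l4204, o714, o694, o688, l6191, o3459, o3036, l7460, l7461] l7464 := rupP (by decide +kernel)
theorem r7465 : PImp [l6243, l4655, l432, l1254, l6895, l3222, l430, l5113, l5587, o4463, l3850, o2748, l1089, l5260, o4498, l3814, l3810, l3852, l433, o4487, l3827, l2935, l428, l6263, l1218, o2982, l6325, l5581, l4223, l5952, l4209, l6668, l4208, l2640, l2641, l2628, l2627, l3935, l1138, l1242, l4029, l5678, l4037, l7464, l2477, l4260, l2269, o690, l6930, l2624, l2283, o2270, l7447, l6919, o3036, o7785, o4760, l3537, l3874] l7465 := rupP (by decide +kernel)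
theorem r7466 : PImp [l6243, l3821, l4233, l4655, l428, l432, l1254, l430, l5113, l5587, o4463, l6895, l3222, l6263, l1218, l6668, o5407, l2712, l6325, l2641, l433, o4487, l3827, o3112, l7459, l2568, l2640, l7458, l6682, l3850, o2982, l2935, l5581, l4223, o4498, o4012, l5854, l3303, o1726, l7463, l3810, l4608, l2554, l7465, l4035, o2543, l6709, o6246] l7466 := rupP (by decide +kernel)
theorem r7467 : PImp [l5113, l5587, l6243, l6325, l4655, l428, l432, l1254, l430, o4463, l6895, l3222, l6263, l1218, l6668, l2641, l6682, l3850, o2982, l433, o4487, l3827, l2935, l5581, l4218, l4223, l3852, l1138, l1242, l5034, l4525, l4228, l7450, l3817, l7466, o3906, l6293, l4026, l5917, l3045, l3059, l7226, l3308, l3268, l3974, l7286, o4109, o2521, l4994, o5915, l7328, l2789, o3895] l7467 := rupP (by decide +kernel)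
theorem r7468 : PImp [l6934, l7420, l5113, l5587, o5407, l6243, l6325, l2712, l4655, l432, l1254, l430, o4463, l6895, l3222, l6263, l428, l1218, l6668, l2640, l7458, l2641, l7457, l6682, l433, o4487, l3827, l2935, l3850, o2982, l5581, o5339, l1316, l3113, l3852, l3338, o4479, l3935, l4223, l5952, l6886, l6464, l2308, l476, o5354, o4807, o4836, o4825, o4812, l4798, l4132, l4129, l2627, l3342, l3341, o4498, o4458, l5112, l5035, l2544, l2545, o3838, l7233, l6456, l6448, l7222, l3797, o3835, o3061, o3063, o8606, l3129, o2357, o8704, o5475, l6785, l4769, l7467, l7402, l4763, l7434, l3303, l7435, l7454, l3813, l5061, l2946, l7453, l2794, l3074, o3909, l4530, l5012] l7468 := rupP (by decide +kernel)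
theorem r7469 : PImp [l4082, o801, l7037] l7469 := rupP (by decide +kernel)
theorem r7470 : PImp [l7468, l6934, l7420, l5113, l5587, o5407, l6243, l6325, l2712, l4655, l432, l1254, l430, o4463, l6895, l3222, l6263, l428, l1218, l6668, l2640, l7458, l433, o4487, l3827, l2935, l3850, o2982, l5581, o5339, l1316, l3113, l3852, l3338, o4479, l3935, l4223, l5952, l6886, l6464, o5740, o5812, l476, o5350, o4816, o4825, o4812, l4130, l3340, l5112, l5035, l2901, l2909, l2811, l2918, l4848, l4862, l4869, l2632, l3927, l2604, o8701, l7469, l2568, o814, l5786, l6177] l7470 := rupP (by decide +kernel)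
theorem r7471 : PImp [l6934, l4655, l432, l1254, l433, l430, l428, l5113, l5112, l1316, l7420, l5587, l6243, l6895, l476, o4463, o4458, o4487, o4479, o5407, l3935, l3338, l3340, l3341, l6325, l2712, l3222, l3113, l3850, l3827, l6263, l3852, l2935, l1218, l6668, o2982, l2641, l2640, l5581, o5339, l4223, l5952, l4132, l4130, l6886, l6464, o4812, o4825, o4807, o5354, o5350, o5812, o5740, l2308, l7458, l7468, l7470, l2820, l6456, l6448, l2629, l3927, l2604, l3797, o3061, o3060, o8606, o8701, l3129, l7469, l2568, o814, l5786, l5766, l4608, l2557] l7471 := rupP (by decide +kernel)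
theorem r7472 : PImp [l4655, l430, l6248, o4463, l6200, l3223, l5037, l2948, l4441, l2674] l7472 := rupP (by decide +kernel)
theorem r7473 : PImp [l7234, l4084, o9136, l2713, l6260, l4603] l7473 := rupP (by decide +kernel)
theorem r7474 : PImp [l7471, l4428, l4135, l5038, l5037, l6934, l4655, l433, l432, l430, l1360, l3219, l3223, l6200, l6248, l3117, l3118, l6948, l476, o4463, o4487, o4479, o5407, l6818, o4812, o4825, o4836, o4807, o5354, o5350, o5812, l6886, o5460, o5458, l483, l7472, l4442, l5467, l6889, l2708, l2673, l7205, l3509, l3497, l3927, l2662, l2604, l7167, o8655, o3467, l7473, o3824] l7474 := rupP (by decide +kernel)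
theorem r7475 : PImp [l6260, l5706, o9136] l7475 := rupP (by decide +kernel)
theorem r7476 : PImp [l7475, l5571, l4603, o9136, l2713] l7476 := rupP (by decide +kernel)
theorem r7477 : PImp [l5035, l7471, l4100, l4428, l5037, l6934, l4655, l433, l432, l430, l5113, l5112, l7474, l5587, l6243, l5308, l5623, l2641, l476, l473, o4463, o4487, o4479, o5407, l3934, l3935, l3338, l3340, l3341, l2640, l2708, l5636, l4591, l4802, l5653, o5339, l4796, l3113, l4084, l4970, o2982, o2989, l4647, l6253, o4825, o4807, o5812, o5740, l2308, l6701, l3216, l2631, l2632, l5936, o8701, l3927, l2604, o3824, o3467, l7476] l7477 := rupP (by decide +kernel)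
theorem r7478 : PImp [l2571, l7037] l7478 := rupP (by decide +kernel)
theorem r7479 : PImp [l6200, l6248, l6818, l7471, l3219, l4655, l432, o4479, l5038, l6886, l483, l1360, l3223, l430, o4463, l7472, l4442, l6889, l3509, l6170, l476, l6948, o5354, o5460, l4135, l3118, l433, o4487, o4812, o4825, o4836, o4807, l5467, l7205, l2661, l3117, o5350, o5458, l2662, l4428, l7167, o8799, o3564, l3927, l5035, l5112, l3336, l3115, l6220, o3044, l4100, l6701, l3216, o5407, o5812, l7477, l1254, l5113, l4084, l6177] l7479 := rupP (by decide +kernel)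
theorem r7480 : PImp [l5112, l2794, l2590, o6600, l7192, l7242, l7240, l2779, l7040, l7188] l7480 := rupP (by decide +kernel)
theorem r7481 : PImp [l5112, l2794, l2590, l4655, l432, l1254, l1316, l5034, l7480, l4763, l7412, l5978, l5032, o3895, l5020, o2449] l7481 := rupP (by decide +kernel)
theorem r7482 : PImp [l6934, l6200, l6248, l6818, l2711, l7471, l5037, l7479, l2568, o5407, l7477, l3219, l4655, l432, o4479, l5038, l6886, l483, l1360, l3223, l430, o4463, l7472, l4442, l6889, l3509, l6170, o3749, l5035, l5112, l3336, l3115, l6220, o3044, l4100, l6948, l433, o4487, o4825, l6701, l1254, o5812, l3118, o4812, o4836, o4807, l476, o5354, l5467, l4135, o5460, l7205, l2604, l2661, l3117, o5350, o5458, l2662, l4428, l7167, o8799, o3854, l7037, o9099, l2557, l2590, o8685, o8752, o8467, l428, o4458, o4787, l3216, l3927, l7478, o6644, o3237, o6600, o6353, o3172, o2765, o3046, o3204, o2795, o8655, o3467, l4790, l4789, o5364, l3436, l482, l3474, l3021, l2673, l5909, l1138, l1242, l7046, l7481, l6595, l7213, l7402, l5943, l5829, l7214] l7482 := rupP (by decide +kernel)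
theorem r7483 : PImp [l5112, l2794, l2779, o3909, l3308, l4655, l432, l1254, l1138, l1242, l5113, l5034, l4525, l6688, l7240, l4056, l3043, l3075, o2463, l3974, l4026, l4017, o4113, l5840] l7483 := rupP (by decide +kernel)
theorem r7484 : PImp [l7477, l5035, l7471, l4100, l4428, l4135, l6220, l5038, l5037, l6934, l4655, l432, l1254, l433, l430, l428, l5112, l1360, l3219, l3223, l6200, l6248, l3115, l3117, l3118, l6948, l6245, l7472, l476, o4463, o4458, o4487, o4479, o5407, l6818, o4812, o4825, o4836, o4807, o4787, o5354, o5350, o5812, l4442, o3044, o3046, l3336, l2711, l6886, l6701, o5460, o5458, l5467, l5909, l483, l482, l3216, l7205, l2673, l3021, l6889, l3927, l2661, l2662, l2604, l3509, l6170, l7167, o8655, o3749, l3474, o8799, o3467, o3854, o3172, o3204, l7479, l2568, l7037, l7478, o9099, l4789, o6644, l4790, l2557, o2795, o3237, o2765, l2590, l7192, o6600, l2794, o8685, o8467, o8752, l7482, l1245, l7041, l7016, l7483, l6595, l7402] l7484 := rupP (by decide +kernel)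
theorem r7485 : PImp [l5113, l7484, l5587, l7471, l6243, l5623, l5308, l5037, l2641, l5636, o5339, l5035, l4100, l476, l3935, l4802, l3113, l3338, l4655, l430, o4463, l3934, l473, l4591, l4796, l4970, o2982, l4647, l6253, l2308, l4135, l3341, l5112, o2989, l433, o4487, o4825, l6701, l2631, o8834, o3564, l432, o4479, o4807, l3216, l5936, l3927, l7477, o3749, l6323, o5407, o5812, o5350, l1254, l4084, l5786, l6177] l7485 := rupP (by decide +kernel)
theorem r7486 : PImp [l4655, l430, l5113, l6934, l7471, l5037, l7477, l7484, l5587, l6243, l5308, l5623, l2641, l473, o4463, o4498, l3934, o2996, l5636, l4591, l3218, l4796, l4970, o2982, l4444, l7485, l2590, l7190] l7486 := rupP (by decide +kernel)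
theorem r7487 : PImp [l2791, l4655, l430, o4573, l5112, l1360, l1316, l5771, o6560] l7487 := rupP (by decide +kernel)
theorem r7488 : PImp [l5113, l3216, l4862, l6448, l2910] l7488 := rupP (by decide +kernel)
theorem r7489 : PImp [l6248, l476, l6948, o5354, l4655, l432, o4479, o4816, o4807, l433, o4487, o4836, o4825, o4812, l5112, l5035, l7488, l5725, l4848, l4863, l4838, l2904, l2903] l7489 := rupP (by decide +kernel)
theorem r7490 : PImp [l4606, l5722] l7490 := rupP (by decide +kernel)
theorem r7491 : PImp [l4606, o6436] l7491 := rupP (by decide +kernel)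
theorem r7492 : PImp [l2791, l4655, l430, o4573, l427, l7487, l7491, l4600, l5868, l5741] l7492 := rupP (by decide +kernel)
theorem r7493 : PImp [l4655, l430, o4573, l5276, l1360, l1316, l5788, l5772] l7493 := rupP (by decide +kernel)
theorem r7494 : PImp [l4595, o6410] l7494 := rupP (by decide +kernel)
theorem r7495 : PImp [l4655, l430, o4573, l2791, l7492, l7493, l7494, l6216, l2561] l7495 := rupP (by decide +kernel)
theorem r7496 : PImp [o3749, l6861, o8381, o8778] l7496 := rupP (by decide +kernel)
theorem r7497 : PImp [l4655, l432, l1254, l4233, l7384, l4086, l7209, l5859, l3261, l7229] l7497 := rupP (by decide +kernel)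
theorem r7498 : PImp [l7486, l7495, o3838, l2545, l2544, l7236, l7402, l5256] l7498 := rupP (by decide +kernel)
theorem r7499 : PImp [l6200, l2661, l3118, l4228, l4230, l4231, l4233, l7384, l7497, l7230, o8799] l7499 := rupP (by decide +kernel)
theorem r7500 : PImp [l7486, l7495, o3838, l2545, l2544, l4655, l432, l1254, l5112, l1316, l7498, l7237, l7135, l5978, l7201] l7500 := rupP (by decide +kernel)
theorem r7501 : PImp [l6682, l4086, l6200, l6248, l6818, l4655, o4498, l432, l1254, l427, l5113, o3938, o3997, l5859, o3890, l7100, l3303, l3291, l6709, l7059, l5737, l3844] l7501 := rupP (by decide +kernel)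
theorem r7502 : PImp [l1138, l1242, o859, l7328, l7059, o3999] l7502 := rupP (by decide +kernel)
theorem r7503 : PImp [l6682, l4086, l5034, l6200, l6248, l6818, l3933, l4655, o4498, l432, l1254, l1138, l1242, l5113, l7501, l7173, o3906, l3308, l3272, l7502, l5737, o5915, o6034] l7503 := rupP (by decide +kernel)
theorem r7504 : PImp [l4525, l4655, l6248, o4498, l432, l1254, o3964, o4012, l5859, o4036, l4059, l3043, o2691, o2647, l3977, l7144] l7504 := rupP (by decide +kernel)
theorem r7505 : PImp [l7489, l6248, l476, l6948, o5354, l7486, l7495, l2545, l4789, l6200, l6818, l3336, l3115, l1357, l2544, l5719, l755, l2689, l4655, l432, l1254, l3219, o4479, l2711, l2574, l430, o4573, o6353, o2924, o3838, l4773, o5384, o5729, l4138, o792, l2571, o813, l7496, l2845, l2673, l2674, l4180, l501, o5392, l390, l3497, l3509, l2723, o5780, l500, o5403, o783, l4769, l5277, l5275, l4971, l2599, l3933, o4807, l433, o4487, o4836, o4825, o4812, o5364, o4498, l1138, l1242, l5113, l5035, l4892, l7250, l3476, l1089, l7500, l5034, l4230, l4233, l7384, l4086, l7499, l6682, l7503, l7504,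 l7226, o3906, l3308, l3272, l7502, l5737, o5915, o6034] l7505 := rupP (by decide +kernel)
theorem r7506 : PImp [l7486, l7495, o3838, l2545, l2544, l4655, l430, o4573, l2574, o6353, o2924, l6200, l6248, l6818, l2711, l3336, l476, l6948, o5354, l432, o4479, l7489, l3115, l3219, l1254, l1357, l5719, l4773, l4789, l755, l501, l500, o5384, l4138, l2571, l4180, o792, o5392, o5403, o5729, o813, l7496, l390, l3509, l7505, l3487] l7506 := rupP (by decide +kernel)
theorem r7507 : PImp [l7486, l7495, l4655, l430, o4573, l2574, o6353, o2924, l6200, l6248, l6818, l3336, l433, o4487, l6948, o4836, o4825, l432, o4479, l3115, l3219, l1254, l5112, l5035, o3838, l7506, l5725, l4848, l4838, l6861, o2790, l390, l2845, l1089, l6270, l7250, l2674, l5038, l6170, l3501, l3509] l7507 := rupP (by decide +kernel)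
theorem r7508 : PImp [l7489, l2604, l3927, l4655, l428, l6248, o4458, l6948, o4787, l433, o4487, o4825, o4812, l7486, l7495, l430, o4573, l432, l1254, l5112, l5035, l2574, l2713, o6353, l7507, o3241, o3237, o3239, l4848, l4869, o6644, l2571, o8899, o5825, l4771, l4773] l7508 := rupP (by decide +kernel)
theorem r7509 : PImp [o6560, l2578, o6391] l7509 := rupP (by decide +kernel)
theorem r7510 : PImp [l6200, l6248, l6818, l3933, l4655, l432, o4479, l427, o4452, l3223, l3219, l7495, l1254, l1360, l3484, o2977, o5727, o6639, l7496, l2568] l7510 := rupP (by decide +kernel)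
theorem r7511 : PImp [l6200, l2661, l3118, o8799, l7230] l7511 := rupP (by decide +kernel)
theorem r7512 : PImp [l4086, l5035, l7486, l7495, l5112, l4655, l430, o4573, l7509, l2574, o6353, o2924, l3115, l6200, l6248, l6818, l3336, l2711, o3838, l7510, l7250, l2845, l390, l6184, l5039, l2673, l5277, l7384, l4233, l4231, l4230, l4228, l4525, l5034, l3219, l432, o4479, l6886, l482, l3476, l483, l3509, l476, l6948, o5354, o5460, l2674, l4133, l4132, o4463, l3223, l4909, l2544, l7508, l7489, l2660, o4807, l433, o4487, o4836, o4825, o4812, o5364, l3119, l5275, l2599, l7511, l7174, o5475, l4769, l7379, l7209] l7512 := rupP (by decide +kernel)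
theorem r7513 : PImp [l4655, l432, l1254, l1138, l1242, l5102, l3236, l6427, l3106, l3105, l7489, l2514, l2513, l6200, l6248, l6818, l2512, l2511, l3219, o4479, l6886, l482, l4130, l4133, l7486, l7495, l2545, l2544, l3336, l2660, l3927, l428, o4458, l6948, o4787, l3119, l3115, l430, l4971, l5035, o5193, o5483, l3378, o8658, o8801, o8774, o3809, l6428, o3212, l6422, o6644] l7513 := rupP (by decide +kernel)
theorem r7514 : PImp [l7489, l7486, l7495, l2544, l5112, l4655, l430, o4573, l7509, l2574, o6353, o2924, l3115, l6200, l6248, l6818, l3336, l2711, o3838, l7510, l7250, l390, l2845, l6184, l5039, l2674, l4971, l6425, l3219, l432, o4479, l6886, l483, l3509, l3216, l7508, l6948, o4816, l3763, l7513, l4769, l2673, o4463, l3223, l4909, l5277, l2599, l427, l5113, l5035, l5034, l4525, l4228, l4230, l7384, l4086, l7512, l6682, l7379, l7226, o3952, o3946, o3938, o4036, l7038, l7100, l3282, l3993, l5713, l3984, l3320] l7514 := rupP (by decide +kernel)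
theorem r7515 : PImp [l6200, l7486, l7495, l5112, l4655, l430, o4573, l7509, l2574, o6353, o2924, l3115, l6248, l6818, l3336, l2711, o3838, l7510, l390, l2845, l7250, l6184, l3219, l432, o4479, l6886, l483, l3509, l3497, l4971, l5039, l6425, l2673, l2674, l1089, l433, o4487, l4903, l2545, l2544, l7508, l6948, o4816, l7489, l5277, l5275, l1254, l5113, l1357, l1316, l3216, l3763, l7513, l6785, l7514, l4433, l7498, l4007, l3958, l7237, l5978, l3308, l3271, l7201, l7199, l5048, l3042, l5266, o2643, l4547, o5910, o4175, o4178, l4990, l4692] l7515 := rupP (by decide +kernel)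
theorem r7516 : PImp [l7486, l7495, o3838, l6200, l6248, l6818, l2711, l3336, l4655, l433, o4487, l6948, o4825, l3115, l3219, l5112, l430, o4573, l7509, l2574, o6353, o2924, l5035, l4903, l7510, l390, l2845, l7250, l6184, l4130, l7515, l6701] l7516 := rupP (by decide +kernel)
theorem r7517 : PImp [l6200, l6248, l6818, l2711, l3336, l4655, l432, o4479, l430, o4463, l3115, l3223, l3219, l7486, l7495, l5112, o4573, l7509, l2574, o6353, o2924, l1254, l1360, o3838, l7516, l5038, l7472, l2570, l6886, l4442, l483, o5729, l6889, l3509, l7496, l6170] l7517 := rupP (by decide +kernel)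
theorem r7518 : PImp [l7486, l7495, l5112, l4655, l430, o4573, l7509, l2574, o6353, o2924, l2713, l432, l1254, l433, l428, l5035, l3219, l6200, l6248, l3115, l6948, l7489, o4458, o4487, o4479, l6818, o4812, o4825, o4787, l3927, l2604, l3336, l7517, o3241, o3237, o3239, l4848, l4869, o6644, l2571, o8899, o5825, o5824, o5823, l7196, l4771, l3378, l3351, l6861, l390, l7250, l6170, l5038, l3509, l6886, l483] l7518 := rupP (by decide +kernel)
theorem r7519 : PImp [l4655, l433, l5113, l5587, o4487, o4498, l6243, l5277, l7450, l7425, l3811, o2748, l2946, l6695] l7519 := rupP (by decide +kernel)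
theorem r7520 : PImp [l6243, l5113, l5587, l6325, l4655, l430, l4971, l6668, l2641, l6670, l432, l1254, l3934, l473, l4591, o4463, l3850, l2947, o2982, l5581, l4218, l4223, l3852, l476, l3935, l4802, l433, o4487, l3827, l6263, l2640, o4498, l5275, l5112, l1316, l7519, l7433, l7434, l3303, l7435, l7454, l3813, o2748, l2946, l1267, l2794, l5839] l7520 := rupP (by decide +kernel)
theorem r7521 : PImp [l4086, l4525, l4655, l432, l1254, l427, l5113, l3303, l6649, l6709, o3969, o3938, o4036, o3907, l6293, l7100, l1267, l3045, o2461, l3282, l3971, l6188] l7521 := rupP (by decide +kernel)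
theorem r7522 : PImp [l4086, l4525, o6353, o3110, l4655, l432, l1254, l1138, l1242, l5113, l7521, l3308, l3268, l3261, l7286, l3048, o2525, o2532, o5925, o3746, l3974, l4058, o4190, o6150, o4115, l5941, o947, l4026, l3967] l7522 := rupP (by decide +kernel)
theorem r7523 : PImp [l6649, l4059, o3907, o2460, l6163] l7523 := rupP (by decide +kernel)
theorem r7524 : PImp [l6243, l5113, l5587, l6325, l4655, l430, l4971, l6668, l2641, l6670, l432, l1254, l3934, l473, l4591, o4463, l3850, l2947, o2982, l5581, l4218, l4223, l2568, l2712, l2548, o6353, o3110, o8402, l3852, l476, l3935, l4802, l433, o4487, l3827, l6263, o4498, l1138, l1242, l4525, l4228, l4230, l7450, l3817, l3819, l7522, l3811, l2937, o2748, l1267, l7523, l3308, l3270, l3268, l7286, l3048, o2661, l3974, o6176, o4125] l7524 := rupP (by decide +kernel)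
theorem r7525 : PImp [l6243, l5113, l5587, l6325, l4655, l430, l4971, l6668, l2641, l6670, l432, l1254, l3934, l473, l4591, o4463, l3850, l2947, o2982, l5581, l4218, l4223, l3852, l2640, l5277, l5275, l7436, l7520, l7524, l7433, l7434, l3303, l3304, l7435, l7454, l5061, l4547, l7199, l7453, l5266] l7525 := rupP (by decide +kernel)
theorem r7526 : PImp [l6687, l6689, l7434, l6595, l7454, l6634] l7526 := rupP (by decide +kernel)
theorem r7527 : PImp [l4655, l432, l1254, l3850, l3852, l6263, l4228, l7450, l7428] l7527 := rupP (by decide +kernel)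
theorem r7528 : PImp [l6682, l7402, l7434, l6595, l7454, l6634] l7528 := rupP (by decide +kernel)
theorem r7529 : PImp [l5113, l7518, l5587, l6243, l7486, l7495, l5112, l4655, l430, o4573, l7509, l2574, l6325, l4971, l6668, l2641, l6670, l432, l1254, l3934, l473, l4591, o4463, l3850, l2947, o2982, l5581, o5339, o6353, o2924, l5277, l476, l3935, l4802, l3113, l3338, l3852, l4223, l5952, l4130, l6253, l2308, o5354, o4479, o4807, l433, o4487, o4825, o4812, l6886, l4132, l4218, l2568, l2712, l2548, o3110, o8402, l3114, l3827, l6263, l2640, l4128, l3341, l3339, o4498, l428, o4458, l5275, l5035, l2544, l2545, o3838, l6456, l6448, l4873, o3065, o3067, o8606, o8609, l3129, o5471, l4777, l4769, l7525, l1089, o2749, l3811, l3813, l7526, l7528, l4228, l7450, l7527, l3817, l7522] l7529 := rupP (by decide +kernel)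
theorem r7530 : PImp [l7486, l7495, l4655, l430, o4573, l432, l1254, l433, l5113, l5112, l5035, l7509, l2574, l2713, l4971, o6353, o2924, l5277, l7518, l2548, l5587, l6243, l476, l473, o4463, o4487, o4479, l3934, l3935, l3338, l3339, l3340, l6325, l2712, l6668, l4128, l2568, l2641, l6670, l4591, l4802, l3850, l3113, l3114, l3852, o3110, l2947, o2982, o8402, l5581, l4223, o5339, l5952, l4130, l6253, o4825, o4816, o5740, l7529, o3241, o3240, o3824, o3828, l4848, o8609, l2632, l4862, o5837, o8701, l2604, o8899, o801] l7530 := rupP (by decide +kernel)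
theorem r7531 : PImp [l3336, o3563, l6861, o8506, l3378, o5380] l7531 := rupP (by decide +kernel)
theorem r7532 : PImp [l4655, l6248, o4498, l432, l1254, l427, l5113, o3938, o3997, o4036, l7100, l3291, l3282, l7059, l5808, o1530] l7532 := rupP (by decide +kernel)
theorem r7533 : PImp [l4525, l5034, l6200, l6248, l6818, l3933, l4655, o4498, l432, l1254, l1138, l1242, l5113, l7532, l7226, l3272, l7120, l7502, o3971, l5840, l4986] l7533 := rupP (by decide +kernel)
theorem r7534 : PImp [l6200, l6248, l6818, l4655, o4498, l7495, l5848, l430, o4573, l432, l1254, l427, l5276, l1316, o3938, o3997, l5859, o4036, l7100, l3303, l3291, l3282, l6709, l7059, l6293, l3844, o2461, l6187] l7534 := rupP (by decide +kernel)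
theorem r7535 : PImp [l5034, l6200, l6248, l6818, l3933, l4655, o4498, l7495, l5848, l430, o4573, l432, l1254, l1138, l1242, l5113, l7533, l5260, l7534, l7173, l6726, l3272, l7120, l6293, l7502, o3971, l3045, l5840] l7535 := rupP (by decide +kernel)
theorem r7536 : PImp [l4525, l7495, l5848, l4655, l430, o4573, l432, l1254, l5276, l1316, o3969, o3964, l5859, o4036, l4059, l3043, l3971, l3977, l6187, l3282] l7536 := rupP (by decide +kernel)
theorem r7537 : PImp [l6200, l6248, l6818, l3933, l4655, o4498, l7495, l5848, l432, l1254, l1138, l1242, l5113, l5034, l4230, l7384, l7535, l7536, l7226, l3272, l7115, l7120, l7502, o3906, o3971, l5840, l6293, l3045] l7537 := rupP (by decide +kernel)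
theorem r7538 : PImp [l6200, l4655, l432, l1254, l7530, l430, l7486, o4573, l7495, l1138, l1242, l4598, l5848, o6342, o6436, o2924, l3219, l6248, l3115, l3119, o4479, l6818, l7489, l2660, l2544, o3838, l5467, l2675, l4129, l7531, l390, l7250, l6184, l3501, l3509, l3497, l5730, l2545, l2711, l5277, l5275, l3028, o6628, l4611, l5035, l7537, l7498, l7500, l7135, l7237, l3303, l3304, l7200, l5817, l7199, l3045, l410, l7217, l4988] l7538 := rupP (by decide +kernel)
theorem r7539 : PImp [l4655, l430, o4573, l7532, l7534, l5260] l7539 := rupP (by decide +kernel)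
theorem r7540 : PImp [l4525, l5034, l6200, l6248, l6818, l3933, l4655, o4498, l432, l1254, l1138, l1242, l5113, l7226, o3906, l3272, l6293, l7502, l3045, l4026, l4008, l5840, l4694, l417] l7540 := rupP (by decide +kernel)
theorem r7541 : PImp [l7495, l5848, l4230, l7384, l7540, l7536, l7539] l7541 := rupP (by decide +kernel)
theorem r7542 : PImp [l6200, l4655, l432, l1254, l7530, l430, l7486, o4573, l7495, l1138, l1242, l4598, l5848, o6342, o6436, o2924, l3219, l6248, l3115, l3119, o4479, l6818, l7489, l2660, l2544, o3838, l5467, l2675, l4129, l7531, l390, l7250, l6184, l3501, l3509, l3497, l5730, l2545, l2711, l5277, l5275, l3028, o6628, l4611, l5035, l5719, l4773, l4769, l7538, l6682, l7541, l7498, l7135, l7237, l3303, l3304, l7453, o3906, l7199, l4533, l5266, l4547] l7542 := rupP (by decide +kernel)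
theorem r7543 : PImp [l6200, l6248, l6818, l3843, l3933, o853, l4525, l4655, l433, o4487, o4498, l430, o4463, l3223, l432, l1254, l5113, o3964, o4012, o3991, o4004, o4036, l7344, l3048, o6106, l3977, o1736, l3286, l3292, l5808, o6310, o1528, o2665, o6177] l7543 := rupP (by decide +kernel)
theorem r7544 : PImp [l4138, l6200, l390, l6184, l4304, l4305, l4655, l432, l1254, l1138, l1242, l5102, l3236, l6427, l2357, o3809, o3771, l4525, l5034, l3501, l3509, l3219, l6248, o4479, l6818, l6886, l2512, l2511, l3933, l5113, o8579, o9009, l6403, l7543, l7226, l4056, l3308, l3272, l3043, l3056, o2640, l3974, o4109, o4125, l4994, o6176, o859] l7544 := rupP (by decide +kernel)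
theorem r7545 : PImp [l5035, l7486, l7495, l7530, l4655, l432, l1254, l1138, l1242, l4598, l4611, o3838, l430, o4573, l5848, o6342, o2924, l5277, l7384, l4525, l5034, l6200, o6436, l3219, l6248, l3115, l3119, o4479, l6818, l7489, l2660, l2544, l7531, l390, l5467, l6184, l3501, l3509, l3497, l6886, l4130, l4132, l6948, o5339, l2308, l5102, l3236, l6427, o5727, l3106, l3105, l3104, l2515, l2514, l2513, l2711, l3337, l3336, l3345, l2661, l3927, l428, o4458, o4787, l3118, l3116, l3028, o6628, l5276, l5112, l1316, o5193, o5483, o5471, l3378, o8658, o8801, o8609, o8774, l6369, o3809, o3075, o8799, l6428, o3765, o3853, o3212, o6644, l7544, l7379, l7226, l4059, o3969, o3964, o4036, l3043, l3977, l3971, l3282, l6187] l7545 := rupP (by decide +kernel)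
theorem r7546 : PImp [l4655, l430, o4573, o4036, l6248, o4463, o3991, l427, o3938, l432, o3946, o3952, l6200, l6818, l3933, o853, l4228, l5034, l7495, l5848, l5276, l1316, l7100, l7426, l3282, l3993, l7314, l2786, l6293, o3907, o3888, l5854, o6297, l3984, l5266, l6187] l7546 := rupP (by decide +kernel)
theorem r7547 : PImp [l4655, l430, o4573, o4036, l432, o3964, o3969, l4525, l7495, l5848, l5276, l1316, l4059, l3043, l3977, l3971, l3282, l6187] l7547 := rupP (by decide +kernel)
theorem r7548 : PImp [l6200, l6248, l6818, l3933, o853, l4230, l4228, l4525, l5034, l5467, l3223, l4655, l432, l1254, l7546, l7547, l3268, l7379, l4058, l7286, o2525] l7548 := rupP (by decide +kernel)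
theorem r7549 : PImp [l7489, l4655, l432, l6248, o4479, l6948, o4816, l7542, l3763, l3122, l3216, l6200, l1254, l7530, l430, l7486, o4573, l7495, l1138, l1242, l4598, l5848, o6342, o6436, o2924, l3219, l3115, l3119, l6818, l2660, l2544, o3838, l5467, l2675, l4129, l7531, l390, l7250, l6184, l3501, l3509, l3497, l3481, o5727, l5730, l3028, l6425, l5102, l6442, l4128, l4082, l3933, l3223, l5277, l4611, l5276, l1316, l5035, l5034, l4525, l4228, l4230, l4231, l4233, l7384, o853, l7545, l4769, l7548, l7226, l3308, l3268, l3261, l7379, l7286, o2525, o2521, o5925, o5915, o4190, l2788, l6187, l2782, l7328] l7549 := rupP (by decide +kernel)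
theorem r7550 : PImp [l7486, l7495, o3838, l2545, l2544, l7530, l4655, l430, o4573, l432, l1254, l1138, l1242, l4598, l5848, o6342, o2924, l5277, l5275, l3028, o6628, l4611, l427, l5112, l1316, l7498, l4763, l7237, l5978, l3308, l5817, l7199, o3935, o3944, l1074, l5823, l4547, l3084, l5025, l4543] l7550 := rupP (by decide +kernel)
theorem r7551 : PImp [l4525, l4655, l432, l1254, l5113, o3969, o3964, l5859, o4036, l4059, l3043, l3977, l3971, l3282, l3320, l5808] l7551 := rupP (by decide +kernel)
theorem r7552 : PImp [l5112, l2794, l7495, l4655, l432, l1254, l1138, l1242, l4598, l4611, l430, o4573, l5848, o6342, o2924, l5277, l7384, l5034, l6200, l6248, l6818, l2711, o6628, o6436, l7541, l7551, l7226, o3895, l4056, l5050, o2449] l7552 := rupP (by decide +kernel)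
theorem r7553 : PImp [l4525, l4655, l432, l1254, o3964, o4029, l5853, o3890, l3243, l4059, o6111, l3043, o2677, l3977, o6297] l7553 := rupP (by decide +kernel)
theorem r7554 : PImp [l7486, l7495, o3838, l2545, l2544, l6200, l6248, l6818, l3336, l7489, l2660, l476, l6948, o5354, l4655, l432, o4479, o4816, l433, o4487, o4825, l7530, l430, o4573, l1254, l1138, l1242, l4598, l5848, o6342, o6436, l5467, l3119, l3115, l3219, l5035, o2924, l5277, l4834, l4611, l5112, l2675, l4129, l7531, l390, l5730, l7250, l6184, l4130, l3501, l3497, l3509, l7550, l5034, l4118, l7384, l7549, l3772, l5725, l4848, l6701, l6736, l3760, l4838, o2790, l4902, l4788, o2798, l1140, l4187, l2794, l7552, l7553, l7226, o3895, l7227, l5050, o2449] l7554 := rupP (by decide +kernel)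
theorem r7555 : PImp [o2984, l7531, l3836, l4133] l7555 := rupP (by decide +kernel)
theorem r7556 : PImp [l7537, l7541, l6682] l7556 := rupP (by decide +kernel)
theorem r7557 : PImp [l4655, l432, l1254, l7530, l430, l7486, o4573, l7495, l1138, l1242, l4598, l5848, o6342, o6436, o2924, l3219, l6248, l3115, l3119, o4479, l6200, l6818, l7489, l2660, l2544, o3838, l7555, l7250, l390, l5467, l6184, l3501, l3497, l3509, l7550, l6886, l482, l3476, l5035, l5112, l3336, l433, o4487, l6948, o4825, l7554, l4903, l4130, l6701, l2711, l5277, o6628, l4611, l4773, l4769, l7556] l7557 := rupP (by decide +kernel)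
theorem r7558 : PImp [l6200, l6248, l6818, l3336, l7489, l2660, l4655, l432, o4479, l6948, o4816, l433, o4487, o4825, l430, o4463, l7530, l7486, o4573, l7495, l1254, l1138, l1242, l4598, l5848, o6342, o6436, l5467, l3119, l3115, l3223, l3219, o2924, l5277, l3028, l4611, l5112, l5035, l2544, o3838, l7554, l4909, l4903, l7555, l390, l7250, l6184, l5039, l4130, l6886, l3501, l6425, l6701, l482, l3497, l3509, l3216, l3476, l7550, l5034, l4525, l4228, l4230, l7384, l7557, l3763, l7513, l4769, l7548, l7379, l7226] l7558 := rupP (by decide +kernel)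
theorem r7559 : PImp [l6200, l6248, l6818, l3842, l3933, o853, l4525, l4655, o4498, l430, o4463, l3223, l432, l1254, l5113, o3964, o3997, o3991, o3993, o4036, l7344, l3048, l3977, l3290, l3291, l3282, o6308, l5808, o2662, o1530, o6176] l7559 := rupP (by decide +kernel)
theorem r7560 : PImp [l6200, l6248, l6818, l3933, l4655, l432, l1254, l1138, l1242, l5113, l5034, l4525, l4228, l4229, l4230, l7384, l7559, l7226, l3308, l3272, l7379, l4056, l3043, l3056, o2640, l3974, o4109, o4125, l4994, o6176, o859] l7560 := rupP (by decide +kernel)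
theorem r7561 : PImp [l6200, l6248, l6818, l2711, l3337, l3336, l7489, l2604, l2662, l2661, l2660, l3927, l476, l6948, o5354, l4655, l428, o4458, o4787, l433, o4487, o4825, o4812, l432, o4479, l7530, l430, l7486, o4573, l7495, l1254, l1138, l1242, l4598, l5848, o6342, o6436, l5467, l3119, l3118, l3117, l3116, l3115, l3219, o2924, l5277, l5275, l3028, o6628, l2713, l4611, l4084, l5112, l1360, l5035, l7558, o3241, o3237, o3239, o8892, l4848, l4869, o5825, o5824, o5823, l5866, l5770, o6644, l4771, l4774, l4773, l3378, l3351, l2820, l6861, l390, l7250, l6184, l5039, l4132, l4131, l4133, l4130, l6886, l6425, o8774, o5460, o5471, o5472, l2511, l2512, l5102, l2513, l2514, o8609, o8658, o8801, l3236, l3105, l3106, o3772, o3080, o8799, l6427, l2609, l6428, l4079, l6420, l6422, l6283, o5520, o5425, l2435, o7554, o3642, o7420, l7333, l7560, l7403, l7404] l7561 := rupP (by decide +kernel)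
theorem r7562 : PImp [l7530, l4655, l430, l7486, o4573, l7495, l432, l1254, l1138, l1242, l4598, l5848, o6342, o6436, l2713, l4084, l433, l5112, l1360, l5035, l3219, l6200, l6248, l3115, l3117, l3118, l6948, l7489, l476, o4487, o4479, l6818, o4825, o5354, o5350, l2661, l2662, l2604, l3336, l7561, l5038, l4135, l4428, l4100, l4429, l6886, l6701, l483, o5460, o5458, l6889, l3509, l6170, l7167, o3749, o8799, o3854, o3564, o8892, l4771, o5825] l7562 := rupP (by decide +kernel)
theorem r7563 : PImp [l3850, l2947, o2982, l5581, l4223] l7563 := rupP (by decide +kernel)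
theorem r7564 : PImp [l7486, l7495, l4655, l430, o4573, l432, l1254, l1138, l1242, l5113, l7530, l4598, l5848, o6342, o6628, l3028, l7562, l5587, l6243, l2548, l476, l473, o4463, o4479, l3934, l3935, l6325, l2712, l6668, l2641, l4591, l4802, l7563, l5038, l5623, l6886, o3749, l5636, o5729, o8356, l4796, o8838] l7564 := rupP (by decide +kernel)
theorem r7565 : PImp [l5519, o6650, o6333] l7565 := rupP (by decide +kernel)
theorem r7566 : PImp [l5732, l3484, o3749, o5727, o8422, o8821] l7566 := rupP (by decide +kernel)
theorem r7567 : PImp [l5859, o4036, l3100, o5913, o6113] l7567 := rupP (by decide +kernel)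
theorem r7568 : PImp [l3308, l5034, l5113, l4655, o3957, o3895, l4994, l2789, l3055, o6034] l7568 := rupP (by decide +kernel)
theorem r7569 : PImp [l4525, l5034, l6200, l6248, l6818, l3933, l4655, o4498, l432, l1254, l1138, l1242, l5113, l7567, l7226, l3308, l3272, l7502, l7568, l5070, l3044, l3058, l3974, l4994, o4109] l7569 := rupP (by decide +kernel)
theorem r7570 : PImp [l6200, l6248, l6818, l3933, o853, l4228, l4655, l430, o4463, o3991, o4036, l7426, o3746, l7314, o6113, o3907, l3100, l5854] l7570 := rupP (by decide +kernel)
theorem r7571 : PImp [o6374, o6584, l6200, l6248, l6818, l3933, l3223, l4655, l432, l1254, l1138, l1242, l5034, l4525, l4228, l4230, l4086, l7384, o876, o853, l7569, l7570, l7226, l3308, l3268, l7379, l7286, o2521, o2532, o5925, o3746, o5915, o4190, o6113, l2788, l3099, o3863, l4026] l7571 := rupP (by decide +kernel)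
theorem r7572 : PImp [l6200, l7489, l2662, l2660, l6248, l476, l6948, o5350, l4655, l432, o4479, o4816, l6818, l7564, l2614, l3119, l3117, l3219, l2615, l7486, l7495, l430, o4573, l1254, l5112, l1360, l1357, l1316, l5035, l7565, l2555, l2597, l2576, o6374, l3028, o2924, o6498, o6584, l6736, l2557, l7566, l390, l2845, l7250, l6184, l5039, l5275, l5277, l4133, l6886, l2569, l2674, l2673, l7174, l483, o5729, o5458, o8422, o5475, o5838, l7167, o801, o8921, l2544, l2545, o3838, l4769, l7571, l7498, l7237, l5978, l4547, l3308, l7199, o2443, l5266, l7201, l5048] l7572 := rupP (by decide +kernel)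
theorem r7573 : PImp [l7564, l7486, l7495, l4655, l432, l1254, l1138, l1242, l7572, l2619, l5663, l6222, l6224] l7573 := rupP (by decide +kernel)
theorem r7574 : PImp [l7565, l2597] l7574 := rupP (by decide +kernel)
theorem r7575 : PImp [l7564, l2615, l7486, l7495, l4655, l430, o4573, l432, l1254, l1138, l1242, l433, l5112, l1360, l5035, l3219, l3223, l6200, l6248, l3115, l3117, l3118, l3119, l6948, l7489, l476, o4463, o4487, o4479, l6818, o4825, o5354, o5350, l2660, l2661, l2662, l3336, l7573, l5037, l5038, l6220, l4135, l4136, l4428, l4100, l7472, l6886, l4442, o3044, l483, o5729, o5460, o5458, l5909, l6701, l6889, l3509, l6170, l7167, o8655, o3749, o8799, l1669, o3854, o3564, o8658, o5838, l7574, l4084, l2619, l6175, l2557, o8907] l7575 := rupP (by decide +kernel)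
theorem r7576 : PImp [l4655, l428, l432, l1254, l430, l5113, l5587, o4463, l6243, l6895, l3222, l6263, l1218, l3850, o2982, o4498, l3813, o2889, l5277, l5275, l5112, l2946, l2794, o2748, l3814, l6325, l6668, l2640, l2641, l433, o4487, l3827, l2935, l5581, l4218, l7563, l3830, l7520, l7519, l6611, l4763, l7434, l3303, l7435, l4547, o3895, o3909, l7453, o2450, l4543, l5012, l3074] l7576 := rupP (by decide +kernel)
theorem r7577 : PImp [l4655, l428, l432, l1254, l430, l5113, l5587, o4463, l6243, l6895, l3222, l6263, l1218, l3850, o2982, o4498, l3813, o2889, l5277, l5275, l5112, l2946, l2794, o2748, l3814, l6325, l6668, l2640, l2641, l433, o4487, l3827, l2935, l5581, l4218, l7563, l3830, l7576, l6687, l4763, l6689, l7434, l3303, l7435, l4547, o3895, o2450, l5070, l4543] l7577 := rupP (by decide +kernel)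
theorem r7578 : PImp [l5112, l2794, l4655, l428, l1218, l432, l1254, l427, l5837, l5853, l6623, l4062] l7578 := rupP (by decide +kernel)
theorem r7579 : PImp [l5112, l2794, l4655, l433, o4487, l432, l1254, l3827, l3830, l430, o4463, l3222, l6263, l1138, l1242, l4525, l4228, l4230, l4086, l7450, o876, l3817, l3819, l7578, l6649, l2779, l3308, l3270, l3268, l6293, l7286, l3045, o2661, l3974, o6176, o4125] l7579 := rupP (by decide +kernel)
theorem r7580 : PImp [l4655, l428, l432, l1254, l430, o4463, l3222, l6263, l1218, l433, o4487, l3827, l3830, l7579, l7433, l7434, l3303, l3304, l7435, l7199, l4547, o2443] l7580 := rupP (by decide +kernel)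
theorem r7581 : PImp [l4655, l432, l1254, l5853, l6623, l4062] l7581 := rupP (by decide +kernel)
theorem r7582 : PImp [l6682, l5112, l2794, l4655, l432, l1254, l1138, l1242, l5113, l5034, l4525, l4086, l7450, o876, l7581, l7226, o3895, l3308, l7328, l5070, l3044, l3058, l3974, l4994, o4109] l7582 := rupP (by decide +kernel)
theorem r7583 : PImp [l4655, l428, l432, l1254, l430, l5113, l7575, l5587, o4463, l6243, l6895, l3222, l6263, l1218, l3850, o2982, o4498, l7486, l7495, l7564, l433, o4487, l3827, l3830, l5519, l2576, l3813, o2889, l5277, l5275, l2937, o3041, l2946, o2748, l3814, l3810, l2597, l476, l1316, l3113, l3338, l2935, o4479, l3935, l6325, l7563, l5952, l6886, l6464, o5354, o4816, o4807, o4836, o4825, o4812, l6668, l2640, l2641, l4128, l5581, l4218, l3114, l3339, o4458, o4573, l5112, l5035, l2544, l2545, o3838, l6456, l6448, l3797, l6736, o3059, o8609, o5471, l4777, l4769, l7577, l7580, l7582, l7215, l7434, l3303, l3304, l7435, l7199, l4547, o2443] l7583 := rupP (by decide +kernel)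
theorem r7584 : PImp [l4655, l433, l5113, l7575, l5587, o4487, l1316, l6895, l3113, l6243, l432, l1254, l3827, l3830, l3338, l2935, o4479, l3935, l6325, l430, o4463, l3222, l428, l6263, l1218, l7563, l5952, l6886, l6464, o4825, l7486, l3850, o2982, l5581, o5727, l6668, l2641, l4128, l7495, l7564, l5519, l3114, l3339, l2615, o4573, l5112, l5035, l2576, o6374, o3112, l7583, o3241, o3828, l4848, o8609, l2557, o5837, o8907, o8921] l7584 := rupP (by decide +kernel)
theorem r7585 : PImp [l5275, l6243, l6325, l5113, l5587, l4655, l428, l432, l1254, l430, o4463, l6895, l3222, l6263, l1218, l6668, l2640, l2641, l433, o4487, l3827, l2935, l3850, o2982, l5581, l4218, l7563, l3830, o4498, l5112, l7519, l7433, l7434, l3303, l7435, l7454, l3813, l7577, l5061, l2946, l7453, l2794, l4540, l2779] l7585 := rupP (by decide +kernel)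
theorem r7586 : PImp [o3991, o4036, l7426, o3746, o2525, l4058, l3100, o6129, o6113] l7586 := rupP (by decide +kernel)
theorem r7587 : PImp [l4655, l432, l1254, l1138, l1242, l7586, l6649, l3308, l3268, l5941, l7286, l6293, l4026, o5925, o3746, l3099, o4190, o6129, o6113] l7587 := rupP (by decide +kernel)
theorem r7588 : PImp [o4036, o3888, l5852, l3100, l4059, l5869, o2691, o6113] l7588 := rupP (by decide +kernel)
theorem r7589 : PImp [l4655, l432, l1254, l433, l5113, l5587, o4487, l6243, l6895, l3827, o3112, l6325, l428, l430, o4463, l3222, l6263, l1218, l6668, l2640, l2641, l2935, l3850, o2982, l5581, l4218, l7563, l3830, o4498, l1138, l1242, l5112, l4525, l4228, l4230, l7450, o876, l3817, l3819, l7587, l3811, l2937, l2946, l2794, l7588, l6649, l2779, l3308, l3270, l3268, l6293, l7286, l3045, o2661, l3974, o6176, o4125] l7589 := rupP (by decide +kernel)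
theorem r7590 : PImp [l7486, l7495, l4655, l432, l1254, l1138, l1242, l433, l5113, l7575, l5587, o4487, l6895, l6243, l3827, l3830, l7584, l5787, o2924, l5277, l5275, l7564, l5519, l6222, l2935, l6325, l428, l430, o4463, l3222, l6263, l1218, l3850, o2982, l5581, o5339, l1316, l3113, l3338, o4479, l3935, l7563, l5952, l6886, l6464, l2308, l476, o5354, o4807, o4825, o4812, l6668, l2641, l4798, l4132, o5727, l2640, l4129, l4218, l2627, l3342, l3341, o4498, o4458, o4573, l5112, l5035, l2544, l2545, o3838, l6456, l6448, l3797, o3061, o3063, o8606, l3129, o2357, o8704, o5475, l4777, l4769, l7436, l7585, l7589, l7433, l7434, l3303, l3304, l7435, l7454, l3813, l5061, l4547, o2748, l7199, o2443] l7590 := rupP (by decide +kernel)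
theorem r7591 : PImp [l7575, l6243, l6325, l3339, l3338, l3935, l4655, l432, l5113, l5587, o4479, l433, o4487, l430, o4463, l7564, l2615, l7486, l7495, l1254, l1138, l1242, l428, l5112, l1316, l5035, l6895, l3222, l3113, l3114, l3827, l6263, l3850, l2935, l3830, l1218, o2982, l5519, l6668, l7563, l5581, l4128, l2641, l5952, o5727, l6886, l6464, o4825, l7584, l4084, l5787, o3112, l7590, o3241, o3828, l4848, o8609, l2557, o5837, o8907] l7591 := rupP (by decide +kernel)
theorem r7592 : PImp [l2619, l7565] l7592 := rupP (by decide +kernel)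
theorem r7593 : PImp [l4655, l432, l1254, l433, l430, l5113, l5112, l5035, l7486, o4573, l7495, l7564, l2615, l7575, l5587, l6243, l476, o4487, l3935, l3338, l3341, l6325, l7591, l5037, l5038, l4135, l4100, l5623, l6167, l6455, l4798, o3749, l5636, l4802, l2731, l4796, l3113, l4970, o2989, l4644, l6253, o4825, l2308, l6701, l6323, l2631, o8834, o3564, l3374, o5824, l7592, l2557, o8907, l4083, o8921, l2576] l7593 := rupP (by decide +kernel)
theorem r7594 : PImp [l4837, l4845] l7594 := rupP (by decide +kernel)
theorem r7595 : PImp [l3217, l3213, l5035, l6257, l4885, l3410, l4851, l3405, o4329, l4835] l7595 := rupP (by decide +kernel)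
theorem r7596 : PImp [o3143, l5277, o2910, l5112, l1789, l3213, l5113, l4835, l5773, o4329, l4851] l7596 := rupP (by decide +kernel)
theorem r7597 : PImp [o3143, l2895, l2896, l7593, l3217, l3213, l4655, l427, l5112, l5035, l5277, l1789, o2899, o2910, l7595, l7596, l3372, l501, o4510, l4773, l3797] l7597 := rupP (by decide +kernel)
theorem r7598 : PImp [o3143, l2895, l2896, l7593, l5112, o2705, o2899, o2910, l2794, l7595] l7598 := rupP (by decide +kernel)
theorem r7599 : PImp [l6200, l6248, l6818, l3933, l4655, l427, o4452, l3223, l7597, l2895, l2896, l7593, l3213, l432, l1254, l5035, l3394, l7598, l6204, l7250, o3563, o2977, o6639, l4129, l6256, l5987, l495, o5359, l3405, l6258] l7599 := rupP (by decide +kernel)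
theorem r7600 : PImp [l4773, o4533, l3763] l7600 := rupP (by decide +kernel)
theorem r7601 : PImp [o3143, l2895, l7593, l3213, l4655, l430, l5113, l5112, l5035, o2705, o2909, o2910, l2794, l7600, l501, l3372, l4835, l5773, o4329, l4851] l7601 := rupP (by decide +kernel)
theorem r7602 : PImp [l2895, l7593, l4655, l432, l1254, l1138, l5035, o4568, o5193, l4839, l3379] l7602 := rupP (by decide +kernel)
theorem r7603 : PImp [l4655, o2803, l2877, l7093, l3204, l7063, o5060, o6999, o7024] l7603 := rupP (by decide +kernel)
theorem r7604 : PImp [l6248, l6200, l4655, l430, l4970, l7593, l432, l1254, l1138, l1242, l5113, l5112, l4151, l7603, l2867, l7109, l3202, l3204, l3198, l7065, o5035, o5046, o5056, o5060, l7077, l3657, l3363, l3364, l3638, o6999, o8490, l2864, o383, o6934] l7604 := rupP (by decide +kernel)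
theorem r7605 : PImp [l7070, l4333, l3692] l7605 := rupP (by decide +kernel)
theorem r7606 : PImp [l4655, l432, l1254, l1138, l5112, l5035, l5113, l7593, l7594, l2896, l3213, l7599, l2895, l7602, l501, l3372, l4835, l6200, l6248, l6818, l3219, o4479, l7601, l3385, l7250, o2984, l3836, l6886, l483, l2846, l3512, l5245, o4312, l3217, l3927, l4839, o4317, l4872, o4329, l4851, o2776, o2785, o6644, l4593, o5187, o2780, l1244, o3232, l3494, l4662, l6249, l2660, o5376, l4769, o3563, l3223, l427, o4452, l3933, o2977, o6639, l4129, l641, o8576, o9086, l4130, l5275, o2980, l4777, l7597, l7604, l7087, l7605, l7132, l7089] l7606 := rupP (by decide +kernel)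
theorem r7607 : PImp [l7102, l7603, l4151] l7607 := rupP (by decide +kernel)
theorem r7608 : PImp [l3242, l7097, l6093, l441] l7608 := rupP (by decide +kernel)
theorem r7609 : PImp [l6200, l6248, l6818, l3933, l3223, l4655, l432, l1254, l1138, l1242, l5113, l5112, l7608, l3196, l7065, o5042, l3208, l3666, l3698, o6948, l4227, o52, o53, l1106, o3884, o4046, l6092, l3279, l4977, l4978] l7609 := rupP (by decide +kernel)
theorem r7610 : PImp [l4230, l4228, l4525, l6200, l6248, l6818, l4655, o4498, l432, l1254, l427, l5113, o3964, o3938, o3997, l5859, o4036, l3303, l7100, l6709, l3291, l3282, l7127, l2784, l7059, l3844, o1530, l7171, l2792, l7607, l2870, l3046, l3047, l7609, l7089, l7605] l7610 := rupP (by decide +kernel)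
theorem r7611 : PImp [l1244, l5034, l4655, l432, l1254, l1138, l1242, l1316, l7610, o3895, l7120, l5844, l5065, o2451] l7611 := rupP (by decide +kernel)
theorem r7612 : PImp [l4086, l5034, l3219, l4655, l432, l6248, o4479, l6200, l6818, l1254, l5035, l5113, l7593, l7594, l7599, l7601, l2895, l7602, l501, l3385, l7250, o2984, l3836, l6886, l483, l2660, o5376, l3213, l4769, o3563, l3223, l427, o4452, l3933, o2977, o6639, l4129, l641, o8576, o9086, l5275, l4777, l3927, l3372, l4835, l4839, l7597, l2896, l3217, l1138, l5112, l2674, l2846, l4662, l3512, l5245, l3494, o4312, o4329, o4317, l4851, l4872, o2776, o2780, o2785, l1244, o6644, l4593, o5187, l7606, l7611, l6636, l7154] l7612 := rupP (by decide +kernel)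
theorem r7613 : PImp [l4763, l5034, l4655, l432, l5113, l5112, l1357, l1316, o3952, o3946, l5968, l5964, l5046, l4745] l7613 := rupP (by decide +kernel)
theorem r7614 : PImp [l3213, l4655, l432, l1254, l1138, l5112, l4593, l3434, o5187] l7614 := rupP (by decide +kernel)
theorem r7615 : PImp [l3836, l4130, l6947, o8545] l7615 := rupP (by decide +kernel)
theorem r7616 : PImp [l6200, l6248, l6818, l3219, l4655, l432, o4479, l1254, l5035, l5113, l7593, l7594, l7599, l7601, l2895, l7602, l501, l3385, l7250, o2984, l3836, l6886, l3223, l427, o4452, l3933, o2977, o6639, l2896, l3372, o3143, o3572, l3336, l7615, o5364, l4835, l4839, l3432, l3434, l2674, l2846, l4662, l3217, l433, o4487, o4812, l4872, o2771, l3433, l1360, l3484, o5339, l2308, l483, l2660, o5376, l3213, l4769, o3563, l4129, l641, o8576, o9086, l4132, l5275, o2980, o3564, l4777, l2661, l7597, l2791, l5112, o8863, o8799, o8917, l7612, l4433, l5245, l7134, l3958, l7135, l7156, l7216, l3304, l7154, l7201, o3895, l1074, l6130, l5043] l7616 := rupP (by decide +kernel)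
theorem r7617 : PImp [l4655, l432, l1254, l1138, l1357, l2882, o2803, l7093, l7063, l436, o5029, o5035, l3685, l6069] l7617 := rupP (by decide +kernel)
theorem r7618 : PImp [l4655, l430, l4970, l432, l1254, l1138, l1242, l5113, l5112, l4150, l7617, l7109, l3203, l7065, l436, o5029, o5035, o5058, l3208, l7077, l3670, l3657, o7023, l2894, l3712, l4350] l7618 := rupP (by decide +kernel)
theorem r7619 : PImp [l7089, l7150] l7619 := rupP (by decide +kernel)
theorem r7620 : PImp [l5275, l5113, l7618, l7087, l7605, l7619] l7620 := rupP (by decide +kernel)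
theorem r7621 : PImp [l4655, l6248, o4498, l427, o3938, o4012, o4036, l6625, l7100, o2659, o3289, l7144] l7621 := rupP (by decide +kernel)
theorem r7622 : PImp [l5034, l4655, l432, l1254, l1138, l1242, l1316, l7621, o3895, l7120, l5844, l5065, o2451] l7622 := rupP (by decide +kernel)
theorem r7623 : PImp [l5034, l4233, l4086, l7622, l6632, l7154] l7623 := rupP (by decide +kernel)
theorem r7624 : PImp [l5035, l5113, l7593, l7495, l5653, l7594, l2895, l7602, l501, l3372, l4835, l4839, l3385, l2575, l7597, o3143, l2896, l2791, o6732, l3217, l3213, l4655, l432, l1254, l433, l427, l5112, l3219, l3223, l6200, l6248, l7599, l7250, l476, o4452, o4487, o4479, l6818, o5376, l2660, l7601, l4777, l4769, o3563, o3572, o2977, o2984, o2980, l3933, l3336, l2711, l5275, o6639, l3836, l4129, l6886, o8576, o9086, l641, l483, l7615, o5364, o4812, o5354, l3432, l3433, l4872, l3434, o2764, o2771, l2674, l1244, l2846, l4662, l7616, l3512, l5245, l3494, l7620, l7623, l4433, l7134, l4763, l3958, l7156, l7216, l3308, l7154, o3895, l1074, l6130, l5043, l4543] l7624 := rupP (by decide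 +kernel)
theorem r7625 : PImp [l5113, l5587, l6243, l6325, l2640, l6668] l7625 := rupP (by decide +kernel)
theorem r7626 : PImp [l7495, l7593, l3213, l4655, l430, l5113, l5035, l5653, l2575, l7594, l2895, l7597, l7602, l501, l3372, l4835, l4839, l4970, l7625, l3223, l6200, l6248, l7624, o4463, l6818, o5376, l6220, l4136, l7472, l4442, o3046, o3202, l6258, l3394, l641, l4769] l7626 := rupP (by decide +kernel)
theorem r7627 : PImp [l6200, l6248, l6818, l4655, l432, o4479, l3219, l7593, l3213, l1254, l2895, l7602, l7599, l501, o5376, l2660, l7601, l4769, l3385, l7250, o3563, o2984, l641, l3836, l4133] l7627 := rupP (by decide +kernel)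
theorem r7628 : PImp [l7593, l5113, l5035, l7627, l4837, l4833] l7628 := rupP (by decide +kernel)
theorem r7629 : PImp [l3385, l3379] l7629 := rupP (by decide +kernel)
theorem r7630 : PImp [l7593, l5113, l4655, l5035, l7628, l6224, l5742, l7629, l2895, l3368, l4837, o4569] l7630 := rupP (by decide +kernel)
theorem r7631 : PImp [l7630, l6220, l7472, o3046, l4136, l6200, l6248, l6818, l7593, l3213, l2895, l7597, l7602, o3202, l501, o5376, l3372, l6258, l3394, l641, l4769] l7631 := rupP (by decide +kernel)
theorem r7632 : PImp [l7593, l5113, l5035, l7631, l4837, l4833] l7632 := rupP (by decide +kernel)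
theorem r7633 : PImp [l7593, l2895, l7602, l501, l3372, l3394, l7598, l6258, l5277] l7633 := rupP (by decide +kernel)
theorem r7634 : PImp [l7630, l6220, l7472, o3046, l4136, l6200, l6248, l6818, l7593, l3213, l2895, l7602, o3202, o5376, l7633, l2660, l4769, l641] l7634 := rupP (by decide +kernel)
theorem r7635 : PImp [l7593, l4655, l432, l1254, l5113, l1360, l5035, l3219, l6200, l6248, o4498, o4479, l6818, l3336, l7630, l5038, l6886, l483, l6889, l3509, l6170, l7632, l7634, l4837, o4569, o4570, o4842, l3368, l3372, l3347, o2912, o3572, o2984, l7615] l7635 := rupP (by decide +kernel)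
theorem r7636 : PImp [l5113, l2791, l7495, l7626, l4610, l4605, o6714, o6436, l7635, l5587, l6243, l2548, o5407, l6325, l2712, l6185, l2708, o8805, o8402] l7636 := rupP (by decide +kernel)
theorem r7637 : PImp [l7636, l7593, l5035, l2895, l7602, l501, l3385, l3372, l2590, l4835, l2574, l4840] l7637 := rupP (by decide +kernel)
theorem r7638 : PImp [l4655, l430, l6248, o4463, l6200, l3223, l7472, l4442] l7638 := rupP (by decide +kernel)
theorem r7639 : PImp [l7635, l7638, l6200, l6248, l6818, l2711, l3336, l4655, l432, o4479, l3219, l7636, l7593, l1254, l5035, l2896, l2895, o3143, l7602, l7637, l501, l4082, l3385, l3372, l6224, l7250, l4835, l7599, o3749, o3572, l4839, l7601, o2984, l7615, o5364, l3432, l3434, l5848, l4608, o5407, l6209] l7639 := rupP (by decide +kernel)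
theorem r7640 : PImp [l7593, l5113, l4655, l5035, l7635, l7638, l7639, l4837, l7594, o4569, l4833, l6217, l3368, l3385] l7640 := rupP (by decide +kernel)
theorem r7641 : PImp [l6243, l6325, l3342, l3341, l3339, l3335, l4655, l433, l5113, l5587, o4487, o4498, l473, l476, l7593, l2637, l2635, l2634, l2633, l3213, l432, l1254, l430, l5035, l2895, l7602, l501, o5376, o5373, o5370, l3372, l4835, l4839, l4970, l6668, l4129, l4127, l4128, l2641, l5188, o8546, o8401, o8400, l2838, o3563, o3776, l5623, l5581, o3787, l4223, l3827, l3830, o3092, l5952, l4851, l4132, o4835, o8397] l7641 := rupP (by decide +kernel)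
theorem r7642 : PImp [l7593, l4655, l432, l1254, l430, l5113, l5035, l5587, l6243, l2633, l2635, l473, o4463, o4498, l3934, l3335, l3342, l6325, l7641, l4837, o4569, o4570, o4843, o4845, l4833, l3368, l3372, l3347, l3027, l6668, l4129, l4127, l4591, o8546, o8401, o3563, o3093, l5623, l3850] l7642 := rupP (by decide +kernel)
theorem r7643 : PImp [l7190, l7495, l2595] l7643 := rupP (by decide +kernel)
theorem r7644 : PImp [l7642, l7640, l6200, l6248, l6818, l3336, l3933, l7635, l7638, l4655, l432, o4479, l427, o4452, l3223, l3219, l7593, l1254, l1138, l1242, l5035, l2896, l2895, o3143, l7602, l501, l500, l3385, l3372, l6224, l7250, l4835, l7599, o3572, l4839, l7601, l5275, o2977, o2984, o6639, l3836, l7615, l6886, o5364, o5400, l3432, l3434, l2674, l2846, l4662, l3512, l7643, l7248, l7495, l4598] l7644 := rupP (by decide +kernel)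
theorem r7645 : PImp [l7642, l7635, l7638, l7593, l5113, l4655, l5035, l4837, l7594, o4569, l4833, l6217, l3368, l3385] l7645 := rupP (by decide +kernel)
theorem r7646 : PImp [l7495, l6210] l7646 := rupP (by decide +kernel)
theorem r7647 : PImp [l5112, l6200, l6248, l6818, l2657, l7638, l4209, l3219, l4655, l432, o4479, l6886, l2846, l4662, l7060, o8603, l6249, l4208, l433, o4487, l4902, l1360, l7250, l3484, l6224, l2658, l2477, l4280, l4260, o691, o699, o695, o690, l6835, o3664, l6548, l6846, l6838] l7647 := rupP (by decide +kernel)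
theorem r7648 : PImp [l7642, l7635, l7593, l7645, l2895, l7602, l501, l3385, l3372, l7638, l6224, l7597, l5035, l4835, l4839, l3213, l7599, l4769, l4655, l432, l1254, l3223, l427, l6248, o4452, l6200, l6818, l3933, l7250, l7601, o2977, o6639, l3219, o4479, o2984, l3836, o5376, o3143, o3572, l3336, l7615, o5762, l2896, o5364, l3432, l3434, l2674, l5112, l500, o5400, l2846, l3512, l5245, l7647, l6886, l4662, l2660, o3563, l4129, o8576, o9086, l3433, l5275, l433, o4487, l4902, l4777, o3564, l7644, l2614, l2615, l1357, o5407, o5513, l6259, l4084, l4082, l6825, o3825, o8612, l6844] l7648 := rupP (by decide +kernel)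
theorem r7649 : PImp [l4655, l432, l1254, l427, l5035, l7593, l7642, l3219, l3223, l6200, l6248, l7635, o4452, o4479, l6818, l7638, l3933, l3336, l7645, l2896, l2895, o3143, l7602, l7644, l501, l500, l3385, l3372, l6217, l6224, l7250, l4835, l7599, o3572, l4839, l7601, o2977, o2984, o6639, l3836, l7615, o5364, o5400, l3432, l3434, l2674, l2846, l3494, l7648, l7495, l7646, l2563, l2576] l7649 := rupP (by decide +kernel)
theorem r7650 : PImp [l2895, l7649, l4655, l5035, o4569, l3725, l4141] l7650 := rupP (by decide +kernel)
theorem r7651 : PImp [o8528, o8506] l7651 := rupP (by decide +kernel)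
theorem r7652 : PImp [l3929, o2899, o2903, l3784, l3785, l3797] l7652 := rupP (by decide +kernel)
theorem r7653 : PImp [l4086, l7221, l7226, l7229, l3261] l7653 := rupP (by decide +kernel)
theorem r7654 : PImp [l4655, l432, l1254, l5113, l5112, l1316, l4228, l4230, l4233, l4086, l7653, l3321, l7412, l7207, l5978, l3261] l7654 := rupP (by decide +kernel)
theorem r7655 : PImp [l7649, l3929, l4655, l432, l1254, l5035, l3216, l3747, l4769, l3783, l3749, l3750, l5776, o2775, l1140, l7654, l7402, l6595] l7655 := rupP (by decide +kernel)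
theorem r7656 : PImp [l3929, l5035, l3748, l3760, o2776, l2907] l7656 := rupP (by decide +kernel)
theorem r7657 : PImp [o3563, l7250, o3852, l7655] l7657 := rupP (by decide +kernel)
theorem r7658 : PImp [l6200, l2838, l3219, l4655, l432, l6248, o4479, l6818, l6886, l483, l3509, o3563, l5730, l7250, l7649, l2605, l2569, o801, l7657, o3584, o9066, l2574, o5511] l7658 := rupP (by decide +kernel)
theorem r7659 : PImp [o5513, l4608, o9136, o3582] l7659 := rupP (by decide +kernel)
theorem r7660 : PImp [l4230, l5034, l4655, l430, o4573, l1140, l6200, l6248, l6818, l3933, l432, l1254, l1138, l1242, l7548, l7226, o3906, l3272, l3265, l3261, l5699, l7120, l7228, o2690, o4037, o6190, o6164] l7660 := rupP (by decide +kernel)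
theorem r7661 : PImp [l4655, l432, l1254, l1138, l1242, l7495, l5787, l1140, l5112, l1316, l4117, l7660, l7412, l5978, o3906, l5032, l6303, o2460] l7661 := rupP (by decide +kernel)
theorem r7662 : PImp [l7649, l2605, o3143, l2895, l2896, l6200, l6248, l6818, l2658, l4655, l432, o4479, l433, o4487, o4498, l430, o4463, l476, l2667, l2666, l2664, l2663, l3219, l3929, l1254, l1138, l1360, l5035, l3116, l3118, l3119, l2713, l7650, l3729, l3731, l4145, o5193, o5380, o5381, l4141, l4147, l5467, l7651, l2838, o3563, o3202, l7250, l4892, l4891, l6184, l5730, l2675, o8377, l3481, l4132, l4131, l4210, l6886, l5909, l2673, o5339, o8353, l483, o3775, l3497, l3509, l4569, o3787, o3786, l4572, o8460, o8350, l6246, o5363, o4830, o4835, o4799, o4809, o5349, l7652, l325, l7656, l3216, l3747, l4769, l3783, l3749, l3750, l5776, o2762, o2775, l1140, l7658, l4084, l7659, o5825, o8892, l7661, l7402, l6595] l7662 := rupP (by decide +kernel)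
theorem r7663 : PImp [l3213, l3929, o4566, o4567, l3726, l4593, l4171] l7663 := rupP (by decide +kernel)
theorem r7664 : PImp [l3747, l3749] l7664 := rupP (by decide +kernel)
theorem r7665 : PImp [l2895, l2896, l7649, l3929, l4655, l432, l1254, l1138, l1242, l5112, l5035, l3213, l7663, l3730, l4773, l4769, l7664, o4329, l2743, l3757, l3759] l7665 := rupP (by decide +kernel)
theorem r7666 : PImp [l1360, l6220, l7472, l7638, o3046, o3202, l7651] l7666 := rupP (by decide +kernel)
theorem r7667 : PImp [l4655, l430, l5276, l5112, l5714, l7190, l7509, o4573] l7667 := rupP (by decide +kernel)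
theorem r7668 : PImp [l4082, l2555, l6200, l6248, l6818, l2711, l7250, l3223, l4655, l432, l1254, o5407, l7366, l7415] l7668 := rupP (by decide +kernel)
theorem r7669 : PImp [l6248, l6200, l2675, l2673, l4655, l432, l1254, l1138, l1242, l7667, l7668, l7495, l4598] l7669 := rupP (by decide +kernel)
theorem r7670 : PImp [l6248, l7649, l6200, l2666, l7665, l3118, l2895, l1360, l2664, l3119, l5035, l7650, l3729, l4145, o5380, l4141, l7651, l2838, l5467, l7666, o3563, l7250, l6184, l4132, l4655, o4498, o3202, l4892, l2675, l5909, o5381, l3116, l2663, l4131, o8353, o3775, o3787, o8350, o5363, l2896, l3219, l432, o4479, l6818, l6886, l483, l3509, l2667, o8377, o3786, l6246, l4167, l4782, l4210, l3481, o5339, l2658, l4569, l4572, o4835, o4830, l7656, l1254, l3747, l3750, l6202, o8460, l4209, l5730, l4891, l7664, l7372, l3929, l1138, o5193, l4777, l3497, l7669, l7662] l7670 := rupP (by decide +kernel)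
theorem r7671 : PImp [o3582, l4597, o9136, o9122] l7671 := rupP (by decide +kernel)
theorem r7672 : PImp [l6248, o5407, l6200, l6818, l4655, o4498, l476, l3223, o3849, o9136, l6794, o8935] l7672 := rupP (by decide +kernel)
theorem r7673 : PImp [l5034, l1140, l4655, l432, l1254, l1138, l1242, l7226, o3906, l3308, l5699, l7120, o3877, l3092, o3865, o5915] l7673 := rupP (by decide +kernel)
theorem r7674 : PImp [o6315, l519] l7674 := rupP (by decide +kernel)
theorem r7675 : PImp [l4525, l1140, l4655, l432, l3736, o876, l5697, o1748, l7673, o3964, o4033, o4036, l5854, o6112, l4059, o2687, l3043, l3977, l3282, l7674] l7675 := rupP (by decide +kernel)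
theorem r7676 : PImp [l1140, l4655, l432, l1254, l5112, l1316, l4120, l7675, l7412, l5978, o3906, l5032, l6303, o2460] l7676 := rupP (by decide +kernel)
theorem r7677 : PImp [l7402, l6595] l7677 := rupP (by decide +kernel)
theorem r7678 : PImp [l5035, l7649, l7665, l7650, l3731, l6200, l2664, l3119, l6248, l2895, l3729, l4145, o5380, l7666, l1360, l4141, l7651, o3563, l7250, l5467, l4655, o4498, o3202, l4892, l2675, l2673, l2838, l6184, l4210, l3481, o5339, l6818, l2658, o5381, l3116, l5909, l2663, l4131, o8353, o3775, l4569, l4572, o8460, l2666, l3118, l4132, o3787, o8350, o4835, l3219, l432, o4479, l6886, l483, l3509, o4830, l7656, l1254, l3747, l3750, l428, l7664, l1218, o3817, o3218, l3216, l3929, l1138, o5193, l4769, l5776, o2775, l1140, l7677, l7670, l2614, o5363, l2896, l2667, o8377, o3786, l6246, l4167, l4782, l3497, l5276, l1357, l6202, l4209, l5730, l4891, l7372, l6191, o3039, o3717, o3459, l2850, o3438, o694, l4204, o2762, l4777, o3143, l430, o4463, o4799, l433, o4487, o4809, l7652, l4147, l5112, l2713, l7646, l6261, o5513, l4084, l4080, l7671, l7672,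 o3241, l7676, o6561] l7678 := rupP (by decide +kernel)
theorem r7679 : PImp [l6200, l6248, l6818, l4655, l432, o4479, o4498, l7649, l2664, l3219, l5276, l1360, l5035, l2895, l7665, l3119, l7650, l3729, l3731, l4145, o5380, l7666, l4141, l5467, l7651, l2838, o3563, o3202, l7250, l4892, l6184, l5730, l2675, l6886, l2673, l483, l3497, l7670, l7678, l6223, l6462, l5714, l2576] l7679 := rupP (by decide +kernel)
theorem r7680 : PImp [l4132, l4130, o8350, o8505, o3807, o3798] l7680 := rupP (by decide +kernel)
theorem r7681 : PImp [l3119, l3118, l3115, l7679, l4655, l6248, o4498, l7649, l6200, l2666, l2664, l2665, l1360, l5035, o4569, o4841, o4843, o4842, l3723, l4139, l4141, l5467, l7651, l2838, o3563, l7680, l5038, l6184, l7250] l7681 := rupP (by decide +kernel)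
theorem r7682 : PImp [l3746, l3747] l7682 := rupP (by decide +kernel)
theorem r7683 : PImp [l7649, l3929, l4655, l432, l1254, l1138, l1242, l5035, l2901, l2909, l4143, l4139, l7682, o4329, l2743, l3756, l3757] l7683 := rupP (by decide +kernel)
theorem r7684 : PImp [l7681, l7649, l7679, l5035, l3727, l7683, l3119, l6200, l2664, l6248, l1360, o5380, l4141, l7651] l7684 := rupP (by decide +kernel)
theorem r7685 : PImp [l4655, l428, o4520, l427, o4510, l501, l7649, l3929, l432, l1254, l5035, l3216, l4773, l3783, l3797, l5798] l7685 := rupP (by decide +kernel)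
theorem r7686 : PImp [l7681, l7649, l7679, l5035, l3727, l7683, l3119, l3118, l3117, l6200, l2667, l2666, l2664, l1360, l6217, l7250, l3484, o3563, o3564, o3565, l7684, o5487, o5488, o5489, o8817, l4145, o8801, o8798, l6536] l7686 := rupP (by decide +kernel)
theorem r7687 : PImp [l7681, l7649, l7679, l5035, l3727, l7683, l6200, l6248, l6818, l4655, l432, o4479, l3219, l4141, l7684, l5467, l2838, l6184, l6886, l3509, l483] l7687 := rupP (by decide +kernel)
theorem r7688 : PImp [l7649, l3929, l4655, l432, l1254, l428, l427, l5035, o4525, o4534, l4145, l7685, l7682, l3762, l2904, l2903] l7688 := rupP (by decide +kernel)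
theorem r7689 : PImp [l7679, l7649, l6200, l2663, l6248, l5035, l3116, l7681, l3727, l7683, l7688, o5381, l4141, l7684, l7687, l7686, l5037, l6220, l4102, l5909, o3775, o8353] l7689 := rupP (by decide +kernel)
theorem r7690 : PImp [l7649, l4655, l432, l1254, l1138, l1242, l7679, l5035, l7689, l3724, l3213, l3929, l2901, l2909, l3747, l3757, o4329, l2743] l7690 := rupP (by decide +kernel)
theorem r7691 : PImp [l7649, l7690, l7689, l7679, l3213, l7685, l4142, l3929, l4655, l432, l1254, l1138, l1242, l3757, l3759] l7691 := rupP (by decide +kernel)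
theorem r7692 : PImp [o4329, l2743] l7692 := rupP (by decide +kernel)
theorem r7693 : PImp [l7649, l3929, l4655, l432, l1254, l1138, l1242, l5035, l7679, l7689, l3213, l3724, l7691, l7692, l3747, l7664, o3233, l3763, o3223] l7693 := rupP (by decide +kernel)
theorem r7694 : PImp [l2895, l7649, l4655, l5035, o4569, l3723, l4139] l7694 := rupP (by decide +kernel)
theorem r7695 : PImp [l7649, l5035, l2895, l7694, l3727, l7683] l7695 := rupP (by decide +kernel)
theorem r7696 : PImp [l7695, l7693, l6243, l6325, l3935, l3934, l4655, l5113, l5587, o4498, l430, o4463, l473, l476, l7649, l432, l1254, l5035, o4569, o4570, o4842, l7650, l4141, l4147, l3723, l4106, o2912, l3027, l5277, l6668, l2641, l4591, l4802, l7563, l3113, l4100, l5623, l6253, o3572, o8505] l7696 := rupP (by decide +kernel)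
theorem r7697 : PImp [l7563, l6263, l1218] l7697 := rupP (by decide +kernel)
theorem r7698 : PImp [l7696, l7695, l7693, l6243, l6325, l3935, l3934, l4655, l433, l5113, l5587, o4487, o4498, l430, o4463, l473, l476, l7649, l3929, l432, l1254, l1138, l428, l5035, l3729, l3731, l4145, l2692, l6185, o5193, o5380, l4141, l4147, l4129, l4591, l4802, l7697, l5623, l3824, l5636, o3563, l3822, l4796, l4970, o2989, l4644, l6258, o8506, l641, l3126, l4769] l7698 := rupP (by decide +kernel)
theorem r7699 : PImp [l6243, l6325, l4655, l430, l5113, l5587, o4463, l432, l1254, l428, l6895, l7697, l3222] l7699 := rupP (by decide +kernel)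
theorem r7700 : PImp [l7693, l6243, l6325, l3935, l3934, l4655, l433, l5113, l5587, o4487, o4498, l473, l476, l7649, l3929, l432, l1254, l1138, l430, l5035, l7695, l7696, l7698, l3727, l7688, o5193, o5380, l4141, l4147, l7699, l5037, l4136, l5623, l6167, l3824, l4591, l4802, l5636, o3563, l3822, l4796, l4970, o2989, l4644, l6258, o8506, l641, l3126, l4769] l7700 := rupP (by decide +kernel)
theorem r7701 : PImp [l7649, l4655, l432, l1254, l1138, l1242, l7700, l5035, l7665, l3724, l3213, l3929, l2901, l2909, l3747, l3757, o4329, l2743] l7701 := rupP (by decide +kernel)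
theorem r7702 : PImp [l7649, l4655, l432, l1254, l1138, l1242, l7700, l5035, l7665, l3724, l3217, l3929, l5798, l3792, l3783, l5796] l7702 := rupP (by decide +kernel)
theorem r7703 : PImp [l5035, l4655, l5112, l432, l1254, l1138, l1242, l7649, l3929, l7700, l3213, l3217, l7665, l3724, l7701, l7685, l4142, l7702, o2796, l5776, l2794, l7664, o4329] l7703 := rupP (by decide +kernel)
theorem r7704 : PImp [l6132, l3451] l7704 := rupP (by decide +kernel)
theorem r7705 : PImp [l3216, l5035, l4834, l4832, l7703, l3008, o4861, o4352, l4883, o4981, l1218, l4087, l4885, o2759, l7704, l3444, o6742, o6795] l7705 := rupP (by decide +kernel)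
theorem r7706 : PImp [l7703, l5989, l2992, l481, l3216, l3473, l3491, l3417, l495, o4568, o5193, l2721, l3408, o4725, o5195, l4888, l7705, l4880, l4882] l7706 := rupP (by decide +kernel)
theorem r7707 : PImp [l390, l5603, l3509] l7707 := rupP (by decide +kernel)
theorem r7708 : PImp [l2590, o5512, o3582, o9147] l7708 := rupP (by decide +kernel)
theorem r7709 : PImp [l2571, l7708, l2599, o5824, l5771, o3582, o8978] l7709 := rupP (by decide +kernel)
theorem r7710 : PImp [l7190, o4574, l2587, l7509] l7710 := rupP (by decide +kernel)
theorem r7711 : PImp [l2580, o5099, l2596, o6525, o6701] l7711 := rupP (by decide +kernel)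
theorem r7712 : PImp [l2571, l7711, l2601, l6049] l7712 := rupP (by decide +kernel)
theorem r7713 : PImp [l6124, l2576, l2584] l7713 := rupP (by decide +kernel)
theorem r7714 : PImp [l7190, l2571, o5824, l6099, l2544, l2578, o8936] l7714 := rupP (by decide +kernel)
theorem r7715 : PImp [l2713, o5193, o5195, l487, o3582, l6147, l6114] l7715 := rupP (by decide +kernel)
theorem r7716 : PImp [o5193, o5195, l3422, l495, l2713, l7709, l4084, l7715, l5848, l2544, o5512, o9057] l7716 := rupP (by decide +kernel)
theorem r7717 : PImp [l6062, o9011] l7717 := rupP (by decide +kernel)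
theorem r7718 : PImp [l5035, l4834, o5193, o5195, l3422, l3216, l4832, l4844, l2603, l7716, l2557, l7714, l4084, l7717, l2707, l4598, l4602] l7718 := rupP (by decide +kernel)
theorem r7719 : PImp [o3582, l2586, o9024] l7719 := rupP (by decide +kernel)
theorem r7720 : PImp [l2568, l7190, l2571, o5824, o5727, l7719, o3749, l2578, o8446] l7720 := rupP (by decide +kernel)
theorem r7721 : PImp [l5035, l4834, o5193, o5195, l3422, l3216, l4832, l4844, l2711, l2603, l7716, l2555, l2557, l7720, l4084, l7717, l2707, l4598, l4602] l7721 := rupP (by decide +kernel)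
theorem r7722 : PImp [l2589, l6326, o5512] l7722 := rupP (by decide +kernel)
theorem r7723 : PImp [l7722, l6154, l2576] l7723 := rupP (by decide +kernel)
theorem r7724 : PImp [l2561, o3582, o5512, o9153] l7724 := rupP (by decide +kernel)
theorem r7725 : PImp [o5193, o5195, l3422, l495, l7703, l328, l2713, l7709, l4084, l6208, l7715, o6585, o2924] l7725 := rupP (by decide +kernel)
theorem r7726 : PImp [o8334, o8640] l7726 := rupP (by decide +kernel)
theorem r7727 : PImp [l5035, l4834, o5193, o5195, l3422, l3216, l4832, l4844, l2603, l7725, l2555, l2557, l2710, l7720, l4084, l7717, l2707, l4598, l4602] l7727 := rupP (by decide +kernel)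
theorem r7728 : PImp [l2615, o5193, o5195, l3422, l495, l2713, l7712, l4084, l7715, l2619, l2544, l2539, o5512, o9033] l7728 := rupP (by decide +kernel)
theorem r7729 : PImp [l5989, l3118, l481, l480, l5925, l2681, l7707, l7706, l2661, o5485, l4132, o8656, o3468, l3509, l3512, l5238, l4775, o4568, l495, l5035, l3491, l4856, l4847, l4854, l3216, l4832, l4844, l4834, l2615, l2614, l7728, l2555, l2557, l7723, l4084, l4082, l7724, l2563, o3749, l6039, o8707, o8821] l7729 := rupP (by decide +kernel)
theorem r7730 : PImp [l3219, l7718, l7721, l3532, l3526] l7730 := rupP (by decide +kernel)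
theorem r7731 : PImp [l5989, l3118, l481, l480, l5925, l2681, l7707, l7706, l2661, o5485, l4132, o8656, o3468, l3509, l3512, l4775, l5035, l3491, l4856, l4854, l3927, l7703, l2987, l2668, l3223, l7729, l7730, l7726, l7727] l7731 := rupP (by decide +kernel)
theorem r7732 : PImp [o3582, l5771, o8978] l7732 := rupP (by decide +kernel)
theorem r7733 : PImp [l2571, l7708, o4574, o5824, l7732, o2924, l2574, l5769] l7733 := rupP (by decide +kernel)
theorem r7734 : PImp [o3582, l4610, l6045, o5824] l7734 := rupP (by decide +kernel)
theorem r7735 : PImp [l7714, l7720, l2710, o6761, o8640] l7735 := rupP (by decide +kernel)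
theorem r7736 : PImp [o9178, o9011] l7736 := rupP (by decide +kernel)
theorem r7737 : PImp [l3223, l2555, l2557, l7735, l4084, l7736, l2707, l4598, l4602] l7737 := rupP (by decide +kernel)
theorem r7738 : PImp [l2713, l2615, o3582, o8947, l6114, o5826, l5683] l7738 := rupP (by decide +kernel)
theorem r7739 : PImp [l2615, l3422, l2713, l7712, l4084, l7738, l2619, l2544, l2539, o5512, o9033] l7739 := rupP (by decide +kernel)
theorem r7740 : PImp [o5099, l6558] l7740 := rupP (by decide +kernel)
theorem r7741 : PImp [l7740, l2576, l2584] l7741 := rupP (by decide +kernel)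
theorem r7742 : PImp [l2561, l2617] l7742 := rupP (by decide +kernel)
theorem r7743 : PImp [l481, l480, l5989, l5925, l2681, l7707, l3491, l2668, l5035, l4832, l4844, l4834, l2614, l7739, l2555, l7741, l4082, l7742, l2563, o3749, l6039, o8707, o8821] l7743 := rupP (by decide +kernel)
theorem r7744 : PImp [l2571, l7708, o5824, l7732, l2544, l2574, o8899] l7744 := rupP (by decide +kernel)
theorem r7745 : PImp [l5035, l4834, o5193, o5195, l5989, l3118, l481, l480, l5925, l2681, l7707, l7706, l2661, o5485, l4132, o8656, o3468, l3422, l3509, l3512, l5238, l4775, o4568, l487, l495, l3491, l4856, l4847, l4854, l3927, l7703, l2987, l2668, l3216, l4832, l4844, l7731, l7743, l2603, l7737, l2713, l7744, l4084, l7734, l2544, o9057, o5511, o8892, l5848] l7745 := rupP (by decide +kernel)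
theorem r7746 : PImp [l2713, l7744, l4084, l7734, l2544, o9057, o5511, o8892, l5848] l7746 := rupP (by decide +kernel)
theorem r7747 : PImp [l5035, l4834, l3422, l3223, l4832, l4844, l2603, l7746, l2555, l2557, l7735, l4084, l7736, l2707, o8927, l4602, o5826] l7747 := rupP (by decide +kernel)
theorem r7748 : PImp [o5193, o5195, l481, l480, l5989, l5925, l2681, l7707, l7706, l4775, o5485, o4568, l487, l495, l5035, l3491, l4856, l4847, l4854, l2661, l3927, l7703, l2987, l2668, l3216, l3118, l4132, l5238, l3509, o8656, l3512, o3468, l7745, l7747, l7729, l7743] l7748 := rupP (by decide +kernel)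
theorem r7749 : PImp [o8969, o9136] l7749 := rupP (by decide +kernel)
theorem r7750 : PImp [l2713, l7746, l7744, l4084, l7749, l2707, o9057, l5848, o5511] l7750 := rupP (by decide +kernel)
theorem r7751 : PImp [l3444, l3223, l5035, l4832, l4844, l4834, l2603, l7750, l2555, l2557, l7737, l7735, l4084, l7736, l2707, o8927, l4602, o5826] l7751 := rupP (by decide +kernel)
theorem r7752 : PImp [o3582, l6174, o8947, o5824] l7752 := rupP (by decide +kernel)
theorem r7753 : PImp [l2615, l2713, l7712, l4084, l7752, l2619, l5514] l7753 := rupP (by decide +kernel)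
theorem r7754 : PImp [l2571, l7740, l7741, l5714, o5824, o8921, l2544] l7754 := rupP (by decide +kernel)
theorem r7755 : PImp [o5193, o5195, l481, l480, l5989, l5925, l2681, l7707, l7706, l4775, o5485, o5462, o4568, l487, l495, l5035, l3491, l4856, l4847, l4854, l2661, l3927, l7703, l2988, l2987, l2668, l3118, l3115, l3223, l3219, l4832, l4844, l4834, l7748, l4236, l5434, l2809, l2810, o3465, o8656, o765, l4165, l765, l5991, l3444, l3336, o8681, l3532, l3524, o5754, o8376, l3527, l3526, l4913, o4455, o4763, l5268, l5274, o8640, l3515, o8372, o8771, l7751, l2615, l2614, l7753, l2555, l2557, l7754, l4082, l7742, l2563, o3749, l6039, o5406, o8707] l7755 := rupP (by decide +kernel)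
theorem r7756 : PImp [l2713, l7746, l7750, l7744, l6208, o6714, o6585] l7756 := rupP (by decide +kernel)
theorem r7757 : PImp [o3582, l4603, o9011, o5824] l7757 := rupP (by decide +kernel)
theorem r7758 : PImp [l3223, l5035, l4832, l4844, l4834, l2603, l7756, l2555, l2557, l7735, l4084, l7757, l2544, l4602, o5824, l4598, o8927] l7758 := rupP (by decide +kernel)
theorem r7759 : PImp [l2571, l7711, l2588, l2544, o5824, l5519, o8880] l7759 := rupP (by decide +kernel)
theorem r7760 : PImp [o3582, o8947, o5826, o9122, l4597] l7760 := rupP (by decide +kernel)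
theorem r7761 : PImp [l2713, l7759, l4084, l7760, l2619, l5514] l7761 := rupP (by decide +kernel)
theorem r7762 : PImp [l2571, l7740, l7741, o5824, o8921, o9056] l7762 := rupP (by decide +kernel)
theorem r7763 : PImp [l7724, l7742] l7763 := rupP (by decide +kernel)
theorem r7764 : PImp [o5193, l7703, l3008, l7755, l1218, o4389, l5274, l1150, o5195, l481, l480, l5989, l5925, l2681, l7707, l7706, l4775, o4568, l487, l495, l5035, l3491, l4856, l4847, l4854, l3927, l2987, l2668, l4832, l4844, l4834, l3422, l7758, l2615, l2614, l7761, l2555, l2557, l7762, l4084, l4082, l7763, l2563, o3749, l6039, o8707, o8821] l7764 := rupP (by decide +kernel)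
theorem r7765 : PImp [l481, l480, l5989, l5925, l2681, l7707, l7706, l2661, l3118, l5035, l4834, l495, o5485, l7764, l2536, o3468, l4165, o8656] l7765 := rupP (by decide +kernel)
theorem r7766 : PImp [o3582, l2582, o8978] l7766 := rupP (by decide +kernel)
theorem r7767 : PImp [l2568, l2571, l7708, o5825, o5727, l7766, o3749, l2574, o8778, o8381] l7767 := rupP (by decide +kernel)
theorem r7768 : PImp [o5194, o5187, l3430, l490, l2713, l7767, l4084, l7734, l2544, o9057, o5511, o8892, l5848] l7768 := rupP (by decide +kernel)
theorem r7769 : PImp [l481, l480, l5989, l2681, l7707, l7703, l2988, l2987, l2668, l3223, l3219, l5035, l4832, l4844, l4834, o5194, o4566, o5187, o5158, o5159, o5160, o4409, o4712, l2531, l5949, l3532, l1146, l2710, l3854, l5651, l3512, l4662, l3430, l7768, l2555, l2557, l7737, l7735, l4084, l7757, l4602, l4598] l7769 := rupP (by decide +kernel)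
theorem r7770 : PImp [o6312, o6050] l7770 := rupP (by decide +kernel)
theorem r7771 : PImp [l7117, l3304, l3308, l5827, l7053, o3891, l6060, l4074] l7771 := rupP (by decide +kernel)
theorem r7772 : PImp [l5817, l4710, l4709] l7772 := rupP (by decide +kernel)
theorem r7773 : PImp [l3366, l3314, l4831, l3936, o6869, o3243, o5092, o7001] l7773 := rupP (by decide +kernel)
theorem r7774 : PImp [l7703, l4968, l342, l2876, l6108, l7069, l435, o4363, o4358, l4150, l4077, l7773, l3698, l3721, l4972, l4370, l4371, o3243, l1131, o2435, o2576, l4976, l3279, l6092, o5018, o7025, o7001] l7774 := rupP (by decide +kernel)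
theorem r7775 : PImp [l3681, l3208] l7775 := rupP (by decide +kernel)
theorem r7776 : PImp [l4086, l4525, l5034, l7703, l3008, o4389, l1217, o4255, l4087, l4970, o4240, o4395, o5099, o6732, l5035, l4856, l4847, l4854, o3946, o3964, o3888, l6059, o3907, l4057, l3303, l4031, l3089, l3090, o2569, o2542, l3088, l3992, l6112, l3286, l3282, l3203, o1656, l3205, l7770, o1528, o6014, o5096, l3986, l7774, l6190, l7775, l3688, l4340] l7776 := rupP (by decide +kernel)
theorem r7777 : PImp [l7703, l3008, l4970, o4240, l1244, o4255, l4087, l7776, l2779, o3895, o3909, l7050, l6131, l5068] l7777 := rupP (by decide +kernel)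
theorem r7778 : PImp [l5030, l4761] l7778 := rupP (by decide +kernel)
theorem r7779 : PImp [l6048, o2463, o2449, l6156, l5050] l7779 := rupP (by decide +kernel)
theorem r7780 : PImp [l7703, l3008, l4970, o4240, l1244, o4389, l1217, o4255, l4087, l5035, l4856, l4847, l5034, l4233, l7777, l4763, l7779, l3089, l7778, o4074, l4759, l4993] l7780 := rupP (by decide +kernel)
theorem r7781 : PImp [l5049, l4538, l7200] l7781 := rupP (by decide +kernel)
theorem r7782 : PImp [l7703, l3008, o4389, l1217, o4255, l4087, l4970, o4240, l5035, l4856, l4847, l4854, l7780, l7771, l7781, o4076, o3902, l5993, o5853, o5950] l7782 := rupP (by decide +kernel)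
theorem r7783 : PImp [l4150, l4077, l7773, l3698, l3721, l4370, l4371, l4972, l1131, o3243, o2435, o2576, l4976, l3279, l6092, o5018, o7025, o7001] l7783 := rupP (by decide +kernel)
theorem r7784 : PImp [l7703, l4968, l342, l2882, l2876, l6108, l435, l436, o4363, o4358, l7783, l1000, l3686, l4361] l7784 := rupP (by decide +kernel)
theorem r7785 : PImp [l4086, l4525, l5034, l7703, l3008, o4389, l1217, o4255, l4087, l4970, o4240, o4395, o5099, o6732, l5035, l4856, l4847, l4854, o3946, o3964, o3888, l6059, o3907, l4057, l3303, l4031, l3089, l3090, o2569, o2542, l3088, l3992, l3286, l3282, l6112, l7770, l3203, o1656, l3205, o1528, o6014, o5096, l3986, l7784, l6190, l7775, l3688, l4340] l7785 := rupP (by decide +kernel)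
theorem r7786 : PImp [l7703, l3008, l4970, o4240, l1244, o4255, l4087, l7785, l2779, o3895, o3909, l7050, l6131, l5068] l7786 := rupP (by decide +kernel)
theorem r7787 : PImp [l7703, l3008, l4970, o4240, l1244, o4389, l1217, o4255, l4087, l5034, l4233, l7786, l4763, l7779, o2450, l7778, l4759, o3895, l5845] l7787 := rupP (by decide +kernel)
theorem r7788 : PImp [l7118, o3907, l3303, l5049] l7788 := rupP (by decide +kernel)
theorem r7789 : PImp [l7703, l3008, o4389, l1217, o4255, l4087, l4970, o4240, l5035, l4856, l4847, l4854, l7782, l7787, l7771, l7788, o4065, o3891, l5993, o5853, o5950] l7789 := rupP (by decide +kernel)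
theorem r7790 : PImp [l5034, o3946, o3888, l6059, l4057, l3089, o2569, o2542, l3992, l3286, l3282, l7770, o1528, o5883, o6014] l7790 := rupP (by decide +kernel)
theorem r7791 : PImp [l5034, l7790, l2779, o3895, l7050, l5068, l5050, o2449] l7791 := rupP (by decide +kernel)
theorem r7792 : PImp [l4087, l5034, l4233, l4086, l7791, l4763, l7779, o2450, l7778, l4759, l5024, l5021] l7792 := rupP (by decide +kernel)
theorem r7793 : PImp [o3938, o3907, l5863, l6060] l7793 := rupP (by decide +kernel)
theorem r7794 : PImp [o4240, l7117, l3308, l7793, o4065, l4004, l4003] l7794 := rupP (by decide +kernel)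
theorem r7795 : PImp [o3907, l7788, l7781] l7795 := rupP (by decide +kernel)
theorem r7796 : PImp [l7703, l3008, l4970, o5099, o6732, l5035, l4856, l4847, l4854, o4255, o4389, o4395, o4240, l4087, l1217, l1244, l7789, l7792, l7794, l7795, o4065, o3891, l5993, o5950, o6775] l7796 := rupP (by decide +kernel)
theorem r7797 : PImp [l6190, l7775, l3688, l4340] l7797 := rupP (by decide +kernel)
theorem r7798 : PImp [l7774, l7784] l7798 := rupP (by decide +kernel)
theorem r7799 : PImp [l6095, l6093, l442] l7799 := rupP (by decide +kernel)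
theorem r7800 : PImp [l7797, l3240, l3242, l7619, l7799] l7800 := rupP (by decide +kernel)
theorem r7801 : PImp [l3721, l3696, l4368, l4369, l508, l3073, o5970, o5942] l7801 := rupP (by decide +kernel)
theorem r7802 : PImp [l4831, l4365] l7802 := rupP (by decide +kernel)
theorem r7803 : PImp [o1656, l3303, l3205, l4086, l4525, l5034, o5099, l2711, l3286, l3282, l7770, l3846, o1528, o6014, o5096, o4228, o4225, o4227, l3986, l4720, l4031, l7798, l4747, l3080] l7803 := rupP (by decide +kernel)
theorem r7804 : PImp [o1649, o1653, l3303, l5034, l1244, o3907, o2450, o2443, l4031, o6227, l3088, l684, l7801, l4050] l7804 := rupP (by decide +kernel)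
theorem r7805 : PImp [o5869, l507] l7805 := rupP (by decide +kernel)
theorem r7806 : PImp [l5068, l4055] l7806 := rupP (by decide +kernel)
theorem r7807 : PImp [o4044, l342, o1656, l4068, l7069, l4150, l4077, l7773, l3721, l4371, l4972, o2575, l1131, o5870] l7807 := rupP (by decide +kernel)
theorem r7808 : PImp [l3286, l3282, l3980, l7770, o5095, o1528, o6014] l7808 := rupP (by decide +kernel)
theorem r7809 : PImp [l3240, l2882, l342, l435, l436, l6064, l4764, l4674, l4351, l4348] l7809 := rupP (by decide +kernel)
theorem r7810 : PImp [l3686, l5069] l7810 := rupP (by decide +kernel)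
theorem r7811 : PImp [l342, l3365, l3314, l4831, l7802, l4363, l3936, l7069, o9051, o3243, l4077, o5090, o7001] l7811 := rupP (by decide +kernel)
theorem r7812 : PImp [l4763, l5034, l3008, l4970, l3089, l7778, o4074, l4759, l4993] l7812 := rupP (by decide +kernel)
theorem r7813 : PImp [o2488, l4518, o4071, o4066, o4076, o4082, l4520, l4550, l5049, l4538, l6166] l7813 := rupP (by decide +kernel)
theorem r7814 : PImp [l4756, l4758] l7814 := rupP (by decide +kernel)
theorem r7815 : PImp [l3240, l7809, l439, l6074, l5057, l3676] l7815 := rupP (by decide +kernel)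
theorem r7816 : PImp [l6108, l435, l342, l3721, l4367, l5034, o4363, l4972, o5099, o6732, l7703, l3089, o2569, l5068, o2542, l7806, l7803, o1648, l3992, o4052, o4051, o4050, l7804, l7805, o3890, o2573, o6227] l7816 := rupP (by decide +kernel)
theorem r7817 : PImp [l4057, l7807] l7817 := rupP (by decide +kernel)
theorem r7818 : PImp [l5034, l6108, o4363, l435, l3205, l2876, o5099, o6732, l7816, l7817, l3308, l1073, l713, l5050, l4049, l5022] l7818 := rupP (by decide +kernel)
theorem r7819 : PImp [l6108, o4363, l435, l342, l3721, l4972, l7703, l4233, l4371, l7818, l3697, l7812, o2575, l1131, o6137, o5890] l7819 := rupP (by decide +kernel)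
theorem r7820 : PImp [l3308, o2488, l4074, l4004, o4065] l7820 := rupP (by decide +kernel)
theorem r7821 : PImp [l3308, l1131, l3698, o5870, l728, o4043, o4053, o6115, l3992, l5864] l7821 := rupP (by decide +kernel)
theorem r7822 : PImp [l7117, o1655, o1650, l7820, o2575, o2574, l7821, o39, l4357, l728, l3696, o6083, o7011] l7822 := rupP (by decide +kernel)
theorem r7823 : PImp [o5099, o6732, l2711, l5035, l4856, l4847, l4854, l3216, l7703, l3008, l328, l4970, l7796, l7800, l342, l2882, l2873, l7815, l3200, l3203, l3205, l6108, l435, l436, o4363, l7811, l3686, l3721, l3715, l7810, l4344, l4972, l7819, o12, l7822, l3695, l1124, o1648, l7813, l7814, l4552, o4065, l4523, l4517] l7823 := rupP (by decide +kernel)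
theorem r7824 : PImp [l4828, l3365, l4316, l7069, o7008, o9051] l7824 := rupP (by decide +kernel)
theorem r7825 : PImp [l3286, l3282, l7770, o1528, o6280, o6014] l7825 := rupP (by decide +kernel)
theorem r7826 : PImp [l435, l3721, l4367, l5034, l3089, o2569, l5068, o2542, l7806, l7825, o1648, l3992, o4052, o4051, o4050, l7804, l7805, o3890, o2573, o6227] l7826 := rupP (by decide +kernel)
theorem r7827 : PImp [l1073, o2568, o2540, l7825] l7827 := rupP (by decide +kernel)
theorem r7828 : PImp [l435, l3721, l4371, l4972, l7826, o2575, l7827, l3308, o1655, l4057, l1131, o4044, o5870] l7828 := rupP (by decide +kernel)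
theorem r7829 : PImp [o2569, o2542, l7825, l3308, l4761, l4759] l7829 := rupP (by decide +kernel)
theorem r7830 : PImp [l435, l3721, l4972, l4233, l4086, l4371, l7828, l3697, l7829, o2575, l1131, o6137, o5890] l7830 := rupP (by decide +kernel)
theorem r7831 : PImp [l3008, l328, l7117, l7822, l3304, l3308, o4250, l4971, l2770, l7053, l4087, o3906, l4074, l6060] l7831 := rupP (by decide +kernel)
theorem r7832 : PImp [l4763, l328, l3089, o2488, o2527, l4518, o8633, o4102, l4520, o4154, o4158, l5000, l4550, l4743, l5063] l7832 := rupP (by decide +kernel)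
theorem r7833 : PImp [l5238, l481, l480, l5989, l5925, l2681, l7707, l3491, l3473, l2991, l2992, l2668, l342, l2882, l2873, l7815, l3200, l3199, l6108, l435, l436, o4363, l7824, l3686, l3721, l3715, l7810, l4344, l4972, l7830, o12, l4432, l7831, l3962, l3695, l1124, o1648, o1660, l7832, l7814, l4552, o4155, o8633, o5908] l7833 := rupP (by decide +kernel)
theorem r7834 : PImp [l7703, l5989, l2990, l3219, l3835, l5238, l481, l480, l5925, l2681, l7707, l3491, o5099, o6732, l2711, l5035, l4856, l4847, l4854, l3473, l2992, l2668, l3216, l7823, l7833, l7797, l3240, l3242, l7137, l7799] l7834 := rupP (by decide +kernel)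
theorem r7835 : PImp [l5034, l6108, l435, l342, o5099, o6732, l7703, l3089, o2569, l5068, o2542, l7806, l3303, l7803, l3992, o4052, o4051, l7804, l1268, o3890, o2461, o6227, l4031, o2442, l2786, l4087] l7835 := rupP (by decide +kernel)
theorem r7836 : PImp [l5034, l7835, l6476, l3308, l1073, l713, l5050, l4049, l5022] l7836 := rupP (by decide +kernel)
theorem r7837 : PImp [l6108, o4363, l435, l342, l3721, l4972, l7703, l4233, l4371, l7836, l3697, l7812, o2575, l1131, o6137, o5890] l7837 := rupP (by decide +kernel)
theorem r7838 : PImp [l3304, l7053, l5827, l4039, o6115, l5267] l7838 := rupP (by decide +kernel)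
theorem r7839 : PImp [l4039, l4041] l7839 := rupP (by decide +kernel)
theorem r7840 : PImp [l4087, l4618] l7840 := rupP (by decide +kernel)
theorem r7841 : PImp [l2882, l7815, l3203, l6108, l7837, l436, l4830, l4362] l7841 := rupP (by decide +kernel)
theorem r7842 : PImp [l4827, l4636] l7842 := rupP (by decide +kernel)
theorem r7843 : PImp [l3240, l435, l436, o4363, l4675, l4363, l3720, l339, l2866, l3710, o9149, o5076, l4353, l3702] l7843 := rupP (by decide +kernel)
theorem r7844 : PImp [l2972, l7797, l3240, l3242, l3188, l7619, l7842, l3668, l7843, l441, l439, l4825, l3649, l1233] l7844 := rupP (by decide +kernel)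
theorem r7845 : PImp [l7117, l3304, l7820, l7839, l3075] l7845 := rupP (by decide +kernel)
theorem r7846 : PImp [l5035, l4834, l7840, o5099, o6732, o5511, l4856, l4847, l4854, l3216, l4832, l4844, l7703, l3008, l328, l4970, l7844, l2873, l7815, l7841, l3200, l3205, l6108, l435, o4363, l7811, l3686, l5069, o12, l7845, l3695, l1124, o1648, l7199, o5897, o6423] l7846 := rupP (by decide +kernel)
theorem r7847 : PImp [l5034, l435, l7827, l3308, l6958, l6476, l3089, o2442, l3992, o6227, o4052, o4051, o3890, l7804] l7847 := rupP (by decide +kernel)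
theorem r7848 : PImp [l435, l3721, l7840, l4233, l4086, l4371, l7847, l3697, l7829, o2575, l1131, o6137, o5890] l7848 := rupP (by decide +kernel)
theorem r7849 : PImp [o2549, l4074, o5991, o4193] l7849 := rupP (by decide +kernel)
theorem r7850 : PImp [l3008, l3770, l7117, l3304, l3308, o1738, l7849, l3075, l7838, l4039, l4971, l4069, o4076, l2786, l4004, o3888, l3094, o6115] l7850 := rupP (by decide +kernel)
theorem r7851 : PImp [l7840, l2993, l342, l2873, l7815, l3200, l6108, l435, o4363, l7824, l3686, l5069, l3721, l4972, l7848, l4184, o12, l7850, l3695, l1124, o1648, l7199, o5897, o6423] l7851 := rupP (by decide +kernel)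
theorem r7852 : PImp [l4634, l4825] l7852 := rupP (by decide +kernel)
theorem r7853 : PImp [l5989, l5925, l3219, l2681, l3117, l4183, l481, l480, l7707, o3556, l2662, l3927, l2603, l2571, l2713, l3491, o3582, o9147, o8978, o8525, l7732, o5511, o5348, l3532, l2711, o5368, o5343, o9075, l7703, l2996, l4767, l4779, l5035, l4856, l4847, l4854, l3473, l2990, l2992, l2668, l3216, l4832, l4844, l4834, o4899, o5099, o4896, o4724, o4722, o4717, l3768, o6732, l3835, l5651, l5238, l3512, l2844, l4662, l7834, l7846, l7851, l2971, l7797, l3242, l7137, l7852, o6912, o6813] l7853 := rupP (by decide +kernel)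
theorem r7854 : PImp [o4364, o4369, o8641, o1182, o6897, o6862] l7854 := rupP (by decide +kernel)
theorem r7855 : PImp [l5034, l3008, l430, l4970, l3089, l5068, o2549, l7806, o3952, o4036, o4017, l3986, o6247, l3320, o1764, l5713] l7855 := rupP (by decide +kernel)
theorem r7856 : PImp [l5034, l3008, l430, l4970, l427, l328, l3089, o2488, l5068, l7806, o3952, o4036, o3938, l3986, l3998, l3320, l3282, l5713] l7856 := rupP (by decide +kernel)
theorem r7857 : PImp [l1073, l3286, l3282, o2540, l7770, l7171, o1528] l7857 := rupP (by decide +kernel)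
theorem r7858 : PImp [l3008, l430, l4971, l428, l1217, l7856, o2691, l3075, o2449, l7857, l3304, l3308, l5678, l4057, l5655, o3906, o3897] l7858 := rupP (by decide +kernel)
theorem r7859 : PImp [l5000, l4998] l7859 := rupP (by decide +kernel)
theorem r7860 : PImp [l5034, l3008, l430, l4970, l4967, l3089, l7859, l3308, l4761, l4759] l7860 := rupP (by decide +kernel)
theorem r7861 : PImp [l4967, l7840, l3008, l430, l4971, l4970, l428, l1217, l4233, l4086, l7830, o6732, l7858, l3321, l7860, o2691, l7171, l5671, l6162] l7861 := rupP (by decide +kernel)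
theorem r7862 : PImp [l7117, l7771, l3304, l3308, l7838, l7053, l4074, o3906] l7862 := rupP (by decide +kernel)
theorem r7863 : PImp [o2527, l7832, o6028, o4295, o4154, l7795] l7863 := rupP (by decide +kernel)
theorem r7864 : PImp [l4432, o12, l7862, l3962, l3695, l1124, o1648, o1660, l7863, l3075, l5045, l4533, l4538] l7864 := rupP (by decide +kernel)
theorem r7865 : PImp [l7856, l6476, o2691, l3308, l7857] l7865 := rupP (by decide +kernel)
theorem r7866 : PImp [l4967, l7840, l3008, l430, l4971, l4970, l428, l1217, l2991, l2992, l342, l2882, l2871, l2873, l2875, l7815, l3200, l3197, l3199, l6108, l435, l436, l7824, l3686, l3721, l3715, l4347, l4346, l7854, l4972, l7864, l4233, l4086, l7861, l7848, o6732, l7865, l3321, l7860, o2691, l7171, l5671, l512] l7866 := rupP (by decide +kernel)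
theorem r7867 : PImp [l7703, l4966, l2711, l3219, l5651, l5434, l3494, l2836, l4132, l3512, o8504, o4824, l7866, l2971, l7797, l3240, l3242, l7137, l7799, l7852, o6912, o6813] l7867 := rupP (by decide +kernel)
theorem r7868 : PImp [l3240, l3242, l7815, l6091, l7799, l3680, l4341] l7868 := rupP (by decide +kernel)
theorem r7869 : PImp [l1244, l4967, l7840, l3008, l430, l4970, l428, l1217, l5034, l4233, l4086, l7830, l7858, l4763, l7860, l7779] l7869 := rupP (by decide +kernel)
theorem r7870 : PImp [l3291, l7859, l4518, o29, l4520, o6290, o8632] l7870 := rupP (by decide +kernel)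
theorem r7871 : PImp [l328, l3089, o2488, o2529, l7870, l4710, l4708] l7871 := rupP (by decide +kernel)
theorem r7872 : PImp [l4967, l3008, l428, l1217, l430, l4971, l7868, l3197, l1244, l7840, l4970, l4966, l2991, l2992, l7797, l6108, l342, l2882, l2871, l2873, l2875, l436, l7824, l3715, l4347, l4346, l7854, l7869, l7862, l4763, l3960, l7871, l7814, o2463, o2449, l7779, l6156, l4542] l7872 := rupP (by decide +kernel)
theorem r7873 : PImp [l3219, l5434, l4243] l7873 := rupP (by decide +kernel)
theorem r7874 : PImp [l3008, l430, l4971, l428, l1217, l4967, l7868, l7872, l3200] l7874 := rupP (by decide +kernel)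
theorem r7875 : PImp [l3242, l1232, l7842, l4317, l4321] l7875 := rupP (by decide +kernel)
theorem r7876 : PImp [l3008, l430, l4970, l7856, l7865, l6476, l7827, l3308] l7876 := rupP (by decide +kernel)
theorem r7877 : PImp [l7852, o6912, o6813] l7877 := rupP (by decide +kernel)
theorem r7878 : PImp [l3242, l7815, l2971, l7875, l7877, l3680, l3672] l7878 := rupP (by decide +kernel)
theorem r7879 : PImp [l435, l3721, l3205, l3008, l430, l4970, l4967, l4233, l4086, l4371, l7848, l7876, l3321, l3697, l7860, o2575, o2691, l1131, l7171, o1671] l7879 := rupP (by decide +kernel)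
theorem r7880 : PImp [l480, l5989, l5925, l2681, l3117, l4183, l481, l7707, o3556, l2662, l3927, l2603, l2571, l2713, l3491, o3582, o9147, o8978, o8525, l7732, o5511, o5368, l3219, o5348, l3532, l7873, l3509, l3512, l5238, l2711, o4834, o9075, l7703, l2996, l2994, l4767, l4779, l5035, l4856, l4847, l4854, l2661, l3473, l2991, l2992, l2668, l3216, l3118, l4832, l4844, l4834, l3008, l7853, l428, l430, l4966, l4967, l1217, l4970, l4971, l7840, l7867, l3801, l3768, o4352, o5013, o4333, l7874, l7878, l3200, l3197, l7797, l342, l2882, l2871, l2873, l2875, l6108, l435, l436, l7824, l3721, l3715, l4347, l4346, l7854, l4972, l7879, l7862, l3960, l7871, l7814, o2463, o2449, l6156, l5050, l6130] l7880 := rupP (by decide +kernel)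
theorem r7881 : PImp [l3240, l3242, l7815, l7799, l7137] l7881 := rupP (by decide +kernel)
theorem r7882 : PImp [l6077, l435, o4363, l7824, l7811] l7882 := rupP (by decide +kernel)
theorem r7883 : PImp [l3661, l4826] l7883 := rupP (by decide +kernel)
theorem r7884 : PImp [l2882, l342, l435, l436, o5035, o5038, o4363, l3686, l3721, l3715, l4972, l4077, l4347, o3243, l7883, l3241, l3187, l4672, l3646, l3647, l3313, o6862, o7001, o5091] l7884 := rupP (by decide +kernel)
theorem r7885 : PImp [l439, o5082, o5079, l3678, l5057, o6888, l3192, o385, o6897, o6880] l7885 := rupP (by decide +kernel)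
theorem r7886 : PImp [o4409, l1146, l7840, l3423, l3216, l7881, l3200, l3201, l3205, l7797, l342, l2882, l2873, l2874, l2875, l7882, l3669, l7885, l435, l436, o4363, l7810, l3686, l7884, l3721, l3715, l4972, l7830, l4344, l7831, l3960, l7871, l3075, l5045, l4533, l4538] l7886 := rupP (by decide +kernel)
theorem r7887 : PImp [l3242, l7815, l2971, l7137, l7877] l7887 := rupP (by decide +kernel)
theorem r7888 : PImp [l7840, o5511, l3423, l2993, l3216, o4409, o5099, o4896, l1146, o6732, l7886, l7887, l3200, l3201, l3205, l7797, l342, l2873, l2874, l2875, l7882, l3669, l7885, l435, o4363, l7810, l7884, l3721, l4972, l7848, l4184, l7850, l3960, l7871, l3075, l5045, l4533, l4538] l7888 := rupP (by decide +kernel)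
theorem r7889 : PImp [l6077, l7824] l7889 := rupP (by decide +kernel)
theorem r7890 : PImp [l3008, l430, l4971, l4970, l428, l1217, l7862, l3960, l7871, l3075, l5045, l4533, l4538] l7890 := rupP (by decide +kernel)
theorem r7891 : PImp [l7703, l3008, l430, l4971, l4970, l428, l1217, l4138, l2996, l2994, l5035, l4856, l4847, l4854, l2992, l3216, l7868, l3200, l3201, l3197, l7797, l342, l2882, l2871, l2873, l2874, l2875, l7889, l3669, l7885, l436, l3715, l4347, l4346, l7854, l7861, l7830, l3801, l3768, o6732, o4352, o4333, l7869] l7891 := rupP (by decide +kernel)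
theorem r7892 : PImp [l5035, l4834, l480, l3117, l4183, l481, l5989, l5925, l2681, l7707, o3556, l2662, l3927, l2603, l2571, l2713, l3491, o3582, o9147, o8978, o8525, l3423, l7732, o5511, o5368, l3219, o5348, l3532, l7873, l3509, l4662, l7840, l2844, l3512, l5238, l2711, o4834, o9075, l4138, l4767, l4779, l4856, l4847, l4854, l2661, l3473, l7703, l2991, l2992, l2668, l3216, l4832, l4844, l3008, l7880, l7888, l428, l430, l1217, l4970, l4971, l7890, l7891, l7878, l3200, l3201, l3197, l7797, l342, l2882, l2871, l2873, l2874, l2875, l7889, l3669, l7885, l435, l436, l3721, l3715, l4347, l4346, l7854, l4972, l7848, l7879, o6732] l7892 := rupP (by decide +kernel)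
theorem r7893 : PImp [l3240, l3242, l7815, l7799, l2868, l4315, l7088, l7160, l439, l4324, l4764, l3650, l6072] l7893 := rupP (by decide +kernel)
theorem r7894 : PImp [l3685, l3686] l7894 := rupP (by decide +kernel)
theorem r7895 : PImp [l3216, l3200, l3201, l3205, l7797, l2873, l2874, l2875, l7882, l3669, l7885, l7894] l7895 := rupP (by decide +kernel)
theorem r7896 : PImp [l2571, l2713, l4183, l4138, l3423, l3927, l2603, l481, l480, l5989, l5925, l2681, l7707, o3556, l4767, l4779, l5035, l3491, l4856, l4847, l4854, l2662, l3473, l2668, l3117, l3219, l4834, l7703, l3008, o3582, o9147, o9075, o8978, l7732, o8525, o5511, o5348, o5368, l3532, l7873, l5238, l3509, l3512, l2844, l4662, l7892, l1218, l428, l1150, o5103, o6732, l7895, l3240, l3242, l7815, l7893, l2971, l2868, l7877, l4315, l7088, l7160, l439, l4324, l4764, l3650, l3672] l7896 := rupP (by decide +kernel)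
theorem r7897 : PImp [l2713, l3927, l2603, l5035, l481, l480, l5989, l5925, l2681, l7707, l3491, l4856, l4854, l2571, l7896, l2590, l2544, o5825, l2574, o8899] l7897 := rupP (by decide +kernel)
theorem r7898 : PImp [l2713, l2544, l7749, l7734] l7898 := rupP (by decide +kernel)
theorem r7899 : PImp [l3242, l3240, l7809, l441, l439, l5057, l3652, l4318, l1233] l7899 := rupP (by decide +kernel)
theorem r7900 : PImp [l3240, l3242, l7868, l7899, l7875, l7799, l6072, l3680] l7900 := rupP (by decide +kernel)
theorem r7901 : PImp [l5034, l3089, l5068, l7806, o2569, o3952, o4036, o3945, l3986, l3992, l3320, l3282, o6295] l7901 := rupP (by decide +kernel)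
theorem r7902 : PImp [l1073, l3286, l3282, o2540, o2568, l7770, o1528, o6295, o6032] l7902 := rupP (by decide +kernel)
theorem r7903 : PImp [l4967, l7840, l7828, l7901, l3075, o2449, l7902, l3304, l3308, l5678, l4057, l5655, o3906, o3897] l7903 := rupP (by decide +kernel)
theorem r7904 : PImp [l4967, l7900, l435, l3721, l3197, l7840, l7890, l7854, l5034, l4233, l4371, l4972, l7903, l4763, l3697, l7860, o2575, o2449, l1131, o1656, l5033, l5029, l5050, l5022] l7904 := rupP (by decide +kernel)
theorem r7905 : PImp [l435, l3721, l4371, l4972, l7903, l3697, l7860, o2575, l1131, o6852, o5890] l7905 := rupP (by decide +kernel)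
theorem r7906 : PImp [o4364, o4370, o8641, o1184, o6851, o6890] l7906 := rupP (by decide +kernel)
theorem r7907 : PImp [l4233, l7905] l7907 := rupP (by decide +kernel)
theorem r7908 : PImp [l4074, l4073] l7908 := rupP (by decide +kernel)
theorem r7909 : PImp [l7117, l3304, l3308, l7908, l3075, l6290, l4039] l7909 := rupP (by decide +kernel)
theorem r7910 : PImp [l7703, l4967, l7900, l3197, l3200, l7840, l4966, l4138, l2661, l2660, l2991, l2992, l342, l2882, l2871, l2873, l2874, l2875, l2877, l7069, l7889, l4151, l3669, l7885, l436, l3715, l4347, l4346, l7904, l7906, l7907, l7909, l3960, l7871, l3075, l5045, l4533, l4538] l7910 := rupP (by decide +kernel)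
theorem r7911 : PImp [l3637, l4340, l4226, o6933, o8808] l7911 := rupP (by decide +kernel)
theorem r7912 : PImp [l481, l480, l5989, l5925, l2681, l7707, l7706, l3491, l5035, l4856, l4854, l7765, l4767, l3927, l2603, l7769, l4785, l4189, l4593, l494, l3423, l4779, l4847, l3473, l4129, l2808, l2668, l3216, l3119, l3219, l4832, l4844, l4834, l7703, l2713, l7897, l4084, l7898, l2707, o3241, o9057, o9166, o6585, o6342, l1594, l5848, o5355, o4843, o5385, o5099, o5100, o5101, o5103, l3532, l4966, l4967, l4968, l4969, l1210, l1209, l2711, l7873, l5238, l3509, l3512, l7900, l3201, l3199, l7910, o3280, l7797, l6190, l7911, l3681, l3682] l7912 := rupP (by decide +kernel)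
theorem r7913 : PImp [l481, l480, l5989, l5925, l2681, l7707, l7706, l7765, l4767, l5035, l3491, l4856, l4854, l3927, l7703, l2987, l2668, l3223, l4832, l4844, l2603, l7769, l4785, l7912, l2555, l2557, l7737, l7735, l4084, l7757, l4602, l4598] l7913 := rupP (by decide +kernel)
theorem r7914 : PImp [l2571, l7759, l6261, o5825, o8958, l2707, o8880, l5519] l7914 := rupP (by decide +kernel)
theorem r7915 : PImp [o5825, o9122, l2539, l2707] l7915 := rupP (by decide +kernel)
theorem r7916 : PImp [l5989, l2681, l480, l3219, l7703, o5194, o4566, o5159, o5160, o4409, l5949, l3532, l1146, l7873, l5651, l4662, l7914, l4084, l7915, o5512, l20, l2619, l2707] l7916 := rupP (by decide +kernel)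
theorem r7917 : PImp [l7703, l2996, o4899, l7761, l3768] l7917 := rupP (by decide +kernel)
theorem r7918 : PImp [l5514, l2596] l7918 := rupP (by decide +kernel)
theorem r7919 : PImp [l7918, l2580, l2601] l7919 := rupP (by decide +kernel)
theorem r7920 : PImp [l2713, l2615, l4779, l5035, l4834, l7703, l3008, l7916, l494, l4593, l3423, l7917, l428, l1218, l7919, l4084, l7760, l2619, l5514] l7920 := rupP (by decide +kernel)
theorem r7921 : PImp [l4165, l4785, l4164, o5446, o5447, o8798, o8656, o8799] l7921 := rupP (by decide +kernel)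
theorem r7922 : PImp [o4566, l7762, l4084, l4082, l7763, l2563, o3749, l6039, o8707, o8821] l7922 := rupP (by decide +kernel)
theorem r7923 : PImp [l2581, l6558, o3582, o5818, o9056] l7923 := rupP (by decide +kernel)
theorem r7924 : PImp [l2571, l7762, l4966, l7923, l6211, l2584] l7924 := rupP (by decide +kernel)
theorem r7925 : PImp [o3582, l7742, o9153] l7925 := rupP (by decide +kernel)
theorem r7926 : PImp [o3749, l6039, o8707, o8821] l7926 := rupP (by decide +kernel)
theorem r7927 : PImp [l7887, l7893] l7927 := rupP (by decide +kernel)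
theorem r7928 : PImp [l436, l435, l2882, l342, l3365, l7802, l4831, l4363, o9051, o5076, o5080, l6069] l7928 := rupP (by decide +kernel)
theorem r7929 : PImp [l7883, l3187, l3098, l4672, o6990, l3647, o5091, o6862] l7929 := rupP (by decide +kernel)
theorem r7930 : PImp [l2882, l342, l435, l436, o4363, l7928, l3315, l3686, l3721, l3715, l4078, l4972, l4347, o3243, l7929, l5057, l3653, l4349, o5035, o5032] l7930 := rupP (by decide +kernel)
theorem r7931 : PImp [l3423, l3216, l7927, l3200, l3201, l7797, l2873, l2874, l2875, l7930, l6077, l7885, l3669] l7931 := rupP (by decide +kernel)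
theorem r7932 : PImp [l7893, l7815, l7844] l7932 := rupP (by decide +kernel)
theorem r7933 : PImp [l7894, l7928] l7933 := rupP (by decide +kernel)
theorem r7934 : PImp [l3423, l2557, l2555, l2614, l2615, l3216, l3219, o5099, l7926, l2708, l7742, l7925, o8839, o6749, o5511, o5406, o5408, o6616, o6455, l3532, l5651, l7873, l3494, l2844, l4662, l3512, l7931, l7932, l3200, l3201, l7797, l2873, l2874, l2875, l7933, l6077, l7885, l3669] l7934 := rupP (by decide +kernel)
theorem r7935 : PImp [l2563, l2561] l7935 := rupP (by decide +kernel)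
theorem r7936 : PImp [l481, l480, l5989, l5925, l2681, l7707, l7706, l7765, l4767, l4779, l5035, l3491, l4856, l4847, l4854, l2662, l2661, l3473, l2668, l3216, l3118, l3117, l4832, l4844, l4834, l7703, l3008, l2994, o3556, l7913, l2615, l2614, l7921, l4138, l7920, l2555, l2557, l7922, l494, l4593, l4189, l7924, l4084, l4082, l7935, l7926, l7742, l4970, l430, o4865, l7934, l3801] l7936 := rupP (by decide +kernel)
theorem r7937 : PImp [l4446, l3532, l4181, o5353, o8375] l7937 := rupP (by decide +kernel)
theorem r7938 : PImp [o3469, o3467, o3468, l3118, l3117, l3115, l3223, l3219, l4183, l3439, l3444, l2536, l3419, o8679, l1218, o8374, l1150, o4689, o4685, o8640, o8592, l7937, l3336, l1102, l668, o8607] l7938 := rupP (by decide +kernel)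
theorem r7939 : PImp [l5035, l481, l480, l5989, l5925, l2681, l7707, l3491, l4856, l4854, l7706, l2662, l2661, l7703, l2988, l2987, l3118, l3117, l3115, l4834, l3008, l7936, o3468, o3467, o3469, l7938, l4165, l4164, l4163, o8656, o8350, l34, l768, l6273] l7939 := rupP (by decide +kernel)
theorem r7940 : PImp [l495, l487, l7756] l7940 := rupP (by decide +kernel)
theorem r7941 : PImp [l3240, l4764, l7842, l4327, l4331] l7941 := rupP (by decide +kernel)
theorem r7942 : PImp [l7799, l7877] l7942 := rupP (by decide +kernel)
theorem r7943 : PImp [l3240, l3242, l7815, l7927, l2971, l7941, l7942, l3672, l3680] l7943 := rupP (by decide +kernel)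
theorem r7944 : PImp [l5034, l3282, o6034, l7207, o3947, o3891, l3320, l4060, l3986] l7944 := rupP (by decide +kernel)
theorem r7945 : PImp [l5034, l1145, l1210, l3008, l1149, l3089, o2442, l7944, l3308, l3992, l4055, o3945] l7945 := rupP (by decide +kernel)
theorem r7946 : PImp [l5034, l1145, l1209, l7945, o2449, l7779, l6465, l4045, l4049] l7946 := rupP (by decide +kernel)
theorem r7947 : PImp [l4087, l1145, l1209, l5034, l4086, l7946, l4763, l7860, l7779] l7947 := rupP (by decide +kernel)
theorem r7948 : PImp [o12, l7862, l3695, l7795, l1124, o4041, o5903, o6021] l7948 := rupP (by decide +kernel)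
theorem r7949 : PImp [l5034, l7945, l6476, o2463, o2449, l7120, l6156] l7949 := rupP (by decide +kernel)
theorem r7950 : PImp [l7703, l4966, l7797, l2882, l342, l3205, l4967, l1244, l4087, l1145, l1209, l1210, l435, l436, l3686, l3721, l3715, l4150, l4347, l4346, o6889, l7854, o4367, l4972, l7948, l4086, l4371, l7947, l7949, l3321, l3697, l7860, l7207, o2575, o1671, l1131] l7950 := rupP (by decide +kernel)
theorem r7951 : PImp [l7063, l3678] l7951 := rupP (by decide +kernel)
theorem r7952 : PImp [l4967, l1244, l4087, l1145, l1209, l7947, l7862, l4763, l3960, l7871, o2449, l7779, l6048, l4542, l4546] l7952 := rupP (by decide +kernel)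
theorem r7953 : PImp [l4087, l4086, l4371, l7949, l3321, l3697, l7860, l7207, o2575, o1671, l1131] l7953 := rupP (by decide +kernel)
theorem r7954 : PImp [l7703, l4967, l4966, l3216, l2994, l3794, o4352, l4087, l2996, l3759, o4333, l1145, l1209, l1210, l5035, l4856, l4847, l4854, l2661, l5989, l2681, l2991, l2668, l480, l5238, l3509, l3512, l7943, l3200, l3203, l3197, l3205, l7797, l342, l2882, l2871, l2873, l2875, l2876, l7889, l3670, l7951, l435, l436, l7950, l3721, l3715, l4347, l4346, l7854, l4972, l7952, l7953, l7862, l3960, l7871, o2463, o2449, l6488, l6156, l7120, l6130] l7954 := rupP (by decide +kernel)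

end Pool.Agent.BDD.A
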