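import Pool.Agent.BDD.AC
import Pool.Agent.BDD.AE0
import Pool.Agent.BDD.AE1
import Pool.Agent.BDD.AE2
import Pool.Agent.BDD.AD0
import Pool.Agent.BDD.AD1
import Pool.Agent.BDD.AD2

set_option autoImplicit false
set_option linter.all false

namespace Pool.Agent.BDD.A

theorem r7955 : PImp [l2571, l3216, l3927, l4794, l2730, l2603, l481, l480, l5989, l2681, l7707, o3556, l7703, l1145, l1210, l2662, l2988, l3223, l3219, o9147, o9075, o8978, o8525, o4834, o5348, o5368, l3532, l7954, l5434, l3856, l4248, l3859] l7955 := rupP (by decide +kernel)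
theorem r7956 : PImp [l5035, l4856, l4854, l7955, l2707, l2590, l2574] l7956 := rupP (by decide +kernel)
theorem r7957 : PImp [l5034, l4055, o3952, o4036, o3945, l3986, l3992, l3320, l3282, o6295] l7957 := rupP (by decide +kernel)
theorem r7958 : PImp [l3089, o2569, l7957, l4060, l7227] l7958 := rupP (by decide +kernel)
theorem r7959 : PImp [l5034, l1145, l1209, l1210, l3008, l1149, l7946, l7958, o2449, l7779, l6465, l4045, l4049] l7959 := rupP (by decide +kernel)
theorem r7960 : PImp [l4087, l1145, l1209, l5034, l7959, l4763, l7860, l7779] l7960 := rupP (by decide +kernel)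
theorem r7961 : PImp [l4763, l3960, l7871, o2449, l7779, l6048, l4542, l4546] l7961 := rupP (by decide +kernel)
theorem r7962 : PImp [l4967, l4966, l1244, l4087, l1145, l1209, l7960, l4184, l7961, l7850, l7909] l7962 := rupP (by decide +kernel)
theorem r7963 : PImp [l5034, l4055, o3952, o4036, o3945, l3986, l3992, l3320, l3282, o6280] l7963 := rupP (by decide +kernel)
theorem r7964 : PImp [l3089, o2569, l7958, l7963, l4060, l7227] l7964 := rupP (by decide +kernel)
theorem r7965 : PImp [l5034, l1145, l1209, l1210, l3008, l1149, l7964, o2463, o2449, l6465, l7120, o3971, o3979, o3915, l5659] l7965 := rupP (by decide +kernel)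
theorem r7966 : PImp [l1244, l4087, l1145, l1209, l7965, l4763, l7860, l6048, l5033, l5029] l7966 := rupP (by decide +kernel)
theorem r7967 : PImp [l3219, l4763, l3960, l3962, l7871, l6048, l3269, l4552, o4155, o5908, o6028] l7967 := rupP (by decide +kernel)
theorem r7968 : PImp [l4967, l4966, l1244, l4087, l1145, l1209, l5989, l2681, l2991, l2668, l480, l5238, l3509, l3512, l7962, l7966, l4432, l4184, l7967, l7850, l7909] l7968 := rupP (by decide +kernel)
theorem r7969 : PImp [l2713, l7703, l2996, l3759, o5004, o4996, o4333, l3216, l2994, l3794, o4352, l1145, o4555, l5035, l4834, l3422, l3423, l2993, l1210, l4856, l4847, l4854, l3927, l5989, l2681, l4129, l2808, l2988, l480, l3119, l3117, l3223, l3219, l4832, l4844, l3008, l2603, l7940, l4779, l4767, o4865, o4899, o5501, o5502, l4970, l4971, l2730, l4794, l7956, l4084, l7898, o3241, o9057, o9166, o6585, o6342, l1594, o5355, o5385, o4813, l3532, l7968, l5434, l3856, l4248, l3859] l7969 := rupP (by decide +kernel)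
theorem r7970 : PImp [l2596, l6049] l7970 := rupP (by decide +kernel)
theorem r7971 : PImp [l2580, l2601] l7971 := rupP (by decide +kernel)
theorem r7972 : PImp [l2615, l2713, l2571, l7971, o5512, l6049, l7970, o3582, o9132] l7972 := rupP (by decide +kernel)
theorem r7973 : PImp [l2615, l2713, l3422, l3423, l7972, l4084, l7760, l2619, l2544, l2539, o5512, o9033] l7973 := rupP (by decide +kernel)
theorem r7974 : PImp [l2571, l7971, l7970] l7974 := rupP (by decide +kernel)
theorem r7975 : PImp [l7703, l1145, o4555, l5035, l4834, l3422, l3423, l1210, l4856, l4854, l2713, l7969, l2615, l7973, l495, l4593, l4779, l7974, l4084, l7760, l2619, l2539] l7975 := rupP (by decide +kernel)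
theorem r7976 : PImp [o5826, o9178, l4602, l2707] l7976 := rupP (by decide +kernel)
theorem r7977 : PImp [l4600, l5797, o2924] l7977 := rupP (by decide +kernel)
theorem r7978 : PImp [l6194, l5734, o8069] l7978 := rupP (by decide +kernel)
theorem r7979 : PImp [l7978, l6862, o7774, l5522] l7979 := rupP (by decide +kernel)
theorem r7980 : PImp [l2606, l2608, l3556, l3598, l3235, l1446, o8053] l7980 := rupP (by decide +kernel)
theorem r7981 : PImp [o5287, o5290, l7980, o8187, o8272] l7981 := rupP (by decide +kernel)
theorem r7982 : PImp [l5669, l650, o7895] l7982 := rupP (by decide +kernel)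
theorem r7983 : PImp [l7982, l1697, o8180, o5637, o2269, o1465, o8229] l7983 := rupP (by decide +kernel)
theorem r7984 : PImp [o5286, o5288, l5532, o8000, l2607, l3583, l3611] l7984 := rupP (by decide +kernel)
theorem r7985 : PImp [l5871, l598, o7694] l7985 := rupP (by decide +kernel)
theorem r7986 : PImp [l5272, o3648, o3645, l7985, o4428, o4429, o5590, o4264, l5532, o8000, l2606, l2607, o8119, l2469, l3611, l4462] l7986 := rupP (by decide +kernel)
theorem r7987 : PImp [l1510, l2469] l7987 := rupP (by decide +kernel)
theorem r7988 : PImp [l7985, l7987, o8075, o8119] l7988 := rupP (by decide +kernel)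
theorem r7989 : PImp [l5218, l3932, l3613, l4475, l4457, o4267] l7989 := rupP (by decide +kernel)
theorem r7990 : PImp [l4087, o5285, o5286, o5289, l7988, o2712, o2716, o2715, l7989, l3235, l5871, l4805, l4451, o4266] l7990 := rupP (by decide +kernel)
theorem r7991 : PImp [o5590, o5589, l5871, l7985, o2712, l4475, l5218] l7991 := rupP (by decide +kernel)
theorem r7992 : PImp [l7979, l7986] l7992 := rupP (by decide +kernel)
theorem r7993 : PImp [l4087, l2477, l4280, l4260, l7991, l7992, o3427, o3428, l7990] l7993 := rupP (by decide +kernel)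
theorem r7994 : PImp [l1697, l3161, l7981, l4273, o2716, l4925] l7994 := rupP (by decide +kernel)
theorem r7995 : PImp [l2550, l2469, o8187, l2606] l7995 := rupP (by decide +kernel)
theorem r7996 : PImp [l7988, o2713, l7995, l3235, l3902, l3556] l7996 := rupP (by decide +kernel)
theorem r7997 : PImp [l7980, o8187, l2550, l2471, o6425, o7757] l7997 := rupP (by decide +kernel)
theorem r7998 : PImp [l4950, l2494, l3931] l7998 := rupP (by decide +kernel)
theorem r7999 : PImp [o5243, o5247, o4636, o4658, o5679, o5262, l7994, l7996, l7997, o2713, l7998, l3235, l3902, l3556] l7999 := rupP (by decide +kernel)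
theorem r8000 : PImp [l4921, l4925] l8000 := rupP (by decide +kernel)
theorem r8001 : PImp [l1446, l7985] l8001 := rupP (by decide +kernel)
theorem r8002 : PImp [l480, l5989, l5925, l2681, l3509, l3512, l5238, l2708, l4087, l5272, l481, l7707, l3491, l3473, l2668, l3223, l7993, l4204, o714, l7979, o3427, o3429, o3756, l7999, l5669, l650, l7982, l3161, l2379, l2651, l8000, o2716, l8001, o4428, o4430, o4433, o5590, l7987, l7997] l8002 := rupP (by decide +kernel)
theorem r8003 : PImp [o5287, o5289, o5290, l27, o8187, l2607, l2608, o1603, l7980, l3556, l3598, l3565, o2716, o2714, l3228, l3110, l2482, l4940, l8000, o7900, o4671] l8003 := rupP (by decide +kernel)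
theorem r8004 : PImp [l4204, o694, o688, o714, l7979, o3427, o3428, o3429, o3754, o3756, o3757, o3847, l8003, o5679, o5678, o5681, l5669, l650, l7982, o1452, o1465, o7894, o7897, o2258, o2269] l8004 := rupP (by decide +kernel)
theorem r8005 : PImp [l4474, l4476] l8005 := rupP (by decide +kernel)
theorem r8006 : PImp [l2606, l2607, l8005, l5871, o8119] l8006 := rupP (by decide +kernel)
theorem r8007 : PImp [l5532, o8000] l8007 := rupP (by decide +kernel)
theorem r8008 : PImp [o3648, o3647, l7979, l8006, l8007, l19, o7752] l8008 := rupP (by decide +kernel)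
theorem r8009 : PImp [l7987, l5871, o8075, o8119] l8009 := rupP (by decide +kernel)
theorem r8010 : PImp [l4087, o5285, o5286, o5288, l8009, o2712, o2715, o2714, l7989, l3234, l5871, l4290, l4458, o4264] l8010 := rupP (by decide +kernel)
theorem r8011 : PImp [o2720, l598, l4466, l3931] l8011 := rupP (by decide +kernel)
theorem r8012 : PImp [l480, l5989, l5925, l2681, l3509, l3512, l5238, l4209, l2708, l4087, l481, l7707, l3491, l3473, l4208, l2668, l8002, l8004, l2477, l4280, l4260, l8008, o3427, o3428, l8010, o5590, o5588, o5589, l5871, l8011, o2712, l4475, l5218] l8012 := rupP (by decide +kernel)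
theorem r8013 : PImp [l5989, l2708, l481, l480, l5925, l2681, l7707, l3491, l3473, l4208, l2668, l4204, o714, l8004, l7979, o2976, o3427, o3429, o3756, l7999, l5669, l650, l7982, l3161, l2651, l8000] l8013 := rupP (by decide +kernel)
theorem r8014 : PImp [l2980, l2985, l3595, l7985, l4455, o4266] l8014 := rupP (by decide +kernel)
theorem r8015 : PImp [o5100, l4968, o5099, l4967, l4087, l1145, l1210, l7991, o5287, l8007, l2608, l8014, l2859, l8010] l8015 := rupP (by decide +kernel)
theorem r8016 : PImp [l2980, l2981, l8006] l8016 := rupP (by decide +kernel)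
theorem r8017 : PImp [l1145, l1210, l8007, l8016, l2859, l8010] l8017 := rupP (by decide +kernel)
theorem r8018 : PImp [o5100, l4969, l4968, o5099, l4967, l4966, l4087, l1145, l1209, l1210, l7979, l8015, l8017, o5590, o5588, o5589, l5871, l2550, l8011, l5510, o2712, l2607, l4475] l8018 := rupP (by decide +kernel)
theorem r8019 : PImp [l480, l5989, l5925, l2681, l3509, l3512, l5238, l4209, o5100, l4969, l4968, o5099, l4967, l4966, l4087, l1145, l1209, l1210, l481, l7707, l3473, l8012, l8013, l2477, l4280, l4260, l8018, o3427, o3428, o2975, l8010, o5590, o5588, l5871, l4467, l2759] l8019 := rupP (by decide +kernel)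
theorem r8020 : PImp [l7978, l6862, o7879, o7774] l8020 := rupP (by decide +kernel)
theorem r8021 : PImp [l7995, l3235, l3556, l4814] l8021 := rupP (by decide +kernel)
theorem r8022 : PImp [l2494, l7998, o6604, o4274] l8022 := rupP (by decide +kernel)
theorem r8023 : PImp [o5285, o5286, o5287, o5288, o5290, l8021, l5042, l7997, o2714, o2713, l8022, l3234, l3616, l4813, l3889, l3886] l8023 := rupP (by decide +kernel)
theorem r8024 : PImp [l4204, o714, l8020, o3427, o3428, o3429, o3756, l8023, o5679, l5669, l650, o8698] l8024 := rupP (by decide +kernel)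
theorem r8025 : PImp [l2985, l2980, l7985, l8014, o4266, l4669, l3875] l8025 := rupP (by decide +kernel)
theorem r8026 : PImp [l2981, l8025, l8016, o8000, l2550, l2551, l5871, l3611, o4262, l3915] l8026 := rupP (by decide +kernel)
theorem r8027 : PImp [l7987, l7985, l4580, o8119] l8027 := rupP (by decide +kernel)
theorem r8028 : PImp [l4087, o2712, o2715, o2714, l7989, l3234, l5871, l4299, l4458, o4264] l8028 := rupP (by decide +kernel)
theorem r8029 : PImp [l1145, l1210, o5285, o5286, o5287, l8026, l8028, l7987, l5871, l4580, o8119] l8029 := rupP (by decide +kernel)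
theorem r8030 : PImp [o5100, l4969, l4968, o5099, l4967, l4966, l4087, l1145, l1209, l1210, l8020, l8029, o5590, o5588, o5589, l7991, l5871, l2550, l8011, l5510, o2712, l2607, l4475] l8030 := rupP (by decide +kernel)
theorem r8031 : PImp [o5285, o5286, l8028, l7987, l5871, l4580, o8119] l8031 := rupP (by decide +kernel)
theorem r8032 : PImp [l7703, o5100, l4969, l4968, o5099, l4967, l4966, l5989, l2708, o3582, o5511, o5512, l481, l480, l5925, l2681, l7707, l3491, l1244, l4087, l1145, l1209, l1210, l3473, l2668, l3118, l3219, l4132, l5238, l3509, l2836, l3512, o8504, o5353, o5371, o4841, o5344, o4799, o5811, l3532, l2657, l2658, l8019, l8024, l2477, l4280, l4260, l8030, o3427, l8031, o5590, o5588, o5589, l7991, l5871, l8011, o2712, l4475, l5218] l8032 := rupP (by decide +kernel)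
theorem r8033 : PImp [l2557, l2555, l7703, l2996, l3759, o5004, o4996, o4333, l3216, l2994, l3794, o4352, l1145, o4555, l1209, l1210, l2661, l3927, l481, l480, l5989, l5925, l2681, l7707, l2987, l2668, l3115, l3223, l328, l2603, l7735, l4084, l4082, l7976, o5013, l7977, o5512, o5514, l4602, o5100, l4593, l4189, l4779, l4767, o3582, l4969, o9044, l8032, l5434, l4180, l2809, l33, l1102, o8376] l8033 := rupP (by decide +kernel)
theorem r8034 : PImp [l7703, l7939, l1145, o4555, l5035, l481, l480, l5989, l5925, l2681, l7707, l3491, l4856, l4847, l4854, l7706, l3473, l2668, l3216, l4832, l4844, l4834, l3008, l2994, l3422, l3794, l4183, l3423, l7975, l2555, l2557, l8033, l2615, l2614, l7924, l7922, l4082, l7935, o4866, l7926, l4970, l7742] l8034 := rupP (by decide +kernel)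
theorem r8035 : PImp [l481, l480, l5989, l5925, l2681, l7707, l7706, l2661, l3118, l3117, l3115, l7703, l7939, l1145, l1210, o4555, l8034, o3468, o3467, o3469, l3444, l4165, l4164, l4163, o8656, o8350, l34, l768, l6273] l8035 := rupP (by decide +kernel)
theorem r8036 : PImp [o3582, l2713, o9147, o9136, l2571, l7734] l8036 := rupP (by decide +kernel)
theorem r8037 : PImp [o4196, o4228, l4046, o5980, l3320, o1764, o6014] l8037 := rupP (by decide +kernel)
theorem r8038 : PImp [l439, l3240, l4764, l4334, l2881] l8038 := rupP (by decide +kernel)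
theorem r8039 : PImp [l7809, l8038, l3675, l3676] l8039 := rupP (by decide +kernel)
theorem r8040 : PImp [l3278, l8039, l7111, l6979] l8040 := rupP (by decide +kernel)
theorem r8041 : PImp [l6077, l7928] l8041 := rupP (by decide +kernel)
theorem r8042 : PImp [l435, o4363, o4358, l3721, l4972, l4370, l4371, o3243, l1131, o2435, o2576, l4976, l3279, l6092, o5018, o7001, o7025] l8042 := rupP (by decide +kernel)
theorem r8043 : PImp [l5048, l5672] l8043 := rupP (by decide +kernel)
theorem r8044 : PImp [l342, l3686, l8042, l4077] l8044 := rupP (by decide +kernel)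
theorem r8045 : PImp [l4553, l4550] l8045 := rupP (by decide +kernel)
theorem r8046 : PImp [l2871, l2873, l2874, l2875, l8041, l7884, l3669, o5071, o5082, o5079, o6888, o382, o385, o8641, o1182, o6897, o6862] l8046 := rupP (by decide +kernel)
theorem r8047 : PImp [l2972, l6190, o4363, l6071, l7775, l996, l3688, l3943] l8047 := rupP (by decide +kernel)
theorem r8048 : PImp [l3770, l4086, l5034, l1244, l3008, l4970, l430, l4968, o6732, o5012, l7840, l3423, l2713, l2993, l2661, l5989, l3216, l5068, o2549, o2442, o2569, o2450, l3303, l8037, o3911, o3893, l4050, l4031, o6227, l3320, l3088, l3282, l8040, o6014, l3200, l3201, l3197, l3205, o1656, l8047, l2882, l2871, l2873, l2874, l8046, l8041, l3669, l3698, l8044, l439, o5071, o5079, o5030, o5028, o6888, l3708, o382, o8641, l3639, l3700, l3678, l3653] l8048 := rupP (by decide +kernel)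
theorem r8049 : PImp [l5034, l7840, l8048, o2463, o2449, l6465, l6156, l5050] l8049 := rupP (by decide +kernel)
theorem r8050 : PImp [l1244, l7703, l2996, o5015, l3768, l5035, l4834, l7840, l4138, l4832, l4844, l5034, l4115, l8049, l4763, l7812, l7779] l8050 := rupP (by decide +kernel)
theorem r8051 : PImp [o2488, o2442, l8045, l4518, o6575, l6028] l8051 := rupP (by decide +kernel)
theorem r8052 : PImp [l7703, l3008, l4970, l2996, o5015, l3768, l5035, l4834, l7840, l3423, l4832, l4844, l328, l1244, l8050, l7845, l4763, l8043, l3303, l3304, l8051, o2463, o2449, l7779, l6156, l4542] l8052 := rupP (by decide +kernel)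
theorem r8053 : PImp [l5068, o2461, l3303, l4027, l4031] l8053 := rupP (by decide +kernel)
theorem r8054 : PImp [l8053, o2449, o2444, l6465, l1073, l3308] l8054 := rupP (by decide +kernel)
theorem r8055 : PImp [l5655, l4747] l8055 := rupP (by decide +kernel)
theorem r8056 : PImp [l7840, l5034, l8054, l4763, l7812, o2449, l8055, l5050, l5022] l8056 := rupP (by decide +kernel)
theorem r8057 : PImp [l7703, l3008, l4970, l2996, o5015, l3768, l5035, l4834, l7840, l3423, l4832, l4844, l328, l8052, l1268, l8056, l7845, l8043, l3303, l3304, l8051, l3075, o2444, l4533, l1074, o3906, l4549] l8057 := rupP (by decide +kernel)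
theorem r8058 : PImp [l3242, l8039, l2971, l7111, l7877] l8058 := rupP (by decide +kernel)
theorem r8059 : PImp [l2882, l439, o5071, o5079, o5030, o5028, l3678, o6888, l3708, o382, o8641, l3639, l3653, l3700] l8059 := rupP (by decide +kernel)
theorem r8060 : PImp [l4086, l5034, l3205, l5068, o2549, o2442, o2569, l8053, l3303, o1656, l1268, o2450, l8037, o3911, o3893, l4050, l4031, o6227, l3320, l3698, l3088, l3282, l8044, o6014] l8060 := rupP (by decide +kernel)
theorem r8061 : PImp [l5034, l3770, l8060, l6476, o2449, l5050, l4049, l5022] l8061 := rupP (by decide +kernel)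
theorem r8062 : PImp [l342, l435, l3721, l7703, l3008, l4970, l430, o4363, l4972, l4968, l7840, l5035, l4115, l4371, l8061, l7812, l3697, o2575, l1131, o5890, o6137] l8062 := rupP (by decide +kernel)
theorem r8063 : PImp [l7703, l2996, o5015, l3768, o6732, o5012, l5035, l4834, l7840, l3423, l2713, l4138, l2993, l2661, l5989, l3216, l4832, l4844, l3008, l328, l4970, l430, l8057, l8058, l3200, l3201, l3197, l3205, l8047, l2871, l2873, l2874, l8046, l8041, l3669, l8059, l8062, l7845, l8043, l3303, l3304, l7199, l8051, l1074, o2453, l4549, l4533, l2779] l8063 := rupP (by decide +kernel)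
theorem r8064 : PImp [l3988, l3992] l8064 := rupP (by decide +kernel)
theorem r8065 : PImp [l5034, l7827, l3308, l8064, l3089, o2494, l6465] l8065 := rupP (by decide +kernel)
theorem r8066 : PImp [l7840, l5034, l4233, l4086, l8065, l4763, l7829, o2449, l8055, l5050, l5022] l8066 := rupP (by decide +kernel)
theorem r8067 : PImp [l7862, l3960, l8043, l7871, l3303, l3075, l4533, l2779, l4535, l4549] l8067 := rupP (by decide +kernel)
theorem r8068 : PImp [l5034, l7827, l3308, l8064, l6476, l3089] l8068 := rupP (by decide +kernel)
theorem r8069 : PImp [l4747, l5841] l8069 := rupP (by decide +kernel)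
theorem r8070 : PImp [l7703, l2996, o5015, l3768, l481, l480, l5989, l5925, l2681, l7707, l3491, o6732, l5035, l4834, l7840, l3219, l3117, l3118, l2661, l2662, o3556, l7921, l4183, o8525, o5348, l3532, l2711, l3423, l3473, l4129, l2991, l2992, l2668, l4832, l4844, l8063, l8067, l5034, l4233, l4086, l8066, l8068, l4763, l7829, o2449, l8069, l5050, l5022] l8070 := rupP (by decide +kernel)
theorem r8071 : PImp [l3770, l4086, l5034, l3008, l4970, l430, l4968, o6732, o5012, l3423, l2713, l2993, l2661, l5989, l3216, l3089, l5068, o2549, o2569, l8053, o2450, l8064, l3303, l1268, l8037, l3282, l8040, o3911, l4050, l3200, l3201, l3197, l3205, l8047, o1656, l4031, l3320, l2871, l2873, l2874, l8046, l3088, o6014, l8041, l3669, l3698, l8059, l8044] l8071 := rupP (by decide +kernel)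
theorem r8072 : PImp [l3303, l4057, l5655, l5678, o3906, o3897] l8072 := rupP (by decide +kernel)
theorem r8073 : PImp [l5034, l7840, l8071, l3075, o2449, l8072, l5050, l4049, l5022] l8073 := rupP (by decide +kernel)
theorem r8074 : PImp [l3205, l4086, l5034, l3008, l4970, l430, l4968, l3089, l5068, o2549, o2569, l8053, o2450, l8064, l3303, o1656, l1268, l8037, l3282, o3911, l4050, l4031, l3320, l3698, l3088, o6014, l8044] l8074 := rupP (by decide +kernel)
theorem r8075 : PImp [l5034, l3008, l4970, l430, o6732, o5012, l7840, l3423, l2713, l2993, l2661, l5989, l3216, l3770, l8073, l8058, l3200, l3201, l3197, l3205, l8047, l2871, l2873, l2874, l8046, l8041, l3669, l8059, l8074, l6476, o2449, l5050, l4049, l5022] l8075 := rupP (by decide +kernel)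
theorem r8076 : PImp [l7703, l2996, o5015, l3768, l5035, l4834, l7840, l4138, l4832, l4844, l5034, l4115, l8075, l4763, l7812, o2449, l8069, l5050, l5022] l8076 := rupP (by decide +kernel)
theorem r8077 : PImp [l7862, l4763, l8043, l3303, l3304, l8051, l3075, o2463, o2449, l4533, l4535, l2780, l4549, l4532, o3906, o3897, l5050] l8077 := rupP (by decide +kernel)
theorem r8078 : PImp [l5034, l3008, l7827, l8068, l3308, l8064, l3089, o2494, o2500, l8072] l8078 := rupP (by decide +kernel)
theorem r8079 : PImp [l7703, l2996, o5015, l3768, l481, l480, l5989, l5925, l2681, l7707, l3491, o6732, l5035, l4834, l7840, l3219, l3117, l3118, l2661, l2662, o3556, l7921, l4183, o8525, o5348, l3532, l2711, l3423, l3473, l4129, l2992, l2668, l4832, l4844, l328, l8070, l8077, l5034, l4233, l4086, l8076, l8078, l4763, l7829, o2449, l8069, l5050, l5022] l8079 := rupP (by decide +kernel)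
theorem r8080 : PImp [l3089, l3090, o2542, o2569, l8064, l7808] l8080 := rupP (by decide +kernel)
theorem r8081 : PImp [l5034, l3303, l6476, l4057, l5065, l5676, o3906, o3897] l8081 := rupP (by decide +kernel)
theorem r8082 : PImp [l4525, l5034, l8080, l3075, o2449, l8081, l5050, l4049, l5022] l8082 := rupP (by decide +kernel)
theorem r8083 : PImp [l4745, l4747] l8083 := rupP (by decide +kernel)
theorem r8084 : PImp [l7840, l5034, l4233, l4086, l8082, l4763, l7812, o2449, l8083, l5050, l5022] l8084 := rupP (by decide +kernel)
theorem r8085 : PImp [l5048, l5049, l4734] l8085 := rupP (by decide +kernel)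
theorem r8086 : PImp [l4432, l7862, l3962, l8085, l3303, l3304, l3257, l8051, l3075, l4533, l4535, l4549, o4155, o5908, o6028] l8086 := rupP (by decide +kernel)
theorem r8087 : PImp [l5035, l4834, o5511, l3117, l3118, l5925, l5989, l2681, l2661, l2662, l481, l480, l7707, o3556, l7921, l4183, o8525, o5368, l3509, l3219, o5348, l3532, l4662, l7840, l2711, l2844, o5810, l3512, l5238, o5512, l4189, l4593, o5513, l3423, l7703, l2996, l3491, l3473, l2992, l2668, l3223, l4832, l4844, l328, o5015, o6732, o4846, l3768, l8079, l8086, l5034, l4233, l4086, l8084, l8082, l7829, l4763, o2449, l8083, l5050, l5022] l8087 := rupP (by decide +kernel)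
theorem r8088 : PImp [l5034, l3089, o2542, l8064, l7825, l7857] l8088 := rupP (by decide +kernel)
theorem r8089 : PImp [l8078, l8088, l3075, o2449, o2691, l8081, l7857, l3308] l8089 := rupP (by decide +kernel)
theorem r8090 : PImp [l5034, l4233, l4086, l8089, l4763, l7860, o2449, l8083, l5050, l5022] l8090 := rupP (by decide +kernel)
theorem r8091 : PImp [l3117, l3118, l5925, l5989, l2681, l2661, l2662, l481, l480, l7707, o3556, l7921, o5512, l4189, l4593, o5513, l3423, o5511, o3582, l2713, l3927, l2603, l4183, l3491, l3473, l7703, l2991, l2992, l2668, l3219, l5035, l4832, l4844, l4834, l3008, l5238, l3509, l3512, l4610, l2571, o9075, o8978, o8525, o5348, o5368, l3532, l2711, l4662, l7840, l8087, o5103, o5099, o5100, l1217, l4968, l8090, l7862, l4763, l3960, l3321, l7871, l7814, l3075, o2449, l3261, l5045, l4533, o4038, l4535, l5713, l4549, l4085, o3906, o3897, l4542] l8091 := rupP (by decide +kernel)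
theorem r8092 : PImp [o5514, l4767, l4779, l3117, l3118, l5925, l5989, l2681, l2661, l2662, l481, l480, l7707, o3556, l7921, l3115, l8091, l5434, l4180, l2809, l765, o8681, o8376] l8092 := rupP (by decide +kernel)
theorem r8093 : PImp [l3223, l3219, o5348, o5368, o4786, l3532, l5651, l3854, l4662] l8093 := rupP (by decide +kernel)
theorem r8094 : PImp [l4610, o6585, o6714] l8094 := rupP (by decide +kernel)
theorem r8095 : PImp [l3089, o2542, o2569, l8064, l3286, l3282, l7770, o1528, o5883, o6014] l8095 := rupP (by decide +kernel)
theorem r8096 : PImp [l5034, l3303, l6476, l4057, l4025, l5065, o3906, o3897] l8096 := rupP (by decide +kernel)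
theorem r8097 : PImp [l5034, l8095, l3075, o2449, l8096, l5050, l4049, l5022] l8097 := rupP (by decide +kernel)
theorem r8098 : PImp [l7812, l7829] l8098 := rupP (by decide +kernel)
theorem r8099 : PImp [l7840, l5034, l4233, l4086, l8097, l4763, l8098, o2449, l8083, l5020, l5022] l8099 := rupP (by decide +kernel)
theorem r8100 : PImp [l2713, l481, l480, l5989, l5925, l2681, l7707, l7706, l3927, l2603, l3117, l3118, l2661, l2662, o3556, l7921, l4183, l7703, l2996, l2995, l2993, l8035, l5035, l3491, l4856, l4847, l4854, l3473, l2991, l2988, l2992, l2668, l3216, l3223, l3219, l4832, l4844, l4834, l328, o3582, l8036, o5513, o5512, o5514, o5511, l3423, l4593, l4189, l4779, l4767, l8092, l4969, l4903, l4873, o4889, o4876, o5100, l3768, l8094, l2571, o6732, o9075, o8978, o8525, o5348, o5368, o4786, l8093, l3532, l7840, l2711, l5651, l3854, l3494, l3512, l8099, l4433, l4184, l7850, l3958, l8085, l3303, l3304, l3259, l8051, l3075, l4533, l4535, l4549, o4162, o5910, o8631] l8100 := rupP (by decide +kernel)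
theorem r8101 : PImp [l5034, l3008, l8078, l7902, l3308, l8064, l3089, o2494, o2500, l8096] l8101 := rupP (by decide +kernel)
theorem r8102 : PImp [l4967, l7840, l5034, l4233, l8101, l4763, l7860, o2449, l8083, l5020, l5033, l5022, l5029] l8102 := rupP (by decide +kernel)
theorem r8103 : PImp [l7862, l7909] l8103 := rupP (by decide +kernel)
theorem r8104 : PImp [l481, l480, l5989, l5925, l2681, l7707, l7706, l3927, l2603, l3117, l3118, l2661, l2662, o3556, l7921, l8035, l5035, l3491, l4856, l4847, l4854, l3473, l4129, l2808, l7703, l2991, l2992, l2668, l3119, l3219, l4832, l4844, l4834, l3008, l328, l2713, l8100, o3749, l2590, l2544, o2924, l4084, o9057, o9166, o8892, o6585, o5513, o5512, o5514, l1594, o5103, o5099, o5100, l3423, l4593, l4189, l4779, l4767, o5355, o5385, o4826, l1217, l4966, l4967, l4968, l4969, l3532, l7840, l2711, l7873, l5238, l3509, l3512, l8102, o36, l4432, l8103, l3960, l3962, l3321, l7871, l7814, l3075, l3269, l3261, l5045, l4533, o4038, l4535, o6295, l4549, o2671, o4154, o5908] l8104 := rupP (by decide +kernel)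
theorem r8105 : PImp [l481, l480, l5989, l5925, l2681, l7707, l7706, l3927, l2603, l5035, l4832, l4844, l8104, l2557, l7190, l4602, l4084, o3582, l7736] l8105 := rupP (by decide +kernel)
theorem r8106 : PImp [l4606, l7766, l2571] l8106 := rupP (by decide +kernel)
theorem r8107 : PImp [l2571, l2574, o8899] l8107 := rupP (by decide +kernel)
theorem r8108 : PImp [l2713, l8106, l2544, o2924, l8107, l5848, o6585, o6342] l8108 := rupP (by decide +kernel)
theorem r8109 : PImp [l481, l480, l5989, l5925, l2681, l7707, l7706, l3927, l2603, l3117, l3118, l2661, l2662, o3556, l7921, l8035, l7703, l2987, l2668, l3223, l5035, l4832, l4844, l328, l8105, o5824, l8108, l2555, l2557, l7737, l7735, l4084, l7736, o8927] l8109 := rupP (by decide +kernel)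
theorem r8110 : PImp [l2590, o2924, o6585] l8110 := rupP (by decide +kernel)
theorem r8111 : PImp [l5034, l328, l3089, o2488, o2542, o2569, l8064, l6625, l3286, l3282, o4174, o5098, o6050, o6014, o1528] l8111 := rupP (by decide +kernel)
theorem r8112 : PImp [l5034, l8111, l3075, o2449, l8096, l5050, l4049, l5022] l8112 := rupP (by decide +kernel)
theorem r8113 : PImp [l5034, l3089, l7812, l7859, l3308, l4761, l4759] l8113 := rupP (by decide +kernel)
theorem r8114 : PImp [l7840, l5034, l4233, l4086, l8112, l4763, l8113, o2449, l8083, l5050, l5022] l8114 := rupP (by decide +kernel)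
theorem r8115 : PImp [l4007, l5049, o4094, o4090, o4076, l4691, l4989, l4708] l8115 := rupP (by decide +kernel)
theorem r8116 : PImp [l3008, l1150, l421, l328, l3090, o2488, l8115, l3303, l3304, l8051] l8116 := rupP (by decide +kernel)
theorem r8117 : PImp [l3303, l4756, l8043, l4752] l8117 := rupP (by decide +kernel)
theorem r8118 : PImp [l5050, l5022] l8118 := rupP (by decide +kernel)
theorem r8119 : PImp [l7703, l3008, l8109, l1218, o5103, l3223, l5925, o4685, l5989, l2987, l2681, o8640, o6532, o8592, l2710, o4864, l1150, l428, l481, l480, l7707, l7706, l3927, l2603, l3117, l3118, l2661, l2662, o3556, l7921, l4183, l2993, l8035, l5035, l3491, l4856, l4847, l4854, l3473, l2988, l2992, l2668, l3219, l4832, l4844, l4834, l328, l2713, l8110, o3582, l8036, l8094, o5513, o5514, o5511, o5012, l2571, o6732, l3423, l4779, l4767, o9075, o8978, o8525, o5348, o5368, l8093, l3532, l7840, l7873, l5651, l5238, l3512, l8114, l4184, l7850, l4763, l8116, o2449, l8117, l8118, l4542, l4544, l4549, o4072, l4514, l4511] l8119 := rupP (by decide +kernel)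
theorem r8120 : PImp [l8109, l5035, l4832, l4844, l8119, l7190, l4602, l4603] l8120 := rupP (by decide +kernel)
theorem r8121 : PImp [l3117, l3118, l5925, l5989, l2681, l481, l480, l7707, l7706, l2661, l2662, o3556, l7921, l8035, l3927, l7703, l2987, l2668, l3223, l5035, l4832, l4844, l328, l2603, l8109, l8120, o5824, l8108, l2555, l2557, l7735, l4084, o9011, l7757, o8927, l4598] l8121 := rupP (by decide +kernel)
theorem r8122 : PImp [l2571, l2585, o3582, l2596, l4779, o9132, o5514] l8122 := rupP (by decide +kernel)
theorem r8123 : PImp [l2544, o9122, l4597] l8123 := rupP (by decide +kernel)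
theorem r8124 : PImp [l8123, l2707, l5866, l5514] l8124 := rupP (by decide +kernel)
theorem r8125 : PImp [l2713, l8122, l4084, l8124, o5513, o5512, l7760, l4593, l5514] l8125 := rupP (by decide +kernel)
theorem r8126 : PImp [o3582, l5552, o9167] l8126 := rupP (by decide +kernel)
theorem r8127 : PImp [l8126, l5660, l2544, o9090] l8127 := rupP (by decide +kernel)
theorem r8128 : PImp [l5068, o2569, l4066, l3100, o6252, o4036] l8128 := rupP (by decide +kernel)
theorem r8129 : PImp [l5034, o876, l8128, l3075, o2449, l8096, l5050, l3308, o3957, l4049, o3949, l3991, l4995] l8129 := rupP (by decide +kernel)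
theorem r8130 : PImp [l4967, l7840, l3008, l1218, o6629, l5034, l4086, l8129, l4763, l7860, o2449, l8083, l5033, l8118, l5029] l8130 := rupP (by decide +kernel)
theorem r8131 : PImp [l5035, l4834, l2615, l8125, l2557, l2555, l2614, l4856, l4847, l4854, l2661, l7703, l2991, l3118, l3219, l4832, l4844, l3008, l2568, l2571, l8127, o5513, o9056, o5512, o5514, o8921, l3423, l2707, o3241, o3824, o9135, l4593, l4189, l4779, l4767, l5660, o8728, o6629, o5406, o5408, o5103, o5099, o5100, l3532, l1218, l4966, l4967, l4968, l4969, l7873, l7840, l4132, l3509, l2836, o9087, o4824, l8130, l4433, l8103, l3958, l3960, l7871, l7814, l3271, l4549, o4162, o5910, o8631] l8131 := rupP (by decide +kernel)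
theorem r8132 : PImp [o6252, o5984] l8132 := rupP (by decide +kernel)
theorem r8133 : PImp [l2882, l342, l435, l436, o4363, o4358, l3686, l3721, l3715, l4972, l4078, l4370, l4371, l4347, o3243, l1131, l7929, o2435, o2576, o4098, l6092, l4976, l3279] l8133 := rupP (by decide +kernel)
theorem r8134 : PImp [l3008, l4970, l430, l4968, l3216, l3200, l3201, l3197, l8047, o1656, l2871, l2873, l2874, l2875, l8041, l3669, l3315, l3698, l8133, o5071, o5082, o5079, o6888, o382, o385, o8641, o1182, o6897, o6862] l8134 := rupP (by decide +kernel)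
theorem r8135 : PImp [o876, l4525, l5034, l3008, l4970, o5102, o6749, o6616, o6455, o5513, l3423, o5511, l2992, l3089, l3090, l5068, o2542, o2569, l8064, l3303, l3100, l3286, l7770, l3846, l8132, o5992, o5096, o5094, o5095, o4225, o4227, l3986, l4720, l4031, o2430, l3980, l8134, l8040, l8058] l8135 := rupP (by decide +kernel)
theorem r8136 : PImp [l5034, l7840, l3008, l4970, o5102, o6749, o6616, l8135, l3075, o2449, l8096, l5050, l8118, l4049] l8136 := rupP (by decide +kernel)
theorem r8137 : PImp [l4082, l2555, l5989, l481, l480, l5925, l2681, l7707, l3491, l2614, l7926, l2708, l7742, o8839, o5408, l3219, o5406, l3532, l5651, l7873, l4662, l7840, l3512, l2844, l3494, l3008, l4970, o5102, o6749, o6616, o6455, l3117, l3118, l2661, l2662, o3556, l7921, o5513, l3423, l3223, l2989, l4908, l2616, l3473, l2668, l328, l8086, l5034, l4233, l8136, l4763, l8113, o2449, l8083, l8118] l8137 := rupP (by decide +kernel)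
theorem r8138 : PImp [l3089, l3090, o2542, o2569, l8064, l3993, l3286, l414, o4176, o5097, o6050, l3846, l4981, l3099, l8132, o5992] l8138 := rupP (by decide +kernel)
theorem r8139 : PImp [l4525, l5034, o876, l8138, l3075, o2449, l8096, l5050, l8118, l4049] l8139 := rupP (by decide +kernel)
theorem r8140 : PImp [l7840, l5034, l4233, l8139, l4763, l8113, o2449, l8083, l8118] l8140 := rupP (by decide +kernel)
theorem r8141 : PImp [l2614, l2615, l3117, l3118, l5925, l5989, l2681, l2661, l2662, l481, l480, l7707, o3556, l7921, l4138, l7703, l2994, l5035, l3491, l4856, l4847, l4854, l3473, l4129, l2992, l2668, l3216, l3219, l4832, l4844, l4834, l3008, l8125, l2555, l2557, l8131, l4084, l4082, l7926, l2708, l7742, l2616, l7925, l7763, l4970, o8839, o5513, o5514, l4593, l4189, l430, o4865, o5102, o5406, o5408, l3423, l4779, l4767, l3801, o6749, l3532, l5651, o6455, o6616, l7873, l3494, l2844, l4662, l3512, l7840, l8137, l1218, l8140, l8103, l4763, l8116, o2449, l8117, l8118, l4542, l4544, l4549, o4072, l4514, l4511] l8141 := rupP (by decide +kernel)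
theorem r8142 : PImp [l2580, o3582, o8958] l8142 := rupP (by decide +kernel)
theorem r8143 : PImp [l2571, l8142, l2544, l5519, o8880] l8143 := rupP (by decide +kernel)
theorem r8144 : PImp [l2713, l8143, l4084, l2619, o8947, o3582] l8144 := rupP (by decide +kernel)
theorem r8145 : PImp [l8035, l5035, l481, l480, l5989, l5925, l2681, l7707, l3491, l4856, l4847, l7706, l2662, l2661, l2668, l3118, l3117, l4834, o3556, l7921, l8121, l2615, l2614, l8141, o5824, o5727, l8144, l2555, l7935, l2568, l2584, o8661, l2576, o8422] l8145 := rupP (by decide +kernel)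
theorem r8146 : PImp [l5035, l481, l480, l5989, l5925, l2681, l7707, l3491, l4856, l4854, l7706, l2662, l2661, l7703, l2988, l2987, l3118, l3117, l3115, l4834, l3008, l8145, o3468, o3467, o3469, l7938, l4165, l4164, l4163, o8656, o8350, l34, l768, l6273] l8146 := rupP (by decide +kernel)
theorem r8147 : PImp [l5034, l8064, l7944] l8147 := rupP (by decide +kernel)
theorem r8148 : PImp [o5978, o6048] l8148 := rupP (by decide +kernel)
theorem r8149 : PImp [l1145, l1210, l3089, o2534, o2442, l8147, l8148, o4162, l5745, l4060] l8149 := rupP (by decide +kernel)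
theorem r8150 : PImp [l5034, l3843, l8149, l3075, o2463, o2449, l8096, l6156, l5050] l8150 := rupP (by decide +kernel)
theorem r8151 : PImp [l4087, l5034, l4231, l4086, l8150, l4763, l3321, l7860, l7207, o2449, l3261, l8083] l8151 := rupP (by decide +kernel)
theorem r8152 : PImp [l3303, l6488, l8043] l8152 := rupP (by decide +kernel)
theorem r8153 : PImp [l481, l480, l5989, l5925, l2681, l7707, l7706, l3927, l2603, l2713, l8146, l7703, l2996, l3759, o5004, o4996, l5035, l4834, l3216, l2994, l3794, o4352, l4087, o4333, l1145, o4555, l3422, l3423, l4183, o3556, l1209, l8035, l3491, l4856, l4847, l4854, l2662, l3473, l2991, l2668, l3117, l3219, l4832, l4844, l3008, l2571, l2590, l7744, o3582, l8036, l495, l4593, l4189, o5496, o4866, o4901, o8978, o9075, l4779, l4767, l4970, l4971, l4966, l4967, o8525, o5348, o4798, o4810, l3532, l8151, l8103, l4763, l3960, l7871, o2463, o2449, l8152, l3272, l8118, l6156, o29, o4160, l6130, o5909, o8632] l8153 := rupP (by decide +kernel)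
theorem r8154 : PImp [o5818, l8036, l8110] l8154 := rupP (by decide +kernel)
theorem r8155 : PImp [o6052, o5981] l8155 := rupP (by decide +kernel)
theorem r8156 : PImp [o2557, l8155, o4199, l5745, l4060] l8156 := rupP (by decide +kernel)
theorem r8157 : PImp [l5034, l3772, l8156, l3075, o2449, l8096, l5050, l3308, o3957, l4049, o3949, l3991, l4995] l8157 := rupP (by decide +kernel)
theorem r8158 : PImp [l7703, l1145, l1210, l3008, l1149, l5035, l5034, l4118, l8157, l4763, l7860, o2449, l8083, l5033, l8118, l5029] l8158 := rupP (by decide +kernel)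
theorem r8159 : PImp [l7703, l4967, l4966, l4084, l3927, l2603, l4087, l2996, l1145, l1209, o3582, l4610, l4605, o9089, l8158, l8103, l3960, l7871, o2449, l8152, l3308, l1074, l3094, l3095, o2528, l7870] l8159 := rupP (by decide +kernel)
theorem r8160 : PImp [l5034, l1145, l1210, l3089, o2534, o2569, l8064, l8148, l3282, o4162, o4173, o4191, l4060, l3986, l3320, o6280, o6295] l8160 := rupP (by decide +kernel)
theorem r8161 : PImp [l5034, l1145, l1209, l3008, l1149, l3843, l8160, o2449, l6465, l5050, l3308, o3957, l4049, o3949, l3991, l4995] l8161 := rupP (by decide +kernel)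
theorem r8162 : PImp [l1244, l4087, l7703, l1145, l1209, l5034, l4231, l8158, l8161, l4763, l7860, l7779, l6048, l5029, l5033] l8162 := rupP (by decide +kernel)
theorem r8163 : PImp [l6048, o2449, o2463, l7779, l5050, o3971, o3979, o3915, l5659] l8163 := rupP (by decide +kernel)
theorem r8164 : PImp [o3913, l6130, l4726, l4530] l8164 := rupP (by decide +kernel)
theorem r8165 : PImp [l2713, l481, l480, l5989, l5925, l2681, l7707, l3491, l8146, l7706, l7703, l2996, l3759, o4333, l1244, l5035, l4834, l3216, l2994, l3794, o4352, l4087, l1145, o4555, l3422, l3423, l1209, l1210, l8035, l4856, l4847, l4854, l3927, l3473, l4129, l2808, l2991, l2992, l2668, l3119, l3219, l4832, l4844, l3008, l328, l2603, l8153, l4084, l8154, o5512, o5514, l4593, l4189, o4866, o4901, l4779, l4767, l4970, l4971, l4966, l4967, l8159, l2544, o2924, o8892, o9166, l1594, o5355, o5385, o4826, o5813, l3532, l8162, l8103, l4763, l3960, l7871, o2463, o2449, l6048, l8163, l8164, o3893, o3911, o3915, l5059] l8165 := rupP (by decide +kernel)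
theorem r8166 : PImp [l7703, l8146, l1145, o4555, l5035, l4834, l3422, l3423, l1210, l481, l480, l5989, l5925, l2681, l7707, l3491, l4856, l4854, l7706, l2713, l8165, l2615, l7973, l495, l4593, l4779, l7974, l4084, l2539, l7760] l8166 := rupP (by decide +kernel)
theorem r8167 : PImp [l3532, l3959, o4127, o6276] l8167 := rupP (by decide +kernel)
theorem r8168 : PImp [l7978, l6862, l656] l8168 := rupP (by decide +kernel)
theorem r8169 : PImp [o3754, o3756, l7983] l8169 := rupP (by decide +kernel)
theorem r8170 : PImp [o694, o714, l8169, l7978, l8168, l6862, o7774] l8170 := rupP (by decide +kernel)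
theorem r8171 : PImp [l2469, l5218, l2646, l3613, l3174, l6923, o8253] l8171 := rupP (by decide +kernel)
theorem r8172 : PImp [l4204, o694, o714, l8169, l7978, o3648, o3643, o3644, l2550, l2551, l2552, l5674, l3931, l3881, o4265, l5871, o7757] l8172 := rupP (by decide +kernel)
theorem r8173 : PImp [l8168, l7978, l5708, o7774] l8173 := rupP (by decide +kernel)
theorem r8174 : PImp [l2494, l7998, l4947, l3931] l8174 := rupP (by decide +kernel)
theorem r8175 : PImp [l2495, l2471] l8175 := rupP (by decide +kernel)
theorem r8176 : PImp [o5285, o5287, o5290, l7981, l8021, o2713, l8174, l8175] l8176 := rupP (by decide +kernel)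
theorem r8177 : PImp [l7190, l4082, l4204, o694, o714, l8173, o3427, o3429, o3754, o3756, l8176, o5679, o5681, l5669, l650, o2269, o1465, o7897] l8177 := rupP (by decide +kernel)
theorem r8178 : PImp [o3648, o3643, o3644, l7978, l2550, l2551, l2552, l5674, l3931, l3881, o4265, l7985, o7757] l8178 := rupP (by decide +kernel)
theorem r8179 : PImp [l4087, l4204, o694, o714, l8178, o3427, o3429, o3754, o3756, l8176, o5679, o5681, l5669, l650, o2269, o1465, o7897] l8179 := rupP (by decide +kernel)
theorem r8180 : PImp [l7998, l2494, o2713, l7291, o8053] l8180 := rupP (by decide +kernel)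
theorem r8181 : PImp [l7982, o5243, o4636, o5679, o5262, l2293, l7996, l8180, l3235, l2380, l3556, o8264, l2650] l8181 := rupP (by decide +kernel)
theorem r8182 : PImp [l2550, l8174, o8187, o2713, l7980] l8182 := rupP (by decide +kernel)
theorem r8183 : PImp [o5285, o5286, o5287, o5290, l8021, l2474, l8182, l3234, l2382, l3616, l2648, o8268, o8649] l8183 := rupP (by decide +kernel)
theorem r8184 : PImp [o5408, o4658, o5679, o5262, l7994] l8184 := rupP (by decide +kernel)
theorem r8185 : PImp [o8459, o8770] l8185 := rupP (by decide +kernel)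
theorem r8186 : PImp [l7190, l4082, o714, l4204, o5408, l8173, l8177, o3427, o3429, o3756, o8525, l7982, o4834, o4658, o5679, o5262, l7994] l8186 := rupP (by decide +kernel)
theorem r8187 : PImp [o3643, l7978, l8178, l2552, o2339, l5674, l2650, l2651, l4274, l6810, o7941, o8345] l8187 := rupP (by decide +kernel)
theorem r8188 : PImp [o3427, o3429, o3756, l8184, l7982] l8188 := rupP (by decide +kernel)
theorem r8189 : PImp [l7190, l4082, o714, l5925, l4208, o688, l4204, l5989, l2708, l2555, l4087, l481, l480, l2681, l7707, l3491, l3473, l2668, l3219, l8172, l8188, l7978, l8187, l6862, o5290, o7774] l8189 := rupP (by decide +kernel)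
theorem r8190 : PImp [o3648, o3643, o3646, l7978, l2550, l2552, l5674, l3931, l3901, o4274, l5871, o7757] l8190 := rupP (by decide +kernel)
theorem r8191 : PImp [l5989, l2708, l7190, l4082, l4087, l481, l480, l5925, l2681, l7707, l3491, l3473, l2668, l4204, o694, o714, l8186, o9087, o4841, l8189, l8190, o3427, o3429, o3754, o3756, l8176, l8184, o5681, l5669, l650, o2269, o1465, o7897] l8191 := rupP (by decide +kernel)
theorem r8192 : PImp [o3648, o3647, l8173, l7986, l8006, l8007, l19, o7752] l8192 := rupP (by decide +kernel)
theorem r8193 : PImp [l4087, o5285, o5286, l8009, o2712, l8171, l3234, l5871, l4299, o4262, l4472] l8193 := rupP (by decide +kernel)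
theorem r8194 : PImp [l4087, l2662, l3927, l3117, o3427, o3752, o3845, o3844, l8193, o5683, o5590, o5719, o5718, l5871, l3107, o7877, l2453, o1499, l598, l6923, o2712, o2321, l5218, o7876, l3579] l8194 := rupP (by decide +kernel)
theorem r8195 : PImp [o3647, o3648, l7986, l8007, l8006] l8195 := rupP (by decide +kernel)
theorem r8196 : PImp [o3648, o5285, l8009, l8195, l7978, l2550, l5871, o8119, l4581] l8196 := rupP (by decide +kernel)
theorem r8197 : PImp [l2477, l4280, l4260, o730, o727, o699, l8194, o3648, l8196, o5590, o5588, l5871, l7985, l8011] l8197 := rupP (by decide +kernel)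
theorem r8198 : PImp [l8173, l8190] l8198 := rupP (by decide +kernel)
theorem r8199 : PImp [o5408, o5405, l3223, l3219, o5285, o5286, o5287, o5290, l8003, l8183, l8021, l8181, l7982, l2474, o5642, o4636, l8180, l3234, l2382, l3616, o8268, l2648] l8199 := rupP (by decide +kernel)
theorem r8200 : PImp [l4209, l5989, l7190, l4602, l2708, l4082, l3927, l2603, l481, l480, l5925, l2681, l7707, l3491, l1244, l4087, l4183, l2662, l2661, l2660, l3473, l4208, l2668, l3119, l3118, l3117, l8197, l4204, o694, o688, o714, l8191, o9163, o4813, l8198, o3427, o3428, o3429, o3754, o3753, o3756, o3757, o3847, l8199, o5679, o5681, l5669, l650, l7982, o2269, o1465, o7897] l8200 := rupP (by decide +kernel)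
theorem r8201 : PImp [l7978, l8190, l6862, o7774, o8115] l8201 := rupP (by decide +kernel)
theorem r8202 : PImp [o3429, o3427, l8188, l8176] l8202 := rupP (by decide +kernel)
theorem r8203 : PImp [o3756, o3753, o3429, o3427, l3219, o5285, o5286, o5287, o5290, l8021, l2474, l8202, l8183, l7982, o4636, l8180, l3234, l2382, l3616, l2648, o8268, o8649] l8203 := rupP (by decide +kernel)
theorem r8204 : PImp [l5989, l2708, l7190, l4082, l481, l480, l5925, l2681, l7707, l3491, l3473, l2668, l4204, o714, l8201, o3756, l8203, o5679, l5669, l650, o8698] l8204 := rupP (by decide +kernel)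
theorem r8205 : PImp [l7987, l5871, l5680, o8119] l8205 := rupP (by decide +kernel)
theorem r8206 : PImp [l1145, l1209, l1210, o5285, o5286, o5287, l8205, l8026, l7978, l2550, l2551, l5871, l3611, o4262, l3915] l8206 := rupP (by decide +kernel)
theorem r8207 : PImp [o3648, o3647, l8206, o5590, o5588, l5871, l7985, l8011] l8207 := rupP (by decide +kernel)
theorem r8208 : PImp [l4087, o5285, o5286, l8205, o2712, l8171, l3234, l5871, l4299, o4262, l4472] l8208 := rupP (by decide +kernel)
theorem r8209 : PImp [l3772, l4231, l5035, l4118, l4525, l5034, o5514, l5989, l7190, l4602, l2708, o3582, l4082, l2555, l481, l480, l5925, l2681, l7707, l3491, l1244, l4087, l4183, o3556, l7703, l2996, l1145, l1209, l1210, l2662, l3927, l3473, l4208, l4127, l4129, l2991, l2668, l3117, l3219, l3089, l3090, o2534, o2557, l8064, l8155, l3292, l3976, o4199, o4204, o4212, o4223, l4060, l4062, l5690, l4031, l3986, l3100, o2478, l3320, l5671, o2688, l8167, l2657, l2711, o8866, o5408, l5651, l5434, l2834, l2836, l4132, l4209, l8185, l8200, o9074, o4834, o4798, l8204, l2477, l4280, l4260, o730,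 o699, l8207, o3427, o3752, o3844, l8208, o5683, o5590, o5588, o5719, l5871, l3107, o7877, l2453, o1499, l598, l6923, o2713, l3162, l2759, l4628, l3598] l8209 := rupP (by decide +kernel)
theorem r8210 : PImp [l5989, l5925, l2681, l481, l480, l7707, l3473, l3491, l7703, l2996, l4087, l8158, l5034, l4967, l4966, l8209, l3075, o2463, o2449, l8096, l5050, o3971, o3979, l4049, l5022, o3915, l5659] l8210 := rupP (by decide +kernel)
theorem r8211 : PImp [l4087, l481, l480, l5989, l5925, l2681, l7707, l3473, l7703, l5034, l8210, l4763, l7860, o2463, o2449, l8083, l5050, l8118, o3971, o3979, o3915, l5659] l8211 := rupP (by decide +kernel)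
theorem r8212 : PImp [l8118, l6156, l8164] l8212 := rupP (by decide +kernel)
theorem r8213 : PImp [l2557, l7703, l2996, l3759, o5004, o4996, l3216, l2994, l3794, o4352, l4087, o4333, l4183, l481, l480, l5989, l5925, l2681, l7707, o3556, l1145, o4555, l1209, l1210, l2662, l3927, l3491, l3473, l2808, l2991, l2668, l3117, l3219, l3008, l2603, l7190, l4084, l4602, l7976, o3582, o5512, o5514, o5511, o5013, o9044, l4593, l4189, o4866, o4901, l4779, l4767, l4970, l4971, l4966, l4967, l8211, l8103, l4763, l3960, l8043, l7871, l3303, l3075, o2463, o2449, l8212, o9074, o5348, o5368, l3532, l5651, l5434, l3494, l4533, l4535, l2779, l4549] l8213 := rupP (by decide +kernel)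
theorem r8214 : PImp [o3582, o9153, o9167, l5511] l8214 := rupP (by decide +kernel)
theorem r8215 : PImp [l2544, o2924, l5528, o9076, o6616, l8127] l8215 := rupP (by decide +kernel)
theorem r8216 : PImp [l7703, l328, l5035, o5818, l8215, l8214, l2617, l2571, l8127] l8216 := rupP (by decide +kernel)
theorem r8217 : PImp [o3582, l2617, o9056, l2571] l8217 := rupP (by decide +kernel)
theorem r8218 : PImp [l5034, l1145, l1210, l3089, o2534, o2442, o2569, l8064, l8148, l8132, o6034, o4162, l3100, l6059] l8218 := rupP (by decide +kernel)
theorem r8219 : PImp [l5034, o876, l3843, l8218, l3075, o2463, o2449, l8096, l5050, l6156] l8219 := rupP (by decide +kernel)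
theorem r8220 : PImp [l5034, l4087, l4763, l7860, o2463, o2449, l8083, l8212] l8220 := rupP (by decide +kernel)
theorem r8221 : PImp [l3336, o4555, l5035, l4834, l3422, l3423, l7703, l1209, l1210, l3118, l3115, l3223, o4286, o4836, o4811, l3856, l6464, l4132, l2836, o9087] l8221 := rupP (by decide +kernel)
theorem r8222 : PImp [l4087, l1145, l1210, l4231, l4086, l8220, l8219] l8222 := rupP (by decide +kernel)
theorem r8223 : PImp [l4967, l4966, l4087, l1145, l1209, l1210, l481, l480, l5989, l5925, l2681, l7707, l3491, l3473, l2991, l2668, l8222, l8103, l4763, l3960, l7871, o2463, o2449, l8152, l8212] l8223 := rupP (by decide +kernel)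
theorem r8224 : PImp [o2534, o2569, l8148, l8132, o4162, l3100, l4060] l8224 := rupP (by decide +kernel)
theorem r8225 : PImp [l5034, o876, l3843, l8224, l3075, o2463, o2449, l8096, l5050, o3971, o3979, o3915, l5659] l8225 := rupP (by decide +kernel)
theorem r8226 : PImp [l1145, l1210, l5034, l4231, l4086, l8225, l4763, l7860, o2449, l8083, l5033, l5029] l8226 := rupP (by decide +kernel)
theorem r8227 : PImp [l8146, l481, l480, l5989, l5925, l2681, l7707, l7706, l7703, l2996, l3759, o5004, o4996, l5035, l4834, l3216, l2994, l3794, o4352, l4087, o4333, l1145, o4555, l3422, l3423, l1209, l8035, l3491, l4856, l4847, l4854, l2661, l3927, l3473, l4129, l2991, l2988, l2668, l3219, l4832, l4844, l3008, l328, l8166, l2555, l2557, l8213, l2615, l2614, l8216, o5512, o5514, o5013, l4593, l4189, o4866, o4901, l4779, l4970, l4971, l4966, l4967, l4767, l8217, o3749, l2544, o2924, o9146, o9135, o8921, o6731, o813, l5660, o8728, o5406, o5408, l3532, l8221, l8223, l8226, l4184, l8103, l3960, l3954, l7871, o2449, l8152, l3262, l4549, o4193, o5911, o6031] l8227 := rupP (by decide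 +kernel)
theorem r8228 : PImp [l5272, o4571, o5824, l3223, l2603, l8108, l2555, l2557, l7977, l7735] l8228 := rupP (by decide +kernel)
theorem r8229 : PImp [l7703, l8146, l1145, o4555, l5272, l8035, l5035, l481, l480, l5989, l5925, l2681, l7707, l3491, l4856, l4847, l7706, l3927, l2987, l2668, l4832, l4844, l4834, l328, l3422, l8227, o5824, o4571, l8228, l2615, l8144, l7935, l2584, o6584, l2576, o6374] l8229 := rupP (by decide +kernel)
theorem r8230 : PImp [l481, l480, l5989, l5925, l2681, l7707, l7706, l2661, l3118, l3117, l3115, l7703, l8146, l1145, l1210, o4555, l8229, o3468, o3467, o3469, l3444, l4165, l4164, l4163, o8656, o8350, l34, l768, l6273] l8230 := rupP (by decide +kernel)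
theorem r8231 : PImp [l2713, l8154, l8036, l2544, o9066, o9057] l8231 := rupP (by decide +kernel)
theorem r8232 : PImp [l3444, l5035, l4832, l4844, l4834, l7703, l328, l2603, l8231, l2557, l7190, l4084, l7976] l8232 := rupP (by decide +kernel)
theorem r8233 : PImp [l3444, l3927, l5035, l4832, l4844, l4834, l8232, l2615, l8125, l8216, l2557] l8233 := rupP (by decide +kernel)
theorem r8234 : PImp [l3444, o3582, l2713, l3927, l2603, l7703, o5099, l4967, l4966, o5514, l4767, l4779, o5512, l4189, l4593, o5511, l481, l480, l5989, l5925, l2681, l7707, o3556, l3423, l4183, l4138, l2662, l2661, l3491, l3473, l2991, l2992, l2668, l3216, l3117, l3219, l5035, l4832, l4844, l4834, l2571, o9075, o8978, o8525, o4840, o5348, o5368, l4888, l4896, l3532, l8092, l2711, l7873, l5238, l3509, l3512, l7890, l7943, l5034, l4233, l4086, l3200, l3201, l3197, l7797, l342, l2882, l2871, l2873, l2874, l2875, l7889, l3669, l7885, l435, l436, l3721, l3715, l4347, l4346, l7854, l4972, l7879, l7830, l7858, l4763, l7860, o2449, l8083, l5022, l5050] l8234 := rupP (by decide +kernel)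
theorem r8235 : PImp [l3509, l3512] l8235 := rupP (by decide +kernel)
theorem r8236 : PImp [l5035, l4832, l4844, l481, l5925, l5989, l2668, l7703, l2987, l2681, l480, l7707, l8230, o4888, l1210, o4894, o4561, l7706, l3927, l3216, l2742, o4992, l4834, l2740, l4087, o2759, o6795, l3444, l3491, l8233, o5514, l4767, l2603, l7737, o5016, l3008, o4882, l4971, l4970, o3582, l8234, l4084, l4610, l7898, l8235, l5434, l6184, l3496, l8092] l8236 := rupP (by decide +kernel)
theorem r8237 : PImp [l7117, l3308, l7908, l4070, l3075, l2779, l6301] l8237 := rupP (by decide +kernel)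
theorem r8238 : PImp [l7703, l328, o2924, l4967, l4087, l2662, l2661, l2660, l5989, l481, l480, l5925, l2681, l7707, o3464, l3491, l3473, l4128, l4129, l2991, l2988, l2987, l2992, l2668, l3223, l2590, l2583, l4896, o4287, o4840, o4841, o4843, o4842, o4844, o8525, l1594, o9163, l7726, o8353, l2710, l3516, o1582, l3856, l668, l4132, l5238, l8235, l2251, o8504, o9087, l8102, l8237, l3960, l7871, l7814, l3308, l1074, l7199] l8238 := rupP (by decide +kernel)
theorem r8239 : PImp [l7703, l2992, l4896, l4888, l4967, l4966, l3216, l7900, l3201, l3199, l7910, o3280, l7797, l6190, l7911, l3681, l3688] l8239 := rupP (by decide +kernel)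
theorem r8240 : PImp [l7703, l8230, l5989, l5925, l2681, l481, l480, l7707, l3491, l7706, o4894, o4561, o4888, l1210, l3927, l3216, l2742, o4992, l5035, l4832, l4834, l2740, l4087, o2759, o6795, l8233, o5016, o5099, l4967, l4966, o5514, l4767, l4779, l3444, o5512, l4189, l4593, o3556, l3423, l4183, l1209, l3008, o4882, l4971, l4970, o4878, o4346, l3345, l3473, l4129, l2808, l2807, l2991, l2987, l2992, l2668, l3119, l3118, l3117, l3116, l3115, l3219, l4844, l328, l2603, l7737, l8236, o2924, l8238, o6768, o6342, l1594, o5355, o4843, o5385, l3532, l4888, l4896, l2711, l7873, l5238, l8235, l8239, l8102, l8103, l3960, l7871, l7814, l3075, l5045, l4533, l4535, o3906, l4549] l8240 := rupP (by decide +kernel)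
theorem r8241 : PImp [l8230, o4894, o4561, l7703, o4888, l1210, l481, l480, l5989, l5925, l2681, l7707, l7706, l3927, l3216, l2742, o4992, l5035, l4832, l4834, l2740, l4087, o2759, o6795, l3444, l3423, l1209, l3008, o4882, l4971, l4970, o4878, l2661, l3491, l3473, l4129, l2991, l2992, l2668, l3118, l3219, l4844, l328, l8233, o5016, o5512, o5514, o5099, l4593, l4189, l4779, l4767, l4966, l4967, l8240, l2615, l2614, l8125, l2555, l2557, l8217, o3749, l2544, o2924, o9146, o6731, o6374, o813, o9135, l5660, o8728, o5406, o5408, l3532, l7873, l4132, l3509, l2836, o9087, o4841, l4888, l4896, l8130, l8103, l3960, l7871, l7814, l3075, l4549, l5045, l2779, l4533] l8241 := rupP (by decide +kernel)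
theorem r8242 : PImp [o3582, l20, l4083, l7732] l8242 := rupP (by decide +kernel)
theorem r8243 : PImp [l7703, l328, l5035, l2713, l8108, l8242, o2924, l2574, l5518, o6342] l8243 := rupP (by decide +kernel)
theorem r8244 : PImp [o5824, l3223, l2603, l8243, l2555, l2557, l7737, l7735, o6382, l5741] l8244 := rupP (by decide +kernel)
theorem r8245 : PImp [l2571, l2584, o9056, o8921, l2576] l8245 := rupP (by decide +kernel)
theorem r8246 : PImp [l8230, o4894, o4561, l7703, o4888, l1210, l481, l480, l5989, l5925, l2681, l7707, l7706, l3927, l3216, l2742, o4992, l5035, l4832, l4834, l2740, l4087, o2759, o6795, l3444, l3423, l3008, o4882, l4971, l503, o4871, l3491, l2987, l2668, l4844, l8241, o5824, o4571, l8244, l2615, l8144, l2557, l8245, l4084, l7935, o9146, o8989] l8246 := rupP (by decide +kernel)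
theorem r8247 : PImp [l5034, l3089, o2569, l7963, l4060, l7120, o3895] l8247 := rupP (by decide +kernel)
theorem r8248 : PImp [l8103, l4763, l3960, l7871, o2463, o2449, l8152, l8118, l4546, l8164] l8248 := rupP (by decide +kernel)
theorem r8249 : PImp [l3223, l3219, l5434, l3856, l5651, l3859] l8249 := rupP (by decide +kernel)
theorem r8250 : PImp [o1742, l4055, o4022, o4029, o6248, o6249, o1596, o1765, l7207] l8250 := rupP (by decide +kernel)
theorem r8251 : PImp [l5034, o2555, o2557, l8250, l4060, l7120, o3895] l8251 := rupP (by decide +kernel)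
theorem r8252 : PImp [l5034, l3772, l8251, l3075, o2449, l8096, l8118, l5050, l4049] l8252 := rupP (by decide +kernel)
theorem r8253 : PImp [l2713, l7703, l4967, l4966, l3927, l2603, l4087, l5035, l8248, l5034, l4117, l4118, l4086, l8252, l4763, l3321, l7860, l7207, o2449, l3261, l8083] l8253 := rupP (by decide +kernel)
theorem r8254 : PImp [l5034, l3089, o2534, o2560, l8064, l8148, l3282, o4173, l7207, l3320, o1595, l3986, l3266, l4060, o6053, o4201] l8254 := rupP (by decide +kernel)
theorem r8255 : PImp [l5034, l3843, l8254, l3075, o2449, l8096, l5050, l8118, l4049] l8255 := rupP (by decide +kernel)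
theorem r8256 : PImp [l7703, l5035, l5034, l4119, l4231, l4086, l8255, l4763, l3321, l7860, l7207, o2449, l3261, l8083] l8256 := rupP (by decide +kernel)
theorem r8257 : PImp [l3927, l3216, l2742, o4992, l2740, l4087, o2759, o6795, l2571, l2713, l7703, l4967, l4966, l2603, l4183, o4326, l3761, l2662, l2991, l2988, l2992, l3117, l3219, o9075, o8978, o8525, o4840, o5348, o5368, l4888, l4896, l3532, l8249, l8235, l8253, l8256, l8103, l4763, l3960, l7871, o2463, o2449, l8152, l8118, l8164, l4544, o3895, l4549] l8257 := rupP (by decide +kernel)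
theorem r8258 : PImp [l7703, o5016, o5099, l4967, l3927, l3216, l2742, o4992, l2740, l4087, o2759, o6795, o5512, l4189, l4593, o5511, l2603, l481, l480, l5989, l5925, l2681, l7707, o3556, l4183, l2662, l2661, l2660, o3464, l3491, l3473, l4128, l4129, l2991, l2988, l2992, l2668, l3119, l3118, l3117, l3116, l3115, l3223, l8257, l2707, l2590, l2583, l4896, o4287, o4840, o4841, o4843, o4842, o4844, o9074, o8525, l1594, o8353, o1559, l3516, o1582, l3856, l668, l4132, l4209, l5238, l8235, l2251, o3783, o8504, o9087, l8185, o8678, o5340, l8256, l8237, l4763, l3960, l7871, o2449, l8152, l5051, l8118, l6130] l8258 := rupP (by decide +kernel)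
theorem r8259 : PImp [l3219, o5406, o5408, l3532, l8249] l8259 := rupP (by decide +kernel)
theorem r8260 : PImp [l5434, l4180, l2809, l8259, o5812, l668, o8376] l8260 := rupP (by decide +kernel)
theorem r8261 : PImp [l5034, l3089, l8247, o2569, l7957, l4060, l7120, o3895] l8261 := rupP (by decide +kernel)
theorem r8262 : PImp [l5034, l8261, o2449, l6465, l5050, l3308, o3957, o3949, l4049, l3991, l4995] l8262 := rupP (by decide +kernel)
theorem r8263 : PImp [l4087, l5034, l8262, l4763, l7860, o2449, l8083, l8118, l5033, l5029] l8263 := rupP (by decide +kernel)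
theorem r8264 : PImp [l4967, l4966, l4087, l8263, l8103, l3960, l7871, o2449, l8152, l4552, o3895, l7120, l6130] l8264 := rupP (by decide +kernel)
theorem r8265 : PImp [o6295, o6280] l8265 := rupP (by decide +kernel)
theorem r8266 : PImp [l3089, o2534, o2538, o2569, l8064, l8148, l3293, l3282, o4173, o4191, l8265, l3320, o1529, l3986, o6311, l7120, o4007] l8266 := rupP (by decide +kernel)
theorem r8267 : PImp [l5034, l2711, l3843, l8161, l8266, o2449, l6465, l5050, l3308, o3957, o3949, l4049, l3991, l4995] l8267 := rupP (by decide +kernel)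
theorem r8268 : PImp [l4087, l5034, l4231, l4232, l8267, l4763, l7860, o2449, l8083, l8118, l5033, l5029] l8268 := rupP (by decide +kernel)
theorem r8269 : PImp [l3308, o3944, o3895, l5817, l4549] l8269 := rupP (by decide +kernel)
theorem r8270 : PImp [l480, l5989, l5925, l2681, l3115, l7703, l2988, l3927, l3216, l2742, o4992, l2740, l4087, o2759, o6795, o5512, l4593, l8260, l8235, l5238, o5016, o5099, l4967, l4966, o5514, l4767, l4779, l4189, l2603, l481, l7707, l3491, l3473, l4129, l2808, l2807, l2991, l2992, l2668, l3119, l3219, l328, l2713, l8258, l4084, l4610, l2544, o2924, o8892, o9166, l1594, o5355, o4843, o5385, o5813, l3532, l4888, l4896, l8264, l8268, l8103, l3960, l7871, o2449, l8152, l8269, l7120, l6130] l8270 := rupP (by decide +kernel)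
theorem r8271 : PImp [l7190, l4602, l4082, l4209, l4087, l7993, l4204, o714, l7979, l8188, l8179, l8177] l8271 := rupP (by decide +kernel)
theorem r8272 : PImp [l4204, o714, l7979, l8188] l8272 := rupP (by decide +kernel)
theorem r8273 : PImp [l5218, l4475] l8273 := rupP (by decide +kernel)
theorem r8274 : PImp [l4087, l2477, l4280, l4260, l8192, o3427, l8031, o5590, o5589, l5871, l8273, o2712, l4474, l1510, l3930] l8274 := rupP (by decide +kernel)
theorem r8275 : PImp [l8271, l7190, l4602, l4082, l4209, l4087, l8274, l8177, l8272] l8275 := rupP (by decide +kernel)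
theorem r8276 : PImp [l4087, l2477, l4280, l4260, o730, l8008, o3427, o3844, l8031, o5590, o5589, o5719, l5871, l3107, l8273, o9085, o2712, l2453, l1510] l8276 := rupP (by decide +kernel)
theorem r8277 : PImp [l7190, l4602, l4082, l4209, l4087, l8271, l8275, l8276, l4204, o694, o714, l8272, l7979, l8202, o3754, o3756, o5679, o5681, l5669, l650, o2269, o1465, o7897] l8277 := rupP (by decide +kernel)
theorem r8278 : PImp [l7190, l4602, o5099, l4967, l4087, l2477, l4280, l4260, l7991, l8030, l8031, o3427] l8278 := rupP (by decide +kernel)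
theorem r8279 : PImp [l7190, l4082, l4204, o714, l8020, l8202, o3756, o5679, l5669, l650, o8698] l8279 := rupP (by decide +kernel)
theorem r8280 : PImp [l7190, l4602, o5099, l4967, l4966, l4087, l8277, l1247, l8279, l2477, l4280, l4260, l8278, l8030, o3427, l8031, o5590, o5588, o5589, l5871, l8011, l8273, o2712] l8280 := rupP (by decide +kernel)
theorem r8281 : PImp [l8180, l2494, o4263, l7291] l8281 := rupP (by decide +kernel)
theorem r8282 : PImp [l7982, o5243, o5247, o4658, o5679, o5262, l8021, l7997, o2716, l8281, l3235, l3599, l6842] l8282 := rupP (by decide +kernel)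
theorem r8283 : PImp [l7190, l4082, l4204, o694, o714, l7979, o3427, o3429, o3754, o3753, o3756, l8282, l8183, o5679, o5681, l5669, l650, o2269, o1465, o7897] l8283 := rupP (by decide +kernel)
theorem r8284 : PImp [l7190, l4602, l4209, o5099, l4087, l8283, l7993, l8274, l8276] l8284 := rupP (by decide +kernel)
theorem r8285 : PImp [l7190, l4082, l4204, o714, l8020, o3427, o3429, o3753, o3756, l8282, l8183, o5679, l5669, l650, o8698] l8285 := rupP (by decide +kernel)
theorem r8286 : PImp [o5099, l4967, l4209, l5989, l5925, l2681, l480, l3509, l2834, l8185, l2992, l4896, l4888, l7190, l4602, l2708, l8235, l5238, l4966, l4087, l481, l7707, l3491, l3473, l2668, l3219, l8280, l8284, l1247, l8285, l2477, l4280, l4260, l8278, l8030, o3427, l8031, o5590, o5588, o5589, l5871, l8011, l8273, o2712] l8286 := rupP (by decide +kernel)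
theorem r8287 : PImp [l4525, l3303, o1742, l3100, l4055, o4022, o4036, o3978, o6248, l3968, o1596, l5671, o2688, l4718, l4720] l8287 := rupP (by decide +kernel)
theorem r8288 : PImp [l5034, l4967, l3090, o2555, l8287, l4060, l7120, o3895] l8288 := rupP (by decide +kernel)
theorem r8289 : PImp [l7703, l4967, l4966, l4087, l5035, l8103, l5034, l4117, l8288, l3075, o2449, l8096, l5050, l4049, l3308, o3957, o3949, l3991, l4995] l8289 := rupP (by decide +kernel)
theorem r8290 : PImp [l4763, l4967, l4966, l4087, l8248, l5034, l7860, o2449, l8083, l5050, l5022] l8290 := rupP (by decide +kernel)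
theorem r8291 : PImp [l7190, l4602, o5099, l4967, l2477, l4280, l4260, l8030, o3427, o2975, l8031, o5590, o5588, l5871, l2759, l4467] l8291 := rupP (by decide +kernel)
theorem r8292 : PImp [l5989, l7190, l4602, l2708, l480, l5925, l2681, l8235, l5238, l4132, l7703, o5016, o5099, l4966, o5511, o5512, l2603, l2740, l4087, o4346, l481, l7707, l3491, l3473, l4127, l2991, l2992, l2668, l3118, l3219, o8504, o5353, o5371, o4841, o5344, o5811, l3532, l4888, l4896, l2657, l8286, l8289, l8290, l1247, l8291, l8279, l8285] l8292 := rupP (by decide +kernel)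
theorem r8293 : PImp [o3648, o3643, l8173, l7978, l2550, l2552, l5674, l3931, l3870, o4266, l5871, o7757] l8293 := rupP (by decide +kernel)
theorem r8294 : PImp [l7190, l4082, l4087, l4204, o694, o714, l8293, o3427, o3429, o3754, o3756, l8202, l8188, l8184, o5681, l5669, l650, o2269, o1465, o7897] l8294 := rupP (by decide +kernel)
theorem r8295 : PImp [l2477, l4280, l4260, o730, o727, o699, l8194, o3648, o3646, l8196, o5590, o5588, l7985, l5871, l4466, l1510, l3931] l8295 := rupP (by decide +kernel)
theorem r8296 : PImp [o3757, o3756, o3753, o3429, o3427, l3223, l3219, o5285, o5287, o5290, l8203, l8183, l8021, o4778, l7982, l2483, l8281, o5664, l2293, l2388, l2380, l620, o8264, o1488] l8296 := rupP (by decide +kernel)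
theorem r8297 : PImp [o5723, l7190, l4602, l4082, l4209, l4087, l2660, l4208, l8295, l4204, o694, o688, o714, l8294, l8293, o3754, o3756, o3848, l8296, o5679, o5681, l5669, l650, l7982, o2269, o1465, o7897] l8297 := rupP (by decide +kernel)
theorem r8298 : PImp [o3643, l7978, l2552, o2339, l6862, l5674, o7774, l2651, o5290, o8115, l4274, l3870, o3414, o4658, o7766] l8298 := rupP (by decide +kernel)
theorem r8299 : PImp [l2555, l8298, o3427, o3429, o3756, l8184, l5669, l650, o8698] l8299 := rupP (by decide +kernel)
theorem r8300 : PImp [o3648, o3643, l7978, l2550, l2552, l6862, l5674, o7774, l3931, o8115, l3870, o4266, l5871, o7757] l8300 := rupP (by decide +kernel)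
theorem r8301 : PImp [l7190, l4082, l4087, l4208, l4204, o688, o714, l8299, l8300, o3756, o3848, l8296, o5679, l5669, l650, o8698] l8301 := rupP (by decide +kernel)
theorem r8302 : PImp [o5723, l7190, l4602, o5099, l4967, l4966, l4087, l2662, l2660, l3927, l4208, l3117, l8297, l1247, l8301, l2477, l4280, l4260, o730, o727, o699, l8207, o3427, o3752, o3845, o3844, l8208, o5683, o5590, o5719, o5718, l5871, l3107, o7877, l2453, o1499, l1510, l6923, o2712, o2321, l5218, o7876, l3579] l8302 := rupP (by decide +kernel)
theorem r8303 : PImp [o3756, o3429, o3427, o5723, l8202, l8188, l8184, o5585, l5669, l650, l3161, l2651, l4921] l8303 := rupP (by decide +kernel)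
theorem r8304 : PImp [o5723, o3756, o3848, o2976, l8303, l8296, o5679, o5585, l5669, l650, l7982, l3161, l2651, l4921] l8304 := rupP (by decide +kernel)
theorem r8305 : PImp [l2980, l2985, l5674, l3870, l3931, o4266, l5870, o7757] l8305 := rupP (by decide +kernel)
theorem r8306 : PImp [l2992, l4896, l4888, l2708, l7190, l4082, l2555, o5099, l4967, l4966, l4087, l4208, l4204, o688, o714, l8304, l7978, l2550, l2552, o2340, l6862, o7774, o5290, o8115, l8305, l2858, o3439, l3556, l4274, l2650, l6898, o8652] l8306 := rupP (by decide +kernel)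
theorem r8307 : PImp [l2608, l8016, l8014] l8307 := rupP (by decide +kernel)
theorem r8308 : PImp [o3434, l8208] l8308 := rupP (by decide +kernel)
theorem r8309 : PImp [o5285, o5287, l8308, l8307, l8007, o8021, l2550, l2467, l4581] l8309 := rupP (by decide +kernel)
theorem r8310 : PImp [o5590, l5871, l2550, l6194, l5728, l5510, l2606, l8016, l2462, l2469] l8310 := rupP (by decide +kernel)
theorem r8311 : PImp [o5099, l4967, l4966, l8310, l8308, l8309, l2980, l2981, l8206] l8311 := rupP (by decide +kernel)
theorem r8312 : PImp [l7190, l4602, l2708, l4209, o5016, o5099, l4967, l2660, l4208, l2992, l3219, o4497, o4975, l4888, l4896, o5723, l3532, l2657, l8185, l8302, l8306, l2477, l4280, l4260, o691, o699, l8311, o3427, o3755, o2974, l8308, o5680, o5590, l5871, l5218, l3572, l762, o7868] l8312 := rupP (by decide +kernel)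
theorem r8313 : PImp [l4332, l4336] l8313 := rupP (by decide +kernel)
theorem r8314 : PImp [o5584, o7660, o7460, o3841] l8314 := rupP (by decide +kernel)
theorem r8315 : PImp [l3239, l3236, o5231, o5232, o5234, l2413, l2439, l7334, l2975, l4496, l4494] l8315 := rupP (by decide +kernel)
theorem r8316 : PImp [l7703, o5099, l4967, l5035, l5102, l3239, l3101, l6442, l2549, l2425, l5173, l3322, l2609, l8315, o5517, o5519, l8314, o7453, l4079, o2710, l4488] l8316 := rupP (by decide +kernel)
theorem r8317 : PImp [l5035, l2425, l2424, l1128, l648, o3640, l2317, o7460, o7608] l8317 := rupP (by decide +kernel)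
theorem r8318 : PImp [l3926, l3324, l3327, l8317, l4588, l5093, l5149, l5140, l5080] l8318 := rupP (by decide +kernel)
theorem r8319 : PImp [l5035, l4832, l4844, l7190, l4602, l2708, l4209, l7703, o5099, l4967, l4966, l4834, l4087, l4208, l4127, l8318, l8316, l8177, l2477, l4280, l4260, o730, o727, o699, l8311, l8194] l8319 := rupP (by decide +kernel)
theorem r8320 : PImp [o8021, o7929] l8320 := rupP (by decide +kernel)
theorem r8321 : PImp [l8320, l6862, l656] l8321 := rupP (by decide +kernel)
theorem r8322 : PImp [l8321, l5708, l6194, o7774] l8322 := rupP (by decide +kernel)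
theorem r8323 : PImp [o5285, o5287, o5290, l27, l8021, o8187, l8175, l2608, l8174, l4949, o2713, o4263, l1446] l8323 := rupP (by decide +kernel)
theorem r8324 : PImp [l7190, l4082, l4204, o694, o714, l8177, l8322, o3427, o3429, o3754, o3756, l8323, o5679, o5681, l5669, l650, o2269, o1465, o7897] l8324 := rupP (by decide +kernel)
theorem r8325 : PImp [l2981, l2467, l8005] l8325 := rupP (by decide +kernel)
theorem r8326 : PImp [l3223, l3219, o5285, l8007, l2606, l2607, o1537, o1534, l8325, o3434, o3435, o3437, l2469, l2381, l2382, l2378, l54, l762, l677] l8326 := rupP (by decide +kernel)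
theorem r8327 : PImp [l2980, l2827, l8011, l28, l1091, l2381] l8327 := rupP (by decide +kernel)
theorem r8328 : PImp [l3107, l2550, o7877, l5510, o1601] l8328 := rupP (by decide +kernel)
theorem r8329 : PImp [o5099, l4966, l3219, l8173, l8326, o5683, o5682, o5590, o5588, o5719, o5718, l8327, o3435, o3524, o3525, l8328, l2385, l2382, o7966, o7921, o1498] l8329 := rupP (by decide +kernel)
theorem r8330 : PImp [l7987, o2712, o2715, l5218, l3932, l3578, l3613, l4457, l3175, o4672, o7965] l8330 := rupP (by decide +kernel)
theorem r8331 : PImp [l3223, l3219, o5285, o5286, l8330, l2381, l2382, l2378, l4580, l2450, l2451, l2447, l54, o8287, l762, l676] l8331 := rupP (by decide +kernel)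
theorem r8332 : PImp [l762, o7868] l8332 := rupP (by decide +kernel)
theorem r8333 : PImp [o3427, o3752, o3753, o3755, o3847, l8331, o5680, o5682, l8332, o1469, o7826, o7921] l8333 := rupP (by decide +kernel)
theorem r8334 : PImp [l8246, l481, l480, l5989, l5925, l2681, l7707, l8230, o4894, o4561, l7703, o4888, l1210, l7706, l3927, l3216, l2742, o4992, l5035, l4832, l4834, l2740, l4087, o2759, o6795, l3444, o3556, l3122, l3345, o5008, l4138, o9176, l3423, l4183, l1209, l3008, o4882, l4971, l4970, l503, o4871, o4878, o4346, l2662, l2661, l2660, l3491, l3473, l4208, l4127, l4129, l2808, l2988, l2987, l2668, l3121, l3119, l3118, l3117, l3115, l3223, l3219, l4844, l2603, l8232, o5016, o5512, o5514, o5099, l4593, l4189, l4779, l4767, l4966, l4967, l8260, l4132, l4130, l4209, l5238, l3509, l8235, l2834, l2837, l2836, l8270, l2555, l2557, l7190, l4084, l4082, l4602, o3582, l2708, o9044, l8292, l8312, o4287, o4840, o4841, o4843, o4842, o9074, o8525, o9087, l1594, o9163, o8505, l1246, l7726, l4445, o1551, l2254, o1607, l8185, o8866, l8319, l8324, l2477, l4280, l4260, o730,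 o727, o722, o691, o699, o695, l8333, l8322, l8329, l8326, o5680, o5683, o5590, o5588, o5719, l8327, o3437, o3524, l8332, l8328, o8673, l2378] l8334 := rupP (by decide +kernel)
theorem r8335 : PImp [l5035, l4834, o4566, l7973, o4725, l4896] l8335 := rupP (by decide +kernel)
theorem r8336 : PImp [l4084, l2539, l7760] l8336 := rupP (by decide +kernel)
theorem r8337 : PImp [l2615, l3444, l5035, l4834, l7703, l328, l2713, l8335, l495, l4593, l4779, l8336, l2596, l6261, o2924, l6294] l8337 := rupP (by decide +kernel)
theorem r8338 : PImp [l2550, l4583, o8209, l2613] l8338 := rupP (by decide +kernel)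
theorem r8339 : PImp [l2567, l8338, l2467, l4581] l8339 := rupP (by decide +kernel)
theorem r8340 : PImp [l2858, l4273, l4814] l8340 := rupP (by decide +kernel)
theorem r8341 : PImp [l2858, l8340, l3556, l3598] l8341 := rupP (by decide +kernel)
theorem r8342 : PImp [l8281, l2494, l8174, o2713, l1446, o8053] l8342 := rupP (by decide +kernel)
theorem r8343 : PImp [l2485, l2471] l8343 := rupP (by decide +kernel)
theorem r8344 : PImp [l4125, l2567, l5871, l43, l2550, o1527, o7878] l8344 := rupP (by decide +kernel)
theorem r8345 : PImp [l7703, l2980, l2803, l8344, l1446, l3235, l8305] l8345 := rupP (by decide +kernel)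
theorem r8346 : PImp [o5679, o5681, o5590, o5717, l8345, o3436, o3438, l7982, l5669, l650, o2269, o1465, o7897] l8346 := rupP (by decide +kernel)
theorem r8347 : PImp [l3235, l8305] l8347 := rupP (by decide +kernel)
theorem r8348 : PImp [l2567, l8338] l8348 := rupP (by decide +kernel)
theorem r8349 : PImp [l3930, l3931, l8325, l8014] l8349 := rupP (by decide +kernel)
theorem r8350 : PImp [o5285, o5287, o5289, l8349, l2646, l1510, l28, l3235, l4581, o4660, l3563, l3875] l8350 := rupP (by decide +kernel)
theorem r8351 : PImp [l328, o2924, o3650, o3651, o3712, o3714, o3648, o3643, o3645, l8350, o5679, o5683, o5590, o5587, l1509, l28, l7985, l3171, l2649, l4460] l8351 := rupP (by decide +kernel)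
theorem r8352 : PImp [o5285, o5286, o5288, l8308, l8348, l2980, l2985, l2827, l3234, l8350, l3611, l4290] l8352 := rupP (by decide +kernel)
theorem r8353 : PImp [l7703, o5099, l4967, l328, o2924, o6731, l2614, l3219, o756, l2477, l4280, l4260, o691, o699, o695, l8351, l8352, o5680, o5682, o5590, o5717, l5871, l8344, l2550, o3727, o3731, o7878, l8332, o1503, o7919, o7826, o2276] l8353 := rupP (by decide +kernel)
theorem r8354 : PImp [l1510, l5744, l3931] l8354 := rupP (by decide +kernel)
theorem r8355 : PImp [l5042, l1446, l5162, o4266, o4265, l3228, l3870, l4926] l8355 := rupP (by decide +kernel)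
theorem r8356 : PImp [l328, o2924, o3649, o3651, o3648, o3643, o3644, o3647, l8347, l8355, l1510, l3931, l6565, l6570] l8356 := rupP (by decide +kernel)
theorem r8357 : PImp [l2980, l2981, l2984, l2985, l8347, l8355, l8348] l8357 := rupP (by decide +kernel)
theorem r8358 : PImp [l8246, l8230, o4894, o4561, l7703, o4888, l1210, l481, l480, l5989, l5925, l2681, l7707, l7706, l3927, l3216, l2742, o4992, l5035, l4832, l4834, l2740, l4087, o2759, o6795, l3444, l3423, l1209, l3008, o4882, l4971, l4970, l2661, l3491, l3473, l4208, l4129, l2808, l2988, l2992, l2668, l3118, l3115, l3219, l4844, l328, l8334, l2615, l2614, l8337, l2555, l2557, l8216, l8217, o5016, o5512, o5514, o3749, l2544, o2924, o5099, l4593, l4189, l4779, l4767, o9146, o6731, o6374, l4966, l4967, l8260, o813, l7923, o9135, l5660, l4132, l4209, l3509, o8728, l2834, l2836, o5406, o9087, l3532, o4841, l2657, l4888, l4896, l8185, l8353, l4204, o694, l8356, l8346, o5285, o5286, o5287, o5290, l8357, o3435, l8341, l2474, l8342, l3234, l2382, l8175, l3616, l2648, o8268, o8649] l8358 := rupP (by decide +kernel)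
theorem r8359 : PImp [o5824, l3223, l7703, l328, l2603, l8243, l2555, l2557, l7977, l7735] l8359 := rupP (by decide +kernel)
theorem r8360 : PImp [l3216, l503, l5035, l4832, l4844, l4834, l7703, l3008, l481, l480, l5989, l5925, l2668, l2987, l2681, l7707, l3491, l7706, l3927, l8230, l2740, o4882, o4894, o4888, o4871, l2742, o4992, l4087, l4971, o4561, l1210, o2759, o6795, l3444, l3423, l8246, l8358, o5824, o4571, l8359, l2615, l8144, l2557, l8245, l4084, l7935, o9146, o8989] l8360 := rupP (by decide +kernel)
theorem r8361 : PImp [l8231, l8036, l4608, l2590] l8361 := rupP (by decide +kernel)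
theorem r8362 : PImp [l8110, l5653, l8094] l8362 := rupP (by decide +kernel)
theorem r8363 : PImp [l2590, l5653] l8363 := rupP (by decide +kernel)
theorem r8364 : PImp [o5818, l2713, l5035, l4834, l7703, l328, l8361, l8362, l8363, l4084, l4608, o3582, l4610, o9136] l8364 := rupP (by decide +kernel)
theorem r8365 : PImp [l8231, l8036, l4608, l2544, l7478] l8365 := rupP (by decide +kernel)
theorem r8366 : PImp [l2568, l5653, l7469, l2544] l8366 := rupP (by decide +kernel)
theorem r8367 : PImp [o3582, l4610, o9136] l8367 := rupP (by decide +kernel)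
theorem r8368 : PImp [l4183, l2713, l5035, l4834, l7703, l328, o5818, l8365, l8366, l4084, l8367, l4608, o2924, o6585] l8368 := rupP (by decide +kernel)
theorem r8369 : PImp [l626, o9174] l8369 := rupP (by decide +kernel)
theorem r8370 : PImp [l2568, l2571, o8978, l2707, o3824, l2590, o8467, o8685] l8370 := rupP (by decide +kernel)
theorem r8371 : PImp [l4183, l2713, o5407, l6818, l2711, l3336, l2658, o5380, l5035, l4834, l476, l3219, l5224, l3119, l3117, l3115, l2814, o3540, l6270, l4129, l2674, l627, o1544, o1593, l8368, o5812, o5810, l8369, o3795, o8525, l8370, l4084, l4082, o8892, l2544, o3852, l4610, l6179] l8371 := rupP (by decide +kernel)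
theorem r8372 : PImp [l7703, l8371, l3444, o4555, l3439, l1145] l8372 := rupP (by decide +kernel)
theorem r8373 : PImp [l5035, l4834, l7703, l2996, l3422, l494, o4555, o4561, l4789, o4884, l3006, l4860] l8373 := rupP (by decide +kernel)
theorem r8374 : PImp [o9173, l627] l8374 := rupP (by decide +kernel)
theorem r8375 : PImp [l3119, l3118, l3219, l4129, l2848, l4165, l4164, l1594, o3468, o3467, l6246, o8656, o8350] l8375 := rupP (by decide +kernel)
theorem r8376 : PImp [l6818, l476, l3219, l5175, l4252] l8376 := rupP (by decide +kernel)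
theorem r8377 : PImp [l2555, l7190, l4082, l4602, o8866, l2708] l8377 := rupP (by decide +kernel)
theorem r8378 : PImp [l3119, l8374, l5035, l4834, l8373, l8375] l8378 := rupP (by decide +kernel)
theorem r8379 : PImp [l8360, l476, l6818, l5035, l4834, l3219, l5224, o5380, l2658, l3119, l8374, o1545, o1544, l8376, l8378, l2848, l2711, l4832, l4844, o5407, l8372, l8377] l8379 := rupP (by decide +kernel)
theorem r8380 : PImp [l2571, l7766, l2544, l8107] l8380 := rupP (by decide +kernel)
theorem r8381 : PImp [l2713, l4084, o8892, l2544, l6045] l8381 := rupP (by decide +kernel)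
theorem r8382 : PImp [l3444, l2533, l491] l8382 := rupP (by decide +kernel)
theorem r8383 : PImp [l2713, l8381, l8380] l8383 := rupP (by decide +kernel)
theorem r8384 : PImp [l2571, l7719, l2544, l2578, o8936] l8384 := rupP (by decide +kernel)
theorem r8385 : PImp [l4600, o3582, l7736] l8385 := rupP (by decide +kernel)
theorem r8386 : PImp [l8360, l6818, l2711, l2658, l3933, o5380, l5035, l4834, l476, l3219, l5224, l3216, l3119, l8374, l3464, o1545, o1544, o1593, l8376, l4129, l1594, l8378, l8379, o5824, l8382, l8383, l2557, l8384, l4084, l8385, l2544, l4598, o8927] l8386 := rupP (by decide +kernel)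
theorem r8387 : PImp [l2249, o8374, o8350, o8375] l8387 := rupP (by decide +kernel)
theorem r8388 : PImp [l5521, o7830, l656] l8388 := rupP (by decide +kernel)
theorem r8389 : PImp [o5735, o5733, l27, l1697, o8187, o2269, o1536, o8229] l8389 := rupP (by decide +kernel)
theorem r8390 : PImp [o7947, o7850] l8390 := rupP (by decide +kernel)
theorem r8391 : PImp [l5521, l8388, l5532] l8391 := rupP (by decide +kernel)
theorem r8392 : PImp [o7791, o8237] l8392 := rupP (by decide +kernel)
theorem r8393 : PImp [l1705, o8027] l8393 := rupP (by decide +kernel)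
theorem r8394 : PImp [l2564, l2565, l8393, o2712, l4477, l4289, l4653] l8394 := rupP (by decide +kernel)
theorem r8395 : PImp [o5288, o5731, o5734, o4673, o4674, l8394, o2335, o2338, o2336, l678] l8395 := rupP (by decide +kernel)
theorem r8396 : PImp [o1537, o1534, o1535, o8285, l672] l8396 := rupP (by decide +kernel)
theorem r8397 : PImp [o5735, o5736, l8388, l27, o3754, o3756, o3757, o8187, l8389, l1697, o1539, o2258, o8226] l8397 := rupP (by decide +kernel)
theorem r8398 : PImp [l7293, o2339, o2337, o7774, o1538, o1536, l6862, l732, l5669, o3670, o8457, o7810] l8398 := rupP (by decide +kernel)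
theorem r8399 : PImp [o8229, o7897] l8399 := rupP (by decide +kernel)
theorem r8400 : PImp [o8328, o694, o688, o714, l8397, o5719, l8398, o3752, o3754, o3756, o3844, l8390, o1536, o1601, o7985, o1534, o2332, o7877, o740, l673, l8399, l1104, l1697, l5669] l8400 := rupP (by decide +kernel)
theorem r8401 : PImp [l3933, l2450, l2451, l2448, o8288, o8204, o8284, l2313, l4562] l8401 := rupP (by decide +kernel)
theorem r8402 : PImp [o5285, o5286, o5735, o5732, o5731, o4676, l8391, o3427, o3428, o3752, o3753, o3756, o3755, l8395, l7840, l8401, l4584, l3234, l5680, l3615, l3230, l3891] l8402 := rupP (by decide +kernel)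
theorem r8403 : PImp [o8127, l1497] l8403 := rupP (by decide +kernel)
theorem r8404 : PImp [l2564, o2332, o2329, l5510, l8393, l2607, o1538, o1536, o1601, o1603, o1534, l4474, o7877, o7874, o4608, o3710, o3706, o3696, l1091, l8403, o7785, o5606, l1104, o7706] l8404 := rupP (by decide +kernel)
theorem r8405 : PImp [l2269, o699, o691, o3648, o3647, l8404, o2335, o2338, o2336, l8392, o8210, o1534, l1091, o3680, o3683, l8396] l8405 := rupP (by decide +kernel)
theorem r8406 : PImp [l2269, o695, o699, o691, o2283, o2287, o7825, o7826, o8162, o8164, o5621, o5655, l740, o5601, l2286, l2327, l741, o8161, o8250, l2283, o8248] l8406 := rupP (by decide +kernel)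
theorem r8407 : PImp [o690, o695, o699, l2658, l2657, l8406, o7922, o8253, l4908, o8832, o4632, o5657, o8155, o8252, o8163] l8407 := rupP (by decide +kernel)
theorem r8408 : PImp [o8164, o5653, o7825, l1104, l29, l1279, o7918, o8248, o5627] l8408 := rupP (by decide +kernel)
theorem r8409 : PImp [o690, l2269, o699, l2657, l2564, o2332, o2331, o2330, o7877, o7876, o7875, l2453, o1499, o1495, o1498, o1497, o1492, o1494, l1705, l8407, o8459, l8185, o8155, l8408, o7922, o8253, o4632, l4908] l8409 := rupP (by decide +kernel)
theorem r8410 : PImp [l4208, l2711, l2477, l4280, o726, o730, o727, o722, o691, o699, o695, l8402, o5719, o5718, o5717, o5716, l8405, o3752, o3754, o3753, o3756, o3757, o3755, o3846, o3845, o3844, l8409, o2335, o2338, o2336, l8396, l8390, o7928] l8410 := rupP (by decide +kernel)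
theorem r8411 : PImp [l3239, o5581, o5582, o5583, o7481, l2318, l2345, o3151, o3603, l47, l2519, l4963, o1431, o5211, o4729, l747, o8221, o7416, o2220, o3628, o7640] l8411 := rupP (by decide +kernel)
theorem r8412 : PImp [l3236, o5232, o5233, o5235, l2519, l6276, l2346] l8412 := rupP (by decide +kernel)
theorem r8413 : PImp [l2424, l1128, l2796, l648, l5098, l2352] l8413 := rupP (by decide +kernel)
theorem r8414 : PImp [l3236, l5035, l2425, l2435, l8412, o5581, o5582, o5583, o5584, o7481, l2318, o3152, l2319, l47, o7418, o1431, o1424, l3325, o1410, l747, o649, l2406, o635, o7416, l4484, o3630, o3620, o4731, o4605, o7725, o7626, o2217] l8414 := rupP (by decide +kernel)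
theorem r8415 : PImp [o5511, l3344, l5102, l2513, l3236, l3101, l3102, l3103, l3106, l8414, l4588, l5151, l2419, l5078, l2364, l5095, l747, o5221] l8415 := rupP (by decide +kernel)
theorem r8416 : PImp [l2424, l1128, l2796, l648, l2352, l2421, l5084] l8416 := rupP (by decide +kernel)
theorem r8417 : PImp [o5514, l4767, l4779, l8415, l3925, l3926, l3327, l2644, l8416, l4588, l2418, l5093, l5149, l3236, l2349, l6423] l8417 := rupP (by decide +kernel)
theorem r8418 : PImp [l3236, o5295, l3624, o5239, o3432, o3388, o7639, o2214, l603, o1405, l8411, o5232, l2370, l6276] l8418 := rupP (by decide +kernel)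
theorem r8419 : PImp [l3239, l4303, l4305, l4298, l8418, o4415, l4963, l4964] l8419 := rupP (by decide +kernel)
theorem r8420 : PImp [o5295, o5239, l3623, o3432, o3521, o3388, o7625, o7478, l1308, o2215, o5568, o1404, l761] l8420 := rupP (by decide +kernel)
theorem r8421 : PImp [l8420, l5103, l3620] l8421 := rupP (by decide +kernel)
theorem r8422 : PImp [l4091, l4200, l4276, l4277, l8421] l8422 := rupP (by decide +kernel)
theorem r8423 : PImp [l2814, l7703, l2996, l2435, l2429, l8419, l3325, l8413] l8423 := rupP (by decide +kernel)
theorem r8424 : PImp [l5151, l2419, l5078, l2364, l5095, l747, o5221] l8424 := rupP (by decide +kernel)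
theorem r8425 : PImp [o5169, o4679, o5267, l8423] l8425 := rupP (by decide +kernel)
theorem r8426 : PImp [o5295, l3624, o5239, o5242, o3432, o3388, o7639, o2214, o2215, l603, o1404, l761, o635, o7699, l747, l2340, o5224, l2519] l8426 := rupP (by decide +kernel)
theorem r8427 : PImp [l3239, l3236, l2364, l8426, l456, l460, l450, o5230, l2518, l5075, l5096, l747, l2975, o3386, l3632, l2441, l2442, o636, o635, l4494, l1485, o4603, o2203, l761] l8427 := rupP (by decide +kernel)
theorem r8428 : PImp [o3708, o3706, o3524, l7703, l2994, o3171, l4909, o4632, l4183, o708, l4208, o688, l2814, l2250, o5514, l4767, o5512, l4593, o5511, o5513, l2257, o3540, l2815, l2996, l3344, l3334, l2658, l3933, l3121, l5035, l4832, l4844, l4834, o2283, o2287, o7730, o4624, o4628, o4640, o5655, o5602, o5601, l2327, l732, l2282, o8064, o3693, l2322, o3696, o3661, o8393, o7873, o8226, o7874, l4126, o728, o2252, o2245, o7731, o7702, l8417, l8318, l2510, l2512, l5102, l2513, l2515, l3236, l3102, l3103, l3104, l3106, l8422, l4303, l4298, l8424, l8425, o5324, l8427, l3323, l3325, l8317] l8428 :=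 rupP (by decide +kernel)
theorem r8429 : PImp [o5512, l4593, l1705, l7703, l2994, o3171, l4909, o694, l2814, l2257, o3783, l2250, l4129, o5514, l4767, l4189, o5513, l3423, l2657, l5035, l4832, l4844, l4834, l2473, o684, o740, l8393, o7877, o4599, o4632, o4611, o3710, o3706, l1091, l8428, o8459, o8443, o5653, o7730, l1104, l732, l6715, l5669] l8429 := rupP (by decide +kernel)
theorem r8430 : PImp [o5295, l3624, o5239, o3432, o3388, o7639, l1308, o2215, o1404, o1405, l761, l8411, o5597] l8430 := rupP (by decide +kernel)
theorem r8431 : PImp [l4963, l4964] l8431 := rupP (by decide +kernel)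
theorem r8432 : PImp [o7727, l2714] l8432 := rupP (by decide +kernel)
theorem r8433 : PImp [l3239, l8431, o4679, o5267, o4415, l8430] l8433 := rupP (by decide +kernel)
theorem r8434 : PImp [l3624, o5242, o3432, o3388, o7639, l1308, o2215, o1404, l761] l8434 := rupP (by decide +kernel)
theorem r8435 : PImp [o3667, l2322, l7703, l2994, o3171, l4909, o4632, o5714, l4208, o688, o694, o5514, l4767, o5512, l4593, o5511, l2814, o3821, l2257, o3540, l2815, l2996, l4183, l3344, l3334, l2658, l2657, l3933, l3121, l5035, l4832, l4844, l4834, o4622, o5650, l732, o5600, o5608, l2327, o8393, o8226, l767, l2314, o2278, o2258, o2252, l8399, o8373, o3436, o3733, o3660, o4763, o4766, o5644, l8417, l8318, l2510, l2512, l5102, l2513, l2515, l3236, l3239, l3102, l3103, l3104, l3106, l8432, l8422, l4303, l4305, l8424, l8431, l2435, l2428, l2432, l2438, o4730, l6373, o4604, l8433, l2969, o5324, l8434, l456, l460, l450, l445, l5106, l2518, l5075, l2415, o3432, l4573, l3632, l2441, o7639, l4494, o2215, o4603, l761] l8435 := rupP (by decide +kernel)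
theorem r8436 : PImp [l4208, o688, o5512, l4189, o5513, l3423, o3693, o3667, l8435, l5669, o5605, l2715, o5603, l734, o7982, o2258, o2276, o7731, o7898] l8436 := rupP (by decide +kernel)
theorem r8437 : PImp [o8064, o5605, o5606, l734, o7730, o2258, o2269] l8437 := rupP (by decide +kernel)
theorem r8438 : PImp [o5716, o5715, o5714, o5719, l4208, o688, o694, l4204, l2814, l2257, o3783, l2250, o5514, l4767, o5512, l4593, l2713, l4183, l2604, l2711, l5035, l4832, l4844, l4834, l2564, o2332, o2329, o2328, l5510, l1705, l2607, l2608, o1538, o1536, o1539, o1601, o1603, o1604, o1537, o1534, o1535, o8255, l4945, l8429, l4201, l4202, o700, o703, o712, o8053, l4954, o4599, l2763, o4611, o4608, l4087, l8436, o3670, l8437, l732, l6715, o5606, o7730, o7810] l8438 := rupP (by decide +kernel)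
theorem r8439 : PImp [o694, l2814, l2257, o3783, o5514, l4767, o5512, l4189, o5513, l3423, l2711, l5035, l4832, l4844, l4834, o3648, o3646, o3647, l8438, o2339, o2337, o8210, o1538, o1536, l6862, l732, l5669, o3670, o8457, o7810] l8439 := rupP (by decide +kernel)
theorem r8440 : PImp [l2814, l2257, o3783, l2250, l2711, o5407, o3852, o8805, o8328, l2544, l4208, l4127, l4129, o5514, l4767, l4779, o5512, l4189, l4593, o5513, l3423, l7703, l2994, o3171, l2713, l3008, l1218, o5103, l2604, l2662, l2660, l3927, l425, l3007, l3006, l1149, l1150, l428, l5035, l4832, l4844, l4834, l8410, o694, o688, o714, l8400, l8397, o5719, l8439, o3752, o3754, o3756, o3844, l8390, o1538, o1536, o1601, o7985, o1534, l8399, o2332, o7877, o740, l673, l1104, l616, o7981] l8440 := rupP (by decide +kernel)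
theorem r8441 : PImp [o5735, l8391, l1698, o3756] l8441 := rupP (by decide +kernel)
theorem r8442 : PImp [o3427, o3752, o3754, o3756, l8390, l1698, l2606, o1536, o7985, o1534, o5298, l5669, l2564, l2462, l2473, l673, o8231, l1104, l740, o7897, o5619, o5602] l8442 := rupP (by decide +kernel)
theorem r8443 : PImp [l1705, l2473, l8393, l2462, o4640, l2827, l2829, o7730, l1091, l1104] l8443 := rupP (by decide +kernel)
theorem r8444 : PImp [l4208, o688, l4204, l6818, l2658, l2657, l3933, l473, l476, l3223, l3219, l1698, l2831, o3667, o5298, o5314, o5317, l5669, l650, l3161, l3171, l2379, l2651, o1452, o1465, l4919, l4626, l1705, o4756, l4283, l4284, l4808, l4936, l2450, l2451, l2447, o4746, l8443, l4201, l5881, o4641, o4623, o4621, o7982, l734, o2262, l2312, o7731, o7898] l8444 := rupP (by decide +kernel)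
theorem r8445 : PImp [l638, o8145, o8064] l8445 := rupP (by decide +kernel)
theorem r8446 : PImp [l4208, o688, l4204, l3223, l3219, l3161, l3171, l2379, l6779, l6793, l4929, l1705, o1452, o1465, o4754, l2450, l8437, l8443, l4201, l4202, l5881, l5111, o4613] l8446 := rupP (by decide +kernel)
theorem r8447 : PImp [o7810, o7730] l8447 := rupP (by decide +kernel)
theorem r8448 : PImp [l6818, l2711, o8805, o8328, l2673, l2658, l2657, l473, l476, l3223, l3219, l4204, o694, o714, l8441, l8442, o3648, o3643, o3644, o3645, o3646, l8398, l4909, l4903, l8444, o3438, l2850, o3670, l8445, o5298, o5317, l8446, l6192, o8796, l2651, o1465, l8447, o5602, o4637, o4651, l2760, l2764, l4941, l1705, l8393, l5881] l8448 := rupP (by decide +kernel)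
theorem r8449 : PImp [l2379, o2307, o7872, l2454, l3577, o1485, l1705, l741, l7840, l5218, o2712] l8449 := rupP (by decide +kernel)
theorem r8450 : PImp [l7840, l4649, o2716] l8450 := rupP (by decide +kernel)
theorem r8451 : PImp [l2658, l2657, l3933, l3223, l8449, o8284, o8249, l2448, l3537, o1515, o1507, o1505, o1473, o1454, l4908, l4891, o7924, o7923, o4658, o2327, l2387, l3165, l605, l1705, o3738, l8450, o8155, o4632, o4618, l6923, o5600, o2280, o8248, l2283] l8451 := rupP (by decide +kernel)
theorem r8452 : PImp [l2658, l2657, l2651, o1452, o1465, l4625, l3157, l3159, l3591, o7958, o3436, o5629, o7961, l2306] l8452 := rupP (by decide +kernel)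
theorem r8453 : PImp [l7840, l5218, o2712] l8453 := rupP (by decide +kernel)
theorem r8454 : PImp [o5602, l2306, o5621, l4570, o8164, o2278] l8454 := rupP (by decide +kernel)
theorem r8455 : PImp [l2269, o699, l2658, l3933, l3223, l3219, o3414, l2831, o3690, l2322, o3696, l8451, o5308, o5317, o5325, l8452, l2448, l3537, l3570, o1473, l2305, o7918, l3168, l2379, l4670, l1705, o3434, o3436, l8453, l8454, o7825, l1104, l2314, o7922, o8522, o5646] l8455 := rupP (by decide +kernel)
theorem r8456 : PImp [o5514, l4767, l4779, o5512, l4189, l4593, o5513, l3423, o5407, o5810, o5812, o5811, l5035, l4834, l476, l3219, l5224, l2814, l2257, l7703, l2996, o3186, l2994, o3168, o3171, l2993, o3164, o3540, l2713, l3008, l1218, o5103, l4183, l2604, l2662, l2661, l3927, l425, l3007, l3006, l1149, l1150, l428, l6818, l2711, l4832, o3202, l3336, l3334, l3933, l3121, l3216, l3118, l3117, l3115, l3223, l4844, l404, l4127, l4208, l5988, l2673, l8387, o3504, o3786, o9074, o8525, l8370, l4084, l4082, o8892, l2544, o3852, l20, o9089, l5571, l4605, l8094, o6714, o8805, o6497, o8328, l668,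 l2250, o3783, l2809, o8481, o8526, l4180, o764, l3512, l483, l8440, l8448, l2477, l4280, l4260, o730, o722, o691, o699, o695, l2269, o719, o690, l8402, o5719, o5714, o5716, l8455, o3438, o3024, o3010, o3003, o3677, o3756, l8404, o2335, l1091, l2444, o8521, l1705, o5309, o7749, l3234, l6229, l3884, l3883] l8456 := rupP (by decide +kernel)
theorem r8457 : PImp [l8360, o5407, l7703, l3008, l8386, l1218, o4860, l5035, l4834, l476, l3219, l5224, o4864, l5601, l2604, l425, l3007, l6818, l3336, l3933, l473, l503, l3115, l3223, o3540, l8364, o5513, o5812, l3423, l8456, l2703, l2689, l668, o8481] l8457 := rupP (by decide +kernel)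
theorem r8458 : PImp [l6818, l476, l3219, l5175, l2848] l8458 := rupP (by decide +kernel)
theorem r8459 : PImp [l7190, l4603, l4602] l8459 := rupP (by decide +kernel)
theorem r8460 : PImp [l2536, l3439, o3469, o5354, l668, l3419] l8460 := rupP (by decide +kernel)
theorem r8461 : PImp [l5035, l4834, l3115, l8360, l476, l6818, l3336, l8458, l7703, l3008, l8386, l1218, l1149, o4860, l3219, l5224, o4864, l5601, l8460, l2604, l2713, l8457, o5824, l8380, l8383, l4084, l5778, o3582, l6045] l8461 := rupP (by decide +kernel)
theorem r8462 : PImp [l7703, l3008, l1218, l1149, l2557, l8459, o5824, l8384, l4084, l7757, o9011, l4598, o8927] l8462 := rupP (by decide +kernel)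
theorem r8463 : PImp [l7703, l3008, l8386, l1218, o4860, l5035, l4834, l8360, l476, l3219, l5224, o4864, l5601, l2604, l1149, l8458, l6818, l3336, l3115, l4832, l4844, l8460, l8462, l8457, l8461, o5824, l4253, l8383, l2674] l8463 := rupP (by decide +kernel)
theorem r8464 : PImp [l626, o4821, o8607, l3835, l2945] l8464 := rupP (by decide +kernel)
theorem r8465 : PImp [l2568, l2590, l6952, o3582] l8465 := rupP (by decide +kernel)
theorem r8466 : PImp [o5513, l2713, o5196, l1243, l7703, l2990, l6818, l3118, l3117, l3115, l3219, l328, l2673, l4165, l4164, l4163, l8464, o3506, o8774, o3795, l2250, o5781, o8504, o8503, o5401, o8798, l3491, l8465, l4084, l8367, l7659, l8110] l8466 := rupP (by decide +kernel)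
theorem r8467 : PImp [o4583, l3625, l4479, l2979] l8467 := rupP (by decide +kernel)
theorem r8468 : PImp [l6625, o3944, o3938, l5067, l4055] l8468 := rupP (by decide +kernel)
theorem r8469 : PImp [o2488, o2442, l8468, l7820, l4006, l3070] l8469 := rupP (by decide +kernel)
theorem r8470 : PImp [l5034, l6465, l5050, l6156] l8470 := rupP (by decide +kernel)
theorem r8471 : PImp [l7793, l4069] l8471 := rupP (by decide +kernel)
theorem r8472 : PImp [l5034, l6521, l7859, o3938, l3308, l4759] l8472 := rupP (by decide +kernel)
theorem r8473 : PImp [o2463, o2449, l6048, l7779, l6156, l4542] l8473 := rupP (by decide +kernel)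
theorem r8474 : PImp [l3303, l4753, l5045, o3907, l4732] l8474 := rupP (by decide +kernel)
theorem r8475 : PImp [l4087, l425, l3006, l3008, l1149, l328, l4763, l8473, l3089, o2488, l8472, l8474, l3308, l8051] l8475 := rupP (by decide +kernel)
theorem r8476 : PImp [o2488, o2442, l8468, l7820, l4006, l3071] l8476 := rupP (by decide +kernel)
theorem r8477 : PImp [l1244, l8476, o2463, o2449, l8473, l8470, l728, l8471, l5050, l6156] l8477 := rupP (by decide +kernel)
theorem r8478 : PImp [l1244, l4087, l3008, l1218, l425, l3007, l3006, l1149, l421, l328, l8477, l4763, l8475, l8473, l3089, o2488, l8472, l8474, l4548, l3308, o3938, l4520] l8478 := rupP (by decide +kernel)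
theorem r8479 : PImp [l728, l5655, l4048] l8479 := rupP (by decide +kernel)
theorem r8480 : PImp [o2463, o2449, l8473, l728, l8479, l6156, l4045] l8480 := rupP (by decide +kernel)
theorem r8481 : PImp [l1244, l3008, l1218, l425, l3006, l1149, l421, l328, l3089, o2488, o2450, l8476, l8472, l8474, l3308, l5957, l4520, o3938] l8481 := rupP (by decide +kernel)
theorem r8482 : PImp [l6476, l7793, l6962] l8482 := rupP (by decide +kernel)
theorem r8483 : PImp [l6156, l6130, l5050] l8483 := rupP (by decide +kernel)
theorem r8484 : PImp [l4087, l8481, o2449, l1244, o2463, l8483, l5842, l4763, l3008, l1218, l425, l3007, l8478, l8482] l8484 := rupP (by decide +kernel)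
theorem r8485 : PImp [l1244, l4087, l8481, o2463, o2449, l8483, l3303, l5842, l728, l8484, l8480, l4048, l4017, o3913] l8485 := rupP (by decide +kernel)
theorem r8486 : PImp [l2701, l4085, o6047, o6014, o1530] l8486 := rupP (by decide +kernel)
theorem r8487 : PImp [o2488, l8468, l7820, l5847, l3291, l3282, o4170, o5098, l8486, l728, l3320, o6014, o6114] l8487 := rupP (by decide +kernel)
theorem r8488 : PImp [l3008, l1218, o5103, o6732, l425, l3006, l1149, l421, l328, l3089, o2488, o2529, o2442, o2569, l8487, l8472, l8474, l3308, l4520, l4523] l8488 := rupP (by decide +kernel)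
theorem r8489 : PImp [o2463, o2449, l8483, l8473, l4763, l8471, l6465] l8489 := rupP (by decide +kernel)
theorem r8490 : PImp [l8485, l1244, l4087, l3008, l1218, l425, l3007, l1149, l8488, l3075, o2463, o2449, l8483, l3303, l8489, l8482, l4763, l5045, l8083, l5034] l8490 := rupP (by decide +kernel)
theorem r8491 : PImp [l3625, l3623] l8491 := rupP (by decide +kernel)
theorem r8492 : PImp [l3240, l7259, l439, l5057, l3676, l4325, l4764] l8492 := rupP (by decide +kernel)
theorem r8493 : PImp [l3679, l3671] l8493 := rupP (by decide +kernel)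
theorem r8494 : PImp [l425, l3007, l3008, l1149, l1150, l3242, l8492, l2971, l7875, l8493, l7088, l441, o4372, l4317, o6818] l8494 := rupP (by decide +kernel)
theorem r8495 : PImp [l4828, l3207] l8495 := rupP (by decide +kernel)
theorem r8496 : PImp [l4764, l8495, l6081, l439, l4325, l4326] l8496 := rupP (by decide +kernel)
theorem r8497 : PImp [l2882, l4177, l5057, o6888, l3653, o5077, l4829, l4352] l8497 := rupP (by decide +kernel)
theorem r8498 : PImp [l1000, l2882, l3241, l3187, l4351, l3643, l3647, l3313, o6975, o6881, o389] l8498 := rupP (by decide +kernel)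
theorem r8499 : PImp [l1243, l2882, l2874, l2875, l8496, l3669, l7894, l441, l439, o5106, l8497, l1000, l996, l3709, o4362, o5049, o5024, l4972, o3243, l8498, l3654, l4326] l8499 := rupP (by decide +kernel)
theorem r8500 : PImp [l7065, l6076, l3674] l8500 := rupP (by decide +kernel)
theorem r8501 : PImp [l8500, l7775, l3688, l4340] l8501 := rupP (by decide +kernel)
theorem r8502 : PImp [l3205, o2569, o2442, o2488, l8469, l8468, l8499, l7820, l3291, l3282, l5861, o4170, o5098, l8486, l728, l3320, o6014, o6032] l8502 := rupP (by decide +kernel)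
theorem r8503 : PImp [l8472, l8474, l3308, l5957, l4520, o3938] l8503 := rupP (by decide +kernel)
theorem r8504 : PImp [l1242, l3201, l8501, l8502] l8504 := rupP (by decide +kernel)
theorem r8505 : PImp [l3242, l3679, l7852, o4372, o6813] l8505 := rupP (by decide +kernel)
theorem r8506 : PImp [l425, l3007, l3008, l1149, l1150, l3242, l8492, l8494, l2971, l7875, l8505, l7088, l441, o4372, l4317, o6818] l8506 := rupP (by decide +kernel)
theorem r8507 : PImp [l2713, l3008, l1218, l1149, l4785, l425, l3007, l2604, l7708, o5513, l2590, o3582, o9136, o5103, o6732, l1244, l1243, l4790, l3006, l421, l428, l328, l3089, o2488, o2529, o2450, l8504, l8503] l8507 := rupP (by decide +kernel)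
theorem r8508 : PImp [l6962, o3907, l6163] l8508 := rupP (by decide +kernel)
theorem r8509 : PImp [l2713, l3008, l1218, l1149, l4785, l425, l3007, l2604, l7708, o5513, l2590, o3582, o9136, l1244, l4087, l1243, l1242, l4790, l1150, l8485, l8490, l8506, l8507, l3075, o2463, o2449, l8480, l8483, l3303, l8508, l4763, l5672, l8083, l5034] l8509 := rupP (by decide +kernel)
theorem r8510 : PImp [l3008, l1218, o5103, o6732, l425, l3006, l1149, l421, l328, l3089, o2488, o2529, o2442, o2569, l8487, l8472, l8474, l8045] l8510 := rupP (by decide +kernel)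
theorem r8511 : PImp [l1244, l4087, l3008, l1218, l425, l3007, l1150, l8510, l3075, o2463, o2449, l8489, l8483, l8482, l3303, l4763, l5672, l5675, l5842, l4737] l8511 := rupP (by decide +kernel)
theorem r8512 : PImp [l2882, l8495, l1000, l4361, l4358] l8512 := rupP (by decide +kernel)
theorem r8513 : PImp [l2700, l4177, l5057, o6888, l3653, o5088, l3639, o8363] l8513 := rupP (by decide +kernel)
theorem r8514 : PImp [l3008, l1218, o5103, o6732, o2569, o2442, l2991, o2529, l328, o2488, l2713, l1149, l4785, l425, l3007, l2604, l7708, o5513, l2590, o3582, o9136, l1243, l1242, l4790, l3006, l421, l428, l8476, l8469, l8468, l8506, l7820, l3201, l3197, l3205, l8501, l3291, l3282, l5861, l2882, l2871, l2874, l2875, o4170, o5098, l8486, l728, l3320, o6014, o6032, l8512, l3669, l7894, l441, l439, o5106, l8513, l1000, l996, l3709, o4362, o5049, o5024, l4972, o3243, l8498, l3654, l4326] l8514 := rupP (by decide +kernel)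
theorem r8515 : PImp [l1244, l1243, l3008, l1218, l1149, l4785, l4790, l425, l3006, l328, l3089, o2488, o2450, l8514, l4763, l8472, l8474, l3308, l7118, l7859, o3897, l4548, l4543] l8515 := rupP (by decide +kernel)
theorem r8516 : PImp [l2713, l3008, l1218, l1149, l4785, l425, l3007, l2604, l7708, o5513, l2590, o3582, o9136, l1244, l4087, l1243, l1242, l4790, l1150, l2991, l8509, l8511, l8515, l3075, o2463, o2449, l8480, l8483, l3303, l8508, l5675, l6036, l2779] l8516 := rupP (by decide +kernel)
theorem r8517 : PImp [l3008, l1218, l425, l3006, l1149, l4233, l4086, l8112] l8517 := rupP (by decide +kernel)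
theorem r8518 : PImp [l3008, l1218, o5103, o6732, l1244, l425, l3006, l1149, l421, l328, l3089, o2488, o2529, o2450, o2569, l8503, l8517, l7820, l3291, l3282, l5861, o4170, o5098, l8486, l728, l3320, o6114, o6014] l8518 := rupP (by decide +kernel)
theorem r8519 : PImp [l1244, l4087, l3008, l1218, l425, l3007, l1149, l8518, l3075, o2463, o2449, l8489, l8483, l8482, l3303, l4763, l5045, l5842, l8083, l5034] l8519 := rupP (by decide +kernel)
theorem r8520 : PImp [l3008, l1218, l425, l3006, l1149, l4233, l4086, l8111] l8520 := rupP (by decide +kernel)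
theorem r8521 : PImp [l2881, l4325] l8521 := rupP (by decide +kernel)
theorem r8522 : PImp [l3240, l7259, l439, l8521, l4764, l3675, l3676] l8522 := rupP (by decide +kernel)
theorem r8523 : PImp [l425, l3007, l3008, l1149, l1150, l3242, l8522, l2971, l7875, l8493, l7088, l441, o4372, l4317, o6818] l8523 := rupP (by decide +kernel)
theorem r8524 : PImp [l2700, l4177, l4178, o6888, o5088, o5089, o8363, o1182, o7022, o6975] l8524 := rupP (by decide +kernel)
theorem r8525 : PImp [l1243, l2882, l2871, l2874, l2875, l8496, l3669, l7894, l441, l439, o5106, l8524, l1000, l996, l3709, o4362, o5049, o5024, l4972, o3243, l8498, l3654, l4326] l8525 := rupP (by decide +kernel)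
theorem r8526 : PImp [l1242, l3008, l1218, l425, l3006, l1149, l428, l3201, l3197, l3205, l8525, l2972, l8500, o4363, l6071, l7775, l996, l3688, l3943] l8526 := rupP (by decide +kernel)
theorem r8527 : PImp [l2713, l3008, l1218, l1149, l4785, l425, l3007, l2604, l7708, o5513, l2590, o3582, o9136, o5103, o6732, l1244, l1243, l4790, l3006, l1150, l421, l2991, l328, l3089, o2488, o2529, o2442, o2450, o2569, l8503, l8520, l7820, l3291, l3282, l5861, l706, l3071, o4170, o5098, l8486, l728, l3320, o6014, o6032, l8526, l3242, l8522, l8523, l2971, l7875, l8505, l7088, l441, o4372, l4317, o6818] l8527 := rupP (by decide +kernel)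
theorem r8528 : PImp [l2713, l3008, l1218, l1149, l4785, l425, l3007, l2604, l7708, o5513, l2590, o3582, o9136, l1244, l4087, l1243, l1242, l4790, l1150, l2991, l8519, l8527, l3075, o2463, o2449, l8480, l8483, l3303, l8508, l5675, l6036, l2779] l8528 := rupP (by decide +kernel)
theorem r8529 : PImp [l3008, l1218, o5103, o6732, o2569, l425, l3006, l1149, l421, l328, l8517, l7820, l3291, l3282, l5861, o4170, o5098, l8486, l728, l3320, o6114, o6014] l8529 := rupP (by decide +kernel)
theorem r8530 : PImp [l3008, l1218, l425, l3006, l1149, l328, l3089, o2488, o2529, l8529, l8472, l8474, l8045] l8530 := rupP (by decide +kernel)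
theorem r8531 : PImp [l1244, l4087, l3008, l1218, l425, l3007, l1149, l1150, l8530, l3075, o2463, o2449, l8489, l8483, l8482, l3303, l5675, l6036, l2779] l8531 := rupP (by decide +kernel)
theorem r8532 : PImp [l1243, l2882, l2871, l2874, l2875, l8512, l3669, l7894, l8524, l441, l439, o5106, l1000, l996, l3709, o4362, o5049, o5024, l4972, o3243, l8498, l3654, l4326] l8532 := rupP (by decide +kernel)
theorem r8533 : PImp [l1242, l3008, l1218, l425, l3006, l1149, l428, l3201, l3197, l3205, l8532, l2972, l8500, o4363, l6071, l7775, l996, l3688, l3943] l8533 := rupP (by decide +kernel)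
theorem r8534 : PImp [l3008, l1218, o5103, o6732, o2569, l2991, o2529, l328, o2488, l2713, l1149, l4785, l425, l3007, l2604, l7708, o5513, l2590, o3582, o9136, l1243, l4790, l3006, l1150, l421, l8520, l7820, l3291, l3282, l5861, l706, l3071, o4170, o5098, l8486, l728, l3320, o6014, o6032, l8533, l3242, l8522, l8523, l2971, l7875, l8505, l7088, l441, o4372, l4317, o6818] l8534 := rupP (by decide +kernel)
theorem r8535 : PImp [l1244, l1243, l3008, l1218, l1149, l4785, l4790, l425, l3006, l328, l3089, o2488, o2442, o2450, l8534, l4763, l8472, l8474, l3308, l4550, l7859, o3897, l4548, l4543] l8535 := rupP (by decide +kernel)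
theorem r8536 : PImp [l3008, l1218, l425, l3007, l2989, l3223, l4909, o4461, l3488, l3491, l1244, l3473, l3422, o5513, l2713, l4087, l1243, l1242, l1149, l4785, l4790, l3436, l3430, l2604, l2661, l1150, l2991, l3216, l2590, l7708, o3582, l5790, o9136, l8516, l8528, l8531, l8535, l3075, o2463, o2449, l8480, l8483, l8508, l3303, l5675, l6036, l2779] l8536 := rupP (by decide +kernel)
theorem r8537 : PImp [l2713, l3216, l3927, l7703, l3008, l1218, l1149, l2993, o6519, o4854, l5035, l4834, l3422, o5196, l4191, l3430, l2604, l2662, l2661, l425, l3007, l6818, l2711, l8458, l2990, l3336, l476, l3219, l4832, l4844, l328, o5103, o5513, l8466, l5039, l2675, l2672, l3835, o4698, o4699, l5438, l3506, l3499, l4247, l8536, l4084, l8367, l4608, l8110] l8537 := rupP (by decide +kernel)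
theorem r8538 : PImp [l7766, l2544, l2574, o8899] l8538 := rupP (by decide +kernel)
theorem r8539 : PImp [l3286, l3282, o6297, o4163, o6050, o1528, o6014, l8265] l8539 := rupP (by decide +kernel)
theorem r8540 : PImp [l5034, l4233, l4086, l8539, l3308, l3988, l5745, o4068] l8540 := rupP (by decide +kernel)
theorem r8541 : PImp [l8540, l7908, l706, l3308] l8541 := rupP (by decide +kernel)
theorem r8542 : PImp [l5034, l7859, l3308, l4713, l4759, o3938] l8542 := rupP (by decide +kernel)
theorem r8543 : PImp [l3008, l1218, l425, l3006, l1149, l1150, l328, l3089, o2488, o2542, o2442, o2569, l8541, l8542, l8043, l7772, l3304, l4523] l8543 := rupP (by decide +kernel)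
theorem r8544 : PImp [l3303, l6476, l4038, l4039] l8544 := rupP (by decide +kernel)
theorem r8545 : PImp [l4087, l3008, l1218, l425, l3007, l1149, l1150, l8543, l3075, o2463, o2449, l8483, l3303, l8544, l8117, l4737, l5675] l8545 := rupP (by decide +kernel)
theorem r8546 : PImp [l5034, l4233, l4086, l8539, l3308, l3988, l4059, o4068] l8546 := rupP (by decide +kernel)
theorem r8547 : PImp [l8546, l7908, l706, l3308] l8547 := rupP (by decide +kernel)
theorem r8548 : PImp [l3008, l1218, l425, l3006, l1149, l1150, l328, l3089, o2488, o2542, o2442, o2450, o2569, l8547, l8542, l8043, l7772, l3303, o3938, l5957] l8548 := rupP (by decide +kernel)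
theorem r8549 : PImp [l3303, l4053, l4029, o3907] l8549 := rupP (by decide +kernel)
theorem r8550 : PImp [l3303, l8549, l6290, l4039] l8550 := rupP (by decide +kernel)
theorem r8551 : PImp [l1244, l4087, l3008, l1218, l425, l3007, l1149, l1150, l8545, l8548, l3075, o2463, o2449, l8483, l3303, l8550, l8117, l4735, l4737] l8551 := rupP (by decide +kernel)
theorem r8552 : PImp [l1244, l3008, l1218, l425, l3006, l1149, l328, l3089, o2488, o2542, o2442, o2450, o2569, l8547, l8542, l8474, l5957, l4551] l8552 := rupP (by decide +kernel)
theorem r8553 : PImp [l8550, l8544] l8553 := rupP (by decide +kernel)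
theorem r8554 : PImp [o4571, l4087, l3008, l1218, l425, l3007, l1149, l1150, l6818, l2711, l8458, l2990, l476, l3219, l5224, l404, l2674, l2673, l4165, l4164, l4163, l2568, l8464, o3506, o8774, o3795, l2250, o5781, o9087, o8504, o8503, o4834, o5401, o5810, o8798, o8918, l3473, l3491, o8892, l2544, o3852, l2591, l2582, o6456, o8531, o6353, o6748, o8586, o8611, l8551, l8552, l3075, o2463, o2449, l8483, l3303, l8553, l5045, l4737, l5675] l8554 := rupP (by decide +kernel)
theorem r8555 : PImp [o4571, l2814, l8458, l8538, l8554, l2675, o6353, l3003, o6456, l2582] l8555 := rupP (by decide +kernel)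
theorem r8556 : PImp [l503, l5035, l4834, l8463, l3422, o5196, o5193, l1243, l1242, l7703, l3008, l8386, l1218, o4860, l3216, l8360, l476, l3219, l5224, o4864, l5601, l3927, l1149, l2993, o6519, o4318, o4854, l2750, l4785, l4790, o5506, l3436, l3430, l2814, l2604, l2662, l2661, o4878, l4832, o3202, l6818, l3336, o5380, l3118, l3117, l3115, l4844, l404, l2713, l8537, o5824, l8555, l4084, l8381, l5778, o3582, l6045] l8556 := rupP (by decide +kernel)
theorem r8557 : PImp [l2578, l7719, o3582, o9011] l8557 := rupP (by decide +kernel)
theorem r8558 : PImp [l8463, l7703, l3008, l8386, l1218, o4860, l5035, l4834, l8360, l476, l3219, l5224, o4864, l5601, l2604, l1149, l503, l4832, l4844, l3422, l3436, o5196, l1242, l8556, l2557, l8459, o5824, l8557, l4084, l4598, l7757] l8558 := rupP (by decide +kernel)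
theorem r8559 : PImp [l7703, l5035, l4834, l8360, l8458, l2990, l6818, l3336, l3933, o5380, l476, l3219, l5224, l473, l3115, l3223, l3008, l8386, l1218, l1150, l1149, o4860, o4864, o4878, l5601, l2660, l2661, l2662, l8463, l8558, l8375, o3469, l2703, l1102, l8464] l8559 := rupP (by decide +kernel)
theorem r8560 : PImp [l2596, l2708, o8790, o8355] l8560 := rupP (by decide +kernel)
theorem r8561 : PImp [o5407, l8560, l2544, l2588, o9177, o9045] l8561 := rupP (by decide +kernel)
theorem r8562 : PImp [o5824, l8144] l8562 := rupP (by decide +kernel)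
theorem r8563 : PImp [l2571, l2568, l8561] l8563 := rupP (by decide +kernel)
theorem r8564 : PImp [l4597, o3582, o8947, o9122] l8564 := rupP (by decide +kernel)
theorem r8565 : PImp [l2713, l8562, l8563, l4084, l8564, l2544, l2539, l4593, o9033, o5512] l8565 := rupP (by decide +kernel)
theorem r8566 : PImp [l2584, o3582, o8999] l8566 := rupP (by decide +kernel)
theorem r8567 : PImp [l2571, l6462, o5824, l8566, l2544, l2576, o8921] l8567 := rupP (by decide +kernel)
theorem r8568 : PImp [l2814, o5407, l8216, o5811, o5810, l8387, o9074, o8525, l6707, o8530, o8839] l8568 := rupP (by decide +kernel)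
theorem r8569 : PImp [l2561, o3582, o8989] l8569 := rupP (by decide +kernel)
theorem r8570 : PImp [l4183, l2614, l2615, l5035, l4834, l8458, l6818, l2658, l3933, o5380, l476, l3219, l5224, l3216, l3119, l3118, l3117, l4832, l4844, l8374, l8376, l3394, l3464, o1545, o1544, l2674, l8382, l8565, l2555, l2557, l8567, l4084, l4082, l8568, o5824, l8569, l2559, l2544, o8907] l8570 := rupP (by decide +kernel)
theorem r8571 : PImp [l7703, l3008, l1149, l328, l2713, l8562, o5103, l8122, l8125, l4084, l8564, l5662, o2924, o6561] l8571 := rupP (by decide +kernel)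
theorem r8572 : PImp [l8216, o5513] l8572 := rupP (by decide +kernel)
theorem r8573 : PImp [l2555, o4860, l5035, l4834, l476, l3219, l5224, o4864, l5601, l3927, l7703, l3008, l1149, l1150, l2614, l2615, l8458, l2990, l6818, l3336, l3933, l473, l3115, l3223, l4832, l4844, l404, l2571, l8567, l5039, l2703, l2689, l3835, l1102, o4698, o4831, o3506, l2809, o8481, l3506, l3423, l8572, o5824, l8566, l2576, l7566] l8573 := rupP (by decide +kernel)
theorem r8574 : PImp [l2555, l2614, l2615, l5035, l4834, l8458, l6818, l3336, l3933, l473, l3118, l3117, l3115, l3223, l4832, l4844, o5407, l8216, l8572, l8568, o5812, l3423, l2674, l2703, l2689, l668, o8481] l8574 := rupP (by decide +kernel)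
theorem r8575 : PImp [l2615, l5035, l4834, l8458, l6818, l3336, l476, l3219, l5224, l3115, l7703, l3008, l4183, l8570, l1218, l425, l1149, o4860, o4864, l3006, l5601, l3927, l2661, l2662, l8460, l8571, l2557, l8573, l4084, l4082, l8574, o5824, l2561, l2559, l2544, o8907] l8575 := rupP (by decide +kernel)
theorem r8576 : PImp [l6818, l2658, o5380, l476, l3119, l8374, l8376, o1545, o1544, l8378] l8576 := rupP (by decide +kernel)
theorem r8577 : PImp [l2713, l2615, l3422, o5196, o5513, l1243, l6261, l4084, l8564, l8123, l2539, o9033] l8577 := rupP (by decide +kernel)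
theorem r8578 : PImp [l7703, l2990, l3933, l3115, l3223, l3219, l8375, o3469, l2703, l1102, l8464] l8578 := rupP (by decide +kernel)
theorem r8579 : PImp [l2615, l503, l5035, l2713, l8577, o5824, l5519, o3582, o8947, l5534, l8142] l8579 := rupP (by decide +kernel)
theorem r8580 : PImp [l7703, l425, l3006, l328, l5035, o5103, o5513, l8215, l8214, o3582, l7742, l6462, l8127, l2675, o8898] l8580 := rupP (by decide +kernel)
theorem r8581 : PImp [l2555, l2614, l6818, l3219, l2673, l4165, l4164, l4163, l2568, l8464, o8774, o3795, l2250, o5781, o9087, o8504, o8503, o8798, o8918, o5810, o8804, l7713, o8566] l8581 := rupP (by decide +kernel)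
theorem r8582 : PImp [l3187, l3098, l8521, o6990, l3647, o389, o6975] l8582 := rupP (by decide +kernel)
theorem r8583 : PImp [l1244, o2450, l328, o2488, l3089, l4087, l3008, l1218, l1149, l4785, l4790, l425, l3006, l421, l428, l8503, l8485, l8469, l8506, l3201, l3197, l8501, l2882, l2871, l2874, l2875, l8496, l3669, l3315, l7894, l8524, l439, l1000, l996, l3709, o4362, o5049, o5068, l4972, o3243, l8582, l3654, l4326] l8583 := rupP (by decide +kernel)
theorem r8584 : PImp [l8472, l8474, l7118, l4548] l8584 := rupP (by decide +kernel)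
theorem r8585 : PImp [l328, o2488, l3089, l4087, l3008, l1218, l1149, l4785, l4790, l425, l3006, l421, l428, l8583, l8584, l8476, l8469, l8506, l3201, l3197, l8501, l2882, l2871, l2874, l2875, l8512, l3669, l3315, l7894, l8524, l439, l1000, l996, l3709, o4362, o5049, o5068, l4972, o3243, l8582, l3654, l4326] l8585 := rupP (by decide +kernel)
theorem r8586 : PImp [l4086, l6625, l8132, o3944, l3100, l5067] l8586 := rupP (by decide +kernel)
theorem r8587 : PImp [l2882, l2871, l2874, l2875, l8496, l3669, l3315, l7894, l8524, l439, l1000, l996, l3709, o4362, o5049, o5068, l4972, o3243, l8582, l3654, l4326] l8587 := rupP (by decide +kernel)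
theorem r8588 : PImp [o4571, o6498, o2569, l1244, o2450, o2442, l328, o2488, l3089, o6713, o6374, l3008, l1218, l1149, l4785, l4790, l425, l3006, l421, l428, l8503, o876, l8586, l7820, l5861, l706, l3071, l8523, l3201, l3197, l8587, l2972, l8500, o4363, l6071, l7775, l996, l3688, l3943] l8588 := rupP (by decide +kernel)
theorem r8589 : PImp [l2882, l2871, l2874, l2875, l8512, l3669, l3315, l7894, l8524, l439, l1000, l996, l3709, o4362, o5049, o5068, l4972, o3243, l8582, l3654, l4326] l8589 := rupP (by decide +kernel)
theorem r8590 : PImp [o4571, o6498, o2569, l328, o2488, o6713, o6374, l3008, l1218, l1149, l4785, l4790, l425, l3006, l421, l428, o876, l8586, l7820, l5861, l706, l3071, l8523, l3201, l3197, l8589, l2972, l8500, o4363, l6071, l7775, l996, l3688, l3943] l8590 := rupP (by decide +kernel)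
theorem r8591 : PImp [o4571, o6498, o6713, o6374, l1244, l4087, l3008, l1218, l1149, l4785, l4790, l425, l3006, l328, l8480, l3089, o2488, o2442, l8585, l8588, l8590, l8472, l8474, l4550, l4548] l8591 := rupP (by decide +kernel)
theorem r8592 : PImp [l3075, o2463, o2449, l8483, l3303, l8508, l5675, l6036, l2779] l8592 := rupP (by decide +kernel)
theorem r8593 : PImp [l3242, l8522, l2971, l7875, l8505, l7088, l441, o4372, l4317, o6818] l8593 := rupP (by decide +kernel)
theorem r8594 : PImp [l2972, l8500, o4363, l6071, l7775, l996, l3688, l3943] l8594 := rupP (by decide +kernel)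
theorem r8595 : PImp [l8587, l8589] l8595 := rupP (by decide +kernel)
theorem r8596 : PImp [o4571, o6498, o2569, l328, o2488, o6713, o6374, l3008, l1218, l1149, l4785, l4790, l425, l3007, l3006, l1150, l421, l428, o876, l8586, l7820, l5861, l706, l3071, l8593, l3201, l3197, l8594, l8595] l8596 := rupP (by decide +kernel)
theorem r8597 : PImp [l1244, o4571, l2557, l4087, l3008, l1218, l1149, l4785, l4790, l425, l3007, l3006, l1150, l328, l2589, l2584, l8566, o6498, o6374, o6713, l8591, l8592, l3089, o2488, o2442, o2450, l8585, l8596, l8503, l8472, l8474, l4550, l4548] l8597 := rupP (by decide +kernel)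
theorem r8598 : PImp [l2555, l2662, l2661, l3008, l1218, l425, l3007, l1149, l2614, l8458, l2989, l2990, l6818, l476, l3118, l3117, l3115, l3223, l3219, l8581, l5039, l2675, l2672, l3835, l4909, o4698, o4699, o4461, l5438, l3506, l3499, l4247, l3488, l3473, l3491, l8597, l2576, l7566] l8598 := rupP (by decide +kernel)
theorem r8599 : PImp [l503, l3219, l5035, l4832, l4844, l4834, l7703, l3008, l328, l3216, l8360, l476, l473, l6818, l5224, o5380, l3336, l8458, l8559, l2615, l8575, l8576, l1218, l425, l1150, l1149, o4860, o4864, o4878, l3006, l5601, l3927, l2660, l2661, l2662, l8578, l2993, l2814, l3422, l3430, l3436, l4785, o6519, o5196, o5506, l4790, l2750, o4854, o4318, l1242, l1243, l8579, l2557, l8580, o5824, o4571, l8598, l2561, l5797, o2924] l8599 := rupP (by decide +kernel)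
theorem r8600 : PImp [l5035, l4834, l7703, l2996, l2998, l5388, l4846, o4326, l4850, l4863, l4967, l4770, o4899] l8600 := rupP (by decide +kernel)
theorem r8601 : PImp [o4555, l3439, l1145] l8601 := rupP (by decide +kernel)
theorem r8602 : PImp [l7703, l3008, l5035, l8600, l8601, l3444, l1218, o4860, o4872, o4864, l5387, l5399, l5388, l4770, l3756, l4780] l8602 := rupP (by decide +kernel)
theorem r8603 : PImp [l5989, l5925, l2681] l8603 := rupP (by decide +kernel)
theorem r8604 : PImp [l2571, l5653, l6942, l2544] l8604 := rupP (by decide +kernel)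
theorem r8605 : PImp [l2713, o5514, l8604, l4084, l4608, l8367] l8605 := rupP (by decide +kernel)
theorem r8606 : PImp [l8605, o5824, l8383] l8606 := rupP (by decide +kernel)
theorem r8607 : PImp [o5407, l8377] l8607 := rupP (by decide +kernel)
theorem r8608 : PImp [l2571, l8384, l2578, o8978, o3582] l8608 := rupP (by decide +kernel)
theorem r8609 : PImp [l8599, l8602, l8603, l6818, l2711, l5035, l4834, l8458, o5380, l4183, l503, l3118, l3117, l4832, l4844, l7703, l3008, l328, l2996, l2998, l2814, l5388, l4846, o4882, o4888, o4871, o4326, o5008, l4852, l4850, l4971, l1210, l4863, l6736, o5787, o5792, l4967, l6057, l2661, l2662, l2604, l8387, o8525, o4899, o4901, l3137, l8606, l2555, l8607, o5824, o4571, l8608, l4082, l7977, l5741, l5797, l2708, l6179, o8579] l8609 := rupP (by decide +kernel)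
theorem r8610 : PImp [l8599, l3115, l5035, l4834, l7703, l8602, l8603, l6818, l8458, l3336, l8609, o3469, l8601, o5364, l3419, l668] l8610 := rupP (by decide +kernel)
theorem r8611 : PImp [l5035, l4834, l7703, l2998, l3422, l4846, o4561, o4894] l8611 := rupP (by decide +kernel)
theorem r8612 : PImp [l3532, l3527, o5358, l34] l8612 := rupP (by decide +kernel)
theorem r8613 : PImp [l5989, l3219, l8612, l3336, l3394, l626, l1779, o5358, l5949] l8613 := rupP (by decide +kernel)
theorem r8614 : PImp [l3119, l3118, l3117, l3426, o5453, o5450, o5452, o8605, o8608, o8656, l6084] l8614 := rupP (by decide +kernel)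
theorem r8615 : PImp [l3119, l3118, l3117, l3115, l3219, l5989, l5925, l8603, l2808, o3468, o3467, o3469, l4129, l4165, l4164, l4163, l8614, l8612, l8613, l3336, l2661, l4786, l626, o8656, l4792, l6273, l768] l8615 := rupP (by decide +kernel)
theorem r8616 : PImp [l7703, l627, l667, l4133, l5437] l8616 := rupP (by decide +kernel)
theorem r8617 : PImp [l3119, l3223, l3219, l5035, l4834, l7703, l8611, l8615, l476, l6818, l5224, o5380, l8458, l2658, l2989, l8616, o1545, o1544, l8375, l2675, l5411, l4909, l5387, o4942] l8617 := rupP (by decide +kernel)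
theorem r8618 : PImp [l404, l2713, l8562, l8563, o5407, o5512, l8336, l4084, l6887, o9033] l8618 := rupP (by decide +kernel)
theorem r8619 : PImp [l6818, l2658, l3223, l3119, l5035, l4834, l476, l3219, l5224, o5380, l8458, l8616, o1544, o1545, l3394, l7703, l2988, l2614, l2615, l3118, l3117, l4832, l4844, l3008, l2996, l2998, l2814, l5388, l4846, o4882, o4894, o4888, o4326, o5008, l4850, l4970, l4971, o4561, l1210, l5412, l3765, o5787, o5792, l4967, l2675, l6057, l4132, l8387, o9074, o4899, o4901, l2673, o8350, o9087, l4776, l4187, l8618, l7713, l4084, l6707, o5824, l2559, o3582, l8569, o8947] l8619 := rupP (by decide +kernel)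
theorem r8620 : PImp [l3115, l5035, l4834, l7703, l8599, l8617, l4183, l8602, l8610, l8603, l6818, l8458, l3336, l8619, l8601, o3469, o5364, l3419, l668] l8620 := rupP (by decide +kernel)
theorem r8621 : PImp [l2713, l7703, l3007, l328, o5512, o5100, l8368, l8110, o3582, l8094, o9132, l2571] l8621 := rupP (by decide +kernel)
theorem r8622 : PImp [l7703, l1145, o4555, l3423, l1209, l8621, l5518, l5665, l6176] l8622 := rupP (by decide +kernel)
theorem r8623 : PImp [l3216, l7703, l3219, l8620, l3935, l3119, l2808, l3342, l3223, l8616, l2992, o4843, l3815, o8626, l1779, l4633, l2991, l3809, l1145, l1210, l3829, o4486, l3006, l2994, l5134, o5355, l1209, o5372, l3411, l6152, l3408, l3453, l3934, l4576, o5346, o4493, l5272, l2712, l5035, l4832, l4844, l328, l8622, l7710, l4084, l6097, l4600, l8377, o5406] l8623 := rupP (by decide +kernel)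
theorem r8624 : PImp [l2571, l8363, l6123] l8624 := rupP (by decide +kernel)
theorem r8625 : PImp [o5406, l8624, l4082, l4608, l7253, l2708, l6179] l8625 := rupP (by decide +kernel)
theorem r8626 : PImp [l8625, l5518, l5665, l6176] l8626 := rupP (by decide +kernel)
theorem r8627 : PImp [l7703, l3219, l8620, l3935, l3119, l2808, l3342, l3223, l8616, l2992, o4843, l3815, o8626, l1779, l4633, l2991, l3809, l1145, l1210, l3829, o4486, l3007, l3006, l3934, l4576, o5346, o5372, o5355, o4555, l3423, l1209, l5272, l2712, l2994, l3216, l5035, l4832, l4844, l328, l5134, l3453, l3411, l3408, l6152, l8623, l8626, l7710, l6145, l4600, l8377, o5406] l8627 := rupP (by decide +kernel)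
theorem r8628 : PImp [l5035, l4834, l7703, l328, l2713, l8621, o5824, l8383, l8108, l8380, l8242, l5778] l8628 := rupP (by decide +kernel)
theorem r8629 : PImp [l7703, l1145, l1210, l328, l2557, l7710, l4084, l7976, o5512, o5012, l7977] l8629 := rupP (by decide +kernel)
theorem r8630 : PImp [l5035, l4834, l7703, l328, o5512, l8605, l8365] l8630 := rupP (by decide +kernel)
theorem r8631 : PImp [l481, l8620, l3342, l3935, l3934, l3119, l3223, l3219, l5035, l4832, l4844, l4834, l7703, l2992, l2987, l2991, l2808, l8616, o4843, l3809, l3815, l1145, o8626, l4222, l2697, l1210, l1209, o4555, l1779, l4224, l3829, l3423, l4633, o8592, o4486, o5355, o5372, o4785, l8627, l2604, l8629, l2713, l8628, l8630, o5824, l8383, l8380, l5778, l8106, l8242] l8631 := rupP (by decide +kernel)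
theorem r8632 : PImp [l480, l481, l2846, l2845, l5234, l4241, l4224] l8632 := rupP (by decide +kernel)
theorem r8633 : PImp [l7703, l328, o5512, o5100, l8215, o3582, l5552, o9153, l4084] l8633 := rupP (by decide +kernel)
theorem r8634 : PImp [o6584, l2589, o6374, l2576] l8634 := rupP (by decide +kernel)
theorem r8635 : PImp [o4571, l7703, l328, l8634, l4084, l6097, l2561] l8635 := rupP (by decide +kernel)
theorem r8636 : PImp [l2571, l8566, l2544, l2576, o8921] l8636 := rupP (by decide +kernel)
theorem r8637 : PImp [l2557, l7703, l3006, l2994, l3216, l328, l3452, l3453, l3408, l4885, l8633, o5824, l8636, l6145, l2561] l8637 := rupP (by decide +kernel)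
theorem r8638 : PImp [o5512, l8216] l8638 := rupP (by decide +kernel)
theorem r8639 : PImp [l8620, l3342, l3935, l3934, l3119, l3223, l3219, l5035, l4832, l4844, l4834, l7703, l328, l8632, l2992, l2987, l2991, l2808, l8616, l8631, o4843, l2615, l3809, l3815, l5272, l1145, o8626, l2697, l1210, l1209, o4555, l1779, l3829, l4633, o8592, o4486, o5355, o5372, o4788, l3006, l3007, l7973, l2557, l8637, l3927, l8638, o5824, o4571, l8636, l2561, o2924, l5797] l8639 := rupP (by decide +kernel)
theorem r8640 : PImp [l5174, l5433] l8640 := rupP (by decide +kernel)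
theorem r8641 : PImp [l3119, l3116, l3115, l3223, l3219, l5035, l4834, l7703, l8620, l3935, l3338, l3339, l3342, l8640, l8632, l2992, l2991, l2807, l2808, l8616, o4843, l3809, l3815, l1145, o8626, l2697, l1210, o4555, l1779, l4128, l3829, l5178, l4633, o8609, o4964, l4087, o5358, l8369, o3469, l3422, l8639, l5349] l8641 := rupP (by decide +kernel)
theorem r8642 : PImp [l1138, l1242, l5741, l7736, o6651, l2707, o5101, l4598] l8642 := rupP (by decide +kernel)
theorem r8643 : PImp [l7703, l3442, o4561, l3007, o4555, l1145, l494, l1138, o5193, l1242, l3223, l5035, l4832, l4844, l4834, l2710, l2604, l7768, l2555, l2557, l7735, l4084, l8642, l7757, l2544, l4598, o9099, o5513] l8643 := rupP (by decide +kernel)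
theorem r8644 : PImp [l8562, l8125] l8644 := rupP (by decide +kernel)
theorem r8645 : PImp [l3223, l1138, o5158, l2531, l3333, l3119, l2808, o5159, l5949, l4129, l1779, o1589, l3464, l3219, l3532, l3336, l481, l480, l7707, l2668, l4138, o5160, l3122, l7703, l2990, l2987, l1243, l3115, l5035, l4832, l4844, l4834, l2815, l3442, o9098, o4555, o4561, o5451, o5008, l1146, l1145, l3006, l755, l5651, l8464, l7873, o8774, l3512, l8643, l2615, l8644, l2557, l8572, o5824, l7935, l8245] l8645 := rupP (by decide +kernel)
theorem r8646 : PImp [l8641, l1138, o5159, o5158, l480, l481, l3216, l2808, l3119, l3115, l3223, l3219, l5035, l4834, l7703, l3008, l5925, l8603, l5949, l4129, l7707, l2531, l3532, l1779, l7706, l3491, l3336, l3464, l8645, l8601, o3469, l8382, l3419, l668, o8607, l1218, l1102, l1150] l8646 := rupP (by decide +kernel)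
theorem r8647 : PImp [l480, l481, l4224, l390, l5603, l5242] l8647 := rupP (by decide +kernel)
theorem r8648 : PImp [l3216, l3118, l3117, l7703, l2994, l8373, o3556, l5776, l7921] l8648 := rupP (by decide +kernel)
theorem r8649 : PImp [l2808, l8641, l1138, l1243, l3119, l3115, l3223, l3219, l481, l480, o5158, o5159, l8647, l5925, l8603, l5949, l8646, l4129, l7707, l2531, l3532, l4163, l1779, l7706, l2656, l3336, o1545, o1544, l8648, o3469, l626, o8607] l8649 := rupP (by decide +kernel)
theorem r8650 : PImp [l5035, l4834, l8640, l8575, l8372, l8383, o5824] l8650 := rupP (by decide +kernel)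
theorem r8651 : PImp [l7703, l1145, l4084, l8642] l8651 := rupP (by decide +kernel)
theorem r8652 : PImp [l8641, l3442, o4555, l5035, l4834, l8640, l8575, l4832, l4844, l8650, l2557, l8651, l7190, l8384, o5824] l8652 := rupP (by decide +kernel)
theorem r8653 : PImp [o5513, l8368] l8653 := rupP (by decide +kernel)
theorem r8654 : PImp [l5035, l4834, l8653, o5824, l8383] l8654 := rupP (by decide +kernel)
theorem r8655 : PImp [l7190, o5513, l4603, l4084, o9099, l2544] l8655 := rupP (by decide +kernel)
theorem r8656 : PImp [l7703, l8641, l3442, o4555, l1145, l5035, l4834, l8649, l8640, l6350, l3223, l3119, l2808, o5380, l8616, l3394, l8575, l2604, l1138, l1242, l4832, l4844, l2674, l8652, l8654, l2557, l8655, o5824, l8384, l4084, l4598, l7757] l8656 := rupP (by decide +kernel)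
theorem r8657 : PImp [l5035, l4834, l8649, l8640, l6350, l3336, l3933, l473, l8641, l1138, l1243, l3115, l3223, l7703, l3442, o4555, l1146, l8656, l2703, l2689, l1102, l755, o9097] l8657 := rupP (by decide +kernel)
theorem r8658 : PImp [l5035, l4834, l8649, l8640, l6350, l3336, l3115, l7703, l8657, l8601, o3469, o5364, l3419, l668] l8658 := rupP (by decide +kernel)
theorem r8659 : PImp [o5101, l8466] l8659 := rupP (by decide +kernel)
theorem r8660 : PImp [l1138, l1242, l5034, l4058, l5050, o3897] l8660 := rupP (by decide +kernel)
theorem r8661 : PImp [l8118, l8083] l8661 := rupP (by decide +kernel)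
theorem r8662 : PImp [l8553, l3308, l8660, l706, l702, o5929] l8662 := rupP (by decide +kernel)
theorem r8663 : PImp [l1244, l3008, l1218, l425, l3007, l1150, l1138, l1243, l1242, l8548, l3075, o2449, l8662, l4763, l8661, l5034, l8043, l4540, l4535] l8663 := rupP (by decide +kernel)
theorem r8664 : PImp [l5035, l4834, l8649, l8640, l6350, l3223, l3119, l2808, o5380, l8616, l3394, l2604, l3933, l2710, l404, l3219, l3115, l7703, l3008, l8658, l8576, l1218, l1149, l2990, l3336, o4878, l4163, l8464, o3506, l503, l476, l473, l2658, o1545, l1150, o1544, l8578, l2814, o3795, l3117, l4164, l3118, l4165, l3422, o5506, l3430, o8774, o5781, l2250, o8504, o8503, o5401, l3491, l3473, o8798, o4834, o9087, l2673, l2674, o4860, l3216, l3464, l2993, o6519, l2750, l4087, o4318, o4854, l4785, l4790, l4191, l3436, l425, l3007, l1210, l2992, l8641, l1138, l1243, l1242, l4832, l4844, l2713, l8659, o5824, o4571, o5727, l8381, l8538, l2568, o8892, l2544, o3852, l2591, l2582, o8531, o6456, o8611, o8586, o6353, o6748, l8663, l8552, l3075, o2449, l8662, l4763, l8661, l5034, l7772, l5045,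 o3958, l4540] l8664 := rupP (by decide +kernel)
theorem r8665 : PImp [l5035, l4834, l8658, l8649, l476, l473, l8640, l6350, l2808, l2658, l3223, l3119, o5380, l8616, o1545, l3336, l7703, l3008, l8576, l1218, l1150, o1544, l1149, o4878, l8578, l3422, l3436, l3394, l8641, l1138, l1242, l4832, l4844, l2604, l8664, l2557, l8655, o5824, l8557, l4084, l4598, l7757] l8665 := rupP (by decide +kernel)
theorem r8666 : PImp [l5035, l4834, l8649, l476, l473, l8640, l6350, l2808, l2658, l3223, l3119, o5380, l8616, o1545, l3336, l8658, l7703, l3008, l8576, l1218, l1150, o1544, l1149, o4878, l8578, l3394, l4785, l4790, l3422, o5506, l3430, l2814, l425, l3006, l3933, l3464, l3216, l2990, l503, l3118, l3117, l3115, l3219, l4832, l4844, l404, l4165, l4164, l4163, l8464, o3506, o8774, o3795, l2250, o5781, o8504, o8503, o5401, l3491, l8665, l2615, l8579, l2557, l8580, o5824, l7935, l8581] l8666 := rupP (by decide +kernel)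
theorem r8667 : PImp [l2808, l7703, l2990, l8641, l3219, l5035, l4834, l3008, l8649, l476, l8640, l6350, l8658, l8576, l1218, l1149, l8666, l5039, l3835, o4698, o4699, l5438, l4244] l8667 := rupP (by decide +kernel)
theorem r8668 : PImp [l8667, l8641, l1138, l1243, l8647, l8603, l8617, l8602] l8668 := rupP (by decide +kernel)
theorem r8669 : PImp [l8641, l1138, o5193, l3119, l3223, l5035, l4834, l7703, l3008, l2808, l8667, l8668, l8640, o5380, l6350, l8616, l3394, l4780, l2674, l2675, l5411, l4971, l5387, o4865] l8669 := rupP (by decide +kernel)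
theorem r8670 : PImp [l5989, l8632] l8670 := rupP (by decide +kernel)
theorem r8671 : PImp [l8670, l8640, l8458] l8671 := rupP (by decide +kernel)
theorem r8672 : PImp [l5035, l4834, l8669, l8671] l8672 := rupP (by decide +kernel)
theorem r8673 : PImp [l480, l481, l5038, l5037, l2681, l8235, l7707, l3490] l8673 := rupP (by decide +kernel)
theorem r8674 : PImp [l5038, l5037, l481, l480, l8673, l5731, l5242, l4659, l2843] l8674 := rupP (by decide +kernel)
theorem r8675 : PImp [l5035, l4834, l8672, l8674, l8640, l6350, l3223, l3119, l2808, o5380, l8616, l3394, l2604, l2806, l3219, l3115, l4100, l7703, l2990, l3336, l2992, l5037, l2674, l4425, o4973, o4492, l1145, l8464, o3820, l2250, o3795, o3469, o4495, l3007, l2658, o1544, o1545, l4428, l4135, l3118, l3117, o5407, l8364, o5811, o5810, o8504, o8503] l8675 := rupP (by decide +kernel)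
theorem r8676 : PImp [l5035, l4834, l8672, l8674, l8640, l6350, l3223, l3119, l2808, o5380, l8616, l3394, l2604, l3219, l3115, l4100, l7703, l2990, l3336, l2992, l5037, l2674, l4425, o4973, o4492, l1145, l8464, o3469, l8675, o5824, l8383] l8676 := rupP (by decide +kernel)
theorem r8677 : PImp [l7190, l4084, l4602, l7736, o3582] l8677 := rupP (by decide +kernel)
theorem r8678 : PImp [l8672, l8674, o5380, l5035, l4834, l8640, l7703, l2992, l5037, l2674, l4425, o4973, l2990, l3219, l3115, l6350, l4100, l3336, o4492, l1145, l8464, o3087, l4846, o3469, l3223, l3119, l2808, l8616, l3394, l4832, l4844, l2604, l8676, l2557, l8462, l8677, o5824, l8384, l4084, l7736, l8385, o8927, l4598] l8678 := rupP (by decide +kernel)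
theorem r8679 : PImp [l4428, l4135, o5407, l8216, o5810, o5811, o8503, o8504] l8679 := rupP (by decide +kernel)
theorem r8680 : PImp [l8672, l8674, o5380, l5035, l4834, l8640, l7703, l2992, l5037, l2674, l4425, o4973, l2990, l3219, l3115, l6350, l4100, l3336, o4492, l1145, l8464, o3087, l4846, l2806, o3820, l2250, o3795, o3469, o4495, l3006, l2989, l3223, l4441, o4462, l2658, l3119, l2808, l8616, o1544, o1545, l3933, l3464, l3394, l3118, l3117, l4832, l4844, l2615, l8571, l2557, l8567, l4084, l8679, o5824, l2561, l2559, l2544, o8907] l8680 := rupP (by decide +kernel)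
theorem r8681 : PImp [l7703, l1145, l7190, l8655, l4084, l8642] l8681 := rupP (by decide +kernel)
theorem r8682 : PImp [l8672, l8674, o5380, l5035, l4834, l8640, l7703, l2992, l5037, l2674, l4425, o4973, l2990, l3219, l3115, l6350, l4100, l3336, o4492, l1145, l8464, o3087, l4846, o3469, l3223, l3119, l2808, l8616, l3394, l4832, l4844, l8680, l2604, l8676, l8678, l2557, l1138, l3442, l1242, l8681, o5824, l8384, l4084, l8651, l4598, l7757] l8682 := rupP (by decide +kernel)
theorem r8683 : PImp [l8363, l8465] l8683 := rupP (by decide +kernel)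
theorem r8684 : PImp [l2713, o5513, l8683, l4084, l7659] l8684 := rupP (by decide +kernel)
theorem r8685 : PImp [l5034, l4029, l4017, o3920] l8685 := rupP (by decide +kernel)
theorem r8686 : PImp [l4026, l4030] l8686 := rupP (by decide +kernel)
theorem r8687 : PImp [l4525, l3074, l8686, l4029, l8685, o4090, l3320, l3975, l3282, l8265, o6014] l8687 := rupP (by decide +kernel)
theorem r8688 : PImp [l4021, o3927, o4095, l4718, l3966] l8688 := rupP (by decide +kernel)
theorem r8689 : PImp [l4525, l5034, l8688, l3303, l5067, l4051] l8689 := rupP (by decide +kernel)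
theorem r8690 : PImp [l4697, l4718, o3982] l8690 := rupP (by decide +kernel)
theorem r8691 : PImp [o2450, o2442, l4525, l4086, l8687, o2479, o2474, l8689, l4008, l8690, l4981, l4983] l8691 := rupP (by decide +kernel)
theorem r8692 : PImp [o2442, l1244, l8691, l7908, l706, l3308] l8692 := rupP (by decide +kernel)
theorem r8693 : PImp [l328, l3089, l3090, o2488, o2442, o2569, l8692, l8542, l8043, l7199, l3304] l8693 := rupP (by decide +kernel)
theorem r8694 : PImp [l4087, l8693, l3075, o2463, o2449, l8483, l3303, l8553, l8043, l5675, l4737] l8694 := rupP (by decide +kernel)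
theorem r8695 : PImp [l3090, o2569, l8692] l8695 := rupP (by decide +kernel)
theorem r8696 : PImp [l4087, l8695, l3075, o2463, o2449, l8553, l8483] l8696 := rupP (by decide +kernel)
theorem r8697 : PImp [l328, l3089, o2488, o2442, l8542, l8474, l7199, l3308] l8697 := rupP (by decide +kernel)
theorem r8698 : PImp [l4087, l8694, l8696, l4763, l8697, o2463, o2449, l8483, l8661, l5841, l4743] l8698 := rupP (by decide +kernel)
theorem r8699 : PImp [l4087, l8695, l3075, o2449, l8553, l6157] l8699 := rupP (by decide +kernel)
theorem r8700 : PImp [l8693, l8697] l8700 := rupP (by decide +kernel)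
theorem r8701 : PImp [l4087, l8698, l8699, l8700, l3075, o2449, l6157, l3303, l5675, l5672, l4737] l8701 := rupP (by decide +kernel)
theorem r8702 : PImp [l3303, l4059, l4027, l2779] l8702 := rupP (by decide +kernel)
theorem r8703 : PImp [l4086, l8687, l8702, l3308, l4056, l3999, o3938] l8703 := rupP (by decide +kernel)
theorem r8704 : PImp [l328, l3090, o2488, o2442, o2569, l8703, l706, l6566, l3308, o3907, l4073] l8704 := rupP (by decide +kernel)
theorem r8705 : PImp [l8704, l3075, o2463, o2449, l8553, l6157, l8483] l8705 := rupP (by decide +kernel)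
theorem r8706 : PImp [l328, l3089, o2488, o2442, l8697, l8542, l8043, l7199, l3304] l8706 := rupP (by decide +kernel)
theorem r8707 : PImp [l8083, l8661, l6157] l8707 := rupP (by decide +kernel)
theorem r8708 : PImp [l4087, l8701, l8705, l4763, l8706, l3075, o2449, l8707, l5034, l7772, l5045, o3958, l4540] l8708 := rupP (by decide +kernel)
theorem r8709 : PImp [l3303, l4059, l8685, o4199, l3320, o5981, o1765, l8265, o6014] l8709 := rupP (by decide +kernel)
theorem r8710 : PImp [l3308, l4056, l3999, o3938] l8710 := rupP (by decide +kernel)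
theorem r8711 : PImp [l4118, l4086, l8710, l8702, l8709, l3074] l8711 := rupP (by decide +kernel)
theorem r8712 : PImp [l7703, l328, l5035, o2488, o2557, o2442, o2569, l8711, l706, l3308, l7908, l4073, l4005, o3938] l8712 := rupP (by decide +kernel)
theorem r8713 : PImp [l3308, l5034, l4525, l4058, o4083, o4078, o3897, l3974, l4045, l4984] l8713 := rupP (by decide +kernel)
theorem r8714 : PImp [l7703, l3007, l3006, l3772, l8712, l3075, o2449, l8553, l3308, l8713, l706, l702, o5929] l8714 := rupP (by decide +kernel)
theorem r8715 : PImp [l4763, l5034, l8083, l8661, l5031, l5984] l8715 := rupP (by decide +kernel)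
theorem r8716 : PImp [l2604, l4428, o8918, o8798, l5035, l4834, l4087, l503, o5196, l1243, l1242, l7703, l3007, l3006, l5037, l4832, l4844, l2713, l8684, o5824, o4571, o5727, l8381, l2570, l8538, o8892, l2544, o3852, l2591, l2582, o8531, o6456, o8611, o8586, o6353, o6748, l8708, l8714, l8706, l3075, o2449, l8715, l7772, l5045, o3958, l4540] l8716 := rupP (by decide +kernel)
theorem r8717 : PImp [l7190, o5824, l8557] l8717 := rupP (by decide +kernel)
theorem r8718 : PImp [l503, o5196, l1242, l5035, l4832, l4844, l2710, l2604, l8716, l2557, l8717, l4084, l7757, l4598, l8459, l8655] l8718 := rupP (by decide +kernel)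
theorem r8719 : PImp [l5035, l8672, l4100, l4428, l5038, l5037, l503, l3119, l3117, l3115, l3223, l3219, l4832, l4844, l4834, l7703, l328, l2992, l2987, l2988, l2990, l2989, l2806, l2808, l8674, l8640, o5380, l6350, l2674, l2673, l8616, l3933, l2658, l3336, l4425, l4441, l3394, l3464, o1544, o4495, o4498, o4492, o4973, l4427, l4424, o4463, o4462, o4946, o4942, l3006, l1146, l1145, l8464, o3469, l2809, o3082, o3054, o3062, o3087, o3820, o3795, l4867, l4846, l8682, l8576, l3422, l3430, l3436, l4191, o6519, l4785, o8774, l4196, l2750, o4854, o4318, o4958, o5468, o4481, o8918, l3500, l3505, l8718, l2615, l8579, l7713, l2557, l4084, l8580, l7763, o4571, o2924, l5797] l8719 := rupP (by decide +kernel)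
theorem r8720 : PImp [l5234, l8640, l8458] l8720 := rupP (by decide +kernel)
theorem r8721 : PImp [l5035, l4834, l8672, l5038, l8719, l8720] l8721 := rupP (by decide +kernel)
theorem r8722 : PImp [l2571, l2568, l7708, o5730, l8380, o9147, l2707, o3826, l2574, o8778, o8381] l8722 := rupP (by decide +kernel)
theorem r8723 : PImp [o5101, l4610, l8110] l8723 := rupP (by decide +kernel)
theorem r8724 : PImp [l2708, l4606, o8579, l24] l8724 := rupP (by decide +kernel)
theorem r8725 : PImp [l2604, l7703, l1145, l328, l2713, l8722, l4084, l4082, l8723, o5730, l8724, l2544, l5848, l6175, o9057] l8725 := rupP (by decide +kernel)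
theorem r8726 : PImp [l7190, l2578, l5666] l8726 := rupP (by decide +kernel)
theorem r8727 : PImp [l8459, l8677] l8727 := rupP (by decide +kernel)
theorem r8728 : PImp [l3223, l7703, l2987, o4696, o8640, l1145, l2710, l2604, l8725, l2555, l2557, l8726, l4082, l8727, o5730, l4598, o8579, l2708] l8728 := rupP (by decide +kernel)
theorem r8729 : PImp [l2571, l2580, o9010, l2544] l8729 := rupP (by decide +kernel)
theorem r8730 : PImp [l2713, l8125, l8144, l8729, l4084, l2619, o9122, o3582] l8730 := rupP (by decide +kernel)
theorem r8731 : PImp [l2808, l2807, l2806, l7703, l2990, l2987, l2992, l8721, o4557, l1145, l1146, o4563, l3007, l3006, l3374, l3384, o4569, l496, l498, l501, l3119, l3118, l3117, l3116, l3115, l3112, l3223, l3219, l5035, l4832, l4844, l4834, l481, l480, o5467, o5465, o5466, o5452, o5451, o4726, o4707, o4696, l1590, l3809, l1779, l759, l5925, l2668, l3488, l4127, l4128, o8640, o3464, l3473, l3491, o8660, o8659, l2656, l3392, l3464, o1589, l3516, o1582, o1545, o1544, l4770, l4775, l3835, l4771, l4132, l4130, l5238, l8235, o8656, o8607, o3468, l2330,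 o8774, o8933, l7921, l3435, l8728, l2615, l8730, l2557, l8638, l7935, l2589, l2576] l8731 := rupP (by decide +kernel)
theorem r8732 : PImp [l8362, l8110, o3582, l8094, l5711, l2571] l8732 := rupP (by decide +kernel)
theorem r8733 : PImp [l2571, l7708] l8733 := rupP (by decide +kernel)
theorem r8734 : PImp [l2713, l488, l496, l501, l7703, l328, o5515, o5101, l8732, l8605, l8733, l4084, l5662, l8367] l8734 := rupP (by decide +kernel)
theorem r8735 : PImp [l5034, l4115, l4086, l8053, l5068, o2450, l8037, l4050, l5053] l8735 := rupP (by decide +kernel)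
theorem r8736 : PImp [l6566, l706, o3907, l3308, l4073] l8736 := rupP (by decide +kernel)
theorem r8737 : PImp [l7703, l5035, l3089, o2549, o2442, l8736, l5034, l4233, l4086, l8735, l8064, l7857] l8737 := rupP (by decide +kernel)
theorem r8738 : PImp [l3303, l4759, o3907, l4737, l4738] l8738 := rupP (by decide +kernel)
theorem r8739 : PImp [l8640, l3960, l4763, l3089, l3090, o2529, l8116, l5034, l4525, l4230, l8738, l3308, l3272, l4984, l7859, o6275, o4126] l8739 := rupP (by decide +kernel)
theorem r8740 : PImp [l5034, l4233, l4086, l8735, l8064, l7857] l8740 := rupP (by decide +kernel)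
theorem r8741 : PImp [l7703, l5035, l3089, o2549, l8740, l6566, l8736, o3907, o3902, o5929, l4073, l3308] l8741 := rupP (by decide +kernel)
theorem r8742 : PImp [l5034, l6476, l3308, l1073, l713, l5072, l5050] l8742 := rupP (by decide +kernel)
theorem r8743 : PImp [l6290, o2497, l5267, l3070, o5875] l8743 := rupP (by decide +kernel)
theorem r8744 : PImp [l7703, l3008, l3770, l8741, l8742, l6566, o4076, o3907, o3902, l8743, l5060, l3308, l706, o5929] l8744 := rupP (by decide +kernel)
theorem r8745 : PImp [l8640, l3960, l4763, l5034, l4525, l4230, l8738, l3308, l3272, l4984, l7859, o6275, o4126] l8745 := rupP (by decide +kernel)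
theorem r8746 : PImp [l3089, l3090, o2529, l8739, l3085, l8745, l8085, l7200] l8746 := rupP (by decide +kernel)
theorem r8747 : PImp [l4737, l4735] l8747 := rupP (by decide +kernel)
theorem r8748 : PImp [l8715, l5265, l8747, l5015, l5017] l8748 := rupP (by decide +kernel)
theorem r8749 : PImp [l8640, l6350, l3933, l2710, l7703, l2991, l2992, l8744, l8746, l8748, l8085, l7814, l3304, l7200, l7199, l1074, l4535, l4547, o3907] l8749 := rupP (by decide +kernel)
theorem r8750 : PImp [l1246, l7703, l5035, l3089, o2549, o2443, l8740, l712, l706, o3890, l3308, l4073] l8750 := rupP (by decide +kernel)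
theorem r8751 : PImp [l1246, l1267, l3770, l8750, l8742, o2460, l6566, l6290] l8751 := rupP (by decide +kernel)
theorem r8752 : PImp [l1268, l3089, o2443, l7871, l5034, l7859, l3308, o6192, l4759, o3890] l8752 := rupP (by decide +kernel)
theorem r8753 : PImp [l8747, l5017, l5015] l8753 := rupP (by decide +kernel)
theorem r8754 : PImp [l8640, l2673, l2674, l6350, l3933, l2710, l7703, l2991, l2992, l8749, l1246, l8751, l3960, l8752, o2460, l8753, l8085, l7814, l3304, l7199, l1074, o6151, l4547, o3890] l8754 := rupP (by decide +kernel)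
theorem r8755 : PImp [l5034, l4228, l4233, l4086, l6625, l8064, l7426, l407, l3286, l3282, l1073, o5722, l6155, o4163, o6050, o1528, o5895, o6014] l8755 := rupP (by decide +kernel)
theorem r8756 : PImp [l2989, l2992, l328, l3089, o2488, o2525, o2542, l8755, l6566, o4085, o4076, l3070, l3308, l8064, l728, l4701] l8756 := rupP (by decide +kernel)
theorem r8757 : PImp [l3070, l3297] l8757 := rupP (by decide +kernel)
theorem r8758 : PImp [l8757, l3308, o3907, o3902, l4069, l8743] l8758 := rupP (by decide +kernel)
theorem r8759 : PImp [l3008, l3841, l8756, l8742, l6566, o4076, l8758, l1246, l1267, o2460, l6290] l8759 := rupP (by decide +kernel)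
theorem r8760 : PImp [l1246, l8752] l8760 := rupP (by decide +kernel)
theorem r8761 : PImp [l8640, l3960, l328, l3089, l3090, o2488, o2529, l8760, l8739, l8745, l3085, l8115, l7200] l8761 := rupP (by decide +kernel)
theorem r8762 : PImp [l8748, l8753, l1246, o2460] l8762 := rupP (by decide +kernel)
theorem r8763 : PImp [l328, l4763, l8761, l8762, l7772, l8117, l3308, l7199, l1074, o6151, l4518, l4547, o2491, l684, l5051] l8763 := rupP (by decide +kernel)
theorem r8764 : PImp [l8750, l8737] l8764 := rupP (by decide +kernel)
theorem r8765 : PImp [o3907, l3309, l8544, l8508] l8765 := rupP (by decide +kernel)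
theorem r8766 : PImp [l7703, l2991, l8640, l2674, l2673, l8763, l3770, l6350, l3933, l2710, l2992, l8754, l1119, l8764, l8742, l3075, l6566, l8765, l1246, l1267, l8544, l3312, l3309] l8766 := rupP (by decide +kernel)
theorem r8767 : PImp [l3770, l8750, l8764, l8744, l1119] l8767 := rupP (by decide +kernel)
theorem r8768 : PImp [l8744, l8751] l8768 := rupP (by decide +kernel)
theorem r8769 : PImp [l8767, l8742, l6566, l8768, l1119, l3075, l8765, l1246, l1267, l8544, l3312, l3309] l8769 := rupP (by decide +kernel)
theorem r8770 : PImp [l8085, l7772, l3304, l4523] l8770 := rupP (by decide +kernel)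
theorem r8771 : PImp [l328, l3089, l3090, o2488, o2529, l8770, l5034, l8745, l1246, l1268, o2443, l7859, l3308, o6192, l4759, o3890] l8771 := rupP (by decide +kernel)
theorem r8772 : PImp [l8640, l2673, l2674, l6350, l3933, l2710, l7703, l2991, l2992, l328, l8766, l8769, l4763, l8771, l8762, l8085, l7814, l7772, l8770, l3304, l407, l316, o2491, o2499, l4517, l4997, l5051, l5061, l8164, l2785] l8772 := rupP (by decide +kernel)
theorem r8773 : PImp [l3841, l8759, l8756, l1119, l8742, l3075, l6566, l8765, l1246, l1267, l8544, l3312, l3309] l8773 := rupP (by decide +kernel)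
theorem r8774 : PImp [l5034, l8745, l1246, l1268, o2443, l7859, l3308, o6192, l4759, o3890] l8774 := rupP (by decide +kernel)
theorem r8775 : PImp [l328, l3089, l3090, o2488, o2529, l8774, l7772, l4708, l4523] l8775 := rupP (by decide +kernel)
theorem r8776 : PImp [l328, l4763, l8763, l8775, l8762, l7772, l8117, l3308, l4523, l3094, o2491, l4517, o6151, l5051, l5061, l684] l8776 := rupP (by decide +kernel)
theorem r8777 : PImp [l7703, l2991, l8640, l2674, l2673, l8776, l6350, l3933, l2710, o4958, l8773, l8772] l8777 := rupP (by decide +kernel)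
theorem r8778 : PImp [l4233, l4086, l8088] l8778 := rupP (by decide +kernel)
theorem r8779 : PImp [l8736, l712, l706, o3890, l3308, l4073] l8779 := rupP (by decide +kernel)
theorem r8780 : PImp [o2442, l8778, l8779] l8780 := rupP (by decide +kernel)
theorem r8781 : PImp [l7703, l8769, o4351, l4087, l8780, l8742, l3075, l6566, l8544, l6290, l3312, l3309] l8781 := rupP (by decide +kernel)
theorem r8782 : PImp [o6014, o5895] l8782 := rupP (by decide +kernel)
theorem r8783 : PImp [l5034, l4525, l4228, l4086, l6625, l8064, l7426, l413, l408, l3282, l1073, o6297, o5722, l8782, l3320, o947, l3983, l3966, l4056, l8686, l4032, o3907, o3890] l8783 := rupP (by decide +kernel)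
theorem r8784 : PImp [l328, l3089, l3090, o2488, o2525, l8783, l6566, l8779, o4076, l3070, o5875, o6115] l8784 := rupP (by decide +kernel)
theorem r8785 : PImp [l8758, l1119, l8765, l3075] l8785 := rupP (by decide +kernel)
theorem r8786 : PImp [l8640, l6350, l7703, l2991, l2674, l2673, l8776, l3841, l3933, l2710, l2989, l2992, l3008, l8777, l4892, l4891, l8781, l8784, l8742, l6566, o4076, l8785, l1246, o2460, l8544, l6290, l3312, l3309] l8786 := rupP (by decide +kernel)
theorem r8787 : PImp [l3006, l4525, l4233, l4086, l8742, l3090, l5068, l3303, l5745, o4091, o4078, o4229, l3966, l3975, o947, l3282, l7857, o6014] l8787 := rupP (by decide +kernel)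
theorem r8788 : PImp [l328, l3089, o2488, l3070, l3308, l3988, l728, l4701] l8788 := rupP (by decide +kernel)
theorem r8789 : PImp [l3008, l6566, o4085, o4080, o4076, l8788, l8785, l1246, l1267, o2460, l8544, l6290, l3312, l3309] l8789 := rupP (by decide +kernel)
theorem r8790 : PImp [l4525, l3303, l5745, o4091, o4078, o4229, l3966, l3975, o947, l3282, o6014, o5895] l8790 := rupP (by decide +kernel)
theorem r8791 : PImp [l8640, l2673, l2674, l6350, l3933, l2710, l7703, l2991, l2992, l3007, l3006, l328, l8776, l8786, l8789, l5034, l4525, l4086, l8742, l8787, l3090, o2488, l8790, l3308, l4056, l3999, l1073, o6297, l684, l411, l5072, l4051, l4984] l8791 := rupP (by decide +kernel)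
theorem r8792 : PImp [o2542, l328, o2488, l3090, l3089, l4086, l4233, l5034, l8064, l8783, l3286, l3282, l7857, l8088, l7770, o6277, o1528, o5720, o6014] l8792 := rupP (by decide +kernel)
theorem r8793 : PImp [l3933, l2710, l2989, l2992, l3007, l3006, l328, l3841, l8789, l5034, l4525, l4086, l8742, l3090, o2488, o2525, o2442, l8792, l8787, l8790, l3308, l5067, l3999, l5072, l4051, l411, l4984] l8793 := rupP (by decide +kernel)
theorem r8794 : PImp [l8113, l8762] l8794 := rupP (by decide +kernel)
theorem r8795 : PImp [l4708, l4523] l8795 := rupP (by decide +kernel)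
theorem r8796 : PImp [l3219, l8640, l6350, l5208, l2835, l390, o5823, o4552, o4548, o5818, l7703, l2993, l2673, l2674, l3006, l3008, l328, o3582, l2591, l2582, o9147, o8906, l3491, l1127, l485, o5841, l3500, l3505, l8791, l7840, l8793, l4763, l8794, l7772, l8795, l3094, o2489, o2491, l8117, l8661, l5051, l3308, l4542, o6151, l4547, l684] l8796 := rupP (by decide +kernel)
theorem r8797 : PImp [o5481, o5728, o8774, o8778, o8381] l8797 := rupP (by decide +kernel)
theorem r8798 : PImp [l2989, l2992, l3006, l4086, l8742, l3089, l3090, o2525, o2542, o2569, l8792, l8787, l8790, l8540, l3308, l1073] l8798 := rupP (by decide +kernel)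
theorem r8799 : PImp [o2488, l7908, l3308, l3070, l5861] l8799 := rupP (by decide +kernel)
theorem r8800 : PImp [l706, l702, l5750, o3888] l8800 := rupP (by decide +kernel)
theorem r8801 : PImp [l5267, o2444, l8508, l1267] l8801 := rupP (by decide +kernel)
theorem r8802 : PImp [l3303, l4069, l8800, l8801, o6115, o3890, l1244, l8508, o2460] l8802 := rupP (by decide +kernel)
theorem r8803 : PImp [l2992, l4892, l3007, l328, o5493, o5839, l3484, l3478, l8798, l8799, l8802, l3308, l3312, l5847, l8757, l3309] l8803 := rupP (by decide +kernel)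
theorem r8804 : PImp [o8778, o8381] l8804 := rupP (by decide +kernel)
theorem r8805 : PImp [l2992, l4892, o5823, l3007, l328, l8803, o8774, l8804, o5727, l3484, l3478, l8798, l7117, l8799, l3308, l8802] l8805 := rupP (by decide +kernel)
theorem r8806 : PImp [l2992, l4892, l3007, l8805, l3491, l5732, l1127, l3478, l8789, o5841, l8798] l8806 := rupP (by decide +kernel)
theorem r8807 : PImp [o2569, o2542, l1073, l7827, l8539] l8807 := rupP (by decide +kernel)
theorem r8808 : PImp [l5034, l328, l3089, o2488, l8807, l3308, l3996, l8064, o4066, l5745] l8808 := rupP (by decide +kernel)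
theorem r8809 : PImp [l4233, l4086, l8808, l6476, l3308, l1073, l7827, o2540, o2568, l8539] l8809 := rupP (by decide +kernel)
theorem r8810 : PImp [l8799, l8802, l3308, l3312, l706, l702, l3309, o5929] l8810 := rupP (by decide +kernel)
theorem r8811 : PImp [l2992, l4892, l3933, l2710, l3007, l3006, l328, l3841, l8806, l6221, l8809, l8810, l8789] l8811 := rupP (by decide +kernel)
theorem r8812 : PImp [o5727, o5493, l8804, o8774] l8812 := rupP (by decide +kernel)
theorem r8813 : PImp [l8776, l8794] l8813 := rupP (by decide +kernel)
theorem r8814 : PImp [l8113, l8775] l8814 := rupP (by decide +kernel)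
theorem r8815 : PImp [l5034, l4763, l3304, l3308, l8747, l8083, l5265] l8815 := rupP (by decide +kernel)
theorem r8816 : PImp [l8640, l3957, l5034, l4232, l8813, l8814, l8815, l3293, l7859, l5799, l3036, o4161, o5894] l8816 := rupP (by decide +kernel)
theorem r8817 : PImp [l2568, o5823, o4552, o4548, o4543, o5818, l8640, l2673, l2674, l6350, l3933, l2710, l7703, l2991, l2992, o4557, l1145, l1146, o4563, l3006, o4569, l3219, l3008, l328, l4130, l5208, l390, l2837, l2835, l8796, o2924, l2599, l2574, o3749, l4892, l8797, l3500, l3505, l8811, l4763, l8812, l3484, l3478, l8816, l7772, l8795, l3094, o2489, o2491, l8117, l5051, l3308, l4517, o6151, l4547, l684] l8817 := rupP (by decide +kernel)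
theorem r8818 : PImp [l4180, l5437, l1102, l755, o8481] l8818 := rupP (by decide +kernel)
theorem r8819 : PImp [l7703, l3223, o4557, l1146, l8640, l6350, l8818, l4183, l2571, l8817] l8819 := rupP (by decide +kernel)
theorem r8820 : PImp [o5818, l8640, l6350, l3933, l2710, l7703, o4557, l1145, l1146, l501, l3223, l3219, l4770, l4771, l4775, l8818, l5208, l8819, l4082, o6585, l3003, l4606, l8724, l3505, o5728] l8820 := rupP (by decide +kernel)
theorem r8821 : PImp [l4525, l3303, l4059, o4091, o4229, l3966, l8782, o947] l8821 := rupP (by decide +kernel)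
theorem r8822 : PImp [l4525, l5034, l3282, l1073, l8821, l5068, l5067, l3999, l5072, l411, l4051, l4984] l8822 := rupP (by decide +kernel)
theorem r8823 : PImp [l4086, l4525, l2989, l2992, l3006, l328, l3090, o2488, o2525, l8792, l8822, l3308, l3975, l4059, o4078] l8823 := rupP (by decide +kernel)
theorem r8824 : PImp [l4525, l5034, l3096, l5267, l713, l3091, l8686, l3074, l8661, l4029, l8685, l4017, o4092, o3914, l3969, l5072] l8824 := rupP (by decide +kernel)
theorem r8825 : PImp [l3008, l8823, l8824, l1073, l3308, o6092, l4053, o4063, o3890, l3996, l8549, o2497] l8825 := rupP (by decide +kernel)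
theorem r8826 : PImp [l3070, l8757, l316, o2491, o2499, l3987, l728, l5763, l5749, l4743] l8826 := rupP (by decide +kernel)
theorem r8827 : PImp [l3304, l4038, l5267, o6115, o5875] l8827 := rupP (by decide +kernel)
theorem r8828 : PImp [l3933, l2710, l3007, l328, l3841, l8825, l6566, o4085, o4080, o4076, l8788, l8826, l3308, l8827, l4069, o3907, l1246, l1267] l8828 := rupP (by decide +kernel)
theorem r8829 : PImp [l8762, l8794, l3089, l3090, o2529, l8774] l8829 := rupP (by decide +kernel)
theorem r8830 : PImp [l328, l3090, o2488, l8115, l4708, l4518, l3303, l4548, l4551] l8830 := rupP (by decide +kernel)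
theorem r8831 : PImp [l3308, l4763, l713, o6336, l5051, l684] l8831 := rupP (by decide +kernel)
theorem r8832 : PImp [l3308, l4763, l8831, o6151, o4230, l684, l8782, l5051, l4085, l4545] l8832 := rupP (by decide +kernel)
theorem r8833 : PImp [l8640, l6350, l2991, l3006, o9147, o8906, l8828, l4763, l3321, l8829, l7772, l8830, l8117, l3308, l3261, l8832, o4229, l4547, l8782, l1074, l4085, l713, l6130, l4544] l8833 := rupP (by decide +kernel)
theorem r8834 : PImp [l5034, l328, l3089, o2488, l8807, l8064, l3308, l3996, l4059, o4066] l8834 := rupP (by decide +kernel)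
theorem r8835 : PImp [l1073, l7827, o2540, o2568, l8539] l8835 := rupP (by decide +kernel)
theorem r8836 : PImp [l3008, l4233, l4086, l8834, l8835, l3308, l4053, l8801, o6092, o4063, o3890, l3996, l8508, o2497] l8836 := rupP (by decide +kernel)
theorem r8837 : PImp [l1246, l1267] l8837 := rupP (by decide +kernel)
theorem r8838 : PImp [l8837, l328, l8836, l8810, l6566, o4085, o4080, o4076, o3907, l8788, l8826, l5060, l3308] l8838 := rupP (by decide +kernel)
theorem r8839 : PImp [l3089, l3090, o2529, l8113, l8745] l8839 := rupP (by decide +kernel)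
theorem r8840 : PImp [l5034, l8839, l8815, l8715, l7859, o2494] l8840 := rupP (by decide +kernel)
theorem r8841 : PImp [l3308, l410, l8832, l8782, l4547, o3897, o124, l4085, l4517, l1074, l4508, l4509, l6130, l6158] l8841 := rupP (by decide +kernel)
theorem r8842 : PImp [l5049, l4535] l8842 := rupP (by decide +kernel)
theorem r8843 : PImp [l2998, l8640, l6350, l3933, l2710, l2991, l2992, l3007, l3006, l8833, l2707, o3241, l2599, l2574, l4892, l8837, l8838, l3321, l8840, l7772, l8830, l8117, l3308, l3261, l5808, l8841, l1245, o2460, l8842, o3907, l4547, l4517, l1074, l4533, l3096, l8115] l8843 := rupP (by decide +kernel)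
theorem r8844 : PImp [l3933, l2710, l3007, l3841, l8825, l6566, l6290, o2460, o2453, l8779] l8844 := rupP (by decide +kernel)
theorem r8845 : PImp [o2488, o2443, l4518, o6213, l3308, o3890, l4753] l8845 := rupP (by decide +kernel)
theorem r8846 : PImp [l4518, l4524] l8846 := rupP (by decide +kernel)
theorem r8847 : PImp [l2571, l5035, l4834, l8731, l8640, l6350, l3933, l2710, l3119, l2808, l8721, l3374, l4129, l1779, o1593, l7703, l498, l8601, l2674, o4557, o4563, l3007, l2673, l3464, l3431, l8734, l8383, l4832, l4844, l3115, l3384, l3336, l2713, l3394, l2658, o1544, l3435, l8820, l759, o5838, o5480, o5487, o5823, o4552, o4543, o5818, l2998, l2996, l2991, l1145, l1146, l3006, o4569, l496, l501, l3219, l328, l5208, l3500, l3505, l390, l5460, l3478, l8843, l4775, l4846, l3758, l5388, l4776, l3137, l4187, o4346, l4852, l3762, l4087, l1246, l8837, l8844, l8829, l7772, l8845, l3075, l8846, l3304, l3308, l5672, l4756, l4752] l8847 := rupP (by decide +kernel)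
theorem r8848 : PImp [l3219, l5199, l5438] l8848 := rupP (by decide +kernel)
theorem r8849 : PImp [l5068, l4056, l5853] l8849 := rupP (by decide +kernel)
theorem r8850 : PImp [l328, l3090, o2488, l8849, l8821, l4059, l3282, o4065, l3996] l8850 := rupP (by decide +kernel)
theorem r8851 : PImp [l5034, l4053, l4048, o3896] l8851 := rupP (by decide +kernel)
theorem r8852 : PImp [l5034, l4086, l8850, o2449, l8661, l8851, l4058, l5050, o3895] l8852 := rupP (by decide +kernel)
theorem r8853 : PImp [l8837, l1246, l8852, l6566, l6290, o2460, o2453, l8779] l8853 := rupP (by decide +kernel)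
theorem r8854 : PImp [l5035, l4834, l8731, l8640, l8721, l3374, l3119, l4129, l2808, l4832, l4844, l3115, l3384, l6350, l3336, l2713, l1779, l3394, l2658, o1544, l3933, l2710, o1593, l7703, l498, l8601, l3431, l3435, o4557, o4563, l3007, l2673, l3464, l8734, l2674, l8383, l8820, l759, o5487, l3219, l476, o5480, l501, o5472, l8848, l5208, l390, l3478, l3505, l5460, l3500, o5823, o4552, o5818, l2998, l2996, l2991, l1145, l1146, l3006, o4569, l496, l3008, l8847, l4771, l4846, l3758, l5388, l4776, l3137, l4187, o4346, l4852, l3762, l4087, l8853, l8829, l7772, l8846, l3308, l4711, o2489, l4707, l4756, l4752] l8854 := rupP (by decide +kernel)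
theorem r8855 : PImp [l3303, l4059, o3907, l6709] l8855 := rupP (by decide +kernel)
theorem r8856 : PImp [o6032, l8782] l8856 := rupP (by decide +kernel)
theorem r8857 : PImp [l4525, l5034, l3308, l5068, l1073, l3999, l5067, l411, l5072, l4051, l4984] l8857 := rupP (by decide +kernel)
theorem r8858 : PImp [l5034, l3996, l8064, o4066, l4059] l8858 := rupP (by decide +kernel)
theorem r8859 : PImp [o4091, o4229, l3966, o947, o6032, o6014] l8859 := rupP (by decide +kernel)
theorem r8860 : PImp [l4525, l328, l3089, l3090, o2488, o2569, l8857, l3303, l8858, l3282, l1073, l8859, l8855, l1246, o3890, l1268, o6297, l7827, l7902] l8860 := rupP (by decide +kernel)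
theorem r8861 : PImp [l4525, l5034, l3303, l8549, o2507, o2460, l3075, l5265, l4027, l1245, l3076, l3077, l8661, l6709, l8688] l8861 := rupP (by decide +kernel)
theorem r8862 : PImp [l4525, l8861, l3308, l3261, l1073, l3096, l5267, o2568, l8686, l4029, l8859, o3907] l8862 := rupP (by decide +kernel)
theorem r8863 : PImp [l5034, l4053, l2784, l2786, o3870, l4087, o2463, o2449, l4017, l8083] l8863 := rupP (by decide +kernel)
theorem r8864 : PImp [l5034, l4525, l4233, l8860, l8862, l1246, o2460, l8686, l4029, o4092, o4090, l8863, l3308, l1073, l3974, l713, l4984, l5072, l4045] l8864 := rupP (by decide +kernel)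
theorem r8865 : PImp [l7703, o4563, l3007, l3384, l501, l5035, l4832, l4844, l4834, l328, l8799, l6566, l8779, o4085, o4080, o4076, o2442, l8788, l4087, l4775, l5388] l8865 := rupP (by decide +kernel)
theorem r8866 : PImp [l702, l5847, o4064, l8826] l8866 := rupP (by decide +kernel)
theorem r8867 : PImp [o3907, l6566, l6163, l1244, o2460] l8867 := rupP (by decide +kernel)
theorem r8868 : PImp [l3303, l8867, l5060, o3891, l8827, o5875, l4039, l5267] l8868 := rupP (by decide +kernel)
theorem r8869 : PImp [l3303, l8868, l1246, l8837, o2460, l8827, l4039] l8869 := rupP (by decide +kernel)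
theorem r8870 : PImp [l8869, l3308] l8870 := rupP (by decide +kernel)
theorem r8871 : PImp [l7703, l8721, o4557, l1145, o4563, l3007, l3006, l3374, l3384, o4569, l5035, l4832, l4844, l4834, l328, l8864, l8865, l8866, l8870] l8871 := rupP (by decide +kernel)
theorem r8872 : PImp [l3089, l3090, o2529, l8113, l8774] l8872 := rupP (by decide +kernel)
theorem r8873 : PImp [l5034, l4763, l3303, l8083, l8747, l5265] l8873 := rupP (by decide +kernel)
theorem r8874 : PImp [l8829, l8872, l8873, l5031, l5027] l8874 := rupP (by decide +kernel)
theorem r8875 : PImp [l3954, l7703, o4557, l1146, o4563, l3006, l501, l328, l5035, o2488, o2549, l8830, l4518, l4775, l3308, o1738, l5388, l5387, l4753, o6224, o4017] l8875 := rupP (by decide +kernel)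
theorem r8876 : PImp [l498, l7703, l8601, l3431, l2996, o4557, l1145, l1146, l501, l5035, l4834, l3303, l4756, l8117, l4752, l4775, l5672, l5388, l3075, l4087] l8876 := rupP (by decide +kernel)
theorem r8877 : PImp [l8721, l498, l7703, l8601, l3435, l3431, l2996, l2993, o4557, l1146, o4563, l3006, l3374, l5035, l4834, l328, l4763, l8874, l4184, l7772, l8875, l8876, l3308, l7199, l4518, l1074, o6151, o2491, l4547, l684, l5051] l8877 := rupP (by decide +kernel)
theorem r8878 : PImp [l4525, l328, l3089, l3090, o2488, o2569, l8849, l8858, l3303, l4059, l3282, l8859] l8878 := rupP (by decide +kernel)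
theorem r8879 : PImp [l5034, l8878, o2449, l8661, l8851, l4045, l4058, o3895] l8879 := rupP (by decide +kernel)
theorem r8880 : PImp [l5035, l4834, l8731, l8640, l6350, l3933, l2710, l3119, l2808, l8721, l3374, l4129, l1779, o1593, l2658, o1544, l3464, l3394, l2673, l2674, l2713, l3336, l476, l7703, l2991, l2992, o4557, l1145, o4563, l3007, l3006, l3384, o4569, l496, l498, l501, l3115, l3219, l4832, l4844, l328, l8601, l2996, l2998, l3431, l3435, l8734, l8383, o5823, o5818, o4543, o4552, l8820, l759, o5487, o5480, o5472, l8848, l5208, l3500, l3505, l390, l5460, l3478, l8854, l4606, l4084, l2544, o2924, o8998, l8877, l8871, l4771, l4846, l3758, l5388, l4187, o4346, l3762, l4087, l8879, l8865, l8866, l8870] l8880 := rupP (by decide +kernel)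
theorem r8881 : PImp [o5487, o5488, o5489, l3488, l759, o8656, o8799, o3556, o8798] l8881 := rupP (by decide +kernel)
theorem r8882 : PImp [o9057, o9136] l8882 := rupP (by decide +kernel)
theorem r8883 : PImp [l3308, l4056, o6297, o3888] l8883 := rupP (by decide +kernel)
theorem r8884 : PImp [l3303, l4525, l5745, o4091, l3966, o947, o5818, l8882, o804, l8790, o4229, o8906, o2687, o6014] l8884 := rupP (by decide +kernel)
theorem r8885 : PImp [l5035, l4834, o4351, l4087, l4115, l2713, l7703, l8721, o4557, l1145, o4563, l3006, o4569, l498, l4832, l328, l3089, l3090, o2488, o2563, o2542, o2442, l8883, l8858, l3282, l8884, o5513, o5012, l8381, o6456, o6748, o2569, l8546] l8885 := rupP (by decide +kernel)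
theorem r8886 : PImp [l5034, l6476, l5072, l8742, l5020, l4018, l4017] l8886 := rupP (by decide +kernel)

end Pool.Agent.BDD.A
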