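import Pool.Agent.BDD.AC
import Pool.Agent.BDD.AE0
import Pool.Agent.BDD.AE1
import Pool.Agent.BDD.AE2
import Pool.Agent.BDD.AD0
import Pool.Agent.BDD.AD1
import Pool.Agent.BDD.AD2
import Pool.Agent.BDD.AD3

set_option autoImplicit false
set_option linter.all false

namespace Pool.Agent.BDD.A

theorem r8887 : PImp [o6297, o6166] l8887 := rupP (by decide +kernel)
theorem r8888 : PImp [l5035, l4834, o4351, l4087, l5034, l7703, l8721, o4563, l3006, o4569, l8885, l6476, o2463, o2449, l3308, l5072, o3913, l8886, l8887, l684, l4067, l4054, l6157] l8888 := rupP (by decide +kernel)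
theorem r8889 : PImp [o804, l8821, o6014, o8906, o2686] l8889 := rupP (by decide +kernel)
theorem r8890 : PImp [l3303, l4525, o4091, l3966, o947, o4205, o5818, o5815, l8889, o9136, o8998, o2687, l8859] l8890 := rupP (by decide +kernel)
theorem r8891 : PImp [l5035, l4834, o4351, l4087, l4118, l4115, l2713, l7703, o4557, l1145, o4563, l3006, o4569, l498, l4832, l328, l3089, l3090, o2488, o2563, o2555, o2557, o2442, l8883, l8855, l8702, l8858, l3074, l3282, l8890, o5513, o5012, l8381, o6456, l4086, o6748, o2569, l8709] l8891 := rupP (by decide +kernel)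
theorem r8892 : PImp [l5034, l5035, l4834, l8731, l8640, l6350, l3119, l2808, l8721, l3374, l4129, l1779, l3394, l3772, l8880, l4164, l4165, l3933, l2710, o1593, l2658, o1544, o1545, l3464, l2673, l2674, l476, l7703, l2992, o4557, l1145, o4563, l3007, l3006, o4569, l488, l496, l501, l3118, l3117, l3219, l4832, l4844, l2993, l2994, l2996, l8881, l485, l482, l8848, l5208, l3505, l390, l2836, l2835, o8503, l5460, l3478, o8798, o4840, o8918, o8799, l4788, l4194, o4481, o4975, l4771, l4789, o6519, l3797, o4351, o4318, l4087, l8888, l8891, l3075, o2463, o2449, l8549, l5072, l3308, l8887, l684, l4067, l4054, l8483, l6157] l8892 := rupP (by decide +kernel)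
theorem r8893 : PImp [o8607, l626] l8893 := rupP (by decide +kernel)
theorem r8894 : PImp [o2442, l8799, l706, l712, l3308, o3888, l4073] l8894 := rupP (by decide +kernel)
theorem r8895 : PImp [l8508, l8553] l8895 := rupP (by decide +kernel)
theorem r8896 : PImp [l5035, l4834, l7703, l2987, l8721, l3374, l3115, l8731, l8640, l6350, l3336, l8880, l4163, l8893, o3054, l3933, l3119, l2808, l4129, l1779, l3464, o4557, l1145, o3469, l488, l2806, o3820, o3795, l4164, l2658, o1544, l3117, l2809, l3118, o4563, l3007, o1545, l4165, l8881, l485, l5198, l3505, o8503, o8798, l4194, o6519, o4351, l4087, l2988, o3057, l3394, l496, l4788, l4789, l3797, o4318, l404, o3506, l3484, l498, l3436, l2674, l3384, l4832, l4844, l328, l8892, l8894, l3075, l8895, l3308, l5847, l8757] l8896 := rupP (by decide +kernel)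
theorem r8897 : PImp [l8872, l8873, l3075, l5031, l8753, l5984] l8897 := rupP (by decide +kernel)
theorem r8898 : PImp [l3303, l8115, l5672, l4755, l4730, l2779] l8898 := rupP (by decide +kernel)
theorem r8899 : PImp [l328, l3090, o2488, o2442, l8898, l3308, l4551, l7199, l4548] l8899 := rupP (by decide +kernel)
theorem r8900 : PImp [l5035, l4834, l8731, l8640, l6350, l3336, l2658, l3933, l2808, l2806, l7703, l2991, l2988, l2987, l8721, o4557, l1145, l1146, o4563, l3007, l3006, l3374, l488, l496, l501, l3119, l3118, l3117, l3115, l404, l4129, l2674, l1779, l3394, l3464, o1545, o1544, l8880, l4165, l4164, l4163, l8893, o3506, o3469, l2809, o3057, o3054, o3820, o3795, l8881, l485, l3484, l3478, l5198, l3505, l3500, o8503, o4840, o8918, o8798, o4489, l4788, l4194, l4775, l4789, l4790, o6519, l3797, o4351, o4318, l4087, l8896, l8897, l8899, l3075, l5672, l4535, l4533] l8900 := rupP (by decide +kernel)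
theorem r8901 : PImp [l8640, l6350, l3933, l476, l7703, l2989, l2990, l2987, l3223, l3219, l3008, l5035, l5039, l2675, l5411, l4252, o6513, l3835, l4909, l4087, l1218, o4818, o4698, o4699, o4953, o4945, o2762, o2776, o2764, l5438, l4846, l4867, l5134, l4247, l4775] l8901 := rupP (by decide +kernel)
theorem r8902 : PImp [l4082, l4598, o8579, l2708] l8902 := rupP (by decide +kernel)
theorem r8903 : PImp [o1593, l2555, l2808, l496, l501, o5487, l3488, l3491, o8994, l3137, l4771, l2557, l8727, o5727, l8902, l2571, l8384, l5666, o8946, l2544] l8903 := rupP (by decide +kernel)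
theorem r8904 : PImp [l4083, o8946, l2586, l2544] l8904 := rupP (by decide +kernel)
theorem r8905 : PImp [l2571, l8385, l4598] l8905 := rupP (by decide +kernel)
theorem r8906 : PImp [l4083, l8904, l8384] l8906 := rupP (by decide +kernel)
theorem r8907 : PImp [l2881, l4672] l8907 := rupP (by decide +kernel)
theorem r8908 : PImp [o5735, l1697, o8180, o2269, o2339, o1465, l8399, o3754, o7968, o8069] l8908 := rupP (by decide +kernel)
theorem r8909 : PImp [o3414, l8908, o5594, o5591, l8398, o3427, l8390, l2606, l2608, l4270, l8000, l4628, l3235, o2716, o7717, o8053] l8909 := rupP (by decide +kernel)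
theorem r8910 : PImp [o8328, l4204, o694, o714, l8909, o3756, l8445, l8398, o5735] l8910 := rupP (by decide +kernel)
theorem r8911 : PImp [l2606, l2607, o8119, l4476] l8911 := rupP (by decide +kernel)
theorem r8912 : PImp [l1705, o6442] l8912 := rupP (by decide +kernel)
theorem r8913 : PImp [l7274, o8284] l8913 := rupP (by decide +kernel)
theorem r8914 : PImp [o4262, l8912, l3930, o8119, l4476] l8914 := rupP (by decide +kernel)
theorem r8915 : PImp [o5735, l8908, l8445] l8915 := rupP (by decide +kernel)
theorem r8916 : PImp [o5520, o5431, o7519, o7608, o3841] l8916 := rupP (by decide +kernel)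
theorem r8917 : PImp [l3239, l4079, l8431, l4965, l2969, l8916, l460, l5075, l3632, l4496, l4494] l8917 := rupP (by decide +kernel)
theorem r8918 : PImp [l8467, l5103, l3620] l8918 := rupP (by decide +kernel)
theorem r8919 : PImp [o8255, l5510] l8919 := rupP (by decide +kernel)
theorem r8920 : PImp [l8919, l6862, o7774] l8920 := rupP (by decide +kernel)
theorem r8921 : PImp [l1697, l5669] l8921 := rupP (by decide +kernel)
theorem r8922 : PImp [o3754, o3756, l8390, l8921, o1536, o2269, l8399] l8922 := rupP (by decide +kernel)
theorem r8923 : PImp [l4496, l4494] l8923 := rupP (by decide +kernel)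
theorem r8924 : PImp [l4598, o3582, l5102, l3239, l3102, l6954, l2549, l3296, l8918, l2609, l4079, l8431, l4314, l4965, o4146, l2969, o2511, o6043, l3921, o941, l8923, l2406, l747, o7643, o3516, o3842, l3630, o7519, o5521] l8924 := rupP (by decide +kernel)
theorem r8925 : PImp [l4588, l2418, l5093, l5149, l3236, l2349, l6423] l8925 := rupP (by decide +kernel)
theorem r8926 : PImp [l2606, l2607, o7777, l8005] l8926 := rupP (by decide +kernel)
theorem r8927 : PImp [o8459, l8185, o5752, o8774] l8927 := rupP (by decide +kernel)
theorem r8928 : PImp [l5341, l5343] l8928 := rupP (by decide +kernel)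
theorem r8929 : PImp [l5297, l5308, l5039, l5383, l8928] l8929 := rupP (by decide +kernel)
theorem r8930 : PImp [l5297, l2845, l5394, o4452, o4818, o4543, l8929, l4127, l7703, l5035, l473, l476, l5308, l1145, l1210, o4472, l2680, l3934, l3935, l3335, l6153, l4624, l4590, l2848, l3851, l4834, l2633, l3347, o8548, l4833, o3188] l8930 := rupP (by decide +kernel)
theorem r8931 : PImp [l5297, l5308, l2845, l2846, l5644, l5343, l485, l3507, l3508] l8931 := rupP (by decide +kernel)
theorem r8932 : PImp [l8929, l4127, l7703, l3008, l5035, l5297, l2845, l5394, o4452, l473, l476, l5308, o4543, o4818, l8930, l8931, l3934, l3935, l3335, l6153, l4624, l4590, l3006, l2848, l425, o4476, l4834, l1218, l2633, l3347, l3851, o8548, l4833, o3188] l8932 := rupP (by decide +kernel)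
theorem r8933 : PImp [l2680, l8931] l8933 := rupP (by decide +kernel)
theorem r8934 : PImp [l5297, l8929, l8933, l6153, l476, l3935, l4624, l3127, l3113, l3342, l3338, l5308, l7703, l3006, o4487, l3008, l425, l1218, l3829, l2848, l1412, l4967, o4483, o4495, l4129, l5035, l6253, o4816, o4825, l6701, l4850, l1779, l4836, o2776, o3101, l2907, l3810, l5363, l3760] l8934 := rupP (by decide +kernel)
theorem r8935 : PImp [l5297, l8929, l8933, l6153, l476, l3935, l4624, l5308, l2845, l2846, l4247, l483, l482, l4242, l4225] l8935 := rupP (by decide +kernel)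
theorem r8936 : PImp [o8833, o3183, o8701, l4870] l8936 := rupP (by decide +kernel)
theorem r8937 : PImp [l5035, l3374, o5474, l4836, o8776, o3197] l8937 := rupP (by decide +kernel)
theorem r8938 : PImp [l8873, o2460, l5029, l8747, l2779, l5015] l8938 := rupP (by decide +kernel)
theorem r8939 : PImp [l3265, l5028, o6278, o4023] l8939 := rupP (by decide +kernel)
theorem r8940 : PImp [l4117, l8938, o2555, l8939, l5956, l4761, o3895] l8940 := rupP (by decide +kernel)
theorem r8941 : PImp [l3303, l3085, l4550, l4534, l2779] l8941 := rupP (by decide +kernel)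
theorem r8942 : PImp [l5697, l6709, l6293, l4025] l8942 := rupP (by decide +kernel)
theorem r8943 : PImp [l4763, o2555, l8939, l5846, l4761] l8943 := rupP (by decide +kernel)
theorem r8944 : PImp [l4763, l4618, l5034, l4117, l8940, l1247, l8943, l8873, o2451, l5029, l5020, o3895] l8944 := rupP (by decide +kernel)
theorem r8945 : PImp [l3303, l8941, l4550, l4548] l8945 := rupP (by decide +kernel)
theorem r8946 : PImp [l4549, o3888, o6151] l8946 := rupP (by decide +kernel)
theorem r8947 : PImp [l8085, l3303, l3304, l8945, l3091, l8946, l4547, l2779, o5897, l4533, o3891, o2460, l1247] l8947 := rupP (by decide +kernel)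
theorem r8948 : PImp [o2555, l8939, l5956, l4761, o3895] l8948 := rupP (by decide +kernel)
theorem r8949 : PImp [l4618, l3951, l8947, l4117, l8944, l8948, l8873, l5029, l5027] l8949 := rupP (by decide +kernel)
theorem r8950 : PImp [l3085, l6293, l2779, l4060, l8855] l8950 := rupP (by decide +kernel)
theorem r8951 : PImp [l8942, l1247, l8950, l3091, l1073, o6753, o6092] l8951 := rupP (by decide +kernel)
theorem r8952 : PImp [l4618, l8949, l8951, l6566, l7053, l6290, l3078, l3303, l3304, l702, l1085, o3888, l5267, l3082] l8952 := rupP (by decide +kernel)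
theorem r8953 : PImp [l4618, l4117, l8948, l8815, l8873, l3091, l5799, o5884, o3888, l5027] l8953 := rupP (by decide +kernel)
theorem r8954 : PImp [l4618, l1412, l4763, l3951, l8953, l8085, l3303, l3304, l8945, l3091, l8946, l4547, o3909, l2779, o5897, l4533, o3943, o2500, l4534, l3076, l5000, l4531] l8954 := rupP (by decide +kernel)
theorem r8955 : PImp [l4525, l5034, l3089, l3090, o2477, l3085, l8950, l8064, l3976, l6293, o4115, o3925, l6709, l4983, l4013] l8955 := rupP (by decide +kernel)
theorem r8956 : PImp [l1242, l8955, l3091, l1073, o6753, o6092] l8956 := rupP (by decide +kernel)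
theorem r8957 : PImp [l1243, l1242, l1412, l4967, l4966, l3008, l3006, l425, l1217, l1218, l4969, l4968, l4618, l8952, l8954, l8956, l6566, l7053, l6290, l3078, l3303, l3304, l702, l1085, o3888, l5267, l3082] l8957 := rupP (by decide +kernel)
theorem r8958 : PImp [l4007, l5034, l4525, l4117, l8948, l8873, l3075, o2472, o2449, l5029, l8747, l5010, l5008, o3895, l5050] l8958 := rupP (by decide +kernel)
theorem r8959 : PImp [l3304, l3303, l1412, l3089, l4550, o2442, l2779, o3895, o6015, l4534, o3947, o2461, l5657, o2450] l8959 := rupP (by decide +kernel)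
theorem r8960 : PImp [l4549, o3989, o6162, o6187] l8960 := rupP (by decide +kernel)
theorem r8961 : PImp [l1412, l4967, l3008, l3006, l425, l1217, l1218, l4968, l8958, o26, l8085, l3303, l3256, l8959, o2637, l3075, l8960, l4547, l2779, l4533] l8961 := rupP (by decide +kernel)
theorem r8962 : PImp [o2555, l8939, l3303, l5956, l4761, l5977, o3897, l2789, o3901] l8962 := rupP (by decide +kernel)
theorem r8963 : PImp [l4763, l5034, l4117, l8962, l8873, l3075, o2463, o2449, l5029, l8747, l5014, l5027, l2783, l5050] l8963 := rupP (by decide +kernel)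
theorem r8964 : PImp [o2442, l4550, o6015, l2789] l8964 := rupP (by decide +kernel)
theorem r8965 : PImp [l1412, l4967, l3008, l3006, l425, l1217, l1218, l4968, l3951, l8961, l8963, o26, l8085, l3303, l3304, l3256, l8964, o2637, l8960, l4547, l2789, o6015, o5897] l8965 := rupP (by decide +kernel)
theorem r8966 : PImp [l5034, l3089, l8064, l3989, l3287, o4120, o6174, o2644, l6293, l2779, l6709, l4060, l3303] l8966 := rupP (by decide +kernel)
theorem r8967 : PImp [l4228, l8966, l3075, l8686, l5678, l4029] l8967 := rupP (by decide +kernel)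
theorem r8968 : PImp [l8967, l6566, l7053, l6290, l3078, l3303, l3304, l3075, l3082, l702, o3888] l8968 := rupP (by decide +kernel)
theorem r8969 : PImp [l5034, l3089, o2442, l8064, o6034, l2789, l2790, l4060, l6709, l3303] l8969 := rupP (by decide +kernel)
theorem r8970 : PImp [l8969, l3075, l8686, l5678, l4029] l8970 := rupP (by decide +kernel)
theorem r8971 : PImp [l8968, l2793, l8970, l6566, l7053, l6290, l3078] l8971 := rupP (by decide +kernel)
theorem r8972 : PImp [l3817, l8971] l8972 := rupP (by decide +kernel)
theorem r8973 : PImp [l4117, l8948, l8815, l8873, l3075, l5799, l8753, o3888, l5027] l8973 := rupP (by decide +kernel)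
theorem r8974 : PImp [l1412, l4967, l3008, l3006, l425, l1217, l1218, l4968, l8973, o26, l8085, l3303, l3256, l8959, o2637, l3075, l8960, l4547, l2779, l4533] l8974 := rupP (by decide +kernel)
theorem r8975 : PImp [l4117, l8962, l8873, l3075, l8753, l8747, l5017, l5027, l2786] l8975 := rupP (by decide +kernel)
theorem r8976 : PImp [l5297, l8929, l8933, l3935, l6153, l476, l4624, l2846, l2848, l7703, l3006, o4487, l5308, l3008, l425, l1218, l3829, l3832, l8935, l4664, o5167, l1243, l1242, l2845, l482, l4216, l4225, l473, l3934, l4590, o4476, l3851, l6263, l1412, l4967, l4966, l1217, o4495, l4969, l4968, l5035, l4666, l6265, l5394, o4452, l8957, o2740, l3814, l8972, l3951, l8965, l8974, l8975, o26, l8085, l3303, l3304, l3256, l8964, o2637, l8960, l4547, l2789, o5897, o6015] l8976 := rupP (by decide +kernel)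
theorem r8977 : PImp [l8949, l8954] l8977 := rupP (by decide +kernel)
theorem r8978 : PImp [l3085, l6293, l8702, l2779, l4060] l8978 := rupP (by decide +kernel)
theorem r8979 : PImp [l8978, l3091, l1073, o6753, o6092] l8979 := rupP (by decide +kernel)
theorem r8980 : PImp [l4618, l8977, l8979, l6566, l7053, l6290, l3303, l3304, l3078, l702, l1085, o3888, l5267, l3082] l8980 := rupP (by decide +kernel)
theorem r8981 : PImp [l1412, l4967, l3008, l3006, l425, l1217, l1218, l4968, l3951, l8965, l8974, l8975, o26, l8085, l3303, l3304, l3256, l8964, o2637, l4554, l8960] l8981 := rupP (by decide +kernel)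
theorem r8982 : PImp [l3269, l4060, o6175, l2779, o2645, l6293] l8982 := rupP (by decide +kernel)
theorem r8983 : PImp [o2558, l8155, o4216, l8982, l5956, l4059, o3895] l8983 := rupP (by decide +kernel)
theorem r8984 : PImp [l4118, l4229, l8983, l3075, l8686, l5678, l4029] l8984 := rupP (by decide +kernel)
theorem r8985 : PImp [l8984, l6566, l7053, l6290, l3303, l3304, l3075, l3078, l702, l3082, o3888] l8985 := rupP (by decide +kernel)
theorem r8986 : PImp [l3308, l4060, o6034, l2789] l8986 := rupP (by decide +kernel)
theorem r8987 : PImp [o2442, l8986, l4059, l2789, o6034, o5964] l8987 := rupP (by decide +kernel)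
theorem r8988 : PImp [l8987, l3075, l8686, l5678, l4029] l8988 := rupP (by decide +kernel)
theorem r8989 : PImp [l8985, l2793, l8988, l6566, l7053, l6290, l3078] l8989 := rupP (by decide +kernel)
theorem r8990 : PImp [l3216, l5297, l8929, l8933, l3935, l6153, l476, l4624, l2846, l2848, l7703, l3006, o4487, l5308, l3008, l425, l1218, l3829, l3832, l8935, l4664, o5167, l1243, l1242, l2845, l482, l4216, l4225, l473, l3934, l4590, o4476, l3851, l6263, l1412, l4967, l4966, l1217, o4495, l4969, l4968, l5035, l4666, l6265, l5394, o4452, l8976, l3811, l3814, l8980, o2762, o2776, l4885, l8981, l3818, l3772, l8989] l8990 := rupP (by decide +kernel)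
theorem r8991 : PImp [l3308, l7117, l702, l3082, o3888] l8991 := rupP (by decide +kernel)
theorem r8992 : PImp [l8991, l5956, l4074, o3895] l8992 := rupP (by decide +kernel)
theorem r8993 : PImp [l4618, l8992, l3091, l7838, l1084] l8993 := rupP (by decide +kernel)
theorem r8994 : PImp [l1243, l1242, l1412, l4967, l3008, l3006, l425, l1217, l1218, l4969, l4968, l4618, l8977, l8993, l8956, l8979] l8994 := rupP (by decide +kernel)
theorem r8995 : PImp [l1412, l4967, l3008, l3006, l425, l1217, l1218, l4968, l3951, l8965, l8974, l8975, o26, l8085, l3303, l3304, l3256, l8964, o2637, l8960, l4547, l2789, o5897, o6015] l8995 := rupP (by decide +kernel)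
theorem r8996 : PImp [l8967, l8984] l8996 := rupP (by decide +kernel)
theorem r8997 : PImp [l1412, l4967, l4966, l8996, l8992, l3075, l6290, l4039, l5801] l8997 := rupP (by decide +kernel)
theorem r8998 : PImp [l8970, l8988] l8998 := rupP (by decide +kernel)
theorem r8999 : PImp [l5035, l404, l8932, l4836, l5297, l8929, l8933, l3935, l6153, l476, l4624, l2846, l2848, l7703, l3006, o4487, l5308, l3008, l425, l1218, l3829, l3832, l8935, l4664, o5167, l4128, l1412, l4967, l3339, l3114, l8937, o5193, o5380, o4483, l3338, l4130, l3113, l6253, o4807, l8934, l1243, l1242, l2845, l482, l4216, l4225, l473, l3934, l4590, o4476, l3851, l6263, l1217, o4495, l4969, l4666, l6265, l5394, o4452, l8990, l3417, l8994, o2776, o2740, l3814, l8995, l3817, l3818, l3772, l8997, l2793, l8998, l7117, l3308, l5827, l7838, l4074, l2789] l8999 := rupP (by decide +kernel)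
theorem r9000 : PImp [l4763, o2555, l8939, l5849, l4761, o3895] l9000 := rupP (by decide +kernel)
theorem r9001 : PImp [o4023, l5029, o6148, o6278] l9001 := rupP (by decide +kernel)
theorem r9002 : PImp [l4763, l4618, l5034, l4117, l9000, l8873, l3265, l9001, l5027, o3909, l2779, l5977, l5015, l5013, l3076] l9002 := rupP (by decide +kernel)
theorem r9003 : PImp [l4618, l3951, l9002, l8085, l3303, l3304, l8945, l7118, l3091, l4547, o6423, o5897] l9003 := rupP (by decide +kernel)
theorem r9004 : PImp [l5034, l3308, l4060, l3989, o3895, o4105, l4047, l4995] l9004 := rupP (by decide +kernel)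
theorem r9005 : PImp [o3714, l8020, l743, l5728, o1534, o7752] l9005 := rupP (by decide +kernel)
theorem r9006 : PImp [l3934, l2444, l3540, l4580, l3903, o5252, o2962, o7749] l9006 := rupP (by decide +kernel)
theorem r9007 : PImp [l2606, l2608, o1534, l743, o2966, o2964, l4467, o7949] l9007 := rupP (by decide +kernel)
theorem r9008 : PImp [l5738, o5962] l9008 := rupP (by decide +kernel)
theorem r9009 : PImp [l3935, l3934, l2550, o2339, o2336, l4580, l2450, l2451, l2448, l743, o8287, o8127, l745] l9009 := rupP (by decide +kernel)
theorem r9010 : PImp [l5297, l5308, l8929, l4208, o699, l8933, l6153, l3006, o4487, l476, l3935, l4624, l3008, l425, l1218, l3829, l3832, l8935, l4260, l2477, l2848, l1412, l4967, l4968, l3934, l2444, l3540, l4580, l4814, l2620, l6834, o7999, o2972] l9010 := rupP (by decide +kernel)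
theorem r9011 : PImp [l5297, l5308, l8929, l4208, o699, l4280, l2477, l8933, l3935, l6153, l476, l4624, l2846, l2848, l3006, o4487, l3008, l425, l1218, l3829, l3832, l8935, l4664, o5167, l1242, l2845, l482, l4216, o4476, l473, l3934, l4590, l6263, l4968, l9010, l743, o8205, o2968, o2964, l2620, l2623, l4580, l4299, o7949, l4458, o4264] l9011 := rupP (by decide +kernel)
theorem r9012 : PImp [l5297, l5308, l8929, l4208, o695, o699, o5407, l8933, l3935, l6153, l476, l4624, l2846, l2848, l3006, o4487, l3008, l425, l1218, l3829, l3832, l8935, l4664, o5167, l1242, l2845, l482, l4216, o4476, l473, l3934, l4590, l6263, l2627, l6265, o5285, o5286, o5287, o5735, o5732, o5731, l9011, o3393, o3394, o3391, l743, o7999, l8403, o2288, o8087, l1105, o8086] l9012 := rupP (by decide +kernel)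
theorem r9013 : PImp [l5297, l8929, l8933, l6153, l3006, o4495, l5308, l3814, l4208, o699, o4487, l476, l3935, l4624, l3008, l425, l1218, l3829, l3832, l8935, l4260, l2477, l2554, l2846, l2848, l4664, o5167, l1242, l2845, l482, l4216, l4623, o4476, l473, l3934, l4590, l6263, l1412, l4966, l1217, l4969, l4968, l4666, l6265, l9005, o3427, l8390, o7829, l2550, o2335, l9006, l743, o7963, o5250, o5258, o5261, l9011] l9013 := rupP (by decide +kernel)
theorem r9014 : PImp [l3905, l3903] l9014 := rupP (by decide +kernel)
theorem r9015 : PImp [l5297, l8929, l8933, l3935, l6153, l476, l4624, l2846, l2848, l3006, o4487, l5308, l3008, l425, l1218, l3829, l3832, l8935, l4664, o5167, o5141, o5142, o5309, l9011] l9015 := rupP (by decide +kernel)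
theorem r9016 : PImp [l2550, l2552, l9014, l4629] l9016 := rupP (by decide +kernel)
theorem r9017 : PImp [l19, o7829, o7850] l9017 := rupP (by decide +kernel)
theorem r9018 : PImp [l5297, l5308, l8929, l4208, o699, l8933, l6153, l3006, o4487, l476, l3935, l4624, l3008, l425, l1218, l3829, l3832, l8935, l4260, l2477, l2712, l2554, o5407, l4666, l7190, l4082, o8866, o4476, l473, l3934, l4590, l6263, l4602, l2846, l2848, l4664, o5167, l1242, l2845, l482, l4216, l9012, o5590, o5588, l9007, l9013, l9017, l2550, l9014, l3540, l743, o3394, l9015, l9016] l9018 := rupP (by decide +kernel)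
theorem r9019 : PImp [l2550, o2335, l9006, l743, o2957, o7963, o7949, o5250, l4580] l9019 := rupP (by decide +kernel)
theorem r9020 : PImp [l2712, l9005, o5590, o5588, o3427, l9019, l9017, l2606, l2608, o1534, l743, o2962, o2957, l4467, o7949] l9020 := rupP (by decide +kernel)
theorem r9021 : PImp [l2382, l2379, l4580, l2450, l2451, l2448, l743, o8287, o8127, l745] l9021 := rupP (by decide +kernel)
theorem r9022 : PImp [l5297, l5308, l8929, l8933, l6153, l3006, o4487, l476, l3935, l4624, l3008, l425, l1218, l3829, o2744, l4208, o695, o699, l3832, l8935, l4260, l2477, l2846, l2848, l4664, o5167, l1242, l2845, l482, l4216, o4476, l473, l3934, l4590, l6263, l1412, l4967, l1217, l4968, l9021, l2620, l2469, l7987, l5893, o3025, o2722, o4263, o8205, l4652, l3540] l9022 := rupP (by decide +kernel)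
theorem r9023 : PImp [l5297, o5407, l8929, l8933, l3935, l6153, l476, l4624, l2846, l2848, l3006, o4487, l5308, l3008, l425, l1218, l3829, l3832, l8935, l4664, o5167, l1242, o4476, l473, l3934, l4590, l6263, l1412, l4966, l1217, l4969, l4666, l6265, o5285, o5735, o5732, o5731, l9022, o3427, l8020, l5521, l5532] l9023 := rupP (by decide +kernel)
theorem r9024 : PImp [l5297, l8929, l8933, l3935, l6153, l476, l4624, l2846, l2848, l3006, o4487, l5308, l3008, l425, l1218, l3829, l3832, l8935, l4664, o5167, o5141, o5309, o5310, o5312, l9022] l9024 := rupP (by decide +kernel)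
theorem r9025 : PImp [l5297, l8929, l8933, l6153, l3006, o4487, l476, l3935, l4624, l5308, l3008, l425, l1218, l3829, l3832, l8935, l4260, l4280, l2477, l2845, l2846, l2848, l4664, l482, l4225, l9024, l465, l9016, l9017, l2606, l2607, l2463, l4475, l4473] l9025 := rupP (by decide +kernel)
theorem r9026 : PImp [l4525, l8929, l5297, l8933, l3935, l476, l6153, l4624, l2848, l1412, l4967, l4618, l5308, l4208, o699, l3006, o4487, l3008, l425, l1218, l3829, l3832, l8935, l4260, l2477, l2712, l2554, o5407, l4666, l7190, l4082, o8866, o4476, l473, l3934, l4590, l6263, l4602, l2846, l4664, o5167, l1242, l2845, l482, l4216, l4623, l4966, l1217, l4969, l4968, l6265, l3089, l3090, o2555, l3084, o2477, o2569, l9004, l3303, o1742, l3100, l4055, o4023, o3978, l4059, l4062, l8855, o6248, l3968, l6709, o1596, l4720, l5917, l9008, o4225, l9018, o2744, l1247, l9023, o5588, o5589, l9020, l9025, l2980, l2982, o3394, l743, l2444, l3540, l5667, l3905] l9026 := rupP (by decide +kernel)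
theorem r9027 : PImp [l5297, l8929, l8933, l3935, l6153, l476, l4624, l2846, l2848, l7703, l3006, o4487, l5308, l3008, l425, l1218, l3829, l3832, l8935, l4664, o5167, l1242, l2845, l482, l4225, o4476, l473, l3934, l4590, l6263, l5035, l4117, l9026, l3091, l1073, o6753, o6092] l9027 := rupP (by decide +kernel)
theorem r9028 : PImp [l4618, l3085, l8991, l3303, l5862, l7053, l4074, l2779] l9028 := rupP (by decide +kernel)
theorem r9029 : PImp [l5035, l4836, l7703, l3008, l5297, l8929, l8933, l6153, l3006, l425, l1218, o4487, l476, l3935, l4624, l5308, l3829, l3832, l8935, l4130, l8934, l2557, l2848, l3338, l3113, l6253, o5364, o5513, l4666, l7190, l4084, o9178, o3242, l2846, l4664, o5167, l1243, l2845, l482, l4216, l4225, l1412, l4967, l4969, l4968, l6265, l9003, l9027, l9028, l3091, l7838, l1084] l9029 := rupP (by decide +kernel)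
theorem r9030 : PImp [l5297, l8929, l8933, l6153, l3006, o4487, l476, l3935, l4624, l5308, l3008, l425, l1218, l3829, l3832, l2848, l3303, o1742, l3100, l4055, o4023, l4059, l4062, o6248, l6709, l9018, o1596, o3924, o4225, l9008] l9030 := rupP (by decide +kernel)
theorem r9031 : PImp [l3089, l5034, l5297, l8929, l8933, l3935, l6153, l476, l4624, l2846, l2848, l3006, o4487, l5308, l3008, l425, l1218, l3829, l3832, l8935, l4664, o5167, l1242, l4968, l9030, l3308, l4060, l9004, l3989, o3895, o4105, l4045, l4995] l9031 := rupP (by decide +kernel)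
theorem r9032 : PImp [l5297, l5308, l8929, l8933, l6153, l3006, o4487, l476, l3935, l4624, l3008, l425, l1218, l3829, o2740, o2555, o2442, o2569, l9031, l8986, l3303, l4055, l4059, l2786, l6709] l9032 := rupP (by decide +kernel)
theorem r9033 : PImp [l5297, l8929, l8933, l3935, l6153, l476, l4624, l2846, l2848, l7703, l3006, o4487, l5308, l3008, l425, l1218, l3829, l3832, l8935, l4664, o5167, l1242, l2845, l482, l4216, o4476, l473, l3934, l4590, l6263, l1217, l4969, l5035, l4117, l9032, l3075, l8686, l5678, l4029] l9033 := rupP (by decide +kernel)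
theorem r9034 : PImp [l8991, l3303, l7053, l6566, l2779, l4074] l9034 := rupP (by decide +kernel)
theorem r9035 : PImp [o2488, l9034, l2793, l7117, l3308, l5827, l4004, l2789, l5863] l9035 := rupP (by decide +kernel)
theorem r9036 : PImp [l5297, l8929, l8933, l3935, l6153, l476, l4624, l2846, l2848, l7703, l3006, o4487, l5308, l3008, l425, l1218, l3829, l3832, l8935, l4664, o5167, l1243, l1412, l4967, l4966, l4969, l328, l4666, l6265, l9033, l9035, l3075, l6290, l4039, l5801] l9036 := rupP (by decide +kernel)
theorem r9037 : PImp [l4763, o2555, l8939, l3303, l4761, l5849, l5977, o3872, o3866] l9037 := rupP (by decide +kernel)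
theorem r9038 : PImp [l4763, l5034, l4117, l9037, l8873, l3075, o2463, o2449, l3265, l8747, l9001, l5027, l8661, l5050, l5014, o3895, l2783] l9038 := rupP (by decide +kernel)
theorem r9039 : PImp [l3304, l3303, l4007, l4763, l3090, o2442, l8964, o6015, o3917, l2779, o3965, l4534, l4533, l4986, o2478, l4527] l9039 := rupP (by decide +kernel)
theorem r9040 : PImp [l5035, l4836, l7703, l3008, l5297, l8929, l8933, l6153, l3006, l425, l1218, o4487, l476, l3935, l4624, l5308, l3829, l3832, l8935, l4130, l8934, l2557, l2848, l3338, l3113, l6253, o5364, o5513, l4666, l7190, l4084, o9178, o3242, l2846, l4664, o5167, l1243, l1242, l2845, l482, l4216, l4225, l1412, l4967, o4495, l4968, l9029, o2740, l3814, l9036, l3951, l9038, l8085, l3303, l7118, l9039, l3075, l4547, l4538, l4533] l9040 := rupP (by decide +kernel)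
theorem r9041 : PImp [o5588, l8390, l2608, o1534, o7903, l743, l2550, o7985, o2966, l4948] l9041 := rupP (by decide +kernel)
theorem r9042 : PImp [l4201, l9041, o5285, o5287, o5290, l8021] l9042 := rupP (by decide +kernel)
theorem r9043 : PImp [o5590, o5588, l8390, l2606, l2608, o7903, l7291, o7985, l4948, l4944] l9043 := rupP (by decide +kernel)
theorem r9044 : PImp [l5042, l3234, l2471, l3585, o7933, l3889, o4264] l9044 := rupP (by decide +kernel)
theorem r9045 : PImp [l5297, l8929, l8933, l6153, l3006, o4476, l473, l3934, l4590, l5308, l3008, l425, l1218, l6263, l476, l3935, l4624, l4666, l7190, l4602, l6265, l1217, l2846, l2848, o4487, l3829, l3832, l8935, l4664, o5167, l1242, l1412, l4966, l4969, l4082, o714, l8020, o3429, o3428, o3427, l4204, o5407, l2712, l1243, l2845, l482, l4216, l4225, l4967, o4495, l4968, l3814, l9042, l5042, l9043, o5285, o5287, o5288, o5290, o5735, l7997, l8445, o2963, o2949, l9044, l2494, o7885, l3930, l2470, o4262, l4959] l9045 := rupP (by decide +kernel)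
theorem r9046 : PImp [l2606, o1534, o7903, l743, l2550, o2957, o7949] l9046 := rupP (by decide +kernel)
theorem r9047 : PImp [l8445, l6715, o7766] l9047 := rupP (by decide +kernel)
theorem r9048 : PImp [l4270, l3556] l9048 := rupP (by decide +kernel)
theorem r9049 : PImp [o5590, o5585, o5586, l9046, l9017, l8390, l2551, l2552, o2339, l9047, o2960, o2970, l3879, l4922, l9048] l9049 := rupP (by decide +kernel)
theorem r9050 : PImp [l7190, l4602, o3429, o3427, l4082, o714, l4204, l4201, l9049, o5285, o5287, o5290, l8021] l9050 := rupP (by decide +kernel)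
theorem r9051 : PImp [l3234, l3235, l2379, l9047, o2960, o2970, l3879, l4922, l9048] l9051 := rupP (by decide +kernel)
theorem r9052 : PImp [o5590, o5585, o5586, l9043, l9051, l5893, o7885, l1446] l9052 := rupP (by decide +kernel)
theorem r9053 : PImp [l5042, l3616, l3889, l3888] l9053 := rupP (by decide +kernel)
theorem r9054 : PImp [l2622, l3108, l4821, o8186, o8235, l3574, o8230] l9054 := rupP (by decide +kernel)
theorem r9055 : PImp [l3090, l3089, l4525, l5297, l5308, l8929, l8933, l6153, l476, l3935, l4624, l4666, l7190, l4082, o714, l3006, o4487, l3008, l425, l1218, l3829, l3832, l8935, l4209, o694, l4204, o4476, l473, l3934, l4590, l6263, l4602, o5407, l2554, l2712, l2846, l2848, l4664, o5167, l1243, l1242, l2845, l482, l4216, l4225, o5332, l3851, l1412, l4967, l4966, l1217, l4969, l4968, l2627, l6265, l2956, l2940, l4618, l3084, o2477, l9004, l3303, o1742, l3100, l4055, o4023, o3978, l4059, l4062, o6248, l3968, l6709, l8020, o1596, l4720, l5917, o3427, o3429, l9008, o4225, l9045, o3050, o3052, o8770, l9050, l2474, l2476, l2479, l9052, o5285, o5286,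 o5287, o5290, o5735, o5733, o5732, o5734, o5831, l7997, l8445, o3154, l2290, l2291, l2292, l9054, l3170, l3173, l617, o8267, o1468] l9055 := rupP (by decide +kernel)
theorem r9056 : PImp [l7190, l4082, o714, l4204, l4602, l3303, o1742, l3100, l4055, o4023, l4059, l4062, o6248, l6709, l8020, o1596, l2786, l5917, o3427, o3428, o3429, l9008, o3924, o4225, l9050, l2479, l9052, o5285, o5287, o5288, o5290, o5831, l7997, o3154, o2714, l9044, l3107, l8342, o8186, o8235] l9056 := rupP (by decide +kernel)
theorem r9057 : PImp [l5034, l5297, l8929, l8933, l6153, l476, l3935, l4624, l2554, l2712, l2846, l2848, l3006, o4487, l5308, l3008, l425, l1218, l3829, l3832, l8935, l4664, o5167, l1243, l1242, l2845, l482, l4216, l4225, l473, l3934, l4590, o4476, l3851, l6263, l1412, l4967, l4966, l1217, o4495, l4969, l4968, l4666, l6265, l3089, o2555, o2569, l9055, o2740, o2442, l3814, l9056, l3308, l4060, l8986, l3989, o3895, l9004, o4105, l4045, l4995] l9057 := rupP (by decide +kernel)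
theorem r9058 : PImp [o6174, o6106] l9058 := rupP (by decide +kernel)
theorem r9059 : PImp [l8929, l5297, l8933, l3817, l3935, l6153, l476, l4624, l2846, l2848, l7703, l3006, o4487, l5308, l3008, l425, l1218, l3829, l3832, l8935, l4664, o5167, l1242, l2845, l482, l4216, l473, l3934, l4590, o4476, l3851, l6263, l5035, l4117, l4228, l9057, o2637, l9058, o5925, o5871] l9059 := rupP (by decide +kernel)
theorem r9060 : PImp [l9028, l9035] l9060 := rupP (by decide +kernel)
theorem r9061 : PImp [l5297, l8929, l8933, l3935, l6153, l476, l4624, l2846, l2848, l7703, l3006, o4487, l5308, l3008, l425, l1218, l3829, l3832, l8935, l4664, o5167, l1243, l473, l3934, l4590, o4476, l3851, l1412, l4967, l4969, l328, l4666, l6265, l3817, l9059, o26, l9060, o2637, l7838, l3287, o8753, o6187] l9061 := rupP (by decide +kernel)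
theorem r9062 : PImp [l5297, l8929, l8933, l6153, l476, l3935, l4624, l4666, l7190, l4084, l2848, l3338, l7703, l3006, o4487, l5308, l3008, l425, l1218, l3829, l3832, l8935, l4130, l3113, l6253, o5364, o5513, l404, l8932, l8934, l2557, l5035, l4968, l3340, l3216, l2632, o4812, l2846, l4664, l2734, o5740, l8936, l4167, l3427, o5354, o4483, o4807, o5167, l1243, l1242, l2845, l482, l4216, l4225, o4476, l473, l3934, l4590, l6263, l1412, l4967, o4495, l4836, l8999, l3455, l2604, l3795, o9178, o3242, l9040, l9061, l3951, l9003, l9038, o2740, l8085, l3814, l3303, l7118, l9039, l4547, l3075, l4538, l4533] l9062 := rupP (by decide +kernel)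
theorem r9063 : PImp [l7190, l4082, o714, l4204, l4525, l4602, l1412, l3303, o1742, l3100, l4055, l9056, o4023, o3978, l4059, l4062, o2564, o6110, l3968, l6709, l8020, o1596, l4719, l5917, o3427, o3428, o3429, l9008, o4225, l9050, l2479, l9052, o5285, o5287, o5288, o5290, o5831, l7997, o3154, o2714, l9044, l3107, l8342, o8186, o8235] l9063 := rupP (by decide +kernel)
theorem r9064 : PImp [l5178, l1243, l1242, l1412, l4967, l4966, l3089, l3090, o2569, o2442, l9063, l3308, l3266, l4060, l9004, o6034, l2779, o2450, o2679, o4030, o3902, l1247, o6178, o6149] l9064 := rupP (by decide +kernel)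
theorem r9065 : PImp [l9058, o5925, o5871] l9065 := rupP (by decide +kernel)
theorem r9066 : PImp [l7703, l3008, l5297, l8929, l8933, l6153, l3006, l425, l1218, l2557, l476, l3935, l4624, l4666, l7190, l4084, o9178, o3240, l473, l3934, l4590, l5308, o4476, l3851, l6263, l2845, l2846, l2848, o4487, l3829, l3832, l8935, l4664, l482, l4216, o5167, l1242, l3817, l4228, l9065, o2637, l5035, l4119, l4117, l2554, l2712, l4225, l1217, o4495, l4969, l4968, l6265, l9061, o3104, l2913, o2798, l3814, o3206, l9064] l9066 := rupP (by decide +kernel)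
theorem r9067 : PImp [o3025, o2722, o8205, l4652, l3540] l9067 := rupP (by decide +kernel)
theorem r9068 : PImp [l5297, l5308, l8929, l8933, l6153, l3006, o4487, l476, l3935, l4624, l3008, l425, l1218, l3829, o2744, l473, l3934, l4590, o4476, l3851, l2956, l4208, o695, o699, l3832, l8935, l4260, l2477, l5178, l2846, l2848, l4664, o5167, l1242, l2845, l482, l4216, l6263, l1412, l4967, l1217, l4968, l6265, l9021, l2620, l2469, l5893, o4263, l9067, o2947, l2967, l8403, l2964, l3537] l9068 := rupP (by decide +kernel)
theorem r9069 : PImp [l5297, l8929, l8933, l3935, l6153, l476, l4624, l2846, l2848, l3006, o4487, l5308, l3008, l425, l1218, l3829, l3832, l8935, l4664, o5332, l1412, l4967, l2627, l4209, o3052, o8770, l4208, l2269, o699, o5407, o5167, l1242, l2845, l482, l4216, o4476, l473, l3934, l4590, l6263, l6265, o5285, o5735, o5733, o5732, o5731, l9068, o3394, o3391, o3392, l743, l8403, o1476, o8087, o8084, o7997, l1104] l9069 := rupP (by decide +kernel)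
theorem r9070 : PImp [l5297, l473, l476, o5302, o5299, o5298, l9068] l9070 := rupP (by decide +kernel)
theorem r9071 : PImp [l5297, l8929, l8933, l6153, l3006, o4487, l476, l3935, l4624, l5308, l3008, l425, l1218, l3829, l3832, l8935, l4260, l4280, l2477, l2845, l2846, l2848, l4664, l482, l4225, o5167, l9070, o5141, l9016, l9017, l2606, l2607, l2463, l4473, l4475] l9071 := rupP (by decide +kernel)
theorem r9072 : PImp [l5297, l5308, l8929, l4208, o699, l8933, l6153, l3006, o4487, l476, l3935, l4624, l3008, l425, l1218, l3829, l3832, l8935, l4260, l2477, l2712, l2554, o5407, l4666, l7190, l4082, o8866, o4476, l473, l3934, l4590, l6263, l4602, l2846, l2848, l4664, o5167, l1242, l2845, l482, l4216, l4623, l1412, l4966, l1217, l4969, l4968, l6265, o2744, l1247, l9069, o5590, o5588, o5589, l9020, l9071, l2982, o3394, l743, l2444, l3540, l5893, l3905] l9072 := rupP (by decide +kernel)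
theorem r9073 : PImp [l2964, l4652] l9073 := rupP (by decide +kernel)
theorem r9074 : PImp [l5297, l5308, l8929, l4208, o695, o699, l8933, l6153, l3006, o4487, l476, l3935, l4624, l3008, l425, l1218, l3829, l3832, l8935, l4260, l2477, l5178, o5407, l2846, l2848, l4664, o5167, l1242, l2845, l482, l4216, o4476, l473, l3934, l4590, l6263, l1412, l4967, l1217, l4968, o5285, o5735, o5732, o5731, l9021, l2620, l2469, l5893, o4263, l9073, l3540, l743, o8205] l9074 := rupP (by decide +kernel)
theorem r9075 : PImp [l5297, l5308, l8929, l4208, o695, o699, l8933, l6153, l3006, o4487, l476, l3935, l4624, l3008, l425, l1218, l3829, l3832, l8935, l4260, l2477, l2712, l2554, o5407, l4666, l7190, l4082, o8866, o4476, l473, l3934, l4590, l6263, l4602, l2846, l2848, l4664, o5167, l1242, l2845, l482, l4216, l4623, l1412, l4966, l1217, l4969, l4968, l6265, l9074, o5590, o5588, l9020, l9007, l9017, l9016, o5141, o5310, o5312, l9009] l9075 := rupP (by decide +kernel)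
theorem r9076 : PImp [o5735, o5732, o5833, l8403, l1105, o7998, o8086, o2293, o8089] l9076 := rupP (by decide +kernel)
theorem r9077 : PImp [l1412, l4966, l3008, l3006, l425, l1217, l1218, l4969, l4968, l3934, l2981, o3393, o3394, o3391, o3417, l743, l2444, l3576, o1517, l9076, o5590, o5589, l9020, l5893, l3914] l9077 := rupP (by decide +kernel)
theorem r9078 : PImp [l5297, l5308, l8929, l4208, o695, o699, l8933, l6153, l3006, o4487, l476, l3935, l4624, l3008, l425, l1218, l3829, l3832, l8935, l4260, l4280, l2477, l2712, l2554, o5407, l4666, l7190, l4082, o8866, o4476, l473, l3934, l4590, l6263, l2845, l2846, l2848, l4664, l482, l4216, o5167, l1242, l3817, l4228, l9065, o2670, l3040, l3851, o2637, l4525, l5178, l4602, l4623, l1412, l6265, l3303, l3100, l4055, o3969, l4059, l4062, l8855, l3972, l6709, l3320, o3924, l9008, o4225, l9077, l9075, o2740, l9072] l9078 := rupP (by decide +kernel)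
theorem r9079 : PImp [l5034, l1242, l3308, l4060, l9004, o6034, o3895, o3947, l4045, l4995] l9079 := rupP (by decide +kernel)
theorem r9080 : PImp [l5297, l7703, l8929, l8933, l6153, l3006, o4487, l476, l3935, l4624, l5308, l3008, l425, l1218, l3829, l3832, l8935, l4167, l2632, l3216, o4476, l473, l3934, l4590, l6263, o8965, l3455, l2604, l3761, l3795, l9066] l9080 := rupP (by decide +kernel)
theorem r9081 : PImp [l8966, l8702] l9081 := rupP (by decide +kernel)
theorem r9082 : PImp [l8929, l5297, l8933, l3817, l7703, l5178, l2632, l3935, l6153, l476, l4624, l2846, l2848, l3006, o4487, l5308, l3008, l425, l1218, l3829, l3832, l8935, l4664, o5167, l1242, l2845, l482, l4216, l473, l3934, l4590, o4476, l3851, l6263, l4968, l4127, l1412, l4228, l9065, o2636, o2637, o2644, l3039, l9079, l9081, l9080, o722, l9078] l9082 := rupP (by decide +kernel)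
theorem r9083 : PImp [l5297, l8929, l8933, l3935, l6153, l476, l4624, l2846, l2848, l7703, l3006, o4487, l5308, l3008, l425, l1218, l3829, l3832, l8935, l4664, o5167, l1243, l473, l3934, l4590, o4476, l3851, l1412, l4967, l4969, l328, l4666, l6265, l3817, l9082, o26, l9060, o2637, l7838, l3287, o8753, o6187] l9083 := rupP (by decide +kernel)
theorem r9084 : PImp [l3303, l4761, l5977, l5976] l9084 := rupP (by decide +kernel)
theorem r9085 : PImp [l5034, l4763, l1412, l4967, l3006, l4968, l3089, l9084, l4995, l5028, o3952] l9085 := rupP (by decide +kernel)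
theorem r9086 : PImp [l3303, l4760, l5977, l5976] l9086 := rupP (by decide +kernel)
theorem r9087 : PImp [l4763, l5178, l3006, l4968, l5034, l4117, l9085, l9086, l3265, l9001, l5027, l2779, o3895, l5977, l5020, l5015, l5265] l9087 := rupP (by decide +kernel)
theorem r9088 : PImp [l3303, l8945, l4550, l4548, l9039] l9088 := rupP (by decide +kernel)
theorem r9089 : PImp [l5297, l8929, l8933, l3935, l476, l6153, l4624, l2848, l3338, l7703, l3006, o4487, l5308, l3008, l425, l1218, l3829, l3832, l8935, l4130, l3113, l6253, o5364, o5513, l5035, l4968, l3340, l404, l8932, l8934, l3216, l2632, o4812, l2846, l4664, l2734, o5740, l8936, l4167, l3427, o5354, o4483, o4807, o4816, o5167, l1243, l2845, l482, l4225, l473, l3934, l4590, o4476, l3851, l1412, l4666, l5394, o4452, l9062, l5178, l9083, l4763, l3951, l9087, o26, l8085, l3303, l3256, l9088, o2637, l8960, l4547, o3909, l2779, o3895, l4533, l3075, l5265, l3076, l6130, l5013] l9089 := rupP (by decide +kernel)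
theorem r9090 : PImp [l5297, l8929, l8933, l6153, l3006, o4476, l473, l3934, l4590, l5308, l3008, l425, l1218, l6263, l476, l3935, l4624, l4666, l7190, l4602, l6265, l1217, l2846, l2848, o4487, l3829, l3832, l8935, l4664, o5167, l1242, l1412, l4966, l4969, l4082, o714, l8020, o3429, o3428, o3427, l4204, o5407, l1243, l2845, l482, l4225, l3851, l4968, o5285, o5287, o5288, o5290, o5735, o5731, l8021, l8445, l2473, l7997, o2952, o2963, l9044, l2620, l8174, l42, l1680, o8231] l9090 := rupP (by decide +kernel)
theorem r9091 : PImp [l5042, l461, l464, l465, o5302, l3585, l3614, l3599, l57, l8000, o2972] l9091 := rupP (by decide +kernel)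
theorem r9092 : PImp [l3234, l2464, l4928, l4931] l9092 := rupP (by decide +kernel)
theorem r9093 : PImp [l2846, l8929, l5297, l8933, l6153, l3006, o4487, l476, l3935, l4624, l5308, l3008, l425, l1218, l3829, l3832, l8935, l4623, l2848, l1412, l4967, l4969, l4666, l2473, l9091, o5252, l9092, l2620, l4947, o7732, o2962] l9093 := rupP (by decide +kernel)
theorem r9094 : PImp [l3100, l3303, l8929, l5297, l8933, l2712, l6153, l476, l3935, l4624, l2554, o5407, l3008, l3006, l425, l1218, l5308, l4666, l7190, l4082, o8866, o4476, l473, l3934, l4590, l6263, l2845, l2846, l2848, o4487, l3829, l3832, l8935, l4664, l482, l4216, o5167, l1242, l3817, l4228, l9065, o2670, l3040, l3851, o2644, o2637, l4525, l4602, l1412, l4966, l1217, o4495, l4969, l6265, o3969, l4059, l4062, l8855, l3972, l6709, l1246, l3320, l6293, l2786, o3924, l5917, o2735, o2736, l9008, l3814, o4225, l9018, l4204, o714, l8020, o3427, o3428, l9090, o5590, o5586, o5588, l8390, l2606, l2607, l2608, o1534, l9093, l4201, l743, o2966, o2964, l4947, o7949] l9094 := rupP (by decide +kernel)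
theorem r9095 : PImp [l5297, l473, l8929, l8933, l3934, l6153, l4590, l5308, l3006, o4476, l3008, l425, l1218, l3851, l6263, l2845, l3935, l476, l4624, l2846, l2848, o4487, l3829, l3832, l8935, l4664, l482, l4216, o5167, l1242, l3817, l4228, l9065, o2644, o2637, l1217, l9094, l4055, l6293, l5956, o3866, o3872] l9095 := rupP (by decide +kernel)
theorem r9096 : PImp [l9079, l8986] l9096 := rupP (by decide +kernel)
theorem r9097 : PImp [l8929, l5297, l8933, l3817, l3935, l6153, l476, l4624, l2846, l2848, l3006, o4487, l5308, l3008, l425, l1218, l3829, l3832, l8935, l4664, o5167, l1242, l2845, l482, l4216, l473, l3934, l4590, o4476, l3851, l6263, l4968, l1412, l4228, l9065, o2636, o2637, l3039, l9095, l9096] l9097 := rupP (by decide +kernel)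
theorem r9098 : PImp [l7908, l4073, o3938, l5847, l4005] l9098 := rupP (by decide +kernel)
theorem r9099 : PImp [o2488, l9098, l3308, l8991, l7117, l4618, l2793] l9099 := rupP (by decide +kernel)
theorem r9100 : PImp [l5297, l8929, l8933, l3935, l6153, l476, l4624, l2846, l2848, l3006, o4487, l5308, l3008, l425, l1218, l3829, l3832, l8935, l4664, o5167, l1243, l473, l3934, l4590, o4476, l3851, l1412, l4967, l328, l4666, l6265, l2845, l5394, l3817, l9097, o26, l9099, o2637, l8870, l3287, o8753, o6187] l9100 := rupP (by decide +kernel)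
theorem r9101 : PImp [l9038, l9002] l9101 := rupP (by decide +kernel)
theorem r9102 : PImp [l3303, l4967, l9088, l4550, l4618, l4548, l9039] l9102 := rupP (by decide +kernel)
theorem r9103 : PImp [l9003, l8977] l9103 := rupP (by decide +kernel)
theorem r9104 : PImp [l5297, l7703, l8929, l8933, l6153, l3006, o4487, l476, l3935, l4624, l5308, l3008, l425, l1218, l3829, l3832, l8935, l4130, l8934, l2846, l2848, l4664, o5167, l1243, l1242, l2845, l482, l4216, l4225, l473, l3934, l4590, o4476, l3851, l1412, l4967, l1217, o4495, l4968, l5035, l4666, l5394, o4452, l4836, l9100, l3951, l9101, o26, l8085, l3303, l3256, l9102, o2637, l8960, l4547, l9103, o2740, l3075, l3814, l4533, l8995, l4538] l9104 := rupP (by decide +kernel)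
theorem r9105 : PImp [l5297, l8929, l8933, l6153, l3006, o4495, l5308, l3814, l5178, l476, l3935, l4624, l4666, l7190, l4082, o4476, l473, l3934, l4590, l3008, l425, l1218, l6263, l4602, l2712, l2846, l2848, o4487, l3829, l3832, l8935, l4664, o5167, l1242, l2845, l482, l4216, l1412, l4966, l1217, l4969, l6265, l4204, o714, l9090, l8020, o5585, o5586, o5588, l8390, o3427, o3428, l2606, l2607, l2608, o1534, l9093, l4201, l743, o2972, l4921, l4916] l9105 := rupP (by decide +kernel)
theorem r9106 : PImp [l8929, l5297, l8933, l3817, l7703, l5178, l2712, l6153, l476, l3935, l4624, l2554, o5407, l3008, l3006, l425, l1218, l5308, l4666, l7190, l4082, o8866, l2846, l2848, o4487, l3829, l3832, l8935, l4664, o5167, l1242, l2845, l482, l4216, l473, l3934, l4590, o4476, l3851, l6263, l4968, l4127, l1412, l4525, l4228, l9065, o2636, o2637, o2644, l3039, l3040, o2670, l9096, l3303, l3100, l9081, l4055, o3969, l4059, l4062, l8855, l3972, l6709, l1246, l3320, o3924, l5917, o2735, o2736, l9008, o4225, l9105, o722, l9078] l9106 := rupP (by decide +kernel)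
theorem r9107 : PImp [l5297, l8929, l8933, l3935, l6153, l476, l4624, l2846, l2848, l7703, l3006, o4487, l5308, l3008, l425, l1218, l3829, l3832, l8935, l4664, o5167, l1243, l1242, o4476, l473, l3934, l4590, l6263, l1412, l4967, l328, l4666, l6265, l2845, l5394, l9106, l9099, l8870, l702, l1085, o6547] l9107 := rupP (by decide +kernel)
theorem r9108 : PImp [l5297, l8929, l8933, l3935, l476, l6153, l4624, l2848, l3338, l7703, l3006, o4487, l5308, l3008, l425, l1218, l3829, l3832, l8935, l4130, l3113, l6253, o5364, l5035, l4968, l3340, l404, l8932, l8934, l3216, l2632, o4812, l2846, l4664, l2734, o5740, l8936, l4167, l3427, o5167, l1243, l2845, l482, l4225, l473, l3934, l4590, o4476, l3851, l1217, l1412, l4666, l5394, o4452, o5513, l9089, l9104, l5178, l9107, l4763, l3951, l9087, o26, l8085, l3303, l3304, l3256, l9102, o2637, l8960, l4547, o3909, o3895, l5982, l3075, l5265, l3076, l6130, l5013] l9108 := rupP (by decide +kernel)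
theorem r9109 : PImp [o4575, l7977, o6689, l2578, o6544, l2586] l9109 := rupP (by decide +kernel)
theorem r9110 : PImp [l5297, l8929, l8933, l6153, l3006, o4476, l473, l3934, l4590, l5308, l3008, l425, l1218, l6263, l476, l3935, l4624, l4666, l7190, l4602, o3429, o3427, l4082, o714, l4204, o5407, l2846, l2848, o4487, l3829, l3832, l8935, l4664, o5167, l1243, l2845, l482, l4225, l4968, l6265, o5285, o5286, o5287, o5290, o5735, o5732, o5831, l8021, l8445, l2474, l2479, o2963, o3704, l2292, l9053, l9054] l9110 := rupP (by decide +kernel)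
theorem r9111 : PImp [l5297, l8929, l8933, l6153, l3006, o4476, l473, l3934, l4590, l5308, l3008, l425, l1218, l6263, l476, l3935, l4624, l4666, l7190, l4602, o3429, l4082, o714, l4204, l2846, l2848, o4487, l3829, l3832, l8935, l4664, o5167, l1242, l3851, l1412, l4966, l6265, l9110, o5585, o5586, l9051, l2550, l9017, o7903] l9111 := rupP (by decide +kernel)
theorem r9112 : PImp [l5297, l8929, l8933, l6153, l3006, o4476, l473, l3934, l4590, l5308, l3008, l425, l1218, l6263, l476, l3935, l4624, l4666, l7190, l4602, l6265, l1217, l2846, l2848, o4487, l3829, l3832, l8935, l4664, o5167, l1242, l1412, l4966, l4969, l4082, o714, l8020, o3429, o3428, o3427, l4204, o5407, l1243, l2845, l482, l4225, l4968, o5285, o5286, o5287, o5288, o5290, o5735, o5732, o5831, l8021, l8445, l2474, l2479, l7997, o2963, o3704, l2292, l9044, l9054, l2494, l3616, l3930] l9112 := rupP (by decide +kernel)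
theorem r9113 : PImp [l5297, l5308, l8929, l8933, l6153, l476, l3935, l4624, l4666, l328, l3006, l2848, l1412, l4966, l4967, l9109, l7190, l4082, l2846, o4487, l3008, l425, l1218, l3829, l3832, l8935, l4664, o5167, l1242, l1217, l4969, l6265, l4204, o714, l8020, l9111, l9112, o5590, l9043, l8390, l2606, o7903, l2550, o7777, o7949] l9113 := rupP (by decide +kernel)
theorem r9114 : PImp [l2859, l4290, l3608] l9114 := rupP (by decide +kernel)
theorem r9115 : PImp [l2859, l9114, l3583, l2860] l9115 := rupP (by decide +kernel)
theorem r9116 : PImp [l3234, l2463, l3608, l3890, l3912, l3892, o2721, o7740] l9116 := rupP (by decide +kernel)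
theorem r9117 : PImp [l2381, l2382, l2379, l4580, l2450, l2451, l2448, l1091, o8287, o8127, l745] l9117 := rupP (by decide +kernel)
theorem r9118 : PImp [l5297, l5308, l8929, l4208, o695, o699, l8933, l6153, l3006, o4487, l476, l3935, l4624, l3008, l425, l1218, l3829, l3832, l8935, l4260, l2477, l2848, l1412, l4967, o2740, l4618, o2744, o4495, l3811, o5407, l2846, l4664, o5167, l1242, o4476, l473, l3934, l4590, l6263, l1217, l4968, o5285, o5735, o5732, o5731, l9117, l2620, l2469, l7987, l5893, l9067, o4263] l9118 := rupP (by decide +kernel)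
theorem r9119 : PImp [o5299, o5298, l9117, l2469, l5893] l9119 := rupP (by decide +kernel)
theorem r9120 : PImp [l5297, l5308, l8929, l4208, o695, o699, l4280, l2477, l8933, l6153, l3006, o4487, l476, l3935, l4624, l3008, l425, l1218, l3829, o2744, o4495, l3811, l2846, l2848, l3832, l8935, l4664, o5167, l1242, l2845, l482, l4216, l4623, o4476, l473, l3934, l4590, l6263, l1217, l4968, l9118, o5590, o5587, o5589, l9119, o5252, o5139, l9116, l2620, l5751, l737, o7708, l3930, o2959, l4475] l9120 := rupP (by decide +kernel)
theorem r9121 : PImp [o5285, o5287, l8007, l2606, l2608, l2467, l5689, l3595, l4452] l9121 := rupP (by decide +kernel)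
theorem r9122 : PImp [l4525, l8929, l5297, l8933, l3935, l476, l6153, l4624, l2848, l1412, l4967, l5308, l3006, o4487, l3008, l425, l1218, l3829, o2740, l4618, l2940, l2712, l2554, l328, l4966, l9109, o5407, l4666, l7190, l4082, o8866, o3113, o3050, o2744, o4495, l3811, l3813, o4476, l473, l3934, l4590, l6263, l4602, l2846, l3832, l8935, l4664, o5167, l1242, l2845, l482, l4216, l4225, l1217, l4969, l4968, l6265, l4208, l3089, o2461, l3084, o2477, o2569, l9004, l3303, l3100, l4031, l6293, o3924, l5917, l4055, l4011, o3907, o947, l1247, l9008, o4225, l9113, l2477, l4280, l4260, o699, l9120, l2980, l2982, l2985, o3394, o3427, l8020, l9121, o5588, l5728, l2550, o2335, l657, l1091, o7752, l3540, l3905] l9122 := rupP (by decide +kernel)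
theorem r9123 : PImp [l5297, l5308, l8929, l8933, l6153, l3006, o4487, l476, l3935, l4624, l3008, l425, l1218, l3829, o4495, l3810, o2744, l2846, l2848, l3832, l8935, l4664, o5167, l1242, l2845, l482, l4225, o4476, l473, l3934, l4590, l6263, l9122, l5806, o2444, l3308, l1073] l9123 := rupP (by decide +kernel)
theorem r9124 : PImp [l5297, l5308, l8929, l8933, l7703, l6153, l3006, o4487, l476, l3935, l4624, l3008, l425, l1218, l3829, o4495, l3810, o2740, o2744, l2848, l3338, l3832, l8935, l4130, l3113, l6253, o5364, l328, l1412, l4966, l4967, l9109, o5513, l5035, l4968, l3340, l8934, l3216, l2632, o4812, l2846, l4664, l2734, o5740, l8936, l4167, o5167, l1243, l1242, l2845, l482, l4216, l4225, o4476, l473, l3934, l4590, l6263, l1217, l4969, l4666, l6265, l4836, o3196, l9103, l9123, l9060, l7838, o2444, l1085] l9124 := rupP (by decide +kernel)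
theorem r9125 : PImp [l8686, l4028] l9125 := rupP (by decide +kernel)
theorem r9126 : PImp [l5034, l8929, l5297, l8933, l3935, l476, l6153, l4624, l2848, l1412, l4967, l4618, l5308, l3006, o4487, l3008, l425, l1218, l3829, l2940, l2846, l3832, l8935, l4664, o5167, l1242, l2845, l482, l4216, o4476, l473, l3934, l4590, l6263, l1217, l4969, o3924, l2777, l9125, l3099, l5678, l5917, l3076, o2571, l9113, l4019, o4225, l3320, l5738, o5962] l9126 := rupP (by decide +kernel)
theorem r9127 : PImp [o2544, l4031, o6312, l3260] l9127 := rupP (by decide +kernel)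
theorem r9128 : PImp [o4014, l9127, o2650, l8686, o6107, o1727] l9128 := rupP (by decide +kernel)
theorem r9129 : PImp [l5297, l5308, l8929, l4208, o695, o699, l8933, l6153, l3006, o4487, l476, l3935, l4624, l3008, l425, l1218, l3829, l3832, l8935, l4260, l2477, l2848, l1412, l4967, o4495, l3810, o2740, l4618, o2744, l3811, o5407, l2846, l4664, o5167, l1242, o4476, l473, l3934, l4590, l6263, l1217, l4968, o5285, o5735, o5732, o5731, l9119, l9117, o4263, l2620, l9073, l9067, l4468, l2967] l9129 := rupP (by decide +kernel)
theorem r9130 : PImp [l5297, l5308, l8929, l4208, o695, o699, l4280, l2477, l8933, l6153, l3006, o4487, l476, l3935, l4624, l3008, l425, l1218, l3829, o4495, l3810, o2744, l3811, l2846, l2848, l3832, l8935, l4664, o5167, l1242, l2845, l482, l4216, l4623, o4476, l473, l3934, l4590, l6263, l1217, l4968, l9129, o5590, o5587, o5589, l9119, o5252, o5139, l9116, l2620, l5751, l737, o7708, l3930, o2959, l4475] l9130 := rupP (by decide +kernel)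
theorem r9131 : PImp [o5287, o5733, l6912, l2625, l3595, l4815] l9131 := rupP (by decide +kernel)
theorem r9132 : PImp [l8929, l5297, l8933, l3821, l3935, l476, l6153, l4624, l2848, l1412, l4967, l5308, l3006, o4487, l3008, l425, l1218, l3829, o4495, l3810, o2740, l4618, l2712, l2554, l328, l4966, l9109, o5407, l4666, l7190, l4082, o8866, o3113, o3050, o2744, l3811, l3813, o4476, l473, l3934, l4590, l6263, l4602, l3832, l8935, l4167, l2846, l4664, o5167, l1242, l2845, l482, l4216, l4225, o5332, l4209, l3851, l1217, l4969, l4968, l2627, l6265, l4208, l5034, l4525, l4233, l9128, o3924, l2777, l9125, o1727, l3099, l5678, l5917, l4027, o2507, o2544, l3076, o2571, o8721, o5979, l4019, o3790, o4179, l3320, l4986, l9126, l9008, l5806, l4055, l2477, l4260, o699, l2269, o4225, o3907, l1247, l9130, l2982, o3394, o3391, o3427, l8020, l9131, o5588, l5728, l2550, o2335, l657, l1091, o7752, l3540, l3905] l9132 := rupP (by decide +kernel)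
theorem r9133 : PImp [l5297, l5308, l8929, l8933, l6153, l3006, o4487, l476, l3935, l4624, l3008, l425, l1218, l3829, o4495, l3810, o2744, l2846, l2848, l3832, l8935, l4664, o5167, l1243, l1242, o4476, l473, l3934, l4590, l6263, l1412, l4967, l4969, l328, l4666, l6265, l9132, l9060, l7838, o2444, l1085] l9133 := rupP (by decide +kernel)
theorem r9134 : PImp [l7703, l8929, l5297, l8933, l3935, l476, l6153, l4624, l2848, l1412, l4967, l5308, l3006, o4487, l3008, l425, l1218, l3829, o4495, l3810, o2740, l4618, l3813, l3338, l3832, l8935, l4130, l3113, l6253, o5364, l328, l4966, l9109, o5513, l5035, l4968, l3340, l8934, l3216, l2632, o4812, l2846, l4664, l2734, o5740, l8936, o5167, l1243, l2845, l482, l4225, l473, l3934, l4590, o4476, l3851, l1217, l4666, l5394, o4452, l9124, l9133, l3951, l9087, o26, l8085, l3303, l3304, l3256, l9102, o2637, l8960, l2779, l5982, l4539] l9134 := rupP (by decide +kernel)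
theorem r9135 : PImp [l8929, l5297, l8933, l3821, l3935, l476, l6153, l4624, l2848, l1412, l4967, l5308, l3006, o4487, l3008, l425, l1218, l3829, o4495, l3810, o2740, l4618, l3811, l2846, l3832, l8935, l4664, o5167, l1242, l2845, l482, l4216, l473, l3934, l4590, o4476, l3851, l6263, l1217, l4969, l4968, l5034, l4233, l9128, l2777, l9125, o3911, o1727, l5678, l4027, o2500, o2544, l3076, o5979, l4019, o4177, l5849, l4995] l9135 := rupP (by decide +kernel)
theorem r9136 : PImp [l5297, l5308, l8929, l8933, l6153, l3006, o4487, l476, l3935, l4624, l3008, l425, l1218, l3829, o4495, l3810, o2744, l1246, l2846, l2848, l3832, l8935, l4664, o5167, l1243, l1242, o4476, l473, l3934, l4590, l6263, l1412, l4967, l328, l4666, l6265, l2845, l5394, l9135, l9099, l8870, o2444, l1085] l9136 := rupP (by decide +kernel)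
theorem r9137 : PImp [l5297, l8929, l8933, l3935, l476, l6153, l4624, l2848, l3338, l7703, l3006, o4487, l5308, l3008, l425, l1218, l3829, l3832, l8935, l4130, l3113, l6253, o5364, l5035, l4968, l3340, l404, l8932, l8934, l3216, l2632, o4812, l2846, l4664, l2734, o5740, l8936, l4167, l3427, o5167, l1243, l2845, l482, l4216, l4225, l473, l3934, l4590, o4476, l3851, l1412, l4967, l4966, l1217, o4495, l328, l4666, l5394, o4452, l9109, l9108, l3810, l3813, o2744, o2740, l9134, l4875, l1246, o2789, l9136, l3951, l9103, l9087, o26, l8085, l3303, l3304, l3256, l9102, o2637, o2444, l8960, o5897, o3891] l9137 := rupP (by decide +kernel)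
theorem r9138 : PImp [l5662, l4610] l9138 := rupP (by decide +kernel)
theorem r9139 : PImp [l7703, l5297, l8929, l8933, l6153, l3006, l4968, l3008, l425, l1218, l3935, l476, l4624, l2846, l2848, o4487, l5308, l3829, l3832, l8935, l4664, o5167, l473, l3934, l4590, o4476, l3851, l6263, l2845, l482, l4216, l1242, l4228, l3817, l9065, o2637, l3039, l1412, o2636, l9096, l3338, l4130, l3113, l6253, o5364, o5513, l9137, l2713, l5035, l3340, l404, l8932, l8934, l3216, l2632, o4812, l2734, o5740, l8936, l4167, l3427, o5354, l8999, l3455, l4055, l2604, l4059, l9138, l2571, l5670, o9147, o8988] l9139 := rupP (by decide +kernel)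
theorem r9140 : PImp [l4608, l4610] l9140 := rupP (by decide +kernel)
theorem r9141 : PImp [l5297, l5308, l4228, l8929, l8933, l3817, l3935, l476, l6153, l4624, l2848, l3338, l7703, l3006, o4487, l3008, l425, l1218, l3829, l3832, l8935, l4130, l3113, l6253, o5364, o5513, l9137, l2713, l5035, l4968, l3340, l404, l8932, l8934, l3216, l2632, o4812, l2846, l4664, l2734, o5740, l8936, l4167, o5354, o5167, l1242, l2845, l482, l4216, l473, l3934, l4590, o4476, l3851, l6263, l1412, l9065, o2636, o2637, o2644, l3039, l9096, l9139, l5178, l9081, l3455, l4055, l2604, l4059, l9140, l2571, l5670, o9147, o8988] l9141 := rupP (by decide +kernel)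
theorem r9142 : PImp [o4225, l5713, o124, o6436, o6768] l9142 := rupP (by decide +kernel)
theorem r9143 : PImp [l8929, l5297, l8933, l3821, l9137, l3935, l6153, l476, l4624, l2846, l2848, l7703, l3006, o4487, l5308, l3008, l425, l1218, l3829, l3832, l8935, l4664, o5167, l1242, l2845, l482, l4216, l4225, l473, l3934, l4590, o4476, l3851, l6263, l1412, l4967, l1217, o4495, l4969, l4968, l328, l6265, l5034, l4525, l4233, l9141, l3810, l9135, l3811, o2744, o2740, l9128, l1247, l4618, o3924, l2777, l9125, o1727, l5678, o2497, o2544, l3076, l6293, o5979, l4019, o4174, l3320, l3998, l3282, l1073, o6034, l9142, o4035, l8362, l8110, l8094, o6732, o6477] l9143 := rupP (by decide +kernel)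
theorem r9144 : PImp [l5297, l8929, l8933, l3935, l6153, l476, l4624, l2846, l2848, l7703, l3006, o4487, l5308, l3008, l425, l1218, l3829, l3832, l8935, l4664, o5167, l1243, l473, l3934, l4590, o4476, l3851, l1412, l4967, l4969, l328, l4666, l6265, l3817, l9143, o26, l9060, o2637, l7838, l3287, o8753, o6187] l9144 := rupP (by decide +kernel)
theorem r9145 : PImp [l3951, l1412, l4967, l3008, l3006, l425, l1218, l4968, l9087, l4836, l9101] l9145 := rupP (by decide +kernel)
theorem r9146 : PImp [l2568, l5670, o8549, o8822] l9146 := rupP (by decide +kernel)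
theorem r9147 : PImp [l9137, l2548, l5297, l8929, l8933, l3935, l476, l6153, l4624, l2848, l3338, l7703, l3006, o4487, l5308, l3008, l425, l1218, l3829, l3832, l8935, l4130, l3113, l6253, o5364, l5035, l4968, l3340, l404, l8932, l8934, l3216, l2632, o4812, l2846, l4664, l2734, o5740, l8936, l4167, l3427, l2712, o5167, l1243, l1242, l2845, l482, l4216, l4225, l473, l3934, l4590, o4476, l3851, l1412, l4666, l5394, o4452, o5407, l9144, l9145, o26, l8085, l3303, l3256, l9102, o2637, l8960, l4554, l9146, l4082, l4610, l9140, o8662, l2543] l9147 := rupP (by decide +kernel)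
theorem r9148 : PImp [l9137, l8929, l5297, l8933, l2845, l5308, l3935, l6153, l476, l4624, l2846, l2848, l7703, l3006, o4487, l3008, l425, l1218, l3829, l3832, l8935, l4664, l482, l4216, l4225, l1217, l4969, l9147, o4575, l5525, l5665, l7491, o6768] l9148 := rupP (by decide +kernel)
theorem r9149 : PImp [l1242, l1412, l4228, l9065, o2636, o2637, o2644, l3039, l9096, l4059, l4055, l6293, l5956, o3866, o3872] l9149 := rupP (by decide +kernel)
theorem r9150 : PImp [l8929, l5297, l8933, l6153, l2712, l2548, o5407, l9146, l3935, l476, l4624, l2846, l2848, l3006, o4487, l5308, l3008, l425, l1218, l3829, l3832, l8935, l4664, o5167, l1243, l2845, l482, l4216, l473, l3934, l4590, o4476, l3851, l6263, l1412, l4967, l1217, l4968, l328, l4666, l6265, l5394, l3817, l9136, l9140, l9149, o26, l9099, o2637, l8870, l3287, o8753, o6187] l9150 := rupP (by decide +kernel)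
theorem r9151 : PImp [l2548, l8929, l5297, l8933, l2712, l7703, l6153, l3006, o4487, l476, l3935, l4624, l5308, l3008, l425, l1218, l3829, l3832, l8935, l4130, l8934, l2846, l2848, l4664, o5167, l1243, l1242, l2845, l482, l4216, l4225, l473, l3934, l4590, o4476, l3851, l4968, l5035, l1412, l4666, l5394, o4452, o5407, l9146, l4082, l9150, l9145, o26, l8085, l3303, l3256, l9102, o2637, l8960, l4554, l4610, l9140, l2543, o8662] l9151 := rupP (by decide +kernel)
theorem r9152 : PImp [l7490, o6768] l9152 := rupP (by decide +kernel)
theorem r9153 : PImp [l1242, l1412, l4228, l9149, l4086, l9065, o2636, o2637, o2644, l3039, o2670, l9096, l7963, l3303, l6293, l4031] l9153 := rupP (by decide +kernel)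
theorem r9154 : PImp [l5297, l8929, l8933, l3935, l6153, l476, l4624, l2846, l2848, l3006, o4487, l5308, l3008, l425, l1218, l3829, l3832, l8935, l4664, o5167, l1243, l2845, l482, l4216, l473, l3934, l4590, o4476, l3851, l6263, l1412, l4967, l1217, l4968, l328, l4666, l6265, l5394, l3817, l9136, l9153, o26, l9099, o2637, l8870, l3287, o8753, o6187] l9154 := rupP (by decide +kernel)
theorem r9155 : PImp [o5897, o6423] l9155 := rupP (by decide +kernel)
theorem r9156 : PImp [l3304, l9155, l5267, l4533, l4538] l9156 := rupP (by decide +kernel)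
theorem r9157 : PImp [o2460, l5267, l1246, o5897, o3891] l9157 := rupP (by decide +kernel)
theorem r9158 : PImp [l5297, l7703, l8929, l8933, l6153, l3006, o4487, l476, l3935, l4624, l5308, l3008, l425, l1218, l3829, l3832, l8935, l5035, l4968, l3340, l4130, l2848, l4834, l8934, l3216, l2632, l3113, l3338, l6253, o4812, l2846, l4664, l2734, o5740, l8936, l4167, o5364, l2712, o5167, l1243, l1242, l2845, l482, l4216, l4225, l473, l3934, l4590, o4476, l3851, l1412, l4967, l1217, l4969, l4666, l5394, o4452, l2820, l3427, l9137, l9148, l2548, l9151, o4575, o5727, l5525, l9152, l2568, l2591, o8531, l9154, l4007, l9145, o26, l8085, l3303, l3304, l3256, l9102, o2637, l8960, l4547, l9156, l9157, l5982, l4533, l8842, l4836, l8954, l2779, l2781, o2472, l4529, l5011] l9158 := rupP (by decide +kernel)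
theorem r9159 : PImp [l2557, l7190, l4602, l4084, o3582, o9178] l9159 := rupP (by decide +kernel)
theorem r9160 : PImp [l8929, l5297, l8933, l2712, l7703, l6153, l3006, o4476, l473, l3934, l4590, l5308, l3008, l425, l1218, l6263, l476, l3935, l4624, l4666, o5407, o5513, l9159, l2713, l2548, l9146, l4084, l4082, l8367, l2543, l4608, o8662] l9160 := rupP (by decide +kernel)
theorem r9161 : PImp [l5297, l8929, l8933, l6153, l476, l3935, l4624, l3113, l2845, l5308, l2846, l2848, l7703, l3006, o4487, l3008, l425, l1218, l3829, l3832, l8935, l4664, l482, l4216, l4225, l2734, l4130, l1412, l4967, l4966, l1217, l4969, l4968, l4129, l328, l5035, l3338, l3340, l3342, l4834, l6253, l8934, o5364, o4812, o5354, o5740, l3216, l2630, l2632, l8936, l4167, l9158, o3540, l3452, o8836, l2604, o5487, l9160, o5824, o4575, l9109, l2713, l5525, l9152, l2571, l7766] l9161 := rupP (by decide +kernel)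
theorem r9162 : PImp [l7703, l4967, l5035, l2820, l2821, l4149, l4113, o4569, l4143, o5490, l5166, l3729, o3196, o8777, o8803] l9162 := rupP (by decide +kernel)
theorem r9163 : PImp [o4569, o4523, l3729, l3784, l3785] l9163 := rupP (by decide +kernel)
theorem r9164 : PImp [l8929, l5297, l8933, l2845, l5308, l3935, l6153, l476, l4624, l2846, l2848, l7703, l3006, o4487, l3008, l425, l1218, l3829, l3832, l8935, l4664, l482, l4216, l4225, l3029, l4127, l4129, l5035, l1412, l473, l3934, l4590, l3111, l9161, l3929, l9162, l2995, l2996, l2998, l3000, o3540, l9163, l4149, o5380, l4141, l641, l3725, o8464, l3126, l3759, l3749, l7692] l9164 := rupP (by decide +kernel)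
theorem r9165 : PImp [l8929, l5297, l8933, l3342, l3341, l3335, l2637, l2633, l3213, l7703, l6153, l3006, o4487, l476, l3935, l4624, l5308, l3008, l425, l1218, l3829, l3832, l8935, l4132, l473, l3934, l4590, o4476, l3851, l4968, l4127, l4129, l5035, l2820, l2821, l8932, l5131, l3352, l3376, o5390, l3347, o5380, o8548, l671, o3180, o3823, l2252, l4849, o8544, o4824] l9165 := rupP (by decide +kernel)
theorem r9166 : PImp [l2633, l7703, l5297, l8929, l8933, l6153, l3006, l4968, l4127, l5035, l2845, l5394, o4452, l3335, l9165, l3000, o3538, l4839, o8548, o4818] l9166 := rupP (by decide +kernel)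
theorem r9167 : PImp [l9060, o2637, l7838, l3287, o8753, o6187] l9167 := rupP (by decide +kernel)
theorem r9168 : PImp [l3929, l7703, l3008, l425, l1218, l429, l5035, o4550, o4540, l3749, l3761, o3232, l2912] l9168 := rupP (by decide +kernel)
theorem r9169 : PImp [l7703, l3006, o3197, o3198, l9168, o5363, o5364, o5366, o8575, o8547, l39, o1552, o8544, o8770, o3777] l9169 := rupP (by decide +kernel)
theorem r9170 : PImp [l5297, l8929, l8933, l3935, l6153, l476, l4624, l2846, l2848, l7703, l3006, o4487, l5308, l3008, l425, l1218, l3829, l3832, l8935, l4664, o5167, l1242, o5332, l4209, l4130, l4132, o4476, l473, l3934, l4590, l6263, l1412, l4967, l4128, l5035, l2627, l3213, l2634, l2636, l2637, l9166, l9169, l3728, l3724] l9170 := rupP (by decide +kernel)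
theorem r9171 : PImp [l4084, l2617, l6707, l2545, o9076] l9171 := rupP (by decide +kernel)
theorem r9172 : PImp [l2557, l9171, l2571, o9167, o8968] l9172 := rupP (by decide +kernel)
theorem r9173 : PImp [l5297, l5308, l4204, l8929, l8933, l6153, l3006, o4487, l476, l3935, l4624, l3008, l425, l1218, l3829, o2740, l2940, l473, l3934, l4590, o4476, l3851, l2956, o3050, o5407, l2846, l2848, l3832, l8935, l4664, o5167, l1243, l2845, l482, l4225, l4968, l4666, l6265, o5285, o5286, o5287, o5288, o5290, o5735, o5732, o5831, l8341, l8445, l2474, l2479, o2963, o2947, o3704, l2292, l9044, l9054, l2494, l3616, l3930] l9173 := rupP (by decide +kernel)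
theorem r9174 : PImp [l5297, l8929, l8933, l3935, l6153, l476, l4624, l2846, l2848, l3006, o4487, l5308, l3008, l425, l1218, l3829, l3832, l8935, l4664, o5167, l1242, l1412, l4966, l1217, l4969, l4666, l6265, o714, l8020, o3427, o3428, l9173, l8390, o7903, o7985] l9174 := rupP (by decide +kernel)
theorem r9175 : PImp [l2381, l2382, l2379, l735, l732, o8498, l1105, l745, o8268] l9175 := rupP (by decide +kernel)
theorem r9176 : PImp [l5297, l5308, l4204, o5407, l8929, l8933, l3935, l6153, l476, l4624, l2846, l2848, l3006, o4487, l3008, l425, l1218, l3829, l3832, l8935, l4664, o5167, l1243, l2845, l482, l4225, l4969, l4968, l473, l3934, l4590, l4666, l6265, o5285, o5286, o5287, o5290, o5735, o5732, o5731, l8341, l8445, l5042, l2473, l2474, l9175, l2620, l2494, l42, l3930, l7291, l2470, o2968, l3616, l4940, o4264] l9176 := rupP (by decide +kernel)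
theorem r9177 : PImp [l5297, l8929, l8933, l3935, l6153, l476, l4624, l2846, l2848, l3006, o4487, l5308, l3008, l425, l1218, l3829, l3832, l8935, l4664, o5167, l1242, l1412, l4966, l1217, l4969, l4666, l6265, o714, l8020, o3427, l9176, l8390, o7903, o7985] l9177 := rupP (by decide +kernel)
theorem r9178 : PImp [l466, l3234, l3235, l2379, l9116, l3608, l4629, o2735, l3890, l3872, l3874, o2963, l1509] l9178 := rupP (by decide +kernel)
theorem r9179 : PImp [l5297, l5308, l8929, l4208, o695, o699, l8933, l6153, l3006, o4487, l476, l3935, l4624, l3008, l425, l1218, l3829, l3832, l8935, l4260, l4280, l2477, l2846, l2848, l4664, o5167, l1242, l2845, l482, l4216, l4623, l473, l3934, l4590, o4476, l3851, l6263, l1217, l4968, l9015, l9119, l466, o5255, l9115, o5256, l9178, l2620, l5751, l737, o7708, l3930, o2968, l3608, l4461] l9179 := rupP (by decide +kernel)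
theorem r9180 : PImp [l5297, l5308, l4204, l8929, l8933, l6153, l3006, o4487, l476, l3935, l4624, l3008, l425, l1218, l3829, o2740, l2940, o3050, o5407, l2846, l2848, l3832, l8935, l4664, o5167, l1243, l2845, l482, l4225, l4968, l4666, l6265, o5286, o5287, o5290, o5735, o5732, o5831, l8341, l8445, l2474, l2479, o3704, o2963, l2292, l9053, l9054] l9180 := rupP (by decide +kernel)
theorem r9181 : PImp [l5297, l8929, l8933, l3935, l6153, l476, l4624, l2846, l2848, l3006, o4487, l5308, l3008, l425, l1218, l3829, l3832, l8935, l4664, o5167, l1242, l473, l3934, l4590, o4476, l3851, l1412, l4966, l1217, l4969, l4666, l6265, l4204, o714, l9174, l8020, o3427, o3429, l9180, o5590, o5585, o5586, l9051, l5893, l2613, o7903, o7985] l9181 := rupP (by decide +kernel)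
theorem r9182 : PImp [l5297, l8929, l8933, l3935, l6153, l476, l4624, l2846, l2848, l3006, o4487, l5308, l3008, l425, l1218, l3829, l3832, l8935, l4664, o5167, l1242, l2845, l482, l4216, o4476, l473, l3934, l4590, l6263, l1217, l4208, o2744, l1247, l9181, l2477, l4260, o699, l9023, l9120, o5590, o5588, l2980, l2982, o3394, l743, l2444, l3540, l5667, o7740, l3905] l9182 := rupP (by decide +kernel)
theorem r9183 : PImp [l5297, l8929, l8933, l3935, l6153, l476, l4624, l2846, l2848, l3006, o4487, l5308, l3008, l425, l1218, l3829, l3832, l8935, l4664, o5167, l1242, l2845, l482, l4216, o4476, l473, l3934, l4590, l6263, l1217, o4495, l4208, l9182, l3814, l9177, l2477, l4260, o699, l9012, o5590, o5585, o5587, o5588, o5589, l9179, l2980, l2982, o3394, l743, l2444, l3540, l5667, o7740, l3905] l9183 := rupP (by decide +kernel)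
theorem r9184 : PImp [o6055, o6064] l9184 := rupP (by decide +kernel)
theorem r9185 : PImp [l8174, l2494, l2470] l9185 := rupP (by decide +kernel)
theorem r9186 : PImp [o5285, o5287, o5290, o5735, o5732, o5731, l8341, l8445, l2473, l2474, o2952, l9175, l9185] l9186 := rupP (by decide +kernel)
theorem r9187 : PImp [l4204, o714, l8020, o3427, l9186, o5590, o5588, l8390, o7985, l2564, o2301, l5893, l1071, l3931, l4947, o2952, l8445, o7729] l9187 := rupP (by decide +kernel)
theorem r9188 : PImp [l5297, l8929, l8933, l3935, l476, l6153, l4624, l2848, l9170, l3113, l7703, l3006, o4487, l5308, l3008, l425, l1218, l3829, l3832, l8935, l4130, l3338, l6253, o5364, l5035, l4968, l4834, l8934, l2632, l3216, o4812, l3340, l2846, l4664, l2734, o5740, l8936, l4167, l3427, l2820, l9164, l2615, o5167, l1243, l1242, l2845, l482, l4216, l4225, l473, l3934, l4590, o4476, l3851, l6263, l1412, l4966, l1217, o4495, l4969, l4666, l6265, l4208, o5407, o5513, l9172, l2713, l2548, l7974, l3282, l4084, l4082, l6706, l2539, l8123, o9023, o2687, l9184, o4225, l9183, l1246, o2736, l3814,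 l9187, l2477, l4260, o699, l9012, o5590, o5585, o5587, o5588, o5589, l9179, l2980, l2982, o3394, l743, l2444, l3540, l5667, o7740, l3905] l9188 := rupP (by decide +kernel)
theorem r9189 : PImp [o6478, o6731, o2569, l5869, o6252] l9189 := rupP (by decide +kernel)
theorem r9190 : PImp [l3100, l9189, l4086, o6113, o6252] l9190 := rupP (by decide +kernel)
theorem r9191 : PImp [l5297, l5308, l4228, l5034, l8929, l8933, l3817, l9170, l9164, o876, l2820, l7703, l6153, l3006, o4487, l476, l3935, l4624, l3008, l425, l1218, l3829, l3832, l8935, l5035, l4968, l4130, l2848, l4834, l8934, l2632, l3216, l3113, l3338, l6253, o4812, l3340, l2846, l4664, l2734, o5740, l8936, l4167, o5167, l1243, l1242, l2845, l482, l4216, l473, l3934, l4590, o4476, l3851, l6263, l1217, l4969, l429, l1412, l6265, l9149, l9065, o2636, o2637, o2644, l3039, o2668, l9096, l3303, l4031, l5917, l6293, l4055, o3946, l4062, l8855, l2784, l2786, l3992, o3871, l9188, o4575, o4140, l9190, l5525, l7974, l4595] l9191 := rupP (by decide +kernel)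
theorem r9192 : PImp [o5286, l5532, l2565, l4301, l4462, l4459] l9192 := rupP (by decide +kernel)
theorem r9193 : PImp [l7703, l8929, l5297, l8933, l3935, l476, l6153, l4624, l2848, l1412, l4967, l5308, l3006, o4487, l3008, l425, l1218, l3829, o4495, l3810, o2740, l4618, l3811, l3813, l9170, l3113, l3832, l8935, l4130, l3338, l6253, o5364, l5035, l4968, l4834, l8934, l2632, l3216, o4812, l3340, l2846, l4664, l2734, o5740, l8936, l4167, l3427, l2820, l9164, l2615, o5167, l1243, l1242, l2845, l482, l4216, l4225, o4476, l473, l3934, l4590, l6263, l4966, l1217, l4969, l4666, l6265, o5513, l9172, l2713, l7974, l3282, l4084, l4082, l6706, l2539, l8123, o9023, o2687, l9184, o4225, l9181, l2477, l4280, l4260, l9120, l2980, l2982, l2983, o3427, l8020, l9192, o5588, l5728, l657, l2611, l2613, o7752, l3905, l5667] l9193 := rupP (by decide +kernel)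
theorem r9194 : PImp [l3100, l8634, l9189] l9194 := rupP (by decide +kernel)
theorem r9195 : PImp [l5297, l5308, l4233, l5034, l8929, l8933, l3821, l9170, l9164, o876, l2820, l7703, l6153, l3006, o4487, l476, l3935, l4624, l3008, l425, l1218, l3829, l3832, l8935, l5035, l4968, l4130, l2848, l4834, l8934, l2632, l3216, l3113, l3338, l6253, o4812, l3340, l2846, l4664, l2734, o5740, l8936, l4167, o5167, l1243, l1242, l2845, l482, l4216, l4225, l473, l3934, l4590, o4476, l3851, l6263, l1412, l4967, l1217, o4495, l4969, l6265, o3196, l9191, l3810, l9135, l9136, l3811, o2744, o2740, l9128, l1247, l4618, l9125, l5917, o3924, l2777, o1727, l5678, o2500, o2497, o2566, o2544, l3076, l6293, o5979, l4019, o4174, o4176, o4177, l3998, l4995, l5806, l9193, o4575, o4140, l9194, l5525, l7974, l4595] l9195 := rupP (by decide +kernel)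
theorem r9196 : PImp [l5297, l8929, l8933, l3935, l476, l6153, l4624, l2848, l9170, l3113, l7703, l3006, o4487, l5308, l3008, l425, l1218, l3829, l3832, l8935, l4130, l3338, l6253, o5364, o5513, l5035, l4834, l9195, l4836, l5178, l3817, l4968, l8934, l2632, l3216, o4812, l3340, l2846, l4664, l2734, o5740, l8936, l4167, l9164, l2615, o5167, l1242, l2845, l482, l4216, l4225, l473, l3934, l4590, o4476, l3851, l6263, l1217, o4495, l4969, l2557, l9172, l9171, l2571, o9167, o9090, o8721, o3104, l3810, l9149, l8956, l8967] l9196 := rupP (by decide +kernel)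
theorem r9197 : PImp [l9170, l5035, l8929, l5297, l8933, l3935, l476, l6153, l4624, l2848, l4834, l9195, l4836, l2820, l7703, l3006, o4487, l5308, l3008, l425, l1218, l3829, l3832, l8935, l4968, l4130, l8934, l2632, l3216, l3113, l3338, l6253, o4812, l3340, l2846, l4664, l2734, o5740, l8936, l4167, o5364, l9164, o5167, l1243, l6265, o5513, l9196, l7974, l4084, l6706] l9197 := rupP (by decide +kernel)
theorem r9198 : PImp [l4228, o876, l1242, l3008, l3006, l425, l1217, l1218, l4968, l1412, l9149, l9065, o2636, o2637, l3039, l9096, l8966, l4055, l9190, o4036] l9198 := rupP (by decide +kernel)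
theorem r9199 : PImp [l5297, l5308, l4233, l8929, l8933, l3821, l3935, l6153, l476, l4624, l2846, l2848, l3006, o4487, l3008, l425, l1218, l3829, l3832, l8935, l4664, o5167, l1242, l2845, l482, l4216, l473, l3934, l4590, o4476, l3851, l6263, o4495, l3810, l3811, l9128, o3104, l9125, l5917, o8721] l9199 := rupP (by decide +kernel)
theorem r9200 : PImp [l8929, l5297, l8933, l3817, l2820, l7703, l6153, l3006, o4487, l476, l3935, l4624, l5308, l3008, l425, l1218, l3829, l3832, l8935, l5035, l4968, l9170, l4130, l2848, l4834, l8934, l2632, l3216, l3113, l3338, l6253, o4812, l3340, l2846, l4664, l2734, o5740, l8936, l4167, l9164, o5167, l1243, l2845, l482, l4216, l473, l3934, l4590, o4476, l3851, l6263, l1217, l4969, l6265, l9195, l4836, l5178, l9197, o4575, l9199, l9198, l5525, l7974, l4595] l9200 := rupP (by decide +kernel)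
theorem r9201 : PImp [l5297, l8929, l8933, l3935, l6153, l476, l4624, l2846, l2848, l7703, l3006, o4487, l5308, l3008, l425, l1218, l3829, l3832, l8935, l4664, o5167, l1243, l473, l3934, l4590, o4476, l3851, l1412, l4967, l4969, l328, l4666, l6265, l2845, l5394, l3817, l9200, o26, l9167, l9099, o2637, l8870, l3287, o8753, o6187] l9201 := rupP (by decide +kernel)
theorem r9202 : PImp [l3304, l1074, l5267, l4533, l8842] l9202 := rupP (by decide +kernel)
theorem r9203 : PImp [l9201, l5297, l8929, l8933, l6153, l3935, l476, l4624, l2848, l5035, l7703, l3006, o4487, l5308, l3008, l425, l1218, l3829, l3832, l2845, l2846, l8935, l4664, l482, l4216, o5167, l1242, l9170, l4834, l4130, l8934, l9145, l1412, l4968, l4225, l1243, l3113, l3338, l6253, o5364, l2632, l3216, o4812, l3340, l2734, o5740, l8936, l4167, l3427, l8085, l9102, l3303, l5394, o4452, l4666, o26, l473, l3934, l4590, l3256, o4476, l3851, o2637, l8960, l4547, l9156, l4967, l1217, o4495, l4836, l9103, o2740, l8995, l3814] l9203 := rupP (by decide +kernel)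
theorem r9204 : PImp [l5297, l7703, l8929, l8933, l6153, l3006, o4487, l476, l3935, l4624, l5308, l3008, l425, l1218, l3829, l3832, l8935, l5035, l4968, l9170, l4130, l2848, l4834, l8934, l2632, l3216, l3113, l3338, l6253, o4812, l3340, l2846, l4664, l2734, o5740, l8936, l4167, o5364, o5167, l1243, l1242, l2845, l482, l4216, l4225, l473, l3934, l4590, o4476, l3851, l1217, l1412, l4666, l5394, o4452, l3427, l9201, l4763, l9145, o26, l8085, l3303, l3304, l3256, l9102, o2637, l8960, l4547, l9203, l5178, l5982, o3909, o3895, l3075, l5265, l6130, l3076, l5013] l9204 := rupP (by decide +kernel)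
theorem r9205 : PImp [l5297, l5308, l8929, l8933, l6153, l3006, o4487, l476, l3935, l4624, l3008, l425, l1218, l3829, o4495, l3810, l9135, o2744, l1247] l9205 := rupP (by decide +kernel)
theorem r9206 : PImp [l9170, l5297, l7703, l8929, l8933, l6153, l3006, o4487, l476, l3935, l4624, l5308, l3008, l425, l1218, l3829, l3832, l8935, l4130, l2848, l5035, l4834, l8934, l2557, l3113, l3338, l6253, o5364, o5513, l4228, l3817, l2845, l2846, l4664, l482, l4225, l4968, l2632, l3216, o4812, l3340, l2734, o5740, l8936, l4167, o5354, l9204, l3452, l3000, l9164, l2615, o5167, l1242, l4216, l473, l3934, l4590, o4476, l3851, l6263, l1217, l328, l1412, l6265, l4084, l2617, l6707, o2924, l2560, o9076, o6616, o6731, l2544, l5719, l9205, l9149, l9065, l9198, o2636, o2637, o2644, l3039, l5178, l9096, l8976, l3303, l4055, l4031, l2786] l9206 := rupP (by decide +kernel)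
theorem r9207 : PImp [l5297, l8929, l8933, l3935, l476, l6153, l4624, l2848, l9170, l3113, l7703, l3006, o4487, l5308, l3008, l425, l1218, l3829, l3832, l8935, l4130, l3338, l6253, o5364, o5513, l9204, l5035, l4968, l4834, l8934, l2632, l3216, o4812, l3340, l2846, l4664, l2734, o5740, l8936, l4167, l9164, l2615, l2845, l482, l4225, l2557, l9206, l2571, o9167, l8126, o9090, l2592] l9207 := rupP (by decide +kernel)
theorem r9208 : PImp [l2713, l2615, l7703, l3008, l5035, l4084, l7915, l6706] l9208 := rupP (by decide +kernel)
theorem r9209 : PImp [l8929, l5297, l8933, l3935, l6153, l476, l4624, l2846, l2848, l7703, l3006, o4487, l5308, l3008, l425, l1218, l3829, l3832, l8935, l4664, l4968, l9170, l4130, l5035, l4834, l8934, l2630, l3342, l4129, l9204, o3540, o8836, o5472, l2845, l482, l4225, l2632, l3216, l3113, l3338, l6253, o4812, l3340, l2734, o5740, l8936, l4167, o5354, l3452, o5364, l9164, o5167, l1243, l1412, l4967, l6265, o5513, l9207, l9208, l6261, l7972, l5719] l9209 := rupP (by decide +kernel)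
theorem r9210 : PImp [l4084, l5664, o8989, o8907] l9210 := rupP (by decide +kernel)
theorem r9211 : PImp [l3216, l2615, l7703, l328, l2557, l9210, l2571, l8566, o2924, l2576, l6140] l9211 := rupP (by decide +kernel)
theorem r9212 : PImp [l7703, l1412, l4966, l3008, l3006, l425, l1217, l1218, l4969, o5824, l9211, l5525, l7971, l4595] l9212 := rupP (by decide +kernel)
theorem r9213 : PImp [l2845, l5394, l5297, l8929, l8933, l6153, l3935, l476, l4624, l2848, l7703, l3006, o4487, l5308, l3008, l425, l1218, l3829, l3832, l2846, l8935, l4664, l482, l4216, o5167, l1242, l9170, l9164, l4130, l5035, l4834, l8934, l4968, l2632, l3216, l3113, l3338, l6253, o4812, l3340, l2734, o5740, l8936, l4167, l9204, l2630, l3342, l4129, o3540, o8836, o5487, l9212, l1243, l473, l3934, l4590, o4476, l3851, l1412, l4967, l4969, l328, l4666, l6265, l3817, l9209, o26, l9167, l9099, o2637, l8870, l3287, o8753, o6187] l9213 := rupP (by decide +kernel)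
theorem r9214 : PImp [l8085, l3303, l4547, l4763, l8947, o3895, o2449, l6130, l5020] l9214 := rupP (by decide +kernel)
theorem r9215 : PImp [l9170, l5297, l7703, l8929, l8933, l6153, l3006, o4487, l476, l3935, l4624, l5308, l3008, l425, l1218, l3829, l3832, l8935, l4130, l2848, l5035, l4834, l8934, l2557, l2845, l2846, l4664, l482, l4216, o5167, l1242, l9213, l9145, o26, l3113, l3338, l6253, o5364, l5394, l9164, l4968, l2632, l3216, o4812, l3340, l2734, o5740, l8936, l4167, l9204, l2630, l3342, l4129, o3540, o8836, o5487, l9212, o5513, l4225, o5354, l3452, l3000, l2615, l1243, l473, l3934, l4590, o4476, l3851, l328, l1412, l4666, o4452, l4084, l2617, l6707, o2924, l2560, o9076, o6616, o6731, o6363, l2544, l5719, l8085, l3303, l3304, l3256, l9102, o2637, l8960, l4554, l4547, l9156, l9214, l5178, l2789, l8976, o6575, o5897] l9215 := rupP (by decide +kernel)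
theorem r9216 : PImp [l5297, l8929, l8933, l3935, l476, l6153, l4624, l2848, l9170, l3113, l7703, l3006, o4487, l5308, l3008, l425, l1218, l3829, l3832, l8935, l4130, l3338, l6253, o5364, l2845, l5394, l2846, l4664, l482, l4216, o5167, l1242, l9164, l5035, l4834, l8934, l4968, l2632, l3216, o4812, l3340, l2734, o5740, l8936, l4167, l9204, l2630, l3342, l4129, o3540, o8836, o5487, l9212, o5513, l2615, l4225, l2557, l9215, l2571, o9167, l8126, o9090, l2592] l9216 := rupP (by decide +kernel)
theorem r9217 : PImp [l9170, l9164, l5297, l8929, l8933, l6153, l476, l3935, l4624, l3113, l2846, l2848, l7703, l3006, o4487, l5308, l3008, l425, l1218, l3829, l3832, l8935, l4664, o5167, l1243, l1242, l2845, l482, l4216, l4225, l2734, l4130, l1412, l4967, l4968, l4129, l5035, l6265, l5394, l3338, l3340, l3342, l4834, l6253, l8934, o5364, o4812, o5354, o5740, l3216, l2630, l2632, l8936, l4167, l9204, o3540, l3452, o8836, o5487, o5472, l9212, o5513, l9216, l9208, l6261, l7972, l5719] l9217 := rupP (by decide +kernel)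
theorem r9218 : PImp [l8929, l5297, l8933, l2845, l5308, l3935, l6153, l476, l4624, l2846, l2848, l7703, l3006, o4487, l3008, l425, l1218, l3829, l3832, l8935, l4664, l482, l4216, l4225, l3029, l4127, l4129, l5035, l1412, l473, l3934, l4590, l9170, l3111, l9217, l3929, l9162, l2995, l2996, l2998, l3000, o3540, l9163, l4149, o5380, l4141, l641, l3725, o8464, l3126, l3759, l3749, l7692] l9218 := rupP (by decide +kernel)
theorem r9219 : PImp [l2557, l8717, l8905, l4084] l9219 := rupP (by decide +kernel)
theorem r9220 : PImp [l9166, l5297, l7703, l8929, l8933, l6153, l3006, o4487, l476, l3935, l4624, l5308, l3008, l425, l1218, l3829, l3832, l8935, l4130, l2848, l5035, l4834, l8934, l2845, l2846, l4664, l482, l4225, l4968, l2632, l3216, l3338, l3113, l6253, o4812, l3340, l2734, o5740, l8936, l4167, o5354, o5364, l9218, l3439, l3452, l2630, l3342, l4129, o3540, o8836, o5472, l4769, o5487, o5167, l1242, l4216, l1412, l4966, l1217, l4969, l4666, l2604, l9160, o5824, o4575, l9219, l2713, l5525, l8380, l9152] l9220 := rupP (by decide +kernel)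
theorem r9221 : PImp [l4084, l2617, l6707, l2544, o9076] l9221 := rupP (by decide +kernel)
theorem r9222 : PImp [l2557, l9221, l2571, l8127] l9222 := rupP (by decide +kernel)
theorem r9223 : PImp [l2615, o5513, l9222, l9208, l7972] l9223 := rupP (by decide +kernel)
theorem r9224 : PImp [l7703, l3006, o4575, l3008, l425, l1217, l2557, l8636, l4084, o6478, l8569, l6038] l9224 := rupP (by decide +kernel)
theorem r9225 : PImp [l9218, l8929, l5297, l8933, l2845, l5308, l3935, l6153, l476, l4624, l2846, l2848, l7703, l3006, o4487, l3008, l425, l1218, l3829, l3832, l8935, l4664, l482, l4216, l4225, l2734, l4130, l1412, l4967, l1217, l4969, l4968, l4129, l5035, l4666, l6265, l5394, l3338, l3340, l3342, l9166, l3113, l4834, l6253, l8934, o5364, o4812, o5354, o5740, l3216, l2630, l2632, l8936, l4167, l3439, o3540, l3452, o8836, o5487, o5472, l4769, l9220, l2615, l9223, o5824, l9224, l5525, l7971, l4595] l9225 := rupP (by decide +kernel)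
theorem r9226 : PImp [l3111, l9162] l9226 := rupP (by decide +kernel)
theorem r9227 : PImp [l7703, l3006, o3197, l9168, o5366, o8547, o8577] l9227 := rupP (by decide +kernel)
theorem r9228 : PImp [l9225, l9218, l5297, l8929, l8933, l3935, l6153, l476, l4624, l2846, l2848, l7703, l3006, o4487, l5308, l3008, l425, l1218, l3829, l3832, l8935, l4664, o5167, l1242, o4476, l473, l3934, l4590, l6263, l4128, l5035, l3213, l2634, l9227, l3728, l3724] l9228 := rupP (by decide +kernel)
theorem r9229 : PImp [l8929, l5297, l8933, l3935, l476, l6153, l4624, l2848, l1412, l5308, l2845, l2846, l5035, l7703, l3008, l4129, l4127, l3006, l3029, l425, o4487, l1218, l3829, l3832, l8935, l4664, l482, o5167, l4225, l4216, l9218, l9225, l3929, l9228, l9226, l2995, l3000, o3540, l9163, l4149, o5380, o5193, l4141, l4769, l3127, o8506, o8464] l9229 := rupP (by decide +kernel)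
theorem r9230 : PImp [l2820, l4157, l5036, l3113, l3114, l3444, l3389, l3427, o4555, o5463, o5474, l755, l4214, l2273, o794, o8776, o8609, o3197, l4836] l9230 := rupP (by decide +kernel)
theorem r9231 : PImp [l3217, l3213, l5036, o4513, o4540, o5469, l3429, l4638, o8849, l4417, o3172] l9231 := rupP (by decide +kernel)
theorem r9232 : PImp [l8929, l5297, l8933, l3342, l3341, l3340, l3339, l3338, l3935, l6153, l476, l4624, l2846, l2848, l1412, o4494, l5308, l5951, l3008, l428, l1218, l3829, l3832, l8935, l4664, o5167, l1243, l2845, l482, l4225, l4623, l473, l3934, l4590, o4485, l3851, l9229, l4156, l4157, l4158, l5036, l4967, l4966, l432, l4666, l9230, l2635, l2637, l2638, l9231, o5365, o5362, l3421, l5345, o8416, o8563, l1669, l1641] l9232 := rupP (by decide +kernel)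
theorem r9233 : PImp [l3113, l3114, l5128, l4096, l4095, o8776, l6253, o5760, l2308, o8482, o8849, l2316] l9233 := rupP (by decide +kernel)
theorem r9234 : PImp [l5297, l8929, l8933, l3935, l6153, l476, l4624, l2846, l2848, l1412, o4494, l5308, l5951, l3008, l428, l1218, l3829, l3832, l8935, l4664, o5167, l1243, l2845, l482, l4225, l2734, o5332, l9229, l4156, l4157, l4158, l5036, l4967, l2628, l3338, l3339, l3340, l3341, l3342, l9232, l3000, o3540, o3542, l2847, o3543, l9233, l2637, l2638, l3433, l1641, o5362, o8560] l9234 := rupP (by decide +kernel)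
theorem r9235 : PImp [o8482, l667] l9235 := rupP (by decide +kernel)
theorem r9236 : PImp [l2821, l2820, l3929, l4156, l4157, l5036, l3113, l4620, l4621, l503, o5380, o5193, o5363, o5364, l4113, l2819, l35, l4214, l3129, l3127, o8481, o8527, l9235, o8377, l644, o8526, o1556, o1549] l9236 := rupP (by decide +kernel)
theorem r9237 : PImp [l3929, l5036, l9236, l3213, l2824, l4638, o4540] l9237 := rupP (by decide +kernel)
theorem r9238 : PImp [l5036, l3216, l4638, l5794, o4554, l4189] l9238 := rupP (by decide +kernel)
theorem r9239 : PImp [l3929, l430, l9163, l503, o5380, o5193, l4113, l9235, l404, l4108, l7651, l2724] l9239 := rupP (by decide +kernel)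
theorem r9240 : PImp [o4555, l3134, l3741] l9240 := rupP (by decide +kernel)
theorem r9241 : PImp [l3127, l4156, l5036, l432, l3113, l9239, l4214, l9240, o5364, l2725, o8481, o8527] l9241 := rupP (by decide +kernel)
theorem r9242 : PImp [l9241, l3213] l9242 := rupP (by decide +kernel)
theorem r9243 : PImp [l2846, l2845, l5297, l5308, l476, l8929, l8933, l3935, l6153, l4624, l4666, l2848, l1412, l9229, l5951, l3006, l428, l432, l4967, o4494, l3008, l4969, l1218, l1217, l3829, l3832, l8935, l4664, l482, o5167, l4225, l4216, l9234, l3929, l9237, l2994, l2995, l3000, o3541, o3540, l9238, l9242] l9243 := rupP (by decide +kernel)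
theorem r9244 : PImp [l3829, o4484, l3826, l1145] l9244 := rupP (by decide +kernel)
theorem r9245 : PImp [l3113, l9243, o3469, l2820, l7703, l2991, l2992, l5035, l3338, l6262, l8369, l2641, l9244, l4100, l3824, l8893, o4495, l3374, l2939, o4715, o5388] l9245 := rupP (by decide +kernel)
theorem r9246 : PImp [l3113, l476, l9243, o3469, l2821, l7703, l2991, l2992, l5035, l9245, l5374, l5344, l5343, l5644, l485, l5268, l3357, o4470, o4481, o5400, l4903, l4893, l8369, l2677, l3336, o8376, l3527, l34] l9246 := rupP (by decide +kernel)
theorem r9247 : PImp [l3338, l3849, o4690, l3852, l668, l1102, o5403, l8893, l3351] l9247 := rupP (by decide +kernel)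
theorem r9248 : PImp [l7703, l3008, l1149, l1150, l421, l3113, l3222, l5035, l3935, l3338, l9247, l4100, l8893, l8464, l3374, o4882] l9248 := rupP (by decide +kernel)
theorem r9249 : PImp [l9243, o3469, l2821, l2820, l7703, l2989, l2990, l2992, l3008, l9246, l1218, l428, l1412, l9248, l5374, l5344, l4887, l5644, l4893, l5268, l2677, o4389, l2676, l1242] l9249 := rupP (by decide +kernel)
theorem r9250 : PImp [l9249, l2635, l9243, o3470, l2820, l7703, l2991, l3342, l6262, l9244, l4129, l2641, l5623, l3368, l5636, o5487, l3376, o8704] l9250 := rupP (by decide +kernel)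
theorem r9251 : PImp [o8748, o8444] l9251 := rupP (by decide +kernel)
theorem r9252 : PImp [l5035, l6254, o4322, l4885, l4883, l2916, l4870] l9252 := rupP (by decide +kernel)
theorem r9253 : PImp [l1242, l1138, l2660, l2661, l2662, o8739, o8429, l9251, l642, o8737] l9253 := rupP (by decide +kernel)
theorem r9254 : PImp [l1412, l4087, l3217, l3213, l6254, l9252, o4335, l4885, o4250, o4879, l4883, l3408] l9254 := rupP (by decide +kernel)
theorem r9255 : PImp [l9249, l2638, l2637, l2635, l9243, o3470, o3467, o3468, l2820, l7703, l2991, l2992, l5374, l5344, l5348, l5343, l5644, l5268, o4470, o4481, l4902, l4893, l4890, l2677, l4967, l5643, l2676, l4208, l5269, l9254, l2662, l9253, l9251, o759] l9255 := rupP (by decide +kernel)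
theorem r9256 : PImp [l9243, o3470, o3471, o3468, l7703, l4129, l4128, l2641, o8704, o8400, l2262, o5768, o5767, o8397, l38, l5323] l9256 := rupP (by decide +kernel)
theorem r9257 : PImp [l7703, l3008, l1149, l421, l3935, l3222, l9243, l2989, l3849, o4690, o4691, l3852, o4694, l5622, l4221, l9256, l5039, l4245, l4238] l9257 := rupP (by decide +kernel)
theorem r9258 : PImp [l9243, o3470, o3469, o3467, o3468, l2821, l7703, l3008, l5035, l9249, l2634, l2636, l2635, l2637, l2638, l9255, l3338, l3339, l3340, l3341, l3342, l9250, l1218, l1210, l428, l425, l3006, l5370, l3352, l9257, l4135, l4136, l4428, l4100, l5375, o8397, o8701, o8703, l2266, o5739] l9258 := rupP (by decide +kernel)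
theorem r9259 : PImp [l3935, l476, l9243, l2641, l4802] l9259 := rupP (by decide +kernel)
theorem r9260 : PImp [l476, l9243, l3935, l9259, l2694, l4254] l9260 := rupP (by decide +kernel)
theorem r9261 : PImp [l2821, l3357, o5400, o5196, l3444, l8369, l4163, o8398] l9261 := rupP (by decide +kernel)
theorem r9262 : PImp [l2662, l9253, l9251, o759] l9262 := rupP (by decide +kernel)
theorem r9263 : PImp [l9243, o3470, o3469, o3467, o3468, l2821, l7703, l2991, l3008, l5035, l476, l9258, l9260, l5374, l5344, l5348, l5343, l5644, l485, l5268, o4470, l4904, l4901, l2677, l4967, l2676, l4208, l5269, l1242, l3529, o4389, l3336, l4802, l1218, l9261, l2635, l2637, l2638, l9262, l3394, l671, l5373, o5404, l3352] l9263 := rupP (by decide +kernel)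
theorem r9264 : PImp [l7703, l9263, l5377, l9243, l2991, l5303, l3829, l3826, l1145, l1209, l3833, l3338, l3935, o3469, l2820, l2992, l3113, l8369, l1102, l8893, l5178, l3374, o4293, o5388, l5289, l4633, o5159, o5166] l9264 := rupP (by decide +kernel)
theorem r9265 : PImp [l9243, l7703, l2992, l4129, l4127, l4208, l671, o8706, o4971, o5771, o4843, o5741, o5744, l3816, o8702, o8721, o759] l9265 := rupP (by decide +kernel)
theorem r9266 : PImp [l9263, l5377, l5303, l3342, l3341, l3340, l3335, l5587, l480, l481, l9243, o3470, o3472, o3467, o3468, l2821, l7703, l2991, l5035, l3829, l3826, l1145, l1209, l9264, l2633, l2637, l2638, l3352, l3347, l9265, l5039, l2698, l5952, l390, l4242, l4225] l9266 := rupP (by decide +kernel)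
theorem r9267 : PImp [l9263, l5377, l5303, l481, l9243, l7703, l2991, l3008, l9266, l1218, l1149, o4701, l3826] l9267 := rupP (by decide +kernel)
theorem r9268 : PImp [l3935, l4246, l4242] l9268 := rupP (by decide +kernel)
theorem r9269 : PImp [l4132, l4130, o8702, o8606, l1779, l8893, o2350, o2354] l9269 := rupP (by decide +kernel)
theorem r9270 : PImp [l3935, l4246, l9268, l390, l4225] l9270 := rupP (by decide +kernel)
theorem r9271 : PImp [l5377, l5303, l3935, l5587, l480, l481, l9243, l7703, l2990, l2992, l4129, l2735, o5327, l2546, o5329, l4802, l671, o5744, l9269, l9270, l3839, l3813, o4480, o4771, o4766, l1145, l5576] l9271 := rupP (by decide +kernel)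
theorem r9272 : PImp [l9243, l7703, l2992, o3468, o3469, o3470, l9263, l481, l480, l5377, l5303, l3935, l3338, l3341, l3342, l9267, l9271, l5039, l2698, l5289, l4256, l3813, o5327, o5329, l9270] l9272 := rupP (by decide +kernel)
theorem r9273 : PImp [l4128, l4127, l3339, l3338, l3335, l5035, l3370, l3378, l4838, o4828, o4836, o4838, o8466, l668, o8465, o3569, o3497, l2840] l9273 := rupP (by decide +kernel)
theorem r9274 : PImp [o4830, o8834, l3763, l4864] l9274 := rupP (by decide +kernel)
theorem r9275 : PImp [l7703, l3008, l1218, l428, l5269, l1210, l9272, l328, l9243, o5407, o5101, o5513, l8653, l7458, l8366, l8462, o2924, o6651] l9275 := rupP (by decide +kernel)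
theorem r9276 : PImp [o5824, l2556, l8906, l8384, l4598, l7757] l9276 := rupP (by decide +kernel)
theorem r9277 : PImp [l3927, l7703, l425, l3006, l428, l5269, l1412, l2615, l8571, l2556, l8572, o5824, o4571, l8636, o6363, l2561, l3003] l9277 := rupP (by decide +kernel)
theorem r9278 : PImp [l5513, l5515] l9278 := rupP (by decide +kernel)
theorem r9279 : PImp [l7703, l3008, l1218, l425, l3007, l428, l5269, l1149, l2603, l8462, l2713, l9278, o5824, o4571, l8380, l4611, o6768, l7491] l9279 := rupP (by decide +kernel)
theorem r9280 : PImp [l9222, l6707, l2571, l5660, o8999, o3582] l9280 := rupP (by decide +kernel)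
theorem r9281 : PImp [l3442, l7703, l2996, l3763, o4524, l2994, l3797, o4510, l3927, l3008, l1218, l425, l3006, l428, l5269, l1412, l1149, l9279, l2615, l7917, l2556, l9280, o5824, o4571, l8636, o6363, l2561, l3003] l9281 := rupP (by decide +kernel)
theorem r9282 : PImp [o5101, l6707, o6769, o6629] l9282 := rupP (by decide +kernel)
theorem r9283 : PImp [l3927, l7703, l2994, l3797, o4510, l3442, l2993, l3008, l1218, o4858, o9027, l9279, l2615, l2996, l3763, o4524, l425, l3006, l428, l1412, l1149, l1210, l9281, l7917, l2556, l9282, o5824, o4571, l8636, o6363, l2561, l3003] l9283 := rupP (by decide +kernel)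
theorem r9284 : PImp [l9283, l3423] l9284 := rupP (by decide +kernel)
theorem r9285 : PImp [o5824, l7703, l3008, l1218, l1149, l2556, l8384, l4084, l4598, l7757] l9285 := rupP (by decide +kernel)
theorem r9286 : PImp [l7703, l9272, l2994, l3797, o4510, l3927, l9243, l2641, l2640, l3008, l1218, l9277, l2712, l2603, l9275, o5824, o4571, l9285, l2713, l8380, l4611, o6768, l7491] l9286 := rupP (by decide +kernel)
theorem r9287 : PImp [l1243, l1242, l4228, l9065, l7426, o3990, o4000, o3992, l6127, l4056, l6157, o2449] l9287 := rupP (by decide +kernel)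
theorem r9288 : PImp [l1243, l1412, l7840, l5269, l3817, l9287, l9034, l7117, l7838] l9288 := rupP (by decide +kernel)
theorem r9289 : PImp [l4763, l1243, l1242, l428, l1412, l7840, l425, l3006, l5034, l8113, l8707, o2449] l9289 := rupP (by decide +kernel)
theorem r9290 : PImp [l4228, l4230, l9065, l7426, o2652, o4119, o4000, o4182, l3996, l1073, o2528, o6047, l3258, l5678, l4027] l9290 := rupP (by decide +kernel)
theorem r9291 : PImp [l1243, l1242, l3817, l3819, l9290, l9034, l7117, l7838] l9291 := rupP (by decide +kernel)
theorem r9292 : PImp [o2488, o2442, l8468] l9292 := rupP (by decide +kernel)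
theorem r9293 : PImp [l1243, l1242, l5034, l9292, l3075, o2463, o2449, l8686, l8685, l8707] l9293 := rupP (by decide +kernel)
theorem r9294 : PImp [l9034, l7117, l7838] l9294 := rupP (by decide +kernel)
theorem r9295 : PImp [o2488, o2569, l8710, l6625, l3100, o5098, l8132, o5992] l9295 := rupP (by decide +kernel)
theorem r9296 : PImp [l1243, l3008, l1150, l9289, l8043, l7788, l3303, l9156, l4548] l9296 := rupP (by decide +kernel)
theorem r9297 : PImp [l3008, l1218, o4239, l2771, l1243, l428, l1412, l7840, l425, l3007, l3006, l5269, l1149, l328, l9296, l9294, l9288, l9293] l9297 := rupP (by decide +kernel)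
theorem r9298 : PImp [l1243, l1242, l428, l1412, l7840, l425, l3006, l3008, l1150, l9289, l8043, l3303, l6157, o2449, l4550, l4548] l9298 := rupP (by decide +kernel)
theorem r9299 : PImp [l1210, o5101, l3008, l1218, l2771, o4239, l9298, o876, l1243, l1242, l428, l1412, l7840, l425, l3007, l3006, l5269, l1149, l328, l2618, o6749, l2616, o6455, l9297, l9294, l9291, l5034, l9295, l3075, o2463, o2449, l8686, l8685, l8707] l9299 := rupP (by decide +kernel)
theorem r9300 : PImp [l7703, l3008, l1218, l428, l5269, l1210, o5101, l8216, l9299, l2571, o6769, o8999, l5528, l2707] l9300 := rupP (by decide +kernel)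
theorem r9301 : PImp [l1242, l7703, l9272, l2996, l3763, l2994, l3797, l3927, l9243, l2641, l3008, l1218, l425, l3006, l428, l1412, l1149, l473, l2993, l2992, o4510, o4524, l9286, o4858, l3423, l3442, l9284, o6537, o9027, l9279, l2615, l7917, l2556, l9300, o5824, o4571, l8636, o6363, l2561, l3003] l9301 := rupP (by decide +kernel)
theorem r9302 : PImp [l9243, o5407, o5101, o5513, l9278, l7458, l8366, l8459, o2924, o6651] l9302 := rupP (by decide +kernel)
theorem r9303 : PImp [l2556, l8906, l8384, o9011, l4598, l2707] l9303 := rupP (by decide +kernel)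
theorem r9304 : PImp [l5274, l5268, l9243, l2641, l2640, l7703, l3008, l1218, l425, l3007, l3006, l428, l5269, l1412, l1149, l1210, l9272, l328, l5035, l2712, l2603, l9302, o5823, l9303, l2713, l8380, l4084, l4611, l5534, o9166] l9304 := rupP (by decide +kernel)
theorem r9305 : PImp [l2556, l8572] l9305 := rupP (by decide +kernel)
theorem r9306 : PImp [l428, l5269, l1412, l7703, l3008, l1150, l9305, l2713, l6261, l2539, l4084, l8564] l9306 := rupP (by decide +kernel)
theorem r9307 : PImp [l5274, l7703, l3008, l1218, o4887, l1243, l1242, l9243, l2641, l425, l3006, l428, l1412, l9272, l9304, l2615, l9306, o5823, l8144, l2556, l8636, l4084, l2561, o8907, l2544] l9307 := rupP (by decide +kernel)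
theorem r9308 : PImp [l7703, l3008, l1218, l425, l3007, l3006, l428, l5269, l1412, l1149, l5035, l2603, l8462, l2713, l9278, o5827, l8380, l4084, l4611, l5534, o9166] l9308 := rupP (by decide +kernel)
theorem r9309 : PImp [l1243, l1242, l3817, l9294, l4228, l9065, l7426, o3990, o4000, o3992, l6127, l3308, l4056, l1073, o2444] l9309 := rupP (by decide +kernel)
theorem r9310 : PImp [l4763, l428, l1412, l7840, l425, l3006, l5034, l8113, l8873, o2449, l5027, l5022, o3896] l9310 := rupP (by decide +kernel)
theorem r9311 : PImp [l1243, l3008, l1218, l428, l1412, l7840, l425, l3007, l5269, l1149, l1150, l1268, l9309, l9310, l8043, l3303, l9156, l7118, l4548] l9311 := rupP (by decide +kernel)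
theorem r9312 : PImp [l3008, l1218, l425, l3007, l3006, l1149, l428, l9311, l9298, l9288] l9312 := rupP (by decide +kernel)
theorem r9313 : PImp [o2525, o2442, l8883, l7426, l6958, o3990] l9313 := rupP (by decide +kernel)
theorem r9314 : PImp [l1243, l1242, l3817, l9294, l4228, l9313, l3075, l8686, l4029, l4037] l9314 := rupP (by decide +kernel)
theorem r9315 : PImp [l8899, l8043, l9156] l9315 := rupP (by decide +kernel)
theorem r9316 : PImp [l1243, l3008, l1218, l428, l1412, l7840, l425, l3007, l3006, l5269, l1149, l1150, l421, l9312, l9314, l9315, l9296, l9310] l9316 := rupP (by decide +kernel)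
theorem r9317 : PImp [l4550, l4548] l9317 := rupP (by decide +kernel)
theorem r9318 : PImp [l1243, l428, l1412, l7840, l3008, l1150, l9298, l9310, l8043, l3303, l9317, l9202, l3075, l4549, l4533, l2779] l9318 := rupP (by decide +kernel)
theorem r9319 : PImp [l8686, l4029, l4037] l9319 := rupP (by decide +kernel)
theorem r9320 : PImp [l1243, l1242, l3008, l1218, l428, l1412, l7840, l425, l3007, l5269, l1149, l9316, l9318, l3817, l9294, l4228, l9319, o2532, l3075, o2453, l7426, l8883, o4000, l3303, l4027] l9320 := rupP (by decide +kernel)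
theorem r9321 : PImp [l4228, l9319, o2532, l3075, l7426, o3990, o4000, l4056, l3303, l4055, l4027] l9321 := rupP (by decide +kernel)
theorem r9322 : PImp [l1243, l1242, l3817, l9321, l9035, l7117, l7838] l9322 := rupP (by decide +kernel)
theorem r9323 : PImp [l428, l1412, l7840, l425, l3006, l8113, l9310, l8873, l3075, l5027, l8747, l5017, o3907] l9323 := rupP (by decide +kernel)
theorem r9324 : PImp [l1210, o5101, l1243, l3008, l1218, l428, l1412, l7840, l425, l3007, l3006, l5269, l1149, l1150, l328, l6707, l2618, l2616, o6749, o6455, l9320, l9322, l4007, l9323, l8043, l3303, l3304, l9317, l9202, l3075, o2472, l4549, l4533, o4091, l2789, l2781, o5897, l4529, l3096, l4981] l9324 := rupP (by decide +kernel)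
theorem r9325 : PImp [l7703, l3008, l1218, l428, l5269, l1210, o5101, l8216, l9324, l2571, o6769, o8999, l5528, l2707] l9325 := rupP (by decide +kernel)
theorem r9326 : PImp [l7703, l3008, l1218, o4887, l3927, l9243, l2992, l3811, l2641, l425, l3006, l428, l1412, l1149, l9272, l2989, o4773, o4775, l9301, l5268, l5274, l9307, l498, l3423, l3442, o5188, o5187, l9308, l2615, l7917, l2556, l9325, o5827, l8636, l4084, l2561, o8907, l2544] l9326 := rupP (by decide +kernel)
theorem r9327 : PImp [l1243, l1242, l7703, l3008, l1218, l428, l1412, l7840, l9243, l2641, l2640, l5622, l4219, l4221, l425, l3007, l5269, l1149, l421, l9272, l2989, o4452, o4456, l2771, o4239, l9286, l3423, l3442, l9284, l9318, l3817, l3770, l9321, l4184, l6566, l7117, o4076, o4198, o3907, l3308, o1738, l4003, l4072, o9148, o5991, l9098] l9327 := rupP (by decide +kernel)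
theorem r9328 : PImp [o5827, l8636, l4084, l2561, o8907, l2544] l9328 := rupP (by decide +kernel)
theorem r9329 : PImp [l4228, l9319, o2532, l3075, l7426, o4002, o3991, l4056, l3303, l4055, l4027] l9329 := rupP (by decide +kernel)
theorem r9330 : PImp [l1243, l1242, l3817, l9329, l6566, l7117, l5827, l2790] l9330 := rupP (by decide +kernel)
theorem r9331 : PImp [l428, l1412, l7840, l3008, l1150, l9323, l8043, l3303, l9317, l9202, l3075, l4549, l4533, o3906] l9331 := rupP (by decide +kernel)
theorem r9332 : PImp [l6707, l2618, l2616, o6749, l9330, o6455] l9332 := rupP (by decide +kernel)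
theorem r9333 : PImp [l2571, o6769, o8999, l5528, l2707] l9333 := rupP (by decide +kernel)
theorem r9334 : PImp [l7703, l1210, o5101, l3008, l1218, l428, l5269, l8216, l9333, l1243, l1412, l7840, l425, l3007, l1149, l9325, o4285, o4290, l9332, l9331] l9334 := rupP (by decide +kernel)
theorem r9335 : PImp [l1243, l7703, l3008, l9243, l2991, l9244, l1218, l1149, l3826, o4701, l5622, l4221, l1210, o4710, l9272, l3000, l428, l1412, l2989, l3222, l3849, l3830, l3113, l3111, l3114, l9273, l2990, l404, l9248, l2809, l4238, l3340, l2628, o2343, o3556, l425, l3006, l2994, l3142, l3797, o4794, o8543, l4167, l3927, l2992, l3811, l7840, l3129, l4208, l2641, l2640, l4219, o3464, l3007, l5269, o4863, o4887, l9326, l2325, o8604, l2331, l9327, l9307, l498, l3423, l3442, o5188, o5187, l9308, l2615, l7917, l2556, l9328, o5101, l8216, l9333, l9334, o4287, o4292, l9332, l9331] l9335 := rupP (by decide +kernel)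
theorem r9336 : PImp [l1242, l3817, l9321, l7117, l3304, l9322, l4004, l319, o2505, l3982, l4690, l4015] l9336 := rupP (by decide +kernel)
theorem r9337 : PImp [l1242, l3817, l9321, l7117, l1243, o3924, l9336, l8894, l8870] l9337 := rupP (by decide +kernel)
theorem r9338 : PImp [l1218, l428, l5269, l1149, l1412, l7840, l1242, l3817, l9321, l7117, l3308, l9322, l4004, l4069, o2489] l9338 := rupP (by decide +kernel)
theorem r9339 : PImp [l1243, l1242, l1218, l428, l1412, l7840, l5269, l1149, l421, l3817, l9321, l6566, l7117, o4094, o4090, o4076, l3308, l9337, l2786, l9338, l8870, l4073] l9339 := rupP (by decide +kernel)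
theorem r9340 : PImp [l1243, l428, l1412, l7840, l425, l3006, l3008, l1150, l4763, l9318, l9323, l9331, l8043, l3303, l3304, l9317, l9202, o2449, l4549, o4072, l2789, o3897, o5897, l6130, l3095, l4993] l9340 := rupP (by decide +kernel)
theorem r9341 : PImp [l3008, l1218, l428, l5269, l7117, l3308, l421, l1243, l425, l3007, l6566, o4076, o4080, o4085, l1412, l328, l9339, o4285, o4762, l1691, l2786, l8788, l4069, l8827] l9341 := rupP (by decide +kernel)
theorem r9342 : PImp [l3308, o2488, l4073, l4004] l9342 := rupP (by decide +kernel)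
theorem r9343 : PImp [l9243, l7703, l2992, l3811, l3008, l2991, l9244, l1218, l428, l1412, l7840, l3129, l1149, l3826, o4701, l5622, l4221, l1210, o4710, l9272, l3000, l2989, l3222, l3849, l3830, l3113, l3111, l3114, l9273, l2990, l404, l9248, l2809, l4238, l4209, l2806, o3788, l2641, l2640, l4219, l425, l3007, l5269, l421, l2627, l328, l5035, l1242, l1243, l9335, l500, l3351, l3357, l4775, l4771, l9340, l3817, l9329, l6566, l7117, o4076, l3308, l9341, o4165, o4004, l9342, l8827, l4069] l9343 := rupP (by decide +kernel)
theorem r9344 : PImp [l4525, o3924, l4037, l5008, l4010] l9344 := rupP (by decide +kernel)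
theorem r9345 : PImp [o2525, l7426, o3990, o4000, l4056, l4055, l3303, l4027, l4037] l9345 := rupP (by decide +kernel)
theorem r9346 : PImp [l4054, l4068] l9346 := rupP (by decide +kernel)
theorem r9347 : PImp [l4228, l9321, l9345, l9346, o3989, l7426, l9058] l9347 := rupP (by decide +kernel)
theorem r9348 : PImp [l3308, o2488, l4075, l4005, l9342] l9348 := rupP (by decide +kernel)
theorem r9349 : PImp [l3008, l1218, o4389, l5268, l1138, l428, l1412, l7840, l425, l3007, l5269, l1149, l9243, l2989, l328, l9347, o26, l7117, l3304, l3308, o1724, l9348, l3075, l4039, l4038, l4069, o3989, o6259, o6125] l9349 := rupP (by decide +kernel)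
theorem r9350 : PImp [o2525, l7426, o3990, o4001, l4056, l3303, l4037, l4027] l9350 := rupP (by decide +kernel)
theorem r9351 : PImp [l4228, l9329, l9350, l9346, o3990, l7426, l9058] l9351 := rupP (by decide +kernel)
theorem r9352 : PImp [l3008, l1218, o4389, l5268, l1138, l9243, l2992, l3811, l428, l1412, l7840, l425, l3007, l5269, l1149, l2989, l328, l3817, l9349, o4285, o4762, l1691, l9351, l7117, l3304, l3308, l9348, l3075, l4039, l4038, l2786, l4069] l9352 := rupP (by decide +kernel)
theorem r9353 : PImp [l4007, l3006, l328, l3090, o2488, l9317, l3303, l8115, l6031, o4091, o4078, o4065, l4691, l4989, l4708] l9353 := rupP (by decide +kernel)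
theorem r9354 : PImp [o4389, l5274, l1137, l428, l1412, l7840, l425, l3006, l3008, l1150, l421, l4763, l9323, l9353, l3075, o2449, l5672, l3303, l3304, l4533, l4535, l4549, o4072, o3906, o3897, o3891, l6130, o5897, l4993, l3095] l9354 := rupP (by decide +kernel)
theorem r9355 : PImp [o2525, l7426, o4002, o3991, l4056, l4055, l3303, l4037, l4027] l9355 := rupP (by decide +kernel)
theorem r9356 : PImp [l4228, l9329, l9355, l9346, o3991, l7426, l9058] l9356 := rupP (by decide +kernel)
theorem r9357 : PImp [l9243, l2992, l3811, l3008, l1218, l428, l1412, l7840, l425, l3007, l5269, l1149, l2989, l328, l1138, o4389, l5268, l9354, l3817, l9352, o4287, l9356, l7117, l3304, l3308, l9348, l3075, l4039, l4038, l2786, l4069] l9357 := rupP (by decide +kernel)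
theorem r9358 : PImp [l7703, l425, l3006, l2994, l4882, o4861, o4862, l3430, l3452] l9358 := rupP (by decide +kernel)
theorem r9359 : PImp [l9272, l7703, l3008, l9243, l2991, l9244, l1218, l3129, l3142, l9358, l1149, l3826, o4701, l5622, l4221, l1210, o4710, l3000, l428, l1412, l2989, l3222, l3849, l3830, l3113, l3111, l3114, l9273, l2990, l404, l9248, l2809, l4238, l4209, l2806, o3788, l2641, l2640, l4219, l2627, l9357, l9343] l9359 := rupP (by decide +kernel)
theorem r9360 : PImp [l5268, l9272, l7703, l3008, l1218, l9358, l3927, l9243, l2640, l425, l3007, l2989, l328, l9339, l4771, l3442, l500, l9307] l9360 := rupP (by decide +kernel)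
theorem r9361 : PImp [o2442, l8883, l3303, l4059, l8702, l4037, o3906] l9361 := rupP (by decide +kernel)
theorem r9362 : PImp [l4058, l4064] l9362 := rupP (by decide +kernel)
theorem r9363 : PImp [l9361, l3075, l9319, l9362, o3906, l4026, l4037] l9363 := rupP (by decide +kernel)
theorem r9364 : PImp [l1243, l1242, l5268, l7703, l3008, l1218, l428, l1412, l7840, l9243, l2641, l2640, l425, l3007, l5269, l1149, l421, l328, l3817, l9360, l9363, o26, l7117, l6566, l3308, o1724, l9348, o4076, l8827, l8870, l4069, l4004, o3989, l3038, o6125] l9364 := rupP (by decide +kernel)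
theorem r9365 : PImp [l4763, l3008, l1218, l425, l3006, l1149, l1150, l421, l328, l3089, o2488, o2442, l9317, l3303, l4753, l5672, l4732, o3888, o3896, o4080, o4076, o6213, l6155, l4742, l4743] l9365 := rupP (by decide +kernel)
theorem r9366 : PImp [l5274, l5268, l7703, l3008, l1218, l428, l1412, l7840, l9243, l2641, l1150, l1243, l9364, l9323, l9331, l9365, l3075, l5672, l4533, l4535] l9366 := rupP (by decide +kernel)
theorem r9367 : PImp [l9361, l9363, l3075, o2472, l9344, l4029, l4030] l9367 := rupP (by decide +kernel)
theorem r9368 : PImp [l7703, l3008, l9243, l2991, l9244, l1218, l1149, l3826, o4701, l5622, l4221, l1210, o4710, l9272, l3000, l428, l1412, l2989, l3222, l3849, l3830, l3113, l3111, l3114, l9273, l2990, l404, l9248, l2809, l4238, l3340, l2628, o2343, o3556, l425, l3006, l2994, l3142, l3129, l9358, l3797, o4794, o8543, l4167, l7840, l2641, l2640, l4219, l3007, l5269, l2992, l328, l9359, l3816, l3808, o4481, o4778, o4301, l2757, l5268, o4767, o4770, l9366, l1138, l9354, l3817, l9349, l9367, o26, l7117, l3304, l3308, o1724, l9348, l3075, l4039,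 l4038, l4069, o3989, o6125, o6259] l9368 := rupP (by decide +kernel)
theorem r9369 : PImp [l3008, l1218, l428, l1412, l7840, l1150, l421, l425, l9353, l9365] l9369 := rupP (by decide +kernel)
theorem r9370 : PImp [l5274, l5268, l9243, l7703, l2992, l3813, l3808, l3816, l3008, l1218, l428, l1412, l7840, l2641, l1150, l1243, l9364, l4763, l9323, l9369, l3075, o2449, l5672, l3303, l5051, l5061, o3896] l9370 := rupP (by decide +kernel)
theorem r9371 : PImp [l1138, l3008, l1218, l428, l1412, l7840, l425, l3007, l5269, l1149, l328, l3817, l9349, l9367, o26, l7117, l3304, l3308, o1724, l9348, l3075, l4039, l4038, l4069, o3989, o6125, o6259] l9371 := rupP (by decide +kernel)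
theorem r9372 : PImp [l2628, o2343, l3142, l3129, l7703, l3008, l9243, l2991, l9244, l1218, l1149, l3826, o4701, l5622, l4221, l1210, o4710, l9272, l3000, l428, l1412, l2989, l3222, l3849, l3830, l3113, l3111, l3114, l9273, l2990, l404, l9248, l2809, l4238, l4209, l2806, o3788, l2641, l2640, o3556, l4219, l425, l3006, l1150, l421, l3340, l2627, l2994, l2992, l7840, l8185, l9358, l3797, o4794, o8543, l4167, l9368, l3813, o8415, l3816, l3808, o4481, o4778, o4301, l2757, o4765, l5268, l5274, o4767, l9370, l1137, l9371, l4763, l9323, l9353, l3075, o2449, l5672, l3303, l5051, l5061, o3896] l9372 := rupP (by decide +kernel)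
theorem r9373 : PImp [l4068, l2789, l3308, o5915] l9373 := rupP (by decide +kernel)
theorem r9374 : PImp [o3990, l9362, l7426, l9058] l9374 := rupP (by decide +kernel)
theorem r9375 : PImp [l5034, l4525, l4228, l4229, l9355, l9374, o4083, o4078, l4068, l3308, l3269, l3974, l3048, l3049, l4984, l7426, o6308, o3988, o3996, o5915, l4045, l713] l9375 := rupP (by decide +kernel)
theorem r9376 : PImp [l1242, l7703, l9272, l3000, l5035, l4838, l3008, l1218, l2994, l5268, l3384, l5643, o4860, l6257, l4189, l9286, o5187] l9376 := rupP (by decide +kernel)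
theorem r9377 : PImp [o3991, l9362, l7426, l9058] l9377 := rupP (by decide +kernel)
theorem r9378 : PImp [l4228, l9375, l9355, o4287, o4292, l9377, l9373, o3906, l5267, l4026, l4037] l9378 := rupP (by decide +kernel)
theorem r9379 : PImp [o2488, l9348, l3070] l9379 := rupP (by decide +kernel)
theorem r9380 : PImp [l2989, l3222, l3008, l1218, l1149, l3849, l425, l3007, l3006, l428, l5269, l421, l328, l3817, l3818, l9378, l6566, o4076, l9379, l8866, l3308, l8870, l8827, l4004, l4069, l3094, o3907, o3890, o6115] l9380 := rupP (by decide +kernel)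
theorem r9381 : PImp [l5034, l4763, o3991, l7426, o6208, o6274, o1724, l5030, l4998, l4704, o4105] l9381 := rupP (by decide +kernel)
theorem r9382 : PImp [l4525, l4763, l3008, l1218, l425, l3006, l428, l1412, l9243, l2989, l3089, l3090, o2525, l9381, o4083, l4759, l4984] l9382 := rupP (by decide +kernel)
theorem r9383 : PImp [l5035, l4116, l4525, l5034, l3952, l4763, l9272, l9243, l7703, l2991, l2987, l7426, l3048, o2522, o6106, l9058, o2681, o2526, o1724, o1735, l3442, o6147, o6131, l491, o4135, l684, l4699, l5022] l9383 := rupP (by decide +kernel)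
theorem r9384 : PImp [l8873, l4760] l9384 := rupP (by decide +kernel)
theorem r9385 : PImp [l5034, l4763, l7703, l3008, l1218, l425, l3006, l428, o3991, l9383, l9384, l3308, l3268, o6144, o2652, l5002, o4062, o6131, l3095, l713, l4993, l5022, o4075] l9385 := rupP (by decide +kernel)
theorem r9386 : PImp [l4007, l4763, l7703, l3008, l1218, l428, l1412, l421, l4525, l4228, l9382, l9385, o4083, o4065, l5027, l4699, l3303, l8873, l5274, o4239, o3958, l8690, l1245, l4735, o2479] l9386 := rupP (by decide +kernel)
theorem r9387 : PImp [l4763, l328, l3090, o2488, l9317, l3303, l8115, l8474, l4753, o4240, o3896, l5274, l5053, l4743, l5056] l9387 := rupP (by decide +kernel)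
theorem r9388 : PImp [l4756, l4549, l3308, l1074, l5267, l5672, l4533, l4535] l9388 := rupP (by decide +kernel)
theorem r9389 : PImp [l4763, l3303, l5672, l3075, l5265, l4087, l5841, l5178, l4743, l5056] l9389 := rupP (by decide +kernel)
theorem r9390 : PImp [l518, o6062] l9390 := rupP (by decide +kernel)
theorem r9391 : PImp [l5672, l3075, l5267, l5054, l4087, o5897, l2790] l9391 := rupP (by decide +kernel)
theorem r9392 : PImp [l4087, l2779, l3075, l4533] l9392 := rupP (by decide +kernel)
theorem r9393 : PImp [l7703, l3008, l9243, l2991, l9244, l1218, l1149, l3826, o4701, l5622, l4221, l1210, o4710, l9272, l3000, l428, l1412, l2989, l3222, l3849, l3830, l3113, l3111, l3114, l9273, l2990, l404, l9248, l2809, l4238, l3340, l2628, o2343, o3556, l425, l3006, l5035, l9372, l4838, o4840, o8543, l4167, l2992, l3813, l3811, l2627, o2357, l3142, l3129, l2807, l2641, l2640, l4219, l1150, l421, l1242, l1243, l9376, l9380, l4763, l9386, l9387, l9388, o4072, l9389, l3308, l9391, l9392, l2789, o5897, l3095, l5267, l713, l4993, l4533, l4542, o3866, o3872] l9393 := rupP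 (by decide +kernel)
theorem r9394 : PImp [l4228, l9355, l9378, l9377, l9346] l9394 := rupP (by decide +kernel)
theorem r9395 : PImp [o2525, l9348, l9390, l3287] l9395 := rupP (by decide +kernel)
theorem r9396 : PImp [l3312, o4004, l3303, l8800, o1725, o6126, o8382] l9396 := rupP (by decide +kernel)
theorem r9397 : PImp [l4043, l4039] l9397 := rupP (by decide +kernel)
theorem r9398 : PImp [l3303, l4069, l9397, l8827, l4038, l3070, o2497] l9398 := rupP (by decide +kernel)
theorem r9399 : PImp [l9398, l3308, l3309, l8757] l9399 := rupP (by decide +kernel)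
theorem r9400 : PImp [l9243, l2992, l3811, l2989, l3222, l3008, l1218, l1149, l3849, l2991, l3826, l425, l3007, l3006, l428, l5269, l1412, l421, l328, l3817, l3818, l3820, l9394, o26, l4433, l9395, l9396, o4065, l9399] l9400 := rupP (by decide +kernel)
theorem r9401 : PImp [l9243, l7703, l2989, o2525, l3089, l5034, l4763, l3008, l1218, l425, l3006, l1210, o3991, l9383, o6208, o1724, o6274, l4998, l5030, o4073, l8083, l4748] l9401 := rupP (by decide +kernel)
theorem r9402 : PImp [l4525, l4763, l7703, l3008, l1218, l425, l3006, l428, l1412, l3090, l9401, o4083, l4759, l4984] l9402 := rupP (by decide +kernel)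
theorem r9403 : PImp [l4228, l9402, l9385, l8873, l5027] l9403 := rupP (by decide +kernel)
theorem r9404 : PImp [l4007, l3006, l328, l3090, o2488, l9317, l9387, l3303, l4755, o4091, o4078, o4065, l4691, l4989, l4708] l9404 := rupP (by decide +kernel)
theorem r9405 : PImp [l4007, l4763, l5672, o2507, l4984, l4691] l9405 := rupP (by decide +kernel)
theorem r9406 : PImp [l7703, l9272, l3000, l5035, l9372, l4838, l2627, o2357, l2628, o2343, l3008, l9243, l2991, l9244, l1218, l1149, l3826, o4701, l5622, l4221, l1210, o4710, l428, l1412, l2989, l3222, l3849, l3830, l3113, l3111, l3114, l9273, l2990, l404, l9248, l2809, l4238, l2807, l2641, l2640, o3556, l4219, l425, l3006, l1150, l421, l3340, l2992, l3811, l3813, o4840, o8543, l4167, l9393, l1137, o4389, l5268, l5274, l9400, l4763, l9403, l9404, l9388, l9389, o4091, o4083, o4072, l3308, l9405, l9392, l2789, o5897, l3095, l5267, l713, l4993, l4533, l4542, o3866, o3872] l9406 := rupP (by decide +kernel)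
theorem r9407 : PImp [l9355, l9361] l9407 := rupP (by decide +kernel)
theorem r9408 : PImp [l4228, l9374, l9375, l9346] l9408 := rupP (by decide +kernel)
theorem r9409 : PImp [l9367, l9363, l1138, l1242] l9409 := rupP (by decide +kernel)
theorem r9410 : PImp [l1412, l4087, l4228, l9407, l9408, l9409] l9410 := rupP (by decide +kernel)
theorem r9411 : PImp [l9243, l2989, l3222, l3008, l1218, l1149, l3849, l2991, l3826, l425, l3007, l3006, l428, l5269, l1412, l421, l328, l3817, l3818, l3820, l9410, o26, l4433, l9395, l9396, o4065, l9399] l9411 := rupP (by decide +kernel)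
theorem r9412 : PImp [l5034, l4763, o3896, o3890, o6192, l5799, l5030, l8083, l4748] l9412 := rupP (by decide +kernel)
theorem r9413 : PImp [l4525, l4763, l425, l3006, l428, l1412, l3090, o2442, l9412, o4083, l4759, l4984] l9413 := rupP (by decide +kernel)
theorem r9414 : PImp [l4763, l9413, l8873, o2449, l5027, l5051, o3896] l9414 := rupP (by decide +kernel)
theorem r9415 : PImp [l3006, l9387, l9404, l1243, l1137] l9415 := rupP (by decide +kernel)
theorem r9416 : PImp [l7703, l3008, l9243, l2991, l9244, l1218, l1149, l3826, o4701, l5622, l4221, l1210, o4710, l9272, l3000, l428, l1412, l2989, l3222, l3849, l3830, l3113, l3111, l3114, l9273, l2990, l404, l9248, l2809, l4238, l2641, l2640, l4219, l1150, l421, l425, l2992, l9372, l9406, l3816, l3808, o4481, o4778, o4301, l2757, l5268, l5274, o4770, l4087, l9411, l4763, l9414, l9415, l9389, l3075, o2449, l5672, l5051, l4535, o3896, l4533, l5061] l9416 := rupP (by decide +kernel)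
theorem r9417 : PImp [l7703, l2994, l3797, l3008, l1218, l2771, o4315, o4510, l428, l5269, l9277, l2603, l8462, l8654] l9417 := rupP (by decide +kernel)
theorem r9418 : PImp [l7703, l3008, l1218, l425, l3007, l428, l5269, l1412, l1149, l2603, l8462, l9278, l8383, o5827] l9418 := rupP (by decide +kernel)
theorem r9419 : PImp [l7703, l3008, l1218, o4389, l1243, l2994, l3797, o4509, o4510, l425, l3007, l3006, l428, l5269, l1412, l1149, l1150, l1210, l328, l9417, o5187, l9418, l2615, l7917, o876, l2556, l9328, o5101, l6259, l9280, o6749, o6455, l9295] l9419 := rupP (by decide +kernel)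
theorem r9420 : PImp [l7703, l3008, l1218, o4389, l1242, l9272, l2994, l3797, l2771, o4315, o4510, l9243, l2641, l2640, l425, l3007, l428, l5269, l1412, l1149, l1210, l328, l5035, l9277, l2712, l2603, l9302, l9276, l8654] l9420 := rupP (by decide +kernel)
theorem r9421 : PImp [l9243, l2641, l9272, l9420, l3423, l3442, l9419] l9421 := rupP (by decide +kernel)
theorem r9422 : PImp [l7703, l9272, l2994, l3797, l9243, l2641, l2640, l3008, l1218, l428, l1412, l1149, l5035, l2771, o4389, o4510, o4315, l1242, l9421, l5721, o5186, l9277, l2712, l2603, l9275, l9276, l8654] l9422 := rupP (by decide +kernel)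
theorem r9423 : PImp [l7703, l3008, l1218, l428, l5269, l2603, l8462, l8654] l9423 := rupP (by decide +kernel)
theorem r9424 : PImp [l7703, l3008, l1218, l425, l3006, l428, l1412, l503, l9423, l2615, l9306, l8571, o5823, l2556, l8636, l4084, l2561, o8907, l2544] l9424 := rupP (by decide +kernel)
theorem r9425 : PImp [o3436, o3438, l1698, l5668, l2306, l736, l2305, o2270, o7943] l9425 := rupP (by decide +kernel)
theorem r9426 : PImp [o5735, o5732, o5731, l8913, l56, l1279, l1105, l2313, o8163] l9426 := rupP (by decide +kernel)
theorem r9427 : PImp [l2448, l3570, l5680, l8453, l1510] l9427 := rupP (by decide +kernel)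
theorem r9428 : PImp [l3934, l2628, l2627, l9243, o3434, o3435, o3436, o3438, l9426, o5594, l9427, l7274, o8284, l2624, o2270, l2306, l3180, o7961, l3538] l9428 := rupP (by decide +kernel)
theorem r9429 : PImp [l2831, l8913, l3537, l4670, l3168] l9429 := rupP (by decide +kernel)
theorem r9430 : PImp [l9429, l8403, l1506, o8084] l9430 := rupP (by decide +kernel)
theorem r9431 : PImp [l3008, l1218, l425, l3007, l3006, l428, l1412, l1149, l1150, l3935, l2477, l4280, o695, l2269, l9428, l2983, o3427, l8391, o5595, o5594, o5592, l9430, o4746, l5740, l3605, l3892] l9431 := rupP (by decide +kernel)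
theorem r9432 : PImp [l7293, o8169, o7774] l9432 := rupP (by decide +kernel)
theorem r9433 : PImp [l736, l2305, o2270, o7943] l9433 := rupP (by decide +kernel)
theorem r9434 : PImp [l1243, l1242, l3008, l1218, l425, l3007, l428, l5269, l1412, l1149, l1150, l2627, l9243, l2556, l8906, l9303, l2571, o801, o5838, l4598, l2708, l9431, o694, o688, o714, l8441, l9432, o3427, o3754, o3756, o3757, l9425, l1698, l2306, l9433, o1452, o7981, o2258, o8394, o7894] l9434 := rupP (by decide +kernel)
theorem r9435 : PImp [o3582, l4606, o8906, l2571] l9435 := rupP (by decide +kernel)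
theorem r9436 : PImp [l4208, l2628, l9243, l7703, l3008, l2991, l9244, l1218, l1149, l3826, o4701, l5622, o3464, o8348, l4221, l1210, o4710, l9272, l3000, l428, l1412, l2989, l3222, l3849, l3830, l3113, l3111, l3114, l9273, l2990, l404, l9248, l2809, l4238, l4167, l2992, l3813, l3811, l9416, l4129, l2808, l3342, l2627, o2357, o8704, l3142, l3129, l4209, l2641, l2640, l4219, l425, l3007, l5269, l328, l5035, l2712, l2603, l9302, l9434, l2713, l8383, o5819, l9435, o2924, l2574, o6497] l9436 := rupP (by decide +kernel)
theorem r9437 : PImp [l2561, o3582, l2571, l8636, o8891] l9437 := rupP (by decide +kernel)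
theorem r9438 : PImp [l2556, l3099, l9437, o2924, l2576, l3066, l5797, o6455, l8132, o5896, o5992] l9438 := rupP (by decide +kernel)
theorem r9439 : PImp [o694, o714, l8441, l9432, o3754, o3756, l5668, l736, l2305, l9433, o2270, o8344] l9439 := rupP (by decide +kernel)
theorem r9440 : PImp [l8391, o3752, o3753, o3756, l9426] l9440 := rupP (by decide +kernel)
theorem r9441 : PImp [o1452, l7274, o8284, l2283, o5629, o7958] l9441 := rupP (by decide +kernel)
theorem r9442 : PImp [l3935, l3934, o3414, o3663, l9441, l3537, l9427, l4670, l3167] l9442 := rupP (by decide +kernel)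
theorem r9443 : PImp [o3464, l2325, l3935, l2477, l4280, l4260, o695, o690, l9440, o5595, o5594, o5592, o5591, l9442, o3438, o3020, l9430, o4746, l5740, l3605, l3892] l9443 := rupP (by decide +kernel)
theorem r9444 : PImp [l736, l2305, l9433, o2270, o8344] l9444 := rupP (by decide +kernel)
theorem r9445 : PImp [l9243, l2641, l2640, l7703, l3008, l1218, l425, l3007, l428, l5269, l1412, l1149, l1210, l9272, l328, l5035, l2712, l2603, l9302, l9276, l8654] l9445 := rupP (by decide +kernel)
theorem r9446 : PImp [l1243, l1242, l9243, l7703, l2992, l3813, l3811, l2641, l3008, l1218, l425, l3006, l428, l1412, l9272, l328, l3442, l4771, l501, l9445, l2615, o876, l9306, l8571, l9438] l9446 := rupP (by decide +kernel)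
theorem r9447 : PImp [o694, o688, o714, l8441, l9439, l9432, o3754, o3756, o3757, l1698, l9444, o1452, o7981, o2258, o8394, o7894] l9447 := rupP (by decide +kernel)
theorem r9448 : PImp [o5735, o5732, l8391, l8913, o3753, o1473, l1105, o8252, o8163] l9448 := rupP (by decide +kernel)
theorem r9449 : PImp [l3935, l3934, l2448, l3537, l3570, l3168, l3235, l1510, l8453] l9449 := rupP (by decide +kernel)
theorem r9450 : PImp [l9243, l2831, l9448, o5594, o5592, l9449, l7274, o8284, l2624, o2270, l2306, l3168, l3538, l3591, o7961, o3436] l9450 := rupP (by decide +kernel)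
theorem r9451 : PImp [l7703, l328, l2713, l8383, o5819, l9435, o2924, l2599, o6497] l9451 := rupP (by decide +kernel)
theorem r9452 : PImp [l2831, o3663, l9448, l9441, o5592, l9449] l9452 := rupP (by decide +kernel)
theorem r9453 : PImp [o1538, l9444, o3754, l5510, o7774] l9453 := rupP (by decide +kernel)
theorem r9454 : PImp [l1698, o3663, l9453, o1452, l5668, o7981, o2258, o8394, o7894] l9454 := rupP (by decide +kernel)
theorem r9455 : PImp [l1071, o7766] l9455 := rupP (by decide +kernel)
theorem r9456 : PImp [l2712, l1243, l1242, l1210, l9243, l2991, l3008, l1218, l1149, l3826, o4710, l4238, l4167, l2992, l3813, l3811, l4209, l4208, l3830, l425, l3007, l428, l5269, l1412, l1150, l2627, l2556, l8906, l9303, l2571, o801, o5838, l4598, l9431, l2708, l4204, o694, o688, o714, l8441, o5592, l9454, l2850, o3039, l8445, o4756, l9455, o8768, l3160, l6793, l4919] l9456 := rupP (by decide +kernel)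
theorem r9457 : PImp [l7703, l328, l2713, l3282, l8383, l5808, o5819, l9435, o2924, l3066, o6497, o6014, l4086] l9457 := rupP (by decide +kernel)
theorem r9458 : PImp [l4208, l2628, o8348, l9456] l9458 := rupP (by decide +kernel)
theorem r9459 : PImp [l2712, l1243, l1242, l7703, l3008, l1218, l9243, l2991, l1149, l3826, o4701, l4221, l1210, o4710, l9272, l3000, l428, l1412, l2989, l3222, l3849, l3830, l3113, l3111, l3114, l9273, l2990, l404, l9248, l2809, l4238, l4167, l2992, l3813, l3811, l4209, l2806, o3788, l4208, l4219, o3464, l425, l3007, l3006, l5269, l1150, l2628, l2627, l2988, l5035, l9457, l2556, l8906, l9303, l2571, o801, o5838, l4598, l2708, l9458, l2325, l9443, l4204, o694, o688, o714, l8441, o5592, l9454, l2850, o3039, l8445, o4756, l9455, o8768, l3160, l6793, l4919] l9459 := rupP (by decide +kernel)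
theorem r9460 : PImp [o694, o688, o714, l8441, l9454, l8445, l7440, l9455, o8768] l9460 := rupP (by decide +kernel)
theorem r9461 : PImp [l1243, l1242, l3935, l2628, l2627, l9243, o8348, l9460, l2477, l4280, o695, l2269, l9450, o3438, o3020, o3756, l8391, o5595, o5594, o5592, l9430, o4746, l5740, l3605, l3892] l9461 := rupP (by decide +kernel)
theorem r9462 : PImp [l9278, l8459] l9462 := rupP (by decide +kernel)
theorem r9463 : PImp [l5035, l9272, l7703, l9243, l2991, l9244, l3008, l1218, l1149, l428, l1412, l3000, l3826, l2989, l3222, l3849, l3830, o4701, l5622, l3113, l3111, l3114, l9273, l3142, l4221, l1210, o4710, l2990, l404, l9248, l2809, l4238, l4167, l1242, l5269, l425, l3007, l2641, l2992, l3811, l9462, l2603, l9276, l498, l9416, l4129, l2808, l3342, l2627, o2357, o8704, l2806, o3788, l2640, l4219, o3464, o4773, l2754, l9458, l9436] l9463 := rupP (by decide +kernel)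
theorem r9464 : PImp [l6793, l3874] l9464 := rupP (by decide +kernel)
theorem r9465 : PImp [o3464, l2325, l3935, l2477, l4280, l4260, o695, o690, l9440, o5594, o5592, o5591, l9442, o3438, l2850, o3039, l9430, o4757, l9464, l3591, l4453] l9465 := rupP (by decide +kernel)
theorem r9466 : PImp [l9243, l7703, l2991, l9244, l3008, l1218, l1149, l428, l5269, l425, l3007, l3826, o4701, l5622, l4221, l2641, l2992, l3811, l9462, l1242, l1210, o4710, l9272, l3000, l1412, l2989, l3222, l3849, l3830, l3113, l3111, l3114, l9273, l2990, l404, l9248, l2809, l4238, l4167, l5035, l2603, l3142, l2556, l8906, l2571, l4598, l2708, l4129, l2808, l3342, l2627, o2357, o8704, l9303, o5838, o801, l1243, l3813, l9416, l4209, l2806, o3788, l4208, l2640, l4219, o3464, l3006, l1150, l2628, l9463, l2325, l9465, l9447, l1267, o4291, o4298, l9459] l9466 := rupP (by decide +kernel)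
theorem r9467 : PImp [l7703, l9243, l2991, l9244, l3008, l1218, l1149, l428, l5269, l425, l3007, l3826, o4701, l5622, l4221, l2641, l2992, l3811, l9462, l2603, l2712, l1243, l1242, l1210, o4710, l9272, l3000, l1412, l2989, l3222, l3849, l3830, l3113, l3111, l3114, l9273, l2990, l404, l9248, l2809, l4238, l3340, l2628, o2343, o3556, l3006, l2994, l3142, l3797, o4794, o8543, l4167, l3129, l2996, l3763, l3813, l9416, l4129, l2808, l3342, l2627, o2357, o8704, l4209, l2806, o3788, l4208, l2640, l4219, o3464, l1150, l3935, l2988, l2987, l5035, l2556, l9276, l8906, l9303, l501, l2571, o801, o5838, l4775, l4598, l2708, l9466, l1268, o4291, l9461, l2325, l9460, l2477, l4280, l4260, o695, o690, l9452, o3438, o3010, o3020, o3003, o3756, l8391, o5595, o5594, o5592, l9430, o4734, o4737, o4746, o4743, l8011, l5740, l3914, l3605] l9467 := rupP (by decide +kernel)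
theorem r9468 : PImp [l7703, l3008, l9243, l2991, l9244, l1218, l1149, l3826, o4701, l5622, l4221, l1210, o4710, l9272, l3000, l428, l1412, l2989, l3222, l3849, l3830, l3113, l3111, l3114, l9273, l2990, l404, l9248, l2809, l4238, l3340, l2628, o2343, o3556, l425, l3006, l2994, l3142, l3797, o4794, o8543, l4167, l3129, l2996, l3763, l2992, l3811, l9416, l2641, l3007, l5269, l2603, l3320, l9462, l9467, l9451, l9457] l9468 := rupP (by decide +kernel)
theorem r9469 : PImp [l2556, l3099, l9280, o6749, o6455, o2568, l8132, o5992] l9469 := rupP (by decide +kernel)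
theorem r9470 : PImp [o5101, l6259, o5093, l4084, l9469, l2713, l2539, l8564] l9470 := rupP (by decide +kernel)
theorem r9471 : PImp [l7703, l328, l5035, l2615, o876, l9470, l9438, l2713, l8562, l8144, l5519, l501, o3582, l4775, o9122, l8729, l4083] l9471 := rupP (by decide +kernel)
theorem r9472 : PImp [l7703, l9243, l2991, l9244, l3008, l1218, l1149, l3826, o4701, l5622, l4221, l9272, l3000, l428, l1412, l2989, l3222, l3849, l3830, l3113, l3111, l3114, l9273, l3129, l3142, l9416, l2992, l3811, l4228, l3817, o2525, l7426, o3991, l4056, l4066, l4055, o4002, l3303, l4027, l4025, l3089, l328, o2488, l6625, l408, l5034, l3983, l425, l3006, l2996, l3341, l2990, l404, l9248, l2814, l2250, l1210, o4710, l2809, l4238, l4132, l9274, o4213, l2993, o2549, l5035, l4115, l8064, l3283, o6012, o937, l2994, o2551, l4116, l4129, l2808, l3342, l2627, o2357, o8704, o4214, l3284, o6013, l3953, l3340, l2628, o2343, o3556, l3797, o4794, o8543, l4167, l9422, l5274, l5266, o2461, l413, l3813, l2641, l3007, l5269, l1150, l1243, l9471, l9468, l4771, l9446, o4911] l9472 := rupP (by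 decide +kernel)
theorem r9473 : PImp [l9243, l2708, l3008, l1218, l1149, l428, l5269, l425, l3007, l2992, l3811, l9462, l2712, l3813, l1210, l2991, l3826, o4710, l4238, l4209, l4208, l3830, l1412, l1150, l2628, l2627, o4773, o8348, l9431, l4204, o694, o688, o714, l8441, l9447, l9454, o5592, l2850, o3039, l8445, o4757, l9455, o8768, l3160, l6793, l4919] l9473 := rupP (by decide +kernel)
theorem r9474 : PImp [l9243, l2708, l3008, l1218, l1149, l428, l5269, l425, l3007, l2991, l3826, o4701, l4221, l2992, l3811, l9462, l2712, l3813, l1210, o4710, l4238, l4209, l4208, l4219, o3464, l3830, l3006, l1412, l1150, l2628, l2627, l9473, l2325, l9465, l4204, o694, o688, o714, l8441, l9447, l9454, o5592, l2850, o3039, l8445, o4757, l9455, o8768, l3160, l6793, l4919] l9474 := rupP (by decide +kernel)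
theorem r9475 : PImp [l1268, o4291, l3008, l1218, l1149, l428, l5269, l425, l3007, l9462, l2712, l3006, l1412, l1150, l3935, l2628, l2627, l9243, l2988, l2987, o8348, l9460, l2477, l4280, l4260, o695, l2269, l9450, o3438, o3010, o3020, o3003, o3756, l8391, o5595, o5594, o5592, l9430, o4734, o4737, o4746, o4743, l8011, l5740, l3914, l3605] l9475 := rupP (by decide +kernel)
theorem r9476 : PImp [l7703, l3008, l1218, l1149, l428, l5269, l425, l3007, l9243, l2991, l3826, o4701, l4221, l2992, l3811, l9462, l2712, l1210, o4710, l9272, l3000, l1412, l2989, l3222, l3849, l3830, l3113, l3111, l3114, l9273, l2990, l404, l9248, l2809, l4238, l4167, l3813, l4209, l2806, o3788, l4208, l4219, o3464, l3006, l1150, l3935, l2628, l2627, l2988, l2987, l5035, l2554, l2556, l8906, l8462, l2571, o801, l498, l3431, l3435, l4598, l8902, l2708, l9474, l1268, o4291, l9475, l2325, l9460, l2477, l4280, l4260, o695, o690, l9452, o3438, o3010, o3020, o3003, o3756, l8391, o5595, o5594, o5592, l9430, o4734, o4737, o4746, o4743, l8011, l5740, l3914, l3605] l9476 := rupP (by decide +kernel)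
theorem r9477 : PImp [l7703, l3008, l1218, l9243, l2991, l1149, l3826, o4701, l4221, l1210, o4710, l9272, l3000, l428, l1412, l2989, l3222, l3849, l3830, l3113, l3111, l3114, l9273, l2990, l404, l9248, l2809, l4238, l4167, l2992, l3811, l425, l3007, l3006, l5269, l2603, l3320, l9462, l9476, l9451, l9457] l9477 := rupP (by decide +kernel)
theorem r9478 : PImp [l7703, l3008, l9243, l2991, l9244, l1218, l1149, l3826, o4701, l5622, l4221, l1210, o4710, l9272, l3000, l428, l1412, l2989, l3222, l3849, l3830, l3113, l3111, l3114, l9273, l2990, l404, l9248, l2809, l4238, l3340, l2628, o2343, o3556, l425, l3006, l2994, l3142, l2992, l3811, l4228, l3817, o2525, l7426, o3991, l4056, l4055, l3089, l328, o2488, l6625, l408, l5034, l3983, o2551, l5035, l4116, l4129, l2808, l3342, l2627, o2357, o8704, o4214, l3129, l8064, l3284, o6013, l3953, l3797, o4794, o8543, l4167, l2996, l3763, l3341, l2814, l2250, l4132, l9274, o4213, l2993, o2549, l4115, l3283, o6012, o937, o4002, l3303, l4027, l4025, l5266, o2461, l4066, l413, l3813, l9416, l2641, l2640, l3007, l5269, l1150, l9422,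 l5274, l9472, l1137, l1138, l9477, l2615, o876, l9471, l3431, l4779, l498, o4912, l7761, l495, l2556, l9438, l8638] l9478 := rupP (by decide +kernel)
theorem r9479 : PImp [l2550, o7774, l5564, l2606] l9479 := rupP (by decide +kernel)
theorem r9480 : PImp [l1243, l1242, l2989, l2988, l4204, o694, o688, o714, l8441, l9454, o5596, o3438, o3015, o3010, o3756, l8445, o4743, l9479, l7293, l5510, l2606, l2608, l5564, l4945] l9480 := rupP (by decide +kernel)
theorem r9481 : PImp [l8913, l1279, o8160] l9481 := rupP (by decide +kernel)
theorem r9482 : PImp [l1279, o1473, l1105, l2313, o7826] l9482 := rupP (by decide +kernel)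
theorem r9483 : PImp [l2628, l2627, l9243, o3435, o3436, l9482, l7274, l2624, o2270, l3168, o7961, l3538] l9483 := rupP (by decide +kernel)
theorem r9484 : PImp [l3008, l1218, l425, l3006, l428, l1412, l1149, l473, l476, l2831, l9481, o5301, o5314, o5317, o4746, l2306, o5639, l9483, l2983, l5740, l3605, l3177] l9484 := rupP (by decide +kernel)
theorem r9485 : PImp [l1242, l9243, l2991, l9244, l3008, l1218, l1149, l428, l5269, l425, l3007, l3826, o4701, l5622, l4221, l2641, l2992, l3811, l9462, l2712, l3813, l1210, o4710, l4238, l4209, l4208, l2640, l4219, o3464, l3830, l2989, l3222, l3849, l3006, l1412, l1150, l3935, l2628, l2627, l2988, l2987, o4773, o8348, l9480, l2477, l4280, l4260, o695, l2269, l9484, o3438, o3010, o3020, o3003, o3756, l8391, o5595, o5594, o5592, l9430, o4734, o4737, o4746, o4743, l8011, l5740, l3914, l3605] l9485 := rupP (by decide +kernel)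
theorem r9486 : PImp [l3935, l3934, l2831, o3663, l9481, l9441, o5317, o4757, l2448, l3537, l1279, l3168, l2379, l4648, l1705, o2716] l9486 := rupP (by decide +kernel)
theorem r9487 : PImp [l1242, l9243, l2991, l9244, l3008, l1218, l1149, l428, l5269, l425, l3007, l3826, o4701, l5622, l4221, l2641, l2992, l3811, l9462, l2712, l3813, l1210, o4710, l4238, l4209, l4208, l2640, l4219, o3464, l3830, l2989, l3222, l3849, l3006, l1412, l1150, l3935, l476, l2628, l2627, l9485, l2325, l9480, l2477, l4280, l4260, o690, l9486, o3438, l2850, o3039, o3756, l8391, o5594, o5592, l9430, o4757, l9464, l3559, l4453] l9487 := rupP (by decide +kernel)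
theorem r9488 : PImp [l8913, l3537, o8160, l2305, l2624, o2270, l3168, o5592, o5322, l8391, o8251, o3754] l9488 := rupP (by decide +kernel)
theorem r9489 : PImp [l2305, o7918, o7825, l2314] l9489 := rupP (by decide +kernel)
theorem r9490 : PImp [l2628, l2627, l9489, l7274, l2624, o2270, l3168, o7961, l3538] l9490 := rupP (by decide +kernel)
theorem r9491 : PImp [l3935, l473, l476, l2627, l9243, l2831, l9488, o5301, o5314, o5317, l2306, o4748, l9490, o3436, o3026, l5740, l3605, l3177] l9491 := rupP (by decide +kernel)
theorem r9492 : PImp [o3438, l2850, o3039, o3756, l8391, o5594, o5592, l9430, o4757, l9464, l3559, l4453] l9492 := rupP (by decide +kernel)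
theorem r9493 : PImp [l1242, l9243, l2991, l9244, l3008, l1218, l1149, l428, l5269, l425, l3007, l3826, o4701, l5622, l4221, l2641, l2992, l3811, l9462, l2712, l3813, l1210, o4710, l4238, l4209, l4208, l2640, l4219, o4723, l3830, l2989, l3222, l3849, l3006, l1412, l1150, l3935, l3934, l476, l2628, l2627, l2990, l9480, l2477, l4280, l4260, l2269, o690, l9492, l2831, o3663, l9491, l9488, l9441, o5317, o4757, l2448, l3537, o7918, l3168, l2379, l4648, l1705, o2716] l9493 := rupP (by decide +kernel)
theorem r9494 : PImp [l2325, l2328] l9494 := rupP (by decide +kernel)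
theorem r9495 : PImp [l1242, l7703, l9243, l2991, l9244, l3008, l1218, l1149, l428, l5269, l425, l3007, l3826, o4701, l5622, l4221, l2641, l2992, l3811, l9462, l2628, o3464, l4208, l9494, l1210, o4710, l4238, l4167, l2989, l3222, l3849, l1412, l5035, l2556, l8906, l8462, l9303, l2571, o801, l501, o5838, l4598, l4775, l2708, l9487, l1268, l9493, o4292] l9495 := rupP (by decide +kernel)
theorem r9496 : PImp [l9451, l9457] l9496 := rupP (by decide +kernel)
theorem r9497 : PImp [l2989, l2988, l4204, o694, o688, o714, l8441, o5596, l9454, o3438, o3015, o3010, o3756, l8445, l9479, o4743, l5510, l7293, l2606, l2608, l4945, l5564] l9497 := rupP (by decide +kernel)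
theorem r9498 : PImp [l3008, l9243, l2991, l9244, l1218, l1149, l3826, o4701, l5622, l4221, l1210, o4710, l4238, l4209, o690, l4260, l2992, l3811, l3830, l425, l3006, l428, l1412, l476, l2628, l3222, l9486, o4773, l9484] l9498 := rupP (by decide +kernel)
theorem r9499 : PImp [l2628, l9243, l7703, l3008, l2991, l9244, l1218, l1149, l3826, o4701, l5622, o3464, l4221, l4208, l9494, l1210, o4710, l9272, l3000, l428, l1412, l2989, l3222, l3849, l3830, l3113, l3111, l3114, l9273, l2990, l404, l9248, l2809, l4238, l3340, o2343, o3556, l425, l3006, l2994, l3142, l3797, o4794, o8543, l4167, l3129, l2996, l3763, l2992, l3813, l3811, l9416, l4129, l2808, l3342, l2627, o2357, o8704, l4209, l2806, o3788, l2641, l2640, l4219, o4723, l3007, l5269, l1150, l3935, l3934, l476, l5035, l2712, l2603, l3320, l9462, l9496, l2554, l2556, l8906, l8462, l9495, l2571, o801, l498, l1137, l3431, l3435, l4598, l8902, l2708, l9497, l2477, l4280, l4260, o695, l2269, o690, l9492, l2831, o3663, l9498, l9488, l1268, o5317, o4757, o4292, l9491, l9441, l2448, l3537, o7918, l3168, l2379, l4648,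 l1705, o2716] l9499 := rupP (by decide +kernel)
theorem r9500 : PImp [l1698, o3436, l9425, l9444, o1452, o7981, o2258, o8394, o7894] l9500 := rupP (by decide +kernel)
theorem r9501 : PImp [o7774, l6862] l9501 := rupP (by decide +kernel)
theorem r9502 : PImp [l2982, o3427, l9501, l2564, l2566, l7293, l4268, l4945] l9502 := rupP (by decide +kernel)
theorem r9503 : PImp [o3414, l1698, o3663, o4743, l9502, o3436, l9500, l9444, o5629, o1452, l5668, o7981, o7894, o2258] l9503 := rupP (by decide +kernel)
theorem r9504 : PImp [l2708, l2992, l4204, o694, o688, o714, l8441, o5591, l9503, o3438, o3039, l8445, l9047, o4743, l7442, l9502] l9504 := rupP (by decide +kernel)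
theorem r9505 : PImp [l2628, l9243, l7703, l3008, l2991, l9244, l1218, l1149, l3826, o4701, l5622, o3464, l4221, l4208, l9494, l2992, l3813, l3811, l1210, o4710, l4238, l4209, l2641, l2640, l4219, l428, o4723, l3830, l2989, l3222, l3849, l425, l3007, l3006, l5269, l1412, l1150, l3935, l3934, l473, l2627, l2990, l328, l1242, l1243, l9470, l9438, l2713, l8562, l8144, l5519, l501, o5838, l2708, o3582, l4775, l8729, l4084, l4082, o8935, l9504, l2477, l4280, l4260, o695, l2269, o690, l9492, l9498, l2831, o3663, l1268, l9488, o4292, o4291, o5314, o4743, l9491, o4748, o4734, l9441, l3570, o7918, l3177, l4651, l2379, o2714, l8011] l9505 := rupP (by decide +kernel)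
theorem r9506 : PImp [l7703, l328, l9438, o5101, o5093, l6124, l9469] l9506 := rupP (by decide +kernel)
theorem r9507 : PImp [l7703, l9272, l3000, l5035, l9478, l4838, l2628, l9243, l3008, l2991, l9244, l1218, l1149, l3826, o4701, l5622, o3464, l4221, l4208, l2989, l3222, l3849, l2992, l3811, l4228, l3817, o2525, l7426, o4002, o3991, l4056, l3303, l4055, l4027, l4025, l9494, l1210, o4710, l428, l1412, l3830, l3113, l3111, l3114, l9273, l2990, l404, l9248, l2809, l4238, l3340, o2343, o3556, l425, l3006, l2994, l3142, l3089, l328, o2488, l6625, l408, l5034, l3983, o2551, l4116, l4129, l2808, l3342, l2627, o2357, o8704, o4214, l3129, l8064, l3284, o6013, l3953, l3797, o4794, o8543, l4167, l2996, l3341, l2814, l2250, l4132, l9274, o4213, l2993, o2549, l4115, l3283, o6012, o937, l5266, o2461, l3085, l4066, l413, l3813, l9416, l4209, l2806, o3788, l2641, l2640, l4219, o4723, l3007, l5269, l1150, l3935, l3934, l473, l9499, l2615, o876, l9505, l1137, l9506, l2713, l8571, l498, l3431, l3435, l9306, l8144, l5519, o5838, l8729, l2708, o3582, l4084, l4082, o8935, l9504,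 l2477, l4280, l4260, o695, l2269, o690, l9492, l9498, l2831, o3663, l1268, l9488, o4292, o4291, o5314, o4743, l9491, o4748, o4734, l9441, l3570, o7918, l3177, l4651, l2379, o2714, l8011] l9507 := rupP (by decide +kernel)
theorem r9508 : PImp [l7703, l9272, l3000, l5035, l9478, l4838, l3008, l9243, l2991, l9244, l1218, l1149, l3826, o4701, l5622, l4221, l1210, o4710, l428, l1412, l2989, l3222, l3849, l3830, l3113, l3111, l3114, l9273, l2990, l404, l9248, l2809, l4238, l3340, l2628, o2343, o3556, l425, l3006, l2994, l3142, l2992, l3811, l4228, l3817, o2525, l7426, o3991, l4056, l4055, l3089, l328, o2488, l6625, l408, l5034, l3983, o2551, l4116, l4129, l2808, l3342, l2627, o2357, o8704, o4214, l3129, l8064, l3284, o6013, l3953, l3797, o4794, o8543, l4167, l2996, l3341, l2814, l2250, l4132, l9274, o4213, l2993, o2549, l4115, l3283, o6012, o937, o4002, l3303, l4027, l4025, l9507, l1138, l9446] l9508 := rupP (by decide +kernel)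
theorem r9509 : PImp [l7703, l3008, l9243, l2991, l9244, l1218, l1149, l3826, o4701, l5622, l4221, l1210, o4710, l9272, l3000, l428, l1412, l2989, l3222, l3849, l3830, l3113, l3111, l3114, l9273, l2990, l404, l9248, l2809, l4238, l3340, l2628, o2343, o3556, l425, l3006, l2994, l3142, l2992, l3811, l4228, l3817, o2525, l7426, o3991, l4056, l4055, l3089, l328, o2488, l6625, l408, l5034, l3983, o2551, l5035, l4116, l4129, l2808, l3342, l2627, o2357, o8704, o4214, l3129, l8064, l3284, o6013, l3953, l3797, o4794, o8543, l4167, l2996, l3341, l2814, l2250, l4132, l9274, o4213, l2993, o2549, l4115, l3283, o6012, o937, o4002, l3303, l4027, l4025, l2641, l2640, l9478, l4838, l9508, l5274, l3374, l2730, o4389, o5186, l1242, l9277, l2712, l2603, l9275, l8654, l9276] l9509 := rupP (by decide +kernel)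
theorem r9510 : PImp [l7703, l9272, l2996, l3341, l9243, l2991, l9244, l2990, l2989, l3000, l3008, l1218, l428, l1412, l1149, l3826, l3222, l3849, l3830, o4701, l5622, l3113, l3111, l3114, l9273, l404, l9248, l2814, l2250, l4221, l1210, o4710, l2809, l4238, l4132, l3129, l9274, l2992, l3811, l4228, l5035, l4116, l4115, l5034, l3817, l4129, l2808, l3342, l2627, o2357, o8704, l2628, o2343, l3142, l2641, l2640, o3556, l425, l3006, l3340, l2994, l2993, l328, l3089, o2488, o2525, o2549, o2551, l6625, l7426, l408, o4213, o4214, o4002, o3991, l4056, l3303, l4055, l3983, l8064, l4027, l3283, l3284, l4025, o6012, o6013, o937, l3953, l3797, o4794, o8543, l4167, l9509, l5268, l3357, l3384, l4794, o4389, o4887, o5186, l1242, l9277, l2712, l2603, l9275, l8654, l9285] l9510 := rupP (by decide +kernel)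
theorem r9511 : PImp [l9243, o5407, o5101, l8459, l7190, l7458, o6651, o2924] l9511 := rupP (by decide +kernel)
theorem r9512 : PImp [l1073, o5863] l9512 := rupP (by decide +kernel)
theorem r9513 : PImp [o2532, l5267, l7426, o3988, o5915, o5863] l9513 := rupP (by decide +kernel)
theorem r9514 : PImp [l6709, l4025] l9514 := rupP (by decide +kernel)
theorem r9515 : PImp [l5034, l9513, l9514, l3304, l3257, l4026, l3987, o4003, l3064, o6308] l9515 := rupP (by decide +kernel)
theorem r9516 : PImp [l425, l9377, o4068, l5034, l9515, l1242, l4054, o4389, l3303, l5274, l9514, l5265, l5655, l5056] l9516 := rupP (by decide +kernel)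
theorem r9517 : PImp [l4229, l4228, l5034, l3818, l3817, l7703, l3008, l9243, l2991, l9244, l1218, l1149, l3826, o4701, l5622, l4219, l4221, l3830, l2989, l3222, l3849, l425, l3006, l428, l2992, l3811, l9510, l9377, o4072, o4068, l9516, l4053, l3308, l4054, l3987, l3063, l4993, l7426, o3988, o4002, o5915, l3091, l5267, o2463, l4026, l4017, l4022] l9517 := rupP (by decide +kernel)
theorem r9518 : PImp [l3008, l1218, l428, l1412, l4087, l1149, l328, l3089, o2488, o2442, l8883, l3303, l8858, o6297, o3901, l4027, l4025] l9518 := rupP (by decide +kernel)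
theorem r9519 : PImp [l4025, l4034] l9519 := rupP (by decide +kernel)
theorem r9520 : PImp [l8686, l4026, l9362, o3906] l9520 := rupP (by decide +kernel)
theorem r9521 : PImp [l3008, l1218, l428, l1412, l4087, l9518, l3075, l9519, l3303, l3304, l9520, l1242, l4054, l1138, o3890, l8887] l9521 := rupP (by decide +kernel)
theorem r9522 : PImp [l1698, o3663, o4743, l9500, l2982, o3427, l7293, l2550, l3898, l4944] l9522 := rupP (by decide +kernel)
theorem r9523 : PImp [l9243, l3008, l1218, l1149, l428, l5269, l425, l3007, l9462, l1242, l1412, l2556, l9303, l8904, l2571, l4598, l2708, o801, o5838, l1243, l2991, l3826, o4767, l1210, o4710, l4238, l4209, l4208, l3830, l2989, l3222, l3849, l1150, l2627, l9431, l9434, l4204, o694, o688, o714, l8441, l9522, o3015, o3756, l8445, l7293, o4743, l2550, l3898, l4944] l9523 := rupP (by decide +kernel)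
theorem r9524 : PImp [l2628, l9243, l3008, l2991, l9244, l1218, l1149, l3826, o4701, l5622, o3464, l4221, l4208, l9494, o4767, l1210, o4710, l4238, l2641, l4219, l3830, l425, l3007, l3006, l428, l1412, l1150, l3935, l2992, l2477, l4280, l4260, o695, l2269, l9492, l9484] l9524 := rupP (by decide +kernel)
theorem r9525 : PImp [o3414, l1698, o3663, o4743, l9500, l2982, o3427, l7293, l2550, l2552, l3898, l9048] l9525 := rupP (by decide +kernel)
theorem r9526 : PImp [l1243, l1242, l2628, l9243, l7703, l3008, l2991, l9244, l1218, l1149, l3826, o4701, l5622, o3464, l4221, l4208, l9494, l3340, o2343, l9272, o3556, l425, l3006, l2989, l3222, l3849, l2994, l3142, l3129, l2996, l4860, l3797, o4794, o8543, l9416, l4129, l3000, l428, l1412, l3830, l3113, l3111, l3114, l9273, l2808, l3342, l2627, o2357, o8704, l1210, o4710, l2990, l404, l9248, l2809, l4238, l4209, l2806, o3788, l2641, l2640, l4219, l3007, l5269, l1150, l2992, l5035, l2712, l9462, l2604, o947, l9496, l9276, l9303, l2556, l501, l8904, o5838, l4775, l2571, o801, l4598, l2708, l9523, l9524, l4204, o694, o688,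 o714, l8441, l9480, o5594, o5592, l9525, o3438, l2850, o3039, o3015, o3756, l8445, l7293, o4743, o4757, l2550, l2552, l3898, l3559, l6213, l3560] l9526 := rupP (by decide +kernel)
theorem r9527 : PImp [l2556, l3100, l9437, o2924, l3066, l8132, o5896, o124, o5992, l5797, o6455] l9527 := rupP (by decide +kernel)
theorem r9528 : PImp [l2708, l1243, l1242, l9503, o3756, l7293, l9501] l9528 := rupP (by decide +kernel)
theorem r9529 : PImp [o3414, l1698, o3663, o4757, l9500, l2985, o3427, l5708, l2611, l3866, l4268] l9529 := rupP (by decide +kernel)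
theorem r9530 : PImp [l1243, l1242, l9243, l7703, l2989, l3222, l3008, l2991, l9244, l1218, l1149, l3849, l9517, o4301, l428, l1412, l2757, l4087, o2442, l328, o2488, l3089, l2992, l3808, l3826, o4701, o4481, l8883, l8858, o6297, o3890, l5622, l4221, l9521, o3901, l7040, l1267, l1268, l3303, l3090, l4525, l5034, l3993, l414, l3966, l2628, o3464, l4208, l9494, l9272, l2993, l3142, l3129, l425, l3006, l2996, l4129, l3000, l3830, l3113, l3111, l3114, l9273, l2808, l3342, l2627, o2357, o8704, o4969, l4860, l3927, l2994, l3797, o4318, o6519, l5274, l5268, o4778, l3816, l9416, l1210, o4710, l2990, l404, l9248, l2809, l4238, l4209, l2806, o3788, l2641, l2640, l4219, l3007, l5269, l1150, l9526, l2615, o876, l9470, l9527, l2713, l8571, l8144, l5519, l501, o5838, l2708, o3582, l4775, l8729, l4084, l4082, o9122, o8935, l9524, l4204, o694, o688, o714, l8441, o5592, o5591, l9528, l9529, l2850, o3039, o3756, l8445, l5708, o4757, l2611, l3866, l6793] l9530 := rupP (by decide +kernel)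
theorem r9531 : PImp [l1243, l1242, l7703, l3008, l9243, l2991, l9244, l1218, l1149, l2989, l3222, l3849, l9517, l2757, l428, l1412, l4087, o2442, l8883, l3089, l3826, o4701, l5622, l4221, l2992, l3808, o4481, o4301, l9521, l9272, l2993, l3142, l3129, l425, l3006, l2996, l4129, l3000, l3830, l3113, l3111, l3114, l9273, l2808, l3342, l2627, o2357, o8704, o4969, l4860, l3927, l2994, l3797, o4318, o6519, l3340, l2628, o2343, o3556, o4794, o8543, l5274, l5268, o4977, l4525, l2641, l328, l9530, l3442, l4771, l501, l9445, l2615, o876, l9306, l8571, l9527] l9531 := rupP (by decide +kernel)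
theorem r9532 : PImp [o1452, o8284, o8200, o2258] l9532 := rupP (by decide +kernel)
theorem r9533 : PImp [l4669, l4670] l9533 := rupP (by decide +kernel)
theorem r9534 : PImp [l3935, l3934, l3537, l1279, l9427, l3160, l9533] l9534 := rupP (by decide +kernel)
theorem r9535 : PImp [l2293, l9532] l9535 := rupP (by decide +kernel)
theorem r9536 : PImp [o3663, l9534, o1452, l9535, o5628, o7867, o7958, l2283] l9536 := rupP (by decide +kernel)
theorem r9537 : PImp [l8403, l1506, o8084] l9537 := rupP (by decide +kernel)
theorem r9538 : PImp [l2477, l4280, l4260, o690, l9536, l2850, o3039, o3756, l8391, o5592, l9537, o4757, l9464, l3559, l4453] l9538 := rupP (by decide +kernel)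
theorem r9539 : PImp [l2708, l4209, l4208, l2991, l3008, l1218, l1149, l3826, l3830, l2989, l3222, l3849, l425, l3007, l3006, l428, l5269, l1412, l1150, l2992, l9538, l4204, o694, o688, o714, l8441, l9447, l9522, o3756, l7293, o8210, o8169] l9539 := rupP (by decide +kernel)
theorem r9540 : PImp [l9535, l1279, o8160] l9540 := rupP (by decide +kernel)
theorem r9541 : PImp [o1452, o7867, o7958, l2283] l9541 := rupP (by decide +kernel)
theorem r9542 : PImp [l2831, o3663, l9540, o5317, l2306, o5628, l9541, l3537, l9489, l3168, o3436, l9533] l9542 := rupP (by decide +kernel)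
theorem r9543 : PImp [l2477, l4280, l4260, l2269, o690, l9542, l2850, o3039, l9537, o5317, o4757, l9464, l3559, l4453] l9543 := rupP (by decide +kernel)
theorem r9544 : PImp [l2604, l2712, l1243, l1242, l2628, l9243, l7703, l3008, l2991, l9244, l1218, l1149, l3826, o4701, l5622, o3464, l4221, l4208, l9494, l1210, o4710, l4238, l4209, l2641, l2640, l4219, l3830, l2989, l3222, l3849, l425, l3007, l3006, l428, l5269, l1412, l1150, l3935, l476, l2627, l2988, l2992, l328, l5035, l2556, l9511, l8462, l8906, l9303, l501, l2571, o801, o5838, l4775, l4598, l2708, l9539, l9543, l4204, o694, o688, o714, l8441, l9480, o5596, l9525, o3438, o3010, o3756, l7293, l2550, o8210, l5564, l2606] l9544 := rupP (by decide +kernel)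
theorem r9545 : PImp [l3340, l2628, o2343, l9272, l7703, l3008, l9243, l2991, l9244, l1218, l1149, l3826, o4701, l5622, o3556, l425, l3006, l2989, l3222, l3849, l2994, l3142, l3129, l2996, l4860, l3797, o4794, o8543, l9416, l4129, l3000, l428, l1412, l3830, l3113, l3111, l3114, l9273, l2808, l3342, l2627, o2357, o8704, l2990, l404, l9248, l2809, l2806, o3788, l2641, l2640, l4221, l3007, l2712, l2604, o947, l9544, l9457, o5407, l5515, l7458] l9545 := rupP (by decide +kernel)
theorem r9546 : PImp [l7703, l328, l2556, l3100, l9280, l9437, o2924, l2597, l3066, l5797, o4227, o6455, o5984, o5992] l9546 := rupP (by decide +kernel)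
theorem r9547 : PImp [l9531, l1243, l1242, l9243, l7703, l2989, l3222, l3008, l2991, l9244, l1218, l1149, l3849, l9517, o4301, l428, l1412, l2757, l4087, o2442, l328, o2488, l3089, l2992, l3808, l3826, o4701, o4481, l8883, l8858, o6297, o3890, l5622, l4221, l9521, o3901, l7040, l1267, l1268, l3303, l3090, l4525, l5034, l3993, l414, l3966, l2628, o3464, l4208, l9494, l9272, l2993, l3142, l3129, l425, l3006, l2996, l4129, l3000, l3830, l3113, l3111, l3114, l9273, l2808, l3342, l2627, o2357, o8704, o4969, l4860, l3927, l2994, l3797, o4318, o6519, l5274, l5268, o4977, o4781, o4778, l3816, l9416, l1210, o4710, l2990, l404, l9248, l2809, l4238, l4209, l2806, o3788, l2641, l2640, l4219, l3007, l5269, l1150, l3935, l476, l9545, l2615, o876, l9546, l2713, l8571, l501, l498, l4775, l9306, l8144, l5519, o5838, l8729, l2708, o3582, l4084, l4082, o9122, o8935, l9543, l4204, o694, o688, o714, l8441, o5591, l9528, l9529, o3756, l7293, l5708, o8210] l9547 := rupP (by decide +kernel)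
theorem r9548 : PImp [l9243, l2640, l7703, l3008, l1218, l428, l5269, l1412, l1149, l1210, l9272, l328, l5035, l2712, l2604, l8654, l9511, l9276] l9548 := rupP (by decide +kernel)
theorem r9549 : PImp [l9243, l7703, l2989, l3222, l3008, l2991, l9244, l1218, l1149, l3849, l9517, o4301, l428, l1412, l2757, l4087, o2442, l328, o2488, l3089, l2992, l3808, l3826, o4701, o4481, l8883, l8858, o6297, o3890, l5622, l4221, l9521, o3901, l7040, l1268, l9272, l2993, l3142, l3129, l425, l3006, l2996, l4129, l3000, l3830, l3113, l3111, l3114, l9273, l2808, l3342, l2627, o2357, o8704, o4969, l4860, l3927, l2994, l3797, o4318, o6519, l5268, o4977, l3816, l5269, l1242, l9531, l9547, l3442, l4771, l501, l9548, l2615, o876, l8571, l9546] l9549 := rupP (by decide +kernel)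
theorem r9550 : PImp [l9243, l2708, l2991, l3008, l9244, l1218, l1149, l3826, o4767, l4208, l2641, o4701, l5622, l4219, l4221, l9431, l9524] l9550 := rupP (by decide +kernel)
theorem r9551 : PImp [l2708, l2989, l2992, l4204, o694, o688, o714, l8441, l9497, o5594, o5592, l9525, o3438, l2850, o3039, o3015, o3756, l8445, l7293, o4743, o4757, l2550, l2552, l3898, l3559, l6213, l3560] l9551 := rupP (by decide +kernel)
theorem r9552 : PImp [l2712, l2628, l9243, l7703, l3008, l2991, l9244, l1218, l1149, l3826, o4701, l5622, o3464, l4221, l4208, l9494, l9416, l3142, l3129, l1210, o4710, l9272, l3000, l428, l1412, l2989, l3222, l3849, l3830, l3113, l3111, l3114, l9273, l2990, l404, l9248, l2809, l4238, l4209, l2806, o3788, l2641, l2640, l4219, l425, l3007, l3006, l5269, l1150, l3935, l476, l2627, l2992, l5035, l2554, l2556, l8459, l8462, l8906, l498, l2571, o801, l3431, l3435, l4598, l8902, l9551, l9550, l9539, l9543] l9552 := rupP (by decide +kernel)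
theorem r9553 : PImp [l3340, l2628, o2343, l9272, l7703, l3008, l9243, l2991, l9244, l1218, l1149, l3826, o4701, l5622, o3556, l425, l3006, l2989, l3222, l3849, l2994, l3142, l3129, l2996, l4860, l3797, o4794, o8543, l9416, l3000, l428, l1412, l3830, l3113, l3111, l3114, l9273, l2641, l2640, l4221, l3007, l2712, l2604, o947, l9552, l9457, o5407, l5515, l7458] l9553 := rupP (by decide +kernel)
theorem r9554 : PImp [l7703, l328, l2556, l9546, l9280, l9527] l9554 := rupP (by decide +kernel)
theorem r9555 : PImp [l2708, l9503, o3756, l7293, l9501] l9555 := rupP (by decide +kernel)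
theorem r9556 : PImp [l5519, l2708, l2992, l4204, o694, o688, o714, l8441, o5592, o5591, l9555, l9529, l2850, o3039, o3756, l8445, l5708, o4757, l2611, l3866, l6793] l9556 := rupP (by decide +kernel)
theorem r9557 : PImp [l2628, l9243, l7703, l3008, l2991, l9244, l1218, l1149, l3826, o4701, l5622, o3464, l4221, l4208, l2992, l9517, l3808, o4481, l2989, l3222, l3849, o4301, l2757, l9521, l9494, l9272, l2993, l3142, l3129, l425, l3006, l2996, l4129, l3000, l428, l1412, l3830, l3113, l3111, l3114, l9273, l2808, l3342, l2627, o2357, o8704, o4969, l4860, l3927, l2994, l3797, o4318, o6519, l4087, l5274, l5268, o4977, o4781, o4778, l3816, l4525, l5034, l9416, l1210, o4710, l2990, l404, l9248, l2809, l4238, l4209, l2806, o3788, l2641, l2640, l4219, l3007, l5269, l1150, l3935, l476, l328, l3089, l3090, o2488, o2442, l8883, l3303, l8858, l3993, o6297, l414, o3890, o3901, l3966, l7040, l1268, l1267, l9549, l1137, l1138, l9553, l2615, o876, l9554, l2713, l8571, l498, l3431, l3435, l9306, l8144, l5519, o5838, l8729, o3582, l4084, l4082, o9122, o8935, l9556, l9550, l9543]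 l9557 := rupP (by decide +kernel)
theorem r9558 : PImp [l4087, o2463, l3075, l5034, o1727, l4034, o4085, o4166, l8863, l2777, o5873, l4017, o2660, l4993] l9558 := rupP (by decide +kernel)
theorem r9559 : PImp [l3821, l7703, l3008, l9243, l2991, l9244, l1218, l1149, l3826, o4701, l5622, l4221, l2989, l3222, l3849, l425, l3006, l428, l1412, l421, l2992, l4233, l9517, l3808, o4481, o4301, l2757, l5274, l4087, l9521, l9557, l3075, l9558, l3303, l3304, l9520, l1242, l4054, l1138, o3890, l8887] l9559 := rupP (by decide +kernel)
theorem r9560 : PImp [l404, l9243, l2641, l2640, l7703, l3008, l1218, l428, l1412, l9272, l2994, l5035, l5268, l3357, l3384, l2771, o4887, o4860, l6257, l9277, l2712, l2604, l9275, l9285, o5824, l2713, l8380, l4084, l4604, l7734] l9560 := rupP (by decide +kernel)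
theorem r9561 : PImp [l3008, l328, l9379, l9399, l9396] l9561 := rupP (by decide +kernel)
theorem r9562 : PImp [l4433, l3820, l404, l9243, l2641, l2640, l9272, l7703, l3008, l1218, o4701, l5622, o3556, l425, l3007, l3006, l428, l5269, l1412, l421, l3340, l2994, l2992, l5035, l1242, l1243, l6566, o4076, l9561, l5268, l3357, l3384, o4481, l2771, o5401, o4860, l3811, o8543, l6257, l4167, l4189, l9560, o5187] l9562 := rupP (by decide +kernel)
theorem r9563 : PImp [l9243, l2989, l328, l9395, l9396, l9561, o4065] l9563 := rupP (by decide +kernel)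
theorem r9564 : PImp [l2628, o2343, l3142, l3129, l7703, l3008, l9243, l2991, l9244, l1218, l1149, l3826, o4701, l5622, l4221, l1210, o4710, l9272, l3000, l428, l1412, l2989, l3222, l3849, l3830, l3113, l3111, l3114, l9273, l2990, l404, l9248, l2809, l4238, l2641, l2640, o3556, l425, l3007, l3006, l5269, l421, l3340, l2994, l5035, l3817, l3820, l9559, o26, l4433, l9563, l5268, l3357, l3384, l2771, o4389, o5401, o4887, o4860, l1242, l9562, o8543, l6257, l4167, l4189, o5187, l9277, l2712, l2604, l9275, l8654, l9285] l9564 := rupP (by decide +kernel)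
theorem r9565 : PImp [l4228, l3008, l1218, l425, l3006, l428, l1412, l9243, l2992, l8113, l9382, l3811, l3816, o4481, o4301, l2757, l5274, l4087, l9414] l9565 := rupP (by decide +kernel)
theorem r9566 : PImp [l7703, l9272, l3000, l5035, l3008, l1218, l9323, l4838, o3556, l9243, l2989, l1149, l3849, l425, l3006, l3340, l2992, l3811, l9403, o4840, l4164, o8543] l9566 := rupP (by decide +kernel)
theorem r9567 : PImp [l9243, l7703, l2989, l3008, l1218, l1149, l3849, l428, l1412, l2992, l9323, l9566, l3816, o4301, l2757, l9414, l4087] l9567 := rupP (by decide +kernel)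
theorem r9568 : PImp [l4763, l9243, l2807, l9272, o3556, l4219, l7703, l2989, l3008, l1218, l1149, l3849, l425, l3006, l428, l1412, l3340, l2992, l4228, l9565, l9567, l5274, l5178, l3374, o4481, o4239, l4087, o5398, l3811, l1245, o2449, o8543, l5842, l4167, l5027, l9385] l9568 := rupP (by decide +kernel)

end Pool.Agent.BDD.A
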