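import Pool.Agent.BDD.AC
import Pool.Agent.BDD.AE0
import Pool.Agent.BDD.AE1
import Pool.Agent.BDD.AE2
import Pool.Agent.BDD.AD0
import Pool.Agent.BDD.AD1
import Pool.Agent.BDD.AD2
import Pool.Agent.BDD.AD3

set_option autoImplicit false
set_option linter.all false

namespace Pool.Agent.BDD.A

theorem r9569 : PImp [l8474, l8898] l9569 := rupP (by decide +kernel)
theorem r9570 : PImp [l421, l2771, o4239, l9569, l3308, l4548, l4520, o3938] l9570 := rupP (by decide +kernel)
theorem r9571 : PImp [o6281, o6213] l9571 := rupP (by decide +kernel)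
theorem r9572 : PImp [l4087, o2442, l9571, o3888, l4548, l4753, l8898] l9572 := rupP (by decide +kernel)
theorem r9573 : PImp [l3303, l5672, l8043, l5054, l4753, l2786] l9573 := rupP (by decide +kernel)
theorem r9574 : PImp [l425, l3006, l428, l1412, l3008, l1149, l1150, l421, l328, l3090, o2488, o2525, l9570, l5268, l9572, l9573, l3268, l4548, l9390, o3991, o6289] l9574 := rupP (by decide +kernel)
theorem r9575 : PImp [l4087, l3075, l5672, l9388, l9392] l9575 := rupP (by decide +kernel)
theorem r9576 : PImp [l4763, l4087, o2449, l9575, l3813, l4547, l3816, o4301, o3896, l5051] l9576 := rupP (by decide +kernel)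
theorem r9577 : PImp [l4221, l9243, l7703, l2989, l3008, l1218, l1149, l3849, l428, l1412, l1150, l421, l2992, l1243, l9568, o26, l9574, l9389, l3308, l3268, l9576, o4255, l2757, l5268, l3813, l9388, l9391, o4065, l2789, l4517, o5897, o2617, l5267, l9390, l4533, o6289, o4002] l9577 := rupP (by decide +kernel)
theorem r9578 : PImp [l4087, l8898, o2442, l3308, l4548, o6281, o3888] l9578 := rupP (by decide +kernel)
theorem r9579 : PImp [l4007, l3303, l4755, o4091, o4078, o4065, l4691, l4708, l4989] l9579 := rupP (by decide +kernel)
theorem r9580 : PImp [l425, l3006, l421, l428, l328, l3090, o2488, o2525, l9574, l9579, l3268, l4548, l9390, o3991, o6289] l9580 := rupP (by decide +kernel)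
theorem r9581 : PImp [l7703, l3008, l9243, l2991, l9244, l1218, l1149, l3826, o4701, l5622, l4221, l1210, o4710, l9272, l3000, l428, l1412, l2989, l3222, l3849, l3830, l3113, l3111, l3114, l9273, l2990, l404, l9248, l2809, l4238, l2807, l2641, l2640, l4219, l425, l3006, l1150, l421, l2628, l2627, l2992, o2343, o2357, l9416, l9564, l9577, l1137, o4389, l5268, l5274, l9567, o26, l9580, l9389, l3308, l3268, l9576, l2757, l3813, l9388, o4091, o4083, o4065, l2789, l9405, l4517, o5897, o2617, l5267, l9390, l4533, o6289, o4002] l9581 := rupP (by decide +kernel)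
theorem r9582 : PImp [l3342, l3341, o8462, l2316, o5402, l1779, l3351] l9582 := rupP (by decide +kernel)
theorem r9583 : PImp [l7703, l3008, l1218, l425, l3006, l428, l5269, l1412, l1210, l328, l2615, o876, l8571, l9438, o5101, l6124, o6616, l3003, o6749, l2617] l9583 := rupP (by decide +kernel)
theorem r9584 : PImp [l9272, l9275, l8654, l9285] l9584 := rupP (by decide +kernel)
theorem r9585 : PImp [l7703, l9272, l2994, o2551, l2993, o2549, l9243, l2989, o2525, l2991, o2527, l328, o2488, l3090, l3089, l1242, l4229, l4228, l5035, l4116, l4115, l4525, l3818, l3817, l2628, l3008, l9244, l1218, l428, l1412, l1149, l3826, o4701, l4129, l3000, l3222, l3849, l3830, l5622, l3113, l3111, l3114, l9273, l404, l2808, l2990, l9248, l2814, l2250, l4221, l1210, o4710, l2809, l4238, l4132, l9582, l9581, o2343, l3142, l3129, l2641, l2640, o3556, l4219, l425, l3006, l3341, l3340, l2996, l2992, o4452, o4481, o4456, l2771, o4239, l8710, l3811, l3813, l9274, l9345, l4087, l3303, l8855, l6625, l7426, l9292, l6709, o4083, l4066, l3996, o4213, l3969, l4027, l3288, l3283, l3284, l9514, o6308,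 o6012, o4215, o937, o6013, l3953, l3797, o4794, o4510, o4315, o8543, l4167, l9583, l2712, l2603, l9584, o4858, l3442, o5187, o9027, l9418] l9585 := rupP (by decide +kernel)
theorem r9586 : PImp [l4059, o3991, l7426] l9586 := rupP (by decide +kernel)
theorem r9587 : PImp [l1243, l9424, l9418, o5187] l9587 := rupP (by decide +kernel)
theorem r9588 : PImp [l1698, l9454, o5735] l9588 := rupP (by decide +kernel)
theorem r9589 : PImp [o694, o688, o714, l9588, o3756, l8445, l9432, o5735] l9589 := rupP (by decide +kernel)
theorem r9590 : PImp [l2831, l9534, l7274, l8913, l2624, o5308, o5317, l3168, l3591] l9590 := rupP (by decide +kernel)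
theorem r9591 : PImp [l8403, l1506, l3537, l2624, l3875, l3874] l9591 := rupP (by decide +kernel)
theorem r9592 : PImp [l1210, o4710, l4238, l4260, l3008, l1218, l425, l3007, l3006, l428, l1412, l3935, l9243, l2985, l9590, l2850, l9591, o5317, o4757, l9464, l3559, l4453] l9592 := rupP (by decide +kernel)
theorem r9593 : PImp [l3008, l1218, l1149, l428, l5269, l425, l3007, l5274, l9462, l2712, l5268, l1243, l1242, l3006, l1412, l1150, l3934, l2628, l2627, l9243, l9589, l2477, l4280, o695, l2269, o690, l9592, o3438, o3439, l9428, l9427, l9441] l9593 := rupP (by decide +kernel)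
theorem r9594 : PImp [l1243, l1242, o694, o688, o714, l9588, o3438, o3010, o3756, l8445, o5298, o5735, l9479, l7293] l9594 := rupP (by decide +kernel)
theorem r9595 : PImp [l9243, l2991, l9244, l3008, l1218, l1149, l428, l5269, l425, l3007, l3826, o4701, l5622, l4221, l2641, l2992, l3811, l5274, l9462, l2712, l1210, o4710, l4238, l4167, l3813, l2628, o3464, l4208, l9494, l5268, l1242, l4209, l2640, l4219, l3830, l1412, l1150, l3935, l473, l476, l2627, l2988, l2556, l9303, l8906, o5838, l2571, o801, l4598, l2708, l9593, l9594, l2477, l4280, l4260, o695, l2269, l9498, l2850, o3039, l9591, o5317, o4757, l9464, l3559, l4453] l9595 := rupP (by decide +kernel)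
theorem r9596 : PImp [l7703, l328, l2713, l8383, o5819, l9435, o2924, l2574, o6497] l9596 := rupP (by decide +kernel)
theorem r9597 : PImp [l7703, l3008, l9243, l2991, l9244, l1218, l1149, l3826, o4701, l5622, l4221, l1210, o4710, l9272, l3000, l428, l1412, l2989, l3222, l3849, l3830, l3113, l3111, l3114, l9273, l2990, l404, l9248, l2809, l4238, l3340, l2628, l5035, l4129, l2808, l2814, l2250, l4132, l9582, o2343, o3556, l425, l3006, l2994, l3142, l3797, o4794, o8543, l4167, l3129, l2996, l3763, l2992, l3811, l5274, l9581, l2806, o3788, l2641, l3007, l5269, l2603, l9462, l9587, l501, l9596, l4775, l9595] l9597 := rupP (by decide +kernel)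
theorem r9598 : PImp [l2628, l9243, l3008, l2991, l9244, l1218, l1149, l3826, o4701, l5622, o3464, l4221, l4208, l9494, l1210, o4710, l4238, l2641, l4219, l3830, l425, l3007, l3935, l476, l2992, l2477, l4280, l4260, o695, l2269, l9498, l2850, o3039, l9591, o5317, o4757, l9464, l3559, l4453] l9598 := rupP (by decide +kernel)
theorem r9599 : PImp [l1243, l1242, l1698, o5325, o5735, l9503] l9599 := rupP (by decide +kernel)
theorem r9600 : PImp [l7703, l9243, l2991, l9244, l3008, l1218, l1149, l3826, o4701, l5622, l4221, l9272, l3000, l428, l1412, l2989, l3222, l3849, l3830, l3113, l3111, l3114, l9273, l5035, l2628, l4129, l404, l2808, l2990, l9248, l2814, l2250, l1210, o4710, l2809, l4238, l4132, l9582, l3129, l3142, l3303, l3340, o2343, o3556, l425, l3006, l2994, l3797, o4794, o8543, l5274, l5268, l4167, l9446, l2992, l3813, l3811, o3464, l4208, l9494, l1243, l1242, l9581, l4209, l2806, o3788, l2641, l2640, o4723, l3007, l5269, l1150, l2627, l328, l1268, l1267, l9597, l2615, o876, l9583, l501, l498, l4775, l9306, l9527, l2713, l8144, l5519, o5838, l8729, o3582, l4084,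 l4082, o9122, o8935, l9598, l4204, o694, o688, o714, l9599, l8445, l9047, l9455, o7729] l9600 := rupP (by decide +kernel)
theorem r9601 : PImp [l3226, l3875] l9601 := rupP (by decide +kernel)
theorem r9602 : PImp [l3935, l3537, l3934, l2448, l5274, l1412, l9449, o4596, o4602, l9601, l3235, l8450, o7990] l9602 := rupP (by decide +kernel)
theorem r9603 : PImp [l3935, l8913, l3537, l9602, o8160, l2624, l3168, l9601, o4602] l9603 := rupP (by decide +kernel)
theorem r9604 : PImp [l2628, l9243, l7274, l9441, l2624, l2306, l3168, l9490, l3591, o3436] l9604 := rupP (by decide +kernel)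
theorem r9605 : PImp [l1412, l3935, l3222, l2831, o3663, l9603, o5308, o5317, o4743, o4757, o4734, l9604, l3537, o7918, l3168, l2379, l4648, l8011, o2716] l9605 := rupP (by decide +kernel)
theorem r9606 : PImp [l9243, l2708, l7703, l2991, l9244, l3008, l1218, l1149, l428, l5269, l425, l3007, l3826, o4701, l5622, l4221, l2641, l2992, l3811, l5274, l9462, l2603, l2712, l1210, o4710, l9272, l3000, l1412, l2989, l3222, l3849, l3830, l3113, l3111, l3114, l9273, l2990, l404, l9248, l2809, l4238, l3340, l2628, l5035, l4129, l2808, l2814, l2250, l4132, l9582, o2343, o3556, l3006, l2994, l3142, l3797, o4794, o8543, l4167, o4788, l3129, l2996, l3763, l3813, o3464, l4208, l9494, l5268, l1242, l9581, l4209, l2806, o3788, l2640, l4219, l1150, l3935, l473, l476, l2627, l2988, l9597, l9596, l9303, l2586, o5838, l4082, l9594, l2477, l4280, l4260, l2269, o690, l9605, l2850, o3039, l9591, o5317, o4757, l9464, l3559, l4453] l9606 := rupP (by decide +kernel)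
theorem r9607 : PImp [l9243, l2850, o3039, l9591, o5317, o4757, l9464, l3559, l4453] l9607 := rupP (by decide +kernel)
theorem r9608 : PImp [l9243, l2992, l3811, l2628, l3008, l2991, l9244, l1218, l1149, l3826, o4701, l5622, o3464, l4221, l4208, l9494, l5274, l1210, o4710, l4238, l4209, l2641, l4219, l3830, l2989, l3222, l3849, l425, l3007, l3006, l428, l1412, l3935, l476, l2477, l4280, l4260, o695, l2269, o690, l9607, o3663, l9605, l9598, l9592, l9534, l9428, l9441] l9608 := rupP (by decide +kernel)
theorem r9609 : PImp [l9243, l2708, l2991, l9244, l3008, l1218, l1149, l428, l5269, l425, l3007, l3826, o4701, l5622, l4221, l2641, l2992, l3811, l5274, l9462, l2712, l3813, l2628, o3464, l4208, l9494, l5268, l1243, l1242, l1210, o4710, l4238, l4209, l2640, l3830, l2989, l3222, l3849, l1412, l1150, l473, l2627, l2988, l9303, l2586, o5838, l4082, l9608, l4204, o694, o688, o714, l9588, o3438, o3015, o3010, o3756, l8445, o5298, o5735, o4743, l9479, l5510, l2606, l2608, l5564, l4945] l9609 := rupP (by decide +kernel)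
theorem r9610 : PImp [l7703, l9243, l2991, l9244, l3008, l1218, l1149, l428, l5269, l425, l3007, l3826, o4701, l5622, l4221, l2641, l2992, l3811, l5274, l9462, l2603, l1210, o4710, l9272, l3000, l1412, l2989, l3222, l3849, l3830, l3113, l3111, l3114, l9273, l2990, l404, l9248, l2809, l4238, l3340, l2628, l5035, l4129, l2808, l2814, l2250, l4132, l9582, o2343, o3556, l3006, l2994, l3142, l3797, o4794, o8543, l4167, o4788, l9581, l2806, o3788, l9606, l9609, l2591, l4606] l9610 := rupP (by decide +kernel)
theorem r9611 : PImp [l2556, l4598, l8906, l2571] l9611 := rupP (by decide +kernel)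
theorem r9612 : PImp [l4525, l7703, l3089, l9585, l3008, l9243, l2991, l9244, l1218, l428, l1412, l4087, l1149, o2442, l8883, l2989, l3222, l3849, l3817, l4228, o2525, l9586, l4055, l4066, l3303, l2779, l4027, o2461, l4037, l3826, o4701, l5622, l4221, l9519, l3090, o4083, l3969, l425, l3006, l9272, l2993, o2549, l5035, l4115, l2628, l4129, l3000, l3830, l3113, l3111, l3114, l9273, l404, l2808, l2990, l9248, l2814, l2250, l1210, o4710, l2809, l4238, l4132, l9582, l3129, o4078, l3975, l3283, l3287, o6307, l2996, l3341, l9274, o4213, o6012, o937, l4116, l3284, l2994, o2551, o2527, l4229, l3818, l3288, o6308, o4215, o6013, l3953, o4283, l3142, l3797, o4788, o4315, l9600, l3340, o2343, o3556, o4794, o8543, l5274, l5268, l4167, l9446, l3763, l2992, l3811, l1242, l4117, l2641, l4219, l3007, l5269, l421, l2603, l9462, l9610, l2544, l3066, l9611, l2713, l9451, l8383, l8687, o8998, o803] l9612 := rupP (by decide +kernel)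
theorem r9613 : PImp [l7703, l9243, l2991, l9244, l3008, l1218, l1149, l3826, o4701, l5622, l4221, l9272, l3000, l428, l1412, l2989, l3222, l3849, l3830, l3113, l3111, l3114, l9273, l5035, l2628, l4129, l404, l2808, l2990, l9248, l2814, l2250, l1210, o4710, l2809, l4238, l4132, l9582, l3129, l3142, l3089, l4087, o2442, l8883, l3817, l4228, o2525, l9586, l4055, l3303, l3340, o2343, o3556, l425, l3006, l2994, l4525, l3090, o4083, l3969, l4116, o4078, l3975, l3284, o2551, o2527, l4229, l3818, l3288, o6308, l2996, l3341, l9274, o4215, o6013, l3953, l3797, o4794, o8543, o4315, l2993, o2549, l4115, l3283, l3287, o6307, o4213, o6012, o937, l9585, l5274, l5268, l2779, l4027, l9519, l4167, l9446, o4283, o4788, l2992, l3813, l3811, o3464, l4208, l9494, l4037, o2461, l4066, l1243, l1242, l9581, l4209, l2806, o3788, l2641, l2640, o4723, l3007, l5269, l1150, l2627, l328, l9612, l2615, o876, l9583, l498, l9306, l9527, l2713, l8144, l5519, l2580, o5838, o3582, l4084, l4082, l9608, o8935, l4204, o694, o688, o714, l9599, o3438, o3039, l8445, l9047, o5325, o5735, o4743, l7442, l9502]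 l9613 := rupP (by decide +kernel)
theorem r9614 : PImp [l7703, l9243, l2991, l9244, o2527, l4229, l3818, l3090, l4525, l3008, l1218, l1149, l428, l1412, l4087, o2442, l8883, l2989, l3222, l3849, l3817, l4228, o2525, l9586, l4055, l425, o4078, l3975, l3288, o6308, l3287, o6307, l3826, o4701, l5622, l4221, l3303, l2779, l4027, l9519, l5035, l2628, l4129, l9272, l3000, l3830, l3113, l3111, l3114, l9273, l404, l2808, l2990, l9248, l2814, l2250, l1210, o4710, l2809, l4238, l4132, l9582, l3129, l3284, l3283, o4083, l3969, l9585, l5274, l5268, l2994, o2551, l2993, o2549, l3089, l1243, l4116, l4115, o2343, l3142, l2641, o3556, l3006, l3341, l3340, l2996, l9274, o4213, o4215, o6012, o6013, o937, l3953, l3797, o4794, o4315, o8543, l4167, l9446, l9613, l4775, l3423, l501, l9424] l9614 := rupP (by decide +kernel)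
theorem r9615 : PImp [l2628, l9243, l3008, l2991, l9244, l1218, l1149, l3826, o4701, l5622, o3464, l4221, l4208, l9494, l1210, o4710, l4238, l2641, l4219, l3830, l425, l3007, l3006, l428, l1412, l3935, l476, l2992, l2477, l4280, l4260, o695, l2269, l9607, l9484, l9592, l9428] l9615 := rupP (by decide +kernel)
theorem r9616 : PImp [l1698, l9525, o5735] l9616 := rupP (by decide +kernel)
theorem r9617 : PImp [l2708, l1243, l1242, l473, l476, l2989, l2988, l2992, l4204, o694, o688, o714, l9594, l9616, o3438, o3039, o3015, o3756, l8445, o5308, o5735, o4743, o4757, l7293, l2550, l2552, l3898, l4920, l3592, l3591] l9617 := rupP (by decide +kernel)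
theorem r9618 : PImp [l2712, l9243, l2991, l9244, l2994, l5135, o4788, l3008, l1218, l1149, l3826, o4701, l5622, l4221, l1210, o4710, l4238, l4167, l2628, o3464, l4208, l9494, l5274, l5268, l1242, l4209, l2641, l2640, l4219, l3830, l2989, l3222, l3849, l425, l3007, l3006, l428, l5269, l1412, l1150, l3935, l476, l2627, l2992, l2556, l8459, l9303, l9611, l8906, o5838, o801, l9617, l2477, l4280, l4260, l2269, o690, l9615, l9607, l9536, l9542] l9618 := rupP (by decide +kernel)
theorem r9619 : PImp [l7703, l3008, l9243, l2991, l9244, l1218, l1149, l3826, o4701, l5622, l4221, l1210, o4710, l9272, l3000, l428, l1412, l2989, l3222, l3849, l3830, l3113, l3111, l3114, l9273, l2990, l404, l9248, l2809, l4238, l2628, l5035, l4129, l2808, l2814, l2250, l4132, l9582, o2343, o3556, l3340, l425, l3006, l1277, l4167, l5274, l9581, l3142, l2806, o3788, l2641, l2640, l3007, l2712, l2603, l9618, l9596, o5407, l5515, l7458] l9619 := rupP (by decide +kernel)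
theorem r9620 : PImp [l2556, l9527, l9437, o2924, l2597, o6616, o6363] l9620 := rupP (by decide +kernel)
theorem r9621 : PImp [l9620, o5101, l6124, l2617, o6616, o2924] l9621 := rupP (by decide +kernel)
theorem r9622 : PImp [l1243, l1698, l9599, o5325, o5735, l9529] l9622 := rupP (by decide +kernel)
theorem r9623 : PImp [l2708, l2992, l4204, o694, o688, o714, l9622, l2850, o3039, o3756, l8445, o5317, o5325, o5735, o4757, l9528, l5708, l2611, l3866, l6793] l9623 := rupP (by decide +kernel)
theorem r9624 : PImp [l7703, l9243, l2991, l9244, l5035, l2628, l3008, l1218, l428, l1412, l1149, l3826, o4701, l4129, l9272, l3000, l2989, l3222, l3849, l3830, l5622, l3113, l3111, l3114, l9273, l404, l2808, l2990, l9248, l2814, l2250, l4221, l1210, o4710, l2809, l4238, l4132, l9582, l3142, l2994, l5135, o4788, l3129, l2996, l3763, l3927, o2343, o3556, l3340, l425, l3006, l1277, l4167, o3464, l4208, l9494, l5274, l5268, l1243, l1242, l9581, l4209, l2806, o3788, l2641, l2640, l4219, o4723, l3007, l5269, l1150, l3935, l476, l2627, l2992, l328, l9619, l2615, o876, l9621, l2713, l8571,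 l498, l9306, l8144, l5519, o5838, l8729, o3582, l4084, l4082, o9122, o8935, l9623, l2477, l4280, l4260, l2269, o690, l9615, l9607, l9542] l9624 := rupP (by decide +kernel)
theorem r9625 : PImp [l3927, l7703, l3008, l9243, l2991, l9244, l1218, l1149, l3826, o4701, l5622, l4221, l1210, o4710, l9272, l3000, l428, l1412, l2989, l3222, l3849, l3830, l3113, l3111, l3114, l9273, l2990, l404, l9248, l2809, l4238, l2628, l5035, l4129, l2808, l2814, l2250, l4132, l9582, o2343, o3556, l3340, l425, l3006, l1277, l4167, l5274, l1243, l3142, l3129, l2641, l9624, l4775, l3423, l501, l9424] l9625 := rupP (by decide +kernel)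
theorem r9626 : PImp [l9585, l5268, l9243, l7703, l2989, o2525, l3089, l1242, l4228, l4525, l3817, l5035, l2628, l3008, l2991, l9244, l1218, l428, l1412, l1149, l3826, o4701, l4129, l9272, l3000, l3222, l3849, l3830, l5622, l3113, l3111, l3114, l9273, l404, l2808, l2990, l9248, l2814, l2250, l4221, l1210, o4710, l2809, l4238, l4132, l9582, l9581, o2343, l3142, l3129, l2641, o3556, l425, l3006, l5269, l3340, l2994, l328, o4283, l4087, o2442, l8883, l3303, l9586, l2779, l4055, l4066, l4027, o2461, l4037, l9519, l9614, o4778, o4301, o4781, l1268, l1267, l1277, l9252, l5135, l4167, o4315, l9625, l3442, l4771, l501, l9548, l2615, o876, l8571, l9621] l9626 := rupP (by decide +kernel)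
theorem r9627 : PImp [l9243, l2991, l9244, l3008, l1218, l1149, l428, l5269, l425, l3007, l3826, o4701, l5622, l4221, l2641, l2992, l3811, l5274, l9462, l2712, l2628, o3464, l4208, l9494, l3813, l5268, l1242, l1210, o4710, l4238, l4209, l2640, l3830, l1412, l1150, l473, l2627, l2988, l2556, l9303, l9611, l8906, o5838, l2708, l9609, o801, l9608, l9594] l9627 := rupP (by decide +kernel)
theorem r9628 : PImp [l7703, l328, l2713, l9451, l9596, l8383, l1267, o5819, l9435, o2924, l3066, o6497, l8687, l4086] l9628 := rupP (by decide +kernel)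
theorem r9629 : PImp [l7703, l9272, l2993, l5035, l2628, l3008, l9243, l2991, l9244, l1218, l428, l1412, l1149, l3826, o4701, l4129, l3000, l2989, l3222, l3849, l3830, l5622, l3113, l3111, l3114, l9273, l404, l2808, l2990, l9248, l2814, l2250, l4221, l1210, o4710, l2809, l4238, l4132, l9582, l3142, l4525, l4228, l3817, o2525, l2992, l9626, l2757, l3811, l7426, o3991, l4056, l3090, l328, o2488, l6625, l411, l4055, l3969, l425, l3006, o2549, l4115, l2996, l3341, l3129, l9274, o4213, l3089, l9585, l8858, l3283, o6012, o937, l2994, l4116, l3284, o2551, o2527, l4229, l3818, l3288, o6308, o4215, o6013, l3953, l3797, l2750, o6519, l3340, o2343, o3556, o4794, o8543, o4796, l3763, l3303, o4002, l4027, l9519, o2461, l3085, l4066, l4219, l2640, l2641, l5268, l9400, l5274, l1242, l9581, l2806, o3788, l3007, l5269, l421, l2603, l9462, l9628, l8462, l501, l4775, l9627, o4291, l1268, l1267, l9595] l9629 := rupP (by decide +kernel)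
theorem r9630 : PImp [l7703, l3008, l1218, l425, l3006, l428, l5269, l1210, l328, l2556, l9620, l9621, l8633] l9630 := rupP (by decide +kernel)
theorem r9631 : PImp [l2713, l2628, l9243, l7703, l3008, l2991, l9244, l1218, l1149, l3826, o4701, l5622, o3464, l4221, l4208, l9494, l2992, l3813, l5268, l1242, l1210, o4710, l4238, l4209, l2641, l2640, l428, o4723, l3830, l2989, l3222, l3849, l425, l3007, l5269, l1412, l1150, l476, l2627, l8144, l5519, o5838, l8729, o3582, l9608, l4084, l4082, o8935, l4204, o694, o688, o714, l9599, l9047, l2850, o3039, l8445, l3160, l7442, o5317, o5325, l3545, l6793] l9631 := rupP (by decide +kernel)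
theorem r9632 : PImp [l428, l1412, l7703, l3008, l1149, l1150, l6261, l5514, l8564, l4084] l9632 := rupP (by decide +kernel)
theorem r9633 : PImp [l7703, l9272, l2993, l5035, l2628, l3008, l9243, l2991, l9244, l1218, l428, l1412, l1149, l3826, o4701, l4129, l3000, l2989, l3222, l3849, l3830, l5622, l3113, l3111, l3114, l9273, l404, l2808, l2990, l9248, l2814, l2250, l4221, l1210, o4710, l2809, l4238, l4132, l9582, l3142, l4525, l4228, l3817, o2525, l2992, l9626, l2757, l3811, l7426, o3991, l4056, l3090, l328, o2488, l6625, l411, l4055, l3969, l425, l3006, o2549, l4115, l2996, l3341, l3129, l9274, o4213, l3089, l9585, l8858, l3283, o6012, o937, l2994, l4116, l3284, o2551, o2527, l4229, l3818, l3288, o6308, o4215, o6013, l3953, l3797, l2750, o6519, o4796, l3303, o4002, l4027, l9519, o2461, l3085, l4066, l4219, l2640, l2641, l5268, l9400, l3813, l5274, l1243, l9581, l2806, o3788, l9629, l2615, o876, l9583, l501, l496, l4775, l9630, l2713, l9632, l8144, l5519, l9631, l8729, o3582, o4291, l4084, o9122, l9600, l4838] l9633 := rupP (by decide +kernel)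
theorem r9634 : PImp [l4229, l4228, l5035, l4116, l4115, l4525, l3818, l3817, l2628, l7703, l3008, l9243, l2991, l9244, l1218, l428, l1412, l1149, l3826, o4701, l4129, l9272, l3000, l2989, l3222, l3849, l3830, l5622, l3113, l3111, l3114, l9273, l404, l2808, l2990, l9248, l2814, l2250, l4221, l1210, o4710, l2809, l4238, l4132, l9582, o2343, l3142, l3129, o3556, l425, l3006, l3341, l3340, l2996, l2994, l2993, l2992, l328, l3089, l3090, o2488, o2527, o2525, o2549, o2551, l9585, l5268, l5274, l9626, l2757, l3811, l9274, l6625, l7426, o4213, l411, o4002, o3991, l4056, l4055, l3303, l8858, l3969, l4027, l3288, l3283, l3284, l9519, o6308, o6012, o4215, o937, o6013, l3953, l3797, o4794, l2750, o8543, o6519, l9633, l9446, l4771, o4911] l9634 := rupP (by decide +kernel)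
theorem r9635 : PImp [l4525, l5034, l425, l428, l9377, l9516, o4083, o4078, l4053, l3308, l3974, l3048, l4984, l7426, o3988, o4002, o5915, l3091, l5267, o2463, l4026, l4017, l4022] l9635 := rupP (by decide +kernel)
theorem r9636 : PImp [l4233, l4229, l4228, l3821, l3818, l3817, l5035, l2628, l7703, l3008, l9243, l2991, l9244, l1218, l428, l1412, l1149, l3826, o4701, l4129, l9272, l3000, l2989, l3222, l3849, l3830, l5622, l3113, l3111, l3114, l9273, l404, l2808, l2990, l9248, l2814, l2250, l4221, l1210, o4710, l2809, l4238, l4132, l9582, l9581, l4219, l425, l3006, l421, l2992, l1242, l9634, l9635, l3811, l3808, o4481, o4301, l2757, l5274, l1247, l9521, o2460, l9558, l9520] l9636 := rupP (by decide +kernel)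
theorem r9637 : PImp [l7703, l9243, l2991, l9244, l3008, l1218, l1149, l428, l5269, l425, l3007, l3826, o4701, l5622, l4221, l2641, l2992, l3811, o4389, l5274, l1138, l9462, l2712, l1210, o4710, l9272, l3000, l1412, l2989, l3222, l3849, l3830, l3113, l3111, l3114, l9273, l2990, l404, l9248, l2809, l4238, l4167, l2628, o3464, l4208, l9494, l3813, l5268, l1137, l5035, l4129, l2808, l2814, l2250, l4132, l9582, l9581, l3142, l3129, l4209, l2806, o3788, l2640, l1150, l473, l2627, l2988, l2554, l2556, l8462, l8906, l498, l2571, o801, l3431, l3435, l4598, l8902, l2708, l9608, l4204, o694, o688, o714, l9588, o3438, o3015, o3010, o3756, l8445, o5298, o5735, o4743, l9479, l5510, l7293, l2606, l2608, l5564, l4945] l9637 := rupP (by decide +kernel)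
theorem r9638 : PImp [l9628, l8383, l3435, o5826] l9638 := rupP (by decide +kernel)
theorem r9639 : PImp [l7703, l3008, l9243, l2991, l9244, l1218, l1149, l3826, o4701, l5622, l4221, l1210, o4710, l9272, l3000, l428, l1412, l2989, l3222, l3849, l3830, l3113, l3111, l3114, l9273, l2990, l404, l9248, l2809, l4238, l3340, l2628, l5035, l4129, l2808, l2814, l2250, l4132, l9582, o2343, o3556, l425, l3006, l2994, l3142, l4525, l4228, l3817, o2525, l2992, l3811, l7426, o3991, l4056, l4055, l3090, l328, o2488, l6625, l411, l3969, l4116, l3129, l3089, l9636, o4389, l8858, l3284, o2551, l2996, l3341, l9274, o2527, l4229, l3818, l3288, o6308, o4215, o6013, l3953, l3797, o4794, o8543, l4167, l3763, l2993, o2549, l4115, o4213, l3283, o6012, o937, l3303, o4002, l4027, l9519, o2461, l3085, l4066, l4219, l2640, l2641, l5268, l9400, l5274, l1138, l3007, l5269, l421, l2603, l9462, l9637, l9638] l9639 := rupP (by decide +kernel)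
theorem r9640 : PImp [l1698, o5325, o5735, l9503] l9640 := rupP (by decide +kernel)
theorem r9641 : PImp [l2628, l9243, l3008, l2991, l9244, l1218, l1149, l3826, o4701, l5622, o3464, l4221, l4208, l9494, l2992, l3811, o4389, l5274, l1138, l1210, o4710, l4238, l4209, l2641, l4219, l3830, l425, l3007, l3006, l428, l1412, l3935, l476, l2477, l4280, l4260, o690, l9598, l9607, l9534, o3663, l9441] l9641 := rupP (by decide +kernel)
theorem r9642 : PImp [l7703, l3008, l9243, l2991, l9244, l1218, l1149, l3826, o4701, l5622, l4221, l1210, o4710, l9272, l3000, l428, l1412, l2989, l3222, l3849, l3830, l3113, l3111, l3114, l9273, l2990, l404, l9248, l2809, l4238, l3340, l2628, l5035, l4129, l2808, l2814, l2250, l4132, l9582, o2343, o3556, l425, l3006, l2994, l3142, l4525, l4228, l3817, o2525, l2992, l3811, l7426, o3991, l4056, l4055, l3090, l328, o2488, l6625, l411, l3969, l4116, l3129, l3089, l9636, o4389, l8858, l3284, o2551, l2996, l3341, l9274, o2527, l4229, l3818, l3288, o6308, o4215, o6013, l3953, l3797, o4794, o8543, l4167, l3763, l2993, o2549, l4115, o4213, l3283, o6012,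 o937, o3464, l4208, l3303, o4002, l4027, l9519, l9494, o2461, l3085, l4066, l4219, l2640, l2641, l5268, l9400, l3813, l5274, l1138, l1137, l9581, l4209, l2806, o3788, l3007, l5269, l1150, l421, l473, l2627, l2988, l2712, l2603, l9462, l9639, l9638, o4291, o4764, l2554, l2556, l8462, l1268, l1267, l8906, l498, l2571, o801, l3431, l3435, l4598, l8902, l2708, l9641, o694, o688, o714, l9588, o3438, o3010, o3756, l8445, o5298, o5735, l9479, l7293] l9642 := rupP (by decide +kernel)
theorem r9643 : PImp [l2992, l4204, o694, o688, o714, l9640, o3438, o3039, l8445, l9047, o5325, o5735, o4743, l7442, l9502] l9643 := rupP (by decide +kernel)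
theorem r9644 : PImp [l7703, l9272, l2994, o2551, l9243, l2989, o2525, l2991, o2527, l328, o2488, l3090, l3089, l3008, l9244, l1218, l9636, o4389, l5274, l5268, l1138, l1137, l4229, l4228, l5035, l4116, l4525, l3818, l3817, l2628, l428, l1412, l1149, l3826, o4701, l4129, l3000, l3222, l3849, l3830, l5622, l3113, l3111, l3114, l9273, l404, l2808, l2990, l9248, l2814, l2250, l4221, l1210, o4710, l2809, l4238, l4132, l9582, l9581, o2343, l3142, l3129, l4209, l2806, o3788, l4208, l2641, l2640, o3556, l4219, o3464, o4723, l425, l3007, l3006, l5269, l1150, l3341, l3340, l2627, l2996, l2992, l3811, l3813, l9274, l9400, l6625, l7426, l411, o4002, o3991, l4056, l3303, l4055, l4066, l8858, l3969, l4027, l3288, l3284, l3085, o2461, l9519, o6308, l9494, o4215, o6013, l3953, l3797, o4796, o4794, o8543, l4167, l9642, l2615, o876, l9583, l498, l496, l3431, l3435, l9630, l2713, l9632, l8144, l5519, o5838, l8729, o3582, l4084, l4082, o9122, o8935, l9643, l9608, l9598, o4291, l1268] l9644 := rupP (by decide +kernel)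
theorem r9645 : PImp [l9588, o3438, o3010, o3756, l8445, o5298, o5735, l9479, l7293] l9645 := rupP (by decide +kernel)
theorem r9646 : PImp [l2708, l473, l476, l2989, l2988, l2992, l4204, o694, o688, o714, l9645, l9616, o3438, o3039, o3015, o3756, l8445, o5308, o5735, o4743, o4757, l7293, l2550, l2552, l3898, l4920, l3592, l3591] l9646 := rupP (by decide +kernel)
theorem r9647 : PImp [l2712, l7703, l3008, l9243, l2991, l9244, l1218, l1149, l3826, o4701, l5622, l4221, l1210, o4710, l9272, l3000, l428, l1412, l2989, l3222, l3849, l3830, l3113, l3111, l3114, l9273, l2990, l404, l9248, l2809, l4238, l2628, l5035, l4129, l2808, l2814, l2250, l4132, l9582, o2343, o3556, l3340, l425, l3006, l1277, l4167, o3464, l4208, l9494, o4767, o4389, l5274, l5268, l1138, l1137, l9581, l3142, l3129, l4209, l2806, o3788, l2641, l2640, l4219, l3007, l5269, l1150, l3935, l476, l2627, l2992, l2554, l2556, l8459, l8462, l8906, l498, l2571, o801, l3431, l3435, l4598, l8902, l9646, l2477, l4280, l4260, l2269, o690, l9615, l9607, l9536, l9542] l9647 := rupP (by decide +kernel)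
theorem r9648 : PImp [l7703, l3008, l9243, l2991, l9244, l1218, l1149, l3826, o4701, l5622, l4221, l1210, o4710, l9272, l3000, l428, l1412, l2989, l3222, l3849, l3830, l3113, l3111, l3114, l9273, l2990, l404, l9248, l2809, l4238, l2628, l5035, l4129, l2808, l2814, l2250, l4132, l9582, o2343, o3556, l3340, l425, l3006, l1277, l4167, o4389, l5274, l2641, l2640, l3007, l2712, l2603, l9647, l9596, o5407, l5515, l7458] l9648 := rupP (by decide +kernel)
theorem r9649 : PImp [l1698, l9640, o5325, o5735, l9529] l9649 := rupP (by decide +kernel)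
theorem r9650 : PImp [l2708, l2992, l4204, o694, o688, o714, l9649, l2850, o3039, o3756, l8445, o5317, o5325, o5735, o4757, l9555, l5708, l2611, l3866, l6793] l9650 := rupP (by decide +kernel)
theorem r9651 : PImp [l7703, l3008, l9243, l2991, l9244, l1218, l9636, o4389, l5274, l5268, l1138, l1137, l4525, l3818, l3817, l5035, l2628, l428, l1412, l1149, l3826, o4701, l4129, l9272, l3000, l2989, l3222, l3849, l3830, l5622, l3113, l3111, l3114, l9273, l404, l2808, l2990, l9248, l2814, l2250, l4221, l1210, o4710, l2809, l4238, l4132, l9582, l9581, o2343, l3142, l3129, l4209, l2806, o3788, l4208, l2641, l2640, o3556, l4219, o3464, o4723, l425, l3007, l3006, l5269, l1150, l3340, l3935, l476, l2627, l2996, l2994, l2992, l328, l3089, l9644, l3816, l3808, o4778, o4301, l2757, o4781, o4767, o4770, l1247, l9410, l9521, l1268, l1267, l4087, o2443, l9494, l1277, l9252, l5135, l8883, l4167, l3927, l3763, o4796, o4315, l9648, l2615, o876, l9621, l2713, l8571, l498, l3431, l3435, l9306, l8144, l5519, o5838, l8729, o3582, l4084, l4082, o9122, o8935, l9650, l2477, l4280, l4260, l2269,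 o690, l9615, l9607, l9542] l9651 := rupP (by decide +kernel)
theorem r9652 : PImp [l9377, l9516, l9635, l4053, l4054] l9652 := rupP (by decide +kernel)
theorem r9653 : PImp [l3821, l3818, l3817, l5035, l2628, l7703, l3008, l9243, l2991, l9244, l1218, l428, l1412, l1149, l3826, o4701, l4129, l9272, l3000, l2989, l3222, l3849, l3830, l5622, l3113, l3111, l3114, l9273, l404, l2808, l2990, l9248, l2814, l2250, l4221, l1210, o4710, l2809, l4238, l4132, l9582, l9581, l4219, l425, l3006, l421, l2992, l4228, l4229, l4233, l9636, l1138, o4389, l5274, l9651, l9652, l3811, l3808, o4301, l2757, l1247, l9521, o2460, l9558, l3303, l3304, l9520, l8887, l4054, o3888] l9653 := rupP (by decide +kernel)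
theorem r9654 : PImp [l2628, l5035, l7703, l3008, l9243, l2991, l9244, l1218, l428, l1412, l1149, l3826, o4701, l4129, l9272, l3000, l2989, l3222, l3849, l3830, l5622, l3113, l3111, l3114, l9273, l404, l2808, l2990, l9248, l2814, l2250, l4221, l1210, o4710, l2809, l4238, l4132, l9582, o2343, l3142, l3129, l2641, l2640, o3556, l425, l3007, l3006, l5269, l421, l3340, l2994, l3817, l3820, l9653, o26, l4433, l9563, l5268, l3357, l3384, l2771, o4389, o5401, o4887, o4860, l1242, l9562, o8543, l6257, l4167, l3927, l4189, o5187, l9277, l2712, l2603, l9584] l9654 := rupP (by decide +kernel)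
theorem r9655 : PImp [l3008, l1218, l425, l3006, l428, l1412, l8113, l9382] l9655 := rupP (by decide +kernel)
theorem r9656 : PImp [l5029, l5027] l9656 := rupP (by decide +kernel)
theorem r9657 : PImp [l9656, l3303, l8873, l9384, l5178, l2779, l4087, l4735, l3075] l9657 := rupP (by decide +kernel)
theorem r9658 : PImp [l5034, l4763, l4759, l8083, l8738, o3896, l4748] l9658 := rupP (by decide +kernel)
theorem r9659 : PImp [l4525, l5034, l4763, l3308, l4984, l7859, o4083, l5030] l9659 := rupP (by decide +kernel)
theorem r9660 : PImp [l3008, l1218, l425, l3006, l428, l1412, l9243, l2992, l4228, l9657, l3089, l3090, l8113, l9659, l9658, l5274, o4481, o4389, l3811, l9655] l9660 := rupP (by decide +kernel)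
theorem r9661 : PImp [l328, o2488, l3090, l3008, l1218, l425, l3006, l1149, l1150, l421, l9574, l9317, l9387, l9573, l9569, o4240, l9369, l5268] l9661 := rupP (by decide +kernel)
theorem r9662 : PImp [l3008, l1218, l425, l3006, l421, l428, l328, l3090, o2488, l9661, l1243, l1137, o4389, l9579, l5268, l9317, l9580] l9662 := rupP (by decide +kernel)
theorem r9663 : PImp [l3308, l4763, l3006, l9391, l9388, l9575, o4068, l2789, o5897, l3095, l5267, l713, l4998, l4533, l4542, o3866, o3872] l9663 := rupP (by decide +kernel)
theorem r9664 : PImp [l3308, l4763, l9243, l2992, l3813, l4547, l3816, o4301, l2757, l8946, l1247, l1268, o3896, l3095, l713, l4544, l7859] l9664 := rupP (by decide +kernel)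
theorem r9665 : PImp [l9243, l2641, l2640, l4129, l7703, l3008, l2991, l9244, l1218, l1149, l3826, o4701, l5622, l4221, l3830, l1210, o4710, l2989, l3222, l3849, l425, l3006, l428, l1412, l1150, l2628, l9272, l3000, l2990, l5035, l3113, l3111, l3114, l9273, l404, l2814, l2808, l9248, l2250, l2809, l4238, l4132, l9582, l9581, l9654, l4763, l9660, o26, l9662, l9389, l3308, l9664, l9388, l9575, l9663, o4091, o4083, o4072, l2789, l1243, o5897, l1137, l3095, l5267, l713, l9405, l4993, l4533, l4542, o3866, o3872] l9665 := rupP (by decide +kernel)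
theorem r9666 : PImp [l7703, l3006, l9272, l3000, l2995, l9243, l2989, l2987, l5035, l3217, l2633, l4835, o4904, o4903, l4839, l3379, l4872, l2806, l5590, o4515] l9666 := rupP (by decide +kernel)
theorem r9667 : PImp [l3935, l9243, l7703, l2991, l3008, l9244, l1218, l1210, l428, l425, l1149, l3826, o4710, o4701, l3830, o4723, l5622, l4221, l9666, l9665, l5039, l4238, l4245] l9667 := rupP (by decide +kernel)
theorem r9668 : PImp [l2556, l9285, l8655] l9668 := rupP (by decide +kernel)
theorem r9669 : PImp [l3370, l2603, l8462, l9451, l8364, o5512] l9669 := rupP (by decide +kernel)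
theorem r9670 : PImp [l3370, l2615, l9306, l8562, o5823, l2556, l8636, l9437, l4084, l2544, o8907] l9670 := rupP (by decide +kernel)
theorem r9671 : PImp [l7703, l2996, l4860, l3927, l3370, l3303, l2779, l4055, l4027, l4025, l9670, l2603, l9669, l9668, l9451, l8364, o5512] l9671 := rupP (by decide +kernel)
theorem r9672 : PImp [l4087, o2442, l9671, l4059, o3888, o6297, o6227] l9672 := rupP (by decide +kernel)
theorem r9673 : PImp [l7703, l2996, l4860, l3927, l3370, l9670, l2603, l9669, l9668, l9451, l8364, o5512] l9673 := rupP (by decide +kernel)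
theorem r9674 : PImp [l3370, l2615, l9306, l8562, o5823, l2556, l8636, l4084, l2561, o8907, l2544] l9674 := rupP (by decide +kernel)
theorem r9675 : PImp [l3303, l4059, l2786, l4031, l4034] l9675 := rupP (by decide +kernel)
theorem r9676 : PImp [l4055, l2713, l3282, l8890, o5513, l8106, l5518] l9676 := rupP (by decide +kernel)
theorem r9677 : PImp [l3303, l7703, l3000, o2555, o2563, l3090, l5035, l4115, l4525, o5169, l3008, l4970, o4393, o4492, l1145, o4498, l5269, l1412, o4495, l3007, l3006, l1243, l1242, l2996, l2993, l3129, l3142, o2343, o8834, o8543, o5488, o5494, o4970, o4979, o4934, o5362, o5356, l3370, l4860, l3927, o6519, l9672, l9674, l2603, l9675, o4078, l4055, l3975, l9673, l9519, l4027, l4031, l9676, l8462, l9668] l9677 := rupP (by decide +kernel)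
theorem r9678 : PImp [o8462, l2316, o8773, o5761, l1779, o8775] l9678 := rupP (by decide +kernel)
theorem r9679 : PImp [l2556, l8717, l8459, l4084, l4598, l7757] l9679 := rupP (by decide +kernel)
theorem r9680 : PImp [o5823, l8381, l2574, l2582] l9680 := rupP (by decide +kernel)
theorem r9681 : PImp [l3370, l7703, l1145, l2603, l9679, l9680, o5101, l9278, l8363, o6497, o6714] l9681 := rupP (by decide +kernel)
theorem r9682 : PImp [o876, l8586, o6498, o2568] l9682 := rupP (by decide +kernel)
theorem r9683 : PImp [l2561, o6363, o2924] l9683 := rupP (by decide +kernel)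
theorem r9684 : PImp [l7703, l328, o2488, l3370, l3006, l2615, l8579, l2556, l8633, o4571, l9683, o6498, l9682, o6713] l9684 := rupP (by decide +kernel)
theorem r9685 : PImp [l2556, l8717, l8655, l4084, l4598, l7757] l9685 := rupP (by decide +kernel)
theorem r9686 : PImp [l3436, l4087, o2442, l3303, l3370, l7703, l1145, l1146, l3007, l2779, l4055, l4027, l4025, l4037, l9684, l2603, l9681, l9685, l9680, o5101, l9278, l8363, o6497, o6714] l9686 := rupP (by decide +kernel)
theorem r9687 : PImp [l7703, l328, o2488, l3129, o4495, l3006, l2996, o8834, o4970, l4860, l3927, o2343, o8543, o5356, o5362, o4979, o5494, o5488, l3142, l3008, l4970, o4703, o5169, o4393, o4498, l5269, l1412, l3007, l1243, l1242, o4492, l2993, l9677, o4679, o4302, o4783, l9672, o8875, l9686, l4059, o3938, l6625] l9687 := rupP (by decide +kernel)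
theorem r9688 : PImp [l3308, l5034, l8887, l684, l4051, l4049] l9688 := rupP (by decide +kernel)
theorem r9689 : PImp [o5512, l8364] l9689 := rupP (by decide +kernel)
theorem r9690 : PImp [l7703, l328, o2488, l3090, l3089, l4525, l5034, l3370, l2993, l5035, l3308, l4056, l8710, l3993, l4061, o4855, l412, o6519, l4984, l9674, l2603, l9688, l9668, l2713, l9689, o5823, l9680, l8380, l5525, o3582, l5534] l9690 := rupP (by decide +kernel)
theorem r9691 : PImp [l3370, l2713, l9689, o5823, l9680, l8106, l5518] l9691 := rupP (by decide +kernel)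
theorem r9692 : PImp [l3370, l9674, l2603, l9691, l8462, l9668] l9692 := rupP (by decide +kernel)
theorem r9693 : PImp [l3370, l7703, l1145, l328, l2603, l9679, l2713, l9680, o5101, l8363, l8362, l4084, l9140, l7659] l9693 := rupP (by decide +kernel)
theorem r9694 : PImp [l3370, l7703, l3006, l328, l2615, l8579, l2556, l8633, o4571, l9683, l6172, l5666, o6374, o2924] l9694 := rupP (by decide +kernel)
theorem r9695 : PImp [l7703, l3006, l3007, l1145, l3927, l9690, l3303, l3370, l5035, l2995, l4872, l1146, l2993, l328, l4055, o4193, l9692, l3436, l4790, o6519, o4854, o4026, l4027, l4037, l4025, l9694, l2603, l9693, l9685, l2713, l9680, o5101, l8363, l8362, l4084, l9140, l7659] l9695 := rupP (by decide +kernel)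
theorem r9696 : PImp [l2603, l3370, l5035, l2713, l9689, o5823, l9680, l8380, l5518, o3582, l5534] l9696 := rupP (by decide +kernel)
theorem r9697 : PImp [l3370, l9674, l2603, l9696, l8462, l9668] l9697 := rupP (by decide +kernel)
theorem r9698 : PImp [o8834, o5494, l7703, l2993, l3142, l3129, o4495, l3006, l2996, o4970, l4860, l3927, o4492, l1145, o5169, l1242, l1243, l3007, o4498, l1412, l5269, l3008, l4970, o4393, o5488, o4979, o2343, o8543, o5362, o5356, l9697, o6519, o4854, l328, o2488, l9687, l9695, l4059, o3938, l6625] l9698 := rupP (by decide +kernel)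
theorem r9699 : PImp [o4498, l1412, o8834, o4970, l7703, l2993, l3142, l3129, o4495, l3006, l2996, l4860, l3927, o4492, l1145, o5169, l1242, l1243, l3007, l5269, l3008, l4970, o4393, o5488, o5494, o4979, o2343, o8543, o5362, o5356, l9697, o6519, o4344, l4087, o4693, o4943, o4318, l3436, l3303, l9698, l3075, o2449, l8096, l4029, l4025, l8553] l9699 := rupP (by decide +kernel)
theorem r9700 : PImp [l3308, l5034, l8887, l1073, o4067, o3900, o3904, l3095, l8686, l4993, l4025, l4017] l9700 := rupP (by decide +kernel)
theorem r9701 : PImp [o4498, l1412, o8834, o4970, l7703, l2993, l3142, l3129, o4495, l3006, l2996, l4860, l3927, o4492, l1145, o5169, l1242, l1243, l3007, l5269, l3008, l4970, o4393, o5488, o5494, o4979, o2343, o8543, o5362, o5356, l9697, o6519, o4344, l4087, o4693, o4943, o4318, l9699, l9690, l3075, o2463, o2449, l9700, l8713] l9701 := rupP (by decide +kernel)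
theorem r9702 : PImp [l5038, l3935, l3222, l7703, l3008, l4970, o4693, l2950, l5208, l2836, l2949, o4492, l1145, o4498, l5269, o4495, l3007, o5169, l1243, l1242, l4428, l4135, l3341, l3340, l328, l3817, l9701, l4421, l6566, l9395, l8827, l8866] l9702 := rupP (by decide +kernel)
theorem r9703 : PImp [l1412, l3089, l3090, l9658, l9659] l9703 := rupP (by decide +kernel)
theorem r9704 : PImp [l9703, l8873, l3075, l5027, l8747, o3907, l5017] l9704 := rupP (by decide +kernel)
theorem r9705 : PImp [l4763, o4072, l4548, l4512, l4993] l9705 := rupP (by decide +kernel)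
theorem r9706 : PImp [l328, l3089, l3090, o2488, l9569, l3308, l9705, l4550, o3938, l4520] l9706 := rupP (by decide +kernel)
theorem r9707 : PImp [l3129, l7703, o4495, l3006, l2996, l5038, l3935, l3222, l3008, l4970, o4693, l2950, l5208, l2836, l3341, l4135, o8834, o4970, l4860, l3927, l3340, l4428, o2343, o8543, o5356, o5362, o4979, o4943, o5494, o5488, l3142, o5169, o4393, o4492, l1145, l1146, o4498, l5269, l1412, l3007, l1243, l1242, l2993, l9697, l4790, o6519, l3430, o4854, o4344, o4318, l4087, l9702, l9704, l9706, l9575, l3075, l5672, l3303, l4547, l4549, o3907, l4535] l9707 := rupP (by decide +kernel)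
theorem r9708 : PImp [l3129, l7703, o4495, l3006, l2996, l5038, l3935, l3222, l3008, l4970, o4693, l2950, l5208, l2836, l3341, l4135, o8834, o4970, l4860, l3927, l3340, l4428, o3556, o2343, o8543, o5356, o5362, o4979, o5494, o5488, l3142, o5169, o4393, o4492, l1145, o4498, l5269, l1412, l3007, l1243, l1242, l5037, l9707, l8373, l9674, l2712, l2603, l9696, l2554, l2556, l7720, l8651, l4084, l8727, l8905] l9708 := rupP (by decide +kernel)
theorem r9709 : PImp [l2628, l3222, l7703, l9272, l2996, l9243, l2989, l2992, l3008, l3935, l3341, l3342, l9667, l5037, l5038, l4135, l4136, l5623, l2640, l2641, l5636, l6670, l3824, l4796, o4495, o4498, o4492, l3825, l3823, l4970, l3006, l1412, l1145, o4693, l2950, l5208, l2836, l3147, o5341, l9678, l3129, o8834, o5488, o4970, o5485, l4860, l9708, l3368, l4769] l9709 := rupP (by decide +kernel)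
theorem r9710 : PImp [o8585, o8574] l9710 := rupP (by decide +kernel)
theorem r9711 : PImp [l5374, l5344, l5644, l5268, l9243, l2992, l5343, o4481, l4893, l2677, l2676, l1242, o4395, l4890, l4967, l2988, l5412, l5338] l9711 := rupP (by decide +kernel)
theorem r9712 : PImp [l7703, l2994, l5795, l9252] l9712 := rupP (by decide +kernel)
theorem r9713 : PImp [l4525, o4078, o4065, l4055, l3976, l3996] l9713 := rupP (by decide +kernel)
theorem r9714 : PImp [o4574, o5823, l7977, l8384] l9714 := rupP (by decide +kernel)
theorem r9715 : PImp [l7703, l328, l2556, l9714, o5514, l9159] l9715 := rupP (by decide +kernel)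
theorem r9716 : PImp [l3370, l2603, l9715, l9689, o4574, o5823, l8243] l9716 := rupP (by decide +kernel)
theorem r9717 : PImp [l3422, l3370, l7703, l328, l9716, l2615, l7973, l2556, l8638, o4574, l9683, l8634] l9717 := rupP (by decide +kernel)
theorem r9718 : PImp [l9713, l8855] l9718 := rupP (by decide +kernel)
theorem r9719 : PImp [l7703, l328, o2488, l3090, l4525, l1138, l1137, o5196, o5197, l3007, o4244, o4401, l9717, l9718, l3308, l4060, l3976, o4078] l9719 := rupP (by decide +kernel)
theorem r9720 : PImp [l5034, o3951, l4059, l4704, l3986] l9720 := rupP (by decide +kernel)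
theorem r9721 : PImp [l3303, l9720, l4055, l2779, l6293, l4025] l9721 := rupP (by decide +kernel)
theorem r9722 : PImp [l5034, l3303, l8096, l8083, l8479, l8851, l8685] l9722 := rupP (by decide +kernel)
theorem r9723 : PImp [l7703, l3007, o4088, l9717, l5690, l4029] l9723 := rupP (by decide +kernel)
theorem r9724 : PImp [l5034, l1242, l1138, l1137, o5196, o5197, l1412, l4087, l5269, l3075, o2463, o2449, l9722, l3308, l4054, o3946, o3964, o3888, l3991, o6166, o2444, l9723, o4251, o3951, o3896, l4995, l4049] l9724 := rupP (by decide +kernel)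
theorem r9725 : PImp [o5823, l8383] l9725 := rupP (by decide +kernel)
theorem r9726 : PImp [l3370, l2603, l9715, l9725, o5514, l8368] l9726 := rupP (by decide +kernel)
theorem r9727 : PImp [l3927, l3370, l7703, l328, l9726, l2614, l2615, l8565, l2556, l8638, o4575, o5823, l9683, l8636] l9727 := rupP (by decide +kernel)
theorem r9728 : PImp [l1242, o5197, l7703, l4967, l1412, l3370, l4087, l2808, l9712, l4767, l3927, o5196, l3422, l1138, l5269, l5035, l3000, l5685, l4525, l9724, l3089, l3090, l9719, l9727, l9721, l4060, o4083, l3970, l4984] l9728 := rupP (by decide +kernel)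
theorem r9729 : PImp [l3303, o2488, l4075, l9098, l2779, l7053] l9729 := rupP (by decide +kernel)
theorem r9730 : PImp [l3303, l9729, l3075, l6290, l2779, l4039, l4070] l9730 := rupP (by decide +kernel)
theorem r9731 : PImp [l7703, l4967, l1412, l1242, l5268, l5035, l3000, l5685, o4543, o5196, l3422, l5643, l4087, o5197, l3370, l2808, l9712, l4189, l3008, o4389, l1217, l1218, o4395, l5269, l328, l9728, l9730, l3308, l702, o3888, o3900, o5929, l3082, l6290, l5267] l9731 := rupP (by decide +kernel)
theorem r9732 : PImp [l4967, l1412, l9703, l9657, l8815, l8873, l5799, l5027, o3888] l9732 := rupP (by decide +kernel)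
theorem r9733 : PImp [l3089, o2551, l7859, l9705, l4185, l4550, o4019, o6293] l9733 := rupP (by decide +kernel)
theorem r9734 : PImp [l3303, l4547, l9392] l9734 := rupP (by decide +kernel)
theorem r9735 : PImp [l3142, l7703, l2994, l5643, l4967, l1412, l4087, l1242, l5268, l5035, l3000, l5685, o4543, o5197, l3370, l2808, l9712, l3794, l3129, o5196, l3422, l3008, o4389, l1218, o4395, l1137, l2992, l9731, l3955, l3952, l9732, l8085, l3303, l3304, l3260, l3254, l9733, l9734, o3964, o3939, l8946, l4549, o4012, l5817, l3096, o2540, o6292, l4991, l4435] l9735 := rupP (by decide +kernel)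
theorem r9736 : PImp [l7703, l3006, l3927, l3370, l9726, l2614, l2615, l8565, l2556, l8638, o4575, o5823, l8636, o6478, o6363] l9736 := rupP (by decide +kernel)
theorem r9737 : PImp [l3089, l9721] l9737 := rupP (by decide +kernel)
theorem r9738 : PImp [l4967, l1412, l4087, l9737, l3075, o2463, o2449, l9722] l9738 := rupP (by decide +kernel)
theorem r9739 : PImp [l3370, l5035, l2603, l9716, l9715, l8630, l2713, o5823, l5518, l8106, l8242] l9739 := rupP (by decide +kernel)
theorem r9740 : PImp [l3422, l3370, o4543, l9739, l2615, l7973, l2556, l8638, o5823, l9224] l9740 := rupP (by decide +kernel)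
theorem r9741 : PImp [l4525, l3090, l4060, o4083, l3970, l4987] l9741 := rupP (by decide +kernel)
theorem r9742 : PImp [l4967, o4251, l1242, l1138, l1412, l4087, l5034, l9738, l3308, l9741, o2449, l4054, o3946, o3951, o3896, l3991, l4995, l4049] l9742 := rupP (by decide +kernel)
theorem r9743 : PImp [l3008, l5268, l1242, o4389, l1217, l1218, o4395, l4967, l1412, l5643, l4087, l5269, l328, l9742, l9730, l3308, l702, o3888, o3900, o5929, l3082, l6290, l5267] l9743 := rupP (by decide +kernel)
theorem r9744 : PImp [l3303, l8043, l8873, l9658] l9744 := rupP (by decide +kernel)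
theorem r9745 : PImp [l5000, l5001] l9745 := rupP (by decide +kernel)
theorem r9746 : PImp [l3308, l5034, l9745, l3089, l9657, l5027, l4999, o3946] l9746 := rupP (by decide +kernel)
theorem r9747 : PImp [l4763, o4072, l4548, l4512] l9747 := rupP (by decide +kernel)
theorem r9748 : PImp [l3308, l3089, l9745, l9747, o3946, l4550, l4516] l9748 := rupP (by decide +kernel)
theorem r9749 : PImp [l1242, l5268, l5035, l7703, l3000, l5685, o4543, o5197, l4967, l1412, l3370, l2808, o5196, l3422, l3008, o4389, l1217, l1218, o4395, l1138, l1137, l5643, l4087, l5269, l3129, l3142, l9712, l3927, l4189, l4767, l9735, l3006, o4251, l9736, l9740, l9743, l4763, l9744, l3308, l9746, l8085, l9748, o2449, l9734, l8946, l4549, o3951, o3896, l3095, l4995, l4544] l9749 := rupP (by decide +kernel)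
theorem r9750 : PImp [l7703, l9709, l5374, l9243, l2992, l5343, l5344, l5644, l5268, o4481, l4890, l4967, l1412, l4893, l2677, l2676, l1242, l2991, o4470, l4902, l5035, l9272, l3000, l5685, o4543, o5196, l3422, o5197, l3370, l485, l3222, l9711, l3503, l3507, l3498, l2671, l4903, l3477, l2998, l9749, l2631, l4846, o4905, o4907, l3413, l4187] l9750 := rupP (by decide +kernel)
theorem r9751 : PImp [l7703, l328, o2488, l3090, l3216, o5196, l3422, o5197, l3370, l1138, l1137, l3007, o4244, o4401, l9718, l9716, l2615, l7973, l2556, l8638, o4574, l8634, l2561, l2559] l9751 := rupP (by decide +kernel)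
theorem r9752 : PImp [l3927, l3216, l3370, l9726, l2614, l2615, l8565, l2556, l8638, o5823, l9437, l8636, l2559] l9752 := rupP (by decide +kernel)
theorem r9753 : PImp [l7703, l4967, l1412, l4087, l5269, l9738, l9751, l3075, o2463, o2449, l9722] l9753 := rupP (by decide +kernel)
theorem r9754 : PImp [l3303, o2488, l9098, l7053, o3959, l2779, l5863] l9754 := rupP (by decide +kernel)
theorem r9755 : PImp [l3303, l9754, l3075, l6290, l4039, l2779, l4070] l9755 := rupP (by decide +kernel)
theorem r9756 : PImp [l3927, l7703, l4967, l1412, o5196, l3422, l1138, o5197, l5269, l9752, l9753] l9756 := rupP (by decide +kernel)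
theorem r9757 : PImp [l3927, l3216, l3370, l9726, l2614, l2615, l8565, l2556, l8638, o5823, l8636, l4084, l2559, l8569] l9757 := rupP (by decide +kernel)
theorem r9758 : PImp [l7703, l4967, l1412, l5269, o4543, o5197, l1138, o4395, l3008, o4389, l1218, o5196, l3422, l9757, l1217, l1137, l4087, l328, l9744, l9755, l9756, l9738, l3006] l9758 := rupP (by decide +kernel)
theorem r9759 : PImp [l4525, l3090, l4060, o4083, l4984, l3970] l9759 := rupP (by decide +kernel)
theorem r9760 : PImp [l3216, l3422, l3370, l7703, l3007, o4088, l9739, l7973, l5690, l4029, l2615, l2556, l8638, o4574, l8634, l2561, l2559] l9760 := rupP (by decide +kernel)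
theorem r9761 : PImp [l3308, l1242, l1138, l1137, o5196, o5197, l1412, l4087, l5269, l7703, l5034, l9759, l3075, o2449, l4054, o3946, o3964, o3888, l3991, o6166, o2444, l9760, o4251, o3951, o3896, l4995, l4049] l9761 := rupP (by decide +kernel)
theorem r9762 : PImp [l3308, l7703, l3008, l5268, l1242, o4389, l1218, o4395, o4543, l5269, l9761, l702, o3888, o3900, o5929, l3082, l6290, l5267] l9762 := rupP (by decide +kernel)
theorem r9763 : PImp [l4763, l3308, l4967, l5034, l9703, l7859, l4997, l4992, l4999, o4072, l5029] l9763 := rupP (by decide +kernel)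
theorem r9764 : PImp [l3264, l3308, l7703, l4967, l1412, l1242, l5268, l5035, l3000, l5685, o4543, o5196, l3422, l3008, o4389, l1218, o4395, l1137, l5643, l4087, l2994, l9762, l4007, l3952, l9763, l8085, l9733, l9734, l3075, o2472, o3964, l8946, l4549, l3096, l8842, l9202, l4991, o3924, l4527] l9764 := rupP (by decide +kernel)
theorem r9765 : PImp [l3308, l3008, l5268, l1242, o4389, l1217, l1218, o4395, l4967, l5269, l5643, l9742, l702, o3888, o3900, o5929, l3082, l6290, l5267] l9765 := rupP (by decide +kernel)
theorem r9766 : PImp [l4763, l3308, l5034, l9745, l3089, l4997, l4992, l4999, o4072, l5029] l9766 := rupP (by decide +kernel)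
theorem r9767 : PImp [l1242, l5268, l5035, l7703, l3000, l5685, o4543, o5197, l4967, l1412, l3370, l2808, o5196, l3422, l3008, o4389, l1218, o4395, l1138, l1137, l5643, l4087, l5269, l2994, l3216, l9712, l3927, l4189, l4767, l3794, l9757, l9758, l3308, l9764, l3006, l9740, o4251, l9765, l4763, l9766, l8085, l9748, l9734, o2449, l8946, l4549, o3896, l3095, l4544, l9745] l9767 := rupP (by decide +kernel)
theorem r9768 : PImp [l3422, l3370, l7703, l328, l2603, l8606, l2556, l9714, l7190, o5514, l4084, l7976] l9768 := rupP (by decide +kernel)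
theorem r9769 : PImp [o4575, o5823, l7977, l8608] l9769 := rupP (by decide +kernel)
theorem r9770 : PImp [l3370, l7703, l328, l2603, l2711, l8606, l2554, l9769, o5407, l7190, l4082, l4602, o8866, l2708] l9770 := rupP (by decide +kernel)
theorem r9771 : PImp [l7713, l6707, l2561, l2559] l9771 := rupP (by decide +kernel)
theorem r9772 : PImp [l2556, l7713, l8638, l4084, l2559, o5823, l8569] l9772 := rupP (by decide +kernel)
theorem r9773 : PImp [l3422, l3370, l9768, l2614, l2615, l9772, l2713, l8562, l8563, l8336] l9773 := rupP (by decide +kernel)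
theorem r9774 : PImp [l7713, l4084, l6707, l2559, o5823, o3582, l8569, o8947] l9774 := rupP (by decide +kernel)
theorem r9775 : PImp [l9272, l9709, l9243, l7703, l2992, l5374, l5343, l5344, l5644, l5268, o4481, l4893, l2677, l2676, l485, l3222, l9711, l3503, l2836, l3507, l3498, l4132, l3008, l1242, o4389, l1218, o4395, l1138, l2991, o4470, l4902, l5035, l3000, l4890, l5685, o4543, o5196, o5197, o4841, o4843, o4840, l4967, l5269, l1412, l2671, l5643, l4903, o4456, l3477, o3556, l5348, l473, l2998, l2996, l2988, l3370, l3422, l2808, l4183, l9750, l671, l9767, l3129, l3127, l4846, l8600, o8462, l1594, o9163, o4894, o4905, o4907, o4326, o9087, l2528, l4445, l3413, l3137, l3765, l3463, l2662, l4776, l9773, l3141, o8525, o9074, l9770, l2614, l2615, l9774, l2713, l8562, l8563, l8336] l9775 := rupP (by decide +kernel)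
theorem r9776 : PImp [l6208, l4606, o6342, o2924] l9776 := rupP (by decide +kernel)
theorem r9777 : PImp [o4575, o5823, l9776, l2571, l8380, l2574, o9024, o3582] l9777 := rupP (by decide +kernel)
theorem r9778 : PImp [l7703, l328, l9243, l2603, l2711, l9715, l2548, l9777, o5407, l5670, l4082, l4608, l9140, o8805, l2708] l9778 := rupP (by decide +kernel)
theorem r9779 : PImp [l2556, l8638, o5823, l8636, l4084, l2559, l8569] l9779 := rupP (by decide +kernel)
theorem r9780 : PImp [o5823, l5519, l7971, o3582, l4084, o8947, o8989] l9780 := rupP (by decide +kernel)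
theorem r9781 : PImp [l5268, o4543, l7703, l4967, l5269, l1412, l2615, l9779, l9780, l6261, l2538, l4597] l9781 := rupP (by decide +kernel)
theorem r9782 : PImp [l3008, l1217, l4967, l1412, l4087, l5269, l328, l9744, l9738, l9755] l9782 := rupP (by decide +kernel)
theorem r9783 : PImp [l4525, l5034, l3308, l3089, l3090, l4060, o2569, l3989, o4083, o4140, l3970, l8265, l3320] l9783 := rupP (by decide +kernel)
theorem r9784 : PImp [l3308, o4251, l1242, l1138, l5034, l9783, o2449, l4054, o3946, o3951, o3896, l3991, l4995, l4049] l9784 := rupP (by decide +kernel)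
theorem r9785 : PImp [l3308, l3008, l5268, l1242, o4389, l1218, o4395, l1412, l4087, l5269, l9784, l702, l6566, o3888, o5929, l6290, l3082, l5267] l9785 := rupP (by decide +kernel)
theorem r9786 : PImp [l5034, l3308, l3089, l5028, l5000, o3946] l9786 := rupP (by decide +kernel)
theorem r9787 : PImp [l9786, l3075, l8753, l8938, l1247] l9787 := rupP (by decide +kernel)
theorem r9788 : PImp [o4575, l3261, l3308, o4251, l5268, l1242, o4395, l1412, l4087, l4082, l4609, l4606, l7491, l24, o6768, o8421, l9785, l9787, l1074, o6281, o6015] l9788 := rupP (by decide +kernel)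
theorem r9789 : PImp [o5823, l5518, l2708, o3582, l9788, l2571, l8380, o9024] l9789 := rupP (by decide +kernel)
theorem r9790 : PImp [l3222, l7703, l9272, l3000, l2998, l9243, l2991, l2992, l3008, l5035, l9709, l5374, l5344, l5343, l5644, l485, l3477, l5268, o4470, o4481, l4902, l4903, l4893, l4890, l2677, l4967, l5685, l5643, l2676, l2671, l1412, l5269, o4836, o4543, o4841, l4087, l1242, o5197, o5196, l1137, l1138, o4389, o4395, l1218, l1217, l9711, l4132, l4130, l3503, l3498, l3507, l2837, l2836, l9775, l3213, l3217, l2636, l2637, l4835, l9666, l4843, o8575, l4847, o8544, l3350, l3372, l3424, o4251, l39, o4905, o4907, l3347, l5160, l2808, l3441, l3425, l9252, l3516, l3927, l9781, l2603, l2711, l9778, l9715, l2548, l9782, l9789, o5407, l5670, l4082, l4608, l9140, l2708, l6179] l9790 := rupP (by decide +kernel)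
theorem r9791 : PImp [o4710, l3829, l1210] l9791 := rupP (by decide +kernel)
theorem r9792 : PImp [l495, l7703, l1145, l1210, o4555, l5723, l3423, l5035, l4834, o4557, l3370, l3000, l4844, l5272, o4543, l3216, l328, l9739, l2615, l7973, l2556, l8638, o4574, o5823, l9683, l8636] l9792 := rupP (by decide +kernel)
theorem r9793 : PImp [l5518, l6176, l5665] l9793 := rupP (by decide +kernel)
theorem r9794 : PImp [l7703, l1145, l1210, o4555, l5723, l3423, l5035, l4834, o4557, l3370, l3000, l4844, l5272, o4543, l3216, l1209, l2603, l9715, l9793, o5514, l8368] l9794 := rupP (by decide +kernel)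
theorem r9795 : PImp [l7703, l328, l2556, l8638, o4575, o5823, l9683, l8636] l9795 := rupP (by decide +kernel)
theorem r9796 : PImp [l2615, l495, l5035, l4834, l7703, l1145, o4557, l3370, o4555, l3000, l4844, l5272, o4543, l3216, l9792, l3007, o4486, l4633, l9795, l2713, l8562, l8336, o5514, l2571, l6261, l2588, o9132, o3582] l9796 := rupP (by decide +kernel)
theorem r9797 : PImp [l2615, l495, l3370, l7703, l2713, l7973, l8562, l3007, o5514, o4486, l4633, l8336, l2571, l6261, l2588, o9132, o3582] l9797 := rupP (by decide +kernel)
theorem r9798 : PImp [l5035, l4834, l7703, l9790, l5377, l9243, l2991, l5303, l480, l9791, l3826, l1145, o4557, l3370, o4555, l9272, l3000, l4844, l5272, o4543, l481, l5587, l2733, l390, l4216, l4225, l4799, l5039, l2547, l3216, l1210, l3833, l3935, l2992, l495, l487, o5462, l3470, o4843, l3808, l9794, l2615, l9797, l2556, l9779, l8638, l9796, o5823, l9224] l9798 := rupP (by decide +kernel)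
theorem r9799 : PImp [l3216, l7703, l2996, l2994, o4296, o4293, l5795, o4354, l3759] l9799 := rupP (by decide +kernel)
theorem r9800 : PImp [l3303, l5272, l9730, l9319, l6293, l8702, l4031] l9800 := rupP (by decide +kernel)
theorem r9801 : PImp [o3663, l9534, o1452, l7274, o7959, l2283, l2293, o8283] l9801 := rupP (by decide +kernel)
theorem r9802 : PImp [l3563, l3875] l9802 := rupP (by decide +kernel)
theorem r9803 : PImp [o5253, o4657, l9802, l4455, l9533] l9803 := rupP (by decide +kernel)
theorem r9804 : PImp [l5377, l4209, o690, l4210, l2269, l5039, l4280, l2477, l480, l5303, l5587, l2733, l3147, l9243, l2834, l2628, l2627, l2831, l9801, l9534, l7274, o7959, l2624, o2270, o5247, o5253, l2294, l4805, l3538, l3595, o8286, o3436] l9804 := rupP (by decide +kernel)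
theorem r9805 : PImp [l5377, l5303, l481, l480, l5587, l2733, l390, l4216, l4225, l5039, l3935, l9243, l2477, l4280, l4260, l9804, o3438, l2850, o3039, l9803, l744, l22, l3537, l2624, l3874, l3875] l9805 := rupP (by decide +kernel)
theorem r9806 : PImp [l7978, o8115] l9806 := rupP (by decide +kernel)
theorem r9807 : PImp [l7982, l5668, o5679, l750, l2305, o1538, o2270, l9806, o3754, o8650, o8267] l9807 := rupP (by decide +kernel)
theorem r9808 : PImp [l2324, o8846] l9808 := rupP (by decide +kernel)
theorem r9809 : PImp [o2270, l732, l2305, o1538, l9806, o3754, o8650, o8267] l9809 := rupP (by decide +kernel)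
theorem r9810 : PImp [l7982, o5679, l9809, l1071, o8393] l9810 := rupP (by decide +kernel)
theorem r9811 : PImp [l3308, l1145, l1210, l7117, l1073, l5034, l3095, o6034, l9096, o3947, o2449, l4995, l4045, l4049] l9811 := rupP (by decide +kernel)
theorem r9812 : PImp [l7860, l9656] l9812 := rupP (by decide +kernel)
theorem r9813 : PImp [l9734, l3075, o3907, l8842] l9813 := rupP (by decide +kernel)
theorem r9814 : PImp [l5377, l328, l9243, l2991, l5303, l480, l9791, l3826, l5272, l5587, l2733, l4799, l7840, l9730, l4231, l3820, l3303, l1145, l1210, o8866, l481, l390, l4216, l4225, l2833, l5039, l2547, l4210, l4209, l1209, l3833, l2628, l2627, l2992, o2534, l9800, l8148, l9808, o4162, o4164, l4059, l4062, l4031, l9805, l9519, o694, o714, l9810, o3756, l9047, l7978, o2339] l9814 := rupP (by decide +kernel)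
theorem r9815 : PImp [l3303, l7840, l5377, l5303, l481, l480, l5587, l2733, l390, l4216, l4225, l4799, l9243, l2991, l9791, l3826, l5272, l328, l9730, l9814, l3075, l5806, l4025, l4029] l9815 := rupP (by decide +kernel)
theorem r9816 : PImp [l5377, l9243, l2991, l5303, l480, l9791, l3826, l1145, l1209, l3833, l3303, l9815, l8043, l7860, l8873] l9816 := rupP (by decide +kernel)
theorem r9817 : PImp [o8021, o8115] l9817 := rupP (by decide +kernel)
theorem r9818 : PImp [o2270, l732, l2305, o1538, l9817, o3754, o8650, o8267] l9818 := rupP (by decide +kernel)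
theorem r9819 : PImp [l7982, o5679, l9818, l1071, o8393] l9819 := rupP (by decide +kernel)
theorem r9820 : PImp [l5377, l328, l9243, l2991, l5303, l480, l9791, l3826, l5272, l5587, l2733, l4799, l7840, l9730, l4231, l3820, l3303, l2712, l1145, l1210, o8866, l2992, l3808, l3816, l481, l390, l4216, l4225, l2834, l2833, l5039, l2547, l4210, l4209, l1209, l3833, l2628, l2627, o2534, l9800, l8148, l9808, o4162, o4164, l4059, l4062, l4031, l9805, l9519, l4204, o694, o714, l9819, o3039, o3756, l8398, l9817, l2608, o1538, l5674, l6715, l4923, o7729, o4658] l9820 := rupP (by decide +kernel)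
theorem r9821 : PImp [l3303, l7840, l5377, l5303, l481, l480, l5587, l2733, l390, l4216, l4225, l4799, l9243, l2991, l9791, l3826, l5272, l328, l9730, l9820, l3075, l5806, l4025, l4029] l9821 := rupP (by decide +kernel)
theorem r9822 : PImp [l5377, l9243, l2991, l5303, l480, l9791, l3826, l1145, l1209, l3833, l3303, l9821, l8043, l7860, l8873] l9822 := rupP (by decide +kernel)
theorem r9823 : PImp [l5377, l5303, l2712, l9243, l2992, l3808, l3816, l9816, l9822] l9823 := rupP (by decide +kernel)
theorem r9824 : PImp [l3308, l1145, l1210, l3817, l7117, l1073, l5034, l4228, l3095, o2522, o6034, o6046, o3947, o4153, l4995, l4060, o2449, l4045, l4049] l9824 := rupP (by decide +kernel)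
theorem r9825 : PImp [l7840, l5377, l9243, l7703, l2992, l5303, l3816, l481, l480, l5587, l2733, l390, l4225, l3147, l2989, l3222, l2991, l9791, l3826, l1145, l1210, l3851, l3833, l3403, l4779, l4767, l3759, o4899, o4354, l9823, l3308, l3268, l9824, l4763, l9812, l8085, l9102, l9734, l9813, o2449, o3946, l8946, o3896, l3095, l4544, l5000] l9825 := rupP (by decide +kernel)
theorem r9826 : PImp [l2628, l5377, l4210, l9243, l480, l5303, l5587, l2733, l2833, l481, l390, l4225, l9808, l4799, l3147, l5039, l2991, l9791, l3826, l1145, l1210, l3833, l2477, l4280, l4260, l9804, l8207, o3756] l9826 := rupP (by decide +kernel)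
theorem r9827 : PImp [l2628, l5377, l4210, l9243, l480, l5303, l5587, l2733, l2833, l481, l390, l4225, l9808, l3935, l2554, l2712, l2991, l9791, l3826, l1145, l1210, l2708, o8866, o5408, l4662, l7840, l2844, o5405, l4799, l3147, l5039, l2547, l4209, l2989, l3222, l3851, l1209, l3833, l2627, l9826, l4204, o694, o714, l8300, o3427, o3429, o3756, l7982, l9807, o5243, o5247, o5679, o5262, o4636, l9818, l8021, l2379, l8180] l9827 := rupP (by decide +kernel)
theorem r9828 : PImp [l3222, o3414, l7982, o5679, o5262, o4636, l9818, l750, l3160, l2379, l4273, l4950, l4949] l9828 := rupP (by decide +kernel)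
theorem r9829 : PImp [l4204, o694, o714, l9828, o3039, o3756, l8398, l9817, l2608, o1538, l5674, l6715, l4923, o7729, o4658] l9829 := rupP (by decide +kernel)
theorem r9830 : PImp [l5377, l328, l9243, l2991, l5303, l480, l9791, l3826, l5272, l5587, l2733, l4799, l3935, l2554, l2712, l1145, l1210, l2708, o8866, o5408, l2844, l4662, l7840, l3008, l1149, l9755, l4231, l5034, l3820, l3100, l3303, l2992, l3808, l3816, l481, l390, l4216, l4225, l2834, l2833, l5039, l2547, l4210, l4209, l2989, l3222, l3851, l1209, l3833, l2628, l2627, l2987, l3089, o2534, l8148, o4173, o4162, o4164, o4191, l4062, l4059, l6709, l3986, l4031, l9808, l3320, o2461, l9519, l5671, o2690, l9827, l9829, l2477, l4260, l9804, o3438, o3003, l8025, l7985, o4434] l9830 := rupP (by decide +kernel)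
theorem r9831 : PImp [l3303, l480, l5377, l5303, l5587, l2733, l3935, l2554, l2712, l9243, l2991, l9791, l3826, l1145, l1210, l2708, o8866, o5408, l4662, l7840, l2844, l481, l390, l4216, l4225, l4799, l3008, l1149, l5272, l328, l9755, l9830, l3075, l5806, l4025, l4029] l9831 := rupP (by decide +kernel)
theorem r9832 : PImp [l5377, l9243, l2991, l5303, l480, l9791, l3826, l1145, l1209, l3833, l3303, l9831, l8043, l7860, l8873] l9832 := rupP (by decide +kernel)
theorem r9833 : PImp [l5034, l7860, l7120, l5029, o3895] l9833 := rupP (by decide +kernel)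
theorem r9834 : PImp [l2554, l9243, l2708, l480, l5377, l5303, l5587, l2733, l3935, l2712, l7703, l2991, l9791, l3826, l1145, l1210, o8866, o5408, l4662, l2844, l9825, l7840, l2992, l3816, l481, l390, l4225, l3147, l2989, l3222, l3851, l3833, l4779, l4767, l3759, o4899, o4354, o5015, l9832, l3308, l3268, l9824, l4763, l9833, l8085, l9102, l9734, l9813, o2449, o3946, l8946, o3896, l3095, l4544, l5000] l9834 := rupP (by decide +kernel)
theorem r9835 : PImp [l480, l5377, l5303, l5587, l2733, l3147, l9834, l4860, l4864] l9835 := rupP (by decide +kernel)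
theorem r9836 : PImp [o694, o714, l9819, l8445, l9047, l9455, o7729] l9836 := rupP (by decide +kernel)
theorem r9837 : PImp [o5253, o4657, o8249, l4805, o1452, l3964, l4451, o8283, o2518, o4180, o6207] l9837 := rupP (by decide +kernel)
theorem r9838 : PImp [o82, o83, l9837, o4181, o7959, l3537, o920, l4805, o6105, o4449, o2632, l3874] l9838 := rupP (by decide +kernel)
theorem r9839 : PImp [o5247, o5253, o8249, l4805, o1452, o1458, l3538, l3595, o8283, l8332, o3436, o5627, o5641, o8286] l9839 := rupP (by decide +kernel)
theorem r9840 : PImp [l5377, l5303, l3935, l9243, l2624, l2283, o2270, l9839, o7959, l3537, l4805, o4449, l3874, l3872] l9840 := rupP (by decide +kernel)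
theorem r9841 : PImp [l5377, l4209, o690, l4210, l2269, o691, l4260, l5039, l4280, l2477, l9243, l480, l5303, l5587, l2733, l2834, l8185, l3147, l3934, l2831, o3667, o3663, l9840, l2379, l7274, l2448, l3570, l1510, l8453] l9841 := rupP (by decide +kernel)
theorem r9842 : PImp [l5377, l4210, l9243, l480, l5303, l5587, l2733, l2833, l481, l390, l4225, l9808, l4216, l5039, l3935, l2477, l4280, l4260, l9841, o3438, l2850, o3039, l9803, l744, l22, l3537, l2624, l3875, l3874] l9842 := rupP (by decide +kernel)
theorem r9843 : PImp [l5377, l328, l9243, l2991, l5303, l480, l9791, l3826, l5272, l5587, l2733, l4799, l3935, l2844, l4662, l7840, l9730, l4231, l3820, l3303, l2712, l1145, l1210, o8866, l2992, l3808, l3816, l481, l390, l4216, l4225, l2834, l2833, l5039, l2547, l4210, l4209, l2989, l3222, l3851, l1209, l3833, l2628, l2627, o2534, l9800, l8148, l9808, o4162, o4164, l4062, l4059, l4031, l9519, l9842, l9829, l9836] l9843 := rupP (by decide +kernel)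
theorem r9844 : PImp [l3303, l480, l5377, l5303, l5587, l2733, l3935, l4662, l7840, l2844, l481, l390, l4216, l4225, l4799, l9243, l2991, l9791, l3826, l5272, l328, l9730, l9843, l3075, l5806, l4025, l4029] l9844 := rupP (by decide +kernel)
theorem r9845 : PImp [l480, l5377, l5303, l5587, l2733, l3935, l4662, l9243, l2991, l9791, l3826, l1145, l1209, l3833, l3303, l9844, l8043, l8873, l4759, l4761] l9845 := rupP (by decide +kernel)
theorem r9846 : PImp [l9786, l9656] l9846 := rupP (by decide +kernel)
theorem r9847 : PImp [l480, l5377, l5303, l5587, l2733, l3935, l4662, l7840, l9243, l2992, l3816, l481, l390, l4225, l3147, l2989, l3222, l2991, l9791, l3826, l1145, l1210, l3851, l3833, l9845, l3308, l3268, l9824, l4763, l9846, l8085, l9102, l9734, o2449, o3946, l8946, o3896, l3095, l4544, l5000] l9847 := rupP (by decide +kernel)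
theorem r9848 : PImp [o3414, l7982, l9807, o5679, o5262, o4657, l9818, l3160, l4273, l4925, l4915] l9848 := rupP (by decide +kernel)
theorem r9849 : PImp [l4204, o694, o714, l9848, l8445, l9047, l9455, o7729] l9849 := rupP (by decide +kernel)
theorem r9850 : PImp [l5377, l5303, l3935, l480, l9243, l2624, l2283, o2270, l9839, o7959, l3537, l2305, l4805, l467, o5260, l3179, l651, o3436] l9850 := rupP (by decide +kernel)
theorem r9851 : PImp [l5377, l4209, o690, l4210, l2269, o691, l5039, l4280, l2477, l9243, l480, l5303, l5587, l2733, l2833, l481, l390, l4225, l9808, l2834, l8185, l3147, l3934, l2831, o3667, o3663, l9850, l2379, l7274, l2448, l3570, l1510, l8453] l9851 := rupP (by decide +kernel)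
theorem r9852 : PImp [l5377, l5303, l481, l480, l5587, l2733, l390, l4216, l5039, l9243, l2477, l4280, l4260, l9851, o3438, l2850, o3039, l9803, l663, l744] l9852 := rupP (by decide +kernel)
theorem r9853 : PImp [l5377, l4231, l5303, l3820, l3303, l480, l5587, l2733, l3935, l2844, l4662, l2712, l9243, l2991, l9791, l3826, l1145, l1210, o8866, l2992, l3808, l3816, l481, l390, l4216, l4225, l4799, l2834, l2833, l5039, l2547, l4210, l4209, l2989, l3222, l3851, l1209, l3833, l2628, l2627, o2534, l8148, o4162, o4164, l4062, l4059, l6709, l4031, l9808, l9519, l9852, l9829, l9849] l9853 := rupP (by decide +kernel)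
theorem r9854 : PImp [l3303, l480, l5377, l5303, l5587, l2733, l3935, l4662, l7840, l2844, l481, l390, l4216, l4225, l4799, l3008, l9243, l2991, l9791, l3826, l1149, l5272, l328, l9755, l9853, l3075, l5806, l4025, l4029] l9854 := rupP (by decide +kernel)
theorem r9855 : PImp [l480, l5377, l5303, l5587, l2733, l3935, l4662, l9243, l2991, l9791, l3826, l1145, l1209, l3833, l3303, l9854, l8043, l8873, l4759, l4761] l9855 := rupP (by decide +kernel)
theorem r9856 : PImp [l2603, l9790, l5377, l5303, l2712, l9243, l7703, l2992, l9272, l2991, l480, l9791, l3826, l5587, l2733, l3147, l9799, l3816, l2808, l1145, o4555, o4557, l5272, o4543, l481, l390, l4225, l5039, l3216, l2989, l3222, l1210, l3851, l3833, l3935, l2998, l2996, l328, l5035, l2554, l2556, l7720, l9714, l4084, l4082, l4602, l7976, l2708, o5511, o8866, l2730, l4794, o5408, l4662, l7840, l9835, l4847, o4905, o4346, l2740, l9712, l4779, l4767, l9847, l9855, l3308, l3268, l9824, l4763, l9787, l8085, l9102, l9734, o2449, o3946, l8946, o3896, l3095, l4544, l5000] l9856 := rupP (by decide +kernel)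
theorem r9857 : PImp [o2534, l4059, l8148, o4162] l9857 := rupP (by decide +kernel)
theorem r9858 : PImp [l3303, l9857, l3075, l5806, l4025, l4029] l9858 := rupP (by decide +kernel)
theorem r9859 : PImp [l3268, l9824] l9859 := rupP (by decide +kernel)
theorem r9860 : PImp [l3008, l1149, l5272, l328, l3820, l9859, l9755, l9858, l4231] l9860 := rupP (by decide +kernel)
theorem r9861 : PImp [l8873, l4759, l4761] l9861 := rupP (by decide +kernel)
theorem r9862 : PImp [l8113, l9786] l9862 := rupP (by decide +kernel)
theorem r9863 : PImp [l7840, l5034, l9861, l9862, l9657, o2449, l5029, l5050, o3895] l9863 := rupP (by decide +kernel)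
theorem r9864 : PImp [l7840, l7703, l1145, l1210, l4779, l4767, l3759, o4899, o4354, l9860, l9863, l8085, l9102, l9202] l9864 := rupP (by decide +kernel)
theorem r9865 : PImp [o5512, l2712, l4132, l5039, l3216, l7703, l3826, l1145, l1210, l3833, l3935, l3222, l2996, l2995, l2994, l5035, l2568, o815, o9166, l2544, o3852, l4610, l4605, l6179, o5408, l4662, l2844, l7840, l9864, l4885, l9712, l3447, l5249, l2746] l9865 := rupP (by decide +kernel)
theorem r9866 : PImp [l3089, o2534, o2569, l8064, l8148, l3282, o4173, o4191, l3986, o6280, l3320] l9866 := rupP (by decide +kernel)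
theorem r9867 : PImp [l3008, l1149, l5272, l328, l3820, l9859, l9860, l9755, l5034, l4231, l4086, l9866, l3075, l5806, l9319] l9867 := rupP (by decide +kernel)
theorem r9868 : PImp [l9243, l7703, l2992, l9790, l5377, l5303, l9272, l2991, l480, l9791, l3826, l5587, l2733, l3147, l9799, l3808, l3816, l9798, l5035, l4834, l1145, o4557, l3370, l2808, l1210, o4555, l5723, l3423, l3000, l4844, l4183, l481, l390, l4216, l4225, l4799, l2836, l5039, l2547, l3216, l2989, l3222, l3851, l1209, l3833, l3935, l2998, l2995, l2712, l2603, l9856, l2713, l2548, l9793, l8368, o5511, l2730, l4794, l9865, l4082, o801, o9075, l2707, o3825, o3239, l6049, o8685, o6600, l4854, o5408, o5099, o4346, l2740, l4662, l2844, l4087, l9712, l4779, l4767, l9867, l4763, l9863, l8085, l3303, l3304, l9102, l9734, o2449, o3946, l8946, o3896, l3095, l4544, l5000] l9868 := rupP (by decide +kernel)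
theorem r9869 : PImp [o2569, l8224, o5992, o6261] l9869 := rupP (by decide +kernel)
theorem r9870 : PImp [l4231, l3820, l4967, l1145, l1210, l9859, l3100, l9858, l9869, l3075, l5806, l9319] l9870 := rupP (by decide +kernel)
theorem r9871 : PImp [l3216, l7703, l2995, l2994, l5035, l4885, l9712, l3447, l5249, l2746] l9871 := rupP (by decide +kernel)
theorem r9872 : PImp [l4967, l4966, l3008, l1149, l5272, l328, o876, l9859, l9870, l9755] l9872 := rupP (by decide +kernel)
theorem r9873 : PImp [l3216, l2556, l2615, l7703, l1145, l1210, l2996, l328, l4084, l2617, o2924, l2544, o6616, o9146, o5099, l4967, l7840, l9871, l4779, l4767, l3759, o4354, l9872, l4763, l9863, l8085, l3303, l3304, l9102, l9734, l9813, o2449, o3946, l8946, o3896, l3095, l4544, l5000] l9873 := rupP (by decide +kernel)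
theorem r9874 : PImp [l3008, l1149, l5272, l328, l9859, l9860, l3303, l9755, l9514, l6709, l6293] l9874 := rupP (by decide +kernel)
theorem r9875 : PImp [l2615, l4183, l2835, l3216, l7703, l3826, l1145, l1210, l3833, l3340, l3935, l3222, l2996, l2556, l8216, l8638, o5511, l2730, l4794, l9873, l2571, l5660, l8217, o3582, o8999, o8560, o5368, l4662, l2844, l7840, l9871, l4779, l4767, l3759, o4899, o4354, l9874, l4763, l9863, l8085, l3303, l3304, l9102, l9734, l9813, o2449, o3946, l8946, o3896, l3095, l4544, l5000] l9875 := rupP (by decide +kernel)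
theorem r9876 : PImp [l4084, l8336, l8564, l2730, l2544, o5511, o9033] l9876 := rupP (by decide +kernel)
theorem r9877 : PImp [l3216, l7703, l2994, l1243, l4779, o5194, l4885, l9871, l5650] l9877 := rupP (by decide +kernel)
theorem r9878 : PImp [l2615, l5035, l4834, l7703, l3826, l1145, o4557, l3370, l9877, l1210, o4555, l5723, l3423, l3000, l4844, l3216, l3833, l9875, l2713, l6261, l9876] l9878 := rupP (by decide +kernel)
theorem r9879 : PImp [l9243, l7703, l2992, l9790, l5377, l5303, l9272, l2991, l480, l9791, l3826, l5587, l2733, l3147, l9799, l3808, l3816, l9798, l5035, l4834, l1145, o4557, l3370, l2808, l5272, o4543, l481, l390, l4216, l4225, l4799, l5039, l2547, l2632, l3216, l2989, l3222, l1210, l3851, l328, l9868, l2615, l9878, o4574, o5823, l8562, l9224, l2556, l8636, l2561, l9683, l2559] l9879 := rupP (by decide +kernel)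
theorem r9880 : PImp [l9790, l5377, l5303, l481, l480, l5587, l2733, l390, l4225, l3147, l3216, l7703, l9243, l2991, l9791, l3826, l1145, l9272, l2994, l5035, l4834, o4557, l3370, l2808, l9879, l3927, l3452, l4885, l9871, l5650] l9880 := rupP (by decide +kernel)
theorem r9881 : PImp [l2628, l5377, l4210, l9243, l480, l5303, l5587, l2733, l2833, l481, l390, l4225, l9808, l4216, l5039, l2477, l4280, l4260, l9804, o3438, l2850, o3039, l9803, l663, l744] l9881 := rupP (by decide +kernel)
theorem r9882 : PImp [l7982, o3663, l9807, o5679, l9818, l1071, o2258, o1452, o8226, o8699] l9882 := rupP (by decide +kernel)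
theorem r9883 : PImp [l9882, l8445, l9047, l9455, o7729] l9883 := rupP (by decide +kernel)
theorem r9884 : PImp [l3303, l9861, l8043] l9884 := rupP (by decide +kernel)
theorem r9885 : PImp [l4763, l7840, l5034, l9863, l9862, l9657, l3075, o2463, o2449, l8747, l5050, l5014, l2783] l9885 := rupP (by decide +kernel)
theorem r9886 : PImp [l1145, l1209, l1210, l9859, l8998, l3303, l7053, l9397] l9886 := rupP (by decide +kernel)
theorem r9887 : PImp [l3303, l1145, l1210, l4231, l9858, l8969, l9514, l3075] l9887 := rupP (by decide +kernel)
theorem r9888 : PImp [l3303, l9887, l7053, l9397] l9888 := rupP (by decide +kernel)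
theorem r9889 : PImp [l1145, l1210, l8987, l8969] l9889 := rupP (by decide +kernel)
theorem r9890 : PImp [l3820, l9886, l9888, l3308, l7117, l5034, l9889, o2463, o2449, l4054, o3969, o3978, o3896, l2787, l5659] l9890 := rupP (by decide +kernel)
theorem r9891 : PImp [l4763, l3303, l9861, l9884, l5672, o2474, l4730, l5673, l2780] l9891 := rupP (by decide +kernel)
theorem r9892 : PImp [l7840, l7703, l5035, l4117, l9862, l9001, l3075, o3906, l8747, l5015] l9892 := rupP (by decide +kernel)
theorem r9893 : PImp [l736, l2305, o2270, l6900] l9893 := rupP (by decide +kernel)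
theorem r9894 : PImp [o5627, o8201, o8283, l2283] l9894 := rupP (by decide +kernel)
theorem r9895 : PImp [o3663, l9534, o1452, l9894, o7959, o5629, o2258, o7866] l9895 := rupP (by decide +kernel)
theorem r9896 : PImp [l5039, l2477, l4280, l4260, l2269, o690, l9895, o3438, l2850, o3039, o3670, l9803, l744, l22, o5636, l2305, o2270, o7747] l9896 := rupP (by decide +kernel)
theorem r9897 : PImp [l5039, l2477, l4280, l4260, o690, l9895, o3438, l2850, o3039, l9803, l663, l744] l9897 := rupP (by decide +kernel)
theorem r9898 : PImp [l3442, o5513, o9099, o9178] l9898 := rupP (by decide +kernel)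
theorem r9899 : PImp [l736, l2305, o1538, o2270, l9817, o8267, o3754] l9899 := rupP (by decide +kernel)
theorem r9900 : PImp [o8393, l616] l9900 := rupP (by decide +kernel)
theorem r9901 : PImp [l9432, l7978, l9817, o7830] l9901 := rupP (by decide +kernel)
theorem r9902 : PImp [l736, l2305, l9899, o2270, o8650] l9902 := rupP (by decide +kernel)
theorem r9903 : PImp [l7840, l4204, o694, o714, l9901, o3427, o3429, o3754, o3756, l7982, o5243, o5247, o5679, o5262, l8021, l9902, l616, l2379, l750, l8281] l9903 := rupP (by decide +kernel)
theorem r9904 : PImp [l2628, l5377, l4210, l9243, l480, l5303, l5587, l2733, l2833, l481, l390, l4225, l9808, l2627, l3222, l9842, l9805] l9904 := rupP (by decide +kernel)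
theorem r9905 : PImp [l2628, l2627, l3222, l9904, l9852, l9881] l9905 := rupP (by decide +kernel)
theorem r9906 : PImp [o3039, o3756, l9432, l9817, l2608, o1538, l5674, l4923, l2624, o4658, o7729] l9906 := rupP (by decide +kernel)
theorem r9907 : PImp [o1538, l9902, l9817, o3754] l9907 := rupP (by decide +kernel)
theorem r9908 : PImp [l9243, l2991, l480, l5377, l5303, l9791, l3826, l481, l5587, l2733, l390, l4225, l4216, l2992, l3808, l3820, l7840, l4231, l9858, l3303, l3816, l2554, l2712, l1145, l1210, l2708, o8866, l4799, l3147, l2834, l2833, l5039, l2547, l4210, l4209, l1209, l3833, l2628, l2627, l3222, o2534, l8148, o4162, o4164, l4062, l6709, l4031, l4034, l9808, l9905, l4204, o694, o688, o714, l9903, l9906, l7982, o3663, o5679, l9907, o1452, l616, o2258, l750, o8699, o8226] l9908 := rupP (by decide +kernel)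
theorem r9909 : PImp [l7840, l5377, l5303, l481, l480, l5587, l2733, l390, l4225, l9908, l3075, l5806, l9319] l9909 := rupP (by decide +kernel)
theorem r9910 : PImp [l5034, l1145, l1210, l3308, l3268, l1073, l3095, o2522, o6034, o6046, o3947, o4153, l4995, l4060, o2449, l4049, l4045] l9910 := rupP (by decide +kernel)
theorem r9911 : PImp [l7840, l9901, o3427, o3429, o3756, l7982, o5243, o5247, o5679, o5262, o4636, l9907, l8021, l616, l2379, l750, l8180] l9911 := rupP (by decide +kernel)
theorem r9912 : PImp [l5377, l5303, l3820, l3817, l9243, l2992, l3808, l3816, l2554, l2712, l2991, l480, l9791, l3826, l1145, l1210, l2708, o8866, l7840, l481, l5587, l2733, l390, l4216, l4225, l4799, l3147, l2834, l2833, l5039, l2547, l4210, l4209, l2989, l3222, l3851, l1209, l3833, l2628, l2627, l4228, l4231, l9910, l9858, l9909, l8998, l9808, l5806, l9905, o2534, l4204, o694, o688, o714, l8148, o4162, l4062, l9675, l9911, l9906, l7982, o3663, o5679, l9907, o1452, l616, o2258, l750, o8699, o8226] l9912 := rupP (by decide +kernel)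
theorem r9913 : PImp [o8840, o6107] l9913 := rupP (by decide +kernel)
theorem r9914 : PImp [l9913, o2663, l9390, o8686, o4153, l6288, l5863, l6060] l9914 := rupP (by decide +kernel)
theorem r9915 : PImp [l3303, o1726, l3100, l7053, o3959, o4038, l5867, l3320, l728, l4234, l9914, l8479, o2449, l4076, l5863] l9915 := rupP (by decide +kernel)
theorem r9916 : PImp [l5377, l4082, l7840, l5303, l481, l480, l5587, l2733, l390, l4216, l4225, l4799, l9243, l2833, l5039, l2547, l2989, l3222, l2991, l9791, l3826, l1145, l1210, l3851, l1209, l3008, l1149, l3833, l3817, l3821, l9912, o26, o36, l9915, l3308, l8757, l4006, l3299] l9916 := rupP (by decide +kernel)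
theorem r9917 : PImp [l5377, l9243, l7703, l2992, l5303, l3816, l7840, l481, l480, l5587, l2733, l390, l4225, l3147, l2991, l9791, l3826, l1145, l1209, l1210, l3833, l4779, l4767, l9916, l4007, l9884, l3308, l9885, l8085, l9102, l3075, o2472, l9202, l4535, l4547, l2784, o3978, l2786, o3871, l8946, l4527, l3096, l4983] l9917 := rupP (by decide +kernel)
theorem r9918 : PImp [l1145, l1209, l1210, l8998, l9889, l3075, l4054, l2786, l4029, l4030] l9918 := rupP (by decide +kernel)
theorem r9919 : PImp [l7840, l3820, l9888, l3308, l9918, l706, o6669, o6393] l9919 := rupP (by decide +kernel)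
theorem r9920 : PImp [l7703, l9243, l2991, l9790, l480, l5377, l5303, l9791, o4972, o5386, o4971, o5370, o4911, l7840, l481, l5587, l2733, l390, l4216, l4225, l4799, l3147, l5039, l2547, l3216, l3826, l1145, l1209, l3833, l9272, l2996, l2994, l2992, l3816, l3808, l9917, l3403, l5795, l4864, l3417, l3457, l3447, l9712, l1247, l4865, l9919, l3951, l9891, l3308, l3265, l9892, l8964, l3075, l5672, l4535, l4533, l2786, l4547] l9920 := rupP (by decide +kernel)
theorem r9921 : PImp [l7982, l9900, l2294, l9893] l9921 := rupP (by decide +kernel)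
theorem r9922 : PImp [o3039, o3756, l7978, l2552, o2339, l5674, l3870, o4657, l1674, o7766] l9922 := rupP (by decide +kernel)
theorem r9923 : PImp [l5377, l5303, l481, l480, l5587, l2733, l390, l4225, l5806, l2628, l4210, l9243, l2833, l9808, l4231, l5034, l3100, l3303, l3820, l2554, l2712, l2708, o8866, l7840, l4799, l3147, l5039, l2547, l4209, l2627, l3222, l9905, l8148, l4204, o694, o714, o4173, o4162, o4164, o4191, l3986, l9675, l4031, l3320, o2461, l5671, l1140, l1139, o2690, l9911, l9922, o3414, l7982, l9921, o5243, o5247, o5679, o5262, o4636, l2294, l8190, l9893, o3427, l616, l8021, l2379, l750, l8180] l9923 := rupP (by decide +kernel)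
theorem r9924 : PImp [l4204, o694, o714, l9911] l9924 := rupP (by decide +kernel)
theorem r9925 : PImp [l9897, l9896] l9925 := rupP (by decide +kernel)
theorem r9926 : PImp [l5377, l4233, o1726, l5303, l3821, l2554, l2712, l9243, l2991, l480, l9791, l3826, l1145, l1210, l2708, o8866, l7840, l481, l5587, l2733, l390, l4216, l4225, l4799, l3147, l2834, l2833, l5039, l2547, l4210, l4209, l2989, l3222, l3851, l1209, l3833, l2628, l2627, l2992, l9808, l5806, l9913, l3089, l3090, o2534, o2555, l9923, l8287, l4055, o5979, l2786, l9675, l9127, o2461, l1140, l1139, l9925, l4204, o694, o714, l9924, l9922, o3414, l2831, l7982, l9921, o5679, l2294, l8190, l9893, o3427, l616, l8023, l750] l9926 := rupP (by decide +kernel)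
theorem r9927 : PImp [l3303, l5377, l5303, l3820, l7840, l481, l480, l5587, l2733, l390, l4216, l4225, l9243, l2991, l9791, l3826, l1145, l1209, l4117, l9926, l6161, l6709, l9887, o2449, l2786, l4055] l9927 := rupP (by decide +kernel)
theorem r9928 : PImp [l5377, l5303, l3821, l3817, l4602, l4082, l7840, l481, l480, l5587, l2733, l390, l4216, l4225, l4799, l9243, l2833, l5039, l2547, l2989, l3222, l2991, l9791, l3826, l1145, l1210, l3851, l1209, l3008, l1149, l3833, l9927, o26, o36, l9915] l9928 := rupP (by decide +kernel)
theorem r9929 : PImp [l4228, l9910] l9929 := rupP (by decide +kernel)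
theorem r9930 : PImp [l7840, l480, l5377, l5303, l5587, l2733, l3147, l9243, l2989, l3222, l2991, l9791, l3826, l1145, l1210, l3851, l3817, l9928, l3308, l9929, l706, o6669, o6393] l9930 := rupP (by decide +kernel)
theorem r9931 : PImp [l7703, l9243, l2991, l9790, l480, l5377, l5303, l9791, l9880, o4972, o5386, o4971, o5370, o4911, l3216, l2556, l9272, l3000, l5035, l4838, l7840, l5587, l2733, l2834, l4131, l3339, l3114, o8776, o3780, l2840, l3335, l3111, l4097, o8777, o9017, o8610, l4841, l481, l390, l4225, l3147, l3826, l1145, l1209, l1210, l3833, l2996, l2994, l2992, l4084, l9898, l4602, o3582, o9178, o5513, o5017, o5512, l3423, l9920, l3811, l3813, o4296, o4293, o4780, o4782, l5795, l4779, l4767, l3759, l7692, l9930, l4007, l9884, l9885, l8085, l9102, l3075, o2472, l9202, l4533, l2781, l5010, l4529] l9931 := rupP (by decide +kernel)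
theorem r9932 : PImp [l2579, l2602] l9932 := rupP (by decide +kernel)
theorem r9933 : PImp [l3216, l2556, l7703, l9790, l5377, l9243, l2991, l5303, l480, l9791, l3826, l1145, l1210, l9272, l2603, l9932, l4084, l9931, l9898, o5514, l4602, o9178, o3582] l9933 := rupP (by decide +kernel)
theorem r9934 : PImp [l3100, l3303, l9858, l9869, l3075, l5806, l9514] l9934 := rupP (by decide +kernel)
theorem r9935 : PImp [o2569, l4055, o4036, o6261, o6252] l9935 := rupP (by decide +kernel)
theorem r9936 : PImp [l3100, l3303, l3820, l1145, l1210, l9243, l2991, l2992, l4231, l9934, l3808, l3811, l9935, l3075, l5806, l9514] l9936 := rupP (by decide +kernel)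
theorem r9937 : PImp [l328, o2924, l3008, l1149, l3303, l3100, l9936, o36, l5862, l7053, o3959, o4038, l4039, o6261, l6288, o2626, o2568, l2779, l2789, l3299, o5875] l9937 := rupP (by decide +kernel)
theorem r9938 : PImp [l9790, l5377, l5303, l3817, l481, l480, l5587, l2733, l390, l4216, l4799, l3147, l3216, l9243, l7703, l2989, l3222, l2991, l9791, l3826, l1145, l1210, l3851, l9272, l2994, l2992, l9929, l4767, l5795, l3457, l9712, o4296, l9918, l3808] l9938 := rupP (by decide +kernel)
theorem r9939 : PImp [l7703, l328, o2924, o6731, l7840, l9790, l5377, l5303, l481, l480, l5587, l2733, l390, l4216, l4225, l4799, l9243, l5039, l2547, l2991, l9791, l3826, o876, l9937, l3308, l9938, l706, o6669, o6393] l9939 := rupP (by decide +kernel)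
theorem r9940 : PImp [l7840, l3216, l7703, l2994, l3303, l9861, l9884, l5672, l4779, l3075, l4730, l5795, l4755, o3906] l9940 := rupP (by decide +kernel)
theorem r9941 : PImp [l3265, l3216, l7703, l2994, l9885, l9892, l4767, l5795] l9941 := rupP (by decide +kernel)
theorem r9942 : PImp [l3308, l4763, l1210, l8085, l9102, l3075, o2449, l9202, l4535, l4547, o3946, l2786, o3907, o3896, l8946, l4544, l3095, l5000] l9942 := rupP (by decide +kernel)
theorem r9943 : PImp [l3308, l3216, l7703, l1209, l9942, l4779, l3447, l9712, l8964, l3075, l5672, l4535, l4533, l2786, l4547] l9943 := rupP (by decide +kernel)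
theorem r9944 : PImp [l2615, l3216, l2556, l7703, l9272, l3000, l5035, l9880, l4838, l7840, l9243, l9790, l480, l5377, l5303, l5587, l2733, l2834, l2991, l9791, o4972, l4131, l3339, l3114, o8776, o3780, l2840, l3335, o4971, l3111, l4097, o8777, o9017, o8610, l481, l390, l4225, l3147, l3826, l1145, l1209, l1210, l3833, l2994, l2992, l328, l2617, l9221, o2924, o5513, o5017, o5512, o5514, o6363, o4912, l3423, l5723, l9939, l4763, l3951, l9940, l9941, l9943, l3816, l3813, o4296, l5795, l4779, l8085, l9102, o2449, l4549, o3897, l6130, l5020] l9944 := rupP (by decide +kernel)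
theorem r9945 : PImp [o6296, l6159] l9945 := rupP (by decide +kernel)
theorem r9946 : PImp [l9858, l8132] l9946 := rupP (by decide +kernel)
theorem r9947 : PImp [l4086, l9790, l5377, l4233, l4231, l3100, o1726, l3303, o876, l5303, l3821, l3820, l2571, l2615, l481, l480, l5587, l2733, l390, l4216, l4225, l3147, l7703, l9243, l2991, l9791, l3826, l1145, l1210, l9272, l2992, l2708, l8126, l8217, o5513, l5723, l9945, o3743, l9946, l3808, o5979, l3811, o4167, l9127, l9514] l9947 := rupP (by decide +kernel)
theorem r9948 : PImp [l3303, o876, l9790, l5377, l5303, l3820, l481, l480, l5587, l2733, l390, l4216, l4225, l7703, l9243, l2991, l9791, l3826, l1145, l1210, l328, l4231, l4086, l9947, o2924, l2581, l2592, l9858, l5917, l8224, l6709, l5806] l9948 := rupP (by decide +kernel)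
theorem r9949 : PImp [l4076, l5863] l9949 := rupP (by decide +kernel)
theorem r9950 : PImp [l4741, l4747] l9950 := rupP (by decide +kernel)
theorem r9951 : PImp [l9790, l5377, l5303, l481, l480, l5587, l2733, l390, l4216, l4799, l9243, l5039, l2547, l7703, l2991, l9791, l3826, l1145, l1209, l3008, l1149, l3303, l9948, l7053, o3959, l9949, l3075, o2449, l4039, l5655, l6288, o3906, o3897] l9951 := rupP (by decide +kernel)
theorem r9952 : PImp [l9243, l9790, l480, l5377, l5303, l5587, l2733, l2834, l7703, l2991, l9791, l9880, o4972, l4131, l3339, l3114, l9272, l3000, l5035, l4838, o8776, o3780, l2840, l3826, l1145, l1210, o5513, o5512, o5514, o4912, l5723, l9938] l9952 := rupP (by decide +kernel)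
theorem r9953 : PImp [l2571, l3216, l2556, l9222, l8126, o9167, l5768, l2592] l9953 := rupP (by decide +kernel)
theorem r9954 : PImp [l9272, l9790, l480, l5377, l5303, l5587, l2733, l3147, l481, l390, l4225, l7703, l9243, l2991, l9791, l9880, o4972, l4131, l3339, l3114, l3000, l5035, l4838, o8776, l2840, l2615, l9944, l9953, l3216, l2556, l7840, l3335, o4971, l3111, l4097, o8777, o9017, o8610, l9951, l3308, l9952, l706, o6669, o6393] l9954 := rupP (by decide +kernel)
theorem r9955 : PImp [l7703, l9862, l9941, l9657] l9955 := rupP (by decide +kernel)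
theorem r9956 : PImp [l7703, l9272, l3000, l5035, l9880, l4838, l7840, l9243, l9790, l480, l5377, l5303, l5587, l2733, l2834, l2991, l9791, o4972, l4131, l3339, l3114, o8776, o3780, l2840, l4097, l3335, o4971, l3111, o8777, o8610, l481, l390, l4225, l3147, l3216, l3826, l1145, l1209, l1210, l3833, l2994, l2992, l9933, l2615, l9944, l9953, o5513, o5512, o5514, o4912, l3423, l9954, l4007, l3951, l9940, l9955, l9943, l3816, l3813, o4296, o4293, l5795, l4779, l8085, l9102, l3075, o2472, l4533, l2781, l5010, l4529] l9956 := rupP (by decide +kernel)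
theorem r9957 : PImp [l2713, o5515, o9166, l2544, l7898, l4610, l9858] l9957 := rupP (by decide +kernel)
theorem r9958 : PImp [l2713, l7703, l328, l4084, l9957, l8367, o2924, l4608, o6768, o6585] l9958 := rupP (by decide +kernel)
theorem r9959 : PImp [l5034, l9858, l9866] l9959 := rupP (by decide +kernel)
theorem r9960 : PImp [l4231, l3820, l3008, l1149, l9243, l2991, l2992, l3089, o2569, l9959, l3808, l7963, l3811] l9960 := rupP (by decide +kernel)
theorem r9961 : PImp [l3075, o2463, o2449, l9722] l9961 := rupP (by decide +kernel)
theorem r9962 : PImp [l4086, o4974, o4971, o5513, o5017, o5814, o4912, o5375, o6615, l9960] l9962 := rupP (by decide +kernel)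
theorem r9963 : PImp [l9790, l5377, l5303, l3820, l2713, l7703, l9272, l3000, l5035, l9880, l4838, l7840, l480, l5587, l2733, l9243, l2991, l9791, o4972, l4131, l3339, l3114, o8776, l2840, l4097, l3335, o4971, l3111, o8777, o8610, l4183, l481, l390, l4216, l4225, l3147, l5039, l3826, l1145, l1209, l4231, l9958, l2571, l9961, l9962, l8366, o9147, l2707, l7037] l9963 := rupP (by decide +kernel)
theorem r9964 : PImp [l7703, l9272, l3000, l5035, l9880, l4838, l7840, l9790, l5377, l5303, l481, l480, l5587, l2733, l390, l4216, l4799, l9243, l5039, l2547, l2991, l9791, l3826, l1145, l1209, l3008, l1149, l3303, l9963, l7053, o3959, l9949, l3075, o2449, l4039, l5655, l6288, o3906, o3897] l9964 := rupP (by decide +kernel)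
theorem r9965 : PImp [l7703, l328, l4084, l8367, o2924, l4608, o6768, o6585] l9965 := rupP (by decide +kernel)
theorem r9966 : PImp [l2713, l4183, l9965, l2571, l8366, o9147, l2707, l7037] l9966 := rupP (by decide +kernel)
theorem r9967 : PImp [l9272, l9790, l5377, l5039, l5303, l481, l480, l5587, l2733, l390, l4225, l7703, l9243, l2991, l9791, l9880, o4972, l4131, l3339, l3114, l3000, l5035, l4838, o8776, l2840, l9966, l7840, l3335, o4971, l3111, l4097, o8777, o9017, l9964, l3308, l9952, l706, o6669, o6393] l9967 := rupP (by decide +kernel)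
theorem r9968 : PImp [l9956, l7703, l9272, l3000, l5035, l9880, l4838, l7840, l9243, l9790, l480, l5377, l5303, l5587, l2733, l2834, l2991, l9791, o4972, l4131, l3339, l3114, o8776, o3780, l2840, l4097, l3335, o4971, l3111, o8777, o8610, l481, l390, l4225, l3147, l5039, l3216, l3826, l1145, l1209, l1210, l3833, l2994, l2992, l2603, l9966, o5513, o5512, o5514, o4912, l3423, l9967, l4007, l3951, l9940, l9955, l9943, l3816, l3813, o4296, o4293, l5795, l4779, l8085, l9102, l3075, o2472, l4533, l2781, l5010, l4529] l9968 := rupP (by decide +kernel)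
theorem r9969 : PImp [l2615, l3216, l9790, l5377, l5303, l9243, l7703, l2991, l480, l9791, l3833, l3826, l9272, l2994, l2992, o5513, o5512, o5514, l8336, l6261, l4779, l5795, l3457, l9712, o4296, l9889, l3808] l9969 := rupP (by decide +kernel)
theorem r9970 : PImp [l4084, l2539, l8564] l9970 := rupP (by decide +kernel)
theorem r9971 : PImp [l7703, l9272, l3000, l5035, l9880, l4838, l7840, l9243, l9790, l480, l5377, l5303, l5587, l2733, l2834, l2991, l9791, o4972, l4131, l3339, l3114, o8776, o3780, l2840, l3335, o4971, l3111, l4097, o8777, o9017, o8610, l481, l390, l4216, l4225, l4799, l3147, l5039, l2547, l3216, l3826, l1145, l1209, l1210, l3833, l3935, l2996, l2994, l2992, l9956, l2713, l9968, l2615, l9970, l6261, l2588, l1243, l3431, l2577, l1137, l1138, l498, o4912, l9797, l4779, o5194, l5795, l4864, l3417, l3457, l9712, o4296, l1247, l4865, l3816, l3808, l9919, l9891, l9943, l9885] l9971 := rupP (by decide +kernel)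
theorem r9972 : PImp [l2556, l8906, l7977, l2571] l9972 := rupP (by decide +kernel)
theorem r9973 : PImp [l2603, l9972, l5518, l2591, l7491, o6768] l9973 := rupP (by decide +kernel)
theorem r9974 : PImp [l4084, l3216, l2556, l7703, l328, l9224, l8569, l9683, l2559] l9974 := rupP (by decide +kernel)
theorem r9975 : PImp [l3303, l9936, l5802, l7053] l9975 := rupP (by decide +kernel)
theorem r9976 : PImp [l3268, l3308, l1145, l1210, l5034, l4228, l9929, l1073, o4708, l3095, o2522, o6046, o4171, o4153, o4156, l4995, l4060, l4049, o2449] l9976 := rupP (by decide +kernel)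
theorem r9977 : PImp [l7840, l9243, l2989, l1145, l1210, l3851, l2991, l3817, o876, l9975, l3308, l9976, l706, o6669, o6393] l9977 := rupP (by decide +kernel)
theorem r9978 : PImp [l3308, l328, l3089, o2488, l9317, l4550, l9102, l9747, l4518, o4409, l5000, o4102] l9978 := rupP (by decide +kernel)
theorem r9979 : PImp [l4763, l3816, l4549, l3813, o4296, o3897, l6130, l5020] l9979 := rupP (by decide +kernel)
theorem r9980 : PImp [l3216, l2556, l2615, l7703, l9790, l5377, l9243, l2991, l5303, l480, l9791, l3826, l1145, o4574, l9272, l3000, l5035, l9880, l4838, l7840, l5587, l2733, o4972, l4131, l3339, l3114, o8776, l2840, l3335, o4971, l3111, l4097, o8777, o9017, o8610, l481, l390, l4216, l4225, l4799, l3147, l5039, l2547, l2989, l3222, l1210, l3851, l1209, l5272, l3833, l2992, l4084, l9974, o5827, o5826, o5825, o9076, l3452, l3435, l3431, l2544, l4775, l4771, l2562, l2561, l3006, o6478, o4474, o6363, o6731, l9977, l9884, l4007, l3308, l9885, l8043, l9978, l3075, o2472, o2449, l9979, l9942, l4535, l9202, l2767, o3924, l4547, l8946, l4527, o3964, l3096, l4991] l9980 :=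 rupP (by decide +kernel)
theorem r9981 : PImp [l2615, l9790, l480, l5377, l5303, l5587, l2733, l7703, l9243, l2991, l9791, l9880, o4972, l4131, l3339, l3114, l9272, l3000, l5035, l4838, o8776, l2840, l4841, l481, l390, l4225, l3216, l3826, l5272, l2995, l2556, l9980, l2571, l8636, o9167, l2707, o3239, l2576, l6140] l9981 := rupP (by decide +kernel)
theorem r9982 : PImp [l9790, l480, l5377, l5303, l5587, l2733, l7703, l9243, l2991, l9791, l9880, o4972, l4131, l3339, l3114, l9272, l3000, l5035, l4838, o8776, l2840, l3335, o4971, l3111, l4097, o8777, o9017, l481, l390, l4216, l4225, l4799, l3216, l3826, l1145, l1209, l1210, l328, l9971, o4574, l9973, l2615, l9981, l2713, l8562, l8144, l5519, l501, o3582, l3408, o9122, l4775, l4083, l7971] l9982 := rupP (by decide +kernel)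
theorem r9983 : PImp [l7978, l9817, o8150] l9983 := rupP (by decide +kernel)
theorem r9984 : PImp [l3303, l3235, l2379, l2380, l3250, l3249, l9838] l9984 := rupP (by decide +kernel)
theorem r9985 : PImp [o8236, o8187] l9985 := rupP (by decide +kernel)
theorem r9986 : PImp [l7978, l9985, o7903, o7850] l9986 := rupP (by decide +kernel)
theorem r9987 : PImp [o3648, l9817, l2606, o7777, o8119] l9987 := rupP (by decide +kernel)
theorem r9988 : PImp [o3428, o3756, o3757, l9984] l9988 := rupP (by decide +kernel)
theorem r9989 : PImp [l9986, l2550, l9988, l9432, l9987] l9989 := rupP (by decide +kernel)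
theorem r9990 : PImp [l3222, o3414, o3663, l1279, l4803, o1452, o7959, l3595, l9894, o8283, o5637, l9117, l2293, l2307] l9990 := rupP (by decide +kernel)
theorem r9991 : PImp [l2554, l2550, l2551, l2552, o2339, o2340, l9990, o3438, l3611, l3915, l3914] l9991 := rupP (by decide +kernel)
theorem r9992 : PImp [o7777, o8119] l9992 := rupP (by decide +kernel)
theorem r9993 : PImp [o3648, o3646, o3647, l9991, o8000, l2606, l2608, l9992, l4468, l4465] l9993 := rupP (by decide +kernel)
theorem r9994 : PImp [l3222, l3235, l2379, l2380, l9990] l9994 := rupP (by decide +kernel)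
theorem r9995 : PImp [o3648, o3647, l5728, l2550, l2551, o7777, l3914, l5680, l3605, l3611] l9995 := rupP (by decide +kernel)
theorem r9996 : PImp [o3643, l9817, l2608, l4918, l4924] l9996 := rupP (by decide +kernel)
theorem r9997 : PImp [o8866, l4204, o694, o688, o714, l9883, l9986, l2552, o2339, l9996, o3756, l7982, l9907, l616] l9997 := rupP (by decide +kernel)
theorem r9998 : PImp [o714, l7982, l9432, o3756] l9998 := rupP (by decide +kernel)
theorem r9999 : PImp [l9243, l2708, l3935, l3934, l2628, o3427, o3752, o3756, l9994, l2620, l7987, l2469, o2712, l5893, o4273, l4653, l3576, o7871, o8205] l9999 := rupP (by decide +kernel)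
theorem r10000 : PImp [l2708, l3222, l9989, l9993] l10000 := rupP (by decide +kernel)
theorem r10001 : PImp [l2628, l5377, l4210, l9243, l480, l5303, l5587, l2733, l2833, l481, l390, l4225, l9808, l2708, l2554, l2712, l1412, l4216, l4799, l3147, l2834, l5039, l2547, l4209, l3935, l3934, l2627, o5285, o5286, o5287, o5290, l9997, l2477, l4280, l4260, o699, o695, o690, l9999, o3648, o3647, l10000, l8027, l7985, o4273, l8911, l9817, o8000, l2550, l2551, l3915, l3611] l10001 := rupP (by decide +kernel)
theorem r10002 : PImp [l8332, l634] l10002 := rupP (by decide +kernel)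
theorem r10003 : PImp [l2554, l5377, l5303, l2712, l9243, l2991, l480, l9791, l3826, l1145, l1210, l2708, o8866, l328, l1412, l433, l9109, l481, l5587, l2733, l390, l4216, l4799, l3147, l5039, l2547, l4210, l1209, l3833, l1139, l10001, o5680, o5679, o5590, o5589, l9998, l2477, l4280, o691, l10002, o3755, l9432, l8310, l9995] l10003 := rupP (by decide +kernel)
theorem r10004 : PImp [l3234, l9992, l4580, l3611, l3892, l3893] l10004 := rupP (by decide +kernel)
theorem r10005 : PImp [o3648, o3645, o3647, l10004, l2550, l1510, o8000, l3930, l5872, l8911, l4473] l10005 := rupP (by decide +kernel)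
theorem r10006 : PImp [l9994, l10002, l7987, o4646, o4631, o2712, o2714, l4653, l3613, l4458] l10006 := rupP (by decide +kernel)
theorem r10007 : PImp [l5377, l4209, o690, l4210, l2269, o691, l4260, l5039, l4280, l2477, l480, l5303, l5587, l2733, l3147, l9243, l2834, l3935, l3934, l2628, l2627, l3222, l2383, l2379, l4580, l9840, l2452, l2448, o8770, o8286, o7959, o5637] l10007 := rupP (by decide +kernel)
theorem r10008 : PImp [o4271, l4653, l3613, l4458] l10008 := rupP (by decide +kernel)
theorem r10009 : PImp [l5377, l4209, o690, l4210, o695, o699, o691, l4260, l5039, l4280, l2477, o4295, l2628, l9243, l480, l5303, l5587, l2733, l2833, l481, l390, l4225, l9808, l2708, l1412, l4216, l4799, l3147, l2834, l2547, l3935, l3934, l3222, l9989, l10005, o3427, o3428, o3754, o3756, o3757, o3755, l10006, l10007, l2620, l7987, o2712, o2714, l10008, o4649, l737, l1092] l10009 := rupP (by decide +kernel)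
theorem r10010 : PImp [l9986, l9987, l2550] l10010 := rupP (by decide +kernel)
theorem r10011 : PImp [l3234, l2381, l9992, l4580, l2827, l3611, l1091, l3893, o7749, o4656] l10011 := rupP (by decide +kernel)
theorem r10012 : PImp [o3648, o3645, o3647, l10010, l10011, l2550, l1510, o8000, l3930, l5872, l8911, l4473] l10012 := rupP (by decide +kernel)
theorem r10013 : PImp [l5377, l4209, o690, l4210, l2269, o691, l5039, l4280, l2477, l2628, l9243, l480, l5303, l5587, l2733, l2833, l481, l390, l4225, l9808, l3147, l2834, l3935, l3934, l2627, l3222, l2383, l2379, l4580, l9850, l2452, l2448, o8770, o8286, o7959, o5637] l10013 := rupP (by decide +kernel)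
theorem r10014 : PImp [o4295, l2628, l5377, l4210, l9243, l480, l5303, l5587, l2733, l2833, l481, l390, l4225, l9808, l2708, l2554, l2712, l4216, l4799, l3147, l2834, l5039, l2547, l4209, l3935, l3934, l2627, o5285, o5286, o5287, o5290, l9997, l2477, l4280, l4260, o691, o699, o695, o690, l10009, l10012, o3427, o3428, o3754, o3756, o3757, o3755, l10006, l10013, l2620, l7987, o2712, o2714, l10008, o4649, l737, l1092] l10014 := rupP (by decide +kernel)
theorem r10015 : PImp [o3643, l9432, l5728, l2552, o2339, o7791, o7752, l3874, l3539, o7959, l1674] l10015 := rupP (by decide +kernel)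
theorem r10016 : PImp [l5377, l5303, l9243, l2991, l480, l9791, l3826, l5039, l2547, l481, l5587, l2733, l390, l4225, l4216, l9936, l3833, l3100, l1145, l1209, l9961, o2569, l9008, l5867, l328, l1412, l433, l9109, o5096, l2989, o2525, o2534, l3089, l4231, l4228, l5034, l3303, l3820, l3817, l2554, l2712, l1210, l2708, o8866, l4799, l2833, l4210, l3222, l3851, l2628, l2627, l2992, l3816, l3808, l9858, l8064, l8148, l5956, l3986, l3287, o4162, o4164, l9950, o6046, l4062, l6709, l4031, o2465, l9808, l3074, l9519, l10003, o4289, l10014, o5680, o5679, o5682, o5585, l9998, l4260, o691, o695, l10015, o3753, o3755, l10002, l8332, o1469, o7824, o7921, o2277] l10016 := rupP (by decide +kernel)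
theorem r10017 : PImp [l10004, l3611, l4284, l3911, o4634, o7809, o7767] l10017 := rupP (by decide +kernel)
theorem r10018 : PImp [l5042, l3911, l3612, l4958] l10018 := rupP (by decide +kernel)
theorem r10019 : PImp [l9921, o3438, l2287, l10017, l10018, o4273, o7757, o7797] l10019 := rupP (by decide +kernel)
theorem r10020 : PImp [l8341, l7985, l3595, o4274, l3901] l10020 := rupP (by decide +kernel)
theorem r10021 : PImp [o7757, o7797] l10021 := rupP (by decide +kernel)
theorem r10022 : PImp [o3648, o3645, o3646, o3647, l10019, l10020, l5042, l10021, o4273, l3911, l10018, l3616] l10022 := rupP (by decide +kernel)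
theorem r10023 : PImp [l2708, l4210, l4209, l4204, o694, o714, l9997, l9986, l2550, l2551, l2552, o2338, l10022, o3427, o3756, l8341, l3599, l7982, o4657, l3870, l3871] l10023 := rupP (by decide +kernel)
theorem r10024 : PImp [l9243, l2708, l3935, l3934, l2628, o3427, o3752, o3756, l9994, l2620, l7987, l2469, o2713, l5893, o4750, o4274, o8205, l4652, l3540] l10024 := rupP (by decide +kernel)
theorem r10025 : PImp [l3222, l2379, l9994, l10004, o3438, l2850, l1509, l9803] l10025 := rupP (by decide +kernel)
theorem r10026 : PImp [l2628, l5377, l4210, l9243, l480, l5303, l5587, l2733, l2833, l481, l390, l4225, l9808, o4780, o4296, l2554, l2712, l4216, l4799, l3147, l2834, l5039, l2547, l4209, l3935, l3934, l2627, o5285, o5286, o5287, o5290, l10023, l2477, l4280, l4260, o699, o695, o690, l10024, o3648, o3643, o3645, o3647, l10025, l2550, l1510, l7978, o8000, l3930, o7694, l8911, l4473] l10026 := rupP (by decide +kernel)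
theorem r10027 : PImp [l328, l1412, l433, l5377, l9243, l2991, l5303, l480, l9791, l3826, l9109, l1145, l1209, l9961, o2569, l3100, l5039, l2547, l481, l5587, l2733, l390, l4225, l4216, l9936, l9008, o5096, l3089, l5034, l3303, l2554, l2712, l1210, l2708, o8866, l4799, l2833, l4210, l4209, l2989, l3222, l3851, l3833, l2628, l2627, l2992, l10016, l3811, l3813, o4296, o4293, l3986, l5849, o3911, o3897, l6709, l4031, l9675, l9808, o2461, l1139, l10026, o5680, o5679, o5678, o5585, l9998, l4260, o691, o690, l10015, o3756, o3757, o3755, l10002, l634, o1456, l2295, o7866, o7959, o2258] l10027 := rupP (by decide +kernel)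
theorem r10028 : PImp [l9817, l2608, o3646, l4201, l9987, l1091, l4949, l1092, o4653] l10028 := rupP (by decide +kernel)
theorem r10029 : PImp [l5042, l3234, l2468, l4935, l5876] l10029 := rupP (by decide +kernel)
theorem r10030 : PImp [o3645, o3646, l9817, l2606, l2607, l2608, o1534, l5652, l2858, o3415, l10028, l2473, l10029, l2620, l4949, o7732, o4653] l10030 := rupP (by decide +kernel)
theorem r10031 : PImp [l4204, l4231, l3303, l3820, l2712, l9243, l2991, l2992, l3816, l3808, l9858, l8148, o4164, l6709, l4031, l9808, l9519, l10030, o3756, l9985, l7982, l9907, o2339, l616] l10031 := rupP (by decide +kernel)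
theorem r10032 : PImp [l5034, l3303, l3811, o4296, l3986, l1140, l5849, o2461, o3911, l4031] l10032 := rupP (by decide +kernel)
theorem r10033 : PImp [o694, o714, l10031] l10033 := rupP (by decide +kernel)
theorem r10034 : PImp [l10011, l10004] l10034 := rupP (by decide +kernel)
theorem r10035 : PImp [o3648, o3643, o3645, l10034, l2620, l7987, l1510, l5689, l2827, l2450, o4660, o7708] l10035 := rupP (by decide +kernel)
theorem r10036 : PImp [l2628, l5377, l4210, l9243, l480, l5303, l5587, l2733, l2833, l481, l390, l4225, l9808, l10007, l10013] l10036 := rupP (by decide +kernel)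
theorem r10037 : PImp [l9243, l2989, l5377, l5303, l3222, l2991, l480, l9791, l3826, l1145, l1210, l3851, l1209, l9961, l481, l5587, l2733, l390, l4225, l4216, l3820, l4231, l2992, l3808, l9858, l3303, o2534, l8148, o4164, l4031, o2461, l1140, o4289, o4295, l2628, l4210, l2833, l6709, l9808, l2708, l1412, l4799, l3147, l2834, l5039, l2547, l4209, l3833, l3935, l3934, l2627, o5285, o5286, o5287, o5288, o5290, l10033, l2477, l4280, l4260, o691, o699, o695, o690, l10035, o3427, o3428, o3752, o3754, o3756, o3757, o3755, l10006, l10036, l2620, l7987, o2712, o2714, l10008, o4649, o7871, l737] l10037 := rupP (by decide +kernel)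
theorem r10038 : PImp [l9998, l4260, o691, l10015, o3755, l8332, o7824, o8673] l10038 := rupP (by decide +kernel)
theorem r10039 : PImp [l5377, l9243, l2991, l5303, l480, l9791, l3826, l1145, l1209, l9961, o2569, o2534, l3089, l4231, l3100, l3303, l3820, l2554, l2712, l1210, l2708, o8866, l328, l1412, l433, l9109, l481, l5587, l2733, l390, l4216, l4225, l4799, l5039, l2547, l4210, l2992, l9936, l9008, o5096, l10027, l10032, l3808, l9858, l8148, o4162, o4164, l4031, l9519, l10037, o5680, o5679, o5585, l10038, l4062] l10039 := rupP (by decide +kernel)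
theorem r10040 : PImp [l7978, l9996, l2552] l10040 := rupP (by decide +kernel)
theorem r10041 : PImp [l4204, o694, o688, o714, l9883, l10040, o3427, o3756, l8341, l7982, l9907, o4636, l616, l8180, l2379] l10041 := rupP (by decide +kernel)
theorem r10042 : PImp [o3648, o3645, o3647, l10034, l1510, l3930, l4473, l4476] l10042 := rupP (by decide +kernel)
theorem r10043 : PImp [l5377, l4209, o690, l4210, o695, o699, l4260, l5039, l2477, l2628, l9243, l480, l5303, l5587, l2733, l2833, l481, l390, l4225, l9808, l3147, l2834, l3935, l3934, l9994, l10036] l10043 := rupP (by decide +kernel)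
theorem r10044 : PImp [l9999, l1139] l10044 := rupP (by decide +kernel)
theorem r10045 : PImp [l2628, l5377, l4210, l9243, l480, l5303, l5587, l2733, l2833, l481, l390, l4225, l9808, l2708, l1412, l3147, l2834, l4209, l5039, l2477, l4280, l4260, o699, o695, o690, l10042, o3427, o3428, o3752, o3754, o3756, o3757, o3755, l10043, l2620, l7987, o2712, o2714, l10044, l10008, o4649, o7871, l737] l10045 := rupP (by decide +kernel)
theorem r10046 : PImp [l8341, l10028, l2827] l10046 := rupP (by decide +kernel)
theorem r10047 : PImp [l10029, l2471] l10047 := rupP (by decide +kernel)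
theorem r10048 : PImp [o3645, o3647, l9817, l2606, l2607, o1534, l10046, l5042, l2473, l10047, l2620, l4957, o4649, o8695, o7732] l10048 := rupP (by decide +kernel)
theorem r10049 : PImp [l328, l1412, l433, l5377, l9243, l2991, l5303, l480, l9791, l3826, l9109, o5290, o5288, o5287, o5286, o5285, l1145, l1209, l9961, o2534, l4231, l3303, l3820, l2554, l2712, l1210, l2708, o8866, l481, l5587, l2733, l390, l4216, l4225, l4799, l3147, l2834, l2833, l5039, l2547, l4210, l4209, l2989, l3222, l3851, l3833, l2628, l2627, l2992, l3816, l3808, l9858, l8148, o4162, o4164, l4062, l6709, l4031, l9808, l9519, o2461, l10045, l4204, o694, o714, l10041, l10048, o3429, o3756, l7982, l9907, o4650, l616, l3160, l3171, l4273, l4932, l4934] l10049 := rupP (by decide +kernel)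
theorem r10050 : PImp [l1244, l1140, o714, l7978, l2552, l2551, l2550, l4209, o694, l4204, l1139, l2708, l4210, l9808, l10041, l10022] l10050 := rupP (by decide +kernel)
theorem r10051 : PImp [l1145, l1210, l8969, l8855, l4055] l10051 := rupP (by decide +kernel)
theorem r10052 : PImp [l3303, l9519, l9675, l4031, l4055, l6293] l10052 := rupP (by decide +kernel)
theorem r10053 : PImp [o714, l1244, l1140, l2708, o8866, l7978, l10050, o2338] l10053 := rupP (by decide +kernel)
theorem r10054 : PImp [l4210, l9808, l1244, l1140, l2708, o8866, l4209, l4204, o694, l10041, l10053, o3427, o3756, l8341, l7982, o4636, l2294, l8180, l9893, l2379, l616] l10054 := rupP (by decide +kernel)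
theorem r10055 : PImp [l5377, l9243, l2991, l5303, l480, l9791, l3826, l1145, l1209, l9961, l328, l1412, l433, l9109, l2554, l2712, l481, l5587, l2733, l390, l4216, l4225, l4799, l3147, l2834, l2833, l5039, l2547, l4210, l4209, l2989, l3222, l1210, l3851, l3833, l3935, l3934, l2628, l2627, l2992, o5285, o5286, o5287, o5290, l10049, l3811, l3813, o4296, o4293, o4780, l1244, l1139, l10051, l9808, l10052, l10054, l2477, l4280, l4260, o699, o695, o690, l10024, o3648, o3643, o3645, o3647, l10025, l1510, o7694, l3930, o4273, l4476] l10055 := rupP (by decide +kernel)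
theorem r10056 : PImp [o2534, l3303, l3820, l3934, l9858, l8148, o4162, o4164, l4062, l4031, l9519, l9998, l4260, o691, l10015, o3755, l10002, l8332, l2447, l3541, l5893, l3903, l3232] l10056 := rupP (by decide +kernel)
theorem r10057 : PImp [l5377, l9243, l2991, l5303, l480, l9791, l3826, l1145, l1209, l9961, l4231, l4082, l2554, l2712, l1210, l328, l1412, l433, l9109, l4602, l2708, o8866, l481, l5587, l2733, l390, l4216, l4225, l4799, l2833, l5039, l2547, l4210, l4209, l2628, l2627, l2992, o6382, o6700, l10039, l10055, o5680, o5679, o5678, o5590, o5585, o5588, l10056, l3808, l4055, l3811, l3813, o4296, o4293, l1244, l1139, l8855, l10052, l9808, l9998, l4260, o691, o690, l10015, o3756, o3757, o3755, l634, o1456, l2295, o7866, o7959, o2258] l10057 := rupP (by decide +kernel)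
theorem r10058 : PImp [l5034, l3303, l9858, l8148, o4173, o4164, o4191, l3986, l4031, l3320, o2690, l5671] l10058 := rupP (by decide +kernel)
theorem r10059 : PImp [l5377, l4233, l4231, l5034, l3100, o1726, l5303, l3821, l3820, l4082, l2554, l2712, l9243, l2991, l480, l9791, l3826, l1145, l1210, l328, l1412, l433, l9109, l4602, l2708, o8866, l3935, l5587, l2733, l4664, l481, l390, l4216, l4225, l1209, l3833, l2992, l9961, l3089, o2534, o2542, l10057, l10058, l3808, o5979, l3811, o4177, o4167, o4192, l9127, l3986, o2690, l3320, o6090, o6074] l10059 := rupP (by decide +kernel)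
theorem r10060 : PImp [l3303, l8951, l5806, l3085, l4031, l6293] l10060 := rupP (by decide +kernel)
theorem r10061 : PImp [l5377, l5303, l481, l480, l5587, l2733, l390, l4216, l4225, l3147, l7703, l9243, l2991, l9791, l3826, l1145, l1209, l1210, l2992, l10059, l4618, o4293, o4327, l3808, l4864, l5956, l4767, o3895, l10060, l5745, l8979] l10061 := rupP (by decide +kernel)
theorem r10062 : PImp [l3303, l7053, o3959, l9949, l3216, l9915, l3075, l4779, l4040, l4885, l4882] l10062 := rupP (by decide +kernel)
theorem r10063 : PImp [l5377, l5303, l3821, l3817, l481, l480, l5587, l2733, l390, l4216, l4225, l4799, l3147, l9243, l2833, l5039, l2547, l7703, l2989, l3222, l2991, l9791, l3826, l1145, l1210, l3851, l1209, l3008, l1149, l3833, l3303, l10061, o26, o36, l7053, o3959, l9949, l10062, l4618, l3091, l4088, l2779, o3900, l1075, o6115, l6288] l10063 := rupP (by decide +kernel)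
theorem r10064 : PImp [l3222, l3268, l3308, l9790, l5377, l5303, l3817, o5514, l480, l5587, l2733, l7703, l9243, l2991, l9791, l9880, o4972, l4131, l3339, l3114, l9272, l3000, l5035, l4838, o8776, l2840, l3147, l2989, l3826, l1145, l1210, l3851, l2996, l4228, l9952, l4618, o4327, l4088, l4864, l4767, l1085, o2522, l3091, o6046, l4060, o4153] l10064 := rupP (by decide +kernel)
theorem r10065 : PImp [l9272, l7703, l328, l1412, l433, l3000, l5035, l9880, l4838, l9790, l5377, l9243, l2991, l5303, l480, l9791, l3826, l4841, l9109, o5513, l3423, o5514, o5017, l5587, l2733, o4972, l4131, l3339, l3114, o8776, l2840, l3335, o4971, l3111, l4097, o8777, o9017, o8610, l2996, l2994, l10063, l3308, l10064, l7117, l8757, l5861, l3310, l3311] l10065 := rupP (by decide +kernel)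
theorem r10066 : PImp [l3303, l8873, l5977, l4761, o3906, o3897] l10066 := rupP (by decide +kernel)
theorem r10067 : PImp [l3321, l4763, l3216, l7703, l2994, l3303, l3100, l5849, o4037, l5671, l10066, l8043, l5672, o6700, l4779, l4730, o2689, l5795, l5673, o3919] l10067 := rupP (by decide +kernel)
theorem r10068 : PImp [l5034, l3308, l3089, l9786, l7859] l10068 := rupP (by decide +kernel)
theorem r10069 : PImp [l5034, l4763, l3075, o2449, l8747, l5020, l5015, o3897, o3906] l10069 := rupP (by decide +kernel)
theorem r10070 : PImp [l4763, l1210, l5034, l10068, l9656, l5029, l10069, l4618, l9002, o3895, l5021, l5020] l10070 := rupP (by decide +kernel)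
theorem r10071 : PImp [o2525, l9317, l4550, l9390, o4153, o6027] l10071 := rupP (by decide +kernel)
theorem r10072 : PImp [l4007, l9790, l5377, l5303, l481, l480, l5587, l2733, l390, l4225, l3147, l7703, l9243, l2991, l9791, l3826, l1145, l1209, l3833, l9272, l2992, l9943, l3075, o2472, l3816, l5672, l3813, o4293, l4533, l2781, l5010, l4529] l10072 := rupP (by decide +kernel)
theorem r10073 : PImp [l7703, l328, l1412, l433, l9272, l3000, l5035, l9880, l4838, l9790, l5377, l9243, l2991, l5303, l480, l9791, l3826, l4841, l9109, l3216, l2556, l5587, l2733, l2834, o4972, l4131, l3339, l3114, o8776, o3780, l2840, l3335, o4971, l3111, l4097, o8777, o9017, o8610, l481, l390, l4216, l4225, l3147, l5039, l2989, l3222, l1145, l1210, l3851, l1209, l3833, l2996, l4084, l9898, l4602, o3582, o9178, o5513, o5017, o5512, o5514, l3423, l10065, l3951, l10067, l3268, l10070, o26, l10071, l10072, l4618, l8947, o4327, l4779, l4864] l10073 := rupP (by decide +kernel)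
theorem r10074 : PImp [l1412, l433, l5035, l7703, l9272, l3000, l9880, l4841, l4838, l3216, l9790, l5377, l9243, l2991, l5303, l480, l9791, l3826, l328, l2556, l9109, l10073, l7190, l2571, l2602, l7233, l7037, o9121] l10074 := rupP (by decide +kernel)
theorem r10075 : PImp [l4231, l9857, l9858, l5806, l4068, l4618, l3091, o3888, o6092, o6166] l10075 := rupP (by decide +kernel)
theorem r10076 : PImp [l3303, o2463, o2449, l9950, l728, l4024, l4048, l4020] l10076 := rupP (by decide +kernel)
theorem r10077 : PImp [l5272, o3944, l3820, l10075, l9949, l10076, l4618, l4088, o3895, l5847, l6288, l7838] l10077 := rupP (by decide +kernel)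
theorem r10078 : PImp [l3216, l7703, l1145, l1209, l2994, l3303, l5956, l10077, l4763, l10066, l9950, l8043, l5672, l4779, l5265, l4730, l5795, l6031, o3906] l10078 := rupP (by decide +kernel)
theorem r10079 : PImp [l3308, l7703, l9790, l5377, l9243, l2991, l5303, l480, l9791, l3826, l1145, l1210, o5513, l5723, l3335, l9880, o4971, l3111, l5035, l4097, l9272, l3000, l4838, o8777, o9017, l4841, l10064, l8757, l5861, l7117, l3310, l3311] l10079 := rupP (by decide +kernel)
theorem r10080 : PImp [l7703, l9790, l5377, l9243, l2991, l5303, l480, l9791, l3826, l1145, l1210, o5513, l5723, l9272, l3423, l9880, o4971, o5814, o5514, o5512, o5017, l2548, l2712, l1412, l5587, l2733, l2834, o4972, l4131, l3339, l3114, l3000, l5035, l4838, o8776, o3780, l2840, l3335, l3111, l4097, o8777, o9017, o8610, l481, l390, l4216, l4225, l4799, l3147, l5039, l2547, l2989, l3222, l3851, l3833, l4082, o6768, o8852, o8727, o8510, l3003, l4610, l4605, l10078, l3308, l3268, l10079, l3951, l10070, o26, l9943, l1074, l10071, l3091] l10080 := rupP (by decide +kernel)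
theorem r10081 : PImp [l4231, l5034, l3820, l1412, l9243, l7703, l2991, l2992, l9960, l4618, o4293, l3808, l9866, l10078] l10081 := rupP (by decide +kernel)
theorem r10082 : PImp [o6615, l7703, l1145, l1209, l4086, l10081, l5806, l4068, l9961, l4618, l3091, o3888, o6092, o6166] l10082 := rupP (by decide +kernel)
theorem r10083 : PImp [l3303, l7703, l1145, l1209, l3008, l1149, l10082, l7053, o3959, l9949, l6288, l2779, o3906, l4618, o3897, o2449, l5655] l10083 := rupP (by decide +kernel)
theorem r10084 : PImp [l4885, l4882] l10084 := rupP (by decide +kernel)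
theorem r10085 : PImp [l10080, l7703, l9790, l5377, l9243, l2991, l5303, l480, l9791, l3826, l1145, l1210, o5513, l5723, l9272, l3423, l9880, o4971, o5814, o5514, o5017, l3935, l5587, l2733, l4664, o4972, l4131, l3339, l3114, l3000, l5035, l4838, o8776, l2840, l4097, l3335, l3111, o8777, o8610, l481, l390, l4216, l4225, l4799, l3147, l5039, l2547, l3833, l10079, l10083] l10085 := rupP (by decide +kernel)
theorem r10086 : PImp [l4763, l3303, l5849, l8085, l10066] l10086 := rupP (by decide +kernel)
theorem r10087 : PImp [l10074, l2713, l1412, l9243, l9790, l480, l5377, l5303, l5587, l2733, l2834, l7703, l2991, l9791, l9880, o4972, l4131, l3339, l3114, l9272, l3000, l5035, l4838, o8776, o3780, l2840, l3335, o4971, l3111, l4097, o8777, o9017, o8610, l481, l390, l4216, l4225, l3147, l5039, l3216, l2989, l3222, l3826, l1145, l1210, l3851, l3833, l2994, l9966, o5513, o5512, o5514, l3423, l10080, l2571, o9075, l2707, l2583, l6049, l10084, l4779, l10085, l3951, l10086, l3268, l10070, o26, l10071, l10072, l4618, l8947] l10087 := rupP (by decide +kernel)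
theorem r10088 : PImp [l9982, l9790, l5377, l5303, l481, l480, l5587, l2733, l390, l4216, l4225, l4799, l7703, l9243, l2991, l9791, l3826, l1145, l2603, l10074, l10087, o4574, l5518, l9152, l2591] l10088 := rupP (by decide +kernel)
theorem r10089 : PImp [l9790, l5377, l5303, l481, l480, l5587, l2733, l390, l4216, l4225, l4799, l3147, l9243, l2834, l5039, l2547, l5035, l4097, l4131, l3114, l3111, l7703, l2991, l9791, l3826, l1145, l1209, l1210, l3833, l3339, l3335, l9272, l3000, l2996, l2994, l2993, l2992, l3216, l9880, l10088, o4971, o4972, l4838, l3927, l3470, o6762, o8777, o8776, l7840, l3452, l5795, l4864, l3457, l491, l487, o4914, l1767, o8610, o9017, l2840, o3780, o4296, l4865, l3423, l5723, l3417, l3816, l3808, l9919, l3951, l9940, l9955, l9943] l10089 := rupP (by decide +kernel)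
theorem r10090 : PImp [l9272, l9790, l480, l5377, l5303, l5587, l2733, l2837, l4130, l3113, l7703, l9243, l2991, l9791, l3338, l2998, l5035, l10089, l4846, o4965, l4850, o8774] l10090 := rupP (by decide +kernel)
theorem r10091 : PImp [l3222, l9243, l5039, l9790, l5377, l5303, l3935, l7703, l2991, l480, l9791, o4494, l4633, l3342, l4133, l1779, l3126, l4665, l4967, l481, l5587, l2733, l390, l4216, l4225, l4799, l2547, l3826, l3820, l9888, l3308, l9938, l706, o6669, l2789, l5858] l10091 := rupP (by decide +kernel)
theorem r10092 : PImp [l4763, l3303, l5849, l10086, l10066, l2783, l5672, l5673, o2474] l10092 := rupP (by decide +kernel)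
theorem r10093 : PImp [l9790, l5377, l5303, l481, l480, l5587, l2733, l390, l4216, l4225, l3147, l9243, l2834, l4133, l4131, l5039, l3114, l7703, l2991, l9791, l3826, l1145, l1209, l1210, l3833, l3342, l3339, l3935, l3222, l9272, l3000, l2996, l2994, l2993, l2992, l5035, l10090, l1412, l4834, l4967, o4494, o4972, o8776, l4633, l2840, o3780, l1779, l3126, l3140, l10088, l3927, l3470, o6762, l3452, l5795, l4864, l4885, l3457, l3408, l491, l1767, o4296, l1247, l4865, l5650, l3417, l3423, l5723, l3816, l3808, l10091, l3951, l10092, l9943, l10070] l10093 := rupP (by decide +kernel)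
theorem r10094 : PImp [l10093, l9790, l5377, l5303, l481, l480, l5587, l2733, l390, l4225, l3147, l9243, l2834, l5035, l4097, l4131, l3114, l3111, l7703, l2991, l9791, l3826, l1145, l1209, l3833, l3339, l3335, l9272, l3000, l2994, l2993, l2992, l3216, l9880, l9982, l9981, o4971, o4972, l4838, l3927, l3470, o6762, l9954, o8777, o8776, l7840, l3452, l5795, l491, l487, o4914, l1767, l3951, o8610, l2840, o3780, o4296, l1247, l3423, l3403, l9891, l3816, l3265, l9943, l9892] l10094 := rupP (by decide +kernel)
theorem r10095 : PImp [l9272, l9790, l480, l5377, l5303, l5587, l2733, l2837, l4130, l3113, l7703, l9243, l2991, l9791, l3338, l2998, l5035, l10094, l4846, o4965, l4850, o8774] l10095 := rupP (by decide +kernel)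
theorem r10096 : PImp [o876, l7703, l1412, l4967, l1145, l1210, l2996, l9243, l2991, l2992, l328, l2617, l9221, o2924, o5017, o5514, o6731, l9936, l4618, o4293, o4327, l3808, l4864, l10078, l4767, l10060] l10096 := rupP (by decide +kernel)
theorem r10097 : PImp [l2554, l9243, l5039, l9790, l5377, l5303, l3935, l7703, l2991, l480, l9791, l10095, l1412, o4494, l4633, l3342, l4133, l5587, l2733, l2834, l5035, l4834, o4972, l4131, l3339, l3114, l4967, o8776, o3780, l1779, o2388, l3222, l3126, l2840, l10093, l2615, l481, l390, l4216, l4225, l4799, l3147, l2547, l3826, l1145, l1210, l3833, l9272, l2996, l2992, l10096, l9953, l9951, o5514, l4618, o4293, o4327, l3808, l4864, l10078, l4767, l10060] l10097 := rupP (by decide +kernel)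
theorem r10098 : PImp [l2554, l9243, l5039, l9790, l5377, l5303, l3935, l7703, l2991, l480, l9791, l10095, l1412, o4494, l4633, l3342, l4133, l5587, l2733, l2834, l5035, l4834, o4972, l4131, l3339, l3114, l4967, o8776, o3780, l1779, o2388, l3222, l3126, l2840, l10093, l2615, l481, l390, l4225, l3147, l9272, l10097, l3442, o5513, l9221, l9953] l10098 := rupP (by decide +kernel)
theorem r10099 : PImp [l8636, l9974] l10099 := rupP (by decide +kernel)
theorem r10100 : PImp [l3820, l1145, l1210, l9243, l2991, l2992, l4618, o4293, l3808, l10075, l10060] l10100 := rupP (by decide +kernel)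
theorem r10101 : PImp [l7703, l1145, o4574, o876, l4084, o9076, l2544, l5704, l2562, o6478, l9975, o6731] l10101 := rupP (by decide +kernel)
theorem r10102 : PImp [l9790, l5377, l4231, l3100, l10093, o876, l5303, l3820, l2554, l9243, l5039, l3935, l7703, l2991, l480, l9791, l10095, l1412, o4494, l4633, l3342, l4133, l5587, l2733, l2834, l5035, l4834, o4972, l4131, l3339, l3114, l4967, o8776, o3780, l1779, o2388, l3222, l3126, l2840, l2615, l481, l390, l4216, l4225, l4799, l2547, l3826, l1145, l5272, l9272, o4574, l10099, o5827, o5826, o5825, l3452, l3435, l3431, l4771, l10100, l10101, l2571, l8634, l4086, o9167, l9945, o8968, l9946] l10102 := rupP (by decide +kernel)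
theorem r10103 : PImp [l2554, l9243, l5039, l9790, l5377, l5303, l3935, l7703, l2991, l480, l9791, l10095, l1412, o4494, l4633, l3342, l4133, l5587, l2733, l2834, l5035, l4834, o4972, l4131, l3339, l3114, l4967, o8776, o3780, l1779, o2388, l3222, l3126, l2840, l10093, l2615, l481, l390, l4225, l3147, l9272, l10102, l10098, l3423, o5513, l9221, l9953] l10103 := rupP (by decide +kernel)
theorem r10104 : PImp [l3303, l7053, l4618, l4088, l2779, l5847, l6288, l7838] l10104 := rupP (by decide +kernel)
theorem r10105 : PImp [l9243, l5039, l9790, l5377, l5303, l3935, l7703, l2991, l480, l9791, l10095, l1412, o4494, l4633, l4967, l481, l5587, l2733, l390, l4216, l4225, l4799, l2547, l3826, l1145, l1209, l3008, l1149, l3833, l3303, l10103, l7053, o3959, l9949, l10104, l10076, o2449, l5655] l10105 := rupP (by decide +kernel)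
theorem r10106 : PImp [l10105, l2554, l9243, l5039, l9790, l5377, l5303, l3935, l7703, l2991, l480, l9791, l10095, l1412, o4494, l4633, l3342, l4133, l5587, l2733, l2834, l5035, l4834, o4972, l4131, l3339, l3114, l4967, o8776, o3780, l1779, o2388, l3222, l3126, l2840, l10093, l2615, l481, l390, l4225, l3147, l9272, l10079, l9221, l9953] l10106 := rupP (by decide +kernel)
theorem r10107 : PImp [l3268, l3308, l1145, l1210, l4228, l9976, l1073, o2522, l3091, o6046, l4060, o4153] l10107 := rupP (by decide +kernel)
theorem r10108 : PImp [l2554, l9243, l5039, l9790, l5377, l5303, l3935, l7703, l2991, l480, l9791, l10095, l1412, o4494, l4633, l3342, l4133, l5587, l2733, l2834, l5035, l4834, o4972, l4131, l3339, l3114, l4967, o8776, o3780, l1779, o2388, l3222, l3126, l2840, l4665, o4493, l6250, l10093, l2615, l481, l390, l4216, l4225, l3147, l2989, l3826, l1145, l1210, l3851, l5272, l9272, l3817, l10105, l3308, l10106, o4574, l10099, o5827, o5826, o5825, l3452, l3435, l4771, l10107, l8757, l7117, l5861, l3311, l3310] l10108 := rupP (by decide +kernel)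
theorem r10109 : PImp [l4763, l5034, l10066, l8083, l4746] l10109 := rupP (by decide +kernel)
theorem r10110 : PImp [l3303, l5672, l4763, l5035, l4834, l7703, l2994, o5513, o5514, l3423, l8043, l5849, l4730, l4779, o4025, l5795, l4885, o4203, o3906, l6166] l10110 := rupP (by decide +kernel)
theorem r10111 : PImp [l2615, l10110, l9221, l9953] l10111 := rupP (by decide +kernel)
theorem r10112 : PImp [l7703, l1412, l4967, l2615, l1209, l1210, l10109, l10111, o4574, l10099, o5827, o5826, o5825, l3452, l3431, l4775, l10086] l10112 := rupP (by decide +kernel)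
theorem r10113 : PImp [l4763, l5034, l10068, l9656, l5029, l10069, l4618, l8938, o3895, o2451, l5020] l10113 := rupP (by decide +kernel)
theorem r10114 : PImp [l9243, l7703, l2989, l9790, l5377, l5303, l3222, l2991, l480, l9791, l3826, l1145, l1210, l3851, l481, l5587, l2733, l390, l4225, l3935, l5039, l10095, l1412, o4494, l4665, l9272, l3833, l5272, l3147, l4216, l10093, l4633, l5035, l4834, o4972, l4131, l3339, l3114, l4967, o8776, l2840, l3342, l4133, l2834, o3780, l1779, l3126, l3140, l2554, o2388, l10108, l10112, l3268, l10113, o26, l10071, l2996, o5513, o5512, o5514, l3423, l10072, l4618, l8947, o4327, l4779, l4864] l10114 := rupP (by decide +kernel)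
theorem r10115 : PImp [l2554, l9243, l5039, l9790, l5377, l5303, l3935, l7703, l2991, l480, l9791, l10095, l1412, o4494, l4633, l3342, l4133, l5587, l2733, l2834, l5035, l4834, o4972, l4131, l3339, l3114, l4967, o8776, o3780, l1779, o2388, l3222, l3126, l2840, l10093, l2615, l481, l390, l4225, l3147, l9272, l10114, l9221, l9953] l10115 := rupP (by decide +kernel)
theorem r10116 : PImp [l7703, l9790, l5377, l9243, l2991, l5303, l480, l9791, l3826, l1145, o4574, l2989, l3222, l1210, l3851, l481, l5587, l2733, l390, l4225, l3935, l5039, l1412, o4494, l4665, l3268, l3147, l4967, l4633, l10113, o26, l10071, l2615, l4216, l1209, l3833, l9272, l3000, l2992, l3008, l5035, l4084, o9076, l2544, l5704, l9103, o6478, o2449, l9942, o6363, l9979] l10116 := rupP (by decide +kernel)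
theorem r10117 : PImp [l10093, l2615, l9790, l5377, l5303, l481, l480, l5587, l2733, l390, l4216, l4225, l3147, l9243, l2834, l4133, l4131, l5039, l3114, l7703, l2991, l9791, l3826, l1145, l5272, l3833, l3342, l3339, l3935, l3222, l9272, l2995, l5035, l2554, l10095, l1412, l4834, l6250, l4967, o4494, o4972, o8776, l4633, l2840, o3780, l1779, l3126, l3140, o2388, l10108, l10112, l10115, o4574, l10099, o5827, o5826, o5825, l3452, l3431, l4775, l10116, l2571, o9167, l2707, o3239, l2576, l6140] l10117 := rupP (by decide +kernel)
theorem r10118 : PImp [l2615, l7703, l9790, l5377, l9243, l2991, l5303, l480, l9791, l3826, l1145, l1209, l3833, l9272, l7840, l9970, l9961, l2571, l6261, l2588, l9969, o9132, o3582] l10118 := rupP (by decide +kernel)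
theorem r10119 : PImp [l9243, l2834, l390, o5285, o5286, o5287, o5290, l9999, l10042] l10119 := rupP (by decide +kernel)
theorem r10120 : PImp [l2628, l9243, l2833, l9808, l2834, l5039, l3935, l2477, l4280, l4260, o730, o691, o699, o695, o690, l10119, o5680, o5679, o5719, o5588, l10002, o3667, o3732, o3014, l744, l21, l3537, l3107, l3905] l10120 := rupP (by decide +kernel)
theorem r10121 : PImp [o5287, o5290, l9983, o3427, o3429, o3757, l622, l8341, l5652, o1500, l4297, l3157, o8652, o8264] l10121 := rupP (by decide +kernel)
theorem r10122 : PImp [l2628, l4210, l9243, l2833, l9808, l2708, l4209, l2627, l10120, l4204, o688, o714, l9836, l9986, l10121, o5679, l9998] l10122 := rupP (by decide +kernel)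
theorem r10123 : PImp [o694, o688, o714, l9883] l10123 := rupP (by decide +kernel)
theorem r10124 : PImp [l2628, l9243, l2833, l9808, l5039, l2477, l4280, l4260, o691, o699, o695, o690, l10119, o5680, o5590, l10002, l7985, o3002] l10124 := rupP (by decide +kernel)
theorem r10125 : PImp [l2628, l4210, l9243, l2833, l9808, l2992, l3808, l3816, l2708, l2834, l4209, l1145, l1209, l1210, l2627, l2989, l2987, l10122, l10124, l4204, o688, o714, l10123, l9986, l10121, o5679, l9998] l10125 := rupP (by decide +kernel)
theorem r10126 : PImp [l1145, l1209, l1210, l9243, l2989, l2987, l10120, l10124] l10126 := rupP (by decide +kernel)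
theorem r10127 : PImp [o5679, l9998] l10127 := rupP (by decide +kernel)
theorem r10128 : PImp [l9243, l2992, l3808, l3816, l2708, l4210, l4209, l5039, l1145, l1209, l1210, l3222, l1139, l10125, l10126, l4204, o714, l10127, o5285, o5287, o5290, l9983, o3427, o3752, o3753, o3756, l8341, l8342, l7982, l2473, l2474, l2381, l2382, l2379, l673, l616, l1105, o8268, o8649] l10128 := rupP (by decide +kernel)
theorem r10129 : PImp [l9986, l10121] l10129 := rupP (by decide +kernel)
theorem r10130 : PImp [l4204, o688, o714, l10123, l10127, o5285, o5286, o5287, o5290, l9983, o3427, o3756, l8341, l7982, l5042, o4639, o4622, l10129, l8342, l3234, l2471, l3616, l3889, o8099, o2714] l10130 := rupP (by decide +kernel)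
theorem r10131 : PImp [o5285, o5286, o5287, o5290, l10045] l10131 := rupP (by decide +kernel)
theorem r10132 : PImp [l10002, o3667, o3732, o3014, o3002, l744, l21, l7985, l3537, l3107, l3905] l10132 := rupP (by decide +kernel)
theorem r10133 : PImp [o3648, o3646, l5728, o7791, l2611, l2613, l3905, l1510] l10133 := rupP (by decide +kernel)
theorem r10134 : PImp [l3934, l2447, l3541, l5893, l3903, l3905] l10134 := rupP (by decide +kernel)
theorem r10135 : PImp [l8332, o7786, o7705] l10135 := rupP (by decide +kernel)
theorem r10136 : PImp [l9243, l2992, l5377, l5303, l3808, l481, l480, l5587, l2733, l390, l4216, l4225, l2834, l4210, l5039, l2991, l9791, l3826, l1145, l1209, l1210, l3935, l3934, l2989, l2987, l2477, l4260, o730, o691, l10131, o5680, o5679, o5719, o5590, o5588, l10132, l10135, l2447, l3541, l10134, l5893, l3903, o7740, o2713] l10136 := rupP (by decide +kernel)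
theorem r10137 : PImp [l2628, l4210, l9243, l2833, l9808, l2992, l3816, l2708, l2834, l4209, l2989, l3222, l1145, l1210, l3851, l1209, l2627, l10128, l10130, o4288] l10137 := rupP (by decide +kernel)
theorem r10138 : PImp [l4201, l8341, l2980, l2983, o3427, l9817, l10035, o8150, l2564, l2565, l1510, l4301, o7694, l4938, o4264] l10138 := rupP (by decide +kernel)
theorem r10139 : PImp [l3235, l2389, l748, l2454, l3542, o8099, l3871, o2716] l10139 := rupP (by decide +kernel)
theorem r10140 : PImp [o3648, o3646, o8006, l4949, l3931] l10140 := rupP (by decide +kernel)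
theorem r10141 : PImp [o5661, o4657, o4636, o4622, l10139, l10140, o3427, l2470, l2494] l10141 := rupP (by decide +kernel)
theorem r10142 : PImp [l7982, l9455, l1674, o7729] l10142 := rupP (by decide +kernel)
theorem r10143 : PImp [l5377, l9243, l2992, l5303, l2991, l480, l9791, o4293, l3816, l2708, l481, l5587, l2733, l390, l4216, l4225, l4799, l3147, l5039, l2547, l2989, l3222, l3826, l1145, l1210, l3851, l1209, l3833, l3935, l10136, l4204, o708, o714, l10127, o5285, o5286, o5287, o5290, l10137, l1140, o4288, l10138, l10142, o5661, o4657, o4636, o4622, l10141, l10139, l10140, o3427, l7998, l2494, l4949, l3931] l10143 := rupP (by decide +kernel)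
theorem r10144 : PImp [l7703, l9243, l2991, l480, l5377, l5303, l9791, l3826, l2996, l3759, o4962, o5514, l4767, l4779, l3927, l1145, l1209, l9961, o2534, l3090, l1412, l4231, l4525, l3216, l3303, l3820, l481, l5587, l2733, l390, l4216, l4225, l4799, l3147, l5039, l2547, l5035, l4097, l2989, l3222, l1210, l3851, l3833, l2992, o4293, l3808, l5956, l10078, l8148, l9874, o3968, o4037, o3895, l3978, o4164, l4062, l3282, l4031, l9519, o2461, l10143, o2690, o6190, o6179] l10144 := rupP (by decide +kernel)
theorem r10145 : PImp [o5290, o5287, o5285, o714, o688, l10123, l9983, l10129, o3427, l8341, l10139, l8180] l10145 := rupP (by decide +kernel)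
theorem r10146 : PImp [l4201, l8341, l2981, o3427, l9817, l10035, o8150, l2564, l2565, l4957, l4301] l10146 := rupP (by decide +kernel)
theorem r10147 : PImp [l2628, l5377, l4210, l9243, l480, l5303, l5587, l2733, l2833, l481, l390, l4225, l9808, l2992, l3816, l2708, l4216, l4799, l3147, l2834, l5039, l2547, l4209, l2989, l3222, l2991, l9791, l3826, l1145, l1210, l3851, l1209, l3833, l3935, l2627, l10136, l4204, o708, o714, l10127, l10142, o5285, o5286, o5287, o5290, o5661, o4657, o4636, o4627, o4622, l10145, l1140, l10146, l10141, l10139, l10140, o3427, l7998, l2494, l4949, l3931] l10147 := rupP (by decide +kernel)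
theorem r10148 : PImp [l9243, l7703, l2989, l5377, l5303, l3222, l2991, l480, l9791, l3826, l1145, l1210, l3851, l10144, l2758, l2996, l3759, o4962, o5514, l4767, l4779, l3927, l1209, l9961, o2534, l3090, l3089, l1412, l430, l4231, l4525, l5034, l3216, l3303, l3820, l481, l5587, l2733, l390, l4216, l4225, l4799, l3147, l5039, l2547, l5035, l4097, l3833, l2992, l3808, l5956, l10078, l9889, l8148, o3955, o3968, o4037, l2783, l3986, l3978, l10052, o4162, o4164, l4728, l8083, l3282, l4062, l4031, o2469, l10147, o2690, o6190, o6179] l10148 := rupP (by decide +kernel)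
theorem r10149 : PImp [l10142, o5661, o4657, o4636, o4622, l10145] l10149 := rupP (by decide +kernel)
theorem r10150 : PImp [l8341, l2985, o3427, l7978, l6862, l2611, l9533, l3870] l10150 := rupP (by decide +kernel)
theorem r10151 : PImp [o3648, o3646, l7978, l6862, l2611, l2613, l3901, o8006] l10151 := rupP (by decide +kernel)
theorem r10152 : PImp [l9243, l2708, l2627, o4657, o4636, o5676, o4622, o5642, l2294, l10150, l2474, l2479, l10151, o3427, o3753, o3756, o3844, l9054, l9893, l3171, l616] l10152 := rupP (by decide +kernel)
theorem r10153 : PImp [l9243, l2708, l4183, l2627, l4204, o694, o708, o714, l10127, o5286, o5287, o5290, l10149, o8727, l10152, l7982, o3756, l7978, l6862, o1501, o8861, o7766] l10153 := rupP (by decide +kernel)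
theorem r10154 : PImp [l5377, l4209, o690, l4210, o695, o699, l4260, l5039, l4280, l2477, l2628, l9243, l480, l5303, l5587, l2733, l2833, l481, l390, l4225, l9808, o4296, l3147, l2834, l3935, l3934, o5285, o5286, o5287, o5290, l10024, o3648, o3643, o3645, o3647, l10025, l1510, l3930, l4476, l4473] l10154 := rupP (by decide +kernel)
theorem r10155 : PImp [l2628, l5377, l4210, l9243, l480, l5303, l5587, l2733, l2833, l481, l390, l4225, l2991, l9791, l3826, l2992, l3811, l1145, l1209, l9961, o4296, l10051, l9808, l4216, l10052, o4780, l3813, l2989, l3222, l1210, l3851, l2758, l3089, o5814, l1412, l430, l5034, l3303, l4799, l3147, l2834, l5039, l2547, l4209, l3833, l3935, l2987, l5956, o3955, l2783, l10032, l3986, l4728, l8083, o2469, l1139, l10153, l2477, l4260, o730, o691, l10154, o5680, o5679, o5719, o5590, o5588, l10132] l10155 := rupP (by decide +kernel)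
theorem r10156 : PImp [l9432, l8390, o7903, o7985] l10156 := rupP (by decide +kernel)
theorem r10157 : PImp [o3648, l10133, l7985] l10157 := rupP (by decide +kernel)
theorem r10158 : PImp [l2628, l5377, l4210, l9243, l480, l5303, l5587, l2733, l2833, l481, l390, l4225, l2991, l9791, l3826, l2992, l3811, l1145, l1209, l9961, o4296, l10051, l9808, l4216, l10052, o4780, l3813, l2989, l3222, l1210, l3851, l2758, o2542, l3089, l2708, o5814, l4233, o1726, l3303, l3821, l4799, l3147, l2834, l5039, l2547, l4209, l3833, l3935, l2627, l10155, o5979, o4177, o4167, l10032, l4031, l10153, o2461, l2477, l4260, o691, o690, l1139, l10154, o5680, o5679, o5678, o5590, o5588, l10156, l10157, o3756, o3757, o3755, l634, o1456, l2295, o7866, o7959, o2258] l10158 := rupP (by decide +kernel)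
theorem r10159 : PImp [l1412, l430, o3957, o3952, o3967, l6127, l6660] l10159 := rupP (by decide +kernel)
theorem r10160 : PImp [l7703, l5377, l9243, l2991, l5303, l480, l9791, l3826, l1145, l1209, l5039, l2547, l5587, l2733, l4799, l481, l390, l4216, l5034, l10159, l408, l328, l9961, o2488, l3089, o3582, o5814, o5514, l3216, l3303, o876, l2548, l4183, l5035, l4097, l1210, l2996, l2992, l3927, l4779, l4767, l3759, o4962, l10144, l10148, l3811, l10158, l3986, l3998, l5849, l3282, o4037, l2783, l4728, o2689, o6190, o6179] l10160 := rupP (by decide +kernel)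
theorem r10161 : PImp [l4084, l10117, l2713, l10093, l2615, l9272, l5035, l4097, l9790, l5377, l5303, l3335, l7703, l9243, l2991, l480, l9791, l9880, o4971, l3111, l3000, l4838, o8777, o8610, l2539, o3582, o9107, l4082, l3826, l1145, l1210, o5513, l5723, l3423, o5514, o5512, o5017, l5587, l2733, l3147, o4972, l4131, l3339, l3114, o8776, l2840, l2834, o3780, l10118, l1412, o9017, l4841, l3216, l481, l390, l4216, l4225, l4799, l5039, l2547, l2989, l3222, l3851, l2996, l2994, l2992, l10160, l5795, l4864, l3457, l3417, l9712, o4296, l4865, l9890, l3808] l10161 := rupP (by decide +kernel)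
theorem r10162 : PImp [l7703, l4618, l10100, o4327, l4767, l4864] l10162 := rupP (by decide +kernel)
theorem r10163 : PImp [l9243, l9790, l480, l5377, l5303, l5587, l2733, l2834, l7703, l2991, l9791, l9880, o4972, l4131, l3339, l3114, l9272, l3000, l5035, l4838, o8776, o3780, l2840, l3216, l3820, l10117, l10093, l481, l390, l4216, l4225, l3147, l3826, l1145, l1210, l3833, l2996, l2994, l2992, o5513, o5512, o5514, l5723, l10162, l10161, l6261, l4779, l5795, l3457, l9712, o4296, l9887, l3808] l10163 := rupP (by decide +kernel)
theorem r10164 : PImp [l7703, l3000, l5035, l4838, l9208, l4779, l6261] l10164 := rupP (by decide +kernel)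
theorem r10165 : PImp [l4084, l2539, l8123, o3582] l10165 := rupP (by decide +kernel)
theorem r10166 : PImp [l9790, l480, l5377, l5303, l5587, l2733, l7703, l9243, l2991, l9791, l9880, o4972, l4131, l3339, l3114, l9272, l3000, l5035, l4838, o8776, l2840, l4097, l3335, o4971, l3111, o8777, o8610, l10117, l2713, l10093, l2615, l3833, l10163, l10165, l2571, l6261, l2588, o9132, o3582] l10166 := rupP (by decide +kernel)
theorem r10167 : PImp [l2713, l8144, l8143, l4595] l10167 := rupP (by decide +kernel)
theorem r10168 : PImp [l2713, l7703, l1209, l1210, l5035, l5525, o3582, l10167, o5827, o5825, o9122, l3452, l4775, l4083, l7971] l10168 := rupP (by decide +kernel)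
theorem r10169 : PImp [l3303, l10117, l10093, l2615, l9790, l5377, l5303, l481, l480, l5587, l2733, l390, l4216, l4225, l4799, l9243, l5039, l2547, l5035, l4097, l4131, l3114, l3111, l7703, l2991, l9791, l3826, l1145, l1209, l3008, l1149, l3833, l3339, l3335, l9272, l3000, l9880, o4971, o4972, l4838, o8777, o8776, o8610, l2840, l10168, l10166, l7053, o3959, l9949, l10104, l10076, o2449, l5655] l10169 := rupP (by decide +kernel)
theorem r10170 : PImp [l5035, l4097, l4133, l5039, l3111, l2806, l2808, l1779, l667, l3374, l4633, o8610, o4494, o5372, o5448, l1412, l9797] l10170 := rupP (by decide +kernel)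
theorem r10171 : PImp [o4972, o8465, l4834] l10171 := rupP (by decide +kernel)
theorem r10172 : PImp [l3114, l10171, o8776, l4662, l5685, o5397, o4543] l10172 := rupP (by decide +kernel)
theorem r10173 : PImp [l10165, l2571, l6261, l2588, o9132, o3582] l10173 := rupP (by decide +kernel)
theorem r10174 : PImp [l9272, l9790, l5377, l5303, l9243, l7703, l2991, l480, l9791, l3833, l5587, l2733, l5035, l3000, l3935, l3339, l3826, l5272, l4131, l3147, l10172, l2840, l10093, l2615, l10117, l2713, l4097, l3335, l2833, l2326, l3111, l3222, l3342, l1145, l1210, l1209, l10170, l3126, l9880, o4971, o8610, l4799, l481, l390, l4225, l4216, l4838, l10168, l10173, l10169, l10079] l10174 := rupP (by decide +kernel)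
theorem r10175 : PImp [o5513, l3423, o5514, l9940, l10110, l10109] l10175 := rupP (by decide +kernel)
theorem r10176 : PImp [l9243, l9790, l480, l5377, l5303, l5587, l2733, l2833, l5035, l7703, l9272, l3000, l3935, l3339, l2991, l9791, l3826, l5272, l4131, l3147, l10172, l2326, l2834, o3780, l2840, l481, l390, l4216, l4225, l4799, l4097, l5039, l3111, l2989, l3222, l1145, l1210, l3851, l1209, l3833, l3342, l3335, l2996, l10093, l2615, l10117, l2713, l10170, l3126, l3140, l9880, o4971, l4838, o8610, o9017, l10168, l10173, o5513, o5512, o5514, o4912, l3423, l10174, l10175, l3268, l10113, o26, l10071, l10072, l4618, l8947, o4327, l4779, l4864] l10176 := rupP (by decide +kernel)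
theorem r10177 : PImp [l7703, l9243, l2991, l9790, l480, l5377, l5303, l9791, l3340, l9272, l2995, l5035, l3216, l2632, l1277, o8833, l4868, o4956] l10177 := rupP (by decide +kernel)
theorem r10178 : PImp [l9790, l5377, l9243, l7703, l2991, l5303, l480, l9791, l3826, l5272, l3342, l3339, l3935, l5587, l9272, l3000, l5035, l5039, l4131, l4133, l2733, l2834, l2835, l3147, l10172, l2841, l2840, o3780, l10176, l4164, l10177, l3127, l1779, l3374, l3351, l4633, l8611, o4903, o4486] l10178 := rupP (by decide +kernel)
theorem r10179 : PImp [l3935, l3837, o4480, l4248, l390, l4242, l4225] l10179 := rupP (by decide +kernel)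
theorem r10180 : PImp [l7703, l9272, l3000, l2998, l9243, l2991, l2990, l5035, l9790, l481, l480, l5587, l5377, l5303, l3338, l9791, l3826, l3833, l1145, l1210, l10179, l4130, l2733, l10178, l2837, l3147, l3213, l2636, l4839, o8835, l4835, o4965, l4847] l10180 := rupP (by decide +kernel)
theorem r10181 : PImp [l5039, l9243, l3935, l9260, l480, l5587, l2733, l2735, l5190, o4486, o5166, l3006, l3153] l10181 := rupP (by decide +kernel)
theorem r10182 : PImp [l9243, l2991, l10181, l5374, l5253, l4898, l476, l1412, o4494] l10182 := rupP (by decide +kernel)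
theorem r10183 : PImp [l2557, o5511, l8366, l7976, l4084] l10183 := rupP (by decide +kernel)
theorem r10184 : PImp [l2557, l4183, l7703, l1209, l1210, l328, l2604, l10183, l9714, o5824, l8384, l4084, l5741, l8385, l6038] l10184 := rupP (by decide +kernel)
theorem r10185 : PImp [l2557, o5511, l9221, l9953] l10185 := rupP (by decide +kernel)
theorem r10186 : PImp [l10184, l2615, l10185, l9224, o5824] l10186 := rupP (by decide +kernel)
theorem r10187 : PImp [l9966, o5511] l10187 := rupP (by decide +kernel)
theorem r10188 : PImp [l7703, l1209, l2604, l10187, o4574, l5518, l5665, l7491, o6768] l10188 := rupP (by decide +kernel)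
theorem r10189 : PImp [l10180, l3935, l9260, l480, l5587, l2733, l5190, l9243, l5039, l2735, o5166, l3151, l3153, l481, l5377, l390, l4216, l4225, l1138, l1137, l3154, l9272, l2836, l2837, l7703, l10182, o4716, l4969, l4968, o4711, l1210, o4703, o4697, l2547, l3341, l3338, l4130, l4132, l2996, l3008, l5035, l2631, l3149, o8544, o8835, o4820, o5349, o5383, o5371, o5451, o5493, o5481, l4864, l7600, l10186, l2713, l10188, l2615, l7972, l7973, l4084, l1412, l4834, l4967, l10168, o5511, l10165, l6706] l10189 := rupP (by decide +kernel)
theorem r10190 : PImp [l5035, o4822, o4826, l3762, l4850, l4863] l10190 := rupP (by decide +kernel)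
theorem r10191 : PImp [o5761, o5762, l671, o8544, o8462, l6253, o8464, o2354, o2350] l10191 := rupP (by decide +kernel)
theorem r10192 : PImp [l7703, l10180, l10182, l4130, l4133, l4132, l5039, l9272, l2998, l2996, l9243, l2991, l3935, l3338, l3341, l3342, l9260, l480, l5587, l5377, o4711, o4716, l2733, l2735, l5190, l3828, l1210, l4968, l2836, o5327, o5166, l4802, l3153, l10191, o4822, o5355, l10190, l4864, l10189, l4789] l10192 := rupP (by decide +kernel)
theorem r10193 : PImp [o5407, l9932, l4082, l4602, l6179, l2708] l10193 := rupP (by decide +kernel)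
theorem r10194 : PImp [l4525, l5034, l3308, l4967, l3089, l3090, l4060, o2569, l3989, o4083, o4140, l3970, l3320, l5713, l6083] l10194 := rupP (by decide +kernel)
theorem r10195 : PImp [l1242, l1138, l5034, l4086, l10194, l9346, o2449, o3896, l4049, l5022] l10195 := rupP (by decide +kernel)
theorem r10196 : PImp [l3308, l1242, l5268, o4389, l5643, l4967, l1412, l4087, l5269, l10195, l5847, l702, l6566, o3939, o5929, l6290, l3082, l5267] l10196 := rupP (by decide +kernel)
theorem r10197 : PImp [l4967, l3006, o4251, l4969, l4968, l1242, l5268, o4395, l5643, l1412, l4087, l1137, l10196, l9787, l8085, l9978, l9734, l9202, l4549] l10197 := rupP (by decide +kernel)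
theorem r10198 : PImp [l1242, l1138, l5034, l4086, l10194, o2449, l4054, o3896, l5022, l4049] l10198 := rupP (by decide +kernel)
theorem r10199 : PImp [l3308, l4967, o4251, l4969, l4968, l5643, l1412, l4087, l5269, l9785, l3770, o1764, l10198, l4184, l5847, o4211, o5991, o5881] l10199 := rupP (by decide +kernel)
theorem r10200 : PImp [l4967, l3006, o4251, l4968, l1242, l5268, o4395, l5643, l1412, l4087, l1137, l3308, l10197, l10199, l4763, l9787, l8085, l8846, l7200, l4533, l5817, l4520, o4102, l3074, o3919, l4532, l316, l4999] l10200 := rupP (by decide +kernel)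
theorem r10201 : PImp [l3006, l4969, l1242, l5268, o4395, o4557, l3008, o4389, l1217, o4543, l5643, l4967, l1412, l4087, l5269, l1138, l1137, l3000, l2996, l328, l2711, l2604, l10193, o4574, l9769, l9714, o5824, l7977, l2571, l2578, o6544, o3582, o9075, l10200, o1747, l9744, l3100, l9755, l3772, l4118, l4120, l9961, o2563, o2557, l4059, o2569, l4055, o4205, l8155, o5983, o4223, o1594, l6083] l10201 := rupP (by decide +kernel)
theorem r10202 : PImp [l2617, o6616, o2924] l10202 := rupP (by decide +kernel)
theorem r10203 : PImp [l2571, o8926, l2707, o3239, l2592, o6629] l10203 := rupP (by decide +kernel)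
theorem r10204 : PImp [l5269, l7703, l2995, l328, o5511, o5099, l8638, l10203, l6707, l10202] l10204 := rupP (by decide +kernel)
theorem r10205 : PImp [l4084, l2559, o3582, l8569, o8947] l10205 := rupP (by decide +kernel)
theorem r10206 : PImp [l7703, l3006, l4968, l4967, l1412, l3000, l5035, l4838, l1242, l5268, o4395, o4555, l3422, o4557, l3370, l10201, l2615, l10204, o5824, l10205, l2584, l2576] l10206 := rupP (by decide +kernel)
theorem r10207 : PImp [l10180, l7703, l9272, l3000, l2998, l2996, l9243, l2991, l2992, l5035, l5039, l4133, l10182, l10192, l5374, l5253, l2676, l2671, l4901, l4904, l476, l5344, l5343, l1242, l3529, l4967, l4838, l5729, o5166, l4802, l3154, l485, l3477, l1137, l3933, l1412, l5268, l5643, l3152, l4887, o4389, o4395, o4543, l3498, l5396, l3507, l3153, l3151, o4843, o4557, o4555, l3006, l3370, l3422, l4968, l4969, l2808, l9767, l671, l8600, l4846, l3394, l3464, o4905, o4907, o4908, o4326, l4776, l3765, l3762, l10206, l2548, l7973, l2711, l2604, l8606, l9689, l9782, l9789] l10207 := rupP (by decide +kernel)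
theorem r10208 : PImp [l9260, l5587, l480, l481, l3935, l5038, l9243, l2991, l2990, l3834, l4223, l2698, l4225, l2735, l4242, o5159, o5327, o5166, l4246, o4772, o4782, l3839, o4480, o4766, l1145, l5576] l10208 := rupP (by decide +kernel)
theorem r10209 : PImp [l9260, l480, l3935, l4242, l4251] l10209 := rupP (by decide +kernel)
theorem r10210 : PImp [l5038, l9243, l2991, l3935, l9260, l481, l480, l10208, l3831, l9270, l10209, l4240, l4249] l10210 := rupP (by decide +kernel)
theorem r10211 : PImp [l9243, l2989, l2990, l5038, l10210, l5334, l5303, l5344, l5343, l9711, l5644, l485, l482, o4461, o4468, l4910, l3508, l3521, l4246, l3839] l10211 := rupP (by decide +kernel)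
theorem r10212 : PImp [l7703, l1210, l2604, l9715, l8727, o5824, l8384, l4084, l8905, o8927, l7736] l10212 := rupP (by decide +kernel)
theorem r10213 : PImp [o4568, l5269, o4558, o4557, l3217, l3213, l2558, l10212, l2615, l9779] l10213 := rupP (by decide +kernel)
theorem r10214 : PImp [l5670, l9140] l10214 := rupP (by decide +kernel)
theorem r10215 : PImp [l10214, l5518, l5665, l4606] l10215 := rupP (by decide +kernel)
theorem r10216 : PImp [l4087, l3303, l9884, l9755, l9514, l6709, l6293] l10216 := rupP (by decide +kernel)
theorem r10217 : PImp [l9294, l9319, l6293, l5690, l4031] l10217 := rupP (by decide +kernel)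
theorem r10218 : PImp [l1209, l1210, l328, l10216, l10217, l9885, l8085, l9978, l9202] l10218 := rupP (by decide +kernel)
theorem r10219 : PImp [l9319, l6293, l5690, l4031] l10219 := rupP (by decide +kernel)
theorem r10220 : PImp [l10219, l7117, l9755, l3308] l10220 := rupP (by decide +kernel)
theorem r10221 : PImp [l3303, l5672, l3075, l4730, l6031, l2779] l10221 := rupP (by decide +kernel)
theorem r10222 : PImp [l1412, l4087, l5269, l4969, l4968, l1209, l1210, l328, l10218, l10220, l4763, l9863, l10221, l3308, l1074, l3095, o6015, o3942, l5000, l4512, o4075, o4072, l4544, l4550, l713] l10222 := rupP (by decide +kernel)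
theorem r10223 : PImp [o2569, l4060, l9184, o4229] l10223 := rupP (by decide +kernel)
theorem r10224 : PImp [l3308, o876, l9294, l5034, l10223, l9346, o2449, o3946, o3951, o3896, l3991, l4995, l4049] l10224 := rupP (by decide +kernel)
theorem r10225 : PImp [l4087, l4969, l4968, l1209, l1210, l328, l10216, l3261, l10224, l9787, l8085, l9978, l9202] l10225 := rupP (by decide +kernel)
theorem r10226 : PImp [l9514, l6709, l6293] l10226 := rupP (by decide +kernel)
theorem r10227 : PImp [l10226, l5690, l4036, l4028] l10227 := rupP (by decide +kernel)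
theorem r10228 : PImp [l10227, l7117, l9755, l3308] l10228 := rupP (by decide +kernel)
theorem r10229 : PImp [l9861, l10113] l10229 := rupP (by decide +kernel)
theorem r10230 : PImp [l1412, l4087, l5269, l1247, l4969, l4968, l1209, l1210, l328, l10222, l10225, l10228, l4763, l10229, l10221, l3308, l1074, l3095, o6015, o3942, l5000, l4512, o4075, o4072, l4544, l4550, l713] l10230 := rupP (by decide +kernel)
theorem r10231 : PImp [l10220, l10228, l9294, l10226, l3303, l3253, l10224] l10231 := rupP (by decide +kernel)
theorem r10232 : PImp [l4763, l328, l3303, l5048, l3074, l4734, o3963, o3959, l2779, o3919, l4754, l4724, l3089, o2488, l5000, l4710] l10232 := rupP (by decide +kernel)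
theorem r10233 : PImp [l4763, l4968, l3308, l1074, l3095, o6015, o3942, l5000, l4512, o4075, o4072, l4544, l4550, l713] l10233 := rupP (by decide +kernel)
theorem r10234 : PImp [l4730, l5677] l10234 := rupP (by decide +kernel)
theorem r10235 : PImp [l1412, l4087, l5269, l1247, l4969, l4968, l1209, l1210, l328, l10230, l10231, l10229, l10233, l3303, l10232, l10234, l2779, l4754, l4755] l10235 := rupP (by decide +kernel)
theorem r10236 : PImp [l9514, l6709, l4027] l10236 := rupP (by decide +kernel)
theorem r10237 : PImp [l5034, l10236, l3303, l3304, l5690, l5068, l2777, l3075, o2463, l8686, l9346, l4018, o3946, o3951, l3991, l4995] l10237 := rupP (by decide +kernel)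
theorem r10238 : PImp [l10237, l7117, l9755, l3308] l10238 := rupP (by decide +kernel)
theorem r10239 : PImp [o5099, o5511, l1412, l4087, l5269, l1247, l3470, l7703, l4969, l4968, l1209, l1210, l328, l4084, l9876, o9076, l2544, l5683, l4594, o6690, o6561, o6543, l10235, l10238, l10229, l10233, l3303, l10234, l5045, l2779, o3919, o3910, l6166] l10239 := rupP (by decide +kernel)
theorem r10240 : PImp [l6261, l2588, o3582, o9167, o9132] l10240 := rupP (by decide +kernel)
theorem r10241 : PImp [l7703, l10180, l10211, l10207, l3217, l3213, l10182, l4130, l4133, l4132, l5039, l9272, l3000, l2998, l2996, l9243, l2991, l2990, l2992, l5035, l3935, l3338, l3341, l3342, l9260, l481, l480, l5587, l5377, l2547, o4711, o4716, o4701, o4697, l2733, l5190, l3848, l2735, l3828, l3831, l1210, l1209, l4968, l4969, l390, l2836, l1137, l1138, o5166, l3220, l3847, l472, o5327, l4839, l4225, l4216, l3153, l3151, l10191, o4557, o4558, o4555, l4847, o4822, o5372, o5355, o5346, o4843, l3372, l3424, o4346, l2740, l4864, o4568, l3470, l3816, l3808, l3441, l3425, l1412, l10213, l10215, l2615, l9780,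 o5511, o5099, l10239, l2571, l10240, l6294, l3003, o6701, l2596] l10241 := rupP (by decide +kernel)
theorem r10242 : PImp [l9243, l5035, l7703, l3008, l2991, l9272, l2998, l3000, l10180, l10211, l5039, l4132, l10182, l10207, l3213, l3217, l2637, l10241, l5374, l5253, l2676, l2671, l4901, l4904, l476, l5344, l5343, l9666, l1242, l3529, l4967, l5729, l4802, l3154, l485, l482, l3477, l423, l425, l429, l4968, l4969, o4495, l1137, l1138, l5269, o4258, l3152, l3153, l3151, l1218, l1217, l4839, o4841, l3498, l3507, l2836, l4847, o4557, o4558, o4555, o8544, o4905, o4907, l3372, l3424, l3397, l3466, l3441, l3425, l9781, l10213, l2711, l2604, l9778, l2548, l9782, l9789, o5407, l5670, l10214, l4082, l4608, l6179, l2708] l10242 := rupP (by decide +kernel)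
theorem r10243 : PImp [l3339, l3935, l5036, o4557, o4555, l3389, l3423, l2840, l4374, l4096, l10172] l10243 := rupP (by decide +kernel)
theorem r10244 : PImp [l3339, l3338, l498, o4912, l3389, l4967, l2840, o8776, l2275, o8789, l755] l10244 := rupP (by decide +kernel)
theorem r10245 : PImp [l3114, l3113, l5587, l5113, l480, l5377, l9243, l2991, l9791, l3826, l1145, l1210, l3008, l1149, l5272, l3833, l481, l2733, l390, l4225, l3147, l10242, l4157, l4158, l4210, l3341, l3340, l5036, l2994, l2996, l3000, l2836, l2835, l10243, o4972, o4974, l10244, o4513, o4540, o5453, o5452, l3431, o8785, o8849, l3141, l2631, l3807, l4397] l10245 := rupP (by decide +kernel)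
theorem r10246 : PImp [l5587, l5113, l480, l5377, l9243, l2991, l9791, l3826, l1145, l1209, l1210, l3833, l4210, l3338, l3335, l10242, l5036, l3113, l3111, l10245, o3469, o3472, l3444, l1102, o5448, l2274, l8893, o8610] l10246 := rupP (by decide +kernel)
theorem r10247 : PImp [l5036, l2994, l2996, l2836, o8849, l1641, o5446, o4943, o4962, l4416, l2914, l4189] l10247 := rupP (by decide +kernel)
theorem r10248 : PImp [o8419, o8416, l5279, l3816, o8722, o4819, o4943] l10248 := rupP (by decide +kernel)
theorem r10249 : PImp [l3342, l3341, l3340, l3222, l10242, l9243, l481, l480, l5587, l5252, l5377, l5113, l2733, l4158, l4157, l4156, l2989, l2991, l390, l9791, l3826, l4225, l3833, l1145, l1210, l3851, l10246, l3213, l3217, l2635, l2637, l2638, l10247, l2820, o3468, o3467, o3470, l10248, l5136, l5767, o5467, o8724] l10249 := rupP (by decide +kernel)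
theorem r10250 : PImp [l476, o4494, l1412, o4484, o4900, o5366, l3423, o8465, l4374, l4096] l10250 := rupP (by decide +kernel)
theorem r10251 : PImp [l2998, l2996, l3342, l3341, l5036, l3452, l3129, l3127, l4397, l4395, l3371, o5487, l5898, l9678, l4099, l4385, l2740, o4326] l10251 := rupP (by decide +kernel)
theorem r10252 : PImp [l5794, l5724, l3805] l10252 := rupP (by decide +kernel)
theorem r10253 : PImp [l3342, l3341, l3339, l4096, l4101, l4099, l10171, l9678, o5745, o8834] l10253 := rupP (by decide +kernel)
theorem r10254 : PImp [l5682, l5376, l2746, l2744] l10254 := rupP (by decide +kernel)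
theorem r10255 : PImp [l3000, l5128, l2995, l2994, l10251, l10254, l4414, l4403, l2746, l2744] l10255 := rupP (by decide +kernel)
theorem r10256 : PImp [o5169, l1243, l3935, l5208, l2836, o5339, l476, o4494, l1412, o4484, l1146, o4487, l3007, l3000, l3114, l3339, l5036, l2840, l10250, l494, l10253, l10255, l4376] l10256 := rupP (by decide +kernel)
theorem r10257 : PImp [l2994, l9243, l2991, l2992, l3008, l5039, l10249, l2641, l2640, l3935, l2628, l10242, o4487, o4484, l3007, l1145, l3826, l5623, l2939, l2938, l5636, l3824, l5208, o5169, l4796, l3823, l4970, l3147, o4393, o5341, l10252, l10256, l2808, l3383, o4860, o4864, l5601] l10257 := rupP (by decide +kernel)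
theorem r10258 : PImp [o5363, o5365, l3423, o8561, l9235, l2316] l10258 := rupP (by decide +kernel)
theorem r10259 : PImp [l3342, l3341, l2808, l3383, l5899, o5391, l2316, o8561] l10259 := rupP (by decide +kernel)
theorem r10260 : PImp [o4836, o4838, o8465, l2275, o8483, o8481] l10260 := rupP (by decide +kernel)
theorem r10261 : PImp [l2836, l2837, l390, l10257, l3000, l9243, l2991, l3008, l3114, l3113, l5039, l10249, l2641, l3342, l3341, l3339, l3338, l2628, l10242, l5036, l4210, l4157, l4156, l9791, l9244, l3830, l5637, l1218, l1149, o4701, l4221, l10258, l3431, l10259, l2840, l10260, l4376, l4096, l4838, o8465, o8776] l10261 := rupP (by decide +kernel)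
theorem r10262 : PImp [l10257, l3008, l5039, l9243, l10249, l2641, l390, l10261, l5636, l4796, o4703, l4970] l10262 := rupP (by decide +kernel)
theorem r10263 : PImp [l5039, l9243, l10249, l2641, l2991, l10257, l10262, l4798, l2733, l485, o4714, l9791, l4797, l4796, l4968] l10263 := rupP (by decide +kernel)
theorem r10264 : PImp [l5036, o8722, l2631, o8624, l6169, l4187] l10264 := rupP (by decide +kernel)
theorem r10265 : PImp [l4214, l2275, o8609, o8776, o3102, l4838] l10265 := rupP (by decide +kernel)
theorem r10266 : PImp [l5039, l9243, l10249, l2641, l10263, l6455, l4798, l10242, l5036, l4655, l432, l1254, l3442, o5468, o5469, o4540, o4555, l494, l473, o4485, l476, o4494, l428, l5112, l1357, l3114, l3113, l3341, l3339, l3338, l3222, l4209, l4210, l4157, l7699, l6263, l3827, l1218, o2989, l10264, l2812, l3386, o5479, l10265, l755, o774, o8787, o8627, l2323, l2263] l10266 := rupP (by decide +kernel)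
theorem r10267 : PImp [l3375, o5479, l4375, o8609, l4096] l10267 := rupP (by decide +kernel)
theorem r10268 : PImp [l4655, l432, l5036, l1254, l3442, o4555, l428, o4513, l494, l5112, l2895, l2807, l2808, l10267, l3389, o5380, l3367, l6237, l667, l5987, l3126] l10268 := rupP (by decide +kernel)
theorem r10269 : PImp [o3197, l5128, l4838, l4096, o8776] l10269 := rupP (by decide +kernel)
theorem r10270 : PImp [l3341, l3338, l755, l4375, l4099, l6701, o8834, l2631] l10270 := rupP (by decide +kernel)
theorem r10271 : PImp [l3341, l3338, l4095, l4099, l6701, o8834, l2631] l10271 := rupP (by decide +kernel)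
theorem r10272 : PImp [o8834, l2316, o8773, o8788, l6435] l10272 := rupP (by decide +kernel)
theorem r10273 : PImp [o8609, o8627] l10273 := rupP (by decide +kernel)
theorem r10274 : PImp [l3114, l3111, l3113, l5039, l9243, l10249, l2641, l2640, l476, l3342, l3341, l3339, l3338, l3335, l2628, l3222, l10242, l5036, l10263, l4655, l1316, l1357, l5112, l6455, l430, l432, o4498, o4494, l4798, l1254, l485, l3442, o4555, o4546, o5469, o5468, l10266, l6220, l5623, l3824, l4796, o3465, l3218, l4970, o2989, l4644, l4643, l10268, o3563, o3564, l3386, o5487, o5479, l10269, l10270, l10271, l10272, l10273, o3499, l2323, o3789, l3359, o8787, o8774, o5490, l2276, o8777, l2274] l10274 := rupP (by decide +kernel)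
theorem r10275 : PImp [l3008, l3113, l3338, l9244, l1218, l1149, l3826, l3383, l9791, l3830, o5392, l668] l10275 := rupP (by decide +kernel)
theorem r10276 : PImp [l2820, l5036, l3383, l3439, l3367, o5364, l668] l10276 := rupP (by decide +kernel)
theorem r10277 : PImp [l10242, l9243, l2992, l2991, l1145, l10275, o4492, l3824] l10277 := rupP (by decide +kernel)
theorem r10278 : PImp [o5364, l3419, l668] l10278 := rupP (by decide +kernel)
theorem r10279 : PImp [l5039, l9243, l10249, l2641, l3338, l10242, l5036, l3113, l10274, l2820, o3469, l10276, l10277, l4655, l5112, l2920, l2926, l2930, l2896, l2910, l428, l432, l10278, l494, o4513, o4518, o4508, o4555, o4540, l3427, l5171, l5169, l4417, l3449, l4396] l10279 := rupP (by decide +kernel)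
theorem r10280 : PImp [l2994, l9243, l2991, l3008, l10279, l2637, l3217, l5039, l10249, l2641, l3341, l10242, l5036, l4157, l9244, l1218, l1149, l3826, o4701, o4702, l5622, l4221, l4798, l3425, l2836, l3433, o8561, l5682, o4809] l10280 := rupP (by decide +kernel)
theorem r10281 : PImp [l499, o4874, o4880, l5476] l10281 := rupP (by decide +kernel)
theorem r10282 : PImp [l2808, l5601, l6254, o4864, o4946, o4255, l3377, l5461] l10282 := rupP (by decide +kernel)
theorem r10283 : PImp [l10279, l2638, l2637, l2635, l3217, l5039, l9243, l10249, l2641, l3342, l3341, l3340, l3935, l10242, l5036, l3008, l2992, l2991, l2994, l10280, l5623, l5636, l3824, l4796, o3556, o5169, o4495, o4498, o4492, l3825, l4970, l3006, o4393, o4703, o4693, l2939, l2938, l5208, l5794, l2836, l10281, o5482, l3433, o8848, l5682, l5230, l10282, l3373, l2838, o5487, o5488, l1579, o8834, l2300, l4568] l10283 := rupP (by decide +kernel)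
theorem r10284 : PImp [l10242, l4157, l4158, l2638, l2637, l3341, l3340, l5036, o5363, o5362, l3425, o8560, o8416, l3813, o8417, o3200, o3089] l10284 := rupP (by decide +kernel)

end Pool.Agent.BDD.A
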