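import Pool.Agent.BDD.AC
import Pool.Agent.BDD.AE0
import Pool.Agent.BDD.AE1
import Pool.Agent.BDD.AE2
import Pool.Agent.BDD.AD0
import Pool.Agent.BDD.AD1
import Pool.Agent.BDD.AD2
import Pool.Agent.BDD.AD3

set_option autoImplicit false
set_option linter.all false

namespace Pool.Agent.BDD.A

theorem r10285 : PImp [l4655, l432, l1254, l476, o4494, o4498, l1357, l3213, l3341, l10242, l5036, l4157, l7699, l3827, l10284, l494, o4540, o5469, l5987, l10264, l3779, o3086] l10285 := rupP (by decide +kernel)
theorem r10286 : PImp [o5362, l3425, o8543, o8560] l10286 := rupP (by decide +kernel)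
theorem r10287 : PImp [l10279, l2638, l3213, l5039, l9243, l10249, l2641, l476, l3340, l10242, l5036, l10283, l4655, l6455, l430, l432, o4498, o4494, l4798, l485, l10285, l5623, l3824, l4796, o3556, l3822, l4970, o2989, l4643, l10286, l494, o4540, l5987, l4638] l10287 := rupP (by decide +kernel)
theorem r10288 : PImp [o5365, l3421, o8419] l10288 := rupP (by decide +kernel)
theorem r10289 : PImp [l5036, l4158, l4157, l4156, l10288, l3429, o8724, o8721, o8419, l642, o8417] l10289 := rupP (by decide +kernel)
theorem r10290 : PImp [o5363, o5362, l10288, l4567, o8397, l2300] l10290 := rupP (by decide +kernel)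
theorem r10291 : PImp [l5039, l10242, l5036, l9243, l3340, l3341, l3342, l10249, l2641, l10279, l2635, l2637, l2638, l10287, o3468, o3467, o3470, l10289, l5623, l5636, l10290, o5482, l3429, o8721, o8701, l5113, l2992, l3824, l3825] l10291 := rupP (by decide +kernel)
theorem r10292 : PImp [l3114, l1242, l1137, l5036, l3000, l3435, l5128, l498, o5366, l4096, l3389, l2840, o8465, l3337, o8507, l3522] l10292 := rupP (by decide +kernel)
theorem r10293 : PImp [l1242, l5036, l10292, l2821, l3444, l8601, o5196, l3357, l4375, l4376] l10293 := rupP (by decide +kernel)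
theorem r10294 : PImp [l3213, o5363, l3425, o4912, o8585, l4380, l4835, l2661, l4847, l6132, o4907] l10294 := rupP (by decide +kernel)
theorem r10295 : PImp [l3217, l5036, l2994, l2998, l3000, l2836, l10294, l3433, o4513, l5682] l10295 := rupP (by decide +kernel)
theorem r10296 : PImp [l10242, l5036, l9243, l5039, l10291, l6243, l5374, l5253, l2676, l2671, l2992, l4158, l4157, l5344, l5343, l1242, l5644, l485, l482, l5268, l3503, l3498, o4389, o4481, l5396, l4893, l4890, l4967, l5643, l1412, l5269, l4087, l10293, l3217, l2635, l2637, l2638, l10295, o3467, o3470, l9251, l2659, l2662, l1738, l6254, o4886, l3468, l4417, o2755, l5682, o6762] l10296 := rupP (by decide +kernel)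
theorem r10297 : PImp [l5038, l9243, l481, l480, l5587, l5113, l2990, l2991, l9791, l3826, l3833, l1145, l10179, l1210] l10297 := rupP (by decide +kernel)
theorem r10298 : PImp [l10297, l3935, l5038, l3222, l9243, l3008, l2988, l2991, l5437, l5412, l9244, l432, l1145, l1218, l3826, o4701, o4702, o4723, l5622, l4221, l4245, l4238] l10298 := rupP (by decide +kernel)
theorem r10299 : PImp [l5038, l3222, l3935, l10297, l476, l473, l10298, l4655, l7699, l432, o4491, o4482, l1254, l3855, l3836, l3857, l2942, l5952] l10299 := rupP (by decide +kernel)
theorem r10300 : PImp [l3222, l10296, l5038, l10299, l6243, l5303, l9711] l10300 := rupP (by decide +kernel)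
theorem r10301 : PImp [l4096, o8547, l2339, o8465, l4850, l4834, l7692, l5793, l4395] l10301 := rupP (by decide +kernel)
theorem r10302 : PImp [l4211, l4214, l3362, o8481, o3569, o8562, o8565, l1641, l2268, l2267] l10302 := rupP (by decide +kernel)
theorem r10303 : PImp [l2836, l2837, l2998, l2996, l390, l4157, l499, l498, o5358, o5361, o5360, l3389, l2840, l10302, l4096, l10301, o8547, l4967, o8465, l1412] l10303 := rupP (by decide +kernel)
theorem r10304 : PImp [l10300, l9260, l5587, l5113, l3008, l480, l3935, l10211, l9243, l2990, l3848, o4698, l1218, l5377, l2989, l5039, l2735, l10182, o4716, o4475, l3851, l2733, l5190, o5166, l3153, l481, l390, l4225, l1137, l4799, l2547, o4705, l10242, l4157, l3341, l3339, l3338, l3335, l5036, l2998, l3000, l2836, l10303, o5452, l3431, o4555, o4546, o8849, l5128, l4838, l4850, l2631] l10304 := rupP (by decide +kernel)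
theorem r10305 : PImp [l10300, l9260, l5587, l5113, l3008, l480, l3935, l10211, l9243, l2990, l3848, o4698, l1218, l10242, l5377, l4156, l4157, l4158, l3342, l3341, l3340, l5036, l10304, l2820, o3468, o3467, o3470, l3444, l3389, l3375, o5453, o5450, o5452, o8626, l5279, o8623, o8722, l2288, l2316] l10305 := rupP (by decide +kernel)
theorem r10306 : PImp [l1641, o8849, o5744, o8419, o8563] l10306 := rupP (by decide +kernel)
theorem r10307 : PImp [l10300, l10242, l9243, l3935, l3340, l3341, l3342, l9260, l481, l480, l5587, l5377, l5113, l4158, l4157, l4156, l2991, l10211, l5039, l10182, l2733, l2735, l3831, l390, l2834, l2546, l4225, l10305, l2635, l2637, l2638, l10306, o3767, o3768, o8416, o8419, o8721, o5744, o8722] l10307 := rupP (by decide +kernel)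
theorem r10308 : PImp [l1242, l1137, l5036, l3000, l3435, l5128, l498, o5366, l4096, l3389, l2840, o8547, o8465] l10308 := rupP (by decide +kernel)
theorem r10309 : PImp [l1242, l1137, l5039, l5036, l10308, o3469, l3444, l9261, l8601, l4375, l5128] l10309 := rupP (by decide +kernel)
theorem r10310 : PImp [l9243, l10242, l10300, l10307, l6243, l5374, l5303, l2990, l2991, l10211, l4158, l4157, l476, l5344, l5343, l5039, l10182, l5644, l485, l482, l2676, l2671, l4901, l4904, l5268, l3503, l3498, o4466, l1242, l3529, l4967, l5396, l3847, o4389, l2657, l2658, l3336, l3337, l3153, l1412, l5269, l10309, l2635, l2637, l2638, l10295, o3468, o3467, o3470, l9251, o1554, o1544, l10289] l10310 := rupP (by decide +kernel)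
theorem r10311 : PImp [l5113, l3000, l499, l2726, l4170, l4113, l3725, o3570, o4972, l3729, o4912, o8802, o8776, l4967] l10311 := rupP (by decide +kernel)
theorem r10312 : PImp [l5113, l1210, l2998, l3000, l10311, o4555, o4546, l3729, l3749, l3748] l10312 := rupP (by decide +kernel)
theorem r10313 : PImp [l3114, l3113, l5587, l5113, l1209, l2628, l5377, l4210, l5039, l10310, l9243, l5035, l4131, l4130, l10312, l2820, o3469, o3471, l4149, l35, l4143, o5466, o8657, l746, l4633, o8609, l2546, l4560, l2329] l10313 := rupP (by decide +kernel)
theorem r10314 : PImp [l5113, l3000, l2726, l9240, l4096, l10312] l10314 := rupP (by decide +kernel)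
theorem r10315 : PImp [o2343, o9116, o8749, l9251] l10315 := rupP (by decide +kernel)
theorem r10316 : PImp [l10310, l3929, l4556, o1543, l10315, l2631, o8680, l5793, o4962] l10316 := rupP (by decide +kernel)
theorem r10317 : PImp [l4157, l4158, l3111, l3113, l2628, l9243, l2833, l4210, l10310, l499, o5375, l4113, l4662, l2844, l4211, l4214, l1102, l33, l10316, l2270, o1567, o8846, o8683, o5770] l10317 := rupP (by decide +kernel)
theorem r10318 : PImp [l5587, l5113, l1209, l3222, l9243, l2833, l390, l5377, l10310, l3929, l3113, l3114, l10313, l5036, l4156, l10314, l2821, o3468, o3467, o3469, o3472, o3470, l35, l10317, l494, o5450, o4540, l3133, l1590, l3126, l4188, l4638] l10318 := rupP (by decide +kernel)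
theorem r10319 : PImp [l5035, l3217, l1145, l1210, l3929, l2994, l2995, l3000, l3794, l3785, l3726, l5796] l10319 := rupP (by decide +kernel)
theorem r10320 : PImp [l3726, l3724] l10320 := rupP (by decide +kernel)
theorem r10321 : PImp [l10320, o4971, o4972, o8706, o8705, o8740, l763, o1553, o1561, o8739, o8431] l10321 := rupP (by decide +kernel)
theorem r10322 : PImp [l2637, l2635, l2636, l2634, l2633, l5039, l5587, l5113, l481, l10310, l9243, l5035, l4132, l4131, l4133, l4130, l4127, l10319, l2821, o3468, o3469, o3471, o3472, o3470, l10321, l1242, l5167, l1138, o5493, o5491, o5494, o8738, o8705, o8702, l39] l10322 := rupP (by decide +kernel)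
theorem r10323 : PImp [l5036, l2994, l5794, l3807, l4189, o4528] l10323 := rupP (by decide +kernel)
theorem r10324 : PImp [l9243, o3467, o3468, l2638, l2637, l3217, l2628, l2833, l5377, l4210, l5587, l5113, l2992, l480, l10310, l3928, l2824, l2822, l4967, l4662, l1412, l5269, o4912, l477, l2732, l2533, l9251, l2329, o5349, l5206, o1542, o8417] l10324 := rupP (by decide +kernel)
theorem r10325 : PImp [l481, l5377, l5587, l480, l2733, l390, l4216, l4225, l4799, l9243, l5039, l2547, l5113, l2991, l3008, l3935, l10310, l3929, l9791, l3826, l3833, l1145, l1149, l10318, l3213, l3217, l10322, l5036, l4158, l4157, l10323, l10324, o4513, l4658, l3807, l4639] l10325 := rupP (by decide +kernel)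
theorem r10326 : PImp [l5035, l3729, l3725, o4557, l4141, l4149] l10326 := rupP (by decide +kernel)
theorem r10327 : PImp [l5035, l10326, l3001, l3735, l3727, l4149, l4143] l10327 := rupP (by decide +kernel)
theorem r10328 : PImp [l5113, l3000, l2726, l9240, o4555, l3729] l10328 := rupP (by decide +kernel)
theorem r10329 : PImp [l5113, l10327, l5036, l10328, l2821, l4621, l499, l4113, l5129, l3739, l3737] l10329 := rupP (by decide +kernel)
theorem r10330 : PImp [l5035, l3217, l2995, l10319, l3785, l3782] l10330 := rupP (by decide +kernel)
theorem r10331 : PImp [l499, o5358, l5167, o8398, o8430] l10331 := rupP (by decide +kernel)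
theorem r10332 : PImp [l2636, l3213, l1210, l10310, l9243, l5035, l4130, l10330, l2821, o3469, l10331, o4555, l9168, l3728] l10332 := rupP (by decide +kernel)
theorem r10333 : PImp [l9243, o3470, l2635, l5587, l5113, l2992, l5377, l10310, l2824, l2822, l4967, l5345, l1412, l5269, o4912, l5197] l10333 := rupP (by decide +kernel)
theorem r10334 : PImp [l9243, l5587, l5113, l2991, l2990, l5377, l480, l481, l3935, l10310, l3929, l5039, l2733, l2547, l390, l3147, l4799, l4225, l10325, l10182, l5190, l3848, l2735, l4801, o4711, o4716, l3828, l3831, l1138, l3847, l3220, l3153, l10329, l3213, l3217, l10332, l5036, l4156, l10323, l10333, o4540, l4658, l4638] l10334 := rupP (by decide +kernel)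
theorem r10335 : PImp [l5587, l5113, l10334, l10211, l10299] l10335 := rupP (by decide +kernel)
theorem r10336 : PImp [l3929, l3797, l3782, o4986, o5002] l10336 := rupP (by decide +kernel)
theorem r10337 : PImp [l10335, l9260, l10299, l4132, l5035, l10310, l3725, l3808, o4841, l10336, l3142, o8504, o8462] l10337 := rupP (by decide +kernel)
theorem r10338 : PImp [l5035, l10335, l9260, l10299, l9243, l5039, l2641, l3008, l2991, l9244, l1218, l1149, l3826, o4702, l4798, o4701, l5622, l4221, l428, l1412, l1210, l2992, l10310, l2994, l2995, l3000, l2836, l10337, o4898, l3729, l4146, l4145] l10338 := rupP (by decide +kernel)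
theorem r10339 : PImp [l10335, l9260, l3113, l3008, l9243, l2991, l9244, l1218, l1149, l3826, o4701, l5622, l4221, o4702, l10299, l10310, l4130, l10338, l2820, o3469, l5777, l4146, l34, o5392] l10339 := rupP (by decide +kernel)
theorem r10340 : PImp [l3008, l1218, l1149, l1210, l2994, l2995, l3000, l4782, o4900, o4880, l2725, l3740, l3725, l10336, l3781] l10340 := rupP (by decide +kernel)
theorem r10341 : PImp [l2821, l499, o5364, l4783, l668, l35, o8376, l4106, l4214] l10341 := rupP (by decide +kernel)
theorem r10342 : PImp [l10335, l9260, l9243, l2991, l3008, l9244, l1218, l1149, l3826, l3830, l2989, l3222, l3849, l425, l3007, l428, l5269, l1412, l10299, l5039, l2641, l2640, l10310, l3929, l3928, l3113, l10339, l5036, l4158, l4157, l4156, l6237, o4796, o4795, o4794, l10340, o3468, o3467, o3469, o3470, l10341, l494, l491, l2536, l2533, l3129, l3127, l3141, l5899, o8323, o8377, l6084, o8375] l10342 := rupP (by decide +kernel)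
theorem r10343 : PImp [l3217, l3008, l1218, l1149, l2994, l2995, l3000, l10336, l3730] l10343 := rupP (by decide +kernel)
theorem r10344 : PImp [l499, o5363, o5364, o5366, l4107, o8397, o8400, o8430, l39] l10344 := rupP (by decide +kernel)
theorem r10345 : PImp [o4836, o4838, o4839, o8400, o8401, o8432, o8430, o1553, o1561, o8739, o8431] l10345 := rupP (by decide +kernel)
theorem r10346 : PImp [l10342, l2637, l2635, l2636, l2634, l2633, l10335, l9260, l9243, l2991, l3008, l9244, l1218, l1149, l3826, l428, l1412, l10299, l5039, l2641, l10310, l5035, l4132, l4131, l4133, l4130, l4127, l10343, l2821, o3468, o3469, o3471, o3472, o3470, l10344, l2823, l4173, l10345, l3730, l3728] l10346 := rupP (by decide +kernel)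
theorem r10347 : PImp [l2994, l2836, l5794, o8561, l9710] l10347 := rupP (by decide +kernel)
theorem r10348 : PImp [l9243, l2991, l2989, l3008, l10335, l9260, l10299, l5039, l2641, l2640, l3222, l10310, l3929, l9244, l1218, l428, l425, l1149, l1412, l5269, l3007, l3826, l3849, o4701, o4702, l5622, l4221, l4798, l10342, l3213, l3217, l2635, l2637, l2638, l10346, l5036, l4158, l4157, l4156, l6237, o4796, o4795, l10347, o3468, o3467, o3470, l2536, l2535, l5345, l9251, o8445, o8417, o1542, o1564] l10348 := rupP (by decide +kernel)
theorem r10349 : PImp [o4900, o4880, l3725, l3782, l3781] l10349 := rupP (by decide +kernel)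
theorem r10350 : PImp [l5035, l3929, l3762, l3744, l2740, o4326] l10350 := rupP (by decide +kernel)
theorem r10351 : PImp [l5035, l1145, l3929, l2994, l2995, l2996, l2998, l3000, l10349, l494, l4782, l4174, l3729, l3725, l10350, l3216, l4789, l10336] l10351 := rupP (by decide +kernel)
theorem r10352 : PImp [l499, o5364, l4106, l34] l10352 := rupP (by decide +kernel)
theorem r10353 : PImp [l2820, l3929, l3928, l2536, l2533, l3127, l3141, o8605, o8655, l4143, o5380, l4139, l1594] l10353 := rupP (by decide +kernel)
theorem r10354 : PImp [l10335, l9260, l3113, l10348, l9243, l2991, l10299, l5039, l2641, l5623, l5636, l3008, l4796, l4970, o4703, l2939, l2992, l3824, o4498, l1412, o4492, l10310, l5035, l4133, l4130, l4428, l10351, l2821, o3467, o3469, o3470, l8893, l10352, l494, l491, o5482, l10353, l4172, l746, o8657, l4106, o5493] l10354 := rupP (by decide +kernel)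
theorem r10355 : PImp [l9243, l2991, l10348, l10335, l9260, l10299, l5039, l2641, l5623, l5636, l3008, l4796, l4970, o4703, l2938, l2992, l3824, o4498, l1412, l4968, l3007, l3823, l6670, l2640, l10310, l3929, l3928, l10354, l5036, l10252, l2994, l3135, l491, l2533, l5724, l3803] l10355 := rupP (by decide +kernel)
theorem r10356 : PImp [l5035, l10330, l10343] l10356 := rupP (by decide +kernel)
theorem r10357 : PImp [l10355, l2638, l2637, l2636, l2634, l3213, l10335, l9243, l9260, l10299, l5039, l2641, l2992, l10348, l3824, o4498, l1412, l3825, l5623, l5636, l10310, l3929, l5035, l4132, l4131, l4130, l4428, l10356, l2821, o3468, o3467, o3469, o3471, l10344, l494, o5482, l2823, l4787, o8701, o8737] l10357 := rupP (by decide +kernel)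
theorem r10358 : PImp [l10335, l9243, l9260, l10299, l5039, l2641, l2640, l10310, l3929, l3008, l2992, l2991, l10348, l5623, l5636, l4796, l3824, l4968, l4970, o4498, l3823, l3007, o4703, l1412, l2938, l10355, l3217, l10357, l5036, l10252, l2994, l4640, l2823, l4411, l2822] l10358 := rupP (by decide +kernel)
theorem r10359 : PImp [l499, l4095, l4111, o3497, l10352] l10359 := rupP (by decide +kernel)
theorem r10360 : PImp [l10335, l9260, l3222, l10358, l5112, l7703, l5036, l10310, l3928, l10299, l9243, l5039, l2641, l6455, l4798, o5168, l4782, o5186, l2730, l3140, o5366, o5365, o5364, l3114, l3113, l485, l4655, l432, l1254, l473, o4485, l476, o4494, l428, l1360, l1316, l2640, l7699, l4156, l6263, l3850, l3827, l1218, l3852, o2989, l9235, l4218, l7651, o8377, l10359, l4212, l5129, o3102, o3100, l1592, o8378, l668, o1582] l10360 := rupP (by decide +kernel)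
theorem r10361 : PImp [l10335, l9260, l10299, l9243, l5039, l2641, l10358, l6455, l4798, o5168, l7703, l5036, l4655, o4498, l5112, l1360, l10310, l3929, l4782, o5187, l4593, l10360, l6670, l3824, l5793, l3218, l3778, l3775] l10361 := rupP (by decide +kernel)
theorem r10362 : PImp [l2926, l2920, l4655, l432, l1254, l7703, l5036, l428, l3929, o4513, o4518, l3133, l3804, l5165] l10362 := rupP (by decide +kernel)
theorem r10363 : PImp [l3850, l10341, l3852] l10363 := rupP (by decide +kernel)
theorem r10364 : PImp [l10335, l9260, l10299, l9243, l5039, l2641, l10358, l6455, l4798, l485, l4655, l432, l1254, l7703, l5036, l473, o4485, l3222, l10310, l3113, l10361, o3469, l10362, l3135, l10363, l5623, l4796] l10364 := rupP (by decide +kernel)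
theorem r10365 : PImp [l3929, o4513, o4518, o4508, o4540, l5165, l5169, l3779, l2916, o2787] l10365 := rupP (by decide +kernel)
theorem r10366 : PImp [l10310, l3929, l10358, l4655, l5112, l5276, l7703, l428, l432, l5036, l1254, l10364, l3213, l3217, l5794, l10365, l4631, l2822, l2920, l2930, l4411, l5165, l5169, l2747, o4308] l10366 := rupP (by decide +kernel)
theorem r10367 : PImp [o5100, l8362] l10367 := rupP (by decide +kernel)
theorem r10368 : PImp [l10366, l6243, l5374, l5303, l5344, l5644, l10310, l5035, l3000, l9243, l2992, l5343, l5268, o4481, l4890, l4967, o4912, l3725, l4170, l3928, l2667, l2725, o5362, o3556, l4183, o8525, l3141, l4794, l4893, l2677, l2676, l1242, o4395, l1210, l2995, l3785, o4535, l3007, o4470, l2991, l4903, l498, l4141, l1137, l1412, l328, l2605, l10367, o4574, o5824, l8243] l10368 := rupP (by decide +kernel)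
theorem r10369 : PImp [l10366, l6243, l5374, l9243, l2992, l5303, l5343, l5344, l5644, l5268, o4481, l4890, l4967, l5269, l4893, l2677, l2671, l6259, l4597, l2538] l10369 := rupP (by decide +kernel)
theorem r10370 : PImp [l10366, l6243, l5374, l5303, l5344, l5644, l10310, l5035, l3000, l9243, l2992, l5343, l5268, o4481, l4890, l4967, o4912, l3725, l4170, l3928, l2667, l2725, o5362, o3556, l4183, o8525, l3141, l4794, l4893, l2677, l2676, l1242, o4395, l1210, l2995, l3785, o4535, l3007, l3006, l3787, o4470, l2991, l4903, l499, l4108, l4106, l5167, l3733, l498, l1209, l1137, l1412, l10368, l10369, l5525, o5824, l7971, o3582, l5555] l10370 := rupP (by decide +kernel)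
theorem r10371 : PImp [l10366, l6243, l5374, l5303, l5344, l5644, l10310, l5035, l3000, l9243, l2992, l5343, l5268, o4481, l4890, l4967, o4912, l3725, l4170, l3928, l2667, l2725, o5362, o3556, l4183, o8525, l3141, l4794, l4893, l2677, l2676, l1242, o4395, l1210, l2995, l3785, o4535, l3006, o5365, l498, l4141, l2808, l4129, l499, l4108, l4106, l1594, l3127, o4470, l2991, l4902, l5167, l2726, l3733, l1209, l1138, l5269, l3929, l10370, l10184, l8635, l6124, l6707] l10371 := rupP (by decide +kernel)
theorem r10372 : PImp [l6124, l6707] l10372 := rupP (by decide +kernel)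
theorem r10373 : PImp [l10366, l6243, l5374, l5303, l5344, l5644, l10310, l5035, l3000, l9243, l2992, l5343, l5268, o4481, l4890, l4967, o4912, l3725, l4170, l3928, l2667, l2725, o5362, o3556, l4183, o8525, l3141, l4794, l4893, l2677, l2676, l1242, o4395, l1210, l2995, l3785, o4535, l3006, o5365, l498, l4141, l2808, l4129, l499, l4108, l4106, l1594, l3127, o4470, l2991, l4902, l5167, l2726, l3733, l1138, l5269, l328, l3929, l10184, l10372, o4574, l9683, l7741, l2584, o6374, o2924] l10373 := rupP (by decide +kernel)
theorem r10374 : PImp [l2713, l10371, l9243, l10366, l5374, l5303, l6243, l2992, l5343, l5344, l5644, l5268, o4481, l4893, l2677, l2676, l498, l10310, l5035, l3000, l4890, l4967, o4912, l3725, l4141, l3929, o5365, l2808, l4129, l499, l4108, l4106, l1594, l3127, l4767, o4470, l2991, l4903, l4170, l1242, l1137, l1412, l2605, l8605, l5518, o5824, l8242] l10374 := rupP (by decide +kernel)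
theorem r10375 : PImp [l10366, l6243, l5374, l5303, l5344, l5644, l10310, l5035, l3000, l9243, l2992, l5343, l5268, o4481, l4890, l4967, o4912, l3725, l4170, l3928, l2667, l2725, o5362, o3556, l4183, o8525, l3141, l4794, l4893, l2677, l2676, l1242, o4395, l1210, l2995, l3785, o4535, l3007, l3006, l3787, o4470, l2991, l4903, l499, l4108, l4106, l5167, l3733, l498, l1209, l1137, l1412, l10374, l10369, l5525, o5824, l7971, o3582, l5555] l10375 := rupP (by decide +kernel)
theorem r10376 : PImp [l10366, l6243, l5374, l5303, l5344, l5644, l10310, l5035, l3000, l9243, l2992, l5343, l5268, o4481, l4890, l4967, o4912, l3725, l4170, l3928, l2667, l2725, o5362, o3556, l4183, o8525, l3141, l4794, l4893, l2677, l2676, l1242, o4395, l1210, l2995, l3785, o4535, l3006, o5365, l498, l4141, l2808, l4129, l499, l4108, l4106, l1594, l3127, o4470, l2991, l4902, l5167, l2726, l3733, l1138, l5269, l328, l3929, l10375, l2557, l10184, l10373, l10372, o4574, o5824, l9683, o6498, l10099, l2571, o6374, o9024, l5516, l2707] l10376 := rupP (by decide +kernel)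
theorem r10377 : PImp [l10366, l6243, l5374, l5303, l5344, l5644, l10310, l3928, l4794, l5268, l9243, l2992, l5343, o4481, l4893, l2677, l2676, l1242, o4395, l1210, l5035, l2995, l3785, o4535, l3006, l3929, l4767, l1138, l4890, l4967, l5269, l2557, l10212, l10372, o4574, o5824, l7935, l10099, l2571, o9024, l2707, o3239, l2576, l6140] l10377 := rupP (by decide +kernel)
theorem r10378 : PImp [l10310, l2605, l2713, l10366, l6243, l3007, l5374, l5303, l9243, l2992, l5343, l5344, l5644, l5268, o4481, l4893, l2677, l2671, l328, l3928, o5100, o5511, l8367, l8732, l4608] l10378 := rupP (by decide +kernel)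
theorem r10379 : PImp [l499, l498, l10366, l6243, l3000, l10310, l5035, l5374, l9243, l2992, l5303, l5343, l5344, l5644, l5268, o4481, l4890, l4967, o4912, l3733, l3725, l4170, l4141, l2726, l4893, l2677, l2676, l4108, l5167, l4106, o4470, l2991, l4902, l2667, l2725, o5362, o3556, l4183, o8525, l3141, o5365, l2808, l4129, l1594, l3127, l10377, l2713, l3928, l4794, l1242, o4395, l1210, l2995, l3785, o4535, l3007, l3929, l4189, l4903, l1209, l1137, l1412, l328, l2605, l7733, l4084, l10378, l5518, o5824, l8242] l10379 := rupP (by decide +kernel)
theorem r10380 : PImp [l10366, l6243, l5374, l5303, l5344, l5644, l10310, l5035, l3000, l9243, l2992, l5343, l5268, o4481, l4890, l4967, o4912, l3725, l4170, l3928, l2667, l2725, o5362, o3556, l4183, o8525, l3141, l4794, l4893, l2677, l2676, l1242, o4395, l1210, l2995, l3785, o4535, l3007, l3006, l3787, o5365, l498, l4141, l2808, l4129, l499, l4108, l4106, l1594, l3127, o4470, l2991, l4903, l4902, l5167, l2726, l3733, l1209, l1137, l1412, l10377, l10379, l10369, l5525, o5824, l7971, o3582, l5555] l10380 := rupP (by decide +kernel)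
theorem r10381 : PImp [l10366, l6243, l5374, l5303, l5344, l5644, l5268, l9243, l2992, l5343, o4481, l4893, l2677, l2676, l1242, o4395, l1209, l1138, l328, l2561, l6145] l10381 := rupP (by decide +kernel)
theorem r10382 : PImp [l10366, l5374, l5303, o5365, l9243, l498, l10310, l5035, l6243, l3000, l2992, l5343, l5344, l5644, l5268, o4481, l4890, l4967, o4912, l3725, l4141, l2808, l4893, l2677, l4129, l499, l4108, l4106, l1594, l2667, l4170, l2725, o5362, o3556, l4183, o8525, l2676, l5167, l2726, l3733, l2995, l1242, o4395, l1210, l1138, l5269, o4470, l2991, l3929, l3928, l4902, l3141, l3127, l4794, l3785, l4189, o4535, l3006, l10380, l10375, l10376, l2557, l10184, l9779, l10372, o5824, l10381, l2571, o9024, l2707, o3239, l2576, l6140] l10382 := rupP (by decide +kernel)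
theorem r10383 : PImp [l9243, l10366, l5374, l5303, l6243, l2992, l5343, l5344, l5644, l5268, o4481, l4893, l2677, l4128, l5035, l3000, l2998, l2996, l2676, l4890, l4967, l10310, l2663, l498, o5366, o4912, l3725, l4141, l2807, o8432, l10382, l3150, l10350, l3744, l3748] l10383 := rupP (by decide +kernel)
theorem r10384 : PImp [l10366, l6243, l3000, l2995, l5374, l5303, l5344, l5644, l5268, l9243, l2992, l5343, o4481, l4893, l2677, l2676, l1242, o4395, l1210, o4389, l10310, l5035, l10383, o4518, o4555, l3785, l3784, l3729] l10384 := rupP (by decide +kernel)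
theorem r10385 : PImp [l10366, l6243, l2998, l2995, l5374, l5303, l5344, l5644, l5268, l9243, l2992, l5343, o4481, l4893, l2677, l2676, l1242, o4395, l1210, l4890, l5643, l10310, l3929, l10323, l3785, l3744, l2739] l10385 := rupP (by decide +kernel)
theorem r10386 : PImp [l10366, l5374, l10384, l4158, l5036, l5303, l5344, o3556, l6243, l3000, l2994, l9243, l2992, l5343, l5644, l5268, o4481, l4893, l2677, l2676, l4890, l4967, o4456, l476, l2988, l10310, l2667, l3929, o5362, o4912, l2725, o8525, l3740, l3725, l10385, l3141, l3138, l3805, l10211, l3529, l3221, l3806] l10386 := rupP (by decide +kernel)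
theorem r10387 : PImp [l10366, l5374, l5303, l5344, l5644, l5268, l9243, l6243, l2992, l5343, o4481, l4893, l2677, l2676, l1242, o4389, l10310, l3929, l2994, l10384, l5036, l10386, o4513, l3134, l3807, l3806] l10387 := rupP (by decide +kernel)
theorem r10388 : PImp [l9243, l10366, l5374, l5303, l6243, l2992, l5343, l5344, l5644, l5268, o4481, l4893, l2677, l4128, l4129, l5035, l10387, o3470, o3471, o3467, o3468, l2821, l4890, l4967, l5269, l4208, l2676, l10310, l2663, l3929, l499, o5365, o5366, l4106, o8432, l1594, l2301, o2345, l2316, l9262] l10388 := rupP (by decide +kernel)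
theorem r10389 : PImp [l10387, l2820, l10366, l6243, l5374, l5303, l5344, l5644, l5268, l9243, l2992, l5343, o4481, l4893, l2677, l2676, l1242, o4395, l1210, l4890, l4967, l1412, l5643, l4087, l10310, l5035, l10388, o4555, o4546, o5195, l4143, l3727, o2776, l3729, l3749, l3748] l10389 := rupP (by decide +kernel)
theorem r10390 : PImp [l9243, l10366, l6243, l2992, l5374, l5303, l5343, l5344, l5644, l5268, o4481, l4893, l10310, l2667, l10387, o3467, l4890, l4967, l5269, l10389, l4158, l9251, l5036, o5362, l4783, o8374] l10390 := rupP (by decide +kernel)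
theorem r10391 : PImp [l10366, l5374, l5303, l5344, l5644, l5268, l9243, l6243, l2992, l5343, o4481, l4893, l2677, l2676, l1242, o4395, l4890, l4967, l1412, l5643, l4087, l5269, l10310, l2667, l3929, l3928, l10387, o3467, l10389, l5036, l4158, l9251, l2629, l10390, o4540, l3133, l5792] l10391 := rupP (by decide +kernel)
theorem r10392 : PImp [l10391, l2638, l3217, l3213, l10366, l5374, l5303, l5344, l5644, l5268, l9243, l6243, l2992, l5343, o4481, l4893, l2677, l2676, l1242, o4395, l4890, l4967, l5269, l10310, l2667, l3929, l4158, l10323, l9251, o3467] l10392 := rupP (by decide +kernel)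
theorem r10393 : PImp [l9243, l10310, l3929, l10366, l6243, l5374, l5303, l2992, l5344, l5343, l5644, l5268, o4481, l4893, l4890, l2677, l4967, l2676, l4208, l5269, l10391, l2635, l2637, l2638, l10392, l4129, l10356, o3468, o3467, o3470, l9262] l10393 := rupP (by decide +kernel)
theorem r10394 : PImp [l10393, l3219] l10394 := rupP (by decide +kernel)
theorem r10395 : PImp [l10393, l3223] l10395 := rupP (by decide +kernel)
theorem r10396 : PImp [l10395, l10393, l7703, l2989, l2992, l480, l1209, l1210, l3000, l2994, l5035, l3119, l3812, l6133, l3342, l3851, l3809, l4133, l5242, l3794, l2843, o4942, l4838, o8775, l8721, l5243] l10396 := rupP (by decide +kernel)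
theorem r10397 : PImp [l10393, l480, l481, l3491, l8603, l7707] l10397 := rupP (by decide +kernel)
theorem r10398 : PImp [l10393, l7703, l1209, l480, l10397, l6133, l10396, l5039, l2846, l4614, l2843] l10398 := rupP (by decide +kernel)
theorem r10399 : PImp [l10393, l2557, l5433, l6818, l7703, l1210, l328, l498, l499, l2604, l10212, l2711, l4767, l8607, l9769, l9219] l10399 := rupP (by decide +kernel)
theorem r10400 : PImp [l10393, l5433, l7703, l1210, l8376, l2673, o4492, l2992, l4891, l328, l498, l2557, l10399, l2615, l10372, l8567, o4574, o5824, l4084, l10205, l8569, o6363, o2924] l10400 := rupP (by decide +kernel)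
theorem r10401 : PImp [l10393, l2708, l7253, l6179] l10401 := rupP (by decide +kernel)
theorem r10402 : PImp [l4082, l10401, o2924, l4608, o6342, o6585] l10402 := rupP (by decide +kernel)
theorem r10403 : PImp [l10393, l2713, l5433, l8376, l2674, l6818, l4183, l7703, l328, l2604, l2711, l9725, o5407, l10402, l8370, l8366] l10403 := rupP (by decide +kernel)
theorem r10404 : PImp [l10394, l10393, l498, l10398, o4492, o4479, o5362, o5364, o5363, l4183, l7703, l1210, l3927, l3442, l3000, l5035, l3118, l3117, l3115, l499, l2992, l2990, l5433, l4892, l6818, l8376, l2659, l2661, l3336, l3837, l2674, o8374, o8525, o9074, l8369, l4132, l4130, o8350, o9106, l6253, o9087, l3370, l8721, o4906, l4841, l10400, l10403, l2614, l2615, l8565] l10404 := rupP (by decide +kernel)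
theorem r10405 : PImp [l10393, l3118, l3117, o3542, o3543, o8479, l3340, o1569, o8525, l5467, o8526, o8504] l10405 := rupP (by decide +kernel)
theorem r10406 : PImp [l10393, l4183, l7703, l1210, l3345, l3423, l3000, l2998, l5035, l3115, l498, l10398, o5363, o5364, o5362, l10405, l5433, l10404, l6818, l3336, l8369, o8481, l6253, l3370, l4846, l8721, l4850, l4838] l10406 := rupP (by decide +kernel)
theorem r10407 : PImp [o5680, o5590, l10135, l7985, l5871, l3569, l8453] l10407 := rupP (by decide +kernel)
theorem r10408 : PImp [l10394, l3234, l2382, l3616, l2648, o8268, o8649] l10408 := rupP (by decide +kernel)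
theorem r10409 : PImp [l7840, l4204, o714, l10127, l9901, o5285, o5286, o5287, o5290, o3427, o3429, o3753, l8341, l2474, l10408, l2550, l8180, l2494, o8187, l3931, l7980, l4943, o2713] l10409 := rupP (by decide +kernel)
theorem r10410 : PImp [l10394, l10393, l7840, l2658, o3434, o3438, l8027, l9994, o2712, l8171] l10410 := rupP (by decide +kernel)
theorem r10411 : PImp [l3234, l3611, l3915, l3233] l10411 := rupP (by decide +kernel)
theorem r10412 : PImp [l1209, l1210, l2980, l2981, o3427, l7985, l9901, l10411, l2550, l1510, o8000, l3930, l8911, l4473] l10412 := rupP (by decide +kernel)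
theorem r10413 : PImp [o8700, l2327] l10413 := rupP (by decide +kernel)
theorem r10414 : PImp [l1210, l10412, l10410] l10414 := rupP (by decide +kernel)
theorem r10415 : PImp [l1209, l1210, l2980, l2981, o3427, l10411, l9901, l2550, l1510, o8000, l3930, l5872, l8911, l4473] l10415 := rupP (by decide +kernel)
theorem r10416 : PImp [l10395, l2379, l4580, l2448, l2449, o7959, l9894] l10416 := rupP (by decide +kernel)
theorem r10417 : PImp [o690, l2657, l8185, l1210, o5285, o5286, o5287, o5290, l10414, o8542, l10415, o3438, o3439, l10416, l7987, l8453, l3573, l3571, l7274, o7959, l9894] l10417 := rupP (by decide +kernel)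
theorem r10418 : PImp [l4208, o3464, l2658, l10413, l4209, l2708, l1209, l1210, l10409, l2477, l4280, l4260, o691, o699, o695, l10417, o5680, o5683, o5682, l10407, l10135, o1474, o1469, l28, o3683, o7826, o7921] l10418 := rupP (by decide +kernel)
theorem r10419 : PImp [l4201, l8341, l2980, l2982, l2827, o3427, l9817, l2606, l2608, o1534, o1536, l9992, o7694, l4949, l1091, o4633, o2283, o4736, l7352] l10419 := rupP (by decide +kernel)
theorem r10420 : PImp [l5042, l2981, l5118, l3930, l2452, l2448, l2457, l7291, l4957, l732, o4606, o2269, o5615, l7352] l10420 := rupP (by decide +kernel)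
theorem r10421 : PImp [l2657, l2834, l8185, o8678, l2711, l2708, l4204, o694, o714, l10127, l10142, o5285, o5286, o5287, o5290, o5627, l10419, l2473, l2474, l10420, o3434, o3435, o3436, l10408, l2494, l2450, l2452, l673, o2283, o8697, o8229] l10421 := rupP (by decide +kernel)
theorem r10422 : PImp [l2980, l2981, l10411, l5667, l3930, l4476, l4473] l10422 := rupP (by decide +kernel)
theorem r10423 : PImp [l1209, l1210, o5285, o5286, l10422, o3438, o3439, l10416, l7987, l8453, l3573, l3571, l7274, l9894, o7959] l10423 := rupP (by decide +kernel)
theorem r10424 : PImp [l4208, o3464, l2658, l10413, l4209, l2657, l2834, l8185, l1209, l10418, o8678, l10421, l2477, l4280, o691, o699, o695, o690, l10423, o5680, o5683, o5682, l10135, o1474, o1469, l28, o8672, o3683, o2287, o7826] l10424 := rupP (by decide +kernel)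
theorem r10425 : PImp [l10393, l7840, l4204, o714, l10127, l10142, l9901, o5287, o5290, l8445, o3427, o3429, l7981, l8921, l7994, l8341, o2716, l3161, l4297, l4917] l10425 := rupP (by decide +kernel)
theorem r10426 : PImp [l1209, l1210, l2980, l2981, l2827, l2829, o3427, l10411, l9901, l2550, l5667, o8000, l2450, l2452, l2447, o7694, l8911, l1091, l10135, o4607, o2283, o5613, o8040] l10426 := rupP (by decide +kernel)
theorem r10427 : PImp [o690, l2657, l2834, l8185, l1210, o5285, o5286, o5287, o5290, l10426, o3438, o3439, l10410, o8542, l10416, l7987, l8453, l3573, l3571, l7274, l9894, o7959] l10427 := rupP (by decide +kernel)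
theorem r10428 : PImp [l10424, l4208, o3464, l2658, l10413, l4209, l2708, l1209, l1210, l10425, l2477, l4280, l4260, o691, o699, o695, l2269, l10427, o5680, o5683, o5682, l10407, l10135, o1474, o1469, l28, o3683, o7826, o7921] l10428 := rupP (by decide +kernel)
theorem r10429 : PImp [l2711, l2708, l4204, o694, o714, l10127, l10142, o5285, o5287, o5290, o5627, o5632, l10419, l2474, l2476, l10420, l8175, o3435, o3437, l2494, l767, l2451, l2312, o8696, o8230] l10429 := rupP (by decide +kernel)
theorem r10430 : PImp [l2980, l2981, l2827, l2829, l10411, l5667, l3930, l2450, l2452, l2447, o7694, l4476, l1091, l10135, o4607, o2283, o5613, o8040] l10430 := rupP (by decide +kernel)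
theorem r10431 : PImp [l1209, l1210, o5285, o5286, l10430, o3438, o3439, l10416, l7987, l8453, l3573, l3571, l7274, l9894, o7959] l10431 := rupP (by decide +kernel)
theorem r10432 : PImp [l4208, o3464, l2658, l10413, l4209, l2657, l2834, l8185, l1209, l10424, l10428, o8678, l10429, l2477, l4280, o691, o699, o695, l2269, o690, l10431, o5680, o5683, o5682, l10135, o1474, o1469, l28, o8672, o3683, o2287, o7826] l10432 := rupP (by decide +kernel)
theorem r10433 : PImp [l10393, o690, l2657, l8185, l7840, l2992, l1209, l1210, o5285, o5286, o5287, o5290, l10422, l10414, o3434, o3438, o3439, l4888, o8542, l10416, l7987, l2469, o2712, l8453, l2646, l8273, l3613, o4753, l3174, o8253] l10433 := rupP (by decide +kernel)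
theorem r10434 : PImp [l5728, l8392] l10434 := rupP (by decide +kernel)
theorem r10435 : PImp [l4208, o3464, l2658, l10413, l4209, l2657, l8185, l7840, l2708, l1209, l1210, l10409, l2477, l4280, l4260, o699, o695, l2269, o690, l10433, o5679, o5678, o5681, l7991, l10156, l10434, o3754, o3756, o3757, l25, o7917, o1454, o1461, o7959, o7869, o2269] l10435 := rupP (by decide +kernel)
theorem r10436 : PImp [l10393, l7840, l1209, l1210, o5285, o5286, l10422, o3434, o3438, o3439, l10416, l7987, l2469, o2712, l8453, l2646, l8273, l3613, o4753, l3174, o8253] l10436 := rupP (by decide +kernel)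
theorem r10437 : PImp [l10393, l10432, l4208, o3464, l2658, l10413, l4209, l2657, l2834, l8185, l2708, l2992, l1209, l10435, l4896, o8678, l10421, l2477, l4280, o699, l2269, o690, l10436, o5679, o5678, o5681, l10156, l10434, o3754, o3756, o3757, l25, o8675, o1454, o1461, o7959, o7869, o2269] l10437 := rupP (by decide +kernel)
theorem r10438 : PImp [l2980, l2981, l2827, l2829, l10411, l5667, l3930, l2450, l2452, l2448, l3611, l1091, l3583, o2283, o7708, l2831, o8040, l744, l2294, o5652] l10438 := rupP (by decide +kernel)
theorem r10439 : PImp [l10393, o690, l2657, l2834, l8185, l7840, l2992, l1209, l1210, o5285, o5286, o5287, o5288, o5290, l10438, o3434, o3438, o3439, l10410, l4888, o8542, l10416, l7987, l2469, o2712, l8453, l2646, l8273, l3613, o4753, l3174, o8253] l10439 := rupP (by decide +kernel)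
theorem r10440 : PImp [l4208, o3464, l2658, l10413, l4209, l2657, l2834, l8185, l7840, l1209, l2477, l4280, l4260, o699, o695, l2269, o690, l10439, o5679, o5678, o5681, l7991, l10156, l10434, o3754, o3756, o3757, l25, o7917, o1454, o1461, o7959, o7869, o2269] l10440 := rupP (by decide +kernel)
theorem r10441 : PImp [l4209, l2657, l2834, l8185, l2658, l2708, o3464, l4208, l1209, l1210, l10413, l10432, l10437, l10440, l10425, l10429, o8678] l10441 := rupP (by decide +kernel)
theorem r10442 : PImp [l4204, o694, o714, l10127, l10142, l8173, o5285, o5286, o5287, o5290, o3427, o3752, o3754, o3753, l8341, l2473, l2474, l10408, l8180, l2494, o4633, l2450, l2452, l7291, o4736, l673, o8229, o2283] l10442 := rupP (by decide +kernel)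
theorem r10443 : PImp [l1209, l1210, l2980, l2981, o3427, l8173, l8007, l2606, l2607, l9992, l4473, l4476] l10443 := rupP (by decide +kernel)
theorem r10444 : PImp [o3439, o3438, o690, l2657, l8185, l10410, o8542, l10416, l7987, l8453, l3573, l3571, l7274, l9894, o7959] l10444 := rupP (by decide +kernel)
theorem r10445 : PImp [l10394, l10395, l2381, l2382, l2378, l4580, l2450, l2447, o7963, l10135, l677] l10445 := rupP (by decide +kernel)
theorem r10446 : PImp [l10394, l10393, o3437, o3435, o3434, o695, o699, o691, l2658, o3464, l10444, l2327, l10445, l7987, l8453, l3572, l3613, l10135, l3170, l3172, l3174, o5651, l678] l10446 := rupP (by decide +kernel)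
theorem r10447 : PImp [l10394, l10395, l2381, l2382, l2378, l4580, l2450, l2447, o7963, o7960, l677] l10447 := rupP (by decide +kernel)
theorem r10448 : PImp [l10393, o699, o691, l7840, l1210, o5285, o5286, o5287, o5290, l10443, o3434, o3435, o3437, l10446, l10447, l7987, o2712, o2714, l8273, l8171, l10008, l1244, l1139] l10448 := rupP (by decide +kernel)
theorem r10449 : PImp [o5682, o5680, l10407, l10135, o1469, o7826, o7921] l10449 := rupP (by decide +kernel)
theorem r10450 : PImp [l4209, l2657, l8185, l7840, l2658, l2708, l4208, l1209, l1210, l10442, l2477, l4280, l4260, o691, o695, l2269, o690, l10448, o5679, o5678, o5681, l10156, l10434, o3754, o3753, o3756, o3757, l10449, l7991, l25, o7917, o1454, o1461, o7959, o7869, o2269] l10450 := rupP (by decide +kernel)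
theorem r10451 : PImp [l10393, l2657, l2834, l8185, o8678, l2992, l4896, l2711, l2708, l4204, o694, o714, l10127, l10142, o5285, o5286, o5287, o5290, o5627, o5632, l10419, l2473, l2474, l10420, o3434, o3435, l10408, l2494, l2450, l2451, l7291, l673, o4750, o2287, l676, o8230] l10451 := rupP (by decide +kernel)
theorem r10452 : PImp [l4581, l2467] l10452 := rupP (by decide +kernel)
theorem r10453 : PImp [l2980, l2981, l10452, l5667, l3930, l4473, l4476] l10453 := rupP (by decide +kernel)
theorem r10454 : PImp [l1140, l1244] l10454 := rupP (by decide +kernel)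
theorem r10455 : PImp [o699, o691, l7840, l1209, l1210, o5285, o5286, o5287, o5290, l10453, o3434, o3435, o3437, l10446, l10447, l7987, o2712, o2714, l8273, l10008] l10455 := rupP (by decide +kernel)
theorem r10456 : PImp [l4209, l2657, l2834, l8185, l2658, l2708, l4208, l1209, l10450, l10451, l2477, l4280, l4260, o691, o695, l2269, o690, l10454, l10455, o5679, o5678, o5681, l10156, l10434, o3754, o3753, o3756, o3757, l10449, l25, o8675, o1454, o1461, o7959, o7869, o2269] l10456 := rupP (by decide +kernel)
theorem r10457 : PImp [l1209, l1210, l4204, o694, o714, l10142, l8341, l10419, o3427, l8173] l10457 := rupP (by decide +kernel)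
theorem r10458 : PImp [o5285, l1209, l1210, l2980, l2981, l2827, l2829, o3427, l10452, l8173, l2550, l5667, o8000, l7984, l2450, l2452, l2448, o7694, l8911, l2831, l1091, o4606, l744, o2283, o5616, o8040] l10458 := rupP (by decide +kernel)
theorem r10459 : PImp [l10393, o691, l7840, o3434, o3435, o3437, l10446, l10447, l7987, o2712, o2714, l8273, l8171, l10008, l1244, l1139] l10459 := rupP (by decide +kernel)
theorem r10460 : PImp [l10393, o5290, o5288, o5287, o5286, o5285, l4209, l2657, l2834, l8185, l2711, l4208, l2992, l1209, l1210, l4201, l10457, l4280, l4260, l2269, l10459, l2980, l2827, l2829, l10452, l10458, l5667, l4896, l3930, l2450, l2452, l2448, o7694, o4750, l3611, l1091, l3583, o2283, l2831, o8040, l744, l2294, o5652] l10460 := rupP (by decide +kernel)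
theorem r10461 : PImp [l10393, l10142, l5040, o5290, o5285, l8170, l8173, l8445, o5627, o5632, o3427, o3429, o3753, o3755, l7994, o4654, l8175, l767, l2494, o2276, l2451, l7291, o8230, o4744] l10461 := rupP (by decide +kernel)
theorem r10462 : PImp [l10393, l4209, l2657, l2834, l8185, l7840, l4602, l2708, l4082, l2992, l1209, l1210, o5285, l10460, l2484, l2474, l2475, l2476, l2477, l10142, l10461, l4896, o8678, o5627, o5632, l10420, o3435, o3437, l8175, l767, l2494, o2276, l2451, l7291, o8230, o4750, l676] l10462 := rupP (by decide +kernel)
theorem r10463 : PImp [l7840, o5679, o5678, o5681, l10127, l10156, l2477, l4280, o691, o695, l2269, o690, l10434, o3754, o3753, o3756, o3757, l10449, l7991, l25, o7917, o1454, o1461, o7959, o7869, o2269] l10463 := rupP (by decide +kernel)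
theorem r10464 : PImp [l10393, l2555, l2550, l2551, o2335, o2338, o2336, l10411, l3611, l1091, l4283, l4284, l2647, l2648, l28, o8112, l676, o7767, o7942] l10464 := rupP (by decide +kernel)
theorem r10465 : PImp [l4201, l4209, l1209, l1210, l4204, o694, o714, l8341, l2980, l2981, l2982, l2828, l2827, o3427, l10464, l7978, o8021, l8320, l2606, l2608, o1534, o1538, o1536, l7985, l9992, l4949, l1091, o4610, o2283, l7352, o5616, l7982, o8768, o7729] l10465 := rupP (by decide +kernel)
theorem r10466 : PImp [l4209, l2657, l2834, l8185, l2711, l4208, l1210, l4201, l10465, l4280, l4260, l2269, l10459, l2980, l2981, l2827, l2829, l10411, l4583, l3930, l2450, l2452, l2448, o7694, l3611, l4476, l1091, l3583, o4606, o2283, l2831, o8040, l744, o5616] l10466 := rupP (by decide +kernel)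
theorem r10467 : PImp [l10394, l10393, l5042, l2981, l2828, l2827, l5162, l3170, l3172, l3174, l3612, l2647, l2648, l2649, o8112, o7770, l676, o7767, o7942] l10467 := rupP (by decide +kernel)
theorem r10468 : PImp [l8175, l10408] l10468 := rupP (by decide +kernel)
theorem r10469 : PImp [l5040, l10467, o3435, l10468, l2494, l8180, l3931, l7291, l4943, o8053, o2713] l10469 := rupP (by decide +kernel)
theorem r10470 : PImp [l10394, l10395, l3234, l2382, l2378, l10021, l3612, o4750, l2647, l2648, o8112, l676, o7767, o7942] l10470 := rupP (by decide +kernel)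
theorem r10471 : PImp [l5042, l2980, l2981, l2828, l2827, l10470, l2492, l1446, l3930, l2450, l2452, l2448, o4750, l4957, o8456, o4606, o2283, l7352, o5616, l7982, o8768, o7729] l10471 := rupP (by decide +kernel)
theorem r10472 : PImp [l10393, l1209, l4208, l2708, l4209, l2657, l2658, l2834, l8185, l10463, o5290, o5288, o5287, o5286, o5285, l7840, l2992, l1210, l10441, l10466, l2473, l2474, l2475, l2476, l2477, l10469, l4896, o8678, l10471, o3435, o3437, o3438, l10468, l7982, l2494, o5632, l2451, l2447, l7291, l617, o4750, o2276, l676, o8230] l10472 := rupP (by decide +kernel)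
theorem r10473 : PImp [l4082, l4602, l10472, l1209, l4208, l2708, l4209, l2657, l2658, l2834, l8185, l10463, l10456, l10462] l10473 := rupP (by decide +kernel)
theorem r10474 : PImp [o5285, l4602, l1209, l1210, l2980, l2981, l2827, l2829, o3427, l10452, l2550, l4583, l7978, l3930, l2450, l2452, l2448, o7694, l4081, o716, o714, l7984, l4476, l1091, l2831, o4606, o2283, l744, o5616, o8040] l10474 := rupP (by decide +kernel)
theorem r10475 : PImp [l4201, l8341, l5041, l4204, l10459] l10475 := rupP (by decide +kernel)
theorem r10476 : PImp [l4204, o694, l4949, l7352, o4610, o5616, l7982, o8768, o7729] l10476 := rupP (by decide +kernel)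
theorem r10477 : PImp [o5290, o5289, o5287, o5286, o5285, l2657, l2834, l8185, l4082, l4208, l1210, l4201, l10475, l2980, l2982, l2985, l2828, l2827, l10452, l10474, l4583, l10454, l3931, l2450, l2451, l2452, l2448, o7694, l3595, l1091, o2283, o2287, l10476, l4280, o695, l5689, l3565, o8041, o4617, l2831, o5618, l744] l10477 := rupP (by decide +kernel)
theorem r10478 : PImp [l5040, l10467, o3434, o3435, o3436, o3438, l10468, l7982, l2494, l8180, o4633, l2450, l2452, l7291, o4736, l673, o8229, o2283] l10478 := rupP (by decide +kernel)
theorem r10479 : PImp [l10393, l4209, l2657, l2834, l8185, l7840, l2658, l4602, l2708, l4082, l4208, l2992, l1209, l1210, l10463, o5285, o5286, l10472, l10473, l10477, l2473, l2474, l2475, l2476, l2477, l10478, l4896, o8678, l10471, o3435, o3437, o3438, l10468, l7982, l2494, o5632, l2451, l2447, l7291, l617, o4750, o2276, l676, o8230] l10479 := rupP (by decide +kernel)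
theorem r10480 : PImp [l1209, l1210, l9901, l4081, o716, o714, l10438] l10480 := rupP (by decide +kernel)
theorem r10481 : PImp [l2829, l2827, l2828, l2981, l2980, l2711, l1209, l1210, l10480, l10464, l7978, o8000, l4081, o716, o714, l2606, l2607, o1534, o1538, o1536, l10411, o7694, l3611, l4476, l1091, l3583, o4606, o2283, l2831, o8040, l744, o5616] l10481 := rupP (by decide +kernel)
theorem r10482 : PImp [l5669, o8698] l10482 := rupP (by decide +kernel)
theorem r10483 : PImp [l4204, o694, o714, l10419, l9817, o1538, l10482, o8768, o7729] l10483 := rupP (by decide +kernel)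
theorem r10484 : PImp [o3427, l4201, l2711, l4208, l10483, l4280, l2269, l10438] l10484 := rupP (by decide +kernel)
theorem r10485 : PImp [l4201, l4204, o694, o714, o8021, l8320, l2606, l2608, o1534, o1538, o1536, l7985, l9992, l4949, l1091, o4610, o2283, l7352, o5616, l10482, o8768, o7729] l10485 := rupP (by decide +kernel)
theorem r10486 : PImp [l4209, l2657, l2834, l8185, l2711, l4082, l4208, l1209, l1210, l4201, l10475, l2980, l2981, l2982, l2828, l2827, l2829, o3427, l10481, l10484, l10464, l10485, l4280, l4260, l2269, l10411, l4583, l3930, l3931, l2450, l2452, l2448, o7694, l3611, l4468, l1091, o4610, l3583, o2283, l2831, o8040, l744, o5616] l10486 := rupP (by decide +kernel)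
theorem r10487 : PImp [l1209, l1210, o3427, l10467, l9901] l10487 := rupP (by decide +kernel)
theorem r10488 : PImp [l5040, l7840, l1209, l1210, l10487, l2858, o3435, l10468, l2550, l8182, l7978] l10488 := rupP (by decide +kernel)
theorem r10489 : PImp [l5040, l3931, l2450, l2452, l2448, l2457, o7717, l4949, o4750, o4610, o8456, o2283, l7352, o5616, l10482, o8768, o7729] l10489 := rupP (by decide +kernel)
theorem r10490 : PImp [l2980, l2982, l2828, l2827, l10489, l5118, l2492, l10470] l10490 := rupP (by decide +kernel)
theorem r10491 : PImp [l10393, l4209, l2657, l2834, l8185, l4602, l2992, o5285, o5286, o5287, o5288, o5290, l10486, l2484, l2473, l2474, l2475, l2476, l2477, l10488, l4896, l10490, o3434, o3435, o3436, l10468, l2494, l2450, l2452, l673, l8399, o2283] l10491 := rupP (by decide +kernel)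
theorem r10492 : PImp [l9432, l5728, l8392] l10492 := rupP (by decide +kernel)
theorem r10493 : PImp [l10482, l650] l10493 := rupP (by decide +kernel)
theorem r10494 : PImp [o5681, o5678, o5679, l7840, l10449, l7991, l25, o7917, o1454, o1461, o7959, o7869, o2269] l10494 := rupP (by decide +kernel)
theorem r10495 : PImp [l10479, l4209, l2657, l2834, l8185, l2658, l4602, l2708, l4208, l1209, l10491, o5679, l10492, o3754, o3753, o3756, o3757, l10493, l4280, o691, o695, l2269, o690, l10494, l2477] l10495 := rupP (by decide +kernel)
theorem r10496 : PImp [l3924, l5096, o5121, l2371, l5097] l10496 := rupP (by decide +kernel)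
theorem r10497 : PImp [l3239, l2975, l2517, l455, l7334, l4493, l4496] l10497 := rupP (by decide +kernel)
theorem r10498 : PImp [l3926, l3324, l3327, l3533, l8317, l4587, l4588, l5093, l5149, l2417, l2348, l5140, l655, l5152, o3364] l10498 := rupP (by decide +kernel)
theorem r10499 : PImp [l2518, l2520] l10499 := rupP (by decide +kernel)
theorem r10500 : PImp [l7703, l2980, o7694, l3931, l10498, l5102, l3236, l3239, l3103, l6442, l10499, l2975, l2796, l2517, l1427, l1443, l455, l3325, o5222, o5218, l7334, l3633, l5097, l4257, l4275, l4496, o3386, o3387, l2441, l2442, l1485, o4585, o2203, o8061] l10500 := rupP (by decide +kernel)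
theorem r10501 : PImp [l4587, l4588, l6283, l3926, l5093, l5149, l5140, o5205, l5152, l2410] l10501 := rupP (by decide +kernel)
theorem r10502 : PImp [l3239, l3236, l3926, l2975, l2796, l2517, l2366, l1427, l455, o5218, l7334, l3633, l5097, l4257, l4275, l4496, o3386, o3387, l2441, l2442, l1485, o4585, o2203, o8061] l10502 := rupP (by decide +kernel)
theorem r10503 : PImp [l3926, l5102, l3236, l3239, l3103, l10502, l2520, l2371, l447, l5082, l2412] l10503 := rupP (by decide +kernel)
theorem r10504 : PImp [l7703, l2980, o7694, l3930, o3414, l2831, o3663, l5669, l3583, o7894, o2245, l10500, l10501, l10503, l3323, l3325, l8317] l10504 := rupP (by decide +kernel)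
theorem r10505 : PImp [l7703, l2980, o7694, l3931, l2982, l4204, o694, o688, o714, l4949, l7352, l8320, o4610, o5616, o5615, l10504, o8768, o7729] l10505 := rupP (by decide +kernel)
theorem r10506 : PImp [l10395, l10393, l10394, o5290, o5288, o5287, o5286, o5285, l2808, l4129, l3119, l1594, o5355, l3532, l2657, l2834, l8185, o5351, l2531, l4602, l4082, l4208, l7703, l1209, l1210, l4201, l10475, l2980, l2985, l2828, l2827, o3427, l10452, l10474, l2550, l4583, l10454, l3930, l2450, l2451, l2452, l2448, l2449, o7694, l3611, l1091, o2283, o2287, l10505, l4280, o695, l3583, l5689, o8041, l2831, o4617, o5618, l744] l10506 := rupP (by decide +kernel)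
theorem r10507 : PImp [l7703, l10503, l3323, l3325, l8317] l10507 := rupP (by decide +kernel)
theorem r10508 : PImp [l4587, l4588, l6283, l3926, l5093, l5149, l5140, o5205, l5152, l2498, l2411, l4574, l4575] l10508 := rupP (by decide +kernel)
theorem r10509 : PImp [o3663, l5669, o7894, o2245] l10509 := rupP (by decide +kernel)
theorem r10510 : PImp [l7703, l2981, l2980, l5040, l5042, l1209, l1210, l2550, l2492, l1446, l8320, l3930, l2450, l2452, l2448, l2449, o4750, l10507, l4957, o8456, o4606, o2283, l7352, o5616, o5615, l10509, o8768, o7729] l10510 := rupP (by decide +kernel)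
theorem r10511 : PImp [l10508, l7703, l2980, l2828, l2827, o3427, l10510, l3234, l10470, l3612, l4820] l10511 := rupP (by decide +kernel)
theorem r10512 : PImp [l10395, l10394, l10393, l2808, l4129, l3119, l1594, o5355, l3532, l2657, l2834, l8185, o5351, l2531, l4602, l7703, l2992, o5285, o5286, o5287, o5290, l10506, l2484, l2473, l2474, l2475, l2476, l2477, l2478, l10488, l4896, l10511, o3434, o3435, o3436, l10468, l2494, l2450, l2452, l673, l8399, o2283] l10512 := rupP (by decide +kernel)
theorem r10513 : PImp [l464, l465, l463, l10475] l10513 := rupP (by decide +kernel)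
theorem r10514 : PImp [o694, l5669, l650, o2269, o1465, o7897] l10514 := rupP (by decide +kernel)
theorem r10515 : PImp [l10395, l10393, l10394, l2808, l4129, l3119, l1594, o5355, l3532, l2658, l2657, o5351, l2531, l2834, l4209, l4602, l2708, l4208, l7703, l1209, l8185, l10479, l10495, l10512, o5679, o5681, l10492, o3754, o3753, o3756, o3757, l10514, l4280, o691, o695, l2269, o690, l10494, l2477] l10515 := rupP (by decide +kernel)
theorem r10516 : PImp [l3926, l2365, l5102, l3103, l3105, l10502, l2342, l2520, l10499, o5223, o7479, o7493] l10516 := rupP (by decide +kernel)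
theorem r10517 : PImp [l3924, l3325, l1128, l2796, l648, o7459, l2372, o5218, l2413] l10517 := rupP (by decide +kernel)
theorem r10518 : PImp [l3930, l2831, l10509, l3583, l10516] l10518 := rupP (by decide +kernel)
theorem r10519 : PImp [l3931, l4204, l2982, l4949, o4610, o694, l10476, l7352, o5616, o5615, l10518, o8768, o7729] l10519 := rupP (by decide +kernel)
theorem r10520 : PImp [l1209, l1210, o688, o714, l7978, l8320, l10517, l10519, l1104, l732, l6715, l5669] l10520 := rupP (by decide +kernel)
theorem r10521 : PImp [l4201, l4208, l2980, l2981, l2827, l2829, o3427, l10452, l2550, l4583, l3930, l2450, l2452, l2448, l2449, o7694, l3611, l1091, l10520, l4280, l2269, l4476, l3583, o4606, l2831, l744, o8127, o5616, l1104, o8040] l10521 := rupP (by decide +kernel)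
theorem r10522 : PImp [o8021, l8007] l10522 := rupP (by decide +kernel)
theorem r10523 : PImp [o8674, o7823] l10523 := rupP (by decide +kernel)
theorem r10524 : PImp [l10393, l4201, l4896, o4750, o8253, l3162, l3598, l2651, l2653, l10523, o8249, l1104, o8162, l2294, o5652] l10524 := rupP (by decide +kernel)
theorem r10525 : PImp [l10393, l3161, o7823, l3598, l2651] l10525 := rupP (by decide +kernel)
theorem r10526 : PImp [l10393, l4201, o4734, l10525, o7959, l1279, o1454, l4888, o4750, o4760, o8253, o4645, o7917, l2283, o2280] l10526 := rupP (by decide +kernel)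
theorem r10527 : PImp [o5616, l2294, o5611, l2327, l737, o2278] l10527 := rupP (by decide +kernel)
theorem r10528 : PImp [o8522, l2327] l10528 := rupP (by decide +kernel)
theorem r10529 : PImp [o8201, l10527, l2314, l2305, o8162] l10529 := rupP (by decide +kernel)
theorem r10530 : PImp [l10394, l10529, o8249, l2651, o1452, o1465, l3598, l9894, l3159, o5637, o8286] l10530 := rupP (by decide +kernel)
theorem r10531 : PImp [l10393, l4201, l2658, l2657, o3434, o3435, o3436, o3437, o3438, o3439, l8341, l4203, l4204, l4205, l4206, l10447, l2469, l2646, l5893, l10526, l10530, l2327, o5650, l2294, o8253, l3162, l4561, l3598, o8162, l2653] l10531 := rupP (by decide +kernel)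
theorem r10532 : PImp [o714, l2550, l4583, l7978, l2448, l2449, l10485, l732, o2258, o8699, o8226] l10532 := rupP (by decide +kernel)
theorem r10533 : PImp [l10395, o3690, o3663, l10493, o5662, l10532, l3235, l2389, l2380, l3595, l748, o8270, l2650, o8264, o8652] l10533 := rupP (by decide +kernel)
theorem r10534 : PImp [l2550, l4583, l7978, l3931, l2452, l2448, o7694, l4949, l6715, o4610, o7729, l2314, o5616, l7352] l10534 := rupP (by decide +kernel)
theorem r10535 : PImp [l4201, l2711, l4209, l4204, o694, o688, o708, o714, l10533, l2850, l10534, l3234, l2467, l10411, l3611, l2606, l4810, o8021, l10464] l10535 := rupP (by decide +kernel)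
theorem r10536 : PImp [l2658, l10508, l2836, l2834, l4209, l4208, l2992, l1209, l1210, l10531, l2980, l2981, l2982, l2828, l2827, l2829, o3427, l10521, l10413, l10535, l4280, l2269, l10411, l4583, l3930, l2452, l2448, o7694, l3611, l4476, l3583, o4606, l2831, l744, o8127, o5616, l2314, o8040] l10536 := rupP (by decide +kernel)
theorem r10537 : PImp [l10393, l2980, l1209, l1210, l2550, l2492, l1446, l7978, l3930, l2450, l2452, l2448, l2449, l4896, l3612, o4750, l10520, l735] l10537 := rupP (by decide +kernel)
theorem r10538 : PImp [l10393, l2828, l2980, l3234, l3612, l4820, l10467, l10470, l4896] l10538 := rupP (by decide +kernel)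
theorem r10539 : PImp [l732, o5616, l2314, o8065] l10539 := rupP (by decide +kernel)
theorem r10540 : PImp [l5040, l2658, l10508, l1209, l1210, l2980, l2982, l2829, o3427, l10538, l2550, l2492, l1446, l10537, l7978, l3931, l2452, l2448, l10413, l4949, o4610, l10539, l10493, o8768, o7729] l10540 := rupP (by decide +kernel)
theorem r10541 : PImp [o7981, l7982, l1104, l8399] l10541 := rupP (by decide +kernel)
theorem r10542 : PImp [l2834, l4209, l4602, l4082, l4208, l2992, o5285, o5286, o5287, o5288, o5290, l10536, l2484, l2473, l2474, l2475, l2476, l2477, l10540, o3434, o3435, o3436, o3438, l10468, l2494, l2450, l2452, l2448, l673, l10541, l732, l1104, o8229, l8399, o5616, o7899, o5611] l10542 := rupP (by decide +kernel)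
theorem r10543 : PImp [o5679, o694, l10127, l650, l5669, l10528, o1465, l10541, o2278] l10543 := rupP (by decide +kernel)
theorem r10544 : PImp [l5893, l2450, l2452, l2448, l5872, l54, o7959, o7869, l1104] l10544 := rupP (by decide +kernel)
theorem r10545 : PImp [l10394, l4124, l10544, l2385, l2382, l5871, o7966, o7921, o1498] l10545 := rupP (by decide +kernel)
theorem r10546 : PImp [l10393, l10394, l10395, l10508, l2424, l4130, l4209, l4602, o3582, l2708, o5511, o5512, l4082, l2808, l2815, o3464, l4129, l4208, l2660, l3120, l7703, l1209, l3119, l3115, l1594, o5355, o5351, o5813, l3532, l2531, l2657, l2658, l3336, l10515, l6253, l10542, o5679, o5681, o5683, o5682, o5718, o5590, l10492, o3752, o3754, o3753, o3756, o3845, l10543, o695, l2269, l10545, l2477] l10546 := rupP (by decide +kernel)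
theorem r10547 : PImp [l5035, l2425, l7703, l8318, l5102, l3239, l3101, l2549, l5173, l3322, l2609, l8315, l8317, o5518, o5584, l8314, l3325, o7460, l2409, o3150, l4494] l10547 := rupP (by decide +kernel)
theorem r10548 : PImp [l3926, l3925, l3236, l3103, l5117, l5122, l653, o5206, l2796, l5076] l10548 := rupP (by decide +kernel)
theorem r10549 : PImp [l2504, l2499] l10549 := rupP (by decide +kernel)
theorem r10550 : PImp [l2503, l2522] l10550 := rupP (by decide +kernel)
theorem r10551 : PImp [l10393, l2424, l7703, l1209, l1210, l7978, l8320, l10454, l10547, l1247, l8316, l3327, l2645, l10548, l2500, l10550, l2826, o7578, o8811] l10551 := rupP (by decide +kernel)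
theorem r10552 : PImp [l4602, o3427, l2827, l2828, l7703, l2981, o5286, o5285, l10508, l10551, l2550, o7830, o8115, l10452, l10464] l10552 := rupP (by decide +kernel)
theorem r10553 : PImp [l2975, l2718, l8923, o7660, l2409] l10553 := rupP (by decide +kernel)
theorem r10554 : PImp [l4602, o3427, o5285, o5511, l1209, l1210, l10452, l2550, l7978, l8320, l10517, l3926, l2365, l5102, l3239, l3104, l3105, l2549, l5173, l8315, l2609, o5579, o5580, l10553, l2342, l2343, l10499, o7479, o663, o7493, l1436] l10554 := rupP (by decide +kernel)
theorem r10555 : PImp [l1209, l1210, l2796, l10553, l1443, l3325] l10555 := rupP (by decide +kernel)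
theorem r10556 : PImp [l5102, l2514, l3239, l3103, l3105, l2549, l5173, l8315, l2609, o5580, l10555, l2342, l10499, o7479, o7493] l10556 := rupP (by decide +kernel)
theorem r10557 : PImp [l10556, l3327, l10548, l10550, l10549] l10557 := rupP (by decide +kernel)
theorem r10558 : PImp [l5102, l2514, l3239, l3103, l3105, l2549, l5173, l8315, l2609, o5580, l10555, l2342, l10499, o7479, o9070] l10558 := rupP (by decide +kernel)
theorem r10559 : PImp [l10393, l10558, l3327, l2645, l10548, l2500, l10550, l2826, o7578, o8811] l10559 := rupP (by decide +kernel)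
theorem r10560 : PImp [l4082, o714, l4204, o5290, o5287, o5286, l10508, l2430, l2424, l4602, o3582, l2815, l3120, l7703, l1209, l1210, l2998, l4201, l8341, l2981, l2828, l2827, o3427, l10552, l10554, l10559, l9983, l7978, l10464] l10560 := rupP (by decide +kernel)
theorem r10561 : PImp [l8343, l10538] l10561 := rupP (by decide +kernel)
theorem r10562 : PImp [l2424, o3582, o5511, l2815, l3120, l7703, l1209, l1210, l2998, l7978, l8320, l10551, l10557, l10559, l10517, l3926, l2365, l5102, l3239, l3103, l3104, l3105, l2549, l5173, l8315, l2609, o5579, o5580, l10555, l2342, l2343, l10499, o7479, l1436, o663] l10562 := rupP (by decide +kernel)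
theorem r10563 : PImp [o5286, o5285, l10508, l2430, l4209, l4602, l4082, l7703, l1210, o694, o714, l10560, l2473, l2474, l2476, l10561, l2550, l10562, o3752, o3754, o3756, o8187, o1534, o1538, o1536, l673, l10541, l732, l1104, o8229, l8399, o5616, o7899, o5611] l10563 := rupP (by decide +kernel)
theorem r10564 : PImp [o5285, l10508, l4602, o3582, l2815, l3120, l7703, l2998, l10562, l10552, l2550, o3434, o3435, o3437, l10447] l10564 := rupP (by decide +kernel)
theorem r10565 : PImp [l2606, l2607, l8325, o3434, o3435, o3437, l2469, l10447] l10565 := rupP (by decide +kernel)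
theorem r10566 : PImp [l2981, l10411] l10566 := rupP (by decide +kernel)
theorem r10567 : PImp [l10393, o5285, l10565, o5286, l2710, l8326, o8000, l2550, l10566, o3434, o3435, o3437, l10447] l10567 := rupP (by decide +kernel)
theorem r10568 : PImp [o5290, o5287, o5286, o5285, l10508, l2430, l4602, l7703, l2992, l1209, l1210, l10567, l10562, l10564, l2550, l10531, l10452, l10566] l10568 := rupP (by decide +kernel)
theorem r10569 : PImp [l10393, l10394, l10395, l7703, l1210, l2987, l7726, l2710, l8377, o5406, l3532, l2657, l2834, l4209, l4602, l2708, l4208, l2992, l1209, o5285, o5286, o5287, o5290, l10563, l2477, l4280, o691, o699, o690, l10568, o3427, o3752, o3753, o3756, o3757, o3755, l10531, l10447, l7840, l8185, l7987, l8453, o2712, l3573, l3571, l3613, l8171, l3171, l3169, o8542, o7959, o8283, o5627] l10569 := rupP (by decide +kernel)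
theorem r10570 : PImp [l2980, l2981, l8926] l10570 := rupP (by decide +kernel)
theorem r10571 : PImp [l1209, l1210, l9432, l8392, l2484, l4080, l4081, o750, o715, l19, l2608, o1605, o1537, l10570, o3527, o3437, o7964, l8332, l3165, l6206] l10571 := rupP (by decide +kernel)
theorem r10572 : PImp [l7840, l8453, o2712, l3572, l4475, l8332] l10572 := rupP (by decide +kernel)
theorem r10573 : PImp [l10572, l7987, l598, l2462, l3930, l8273, l8005] l10573 := rupP (by decide +kernel)
theorem r10574 : PImp [l10394, l2385, l2382, l5871, o7966, o7921, o1498] l10574 := rupP (by decide +kernel)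
theorem r10575 : PImp [l10395, l10393, l10394, l2557, l2555, l7703, l498, l8721, o4906, l4969, l4968, l5035, l3000, l4841, l4838, l481, l10396, l480, l8603, l7707, l3473, o3464, l5925, l2668, l4127, l4208, l2660, l2988, l2987, l10406, l4183, l1209, l1210, l3442, l3423, l4138, l3115, l499, l2604, l10212, l7735, l4767, l4779, l4084, l4082, l7737, l8905, l7976, l4602, o5017, o5512, l2708, o3582, l4189, l4593, o9044, l8260, l5238, l4209, l8235, l3509, l10546, l7726, l2656, l2710, l8377, o5406, l3532, l2657, l10569, o5680, o5682, o5719, o5718, o5714, o5590, o5585, o5589, l10571, o3427, o3754, o3753, o3756, o3755, o3845, o3844, l10543, l2477, l4280, o730, o727, o691, o695, l10574, l3107, l10573, o7828, l3331, o7877, l8005, l4475] l10575 := rupP (by decide +kernel)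
theorem r10576 : PImp [l8354, l4583, l3931, l2450, l2452, l2448, o7694, l4949, l1091, l6715, o4610, o2283, o7729, o5616, l7352] l10576 := rupP (by decide +kernel)
theorem r10577 : PImp [l10394, l10395, l3234, l3235, l2383, l2379, l10452, l2467, l10411, l3611, l3595, l6715, o6719, l3911, l2653, o7766, o4606, o8111, o5616] l10577 := rupP (by decide +kernel)
theorem r10578 : PImp [l10393, o694, l4204, l2657, l4201, l10577, l8354, l4583, l10576, l4896, l2450, l2452, l2448, o7694, o8770, l1091, l6715, o4750, o5654, l1104, o8065] l10578 := rupP (by decide +kernel)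
theorem r10579 : PImp [l10393, o694, l10578, l5042, l2473, l2474, l2476, l10467, l10538, l4896, l1446, l2492, o4750, l3930, l2450, l2452, l2448, l735, l4957, l6715, o4607, o7729, l1104, o5612, l7352] l10579 := rupP (by decide +kernel)
theorem r10580 : PImp [l4583, l3930, l2450, l2452, l2448, o7694, l4476, l1091, l744, o4606, o8127, o5616, l1104, o8040] l10580 := rupP (by decide +kernel)
theorem r10581 : PImp [l328, o2924, l4208, l1209, l1210, o3649, o3651, o3712, o3713, o3714, l10492, o3648, o3647, o3646, o5285, o5286, o5287, o5290, l10579, l2477, l4280, o699, l2269, l10580, l10452, l10411] l10581 := rupP (by decide +kernel)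
theorem r10582 : PImp [l10395, l4209, o694, l4204, l2614, l2567, l4201, l8341, l2980, l2981, l2828, l2827, l2829, l8339, l8348, l10464, l2379, l2380, l10577, o8209, l8921, o3663, o1500, o8264, o8652] l10582 := rupP (by decide +kernel)
theorem r10583 : PImp [l2492, l3930, l3612, l2450, o4750, l735, l2449, l2448, l2452, l7703, l2980, o6466, o694, l2657, l10508, l2815, l8185, l10490, o2283, l10519, l3323, l3325, l8317] l10583 := rupP (by decide +kernel)
theorem r10584 : PImp [l5669, l732] l10584 := rupP (by decide +kernel)
theorem r10585 : PImp [o694, l10584, l1104, l7352, l10519, o5616, l10517, l23] l10585 := rupP (by decide +kernel)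
theorem r10586 : PImp [l10393, l5042, o694, l10508, l2424, l3120, l7703, l1209, l1210, l2980, l2981, l10467, l10538, l4896, l1446, l2492, o4750, o6466, l3930, l2450, l2452, l2448, l2449, l735, l3612, l4957, o4606, l10583, l10585, l6715, o7729, l1104, o5616, l7352] l10586 := rupP (by decide +kernel)
theorem r10587 : PImp [l2834, l4209, l4208, l7703, l2992, o694, o688, l10582, l2473, l2474, l2476, l10586, o3434, o3435, o3436, o3438, l10468, l2494, l2450, l2452, l2448, l673, l10584, l10541, l1104, o8229, l8399, o5616, o7899, o5611] l10587 := rupP (by decide +kernel)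
theorem r10588 : PImp [l8339, l8348, l10566] l10588 := rupP (by decide +kernel)
theorem r10589 : PImp [l2834, l4209, o3464, l4208, l7703, l2992, l1209, l1210, o5285, o5286, o5287, o5288, o5290, l10587, l2477, l4280, l10588, l10513, l10531] l10589 := rupP (by decide +kernel)
theorem r10590 : PImp [l43, o7789, o7709] l10590 := rupP (by decide +kernel)
theorem r10591 : PImp [l7703, l2980, l2803, l10590, l4125, l10021, l1446] l10591 := rupP (by decide +kernel)
theorem r10592 : PImp [o694, l7982, l5669, l650, l10528, l2314, o1465, l8399] l10592 := rupP (by decide +kernel)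
theorem r10593 : PImp [l10395, l10394, o5406, l3532, l2657, o5405, l2531, l2656, l4209, o5511, o5512, o3464, l4208, l2660, l7703, l1209, l1210, l10589, o5679, o5681, o5683, o5682, o5718, o5717, o5590, l10591, o3434, o3435, o3436, o3438, o3525, l10592, l2477, l4280, o691, o695, l2269, l10449, l10545] l10593 := rupP (by decide +kernel)
theorem r10594 : PImp [l7703, o5285, o5286, o5287, o5288, o5290, l10587, l2477, l4280, l10588] l10594 := rupP (by decide +kernel)
theorem r10595 : PImp [o5511, o5512, l7703, l1210, l10594, o5717, o5590, l10591] l10595 := rupP (by decide +kernel)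
theorem r10596 : PImp [l10393, o4734, o7823, o7918, l4888, o4750, o4760, o8253, o4645, o2280, o7917, l2283] l10596 := rupP (by decide +kernel)
theorem r10597 : PImp [l2269, o699, l2614, l2550, l7987, l2469, o8209, l2646, l2612, o1501, o1502, o1500, l8453, l5893, l10596, l10530, o8249, l2327, l10527, o5650, o8162, o8253, l1104] l10597 := rupP (by decide +kernel)
theorem r10598 : PImp [l10394, o3439, o3438, o3436, o3435, o3434, l2657, l2656, l4209, l2568, l4208, l7703, l2992, l1209, l1210, o5285, o5286, o5287, o5288, o5290, l10587, o756, l2477, l4280, o695, o690, l10597, l2382, l4580, l2451, o7962, o8287] l10598 := rupP (by decide +kernel)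
theorem r10599 : PImp [l2550, l5872, o7878, l1705, l5893, l2612, l8453] l10599 := rupP (by decide +kernel)
theorem r10600 : PImp [l6215, o7962, o7921] l10600 := rupP (by decide +kernel)
theorem r10601 : PImp [l10395, l10393, l10394, o3749, l2555, l7703, l328, o2924, o6731, l2568, l2614, l2592, o8728, o5406, l3532, l2657, o5405, l2531, l2656, l2834, l4209, o6713, l2581, o5511, o5512, o3464, l4208, l2992, l1209, l10581, l10593, l10595, o3434, o3435, o3436, o3438, l10598, o5679, o5683, o5682, o5590, l10592, o756, l2477, l4280, o695, l10599, l2381, l2382, l10600] l10601 := rupP (by decide +kernel)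
theorem r10602 : PImp [l3926, l2610, l5102, l2549, l5173, l8315, o7419, o7588] l10602 := rupP (by decide +kernel)
theorem r10603 : PImp [l5102, l2516, l2549, l8315, o7419, o7588] l10603 := rupP (by decide +kernel)
theorem r10604 : PImp [l10393, l4201, o5290, o5288, o5287, o5286, o5285, l2829, l2827, l2981, l2980, l10508, l2430, l4204, o694, o688, l10577, l4583, l8354, l3930, l2450, l2452, l2448, l2449, l8325, l3611, l3580, l1091, l6715, l1104, o7729, l7352, o5616, o5600, o8063, o8458, l10602, l3924, l3325, l2643, l10517, l10603, l10548, l2500, l10550, l2826, o7578, o8811] l10604 := rupP (by decide +kernel)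
theorem r10605 : PImp [l4583, l8005, l3930] l10605 := rupP (by decide +kernel)
theorem r10606 : PImp [o5286, o5285, l2981, l4208, l10604, l4280, l10605, l10452, l10411] l10606 := rupP (by decide +kernel)
theorem r10607 : PImp [l10393, o5286, o5285, l2981, l2980, o3650, o3649, o3711, o3712, l10606, l5042, l2473, l2474, l2475, l2476, l2477, l10467, l10561, l4896, l1446, l2492, o4750, l3930, l2450, l2452, l2448, l4957, l735, l6715, o4607, l1104, o7729, o5612, l7352] l10607 := rupP (by decide +kernel)
theorem r10608 : PImp [l10588, l4280, l4279, l10582] l10608 := rupP (by decide +kernel)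
theorem r10609 : PImp [l10393, l10602, l3924, l3325, l2643, l10603, l10548, l2500, l10550, l2796, l2826, l1128, o7578, o8811] l10609 := rupP (by decide +kernel)
theorem r10610 : PImp [l2592, l10508, l2430, l2431, l10609, l4209, o5285, o5286, o5287, o5290, l10607, l10608, l2473, l2474, l2476, l10467] l10610 := rupP (by decide +kernel)
theorem r10611 : PImp [l4125, l2567, l43, l3332, o1527, o7789, l2386, l3166, o2400, l4466, l6571, o7878, o3649] l10611 := rupP (by decide +kernel)
theorem r10612 : PImp [l7703, l328, o2924, o6731, l2592, o6713, l2557, l2615, l2544, o9146, o8921, l10508, l2424, l2430, l2431, l10609, l2581, o5511, l1209, l1210, l2980, l2982, l2803, l10610, o5717, o5590, o5588, l10611, l10021, l1446] l10612 := rupP (by decide +kernel)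
theorem r10613 : PImp [l10394, l2657, l2656, l2567, l4201, l8341, l5041, l4203, l4204, l4205, l4207, l10597, l2382, l10447, l4580, l2451, o7962, o8287] l10613 := rupP (by decide +kernel)
theorem r10614 : PImp [l2657, l2656, l4208, o5285, o5287, o5290, l10613, l2473, l2475, l2477, l8343, l10592, l2494, l2450, l2452, l2448, l673, l10584, l1104, o8229, l8399, o5616, o7899, o5611] l10614 := rupP (by decide +kernel)
theorem r10615 : PImp [l3107, l2550, o9085, o7878, l2453, o7828, l2612, l1510, l8453] l10615 := rupP (by decide +kernel)
theorem r10616 : PImp [l10395, l10393, l10394, o3749, l2555, l7703, l328, o2924, o6731, l2568, l2614, l2592, o8728, o5406, l3532, l2657, o5405, l2531, l2656, l2834, l4209, o6713, l2581, l2557, l2615, l2544, o9146, o8921, o5514, l4779, l4767, o3464, l4127, l4208, l2660, l2992, l1209, l1210, l3927, l10601, l10612, o3434, o3435, o3436, o3437, o3438, o3439, o3651, o3524, o3525, l10614, o5679, o5683, o5682, o5719, o5718, o5590, l10592, o756, l2477, l4280, o730, o727, o695, l10615, l2381, l2382, l10574, l10600] l10616 := rupP (by decide +kernel)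
theorem r10617 : PImp [l2829, l2827, l2982, l2981, l2980, l4209, l4208, l4201, l10608, o3649, o3712, l10578, l4280, l2269, l10580, l10452, l10411] l10617 := rupP (by decide +kernel)
theorem r10618 : PImp [o4743, l3896, l3537, l6715, o7729] l10618 := rupP (by decide +kernel)
theorem r10619 : PImp [l10393, l5042, l3174, l5161, l4938, l3573, l3575, o4612, l6715, o5612, l1104, o8065] l10619 := rupP (by decide +kernel)
theorem r10620 : PImp [l10394, l5042, l3171, o2278, l5161, l4938, o2260, l3571, o4612, l6856, o5610] l10620 := rupP (by decide +kernel)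
theorem r10621 : PImp [l3896, l3900] l10621 := rupP (by decide +kernel)
theorem r10622 : PImp [l5040, l10618, l6715, l10619, l10620] l10622 := rupP (by decide +kernel)
theorem r10623 : PImp [l2424, l2815, l3120, l7703, l10507, l10585] l10623 := rupP (by decide +kernel)
theorem r10624 : PImp [l10584, l2829, o3658, l7703, l2983, l4938, o4612, l10493, l7982, o5614, l10528, l10509, o2278, l10623, l3568, o7893, o8108] l10624 := rupP (by decide +kernel)
theorem r10625 : PImp [l10395, l2829, l7703, l2983, l2982, l2981, l2980, l2656, l4209, l10508, l2592, l4208, l1209, l1210, o5285, o5286, o5287, o5288, o5290, l10617, l5042, l5040, l2473, l2474, l2475, l2476, l2477, l2478, l10467, l10538, l4912, l1446, l10621, l3534, l3536, l3537, l3596, l4949, l3587, l3228, o4610, l5161, l10622, l10584, l10624, l10539, o5616, l10620, l4561, o8065] l10625 := rupP (by decide +kernel)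
theorem r10626 : PImp [l7703, l328, o2924, o6731, o6713, o5511, o5512, l1210, l10625, o5717, o5590, l10591] l10626 := rupP (by decide +kernel)
theorem r10627 : PImp [l2657, l2656, l4208, o5285, o5286, o5287, o5290, l10613, l2473, l2474, l2475, l2477, l10468, l10592, l2494, l2450, l2452, l2448, l673, l10584, l1104, o8229, l8399, o5616, o7899, o5611] l10627 := rupP (by decide +kernel)
theorem r10628 : PImp [l10395, l10394, o5406, l3532, l2657, o5405, l2531, l2656, l2581, l2592, l2568, l4208, o3434, o3435, o3436, o3437, o3438, o3439, o3651, o3524, o3525, l10627, o5679, o5683, o5682, o5719, o5718, o5590, l10592, o756, l2477, l4280, o730, o727, o695, l10615, l2381, l2382, l10574, l10600] l10628 := rupP (by decide +kernel)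
theorem r10629 : PImp [o5290, o5287, o5286, o5285, l10508, l2431, l4209, l2592, l10608, o3650, o3649, o3711, o3712, l10606] l10629 := rupP (by decide +kernel)
theorem r10630 : PImp [l2592, l10508, l2430, l2431, l10609, o5286, l10629, l2473, l2474, l2476, l10467] l10630 := rupP (by decide +kernel)
theorem r10631 : PImp [l4125, l2567, l43, l3332, o1527, o7789, l2386, l3166, o2400, l4466, l6570, o7878, o3649] l10631 := rupP (by decide +kernel)
theorem r10632 : PImp [l10393, l10395, l10394, l2615, l2614, l2557, l2555, l5035, l7703, l3000, l4841, l4838, o3464, l4127, l2660, l2989, l2988, l2992, l1209, l1210, l3927, l328, l3115, l9222, l8217, o5017, o5512, o5514, o5511, o2924, o3749, l2544, l4593, l4767, l4779, o6731, o9146, o8921, l8260, l2568, l2592, l2581, o6713, l10508, l4209, l3509, o8728, l2424, l2430, l2431, l2834, o5405, o5406, l2531, l3532, l10616, l10628, l2980, l2982, l2803, l10626, l10609, l10630, o5717, o5590, o5588, l10631, l1446, l10021] l10632 := rupP (by decide +kernel)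
theorem r10633 : PImp [o4574, o5824, l8634, l2559, l4084, l8569] l10633 := rupP (by decide +kernel)
theorem r10634 : PImp [l10393, l7703, l498, l8721, o4906, l4969, l4968, l481, l10396, l480, l8603, l7707, l3473, l5925, l2668, l10406, l3927, l3442, l3423, l2557, l10575, l2615, l10633, l9222, l10632, o5511, l4794] l10634 := rupP (by decide +kernel)
theorem r10635 : PImp [l7703, l1209, l1210, l3321, l10175, l7207, l3261] l10635 := rupP (by decide +kernel)
theorem r10636 : PImp [l5034, l9961, l9866] l10636 := rupP (by decide +kernel)
theorem r10637 : PImp [l10393, l5034, l2711, l7703, l1209, l1210, l10635, l3843, l10636, l3308, l3272, l3261, l7120, l1073, l7207, o3998, o2528, o1530, o6309] l10637 := rupP (by decide +kernel)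
theorem r10638 : PImp [l5034, l7703, l1209, l1210, l4763, l10175, l10068, l8118, o2449] l10638 := rupP (by decide +kernel)
theorem r10639 : PImp [l10393, l10638, l2711, l7703, l1209, l1210, l10637, l8089] l10639 := rupP (by decide +kernel)
theorem r10640 : PImp [l1209, l424, l9961, l3089, o2569, l7963] l10640 := rupP (by decide +kernel)
theorem r10641 : PImp [l10393, l3272, l7120, l7207, o3998, o1530, o6309] l10641 := rupP (by decide +kernel)
theorem r10642 : PImp [l10393, l2711, l7703, l1209, l1210, l328, o4636, o4263, o4610, l4618, o5616, l8077, o8540, l5034, l4230, l4231, l4233, l4086, l10638, l10639, l10640, l3308, l3261, l1073, o2528, l10641, l7827] l10642 := rupP (by decide +kernel)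
theorem r10643 : PImp [l2294, o5652] l10643 := rupP (by decide +kernel)
theorem r10644 : PImp [l4230, l4231, l4086, l10637] l10644 := rupP (by decide +kernel)
theorem r10645 : PImp [l10393, l7703, l1209, l328, l10644, l8067, l8077] l10645 := rupP (by decide +kernel)
theorem r10646 : PImp [l5034, l9866, l5956, l4057, o3895] l10646 := rupP (by decide +kernel)
theorem r10647 : PImp [l2711, l7703, l1209, l1210, l5034, l4230, l4231, l4086, l10635, l3843, l10646, l3308, l3261, l1073, l10641, o2528] l10647 := rupP (by decide +kernel)
theorem r10648 : PImp [l10393, l7703, l1210, l10645, l7840, l4618, l10647, l9294, l3960, l8085, l7871, l9202] l10648 := rupP (by decide +kernel)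
theorem r10649 : PImp [l10395, l7703, l1209, l1210, l328, l8086, l4228, l4231, l4086, l10638, o853, l3843, l9910, l10636] l10649 := rupP (by decide +kernel)
theorem r10650 : PImp [l10395, l7703, l1209, l4231, l4086, l10635, o853, l3843, l10107, l10646] l10650 := rupP (by decide +kernel)
theorem r10651 : PImp [l10393, l7703, l1210, l10648, l10649, l7840, l4618, l10650, l9294, l3960, l8085, l7871, l9202] l10651 := rupP (by decide +kernel)
theorem r10652 : PImp [l10393, l7703, l1209, l1210, l4233, l4086, l10638, l8078] l10652 := rupP (by decide +kernel)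
theorem r10653 : PImp [l10393, l7703, l1209, l328, l10652, l8067, l8077] l10653 := rupP (by decide +kernel)
theorem r10654 : PImp [l10393, l5035, l7703, l3000, l4838, l1209, l1210, l4117, l4233, l4086, l8078, l3951, l10175, l10068, l3265, l9001, l5033] l10654 := rupP (by decide +kernel)
theorem r10655 : PImp [l10393, l2711, l5035, l7703, l3000, l4838, l1210, l10651, l10653, l4618, l10654, l9294, l3960, l8085, l7871, l9202] l10655 := rupP (by decide +kernel)
theorem r10656 : PImp [l10395, l4230, l5034, l1210, l10640, l3308, l3261, l9976, l1073, l10641, o2528] l10656 := rupP (by decide +kernel)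
theorem r10657 : PImp [l7703, l1209, l1210, l424, l4525, l4086, l10635, o853, l10656, l4618, l8247, l3091, l1073, l9512, l3308, o3961, l6465, l3978, o2503] l10657 := rupP (by decide +kernel)
theorem r10658 : PImp [l10393, l328, l8067, l8077] l10658 := rupP (by decide +kernel)
theorem r10659 : PImp [l10393, l1209, l1210, l10658, l4618, l9294, l3960, l8085, l9156, l7871] l10659 := rupP (by decide +kernel)
theorem r10660 : PImp [l10393, l7703, l1210, l10638, l7827, l10640, l3308] l10660 := rupP (by decide +kernel)
theorem r10661 : PImp [l10393, l1209, l1210, l7827, l7856, l3304, l3308, l4057, l6465, l2779, l5265, l4025] l10661 := rupP (by decide +kernel)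
theorem r10662 : PImp [l2711, l4209, o5017, l5035, l7703, l3000, l4841, l4838, l1209, l1210, l4204, o694, l10142, l732, l1104, l10476, l10642, l4942, l10655, l10659, l4117, l4233, l4086, l10657, l10660, l4618, l10661, l3951, l10175, l10068, l3265, l9001, l5033] l10662 := rupP (by decide +kernel)
theorem r10663 : PImp [l4280, l4260, l2269, l10580, l3554, o3414] l10663 := rupP (by decide +kernel)
theorem r10664 : PImp [l10584, l6715] l10664 := rupP (by decide +kernel)
theorem r10665 : PImp [l7982, o7729] l10665 := rupP (by decide +kernel)
theorem r10666 : PImp [l10644, l10649] l10666 := rupP (by decide +kernel)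
theorem r10667 : PImp [l10666, l7840, l4618, l10647, l10650] l10667 := rupP (by decide +kernel)
theorem r10668 : PImp [l10393, l7703, l1209, l1210, l10667, l10658, l7840, l4618, l8993, l3960, l10175, l10635, l7871, l4085, l4549, o3895, l6130, l5656] l10668 := rupP (by decide +kernel)
theorem r10669 : PImp [l10393, l2711, l5035, l7703, l3000, l4838, l1209, l1210, l10668, l10653, l10654, l7840, l4618, l8993, l3960, l10175, l8085, l7871, l4549, l2779, l4534, l4533] l10669 := rupP (by decide +kernel)
theorem r10670 : PImp [l5035, l7703, l3000, l4838, l4209, l4841, l10664, l1104, l10476, l2711, o5017, l1209, l1210, l10662, l10669, l10659, l4117, l4233, l4086, l10657, l10660, l4618, l10661, l3951, l10175, l10068, l3265, l5033, l9001] l10670 := rupP (by decide +kernel)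
theorem r10671 : PImp [l5034, l9961, l3089, o2534, l8064, l8148, l3282, o4173, l7207, l3986, l3320] l10671 := rupP (by decide +kernel)
theorem r10672 : PImp [l10395, l4231, l4230, l5034, l1209, l1210, l10671, l3308, l3261, l9976, l1073, l10641, o2528] l10672 := rupP (by decide +kernel)
theorem r10673 : PImp [l3303, l5956, o3895, l4057, l3085, l6293, l4031] l10673 := rupP (by decide +kernel)
theorem r10674 : PImp [l10395, l2711, l7703, l1209, l1210, l5034, l4230, l4086, l10635, o853, l3843, l10672, l7840, l4618, l10673, l3308, l3261, l10107, l1073, l10641, o2528] l10674 := rupP (by decide +kernel)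
theorem r10675 : PImp [l10393, l7703, l1209, l1210, l10674, l10658, l7840, l4618, l8993, l3960, l10175, l8085, l10635, l7871, l4085, l9202, l4549, o3895, l6130, l5656] l10675 := rupP (by decide +kernel)
theorem r10676 : PImp [l10393, l7703, l1209, l1210, l10638, l8089] l10676 := rupP (by decide +kernel)
theorem r10677 : PImp [l10393, l5034, l1209, l1210, l8088, o2691, l7857, l3308, l8064, l6465, o2494] l10677 := rupP (by decide +kernel)
theorem r10678 : PImp [l5035, l7703, l3000, l4838, l1209, l1210, l4117, l4233, l4086, l10676, l4618, l10677, l3951, l10175, l10068, l3265, l5033, l9001] l10678 := rupP (by decide +kernel)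
theorem r10679 : PImp [l10393, l2711, l5035, l7703, l3000, l4838, l1209, l1210, l10675, l10678, l10658, l7840, l4618, l8993, l3960, l10175, l8085, l7871, l9202, l4549, l2779, l4534, l4533] l10679 := rupP (by decide +kernel)
theorem r10680 : PImp [l9961, o2555, o2557, l8250] l10680 := rupP (by decide +kernel)
theorem r10681 : PImp [l10395, l4230, l5034, l2713, l1209, l1210, l3000, l2996, l10680, l3308, l3261, l9976, l1073, l10641, o2528] l10681 := rupP (by decide +kernel)
theorem r10682 : PImp [l5035, l4118, l4117, l4525, l2604, o5514, l4767, o5512, l4593, l2713, l7703, l3000, l4838, l1209, l1210, l2996, l3759, l10635, l7692, o853, l3772, l10681, l4618, l8251, l3091, l1073, l9512, l3308, o3961, l6465, l3978, o2503] l10682 := rupP (by decide +kernel)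
theorem r10683 : PImp [l10393, l7703, l1210, l10638, l7858] l10683 := rupP (by decide +kernel)
theorem r10684 : PImp [l10393, l4525, l1209, l1210, l7856, o2691, l3091, l7857, l9512, l3308, o3961, l6465, l3978, o2503] l10684 := rupP (by decide +kernel)
theorem r10685 : PImp [l5035, l7703, l3000, l4838, o5512, l4189, l4209, l4841, o5514, l4767, l10664, l1104, l10476, l2711, l4779, l4593, o5017, l1209, l1210, l10670, l10679, l10659, l4117, l4233, l4086, l10682, l10683, l4618, l10684, l3951, l10175, l10068, l3265, l5033, l9001] l10685 := rupP (by decide +kernel)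
theorem r10686 : PImp [l2711, o853, l3843, l10672] l10686 := rupP (by decide +kernel)
theorem r10687 : PImp [l10686, l3321, l8753, l7207, l3075, l3261, l8113, l10109] l10687 := rupP (by decide +kernel)
theorem r10688 : PImp [l10395, l4230, l5034, l1209, l1210, o853, l10673, l3308, l3261, l10107, l1073, l10641, o2528] l10688 := rupP (by decide +kernel)
theorem r10689 : PImp [l2711, l4086, l10687, l7840, l4618, l10688, l3321, l10109, l7207, l3261] l10689 := rupP (by decide +kernel)
theorem r10690 : PImp [l4758, l4754] l10690 := rupP (by decide +kernel)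
theorem r10691 : PImp [l10393, l7862, l4763, l3960, l7871, o2449, l8661, l10690, l3308, l6130, l4544, l4549, o3895, l2789, o5897, o6575] l10691 := rupP (by decide +kernel)
theorem r10692 : PImp [l10393, l1209, l1210, l10689, l10691, l7840, l4618, l8993, l3960, l3321, l7871, l3091, l10690, l3308, l3261, l8946, l7207, o3895, l4085, l5656, l6130] l10692 := rupP (by decide +kernel)
theorem r10693 : PImp [l10393, l4086, l4233, l1209, l1210, l8090, l8089, l10109, l8753, l10068, l3075] l10693 := rupP (by decide +kernel)
theorem r10694 : PImp [l10393, l4969, l4968, l1209, l1210, l8078, l10677] l10694 := rupP (by decide +kernel)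
theorem r10695 : PImp [l4969, l4968, l5034, l4233, l4086, l10693, l7840, l4618, l10694, l4763, l8753, l10109, l8661, l10068, l5265] l10695 := rupP (by decide +kernel)
theorem r10696 : PImp [l10393, l2711, l4969, l4968, l1209, l1210, l10692, l10695, l10691, l7840, l4618, l8993, l3960, l7871, l7814, l3091, l3308, l8946, l2779, l10234, l4534, l4533] l10696 := rupP (by decide +kernel)
theorem r10697 : PImp [o853, l3772, l10681] l10697 := rupP (by decide +kernel)
theorem r10698 : PImp [l2604, l10697, l3321, l8753, l7207, l3075, l3261, l8113, l10109] l10698 := rupP (by decide +kernel)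
theorem r10699 : PImp [l4525, l1209, l1210, l3000, l2996, l3772, l8251, l3091, l1073, l9512, l3308, o3961, l6465, l3978, o2503] l10699 := rupP (by decide +kernel)
theorem r10700 : PImp [l2604, l2713, l7703, l5035, l4117, l4118, l4086, l10698, l7840, l4618, l10699, l3321, l10109, l7207, l3261] l10700 := rupP (by decide +kernel)
theorem r10701 : PImp [l10393, l10691, l4618, l9294, l3960, l7871, l3091, l10690, l9155, l3308] l10701 := rupP (by decide +kernel)
theorem r10702 : PImp [l10393, l1209, l1210, l7856, l7858, l9961, l7827, l3308] l10702 := rupP (by decide +kernel)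
theorem r10703 : PImp [l10702, l8753, l3075, l8113, l10068, l10109] l10703 := rupP (by decide +kernel)
theorem r10704 : PImp [l10684, l10661] l10704 := rupP (by decide +kernel)
theorem r10705 : PImp [l10393, o5290, o5285, l7703, l2982, l2981, l2980, l2711, l3927, l2659, l3117, l4183, o3556, o8525, o5810, o5511, o5368, o5343, l4209, o5514, l4779, l4767, o5512, l4593, l4189, o5017, l4969, l4968, l5035, l3000, l4841, l4838, l4208, l1210, l2996, l2567, l4201, l10452, l5532, l8007, l1510, l2566, l2608, o1534, o1538, o1536, o7694, l1091, o7708, l10663, o694, l10664, l1104, l10476, l10665, l10643, o8540, l10685, l3768, l7692, l10696, l10701, l5034, l4233, l4086, l10700, l10703, l7840, l4618, l10704, l4763, l10109, l8661, l5023, l5021] l10705 := rupP (by decide +kernel)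
theorem r10706 : PImp [l2653, l2305, l3596, l10664, l3594, l10665, l10476, l10620, l1104] l10706 := rupP (by decide +kernel)
theorem r10707 : PImp [l2983, l2982, l2981, l2980, l2658, l5040, l2473, l2474, l2476, l2477, l2478, l10538, l1446, l10706, l2446, l3536, l2492, l3896, l3900] l10707 := rupP (by decide +kernel)
theorem r10708 : PImp [l3303, l6476, l3085, l6293, l4031] l10708 := rupP (by decide +kernel)
theorem r10709 : PImp [l10395, l4230, l5034, o853, l10708, l3308, l3261, l10107, l1073, l10641, o2528] l10709 := rupP (by decide +kernel)
theorem r10710 : PImp [l2711, l1210, l4086, l10687, l7840, l10709, l3321, l10109, l7207, l3261] l10710 := rupP (by decide +kernel)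
theorem r10711 : PImp [l10393, l1209, l1210, l10710, l10658, l4618, l9294, l3960, l8085, l7871, l3303, l3304, l3091, l8946, l2779, l4534, l4533] l10711 := rupP (by decide +kernel)
theorem r10712 : PImp [l4915, o8540, o4617, o5616] l10712 := rupP (by decide +kernel)
theorem r10713 : PImp [l10393, l1209, l1210, l10711, l10710, l10691, l4618, l9294, l3960, l7871, l3091, l10690, l3308, l8946, l2779, l10234, l4534, l4533] l10713 := rupP (by decide +kernel)
theorem r10714 : PImp [l10393, l8068, l8088, o2691, l6476, l7857, l3308] l10714 := rupP (by decide +kernel)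
theorem r10715 : PImp [l1210, l5034, l4233, l4086, l10693, l7840, l10714, l4763, l8753, l10109, l8661, l10068, l5265] l10715 := rupP (by decide +kernel)
theorem r10716 : PImp [l8103, l9294, l4618] l10716 := rupP (by decide +kernel)
theorem r10717 : PImp [l10393, l2711, l1209, l1210, l3008, l10713, l10715, l10716, l3960, l7871, l7814, l3308, l7199, l1074, o5897, l4549, o3937, l2789, l4521, l2779, o2497, l10234, l4533] l10717 := rupP (by decide +kernel)
theorem r10718 : PImp [l3772, l8251, l6476, l3091, l3308, l1073] l10718 := rupP (by decide +kernel)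
theorem r10719 : PImp [l2604, l2713, l7703, l1210, l3000, l2996, l5035, l4117, l4118, l4086, l10698, l7840, l4618, l10718, l3321, l10109, l7207, l3261] l10719 := rupP (by decide +kernel)
theorem r10720 : PImp [l1210, l10659, l10701] l10720 := rupP (by decide +kernel)
theorem r10721 : PImp [l7703, l2996, l3759, l10719, l7692] l10721 := rupP (by decide +kernel)
theorem r10722 : PImp [l10393, l10664, l10665, l2711, l7703, l1210, l10476, l10712, l10717, l10720, l5034, l4233, l4086, l10721, l7876, l4763, l8753, l8661, l5265, l8113, l10068, l10109] l10722 := rupP (by decide +kernel)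
theorem r10723 : PImp [l7117, l3304, l3308, l5827, l7053, o3937, o3906, l6288] l10723 := rupP (by decide +kernel)
theorem r10724 : PImp [l3303, l10690, l8085] l10724 := rupP (by decide +kernel)
theorem r10725 : PImp [l10393, l1210, l10717, l10710, l10454, o25, l10723, l3960, o905, l7871, l10724, l3308, l3274, l7199, l1074, o5897, o3986, o6161, o7689] l10725 := rupP (by decide +kernel)
theorem r10726 : PImp [l5034, l6476, l3089, o2534, l8064, l8148, l3282, o4173, o4191, l3986, l5713, l3320] l10726 := rupP (by decide +kernel)
theorem r10727 : PImp [l10393, l5034, l3843, l10726, l3308, l3272, l1073, l3095, o2528, o6034, o3947, o3994, l4995, o6309, l3844] l10727 := rupP (by decide +kernel)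
theorem r10728 : PImp [l10109, l9861] l10728 := rupP (by decide +kernel)
theorem r10729 : PImp [l1210, l5034, l4230, l4231, l4086, l10727, l4763, l8753, l8661, l5265, l9786, l10728] l10729 := rupP (by decide +kernel)
theorem r10730 : PImp [l10716, l10723, l10454] l10730 := rupP (by decide +kernel)
theorem r10731 : PImp [l4007, l1209, l1210, l424, l328, l3303, l10724, l10234, l3090, o2488, o3973, o3959, o3981, l4693, l4991, l4710] l10731 := rupP (by decide +kernel)
theorem r10732 : PImp [o25, l10730, o905, l10731, l3308, l3274, l7199, l1074, o5897, o3986, o6161, o7689] l10732 := rupP (by decide +kernel)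
theorem r10733 : PImp [l10393, l10732, l10725, l4888, l10729] l10733 := rupP (by decide +kernel)
theorem r10734 : PImp [l10393, l3089, o2542, l8064, l3286, l3282, l7770, o6011, o1528, o4192, l5713] l10734 := rupP (by decide +kernel)
theorem r10735 : PImp [l5034, l10734, l6476, l3308, l1073, l713, l8661, l5050, l4049] l10735 := rupP (by decide +kernel)
theorem r10736 : PImp [l5034, l4763, l8753, l10728, l8661, l10068, l5265] l10736 := rupP (by decide +kernel)
theorem r10737 : PImp [l10732, l10736, l4086, l4233, l2711, l1210, l10733, l10715, l10735] l10737 := rupP (by decide +kernel)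
theorem r10738 : PImp [l5034, l424, l6476, l6958, l3089, o3946, o3952, l7963, l3992, l3986, l3282, l3320, l7171] l10738 := rupP (by decide +kernel)
theorem r10739 : PImp [l10393, l7703, l10736, l3308, l1073, o2528, l3095, l3272, l4230, l5034, l2711, l1210, l10721, l4888, o6034, o3947, o3994, l4995, o6309, l3844] l10739 := rupP (by decide +kernel)
theorem r10740 : PImp [l10393, l2829, l2827, l7703, l2985, l2982, l2981, l2980, l2711, l3927, l2659, l3117, l4183, o3556, o8525, o5810, o5511, o5368, o5343, l4209, o5514, l4779, l4767, o5512, l4593, l4189, o5017, l4969, l4968, l5035, l3000, l4841, l4838, l1210, o5285, o5286, o5287, l10707, l2567, l4201, l10452, l10705, l5532, l8007, l10605, l1510, l2566, l2608, o1534, o1538, o1536, l5041, l4280, l4281, l1091, l10664, l1104, l10722, l10732, l5034, l4086, l10736, l10737, l10738, l3308, l1073, l10739, l5068, l713, l8661, l5050, l4049] l10740 := rupP (by decide +kernel)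
theorem r10741 : PImp [l10393, l2711, l3927, l2659, l3117, l4183, o3556, l2604, o3582, l2713, l4610, l2571, o8978, o8525, o5810, o9075, o5514, l4767, o5512, l4189, o5017, l7703, l4969, l5035, l3000, l4841, l4838, l1209, l1210, l2982, o3427, l10740, o5679, o5588, l10492, l10156, l8392, l19, l2564, l2608, o1538, l4466, l4260, l10665, l10664] l10741 := rupP (by decide +kernel)
theorem r10742 : PImp [l10393, l10395, l8603, l5925, l2531, l481, l480, l7707, l3473, o3464, l2668, l4208, o5243, o5247, o5262, l10531, l10513] l10742 := rupP (by decide +kernel)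
theorem r10743 : PImp [o3464, o4428, o4430, o4433, l10531, l10513] l10743 := rupP (by decide +kernel)
theorem r10744 : PImp [o3435, l2658, l10449, l10513, o5285] l10744 := rupP (by decide +kernel)
theorem r10745 : PImp [l5872, l5893] l10745 := rupP (by decide +kernel)
theorem r10746 : PImp [l10393, l10394, l10395, o3438, o3437, o3436, o3435, o3434, l2658, l2657, l8603, l5925, l2531, l481, l480, l7707, l3473, o3464, l2668, l4208, l4201, l10742, l10592, l4280, o691, o695, l10743, l10744, l10745, l2383, l2379, l10447, o7959, o5248, l2305, l651] l10746 := rupP (by decide +kernel)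
theorem r10747 : PImp [l10394, l10395, l10393, o3438, o3436, o3435, o3434, l8603, l5925, l2531, l3532, l481, l480, l7707, l3473, l2668, l2991, l2992, l1209, l1210, l422, l10689, l4888, l10746, l2473, l2474, l2475, l2477, l7982, o5243, o5246, l10468, l2494, l2450, l2452, l2448, l7291, l673, l10584, o4750, l1104, l10643, o8229] l10747 := rupP (by decide +kernel)
theorem r10748 : PImp [l4204, l7982, o5247, o5262, l8341] l10748 := rupP (by decide +kernel)
theorem r10749 : PImp [l10393, l2269, l4201, l2469, l7987, l2646, o8253, l3162, l3174, l3598, l3613, l2650, l2651, l2653, l8453, l10596, l10530, l10643, l4561, o8162] l10749 := rupP (by decide +kernel)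
theorem r10750 : PImp [l10394, l10395, o695, o691, l4201, l2658, l2657, o4428, o4429, o4430, o4750, l10749, l2381, l2382, l2378, l4580, o8253, l678, l2451, l672] l10750 := rupP (by decide +kernel)
theorem r10751 : PImp [l5034, l9961, o2449, l8661, l5050, l4049] l10751 := rupP (by decide +kernel)
theorem r10752 : PImp [l10394, l10393, l481, l480, l8603, l7707, l3473, l4968, l10736, l4086, l4233, l5034, l5925, l3532, l2711, l4969, l2992, l1209, l1210, l10747, l10695, l10734, l10751, l4618, l3091, l1073, l3308, l8064, l6465, o2494] l10752 := rupP (by decide +kernel)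
theorem r10753 : PImp [l10393, l2657, l2651, o1465, o7959, l3161, l3598, o5254, o5255, o7869, l10544, o2269, l8185] l10753 := rupP (by decide +kernel)
theorem r10754 : PImp [l10753, l2448, l3570, l1510, l5893, l8453] l10754 := rupP (by decide +kernel)
theorem r10755 : PImp [l10393, l10394, l10395, l5925, l4208, l2269, o691, l4280, l4201, o3438, o3437, o3436, o3435, o3434, l2711, l2658, l8603, l2531, l481, l480, l7707, l3473, l2668, l7703, l2991, l2992, l1209, l1210, l422, l2996, l3759, l10742, l10743, l7692, l10700, l10754, l2383, l2379, l10447, o7959, o5248, l2305, l651] l10755 := rupP (by decide +kernel)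
theorem r10756 : PImp [l4525, l10751, l4618, l3091, l1073, l9512, l3308, o3961, l6465, l3978, o2503] l10756 := rupP (by decide +kernel)
theorem r10757 : PImp [l10393, o3438, l5925, l2668, l10748, l10755] l10757 := rupP (by decide +kernel)
theorem r10758 : PImp [l10395, l10394, l10393, o3438, o3436, o3435, o3434, l5925, l8603, l3532, l2711, l2531, l7703, l4969, l4968, l481, l480, l7707, l3473, l2668, l2991, l2992, l1209, l1210, l2996, l4086, l10736, l10752, l10756, l7856, l3759, l7692, l10700, l4888, l10757, l2473, l2474, l2475, l2477, l7982, o5243, o5246, l10468, l2494, l2450, l2452, l2448, l7291, l673, l10584, o4750, l1104, l10643, o8229] l10758 := rupP (by decide +kernel)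
theorem r10759 : PImp [l10395, l10393, l481, l480, l8603, l7707, l5925, l4208, l2668, l3473, l2531, l10743, l10746, l10744, l5871, l10745] l10759 := rupP (by decide +kernel)
theorem r10760 : PImp [l10393, l10394, l10395, l5925, l4208, l2269, o695, o691, l4280, l4201, o3438, o3437, o3436, o3435, o3434, l2658, l8603, l2531, l481, l480, l7707, l3473, l2668, l10742, l10743, l10759, l10754, l2383, l2379, l10447, l5871, o7959, o5248, l2305, l651] l10760 := rupP (by decide +kernel)
theorem r10761 : PImp [l10393, l5035, l7703, l3000, l4838, l4841, l4969, l10730, l3960, l4968, l1210, l4888, l4896, l7871, l10696, l8085, l10679, l9202, l10669] l10761 := rupP (by decide +kernel)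
theorem r10762 : PImp [l5872, l10745, l1510, l7840, l8453, o2716, l3932, l5686, l3598, l4628] l10762 := rupP (by decide +kernel)
theorem r10763 : PImp [o7962, o8287] l10763 := rupP (by decide +kernel)
theorem r10764 : PImp [l10394, l2381, l2382, l10763, o1482, l2445, o8253, l4580, l10600, o5249] l10764 := rupP (by decide +kernel)
theorem r10765 : PImp [l7703, l1210, l4968, l4209, l2657, l2658, l4201, l4208, o695, l10764, o690, l4260, l4280, l5035, l3000, l4838, l1209, l422, l10761, l10762, l10750] l10765 := rupP (by decide +kernel)
theorem r10766 : PImp [l3308, l4007, l4763, l9155, l3096, o6015, o3965, o3976, l9571, l4986, l8045, l4693, l9156] l10766 := rupP (by decide +kernel)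
theorem r10767 : PImp [l10395, l10393, l7703, l8603, l5925, l2668, l4968, l3115, l480, l2988, l1209, l1210, l4969, l8260, l5238, l5035, l3000, l4838, l4841, l10730, l10731, l10766, o3439, o3438, o3437, o3436, o3435, o3434, l2531, l3509, l2834, l8235, l4209, o5017, l481, l7707, l3473, o3464, l2991, l2992, l422, l10748, l10760, l10765] l10767 := rupP (by decide +kernel)
theorem r10768 : PImp [l10395, l10394, l10393, l7703, l2992, l2991, l8603, l5925, l481, l480, l7707, l2668, l3473, l3115, l2988, l1209, l1210, l4969, o5512, l4593, l8260, l5238, l8235, l3509, o5511, l3927, l2659, l3117, l4183, o3556, l2604, o3582, l2713, l4610, l2571, o8978, o8525, o5348, l3532, o5343, l2531, l10741, o3438, o3436, o3435, o3434, o5810, o5368, o9075, l2834, l4209, o5514, l4779, l4767, l4189, o5017, l4968, l5035, l3000, l4841, l4838, l10758, l10730, l10731, l10766, l10761, l10767, l2473, l2474, l2475, l2477, l7982, o5243, o5246, l10468, l2494, l2450, l2452, l2448, l7291, l673, l10584, o4750, l1104, l10643, o8229] l10768 := rupP (by decide +kernel)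
theorem r10769 : PImp [l10393, l1210, l4230, l4231, l4086, l10736, l10710, l10727, l4888] l10769 := rupP (by decide +kernel)
theorem r10770 : PImp [l10393, l10394, l3008, l328, l4433, l10730, l4763, l3957, l3958, l3321, l10731, l3308, l3273, l3271, l3261, l7199, l1074, o5897, o3937, o4035, l4521, l5713, l3037, o2657, o2489, o2491, l4085, o751, o5910, o6163, l4549, l4542, o4162, o4007] l10770 := rupP (by decide +kernel)
theorem r10771 : PImp [l7703, l10736, l4086, l10769, l10738, l10739] l10771 := rupP (by decide +kernel)
theorem r10772 : PImp [l10736, l4086, l4233, l1210, l10715, l10735] l10772 := rupP (by decide +kernel)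
theorem r10773 : PImp [l10393, l10394, l10395, l2604, l8603, l480, l3115, l5925, l7703, l2988, l1209, l1210, l4969, o5512, l4593, l8260, l3509, l8235, l5238, o5514, l4779, l4767, l4189, o5511, o5017, l2713, l4968, l5035, l3000, l4841, l4838, l481, l7707, l3473, o3556, l2668, l3927, l2659, l2991, l2992, l4183, l3117, o3582, l4610, l2571, l2568, o9075, o8978, o8525, o5348, o5343, o5368, o5810, l3532, l2531, l2711, l10768, l10770, l4086, l10736, l10771, l10772, l10738, l7856, l3308, l10751, l1073, l3091] l10773 := rupP (by decide +kernel)
theorem r10774 : PImp [l10393, l2711, l1209, l1210, l5034, l4231, l4232, l10736, l3843, l10756, l3089, o2534, o2538, o2569, l8160, l8064, l8148, l8266, l3293, l3282, l1073, o4191, l4888, o6034, l8265, o4005, o1529, o6311] l10774 := rupP (by decide +kernel)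
theorem r10775 : PImp [l7117, l9099, l3308, l8870, l10454, l4070, o3906, l1246, l6290, o2460] l10775 := rupP (by decide +kernel)
theorem r10776 : PImp [l10393, l3273, l8661, l4542, l4434, l4185, l4544, o4021, o4008, o6293, o6163, o2667] l10776 := rupP (by decide +kernel)
theorem r10777 : PImp [l10393, l328, o2494, o2491, o2531, l7870] l10777 := rupP (by decide +kernel)
theorem r10778 : PImp [l10393, l3308, l4763, l7871, l10777, l8661, l4542, l4185, l4544, o4021, l8269, o6293, l4549, o2550, l2789, o5897] l10778 := rupP (by decide +kernel)
theorem r10779 : PImp [l10393, l422, l328, l10774, l10775, l4763, l3957, l3960, l3952, l10731, l3308, l3264, l10778, l4888, l10776, o2491, l4518, l4520] l10779 := rupP (by decide +kernel)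
theorem r10780 : PImp [l10393, l5034, l8160, l8266] l10780 := rupP (by decide +kernel)
theorem r10781 : PImp [l9961, l7840, l4618, l10673] l10781 := rupP (by decide +kernel)
theorem r10782 : PImp [l5034, l1209, l1210, l10780, l10781, l3308, l7120, l1073, l5072, l713] l10782 := rupP (by decide +kernel)
theorem r10783 : PImp [l5034, l10781, l3089, o2534, o2569, l9866, l8064, l8148, l3282, o4191, l8265, l519] l10783 := rupP (by decide +kernel)
theorem r10784 : PImp [l10393, l4232, l4231, l4230, l5034, l2711, l1209, l1210, l3843, l10782, l4888, l10783, l3308, l3272, l1073, l3095, o2528, o6034, o3947, o3994, l4995, o6309, l3844] l10784 := rupP (by decide +kernel)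
theorem r10785 : PImp [l10113, l10728] l10785 := rupP (by decide +kernel)
theorem r10786 : PImp [l10784, l10785] l10786 := rupP (by decide +kernel)
theorem r10787 : PImp [l7120, l5072] l10787 := rupP (by decide +kernel)
theorem r10788 : PImp [l10393, l3308, l4763, l7871, l10777, l10787, l4542, o3955, l4544, l8269, l4513, l4549, l3095, l2789, o5897] l10788 := rupP (by decide +kernel)
theorem r10789 : PImp [l4518, l4520] l10789 := rupP (by decide +kernel)
theorem r10790 : PImp [l10393, l422, l328, l10779, l10786, l10775, l3957, l3960, l10731, l3308, l3273, l10788, l4888, l10789, l3094, o2657, l4517, l4519, o5897, o4005, o8511, o6163] l10790 := rupP (by decide +kernel)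
theorem r10791 : PImp [l5034, l5806, l9866] l10791 := rupP (by decide +kernel)
theorem r10792 : PImp [l10393, l3933, l1210, l5034, l4230, l4231, l4086, l10689, l10785, l3843, l10791, l3272, l7120, l10787, o3999, o2531, l5023, o6309, l3844] l10792 := rupP (by decide +kernel)
theorem r10793 : PImp [l10393, l2544, l328, o2924, l2713, l1210, l422, l10790, o9166, o6768, l6049, l2583, l4896, l10792, l10775, l4763, l3957, l3960, l10731, l3308, l3273, l10777, l10787, l4434, l4542, l4544, o4008, o6291, o6163] l10793 := rupP (by decide +kernel)
theorem r10794 : PImp [l10393, l10395, l4231, l4230, l4525, l5034, l3933, l1209, l1210, l10774, l10785, o853, l3843, l10783, l3308, l3272, l3261, l10107, l1073, l3095, l3096, o2528, o6034, o2568, o3947, o3976, o4035, l4995, l8265, l3844, o947, o6309, l3968, o4006, l9125] l10794 := rupP (by decide +kernel)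
theorem r10795 : PImp [l10393, l3933, l2544, l7703, l328, o2924, l2713, l1210, l5035, l5034, l4115, l4230, l4231, l10794, o9166, o6768, o804, l6049, l2583, l4896, l10689, l10785, l3843, l10791, l3308, l3272, l7120, l1073, o3955, o3999, l3095, o2528, l4995, o6309, l3844] l10795 := rupP (by decide +kernel)
theorem r10796 : PImp [l3308, l3008, l3094, o2489, o2497, l4517, l4519, o5897, l4549, o3891, o3906, l10234, l4533] l10796 := rupP (by decide +kernel)
theorem r10797 : PImp [l10395, l10393, l2808, l4129, l3119, l1594, o5813, o5514, o5385, o5512, o5351, l2544, l7703, l328, o2924, l2713, l2991, l2992, l1209, l1210, l10793, l10795, o26, l10730, l4763, l3957, l3960, l3963, l3321, l10731, l3308, l3273, l3261, l3268, l10796, o2617, o2626, l10789, o8634, o9166, o6768, o4190, o813, l6049, l2583, o6280, l4896, l10777, l4085, o751, l4542, l4544, o4008, o6291, o6163] l10797 := rupP (by decide +kernel)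
theorem r10798 : PImp [l3089, o2569, l7957, l7963] l10798 := rupP (by decide +kernel)
theorem r10799 : PImp [l5034, l1209, l424, l3303, l10798, l9961, l4057, l7840, l4618, o3895, l6465, o3909, l4746, l3081, l4019] l10799 := rupP (by decide +kernel)
theorem r10800 : PImp [l10393, l10395, l4230, l4525, l5034, l3933, l1210, o853, l10799, l3308, l3272, l3261, l10107, l1073, l3095, l3096, o2528, o6034, o2568, o3947, o3976, o4035, l4995, l8265, l3844, o947, o6309, l3968, o4006, l9125] l10800 := rupP (by decide +kernel)
theorem r10801 : PImp [l10785, l10736] l10801 := rupP (by decide +kernel)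
theorem r10802 : PImp [l10801, l1210, l424, l5806, l10640, l8247, l4618] l10802 := rupP (by decide +kernel)
theorem r10803 : PImp [l10393, l2544, l7703, l328, o2924, l2713, l1210, l5035, l5034, l4115, l4230, l10801, l10800, o9166, o6768, o804, l6049, l2583, l4896, l10802, l3308, l3272, l7120, l1073, o3955, o3999, l3095, o2528, l4995, o6309, l3844] l10803 := rupP (by decide +kernel)
theorem r10804 : PImp [l10730, l10775] l10804 := rupP (by decide +kernel)
theorem r10805 : PImp [l10393, o5512, l2808, l4129, l3119, l1594, o5351, l2604, o5514, l4779, l4767, l4593, l4189, l7703, l2991, l2992, l422, l2996, l2994, l328, l3794, l10797, l10803, l10804, l10731, l10766] l10805 := rupP (by decide +kernel)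
theorem r10806 : PImp [l10393, l3286, l3282, l1073, o2540, o2568, l7770, o1528, o6011, l8265, o4192] l10806 := rupP (by decide +kernel)
theorem r10807 : PImp [l5034, l3008, l8064, l3089, o2494, o2500, o2502, l9722, l3308] l10807 := rupP (by decide +kernel)
theorem r10808 : PImp [l10393, l4969, l4968, l1209, l1210, l8101, l10806] l10808 := rupP (by decide +kernel)
theorem r10809 : PImp [l10393, l7703, l328, o2924, l4968, l1209, l1210, l5035, l4115, l4233, l10801, l10807, l10808, o9166, o6768, o804, l2583, l7827] l10809 := rupP (by decide +kernel)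
theorem r10810 : PImp [l10395, l10393, l2544, l328, o2924, l2713, l2991, l2992, l1209, l1210, l422, o26, l10804, l4763, l3957, l3960, l3963, l3321, l10731, l3308, l3273, l3261, l3268, l10796, o2617, o2626, l10789, o8634, o9166, o6768, o4190, o813, l6049, l2583, o6280, l4896, l10777, l4085, o751, l4542, l4544, o4008, o6291, o6163] l10810 := rupP (by decide +kernel)
theorem r10811 : PImp [l10393, l1210, l10799, l3308, l7902, l10806, l7827] l10811 := rupP (by decide +kernel)
theorem r10812 : PImp [l10393, l2711, l2544, l7703, l328, o2924, l2604, o5514, l4779, l4767, o5512, l4593, l4189, l2713, l4969, l4968, l2808, l4129, l2992, l1210, l424, l5035, l3119, l1594, o5813, l10805, l10810, l4115, l4233, l10801, l10809, l10811, o9166, o6768, o804, l2583, l7827, l3308, l5806, l3089, o2569, l7963] l10812 := rupP (by decide +kernel)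
theorem r10813 : PImp [l10393, l1209, l1210, l4233, l10801, l4086, l10807, l3286, l3282, l1073, o2540, o6034, o2568, o4035, o4010, o6280, o6312, o1528] l10813 := rupP (by decide +kernel)
theorem r10814 : PImp [o5812, o8685, l6253, o8467] l10814 := rupP (by decide +kernel)
theorem r10815 : PImp [l10393, l5034, l3308, l3273, l3265, l7120, l1073, o4025, o4008, o2553, o2535, o6278, o6311, o943] l10815 := rupP (by decide +kernel)
theorem r10816 : PImp [o6342, l4086, l10801, l4232, l1210, l424, l10813, l10815, l6476, l10802, l10798] l10816 := rupP (by decide +kernel)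
theorem r10817 : PImp [l10393, l2544, o3749, l7703, l328, o2924, l2604, l4130, o5514, l4779, l4767, o5512, l4593, l4189, o5017, l2713, l4969, l4968, l5035, l3000, l4841, l4838, l4129, l2992, l1210, l424, l3115, l3336, l2711, l10812, o8892, o6342, o813, l6049, l2583, l4896, l10814, l10810, l4117, l4233, l10801, l4086, l10816, l10809, l7827, l3308, l6476, l3089, o2569, l7963] l10817 := rupP (by decide +kernel)
theorem r10818 : PImp [l10394, l3532, o5372, l3527, l1594] l10818 := rupP (by decide +kernel)
theorem r10819 : PImp [l10393, l3119, l8603, l5925, l4129, l2808, o5514, l10818, l480, l3115, l7703, l2988, l1209, l1210, l4969, o5512, l4593, l8260, l3509, l2836, l8235, l5238, l481, l7707, l3473, l2668, l10773, l10817] l10819 := rupP (by decide +kernel)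
theorem r10820 : PImp [l3926, l5102, l10499, l10497] l10820 := rupP (by decide +kernel)
theorem r10821 : PImp [l5102, l3103, l10499, l653, l2796] l10821 := rupP (by decide +kernel)
theorem r10822 : PImp [l3933, l4208, l4201, l10452, l4583, l3931, l2613, l3595, l10663, o714, o8069, o8150] l10822 := rupP (by decide +kernel)
theorem r10823 : PImp [l1209, l1210, l2980, l2981, l2827, l2829, o3427, l10492, o5285, o5286, o5287, o5290, l10822, l5042, l5162, l3612, l4820] l10823 := rupP (by decide +kernel)
theorem r10824 : PImp [l10393, o3438, o3436, l2658, l2657, l481, l480, l8603, l7707, o3464, l5925, l2668, l4208, l10742, l10760, l10592] l10824 := rupP (by decide +kernel)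
theorem r10825 : PImp [l1446, o8053] l10825 := rupP (by decide +kernel)
theorem r10826 : PImp [l10393, l2658, l2657, l3933, l481, l480, l8603, l7707, o3464, l5925, l2668, l4208, o3434, o3435, o3436, o3438, l10824, l2473, l2474, l2475, l2477, l10543, o5285, o5286, l10408, l2494, l2450, l2452, l2448, l673, l8399, l10664, l1104] l10826 := rupP (by decide +kernel)
theorem r10827 : PImp [l1209, l1210, l2980, l2981, l2827, l2829, o3427, l10823, l10492, o5285, o5286, o5287, o5290, l10822, l2473, l2474, l2476, l10467] l10827 := rupP (by decide +kernel)
theorem r10828 : PImp [o8069, o8150] l10828 := rupP (by decide +kernel)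
theorem r10829 : PImp [l9533, l2736] l10829 := rupP (by decide +kernel)
theorem r10830 : PImp [l3933, l2611, l3595, l10828, l3235, l10663, o714] l10830 := rupP (by decide +kernel)
theorem r10831 : PImp [l10394, l4082, l4208, l4201, l10830, l3931, l2650, l9533, l4583, l3157, l2566, l10411, l4280, l4281, l4081, l4279, l10828, o8115, l6898, l10577, o8652, o3663] l10831 := rupP (by decide +kernel)
theorem r10832 : PImp [l4082, l1209, l1210, l2980, l2981, l2827, l2829, o3427, l10827, l10492, o5285, o5286, o5287, o5290, l10831, l5042, l2473, l2474, l2476, l5162, l10467, l3612, l4820] l10832 := rupP (by decide +kernel)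
theorem r10833 : PImp [l10393, l4082, l2658, l2657, l3933, l481, l480, l8603, l7707, o3464, l5925, l2668, l4208, o3434, o3435, o3436, o3438, l10824, l10826, l2484, l2473, l2474, l2475, l2477, l10156, l10592, o5285, o5286, l10408, l2494, l2450, l2452, l2448, l673, l10664, o7899, l1104, l10643, o8229] l10833 := rupP (by decide +kernel)
theorem r10834 : PImp [l10393, l2596, l2708, l5238, l10508, l2430, l8603, l480, l3509, l2834, l8235, l4209, l481, l7707, l3473, l5925, l2668, l2992, l1209, l1210, l422, l10833, l10832, l10820, l3325, l2643, l10821, l10548, l2500, l10550, l2796, l2826, l1128, o7578, o8811] l10834 := rupP (by decide +kernel)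
theorem r10835 : PImp [l4201, l2829, l2827, l2981, l2980, l3933, l4209, l4208, l10517, l10452, l4583, l3930, l3931, l2450, l2452, l2448, l2449, l3611, l3595, l1091, l10663, o688, l10664, l10519, l1104] l10835 := rupP (by decide +kernel)
theorem r10836 : PImp [l3536, l3537, l3595, l4923, l10664, l3235, o4617, l10539, l10618, o8698] l10836 := rupP (by decide +kernel)
theorem r10837 : PImp [l10394, l3933, l4204, o694, l10836, l9533, l3160, l4274, l8921, l4272, l10578] l10837 := rupP (by decide +kernel)
theorem r10838 : PImp [l2829, l2827, l2985, l2982, l2981, l2980, l2658, l3933, l10508, l4209, l4208, l1209, l1210, l4201, l7985, l10835, l10413, l10837, l4280, l10566, l4583, l3931, l3595, l10663] l10838 := rupP (by decide +kernel)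
theorem r10839 : PImp [l5040, l3933, l2611, l3534, l3536, l3537, l3596, l4923, l6862, l10622, o4617, o2300, o3663, l10539, o5614, o7894] l10839 := rupP (by decide +kernel)
theorem r10840 : PImp [l2658, l3933, l4209, l4208, l1209, l1210, l2980, l2981, l2982, l2983, l2985, l2829, o3427, l10492, o5285, o5286, o5287, o5288, o5290, l10838, l5040, l2484, l2473, l2474, l2475, l2476, l2477, l2478, l10707, l10538, l10528, l1446, l10839, l3931, l10621, l2492] l10840 := rupP (by decide +kernel)
theorem r10841 : PImp [l10393, l10395, l2658, l2657, l481, l480, l8603, l7707, o3464, l5925, l2668, l4208, o3434, o3436, o3438, l10824, l2473, l2475, l2477, l10543, l8921, l10592, o5285, l2379, l736, l2494, o1465, l2450, l673, l1104, o8229, l8399, l10643, o7899] l10841 := rupP (by decide +kernel)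
theorem r10842 : PImp [l10395, l4082, l2614, l4912, o8684, l10840] l10842 := rupP (by decide +kernel)
theorem r10843 : PImp [l10394, l3933, l4209, l4208, l4201, l10830, l3931, l9533, l4583, l3160, l10411, l5041, l4280, l4288, l4274, l8921, l4287, l10578] l10843 := rupP (by decide +kernel)
theorem r10844 : PImp [l1209, o3427, l10492, o5290, o5289, o5287, o5286, o5285, l2829, l2827, l2982, l2981, l2980, l1210, l10827, l10843, l5042, l2473, l2474, l2476, l5162, l10467, l3612, l4820] l10844 := rupP (by decide +kernel)
theorem r10845 : PImp [l3933, l4583, l3931, l2613, l3595, l10663, o714, o7929, o8150] l10845 := rupP (by decide +kernel)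
theorem r10846 : PImp [l2658, l4209, l4208, l4201, l10845, l10452, l2467, l10411, l10413, o6719, l4280, l10837] l10846 := rupP (by decide +kernel)
theorem r10847 : PImp [l10393, l10394, l10395, l8603, l480, l3509, l4664, l2596, l4082, l2708, l2614, l2658, l3933, l2834, l8235, l4209, l5238, l481, l7707, l3473, o3464, l5925, l2668, l4208, l2989, l2992, l1209, l1210, l422, l10834, l10841, l2980, l2981, l2982, l2983, l2985, l2827, l2829, o3427, l10492, o5285, o5286, o5287, o5290, l10844, l4912, o8684, l10842, l10846, l5040, l2484, l2473, l2474, l2475, l2476, l2477, l2478, l10707, l10538, l10528, l1446, l2459, l10839, l2492, l10621] l10847 := rupP (by decide +kernel)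
theorem r10848 : PImp [l3926, l2363, l5102, l3106, l5173, l8315, l10499, o5582, l2797, o9159] l10848 := rupP (by decide +kernel)
theorem r10849 : PImp [l10393, o5511, l10848, l3325, l2643, l10517, l10821, l10548, l2500, l10550, l2826, o7578, o8811] l10849 := rupP (by decide +kernel)
theorem r10850 : PImp [l4583, l10605, l2613, l4081, l10828] l10850 := rupP (by decide +kernel)
theorem r10851 : PImp [l2829, o5285, o5286, o5287, o5288, o5289, l10850, l3234, l3235, l10452, l10411, l3611, l3595, l4280, l4281, l4812, l2831, l4287, l10577] l10851 := rupP (by decide +kernel)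
theorem r10852 : PImp [l7703, l2981, l2980, l4123, l10851, o5719, l21, o7790, o7751] l10852 := rupP (by decide +kernel)
theorem r10853 : PImp [l7703, l1209, l1210, l2981, l2801, o3427, l10852, l5042, l2484, l2473, l2474, l2476, l5162, l9432, o5286, l10467, l3612, l4820] l10853 := rupP (by decide +kernel)
theorem r10854 : PImp [l3933, o5285, o5287, o5290, l10531] l10854 := rupP (by decide +kernel)
theorem r10855 : PImp [o5680, l10543, l10002, o691] l10855 := rupP (by decide +kernel)
theorem r10856 : PImp [l10393, l3119, l4129, l2808, o5514, l10818, l3336, l4130, l3115, l6253, o5812, l4082, l2708, l2658, l2657, l3933, l10508, l2430, l2435, l2424, l4209, l4208, l7703, l2992, l1209, l1210, l10849, l10853, o3434, o3436, o3437, o3438, l10855, o5285, l10854, l8343, l2473, l2475, l2477, l2494, l10592, l2450, l2452, l2448, l673, l10664, l1104, o8229, l8399, l10643, o7899] l10856 := rupP (by decide +kernel)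
theorem r10857 : PImp [l10393, l10848, l3325, l2643, l10821, l10548, l2500, l10550, l2796, l2826, l1128, o7578, o8811] l10857 := rupP (by decide +kernel)
theorem r10858 : PImp [o3438, o3437, o3436, o3435, l2658, l2657, l3933, l7703, l2992, l1209, l1210, l4124, l10854, o5680, o5682, o5718, o5590, l10543, o691, o695, l8332, l10574, l2447, l5873] l10858 := rupP (by decide +kernel)
theorem r10859 : PImp [l10393, l7703, l1209, l10801, l10807, l1073, o6034, l2992, o2535, l3095, l3293, l4232, l5034, l3119, l4129, l2808, o5514, l10818, l3336, l4130, l3115, l6253, o5812, l4082, l2708, l2658, l2657, l3933, l10508, l2430, l2435, l2424, l4209, l4208, l2660, l1210, l10856, l4888, o4005, o6311, l3845, l4995, l10708, l10857, l10853, o3434, o3436, o3438, o3525, l10858, l5040, l2473, l2475, l2477, l10543, l10592, o5285, l8343, l2494, l2450, l2452, l2448, l10825, l673, l10664, o2713, l1104, l9185, o8229, o7899, l10643] l10859 := rupP (by decide +kernel)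
theorem r10860 : PImp [l3926, l2360, l2610, l2361, l5102, l3104, l5173, l8315, l10499, o5565, o5516, o5579, l2978, l2718, l4478, l4303, l4079, l4179, o7609, o7428, o2221, o3624, l1491, o7491] l10860 := rupP (by decide +kernel)
theorem r10861 : PImp [l10393, l2614, o8684, l10860, l3325, l2643, l10821, l10548, l2500, l10550, l2796, l2826, o8811, l1128, o7578] l10861 := rupP (by decide +kernel)
theorem r10862 : PImp [l2827, l4201, l10851, o5683, o5590, l9432, l28, l5871, l4081, l2649, l8005] l10862 := rupP (by decide +kernel)
theorem r10863 : PImp [l1209, l1210, l2980, l2981, o3427, l10862, l5042, l2484, l2473, l2474, l2476, l5162, l9432, l10828, l2565, o5286, o8115, l10467] l10863 := rupP (by decide +kernel)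
theorem r10864 : PImp [l2596, l4082, l2708, l2658, l2657, l4209, l4208, l7703, l1209, l10863, o3434, o3436, o3437, o3438, o3525, l10855, l10858, o5285, l2473, l2475, l2477, l8343, l8921, l10592, l2494, l2450, l2452, l673, l1104, o8229, l8399, l10643, o7899] l10864 := rupP (by decide +kernel)
theorem r10865 : PImp [l2827, l4201, l10851, o5683, o5588, l9432, l8392, l28, l4080, l2564, l2655, l4466] l10865 := rupP (by decide +kernel)
theorem r10866 : PImp [l1209, l1210, l2980, l2981, l2982, o3427, l10865, l5042, l2484, l2473, l2474, l2476, l5162, l9432, l10828, l2565, o5286, o8115, l10467] l10866 := rupP (by decide +kernel)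
theorem r10867 : PImp [l10393, l10395, l7703, l1209, l4208, l2596, l4082, l2708, l4209, l3119, l4129, l2808, o5514, l10818, l3336, l4130, l3115, l6253, o5812, l2657, l2658, l10866, o3438, o3436, l2660, o3525, l10858, l2477, l10543, o5285, l10592, l2475, l2473, l5040, o3434, l2992, l1210, l5034, l4232, l10801, l10807, l3293, l1073, l3095, o2535, o6034, o3947, l10859, l10864, l4888, o4005, o6311, l3845, l4995, l10708, l8921, l2379, l736, l2494, o1465, l2450, l10825, l673, o2713, l1104, l9185, o8229, o7899, l10643] l10867 := rupP (by decide +kernel)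
theorem r10868 : PImp [l10393, l3119, l8603, l5925, l4129, l2808, o5514, l10818, l3336, l3115, l480, l7703, l2988, l1209, l1210, l8260, l4130, l6253, o5812, o5511, o5345, l2596, l4082, l2708, l3933, l5238, l10508, l2430, l2424, l3509, l8235, o5512, l2806, l481, l7707, l3473, o3464, l2668, l422, l3927, l328, l10847, l10861, l10867, l10804, l10731, l3308, l10796, l4518, l4521] l10868 := rupP (by decide +kernel)
theorem r10869 : PImp [l4201, l3933, l4209, l4208, l4583, l3931, l3595, l10663, l4204, o694, l10836] l10869 := rupP (by decide +kernel)
theorem r10870 : PImp [l2829, l2827, l2985, l2982, l2981, l2980, l4208, l1209, l1210, l7985, l10835, l10413, l10869, l2564, l10411, l4081, o7879, l6862] l10870 := rupP (by decide +kernel)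
theorem r10871 : PImp [l1209, l10492, l2829, l2985, l2983, l2982, l2981, l2980, l2658, l3933, l10508, l4209, l4208, l1210, l10870, l5040, l2484, l2473, l2474, l2475, l2476, l2477, l2478, l10707, l10538, l10528, l8001, l10839, l3931, l10621, l2492] l10871 := rupP (by decide +kernel)
theorem r10872 : PImp [l4082, l4208, l4201, l10845, l2564, l10452, l10411, l4081, o7879, l6862] l10872 := rupP (by decide +kernel)
theorem r10873 : PImp [l2658, l3933, l4209, l4208, l1209, l1210, l2980, l2981, l2982, l2983, l2985, l2827, l2829, o3427, l10492, o5285, o5286, o5287, o5288, o5290, l10871, l10872, l5040, l2484, l2473, l2474, l2475, l2476, l2477, l2478, l10707, l10538, l10528, l2459, l1446, l2492, l10839, l10621] l10873 := rupP (by decide +kernel)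
theorem r10874 : PImp [l4082, l10833, l10841] l10874 := rupP (by decide +kernel)
theorem r10875 : PImp [l10395, l4082, l2614, l4912, o8684, l10873] l10875 := rupP (by decide +kernel)
theorem r10876 : PImp [l10393, l10394, l8603, l480, l3509, l4664, l2596, l4082, l2708, l2834, l8235, l4209, l5238, l481, l7707, l3473, o3464, l5925, l2668, l2989, l2992, l1209, l1210, l422, l10874, l10875, l10832, l10844] l10876 := rupP (by decide +kernel)
theorem r10877 : PImp [l3234, l10452, l10411, l3611, l4807, l4812] l10877 := rupP (by decide +kernel)
theorem r10878 : PImp [l6856, l10528, o7894, o3663, o7729, l10539, o5600] l10878 := rupP (by decide +kernel)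
theorem r10879 : PImp [l3933, o5285, o5286, o5288, l10877, l4583, l10605, l2451, l2452, l2448, l2449, l2613, l4280, l4281, l4283, l4081, l4279, l10664, l6862, o2300, o2303, l6856, o8066, l10878, l10665, o5618, o5600] l10879 := rupP (by decide +kernel)
theorem r10880 : PImp [l2829, l2985, l2983, l2982, l2981, l2980, l2658, l3933, l4208, l1209, l1210, l5040, l2484, l2473, l2474, l2475, l2476, l2477, l2478, l9432, o5285, o5286, o5287, l10561, l10707, l1446, l10528, l10839, l3931, l10621, l2492] l10880 := rupP (by decide +kernel)
theorem r10881 : PImp [l2658, l4209, l4208, l1209, l2981, l2982, l2828, l2827, l2829, o3427, l10880, l4201, l10879, o5683, o5588, l9432, l8392, l28, l4080, l2564, l2655, l4466] l10881 := rupP (by decide +kernel)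
theorem r10882 : PImp [l10393, o5679, o5585, l10543, l10523, l4260, l2651, o7959, l6206, l3161] l10882 := rupP (by decide +kernel)
theorem r10883 : PImp [l10395, l2596, l4082, l2708, l2614, l2658, l2657, l3933, l2834, l4209, l4208, l2989, l2992, l1209, l1210, l4912, o8684, l10881, o3434, o3436, o3438, l10882, o5285, l10854, l8343, l2473, l2475, l2477, l2494, l10592, l2450, l2452, l2448, l732, l673, l1104, o8229, l8399, l10643, o7899] l10883 := rupP (by decide +kernel)
theorem r10884 : PImp [o3438, o3436, o3435, l2658, l2657, l4208, l7703, l2992, l1209, l1210, l4124, l10854, o5682, o5718, o5590, o5589, l10543, l4280, o695, l10574, l5873, l3930, l8005, l4475] l10884 := rupP (by decide +kernel)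
theorem r10885 : PImp [l10393, l3119, l8603, l5925, l4129, l2808, o5514, l10818, l3336, l3115, l480, l7703, l2988, l1209, l1210, l8260, l4130, l6253, o5812, o5511, o5345, l2596, l4082, l2708, l2658, l2657, l3933, l5238, l10508, l2424, l3509, l8235, l4209, o5512, l481, l7707, l3473, o3464, l2668, l4208, l2660, l10868, l10876, l10883, l10866, o3434, o3436, o3438, o3525, l10884, l2473, l2475, l2477, l10543, l10592, o5285, l8343, l2494, l2450, l2452, l2448, l673, l10664, l1104, o8229, l8399, l10643, o7899] l10885 := rupP (by decide +kernel)
theorem r10886 : PImp [l4201, l2829, l2827, l2985, l2982, l2981, l2980, l4208, l1209, l1210, l10745, l10845, l10835, l10413, l10869] l10886 := rupP (by decide +kernel)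
theorem r10887 : PImp [l10395, l1209, l10492, l2829, l2827, l2985, l2982, l2981, l2980, l4082, l2658, l10508, l4209, l4208, l1210, l10886, l3235, l2380, l2564, l10452, l2467, l10411, l3595, l10413, o6719, l4280, l4281, l4081, l4279, l2650, l10837, l6862, o8115, l6898, l10577, o8652, o3663] l10887 := rupP (by decide +kernel)
theorem r10888 : PImp [l2658, l3933, l4209, l4208, l1209, l1210, l2980, l2981, l2982, l2983, l2985, l2829, o3427, l10492, o5285, o5286, o5287, o5288, o5290, l10887, l2484, l2473, l2474, l2475, l2476, l2477, l2478, l10707, l10538, l10528, l1705, l1446, l10839, l3931] l10888 := rupP (by decide +kernel)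
theorem r10889 : PImp [l4201, l2658, l2657, l3933, l5041, l4203, l4204, l4207, l10750, l10764, l10762] l10889 := rupP (by decide +kernel)
theorem r10890 : PImp [l2658, l2657, l4209, l10889, l4260, l10543, o5287, o5290, l8341] l10890 := rupP (by decide +kernel)
theorem r10891 : PImp [l10394, l10393, l10395, l2596, l4082, l2708, l2614, o8684, l2989, l4912, l2992, l4896, l4664, l2658, l2657, l3933, l2834, l4209, o3464, l4208, l1209, l1210, l422, l10888, o3434, o3435, o3436, o3437, o3438, o3439, l10890, l2473, l2474, l2475, l2477, l10543, l10592, o5285, o5286, l10468, l2494, l2450, l2452, l2448, l673, l10664, l1104, o8229, l8399, l10643, o7899] l10891 := rupP (by decide +kernel)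
theorem r10892 : PImp [l2829, l2827, l2985, l2982, l2981, l2980, l4208, l1209, l1210, l4583, o7694, l10835, l10413, l10869] l10892 := rupP (by decide +kernel)
theorem r10893 : PImp [l2829, l2827, l2981, l2980, l10872, l10892, l2564, l10452, l10566, l4081, o7879, o8150] l10893 := rupP (by decide +kernel)
theorem r10894 : PImp [l2658, l3933, l10508, l4209, l4208, l1209, l1210, l2980, l2981, l2982, l2983, l2985, l2829, o3427, l10492, o5285, o5286, o5287, o5288, o5290, l10893, l2484, l2473, l2474, l2475, l2476, l2477, l2478, l10707, l10538, l10528, l1705, l1446, l10839, l3931] l10894 := rupP (by decide +kernel)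
theorem r10895 : PImp [l4201, l2658, l2657, l3933, o5285, o5287, o5290, l8341, l5041, l4203, l4204, l4207, l10750, l10764, l5893, l2469] l10895 := rupP (by decide +kernel)
theorem r10896 : PImp [o5679, o5678, l10543, l10523, o690, o1452, o7958, o7866] l10896 := rupP (by decide +kernel)
theorem r10897 : PImp [l10394, l10393, l10395, l4664, l2596, l4082, l2708, l2614, l2658, l2657, l3933, l2834, l4209, o3464, l4208, l2989, l2992, l1209, l1210, l422, l4896, l4912, o8684, l10891, l10894, o3434, o3435, o3436, o3437, o3438, o3439, l10896, o5285, o5286, l10895, l2473, l2474, l2475, l2477, l10468, l10592, l2494, l2450, l2452, l2448, l673, l10664, l1104, o8229, l8399, l10643, o7899] l10897 := rupP (by decide +kernel)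
theorem r10898 : PImp [l4082, l10832, l10844] l10898 := rupP (by decide +kernel)
theorem r10899 : PImp [l4201, o5285, o5286, o5287, o5290, l8341, l5041, l4203, l4204, l4207, l10764, l10745, l2469, l10749, l2646, o7922, l737] l10899 := rupP (by decide +kernel)
theorem r10900 : PImp [l10393, l2658, l2657, l3933, l4209, l4201, l10890, l4888, l10899, o5590, l10543, l10745, o695, l10764] l10900 := rupP (by decide +kernel)
theorem r10901 : PImp [l2658, l2657, l3933, l2473, l2474, l2475, l2477, l10543, l10592, o5285, o5286, l10468, l2494, l2450, l2452, l2448, l673, l10664, l1104, o8229, l8399, l10643, o7899] l10901 := rupP (by decide +kernel)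
theorem r10902 : PImp [l10393, l4201, l2658, l2657, l3933, o5285, o5286, o5287, o5290, l10895, l8341, l4888, l5041, l4203, l4204, l4207, l10764, l2469, l2646, l5893, l10749, o7922, l737] l10902 := rupP (by decide +kernel)
theorem r10903 : PImp [l10394, l4664, l2596, l4082, l2708, l2658, l2657, l3933, l2834, l4209, o3464, l4208, l2992, l1209, l1210, l422, l10897, l10898, o3434, o3435, o3436, o3437, o3438, o3439, l10901, l4201, l10900, l10902, o5682, o5590, l10543, o695, l10764, l1692, l5873, l2445] l10903 := rupP (by decide +kernel)
theorem r10904 : PImp [l10394, l10395, l4664, l2596, l4082, l2708, l2614, l2658, l2657, l3933, l10508, l2430, l2834, l4209, l2806, l4208, l2989, l2992, l1209, l1210, l422, l4912, o8684, l10861, l10881, o3434, o3435, o3436, o3437, o3438, o3439, l10901, l10896, l10902] l10904 := rupP (by decide +kernel)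
theorem r10905 : PImp [l10393, l10394, l2615, l3119, l498, l10396, l8603, l5925, l4129, l2808, o5514, l10818, l3336, l2658, l2657, l3933, l7703, l8721, o4906, l4969, l3115, l480, l2988, l1209, l1210, l8260, l5238, l10508, l2424, l3509, l8235, l4130, l4209, o5511, o5512, o5017, l2713, l4968, l499, o4909, l5035, l3000, l4841, l4838, l481, l7707, l3473, o3464, l2668, l4208, l2992, l10406, l422, l3927, l3442, l3423, l2708, l2596, l4082, l9876, l6253, l4664, o5812, l10885, l10903, l10904, l10866, o3434, o3435, o3436, o3437, o3438, o3439, o3524, l10901, l4123, l4201, l10902, o5719, o5590, o5589, l10543, l4280, o695, l10764, l3107, l5873, o7828, l3930, o7877, l8005, l4475] l10905 := rupP (by decide +kernel)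
theorem r10906 : PImp [l10393, l10634, l499, l498, l8721, o4909, o4893, o4906, l10396, l10406, l7703, l1210, l3442, l3423, l328, o5017, o5512, o5514, l4189, l4593, l4767, l4779, l10819, l10905, o2924, l2539, o6801] l10906 := rupP (by decide +kernel)
theorem r10907 : PImp [l4084, l8367, o9057, l2544] l10907 := rupP (by decide +kernel)
theorem r10908 : PImp [l2713, l4183, l2604, l10907, l2571, l2568, o9147, l2707, l7469] l10908 := rupP (by decide +kernel)
theorem r10909 : PImp [l5035, l7703, l3000, l4838, l328, l4779, l9208, l10164, l2596, l6294, o2924] l10909 := rupP (by decide +kernel)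
theorem r10910 : PImp [l7703, l3000, l10173, l10165, l6294, l2571, l3003, o3242, l2596, o9132] l10910 := rupP (by decide +kernel)
theorem r10911 : PImp [l7703, l3008, l5035, l4084, l6706] l10911 := rupP (by decide +kernel)
theorem r10912 : PImp [o3582, l2596, o9132] l10912 := rupP (by decide +kernel)
theorem r10913 : PImp [l10393, l10634, l2713, l498, l8721, l10396, l5925, l8603, l10406, l7703, l1210, l328, l10906, l10908, l2615, l10910, l10911, l2571, l10912, o2924, l2588, l6294] l10913 := rupP (by decide +kernel)
theorem r10914 : PImp [l2713, l7703, l328, l2604, l8108, l8380, l6208, l4084, l4604, o8969, o3582] l10914 := rupP (by decide +kernel)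
theorem r10915 : PImp [l10393, l498, l10396, l8603, l7703, l1209, l10634, l10913, o4574, o5824, l10914, l2615, l5519, l10167] l10915 := rupP (by decide +kernel)
theorem r10916 : PImp [l5872, l3930, l2424, l7703, o3414, l2831, l10498, l3583, l5102, l10821, l3236, l3239, l10499, l3325, l2366, l2975, l2796, l453, l1431, l7334, o5218, l4275, l4496, l5088, l5097, o4585, o3387, l2441, o8143, o8061] l10916 := rupP (by decide +kernel)
theorem r10917 : PImp [l10393, l7703, l1209, o3427, l10492, o5290, o5288, o5287, o5286, o5285, l2829, l2827, l2981, l2980, l4209, l2657, l2834, l8185, l2992, l4896, l2602, l4082, l10508, l3933, l4208, l4201, l10486, l10452, l10477, l2550, l4583, l10829, l10522, l3930, l2450, l2452, l2448, l5872, l3595, l3611, l1091, o4750, l10663, o2283, o694, o714, l7352, o7929, l10643, l10916, o7729, l1674] l10917 := rupP (by decide +kernel)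
theorem r10918 : PImp [l3926, l5102, l3236, l3239, l10499, l2366, l2975, l2796, l453, l1431, l7334, o5218, l4496, l5088, l5097, o4585, o3387, l2441, o8143, o8061] l10918 := rupP (by decide +kernel)
theorem r10919 : PImp [l2432, l7703, l2982, l2980, l2424, l3933, l2550, l1446, l2492, o8021, o7929, l10489, l10918, l3323, l3325, l8317] l10919 := rupP (by decide +kernel)
theorem r10920 : PImp [l10393, l10394, l10395, l4209, l2657, l2834, l8185, l7703, l2992, l4896, l2602, l10508, l1209, l1210, l2980, l2828, l2827, o3427, l10492, o5285, o5286, l10917, l2484, l2473, l2474, l2475, l2476, l2477, l10919, l3234, l2382, l2378, l2457, l10021, l3600, l2493, o4750, l2647, l2648, o8112, l676, o7767, o7942] l10920 := rupP (by decide +kernel)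
theorem r10921 : PImp [l10394, l10393, l2602, l4082, l2711, l2555, l2708, o8579, l3336, l4130, l3115, l8893, o9106, o5345, l5238, l10508, l2430, l2424, l8603, l480, l3509, l4663, l2834, l8235, l4209, l481, l7707, l3473, l5925, l2668, l7703, l2992, l1209, l1210, l422, l10920, l10841, l10820, l3325, l2643, l10821, l10548, l2500, l10550, l2796, l2826, l1128, o7578, o8811] l10921 := rupP (by decide +kernel)
theorem r10922 : PImp [l3926, l5102, l3239, l3236, l2975, l2796, l2517, l2366, l1431, l455, o5218, l7334, l5097, l4275, l4496, l5088, l2441, o4585, o3387, o8143, o8061] l10922 := rupP (by decide +kernel)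
theorem r10923 : PImp [l3926, l5102, l3236, l3239, l10922, l2520, l2371, l447, l5082, l2412] l10923 := rupP (by decide +kernel)
theorem r10924 : PImp [l3323, l3325, l8317] l10924 := rupP (by decide +kernel)
theorem r10925 : PImp [l10393, l7703, l1209, o3427, l10492, o5290, o5289, o5288, o5287, o5286, o5285, l2829, l2827, l2981, l2980, l4209, l2657, l2834, l8185, l2992, l4896, l2602, l4082, l10508, l2424, l3933, l4208, l4201, l10486, l10452, l10477, l2550, l4583, l10829, l2450, l2452, l2448, o7694, l3595, l1091, o4750, l10663, o2283, o694, o714, l7352, l8320, l10643, l10924, l10923, l3565, l2831, o7729, l1674] l10925 := rupP (by decide +kernel)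
theorem r10926 : PImp [l5042, l7703, l2982, l2980, l2424, l3933, l2550, l2492, l1446, l8320, l10489, l10923, l10924] l10926 := rupP (by decide +kernel)
theorem r10927 : PImp [l10393, l4209, l2657, l2834, l8185, l7703, l2992, l4896, l2602, l10508, l1209, l1210, l2827, o3427, l10492, o5285, l10925, l2484, l2473, l2475, l2477, l10926, l2457, l2487] l10927 := rupP (by decide +kernel)
theorem r10928 : PImp [l10394, l10393, l2602, l4082, l2711, l2555, l2708, o8579, l3336, l4130, l3115, l8893, o9106, o5345, l8603, l480, l3509, l4663, l2834, l8235, l4209, l5238, l2658, l2657, l481, l7707, l3473, o3464, l5925, l2668, l4208, l7703, l2992, l1209, l1210, l422, l8185, o8678, l10921, l10927, o3434, o3435, o3436, o3438, l10824, l10841, l2473, l2474, l2475, l2477, l10543, l10592, o5285, o5286, o5632, l10408, l2494, l2450, l2451, l2452, l673, o2287, o2283, o8230, l8399, l676, o7899] l10928 := rupP (by decide +kernel)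
theorem r10929 : PImp [o8147, o8065] l10929 := rupP (by decide +kernel)
theorem r10930 : PImp [o7729, l1674] l10930 := rupP (by decide +kernel)
theorem r10931 : PImp [l2829, l2827, l2981, l2980, l3933, l2550, l4583, l3930, l3931, l2452, l2448, o7694, l3611, l3595, o4750, l10663, o694, o714, l8320, l10929, l10643, l10930, l10493, l2831, l10517, l3583, l3926, l10922, l5102, l2520, l3239, l451, l447, l5082, l4579] l10931 := rupP (by decide +kernel)
theorem r10932 : PImp [l2827, l2828, l2981, l4082, l10508, l4209, l4208, l4201, l10931, l10452, l2467, l10566, l2606, l4081, l9817, o8021, l10464] l10932 := rupP (by decide +kernel)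
theorem r10933 : PImp [l5042, l2980, l3933, l2550, l2492, l1446, l8320, l2452, l2448, o4750, l10929, l10643, l10930, l10493, l10517, l3926, l10922, l5102, l2520, l3239, l451, l447, l5082, l4579] l10933 := rupP (by decide +kernel)
theorem r10934 : PImp [l3930, l10047] l10934 := rupP (by decide +kernel)
theorem r10935 : PImp [l10394, l10395, l2602, l10508, l1209, l1210, l2980, l2981, l2983, l2828, l2829, o3427, l10492, o5285, o5286, o5287, o5288, o5290, l10932, l5042, l2484, l2474, l2475, l2476, l2477, l10933, l3234, l2382, l2378, l10021, o4750, l10934, l2493, l10018, l4953, l2647, l2648, o8112, l676, o7767, o7942] l10935 := rupP (by decide +kernel)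
theorem r10936 : PImp [l10393, l2658, l2657, l3933, l481, l480, l8603, l7707, o3464, l5925, l2668, l4208, o3434, o3435, o3436, o3438, l10824, l10841, l2473, l2474, l2475, l2477, l10543, l10592, o5285, o5286, l10408, l2494, l2450, l2452, l2448, l673, l616, l1104, o8229, l8399, l10643, o7899] l10936 := rupP (by decide +kernel)
theorem r10937 : PImp [l10394, l10393, l422, l7703, l1210, l1209, l2992, l5238, l4209, l480, l8603, l8235, l3509, l2834, l4663, l3336, l4130, l3115, l8893, o9106, o5345, l2708, l2602, l4082, l2711, l2555, o8579, l10936, l10508, l2424, l481, l7707, l3473, l5925, l2668, l3120, l4896, l10928, l10935] l10937 := rupP (by decide +kernel)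
theorem r10938 : PImp [l3933, l2550, l4583, l7978, l3931, o714, l3595, l10663] l10938 := rupP (by decide +kernel)
theorem r10939 : PImp [l2981, l2980, l4082, l4208, l1209, l1210, l4201, l10938, l10452, l2467, l10566, l2606, l4081, l9817, o8021, l10464] l10939 := rupP (by decide +kernel)
theorem r10940 : PImp [l10394, l10393, l2602, l4082, l2711, l2555, l2708, o8579, l3336, l4130, l3115, l8893, o9106, o5345, l8603, l480, l3509, l4663, l2834, l8235, l4209, l5238, l5925, l2668, l481, l7707, l7703, l2992, l1209, l1210, l422, l10936, l2981, l2983, l2828, l2827, l2829, o3427, l10492, o5285, o5286, o5287, o5288, o5290, l10937, l10939, l5042, l2484, l2473, l2474, l2476, l5162, l7978, l3170, l3172, l3174, l2550, l10934, l2646, l2493, o7770, l10018, l4953, l2647, l2648, o8112, l676, o7767, o7942] l10940 := rupP (by decide +kernel)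
theorem r10941 : PImp [o3427, l7703, l2981, l2602, o5285, l10452, l2550, l10605, l10562, l4081] l10941 := rupP (by decide +kernel)
theorem r10942 : PImp [o5680, o5714, o5590, o5585, l10571] l10942 := rupP (by decide +kernel)
theorem r10943 : PImp [l10393, l7703, l2602, l4084, l2604, o3582, o9044, l10508, l2424, l10559, l3119, l4129, l2808, o5514, l10818, l2711, l2555, l2708, o8579, l2435, l2836, l4138, l2980, l2981, l2983, l2828, o3427, l10942, o5285, o5286, o5288, l10941, l5042, l2484, l2474, l2476, l2482, l10562, l2550, l2551, o2338, o2336, o2401, l10021, l10934, o4750, o4922, l2493, l2487, l10018, l10857, l4953, l639, l2647, l2648, o3697, o8112, o7767, l676] l10943 := rupP (by decide +kernel)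
theorem r10944 : PImp [o691, l4201, l2658, l2657, l3933, o5285, o5286, o5287, l10447, l7987, l2469, o6657, o4750, l10749] l10944 := rupP (by decide +kernel)
theorem r10945 : PImp [l10393, o3439, o3438, o3437, o3436, o3435, o3434, l481, l480, l8603, l7707, l3473, o3464, l5925, l2668, l4208, l7703, l2992, l1210, l4124, l10748, l4280, o691, o695, o690, l10944, o5680, o5682, o5718, o5590, o5589, l10574, l10573, l10858, l10884] l10945 := rupP (by decide +kernel)
theorem r10946 : PImp [l10394, l10393, l10395, l2815, o5511, l3119, l8603, l5925, l4129, l2808, o5514, l10818, l3115, l480, l7703, l2988, l1209, l1210, l8260, l3336, l4130, l8893, o9106, o5812, l2602, l4084, l2604, o3582, o9044, l10940, l4082, l2711, l2555, l2708, o8579, l5238, l10508, l2430, l2424, l3509, l4663, l8235, l4209, l2658, l2657, l3933, l481, l7707, l3473, o3556, o3464, l2668, l4208, l2660, l3927, l2659, l2989, l2992, l4183, l3117, l4896, l4912, l10557, o8525, o4790, l10943, o3434, o3436, o3438, o3525, l10945, l2484, l2473, l2475, l2477, l10156, l10592, o5285, l8343, l2494, l7291, l2450, l2452, l2448, o4750, l673, l616, l10643,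 l1104, o8229] l10946 := rupP (by decide +kernel)
theorem r10947 : PImp [o5285, o3427, l7703, l2981, l2602, l2550, l10605, l10562, l4081] l10947 := rupP (by decide +kernel)
theorem r10948 : PImp [l10394, l10395, o5288, o5287, o5286, o5285, o3427, l2829, l2827, l2602, l10508, l2430, l7703, l4201, l10941, l10947, l3234, l3235, l2381, l2383, l2379, l2467, l10566, l3611, l3595, l1091, l2606, l4280, l4281, l4081, l4812, l2651, l2653, l28, l9817, l2831, o7766, o8111, l10643] l10948 := rupP (by decide +kernel)
theorem r10949 : PImp [l10394, l10393, l2602, l4082, l3119, l4129, l2808, o5514, l10818, l2711, l2555, l2708, o8579, l4084, l2604, l7703, l1209, l1210, l2981, l2983, l2828, l2827, o3427, l10942, o5285, o5286, o5288, l10948, l5042, l2484, l2473, l2474, l2476, l5162, l7978, l3170, l3172, l3174, l2550, l10934, l2646, l2493, o7770, l10018, l4953, l2647, l2648, l4812, o8112, l2830, l676, o7767] l10949 := rupP (by decide +kernel)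
theorem r10950 : PImp [l10393, l4201, o3439, o3438, o3437, o3436, o3435, o3434, l3933, o5285, o5286, o5287, o5290, l10854, l8341, l7840, l5041, l4203, l4204, l4205, l10944, l10447, l4888, l7987, l8171, o2712] l10950 := rupP (by decide +kernel)
theorem r10951 : PImp [o3438, o3437, o3436, o3435, l2658, l2657, l4208, l7703, l2992, l1209, l1210, l4124, l10950, o5680, o5682, o5718, o5590, o5589, l10543, l4280, o691, o695, l10574, l10573, l10858, l10884] l10951 := rupP (by decide +kernel)
theorem r10952 : PImp [l10393, l3119, l8603, l5925, l4129, l2808, o5514, l10818, l2711, l2604, l2555, l3336, l3115, l480, l7703, l2988, l1209, l1210, l8260, l4130, l8893, o9106, o5812, l3509, l8235, l4209, l5238, l2658, l2657, l3933, o5511, l2815, l481, l7707, l3473, o3464, l2668, l4208, l2660, l4138, l2602, l2708, o3582, l4084, l4082, o8579, o9044, l10940, l10946, l10949, o3434, o3436, o3438, o3525, l10951, l2473, l2475, l2477, l10543, l10592, o5285, l8343, l2494, l2450, l2452, l2448, l673, l616, l1104, o8229, l8399, l10643, o7899] l10952 := rupP (by decide +kernel)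
theorem r10953 : PImp [l7703, l328, l10952, o2924, l4602, o6689] l10953 := rupP (by decide +kernel)
theorem r10954 : PImp [l10394, l10395, l3234, l2381, l2382, l2378, l10452, l10566, l3611, l1091, l4283, l4284, l2647, l2648, l28, o8112, l676, o7767, o7942] l10954 := rupP (by decide +kernel)
theorem r10955 : PImp [l7703, l2981, l2980, o3749, l4209, l3933, l4208, l499, l4125, l4201, l10590, o5271, o5284, o5276, o5275, o5717, l10954, l4583, l8348, l3931, l2450, l2452, l2448, o3649, o3712, l3595, l1091, l10663, o7708, l4204, o694, l10930, l8354, l10929, l10643] l10955 := rupP (by decide +kernel)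
theorem r10956 : PImp [l2982, l3933, l3931, l2452, l2448, l10918, l10929, l3325, o8767, l10821, l10476, l10548, l10550, l10549] l10956 := rupP (by decide +kernel)
theorem r10957 : PImp [l10394, l2432, l5040, l5042, l2983, l2982, l2981, l2980, l3933, l1446, o4750, l10956, l2492, l10621, l3534, l3536, l3537, l4949, l10929, o4610, l10643, o5615, o8767, l10930, l3173, l10476, o3658, l5161, l4938, l10509, l3568, o4612, l1495, o8108] l10957 := rupP (by decide +kernel)
theorem r10958 : PImp [l10393, l10394, l10395, l5042, l2981, l2980, l10508, l4896, l10957, l3234, l2382, l2378, l10021, l10018, o4750, l4953, l2647, l2648, o8112, l676, o7767, o7942] l10958 := rupP (by decide +kernel)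
theorem r10959 : PImp [l4928, l4933] l10959 := rupP (by decide +kernel)
theorem r10960 : PImp [l10394, l10393, l3171, l3173, l3174, l10959, l2651, l2653, l2655, o8111, o7770, l10643, l650, o7766] l10960 := rupP (by decide +kernel)
theorem r10961 : PImp [l10393, l498, l8721, o5017, l7703, l328, o2924, o6731, o4906, l4969, l10508, l2424, l4209, l4968, l1210, l422, l2980, l2981, l2984, l2803, l2828, l2827, l2829, l10955, l5042, l5040, l2473, l2474, l2475, l2476, l2477, l2478, l10960, l3234, l5161, l5162, l3604, l1446, l10958, o4428] l10961 := rupP (by decide +kernel)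
theorem r10962 : PImp [l10393, l3933, l5925, l4208, o5243, o5247, o5679, o5262, l10613] l10962 := rupP (by decide +kernel)
theorem r10963 : PImp [l10393, o3439, o3438, o3437, o3436, o3435, o3434, l8603, l480, l3509, l2834, l8235, l4209, l2658, l2657, l3933, l481, l7707, o3464, l5925, l2668, l4208, l4201, l10824, l10962, l10592, l4280, l4260, o695, l10764, l10762, o4428, o4430, o4433, o5590, l10613] l10963 := rupP (by decide +kernel)
theorem r10964 : PImp [l10394, l10393, l498, l8721, o5017, l7703, l328, o2924, o6731, l2581, l2592, l3119, l8603, l5925, l4129, l2808, o5514, l10818, l3336, l4130, l3115, l8893, o9106, o5812, o5511, o5345, o5358, l480, l3509, l4663, l2834, l8235, l4209, l5238, l2658, l2657, l3933, o5512, o4906, l4968, l481, l7707, l3473, o3464, l2668, l4208, l2992, l1209, l1210, l422, l10961, o3434, o3435, o3436, o3438, o3651, l10963, l2473, l2474, l2475, l2477, l10592, o5243, o5246, l10468, l2494, l2450, l2452, l2448, l673, l616, l1104, o8229, l8399, l10643, o7899] l10964 := rupP (by decide +kernel)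
theorem r10965 : PImp [l2567, l2981, l464, l465, l462, l10954, l2550, l4583, l10605, l3931, l2613, l3595, l3562, o3650, l8348, o7878] l10965 := rupP (by decide +kernel)
theorem r10966 : PImp [l7703, l2982, l2581, l2592, l2615, l2557, l4201, l10965, o4443, o5285, o5271, l10631] l10966 := rupP (by decide +kernel)
theorem r10967 : PImp [l2592, l7703, l2981, l2984, l2803, l2828, l2827, l2829, l10966, l5042, l5040, l2473, l2475, l2477, l5162, l10960] l10967 := rupP (by decide +kernel)
theorem r10968 : PImp [l4201, l2567, l2658, l2657, l3933, l465, l463, l10613, o5719, l10615, l10764, l10447] l10968 := rupP (by decide +kernel)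
theorem r10969 : PImp [l10393, l2658, l2657, l3933, o5511, l481, l480, l8603, l7707, l3473, l5925, l4208, l7703, l1209, l1210, l4123, l4124, l2567, l4201, l10962, l10592, l4280, o691, o695, l10968, o4441, o5285, o5249, o5272, o5273, l10615, l10764, l10574] l10969 := rupP (by decide +kernel)
theorem r10970 : PImp [l10394, l10393, l3119, l498, l10396, l8603, l5925, l4129, l2808, o5514, l10818, l3336, l10915, l3115, l480, l7703, l2988, l1209, l1210, l8721, o4906, l4969, o5512, l4593, l8260, l4130, l8893, o9106, o5812, o5511, o5345, l4767, l5238, l10508, l2430, l2424, l3509, l4663, l8235, l4209, l2658, l2657, l3933, l4779, l4189, o5017, l4968, l499, o4909, l5035, l3000, l4841, l4838, l481, l7707, l3473, o3464, l2668, l4208, l2660, l2992, l10406, l3927, l3442, l3423, l328, l2557, l10953, l2615, l8217, o2924, o6731, l2592, l2581, l2431, l10964, l10609, l10967, o3434, o3435, o3436, o3437, o3438, o3439, o3651, o3524, o3525, l10969, l2473, l2475, l2477, l10592, o5243, l8343, l2494, l2450, l2452, l2448, l673, l616, l1104, o8229, l8399, l10643, o7899] l10970 := rupP (by decide +kernel)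
theorem r10971 : PImp [o694, l10929, l10476, o8767] l10971 := rupP (by decide +kernel)
theorem r10972 : PImp [l3303, l7053, o3959, o3906, l5863, l6060] l10972 := rupP (by decide +kernel)
theorem r10973 : PImp [l5827, o5929, l706] l10973 := rupP (by decide +kernel)
theorem r10974 : PImp [l4618, l4088] l10974 := rupP (by decide +kernel)
theorem r10975 : PImp [l10821, l1128, l10548, l2796, l10550] l10975 := rupP (by decide +kernel)
theorem r10976 : PImp [l10975, l3325, l3327, l10922, l5102, l10499] l10976 := rupP (by decide +kernel)
theorem r10977 : PImp [l10731, l10766] l10977 := rupP (by decide +kernel)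
theorem r10978 : PImp [l10454, l1246, l1210, l328, l10977, l8799, o2460, l6290, o3906, o3901, l6059, l4070] l10978 := rupP (by decide +kernel)
theorem r10979 : PImp [l10393, o694, o5512, l2803, l4125, l10590, o5275, o5514, o5280, o5511, o5271, l4896, l2829, l7703, l2982, l2980, l328, l4610, o2924, o6768, l2711, l10508, l2424, l3933, l10974, l4583, l3930, l3931, l2452, l2448, o7694, l3611, l10929, l10971, o4750, l10643, l10930, l10493, l2831, l3583, l10976, l10978, l4233, l10801, l10803, l10811] l10979 := rupP (by decide +kernel)
theorem r10980 : PImp [l10393, o5512, l2803, l4125, l10590, o5275, o5514, o5280, o5511, o5271, l4201, l2827, l2828, l7703, l2984, l328, l4610, o2924, o6768, l3336, l4130, l3115, l8893, o9106, o5812, o5345, l4209, l4204, l10979, l3234, l3235, l10452, l10566, l10954, l3611, l10959, l4287, l4813] l10980 := rupP (by decide +kernel)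
theorem r10981 : PImp [l2829, l2827, l3933, l4583, l10580, l3930, l2831, l3611, l3583] l10981 := rupP (by decide +kernel)
theorem r10982 : PImp [l10393, l2803, l7703, l2981, l2980, o5511, o5514, o5512, l8721, o5017, l4208, l4125, l4201, l10590, o5271, o5283, o5280, o5275, l10980, l4280, l2269, l10981, l10452, l10566] l10982 := rupP (by decide +kernel)
theorem r10983 : PImp [l2980, l1446, o4750, l2432, l5040, l2982, l10957, l10956, l2606, l5118, l10621, l3536, l3537, l10929, l10643, l10930, o3712, o8272, o8187] l10983 := rupP (by decide +kernel)
theorem r10984 : PImp [l7703, l328, l4610, o2924, o6768, l2711, l4233, l10801, l10803, l10811] l10984 := rupP (by decide +kernel)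
theorem r10985 : PImp [l10974, l1210, o4743, l3896, l3536, l3537, l10971, l10930, l10978, l10493] l10985 := rupP (by decide +kernel)
theorem r10986 : PImp [l10393, l2484, l5040, l4896, l7703, l2982, l2980, l328, l4610, o2924, o6768, l10508, l2424, l3933, o5511, l1210, l422, l1446, o4428, o5590, o4750, l10983, l10984, l10985, l10643, l10929, l2446, l3536, l2492, l10621] l10986 := rupP (by decide +kernel)
theorem r10987 : PImp [l10393, l10395, l2829, l2827, l7703, l2984, l2980, l3336, l4130, l3115, l8893, o9106, o5812, o5511, o5345, l4209, l8721, o5017, l422, l4912, l10982, l5040, l2473, l2475, l2477, l2478, l10986, l3234, l3235, l10021, l10959, l10960, o4430, l4296] l10987 := rupP (by decide +kernel)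
theorem r10988 : PImp [l8799, l3075, l6290, o3959, l6321] l10988 := rupP (by decide +kernel)
theorem r10989 : PImp [l1209, l424, l328, l10988, l10731, l3308, l10796, l10789] l10989 := rupP (by decide +kernel)
theorem r10990 : PImp [l7703, l328, o2924, l2711, l4968, l10809, l10794] l10990 := rupP (by decide +kernel)
theorem r10991 : PImp [o3891, o3902, l6059, l5863, l6060] l10991 := rupP (by decide +kernel)
theorem r10992 : PImp [l10973, o3937, l10991, l10972, l3308, l6059, l5861, l3310] l10992 := rupP (by decide +kernel)
theorem r10993 : PImp [l424, l422, l10972, l7793, o3891] l10993 := rupP (by decide +kernel)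
theorem r10994 : PImp [l10973, o3937, l10993, l3308, l5858, l5861, l3310] l10994 := rupP (by decide +kernel)
theorem r10995 : PImp [l1209, l10989, l10994, l10731, l3308, l10796, l10789] l10995 := rupP (by decide +kernel)
theorem r10996 : PImp [l7703, l328, l4610, o2924, o6768, l2544, l2713, l4968, l10984, l10990] l10996 := rupP (by decide +kernel)
theorem r10997 : PImp [l10393, o3439, o3438, o3437, o3436, o3435, o3434, l8603, l480, l3509, l2834, l8235, l4209, l481, l7707, o3464, l5925, l4208, l2477, l4260, l10760, l10889] l10997 := rupP (by decide +kernel)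
theorem r10998 : PImp [l10395, l4208, l4204, o694, l10592, l8921, o5243, o5247, o5262, l2379, l736, l8341, o1465, l2473, l2494, l2450, l673, l1104, o8229, l8399, l10643, o7899] l10998 := rupP (by decide +kernel)
theorem r10999 : PImp [l3075, l6290, o3906, l4070, l3311] l10999 := rupP (by decide +kernel)
theorem r11000 : PImp [l10394, l10393, l10395, l3119, l8603, l5925, l4129, l2808, o5514, l10818, l3336, l4130, l3115, l8893, o9106, o5812, o5511, o5345, l480, l3509, l4663, l2834, l8235, l4209, l5238, l2658, l2657, l3933, l8721, o5017, l10974, l7703, l4969, l4968, l481, l7707, l3473, o3464, l2668, l2991, l2989, l2992, l1209, l1210, l422, l328, l4610, o2924, o3749, o6768, l10996, o26, l10995, l4896, l10454, l10987, o3434, o3436, o3438, l10998, l10997, l10977, o853, l10999, o2525, l8799, l9390, l10973, l3256, l3268, o3937, l7053, l6288, o3906] l11000 := rupP (by decide +kernel)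
theorem r11001 : PImp [l3933, l10452, l4583, l3931, l2452, l2448, l5872, l10971] l11001 := rupP (by decide +kernel)
theorem r11002 : PImp [l10021, l10934, o8099] l11002 := rupP (by decide +kernel)
theorem r11003 : PImp [l10508, l10975, l3325, l2983, l2982, l2980, l4208, l4204, o694, o688, l11001, l2474, l2476, l2432, l10958, l11002, l1446, l10918, l2492, l10621, l3536, l3537, l10971] l11003 := rupP (by decide +kernel)
theorem r11004 : PImp [l2477, l4280, o699, l2269, l10452, l10981] l11004 := rupP (by decide +kernel)
theorem r11005 : PImp [l3933, l10452, l4583, l3931, l2452, l2448, o7694, l10971] l11005 := rupP (by decide +kernel)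
theorem r11006 : PImp [l3536, l3537, l10971] l11006 := rupP (by decide +kernel)
theorem r11007 : PImp [l4204, l1446, l11006, l3931, l10621, l2492] l11007 := rupP (by decide +kernel)
theorem r11008 : PImp [l2829, l2828, l2983, l2982, l2981, l2980, o5511, l4208, l1209, l1210, o3582, o3427, o9075, o8978, l10492, o5285, o5286, o5288, l11004, l11003, l11005, l11007, l10934, l2487] l11008 := rupP (by decide +kernel)
theorem r11009 : PImp [l10393, l4204, l2829, l2827, l2803, l7703, l2984, l2980, l2424, l498, l8721, o4906, l4969, l4968, l4125, l4201, l10590, o5280, o5276, o5275, l10829, l3536, l3537, l3595, l10959, l10929, l3235, l4301, o8767, l1510, l2309, l2450, l5872, o7708, l10643, l10930, l10493, l2831, l10976, l3583] l11009 := rupP (by decide +kernel)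
theorem r11010 : PImp [l10393, l10508, l2432, o694, l4204, l4896, l2984, l2982, l2980, l3933, l1210, l422, l1446, o4428, o4429, o5590, o4750, l10956, l10958, l2646, l2606, l2492, o8113, l10621, l3174, l3534, l3536, l3537, l4932, l10929, o4615, l10643, o5614, l10930, l10493, o3712, o3663, l10975, o7894, l3325, o2300, l10820, o8254, o8272] l11010 := rupP (by decide +kernel)
theorem r11011 : PImp [l10393, l4208, o688, o694, l4204, l2829, l2827, l2828, l7703, l2984, l2980, l498, l8721, o4906, l4969, l10508, l2424, l4968, l422, l11009, l2473, l2474, l2476, l11010, l3234, l3235, l10021, l10959, l10960, o4430, l4296] l11011 := rupP (by decide +kernel)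
theorem r11012 : PImp [l10454, l328, l10977, l10999, l8799] l11012 := rupP (by decide +kernel)
theorem r11013 : PImp [l10393, l2583, l7703, l328, o2924, l2711, l10974, l1210, l11012, l4233, l10801, l4086, l10803, l10640, l7827, l3308] l11013 := rupP (by decide +kernel)
theorem r11014 : PImp [l2477, l4280, o726, o699, l2269, l10590, o5271, o5280, o5275, l11004, l10981, l10411] l11014 := rupP (by decide +kernel)
theorem r11015 : PImp [l10393, l4208, l4129, o5512, o5514, o5511, l7703, l2980, l2981, l2803, l11014, l2658, l498, l8721, o5017, o4906, l4969, l4968, l499, o4909, o4893, l10528, l11013, l11011] l11015 := rupP (by decide +kernel)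
theorem r11016 : PImp [l1510, l3931, l5872, l11006] l11016 := rupP (by decide +kernel)
theorem r11017 : PImp [l4204, l7703, l2984, l2982, l2980, l4209, l4125, l2567, l4201, l10590, o5271, o5284, o5275, o5717, l11016, l3234, l3235, l2564, l9992, l10954, l10959, l4272, l2606, o3649, o8254] l11017 := rupP (by decide +kernel)
theorem r11018 : PImp [l1446, l11007, o4428] l11018 := rupP (by decide +kernel)
theorem r11019 : PImp [o694, l4204, l2473, l11018, l3234, l3235, l10021, l10959, l10960, o4430, l4296] l11019 := rupP (by decide +kernel)
theorem r11020 : PImp [l1510, l3931, o7694, l11006] l11020 := rupP (by decide +kernel)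
theorem r11021 : PImp [l10393, l3442, l4208, l4129, o5512, o5514, o5511, l7703, l2980, l2981, l2803, l11014, l4204, l2829, l2827, l2828, l2984, l2982, l2568, l2571, l2711, l2713, l3336, l4130, l3115, l8893, o9106, o5812, o5345, l498, l8721, o4906, l4969, l10508, l2424, l4209, l4968, l5035, l3000, l4841, l4838, l1210, l422, l3423, l499, l11008, o3749, o8778, l11015, l11019, l4125, l2567, l11017, l10590, o5284, o5717, l11020, l3234, l3235, l2564, l9992, l10959, l4264, l2606, o3649, o8254] l11021 := rupP (by decide +kernel)
theorem r11022 : PImp [l2711, l3933, l4968, l10689, l10695] l11022 := rupP (by decide +kernel)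
theorem r11023 : PImp [l2711, l4968, l1209, l1210, l5034, l4233, l10801, l4086, l10807, l10756, l3282, l1073, l3089, l11022, l10734, l4942, o6034, o4263, o3947, o4035, l8986, l3986, l5713, l3320] l11023 := rupP (by decide +kernel)
theorem r11024 : PImp [l1209, l4969, l10492, l2982, l2980, l4968, l2567, l10452, l8007, l1510, l2608, l5872, l11023, l10995, o25, l10994, l10731, o905, l10796, l3274, o2616, o8022, o6288] l11024 := rupP (by decide +kernel)
theorem r11025 : PImp [l5042, l2473, l5162, l3228, l10959, l10960, l4296] l11025 := rupP (by decide +kernel)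
theorem r11026 : PImp [l7703, l1209, l1210, l2996, l5035, l5034, l4117, l4118, l10801, l4086, l10756, l3089, l7856, o2442, l3759, l7692, l10698, l4942, o4263, l8986, l4055, o3946, o3952, o4036, l3992, l3986, l3282, l3320, l5713] l11026 := rupP (by decide +kernel)
theorem r11027 : PImp [l10394, l10393, l2571, l2711, l2604, l2713, l3336, l4130, l3115, o5512, l4593, l8893, o9106, o5812, o5511, o5345, l4663, l4209, l3933, o5514, l4779, l4767, l4189, l498, l8721, o5017, l5035, l7703, l3000, l4838, l10974, o4906, l4969, l4968, l499, o4909, l4841, l4129, l4208, l1209, l1210, l3442, l3423, l2980, l2981, l2982, l2984, l2803, l2827, l2829, l11014, l4204, o694, l11021, l6049, o3582, o3427, o9075, o8978, l10492, o5285, o5287, l11025, l2567, l10452, l11024, l8007, l1510, l2608, o7694, l11026, l10977, l10994] l11027 := rupP (by decide +kernel)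
theorem r11028 : PImp [l10393, l2658, l2657, l3933, l5925, l4208, l8603, l4204, o694, l10998, l10592, o5243, o5247, o5246, o5262, l8341, l2473, l2474, l10408, l2494, l2450, l2452, l2448, l673, l616, l1104, o8229, l8399, l10643, o7899] l11028 := rupP (by decide +kernel)
theorem r11029 : PImp [o7694, l1705] l11029 := rupP (by decide +kernel)
theorem r11030 : PImp [l10393, l4209, l3933, l2657, l2658, o3434, o3435, l5925, l2477, l4208, o699, o695, l480, l8603, l8235, l3509, l2834, l10760, l10764, l4260, l4280, o3439, o3438, o3437, o3436, l481, l7707, o3464, l2668, l10997, l10762, l4888, o4428, o4429, o5590, l7987, l10902, o2712, l8171] l11030 := rupP (by decide +kernel)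
theorem r11031 : PImp [l7987, l11029, o4441] l11031 := rupP (by decide +kernel)
theorem r11032 : PImp [l10393, l3933, l2657, l2658, o699, o695, l10764, o690, o4428, o4429, o5590, l10750, l10902, l4888, l8171] l11032 := rupP (by decide +kernel)
theorem r11033 : PImp [l10393, l10394, l8603, l480, l3509, l4663, l2834, l8235, l4209, l2658, l2657, l3933, l10974, l481, l7707, o3464, l5925, l2668, l4208, o3434, o3435, o3436, o3437, o3438, o3439, l11028, l2477, l4280, o699, o695, l10760, l10764, l11030, l11031, o2712, l11032, o6657, l3930, l2469, l4475, o4442] l11033 := rupP (by decide +kernel)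
theorem r11034 : PImp [l10393, l3423, l3442, l422, l7703, l1210, l1209, l2992, l5035, l3000, l498, l8721, l4838, l499, o4909, o4906, l4968, o5017, o5512, l4189, l4593, o5514, l4767, l4779, l3119, l8603, l5925, l4129, l2808, l10818, l3115, l480, l2988, l4969, l8260, l3336, l4130, l8893, o9106, o5358, o5511, o5345, o5812, l11033, l3509, l2834, l8235, l5238, o4893, l4841, l481, l7707, l3473, o3464, l2668, l2991, l2615, l11000, l11027] l11034 := rupP (by decide +kernel)
theorem r11035 : PImp [l4084, l2539, o9107, o3582] l11035 := rupP (by decide +kernel)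
theorem r11036 : PImp [l7703, l2603, l11035, o6801, l2596, l3003] l11036 := rupP (by decide +kernel)
theorem r11037 : PImp [l4610, o6342, o2924] l11037 := rupP (by decide +kernel)
theorem r11038 : PImp [l10975, l3327, o1429, l5102, l3104, l5173, l8315, l10499, o5516, o5579, l2978, l4478, l4179, o7428, l1436] l11038 := rupP (by decide +kernel)
theorem r11039 : PImp [l1209, l10994, l10731, l3308, l10796, l4518, l4521] l11039 := rupP (by decide +kernel)
theorem r11040 : PImp [l7703, l328, o5017, l11037, o5514, l4767, l10508, l2424, l3933, l4779, o5512, l4593, l4189, l5035, l3000, l4841, l4838, l3344, l11038, l11039, l10771, l10772] l11040 := rupP (by decide +kernel)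
theorem r11041 : PImp [l10395, o26, l10977, o853, l10999, l10973, l3089, o2525, o2442, o3943, o3947, l9390, l706, l3268, l3992, l728, l4703] l11041 := rupP (by decide +kernel)
theorem r11042 : PImp [l10393, l2713, l3933, l10974, l7703, l1209, l1210, l2993, l5035, l4896, l10454, o4819, l11041, l4115, l10801, l4086, l10771, l3770, l10751, l7855] l11042 := rupP (by decide +kernel)
theorem r11043 : PImp [l10393, l7703, l328, o5017, l3927, l1210, o5512, l4593, o5514, l4779, l2713, l11036, l2615, l11037, l2571, l3334, o1606, l3933, l4767, l4189, l5035, l3000, l4838, l10974, l4841, l2659, l4183, l1209, l3117, o9075, o8978, o8525, l11040, l11042, l11039, l10801, l4086, l10771, l10751, l7856] l11043 := rupP (by decide +kernel)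
theorem r11044 : PImp [l3327, o1429, l5102, l3104, l5173, l8315, l10499, l2609, o5516, o5579, l2978, l4478, l4179, o7428, o3641, o7600, o7571] l11044 := rupP (by decide +kernel)
theorem r11045 : PImp [l10393, l11044, o1419, l10821, l10975, l10548, l2500, l10550, l2826, o7578, o8811] l11045 := rupP (by decide +kernel)
theorem r11046 : PImp [l10974, l7703, l1210, l5035, l11012, l4117, l10801, l4086, l10816, l8742, l10640, l5068] l11046 := rupP (by decide +kernel)
theorem r11047 : PImp [l10394, l10393, l498, l8721, o5017, l5035, l7703, l3000, l4838, l10915, l10974, o4906, l4969, l4968, l499, o4909, l4841, l2808, l481, l10396, l480, l8603, l7707, l3473, o3556, l5925, l2668, l4129, l2660, l2991, l2989, l2988, l2992, l10406, l1209, l1210, l3344, l3927, l3442, l3423, l2995, l328, l3119, l3115, o5512, o5514, o5511, l4189, l4593, l4767, l4779, l10818, l8260, l3933, l3334, l3336, l5238, l4130, l8235, l3509, l10508, l8893, l4663, l2424, l2430, o9106, o5345, o5812, l10970, l2713, l11036, l2615, o1606, l11034, l11037, l2571, l2431, l11043, l2707, o3239, l6049, l2583, l4896, l10454, l11045, l11046, l11041,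 l4117, l4233, l10801, l4086, l10816, l10640, l7827, l3308] l11047 := rupP (by decide +kernel)
theorem r11048 : PImp [l7703, l328, l2615, l10914, l2557, l9109, l8384, l5741, l4084, o6382, l8905] l11048 := rupP (by decide +kernel)
theorem r11049 : PImp [l7971, l8634] l11049 := rupP (by decide +kernel)
theorem r11050 : PImp [l2557, l10633] l11050 := rupP (by decide +kernel)
theorem r11051 : PImp [l10393, l5035, l7703, l3000, l498, l8721, l4841, l4838, o4906, l481, l10396, l480, l8603, l7707, l3473, l1209, l1210, l3927, o5017, l11047, l11048, l2603, l11050, l10167, l5519] l11051 := rupP (by decide +kernel)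
theorem r11052 : PImp [l4084, l7976] l11052 := rupP (by decide +kernel)
theorem r11053 : PImp [o5826, l3442, l2615, l10908, l2557, l11052, l2571, l2602, o9108, l2544] l11053 := rupP (by decide +kernel)
theorem r11054 : PImp [l2557, l9221, l2571, l9953, l5552, l2544, l2592, o9090] l11054 := rupP (by decide +kernel)
theorem r11055 : PImp [l10393, l498, l10396, l5925, l8603, l10406, l7703, l1210, l3927, l328, l8721, o4906, l4968, l10915, l11051, o5826, l11053, l2603, l11054, l2713, l10910, l10911, l2571, l10912, o2924, l2588, l6294] l11055 := rupP (by decide +kernel)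
theorem r11056 : PImp [l10395, l11004, o694, o714, l8322, l9817, o1538, o1536, l10664, l2379, l2314, l8001, l7352, o4736] l11056 := rupP (by decide +kernel)
theorem r11057 : PImp [l1209, o3427, l10492, l2829, l2983, l2982, l2981, l2980, l2711, l4208, l1210, l11056, l10484, l5040, l2475, l2477, l5118, l11002, o7717, l3931, l2452, l2448, l4949, o4610, o4734, l10539] l11057 := rupP (by decide +kernel)
theorem r11058 : PImp [l10393, l10395, l8603, l5925, l2531, l480, l3509, l2834, l8235, l4209, l5238, l7190, l4602, l2708, l4082, l481, l7707, l3473, l2668, l2992, l1209, l1210, l422, l10936, l2828, l2827, l2829, o3427, l10492, o5285, o5286, o5287, o5288, o5290, l11057, l8020, l10939, l2484] l11058 := rupP (by decide +kernel)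
theorem r11059 : PImp [l10492, l2711, l4209, l4204, o694, o714, l10535, l9817, l5118, l11002, o7717, l2608, o1538, o1536, l4949, o4610, o4734, l10539] l11059 := rupP (by decide +kernel)
theorem r11060 : PImp [l2711, l2834, l4209, l7190, l4602, l4082, l4208, l1209, l1210, l2980, l2981, l2982, l2983, l2828, l2827, l2829, o3427, l10492, o5285, o5286, o5287, o5288, l11056, l11059, l2477, l4280, o699, l2269, l10438] l11060 := rupP (by decide +kernel)
theorem r11061 : PImp [l2858, l9048, l3598] l11061 := rupP (by decide +kernel)
theorem r11062 : PImp [l11061, l3931, l2650, l2653, l4580, l5893, o8179, o8264, o4736, l8921, o8181, l2314] l11062 := rupP (by decide +kernel)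
theorem r11063 : PImp [l2607, o1602, o1537, o1536, l3616, l617, l3109, o2273, o8229, l8399, o5701, o7901] l11063 := rupP (by decide +kernel)
theorem r11064 : PImp [l4950, l4947] l11064 := rupP (by decide +kernel)
theorem r11065 : PImp [l2650, l2652, l2653, o8179, o8264, o8266, o8181, o2273] l11065 := rupP (by decide +kernel)
theorem r11066 : PImp [l11065, l3536, l3537, o8229, l10664, o2269] l11066 := rupP (by decide +kernel)
theorem r11067 : PImp [l4208, l2658, l2327, l2615, l2711, l2657, l4204, o694, o688, o714, l10543, l10592, o5285, o5286, o5287, l2293, o5632, l11062, l5042, l2474, l2476, l2479, l2480, l10468, l3107, l11063, l9817, o2974, l11066, o5704, o4739, o7849, o7902, l4956, l3331] l11067 := rupP (by decide +kernel)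
theorem r11068 : PImp [l465, l10416, l2469, l2646, l5893, l10524] l11068 := rupP (by decide +kernel)
theorem r11069 : PImp [l10395, l10393, l4208, l2658, l2327, l3509, l2834, l7703, l1412, l4967, l4209, l2657, o8770, l2531, l8235, l2615, l7190, l4602, l2708, l4082, l3008, l430, l4971, l4970, l4966, l2992, l4183, l1209, l1210, l11060, o3434, o3435, o3436, o3437, o3438, o3439, o3531, o3532, l11067, l2477, o695, l2269, o690, l11068, o4441, o5252, o5248, o5249, o5243, o5272, l10545] l11069 := rupP (by decide +kernel)
theorem r11070 : PImp [l7190, l4602, l1209, l1210, l2828, l2827, l2829, o3427, l10492, l8020, o5285, o5286, o5287, o5290, l2484, l10939] l11070 := rupP (by decide +kernel)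
theorem r11071 : PImp [l2269, o699, o691, l2658, l2657, l465, l10447, l2469, l2646, l5893, l10530, l10526] l11071 := rupP (by decide +kernel)
theorem r11072 : PImp [l10393, l10394, l10395, l2615, l7190, l4602, l2708, l4082, o5511, o5512, l5035, l4834, o5017, l7703, l3008, l1412, l430, l4971, l4970, l4967, l4966, l481, l480, l8603, l7707, o3564, o3563, l3473, o3464, l5925, l2668, l4129, l4208, l2992, l1209, l1210, l3119, l3118, l5238, l4209, l4132, l8235, l3509, o8801, l2834, o4935, o4939, o8506, o9086, o8504, o5349, o5344, o5371, o5811, o5761, l2260, o5768, l3532, l2531, o5753, o5807, l4563, l2657, l2658, o8770, l2327, l11058, o6700, l11069, l11070, o3434, o3435, o3436, o3437, o3438, o3439, o3531, o3532, l11067, l2477, o695, l2269, o690, l11071, o4441, o5252, o5248, o5249, o5243, o5272, l10545] l11072 := rupP (by decide +kernel)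
theorem r11073 : PImp [l10393, l3118, l3117, l4181, l8259, o8817, o5810, o8526, o8525] l11073 := rupP (by decide +kernel)
theorem r11074 : PImp [l4204, o694, o714, l9432, o5285, l9817, l2606, l2608, o1538, o1536, l2467, o7694, l4949, o4734, o4610, l10539] l11074 := rupP (by decide +kernel)
theorem r11075 : PImp [l2450, l2452, o8129, o8040, o2283] l11075 := rupP (by decide +kernel)
theorem r11076 : PImp [l464, l10452, l10566] l11076 := rupP (by decide +kernel)
theorem r11077 : PImp [l5667, o7694, o4750, o4736, l11075] l11077 := rupP (by decide +kernel)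
theorem r11078 : PImp [l2982, l2981, l2980, l2711, l3008, l430, l4971, l4967, l4208, l4201, l11074, l4280, l2269, l11077, l11076, o4442, l4470, l3233] l11078 := rupP (by decide +kernel)
theorem r11079 : PImp [l2829, l2827, l2981, l2980, l4082, l2711, l3008, l430, l4971, l4967, l4966, l1209, l1210, l11078, l5042, l2484, l2473, l2474, l2475, l2476, l2477, l9432, l9817, o5286, l2606, l2607, o1538, o1536, l10538, o7717, l4957, o4734, o4606, l10539] l11079 := rupP (by decide +kernel)
theorem r11080 : PImp [l9983, l9432] l11080 := rupP (by decide +kernel)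
theorem r11081 : PImp [l2981, l2980, l4201, l11077, l11076, o4442, l4470, l3233] l11081 := rupP (by decide +kernel)
theorem r11082 : PImp [l7190, l4602, l4082, l3008, l430, l4971, l4967, l4966, l1209, l1210, l2827, l2829, o3427, l11079, l11080, l4081, o716, l11081, l2484] l11082 := rupP (by decide +kernel)
theorem r11083 : PImp [l10393, l10395, l10394, o3439, o3438, o3437, o3436, o3435, o3434, l8603, l5925, l2531, l3532, l481, l480, l7707, o3464, l2668, l4208, l11028, l2477, o727, o695, l2269, o690, l10854, l11071, o5679, o5681, o5683, o5682, o5718, o5590, l10544, l2385, l2382, l2463, o7966, l2393, o1498, o7921] l11083 := rupP (by decide +kernel)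
theorem r11084 : PImp [l2327, l4204, o694, o688, l10543, l10592, o5285, o5287, l2293, l11062] l11084 := rupP (by decide +kernel)

end Pool.Agent.BDD.A
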