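import Pool.Agent.BDD.AR0
import Pool.Agent.BDD.AR1
import Pool.Agent.BDD.AR2
import Pool.Agent.BDD.AO0
import Pool.Agent.BDD.AO1
import Pool.Agent.BDD.AO2
import Pool.Agent.BDD.AO3
import Pool.Agent.BDD.AO4
import Pool.Agent.BDD.AO5
import Pool.Agent.BDD.AO6
import Pool.Agent.BDD.AO7

set_option autoImplicit false
set_option linter.all false

namespace Pool.Agent.BDD.A

theorem v0 : PV l0 := r0 w9179 w394
theorem v1 : PV l1 := r1 w9180 w1197
theorem v2 : PV l2 := r2 w9181 w2018
theorem v3 : PV l3 := r3 w9182 w3291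
theorem v4 : PV l4 := r4 w9183 w5108
theorem v5 : PV l5 := r5 w9183 w9179 w9180 w9181 w9182 w7029
theorem v6 : PV l6 := r6 w9183 w9179 w9180 w9181 w9182 w7395
theorem v7 : PV l7 := r7 w1832 w9188
theorem v8 : PV l8 := r8 w9181 w9189 w1831
theorem v9 : PV l9 := r9 v8 v7
theorem v10 : PV l10 := r10 v8 w9188
theorem v11 : PV l11 := r11 v10 w9181 w1827
theorem v12 : PV l12 := r12 v10 w9181 w1828
theorem v13 : PV l13 := r13 v10 w9181 w1829
theorem v14 : PV l14 := r14 v10 v2 w1830
theorem v15 : PV l15 := r15 v10 v8 w1774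
theorem v16 : PV l16 := r16 v10 v8 w1775
theorem v17 : PV l17 := r17 v10 v8 w1776
theorem v18 : PV l18 := r18 v6 w7688 w8307
theorem v19 : PV l19 := r19 v5 w7672 w8291
theorem v20 : PV l20 := r20 w8969 w8947
theorem v21 : PV l21 := r21 v5 w7671 w9161
theorem v22 : PV l22 := r22 v5 w7668 w8845
theorem v23 : PV l23 := r23 w8717 w8698
theorem v24 : PV l24 := r24 w8510 w8468
theorem v25 : PV l25 := r25 w7866 w7822
theorem v26 : PV l26 := r26 w7997 w8040
theorem v27 : PV l27 := r27 v6 w8307 w7711
theorem v28 : PV l28 := r28 v5 w7669 w8812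
theorem v29 : PV l29 := r29 w2239 w2254
theorem v30 : PV l30 := r30 w2241 w2251
theorem v31 : PV l31 := r31 v29 v30 w2247 w2248
theorem v32 : PV l32 := r32 w3660 w3657
theorem v33 : PV l33 := r33 w8625 w8681
theorem v34 : PV l34 := r34 v5 w8311 w8351
theorem v35 : PV l35 := r35 v34 w8324 w8376
theorem v36 : PV l36 := r36 w8400 w8420
theorem v37 : PV l37 := r37 w8442 w8182
theorem v38 : PV l38 := r38 w8397 w8417
theorem v39 : PV l39 := r39 w1550 w1558
theorem v40 : PV l40 := r40 v37 w8205 w8231
theorem v41 : PV l41 := r41 v5 w7996 w7668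
theorem v42 : PV l42 := r42 w8018 w8539
theorem v43 : PV l43 := r43 v5 w7750 w7670
theorem v44 : PV l44 := r44 w8066 w7731
theorem v45 : PV l45 := r45 w1446 w1444
theorem v46 : PV l46 := r46 w7607 w7614
theorem v47 : PV l47 := r47 v5 w7400 w7404
theorem v48 : PV l48 := r48 w7459 w7482
theorem v49 : PV l49 := r49 v48 w7466 w7495
theorem v50 : PV l50 := r50 w7686 w8571
theorem v51 : PV l51 := r51 w7725 w7805
theorem v52 : PV l52 := r52 v5 w7417 w7400
theorem v53 : PV l53 := r53 v5 w7399 w7458
theorem v54 : PV l54 := r54 w7984 w7963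
theorem v55 : PV l55 := r55 w8205 w8288
theorem v56 : PV l56 := r56 v6 v55 w8303 w8391
theorem v57 : PV l57 := r57 w8539 w8148
theorem v58 : PV l58 := r58 w7769 w7748
theorem v59 : PV l59 := r59 v6 w8302 w8392
theorem v60 : PV l60 := r60 w9179 w190
theorem v61 : PV l61 := r61 w9179 w192
theorem v62 : PV l62 := r62 v0 w193
theorem v63 : PV l63 := r63 w9179 w194
theorem v64 : PV l64 := r64 w9179 w195
theorem v65 : PV l65 := r65 w9179 w395
theorem v66 : PV l66 := r66 w9179 w396
theorem v67 : PV l67 := r67 w9179 w397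
theorem v68 : PV l68 := r68 w9179 w398
theorem v69 : PV l69 := r69 w9179 w399
theorem v70 : PV l70 := r70 v0 w400
theorem v71 : PV l71 := r71 w9179 w401
theorem v72 : PV l72 := r72 w9179 w402
theorem v73 : PV l73 := r73 w9179 w403
theorem v74 : PV l74 := r74 w9179 w404
theorem v75 : PV l75 := r75 v0 w407
theorem v76 : PV l76 := r76 w9179 w413
theorem v77 : PV l77 := r77 w9179 w414
theorem v78 : PV l78 := r78 v0 w415
theorem v79 : PV l79 := r79 w9179 w416
theorem v80 : PV l80 := r80 w9179 w418
theorem v81 : PV l81 := r81 v0 w419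
theorem v82 : PV l82 := r82 w9179 w422
theorem v83 : PV l83 := r83 w9179 w423
theorem v84 : PV l84 := r84 w9179 w424
theorem v85 : PV l85 := r85 w9179 w425
theorem v86 : PV l86 := r86 v0 w426
theorem v87 : PV l87 := r87 w9179 w427
theorem v88 : PV l88 := r88 v0 w428
theorem v89 : PV l89 := r89 w9179 w431
theorem v90 : PV l90 := r90 w9179 w432
theorem v91 : PV l91 := r91 w9179 w435
theorem v92 : PV l92 := r92 w9179 w436
theorem v93 : PV l93 := r93 w9179 w437
theorem v94 : PV l94 := r94 w9179 w438
theorem v95 : PV l95 := r95 w9180 w1009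
theorem v96 : PV l96 := r96 w9180 w1010
theorem v97 : PV l97 := r97 w9180 w1011
theorem v98 : PV l98 := r98 w9180 w1013
theorem v99 : PV l99 := r99 w9180 w1014
theorem v100 : PV l100 := r100 w9180 w1198
theorem v101 : PV l101 := r101 w9180 w1199
theorem v102 : PV l102 := r102 w9180 w1200
theorem v103 : PV l103 := r103 w9180 w1201
theorem v104 : PV l104 := r104 w9180 w1202
theorem v105 : PV l105 := r105 w9180 w1203
theorem v106 : PV l106 := r106 w9180 w1204
theorem v107 : PV l107 := r107 w9180 w1205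
theorem v108 : PV l108 := r108 w9180 w1206
theorem v109 : PV l109 := r109 w9180 w1211
theorem v110 : PV l110 := r110 w9180 w1213
theorem v111 : PV l111 := r111 w9180 w1214
theorem v112 : PV l112 := r112 v1 w1215
theorem v113 : PV l113 := r113 w9180 w1216
theorem v114 : PV l114 := r114 v1 w1217
theorem v115 : PV l115 := r115 w9180 w1218
theorem v116 : PV l116 := r116 w9180 w1219
theorem v117 : PV l117 := r117 v1 w1220
theorem v118 : PV l118 := r118 v17 w1617
theorem v119 : PV l119 := r119 v17 w1618
theorem v120 : PV l120 := r120 v17 w1619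
theorem v121 : PV l121 := r121 v15 w1620
theorem v122 : PV l122 := r122 v16 w1621
theorem v123 : PV l123 := r123 v17 w1622
theorem v124 : PV l124 := r124 v17 w1623
theorem v125 : PV l125 := r125 v16 w1624
theorem v126 : PV l126 := r126 v15 w1625
theorem v127 : PV l127 := r127 v17 w1626
theorem v128 : PV l128 := r128 v15 w1627
theorem v129 : PV l129 := r129 v10 w1630
theorem v130 : PV l130 := r130 v10 w1631
theorem v131 : PV l131 := r131 v10 w1632
theorem v132 : PV l132 := r132 v10 w1633
theorem v133 : PV l133 := r133 v14 w1634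
theorem v134 : PV l134 := r134 v10 w1635
theorem v135 : PV l135 := r135 v14 w1636
theorem v136 : PV l136 := r136 v13 w1637
theorem v137 : PV l137 := r137 v10 w1638
theorem v138 : PV l138 := r138 v8 w1672
theorem v139 : PV l139 := r139 v8 w1673
theorem v140 : PV l140 := r140 v8 w1674
theorem v141 : PV l141 := r141 v8 w1675
theorem v142 : PV l142 := r142 v8 w1676
theorem v143 : PV l143 := r143 v8 w1677
theorem v144 : PV l144 := r144 v17 w1769
theorem v145 : PV l145 := r145 v15 w1770
theorem v146 : PV l146 := r146 v15 w1771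
theorem v147 : PV l147 := r147 v17 w1772
theorem v148 : PV l148 := r148 v15 w1773
theorem v149 : PV l149 := r149 v17 w1777
theorem v150 : PV l150 := r150 v17 w1778
theorem v151 : PV l151 := r151 v15 w1779
theorem v152 : PV l152 := r152 v15 w1780
theorem v153 : PV l153 := r153 v17 w1781
theorem v154 : PV l154 := r154 v15 w1782
theorem v155 : PV l155 := r155 v17 w1783
theorem v156 : PV l156 := r156 v17 w1784
theorem v157 : PV l157 := r157 v15 w1785
theorem v158 : PV l158 := r158 v15 w1786
theorem v159 : PV l159 := r159 v17 w1787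
theorem v160 : PV l160 := r160 v15 w1788
theorem v161 : PV l161 := r161 v17 w1789
theorem v162 : PV l162 := r162 v17 w1790
theorem v163 : PV l163 := r163 v15 w1791
theorem v164 : PV l164 := r164 v15 w1792
theorem v165 : PV l165 := r165 v17 w1793
theorem v166 : PV l166 := r166 v15 w1794
theorem v167 : PV l167 := r167 v17 w1795
theorem v168 : PV l168 := r168 v17 w1796
theorem v169 : PV l169 := r169 v17 w1797
theorem v170 : PV l170 := r170 v17 w1798
theorem v171 : PV l171 := r171 v17 w1799
theorem v172 : PV l172 := r172 v16 w1800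
theorem v173 : PV l173 := r173 v17 w1801
theorem v174 : PV l174 := r174 v15 w1802
theorem v175 : PV l175 := r175 v15 w1803
theorem v176 : PV l176 := r176 v15 w1804
theorem v177 : PV l177 := r177 v17 w1805
theorem v178 : PV l178 := r178 v15 w1806
theorem v179 : PV l179 := r179 v8 w1809
theorem v180 : PV l180 := r180 v8 w1810
theorem v181 : PV l181 := r181 v8 w1811
theorem v182 : PV l182 := r182 v8 w1812
theorem v183 : PV l183 := r183 v8 w1813
theorem v184 : PV l184 := r184 v8 w1814
theorem v185 : PV l185 := r185 v11 w1818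
theorem v186 : PV l186 := r186 v14 w1819
theorem v187 : PV l187 := r187 v14 w1820
theorem v188 : PV l188 := r188 v11 w1821
theorem v189 : PV l189 := r189 v14 w1822
theorem v190 : PV l190 := r190 v14 w1823
theorem v191 : PV l191 := r191 v11 w1824
theorem v192 : PV l192 := r192 v14 w1825
theorem v193 : PV l193 := r193 v14 w1826
theorem v194 : PV l194 := r194 v11 w1833
theorem v195 : PV l195 := r195 v14 w1834
theorem v196 : PV l196 := r196 v14 w1835
theorem v197 : PV l197 := r197 v11 w1836
theorem v198 : PV l198 := r198 v10 w1837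
theorem v199 : PV l199 := r199 v10 w1838
theorem v200 : PV l200 := r200 v14 w1839
theorem v201 : PV l201 := r201 v14 w1840
theorem v202 : PV l202 := r202 v11 w1841
theorem v203 : PV l203 := r203 v10 w1842
theorem v204 : PV l204 := r204 v14 w1843
theorem v205 : PV l205 := r205 v14 w1844
theorem v206 : PV l206 := r206 v11 w1845
theorem v207 : PV l207 := r207 v11 w1846
theorem v208 : PV l208 := r208 v11 w1847
theorem v209 : PV l209 := r209 v11 w1848
theorem v210 : PV l210 := r210 v14 w1849
theorem v211 : PV l211 := r211 v14 w1850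
theorem v212 : PV l212 := r212 v11 w1851
theorem v213 : PV l213 := r213 v10 w1852
theorem v214 : PV l214 := r214 v14 w1853
theorem v215 : PV l215 := r215 v14 w1854
theorem v216 : PV l216 := r216 v11 w1855
theorem v217 : PV l217 := r217 v10 w1856
theorem v218 : PV l218 := r218 v14 w1857
theorem v219 : PV l219 := r219 v14 w1858
theorem v220 : PV l220 := r220 v11 w1859
theorem v221 : PV l221 := r221 v11 w1860
theorem v222 : PV l222 := r222 v11 w1861
theorem v223 : PV l223 := r223 v14 w1862
theorem v224 : PV l224 := r224 v14 w1863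
theorem v225 : PV l225 := r225 v11 w1864
theorem v226 : PV l226 := r226 v14 w1865
theorem v227 : PV l227 := r227 v14 w1866
theorem v228 : PV l228 := r228 v11 w1867
theorem v229 : PV l229 := r229 v14 w1868
theorem v230 : PV l230 := r230 v14 w1869
theorem v231 : PV l231 := r231 v10 w1870
theorem v232 : PV l232 := r232 v11 w1871
theorem v233 : PV l233 := r233 v11 w1872
theorem v234 : PV l234 := r234 v11 w1873
theorem v235 : PV l235 := r235 v11 w1874
theorem v236 : PV l236 := r236 v12 w1875
theorem v237 : PV l237 := r237 v13 w1876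
theorem v238 : PV l238 := r238 v14 w1877
theorem v239 : PV l239 := r239 v14 w1878
theorem v240 : PV l240 := r240 v11 w1879
theorem v241 : PV l241 := r241 v10 w1880
theorem v242 : PV l242 := r242 v14 w1881
theorem v243 : PV l243 := r243 v14 w1882
theorem v244 : PV l244 := r244 v11 w1883
theorem v245 : PV l245 := r245 v10 w1884
theorem v246 : PV l246 := r246 v10 w1885
theorem v247 : PV l247 := r247 v14 w1886
theorem v248 : PV l248 := r248 v14 w1887
theorem v249 : PV l249 := r249 v10 w1888
theorem v250 : PV l250 := r250 v10 w1889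
theorem v251 : PV l251 := r251 v11 w1890
theorem v252 : PV l252 := r252 v8 w1891
theorem v253 : PV l253 := r253 v8 w1892
theorem v254 : PV l254 := r254 v8 w1893
theorem v255 : PV l255 := r255 v8 w1894
theorem v256 : PV l256 := r256 v8 w1895
theorem v257 : PV l257 := r257 v8 w1896
theorem v258 : PV l258 := r258 v8 w1897
theorem v259 : PV l259 := r259 v8 w1901
theorem v260 : PV l260 := r260 v8 w1902
theorem v261 : PV l261 := r261 v8 w1903
theorem v262 : PV l262 := r262 v8 w1904
theorem v263 : PV l263 := r263 v8 w1905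
theorem v264 : PV l264 := r264 v8 w1906
theorem v265 : PV l265 := r265 v8 w1915
theorem v266 : PV l266 := r266 v8 w1916
theorem v267 : PV l267 := r267 v8 w1917
theorem v268 : PV l268 := r268 v8 w1918
theorem v269 : PV l269 := r269 v8 w1919
theorem v270 : PV l270 := r270 v8 w1920
theorem v271 : PV l271 := r271 v8 w1944
theorem v272 : PV l272 := r272 v8 w1945
theorem v273 : PV l273 := r273 v8 w1946
theorem v274 : PV l274 := r274 v8 w1947
theorem v275 : PV l275 := r275 v8 w1948
theorem v276 : PV l276 := r276 v8 w1949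
theorem v277 : PV l277 := r277 v8 w1950
theorem v278 : PV l278 := r278 v8 w1951
theorem v279 : PV l279 := r279 v8 w1952
theorem v280 : PV l280 := r280 v8 w2015
theorem v281 : PV l281 := r281 w9181 w2019
theorem v282 : PV l282 := r282 w9181 w2020
theorem v283 : PV l283 := r283 w9181 w2021
theorem v284 : PV l284 := r284 w9181 w2022
theorem v285 : PV l285 := r285 w9181 w2023
theorem v286 : PV l286 := r286 w9181 w2024
theorem v287 : PV l287 := r287 w9181 w2025
theorem v288 : PV l288 := r288 w9181 w2026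
theorem v289 : PV l289 := r289 w9181 w2027
theorem v290 : PV l290 := r290 v9 w2028
theorem v291 : PV l291 := r291 v9 w2029
theorem v292 : PV l292 := r292 v9 w2030
theorem v293 : PV l293 := r293 v9 w2031
theorem v294 : PV l294 := r294 w9181 w2032
theorem v295 : PV l295 := r295 v2 w2033
theorem v296 : PV l296 := r296 w9181 w2034
theorem v297 : PV l297 := r297 w9181 w2035
theorem v298 : PV l298 := r298 w9181 w2036
theorem v299 : PV l299 := r299 w9181 w2037
theorem v300 : PV l300 := r300 v2 w2038
theorem v301 : PV l301 := r301 w9181 w2039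
theorem v302 : PV l302 := r302 w9181 w2040
theorem v303 : PV l303 := r303 v9 w2041
theorem v304 : PV l304 := r304 v9 w2042
theorem v305 : PV l305 := r305 v9 w2043
theorem v306 : PV l306 := r306 w9181 w2044
theorem v307 : PV l307 := r307 w9181 w2045
theorem v308 : PV l308 := r308 w9181 w2046
theorem v309 : PV l309 := r309 v2 w2047
theorem v310 : PV l310 := r310 w9181 w2048
theorem v311 : PV l311 := r311 v2 w2049
theorem v312 : PV l312 := r312 w9181 w2050
theorem v313 : PV l313 := r313 v9 w2051
theorem v314 : PV l314 := r314 v9 w2052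
theorem v315 : PV l315 := r315 v9 w2053
theorem v316 : PV l316 := r316 w9190 w2607
theorem v317 : PV l317 := r317 w9182 w2608
theorem v318 : PV l318 := r318 w9190 w2609
theorem v319 : PV l319 := r319 w9190 w2610
theorem v320 : PV l320 := r320 w9190 w2611
theorem v321 : PV l321 := r321 v3 w2612
theorem v322 : PV l322 := r322 w9190 w2613
theorem v323 : PV l323 := r323 w9182 w2614
theorem v324 : PV l324 := r324 w9190 w2615
theorem v325 : PV l325 := r325 w9190 w2819
theorem v326 : PV l326 := r326 w9182 w2820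
theorem v327 : PV l327 := r327 w9190 w2821
theorem v328 : PV l328 := r328 w9190 w2822
theorem v329 : PV l329 := r329 v3 w2823
theorem v330 : PV l330 := r330 w9190 w2824
theorem v331 : PV l331 := r331 w9182 w2825
theorem v332 : PV l332 := r332 w9182 w2826
theorem v333 : PV l333 := r333 v3 w2827
theorem v334 : PV l334 := r334 w9190 w2828
theorem v335 : PV l335 := r335 w9182 w2829
theorem v336 : PV l336 := r336 w9182 w2830
theorem v337 : PV l337 := r337 w9190 w2831
theorem v338 : PV l338 := r338 w9190 w2832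
theorem v339 : PV l339 := r339 w9190 w3244
theorem v340 : PV l340 := r340 w9182 w3245
theorem v341 : PV l341 := r341 w9190 w3246
theorem v342 : PV l342 := r342 w9190 w3247
theorem v343 : PV l343 := r343 w9190 w3248
theorem v344 : PV l344 := r344 v3 w3249
theorem v345 : PV l345 := r345 w9190 w3250
theorem v346 : PV l346 := r346 w9182 w3251
theorem v347 : PV l347 := r347 w9190 w3252
theorem v348 : PV l348 := r348 w9182 w3292
theorem v349 : PV l349 := r349 w9182 w3293
theorem v350 : PV l350 := r350 w9182 w3294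
theorem v351 : PV l351 := r351 w9182 w3295
theorem v352 : PV l352 := r352 w9182 w3296
theorem v353 : PV l353 := r353 v3 w3297
theorem v354 : PV l354 := r354 w9182 w3298
theorem v355 : PV l355 := r355 w9190 w3299
theorem v356 : PV l356 := r356 v3 w3300
theorem v357 : PV l357 := r357 w9190 w3301
theorem v358 : PV l358 := r358 w9190 w3302
theorem v359 : PV l359 := r359 w9190 w3303
theorem v360 : PV l360 := r360 w9182 w3304
theorem v361 : PV l361 := r361 w9182 w3305
theorem v362 : PV l362 := r362 w9182 w3306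
theorem v363 : PV l363 := r363 w9190 w3307
theorem v364 : PV l364 := r364 w9190 w3308
theorem v365 : PV l365 := r365 w9182 w3309
theorem v366 : PV l366 := r366 w9182 w3310
theorem v367 : PV l367 := r367 w9182 w3311
theorem v368 : PV l368 := r368 v3 w3312
theorem v369 : PV l369 := r369 w9182 w3313
theorem v370 : PV l370 := r370 w9190 w3314
theorem v371 : PV l371 := r371 w9190 w3315
theorem v372 : PV l372 := r372 w9190 w3316
theorem v373 : PV l373 := r373 w9190 w3317
theorem v374 : PV l374 := r374 w9190 w3318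
theorem v375 : PV l375 := r375 w9182 w3319
theorem v376 : PV l376 := r376 w9182 w3320
theorem v377 : PV l377 := r377 w9190 w3321
theorem v378 : PV l378 := r378 w9182 w3322
theorem v379 : PV l379 := r379 w9182 w3323
theorem v380 : PV l380 := r380 w9182 w3324
theorem v381 : PV l381 := r381 v3 w3325
theorem v382 : PV l382 := r382 w9182 w3326
theorem v383 : PV l383 := r383 w9190 w3327
theorem v384 : PV l384 := r384 w9190 w3328
theorem v385 : PV l385 := r385 v3 w3329
theorem v386 : PV l386 := r386 w9190 w3330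
theorem v387 : PV l387 := r387 w9190 w3331
theorem v388 : PV l388 := r388 w9190 w3332
theorem v389 : PV l389 := r389 w9182 w3333
theorem v390 : PV l390 := r390 w9182 w3334
theorem v391 : PV l391 := r391 w9182 w3335
theorem v392 : PV l392 := r392 w9190 w3336
theorem v393 : PV l393 := r393 w9182 w3337
theorem v394 : PV l394 := r394 w9182 w3338
theorem v395 : PV l395 := r395 w9182 w3339
theorem v396 : PV l396 := r396 w9182 w3340
theorem v397 : PV l397 := r397 v3 w3341
theorem v398 : PV l398 := r398 w9190 w3342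
theorem v399 : PV l399 := r399 v3 w3343
theorem v400 : PV l400 := r400 w9190 w3344
theorem v401 : PV l401 := r401 w9190 w3345
theorem v402 : PV l402 := r402 w9190 w3346
theorem v403 : PV l403 := r403 w9182 w3347
theorem v404 : PV l404 := r404 w9182 w3348
theorem v405 : PV l405 := r405 w9182 w3349
theorem v406 : PV l406 := r406 w9190 w3350
theorem v407 : PV l407 := r407 v4 w4101
theorem v408 : PV l408 := r408 w9183 w4103
theorem v409 : PV l409 := r409 v4 w4104
theorem v410 : PV l410 := r410 v4 w4106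
theorem v411 : PV l411 := r411 w9183 w4107
theorem v412 : PV l412 := r412 v4 w4108
theorem v413 : PV l413 := r413 w9183 w4110
theorem v414 : PV l414 := r414 w9183 w4111
theorem v415 : PV l415 := r415 v4 w4112
theorem v416 : PV l416 := r416 v4 w4114
theorem v417 : PV l417 := r417 v4 w4117
theorem v418 : PV l418 := r418 v4 w4388
theorem v419 : PV l419 := r419 w9183 w4390
theorem v420 : PV l420 := r420 w9183 w4391
theorem v421 : PV l421 := r421 v4 w4392
theorem v422 : PV l422 := r422 v4 w4394
theorem v423 : PV l423 := r423 w9183 w4396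
theorem v424 : PV l424 := r424 v4 w4397
theorem v425 : PV l425 := r425 v4 w4398
theorem v426 : PV l426 := r426 v4 w4400
theorem v427 : PV l427 := r427 w9183 w4402
theorem v428 : PV l428 := r428 w9183 w4403
theorem v429 : PV l429 := r429 v4 w4404
theorem v430 : PV l430 := r430 w9183 w4406
theorem v431 : PV l431 := r431 w9183 w4407
theorem v432 : PV l432 := r432 v4 w4408
theorem v433 : PV l433 := r433 v4 w4410
theorem v434 : PV l434 := r434 v4 w5023
theorem v435 : PV l435 := r435 v4 w5025
theorem v436 : PV l436 := r436 v4 w5027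
theorem v437 : PV l437 := r437 v4 w5031
theorem v438 : PV l438 := r438 w9183 w5033
theorem v439 : PV l439 := r439 v4 w5034
theorem v440 : PV l440 := r440 w9183 w5036
theorem v441 : PV l441 := r441 v4 w5037
theorem v442 : PV l442 := r442 v4 w5039
theorem v443 : PV l443 := r443 w9183 w5109
theorem v444 : PV l444 := r444 w9183 w5110
theorem v445 : PV l445 := r445 w9183 w5111
theorem v446 : PV l446 := r446 v4 w5112
theorem v447 : PV l447 := r447 v4 w5113
theorem v448 : PV l448 := r448 w9183 w5114
theorem v449 : PV l449 := r449 w9183 w5115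
theorem v450 : PV l450 := r450 w9183 w5116
theorem v451 : PV l451 := r451 v4 w5117
theorem v452 : PV l452 := r452 v4 w5118
theorem v453 : PV l453 := r453 v4 w5119
theorem v454 : PV l454 := r454 w9183 w5120
theorem v455 : PV l455 := r455 v4 w5122
theorem v456 : PV l456 := r456 v4 w5123
theorem v457 : PV l457 := r457 w9183 w5126
theorem v458 : PV l458 := r458 w9183 w5127
theorem v459 : PV l459 := r459 w9183 w5128
theorem v460 : PV l460 := r460 v4 w5129
theorem v461 : PV l461 := r461 w9183 w5133
theorem v462 : PV l462 := r462 w9183 w5134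
theorem v463 : PV l463 := r463 w9183 w5135
theorem v464 : PV l464 := r464 v4 w5136
theorem v465 : PV l465 := r465 v4 w5137
theorem v466 : PV l466 := r466 v4 w5138
theorem v467 : PV l467 := r467 v4 w5140
theorem v468 : PV l468 := r468 v4 w5143
theorem v469 : PV l469 := r469 w9183 w5145
theorem v470 : PV l470 := r470 w9183 w5146
theorem v471 : PV l471 := r471 w9183 w5147
theorem v472 : PV l472 := r472 v4 w5148
theorem v473 : PV l473 := r473 v4 w5149
theorem v474 : PV l474 := r474 w9183 w5150
theorem v475 : PV l475 := r475 w9183 w5151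
theorem v476 : PV l476 := r476 v4 w5152
theorem v477 : PV l477 := r477 v4 w5153
theorem v478 : PV l478 := r478 v4 w5154
theorem v479 : PV l479 := r479 w9183 w5155
theorem v480 : PV l480 := r480 v4 w5156
theorem v481 : PV l481 := r481 v4 w5157
theorem v482 : PV l482 := r482 w9183 w5161
theorem v483 : PV l483 := r483 v4 w5162
theorem v484 : PV l484 := r484 w9183 w5163
theorem v485 : PV l485 := r485 v4 w5164
theorem v486 : PV l486 := r486 w9183 w5171
theorem v487 : PV l487 := r487 w9183 w5172
theorem v488 : PV l488 := r488 w9183 w5173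
theorem v489 : PV l489 := r489 w9183 w5174
theorem v490 : PV l490 := r490 v4 w5175
theorem v491 : PV l491 := r491 v4 w5176
theorem v492 : PV l492 := r492 w9183 w5177
theorem v493 : PV l493 := r493 w9183 w5178
theorem v494 : PV l494 := r494 v4 w5179
theorem v495 : PV l495 := r495 v4 w5180
theorem v496 : PV l496 := r496 v4 w5181
theorem v497 : PV l497 := r497 w9183 w5182
theorem v498 : PV l498 := r498 v4 w5184
theorem v499 : PV l499 := r499 v4 w5185
theorem v500 : PV l500 := r500 w9183 w5189
theorem v501 : PV l501 := r501 v4 w5190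
theorem v502 : PV l502 := r502 w9183 w5191
theorem v503 : PV l503 := r503 v4 w5192
theorem v504 : PV l504 := r504 v5 w5844
theorem v505 : PV l505 := r505 v5 w5845
theorem v506 : PV l506 := r506 v5 w5846
theorem v507 : PV l507 := r507 v5 w5847
theorem v508 : PV l508 := r508 v5 w5848
theorem v509 : PV l509 := r509 v5 w5849
theorem v510 : PV l510 := r510 v5 w5850
theorem v511 : PV l511 := r511 v5 w5851
theorem v512 : PV l512 := r512 v5 w5852
theorem v513 : PV l513 := r513 v6 w6316
theorem v514 : PV l514 := r514 v6 w6317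
theorem v515 : PV l515 := r515 v6 w6318
theorem v516 : PV l516 := r516 v6 w6319
theorem v517 : PV l517 := r517 v6 w6320
theorem v518 : PV l518 := r518 v6 w6321
theorem v519 : PV l519 := r519 v6 w6322
theorem v520 : PV l520 := r520 v8 v5 w6323
theorem v521 : PV l521 := r521 v5 w6324
theorem v522 : PV l522 := r522 v5 w6325
theorem v523 : PV l523 := r523 v5 w6326
theorem v524 : PV l524 := r524 v15 w6344
theorem v525 : PV l525 := r525 v15 w6355
theorem v526 : PV l526 := r526 v10 w6356
theorem v527 : PV l527 := r527 v12 w6375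
theorem v528 : PV l528 := r528 v14 w6376
theorem v529 : PV l529 := r529 v17 w6386
theorem v530 : PV l530 := r530 v16 w6387
theorem v531 : PV l531 := r531 v16 w6394
theorem v532 : PV l532 := r532 v17 w6395
theorem v533 : PV l533 := r533 v8 w6398
theorem v534 : PV l534 := r534 v15 w6440
theorem v535 : PV l535 := r535 v15 w6460
theorem v536 : PV l536 := r536 v13 w6463
theorem v537 : PV l537 := r537 v10 w6464
theorem v538 : PV l538 := r538 v12 w6505
theorem v539 : PV l539 := r539 v14 w6506
theorem v540 : PV l540 := r540 v17 w6529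
theorem v541 : PV l541 := r541 v16 w6530
theorem v542 : PV l542 := r542 v11 w6531
theorem v543 : PV l543 := r543 v16 w6548
theorem v544 : PV l544 := r544 v17 w6549
theorem v545 : PV l545 := r545 v8 w6552
theorem v546 : PV l546 := r546 v15 w6590
theorem v547 : PV l547 := r547 v15 w6602
theorem v548 : PV l548 := r548 v10 w6603
theorem v549 : PV l549 := r549 v12 w6634
theorem v550 : PV l550 := r550 v14 w6635
theorem v551 : PV l551 := r551 v17 w6653
theorem v552 : PV l552 := r552 v16 w6654
theorem v553 : PV l553 := r553 v11 w6656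
theorem v554 : PV l554 := r554 v16 w6670
theorem v555 : PV l555 := r555 v17 w6671
theorem v556 : PV l556 := r556 v8 w6675
theorem v557 : PV l557 := r557 v15 w6717
theorem v558 : PV l558 := r558 v15 w6735
theorem v559 : PV l559 := r559 v13 w6736
theorem v560 : PV l560 := r560 v10 w6737
theorem v561 : PV l561 := r561 v12 w6780
theorem v562 : PV l562 := r562 v14 w6781
theorem v563 : PV l563 := r563 v6 w6803
theorem v564 : PV l564 := r564 v6 w6804
theorem v565 : PV l565 := r565 v5 w6805
theorem v566 : PV l566 := r566 v5 w6806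
theorem v567 : PV l567 := r567 v6 w7026
theorem v568 : PV l568 := r568 v6 w7027
theorem v569 : PV l569 := r569 v6 w7028
theorem v570 : PV l570 := r570 v5 w7030
theorem v571 : PV l571 := r571 v14 w7032
theorem v572 : PV l572 := r572 v12 w7033
theorem v573 : PV l573 := r573 v10 w7058
theorem v574 : PV l574 := r574 v13 w7059
theorem v575 : PV l575 := r575 w9190 v9 w7093
theorem v576 : PV l576 := r576 v8 w7104
theorem v577 : PV l577 := r577 v11 w7114
theorem v578 : PV l578 := r578 v14 w7125
theorem v579 : PV l579 := r579 v12 w7126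
theorem v580 : PV l580 := r580 v9 w9190 w7128
theorem v581 : PV l581 := r581 v10 w7154
theorem v582 : PV l582 := r582 v8 w7202
theorem v583 : PV l583 := r583 v11 w7213
theorem v584 : PV l584 := r584 v14 w7224
theorem v585 : PV l585 := r585 v12 w7225
theorem v586 : PV l586 := r586 v10 w7249
theorem v587 : PV l587 := r587 v13 w7250
theorem v588 : PV l588 := r588 v9 w9190 w7291
theorem v589 : PV l589 := r589 v8 w7302
theorem v590 : PV l590 := r590 v14 w7323
theorem v591 : PV l591 := r591 w9190 v9 w7325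
theorem v592 : PV l592 := r592 v13 w7343
theorem v593 : PV l593 := r593 v6 w7396
theorem v594 : PV l594 := r594 v5 w7397
theorem v595 : PV l595 := r595 v5 w7398
theorem v596 : PV l596 := r596 v5 w7400
theorem v597 : PV l597 := r597 v6 w7661
theorem v598 : PV l598 := r598 v5 w7662
theorem v599 : PV l599 := r599 v5 w7663
theorem v600 : PV l600 := r600 v5 w7664
theorem v601 : PV l601 := r601 v5 w7665
theorem v602 : PV l602 := r602 v5 w7666
theorem v603 : PV l603 := r603 v5 w7667
theorem v604 : PV l604 := r604 v5 w7669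
theorem v605 : PV l605 := r605 v5 w7671
theorem v606 : PV l606 := r606 v5 w7672
theorem v607 : PV l607 := r607 v6 w8292
theorem v608 : PV l608 := r608 v6 w8293
theorem v609 : PV l609 := r609 v6 w8294
theorem v610 : PV l610 := r610 v6 w8295
theorem v611 : PV l611 := r611 v6 w8296
theorem v612 : PV l612 := r612 v6 w8297
theorem v613 : PV l613 := r613 v6 w8298
theorem v614 : PV l614 := r614 v6 w8299
theorem v615 : PV l615 := r615 v6 w8300
theorem v616 : PV l616 := r616 v6 w8301
theorem v617 : PV l617 := r617 v6 w8302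
theorem v618 : PV l618 := r618 v6 w8303
theorem v619 : PV l619 := r619 v6 w8304
theorem v620 : PV l620 := r620 v6 w8305
theorem v621 : PV l621 := r621 v6 w8306
theorem v622 : PV l622 := r622 v6 w8307
theorem v623 : PV l623 := r623 v5 w8308
theorem v624 : PV l624 := r624 v5 w8309
theorem v625 : PV l625 := r625 v5 w8310
theorem v626 : PV l626 := r626 v5 w8311
theorem v627 : PV l627 := r627 v5 w8312
theorem v628 : PV l628 := r628 v6 w8867
theorem v629 : PV l629 := r629 v6 w8868
theorem v630 : PV l630 := r630 v6 w8869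
theorem v631 : PV l631 := r631 v6 w8870
theorem v632 : PV l632 := r632 w8129 w8042
theorem v633 : PV l633 := r633 w7954 w7916
theorem v634 : PV l634 := r634 w7824 w7919
theorem v635 : PV l635 := r635 w664 w668
theorem v636 : PV l636 := r636 w7682 w7763
theorem v637 : PV l637 := r637 w8222 v613
theorem v638 : PV l638 := r638 w8015 w8110
theorem v639 : PV l639 := r639 w8271 v621
theorem v640 : PV l640 := r640 w8087 w7999
theorem v641 : PV l641 := r641 w8576 w8506
theorem v642 : PV l642 := r642 w5743 w5765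
theorem v643 : PV l643 := r643 w8585 w8561
theorem v644 : PV l644 := r644 w3806 w3799
theorem v645 : PV l645 := r645 w7823 w8160
theorem v646 : PV l646 := r646 w8997 w9165
theorem v647 : PV l647 := r647 w7404 w7538
theorem v648 : PV l648 := r648 w7652 w7505
theorem v649 : PV l649 := r649 w8012 w8061
theorem v650 : PV l650 := r650 w7843 w7941
theorem v651 : PV l651 := r651 w7920 w8650
theorem v652 : PV l652 := r652 w8750 v630
theorem v653 : PV l653 := r653 v596 w7532
theorem v654 : PV l654 := r654 w7821 w7865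
theorem v655 : PV l655 := r655 w7863 w8198
theorem v656 : PV l656 := r656 w8092 w8115
theorem v657 : PV l657 := r657 w7791 w7813
theorem v658 : PV l658 := r658 w8069 w8046
theorem v659 : PV l659 := r659 w8413 w8390
theorem v660 : PV l660 := r660 w7782 w7802
theorem v661 : PV l661 := r661 w7613 w7604
theorem v662 : PV l662 := r662 v355 v443 v100 w7511 w7502 v70
theorem v663 : PV l663 := r663 v41 w7746
theorem v664 : PV l664 := r664 w5648 w5643
theorem v665 : PV l665 := r665 w8400 w8399 w8398 w797 w795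
theorem v666 : PV l666 := r666 w2405 w2379 w2375 v665
theorem v667 : PV l667 := r667 w8325 v627
theorem v668 : PV l668 := r668 w8324 v626
theorem v669 : PV l669 := r669 w5799 w5804 v667 w2380 w2377 v668
theorem v670 : PV l670 := r670 w8397 v38 w779 w8416
theorem v671 : PV l671 := r671 w8399 v627
theorem v672 : PV l672 := r672 w697 w700 w7962 w5609 w5617 w8287 w8288
theorem v673 : PV l673 := r673 v618 w7984
theorem v674 : PV l674 := r674 v673 w8269
theorem v675 : PV l675 := r675 w697 w707
theorem v676 : PV l676 := r676 w5645 w5656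
theorem v677 : PV l677 := r677 v676 v675 w8288 w8287 w1480 w8252 w1471 w8250
theorem v678 : PV l678 := r678 v676 v677 w8253 w8252 w8287 w1483 w8285 w1469
theorem v679 : PV l679 := r679 w8864 v630
theorem v680 : PV l680 := r680 v679 v630 w794 w8954 w8865
theorem v681 : PV l681 := r681 w2228 w2224
theorem v682 : PV l682 := r682 w2201 w2202
theorem v683 : PV l683 := r683 w6182 v514
theorem v684 : PV l684 := r684 w3861 w3875
theorem v685 : PV l685 := r685 v118 w3899 w6181 v684 v551 v513 w2442
theorem v686 : PV l686 := r686 v118 v685 w6057 w2413 w2449 w5930 w2421 v551 w5929 w3894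
theorem v687 : PV l687 := r687 w962 w963 w9187
theorem v688 : PV l688 := r688 v95 v96 w9186
theorem v689 : PV l689 := r689 v688 v687
theorem v690 : PV l690 := r690 v689 w950
theorem v691 : PV l691 := r691 w9185 w138
theorem v692 : PV l692 := r692 v60 w9184
theorem v693 : PV l693 := r693 v692 w9185
theorem v694 : PV l694 := r694 v692 v691
theorem v695 : PV l695 := r695 v693 v61
theorem v696 : PV l696 := r696 v693 v62
theorem v697 : PV l697 := r697 v693 v63
theorem v698 : PV l698 := r698 v693 v64
theorem v699 : PV l699 := r699 v693 v692 w136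
theorem v700 : PV l700 := r700 v693 v692 w137
theorem v701 : PV l701 := r701 v693 v692 w191
theorem v702 : PV l702 := r702 v513 w6180
theorem v703 : PV l703 := r703 v692 v693 v694 v689 v121 v118 w831 w830 w17 w60 w59 v514 w6058 v686 v702 v684 w6057 w2413 w5930 w2421 w5929
theorem v704 : PV l704 := r704 w6057 w5930
theorem v705 : PV l705 := r705 v693 v694 v689 v118 w831 w830 w60 w59 v684 v685 v513 w6180
theorem v706 : PV l706 := r706 w6056 v513
theorem v707 : PV l707 := r707 v692 v693 v689 v703 v121 v118 w831 w830 w17 w60 w59 w5931 v705 w5930 v704 w2417 w2419 v706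
theorem v708 : PV l708 := r708 v693 v689 v690 v700 v118 w831 w830 w60 w59 w6181 w2417 w2452 w2419 v541 v513 w3889
theorem v709 : PV l709 := r709 v693 v689 v694 v118 w831 w830 w60 w59 v708 w3864 w3895 v704 w6057 w3873 v540 w5929 w2446
theorem v710 : PV l710 := r710 w2423 w2410
theorem v711 : PV l711 := r711 v692 v693 v689 w831 w830 w17 w60 w59 v118 v121 v703 v707 v683 v709 v706 v710 w6181 w3864 w5930 w3873 w5929
theorem v712 : PV l712 := r712 w6253 v513
theorem v713 : PV l713 := r713 w2420 w2414
theorem v714 : PV l714 := r714 v693 w60 w59 v713 w5986 w6254 v684 v712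
theorem v715 : PV l715 := r715 v688 w843 w842 w894 w896 w9187
theorem v716 : PV l716 := r716 v692 v693 v689 v694 v715 v711 v123 v120 w831 w830 w18 w64 w17 w60 w59 w5987 v714 w2411 w2447 w2426 w5989 w3867 w3913 w3875 w3874 v529 w5986 w5929 w5876 w5875
theorem v717 : PV l717 := r717 v693 v689 v694 v122 w63 w60 v713 w6254 w3872 w3895 w5986 w3866 v540 w5988 w2457
theorem v718 : PV l718 := r718 v692 v693 v689 v690 v700 v715 w836 v711 v123 v120 w831 w830 w18 w64 w17 w60 w59 v716 w6255 v717 w2411 w2447 w2426 w2693 w6257 w3879 w3916 w3862 w3864 v552 w6180 w6254 w6115 w6116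
theorem v719 : PV l719 := r719 v689 v694 w2422 w2448 w2416 v540 w5879 w3913
theorem v720 : PV l720 := r720 v692 v693 v689 v694 v718 v715 v711 v123 v120 w831 w830 w18 w64 w17 w60 w59 w5877 v719 v710 w5876 w6116 w3875 w3899 v684 w6115 w3867 v702 w5879 v551 w2458
theorem v721 : PV l721 := r721 v693 v689 v694 w60 w59 w2448 v540 w3893 w3895 v712 w6254 w6116
theorem v722 : PV l722 := r722 v692 v693 v689 v694 v711 v120 w831 w830 w17 w60 w59 v718 v720 w6117 v721 v710 w6116 w3872 w3895 w3865 w5876 v540 v529 w5929 w5875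
theorem v723 : PV l723 := r723 v693 w60 w59 v706 v713 w6254 w3872 w5986 w3865 w5985
theorem v724 : PV l724 := r724 v692 v693 v689 v690 v700 v722 v715 v711 v123 v120 w831 w830 w18 w64 w17 w60 w59 v716 w6255 v723 w2411 w2447 w2426 w2693 w6257 w3879 w3916 w3862 w3864 v552 w6254 w6180 w6116 w6115
theorem v725 : PV l725 := r725 v692 v693 v689 v724 v711 v120 w5877 v722 v715 v123 w831 w830 w18 w64 w17 w60 w59 v706 w2422 w2416 w5879 w3867 w3875 w3874 w5876 w5985 w5986
theorem v726 : PV l726 := r726 v692 v693 v689 v694 v724 v715 v711 v123 v120 w831 w830 w18 w64 w17 w60 w59 w5877 v725 v710 w5876 w3875 w3899 v684 w6116 w3867 w6115 w5879 v702 w2458 v551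
theorem v727 : PV l727 := r727 v692 v693 v689 v724 v711 v120 v726 w6117 v715 v123 w831 w830 w18 w64 w17 w60 w59 w2422 w2416 w6119 w3879 w3862 w3864 v712 w6254 w6116
theorem v728 : PV l728 := r728 v692 v693 v690 v689 v694 w17 w63 w60 w59 w830 w831 v711 v120 v122 v715 w836 v724 v726 w6117 v727 v710 w6116 w3872 w3895 w3865 w5876 w3866 w5875 w5878 w5929 w2453 v529
theorem v729 : PV l729 := r729 v693 v689 v118 w60 w59 w828 v706 v513 w6057 v684
theorem v730 : PV l730 := r730 v693 v118 w60 w59 v713 v729 w6016 v684 w6282 v513 w6281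
theorem v731 : PV l731 := r731 v693 v694 v689 w828 v118 w60 w59 v684 v685 v702
theorem v732 : PV l732 := r732 v616 w8145
theorem v733 : PV l733 := r733 w3669 w3682
theorem v734 : PV l734 := r734 w7728 w7894
theorem v735 : PV l735 := r735 v673 w8148
theorem v736 : PV l736 := r736 w8180 w7843
theorem v737 : PV l737 := r737 w7827 v604
theorem v738 : PV l738 := r738 w8204 w7870
theorem v739 : PV l739 := r739 w7871 v738 w2243 w2255
theorem v740 : PV l740 := r740 w5658 w5639
theorem v741 : PV l741 := r741 w8160 v41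
theorem v742 : PV l742 := r742 w8065 w7730
theorem v743 : PV l743 := r743 v632 w7708 w7788
theorem v744 : PV l744 := r744 w7704 w7785
theorem v745 : PV l745 := r745 w3675 w3683
theorem v746 : PV l746 := r746 v34 w8657 w8607
theorem v747 : PV l747 := r747 w7494 w7429
theorem v748 : PV l748 := r748 w8149 v619
theorem v749 : PV l749 := r749 w8144 v615
theorem v750 : PV l750 := r750 w8180 w8227
theorem v751 : PV l751 := r751 v652 w8723 w8850
theorem v752 : PV l752 := r752 w8799 w8995
theorem v753 : PV l753 := r753 v679 w8738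
theorem v754 : PV l754 := r754 w8177 w8224
theorem v755 : PV l755 := r755 w8625 w8787
theorem v756 : PV l756 := r756 w8623 w8785
theorem v757 : PV l757 := r757 v756 w8479 w8323
theorem v758 : PV l758 := r758 w7843 w7684
theorem v759 : PV l759 := r759 w8608 w8658
theorem v760 : PV l760 := r760 w7403 w7465
theorem v761 : PV l761 := r761 w7891 w7725
theorem v762 : PV l762 := r762 w7982 w7960
theorem v763 : PV l763 := r763 w8738 w8430
theorem v764 : PV l764 := r764 v734 w7807
theorem v765 : PV l765 := r765 w9007 w9174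
theorem v766 : PV l766 := r766 w8326 w8378
theorem v767 : PV l767 := r767 v617 w8266
theorem v768 : PV l768 := r768 w8349 v625
theorem v769 : PV l769 := r769 v768 w8605 w8996
theorem v770 : PV l770 := r770 w7783 w7700
theorem v771 : PV l771 := r771 v693 w241
theorem v772 : PV l772 := r772 v701 w409
theorem v773 : PV l773 := r773 v693 w262
theorem v774 : PV l774 := r774 v695 w266
theorem v775 : PV l775 := r775 v701 w429
theorem v776 : PV l776 := r776 v701 w430
theorem v777 : PV l777 := r777 v693 w280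
theorem v778 : PV l778 := r778 v693 w282
theorem v779 : PV l779 := r779 v701 v580
theorem v780 : PV l780 := r780 v701 v588
theorem v781 : PV l781 := r781 v699 v535
theorem v782 : PV l782 := r782 v699 v546
theorem v783 : PV l783 := r783 v700 v690 v541
theorem v784 : PV l784 := r784 v700 v690 v543
theorem v785 : PV l785 := r785 v694 v689 v540
theorem v786 : PV l786 := r786 v694 v689 v544
theorem v787 : PV l787 := r787 v698 v533
theorem v788 : PV l788 := r788 v698 v589
theorem v789 : PV l789 := r789 v697 v537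
theorem v790 : PV l790 := r790 v697 v586
theorem v791 : PV l791 := r791 v696 v539
theorem v792 : PV l792 := r792 v696 v584
theorem v793 : PV l793 := r793 v695 v536
theorem v794 : PV l794 := r794 v695 v587
theorem v795 : PV l795 := r795 v693 v538
theorem v796 : PV l796 := r796 v693 v585
theorem v797 : PV l797 := r797 v692 v688 v542
theorem v798 : PV l798 := r798 v692 v688 v583
theorem v799 : PV l799 := r799 v688 w959
theorem v800 : PV l800 := r800 v688 w960
theorem v801 : PV l801 := r801 v689 w985
theorem v802 : PV l802 := r802 v689 w987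
theorem v803 : PV l803 := r803 v689 w984
theorem v804 : PV l804 := r804 v690 w988
theorem v805 : PV l805 := r805 v689 w983
theorem v806 : PV l806 := r806 v690 w986
theorem v807 : PV l807 := r807 v689 w982
theorem v808 : PV l808 := r808 v689 w977
theorem v809 : PV l809 := r809 v690 w978
theorem v810 : PV l810 := r810 v689 w976
theorem v811 : PV l811 := r811 v689 w971
theorem v812 : PV l812 := r812 v690 w972
theorem v813 : PV l813 := r813 v689 w970
theorem v814 : PV l814 := r814 v689 w969
theorem v815 : PV l815 := r815 v689 w965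
theorem v816 : PV l816 := r816 v690 w966
theorem v817 : PV l817 := r817 v689 w964
theorem v818 : PV l818 := r818 v696 v571
theorem v819 : PV l819 := r819 v696 v562
theorem v820 : PV l820 := r820 v693 v572
theorem v821 : PV l821 := r821 v693 v561
theorem v822 : PV l822 := r822 v688 w1003
theorem v823 : PV l823 := r823 v688 w1004
theorem v824 : PV l824 := r824 v688 w1006
theorem v825 : PV l825 := r825 v688 w840
theorem v826 : PV l826 := r826 v688 w843
theorem v827 : PV l827 := r827 v688 w846
theorem v828 : PV l828 := r828 v688 w1059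
theorem v829 : PV l829 := r829 v688 w1035
theorem v830 : PV l830 := r830 v688 w1025
theorem v831 : PV l831 := r831 v688 w1015
theorem v832 : PV l832 := r832 v688 w1016
theorem v833 : PV l833 := r833 v688 w1018
theorem v834 : PV l834 := r834 v688 w1017
theorem v835 : PV l835 := r835 v688 w1020
theorem v836 : PV l836 := r836 v688 w1023
theorem v837 : PV l837 := r837 v688 w1024
theorem v838 : PV l838 := r838 v688 w1047
theorem v839 : PV l839 := r839 v688 w1048
theorem v840 : PV l840 := r840 v688 w1050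
theorem v841 : PV l841 := r841 v688 w1051
theorem v842 : PV l842 := r842 v688 w1049
theorem v843 : PV l843 := r843 v688 w1052
theorem v844 : PV l844 := r844 v688 w1055
theorem v845 : PV l845 := r845 v688 w1058
theorem v846 : PV l846 := r846 v688 w1026
theorem v847 : PV l847 := r847 v688 w1028
theorem v848 : PV l848 := r848 v688 w1027
theorem v849 : PV l849 := r849 v688 w1030
theorem v850 : PV l850 := r850 v688 w1033
theorem v851 : PV l851 := r851 v688 w1036
theorem v852 : PV l852 := r852 v688 w1038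
theorem v853 : PV l853 := r853 v688 w1037
theorem v854 : PV l854 := r854 v688 w1040
theorem v855 : PV l855 := r855 v688 w1043
theorem v856 : PV l856 := r856 v688 w1044
theorem v857 : PV l857 := r857 v689 w952
theorem v858 : PV l858 := r858 v690 w953
theorem v859 : PV l859 := r859 v689 w951
theorem v860 : PV l860 := r860 v689 w835
theorem v861 : PV l861 := r861 v689 w832
theorem v862 : PV l862 := r862 v689 w828
theorem v863 : PV l863 := r863 v698 w392
theorem v864 : PV l864 := r864 v701 v575
theorem v865 : PV l865 := r865 v701 v591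
theorem v866 : PV l866 := r866 v701 w405
theorem v867 : PV l867 := r867 v701 w408
theorem v868 : PV l868 := r868 v701 w421
theorem v869 : PV l869 := r869 v700 w129
theorem v870 : PV l870 := r870 v700 v690 v531
theorem v871 : PV l871 := r871 v700 v690 v552
theorem v872 : PV l872 := r872 v694 w2
theorem v873 : PV l873 := r873 v694 w4
theorem v874 : PV l874 := r874 v694 w5
theorem v875 : PV l875 := r875 v694 w8
theorem v876 : PV l876 := r876 v694 w127
theorem v877 : PV l877 := r877 v694 w128
theorem v878 : PV l878 := r878 v694 v689 v532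
theorem v879 : PV l879 := r879 v693 w322
theorem v880 : PV l880 := r880 v693 w329
theorem v881 : PV l881 := r881 v701 w439
theorem v882 : PV l882 := r882 v693 w318
theorem v883 : PV l883 := r883 v693 w324
theorem v884 : PV l884 := r884 v692 w227
theorem v885 : PV l885 := r885 v692 w230
theorem v886 : PV l886 := r886 v693 w315
theorem v887 : PV l887 := r887 v693 w320
theorem v888 : PV l888 := r888 v696 w327
theorem v889 : PV l889 := r889 v692 w225
theorem v890 : PV l890 := r890 v693 w317
theorem v891 : PV l891 := r891 v695 w323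
theorem v892 : PV l892 := r892 v698 w330
theorem v893 : PV l893 := r893 v698 w333
theorem v894 : PV l894 := r894 v693 w285
theorem v895 : PV l895 := r895 v693 w287
theorem v896 : PV l896 := r896 v701 w433
theorem v897 : PV l897 := r897 v701 w434
theorem v898 : PV l898 := r898 v693 w283
theorem v899 : PV l899 := r899 v693 w286
theorem v900 : PV l900 := r900 v696 w288
theorem v901 : PV l901 := r901 v693 w284
theorem v902 : PV l902 := r902 v693 w281
theorem v903 : PV l903 := r903 v693 w265
theorem v904 : PV l904 := r904 v693 w263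
theorem v905 : PV l905 := r905 v693 w260
theorem v906 : PV l906 := r906 v693 w242
theorem v907 : PV l907 := r907 v693 w244
theorem v908 : PV l908 := r908 v701 w417
theorem v909 : PV l909 := r909 v693 w240
theorem v910 : PV l910 := r910 v693 w176
theorem v911 : PV l911 := r911 v693 w175
theorem v912 : PV l912 := r912 v693 w174
theorem v913 : PV l913 := r913 v693 w178
theorem v914 : PV l914 := r914 v693 w177
theorem v915 : PV l915 := r915 v693 w179
theorem v916 : PV l916 := r916 v694 w160
theorem v917 : PV l917 := r917 v694 w162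
theorem v918 : PV l918 := r918 v694 w164
theorem v919 : PV l919 := r919 v694 w166
theorem v920 : PV l920 := r920 v694 w168
theorem v921 : PV l921 := r921 v698 w331
theorem v922 : PV l922 := r922 v698 w332
theorem v923 : PV l923 := r923 v700 w165
theorem v924 : PV l924 := r924 v699 w172
theorem v925 : PV l925 := r925 v694 w159
theorem v926 : PV l926 := r926 v694 w161
theorem v927 : PV l927 := r927 v693 w325
theorem v928 : PV l928 := r928 v696 w328
theorem v929 : PV l929 := r929 v700 w163
theorem v930 : PV l930 := r930 v699 w167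
theorem v931 : PV l931 := r931 v699 w170
theorem v932 : PV l932 := r932 v699 w171
theorem v933 : PV l933 := r933 v694 w158
theorem v934 : PV l934 := r934 v699 w169
theorem v935 : PV l935 := r935 v693 w319
theorem v936 : PV l936 := r936 v693 w321
theorem v937 : PV l937 := r937 v697 w326
theorem v938 : PV l938 := r938 v693 w316
theorem v939 : PV l939 := r939 v694 w152
theorem v940 : PV l940 := r940 v694 w154
theorem v941 : PV l941 := r941 v700 w153
theorem v942 : PV l942 := r942 v694 w151
theorem v943 : PV l943 := r943 v699 w156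
theorem v944 : PV l944 := r944 v699 w157
theorem v945 : PV l945 := r945 v699 w155
theorem v946 : PV l946 := r946 v694 w146
theorem v947 : PV l947 := r947 v700 w147
theorem v948 : PV l948 := r948 v694 w144
theorem v949 : PV l949 := r949 v694 w145
theorem v950 : PV l950 := r950 v699 w149
theorem v951 : PV l951 := r951 v699 w150
theorem v952 : PV l952 := r952 v699 w148
theorem v953 : PV l953 := r953 v693 w264
theorem v954 : PV l954 := r954 v693 w261
theorem v955 : PV l955 := r955 v694 w140
theorem v956 : PV l956 := r956 v694 w139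
theorem v957 : PV l957 := r957 v699 w142
theorem v958 : PV l958 := r958 v699 w143
theorem v959 : PV l959 := r959 v699 w141
theorem v960 : PV l960 := r960 v695 w243
theorem v961 : PV l961 := r961 v693 w237
theorem v962 : PV l962 := r962 v693 w238
theorem v963 : PV l963 := r963 v693 w239
theorem v964 : PV l964 := r964 v692 w184
theorem v965 : PV l965 := r965 v692 w185
theorem v966 : PV l966 := r966 v692 w186
theorem v967 : PV l967 := r967 v692 w187
theorem v968 : PV l968 := r968 v692 w188
theorem v969 : PV l969 := r969 v692 w189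
theorem v970 : PV l970 := r970 v692 w15
theorem v971 : PV l971 := r971 v692 w16
theorem v972 : PV l972 := r972 v692 w18
theorem v973 : PV l973 := r973 v692 w19
theorem v974 : PV l974 := r974 v692 w20
theorem v975 : PV l975 := r975 v692 w21
theorem v976 : PV l976 := r976 v692 w22
theorem v977 : PV l977 := r977 v692 v688 v553
theorem v978 : PV l978 := r978 v692 v688 v577
theorem v979 : PV l979 := r979 v692 w212
theorem v980 : PV l980 := r980 v692 w196
theorem v981 : PV l981 := r981 v692 w197
theorem v982 : PV l982 := r982 v692 w198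
theorem v983 : PV l983 := r983 v692 w199
theorem v984 : PV l984 := r984 v692 w201
theorem v985 : PV l985 := r985 v692 w204
theorem v986 : PV l986 := r986 v692 w200
theorem v987 : PV l987 := r987 v692 w202
theorem v988 : PV l988 := r988 v692 w203
theorem v989 : PV l989 := r989 v692 w205
theorem v990 : PV l990 := r990 v692 w206
theorem v991 : PV l991 := r991 v692 w207
theorem v992 : PV l992 := r992 v692 w208
theorem v993 : PV l993 := r993 v692 w209
theorem v994 : PV l994 := r994 v692 w210
theorem v995 : PV l995 := r995 v692 w211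
theorem v996 : PV l996 := r996 v699 w131
theorem v997 : PV l997 := r997 v699 w133
theorem v998 : PV l998 := r998 v699 w134
theorem v999 : PV l999 := r999 v699 w135
theorem v1000 : PV l1000 := r1000 v699 w130
theorem v1001 : PV l1001 := r1001 v699 w132
theorem v1002 : PV l1002 := r1002 v693 w67
theorem v1003 : PV l1003 := r1003 v693 w66
theorem v1004 : PV l1004 := r1004 v693 w65
theorem v1005 : PV l1005 := r1005 v693 w62
theorem v1006 : PV l1006 := r1006 v693 w61
theorem v1007 : PV l1007 := r1007 v693 w59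
theorem v1008 : PV l1008 := r1008 v699 w10
theorem v1009 : PV l1009 := r1009 v699 w11
theorem v1010 : PV l1010 := r1010 v701 w406
theorem v1011 : PV l1011 := r1011 v701 w410
theorem v1012 : PV l1012 := r1012 v701 w420
theorem v1013 : PV l1013 := r1013 v701 w411
theorem v1014 : PV l1014 := r1014 v701 w412
theorem v1015 : PV l1015 := r1015 v692 w236
theorem v1016 : PV l1016 := r1016 v692 w214
theorem v1017 : PV l1017 := r1017 v699 v557
theorem v1018 : PV l1018 := r1018 v699 v525
theorem v1019 : PV l1019 := r1019 v700 v690 v554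
theorem v1020 : PV l1020 := r1020 v700 v690 v530
theorem v1021 : PV l1021 := r1021 v694 v689 v555
theorem v1022 : PV l1022 := r1022 v694 v689 v529
theorem v1023 : PV l1023 := r1023 v699 v534
theorem v1024 : PV l1024 := r1024 v699 v547
theorem v1025 : PV l1025 := r1025 v698 v545
theorem v1026 : PV l1026 := r1026 v698 v582
theorem v1027 : PV l1027 := r1027 v698 v520
theorem v1028 : PV l1028 := r1028 v697 v526
theorem v1029 : PV l1029 := r1029 v697 v548
theorem v1030 : PV l1030 := r1030 v697 v581
theorem v1031 : PV l1031 := r1031 v696 v550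
theorem v1032 : PV l1032 := r1032 v696 v578
theorem v1033 : PV l1033 := r1033 v696 v590
theorem v1034 : PV l1034 := r1034 v696 v528
theorem v1035 : PV l1035 := r1035 v695 v592
theorem v1036 : PV l1036 := r1036 v693 v549
theorem v1037 : PV l1037 := r1037 v693 v579
theorem v1038 : PV l1038 := r1038 v693 v527
theorem v1039 : PV l1039 := r1039 v699 v524
theorem v1040 : PV l1040 := r1040 v699 v558
theorem v1041 : PV l1041 := r1041 v698 v576
theorem v1042 : PV l1042 := r1042 v698 v556
theorem v1043 : PV l1043 := r1043 v697 v560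
theorem v1044 : PV l1044 := r1044 v697 v573
theorem v1045 : PV l1045 := r1045 v695 v559
theorem v1046 : PV l1046 := r1046 v695 v574
theorem v1047 : PV l1047 := r1047 v699 w3
theorem v1048 : PV l1048 := r1048 v699 w6
theorem v1049 : PV l1049 := r1049 v699 w7
theorem v1050 : PV l1050 := r1050 v699 w9
theorem v1051 : PV l1051 := r1051 v692 w229
theorem v1052 : PV l1052 := r1052 v692 w232
theorem v1053 : PV l1053 := r1053 v692 w233
theorem v1054 : PV l1054 := r1054 v692 w234
theorem v1055 : PV l1055 := r1055 v692 w235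
theorem v1056 : PV l1056 := r1056 v692 w228
theorem v1057 : PV l1057 := r1057 v692 w231
theorem v1058 : PV l1058 := r1058 v692 w226
theorem v1059 : PV l1059 := r1059 v692 w224
theorem v1060 : PV l1060 := r1060 v692 w217
theorem v1061 : PV l1061 := r1061 v692 w220
theorem v1062 : PV l1062 := r1062 v692 w222
theorem v1063 : PV l1063 := r1063 v692 w223
theorem v1064 : PV l1064 := r1064 v692 w216
theorem v1065 : PV l1065 := r1065 v692 w219
theorem v1066 : PV l1066 := r1066 v692 w221
theorem v1067 : PV l1067 := r1067 v692 w215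
theorem v1068 : PV l1068 := r1068 v692 w218
theorem v1069 : PV l1069 := r1069 v692 w213
theorem v1070 : PV l1070 := r1070 w5886 w5917
theorem v1071 : PV l1071 := r1071 v758 v736 v638
theorem v1072 : PV l1072 := r1072 w6035 w6298
theorem v1073 : PV l1073 := r1073 w5915 w6166
theorem v1074 : PV l1074 := r1074 w5897 w6151
theorem v1075 : PV l1075 := r1075 v702 w6166
theorem v1076 : PV l1076 := r1076 w6133 w6153
theorem v1077 : PV l1077 := r1077 w5939 w5952
theorem v1078 : PV l1078 := r1078 v1077 v728 w5966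
theorem v1079 : PV l1079 := r1079 w6116 w5876
theorem v1080 : PV l1080 := r1080 v728 w5865
theorem v1081 : PV l1081 := r1081 w5876 w5986
theorem v1082 : PV l1082 := r1082 w6194 w6215
theorem v1083 : PV l1083 := r1083 v799 v800 w9187
theorem v1084 : PV l1084 := r1084 w6180 w6669
theorem v1085 : PV l1085 := r1085 v1073 v1084
theorem v1086 : PV l1086 := r1086 v118 v1072 w6035 w6297 v684
theorem v1087 : PV l1087 := r1087 w5953 w6216
theorem v1088 : PV l1088 := r1088 v118 v713 v730 v706 v971 v1086
theorem v1089 : PV l1089 := r1089 v1083 v782 v1039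
theorem v1090 : PV l1090 := r1090 v728 w6573
theorem v1091 : PV l1091 := r1091 w7788 w8129
theorem v1092 : PV l1092 := r1092 w7708 w7871
theorem v1093 : PV l1093 := r1093 v34 w8505
theorem v1094 : PV l1094 := r1094 w6587 w6036
theorem v1095 : PV l1095 := r1095 v728 w6215
theorem v1096 : PV l1096 := r1096 v1087 w6078
theorem v1097 : PV l1097 := r1097 w6256 w6216
theorem v1098 : PV l1098 := r1098 w6067 w6481
theorem v1099 : PV l1099 := r1099 v1022 v786
theorem v1100 : PV l1100 := r1100 v728 v860 v1050 v1049 v873 v119 w6153 v702 w6155 v861 v126 w6079 w6216 w6078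
theorem v1101 : PV l1101 := r1101 w6438 w6168
theorem v1102 : PV l1102 := r1102 v668 w8625
theorem v1103 : PV l1103 := r1103 v732 w8227
theorem v1104 : PV l1104 := r1104 w2254 w2242
theorem v1105 : PV l1105 := r1105 w1451 w1440
theorem v1106 : PV l1106 := r1106 w6000 w5943
theorem v1107 : PV l1107 := r1107 w6546 w6016
theorem v1108 : PV l1108 := r1108 v795 v1038
theorem v1109 : PV l1109 := r1109 v1108 v820 v1036
theorem v1110 : PV l1110 := r1110 v97 w9186
theorem v1111 : PV l1111 := r1111 v1110 w9187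
theorem v1112 : PV l1112 := r1112 v1110 v1083 w961
theorem v1113 : PV l1113 := r1113 v1111 v98
theorem v1114 : PV l1114 := r1114 v1111 v99
theorem v1115 : PV l1115 := r1115 v1111 v1110 w1012
theorem v1116 : PV l1116 := r1116 w5939 w6587
theorem v1117 : PV l1117 := r1117 v728 v860 v1050 v124 w6077 w6079
theorem v1118 : PV l1118 := r1118 w5898 w6016
theorem v1119 : PV l1119 := r1119 v1022 v878
theorem v1120 : PV l1120 := r1120 v1110 v728 v860 v1050 v124 w5855 v820 w5857 v795 w6499
theorem v1121 : PV l1121 := r1121 w6500 w5856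
theorem v1122 : PV l1122 := r1122 v505 w5865
theorem v1123 : PV l1123 := r1123 w5956 w6218
theorem v1124 : PV l1124 := r1124 v1123 w6081 w5859
theorem v1125 : PV l1125 := r1125 w5921 w6038
theorem v1126 : PV l1126 := r1126 w6848 w6837
theorem v1127 : PV l1127 := r1127 w8816 v629
theorem v1128 : PV l1128 := r1128 v653 w7579 w7435
theorem v1129 : PV l1129 := r1129 w7452 w7427
theorem v1130 : PV l1130 := r1130 w6061 v517
theorem v1131 : PV l1131 := r1131 v509 w6072
theorem v1132 : PV l1132 := r1132 w6946 w7034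
theorem v1133 : PV l1133 := r1133 w7434 v595
theorem v1134 : PV l1134 := r1134 v1114 v1111 v430 v1027 v335 v794 v787 v637 w7457 w8060
theorem v1135 : PV l1135 := r1135 v1115 w1207
theorem v1136 : PV l1136 := r1136 v1115 w1208
theorem v1137 : PV l1137 := r1137 v1115 v779
theorem v1138 : PV l1138 := r1138 v1115 v780
theorem v1139 : PV l1139 := r1139 v1083 v781
theorem v1140 : PV l1140 := r1140 v1083 v782
theorem v1141 : PV l1141 := r1141 v1114 v787
theorem v1142 : PV l1142 := r1142 v1114 v788
theorem v1143 : PV l1143 := r1143 v1113 v789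
theorem v1144 : PV l1144 := r1144 v1113 v790
theorem v1145 : PV l1145 := r1145 v1112 v791
theorem v1146 : PV l1146 := r1146 v1112 v792
theorem v1147 : PV l1147 := r1147 v1111 v793
theorem v1148 : PV l1148 := r1148 v1111 v794
theorem v1149 : PV l1149 := r1149 v1110 v795
theorem v1150 : PV l1150 := r1150 v1110 v796
theorem v1151 : PV l1151 := r1151 v1114 w1194
theorem v1152 : PV l1152 := r1152 v1115 w1225
theorem v1153 : PV l1153 := r1153 v1111 w1137
theorem v1154 : PV l1154 := r1154 v1111 w1141
theorem v1155 : PV l1155 := r1155 v1111 w1138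
theorem v1156 : PV l1156 := r1156 v1111 w1139
theorem v1157 : PV l1157 := r1157 v1115 w1223
theorem v1158 : PV l1158 := r1158 v1115 w1224
theorem v1159 : PV l1159 := r1159 v1115 w1222
theorem v1160 : PV l1160 := r1160 v1115 w1221
theorem v1161 : PV l1161 := r1161 v1115 w1212
theorem v1162 : PV l1162 := r1162 v1115 w1209
theorem v1163 : PV l1163 := r1163 v1115 w1210
theorem v1164 : PV l1164 := r1164 v1111 w994
theorem v1165 : PV l1165 := r1165 v1111 w996
theorem v1166 : PV l1166 := r1166 v1111 w999
theorem v1167 : PV l1167 := r1167 v1111 w995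
theorem v1168 : PV l1168 := r1168 v1111 w998
theorem v1169 : PV l1169 := r1169 v1111 w997
theorem v1170 : PV l1170 := r1170 v1083 w990
theorem v1171 : PV l1171 := r1171 v1083 w991
theorem v1172 : PV l1172 := r1172 v1083 w989
theorem v1173 : PV l1173 := r1173 v1111 w1135
theorem v1174 : PV l1174 := r1174 v1111 w1136
theorem v1175 : PV l1175 := r1175 v1111 w1134
theorem v1176 : PV l1176 := r1176 v1114 w1140
theorem v1177 : PV l1177 := r1177 v1083 w980
theorem v1178 : PV l1178 := r1178 v1083 w981
theorem v1179 : PV l1179 := r1179 v1111 w1102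
theorem v1180 : PV l1180 := r1180 v1111 w1103
theorem v1181 : PV l1181 := r1181 v1111 w1104
theorem v1182 : PV l1182 := r1182 v1083 w979
theorem v1183 : PV l1183 := r1183 v1111 w1100
theorem v1184 : PV l1184 := r1184 v1111 w1101
theorem v1185 : PV l1185 := r1185 v1111 w1099
theorem v1186 : PV l1186 := r1186 v1113 w1086
theorem v1187 : PV l1187 := r1187 v1114 w1087
theorem v1188 : PV l1188 := r1188 v1083 w974
theorem v1189 : PV l1189 := r1189 v1083 w975
theorem v1190 : PV l1190 := r1190 v1111 w1083
theorem v1191 : PV l1191 := r1191 v1111 w1084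
theorem v1192 : PV l1192 := r1192 v1111 w1085
theorem v1193 : PV l1193 := r1193 v1083 w973
theorem v1194 : PV l1194 := r1194 v1111 w1081
theorem v1195 : PV l1195 := r1195 v1111 w1082
theorem v1196 : PV l1196 := r1196 v1111 w1080
theorem v1197 : PV l1197 := r1197 v1113 w1066
theorem v1198 : PV l1198 := r1198 v1083 w968
theorem v1199 : PV l1199 := r1199 v1111 w1063
theorem v1200 : PV l1200 := r1200 v1111 w1064
theorem v1201 : PV l1201 := r1201 v1111 w1065
theorem v1202 : PV l1202 := r1202 v1083 w967
theorem v1203 : PV l1203 := r1203 v1111 w1061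
theorem v1204 : PV l1204 := r1204 v1111 w1062
theorem v1205 : PV l1205 := r1205 v1111 w1060
theorem v1206 : PV l1206 := r1206 v1112 w841
theorem v1207 : PV l1207 := r1207 v1112 w844
theorem v1208 : PV l1208 := r1208 v1112 w845
theorem v1209 : PV l1209 := r1209 v1112 v818
theorem v1210 : PV l1210 := r1210 v1112 v819
theorem v1211 : PV l1211 := r1211 v1112 w1034
theorem v1212 : PV l1212 := r1212 v1112 w1045
theorem v1213 : PV l1213 := r1213 v1112 w1046
theorem v1214 : PV l1214 := r1214 v1110 w1005
theorem v1215 : PV l1215 := r1215 v1110 w1007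
theorem v1216 : PV l1216 := r1216 v1110 w1008
theorem v1217 : PV l1217 := r1217 v1110 v820
theorem v1218 : PV l1218 := r1218 v1110 v821
theorem v1219 : PV l1219 := r1219 v1110 w1019
theorem v1220 : PV l1220 := r1220 v1110 w1021
theorem v1221 : PV l1221 := r1221 v1110 w1022
theorem v1222 : PV l1222 := r1222 v1110 w1053
theorem v1223 : PV l1223 := r1223 v1110 w1054
theorem v1224 : PV l1224 := r1224 v1110 w1056
theorem v1225 : PV l1225 := r1225 v1110 w1057
theorem v1226 : PV l1226 := r1226 v1110 w1029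
theorem v1227 : PV l1227 := r1227 v1110 w1031
theorem v1228 : PV l1228 := r1228 v1110 w1032
theorem v1229 : PV l1229 := r1229 v1110 w1039
theorem v1230 : PV l1230 := r1230 v1110 w1041
theorem v1231 : PV l1231 := r1231 v1110 w1042
theorem v1232 : PV l1232 := r1232 v1083 w955
theorem v1233 : PV l1233 := r1233 v1083 w954
theorem v1234 : PV l1234 := r1234 v1111 w897
theorem v1235 : PV l1235 := r1235 v1113 w895
theorem v1236 : PV l1236 := r1236 v1113 w893
theorem v1237 : PV l1237 := r1237 v1111 w892
theorem v1238 : PV l1238 := r1238 v1113 w891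
theorem v1239 : PV l1239 := r1239 v1111 w890
theorem v1240 : PV l1240 := r1240 v1083 w837
theorem v1241 : PV l1241 := r1241 v1083 w838
theorem v1242 : PV l1242 := r1242 v1115 v864
theorem v1243 : PV l1243 := r1243 v1115 v865
theorem v1244 : PV l1244 := r1244 v1083 v1017
theorem v1245 : PV l1245 := r1245 v1083 v1018
theorem v1246 : PV l1246 := r1246 v1083 v1023
theorem v1247 : PV l1247 := r1247 v1083 v1024
theorem v1248 : PV l1248 := r1248 v1114 v1025
theorem v1249 : PV l1249 := r1249 v1114 v1026
theorem v1250 : PV l1250 := r1250 v1114 v1027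
theorem v1251 : PV l1251 := r1251 v1113 v1028
theorem v1252 : PV l1252 := r1252 v1113 v1029
theorem v1253 : PV l1253 := r1253 v1113 v1030
theorem v1254 : PV l1254 := r1254 v1112 v1031
theorem v1255 : PV l1255 := r1255 v1112 v1032
theorem v1256 : PV l1256 := r1256 v1112 v1033
theorem v1257 : PV l1257 := r1257 v1112 v1034
theorem v1258 : PV l1258 := r1258 v1111 v1035
theorem v1259 : PV l1259 := r1259 v1110 v1036
theorem v1260 : PV l1260 := r1260 v1110 v1037
theorem v1261 : PV l1261 := r1261 v1083 w829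
theorem v1262 : PV l1262 := r1262 v1083 w833
theorem v1263 : PV l1263 := r1263 v1083 w834
theorem v1264 : PV l1264 := r1264 v1083 w956
theorem v1265 : PV l1265 := r1265 v1083 w957
theorem v1266 : PV l1266 := r1266 v1083 w958
theorem v1267 : PV l1267 := r1267 v1083 v1039
theorem v1268 : PV l1268 := r1268 v1083 v1040
theorem v1269 : PV l1269 := r1269 v1114 v1041
theorem v1270 : PV l1270 := r1270 v1114 v1042
theorem v1271 : PV l1271 := r1271 v1113 v1043
theorem v1272 : PV l1272 := r1272 v1113 v1044
theorem v1273 : PV l1273 := r1273 v1111 v1045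
theorem v1274 : PV l1274 := r1274 v1111 v1046
theorem v1275 : PV l1275 := r1275 v1110 v1108
theorem v1276 : PV l1276 := r1276 v1110 v1109
theorem v1277 : PV l1277 := r1277 w8543 w8833
theorem v1278 : PV l1278 := r1278 w7867 w8414
theorem v1279 : PV l1279 := r1279 w7918 w8249
theorem v1280 : PV l1280 := r1280 v284 v350 v1135 w7501 w7509 v1010
theorem v1281 : PV l1281 := r1281 w7401 v595
theorem v1282 : PV l1282 := r1282 w7634 w7618
theorem v1283 : PV l1283 := r1283 v284 v448 v71 w7537 w7536
theorem v1284 : PV l1284 := r1284 v448 v290 w7591 v71 w7599 w7598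
theorem v1285 : PV l1285 := r1285 v448 v284 v350 v1280 w7509 w7499
theorem v1286 : PV l1286 := r1286 v443 v281 v100 v355 v65 w7475 w7476
theorem v1287 : PV l1287 := r1287 v281 v100 v355 v443 v1286 v866 w7488 w7489
theorem v1288 : PV l1288 := r1288 v448 v290 v350 v71 w7637 w7636
theorem v1289 : PV l1289 := r1289 v71 v73 w7522 v597 v458
theorem v1290 : PV l1290 := r1290 v73 v285 v284 v102 v101 v361 v1289 v597 w7520
theorem v1291 : PV l1291 := r1291 v448 v290 v71 w7547 w7549
theorem v1292 : PV l1292 := r1292 v443 v348 v282 v284 v1281 v595 w7402 v866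
theorem v1293 : PV l1293 := r1293 v73 v71 v288 w5205 w7046 w7045 w7581 w7583
theorem v1294 : PV l1294 := r1294 v288 v361 w7655 w7653
theorem v1295 : PV l1295 := r1295 v107 v450 v448 v288 v597 v77 w7657 w7659
theorem v1296 : PV l1296 := r1296 v288 v361 v77 w7509 w7507
theorem v1297 : PV l1297 := r1297 v350 v103 v71 w7432 v1133
theorem v1298 : PV l1298 := r1298 v284 v1287 v348 v282 v443 v65 w7413 w7414
theorem v1299 : PV l1299 := r1299 v443 v282 v284 v1287 v348 v1298 v866 w7425 w7426
theorem v1300 : PV l1300 := r1300 w5205 v1294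
theorem v1301 : PV l1301 := r1301 v361 v1295
theorem v1302 : PV l1302 := r1302 v361 v107 v77 w7636 v597 w7634
theorem v1303 : PV l1303 := r1303 w6341 w6583
theorem v1304 : PV l1304 := r1304 w7438 v1297
theorem v1305 : PV l1305 := r1305 w6730 w6454
theorem v1306 : PV l1306 := r1306 w7806 w7726
theorem v1307 : PV l1307 := r1307 v1306 w7764 w7683
theorem v1308 : PV l1308 := r1308 w7764 w7683
theorem v1309 : PV l1309 := r1309 w4413 w6508 v1149
theorem v1310 : PV l1310 := r1310 v101 v103 v1292 v290 v71 w7439 w7438 v1296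
theorem v1311 : PV l1311 := r1311 w6699 w6417
theorem v1312 : PV l1312 := r1312 v1250 v1248
theorem v1313 : PV l1313 := r1313 v331 w2913 v563 w6538 v797 w4509 w7110 w7208
theorem v1314 : PV l1314 := r1314 w7448 w7435
theorem v1315 : PV l1315 := r1315 w7516 w7658
theorem v1316 : PV l1316 := r1316 v1137 v1242 v1255 v1257
theorem v1317 : PV l1317 := r1317 v352 v350 v288 v107 v79 v908 v597 v458 w7520 w7522
theorem v1318 : PV l1318 := r1318 w7657 v597
theorem v1319 : PV l1319 := r1319 v1135 v1299 v290 v288 v287 v107 v106 v350 v351 v352 v1290 w7518 v1317 w7516 v1315 v459 v1318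
theorem v1320 : PV l1320 := r1320 v285 v284 v450 v448 v107 v1135 v1301 v1284 w7589 v77 w7598 v597 w7596
theorem v1321 : PV l1321 := r1321 v1320 v103 v284 v448 v71 w7575 w7577
theorem v1322 : PV l1322 := r1322 w7524 w7513
theorem v1323 : PV l1323 := r1323 v450 v448 v77 w7644 w7646
theorem v1324 : PV l1324 := r1324 v77 v76 v450 v449 v448 v363 w7536 w7535 w7581 v293 w7582
theorem v1325 : PV l1325 := r1325 v1324 v361
theorem v1326 : PV l1326 := r1326 v1325 v77 v76 v450 v449 v448 v360 w7612 w7654 w7610 v293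
theorem v1327 : PV l1327 := r1327 v350 v290 v71 v448 v1135 w7604 w7602
theorem v1328 : PV l1328 := r1328 v338 v1250 v1252 v433
theorem v1329 : PV l1329 := r1329 v350 v1321 v1135 v1291
theorem v1330 : PV l1330 := r1330 v71 v448 v350 v1321 v290 v1329 v103 w7527 w7529
theorem v1331 : PV l1331 := r1331 v1330 v361 v360 v908 v1163 v450 v449 v293 v1318 w7658
theorem v1332 : PV l1332 := r1332 v362 v293 v108 v76 v77 w7654 w7653
theorem v1333 : PV l1333 := r1333 w6509 w4581 w6783 v1218
theorem v1334 : PV l1334 := r1334 v69 v102 v283 w7454 w7456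
theorem v1335 : PV l1335 := r1335 v459 v108 v79 v1334 v293 w7497 w7498
theorem v1336 : PV l1336 := r1336 v443 v351 v352 v355 v1335 v459 v458 v108 v107 v104 v102 v293 w7507 v1285 w7508 v281 v68 v72 w7456 w7455
theorem v1337 : PV l1337 := r1337 v351 v355 v1335
theorem v1338 : PV l1338 := r1338 v355 v352 v351 v102 v443 v1336 v1335 v283 w7461 w7456 w7464
theorem v1339 : PV l1339 := r1339 v353 v351 v66 v68 w7487 w7485
theorem v1340 : PV l1340 := r1340 v459 v353 v352 v351 v1163 v1162 v286 v289 v1339 v867 w7474 w7472 v79 w7485 w7484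
theorem v1341 : PV l1341 := r1341 v352 v351 v1163 v293 v597 v1318 v79 w7658
theorem v1342 : PV l1342 := r1342 v75 w7516 w7517
theorem v1343 : PV l1343 := r1343 v362 v293 v459 v1163 v79 w7521 w7520
theorem v1344 : PV l1344 := r1344 w9169 w7089
theorem v1345 : PV l1345 := r1345 v75 w7451 w7450
theorem v1346 : PV l1346 := r1346 w8263 w8176
theorem v1347 : PV l1347 := r1347 w7801 w7117
theorem v1348 : PV l1348 := r1348 v217 v1186 w7721 w4600 w8057 w8050
theorem v1349 : PV l1349 := r1349 v261 v1347 v1211 w7760 w4600 w8104 w8096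
theorem v1350 : PV l1350 := r1350 v213 v1226 w7386 w6785 w8009 w8005
theorem v1351 : PV l1351 := r1351 v1250 v332 v213 v1348 v1226 v1350 v1218 v1149 w6511 w7192 w7676 w7680
theorem v1352 : PV l1352 := r1352 v293 v1163 v79 v597 v362 w7596 w7597
theorem v1353 : PV l1353 := r1353 v79 v289 v1163 v362 w7557 w7558
theorem v1354 : PV l1354 := r1354 v1352 v1331 v78
theorem v1355 : PV l1355 := r1355 v1354 v289 v1163 v76 v1330 v360 v361 w7619 v1282
theorem v1356 : PV l1356 := r1356 v79 v293 v108 v362 w7573 w7574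
theorem v1357 : PV l1357 := r1357 v1243 v1138 v1254 v1256
theorem v1358 : PV l1358 := r1358 v101 v103 v1292
theorem v1359 : PV l1359 := r1359 v337 w2837 v1141 w7406 w4426
theorem v1360 : PV l1360 := r1360 v333 v336 v1253 v1250 v433
theorem v1361 : PV l1361 := r1361 w6614 w6747
theorem v1362 : PV l1362 := r1362 v293 v292 v1163 v1162 v459 v454 v356 v1342 v1343
theorem v1363 : PV l1363 := r1363 v293 v292 v79 v74 v459 v454 v1162 v1163 w7515 v1362 w7446 w7516 w7445
theorem v1364 : PV l1364 := r1364 v77 v458 v450 v445 v1363 v102 v104 v107 v1337 w7497 v1292 w7499 v1297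
theorem v1365 : PV l1365 := r1365 v1364 v288 v450 v445 v102 v104 v1337 v1292
theorem v1366 : PV l1366 := r1366 v77 v361 v352 v458 v450 v288 w7409 v1358 w7411
theorem v1367 : PV l1367 := r1367 v79 v362 v459 v1163 v1366 v293 w7444 w7445
theorem v1368 : PV l1368 := r1368 v361 v352 v458 v450 v77 v1367 v102 v104 v107 v1292 v1297
theorem v1369 : PV l1369 := r1369 v1368 v361 v352 v458 v450 v102 v104 v107 v1292 v1304 v288 w7436
theorem v1370 : PV l1370 := r1370 v1369 v1163 v1162 v1368 v362 v354 v459 v454 v287 v288 v291 v1345 w7449 w7446 w7450 w7445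
theorem v1371 : PV l1371 := r1371 v1369 v1163 v1162 v1368 v362 v354 v459 v454 v292 v293 w7449 v1345 w7450 w7446 w7445
theorem v1372 : PV l1372 := r1372 v1163 v459 v450 v352 v362 v1370 v1371 v284 v1358 v289 w7422 v1135 w7423 w7410 v72 w7413
theorem v1373 : PV l1373 := r1373 w7443 v1197 w7431 v1133
theorem v1374 : PV l1374 := r1374 v984 v985 v1373 v150 v253 v254 v1358 v595 w7413 v1203 w7408
theorem v1375 : PV l1375 := r1375 v104 v450 v595 v1338 w7455
theorem v1376 : PV l1376 := r1376 w4416 w6509 v1149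
theorem v1377 : PV l1377 := r1377 v1369 v107 v458 v450 v772 v1011 v1310 v350 v1336 v1296 w7461 w7462
theorem v1378 : PV l1378 := r1378 w6796 v563
theorem v1379 : PV l1379 := r1379 w8895 w6472
theorem v1380 : PV l1380 := r1380 w4601 w7714 w7681 v1187
theorem v1381 : PV l1381 := r1381 v348 v284 v282 v963 v962 v102 v104 w7530 w7529
theorem v1382 : PV l1382 := r1382 v597 w7634
theorem v1383 : PV l1383 := r1383 v108 v105 v286 v289 w7610 v1243 w5131 w5132 w7603 w7611 w7601
theorem v1384 : PV l1384 := r1384 v355 v284 v282 v963 v962 v443 w7455 w7456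
theorem v1385 : PV l1385 := r1385 v284 v961 v350 v351 v352 v353 v1382 v102 v104 v107 v108 v1383 w7653 v1384 v1327 v1326
theorem v1386 : PV l1386 := r1386 v614 w8223
theorem v1387 : PV l1387 := r1387 v1382 v1352 v1353
theorem v1388 : PV l1388 := r1388 v457 v449 v284 v983 v981 v102 v104 v107 v1292 v350 w7463 w7462
theorem v1389 : PV l1389 := r1389 v284 v983 v981 v449 v457 v1388 v1382 v352 v361 v1358 v1135 w7424 w7425
theorem v1390 : PV l1390 := r1390 v291 v288 v287 v986 v983 v982 w5201 v1387 v105 v108 v1332 v356 w7582 w7584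
theorem v1391 : PV l1391 := r1391 v108 v104 v449 v986 v981 v351 w7437 w7439
theorem v1392 : PV l1392 := r1392 v455 v986 v982 v105 v108 v1391 w3354 w7508 w7510
theorem v1393 : PV l1393 := r1393 v986 v982 v287 v290 v291 v1390 v455 v1392 v1162 v1163 v1382 w7521 v354 v1345
theorem v1394 : PV l1394 := r1394 v351 v360 v1358 v1283
theorem v1395 : PV l1395 := r1395 v986 v983 v981 v1389 v1387 v104 v107 v108 v1394 v362 v1332 w7610 v289 w7611
theorem v1396 : PV l1396 := r1396 v982 v1395 v287 v290 v291 v1390 v1393 v455 v1392 v1162 v1163 v1382 w7523 v362 v1345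
theorem v1397 : PV l1397 := r1397 v71 v1135 v284 w3353 v1330 w5200 w7413 w7411
theorem v1398 : PV l1398 := r1398 v350 v71 v1135 v284 w5200 w7475 w7473
theorem v1399 : PV l1399 := r1399 v1135 v284 v71 v1397 v350 v1398 v448 w7622 w7620
theorem v1400 : PV l1400 := r1400 v614 w7978
theorem v1401 : PV l1401 := r1401 v103 v1394 v363 v284 v448 w7613 w7612
theorem v1402 : PV l1402 := r1402 v103 v101 v284 v282 v65 v67 v1394 v363 w3353 w3351 v1401 v443 w7463 w7464
theorem v1403 : PV l1403 := r1403 v866 v980 v284 v282 v355 v1384 w5198 w7604 w7605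
theorem v1404 : PV l1404 := r1404 v1162 v1163 v597 v1352 v354 v362 v455 v1345
theorem v1405 : PV l1405 := r1405 v963 v68 v67 v66 v287 v288 v290 v291 v1404 v105 v108 v1392 w5201 v1332 w7582 v356 w7584
theorem v1406 : PV l1406 := r1406 v292 v293 v1404
theorem v1407 : PV l1407 := r1407 v1402 v1136 v1135 v106 v284 v67 v65 v449 v455 v457 v1339 w3353 w7425 w7424
theorem v1408 : PV l1408 := r1408 v66 v68 v963 v1396 v1405 v1402 v106 v107 v1136 v1406 v286 v289 v1407 w5201 w7635 v356 w7558 w7560
theorem v1409 : PV l1409 := r1409 v1161 v608 w8056 v295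
theorem v1410 : PV l1410 := r1410 w8010 w8105
theorem v1411 : PV l1411 := r1411 v1138 w5131 w7590
theorem v1412 : PV l1412 := r1412 v1250 v1141
theorem v1413 : PV l1413 := r1413 v103 v101 v866 v282 v284 v1403 v1292 v348 w5198 w7529 w7530
theorem v1414 : PV l1414 := r1414 v199 v198 v332 w2838 w2840 v1309 v1376 w6782 w4580 v1218
theorem v1415 : PV l1415 := r1415 w7936 w8263
theorem v1416 : PV l1416 := r1416 v1328 w3147 v1361 w6361
theorem v1417 : PV l1417 := r1417 w9058 w6361
theorem v1418 : PV l1418 := r1418 w6666 v564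
theorem v1419 : PV l1419 := r1419 v1135 v448 v1288 w7561 v1302 w7559
theorem v1420 : PV l1420 := r1420 v289 v286 v65 v103 v1394 v68 v1162 v1163 w7635 v449 v455 v1358 v1339
theorem v1421 : PV l1421 := r1421 v65 v103 v1394 v362 v963 v1395 v68 v289 v1420 v108 v1388 w7610 w7611
theorem v1422 : PV l1422 := r1422 v963 v67 v65 v103 v1394 v362 v1421 v597 v1388 v1332
theorem v1423 : PV l1423 := r1423 v68 v66 v1422 v288 v1406 v835 v290 v960 v67 v65 v833 v103 v101 v906 w3356 w3357 v1294 v1332 v444 v448 w7509 v455 w5132 w7511 v1242 v348 w7439 w7440 v198 w7385 v1414 v337 v1250 v1257 v1254 v428 w4425 w6636 v1218 w2927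
theorem v1424 : PV l1424 := r1424 v66 v68 v963 v1408 v1422 v287 v288 v290 v1406 v108 v1423 v362 w7581 v1391 w7582
theorem v1425 : PV l1425 := r1425 v1415 v1400
theorem v1426 : PV l1426 := r1426 v754 w7892 w7593
theorem v1427 : PV l1427 := r1427 v52 v47 w7430
theorem v1428 : PV l1428 := r1428 w7101 w9155
theorem v1429 : PV l1429 := r1429 v807 w6664 w6663
theorem v1430 : PV l1430 := r1430 v933 v1429
theorem v1431 : PV l1431 := r1431 v1314 v52
theorem v1432 : PV l1432 := r1432 v1163 v1162 v79 v77 v74 v73 v69 v103 v1413 v287 v288 v290 v291 v1331 w5200 v1297 v360 v361 w7499 v1364 v1318 w7501 w7658 v358 v455 w5132 w7446 v1242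
theorem v1433 : PV l1433 := r1433 v843 v844 w6664 w6646 v930
theorem v1434 : PV l1434 := r1434 v1411 v1242 w5125 w7446
theorem v1435 : PV l1435 := r1435 w7441 w8964
theorem v1436 : PV l1436 := r1436 w7465 w7492
theorem v1437 : PV l1437 := r1437 v288 v1354 v107 v77 v1356 v1330 v1323
theorem v1438 : PV l1438 := r1438 v1163 v1162 v351 v352 v353 v1341 v597 v1318 v455 v74 v79 v1315 w7517
theorem v1439 : PV l1439 := r1439 v1162 v1438 v358 v1434 v74 v75 v1406
theorem v1440 : PV l1440 := r1440 v1163 v1162 v454 v459 v1362 w7446 v75 v1345 v1343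
theorem v1441 : PV l1441 := r1441 v1439 v449 v1354
theorem v1442 : PV l1442 := r1442 v1440 v1441
theorem v1443 : PV l1443 := r1443 v653 v647
theorem v1444 : PV l1444 := r1444 v1350 w8057 w7721
theorem v1445 : PV l1445 := r1445 w7315 w7720
theorem v1446 : PV l1446 := r1446 w6784 w7717
theorem v1447 : PV l1447 := r1447 v489 v497 w8942 w8885 v400
theorem v1448 : PV l1448 := r1448 w2197 w2198
theorem v1449 : PV l1449 := r1449 w7101 w9140
theorem v1450 : PV l1450 := r1450 v79 v289 v1163 v362 w7545 w7546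
theorem v1451 : PV l1451 := r1451 v1152 w8973 w9004 v314
theorem v1452 : PV l1452 := r1452 v350 v1330 v595
theorem v1453 : PV l1453 := r1453 v1163 v284 v65 v67 v68 v1422 v1419 v1387 w7635 v1135 v351 w7425
theorem v1454 : PV l1454 := r1454 v336 v1254 v1312 v1138 w7530 w5124
theorem v1455 : PV l1455 := r1455 w7292 w8175
theorem v1456 : PV l1456 := r1456 v866 v284 v282 v348 w7549 w7550
theorem v1457 : PV l1457 := r1457 v1135 v284 v350 w7622 v1302 w7620
theorem v1458 : PV l1458 := r1458 v1163 v1162 v284 v65 v67 v1422 v1453 v1419 v1135 v455 w7425 v1339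
theorem v1459 : PV l1459 := r1459 v1152 v1153 v1154 w7217 w7228 w6556 w6569 v932
theorem v1460 : PV l1460 := r1460 v176 v844 v1433 w6646 w6665
theorem v1461 : PV l1461 := r1461 v176 v167 v929 w6624 v1430 w6623
theorem v1462 : PV l1462 := r1462 v1378 w6763 w6743
theorem v1463 : PV l1463 := r1463 v1346 w7840
theorem v1464 : PV l1464 := r1464 v348 v282 w5125 w5124 v1454 v1456
theorem v1465 : PV l1465 := r1465 v332 v1250 v428 v1259 v1138 v431 v329 v1464 w1226 v451 v1299
theorem v1466 : PV l1466 := r1466 v348 v332 v1250 v431 v329 v284 v282 v866 v1465 v100 v595 v1454 v451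
theorem v1467 : PV l1467 := r1467 v69 v66 v107 v1377 v1422
theorem v1468 : PV l1468 := r1468 v355 v866 v980 v284 v282 v102 v104 v1384 w7604 w5121 w7605
theorem v1469 : PV l1469 := r1469 v866 v980 v355 v284 v282 v100 v1384 w7604 w5121 w7605
theorem v1470 : PV l1470 := r1470 v448 v1457
theorem v1471 : PV l1471 := r1471 v348 v282 v102 v104 v1467 w7530 v1292 w5121
theorem v1472 : PV l1472 := r1472 w3355 w7563 w7557
theorem v1473 : PV l1473 := r1473 w7410 w7423
theorem v1474 : PV l1474 := r1474 v289 v1163 w7634 v362 v1473 v1353 w7180 v1425 v1463 w7890 w8223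
theorem v1475 : PV l1475 := r1475 v1472 w7638
theorem v1476 : PV l1476 := r1476 v103 w7561 v1288
theorem v1477 : PV l1477 := r1477 v203 v77 v989 v1330 w7602 w7526 v1270 w4582
theorem v1478 : PV l1478 := r1478 v284 v1467 v866 v1375 v867 v980 v351 v352 v353 v1384 v1327 v77 v1332 v1383
theorem v1479 : PV l1479 := r1479 v837 v835 v907 v906 w6783 w4584 w7534 w7535 v255 w7581 w7580
theorem v1480 : PV l1480 := r1480 v332 v1250 v329 v1316 v837 v907 v1369 v1375 w7461 w4427 w2928 v258 w7507 w7506
theorem v1481 : PV l1481 := r1481 w2839 v835 v906 v1333 v1479 v1149 v1218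
theorem v1482 : PV l1482 := r1482 w2834 v1481
theorem v1483 : PV l1483 := r1483 v986 v982 v1163 v1162 v292 v293 v1406 v1362 v454 v459 v1343 v1345
theorem v1484 : PV l1484 := r1484 v1483 v289 v288 v286 v986 v980 v1163 v459 v1372 v1407 w7484 w3357 w7485
theorem v1485 : PV l1485 := r1485 w8142 w7606
theorem v1486 : PV l1486 := r1486 w5526 w7762 w7763
theorem v1487 : PV l1487 := r1487 v294 v207 v602 v773 w449 w7681 w7835 v636 w2941
theorem v1488 : PV l1488 := r1488 w3587 w3588 w3389 w7937 w7557 w7564
theorem v1489 : PV l1489 := r1489 v1163 w1229 v831 w5204 v288 w1232 w1071 w1400 w1401 w8107 w5208 w5209 w7762 w5525 w5526 w4586 v1487 w2056 w2055 v1488 v1486 w446 w7745 w7742 w7781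
theorem v1490 : PV l1490 := r1490 w6554 w7794
theorem v1491 : PV l1491 := r1491 v1436 v53 w7478
theorem v1492 : PV l1492 := r1492 w3595 w3591
theorem v1493 : PV l1493 := r1493 v288 v285 v283 v963 v962 v100 v1299 w7622 v348 v1456 w7414
theorem v1494 : PV l1494 := r1494 w7638 w7490
theorem v1495 : PV l1495 := r1495 w7893 w8225
theorem v1496 : PV l1496 := r1496 v732 w8322 w8127
theorem v1497 : PV l1497 := r1497 w8038 w8064
theorem v1498 : PV l1498 := r1498 w8568 w7035
theorem v1499 : PV l1499 := r1499 w8581 v628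
theorem v1500 : PV l1500 := r1500 v300 v299 v385 v382 v113 v114 v1498 v90 v1499
theorem v1501 : PV l1501 := r1501 v385 v382 v299 v300 v1500 v1159 v1157 w8536 v87 v88 w8554 w8553 v484 w8842 w8841
theorem v1502 : PV l1502 := r1502 v296 v386 v469 v111 v113 w8455 v83 w8476 w8475
theorem v1503 : PV l1503 := r1503 v1158 v1157 v304 v303 v385 v382 v87 v88 w8519 w8517 v484 w8810 w8809
theorem v1504 : PV l1504 := r1504 v469 v386 v1501 v296 v1502 v1157 v1503 v83 w8495 w8455 w8497
theorem v1505 : PV l1505 := r1505 w8316 w6514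
theorem v1506 : PV l1506 := r1506 v41 w8558
theorem v1507 : PV l1507 := r1507 w6538 w6388
theorem v1508 : PV l1508 := r1508 v1507 w6369 w6492
theorem v1509 : PV l1509 := r1509 v663 w7785
theorem v1510 : PV l1510 := r1510 v598 w7990
theorem v1511 : PV l1511 := r1511 v175 v174 w4308 w4309 w6492 v929 w6472 w6473
theorem v1512 : PV l1512 := r1512 v331 v798 v786 v1021 w4255 v1270
theorem v1513 : PV l1513 := r1513 v843 v801 v314 v249 w6496 w6476 v1055 w7176
theorem v1514 : PV l1514 := r1514 v1412 w4570 v801 w3122 w2797 v1513 v279 v1311 w6409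
theorem v1515 : PV l1515 := r1515 w6409 v523
theorem v1516 : PV l1516 := r1516 v1412 v428 v1260 v1259 w4570 v843 v801 v310 v279 v1515 v880 w6417 w9092 w6332 w7040
theorem v1517 : PV l1517 := r1517 v236 v241 v806 v917 v918 w6369 w6370
theorem v1518 : PV l1518 := r1518 w2778 v1412 w4570 v806 v801 w2703 v1516 v241 v249 v1517 v932 w6359 w6361 w3135 v1513
theorem v1519 : PV l1519 := r1519 v932 v236 v249 v241 v313 v841 v806 v801 w6359 w2905 w6361 w2768 w2778 w6358 v882 w6369 w7089
theorem v1520 : PV l1520 := r1520 w4569 w4570 v1055 v932 v249 v241 v314 v843 v806 v801 v1519 w6473 w6476 w2914 w6361 w7076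
theorem v1521 : PV l1521 := r1521 w4308 w4309 w4312 v1520 v326 w4566 v932 v236 v233 v249 v241 v309 v1222 v806 v801 w3125 w6473 w6476 w3227 w3209 v1511 w6472 w7183 v937
theorem v1522 : PV l1522 := r1522 v1055 v932 v249 v241 v314 w4312 w4309 w4308 v843 v806 v801 w4570 v1520 v1521 w6359 w6361 w3139 w6476 w7176
theorem v1523 : PV l1523 := r1523 v932 v249 v241 v806 v801 w6359 w2764 w6361
theorem v1524 : PV l1524 := r1524 v236 v233 v249 v241 v314 v306 w4312 w4309 w4308 w4232 v843 v806 v801 v932 v1055 v1522 v1250 v1412 v332 v878 v870 v1523 w6473 w2756 w2763 w6476 v1511 w6472 w2914 w6361 w2921 v933 v891 w7076 w6491 v489 v1175 w8942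
theorem v1525 : PV l1525 := r1525 v1524 v918 v233 v249 v241 w4312 w4309 v806 v801 w6493 v1511 w6496 w3209 w3227
theorem v1526 : PV l1526 := r1526 w4312 w4309 w4308 v806 v801 v241 v249 v1524 v918 v1525 v1517 w6370 w2778 w6373 w2768
theorem v1527 : PV l1527 := r1527 v880 v918 v917 v916 v1526 v279 v310 w4312 w4309 w4308 v843 v806 v801 v168 v172 w6370 w6369 w2778 w2760 w6492 w2768 w6491 w6332 w9027 v1312 v332 w2923 v1217 w7040 v1149 w9001
theorem v1528 : PV l1528 := r1528 v918 v917 v1526 v279 w4312 w4309 w4308 v806 v801 v1527 v176 w6330 w6332 w6329 w2768 w2778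
theorem v1529 : PV l1529 := r1529 v918 v917 v806 v801 v176 w6414 w6413 w6417 w3209 w3227
theorem v1530 : PV l1530 := r1530 v1526 v279 w4312 w4309 w4308 w4232 v806 v916 v917 v918 v1528 v1529 v168 v172 w6493 v1511 w2763 w2777 w6369 w2694 v870 w6368 v1412 v1516 w9110 w2707 v1270
theorem v1531 : PV l1531 := r1531 w7086 w7183
theorem v1532 : PV l1532 := r1532 w9120 w8945
theorem v1533 : PV l1533 := r1533 w8997 w8919
theorem v1534 : PV l1534 := r1534 v755 v751
theorem v1535 : PV l1535 := r1535 w8564 w8420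
theorem v1536 : PV l1536 := r1536 v1137 v1243 w1320 w1319 v1534 w5796 v1535 w2377 w8483 v1102 w3813
theorem v1537 : PV l1537 := r1537 w8584 w9117
theorem v1538 : PV l1538 := r1538 v114 v113 w5451 w5468 w8424 v382 v385 v1499 w8568 v897
theorem v1539 : PV l1539 := r1539 v1157 v624 v1502
theorem v1540 : PV l1540 := r1540 w2166 w2378 v1539 w5448 w8595 w8777 w3547
theorem v1541 : PV l1541 := r1541 v480 v1159 v385 w8827 w8825
theorem v1542 : PV l1542 := r1542 w549 w551 v746 w3813 w8776 w8465
theorem v1543 : PV l1543 := r1543 w585 w591 v1536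
theorem v1544 : PV l1544 := r1544 w2375 v1542
theorem v1545 : PV l1545 := r1545 v112 v476 w8536 w8389 v381
theorem v1546 : PV l1546 := r1546 w7133 v1137 v112 w1321 w1320 v1543 v85 v88 w552 v1540 w2117 w2123 v1544 w2116 v1545 w5159 v1541 v381 w8693 w8694
theorem v1547 : PV l1547 := r1547 v88 v114 v1137 v1242 v310 w2364 w2118 w2124 w2138 v1538 w5778 w5400 w7132 w3550 w8858 v629 w8862
theorem v1548 : PV l1548 := r1548 w3553 v33 v35 w5468 w8365 w7316
theorem v1549 : PV l1549 := r1549 v113 v310 w2138 v1547 v90 v1499 w7119 w7317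
theorem v1550 : PV l1550 := r1550 v1137 v1243 w2375 v1544 w585 w591 v755 v1102 w5796 w3813 w8483
theorem v1551 : PV l1551 := r1551 w585 w591 v1535 w5796 w8725 w8850 w3812
theorem v1552 : PV l1552 := r1552 w2375 w549 w551 v1544 v746 w1581 w3813 w8916 w8914 v1093 w8507
theorem v1553 : PV l1553 := r1553 v400 v113 v114 w1376 v1549 v1552 v90 w581 w585 v1548 w3795 w3502 w3506 v1499 v302 w2128 w7071 w8517 w8525 w8905
theorem v1554 : PV l1554 := r1554 v1445 w7696 w7780
theorem v1555 : PV l1555 := r1555 v400 w7133 v1137 w5843 w3857 v1553 v112 w1320 w1319 v1546 v1550 w2377 w2116 w2118 w2124 v1551 v85 v88 v1545 w5159 v1541 v381 w8693 w8694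
theorem v1556 : PV l1556 := r1556 v88 v85 v112 w5159 v1541 w8694 v381
theorem v1557 : PV l1557 := r1557 w8536 w8388
theorem v1558 : PV l1558 := r1558 v88 v1557 v1541 v1556 w8693
theorem v1559 : PV l1559 := r1559 v1137 w1320 w1319 v1550 w2377 w2116 w2118 w2124 v1558 v1543 v1551
theorem v1560 : PV l1560 := r1560 v1137 v1243 w1586 w8483 w8788 w5801
theorem v1561 : PV l1561 := r1561 w5796 w8820 w8818
theorem v1562 : PV l1562 := r1562 v311 v841 v400 v1223 w7133 w5506 w9002 w5843 w3857 v310 v843 w7122 w3581 v1555 v1559 v113 v114 w1376 v1549 w2375 v1552 v90 w585 w592 w591 v1548 w3506 w3813 w3810 v1499 w2139 v1560 w1581 v1561 w5798 w8529 w8527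
theorem v1563 : PV l1563 := r1563 w1581 w1338 v1548 w3813 v1561 w5798 w8529 w8527
theorem v1564 : PV l1564 := r1564 v1223 v843 v841 w2375 v1552 v90 w585 w592 w591 v1563 v1550 w1329 w1349 v1548 w3506 w3813 w3810 v1499 v1560 w2139
theorem v1565 : PV l1565 := r1565 w591 w585 v1535 w5796 v652 v751 v1551
theorem v1566 : PV l1566 := r1566 w581 v1565 w1576 v1537 v629 w8748
theorem v1567 : PV l1567 := r1567 v1137 v1242 w1581 w1320 v1538 w5798 w8955 v680
theorem v1568 : PV l1568 := r1568 v1137 v1242 v1223 w1319 w1128 v1538 w4803 w8955 w6412 v679 w8856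
theorem v1569 : PV l1569 := r1569 w3813 w8835 w8837
theorem v1570 : PV l1570 := r1570 w5798 v1569 w3811 w8703 w8705
theorem v1571 : PV l1571 := r1571 v1526 v311 w4311 v801 v279 w4312 v1530 v1515 v803 v924 v878 v523 w2776 w6408 v169 w4310 v177 w2774 v805 w6475 w6474 v925 w2759 w2762 v806 w2764 v1511 w6491 w9027 v1312 v332 v1222 v275 v928 v1531 w4507 v1149 v883 v841 v892 v1175 v276 v486 w8942 v400 v888 v1223 w7133 w1972 w355 w1156 v1533 w5506 w9002 v1137 v1242 w5843 w1974 w357 w1158 v1532 w3857 v398 w8886 w7378 v1150 w6537 w9047 w9059 w9100 v1055 v310 v843 v1562 w7320 w3581 v1564 w2364 w2377 w2116 w2118 w2124 w2138 w1936 v1566 v85 v88 v1066 w549 w551 v1567 v1568 v1570 w5451 v1538 w8536 v1545 w8388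
theorem v1572 : PV l1572 := r1572 w5451 v1538 v1504 v1545 w8388
theorem v1573 : PV l1573 := r1573 w7320 w7122
theorem v1574 : PV l1574 := r1574 v1526 v311 w4311 v801 v279 w4312 v1530 v1515 v803 v924 v878 v523 w2776 w6408 v169 w4310 v177 w2774 v805 w6475 w6474 v925 w2759 w2762 v806 w2764 v1511 w6491 w9027 v1312 v332 v1222 v275 v928 v1531 w4507 v1149 v883 v841 v892 v1175 v276 v486 w8942 v400 v888 v1223 w7133 w1972 w355 w1156 v1533 w5506 w9002 v843 v310 v1055 v1573 w3581 v1137 v1242 w1974 w357 w1158 v1532 w3857 v398 w7378 w6537 w9100 w2364 w2377 w2116 w2118 w2124 w2138 w1936 v1566 v85 v88 v1066 w549 w551 v1572 v1567 v1568 v1570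
theorem v1575 : PV l1575 := r1575 v1137 v1243 w1150 w1580 v755 v1505 w5796 w3167 w8483
theorem v1576 : PV l1576 := r1576 w8483 w8326
theorem v1577 : PV l1577 := r1577 w3813 v766 w8376
theorem v1578 : PV l1578 := r1578 w5796 v1576 v1577 w3812 w8529 w8527
theorem v1579 : PV l1579 := r1579 w8851 v631
theorem v1580 : PV l1580 := r1580 w5843 v843 v1526 v310 v1530 v1055 v801 v279 w4312 v1515 v1573 w4311 v803 v924 v878 v523 w2776 w6408 w1974 w4310 v177 w2774 v805 w6475 w6474 w357 v806 v169 w2762 w2764 v1511 w2759 v925 w6491 w1158 v1532 w3857 w1972 w355 w1156 v1533 v1222 v275 v928 v1531 v892 v1175 v276 v486 w8942 v398 w8886 w7378 v400 w9027 v1312 v332 w4507 v1150 v1149 w9047 v888 v883 w9059 v311 v1223 v841 w7133 w5506 w9002 v1571 w3581 v1574 w2375 w1962 v1552 v898 w585 w592 w591 v1575 v1578 w5795 w5798 v33 w3813 w3810 v1561 v1560 v1579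
theorem v1581 : PV l1581 := r1581 w789 w556 v1579 v1499 w5792 w1341 w8561
theorem v1582 : PV l1582 := r1582 w5792 w8546 w8574 w1577
theorem v1583 : PV l1583 := r1583 w1577 w8834 w8836
theorem v1584 : PV l1584 := r1584 w5843 w2134 w2368 w2371 v1581 w788 w790 v1582 w5790 w5784 v1583 w1568 w8863 w8862
theorem v1585 : PV l1585 := r1585 w8773 w8917
theorem v1586 : PV l1586 := r1586 w576 w589 w790 v1552 w3579 w8966 w3484 v1585 w5446 v1539 w8495
theorem v1587 : PV l1587 := r1587 w5776 w5790 w8479 w8525 w8482 w8526 w1577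
theorem v1588 : PV l1588 := r1588 w1577 w8786 w8788
theorem v1589 : PV l1589 := r1589 w5843 w3857 v1533 w3507 w3801 w3805 v1584 w2374 w2167 w2369 w2373 v1586 w786 w789 v1587 w5774 w5792 v1588 w1568 w8817 v1127
theorem v1590 : PV l1590 := r1590 w8682 w8626
theorem v1591 : PV l1591 := r1591 w3787 w3760 w3505 w3567 w9002 w7039 v667 w8479 w8525 w1577 w8526
theorem v1592 : PV l1592 := r1592 w1586 w8377 w8378
theorem v1593 : PV l1593 := r1593 w3815 w786 w789 v1590 w5801 w5795 w5792 w5787 v1591 w3797 v34 w795 v1592 w1585 v667 w8326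
theorem v1594 : PV l1594 := r1594 w8352 v627
theorem v1595 : PV l1595 := r1595 w2374 w2381 w2369 w2373 v1593 v759 v1594
theorem v1596 : PV l1596 := r1596 w3795 w3502 w8543 w8568 w1326
theorem v1597 : PV l1597 := r1597 w1317 w1326 w8424 w8423
theorem v1598 : PV l1598 := r1598 w3857 w3815 w5462 w5801 w5795 w5787 w5475 v1596 w3553 v34 w2377 v1597 w1571 w1574 w1576 v666
theorem v1599 : PV l1599 := r1599 w1574 w1154 w8704 w8688
theorem v1600 : PV l1600 := r1600 v806 w1158 w1936 w1937 v1599 w1125 w1129 w6488 w8730 v164 w8739 w1148 w8704 w8689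
theorem v1601 : PV l1601 := r1601 v1526 v279 w4311 v801 w4312 v1530 v1515 v803 v924 v878 v523 w2776 w6408 w1973 v841 v311 w1972 w9059 w4310 v177 w2774 v805 w6475 w6474 v883 w355 w356 w9047 v169 v925 w2759 w2762 v806 w2764 v1511 w6491 w9027 w1156 w1157 v1312 v332 v1222 v275 v928 v1531 w4507 v1149 v1150 v892 v1175 v276 v486 w8942 v398 w8886 v1533 w1974 w357 w1158 v1532 w3857 v843 v310 v1055 v1573 w5843 v1580 v840 v927 w6537 w7378 v1589 v1595 w2371 w2368 w2129 w2119 w3186 w3184 w3171 w3168 w3164 w3546 w5501 v400 w4308 v170 w6472 v932 w4309 w6406 w576 w338 w341 w347 w788 w589 w339 w796 w345 w790 w793 v1598 w5790 w4785 w4792 w4796 w4817 w4822 v1600 w1962 w1966 v746 w6487 w6488 w3796 w3795 w1122 w1125 w8834 v1277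
theorem v1602 : PV l1602 := r1602 w4843 w8751 w8724 w6404 w8708
theorem v1603 : PV l1603 := r1603 v843 v1526 v310 v1530 v1055 v801 v279 w4312 v1515 v1573 w4311 v803 v924 v878 v523 w2776 w6408 w1974 w4310 v177 w2774 v805 w6475 w6474 w357 v806 v169 w2762 w2764 v1511 w2759 v925 w6491 w1158 v1532 w3857 w1972 w355 w1156 v1533 v1222 v275 v928 v1531 v892 v1175 v276 v486 w8942 v398 w8886 w7378 w9027 v1312 v332 w4507 v1150 v1149 w1157 w6537 w9047 w356 v927 v883 w9059 w1973 w9100 v311 v841 v840 w5843 v1580 v1589 w3202 v1595 w1940 w2368 w2371 v1601 w786 w789 w311 v1602 w5792 w5787 v1537 w1568 w8561 w8417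
theorem v1604 : PV l1604 := r1604 w5789 w5792 v1537 w1568 w8561 w8417
theorem v1605 : PV l1605 := r1605 w786 w789 w311 v1604 v1579 v1602 w3202
theorem v1606 : PV l1606 := r1606 w3164 w3171 w3184 w3186 v1600
theorem v1607 : PV l1607 := r1607 v1222 w1317 w1129 v1538 w8730 w5782 v1583 w1572 w8863 v753
theorem v1608 : PV l1608 := r1608 w1571 w1576 w8543 v1570 w5779
theorem v1609 : PV l1609 := r1609 v1526 v279 v1530 v1055 v801 w4312 v1515 w4311 v803 v924 v878 v523 w2776 w6408 w1974 w4310 w2774 v177 v805 w6475 w6474 w9047 v169 v925 w2759 w2762 v806 w2764 v1511 w6491 w9027 w1156 v1222 v275 v928 v1531 v892 v1175 v276 v486 w8942 v398 w8886 v843 v310 v1573 v311 v1312 v332 w4507 v1149 v883 v841 v1603 w5504 w9002 w3581 v927 w9100 w356 w6537 w1158 w7378 w1972 w355 v1533 w1940 w1973 w2368 w2371 v1605 w589 v1552 w1937 w2377 w793 w790 w345 w796 w788 w347 w4308 v170 w6472 w341 w594 w338 w576 w2134 w2129 w2119 v1223 v888 v400 w5497 w8923 w357 v1532 w3857 w1157 w4785 w4796 w4817 w4822 v1606 w3507 w3801 w3805 v1608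 w1326 w1334 w1129 v1607 w2885 w8855 w8568 w8857 v485
theorem v1610 : PV l1610 := r1610 v843 v1526 v310 v1530 v1055 v801 v279 w4312 v1515 v1573 v311 w4311 v803 v924 v878 v523 w2776 w6408 v169 w4310 v177 w2774 v805 w6475 w6474 v925 w2759 w2762 v806 w2764 v1511 w6491 w9027 v1312 v332 v1222 v275 v928 v1531 w4507 v1149 v883 v841 v486 v1603 w5504 w9002 w3581 v1223 v888 v892 v1175 v276 w8942 v400 w5497 w8923 w1972 w355 w1156 v1533 w5501 v398 w8886 w7378 w1158 w6537 w9047 w356 v927 w1974 w1973 w9100 w2119 w2129 w2134 w1940 w2368 w2371 v1605 w575 w576 w589 v1552 w2116 v1609 w5462 w5795 v1538 v1557 v1545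
theorem v1611 : PV l1611 := r1611 v90 v1539 v113 v114 w8339 v382 v385 w8516 w8517
theorem v1612 : PV l1612 := r1612 v776 v896 v113 v114 v1503 v381 w3495 w8367 w8379 w8368 w8365 w1590 v1160 v392 w3560 w8483 w8474
theorem v1613 : PV l1613 := r1613 w5455 w5459 w5462 w5803 w5808 w5472 w5475 w5483 v1611 v775 w577 v1612 v110 v1157 v1502 v379 w8319 w8321
theorem v1614 : PV l1614 := r1614 v1222 w4311 v801 v1526 v279 w4312 v1530 v1515 v803 v924 v878 v523 w2776 w6408 v275 w2762 v806 w2764 v169 v1511 w4310 v177 w2774 v805 w6475 w6474 v928 v1531 v486 w1972 w355 w2759 v925 w6491 w1156 v1533 w5501 v892 v1175 v276 w8942 v398 w8886 v400 w9027 v1312 v332 w4507 v1150 v1149 w1157 w1158 w9047 w357 v888 v883 w9059 w1974 v274 v1055 v311 v310 v1223 v843 v841 v1532 w3857 v1573 v1603 w5504 w5497 w9002 w7328 w3581 v1610 w2374 w2384 w2381 w2162 w2165 w2167 w2179 w2180 w2181 w2369 w2373 v1552 w581 w582 w592 w591 v1613 v1590 w3801 w3805 w8788 w1577 w1574 w8819 w8817 w5776 w8526 w8525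
theorem v1615 : PV l1615 := r1615 w1577 w1574 w8819 w8817 w5776 w8526 w8525
theorem v1616 : PV l1616 := r1616 w3578 w3580 w3801 w3805 v1615 w8788 v1243 w7329 v1137 w5505 v1587 w5785 v1588 w8817 w1568 v1127
theorem v1617 : PV l1617 := r1617 w8819 w1577 v486 v1615 w8817 w3543 w3545 w5446 w5441 w8369 w8367
theorem v1618 : PV l1618 := r1618 v486 v1222 v805 w1316 w1121 w1130 w1579 w1318 w8819 w8806 w2730 w6486 v979 v1016 v1617 v644 w3542 w8681 w8376 w5440 w8369
theorem v1619 : PV l1619 := r1619 v400 v1223 v899 w581 w582 w585 w592 v1590 v1618 w8788 w7328 w5500 w5499 w8945 w5784 w8944 w5790 w3801 w3805 v1588 w8817 w1568 v1127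
theorem v1620 : PV l1620 := r1620 v644 v1222 v843 v497 v498 w5499 w7122 w5393 w5790 w3502 v1588 w7084 w1327
theorem v1621 : PV l1621 := r1621 w6367 w6486
theorem v1622 : PV l1622 := r1622 v310 v1223 w789 v1590 v1620 w8788 w7328
theorem v1623 : PV l1623 := r1623 v1526 v279 w4311 v801 w4312 v1530 v1515 v803 v924 v878 v523 w2776 w6408 w1972 w2373 w2369 v274 w2180 v275 w2167 v276 w2162 v177 w1967 v170 w1961 w2374 v1614 w2762 v806 w2764 v169 v1511 w4310 w2774 v805 w6475 w6474 w355 w2759 v925 w6491 w1156 v1533 v1222 v928 v1531 v892 v1175 v486 w8942 v398 w8886 v400 w9027 v1312 v332 w4507 v1150 w1157 w1158 w9047 w356 w357 v888 v883 w9059 w1974 w1973 v1055 w4785 w4817 v1619 v1064 w549 v746 v1621 w1121 v1622 w8775 v759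
theorem v1624 : PV l1624 := r1624 v88 v1539 v114 w8339 v385 w8495 w8493
theorem v1625 : PV l1625 := r1625 v391 v90 v116 w8517 w8516
theorem v1626 : PV l1626 := r1626 v896 v392 v1625 v115 w8473 w8474
theorem v1627 : PV l1627 := r1627 v385 v114 w8317 w8319
theorem v1628 : PV l1628 := r1628 v1222 w4311 v801 v1526 v279 w4312 v1530 v1515 v803 v924 v878 v523 w2776 w6408 v275 w2762 v806 w2764 v169 v1511 w4310 v177 w2774 v805 w6475 w6474 v928 v1531 v486 w1972 w355 w2759 v925 w6491 w1156 v1533 w5501 v892 v1175 v276 w8942 v398 w8886 v274 w2167 w2179 w2180 w2181 v1623 w5462 w5472 w5475 w5483 v1624 v1611 v1626 v385 v1627 v1159 w8365 w8367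
theorem v1629 : PV l1629 := r1629 v90 w8409 v116 w8439 v1499 w8438
theorem v1630 : PV l1630 := r1630 v90 v1629 v391 w8553 v1499 v117
theorem v1631 : PV l1631 := r1631 v391 w3551 w8568 v1158 w1327 w8533 w8561 w598
theorem v1632 : PV l1632 := r1632 w5462 w5792 w5475 w5483 v1630 v88 v1631 v385 v1597 w1376 w1386 v1557 w8386
theorem v1633 : PV l1633 := r1633 v480 v88 v385 v1597 w8424 w1386 v1557 w8386
theorem v1634 : PV l1634 := r1634 w2371 w2134 w2129 v398 v1222 v841 v840 w5393 w9002 w8922 v1633 v391 w3550 w3551 w8568 w3561 v1158 w1327 v1579 v1584 w594 w790 w5809 w8533 v1583 w5746 w5342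
theorem v1635 : PV l1635 := r1635 w1326 w8825 w8848 w8833
theorem v1636 : PV l1636 := r1636 v484 v391 w3550 v1635 v116 w8858 v1499 w8857
theorem v1637 : PV l1637 := r1637 v385 v88 v1159 w8732 w8733 w5365 w8424 w8923
theorem v1638 : PV l1638 := r1638 w2368 v311 w2134 w2129 w2119 v400 v1223 v1222 v88 v89 v1634 w5461 v1636 v385 v389 v1637 v114 v115 w8691 w8693 w5168 w5165 w8594 w8692
theorem v1639 : PV l1639 := r1639 w4311 v801 v1526 v279 w4312 v1530 v1515 v803 v924 v878 v523 w2776 w6408 v169 w4310 v177 w2774 v805 w6475 w6474 v925 w2759 w2762 v806 w2764 v1511 w6491 w9027 v1312 v332 w1157 w1156 w1158 w6537 v1175 w356 w355 v892 v928 v888 v927 v883 w1972 w1973 v276 v275 w9100 v1055 v311 v1222 v1531 v486 w4507 w8942 v1149 v398 w7378 v1533 w5501 v1628 w2119 w2129 w2134 w1940 w2371 v1632 v1638 v900 w592 v1579 w3202 v1602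
theorem v1640 : PV l1640 := r1640 w3202 v1602
theorem v1641 : PV l1641 := r1641 w8561 w8849
theorem v1642 : PV l1642 := r1642 w8584 v629
theorem v1643 : PV l1643 := r1643 v1640 v1579 v646 w3806 w3803 v1641 w1568 v1642
theorem v1644 : PV l1644 := r1644 v646 v1641 w3806
theorem v1645 : PV l1645 := r1645 v1642 w1568 w1574 w8419 v1644 w8848 v642 w8561 w3805 w3794
theorem v1646 : PV l1646 := r1646 w1155 w8416 w8721 w4840 w8708
theorem v1647 : PV l1647 := r1647 w1156 v806 w1158 v900 w581 w582 w592 v1643 v1645 w3185 v1646 w1131 w8748 w8444 w6404 w8435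
theorem v1648 : PV l1648 := r1648 w786 w789 w311 v1645 w3185 w8748 w8444 w6404 w8435
theorem v1649 : PV l1649 := r1649 w3802 w3792 w8429 w1577 w8397 v671
theorem v1650 : PV l1650 := r1650 w3808 w8429 w1577 w8397 v671
theorem v1651 : PV l1651 := r1651 v642 w8428 v1649 v1650 w8546 w1577 w8576 w8574 w8429
theorem v1652 : PV l1652 := r1652 w3185 v1651 w4840 w8737 w8729
theorem v1653 : PV l1653 := r1653 w8546 w3822 w1589 w8576 w8578
theorem v1654 : PV l1654 := r1654 w1589 w8431 w8433
theorem v1655 : PV l1655 := r1655 w788 w4840 w4790 w5789 w5787 w8862 w8945 w5807 w8997 w8854 w2733 w6488 w1964 v1653 w3821 v1654 w1588 v671 w8401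
theorem v1656 : PV l1656 := r1656 w9002 w9169
theorem v1657 : PV l1657 := r1657 v623 w8594
theorem v1658 : PV l1658 := r1658 v1222 w1334 w1326 v841 w9002 w3500 v1656 w5505 w8857 w7183 v484 w3483 w8568
theorem v1659 : PV l1659 := r1659 w1326 v88 v479 v484 w8568 v385 v1597
theorem v1660 : PV l1660 := r1660 w1131 w1125 v1222 w1334 v1530 v1055 w4312 v801 v1526 v279 v1515 v523 v878 w2759 w9100 w4311 v803 v924 w2776 w6408 w1972 w2762 v806 w2764 v169 v1511 w4310 v177 w2774 v805 w6475 w6474 v883 v928 v892 w355 v925 w6491 w6537 v1639 w1940 w1973 w2368 w2371 v1647 w552 v311 w2134 w2129 w2119 w1157 w1156 w1158 w356 w357 v927 w4308 v170 w6472 w1974 v274 v932 w4309 w6406 v310 v843 v841 v840 v1648 w594 w341 w349 w788 w790 v1652 v1655 v642 w8573 v1659 w5494 w5485 w7122 w7185 w3504 v403 w8857 v1656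
theorem v1661 : PV l1661 := r1661 w590 v1222 w5785 w8573 v1658 v1659 v396 w5477 w7183
theorem v1662 : PV l1662 := r1662 v1222 w1334 w2134 w2129 v841 v840 v1659 v1656 w8731 v403 w3568 w7185 w5485 w8863 v1583
theorem v1663 : PV l1663 := r1663 w4310 v1660 w4822 w4817 w4308 w4796 w4792 w4785 w4312 w4843 w1131 w1125 v1222 w1326 v801 v1526 v279 v1530 v1515 v523 v878 w2759 w9100 w4311 v803 v924 w2776 w6408 w1972 w2762 v806 w2764 v169 v1511 v177 w2774 v805 w6475 w6474 v883 v928 v892 w355 v925 w6491 w6537 v1639 w1940 w1973 w2368 w2371 v1647 v1066 v1064 v311 w2134 w2129 w2119 w9027 v1312 v332 w1157 w357 v888 v927 v275 v274 v932 w4309 w6406 v1223 v1642 w785 w590 w340 w344 w346 w778 v1661 w8862 w8854 w2733 w8729 w6488 w1966 v1606 v1662 v1149 w4508 w4460 w9171 v1637 w8858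
theorem v1664 : PV l1664 := r1664 w4508 v1218 w4460 w9171 v1637 w8858
theorem v1665 : PV l1665 := r1665 w4312 v801 v1526 v279 v1530 v1515 v523 v878 w2759 w9100 w4311 v803 v924 w2776 w6408 w1972 w2762 v806 w2764 v169 v1511 w4310 v177 w2774 v805 w6475 w6474 v883 v928 v892 w355 v925 w6491 w6537 v1639 w1940 w1973 w2368 w2371 v1647 v1066 v1064 v311 w2134 w2129 w2119 w9027 v1312 v332 w1157 v888 v927 v274 v932 w4309 w6406 w4308 v1223 v1222 w1326 w1334 w1125 w1131 v1660 w4843 w4785 w4792 w4796 w4817 w4822 v1663 w3170 w3185 w6404 w8729 v939 v940 v895 w310 w311 w6488 w1966 v1606 v1664 v1149 v1659 v1662 w8731 w8857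
theorem v1666 : PV l1666 := r1666 w2368 v1063 w553 w556 w8687 w8704 w8701 w3802 w3761 w8836 w5785 w9119 w3818 w5804 w8837 w2161 w2178 v1657 w3461 w8758 w8455 v470
theorem v1667 : PV l1667 := r1667 w4843 w1155 v1175 w1385 w1374 w2368 w3185 v1666 v895 w593 v1646
theorem v1668 : PV l1668 := r1668 v895 w593 w597 w598 v1643
theorem v1669 : PV l1669 := r1669 w3805 w3794
theorem v1670 : PV l1670 := r1670 w1155 w1576 w1574 w1568 w2371 w2368 w4843 v1667 v1668 v1063 w554 w553 w556 w8543 v1277 w8823 w8687 w8704 v1669 v1583 w5776 w5791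
theorem v1671 : PV l1671 := r1671 v743 w8456 w8067
theorem v1672 : PV l1672 := r1672 v1671 v640 w8113 w8018
theorem v1673 : PV l1673 := r1673 w7770 v50
theorem v1674 : PV l1674 := r1674 w7785 w7808
theorem v1675 : PV l1675 := r1675 w1517 w1106 v1673 w733 w290 v604 v1510 w2285 w2278 w2297 w8075 w4662 w4622 w4625 w7924 w3696 v1674 w7766 v1105 w7748 w685 w678
theorem v1676 : PV l1676 := r1676 v1312 v331 w2846 w3403 w3404 v1672 v1675 v743 w7732 w7812
theorem v1677 : PV l1677 := r1677 v56 v673 w5306 w511 w519 w7914 v109 w1288 w1289 w8278 w5263 w5264 w7982 w7962 v675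
theorem v1678 : PV l1678 := r1678 w290 w296 w7922 w4626 w4635 w8075 w8241 w2712
theorem v1679 : PV l1679 := r1679 w2285 w2278 w2281 w1908 w1907 w2299 w2072 w2069 w2073 v1677 w1524 w1305 w1106 w1113 v1678 v674 w5711 w7927 w495 w737 w730 w8259 w5269 w5270 w7981 w7944 v1105
theorem v1680 : PV l1680 := r1680 w7847 w8182
theorem v1681 : PV l1681 := r1681 w7895 w7867
theorem v1682 : PV l1682 := r1682 w1522 w1520 w1106 v1680 w739 w735 w290 w8164 v1510 w5709 w5706 w8155 w7926 w7925 w4622 w4625 w2298 w2291 v1681 v1071 v1105 w7826 w685 w678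
theorem v1683 : PV l1683 := r1683 v1682 v56 w7899 w7871
theorem v1684 : PV l1684 := r1684 w1442 w1482 w1290 w1107 w1448 w8502 w7913 v1510 w701 w2071 w8155 w7825 w4624
theorem v1685 : PV l1685 := r1685 w2298 w2294 w7870 v675 w7896 w7844
theorem v1686 : PV l1686 := r1686 w4623 w4625 v1685 w2320 w2318 w7926 w7962 w1512 v675 w7982
theorem v1687 : PV l1687 := r1687 w6485 w8191
theorem v1688 : PV l1688 := r1688 w8536 w3445 w3444 w3443 w3442 w2356 v56 w5709 w5309 w7899 w739 w512 w290 v1684 v1686 v1687 v1510 w8155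
theorem v1689 : PV l1689 := r1689 w8536 w3445 w3443 w3442 v1683 v1688 w1522 w1106 v1680 w739 w290 w8164 v1510 w5709 w8155 w7926 w4623 w4625 v1686 w2298 w2294 w7826 v675 w7896 w7844
theorem v1690 : PV l1690 := r1690 w1521 w1287 w1107 w8168 v1510 w5436 w8155 w7914 w4625 w2068 w7826 w7846
theorem v1691 : PV l1691 := r1691 w8459 w8502
theorem v1692 : PV l1692 := r1692 w7962 w7870
theorem v1693 : PV l1693 := r1693 w741 w511 w290 v1690 w705 w1481 w1470 v56 v1692 w5620 w5607 v59 w8202 w8285
theorem v1694 : PV l1694 := r1694 v56 w7899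
theorem v1695 : PV l1695 := r1695 w736 w510 w291 v1690
theorem v1696 : PV l1696 := r1696 v954 w277 v1690
theorem v1697 : PV l1697 := r1697 w8265 v616
theorem v1698 : PV l1698 := r1698 v750 v1697
theorem v1699 : PV l1699 := r1699 v1695 v1696 w292 v1698 w5640 w7944 w7846
theorem v1700 : PV l1700 := r1700 w8459 w8478
theorem v1701 : PV l1701 := r1701 w8536 v668 w2356 v1055 v1676 v369 v373 v374 w3529 w3528 w3530 w3441 w3442 w3443 w3445 v1679 w2322 w1923 v1689 v1699 v1700 w1481 v56 v1694 v1092 v1693 v1691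
theorem v1702 : PV l1702 := r1702 v56 v1694 w8715
theorem v1703 : PV l1703 := r1703 w1481 v1105 w8459 w1465 v1700 v1680 w735 w290 w701 w8164 v1510 w5706 w8155 w7925 w4624 w2295 w8716
theorem v1704 : PV l1704 := r1704 w8536 v1055 v369 v373 v374 w3529 w3528 w3530 w3441 w3442 w3443 w3444 w3445 v1679 w2322 w1923 v1702 w1522 w1520 w1106 v1703 v1699 v1680 w739 w290 w8164 v1510 w5709 w8155 w7926 w4623 w4625 w2298 w2294 w7826 v675 w7844 w7896
theorem v1705 : PV l1705 := r1705 v1510 w6510 w7677
theorem v1706 : PV l1706 := r1706 v948 v991 v1349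
theorem v1707 : PV l1707 := r1707 v1675 v743 w7812
theorem v1708 : PV l1708 := r1708 w4783 v207 w1954 w1923 v1706 w277 v1707 w5677 w8091 w8131
theorem v1709 : PV l1709 := r1709 v668 w2356 v1312 v335 v1273 v430 w4790 w4783 v336 v331 v1701 v1704 v368 w2846 w2857 w3425 w3403 w3404 v1708 w1907 v1705 w1106 v743 v1671 w8828
theorem v1710 : PV l1710 := r1710 w1907 v1705 w1106 v743 v1671 w8828
theorem v1711 : PV l1711 := r1711 v814 v830 w7782 v774 w6399 w7796
theorem v1712 : PV l1712 := r1712 w7811 w704 w696 w8831 v744 w1467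
theorem v1713 : PV l1713 := r1713 v743 v1712 w1444 w1480 w7748 w1447 w8831 w7767 w698
theorem v1714 : PV l1714 := r1714 w7748 v675 w683 w7767 w679 w677 w1447 w7766 w7807 w1438
theorem v1715 : PV l1715 := r1715 w4311 v801 v1526 v279 w4312 v1530 v1515 v803 v924 v878 v523 w2776 w6408 v169 w1955 w1956 w1957 v209 v208 v207 v206 v155 v389 w3404 w3403 w4310 v177 w2774 v805 w6475 w6474 v925 w2759 w2762 v806 w2764 v1511 w6491 w9027 v1312 v332 w2849 v331 w2846 v368 v366 v1639 w9047 w355 v927 v1222 w5709 w5706 w5297 w5306 w5309 v1711 v1196 w1092 w1091 w7761 w7772 w7771 v1012 v990 v868 w744 w574 w7781 w8075 w7780 w1264 w4662 w4595 w4622 w4621 w4623 w4625 v1161 w7924 w7910 w3696 w3698 w3410 v1713 w7770 v1714 w1481 w1449 v1105 w8459 w1438 w7785 w7807 w689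
theorem v1716 : PV l1716 := r1716 v1526 v279 w4311 v801 w4312 v1530 v1515 v803 v924 v878 v523 w2776 w6408 w1973 w2368 w4310 v177 w2774 v805 w6475 w6474 w355 w788 v1665 w8543 v169 w2762 v806 w2764 v1511 w2759 v925 w6491 v1175 w1386 w9100 w1972 v883 v928 v892 w6537 v1639 w1940 w2371 v1647 v1277 v311 w2129 w9027 v89 w1385 v274 w1158 w1576 v1055 w551 v276 v888 w356 w1156 w1157 v84 v1670 w1574 w8546 w3786 w3775 v671 w5788 w5801 w8400 w2178 v1657 v389 w8825 w5374 v275 v1222 w790 w1568 v841 w3557 w9002 w5391 w8397 w2164 w1375 v85 v474 w8454 w3473 w8886 w2377 w1571 w5392 w7039 v668 w3782 w2134 w1388 v927 w594 v390 w8533 w5170 v1242 v1312 v332 w4786 w4460 v1150 w4783 w4454 w5341 v480 v471 w3562 w2360 w2356 w3776 w1583 w552 w5789 w5807 w8401 w1960 w5767 w5738 w3759 w4790 w349 w3202 w1155 w8383 w8687 w1152 w1149 v336 v331 w9047 w9059 v932 w2855 w2846 w3425 w3422 w3421 w3404 v1710 v156 w1954 w1928 w1923 w1924 w1926 w1927 v1715 w5677 w4638 v1671 v1672 w1524 w1114 w8091 w8097 w276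
theorem v1717 : PV l1717 := r1717 v1526 v279 w4311 v801 w4312 v1530 v1515 v803 v924 v878 v523 w2776 w6408 w1973 w2368 w4310 v177 w2774 v805 w6475 w6474 w355 w788 v1665 w8543 v169 w2762 v806 w2764 v1511 w2759 v925 w6491 v1175 w1386 w9100 w1972 v883 v928 v892 w6537 v1639 w1940 w2371 v1647 v1277 v311 w2129 w9027 v89 w1385 v274 w1158 w1576 v1055 w551 v276 v888 w356 w1156 w1157 v84 v1670 w1574 w8546 w3786 w3775 v671 w5788 w5801 w8400 w2178 v1657 v389 w8825 w5374 v275 v1222 w790 w1568 v841 w3557 w9002 w5391 w8397 w2164 w1375 v85 v474 w8454 w3473 w7378 w8886 w2377 w1571 w5392 w7039 v668 w3782 w2134 w1388 v927 w594 v390 w8533 w5170 v1243 v1242 v1223 w5378 w9004 v1312 v332 w4786 w4460 v1150 w2119 w1376 v88 v480 w8536 w5341 v1656 w3562 w2356 w3776 w1583 w552 w5789 w5807 w8401 w2362 w1960 w5767 w5738 w3804 w5787 w9134 w8897 w4790 w4783 w349 w3202 w1155 w8383 w8687 w6448 w9145 w4308 v170 w6472 w341 w1152 w1149 w549 v1064 w9047 w9059 v1709 v1716 v369 v373 v374 w3529 w3528 w3530 w3441 w3442 w3443 w3445 v1704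 v1679 w2322 w1923 v40 v1689 v1699 v1700 w1481 v1694 w7871 v1691 v1693
theorem v1718 : PV l1718 := r1718 w8536 w2356 v1055 v369 v373 v374 w3529 w3528 w3530 w3441 w3442 w3443 w3445 v1704 v1679 w2322 w1923 v1689 v1699 v1700 w1481 v56 v1694 w7871 v1691 v1693
theorem v1719 : PV l1719 := r1719 w7708 w8828
theorem v1720 : PV l1720 := r1720 w1907 v1705 w1106 v1719 w8042 w8067
theorem v1721 : PV l1721 := r1721 w5677 w4635 v735 w741 w296 w8091 w8118 w1094
theorem v1722 : PV l1722 := r1722 w4311 v801 v1526 v279 w4312 v1530 v1515 v803 v924 v878 v523 w2776 w6408 v169 w1955 w1954 w1957 v207 v206 v155 w5738 w3759 w4790 w4783 v1639 w4310 v177 w2774 v805 w6475 w6474 v925 w2759 w2762 v806 w2764 v1511 w6491 w6537 w355 w9100 v1222 v1721 w5709 w5297 w5306 w7788 w7812 v1711 v1196 w1092 w7761 w7772 v1012 v990 w744 w7781 w8075 w1264 w4662 w4622 w4625 w7924 w3696 v1712 v45 w1479 w7766 w8830 w699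
theorem v1723 : PV l1723 := r1723 w8459 w8736
theorem v1724 : PV l1724 := r1724 w7770 w8113 w5677 w4638 w8091 w8097 w276
theorem v1725 : PV l1725 := r1725 v1526 v279 w4311 v801 w4312 v1530 v1515 v803 v924 v878 v523 w2776 w6408 w1973 w2368 w4310 v177 w2774 v805 w6475 w6474 w355 w788 v1665 w8543 v169 w2762 v806 w2764 v1511 w2759 v925 w6491 v1175 w1386 w9100 w1972 v883 v928 v892 w6537 v1639 w1940 w2371 v1647 v1277 v311 w2129 w9027 v89 w1385 v274 w1158 w1576 v1055 w551 v276 v888 w356 w1156 w1157 v84 v1670 w1574 w8546 w3786 w3775 v671 w5788 w5801 w8400 w2178 v1657 v389 w8825 w5374 v275 v1222 w790 w1568 v841 w3557 w9002 w5391 w8397 w2164 w1375 v85 v474 w8454 w3473 w7378 w8886 w2377 w1571 w5392 w7039 v668 w3782 w2134 w1388 v927 w594 v390 w8533 w5170 v1243 v1242 v1223 w5378 w9004 v1312 v332 w4786 w4460 v1150 w5341 v480 v471 v1656 w3562 w2360 w2356 w3776 w1583 w552 w5789 w5807 w8401 w2362 w1960 w5767 w5738 w3804 w5787 w9134 w4790 w4783 w349 w3202 w1155 w8383 w8687 w6448 w9145 w4308 v170 w6472 w341 w1152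 w1149 w1376 w549 v1064 v88 w2119 v336 v331 w9047 w9059 v932 v1717 v1718 v366 v368 w2855 w2846 w2849 w3425 w3422 w3403 w3404 v1720 v156 w1958 w1957 w1954 w1928 w1923 w1924 w1926 w1927 v1722 w1524 w1514 w1517 w1106 w1114 v1723 w1481 v1724 w733 w729 w290 w8087 w8075 v1675 w4662 w4661 w4622 w4621 w4623 w4625 w7924 w7923 w3696 w3698 w3687 v1714
theorem v1726 : PV l1726 := r1726 w4311 v801 v1526 v279 w4312 v1530 v1515 v803 v924 v878 v523 w2776 w6408 v169 w2762 v806 w2764 v1511 w2759 w4310 v177 w2774 v805 w6475 w6474 v925 w6491 v1665 w1152 w1114 w1149 w1106 w1517 w1514 w1158 w1571 w1524 v1055 w9100 v274 v276 w1973 w1972 v883 v888 w355 w356 w6537 w9027 w1156 w1157 v1639 w1940 v928 v892 w2368 w2371 v1647 v84 v89 w551 v1670 w1574 w8546 w1576 w3786 w3775 v671 w788 w8543 w5788 w5801 w8400 w2377 v1175 w1386 v1277 v311 w2129 w1385 w2178 v1657 v389 w8825 v841 w3557 w9002 w5392 w7039 v668 w3782 w2134 w1388 v927 w594 v390 w8533 w5170 v1242 w5341 w3562 w2356 w3776 w1583 w552 w5789 w5807 w8401 w2362 w1960 w4790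 w4783 w349 w3202 w1155 w8383 w8687 v1064 v1312 v336 v331 v932 w2855 w2846 w3425 w3403 w3404 v1705 v156 w1958 w1957 w1954 w1928 w1923 w1924 w1926 w1927 v1724 w733 w729 w290 w8087 w8075 v1675 w4662 w4661 w4622 w4621 w4623 w4625 v1716 w7924 w7923 v1723 w3696 w3698 w3687 w1481 v1714
theorem v1727 : PV l1727 := r1727 w8154 w7817
theorem v1728 : PV l1728 := r1728 v1700 w1481 w7944 w7846
theorem v1729 : PV l1729 := r1729 v1725 v1526 v279 w4311 v801 w4312 v1530 v1515 v803 v924 v878 v523 w2776 w6408 w1973 w2368 w4310 v177 w2774 v805 w6475 w6474 w355 w788 v1665 w8543 v169 w2762 v806 w2764 v1511 w2759 v925 w6491 v1175 w1386 w9100 w1972 v883 v928 v892 w6537 v1639 w1940 w2371 v1647 v1277 v311 w2129 w9027 v89 w1385 v274 w1158 w1576 v1055 w551 v276 v888 w356 w1156 w1157 v84 v1670 w1574 w8546 w3786 w3775 v671 w5788 w5801 w8400 w2178 v1657 v389 w8825 w5374 v275 v1222 w790 w1568 v841 w3557 w9002 w5391 w8397 w2164 w1375 v85 v474 w8454 w3473 w7378 w2377 w1571 w5392 w7039 v668 w3782 w2134 w1388 v927 w594 v390 w8533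 w5170 v1243 v1223 w5378 w9004 w2119 w1376 v88 v480 w8536 w5341 v1656 w2356 w3776 w1583 w552 w5789 w5807 w8401 w2362 v932 w4309 w6406 w1964 w1960 w5767 w5738 w3804 w5787 w9134 w4790 w4783 w349 w3202 w1155 w8383 w8687 w9145 w4308 v170 w6472 w341 w1152 w1149 w549 v1065 v1064 w1106 w1113 v1726 v369 v373 v374 w3528 w3441 w3442 w3443 w3445 v1679 w1923 w1929 v1705 w2712 v1727 w293 w294 w296 v1698 w5640 v1728 v1680
theorem v1730 : PV l1730 := r1730 w2999 v1720
theorem v1731 : PV l1731 := r1731 v1705 w6485 w7694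
theorem v1732 : PV l1732 := r1732 w1923 w1929 v1730 w3703 w3683 v56 v1694 w731 w290 w296 w7871 v1691 w705 v1731 w2712 v1727 w1145 w1111 v1692 w5672 w8207 w8290
theorem v1733 : PV l1733 := r1733 w2853 w2847 w2999 w3000 w3002 v1677
theorem v1734 : PV l1734 := r1734 w3401 w3411 w3680 w3683 v1677
theorem v1735 : PV l1735 := r1735 w4310 w4311 v801 v1526 v279 w4312 v1530 v1515 v803 v924 v878 v523 w2776 w6408 v177 w2774 v805 w6475 w6474 w349 v1055 w2759 w9100 v274 v276 w1973 w1972 w2762 v806 w2764 v169 v1511 v883 v888 w355 w356 v925 w6491 w6537 w9027 w1158 w1156 w1157 v1639 w1940 v928 v892 w2368 w2371 v1647 v84 v89 w551 v1665 v1670 w1574 w8546 w3202 w1155 v671 w8383 w8687 w6448 w3171 w3164 w790 w788 w4308 v170 w6472 w341 v927 w594 w1151 w1149 v1175 w1388 w1386 w1385 w1376 w1375 w1374 w1576 w1583 w1571 w1568 w552 v1064 v88 v85 v311 w2134 w2129 w2119 v1312 v336 v335 v331 w9047 w9059 v275 v932 w4309 w6406 v1222 v841 w8543 v1277 w3786 w3804 w5789 w5788 w5787 w5767 v1273 w3775 w3776 w5807 w5801 w9134 v430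 w8401 w8400 w1960 w1964 w2160 w2362 w2377 w2164 w2178 w2356 w2360 v1657 v389 v390 w3557 w8825 w8533 w9002 w7039 v1656 v471 v474 v480 w5374 w5341 w5170 w5391 w5392 v668 w8455 w8454 w8536 v1242 w8397 w3782 w3473 w8886 v1725 v1729 v1732 w2285 w2278 w2281 w1907 w2072 w2069 v1733 v1734 w3434 w3440 w3442 w3011 w3032 w3684 w3736 w3737 v1722 v1716 v1708
theorem v1736 : PV l1736 := r1736 w4312 v1530 v1055 v801 v1526 v279 v1515 v523 v878 w2759 w9100 w4311 v803 v924 w2776 w6408 v274 v276 w1973 w1972 w6475 w2762 v806 w2764 v169 v1511 w4310 v177 w2774 v805 w6474 v883 v888 w355 w356 v925 w6491 w6537 w9027 w1158 w1156 w1157 v1639 w1940 v928 v892 w2368 w2371 v1647 v84 v89 w551 v1665 v1670 w1155 w1574 w1568 w349 w788 w790 w8546 w3202 v671 w8383 w8687 v1735 w8701 v642 w8397 w3808 w3792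
theorem v1737 : PV l1737 := r1737 w786 w789 w311 v1645 v1646 w3185
theorem v1738 : PV l1738 := r1738 v1639 w4311 v801 v1526 v279 w4312 v1530 v1515 v803 v924 v878 v523 w2776 w6408 v169 w4310 v177 w2774 v805 w6475 w6474 v925 w2759 w2762 v806 w2764 v1511 w6491 w9027 v1312 v336 w1157 w1156 w1158 w6537 v1175 w356 w355 v892 v928 v888 v883 w1972 w1973 v276 v274 w9100 v1055 v311 w2119 w2129 w1940 w2368 w2371 v1647 v84 v88 v89 w551 v1665 w1574 w1376 w1155 v1670 v1737 w349 w8546 v1736 w3202 v671 v1145 w8383 w4492 w8687 v1541 w8693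
theorem v1739 : PV l1739 := r1739 w4311 v801 v1526 v279 w4312 v1530 v1515 v803 v924 v878 v523 w2776 w6408 v169 w4310 v177 w2774 v805 w6475 w6474 v925 w2759 w2762 v806 w2764 v1511 w6491 w9027 v1312 v332 v928 v888 v275 v1223 v1222 w4508 w4507 v1218 w9171 w7183 v397
theorem v1740 : PV l1740 := r1740 w576 w589 v1539 v1544 w8595 w8759
theorem v1741 : PV l1741 := r1741 v403 w3579 v399 w1574 w1576 w1376 v1740 w786 w789 w8482 v1616
theorem v1742 : PV l1742 := r1742 v403 v399 w786 w789 v1587 v1616 w5792
theorem v1743 : PV l1743 := r1743 w5445 w5475 v1624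
theorem v1744 : PV l1744 := r1744 v399 w2373 w2369 w2374 v311 v310 v1223 v1222 v843 v841 v497 v498 w5498 w5499 w7133 w7122 w8944 v1595 w3805 w3802 w3507 v1741 w1326 w1334 v1742 w594 w589 w793 v746 w3502 v1743 w5404 w5393 w8792 w8793
theorem v1745 : PV l1745 := r1745 w1326 w8798 w8793
theorem v1746 : PV l1746 := r1746 w1568 w8772 w8773
theorem v1747 : PV l1747 := r1747 v486 w5464 w5461 v1746 w1326 v1745 w7182
theorem v1748 : PV l1748 := r1748 w788 w589 w790 w793 v769 v1743 v746 v759 v644 v1747 v480 v1624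
theorem v1749 : PV l1749 := r1749 v1530 v932 v1222 v801 v1526 v279 w4312 v1515 v523 v878 w2762 v806 w2764 w4311 v803 v924 w2776 w6408 v169 v1511 w4310 v177 w2774 v805 w6475 w6474 v927 w355 w9047 v925 w2759 w6491 w9027 w1158 v1738 w1972 w2374 v275 w2167 v274 w2180 w2369 w2373 v928 v396 w7183 w8886 v840 v403 w7185 v1748 w307 v399 v888 v1223 v1055 w1973 w1974 w9059 v883 w356 v1175 w1156 w1157 w2181 v1312 v332 v1739 v1149 v1150 v1744 w7328 v170 w1961 w4309 w6406 w1965 w4308 v1064 v1743 w4785 w4796 v1590 w8788 w1121 w1126 w8819 w6486 w8807 w2729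
theorem v1750 : PV l1750 := r1750 w4310 w4311 v801 v1526 v279 w4312 v1530 v1515 v803 v924 v878 v523 w2776 w6408 v177 w2774 v805 w6475 w6474 v883 v1749 w591 v1222 w2762 v806 w2764 v169 v1511 v927 w355 w9047 v925 w2759 w6491 w9027 w1158 v1738 w1972 w2374 v275 w2167 v274 w2180 w2369 w2373 v928 v396 w7183 w8886 v840 v403 w7185 v1748 v399 v888 v1223 v1055 w1973 w1974 w9059 w356 v1175 w1156 w1157 w2181 v1312 v332 v1739 v1149 v1150 v1744 w7328 v395 v276 w2162 w1967 v170 w1961 w2381 w357 v892 w4785 w4817 w8788 v1619 w1586 w8819 w8997 w5802 w8820 w3816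
theorem v1751 : PV l1751 := r1751 w4310 w4311 v801 v1526 v279 w4312 v1530 v1515 v803 v924 v878 v523 w2776 w6408 v177 w2774 v805 w6475 w6474 v883 w592 v888 w585 v928 w582 v892 v169 w2762 v806 w2764 v1511 w2759 v925 w6491 v1175 v276 v486 w8942 v400 v398 w9027 v1312 v332 v1739 v1150 w1972 v1738 w2373 w2369 v275 w2167 w2162 w1967 v170 w1961 w2374 w1157 w1156 w1158 w356 w357 w9059 w1974 w1973 v1223 w4785 w4817 v1750 v1619 w3575 w3576 w5794 w5791 w5498 w3805 w3809 v1588 w7328 w8817 w8818 w8787
theorem v1752 : PV l1752 := r1752 v406 w3486 w3481 v1502 v1157 v1503 v86 w8495 w8454 w8496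
theorem v1753 : PV l1753 := r1753 w4311 v801 v1526 v279 w4312 v1530 v1515 v803 v924 v878 v523 w2776 w6408 v275 v1222 w4310 v177 w2774 v805 w6475 w6474 v928 v892 v169 w2762 v806 w2764 v1511 w2759 v925 w6491 v1175 v276 v486 w8942 v398 w8886 v274 v1738 w2181 w2180 w2179 w2167 w2165 v927 v840 v1751 w5443 w5445 v1752 v403 w7185 w5472 w5475 w5483 v1626 v1611 v385 v1627 w8365 v1159 w8367
theorem v1754 : PV l1754 := r1754 v90 v403 w3561 w3567 w7185 w5475 w5483 v1611 v1627 v116 w8365 w8364
theorem v1755 : PV l1755 := r1755 w4311 v801 v1526 v279 w4312 v1530 v1515 v803 v924 v878 v523 w2776 w6408 v275 v1222 w4310 v177 w2774 v805 w6475 w6474 v928 v892 v169 w2762 v806 w2764 v1511 w2759 v925 w6491 v1175 v276 v486 w8942 v398 w8886 w9027 v1312 v332 v1739 v1150 v1149 v274 v1738 w2181 w2180 w2167 w1972 w2381 w1156 v927 v883 w9059 v311 v841 v840 w592 w591 v1753 v1590 w3546 w5445 v1754 w9002 w7039 w3487 w5381 v667 v1592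
theorem v1756 : PV l1756 := r1756 v1539 w8339
theorem v1757 : PV l1757 := r1757 v1756 w8595 w8646
theorem v1758 : PV l1758 := r1758 v480 v88 v114 w8795 w8793
theorem v1759 : PV l1759 := r1759 v387 v88 v85 v1758 v112 w8759 w8454 w8760
theorem v1760 : PV l1760 := r1760 w4311 v801 v1526 v279 w4312 v1530 v1515 v803 v924 v878 v523 w2776 w6408 v274 v1738 w2180 v275 w2167 w2165 w1972 w2374 v169 w4310 v177 w2774 v805 w6475 w6474 v925 w2759 w2762 v806 w2764 v1511 w6491 w9027 v1175 w9047 v892 v928 v276 v1055 v1222 v486 w8942 v398 w8886 v1755 v88 w549 v1749 v746 v405 w3502 v1757 w3546 v1759 v476 v1752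
theorem v1761 : PV l1761 := r1761 v1064 v1065 w6486 w6487 w8334 w4687 v1624
theorem v1762 : PV l1762 := r1762 v492 v476 w5357 w5359 w5381 v1752 v667 w3164 w3168 w1121 w1123 w1577 v1761 w582 w592 w591 w8377 v1592 w8375 w3815 w3808
theorem v1763 : PV l1763 := r1763 v900 v90 v480 v479 w3202 w3164 v1590 w6518 v667 v856 v1212 v1213 w1121 w8668 w6486 w8809 v1016 w8810 w8671 v388
theorem v1764 : PV l1764 := r1764 v90 v116 w8810 w8809
theorem v1765 : PV l1765 := r1765 v480 v479 v90 w592 v1763 w3494 w3503 v1764 v1158 w8782 w8781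
theorem v1766 : PV l1766 := r1766 w3486 w3494 v1759
theorem v1767 : PV l1767 := r1767 v1222 v841 v806 v801 v803 v805 w4312 w4311 w4310 v1526 v311 v279 v1530 v924 v1515 v523 v878 w2759 w2776 w2774 w2764 w2762 w6408 v169 v170 v177 v274 v275 w1972 w6475 w9059 v1511 w6474 v925 v883 v928 w9047 w6491 w9027 w1156 w1157 v1312 v332 v1738 w2381 w1968 w1961 w1963 w2165 w2167 w2180 w2181 w2373 v1739 v428 v1149 v1150 v1760 v492 w7183 v396 w7039 v1762 w4685 w4726 v1765 v1064 v1766 w3164 w6486 w1121 v667 v759 v1590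
theorem v1768 : PV l1768 := r1768 v222 v301 v300 v298 v1065 v89 v88 v420 w4689 v1147 w6487 w6472 v1183 w9049 v1657 v389 v1759 w8595 w8646
theorem v1769 : PV l1769 := r1769 w3148 v1512 v405 w3142 w3139 v237 v235 v841 v806 w3168 v1768 w4256 w4534 v1218 v1270 w9169 v1021 v882 w2764 w6472 w6473
theorem v1770 : PV l1770 := r1770 w3208 w3220
theorem v1771 : PV l1771 := r1771 v924 v932 v235 v246 v803 v1770 v1769 w6492 w6472 w6475 w3232 w3216
theorem v1772 : PV l1772 := r1772 w6472 w6492
theorem v1773 : PV l1773 := r1773 v245 w1971 v247 v235 v234 v308 v1223 v1222 v806 v933 v887 v936 w354 w6369 w9004 w6368 w7086 w5500 w1158 w8945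
theorem v1774 : PV l1774 := r1774 v235 v221 v300 v298 v1065 v1064 v480 v840 v1773 v885 w304 w6358 w7074 w5475 v759 w8608 w1121 w1336 w8640 w8644 w2866 v1759
theorem v1775 : PV l1775 := r1775 v248 v932 v406 v405 v235 v479 v1767 v801 w4355 w4353 w4352 v523 w3148 w3144 w3139 w3135 w3142 v1512 v1771 w2759 w3219 w2907 w2908 v1021 v1270 w4255 w4256 w4257 w4679 v1149 v1147 v1774 v1769 w6472 w6492
theorem v1776 : PV l1776 := r1776 v221 v301 v300 v298 v1064 v89 v88 w4453 w8640 w8645 w8646 v389 v1759
theorem v1777 : PV l1777 := r1777 v221 v1064 v1222 v840 w1121 w1332 w1318 v1776 w4785 w8334 v1594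
theorem v1778 : PV l1778 := r1778 v1512 v786 w2707
theorem v1779 : PV l1779 := r1779 v627 w8608
theorem v1780 : PV l1780 := r1780 v1150 w7229 v1218 w9169
theorem v1781 : PV l1781 := r1781 v221 v305 v301 v300 v298 v1064 v89 v480 v479 w4785 w8658 w8640 w8644 w8791 v391 v392 v1759 w8792 w8794 v379 w8809 v470 w2872 w4457 v1258
theorem v1782 : PV l1782 := r1782 v840 w1343 w1336 w1332 w1121 v300 v298 v479 v1781 w4977 w4704 v978 v1777 w2866 w2868 v1759
theorem v1783 : PV l1783 := r1783 w4977 w8377 w4704 w4713 v1274 v978 v335 w2704 v1312 v784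
theorem v1784 : PV l1784 := r1784 v301 v89 w4503 v978 w4453 v1776 w9133 w8794 w2867
theorem v1785 : PV l1785 := r1785 v84 v479 v1767 w4231 v1222 v840 w1121 w1332 w1318 v1782 w534 v1783 w4785 w8682 v1784 v419 v427 v1148 v1250 v335
theorem v1786 : PV l1786 := r1786 w7229 v1780 v502 v332 w4883 v1312 v978 v784 w2703
theorem v1787 : PV l1787 := r1787 w538 v1786 w8626 v667 w5467 w7039
theorem v1788 : PV l1788 := r1788 v1055 v406 v405 v88 v1767 w4231 v843 v841 v244 v248 v1775 v1785 v1787 v1779 v1512 w7220 v786 v337 w4883 w2705 v978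
theorem v1789 : PV l1789 := r1789 v1512 v786 v337 v1250 w2705 v427 v978
theorem v1790 : PV l1790 := r1790 w4353 w4352 v1520
theorem v1791 : PV l1791 := r1791 v1767 v785 v235 v234 w6369 v1508 w2755 w6491
theorem v1792 : PV l1792 := r1792 v300 v298 v385 v1759
theorem v1793 : PV l1793 := r1793 v1312 v332 v1779 w556 w8809 w9140 v489 w5492 w4506 w8626 v1150
theorem v1794 : PV l1794 := r1794 v1767 v1789 v300 v88 v1792 w8595 v113 v305 v479 v114 v480 w8646 w8644 w8793 v391 w8792 w8809 v1312 v332 w2870 v405 v221 v1064 v843 v1055 v1788 v277 v1793 w1121 w9140 w8640 w5495 w4783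
theorem v1795 : PV l1795 := r1795 w6496 w6373
theorem v1796 : PV l1796 := r1796 w4998 v843 v806 w7286 w4887 v1218 w9173 w4785 w8626 w5809 w8640 w1124 w8628 w8726
theorem v1797 : PV l1797 := r1797 w4998 v234 v308 v307 v1767 v1222 w5508 w5510 w4909 w9054 v1270 v398 v1021 w9115 w2759 v1175 w9050
theorem v1798 : PV l1798 := r1798 v1794 v893 v922 v880 v916 v479 v305 v1767 v1789 v300 v88 v1792 w8595 v114 v480 w8646 w8644 w8793 v113 v391 w8792 v895 w350 v894 w348 w7084 w7181 w3488 v1312 v332 w2870 v406 v405 v221 v1064 v801 v277 v1795 v1785 v1796 w6627 v1797 v489 w5492 w4506 w8626 v1150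
theorem v1799 : PV l1799 := r1799 v1798 v248 v1794 v479 v305 v1767 v1789 v300 v88 v1792 w8595 v114 v480 w8646 w8644 w8793 v113 v391 w8792 v895 w350 v406 w4231 v841 v1785 v1787
theorem v1800 : PV l1800 := r1800 v235 v300 v88 v480 v1767 v1789 v1792 w8595 v114 w7181 w8646 w8644 w7084 v1794 v917 v1799 w4352 w6369 w6492
theorem v1801 : PV l1801 := r1801 v1767 w4354 w4352 w4355 v427 w4503 w4538 v235 v246 v245 v307 v840 v803 v805 v916 v917 v919 v920 v921 v893 w7088 w6369 w6371 w6492 w3145 w6495 v1269 v1270 w2792 w2919 w9115 v1791 v1176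
theorem v1802 : PV l1802 := r1802 v1412 v427 w4505 v1767 v843 v801 w4353 w4352 v1801 v1055 v1515 v277 v279 w7076 v1520 w6361 w3139
theorem v1803 : PV l1803 := r1803 w6369 w6358
theorem v1804 : PV l1804 := r1804 v1779 w1121 w8994 w6486 v1594 w8334
theorem v1805 : PV l1805 := r1805 v300 v88 v480 w7083 w7084 w8646 w8644
theorem v1806 : PV l1806 := r1806 v305 v480 v479 v391 w8793 w8792 w8809
theorem v1807 : PV l1807 := r1807 v300 v385 v1758
theorem v1808 : PV l1808 := r1808 v300 v297 v88 v84 w1316 w1318 v1807 v379 v381 w8646 w8648 w5346 w8341 w5345 v1594 v34 w529 w3474 w9054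
theorem v1809 : PV l1809 := r1809 v235 v305 v300 v88 v480 v479 v840 v113 v114 v1807 v1805 w8644 w7181 v391 w8793 v1806 w8792 w7072 w9142 v1803 v885 w6492
theorem v1810 : PV l1810 := r1810 v110 v300 v297 v88 v84 v379 w8595 v1778 w8597 v1259 w5158 v1138
theorem v1811 : PV l1811 := r1811 v300 v88 v480 v1159 v1810 v385 w8759 w8757
theorem v1812 : PV l1812 := r1812 v405 v297 v1066 v84 v1222 v843 v841 v1055 w309 w9140 v315 w2133 w7039 w9169 v1808 v667 v1218 w5346 v332 w8648 w8597 v1312
theorem v1813 : PV l1813 := r1813 v880 v221 v297 v1064 v84 v1222 v843 v801 w8648 w8597 w1316 v1312 v332 w2887 v1797 v1218 w9168 v250 v1796 w6627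
theorem v1814 : PV l1814 := r1814 v308 v305 v300 v88 v480 v479 v1767 v840 v405 v406 v1800 v1412 v427 v428 v430 v431 w4538 w4505 w4501 w4503 w4504 v1802 v1811 v113 v114 v1807 v379 w3488 w8646 w8644 v391 w8793 v1806 w8792 w9142 v894 w594 v91 v93 v881 v884 v1812 w348 v1813 w5158 w5346 v1138 v1254 v330 v1210 v1274 w9173 w8377
theorem v1815 : PV l1815 := r1815 v300 v88 v480 v114 w8593 w8595
theorem v1816 : PV l1816 := r1816 v300 v88 v480 w3561 w3552 v1815 v1159 w8644 w8646
theorem v1817 : PV l1817 := r1817 v300 v88 v1807 w8646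
theorem v1818 : PV l1818 := r1818 v300 v88 v1811 v428 v1250 v1412 v1512 v1792 w8595
theorem v1819 : PV l1819 := r1819 v1818 v1807 v379 v1312 w2887 v332 v1816 v406 v1817 v221 v1064 v84 v479 v840 w4255 w4256 w4679 v1150 w8640 w1121 v1779 w8626 w534 w5462 v667 w7038
theorem v1820 : PV l1820 := r1820 v1816 v1814 v312 v1767 v1818 v1807 v379 v1817 v297 v84 v1222 v841 v1312 v332 v1819 v427 v428 w4538 w4504 v1218 w9169 w543 v1779 w1316 w8648 w8341 w5346 v1594
theorem v1821 : PV l1821 := r1821 v1512 v786 v1778 v1250 v1021 v428 v1259 v1138 w5165 w8794 w8758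
theorem v1822 : PV l1822 := r1822 v221 v1767 v480 v89 v301 v1818 v114 v1817 w8644 v392 w8793 v1821 v1820 w1933 v231 w1938 v300 w2122 v297 w2113 w1940 v305 w2139 v1816 v406 v405 v1312 v113 v1806 v843 v801 v803 v427 w4538 v1270 w4505 w4503 v1021 w9140 v1809 v92 v94 v1051 v1054 v1055 w4981 w4995 w4352 v1797 w2921 w6627 w9115 w6626 v1175 w2758 w9050
theorem v1823 : PV l1823 := r1823 v1817 w4857 v1809
theorem v1824 : PV l1824 := r1824 v1803 v1772
theorem v1825 : PV l1825 := r1825 v880 w350 w7286 w8724
theorem v1826 : PV l1826 := r1826 v1767 v1818 v1807 v379 v480 v89 v301 v114 v1817 w8644 v392 w8793 v1821 v1312 w2887 v335 v305 v391 v479 v113 w8792 w7072 v895 v1805 v300 v88 w7181 v221 v1064 v84 v843 v840 v1816 v405 v406 v1820 w2139 w2122 w1934 v1822 w4255 w4257 w4679 v1147 w8640 w1121 v1823 w5475 v1824 w4856 v1825 v1055 w7275 w8704 w534 w8724 w7284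
theorem v1827 : PV l1827 := r1827 v806 v801 v932 w6747 w6744
theorem v1828 : PV l1828 := r1828 v918 v806 v801 v173 w6767 w6764
theorem v1829 : PV l1829 := r1829 v801 v803 v917 v920 v1828 w6699 w6698 v170 w6766 w6763
theorem v1830 : PV l1830 := r1830 v840 v806 v803 v805 w6685 w6687 v172 w6744 v177 v274 w6743 w6745 w6765 v935 w7380 w9052
theorem v1831 : PV l1831 := r1831 v1767 v801 w4981 w4982 w4988 w4995 w4352 w4994 v1829 v932 v924 v1830 w6688 v173 v1827
theorem v1832 : PV l1832 := r1832 v801 v171 w6747 v1772 v1273 v1147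
theorem v1833 : PV l1833 := r1833 v924 v932 v840 v806 v803 v176 v1772 w6492 v1147 w6473 v885 w4519 w4997 w7174 w6687 v274
theorem v1834 : PV l1834 := r1834 v924 v932 v1767 v840 v806 v801 v803 w4998 v1832 w6688 v1833 v170 v172 v235 w6687 w6685 w6406 w4349 v1412 w6405 w4556 v935 w6413 w7134
theorem v1835 : PV l1835 := r1835 v806 v172 w6473 v1772
theorem v1836 : PV l1836 := r1836 v1767 v806 v801 v932 v1834 w4353 v1835 v173 w6406 v1515
theorem v1837 : PV l1837 := r1837 v89 v88 v480 v1767 v806 v801 v803 v300 v301 v1818 v114 v1807 w7181 v1817 v379 w8644 v392 w8793 v1821 v1312 v335 w2896 w2887 w2892 v1826 w3055 w3070 w3066 w3079 w3107 w3478 v1831 v1836 v917 v918 v920 w9049 w6413 v170 v171 v172 w6416 w6414 w6696 w4355 w6699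
theorem v1838 : PV l1838 := r1838 v918 v917 v806 v801 v171 v172 w6413 w6699 w6414 w6696
theorem v1839 : PV l1839 := r1839 v303 v88 v480 v114 w8733 v385 w8859 w8858
theorem v1840 : PV l1840 := r1840 v303 v88 v1541 w8693 w2896 v1328
theorem v1841 : PV l1841 := r1841 v302 v480 v479 v113 v114 v1839 w8732 v391 w8858 v628 w8857
theorem v1842 : PV l1842 := r1842 v918 v806 v801 v173 w6496 w6493
theorem v1843 : PV l1843 := r1843 v872
theorem v1844 : PV l1844 := r1844 v1047
theorem v1845 : PV l1845 := r1845 v874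
theorem v1846 : PV l1846 := r1846 v1048
theorem v1847 : PV l1847 := r1847 v875
theorem v1848 : PV l1848 := r1848 v1050
theorem v1849 : PV l1849 := r1849 v1007
theorem v1850 : PV l1850 := r1850 v970
theorem v1851 : PV l1851 := r1851 v1006
theorem v1852 : PV l1852 := r1852 v972
theorem v1853 : PV l1853 := r1853 v1005
theorem v1854 : PV l1854 := r1854 v973
theorem v1855 : PV l1855 := r1855 v1004
theorem v1856 : PV l1856 := r1856 v974
theorem v1857 : PV l1857 := r1857 v1003
theorem v1858 : PV l1858 := r1858 v975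
theorem v1859 : PV l1859 := r1859 v1002
theorem v1860 : PV l1860 := r1860 v976
theorem v1861 : PV l1861 := r1861 v876
theorem v1862 : PV l1862 := r1862 v1001
theorem v1863 : PV l1863 := r1863 v869
theorem v1864 : PV l1864 := r1864 v998
theorem v1865 : PV l1865 := r1865 v877
theorem v1866 : PV l1866 := r1866 v999
theorem v1867 : PV l1867 := r1867 v956
theorem v1868 : PV l1868 := r1868 v959
theorem v1869 : PV l1869 := r1869 v957
theorem v1870 : PV l1870 := r1870 v955
theorem v1871 : PV l1871 := r1871 v958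
theorem v1872 : PV l1872 := r1872 v949
theorem v1873 : PV l1873 := r1873 v952
theorem v1874 : PV l1874 := r1874 v947
theorem v1875 : PV l1875 := r1875 v950
theorem v1876 : PV l1876 := r1876 v946
theorem v1877 : PV l1877 := r1877 v951
theorem v1878 : PV l1878 := r1878 v942
theorem v1879 : PV l1879 := r1879 v945
theorem v1880 : PV l1880 := r1880 v941
theorem v1881 : PV l1881 := r1881 v943
theorem v1882 : PV l1882 := r1882 v939
theorem v1883 : PV l1883 := r1883 v944
theorem v1884 : PV l1884 := r1884 v926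
theorem v1885 : PV l1885 := r1885 v934
theorem v1886 : PV l1886 := r1886 v923
theorem v1887 : PV l1887 := r1887 v931
theorem v1888 : PV l1888 := r1888 v918
theorem v1889 : PV l1889 := r1889 v932
theorem v1890 : PV l1890 := r1890 v915
theorem v1891 : PV l1891 := r1891 v969
theorem v1892 : PV l1892 := r1892 v914
theorem v1893 : PV l1893 := r1893 v968
theorem v1894 : PV l1894 := r1894 v913
theorem v1895 : PV l1895 := r1895 v967
theorem v1896 : PV l1896 := r1896 v912
theorem v1897 : PV l1897 := r1897 v966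
theorem v1898 : PV l1898 := r1898 v911
theorem v1899 : PV l1899 := r1899 v965
theorem v1900 : PV l1900 := r1900 v910
theorem v1901 : PV l1901 := r1901 v964
theorem v1902 : PV l1902 := r1902 v980
theorem v1903 : PV l1903 := r1903 v963
theorem v1904 : PV l1904 := r1904 v981
theorem v1905 : PV l1905 := r1905 v962
theorem v1906 : PV l1906 := r1906 v982
theorem v1907 : PV l1907 := r1907 v961
theorem v1908 : PV l1908 := r1908 v984
theorem v1909 : PV l1909 := r1909 v771
theorem v1910 : PV l1910 := r1910 v987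
theorem v1911 : PV l1911 := r1911 v909
theorem v1912 : PV l1912 := r1912 v988
theorem v1913 : PV l1913 := r1913 v906
theorem v1914 : PV l1914 := r1914 v990
theorem v1915 : PV l1915 := r1915 v773
theorem v1916 : PV l1916 := r1916 v991
theorem v1917 : PV l1917 := r1917 v954
theorem v1918 : PV l1918 := r1918 v992
theorem v1919 : PV l1919 := r1919 v905
theorem v1920 : PV l1920 := r1920 v993
theorem v1921 : PV l1921 := r1921 v953
theorem v1922 : PV l1922 := r1922 v994
theorem v1923 : PV l1923 := r1923 v904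
theorem v1924 : PV l1924 := r1924 v995
theorem v1925 : PV l1925 := r1925 v903
theorem v1926 : PV l1926 := r1926 v979
theorem v1927 : PV l1927 := r1927 v778
theorem v1928 : PV l1928 := r1928 v1069
theorem v1929 : PV l1929 := r1929 v902
theorem v1930 : PV l1930 := r1930 v1016
theorem v1931 : PV l1931 := r1931 v777
theorem v1932 : PV l1932 := r1932 v1068
theorem v1933 : PV l1933 := r1933 v901
theorem v1934 : PV l1934 := r1934 v1065
theorem v1935 : PV l1935 := r1935 v898
theorem v1936 : PV l1936 := r1936 v1061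
theorem v1937 : PV l1937 := r1937 v894
theorem v1938 : PV l1938 := r1938 v1059
theorem v1939 : PV l1939 := r1939 v890
theorem v1940 : PV l1940 := r1940 v889
theorem v1941 : PV l1941 := r1941 v938
theorem v1942 : PV l1942 := r1942 v1058
theorem v1943 : PV l1943 := r1943 v886
theorem v1944 : PV l1944 := r1944 v885
theorem v1945 : PV l1945 := r1945 v935
theorem v1946 : PV l1946 := r1946 v1057
theorem v1947 : PV l1947 := r1947 v882
theorem v1948 : PV l1948 := r1948 v1052
theorem v1949 : PV l1949 := r1949 v879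
theorem v1950 : PV l1950 := r1950 w611
theorem v1951 : PV l1951 := r1951 w676
theorem v1952 : PV l1952 := r1952 w757
theorem v1953 : PV l1953 := r1953 w758
theorem v1954 : PV l1954 := r1954 w816
theorem v1955 : PV l1955 := r1955 w817
theorem v1956 : PV l1956 := r1956 v1015
theorem v1957 : PV l1957 := r1957 v863
theorem v1958 : PV l1958 := r1958 v862
theorem v1959 : PV l1959 := r1959 v1261
theorem v1960 : PV l1960 := r1960 v861
theorem v1961 : PV l1961 := r1961 v1262
theorem v1962 : PV l1962 := r1962 v860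
theorem v1963 : PV l1963 := r1963 v715
theorem v1964 : PV l1964 := r1964 v1239
theorem v1965 : PV l1965 := r1965 v825
theorem v1966 : PV l1966 := r1966 v1238
theorem v1967 : PV l1967 := r1967 v1206
theorem v1968 : PV l1968 := r1968 v1237
theorem v1969 : PV l1969 := r1969 v826
theorem v1970 : PV l1970 := r1970 v1236
theorem v1971 : PV l1971 := r1971 v1207
theorem v1972 : PV l1972 := r1972 v1235
theorem v1973 : PV l1973 := r1973 v1208
theorem v1974 : PV l1974 := r1974 v1234
theorem v1975 : PV l1975 := r1975 v827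
theorem v1976 : PV l1976 := r1976 v859
theorem v1977 : PV l1977 := r1977 v1264
theorem v1978 : PV l1978 := r1978 v858
theorem v1979 : PV l1979 := r1979 v857
theorem v1980 : PV l1980 := r1980 v1266
theorem v1981 : PV l1981 := r1981 v817
theorem v1982 : PV l1982 := r1982 v1202
theorem v1983 : PV l1983 := r1983 v816
theorem v1984 : PV l1984 := r1984 v815
theorem v1985 : PV l1985 := r1985 v1198
theorem v1986 : PV l1986 := r1986 v813
theorem v1987 : PV l1987 := r1987 v1193
theorem v1988 : PV l1988 := r1988 v812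
theorem v1989 : PV l1989 := r1989 v1188
theorem v1990 : PV l1990 := r1990 v811
theorem v1991 : PV l1991 := r1991 v1189
theorem v1992 : PV l1992 := r1992 v810
theorem v1993 : PV l1993 := r1993 v1182
theorem v1994 : PV l1994 := r1994 v809
theorem v1995 : PV l1995 := r1995 v1177
theorem v1996 : PV l1996 := r1996 v808
theorem v1997 : PV l1997 := r1997 v1178
theorem v1998 : PV l1998 := r1998 v805
theorem v1999 : PV l1999 := r1999 v1172
theorem v2000 : PV l2000 := r2000 v804
theorem v2001 : PV l2001 := r2001 v1170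
theorem v2002 : PV l2002 := r2002 v802
theorem v2003 : PV l2003 := r2003 v1171
theorem v2004 : PV l2004 := r2004 v1169
theorem v2005 : PV l2005 := r2005 v824
theorem v2006 : PV l2006 := r2006 v1168
theorem v2007 : PV l2007 := r2007 v1216
theorem v2008 : PV l2008 := r2008 v1167
theorem v2009 : PV l2009 := r2009 v823
theorem v2010 : PV l2010 := r2010 v1166
theorem v2011 : PV l2011 := r2011 v1215
theorem v2012 : PV l2012 := r2012 v1165
theorem v2013 : PV l2013 := r2013 v1214
theorem v2014 : PV l2014 := r2014 v1164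
theorem v2015 : PV l2015 := r2015 v822
theorem v2016 : PV l2016 := r2016 v831
theorem v2017 : PV l2017 := r2017 v1205
theorem v2018 : PV l2018 := r2018 v1219
theorem v2019 : PV l2019 := r2019 v1204
theorem v2020 : PV l2020 := r2020 v1220
theorem v2021 : PV l2021 := r2021 v1201
theorem v2022 : PV l2022 := r2022 v833
theorem v2023 : PV l2023 := r2023 v1203
theorem v2024 : PV l2024 := r2024 v1221
theorem v2025 : PV l2025 := r2025 v1200
theorem v2026 : PV l2026 := r2026 v835
theorem v2027 : PV l2027 := r2027 v1199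
theorem v2028 : PV l2028 := r2028 v830
theorem v2029 : PV l2029 := r2029 v1196
theorem v2030 : PV l2030 := r2030 v1226
theorem v2031 : PV l2031 := r2031 v1195
theorem v2032 : PV l2032 := r2032 v1227
theorem v2033 : PV l2033 := r2033 v1192
theorem v2034 : PV l2034 := r2034 v847
theorem v2035 : PV l2035 := r2035 v1194
theorem v2036 : PV l2036 := r2036 v1228
theorem v2037 : PV l2037 := r2037 v1191
theorem v2038 : PV l2038 := r2038 v849
theorem v2039 : PV l2039 := r2039 v1190
theorem v2040 : PV l2040 := r2040 v829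
theorem v2041 : PV l2041 := r2041 v1185
theorem v2042 : PV l2042 := r2042 v1229
theorem v2043 : PV l2043 := r2043 v1184
theorem v2044 : PV l2044 := r2044 v1230
theorem v2045 : PV l2045 := r2045 v1181
theorem v2046 : PV l2046 := r2046 v852
theorem v2047 : PV l2047 := r2047 v1183
theorem v2048 : PV l2048 := r2048 v1231
theorem v2049 : PV l2049 := r2049 v1180
theorem v2050 : PV l2050 := r2050 v854
theorem v2051 : PV l2051 := r2051 v1179
theorem v2052 : PV l2052 := r2052 v838
theorem v2053 : PV l2053 := r2053 v1175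
theorem v2054 : PV l2054 := r2054 v1222
theorem v2055 : PV l2055 := r2055 v1174
theorem v2056 : PV l2056 := r2056 v1224
theorem v2057 : PV l2057 := r2057 v1156
theorem v2058 : PV l2058 := r2058 v840
theorem v2059 : PV l2059 := r2059 v1173
theorem v2060 : PV l2060 := r2060 v1225
theorem v2061 : PV l2061 := r2061 v1155
theorem v2062 : PV l2062 := r2062 v844
theorem v2063 : PV l2063 := r2063 v1153
theorem v2064 : PV l2064 := r2064 w1399
theorem v2065 : PV l2065 := r2065 w1437
theorem v2066 : PV l2066 := r2066 w1540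
theorem v2067 : PV l2067 := r2067 w1541
theorem v2068 : PV l2068 := r2068 w1608
theorem v2069 : PV l2069 := r2069 v828
theorem v2070 : PV l2070 := r2070 v1151
theorem v2071 : PV l2071 := r2071 v120
theorem v2072 : PV l2072 := r2072 v121
theorem v2073 : PV l2073 := r2073 v125
theorem v2074 : PV l2074 := r2074 v126
theorem v2075 : PV l2075 := r2075 v127
theorem v2076 : PV l2076 := r2076 v128
theorem v2077 : PV l2077 := r2077 v138
theorem v2078 : PV l2078 := r2078 v129
theorem v2079 : PV l2079 := r2079 v139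
theorem v2080 : PV l2080 := r2080 v130
theorem v2081 : PV l2081 := r2081 v140
theorem v2082 : PV l2082 := r2082 v131
theorem v2083 : PV l2083 := r2083 v141
theorem v2084 : PV l2084 := r2084 v132
theorem v2085 : PV l2085 := r2085 v142
theorem v2086 : PV l2086 := r2086 v134
theorem v2087 : PV l2087 := r2087 v143
theorem v2088 : PV l2088 := r2088 v137
theorem v2089 : PV l2089 := r2089 v145
theorem v2090 : PV l2090 := r2090 v144
theorem v2091 : PV l2091 := r2091 v146
theorem v2092 : PV l2092 := r2092 v147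
theorem v2093 : PV l2093 := r2093 v148
theorem v2094 : PV l2094 := r2094 v151
theorem v2095 : PV l2095 := r2095 v149
theorem v2096 : PV l2096 := r2096 v152
theorem v2097 : PV l2097 := r2097 v153
theorem v2098 : PV l2098 := r2098 v154
theorem v2099 : PV l2099 := r2099 v155
theorem v2100 : PV l2100 := r2100 v157
theorem v2101 : PV l2101 := r2101 v156
theorem v2102 : PV l2102 := r2102 v158
theorem v2103 : PV l2103 := r2103 v159
theorem v2104 : PV l2104 := r2104 v160
theorem v2105 : PV l2105 := r2105 v161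
theorem v2106 : PV l2106 := r2106 v163
theorem v2107 : PV l2107 := r2107 v162
theorem v2108 : PV l2108 := r2108 v164
theorem v2109 : PV l2109 := r2109 v165
theorem v2110 : PV l2110 := r2110 v166
theorem v2111 : PV l2111 := r2111 v167
theorem v2112 : PV l2112 := r2112 v174
theorem v2113 : PV l2113 := r2113 v168
theorem v2114 : PV l2114 := r2114 v175
theorem v2115 : PV l2115 := r2115 v177
theorem v2116 : PV l2116 := r2116 v178
theorem v2117 : PV l2117 := r2117 v182
theorem v2118 : PV l2118 := r2118 v191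
theorem v2119 : PV l2119 := r2119 v183
theorem v2120 : PV l2120 := r2120 v193
theorem v2121 : PV l2121 := r2121 v180
theorem v2122 : PV l2122 := r2122 v188
theorem v2123 : PV l2123 := r2123 v184
theorem v2124 : PV l2124 := r2124 v192
theorem v2125 : PV l2125 := r2125 v181
theorem v2126 : PV l2126 := r2126 v189
theorem v2127 : PV l2127 := r2127 v179
theorem v2128 : PV l2128 := r2128 v185
theorem v2129 : PV l2129 := r2129 v194
theorem v2130 : PV l2130 := r2130 v252
theorem v2131 : PV l2131 := r2131 v200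
theorem v2132 : PV l2132 := r2132 v254
theorem v2133 : PV l2133 := r2133 v204
theorem v2134 : PV l2134 := r2134 v257
theorem v2135 : PV l2135 := r2135 v197
theorem v2136 : PV l2136 := r2136 v253
theorem v2137 : PV l2137 := r2137 v205
theorem v2138 : PV l2138 := r2138 v256
theorem v2139 : PV l2139 := r2139 v202
theorem v2140 : PV l2140 := r2140 v255
theorem v2141 : PV l2141 := r2141 v206
theorem v2142 : PV l2142 := r2142 v259
theorem v2143 : PV l2143 := r2143 v214
theorem v2144 : PV l2144 := r2144 v261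
theorem v2145 : PV l2145 := r2145 v218
theorem v2146 : PV l2146 := r2146 v264
theorem v2147 : PV l2147 := r2147 v212
theorem v2148 : PV l2148 := r2148 v260
theorem v2149 : PV l2149 := r2149 v219
theorem v2150 : PV l2150 := r2150 v263
theorem v2151 : PV l2151 := r2151 v216
theorem v2152 : PV l2152 := r2152 v262
theorem v2153 : PV l2153 := r2153 v220
theorem v2154 : PV l2154 := r2154 v265
theorem v2155 : PV l2155 := r2155 v226
theorem v2156 : PV l2156 := r2156 v267
theorem v2157 : PV l2157 := r2157 v229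
theorem v2158 : PV l2158 := r2158 v270
theorem v2159 : PV l2159 := r2159 v225
theorem v2160 : PV l2160 := r2160 v266
theorem v2161 : PV l2161 := r2161 v230
theorem v2162 : PV l2162 := r2162 v269
theorem v2163 : PV l2163 := r2163 v228
theorem v2164 : PV l2164 := r2164 v268
theorem v2165 : PV l2165 := r2165 v232
theorem v2166 : PV l2166 := r2166 v271
theorem v2167 : PV l2167 := r2167 v242
theorem v2168 : PV l2168 := r2168 v273
theorem v2169 : PV l2169 := r2169 v247
theorem v2170 : PV l2170 := r2170 v279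
theorem v2171 : PV l2171 := r2171 v240
theorem v2172 : PV l2172 := r2172 v272
theorem v2173 : PV l2173 := r2173 v248
theorem v2174 : PV l2174 := r2174 v278
theorem v2175 : PV l2175 := r2175 v244
theorem v2176 : PV l2176 := r2176 v277
theorem v2177 : PV l2177 := r2177 w2189
theorem v2178 : PV l2178 := r2178 w2190
theorem v2179 : PV l2179 := r2179 w2237
theorem v2180 : PV l2180 := r2180 w2238
theorem v2181 : PV l2181 := r2181 w2341
theorem v2182 : PV l2182 := r2182 w2342
theorem v2183 : PV l2183 := r2183 w2406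
theorem v2184 : PV l2184 := r2184 v251
theorem v2185 : PV l2185 := r2185 v280
theorem v2186 : PV l2186 := r2186 v317
theorem v2187 : PV l2187 := r2187 v318
theorem v2188 : PV l2188 := r2188 v321
theorem v2189 : PV l2189 := r2189 v322
theorem v2190 : PV l2190 := r2190 v323
theorem v2191 : PV l2191 := r2191 v324
theorem v2192 : PV l2192 := r2192 v326
theorem v2193 : PV l2193 := r2193 v327
theorem v2194 : PV l2194 := r2194 v333
theorem v2195 : PV l2195 := r2195 v334
theorem v2196 : PV l2196 := r2196 v336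
theorem v2197 : PV l2197 := r2197 v337
theorem v2198 : PV l2198 := r2198 v340
theorem v2199 : PV l2199 := r2199 v341
theorem v2200 : PV l2200 := r2200 v344
theorem v2201 : PV l2201 := r2201 v345
theorem v2202 : PV l2202 := r2202 v346
theorem v2203 : PV l2203 := r2203 v347
theorem v2204 : PV l2204 := r2204 v348
theorem v2205 : PV l2205 := r2205 v355
theorem v2206 : PV l2206 := r2206 v349
theorem v2207 : PV l2207 := r2207 v357
theorem v2208 : PV l2208 := r2208 v360
theorem v2209 : PV l2209 := r2209 v363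
theorem v2210 : PV l2210 := r2210 v365
theorem v2211 : PV l2211 := r2211 v370
theorem v2212 : PV l2212 := r2212 v366
theorem v2213 : PV l2213 := r2213 v372
theorem v2214 : PV l2214 := r2214 v375
theorem v2215 : PV l2215 := r2215 v377
theorem v2216 : PV l2216 := r2216 v378
theorem v2217 : PV l2217 := r2217 v383
theorem v2218 : PV l2218 := r2218 v379
theorem v2219 : PV l2219 := r2219 v386
theorem v2220 : PV l2220 := r2220 v389
theorem v2221 : PV l2221 := r2221 v392
theorem v2222 : PV l2222 := r2222 v393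
theorem v2223 : PV l2223 := r2223 v398
theorem v2224 : PV l2224 := r2224 v394
theorem v2225 : PV l2225 := r2225 v400
theorem v2226 : PV l2226 := r2226 v403
theorem v2227 : PV l2227 := r2227 v406
theorem v2228 : PV l2228 := r2228 w2407
theorem v2229 : PV l2229 := r2229 w2408
theorem v2230 : PV l2230 := r2230 w2693
theorem v2231 : PV l2231 := r2231 w2694
theorem v2232 : PV l2232 := r2232 w3653
theorem v2233 : PV l2233 := r2233 w3758
theorem v2234 : PV l2234 := r2234 w3759
theorem v2235 : PV l2235 := r2235 w3856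
theorem v2236 : PV l2236 := r2236 w3857
theorem v2237 : PV l2237 := r2237 w3858
theorem v2238 : PV l2238 := r2238 w3859
theorem v2239 : PV l2239 := r2239 w4231
theorem v2240 : PV l2240 := r2240 w4232
theorem v2241 : PV l2241 := r2241 w5523
theorem v2242 : PV l2242 := r2242 w5524
theorem v2243 : PV l2243 := r2243 w5598
theorem v2244 : PV l2244 := r2244 w5599
theorem v2245 : PV l2245 := r2245 w5737
theorem v2246 : PV l2246 := r2246 w5738
theorem v2247 : PV l2247 := r2247 w5842
theorem v2248 : PV l2248 := r2248 w5843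
theorem v2249 : PV l2249 := r2249 v2236 w3792
theorem v2250 : PV l2250 := r2250 v2236 w3797
theorem v2251 : PV l2251 := r2251 v2234 w3766
theorem v2252 : PV l2252 := r2252 v2236 w3805
theorem v2253 : PV l2253 := r2253 v2247 w5777
theorem v2254 : PV l2254 := r2254 v2066 w1558
theorem v2255 : PV l2255 := r2255 v1955 w749
theorem v2256 : PV l2256 := r2256 v1955 w747
theorem v2257 : PV l2257 := r2257 v2236 w3815
theorem v2258 : PV l2258 := r2258 v2235 w3808
theorem v2259 : PV l2259 := r2259 v2067 w1557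
theorem v2260 : PV l2260 := r2260 v2247 w5793
theorem v2261 : PV l2261 := r2261 v2247 w5788
theorem v2262 : PV l2262 := r2262 v2246 w5758
theorem v2263 : PV l2263 := r2263 v2233 w3779
theorem v2264 : PV l2264 := r2264 v2247 w5783
theorem v2265 : PV l2265 := r2265 v2246 w5751
theorem v2266 : PV l2266 := r2266 v2245 w5759
theorem v2267 : PV l2267 := r2267 v2182 w2347
theorem v2268 : PV l2268 := r2268 v2181 w2361
theorem v2269 : PV l2269 := r2269 v1953 w693
theorem v2270 : PV l2270 := r2270 v2066 w1563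
theorem v2271 : PV l2271 := r2271 v2181 w2259
theorem v2272 : PV l2272 := r2272 v2233 w3665
theorem v2273 : PV l2273 := r2273 v1954 w784
theorem v2274 : PV l2274 := r2274 v1953 w763
theorem v2275 : PV l2275 := r2275 v1953 w762
theorem v2276 : PV l2276 := r2276 v1952 w770
theorem v2277 : PV l2277 := r2277 v2247 w5713
theorem v2278 : PV l2278 := r2278 v2234 w3673
theorem v2279 : PV l2279 := r2279 v2234 w3678
theorem v2280 : PV l2280 := r2280 v2233 w3685
theorem v2281 : PV l2281 := r2281 v2233 w3785
theorem v2282 : PV l2282 := r2282 v2182 w2263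
theorem v2283 : PV l2283 := r2283 v2182 w2256
theorem v2284 : PV l2284 := r2284 v2180 w2240
theorem v2285 : PV l2285 := r2285 v2181 w2271
theorem v2286 : PV l2286 := r2286 v2244 w5607
theorem v2287 : PV l2287 := r2287 v2234 w3666
theorem v2288 : PV l2288 := r2288 v2181 w2355
theorem v2289 : PV l2289 := r2289 v2065 w1443
theorem v2290 : PV l2290 := r2290 v2233 w3668
theorem v2291 : PV l2291 := r2291 v2233 w3672
theorem v2292 : PV l2292 := r2292 v2233 w3674
theorem v2293 : PV l2293 := r2293 v2246 w5626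
theorem v2294 : PV l2294 := r2294 v2245 w5638
theorem v2295 : PV l2295 := r2295 v2067 w1457
theorem v2296 : PV l2296 := r2296 v1952 w769
theorem v2297 : PV l2297 := r2297 v2067 w1480
theorem v2298 : PV l2298 := r2298 v2183 w2371
theorem v2299 : PV l2299 := r2299 v1955 w796
theorem v2300 : PV l2300 := r2300 v1954 w791
theorem v2301 : PV l2301 := r2301 v2181 w2360
theorem v2302 : PV l2302 := r2302 v2232 w3654
theorem v2303 : PV l2303 := r2303 v2234 w3669
theorem v2304 : PV l2304 := r2304 v2067 w1460
theorem v2305 : PV l2305 := r2305 v2067 w1463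
theorem v2306 : PV l2306 := r2306 v2246 w5635
theorem v2307 : PV l2307 := r2307 v2245 w5649
theorem v2308 : PV l2308 := r2308 v2246 w5747
theorem v2309 : PV l2309 := r2309 v2182 w2282
theorem v2310 : PV l2310 := r2310 v2182 w2286
theorem v2311 : PV l2311 := r2311 v2182 w2279
theorem v2312 : PV l2312 := r2312 v2182 w2275
theorem v2313 : PV l2313 := r2313 v2182 w2272
theorem v2314 : PV l2314 := r2314 v2182 w2268
theorem v2315 : PV l2315 := r2315 v2182 w2349
theorem v2316 : PV l2316 := r2316 v2182 w2348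
theorem v2317 : PV l2317 := r2317 v2183 w2230
theorem v2318 : PV l2318 := r2318 v2236 w3637
theorem v2319 : PV l2319 := r2319 v2236 w3639
theorem v2320 : PV l2320 := r2320 v2178 w2191
theorem v2321 : PV l2321 := r2321 v2234 w3763
theorem v2322 : PV l2322 := r2322 v2234 w3662
theorem v2323 : PV l2323 := r2323 v2234 w3769
theorem v2324 : PV l2324 := r2324 v2245 v2066 v1953 v2182 v2234 w8654
theorem v2325 : PV l2325 := r2325 v2245 v2066 v2234 v2182 v1953 w8559
theorem v2326 : PV l2326 := r2326 v2234 w3778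
theorem v2327 : PV l2327 := r2327 v2181 v2246 v2234 v2067 v1953 w8815
theorem v2328 : PV l2328 := r2328 v2066 v2182 v2234 v1953 v2246 w8347
theorem v2329 : PV l2329 := r2329 v2066 v2246 v2182 v2234 v1953 w8847
theorem v2330 : PV l2330 := r2330 v2234 w3762
theorem v2331 : PV l2331 := r2331 v2245 v2182 v1953 v2067 v2234 w8583
theorem v2332 : PV l2332 := r2332 v1952 v2066 v2246 v2234 v2182 w8831
theorem v2333 : PV l2333 := r2333 v2236 w3636
theorem v2334 : PV l2334 := r2334 v2178 w2192
theorem v2335 : PV l2335 := r2335 v2178 w2193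
theorem v2336 : PV l2336 := r2336 v2177 w2195
theorem v2337 : PV l2337 := r2337 v2179 w2206
theorem v2338 : PV l2338 := r2338 v2153 v2166 w2161
theorem v2339 : PV l2339 := r2339 v2153 v2168 w2163
theorem v2340 : PV l2340 := r2340 v2204 w3385
theorem v2341 : PV l2341 := r2341 v2204 w3430
theorem v2342 : PV l2342 := r2342 v2204 w3512
theorem v2343 : PV l2343 := r2343 v2204 w3513
theorem v2344 : PV l2344 := r2344 v2204 v2223 w3514
theorem v2345 : PV l2345 := r2345 v2204 v2223 w3515
theorem v2346 : PV l2346 := r2346 v2019 v2132 v2204 v661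
theorem v2347 : PV l2347 := r2347 v2204 v2019 v2131 v2129 v662
theorem v2348 : PV l2348 := r2348 v2131 v2142 w2065
theorem v2349 : PV l2349 := r2349 v2131 v2154 w2082
theorem v2350 : PV l2350 := r2350 v2131 v2166 w2145
theorem v2351 : PV l2351 := r2351 v2131 v2166 w2146
theorem v2352 : PV l2352 := r2352 v2131 v2168 w2147
theorem v2353 : PV l2353 := r2353 v2019 v1905 v2204 v2131 w7251
theorem v2354 : PV l2354 := r2354 v2131 v2019 v1905 v2205 w7344
theorem v2355 : PV l2355 := r2355 v2019 v1905 v2205 v1133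
theorem v2356 : PV l2356 := r2356 v2019 v2131 v2204 v1905 w7501
theorem v2357 : PV l2357 := r2357 v2017 v2018 w1226
theorem v2358 : PV l2358 := r2358 v2018 v2033 w1249
theorem v2359 : PV l2359 := r2359 v2018 v2041 w1273
theorem v2360 : PV l2360 := r2360 v2018 v2041 w1274
theorem v2361 : PV l2361 := r2361 v2018 v2053 w1355
theorem v2362 : PV l2362 := r2362 v2018 v2055 w1356
theorem v2363 : PV l2363 := r2363 v2018 v2055 w1357
theorem v2364 : PV l2364 := r2364 v2018 v2055 w1358
theorem v2365 : PV l2365 := r2365 v2018 v2055 w1359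
theorem v2366 : PV l2366 := r2366 v2205 v2018 v1905 v2132 w7413
theorem v2367 : PV l2367 := r2367 v2018 v2131 v2205 v1905 w7447
theorem v2368 : PV l2368 := r2368 v2204 v2132 v1905 v2018 w7475
theorem v2369 : PV l2369 := r2369 v1904 v2204 v2018 v2132 w7488
theorem v2370 : PV l2370 := r2370 v2018 v1905 v2205 v2132 w7549
theorem v2371 : PV l2371 := r2371 v2204 v2132 v1905 v2018 w7622
theorem v2372 : PV l2372 := r2372 v2129 v2166 w2143
theorem v2373 : PV l2373 := r2373 v2129 v2166 w2144
theorem v2374 : PV l2374 := r2374 v2132 v2141 w2054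
theorem v2375 : PV l2375 := r2375 v2141 v2154 w2084
theorem v2376 : PV l2376 := r2376 v2141 v2154 w2085
theorem v2377 : PV l2377 := r2377 v2141 v2154 w2086
theorem v2378 : PV l2378 := r2378 v2141 v2154 w2087
theorem v2379 : PV l2379 := r2379 v2141 v2154 w2088
theorem v2380 : PV l2380 := r2380 v2141 v2154 w2089
theorem v2381 : PV l2381 := r2381 v2141 v2156 w2090
theorem v2382 : PV l2382 := r2382 v2141 v2156 w2091
theorem v2383 : PV l2383 := r2383 v2141 v2156 w2092
theorem v2384 : PV l2384 := r2384 v2141 v2166 w2150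
theorem v2385 : PV l2385 := r2385 v2141 v2166 w2151
theorem v2386 : PV l2386 := r2386 v2141 v2166 w2152
theorem v2387 : PV l2387 := r2387 v2141 v2166 w2153
theorem v2388 : PV l2388 := r2388 v2141 v2166 w2154
theorem v2389 : PV l2389 := r2389 v2141 v2166 w2155
theorem v2390 : PV l2390 := r2390 v2141 v2029 v1915 w7253
theorem v2391 : PV l2391 := r2391 v1915 v2141 v2029 w7346
theorem v2392 : PV l2392 := r2392 v2141 v1915 v2029 w7743
theorem v2393 : PV l2393 := r2393 v2029 v2141 v1915 w7915
theorem v2394 : PV l2394 := r2394 v2023 v1909 v2136 w7602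
theorem v2395 : PV l2395 := r2395 v2022 v1908 v2136 w7263
theorem v2396 : PV l2396 := r2396 v2022 v2136 v1909 w7411
theorem v2397 : PV l2397 := r2397 v2022 v2136 v1908 w7424
theorem v2398 : PV l2398 := r2398 v2022 v2136 v1908 w7486
theorem v2399 : PV l2399 := r2399 v2022 v1908 v2136 w7636
theorem v2400 : PV l2400 := r2400 v1908 v1903 w440
theorem v2401 : PV l2401 := r2401 v1908 v1915 w473
theorem v2402 : PV l2402 := r2402 v1908 v1915 w474
theorem v2403 : PV l2403 := r2403 v1908 v1927 w498
theorem v2404 : PV l2404 := r2404 v1908 v1927 w499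
theorem v2405 : PV l2405 := r2405 v1908 v1927 w500
theorem v2406 : PV l2406 := r2406 v1908 v1939 w564
theorem v2407 : PV l2407 := r2407 v1908 v1939 w565
theorem v2408 : PV l2408 := r2408 v1908 v1939 w566
theorem v2409 : PV l2409 := r2409 v1957 v1908 w610
theorem v2410 : PV l2410 := r2410 v2023 v2135 v1908 w7140
theorem v2411 : PV l2411 := r2411 v2023 v2135 v1908 w7583
theorem v2412 : PV l2412 := r2412 v1903 v2017 v2130 w7456
theorem v2413 : PV l2413 := r2413 v2130 v2017 v1903 w7605
theorem v2414 : PV l2414 := r2414 v2016 v2053 w1354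
theorem v2415 : PV l2415 := r2415 v2016 v2130 v1903 w7414
theorem v2416 : PV l2416 := r2416 v1902 v2016 v2130 w7562
theorem v2417 : PV l2417 := r2417 v1902 v1915 w472
theorem v2418 : PV l2418 := r2418 v1902 v1927 w497
theorem v2419 : PV l2419 := r2419 v1902 v1939 w562
theorem v2420 : PV l2420 := r2420 v1902 v1939 w563
theorem v2421 : PV l2421 := r2421 v2204 v2019 v2132 v1905 w7604
theorem v2422 : PV l2422 := r2422 v2131 v2204 v2019 v1905 w7648
theorem v2423 : PV l2423 := r2423 v2019 v2132 v2205 v1905 v595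
theorem v2424 : PV l2424 := r2424 v1905 v1944 w463
theorem v2425 : PV l2425 := r2425 v1905 v1948 w464
theorem v2426 : PV l2426 := r2426 v1912 v1905 w441
theorem v2427 : PV l2427 := r2427 v1905 v1916 w447
theorem v2428 : PV l2428 := r2428 v1905 v1916 w448
theorem v2429 : PV l2429 := r2429 v1905 v1920 w450
theorem v2430 : PV l2430 := r2430 v1905 v1936 w456
theorem v2431 : PV l2431 := r2431 v1956 v1905 w471
theorem v2432 : PV l2432 := r2432 v1905 v1914 w444
theorem v2433 : PV l2433 := r2433 v1905 v1914 w445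
theorem v2434 : PV l2434 := r2434 v1905 v1938 w461
theorem v2435 : PV l2435 := r2435 v1905 v1944 w462
theorem v2436 : PV l2436 := r2436 v1905 v1938 w459
theorem v2437 : PV l2437 := r2437 v1905 v1938 w460
theorem v2438 : PV l2438 := r2438 v1905 v1914 w443
theorem v2439 : PV l2439 := r2439 v2019 v2205 v1905 v2132 w7529
theorem v2440 : PV l2440 := r2440 v2017 v2028 w1230
theorem v2441 : PV l2441 := r2441 v2017 v2028 w1231
theorem v2442 : PV l2442 := r2442 v2017 v2028 w1232
theorem v2443 : PV l2443 := r2443 v2017 v2028 w1233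
theorem v2444 : PV l2444 := r2444 v2028 v2041 w1278
theorem v2445 : PV l2445 := r2445 v2028 v2041 w1279
theorem v2446 : PV l2446 := r2446 v2028 v2041 w1280
theorem v2447 : PV l2447 := r2447 v2028 v2041 w1281
theorem v2448 : PV l2448 := r2448 v2028 v2041 w1282
theorem v2449 : PV l2449 := r2449 v2028 v2041 w1283
theorem v2450 : PV l2450 := r2450 v2028 v2043 w1284
theorem v2451 : PV l2451 := r2451 v2028 v2043 w1285
theorem v2452 : PV l2452 := r2452 v2028 v2043 w1286
theorem v2453 : PV l2453 := r2453 v2028 v2053 w1363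
theorem v2454 : PV l2454 := r2454 v2028 v2053 w1364
theorem v2455 : PV l2455 := r2455 v2028 v2055 w1365
theorem v2456 : PV l2456 := r2456 v2028 v2055 w1366
theorem v2457 : PV l2457 := r2457 v1914 v2028 v2141 w7116
theorem v2458 : PV l2458 := r2458 v2028 v1915 v2141 w7129
theorem v2459 : PV l2459 := r2459 v2028 v2142 v1914 w7167
theorem v2460 : PV l2460 := r2460 v2028 v2142 v1915 w7698
theorem v2461 : PV l2461 := r2461 v1914 v2028 v2142 w7722
theorem v2462 : PV l2462 := r2462 v2028 v1915 v2142 w7862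
theorem v2463 : PV l2463 := r2463 v1915 v2028 v2141 w7953
theorem v2464 : PV l2464 := r2464 v2028 v1914 v2141 w7975
theorem v2465 : PV l2465 := r2465 v2028 v2142 v1915 w8033
theorem v2466 : PV l2466 := r2466 v1914 v2028 v2142 w8058
theorem v2467 : PV l2467 := r2467 v2028 v1915 v2141 w8123
theorem v2468 : PV l2468 := r2468 v1914 v2028 v2141 w8140
theorem v2469 : PV l2469 := r2469 v2028 v1915 v2142 w8197
theorem v2470 : PV l2470 := r2470 v2028 v1914 v2142 w8220
theorem v2471 : PV l2471 := r2471 v2028 v2141 v1914 v612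
theorem v2472 : PV l2472 := r2472 v2028 v2141 v660
theorem v2473 : PV l2473 := r2473 v1914 v1927 w504
theorem v2474 : PV l2474 := r2474 v1914 v1927 w505
theorem v2475 : PV l2475 := r2475 v1914 v1927 w506
theorem v2476 : PV l2476 := r2476 v1914 v1927 w507
theorem v2477 : PV l2477 := r2477 v1914 v1927 w508
theorem v2478 : PV l2478 := r2478 v1914 v1927 w509
theorem v2479 : PV l2479 := r2479 v1914 v1939 w568
theorem v2480 : PV l2480 := r2480 v1914 v1939 w569
theorem v2481 : PV l2481 := r2481 v1914 v1939 w570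
theorem v2482 : PV l2482 := r2482 v1914 v1939 w571
theorem v2483 : PV l2483 := r2483 v1914 v1939 w572
theorem v2484 : PV l2484 := r2484 v1957 v1914 w675
theorem v2485 : PV l2485 := r2485 v1914 v2029 v2141 w7047
theorem v2486 : PV l2486 := r2486 v2029 v2142 v1914 w7095
theorem v2487 : PV l2487 := r2487 v1914 v2029 v2141 w7141
theorem v2488 : PV l2488 := r2488 v1914 v2142 v2029 w7681
theorem v2489 : PV l2489 := r2489 v1914 v2029 v2141 w7761
theorem v2490 : PV l2490 := r2490 v1914 v2142 v2029 w7839
theorem v2491 : PV l2491 := r2491 v2141 v2029 v1914 w7935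
theorem v2492 : PV l2492 := r2492 v1914 v2029 v2142 w8010
theorem v2493 : PV l2493 := r2493 v1914 v2029 v2141 w8105
theorem v2494 : PV l2494 := r2494 v1914 v2029 v2142 w8175
theorem v2495 : PV l2495 := r2495 v1914 v2029 v2141 w8262
theorem v2496 : PV l2496 := r2496 v1851 v1914 w78
theorem v2497 : PV l2497 := r2497 v1855 v1914 w79
theorem v2498 : PV l2498 := r2498 v2206 v2209 v359
theorem v2499 : PV l2499 := r2499 v2133 v1907 v2207 v2021 w7157
theorem v2500 : PV l2500 := r2500 v2133 v2158 w2083
theorem v2501 : PV l2501 := r2501 v2133 v2166 w2148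
theorem v2502 : PV l2502 := r2502 v2133 v2168 w2149
theorem v2503 : PV l2503 := r2503 v2133 v1907 v2206 v2021 w7252
theorem v2504 : PV l2504 := r2504 v2021 v2133 v1907 v2207 w7433
theorem v2505 : PV l2505 := r2505 v2206 v2133 v1907 v2021 w7500
theorem v2506 : PV l2506 := r2506 v2017 v2020 w1227
theorem v2507 : PV l2507 := r2507 v2019 v2020 w1228
theorem v2508 : PV l2508 := r2508 v2020 v2033 w1250
theorem v2509 : PV l2509 := r2509 v2020 v2033 w1251
theorem v2510 : PV l2510 := r2510 v2020 v2041 w1275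
theorem v2511 : PV l2511 := r2511 v2020 v2043 w1276
theorem v2512 : PV l2512 := r2512 v2020 v2043 w1277
theorem v2513 : PV l2513 := r2513 v2020 v2055 w1360
theorem v2514 : PV l2514 := r2514 v2020 v2055 w1361
theorem v2515 : PV l2515 := r2515 v2020 v2055 w1362
theorem v2516 : PV l2516 := r2516 v2070 v2020 w1398
theorem v2517 : PV l2517 := r2517 v2207 v1907 v2134 v2020 w7412
theorem v2518 : PV l2518 := r2518 v2206 v1907 v2134 v2020 w7474
theorem v2519 : PV l2519 := r2519 v2134 v2020 v1907 v2207 w7548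
theorem v2520 : PV l2520 := r2520 v2206 v2020 v1907 v2134 w7621
theorem v2521 : PV l2521 := r2521 v2206 v2133 v2021 v1907 w7060
theorem v2522 : PV l2522 := r2522 v2206 v1907 v2021 v2133 w7647
theorem v2523 : PV l2523 := r2523 v2133 v2207 v1907 v2021 w7576
theorem v2524 : PV l2524 := r2524 v2021 v2134 v2207 v1907 w7528
theorem v2525 : PV l2525 := r2525 v2154 v2041 v1927 w8455
theorem v2526 : PV l2526 := r2526 v1927 v2041 v2154 w8761
theorem v2527 : PV l2527 := r2527 v2040 v2053 w1373
theorem v2528 : PV l2528 := r2528 v2040 v1927 v2154 w8341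
theorem v2529 : PV l2529 := r2529 v2154 v1926 v2040 w8369
theorem v2530 : PV l2530 := r2530 v2040 v2154 v1927 w8497
theorem v2531 : PV l2531 := r2531 v2040 v1927 v2154 w8648
theorem v2532 : PV l2532 := r2532 v2166 v1939 v2053 w7107
theorem v2533 : PV l2533 := r2533 v2166 v1939 v2053 w8942
theorem v2534 : PV l2534 := r2534 v2053 v1939 v2166 w9115
theorem v2535 : PV l2535 := r2535 v1941 v2055 v2168 v2222 w7108
theorem v2536 : PV l2536 := r2536 v2222 v1941 v2055 v2168 w8941
theorem v2537 : PV l2537 := r2537 v2222 v2168 v2055 v1941 w9114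
theorem v2538 : PV l2538 := r2538 v1957 v2070 v2185 w7210
theorem v2539 : PV l2539 := r2539 v1957 v2070 v2185 w7222
theorem v2540 : PV l2540 := r2540 v2208 w3585
theorem v2541 : PV l2541 := r2541 v2206 w3586
theorem v2542 : PV l2542 := r2542 v2220 w3750
theorem v2543 : PV l2543 := r2543 v2218 w3751
theorem v2544 : PV l2544 := r2544 v2226 w3839
theorem v2545 : PV l2545 := r2545 v2224 w3840
theorem v2546 : PV l2546 := r2546 v2245 w5328
theorem v2547 : PV l2547 := r2547 v2219 v2157 v1931 v2045 w7159
theorem v2548 : PV l2548 := r2548 v2185 v2157 w2334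
theorem v2549 : PV l2549 := r2549 v2184 v2134 w2064
theorem v2550 : PV l2550 := r2550 v2184 v2142 w2079
theorem v2551 : PV l2551 := r2551 v2184 v2144 w2080
theorem v2552 : PV l2552 := r2552 v2184 v2146 w2081
theorem v2553 : PV l2553 := r2553 v2184 v2154 w2140
theorem v2554 : PV l2554 := r2554 v2184 v2156 w2141
theorem v2555 : PV l2555 := r2555 v2184 v2158 w2142
theorem v2556 : PV l2556 := r2556 v2184 v2166 w2186
theorem v2557 : PV l2557 := r2557 v2184 v2168 w2187
theorem v2558 : PV l2558 := r2558 v2184 v2170 w2188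
theorem v2559 : PV l2559 := r2559 v2184 v1957 v2070 w7078
theorem v2560 : PV l2560 := r2560 v2184 v1957 v2070 w7164
theorem v2561 : PV l2561 := r2561 v2184 v1957 v2070 w7178
theorem v2562 : PV l2562 := r2562 v2184 v1957 v2070 w7260
theorem v2563 : PV l2563 := r2563 v2184 v2070 v1957 w7355
theorem v2564 : PV l2564 := r2564 v2185 v2141 w2235
theorem v2565 : PV l2565 := r2565 v2185 v2143 w2234
theorem v2566 : PV l2566 := r2566 v2185 v2145 w2233
theorem v2567 : PV l2567 := r2567 v1956 v1915 w496
theorem v2568 : PV l2568 := r2568 v1956 v1927 w559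
theorem v2569 : PV l2569 := r2569 v1956 v1933 w560
theorem v2570 : PV l2570 := r2570 v1956 v1937 w561
theorem v2571 : PV l2571 := r2571 v1956 v1939 w608
theorem v2572 : PV l2572 := r2572 v1956 v2070 v2185 w7041
theorem v2573 : PV l2573 := r2573 v1956 v2070 v2184 w7055
theorem v2574 : PV l2574 := r2574 v1956 v2069 v2185 w7069
theorem v2575 : PV l2575 := r2575 v1956 v2069 v2185 w7077
theorem v2576 : PV l2576 := r2576 v1956 v2070 v2184 w7092
theorem v2577 : PV l2577 := r2577 v1956 v2070 v2185 w7102
theorem v2578 : PV l2578 := r2578 v1956 v2069 v2184 w7112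
theorem v2579 : PV l2579 := r2579 v1956 v2069 v2184 w7123
theorem v2580 : PV l2580 := r2580 v1956 v2070 v2185 w7137
theorem v2581 : PV l2581 := r2581 v1956 v2070 v2184 w7151
theorem v2582 : PV l2582 := r2582 v1956 v2069 v2185 w7165
theorem v2583 : PV l2583 := r2583 v1956 v2069 v2185 w7177
theorem v2584 : PV l2584 := r2584 v1956 v2070 v2184 w7188
theorem v2585 : PV l2585 := r2585 v1956 v2070 v2185 w7200
theorem v2586 : PV l2586 := r2586 v1956 v2069 v2184 w7211
theorem v2587 : PV l2587 := r2587 v1956 v2069 v2184 w7221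
theorem v2588 : PV l2588 := r2588 v1956 v2070 v2185 w7231
theorem v2589 : PV l2589 := r2589 v1956 v2070 v2184 w7245
theorem v2590 : PV l2590 := r2590 v1956 v2069 v2185 w7261
theorem v2591 : PV l2591 := r2591 v1956 v2069 v2185 w7276
theorem v2592 : PV l2592 := r2592 v1956 v2070 v2184 w7288
theorem v2593 : PV l2593 := r2593 v1956 v2070 v2185 w7300
theorem v2594 : PV l2594 := r2594 v1956 v2069 v2184 w7313
theorem v2595 : PV l2595 := r2595 v1956 v2069 v2184 w7321
theorem v2596 : PV l2596 := r2596 v1956 v2070 v2185 w7330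
theorem v2597 : PV l2597 := r2597 v1956 v2070 v2184 w7339
theorem v2598 : PV l2598 := r2598 v1956 v2069 v2185 w7356
theorem v2599 : PV l2599 := r2599 v1956 v2069 v2185 w7372
theorem v2600 : PV l2600 := r2600 v1956 v2070 v2184 w7382
theorem v2601 : PV l2601 := r2601 v1956 v2070 v2185 w7393
theorem v2602 : PV l2602 := r2602 v1956 v2069 v2184 v593
theorem v2603 : PV l2603 := r2603 v2069 v2053 w1393
theorem v2604 : PV l2604 := r2604 v2069 v2055 w1394
theorem v2605 : PV l2605 := r2605 v2069 v2057 w1395
theorem v2606 : PV l2606 := r2606 v2069 v2029 w1270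
theorem v2607 : PV l2607 := r2607 v2069 v2031 w1271
theorem v2608 : PV l2608 := r2608 v2069 v2033 w1272
theorem v2609 : PV l2609 := r2609 v2069 v2017 w1248
theorem v2610 : PV l2610 := r2610 v2070 v2022 w1397
theorem v2611 : PV l2611 := r2611 v2070 v2038 w1433
theorem v2612 : PV l2612 := r2612 v2070 v2034 w1434
theorem v2613 : PV l2613 := r2613 v2070 v2028 w1435
theorem v2614 : PV l2614 := r2614 v2070 v2050 w1533
theorem v2615 : PV l2615 := r2615 v2070 v2062 w1599
theorem v2616 : PV l2616 := r2616 v2184 v1957 v2070 w7068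
theorem v2617 : PV l2617 := r2617 v2184 v1957 v2070 w7373
theorem v2618 : PV l2618 := r2618 v2184 v1957 v2070 w7277
theorem v2619 : PV l2619 := r2619 v2185 v1957 v2070 v570
theorem v2620 : PV l2620 := r2620 v2142 v2157 w2066
theorem v2621 : PV l2621 := r2621 v2144 v2157 w2067
theorem v2622 : PV l2622 := r2622 v2144 v2157 w2068
theorem v2623 : PV l2623 := r2623 v2144 v2157 w2069
theorem v2624 : PV l2624 := r2624 v2146 v2157 w2070
theorem v2625 : PV l2625 := r2625 v2146 v2157 w2071
theorem v2626 : PV l2626 := r2626 v2154 v2157 w2108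
theorem v2627 : PV l2627 := r2627 v2156 v2157 w2109
theorem v2628 : PV l2628 := r2628 v2181 v2156 v2157 w2110
theorem v2629 : PV l2629 := r2629 v2166 v2157 w2166
theorem v2630 : PV l2630 := r2630 v2168 v2157 w2167
theorem v2631 : PV l2631 := r2631 v2168 v2157 w2168
theorem v2632 : PV l2632 := r2632 v2168 v2157 w2169
theorem v2633 : PV l2633 := r2633 v2170 v2157 w2170
theorem v2634 : PV l2634 := r2634 v2170 v2157 w2171
theorem v2635 : PV l2635 := r2635 v2170 v2157 w2172
theorem v2636 : PV l2636 := r2636 v2170 v2157 w2173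
theorem v2637 : PV l2637 := r2637 v2170 v2157 w2174
theorem v2638 : PV l2638 := r2638 v2170 v2157 w2175
theorem v2639 : PV l2639 := r2639 v1931 v2045 v2218 v2157 w7254
theorem v2640 : PV l2640 := r2640 v2045 v2219 v2157 v1931 w7349
theorem v2641 : PV l2641 := r2641 v2045 v2157 v2219 v1931 w8388
theorem v2642 : PV l2642 := r2642 v2218 v2045 v1931 v2157 w8536
theorem v2643 : PV l2643 := r2643 v2019 v2044 w1237
theorem v2644 : PV l2644 := r2644 v2021 v2044 w1238
theorem v2645 : PV l2645 := r2645 v2021 v2044 w1239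
theorem v2646 : PV l2646 := r2646 v2029 v2044 w1253
theorem v2647 : PV l2647 := r2647 v2031 v2044 w1254
theorem v2648 : PV l2648 := r2648 v2031 v2044 w1255
theorem v2649 : PV l2649 := r2649 v2031 v2044 w1256
theorem v2650 : PV l2650 := r2650 v2033 v2044 w1257
theorem v2651 : PV l2651 := r2651 v2033 v2044 w1258
theorem v2652 : PV l2652 := r2652 v2033 v2044 w1259
theorem v2653 : PV l2653 := r2653 v2033 v2044 w1260
theorem v2654 : PV l2654 := r2654 v2033 v2044 w1261
theorem v2655 : PV l2655 := r2655 v2033 v2044 w1262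
theorem v2656 : PV l2656 := r2656 v2041 v2044 w1307
theorem v2657 : PV l2657 := r2657 v2043 v2044 w1308
theorem v2658 : PV l2658 := r2658 v2066 v2043 v2044 w1309
theorem v2659 : PV l2659 := r2659 v2053 v2044 w1376
theorem v2660 : PV l2660 := r2660 v2055 v2044 w1377
theorem v2661 : PV l2661 := r2661 v2055 v2044 w1378
theorem v2662 : PV l2662 := r2662 v2055 v2044 w1379
theorem v2663 : PV l2663 := r2663 v2057 v2044 w1380
theorem v2664 : PV l2664 := r2664 v2057 v2044 w1381
theorem v2665 : PV l2665 := r2665 v2057 v2044 w1382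
theorem v2666 : PV l2666 := r2666 v2057 v2044 w1383
theorem v2667 : PV l2667 := r2667 v2057 v2044 w1384
theorem v2668 : PV l2668 := r2668 v2219 v1931 v2158 v2044 w7181
theorem v2669 : PV l2669 := r2669 v1930 v2158 v2218 v2044 w7268
theorem v2670 : PV l2670 := r2670 v2044 v2158 v2218 v1931 w7278
theorem v2671 : PV l2671 := r2671 v2219 v1931 v2044 v2157 w7326
theorem v2672 : PV l2672 := r2672 v1930 v2219 v2044 v2158 w7363
theorem v2673 : PV l2673 := r2673 v2219 v2158 v2044 v1931 w7376
theorem v2674 : PV l2674 := r2674 v2219 v2158 v1931 v2044 w8339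
theorem v2675 : PV l2675 := r2675 v1930 v2158 v2044 v2219 w8367
theorem v2676 : PV l2676 := r2676 v2219 v1931 v2157 v2044 w8424
theorem v2677 : PV l2677 := r2677 v2044 v2219 v1930 v2157 w8441
theorem v2678 : PV l2678 := r2678 v2218 v2044 v2158 v1931 w8495
theorem v2679 : PV l2679 := r2679 v1930 v2158 v2044 v2218 w8519
theorem v2680 : PV l2680 := r2680 v2218 v1931 v2044 v2157 w8569
theorem v2681 : PV l2681 := r2681 v2219 v2044 v2158 v1931 w8646
theorem v2682 : PV l2682 := r2682 v2219 v1930 v2158 v2044 w8671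
theorem v2683 : PV l2683 := r2683 v2219 v1930 v2157 v2044 w8746
theorem v2684 : PV l2684 := r2684 v2218 v2158 v1931 v2044 w8795
theorem v2685 : PV l2685 := r2685 v1919 v1930 w477
theorem v2686 : PV l2686 := r2686 v1919 v1930 w478
theorem v2687 : PV l2687 := r2687 v1923 v1930 w479
theorem v2688 : PV l2688 := r2688 v1930 v1941 w576
theorem v2689 : PV l2689 := r2689 v1930 v1943 w578
theorem v2690 : PV l2690 := r2690 v1930 v1947 w584
theorem v2691 : PV l2691 := r2691 v1930 v2045 v2219 v2158 w7193
theorem v2692 : PV l2692 := r2692 v2219 v2157 v1930 v2045 w7332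
theorem v2693 : PV l2693 := r2693 v2045 v1930 v2219 v2158 w8319
theorem v2694 : PV l2694 := r2694 v2219 v2045 v1930 v2157 w8411
theorem v2695 : PV l2695 := r2695 v2045 v1930 v2158 v2218 w8475
theorem v2696 : PV l2696 := r2696 v2045 v1930 v2157 v2218 w8554
theorem v2697 : PV l2697 := r2697 v1930 v2045 v2219 v2158 w8621
theorem v2698 : PV l2698 := r2698 v2219 v1930 v2157 v2045 w8713
theorem v2699 : PV l2699 := r2699 v1930 v2045 v2158 v2218 w8784
theorem v2700 : PV l2700 := r2700 v1896 v1930 w373
theorem v2701 : PV l2701 := r2701 v1851 v1930 w90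
theorem v2702 : PV l2702 := r2702 v2041 v2154 v1926 w7388
theorem v2703 : PV l2703 := r2703 v2041 v2154 v1926 w8321
theorem v2704 : PV l2704 := r2704 v2153 v1926 v2041 w8413
theorem v2705 : PV l2705 := r2705 v2041 v1926 v2154 w8476
theorem v2706 : PV l2706 := r2706 v2153 v1926 v2041 w8556
theorem v2707 : PV l2707 := r2707 v2223 w3583
theorem v2708 : PV l2708 := r2708 v2219 w3508
theorem v2709 : PV l2709 := r2709 v2221 w3509
theorem v2710 : PV l2710 := r2710 v2069 v2041 w1351
theorem v2711 : PV l2711 := r2711 v2069 v2043 w1352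
theorem v2712 : PV l2712 := r2712 v2069 v2045 w1353
theorem v2713 : PV l2713 := r2713 v2185 v2169 w2397
theorem v2714 : PV l2714 := r2714 v2065 v2232 v1951 v2180 v2244 w7701
theorem v2715 : PV l2715 := r2715 v2244 w5604
theorem v2716 : PV l2716 := r2716 v1950 w619
theorem v2717 : PV l2717 := r2717 v1950 w612
theorem v2718 : PV l2718 := r2718 v2205 w3383
theorem v2719 : PV l2719 := r2719 v2247 w5505
theorem v2720 : PV l2720 := r2720 v2247 w5507
theorem v2721 : PV l2721 := r2721 v2247 w5509
theorem v2722 : PV l2722 := r2722 v1947 v2227 v2173 v2061 w7163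
theorem v2723 : PV l2723 := r2723 v2247 w5503
theorem v2724 : PV l2724 := r2724 v1945 v2059 v2171 w7162
theorem v2725 : PV l2725 := r2725 v2169 v2057 v1943 v2225 w7161
theorem v2726 : PV l2726 := r2726 v2057 v2169 v1943 v2225 w9067
theorem v2727 : PV l2727 := r2727 v2167 v2223 v2055 v1941 w7160
theorem v2728 : PV l2728 := r2728 v2167 v1941 v2223 v2055 w9068
theorem v2729 : PV l2729 := r2729 v2053 v1939 v2165 w9069
theorem v2730 : PV l2730 := r2730 v2053 v1939 v2166 w9031
theorem v2731 : PV l2731 := r2731 v2245 w5334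
theorem v2732 : PV l2732 := r2732 v2245 w5338
theorem v2733 : PV l2733 := r2733 v2221 v2049 v2161 v1935 w8691
theorem v2734 : PV l2734 := r2734 v2245 w5330
theorem v2735 : PV l2735 := r2735 v2155 v2043 v1929 v2217 w8694
theorem v2736 : PV l2736 := r2736 v2033 v2145 v2213 v1919 w7158
theorem v2737 : PV l2737 := r2737 v2241 w5207
theorem v2738 : PV l2738 := r2738 v2241 w5202
theorem v2739 : PV l2739 := r2739 v2240 w4320
theorem v2740 : PV l2740 := r2740 v2239 w4350
theorem v2741 : PV l2741 := r2741 v2248 w5000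
theorem v2742 : PV l2742 := r2742 v2247 w5010
theorem v2743 : PV l2743 := r2743 v2239 w4343
theorem v2744 : PV l2744 := r2744 v2240 w4316
theorem v2745 : PV l2745 := r2745 v2239 w4342
theorem v2746 : PV l2746 := r2746 v2239 w4348
theorem v2747 : PV l2747 := r2747 v2239 w4332
theorem v2748 : PV l2748 := r2748 v2239 w4338
theorem v2749 : PV l2749 := r2749 v2239 w4341
theorem v2750 : PV l2750 := r2750 v2239 w4330
theorem v2751 : PV l2751 := r2751 v2239 w4331
theorem v2752 : PV l2752 := r2752 v2247 w4985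
theorem v2753 : PV l2753 := r2753 v2239 w4304
theorem v2754 : PV l2754 := r2754 v2246 w4776
theorem v2755 : PV l2755 := r2755 v2239 w4299
theorem v2756 : PV l2756 := r2756 v2246 w4768
theorem v2757 : PV l2757 := r2757 v2239 w4303
theorem v2758 : PV l2758 := r2758 v2239 w4294
theorem v2759 : PV l2759 := r2759 v2102 w7816
theorem v2760 : PV l2760 := r2760 v2243 w4616
theorem v2761 : PV l2761 := r2761 v2100 w7817
theorem v2762 : PV l2762 := r2762 v2239 w4276
theorem v2763 : PV l2763 := r2763 v2239 w4277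
theorem v2764 : PV l2764 := r2764 v2243 w4609
theorem v2765 : PV l2765 := r2765 v2240 w4260
theorem v2766 : PV l2766 := r2766 v2239 w4261
theorem v2767 : PV l2767 := r2767 v2239 w4254
theorem v2768 : PV l2768 := r2768 v2239 w4248
theorem v2769 : PV l2769 := r2769 v2239 w4247
theorem v2770 : PV l2770 := r2770 v2239 w4253
theorem v2771 : PV l2771 := r2771 v2239 w4242
theorem v2772 : PV l2772 := r2772 v2239 w4243
theorem v2773 : PV l2773 := r2773 v2239 w4238
theorem v2774 : PV l2774 := r2774 v2247 w4221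
theorem v2775 : PV l2775 := r2775 v2238 w3883
theorem v2776 : PV l2776 := r2776 v2238 w3867
theorem v2777 : PV l2777 := r2777 v2240 w3918
theorem v2778 : PV l2778 := r2778 v2237 w3880
theorem v2779 : PV l2779 := r2779 v2240 w3905
theorem v2780 : PV l2780 := r2780 v2239 w3921
theorem v2781 : PV l2781 := r2781 v2239 w3926
theorem v2782 : PV l2782 := r2782 v2238 w3864
theorem v2783 : PV l2783 := r2783 v2239 w3916
theorem v2784 : PV l2784 := r2784 v2237 w3878
theorem v2785 : PV l2785 := r2785 v2239 w3898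
theorem v2786 : PV l2786 := r2786 v2239 w3908
theorem v2787 : PV l2787 := r2787 v2239 w3912
theorem v2788 : PV l2788 := r2788 v2237 w3873
theorem v2789 : PV l2789 := r2789 v2239 w3892
theorem v2790 : PV l2790 := r2790 v2239 w3903
theorem v2791 : PV l2791 := r2791 v2196 w3290
theorem v2792 : PV l2792 := r2792 v2190 w3288
theorem v2793 : PV l2793 := r2793 v2231 v2239 v783
theorem v2794 : PV l2794 := r2794 v2231 v2239 v784
theorem v2795 : PV l2795 := r2795 v2226 w3376
theorem v2796 : PV l2796 := r2796 v2205 v2226 w3377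
theorem v2797 : PV l2797 := r2797 v2207 v2226 w3378
theorem v2798 : PV l2798 := r2798 v2226 w3379
theorem v2799 : PV l2799 := r2799 v2209 v2226 w3380
theorem v2800 : PV l2800 := r2800 v2226 w3382
theorem v2801 : PV l2801 := r2801 v2226 w3419
theorem v2802 : PV l2802 := r2802 v2211 v2226 w3420
theorem v2803 : PV l2803 := r2803 v2213 v2226 w3421
theorem v2804 : PV l2804 := r2804 v2226 w3423
theorem v2805 : PV l2805 := r2805 v2215 v2226 w3424
theorem v2806 : PV l2806 := r2806 v2226 w3482
theorem v2807 : PV l2807 := r2807 v2226 v2217 w3485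
theorem v2808 : PV l2808 := r2808 v2226 v2219 w3486
theorem v2809 : PV l2809 := r2809 v2226 w3492
theorem v2810 : PV l2810 := r2810 v2221 v2226 w3493
theorem v2811 : PV l2811 := r2811 v2226 w3500
theorem v2812 : PV l2812 := r2812 v2226 w3501
theorem v2813 : PV l2813 := r2813 v2226 w3503
theorem v2814 : PV l2814 := r2814 v2226 w3574
theorem v2815 : PV l2815 := r2815 v2225 v2226 w3576
theorem v2816 : PV l2816 := r2816 v1947 v2061 v2174 v2226 w9111
theorem v2817 : PV l2817 := r2817 v1945 v2059 v2172 w7110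
theorem v2818 : PV l2818 := r2818 v1945 v2059 v2172 w8939
theorem v2819 : PV l2819 := r2819 v1945 v2172 v2059 w9112
theorem v2820 : PV l2820 := r2820 v2224 v2227 v401
theorem v2821 : PV l2821 := r2821 v2224 v402
theorem v2822 : PV l2822 := r2822 v2224 v2057 v1943 v2170 w7109
theorem v2823 : PV l2823 := r2823 v2224 v2170 v1943 v2057 w8940
theorem v2824 : PV l2824 := r2824 v2224 v2057 v2170 v1943 w9113
theorem v2825 : PV l2825 := r2825 v2233 w3466
theorem v2826 : PV l2826 := r2826 v2220 w3369
theorem v2827 : PV l2827 := r2827 v2220 w3399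
theorem v2828 : PV l2828 := r2828 v2211 v2220 w3400
theorem v2829 : PV l2829 := r2829 v2213 v2220 w3402
theorem v2830 : PV l2830 := r2830 v2220 w3408
theorem v2831 : PV l2831 := r2831 v2215 v2220 w3409
theorem v2832 : PV l2832 := r2832 v2220 w3412
theorem v2833 : PV l2833 := r2833 v2220 w3462
theorem v2834 : PV l2834 := r2834 v2220 v2219 w3463
theorem v2835 : PV l2835 := r2835 v2220 w3550
theorem v2836 : PV l2836 := r2836 v2223 v2220 w3551
theorem v2837 : PV l2837 := r2837 v2225 v2220 w3553
theorem v2838 : PV l2838 := r2838 v2220 w3558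
theorem v2839 : PV l2839 := r2839 v2220 w3559
theorem v2840 : PV l2840 := r2840 v2227 v2220 w3560
theorem v2841 : PV l2841 := r2841 v2220 w3566
theorem v2842 : PV l2842 := r2842 v2220 v2049 v1935 v2162 w7106
theorem v2843 : PV l2843 := r2843 v2220 v2049 v2162 v1935 w8757
theorem v2844 : PV l2844 := r2844 v2047 v2160 v1933 w7105
theorem v2845 : PV l2845 := r2845 v2216 v380
theorem v2846 : PV l2846 := r2846 v2216 v384
theorem v2847 : PV l2847 := r2847 v2216 v2223 w3544
theorem v2848 : PV l2848 := r2848 v2216 v1929 v2043 v2156 w8454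
theorem v2849 : PV l2849 := r2849 v2214 w3363
theorem v2850 : PV l2850 := r2850 v2214 v2217 w3447
theorem v2851 : PV l2851 := r2851 v2214 w3450
theorem v2852 : PV l2852 := r2852 v2214 w3451
theorem v2853 : PV l2853 := r2853 v2214 v2221 w3452
theorem v2854 : PV l2854 := r2854 v2214 w3454
theorem v2855 : PV l2855 := r2855 v2214 w3533
theorem v2856 : PV l2856 := r2856 v2214 v2225 w3534
theorem v2857 : PV l2857 := r2857 v2214 w3536
theorem v2858 : PV l2858 := r2858 v2210 v367
theorem v2859 : PV l2859 := r2859 v2210 v371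
theorem v2860 : PV l2860 := r2860 v2210 v1917 v2144 v2031 w7819
theorem v2861 : PV l2861 := r2861 v2208 v364
theorem v2862 : PV l2862 := r2862 v2226 w3284
theorem v2863 : PV l2863 := r2863 v2224 w3283
theorem v2864 : PV l2864 := r2864 v2235 w3285
theorem v2865 : PV l2865 := r2865 v2224 w3282
theorem v2866 : PV l2866 := r2866 v2226 w3281
theorem v2867 : PV l2867 := r2867 v2220 w3279
theorem v2868 : PV l2868 := r2868 v2220 w3278
theorem v2869 : PV l2869 := r2869 v2218 w3277
theorem v2870 : PV l2870 := r2870 v2218 w3276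
theorem v2871 : PV l2871 := r2871 v2203 w3257
theorem v2872 : PV l2872 := r2872 v2203 w3260
theorem v2873 : PV l2873 := r2873 v2203 w3265
theorem v2874 : PV l2874 := r2874 v2203 w3267
theorem v2875 : PV l2875 := r2875 v2203 w3270
theorem v2876 : PV l2876 := r2876 v2203 w3271
theorem v2877 : PV l2877 := r2877 v2203 w3273
theorem v2878 : PV l2878 := r2878 v2203 w3274
theorem v2879 : PV l2879 := r2879 v2203 w3275
theorem v2880 : PV l2880 := r2880 v2203 v1900 v2014 v2127 w6838
theorem v2881 : PV l2881 := r2881 v2012 v2201 v1898 v2125 w6837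
theorem v2882 : PV l2882 := r2882 v2198 v343
theorem v2883 : PV l2883 := r2883 v2217 w3254
theorem v2884 : PV l2884 := r2884 v2219 w3255
theorem v2885 : PV l2885 := r2885 v2217 w3256
theorem v2886 : PV l2886 := r2886 v2219 w3258
theorem v2887 : PV l2887 := r2887 v2223 w3262
theorem v2888 : PV l2888 := r2888 v2225 w3263
theorem v2889 : PV l2889 := r2889 v2223 w3266
theorem v2890 : PV l2890 := r2890 v2225 w3268
theorem v2891 : PV l2891 := r2891 v2227 w3269
theorem v2892 : PV l2892 := r2892 v2225 w3272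
theorem v2893 : PV l2893 := r2893 v2123 v1896 v2010 w6836
theorem v2894 : PV l2894 := r2894 v2199 w3264
theorem v2895 : PV l2895 := r2895 v2226 w3144
theorem v2896 : PV l2896 := r2896 v2224 w3146
theorem v2897 : PV l2897 := r2897 v1889 v2003 w6542
theorem v2898 : PV l2898 := r2898 v2231 w2767
theorem v2899 : PV l2899 := r2899 v2230 w2794
theorem v2900 : PV l2900 := r2900 v2226 w3133
theorem v2901 : PV l2901 := r2901 v2226 w3140
theorem v2902 : PV l2902 := r2902 v2224 w3141
theorem v2903 : PV l2903 := r2903 v2236 w3221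
theorem v2904 : PV l2904 := r2904 v2235 w3235
theorem v2905 : PV l2905 := r2905 v2001 v2116 v1887 w6541
theorem v2906 : PV l2906 := r2906 v1887 v2001 v2116 w9025
theorem v2907 : PV l2907 := r2907 v2230 w2786
theorem v2908 : PV l2908 := r2908 v2226 w3130
theorem v2909 : PV l2909 := r2909 v2226 w3136
theorem v2910 : PV l2910 := r2910 v2224 w3138
theorem v2911 : PV l2911 := r2911 v2236 w3215
theorem v2912 : PV l2912 := r2912 v2235 w3224
theorem v2913 : PV l2913 := r2913 v2235 w3230
theorem v2914 : PV l2914 := r2914 v1885 v1999 w6540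
theorem v2915 : PV l2915 := r2915 v1885 v1999 w9026
theorem v2916 : PV l2916 := r2916 v2231 w2763
theorem v2917 : PV l2917 := r2917 v2230 w2793
theorem v2918 : PV l2918 := r2918 v2226 w3123
theorem v2919 : PV l2919 := r2919 v2224 w3124
theorem v2920 : PV l2920 := r2920 v2224 w3134
theorem v2921 : PV l2921 := r2921 v2114 w6539
theorem v2922 : PV l2922 := r2922 v2230 w2778
theorem v2923 : PV l2923 := r2923 v2226 w3119
theorem v2924 : PV l2924 := r2924 v2226 w3120
theorem v2925 : PV l2925 := r2925 v2224 w3121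
theorem v2926 : PV l2926 := r2926 v2224 w3131
theorem v2927 : PV l2927 := r2927 v2112 w6538
theorem v2928 : PV l2928 := r2928 v2230 w2777
theorem v2929 : PV l2929 := r2929 v2226 w3116
theorem v2930 : PV l2930 := r2930 v2224 w3127
theorem v2931 : PV l2931 := r2931 v2220 w2997
theorem v2932 : PV l2932 := r2932 v2218 w2998
theorem v2933 : PV l2933 := r2933 v1883 v1997 w8587
theorem v2934 : PV l2934 := r2934 v2230 w2752
theorem v2935 : PV l2935 := r2935 v2220 w2994
theorem v2936 : PV l2936 := r2936 v2218 w2995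
theorem v2937 : PV l2937 := r2937 v2233 w3053
theorem v2938 : PV l2938 := r2938 v1881 v1995 v2110 w6536
theorem v2939 : PV l2939 := r2939 v1881 v1995 v2110 w8588
theorem v2940 : PV l2940 := r2940 v2230 w2747
theorem v2941 : PV l2941 := r2941 v2220 w2987
theorem v2942 : PV l2942 := r2942 v2220 w2991
theorem v2943 : PV l2943 := r2943 v2218 w2992
theorem v2944 : PV l2944 := r2944 v1879 v1993 w6535
theorem v2945 : PV l2945 := r2945 v1879 v1993 w8589
theorem v2946 : PV l2946 := r2946 v2230 w2751
theorem v2947 : PV l2947 := r2947 v2220 w2983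
theorem v2948 : PV l2948 := r2948 v2218 w2990
theorem v2949 : PV l2949 := r2949 v2108 w6534
theorem v2950 : PV l2950 := r2950 v2108 w8590
theorem v2951 : PV l2951 := r2951 v2230 w2742
theorem v2952 : PV l2952 := r2952 v2220 w2981
theorem v2953 : PV l2953 := r2953 v2218 w2988
theorem v2954 : PV l2954 := r2954 v2106 w6533
theorem v2955 : PV l2955 := r2955 v2106 w8591
theorem v2956 : PV l2956 := r2956 v2230 w2741
theorem v2957 : PV l2957 := r2957 v2220 w2978
theorem v2958 : PV l2958 := r2958 v2218 w2985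
theorem v2959 : PV l2959 := r2959 v2214 w2939
theorem v2960 : PV l2960 := r2960 v2212 w2940
theorem v2961 : PV l2961 := r2961 v1991 v1877 w7986
theorem v2962 : PV l2962 := r2962 v2104 v1989 v1875 w7987
theorem v2963 : PV l2963 := r2963 v2231 w2718
theorem v2964 : PV l2964 := r2964 v2102 w7988
theorem v2965 : PV l2965 := r2965 v2100 w7989
theorem v2966 : PV l2966 := r2966 v2230 w2725
theorem v2967 : PV l2967 := r2967 v2230 w2726
theorem v2968 : PV l2968 := r2968 v2212 w2936
theorem v2969 : PV l2969 := r2969 v2231 w2709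
theorem v2970 : PV l2970 := r2970 v2197 v331
theorem v2971 : PV l2971 := r2971 v2202 v2197 w2815
theorem v2972 : PV l2972 := r2972 v2202 v2197 w2817
theorem v2973 : PV l2973 := r2973 v2197 w2818
theorem v2974 : PV l2974 := r2974 v2197 w2836
theorem v2975 : PV l2975 := r2975 v2197 w2838
theorem v2976 : PV l2976 := r2976 v2197 w2841
theorem v2977 : PV l2977 := r2977 v2197 w2842
theorem v2978 : PV l2978 := r2978 v2197 w2843
theorem v2979 : PV l2979 := r2979 v2197 w2844
theorem v2980 : PV l2980 := r2980 v2197 w2856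
theorem v2981 : PV l2981 := r2981 v2197 w2859
theorem v2982 : PV l2982 := r2982 v2197 w2860
theorem v2983 : PV l2983 := r2983 v2197 w2861
theorem v2984 : PV l2984 := r2984 v2197 w2862
theorem v2985 : PV l2985 := r2985 v2197 w2863
theorem v2986 : PV l2986 := r2986 v2197 w2864
theorem v2987 : PV l2987 := r2987 v2197 w2887
theorem v2988 : PV l2988 := r2988 v2197 w2890
theorem v2989 : PV l2989 := r2989 v2197 w2892
theorem v2990 : PV l2990 := r2990 v2197 w2893
theorem v2991 : PV l2991 := r2991 v2197 w2894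
theorem v2992 : PV l2992 := r2992 v2197 w2895
theorem v2993 : PV l2993 := r2993 v2197 w2911
theorem v2994 : PV l2994 := r2994 v2197 w2913
theorem v2995 : PV l2995 := r2995 v2197 w2915
theorem v2996 : PV l2996 := r2996 v2197 w2917
theorem v2997 : PV l2997 := r2997 v2197 w2918
theorem v2998 : PV l2998 := r2998 v2197 w2919
theorem v2999 : PV l2999 := r2999 v2197 w2920
theorem v3000 : PV l3000 := r3000 v2197 w2921
theorem v3001 : PV l3001 := r3001 v2197 w2922
theorem v3002 : PV l3002 := r3002 v2197 w2923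
theorem v3003 : PV l3003 := r3003 v2197 w2926
theorem v3004 : PV l3004 := r3004 v2197 v1141
theorem v3005 : PV l3005 := r3005 v2197 v1142
theorem v3006 : PV l3006 := r3006 v2195 v1143
theorem v3007 : PV l3007 := r3007 v2195 v1144
theorem v3008 : PV l3008 := r3008 v2192 v330
theorem v3009 : PV l3009 := r3009 v2217 w2881
theorem v3010 : PV l3010 := r3010 v2219 w2884
theorem v3011 : PV l3011 := r3011 v2217 w2888
theorem v3012 : PV l3012 := r3012 v2219 w2891
theorem v3013 : PV l3013 := r3013 v2193 v2196 w2706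
theorem v3014 : PV l3014 := r3014 v2193 w2814
theorem v3015 : PV l3015 := r3015 v2193 w2833
theorem v3016 : PV l3016 := r3016 v2193 w2835
theorem v3017 : PV l3017 := r3017 v2193 w2850
theorem v3018 : PV l3018 := r3018 v2193 w2851
theorem v3019 : PV l3019 := r3019 v2193 w2852
theorem v3020 : PV l3020 := r3020 v2193 w2876
theorem v3021 : PV l3021 := r3021 v2193 w2878
theorem v3022 : PV l3022 := r3022 v2193 w2879
theorem v3023 : PV l3023 := r3023 v2193 w2886
theorem v3024 : PV l3024 := r3024 v2193 w2901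
theorem v3025 : PV l3025 := r3025 v2193 w2904
theorem v3026 : PV l3026 := r3026 v2193 w2906
theorem v3027 : PV l3027 := r3027 v2193 w2916
theorem v3028 : PV l3028 := r3028 v2193 w2925
theorem v3029 : PV l3029 := r3029 v2193 v1147
theorem v3030 : PV l3030 := r3030 v2193 v1148
theorem v3031 : PV l3031 := r3031 v2217 w2873
theorem v3032 : PV l3032 := r3032 v2219 w2877
theorem v3033 : PV l3033 := r3033 v2202 w2811
theorem v3034 : PV l3034 := r3034 v1980 v1866 w6898
theorem v3035 : PV l3035 := r3035 v2231 w2697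
theorem v3036 : PV l3036 := r3036 v2220 w2658
theorem v3037 : PV l3037 := r3037 v2220 w2655
theorem v3038 : PV l3038 := r3038 v2220 w2653
theorem v3039 : PV l3039 := r3039 v2218 w2654
theorem v3040 : PV l3040 := r3040 v2218 w2656
theorem v3041 : PV l3041 := r3041 v2228 w2437
theorem v3042 : PV l3042 := r3042 v2191 v2196 w2597
theorem v3043 : PV l3043 := r3043 v2191 v2196 w2598
theorem v3044 : PV l3044 := r3044 v2191 v2196 w2599
theorem v3045 : PV l3045 := r3045 v2191 v2196 w2600
theorem v3046 : PV l3046 := r3046 v2202 v2191 w2605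
theorem v3047 : PV l3047 := r3047 v2202 v2191 w2606
theorem v3048 : PV l3048 := r3048 v2191 w2621
theorem v3049 : PV l3049 := r3049 v2191 w2622
theorem v3050 : PV l3050 := r3050 v2191 w2624
theorem v3051 : PV l3051 := r3051 v2191 w2625
theorem v3052 : PV l3052 := r3052 v2191 w2628
theorem v3053 : PV l3053 := r3053 v2186 v320
theorem v3054 : PV l3054 := r3054 v2219 w2620
theorem v3055 : PV l3055 := r3055 v2187 v2196 w2590
theorem v3056 : PV l3056 := r3056 v2187 v2196 w2591
theorem v3057 : PV l3057 := r3057 v2187 v2192 w2592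
theorem v3058 : PV l3058 := r3058 v2187 v2196 w2593
theorem v3059 : PV l3059 := r3059 v2187 v2192 w2596
theorem v3060 : PV l3060 := r3060 v2202 v2187 w2602
theorem v3061 : PV l3061 := r3061 v2198 v2187 w2603
theorem v3062 : PV l3062 := r3062 v2187 w2604
theorem v3063 : PV l3063 := r3063 v2187 w2618
theorem v3064 : PV l3064 := r3064 v2187 w2619
theorem v3065 : PV l3065 := r3065 v2187 w2623
theorem v3066 : PV l3066 := r3066 v2187 w2627
theorem v3067 : PV l3067 := r3067 v2196 w2588
theorem v3068 : PV l3068 := r3068 v2192 w2589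
theorem v3069 : PV l3069 := r3069 v2192 w2594
theorem v3070 : PV l3070 := r3070 v1965 v1850 v2078 w6060
theorem v3071 : PV l3071 := r3071 v1850 v1965 v2078 w7212
theorem v3072 : PV l3072 := r3072 v2229 w2434
theorem v3073 : PV l3073 := r3073 v2229 w2433
theorem v3074 : PV l3074 := r3074 v2231 w2473
theorem v3075 : PV l3075 := r3075 v2231 w2459
theorem v3076 : PV l3076 := r3076 v2230 w2476
theorem v3077 : PV l3077 := r3077 v2230 w2481
theorem v3078 : PV l3078 := r3078 v1846 v1961 w6059
theorem v3079 : PV l3079 := r3079 v1846 v1961 w6545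
theorem v3080 : PV l3080 := r3080 v2228 w2429
theorem v3081 : PV l3081 := r3081 v2230 w2470
theorem v3082 : PV l3082 := r3082 v1844 v1959 w6057
theorem v3083 : PV l3083 := r3083 v1959 v1844 w6546
theorem v3084 : PV l3084 := r3084 v2230 w2452
theorem v3085 : PV l3085 := r3085 v2230 w2462
theorem v3086 : PV l3086 := r3086 v2230 w2466
theorem v3087 : PV l3087 := r3087 v2228 w2423
theorem v3088 : PV l3088 := r3088 v2228 w2425
theorem v3089 : PV l3089 := r3089 v2186 v2197 w2495
theorem v3090 : PV l3090 := r3090 v2188 v2197 w2504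
theorem v3091 : PV l3091 := r3091 v2230 w2445
theorem v3092 : PV l3092 := r3092 v2230 w2456
theorem v3093 : PV l3093 := r3093 v2228 w2422
theorem v3094 : PV l3094 := r3094 v2197 w2487
theorem v3095 : PV l3095 := r3095 v2197 w2490
theorem v3096 : PV l3096 := r3096 v2197 w2498
theorem v3097 : PV l3097 := r3097 v2184 v2127 w2016
theorem v3098 : PV l3098 := r3098 v2184 v2125 w2017
theorem v3099 : PV l3099 := r3099 v2075 w1767
theorem v3100 : PV l3100 := r3100 v2071 w1768
theorem v3101 : PV l3101 := r3101 v2134 v2175 w2058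
theorem v3102 : PV l3102 := r3102 v2138 v2175 w2059
theorem v3103 : PV l3103 := r3103 v2138 v2175 w2060
theorem v3104 : PV l3104 := r3104 v2140 v2175 w2061
theorem v3105 : PV l3105 := r3105 v2140 v2175 w2062
theorem v3106 : PV l3106 := r3106 v2140 v2175 w2063
theorem v3107 : PV l3107 := r3107 v2142 v2175 w2075
theorem v3108 : PV l3108 := r3108 v2144 v2175 w2076
theorem v3109 : PV l3109 := r3109 v2148 v2175 w2077
theorem v3110 : PV l3110 := r3110 v2150 v2175 w2078
theorem v3111 : PV l3111 := r3111 v2156 v2175 w2127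
theorem v3112 : PV l3112 := r3112 v2175 v2158 w2130
theorem v3113 : PV l3113 := r3113 v2160 v2175 w2131
theorem v3114 : PV l3114 := r3114 v2160 v2175 w2132
theorem v3115 : PV l3115 := r3115 v2175 v2162 w2133
theorem v3116 : PV l3116 := r3116 v2175 v2162 w2135
theorem v3117 : PV l3117 := r3117 v2175 v2164 w2136
theorem v3118 : PV l3118 := r3118 v2175 v2164 w2137
theorem v3119 : PV l3119 := r3119 v2175 v2164 w2139
theorem v3120 : PV l3120 := r3120 v2166 v2175 w2183
theorem v3121 : PV l3121 := r3121 v2168 v2175 w2184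
theorem v3122 : PV l3122 := r3122 v2172 v2175 w2185
theorem v3123 : PV l3123 := r3123 v2061 v1947 v2226 v2173 w7259
theorem v3124 : PV l3124 := r3124 v2227 v2173 v2061 v1947 w7354
theorem v3125 : PV l3125 := r3125 v2142 v2171 w2074
theorem v3126 : PV l3126 := r3126 v2154 v2171 w2120
theorem v3127 : PV l3127 := r3127 v2156 v2171 w2121
theorem v3128 : PV l3128 := r3128 v2171 v2158 w2122
theorem v3129 : PV l3129 := r3129 v2160 v2171 w2125
theorem v3130 : PV l3130 := r3130 v2160 v2171 w2126
theorem v3131 : PV l3131 := r3131 v2171 v2166 w2182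
theorem v3132 : PV l3132 := r3132 v1945 v2059 v2171 w7353
theorem v3133 : PV l3133 := r3133 v2057 v2169 v2224 v1943 w7258
theorem v3134 : PV l3134 := r3134 v2169 v2057 v1943 v2225 w7352
theorem v3135 : PV l3135 := r3135 v2224 v2057 v1943 v2169 w9150
theorem v3136 : PV l3136 := r3136 v2167 v1941 v2222 v2055 w7257
theorem v3137 : PV l3137 := r3137 v2167 v1941 v2055 v2223 w7351
theorem v3138 : PV l3138 := r3138 v2154 v2165 w2111
theorem v3139 : PV l3139 := r3139 v2154 v2165 w2112
theorem v3140 : PV l3140 := r3140 v2154 v2165 w2113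
theorem v3141 : PV l3141 := r3141 v2156 v2165 w2114
theorem v3142 : PV l3142 := r3142 v2156 v2165 w2115
theorem v3143 : PV l3143 := r3143 v2053 v2165 v1939 w7256
theorem v3144 : PV l3144 := r3144 v2053 v2165 v1939 w7350
theorem v3145 : PV l3145 := r3145 v2051 v1937 v2163 w8385
theorem v3146 : PV l3146 := r3146 v1937 v2051 v2163 w8533
theorem v3147 : PV l3147 := r3147 v2220 v2161 v1935 v2049 w8825
theorem v3148 : PV l3148 := r3148 v2159 v2166 w2176
theorem v3149 : PV l3149 := r3149 v2159 v2168 w2177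
theorem v3150 : PV l3150 := r3150 v2159 v2172 w2178
theorem v3151 : PV l3151 := r3151 v1933 v2047 v2159 w7255
theorem v3152 : PV l3152 := r3152 v2159 v1933 v2047 w8387
theorem v3153 : PV l3153 := r3153 v2159 v2047 v1933 w8535
theorem v3154 : PV l3154 := r3154 v2155 v2217 v1929 v2043 w7348
theorem v3155 : PV l3155 := r3155 v2136 v2151 w2057
theorem v3156 : PV l3156 := r3156 v2151 v2154 w2098
theorem v3157 : PV l3157 := r3157 v2151 v2156 w2099
theorem v3158 : PV l3158 := r3158 v2151 v2158 w2100
theorem v3159 : PV l3159 := r3159 v2151 v2160 w2102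
theorem v3160 : PV l3160 := r3160 v2151 v2160 w2103
theorem v3161 : PV l3161 := r3161 v2151 v2162 w2104
theorem v3162 : PV l3162 := r3162 v2151 v2164 w2105
theorem v3163 : PV l3163 := r3163 v2151 v2164 w2106
theorem v3164 : PV l3164 := r3164 v2151 v2164 w2107
theorem v3165 : PV l3165 := r3165 v2151 v2166 w2158
theorem v3166 : PV l3166 := r3166 v2151 v2172 w2159
theorem v3167 : PV l3167 := r3167 v2039 v1925 v2151 w7910
theorem v3168 : PV l3168 := r3168 v2037 v2214 v2149 v1923 w7911
theorem v3169 : PV l3169 := r3169 v2147 v2154 w2093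
theorem v3170 : PV l3170 := r3170 v2147 v2156 w2094
theorem v3171 : PV l3171 := r3171 v2147 v2156 w2095
theorem v3172 : PV l3172 := r3172 v2147 v2160 w2096
theorem v3173 : PV l3173 := r3173 v2147 v2160 w2097
theorem v3174 : PV l3174 := r3174 v2147 v2164 w2101
theorem v3175 : PV l3175 := r3175 v2147 v2166 w2156
theorem v3176 : PV l3176 := r3176 v2147 v2172 w2157
theorem v3177 : PV l3177 := r3177 v2035 v2147 v1921 w7912
theorem v3178 : PV l3178 := r3178 v1919 v2145 v2213 v2033 w7347
theorem v3179 : PV l3179 := r3179 v2033 v2145 v2213 v1919 w7741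
theorem v3180 : PV l3180 := r3180 v2033 v1919 v2212 v2145 w7913
theorem v3181 : PV l3181 := r3181 v2031 v1917 v2210 v2143 w7914
theorem v3182 : PV l3182 := r3182 v2025 v2137 v1911 v2209 w7345
theorem v3183 : PV l3183 := r3183 v2137 v2208 v1911 v2025 w7645
theorem v3184 : PV l3184 := r3184 v2117 v2175 w2002
theorem v3185 : PV l3185 := r3185 v2121 v2175 w2003
theorem v3186 : PV l3186 := r3186 v2117 v2175 w2000
theorem v3187 : PV l3187 := r3187 v2121 v2175 w2001
theorem v3188 : PV l3188 := r3188 v2117 v2175 w1999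
theorem v3189 : PV l3189 := r3189 v2202 v1900 v2014 v2128 w6823
theorem v3190 : PV l3190 := r3190 v2203 v2014 v2128 v1900 w6868
theorem v3191 : PV l3191 := r3191 v2202 v1900 v2014 v2128 w6932
theorem v3192 : PV l3192 := r3192 v2126 v2166 w1995
theorem v3193 : PV l3193 := r3193 v2012 v2201 v1898 v2126 w6867
theorem v3194 : PV l3194 := r3194 v2200 v1898 v2012 v2126 w6931
theorem v3195 : PV l3195 := r3195 v2200 v1898 v2012 v2126 w7155
theorem v3196 : PV l3196 := r3196 v2124 v2154 w1988
theorem v3197 : PV l3197 := r3197 v2124 v2158 w1989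
theorem v3198 : PV l3198 := r3198 v2124 v2158 w1990
theorem v3199 : PV l3199 := r3199 v2124 v2158 w1991
theorem v3200 : PV l3200 := r3200 v2124 v2166 w1992
theorem v3201 : PV l3201 := r3201 v2124 v2168 w1993
theorem v3202 : PV l3202 := r3202 v2124 v2170 w1994
theorem v3203 : PV l3203 := r3203 v2124 v2168 w1996
theorem v3204 : PV l3204 := r3204 v2124 v2170 w1997
theorem v3205 : PV l3205 := r3205 v2185 v2124 w1998
theorem v3206 : PV l3206 := r3206 v1896 v2010 v2124 w6822
theorem v3207 : PV l3207 := r3207 v2010 v1896 v2124 w6866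
theorem v3208 : PV l3208 := r3208 v1896 v2010 v2124 w6930
theorem v3209 : PV l3209 := r3209 v1896 v2010 v2124 w7156
theorem v3210 : PV l3210 := r3210 v2199 v2008 v2122 v1894 w6865
theorem v3211 : PV l3211 := r3211 v1887 v2001 v2115 w6597
theorem v3212 : PV l3212 := r3212 v1887 v2001 v2115 w6729
theorem v3213 : PV l3213 := r3213 v2174 v243
theorem v3214 : PV l3214 := r3214 v2111 w1910
theorem v3215 : PV l3215 := r3215 v2111 w1934
theorem v3216 : PV l3216 := r3216 v2168 v238
theorem v3217 : PV l3217 := r3217 v2170 v239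
theorem v3218 : PV l3218 := r3218 v1883 v1997 w6593
theorem v3219 : PV l3219 := r3219 v2162 v227
theorem v3220 : PV l3220 := r3220 v1879 v1993 w6725
theorem v3221 : PV l3221 := r3221 v2105 w6724
theorem v3222 : PV l3222 := r3222 v2156 v223
theorem v3223 : PV l3223 := r3223 v2158 v224
theorem v3224 : PV l3224 := r3224 v1991 v1877 w6592
theorem v3225 : PV l3225 := r3225 v1991 v1877 w6723
theorem v3226 : PV l3226 := r3226 v1991 v1877 w8238
theorem v3227 : PV l3227 := r3227 v1989 v1875 v2103 w8239
theorem v3228 : PV l3228 := r3228 v2150 v215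
theorem v3229 : PV l3229 := r3229 v1873 v1987 w6722
theorem v3230 : PV l3230 := r3230 v1987 v1873 w8240
theorem v3231 : PV l3231 := r3231 v2101 w6591
theorem v3232 : PV l3232 := r3232 v2101 w6721
theorem v3233 : PV l3233 := r3233 v2099 w6720
theorem v3234 : PV l3234 := r3234 v2144 v210
theorem v3235 : PV l3235 := r3235 v2146 v211
theorem v3236 : PV l3236 := r3236 v2138 v201
theorem v3237 : PV l3237 := r3237 v1982 v1868 w6718
theorem v3238 : PV l3238 := r3238 v2132 v195
theorem v3239 : PV l3239 := r3239 v2134 v196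
theorem v3240 : PV l3240 := r3240 v2119 v190
theorem v3241 : PV l3241 := r3241 v2125 v186
theorem v3242 : PV l3242 := r3242 v2123 v187
theorem v3243 : PV l3243 := r3243 v2115 w1744
theorem v3244 : PV l3244 := r3244 v2113 w1746
theorem v3245 : PV l3245 := r3245 v2115 w1740
theorem v3246 : PV l3246 := r3246 v2113 w1741
theorem v3247 : PV l3247 := r3247 v2113 w1739
theorem v3248 : PV l3248 := r3248 v2113 w1743
theorem v3249 : PV l3249 := r3249 v2101 w1723
theorem v3250 : PV l3250 := r3250 v2101 w1722
theorem v3251 : PV l3251 := r3251 v2097 w1721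
theorem v3252 : PV l3252 := r3252 v2095 w1720
theorem v3253 : PV l3253 := r3253 v2185 v2088 w1719
theorem v3254 : PV l3254 := r3254 v2088 v2166 w1715
theorem v3255 : PV l3255 := r3255 v2088 v2164 w1707
theorem v3256 : PV l3256 := r3256 v2088 v2154 w1696
theorem v3257 : PV l3257 := r3257 v2088 v2154 w1698
theorem v3258 : PV l3258 := r3258 v2088 v2154 w1701
theorem v3259 : PV l3259 := r3259 v2088 v2156 w1703
theorem v3260 : PV l3260 := r3260 v2088 v2156 w1706
theorem v3261 : PV l3261 := r3261 v2185 v2086 w1718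
theorem v3262 : PV l3262 := r3262 v2086 v2166 w1709
theorem v3263 : PV l3263 := r3263 v2086 v2166 w1712
theorem v3264 : PV l3264 := r3264 v2086 v2168 w1711
theorem v3265 : PV l3265 := r3265 v2086 v2168 w1713
theorem v3266 : PV l3266 := r3266 v2086 v2168 w1716
theorem v3267 : PV l3267 := r3267 v2086 v2164 w1705
theorem v3268 : PV l3268 := r3268 v2086 v2154 w1689
theorem v3269 : PV l3269 := r3269 v2086 v2156 w1692
theorem v3270 : PV l3270 := r3270 v2086 v2156 w1694
theorem v3271 : PV l3271 := r3271 v2086 v2156 w1699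
theorem v3272 : PV l3272 := r3272 v2086 v2158 w1695
theorem v3273 : PV l3273 := r3273 v2086 v2158 w1702
theorem v3274 : PV l3274 := r3274 v2086 v2142 w1686
theorem v3275 : PV l3275 := r3275 v2086 v2130 w1683
theorem v3276 : PV l3276 := r3276 v2084 v2081 w1613
theorem v3277 : PV l3277 := r3277 v2125 v2084 w1678
theorem v3278 : PV l3278 := r3278 v2123 v2084 w1679
theorem v3279 : PV l3279 := r3279 v2125 v2084 w1680
theorem v3280 : PV l3280 := r3280 v2123 v2084 w1681
theorem v3281 : PV l3281 := r3281 v1856 v1971 v2084 w5934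
theorem v3282 : PV l3282 := r3282 v2185 v2084 w1717
theorem v3283 : PV l3283 := r3283 v2084 v2168 w1708
theorem v3284 : PV l3284 := r3284 v2084 v2168 w1710
theorem v3285 : PV l3285 := r3285 v2084 v2168 w1714
theorem v3286 : PV l3286 := r3286 v2084 v2164 w1704
theorem v3287 : PV l3287 := r3287 v2084 v2156 w1687
theorem v3288 : PV l3288 := r3288 v2084 v2156 w1690
theorem v3289 : PV l3289 := r3289 v2084 v2158 w1688
theorem v3290 : PV l3290 := r3290 v2084 v2158 w1691
theorem v3291 : PV l3291 := r3291 v2084 v2158 w1693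
theorem v3292 : PV l3292 := r3292 v2084 v2158 w1697
theorem v3293 : PV l3293 := r3293 v2084 v2158 w1700
theorem v3294 : PV l3294 := r3294 v2084 v2142 w1685
theorem v3295 : PV l3295 := r3295 v2084 v2134 w1682
theorem v3296 : PV l3296 := r3296 v2084 v2134 w1684
theorem v3297 : PV l3297 := r3297 v1850 v1965 v2078 w5933
theorem v3298 : PV l3298 := r3298 v1850 v1965 v2078 w6184
theorem v3299 : PV l3299 := r3299 v1850 v1965 v2078 w7113
theorem v3300 : PV l3300 := r3300 v2092 w1651
theorem v3301 : PV l3301 := r3301 v2090 w1652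
theorem v3302 : PV l3302 := r3302 v2090 w1654
theorem v3303 : PV l3303 := r3303 v2085 v136
theorem v3304 : PV l3304 := r3304 v2083 v135
theorem v3305 : PV l3305 := r3305 v1846 v1961 w5932
theorem v3306 : PV l3306 := r3306 v1961 v1846 w6667
theorem v3307 : PV l3307 := r3307 v2114 w1646
theorem v3308 : PV l3308 := r3308 v2083 v133
theorem v3309 : PV l3309 := r3309 v1844 v1959 w5930
theorem v3310 : PV l3310 := r3310 v1844 v1959 w6668
theorem v3311 : PV l3311 := r3311 v1844 v1959 w6181
theorem v3312 : PV l3312 := r3312 v1959 v1844 w6392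
theorem v3313 : PV l3313 := r3313 v2069 v2014 w1195
theorem v3314 : PV l3314 := r3314 v2069 v2010 w1196
theorem v3315 : PV l3315 := r3315 v1979 w1163
theorem v3316 : PV l3316 := r3316 v1984 w1396
theorem v3317 : PV l3317 := r3317 v1990 w1432
theorem v3318 : PV l3318 := r3318 v1996 w1531
theorem v3319 : PV l3319 := r3319 v2002 w1598
theorem v3320 : PV l3320 := r3320 v1962 w948
theorem v3321 : PV l3321 := r3321 v1960 w949
theorem v3322 : PV l3322 := r3322 v2017 v2062 w1240
theorem v3323 : PV l3323 := r3323 v2019 v2062 w1241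
theorem v3324 : PV l3324 := r3324 v2021 v2062 w1242
theorem v3325 : PV l3325 := r3325 v2023 v2062 w1243
theorem v3326 : PV l3326 := r3326 v2025 v2062 w1244
theorem v3327 : PV l3327 := r3327 v2025 v2062 w1245
theorem v3328 : PV l3328 := r3328 v2027 v2062 w1246
theorem v3329 : PV l3329 := r3329 v2027 v2062 w1247
theorem v3330 : PV l3330 := r3330 v2029 v2062 w1267
theorem v3331 : PV l3331 := r3331 v2031 v2062 w1268
theorem v3332 : PV l3332 := r3332 v2039 v2062 w1269
theorem v3333 : PV l3333 := r3333 v2041 v2062 w1333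
theorem v3334 : PV l3334 := r3334 v2043 v2062 w1337
theorem v3335 : PV l3335 := r3335 v2045 v2062 w1339
theorem v3336 : PV l3336 := r3336 v2047 v2062 w1342
theorem v3337 : PV l3337 := r3337 v2047 v2062 w1344
theorem v3338 : PV l3338 := r3338 v2049 v2062 w1345
theorem v3339 : PV l3339 := r3339 v2049 v2062 w1346
theorem v3340 : PV l3340 := r3340 v2051 v2062 w1347
theorem v3341 : PV l3341 := r3341 v2051 v2062 w1348
theorem v3342 : PV l3342 := r3342 v2051 v2062 w1350
theorem v3343 : PV l3343 := r3343 v2053 v2062 w1390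
theorem v3344 : PV l3344 := r3344 v2055 v2062 w1391
theorem v3345 : PV l3345 := r3345 v2059 v2062 w1392
theorem v3346 : PV l3346 := r3346 v2062 v1949 v2175 w7040
theorem v3347 : PV l3347 := r3347 v2176 v1948 v2062 w7076
theorem v3348 : PV l3348 := r3348 v2176 v1949 v2062 w7090
theorem v3349 : PV l3349 := r3349 v2175 v2062 v1948 w7122
theorem v3350 : PV l3350 := r3350 v2062 v1948 v2176 w7176
theorem v3351 : PV l3351 := r3351 v1948 v2175 v2062 w7220
theorem v3352 : PV l3352 := r3352 v2176 v2062 v1948 w7275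
theorem v3353 : PV l3353 := r3353 v2062 v2175 v1948 w7320
theorem v3354 : PV l3354 := r3354 v2062 v1948 v2176 w7371
theorem v3355 : PV l3355 := r3355 v2062 v2176 v1948 w8973
theorem v3356 : PV l3356 := r3356 v1949 v2062 v2175 w9001
theorem v3357 : PV l3357 := r3357 v2175 v2062 v1948 w9012
theorem v3358 : PV l3358 := r3358 v1948 v2176 v2062 w9062
theorem v3359 : PV l3359 := r3359 v2175 v2062 v1949 w9092
theorem v3360 : PV l3360 := r3360 v1948 v2062 v2175 w9103
theorem v3361 : PV l3361 := r3361 v2176 v2062 v1948 w9140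
theorem v3362 : PV l3362 := r3362 v1949 v2062 v2175 w9168
theorem v3363 : PV l3363 := r3363 v2008 v2062 w1186
theorem v3364 : PV l3364 := r3364 v2008 v2062 w1188
theorem v3365 : PV l3365 := r3365 v2004 v2062 w1185
theorem v3366 : PV l3366 := r3366 v2004 v2062 w1187
theorem v3367 : PV l3367 := r3367 v2173 v2060 v1947 v2226 w7039
theorem v3368 : PV l3368 := r3368 v1946 v2174 v2060 v2226 w7075
theorem v3369 : PV l3369 := r3369 v2174 v2226 v2060 v1947 w7089
theorem v3370 : PV l3370 := r3370 v2173 v2227 v2060 v1946 w7121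
theorem v3371 : PV l3371 := r3371 v2173 v1947 v2060 v2227 w7135
theorem v3372 : PV l3372 := r3372 v1946 v2174 v2060 v2227 w7175
theorem v3373 : PV l3373 := r3373 v2174 v2227 v2060 v1947 w7186
theorem v3374 : PV l3374 := r3374 v1946 v2060 v2226 v2173 w7219
theorem v3375 : PV l3375 := r3375 v2226 v1947 v2060 v2173 w7229
theorem v3376 : PV l3376 := r3376 v1946 v2226 v2060 v2174 w7274
theorem v3377 : PV l3377 := r3377 v2226 v2060 v1947 v2174 w7285
theorem v3378 : PV l3378 := r3378 v1946 v2060 v2173 v2227 w7319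
theorem v3379 : PV l3379 := r3379 v1946 v2060 v2227 v2174 w7370
theorem v3380 : PV l3380 := r3380 v1946 v2060 v2173 v2227 w8931
theorem v3381 : PV l3381 := r3381 v2060 v2174 v1947 v2226 w8961
theorem v3382 : PV l3382 := r3382 v2060 v2226 v1946 v2174 w8974
theorem v3383 : PV l3383 := r3383 v2060 v2173 v2226 v1947 w9002
theorem v3384 : PV l3384 := r3384 v1946 v2173 v2226 v2060 w9013
theorem v3385 : PV l3385 := r3385 v2227 v1946 v2174 v2060 w9063
theorem v3386 : PV l3386 := r3386 v2173 v1947 v2227 v2060 w9093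
theorem v3387 : PV l3387 := r3387 v2173 v1946 v2060 v2227 w9104
theorem v3388 : PV l3388 := r3388 v1946 v2226 v2174 v2060 w9141
theorem v3389 : PV l3389 := r3389 v2060 v1947 v2226 v2173 w9169
theorem v3390 : PV l3390 := r3390 v2029 v2058 w1265
theorem v3391 : PV l3391 := r3391 v2029 v2058 w1266
theorem v3392 : PV l3392 := r3392 v2041 v2058 w1322
theorem v3393 : PV l3393 := r3393 v2041 v2058 w1323
theorem v3394 : PV l3394 := r3394 v2043 v2058 w1324
theorem v3395 : PV l3395 := r3395 v2043 v2058 w1325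
theorem v3396 : PV l3396 := r3396 v2045 v2058 w1328
theorem v3397 : PV l3397 := r3397 v2047 v2058 w1330
theorem v3398 : PV l3398 := r3398 v2047 v2058 w1331
theorem v3399 : PV l3399 := r3399 v2049 v2058 w1335
theorem v3400 : PV l3400 := r3400 v2051 v2058 w1340
theorem v3401 : PV l3401 := r3401 v2053 v2058 w1389
theorem v3402 : PV l3402 := r3402 v2171 v1945 v2058 w7038
theorem v3403 : PV l3403 := r3403 v1944 v2172 v2058 w7074
theorem v3404 : PV l3404 := r3404 v2172 v2058 v1945 w7088
theorem v3405 : PV l3405 := r3405 v1944 v2172 v2058 w7174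
theorem v3406 : PV l3406 := r3406 v1945 v2058 v2172 w7185
theorem v3407 : PV l3407 := r3407 v1944 v2171 v2058 w7218
theorem v3408 : PV l3408 := r3408 v1944 v2172 v2058 w7273
theorem v3409 : PV l3409 := r3409 v2058 v2172 v1945 w7284
theorem v3410 : PV l3410 := r3410 v1944 v2058 v2172 w7369
theorem v3411 : PV l3411 := r3411 v1944 v2058 v2172 w8975
theorem v3412 : PV l3412 := r3412 v2171 v2058 v1945 w9003
theorem v3413 : PV l3413 := r3413 v1944 v2058 v2171 w9014
theorem v3414 : PV l3414 := r3414 v2172 v2058 v1945 w9052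
theorem v3415 : PV l3415 := r3415 v2172 v2058 v1944 w9064
theorem v3416 : PV l3416 := r3416 v2058 v2172 v1945 w9133
theorem v3417 : PV l3417 := r3417 v2058 v2172 v1944 w9142
theorem v3418 : PV l3418 := r3418 v2171 v2058 v1945 w9170
theorem v3419 : PV l3419 := r3419 v1943 v2056 v2169 v2224 w7037
theorem v3420 : PV l3420 := r3420 v1942 v2224 v2056 v2170 w7073
theorem v3421 : PV l3421 := r3421 v1943 v2056 v2224 v2170 w7087
theorem v3422 : PV l3422 := r3422 v1942 v2225 v2169 v2056 w7120
theorem v3423 : PV l3423 := r3423 v2056 v1943 v2225 v2169 w7133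
theorem v3424 : PV l3424 := r3424 v1942 v2056 v2225 v2170 w7173
theorem v3425 : PV l3425 := r3425 v2170 v2225 v1943 v2056 w7184
theorem v3426 : PV l3426 := r3426 v1942 v2169 v2056 v2224 w7217
theorem v3427 : PV l3427 := r3427 v2224 v2056 v1943 v2169 w7228
theorem v3428 : PV l3428 := r3428 v1942 v2056 v2224 v2170 w7272
theorem v3429 : PV l3429 := r3429 v2224 v2056 v1943 v2170 w7283
theorem v3430 : PV l3430 := r3430 v1942 v2169 v2056 v2225 w7318
theorem v3431 : PV l3431 := r3431 v2169 v2056 v1943 v2225 w7328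
theorem v3432 : PV l3432 := r3432 v1942 v2170 v2225 v2056 w7368
theorem v3433 : PV l3433 := r3433 v2170 v1943 v2056 v2225 w7379
theorem v3434 : PV l3434 := r3434 v2225 v2056 v2170 v1943 w8885
theorem v3435 : PV l3435 := r3435 v2225 v1943 v2169 v2056 w8923
theorem v3436 : PV l3436 := r3436 v1942 v2225 v2169 v2056 w8932
theorem v3437 : PV l3437 := r3437 v1943 v2224 v2056 v2170 w8962
theorem v3438 : PV l3438 := r3438 v1942 v2224 v2056 v2170 w8976
theorem v3439 : PV l3439 := r3439 v2169 v2224 v2056 v1943 w9004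
theorem v3440 : PV l3440 := r3440 v1942 v2224 v2169 v2056 w9015
theorem v3441 : PV l3441 := r3441 v2170 v2056 v1943 v2225 w9053
theorem v3442 : PV l3442 := r3442 v2225 v1943 v2169 v2056 w9094
theorem v3443 : PV l3443 := r3443 v1942 v2056 v2225 v2169 w9105
theorem v3444 : PV l3444 := r3444 v2169 v2056 v2224 v1943 w9171
theorem v3445 : PV l3445 := r3445 v2222 v1941 v2167 v2054 w7036
theorem v3446 : PV l3446 := r3446 v2222 v2054 v1941 v2168 w7086
theorem v3447 : PV l3447 := r3447 v1941 v2223 v2168 v2054 w7183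
theorem v3448 : PV l3448 := r3448 v1940 v2168 v2222 v2054 w7271
theorem v3449 : PV l3449 := r3449 v2168 v2222 v2054 v1941 w7282
theorem v3450 : PV l3450 := r3450 v2167 v2223 v1941 v2054 w7327
theorem v3451 : PV l3451 := r3451 v1940 v2054 v2223 v2168 w7367
theorem v3452 : PV l3452 := r3452 v1941 v2054 v2168 v2223 w7378
theorem v3453 : PV l3453 := r3453 v1941 v2054 v2168 v2223 w8886
theorem v3454 : PV l3454 := r3454 v1940 v2223 v2054 v2168 w8896
theorem v3455 : PV l3455 := r3455 v2054 v2168 v1941 v2222 w8963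
theorem v3456 : PV l3456 := r3456 v1941 v2167 v2222 v2054 w9005
theorem v3457 : PV l3457 := r3457 v2223 v2054 v1941 v2168 w9054
theorem v3458 : PV l3458 := r3458 v1941 v2223 v2054 v2167 w9095
theorem v3459 : PV l3459 := r3459 v1940 v2054 v2168 v2222 w9143
theorem v3460 : PV l3460 := r3460 v2222 v2167 v1941 v2054 w9172
theorem v3461 : PV l3461 := r3461 v2029 v2052 w1263
theorem v3462 : PV l3462 := r3462 v2052 v2041 w1311
theorem v3463 : PV l3463 := r3463 v2041 v2052 w1312
theorem v3464 : PV l3464 := r3464 v2041 v2052 w1313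
theorem v3465 : PV l3465 := r3465 v2052 v2043 w1314
theorem v3466 : PV l3466 := r3466 v2043 v2052 w1315
theorem v3467 : PV l3467 := r3467 v1938 v2052 v2166 w7172
theorem v3468 : PV l3468 := r3468 v2052 v2166 v1939 w7281
theorem v3469 : PV l3469 := r3469 v1938 v2052 v2166 w7366
theorem v3470 : PV l3470 := r3470 v2052 v2166 v1939 w7377
theorem v3471 : PV l3471 := r3471 v2052 v2166 v1939 w8887
theorem v3472 : PV l3472 := r3472 v1938 v2052 v2166 w9065
theorem v3473 : PV l3473 := r3473 v1936 v2050 v2164 w7072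
theorem v3474 : PV l3474 := r3474 v1937 v2164 v2050 w7085
theorem v3475 : PV l3475 := r3475 v1936 v2163 v2050 w7119
theorem v3476 : PV l3476 := r3476 v1936 v2050 v2164 w7171
theorem v3477 : PV l3477 := r3477 v1936 v2163 v2050 w7216
theorem v3478 : PV l3478 := r3478 v2050 v1936 v2164 w7270
theorem v3479 : PV l3479 := r3479 v2050 v1936 v2164 w7365
theorem v3480 : PV l3480 := r3480 v1937 v2164 v2050 w8336
theorem v3481 : PV l3481 := r3481 v1936 v2050 v2164 w8364
theorem v3482 : PV l3482 := r3482 v2050 v2163 v1936 w8438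
theorem v3483 : PV l3483 := r3483 v2164 v1937 v2050 w8492
theorem v3484 : PV l3484 := r3484 v2050 v1936 v2164 w8516
theorem v3485 : PV l3485 := r3485 v1937 v2050 v2163 w8567
theorem v3486 : PV l3486 := r3486 v1936 v2050 v2163 v1499
theorem v3487 : PV l3487 := r3487 v1937 v2164 v2050 w8643
theorem v3488 : PV l3488 := r3488 v1936 v2050 v2164 w8668
theorem v3489 : PV l3489 := r3489 v1936 v2163 v2050 w8744
theorem v3490 : PV l3490 := r3490 v1937 v2050 v2164 w8792
theorem v3491 : PV l3491 := r3491 v1936 v2050 v2164 w8809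
theorem v3492 : PV l3492 := r3492 v1937 v2163 v2050 w8857
theorem v3493 : PV l3493 := r3493 v1936 v2050 v2163 v628
theorem v3494 : PV l3494 := r3494 v2220 v2048 v1935 v2162 w7084
theorem v3495 : PV l3495 := r3495 v2221 v2048 v2161 v1934 w7118
theorem v3496 : PV l3496 := r3496 v2048 v2221 v2162 v1934 w7170
theorem v3497 : PV l3497 := r3497 v2221 v2162 v1935 v2048 w7182
theorem v3498 : PV l3498 := r3498 v1935 v2161 v2220 v2048 w7227
theorem v3499 : PV l3499 := r3499 v2048 v2220 v1934 v2162 w7269
theorem v3500 : PV l3500 := r3500 v2162 v1935 v2048 v2220 w7280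
theorem v3501 : PV l3501 := r3501 v2221 v1935 v2048 v2162 w8337
theorem v3502 : PV l3502 := r3502 v2221 v1934 v2162 v2048 w8365
theorem v3503 : PV l3503 := r3503 v2161 v1935 v2221 v2048 w8423
theorem v3504 : PV l3504 := r3504 v2048 v2221 v2161 v1934 w8439
theorem v3505 : PV l3505 := r3505 v2220 v2048 v1935 v2162 w8493
theorem v3506 : PV l3506 := r3506 v2048 v2220 v1934 v2162 w8517
theorem v3507 : PV l3507 := r3507 v2220 v1935 v2161 v2048 w8568
theorem v3508 : PV l3508 := r3508 v2048 v2161 v2220 v1934 w8582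
theorem v3509 : PV l3509 := r3509 v2221 v1935 v2048 v2162 w8644
theorem v3510 : PV l3510 := r3510 v2221 v2162 v2048 v1934 w8669
theorem v3511 : PV l3511 := r3511 v1934 v2048 v2221 v2161 w8745
theorem v3512 : PV l3512 := r3512 v2220 v1935 v2162 v2048 w8793
theorem v3513 : PV l3513 := r3513 v2220 v2162 v1934 v2048 w8810
theorem v3514 : PV l3514 := r3514 v2220 v2161 v1935 v2048 w8858
theorem v3515 : PV l3515 := r3515 v2046 v2041 w1310
theorem v3516 : PV l3516 := r3516 v2046 v2059 w1387
theorem v3517 : PV l3517 := r3517 v2046 v1933 v2160 w7279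
theorem v3518 : PV l3518 := r3518 v2046 v2160 v1932 w7364
theorem v3519 : PV l3519 := r3519 v2160 v2046 v1933 w8338
theorem v3520 : PV l3520 := r3520 v2046 v2160 v1932 w8366
theorem v3521 : PV l3521 := r3521 v1932 v2159 v2046 w8440
theorem v3522 : PV l3522 := r3522 v2046 v1933 v2160 w8494
theorem v3523 : PV l3523 := r3523 v1932 v2160 v2046 w8518
theorem v3524 : PV l3524 := r3524 v2046 v1932 v2160 w8670
theorem v3525 : PV l3525 := r3525 v2046 v2160 v1933 w8794
theorem v3526 : PV l3526 := r3526 v2042 v1929 v2156 v2217 w7375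
theorem v3527 : PV l3527 := r3527 v2042 v2217 v1929 v2156 w8340
theorem v3528 : PV l3528 := r3528 v2217 v2156 v1928 v2042 w8368
theorem v3529 : PV l3529 := r3529 v2042 v1929 v2155 v2217 w8425
theorem v3530 : PV l3530 := r3530 v2216 v2042 v1929 v2156 w8496
theorem v3531 : PV l3531 := r3531 v2042 v2155 v2216 v1929 w8570
theorem v3532 : PV l3532 := r3532 v2042 v2217 v1929 v2156 w8647
theorem v3533 : PV l3533 := r3533 v2025 v2038 w1236
theorem v3534 : PV l3534 := r3534 v2038 v2041 w1298
theorem v3535 : PV l3535 := r3535 v2038 v2045 w1299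
theorem v3536 : PV l3536 := r3536 v2038 v2047 w1301
theorem v3537 : PV l3537 := r3537 v2038 v2047 w1302
theorem v3538 : PV l3538 := r3538 v2038 v2049 w1303
theorem v3539 : PV l3539 := r3539 v2038 v2049 w1304
theorem v3540 : PV l3540 := r3540 v2038 v2051 w1305
theorem v3541 : PV l3541 := r3541 v2038 v2051 w1306
theorem v3542 : PV l3542 := r3542 v2038 v2053 w1370
theorem v3543 : PV l3543 := r3543 v2059 v2038 w1371
theorem v3544 : PV l3544 := r3544 v2059 v2038 w1372
theorem v3545 : PV l3545 := r3545 v2152 v1924 v2038 w7267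
theorem v3546 : PV l3546 := r3546 v2152 v2038 v1924 w7718
theorem v3547 : PV l3547 := r3547 v2038 v2151 v1925 w7778
theorem v3548 : PV l3548 := r3548 v1924 v2151 v2038 w7798
theorem v3549 : PV l3549 := r3549 v2152 v1924 v2038 w7886
theorem v3550 : PV l3550 := r3550 v2152 v1924 v2038 w8054
theorem v3551 : PV l3551 := r3551 v1924 v2038 v2151 w8137
theorem v3552 : PV l3552 := r3552 v2152 v2038 v1924 w8218
theorem v3553 : PV l3553 := r3553 v2152 v2038 v1925 w8028
theorem v3554 : PV l3554 := r3554 v2152 v2038 v1925 w8192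
theorem v3555 : PV l3555 := r3555 v2038 v1925 v2151 w8277
theorem v3556 : PV l3556 := r3556 v1924 v2151 v2038 v608
theorem v3557 : PV l3557 := r3557 v2150 v2215 v2036 v1923 w7695
theorem v3558 : PV l3558 := r3558 v2150 v1922 v2036 v2215 w7719
theorem v3559 : PV l3559 := r3559 v2215 v2036 v1923 v2149 w7779
theorem v3560 : PV l3560 := r3560 v2215 v2149 v2036 v1922 w7799
theorem v3561 : PV l3561 := r3561 v2150 v2214 v1922 v2036 w7887
theorem v3562 : PV l3562 := r3562 v2150 v2215 v2036 v1922 w8055
theorem v3563 : PV l3563 := r3563 v2215 v2036 v2149 v1923 w8120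
theorem v3564 : PV l3564 := r3564 v2150 v2036 v1923 v2215 w8029
theorem v3565 : PV l3565 := r3565 v2150 v1923 v2214 v2036 w8193
theorem v3566 : PV l3566 := r3566 v2017 v2034 w1234
theorem v3567 : PV l3567 := r3567 v2017 v2034 w1235
theorem v3568 : PV l3568 := r3568 v2029 v2034 w1252
theorem v3569 : PV l3569 := r3569 v2034 v2041 w1291
theorem v3570 : PV l3570 := r3570 v2034 v2041 w1292
theorem v3571 : PV l3571 := r3571 v2034 v2041 w1293
theorem v3572 : PV l3572 := r3572 v2034 v2043 w1294
theorem v3573 : PV l3573 := r3573 v2034 v2043 w1295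
theorem v3574 : PV l3574 := r3574 v2034 v2047 w1296
theorem v3575 : PV l3575 := r3575 v2034 v2047 w1297
theorem v3576 : PV l3576 := r3576 v2034 v2051 w1300
theorem v3577 : PV l3577 := r3577 v2034 v2053 w1367
theorem v3578 : PV l3578 := r3578 v2034 v2055 w1368
theorem v3579 : PV l3579 := r3579 v2059 v2034 w1369
theorem v3580 : PV l3580 := r3580 v2034 v2148 v1920 w7169
theorem v3581 : PV l3581 := r3581 v2148 v2034 v1921 w7859
theorem v3582 : PV l3582 := r3582 v2148 v2034 v1921 w8030
theorem v3583 : PV l3583 := r3583 v2148 v1921 v2034 w8194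
theorem v3584 : PV l3584 := r3584 v2034 v2147 v1921 w8278
theorem v3585 : PV l3585 := r3585 v1920 v2034 v2147 v609
theorem v3586 : PV l3586 := r3586 v2032 v1919 v2145 v2213 w7131
theorem v3587 : PV l3587 := r3587 v2146 v2032 v1918 v2213 w7168
theorem v3588 : PV l3588 := r3588 v2032 v2212 v2146 v1918 w7266
theorem v3589 : PV l3589 := r3589 v2146 v1918 v2213 v2032 w7362
theorem v3590 : PV l3590 := r3590 v2146 v1918 v2213 v2032 w7720
theorem v3591 : PV l3591 := r3591 v2032 v2145 v2213 v1919 w7780
theorem v3592 : PV l3592 := r3592 v1918 v2032 v2145 v2213 w7800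
theorem v3593 : PV l3593 := r3593 v1918 v2146 v2032 v2212 w7888
theorem v3594 : PV l3594 := r3594 v2146 v1918 v2032 v2213 w8056
theorem v3595 : PV l3595 := r3595 v2032 v1919 v2145 v2213 w8121
theorem v3596 : PV l3596 := r3596 v1918 v2032 v2145 v2213 w8138
theorem v3597 : PV l3597 := r3597 v2146 v2032 v2213 v1919 w8031
theorem v3598 : PV l3598 := r3598 v2032 v2146 v2212 v1919 w8195
theorem v3599 : PV l3599 := r3599 v1918 v2032 v2212 v2145 v610

end Pool.Agent.BDD.A
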