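import Pool.Agent.BDD.AR2
import Pool.Agent.BDD.AR3
import Pool.Agent.BDD.AR4
import Pool.Agent.BDD.AO0
import Pool.Agent.BDD.AO1
import Pool.Agent.BDD.AO2
import Pool.Agent.BDD.AO3
import Pool.Agent.BDD.AO4
import Pool.Agent.BDD.AO5
import Pool.Agent.BDD.AO6
import Pool.Agent.BDD.AO7
import Pool.Agent.BDD.AV0

set_option autoImplicit false
set_option linter.all false

namespace Pool.Agent.BDD.A

theorem v3600 : PV l3600 := r3600 v1916 v2030 v2143 v2211 w7117
theorem v3601 : PV l3601 := r3601 v2030 v1917 v2143 v2211 w7130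
theorem v3602 : PV l3602 := r3602 v2030 v2210 v2144 v1916 w7265
theorem v3603 : PV l3603 := r3603 v2144 v2030 v2211 v1917 w7697
theorem v3604 : PV l3604 := r3604 v2144 v1916 v2211 v2030 w7721
theorem v3605 : PV l3605 := r3605 v2030 v1917 v2143 v2211 w7781
theorem v3606 : PV l3606 := r3606 v2144 v2030 v1917 v2210 w7861
theorem v3607 : PV l3607 := r3607 v2144 v1916 v2030 v2210 w7889
theorem v3608 : PV l3608 := r3608 v2210 v1917 v2143 v2030 w7952
theorem v3609 : PV l3609 := r3609 v2144 v2211 v2030 v1917 w8032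
theorem v3610 : PV l3610 := r3610 v2144 v2211 v2030 v1916 w8057
theorem v3611 : PV l3611 := r3611 v2030 v1917 v2211 v2143 w8122
theorem v3612 : PV l3612 := r3612 v1916 v2030 v2143 v2211 w8139
theorem v3613 : PV l3613 := r3613 v2030 v2144 v2210 v1917 w8196
theorem v3614 : PV l3614 := r3614 v2144 v2210 v1916 v2030 w8219
theorem v3615 : PV l3615 := r3615 v2030 v2210 v2143 v1917 w8279
theorem v3616 : PV l3616 := r3616 v1916 v2030 v2210 v2143 v611
theorem v3617 : PV l3617 := r3617 v2026 v2140 v1912 w7070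
theorem v3618 : PV l3618 := r3618 v2026 v2140 v1912 w7361
theorem v3619 : PV l3619 := r3619 v2026 v1912 v2140 w7422
theorem v3620 : PV l3620 := r3620 v1913 v2140 v2026 w7471
theorem v3621 : PV l3621 := r3621 v1912 v2026 v2140 w7484
theorem v3622 : PV l3622 := r3622 v2139 v1912 v2026 w7520
theorem v3623 : PV l3623 := r3623 v1913 v2140 v2026 w7545
theorem v3624 : PV l3624 := r3624 v2140 v1912 v2026 w7557
theorem v3625 : PV l3625 := r3625 v1913 v2140 v2026 w7618
theorem v3626 : PV l3626 := r3626 v2140 v1912 v2026 w7634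
theorem v3627 : PV l3627 := r3627 v2138 v2208 v1910 v2024 w7264
theorem v3628 : PV l3628 := r3628 v2209 v2024 v2138 v1910 w7360
theorem v3629 : PV l3629 := r3629 v2024 v2138 v1911 v2209 w7410
theorem v3630 : PV l3630 := r3630 v2209 v2024 v2138 v1910 w7423
theorem v3631 : PV l3631 := r3631 v1911 v2024 v2138 v2208 w7472
theorem v3632 : PV l3632 := r3632 v1910 v2024 v2138 v2208 w7485
theorem v3633 : PV l3633 := r3633 v2138 v1911 v2209 v2024 w7546
theorem v3634 : PV l3634 := r3634 v1910 v2209 v2024 v2138 w7558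
theorem v3635 : PV l3635 := r3635 v1911 v2024 v2208 v2138 w7619
theorem v3636 : PV l3636 := r3636 v1910 v2208 v2024 v2138 w7635
theorem v3637 : PV l3637 := r3637 v2004 v2050 w1177
theorem v3638 : PV l3638 := r3638 v2008 v2050 w1176
theorem v3639 : PV l3639 := r3639 v2008 v2050 w1175
theorem v3640 : PV l3640 := r3640 v2202 v2127 v1900 v2015 w6816
theorem v3641 : PV l3641 := r3641 v2202 v1900 v2015 v2128 w6829
theorem v3642 : PV l3642 := r3642 v2203 v1900 v2015 v2127 w6849
theorem v3643 : PV l3643 := r3643 v2203 v1901 v2015 v2127 w6861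
theorem v3644 : PV l3644 := r3644 v2202 v1900 v2015 v2127 w6917
theorem v3645 : PV l3645 := r3645 v2202 v1901 v2015 v2127 w6926
theorem v3646 : PV l3646 := r3646 v2203 v1900 v2015 v2127 w6974
theorem v3647 : PV l3647 := r3647 v2013 v2055 w1172
theorem v3648 : PV l3648 := r3648 v2013 v2055 w1174
theorem v3649 : PV l3649 := r3649 v2200 v1898 v2013 v2125 w6815
theorem v3650 : PV l3650 := r3650 v2200 v1899 v2013 v2125 w6820
theorem v3651 : PV l3651 := r3651 v2201 v2125 v1898 v2013 w6848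
theorem v3652 : PV l3652 := r3652 v1899 v2125 v2013 v2201 w6860
theorem v3653 : PV l3653 := r3653 v2201 v1898 v2013 v2126 w6885
theorem v3654 : PV l3654 := r3654 v2201 v1899 v2013 v2126 w6896
theorem v3655 : PV l3655 := r3655 v2200 v1898 v2013 v2125 w6916
theorem v3656 : PV l3656 := r3656 v2200 v1899 v2013 v2125 w6925
theorem v3657 : PV l3657 := r3657 v2200 v1898 v2013 v2126 w6947
theorem v3658 : PV l3658 := r3658 v2200 v1899 v2013 v2126 w6953
theorem v3659 : PV l3659 := r3659 v2201 v1898 v2013 v2125 w6973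
theorem v3660 : PV l3660 := r3660 v1899 v2013 v2201 v2125 w6986
theorem v3661 : PV l3661 := r3661 v2201 v1898 v2013 v2126 w7015
theorem v3662 : PV l3662 := r3662 v2125 v1898 v2013 v2201 w7081
theorem v3663 : PV l3663 := r3663 v1899 v2201 v2013 v2126 w7214
theorem v3664 : PV l3664 := r3664 v2200 v1899 v2013 v2125 w7358
theorem v3665 : PV l3665 := r3665 v2013 v1968 w880
theorem v3666 : PV l3666 := r3666 v2011 v2041 w1168
theorem v3667 : PV l3667 := r3667 v2011 v2043 w1169
theorem v3668 : PV l3668 := r3668 v2011 v2055 w1170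
theorem v3669 : PV l3669 := r3669 v2011 v2055 w1171
theorem v3670 : PV l3670 := r3670 v2011 v2055 w1173
theorem v3671 : PV l3671 := r3671 v2123 v1896 v2011 w6814
theorem v3672 : PV l3672 := r3672 v2123 v1897 v2011 w6819
theorem v3673 : PV l3673 := r3673 v1896 v2011 v2124 w6828
theorem v3674 : PV l3674 := r3674 v1897 v2011 v2124 w6833
theorem v3675 : PV l3675 := r3675 v2123 v1896 v2011 w6847
theorem v3676 : PV l3676 := r3676 v2123 v1897 v2011 w6859
theorem v3677 : PV l3677 := r3677 v1896 v2011 v2124 w6884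
theorem v3678 : PV l3678 := r3678 v1897 v2011 v2124 w6895
theorem v3679 : PV l3679 := r3679 v2123 v1896 v2011 w6915
theorem v3680 : PV l3680 := r3680 v2123 v1897 v2011 w6924
theorem v3681 : PV l3681 := r3681 v1896 v2011 v2124 w6946
theorem v3682 : PV l3682 := r3682 v1897 v2011 v2124 w6952
theorem v3683 : PV l3683 := r3683 v2123 v1896 v2011 w6972
theorem v3684 : PV l3684 := r3684 v2123 v1897 v2011 w6985
theorem v3685 : PV l3685 := r3685 v1896 v2011 v2124 w7014
theorem v3686 : PV l3686 := r3686 v1897 v2011 v2124 v568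
theorem v3687 : PV l3687 := r3687 v2123 v1896 v2011 w7082
theorem v3688 : PV l3688 := r3688 v1897 v2011 v2124 w7115
theorem v3689 : PV l3689 := r3689 v1896 v2011 v2124 w7127
theorem v3690 : PV l3690 := r3690 v2123 v1897 v2011 w7166
theorem v3691 : PV l3691 := r3691 v1896 v2011 v2124 w7226
theorem v3692 : PV l3692 := r3692 v1897 v2011 v2124 w7314
theorem v3693 : PV l3693 := r3693 v1896 v2011 v2124 w7324
theorem v3694 : PV l3694 := r3694 v2123 v1897 v2011 w7359
theorem v3695 : PV l3695 := r3695 v2011 v1964 w879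
theorem v3696 : PV l3696 := r3696 v2011 v1968 w881
theorem v3697 : PV l3697 := r3697 v2011 v1970 w882
theorem v3698 : PV l3698 := r3698 v2011 v1972 w883
theorem v3699 : PV l3699 := r3699 v1894 v2121 v2009 v2199 w6846
theorem v3700 : PV l3700 := r3700 v2121 v1895 v2009 v2199 w6858
theorem v3701 : PV l3701 := r3701 v2198 v1894 v2121 v2009 w6914
theorem v3702 : PV l3702 := r3702 v2198 v1895 v2121 v2009 w6923
theorem v3703 : PV l3703 := r3703 v1894 v2121 v2009 v2199 w6971
theorem v3704 : PV l3704 := r3704 v2199 v2121 v2009 v1895 w6984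
theorem v3705 : PV l3705 := r3705 v1895 v2199 v2009 v2122 v567
theorem v3706 : PV l3706 := r3706 v2199 v2121 v2009 v1895 w7262
theorem v3707 : PV l3707 := r3707 v2119 v1893 v2007 w6857
theorem v3708 : PV l3708 := r3708 v2120 v1892 v2007 w6883
theorem v3709 : PV l3709 := r3709 v1893 v2007 v2120 w6894
theorem v3710 : PV l3710 := r3710 v2119 v1892 v2007 w6913
theorem v3711 : PV l3711 := r3711 v2119 v1893 v2007 w6922
theorem v3712 : PV l3712 := r3712 v1892 v2007 v2120 w6945
theorem v3713 : PV l3713 := r3713 v2119 v1892 v2007 w6970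
theorem v3714 : PV l3714 := r3714 v2119 v1893 v2007 w6983
theorem v3715 : PV l3715 := r3715 v2120 v1892 v2007 w7013
theorem v3716 : PV l3716 := r3716 v2117 v1891 v2005 w6856
theorem v3717 : PV l3717 := r3717 v2118 v1890 v2005 w6882
theorem v3718 : PV l3718 := r3718 v1891 v2118 v2005 w6893
theorem v3719 : PV l3719 := r3719 v2117 v1890 v2005 w6969
theorem v3720 : PV l3720 := r3720 v2117 v1891 v2005 w6982
theorem v3721 : PV l3721 := r3721 v2118 v1890 v2005 w7012
theorem v3722 : PV l3722 := r3722 v1891 v2118 v2005 w7215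
theorem v3723 : PV l3723 := r3723 v1888 v2003 w6341
theorem v3724 : PV l3724 := r3724 v2003 v1888 w6381
theorem v3725 : PV l3725 := r3725 v1888 v2003 w6434
theorem v3726 : PV l3726 := r3726 v2003 v1888 w6524
theorem v3727 : PV l3727 := r3727 v1888 v2003 w6583
theorem v3728 : PV l3728 := r3728 v2003 v1888 w6649
theorem v3729 : PV l3729 := r3729 v2003 v1888 w6712
theorem v3730 : PV l3730 := r3730 v2003 v1888 w6800
theorem v3731 : PV l3731 := r3731 v2003 v1888 w8909
theorem v3732 : PV l3732 := r3732 v2003 v1888 w8990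
theorem v3733 : PV l3733 := r3733 v2003 v1888 w9077
theorem v3734 : PV l3734 := r3734 v2003 v1888 w9124
theorem v3735 : PV l3735 := r3735 v2003 v1888 w9154
theorem v3736 : PV l3736 := r3736 v2003 w874
theorem v3737 : PV l3737 := r3737 v1889 v2003 w6352
theorem v3738 : PV l3738 := r3738 v1889 v2003 w6598
theorem v3739 : PV l3739 := r3739 v1889 v2003 w8980
theorem v3740 : PV l3740 := r3740 v1889 v2003 w6454
theorem v3741 : PV l3741 := r3741 v1889 v2003 w6730
theorem v3742 : PV l3742 := r3742 v2115 v1886 v2001 w6340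
theorem v3743 : PV l3743 := r3743 v2116 v2001 v1886 w6380
theorem v3744 : PV l3744 := r3744 v2001 v1886 v2115 w6433
theorem v3745 : PV l3745 := r3745 v2001 v2116 v1886 w6523
theorem v3746 : PV l3746 := r3746 v2115 v2001 v1886 w6582
theorem v3747 : PV l3747 := r3747 v1886 v2116 v2001 w6648
theorem v3748 : PV l3748 := r3748 v2115 v1886 v2001 w6711
theorem v3749 : PV l3749 := r3749 v2001 v1886 v2116 w6799
theorem v3750 : PV l3750 := r3750 v2001 v1886 v2116 w8871
theorem v3751 : PV l3751 := r3751 v2001 v2116 v1886 w8948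
theorem v3752 : PV l3752 := r3752 v2001 v1886 v2116 w9035
theorem v3753 : PV l3753 := r3753 v1886 v2116 v2001 w9125
theorem v3754 : PV l3754 := r3754 v2115 v2001 v1887 w6351
theorem v3755 : PV l3755 := r3755 v2115 v2001 v1887 w6453
theorem v3756 : PV l3756 := r3756 v1884 v1999 w6339
theorem v3757 : PV l3757 := r3757 v1999 v1884 w6379
theorem v3758 : PV l3758 := r3758 v1999 v1884 w6432
theorem v3759 : PV l3759 := r3759 v1884 v1999 w6522
theorem v3760 : PV l3760 := r3760 v1884 v1999 w6581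
theorem v3761 : PV l3761 := r3761 v1884 v1999 w6647
theorem v3762 : PV l3762 := r3762 v1999 v1884 w6710
theorem v3763 : PV l3763 := r3763 v1999 v1884 w6798
theorem v3764 : PV l3764 := r3764 v1999 v1884 w8872
theorem v3765 : PV l3765 := r3765 v1884 v1999 w8910
theorem v3766 : PV l3766 := r3766 v1884 v1999 w8949
theorem v3767 : PV l3767 := r3767 v1884 v1999 w8991
theorem v3768 : PV l3768 := r3768 v1884 v1999 w9036
theorem v3769 : PV l3769 := r3769 v1884 v1999 w9078
theorem v3770 : PV l3770 := r3770 v1999 w870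
theorem v3771 : PV l3771 := r3771 v1999 w871
theorem v3772 : PV l3772 := r3772 v1999 w873
theorem v3773 : PV l3773 := r3773 v1999 w872
theorem v3774 : PV l3774 := r3774 v1885 v1999 w6350
theorem v3775 : PV l3775 := r3775 v1999 v1885 w6596
theorem v3776 : PV l3776 := r3776 v1999 v1885 w6452
theorem v3777 : PV l3777 := r3777 v1885 v1999 w6728
theorem v3778 : PV l3778 := r3778 v1885 v1999 w8900
theorem v3779 : PV l3779 := r3779 v1885 v1999 v564
theorem v3780 : PV l3780 := r3780 v2113 w6338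
theorem v3781 : PV l3781 := r3781 v2113 w6431
theorem v3782 : PV l3782 := r3782 v2114 w6521
theorem v3783 : PV l3783 := r3783 v2114 w6646
theorem v3784 : PV l3784 := r3784 v2113 w6709
theorem v3785 : PV l3785 := r3785 v2114 w6797
theorem v3786 : PV l3786 := r3786 v2114 w8873
theorem v3787 : PV l3787 := r3787 v2114 w9037
theorem v3788 : PV l3788 := r3788 v2114 w9126
theorem v3789 : PV l3789 := r3789 v2113 w6349
theorem v3790 : PV l3790 := r3790 v2113 w6451
theorem v3791 : PV l3791 := r3791 v2111 w6337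
theorem v3792 : PV l3792 := r3792 v2112 w6378
theorem v3793 : PV l3793 := r3793 v2111 w6430
theorem v3794 : PV l3794 := r3794 v2112 w6520
theorem v3795 : PV l3795 := r3795 v2112 w6645
theorem v3796 : PV l3796 := r3796 v2111 w6708
theorem v3797 : PV l3797 := r3797 v2112 v1378
theorem v3798 : PV l3798 := r3798 v2112 w8874
theorem v3799 : PV l3799 := r3799 v2111 w8911
theorem v3800 : PV l3800 := r3800 v2112 w8950
theorem v3801 : PV l3801 := r3801 v2112 w9038
theorem v3802 : PV l3802 := r3802 v2111 w9079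
theorem v3803 : PV l3803 := r3803 v2111 w6348
theorem v3804 : PV l3804 := r3804 v2111 w6595
theorem v3805 : PV l3805 := r3805 v2111 w6450
theorem v3806 : PV l3806 := r3806 v2111 w6727
theorem v3807 : PV l3807 := r3807 v2112 v563
theorem v3808 : PV l3808 := r3808 v1997 v1882 w6428
theorem v3809 : PV l3809 := r3809 v1882 v1997 w6518
theorem v3810 : PV l3810 := r3810 v1997 v1882 w6580
theorem v3811 : PV l3811 := r3811 v1882 v1997 w6706
theorem v3812 : PV l3812 := r3812 v1882 v1997 w6794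
theorem v3813 : PV l3813 := r3813 v1882 v1997 w8405
theorem v3814 : PV l3814 := r3814 v1997 v1882 w8551
theorem v3815 : PV l3815 := r3815 v1882 v1997 w8614
theorem v3816 : PV l3816 := r3816 v1997 v1882 w8708
theorem v3817 : PV l3817 := r3817 v1997 w855
theorem v3818 : PV l3818 := r3818 v1997 w857
theorem v3819 : PV l3819 := r3819 v1997 w858
theorem v3820 : PV l3820 := r3820 v1997 w862
theorem v3821 : PV l3821 := r3821 v1997 w864
theorem v3822 : PV l3822 := r3822 v1883 v1997 w8532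
theorem v3823 : PV l3823 := r3823 v1997 v1883 w6448
theorem v3824 : PV l3824 := r3824 v1997 v1883 w8383
theorem v3825 : PV l3825 := r3825 v1883 v1997 w8687
theorem v3826 : PV l3826 := r3826 v1995 v1880 v2110 w6517
theorem v3827 : PV l3827 := r3827 v2110 v1880 v1995 w6643
theorem v3828 : PV l3828 := r3828 v1995 v1880 v2109 w6705
theorem v3829 : PV l3829 := r3829 v2110 v1995 v1880 w6793
theorem v3830 : PV l3830 := r3830 v1880 v2110 v1995 w8313
theorem v3831 : PV l3831 := r3831 v2109 v1995 v1880 w8406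
theorem v3832 : PV l3832 := r3832 v1880 v1995 v2110 w8471
theorem v3833 : PV l3833 := r3833 v2110 v1880 v1995 w8615
theorem v3834 : PV l3834 := r3834 v2109 v1880 v1995 w8709
theorem v3835 : PV l3835 := r3835 v1993 v1878 w6516
theorem v3836 : PV l3836 := r3836 v1878 v1993 w6642
theorem v3837 : PV l3837 := r3837 v1993 v1878 w6792
theorem v3838 : PV l3838 := r3838 v1993 v1878 w8314
theorem v3839 : PV l3839 := r3839 v1993 v1878 w8407
theorem v3840 : PV l3840 := r3840 v1878 v1993 w8616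
theorem v3841 : PV l3841 := r3841 v1993 w854
theorem v3842 : PV l3842 := r3842 v1993 w856
theorem v3843 : PV l3843 := r3843 v1993 w861
theorem v3844 : PV l3844 := r3844 v1993 w860
theorem v3845 : PV l3845 := r3845 v1993 w863
theorem v3846 : PV l3846 := r3846 v1993 w868
theorem v3847 : PV l3847 := r3847 v1879 v1993 w8384
theorem v3848 : PV l3848 := r3848 v1879 v1993 w8688
theorem v3849 : PV l3849 := r3849 v2108 w6515
theorem v3850 : PV l3850 := r3850 v2108 w6641
theorem v3851 : PV l3851 := r3851 v2108 w6791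
theorem v3852 : PV l3852 := r3852 v2108 w8315
theorem v3853 : PV l3853 := r3853 v2108 w8780
theorem v3854 : PV l3854 := r3854 v2106 w6514
theorem v3855 : PV l3855 := r3855 v2106 w6640
theorem v3856 : PV l3856 := r3856 v2106 w6790
theorem v3857 : PV l3857 := r3857 v2106 w8316
theorem v3858 : PV l3858 := r3858 v2106 w8472
theorem v3859 : PV l3859 := r3859 v2106 w8617
theorem v3860 : PV l3860 := r3860 v1876 v1991 w6512
theorem v3861 : PV l3861 := r3861 v1991 v1876 w6579
theorem v3862 : PV l3862 := r3862 v1991 v1876 w6638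
theorem v3863 : PV l3863 := r3863 v1876 v1991 w6704
theorem v3864 : PV l3864 := r3864 v1991 v1876 w6788
theorem v3865 : PV l3865 := r3865 v1991 v1876 w7674
theorem v3866 : PV l3866 := r3866 v1991 v1876 w7753
theorem v3867 : PV l3867 := r3867 v1876 v1991 w7831
theorem v3868 : PV l3868 := r3868 v1876 v1991 w7930
theorem v3869 : PV l3869 := r3869 v1876 v1991 w8002
theorem v3870 : PV l3870 := r3870 v1876 v1991 w8094
theorem v3871 : PV l3871 := r3871 v1876 v1991 w8256
theorem v3872 : PV l3872 := r3872 v1991 v1877 w7904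
theorem v3873 : PV l3873 := r3873 v1991 v1877 w6447
theorem v3874 : PV l3874 := r3874 v1991 v1877 w7735
theorem v3875 : PV l3875 := r3875 v1877 v1991 w8070
theorem v3876 : PV l3876 := r3876 v1874 v1989 v2103 w6427
theorem v3877 : PV l3877 := r3877 v1989 v1874 v2104 w6787
theorem v3878 : PV l3878 := r3878 v1989 v1874 v2103 w7754
theorem v3879 : PV l3879 := r3879 v1989 v2103 v1874 w7931
theorem v3880 : PV l3880 := r3880 v1989 v2104 v1874 w8003
theorem v3881 : PV l3881 := r3881 v1874 v2103 v1989 w8095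
theorem v3882 : PV l3882 := r3882 v1989 v1875 v2103 w7905
theorem v3883 : PV l3883 := r3883 v1989 v1875 v2103 w6446
theorem v3884 : PV l3884 := r3884 v1989 v1875 v2103 w7736
theorem v3885 : PV l3885 := r3885 v1875 v1989 v2103 w8071
theorem v3886 : PV l3886 := r3886 v1987 v1872 w6578
theorem v3887 : PV l3887 := r3887 v1872 v1987 w7832
theorem v3888 : PV l3888 := r3888 v1872 v1987 w7932
theorem v3889 : PV l3889 := r3889 v1872 v1987 w8257
theorem v3890 : PV l3890 := r3890 v1987 v1873 w7906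
theorem v3891 : PV l3891 := r3891 v1873 v1987 w6445
theorem v3892 : PV l3892 := r3892 v1987 v1873 w7737
theorem v3893 : PV l3893 := r3893 v1873 v1987 w8072
theorem v3894 : PV l3894 := r3894 v2101 w6426
theorem v3895 : PV l3895 := r3895 v2102 w6637
theorem v3896 : PV l3896 := r3896 v2102 w6786
theorem v3897 : PV l3897 := r3897 v2102 w7675
theorem v3898 : PV l3898 := r3898 v2101 w7755
theorem v3899 : PV l3899 := r3899 v2102 w7833
theorem v3900 : PV l3900 := r3900 v2102 w8004
theorem v3901 : PV l3901 := r3901 v2101 w8097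
theorem v3902 : PV l3902 := r3902 v2101 w8258
theorem v3903 : PV l3903 := r3903 v2101 w7907
theorem v3904 : PV l3904 := r3904 v2101 w6444
theorem v3905 : PV l3905 := r3905 v2101 w7738
theorem v3906 : PV l3906 := r3906 v2101 w8073
theorem v3907 : PV l3907 := r3907 v2100 w7676
theorem v3908 : PV l3908 := r3908 v2099 w7756
theorem v3909 : PV l3909 := r3909 v2100 w7834
theorem v3910 : PV l3910 := r3910 v2100 w8005
theorem v3911 : PV l3911 := r3911 v2099 w8098
theorem v3912 : PV l3912 := r3912 v2099 w7908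
theorem v3913 : PV l3913 := r3913 v2099 w6443
theorem v3914 : PV l3914 := r3914 v2099 w7739
theorem v3915 : PV l3915 := r3915 v2099 w8074
theorem v3916 : PV l3916 := r3916 v1985 w849
theorem v3917 : PV l3917 := r3917 v1985 w851
theorem v3918 : PV l3918 := r3918 v1871 v1985 w6345
theorem v3919 : PV l3919 := r3919 v1871 v1985 w6441
theorem v3920 : PV l3920 := r3920 v1982 w848
theorem v3921 : PV l3921 := r3921 v1982 w850
theorem v3922 : PV l3922 := r3922 v1982 v1868 w7572
theorem v3923 : PV l3923 := r3923 v2094 w6636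
theorem v3924 : PV l3924 := r3924 v2023 v832
theorem v3925 : PV l3925 := r3925 v2027 v834
theorem v3926 : PV l3926 := r3926 v1981 v2027 v836
theorem v3927 : PV l3927 := r3927 v2059 v839
theorem v3928 : PV l3928 := r3928 v2063 v842
theorem v3929 : PV l3929 := r3929 v1998 v2063 v845
theorem v3930 : PV l3930 := r3930 v2035 v846
theorem v3931 : PV l3931 := r3931 v2039 v848
theorem v3932 : PV l3932 := r3932 v1986 v2039 v850
theorem v3933 : PV l3933 := r3933 v2047 v851
theorem v3934 : PV l3934 := r3934 v2051 v853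
theorem v3935 : PV l3935 := r3935 v1992 v2051 v855
theorem v3936 : PV l3936 := r3936 v1865 v1980 w6424
theorem v3937 : PV l3937 := r3937 v1865 v1980 w6504
theorem v3938 : PV l3938 := r3938 v1865 v1980 w6576
theorem v3939 : PV l3939 := r3939 v1865 v1980 w6779
theorem v3940 : PV l3940 := r3940 v1980 v1865 w6824
theorem v3941 : PV l3941 := r3941 v1980 v1865 w6873
theorem v3942 : PV l3942 := r3942 v1865 v1980 w6904
theorem v3943 : PV l3943 := r3943 v1865 v1980 w6938
theorem v3944 : PV l3944 := r3944 v1865 v1980 w7002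
theorem v3945 : PV l3945 := r3945 v1861 v1977 w6874
theorem v3946 : PV l3946 := r3946 v2091 w6778
theorem v3947 : PV l3947 := r3947 v2089 w6503
theorem v3948 : PV l3948 := r3948 v2089 w6633
theorem v3949 : PV l3949 := r3949 v2089 w6777
theorem v3950 : PV l3950 := r3950 v2002 w939
theorem v3951 : PV l3951 := r3951 v2002 w936
theorem v3952 : PV l3952 := r3952 v2002 w935
theorem v3953 : PV l3953 := r3953 v1998 w938
theorem v3954 : PV l3954 := r3954 v2002 w934
theorem v3955 : PV l3955 := r3955 v1996 w916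
theorem v3956 : PV l3956 := r3956 v1996 w917
theorem v3957 : PV l3957 := r3957 v1996 w914
theorem v3958 : PV l3958 := r3958 v1996 w913
theorem v3959 : PV l3959 := r3959 v1992 w915
theorem v3960 : PV l3960 := r3960 v1996 w911
theorem v3961 : PV l3961 := r3961 v1996 w912
theorem v3962 : PV l3962 := r3962 v1996 w910
theorem v3963 : PV l3963 := r3963 v1996 w909
theorem v3964 : PV l3964 := r3964 v1990 w906
theorem v3965 : PV l3965 := r3965 v1990 w904
theorem v3966 : PV l3966 := r3966 v1975 v2191 v1859 v2087 w5977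
theorem v3967 : PV l3967 := r3967 v2190 v1859 v2087 v1975 w6103
theorem v3968 : PV l3968 := r3968 v2191 v1859 v2087 v1975 w6240
theorem v3969 : PV l3969 := r3969 v1973 v2085 v1857 v2189 w5976
theorem v3970 : PV l3970 := r3970 v1973 v2189 v2086 v1857 w6042
theorem v3971 : PV l3971 := r3971 v2188 v2085 v1857 v1973 w6102
theorem v3972 : PV l3972 := r3972 v2189 v2085 v1857 v1973 w6239
theorem v3973 : PV l3973 := r3973 v2188 v2085 v1858 v1973 w6124
theorem v3974 : PV l3974 := r3974 v2084 v1855 v1971 w5924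
theorem v3975 : PV l3975 := r3975 v2083 v1971 v1855 w5975
theorem v3976 : PV l3976 := r3976 v1971 v2084 v1855 w6041
theorem v3977 : PV l3977 := r3977 v2083 v1855 v1971 w6101
theorem v3978 : PV l3978 := r3978 v2083 v1971 v1855 w6238
theorem v3979 : PV l3979 := r3979 v1971 v2084 v1855 w6305
theorem v3980 : PV l3980 := r3980 v1971 v2084 v1855 w7031
theorem v3981 : PV l3981 := r3981 v1971 v2084 v1855 w7223
theorem v3982 : PV l3982 := r3982 v2083 v1855 v1971 w7374
theorem v3983 : PV l3983 := r3983 v1969 v2081 v2187 v1853 w5974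
theorem v3984 : PV l3984 := r3984 v2186 v2081 v1969 v1853 w6100
theorem v3985 : PV l3985 := r3985 v2186 v2082 v1853 v1969 w6171
theorem v3986 : PV l3986 := r3986 v2187 v2081 v1969 v1853 w6237
theorem v3987 : PV l3987 := r3987 v2080 v1851 v1967 w5923
theorem v3988 : PV l3988 := r3988 v2079 v1967 v1851 w5973
theorem v3989 : PV l3989 := r3989 v1967 v2080 v1851 w6040
theorem v3990 : PV l3990 := r3990 v1967 v1851 v2079 w6099
theorem v3991 : PV l3991 := r3991 v2080 v1851 v1967 w6170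
theorem v3992 : PV l3992 := r3992 v2079 v1967 v1851 w6236
theorem v3993 : PV l3993 := r3993 v1967 v2080 v1851 w6304
theorem v3994 : PV l3994 := r3994 v2079 v1967 v1851 w7079
theorem v3995 : PV l3995 := r3995 v1852 v1967 v2079 w6123
theorem v3996 : PV l3996 := r3996 v2077 v1965 v1849 w5972
theorem v3997 : PV l3997 := r3997 v2077 v1965 v1849 w6098
theorem v3998 : PV l3998 := r3998 v2077 v1965 v1849 w6235
theorem v3999 : PV l3999 := r3999 v1849 v2078 v1965 w6303
theorem v4000 : PV l4000 := r4000 v2077 v1965 v1849 w7080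
theorem v4001 : PV l4001 := r4001 v2077 v1965 v1849 w7179
theorem v4002 : PV l4002 := r4002 v1850 v1965 v2077 w6122
theorem v4003 : PV l4003 := r4003 v1850 v1965 v2077 w7357
theorem v4004 : PV l4004 := r4004 v2077 v1850 v1965 w5990
theorem v4005 : PV l4005 := r4005 v2077 v1850 v1965 w6258
theorem v4006 : PV l4006 := r4006 v1965 v2078 v1850 v516
theorem v4007 : PV l4007 := r4007 v1960 v1240
theorem v4008 : PV l4008 := r4008 v1962 v1241
theorem v4009 : PV l4009 := r4009 v2075 w5868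
theorem v4010 : PV l4010 := r4010 v2076 w5920
theorem v4011 : PV l4011 := r4011 v2075 w5969
theorem v4012 : PV l4012 := r4012 v2075 w6232
theorem v4013 : PV l4013 := r4013 v2076 w6301
theorem v4014 : PV l4014 := r4014 v2076 w6691
theorem v4015 : PV l4015 := r4015 v2075 w5880
theorem v4016 : PV l4016 := r4016 v2075 w6120
theorem v4017 : PV l4017 := r4017 v1963 v1847 v2073 w5867
theorem v4018 : PV l4018 := r4018 v2074 v1847 v1963 w5919
theorem v4019 : PV l4019 := r4019 v2073 v1963 v1847 w5968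
theorem v4020 : PV l4020 := r4020 v1963 v1847 v2073 w6096
theorem v4021 : PV l4021 := r4021 v1963 v2073 v1847 w6231
theorem v4022 : PV l4022 := r4022 v1963 v1847 v2073 w6479
theorem v4023 : PV l4023 := r4023 v1963 v1847 v2073 w6617
theorem v4024 : PV l4024 := r4024 v1963 v1847 v2073 w6750
theorem v4025 : PV l4025 := r4025 v1845 v1961 w5866
theorem v4026 : PV l4026 := r4026 v1845 v1961 w5918
theorem v4027 : PV l4027 := r4027 v1845 v1961 w5967
theorem v4028 : PV l4028 := r4028 v1845 v1961 w6037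
theorem v4029 : PV l4029 := r4029 v1961 v1845 w6095
theorem v4030 : PV l4030 := r4030 v1845 v1961 w6169
theorem v4031 : PV l4031 := r4031 v1845 v1961 w6230
theorem v4032 : PV l4032 := r4032 v1845 v1961 w6300
theorem v4033 : PV l4033 := r4033 v1845 v1961 w6364
theorem v4034 : PV l4034 := r4034 v1961 v1845 w6480
theorem v4035 : PV l4035 := r4035 v1845 v1961 w6618
theorem v4036 : PV l4036 := r4036 v1845 v1961 w6692
theorem v4037 : PV l4037 := r4037 v1845 v1961 w6751
theorem v4038 : PV l4038 := r4038 v1846 v1961 w5878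
theorem v4039 : PV l4039 := r4039 v1846 v1961 w6118
theorem v4040 : PV l4040 := r4040 v1961 v1846 w6457
theorem v4041 : PV l4041 := r4041 v1846 v1961 w6733
theorem v4042 : PV l4042 := r4042 v1846 v1961 w5988
theorem v4043 : PV l4043 := r4043 v1846 v1961 w6256
theorem v4044 : PV l4044 := r4044 v1961 v1846 v515
theorem v4045 : PV l4045 := r4045 v2072 w5917
theorem v4046 : PV l4046 := r4046 v2071 w5966
theorem v4047 : PV l4047 := r4047 v2072 w6036
theorem v4048 : PV l4048 := r4048 v2071 w6094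
theorem v4049 : PV l4049 := r4049 v2072 w6168
theorem v4050 : PV l4050 := r4050 v2071 w6229
theorem v4051 : PV l4051 := r4051 v2072 w6299
theorem v4052 : PV l4052 := r4052 v2072 w6562
theorem v4053 : PV l4053 := r4053 v1843 v1959 w5864
theorem v4054 : PV l4054 := r4054 v1843 v1959 w5916
theorem v4055 : PV l4055 := r4055 v1843 v1959 w5965
theorem v4056 : PV l4056 := r4056 v1843 v1959 w6035
theorem v4057 : PV l4057 := r4057 v1843 v1959 w6093
theorem v4058 : PV l4058 := r4058 v1959 v1843 w6167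
theorem v4059 : PV l4059 := r4059 v1959 v1843 w6228
theorem v4060 : PV l4060 := r4060 v1843 v1959 w6298
theorem v4061 : PV l4061 := r4061 v1843 v1959 w6327
theorem v4062 : PV l4062 := r4062 v1959 v1843 w6365
theorem v4063 : PV l4063 := r4063 v1959 v1843 w6411
theorem v4064 : PV l4064 := r4064 v1843 v1959 w6482
theorem v4065 : PV l4065 := r4065 v1959 v1843 w6563
theorem v4066 : PV l4066 := r4066 v1843 v1959 w6619
theorem v4067 : PV l4067 := r4067 v1843 v1959 w6693
theorem v4068 : PV l4068 := r4068 v1843 v1959 w6752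
theorem v4069 : PV l4069 := r4069 v1959 v1844 w5876
theorem v4070 : PV l4070 := r4070 v1959 v1844 w6116
theorem v4071 : PV l4071 := r4071 v1959 v1844 w6458
theorem v4072 : PV l4072 := r4072 v1959 v1844 w6734
theorem v4073 : PV l4073 := r4073 v1959 v1844 w5986
theorem v4074 : PV l4074 := r4074 v1959 v1844 w6254
theorem v4075 : PV l4075 := r4075 v1959 v1844 w6354
theorem v4076 : PV l4076 := r4076 v1844 v1959 w6601
theorem v4077 : PV l4077 := r4077 v1956 v1900 w393
theorem v4078 : PV l4078 := r4078 v1865 w362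
theorem v4079 : PV l4079 := r4079 v1870 w609
theorem v4080 : PV l4080 := r4080 v1876 w673
theorem v4081 : PV l4081 := r4081 v1872 w674
theorem v4082 : PV l4082 := r4082 v1882 w753
theorem v4083 : PV l4083 := r4083 v1888 w805
theorem v4084 : PV l4084 := r4084 v1884 w806
theorem v4085 : PV l4085 := r4085 v1847 w125
theorem v4086 : PV l4086 := r4086 v1845 w126
theorem v4087 : PV l4087 := r4087 v2230 v2240 v870
theorem v4088 : PV l4088 := r4088 v2230 v2240 v871
theorem v4089 : PV l4089 := r4089 v1909 v1948 w467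
theorem v4090 : PV l4090 := r4090 v1909 v1948 w468
theorem v4091 : PV l4091 := r4091 v1913 v1948 w469
theorem v4092 : PV l4092 := r4092 v1913 v1948 w470
theorem v4093 : PV l4093 := r4093 v1921 v1948 w494
theorem v4094 : PV l4094 := r4094 v1948 v1927 w539
theorem v4095 : PV l4095 := r4095 v1948 v1933 w544
theorem v4096 : PV l4096 := r4096 v1948 v1933 w545
theorem v4097 : PV l4097 := r4097 v1948 v1933 w546
theorem v4098 : PV l4098 := r4098 v1937 v1948 w553
theorem v4099 : PV l4099 := r4099 v1937 v1948 w554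
theorem v4100 : PV l4100 := r4100 v1937 v1948 w555
theorem v4101 : PV l4101 := r4101 v1937 v1948 w556
theorem v4102 : PV l4102 := r4102 v1937 v1948 w557
theorem v4103 : PV l4103 := r4103 v1937 v1948 w558
theorem v4104 : PV l4104 := r4104 v1945 v1948 w606
theorem v4105 : PV l4105 := r4105 v1954 v1945 v1948 w607
theorem v4106 : PV l4106 := r4106 v2175 v2063 v1948 w7054
theorem v4107 : PV l4107 := r4107 v2176 v1948 v2063 w7101
theorem v4108 : PV l4108 := r4108 v2175 v2063 v1948 w7150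
theorem v4109 : PV l4109 := r4109 v2175 v2063 v1948 w7244
theorem v4110 : PV l4110 := r4110 v2175 v2063 v1948 w7338
theorem v4111 : PV l4111 := r4111 v1948 v2063 v2175 w9080
theorem v4112 : PV l4112 := r4112 v2176 v2063 v1948 w9127
theorem v4113 : PV l4113 := r4113 v2063 v2175 v1948 w9155
theorem v4114 : PV l4114 := r4114 v1896 v1948 w381
theorem v4115 : PV l4115 := r4115 v1849 v1948 w105
theorem v4116 : PV l4116 := r4116 v1849 v1948 w106
theorem v4117 : PV l4117 := r4117 v1849 v1948 w107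
theorem v4118 : PV l4118 := r4118 v1849 v1948 w108
theorem v4119 : PV l4119 := r4119 v1849 v1948 w109
theorem v4120 : PV l4120 := r4120 v1849 v1948 w110
theorem v4121 : PV l4121 := r4121 v1911 v1946 w465
theorem v4122 : PV l4122 := r4122 v1911 v1946 w466
theorem v4123 : PV l4123 := r4123 v1915 v1946 w490
theorem v4124 : PV l4124 := r4124 v1917 v1946 w491
theorem v4125 : PV l4125 := r4125 v1919 v1946 w492
theorem v4126 : PV l4126 := r4126 v1923 v1946 w493
theorem v4127 : PV l4127 := r4127 v1946 v1927 w535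
theorem v4128 : PV l4128 := r4128 v1946 v1929 w536
theorem v4129 : PV l4129 := r4129 v1946 v1931 w538
theorem v4130 : PV l4130 := r4130 v1946 v1933 w540
theorem v4131 : PV l4131 := r4131 v1946 v1933 w541
theorem v4132 : PV l4132 := r4132 v1946 v1935 w542
theorem v4133 : PV l4133 := r4133 v1946 v1935 w543
theorem v4134 : PV l4134 := r4134 v1937 v1946 w547
theorem v4135 : PV l4135 := r4135 v1937 v1946 w548
theorem v4136 : PV l4136 := r4136 v1937 v1946 w550
theorem v4137 : PV l4137 := r4137 v1939 v1946 w604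
theorem v4138 : PV l4138 := r4138 v1943 v1946 w605
theorem v4139 : PV l4139 := r4139 v2226 v2061 v1946 v2173 w7053
theorem v4140 : PV l4140 := r4140 v2226 v2174 v1946 v2061 w7100
theorem v4141 : PV l4141 := r4141 v2227 v2061 v2173 v1946 w7149
theorem v4142 : PV l4142 := r4142 v2227 v2061 v1946 v2174 w7199
theorem v4143 : PV l4143 := r4143 v1946 v2061 v2226 v2173 w7243
theorem v4144 : PV l4144 := r4144 v2061 v2226 v1946 v2174 w7299
theorem v4145 : PV l4145 := r4145 v1946 v2173 v2227 v2061 w7337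
theorem v4146 : PV l4146 := r4146 v2226 v2173 v2061 v1946 w8992
theorem v4147 : PV l4147 := r4147 v2227 v2061 v1946 v2173 w9081
theorem v4148 : PV l4148 := r4148 v2174 v1946 v2226 v2061 w9128
theorem v4149 : PV l4149 := r4149 v2061 v2226 v2173 v1946 w9156
theorem v4150 : PV l4150 := r4150 v1896 v1946 w379
theorem v4151 : PV l4151 := r4151 v1896 v1946 w380
theorem v4152 : PV l4152 := r4152 v1920 v1945 w573
theorem v4153 : PV l4153 := r4153 v1932 v1945 w586
theorem v4154 : PV l4154 := r4154 v1932 v1945 w587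
theorem v4155 : PV l4155 := r4155 v1932 v1945 w588
theorem v4156 : PV l4156 := r4156 v1945 v1936 w594
theorem v4157 : PV l4157 := r4157 v1945 v1936 w595
theorem v4158 : PV l4158 := r4158 v1945 v1936 w596
theorem v4159 : PV l4159 := r4159 v2059 v2172 v1945 w7311
theorem v4160 : PV l4160 := r4160 v1945 v2059 v2172 w7208
theorem v4161 : PV l4161 := r4161 v1919 v1942 w488
theorem v4162 : PV l4162 := r4162 v1919 v1942 w489
theorem v4163 : PV l4163 := r4163 v1942 v1929 w530
theorem v4164 : PV l4164 := r4164 v1942 v1931 w531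
theorem v4165 : PV l4165 := r4165 v1942 v1931 w532
theorem v4166 : PV l4166 := r4166 v1942 v1931 w533
theorem v4167 : PV l4167 := r4167 v1942 v1935 w537
theorem v4168 : PV l4168 := r4168 v1942 v2224 v2057 v2169 w7051
theorem v4169 : PV l4169 := r4169 v1942 v2224 v2057 v2170 w7098
theorem v4170 : PV l4170 := r4170 v1942 v2057 v2225 v2169 w7147
theorem v4171 : PV l4171 := r4171 v1942 v2170 v2225 v2057 w7197
theorem v4172 : PV l4172 := r4172 v2057 v2169 v1942 v2224 w7241
theorem v4173 : PV l4173 := r4173 v2170 v2224 v1942 v2057 w7297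
theorem v4174 : PV l4174 := r4174 v1942 v2225 v2169 v2057 w7335
theorem v4175 : PV l4175 := r4175 v2170 v2224 v1942 v2057 w8952
theorem v4176 : PV l4176 := r4176 v1942 v2057 v2170 v2224 w9130
theorem v4177 : PV l4177 := r4177 v1896 v1942 w377
theorem v4178 : PV l4178 := r4178 v1896 v1942 w378
theorem v4179 : PV l4179 := r4179 v1912 v1941 w567
theorem v4180 : PV l4180 := r4180 v1932 v1941 w579
theorem v4181 : PV l4181 := r4181 v1932 v1941 w580
theorem v4182 : PV l4182 := r4182 v1934 v1941 w583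
theorem v4183 : PV l4183 := r4183 v1941 v1936 w590
theorem v4184 : PV l4184 := r4184 v1850 v1941 w68
theorem v4185 : PV l4185 := r4185 v1852 v1941 w69
theorem v4186 : PV l4186 := r4186 v2222 v2055 v2167 v1941 w7064
theorem v4187 : PV l4187 := r4187 v2167 v2055 v2223 v1941 w8902
theorem v4188 : PV l4188 := r4188 v2168 v2055 v1941 v2222 w7309
theorem v4189 : PV l4189 := r4189 v1941 v2168 v2223 v2055 w7207
theorem v4190 : PV l4190 := r4190 v1938 v2165 v2053 w7145
theorem v4191 : PV l4191 := r4191 v1938 v2053 v2166 w7195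
theorem v4192 : PV l4192 := r4192 v1938 v2165 v2053 w7239
theorem v4193 : PV l4193 := r4193 v2053 v1938 v2166 w7295
theorem v4194 : PV l4194 := r4194 v1938 v2165 v2053 w7333
theorem v4195 : PV l4195 := r4195 v1938 v2053 v2166 w7390
theorem v4196 : PV l4196 := r4196 v1938 v2053 v2166 w8878
theorem v4197 : PV l4197 := r4197 v1938 v2053 v2166 w8953
theorem v4198 : PV l4198 := r4198 v1938 v2053 v2166 w9041
theorem v4199 : PV l4199 := r4199 v1909 v1936 w457
theorem v4200 : PV l4200 := r4200 v1913 v1936 w458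
theorem v4201 : PV l4201 := r4201 v1915 v1936 w481
theorem v4202 : PV l4202 := r4202 v1921 v1936 w482
theorem v4203 : PV l4203 := r4203 v1925 v1936 w483
theorem v4204 : PV l4204 := r4204 v1925 v1936 w484
theorem v4205 : PV l4205 := r4205 v1925 v1936 w485
theorem v4206 : PV l4206 := r4206 v1925 v1936 w486
theorem v4207 : PV l4207 := r4207 v1925 v1936 w487
theorem v4208 : PV l4208 := r4208 v1936 v1927 w526
theorem v4209 : PV l4209 := r4209 v1936 v1933 w527
theorem v4210 : PV l4210 := r4210 v1952 v1936 v1933 w528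
theorem v4211 : PV l4211 := r4211 v1949 v1936 w599
theorem v4212 : PV l4212 := r4212 v1949 v1936 w600
theorem v4213 : PV l4213 := r4213 v1949 v1936 w601
theorem v4214 : PV l4214 := r4214 v1949 v1936 w602
theorem v4215 : PV l4215 := r4215 v1949 v1936 w603
theorem v4216 : PV l4216 := r4216 v1936 v2051 v2163 w7049
theorem v4217 : PV l4217 := r4217 v1936 v2051 v2164 w7097
theorem v4218 : PV l4218 := r4218 v2163 v1936 v2051 w7144
theorem v4219 : PV l4219 := r4219 v1936 v2163 v2051 w7238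
theorem v4220 : PV l4220 := r4220 v2051 v2163 v1936 w8408
theorem v4221 : PV l4221 := r4221 v1936 v2163 v2051 w8552
theorem v4222 : PV l4222 := r4222 v2164 v1936 v2051 w8618
theorem v4223 : PV l4223 := r4223 v2163 v1936 v2051 w8710
theorem v4224 : PV l4224 := r4224 v1936 v2051 v2164 w8781
theorem v4225 : PV l4225 := r4225 v1936 v2163 v2051 w8841
theorem v4226 : PV l4226 := r4226 v1896 v1936 w374
theorem v4227 : PV l4227 := r4227 v1890 v1936 w372
theorem v4228 : PV l4228 := r4228 v1849 v1936 w87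
theorem v4229 : PV l4229 := r4229 v1849 v1936 w88
theorem v4230 : PV l4230 := r4230 v1849 v1936 w89
theorem v4231 : PV l4231 := r4231 v1849 v1936 w91
theorem v4232 : PV l4232 := r4232 v1849 v1936 w92
theorem v4233 : PV l4233 := r4233 v1849 v1936 w93
theorem v4234 : PV l4234 := r4234 v1851 v1936 w94
theorem v4235 : PV l4235 := r4235 v1919 v1934 w480
theorem v4236 : PV l4236 := r4236 v1931 v1934 w525
theorem v4237 : PV l4237 := r4237 v2049 v1934 v2161 v2221 w8409
theorem v4238 : PV l4238 := r4238 v2049 v2220 v2161 v1934 w8553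
theorem v4239 : PV l4239 := r4239 v2221 v1934 v2049 v2162 w8619
theorem v4240 : PV l4240 := r4240 v2049 v2221 v2161 v1934 w8711
theorem v4241 : PV l4241 := r4241 v2220 v1934 v2162 v2049 w8782
theorem v4242 : PV l4242 := r4242 v2220 v2161 v2049 v1934 w8842
theorem v4243 : PV l4243 := r4243 v2047 v2160 v1932 w7194
theorem v4244 : PV l4244 := r4244 v2160 v1932 v2047 w7294
theorem v4245 : PV l4245 := r4245 v2160 v2047 v1932 w8318
theorem v4246 : PV l4246 := r4246 v2159 v2047 v1932 w8410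
theorem v4247 : PV l4247 := r4247 v2160 v1932 v2047 w8474
theorem v4248 : PV l4248 := r4248 v2047 v2160 v1932 w8620
theorem v4249 : PV l4249 := r4249 v2047 v2159 v1932 w8712
theorem v4250 : PV l4250 := r4250 v2047 v2160 v1932 w8783
theorem v4251 : PV l4251 := r4251 v2159 v2047 v1932 w8843
theorem v4252 : PV l4252 := r4252 v2217 v2043 v1928 v2156 w7389
theorem v4253 : PV l4253 := r4253 v2043 v1928 v2156 v2217 w8320
theorem v4254 : PV l4254 := r4254 v2155 v1928 v2217 v2043 w8412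
theorem v4255 : PV l4255 := r4255 v2216 v2155 v1928 v2043 w8555
theorem v4256 : PV l4256 := r4256 v2155 v2217 v2043 v1928 w8714
theorem v4257 : PV l4257 := r4257 v1909 v1924 w452
theorem v4258 : PV l4258 := r4258 v1909 v1924 w453
theorem v4259 : PV l4259 := r4259 v1924 v1933 w520
theorem v4260 : PV l4260 := r4260 v1924 v1933 w521
theorem v4261 : PV l4261 := r4261 v1924 v1933 w522
theorem v4262 : PV l4262 := r4262 v1924 v1937 w524
theorem v4263 : PV l4263 := r4263 v2152 v1924 v2039 w7096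
theorem v4264 : PV l4264 := r4264 v2039 v2151 v1924 w7143
theorem v4265 : PV l4265 := r4265 v1924 v2151 v2039 w7237
theorem v4266 : PV l4266 := r4266 v2152 v1924 v2039 w7678
theorem v4267 : PV l4267 := r4267 v2039 v1924 v2151 w7758
theorem v4268 : PV l4268 := r4268 v2152 v1924 v2039 w7836
theorem v4269 : PV l4269 := r4269 v1924 v2151 v2039 w7934
theorem v4270 : PV l4270 := r4270 v1924 v2038 v2151 w7973
theorem v4271 : PV l4271 := r4271 v2152 v1924 v2039 w8007
theorem v4272 : PV l4272 := r4272 v1924 v2039 v2151 w8100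
theorem v4273 : PV l4273 := r4273 v2152 v2039 v1924 w8171
theorem v4274 : PV l4274 := r4274 v1924 v2039 v2151 w8259
theorem v4275 : PV l4275 := r4275 v1911 v1922 w451
theorem v4276 : PV l4276 := r4276 v1913 v1922 w454
theorem v4277 : PV l4277 := r4277 v1913 v1922 w455
theorem v4278 : PV l4278 := r4278 v1919 v1922 w476
theorem v4279 : PV l4279 := r4279 v1922 v1927 w513
theorem v4280 : PV l4280 := r4280 v1922 v1929 w514
theorem v4281 : PV l4281 := r4281 v1922 v1933 w515
theorem v4282 : PV l4282 := r4282 v1922 v1933 w516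
theorem v4283 : PV l4283 := r4283 v1922 v1935 w517
theorem v4284 : PV l4284 := r4284 v1922 v1935 w518
theorem v4285 : PV l4285 := r4285 v1922 v1937 w523
theorem v4286 : PV l4286 := r4286 v2150 v1922 v2215 v2037 w7679
theorem v4287 : PV l4287 := r4287 v2215 v1922 v2037 v2149 w8101
theorem v4288 : PV l4288 := r4288 v1922 v2037 v2214 v2149 w8260
theorem v4289 : PV l4289 := r4289 v2148 v1921 v2035 w8157
theorem v4290 : PV l4290 := r4290 v1921 v2035 v2147 w8244
theorem v4291 : PV l4291 := r4291 v2035 v1921 v2147 w8078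
theorem v4292 : PV l4292 := r4292 v2148 v2035 v1921 w7991
theorem v4293 : PV l4293 := r4293 v2146 v1918 v2033 v2213 w7387
theorem v4294 : PV l4294 := r4294 v1918 v2213 v2033 v2145 w7759
theorem v4295 : PV l4295 := r4295 v1918 v2032 v2212 v2145 w7974
theorem v4296 : PV l4296 := r4296 v1918 v2033 v2145 v2213 w8103
theorem v4297 : PV l4297 := r4297 v2146 v2033 v1918 v2212 w8173
theorem v4298 : PV l4298 := r4298 v1912 v1917 w475
theorem v4299 : PV l4299 := r4299 v2031 v1917 v2210 v2143 w8246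
theorem v4300 : PV l4300 := r4300 v2031 v2143 v1917 v2211 w8080
theorem v4301 : PV l4301 := r4301 v2144 v2031 v1917 v2211 w7993
theorem v4302 : PV l4302 := r4302 v1912 v1909 w442
theorem v4303 : PV l4303 := r4303 v1912 v1927 w501
theorem v4304 : PV l4304 := r4304 v1912 v1933 w502
theorem v4305 : PV l4305 := r4305 v1912 v1933 w503
theorem v4306 : PV l4306 := r4306 v2139 v1912 v2027 w7046
theorem v4307 : PV l4307 := r4307 v2027 v2140 v1912 w7094
theorem v4308 : PV l4308 := r4308 v2139 v2027 v1912 w7236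
theorem v4309 : PV l4309 := r4309 v2139 v2027 v1912 w7507
theorem v4310 : PV l4310 := r4310 v2027 v2140 v1912 w7535
theorem v4311 : PV l4311 := r4311 v2139 v1912 v2027 w7581
theorem v4312 : PV l4312 := r4312 v2027 v2139 v1912 w7653
theorem v4313 : PV l4313 := r4313 v1849 v1912 w71
theorem v4314 : PV l4314 := r4314 v1849 v1912 w72
theorem v4315 : PV l4315 := r4315 v1901 v1927 w368
theorem v4316 : PV l4316 := r4316 v1901 v1939 w371
theorem v4317 : PV l4317 := r4317 v2202 v2014 v1901 v2127 w6809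
theorem v4318 : PV l4318 := r4318 v1901 v2203 v2014 v2127 w6842
theorem v4319 : PV l4319 := r4319 v2202 v2014 v1901 v2127 w6908
theorem v4320 : PV l4320 := r4320 v2203 v2014 v1901 v2127 w6965
theorem v4321 : PV l4321 := r4321 v2202 v2014 v1901 v2127 w7189
theorem v4322 : PV l4322 := r4322 v1901 v1853 w46
theorem v4323 : PV l4323 := r4323 v1901 v1859 w51
theorem v4324 : PV l4324 := r4324 v2200 v1899 v2125 v2012 w6808
theorem v4325 : PV l4325 := r4325 v2012 v2201 v1899 v2125 w6841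
theorem v4326 : PV l4326 := r4326 v2012 v2201 v1899 v2126 w6879
theorem v4327 : PV l4327 := r4327 v2200 v1899 v2125 v2012 w6907
theorem v4328 : PV l4328 := r4328 v2200 v1899 v2126 v2012 w6942
theorem v4329 : PV l4329 := r4329 v2201 v1899 v2126 v2012 w7007
theorem v4330 : PV l4330 := r4330 v2012 v1899 v2201 v2126 w7234
theorem v4331 : PV l4331 := r4331 v2200 v1899 v2125 v2012 w7383
theorem v4332 : PV l4332 := r4332 v2010 v2123 v1897 w6807
theorem v4333 : PV l4333 := r4333 v2010 v1897 v2124 w6825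
theorem v4334 : PV l4334 := r4334 v2010 v1897 v2123 w6840
theorem v4335 : PV l4335 := r4335 v2010 v1897 v2124 w6878
theorem v4336 : PV l4336 := r4336 v2010 v2123 v1897 w6906
theorem v4337 : PV l4337 := r4337 v2010 v1897 v2124 w6941
theorem v4338 : PV l4338 := r4338 v2010 v2123 v1897 w6964
theorem v4339 : PV l4339 := r4339 v2010 v1897 v2124 w7006
theorem v4340 : PV l4340 := r4340 v2010 v1897 v2124 w7139
theorem v4341 : PV l4341 := r4341 v2010 v2123 v1897 w7190
theorem v4342 : PV l4342 := r4342 v2010 v1897 v2124 w7235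
theorem v4343 : PV l4343 := r4343 v2010 v2123 v1897 w7384
theorem v4344 : PV l4344 := r4344 v1895 v1896 w363
theorem v4345 : PV l4345 := r4345 v1895 v1927 w366
theorem v4346 : PV l4346 := r4346 v1895 v1927 w367
theorem v4347 : PV l4347 := r4347 v1895 v1939 w370
theorem v4348 : PV l4348 := r4348 v1895 v2199 v2008 v2121 w6839
theorem v4349 : PV l4349 := r4349 v1895 v2199 v2122 v2008 w6877
theorem v4350 : PV l4350 := r4350 v2198 v1895 v2122 v2008 w6940
theorem v4351 : PV l4351 := r4351 v2199 v1895 v2121 v2008 w6963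
theorem v4352 : PV l4352 := r4352 v2199 v1895 v2122 v2008 w7005
theorem v4353 : PV l4353 := r4353 v2198 v1895 v2121 v2008 w7191
theorem v4354 : PV l4354 := r4354 v2008 v2199 v1895 v2121 w7290
theorem v4355 : PV l4355 := r4355 v1895 v1853 w45
theorem v4356 : PV l4356 := r4356 v1895 v1849 w48
theorem v4357 : PV l4357 := r4357 v1895 v1853 w50
theorem v4358 : PV l4358 := r4358 v2006 v1893 v2120 w6876
theorem v4359 : PV l4359 := r4359 v2006 v1893 v2120 w6939
theorem v4360 : PV l4360 := r4360 v2006 v2119 v1893 w6962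
theorem v4361 : PV l4361 := r4361 v2006 v1893 v2120 w7004
theorem v4362 : PV l4362 := r4362 v2006 v1893 v2120 w7043
theorem v4363 : PV l4363 := r4363 v1891 v1939 w369
theorem v4364 : PV l4364 := r4364 v2004 v1891 v2118 w6875
theorem v4365 : PV l4365 := r4365 v2004 v1891 v2118 w7003
theorem v4366 : PV l4366 := r4366 v2004 v1891 v2118 w7044
theorem v4367 : PV l4367 := r4367 v1891 v1849 w42
theorem v4368 : PV l4368 := r4368 v1891 v1849 w43
theorem v4369 : PV l4369 := r4369 v1891 v1849 w44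
theorem v4370 : PV l4370 := r4370 v1891 v1849 w47
theorem v4371 : PV l4371 := r4371 v1891 v1849 w49
theorem v4372 : PV l4372 := r4372 v2003 v1889 w6390
theorem v4373 : PV l4373 := r4373 v2002 v1889 w6332
theorem v4374 : PV l4374 := r4374 v2002 v1889 w6417
theorem v4375 : PV l4375 := r4375 v2002 v1889 w6569
theorem v4376 : PV l4376 := r4376 v2002 v1889 w6699
theorem v4377 : PV l4377 := r4377 v2002 v1889 w9000
theorem v4378 : PV l4378 := r4378 v1889 v2002 w9091
theorem v4379 : PV l4379 := r4379 v1889 v2002 w6373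
theorem v4380 : PV l4380 := r4380 v2002 v1889 w6496
theorem v4381 : PV l4381 := r4381 v1889 v2002 w6627
theorem v4382 : PV l4382 := r4382 v2002 v1889 w6767
theorem v4383 : PV l4383 := r4383 v1889 v2002 w8881
theorem v4384 : PV l4384 := r4384 v1889 v2002 w8959
theorem v4385 : PV l4385 := r4385 v2115 v2000 v1887 w6416
theorem v4386 : PV l4386 := r4386 v2115 v1887 v2000 w6568
theorem v4387 : PV l4387 := r4387 v2000 v1887 v2116 w6372
theorem v4388 : PV l4388 := r4388 v2116 v2000 v1887 w6495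
theorem v4389 : PV l4389 := r4389 v2000 v1887 v2116 w6626
theorem v4390 : PV l4390 := r4390 v2116 v1887 v2000 w6766
theorem v4391 : PV l4391 := r4391 v2116 v2000 v1887 w9046
theorem v4392 : PV l4392 := r4392 v1885 w343
theorem v4393 : PV l4393 := r4393 v1999 v1885 w6389
theorem v4394 : PV l4394 := r4394 v1885 v1998 w6331
theorem v4395 : PV l4395 := r4395 v1885 v1998 w6415
theorem v4396 : PV l4396 := r4396 v1885 v1998 w6567
theorem v4397 : PV l4397 := r4397 v1998 v1885 w6697
theorem v4398 : PV l4398 := r4398 v1998 v1885 w6371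
theorem v4399 : PV l4399 := r4399 v1998 v1885 w6494
theorem v4400 : PV l4400 := r4400 v1885 v1998 w6625
theorem v4401 : PV l4401 := r4401 v1885 v1998 w6765
theorem v4402 : PV l4402 := r4402 v1885 v1998 w8882
theorem v4403 : PV l4403 := r4403 v2113 w6414
theorem v4404 : PV l4404 := r4404 v2113 w6566
theorem v4405 : PV l4405 := r4405 v2114 w6370
theorem v4406 : PV l4406 := r4406 v2114 w6493
theorem v4407 : PV l4407 := r4407 v2114 w6624
theorem v4408 : PV l4408 := r4408 v2114 w6764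
theorem v4409 : PV l4409 := r4409 v2114 w8883
theorem v4410 : PV l4410 := r4410 v2114 w9048
theorem v4411 : PV l4411 := r4411 v2112 w6388
theorem v4412 : PV l4412 := r4412 v2111 w6329
theorem v4413 : PV l4413 := r4413 v2111 w6413
theorem v4414 : PV l4414 := r4414 v2111 w6695
theorem v4415 : PV l4415 := r4415 v2112 w6369
theorem v4416 : PV l4416 := r4416 v2112 w6492
theorem v4417 : PV l4417 := r4417 v2112 w6623
theorem v4418 : PV l4418 := r4418 v2112 w6763
theorem v4419 : PV l4419 := r4419 v2112 w8960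
theorem v4420 : PV l4420 := r4420 v2112 w9049
theorem v4421 : PV l4421 := r4421 v1883 w27
theorem v4422 : PV l4422 := r4422 v1883 w32
theorem v4423 : PV l4423 := r4423 v1883 v1996 w8729
theorem v4424 : PV l4424 := r4424 v1883 v1996 w6490
theorem v4425 : PV l4425 := r4425 v1883 v1996 w8330
theorem v4426 : PV l4426 := r4426 v1883 v1996 w8486
theorem v4427 : PV l4427 := r4427 v1883 v1996 w8635
theorem v4428 : PV l4428 := r4428 v1883 w308
theorem v4429 : PV l4429 := r4429 v1881 v1994 v2110 w8331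
theorem v4430 : PV l4430 := r4430 v1881 v2110 v1994 w8487
theorem v4431 : PV l4431 := r4431 v1881 v1994 v2110 w8636
theorem v4432 : PV l4432 := r4432 v1879 w28
theorem v4433 : PV l4433 := r4433 v1879 w30
theorem v4434 : PV l4434 := r4434 v1879 w31
theorem v4435 : PV l4435 := r4435 v1879 w34
theorem v4436 : PV l4436 := r4436 v1992 v1879 w6489
theorem v4437 : PV l4437 := r4437 v1992 v1879 w8637
theorem v4438 : PV l4438 := r4438 v1879 w298
theorem v4439 : PV l4439 := r4439 v2108 w6488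
theorem v4440 : PV l4440 := r4440 v2108 w6622
theorem v4441 : PV l4441 := r4441 v2108 w8332
theorem v4442 : PV l4442 := r4442 v2108 w8488
theorem v4443 : PV l4443 := r4443 v2108 w8638
theorem v4444 : PV l4444 := r4444 v2108 w6659
theorem v4445 : PV l4445 := r4445 v2106 w8333
theorem v4446 : PV l4446 := r4446 v2106 w8639
theorem v4447 : PV l4447 := r4447 v2106 w6658
theorem v4448 : PV l4448 := r4448 v1877 v1990 w6565
theorem v4449 : PV l4449 := r4449 v1990 v1877 w7948
theorem v4450 : PV l4450 := r4450 v1990 v1877 w8116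
theorem v4451 : PV l4451 := r4451 v1990 v1877 w8273
theorem v4452 : PV l4452 := r4452 v1877 v1990 w6760
theorem v4453 : PV l4453 := r4453 v1877 v1990 w7690
theorem v4454 : PV l4454 := r4454 v1877 v1990 w7852
theorem v4455 : PV l4455 := r4455 v1990 v1877 w8023
theorem v4456 : PV l4456 := r4456 v1877 v1990 w8188
theorem v4457 : PV l4457 := r4457 v1988 v1875 v2103 w8274
theorem v4458 : PV l4458 := r4458 v1986 v1873 w8275
theorem v4459 : PV l4459 := r4459 v1873 v1986 w6759
theorem v4460 : PV l4460 := r4460 v1986 v1873 w7691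
theorem v4461 : PV l4461 := r4461 v1873 v1986 w7853
theorem v4462 : PV l4462 := r4462 v1986 v1873 w8024
theorem v4463 : PV l4463 := r4463 v1873 w270
theorem v4464 : PV l4464 := r4464 v2101 w8117
theorem v4465 : PV l4465 := r4465 v2102 w6758
theorem v4466 : PV l4466 := r4466 v2102 w7692
theorem v4467 : PV l4467 := r4467 v2102 w7854
theorem v4468 : PV l4468 := r4468 v2102 w8025
theorem v4469 : PV l4469 := r4469 v2102 w8189
theorem v4470 : PV l4470 := r4470 v2099 w7776
theorem v4471 : PV l4471 := r4471 v2099 w8118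
theorem v4472 : PV l4472 := r4472 v2099 w8276
theorem v4473 : PV l4473 := r4473 v2100 w6757
theorem v4474 : PV l4474 := r4474 v2100 w7693
theorem v4475 : PV l4475 := r4475 v2100 w7855
theorem v4476 : PV l4476 := r4476 v2100 w8026
theorem v4477 : PV l4477 := r4477 v2100 w8190
theorem v4478 : PV l4478 := r4478 v1871 v1984 w7405
theorem v4479 : PV l4479 := r4479 v1871 v1984 w7539
theorem v4480 : PV l4480 := r4480 v1871 v1984 w7615
theorem v4481 : PV l4481 := r4481 v1869 v2098 v1983 w7540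
theorem v4482 : PV l4482 := r4482 v1981 v1868 w6484
theorem v4483 : PV l4483 := r4483 v1981 v1868 w6755
theorem v4484 : PV l4484 := r4484 v1981 v1868 w7406
theorem v4485 : PV l4485 := r4485 v1868 v1981 w7468
theorem v4486 : PV l4486 := r4486 v1868 v1981 w7541
theorem v4487 : PV l4487 := r4487 v1868 w247
theorem v4488 : PV l4488 := r4488 v2096 w7407
theorem v4489 : PV l4489 := r4489 v2096 w7469
theorem v4490 : PV l4490 := r4490 v2096 w7542
theorem v4491 : PV l4491 := r4491 v2096 w7616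
theorem v4492 : PV l4492 := r4492 v2094 w6621
theorem v4493 : PV l4493 := r4493 v2094 w6754
theorem v4494 : PV l4494 := r4494 v2094 w7408
theorem v4495 : PV l4495 := r4495 v2094 w7470
theorem v4496 : PV l4496 := r4496 v2094 w7543
theorem v4497 : PV l4497 := r4497 v2094 w7617
theorem v4498 : PV l4498 := r4498 v1867 v1913 v989
theorem v4499 : PV l4499 := r4499 v1866 v1979 w6826
theorem v4500 : PV l4500 := r4500 v1861 v997
theorem v4501 : PV l4501 := r4501 v1888 w104
theorem v4502 : PV l4502 := r4502 v1888 w103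
theorem v4503 : PV l4503 := r4503 v1882 w85
theorem v4504 : PV l4504 := r4504 v1882 w84
theorem v4505 : PV l4505 := r4505 v1876 w77
theorem v4506 : PV l4506 := r4506 v1870 w70
theorem v4507 : PV l4507 := r4507 v2188 v2086 v1858 v1972 w6160
theorem v4508 : PV l4508 := r4508 v1970 v2084 v1856 w5907
theorem v4509 : PV l4509 := r4509 v1856 v2084 v1970 w6024
theorem v4510 : PV l4510 := r4510 v1970 v2084 v1856 w6159
theorem v4511 : PV l4511 := r4511 v2186 v1854 v1968 v2082 w5906
theorem v4512 : PV l4512 := r4512 v2187 v1854 v2082 v1968 w6023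
theorem v4513 : PV l4513 := r4513 v2187 v2082 v1854 v1968 w6287
theorem v4514 : PV l4514 := r4514 v2187 v1854 v2082 v1968 w7232
theorem v4515 : PV l4515 := r4515 v1966 v2080 v1852 w5905
theorem v4516 : PV l4516 := r4516 v1966 v2080 v1852 w6286
theorem v4517 : PV l4517 := r4517 v2078 v1850 v1964 w5904
theorem v4518 : PV l4518 := r4518 v1850 v2078 v1964 w6022
theorem v4519 : PV l4519 := r4519 v2078 v1850 v1964 w6158
theorem v4520 : PV l4520 := r4520 v1964 v2078 v1850 w6285
theorem v4521 : PV l4521 := r4521 v1964 v2078 v1850 w7042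
theorem v4522 : PV l4522 := r4522 v2078 v1850 v1964 w7138
theorem v4523 : PV l4523 := r4523 v1850 v2078 v1964 w7233
theorem v4524 : PV l4524 := r4524 v2078 v1850 v1964 w7331
theorem v4525 : PV l4525 := r4525 v1845 v1008
theorem v4526 : PV l4526 := r4526 v1847 v1009
theorem v4527 : PV l4527 := r4527 v2076 w5902
theorem v4528 : PV l4528 := r4528 v2076 w6020
theorem v4529 : PV l4529 := r4529 v2076 w6156
theorem v4530 : PV l4530 := r4530 v2074 v1848 v1962 w5901
theorem v4531 : PV l4531 := r4531 v2074 v1962 v1848 w6019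
theorem v4532 : PV l4532 := r4532 v2074 v1848 v1962 w6155
theorem v4533 : PV l4533 := r4533 v1846 v1960 w5900
theorem v4534 : PV l4534 := r4534 v1846 v1960 w6018
theorem v4535 : PV l4535 := r4535 v1960 v1846 w6154
theorem v4536 : PV l4536 := r4536 v1846 v1960 w6284
theorem v4537 : PV l4537 := r4537 v1846 v1960 w6334
theorem v4538 : PV l4538 := r4538 v1960 v1846 w6420
theorem v4539 : PV l4539 := r4539 v1846 v1960 w6572
theorem v4540 : PV l4540 := r4540 v1846 v1960 w6702
theorem v4541 : PV l4541 := r4541 v1846 v1961 w6183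
theorem v4542 : PV l4542 := r4542 v2072 w5899
theorem v4543 : PV l4543 := r4543 v2072 w6017
theorem v4544 : PV l4544 := r4544 v2072 w6153
theorem v4545 : PV l4545 := r4545 v2072 w6283
theorem v4546 : PV l4546 := r4546 v2072 w6421
theorem v4547 : PV l4547 := r4547 v1958 v1844 w5898
theorem v4548 : PV l4548 := r4548 v1958 v1844 w6016
theorem v4549 : PV l4549 := r4549 v1958 v1844 w6152
theorem v4550 : PV l4550 := r4550 v1844 v1958 w6282
theorem v4551 : PV l4551 := r4551 v1958 v1844 w6335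
theorem v4552 : PV l4552 := r4552 v1844 v1958 w6422
theorem v4553 : PV l4553 := r4553 v1844 v1958 w6574
theorem v4554 : PV l4554 := r4554 v1958 v1844 w6703
theorem v4555 : PV l4555 := r4555 v2235 w3638
theorem v4556 : PV l4556 := r4556 v2067 w1547
theorem v4557 : PV l4557 := r4557 v1951 w686
theorem v4558 : PV l4558 := r4558 v2248 w5790
theorem v4559 : PV l4559 := r4559 v2247 v669
theorem v4560 : PV l4560 := r4560 v2067 w1550
theorem v4561 : PV l4561 := r4561 v2181 w2284
theorem v4562 : PV l4562 := r4562 v2181 w2289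
theorem v4563 : PV l4563 := r4563 v2248 w5801
theorem v4564 : PV l4564 := r4564 v2248 w5576
theorem v4565 : PV l4565 := r4565 v2180 w2246
theorem v4566 : PV l4566 := r4566 v1955 w670
theorem v4567 : PV l4567 := r4567 v1955 v670
theorem v4568 : PV l4568 := r4568 v1955 w779
theorem v4569 : PV l4569 := r4569 v2233 v2067 v2246 v1953 v2181 w8677
theorem v4570 : PV l4570 := r4570 v2181 v2245 v2067 v1953 v2234 w8523
theorem v4571 : PV l4571 := r4571 v2247 w5574
theorem v4572 : PV l4572 := r4572 v2233 v2182 v2067 v2246 v1953 w8747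
theorem v4573 : PV l4573 := r4573 v2019 v2205 v2132 v1281
theorem v4574 : PV l4574 := r4574 v2131 v2019 v2205 v1904 w7439
theorem v4575 : PV l4575 := r4575 v2131 v2205 v1904 v2019 w7585
theorem v4576 : PV l4576 := r4576 v1927 v2041 v2154 w8597
theorem v4577 : PV l4577 := r4577 v2023 v1909 v2136 w7527
theorem v4578 : PV l4578 := r4578 v2017 v2130 v1903 w7530
theorem v4579 : PV l4579 := r4579 v2017 v2130 v1903 w7303
theorem v4580 : PV l4580 := r4580 v2141 v1915 v2029 w8247
theorem v4581 : PV l4581 := r4581 v2029 v2141 v1915 w8081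
theorem v4582 : PV l4582 := r4582 v1915 v2029 v2142 v602
theorem v4583 : PV l4583 := r4583 v1915 v2029 v2142 w7994
theorem v4584 : PV l4584 := r4584 v2029 v1915 v2142 w8158
theorem v4585 : PV l4585 := r4585 v1915 v2029 v2142 w7820
theorem v4586 : PV l4586 := r4586 v2021 v2134 v2207 v1907 v594
theorem v4587 : PV l4587 := r4587 v1906 v1911 v1013
theorem v4588 : PV l4588 := r4588 v1906 v1913 v1014
theorem v4589 : PV l4589 := r4589 v2153 v2041 v659
theorem v4590 : PV l4590 := r4590 v2153 v1927 v2041 w8538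
theorem v4591 : PV l4591 := r4591 v2153 v2041 v1927 w8390
theorem v4592 : PV l4592 := r4592 v2154 v1927 v2041 w7304
theorem v4593 : PV l4593 := r4593 v2168 v2055 v2223 v1941 w9030
theorem v4594 : PV l4594 := r4594 v1957 v2070 v2185 w7111
theorem v4595 : PV l4595 := r4595 v1957 v2070 v2185 w7124
theorem v4596 : PV l4596 := r4596 v1957 v2070 v2185 w7312
theorem v4597 : PV l4597 := r4597 v1957 v2070 v2185 w7322
theorem v4598 : PV l4598 := r4598 v2069 v2184 v1957 w7103
theorem v4599 : PV l4599 := r4599 v2069 v2184 v1957 w7136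
theorem v4600 : PV l4600 := r4600 v2069 v2184 v1957 w7201
theorem v4601 : PV l4601 := r4601 v2069 v2184 v1957 w7230
theorem v4602 : PV l4602 := r4602 v2069 v2184 v1957 w7301
theorem v4603 : PV l4603 := r4603 v2069 v2184 v1957 w7394
theorem v4604 : PV l4604 := r4604 v2069 v2185 v1957 w7056
theorem v4605 : PV l4605 := r4605 v2069 v2185 v1957 w7091
theorem v4606 : PV l4606 := r4606 v2069 v2185 v1957 w7152
theorem v4607 : PV l4607 := r4607 v2069 v2185 v1957 w7187
theorem v4608 : PV l4608 := r4608 v2069 v2185 v1957 w7246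
theorem v4609 : PV l4609 := r4609 v2069 v2185 v1957 w7287
theorem v4610 : PV l4610 := r4610 v2069 v2185 v1957 w7340
theorem v4611 : PV l4611 := r4611 v2069 v2185 v1957 w7381
theorem v4612 : PV l4612 := r4612 v2219 v1931 v2045 v2158 w7204
theorem v4613 : PV l4613 := r4613 v2219 v1931 v2158 v2045 w8595
theorem v4614 : PV l4614 := r4614 v2218 v2045 v1931 v2158 w8759
theorem v4615 : PV l4615 := r4615 v2045 v1931 v2218 v2158 w8453
theorem v4616 : PV l4616 := r4616 v2045 v2219 v1931 v2158 v624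
theorem v4617 : PV l4617 := r4617 v2219 v2157 v1931 v2045 w8693
theorem v4618 : PV l4618 := r4618 v2230 v2239 v1019
theorem v4619 : PV l4619 := r4619 v2230 v2239 v1020
theorem v4620 : PV l4620 := r4620 v2173 v2226 v1947 v2061 w8981
theorem v4621 : PV l4621 := r4621 v2057 v2224 v2169 v1943 w8982
theorem v4622 : PV l4622 := r4622 v2053 v1939 v2165 w8983
theorem v4623 : PV l4623 := r4623 v2049 v2161 v2220 v1935 w8534
theorem v4624 : PV l4624 := r4624 v2155 v2216 v1929 v2043 w8537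
theorem v4625 : PV l4625 := r4625 v2152 v2038 v1925 w7857
theorem v4626 : PV l4626 := r4626 v2150 v2036 v2214 v1923 w7858
theorem v4627 : PV l4627 := r4627 v2214 v1923 v2149 v2036 w7950
theorem v4628 : PV l4628 := r4628 v2146 v2032 v2212 v1919 w7860
theorem v4629 : PV l4629 := r4629 v2212 v1919 v2145 v2032 w7951
theorem v4630 : PV l4630 := r4630 v2059 v2172 v1945 w9028
theorem v4631 : PV l4631 := r4631 v2225 v2057 v1943 v2170 w9029
theorem v4632 : PV l4632 := r4632 v2221 v1935 v2049 v2162 w8593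
theorem v4633 : PV l4633 := r4633 v1929 v2043 v2217 v2156 w8596
theorem v4634 : PV l4634 := r4634 v2202 v1900 v2014 v2127 w6902
theorem v4635 : PV l4635 := r4635 v2200 v1898 v2012 v2125 w6901
theorem v4636 : PV l4636 := r4636 v2123 v1896 v2010 w6900
theorem v4637 : PV l4637 := r4637 v1889 v2003 w9109
theorem v4638 : PV l4638 := r4638 v1999 v1885 v1418
theorem v4639 : PV l4639 := r4639 v2112 w6664
theorem v4640 : PV l4640 := r4640 v2112 w8937
theorem v4641 : PV l4641 := r4641 v1883 v1997 w6662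
theorem v4642 : PV l4642 := r4642 v1883 v1997 w8754
theorem v4643 : PV l4643 := r4643 v1881 v1995 v2110 w6661
theorem v4644 : PV l4644 := r4644 v1881 v2110 v1995 w8447
theorem v4645 : PV l4645 := r4645 v1879 v1993 w6660
theorem v4646 : PV l4646 := r4646 v1879 v1993 w8448
theorem v4647 : PV l4647 := r4647 v2108 w8449
theorem v4648 : PV l4648 := r4648 v1877 v1991 w7814
theorem v4649 : PV l4649 := r4649 v1877 v1991 w8151
theorem v4650 : PV l4650 := r4650 v2104 v1875 v1989 w8152
theorem v4651 : PV l4651 := r4651 v1873 v1987 w7815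
theorem v4652 : PV l4652 := r4652 v2102 w8153
theorem v4653 : PV l4653 := r4653 v2100 w8154
theorem v4654 : PV l4654 := r4654 v2196 v1249
theorem v4655 : PV l4655 := r4655 v2196 v1250
theorem v4656 : PV l4656 := r4656 v2194 v1251
theorem v4657 : PV l4657 := r4657 v1947 v2227 v2061 v2174 w7209
theorem v4658 : PV l4658 := r4658 v2057 v1943 v2224 v2170 w7310
theorem v4659 : PV l4659 := r4659 v1937 v2051 v2164 w8756
theorem v4660 : PV l4660 := r4660 v1937 v2164 v2051 w7307
theorem v4661 : PV l4661 := r4661 v1933 v2047 v2160 w7205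
theorem v4662 : PV l4662 := r4662 v2160 v2047 v1933 w8758
theorem v4663 : PV l4663 := r4663 v1933 v2047 v2160 w7306
theorem v4664 : PV l4664 := r4664 v2160 v2047 v1933 w8452
theorem v4665 : PV l4665 := r4665 v1929 v2043 v2156 v2217 w7203
theorem v4666 : PV l4666 := r4666 v2216 v1929 v2043 v2156 w7305
theorem v4667 : PV l4667 := r4667 v2152 v2039 v1925 w8156
theorem v4668 : PV l4668 := r4668 v2150 v2037 v2215 v1923 v599
theorem v4669 : PV l4669 := r4669 v2146 v2033 v1919 v2213 w7992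
theorem v4670 : PV l4670 := r4670 v2146 v1919 v2213 v2033 v600
theorem v4671 : PV l4671 := r4671 v2144 v1917 v2031 v2211 v601
theorem v4672 : PV l4672 := r4672 v2012 v1898 v2201 v2125 w6958
theorem v4673 : PV l4673 := r4673 v2123 v1896 v2010 w6957
theorem v4674 : PV l4674 := r4674 v2119 v1892 v2006 w6956
theorem v4675 : PV l4675 := r4675 v1866 v1979 w6911
theorem v4676 : PV l4676 := r4676 v1979 v1865 w6462
theorem v4677 : PV l4677 := r4677 v1865 v1979 w6853
theorem v4678 : PV l4678 := r4678 v2093 v1864 v1978 w6810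
theorem v4679 : PV l4679 := r4679 v1863 v2093 v1978 w6461
theorem v4680 : PV l4680 := r4680 v1863 v2093 v1978 w6854
theorem v4681 : PV l4681 := r4681 v1862 v1976 w6811
theorem v4682 : PV l4682 := r4682 v1861 v1976 w6855
theorem v4683 : PV l4683 := r4683 v1861 v1976 w6920
theorem v4684 : PV l4684 := r4684 v1861 v1976 w6979
theorem v4685 : PV l4685 := r4685 v2091 w6844
theorem v4686 : PV l4686 := r4686 v2091 w6921
theorem v4687 : PV l4687 := r4687 v2091 w6980
theorem v4688 : PV l4688 := r4688 v2089 w6812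
theorem v4689 : PV l4689 := r4689 v2089 w6817
theorem v4690 : PV l4690 := r4690 v2190 v1860 v2087 v1974 w5861
theorem v4691 : PV l4691 := r4691 v2087 v1860 v2191 v1974 w5960
theorem v4692 : PV l4692 := r4692 v2190 v2087 v1860 v1974 w6087
theorem v4693 : PV l4693 := r4693 v2191 v2087 v1860 v1974 w6223
theorem v4694 : PV l4694 := r4694 v2190 v2087 v1859 v1974 v511
theorem v4695 : PV l4695 := r4695 v2191 v2087 v1859 v1974 w5946
theorem v4696 : PV l4696 := r4696 v2190 v1859 v1974 v2087 w6073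
theorem v4697 : PV l4697 := r4697 v2191 v1859 v1974 v2087 w6206
theorem v4698 : PV l4698 := r4698 v2189 v2085 v1858 v1972 w6222
theorem v4699 : PV l4699 := r4699 v2188 v1972 v2085 v1857 v510
theorem v4700 : PV l4700 := r4700 v2189 v1857 v2085 v1972 w6205
theorem v4701 : PV l4701 := r4701 v2081 v1854 v2187 v1968 w5959
theorem v4702 : PV l4702 := r4702 v2186 v2081 v1854 v1968 w6086
theorem v4703 : PV l4703 := r4703 v2187 v2081 v1854 v1968 w6221
theorem v4704 : PV l4704 := r4704 v1968 v2187 v2081 v1853 w6204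
theorem v4705 : PV l4705 := r4705 v2079 v1851 v1966 w5945
theorem v4706 : PV l4706 := r4706 v2079 v1851 v1966 w6203
theorem v4707 : PV l4707 := r4707 v1964 v2077 v1850 w5860
theorem v4708 : PV l4708 := r4708 v2077 v1850 v1964 w5958
theorem v4709 : PV l4709 := r4709 v1964 v2077 v1850 w6085
theorem v4710 : PV l4710 := r4710 v2077 v1850 v1964 w6220
theorem v4711 : PV l4711 := r4711 v2077 v1850 v1964 w7289
theorem v4712 : PV l4712 := r4712 v1964 v2077 v1849 w5944
theorem v4713 : PV l4713 := r4713 v1964 v2077 v1849 w6202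
theorem v4714 : PV l4714 := r4714 v2075 w5858
theorem v4715 : PV l4715 := r4715 v2075 w5955
theorem v4716 : PV l4716 := r4716 v2075 w6080
theorem v4717 : PV l4717 := r4717 v2075 w6770
theorem v4718 : PV l4718 := r4718 v2075 w5941
theorem v4719 : PV l4719 := r4719 v2075 w6070
theorem v4720 : PV l4720 := r4720 v2075 w6197
theorem v4721 : PV l4721 := r4721 v2075 w6383
theorem v4722 : PV l4722 := r4722 v1848 v1962 v2073 w5857
theorem v4723 : PV l4723 := r4723 v1962 v1848 v2073 w5954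
theorem v4724 : PV l4724 := r4724 v2073 v1848 v1962 w6079
theorem v4725 : PV l4725 := r4725 v1848 v2073 v1962 w6217
theorem v4726 : PV l4726 := r4726 v1848 v2073 v1962 w6771
theorem v4727 : PV l4727 := r4727 v1962 v2073 v1847 w6069
theorem v4728 : PV l4728 := r4728 v1962 v2073 v1847 w6196
theorem v4729 : PV l4729 := r4729 v1960 v1846 w5856
theorem v4730 : PV l4730 := r4730 v1846 v1960 w5953
theorem v4731 : PV l4731 := r4731 v1846 v1960 w6078
theorem v4732 : PV l4732 := r4732 v1846 v1960 w6216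
theorem v4733 : PV l4733 := r4733 v1846 v1960 w6630
theorem v4734 : PV l4734 := r4734 v1846 v1960 w6772
theorem v4735 : PV l4735 := r4735 v1960 v1845 v506
theorem v4736 : PV l4736 := r4736 v1960 v1845 w5940
theorem v4737 : PV l4737 := r4737 v1960 v1845 w6068
theorem v4738 : PV l4738 := r4738 v1960 v1845 w6195
theorem v4739 : PV l4739 := r4739 v1960 v1845 w6527
theorem v4740 : PV l4740 := r4740 v2071 w5855
theorem v4741 : PV l4741 := r4741 v2071 w6077
theorem v4742 : PV l4742 := r4742 v2071 w6215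
theorem v4743 : PV l4743 := r4743 v2071 w6501
theorem v4744 : PV l4744 := r4744 v2071 w6773
theorem v4745 : PV l4745 := r4745 v2071 v505
theorem v4746 : PV l4746 := r4746 v2071 w5939
theorem v4747 : PV l4747 := r4747 v2071 w6067
theorem v4748 : PV l4748 := r4748 v2071 w6194
theorem v4749 : PV l4749 := r4749 v2071 w6384
theorem v4750 : PV l4750 := r4750 v2071 w6528
theorem v4751 : PV l4751 := r4751 v2071 w6652
theorem v4752 : PV l4752 := r4752 v1958 v1844 w5854
theorem v4753 : PV l4753 := r4753 v1958 v1844 w5951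
theorem v4754 : PV l4754 := r4754 v1844 v1958 w6076
theorem v4755 : PV l4755 := r4755 v1958 v1844 w6214
theorem v4756 : PV l4756 := r4756 v1958 v1844 w6502
theorem v4757 : PV l4757 := r4757 v1958 v1844 w6631
theorem v4758 : PV l4758 := r4758 v1844 v1958 w6774
theorem v4759 : PV l4759 := r4759 v1958 v1843 w5938
theorem v4760 : PV l4760 := r4760 v1958 v1843 w6066
theorem v4761 : PV l4761 := r4761 v1958 v1843 w6193
theorem v4762 : PV l4762 := r4762 v1958 v1843 w6385
theorem v4763 : PV l4763 := r4763 v1960 v1263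
theorem v4764 : PV l4764 := r4764 v1976 v1265
theorem v4765 : PV l4765 := r4765 v1949 v2063 v2175 w7067
theorem v4766 : PV l4766 := r4766 v1947 v2173 v2226 v2061 w7066
theorem v4767 : PV l4767 := r4767 v2059 v1944 v2172 w7099
theorem v4768 : PV l4768 := r4768 v2171 v1944 v2059 w7148
theorem v4769 : PV l4769 := r4769 v1944 v2059 v2172 w7198
theorem v4770 : PV l4770 := r4770 v2171 v2059 v1944 w7242
theorem v4771 : PV l4771 := r4771 v2172 v2059 v1944 w7298
theorem v4772 : PV l4772 := r4772 v1944 v2171 v2059 w7336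
theorem v4773 : PV l4773 := r4773 v1944 v2059 v2172 w7392
theorem v4774 : PV l4774 := r4774 v2059 v2172 v1944 w8876
theorem v4775 : PV l4775 := r4775 v2059 v1944 v2172 w8951
theorem v4776 : PV l4776 := r4776 v2171 v1944 v2059 w8993
theorem v4777 : PV l4777 := r4777 v1944 v2172 v2059 w9040
theorem v4778 : PV l4778 := r4778 v2171 v2059 v1944 w9082
theorem v4779 : PV l4779 := r4779 v1944 v2172 v2059 w9129
theorem v4780 : PV l4780 := r4780 v2171 v2059 v1944 w7052
theorem v4781 : PV l4781 := r4781 v2059 v1944 v2171 w9157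
theorem v4782 : PV l4782 := r4782 v2057 v2169 v1943 v2225 w8901
theorem v4783 : PV l4783 := r4783 v2224 v2169 v1943 v2057 w7065
theorem v4784 : PV l4784 := r4784 v1940 v2223 v2055 v2167 w7146
theorem v4785 : PV l4785 := r4785 v1940 v2223 v2055 v2168 w7196
theorem v4786 : PV l4786 := r4786 v2055 v1940 v2167 v2222 w7240
theorem v4787 : PV l4787 := r4787 v1940 v2055 v2168 v2222 w7296
theorem v4788 : PV l4788 := r4788 v1940 v2223 v2167 v2055 w7334
theorem v4789 : PV l4789 := r4789 v1940 v2223 v2168 v2055 w7391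
theorem v4790 : PV l4790 := r4790 v1940 v2168 v2055 v2223 w8877
theorem v4791 : PV l4791 := r4791 v1940 v2223 v2167 v2055 w9083
theorem v4792 : PV l4792 := r4792 v1940 v2222 v2055 v2167 w7050
theorem v4793 : PV l4793 := r4793 v2053 v2166 v1939 w7308
theorem v4794 : PV l4794 := r4794 v2053 v2166 v1939 w7206
theorem v4795 : PV l4795 := r4795 v1937 v2163 v2051 w7063
theorem v4796 : PV l4796 := r4796 v1937 v2163 v2051 w8824
theorem v4797 : PV l4797 := r4797 v2051 v1937 v2163 w8690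
theorem v4798 : PV l4798 := r4798 v2221 v2161 v1935 v2049 w8386
theorem v4799 : PV l4799 := r4799 v2220 v2049 v2161 v1935 w7062
theorem v4800 : PV l4800 := r4800 v1933 v2047 v2160 v623
theorem v4801 : PV l4801 := r4801 v2159 v1933 v2047 w8826
theorem v4802 : PV l4802 := r4802 v2155 v2043 v1929 v2217 w8389
theorem v4803 : PV l4803 := r4803 v1925 v2039 v2151 w8242
theorem v4804 : PV l4804 := r4804 v2151 v2039 v1925 w8076
theorem v4805 : PV l4805 := r4805 v2037 v2214 v1923 v2149 w8243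
theorem v4806 : PV l4806 := r4806 v2215 v2037 v1923 v2149 w8077
theorem v4807 : PV l4807 := r4807 v1920 v2035 v2147 w7142
theorem v4808 : PV l4808 := r4808 v2148 v1920 v2035 w7837
theorem v4809 : PV l4809 := r4809 v2148 v1920 v2035 w8008
theorem v4810 : PV l4810 := r4810 v1920 v2147 v2035 w8102
theorem v4811 : PV l4811 := r4811 v2148 v2035 v1920 w8172
theorem v4812 : PV l4812 := r4812 v2147 v2035 v1920 w7048
theorem v4813 : PV l4813 := r4813 v1920 v2147 v2035 w8261
theorem v4814 : PV l4814 := r4814 v2033 v1919 v2212 v2145 w8245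
theorem v4815 : PV l4815 := r4815 v2033 v2145 v1919 v2213 w8079
theorem v4816 : PV l4816 := r4816 v1916 v2144 v2031 v2210 w7293
theorem v4817 : PV l4817 := r4817 v1916 v2144 v2031 v2211 w7680
theorem v4818 : PV l4818 := r4818 v1916 v2144 v2031 v2210 w7838
theorem v4819 : PV l4819 := r4819 v2144 v1916 v2031 v2211 w8009
theorem v4820 : PV l4820 := r4820 v1916 v2031 v2143 v2211 w8104
theorem v4821 : PV l4821 := r4821 v2144 v1916 v2210 v2031 w8174
theorem v4822 : PV l4822 := r4822 v2139 v1913 v2027 w7061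
theorem v4823 : PV l4823 := r4823 v2139 v1913 v2027 w7644
theorem v4824 : PV l4824 := r4824 v2139 v1913 v2027 w7573
theorem v4825 : PV l4825 := r4825 v2202 v2127 v1900 v2014 v566
theorem v4826 : PV l4826 := r4826 v2012 v1898 v2126 v2201 w6995
theorem v4827 : PV l4827 := r4827 v2123 v1896 v2010 v565
theorem v4828 : PV l4828 := r4828 v2010 v1896 v2124 w6994
theorem v4829 : PV l4829 := r4829 v1894 v2008 v2122 v2199 w6993
theorem v4830 : PV l4830 := r4830 v1892 v2006 v2120 w6992
theorem v4831 : PV l4831 := r4831 v1890 v2004 v2118 w6991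
theorem v4832 : PV l4832 := r4832 v1888 v2002 v523
theorem v4833 : PV l4833 := r4833 v2002 v1888 w6361
theorem v4834 : PV l4834 := r4834 v1888 v2002 v1515
theorem v4835 : PV l4835 := r4835 v2002 v1888 w6476
theorem v4836 : PV l4836 := r4836 v2002 v1888 w6559
theorem v4837 : PV l4837 := r4837 v2002 v1888 w6614
theorem v4838 : PV l4838 := r4838 v1888 v2002 w6688
theorem v4839 : PV l4839 := r4839 v2002 v1888 w6747
theorem v4840 : PV l4840 := r4840 v1888 v2002 w8893
theorem v4841 : PV l4841 := r4841 v2002 v1888 w8928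
theorem v4842 : PV l4842 := r4842 v1888 v2002 w8970
theorem v4843 : PV l4843 := r4843 v1888 v2002 w9058
theorem v4844 : PV l4844 := r4844 v2002 v1888 w9100
theorem v4845 : PV l4845 := r4845 v1888 v2002 w9137
theorem v4846 : PV l4846 := r4846 v2115 v1886 v2000 w6408
theorem v4847 : PV l4847 := r4847 v2116 v2000 v1886 w6475
theorem v4848 : PV l4848 := r4848 v2115 v1886 v2000 w6558
theorem v4849 : PV l4849 := r4849 v2116 v2000 v1886 w6613
theorem v4850 : PV l4850 := r4850 v2115 v1886 v2000 w6687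
theorem v4851 : PV l4851 := r4851 v2116 v2000 v1886 w6746
theorem v4852 : PV l4852 := r4852 v1886 v2000 v2115 w8929
theorem v4853 : PV l4853 := r4853 v2000 v1886 v2116 w8971
theorem v4854 : PV l4854 := r4854 v2116 v1886 v2000 w9059
theorem v4855 : PV l4855 := r4855 v2115 v1886 v2000 w9101
theorem v4856 : PV l4856 := r4856 v1886 v2000 v2116 w9138
theorem v4857 : PV l4857 := r4857 v1884 v1998 v522
theorem v4858 : PV l4858 := r4858 v1884 v1998 w6360
theorem v4859 : PV l4859 := r4859 v1884 v1998 w6407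
theorem v4860 : PV l4860 := r4860 v1884 v1998 w6474
theorem v4861 : PV l4861 := r4861 v1884 v1998 w6557
theorem v4862 : PV l4862 := r4862 v1884 v1998 w6612
theorem v4863 : PV l4863 := r4863 v1884 v1998 w6686
theorem v4864 : PV l4864 := r4864 v1884 v1998 w6745
theorem v4865 : PV l4865 := r4865 v1884 v1998 w9060
theorem v4866 : PV l4866 := r4866 v2114 w6359
theorem v4867 : PV l4867 := r4867 v2113 w6406
theorem v4868 : PV l4868 := r4868 v2114 w6473
theorem v4869 : PV l4869 := r4869 v2113 w6556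
theorem v4870 : PV l4870 := r4870 v2114 w6611
theorem v4871 : PV l4871 := r4871 v2113 w6685
theorem v4872 : PV l4872 := r4872 v2114 w6744
theorem v4873 : PV l4873 := r4873 v2114 w8894
theorem v4874 : PV l4874 := r4874 v2113 w8930
theorem v4875 : PV l4875 := r4875 v2114 w8972
theorem v4876 : PV l4876 := r4876 v2114 w9061
theorem v4877 : PV l4877 := r4877 v2113 w9102
theorem v4878 : PV l4878 := r4878 v2114 w9139
theorem v4879 : PV l4879 := r4879 v2111 v521
theorem v4880 : PV l4880 := r4880 v2112 w6358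
theorem v4881 : PV l4881 := r4881 v2111 w6405
theorem v4882 : PV l4882 := r4882 v2112 w6472
theorem v4883 : PV l4883 := r4883 v2112 w6610
theorem v4884 : PV l4884 := r4884 v2111 w6684
theorem v4885 : PV l4885 := r4885 v2112 w6743
theorem v4886 : PV l4886 := r4886 v2112 w8895
theorem v4887 : PV l4887 := r4887 v1996 v1882 w6404
theorem v4888 : PV l4888 := r4888 v1882 v1996 w6471
theorem v4889 : PV l4889 := r4889 v1882 v1996 w6609
theorem v4890 : PV l4890 := r4890 v1882 v1996 w6682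
theorem v4891 : PV l4891 := r4891 v1996 v1882 w6741
theorem v4892 : PV l4892 := r4892 v1996 v1882 w8357
theorem v4893 : PV l4893 := r4893 v1996 v1882 w8435
theorem v4894 : PV l4894 := r4894 v1996 v1882 w8512
theorem v4895 : PV l4895 := r4895 v1882 v1996 w8580
theorem v4896 : PV l4896 := r4896 v1996 v1882 w8664
theorem v4897 : PV l4897 := r4897 v1882 v1996 w8743
theorem v4898 : PV l4898 := r4898 v2109 v1880 v1994 w6403
theorem v4899 : PV l4899 := r4899 v1880 v1994 v2110 w6470
theorem v4900 : PV l4900 := r4900 v1994 v1880 v2110 w6608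
theorem v4901 : PV l4901 := r4901 v2109 v1994 v1880 w6681
theorem v4902 : PV l4902 := r4902 v1994 v1880 v2110 w6740
theorem v4903 : PV l4903 := r4903 v1994 v2110 v1880 w8358
theorem v4904 : PV l4904 := r4904 v2109 v1994 v1880 w8436
theorem v4905 : PV l4905 := r4905 v1994 v1880 v2110 w8513
theorem v4906 : PV l4906 := r4906 v1994 v1880 v2110 w8665
theorem v4907 : PV l4907 := r4907 v1992 v1878 w8359
theorem v4908 : PV l4908 := r4908 v2108 w6739
theorem v4909 : PV l4909 := r4909 v2108 w8360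
theorem v4910 : PV l4910 := r4910 v2107 w8437
theorem v4911 : PV l4911 := r4911 v2108 w8514
theorem v4912 : PV l4912 := r4912 v2108 w8666
theorem v4913 : PV l4913 := r4913 v2106 w8361
theorem v4914 : PV l4914 := r4914 v1876 v1990 w6402
theorem v4915 : PV l4915 := r4915 v1990 v1876 w6469
theorem v4916 : PV l4916 := r4916 v1990 v1876 w6555
theorem v4917 : PV l4917 := r4917 v1990 v1876 w6607
theorem v4918 : PV l4918 := r4918 v1876 v1990 w6680
theorem v4919 : PV l4919 := r4919 v1990 v1876 w7712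
theorem v4920 : PV l4920 := r4920 v1876 v1990 w7793
theorem v4921 : PV l4921 := r4921 v1990 v1876 w7880
theorem v4922 : PV l4922 := r4922 v1990 v1876 w7969
theorem v4923 : PV l4923 := r4923 v1876 v1990 w8048
theorem v4924 : PV l4924 := r4924 v1990 v1876 w8133
theorem v4925 : PV l4925 := r4925 v1990 v1876 w8212
theorem v4926 : PV l4926 := r4926 v1874 v1988 v2103 w6401
theorem v4927 : PV l4927 := r4927 v1874 v2104 v1988 w6606
theorem v4928 : PV l4928 := r4928 v1988 v1874 v2103 w6679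
theorem v4929 : PV l4929 := r4929 v2104 v1874 v1988 w7713
theorem v4930 : PV l4930 := r4930 v1988 v1874 v2104 w7881
theorem v4931 : PV l4931 := r4931 v1874 v1988 v2103 w7970
theorem v4932 : PV l4932 := r4932 v2104 v1874 v1988 w8049
theorem v4933 : PV l4933 := r4933 v1988 v2103 v1874 w8134
theorem v4934 : PV l4934 := r4934 v1988 v1874 v2104 w8213
theorem v4935 : PV l4935 := r4935 v1986 v1872 w6678
theorem v4936 : PV l4936 := r4936 v1872 v1986 w7714
theorem v4937 : PV l4937 := r4937 v1986 v1872 w7882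
theorem v4938 : PV l4938 := r4938 v1872 v1986 w8050
theorem v4939 : PV l4939 := r4939 v1986 v1872 w8135
theorem v4940 : PV l4940 := r4940 v1986 v1872 w8214
theorem v4941 : PV l4941 := r4941 v2101 w6400
theorem v4942 : PV l4942 := r4942 v2102 w6468
theorem v4943 : PV l4943 := r4943 v2102 w6605
theorem v4944 : PV l4944 := r4944 v2101 w6677
theorem v4945 : PV l4945 := r4945 v2102 w7715
theorem v4946 : PV l4946 := r4946 v2101 w7795
theorem v4947 : PV l4947 := r4947 v2102 w7883
theorem v4948 : PV l4948 := r4948 v2101 w7971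
theorem v4949 : PV l4949 := r4949 v2102 w8051
theorem v4950 : PV l4950 := r4950 v2102 w8215
theorem v4951 : PV l4951 := r4951 v2100 w6467
theorem v4952 : PV l4952 := r4952 v2099 w6553
theorem v4953 : PV l4953 := r4953 v2099 w6676
theorem v4954 : PV l4954 := r4954 v2100 w7716
theorem v4955 : PV l4955 := r4955 v2099 w7796
theorem v4956 : PV l4956 := r4956 v2100 w7884
theorem v4957 : PV l4957 := r4957 v2100 w8052
theorem v4958 : PV l4958 := r4958 v2099 w8136
theorem v4959 : PV l4959 := r4959 v2100 w8216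
theorem v4960 : PV l4960 := r4960 v1984 v1870 w7632
theorem v4961 : PV l4961 := r4961 v1867 v1981 w6465
theorem v4962 : PV l4962 := r4962 v2096 w6357
theorem v4963 : PV l4963 := r4963 v2096 w7421
theorem v4964 : PV l4964 := r4964 v2096 w7483
theorem v4965 : PV l4965 := r4965 v2096 w7633
theorem v4966 : PV l4966 := r4966 v2197 v1269
theorem v4967 : PV l4967 := r4967 v2197 v1270
theorem v4968 : PV l4968 := r4968 v2195 v1271
theorem v4969 : PV l4969 := r4969 v2195 v1272
theorem v4970 : PV l4970 := r4970 v2193 v1273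
theorem v4971 : PV l4971 := r4971 v2193 v1274
theorem v4972 : PV l4972 := r4972 v1979 v1865 w6397
theorem v4973 : PV l4973 := r4973 v1865 v1979 w6551
theorem v4974 : PV l4974 := r4974 v1865 v1979 w6674
theorem v4975 : PV l4975 := r4975 v1979 v1865 w6832
theorem v4976 : PV l4976 := r4976 v2092 v1978 v1863 w6396
theorem v4977 : PV l4977 := r4977 v1863 v2092 v1978 w6550
theorem v4978 : PV l4978 := r4978 v1863 v1978 v2092 w6673
theorem v4979 : PV l4979 := r4979 v1861 v1976 w6892
theorem v4980 : PV l4980 := r4980 v2090 w6672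
theorem v4981 : PV l4981 := r4981 v2088 v1974 v1859 v2191 w6007
theorem v4982 : PV l4982 := r4982 v2088 v2190 v1859 v1974 w6143
theorem v4983 : PV l4983 := r4983 v2088 v1974 v1859 v2191 w6273
theorem v4984 : PV l4984 := r4984 v1972 v2086 v1857 v2189 w6006
theorem v4985 : PV l4985 := r4985 v2188 v1972 v2086 v1857 w6142
theorem v4986 : PV l4986 := r4986 v2189 v1857 v2086 v1972 w6272
theorem v4987 : PV l4987 := r4987 v2189 v1857 v2086 v1972 w7247
theorem v4988 : PV l4988 := r4988 v1970 v2084 v1855 w5893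
theorem v4989 : PV l4989 := r4989 v1970 v1855 v2084 w6005
theorem v4990 : PV l4990 := r4990 v1970 v2084 v1855 w6141
theorem v4991 : PV l4991 := r4991 v1970 v2084 v1855 w6271
theorem v4992 : PV l4992 := r4992 v2186 v1968 v2082 v1853 w5892
theorem v4993 : PV l4993 := r4993 v1968 v2082 v2187 v1853 w6004
theorem v4994 : PV l4994 := r4994 v1968 v2186 v2082 v1853 w6140
theorem v4995 : PV l4995 := r4995 v1968 v2187 v2082 v1853 w6270
theorem v4996 : PV l4996 := r4996 v2186 v1968 v2082 v1853 w7341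
theorem v4997 : PV l4997 := r4997 v1966 v2080 v1851 w5891
theorem v4998 : PV l4998 := r4998 v1966 v2080 v1851 w6003
theorem v4999 : PV l4999 := r4999 v1966 v2080 v1851 w6139
theorem v5000 : PV l5000 := r5000 v1966 v2080 v1851 w6269
theorem v5001 : PV l5001 := r5001 v1966 v2080 v1851 w7248
theorem v5002 : PV l5002 := r5002 v1964 v2078 v1849 w6002
theorem v5003 : PV l5003 := r5003 v1964 v2078 v1849 w6138
theorem v5004 : PV l5004 := r5004 v1964 v2078 v1849 w6268
theorem v5005 : PV l5005 := r5005 v1964 v2078 v1849 w7057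
theorem v5006 : PV l5006 := r5006 v1964 v2078 v1849 w7153
theorem v5007 : PV l5007 := r5007 v1964 v2078 v1849 w7342
theorem v5008 : PV l5008 := r5008 v2076 w5889
theorem v5009 : PV l5009 := r5009 v2076 w5998
theorem v5010 : PV l5010 := r5010 v2076 w6136
theorem v5011 : PV l5011 := r5011 v2076 w6437
theorem v5012 : PV l5012 := r5012 v2074 v1847 v1962 w5888
theorem v5013 : PV l5013 := r5013 v2074 v1962 v1847 w5997
theorem v5014 : PV l5014 := r5014 v2074 v1847 v1962 w6135
theorem v5015 : PV l5015 := r5015 v1845 v1960 w5887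
theorem v5016 : PV l5016 := r5016 v1845 v1960 w5996
theorem v5017 : PV l5017 := r5017 v1845 v1960 w6134
theorem v5018 : PV l5018 := r5018 v1845 v1960 w6265
theorem v5019 : PV l5019 := r5019 v1845 v1960 w6586
theorem v5020 : PV l5020 := r5020 v2072 w5886
theorem v5021 : PV l5021 := r5021 v2072 w5995
theorem v5022 : PV l5022 := r5022 v2072 w6133
theorem v5023 : PV l5023 := r5023 v2072 w6264
theorem v5024 : PV l5024 := r5024 v2072 w6343
theorem v5025 : PV l5025 := r5025 v2072 w6587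
theorem v5026 : PV l5026 := r5026 v2072 w6715
theorem v5027 : PV l5027 := r5027 v1958 v1843 w5885
theorem v5028 : PV l5028 := r5028 v1958 v1843 w5994
theorem v5029 : PV l5029 := r5029 v1958 v1843 w6132
theorem v5030 : PV l5030 := r5030 v1958 v1843 w6263
theorem v5031 : PV l5031 := r5031 v1843 v1958 w6439
theorem v5032 : PV l5032 := r5032 v1958 v1843 w6588
theorem v5033 : PV l5033 := r5033 v1958 v1843 w6716
theorem v5034 : PV l5034 := r5034 v1845 v1049
theorem v5035 : PV l5035 := r5035 v1884 v1949 v1053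
theorem v5036 : PV l5036 := r5036 v1947 v1056
theorem v5037 : PV l5037 := r5037 v1937 v1060
theorem v5038 : PV l5038 := r5038 v1878 v1937 v1062
theorem v5039 : PV l5039 := r5039 v1933 v1067
theorem v5040 : PV l5040 := r5040 v1916 v1925 v80
theorem v5041 : PV l5041 := r5041 v1920 v1925 v82
theorem v5042 : PV l5042 := r5042 v1916 v1923 v81
theorem v5043 : PV l5043 := r5043 v1850 v730
theorem v5044 : PV l5044 := r5044 v1959 v1850 v731
theorem v5045 : PV l5045 := r5045 v1846 v1960 v1121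
theorem v5046 : PV l5046 := r5046 v2071 v1077
theorem v5047 : PV l5047 := r5047 v2071 v1078
theorem v5048 : PV l5048 := r5048 v1846 v1960 v1087
theorem v5049 : PV l5049 := r5049 v1846 v1960 v1096
theorem v5050 : PV l5050 := r5050 v2072 v1070
theorem v5051 : PV l5051 := r5051 v2072 v1076
theorem v5052 : PV l5052 := r5052 v1959 v1088
theorem v5053 : PV l5053 := r5053 v2071 v1082
theorem v5054 : PV l5054 := r5054 v1846 v1097
theorem v5055 : PV l5055 := r5055 v2072 v1090
theorem v5056 : PV l5056 := r5056 v2071 v1098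
theorem v5057 : PV l5057 := r5057 v2201 v1898 v2125 v1126
theorem v5058 : PV l5058 := r5058 v2071 v1117
theorem v5059 : PV l5059 := r5059 v2072 v1100
theorem v5060 : PV l5060 := r5060 v1959 v1844 v1081
theorem v5061 : PV l5061 := r5061 v1958 v1844 v1118
theorem v5062 : PV l5062 := r5062 v2071 v1120
theorem v5063 : PV l5063 := r5063 v2071 v1095
theorem v5064 : PV l5064 := r5064 v2071 v1080
theorem v5065 : PV l5065 := r5065 v2071 v1122
theorem v5066 : PV l5066 := r5066 v1959 v1844 v1079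
theorem v5067 : PV l5067 := r5067 v1959 v1843 v1086
theorem v5068 : PV l5068 := r5068 v1959 v1843 v1072
theorem v5069 : PV l5069 := r5069 v2124 v2011 v1896 v1132
theorem v5070 : PV l5070 := r5070 v2072 v1094
theorem v5071 : PV l5071 := r5071 v1844 v1107
theorem v5072 : PV l5072 := r5072 v2072 v1101
theorem v5073 : PV l5073 := r5073 v2064 v2017 v2242 v1909 v2211 v2140 v1905 v2026 v1912 v1489
theorem v5074 : PV l5074 := r5074 v2140 v1913 v2026 v1450
theorem v5075 : PV l5075 := r5075 v2138 v2024 v2209 v1473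
theorem v5076 : PV l5076 := r5076 v2204 v2027 v2019 v2017 v2136 v1478
theorem v5077 : PV l5077 := r5077 v2137 v2026 v2133 v2139 v1441
theorem v5078 : PV l5078 := r5078 v2023 v2136 v1902 v1912 v1422
theorem v5079 : PV l5079 := r5079 v2136 v1912 v1395
theorem v5080 : PV l5080 := r5080 v2135 v2027 v1904 v2023 v1293
theorem v5081 : PV l5081 := r5081 v2026 v2134 v1912 v1902 v2138 v2136 v1458
theorem v5082 : PV l5082 := r5082 v2204 v2016 v2022 v1319
theorem v5083 : PV l5083 := r5083 v2204 v2139 v2027 v1336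
theorem v5084 : PV l5084 := r5084 v2019 v2204 v2017 v2136 v1384
theorem v5085 : PV l5085 := r5085 v2136 v2022 v1909 v1399
theorem v5086 : PV l5086 := r5086 v2204 v2136 v2022 v1909 v1398
theorem v5087 : PV l5087 := r5087 v1909 v1330
theorem v5088 : PV l5088 := r5088 v1909 v2018 v2022 v2205 v2132 v1291
theorem v5089 : PV l5089 := r5089 v2019 v2132 v1905 v1909 v1452
theorem v5090 : PV l5090 := r5090 v2019 v2204 v1909 v2132 v1327
theorem v5091 : PV l5091 := r5091 v1909 v1905 v2205 v1374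
theorem v5092 : PV l5092 := r5092 v2019 v2017 v2136 v2205 v1292
theorem v5093 : PV l5093 := r5093 v2027 v2136 v1902 v1467
theorem v5094 : PV l5094 := r5094 v2027 v2023 v1904 v2205 v1310
theorem v5095 : PV l5095 := r5095 v2018 v2132 v1904 v1476
theorem v5096 : PV l5096 := r5096 v2016 v2136 v2018 v1299
theorem v5097 : PV l5097 := r5097 v2016 v2018 v2205 v1903 v2136 v1456
theorem v5098 : PV l5098 := r5098 v2019 v2204 v1903 v2136 v1469
theorem v5099 : PV l5099 := r5099 v2204 v2027 v1903 v2136 v1468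
theorem v5100 : PV l5100 := r5100 v2027 v2205 v2136 v1471
theorem v5101 : PV l5101 := r5101 v1903 v2136 v2205 v2018 v1464
theorem v5102 : PV l5102 := r5102 v2137 v2133 v2026 v2139 v1442
theorem v5103 : PV l5103 := r5103 v1913 v1368
theorem v5104 : PV l5104 := r5104 v2027 v1369
theorem v5105 : PV l5105 := r5105 v2139 v1371
theorem v5106 : PV l5106 := r5106 v2026 v1912 v1372
theorem v5107 : PV l5107 := r5107 v2139 v2027 v1913 v1356
theorem v5108 : PV l5108 := r5108 v2026 v1910 v2140 v1353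
theorem v5109 : PV l5109 := r5109 v2027 v2096 v2207 v1912 v1482
theorem v5110 : PV l5110 := r5110 v2002 v1888 v1417
theorem v5111 : PV l5111 := r5111 v2142 v1914 v1872 v1380
theorem v5112 : PV l5112 := r5112 v2196 v1312
theorem v5113 : PV l5113 := r5113 v2196 v1328
theorem v5114 : PV l5114 := r5114 v1905 v2027 v1912 v1480
theorem v5115 : PV l5115 := r5115 v2205 v2136 v1903 v1466
theorem v5116 : PV l5116 := r5116 v1912 v2140 v2026 v1474
theorem v5117 : PV l5117 := r5117 v2027 v2132 v1905 v1375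
theorem v5118 : PV l5118 := r5118 v1914 v2029 v1410
theorem v5119 : PV l5119 := r5119 v2022 v2132 v2136 v1908 v1904 v1419
theorem v5120 : PV l5120 := r5120 v2022 v1908 v2136 v1302
theorem v5121 : PV l5121 := r5121 v2207 v1868 v1981 v1359
theorem v5122 : PV l5122 := r5122 v2023 v2136 v1903 v1413
theorem v5123 : PV l5123 := r5123 v2204 v2136 v1912 v1385
theorem v5124 : PV l5124 := r5124 v2140 v2026 v1282
theorem v5125 : PV l5125 := r5125 v2026 v1912 v1382
theorem v5126 : PV l5126 := r5126 v1911 v2026 v1355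
theorem v5127 : PV l5127 := r5127 v1910 v1912 v2026 v1387
theorem v5128 : PV l5128 := r5128 v2002 v1889 v1311
theorem v5129 : PV l5129 := r5129 v1889 v2003 v1305
theorem v5130 : PV l5130 := r5130 v2196 v2002 v1888 v1416
theorem v5131 : PV l5131 := r5131 v2002 v1888 v1361
theorem v5132 : PV l5132 := r5132 v2053 v2056 v2170 v1943 v1939 v2166 v1447
theorem v5133 : PV l5133 := r5133 v1945 v2197 v2112 v2059 v2172 v1313
theorem v5134 : PV l5134 := r5134 v2112 v1379
theorem v5135 : PV l5135 := r5135 v2112 v1462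
theorem v5136 : PV l5136 := r5136 v1947 v2060 v2226 v1344
theorem v5137 : PV l5137 := r5137 v1918 v2038 v2213 v1924 v1409
theorem v5138 : PV l5138 := r5138 v1918 v2032 v2213 v1445
theorem v5139 : PV l5139 := r5139 v1913 v2026 v2023 v1432
theorem v5140 : PV l5140 := r5140 v2023 v1902 v1912 v1424
theorem v5141 : PV l5141 := r5141 v2139 v1913 v1364
theorem v5142 : PV l5142 := r5142 v2139 v2206 v2026 v1362
theorem v5143 : PV l5143 := r5143 v2139 v2027 v1908 v2208 v1332
theorem v5144 : PV l5144 := r5144 v2139 v2026 v1912 v1483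
theorem v5145 : PV l5145 := r5145 v2206 v2027 v1912 v2140 v1907 v2208 v1383
theorem v5146 : PV l5146 := r5146 v1913 v2135 v1437
theorem v5147 : PV l5147 := r5147 v1913 v2027 v1365
theorem v5148 : PV l5148 := r5148 v1913 v2197 v1982 v2023 v2136 v1477
theorem v5149 : PV l5149 := r5149 v2027 v1906 v1912 v1377
theorem v5150 : PV l5150 := r5150 v2204 v2026 v2140 v1340
theorem v5151 : PV l5151 := r5151 v2026 v1912 v1484
theorem v5152 : PV l5152 := r5152 v2135 v1908 v2027 v1912 v2023 v1300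
theorem v5153 : PV l5153 := r5153 v2204 v2131 v2019 v2023 v1285
theorem v5154 : PV l5154 := r5154 v2204 v1905 v2022 v2136 v1470
theorem v5155 : PV l5155 := r5155 v2204 v1904 v2018 v2132 v2022 v1288
theorem v5156 : PV l5156 := r5156 v2204 v1905 v2022 v2136 v1457
theorem v5157 : PV l5157 := r5157 v2027 v2136 v2205 v1381
theorem v5158 : PV l5158 := r5158 v1914 v2142 v2029 v1455
theorem v5159 : PV l5159 := r5159 v2204 v2027 v1338
theorem v5160 : PV l5160 := r5160 v2176 v1948 v1449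
theorem v5161 : PV l5161 := r5161 v2144 v2031 v2211 v1916 v1350
theorem v5162 : PV l5162 := r5162 v1916 v2144 v2211 v1444
theorem v5163 : PV l5163 := r5163 v2144 v1916 v1872 v2211 v1351
theorem v5164 : PV l5164 := r5164 v2205 v1912 v2026 v2140 v1475
theorem v5165 : PV l5165 := r5165 v2112 v2063 v1460
theorem v5166 : PV l5166 := r5166 v2003 v1888 v1303
theorem v5167 : PV l5167 := r5167 v2063 v1948 v1428
theorem v5168 : PV l5168 := r5168 v2224 v1943 v2062 v1948 v1451
theorem v5169 : PV l5169 := r5169 v2112 v1430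
theorem v5170 : PV l5170 := r5170 v2112 v1461
theorem v5171 : PV l5171 := r5171 v2062 v2113 v2169 v2224 v1459
theorem v5172 : PV l5172 := r5172 v1988 v2103 v1874 v1490
theorem v5173 : PV l5173 := r5173 v2016 v2140 v1493
theorem v5174 : PV l5174 := r5174 v2051 v2218 v2158 v1502
theorem v5175 : PV l5175 := r5175 v1930 v2218 v2158 v2050 v1503
theorem v5176 : PV l5176 := r5176 v2106 v1505
theorem v5177 : PV l5177 := r5177 v2112 v1508
theorem v5178 : PV l5178 := r5178 v2197 v1512
theorem v5179 : PV l5179 := r5179 v2169 v1516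
theorem v5180 : PV l5180 := r5180 v2170 v1889 v1517
theorem v5181 : PV l5181 := r5181 v2230 v1518
theorem v5182 : PV l5182 := r5182 v1888 v2170 v1519
theorem v5183 : PV l5183 := r5183 v2170 v1888 v1520
theorem v5184 : PV l5184 := r5184 v1888 v2170 v1523
theorem v5185 : PV l5185 := r5185 v2170 v1526
theorem v5186 : PV l5186 := r5186 v2045 v1931 v2158 v1539
theorem v5187 : PV l5187 := r5187 v2218 v2045 v1935 v2157 v2161 v1931 v1541
theorem v5188 : PV l5188 := r5188 v2155 v2157 v1929 v2045 v1931 v1545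
theorem v5189 : PV l5189 := r5189 v2032 v2213 v1554
theorem v5190 : PV l5190 := r5190 v2155 v1935 v2161 v2157 v2045 v1556
theorem v5191 : PV l5191 := r5191 v2045 v2157 v1931 v1557
theorem v5192 : PV l5192 := r5192 v1948 v2175 v2062 v1573
theorem v5193 : PV l5193 := r5193 v2068 v1588
theorem v5194 : PV l5194 := r5194 v1955 v2248 v2236 v2068 v1947 v2173 v2060 v1595
theorem v5195 : PV l5195 := r5195 v2221 v2219 v1935 v1931 v2161 v2157 v2054 v1597
theorem v5196 : PV l5196 := r5196 v2248 v1935 v1931 v2161 v2157 v2219 v2225 v2183 v2054 v1598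
theorem v5197 : PV l5197 := r5197 v1882 v1602
theorem v5198 : PV l5198 := r5198 v2220 v1934 v2048 v2164 v2162 v1625
theorem v5199 : PV l5199 := r5199 v1934 v2220 v2164 v2162 v2160 v1626
theorem v5200 : PV l5200 := r5200 v1934 v2163 v2161 v1630
theorem v5201 : PV l5201 := r5201 v2220 v1935 v2163 v2161 v2223 v1947 v2054 v1631
theorem v5202 : PV l5202 := r5202 v2163 v2161 v2157 v2223 v2053 v1947 v2054 v1632
theorem v5203 : PV l5203 := r5203 v2221 v1935 v2161 v2157 v2053 v2054 v1633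
theorem v5204 : PV l5204 := r5204 v2220 v1935 v2163 v2161 v2054 v1636
theorem v5205 : PV l5205 := r5205 v1882 v1640
theorem v5206 : PV l5206 := r5206 v1882 v1646
theorem v5207 : PV l5207 := r5207 v1934 v1939 v1941 v1947 v1647
theorem v5208 : PV l5208 := r5208 v2160 v2047 v1933 v1657
theorem v5209 : PV l5209 := r5209 v1936 v1943 v1947 v1668
theorem v5210 : PV l5210 := r5210 v2210 v1937 v2051 v2045 v1931 v2163 v2157 v1948 v1679
theorem v5211 : PV l5211 := r5211 v2212 v2045 v1931 v2157 v1689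
theorem v5212 : PV l5212 := r5212 v2210 v2043 v1931 v2157 v1693
theorem v5213 : PV l5213 := r5213 v2210 v2246 v2043 v1929 v2157 v1888 v1699
theorem v5214 : PV l5214 := r5214 v2211 v1888 v1708
theorem v5215 : PV l5215 := r5215 v2141 v2099 v1711
theorem v5216 : PV l5216 := r5216 v2099 v1721
theorem v5217 : PV l5217 := r5217 v2101 v1724
theorem v5218 : PV l5218 := r5218 v2100 v1727
theorem v5219 : PV l5219 := r5219 v2108 v1732
theorem v5220 : PV l5220 := r5220 v2143 v2147 v1937 v2045 v1931 v1733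
theorem v5221 : PV l5221 := r5221 v2143 v2147 v2220 v1937 v2045 v1931 v1734
theorem v5222 : PV l5222 := r5222 v1955 v1886 v1737
theorem v5223 : PV l5223 := r5223 v1935 v2162 v2158 v1743
theorem v5224 : PV l5224 := r5224 v2226 v2158 v2156 v1752
theorem v5225 : PV l5225 := r5225 v2219 v1931 v2158 v1756
theorem v5226 : PV l5226 := r5226 v2219 v1931 v2158 v1757
theorem v5227 : PV l5227 := r5227 v2218 v1935 v2162 v2158 v2156 v2220 v1759
theorem v5228 : PV l5228 := r5228 v2048 v2220 v1934 v2164 v2162 v1764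
theorem v5229 : PV l5229 := r5229 v1934 v2226 v2164 v2162 v2158 v1947 v1765
theorem v5230 : PV l5230 := r5230 v2112 v1772
theorem v5231 : PV l5231 := r5231 v1947 v2173 v2226 v2060 v1780
theorem v5232 : PV l5232 := r5232 v2170 v1888 v1790
theorem v5233 : PV l5233 := r5233 v2172 v1791
theorem v5234 : PV l5234 := r5234 v2218 v2162 v1935 v1792
theorem v5235 : PV l5235 := r5235 v1889 v2002 v1795
theorem v5236 : PV l5236 := r5236 v1889 v2172 v1801
theorem v5237 : PV l5237 := r5237 v2112 v1803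
theorem v5238 : PV l5238 := r5238 v2048 v2044 v2162 v1935 v1805
theorem v5239 : PV l5239 := r5239 v2220 v2048 v2050 v2162 v1935 v1806
theorem v5240 : PV l5240 := r5240 v2218 v2044 v2162 v1935 v1807
theorem v5241 : PV l5241 := r5241 v2172 v2044 v2162 v1935 v1809
theorem v5242 : PV l5242 := r5242 v2219 v2221 v2049 v2162 v1935 v1815
theorem v5243 : PV l5243 := r5243 v2227 v2162 v1935 v1816
theorem v5244 : PV l5244 := r5244 v2044 v2162 v1935 v1817
theorem v5245 : PV l5245 := r5245 v2160 v1933 v1821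
theorem v5246 : PV l5246 := r5246 v2112 v1824
theorem v5247 : PV l5247 := r5247 v1889 v1828
theorem v5248 : PV l5248 := r5248 v1889 v1829
theorem v5249 : PV l5249 := r5249 v2114 v1835
theorem v5250 : PV l5250 := r5250 v2162 v1935 v1837
theorem v5251 : PV l5251 := r5251 v2111 v1889 v1838
theorem v5252 : PV l5252 := r5252 v2045 v2161 v1935 v1840
theorem v5253 : PV l5253 := r5253 v2044 v2161 v1935 v1841
theorem v5254 : PV l5254 := r5254 v1889 v1842
theorem v5255 : PV l5255 := r5255 v1244 v1139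
theorem v5256 : PV l5256 := r5256 v1244 v1140
theorem v5257 : PV l5257 := r5257 v1245 v1139
theorem v5258 : PV l5258 := r5258 v1246 v1268
theorem v5259 : PV l5259 := r5259 v1247 v1268
theorem v5260 : PV l5260 := r5260 v1140 v1268
theorem v5261 : PV l5261 := r5261 w2775 w2766
theorem v5262 : PV l5262 := r5262 w2775 w2765
theorem v5263 : PV l5263 := r5263 w2784 w2780
theorem v5264 : PV l5264 := r5264 w2746 w2744
theorem v5265 : PV l5265 := r5265 w2451 w2460
theorem v5266 : PV l5266 := r5266 w2461 w2443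
theorem v5267 : PV l5267 := r5267 w2444 w2460
theorem v5268 : PV l5268 := r5268 v427 v4655 v2970 v797
theorem v5269 : PV l5269 := r5269 v4655 v3005
theorem v5270 : PV l5270 := r5270 v423 v427 v4655 v3006
theorem v5271 : PV l5271 := r5271 v423 v427 v4655 v3007
theorem v5272 : PV l5272 := r5272 v422 v427 v4655 v1145
theorem v5273 : PV l5273 := r5273 v422 v427 v4655 v1146
theorem v5274 : PV l5274 := r5274 v427 v4655 v2970 v798
theorem v5275 : PV l5275 := r5275 v328 v4655 v427 v977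
theorem v5276 : PV l5276 := r5276 v4655 v4654
theorem v5277 : PV l5277 := r5277 v328 v4655 v427 v978
theorem v5278 : PV l5278 := r5278 v328 v4655 v428 v325 v1259
theorem v5279 : PV l5279 := r5279 w8724 w8626
theorem v5280 : PV l5280 := r5280 v4153 v4156 v5253 v3825
theorem v5281 : PV l5281 := r5281 v5113 v3008 v5280 w8724 v5279 v2635 v5231
theorem v5282 : PV l5282 := r5282 v2698 v4897 v2683
theorem v5283 : PV l5283 := r5283 v3493 v4897 v3489
theorem v5284 : PV l5284 := r5284 v4134 w4785 w3467 v5113 v2989 v2987 v2992 v1767 v5178 v481 v5283 v3934 v3400 v3816 v5282 v4165 v4129 w8689 w8608 v2626 v3849 v3126 w2343 v5272 w8721 w4501 w8416 v3446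
theorem v5285 : PV l5285 := r5285 w3467 v5113 v2992 v3008 v481 v4134 v5284 w4709 w4725 w4814 v1218 v4967 v4890 v3400 v3813 w9175 w8416
theorem v5286 : PV l5286 := r5286 v5036 v1767 v3008 v2820 v3929 w4704 w4709 w4725 w4510 w4509 w4500 v1218 v4966 v4967 v5136 v3389 v3418 v4618 v5233 v3217 v2534
theorem v5287 : PV l5287 := r5287 v1767 v3929 v428 v1218 v3389 v3418 v5232 v5236
theorem v5288 : PV l5288 := r5288 v1767 v5113 v3008 v481 v2820 v3929 v5286 v5280 v5281 w8722 w5485 w5488 w4979 v5287 v1412 v5269 v2767 w4258 v3007 v1146 v1590 v5197 v5038 v3825 v5253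
theorem v5289 : PV l5289 := r5289 v481 v5283 v5282 v3816
theorem v5290 : PV l5290 := r5290 v5113 v2991 v2992 v3008 v481 w4796 w4785 v5288 v4135 v4132 v5285 v4182 v4165 v5289 w4704 w4709 w4725 w4837 w4451 v1218 v4967 v4890 v3935 v2698 v4256 w8722 v3829 w4966
theorem v5291 : PV l5291 := r5291 v3008 w4709 w4725 w4814 v1217 v1218 v4967 v642 v667 v4890 w8417 v3400 w8419 v2300 v671 v4568 v4567 w9175
theorem v5292 : PV l5292 := r5292 w5462 v5113 v2987 v2992 v1767 v5178 v481 v4135 v5291 w4305 v5283 v5289 v3934 v4129 w8689 v1779 v671 v3126 v3403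
theorem v5293 : PV l5293 := r5293 v5113 v2989 v2987 v2992 v481 v5283 v5289 v3849 v3934 w8689
theorem v5294 : PV l5294 := r5294 w3467 v5113 v2992 v1767 v3008 v481 v2820 v5290 w5462 w5467 v5292 v5286 w4977 v2757 w4305 v5287 w4258 v1145 v5293 v5038 v3825 v5253
theorem v5295 : PV l5295 := r5295 v5113 v481 v3929 v2992 v5294 v3342 v5253 v5038 v5283 v4890 w4725 v4967
theorem v5296 : PV l5296 := r5296 v2845 v2846 v480 v481 v3493 v4225 v4242 v5039 v5187
theorem v5297 : PV l5297 := r5297 v5296 v5037 v5038 v5253 v5187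
theorem v5298 : PV l5298 := r5298 v480 v481 v5038 v5253 v2733 v3147 v390 v4796
theorem v5299 : PV l5299 := r5299 w4709 w4819 v3813 v1217 w8323 w8416
theorem v5300 : PV l5300 := r5300 v5297 v2992 w3467 w4958 v5289 v3816 v4165 v4183 w8721 v2638 w9008 w8623 v1145 v3427 v1210 v3444
theorem v5301 : PV l5301 := r5301 v2750 w4315 v5297 v2992 v3008 w3469 w3467 v481 v3929 v3400 v3338 v5300 w4709 v3813 w4842 v5299 v1217 v668 v4568 w8418 v2273
theorem v5302 : PV l5302 := r5302 v5297 v480 v481 v5113 v5295 v5298 v5301 v5253 v3493 v390 v3489 v3511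
theorem v5303 : PV l5303 := r5303 v480 v481 v5253 v3493 v390 v3489 v3511
theorem v5304 : PV l5304 := r5304 v5297 v480 v481 v5303 v4617 v5039 v2698 v4240 v390 v4242 v4225
theorem v5305 : PV l5305 := r5305 v5297 v5302 v5304 v5037 v5038 v4617 v5253
theorem v5306 : PV l5306 := r5306 v5038 v1242 w5169 w5168 v3503 v390 v3507 v3485
theorem v5307 : PV l5307 := r5307 v5038 v5037 v5306 v2676 v2846 v2845 v2680 v3507 v485 v3514 v3492
theorem v5308 : PV l5308 := r5308 v5307 v5038 v5037 v2846 v2845 v2642 v4623 v485 v3147 v4796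
theorem v5309 : PV l5309 := r5309 w8722 v3449 w8417 w5744 w5356 w8419 v4567 v2300
theorem v5310 : PV l5310 := r5310 v3929 v4415 v4416 v4406 w2769 v2922 v1245 w2764 w4324 v4379 v4373 v3356 v3346
theorem v5311 : PV l5311 := r5311 v5037 v5307 v5308 v2641 w3467 v2821 v4415 v5310 v2926 w3187 v1145 v3824 w4492
theorem v5312 : PV l5312 := r5312 v5305 v5308 v476 v5037 v5307 v3935 v2641 v4802 v2627 w2357 v473 v3934 v4591 v2626 w2343 v3129 w3467 v3400 v3396 v4165 v5309 w5739 w4819 w8721 v3825 w8701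
theorem v5313 : PV l5313 := r5313 v5305 v473 v476 v2820 v3929 v5037 v5038 v4099 v4135 v5307 v3934 v3935 v5308 w3467 v2641 v4591 v4802 v3139 v3129 v5311 w8417 v3404 v4405 w4809 w4509 w3182 w3191 v2939 v5270 v5312 v5208 w5336 v390 v3146
theorem v5314 : PV l5314 := r5314 v485 v4237 v5200 v390 v4221
theorem v5315 : PV l5315 := r5315 v476 w4494 v4655 v2642 v5188 v2991 v3826
theorem v5316 : PV l5316 := r5316 v3934 v4589 v2989 v3849
theorem v5317 : PV l5317 := r5317 v476 w4494 v4655 v3935 v3934 v473 v5315 v5039 v5316 v2846 v2696 v2706 v4238 v4255 v3849 w5168 w5165 v4250 v3853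
theorem v5318 : PV l5318 := r5318 v5039 v3935 v3934 v473 v476 v2846 v2696 v2706 v4238 v4255 v3849 w5168 w5165 v4250 v3853
theorem v5319 : PV l5319 := r5319 v3934 v473 v476 w8417 w5363 w4809 w4795 w4529 w4537 w4494 v4655 v3006 v1145 v5317 v5191 v5318 v2704 v2989 v3849
theorem v5320 : PV l5320 := r5320 v5318 v2694
theorem v5321 : PV l5321 := r5321 v476 w5363 w4809 w4795 w4529 w4537 w4494 v4655 v3006 v1145 v5320 v5191 v5315
theorem v5322 : PV l5322 := r5322 v429 v3006 v1145 v3934 v473 v5320 v2642 v2989 v4591 v3849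
theorem v5323 : PV l5323 := r5323 v429 v3006 v1145 v4165 v2642 v5188 v5315 v4183 w3467 v2991 v3830 w8323 w8416
theorem v5324 : PV l5324 := r5324 v5039 v2694 v2846 v2845 v2696 v4238 v485 v4242 v4225
theorem v5325 : PV l5325 := r5325 v5324 v429 v3006 v5191 v5322 v5323 w4794
theorem v5326 : PV l5326 := r5326 v5324 v4165 v3400 v3396 v2820 v3929 v5325 v422 v1210 w4529 w4528 w4510 v3460 w5365 v3444 v2630 w8419 v4156 v671 v3368
theorem v5327 : PV l5327 := r5327 v3929 v4156 v4213 v4879 v4866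
theorem v5328 : PV l5328 := r5328 v2630 v667 v3445
theorem v5329 : PV l5329 := r5329 v5313 v5305 v473 v3396 v5319 v5324 v4165 v5326 v4655 v2920 v2926 v428 w4544 w4512 w5346 v5328 w8419 v671 v5327
theorem v5330 : PV l5330 := r5330 v2919 v2925 v5327
theorem v5331 : PV l5331 := r5331 v2820 v3929 v495 v496 v493 v3403 v3368 v3460 v1218 v428 w4873 w4878 w4887 v1412 v4857 v4832 v4846 w2776 v2907
theorem v5332 : PV l5332 := r5332 v4213 v4156 v2820 v3929 v671 v5330 v5331 v490 w4512 w4517 w4544 v1149 v3029 v1412 v3456 v3216 v3403 v4866 v4882 w4509 w5483 v2916 v5268 v4087 v4619 v3486 v3482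
theorem v5333 : PV l5333 := r5333 v4156 v2820 v5332 w5380 w5376 w5359 w4510 v5272 v5274 v3456 v1779 v3408 w8704
theorem v5334 : PV l5334 := r5334 v427 v5268 v1412 v3486 v390 v3475 v3482 v3495 v3504
theorem v5335 : PV l5335 := r5335 v485 v390 v3482 v3504
theorem v5336 : PV l5336 := r5336 v5334 v485 v482 w4468 w4481 v5335 v3486 v4895 v3508 w2739 v4893 v3521 v4907 v3520
theorem v5337 : PV l5337 := r5337 v3489 v3493
theorem v5338 : PV l5338 := r5338 v5334 v1412 v5269 w4255 v4087 v5336 v5337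
theorem v5339 : PV l5339 := r5339 w5169 v3493 v1242 v2845 v2676
theorem v5340 : PV l5340 := r5340 v473 v2688 v5333 v3394 v5338 w4496 v5339 v5335 v3486 v5276 v4895 v4967 v4890
theorem v5341 : PV l5341 := r5341 v5334 v485 w4481 v5335 v3486 v4895 v3508 v4893 v2846 v2677
theorem v5342 : PV l5342 := r5342 v473 v2300 w771 v4568 v4209 v5340 v4164 v5341 v5337 v3493 v5269 v5275 v2845 w2889 w4496 v2677 v4893
theorem v5343 : PV l5343 := r5343 v473 v5337 v3493 v5339 v5269 v5275 v2845 w2889 w4496 v2677 v4893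
theorem v5344 : PV l5344 := r5344 v5343 v485 v390 v2845 v5335 v3503 v5039 v2676
theorem v5345 : PV l5345 := r5345 w8419 w8445
theorem v5346 : PV l5346 := r5346 v2820 v4165 v4129 v3418 v1218 v1149 w4859 v3456
theorem v5347 : PV l5347 := r5347 v5305 v5313 v5329 v5342 v5343 v5344 v3486 v5268 v5276 w4511 w4509 w4481 v3008 w5404 w5402 v4895 w8417 v4893 v4890 v4967 w4255 v1767 v5345 v2630 v5346 v5039 v5341
theorem v5348 : PV l5348 := r5348 v5303 v5343 v4133 v4129 v5341
theorem v5349 : PV l5349 := r5349 v3213 v4846 v4832 w2776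
theorem v5350 : PV l5350 := r5350 v4215 v4157 v3929 v5303 v5343 v5344 v3486 v5268 v5276 w4511 w4509 w4481 v3008 w5402 v4895 w8397 v4890 v4967 v1412 w4255 w4909 w4905 w4899 v1767 v4087 w4318 w4250 v3029 v5349 v4860 v4858
theorem v5351 : PV l5351 := r5351 w4313 w4315 v3216 v3929 v501 v3403 v4858 v4880 v2908 v4860 v4868 v2922 v5182 w2764 v4832
theorem v5352 : PV l5352 := r5352 v3216 v3929 w4314 v5351 w4509 w4562 v5270 v1412 v4882 v4087 v2916 v4880 v4866
theorem v5353 : PV l5353 := r5353 v3216 v5350 v4157 w4509 v3408 v5270 v5272 v5304 v4882 v4880 w8397 w4809 w4795 v5321 v5317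
theorem v5354 : PV l5354 := r5354 w5376 w4495 v671 v5345 v3813
theorem v5355 : PV l5355 := r5355 v3929 v5182 v4832
theorem v5356 : PV l5356 := r5356 v5347 v5350 v3400 v3396 v4215 v4157 v2820 v3929 v3216 v2630 v2632 v5352 v2751 v5353 v501 v3403 v4880 w3171 v2925 v2926 w3179 v4882 v5270 v4868 v3006 w4255 w2769 v2922 w2764 w3064 v4966 w2749 v5354 v481 v5304 w8702 v5355 w4998 w4979 v2253 v5299 w8396
theorem v5357 : PV l5357 := r5357 v3148 v4868 w2769 v4866 w3064 w2749 w8396 v3813 w8416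
theorem v5358 : PV l5358 := r5358 w4819 v3400 v3929 w3171 v2925 w3179 v5357 v4881 v4867 v2922 w2764 v5355 w4315 v4836 v1778
theorem v5359 : PV l5359 := r5359 v3929 v4879 v4880 v4868 v4866
theorem v5360 : PV l5360 := r5360 v501 v5356 v3129 v3213 v5347 v5350 v3396 v3935 v4215 v4157 v5359 v2926 v5358 v3006 w4495 v5297 v5304 v2992 v5289 w8702 v4129 v2735 w8397 v671 w5372
theorem v5361 : PV l5361 := r5361 v3929 v2925 v4882 v4881 v4867 v2922 w2764 v5355 w4315 v4836 v1778
theorem v5362 : PV l5362 := r5362 v5356 v3213 v5347 v4215 v4157 v3929 v501 v5360 v5361 v4879 v4880 w8397 v4866 w4791 w8702 v5261 v5304 v4857 w4458 w4873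
theorem v5363 : PV l5363 := r5363 v4857 v4861
theorem v5364 : PV l5364 := r5364 v3929 v4879 v4880 v5261 v4866
theorem v5365 : PV l5365 := r5365 v5347 v2820 v3929 v4157 v4215 v5356 v3213 v5362 v487 w4509 v3407 w4544 v5270 v1412 v5363 v5364 v4882 v4867 v2922 w2764 v4832 v4836
theorem v5366 : PV l5366 := r5366 v4832 w4315 v4836 v1778
theorem v5367 : PV l5367 := r5367 v5035 v3929 v4868 v4882
theorem v5368 : PV l5368 := r5368 v3217 v4867 v1412 v427 v428 w4510 v1218 v3389
theorem v5369 : PV l5369 := r5369 v5036 v2820 v3929 v427 v428 w4544 v4966 v4967 w4510 w4512 v1218 v2534 v5136 v3460 v3389 v5183 w4315 v2751 v4618 v5233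
theorem v5370 : PV l5370 := r5370 w4909 v3347 v4833 v4835
theorem v5371 : PV l5371 := r5371 v2260 w4835 w8704 w8739 v3342 v4423
theorem v5372 : PV l5372 := r5372 w4315 w4910 w4255 v3383 v5272
theorem v5373 : PV l5373 := r5373 v671 w8704
theorem v5374 : PV l5374 := r5374 v5038 v5307 v5253
theorem v5375 : PV l5375 := r5375 v5374 v5037 v5191 v5373 v5298
theorem v5376 : PV l5376 := r5376 v3929 v4416 v4406
theorem v5377 : PV l5377 := r5377 v5374 v5037 v5297 v5298 v4617
theorem v5378 : PV l5378 := r5378 v2820 v5347 v5365 v5037 v5038 v5374 v3934 v3935 v3400 v5377 v476 v473 v5308 w3467 v2641 v4802 w8397 v4591 v2627 v3129 w4809 w4791 w8702 w5363 w2352 w4487 v4656 v2988 v3006 v2955 v5208 v390 v3146 v4796 w5482 v3147 w8701 w5387 v4134 w8721 v3409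
theorem v5379 : PV l5379 := r5379 w4529 w4537 v3439 v4656 v1145
theorem v5380 : PV l5380 := r5380 v2637 v2631 v3929 v5037 v5374 v5377 v3935 v3396 v476 v5308 v2641 v4802 v3127 v5379 v3419 w5365 v667
theorem v5381 : PV l5381 := r5381 v476 v3935 v2637 v2631 v2641 v4802 v5379 v3127 v3419 w5365 v667
theorem v5382 : PV l5382 := r5382 v473 v3934 v5036 v2637 v2631 v2820 v5381 v2642 v4590 v5270 v3126 w4510 v3367 w5380 v667
theorem v5383 : PV l5383 := r5383 v5039 v2846 v2845 v2696 v4238 v485 v4242 v4225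
theorem v5384 : PV l5384 := r5384 v3338 v3935 v5036 v2637 v2631 v2820 v476 v5382 v5324 v2689 v5383 w3469 v4254 v3127 v4253 v3130 v667 v1102 w5380 v3375
theorem v5385 : PV l5385 := r5385 v5036 v5380 v4157 v2631 v2820 v3929 v3934 v3396 v5384 v481 v5297 v5304 v5113 v5301 v2992 v2987 v1767 v5286 v3816 v5281 w4305 v5289 w5445 w8689 v5328 v3126
theorem v5386 : PV l5386 := r5386 v2637 v2820 v3929 v5036 v5380 v5385 v5303 v5343 v5344 v3477 v3486 v5112 v5268 v3008 w4510 v3389 v1210 v1218 w4249 v1145 v1767 v3439 w4858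
theorem v5387 : PV l5387 := r5387 w4315 w4314 v4834 v5349 v4087
theorem v5388 : PV l5388 := r5388 v2740 v4834 v4846 v5349 v2907
theorem v5389 : PV l5389 := r5389 v3929 v5035 v5387 v5366 v1778 v5363 v5364 v5388 v4838 v4618 w2764 v5367 v4881 v4867
theorem v5390 : PV l5390 := r5390 v3929 v2631 v2637 v5386 v5035 v5389 v2919 v2925 v4879 v4880 v4866
theorem v5391 : PV l5391 := r5391 v4087 v3929 v5035 v5352 v5349
theorem v5392 : PV l5392 := r5392 v2820 v3929 v3341 v3397 v5374 v5303 v5343 v5344 v3486 v5268 v5276 w4511 w4509 w4481 v3008 w5404 v4895 v4890 v4893 v4967 v1412 w4909 w4255 w4905 v5338 v1767 v5039 v5391 v4157 v4156 v5346 v2630 v3404 v5345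
theorem v5393 : PV l5393 := r5393 v2630 v4156 v3929 w4510 w4509 w5380 v3404 v4398 w8419 v5345 w3194 v3342 v4893 v4887
theorem v5394 : PV l5394 := r5394 v5297 v5308 v5268 v5270 v3486 v2642 v5383
theorem v5395 : PV l5395 := r5395 v4156 v4157 v2812 v3929 v3216 v2630 v3404 w8419 v4415 v3342 v4416 v3493 w8561 w5402
theorem v5396 : PV l5396 := r5396 v3493 v3486 v485 v5276 v3508 v1210 v3507 v1145
theorem v5397 : PV l5397 := r5397 v5297 v2812 v5394 w4510 w5380 w4509 w4511 v476 v5308 v5395 v3129 v3418 v5396 v3935 v5383 v2642 v4624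
theorem v5398 : PV l5398 := r5398 v5035 v3929 v2919 v2925 v4879 v4880 v4866
theorem v5399 : PV l5399 := r5399 v3213 v5389
theorem v5400 : PV l5400 := r5400 v2820 v5390 v5392 v5378 w3807 w3468 w3476 v2812 v5394 w4509 v5397 v5398 v5399 v3216 v3403 v4880 w3210 v5367
theorem v5401 : PV l5401 := r5401 w3210 v5367
theorem v5402 : PV l5402 := r5402 v5035 v3929 v2258 w3807 v5401 v4880 w3209 v4866
theorem v5403 : PV l5403 := r5403 v2846 v5174 v480 v5250 v4614 v2699 v4241
theorem v5404 : PV l5404 := r5404 v2845 v2846 v481 v480 v5250 v5228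
theorem v5405 : PV l5405 := r5405 v5035 v5352 v2751 v3216 v3219 v3929 v4880 v4866 v3403 v2916 v487 v4618 w4544 v1412 v5403 v5404 v476 v5175 v2848 v3530 v2678
theorem v5406 : PV l5406 := r5406 v3223 v5404 v2669 v473 w5380 v4129 v2678 v671 v2530 v3392
theorem v5407 : PV l5407 := r5407 v3934 v3223 v5174 w4452 v4615 w6789
theorem v5408 : PV l5408 := r5408 v5398 v2820 v5035 v5399 v5352 v1778 v5112 v2751 v3216 v5400 v3929 v2846 v2845 v5405 w3166 v4882 v5367 v5270 v3006 v2922 w2764 v4866 w4510 v2771 v4968 v5366 v4833 v1218 v5131 v5406 v5407 v481 v480 v5250 v5038 v4241 v4224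
theorem v5409 : PV l5409 := r5409 v5112 v2992 v5250 v4613 v5038 v2691 v2697 v1145 v3815 v1210 v3812
theorem v5410 : PV l5410 := r5410 v3219 v3935 v5409 v476 v4616 v4253 v2693
theorem v5411 : PV l5411 := r5411 v476 v2988 v2992 v3223 v3219 v5037 v5039 v2675 v4892 v3528 w4306 w4492 v3854 v1145
theorem v5412 : PV l5412 := r5412 v1210 w4469 v3856
theorem v5413 : PV l5413 := r5413 v3223 v3219 v5412 w4249 v1145 v3854 v5176 w4682 w4683 w4684 v5199 v4245
theorem v5414 : PV l5414 := r5414 v390 v3119 v500 v3352 v3355 w8704 w5483 w5475 v3484 v3505 v3483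
theorem v5415 : PV l5415 := r5415 v5112 v2988 v5035 v3223 v3219 v3929 v476 v473 v5411 v4129 v2674 v2528 v3527 v3392 v1779 v3119 v5413 v5208 v5414 v3347 v5373 v671 v3376 w5380
theorem v5416 : PV l5416 := r5416 v390 v5228
theorem v5417 : PV l5417 := r5417 v5400 v2821 v2820 v5035 v5398 v5399 v3216 v5352 v2751 v1778 v5408 v5410 v5415 v481 v480 v5250 v5038 v5416 v3496 v3510 v4882 v3488 v4880 v3473
theorem v5418 : PV l5418 := r5418 v3008 v5036 v2820 v3929 v3216 v5369 v4416 v5246 v4878 v1412 v3404 v5262 v487 w6368 v2533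
theorem v5419 : PV l5419 := r5419 v5036 v2820 v3929 v3213 v3128 v5231 w8626 w5445 v667 v3445
theorem v5420 : PV l5420 := r5420 v3008 v481 v5417 v5400 v3223 v3929 v1767 v5286 w4305 w8640 v3392 v5419 v3216 v5418 v5246 v4410 v4405
theorem v5421 : PV l5421 := r5421 v3929 v3216 v4391 v4387 v5246
theorem v5422 : PV l5422 := r5422 v4153 v4155 v3128 v5346 v5419 w8682 w5462
theorem v5423 : PV l5423 := r5423 v5417 v4153 v5038 v2987 v3008 v480 v481 v5400 v3929 v3496 v3510 v2682 v3488 v2668 v2681 v3473 v3491 v5420 v2750 w4314 v5422 v3216 v5421 v5369 v4416 v4878 v1412 v2916 v4087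
theorem v5424 : PV l5424 := r5424 v5112 v480 v5400 v5423 v4613 v4239 v2697
theorem v5425 : PV l5425 := r5425 v480 v481 v5400 v5038 v5424 v390 v5416 v4224 v4241
theorem v5426 : PV l5426 := r5426 v480 v481 v5417 v5400 v3223 v5112 v3008 v5425 v5039 v5250 v4613 v2668 v2681 w4318 v5238 v3509 v390 v3512 v5239 v3490 v5255 v5256 v4157 v4156 v3473 v5246 v3216 v3140 v5346 v5419 w8682 w5462
theorem v5427 : PV l5427 := r5427 v390 v5250 v2750 w4313 v5039 v480 v481 v2820 v5244 v3512 v5241 v3490 v3402 v4157 v4156 v4394 v5346 v2908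
theorem v5428 : PV l5428 := r5428 v5039 v5274 w4509 w4510 v480 v481 v3223 v2820 v3929 v390 v5427 v3934 v3396 v2843 v4576 v4659 w5158 w5369 v4156 v4224 w4395 v1357 v1209 v1210 v667 v5136 w8419
theorem v5429 : PV l5429 := r5429 v480 v5428 v5242 v3509 v5244
theorem v5430 : PV l5430 := r5430 v5400 v5417 v5426 v5429 v480 v3223 v5423 v3510 v4655 v2682 v432 v2681 v1254 v1138 w5158 v4576 v2531
theorem v5431 : PV l5431 := r5431 v5400 v5417 v5426 v5429 v5038 v5274 v480 v481 v3219 v5430 v3935 v4239 v4222 v4248 v4224 w5160 v4245 v1357 w4395 v1209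
theorem v5432 : PV l5432 := r5432 v5417 v5400 v481 v480 v5426 v5429 v5038 v5431 v390 v5416 v4224 v4241
theorem v5433 : PV l5433 := r5433 v476 v3219 v3935 v4616 v2693 v4253
theorem v5434 : PV l5434 := r5434 v485 v5416
theorem v5435 : PV l5435 := r5435 v3223 v3219 v4244 v4247 v1316 v2988 v1276 v5176
theorem v5436 : PV l5436 := r5436 v4154 v5433 w3469 v5036 v3223 v3219 v2820 v3929 v5434 v483 v5199 v3506 w5169 v1242 v3523 v4247 v3398 v5435 v1316 v2988 v5413 v5412 v1767 v1146 v1145 w4869 v1102 v3854 v3439 v3429 w8723 w8418 w4682 v3369 w4510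
theorem v5437 : PV l5437 := r5437 v2988 v1209 v5176 v1145
theorem v5438 : PV l5438 := r5438 v3223 v3219 v483 v3502 v3520 v4245 v5437 v4655 v432 w4491 v1254 v3838 v3836
theorem v5439 : PV l5439 := r5439 v1276 v3857 v3855
theorem v5440 : PV l5440 := r5440 v5433 v476 v5036 v3223 v3219 v3929 v4153 v5436 v5438 w5168 v3510 v1242 w5165 v3524 v4243 v3394 v5272 v1275 w4510 w4513 w4458 w5380 v5439 v667 v3119 w8419 v3421
theorem v5441 : PV l5441 := r5441 v3223 v3929 v3119 v3140 v3369 v4416 v4415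
theorem v5442 : PV l5442 := r5442 v3219 v3929 v3501 v5208 v3497 v5274 w4510 w5380 v5441 v667 v3367 v3217 v3369 v4416 v4415
theorem v5443 : PV l5443 := r5443 v4156 w4511 w4510 w5394 w5380 v3367 v5345 v3361 w2353 v4211 w8327
theorem v5444 : PV l5444 := r5444 v427 v3929 v503 w4855 v3367 w4910 v1767 v3217 v3361 v5235 v4379 v4618 v4406 w2764
theorem v5445 : PV l5445 := r5445 v2820 v5400 v5417 v5432 v5433 v5440 v5039 v2674 v3219 v476 v3527 v473 v3223 v2528 v3392 v5442 v2833 v390 v3393 v2656 w3472 v2821 v3929 v485 w5168 v2731 v3494 v3512 w5165 v3490 v4662 v2844 v4210 v4156 v3491 v2327 v5443 v5272 v5273 v5444 v501 w5487 v3412 v3409 v5279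
theorem v5446 : PV l5446 := r5446 v5273 w4704 w5487 v4424 v5279 v4156
theorem v5447 : PV l5447 := r5447 v5272 v5270 v427 v2821 v5370 v5168
theorem v5448 : PV l5448 := r5448 v427 v4655 v2992 v5272 v2820 v5400 v5417 v5432 v5433 v5440 v5039 v2674 v3219 v476 v3527 v473 v3223 v2528 v3392 v5442 v3500 v3505 v390 v5036 v3929 v498 v3383 v3217 v4415 v4416 v5446 v3483 v3484 v5447 v5376 v2922 w2764 v4381 v4379
theorem v5449 : PV l5449 := r5449 v5270 v423 v427 v5445 v5417 v2821 v2820 v3929 v5448 v503 w4868 v3367 w4910 w4894 v5370 v3213 v5235 v4388 v4379 v4398 w3234 w3222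
theorem v5450 : PV l5450 := r5450 v3367 v3369
theorem v5451 : PV l5451 := r5451 v5036 v3929 v4405 v5376 v2916 v5262 v4087 w6368 v2751
theorem v5452 : PV l5452 := r5452 v2916 v5262 v4087 w6368 v2751
theorem v5453 : PV l5453 := r5453 v2928 v4087 w6368 v2751
theorem v5454 : PV l5454 := r5454 v3217 v3929 v5452 v5453 v5184 w2762 v4837
theorem v5455 : PV l5455 := r5455 v2820 v5400 v5417 v5432 v5433 v5440 v5039 v2674 v3219 v476 v3527 v473 v3223 v2528 v3392 v5442 v5445 v483 v4664 v3500 v3505 v390 v5036 v2821 v3929 v427 v5270 v5272 v4655 v2992 v5449 v5450 v498 v488 v3383 v3217 v2533 v5451 v5370 v5447 v3352 v5454 v4416 v5446 v3483 v3484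
theorem v5456 : PV l5456 := r5456 v2820 v5400 v5417 v5432 v5433 v5440 v5039 v2674 v3219 v476 v3527 v473 v3223 v2528 v3392 v5442 v5036 v3929 v5445 v483 v4664 v5455 w4510 w4467 v3367 v5450 v4646 v3217 v2941 v4415 v1217 v425 v2771 v1767 v4087 w4876 w2755 v2533 w8884
theorem v5457 : PV l5457 := r5457 v3223 v3929 w5380 v667 v3119 v3140 v5441 v3369 v4415 w8419 w3187 v4156 v4425 v4424
theorem v5458 : PV l5458 := r5458 v2820 v5400 v5417 w3467 v5432 v5433 v5440 v5039 v2674 v473 v3223 v2528 v3392 v5456 v5457 v3929 w4510 v5272 v3383 v3377 v3217 v488 w4544 v4655 v2992 v5448 v4415 v485 v4416 v5446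
theorem v5459 : PV l5459 := r5459 v5417 v5036 v5400 v3223 v3219 v2821 v2820 v3929 w3467 v5432 v476 v473 v5433 v5440 v5039 v2674 v2528 v3527 v3392 v5442 v390 v5456 v5457 v498 v488 w4510 w4544 v5270 v5272 v4655 v1412 v3383 v2992 v3217 v3377 v3381 v2533 v5458 v5451 v5370 v5447 v3352 v5454 v4416 v5446 v3483 v3484
theorem v5460 : PV l5460 := r5460 v3483 v3484
theorem v5461 : PV l5461 := r5461 v5274 v5273 v5279 w8608 w8704
theorem v5462 : PV l5462 := r5462 v427 v5269 v5271 v5460 w5487 v3474 v5461 v4156 w8682 w8751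
theorem v5463 : PV l5463 := r5463 v427 v1412 v5272 v5270 v5459 v2845 v5417 v5036 v5400 v2821 v2820 v3929 v498 v488 v3383 v2533 v3377 v3381 v5451 v5370 v5447 v3352 v5462 v3396 v5174 v5461 w5467
theorem v5464 : PV l5464 := r5464 v5274 v5273 v1779 v667 w8626
theorem v5465 : PV l5465 := r5465 v3223 v3929 w4855 v5450 v3369 v3119 v5464 v3342 v3392 v5404 v473 v5175 v2530 v2678
theorem v5466 : PV l5466 := r5466 v5272 v5459 v5417 v5400 v2820 v3929 v5465 v3383 v5463 v3217
theorem v5467 : PV l5467 := r5467 v5175 v2678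
theorem v5468 : PV l5468 := r5468 v2845 v2846 v3219 v5467 v481 v480 v5227 v5228
theorem v5469 : PV l5469 := r5469 v2846 v3223 v3219 v3929 v3383 v3217 v3381 v4415 w3168 v5468 v3935 v5174 v5227 w4700 v3854
theorem v5470 : PV l5470 := r5470 v3929 v3217 v5370 v4415 v5376 v4379 v2922 w2764
theorem v5471 : PV l5471 := r5471 v5459 v5417 v5400 v3219 v2821 v2820 v3929 v427 v422 v5270 v5272 v1412 v5466 v5469 v503 w4855 w4910 v5470 v3119 v3367 v5464 v3342 v3394 v5468 v5404 v476 v5175 v3530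
theorem v5472 : PV l5472 := r5472 v3929 v4655 w4255 v1210 v1767 v1145 w4869 v3439
theorem v5473 : PV l5473 := r5473 w4509 w4510 v5036 v2820 v3929 v3367 v3389 v5472 v428 v432 v1218 v1210 v2919 v2925 v2900 v2908 v5112 v4412 v4415 v3404 v4405 v4394 v5387 v4848 v2743
theorem v5474 : PV l5474 := r5474 v3217 v4415 v2926 v2925 v3213 v5036 v3929 w4544 v4966 v4967 v5369 v2534 v5376 v2922 w2764 v5233 v4379 v2750 w4315
theorem v5475 : PV l5475 := r5475 v3929 v2820 v2821 v5417 v5471 w4511 w4510 v5473 v3217 v3369 v4415 v2925 v5474 w4255 w4909 v1767 v5470 w4318 v3029 w4250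
theorem v5476 : PV l5476 := r5476 v3217 v3929 v4655 w4909 v2994 v2995 v3000 v4416 v4406 v4835 v4868
theorem v5477 : PV l5477 := r5477 v2916 v1514
theorem v5478 : PV l5478 := r5478 v5477 v5180 v5181 v5184
theorem v5479 : PV l5479 := r5479 v503 v5036 v3929 v3217 v5476 v428 w4544 w4513 v3425 v4416 v2994 v3025 v4415 v1316 v1357 v5112 v3369 v2730 w2899 v5277 v5478 w4315 v2751 v2794 w6368 v2928
theorem v5480 : PV l5480 := r5480 v2994 v3025 v4655 v428 w4513 v1259 v3442
theorem v5481 : PV l5481 := r5481 v3008 v2924 v4655 v3386 v432 v1254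
theorem v5482 : PV l5482 := r5482 v4655 v2895 v432 v3386 v1254
theorem v5483 : PV l5483 := r5483 v2996 v5036 v3929 v428 v4967 w4513 w4512 v3423 v3447 v4395 v5387 v4850 v2743
theorem v5484 : PV l5484 := r5484 v3929 w4512 w4256 v3447 v5387
theorem v5485 : PV l5485 := r5485 v5036 w5380 v5209 v5377
theorem v5486 : PV l5486 := r5486 v5036 v3026 v5263 v3929 v503 w4877 v4846 v3447 v2719 v3453 v490 v3122 v1149 v1150 v3349 w3577 v4105 v4104 v3120 v3024 w3540 v3423 w4858 v1767 w6491 w6537 v1778 v3343 v3401 w5498 v5194 w5501 v3119 w2367 v2298 v5485 w5445 w5475 w5483 w5792 v5202 v5207 v5039 v4095 v4096 v5196 v5201 v5195 w788 v5222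
theorem v5487 : PV l5487 := r5487 v5203 v5208 w4698 v2945
theorem v5488 : PV l5488 := r5488 v2641 v5188 v2627 v3934 v473 v4591 v2626 v3935 v2859 v2858 w3434 w3435 w3437 w3438 w3524 v5210 v2375 v5219 v2444 v3576 v1680 v1705 v4285 w2712 v5218
theorem v5489 : PV l5489 := r5489 v3235 v3234 v473 w5706 w5297 w5309 w5306 v5215 v5189 v4294 v3605 v3390 w8075 w7771 v2762 v4152 v3914
theorem v5490 : PV l5490 := r5490 v2386 v2384 v2375 v1767 v3400 v3399 v3934 v1412 v5214 v5489 v1671 v3540 w1525 v5217 w8087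
theorem v5491 : PV l5491 := r5491 v5216 v3540 w1525 v5217 w8087
theorem v5492 : PV l5492 := r5492 w4950 v1767 v2676 v3400 v2835 w8543 w5749 w4766 v390 v3146 v4795 v1277 v2837 v2834 v2833 v3934 v473 v2641 v4591 v2626 v3929 v3338 v3399 v5269 v1412 v4618 v5488 v2980 v2981 v2982 v2983 v2801 v2803 w3407 v2828 v1720 v2375 v2384 v2386 v5490 v5491 v5489 v1675 w7788 w8766
theorem v5493 : PV l5493 := r5493 v3824 v3825 v2626 v3934 w3737 w3684 w3025 w3028 w3030 v1720 v2375 v2384 v5491 v1675 w7788 w7812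
theorem v5494 : PV l5494 := r5494 w734 w745 w7943 w8270 w5668
theorem v5495 : PV l5495 := r5495 w3681 v390 v3934 v3234 v2375 v2376 v2377 v2378 v2384 v2389 v5221 v2444 w1525 w1514 w1476 v5494 v2479 w7927 w8075 w4664
theorem v5496 : PV l5496 := r5496 v5495 v1705 v1731 w6738 w8053
theorem v5497 : PV l5497 := r5497 v5188 v2627 v1723 v3934 v2620 v5211 w8720 v1702 v2444 w1519 v1680 w1481 v5158 w735 w8164 w705 w8155 w5706 w4625 w7925 w7826 w2296
theorem v5498 : PV l5498 := r5498 v5188 v2627 w8834 w5749 v1723 w4950 w4766 v390 v3146 w3709 w3680 w3677 w3681 w3683 w3707 w3705 w3407 w3701 v5496 v5497 v3234 v2375 v2376 v2377 v2378 v2384 v2389 v5220 w1525 w1514 w1476 w1481 v5494 w7927 w5710 w5703 w5708 v674 v767 w8252 v675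
theorem v5499 : PV l5499 := r5499 v2676 v3399 v3400 v1277 w8834 w4950 v1767 w8543 w5749 w4766 v2834 v2833 v2641 v3824 v3825 v3823 v3934 v473 v4591 v3396 v4105 v5036 v3929 v5498 w3737 w3735 w3434 w3025 w3028 w3030 v1720 v5493 v3234 v2375 v2384 v2386 v5491 w5706 w5297 w5306 v5215 v2489 v3605 v3390 w8075 w7771 v2762 v4152 v3914
theorem v5500 : PV l5500 := r5500 v3234 v473 w5706 w5297 w5306 v5215 v2489 v3605 v3390 w8075 w7771 v2762 v4152 v3914
theorem v5501 : PV l5501 := r5501 v1767 v2676 v3934 v473 v2641 v4591 v2626 v3400 v3399 v1412 w3737 w3735 w3684 w3434 w3025 w3028 w3030 w3032 v1720 v5214 v2375 v2384 v2386 v5500 v1671 w8087 v3540 w1525 v5217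
theorem v5502 : PV l5502 := r5502 w730 v5494 v1697 w7981 w1439 w1450
theorem v5503 : PV l5503 := r5503 w3683 w3681 w3677 w3680 v390 v3234 v2375 v2376 v2377 v2378 v2379 v2384 v2389 v5221 w1525 w1514 v5502 w7927 w5710 w5703 v674 v767 v675 v678
theorem v5504 : PV l5504 := r5504 v2836 w3540 v2676 v3399 v3400 v2835 v1277 w8834 w4950 w8543 w5749 w4766 v390 v3146 v2837 v2834 v2833 v2641 v3824 v3825 v3823 v5188 v2627 v3934 v473 v4591 v3396 v5269 v1412 v4105 v5492 v5499 v5501 w3709 w3680 w3677 w3681 w3683 w3707 w3705 w3407 w3701 v5503 v2620 v5211 v1702 v2444 w1519 v1680 v1705 v1703 w735 v2473 w8164 w8155 w5706 w4623 w4625 w7925 w2296 w2292 w7826 v675 w7896 w7844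
theorem v5505 : PV l5505 := r5505 v1700 v3935 v3934 v4097 v5039 v3576 w1481 v5213 v4618 w2712 v5218 v4280 v4283 v1698 v1728 w5639
theorem v5506 : PV l5506 := r5506 v5039 v5188 v2627 v1700 v390 v3146 w5339 v3935 v3934 v4097 w3709 w3680 w3677 w3683 w3407 w3701 v5503 v5496 v2620 v3107 v5505 v56 w7899 w7871 w8502 v5212 v4618 v5219
theorem v5507 : PV l5507 := r5507 v2836 v3929 v5036 v3435 w3540 v5039 v2676 v3399 v3400 v2835 v1277 w8834 w8543 w5749 v2837 v2834 v2833 v2641 v3824 v3825 v3823 v5188 v3113 v3934 v473 v4591 v2640 v3338 v4097 v4095 v3431 v5269 v1412 v4105 w4766 w4950 v1767 v5504 v5506 w3737 w3735 w3434 w3025 w3028 w3030 v1720 v5501 v2375 v2384 v2386 v5493 v5491 v5500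
theorem v5508 : PV l5508 := r5508 w7788 w1473 w699 v2332
theorem v5509 : PV l5509 := r5509 v453 v450 v451 v5126 v2523 v2524
theorem v5510 : PV l5510 := r5510 v606 w7687
theorem v5511 : PV l5511 := r5511 w9153 v2603 v4083 v2600
theorem v5512 : PV l5512 := r5512 w2386 v2548 v5511 v2615 v2602 v4603
theorem v5513 : PV l5513 := r5513 v2575 v4610
theorem v5514 : PV l5514 := r5514 v2585 v2539
theorem v5515 : PV l5515 := r5515 v5514 v2590 v4607
theorem v5516 : PV l5516 := r5516 v2576 w6363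
theorem v5517 : PV l5517 := r5517 v5516 v4598 w6391
theorem v5518 : PV l5518 := r5518 v2574 v4604
theorem v5519 : PV l5519 := r5519 v2572 v2619
theorem v5520 : PV l5520 := r5520 w2976 w3427 v5517 v5518 v5519
theorem v5521 : PV l5521 := r5521 v658 w8000 w8021
theorem v5522 : PV l5522 := r5522 w8092 w7879
theorem v5523 : PV l5523 := r5523 w7830 w7851
theorem v5524 : PV l5524 := r5524 v2556 v2561 w9011 v2603
theorem v5525 : PV l5525 := r5525 v5518 v5519
theorem v5526 : PV l5526 := r5526 v5491 v1671 v3540 w1525 v5217 w8087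
theorem v5527 : PV l5527 := r5527 w3741 w3650 v5512 v2553 w2403 v5513 v2596 v2615 v4597 v4083 w9122
theorem v5528 : PV l5528 := r5528 v2618 v2592 w6629
theorem v5529 : PV l5529 := r5529 v1412 w5511 w5099 v5527 w2976 w3427 v5515 v5528 v2579 v4602
theorem v5530 : PV l5530 := r5530 w2976 w3427 v5520 v5525 v5516 v4598 v2578
theorem v5531 : PV l5531 := r5531 v4083 v5524
theorem v5532 : PV l5532 := r5532 w8092 w8132
theorem v5533 : PV l5533 := r5533 v5269 v1412 v5529 w5593 w5727 w5825 w4571 v5530 w3712 w3741 w3650 v5521 v5532 v2567 w754 w8150 v5531 v656 v2548 w8727 w8468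
theorem v5534 : PV l5534 := r5534 v4083 v5531 v2713 v20 w8947 v4606 v2615
theorem v5535 : PV l5535 := r5535 w5593 w5727 w5825 w4571 v5530 w3712 w3741 w3650 v5521 v5534 v2567 v2568 w8092 w1535 w8566 w8741
theorem v5536 : PV l5536 := r5536 v2387 v2379 v2375 v3234 w3434 v1412 w7788 v2473 v4262 v4285 w733 v3540 v3576 w1517 v3905 v3914 w4742 w4435 w4925 v4291 w8089 v2850 v1697 w8284 v1105 v5533 v5535 w5511 w5099 v5527 w2976 w3427 v5515 v5528 w6651 v2579
theorem v5537 : PV l5537 := r5537 w5339 v2676 v2641 v3824 v3825 v3934 v473 v4591 v2626 v3400 v3399 v5269 v1412 v3929 w3737 w3735 w3434 w3025 w3028 w3030 w3038 v1720 v3234 v2375 v2379 v2384 v2386 v5526 w5706 w5297 w5306 v5536 w7770 w7812 v5215 v3390 v2489 w7771 v3605 v4152 v3914 w4740 w4435 v4291 v2850 v1697 w8284 v5508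
theorem v5538 : PV l5538 := r5538 v1705 v1731 w6738 w8053
theorem v5539 : PV l5539 := r5539 v5042 v2473 v2477 v1694 v1698 v3576 v1680 w4740 v3909
theorem v5540 : PV l5540 := r5540 v5039 v4280 v4283 v4285 v1698 v1694 w5639 v1680 v1728
theorem v5541 : PV l5541 := r5541 v1694 v3576 w8182 v5218 v2761 w5306 w4435 v3181 v4289
theorem v5542 : PV l5542 := r5542 v3540 v3576 v2759 v5218 w4269 w4436 v3226 v4667
theorem v5543 : PV l5543 := r5543 v2761 v3181 w4435 v4289
theorem v5544 : PV l5544 := r5544 v473 v3929 v5036 v3435 v3431 v421 v5269 v1412 w3540 v2990 w3202 v4105 v4104 v5207 v5039 v4096 v4097 v2676 v3934 v3935 v3396 v3399 v3400 v3335 v3339 v2640 v2641 w8419 v4591 v5188 w8401 w8400 v4156 w788 w790 v2627 v3824 v3823 v5487 v390 v2833 v2834 v2835 v2836 v3146 v1277 w8543 w4703 w4693 w5339 v4795 w8834 w5749 v2939 w5780 v5507 w4695 v2756 w4802 w4307 v4087 v5537 w3709 w3677 w3683 w3407 w3411 w3415 w3701 v5503 v2620 v5538 w2716 w2713 w2712 v5539 v5540 v5541 v4262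 v5542 v56 v5219 w7871 w5306 v5543 v4475 w4435 v3583 v3584
theorem v5545 : PV l5545 := r5545 v3929 v5036 v5480 v5481 v3026 v5366 v5263 v4416 v5482 v5483 v1412 v503 v5484 w4877 v4846 v2632 v2631 v2630 v4420 v5269 w4909 v5486 w5195 w5193 v3406 v3389 v3367 v3404 v3416 v3447 v2719 v3452 v3453 v490 v3122 w4872 v1149 v1150 v3349 w3577 v2257 w3540 w3491 w3171 w3202 v5264 v3024 v325 w3166 v473 w5380 w5381 w5382 v5544 v5268 w4239 v5393 v5037 v5374 v3934 v2641 v4591 v3824 v2949 w4301
theorem v5546 : PV l5546 := r5546 v3929 v5036 v5480 v5481 v4420 v4416 v5366 v3026 v5263 v5482 v5483 v1412 v5269 v503 w4909 v5484 v5486 w4877 v4846 v2630 v5545 v5377 w5450 v4156 v5205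
theorem v5547 : PV l5547 := r5547 v1590 w5445 v667 v4563 v5225 v1592 v2690
theorem v5548 : PV l5548 := r5548 v3929 v5036 v5480 v4416 v5481 v3026 v5366 v5263 v5482 v5483 v1412 v503 v5484 w4877 v4846 v4420 v5269 w4909 v5486 w5195 w5193 v3406 v3367 v3447 v2719 v3453 v1150 v3349 w3577 v2257 w3166 w3540 v3401 v5546 v3223 v3116 v3119 v5547 v4392 v1594 w8658 v5226 w4788 v2527 w8592
theorem v5549 : PV l5549 := r5549 v3223 v3219 w5380 w4788 w4843 w4817 v1590 v759 v5229 v2945 v4436
theorem v5550 : PV l5550 := r5550 v3929 v3367 v5482 v2990 v3223 v3119 v5549 w5445 v667 v1594 w4933 v5225 v3392 w8377 w8362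
theorem v5551 : PV l5551 := r5551 v5038 v5374 v5037 v5188 v3935 v5208 v4796 v2627 v4087 w3709 w3677 w3683 w3407 w3411 w3415 w3701 v5503 v2620 v5538 v5540 w2716 w2713 w2712 v5042 v5541 v4262 v5542 v56 w7871 w5306 v5543 v4475 w4435 v3583 v3584
theorem v5552 : PV l5552 := r5552 v2600 v2602
theorem v5553 : PV l5553 := r5553 v5552 v5513 v2596
theorem v5554 : PV l5554 := r5554 v5513 v4597
theorem v5555 : PV l5555 := r5555 v4083 v2561 v20 v2713
theorem v5556 : PV l5556 := r5556 w5593 w5727 w5825 w4571 v5530 w3712 w3741 w3650 v5521 v5522 w1535 v2606 w7830 w8132 v5555 v2568 w8566 w8741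
theorem v5557 : PV l5557 := r5557 w3741 w3650 v5553 v4083 v5554 v2556 v4603 w9153 v2615
theorem v5558 : PV l5558 := r5558 v1412 w5511 w5099 v5557 w2976 w3427 v5515 v5528 v2579 w6651 v4602
theorem v5559 : PV l5559 := r5559 v2606 v2710 v4606 w8092 v2553 w754 w8579
theorem v5560 : PV l5560 := r5560 v4083 v5559 v2615 v2561 w8947 v2713
theorem v5561 : PV l5561 := r5561 w3712 v4099 v2980 v2981 v2982 v2801 v2803 w3407 v1705 v2375 v2379 v2384 v2386 v2387 v5526 w5710 w5706 w7773 w7771 w808 w743 w7924 w5691 w5716 v1698 v5521 w8092 v5532 w8284 w1538 w8566 w8741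
theorem v5562 : PV l5562 := r5562 v2855 v2850 v5038 v5374 v5037 v2641 v5188 v3935 v5208 v2834 v4796 w3464 v2627 v2640 v4087 w3434 w3435 w3524 v5551 v5503 v2620 v5538 v5540 w2712 v5042 v5541 v5218 v3576 v56 w7871
theorem v5563 : PV l5563 := r5563 v3399 v3929 v3390 v3391 v3461 v5561
theorem v5564 : PV l5564 := r5564 v5215 v2472
theorem v5565 : PV l5565 := r5565 w3650 v2856 w3741 v2850 w3712 w5727 v5374 v4797 v4796 w3464 v5037 v3934 v2641 v4591 v2626 v2640 v3400 v3399 v4103 v4099 v3929 v5562 v2980 v2981 v2982 v2801 v2803 w3407 v5538 v3235 v2375 v2379 v2384 v2386 v2387 v5526 w5706 w5297 w5309 v5564 v3390 v3391 v3461 v2489 w7771 v3591 w743 w7924 w5691 w5716 v1698 v5521 w8284 v5508 v5217 v5560 v2568 v2571 v5563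
theorem v5566 : PV l5566 := r5566 v4099 v5037 v4104 v2980 v2981 v2982 v2985 v2801 v2803 w3407 v5538 v3234 v2375 v2379 v2384 v2386 v2387 v5526 w5706 w5297 w5306 w7771 v2489 w743 v4152 v3605 w7924 v3177 w5691 v5556 v1698 w8284 v5508 v1105
theorem v5567 : PV l5567 := r5567 v2855 v2850 v5038 v5374 v5037 v2641 v5188 v3935 v5208 v2834 v4796 w3464 v2627 v2640 v4087 w3434 w3435 w3524 v5551 v5503 v2620 v5538 v5540 w2712 v5218 v4475 w4435 v3583 v3584
theorem v5568 : PV l5568 := r5568 v2856 v2850 v5374 v4797 v4796 w3464 v4795 v5037 v3934 v2641 v4591 v2626 v2640 v3400 v3399 v4103 v4099 v4105 v3929 v5567 v2980 v2981 v2982 v2801 w3407 v5538 v2375 v2384 v5526 w5297 v5564 v3390 v3461 v5566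
theorem v5569 : PV l5569 := r5569 v5374 v4797 v4795 v5037 v3934 v2641 v4591 v3400 v3399 v4103 v4105 v4104 v5036 w5825 w4571 v5568 v5562 v5565 v2985 v5530
theorem v5570 : PV l5570 := r5570 w2976 w3427 v5515 v5528 v2579 w6651 v4602
theorem v5571 : PV l5571 := r5571 v4603 v4610
theorem v5572 : PV l5572 := r5572 w5099 w5511 v1412 v2985 v5558 v5570 w3741 w3650 v5553 v4083 v5571 v2615 w9122 w9153
theorem v5573 : PV l5573 := r5573 v5562 v5567
theorem v5574 : PV l5574 := r5574 v5374 v4797 v4796 v5037 v3934 v2641 v4591 v3400 v3399 v4103 v5269 v1412 v4105 v3929 v2856 v5569 v5572 v5573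
theorem v5575 : PV l5575 := r5575 v3929 v5036 v5480 v5481 v3026 v5366 v5263 v4416 v5482 v5483 v1412 v503 v5484 w4877 v4846 w3540 w3166 v3024 v4420 w4909 v1150 v1149 w4872 v3447 v3453 v5269 v5486 w5195 w5193 v3406 v5548 w6491 v5550 v2632 v2631 w4854 v2750 w4318 v3389 v3367 v3404 v3416 v3435 v3431 v2719 v3452 v490 v3349 w3202 v4104 v325 w3171 w5445 w5442 w5807 v4563 w4933 v5393 v5037 v5038 v5374 v4098 v4099 v3934 v3935 v3399 v3400 v2641 v4591 v5188 v3824 v3825 w4481 w4958 w4301 w4774 v3823 v4797 w8701 v2950 v2949 v4796 v5208 v2836 v5204 w8834 w5392 w5341 v5574 v2859 w2847 w2848 v3019 v2804 v2805 w3426 w3411 v5538 v3234 v2375 v2384 v2386 v2387 v5526 w5706 w5297 w5306 v5564 v2489 v3605 v3390 v3461 w7771 w743 v4152 w8089 v3914 w4925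
theorem v5576 : PV l5576 := r5576 v5293 v5304
theorem v5577 : PV l5577 := r5577 v5475 v3929 v5479 v5036 v5480 v5481 v3026 v3024 w3166 v503 w3540 v4420 v4416 v4406 v4876 v5366 v4868 v5263 v5482 v5483 v1412 v5269 w4909 v5484 v1150 v1149 w4877 w4872 v4846 v3447 v3453 v5486 w5195 w5193 v3406 v5548 w6491 v5550 v5575 w5380 w4796 w4788 w4843 v5377 v5576
theorem v5578 : PV l5578 := r5578 v5036 v5475 v3929 v5479 v5480 v5481 v3026 v5577 v4413 v3371 v4403 v5368
theorem v5579 : PV l5579 := r5579 v3929 v4413 v4867 v4403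
theorem v5580 : PV l5580 := r5580 v481 w4726 v5303 v4223 v3816
theorem v5581 : PV l5581 := r5581 v5344 v485 v4220 v4237 v5039 v4798 v2641
theorem v5582 : PV l5582 := r5582 v4655 v2992 v5580 v5344 v5581 w4704 v4223 v3816
theorem v5583 : PV l5583 := r5583 v5274 v5270 v5582 v5037 v5038 v5374 v5377 v2641 v3935 v5188 v5208
theorem v5584 : PV l5584 := r5584 v5037 v4101 v1804
theorem v5585 : PV l5585 := r5585 v4655 v2987 v1412 v5274 v5273 v5272 v5271 v496 v501 v3929 v3383 v2838 w3563 v5583 v3223 v3119 v5584 v4156 v1590 w5445 w5443 w5475 v5433 v5438 v5223 v3501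
theorem v5586 : PV l5586 := r5586 v5226 v5410 v2675 v2682
theorem v5587 : PV l5587 := r5587 v5377 v5304
theorem v5588 : PV l5588 := r5588 v3934 v473 v5272 v5268 v5039 v5324 v2704 w6513 v5314 w4679
theorem v5589 : PV l5589 := r5589 v473 v5272 v3934 v3335 v5588 v4094 v2641 v4591 w8401 v3849 w4801
theorem v5590 : PV l5590 := r5590 v5268 v5589 v3486 v5344
theorem v5591 : PV l5591 := r5591 v5475 w3540 v3929 v5036 v5578 v498 v488 w4510 w4544 v5270 v5271 v5274 v4655 v1412 v2992 v2987 v2989 v2994 v2995 v2996 v3000 v5579 v4420 v4416 v5376 v5585 v3213 v5476 v3434 v3433 v4835 v4401 w4315 w4324 w4999 v4839 v4840 w4337 v2751 v3354 w3491 v3352 v5586 v2633 v2635 v5587 v5590 v5037 v5374 v4101 v5371 v2641 w4979 v3824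
theorem v5592 : PV l5592 := r5592 v3008 v2994 v2995 v5399 v5367 v3216
theorem v5593 : PV l5593 := r5593 v3929 v3216 v3217 v4879 v4881 v3458 v3422
theorem v5594 : PV l5594 := r5594 v5592 v4655 v428 w4513 w4512 v432 v1254 v5593 v427 w4509 w4510 v5112 v5035 v3929 v4882 v5367 v5401 v2922 v2815 v2794 v3405 v3372 v5387
theorem v5595 : PV l5595 := r5595 v3929 v3213 v5387 v5179 v4618 v4838
theorem v5596 : PV l5596 := r5596 v3929 v5179 w4315 v4838 v4618
theorem v5597 : PV l5597 := r5597 v5344 v3396 v3399 v3400 v3813 w8397 v4567 w8419 v2300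
theorem v5598 : PV l5598 := r5598 v5597 v5374 v3824
theorem v5599 : PV l5599 := r5599 v5587 w5380 w5363 w5362 w4498 v2629 v2630 v2631 v5598
theorem v5600 : PV l5600 := r5600 v5433 w4498 v2675 v4891 v2674 v4425
theorem v5601 : PV l5601 := r5601 v3929 v5475 w3540 v5591 v5035 v5592 v4655 v5113 v427 v428 v432 w4510 w4513 w4512 v1254 v1138 v5593 v5402 v2836 v5594 v3025 v4880 v5364 v5359 v4866 w2782 w3173 v2918 v2916 v4876 w2702 w3060 w2982 v2946 v2917 v5277 v5595 v5596 v4835 v4839 v4840 v5599 v3219 v5600 v481 v480 v5243 w5160 v5038 v3524 v3488 v4248 v4239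
theorem v5602 : PV l5602 := r5602 v390 v5038 v4239 v4222
theorem v5603 : PV l5603 := r5603 v5038 v390 v5602 v3488 v3510
theorem v5604 : PV l5604 := r5604 v481 v480 v5250 v5603 v5038 v4224 v5410 v4241 v2846
theorem v5605 : PV l5605 := r5605 v481 v480 v2744 v2750 v5250 v5603 v5038 v4618 v5178 v4967 v1412 w4896 w4255 v5604 v5270 v5271 v5404 v3473 v2682 v2668 v5230 v5246 v2994 v4880 v2928 v5036 w6368 v2533
theorem v5606 : PV l5606 := r5606 v3223 v2744 v2750 v481 v480 v5250 v5038 v5603 v5605 v1357 v5112 w2705 v4224 v5278 v5404 v5228 v3510 v1138 v2682 w5158 v2681 v4576 v2531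
theorem v5607 : PV l5607 := r5607 v3929 v4655 w2705 v2909 v1257 w4556 w3118 w4542 v4880 v5237 v3404 v5450 v4394
theorem v5608 : PV l5608 := r5608 w4910 v5269 v4156 v5372 v1590 w8751 v3377 w8724
theorem v5609 : PV l5609 := r5609 w3563 w3571 v5601 v5606 v2744 v4618 w4328 w4319 v2746 v3929 w5169 v3473 v1242 v5607 v4967 w4910 w4255 w5487 v5270 v5271 v5273 v5608 v4882 v4880
theorem v5610 : PV l5610 := r5610 v4882 v3411 w2766 v5363
theorem v5611 : PV l5611 := r5611 w3563 v5601 v2744 v4618 v2746 w4328 v3929 v5609 v3478 v3484 v1360 v1246 v5258 v5178 v4967 w4910 w4911 w4255 v5270 v5610 v5372 v3377 v5131 v4381 v5247 w2771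
theorem v5612 : PV l5612 := r5612 v473 v3223 v3934 v5433 v5403 v4615 v2695 v2705
theorem v5613 : PV l5613 := r5613 v5038 v5037 v476 v3219 v2846 v5467 v3530 v3505 v4662 w5168 w5165
theorem v5614 : PV l5614 := r5614 v5601 v2744 v2750 v4618 v5606 v5612 v5611 v5037 v3223 v473 v5613 v2674 v2528 v3392 v3219 v476 v3527 v5038 w3563 w3571 v2746 v4662 w5165 v4664 v3505 v3500 v5277 v1789 v3483 w2705 v5415 v3474 v4967 v2992 v4415 w4910 w4255 v5446 v4416
theorem v5615 : PV l5615 := r5615 v5601 v2744 v2750 v4618 v5606 v5612 v5611 v5037 v3223 v473 v5613 v2674 v2528 v3392 v3219 v476 v3527 v5038 w3563 w3571 w4328 w4319 v2745 v3929 v1242 v5614 v5442 v5208 v5035 v5274 v5178 w4509 v2901 v5607 v3403 v4848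
theorem v5616 : PV l5616 := r5616 v5601 v2744 v2750 v4618 v5606 v5612 v5611 v5037 v5038 v5613 v2674 v5615 w5169 w5168 v3483 v3501 v3505
theorem v5617 : PV l5617 := r5617 v476 v3219 w5168 w5167 v5438 v4800 v3501 v3519
theorem v5618 : PV l5618 := r5618 v3929 v4129 v4880 v627 v3119 v3368 v3385
theorem v5619 : PV l5619 := r5619 v5616 v2845 v390 v5601 v2744 v2750 v4618 v5606 v5612 v473 v476 v3223 v3219 v4619 v5039 v2674 v2528 v3527 v3501 v3392 v5208 v4800 v485 v3509 v3497 v5274 v4661 v3487 w4510 w4500 v3476 v3488 w5380 v5230 v2928 v5618 v5036 v5442 v5177 v2820 w6368 v2730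
theorem v5620 : PV l5620 := r5620 v5601 v2744 v4618 v2750 v5606 v476 v5612 v5616 v390 v2845 v5619 v5438 v485 v5603
theorem v5621 : PV l5621 := r5621 v5374 v5303 v5343 v3482
theorem v5622 : PV l5622 := r5622 v476 v3935 v2845 v390 v482 v5581 v5037 v5038 v3145 v4802 v4800
theorem v5623 : PV l5623 := r5623 v5622 v2845 v390 v5037 v5038 v4797 v2641 v2733 v4798
theorem v5624 : PV l5624 := r5624 v5620 v5601 v2744 v4619 v5621 v5623 v473 v476 v3399 v3396 v3935 v3934 v2845 v390 v2750 w4328 v5039 v4209 v2641 v4802 v4591 v2628 v5208 v5274 v1778 w4510 w4509 w4255 w4239 w4500 w5380 w4498 w4494 v1259 w5349 v3827 v2934 v3830 v3813 v667 w8419 v3126 v2316 v4156 w771 v3403 w8397 v3405 v4882 w3074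
theorem v5625 : PV l5625 := r5625 v5601 v2744 v4619 v5620 v5621 v3935 v3934 v2845 v390 v476 v473 v5622 v5623 v4223 v5624 v4240 v4237 v483 v2694 v4246 v4245 v2641 v4591 v5437 v4655 w2705 w4494 v5278 v3827 v3830
theorem v5626 : PV l5626 := r5626 v5620 v5601 v2744 v4619 v390 v5621 v5625 v481 v480 v5377 v5587 v4223 v2733 v4240
theorem v5627 : PV l5627 := r5627 v481 v5297 v5377 v5587 v5113 v4967 w4255 w4726 v5272 w4681 w4686 v5576
theorem v5628 : PV l5628 := r5628 v5601 v2744 v5627 w3563 v2746 v3929 v4967 w4910 w4255 w5487 v5270 v5271 v5272 v5273 w4697 v5394 v5608 v2987 v4882 v4880 v5588 v5315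
theorem v5629 : PV l5629 := r5629 v3935 v3934 v473 v476 v4802 v4589 v5324
theorem v5630 : PV l5630 := r5630 v3934 v5601 v2744 v4618 v5620 v5627 v473 v476 v5626 w3563 w3571 w4328 w4319 w5169 v1242 v5628 v4655 w2705 v5607 w4494 w4485 v5278 w2986 w2980 v3827 v3850 v5629 v5383 v4590 v2642
theorem v5631 : PV l5631 := r5631 v2846 v5383 v4238 v4623 v2642
theorem v5632 : PV l5632 := r5632 v5601 v2744 v4618 v5627 v476 v3935 v2641 v4802 v2628 v3934 v473 v4591 v3399 v3396 w4328 w4319 v4209 v4798 v4664 v5277 w2705 v4967 v2992 v2991 w4255 v5272 v5315 w4809 v2753 w4822 v3830 v3813 v5464 w8419 v3126 v2316 v4156 w771 v4860 w8397 w3095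
theorem v5633 : PV l5633 := r5633 v4655 w2996 w4498 v3814
theorem v5634 : PV l5634 := r5634 v5601 v2744 v4618 v5627 v5631 v3935 v3934 v473 v476 v2641 v4802 v4591 v5632 v5176 v4238 v4245
theorem v5635 : PV l5635 := r5635 v5601 v2744 v4618 v5620 v5627 v5626 v5630 v485 v482 v4221 v5631 v5633 v4967 v2987 v2988 w4255 v5270 v5272 v5634 v5588
theorem v5636 : PV l5636 := r5636 v5038 v485 v3146 v4798 v4623
theorem v5637 : PV l5637 := r5637 v3935 v483 v4798 v4664
theorem v5638 : PV l5638 := r5638 v667 v4559 v3126 v36 v3403 v4398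
theorem v5639 : PV l5639 := r5639 v4655 w4556 v2909 v4857 v3403
theorem v5640 : PV l5640 := r5640 v5601 v2744 v4618 v5620 v5627 v5626 v5635 v5308 v5037 v2641 v5636 w5169 v1242 v4796 w3563 v2807 v3934 v473 v4591 v476 v3935 v4802 v5038 v3929 v3339 v3338 v3396 w3571 w4328 w4319 w4986 v4655 v5112 w2705 v2909 v1257 w4544 w4556 v1789 w3118 w4542 w5346 w5347 v5637 v3147 w3497 v5638 v5639 v4415 v5450
theorem v5641 : PV l5641 := r5641 w4910 v5372 v3377
theorem v5642 : PV l5642 := r5642 v5601 v2744 v4618 v5620 v5627 v5626 w3563 v2746 w4328 v3929 v3396 v5635 v5037 v5308 v2641 v5636 v4796 v5259 v5640 v5178 v4967 w4910 w4255 w5487 v5461 v5641 v4136 v1779 w8704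
theorem v5643 : PV l5643 := r5643 v5268 v5276 w4255 v4967
theorem v5644 : PV l5644 := r5644 v5374 v3486
theorem v5645 : PV l5645 := r5645 v3356 v5366 v4838
theorem v5646 : PV l5646 := r5646 v5601 v2744 v4618 v4967 w4255 v5272 v2746 w4909 v3008 v5643 v3929 w3571 v5645 v3217 v5620 v5642 v5644
theorem v5647 : PV l5647 := r5647 v5601 v2744 v4618 v2746 v3929 v328 v3008 v4967 w4255 w4909 v5272 v5646 v5626 v3217 v5645 v3002 w2900 w2903 v4838 v5251
theorem v5648 : PV l5648 := r5648 v3217 v3929 v404 v2821 v3386 v5593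
theorem v5649 : PV l5649 := r5649 v5278 w4328 w4319 v2744 v2745 v3929 v3216 v3217 v5648 w3129 w3126 w3118 v4848 v4857 v4412 v3346
theorem v5650 : PV l5650 := r5650 v5601 w4328 w4319 v2744 v2750 v4618 v5643 v5647 v4655 v5112 w2705 v427 w4554 w4511 w4510 w4502 v5649 v5620 v5626 v5642 v5644
theorem v5651 : PV l5651 := r5651 v5208 v4248
theorem v5652 : PV l5652 := r5652 v3552 v3556
theorem v5653 : PV l5653 := r5653 v2598 v2602
theorem v5654 : PV l5654 := r5654 v5093 v5099
theorem v5655 : PV l5655 := r5655 v5064 v5065 v4740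
theorem v5656 : PV l5656 := r5656 v728 v4543
theorem v5657 : PV l5657 := r5657 v5047 v5656 v4995 v4047
theorem v5658 : PV l5658 := r5658 v5058 v4048 v4747
theorem v5659 : PV l5659 := r5659 v4526 v4049 v5014 v4008 v4986 v4696
theorem v5660 : PV l5660 := r5660 v2594 v2592
theorem v5661 : PV l5661 := r5661 v5660 v2588 v2590
theorem v5662 : PV l5662 := r5662 v2539 v4608
theorem v5663 : PV l5663 := r5663 v4598 v2559
theorem v5664 : PV l5664 := r5664 v2556 v5663 v2707 v4600 w8989 v2615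
theorem v5665 : PV l5665 := r5665 v5525 v2580 v2582
theorem v5666 : PV l5666 := r5666 v2584 v2586
theorem v5667 : PV l5667 := r5667 v1510 v5118 v2488
theorem v5668 : PV l5668 := r5668 v1103 w7895 w7981
theorem v5669 : PV l5669 := r5669 v650 w7981
theorem v5670 : PV l5670 := r5670 v2583 v5653
theorem v5671 : PV l5671 := r5671 w6090 w6074
theorem v5672 : PV l5672 := r5672 v4731 v4729
theorem v5673 : PV l5673 := r5673 v4728 v4725
theorem v5674 : PV l5674 := r5674 v4914 v4918
theorem v5675 : PV l5675 := r5675 v5672 v4735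
theorem v5676 : PV l5676 := r5676 v4025 v4038
theorem v5677 : PV l5677 := r5677 v4729 v4735
theorem v5678 : PV l5678 := r5678 v5676 v5677
theorem v5679 : PV l5679 := r5679 w6179 w6113
theorem v5680 : PV l5680 := r5680 v4580 v2393
theorem v5681 : PV l5681 := r5681 v3000 v4835 v5534 w5828 w5826 v4195 v3435
theorem v5682 : PV l5682 := r5682 v4418 v3807
theorem v5683 : PV l5683 := r5683 v4597 w5511 v2617 v2556 w9153 w9178
theorem v5684 : PV l5684 := r5684 w4345 v3785 v4838 v4872 v4839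
theorem v5685 : PV l5685 := r5685 v4838 v4839
theorem v5686 : PV l5686 := r5686 v4451 v4449
theorem v5687 : PV l5687 := r5687 w2717 v2966
theorem v5688 : PV l5688 := r5688 v3930 w4272 w4282 v4474 w4263 w7694
theorem v5689 : PV l5689 := r5689 v3930 v5687 v5688 v4476 w4270 w8027
theorem v5690 : PV l5690 := r5690 v3303 v4030 v2779 w2460 v4060
theorem v5691 : PV l5691 := r5691 v3303 w2460 v4028 v5068
theorem v5692 : PV l5692 := r5692 v3304 v3303 v3092 v4026 v3085 v1242 v4054 v1138 w3888 w6166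
theorem v5693 : PV l5693 := r5693 v3304 v3303 v5692 w2454 w2460 v4028 v5691 v5067 w6297 w3893
theorem v5694 : PV l5694 := r5694 v3304 v3303 w2454 w2460 v4032 v5068 v4060 w6034 w3906 w3891
theorem v5695 : PV l5695 := r5695 v3304 v3303 v5694 v3092 v3085 v4030 v1138 v4058 v1242 w3906 w5915 w3891
theorem v5696 : PV l5696 := r5696 v3303 v4026 v3085 v4054
theorem v5697 : PV l5697 := r5697 v3303 v5695 v5693 v2786 v5696 w2460 v4028 v4056
theorem v5698 : PV l5698 := r5698 v3308 v5697 v4027 w2474 w2464 w2460 w2454 v5034 v4056 w6034 w3881 w3891 v2789 w3870 v1268 v4087 v4019 v1412 w3947 v4995 w2494 v4994 v5113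
theorem v5699 : PV l5699 := r5699 w2460 w2454 v3308 v5698 v2784 v4060 w3860 w6297
theorem v5700 : PV l5700 := r5700 v5041 v4450 v4455 v3564
theorem v5701 : PV l5701 := r5701 v5041 v5700 v4806 v2961
theorem v5702 : PV l5702 := r5702 v4264 v3869 v4271
theorem v5703 : PV l5703 := r5703 v2959 w2938 v432 v1254 v5113 v5112 w4449 w4450 v5701 v5702 v3551 v4923 v3550
theorem v5704 : PV l5704 := r5704 v2561 v4595
theorem v5705 : PV l5705 := r5705 v1412 w4576 v5704 v4600 w6436
theorem v5706 : PV l5706 := r5706 v2603 v4610 w9178 v2556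
theorem v5707 : PV l5707 := r5707 v5113 v5112 v2615 v2618 v2713 w9033 w9122
theorem v5708 : PV l5708 := r5708 w7813 w7734
theorem v5709 : PV l5709 := r5709 v4419 v4883
theorem v5710 : PV l5710 := r5710 v2615 v2617 v2713 w9033 w9122
theorem v5711 : PV l5711 := r5711 w5511 v5552 v2596 v2713 v2603 w9147
theorem v5712 : PV l5712 := r5712 v5525 v2595 v2576
theorem v5713 : PV l5713 := r5713 w6150 w6280
theorem v5714 : PV l5714 := r5714 v5666 v5552
theorem v5715 : PV l5715 := r5715 v5666 v2602 w6584 w6769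
theorem v5716 : PV l5716 := r5716 v5113 v1357 v2791 v2596 w6732 v3320 w4037 v5713
theorem v5717 : PV l5717 := r5717 v5712 v5660
theorem v5718 : PV l5718 := r5718 w9045 w9177
theorem v5719 : PV l5719 := r5719 v4777 v4773
theorem v5720 : PV l5720 := r5720 v2590 v2544 v2615 w9045 w9177
theorem v5721 : PV l5721 := r5721 v2730 v2534
theorem v5722 : PV l5722 := r5722 v1412 w4576 w6436 v4595
theorem v5723 : PV l5723 := r5723 v3442 v3444
theorem v5724 : PV l5724 := r5724 v3804 v3806
theorem v5725 : PV l5725 := r5725 v4850 v4848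
theorem v5726 : PV l5726 := r5726 v4871 v4869
theorem v5727 : PV l5727 := r5727 v3351 v3353
theorem v5728 : PV l5728 := r5728 v606 w7710
theorem v5729 : PV l5729 := r5729 v5644 v5621
theorem v5730 : PV l5730 := r5730 v3476 v3481
theorem v5731 : PV l5731 := r5731 v390 v2845 v5242 v4616
theorem v5732 : PV l5732 := r5732 v3484 v3491
theorem v5733 : PV l5733 := r5733 v5039 v3509 v2674 v480
theorem v5734 : PV l5734 := r5734 w8021 w8291
theorem v5735 : PV l5735 := r5735 w5928 w6055
theorem v5736 : PV l5736 := r5736 v1138 v1242 w876 v5735 w4227 w6650 w6801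
theorem v5737 : PV l5737 := r5737 v3282 v5736 v3320 v5713 w4035 w6362 w6600
theorem v5738 : PV l5738 := r5738 w5948 v512
theorem v5739 : PV l5739 := r5739 w4227 w6252 w2572 w6113 w6584
theorem v5740 : PV l5740 := r5740 v4460 v4671
theorem v5741 : PV l5741 := r5741 w6802 w6526
theorem v5742 : PV l5742 := r5742 v5035 v5113 v4655 v5131 w4569 v3368 v3385
theorem v5743 : PV l5743 := r5743 v5034 w3895 w3954 w3948 v4057 v3991 v4059 v4704 v3986
theorem v5744 : PV l5744 := r5744 v2858 v3550 v3595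
theorem v5745 : PV l5745 := r5745 v4057 v4059
theorem v5746 : PV l5746 := r5746 v5267 w2444 v4039 w3911 v4038 v1267
theorem v5747 : PV l5747 := r5747 w3893 w3895 v702 v3311
theorem v5748 : PV l5748 := r5748 v3311 v3312 v1412 v427 w3944 v4006 v3298
theorem v5749 : PV l5749 := r5749 v5747 v5748 v3310 v3309 v2789 v5643 w5929 v706
theorem v5750 : PV l5750 := r5750 v2786 v4039 v4043 v5265 w2464 v3075 v1244 v4618 w3901 w6393 v702 v1412 v5275 v4967 w2705
theorem v5751 : PV l5751 := r5751 v4585 v4582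
theorem v5752 : PV l5752 := r5752 w4266 w4263 v4950 w2727 w2935 v4924 v3550
theorem v5753 : PV l5753 := r5753 w6173 w7673
theorem v5754 : PV l5754 := r5754 v728 v5749 v5058 v3303 v4722
theorem v5755 : PV l5755 := r5755 v702 v5275 v3008 v1357 v5269 v428 v1259 v5158 w2845 w852 v3294 v1244 v513 v4088 w2442 w2447 w2458 w2471 w2453 v465 v463 v3594 v5137 v5752 w2858 w3986 w7677 v4924 v4920 v5753 v2496 v2497 v728 v4008 v5754 w3922 w3910 v4714 v3305
theorem v5756 : PV l5756 := r5756 w852 v5042 v3294 v1244 v513 v702 v4088 w2442 w2447 w2458 w2471 w2453 v5269 w3943 v428 v3008 v1259 v1357 v5112 v1138 v5158 v5755 w4442 w4443 w4446 v2488 w5139 w4118 v5753 v2496 v2497 w6186 v728 v5754 w2629 w2630 v4008 w3922 w3910 v3907 v4945 v4714 v3604 v3305 v5172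
theorem v5757 : PV l5757 := r5757 v2776 w3913 v2788 v5643 w5929 v706
theorem v5758 : PV l5758 := r5758 v3303 v5044 v3309 v3310 v5757 v728 v4542 v4530 w2412 w2463 v3093 w5929 v2789 v702 v4088
theorem v5759 : PV l5759 := r5759 v728 v3303 v5044 v3309 v3310 v5757 v5758 w2449 v4543 v3081 v4531
theorem v5760 : PV l5760 := r5760 v702 w3894 v4088
theorem v5761 : PV l5761 := r5761 v3076 v5760 v4619 v684 v2779 v3309 v4038 v4069
theorem v5762 : PV l5762 := r5762 w2449 v3075 v3309 v5062 v4069 v3008 v4038 v5112 v2779 v2794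
theorem v5763 : PV l5763 := r5763 v5759 v5761 v3075 v5762 w3896 v684 v5044 v4070 w3902 v4039
theorem v5764 : PV l5764 := r5764 w7797 w7972
theorem v5765 : PV l5765 := r5765 v3235 v5276 v5269 v427 v5275 v5040 v3931 v5764 w4266 v607 w4430 w4433 v4924 v2968 v5137 w2858
theorem v5766 : PV l5766 := r5766 v2713 w9099 v2618 v2603
theorem v5767 : PV l5767 := r5767 v3369 v3377
theorem v5768 : PV l5768 := r5768 w9090 w9108
theorem v5769 : PV l5769 := r5769 v5519 w6353
theorem v5770 : PV l5770 := r5770 w8998 w9033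
theorem v5771 : PV l5771 := r5771 v2582 v2580
theorem v5772 : PV l5772 := r5772 v5112 v2791 v5771 w6498 w6560
theorem v5773 : PV l5773 := r5773 v5130 v5131 w2912 v4835
theorem v5774 : PV l5774 := r5774 v5571 v4597 v2616
theorem v5775 : PV l5775 := r5775 v4606 v4596
theorem v5776 : PV l5776 := r5776 v3797 v3794
theorem v5777 : PV l5777 := r5777 v4139 v4146
theorem v5778 : PV l5778 := r5778 v5519 v4604
theorem v5779 : PV l5779 := r5779 w6363 v4598
theorem v5780 : PV l5780 := r5780 v2713 v2596 w9147 v2604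
theorem v5781 : PV l5781 := r5781 v5663 v5779
theorem v5782 : PV l5782 := r5782 v2713 v2596 w8920 v2604
theorem v5783 : PV l5783 := r5783 w6644 w6663
theorem v5784 : PV l5784 := r5784 v3929 v5035 v4884 v4869 w2775
theorem v5785 : PV l5785 := r5785 v3927 v5036 v3804 w6726 w2772
theorem v5786 : PV l5786 := r5786 w5511 v5766 w9057 w9033
theorem v5787 : PV l5787 := r5787 w4576 v5781 v5519 v5778 w6342
theorem v5788 : PV l5788 := r5788 v5771 v5666
theorem v5789 : PV l5789 := r5789 v2730 v4198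
theorem v5790 : PV l5790 := r5790 v5782 v2556 v2602 w8898 v2615
theorem v5791 : PV l5791 := r5791 v3758 v3765
theorem v5792 : PV l5792 := r5792 v3216 v3775 v3777 w4310 w2757 w6726
theorem v5793 : PV l5793 := r5793 v3776 v3774
theorem v5794 : PV l5794 := r5794 v2927 v3807
theorem v5795 : PV l5795 := r5795 v4885 w4328 v5594
theorem v5796 : PV l5796 := r5796 v2747 w4317
theorem v5797 : PV l5797 := r5797 v5781 w6382 v2559 w6363
theorem v5798 : PV l5798 := r5798 v2916 v2917
theorem v5799 : PV l5799 := r5799 w6262 w6131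
theorem v5800 : PV l5800 := r5800 v5799 v4519 v4550 v3068
theorem v5801 : PV l5801 := r5801 v4541 v4044
theorem v5802 : PV l5802 := r5802 v5054 v4039
theorem v5803 : PV l5803 := r5803 v5278 v5277 v4736 v4733
theorem v5804 : PV l5804 := r5804 v5034 v4525 v4727 v4697 w2468 v4985 v4748 v5046
theorem v5805 : PV l5805 := r5805 v3303 v5016 v5027 v3085
theorem v5806 : PV l5806 := r5806 v4068 v4057
theorem v5807 : PV l5807 := r5807 v5677 v5803
theorem v5808 : PV l5808 := r5808 v5713 w6164 w6295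
theorem v5809 : PV l5809 := r5809 v728 v4045 v4052
theorem v5810 : PV l5810 := r5810 v4065 v3083
theorem v5811 : PV l5811 := r5811 v5112 v5810 v3043 v3281 v3974
theorem v5812 : PV l5812 := r5812 v3091 v4547 w5884 v5027
theorem v5813 : PV l5813 := r5813 v3303 v5028 v5016
theorem v5814 : PV l5814 := r5814 v702 v4002
theorem v5815 : PV l5815 := r5815 v4033 v4062 v4029 v4057
theorem v5816 : PV l5816 := r5816 v1357 v1316 v5048 v4754 v3085
theorem v5817 : PV l5817 := r5817 v4520 v4519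
theorem v5818 : PV l5818 := r5818 v3308 v5799 v5800 v4520 v4519
theorem v5819 : PV l5819 := r5819 v5799 v5817
theorem v5820 : PV l5820 := r5820 v4754 w6213 w2442
theorem v5821 : PV l5821 := r5821 v5112 v2794 w3888 v1357 v5820 v4760 w6192 w2442
theorem v5822 : PV l5822 := r5822 v5112 v2794 v5113 v1357 v1316 v5273 w3938 w3888 v5818 v3303 v5821 v5799 v4519 v5048 w2595
theorem v5823 : PV l5823 := r5823 v5061 v4547 w6015 w2442
theorem v5824 : PV l5824 := r5824 w2442 v5028 w5993
theorem v5825 : PV l5825 := r5825 w5915 w6564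
theorem v5826 : PV l5826 := r5826 v5825 w5929 w6547
theorem v5827 : PV l5827 := r5827 w5985 w5875
theorem v5828 : PV l5828 := r5828 v5034 v3308 v3304 w2458 w2447 w5863 v4017 v4745
theorem v5829 : PV l5829 := r5829 v2794 w3897 w3891 v2779 w3909 v5826 v3304 v3308 v5827 v5828 w5964 v4055 v3075 v4053 v4025
theorem v5830 : PV l5830 := r5830 v3304 v3308 v5815 v5802 v5814 v4074 v3068
theorem v5831 : PV l5831 := r5831 v3217 v3216 v5725 v4869 v4838 v5798
theorem v5832 : PV l5832 := r5832 v3216 v4655 v432 v1254 v1360 v5648 v3805 v4768 v3793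
theorem v5833 : PV l5833 := r5833 v3303 v5815
theorem v5834 : PV l5834 := r5834 v4655 v432 v1254 v1357 w3938 w3907 w3888 v5830 v702 v5833 v4058 v4060
theorem v5835 : PV l5835 := r5835 w3891 v2779 v5807 v3303 v3304 v5823 v5824 v5027
theorem v5836 : PV l5836 := r5836 v4655 v432 v1254 v1357 w3938 w3907 w3888 v5830 v702 w6297 v5833 w2442 v4058
theorem v5837 : PV l5837 := r5837 v5834 v5836
theorem v5838 : PV l5838 := r5838 v3308 v5823 v5824 v5027
theorem v5839 : PV l5839 := r5839 v4763 v5277 w3897 w3891 w3909 v5835 v5838 v3303 v5046 w2467 v5065 v4722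
theorem v5840 : PV l5840 := r5840 v4507 v4985
theorem v5841 : PV l5841 := r5841 v4740 v4745
theorem v5842 : PV l5842 := r5842 v3303 v5841 w2468 w3915 v5058 v4727
theorem v5843 : PV l5843 := r5843 v5112 v1357 v1316 v5842 v5053 v5046
theorem v5844 : PV l5844 := r5844 v3084 v4055 v5047
theorem v5845 : PV l5845 := r5845 v5034 v5028 v5021
theorem v5846 : PV l5846 := r5846 w3897 v5046 v3084 v5841 v4745 v4752 v5034
theorem v5847 : PV l5847 := r5847 v4006 v3298
theorem v5848 : PV l5848 := r5848 v2619 v4604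
theorem v5849 : PV l5849 := r5849 v5046 v5065 v4744
theorem v5850 : PV l5850 := r5850 v3303 v5676 v3075 v4042 v4062
theorem v5851 : PV l5851 := r5851 v3308 v3216 v3929 v2924 w2781 v5682 v5035 v3410 v4851 v501 v2907 w2776 v4837 v3387 v5847 v4058 w6297 w2442
theorem v5852 : PV l5852 := r5852 v3308 v4058 w6297 w2442
theorem v5853 : PV l5853 := r5853 w3890 w3896 v3308 v5852 v513 v5748 w2442
theorem v5854 : PV l5854 := r5854 v3308 v4655 v428 w3945 w3952 v427 w3938 v432 v1254 v5113 w3896 v5853 w2705 v5275 v5847 v5034 v4058 v3993 v3084 v4994 v4051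
theorem v5855 : PV l5855 := r5855 v4883 v4417
theorem v5856 : PV l5856 := r5856 v5854 w3907 v4655 v428 v1218 v3308 w3945 w3952 v427 w3938 v432 v1254 v5113 v3216 w2705 v5275 v5847 v5034 v4058 v3993 v3084 v3086 v3085 v4994 v4032 v4031 v4051 v4021 v684 v4023 w6297 w2443 v5855 v5135 v5851
theorem v5857 : PV l5857 := r5857 v3308 v4655 v432 v1254 v5112 v5856 v2794 w3888 v5852 v5044 v513 v5748 w2442
theorem v5858 : PV l5858 := r5858 v3308 v5044 v513 v5748 w2442
theorem v5859 : PV l5859 := r5859 v4058 v4060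
theorem v5860 : PV l5860 := r5860 v4655 v427 w3938 v432 v1254 v3308 v5857 v5859 v5044 v4006 v5748 w2488 v5847 v5275
theorem v5861 : PV l5861 := r5861 v4006 v5847 w2488 v5275
theorem v5862 : PV l5862 := r5862 v4042 v4043
theorem v5863 : PV l5863 := r5863 v3303 v4074 v5861 v5862 v5266 w5985 v712
theorem v5864 : PV l5864 := r5864 v3303 v706 v5746 v713 v3995 v5065
theorem v5865 : PV l5865 := r5865 v5682 v4886
theorem v5866 : PV l5866 := r5866 w9033 w9057
theorem v5867 : PV l5867 := r5867 w6226 w6090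
theorem v5868 : PV l5868 := r5868 v4603 v4600 w4571 w6526
theorem v5869 : PV l5869 := r5869 w6129 w6261
theorem v5870 : PV l5870 := r5870 w7909 w7740
theorem v5871 : PV l5871 := r5871 v5870 w7949 w7777
theorem v5872 : PV l5872 := r5872 w7856 w7694
theorem v5873 : PV l5873 := r5873 w7818 v598
theorem v5874 : PV l5874 := r5874 v5871 v5872 v5873
theorem v5875 : PV l5875 := r5875 v4476 w2848 v3584 v3583
theorem v5876 : PV l5876 := r5876 v5275 v4939 v3585 w2854
theorem v5877 : PV l5877 := r5877 v3234 v5275 v5876 v4471 v3584 w2848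
theorem v5878 : PV l5878 := r5878 w4264 w4262 w4431 w4922 v5877 v639 v3911 w3155
theorem v5879 : PV l5879 := r5879 v4655 v432 v1254 v427 v5765 v2387 v5878 w7757 w6577
theorem v5880 : PV l5880 := r5880 w7677 w7835
theorem v5881 : PV l5881 := r5881 w8217 w8053
theorem v5882 : PV l5882 := r5882 v4655 v432 v1254 v427 w4264 w4262 w4431 v5877
theorem v5883 : PV l5883 := r5883 v3930 v5112 v5042 v5765 v4955 v4952
theorem v5884 : PV l5884 := r5884 v3930 v4655 v432 v1254 v1138 v1242 v5882 w4270 v5883 w7949 w7777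
theorem v5885 : PV l5885 := r5885 v5042 v4655 v432 v1254 v1138 v1242 v5113 v3234 v5680 w2845 v4581 w8075 w7740 w4444 w5139 v3605 v3892 w2854 v4290 v3177
theorem v5886 : PV l5886 := r5886 v5042 v5113 v5112 v4300 v2965 v4289 w2848
theorem v5887 : PV l5887 := r5887 v5113 v5042 v4093 v5885 v5751 v5873 v461 v464 v4584 w5434 w4262 v2802 w8090 v5886 v3176 v5875 v3609
theorem v5888 : PV l5888 := r5888 v5876 v3609
theorem v5889 : PV l5889 := r5889 v5275 v5113 v1357 v4584 v5888 v4300 v4811 w2848 v4809 v3910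
theorem v5890 : PV l5890 := r5890 v3910 w2848 v4813 v4811
theorem v5891 : PV l5891 := r5891 v5275 v4655 v432 v1254 v427 v1357 w4264 w4262 w4441 w4429 w4431 v5889 v5158 v2492 v5890 v5876 v3610
theorem v5892 : PV l5892 := r5892 v1316 v5891 v5873 v5880
theorem v5893 : PV l5893 := r5893 v5873 v5880
theorem v5894 : PV l5894 := r5894 v5374 v5460 v3490
theorem v5895 : PV l5895 := r5895 v5038 v5374 v5894 v390 v2845 v5733
theorem v5896 : PV l5896 := r5896 v5276 v5113 v5644 v5587 v5344
theorem v5897 : PV l5897 := r5897 v3223 v473 v5467 v2674 v2529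
theorem v5898 : PV l5898 := r5898 v1590 w8788
theorem v5899 : PV l5899 := r5899 v667 w9006
theorem v5900 : PV l5900 := r5900 v5894 v5895 v3480 v3487
theorem v5901 : PV l5901 := r5901 v5038 v5037 v5900 v5731 v4660 v4659
theorem v5902 : PV l5902 := r5902 v5038 v5037 v1360 v5900 v5901 v5731 w2996 v4641 v4642
theorem v5903 : PV l5903 := r5903 v5113 v5037 v5902 v5587 v5374 v5191
theorem v5904 : PV l5904 := r5904 v5113 v5587 v5896 v5191 v5324
theorem v5905 : PV l5905 := r5905 v5433 v2695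
theorem v5906 : PV l5906 := r5906 v1357 v1316 v5039 v5905 v481 v480 v4224 v5603
theorem v5907 : PV l5907 := r5907 v5906 v3934 v3223 v4655 v432 v1254 v1138 v5112 v1357 v481 w5158 v4224 v4576 v2845
theorem v5908 : PV l5908 := r5908 v5906 v5907 v5433 v4615
theorem v5909 : PV l5909 := r5909 v5467 v2674
theorem v5910 : PV l5910 := r5910 v3219 v4655 v432 v1254 v1138 v5112 v5909 w5159 v2684 v4633 v3532 v2681
theorem v5911 : PV l5911 := r5911 v5039 v481 v480 v2682 v3488 v5228 v2846
theorem v5912 : PV l5912 := r5912 v5903 v5904 v3119 v5908 v5910 v5911 w5376 v5467 v5897 v2808 v3392 v667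
theorem v5913 : PV l5913 := r5913 v3119 v5908 v5910 v5911 w5376 v5467 v5897 v2808 v3392 v667
theorem v5914 : PV l5914 := r5914 v5113 v5902 v5587 v5374 v5623 v5636 v4796
theorem v5915 : PV l5915 := r5915 v3303 v4655 v428 w3945 v427 w3938 v5276 v5113 v1360 v3216 v3929 v5863 v3056 v4071 v4070 v5864 v3067 v4002 v5847 v5750 v3299 v5275 v4088 w2496 v4039 w3907 v5676 v4041 v1267 v5865 v4883 v5709 w2775 v5855 w2762 w2899 v4407 v4837 v3409 v501 v3367 v3404 v3416 v5912 v5914 v4156 v5913 v2630 v5587 v5896 w5376 v5324 v3396 v2642 w8419 v2808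
theorem v5916 : PV l5916 := r5916 v4156 v5896 v3396 v5113 v5587 v2630 v3409 v3404 w5376 w8419 v2813 w8563 v5633
theorem v5917 : PV l5917 := r5917 v4035 v4025
theorem v5918 : PV l5918 := r5918 v5896 v3399 v4655 v5113 v5587 w4498 v2631 v3303 v3216 v4883 v5855 v4401 v4157 v5916 v5917 v5833 v4031 v4029 v3810 v3414 w2996 w3095 v4220 w8722 w5485
theorem v5919 : PV l5919 := r5919 v5896 v5113 v5587 v5034 v5112 v5324 v5904 v4129 v1245 w8546 w3563 v4220 v4223 v5917 v4031 w3919 v4029 w2475 v4727 v4020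
theorem v5920 : PV l5920 := r5920 v5896 v3396 v5113 v5587 v2630 v3303 v1360 v3216 v3929 v5918 v5682 v5865 v5035 v4862 v4885 v4851 v2909 w2779 v2907 v3410 v3405 w5376 v5919 v5815 v5850
theorem v5921 : PV l5921 := r5921 w8848 w8560
theorem v5922 : PV l5922 := r5922 v5034 v4234 v4525 w4019 v4655 v432 w3964 w3978 w3969 v5113 v3216 v3929 v2629 w1726 v5587 v5896 w4498 w4131 v3400 v3821 v5920 v4059 v5745 v3811 w6246 v3043 v4064 v3971 v3977 v3953 v3284 v5921 w3187 w3191 w2684 v5855 v4407 w6147 v4116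
theorem v5923 : PV l5923 := r5923 v5906 v5907 v5908 v5186
theorem v5924 : PV l5924 := r5924 v5113 v490 v4655 w4544 v4883 v4157 v5855 v5709 v5923 v3223 v3219 v432 v1254 w4549 w4566 v428 v3929 v476 w4462 w4458 w4479 v5467 v5909 v2675 v5039 v4909 v3528 v3855 v3836 v3838 v3397 v2951 v2952 w3056 v2916 w2762 v3502 v4245 v4407 v4837 w5464 v4248 v3118 w8624
theorem v5925 : PV l5925 := r5925 v480 v5039 v5911 v5434 v3510
theorem v5926 : PV l5926 := r5926 v5923 v490 v4655 w4544 v5113 v3025 v5709 v5924 v480 v5925 v5910 v5745 v2681 v5244 v2846 v5434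
theorem v5927 : PV l5927 := r5927 v3219 v5434 v2846 v3524 v4633
theorem v5928 : PV l5928 := r5928 v5923 v3219 v4655 v432 v1254 v1138 v5112 v480 w5159 w5160 v5925 v5927 v5240 v5244 v4633 v3532
theorem v5929 : PV l5929 := r5929 v473 v3223 v4129 v5909 v2674 w8464 v2530 v3392
theorem v5930 : PV l5930 := r5930 v3452 v3453 v4655 w4566 v490 w4544 w4549 w4560 v5860 v5915 w4554 v5113 v1360 v3216 v3929 v4183 v5922 v5923 v5926 v5682 v5865 v5035 v4862 v4885 v4851 v2909 v2907 w2776 v3410 v4837 v501 v3415 v3370 v3119 v5928 w4498 w5376 v4891 w3194 v5929 v2679 v2675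
theorem v5931 : PV l5931 := r5931 v5910 v5909 v5745 v5244
theorem v5932 : PV l5932 := r5932 v3219 v5038 v5037 v4655 v432 v1254 v1138 v5112 w5159 v5240 v5244 v4633 v3532
theorem v5933 : PV l5933 := r5933 v5038 v5037 v5860 v5113 v3216 v3929 v5931 v5709 v5682 v5035 v4862 v4885 v4136 v4851 v2909 v2907 w2776 v3410 v4837 v501 v3370 v3119 v5932 w5376 v5929 v1594
theorem v5934 : PV l5934 := r5934 v5433 v5186 v4615
theorem v5935 : PV l5935 := r5935 v5038 v5037 v4655 v432 v1254 v1138 v5112 v3223 v5933 v3934 v5731 v5934 v481 w5158 v4659 v4576 v2526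
theorem v5936 : PV l5936 := r5936 v4883 v4135 w3172 w8834
theorem v5937 : PV l5937 := r5937 v3303 v3216 v3929 w3182 w3204 w3564 v4407 v4837 v3409 v501 v3416 v3389 v4031 v4029 v4057 v3085 v5266 v2794 w3888 w6297 w6227
theorem v5938 : PV l5938 := r5938 v490 v4655 w4549 w4544 w4554 w4560 w4566 v430 v428 v5113 v5112 v1357 v3453 v3452 v3216 v3929 v5860 v3303 v5915 v5930 v5037 v5038 v5935 v2631 v5587 v5374 v5308 v476 v473 v5623 w4462 v3934 v3935 v3399 v2641 w2996 v4802 v4591 v5636 v4796 v4970 w2982 w2989 v4647 v5637 w5464 v5936 v5682 v4417 v5917 v5937 w8834 v4099 v4407 v5798 v5247 v4376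
theorem v5939 : PV l5939 := r5939 v3929 v4407 v5798 v5247 v4376
theorem v5940 : PV l5940 := r5940 v3303 v5917 w3906 w3897 v5655 v5047
theorem v5941 : PV l5941 := r5941 v4655 v432 v1254 v1138 v1242 v5112 w3906 v2779 v1245 w3891 v2794 v5697 w5915 v4031 v3092
theorem v5942 : PV l5942 := r5942 v4655 v432 v1254 v1138 v1242 v5113 v1316 v5034 v4525 v5940 v3308 v5941 v5917 v4026 v4028 v4056 v3043 v3056 v5267 v5265 v3974 w5915 w4109 v2789 v4994 w3895 v4045
theorem v5943 : PV l5943 := r5943 v3308 v3083 v5847 v3068 v3309 v3297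
theorem v5944 : PV l5944 := r5944 v5038 v5037 v490 v4655 w4549 w4544 w4566 v430 v428 v5113 v5112 v1360 v1357 v3216 v3929 v2630 v2631 v5587 v5374 v5308 v476 v473 v5623 w4498 w4462 v3934 v3935 v3396 v3399 v2640 v2641 w3464 w2996 v4802 v4591 v5636 v3218 v4795 v4796 v4970 w2982 v4647 v4444 v5637 w5464 v5936 v5682 v4419 v4417 v5939 v4101 v4099 w8834 w3764 w3204 w3564 w8704 v4837 v3409 w5487 v3416 v3367 v5942 v5943 v3303 v5862 v5802 v5676
theorem v5945 : PV l5945 := r5945 v3223 v5038 v5037 v4655 v432 v1254 v1138 v5112 v3934 v5731 v5934 v481 w5158 v4659 v4576 v2526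
theorem v5946 : PV l5946 := r5946 v4655 v5037 v5944 v5945 v5932 w4498 v5909 v2674 v4426 v2932
theorem v5947 : PV l5947 := r5947 v4655 v428 w4458 v473 v476 v3223 v3219 v432 v1254 v490 w4544 v5113 v5909 v2674 v5709 v2846 v2953 w3542 v3530 v2530 v2525 v5682 v3397 v3855 v4885 v4132 v3505 v4664 w5464 v4662 w8834 w8773
theorem v5948 : PV l5948 := r5948 v5896 v490 v4655 w4544 v430 v1360 v5947 v2679 v2675 v4971 v5865 v5924
theorem v5949 : PV l5949 := r5949 v3219 v4633 v3532 v2681
theorem v5950 : PV l5950 := r5950 v4655 v432 v1254 v1138 v5112 v5896 v5948 v480 w5159 v5925 v5949 v2846 v5240 v5434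
theorem v5951 : PV l5951 := r5951 v4655 v428 v5113 v5923 v5587 w4462 v473 v3934 v432 v1254 v2642 v2948 v4590 v3850
theorem v5952 : PV l5952 := r5952 v3935 v4240 v4245 v483
theorem v5953 : PV l5953 := r5953 v4883 w3074 v4157 w8722
theorem v5954 : PV l5954 := r5954 v4655 v432 v5113 v5946 v5923 v5587 w4484 v428 w4462 w4498 v473 v476 v2631 v3216 v2629 v3929 v3339 v3400 v3399 v3935 v3934 v1254 v490 w4544 w4554 w4560 v5112 v1316 v5951 v2641 v4802 v4591 v3827 v3850 v2935 v3830 v3829 v1218 w2982 v5622 v4223 w5473 v4218 w8848 v5952 v4798 w5464 v5953 v5682 v5135 v2924 w3187 v5035 v4862 v4128 v3410 v3811 v4851 v501 w5373 v2907 w3092 w8400 v2794 v2634 w3895 v3370 v3387 v5942 v5943 v5655 v5047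
theorem v5955 : PV l5955 := r5955 v4655 v432 v1254 v428 v5276 v5113 v3453 v3452 v3216 v5938 v5946 v4183 v5950 v3934 v3935 v5923 v5587 v476 v473 w4458 v5954 v5039 v5324 v5383 v4254 v2704 v2702 v2703 v3855 v5314 v1218 v2952 v4225 v5952 v4223
theorem v5956 : PV l5956 := r5956 v5655 v5047
theorem v5957 : PV l5957 := r5957 v3308 w2449 w2447 v4548 w6281 w6015
theorem v5958 : PV l5958 := r5958 v4763 v5957 w2467 v4542 v5012 v5048 v5678
theorem v5959 : PV l5959 := r5959 v1245 w3906 w3895 w3909 v5956 v5958 v5027 w2461 v4736 v5016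
theorem v5960 : PV l5960 := r5960 v4655 w3969 v4763 v5113 v4525 v5030 v4985 v3043
theorem v5961 : PV l5961 := r5961 v3308 v5960 v4549 w6281 w2442
theorem v5962 : PV l5962 := r5962 v3303 v5048 v5677 w2461 v4731 v4754
theorem v5963 : PV l5963 := r5963 v4655 v432 v5113 v5923 v5587 w4484 v428 w4462 w4498 v2631 v3216 v2629 v3400 v3399 v3935 v1254 w4544 v5112 v1357 v1316 v3929 v3222 v3827 v3850 v2936 v2935 v3830 v3829 v1218 w2982 v5622 v4223 w5473 v4218 v5952 w8848 v5039 v4800 v2641 w5457 v5953 v5682 v5865 v5135 v2924 w3187 v5035 v4862 v3410 v3813 v4851 v501 v3405 w2779 v2907 w2776 v1245 v2794 v4837 v3370 v5959 w3890 v5961 v3303 v5962 v4760 v4761 w2461 v4736 v4738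
theorem v5964 : PV l5964 := r5964 v4763 v5034 v4760 v4761 v4704 v5053 v4999 v710 w5937 w6192
theorem v5965 : PV l5965 := r5965 v4655 v428 w3945 w3952 v5113 v5112 v1357 v1316 v3303 v5956 v5964 v5048 v5677 v4731 v5816 v4754 v2794 w2442 w3888 w6213 w6281
theorem v5966 : PV l5966 := r5966 v4763 w2442 v5266 v710 v3076 v5048 v4545 v5656 v2785 w3913 v4531
theorem v5967 : PV l5967 := r5967 v3308 v4763 v5817 v4520 v4549 v316 v4994 v5966 w6281 v684 w3888 v4545 v2794 v3084
theorem v5968 : PV l5968 := r5968 v4655 w3952 v427 w3938 v5113 v5112 v1357 v1316 v3308 v5967 v5960 v5003 v5004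
theorem v5969 : PV l5969 := r5969 v1789 w3888 v4087 v4763 v5034 v4760 v4761 w2442 v4704 w6192 v4999
theorem v5970 : PV l5970 := r5970 v5277 w2897 v5969 v5962 w2702 w2765 v4970 v5682 v4885
theorem v5971 : PV l5971 := r5971 v5968 v4655 v428 w3945 w3952 v4763 v430 v5113 v5112 v1357 v1316 v3929 v5970 v5965 v5709 v5682 v5035 v4885 v4872 w2769 v5962 v5964 v5655 v5046
theorem v5972 : PV l5972 := r5972 v4763 v5034 v5964 v5065 v5046
theorem v5973 : PV l5973 := r5973 v4763 v4709 v4702 v4999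
theorem v5974 : PV l5974 := r5974 v5968 v3303 v4655 v428 w3945 w3952 v427 w3938 v5113 v5112 v1357 v1316 v5048 v3069 v3059 v5973 v5816 v4754 v2794 w2442 w3888 w6213 w6281
theorem v5975 : PV l5975 := r5975 v4655 v428 v5113 v5112 v1357 v1316 w3952 w3945 v5968 v5971 v1217 v5974 v5969 v5972
theorem v5976 : PV l5976 := r5976 v4763 w3906 v2779 v5846 v2794
theorem v5977 : PV l5977 := r5977 v4736 v4735
theorem v5978 : PV l5978 := r5978 v3303 v5976 v5977 v4733 v4757 v5677 v4752
theorem v5979 : PV l5979 := r5979 v5113 v5923 v5587 v476 v3935 v5951 v2641 v4802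
theorem v5980 : PV l5980 := r5980 v3935 v5113 v4183 v5923 v5587 v476 v5963 v5979 v5324 v5383 v4254
theorem v5981 : PV l5981 := r5981 w3906 v2779 w3891 v2794 w5897 v3092
theorem v5982 : PV l5982 := r5982 v5981 v4533 v5677
theorem v5983 : PV l5983 := r5983 v3308 v4763 v5113 v5112 v1357 v1316 v4655 v5982 v5048 v4536 v4534 v4548 v3056 v5267 v5265 w5897 w3943 v2789 v4999 w3895 v4542
theorem v5984 : PV l5984 := r5984 v5027 v4763 w3897 v1245 v5845 w2450
theorem v5985 : PV l5985 := r5985 v4655 v432 v1254 v490 w4549 w4544 w4554 w4560 w4566 v430 v5113 v5112 v1357 v1316 v3216 v3929 v3935 v3396 v3399 v5980 v5037 v5038 v5945 v2630 v2631 v5587 v5308 v476 v5623 w4484 v2641 w2996 w3464 v5636 v4802 v4796 v4970 w2989 w2982 v4644 v5978 v5637 w5464 v5936 v5682 v4417 v5939 v4101 v4099 w8834 w3764 w3564 w3204 w8704 v3409 v4837 w5487 v3404 v3367 v5983 v5027 v5984 v1268 w3906 v5977 v5813 w2461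
theorem v5986 : PV l5986 := r5986 v5950 v5037 v5374 v5932 v5947
theorem v5987 : PV l5987 := r5987 v3453 v3452 v490 v3216 v4655 w4544 w4549 v5955 v5975 v5985 v5986
theorem v5988 : PV l5988 := r5988 v3219 v476 v5225 v5224 w3540
theorem v5989 : PV l5989 := r5989 v480 v2846 v5240 v5434
theorem v5990 : PV l5990 := r5990 v3223 v3219 v3518 v5437 v4245
theorem v5991 : PV l5991 := r5991 v5989 v2990 v480 v3219 v3008 v4970 v3030 v430 v4180 v5434 v2809 v5990 w4720 w5456 v3524 v3840 v33
theorem v5992 : PV l5992 := r5992 v5007 v5002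
theorem v5993 : PV l5993 := r5993 v5992 w5897 w6575
theorem v5994 : PV l5994 := r5994 v3119 v3116 v3929 v3394 v3395 v1779 w8609 v3374 w5449 w4860 v3423 v1217 v5678 v4730 v3075 v4759
theorem v5995 : PV l5995 := r5995 v3115 v3223 v3219 v3008 v4970 v430 v1412 w4065 v3030 v3029 v4129 v4128 v5988 v481 v480 w4726 v5989 v2988 v2992 v2681 v2807 v2808 v4427 v3488 v3491 v5991 v5238 v3509 v3512 v5993 v3304 v3308 v5994 v4446 v3525 w4687 w5160 v1217 v1137 v5678 v4730 v3075 v4759
theorem v5996 : PV l5996 := r5996 v5995 v5037 v5925 v2675 v2679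
theorem v5997 : PV l5997 := r5997 v5374 v5344 v3486 v5343 v482 v485 v476 v2846 v2680 v3531 v3153 v3508
theorem v5998 : PV l5998 := r5998 v3000 v2995 v2994 v3008 v3216 v3929 v5682 v5865 v5035 v4137 v4885 v4970 v4872 v430 v3029 w4865 w4322 v5796 v2747 v1412 v3410 w3891 v4835 v2779 v4087 v3408 v3411 v5996 v2630 v5587 v5374 v5348 v5343 v476 v5344 v2688 v2299 v3486 v5268 v3384 w4470 w4461 w4481 w5381 v4895 w2733 w2740 v4908 v4902 v2338 v5997 v2676 v2807 v2808 v3529 w8432 w8400 v3394 v5373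
theorem v5999 : PV l5999 := r5999 v2631 v5374 v5337 v4157 v5303 v482 v5344 v3486 v5268 v2772 w4455 w4509 v2744 w4791 v3406 v5601 v643 v2814 v2252
theorem v6000 : PV l6000 := r6000 v476 v3219 v5988 v5224 v5175 v5601 v5411 v2744
theorem v6001 : PV l6001 := r6001 v473 v476 v3223 v2987 v5225 v2675 v5039 v2529 w6513 w4679 w4680 v5198 v5438
theorem v6002 : PV l6002 := r6002 v3219 v476 v6000 v3406 w4509 v6001 v5175 v5467 v2848 v3530
theorem v6003 : PV l6003 := r6003 v5987 v2994 v3453 v490 v3216 w4544 w4531 w4516 w4528 v1412 v5269 v3006 v3007 v1145 v4882 v5230 v4420 v5999 v6002 v5989 v2682 v2681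
theorem v6004 : PV l6004 := r6004 v4133 v3119 v3219 v3929 w4884 w4707 v3374 v4437 w8608 v3394
theorem v6005 : PV l6005 := r6005 w5936 w5963
theorem v6006 : PV l6006 := r6006 v2707 v5788 v5711
theorem v6007 : PV l6007 := r6007 v5778 v5663
theorem v6008 : PV l6008 := r6008 v2544 v6007 w5511 v5866 v2713 v4602 v2618
theorem v6009 : PV l6009 := r6009 w5511 v5683 v5706
theorem v6010 : PV l6010 := r6010 v5035 v4084 v6008 v2707 v6009 w5824 v5534
theorem v6011 : PV l6011 := r6011 v5665 v2578 v2576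
theorem v6012 : PV l6012 := r6012 v2585 v5528
theorem v6013 : PV l6013 := r6013 v1412 w8785 v3465 v6010 v2571 v6006 w2924 v6011 w5099 v6012 v2579 v2590
theorem v6014 : PV l6014 := r6014 v1412 w2924 v6011 w5099 v6012 v2579 v2590
theorem v6015 : PV l6015 := r6015 v2571 v6014 v2707 v5714 v5788 v2713 w5511 w9132 w9147
theorem v6016 : PV l6016 := r6016 w5406 v5683 v4610 v2710 v2555 w8866
theorem v6017 : PV l6017 := r6017 v3933 v4183 w5444 v3117 v1412 v5035 v6013 v6015 v4084 v4082 v6008 v2707 v2708 v6016 w5824 w5730 v5555 v24 v2710 w8579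
theorem v6018 : PV l6018 := r6018 v2707 v5681 v6009
theorem v6019 : PV l6019 := r6019 w5511 v5866 v2713 v4602 v2618
theorem v6020 : PV l6020 := r6020 v3000 v5035 v4835 v328 v4084 v6018 v2544 w2924 v6019 w4571 v5778 v5797
theorem v6021 : PV l6021 := r6021 v3000 v5035 v4835 v1412 v328 w8924 v3465 v6020 v2571 v6014 v6015 v6006
theorem v6022 : PV l6022 := r6022 v2555 v2561 w8579 v2710
theorem v6023 : PV l6023 := r6023 w4726 v5989 v2992 v4427 v4183 v2682 v2668 v2808 w5444 v3000 v5035 v3929 v4835 v3119 v3118 v3117 v1412 v328 v3933 v3394 v3397 w9019 v1779 w8773 w8934 v5949 v6021 v6013 v6017 v6015 v4084 v4082 v6008 v2707 v2708 v6016 w5824 w5730 v6022 v2713 v4606 w8947 v2615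
theorem v6024 : PV l6024 := r6024 w4571 w5824 v5555 v20 v2713 v5741 w6700
theorem v6025 : PV l6025 := r6025 w5511 v5683 v4610 v2556 w9153 w9178
theorem v6026 : PV l6026 := r6026 v5842 v3100 w2570 w6211 v5867
theorem v6027 : PV l6027 := r6027 v4763 v6025 w4139 w5824 v5555 v4601 v3321 v5741 v6026
theorem v6028 : PV l6028 := r6028 v4710 w6281
theorem v6029 : PV l6029 := r6029 v6028 v4761 v6025 v6027 w5824 v2713 v20
theorem v6030 : PV l6030 := r6030 v4763 v5842 w2449 w2447 w2491 v6029 v6024 v4755 v6025 v4761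
theorem v6031 : PV l6031 := r6031 v4755 v4761
theorem v6032 : PV l6032 := r6032 v3303 v4756 v3075 v4737
theorem v6033 : PV l6033 := r6033 v6024 v6031 v6025
theorem v6034 : PV l6034 := r6034 v4970 v430 v1412 v3029 v3303 v6030 v6032 w2489 w2442 v6033 v6028 v4761 v4737 v4738
theorem v6035 : PV l6035 := r6035 v4763 v3308 v5817 w6131 v5034 v5030 v713 v5051 v5026
theorem v6036 : PV l6036 := r6036 v4756 v6032 v4760
theorem v6037 : PV l6037 := r6037 v2707 v6034
theorem v6038 : PV l6038 := r6038 w4571 v5778 v5797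
theorem v6039 : PV l6039 := r6039 v4602 v2618
theorem v6040 : PV l6040 := r6040 v4970 v430 v5035 v4084 v6037 v2544 w2924 v6038 w5099 v6019 v6039 v2539 w6585
theorem v6041 : PV l6041 := r6041 v4755 v4710 w6281
theorem v6042 : PV l6042 := r6042 v3000 v5035 v3008 v4970 v3029 v3929 v4835 v3115 v5991 v5244 v430 w4726 v5989 v2992 v4427 v481 v480 v3509 v390 v3473 v5239 v1244 v3512 v2835 v2836 v3030 v2682 v2668 v5238 v4133 v4132 v3219 v4763 v328 v6023 v3525 v3522 v3517 v6035 v3303 v6036 v3089 w2489 w2442 v6040 v6041 v5034 v4086 v4761 v4762 v4706 v4738 v4704 v6014 v4739 v5714 v5788 v6015 v2596 v3282 w5096 v3321 w6014 w5895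
theorem v6043 : PV l6043 := r6043 v5714 v5788 v2596 v3282 w5096 v3321 w6014 w5895
theorem v6044 : PV l6044 := r6044 v2544 w2924 v6019 v6038
theorem v6045 : PV l6045 := r6045 v2713 v20 w8947 v4606 v2615
theorem v6046 : PV l6046 := r6046 v4084 v6044 v2707 v6025 w5824 v6045 v2561 v4600
theorem v6047 : PV l6047 := r6047 v2707 v5714 v5788 v2713 w5511 w9132 w9147
theorem v6048 : PV l6048 := r6048 w2463 w2449 v5655 v5842 w3915 v4747 v5058
theorem v6049 : PV l6049 := r6049 v2713 v2590 v5720 v2588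
theorem v6050 : PV l6050 := r6050 v5269 w2924 v6011 w5099 v6049 v2594 v5528
theorem v6051 : PV l6051 := r6051 v1244 v4763 v3008 v4970 v430 v1412 v3030 v3029 v328 v3303 v6048 v3089 w2489 w2442 v6041 v5034 v4761 v4762 v4706 v4738 v4704 v4739 v4737 v6046 v2571 v4086 v6050 v6043 v6047
theorem v6052 : PV l6052 := r6052 v1138 v1137 v480 v5244 v3509 v3512 v2835 v2836 v5989 v2682 v2668 v5239 v5238 v4133 v4132 v2808 w5444 v3119 v3118 v3117 v3219 v1412 v3929 v5949 w5166 v3517 v3933 v3394 v3397 w9019 w8773 w8934 v6046 v2571 v6050 v2707 v5788 v6047 v5711 w8785 v3462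
theorem v6053 : PV l6053 := r6053 v3000 v5035 v3008 v4970 v3029 v3929 v4835 v3119 v3115 v3219 v3030 v430 v328 v490 v481 v480 w4726 w5446 w5445 v5989 v5991 v2990 v2992 v2682 v2808 v4133 v5244 v5238 v3509 v5239 v4427 v2668 v390 v3512 v4183 v3473 v6004 v422 v1210 v1209 w4399 w4547 w3936 w3941 v1137 v1138 v6042 v6051 v6035 v6052 w8608 v3394 v3525 v3517
theorem v6054 : PV l6054 := r6054 v3008 v4970 v430 v1412 v6053 v5988 v5175 v2675
theorem v6055 : PV l6055 := r6055 v4137 v3216 v3929 v2630 v5374 v5348 v5337 v5587 v5344 v2688 v2299 v475 v3486 v5268 v3384 w4470 w4461 w4481 w5381 v4895 w2733 w2740 v4908 v4902 v2338 v5997 v2676 v2807 v2808 v3529 w8432 w8400 v3394 v5373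
theorem v6056 : PV l6056 := r6056 v5987 v2994 v3452 v3216 v6003 v5682 v4885 v3008 v4970 v3029 v430 v5269 w4865 v3410 v3408 v3000 v5035 v3929 v2995 v4872 v5796 v4835 v1412 v2747 v4087 v6055 v3411 v2996 v4860 w4322 v2998 v4851 v5865 v3453 v490 v5998 w3907 w3888 v6054
theorem v6057 : PV l6057 := r6057 v5988 v5175 v2675
theorem v6058 : PV l6058 := r6058 v3008 v4970 v430 v1412 v6057 v3030 v5989 v2682 v2681 w4726 v2992 v4427 v481 v480 v3000 v5035 v3029 v3929 v4835 v3115 v5991 v3509 v390 v3473 v4183 v5239 v3512 v2835 v2836 v2668 v5238 v4133 v4132 v2808 w5444 v3119 v3118 v3117 v328 v3933 v3394 v3397 v6023 w9019 v1779 w8773 w8934 v6046 v2571 v6050 v6047 v6006 w8785 v3462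
theorem v6059 : PV l6059 := r6059 v5858 v4060 v5034 w2449 v5050 v4049 v5022
theorem v6060 : PV l6060 := r6060 v3303 v4057 v3075 v4039
theorem v6061 : PV l6061 := r6061 w6055 w6014
theorem v6062 : PV l6062 := r6062 w9153 w9178
theorem v6063 : PV l6063 := r6063 v2556 v6062 w5511 v5555 v4600
theorem v6064 : PV l6064 := r6064 v3683 v3720 v996
theorem v6065 : PV l6065 := r6065 v6064 v4338 v4673
theorem v6066 : PV l6066 := r6066 v1232 v4339 v3190
theorem v6067 : PV l6067 := r6067 v3241 v6066 v3686 v3661 v4826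
theorem v6068 : PV l6068 := r6068 v3686 v3715 v3721 v4077 v4356 v4687 w6891 w2484 w1161 w2580 w6039 w5971
theorem v6069 : PV l6069 := r6069 v4764 v4339 v4830 v4826 v4351
theorem v6070 : PV l6070 := r6070 v4337 v3208
theorem v6071 : PV l6071 := r6071 v6070 v3681 v3682
theorem v6072 : PV l6072 := r6072 v3671 v3672
theorem v6073 : PV l6073 := r6073 v3240 v6072 v5057 v3676
theorem v6074 : PV l6074 := r6074 v3240 v5057 v4334
theorem v6075 : PV l6075 := r6075 v6073 v6074 v4827 v4332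
theorem v6076 : PV l6076 := r6076 v3206 v4333
theorem v6077 : PV l6077 := r6077 v6076 v3207 v4335
theorem v6078 : PV l6078 := r6078 v3717 v3722
theorem v6079 : PV l6079 := r6079 v3199 v6071 v2882 v2872 v6069 v3686 v4226 w7019 w6996
theorem v6080 : PV l6080 := r6080 v342 v6065
theorem v6081 : PV l6081 := r6081 v3686 v4339
theorem v6082 : PV l6082 := r6082 v6071 v2882 v6081 v5057 v3653 v3210 v4349
theorem v6083 : PV l6083 := r6083 w6211 v5867
theorem v6084 : PV l6084 := r6084 w1578 w1569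
theorem v6085 : PV l6085 := r6085 v6071 v2882 v342 v436 v435 v437 w4054 v6079 v6069 w5048 v3721 v6067 v4368 v4078 v4687 v3097 w2482 w6990 w1162 w5970 w6038
theorem v6086 : PV l6086 := r6086 w5020 w5021 v6082
theorem v6087 : PV l6087 := r6087 v5269 v1412 v435 v436 w4363 w4357 w5069 v6071 v342 v2882 v6086 v437 v6069 v6085 v3721 w3243 v4972
theorem v6088 : PV l6088 := r6088 w6234 w6199
theorem v6089 : PV l6089 := r6089 v4322 v4355 v3673 v3708 v2882
theorem v6090 : PV l6090 := r6090 v5034 v1138 v3223 w1656 w1653 v3196 v6087 w5028 w5026 w4096 w4099 w5070 v6077 v6089 w0 v6088 v3061 v3062 v3072 w2651 v3708 v6078 w6072 v4345 w884 w8642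
theorem v6091 : PV l6091 := r6091 v439 v6075
theorem v6092 : PV l6092 := r6092 w6267 w6302
theorem v6093 : PV l6093 := r6093 v3640 v4825
theorem v6094 : PV l6094 := r6094 v442 w4097 v6092 v4323 v6093
theorem v6095 : PV l6095 := r6095 v6093 v3655 v1233 v4635 v4634
theorem v6096 : PV l6096 := r6096 w3888 v1138 v1137 w4726 v1412 v4087 v2707 v6025 w4571 w4139 w5824 v5555 v6045 v5741 v4601 w6382 w2569 v6059 v3303 v3100 v4074 v6083 v4525 v4230 v4031 v3998 v3320 w2424 v3088 v3276 v3291 v5743 v3972 w3868 w4159 v6005 w6047 v6090 v3240 v3242 v3280 v6091 v435 v6080 v3046 v6094 v6095 v3680 v4336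
theorem v6097 : PV l6097 := r6097 w2924 v6044 v6038 w5099 v6039 w6585 v2539
theorem v6098 : PV l6098 := r6098 w3888 v1138 v2992 v3008 v4970 v430 v1412 v4087 v3030 v3029 v4968 v5035 v328 v4084 v6097 v2707 v6025 w4571 w5824 v5555 v6045 v5741 w6382 v6059 v6060 v3089 v3090 w2489 w2530 v6096
theorem v6099 : PV l6099 := r6099 v2707 v5714 w9056 w9024
theorem v6100 : PV l6100 := r6100 w4571 w5824 v6099 v6014 v2576 w6391 w2924
theorem v6101 : PV l6101 := r6101 v5269 v2556 v6100 v5552 v5660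
theorem v6102 : PV l6102 := r6102 v3240 v3242 v3280 v6091 v435 v6080 v3046 v6094 v6095 v3680 v4336
theorem v6103 : PV l6103 := r6103 v1138 v3060 v6071 v6076 w5028 w4096 v6089 v6088
theorem v6104 : PV l6104 := r6104 w5028 v6077 v3708 v3709
theorem v6105 : PV l6105 := r6105 v2882 v342 v5269 v1412 v435 v436 w4363 w4357 v6086 v6081 v437 w4360 w4356 w4058 v6079 v6069 w5726 w5048 v3721 v3715 v6067 v4972 v4687 w3243 v3035 v6068 v3947 w2800 v3661 v4684
theorem v6106 : PV l6106 := r6106 v3053 v319 v1412 v4087 v1138 w3888 v6059 v1137 v5665 w5099 v5269 w2450 w2569 v4074 v5034 v4525 v4086 v3998 v3282 v5743 w4093 w4228 w6014 w6091 v6102 w1653 v3205 v6103 v2882 v6105 v439 w5030 w5028 v6077 v6104 v3708 v3678 v5057 v3653 v4349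
theorem v6107 : PV l6107 := r6107 w3888 v1138 v1137 v3008 v4970 v430 v1412 v4087 v3030 v3029 v4968 v328 v6098 v2571 v6101 v5665 v2713 w5099 w5511 w5406 v6049 v2596 w6732 v2707 w9147 w8926 v6059 v6060 v3090 v6106
theorem v6108 : PV l6108 := r6108 v2882 v439 w5030 w5028 v6077 v6104 v3708 v3678 v5057 v3653 v4349
theorem v6109 : PV l6109 := r6109 v1138 v5269 v1412 v342 v2882 v2877 v6108 v435 v436 w4363 v6086 v6081 v437 w5063 v6079 v6069 v4151 v4077 w5726 v3721 v4972 w3243 w6891 w1193 w6999 w6959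
theorem v6110 : PV l6110 := r6110 v1138 v5269 v3205 v6109 v6071 v6076 v3692 v3673
theorem v6111 : PV l6111 := r6111 v3242 v3240 v3046 v6094 v6095 v3680 v4341
theorem v6112 : PV l6112 := r6112 v3240 v3280 v6091 v435 v6111 v342 v6064 v4764 v4338 v5057 v4672
theorem v6113 : PV l6113 := r6113 v1137 v2571 v6101 v5665 v2713 w5099 w5511 w5406 v6049 v2596 w6732 v2707 v6110 w9147
theorem v6114 : PV l6114 := r6114 v2713 v20 w9122 w5826 v2615 v4610
theorem v6115 : PV l6115 := r6115 v1138 v5269 v1412 v342 v2882 v2877 v6108 v6081 v435 v436 w4363 w4357 w5059 v6086 v4151 v437 w4356 w5063 v6079 v6069 w5048 v3721 v3715 v6067 v4972 v4687 v3035 v3947 v3661 v3185 w6959 v4078 v3097 w5092 w1193 w6990 w3243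
theorem v6116 : PV l6116 := r6116 v319 v1138 v1137 v5269 v1412 v6059 v6060 v4074 v4525 v3998 v6112 v6113 v4084 v6097 v2707 v6114 v2556 v6062 w9011 w5511 v2561 v5741 v6115 v6071 v6076 v3692 v3673
theorem v6117 : PV l6117 := r6117 v1412 v4084 v6097 v2707 v6114 v2556 v6062 w5511 w5013 v2561 v5741 w6382
theorem v6118 : PV l6118 := r6118 v6117 v2571 v6101 v5665 v2713 w5511 v6049 v2707 w9147 w8926
theorem v6119 : PV l6119 := r6119 v2995 v2994 v5682 v5035 v4872 v2747 w3888 w4322 w3907 v1138 v1137 v1244 v3008 v4970 v430 v1412 v4087 v3000 v3029 v5796 v4835 w4865 v3030 v4968 v328 v6107 v6118 v6059 v6116 v6060 v3090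
theorem v6120 : PV l6120 := r6120 v2571 v6101 v5665 v2713 w5511 v6049 v2707 w9147 w9132
theorem v6121 : PV l6121 := r6121 v1138 v1137 v3000 v2994 v5682 v5035 v3008 v4970 v3029 v2995 v4872 v5796 v4835 v430 v1412 v3030 v328 v6119 v6120 v4084 v6097 v2707 v6024 w5511 v6062 v6025 v2556 v6114
theorem v6122 : PV l6122 := r6122 v1412 v5035 v4084 v6097 v2707 v6063 v2713 v6114 v20 v6025 w5826
theorem v6123 : PV l6123 := r6123 v5665 v2713 w5511 v6049 v2707 w9147 w9132
theorem v6124 : PV l6124 := r6124 v5552 v5660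
theorem v6125 : PV l6125 := r6125 v5269 v2556 v6124 w4571 w5824 v6099 w2924 v6050 v2576 w6391
theorem v6126 : PV l6126 := r6126 v3008 v4970 w4399 v1138 v1137 v2995 v2994 v5682 v5035 v4872 w4532 v1209 v1210 v424 v422 v2992 v430 v1412 v2747 v4087 v3000 v3029 v5796 v4835 w4322 v3030 v328 w3907 w3888 w3936 w3941 w3975 v6121 v6122 v2571 v6125 v5665 v2713 v6123 w5099 w5511 w5406 v6049 v2596 v2707 w6732 w9147 w8926 v6059 v6060 v4074 w2489 w2530 w2569 v4230 v3998 v4086 v3291 v3282 v6061 w5721 w6309 w6275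
theorem v6127 : PV l6127 := r6127 v3303 v5655 v5676 w2449 v4042 v4055
theorem v6128 : PV l6128 := r6128 v3308 v3089 w2450 v3989 v5055
theorem v6129 : PV l6129 := r6129 v3308 v3008 v4970 v3030 v3029 v430 v328 v6122 v2571 v6125 v5665 v2713 w5511 v6049 v2707 w9147 w8926 v6128 v3075 w2449 v5676 v5050 v4026 v5759
theorem v6130 : PV l6130 := r6130 v728 v4542
theorem v6131 : PV l6131 := r6131 v3075 w2463 w2449 v5676 v6130 v5026 v5050 v4018
theorem v6132 : PV l6132 := r6132 v5987 v3000 v2998 v2996 v2995 v2994 v3008 v3453 v3452 v490 v3216 v3929 v6003 v5682 v5865 v5035 v4885 v4970 v4872 v4851 v430 v3029 v3030 w4865 w4322 v5796 v2747 v1412 v5269 v4860 v3410 v3408 v3411 v4835 v4087 v6055 v3219 v3223 v3115 v6056 v6057 v481 v480 w4726 w5446 w5445 v5989 v5991 v2988 v2990 v2992 v2682 v2808 v2681 v5238 v3509 v4427 v2668 v6004 v390 v3512 v5239 v422 v1210 v1209 w4399 w4532 w4547 v3473 v1244 v1137 v1138 v6058 v4446 v3525 v3532 v3522 v3517 w4692 v6126 w4065 w4070 w3897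 v2779 w3909 v6127 v3308 v6129 v6131 w2489 v4056 v3070 v3082
theorem v6133 : PV l6133 := r6133 v480 v481 v3219 v3935 v5038 v5603 v4224 v4241 v4245 v4239 v4248
theorem v6134 : PV l6134 := r6134 v3929 w4318 w4321 v5682 v5035 v4885 v4872
theorem v6135 : PV l6135 := r6135 w4517 v4970 v5682 v4885
theorem v6136 : PV l6136 := r6136 w8485 w6145
theorem v6137 : PV l6137 := r6137 v3050 w2541 w2537 v5655 w3970 w3915 v5058 v4727 v4526 v3971 v4020
theorem v6138 : PV l6138 := r6138 w2467 v5058 v4727 v4048 v4020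
theorem v6139 : PV l6139 := r6139 v5665 v2713 w5511 v5653 w9132 v2615
theorem v6140 : PV l6140 := r6140 w4571 v2578 w6374
theorem v6141 : PV l6141 := r6141 v6140 v2594 v2581
theorem v6142 : PV l6142 := r6142 v5665 v6049 v2707 v6139
theorem v6143 : PV l6143 := r6143 v2707 v5714 v5552 w5824 w9032 w8999
theorem v6144 : PV l6144 := r6144 v5274 v2571 v6142 v2556 v6143 w2924 v6141
theorem v6145 : PV l6145 := r6145 w2924 v6039 v6038
theorem v6146 : PV l6146 := r6146 v6145 v2707 v6063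
theorem v6147 : PV l6147 := r6147 v2707 v6025 v20 w5824
theorem v6148 : PV l6148 := r6148 v5269 v2571 v6144 v6142 v6050 v2556 v6143
theorem v6149 : PV l6149 := r6149 v2707 v2708 v6147 v20 w5826 w5836 v5683 v2712 w8805 w8866
theorem v6150 : PV l6150 := r6150 v5035 v5274 v1412 v4084 v4082 v6146 v2713 v6149 w2924 v6044 v5525 w5099 v4608 w6561
theorem v6151 : PV l6151 := r6151 v3223 v3219 v3216 v3452 v5987 v3008 v2994 v6135 v430 v5269 v1412 v3030 v3029 v6132 v3935 v3000 v2995 v328 v3453 v490 v3929 v481 v480 w5446 w5445 v6133 w4726 v5039 v5250 v5234 v5731 v6134 v2988 v2992 v5242 v4612 v4613 v2933 v3809 v2842 v2843 v5274 v4633 v2955 v4224 v1145 v1149 w5159 w5372 w4791 v1210 v1137 v1138 v5682 v5035 v4885 v3410 v5684 v3408 v5796 w4797 w4532 w4520 v4835 v6150 v2571 v6148 v6123 v2556 v6143 w2924 v6050 v6141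
theorem v6152 : PV l6152 := r6152 v3216 v3452 v5987 v3008 v2994 v6135 v430 v1412 v6132 v6151 v5433 v5174
theorem v6153 : PV l6153 := r6153 v5308 v5383 v2642
theorem v6154 : PV l6154 := r6154 v2594 v2581
theorem v6155 : PV l6155 := r6155 v4998 v3070 w6297
theorem v6156 : PV l6156 := r6156 w3911 w3893 w3915 v5059 v4049 v5022
theorem v6157 : PV l6157 := r6157 v1412 v4087 v5269 w2467 v6156 w3913 w4093 w4086 v6130 v4526 v4045 v4008 v4984 v5012 v4694
theorem v6158 : PV l6158 := r6158 v3308 w4071 v5052 v5043 v5002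
theorem v6159 : PV l6159 := r6159 w6074 v5679
theorem v6160 : PV l6160 := r6160 w5874 v512
theorem v6161 : PV l6161 := r6161 w2467 v5655 w3915 v5658
theorem v6162 : PV l6162 := r6162 v6160 w5882 w5862
theorem v6163 : PV l6163 := r6163 v3303 v4039 v4057 v4029
theorem v6164 : PV l6164 := r6164 v3303 v4760 v4737
theorem v6165 : PV l6165 := r6165 v4763 v3303 v4732 v1357 v4755 v3008 v3075 v5265 v4756 v4754 w2500 v3076 v5272 v4741 v5673 w3953 v4704
theorem v6166 : PV l6166 := r6166 v3303 v4763 v6165 v5034 v4738 v4761 v4728 v3075 v3076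
theorem v6167 : PV l6167 := r6167 v5037 v5113 v5945 v5587 v5308 v2641
theorem v6168 : PV l6168 := r6168 v5113 v5923 v5587 v5324 v5951 v2641
theorem v6169 : PV l6169 := r6169 v4397 v4396
theorem v6170 : PV l6170 := r6170 v3219 v5038 v390 v3487 v4800 v482
theorem v6171 : PV l6171 := r6171 v2707 v5766
theorem v6172 : PV l6172 := r6172 v5714 v2578 v2576
theorem v6173 : PV l6173 := r6173 v5788 v5704
theorem v6174 : PV l6174 := r6174 v2616 v4597
theorem v6175 : PV l6175 := r6175 v2544 v5663 v2713 v2619 w8892 v2604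
theorem v6176 : PV l6176 := r6176 v4606 v4600
theorem v6177 : PV l6177 := r6177 v2544 v5766 v2556 w9033 v4608 v2615
theorem v6178 : PV l6178 := r6178 v3117 v3118 w8655 w8350 v642
theorem v6179 : PV l6179 := r6179 w8866 w8805
theorem v6180 : PV l6180 := r6180 v5714 v2596 v5653
theorem v6181 : PV l6181 := r6181 v2594 v2604 v2713 w9066
theorem v6182 : PV l6182 := r6182 v3320 v4603 v3282 w6628 w6150 w6164
theorem v6183 : PV l6183 := r6183 w4037 v6182 v4597 w6599
theorem v6184 : PV l6184 := r6184 v3510 v478 v5438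
theorem v6185 : PV l6185 := r6185 v6167 v6168
theorem v6186 : PV l6186 := r6186 v1360 v2791 v6173 v5705 v4606
theorem v6187 : PV l6187 := r6187 v5113 v6186 v2619 v3320 w6342 w2691 w6628 w6150 w6164
theorem v6188 : PV l6188 := r6188 w2691 w6650 w6150 v3320
theorem v6189 : PV l6189 := r6189 v3282 v2588 v3320 v6181 w3831 w6150 w5895
theorem v6190 : PV l6190 := r6190 v6077 v3673 v3674
theorem v6191 : PV l6191 := r6191 v5668 v1698 w8735 w7941
theorem v6192 : PV l6192 := r6192 w8796 v1674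
theorem v6193 : PV l6193 := r6193 w2257 v6192 w5627 w8145 w8109 w1454
theorem v6194 : PV l6194 := r6194 v5708 v5510
theorem v6195 : PV l6195 := r6195 v6191 v1279 w7959 w8284
theorem v6196 : PV l6196 := r6196 v1138 v1242 w1452 v1674 w8126 w5627
theorem v6197 : PV l6197 := r6197 w690 v6196 w8084 w7746
theorem v6198 : PV l6198 := r6198 w8084 w7746
theorem v6199 : PV l6199 := r6199 w7885 w8217
theorem v6200 : PV l6200 := r6200 v5923 v5945
theorem v6201 : PV l6201 := r6201 v5113 v5587 v5989 v6200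
theorem v6202 : PV l6202 := r6202 v3133 v3134
theorem v6203 : PV l6203 := r6203 v4384 v4379
theorem v6204 : PV l6204 := r6204 v328 v5113 v5110 v5131 v4837 w3135 v3358 v3354
theorem v6205 : PV l6205 := r6205 v328 v5113 v5278 v5275 v3158 v3161 v6197 v732 w7808
theorem v6206 : PV l6206 := r6206 v4454 v4453
theorem v6207 : PV l6207 := r6207 v5278 v1138 v1242 v328 v5276 v657 w7985 w7967
theorem v6208 : PV l6208 := r6208 w6342 w6436
theorem v6209 : PV l6209 := r6209 w8662 w8742
theorem v6210 : PV l6210 := r6210 v328 v4655 w4576 v5278 v5519 v2619 w6333 w6650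
theorem v6211 : PV l6211 := r6211 w4576 v427 w6584 v2576 v6140
theorem v6212 : PV l6212 := r6212 v3219 v6200 v5928 v3488 v476 v485 v482 v5438 v4800
theorem v6213 : PV l6213 := r6213 v3591 v4920 v5040
theorem v6214 : PV l6214 := r6214 v5278 v1138 w5142 w5141 v3932 v3931 v5039 v328 v5113 v5112 v1316 v5277 v2475 v4259 v4581 v4300 v2962 v5893 w4265
theorem v6215 : PV l6215 := r6215 w706 w7962 w7922 v2297
theorem v6216 : PV l6216 := r6216 v4655 v2791 w6478 w4576 w6749 v2617
theorem v6217 : PV l6217 := r6217 v1360 v3219 v6200 v5732 v5928 v3488 v390 v2845 v476 v485 v482 v6212 v5438 v3501 v3519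
theorem v6218 : PV l6218 := r6218 v5377 v5374 v5308 v5623 w3464
theorem v6219 : PV l6219 := r6219 v476 v6218 v3219 v5038 v5037 w3464 v2833 v2674 v3501 v3527 v3509 v6170
theorem v6220 : PV l6220 := r6220 v4655 v6218 v6200 v5932 w4498 v6219 v2932 v5467 v4426
theorem v6221 : PV l6221 := r6221 v3484 v3473
theorem v6222 : PV l6222 := r6222 v4655 v430 v5113 v2618 w4573 v5797 w6599
theorem v6223 : PV l6223 := r6223 v6222 v2791 w6599 w6749 v2561 v2617
theorem v6224 : PV l6224 := r6224 v1360 v3219 v6200 v5928 v6221 v476 v390 v2845 v3488 v6212 v485 v482 v5438 v3501 v3519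
theorem v6225 : PV l6225 := r6225 v4916 v4449
theorem v6226 : PV l6226 := r6226 w8601 v616
theorem v6227 : PV l6227 := r6227 v4260 w699 v3874 w7922 w3038
theorem v6228 : PV l6228 := r6228 w3038 v3868 w7922 w7945
theorem v6229 : PV l6229 := r6229 v465 v3235 v2489 v3591
theorem v6230 : PV l6230 := r6230 v3235 v3234 v4655 v432 v1254 v1138 v1242 v5112 v3591 v5040 v3592 v5172
theorem v6231 : PV l6231 := r6231 v4655 w4448 v3235 v5276 v5112 v6230 v2960 v4295 v6225 v4629
theorem v6232 : PV l6232 := r6232 v6201 v6224 v5896 v5383 v5951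
theorem v6233 : PV l6233 := r6233 v4656 v2936 v6201 v6232 w4487 v5308 v3219 v6200 v5467 v4430
theorem v6234 : PV l6234 := r6234 v3756 v3760
theorem v6235 : PV l6235 := r6235 v3929 v5035 v2923 v2918 v4883 v4869
theorem v6236 : PV l6236 := r6236 v4869 v4874
theorem v6237 : PV l6237 := r6237 v5724 v3797 v4639
theorem v6238 : PV l6238 := r6238 v3927 w4308 v3797 w6644 w2765
theorem v6239 : PV l6239 := r6239 v3927 v4655 v432 v1254 v1138 v1242 v428 v1218 v6238 w4544 v3792 v2925 v3794 v4191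
theorem v6240 : PV l6240 := r6240 v3927 v4655 v432 v1254 v1138 v1242 w4544 v3792 v2926 v3794 v4191
theorem v6241 : PV l6241 := r6241 v4655 v433 v5113 v5587 w4487 w4498 v2629 v432 v1254 v5112 v1099 v6240 v3927 w4308 w6644 w6795 v6238 v3797 v5262 v2930 w3185 w3073 v3827 v6167 v5623 v3822 v1245 v3146 w4322 v4796 v5165 v3340 v4428 w8543 w5362 v3432 v3436
theorem v6242 : PV l6242 := r6242 v4655 v5113 v5587 w4498 v2629 v3927 v5112 v1099 v6240 w4308 v432 v1254 w6644 w8875 w6795 v6238 v428 v1218 v3797 v5262 w3207 v2930 v6241 w3085 w3793 w2993 v2932 v2931 v5623 v5581 v5952 v3813 w5339 v4132 v4167 v6185 v1245 w4322 v5165 v3340 v3341 w8701 w5477 w5739 v4791 w8397 v2631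
theorem v6243 : PV l6243 := r6243 v5896 v5374
theorem v6244 : PV l6244 := r6244 v6242 v6243
theorem v6245 : PV l6245 := r6245 v6200 v3223 v4655 v430 v5037 v5932 v2670 w4463 v2674 v4440 v4441
theorem v6246 : PV l6246 := r6246 v3119 v6178 w8658
theorem v6247 : PV l6247 := r6247 v2670 v5175
theorem v6248 : PV l6248 := r6248 v6200 v4655 v432 v1254 v1138 v5112 v5989 w5159 v5932 v5949 v5925
theorem v6249 : PV l6249 := r6249 v4655 v432 v6248 w4479 v427 w4452 v473 v476 v6200 v3223 v3219 v1254 v2846 v2943 v2958 v5467 v5175 w8489 v3530 v2525 v3836 v2844 v4664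
theorem v6250 : PV l6250 := r6250 v2844 v4664
theorem v6251 : PV l6251 := r6251 w5365 v3424 w8464 w8546
theorem v6252 : PV l6252 := r6252 v4655 v432 v5113 v6251 v5131 w4555
theorem v6253 : PV l6253 := r6253 w8463 v626
theorem v6254 : PV l6254 := r6254 v2744 v5601
theorem v6255 : PV l6255 := r6255 v6254 v4883 v4885 w3171 v4908 v4441
theorem v6256 : PV l6256 := r6256 v6252 v6251 v3432
theorem v6257 : PV l6257 := r6257 v5594 v2744
theorem v6258 : PV l6258 := r6258 w8464 w8546
theorem v6259 : PV l6259 := r6259 v6124 v5661 v2596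
theorem v6260 : PV l6260 := r6260 v4655 v432 v1254 v5113 w9178 v6171
theorem v6261 : PV l6261 := r6261 v2588 v2596
theorem v6262 : PV l6262 := r6262 v3935 v476 v5037 v5324 v4254 v4252
theorem v6263 : PV l6263 := r6263 v3850 v3851
theorem v6264 : PV l6264 := r6264 v3934 v473 v6262 v2641 v4591 v6263 v3824 v3218
theorem v6265 : PV l6265 := r6265 v2639 v5308 v5383
theorem v6266 : PV l6266 := r6266 v6264 v6265
theorem v6267 : PV l6267 := r6267 v4655 v432 v1254 v430 v5113 v5587 v6243 w4463 w4498 v6266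
theorem v6268 : PV l6268 := r6268 v5467 v5175 v2568 w8853 w8509
theorem v6269 : PV l6269 := r6269 v476 v3219 v6268 v2673 v2675 v3528 v4252
theorem v6270 : PV l6270 := r6270 v476 v3219 v2675 v3528 v4252
theorem v6271 : PV l6271 := r6271 w5407 v2614 v2555 v6269 v5552 v2581 v2592 v5467 v6270 v2674 v2568 w8355 w8728
theorem v6272 : PV l6272 := r6272 v5718 v2571 w9033 w5511 v5789 v3472
theorem v6273 : PV l6273 := r6273 v2308 w5764
theorem v6274 : PV l6274 := r6274 v4655 v432 v1254 v1138 v1242 v3916 v3920 w847 v5102 v3236 v3239 v5096 v451 w5121 v5101 v2416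
theorem v6275 : PV l6275 := r6275 v4990 v4510
theorem v6276 : PV l6276 := r6276 v5154 v5155
theorem v6277 : PV l6277 := r6277 v4655 v432 v1254 v1138 v1242 v3916 v3920 w847 v6274 v5102 v5082 v3236 v450 v6276
theorem v6278 : PV l6278 := r6278 v4655 v432 v1254 v1138 v1242 v3926 v5102 v3239 v3236 v5096 v451 w5121 v5101 v2416
theorem v6279 : PV l6279 := r6279 v4655 v432 v1254 v5112 v1316 v5192 v5978 v6164 v4761
theorem v6280 : PV l6280 := r6280 w2461 w2455 v6164 v504 w3891 w3906
theorem v6281 : PV l6281 := r6281 v4655 v430 w3977 w3967 v428 w3963 w3981 v3303 v4007 v4763 v5113 v5112 v1316 v6279 v6280 v1140 w3919 w3906 v5804 v5969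
theorem v6282 : PV l6282 := r6282 v5081 v5151
theorem v6283 : PV l6283 := r6283 v5102 v3236 v6282
theorem v6284 : PV l6284 := r6284 v5974 v4754 w2492
theorem v6285 : PV l6285 := r6285 v4763 v4655 v432 v1254 v430 v427 v5113 v1357 w3975 w3958 w3977 v6275 v5840 v4710 v316 v6284 v4758 v4757
theorem v6286 : PV l6286 := r6286 v3085 w2461 v3074 v1140 w3919 v4727 v4020
theorem v6287 : PV l6287 := r6287 v4655 v427 w3958 v432 v1254 v1138 v1242 v5112 v5826 v5861 v4070 w3906 w3891
theorem v6288 : PV l6288 := r6288 v5863 v4070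
theorem v6289 : PV l6289 := r6289 v4655 v427 w3958 v1360 v6287 v5827 v6288 w3906 w3891
theorem v6290 : PV l6290 := r6290 v3305 v4038
theorem v6291 : PV l6291 := r6291 v4655 v432 v1254 v5112 v1316 v3303 v4738 v5192 v5978 v4760 v4761
theorem v6292 : PV l6292 := r6292 v4655 v427 w3958 v1360 v4044 v6289 v5862 v3308 v5256 v5847 v5861 w3906 v3311
theorem v6293 : PV l6293 := r6293 v4027 v4028
theorem v6294 : PV l6294 := r6294 w6801 w6571
theorem v6295 : PV l6295 := r6295 v3336 v4655 v432 w4479 v433 w4487 v476 v1254 v5112 v5035 w3853 w3111 v3836 v4130 v6253 w5364 w4825 w5354 w8774 v3430 v5725 v6132 v5719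
theorem v6296 : PV l6296 := r6296 v1138 v1242 v4086 v3997 v4029 v3282 v3303 v5735 v5859 w4229
theorem v6297 : PV l6297 := r6297 v4655 v428 w3963 v427 w3958 v432 v1254 v1360 w876 v6296 v5847 v3308 v3990 v6288 v728 w3906 v1140 w3897 w2465 v4744
theorem v6298 : PV l6298 := r6298 v4763 v4655 v430 w3967 v427 w3958 v5113 v5034 v5003 v4994 v6281
theorem v6299 : PV l6299 := r6299 v3059 v3045 v4655 v432 v1254 v6294 w6650 v430 v5113 v5112 v1316 w3967 w3977 v6297 v4763 v4007 v6298 v5974 v6285 v5978 w3906 w3863 v4985 v4994 v1140 v2778 w3882 w2475 w2480 v4532 v4716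
theorem v6300 : PV l6300 := r6300 v4655 v432 v1254 v428 v427 v1316 v5034 v4086 v5736 v3282 v3261 v3990 w3943 w3945 w3950 w3966 w5964 v4053 v5844 v5828
theorem v6301 : PV l6301 := r6301 v3303 v4038 v1089 v5066 w2461
theorem v6302 : PV l6302 := r6302 v3059 v4655 v427 v5112 v6300 v6301 v3308 v5943 v5847 w3938
theorem v6303 : PV l6303 := r6303 v5977 v3303 v5015 v5968 v5027 v5032
theorem v6304 : PV l6304 := r6304 v5277 v5275 w2595 v6299 v6302 v6303 v4734 v5974 v3303 v3304 v4533 v4547 v5266 w6336 w6015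
theorem v6305 : PV l6305 := r6305 v4655 v432 w3975 w3981 v1254 v1138 v1242 v5113 v5112 v5035 v3075 w2460 v3043 w2691 v3077 v3977 v3967 v3282 w5928 w4225 v4720 v4838 w2790 w2796 v4848 v4883 v5719
theorem v6306 : PV l6306 := r6306 v4525 v5035 v4834 v5112 v1316 v3303 v4031 v6305 v4059 w3906 v2779 w3897 v2794 v5844
theorem v6307 : PV l6307 := r6307 v4655 v432 v1254 v1138 v1242 v4086 v6306 v3261 v5859 v5735 w4229
theorem v6308 : PV l6308 := r6308 v4655 v427 w3958 v432 v1254 v6294 w6650 v1360 w876 v6307 v4044 v5847 v5862 v3308 v5256 v6288 w3906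
theorem v6309 : PV l6309 := r6309 v4763 v4655 v430 w3967 v5113 v5034 v6291 v5968 v4994 v5032 v3057
theorem v6310 : PV l6310 := r6310 v1357 v5035 v6308 v6309 v4732 v4536
theorem v6311 : PV l6311 := r6311 v5112 v1360 v6293 v4042 v3079
theorem v6312 : PV l6312 := r6312 v5277 v5275 v5035 v6304 v6310 v6311 v5803 v5016 v4534
theorem v6313 : PV l6313 := r6313 v4655 v432 v1254 v427 v4086 v5736 v3282 v3261 v3997 w3938 v4055 v4053
theorem v6314 : PV l6314 := r6314 v4655 v427 v5112 v6313 v6301 v3308 v5943 v5847 w3938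
theorem v6315 : PV l6315 := r6315 v5277 v5275 v4655 v430 w2595 v6299 v6314 v6303 v4734 v5974 v3303 v3304 v4533 v4522 v4547 w3935 v3085 v5823
theorem v6316 : PV l6316 := r6316 v4655 v432 v1254 v427 v4086 v6313 v5736 v3068 v3282 v3261 v4055 w3938 v4059 v3998
theorem v6317 : PV l6317 := r6317 v5112 v1360 v6316 v4042 v3079
theorem v6318 : PV l6318 := r6318 v6294 w2924 v5277 v5275 v3028 w3838 v2544 v4655 v432 v6267 v6248 w4479 v433 w4487 v476 v3115 v6200 v3219 v5035 v6270 v2674 v2673 v3527 v3336 v6295 v2542 w3749 v6184 v3501 v4130 v485 v3509 v3497 v6253 v3487 w4825 w4807 v3476 v6312 v6315 v6310 v6317 v5803 v5016 v4534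
theorem v6319 : PV l6319 := r6319 v2615 v5112 v1357 v6267 v3219 v6200 v6248 v3115 v476 v6271 v2596 v2713 v6261 v2585 v6272 v2544 v6294 w2924 v5277 v6318 v5467 v5175 v2543 v3530 v6295
theorem v6320 : PV l6320 := r6320 v6243 v6271 v6248
theorem v6321 : PV l6321 := r6321 v4039 v3303 v3304 v5801 v706 v5861 v3311 v3309 v5749 v2779 w5929 w3894
theorem v6322 : PV l6322 := r6322 v2592 v5113 v6320 v6200 v5587 w5407 v4655 w4498 v430 w4463 v473 v2629 v3340 v3934 v2556 v2615 v432 v1254 v5035 v5528 w6374 v6185 v6233 v6262 v4591 v6263 v4428 v5623 v3824 v3822 v3146 w3556 v4796 w8543 w5352 w4823 w5810 v4872 w3834 w9090 v2571 v4195 v3469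
theorem v6323 : PV l6323 := r6323 w3854 w3853 w8834 w8774 w8773
theorem v6324 : PV l6324 := r6324 w2924 v5277 v4655 v432 v5113 v6200 v5587 w4479 v433 w4487 w4498 v430 w4463 v473 v476 v3341 v3338 v3935 v3934 v1254 v5112 v5035 v6262 v2641 v4802 v4591 v3113 v6263 v5038 v4135 v4100 v5623 v3824 v3822 v5637 v6253 v3146 w3749 v2731 w4825 w4807 w5354 v2308 v4796 v6323 w3241 w9090 w3238 v4848 v2571 v4883 v4789
theorem v6325 : PV l6325 := r6325 v5113 v6200 v5587 v5308 v5383 v5951
theorem v6326 : PV l6326 := r6326 v5552 v2707 w9167 v6062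
theorem v6327 : PV l6327 := r6327 v6319 v2615 v4655 v432 v1254 v430 v5113 v2556 v6320 v3934 v6200 v3340 v5587 v2629 v473 w4463 w4498 w5407 v6325 v6262 v2641 v4591 v6263 v4428 v5623 v3824 v3822 v3146 w3556 v4796 w8543 w5810 v6326 v2592 v6322 v6324
theorem v6328 : PV l6328 := r6328 v6243 v2542 w3749 v6212 v5038 v3501 v3509
theorem v6329 : PV l6329 := r6329 v6243 v3115 v6248 v3219 w2924 v5277 v2544 v6295
theorem v6330 : PV l6330 := r6330 v5718 v5866
theorem v6331 : PV l6331 := r6331 v6243 v6248 v476 v3219 v6270 v2674 v3527 v6328 v6329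
theorem v6332 : PV l6332 := r6332 v5467 v5175 v2543 v2568 w8630 w8509
theorem v6333 : PV l6333 := r6333 v5112 v6330 v6331
theorem v6334 : PV l6334 := r6334 v6243 v2542 w3749 v6212 v6170
theorem v6335 : PV l6335 := r6335 v5718 w9033
theorem v6336 : PV l6336 := r6336 v5112 v2615 v6335 v6243 v2614 v3219 v6248 v476 w5407 v6332 v6270 v6333 v2674 v3527 v6334 v6329
theorem v6337 : PV l6337 := r6337 v2615 v4655 v432 v1254 v430 v5113 v5112 v1357 v5035 v6319 v6327 v2596 v2713 v6261 v6294 w2924 w6650 v5277 v4834 w5017 v6335 v2544 v6336 v3934 v3935 v6200 v3338 v3340 v3341 v3342 v6325 v5587 v2629 v6262 v476 v473 w4463 w4498 v2641 v4802 v4129 v4591 v6263 v3824 v3113 v5038 v4135 v4428 v4100 v5623 v3822 v5637 v6253 w3556 w3749 w3563 v6258 v1277 v2731 w5744 v6323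
theorem v6338 : PV l6338 := r6338 v5035 v3370 v5192 w4569 v4838
theorem v6339 : PV l6339 := r6339 v476 v3219 v4129 v2674 v3527 v3394 v667 w8464
theorem v6340 : PV l6340 := r6340 v3119 v5035 v2544 w3838 w3835 w3834 w3832 v5776 v6338 v4834 v4838 v3378 w5380 v6339 v2675 v2672 v4873 v5795 w4324
theorem v6341 : PV l6341 := r6341 w9033 w9045
theorem v6342 : PV l6342 := r6342 v1357 v2596 v6261 v6243 v2614 v6248 w5407 v6332 v3119 v2585 v2713 v6337 v2615 v4655 v432 v1254 v5113 v5112 w6571 w6333 v6340 v6341 w5511 w5513 w5813 v5789 v3442 v3927 v3467 v3422 v6339 v5037 v2675 v6224 v5134 v4880 v4883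
theorem v6343 : PV l6343 := r6343 v3336 v4655 v432 v6248 w4479 v433 w4487 v476 v3115 v3219 v1254 v1138 v5112 v5035 w3111 w3853 v3836 v4130 v6253 w5364 w4825 w5354 w8774 v5725 v3378 v3430 v3453 v4777 w5193
theorem v6344 : PV l6344 := r6344 v6328 v6334
theorem v6345 : PV l6345 := r6345 v2544 w2924 v5277 v6243 v6248 v476 v3219 v2674 v3527 v6343 v6344
theorem v6346 : PV l6346 := r6346 v1357 v2596 v6261 v6243 v2614 v6248 w5407 v6332 v4655 v427 w4452 v473 v476 v3223 v3219 v2713 v2615 v432 v1254 v5112 v5035 v6342 w2924 w6650 v5277 v4834 w5017 v6341 v6345 v5037 v2675 v2529 v3528 w6639 w2977 v2957 v6212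
theorem v6347 : PV l6347 := r6347 v6243 v6248 v4655 v433 v430 v5112 v5035 v2545 v2544 w3838 w3835 w3832 v6340 v6338 v4834 v4838 v5726 v3378 w4537 w4536 w4522 v5796 v5832
theorem v6348 : PV l6348 := r6348 v4655 v432 v1254 v5113 v5112 v1789 w4315 w4312 v4883 v3927 w8938 w6644
theorem v6349 : PV l6349 := r6349 v476 v3219 v2674 v3527
theorem v6350 : PV l6350 := r6350 v476 v3219 v6349 v2675 v3528
theorem v6351 : PV l6351 := r6351 v6243 v6248 v1357 v2596 v6261 v2614 w5407 v6332 v6350 v3336 v3115 v2585 v2713 v2615 v4655 v432 v1254 v5112 v1316 w6571 v6294 w6333 v6347 v6341 w5513 w5812 v668 w3469 w8481 v3442 v6253 v3422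
theorem v6352 : PV l6352 := r6352 v4655 v432 v1254 v1138 v5112 v5035 v3378 v5725 v3430 w5193 v3453 v4777
theorem v6353 : PV l6353 := r6353 v4128 v4129 v6243 v6248 v6350 v5113 v5112 v6339 v3394 v4883 w5760 w8775 w3225 w8609 v2257
theorem v6354 : PV l6354 := r6354 v2898 v2899
theorem v6355 : PV l6355 := r6355 v4655 v430 v6248 w4463 w4014 w3981 v3045 v432 v1254 v5113 v4525 v4029 v4233 v3255 v4982 w6177 w867
theorem v6356 : PV l6356 := r6356 v4655 v430 v6248 w4463 w4011 v427 w4452 w4000 w3958 v432 w3975 v3045 w853 v6355 w26 v5847 w6187 v3977 w1730 w33 w6089 w6127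
theorem v6357 : PV l6357 := r6357 v3059 v4655 v432 v1254 v5112 v1316 v6356 v6298 v5974 v5978 v5983
theorem v6358 : PV l6358 := r6358 v4525 v4086 v4026 v4232 w5928 v3282 w1737 v3997 v413 w4172 v4694 w5872 w866
theorem v6359 : PV l6359 := r6359 v3045 v4655 v432 v1254 v1138 v1242 v5112 w876 v6358 v6301 v3308 v702 v5826
theorem v6360 : PV l6360 := r6360 v5277 v5275 v4655 v432 v1254 w6650 w2690 w2595 w2649 w2644 w2648 v6357 w4227 v6359 v6303 v5677 v4540
theorem v6361 : PV l6361 := r6361 w2665 w2669 w6310 w6210 w1733 w944 w6246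
theorem v6362 : PV l6362 := r6362 w7533 w6306
theorem v6363 : PV l6363 := r6363 v4655 v432 v1254 v1138 v1242 v3926 v5102 v3239 v3236 v433 v427 v5112 w4425 w4420 w4412 v4578 v6276
theorem v6364 : PV l6364 := r6364 v4498 v5127 v3626 v3628 v2861
theorem v6365 : PV l6365 := r6365 v4498 v6364 v3618 v3621
theorem v6366 : PV l6366 := r6366 v4655 v432 v1254 v1138 v1242 v1360 v3926 v5102 v3239 v3295 v6362 w2512 v6365 v4495 v4497
theorem v6367 : PV l6367 := r6367 v4491 v5127 v5126
theorem v6368 : PV l6368 := r6368 v4655 v432 v1254 v1138 v5112 v5654 v5100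
theorem v6369 : PV l6369 := r6369 v4655 v432 v1254 v1138 v1242 v1357 v5102 v2507 v3236 v5115 v5084 v2346
theorem v6370 : PV l6370 := r6370 v433 v428 v427 w4420 w4414 w4412 v5146 v4312 v4311
theorem v6371 : PV l6371 := r6371 v1130 w5935 w6185
theorem v6372 : PV l6372 := r6372 v6370 v3236
theorem v6373 : PV l6373 := r6373 v4965 v4491
theorem v6374 : PV l6374 := r6374 v6369 v6363
theorem v6375 : PV l6375 := r6375 v4655 v432 v1254 v1138 v1242 v5102 v3236 v6374 v4588 v6282
theorem v6376 : PV l6376 := r6376 v4655 v6375 v6368 v6372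
theorem v6377 : PV l6377 := r6377 w7642 w7568
theorem v6378 : PV l6378 := r6378 v4655 v432 v1254 v1138 v1242 v5276 v1360 v5102 v2514 v3239 v3295 v3105 v6371 w6306 w2512 w2513 v4489 v6283 v6369 v6366 v4495 v2407 v6377 w5426 v3618 v3621
theorem v6379 : PV l6379 := r6379 v6367 v6373
theorem v6380 : PV l6380 := r6380 v4655 v432 v1254 v1138 v1242 v433 v430 v5276 v5102 v6375 v3239 v3295 w3984 v6371 w6306 v6378 w2513 w4422 w4417 w4418 v6379
theorem v6381 : PV l6381 := r6381 w5295 v4824 w7650 w3432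
theorem v6382 : PV l6382 := r6382 v5147 v5103
theorem v6383 : PV l6383 := r6383 v6381 v6382
theorem v6384 : PV l6384 := r6384 v4200 v6383
theorem v6385 : PV l6385 := r6385 v6243 v6248 v3223 v5113 v6380 v3328 v2644 v6368 v3236 v2349 v2351 v6384 v4179 v1435 w7513 w7656
theorem v6386 : PV l6386 := r6386 w1417 v2358 w1436 v6205 w7791 v3597 w5287
theorem v6387 : PV l6387 := r6387 v4655 v432 v1254 v1138 v1242 v5113 w3438 w3756 v2272 w3607 v6386 w8082 w7744
theorem v6388 : PV l6388 := r6388 v6243 v4655 v432 v1254 v5276 v1360 v1357 v6195 w2971 v6191 v3161 v4260 v645 v2651 v4454 v4456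
theorem v6389 : PV l6389 := r6389 w2236 v6387
theorem v6390 : PV l6390 := r6390 v3534 v3546 w8063 w5323
theorem v6391 : PV l6391 := r6391 v4204 w688 v6390 v2650 v4670 w8014 w5313
theorem v6392 : PV l6392 := r6392 v6206 v3597 w4448
theorem v6393 : PV l6393 := r6393 v2272 w3438 v4209 v6243 v6248 v6350 v2658 v3933 v5112 v4655 v2433 w644 v6389 v3155 w2209 v6391 v4260 w690 v6392 v2650 v4670 w7995 w5313
theorem v6394 : PV l6394 := r6394 w8142 w7477
theorem v6395 : PV l6395 := r6395 v6394 w7623 w7804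
theorem v6396 : PV l6396 := r6396 v4655 v432 v1254 v1138 v1242 v6283 v2400 v2426 v5102 v3236 v6243 v3487 v3476 v5277 v5275 v5112 v1360 v1357 w5428 w5429 w5430 w7554 w7568 v6377 v4555 w3635 w3629 w3626 w8903 v5127 w7641 w5216 w5206 v2737 w3590 w3594 w3843 w8599 w7563 w7531 w7419 v6388 w3459 w3607 w3605 v6393 w614 w615 v6395 v2320 w2194 v1426 v649 v1307 w5528
theorem v6397 : PV l6397 := r6397 v4655 v432 v1254 v1138 v1242 v5102 v3239 v6375 v2506 v6243 v6248 v6350 v3842 v6277 v3487 v4208 v2673 v2674 v1360 v4314 v6283 v4179 w6172 v2435 v2431 v6369 w919 w899 v4495 v2403 v2407 v6396 v3619 v3621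
theorem v6398 : PV l6398 := r6398 w876 v4655 v432 v1254 v1138 v1242 v4086 v1357 v2596 v2585 v3282 v5735 w4228 v6261 v5825 v6277 v6243 v2614 v6248 w5407 v6332 v2542 v6184 v2674 v3501 v3497 v3509 w5333 v485 w3749 v5275 v5276 v5102 v2516 v2513 v2514 v2515 v6375 v3239 v3295 v3296 v3104 v3105 v3106 w4594 w3985 w3984 v6371 w6306 w2436 w2512 w2513 v6397 v4489 v4491
theorem v6399 : PV l6399 := r6399 v1435 w7513 w7656
theorem v6400 : PV l6400 := r6400 v1357 v6261 v4655 v432 v1254 v1138 v1242 v5825 v2596 v5112 v2615 v2713 v6351 w6650 v5035 w2924 v5277 v4834 w5017 v6341 v2545 v6346 v6277 v4137 v6243 v6248 v2614 w5407 v6332 v6350 v3933 v3028 w3838 v2674 v2673 v2544 v6343 v2568 w8355 v2542 v6184 v3501 v485 v3509 w3749 v3487 v3116 v3119 v3337 w5333 w4479 v3115 v3336 v4130 v6253 w4807 w5364 v433 w4487 w4825 v476 w5354 v6352 v4838 v6353 v2585 v6337 v5776 v5798 v6354 v4848 v4777 w5193 v3380 v4129 v2660 w5483 w8658 w8915 w8801 w3107 w3079 v2731 v4208 v2658 w8774 v4128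 v3219 v4800 w5471 w8609 v2323 v4569 v6360 w3811 v2308 v4132 v2661 v3118 w8799 v3476 v3497 v5275 v5113 v6385 v6398 v3327 v3328 v6368 v3236 v2351 v2352 v6399 w666 v4179 v648 v6382 w3523 v4824
theorem v6401 : PV l6401 := r6401 v4179 v4655 v432 v1254 v1138 v1242 v5102 v3236 v5112 w3631 w3629 w3627 w3611 v2341 w3433 w9151 v2370 v5106 w5575 w5573 w5212 w5295 w7554 w7568 w3632 w3593 v2407 w620 w8598 v5085 w7592 w5531 w2196 w7566
theorem v6402 : PV l6402 := r6402 v3618 v3621
theorem v6403 : PV l6403 := r6403 v2435 v4655 v432 v1254 v1138 v1242 v5102 v1669 v1360 v6401 w3615 v6402 w5429 w7628 v6377 v4121 v6365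
theorem v6404 : PV l6404 := r6404 v4655 v432 v1254 v5276 v1360 v1357 v2291 v6195 v6191 w3600 v2314 w2214 v645 v2269 v654 w1465 w5549 w8203
theorem v6405 : PV l6405 := r6405 v3534 v3553 w7703 w5268
theorem v6406 : PV l6406 := r6406 v6243 v3487 v4209 v3476 v5277 v5275 v6248 v6350 v2658 v2657 v3933 v5112 v2433 w644 v2717 v6404 w3459 w3438 v2272 v6389 v3155 w2209 v6391 v4260 w690 v6405 v2650 v4670 w7995 w5313
theorem v6407 : PV l6407 := r6407 v5275 v2611 v3537 v6207 w5735 w5546 w8145 v649 w2215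
theorem v6408 : PV l6408 := r6408 w2216 w2236 v6407 v2650 v2509 w8797 w7762 w8109 w8107
theorem v6409 : PV l6409 := r6409 v4655 v432 v1254 v1138 v1242 v6283 v2426 v5102 v3236 v2516 v6243 v6248 v6350 v3933 v2510 v5275 w5407 v5276 v5112 v1360 v1357 w5295 w5429 w5430 w7568 v6377 w3635 w3629 w3626 w8903 v5127 w7641 w5216 w5206 v2737 w3589 w3594 w3613 w3843 w8599 w7563 w7531 w7565 w7419 v6406 w646 w647 w614 w615 v6191 v2272 w3607 w3605 v6408 v2320 w2194 v1426 v649 v1307 w5528
theorem v6410 : PV l6410 := r6410 v3619 v3621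
theorem v6411 : PV l6411 := r6411 v1360 v4655 v432 v1254 v1138 v1242 v5102 v6410 v6283 v2435 v4132 w658 v4121 w622 v6409
theorem v6412 : PV l6412 := r6412 v4655 v432 v1254 v1138 v1242 v5102 v3236 v2506 v6243 v6248 v1357 v2596 v6261 v2614 w5407 v6332 v6350 v2512 v2511 v3842 v6277 v2674 v2542 v6184 v3501 v2731 v3509 w3749 v485 v3487 v4208 v2658 v4569 v3497 w5333 v3219 v4800 v2673 v2545 v2585 v5112 v1360 v4303 v4305 v4314 v6283 v4304 v4179 w6172 v2435 v2431 v6369 w919 w899 v6403 v6410 w5428 w5429 w7554 w3632 v6411 v2407 w620 w7628 v2342 w3517 w3614 w3592 v2370 v3629 v5085 w7592 w5212 w5292 w8598 w7566 w2196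
theorem v6413 : PV l6413 := r6413 w5429 v3623 w7628 w3522
theorem v6414 : PV l6414 := r6414 w876 v4655 v432 v1254 v1138 v1242 v4086 v1357 v2596 v2585 v3282 v5735 w4228 v6261 v5825 v6277 v6243 v2614 v6248 w5407 v6332 v2542 v6184 v2674 v3501 v3509 v2544 v5275 v5276 v5035 v5102 v2513 v2514 v2515 v6375 v3295 v3296 v3104 v3105 v3106 w4594 w3985 w3984 v6371 w6306 w2436 v6412 v4092 v6413 v5103 v3620
theorem v6415 : PV l6415 := r6415 w4917 v6376 w8888 w7587
theorem v6416 : PV l6416 := r6416 v4655 v432 v1254 w665 v4121 v6415 w3985 w3984 w6241 v3041 w2515 w6104 v3923 v3252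
theorem v6417 : PV l6417 := r6417 v6368 v3251 v3236 v3926 v4138 v4303 v4313 v4314 v6416 v2420 v5114 w5295 v4312 w8342 w7586 v4311
theorem v6418 : PV l6418 := r6418 v5035 v1357 v6261 v6243 v6248 v2596 v2614 w5407 v6332 v6350 v3933 v6351 w2924 v3028 v5112 v2615 v2713 v4655 v432 v1254 w6650 v5277 v4834 w5017 v6341 w3838 v2545 v6346 v2674 v2673 v2544 v6343 v2568 w8355 v2542 v6184 v3501 v485 v3509 w3749 v3487 v1138 v3116 v3119 v3337 w5333 w4479 v3115 v3336 v4130 v6253 w4807 w5364 v433 w4487 w4825 v476 w5354 v6352 v4838 v6353 v2585 v6337 v5776 v5798 v6354 v4848 v4777 w5193 v3380 v4129 v2660 w5483 w8658 w8915 w8801 w3107 w3079 v2731 v4208 v2658 w8774 v4128 v3219 v4800 w5471 w8609 v2323 v4569 v6360 v1242 v5825 w6297 w2409 w876 v4086 v3282 v5735 w4228 v6277 v4138 v3122 v3345 w3809 w9043 w3811 w3771 w3789 v2308 v4132 v2661 v3118 w8799 w4812 v3223 v5113 v6400 v6414 v3326 v2644 v3917 v6368 v3236 v2349 v2350 v6417 v6382 v6384 v4823 v4824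
theorem v6419 : PV l6419 := r6419 w5429 v6377 v3626 v5127 v2861 v3630
theorem v6420 : PV l6420 := r6420 v5106 v3621
theorem v6421 : PV l6421 := r6421 v4121 v6419
theorem v6422 : PV l6422 := r6422 v4655 v432 v1254 v1138 v1242 v5102 v3236 v4138 v5112 v1360 v4305 v4304 v4179 v6420 w5428 w5429 v6421 w667 v2407 v2420 w620 w7628 w7554 v6369 v2342 w3517 w3614 w3592 w3632 v2357 v2370 v5075 v5085 w7592 w5212 w5292 w8598 w7566 w2196
theorem v6423 : PV l6423 := r6423 w5295 v4312 w8342 w7586 v4311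
theorem v6424 : PV l6424 := r6424 v3926 v4303 v6423 v450 v458 v5083 v5114 v5094
theorem v6425 : PV l6425 := r6425 v6243 v6248 v2673 v2674 v3223 v5113 v2644 v6368 v3236 v2349 v6424 v6382 v6384 v4823 v4824
theorem v6426 : PV l6426 := r6426 v6243 v6248 v1357 v2596 v6261 v2614 w5407 v6332 v6350 v3843 v5112 v2615 v2713 v4655 v432 v1254 v6351 w6650 v5035 w2924 v5277 v4834 w5017 v6341 v2545 v6346 v6277 w876 v430 w4463 w4014 w4009 w4006 w4034 w3967 w3975 w3981 v3933 v3028 w3838 v2674 v2673 v2544 v6343 v2568 w8355 v2542 v6184 v3501 v485 v3509 w3749 v3487 v1138 v3116 v3119 v3337 w5333 w4479 v3115 v3336 v4130 v6253 w4807 w5364 v433 w4487 w4825 v476 w5354 v6352 v4838 v6353 v2585 v6337 v5776 v5798 v6354 v4848 v4777 w5193 v3380 v4129 v2660 w5483 w8658 w8915 w8801 w3107 w3079 v2731 v4208 v2658 w8774 v4128 v3219 v4800 w5471 w8609 v2323 v4569 v6360 w3771 v3334 v1242 v5113 v6292 v5034 v4525 v4086 v4120 v4230 v4231 v4233 v4032 w1748 v6361 w2664 v3051 v3065 v3967 v3977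 w898 v3291 v3282 w6176 v5735 v3844 w4228 w4226 v4994 v5053 v4727 w2418 v6418
theorem v6427 : PV l6427 := r6427 v3924 v5096 v6278 v450 v6276
theorem v6428 : PV l6428 := r6428 v4655 v432 v1254 v1138 v1242 v5102 v3239 v4498 v4588 v4092 v6369 v6363 v6413 v4494 v4495 v5103 v3620
theorem v6429 : PV l6429 := r6429 v6243 v6248 v1357 v2596 v6351 v3028 v5112 v2615 v2713 v6261 v4655 v432 v1254 w6650 v5035 w2924 v5277 v4834 w5017 v6341 v2545 v6346 v2614 w5407 v6332 v2674 v2544 v6350 v6343 v2542 v6184 v3219 v4800 v3501 v3509 v3115 v3336 v4130 v6253 w5364 v433 w4487 w4825 v476 w5354 v6352 w8774 v1138 v3116 v3119 v3337 w5333 w4479 w4807 v4838 v6353 v2585 v6337 v5776 v5798 v6354 v4848 v4777 w5193 v4129 v2660 v485 w5483 w8658 w8801 v1242 w3749 v3487 v6425 v5102 v3236 v6427 v3106 v2511 v2512 v2513 v2514 v3105 v6428 v6422 v3933 w3838 v2673 v2568 w8355 v3380 w8915 w3107 w3079 v2731 v4208 v2658 v4128 w5471 w8609 v2323 v4569 v6360 v6426 v6309 v4732 v4536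
theorem v6430 : PV l6430 := r6430 v4655 v432 v1254 v1138 v1242 v5102 v3236 v6427 v2357 v6243 v6248 v6350 v3933 v2359 v4179 v1360 v6420 v2506 v3239 v3487 v4208 v2673 v2674 v4495 v2403 v2407 v6396
theorem v6431 : PV l6431 := r6431 v4655 v432 v1254 v1138 v1357 v6261 v2596 v5112 v2615 v2713 v6351 w6650 v5035 w2924 v5277 v4834 w5017 v6341 v2544 v6243 v3116 v3119 v2614 v6248 w5407 v6332 v6350 v3337 v2674 v2545 v6346 v6343 v2542 v6184 v3501 w5333 w4479 v3115 v3336 v4130 v6253 w4807 w5364 v433 w4487 w4825 v476 w5354 v6352 v4838 v6353 v2585 v6337 v5776 v5798 v6354 v4848 v4777 w5193 v1360 v3028 v3509 w3749 v485 v3487 v6425 v1242 v5102 v3105 v3236 v6427 v4129 v2660 w5483 w8658 w8801 v2514 v6428 v6420 w5428 v4304 v4305 v2515 v2513 v3933 w3838 v2673 v2568 w8355 v3380 w8915 w3107 w3079 v2731 v4208 v2658 w8774 v4128 v3219 v4800 w5471 w8609 v2323 v4569 v6360 w3811 v2308 v4132 v2661 v3118 w8799 w3809 v3122 v3345 v3106 v3104 v2516 v2512 v2511 v3476 v3497 v4138 w9043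 v6422 v6375 v6283 w4594 v2435 v2431 v6369 v6429 w7554 v2357 w2933 v6403 v6430 v6311 v5803 v5016 v4534
theorem v6432 : PV l6432 := r6432 v6243 v3115 v1357 v2596 v6351 w2924 v5277 v6248 v6261 v2614 w5407 v6332 v6350 v3336 v5112 v2615 v2713 v4655 v432 v1254 w6650 v5035 v4834 w5017 v6341 v2545 v6346 v2544 v2674 v6343 v2542 v6184 v4130 v6253 w5364 v433 w4487 w4825 v476 w5354 v6352 w8774 v4838 v428 w4458 w4787 w4479 w4807 v3501 v3509 w5333 v485 v4129 v6337 v3337 v3119 v3116 v2585 v6353 v2660 v5776 v5798 v6354 v4848 v4777 w5483 w8658 w3809 w3207 v6431 v3927 w6644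
theorem v6433 : PV l6433 := r6433 v4655 v430 v6243 v6248 w4463 v3223 v5113 v5112 v4883 v6255 w2796 v2794
theorem v6434 : PV l6434 := r6434 v5112 v5035 v6433 v2660 v3798 w8658 v5798 w5475 v6354 v4777 v4848
theorem v6435 : PV l6435 := r6435 w8464 w8775
theorem v6436 : PV l6436 := r6436 v1357 v2596 v5112 v2615 v2713 v6261 v4655 v432 v1254 v6351 w6650 v5035 w2924 v5277 v4834 w5017 v6341 v2545 v6346 v2544 v6243 v6248 v2614 w5407 v6332 v6350 v3336 w4479 v433 w4487 v476 v3119 v3115 v4129 v2674 v6343 v2542 v6184 v3501 v4130 v3509 v6253 w5364 w4825 w4807 w5354 v6352 v4838 v6432 v6434 v6435 v3394 v3798 v5798 v6354 v4848 v4777 v4774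
theorem v6437 : PV l6437 := r6437 v1357 v2596 v5112 v2615 v2713 v6261 v4655 v432 v1254 v6351 w6650 v5035 w2924 v5277 v4834 w5017 v6341 v2545 v6243 v6248 v2614 w5407 v6332 v6350 v3933 v427 w4452 v3223 v6346 v6436 v5039 w6639 v6184 v2957
theorem v6438 : PV l6438 := r6438 w4227 w4229 v4029 v5854 v3303
theorem v6439 : PV l6439 := r6439 v3045 v4655 v432 v1254 v1138 v1242 v4525 v4086 v6438 w5928 v3282 v3253 v3977 v416 w3980 v4694 v4009
theorem v6440 : PV l6440 := r6440 v6277 w876 v5275 v4655 v432 v1254 w6650 v5276 w2690 v6304 w2478 v6439 v6290 w23 v6289 v6371 v3275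
theorem v6441 : PV l6441 := r6441 v1140 v1089 v4655 v430 v5113 w2479 w2474 w2460 v6311 w3981 w3977 v6292 w3919 w3906 w3925 v5034 v4525 v5694 v4021 v4059 v4012 v4697 v4985
theorem v6442 : PV l6442 := r6442 v3236 v4588 v6282
theorem v6443 : PV l6443 := r6443 v1140 v1089 v6441 v6440
theorem v6444 : PV l6444 := r6444 v5277 w2595 v6303 v4519 v4524
theorem v6445 : PV l6445 := r6445 v3216 v5112 v2615 v2713 v4655 v432 v1254 w6650 v5035 w2924 v5277 v4834 w5017 v6341 w3838 v2544 v2545 v3028 v6243 v6248 v6350 v3336 w4479 v433 w4487 v3115 v1138 v1242 v1316 v2674 v2673 v6345 v6343 v2542 w3749 v6184 v3501 v4130 v485 v3509 v3497 v6253 v3487 w4812 w4825 w4807 v6425 v6236 v5726 v4869 v5831 v5102 v4884 v4838 w2789 v2917 v3239 v3796 v5260 v1089 v1140 v2794 v4772 v4768 v4778 v6442 v6443 v4763 v5822 v5978 w3906 w3895 v3308 v6444 w2464 w2460 v5957 v5845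
theorem v6446 : PV l6446 := r6446 v1357 v2596 v2585 v6261 v4655 v432 v1254 v427 v6243 v2614 v3223 v6248 w4452 w5407 v6332 v6350 v3933 v6351 w2924 v6437 v6445 v5037 v5039 w6639 w2977 v2957 v6212 v6184
theorem v6447 : PV l6447 := r6447 v4655 v433 v5113 v6200 v5587 w4487 v432 v1254 v2935 v2835 v2542 v3827 v4644 w8630 w8549 v4428 v5637 v1277 v3147
theorem v6448 : PV l6448 := r6448 v5113 v5112 v5035 v4883 v4885 v4872 v2922 v2898 v4848 v3451 v5987
theorem v6449 : PV l6449 := r6449 v4655 v433 v5113 v6200 v5587 w4487 w4825 v476 v3935 v6325 v2641 v4802 v3113 v4129 v3342 v3338 v432 v1254 v5112 v5035 v4838 w8774 v5798 w3572 v6354 v5623 v4848 v3827 v2630 v4777 w3091 w8704 w5483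
theorem v6450 : PV l6450 := r6450 v2615 v4655 v432 v1254 v5112 v2920 w3469 v2545 v4866 v6341 w5014 w5812 w6650 v668 w6333
theorem v6451 : PV l6451 := r6451 w5476 v6253 v3370
theorem v6452 : PV l6452 := r6452 v482 v5113 v6200 v5587 v476 v3935 v6325 v2641 v4802 v3113 v4655 v432 w4479 v433 w4487 v3338 v1254 v1138 v5112 v5035 v2544 w3838 v6451 w4812 w4825 w4836 w4807 w5354 v6448 v5776 v6449 v3378 v5725 w5193 v4777
theorem v6453 : PV l6453 := r6453 v6200 v2629 v5113 v5587 v476 v3935 v6325 v2641 v4802 v3113 w5407 v3340 v3338 v4655 v432 v1254 v5112 v4130 v6447 v4800 v6452 v6341 w5513 w5812 v3442 v6253 v3422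
theorem v6454 : PV l6454 := r6454 v5113 v6446 v6200 v5587 v476 v3935 v6325 v2641 v4802 v3113 v3934 v473 v4591 v2568 w5407 v4655 v432 w4479 v433 w4487 v428 w4458 v2548 v3338 v1357 v2596 v2585 v6261 v2713 v2615 v1254 v1138 v1242 v5035 v6450 v6337 v1218 v6453 v5038 v5439 v3836 v3827 v2942 w2989 v5952 v5581 v4223
theorem v6455 : PV l6455 := r6455 v5113 v6200 v5587 v476 v3935 v6325 v2641 v4802 v4655 v433 w4487 v432 v1254 v390 v2935 v3827 v4644 v5636 v4796 v5637 v3147
theorem v6456 : PV l6456 := r6456 v3216 v5035 w4812 w4825 w4836 w4807 w4787 w5354 v5726 v4869 v5831 v4884 v4838 v2917 w2756 v3927 v3796 v4187 w6707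
theorem v6457 : PV l6457 := r6457 v5113 v6200 v5587 v476 v3935 v6325 v2641 v4802 v3113 v3338 v4655 v432 v1254 v4130 v6455 v4798 w5468 v6253 v3442 v3422
theorem v6458 : PV l6458 := r6458 v5113 v6200 v5587 v476 v3935 v6325 v2641 v4802 v3113 v3934 v473 v4591 v4655 v432 w4479 v433 w4487 v428 w4458 v3338 v1254 v1138 v1242 v5112 v1316 v6456 v6457 v5439 v3836 v668 v2942 w8481 w3096 v2809 w3497 v6253 v6338
theorem v6459 : PV l6459 := r6459 v5113 v6446 v6200 v5587 v473 v6325 v3342 v3934 v1357 v2596 v2585 v5112 v2641 v4129 v4591 v6454 v3140 v6458 v2820 w3470 v3374 v627 w5380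
theorem v6460 : PV l6460 := r6460 v4655 v432 v1254 v433 v430 v428 v5276 v5113 v6446 v3934 v3935 v6200 v6325 v5587 v476 v473 w4463 w4487 v6459 v5037 v5039 v5324 v4254 v2704 v4252 v4253 v3827 v3850 v5314 v1218 v2935 w2982 v5952 v4223
theorem v6461 : PV l6461 := r6461 v2673 v6268
theorem v6462 : PV l6462 := r6462 w5407 v2555 v2614 v2568 v6461 v5552 v2581 v2592 v5909 w8728 w8355
theorem v6463 : PV l6463 := r6463 v5552 v2709 w8853 w8380
theorem v6464 : PV l6464 := r6464 v668 w5476 w8481 v2809 v3370 v6253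
theorem v6465 : PV l6465 := r6465 v5655 v4057 w3895
theorem v6466 : PV l6466 := r6466 v4655 v432 v1254 v1138 v1242 v5034 v6465 v5854 v5050 w3895
theorem v6467 : PV l6467 := r6467 v4002 v3299
theorem v6468 : PV l6468 := r6468 v4655 v428 v1218 v432 v1254 v1138 v1242 v427 v3069 w2461 w2465 v6466 v6467 w3938 w3944 v4069 v6130 v5050
theorem v6469 : PV l6469 := r6469 v5112 v2794 v4655 v427 v1360 v6468 v3075 v6311 w3958 w3906 v5854 v3303 v5863 v4031
theorem v6470 : PV l6470 := r6470 v5655 v4760 w3895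
theorem v6471 : PV l6471 := r6471 v4763 v5113 v5112 v5034 v6470 v4996 v4994
theorem v6472 : PV l6472 := r6472 v3059 w2461 w2465 v6471 v5974 v5983 w3895 v5655
theorem v6473 : PV l6473 := r6473 v4655 v432 v5113 v5112 v4759 w3952 w3946 v5969
theorem v6474 : PV l6474 := r6474 v6473 v3308 v5005 v5992
theorem v6475 : PV l6475 := r6475 v1244 v5112 v2794 v4655 v428 v1218 v432 v1254 v6469 v6472 w2496 v3075 v6474 v5974 v4757 v5983
theorem v6476 : PV l6476 := r6476 v4057 v4053
theorem v6477 : PV l6477 := r6477 v4655 v432 v1254 v1138 v1242 v5034 v6476 v5854 v5050 w3895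
theorem v6478 : PV l6478 := r6478 v4655 v428 v1218 v432 v1254 v1138 v1242 v427 v3069 w2461 w2465 v6477 v6467 w3938 w3944 v4069 v6130 v5050
theorem v6479 : PV l6479 := r6479 v5112 v2794 v4655 v427 v1360 v6478 v3075 v6311 w3958 w3906 v5854 v3303 v5863 v4031
theorem v6480 : PV l6480 := r6480 v3303 v4760 v4735 w3906
theorem v6481 : PV l6481 := r6481 v5112 v6480 v5968 v5033
theorem v6482 : PV l6482 := r6482 v4763 v1244 w2461 w2465 v6481 v5974 v5983 w3895 v5841
theorem v6483 : PV l6483 := r6483 v1244 v5112 v2794 v4655 v428 v1218 v432 v1254 v6475 v6479 v6482 w2496 v3075 v6474 v5974 v4757 v5983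
theorem v6484 : PV l6484 := r6484 v5655 v4754 w3895
theorem v6485 : PV l6485 := r6485 v5112 v3059 w2461 w2465 v6471 v6484 v3308 v4549 v5982
theorem v6486 : PV l6486 := r6486 v6483 v1244 v5112 v2794 v4655 v428 v1218 v1357 v1316 v6469 v6485 w2496 v3075 v6474 v5048 v3303 v4550 v4553
theorem v6487 : PV l6487 := r6487 v4763 v5113 v5112 v5034 v6480 v4996 v4994
theorem v6488 : PV l6488 := r6488 v4763 v5841 v4754 w3895
theorem v6489 : PV l6489 := r6489 v1244 v5112 v3059 w2461 w2465 v6487 v6488 v3308 v4549 v5982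
theorem v6490 : PV l6490 := r6490 v1244 v5112 v2794 v4655 v428 v1218 v1357 v1316 v6486 v6479 v6489 w2496 v3075 v6474 v5048 v4537 v4539
theorem v6491 : PV l6491 := r6491 v4655 v432 v1254 v1138 v1242 v6355 v5917 v4026
theorem v6492 : PV l6492 := r6492 v6224 v4655 v432 v1254 v1138 v1242 v427 v3069 w2649 w2461 w2465 v6491 v6467 w3938 w3944 v4069 v6130 v5050
theorem v6493 : PV l6493 := r6493 v6217 v1244 v4655 v428 v1218 v427 v1360 v6492 v3075 v6311 w3958 w3906 v5854 v3303 v5863 v4031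
theorem v6494 : PV l6494 := r6494 v5968 v4550
theorem v6495 : PV l6495 := r6495 v1244 v5112 v2794 v1357 v1316 v6489 w2496 v3075 v6474 v5048 v3303 v6494 w3906 v4548 v4534
theorem v6496 : PV l6496 := r6496 v3045 v4655 v432 v1254 v1138 v1242 v4525 v4086 v6355 w3924 v4026 v4009 v3099 v4694 v413 v3997 v5825 w4035 w6113 w6252
theorem v6497 : PV l6497 := r6497 v6224 v5112 v2794 v4655 v432 v1254 v1138 v1242 v427 v3069 w2649 w2478 w2461 w2465 v6496 v6467 w3938 w3944 v4069 v6130 v5050
theorem v6498 : PV l6498 := r6498 v6217 v1244 v6224 v4655 v428 v1218 v427 v1360 v6490 v6495 w876 v6493 v6497 v3075 v6311 w3958 w3906 v5854 v3303 v5863 v4031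
theorem v6499 : PV l6499 := r6499 v5112 v1360 v2611 v3536 v3537 v6226 w2339 v2314 w7903 w8229 w5733
theorem v6500 : PV l6500 := r6500 v1357 v1316 w694 w714 v6499 v2651 v650 v736 v1697
theorem v6501 : PV l6501 := r6501 v5756 v4945 v2466 w4443
theorem v6502 : PV l6502 := r6502 v5037 v1316 v4655 v4204 v2685 v6501 v3931 v3900 v5893 w4263
theorem v6503 : PV l6503 := r6503 v1244 v4655 v428 v1218 v5113 v2687 v2685 v6502 v5879 v2384 v5884 w746 v3330 w8091 w7751
theorem v6504 : PV l6504 := r6504 w2278 v2314 v26 w5652 v737 v1092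
theorem v6505 : PV l6505 := r6505 w8719 w8622
theorem v6506 : PV l6506 := r6506 w2461 w2465 v6466
theorem v6507 : PV l6507 := r6507 v6506 v6311 v4032 v4031
theorem v6508 : PV l6508 := r6508 v4655 v432 v1254 v1138 v1242 v427 w3938 w3944 v4069 v6130 v5050
theorem v6509 : PV l6509 := r6509 v4655 v432 v1254 v1138 v1242 v5112 v5826 v428 v1218 v2687 v2685 w709 v6502 v5879
theorem v6510 : PV l6510 := r6510 v4655 v432 v1254 v1138 v1242 v1316 v5956 v6130 v5050
theorem v6511 : PV l6511 := r6511 v1360 v1357 v1316 w694 w714 v736 w1501 w1465 w7903 w8229 w5733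
theorem v6512 : PV l6512 := r6512 w2339 w2269 v6511 v645 w8717 w8201
theorem v6513 : PV l6513 := r6513 v5276 v1316 v5669 v1697
theorem v6514 : PV l6514 := r6514 w8728 w3671 w3712 v6512 v6513 v1279 w7959 w8284
theorem v6515 : PV l6515 := r6515 v4655 v432 v1254 v1138 v1242 v5112 v5874 v4235 w4733 v26
theorem v6516 : PV l6516 := r6516 v1316 v4655 v2379 w2269 v6515 v5040 v6501 v3931 v3900 v5893 w4263
theorem v6517 : PV l6517 := r6517 v6226 v1697 w8651
theorem v6518 : PV l6518 := r6518 w8728 v5112 w3671 w3712 v6512 v6517 v1279 w7959 w8284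
theorem v6519 : PV l6519 := r6519 v5039 v4655 v428 v1218 v432 v1254 v1138 v1242 v5113 v5112 v3069 w2461 w2465 v6508 v4002 v5826 v5847 v6516 w2257 v6197 v6503 v6509 v2273
theorem v6520 : PV l6520 := r6520 v1244 v5112 v2794 v4655 v427 v5276 v1360 v6507 v6519 v3075 w2453 v6311 v706 w3958 w3906 v3308 v5863
theorem v6521 : PV l6521 := r6521 v5005 v4713
theorem v6522 : PV l6522 := r6522 v6521 v4712 v5992
theorem v6523 : PV l6523 := r6523 v5112 v2794 v4655 v432 v1254 v1316 v6489 w2496 v3075 v6522 v5974 v5978 v4553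
theorem v6524 : PV l6524 := r6524 w2461 w2465 v6477
theorem v6525 : PV l6525 := r6525 v6524 v6311 v4032 v4031
theorem v6526 : PV l6526 := r6526 v5037 v1316 v4655 v4206 v2686 v6501 v3931 v3900 v5893 w4263
theorem v6527 : PV l6527 := r6527 v5112 v2379 w2269 v6526 w702 v26 w5652 w7706 v28 w1477
theorem v6528 : PV l6528 := r6528 v4655 v428 v1218 v432 v1254 v1138 v1242 v5113 v5112 v3069 w2461 w2465 v6508 v4002 v5826 v5847 v6527 w2257 v6197 v6503 v6509 v2273
theorem v6529 : PV l6529 := r6529 v5112 v6505 w8603 v1244 v2794 v4655 v428 v1218 v427 v5276 v1360 w8656 v6518 w3438 w3677 w3012 v2303 w3664 w3729 v6523 v6520 v6525 v6528 v3075 w2453 v6311 v706 w3958 w3906 v3308 v5863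
theorem v6530 : PV l6530 := r6530 w2649 v6491
theorem v6531 : PV l6531 := r6531 v6530 v6311 v4032 v4031
theorem v6532 : PV l6532 := r6532 v1279 w7959 w8284
theorem v6533 : PV l6533 := r6533 w8728 v5037 v4655 v432 v1254 v5112 w2965 w3671 w3712 v6514 v6512 v6532 v4204 v2685 v6226 v1697 v3537 v3570 w5301 w4749 v3879 v4816 v4817
theorem v6534 : PV l6534 := r6534 v5112 v2794 v3069 w2649 w2478 v6496
theorem v6535 : PV l6535 := r6535 v4655 v428 v1218 v6531 v6534 v6311 v4032 v4031
theorem v6536 : PV l6536 := r6536 w760 v2296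
theorem v6537 : PV l6537 := r6537 v1497 v744
theorem v6538 : PV l6538 := r6538 v4655 v428 v1218 v432 v1254 v1138 v1242 v2379 v6502 v6537 v2448 w1511 v5892 v5887
theorem v6539 : PV l6539 := r6539 v1244 v4655 v428 v1218 v432 v1254 v5113 v3069 w2461 w2465 v6508 v6510 v4002 w3893 v5847 v6538 w2257 v6197 v2687 v2685 v6502 v5884 w7757 v5882 w4262 v3911
theorem v6540 : PV l6540 := r6540 v4655 v427 v5276 v1360 v3075 w2453 v6311 v706 w3958 w3906 v3308 v5863
theorem v6541 : PV l6541 := r6541 w1465 v1497 w7706 w5636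
theorem v6542 : PV l6542 := r6542 v4655 v428 v1218 v2379 w2269 v6526 v6541 v2448 w1511 v5892 v5887
theorem v6543 : PV l6543 := r6543 v4655 v432 v1254 v3223 v427 v6248 w4452 w6639 w3007 w3003 v5037 w2753 v6498 v6217 v1244 v6224 v5112 v2794 v428 v1218 v1138 v1242 v5113 w876 v6535 v6540 v3069 w2461 w2465 v6539 v6508 v4002 v5826 v5847 v6542 w2257 v6197 v2687 v2685 v6502 v5884 w7757 v5882 w4262 v3911
theorem v6544 : PV l6544 := r6544 v5112 v5039 v3219 v4655 v432 v6248 w4479 v1254 v3836 w3049 v473 v3223 v2529 v2703 v2942 v4245 w5332 v4248 v6505 w8603 v5037 v427 w4452 w6639 w2753 v4243 v6212 w2984 v6498 v476 v2734 v6217 v6224 v2794 v428 w4458 v3855 w3042 v3333 v430 w4463 v1218 v2555 v1316 v6529 v6533 w3438 w3012 v2303 w3664 v6543 v6489 w2496 v6522 v5974 v5978 v5983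
theorem v6545 : PV l6545 := r6545 v6507 v6525
theorem v6546 : PV l6546 := r6546 v5112 w8603 w8728 v2322 w3671 w3712 v6512 w2257 v6532 v6226 w1454 w8651 w5627 w8264 w8371
theorem v6547 : PV l6547 := r6547 v1244 v4655 v428 v1218 v2687 v2685 v6502 v5884 w7757 v5882 w4262 v3911
theorem v6548 : PV l6548 := r6548 v4655 v432 v1254 v5113 w2257 v6197
theorem v6549 : PV l6549 := r6549 v1244 v5112 v2794 v5039 v4655 v428 v1218 v432 v1254 v1138 v1242 v6545 v6540 v3069 w2461 w2465 v6508 v4002 v5826 v5847 v6547 v6548 v6516 v6527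
theorem v6550 : PV l6550 := r6550 v5112 v6505 w8603 v2794 v4655 v428 v1218 v1357 v1316 v6546 w3438 w3677 w3003 w3007 w3012 v2303 w3664 v6549 v6489 w2496 v3075 v6522 v5048 v3303 v4553 v6494
theorem v6551 : PV l6551 := r6551 v5893 v3910 w4262
theorem v6552 : PV l6552 := r6552 w8264 w8371
theorem v6553 : PV l6553 := r6553 w8728 v4655 v432 v1254 v5276 v5112 v1316 v2322 w3671 w3712 v6512 w2257 v6532 w694 v6226 v2305 w1454 v6552 v2293 w5634 v5669 w8734 w7943
theorem v6554 : PV l6554 := r6554 v1316 v6548 v2379 v22 v1497 v2448 v3570 w1511 v6551 v5887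
theorem v6555 : PV l6555 := r6555 v5037 v6217 v1244 v6224 v5112 v4655 v432 v1254 v3223 v427 v6248 w4452 w6639 w2753 v2794 v428 v1218 v1138 v1242 w876 v6535 v6540 v3069 w2461 w2465 v6508 v4002 v5826 v5847 v6547
theorem v6556 : PV l6556 := r6556 v5112 v6243 v6248 v5175 v6350 v2657 v5039 v3219 v4655 v432 w4479 v1254 v3836 w4498 v5037 v2675 v4892 w3049 v473 v3223 v2529 v2703 v2942 v4245 w5332 v4248 v6505 w8603 v427 w4452 w6639 w2753 v430 w4463 v4909 w2734 v6184 v4243 v476 v5438 v3496 v6212 w2984 v6498 v2734 v1316 v3115 v3336 v6464 v2308 w5354 v428 w4458 w4787 w4816 v433 w4487 w4836 w4825 w4812 w5364 v6217 v1244 v6224 v2794 v3855 v4903 w3042 v3333 v2656 v2672 v1218 v2555 v3118 v2614 v1357 v5035 w2897 v3436 v3430 v4838 w3098 w2790 w2789 v4848 v4869 v3454 v3763 v2661 w2909 w3081 v6544 v6550 v6553 w3438 w3003 w3007 w3012 w3664 v6554 v6555 v6489 w2496 v3075 v6522 v5048 v3303 v6494 v5071 w3906 v4534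
theorem v6557 : PV l6557 := r6557 v6460 v2615 v4655 v432 v1254 v5113 v5112 v1316 v6243 v2614 v6320 v3219 v3223 v6248 v3115 v2555 v473 w4479 w5407 v6462 v5037 v5039 v5175 v2675 v2529 v2703 v6350 v3336 v3836 v2942 v6184 v4245 v6212 v4248 v4243 w2984 v6463 v2581 v2592 w3749 w2924 v5528 v6347 w6374 w6713 v6464 w5364 w5812 v6341 w9090 v2571 v6556 v3426
theorem v6558 : PV l6558 := r6558 v6154 w6435 v5552 w6769
theorem v6559 : PV l6559 := r6559 v5113 v6557 v6200 v5587 v4655 v432 v1254 v430 w4463 v6325 v3934 v473 v6262 v2641 v4591 v6263 v5623 v5636 w5339 v5035 v4100 v476 v3935 v4802 v3113 v3338 v433 w4487 v4796 v4970 w2989 v4644 v6253 w5740 v4428 v3340 v2629 v6337 w8701 w3467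
theorem v6560 : PV l6560 := r6560 v4655 v432 v5113 v6557 v6200 v5587 w4479 v433 w4487 v428 w4458 v430 w4463 v473 v476 v6325 v3338 v3935 v3934 v1254 v5112 v5035 v6262 v2641 v4802 v4591 v3113 v6263 v4100 v5623 v5636 v4796 v4970 w2989 v4644 v6253 w4812 v6559 v6456 v4869 v2920
theorem v6561 : PV l6561 := r6561 v5112 v2794 v4655 v432 v1254 v1316 v5034 v5942 w3907 w3888 v5852 v6060 v5956 v5843 w2450 v4050
theorem v6562 : PV l6562 := r6562 w692 w690 v634 w5631 w5630 w8161 w2265 w2261 w8284 w8248 w1454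
theorem v6563 : PV l6563 := r6563 w692 v634 v2628 v2627 w8161 v2621 w2277 w2292 w8250 v4291 v6562 v2853 v2857 w1470 w8252 w7925 w5702
theorem v6564 : PV l6564 := r6564 v5112 v1316 v2379 v2313 v5893 w4732 w7998 w8163
theorem v6565 : PV l6565 := r6565 v3548 v3551
theorem v6566 : PV l6566 := r6566 v5802 v5801
theorem v6567 : PV l6567 := r6567 v4763 v5843 v5968 v5983 v5984
theorem v6568 : PV l6568 := r6568 v5112 v2794 v4655 v432 v1254 v5942 w3907 w3888 v5852 v3303 v4031 v4029
theorem v6569 : PV l6569 := r6569 v4231 v5942 w4004 v5854 v4057 w2533 w6310 w6244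
theorem v6570 : PV l6570 := r6570 v3550 v3546
theorem v6571 : PV l6571 := r6571 v6570 v4271 v4266
theorem v6572 : PV l6572 := r6572 v4007 v4763 v4655 v430 v5113 v5112 v1316 w3981 w3977 w3919 v5017 v5804
theorem v6573 : PV l6573 := r6573 v5034 v4763 v5112 v2794 v3074 v6572 v5675 v2777 v5012
theorem v6574 : PV l6574 := r6574 v5018 v4738
theorem v6575 : PV l6575 := r6575 v1268 v5277 v6573 v6574 v5807 v5016
theorem v6576 : PV l6576 := r6576 v5277 v4655 v432 v1254 v5112 v1316 v6575 v5974 v5978 v5983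
theorem v6577 : PV l6577 := r6577 v5942 v5854 v3303 v5917 v4031 v4029
theorem v6578 : PV l6578 := r6578 v6561 v6569
theorem v6579 : PV l6579 := r6579 v4655 v432 v1254 v433 v5113 v6200 v5587 w4487 v476 v3935 v6325 v2641 v4802 v3827 w2738 v5277 v5275 v2935 v428 v1218 w2989 v5581 v4218 v4223 v3830 v2640 v427 v5112 v1357 v3820 v6578 v6566 v6311 v5678 w2595 v3303 v3304 v5943 v3298 w3938
theorem v6580 : PV l6580 := r6580 v5277 v6567 v6576
theorem v6581 : PV l6581 := r6581 v6568 v6577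
theorem v6582 : PV l6582 := r6582 v5277 v5275 v6200 v5113 v5587 v4655 v432 v1254 v433 w4487 v476 v3935 v6325 v2641 v4802 v3827 v2935 v428 v1218 w2989 v5581 v4218 v4223 v3830 v2640 v427 v5112 v1357 v6580 v6579 v6581 v6566 v6311 v5678 w2595 v3303 v3304 v5943 v3298 w3938
theorem v6583 : PV l6583 := r6583 v5112 v2794 v4655 v432 v1254 v4231 v5942 v6569 w4004 w3888 v5852 v3303 v6137 w6310 w6244
theorem v6584 : PV l6584 := r6584 v4655 v432 v1254 v433 v5113 v6200 v5587 w4487 v476 v3935 v6325 v2641 v4802 v3827 w2738 w2732 v2935 v428 v1218 w2989 v5581 v4218 v4223 v3830 v2640 v1357 v3820 v6583 v6566 v6311 v5678 v3306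
theorem v6585 : PV l6585 := r6585 v5034 v4763 v4655 v430 v5113 w3967 v6279 v4994
theorem v6586 : PV l6586 := r6586 v4525 v4007 v5112 v2794 v3059 w2478 v6585 w3924 v5807 v5008
theorem v6587 : PV l6587 := r6587 v2779 v6291 v5968
theorem v6588 : PV l6588 := r6588 v5112 v2794 v6586 v6587 v5807 v5016
theorem v6589 : PV l6589 := r6589 v5277 v4655 v432 v1254 v5112 v1316 v6588 v5974 v5978 v5983
theorem v6590 : PV l6590 := r6590 v5277 v5275 v6200 v5113 v5587 v4655 v432 v1254 v433 w4487 v476 v3935 v6325 v2641 v4802 v3827 v2935 v428 v1218 w2989 v5581 v4218 v4223 v3830 v2640 v1357 v6582 v6589 v6584 v6581 v6566 v6311 v5678 v3306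
theorem v6591 : PV l6591 := r6591 v4655 v432 v1254 v5942 v5697 v5917 v4031 v3085 v6163 v4058
theorem v6592 : PV l6592 := r6592 v1357 v6591 v6566 v6311 v5678 v6290 v3085 v3303 v3304 v3309 v5749 v5044
theorem v6593 : PV l6593 := r6593 v5277 v5112 v6572 v3085 v5807 v5805 v6480 v5968
theorem v6594 : PV l6594 := r6594 v1268 v6593 v6574 v5807 v5016
theorem v6595 : PV l6595 := r6595 v4655 v432 v1254 v5112 v1316 v5974 v5978 v5983
theorem v6596 : PV l6596 := r6596 v5277 v6567 v6594
theorem v6597 : PV l6597 := r6597 v5807 v3303 v5805 v5968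
theorem v6598 : PV l6598 := r6598 v5277 v5275 v6200 v5113 v5587 v4655 v432 v1254 v433 w4487 v476 v3935 v6325 v2641 v4802 v3827 v2935 v428 v1218 w2989 v5581 v4218 v4223 v3830 v2640 v6590 v6592 v6595 v6596 v4618 v6597 v2779 v6587 v6279 v5968
theorem v6599 : PV l6599 := r6599 v6581 v6569
theorem v6600 : PV l6600 := r6600 v4655 v432 v1254 v433 v5113 v6200 v5587 w4487 v476 v3935 v6325 v2641 v4802 v3827 w2738 v2935 v428 v1218 w2989 v5581 v4218 v4223 v3830 v2640 v5112 v1357 v3820 v6599 v6566 v6540 v5678 v3303 v5943 v5854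
theorem v6601 : PV l6601 := r6601 v4525 v4007 v5112 v2794 v5257 v1268 v5277 v6573 w2479 v6574 v5807 w3924 v5009
theorem v6602 : PV l6602 := r6602 v5113 v6200 v5587 v6325 v2641 v6598 v5257 v5277 v5275 v4655 v433 w4487 v476 v3935 v4802 v432 v1254 v3827 v3830 v428 v1218 v5112 v2794 v6600 v4007 v6595 v4525 v6601 v6586 w2479 v6587 v5807 w3924 v5009
theorem v6603 : PV l6603 := r6603 v5112 v3085 v6480 v5968 v5027
theorem v6604 : PV l6604 := r6604 v5807 v3303 v5813 v5968
theorem v6605 : PV l6605 := r6605 v5277 v5275 v6200 v5113 v5587 v4655 v432 v1254 v433 w4487 v476 v3935 v6325 v2641 v4802 v3827 v2935 v428 v1218 w2989 v5581 v4218 v4223 v3830 v2640 v6598 v5257 v1268 v6602 v6592 v6595 v6603 w2460 v6604 v6587 v6574 v4618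
theorem v6606 : PV l6606 := r6606 v5968 v5965
theorem v6607 : PV l6607 := r6607 v5113 v6200 v5587 v6325 v2641 v1245 v4655 v432 v1254 v433 w4487 v476 v3935 v4802 v3827 v2935 v428 v1218 w2989 v5581 v4218 v3830 v5112 v1357 v1316 v2794 v6600 v6595 v6606 v5978 v5959 v5027 v5028
theorem v6608 : PV l6608 := r6608 v6569 v6577
theorem v6609 : PV l6609 := r6609 v5113 v6200 v5587 v6325 v2641 v1245 v4655 v432 v1254 v433 w4487 v476 v3935 v4802 v3827 w2745 v2935 v428 v1218 w2989 v5581 v4218 v4223 v3830 v2640 v1357 v3820 v6608 v6566 v6311 v5678 v6290 w2461 v3303 v3304 v5749 v3309 v5044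
theorem v6610 : PV l6610 := r6610 v5277 v5275 v6200 v5113 v5587 v4655 v432 v1254 v433 w4487 v476 v3935 v6325 v2641 v4802 v3827 v2935 v428 v1218 w2989 v5581 v4218 v3830 v5112 v1316 v6605 v1245 v6607 v6609 v6595 v6606 v6603 v5978 w3906 v5027 v6604
theorem v6611 : PV l6611 := r6611 v5112 v4655 v432 v1254 v433 v5113 v6200 v5587 w4487 v476 v3935 v6325 v2641 v4802 v3827 w4498 v3813 v2934 v2794 v3810 v2935 v428 v1218 w2989 v5581 v4218 v4223 v3830 v2640 v427 v1357 v6600 v6581 v5837 v6566 v5943 v6311 v5678 v3303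
theorem v6612 : PV l6612 := r6612 v5277 v5275 v5113 v6200 v5587 v4655 v432 v1254 v433 w4487 v476 v3935 v6325 v2641 v4802 v3827 v2935 v428 v1218 w2989 v5581 w5339 v1316 v3113 v3830 v3338 v4223 v5952 v4800 v6464 v2308 w5740 w5354 w4479 w4807 w4825 w4812 v4798 v4132 v4218 v430 w4463 v3934 v473 v4591 v3850 v2627 v4129 w4498 w4458 v3342 v3341 v3340 v5112 v5035 v6456 v2629 v2556 v6448 v3797 w3073 w3074 w3063 w8701 w8606 w801 v3129 w2357 w9090 w8704 v2544 w3838 w5475 v4769 v4777 v6610 v3813 v3814 w2749 v2934 v2794 v6611 v6606 v5978 v5839 w3906 v3308 v5838 v1268 v5807 v5799 w6281 v4534 v4547 v5266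
theorem v6613 : PV l6613 := r6613 v5113 v5112 v2901 v2544 v2811 v4848 v2632 v2557 w8701 w9090 w801
theorem v6614 : PV l6614 := r6614 v5113 v5587 v476 w5354 v4655 v432 w4479 w4807 v433 w4487 w4825 w4812 v428 v1218 w2989 w4458 v5112 v5035 v2791 v6613 v2820 v6456 v2629 v2556 v6448 v3797 w3835 w3073 w9090 w8701 w801
theorem v6615 : PV l6615 := r6615 w5354 w4807 w4825 w4812 v5112 v2820 w2899 v6456 v3797 v6448
theorem v6616 : PV l6616 := r6616 v5113 v5587 w5407 w5812 v4655 v433 w4487 w4825 v432 w4479 v428 w4458 v476 v5112 v5035 w2924 v5552 v6615 v2901 v2811 v4848 v2632 v2557 w8701 w801 w9167 w9090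
theorem v6617 : PV l6617 := r6617 v6200 v3340 v5113 v5587 v6325 v2641 v2568 v4655 v428 v1218 v432 v1254 v433 w4487 v476 v3935 v4802 v3827 w2989 v2935 v5581 v4223 v1316 v3113 v3830 v3338 v5952 v4800 v6464 w5339 w5740 w5407 w5812 v6614 v6616 w5354 w4479 w4807 w4825 w4812 w4458 v5112 v5035 v5552 v6613 v2820 v6456 v6612 v2629 v2556 v6448 v3797 w3073 w8701 w801 w8891 w9090
theorem v6618 : PV l6618 := r6618 v4655 v432 v1254 v5113 v5112 v5035 v2901 v2923 v2929 v6235 v4848 v5831 v3927 v2557 w6644 v2571 w9167 w9090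
theorem v6619 : PV l6619 := r6619 v5113 v6200 v5587 v476 v3935 v6325 v2641 v4802 v3113 v2568 v4655 v428 v1218 w5407 v432 w4479 v433 w4487 w4458 v3340 v3338 v1254 v5112 v1316 v3827 v2935 v3830 w2989 v5581 v4223 w5339 v5952 v4800 v6464 w4812 w4825 w4836 w4807 w4787 w5354 w5812 w5740 v6614 v6616 v6617 v6618 v2820 v6456 v2629 v2556 v6448 v3797 w3073 w8701 w801 w9167 w9090
theorem v6620 : PV l6620 := r6620 v4086 v5942 v6581 w4036 v5854 v3100 v4057 w6252 w2569
theorem v6621 : PV l6621 := r6621 v5112 v1360 v1357 w876 v6620 v6566 v6290 v5862 v3079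
theorem v6622 : PV l6622 := r6622 v1245 v5112 v2794 w6374 v1357 v1316 v6621 v6606 v5959
theorem v6623 : PV l6623 := r6623 w4036 v5854 v3100 v4057 w6252 w6113
theorem v6624 : PV l6624 := r6624 v5034 v4655 v428 v1218 v432 v1254 v1138 v1242 v5113 v3059 w2461 w2455 w2465 v6623 v4053 w3895 v3308 v4045 w5915 v4994 w3947
theorem v6625 : PV l6625 := r6625 v3999 v3998
theorem v6626 : PV l6626 := r6626 v5112 w2705 v2794 v4655 v428 v1218 w2702 v430 v427 v4086 v6624 w2496 v3075 w2453 v6625 w3938 w3960 w3944 v4066 v6311 v5067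
theorem v6627 : PV l6627 := r6627 v5112 v1360 v1357 w876 v6626 v6566 v6290 v3079 v4042
theorem v6628 : PV l6628 := r6628 v1245 v5112 w2461 v6480 v5968 v5027
theorem v6629 : PV l6629 := r6629 v4655 v432 v5113 v5112 v1357 v5968 w3952 w3946 v5964 w3896
theorem v6630 : PV l6630 := r6630 v4655 v428 v1218 w2702 v1245 w2705 w6374 v6622 v6627 v6595 v6628 v6629 w3906 v5977 v5016
theorem v6631 : PV l6631 := r6631 v1245 v5112 w2461 v6480 v5960 v5027
theorem v6632 : PV l6632 := r6632 v4655 v432 v5113 v5112 v1357 v1316 w3952 w3946 v5960 v5972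
theorem v6633 : PV l6633 := r6633 v1245 v6631 v6632 w3906 v5977 v5016
theorem v6634 : PV l6634 := r6634 v1357 v1316 v5962 v4550 v4549
theorem v6635 : PV l6635 := r6635 v1245 w6374 v4655 v432 v1254 v5112 v1357 v1316 v6621 v6633 v6634 v5978 w3906 v3308 v5982 v3075 v5048 v4548 v4534
theorem v6636 : PV l6636 := r6636 v4655 v432 v5113 v5112 v1357 w3952 w3946 v5960 v5964 w3896
theorem v6637 : PV l6637 := r6637 v1245 v6631 v6636 w3906 v5977 v5016
theorem v6638 : PV l6638 := r6638 w6374 v5113 v5587 v476 w5354 v4655 v432 w4479 w4816 v433 w4487 w4825 w5364 v428 v1218 w4458 v2615 v1254 v5112 v1316 v5035 w2705 w2702 v6615 v1245 v2901 v2909 v4848 v4862 v2632 v2557 w8701 w9090 w3467 v2571 v3436 v4790 v6630 v6635 v6627 v6637 v6634 v5978 v3308 v5982 v3075 w2453 v4548 w6015 w6336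
theorem v6639 : PV l6639 := r6639 v4655 v432 v1254 v5112 v4086 v5942 v6591 w4036 w3907 v2794 v6581 w3900 v5852 v3100 v4057 w6252 w2569
theorem v6640 : PV l6640 := r6640 v4655 v428 v1218 v5112 v1357 v1316 v1268 v6639 v6566 w3911 w3907 v5956 v5943
theorem v6641 : PV l6641 := r6641 v4086 v5942 v6620 v5854 v6623 v3303 v3085 v5917 v4031
theorem v6642 : PV l6642 := r6642 v4655 v432 v5113 v5587 w4479 w4807 v433 w4487 w4812 v5112 v5035 w8933 v6236 w3169 v2556 v4883 w9090 v6244 v2571
theorem v6643 : PV l6643 := r6643 v5112 v1360 v1357 w876 v6640 v1245 v6641 v6566 v6290 v5862 v3079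
theorem v6644 : PV l6644 := r6644 v4655 v432 v1254 v5112 v1316 v6632 v5978 v5984
theorem v6645 : PV l6645 := r6645 v4655 v428 v5113 v5587 w4458 w4787 v432 w4479 w4807 v433 w4487 w4825 w4812 v5035 v4834 v476 v5112 v1268 v6644 v6595 v6618 v2820 w3564 v6456 w8834 v4872 v2631 w2770 v4848
theorem v6646 : PV l6646 := r6646 w6374 v5113 v5587 v476 w5354 v4655 v428 w4458 w4787 v432 w4479 w4816 w4807 v433 w4487 w4825 w4812 v5035 v4834 v1218 v2615 v1254 v5112 v1316 v6643 v6645 v1245 v6637 v6595 v6634 v6618 v5978 w3906 v2820 w3564 v3308 v5807 v6456 v6448 w8834 v5982 v4534 v2631 v3767 v3762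
theorem v6647 : PV l6647 := r6647 v3303 v3100 v4031 w6252 v6163 w2569
theorem v6648 : PV l6648 := r6648 w4036 w3907 v6647 v4058 w2569 w6252 w6315
theorem v6649 : PV l6649 := r6649 v4066 v4053
theorem v6650 : PV l6650 := r6650 v4655 v432 v1254 v1138 v1242 v5113 v5034 v4525 v4086 v6648 w3897 w3891 v6649 v3308 w5915 w6034 v4056 v3043 v3974 w4113 v4985 v713 v4045
theorem v6651 : PV l6651 := r6651 v5112 v1360 v1357 v6650 v6566 w3902 v5827 w5929 w6547
theorem v6652 : PV l6652 := r6652 w4036 v5854 v6623 v3303 v6647 w2461 v4027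
theorem v6653 : PV l6653 := r6653 v4655 v432 v1254 v1138 v1242 w2455 v6624 w5915 v2790
theorem v6654 : PV l6654 := r6654 v4655 v432 v1254 v1138 v1242 v4086 v6652 w3906 v6649 v3308 v6653 w2571 v6311 v4056 v5267 w5915 w4035 w6252 w6315
theorem v6655 : PV l6655 := r6655 v5112 v1360 v1357 w876 v6651 v1268 v6654 v6566 v6290 v5862 v3079
theorem v6656 : PV l6656 := r6656 v4763 v4655 v432 v5113 v5112 v1357 v1316 w3952 w3946 v5960 v5964 v5046 v5841
theorem v6657 : PV l6657 := r6657 v4655 v432 v1254 v5112 v1316 v6656 v5978 v5984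
theorem v6658 : PV l6658 := r6658 v4655 v428 v5113 v5587 w4458 w4787 v432 w4479 w4807 v433 w4487 w4825 w4812 v5035 v4834 v476 v5112 v1268 v6657 v6595 v6618 v2820 w3564 v6456 w8834 v4872 v2631 w2770 v4848
theorem v6659 : PV l6659 := r6659 w6374 v5113 v5587 v476 w5354 v4655 v428 w4458 w4787 v432 w4479 w4816 w4807 v433 w4487 w4825 w4812 v5035 v4834 v1218 v2615 v1254 v5112 v1316 v6646 v6655 v6658 v1245 v6637 v6595 v6634 v6618 v5978 w3906 v2820 w3564 v3308 v5807 v6456 v6448 w8834 v5982 v4534 v2631 v3767 v3762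
theorem v6660 : PV l6660 := r6660 v5065 v5047
theorem v6661 : PV l6661 := r6661 v5034 v4763 v4655 v432 v5113 v5112 v1357 v1316 w3952 w3946 v5960 v5964 v5047 v4745
theorem v6662 : PV l6662 := r6662 v4655 v432 v1254 v5112 v1316 v6637 v1268 v6661 v5978 v5984
theorem v6663 : PV l6663 := r6663 v4655 v432 v1254 v5113 v5112 v5035 v2901 v2923 v2929 v6235 v4848 v5831 v3927 v2557 w6644 w9090 v2571
theorem v6664 : PV l6664 := r6664 v5113 v6557 v6200 v5587 v2615 v6460 v6560 v6619 v5623 v6325 v2641 v5636 w5339 v5035 v4100 v476 v3935 v4802 v3113 v3338 v4655 v433 w4487 v428 v1218 w2989 v4644 v6253 v2308 w5740 w5407 w5812 w5350 w5354 w4458 w4787 v432 w4479 w4807 w4825 w4812 v4834 v4643 w4498 v3824 v3822 v4796 v4428 v4135 v2640 v3341 v3340 v5112 v2791 w3748 v2581 v2592 v5528 v6323 v6638 w2979 v6642 v6659 v6663 v2820 w3564 v6456 v6448 w8834 v3927 v2631 v4196 v4187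
theorem v6665 : PV l6665 := r6665 v5113 v5587 w5407 w5812 v4655 v428 w4458 w4787 v432 w4479 w4807 v433 w4487 w4825 w4812 v2615 v5112 v5035 v2592 w3749 w2924 v6323 v6663 w3241 w3564 v4848 w8834 v2631
theorem v6666 : PV l6666 := r6666 v2632 v2557 w8701 w3824 w9167 w9153
theorem v6667 : PV l6667 := r6667 v4655 v428 v6560 v1218 v5113 v6557 v6200 v5587 w5407 v433 w4487 v476 v6325 v3341 v3340 v3338 v3935 v6460 v2615 v5112 v5035 v2641 v4802 v3113 v6619 v5038 v4135 v4428 v4100 v5623 v5636 v4796 v6455 w2989 w5339 v4644 v4834 v6253 w4825 w5812 w5740 v2308 v6664 v6665 v5552 v2709 v6666 v5725 v4848 w8774 w3190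
theorem v6668 : PV l6668 := r6668 v4655 v433 v5113 v6200 v5587 w4487 v473 v476 v6325 v3935 v3934 v432 v1254 v5276 v5037 v5039 v5324 v4254 v2704 v2703 v3827 v5314 v2935 w2989 v5952 v4223
theorem v6669 : PV l6669 := r6669 v5113 v6200 v5587 v476 v3935 v6325 v4655 v428 v1218 v6668 v2641 v4802 v3113 v433 w4487 v3340 v3338 v432 v1254 v1316 v3827 v2935 v3830 w2989 v5952 v5581 v4800 w5339 v6464 w5812 w5740 v6614
theorem v6670 : PV l6670 := r6670 v5623 v5636 v4795
theorem v6671 : PV l6671 := r6671 w4787 w4807 w4836 w4825 w4812 v5112 v5552 v6618 v2820 w3584 v6456 v2556 w8898 w9167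
theorem v6672 : PV l6672 := r6672 w2732 w2738 v6581 v6583
theorem v6673 : PV l6673 := r6673 v6672 v6591 w2745 v1245 v6608
theorem v6674 : PV l6674 := r6674 v6200 v5113 v5587 v4655 v432 v1254 v433 w4487 v476 v3935 v6325 v428 v1218 v6668 v2641 v4802 v3827 v2935 w2989 v5581 v4218 v4223 v3830 v2640 v427 v5112 v1357 v3820 v6673 v6566 v6311 v4041 v3303 v3304 v5943 v5847 w3938
theorem v6675 : PV l6675 := r6675 v1316 v5112 v4655 v432 v1254 v5978 v6662 v5027 v5028
theorem v6676 : PV l6676 := r6676 v6200 v5113 v5587 v4655 v432 v1254 v433 w4487 v476 v3935 v6325 v428 v1218 v6668 v2641 v4802 v3827 v2935 w2989 v5581 v4218 v3830 w4498 v5112 v1316 v6674 v6606 v5978 v6675 v6595 v3813 v4547 w2749 v2934 w2450 v5957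
theorem v6677 : PV l6677 := r6677 v5112 v1316 w3907 w3911 v5943 v5956
theorem v6678 : PV l6678 := r6678 w3938 w3890 v5814
theorem v6679 : PV l6679 := r6679 v5277 v5275 v6200 v5113 v5587 v6325 v4655 v428 v1218 v6668 v2641 v6670 v432 v1254 v433 w4487 v476 v3935 v4802 v3827 v2935 w2989 v5581 v4218 v4223 v3830 v2640 v427 v5112 v1357 v3820 v6673 v6566 v6311 w2595 v6677 v1267 w2461 v6678 v5943 v4069
theorem v6680 : PV l6680 := r6680 v1316 v5112 v4655 v432 v1254 v5277 v5978 v5984 v5027 v1267 w3906 w2461 v6604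
theorem v6681 : PV l6681 := r6681 v5113 v6557 v6200 v5587 v476 v3935 v6325 v4655 v428 v6560 v1218 v6668 v2641 v4802 v3114 v3113 v3934 v473 v4591 v2568 v4128 w5407 v432 w4479 v433 w4487 w4498 w4458 v430 w4463 v3341 v3340 v3339 v3338 v6460 v2615 v1254 v5112 v1316 v5035 v6667 v6670 v3827 v3850 v2935 v3830 w2989 v5581 v4223 v4218 w5339 v6669 v5952 v4132 v4800 v6464 w4812 w4825 w4807 w5354 w5812 w5740 v2308 v6616 v5277 v6671 v6613 v2820 v6456 v6448 v2629 v2556 v4873 w3076 w3077 w3067 w8701 w8606 w8609 w801 v3129 w5471 w9090 v4769 w8891 w9167 v6679 v6606 v5978 v6680 v6595 v3813 v4547 w2749 v2934 w2450 v5957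
theorem v6682 : PV l6682 := r6682 v1140 v1245
theorem v6683 : PV l6683 := r6683 v5034 v6682 v5112 v5942 v6577 v5854 v3303 v4057 v5917 v4031 v6286
theorem v6684 : PV l6684 := r6684 v5113 v6557 v6200 v5587 v4655 v432 v1254 v433 w4487 v476 v3935 v6325 v428 v6560 v1218 v6668 v2641 v4802 v3827 v2935 w2989 v5581 w5339 v1316 v3113 v3830 v3338 v4223 v5952 v4800 v6464 w5740 w5407 w5812 w5354 w4479 w4807 w4825 w4812 v2568 w4458 v3340 v6460 v2615 v5112 v5035 v2573 v6613 v2820 v6456 v6448 v2629 v2556 v3797 w3073 w8701 w801 w9090 w8891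
theorem v6685 : PV l6685 := r6685 v5113 v5587 v476 w5354 v4655 v428 w4458 w4787 v432 w4479 w4807 v433 w4487 w4836 w4825 w4812 v1218 v5112 v6618 v2820 v6456 v6448 v2629 v2556 v3797 w9167 w3073 w801 w8701
theorem v6686 : PV l6686 := r6686 v4655 v427 v1360 w3938 v5854 v6288
theorem v6687 : PV l6687 := r6687 v6682 v4655 v428 v1218 v5112 v1360 v6683 v6686 v5943 w3906 v3303 v6301 v5862
theorem v6688 : PV l6688 := r6688 v4655 v432 v1254 v5112 v1316 v5978 v5032 v5027
theorem v6689 : PV l6689 := r6689 v4763 v4655 v432 v5113 v5112 v1357 v1316 v5034 v6688 w3952 w3946 v5972 v6632 v4994 v4995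
theorem v6690 : PV l6690 := r6690 v4655 v428 v5113 v5587 w4458 w4787 v432 w4479 w4807 v433 w4487 w4836 w4825 w4812 v1218 v476 v5112 v6618 v6685 v2820 w3824 v6456 v2629 v2556 w8701 w9090 w801
theorem v6691 : PV l6691 := r6691 v6681 v5113 v6557 v6200 v5587 v476 v3935 v6325 v4655 v428 v6560 v1218 v6668 v2641 v4802 v3113 v2568 v2640 w5407 v433 w4487 w4498 v3340 v3338 v6460 v2615 v432 v1254 v5112 v1316 v3827 v2935 v3830 w2989 v5581 v4223 v4218 w5339 v6669 v5952 w3112 v4800 v6464 w5812 w5740 v6616 v5275 v5277 v6684 v6687 v6689 v6690 v6606 v6595 v5978 v3813 v4547 w2749 v2934 w2450 v5957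
theorem v6692 : PV l6692 := r6692 v5113 v6557 v6200 v5587 v6325 v4655 v428 v6560 v1218 v6668 v2641 w4498 v6681 v6691 v3218 v3824
theorem v6693 : PV l6693 := r6693 w3888 v5852 v3303 v4059 v5917 w2460 v6163
theorem v6694 : PV l6694 := r6694 v5112 v2794 v4655 v432 v1254 v1138 v1242 v6693 v2779 v5917 v6311 v4026
theorem v6695 : PV l6695 := r6695 v5277 v5275 v4655 v428 v1218 v427 v5112 v1357 v6694 v6566 v6311 v6677 w2595 v1267 v6678 v4038 v5943 v3303
theorem v6696 : PV l6696 := r6696 v1316 v5112 v4655 v432 v1254 v5978 v3308 v5113 v6675 v5027 v5799 v5824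
theorem v6697 : PV l6697 := r6697 v5277 v5112 v2794 v6606 v2779 v5807 v6696 v4540 v4534
theorem v6698 : PV l6698 := r6698 v5854 v3303 v4059 v5917 w2460 v4029
theorem v6699 : PV l6699 := r6699 v4655 v432 v1254 v1138 v1242 v6698 v2779 v5917 v6311 v4026
theorem v6700 : PV l6700 := r6700 v6692 v5113 v6557 v6200 v5587 v476 v3935 v6325 v4655 v428 v6560 v1218 v6668 v2641 v4802 v3114 v3113 v3934 v473 v4591 v2568 v4128 v2640 w5407 v432 w4479 v433 w4487 w4498 w4458 v430 w4463 v3340 v3339 v3338 v6460 v2615 v1254 v5112 v1316 v5035 v3827 v3850 v6684 v3811 v2935 v3830 w2989 w3047 v3810 v3814 w2749 v2934 w2889 v5581 v4223 v4218 w3043 v2794 v5275 v5277 w5339 v6669 v5952 v4834 w3112 v4130 v4800 w4315 w4329 w4317 v6253 w5354 w5812 w5740 v6690 v5552 v6613 v2820 v6456 v6448 v3797 v6239 w3059 v4187 w8609 w5471 v4769 v6697 v6695 v6682 v6699 v6686 w3895 v5943 v5956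
theorem v6701 : PV l6701 := r6701 v5725 v4848 w8774 w3190
theorem v6702 : PV l6702 := r6702 v2592 v6124 v2709 v6666
theorem v6703 : PV l6703 := r6703 v5552 v2709 v6666
theorem v6704 : PV l6704 := r6704 w6629 w6713
theorem v6705 : PV l6705 := r6705 v2615 v4655 v433 v428 v5113 v5112 v5035 v6460 v6557 v3935 v6200 v3338 v3340 v3341 v6325 v5587 v476 w4487 w5407 v6560 v1218 v6668 v2641 v4802 v3113 v6692 v6700 v5038 v4135 v4428 v4100 v5623 v5636 v4796 v6455 w2989 w5339 v4644 v4643 v4834 v6253 w4825 w5812 w5740 v2308 v6701 v6702 v6703 v6704 v6665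
theorem v6706 : PV l6706 := r6706 v2615 v2713 w9033 w9122 v4597 v4838 w3838 v3027
theorem v6707 : PV l6707 := r6707 v2618 v2617
theorem v6708 : PV l6708 := r6708 v6200 v6248 v2936 v6350 v3336 v2935 w5407 v4655 v433 w4487 v428 w4458 v3115 v3223 v3219 v6705 v4084 v5112 v1316 v5035 v2825 w2989 w3043 v1218 v1217 v3856 v4800 v6464 w4836 w5812 v6706
theorem v6709 : PV l6709 := r6709 v4029 v4031
theorem v6710 : PV l6710 := r6710 w3754 w8065 w7734 w5733
theorem v6711 : PV l6711 := r6711 v6513 w714 w694 w2339 v6710 v6500 w8229 w7734 w5733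
theorem v6712 : PV l6712 := r6712 v5275 v2658 v2657 v2614 v1360 v1357 v1316 w714 v6513 w688 v1071 w2269 w1452 w1501 w1465 w7895 w5627 w8226 v6711 w2300 v6207 v27 w8150
theorem v6713 : PV l6713 := r6713 v3161 v645 v2651 w8201 v6206 w4760
theorem v6714 : PV l6714 := r6714 v3223 v1357 v1316 v3161 v2379 v1071 v3864 v5893 w7717 w1501 v3597 v5708 w5287
theorem v6715 : PV l6715 := r6715 v732 v1674
theorem v6716 : PV l6716 := r6716 v5277 v6200 v2658 v4655 v6248 w4498 v6712 v4260 w690 v6713 w2257 v1279 w1452 w7959 w8283 w5627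
theorem v6717 : PV l6717 := r6717 v1360 v1357 v1316 v6513 w688 v1071 w2258 w1452 w7895 w8226 w5627
theorem v6718 : PV l6718 := r6718 v5277 v6200 v2658 v4655 v6248 w4498 v2322 v6716 v6717 v4260 w690 v6713 v2283 v1279 w1452 w7959 w8283 w5627
theorem v6719 : PV l6719 := r6719 v6200 v2658 v2327 v6718
theorem v6720 : PV l6720 := r6720 v1360 v1357 v1316 w694 w714 v6513 v1071 w1501 w1465 v2314 w8229 w5733 v5708 v6207 w7903
theorem v6721 : PV l6721 := r6721 v5277 v6200 v2658 v2657 v4655 v6248 w4498 v2614 v432 v1254 v6719 v4569 v2291 v6720 v4260 w690 v6713 v2283 v1279 w1452 w7959 w5627 w8283 w8126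
theorem v6722 : PV l6722 := r6722 v3223 v1360 v1357 v1316 v3161 v2379 v1071 v6714 v3864 v5893 w1501 w7885 v3597 v5708 w5287
theorem v6723 : PV l6723 := r6723 v4655 v432 v1254 v1138 v1242 v4204 w714 v6722 v6715 v638 v3537 w7766 v3877 v3878
theorem v6724 : PV l6724 := r6724 v3554 v3553
theorem v6725 : PV l6725 := r6725 v5277 v5275 v6248 w5339 v6200 v2658 v4655 w4498 v3219 v432 v1254 v5276 v1360 v1357 v6721 v6191 v4260 w690 v6713 v1279 v2651 w1452 w7959 w5269 w5627 v6724 v3157 w8283 w8126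
theorem v6726 : PV l6726 := r6726 v5034 w3906 v6709 w3897 v3303 v5050 v5070
theorem v6727 : PV l6727 := r6727 v5256 w4278 v6200 v2657 v4655 v6248 w4498 v427 w4452 v3223 v5276 v4204 w694 v6723 w4428 w4430 w4750 w4733 w4734 v638 v2651 w1465 v732 v6565 v2379 v3597 v2492 v2473 v2450 v735 v1104 w8229 w8065
theorem v6728 : PV l6728 := r6728 v2327 v2303 v2314 w7997
theorem v6729 : PV l6729 := r6729 v3161 v6206 v2653 v2654 v2655 v4670 w5309 w5310 w5311 v6728 v4569 v2313 w2278 w7998 w8164 v2280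
theorem v6730 : PV l6730 := r6730 v5275 v4655 v5703 v5277 v4209 v4208 v6200 v2658 v6248 v3219 v432 v1254 v1138 v1242 v5113 v5112 v6727 v2477 v4260 w690 w699 w695 v2269 v6729 v6198 v2651 w1452 v1674 v6392 w5627 v3157 v6205 w8283
theorem v6731 : PV l6731 := r6731 v6200 v2657 v4655 v6248 w4498 v427 w4452 v3223 v5276 v1357 v1316 v3161 v2379 v1071 v6722 v3864 w1465 w4428 w4430 w4750 w4733 v3597 v2492 v2473 v2450 v735 w8231 v1104 v733 w8065
theorem v6732 : PV l6732 := r6732 v4655 v430 v6248 w4463 v432 v1254 v1138 v1242 v4204 w694 w714 v6731 v6715 v638 v3537 w7766 w4749 v3877 v3878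
theorem v6733 : PV l6733 := r6733 v5113 v5112 v2303 w3677 w7997 w8087 v1104
theorem v6734 : PV l6734 := r6734 v6248 v6200 v5112 v3161 v6206 v2653 v2654 v2655 v4670 w5309 w5310 w5311 v6733 v4569 v2313 w2278 w7998 w8164 v2280
theorem v6735 : PV l6735 := r6735 v5277 v5275 v6200 v2935 v2936 v6248 v6350 v6212 v6184 v4655 v433 w4487 v3219 v4903 v2675 v2674 v3501 v3497 v3509 v4800 w5332 v4209 v3481 w5339 v5730 v4208 v2673 v2658 v4902 w5407 v2614 v432 v1254 v1138 v1242 v5113 v4768 v4769 v4777 v6725 w3459 w3438 w3756 w3031 w3036 v5703 v6730 v6732 v2477 v4260 w690 w699 w695 v2269 v6734 v6198 v2651 w1452 v1674 v6392 w5627 v3157 v6205 w8283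
theorem v6736 : PV l6736 := r6736 v3762 v3760
theorem v6737 : PV l6737 := r6737 w3651 v5708 w5285 w5287 w5733 w5731 v3597 v2492 v2473 v2450 v735 v1104 w8229 w8065
theorem v6738 : PV l6738 := r6738 v2327 w8676
theorem v6739 : PV l6739 := r6739 v5275 v6200 v2657 v6248 w5407 v3223 v5276 v1357 v1316 w694 w714 v6513 v6720 v3161 v2379 v1071 w3754 v2651 w1501 w1465 v6737
theorem v6740 : PV l6740 := r6740 v645 w7867 w8201
theorem v6741 : PV l6741 := r6741 v5277 v6200 v2658 v4655 v432 v1254 v6738 v6739 w690 v6740 v1279 v2283 w1452 w7959 w5627 w8283 w8126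
theorem v6742 : PV l6742 := r6742 v5277 v5275 v6248 w5339 v6200 v2658 v3219 v4655 v432 v1254 v5276 v1360 v1357 v6741 v6191 v4260 w690 v6740 v1279 v2651 w1452 w7959 w5269 w5627 v6724 v3157 w8283 w8126
theorem v6743 : PV l6743 := r6743 v4655 v6248 w4498 v6200 v4204 v6727 w4760 v638 v2651 v6565 v4923
theorem v6744 : PV l6744 := r6744 v2651 w8038 v4453 w4760
theorem v6745 : PV l6745 := r6745 v3223 v3161 v2379 w2278 v2314 v6744 v2448 w1473 v2305 v4582 v737 w5300 w8164 w7997 v733
theorem v6746 : PV l6746 := r6746 v4209 v4208 v6200 v2658 v3933 v4655 v6248 w4498 v476 v432 v1254 v1138 v1242 v5113 v5112 v6738 v6743 v2477 v4260 w690 w699 v2269 v6745 v6198 v2283 w1452 v1674 v6197 w5627 w8283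
theorem v6747 : PV l6747 := r6747 v4655 v6248 w4498 v6200 v4204 v6732 w4760 v638 v2651 v6565 v4923
theorem v6748 : PV l6748 := r6748 v2269 w699 v4655 v6248 w4498 v476 v6200 v3223 v5112 v3161 v2379 v6745 v6744 w8676 v2448 w1473 v2305 v4582 w5302 w5300 v6733
theorem v6749 : PV l6749 := r6749 v5277 v5275 v6200 v2935 v2936 v6248 v6350 v6212 v6184 v4655 v433 w4487 v3219 v4903 v2675 v2674 v3501 v3497 v3509 v4800 w5332 v4209 v3481 w5339 v5730 v4208 v2673 v2658 v3933 v4902 v2614 v432 v1254 v1138 v1242 v5113 v6339 v6735 v6736 v4769 v4777 v6742 w3459 w3438 w3756 w3031 w3036 v6746 v6747 v2477 v4260 w690 v6748 v6198 v2651 w1452 v1674 w5269 w5627 v6724 v3157 v6205 w8283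
theorem v6750 : PV l6750 := r6750 v5275 v6200 v2657 v6248 w5407 v3223 v5276 v1357 v1316 w694 w714 v6513 v3161 v2379 v736 v2314 v2651 w1501 w1465 v6737 w3754 v6511 v18 v6207
theorem v6751 : PV l6751 := r6751 v1279 w7959 w8322
theorem v6752 : PV l6752 := r6752 v6713 v6740
theorem v6753 : PV l6753 := r6753 v4260 v6751 v6752
theorem v6754 : PV l6754 := r6754 v5277 v5275 v6200 v2658 v4655 v6248 w4498 v432 v1254 v5276 v1360 v1357 v6753 v6191 v6750 v6738
theorem v6755 : PV l6755 := r6755 v3223 v3161 v2379 v3865 v2611 v3536 v6737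
theorem v6756 : PV l6756 := r6756 v5256 v6248 w5407 v4655 v432 v1254 v1138 v1242 v5276 w4278 v6755 v6715 v638 v3537 w7766 v3877 v3878
theorem v6757 : PV l6757 := r6757 w4760 v638 v2651 v6565 v4923
theorem v6758 : PV l6758 := r6758 v3223 v3161 v2379 v3865 v2611 v3536 v5708 w5285 w5287 w5733 w5731 v3597 v2492 v2473 v2450 v735 w8231 v1104 v733 w8065
theorem v6759 : PV l6759 := r6759 v6248 w5407 v4655 w4498 v430 w4463 v6200 v432 v1254 v1138 v1242 v5276 v4204 w694 w714 v6757 v6756 v6758 v6715 v638 v3537 w7766 w4749 v3877 v3878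
theorem v6760 : PV l6760 := r6760 v5277 v5275 v6200 v2935 v2936 v6248 v6350 v6212 v6184 v4655 v433 w4487 v3219 v4903 v2675 v2674 v3501 v3497 v3509 v4800 w5332 v4209 v3481 w5339 v5730 v4208 v2673 v2658 v3933 v4902 v2614 v432 v1254 v1138 v1242 v5113 v3415 v4777 v4769 v6754 w3459 w3438 w3756 w3031 w3036 v6759 v2477 v4260 w690 v6748 v6198 v2651 w1452 v1674 w5269 w5627 v6724 v3157 v6205 w8283
theorem v6761 : PV l6761 := r6761 v5035 v4848 v6736 w3233 v6354 v4863 w3217
theorem v6762 : PV l6762 := r6762 v6248 w5407 v6200 v2614 v6725 v6742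
theorem v6763 : PV l6763 := r6763 v6747 v6743
theorem v6764 : PV l6764 := r6764 v1138 v1242 w1452 v1674 v6196 w5627 w8283
theorem v6765 : PV l6765 := r6765 v1138 v1242 v2651 v1674 v6764 w5269 v3156 v6724
theorem v6766 : PV l6766 := r6766 v5277 v5275 v6200 v2935 v2936 v6248 v6350 v6212 v6184 v4655 v433 w4487 v3219 v4903 v2675 v2674 v3501 v3497 v3509 v4800 w5332 v4209 v3481 w5339 v5730 v4208 v2673 v2658 v3933 v4902 w4498 v476 v2614 v3223 v432 v1254 v5113 v6749 v6762 w3459 w3438 w3756 w3031 w3036 v6763 v2477 v4260 w690 v6748 v6765 v3537 w8084 w5308 w4760 v4670 v3874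
theorem v6767 : PV l6767 := r6767 v5277 v5275 v6200 v2935 v2936 v6248 v6350 v6212 v6184 v4655 v433 w4487 v3219 v4903 v2675 v2674 v3501 v3497 v3509 v4800 w5332 v4209 v3481 w5339 v5730 v4208 v2673 v2658 v3933 v4902 w4498 v476 v2614 v3223 v432 v1254 v5113 v5112 v6761 v3415 v4777 v4769 v6766 v6760 v6754 w3459 w3438 w3756 w3031 w3036 v6759 v2477 v4260 w690 v6748 v6765 v3537 w8084 w5308 w4760 v4670 v3874
theorem v6768 : PV l6768 := r6768 v5275 v6200 v2658 v4655 v432 v1254 v5276 v1360 v1357 v6191 v6738 v6739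
theorem v6769 : PV l6769 := r6769 v4655 v2960 v4453 v3597 w4448
theorem v6770 : PV l6770 := r6770 v6200 v6248 v2936 v6350 v2658 v1360 v3161 v645 v2651 w1452 v6769 w3037 v4456 v4454 v1681 w5627 w8283 w8200
theorem v6771 : PV l6771 := r6771 w8283 w8126
theorem v6772 : PV l6772 := r6772 v5277 v6200 v2935 v2936 v6184 v6248 v2675 v2674 v3501 v3497 v3509 v3219 v6350 v4800 w5332 w5339 v2673 v2658 v3223 v4655 v432 v1254 v6768 v2477 v4260 w690 v6770 v1279 v2651 w1452 w7959 w5269 w5627 v6771 v3156 w8200 v3553 w3449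
theorem v6773 : PV l6773 := r6773 v6200 v3223 v4655 v432 v1254 v2651 v6764 v6769 v3156
theorem v6774 : PV l6774 := r6774 v5277 v5275 v6200 v2935 v2936 v6248 v6350 v6212 v6184 v4655 v433 w4487 v3219 v4903 v2675 v2674 v3501 v3509 v4800 w5332 v4209 v3481 w5339 v5730 v4208 v2658 v3933 v4902 w4498 v476 v5113 v4777 v4769 v6772 w3459 w3438 w3756 w3031 w3036 v6763 v2477 v4260 w690 v6748 v6773 v3537 v6198 w8084 w5308 w4760 v4670 v3874
theorem v6775 : PV l6775 := r6775 v6248 v3219 v4655 v432 v1254 v1138 v1242 w2938 v6769 v3157 v3547 v6771 w5323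
theorem v6776 : PV l6776 := r6776 v4456 v3235 w4266 w4269 v5893 v4466 w7856 w2720
theorem v6777 : PV l6777 := r6777 v5277 v5275 v6200 v2935 v2936 v6184 v6248 v2675 v2674 v3501 v3497 v3509 v3219 v6350 v4800 w5332 v2673 v2658 v4655 v432 v1254 v5276 v1360 v1357 v1316 v6191 v2477 v4260 w690 v6770 v1279 v2651 w1452 v6775 v6776 v5686 v4451 v6772 v4448
theorem v6778 : PV l6778 := r6778 v2651 w1501 v6715 v6565 v5708 v2379 v4923 w5287 w4266 v3597 v1446
theorem v6779 : PV l6779 := r6779 w8572 w7684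
theorem v6780 : PV l6780 := r6780 v6192 w8110
theorem v6781 : PV l6781 := r6781 v6200 v3223 v4655 v432 v1254 v1138 v1242 v4204 w714 v6763 v6778 v3537 v6780 v3161 v3869 v3864
theorem v6782 : PV l6782 := r6782 v5277 v5275 w3103 v6200 v2935 v2936 v6248 v6350 v6212 v6184 v4655 v433 w4487 v3219 v4903 v2675 v2674 v3501 v3509 v4800 w5332 v4209 v3481 w5339 v5730 v4208 v2658 v3933 v4902 v5113 v5112 v5035 v6339 v6774 v4848 v4788 v4768 w3176 v2899 w2790 v3137 v4187 v2794 v6777 w3459 w3438 w3756 w3031 w3036 w3003 v6781 v2477 v4260 w690 v6748 v6773 v6198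
theorem v6783 : PV l6783 := r6783 v5275 v5276 v4655 v432 v1254 v1357 v1360 v6191 v3415 v4777 v4769 v6750
theorem v6784 : PV l6784 := r6784 v5275 v6200 v2658 v4655 v432 v1254 v5276 v5112 v1360 v1357 v5035 v6191 v6738 v6783 v4848 w3233 w3223 v4863 v4788 v3137
theorem v6785 : PV l6785 := r6785 v3415 v4777
theorem v6786 : PV l6786 := r6786 v5275 w3103 v6200 v2935 v2936 v6248 v6350 v6212 v6184 v4655 v433 w4487 v3219 v4903 v2675 v2674 v3501 v3497 v3509 v4209 v3481 w5339 v4208 v2673 v2614 v3223 v432 v1254 v1138 v1242 v5112 v5035 v4204 w714 v6784 w3459 w3438 w3756 w3031 w3036 w3729 v6759 v6785 v4848 v2899 w3157 v2794 v6778 v3537 v6780 v3161 v3865 v3869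
theorem v6787 : PV l6787 := r6787 v6200 v6248 v2936 v6350 v2658 v2657 v4655 w4498 v430 w4463 v427 w4452 v476 v6770 v1279 v6751 v2651 w1452 w1465 w8322 v6775 w4734 w5308 w4760 w4743 w4749 w5636 w5646 w3035 v5686 v6231 v4454 w7961 v4466 v5873 v2285 v2309 w3023 v2450 w7871
theorem v6788 : PV l6788 := r6788 v5277 v6200 v2935 v2936 v6248 v6350 v6212 v6184 v4655 v433 w4487 v3219 v4903 v2675 v2674 v3501 v3509 v4800 w5332 v4209 v3481 w5339 v5730 v4208 v2658 v3933 v4902 w4498 v476 v2614 v5113 v6767 v6782 v6786 v2477 v4260 w690 w699 v2269 v6787 w3438 w3036 v6748 v6773 v3537 v6198 w8084 w5308 w4760 v4670 v3874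
theorem v6789 : PV l6789 := r6789 v4777 v4769 v6768
theorem v6790 : PV l6790 := r6790 v5275 v5276 v6248 v6200 v2675 v2673 v4655 v432 v1254 v1357 v1360 v6191 v5277 v6350 v6339 v6789 v6736 v4788 v3137
theorem v6791 : PV l6791 := r6791 v5275 v6248 v6200 v2675 v2673 v6350 v2658 v4655 v432 v1254 v5276 v5112 v1360 v1357 v6191 v6738 v6790 v6784 v6783 v6761
theorem v6792 : PV l6792 := r6792 v2657 v4655 v432 v1254 v1138 v1242 v5276 v2651 w1501 w1465 v6715 v6565 v5708 v2379 w5285 w5287 w5733 w5731 v6737 v3597 v2492 v2473 v2450 v735 w8231 v1104 v733 w8065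
theorem v6793 : PV l6793 := r6793 v4286 v4668
theorem v6794 : PV l6794 := r6794 v1357 v1316 v6757 v6792 v3537 v1071 v638 w7766 w5317 v3866 v6793
theorem v6795 : PV l6795 := r6795 v4655 v432 v1254 v1138 v1242 v1316 v2651 w1501 v6715 v6565 v4923 v5708 v2379 w4266 w5287 v5893 w7717 v3597
theorem v6796 : PV l6796 := r6796 w3438 v6200 v6248 v6350 v3933 v2675 w5407 v4655 w4498 v476 v3223 v432 v1254 v1138 v1242 v5112 v1316 v5035 v6339 v6794 v6785 v4848 v6736 v2899 w3157 v2794 v6795 v2448 v3537 v6780 v3161 v2379 v3869 v5893 w4266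
theorem v6797 : PV l6797 := r6797 v6757 v6792 v3537 v3865 v3866 v4272 v4267
theorem v6798 : PV l6798 := r6798 v2313 w2278 w8066 w8182 v2278 v2280
theorem v6799 : PV l6799 := r6799 v2658 v2657 v4655 v432 v1254 v1138 v1242 v1357 v2651 w1501 w1465 v6715 v6565 v4923 v5708 v2379 w4266 w4268 w5287 w5289 w5733 w5732 w5731 v3597 v3564 v2473 v2474 w7717 v3907 v2646 v3574 v6798 w8676 v2303 w3677 w8065 w8113 v1104
theorem v6800 : PV l6800 := r6800 v5277 v5275 w3103 w3102 v6200 v2935 v2936 v6248 v6350 v6212 v6184 v4655 v433 w4487 v3219 v4903 v2675 v2674 v3501 v3497 v3509 v4209 v3481 w5339 v4208 w5407 w4498 v3223 v432 v1254 v1138 v1242 v5112 v5035 v4204 w694 w714 v6791 w3459 v2852 w3438 w3756 w3036 w3726 w3729 v6796 v6797 v6785 v4848 v6761 v2899 w3158 w3157 v2794 v6799 v3537 v6780 v3161 v3865 v3869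
theorem v6801 : PV l6801 := r6801 v6761 v6752 v4769 v6532
theorem v6802 : PV l6802 := r6802 v6248 w5332 v6200 v2936 v6350 v2658 v3219 v3161 v3171 w2314 v645 v2651 w1452 w1494 v6769 w3037 v4456 v4454 w7867 w5269 w5259 w5256 w5627 v3553 v3564 w8200 w3456 w3537 v4289 w2260 w7875 v3574 v2313 w5702 w8204
theorem v6803 : PV l6803 := r6803 v4655 v6248 w4498 v430 w4463 v476 v6200 v5112 v2660 v6801 v6802 v6532 v1279 w8284 v4769 v2651 w1494 w5308 w4743 w4749 w5694 v3760 v4768 v6231 v4466 v3125 w3159 w7875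
theorem v6804 : PV l6804 := r6804 v6435 v627
theorem v6805 : PV l6805 := r6805 v6248 v6200 v3219 v4655 v432 v1254 v1138 v1242 v2651 w1465 v6769 v3157 v3159 v3591 v6196 w5311 w3664 w8128 w3670
theorem v6806 : PV l6806 := r6806 v6200 v6248 v2936 v6350 v4655 v433 w4487 v3219 v4903 v2675 v4129 v5277 v2935 v6212 v6184 v4800 w5332 v4128 v3337 v5112 w3102 w8609 w5760 v6804 v3394 w5471 v2674 v3501 v3509 v4209 v3481 w5339 v5730 v4208 v2658 v2657 v3933 v4902 w4498 v476 v2614 v5113 v6788 v6800 v2477 v4260 v4280 w690 w726 w695 v2269 v6803 w3438 w3036 v6748 v6805 v3537 v6198 w8084 w5308 w4760 v4670 v3874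
theorem v6807 : PV l6807 := r6807 w714 w694 v5275 v6200 v2658 v2657 v6248 w5407 v3223 v4655 v432 v1254 v5276 v1360 v1357 v1316 v6191 v6513 v6738 v3161 v2379 v736 v2314 v2651 w1501 w1465 v6737 w3754 v6511 v6207 v622
theorem v6808 : PV l6808 := r6808 w7684 w8015
theorem v6809 : PV l6809 := r6809 v4266 v4271
theorem v6810 : PV l6810 := r6810 v6808 v6809 v3157 v3870 v3866 w7766 w5627 w8346 w8109
theorem v6811 : PV l6811 := r6811 v3161 w8015 v3865 w4760
theorem v6812 : PV l6812 := r6812 v3865 v4271 w4450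
theorem v6813 : PV l6813 := r6813 v5275 v6200 v2935 v2936 v6248 v6350 v6212 v6184 v4655 v433 w4487 v3219 v4903 v2675 v2674 v3501 v3497 v3509 v4800 w5332 v4209 v3481 w5339 v4208 v2673 v2657 w5407 w4498 v3223 v4204 w694 w714 w688 v6807 w3459 w3438 w3756 w3036 v6792 v3537 w1454 v6810 v6811 v6812 v3157 v3870 v3866 w7766 w5627 w8346 w8109
theorem v6814 : PV l6814 := r6814 v4655 v6248 w4498 v6200 v6752 v6802
theorem v6815 : PV l6815 := r6815 v6200 v6248 v2936 v6350 v3394 w5332 v2658 v3223 v4655 v432 v1254 v6803 v6814 v1279 w7959 v2651 w1452 w5269 w5627 v6775 v6771 w3037 v3156 w8200 v6724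
theorem v6816 : PV l6816 := r6816 v6200 v2935 v2936 v6248 v6350 v5113 v6705 v3219 v4655 v433 w4487 v4902 v6707 v6708 v6212 v6184 v4903 v2675 v2674 v3501 v3509 v4800 w5332 v4209 v4130 v3481 w5339 v5730 v2713 v4208 v4128 v4129 v3337 v3336 v2658 v2657 v3933 v4082 v432 w4479 w4498 v476 v2614 v3119 v3116 v3115 v4084 v2615 v5112 v5035 w9033 w9122 w8935 v4597 v2544 w3838 v2545 v6451 w4825 w4836 w4816 w5354 w8774 v4838 w3853 w2912 w3102 v5277 w8609 w5471 w5760 v6804 v3394 v6806 v4778 v4777 v4769 v6813 v2477 v4260 v4280 w690 w726 w695 v2269 v6815 w3438 w3036 v6748 v6805 v3537 v6198 w8084 w5308 w4760 v4670 v3874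
theorem v6817 : PV l6817 := r6817 v6248 w5407 v4655 v433 w4487 v3115 v6200 v3219 v6705 v5113 v2936 v2935 v4902 v6350 v3336 v6707 v6708 v6212 v6184 v4130 v4800 v6816 w5812 v626 v6451 v2809
theorem v6818 : PV l6818 := r6818 v476 v3219 v6350 v5467 v5175 v3530
theorem v6819 : PV l6819 := r6819 v4597 v2708 v2555 v2617 w8839
theorem v6820 : PV l6820 := r6820 v4236 w772 v6511 v6253 w3029 v4646
theorem v6821 : PV l6821 := r6821 v6200 v6248 v6818 v3336 w5407 v2614 v3115 v5113 v5112 v2791 v2708 v6819 w8779 w8839 v6707 v5710 w6690 w5511 w5812 w6410 v5721 v6253 v4163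
theorem v6822 : PV l6822 := r6822 v4236 w771 w772 w8350 v6253 w3081 v4646
theorem v6823 : PV l6823 := r6823 v2808 v6248 v5112 v3374 w5380 v4655 v432 v1254 v1138 w5193 v2909 v2895 v6705 v4082 v6200 v6818 v3336 v2658 v3933 w5407 w4479 v3119 v3118 v3115 v3219 v4084 v2615 v5113 v4129 v2674 v627 v3394 v3464 w1545 v4780 v3216 v6821 v2618 v2544 v2713 w9033 w5811 w5812 v6822 v4209 v3836 w3096 v3838 v668
theorem v6824 : PV l6824 := r6824 v2895 v6705 v4082 v6200 v6248 v6818 v3336 v3933 w5407 v4655 v432 w4479 v473 v2614 v3115 v3223 v3219 v4084 v2615 v1254 v5113 v5112 v6823 v5039 v2672 v2703 v3836 v6707 v2942 w3096 v2713 v4245 v668 v4248 w5812 v6341 w9122 v2544 v6819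
theorem v6825 : PV l6825 := r6825 w9153 w9122
theorem v6826 : PV l6826 := r6826 v6200 v3223 v1360 v1357 v1316 v3161 v2379 v736 w2339 v2651 w1501 w7903 v4925 w5287 w4266 v3598 w7835 w7885
theorem v6827 : PV l6827 := r6827 v2846 v6200 v6248 v6818 v3219 v4655 v432 w4479 v1254 v2943 v3836 v5467 v3505 v5112 v3512 v5245 v2958 v2845 v1357 w3391 w2970 w3414 w2947 w3690 w3739 v6826 v6517 v6226 v3537 w8651 w5269 v4273 v3871 v3861
theorem v6828 : PV l6828 := r6828 w8829 w8064
theorem v6829 : PV l6829 := r6829 v3161 v6828 v3537 v638 v6808 w4760 v6811 v3862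
theorem v6830 : PV l6830 := r6830 v5112 v6248 w5407 w3825 w8612 v6200 v2846 v6818 v3219 v4655 v432 w4479 v1254 v2943 v3836 v5467 v3505 v3494 v1360 v2845 v3484 v5732 v5175 v476 v4666 v6249 v6247 w4498 v1138 v1242 v4204 w714 v6827 v6829 v6715 w8110 w7766
theorem v6831 : PV l6831 := r6831 v2651 w8201 v4454 w4760
theorem v6832 : PV l6832 := r6832 v3933 v3223 v3161 v2379 v6831 v2448 v3537 v5873 v4649 w4266
theorem v6833 : PV l6833 := r6833 v2651 w1452 w7959 w5269 v2293 w8284 v3554 v6771 v3157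
theorem v6834 : PV l6834 := r6834 v3235 v4649 v5873 w4266
theorem v6835 : PV l6835 := r6835 v6200 v6248 v6818 v3219 v4655 v432 w4479 v1254 v2943 v3836 v4260 v5175 v2477 v2846 v5467 v3505 v5112 v3512 v5245 v476 v2848 v4664 v4662 w5333 w5339 v2845 v2658 v2657 v3933 w4498 v5113 w3391 w2970 w3414 v6832 v6833 v2448 v3537 v2295 w1454 w7918 w1473 v2293 w5632 v6834 v3157 v3162 v3163 v3164 v3180 w8248 w8085 w5309 w3663 w3676 v678 w8087
theorem v6836 : PV l6836 := r6836 v4655 v432 v1254 v2959 w2969 v5703 v6206 v3557 w5320 w8126 w8037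
theorem v6837 : PV l6837 := r6837 v6200 v6248 v6818 v3219 v4655 v432 w4479 v1254 v2943 v3836 v2846 v5467 v3505 v3512 v5175 v476 v4666 v2658 w4498 v2651 w1452 v6836 v4454 w4448 w4761 v3598 w3390 w8126 w8037
theorem v6838 : PV l6838 := r6838 v2846 v6200 v6248 v6818 v3219 v4655 v432 w4479 v1254 v2943 v3836 v5467 v3505 v5112 v3512 v5245 v5175 v476 v2848 v4664 v4662 v3933 v3223 v3161 v2379 v6837 v2448 v3537 v5873 v6834 w4266 v2961
theorem v6839 : PV l6839 := r6839 v6248 v2846 v6200 v6818 v3219 v4655 v432 w4479 v1254 v2943 v3836 v5467 v3505 w5333 v4209 v5175 v4208 v1360 v2845 v3484 v6221 v6249 v2658 v1138 v1242 v5113 w8656 v6830 w692 v2477 v4260 v4280 w690 w699 w695 v6835 v6838 v6198 v2651 w7785 v6837 w5269 v3157 v6764 v6196 v3555 w3413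
theorem v6840 : PV l6840 := r6840 v2846 v6200 v6248 v6818 v3219 v4655 v432 w4479 v1254 v2943 v3836 v5467 v3505 v5112 v3512 v5245 v6247 v2958 w4498 v6829 w3391 w2970 w2947 w3712 v6826
theorem v6841 : PV l6841 := r6841 v1357 v1316 v4268 v4273
theorem v6842 : PV l6842 := r6842 w4450 v3871 v4274
theorem v6843 : PV l6843 := r6843 v3933 v4655 v432 v1254 v1138 v1242 v5112 w2970 w3414 w2952 w2947 v6226 v2448 v3537 v6841 v6842 v3868 w4266 w4269 v3895 w7933 v5871
theorem v6844 : PV l6844 := r6844 v2846 v6200 v6248 v6818 v3219 v4655 v432 w4479 v1254 v2943 v3836 v5467 v3505 v5112 v3512 v5245 v3494 v1360 v2845 v5732 v6221 v5175 v476 v4666 v6249 v6247 v2958 v2948 v1138 v1242 v4204 w714 v6840 v6843 v6715 v638 w7766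
theorem v6845 : PV l6845 := r6845 v3161 v4655 v6248 w4498 v6200 v432 v1254 v1138 v1242 v2651 v6537 w8038 v6769 v4454 w4760
theorem v6846 : PV l6846 := r6846 v6200 v6248 v6818 v3933 v3223 v5112 v3161 v2379 v6845 v2448 v3537 v5873 v6834 w4266 v2961
theorem v6847 : PV l6847 := r6847 v6817 v6705 v4082 v6200 v6248 v6818 v3336 v2658 w5407 v4655 v432 w4479 v433 w4487 v476 v2614 v3118 v3117 v3115 v3112 v3223 v3219 v4084 v2615 v1254 v1138 v1242 v5113 v5112 v1360 v5035 v2909 v6824 v2846 v2845 v2943 v5467 v5175 v6249 v2848 v6221 v3484 v3836 v3505 v4208 w5339 v4132 v4130 v4209 v4664 w5333 v3512 v6253 v4662 v5245 w5364 w4825 w4816 w5812 w5740 v2308 v5707 v5725 v5710 v4862 v2661 v2662 v6825 w3582 w9033 v3426 v2713 v4183 v3439 v3427 v6216 v6223 w8679 v6839 w2403 w3824 v6844 w692 v2477 v4260 w690 w699 w695 v6835 v6846 v6198 v2651 w7785 v6765 w5269 v6724 v3157 v3555 v6196 w3405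
theorem v6848 : PV l6848 := r6848 v4129 v1357 v1360 v1316 v736 w7895 v750 v4130 v4209 w8774 v6820
theorem v6849 : PV l6849 := r6849 v4208 w3838 v1357 v1360 v1316 v736 w7895 v750 v6200 v6248 v6818 v3336 v2658 v2657 v4655 v432 w4479 v3115 v3219 v1254 v5112 w3464 v3484 w3414 w3749 w3572 w5339 w3649 w8612 v2327 w2339 v2314 v6848 v3836 v2942 v3837 v3838 w3111 v4245 v6347 v4243
theorem v6850 : PV l6850 := r6850 v1357 v1360 v1316 v736 w7895 v750 w1465 w1501 w714 v5276 w3457 w3649 w8229 v6511 w5733 w7985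
theorem v6851 : PV l6851 := r6851 v2514 v2513 v3927 v3216 v4655 v432 v1254 v1138 v1242 v5102 v3236 v6427 v2512 v2511 v4129 v2820 w5407 v5276 v5112 v1360 v5035 v4773 w5193 w5483 v3763 w8658 w3083 w3695 w8801 w3175 w3725 v6428 w6644 w8229 v6422 w5733 v6737 w7903 w8001
theorem v6852 : PV l6852 := r6852 v1360 v1316 v1357 v736 w7895 w5257 v3161 v6200 v2651 v3564 v4283 v2660 v6248 v6818 v2658 v750 w5339 v6738 v2314 v2313 w5256 v5275 v4655 v430 v4970 v2657 w1465 w1501 v3223 v2379 v3219 v3171 w714 w5407 v4809 v3574 v6851 v4769 v6807 v44 w8230 w5732 v6207 w8255 w7903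
theorem v6853 : PV l6853 := r6853 v6705 v5113 v6200 v2614 v6248 w5407 v4082 v6819 v2618 v2713 v1357 v1360 v1316 v736 w7895 v750 v6818 v2657 w1465 w1501 v6817 w2965 w714 v4204 v6847 v2820 v3336 v2658 v4655 v432 w4479 v428 w4458 v476 v3119 v3115 v3219 v4084 v2615 v1254 v1138 v1242 v430 v5112 v5035 v4970 v2672 v6425 v4129 v2674 v2673 v4208 v2511 v2512 v5102 v3236 v3105 v3106 v6849 v390 w2883 v6212 v3479 v5277 v6184 v5256 v6427 w5339 v4834 v4130 v4209 v4259 v4800 v3501 w4324 w4334 v6738 v6253 v3509 v3497 v6701 v2314 w4807 w4816 w4787 w5354 w5812 w8774 v3216 w8935 w3853 v6448 v3927 v2660 v2513 v2514 v6850 v376 v6852 v6785 v5719 w5193 w5483 v3763 w8658 w3083 w3695 w8801 w3175 w3725 v6428 w6644 w8229 v6422 w5733 v5708 w7903 w8001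
theorem v6854 : PV l6854 := r6854 v5035 v6338 v4838 v4834
theorem v6855 : PV l6855 := r6855 v6200 v6248 v6818 v3933 v4655 v427 w4452 v3223 v432 v1254 v6849 w2977 w6639
theorem v6856 : PV l6856 := r6856 w8063 w8226
theorem v6857 : PV l6857 := r6857 v1360 v1316 v1357 v736 w7895 w5257 v3161 v6200 v2651 v3564 v4283 v2660 v6248 v6818 v2658 v750 v476 v2734 v6738 v2314 v2313 w5256 v482 v5039 v5275 v2657 w1465 w1501 v3223 v2379 v3219 v3171 w714 w5407 v6851 v4809 v4769 v3574 v6807 v44 w8380 w8230 w2300 w5732 v6207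
theorem v6858 : PV l6858 := r6858 v1357 v1360 v1316 v736 w7895 v750 v6200 v6248 v6818 v2657 w1465 v2614 w1501 v2658 w1452 v6817 w2965 v6705 v4082 w714 v4204 v6847 v2820 v3336 w5407 v4655 v432 w4479 v428 w4458 v476 v3119 v3115 v3219 v4084 v2615 v1254 v1138 v1242 v5113 v5112 v5035 v6819 v2618 w3838 v2713 v6853 v6854 v3027 v4832 w2912 v5277 v6855 v390 v6212 v6184 v5256 v5039 v4133 v4130 v4209 v4210 v4261 v4259 v4800 w4324 w4334 v2674 v2673 v6425 v6253 v483 v482 w5332 v2734 v6701 v2511 v2512 v5102 w4807 w4816 w4787 w5354 w5812 w8774 v3509 v3497 w5627 v6738 v3216 v3236 v3105 v3106 w8935 w3853 v2314 v6448 v6427 v6850 v3927 v2660 v2513 v2514 v376 v6856 v6857 v6785 v5719 w5193 w5483 v5135 w8658 w8801 w3055 w3695 v6428 w3165 w3725 w6644 w8229 v6422 w5733 v6711 v5708 w2300 w8001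
theorem v6859 : PV l6859 := r6859 v6200 v6248 v6818 v3336 w5407 v2614 v3115 v4655 v432 v1254 v5112 v2708 w8779 w8380 w8839 v2675 v5710 w5513 w5812 v3442 v6253 v4163
theorem v6860 : PV l6860 := r6860 v6847 v2820 v6705 v4082 v6200 v6248 v6818 v3336 v3933 w5407 v473 v3115 v3223 v4084 v4655 v432 v1254 v1316 v3378 v3370 v6859 v5707 w5513 w5812 v3442 v6253 v4166 w8481 v2703 v668
theorem v6861 : PV l6861 := r6861 v5277 w3572 w2984 v3836 v4130 v6253 w8774
theorem v6862 : PV l6862 := r6862 v657 w8150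
theorem v6863 : PV l6863 := r6863 w714 v2658 v2657 v4655 v432 v1254 v1138 v1242 w1452 w1501 w1465 v6792 v6862 w8380 w2300 w2302 v742 v2302 w3659 w8063 w7728
theorem v6864 : PV l6864 := r6864 v3161 v6200 v6248 v6818 w5407 v4655 w4498 v3223 v432 v1254 v6863 v3537 v6808 w8015 v6811 w4760 v3862
theorem v6865 : PV l6865 := r6865 v2651 w1501 w1465 w1494 w7729 v6862 v5708 w5671 v6710 w5287 w5733 w3702 v3597 w8229 w8233 v2481
theorem v6866 : PV l6866 := r6866 v6200 v6705 v2614 v6248 w5407 v4082 v6860 v6819 w3838 v4655 v6847 v6854 v3027 v432 v1254 v3219 v3115 w4479 v6818 v3336 w2912 v6861 v390 v6212 v6184 v5039 v6425 v5277 v4130 v6253 w4807 v2820 v433 w4487 w4812 w4825 v476 w5354 v5035 v5112 v6817 v6701 v3216 v6448 v2514 v2513 v2660 v3927 v1138 v1242 v5102 v3236 v6427 w8774 w3853 v4084 v2615 v5113 v2618 v2713 w5812 w8935 v3106 v3105 v4800 v483 v3509 v428 w4458 w4787 w4816 v2512 v2511 v2734 w5332 v482 v2674 v4204 v4259 v4261 v4210 v4209 v4133 v4131 v5275 w714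 v3337 v2658 v2657 v3933 w4498 v427 w4452 v3119 v3116 v3223 v1357 v1316 v3161 v2379 w2314 v6858 w3438 w3459 w3722 w3847 v6864 v6785 v5719 v4774 w5193 w5483 w5471 v3763 w8658 w8801 w8609 w3083 w3771 v6428 v2323 w3175 w8603 v4569 w6644 w2269 w2278 v6422 v6865 v2448 w1473 v2305 v5893 w4750 w4733 w8017 v733 w8164 v1680
theorem v6867 : PV l6867 := r6867 v4655 v432 v1254 v4271 v6809 w4450 v6812 v3862
theorem v6868 : PV l6868 := r6868 v638 v2293 w8109 w8346
theorem v6869 : PV l6869 := r6869 v6200 v6248 v6818 v2658 v2305 w1473 v2657 w1454 v3537 v3219 v6867 v3157 v3159 v3162 v6868 w5636 w5646 w7766 w7768 v733 w7945 w8672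
theorem v6870 : PV l6870 := r6870 v4204 v6705 v5113 v6200 v2614 v6248 w5407 v4082 v6860 v6819 v2618 v2713 v6847 v2820 v6817 v6818 v3336 v2657 v4655 v432 w4479 v433 w4487 v476 v3119 v3115 v3219 v4084 v2615 v1254 v1138 v1242 v5112 v5035 w3838 v6854 w2912 v5275 v5277 v6861 v390 v6212 v6184 v5039 v4133 v4130 v4209 v4261 v4259 v4800 v2674 v2673 v6253 v483 v482 w5332 v2734 w4812 w4825 w4807 w5354 w5812 w8774 v3509 v3497 v6701 w8935 v3216 v6448 v2660 v6866 v6513 v6715 w3459 w3720 v6869 v6785 w5483 w8658 w3771 w3692 w8801 w8603 v6780 v6193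
theorem v6871 : PV l6871 := r6871 v2820 v6200 v6248 v6818 v3336 v3933 w5407 v473 v3115 v3223 v4655 v432 v1254 v1316 w5513 w5515 w5812 v3442 v3370 v6253 v4166 w8481 v2703 v668
theorem v6872 : PV l6872 := r6872 v482 v2658 v3219 v3161 v3171 v6752 v645 v2651 w1452 v4456 v4454 w7867 w5269 v2293 w5256 w5257 v3553 v3564 w3449 w3455 w3456 v4289 w8200 v3574 w2260 v2313 w2278 w8204 w5656 v737 v739
theorem v6873 : PV l6873 := r6873 w8284 w5269 v2293 v6771 v6724 w8200
theorem v6874 : PV l6874 := r6874 v3235 v6873 w4734 w4760 v5873 v4454 w7856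
theorem v6875 : PV l6875 := r6875 w8284 v2293 v6771
theorem v6876 : PV l6876 := r6876 v6200 v6248 v6818 v2658 w1452 v2651 v4655 w4498 v3219 v432 v1254 v5112 v3157 v6875 w7959 w4760 v6225
theorem v6877 : PV l6877 := r6877 v5277 w3449 w2934 v6874
theorem v6878 : PV l6878 := r6878 w2970 v6248 v476 v2734 v482 v6200 v6818 v2658 v4655 w4498 v427 w4452 v432 v1254 v5112 v2651 w1452 v6876 v3235 v6877 v2858 v3553 v6392 v463 w4433 w5269 v4582 w7959 w7856 v4769 w2957 w5471 w3679 w8609 v2323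
theorem v6879 : PV l6879 := r6879 w3449 v4667 w8248 v3157
theorem v6880 : PV l6880 := r6880 v6248 v476 v2734 v482 v5277 v6200 v6818 v2658 v2657 v3933 v4655 w4498 v3219 v5113 w2970 v6872 v6878 v2448 v3537 w1454 w7918 v1279 w1473 w5269 v2293 v6879 v2858 v4804 v4670 v3235 w5309 v5873 w8155 w2957 w2947 w8087 w3027 w2253 w8248 v2284
theorem v6881 : PV l6881 := r6881 v3223 v2379 v3219 v3171 v3161 v6200 v6248 v6818 v2657 v4655 v427 w4452 v473 v432 v1254 v1138 v1242 v2651 w1465 w8038 v6392 w4734 w4746 w5301 w5636 w5646 v5873 v5740 v2450 w7856 w3018 w2957 w2948 w7788 w7706 v1104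
theorem v6882 : PV l6882 := r6882 v2269 w695 w699 v6200 v6248 v6818 v2658 v3933 v4655 w4498 v427 w4452 v3223 v5112 v2379 v6748 w3034 v6881 v2448 w1473 w1466 v2305 v5873 w4750 w4732 w4733 w8155 v6733 w2956 v4569 w7998 v2313
theorem v6883 : PV l6883 := r6883 v1138 v1242 v2651 w1465 w7785 w5269 v3553 v3157 v3159 v3591 v6196 w5311 w3664 w8128 w3670
theorem v6884 : PV l6884 := r6884 v6847 v2820 v6817 v6705 v4082 v6200 v6248 v6818 v3337 v3336 v2658 v2657 v3933 w5407 v4655 v432 w4479 v433 w4487 v430 w4463 v427 w4452 v476 v2614 v3116 v3115 v3219 v4084 v2615 v1254 v5113 v5112 v5035 v6860 v6819 v2618 v2713 v6871 w9033 w3838 v6870 w8935 v6854 w2912 v5277 v6861 v390 v6212 v6184 v5039 v4131 v4130 v4209 v4210 v4800 v4260 v4282 v2674 v2477 v6253 w690 w699 w695 v2269 v483 v482 w5332 v2734 w4812 w4825 w4807 w5354 w8774 v3509 v3476 v6701 v3216 v6448 v6880 w3438 w3459 v6882 v6883 v2448 v3537 v6198 w8084 w4734 w4743 v5873 v3231 v3905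
theorem v6885 : PV l6885 := r6885 v6200 v6248 v6818 v3336 w5407 v4655 v432 w4479 v476 v3115 v3219 v6705 v4084 v2615 v1254 v5112 v6847 v6884 v2846 v2943 v5175 v2848 v3836 v4130 v4664 v6253 v4662 w5812 v5707 v5710 w3584 v6825
theorem v6886 : PV l6886 := r6886 v4800 v2942 v4664 v4646
theorem v6887 : PV l6887 := r6887 w3491 w3838 w3850 v6819 v4597 w8355 v2555
theorem v6888 : PV l6888 := r6888 v6200 v6248 v6885 v5037 v2674 v3219 v4655 v432 w4479 v6818 v5038 v6886 v483 v3336 w5407 v2614 v3115 v6705 v1254 v4662 v3509 v6170 v6887 v404 v6854 v6861 w2912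
theorem v6889 : PV l6889 := r6889 v5038 v390 v3512 v5894
theorem v6890 : PV l6890 := r6890 v2615 v5112 v5707 v6825 v5710
theorem v6891 : PV l6891 := r6891 v6200 v6248 v6818 v3336 w5407 v3115 w5812 v6871 v626 v2809
theorem v6892 : PV l6892 := r6892 v5035 v6885 v4100 v1360 v6200 v3219 v4655 v432 v6248 w4479 v6818 v5038 v6886 v483 v3223 v430 w4463 v5037 v2674 v4441 v4442 v6889 v6891 v6705 v4084 v6888 v6890
theorem v6893 : PV l6893 := r6893 v3219 v4655 v432 v6248 w4479 v6200 v6818 v6885 v5038 v6886 v483 v5035 v4100 v5037 w5407 v430 w4463 v2614 v3112 v3223 v6705 v4084 v2615 v5113 v5112 v1360 v2674 v4441 v4442 v6889 v6891 v6892 w9033 v2713 w2403 v2618 v2617 v2708 w8839 w8355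
theorem v6894 : PV l6894 := r6894 v4655 v432 v3219 v6200 v6248 w4479 v6818 v6885 v5038 v6886 v483 v482 v6893 v2846 v2845 v3512 v3490
theorem v6895 : PV l6895 := r6895 v6243 v6325 v3935 v5113 v5587 v476 v5979 v5324 v4254
theorem v6896 : PV l6896 := r6896 v1360 v1357 v1316 v736 v1681 w8227
theorem v6897 : PV l6897 := r6897 w3832 w2889 w2924 w3105 v4597 w8606 v2554 v2617 w2387 w9153
theorem v6898 : PV l6898 := r6898 w8109 w8264
theorem v6899 : PV l6899 := r6899 v5275 v6862 v622 v6207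
theorem v6900 : PV l6900 := r6900 w8267 w8111
theorem v6901 : PV l6901 := r6901 w714 v1697 w5627 v6898 w1454 w1500 w1464 w8421 v6900 w4759 w5733 w7774 w2976 w7947 v3868
theorem v6902 : PV l6902 := r6902 v6243 v3935 v5276 v5275 v1360 v6325 v5113 v5587 v4655 v428 v432 v1254 v430 w4463 v6895 v3222 v6263 v1218 v6668 v2640 v5668 v3537 v2628 v433 w4487 v3827 w2989 v2935 v5581 v4218 v6896 v2283 v2627 w2270 v2624 v3830 v4223 v5952 v4209 w694 v4208 w688 v4082 w714 v4204 v2641 v4798 w5333 w5407 w4498 v4084 v2615 v1138 v1242 v1316 w2386 w8935 v2557 w2330 v4597 v2544 v2545 v6448 v4769 v6899 v6901 v5669 w4760 w5735 v3814 v3868 v3813 w2976 w7774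
theorem v6903 : PV l6903 := r6903 v2713 w9153 v2618 v2617
theorem v6904 : PV l6904 := r6904 v6710 v742
theorem v6905 : PV l6905 := r6905 v6809 v6808 w8064 v6571 w4760 v4919
theorem v6906 : PV l6906 := r6906 v3222 v3934 v4655 w4498 v432 v1254 v1138 v1242 v3160 v2379 w2258 v2314 v6896 w3036 w3459 w3756 w3015 v6809 v2611 v3538 v6862 v6905 v4949 v6904 v4945 v2302 v6390 w3659
theorem v6907 : PV l6907 := r6907 v6895 v3222 v3126 v2557 v4597 v2544 v3140 v2545 v6448 v4777 v4769 v4084 v2615 w8935 v2628 w2345 w2386 v5275 v4655 v432 v5113 v5587 w4479 v6243 v3935 v433 w4487 v1254 v3827 v3830 v2935 v428 v430 w4463 v6263 v1218 w2989 v6325 v5581 v4223 v5952 v6886 v4209 v4218 v6668 v4208 v2640 v3850 v2627 v4082 w5407 v1138 v1242 v5276 v4204 w714 w688 w694 v6906 v2624 w2291 w2301 v6902 v6899 w3438 v2850 w3036 w3756 v6715 v2611 v2612 v2613 v3870 v3866 w7766 w7774 w5256 w5257 w5285 w5287 w5732 w5731 v4806 v4815 v4283 v4809 v2473 v2492 v3172 v2381 v735 v1105 w8112 v2278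 w8268 v2280 v674
theorem v6908 : PV l6908 := r6908 v6895 v2627 w2258 v6243 v4655 v433 v5113 v5587 w4487 v432 v1254 v3827 v3830 v2935 v428 v430 w4463 v3222 v6263 v1218 w2989 v6325 v5581 v4223 v5952 v4209 w690 v6668 v2641 v4798 w5333 v4218 w4498 v5112 v1360 v6740 v645 v1681 v3811 w5627 v2937 w3051 v2322 w8603 w8200 w1453
theorem v6909 : PV l6909 := r6909 w2278 v5112 v1360 v3540 v4453 v1702 v6504 v733
theorem v6910 : PV l6910 := r6910 v4655 v432 v1254 v433 v5113 v5587 w4487 v6243 v6895 v3827 w3036 v6325 v2850 w3438 v2628 v2314 v3160 v428 v430 w4463 v3222 v6263 v1218 v6668 v4208 v2269 w699 v3830 v2935 w2989 v5581 v4223 v5952 v4260 v2477 v2641 v4798 w5333 w4479 v3935 v6886 v4209 v4218 w5339 v2627 w4498 v5112 w8038 w5257 v3810 v5701 v3811 v6909 v4670 w5311 v26 w3670 w8603 w8653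
theorem v6911 : PV l6911 := r6911 v6243 v4655 v432 v1254 v430 v5113 v5587 w4463 v6895 v3222 v3850 w3015 v6325 w3438 v2379 v3160 v433 w4487 v3827 v3830 v2935 v428 v6263 v1218 w2989 v5581 v4223 v5952 v4260 v6668 v2477 v476 v6910 w5308 w4743 w7704 v4670 v4466
theorem v6912 : PV l6912 := r6912 v26 w3670 w8603 w8653
theorem v6913 : PV l6913 := r6913 v2328 w8718
theorem v6914 : PV l6914 := r6914 w1473 v2305 w8164 w7997 v733
theorem v6915 : PV l6915 := r6915 v6243 v4655 v428 v432 v1254 v430 v5113 v5587 w4463 v6895 v3222 v6263 v1218 v6668 v4208 v2269 w699 v433 w4487 v3827 v2935 v6325 v2641 v3830 w2989 v5581 v4223 v5952 v4798 w5333 v4209 w5339 v2628 v2627 v3934 w4498 v427 w4452 v5112 v1316 v2379 w2278 v2314 v6908 v6911 v2448 v5893 w4750 w4733 v6912 v6914 w8718 v2303 w3677 w7997 w8042 w1478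
theorem v6916 : PV l6916 := r6916 w7959 w8284
theorem v6917 : PV l6917 := r6917 v2624 w690 v5277 w8249 w5262 w5256 w5257 w5627 v4804 v4806 w2937 w3449 w3458 v6879 v4289 v3227 v3882 v6563 w1455 v2295
theorem v6918 : PV l6918 := r6918 v2624 v6916 v3537 v3570 w1510 v6917 w7918 w4760 v3874 v3872
theorem v6919 : PV l6919 := r6919 v4655 v432 v1254 v433 v5113 v5587 w4487 v6243 v6895 v3827 v428 v430 w4463 v3222 v6263 v1218 w2989 w3459 v6325 w3438 v2935 v6668 v2641 v3830 v5581 v4223 v5952 v4798 w5333 w4479 v3935 v6886 v1138 v1242 w5262 w5627 v4804 v3535 v3538 v3591 w8126 w5311 w3664 w8128 w3670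
theorem v6920 : PV l6920 := r6920 v5113 v6894 v5587 v4655 v432 v1254 v433 w4487 v6243 v6895 v3827 v2935 v6325 v428 v430 w4463 v3222 v6263 v1218 w2989 v5581 w5339 v1316 v3113 v3830 v3338 w4479 v3935 v4223 v5952 v6886 v6464 v2308 w5407 w5812 v476 w5354 w4807 w4836 w4825 w4812 v6668 v2641 v4798 w5333 v4209 v4130 v4132 v4208 v4128 v4129 v2628 v2627 v3114 v3342 v3341 v3339 v3934 w4498 v6705 v4084 v2615 v1138 v1242 v5112 v5035 v6890 w8774 v4838 w3853 w3102 w3832 w8609 w5471 w5760 v6897 v5277 v6804 v3126 v3140 v6903 w8935 v2557 v4597 v2544 v2545 v6448 v4769 v6907 v2477 v4280 v4260 w726 w695 v2269 w690 v6915 v2624 w2270 v2283 v6918 w3036 v6919 v1674 w4760 v3537 v3874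
theorem v6921 : PV l6921 := r6921 v3160 v6896 v6571 w3459
theorem v6922 : PV l6922 := r6922 w2976 v3866 w7774 w7687
theorem v6923 : PV l6923 := r6923 w7945 w7922
theorem v6924 : PV l6924 := r6924 v5113 v1316 v1697 w5257 w5627 v6898 w1454 v2289 w1464 w1441 v6900 w5652 w4759 w4745 w4747 w5733 v5893 v2381 v6922 v3868 v6923 v2854 w3021 w3752 v4806 v3908 w7687 w7774
theorem v6925 : PV l6925 := r6925 v5276 v1360 v1316 v5668 v2448 v3537 v3570 w1538 v6924 v5669 w4760 w5735 v3868 v6922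
theorem v6926 : PV l6926 := r6926 v4655 v432 v1254 v1138 v1242 v5112 v6715 w8145 w5308 w4760 w5636 w5735 v6213 v6922 w1536 w8600 w7810
theorem v6927 : PV l6927 := r6927 v5113 v5587 w5407 w8839 v4655 v432 v1254 v433 w4487 v6243 v6895 v3827 v2935 v6325 v428 v430 w4463 v3222 v6263 v1218 v6668 v2641 v3830 w2989 v5581 v4223 v5952 v4798 w5333 w4479 v3935 v6886 v4209 v4218 w5339 v4208 v2640 v2628 v2627 v3934 w4498 v476 v5276 v4204 w714 w688 w694 v6921 v2624 w2270 v2283 v6925 w3438 w3036 w3756 v6926 v3537 w1538 v3870 v6922 v3863 w5287 w5732 w5731 w8021 v4815 w2335 w2336 v2473 v2474 v735 v1105 w8112 w8343 w8268 v6676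
theorem v6928 : PV l6928 := r6928 w8717 w8201 w5627 v3811 v2937 v2322 w8159 w8200
theorem v6929 : PV l6929 := r6929 v6915 v6895 v2627 w2258 v6243 v4655 v433 v5113 v5587 w4487 v432 v1254 v3827 v3830 v2935 v428 v430 w4463 v3222 v6263 v1218 w2989 v6325 v5581 v4223 v5952 v4209 w690 v6668 v4208 w695 v2641 v4798 w5333 w5339 v2628 v3934 w4498 v427 w4452 v6928 v2448 w7823 v6564 w5627 w1466 w8718 w1455 v2322 w8159
theorem v6930 : PV l6930 := r6930 v6243 v4655 v433 v5113 v5587 w4487 v6895 v432 v1254 v3827 v3830 v2935 v428 v430 w4463 v3222 v6263 v1218 w2989 v6325 v5581 v4223 v5952 v4260 v3935 v3934 v5112 v1316 v3171 v2379 v6915 v6929 w3031 v6911 v2448 v3537 v5893 v2962 w4265 v2794 v4618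
theorem v6931 : PV l6931 := r6931 v6916 v3537 w1506 w7918 w5262 w5627 w5665 v4804 w8088 w3449 w3457 w3416 w8248 v3180 w1454 w5311 w1464 w8251
theorem v6932 : PV l6932 := r6932 v6894 v6243 v6325 v3338 v3935 v5113 v5587 w5407 v4655 v432 w4479 v433 w4487 w4498 v428 w4458 v430 w4463 v476 v6705 v4084 v2615 v1254 v1138 v1242 v5112 v1316 v5035 v4082 v6895 v3222 v3113 v3111 v2627 v2628 v3827 v6263 v2935 v3830 v1218 v6668 w2989 v2641 v4129 v4208 v5581 v4223 v5952 v4209 v4798 v6886 w5333 v6464 w5364 w4812 w4825 w4836 w4787 w5350 w5812 v6920 w9033 v2713 w2403 v2618 v2617 v6216 v2616 v2791 v2708 v2707 v6223 w3242 w3241 w3239 w3238 w3237 v3426 v5171 v3468 v4848 v6348 v5783 v3439 v3427 v2630 v6927 v2477 v4260 w721 v2269 w690 v6930 v2624 w2270 v2283 w2290 v6931 w3036 v6919 w7785 w4760 v3537 v3874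
theorem v6933 : PV l6933 := r6933 v6903 v6825 v2544 v2557 v4597
theorem v6934 : PV l6934 := r6934 v4655 v432 v1254 v433 v430 v5113 v5112 v5035 v2615 v6705 v4084 v6894 v5587 v6243 v476 w4487 w4479 w5407 v3935 v3338 v3340 v3341 v6325 v6932 v5037 v5038 v6167 v4135 v4428 v4100 v5623 v4802 v6455 v4798 v5636 v4796 v3113 v2731 v4970 w2989 w2982 v4644 v6253 w4825 w4807 w5812 w5740 v2308 v6701 v3216 v2631 v2632 v5936 w8834 w8701 v3927 w3564 w3467 v6933 w9033 v6171
theorem v6935 : PV l6935 := r6935 v3025 v3024 v4655 v428 v1218 v430 v1357 v6135 v3927 v5780 w6795 v2571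
theorem v6936 : PV l6936 := r6936 v6934 v2602 v5112 v5035 v3025 v6935 v3216 v5726 v4884 v3796 v4788 v3137
theorem v6937 : PV l6937 := r6937 v5112 v2920 v2926 v2930 v2896 v5171 v6348
theorem v6938 : PV l6938 := r6938 v6934 v5113 v5112 v1357 v2602 v6936 v2920 v2926 v2896 v3426 v5171 v4883 v2571 v5780
theorem v6939 : PV l6939 := r6939 v6248 v476 w5354 v4655 v428 w4458 w4787 v432 w4479 w4807 v433 w4487 w4836 w4812 w5364 v6934 v6200 v6818 v2711 v3336 v3118 v3115 v5112 v5035 v6938 v2544 v2545 w3749 w3838 w3564 w3853 w8774 v5727 v3430 w8773 v3360 v2571 w1592 w9147 v2594 v2713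
theorem v6940 : PV l6940 := r6940 v3117 v6200 v6934 v5113 v5112 v5035 v2791 v2602 v2708 v2707 w3241 w3240 v2713 w3824 v3426 v4848 v4862 v2571 v4183 v2662 v2604 w9066 w8679
theorem v6941 : PV l6941 := r6941 v5035 v3216 v5726 v4884 v3796 v4788 v3137
theorem v6942 : PV l6942 := r6942 v2590 v2713 w9066
theorem v6943 : PV l6943 := r6943 v4655 v428 v1218 v6934 v430 v5112 v3024 v3025 v6941 v6135 v3927 v2604 w6795 v2571 v3137 v6942 v2594 v2557 w9108
theorem v6944 : PV l6944 := r6944 v6248 v1360 v6200 v3484 w5339 v5732 v6818 v3336 v4655 v432 w4479 v433 w4487 v428 w4458 v476 v3115 v3223 v3219 v6934 v5113 v5112 v1316 v5035 v2936 v2935 v4903 w2989 v2675 v1218 v1217 v3020 v2673 v3856 v4132 v4130 v6886 v6891 v6464 w5364 w4812 w4825 w4836 w4807 w4816 w4787 w5354 w5740 v2308 v6939 v6940 v6943 v2920 v2926 v2896 v2902 v3426 v5171 v4883 v4848 v2571 v4188 v2604 v6942 v2594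
theorem v6945 : PV l6945 := r6945 v6200 v6248 v6818 v3336 v4655 v432 w4479 v3115 v3219 v4130 v6886 v626 v6451 v2809
theorem v6946 : PV l6946 := r6946 v6200 v6248 v6818 v3336 v4655 v432 w4479 v476 v3115 v3219 v1254 v1138 v1316 v6945 v3836 v5438 v3838 w5165 v6464
theorem v6947 : PV l6947 := r6947 v3836 v4646 v4130 v6253
theorem v6948 : PV l6948 := r6948 v6200 v6248 v6818 v3336 v4655 v432 w4479 v3115 v3219 v1254 v6947 v2942 v2943 v6946
theorem v6949 : PV l6949 := r6949 v6248 w5407 v6948 w5812 v476 w5350 w5354 v4655 v432 w4479 w4807 v433 w4487 w4825 w4812 w5364 v6934 v1357 v3430 v6448 v2571 v3471 v2604 v5711 w9147 v2594 v2713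
theorem v6950 : PV l6950 := r6950 v6248 w5407 v6948 w5812 v4655 v432 w4479 w4807 w5364 v6934 v5113 v5112 v1357 v2926 v2545 v3426 v4883 v2602 v2571 v5780
theorem v6951 : PV l6951 := r6951 v6248 w5407 v6948 w5812 v476 w5354 v4655 v432 w4479 w4807 v433 w4487 w4825 w4812 w5364 v6200 v6818 v3336 v3115 v3219 v6934 v1254 v5112 v5035 v2942 v3836 v4645 v4130 v6886 v6701 v4662 v3216 v6950 v3430 v6448 v2571 v2604 w9147 v2713 v2602 v2594
theorem v6952 : PV l6952 := r6952 v2602 v5711 v2713 w801 w9136 w8798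
theorem v6953 : PV l6953 := r6953 v6951 v2846 v6248 w5407 v6948 w5812 v476 w5350 w5354 v4655 v432 w4479 w4807 v433 w4487 w4825 w4812 v6200 v6818 v3336 v3117 v3115 v6934 v5112 v1357 v5035 v5039 v4130 v2569 v2674 v2673 v6701 v3216 v6950 w3556 v6448 v3927 v2662 v2604 v6952 w3749 w3838 w3853 w8774 v5727 v6949 v3360
theorem v6954 : PV l6954 := r6954 v3236 v3924 v5096 v5173 v5095
theorem v6955 : PV l6955 := r6955 v4525 v4086 v6625 v319 v3997 v3971 v3282 v5716
theorem v6956 : PV l6956 := r6956 w3896 v4655 v427 w3938 w3969 v5854 v6955 v6467 v4074 v3068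
theorem v6957 : PV l6957 := r6957 v4655 v427 v5113 w3938 w3890 v6956 v5818 v5819 v5821
theorem v6958 : PV l6958 := r6958 v4053 v4055
theorem v6959 : PV l6959 := r6959 v3303 v6958 v4042 v4069 w2461
theorem v6960 : PV l6960 := r6960 v4655 v432 v1254 v1138 v1242 v5112 v1360 v6959 v5943 v5810 v5034 w2451 v5050
theorem v6961 : PV l6961 := r6961 v5112 v2794 v4655 v432 v1254 v6482 w2496 v3075 v6474 v5983 v4757
theorem v6962 : PV l6962 := r6962 v4069 v4053
theorem v6963 : PV l6963 := r6963 v5112 v2794 v4655 v432 v1254 v1138 v1242 w3895 v2779 v6961 v6960 v6311 w2461 w2465 v6962 v5050 v6130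
theorem v6964 : PV l6964 := r6964 w2496 v3075 v6625 v5863
theorem v6965 : PV l6965 := r6965 v6468 v6478
theorem v6966 : PV l6966 := r6966 v4655 v427 w3938 v5112 v2794 v1360 v5854 v6964 v6965
theorem v6967 : PV l6967 := r6967 v4655 v432 v5113 v5112 w3952 w3946 v6966 v5974 v5968 v5969
theorem v6968 : PV l6968 := r6968 v5112 v2794 v1244 v1360 v6483 v6967 v2779 v6961 v6965 v3075 v5810 v4055 v3303 v4042
theorem v6969 : PV l6969 := r6969 v1360 v3303 v5655 w2465 w2451 v6311 v4042 v4055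
theorem v6970 : PV l6970 := r6970 v6968 v5112 v2794 v1244 v4655 v432 v1254 v1138 v1242 v6956 w3895 v2779 v6963 v6969 v5943 v5810 v5034 w2451 v5050
theorem v6971 : PV l6971 := r6971 v1244 v6968 v6970 v6495 v6961 v6957
theorem v6972 : PV l6972 := r6972 v4655 v427 v1360 w3938 v5854 v6964 v3069 w2461 v6678 v4057
theorem v6973 : PV l6973 := r6973 v6969 v6960 v6962 v6311 w2461
theorem v6974 : PV l6974 := r6974 v5112 v2794 v4655 v432 v1254 v1138 v1242 v6972 w3895 v2779 v6973 v5943 v5810 v5034 w2451 v5050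
theorem v6975 : PV l6975 := r6975 v6482 v6595 v6522 w2496
theorem v6976 : PV l6976 := r6976 v4655 v427 v1360 w3969 w3938 w3896 v5854 v6955 v6964 v6678 v3069
theorem v6977 : PV l6977 := r6977 v5112 v2794 v1244 v4655 v432 v1254 v1138 v1242 v6971 v6975 v6974 v6976 w3895 v2779 v6973 v5943 v5810 v5034 w2451 v5050
theorem v6978 : PV l6978 := r6978 w6177 w6189
theorem v6979 : PV l6979 := r6979 v3300 v3301 v6093 v6095 v442
theorem v6980 : PV l6980 := r6980 v996 v1000 v3300 v3301 w1665 w6818 v3313 v4317 v441 v442 w5065 v4327 v4764 v4689 v3648 v3680 w2696 w6919 v3205 v4973 w390 w6944 w5019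
theorem v6981 : PV l6981 := r6981 w4235 v6980
theorem v6982 : PV l6982 := r6982 w6655 w6620
theorem v6983 : PV l6983 := r6983 v3301 w1667 v6982 w4850 w6977 w6960
theorem v6984 : PV l6984 := r6984 w3928 w3932 v6982 w6082 v3302 w820 w6121
theorem v6985 : PV l6985 := r6985 v3303 v5035 w13 w14 v4114 v4150 v6983 w1752 v6984 w4849 w6998 w7023
theorem v6986 : PV l6986 := r6986 v1000 v4655 v432 v1254 v1360 w4235 w6632 v3948 v3643 v3660 v442
theorem v6987 : PV l6987 := r6987 v1357 v4655 v3300 v3301 v6986 w4378 w6981 v4320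
theorem v6988 : PV l6988 := r6988 v6979 w2803 v2878 v6983
theorem v6989 : PV l6989 := r6989 v4655 v432 v1254 v5113 v442 w5061 v3657 v3363 w6997 w6934
theorem v6990 : PV l6990 := r6990 v4655 v432 v1254 v1138 v1242 v6989 v6093 v3189 v3641
theorem v6991 : PV l6991 := r6991 v5035 v4114 v4178 v6988 v3277 w1750 v6990 w2803 w2582 w2586 v2876 v2878 v6985
theorem v6992 : PV l6992 := r6992 v3301 v5112 v4655 w2802 w2809 w2810 v6981 w4378 w6905 v3645
theorem v6993 : PV l6993 := r6993 v6992 v3033 w2695 v6987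
theorem v6994 : PV l6994 := r6994 v4328 v3658
theorem v6995 : PV l6995 := r6995 v6994 w5035 v6076 v3674
theorem v6996 : PV l6996 := r6996 v4655 v432 v1254 v1138 v5276 v6993 v3277 v3278 v6995 v6081 v3678 v4342
theorem v6997 : PV l6997 := r6997 w4378 v4825 w6813
theorem v6998 : PV l6998 := r6998 v5112 v4655 w2802 v6997 v442 v3655 v4635
theorem v6999 : PV l6999 := r6999 v3300 v3301 v6998 w3114 v6983
theorem v7000 : PV l7000 := r7000 v4655 v432 v1254 v1138 v1242 v6989 w5038 v6076 v3673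
theorem v7001 : PV l7001 := r7001 v6200 v6248 v6818 v3933 w853 v4655 v432 w4479 v6948 w4807 v3216 v433 w4487 w4812 w4825 v476 w5354 v6448 v3797 w5364 v3430 v3436 w6732 w2897 v1244 w5350 w4816 w4836 v2711 w4498 v1254 v427 v5113 v1360 v5035 w3938 w4012 w3896 w3890 w4036 v5854 w1747 w1745 v6964 v3045 w2690 v3069 w2650 w2461 w2455 v4057 w6115 v3286 v3282 v3284 v3285 v6978 w1528 w826 v5808 w6150 w124 v6996 v4114 v4178 v6991 v6999 v3277 v3278 w1750 v7000 w2803 w2582 w2586 v2876 v2878 v6985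
theorem v7002 : PV l7002 := r7002 v1360 v6969 v6959 v6962 v6311 w2461
theorem v7003 : PV l7003 := r7003 v6248 v6948 w5364 v3430 v5112 v2794 v4655 v432 v1254 v1138 v1242 v6968 v6975 v7001 w3895 v2779 v7002 v5810 w2451 v5050 v6130
theorem v7004 : PV l7004 := r7004 v6093 v442 w5061 v4635 v3647 w6975 w6918
theorem v7005 : PV l7005 := r7005 v5112 v3300 v3301 w1662 v7004 w2803 v2878 v6983
theorem v7006 : PV l7006 := r7006 v5035 v4114 v4178 v7005 v3277 w1750 v6990 w2803 w2582 w2586 v2876 v2878 v6985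
theorem v7007 : PV l7007 := r7007 w4378 v4317 w6818
theorem v7008 : PV l7008 := r7008 v996 v1000 v5112 v4655 w2802 w2810 v7007 v440 v441 v442 v3645 v4327 v3313 w6905 v4764 v3665 v3702 w3932 v3680 w2807 w2583 v3205 v4973 w6157 w5019 w360 w6944
theorem v7009 : PV l7009 := r7009 v3300 v3301 v7008 v3033 w2695 v6987
theorem v7010 : PV l7010 := r7010 v4655 v432 v1254 v1138 v5276 v996 v7009 v3277 v3278 v6995 w2808 v6081 w4386 v3678 v3941 v6077
theorem v7011 : PV l7011 := r7011 v5112 v4655 w2802 v6997 v442 w5061 v4635 v3647 w6975 w6918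
theorem v7012 : PV l7012 := r7012 v3300 v3301 w1662 v7011 w3114 v6983
theorem v7013 : PV l7013 := r7013 v6200 v6248 v6818 v3933 w853 v2791 v2602 w6732 w2897 v2711 v4655 w4498 v432 v1254 v427 v5113 v1360 v5035 w3969 w3938 w4012 w3896 w4036 v6964 v6955 v3045 w2690 v3069 w2650 v4002 v3286 v3282 v3284 v3285 v6978 w1528 w826 v5808 w6150 w124 v3973 v7010 v4114 v4178 v7006 v7012 v3277 v3278 w1750 v7000 w2803 w2582 w2586 v2876 v2878 v6985
theorem v7014 : PV l7014 := r7014 v2602 v6977 v5112 v2794 v1244 v7013 w3895 v2779 v7002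
theorem v7015 : PV l7015 := r7015 v4655 v432 v6248 w4479 v6948 w4807 v433 w4487 w4812 w4825 v476 w5354 v3216 v6448 w5364 v3430 v3436 v5112 v2794 w5350 w4816 w4836 v6934 v1357 v1316 v3303 w1747 w1742 v7014 v6482 v6975 w2496 v3075 v5048 v6474
theorem v7016 : PV l7016 := r7016 v5854 v5968
theorem v7017 : PV l7017 := r7017 v5112 v2794 v6975 v6961
theorem v7018 : PV l7018 := r7018 v6248 v6948 w5364 v3430 v6934 v2602 v2791 v5112 v2794 v1244 v4655 v432 v1254 v1138 v1242 v6977 v7003 v7015 v7016 w3895 v7017 v5810 w2451 v5050 v6130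
theorem v7019 : PV l7019 := r7019 v5113 v1357 v1316 w3890 v5962 v5821 v5799
theorem v7020 : PV l7020 := r7020 v3303 v5112 v2794 v1244 v4655 v432 v1254 v1357 v1316 v4763 v7019 w3895 v2779 v5978 v5841 v5677 w2451 w2491 v5048 v6474
theorem v7021 : PV l7021 := r7021 v1360 v1316 v3643 v4318
theorem v7022 : PV l7022 := r7022 v342 v996 v438 v441 v4365 v3686
theorem v7023 : PV l7023 := r7023 v4655 v432 v1254 v1138 v5112 v6993 v3277 v3278 v6995 v7022 w5040 v4330 v3663
theorem v7024 : PV l7024 := r7024 v6200 v6248 v6818 v3933 w853 w6732 w2897 v1244 v2711 v4655 w4498 v432 v1254 v427 v5113 v1360 v5035 w3938 w4012 w3896 w3890 w4036 v6964 v3045 w2690 v3069 w2650 w2461 w2455 v5806 w6115 v3286 v3282 v3284 v3285 v6978 w1528 w826 v5713 w124 w6164 v7023 v4114 v4178 v6991 v6999 v3277 v3278 w1750 v7000 w2803 w2582 w2586 v2876 v2878 v6985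
theorem v7025 : PV l7025 := r7025 w3895 v2779 v7002
theorem v7026 : PV l7026 := r7026 v4655 v432 v1254 v1138 v5276 v5112 v7009 v3277 v3278 v6995 v7022 w5040 w5038 v3663 v3678 v4326 v6077
theorem v7027 : PV l7027 := r7027 v4655 v432 v6248 w4479 v6948 w4807 v3216 v433 w4487 w4812 w4825 v476 w5354 v6448 v3797 w5364 v3430 v3436 w6732 w2897 v5112 v2794 v1244 w5350 w4816 w4836 v6200 v6818 v2711 v3933 w4498 v1254 v427 v5113 v1360 v5035 v3303 w1747 w1745 w1742 v7020 w853 v7025 w3969 w3938 w4012 w3896 w4036 v6964 v3045 w2690 v3069 w2650 w2461 v6163 v4037 v6678 v4002 v7024 v3286 v3282 v3284 v3285 v6978 w1528 w826 v5713 w124 w6164 v3973 v7026 v4114 v4178 v7006 v7012 v3277 v3278 w1750 v7000 w2803 w2582 w2586 v2876 v2878 v6985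
theorem v7028 : PV l7028 := r7028 v3308 v4655 v427 v5113 w3938 w3890 v5818 v5799 v6634
theorem v7029 : PV l7029 := r7029 v1357 v1316 v5677 w2496 v5048 v5002 v6521
theorem v7030 : PV l7030 := r7030 v5982 v5015
theorem v7031 : PV l7031 := r7031 v3308 v4655 v432 v1254 v1138 v1242 v5113 v5112 v5854 v5810 v5811 w3895 v3056 w2451 w4109 v5809 v4994 v6130
theorem v7032 : PV l7032 := r7032 v6934 v2602 v2713 v2791 v6951 v3219 v6200 v6248 v6818 v4655 v432 v1254 v1138 v476 v2846 v5438 w5165 v4243 v4248 v5112 w4479 v3836 v2940 v2794 w2743 v1244 v3496 v3838 v3837 v6184 v3023 w5407 v6948 w5812 w5354 w4807 v433 w4487 w4825 w4812 w5364 v3336 v3117 v3115 v1357 v5035 v4180 v6701 v3436 v3430 v3216 v6448 v2662 v2604 v5780 w8920 w9136 w8798 v4164 v2675 v2672 v7018 v7027 v3308 v7031 v7028 v2779 v7029 v7030 v3075 v5016 v5071 v4534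
theorem v7033 : PV l7033 := r7033 v6951 v3219 v6200 v6248 v6818 v4655 v432 v1254 v1138 v476 v2846 v5438 w5165 v4243 v4248 v5112 w4479 v3836 v2940 v2794 w2743 v1244 v3496 v3838 v3837 v6184 v3023 w5407 v6948 w5812 w5354 w4807 v433 w4487 w4825 w4812 w5364 v3336 v3115 v6934 v1357 v5035 v2791 v2602 v2713 v7032 w8787 w3181 w3190 v4869 v4848 v6448 v2604 v5780 v2571 w8920 w9136 v3436 v3430 v4163 v2675 v2672 v7018 v7027 v3308 v7031 v7028 v2779 v7029 v7030 v3075 v5016 v5071 v4534
theorem v7034 : PV l7034 := r7034 w2924 v6347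
theorem v7035 : PV l7035 := r7035 v6200 v6951 v2846 v6248 v6818 v3219 v4655 v432 w4479 v1254 v6953 v3836 v3837 v3838 w2984 v1138 v476 v5438 w5165 v4243 v7034 w3465 w3045 w3556 v7033
theorem v7036 : PV l7036 := r7036 v4655 v433 v6248 w4487 v6948 w4836 w4812 w5364 v5112 v7035 v2920 v2896 v5171 v6950
theorem v7037 : PV l7037 := r7037 v6942 v2594 v2557 w9108
theorem v7038 : PV l7038 := r7038 v4655 v432 w3964 w3978 v3303 v5113 v6686 v4525 v4086 v4059 v3043 v3977 v3967 v3282 w947 v5713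
theorem v7039 : PV l7039 := r7039 v4655 v428 v1218 w4036 v7038 v6595 v6629
theorem v7040 : PV l7040 := r7040 v3303 v4053 v6958 w2461 v4027
theorem v7041 : PV l7041 := r7041 v4655 v432 v1254 v5112 v1360 v1316 v3303 v7039 v2779 v5978 v7040 v6301 v4042
theorem v7042 : PV l7042 := r7042 v4655 v432 v1254 v1138 v1242 v5112 v5943 v5034 v4056 v5050 w2451
theorem v7043 : PV l7043 := r7043 v2779 v6482 v5983 v5019 v5977
theorem v7044 : PV l7044 := r7044 v4655 v428 v1218 v432 v1254 v1138 v1242 v5112 w2705 w2924 v2794 v6238 v1244 w6600 w6748 v7041 v7016 w3895 v7043 v5943 v7042 v5034 v5070 v5050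
theorem v7045 : PV l7045 := r7045 v7036 w3556 w3824 w3582 v6248 w5407 v6948 w5812 v476 w5354 v4655 v428 w4458 w4787 v432 w4479 w4807 v433 w4487 w4825 w4812 w5364 v6934 v6200 v6818 v2711 v3336 v3117 v3115 v1254 v5112 v5035 v5039 v4130 v2569 v6701 v3216 v6448 v3927 v2662 v2604 v7037 v2571 w9099 w801 w9057 v3430 v4789 v4790 v2556 w8798 w8918 w8774 v2590 w3541 w8685 v2674 v2673 w8467 w8752 v7044 w6644 w3165 w2977
theorem v7046 : PV l7046 := r7046 v7036 v6934 v6200 v6248 v6818 v2711 w5407 v4655 v432 w4479 v3219 v1254 w3556 w3582 w3824 v7045 v3836 v2942 v2943 v6184 v2590 v2594 v2555 w8752 w8742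
theorem v7047 : PV l7047 := r7047 v4655 v6248 w4498 w4012 v427 w3938 v3303 v432 v1254 v5113 v1360 w2443 v5863 w6227 v4086 v4233 v4031 v3286 v3282 w2690 w2650 w6150 w6177 w1528
theorem v7048 : PV l7048 := r7048 v7047 w2460 v6163
theorem v7049 : PV l7049 := r7049 v1268 v3303 v1357 v1316 w4036 w3888 w3907 v7048 v6656 v5049
theorem v7050 : PV l7050 := r7050 v3303 v6958 v4055 v4025 w2460
theorem v7051 : PV l7051 := r7051 v3303 v4655 v432 v1254 v5112 v1360 v1316 v7049 v2779 v5978 v7050 v4042 v4041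
theorem v7052 : PV l7052 := r7052 v5034 v4086 v4057 w2443 w2450 w6227 v4050 v3282 v5716
theorem v7053 : PV l7053 := r7053 v4042 v4038
theorem v7054 : PV l7054 := r7054 v4655 v432 w3964 w3969 v3977 v3971 v3282 v5716
theorem v7055 : PV l7055 := r7055 v4655 v432 w3964 w3969 v3303 v2791 v1360 v7048 w3907 v1267 w3896 v7053 v4525 v4086 v7052 v7054 v3978 v3972 v3282 v5716
theorem v7056 : PV l7056 := r7056 v4763 v4655 v432 w3946 w3952 v3303 v5113 v5112 v1357 v1316 w3907 v5842 v5049 v5046 v5964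
theorem v7057 : PV l7057 := r7057 v3303 v4655 v432 v5113 v5112 v1357 v1316 w3952 w3946 w4036 w3888 v7055 v7056 w3896 v5964 v5048 v5672
theorem v7058 : PV l7058 := r7058 v3303 v2791 v4655 v432 v1254 v5276 v5112 v1360 v1316 v7051 v7057 v2779 v5978 v7050 v7053 v1267 v4069 w3902 w2443 v706 w5985
theorem v7059 : PV l7059 := r7059 w6309 w6176
theorem v7060 : PV l7060 := r7060 w8770 w8832
theorem v7061 : PV l7061 := r7061 w4378 v2880 w6845
theorem v7062 : PV l7062 := r7062 v5112 v4655 v3300 v3301 w1665 v6979 v342 w2808 w2803 v7061 v438 v441 v442 w5065 v3646 v4672 v3313 v4764 v3648 v3683 v3721 v4973 w6919 v3205 w5019 w3287 w7001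
theorem v7063 : PV l7063 := r7063 v3207 v3677
theorem v7064 : PV l7064 := r7064 v7063 w5035 v4826 v3661
theorem v7065 : PV l7065 := r7065 v6076 v3673
theorem v7066 : PV l7066 := r7066 v4655 v432 v1254 v1138 v1242 v5113 v4151 v4077 v7062 v3277 v3278 w1750 v7064 v2863 v7065 w5035 w5056 v3657 v3363 w6943 w6934
theorem v7067 : PV l7067 := r7067 w2804 w2803 v6987
theorem v7068 : PV l7068 := r7068 v4655 v432 v1254 v1138 v3301 w1611 v7067 v3046 v6094 w5040 v4319 v3645
theorem v7069 : PV l7069 := r7069 v6081 v3678 v4342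
theorem v7070 : PV l7070 := r7070 v6070 v3682
theorem v7071 : PV l7071 := r7071 v3276 v5276 v5113 v7066 v7068 v3278 v7069 v7070 v3692 v4333
theorem v7072 : PV l7072 := r7072 v3301 w1611 v7067 v3046 v6092 w4100 v4319 v3645
theorem v7073 : PV l7073 := r7073 v4655 v432 v1254 v1138 v5112 v7022 w5040 v4330 v3663
theorem v7074 : PV l7074 := r7074 v3276 v5113 v7066 v7068 v3277 v3278 v7073 v7070 v3692 v4333
theorem v7075 : PV l7075 := r7075 v7071 v7074
theorem v7076 : PV l7076 := r7076 v5112 v4655 w2808 v7061 v441 v442 w5065 v3646 v4672 v3313 w6955 v4764 v3648 w4236 v3683 v4685 w6919 v3205 v4973 w3287 w7001 w5019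
theorem v7077 : PV l7077 := r7077 v3655 v4635
theorem v7078 : PV l7078 := r7078 v3013 v4655 v427 v5112 v3300 v3301 w1665 v6998 w2700 v7076 v7077 v442 w4371 v4825 w6845
theorem v7079 : PV l7079 := r7079 v4655 v432 v1254 v1138 v1242 v5113 v4151 v4077 v7078 v3277 v3278 w1750 v7064 v7065 v2863 w5035 w5056 v3657 v3363 w6943 w6934
theorem v7080 : PV l7080 := r7080 v5276 v7073 v7069
theorem v7081 : PV l7081 := r7081 v2791 w6732 w4036 v4655 v6248 w4498 w3997 v432 w3964 w3978 v1244 v6200 v6818 v2711 v1254 v5113 v3291 v3282 v3276 v3284 v7059 w1530 w6150 v2792 v7075 v7079 v4323 v7072 v3277 v3278 v7080 v7070 v4333 v3692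
theorem v7082 : PV l7082 := r7082 w2805 v3240 v3242 v3184 v7076
theorem v7083 : PV l7083 := r7083 v4655 v432 v1254 v1138 w2801 w2805 v7082 v7064 v3241 v3185 v7076
theorem v7084 : PV l7084 := r7084 v3240 v3242 v7077 v6093 v442
theorem v7085 : PV l7085 := r7085 v6248 v6948 w5364 v5112 v3426 v3439 v4138 v4655 v433 w4487 w4825 v5035 v2902 v4848 v432 w4479 w4807 v5113 w4812 v2896 w4836 v2920 v5171 v2926 v4883 v6937 v476 w5354 v1254 v1138 v1242 v4151 v4077 v7083 v2863 v2865 v7084 v3201 v6190 w5035 w5053 w5056 v3208 v7077 v3669 v3192 v3657 w6950 v3363 w385 w6943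
theorem v7086 : PV l7086 := r7086 w2804 v1357 v3240 v3242 v7021 v6986 v4320 w6981
theorem v7087 : PV l7087 := r7087 v5276 w2801 v7086 v7080 v7069 v3241 v7022 v7021
theorem v7088 : PV l7088 := r7088 v4336 v3680
theorem v7089 : PV l7089 := r7089 v7088 v4332 v3694
theorem v7090 : PV l7090 := r7090 v4655 v432 v1254 v1138 v1242 v5113 v7087 v7089 v6190 v7070
theorem v7091 : PV l7091 := r7091 v4655 v427 v5112 v3240 v3242 v7077 v6998 v442 w4371 v4825 w6845
theorem v7092 : PV l7092 := r7092 v4086 v4525 v4655 v427 w3938 v1244 v3013 w1745 v2791 w6732 v6248 v476 v6948 w5354 v433 w4487 w4825 v5112 v5035 v2902 v4848 w5364 v3426 v432 w4479 w4807 v5113 w4812 v2896 w4836 v2920 v5171 v2926 v4883 v4188 v3427 v3439 v4138 v6937 v1254 v1138 v1242 v4057 w2461 v7081 v3998 v4001 w2496 v7090 v4151 v4077 v7085 v7083 v2863 v2865 v7091 v3201 v6190 w5035 w5053 w5056 v3208 v7077 v3669 v3192 v3657 w6950 v3363 w385 w6943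
theorem v7093 : PV l7093 := r7093 v3240 v3242 v7061 v441 v442 v3683 v4672 v4764
theorem v7094 : PV l7094 := r7094 v4655 v432 v1254 v1138 v5112 v342 v2882 w2808 w2803 v7093 v3205 v7064 v7063 v3241 v3187 v435 w5029 w5035 w5038 w5056 v4672 v3646 v4764 v3647 v3703 v3313 v3721 v4347 v4973 w6928 w5019 w3286 w7001
theorem v7095 : PV l7095 := r7095 v6093 v7004 w5061 w6909 w6928
theorem v7096 : PV l7096 := r7096 v5112 v7095 v4655 v7011 v6997 w5061 w6909 w6928
theorem v7097 : PV l7097 := r7097 v3240 v4655 v432 v1254 v1138 v5112 w5035 v3679 v4635 v4764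
theorem v7098 : PV l7098 := r7098 v4655 v427 v3240 v3242 v3186 v7096 v7097 v441 w4372 v4825 w6845
theorem v7099 : PV l7099 := r7099 v6248 v6200 v5467 v4188 v2661 v4655 v432 v1254 v1138 v1242 v5113 v4077 v7094 v2863 v2865 v2869 v7098 v3201 v3197 v7065 w5044 w5053 w5056 v3208 v3669 w6950 w382 w385 w8491 w1182 w6954 w6928
theorem v7100 : PV l7100 := r7100 v3998 v3997
theorem v7101 : PV l7101 := r7101 v2882 v1000 w5029 w5035 v6081 v3705 v4329
theorem v7102 : PV l7102 := r7102 v1000 v4655 v432 v1254 v1138 v5276 v5112 w2806 w2803 v7067 v7086 v3277 v7101 v439 w4379 v3678 v3663 v3945 v6077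
theorem v7103 : PV l7103 := r7103 v4655 v427 w3938 v1244 v3013 v6248 v6948 w5364 v5112 v3426 v6200 v6818 v3336 v3115 v1357 v3427 v755 v4180 v2820 v3374 w5388 v3219 v2846 v4662 v6249 v5467 v6247 v2791 w6732 v4138 w792 v476 w5354 v433 w4487 w4825 v5035 v2902 v4848 v432 w4479 w4807 v5113 w4812 v2896 w4836 v2920 v5171 v2926 v4883 v4188 v3439 v6937 w5350 v4230 v7092 v7099 v7100 v7102 v7089 v7070 v4333 v3692
theorem v7104 : PV l7104 := r7104 v1244 v3013 v6248 v476 v6948 w5354 v4655 v433 w4487 w4825 v5112 v5035 v2902 v4848 w5364 v3426 v432 w4479 w4807 v5113 w4812 v2896 w4836 v2920 v5171 v2926 v4883 v4188 v427 v7103 v4074 v6678 v3068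
theorem v7105 : PV l7105 := r7105 v6248 v6948 w5364 v4655 v433 w4487 w4812 w4836 v6937 v1357 v1316 v7104 v6656 v5962
theorem v7106 : PV l7106 := r7106 v3303 v4655 v432 v1254 v5112 v1360 v1316 w3895 v2779 v5978 v6969 v7002 v6958 v7053
theorem v7107 : PV l7107 := r7107 v6200 v6248 v6818 v4655 v432 v1254 v3291 v3282 v7059 v5716 v3844
theorem v7108 : PV l7108 := r7108 v5112 v4655 v342 w2803 w2585 w2584 v7093 w1653 v7063 w1649 v435 v4828 v3721 v3696 v4368 v4369 v508 v2775 w6097 w6071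
theorem v7109 : PV l7109 := r7109 v5112 v7084 v7091
theorem v7110 : PV l7110 := r7110 v4655 v432 v1254 v1138 v1242 v5112 v7108 v2863 v7109 v7065 w5035 w5056 v7077 v3192 v3657 v7000 v3363 w6943
theorem v7111 : PV l7111 := r7111 v3240 v7088 v439 v4332 v4331 v3672 v3650
theorem v7112 : PV l7112 := r7112 v1244 w3896 v4655 v6248 w4498 w3997 v427 w3938 v432 w3946 w3952 v3013 v3303 v1254 v1138 v1242 v5113 v5112 v1357 v5034 v4086 v4230 v5964 v7107 v3998 v4001 w6227 v3992 v7100 v4057 w2461 w2488 v710 v4031 v4050 v2784 v7110 v7087 v7111 v7070 v6190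
theorem v7113 : PV l7113 := r7113 v6248 v1360 v6200 v3484 w5339 v6948 v2308 v5112 v6221 v5732 v6944 w5740 v7046 v2820 v3374 w5391 w5364 v3426 v6818 v3336 v3115 v1357 v3427 v755 v4180 v7036 w5407 w5812 v4655 v433 w4487 w4825 v432 w4479 w4816 v6934 v2571 v5035 v2902 v4848 w4807 v5113 w4812 v2896 w4836 v2920 v5171 v2926 v4883 v2604 v7037 v6940 v2846 v3219 v3512 v5245 v3494 w5388 v4662 v2602 v2713 w8988 w9066 v6249 v5467 v6247 v2948 v2791 w6732 v476 w5354 v4188 v3439 v6937 w5350 v2711 v427 v1316 v7058 v3013 v1244 v7106 w3938 w3888 v7105 v7112 v5962 v5863 v6678 v3068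
theorem v7114 : PV l7114 := r7114 v4655 v430 v4970 v6248 v6200 v5467 v6247 v5112 v3426 v3427 v3439 v432 v1254 v1138 v1242 v5113 v4077 v7099 v7094 v2863 v2865 v7109 v3201 v7065 w5035 w5053 w5056 v3208 v7077 v3669 v3192 v3657 w6950 v3363 w385 w6943
theorem v7115 : PV l7115 := r7115 v3308 v1138 v1242 v5859 w3891 w5915 w6034
theorem v7116 : PV l7116 := r7116 v1268 v4655 v432 v1254 v7115 v4763 v6656 v5033 w3895 w2450 v5845
theorem v7117 : PV l7117 := r7117 v1084 v706
theorem v7118 : PV l7118 := r7118 v4550 v4552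
theorem v7119 : PV l7119 := r7119 v4655 v430 v4970 v3308 v5276 v5112 v1268 v7116 v7117 v6595 v1074 v7118 w3895 w3891 v5982 w6015 w2464 v5043
theorem v7120 : PV l7120 := r7120 v5050 v5021 v4047
theorem v7121 : PV l7121 := r7121 v4655 v432 v1254 v1138 v1242 v5034 v7120 w3895 v5859 v6656
theorem v7122 : PV l7122 := r7122 v3308 v4655 v430 v5276 v5112 v1357 v1316 v4970 v7119 v7121 v7117 v6595 v1074 v7118 w2444 w2455 v2779 v5071 v5048 v4534
theorem v7123 : PV l7123 := r7123 v3308 v4655 v6248 w4498 v432 v1254 v1138 v1242 v5034 v4086 v4230 v7120 v7107 w3999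
theorem v7124 : PV l7124 := r7124 v5968 v4550 v4552
theorem v7125 : PV l7125 := r7125 v6248 v1360 v6200 v3484 w5339 v6948 v2308 v5112 v6221 v5732 v6944 w5740 v7046 v2820 v3374 w5391 w5364 v3426 v6818 v3336 v3115 v1357 v3427 v755 v4180 v7036 w5407 w5812 v4655 v433 w4487 w4825 v432 w4479 w4816 v6934 v2571 v5035 v2902 v4848 w4807 v5113 w4812 v2896 w4836 v2920 v5171 v2926 v4883 v2604 v7037 v6940 v2846 v3219 v3512 v5245 v3494 w5388 v4662 v2602 v2713 w8988 v5467 v6247 v476 w5354 v4188 v3439 v6937 v1254 v1138 v1242 v5276 v1316 v7113 v3308 v7122 v7123 v7117 v4763 v1074 v7124 w3895 v2779 v5982 v7120 v5048 v4534 v4542 v5043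
theorem v7126 : PV l7126 := r7126 v1268 v7048 w3907
theorem v7127 : PV l7127 := r7127 v4655 v432 v1254 v5113 v3291 v3282 v3980 v7059 v2792 w1530 w6150
theorem v7128 : PV l7128 := r7128 v7088 v4343 v3694
theorem v7129 : PV l7129 := r7129 v4230 v4086 v4525 v2791 v4655 v6248 w4498 v432 v1254 v1138 v1242 v427 v5113 w3964 w3938 w3997 w4036 w3888 v7126 v1244 v7127 v3998 v4001 v7100 v4057 w2488 v7087 v7128 v7070 v6190
theorem v7130 : PV l7130 := r7130 v5034 v7129 w3895 v2779 v6958 v4055 v7050 v5065 w2451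
theorem v7131 : PV l7131 := r7131 v4655 v432 v1254 v5112 v1316 v7130 v5978 v4760 v4761
theorem v7132 : PV l7132 := r7132 v4655 v432 v1254 v1138 v1242 v5034 v7131 v7120 w3895 v5859 v5960
theorem v7133 : PV l7133 := r7133 v3308 v4655 v427 v1360 w3938 w4036 w3888 v5863 v7126 w6115 w2444
theorem v7134 : PV l7134 := r7134 v5276 v1360 v7117 v3304 v7133 v2779 v4041 v4042
theorem v7135 : PV l7135 := r7135 v1357 v1316 v5048 v5049 v4734
theorem v7136 : PV l7136 := r7136 v6249 v6248 v6200 v5467 v6247 v2948 v2791 w6732 v5112 v3426 v4188 v3427 v3439 v6818 v2711 v4655 v432 v1254 v1138 v1242 v7114 v7132 v7134 v4763 v7135 v3303 v3304 v7124 v1074 w3895 v2779 v7120 v4533 v4542 v4534 v5043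
theorem v7137 : PV l7137 := r7137 v3240 v7088 v439 v4343 v4331 v3672 v3650
theorem v7138 : PV l7138 := r7138 v7123 v3303 v4230 v4086 v4525 v5034 v4655 v428 v1217 v6248 w4498 v432 v1254 v1138 v1242 v427 v5113 w3946 w3964 w3938 w3997 w4036 w3888 v7127 v7055 w6227 w6483 v3998 v7100 v3992 v1244 v4057 w3896 w2461 v710 w2488 v4031 v4050 v2784 v7110 v7087 v7137 v7070 v6190
theorem v7139 : PV l7139 := r7139 v7123 v5034 v7138 w3895 v2779 v6958 v4055 v7050 v5065 w2451
theorem v7140 : PV l7140 := r7140 v4655 v432 v1254 v5112 v1316 v7123 v7139 v5978 v4760 v4761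
theorem v7141 : PV l7141 := r7141 v3308 w3938 v4074 v4002 v3068
theorem v7142 : PV l7142 := r7142 v4655 v427 v5276 v1360 v3770 v7117 v3304 v3308 w1738 v7141 v2779 v4042 v7053 w2678 v4069 w6128 v5266 w4015 w5985
theorem v7143 : PV l7143 := r7143 v6248 v1360 v6200 v3484 w5339 v6948 v2308 v5112 v6221 v5732 v6944 w5740 v7046 v2820 v3374 w5391 w5364 v3426 v6818 v3336 v3115 v1357 v3427 v755 v4180 v7036 w5407 w5812 v4655 v433 w4487 w4825 v432 w4479 w4816 v6934 v2571 v5035 v2902 v4848 w4807 v5113 w4812 v2896 w4836 v2920 v5171 v2926 v4883 v2604 v7037 v6940 v2846 v3219 v3512 v5245 v3494 w5388 v4662 v2602 v2713 w8988 w9066 v6249 v5467 v6247 v2948 v2791 w6732 v4138 w792 v476 w5354 v4188 v3439 v6937 w5350 v2711 v1254 v1138 v1242 v428 v7125 v1217 v7136 v7140 v4184 v7142 v4763 v7135 v3303 v3304 v7124 v1074 w3895 v2779 v7120 v4533 v4542 v4534 v5043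
theorem v7144 : PV l7144 := r7144 v4655 v432 v1254 v5113 v3286 v3282 w6177 w6150 w1528
theorem v7145 : PV l7145 := r7145 v4655 v432 v1254 v1138 v1357 v342 v2882 w2808 w2803 v7082 v7063 v435 v436 w5029 w5035 v3685 v4831 v6069 v3938 v3944
theorem v7146 : PV l7146 := r7146 v4655 v427 w3938 v7143 v6248 v6948 w5364 v5112 v6200 v1360 v6221 v5732 v6944 v3484 w5339 w5740 v7046 v3426 v6818 v3336 v3115 v1357 v3427 v755 v4180 v2308 v2820 v3374 w5391 v7036 w5407 w5812 v433 w4487 w4825 v432 w4479 w4816 v6934 v2571 v5035 v2902 v4848 w4807 v5113 w4812 v2896 w4836 v2920 v5171 v2926 v4883 v2604 v7037 v6940 v2846 v3512 v6625 v2711 v2602 v4086 v4233 w4498 w4012 v2791 w6732 w4036 w2659 w3289 v7144 v4001 v7100 v428 v1218 v3219 v5245 v3494 w5388 v4662 v2713 w8988 w9066 v6249 v5467 v6247 v2948 v476 w5354 v4188 v3439 v4138 v6937 v1254 v1138 v1242 v7058 v1244 v4057 w2488 v7090 v4151 v4077 v7145 v2863 v2865 v7109 v3201 v7065 w5035 w5053 w5056 v3208 v7077 v3669 v3192 v3657 w6950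 v3363 w385 w6943
theorem v7147 : PV l7147 := r7147 v4233 v4086 v7143 v6248 v6948 w5364 v5112 v6200 v1360 v6221 v5732 v6944 v3484 w5339 w5740 v7046 v3426 v6818 v3336 v3115 v1357 v3427 v755 v4180 v2308 v2820 v3374 w5391 v7036 w5407 w5812 v4655 v433 w4487 w4825 v432 w4479 w4816 v6934 v2571 v5035 v2902 v4848 w4807 v5113 w4812 v2896 w4836 v2920 v5171 v2926 v4883 v2604 v7037 v6940 v2846 v3512 v2602 v2791 w6732 v2711 w4498 v427 w3938 w4012 w4036 v6625 w2659 w3289 v7144 v7146 v3308
theorem v7148 : PV l7148 := r7148 v5034 v6248 v1360 v6200 v3484 w5339 v6948 v2308 v5112 v6221 v5732 v6944 w5740 v7046 v2820 v3374 w5391 w5364 v3426 v6818 v3336 v3115 v1357 v3427 v755 v4180 v7036 w5407 w5812 v4655 v433 w4487 w4825 v432 w4479 w4816 v6934 v2571 v5035 v2902 v4848 w4807 v5113 w4812 v2896 w4836 v2920 v5171 v2926 v4883 v2604 v7037 v6940 v2846 v3219 v3512 v5245 v2602 v2713 w8988 v5467 v3439 v1254 v1138 v1242 v7147 w3895 v2779 v7120 v7050 v6969 v7040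
theorem v7149 : PV l7149 := r7149 v4655 v428 v1218 v6248 v6948 w5364 v5112 v3426 v3439 v4138 v433 w4487 w4825 v5035 v2902 v4848 v432 w4479 w4807 v5113 w4812 v2896 w4836 v2920 v5171 v2926 v4883 v6937 v476 w5354 v1254 v1138 v1242 v4151 v4077 v7145 v2863 v2865 v7109 v3201 v7065 w5035 w5053 w5056 v3208 v7077 v3669 v3192 v3657 w6950 v3363 w385 w6943
theorem v7150 : PV l7150 := r7150 v3240 v7088 v439 v3664 v4324
theorem v7151 : PV l7151 := r7151 v4233 v4086 v1360 v6200 v5732 v2791 w6732 v6248 v476 v6948 w5354 v4655 v433 w4487 w4825 v5112 v5035 v2902 v4848 w5364 v3426 v432 w4479 w4807 v5113 w4812 v2896 w4836 v2920 v5171 v2926 v4883 v4188 v3427 v6221 v6818 v2711 w4498 v1254 v1138 v1242 v427 w3938 w4012 w4036 w3888 v6625 v7126 w2659 w3289 v1244 v7144 v7100 v4001 v4057 w2488 v7149 v7087 v7150 v7070 v6190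
theorem v7152 : PV l7152 := r7152 v5034 v7151 w3895 v2779 v6958 v4055 v7050 v5065 w2451
theorem v7153 : PV l7153 := r7153 v5034 v7143 v6248 v1360 v6200 v3484 w5339 v6948 v2308 v5112 v6221 v5732 v6944 w5740 v7046 v2820 v3374 w5391 w5364 v3426 v6818 v3336 v3115 v1357 v3427 v755 v4180 v7036 w5407 w5812 v4655 v433 w4487 w4825 v432 w4479 w4816 v6934 v2571 v5035 v2902 v4848 w4807 v5113 w4812 v2896 w4836 v2920 v5171 v2926 v4883 v2604 v7037 v6940 v2846 v3219 v3512 v5245 v3494 w5388 v4662 v2602 v2713 w8988 w9066 v6249 v5467 v6247 v2948 v3439 v1254 v1138 v1242 v7148 v7152 v7120 w3895 v4058 v4061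
theorem v7154 : PV l7154 := r7154 v4655 v432 v1254 v1138 v1242 v5112 v1316 w3895 v5978 v7120
theorem v7155 : PV l7155 := r7155 v6248 v1360 v6200 v3484 w5339 v6948 v2308 v5112 v6221 v5732 v6944 w5740 v7046 v2820 v3374 w5391 w5364 v3426 v6818 v3336 v3115 v1357 v3427 v755 v4180 v7036 w5407 w5812 v4655 v433 w4487 w4825 v432 w4479 w4816 v6934 v2571 v5035 v2902 v4848 w4807 v5113 w4812 v2896 w4836 v2920 v5171 v2926 v4883 v2604 v7037 v6940 v2846 v3219 v3512 v5245 w5388 v4662 v2602 v2713 w8988 v3439 v6937 v5034 v7153 v7154 v5960 v4760 v4761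
theorem v7156 : PV l7156 := r7156 v4655 v432 v1254 v5113 v5112 v1357 v1316 v3303 v5978 v5048 w4004 w2646 v6136 w6088
theorem v7157 : PV l7157 := r7157 v6248 v1360 v6200 v3484 w5339 v6948 v2308 v5112 v6221 v5732 v6944 w5740 v7046 v2820 v3374 w5391 w5364 v3426 v6818 v3336 v3115 v1357 v3427 v755 v4180 v7036 w5407 w5812 v4655 v433 w4487 w4825 v432 w4479 w4816 v6934 v2571 v5035 v2902 v4848 w4807 v5113 w4812 v2896 w4836 v2920 v5171 v2926 v4883 v2604 v7037 v6940 v2846 v3219 v3512 v5245 v3494 w5388 v4662 v2602 v2713 w8988 w9066 v5467 v6247 v2948 v2791 w6732 v476 w5354 v4188 v3439 v6937 v2711 v7155 v4433 v7134 v4763 v3958 v7156 v3308 v7124 v1074 w3895 v7154 v4542 v5043 v4543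
theorem v7158 : PV l7158 := r7158 v4655 w2803 v7093 v7063 v4828 v3685
theorem v7159 : PV l7159 := r7159 v4655 v428 v1218 v432 v1254 v1138 v1242 v5112 v7158 v2863 v7109 v7065 w5035 w5056 v7077 v3192 v3657 v7000 v3363 w6943
theorem v7160 : PV l7160 := r7160 v7088 w5072 v4332 v3667 v3672 w8755 w6821
theorem v7161 : PV l7161 := r7161 v4655 v432 v1254 v1138 v1242 v5113 v7070 v6190
theorem v7162 : PV l7162 := r7162 v4233 v4086 v1360 v6200 v5732 v6221 v6248 v6818 v4655 w4498 v427 w3938 w4012 w4036 w3888 v6625 v7055 w2659 w3289 v1244 v7144 v7100 v4001 v4057 w2488 v7159 v4315 v7087 v2868 v7161 v3240 v7088 v7160 v439 v4324 v4764 v3650 v3672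
theorem v7163 : PV l7163 := r7163 v5034 v7162 w3895 v2779 v6958 v4055 v7050 v5065 w2451
theorem v7164 : PV l7164 := r7164 v4086 v5034 v1360 v6200 v5732 v6221 v4655 v432 v1254 v1138 v1242 v7163 v3308 v3261 v7120 v5716 w3895 w3893 v4051 v4058 w6297 v710
theorem v7165 : PV l7165 := r7165 v4655 v428 v1218 v6200 v1360 v6221 v427 v5113 v5112 v5034 v7164 v7154 w3938 w3888 v5818 v4760 v4761
theorem v7166 : PV l7166 := r7166 v6248 w5407 v6948 w5812 v476 w5350 w5354 v4655 v432 w4479 w4816 w4807 v433 w4487 w4836 w4825 w4812 w5364 v6934 v6200 v6818 v2711 v3336 v3115 v3219 v428 v5113 v5112 v1360 v1357 v5035 v6221 v5732 v3484 w5339 v6944 w5740 v2308 v7036 v7046 v2820 v2920 v2926 v2896 v2902 v6937 v3426 v5171 v3374 v4883 v4848 v2571 v3439 v3427 w5388 w5391 v4188 v2604 v755 v7037 v4180 v2689 v2791 v2602 v6940 w6732 v2713 v2846 v2948 v6247 v5467 v6249 w9066 w8988 v4662 v3512 v3494 v5245 v7143 v1218 v7157 v7165 v4433 v4184 v7142 v4763 v3958 v7156 v3308 v7124 v1074 w3895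 v7154 v4542 v5043 v4543
theorem v7167 : PV l7167 := r7167 w8798 w8655
theorem v7168 : PV l7168 := r7168 v6248 w5407 v6948 w5812 v476 w5350 w5354 v4655 v432 w4479 w4807 v433 w4487 w4825 w4812 v3117 v6200 v6934 v1357 v6950 v6448 v3927 v2662 v2604 v7167 w801 w9147 v5711 v2713 v2594
theorem v7169 : PV l7169 := r7169 v4655 v6248 w4498 v432 v1254 v427 w3938 w3997 w4012 v5859 v7100 v3303 v3291 v3282 v6709 v4027 v7059 w2690 w2650 w1530 w5895 v7144
theorem v7170 : PV l7170 := r7170 v4525 v5034 v4655 v432 v1254 v1138 v1242 v5112 v4773 v4769 v7169 v6726 v7040 v6311 v7120 v3045 v4026 w2480 w3895 w3979 w3923 v3967 v4719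
theorem v7171 : PV l7171 := r7171 w5895 w6150
theorem v7172 : PV l7172 := r7172 v6200 v6248 v6818 v3933 w853 v4525 v2711 v4655 w4498 v430 w4463 v432 v1254 v427 v5113 w3969 w3978 w3938 w4012 w3991 v6625 v7100 v319 v3286 v3289 v3282 w6307 w3746 v7171 v3320 w947 w1528 v3971 v3967 w6177 v5854 w2649 w3907 v4032
theorem v7173 : PV l7173 := r7173 v3303 v7040 v6709
theorem v7174 : PV l7174 := r7174 w8658 w8801
theorem v7175 : PV l7175 := r7175 v4587 v5034 v4655 v432 v1254 v1138 v1242 v5102 v3236 v6427 v3239 v6200 v6248 v6818 v2711 w8774 w3853 v6369 v6374 v4494 v4495 v7170 v7172 v7173 v3308 v7120 v6726 w3895 v6311 v2789 w2455 w5915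
theorem v7176 : PV l7176 := r7176 v4655 v6248 w4498 v432 v1254 v427 v5113 w3938 w3997 v7100 v3291 v3282 v7059 w1530 w6275 v7171 w3745
theorem v7177 : PV l7177 := r7177 v2794 v4618
theorem v7178 : PV l7178 := r7178 v5034 v5260 v4655 v432 v1254 v1138 v1242 v7170 v7176 v6958 w3895 v7120
theorem v7179 : PV l7179 := r7179 v4086 v5034 v4655 v433 v6248 w4487 v6948 w4825 v5035 v4851 v3216 v432 v1254 v1138 v1242 v5102 v5260 v430 v4970 v476 w5354 w4479 w4807 w4812 v6934 v6200 v6818 v2711 v3336 v3119 v3117 v3115 v5112 v1360 w3833 v7168 v5653 v6365 v2544 v2545 v2594 v6448 v2660 v2662 v7167 v1127 v7174 w5475 v4769 v7175 w3855 v7177 v7178 v7172 v7173 w3895 v7120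
theorem v7180 : PV l7180 := r7180 v4655 v430 v4970 v5113 v5112 v6235 v3410 v3415
theorem v7181 : PV l7181 := r7181 v3216 v6248 w5407 v6948 w5812 v6934 v7168 v7179 v5653 w8906 v2594 v2713
theorem v7182 : PV l7182 := r7182 v4233 v4230 v4228 v6934 v4655 v433 v6248 w4487 v6948 w4812 v432 w4479 w4807 v6200 v6818 v7166 v390 v2845 v6212 v430 w4463 v3223 v4908 w2875 v5035 v5112 v3336 v3115 w4825 v6184 v4130 v3219 v4902 v6701 v7180 v2604 v2662 v5275 v5039 v4970 v6425 w4498 v4891 v6886 v482 v3476 v483 v3509 v476 w5350 w5458 v2673 v2674 v2569 v4133 w5407 w5812 w4816 w5364 v3117 v7167 w801 v7181 v6940 v6181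
theorem v7183 : PV l7183 := r7183 v4086 v4525 v4655 v432 v5113 w3969 w3964 v4059 v3043 w2676 v3977 v3971 v6189
theorem v7184 : PV l7184 := r7184 v5112 v1316 v7183 v7040 v4053 w3906 v2779 w3897 v2794 v5844
theorem v7185 : PV l7185 := r7185 v5034 v4655 v432 v1254 v1138 v1242 v4773 v5719 v4769 v7184 v3308 v5859 v7120 w3895 v2789 w5915 w6034
theorem v7186 : PV l7186 := r7186 v4655 v432 v1254 v1138 v1242 v5102 v3236 v6427 v3106 v3105 v3104 v5035 v5112 v6200 v6248 v6818 v3336 v3115 v433 w4487 v6948 w4825 v390 v2845 v6184 v4130 v6701 v3122 v3216 v2512 v2511 v430 v4970 v3219 w4479 v6886 v483 v3509 v476 w5350 w5458 v482 v5039 v2674 v4133 v4132 w5354 v428 w4458 w4787 w5364 v3119 v3117 v6785 v6352 w5193 w5483 w8774 v6369 v6428 w8658 v2357 v4305 v4304 v1669 w3764 w3809 w3177 w8655 w6644 w781 v6403 w9043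
theorem v7187 : PV l7187 := r7187 v3308 v4525 v4655 v432 v1254 v5113 w3978 w3964 w3991 v5854 v4058 v3979 w6307 w3907 w2461 w3746 v4032 v7171 v3967 w947
theorem v7188 : PV l7188 := r7188 v3308 v4655 v432 v1254 v1138 v1242 v7042 v4056 w3895 w2444 v2789 w5915
theorem v7189 : PV l7189 := r7189 v6248 v476 v6948 w5354 v3219 v4655 v432 w4479 v6200 v6818 v390 v2845 v6184 v6886 w5460 v4132 v2661 v3118 w8799 w3854 v3933 w853 v4086 v5034 v2515 v2514 v2513 v6934 v2604 v3345 v2662 v2660 v3927 v5035 v433 w4487 w4812 v5112 v3336 v3115 w4825 v4130 v6701 v3216 v4872 v1254 v1138 v1242 v5102 v5260 v430 v4970 v483 v3509 v5039 v2674 w5407 w5812 w4463 v3223 v1360 v2713 w9136 w9147 v5653 v6365 v2544 v2545 v4587 v7185 v7186 v7184 v3308 v3261 v3268 v7187 v7188 v7120 w3895 v2789 w5915 w6034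
theorem v7190 : PV l7190 := r7190 v2602 v2594
theorem v7191 : PV l7191 := r7191 v6934 v7190 v2713 v2604 v6248 w5407 v6948 w5812 v7189 w9136 w8906
theorem v7192 : PV l7192 := r7192 w6748 w6600
theorem v7193 : PV l7193 := r7193 v4655 v432 v1254 v5112 v1316 v3303 v5978 v4760 v5977 w2461 v6291
theorem v7194 : PV l7194 := r7194 v4086 v6934 v6200 v6248 v6818 v7166 v390 v2845 v6212 v4655 v430 w4463 v3223 v4908 w2875 v5275 v7190 v7192 v2713 v433 w4487 v6948 w4812 v432 w4479 w4807 v5035 v5112 v3336 v3115 w4825 v6184 v4130 v3219 v4902 v6701 v7180 v2604 v2662 v3216 v5277 v5260 v6886 v482 v3476 v483 v3509 v476 w5350 w5458 v5039 v2673 v2569 w5407 w5812 v3117 v5113 v7182 v7167 v3321 v6637 w801 w9066 v7168 v5653 w3838 v7193 v3261 v5960 v5032 v7171 w2691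
theorem v7195 : PV l7195 := r7195 v4086 v6934 v7190 v7192 v2713 v2604 v5260 v6248 w5407 v6948 w5812 v5113 v5035 w9136 v7191 w9147 w8906 v3321 v5653 w3838 v7193 v3261 v5960 v5032 v7171 w2691
theorem v7196 : PV l7196 := r7196 w9066 w3237 v2571 w6644
theorem v7197 : PV l7197 := r7197 v5260 v3303 v5862 w2461 v4070 v4072
theorem v7198 : PV l7198 := r7198 v4655 v430 v4970 v427 v5112 v1360 v7197 v3308 v5943 v5847 w3938
theorem v7199 : PV l7199 := r7199 w6336 w6015

end Pool.Agent.BDD.A
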