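import Pool.Agent.BDD.AR4
import Pool.Agent.BDD.AR5
import Pool.Agent.BDD.AR6
import Pool.Agent.BDD.AR7
import Pool.Agent.BDD.AR8
import Pool.Agent.BDD.AR9
import Pool.Agent.BDD.AO0
import Pool.Agent.BDD.AO1
import Pool.Agent.BDD.AO2
import Pool.Agent.BDD.AO3
import Pool.Agent.BDD.AO4
import Pool.Agent.BDD.AO5
import Pool.Agent.BDD.AO6
import Pool.Agent.BDD.AO7
import Pool.Agent.BDD.AV1

set_option autoImplicit false
set_option linter.all false

namespace Pool.Agent.BDD.A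

theorem v7200 : PV l7200 := r7200 v4534 v4536
theorem v7201 : PV l7201 := r7201 v3308 v7200 w2461 v4547 v4533 v5981
theorem v7202 : PV l7202 := r7202 v4655 v432 v1254 v428 v6248 w4458 v6948 w4787 w5407 w5812 v6200 v6818 v7166 v390 v2845 v6212 v5035 v5112 v3336 v3115 v433 w4487 w4825 v6184 v4130 v3219 v4902 v6701 v3216 w4812 w4479 w4807 v430 w4463 v3223 v4908 w2875 v7180 v3927 v6934 v2604 v5275 v7190 v2713 v7192 v7196 v2662 v2660 v5277 v5260 v4970 v6886 v483 v3497 v3509 v476 w5350 w5458 v5039 v2673 v2674 v2569 v4133 v3119 v3117 v5113 v1357 v1316 v7174 v7167 v7194 v7168 w5475 w801 v5653 w8906 v2544 v4777 v7198 v4007 v3321 v5974 v5978 v3308 v3261 v7199 v3042 w2692 v7171 w124 v7201 v4692 v5048 w3983 v4690 w2480 v4714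
theorem v7203 : PV l7203 := r7203 v7202 v4655 v432 v1254 v428 v6248 w4458 v6948 w4787 w5407 w5812 v6200 v6818 v7166 v390 v2845 v6212 v5035 v5112 v3336 v3115 v433 w4487 w4825 v6184 v4130 v3219 v4902 v6701 v3216 w4812 w4479 w4807 v430 w4463 v3223 v4908 w2875 v7180 v3927 v6934 v2604 v5275 v7190 v2713 v7192 v7196 v5277 v5039 v4970 v6425 v6886 v482 v3476 v4228 v7195
theorem v7204 : PV l7204 := r7204 v6200 v7166 v390 v2845 v6248 v6818 v6212 v6184 v3219 v4655 v432 w4479 v6886 v483 v3497 v5039 v2673 v4130 w5407 v6948 w5812 v428 w4458 w4787 w4807 v433 w4487 w4825 w4812 v3336 v430 w4463 v3115 v3223 v6934 v1254 v5112 v1357 v1316 v5035 v4970 v4908 v4902 v5260 w2875 v6701 v5275 v5277 v3216 v7180 v3927 v2604 v7190 v2713 v7192 v7196 v7202 w9136 w9147 v7203 v7198 v5974 v5978 v4554 v7201 w2461 v5048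
theorem v7205 : PV l7205 := r7205 v5112 v5035 v3397 w8606 w3468 w8773 v6448 v5831 v4884
theorem v7206 : PV l7206 := r7206 v4655 v432 v1254 v5113 w3835 w6600 v5135 w4036 v7059 v5713 w1530
theorem v7207 : PV l7207 := r7207 v5713 v7171 v6061
theorem v7208 : PV l7208 := r7208 v4525 v4655 v427 v5113 w3969 w3938 v7100 v3282 v7207 v3320 v3972 v3971
theorem v7209 : PV l7209 := r7209 v5112 v1316 v3303 v6709 v7208 v7173 v6958 v4053 v6311 w2450 v3085 v5047 v2794 w3895
theorem v7210 : PV l7210 := r7210 v6200 v6248 v6818 v3933 w853 v4086 v4525 v5034 v3117 v2662 v7167 w801 v4655 v432 w4479 v6948 w4816 v6736 v3216 v6934 v2604 w5407 w5812 v2711 w4498 v427 w4452 v3223 v1254 v1138 v1242 v5113 v7190 v7168 v2713 v5653 w8906 v2544 v3370 v4769 v7209 v3308 v3267 v3272 v3261 v3268 v7120 v7207 w3979 w3968 w3999 w4013 w3992 v3320 w947 w1528 w1530 w6177 w6176 v7059 v3979 w6307 v4051 v3967 w2439 w2440 v3087 w2415 v4058 v4026 v6726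
theorem v7211 : PV l7211 := r7211 v5276 v1357 v6180 v5711
theorem v7212 : PV l7212 := r7212 v6200 v7166 v390 v2845 v6248 v6818 v6212 v6184 v2569 v3117 v476 v6948 w5350 v3219 v4655 v432 w4479 v6886 w5458 v483 v3509 v3118 v433 w4487 w4812 w4825 w4836 w4807 w5354 v4132 w5460 v7205 v2662 v7167 w801 w5407 w5812 v6934 v2604 v482 v3119 v4133 v2660 v7174 w5487 v5039 v2673 v3497 v3927 v7211 v2544 v3387 v7190 v2713 w8906 w4816 v6736 w5475 v4769 v3370 w3838 v7204 v3476 v2674 v1254 v5113 v5112 v1316 v5035 v4086 v4228 v4230 v4233 v7210 v3321 v7207 v3261 v5978 v7193 v6629 v1140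
theorem v7213 : PV l7213 := r7213 v4655 v427 v1360 w3938 v5847 v6288 v3308
theorem v7214 : PV l7214 := r7214 v7213 v4655 v432 v427 v1360 v3303 v5862 v3045 v6301 w3981 w3975 w3958 w3906 v2779 v5847 v1140 v2781 v3977 w2480 v4692 v4016
theorem v7215 : PV l7215 := r7215 v5276 v5112 v7213 v7214 v3308 v5943 v7117 v3027 v4838
theorem v7216 : PV l7216 := r7216 v4655 v428 v5974 v5968 v1218 v3303 v7135
theorem v7217 : PV l7217 := r7217 v3308 v4007 v1140 w2454 w2443 w3906 v4547 v4533 w5897 v4692 w3976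
theorem v7218 : PV l7218 := r7218 v6200 v7166 v390 v2845 v6248 v6818 v6212 v6184 v2569 v3117 v476 v6948 w5350 v3219 v4655 v432 w4479 v6886 w5458 v483 v3509 v3118 v433 w4487 w4812 w4825 w4836 w4807 w5354 v4132 w5460 v7205 v2662 v7167 w801 v3119 v4133 v2660 v7174 w5475 v482 w5487 w4816 v6736 v3216 v6934 v2604 v3927 v7204 v3476 v3497 v5039 v2673 v2674 w5407 w5812 v1254 v5113 v5112 v1357 v1316 v5035 v7211 v2544 w3838 v3387 v3370 v4769 v4777 v7190 v7168 v2713 w8906 v7212 v7215 v4763 v4007 v3321 v7216 v5978 v3308 v3261 v7199 v7207 v3042 w124 v4085 v7217 v7201 v5048 v4692 v5266 w2465 w3979 v4547 v4542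
theorem v7219 : PV l7219 := r7219 v6934 v3118 v6200 v6248 v6818 v4655 v433 w4487 v6948 w4812 w4825 w4836 v432 w4479 w4807 v476 w5354 v7166 v2845 v390 v6212 v6184 v4132 v3219 v6886 w5460 v7205 v2604 v2662 v483 v3509 w5350 w5458 v2569 w5407 w5812 w4816 w5364 v3117 v6736 v7167 w801 v7218 v6940 v7037
theorem v7220 : PV l7220 := r7220 v4655 v6248 w4498 w3997 v432 w3964 w3978 v4086 v4525 v6200 v6818 v2711 v5113 v3303 v4059 v3043 v3967 v3977 w947 v3291 v3282 v7206 v7171 w2691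
theorem v7221 : PV l7221 := r7221 v6200 v6248 v6818 v3933 w853 v4086 v4655 v430 w4463 v3223 v432 v1254 v7220 v3261 v3268 v5859 v5854 v7187 v1140
theorem v7222 : PV l7222 := r7222 v5277 v6338 w2912
theorem v7223 : PV l7223 := r7223 v4655 v432 w3964 w3969 v4525 v5113 v4059 v3043 w2691 v3977 v3971 v3282 v3320 v7171
theorem v7224 : PV l7224 := r7224 v4086 v4655 v432 v1254 v5112 v7221 v3216 v5726 v4848 v4838 w2790 w3832 v1140 v7223 v5859 v5854
theorem v7225 : PV l7225 := r7225 v3303 v5112 v1316 v1140 w2450 w3906 v5047 v4027 w3895 v3085 v2794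
theorem v7226 : PV l7226 := r7226 v5112 v1316 v6958 v4053 v7225 v7040 w3906 v2779 w3897 v2794 v5844
theorem v7227 : PV l7227 := r7227 v3308 v5034 v4056 w2443 v7120 w6034 v2782 v2788
theorem v7228 : PV l7228 := r7228 v3308 v4525 v5034 v4655 v432 v1254 v1138 v1242 v5113 v1140 w3906 v7227 v3043 v3056 w2460 v3974 v4026 w4109 w4115 w4125 w4136 v4994 v3967 w859 v3773 w947 v7059 w6314 v7171 w3830
theorem v7229 : PV l7229 := r7229 v3267 v3308 v5034 v6200 v6248 v6818 v2711 v4655 w4498 v432 v1254 v1138 v1242 v5113 v5112 v7207 v7120 v3320 w1528 w4013 w3895 w6177 w6312 v2794 v2789 v4051 w2448 w5915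
theorem v7230 : PV l7230 := r7230 v4118 v4117 v4086 v4525 v5034 w3854 v6200 v6248 v6818 v3933 v3223 v3219 v4655 v432 v1254 v1138 v1242 v428 v5113 w853 v3843 v3772 v7224 v7226 v3308 v3272 v3261 v3271 v3268 v7229 v4056 v3043 v3056 v3974 w4109 w4124 w4125 w4128 w4137 v4994 w859 w6176 v7059 w2640 v1218 w6307 w6310 v7188 w2532 w2683 v1140 v7228 w6111 w3906 v3263 v4026 v3244
theorem v7231 : PV l7231 := r7231 v5968 v6629 v7193 v1140
theorem v7232 : PV l7232 := r7232 v6934 v2604 v3927 v6248 w5407 v6948 w5812 v476 w5350 w5354 v4655 v432 w4479 w4807 v433 w4487 w4836 w4825 w4812 w5364 v1254 v5113 v5112 v1316 v5035 v7190 v2713 w9136 v7211 w8906 v2544 w3838 v7222 v7230 v7231 v5978 v3308 v5799 w6589 w5884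
theorem v7233 : PV l7233 := r7233 v5275 v5035 v2544 w3838 v3387 w2912 v3378 v4838
theorem v7234 : PV l7234 := r7234 v2602 v7211 v2713 w9136
theorem v7235 : PV l7235 := r7235 v4655 v433 v6248 w4487 v6948 w4836 v6934 v476 w5350 w5407 w5812 v7166 v2845 v6200 v390 v6818 v6212 v6184 v5039 v2673 v3219 v432 w4479 v6886 v483 v3497 v3118 w4812 w4825 w4807 w5354 v4132 w5460 v7205 v3927 v2604 v7219 v7234 v7233 v2661 w8799 v7204 v482 v3476 v3509 v2674 v4228 v4230 v4231 v4233 v7232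
theorem v7236 : PV l7236 := r7236 v6248 v476 v6948 w5354 v4655 v433 w4487 w4836 w4825 w5364 v432 v427 v5112 v1360 v5035 v7213 v7215 v6352 v4838 v3027 v5943 v3303 v5862 v3045 v6301 w3975 w3958 w3906 v2779 v2781 v5847 v1140 v3977 w2480 v4016 v4716
theorem v7237 : PV l7237 := r7237 v6248 v476 v6948 w5354 v4655 v433 w4487 w4836 w4825 w5364 v5035 v5974 v7216 v3027 v6352 v4838
theorem v7238 : PV l7238 := r7238 v7219 v6934 v3118 v6200 v6248 v6818 v4655 v433 w4487 v6948 w4812 w4825 w4836 v432 w4479 w4807 v476 w5354 v7166 v2845 v390 v6212 v6184 v4132 v3219 v6886 w5460 v7205 v2604 v3927 v483 v3497 v3509 v5039 v2673 v2674 w5407 w5812 w5350 v1254 v5112 v1357 v1316 v7234 v2544 v2545 w3838 v7233 v7222 v7190 v2713 w9136 w9147 v7235 v7236 v7237 v5978 v3308 v4554 v7199 w2443 v5266 v7201 v5048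
theorem v7239 : PV l7239 := r7239 v5112 v2794 v4655 v432 v1254 w4036 w3888 v5852 v3303 v4059 v7038 v3075 w3907 v4029
theorem v7240 : PV l7240 := r7240 v5112 v2794 v4525 v5034 v4655 v432 v1254 v1138 v1242 v5113 v7239 v7226 w3895 v3308 v5070 v3044 v3058 v4045 v3974 v4994 w4109
theorem v7241 : PV l7241 := r7241 v5034 v6248 v476 v6948 w5354 v3219 v4655 v432 w4479 v6200 v6818 v390 v2845 v6184 v6886 w5460 v4132 v3118 v433 w4487 w4812 w4825 w4836 w4807 v7205 v2661 w8799 v6934 v2604 v2662 v2660 v3927 v483 v3509 w5350 w5458 v5039 v2673 v2674 v2569 v4133 w5407 w5812 v428 w4458 w4787 w5364 v3119 v3117 v1254 v5112 v5035 v7190 v6181 v2713 v2571 w801 v3426 v4788 v3430 v4194 w8655 v4789 v4838 v7196 w6644 w3504 v2811 v1669 w6600 w2795 v7222 w8658 v2794 w5475 v4769 v7240 v7231 v6688 v7154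
theorem v7242 : PV l7242 := r7242 v2604 v5112 v6942 w6600 v2571 v7239 v3426 v4788 v4789
theorem v7243 : PV l7243 := r7243 w9066 w9108
theorem v7244 : PV l7244 := r7244 v5275 w2889 v7243 v2571 w801 v3426 v3430 w8655 v4838 w3104
theorem v7245 : PV l7245 := r7245 v6248 w5407 v6948 w5812 v476 w5350 w5354 v4655 v428 w4458 w4787 v432 w4479 w4816 w4807 v433 w4487 w4836 w4825 w4812 w5364 v6200 v6818 v3118 v3117 v3219 v6934 v1254 v5112 v1360 v5035 v7166 v390 v2845 v6212 v6184 v5039 v4132 v2569 v6886 v2673 v483 v482 w5460 w5458 v3509 v3476 v7204 v7205 v3927 v2662 v2604 v7219 v7238 v6940 v7244 v7190 v6181 v7241 v2713 v2571 w801 v3426 v4788 v3430 v4194 w8655 v4789 v4790 v4838 v7196 w6644 w3504 v2811 w8918 v1218 w6600 w2795 v7222 v6595 w6353 v2794 v7213 v2779 v5943 v7053 v6301 v3079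
theorem v7246 : PV l7246 := r7246 v5571 v4610 w8866 v2555
theorem v7247 : PV l7247 := r7247 v4082 v6200 v6248 v6818 v2711 w5407 v7246 v2542 w3749 v6212 v2543
theorem v7248 : PV l7248 := r7248 v4082 v6200 v6248 v6818 v2711 w5407 v3223 v4655 v432 v1254 v7247 v6209 w8742 v2553 v4608 v4610
theorem v7249 : PV l7249 := r7249 v4655 v428 v6934 v6200 v6248 v6818 v2711 v7245 v4082 w5407 v6179 v1218 v4084 v6948 w5812 v476 w5354 v432 w4479 w4807 v433 w4487 w4836 w4825 w4812 v3118 v3219 v1254 v5113 v5112 v1360 w2996 v3484 w3749 w2989 w3747 w5339 v4603 v2308 v2713 w6714 w9136 w6436 v2604 w9122 v5467 v7205 v4132 v3836 w2743 v5784 v6448 v4883 v2926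
theorem v7250 : PV l7250 := r7250 v6200 v6248 v6818 v390 v2845 v6212
theorem v7251 : PV l7251 := r7251 v7245 v4082 v4084 v6248 w5407 v6948 w5812 v6934 v6200 v6818 v2711 v3336 v3115 v3112 v4655 v432 v1254 v1357 v7248 v7250 v7249 w3853 w8742 w8787 w2403 w8774 w9136 w9122
theorem v7252 : PV l7252 := r7252 v6200 v6248 v6818 v2711 w5407 v4655 v432 w4479 v3219 v1254 v6209 v7246 v2543 v2542 v6184 v6886 v3509 v483
theorem v7253 : PV l7253 := r7253 v2708 v7246
theorem v7254 : PV l7254 := r7254 v4608 v2555 w8742 w3749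
theorem v7255 : PV l7255 := r7255 v4610 v7246 v2555 w8742
theorem v7256 : PV l7256 := r7256 w5862 v5738
theorem v7257 : PV l7257 := r7257 v1138 v1242 v5102 v2409 v2407 v6377 w5418 w5830 v3628 w7595 v2540
theorem v7258 : PV l7258 := r7258 v4655 v432 v1254 v1138 v1242 v5102 v3236 v6427 v3239 w3800 w3798 v2249 w3807 v1127 v641 v7257 v4587 v6369 v6374 v4494 v4495
theorem v7259 : PV l7259 := r7259 v435 v6080
theorem v7260 : PV l7260 := r7260 v4655 v432 v1254 v1360 w2971 w2633 w7895 v4925 w5539 w3987 w6173 w902 w8221 w8059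
theorem v7261 : PV l7261 := r7261 v1360 v1316 w7631 v49
theorem v7262 : PV l7262 := r7262 w7640 w7566
theorem v7263 : PV l7263 := r7263 w628 v6248 w5332 v6200 v6818 v2658 v3219 v4655 v432 v1254 v1357 v1316 v3161 v3171 w1728 v1071 w2218 w2220 v2651 w1452 v7260 v2850 w8829 w5627 w5256 w5257 w5539 v6856 v3564 w2209 v4809 w7594 v3567 w3609 w8059
theorem v7264 : PV l7264 := r7264 v4655 v6248 w4498 v6200 v4891 v2845 v390 v6184 v3219 v432 w4479 v6818 v6886 v483 v3497 v476 v2734 w5332 v5039 v2673 v2674 v4210 v4209 v430 w4463 v4204 w714 w80 w694 w688 v7263 v6513 w3459 w3756 v6869 w8145 v2651 w5308 w4749 w5735 v6231 v2550 w8255 w7687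
theorem v7265 : PV l7265 := r7265 v6200 v3219 v4655 v433 v6248 w4487 v4902 v432 v1254 v1138 v1242 v2845 v390 v6184 v5039 v6425 v5102 v3236 v6427 v2549 v3239 v2514 v6818 v2512 w4479 v6886 v482 v3476 w5460 v476 v2734 w5332 v2674 v4210 v4209 v4131 v4082 v2658 v2657 v3933 v5113 v5035 v6738 v7257 v4587 v4090 v4199 v6369 v6374 v2359 v2362 v4494 v4492 v4495 v7261 w3519 w3523 w7555 v3629 w5561 v460 w5291 w5292 v5074 v4305 v7262 v7264 v2477 v4280 v4260 w699 w695 v2269 w690 v6880 w3438 w3459 v6882 v2283 v6198 w7785 w1452 v6883 w5627 w8126 w3664 w8832 w8443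
theorem v7266 : PV l7266 := r7266 v4587 v4655 v432 v1254 v1138 v1242 v5102 v3236 v6427 v2506 v1316 w3605 w3606 w3608 w8059 v2336 w2205 v2335 w2204 v5073 w1402 w7649 w8061
theorem v7267 : PV l7267 := r7267 v5276 v4655 v432 v1254 v1357 v1360 v6191 v1138 v1242 v5102 v6365 v3236 v6427 v6200 v6248 v6818 v2512 v3219 v1316 v3161 v3171 w2309 v1071 w8829 v6867 w1490 w5665 w5256 w5257 w5539 w5537 w8043 v3564 w637 w634 v4809 v3566 v3567 v637 w8141 v7266 w7566 w2218 w2220 w8059 w3599 w3598 v1463 v1386 w7890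
theorem v7268 : PV l7268 := r7268 v6200 v2845 v390 v6184 v4305 v1360 v4655 v432 v1254 v1138 v1242 v5102 v6365 v4199 v3219 v6248 w4479 v6818 v6886 v483 v3497 v476 v2734 w5332 v5039 v2673 v2674 v4210 v4209 v430 w4463 v5276 v1357 v4204 w714 w694 w688 w627 w628 v6191 w3438 v2850 w3459 w3721 w3756 v7267 v6869 v2651 v732 w5308 w4749 w5735 v6231 v2550 w8255 w7687
theorem v7269 : PV l7269 := r7269 v6200 v3219 v4655 v433 v6248 w4487 v4902 v432 v1254 v1138 v1242 v2845 v390 v6184 v5039 v6425 v5102 v3236 v6427 v3239 w4479 w4816 v6736 v2660 v6818 v6886 v482 v3476 v476 w5354 w5460 v2734 w5332 v2674 v4210 v4209 v4131 v4082 w5812 w4836 v2658 v2657 v5113 v1360 v5035 v7265 v6365 v4587 v4090 v4121 v6369 v6374 v2362 v2357 v4494 v4492 v4495 v7261 v2344 w3519 w3523 w7555 v2370 v2519 v3629 w5561 w4921 w5560 v460 w5292 v2738 v5074 v7268 v2477 v4280 v4260 w699 w695 v2269 w690 v6880 w3438 v6882 v6198 v2651 w7785 w1465 w1452 w5262 w5627 v6724 v3157 v3159 v3591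 w8126 w5311 w3664 w8128 w3670
theorem v7270 : PV l7270 := r7270 w690 v1138 v1242 w7785 w1452 v6883 w5627 w8126 w3664 w8832 w8443
theorem v7271 : PV l7271 := r7271 v6200 v3219 v4655 v433 v6248 w4487 v4902 v432 v1254 v1138 v1242 v2845 v390 v6184 v5039 v6425 v5102 v3236 v6427 v2549 v3239 v2514 v6818 v2512 w4479 v6886 v482 v3476 w5460 v476 v2734 w5332 v2674 v4210 v4209 v4131 v4082 v2658 v2657 v3933 v5113 v5035 v6738 v7257 v4587 v4090 v4199 v6369 v6374 v2359 v2362 v4494 v4492 v4495 v7261 w3519 w3523 w7555 v3629 w5561 v460 w5291 w5292 v5074 v4305 v7262 v7264 v2477 v4280 v4260 w699 w695 v2269 w690 v6880 w3438 w3459 v6882 v2283 v7270 w8084 w8813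
theorem v7272 : PV l7272 := r7272 w5332 v482 v1138 v1242 v2651 w7785 v7270 w5262 v3156 v6724
theorem v7273 : PV l7273 := r7273 v6200 v3219 v4655 v433 v6248 w4487 v4902 v432 w4479 w4816 v6736 v6818 v2845 v390 v6184 v6886 v483 w5475 v4777 v4769 v4167 v1254 v1138 v1242 v5039 v6425 v5102 v3236 v6427 v2549 v3239 v2662 v2660 v2514 v482 v3476 v476 w5350 w5458 w5354 w5460 v2734 w5332 v2674 v4210 v4209 v4130 v4133 v4131 v4082 w5812 w4836 v2658 v2657 w4498 v3223 v5113 v1360 v5035 w8774 v7258 v7269 v7271 v6365 v4587 v4090 v4121 v6369 v6374 v2362 v2357 v4494 v4492 v4495 v7261 v2344 w3519 w3523 w7555 v2370 v2519 v3629 w5561 w4921 w5560 v460 w5292 v2738 v5074 v7268 v2477 v4280 v4260 w699 w695 v2269 w690 v6880 w3438 w3459 v6882 v7272 v3537 w8084 w5308 w4760 v4670 v3874 v3224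
theorem v7274 : PV l7274 := r7274 w7867 w8201
theorem v7275 : PV l7275 := r7275 v3933 w2971 v7274 v2448 v3537 v6834
theorem v7276 : PV l7276 := r7276 v6200 v6248 v6818 v2658 v3933 v4655 v427 w4452 v3223 v3161 v7275 w3438 v6881 v2448 w1466 v6564
theorem v7277 : PV l7277 := r7277 v3933 v6916 w2971 v2448 v3537 v6834 v3224 v3226
theorem v7278 : PV l7278 := r7278 v4199 v4587 v6200 v6248 v6818 v2658 v2845 v390 v6184 v4210 v476 v3219 v4655 v432 w4479 v6886 v2734 v6738 w4498 v4891 v433 w4487 v4902 v1254 v1138 v1242 v5039 v428 v1218 v6425 v5102 v3236 v6427 v3239 v2512 w5332 v2674 v4209 v2657 v3933 v3223 v5113 v2359 v2362 v6363 v4494 v4492 v4495 v7261 w3519 w3523 w7555 v3629 w5561 v460 w5291 w5292 v5074 v4305 v7262 v7264 v2477 v4280 v4260 w699 w695 v2269 v7276 v7277 w3438 w3459 v7272 w8084 w8813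
theorem v7279 : PV l7279 := r7279 v4655 v432 v1254 v1138 v1242 v6200 v2845 v390 v6184 v5039 v428 v1218 v6425 v5102 v2549 v3236 v2514 v3219 v6248 w4479 v6818 v6886 w5460 v4082 v7257 v4587 v4090 v7278 v2507 v5098 v5115
theorem v7280 : PV l7280 := r7280 v2845 v6200 v6248 v6818 v3933 v5112 v3161 v7276 v7275 v2271 v2850 w3459 w3664 v6405 v2650 v6793 w7995 w5320
theorem v7281 : PV l7281 := r7281 v1360 v6200 v2845 v390 v6184 v5039 v4655 v428 v1218 v6425 v432 v1254 v1138 v1242 v5102 v6365 v4587 v6248 v6818 v2657 v3219 w4479 v6886 w5332 v4209 v7060 w4498 v4891 v433 w4487 v4902 v3236 v6427 v3239 v2660 v476 w5354 w5460 v2734 v482 v2674 v4210 w4836 v2658 v3223 v5113 v2362 v2357 v6363 v4494 v4492 v4495 v7261 v2344 w3519 w3523 w7555 v2370 v2519 v3629 w5561 w4921 w5560 v460 w5292 v2738 v5074 v7268 v2477 v4280 v4260 w699 w695 v2269 w690 v7280 v7277 w3438 w3459 v7272 v3537 v6198 w8084 w5308 w4760 v4670 v3874 v3224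
theorem v7282 : PV l7282 := r7282 v4655 v432 v6248 w4479 w4816 v6736 v3219 v6200 v6818 v2845 v390 v6184 v6886 v483 w5475 v4777 v4769 v3763 w2909 v4167 v1254 v1138 v1242 v5039 v428 v1218 v6425 v5102 v3236 v2662 v476 w5350 w5458 w5332 v4209 v4082 w5812 w5354 v2657 v1360 v5035 w3907 v2786 w3890 v7273 v7060 v7279 v1127 v6365 w3773 v4587 v4090 v4121 v7281 v2507 v5098 v5115
theorem v7283 : PV l7283 := r7283 v6200 v6248 v6818 v3933 v6709 v4032 w2649 v6355
theorem v7284 : PV l7284 := r7284 v4655 v430 v6248 w4463 w3991 v7282 w6106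
theorem v7285 : PV l7285 := r7285 v4655 v6248 w4498 v6200 v4891 v7283 v6277 v6818 v3933 w853 v4228 v427 w3938 w3890 v7284 v7100 w6297 w2635
theorem v7286 : PV l7286 := r7286 w6307 w6046
theorem v7287 : PV l7287 := r7287 v4655 v6248 w4498 v6200 v4891 v7283 w3907 v7285
theorem v7288 : PV l7288 := r7288 v6200 v3219 v4655 v433 v6248 w4487 v4902 v432 w4479 w4816 v6736 v6818 v2845 v390 v6184 v6886 v483 w5475 v4769 v5039 v2674 v4230 v4228 v4525 v5034 v3933 v3223 v1254 v1138 v1242 v5113 w853 v7287 v7226 v3308 v3272 v3268 v7286 v3048 v3063 v3974 w4109 w4125 v4994 w859 w6176 w2641 v4051 v5070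
theorem v7289 : PV l7289 := r7289 v4655 v432 v6248 w4479 v6948 w4816 v3118 v6200 v6818 v433 w4487 w4812 w4825 w4836 w4807 v476 w5354 v2845 v390 v6184 v4132 v3219 v6886 w5460 v7205 v6736 v483 v3119 v4133 v2660 v7174 w5475 v4769 v3117 w5350 w5458 v2662 v7167 v1254 v1138 v1242 v5039 v428 v1218 v6425 v5102 v3105 v3103 v482 v3476 v2673 v7222 v5034 v3337 v3336 v3116 v3115 v5113 v5035 v5260 v7288 v4763 v7231 v6637 v7193 v7120 v5032 v5022 w2451
theorem v7290 : PV l7290 := r7290 v4123 v2401 w8281 w3602 w3604 w8045 w5831 w7687 w7734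
theorem v7291 : PV l7291 := r7291 w7885 w7717
theorem v7292 : PV l7292 := r7292 v1360 v1316 w2634 w7895 w8211 w5536 w4150 v5893 v2455 v2442 v7291 v2401 v7290 w8198 w8034
theorem v7293 : PV l7293 := r7293 w7687 w7734
theorem v7294 : PV l7294 := r7294 w1465 w907 v7292 w3756 v7293 w5733 w8229 w8065
theorem v7295 : PV l7295 := r7295 v1357 v1316 v2379 w2319 w2339 w1729 v2314 v7294 v736 v6808
theorem v7296 : PV l7296 := r7296 v6200 v6248 v6818 v2658 v2845 v390 v6184 v4210 v476 v3219 v4655 v432 w4479 v6886 v2734 v6738 v1254 v1138 v1242 v5039 v428 v1218 v6425 v5102 v3236 v6427 v483 v3497 w5332 v2673 v2674 v4209 v2555 v2657 v430 w4463 v3223 v4204 w714 w81 w694 w688 v7295 v6513 w3459 w3756 v6869 v2651 v732 w5308 w4749 w5735 v6231 v7293 v2550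
theorem v7297 : PV l7297 := r7297 v6200 v6248 v6818 v2658 v3933 v6748 v6882 w3036
theorem v7298 : PV l7298 := r7298 w5332 v1138 v1242 v2651 w7785 w1465 w1452 w5262 w5627 v6724 w8126 v3159 v3591 w3664 w5311 w3670 w8128
theorem v7299 : PV l7299 := r7299 v1360 v1316 v7293 w7903 w7850
theorem v7300 : PV l7300 := r7300 v1360 v1316 v5893 v7291 v2469 v2465
theorem v7301 : PV l7301 := r7301 v1357 v1316 w2339 v2314 v1071 w1465 v7299 w5733 w8229 w8065
theorem v7302 : PV l7302 := r7302 v6200 v2845 v390 v6184 v5039 v4655 v428 v1218 v6425 v432 v1254 v1138 v1242 v5102 v6442 v2424 v6248 v6818 v2658 v4210 v476 v3219 w4479 v6886 v2734 v6738 v483 v3497 w5332 v2673 v2674 v4209 v2555 v2657 v430 w4463 v4204 w714 w694 w688 v7296 w9084 v7301 v6513 w3459 w3756 v6869 v2651 v732 w5308 w4749 w5735 v6231 v7293 v2550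
theorem v7303 : PV l7303 := r7303 v3161 v4655 v6248 w4498 v6200 v2651 v7274 v6769 v6831
theorem v7304 : PV l7304 := r7304 v6200 v6248 v6818 v2658 v3933 v4655 w4498 v427 w4452 v3223 v6752 v7303 v2448 w1466 v6564
theorem v7305 : PV l7305 := r7305 v3161 v4655 v6248 w4498 v6200 v6881 v6744 w3036
theorem v7306 : PV l7306 := r7306 v2269 w695 w699 v6200 v6248 v6818 v2658 v3933 v4655 v427 w4452 v3223 v7304 w3438 v7297 v7305 v2448 w1466 v6564
theorem v7307 : PV l7307 := r7307 v6200 v6248 v6818 v2658 v476 v3219 v4655 v432 w4479 v6886 v2734 v6738 w5332 v5039 v2674 v2657 v1254 v5113 v2477 v4280 v4260 v2269 w690 v7306 v6532 v2283 w3438 v7298 w8084 w8813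
theorem v7308 : PV l7308 := r7308 v4655 v432 v1254 v1138 v1242 v6200 v2845 v390 v6184 v5039 v428 v1218 v6425 v5102 v2549 v3236 v2514 v3219 v6248 w4479 v6818 v6886 w5460 v4082 v2409 v2407 v6377 w5557 w5418 w5410 w5830 v4564 w7595 v2540 v2541 v3630 v4573 v7302 v2362
theorem v7309 : PV l7309 := r7309 v6200 v6248 v6818 v2658 v4210 v476 v3219 v4655 v432 w4479 v6886 v2734 v6738 v2314 w2278 v3223 v2379 v3161 w5292 v1254 v1138 w5130 v460 v4204 v4258 v4209 w694 v1242 v5102 v3239 v3236 v2512 v483 v2657 w4498 v428 v5112 v1360 v1357 v1316 v5087 v4577 w4413 w5213 v2362 v4494 v4492 v4495 v7301 v1071 v7261 v4892 v2651 w1465 w3523 v742 v5074 w8229 v4305 w5652 w4745 v7262 v5893 w2220 v2450 v7260 v733 w7871 w7899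
theorem v7310 : PV l7310 := r7310 v1138 v1242 v5102 v2861 w3520 v2540 v3625 w7630 v4079 w5829 w7595
theorem v7311 : PV l7311 := r7311 w1728 v7309
theorem v7312 : PV l7312 := r7312 v4204 v4258 v6200 v2845 v390 v6184 v4210 w688 v4209 w694 v4082 w714 v4655 v432 v1254 v1138 v1242 v5102 v3236 v6427 v2549 v2513 v6248 v6818 v2511 v3219 w4479 v6886 v483 v3497 v476 v2734 w5332 v5039 v2673 v2674 v2555 v430 w4463 v427 w4452 v5112 v1316 v460 w5130 w5291 v7310 v5087 v4577 w4426 w5212 v2362 v4484 v4485 v7261 w3523 v5074 v4304 v7311 v6513 w3459 w3756 v6869 v2651 v6715 v732 w4734 w5308 w4749 w5735 w5553 v6231 v2550 v5893 v7293 v2443 v1129 w8598 w3610 w2212 w7803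
theorem v7313 : PV l7313 := r7313 v4229 v4655 v430 v6248 w4463 w3993 v6200 v6818 v3842 v427 w3938 v7100 v3290 w6308 v4228 v3933 w853 v3289 v7286 v432 w3946 v5034 v3993 w3952 v6277 v1254 v1138 v1242 v2845 v390 v6184 v5039 v428 v1218 v6425 v5102 v3219 w4479 v6886 v482 v3476 v2673 v2674 v4210 v4209 v1360 v1316 v5035 v5256 w3890 v7016 v3303 v3984 v6709 v3961 v2786 v2777 v7307 w80 v7308 v4090 v4122 v7312 v3629 w5228 w3519 v3631 v49
theorem v7314 : PV l7314 := r7314 v4655 v432 v1254 v6709 v4032 v7283 v3303 w2523 v4058 v5266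
theorem v7315 : PV l7315 := r7315 v3223 v1360 v3161 v2379 w2339 v6867 v7293 w5285 w5287 w5545 w5546 w5547 w8021 v7300 v3597 v2606 w1414 w1415 w1416 w4263 v2433 v2432 v2438 v6199 v1386 v4949 v749 w2944 w8142 w3597 v682 w8061
theorem v7316 : PV l7316 := r7316 v4655 v432 v1254 v1138 v1242 v6200 v2845 v390 v6184 v5039 v428 v2555 v6248 v6818 v2711 w5407 w8742 w8866 v1218 v6425 v5102 v4498 v1360 v6420 v5127 v3626 v2861 v3630 w5234 v3236 v5079 v6427 v2609 v3219 w4479 v6886 v483 v3497 v476 v2734 w5332 v2673 v2674 v4210 v4209 w8328 v430 w4463 v5276 v1357 v4204 w714 w694 w688 v6191 w3438 w3459 w3756 v7315 v6869 v2651 v732 w5308 w4749 w5735 v6231 v7299 v2550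
theorem v7317 : PV l7317 := r7317 v6200 v6248 v6818 v2657 v4655 w4498 v6752 v7303 v2322 w7823 w1454 w5627 w8159
theorem v7318 : PV l7318 := r7318 v2269 w699 v6200 v6248 v6818 v2658 v3933 v3223 v4655 v432 v1254 v5113 v5112 v1316 v3161 v2379 v7306 w8676 v2271 v7317 w3438 v2850 v7297 v7305 v2448 v3537 v5893 v6834 v6793 w4266 v5701
theorem v7319 : PV l7319 := r7319 v1138 v1242 v2651 w7785 v7298 w5262 v3156 v6724
theorem v7320 : PV l7320 := r7320 v6248 v476 v3219 v4655 v432 w4479 v6200 v6818 v6886 v2734 w5332 v5039 v2673 v2674 v2658 v2657 w4498 v3223 v1254 v5276 v5113 v1360 v1357 v2477 v4280 v4260 v2269 w690 v7318 v6195 w3438 v7319 v3537 v6198 w8084 w5308 w4760 v4670 v3874 v3224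
theorem v7321 : PV l7321 := r7321 v4655 v432 v1254 v1138 v1242 v427 v4201 v3597 v465 w4448 w4430 w5255 v5751 v4919 w7856 v2450 w3034 w2950 w2955 w7788 v742 v1104
theorem v7322 : PV l7322 := r7322 v1360 v1357 v1316 v2313 w2278 v44 v2278 v2280 v1680 w8231 w7899
theorem v7323 : PV l7323 := r7323 w5627 w5667 w5539 w5537 w8020 w1513 w1411 w1413 v637 w8141 v7322 w8676 v2271 v2303 w8063 v742 w3655 w2242 w3598 v2337 w8059
theorem v7324 : PV l7324 := r7324 v4655 v432 v1254 v6248 w5407 v6200 v6818 v2711 v4082 v7252 v7255 v7254 w3459 v3161 v6867 v3223 v2379 v4258 v4257 v4587 v4608 v2555 w8742 w3756 v2845 w3438 v1138 v1242 v390 v6184 v5039 v428 w8866 v1218 v6425 v5102 v3236 v6427 v2609 v2549 v3239 v2515 v2513 v476 v3219 w4479 v6886 v2734 w5332 v483 v2673 v2674 v4210 w8328 w5812 w5364 v2658 v430 w4463 v427 w4452 v5276 v5112 v1360 v1357 v1316 v460 w5130 w5291 w5293 w5421 v5126 v5124 v7310 w4413 w5232 w5213 w5212 v5074 v4577 v7315 v4179 v2362 v4494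 v4495 v4909 v5116 w7641 v7261 v1492 w3601 v7321 v2473 v2474 v2482 v2427 v2432 v2438 v7323 w4734 w5550 w5551 w5552 v5893 w7885 v2440 v2441 v2442 w2941 w2942 w7725 v51 w7806 v682 w7804
theorem v7325 : PV l7325 := r7325 v4655 v432 v1254 v1138 v1242 v5102 v1360 v1316 v3629 w3518 v3631 v1491 w7641 w7627
theorem v7326 : PV l7326 := r7326 v4082 v7252 v4655 v432 v1254 v6248 w5407 v6200 v6818 v2711 v7255 v4608 v7254 v7316 v2845 v390 v6184 v3219 w4479 v6886 v483 v3497 v5039 v2673 v5276 v1357 v1360 v6191 v4210 w688 v4209 w694 w714 v4204 v2555 w8742 w8328 v2658 v2657 w2311 v6808 w1465 w1452 v7324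
theorem v7327 : PV l7327 := r7327 v6200 v6248 v6818 v3933 w853 v4655 v432 v1254 v1138 v1242 w5407 v2711 v4082 v7252 v7255 v7254 v2845 v390 v6184 v5039 v428 v4608 v2555 w8742 w8866 v1218 v6425 v5102 v3236 v6427 v2609 v2515 v2511 v3219 w4479 v6886 v482 v3476 v483 v3497 v476 v2734 w5332 v2673 v2674 v4210 v4209 w8328 v4228 w5812 w5350 w5354 v430 w4463 v427 w4452 v5276 v1360 v1357 v1316 v5035 w3938 v7100 v3289 v7286 v7313 v7314 v2786 v7320 v4204 w714 w694 w688 v6191 v7316 w3459 v4090 v4122 v4258 v7325 v460 w5291 v5126 v5124 w5212 v5074 v4304 v7326 v6869 v2651 v6715 v732 w4734 w5308 w4749 w5735 w5553 v6231 v2550 v5893 v7299 v2443 v1129 w3610 w7723 w7803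
theorem v7328 : PV l7328 := r7328 v5070 v4045
theorem v7329 : PV l7329 := r7329 v6200 v6248 v4655 v432 v1254 w5407 v6818 v2711 v4082 v7252 v7255 v7254 v2845 v390 v6184 v5039 v2674 v4608 v2555 w8742 w8866 v4230 v4228 v4525 v5034 v3933 v3223 v1138 v1242 v5113 w853 v7327 v7226 v3308 v3272 v3268 v7286 v3048 v3063 v3974 w4109 w4125 v4994 w859 w6176 w2438 v7328 w3895 v4051 v2789 v3093 w5915
theorem v7330 : PV l7330 := r7330 v5034 v7251 v7245 v4082 v6248 v476 v6948 w5350 w5354 v4655 v432 w4479 w4816 w4807 v433 w4487 w4836 w4825 w4812 v6934 v6200 v6818 v2711 v3336 w5407 v3119 v3118 v3117 v3112 v3219 v1254 v1138 v1242 v428 v5113 v5112 v1316 v5035 v7252 v7255 v4608 v2544 v2545 w3838 v7254 v2555 v7222 v390 v2845 w8742 w8328 v6184 w8866 v5039 v4132 v4133 v6886 v1218 v2673 v483 v482 w5460 w5458 v6425 v3476 v7205 v5102 v2660 v2662 v6736 v3236 v3103 v3104 v3105 v3106 v7174 v7167 v6427 w5487 w5475 v2261 v4167 v3322 v2609 v4769 v4777 v7289 v7329 v4763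 v7231 v5978 v6688 v7120 v5022 v5023
theorem v7331 : PV l7331 := r7331 v7251 v7245 v4082 v6934 v6200 v6248 v6818 v2711 w5407 v4655 v432 w4479 v3219 v1254 v6209 v7249 v390 v2845 v6184 v6886 v3509 v483
theorem v7332 : PV l7332 := r7332 v4655 v432 v1254 v1138 v1242 v5102 v3236 v6427 v2357 v5112 v7257 v6377 v4302 w7628 v2342 w3517 w3592 v2370 v3629 v5085 w7592 w5212 w5292 w8598 v7262 w2196
theorem v7333 : PV l7333 := r7333 v4655 v432 v1254 v1138 v1242 v5102 v3236 v6427 v2515 v2514 v2513 v3106 v3105 v3104 v3102 v476 w5350 w5458 v482 v4130 v4133 v4131 w5354 v5112 v1360 v5035 w5193 w5483 w5471 v3378 v6428 w8658 w8609 w8774 v4305 v4304 v6420 v1669 w3764 w5428 w5429 w8655 v4167 v6422 v6442 v2435 v6369 w7554 v2364 v2357 w3632 v6403 w5577 v7332 v6365 v3626 v5123 v4089 v4302 v2861 v2370 w7629 v3629 v2396 w5212 w5200 w3593 w3616 w5292 w8598 w7592 w7566 w2196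
theorem v7334 : PV l7334 := r7334 v3636 v3634
theorem v7335 : PV l7335 := r7335 v1138 v1242 v5102 v2409 v7334 v3628 w5234 v2540 w7595
theorem v7336 : PV l7336 := r7336 v2269 w695 w699 v6200 v390 v6184 v4260 v5039 v4280 v2477 v5256 v6248 v476 v3219 v4655 v432 w4479 v6818 v6886 v2734 w5332 v482 v2674 v4130 v4131 v4525 v2658 v2657 v1254 v5113 v4029 w3925 w2409 w2432 v4721 v4720 w8774 v6880 w3438 w3459 v6882 v6883 w8084 w8813
theorem v7337 : PV l7337 := r7337 v2651 w1465 w7867 w8203 w5262 w5652 v3553 v737 w7871 w3455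
theorem v7338 : PV l7338 := r7338 v2314 w2278 v3161 w690 v6248 v476 v2734 w5332 v6200 v6818 v2658 v2657 v3933 v4655 w4498 v427 w4452 v3223 w2970 v6872 v7060 w3671 v7337 v2448 w1466 v6564
theorem v7339 : PV l7339 := r7339 v2269 w695 w699 v6200 v390 v6184 v4260 v5039 v4280 v2477 v6248 v476 v3219 v4655 v432 w4479 v6818 v6886 v2734 w5332 v2674 v2658 v3933 v427 w4452 v3223 v7338 w3438 v6881 v7297 v2448 w1466 v6564
theorem v7340 : PV l7340 := r7340 v6200 v390 v6184 v4260 v5039 v4280 v2477 v6248 v2674 v3219 v4655 v432 w4479 v6818 v6886 v4130 v4131 v7277 w8774 v6880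
theorem v7341 : PV l7341 := r7341 v6200 v6248 v6818 v2658 v2657 v3219 v4655 v432 v1254 v5113 w3438 w3459 v7270 w8084 w8813
theorem v7342 : PV l7342 := r7342 v4121 v4199 v4655 v430 v6248 w4463 w3991 v6200 v6818 v3933 w853 v4228 v3223 v4908 v390 v6184 v5039 v2673 v5256 v7016 v4059 w2637 w6106 w3978 v4525 v3303 v3043 v3967 v5260 w2444 w3890 v2658 v4210 v476 v3219 v432 w4479 v6886 v2734 v6738 w2875 w4498 v4891 v433 w4487 v4902 v6277 v1254 v1138 v1242 v428 v1218 v6425 v5102 v3236 v6427 v2514 v3239 v482 v3476 v2512 w5332 v483 v2674 v4209 w5364 v5112 v460 w5130 w5291 w5292 w5420 v3635 w7628 v5087 v4577 w3522 w4413 w5213 v2359 v4494 v4495 v5074 v4492 v4305 v7262 v7264 v2477 v4260 w699 w695 v2269 w690 v7336 v7339 v2283 v7341 v2786 v7340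
theorem v7343 : PV l7343 := r7343 v4655 v432 v1254 v1138 v1242 v6200 v428 v1218 v390 v6184 v5039 v6425 v5102 v6248 v2674 v4082 w5407 v1360 v1316 v7335 v7342 v3629 w5228 w3519 v3631 v49
theorem v7344 : PV l7344 := r7344 w2637 w6307 v4059 v3268
theorem v7345 : PV l7345 := r7345 w1452 w7867 w8200 w5627
theorem v7346 : PV l7346 := r7346 v3161 v6248 w5332 v6200 v6818 v2658 v3933 v5112 w2970 v2322 v6880 v7177 v7345 v2448 v3537 v6834
theorem v7347 : PV l7347 := r7347 w690 v2269 w695 w699 v6200 v390 v6184 v4260 v5039 v4280 v2477 v6248 v476 v3219 v4655 v432 w4479 v6818 v6886 v2734 w5332 v2674 v4131 v2658 v3933 v3223 v5112 v1316 v3161 v3171 v2379 v7339 w8676 v2271 v2321 v7346 w3438 v6881 v7297 v2448 v3537 v7177 v5893 v4670 v6214 v4650 w4265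
theorem v7348 : PV l7348 := r7348 v6200 v390 v6184 v4260 v5039 v4280 v2477 v6248 v2674 v3219 v4655 v432 w4479 v6818 v6886 v4130 v4131 v5112 v7340 v7177 w8774 v6880
theorem v7349 : PV l7349 := r7349 w5332 v482 v1138 v1242 v2651 w7785 v7270 w5262 v3156 v3553
theorem v7350 : PV l7350 := r7350 v1360 v6200 v4655 v428 v1218 v390 v6184 v5039 v6425 v432 v1254 v1138 v1242 v5102 v6365 v4121 v4587 v430 v6248 w4463 v3223 v4908 w2875 w4498 v4891 v3219 v433 w4487 v4902 v2514 v2662 v2660 v3927 v3239 v3236 w4479 v6818 v6886 v482 v3476 v476 w5350 w5458 v483 v2674 v4210 v4209 w4458 w4787 w5364 v2658 v2657 v5113 v5112 v460 w5130 w5292 w5420 v3635 v5126 w5204 w7628 v2498 v4577 w4426 w4413 w5213 w5212 w3522 v5115 v4494 v4495 v5074 w3149 v4492 w6644 v7268 v4183 v2477 v4260 w699 w695 v2269 w690 v1127 v7347 v7348 w3438 w3459 v7349 v3537 v6198 w8084 w5308 w4760 v4670 v3874 v3224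
theorem v7351 : PV l7351 := r7351 v6934 v7245 v6200 v6248 v6818 v2711 v4082 w5407 v6179 v4603 v4655 v432 v1254 v1138 v1242 v428 v1218 v390 v6184 v5039 v6425 v5102 v3236 v6427 v2609 v476 v6948 w5354 v3219 w4479 v6886 w5460 v4132 v3118 v433 w4487 w4812 w4825 w4836 w4807 v7205 v2661 w8799 v2662 v2660 v3105 v3103 v2512 v2511 v2674 v4130 w8805 w8328 w5812 v3337 v3336 v430 w4463 v3119 v3117 v3116 v3115 v3223 v5112 v1360 v1316 v5035 v4908 v4902 w3174 v6701 v4869 v7333 v501 v4769 v7343 v6365 v7350 v3629 w5228 w3519 v3631 v49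
theorem v7352 : PV l7352 := r7352 w8229 w8065
theorem v7353 : PV l7353 := r7353 v6200 v6248 v6818 v3161 w2339 v2314 v7299 w5733 v7352 v3536 v6841 v6809
theorem v7354 : PV l7354 := r7354 v6200 v6248 v6818 v2658 v6738 v4655 v430 w4463 v476 v4204 w714 w694 w688 v7353 v6513 w3459 v6869 v2651 v732 w5308 w4749 w5735 v6231 v7299 v2550
theorem v7355 : PV l7355 := r7355 v3223 v2379 v3219 v3171 v3161 v6248 v476 v2734 v390 v6200 v6818 v2657 v4655 w4498 v5112 v1316 v2651 v6769 v6872 v4456 v7177 w4266 v6206 v5893 w7867 v7337 v3930 w5256 v2851 v3582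
theorem v7356 : PV l7356 := r7356 v2314 w2278 v6200 v6248 v6818 v2658 v3933 v4655 v427 w4452 v3223 v7355 v2448 v645 w1466 v6564
theorem v7357 : PV l7357 := r7357 v2269 w695 w699 v6200 v390 v6184 v4260 v5039 v4280 v2477 v6248 v476 v3219 v4655 v432 w4479 v6818 v6886 v2734 w5332 v2674 v2658 v3933 v427 w4452 v3223 v7356 w3438 v7305 v7297 v2448 w1466 v6564
theorem v7358 : PV l7358 := r7358 v5256 v6438 w4227 w2539 v7336
theorem v7359 : PV l7359 := r7359 w5332 v1138 v1242 v2651 w7785 w1465 w1452 w5262 w5627 v3553 w8126 v3159 v3591 w3664 w5311 w3670 w8128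
theorem v7360 : PV l7360 := r7360 v6200 v6248 v6818 v2658 v476 v3219 v4655 v432 w4479 v390 v6184 v6886 v2734 v6738 v5039 v2657 v1254 v5113 v2477 v4260 v2269 w690 v7357 v2283 v7358 w6526 v6532 w3438 w3459 v7359 w8084 w8813
theorem v7361 : PV l7361 := r7361 v1138 v1242 v5102 v2409 v7334 w5234 v5075 w7595 v2540
theorem v7362 : PV l7362 := r7362 v4655 v433 v6248 w4487 v3219 v6200 v4903 w4498 v4892 v430 w4463 v3223 v4909 v4204 v6818 v2657 v432 w4479 v1360 v1357 v1316 v3161 v2379 w1728 v2314 v1071 w2220 v2651 w1465 v7260 v7352 v742 w3438 w4745 w2961 v2302 v7321 v5893 w2944 w7885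
theorem v7363 : PV l7363 := r7363 v4204 v4258 v6200 v390 v6184 v4210 w688 v4209 w694 v6248 v6818 v2658 v476 v3219 v4655 v432 w4479 v6886 v2734 v6738 v1254 v1138 v1242 v5102 v3239 v3236 v483 v3497 v2512 v2511 w5332 v5039 v2673 v2674 v428 v5112 v460 w5130 w5291 w5292 w5420 v3635 w7628 v5087 v4577 w3522 w4413 w5213 w5212 v4494 v4495 v5074 v4492 v4305 v4304 v7262 v7362 v6513 w3459 v6869 v6715 v732 v1129 w5553 w8598 w3610 w2212 w7803 w7624
theorem v7364 : PV l7364 := r7364 v4655 v433 v6248 w4487 w4812 w4020 w4018 w4004 v430 w4463 w3993 w3991 v432 w3964 w3978 w3969 v3771 v3770 v6277 v6200 v6818 v3843 v3842 v3933 w853 v2711 v4082 w5407 v6179 v4603 v2545 v2544 v1254 v1138 v1242 v428 v1218 v390 v6184 v5039 v6425 v5102 v3236 v6427 v2609 v2514 v3219 w4479 v6886 v482 v3476 v483 v3497 v476 v2734 w5332 v2673 v2674 v4210 v4209 w8805 w8328 v4231 v4229 v4228 v5035 v4116 v4115 v4525 w4807 w5364 v1360 v1316 v5256 w3890 v7016 v3303 v4059 v3100 v3043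 v3977 v3971 v3967 v3289 v3290 v3292 w6297 v3320 w6307 w6308 w6310 w3746 w2680 w2682 v7256 w6108 w6109 v3247 v3245 v3797 w2899 w3835 v7360 w80 v7354 v7361 v4121 v7363 v3629 w3517 w3518 w3519 v3631 w7628 v1491 v49 v4571 v4564
theorem v7365 : PV l7365 := r7365 v6200 v6248 v6818 v2657 w5407 v5276 v3161 w2339 v6808 v6867 v7299 w1465 w5287 w5733 w5731 w8021 v3597 w1534 v2473 v735 v1104 w8231 w8065 v733
theorem v7366 : PV l7366 := r7366 v6200 v390 v6184 v3219 v4655 v432 v6248 w4479 v6818 v6886 v483 v3497 v476 v2734 w5332 v5039 v2673 v2674 v4210 v4209 w5407 w8328 v430 w4463 v1254 v5276 v1360 v1357 v4204 w714 w694 w688 v6191 w3438 w3459 w3756 v7365 v6869 v2651 v732 w5308 w4749 w5735 v6231 v7299 v2550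
theorem v7367 : PV l7367 := r7367 w1452 v7345 w8200 w7866
theorem v7368 : PV l7368 := r7368 v2322 v7367 v645 w7823 w1454 w8159 w5627
theorem v7369 : PV l7369 := r7369 v2269 w699 v6200 v390 v6184 v4260 v5039 v4280 v2477 v6248 v476 v3219 v4655 v432 w4479 v6818 v6886 v2734 w5332 v2674 v2658 v2657 v3933 v3223 v1254 v5113 v5112 v1316 v3161 v2379 v7357 w8676 v2271 v7368 w3438 v2850 v7297 v7305 v7177 v2448 v3537 v5893 v6793 v6834 w4266 v5701
theorem v7370 : PV l7370 := r7370 v2269 w699 w691 v6200 v6248 v6818 v2658 v2657 v3933 v4655 w4498 v430 w4463 v427 w4452 v473 v476 v432 v1254 v1138 v1242 v5276 v1360 v1357 v1316 v6195 v1279 v2651 w1465 w1452 w8284 w4734 w4737 w5298 w5301 w5308 w5314 w4743 w4749 w5636 w5646 w5631 v6231 v4466 v5893 v4467 v3930 v2450 v2447 w7856 v2462 v3605 v4474 v3581 w2947 v2967 v3591 w2717 w2848 w3008 w3006 v6877 w7868 v3553 w5268 w7958 v2283 v30 w8676 v2285 w7788 w7961 w3681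
theorem v7371 : PV l7371 := r7371 w5332 v482 v1138 v1242 v2651 w1452 w7785 v7359 w5627 v3156 v6405 w8200
theorem v7372 : PV l7372 := r7372 v6200 v390 v6184 v3219 v4655 v432 v6248 w4479 v6818 v6886 v483 v3497 v476 v2734 w5332 v482 v5039 v2673 v2674 v2658 v2657 v3933 w4498 v3223 v1254 v5113 v2477 v4280 v4260 v2269 w690 v7369 v7370 w3438 w3459 v7371 v3537 v6198 w8084 w5308 w4760 v4670 v3874 v3224
theorem v7373 : PV l7373 := r7373 v4498 v6420 v5125 v5127 v2861 v5075
theorem v7374 : PV l7374 := r7374 v4655 v430 v6248 w4463 v6200 v3223 v4909 w688 v4204 v6818 v2658 v2657 v427 w4452 v1360 v1316 v3161 v2379 w2311 v6808 v6867 w1465 w1452 v7321 v2473 v2474 v2427 v2432 v2438 v2482 v7323 w4734 w5550 w5551 w5552 v5893 w7885 v2440 v2441 v2442 w2941 w2942 v51 w7725 w7806 w7804 v682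
theorem v7375 : PV l7375 := r7375 v4204 v1360 v4655 v432 v1254 v1138 v1242 v5102 v7373 v4258 v4257 v4587 v5276 v1357 v6191 v4210 w688 v4209 w694 v3236 v6427 v2514 v3927 v3239 v6200 v6248 v6818 v2511 v476 v3219 w4479 v6886 v2734 w5332 v483 v5039 v428 w4458 w4787 w5364 v5112 v1316 v460 w5130 w5291 w5293 w5419 w5420 v3635 v5126 w7628 v4577 w4413 w5213 w5212 w3522 v2364 v4494 v4495 v5074 w7629 w3149 v4304 v5116 w3601 w6644 v7374 v6869 v6715 v732 v1129 w5553 w8598 w3610 w2212 w7624 w7803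
theorem v7376 : PV l7376 := r7376 v4655 v6934 v7245 v6200 v6248 v6818 v2711 v4082 w5407 v7330 v6179 v6948 w5812 v4084 v3118 v433 w4487 w4812 w4825 w4836 v432 w4479 w4807 v476 w5354 v7251 v7249 v390 v6184 v4132 v3219 v6886 w5460 v7205 v2604 w9136 v2713 v4603 v2544 w3838 v7222 v2545 v1254 v1138 v1242 v428 v1218 v5039 v6425 v5102 v3101 w2398 v3236 v6427 v3322 v2661 w8799 v2514 v3105 v3104 v3103 v3102 v482 v3476 v483 v3497 v2673 v2674 v4210 v4209 w8805 w8328 v7331 v3337 v3336 v430 w4463 v3116 v3115 v3112 v3223 v5276 v5112 v1360 v1357 v1316 v5035 v7351 v7364 v7372 v6191 v7366 w3438 w3459 v4909 w3174 v4869 v7373 v4089 v4121 v7375 v3629 w3517 w3518 w3519 v3631 w7628 v1491 v49 v4571 v4564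
theorem v7377 : PV l7377 := r7377 v3308 v4525 v5034 v4655 v430 v6248 w4463 v427 w4452 v476 v6200 v432 v1254 v1138 v1242 v5113 v5112 v1316 v6532 v1279 v4056 v2651 w8284 v3043 v3056 w4734 w5308 w4743 w4749 v3974 v6231 v4466 w4109 v5893 v4467 w2631 v4994 w7856 w2519 v2967 v4045 v2794 w3895
theorem v7378 : PV l7378 := r7378 v6200 v6248 v390 v6184 v5039 v2674 v7226 v3219 v4655 v432 w4479 v6818 v6886 v482 v3476 v483 v3497 v476 v2734 w5332 v428 v1218 v6425 v2673 v4210 v4209 v4082 v2658 v2657 v3933 w5407 v3223 v1254 v5113 v7335 v7361 v7354 v2477 v4260 v2269 w690 v7369 v7377 w3438 w3459 v7371 w8084 w8813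
theorem v7379 : PV l7379 := r7379 v3223 v3268 v3272 v3308 v6200 v6248 v6818 v3933 w853 v4655 v432 v1254 v1138 v1242 v5113 v7286 v3048 v3063 v3974 w4109 w4125 v4994 w859 v7328 v4051 w6176 w2642
theorem v7380 : PV l7380 := r7380 v4121 v3223 v6200 v6248 v390 v6184 v5039 v2674 v7226 v3268 v3308 v6277 v4655 v432 v1254 v1138 v1242 v428 v1218 v6425 v5102 v3236 v6427 v3118 v6818 v433 w4487 v6948 w4812 w4825 w4836 w4479 w4807 v476 w5354 v4132 v3219 v6886 w5460 v7205 v2514 v3105 v483 v3497 v2734 w5332 v2673 v4210 v4209 v4130 v4230 v4228 v4525 v5034 w5364 v3336 v430 w4463 v3115 v5112 v1360 v5035 w80 v7354 v4909 v4903 v1089 v6701 v7379 v4056 v7188 v4769 w2637 w2444 w5193 w5915 v3378 v6428 v7363 v6420 v3617 v3629 v2861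
theorem v7381 : PV l7381 := r7381 v6248 v476 v6948 w5354 v3219 v4655 v432 w4479 v6200 v6818 v390 v6184 v6886 w5460 v4132 v3118 v433 w4487 w4812 w4825 w4836 w4807 v7205 v2661 w8799 v2662 v2660 v428 v1218 v5039 v6425 v2512 v2511 v2674 v4130 v4230 v4228 v4525 v5034 v3337 v3336 v430 w4463 v3119 v3117 v3116 v3115 v3223 v5112 v5035 v4908 v4902 v7333 v7379 v6701 v4769
theorem v7382 : PV l7382 := r7382 v6200 v6248 v390 v6184 v5039 v2674 v7226 v6934 v7245 v4603 v4655 v432 v1254 v1138 v1242 v428 v1218 v6425 v5102 v3236 v6427 v2609 v3219 w4479 v6818 v6886 v482 v3476 v4210 v4209 v4082 v2658 v2657 v3933 w5407 v3223 v5113 v7378 v7380 v2477 v4260 v2269 w690 v7369 v7377 w3438 w3459 v7371 w8084 w8813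
theorem v7383 : PV l7383 := r7383 v4655 v6934 v7245 v6200 v6248 v6818 v2711 v4082 w5407 v7330 v6179 v6948 w5812 v4084 v3118 v433 w4487 w4812 w4825 w4836 v432 w4479 w4807 v476 w5354 v7251 v7249 v390 v6184 v4132 v3219 v6886 w5460 v7205 v2604 w9136 v2713 v4603 v2544 w3838 v7222 v2545 v1254 v1138 v1242 v428 v1218 v5039 v6425 v5102 v3101 w2398 v3236 v6427 v2609 v3322 v2661 w8799 v2514 v3105 v3102 v482 v3476 v483 v3497 v2673 v2674 v4210 v4209 v4130 w8805 w8328 v7331 v4230 v4228 v4525 v5034 v3336 v430 w4463 v3115 v3112 v3223 v5276 v5112 v1360 v1357 v5035 v7376 v7226 v7381 v7382 v7372 v6191 v7366 w3438 w3459 v4909 v4903 v1089 v7373 w3174 v7379 v6701 v4089 v4121 v4869 v7188 v4769 v7375 w5193 v3629 v3378 v6428 v2861 v6420 v3617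
theorem v7384 : PV l7384 := r7384 v4525 v4655 v432 v1254 v5113 v5112 v1316 v7231 v5978 v6688 v3308 v5032 v3043 v4990 v4988
theorem v7385 : PV l7385 := r7385 v5256 v4655 v432 v1254 v1138 v1242 v5102 v3236 v6427 v482 v4133 v428 v1218 v5035 v4116 v4525 v5112 v1360 w3969 w3964 w4020 w3890 v7016 v4059 v3100 v3043 w2691 v3977 v3971 w6297 v3320 w2675 w2673 v7256 w6109 v6438 v3245 v3246 w2556 v6785 w6644 w5193 w5483 v6428 w8658 v4305 v4304 v6420 v4179 v6422 w5425 w5426 v6442 v6377 w7628 v2435 v6369 v2407 w620 v2342 w3517 w7554 v2357 v2370 v3629 v2396 w3632 w3592 w5212 w5200 w5292 w8598 w7592 v7262 w2196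
theorem v7386 : PV l7386 := r7386 v5034 v4655 v432 v1254 v1138 v1242 v5113 v7226 v4065 v3308 v3056 v5825 w3947 v2788 v4994 v2782 v5809
theorem v7387 : PV l7387 := r7387 v4655 v432 v1254 v5112 v5035 v3597 v4923 v2432 w3036 w3163 w3162 v6701 v5831 w6644 v6785 v2407 v2408 w5483 w5426 w7568 w7641 w8658 w3619 w3612 v649 w7565 w2215
theorem v7388 : PV l7388 := r7388 w3721 w3717 v4498 v1360 v4655 v432 v1254 v1138 v1242 v5102 v6420 v5127 w5216 v6248 w5364 w5424 w5295 v3236 v5079 v6200 v6818 v3933 v2510 v428 w4458 w4787 v433 w4487 w4836 w4825 w4812 v3336 w5407 v5113 v5112 v5035 v3161 w2339 v7299 w5287 w5736 w5546 w5547 w5548 w4678 v7387 v2650 v2508 v2509 v3869 w3036 w3163 w3162 v6701 v5831 w6644 v6785 v2407 w5483 w5426 w7568 w8658 w3629 w3621 w3623 w3688 w8599 w8011 w8014 w2209 w8106 w8082 w8107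
theorem v7389 : PV l7389 := r7389 v2651 v732 w5308 w4749 w5735 v6231 v7293 v2550
theorem v7390 : PV l7390 := r7390 v6200 v6248 v6818 v2657 v3119 v4655 v432 v1254 v1138 v1242 v5112 w5193 w5483 v3380 w8658 w3771 w3688 w8603 v6193
theorem v7391 : PV l7391 := r7391 v3115 v6200 v390 v6184 v4130 v6248 v6818 v3336 v6948 w8774 v476 w5354 v3219 v4655 v432 w4479 v6886 w5460 v4132 v3118 v433 w4487 w4812 w4825 w4836 w4807 v7205 v2661 w8799 v1254 v1138 v1242 v428 v6934 v2711 v7245 v4082 w5407 v6179 v1218 v5039 v6425 v5102 v3236 v6427 v2515 v2514 v2660 v3927 v3105 v3104 v482 v3476 v483 v3497 w5332 v2673 v2674 v4210 v4209 v4133 w8805 w8328 v3933 v430 w4463 v3119 v5276 v1360 v1357 v4498 v2403 v2405 v6365 v7373 v6420 v5079 v7372 v6375 v2430 v6369 v4204 w714 w688 v6191 w4594 w633 v2359 w3438 w3756 w3717 v7388 v7389 w8796 w8110 v7390 v4777 v4778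
theorem v7392 : PV l7392 := r7392 v4655 v433 v6248 w4487 v6200 v3219 v4902 v7186
theorem v7393 : PV l7393 := r7393 v4655 v432 v1254 v5112 v5035 v2651 w1465 w1494 v3597 v4923 w3036 w3163 w3162 v6701 v5831 w6644 v6785 v2481 w5483 w8233 w8658 w3702 w3771 w8065 w8603 w2269
theorem v7394 : PV l7394 := r7394 w3438 w694 v4655 v430 v6248 w4463 w3991 w3969 v6200 v6818 v3336 w8774 v3933 w853 v4525 v5034 w5407 w5812 v428 w4458 w4787 v433 w4487 w4836 w4825 w4812 v2657 v3223 v3219 v5112 v1357 v3161 v3171 v2379 w2314 w2339 v7299 w5287 w5733 w5832 w4678 w4677 w4673 v7393 v2448 v3537 v6779 v3869 v3880 w3024 v7344 v7379 v3048 w3746 v3303 v3100 v3971 v3320 v7256 w4228 w4226 v5053 v6138 w2728 w8155 w8170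
theorem v7395 : PV l7395 := r7395 w3756 v6248 w5407 v4655 v430 w4463 v476 v6200 v7394 v7389 w8796 w8110
theorem v7396 : PV l7396 := r7396 v4130 w8774 v4655 v432 v1254 v1138 v1242 v5102 v3236 v6427 v476 w5350 w5458 v482 v4133 v433 w4487 w4825 v5112 v5035 v4903 v6701 v6785 w5193 w5483 v6428 w8658 v6422 v1669 v4167 w8655
theorem v7397 : PV l7397 := r7397 v7330 v7331 v4230 v4228 v7251 v7245 v4082 v4084 v6248 w5407 v6948 w5812 v476 w5354 v4655 v428 w4458 w4787 v432 w4479 w4807 v433 w4487 w4836 w4825 w4812 w5364 v6934 v6200 v6818 v2711 v3336 v3119 v3118 v3117 v3116 v3115 v3219 v1254 v1138 v1242 v5276 v1360 v1357 v5035 v6179 w8805 v7249 v1218 w8328 v390 v6184 v5039 v4132 v4133 v4130 v4209 v4210 v6886 v2674 v2673 v6425 v483 v482 w5332 w5460 v2511 v2512 v5102 v3497 v3476 v7205 v3236 v3239 v3105 v3106 v3927 v2660 v2661 v2662 v3345 v2604 v2513 v2514 v2515 v6427 w8799 w9136 v2713 v4603 v2544 v2545 w3838 v7222 v7384 v3771 v7383 v6352 v4838 w8774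 w3832 w6570 v7386 v7385 v7391 v4587 v6369 v6374 v4494 v4492 v7392 v7396 v7372 v4204 w714 v6191 w3717 v7395
theorem v7398 : PV l7398 := r7398 v7330 v7331 v7245 v4082 v6934 v6200 v6248 v6818 v2711 w5407 v3223 v4655 v432 v1254 v7397 w8742 v2708 v2553 v4608
theorem v7399 : PV l7399 := r7399 v6200 v6248 v6818 v4655 v432 w4479 v3219 v1254 v7330 v7398 v2846 v2943 v5467 v3836 v3505 v3512
theorem v7400 : PV l7400 := r7400 v4655 v432 v1254 v6934 v6248 w5407 v6200 v6818 v2711 v7245 v4082 v7255 v7251 v4084 v6948 w5812 v476 w5354 w4479 w4807 v433 w4487 w4836 w4825 w4812 v3118 v3219 v2708 v6179 v7249 v4603 v390 v2713 v6184 w9136 v4132 v6886 v2604 w5460 v7205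
theorem v7401 : PV l7401 := r7401 v4655 v433 v6248 w4487 v6948 w4836 v6200 v6818 v476 v3219 v7233 v7400 v5175 v4666
theorem v7402 : PV l7402 := r7402 v5112 v1360 v7213 v5943 w3906 v3303 v6301 v4042
theorem v7403 : PV l7403 := r7403 v4655 v7222 v432 v1254 v5112 v1316 v7402 v7237 v6595 v5978 w3906 v4547 v3308 v5807 v7199 v7200 v5266
theorem v7404 : PV l7404 := r7404 v4655 v7222 v432 v1254 v5112 v1357 v1316 v1140 v5256 v7236 v7237 v6595 v5978 v4547 v7201 w2461 v5048
theorem v7405 : PV l7405 := r7405 v4655 v7222 v6248 v476 v6948 w5354 v432 w4479 w4807 v433 w4487 w4836 w4825 w4812 v6934 v6200 v6818 v2711 w5407 v3118 v3219 v428 v2542 v6184 v5039 v4132 v6886 v2674 v2673 v483 w5460 v3509 v3497 v7205 v4608 v2555 w8328 w8866 v1218 v7404 v7402 v7403 v6595 w2899 v3799 v3797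
theorem v7406 : PV l7406 := r7406 v7401 v7399 v7251 v7245 v4082 v6934 v6200 v6248 v6818 v2711 w5407 v3223 v4655 v432 v1254 v7400 v2544 v2545 w3838 v7405 v6209 w8742 v4608 v2553
theorem v7407 : PV l7407 := r7407 v7245 v4082 v6934 v6200 v6248 v6818 v2711 w5407 v4655 v432 w4479 v3219 v1254 v7251 v7406 v2846 v2845 v2943 v5467 v3836 v3505 v3512 v7252 v7255 v7254
theorem v7408 : PV l7408 := r7408 w2996 v5113 v5112 v5035 w3825 w3824 w3195 w3199 w3556 v4848 v3426 v4862 v4183 v2662 w8679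
theorem v7409 : PV l7409 := r7409 v7407 v7245 v4082 v4655 v432 v6248 w4479 v6948 w4816 v433 w4487 w4825 w5364 v6934 v6200 v6818 v2711 w5407 v3117 v1254 v1360 v7250 v3484 w5482 v7408 v6209 v2708 v7254
theorem v7410 : PV l7410 := r7410 v2791 v4603 w6714 v4525 v4655 v432 v5113 v7226 w3969 w3964 w4036 v4059 v3043 w2691 v3977 v3971 v6182
theorem v7411 : PV l7411 := r7411 v4525 v5034 v6200 v6248 v6818 v3933 v3223 v4655 v432 v1254 v1138 v1242 v5113 w853 v7410 v3308 v3268 v7379 v7286 v3048 v3063 w2525 w2521 v3974 w5915 w4109 v4994 v4058 v2788 v7328 v2782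
theorem v7412 : PV l7412 := r7412 v4763 v5034 v4655 v432 v5113 v5112 v1357 w3952 w3946 v5968 v5964 v1116 v5841
theorem v7413 : PV l7413 := r7413 v7407 w3827 w3824 w3825 v4230 v4228 v5034 v7409 v7245 v4082 v4655 v432 v6248 w4479 v6948 w4807 v433 w4487 w4836 w4812 w5364 v6934 v6200 v6818 v2711 v3336 w5407 v3119 v3118 v3117 v3115 v1254 v1138 v1242 v5113 v5112 v1357 v1316 v2791 w3584 v2707 v7255 w3239 w3242 w3238 v3374 v6937 v3426 v5171 v3439 v3427 v6179 w8805 w5380 v2720 v4138 v4183 v4883 v755 v4603 w8328 v667 w5780 w5778 w783 w792 v757 v2661 w6714 w9163 v1594 w8987 w8656 v7411 v4763 v7412 v5978 v6688 v3308 v5032 v7120 v7154 w2691 v6183 v7177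
theorem v7414 : PV l7414 := r7414 v5035 v4118 v4525 v7409 v7407 v7245 v4082 v4084 v6248 w5407 v6948 w5812 v476 w5354 v4655 v432 w4479 w4816 w4807 v433 w4487 w4836 w4825 w4812 v6934 v6200 v6818 v2711 v3337 v3336 v3119 v3118 v3116 v3115 v3219 v1254 v428 v5113 v5112 w3825 w3824 w3827 w3828 v7413 v2542 w3749 v6184 v5039 v4132 v4131 v4133 v4130 v4209 v4210 v6886 v2674 v2673 w8609 v483 v482 w5332 w5460 w5474 w5471 w5760 v3509 v3476 v7205 w8606 v627 v4608 v3927 v2662 v6246 v2555 v5766 v4167 w8328 w8866 v2557 v1218 v5725 v4848 v6701 v3136 v6736 v3137 v4780 v4838 w3132 v4902 v4903 v3370 w2790 v7384 v7372 v1140 v3772 v7366 v7386 w3964 w4029 w3890 v7016 v4059 v3243 v3043 w6111 v3977 w2677 w6297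
theorem v7415 : PV l7415 := r7415 v6209 w8742 v2708 v4608 v2553
theorem v7416 : PV l7416 := r7416 w3827 w3825 v4655 v432 v6248 w4479 v6948 w4807 v433 w4487 w4836 w4812 w5364 v6934 v6200 v6818 v2711 v3336 w5407 v3119 v3118 v3115 v1254 v428 v5113 v5112 v1357 v2791 w3584 v2707 v7255 w3239 w3242 w3238 v3374 v6937 v3426 v5171 v3427 v6179 w8805 w5380 v2720 v4138 v4883 v755 v1218 v4603 w8328 w5780 w783 w792 v2660 v2661 v4605 w9163 w8656 v6595 v7213 v7402 v5943 v5256 v7214
theorem v7417 : PV l7417 := r7417 v7407 v4655 v432 v1254 v6934 v3223 v6248 w5407 v6200 v6818 v2711 v7245 v4082 v7415 w3828 w3827 w3824 w3825 v7409 v4084 v6948 w5812 v476 w5354 w4479 w4807 v433 w4487 w4836 w4825 w4812 v3337 v3119 v3118 v3116 v3219 v428 v5113 v5112 v5035 v7414 v7416 v2542 v6184 v5039 v4132 v4131 v4133 v6886 v2674 w8609 v483 w5332 w5460 w5471 w5760 v3509 v7205 w8606 v627 v4608 v3927 v2662 v6246 v2555 v5766 v4167 w8866 v2557 v1218 v4848 v3136 v4780 w3132 v7405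
theorem v7418 : PV l7418 := r7418 v4084 v6248 w5407 v6948 w5812 v476 w5354 v4655 v432 w4479 w4807 v433 w4487 w4836 w4825 w4812 v6200 v6818 v3337 v3118 v3116 v3219 v1254 v5113 v5112 v2542 v6184 v5039 v4132 v4131 v6886 v2674 w8609 v483 w5460 w5474 w5471 v3509 v7205 v3387 v3927 v6177 v4780 v3216
theorem v7419 : PV l7419 := r7419 v7407 v7245 v4082 v6248 v476 v6948 w5354 v4655 v432 w4479 w4807 v433 w4487 w4836 w4825 w4812 w5364 v6934 v6200 v6818 v2711 w5407 v3223 v1254 v5113 v5112 v5035 v7409 v7415 w3828 v7417 v7418 v2791 v2707 w3241 w3239 w3242 w3238 v3426 v5171 v4848 v4883 v4188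
theorem v7420 : PV l7420 := r7420 v6934 v4655 v432 v1254 v3219 v6200 v6248 w4479 w5407 v6818 v2711 v7245 v4082 v7419 v2846 v2845 v2943 v5467 v3836 v3505 v3512 v7248 v7252 v7255 v7254
theorem v7421 : PV l7421 := r7421 v5113 v7420 v5587 v4655 v432 v1254 v6895 v6243 v433 w4487 v3827 v2935 v6325 v3222 v430 w4463 v3850 v428 v6263 v1218 w2982 v5581 w5339 v1316 v3113 v3852 v3338 w4479 v3935 v4223 v5952 v6886 v6464 v2308 w5740 w5407 w5812 w4836 w4825 v4132 v6668 v2640 v2641 v6934 v2712 v3341 v3340 w4458 v476 v5112 v5035 v4082 v5653 v2590 v2594 v2554 v5275 v7233 w8752 v6615 w3825 v2901 v6613 w8606 v4848 w2387 v7037 w9099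
theorem v7422 : PV l7422 := r7422 v5571 v4603 w8805 v2548
theorem v7423 : PV l7423 := r7423 v6325 v3820 v6673
theorem v7424 : PV l7424 := r7424 v4763 v5034 v4655 v432 v5113 v5112 v1357 v1316 w3952 w3946 v6656 v5972 v4995 v4994
theorem v7425 : PV l7425 := r7425 v5034 v4655 v432 v1254 v5112 v1316 v7423 v4763 v7424 v5978 v6696 v6675 v5027 v3084 v5845 v5023
theorem v7426 : PV l7426 := r7426 w6242 w6307
theorem v7427 : PV l7427 := r7427 w3991 v7426 w2525 v4057 v4058
theorem v7428 : PV l7428 := r7428 v4525 v5034 v6325 v4655 v432 v1254 v1138 v1242 v5113 v3817 v7427 v6649 v3308 v3268 v5941 v7286 v6293 v4026 v3048 v3063 w2521 v3974 w5915 w4109 v2788 v4994 w3870 v4017 v4023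
theorem v7429 : PV l7429 := r7429 v4655 v432 w3946 w3952 v5113 v5112 v1357 v7193 v5964 v7056 w3896
theorem v7430 : PV l7430 := r7430 v4763 v5034 v5113 v4655 w3952 v6656 v7429 v4995 v4994
theorem v7431 : PV l7431 := r7431 v4655 v432 v1254 v3850 v3852 v6263 v5112 v1316 v5034 v4228 v7425 v7428 v4763 v7430 v5978 v6696 v6675 v5027 v3084 v5845 v5023
theorem v7432 : PV l7432 := r7432 w3907 v6678
theorem v7433 : PV l7433 := r7433 v4655 v427 v5276 v5112 v1360 v1357 v6566 v6311 v3069 v7432 v5943 v3303 v7053 v4069 v5266 v706 v712 w5985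
theorem v7434 : PV l7434 := r7434 v1357 v1316 v5048 v5672
theorem v7435 : PV l7435 := r7435 v6494 v4549
theorem v7436 : PV l7436 := r7436 v6243 v4655 v432 v1254 v6895 v3222 v430 v5113 v5587 w4463 v3850 v428 v6263 v1218 w2982 v433 w4487 v3827 v2935 v6325 v5581 v4218 v4223 v6668 v2640 v2641 v3852 w4498 v5112 v3810 v3811 v3813 v7431 v7433 v7434 v3303 v3304 v7435 v5982 v4553 v4539 w2460 w3906 v1245
theorem v7437 : PV l7437 := r7437 w699 v4260 w4448 w5255 v3874 v3872 v6227 v737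
theorem v7438 : PV l7438 := r7438 v2269 v5113 v4655 v3537 w1473 v2305 v7437 w5311 v4815 w8251 w3436
theorem v7439 : PV l7439 := r7439 v4655 v432 v1254 v6895 v6243 v433 v5113 v5587 w4487 v3827 v2935 v6325 v428 v430 w4463 v3222 v6263 v1218 v6668 v2641 v3850 v3852 w2982 v5581 v4223 v5952 v4798 v4209 v4208 v2628 v2627 v3935 v1138 v1242 v2477 v4260 v2269 w690 v6930 v2624 v2283 w2270 v7438 v6916 w7785 v6919
theorem v7440 : PV l7440 := r7440 v6808 v6828
theorem v7441 : PV l7441 := r7441 v6243 v4655 v5113 v5587 w4498 v3813 v432 v1254 v6895 v433 w4487 v3827 v2935 v6325 v428 v430 w4463 v3222 v6263 v1218 v6668 v2641 v3850 v3852 w2982 v5581 v4223 v5952 v4798 w5333 v4209 v2640 v2627 v3935 v3934 w5407 v476 v5276 v1360 v1357 v1316 v1268 w2737 v7439 v4204 w714 w694 v6191 w3438 w3003 w3039 v7440 v2624 w2270 v6926 v2448 v3537 w1538 v3870 w4266 v6922 v5893 w5285 w7757 v4581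
theorem v7442 : PV l7442 := r7442 v3160 v6905
theorem v7443 : PV l7443 := r7443 v6895 v2628 v6243 v4655 v428 v432 v1254 v430 v5113 v5587 w4463 v3222 v6263 v1218 v6668 v4208 v433 w4487 v3827 v2935 v6325 v3850 w2982 v5581 w5339 v4223 v6913 v2641 v3852 v5952 v4798 w5333 v4209 v2640 v2627 v3935 w4498 v476 v5276 v1360 v1357 v4204 w714 w694 v6191 w3438 w3459 w3039 v7442 v2624 w2270 v6926 v3537 v2305 w1538 v3870 v6922 w5733 w8344 w8111
theorem v7444 : PV l7444 := r7444 v6916 v3537 w1473 w8249 v7437 w5308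
theorem v7445 : PV l7445 := r7445 v6895 v2628 v6243 v4655 v428 v432 v1254 v430 v5113 v5587 w4463 v3222 v6263 v1218 v6668 v4208 v433 w4487 v3827 v2935 v6325 v3850 w2982 v5581 w5339 v4223 v6913 v2641 v3852 v5952 v4798 v4209 v2627 v3935 w5407 v476 v1138 v1242 v7441 v7443 v2477 v4260 v2269 w690 v6930 v2624 v2283 w2270 v7444 v6919 w7785 w5308 v3537 w1473 v7437
theorem v7446 : PV l7446 := r7446 v5113 v5587 v4655 v432 v1254 v6895 v6243 v433 w4487 v3827 v2935 v6325 v428 v430 w4463 v3222 v6263 v1218 v6668 v2641 v3850 v3852 w2982 v5581 v4223 v5952 v4798 w5333 v4209 v4218 v2640 v2627 v3935 w4498 v476 v5276 v1360 v1357 v4204 w714 w694 v6191 v6921 w3438 w3036 v2303 v2624 w2270 v6926 v3537 v2305 w1538 v3870 w8111 v6922 w5733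
theorem v7447 : PV l7447 := r7447 v4655 v432 v1254 v5276 v1360 v1357 v6195 w2971 v6916 v3537 w8249 v3872 w4760
theorem v7448 : PV l7448 := r7448 v6243 v3817 v6895 v2628 v4655 v428 v432 v1254 v430 v5113 v5587 w4463 v3222 v6263 v1218 v6668 v4208 v433 w4487 v3827 v2935 v6325 v3850 w2982 v5581 w5339 v4223 v3852 v2641 v4218 v7425 v6913 v4228 v5952 v4209 v2640 v2627 v3935 w5407 w4498 v1138 v1242 v427 w3938 w3991 v7100 v7426 w2525 w2521 w2532 v4058 w5915 v3303 v4064 v6163 v2790 w3902 v4037 v7445 v2937 w2748 v1267 v1268 v7446 v2477 v4260 v2269 w690 v6930 v2624 v2283 w2270 v7447 w3036 v6919 w7785 w4760 v3537 v3874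
theorem v7449 : PV l7449 := r7449 v6243 v4655 v433 v5113 v5587 w4487 v432 v1254 v6895 v3827 v430 w4463 v3222 v6263 v3850 v3852 v6325 v428 v1218 v6668 v2641 w2982 v2935 v5581 v4223 v4218 v7425 v4228 v4525 v5034 v1138 v1242 v3817 v7448 v6649 v3308 v3268 v5941 v7286 v6293 v4026 v3048 v3063 w2521 v3974 w5915 w4109 v2788 v4994 w3870 v4017 v4023
theorem v7450 : PV l7450 := r7450 v5034 v4655 v432 v1254 v5112 v1316 v4763 v7430 v5978 v6696 v6675 v5027 v3084 v5845 v5023
theorem v7451 : PV l7451 := r7451 v5112 v6243 v4655 v432 v1254 v6895 v3222 v430 v5113 v5587 w4463 v3850 w4498 v3811 v2946 v2794 w2748 v433 w4487 v3827 v2937 v3814 v4525 v3852 v2935 v428 v6263 v1218 w2982 v6325 v5581 v4223 v5952 v4209 v6668 v4208 v2640 v2641 v2628 v2627 v3935 v1138 v1242 w3969 w3888 v5852 v3303 v4059 v3043 v3075 w2449 v3971 v6163 v5842 v4037 v1267 v1268 v7446 v2477 v4260 v2269 w690 v6930 v2624 v2283 w2270 v7447 w3036 v6919 w7785 w4760 v3537 v3874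
theorem v7452 : PV l7452 := r7452 v7436 v6243 v4655 v432 v1254 v6895 v3222 v430 v5113 v5587 w4463 v3850 v428 v6263 v1218 w2982 v433 w4487 v3827 v2935 v6325 v5581 v4218 v4223 w5339 v6668 v4208 v2640 v2641 v3852 v2628 w5407 w4498 v1138 v1242 v5112 v4525 v4228 v4230 v7450 v3817 v3819 v7449 v3811 v2937 w2748 v2946 v6695 v2794 v6913 v7451 v6649 v2779 v3308 v3270 v3268 v6293 v7286 v3045 w2661 v3974 w6176 w4125
theorem v7453 : PV l7453 := r7453 v3304 v4534 w3906 v1245 w3891 w2454 w6015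
theorem v7454 : PV l7454 := r7454 v3304 v3303 v4007 v4763 v5113 v5112 v4655 v5982 v7453 v4548 v3043 v3075 w2460 w2444 v3077 v1245 w5897 w3906 w3965 v2789 w3924 v4985 v4528
theorem v7455 : PV l7455 := r7455 v6934 v7420 v5113 v5587 w5407 v6243 v2712 v4655 v432 v1254 v430 w4463 v6895 v3222 v6263 v7421 v428 v1218 v6668 v2568 v6325 v7415 v7422 v433 w4487 v3827 v2935 v3850 w2982 v5581 w5339 v1316 v3113 v3852 v3338 w4479 v3935 v4223 v5952 v6886 v6464 v2308 v476 w5354 w4807 w4836 w4825 w4812 v2641 v4798 v4132 v4218 v4129 v2640 v2627 v3342 v3341 w4498 w4458 v5112 v5035 v2544 v2545 w3838 v7233 v6615 v6456 v7222 v6448 v3797 w3835 w3061 w3063 w8606 v3129 w2357 w8704 w5475 v4777 v4769 v7452 v7433 v4763 v7434 v3303 v7435 v7454 v3813 v5061 v2946 v7453 v2794 v3074 w3909 v4530 v5012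
theorem v7456 : PV l7456 := r7456 v7420 v6895 v4655 v432 v5113 v5587 w4479 v6243 v3935 v430 w4463 v3222 v1254 v3850 v3852 v433 w4487 v3827 v2935 v428 v6263 v1218 w2982 v6325 v5581 v4223 v5952 v6886 v3114 v6668 v4128 v3339 v5112 v6934 w5407 v2712 v7421 v2568 v7415 v7455 w3828 w8609 w5471 v4132 v3341 w5339 v1316 v3113 v3338 v6464 v2308 w3825 w8606 v3142 v3129 v7422 v4130 w814 w5812 v476 w5350 v2641 v3403 v3927 v5786 v6177
theorem v7457 : PV l7457 := r7457 v5113 v7420 v5587 v4655 v432 v1254 v6895 v6243 v433 w4487 v3827 v2935 v6325 v3222 v430 w4463 v3850 v428 v6263 v1218 w2982 v5581 w5339 v1316 v3113 v3852 v3338 w4479 v3935 v4223 v5952 v6886 v6464 v2308 w5407 w5812 v476 w5350 w5354 w4807 w4825 w4812 v4130 v4132 v6668 v6934 v2712 v3341 v5112 v7421 v2568 w814 v7415 v7422 v7455 w3825 w8606 v3129 v3142 v7456 v2820 v6448 v3927 v5786 v5766 v4608 v2557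
theorem v7458 : PV l7458 := r7458 v5653 v2708 v4082 v7422
theorem v7459 : PV l7459 := r7459 v4082 w8402 v7190 v2548
theorem v7460 : PV l7460 := r7460 v3160 w2339 v6808 w2258 v6867 v7299 w1452 v6390 w5736 w8394
theorem v7461 : PV l7461 := r7461 v6243 v6325 w3438 v3935 v4655 v5113 v5587 w4498 v476 v2624 w2270 v6926 v3537 v2305 w1538 v3870 v6922 w5733 w8344 w8111
theorem v7462 : PV l7462 := r7462 v6895 v2628 v6243 v4655 v428 v432 v1254 v430 v5113 v5587 w4463 v3222 v6263 v1218 v6668 v4208 v433 w4487 v3827 v2935 v6325 v3850 w2982 v5581 w5339 v4223 v6913 v2641 v3852 v5952 v4798 w5333 v4209 v2640 v2627 v3934 v5276 v1360 v1357 v4204 w714 w694 w688 v6191 w3459 w3039 v7461 v3160 v7460 v6867 v4919 v4923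
theorem v7463 : PV l7463 := r7463 v4655 v432 v1254 v430 v5113 v5587 w4463 v6243 v6895 v3222 v6263 v6325 v428 v1218 v6668 v2641 v6682 v5854 v3303 w3991 v3817 v4228 w5407 v2712 v433 w4487 v3827 w3112 v7459 v2568 v2640 v7458 v2935 v3850 v3852 w2982 v5581 v4223 v5952 v4798 v4209 v4218 w5339 v4208 v2628 v2627 v3935 w4498 v476 v1138 v1242 v3811 v6687 v7427 v7426 v6709 v6913 v4608 w2525 w2532 v4037 v2554 v4064 v7462 v2477 v4260 v2269 w690 v6930 v7439 v2624 v2283 w2270 v7444 v6919 w7785 w5308 v3537 w1473 v7437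
theorem v7464 : PV l7464 := r7464 v6895 v2628 v6243 v4655 v428 v432 v1254 v430 v5113 v5587 w4463 v3222 v6263 v1218 v6668 v4208 v433 w4487 v3827 v2935 v6325 v3850 w2982 v5581 w5339 v4223 v6913 v2641 v3852 v5952 v4798 w5333 v4209 v2640 v2627 v3934 v5276 v1360 v1357 v4204 w714 w694 w688 v6191 w3459 w3036 v7460 v7461
theorem v7465 : PV l7465 := r7465 v6243 v4655 v432 v1254 v6895 v3222 v430 v5113 v5587 w4463 v3850 w2748 v1089 v5260 w4498 v3814 v3810 v3852 v433 w4487 v3827 v2935 v428 v6263 v1218 w2982 v6325 v5581 v4223 v5952 v4209 v6668 v4208 v2640 v2641 v2628 v2627 v3935 v1138 v1242 v4029 v5678 v4037 v7464 v2477 v4260 v2269 w690 v6930 v2624 v2283 w2270 v7447 v6919 w3036 w7785 w4760 v3537 v3874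
theorem v7466 : PV l7466 := r7466 v6243 v3821 v4233 v4655 v428 v432 v1254 v430 v5113 v5587 w4463 v6895 v3222 v6263 v1218 v6668 w5407 v2712 v6325 v2641 v433 w4487 v3827 w3112 v7459 v2568 v2640 v7458 v6682 v3850 w2982 v2935 v5581 v4223 w4498 w4012 v5854 v3303 w1726 v7463 v3810 v4608 v2554 v7465 v4035 w2543 v6709 w6246
theorem v7467 : PV l7467 := r7467 v5113 v5587 v6243 v6325 v4655 v428 v432 v1254 v430 w4463 v6895 v3222 v6263 v1218 v6668 v2641 v6682 v3850 w2982 v433 w4487 v3827 v2935 v5581 v4218 v4223 v3852 v1138 v1242 v5034 v4525 v4228 v7450 v3817 v7466 w3906 v6293 v4026 v5917 v3045 v3059 v7226 v3308 v3268 v3974 v7286 w4109 w2521 v4994 w5915 v7328 v2789 w3895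
theorem v7468 : PV l7468 := r7468 v6934 v7420 v5113 v5587 w5407 v6243 v6325 v2712 v4655 v432 v1254 v430 w4463 v6895 v3222 v6263 v428 v1218 v6668 v2640 v7458 v2641 v7457 v6682 v433 w4487 v3827 v2935 v3850 w2982 v5581 w5339 v1316 v3113 v3852 v3338 w4479 v3935 v4223 v5952 v6886 v6464 v2308 v476 w5354 w4807 w4836 w4825 w4812 v4798 v4132 v4129 v2627 v3342 v3341 w4498 w4458 v5112 v5035 v2544 v2545 w3838 v7233 v6456 v6448 v7222 v3797 w3835 w3061 w3063 w8606 v3129 w2357 w8704 w5475 v6785 v4769 v7467 v7402 v4763 v7434 v3303 v7435 v7454 v3813 v5061 v2946 v7453 v2794 v3074 w3909 v4530 v5012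
theorem v7469 : PV l7469 := r7469 v4082 w801 v7037
theorem v7470 : PV l7470 := r7470 v7468 v6934 v7420 v5113 v5587 w5407 v6243 v6325 v2712 v4655 v432 v1254 v430 w4463 v6895 v3222 v6263 v428 v1218 v6668 v2640 v7458 v433 w4487 v3827 v2935 v3850 w2982 v5581 w5339 v1316 v3113 v3852 v3338 w4479 v3935 v4223 v5952 v6886 v6464 w5740 w5812 v476 w5350 w4816 w4825 w4812 v4130 v3340 v5112 v5035 v2901 v2909 v2811 v2918 v4848 v4862 v4869 v2632 v3927 v2604 w8701 v7469 v2568 w814 v5786 v6177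
theorem v7471 : PV l7471 := r7471 v6934 v4655 v432 v1254 v433 v430 v428 v5113 v5112 v1316 v7420 v5587 v6243 v6895 v476 w4463 w4458 w4487 w4479 w5407 v3935 v3338 v3340 v3341 v6325 v2712 v3222 v3113 v3850 v3827 v6263 v3852 v2935 v1218 v6668 w2982 v2641 v2640 v5581 w5339 v4223 v5952 v4132 v4130 v6886 v6464 w4812 w4825 w4807 w5354 w5350 w5812 w5740 v2308 v7458 v7468 v7470 v2820 v6456 v6448 v2629 v3927 v2604 v3797 w3061 w3060 w8606 w8701 v3129 v7469 v2568 w814 v5786 v5766 v4608 v2557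
theorem v7472 : PV l7472 := r7472 v4655 v430 v6248 w4463 v6200 v3223 v5037 v2948 v4441 v2674
theorem v7473 : PV l7473 := r7473 v7234 v4084 w9136 v2713 v6260 v4603
theorem v7474 : PV l7474 := r7474 v7471 v4428 v4135 v5038 v5037 v6934 v4655 v433 v432 v430 v1360 v3219 v3223 v6200 v6248 v3117 v3118 v6948 v476 w4463 w4487 w4479 w5407 v6818 w4812 w4825 w4836 w4807 w5354 w5350 w5812 v6886 w5460 w5458 v483 v7472 v4442 v5467 v6889 v2708 v2673 v7205 v3509 v3497 v3927 v2662 v2604 v7167 w8655 w3467 v7473 w3824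
theorem v7475 : PV l7475 := r7475 v6260 v5706 w9136
theorem v7476 : PV l7476 := r7476 v7475 v5571 v4603 w9136 v2713
theorem v7477 : PV l7477 := r7477 v5035 v7471 v4100 v4428 v5037 v6934 v4655 v433 v432 v430 v5113 v5112 v7474 v5587 v6243 v5308 v5623 v2641 v476 v473 w4463 w4487 w4479 w5407 v3934 v3935 v3338 v3340 v3341 v2640 v2708 v5636 v4591 v4802 v5653 w5339 v4796 v3113 v4084 v4970 w2982 w2989 v4647 v6253 w4825 w4807 w5812 w5740 v2308 v6701 v3216 v2631 v2632 v5936 w8701 v3927 v2604 w3824 w3467 v7476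
theorem v7478 : PV l7478 := r7478 v2571 v7037
theorem v7479 : PV l7479 := r7479 v6200 v6248 v6818 v7471 v3219 v4655 v432 w4479 v5038 v6886 v483 v1360 v3223 v430 w4463 v7472 v4442 v6889 v3509 v6170 v476 v6948 w5354 w5460 v4135 v3118 v433 w4487 w4812 w4825 w4836 w4807 v5467 v7205 v2661 v3117 w5350 w5458 v2662 v4428 v7167 w8799 w3564 v3927 v5035 v5112 v3336 v3115 v6220 w3044 v4100 v6701 v3216 w5407 w5812 v7477 v1254 v5113 v4084 v6177
theorem v7480 : PV l7480 := r7480 v5112 v2794 v2590 w6600 v7192 v7242 v7240 v2779 v7040 v7188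
theorem v7481 : PV l7481 := r7481 v5112 v2794 v2590 v4655 v432 v1254 v1316 v5034 v7480 v4763 v7412 v5978 v5032 w3895 v5020 w2449
theorem v7482 : PV l7482 := r7482 v6934 v6200 v6248 v6818 v2711 v7471 v5037 v7479 v2568 w5407 v7477 v3219 v4655 v432 w4479 v5038 v6886 v483 v1360 v3223 v430 w4463 v7472 v4442 v6889 v3509 v6170 w3749 v5035 v5112 v3336 v3115 v6220 w3044 v4100 v6948 v433 w4487 w4825 v6701 v1254 w5812 v3118 w4812 w4836 w4807 v476 w5354 v5467 v4135 w5460 v7205 v2604 v2661 v3117 w5350 w5458 v2662 v4428 v7167 w8799 w3854 v7037 w9099 v2557 v2590 w8685 w8752 w8467 v428 w4458 w4787 v3216 v3927 v7478 w6644 w3237 w6600 w6353 w3172 w2765 w3046 w3204 w2795 w8655 w3467 v4790 v4789 w5364 v3436 v482 v3474 v3021 v2673 v5909 v1138 v1242 v7046 v7481 v6595 v7213 v7402 v5943 v5829 v7214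
theorem v7483 : PV l7483 := r7483 v5112 v2794 v2779 w3909 v3308 v4655 v432 v1254 v1138 v1242 v5113 v5034 v4525 v6688 v7240 v4056 v3043 v3075 w2463 v3974 v4026 v4017 w4113 v5840
theorem v7484 : PV l7484 := r7484 v7477 v5035 v7471 v4100 v4428 v4135 v6220 v5038 v5037 v6934 v4655 v432 v1254 v433 v430 v428 v5112 v1360 v3219 v3223 v6200 v6248 v3115 v3117 v3118 v6948 v6245 v7472 v476 w4463 w4458 w4487 w4479 w5407 v6818 w4812 w4825 w4836 w4807 w4787 w5354 w5350 w5812 v4442 w3044 w3046 v3336 v2711 v6886 v6701 w5460 w5458 v5467 v5909 v483 v482 v3216 v7205 v2673 v3021 v6889 v3927 v2661 v2662 v2604 v3509 v6170 v7167 w8655 w3749 v3474 w8799 w3467 w3854 w3172 w3204 v7479 v2568 v7037 v7478 w9099 v4789 w6644 v4790 v2557 w2795 w3237 w2765 v2590 v7192 w6600 v2794 w8685 w8467 w8752 v7482 v1245 v7041 v7016 v7483 v6595 v7402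
theorem v7485 : PV l7485 := r7485 v5113 v7484 v5587 v7471 v6243 v5623 v5308 v5037 v2641 v5636 w5339 v5035 v4100 v476 v3935 v4802 v3113 v3338 v4655 v430 w4463 v3934 v473 v4591 v4796 v4970 w2982 v4647 v6253 v2308 v4135 v3341 v5112 w2989 v433 w4487 w4825 v6701 v2631 w8834 w3564 v432 w4479 w4807 v3216 v5936 v3927 v7477 w3749 v6323 w5407 w5812 w5350 v1254 v4084 v5786 v6177
theorem v7486 : PV l7486 := r7486 v4655 v430 v5113 v6934 v7471 v5037 v7477 v7484 v5587 v6243 v5308 v5623 v2641 v473 w4463 w4498 v3934 w2996 v5636 v4591 v3218 v4796 v4970 w2982 v4444 v7485 v2590 v7190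
theorem v7487 : PV l7487 := r7487 v2791 v4655 v430 w4573 v5112 v1360 v1316 v5771 w6560
theorem v7488 : PV l7488 := r7488 v5113 v3216 v4862 v6448 v2910
theorem v7489 : PV l7489 := r7489 v6248 v476 v6948 w5354 v4655 v432 w4479 w4816 w4807 v433 w4487 w4836 w4825 w4812 v5112 v5035 v7488 v5725 v4848 v4863 v4838 v2904 v2903
theorem v7490 : PV l7490 := r7490 v4606 v5722
theorem v7491 : PV l7491 := r7491 v4606 w6436
theorem v7492 : PV l7492 := r7492 v2791 v4655 v430 w4573 v427 v7487 v7491 v4600 v5868 v5741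
theorem v7493 : PV l7493 := r7493 v4655 v430 w4573 v5276 v1360 v1316 v5788 v5772
theorem v7494 : PV l7494 := r7494 v4595 w6410
theorem v7495 : PV l7495 := r7495 v4655 v430 w4573 v2791 v7492 v7493 v7494 v6216 v2561
theorem v7496 : PV l7496 := r7496 w3749 v6861 w8381 w8778
theorem v7497 : PV l7497 := r7497 v4655 v432 v1254 v4233 v7384 v4086 v7209 v5859 v3261 v7229
theorem v7498 : PV l7498 := r7498 v7486 v7495 w3838 v2545 v2544 v7236 v7402 v5256
theorem v7499 : PV l7499 := r7499 v6200 v2661 v3118 v4228 v4230 v4231 v4233 v7384 v7497 v7230 w8799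
theorem v7500 : PV l7500 := r7500 v7486 v7495 w3838 v2545 v2544 v4655 v432 v1254 v5112 v1316 v7498 v7237 v7135 v5978 v7201
theorem v7501 : PV l7501 := r7501 v6682 v4086 v6200 v6248 v6818 v4655 w4498 v432 v1254 v427 v5113 w3938 w3997 v5859 w3890 v7100 v3303 v3291 v6709 v7059 v5737 v3844
theorem v7502 : PV l7502 := r7502 v1138 v1242 w859 v7328 v7059 w3999
theorem v7503 : PV l7503 := r7503 v6682 v4086 v5034 v6200 v6248 v6818 v3933 v4655 w4498 v432 v1254 v1138 v1242 v5113 v7501 v7173 w3906 v3308 v3272 v7502 v5737 w5915 w6034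
theorem v7504 : PV l7504 := r7504 v4525 v4655 v6248 w4498 v432 v1254 w3964 w4012 v5859 w4036 v4059 v3043 w2691 w2647 v3977 v7144
theorem v7505 : PV l7505 := r7505 v7489 v6248 v476 v6948 w5354 v7486 v7495 v2545 v4789 v6200 v6818 v3336 v3115 v1357 v2544 v5719 v755 v2689 v4655 v432 v1254 v3219 w4479 v2711 v2574 v430 w4573 w6353 w2924 w3838 v4773 w5384 w5729 v4138 w792 v2571 w813 v7496 v2845 v2673 v2674 v4180 v501 w5392 v390 v3497 v3509 v2723 w5780 v500 w5403 w783 v4769 v5277 v5275 v4971 v2599 v3933 w4807 v433 w4487 w4836 w4825 w4812 w5364 w4498 v1138 v1242 v5113 v5035 v4892 v7250 v3476 v1089 v7500 v5034 v4230 v4233 v7384 v4086 v7499 v6682 v7503 v7504 v7226 w3906 v3308 v3272 v7502 v5737 w5915 w6034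
theorem v7506 : PV l7506 := r7506 v7486 v7495 w3838 v2545 v2544 v4655 v430 w4573 v2574 w6353 w2924 v6200 v6248 v6818 v2711 v3336 v476 v6948 w5354 v432 w4479 v7489 v3115 v3219 v1254 v1357 v5719 v4773 v4789 v755 v501 v500 w5384 v4138 v2571 v4180 w792 w5392 w5403 w5729 w813 v7496 v390 v3509 v7505 v3487
theorem v7507 : PV l7507 := r7507 v7486 v7495 v4655 v430 w4573 v2574 w6353 w2924 v6200 v6248 v6818 v3336 v433 w4487 v6948 w4836 w4825 v432 w4479 v3115 v3219 v1254 v5112 v5035 w3838 v7506 v5725 v4848 v4838 v6861 w2790 v390 v2845 v1089 v6270 v7250 v2674 v5038 v6170 v3501 v3509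
theorem v7508 : PV l7508 := r7508 v7489 v2604 v3927 v4655 v428 v6248 w4458 v6948 w4787 v433 w4487 w4825 w4812 v7486 v7495 v430 w4573 v432 v1254 v5112 v5035 v2574 v2713 w6353 v7507 w3241 w3237 w3239 v4848 v4869 w6644 v2571 w8899 w5825 v4771 v4773
theorem v7509 : PV l7509 := r7509 w6560 v2578 w6391
theorem v7510 : PV l7510 := r7510 v6200 v6248 v6818 v3933 v4655 v432 w4479 v427 w4452 v3223 v3219 v7495 v1254 v1360 v3484 w2977 w5727 w6639 v7496 v2568
theorem v7511 : PV l7511 := r7511 v6200 v2661 v3118 w8799 v7230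
theorem v7512 : PV l7512 := r7512 v4086 v5035 v7486 v7495 v5112 v4655 v430 w4573 v7509 v2574 w6353 w2924 v3115 v6200 v6248 v6818 v3336 v2711 w3838 v7510 v7250 v2845 v390 v6184 v5039 v2673 v5277 v7384 v4233 v4231 v4230 v4228 v4525 v5034 v3219 v432 w4479 v6886 v482 v3476 v483 v3509 v476 v6948 w5354 w5460 v2674 v4133 v4132 w4463 v3223 v4909 v2544 v7508 v7489 v2660 w4807 v433 w4487 w4836 w4825 w4812 w5364 v3119 v5275 v2599 v7511 v7174 w5475 v4769 v7379 v7209
theorem v7513 : PV l7513 := r7513 v4655 v432 v1254 v1138 v1242 v5102 v3236 v6427 v3106 v3105 v7489 v2514 v2513 v6200 v6248 v6818 v2512 v2511 v3219 w4479 v6886 v482 v4130 v4133 v7486 v7495 v2545 v2544 v3336 v2660 v3927 v428 w4458 v6948 w4787 v3119 v3115 v430 v4971 v5035 w5193 w5483 v3378 w8658 w8801 w8774 w3809 v6428 w3212 v6422 w6644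
theorem v7514 : PV l7514 := r7514 v7489 v7486 v7495 v2544 v5112 v4655 v430 w4573 v7509 v2574 w6353 w2924 v3115 v6200 v6248 v6818 v3336 v2711 w3838 v7510 v7250 v390 v2845 v6184 v5039 v2674 v4971 v6425 v3219 v432 w4479 v6886 v483 v3509 v3216 v7508 v6948 w4816 v3763 v7513 v4769 v2673 w4463 v3223 v4909 v5277 v2599 v427 v5113 v5035 v5034 v4525 v4228 v4230 v7384 v4086 v7512 v6682 v7379 v7226 w3952 w3946 w3938 w4036 v7038 v7100 v3282 v3993 v5713 v3984 v3320
theorem v7515 : PV l7515 := r7515 v6200 v7486 v7495 v5112 v4655 v430 w4573 v7509 v2574 w6353 w2924 v3115 v6248 v6818 v3336 v2711 w3838 v7510 v390 v2845 v7250 v6184 v3219 v432 w4479 v6886 v483 v3509 v3497 v4971 v5039 v6425 v2673 v2674 v1089 v433 w4487 v4903 v2545 v2544 v7508 v6948 w4816 v7489 v5277 v5275 v1254 v5113 v1357 v1316 v3216 v3763 v7513 v6785 v7514 v4433 v7498 v4007 v3958 v7237 v5978 v3308 v3271 v7201 v7199 v5048 v3042 v5266 w2643 v4547 w5910 w4175 w4178 v4990 v4692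
theorem v7516 : PV l7516 := r7516 v7486 v7495 w3838 v6200 v6248 v6818 v2711 v3336 v4655 v433 w4487 v6948 w4825 v3115 v3219 v5112 v430 w4573 v7509 v2574 w6353 w2924 v5035 v4903 v7510 v390 v2845 v7250 v6184 v4130 v7515 v6701
theorem v7517 : PV l7517 := r7517 v6200 v6248 v6818 v2711 v3336 v4655 v432 w4479 v430 w4463 v3115 v3223 v3219 v7486 v7495 v5112 w4573 v7509 v2574 w6353 w2924 v1254 v1360 w3838 v7516 v5038 v7472 v2570 v6886 v4442 v483 w5729 v6889 v3509 v7496 v6170
theorem v7518 : PV l7518 := r7518 v7486 v7495 v5112 v4655 v430 w4573 v7509 v2574 w6353 w2924 v2713 v432 v1254 v433 v428 v5035 v3219 v6200 v6248 v3115 v6948 v7489 w4458 w4487 w4479 v6818 w4812 w4825 w4787 v3927 v2604 v3336 v7517 w3241 w3237 w3239 v4848 v4869 w6644 v2571 w8899 w5825 w5824 w5823 v7196 v4771 v3378 v3351 v6861 v390 v7250 v6170 v5038 v3509 v6886 v483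
theorem v7519 : PV l7519 := r7519 v4655 v433 v5113 v5587 w4487 w4498 v6243 v5277 v7450 v7425 v3811 w2748 v2946 v6695
theorem v7520 : PV l7520 := r7520 v6243 v5113 v5587 v6325 v4655 v430 v4971 v6668 v2641 v6670 v432 v1254 v3934 v473 v4591 w4463 v3850 v2947 w2982 v5581 v4218 v4223 v3852 v476 v3935 v4802 v433 w4487 v3827 v6263 v2640 w4498 v5275 v5112 v1316 v7519 v7433 v7434 v3303 v7435 v7454 v3813 w2748 v2946 v1267 v2794 v5839
theorem v7521 : PV l7521 := r7521 v4086 v4525 v4655 v432 v1254 v427 v5113 v3303 v6649 v6709 w3969 w3938 w4036 w3907 v6293 v7100 v1267 v3045 w2461 v3282 v3971 v6188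
theorem v7522 : PV l7522 := r7522 v4086 v4525 w6353 w3110 v4655 v432 v1254 v1138 v1242 v5113 v7521 v3308 v3268 v3261 v7286 v3048 w2525 w2532 w5925 w3746 v3974 v4058 w4190 w6150 w4115 v5941 w947 v4026 v3967
theorem v7523 : PV l7523 := r7523 v6649 v4059 w3907 w2460 v6163
theorem v7524 : PV l7524 := r7524 v6243 v5113 v5587 v6325 v4655 v430 v4971 v6668 v2641 v6670 v432 v1254 v3934 v473 v4591 w4463 v3850 v2947 w2982 v5581 v4218 v4223 v2568 v2712 v2548 w6353 w3110 w8402 v3852 v476 v3935 v4802 v433 w4487 v3827 v6263 w4498 v1138 v1242 v4525 v4228 v4230 v7450 v3817 v3819 v7522 v3811 v2937 w2748 v1267 v7523 v3308 v3270 v3268 v7286 v3048 w2661 v3974 w6176 w4125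
theorem v7525 : PV l7525 := r7525 v6243 v5113 v5587 v6325 v4655 v430 v4971 v6668 v2641 v6670 v432 v1254 v3934 v473 v4591 w4463 v3850 v2947 w2982 v5581 v4218 v4223 v3852 v2640 v5277 v5275 v7436 v7520 v7524 v7433 v7434 v3303 v3304 v7435 v7454 v5061 v4547 v7199 v7453 v5266
theorem v7526 : PV l7526 := r7526 v6687 v6689 v7434 v6595 v7454 v6634
theorem v7527 : PV l7527 := r7527 v4655 v432 v1254 v3850 v3852 v6263 v4228 v7450 v7428
theorem v7528 : PV l7528 := r7528 v6682 v7402 v7434 v6595 v7454 v6634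
theorem v7529 : PV l7529 := r7529 v5113 v7518 v5587 v6243 v7486 v7495 v5112 v4655 v430 w4573 v7509 v2574 v6325 v4971 v6668 v2641 v6670 v432 v1254 v3934 v473 v4591 w4463 v3850 v2947 w2982 v5581 w5339 w6353 w2924 v5277 v476 v3935 v4802 v3113 v3338 v3852 v4223 v5952 v4130 v6253 v2308 w5354 w4479 w4807 v433 w4487 w4825 w4812 v6886 v4132 v4218 v2568 v2712 v2548 w3110 w8402 v3114 v3827 v6263 v2640 v4128 v3341 v3339 w4498 v428 w4458 v5275 v5035 v2544 v2545 w3838 v6456 v6448 v4873 w3065 w3067 w8606 w8609 v3129 w5471 v4777 v4769 v7525 v1089 w2749 v3811 v3813 v7526 v7528 v4228 v7450 v7527 v3817 v7522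
theorem v7530 : PV l7530 := r7530 v7486 v7495 v4655 v430 w4573 v432 v1254 v433 v5113 v5112 v5035 v7509 v2574 v2713 v4971 w6353 w2924 v5277 v7518 v2548 v5587 v6243 v476 v473 w4463 w4487 w4479 v3934 v3935 v3338 v3339 v3340 v6325 v2712 v6668 v4128 v2568 v2641 v6670 v4591 v4802 v3850 v3113 v3114 v3852 w3110 v2947 w2982 w8402 v5581 v4223 w5339 v5952 v4130 v6253 w4825 w4816 w5740 v7529 w3241 w3240 w3824 w3828 v4848 w8609 v2632 v4862 w5837 w8701 v2604 w8899 w801
theorem v7531 : PV l7531 := r7531 v3336 w3563 v6861 w8506 v3378 w5380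
theorem v7532 : PV l7532 := r7532 v4655 v6248 w4498 v432 v1254 v427 v5113 w3938 w3997 w4036 v7100 v3291 v3282 v7059 v5808 w1530
theorem v7533 : PV l7533 := r7533 v4525 v5034 v6200 v6248 v6818 v3933 v4655 w4498 v432 v1254 v1138 v1242 v5113 v7532 v7226 v3272 v7120 v7502 w3971 v5840 v4986
theorem v7534 : PV l7534 := r7534 v6200 v6248 v6818 v4655 w4498 v7495 v5848 v430 w4573 v432 v1254 v427 v5276 v1316 w3938 w3997 v5859 w4036 v7100 v3303 v3291 v3282 v6709 v7059 v6293 v3844 w2461 v6187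
theorem v7535 : PV l7535 := r7535 v5034 v6200 v6248 v6818 v3933 v4655 w4498 v7495 v5848 v430 w4573 v432 v1254 v1138 v1242 v5113 v7533 v5260 v7534 v7173 v6726 v3272 v7120 v6293 v7502 w3971 v3045 v5840
theorem v7536 : PV l7536 := r7536 v4525 v7495 v5848 v4655 v430 w4573 v432 v1254 v5276 v1316 w3969 w3964 v5859 w4036 v4059 v3043 v3971 v3977 v6187 v3282
theorem v7537 : PV l7537 := r7537 v6200 v6248 v6818 v3933 v4655 w4498 v7495 v5848 v432 v1254 v1138 v1242 v5113 v5034 v4230 v7384 v7535 v7536 v7226 v3272 v7115 v7120 v7502 w3906 w3971 v5840 v6293 v3045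
theorem v7538 : PV l7538 := r7538 v6200 v4655 v432 v1254 v7530 v430 v7486 w4573 v7495 v1138 v1242 v4598 v5848 w6342 w6436 w2924 v3219 v6248 v3115 v3119 w4479 v6818 v7489 v2660 v2544 w3838 v5467 v2675 v4129 v7531 v390 v7250 v6184 v3501 v3509 v3497 v5730 v2545 v2711 v5277 v5275 v3028 w6628 v4611 v5035 v7537 v7498 v7500 v7135 v7237 v3303 v3304 v7200 v5817 v7199 v3045 v410 v7217 v4988
theorem v7539 : PV l7539 := r7539 v4655 v430 w4573 v7532 v7534 v5260
theorem v7540 : PV l7540 := r7540 v4525 v5034 v6200 v6248 v6818 v3933 v4655 w4498 v432 v1254 v1138 v1242 v5113 v7226 w3906 v3272 v6293 v7502 v3045 v4026 v4008 v5840 v4694 v417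
theorem v7541 : PV l7541 := r7541 v7495 v5848 v4230 v7384 v7540 v7536 v7539
theorem v7542 : PV l7542 := r7542 v6200 v4655 v432 v1254 v7530 v430 v7486 w4573 v7495 v1138 v1242 v4598 v5848 w6342 w6436 w2924 v3219 v6248 v3115 v3119 w4479 v6818 v7489 v2660 v2544 w3838 v5467 v2675 v4129 v7531 v390 v7250 v6184 v3501 v3509 v3497 v5730 v2545 v2711 v5277 v5275 v3028 w6628 v4611 v5035 v5719 v4773 v4769 v7538 v6682 v7541 v7498 v7135 v7237 v3303 v3304 v7453 w3906 v7199 v4533 v5266 v4547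
theorem v7543 : PV l7543 := r7543 v6200 v6248 v6818 v3843 v3933 w853 v4525 v4655 v433 w4487 w4498 v430 w4463 v3223 v432 v1254 v5113 w3964 w4012 w3991 w4004 w4036 v7344 v3048 w6106 v3977 w1736 v3286 v3292 v5808 w6310 w1528 w2665 w6177
theorem v7544 : PV l7544 := r7544 v4138 v6200 v390 v6184 v4304 v4305 v4655 v432 v1254 v1138 v1242 v5102 v3236 v6427 v2357 w3809 w3771 v4525 v5034 v3501 v3509 v3219 v6248 w4479 v6818 v6886 v2512 v2511 v3933 v5113 w8579 w9009 v6403 v7543 v7226 v4056 v3308 v3272 v3043 v3056 w2640 v3974 w4109 w4125 v4994 w6176 w859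
theorem v7545 : PV l7545 := r7545 v5035 v7486 v7495 v7530 v4655 v432 v1254 v1138 v1242 v4598 v4611 w3838 v430 w4573 v5848 w6342 w2924 v5277 v7384 v4525 v5034 v6200 w6436 v3219 v6248 v3115 v3119 w4479 v6818 v7489 v2660 v2544 v7531 v390 v5467 v6184 v3501 v3509 v3497 v6886 v4130 v4132 v6948 w5339 v2308 v5102 v3236 v6427 w5727 v3106 v3105 v3104 v2515 v2514 v2513 v2711 v3337 v3336 v3345 v2661 v3927 v428 w4458 w4787 v3118 v3116 v3028 w6628 v5276 v5112 v1316 w5193 w5483 w5471 v3378 w8658 w8801 w8609 w8774 v6369 w3809 w3075 w8799 v6428 w3765 w3853 w3212 w6644 v7544 v7379 v7226 v4059 w3969 w3964 w4036 v3043 v3977 v3971 v3282 v6187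
theorem v7546 : PV l7546 := r7546 v4655 v430 w4573 w4036 v6248 w4463 w3991 v427 w3938 v432 w3946 w3952 v6200 v6818 v3933 w853 v4228 v5034 v7495 v5848 v5276 v1316 v7100 v7426 v3282 v3993 v7314 v2786 v6293 w3907 w3888 v5854 w6297 v3984 v5266 v6187
theorem v7547 : PV l7547 := r7547 v4655 v430 w4573 w4036 v432 w3964 w3969 v4525 v7495 v5848 v5276 v1316 v4059 v3043 v3977 v3971 v3282 v6187
theorem v7548 : PV l7548 := r7548 v6200 v6248 v6818 v3933 w853 v4230 v4228 v4525 v5034 v5467 v3223 v4655 v432 v1254 v7546 v7547 v3268 v7379 v4058 v7286 w2525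
theorem v7549 : PV l7549 := r7549 v7489 v4655 v432 v6248 w4479 v6948 w4816 v7542 v3763 v3122 v3216 v6200 v1254 v7530 v430 v7486 w4573 v7495 v1138 v1242 v4598 v5848 w6342 w6436 w2924 v3219 v3115 v3119 v6818 v2660 v2544 w3838 v5467 v2675 v4129 v7531 v390 v7250 v6184 v3501 v3509 v3497 v3481 w5727 v5730 v3028 v6425 v5102 v6442 v4128 v4082 v3933 v3223 v5277 v4611 v5276 v1316 v5035 v5034 v4525 v4228 v4230 v4231 v4233 v7384 w853 v7545 v4769 v7548 v7226 v3308 v3268 v3261 v7379 v7286 w2525 w2521 w5925 w5915 w4190 v2788 v6187 v2782 v7328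
theorem v7550 : PV l7550 := r7550 v7486 v7495 w3838 v2545 v2544 v7530 v4655 v430 w4573 v432 v1254 v1138 v1242 v4598 v5848 w6342 w2924 v5277 v5275 v3028 w6628 v4611 v427 v5112 v1316 v7498 v4763 v7237 v5978 v3308 v5817 v7199 w3935 w3944 v1074 v5823 v4547 v3084 v5025 v4543
theorem v7551 : PV l7551 := r7551 v4525 v4655 v432 v1254 v5113 w3969 w3964 v5859 w4036 v4059 v3043 v3977 v3971 v3282 v3320 v5808
theorem v7552 : PV l7552 := r7552 v5112 v2794 v7495 v4655 v432 v1254 v1138 v1242 v4598 v4611 v430 w4573 v5848 w6342 w2924 v5277 v7384 v5034 v6200 v6248 v6818 v2711 w6628 w6436 v7541 v7551 v7226 w3895 v4056 v5050 w2449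
theorem v7553 : PV l7553 := r7553 v4525 v4655 v432 v1254 w3964 w4029 v5853 w3890 v3243 v4059 w6111 v3043 w2677 v3977 w6297
theorem v7554 : PV l7554 := r7554 v7486 v7495 w3838 v2545 v2544 v6200 v6248 v6818 v3336 v7489 v2660 v476 v6948 w5354 v4655 v432 w4479 w4816 v433 w4487 w4825 v7530 v430 w4573 v1254 v1138 v1242 v4598 v5848 w6342 w6436 v5467 v3119 v3115 v3219 v5035 w2924 v5277 v4834 v4611 v5112 v2675 v4129 v7531 v390 v5730 v7250 v6184 v4130 v3501 v3497 v3509 v7550 v5034 v4118 v7384 v7549 v3772 v5725 v4848 v6701 v6736 v3760 v4838 w2790 v4902 v4788 w2798 v1140 v4187 v2794 v7552 v7553 v7226 w3895 v7227 v5050 w2449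
theorem v7555 : PV l7555 := r7555 w2984 v7531 v3836 v4133
theorem v7556 : PV l7556 := r7556 v7537 v7541 v6682
theorem v7557 : PV l7557 := r7557 v4655 v432 v1254 v7530 v430 v7486 w4573 v7495 v1138 v1242 v4598 v5848 w6342 w6436 w2924 v3219 v6248 v3115 v3119 w4479 v6200 v6818 v7489 v2660 v2544 w3838 v7555 v7250 v390 v5467 v6184 v3501 v3497 v3509 v7550 v6886 v482 v3476 v5035 v5112 v3336 v433 w4487 v6948 w4825 v7554 v4903 v4130 v6701 v2711 v5277 w6628 v4611 v4773 v4769 v7556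
theorem v7558 : PV l7558 := r7558 v6200 v6248 v6818 v3336 v7489 v2660 v4655 v432 w4479 v6948 w4816 v433 w4487 w4825 v430 w4463 v7530 v7486 w4573 v7495 v1254 v1138 v1242 v4598 v5848 w6342 w6436 v5467 v3119 v3115 v3223 v3219 w2924 v5277 v3028 v4611 v5112 v5035 v2544 w3838 v7554 v4909 v4903 v7555 v390 v7250 v6184 v5039 v4130 v6886 v3501 v6425 v6701 v482 v3497 v3509 v3216 v3476 v7550 v5034 v4525 v4228 v4230 v7384 v7557 v3763 v7513 v4769 v7548 v7379 v7226
theorem v7559 : PV l7559 := r7559 v6200 v6248 v6818 v3842 v3933 w853 v4525 v4655 w4498 v430 w4463 v3223 v432 v1254 v5113 w3964 w3997 w3991 w3993 w4036 v7344 v3048 v3977 v3290 v3291 v3282 w6308 v5808 w2662 w1530 w6176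
theorem v7560 : PV l7560 := r7560 v6200 v6248 v6818 v3933 v4655 v432 v1254 v1138 v1242 v5113 v5034 v4525 v4228 v4229 v4230 v7384 v7559 v7226 v3308 v3272 v7379 v4056 v3043 v3056 w2640 v3974 w4109 w4125 v4994 w6176 w859
theorem v7561 : PV l7561 := r7561 v6200 v6248 v6818 v2711 v3337 v3336 v7489 v2604 v2662 v2661 v2660 v3927 v476 v6948 w5354 v4655 v428 w4458 w4787 v433 w4487 w4825 w4812 v432 w4479 v7530 v430 v7486 w4573 v7495 v1254 v1138 v1242 v4598 v5848 w6342 w6436 v5467 v3119 v3118 v3117 v3116 v3115 v3219 w2924 v5277 v5275 v3028 w6628 v2713 v4611 v4084 v5112 v1360 v5035 v7558 w3241 w3237 w3239 w8892 v4848 v4869 w5825 w5824 w5823 v5866 v5770 w6644 v4771 v4774 v4773 v3378 v3351 v2820 v6861 v390 v7250 v6184 v5039 v4132 v4131 v4133 v4130 v6886 v6425 w8774 w5460 w5471 w5472 v2511 v2512 v5102 v2513 v2514 w8609 w8658 w8801 v3236 v3105 v3106 w3772 w3080 w8799 v6427 v2609 v6428 v4079 v6420 v6422 v6283 w5520 w5425 v2435 w7554 w3642 w7420 v7333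 v7560 v7403 v7404
theorem v7562 : PV l7562 := r7562 v7530 v4655 v430 v7486 w4573 v7495 v432 v1254 v1138 v1242 v4598 v5848 w6342 w6436 v2713 v4084 v433 v5112 v1360 v5035 v3219 v6200 v6248 v3115 v3117 v3118 v6948 v7489 v476 w4487 w4479 v6818 w4825 w5354 w5350 v2661 v2662 v2604 v3336 v7561 v5038 v4135 v4428 v4100 v4429 v6886 v6701 v483 w5460 w5458 v6889 v3509 v6170 v7167 w3749 w8799 w3854 w3564 w8892 v4771 w5825
theorem v7563 : PV l7563 := r7563 v3850 v2947 w2982 v5581 v4223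
theorem v7564 : PV l7564 := r7564 v7486 v7495 v4655 v430 w4573 v432 v1254 v1138 v1242 v5113 v7530 v4598 v5848 w6342 w6628 v3028 v7562 v5587 v6243 v2548 v476 v473 w4463 w4479 v3934 v3935 v6325 v2712 v6668 v2641 v4591 v4802 v7563 v5038 v5623 v6886 w3749 v5636 w5729 w8356 v4796 w8838
theorem v7565 : PV l7565 := r7565 v5519 w6650 w6333
theorem v7566 : PV l7566 := r7566 v5732 v3484 w3749 w5727 w8422 w8821
theorem v7567 : PV l7567 := r7567 v5859 w4036 v3100 w5913 w6113
theorem v7568 : PV l7568 := r7568 v3308 v5034 v5113 v4655 w3957 w3895 v4994 v2789 v3055 w6034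
theorem v7569 : PV l7569 := r7569 v4525 v5034 v6200 v6248 v6818 v3933 v4655 w4498 v432 v1254 v1138 v1242 v5113 v7567 v7226 v3308 v3272 v7502 v7568 v5070 v3044 v3058 v3974 v4994 w4109
theorem v7570 : PV l7570 := r7570 v6200 v6248 v6818 v3933 w853 v4228 v4655 v430 w4463 w3991 w4036 v7426 w3746 v7314 w6113 w3907 v3100 v5854
theorem v7571 : PV l7571 := r7571 w6374 w6584 v6200 v6248 v6818 v3933 v3223 v4655 v432 v1254 v1138 v1242 v5034 v4525 v4228 v4230 v4086 v7384 w876 w853 v7569 v7570 v7226 v3308 v3268 v7379 v7286 w2521 w2532 w5925 w3746 w5915 w4190 w6113 v2788 v3099 w3863 v4026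
theorem v7572 : PV l7572 := r7572 v6200 v7489 v2662 v2660 v6248 v476 v6948 w5350 v4655 v432 w4479 w4816 v6818 v7564 v2614 v3119 v3117 v3219 v2615 v7486 v7495 v430 w4573 v1254 v5112 v1360 v1357 v1316 v5035 v7565 v2555 v2597 v2576 w6374 v3028 w2924 w6498 w6584 v6736 v2557 v7566 v390 v2845 v7250 v6184 v5039 v5275 v5277 v4133 v6886 v2569 v2674 v2673 v7174 v483 w5729 w5458 w8422 w5475 w5838 v7167 w801 w8921 v2544 v2545 w3838 v4769 v7571 v7498 v7237 v5978 v4547 v3308 v7199 w2443 v5266 v7201 v5048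
theorem v7573 : PV l7573 := r7573 v7564 v7486 v7495 v4655 v432 v1254 v1138 v1242 v7572 v2619 v5663 v6222 v6224
theorem v7574 : PV l7574 := r7574 v7565 v2597
theorem v7575 : PV l7575 := r7575 v7564 v2615 v7486 v7495 v4655 v430 w4573 v432 v1254 v1138 v1242 v433 v5112 v1360 v5035 v3219 v3223 v6200 v6248 v3115 v3117 v3118 v3119 v6948 v7489 v476 w4463 w4487 w4479 v6818 w4825 w5354 w5350 v2660 v2661 v2662 v3336 v7573 v5037 v5038 v6220 v4135 v4136 v4428 v4100 v7472 v6886 v4442 w3044 v483 w5729 w5460 w5458 v5909 v6701 v6889 v3509 v6170 v7167 w8655 w3749 w8799 v1669 w3854 w3564 w8658 w5838 v7574 v4084 v2619 v6175 v2557 w8907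
theorem v7576 : PV l7576 := r7576 v4655 v428 v432 v1254 v430 v5113 v5587 w4463 v6243 v6895 v3222 v6263 v1218 v3850 w2982 w4498 v3813 w2889 v5277 v5275 v5112 v2946 v2794 w2748 v3814 v6325 v6668 v2640 v2641 v433 w4487 v3827 v2935 v5581 v4218 v7563 v3830 v7520 v7519 v6611 v4763 v7434 v3303 v7435 v4547 w3895 w3909 v7453 w2450 v4543 v5012 v3074
theorem v7577 : PV l7577 := r7577 v4655 v428 v432 v1254 v430 v5113 v5587 w4463 v6243 v6895 v3222 v6263 v1218 v3850 w2982 w4498 v3813 w2889 v5277 v5275 v5112 v2946 v2794 w2748 v3814 v6325 v6668 v2640 v2641 v433 w4487 v3827 v2935 v5581 v4218 v7563 v3830 v7576 v6687 v4763 v6689 v7434 v3303 v7435 v4547 w3895 w2450 v5070 v4543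
theorem v7578 : PV l7578 := r7578 v5112 v2794 v4655 v428 v1218 v432 v1254 v427 v5837 v5853 v6623 v4062
theorem v7579 : PV l7579 := r7579 v5112 v2794 v4655 v433 w4487 v432 v1254 v3827 v3830 v430 w4463 v3222 v6263 v1138 v1242 v4525 v4228 v4230 v4086 v7450 w876 v3817 v3819 v7578 v6649 v2779 v3308 v3270 v3268 v6293 v7286 v3045 w2661 v3974 w6176 w4125
theorem v7580 : PV l7580 := r7580 v4655 v428 v432 v1254 v430 w4463 v3222 v6263 v1218 v433 w4487 v3827 v3830 v7579 v7433 v7434 v3303 v3304 v7435 v7199 v4547 w2443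
theorem v7581 : PV l7581 := r7581 v4655 v432 v1254 v5853 v6623 v4062
theorem v7582 : PV l7582 := r7582 v6682 v5112 v2794 v4655 v432 v1254 v1138 v1242 v5113 v5034 v4525 v4086 v7450 w876 v7581 v7226 w3895 v3308 v7328 v5070 v3044 v3058 v3974 v4994 w4109
theorem v7583 : PV l7583 := r7583 v4655 v428 v432 v1254 v430 v5113 v7575 v5587 w4463 v6243 v6895 v3222 v6263 v1218 v3850 w2982 w4498 v7486 v7495 v7564 v433 w4487 v3827 v3830 v5519 v2576 v3813 w2889 v5277 v5275 v2937 w3041 v2946 w2748 v3814 v3810 v2597 v476 v1316 v3113 v3338 v2935 w4479 v3935 v6325 v7563 v5952 v6886 v6464 w5354 w4816 w4807 w4836 w4825 w4812 v6668 v2640 v2641 v4128 v5581 v4218 v3114 v3339 w4458 w4573 v5112 v5035 v2544 v2545 w3838 v6456 v6448 v3797 v6736 w3059 w8609 w5471 v4777 v4769 v7577 v7580 v7582 v7215 v7434 v3303 v3304 v7435 v7199 v4547 w2443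
theorem v7584 : PV l7584 := r7584 v4655 v433 v5113 v7575 v5587 w4487 v1316 v6895 v3113 v6243 v432 v1254 v3827 v3830 v3338 v2935 w4479 v3935 v6325 v430 w4463 v3222 v428 v6263 v1218 v7563 v5952 v6886 v6464 w4825 v7486 v3850 w2982 v5581 w5727 v6668 v2641 v4128 v7495 v7564 v5519 v3114 v3339 v2615 w4573 v5112 v5035 v2576 w6374 w3112 v7583 w3241 w3828 v4848 w8609 v2557 w5837 w8907 w8921
theorem v7585 : PV l7585 := r7585 v5275 v6243 v6325 v5113 v5587 v4655 v428 v432 v1254 v430 w4463 v6895 v3222 v6263 v1218 v6668 v2640 v2641 v433 w4487 v3827 v2935 v3850 w2982 v5581 v4218 v7563 v3830 w4498 v5112 v7519 v7433 v7434 v3303 v7435 v7454 v3813 v7577 v5061 v2946 v7453 v2794 v4540 v2779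
theorem v7586 : PV l7586 := r7586 w3991 w4036 v7426 w3746 w2525 v4058 v3100 w6129 w6113
theorem v7587 : PV l7587 := r7587 v4655 v432 v1254 v1138 v1242 v7586 v6649 v3308 v3268 v5941 v7286 v6293 v4026 w5925 w3746 v3099 w4190 w6129 w6113
theorem v7588 : PV l7588 := r7588 w4036 w3888 v5852 v3100 v4059 v5869 w2691 w6113
theorem v7589 : PV l7589 := r7589 v4655 v432 v1254 v433 v5113 v5587 w4487 v6243 v6895 v3827 w3112 v6325 v428 v430 w4463 v3222 v6263 v1218 v6668 v2640 v2641 v2935 v3850 w2982 v5581 v4218 v7563 v3830 w4498 v1138 v1242 v5112 v4525 v4228 v4230 v7450 w876 v3817 v3819 v7587 v3811 v2937 v2946 v2794 v7588 v6649 v2779 v3308 v3270 v3268 v6293 v7286 v3045 w2661 v3974 w6176 w4125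
theorem v7590 : PV l7590 := r7590 v7486 v7495 v4655 v432 v1254 v1138 v1242 v433 v5113 v7575 v5587 w4487 v6895 v6243 v3827 v3830 v7584 v5787 w2924 v5277 v5275 v7564 v5519 v6222 v2935 v6325 v428 v430 w4463 v3222 v6263 v1218 v3850 w2982 v5581 w5339 v1316 v3113 v3338 w4479 v3935 v7563 v5952 v6886 v6464 v2308 v476 w5354 w4807 w4825 w4812 v6668 v2641 v4798 v4132 w5727 v2640 v4129 v4218 v2627 v3342 v3341 w4498 w4458 w4573 v5112 v5035 v2544 v2545 w3838 v6456 v6448 v3797 w3061 w3063 w8606 v3129 w2357 w8704 w5475 v4777 v4769 v7436 v7585 v7589 v7433 v7434 v3303 v3304 v7435 v7454 v3813 v5061 v4547 w2748 v7199 w2443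
theorem v7591 : PV l7591 := r7591 v7575 v6243 v6325 v3339 v3338 v3935 v4655 v432 v5113 v5587 w4479 v433 w4487 v430 w4463 v7564 v2615 v7486 v7495 v1254 v1138 v1242 v428 v5112 v1316 v5035 v6895 v3222 v3113 v3114 v3827 v6263 v3850 v2935 v3830 v1218 w2982 v5519 v6668 v7563 v5581 v4128 v2641 v5952 w5727 v6886 v6464 w4825 v7584 v4084 v5787 w3112 v7590 w3241 w3828 v4848 w8609 v2557 w5837 w8907
theorem v7592 : PV l7592 := r7592 v2619 v7565
theorem v7593 : PV l7593 := r7593 v4655 v432 v1254 v433 v430 v5113 v5112 v5035 v7486 w4573 v7495 v7564 v2615 v7575 v5587 v6243 v476 w4487 v3935 v3338 v3341 v6325 v7591 v5037 v5038 v4135 v4100 v5623 v6167 v6455 v4798 w3749 v5636 v4802 v2731 v4796 v3113 v4970 w2989 v4644 v6253 w4825 v2308 v6701 v6323 v2631 w8834 w3564 v3374 w5824 v7592 v2557 w8907 v4083 w8921 v2576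
theorem v7594 : PV l7594 := r7594 v4837 v4845
theorem v7595 : PV l7595 := r7595 v3217 v3213 v5035 v6257 v4885 v3410 v4851 v3405 w4329 v4835
theorem v7596 : PV l7596 := r7596 w3143 v5277 w2910 v5112 v1789 v3213 v5113 v4835 v5773 w4329 v4851
theorem v7597 : PV l7597 := r7597 w3143 v2895 v2896 v7593 v3217 v3213 v4655 v427 v5112 v5035 v5277 v1789 w2899 w2910 v7595 v7596 v3372 v501 w4510 v4773 v3797
theorem v7598 : PV l7598 := r7598 w3143 v2895 v2896 v7593 v5112 w2705 w2899 w2910 v2794 v7595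
theorem v7599 : PV l7599 := r7599 v6200 v6248 v6818 v3933 v4655 v427 w4452 v3223 v7597 v2895 v2896 v7593 v3213 v432 v1254 v5035 v3394 v7598 v6204 v7250 w3563 w2977 w6639 v4129 v6256 v5987 v495 w5359 v3405 v6258
theorem v7600 : PV l7600 := r7600 v4773 w4533 v3763
theorem v7601 : PV l7601 := r7601 w3143 v2895 v7593 v3213 v4655 v430 v5113 v5112 v5035 w2705 w2909 w2910 v2794 v7600 v501 v3372 v4835 v5773 w4329 v4851
theorem v7602 : PV l7602 := r7602 v2895 v7593 v4655 v432 v1254 v1138 v5035 w4568 w5193 v4839 v3379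
theorem v7603 : PV l7603 := r7603 v4655 w2803 v2877 v7093 v3204 v7063 w5060 w6999 w7024
theorem v7604 : PV l7604 := r7604 v6248 v6200 v4655 v430 v4970 v7593 v432 v1254 v1138 v1242 v5113 v5112 v4151 v7603 v2867 v7109 v3202 v3204 v3198 v7065 w5035 w5046 w5056 w5060 v7077 v3657 v3363 v3364 v3638 w6999 w8490 v2864 w383 w6934
theorem v7605 : PV l7605 := r7605 v7070 v4333 v3692
theorem v7606 : PV l7606 := r7606 v4655 v432 v1254 v1138 v5112 v5035 v5113 v7593 v7594 v2896 v3213 v7599 v2895 v7602 v501 v3372 v4835 v6200 v6248 v6818 v3219 w4479 v7601 v3385 v7250 w2984 v3836 v6886 v483 v2846 v3512 v5245 w4312 v3217 v3927 v4839 w4317 v4872 w4329 v4851 w2776 w2785 w6644 v4593 w5187 w2780 v1244 w3232 v3494 v4662 v6249 v2660 w5376 v4769 w3563 v3223 v427 w4452 v3933 w2977 w6639 v4129 v641 w8576 w9086 v4130 v5275 w2980 v4777 v7597 v7604 v7087 v7605 v7132 v7089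
theorem v7607 : PV l7607 := r7607 v7102 v7603 v4151
theorem v7608 : PV l7608 := r7608 v3242 v7097 v6093 v441
theorem v7609 : PV l7609 := r7609 v6200 v6248 v6818 v3933 v3223 v4655 v432 v1254 v1138 v1242 v5113 v5112 v7608 v3196 v7065 w5042 v3208 v3666 v3698 w6948 v4227 w52 w53 v1106 w3884 w4046 v6092 v3279 v4977 v4978
theorem v7610 : PV l7610 := r7610 v4230 v4228 v4525 v6200 v6248 v6818 v4655 w4498 v432 v1254 v427 v5113 w3964 w3938 w3997 v5859 w4036 v3303 v7100 v6709 v3291 v3282 v7127 v2784 v7059 v3844 w1530 v7171 v2792 v7607 v2870 v3046 v3047 v7609 v7089 v7605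
theorem v7611 : PV l7611 := r7611 v1244 v5034 v4655 v432 v1254 v1138 v1242 v1316 v7610 w3895 v7120 v5844 v5065 w2451
theorem v7612 : PV l7612 := r7612 v4086 v5034 v3219 v4655 v432 v6248 w4479 v6200 v6818 v1254 v5035 v5113 v7593 v7594 v7599 v7601 v2895 v7602 v501 v3385 v7250 w2984 v3836 v6886 v483 v2660 w5376 v3213 v4769 w3563 v3223 v427 w4452 v3933 w2977 w6639 v4129 v641 w8576 w9086 v5275 v4777 v3927 v3372 v4835 v4839 v7597 v2896 v3217 v1138 v5112 v2674 v2846 v4662 v3512 v5245 v3494 w4312 w4329 w4317 v4851 v4872 w2776 w2780 w2785 v1244 w6644 v4593 w5187 v7606 v7611 v6636 v7154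
theorem v7613 : PV l7613 := r7613 v4763 v5034 v4655 v432 v5113 v5112 v1357 v1316 w3952 w3946 v5968 v5964 v5046 v4745
theorem v7614 : PV l7614 := r7614 v3213 v4655 v432 v1254 v1138 v5112 v4593 v3434 w5187
theorem v7615 : PV l7615 := r7615 v3836 v4130 v6947 w8545
theorem v7616 : PV l7616 := r7616 v6200 v6248 v6818 v3219 v4655 v432 w4479 v1254 v5035 v5113 v7593 v7594 v7599 v7601 v2895 v7602 v501 v3385 v7250 w2984 v3836 v6886 v3223 v427 w4452 v3933 w2977 w6639 v2896 v3372 w3143 w3572 v3336 v7615 w5364 v4835 v4839 v3432 v3434 v2674 v2846 v4662 v3217 v433 w4487 w4812 v4872 w2771 v3433 v1360 v3484 w5339 v2308 v483 v2660 w5376 v3213 v4769 w3563 v4129 v641 w8576 w9086 v4132 v5275 w2980 w3564 v4777 v2661 v7597 v2791 v5112 w8863 w8799 w8917 v7612 v4433 v5245 v7134 v3958 v7135 v7156 v7216 v3304 v7154 v7201 w3895 v1074 v6130 v5043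
theorem v7617 : PV l7617 := r7617 v4655 v432 v1254 v1138 v1357 v2882 w2803 v7093 v7063 v436 w5029 w5035 v3685 v6069
theorem v7618 : PV l7618 := r7618 v4655 v430 v4970 v432 v1254 v1138 v1242 v5113 v5112 v4150 v7617 v7109 v3203 v7065 v436 w5029 w5035 w5058 v3208 v7077 v3670 v3657 w7023 v2894 v3712 v4350
theorem v7619 : PV l7619 := r7619 v7089 v7150
theorem v7620 : PV l7620 := r7620 v5275 v5113 v7618 v7087 v7605 v7619
theorem v7621 : PV l7621 := r7621 v4655 v6248 w4498 v427 w3938 w4012 w4036 v6625 v7100 w2659 w3289 v7144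
theorem v7622 : PV l7622 := r7622 v5034 v4655 v432 v1254 v1138 v1242 v1316 v7621 w3895 v7120 v5844 v5065 w2451
theorem v7623 : PV l7623 := r7623 v5034 v4233 v4086 v7622 v6632 v7154
theorem v7624 : PV l7624 := r7624 v5035 v5113 v7593 v7495 v5653 v7594 v2895 v7602 v501 v3372 v4835 v4839 v3385 v2575 v7597 w3143 v2896 v2791 w6732 v3217 v3213 v4655 v432 v1254 v433 v427 v5112 v3219 v3223 v6200 v6248 v7599 v7250 v476 w4452 w4487 w4479 v6818 w5376 v2660 v7601 v4777 v4769 w3563 w3572 w2977 w2984 w2980 v3933 v3336 v2711 v5275 w6639 v3836 v4129 v6886 w8576 w9086 v641 v483 v7615 w5364 w4812 w5354 v3432 v3433 v4872 v3434 w2764 w2771 v2674 v1244 v2846 v4662 v7616 v3512 v5245 v3494 v7620 v7623 v4433 v7134 v4763 v3958 v7156 v7216 v3308 v7154 w3895 v1074 v6130 v5043 v4543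
theorem v7625 : PV l7625 := r7625 v5113 v5587 v6243 v6325 v2640 v6668
theorem v7626 : PV l7626 := r7626 v7495 v7593 v3213 v4655 v430 v5113 v5035 v5653 v2575 v7594 v2895 v7597 v7602 v501 v3372 v4835 v4839 v4970 v7625 v3223 v6200 v6248 v7624 w4463 v6818 w5376 v6220 v4136 v7472 v4442 w3046 w3202 v6258 v3394 v641 v4769
theorem v7627 : PV l7627 := r7627 v6200 v6248 v6818 v4655 v432 w4479 v3219 v7593 v3213 v1254 v2895 v7602 v7599 v501 w5376 v2660 v7601 v4769 v3385 v7250 w3563 w2984 v641 v3836 v4133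
theorem v7628 : PV l7628 := r7628 v7593 v5113 v5035 v7627 v4837 v4833
theorem v7629 : PV l7629 := r7629 v3385 v3379
theorem v7630 : PV l7630 := r7630 v7593 v5113 v4655 v5035 v7628 v6224 v5742 v7629 v2895 v3368 v4837 w4569
theorem v7631 : PV l7631 := r7631 v7630 v6220 v7472 w3046 v4136 v6200 v6248 v6818 v7593 v3213 v2895 v7597 v7602 w3202 v501 w5376 v3372 v6258 v3394 v641 v4769
theorem v7632 : PV l7632 := r7632 v7593 v5113 v5035 v7631 v4837 v4833
theorem v7633 : PV l7633 := r7633 v7593 v2895 v7602 v501 v3372 v3394 v7598 v6258 v5277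
theorem v7634 : PV l7634 := r7634 v7630 v6220 v7472 w3046 v4136 v6200 v6248 v6818 v7593 v3213 v2895 v7602 w3202 w5376 v7633 v2660 v4769 v641
theorem v7635 : PV l7635 := r7635 v7593 v4655 v432 v1254 v5113 v1360 v5035 v3219 v6200 v6248 w4498 w4479 v6818 v3336 v7630 v5038 v6886 v483 v6889 v3509 v6170 v7632 v7634 v4837 w4569 w4570 w4842 v3368 v3372 v3347 w2912 w3572 w2984 v7615
theorem v7636 : PV l7636 := r7636 v5113 v2791 v7495 v7626 v4610 v4605 w6714 w6436 v7635 v5587 v6243 v2548 w5407 v6325 v2712 v6185 v2708 w8805 w8402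
theorem v7637 : PV l7637 := r7637 v7636 v7593 v5035 v2895 v7602 v501 v3385 v3372 v2590 v4835 v2574 v4840
theorem v7638 : PV l7638 := r7638 v4655 v430 v6248 w4463 v6200 v3223 v7472 v4442
theorem v7639 : PV l7639 := r7639 v7635 v7638 v6200 v6248 v6818 v2711 v3336 v4655 v432 w4479 v3219 v7636 v7593 v1254 v5035 v2896 v2895 w3143 v7602 v7637 v501 v4082 v3385 v3372 v6224 v7250 v4835 v7599 w3749 w3572 v4839 v7601 w2984 v7615 w5364 v3432 v3434 v5848 v4608 w5407 v6209
theorem v7640 : PV l7640 := r7640 v7593 v5113 v4655 v5035 v7635 v7638 v7639 v4837 v7594 w4569 v4833 v6217 v3368 v3385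
theorem v7641 : PV l7641 := r7641 v6243 v6325 v3342 v3341 v3339 v3335 v4655 v433 v5113 v5587 w4487 w4498 v473 v476 v7593 v2637 v2635 v2634 v2633 v3213 v432 v1254 v430 v5035 v2895 v7602 v501 w5376 w5373 w5370 v3372 v4835 v4839 v4970 v6668 v4129 v4127 v4128 v2641 v5188 w8546 w8401 w8400 v2838 w3563 w3776 v5623 v5581 w3787 v4223 v3827 v3830 w3092 v5952 v4851 v4132 w4835 w8397
theorem v7642 : PV l7642 := r7642 v7593 v4655 v432 v1254 v430 v5113 v5035 v5587 v6243 v2633 v2635 v473 w4463 w4498 v3934 v3335 v3342 v6325 v7641 v4837 w4569 w4570 w4843 w4845 v4833 v3368 v3372 v3347 v3027 v6668 v4129 v4127 v4591 w8546 w8401 w3563 w3093 v5623 v3850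
theorem v7643 : PV l7643 := r7643 v7190 v7495 v2595
theorem v7644 : PV l7644 := r7644 v7642 v7640 v6200 v6248 v6818 v3336 v3933 v7635 v7638 v4655 v432 w4479 v427 w4452 v3223 v3219 v7593 v1254 v1138 v1242 v5035 v2896 v2895 w3143 v7602 v501 v500 v3385 v3372 v6224 v7250 v4835 v7599 w3572 v4839 v7601 v5275 w2977 w2984 w6639 v3836 v7615 v6886 w5364 w5400 v3432 v3434 v2674 v2846 v4662 v3512 v7643 v7248 v7495 v4598
theorem v7645 : PV l7645 := r7645 v7642 v7635 v7638 v7593 v5113 v4655 v5035 v4837 v7594 w4569 v4833 v6217 v3368 v3385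
theorem v7646 : PV l7646 := r7646 v7495 v6210
theorem v7647 : PV l7647 := r7647 v5112 v6200 v6248 v6818 v2657 v7638 v4209 v3219 v4655 v432 w4479 v6886 v2846 v4662 v7060 w8603 v6249 v4208 v433 w4487 v4902 v1360 v7250 v3484 v6224 v2658 v2477 v4280 v4260 w691 w699 w695 w690 v6835 w3664 v6548 v6846 v6838
theorem v7648 : PV l7648 := r7648 v7642 v7635 v7593 v7645 v2895 v7602 v501 v3385 v3372 v7638 v6224 v7597 v5035 v4835 v4839 v3213 v7599 v4769 v4655 v432 v1254 v3223 v427 v6248 w4452 v6200 v6818 v3933 v7250 v7601 w2977 w6639 v3219 w4479 w2984 v3836 w5376 w3143 w3572 v3336 v7615 w5762 v2896 w5364 v3432 v3434 v2674 v5112 v500 w5400 v2846 v3512 v5245 v7647 v6886 v4662 v2660 w3563 v4129 w8576 w9086 v3433 v5275 v433 w4487 v4902 v4777 w3564 v7644 v2614 v2615 v1357 w5407 w5513 v6259 v4084 v4082 v6825 w3825 w8612 v6844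
theorem v7649 : PV l7649 := r7649 v4655 v432 v1254 v427 v5035 v7593 v7642 v3219 v3223 v6200 v6248 v7635 w4452 w4479 v6818 v7638 v3933 v3336 v7645 v2896 v2895 w3143 v7602 v7644 v501 v500 v3385 v3372 v6217 v6224 v7250 v4835 v7599 w3572 v4839 v7601 w2977 w2984 w6639 v3836 v7615 w5364 w5400 v3432 v3434 v2674 v2846 v3494 v7648 v7495 v7646 v2563 v2576
theorem v7650 : PV l7650 := r7650 v2895 v7649 v4655 v5035 w4569 v3725 v4141
theorem v7651 : PV l7651 := r7651 w8528 w8506
theorem v7652 : PV l7652 := r7652 v3929 w2899 w2903 v3784 v3785 v3797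
theorem v7653 : PV l7653 := r7653 v4086 v7221 v7226 v7229 v3261
theorem v7654 : PV l7654 := r7654 v4655 v432 v1254 v5113 v5112 v1316 v4228 v4230 v4233 v4086 v7653 v3321 v7412 v7207 v5978 v3261
theorem v7655 : PV l7655 := r7655 v7649 v3929 v4655 v432 v1254 v5035 v3216 v3747 v4769 v3783 v3749 v3750 v5776 w2775 v1140 v7654 v7402 v6595
theorem v7656 : PV l7656 := r7656 v3929 v5035 v3748 v3760 w2776 v2907
theorem v7657 : PV l7657 := r7657 w3563 v7250 w3852 v7655
theorem v7658 : PV l7658 := r7658 v6200 v2838 v3219 v4655 v432 v6248 w4479 v6818 v6886 v483 v3509 w3563 v5730 v7250 v7649 v2605 v2569 w801 v7657 w3584 w9066 v2574 w5511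
theorem v7659 : PV l7659 := r7659 w5513 v4608 w9136 w3582
theorem v7660 : PV l7660 := r7660 v4230 v5034 v4655 v430 w4573 v1140 v6200 v6248 v6818 v3933 v432 v1254 v1138 v1242 v7548 v7226 w3906 v3272 v3265 v3261 v5699 v7120 v7228 w2690 w4037 w6190 w6164
theorem v7661 : PV l7661 := r7661 v4655 v432 v1254 v1138 v1242 v7495 v5787 v1140 v5112 v1316 v4117 v7660 v7412 v5978 w3906 v5032 v6303 w2460
theorem v7662 : PV l7662 := r7662 v7649 v2605 w3143 v2895 v2896 v6200 v6248 v6818 v2658 v4655 v432 w4479 v433 w4487 w4498 v430 w4463 v476 v2667 v2666 v2664 v2663 v3219 v3929 v1254 v1138 v1360 v5035 v3116 v3118 v3119 v2713 v7650 v3729 v3731 v4145 w5193 w5380 w5381 v4141 v4147 v5467 v7651 v2838 w3563 w3202 v7250 v4892 v4891 v6184 v5730 v2675 w8377 v3481 v4132 v4131 v4210 v6886 v5909 v2673 w5339 w8353 v483 w3775 v3497 v3509 v4569 w3787 w3786 v4572 w8460 w8350 v6246 w5363 w4830 w4835 w4799 w4809 w5349 v7652 v325 v7656 v3216 v3747 v4769 v3783 v3749 v3750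 v5776 w2762 w2775 v1140 v7658 v4084 v7659 w5825 w8892 v7661 v7402 v6595
theorem v7663 : PV l7663 := r7663 v3213 v3929 w4566 w4567 v3726 v4593 v4171
theorem v7664 : PV l7664 := r7664 v3747 v3749
theorem v7665 : PV l7665 := r7665 v2895 v2896 v7649 v3929 v4655 v432 v1254 v1138 v1242 v5112 v5035 v3213 v7663 v3730 v4773 v4769 v7664 w4329 v2743 v3757 v3759
theorem v7666 : PV l7666 := r7666 v1360 v6220 v7472 v7638 w3046 w3202 v7651
theorem v7667 : PV l7667 := r7667 v4655 v430 v5276 v5112 v5714 v7190 v7509 w4573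
theorem v7668 : PV l7668 := r7668 v4082 v2555 v6200 v6248 v6818 v2711 v7250 v3223 v4655 v432 v1254 w5407 v7366 v7415
theorem v7669 : PV l7669 := r7669 v6248 v6200 v2675 v2673 v4655 v432 v1254 v1138 v1242 v7667 v7668 v7495 v4598
theorem v7670 : PV l7670 := r7670 v6248 v7649 v6200 v2666 v7665 v3118 v2895 v1360 v2664 v3119 v5035 v7650 v3729 v4145 w5380 v4141 v7651 v2838 v5467 v7666 w3563 v7250 v6184 v4132 v4655 w4498 w3202 v4892 v2675 v5909 w5381 v3116 v2663 v4131 w8353 w3775 w3787 w8350 w5363 v2896 v3219 v432 w4479 v6818 v6886 v483 v3509 v2667 w8377 w3786 v6246 v4167 v4782 v4210 v3481 w5339 v2658 v4569 v4572 w4835 w4830 v7656 v1254 v3747 v3750 v6202 w8460 v4209 v5730 v4891 v7664 v7372 v3929 v1138 w5193 v4777 v3497 v7669 v7662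
theorem v7671 : PV l7671 := r7671 w3582 v4597 w9136 w9122
theorem v7672 : PV l7672 := r7672 v6248 w5407 v6200 v6818 v4655 w4498 v476 v3223 w3849 w9136 v6794 w8935
theorem v7673 : PV l7673 := r7673 v5034 v1140 v4655 v432 v1254 v1138 v1242 v7226 w3906 v3308 v5699 v7120 w3877 v3092 w3865 w5915
theorem v7674 : PV l7674 := r7674 w6315 v519
theorem v7675 : PV l7675 := r7675 v4525 v1140 v4655 v432 v3736 w876 v5697 w1748 v7673 w3964 w4033 w4036 v5854 w6112 v4059 w2687 v3043 v3977 v3282 v7674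
theorem v7676 : PV l7676 := r7676 v1140 v4655 v432 v1254 v5112 v1316 v4120 v7675 v7412 v5978 w3906 v5032 v6303 w2460
theorem v7677 : PV l7677 := r7677 v7402 v6595
theorem v7678 : PV l7678 := r7678 v5035 v7649 v7665 v7650 v3731 v6200 v2664 v3119 v6248 v2895 v3729 v4145 w5380 v7666 v1360 v4141 v7651 w3563 v7250 v5467 v4655 w4498 w3202 v4892 v2675 v2673 v2838 v6184 v4210 v3481 w5339 v6818 v2658 w5381 v3116 v5909 v2663 v4131 w8353 w3775 v4569 v4572 w8460 v2666 v3118 v4132 w3787 w8350 w4835 v3219 v432 w4479 v6886 v483 v3509 w4830 v7656 v1254 v3747 v3750 v428 v7664 v1218 w3817 w3218 v3216 v3929 v1138 w5193 v4769 v5776 w2775 v1140 v7677 v7670 v2614 w5363 v2896 v2667 w8377 w3786 v6246 v4167 v4782 v3497 v5276 v1357 v6202 v4209 v5730 v4891 v7372 v6191 w3039 w3717 w3459 v2850 w3438 w694 v4204 w2762 v4777 w3143 v430 w4463 w4799 v433 w4487 w4809 v7652 v4147 v5112 v2713 v7646 v6261 w5513 v4084 v4080 v7671 v7672 w3241 v7676 w6561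
theorem v7679 : PV l7679 := r7679 v6200 v6248 v6818 v4655 v432 w4479 w4498 v7649 v2664 v3219 v5276 v1360 v5035 v2895 v7665 v3119 v7650 v3729 v3731 v4145 w5380 v7666 v4141 v5467 v7651 v2838 w3563 w3202 v7250 v4892 v6184 v5730 v2675 v6886 v2673 v483 v3497 v7670 v7678 v6223 v6462 v5714 v2576
theorem v7680 : PV l7680 := r7680 v4132 v4130 w8350 w8505 w3807 w3798
theorem v7681 : PV l7681 := r7681 v3119 v3118 v3115 v7679 v4655 v6248 w4498 v7649 v6200 v2666 v2664 v2665 v1360 v5035 w4569 w4841 w4843 w4842 v3723 v4139 v4141 v5467 v7651 v2838 w3563 v7680 v5038 v6184 v7250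
theorem v7682 : PV l7682 := r7682 v3746 v3747
theorem v7683 : PV l7683 := r7683 v7649 v3929 v4655 v432 v1254 v1138 v1242 v5035 v2901 v2909 v4143 v4139 v7682 w4329 v2743 v3756 v3757
theorem v7684 : PV l7684 := r7684 v7681 v7649 v7679 v5035 v3727 v7683 v3119 v6200 v2664 v6248 v1360 w5380 v4141 v7651
theorem v7685 : PV l7685 := r7685 v4655 v428 w4520 v427 w4510 v501 v7649 v3929 v432 v1254 v5035 v3216 v4773 v3783 v3797 v5798
theorem v7686 : PV l7686 := r7686 v7681 v7649 v7679 v5035 v3727 v7683 v3119 v3118 v3117 v6200 v2667 v2666 v2664 v1360 v6217 v7250 v3484 w3563 w3564 w3565 v7684 w5487 w5488 w5489 w8817 v4145 w8801 w8798 v6536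
theorem v7687 : PV l7687 := r7687 v7681 v7649 v7679 v5035 v3727 v7683 v6200 v6248 v6818 v4655 v432 w4479 v3219 v4141 v7684 v5467 v2838 v6184 v6886 v3509 v483
theorem v7688 : PV l7688 := r7688 v7649 v3929 v4655 v432 v1254 v428 v427 v5035 w4525 w4534 v4145 v7685 v7682 v3762 v2904 v2903
theorem v7689 : PV l7689 := r7689 v7679 v7649 v6200 v2663 v6248 v5035 v3116 v7681 v3727 v7683 v7688 w5381 v4141 v7684 v7687 v7686 v5037 v6220 v4102 v5909 w3775 w8353
theorem v7690 : PV l7690 := r7690 v7649 v4655 v432 v1254 v1138 v1242 v7679 v5035 v7689 v3724 v3213 v3929 v2901 v2909 v3747 v3757 w4329 v2743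
theorem v7691 : PV l7691 := r7691 v7649 v7690 v7689 v7679 v3213 v7685 v4142 v3929 v4655 v432 v1254 v1138 v1242 v3757 v3759
theorem v7692 : PV l7692 := r7692 w4329 v2743
theorem v7693 : PV l7693 := r7693 v7649 v3929 v4655 v432 v1254 v1138 v1242 v5035 v7679 v7689 v3213 v3724 v7691 v7692 v3747 v7664 w3233 v3763 w3223
theorem v7694 : PV l7694 := r7694 v2895 v7649 v4655 v5035 w4569 v3723 v4139
theorem v7695 : PV l7695 := r7695 v7649 v5035 v2895 v7694 v3727 v7683
theorem v7696 : PV l7696 := r7696 v7695 v7693 v6243 v6325 v3935 v3934 v4655 v5113 v5587 w4498 v430 w4463 v473 v476 v7649 v432 v1254 v5035 w4569 w4570 w4842 v7650 v4141 v4147 v3723 v4106 w2912 v3027 v5277 v6668 v2641 v4591 v4802 v7563 v3113 v4100 v5623 v6253 w3572 w8505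
theorem v7697 : PV l7697 := r7697 v7563 v6263 v1218
theorem v7698 : PV l7698 := r7698 v7696 v7695 v7693 v6243 v6325 v3935 v3934 v4655 v433 v5113 v5587 w4487 w4498 v430 w4463 v473 v476 v7649 v3929 v432 v1254 v1138 v428 v5035 v3729 v3731 v4145 v2692 v6185 w5193 w5380 v4141 v4147 v4129 v4591 v4802 v7697 v5623 v3824 v5636 w3563 v3822 v4796 v4970 w2989 v4644 v6258 w8506 v641 v3126 v4769
theorem v7699 : PV l7699 := r7699 v6243 v6325 v4655 v430 v5113 v5587 w4463 v432 v1254 v428 v6895 v7697 v3222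
theorem v7700 : PV l7700 := r7700 v7693 v6243 v6325 v3935 v3934 v4655 v433 v5113 v5587 w4487 w4498 v473 v476 v7649 v3929 v432 v1254 v1138 v430 v5035 v7695 v7696 v7698 v3727 v7688 w5193 w5380 v4141 v4147 v7699 v5037 v4136 v5623 v6167 v3824 v4591 v4802 v5636 w3563 v3822 v4796 v4970 w2989 v4644 v6258 w8506 v641 v3126 v4769
theorem v7701 : PV l7701 := r7701 v7649 v4655 v432 v1254 v1138 v1242 v7700 v5035 v7665 v3724 v3213 v3929 v2901 v2909 v3747 v3757 w4329 v2743
theorem v7702 : PV l7702 := r7702 v7649 v4655 v432 v1254 v1138 v1242 v7700 v5035 v7665 v3724 v3217 v3929 v5798 v3792 v3783 v5796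
theorem v7703 : PV l7703 := r7703 v5035 v4655 v5112 v432 v1254 v1138 v1242 v7649 v3929 v7700 v3213 v3217 v7665 v3724 v7701 v7685 v4142 v7702 w2796 v5776 v2794 v7664 w4329
theorem v7704 : PV l7704 := r7704 v6132 v3451
theorem v7705 : PV l7705 := r7705 v3216 v5035 v4834 v4832 v7703 v3008 w4861 w4352 v4883 w4981 v1218 v4087 v4885 w2759 v7704 v3444 w6742 w6795
theorem v7706 : PV l7706 := r7706 v7703 v5989 v2992 v481 v3216 v3473 v3491 v3417 v495 w4568 w5193 v2721 v3408 w4725 w5195 v4888 v7705 v4880 v4882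
theorem v7707 : PV l7707 := r7707 v390 v5603 v3509
theorem v7708 : PV l7708 := r7708 v2590 w5512 w3582 w9147
theorem v7709 : PV l7709 := r7709 v2571 v7708 v2599 w5824 v5771 w3582 w8978
theorem v7710 : PV l7710 := r7710 v7190 w4574 v2587 v7509
theorem v7711 : PV l7711 := r7711 v2580 w5099 v2596 w6525 w6701
theorem v7712 : PV l7712 := r7712 v2571 v7711 v2601 v6049
theorem v7713 : PV l7713 := r7713 v6124 v2576 v2584
theorem v7714 : PV l7714 := r7714 v7190 v2571 w5824 v6099 v2544 v2578 w8936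
theorem v7715 : PV l7715 := r7715 v2713 w5193 w5195 v487 w3582 v6147 v6114
theorem v7716 : PV l7716 := r7716 w5193 w5195 v3422 v495 v2713 v7709 v4084 v7715 v5848 v2544 w5512 w9057
theorem v7717 : PV l7717 := r7717 v6062 w9011
theorem v7718 : PV l7718 := r7718 v5035 v4834 w5193 w5195 v3422 v3216 v4832 v4844 v2603 v7716 v2557 v7714 v4084 v7717 v2707 v4598 v4602
theorem v7719 : PV l7719 := r7719 w3582 v2586 w9024
theorem v7720 : PV l7720 := r7720 v2568 v7190 v2571 w5824 w5727 v7719 w3749 v2578 w8446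
theorem v7721 : PV l7721 := r7721 v5035 v4834 w5193 w5195 v3422 v3216 v4832 v4844 v2711 v2603 v7716 v2555 v2557 v7720 v4084 v7717 v2707 v4598 v4602
theorem v7722 : PV l7722 := r7722 v2589 v6326 w5512
theorem v7723 : PV l7723 := r7723 v7722 v6154 v2576
theorem v7724 : PV l7724 := r7724 v2561 w3582 w5512 w9153
theorem v7725 : PV l7725 := r7725 w5193 w5195 v3422 v495 v7703 v328 v2713 v7709 v4084 v6208 v7715 w6585 w2924
theorem v7726 : PV l7726 := r7726 w8334 w8640
theorem v7727 : PV l7727 := r7727 v5035 v4834 w5193 w5195 v3422 v3216 v4832 v4844 v2603 v7725 v2555 v2557 v2710 v7720 v4084 v7717 v2707 v4598 v4602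
theorem v7728 : PV l7728 := r7728 v2615 w5193 w5195 v3422 v495 v2713 v7712 v4084 v7715 v2619 v2544 v2539 w5512 w9033
theorem v7729 : PV l7729 := r7729 v5989 v3118 v481 v480 v5925 v2681 v7707 v7706 v2661 w5485 v4132 w8656 w3468 v3509 v3512 v5238 v4775 w4568 v495 v5035 v3491 v4856 v4847 v4854 v3216 v4832 v4844 v4834 v2615 v2614 v7728 v2555 v2557 v7723 v4084 v4082 v7724 v2563 w3749 v6039 w8707 w8821
theorem v7730 : PV l7730 := r7730 v3219 v7718 v7721 v3532 v3526
theorem v7731 : PV l7731 := r7731 v5989 v3118 v481 v480 v5925 v2681 v7707 v7706 v2661 w5485 v4132 w8656 w3468 v3509 v3512 v4775 v5035 v3491 v4856 v4854 v3927 v7703 v2987 v2668 v3223 v7729 v7730 v7726 v7727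
theorem v7732 : PV l7732 := r7732 w3582 v5771 w8978
theorem v7733 : PV l7733 := r7733 v2571 v7708 w4574 w5824 v7732 w2924 v2574 v5769
theorem v7734 : PV l7734 := r7734 w3582 v4610 v6045 w5824
theorem v7735 : PV l7735 := r7735 v7714 v7720 v2710 w6761 w8640
theorem v7736 : PV l7736 := r7736 w9178 w9011
theorem v7737 : PV l7737 := r7737 v3223 v2555 v2557 v7735 v4084 v7736 v2707 v4598 v4602
theorem v7738 : PV l7738 := r7738 v2713 v2615 w3582 w8947 v6114 w5826 v5683
theorem v7739 : PV l7739 := r7739 v2615 v3422 v2713 v7712 v4084 v7738 v2619 v2544 v2539 w5512 w9033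
theorem v7740 : PV l7740 := r7740 w5099 v6558
theorem v7741 : PV l7741 := r7741 v7740 v2576 v2584
theorem v7742 : PV l7742 := r7742 v2561 v2617
theorem v7743 : PV l7743 := r7743 v481 v480 v5989 v5925 v2681 v7707 v3491 v2668 v5035 v4832 v4844 v4834 v2614 v7739 v2555 v7741 v4082 v7742 v2563 w3749 v6039 w8707 w8821
theorem v7744 : PV l7744 := r7744 v2571 v7708 w5824 v7732 v2544 v2574 w8899
theorem v7745 : PV l7745 := r7745 v5035 v4834 w5193 w5195 v5989 v3118 v481 v480 v5925 v2681 v7707 v7706 v2661 w5485 v4132 w8656 w3468 v3422 v3509 v3512 v5238 v4775 w4568 v487 v495 v3491 v4856 v4847 v4854 v3927 v7703 v2987 v2668 v3216 v4832 v4844 v7731 v7743 v2603 v7737 v2713 v7744 v4084 v7734 v2544 w9057 w5511 w8892 v5848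
theorem v7746 : PV l7746 := r7746 v2713 v7744 v4084 v7734 v2544 w9057 w5511 w8892 v5848
theorem v7747 : PV l7747 := r7747 v5035 v4834 v3422 v3223 v4832 v4844 v2603 v7746 v2555 v2557 v7735 v4084 v7736 v2707 w8927 v4602 w5826
theorem v7748 : PV l7748 := r7748 w5193 w5195 v481 v480 v5989 v5925 v2681 v7707 v7706 v4775 w5485 w4568 v487 v495 v5035 v3491 v4856 v4847 v4854 v2661 v3927 v7703 v2987 v2668 v3216 v3118 v4132 v5238 v3509 w8656 v3512 w3468 v7745 v7747 v7729 v7743
theorem v7749 : PV l7749 := r7749 w8969 w9136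
theorem v7750 : PV l7750 := r7750 v2713 v7746 v7744 v4084 v7749 v2707 w9057 v5848 w5511
theorem v7751 : PV l7751 := r7751 v3444 v3223 v5035 v4832 v4844 v4834 v2603 v7750 v2555 v2557 v7737 v7735 v4084 v7736 v2707 w8927 v4602 w5826
theorem v7752 : PV l7752 := r7752 w3582 v6174 w8947 w5824
theorem v7753 : PV l7753 := r7753 v2615 v2713 v7712 v4084 v7752 v2619 v5514
theorem v7754 : PV l7754 := r7754 v2571 v7740 v7741 v5714 w5824 w8921 v2544
theorem v7755 : PV l7755 := r7755 w5193 w5195 v481 v480 v5989 v5925 v2681 v7707 v7706 v4775 w5485 w5462 w4568 v487 v495 v5035 v3491 v4856 v4847 v4854 v2661 v3927 v7703 v2988 v2987 v2668 v3118 v3115 v3223 v3219 v4832 v4844 v4834 v7748 v4236 v5434 v2809 v2810 w3465 w8656 w765 v4165 v765 v5991 v3444 v3336 w8681 v3532 v3524 w5754 w8376 v3527 v3526 v4913 w4455 w4763 v5268 v5274 w8640 v3515 w8372 w8771 v7751 v2615 v2614 v7753 v2555 v2557 v7754 v4082 v7742 v2563 w3749 v6039 w5406 w8707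
theorem v7756 : PV l7756 := r7756 v2713 v7746 v7750 v7744 v6208 w6714 w6585
theorem v7757 : PV l7757 := r7757 w3582 v4603 w9011 w5824
theorem v7758 : PV l7758 := r7758 v3223 v5035 v4832 v4844 v4834 v2603 v7756 v2555 v2557 v7735 v4084 v7757 v2544 v4602 w5824 v4598 w8927
theorem v7759 : PV l7759 := r7759 v2571 v7711 v2588 v2544 w5824 v5519 w8880
theorem v7760 : PV l7760 := r7760 w3582 w8947 w5826 w9122 v4597
theorem v7761 : PV l7761 := r7761 v2713 v7759 v4084 v7760 v2619 v5514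
theorem v7762 : PV l7762 := r7762 v2571 v7740 v7741 w5824 w8921 w9056
theorem v7763 : PV l7763 := r7763 v7724 v7742
theorem v7764 : PV l7764 := r7764 w5193 v7703 v3008 v7755 v1218 w4389 v5274 v1150 w5195 v481 v480 v5989 v5925 v2681 v7707 v7706 v4775 w4568 v487 v495 v5035 v3491 v4856 v4847 v4854 v3927 v2987 v2668 v4832 v4844 v4834 v3422 v7758 v2615 v2614 v7761 v2555 v2557 v7762 v4084 v4082 v7763 v2563 w3749 v6039 w8707 w8821
theorem v7765 : PV l7765 := r7765 v481 v480 v5989 v5925 v2681 v7707 v7706 v2661 v3118 v5035 v4834 v495 w5485 v7764 v2536 w3468 v4165 w8656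
theorem v7766 : PV l7766 := r7766 w3582 v2582 w8978
theorem v7767 : PV l7767 := r7767 v2568 v2571 v7708 w5825 w5727 v7766 w3749 v2574 w8778 w8381
theorem v7768 : PV l7768 := r7768 w5194 w5187 v3430 v490 v2713 v7767 v4084 v7734 v2544 w9057 w5511 w8892 v5848
theorem v7769 : PV l7769 := r7769 v481 v480 v5989 v2681 v7707 v7703 v2988 v2987 v2668 v3223 v3219 v5035 v4832 v4844 v4834 w5194 w4566 w5187 w5158 w5159 w5160 w4409 w4712 v2531 v5949 v3532 v1146 v2710 v3854 v5651 v3512 v4662 v3430 v7768 v2555 v2557 v7737 v7735 v4084 v7757 v4602 v4598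
theorem v7770 : PV l7770 := r7770 w6312 w6050
theorem v7771 : PV l7771 := r7771 v7117 v3304 v3308 v5827 v7053 w3891 v6060 v4074
theorem v7772 : PV l7772 := r7772 v5817 v4710 v4709
theorem v7773 : PV l7773 := r7773 v3366 v3314 v4831 v3936 w6869 w3243 w5092 w7001
theorem v7774 : PV l7774 := r7774 v7703 v4968 v342 v2876 v6108 v7069 v435 w4363 w4358 v4150 v4077 v7773 v3698 v3721 v4972 v4370 v4371 w3243 v1131 w2435 w2576 v4976 v3279 v6092 w5018 w7025 w7001
theorem v7775 : PV l7775 := r7775 v3681 v3208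
theorem v7776 : PV l7776 := r7776 v4086 v4525 v5034 v7703 v3008 w4389 v1217 w4255 v4087 v4970 w4240 w4395 w5099 w6732 v5035 v4856 v4847 v4854 w3946 w3964 w3888 v6059 w3907 v4057 v3303 v4031 v3089 v3090 w2569 w2542 v3088 v3992 v6112 v3286 v3282 v3203 w1656 v3205 v7770 w1528 w6014 w5096 v3986 v7774 v6190 v7775 v3688 v4340
theorem v7777 : PV l7777 := r7777 v7703 v3008 v4970 w4240 v1244 w4255 v4087 v7776 v2779 w3895 w3909 v7050 v6131 v5068
theorem v7778 : PV l7778 := r7778 v5030 v4761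
theorem v7779 : PV l7779 := r7779 v6048 w2463 w2449 v6156 v5050
theorem v7780 : PV l7780 := r7780 v7703 v3008 v4970 w4240 v1244 w4389 v1217 w4255 v4087 v5035 v4856 v4847 v5034 v4233 v7777 v4763 v7779 v3089 v7778 w4074 v4759 v4993
theorem v7781 : PV l7781 := r7781 v5049 v4538 v7200
theorem v7782 : PV l7782 := r7782 v7703 v3008 w4389 v1217 w4255 v4087 v4970 w4240 v5035 v4856 v4847 v4854 v7780 v7771 v7781 w4076 w3902 v5993 w5853 w5950
theorem v7783 : PV l7783 := r7783 v4150 v4077 v7773 v3698 v3721 v4370 v4371 v4972 v1131 w3243 w2435 w2576 v4976 v3279 v6092 w5018 w7025 w7001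
theorem v7784 : PV l7784 := r7784 v7703 v4968 v342 v2882 v2876 v6108 v435 v436 w4363 w4358 v7783 v1000 v3686 v4361
theorem v7785 : PV l7785 := r7785 v4086 v4525 v5034 v7703 v3008 w4389 v1217 w4255 v4087 v4970 w4240 w4395 w5099 w6732 v5035 v4856 v4847 v4854 w3946 w3964 w3888 v6059 w3907 v4057 v3303 v4031 v3089 v3090 w2569 w2542 v3088 v3992 v3286 v3282 v6112 v7770 v3203 w1656 v3205 w1528 w6014 w5096 v3986 v7784 v6190 v7775 v3688 v4340
theorem v7786 : PV l7786 := r7786 v7703 v3008 v4970 w4240 v1244 w4255 v4087 v7785 v2779 w3895 w3909 v7050 v6131 v5068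
theorem v7787 : PV l7787 := r7787 v7703 v3008 v4970 w4240 v1244 w4389 v1217 w4255 v4087 v5034 v4233 v7786 v4763 v7779 w2450 v7778 v4759 w3895 v5845
theorem v7788 : PV l7788 := r7788 v7118 w3907 v3303 v5049
theorem v7789 : PV l7789 := r7789 v7703 v3008 w4389 v1217 w4255 v4087 v4970 w4240 v5035 v4856 v4847 v4854 v7782 v7787 v7771 v7788 w4065 w3891 v5993 w5853 w5950
theorem v7790 : PV l7790 := r7790 v5034 w3946 w3888 v6059 v4057 v3089 w2569 w2542 v3992 v3286 v3282 v7770 w1528 w5883 w6014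
theorem v7791 : PV l7791 := r7791 v5034 v7790 v2779 w3895 v7050 v5068 v5050 w2449
theorem v7792 : PV l7792 := r7792 v4087 v5034 v4233 v4086 v7791 v4763 v7779 w2450 v7778 v4759 v5024 v5021
theorem v7793 : PV l7793 := r7793 w3938 w3907 v5863 v6060
theorem v7794 : PV l7794 := r7794 w4240 v7117 v3308 v7793 w4065 v4004 v4003
theorem v7795 : PV l7795 := r7795 w3907 v7788 v7781
theorem v7796 : PV l7796 := r7796 v7703 v3008 v4970 w5099 w6732 v5035 v4856 v4847 v4854 w4255 w4389 w4395 w4240 v4087 v1217 v1244 v7789 v7792 v7794 v7795 w4065 w3891 v5993 w5950 w6775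
theorem v7797 : PV l7797 := r7797 v6190 v7775 v3688 v4340
theorem v7798 : PV l7798 := r7798 v7774 v7784
theorem v7799 : PV l7799 := r7799 v6095 v6093 v442
theorem v7800 : PV l7800 := r7800 v7797 v3240 v3242 v7619 v7799
theorem v7801 : PV l7801 := r7801 v3721 v3696 v4368 v4369 v508 v3073 w5970 w5942
theorem v7802 : PV l7802 := r7802 v4831 v4365
theorem v7803 : PV l7803 := r7803 w1656 v3303 v3205 v4086 v4525 v5034 w5099 v2711 v3286 v3282 v7770 v3846 w1528 w6014 w5096 w4228 w4225 w4227 v3986 v4720 v4031 v7798 v4747 v3080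
theorem v7804 : PV l7804 := r7804 w1649 w1653 v3303 v5034 v1244 w3907 w2450 w2443 v4031 w6227 v3088 v684 v7801 v4050
theorem v7805 : PV l7805 := r7805 w5869 v507
theorem v7806 : PV l7806 := r7806 v5068 v4055
theorem v7807 : PV l7807 := r7807 w4044 v342 w1656 v4068 v7069 v4150 v4077 v7773 v3721 v4371 v4972 w2575 v1131 w5870
theorem v7808 : PV l7808 := r7808 v3286 v3282 v3980 v7770 w5095 w1528 w6014
theorem v7809 : PV l7809 := r7809 v3240 v2882 v342 v435 v436 v6064 v4764 v4674 v4351 v4348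
theorem v7810 : PV l7810 := r7810 v3686 v5069
theorem v7811 : PV l7811 := r7811 v342 v3365 v3314 v4831 v7802 v4363 v3936 v7069 w9051 w3243 v4077 w5090 w7001
theorem v7812 : PV l7812 := r7812 v4763 v5034 v3008 v4970 v3089 v7778 w4074 v4759 v4993
theorem v7813 : PV l7813 := r7813 w2488 v4518 w4071 w4066 w4076 w4082 v4520 v4550 v5049 v4538 v6166
theorem v7814 : PV l7814 := r7814 v4756 v4758
theorem v7815 : PV l7815 := r7815 v3240 v7809 v439 v6074 v5057 v3676
theorem v7816 : PV l7816 := r7816 v6108 v435 v342 v3721 v4367 v5034 w4363 v4972 w5099 w6732 v7703 v3089 w2569 v5068 w2542 v7806 v7803 w1648 v3992 w4052 w4051 w4050 v7804 v7805 w3890 w2573 w6227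
theorem v7817 : PV l7817 := r7817 v4057 v7807
theorem v7818 : PV l7818 := r7818 v5034 v6108 w4363 v435 v3205 v2876 w5099 w6732 v7816 v7817 v3308 v1073 v713 v5050 v4049 v5022
theorem v7819 : PV l7819 := r7819 v6108 w4363 v435 v342 v3721 v4972 v7703 v4233 v4371 v7818 v3697 v7812 w2575 v1131 w6137 w5890
theorem v7820 : PV l7820 := r7820 v3308 w2488 v4074 v4004 w4065
theorem v7821 : PV l7821 := r7821 v3308 v1131 v3698 w5870 v728 w4043 w4053 w6115 v3992 v5864
theorem v7822 : PV l7822 := r7822 v7117 w1655 w1650 v7820 w2575 w2574 v7821 w39 v4357 v728 v3696 w6083 w7011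
theorem v7823 : PV l7823 := r7823 w5099 w6732 v2711 v5035 v4856 v4847 v4854 v3216 v7703 v3008 v328 v4970 v7796 v7800 v342 v2882 v2873 v7815 v3200 v3203 v3205 v6108 v435 v436 w4363 v7811 v3686 v3721 v3715 v7810 v4344 v4972 v7819 w12 v7822 v3695 v1124 w1648 v7813 v7814 v4552 w4065 v4523 v4517
theorem v7824 : PV l7824 := r7824 v4828 v3365 v4316 v7069 w7008 w9051
theorem v7825 : PV l7825 := r7825 v3286 v3282 v7770 w1528 w6280 w6014
theorem v7826 : PV l7826 := r7826 v435 v3721 v4367 v5034 v3089 w2569 v5068 w2542 v7806 v7825 w1648 v3992 w4052 w4051 w4050 v7804 v7805 w3890 w2573 w6227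
theorem v7827 : PV l7827 := r7827 v1073 w2568 w2540 v7825
theorem v7828 : PV l7828 := r7828 v435 v3721 v4371 v4972 v7826 w2575 v7827 v3308 w1655 v4057 v1131 w4044 w5870
theorem v7829 : PV l7829 := r7829 w2569 w2542 v7825 v3308 v4761 v4759
theorem v7830 : PV l7830 := r7830 v435 v3721 v4972 v4233 v4086 v4371 v7828 v3697 v7829 w2575 v1131 w6137 w5890
theorem v7831 : PV l7831 := r7831 v3008 v328 v7117 v7822 v3304 v3308 w4250 v4971 v2770 v7053 v4087 w3906 v4074 v6060
theorem v7832 : PV l7832 := r7832 v4763 v328 v3089 w2488 w2527 v4518 w8633 w4102 v4520 w4154 w4158 v5000 v4550 v4743 v5063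
theorem v7833 : PV l7833 := r7833 v5238 v481 v480 v5989 v5925 v2681 v7707 v3491 v3473 v2991 v2992 v2668 v342 v2882 v2873 v7815 v3200 v3199 v6108 v435 v436 w4363 v7824 v3686 v3721 v3715 v7810 v4344 v4972 v7830 w12 v4432 v7831 v3962 v3695 v1124 w1648 w1660 v7832 v7814 v4552 w4155 w8633 w5908
theorem v7834 : PV l7834 := r7834 v7703 v5989 v2990 v3219 v3835 v5238 v481 v480 v5925 v2681 v7707 v3491 w5099 w6732 v2711 v5035 v4856 v4847 v4854 v3473 v2992 v2668 v3216 v7823 v7833 v7797 v3240 v3242 v7137 v7799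
theorem v7835 : PV l7835 := r7835 v5034 v6108 v435 v342 w5099 w6732 v7703 v3089 w2569 v5068 w2542 v7806 v3303 v7803 v3992 w4052 w4051 v7804 v1268 w3890 w2461 w6227 v4031 w2442 v2786 v4087
theorem v7836 : PV l7836 := r7836 v5034 v7835 v6476 v3308 v1073 v713 v5050 v4049 v5022
theorem v7837 : PV l7837 := r7837 v6108 w4363 v435 v342 v3721 v4972 v7703 v4233 v4371 v7836 v3697 v7812 w2575 v1131 w6137 w5890
theorem v7838 : PV l7838 := r7838 v3304 v7053 v5827 v4039 w6115 v5267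
theorem v7839 : PV l7839 := r7839 v4039 v4041
theorem v7840 : PV l7840 := r7840 v4087 v4618
theorem v7841 : PV l7841 := r7841 v2882 v7815 v3203 v6108 v7837 v436 v4830 v4362
theorem v7842 : PV l7842 := r7842 v4827 v4636
theorem v7843 : PV l7843 := r7843 v3240 v435 v436 w4363 v4675 v4363 v3720 v339 v2866 v3710 w9149 w5076 v4353 v3702
theorem v7844 : PV l7844 := r7844 v2972 v7797 v3240 v3242 v3188 v7619 v7842 v3668 v7843 v441 v439 v4825 v3649 v1233
theorem v7845 : PV l7845 := r7845 v7117 v3304 v7820 v7839 v3075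
theorem v7846 : PV l7846 := r7846 v5035 v4834 v7840 w5099 w6732 w5511 v4856 v4847 v4854 v3216 v4832 v4844 v7703 v3008 v328 v4970 v7844 v2873 v7815 v7841 v3200 v3205 v6108 v435 w4363 v7811 v3686 v5069 w12 v7845 v3695 v1124 w1648 v7199 w5897 w6423
theorem v7847 : PV l7847 := r7847 v5034 v435 v7827 v3308 v6958 v6476 v3089 w2442 v3992 w6227 w4052 w4051 w3890 v7804
theorem v7848 : PV l7848 := r7848 v435 v3721 v7840 v4233 v4086 v4371 v7847 v3697 v7829 w2575 v1131 w6137 w5890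
theorem v7849 : PV l7849 := r7849 w2549 v4074 w5991 w4193
theorem v7850 : PV l7850 := r7850 v3008 v3770 v7117 v3304 v3308 w1738 v7849 v3075 v7838 v4039 v4971 v4069 w4076 v2786 v4004 w3888 v3094 w6115
theorem v7851 : PV l7851 := r7851 v7840 v2993 v342 v2873 v7815 v3200 v6108 v435 w4363 v7824 v3686 v5069 v3721 v4972 v7848 v4184 w12 v7850 v3695 v1124 w1648 v7199 w5897 w6423
theorem v7852 : PV l7852 := r7852 v4634 v4825
theorem v7853 : PV l7853 := r7853 v5989 v5925 v3219 v2681 v3117 v4183 v481 v480 v7707 w3556 v2662 v3927 v2603 v2571 v2713 v3491 w3582 w9147 w8978 w8525 v7732 w5511 w5348 v3532 v2711 w5368 w5343 w9075 v7703 v2996 v4767 v4779 v5035 v4856 v4847 v4854 v3473 v2990 v2992 v2668 v3216 v4832 v4844 v4834 w4899 w5099 w4896 w4724 w4722 w4717 v3768 w6732 v3835 v5651 v5238 v3512 v2844 v4662 v7834 v7846 v7851 v2971 v7797 v3242 v7137 v7852 w6912 w6813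
theorem v7854 : PV l7854 := r7854 w4364 w4369 w8641 w1182 w6897 w6862
theorem v7855 : PV l7855 := r7855 v5034 v3008 v430 v4970 v3089 v5068 w2549 v7806 w3952 w4036 w4017 v3986 w6247 v3320 w1764 v5713
theorem v7856 : PV l7856 := r7856 v5034 v3008 v430 v4970 v427 v328 v3089 w2488 v5068 v7806 w3952 w4036 w3938 v3986 v3998 v3320 v3282 v5713
theorem v7857 : PV l7857 := r7857 v1073 v3286 v3282 w2540 v7770 v7171 w1528
theorem v7858 : PV l7858 := r7858 v3008 v430 v4971 v428 v1217 v7856 w2691 v3075 w2449 v7857 v3304 v3308 v5678 v4057 v5655 w3906 w3897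
theorem v7859 : PV l7859 := r7859 v5000 v4998
theorem v7860 : PV l7860 := r7860 v5034 v3008 v430 v4970 v4967 v3089 v7859 v3308 v4761 v4759
theorem v7861 : PV l7861 := r7861 v4967 v7840 v3008 v430 v4971 v4970 v428 v1217 v4233 v4086 v7830 w6732 v7858 v3321 v7860 w2691 v7171 v5671 v6162
theorem v7862 : PV l7862 := r7862 v7117 v7771 v3304 v3308 v7838 v7053 v4074 w3906
theorem v7863 : PV l7863 := r7863 w2527 v7832 w6028 w4295 w4154 v7795
theorem v7864 : PV l7864 := r7864 v4432 w12 v7862 v3962 v3695 v1124 w1648 w1660 v7863 v3075 v5045 v4533 v4538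
theorem v7865 : PV l7865 := r7865 v7856 v6476 w2691 v3308 v7857
theorem v7866 : PV l7866 := r7866 v4967 v7840 v3008 v430 v4971 v4970 v428 v1217 v2991 v2992 v342 v2882 v2871 v2873 v2875 v7815 v3200 v3197 v3199 v6108 v435 v436 v7824 v3686 v3721 v3715 v4347 v4346 v7854 v4972 v7864 v4233 v4086 v7861 v7848 w6732 v7865 v3321 v7860 w2691 v7171 v5671 v512
theorem v7867 : PV l7867 := r7867 v7703 v4966 v2711 v3219 v5651 v5434 v3494 v2836 v4132 v3512 w8504 w4824 v7866 v2971 v7797 v3240 v3242 v7137 v7799 v7852 w6912 w6813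
theorem v7868 : PV l7868 := r7868 v3240 v3242 v7815 v6091 v7799 v3680 v4341
theorem v7869 : PV l7869 := r7869 v1244 v4967 v7840 v3008 v430 v4970 v428 v1217 v5034 v4233 v4086 v7830 v7858 v4763 v7860 v7779
theorem v7870 : PV l7870 := r7870 v3291 v7859 v4518 w29 v4520 w6290 w8632
theorem v7871 : PV l7871 := r7871 v328 v3089 w2488 w2529 v7870 v4710 v4708
theorem v7872 : PV l7872 := r7872 v4967 v3008 v428 v1217 v430 v4971 v7868 v3197 v1244 v7840 v4970 v4966 v2991 v2992 v7797 v6108 v342 v2882 v2871 v2873 v2875 v436 v7824 v3715 v4347 v4346 v7854 v7869 v7862 v4763 v3960 v7871 v7814 w2463 w2449 v7779 v6156 v4542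
theorem v7873 : PV l7873 := r7873 v3219 v5434 v4243
theorem v7874 : PV l7874 := r7874 v3008 v430 v4971 v428 v1217 v4967 v7868 v7872 v3200
theorem v7875 : PV l7875 := r7875 v3242 v1232 v7842 v4317 v4321
theorem v7876 : PV l7876 := r7876 v3008 v430 v4970 v7856 v7865 v6476 v7827 v3308
theorem v7877 : PV l7877 := r7877 v7852 w6912 w6813
theorem v7878 : PV l7878 := r7878 v3242 v7815 v2971 v7875 v7877 v3680 v3672
theorem v7879 : PV l7879 := r7879 v435 v3721 v3205 v3008 v430 v4970 v4967 v4233 v4086 v4371 v7848 v7876 v3321 v3697 v7860 w2575 w2691 v1131 v7171 w1671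
theorem v7880 : PV l7880 := r7880 v480 v5989 v5925 v2681 v3117 v4183 v481 v7707 w3556 v2662 v3927 v2603 v2571 v2713 v3491 w3582 w9147 w8978 w8525 v7732 w5511 w5368 v3219 w5348 v3532 v7873 v3509 v3512 v5238 v2711 w4834 w9075 v7703 v2996 v2994 v4767 v4779 v5035 v4856 v4847 v4854 v2661 v3473 v2991 v2992 v2668 v3216 v3118 v4832 v4844 v4834 v3008 v7853 v428 v430 v4966 v4967 v1217 v4970 v4971 v7840 v7867 v3801 v3768 w4352 w5013 w4333 v7874 v7878 v3200 v3197 v7797 v342 v2882 v2871 v2873 v2875 v6108 v435 v436 v7824 v3721 v3715 v4347 v4346 v7854 v4972 v7879 v7862 v3960 v7871 v7814 w2463 w2449 v6156 v5050 v6130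
theorem v7881 : PV l7881 := r7881 v3240 v3242 v7815 v7799 v7137
theorem v7882 : PV l7882 := r7882 v6077 v435 w4363 v7824 v7811
theorem v7883 : PV l7883 := r7883 v3661 v4826
theorem v7884 : PV l7884 := r7884 v2882 v342 v435 v436 w5035 w5038 w4363 v3686 v3721 v3715 v4972 v4077 v4347 w3243 v7883 v3241 v3187 v4672 v3646 v3647 v3313 w6862 w7001 w5091
theorem v7885 : PV l7885 := r7885 v439 w5082 w5079 v3678 v5057 w6888 v3192 w385 w6897 w6880
theorem v7886 : PV l7886 := r7886 w4409 v1146 v7840 v3423 v3216 v7881 v3200 v3201 v3205 v7797 v342 v2882 v2873 v2874 v2875 v7882 v3669 v7885 v435 v436 w4363 v7810 v3686 v7884 v3721 v3715 v4972 v7830 v4344 v7831 v3960 v7871 v3075 v5045 v4533 v4538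
theorem v7887 : PV l7887 := r7887 v3242 v7815 v2971 v7137 v7877
theorem v7888 : PV l7888 := r7888 v7840 w5511 v3423 v2993 v3216 w4409 w5099 w4896 v1146 w6732 v7886 v7887 v3200 v3201 v3205 v7797 v342 v2873 v2874 v2875 v7882 v3669 v7885 v435 w4363 v7810 v7884 v3721 v4972 v7848 v4184 v7850 v3960 v7871 v3075 v5045 v4533 v4538
theorem v7889 : PV l7889 := r7889 v6077 v7824
theorem v7890 : PV l7890 := r7890 v3008 v430 v4971 v4970 v428 v1217 v7862 v3960 v7871 v3075 v5045 v4533 v4538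
theorem v7891 : PV l7891 := r7891 v7703 v3008 v430 v4971 v4970 v428 v1217 v4138 v2996 v2994 v5035 v4856 v4847 v4854 v2992 v3216 v7868 v3200 v3201 v3197 v7797 v342 v2882 v2871 v2873 v2874 v2875 v7889 v3669 v7885 v436 v3715 v4347 v4346 v7854 v7861 v7830 v3801 v3768 w6732 w4352 w4333 v7869
theorem v7892 : PV l7892 := r7892 v5035 v4834 v480 v3117 v4183 v481 v5989 v5925 v2681 v7707 w3556 v2662 v3927 v2603 v2571 v2713 v3491 w3582 w9147 w8978 w8525 v3423 v7732 w5511 w5368 v3219 w5348 v3532 v7873 v3509 v4662 v7840 v2844 v3512 v5238 v2711 w4834 w9075 v4138 v4767 v4779 v4856 v4847 v4854 v2661 v3473 v7703 v2991 v2992 v2668 v3216 v4832 v4844 v3008 v7880 v7888 v428 v430 v1217 v4970 v4971 v7890 v7891 v7878 v3200 v3201 v3197 v7797 v342 v2882 v2871 v2873 v2874 v2875 v7889 v3669 v7885 v435 v436 v3721 v3715 v4347 v4346 v7854 v4972 v7848 v7879 w6732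
theorem v7893 : PV l7893 := r7893 v3240 v3242 v7815 v7799 v2868 v4315 v7088 v7160 v439 v4324 v4764 v3650 v6072
theorem v7894 : PV l7894 := r7894 v3685 v3686
theorem v7895 : PV l7895 := r7895 v3216 v3200 v3201 v3205 v7797 v2873 v2874 v2875 v7882 v3669 v7885 v7894
theorem v7896 : PV l7896 := r7896 v2571 v2713 v4183 v4138 v3423 v3927 v2603 v481 v480 v5989 v5925 v2681 v7707 w3556 v4767 v4779 v5035 v3491 v4856 v4847 v4854 v2662 v3473 v2668 v3117 v3219 v4834 v7703 v3008 w3582 w9147 w9075 w8978 v7732 w8525 w5511 w5348 w5368 v3532 v7873 v5238 v3509 v3512 v2844 v4662 v7892 v1218 v428 v1150 w5103 w6732 v7895 v3240 v3242 v7815 v7893 v2971 v2868 v7877 v4315 v7088 v7160 v439 v4324 v4764 v3650 v3672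
theorem v7897 : PV l7897 := r7897 v2713 v3927 v2603 v5035 v481 v480 v5989 v5925 v2681 v7707 v3491 v4856 v4854 v2571 v7896 v2590 v2544 w5825 v2574 w8899
theorem v7898 : PV l7898 := r7898 v2713 v2544 v7749 v7734
theorem v7899 : PV l7899 := r7899 v3242 v3240 v7809 v441 v439 v5057 v3652 v4318 v1233
theorem v7900 : PV l7900 := r7900 v3240 v3242 v7868 v7899 v7875 v7799 v6072 v3680
theorem v7901 : PV l7901 := r7901 v5034 v3089 v5068 v7806 w2569 w3952 w4036 w3945 v3986 v3992 v3320 v3282 w6295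
theorem v7902 : PV l7902 := r7902 v1073 v3286 v3282 w2540 w2568 v7770 w1528 w6295 w6032
theorem v7903 : PV l7903 := r7903 v4967 v7840 v7828 v7901 v3075 w2449 v7902 v3304 v3308 v5678 v4057 v5655 w3906 w3897
theorem v7904 : PV l7904 := r7904 v4967 v7900 v435 v3721 v3197 v7840 v7890 v7854 v5034 v4233 v4371 v4972 v7903 v4763 v3697 v7860 w2575 w2449 v1131 w1656 v5033 v5029 v5050 v5022
theorem v7905 : PV l7905 := r7905 v435 v3721 v4371 v4972 v7903 v3697 v7860 w2575 v1131 w6852 w5890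
theorem v7906 : PV l7906 := r7906 w4364 w4370 w8641 w1184 w6851 w6890
theorem v7907 : PV l7907 := r7907 v4233 v7905
theorem v7908 : PV l7908 := r7908 v4074 v4073
theorem v7909 : PV l7909 := r7909 v7117 v3304 v3308 v7908 v3075 v6290 v4039
theorem v7910 : PV l7910 := r7910 v7703 v4967 v7900 v3197 v3200 v7840 v4966 v4138 v2661 v2660 v2991 v2992 v342 v2882 v2871 v2873 v2874 v2875 v2877 v7069 v7889 v4151 v3669 v7885 v436 v3715 v4347 v4346 v7904 v7906 v7907 v7909 v3960 v7871 v3075 v5045 v4533 v4538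
theorem v7911 : PV l7911 := r7911 v3637 v4340 v4226 w6933 w8808
theorem v7912 : PV l7912 := r7912 v481 v480 v5989 v5925 v2681 v7707 v7706 v3491 v5035 v4856 v4854 v7765 v4767 v3927 v2603 v7769 v4785 v4189 v4593 v494 v3423 v4779 v4847 v3473 v4129 v2808 v2668 v3216 v3119 v3219 v4832 v4844 v4834 v7703 v2713 v7897 v4084 v7898 v2707 w3241 w9057 w9166 w6585 w6342 v1594 v5848 w5355 w4843 w5385 w5099 w5100 w5101 w5103 v3532 v4966 v4967 v4968 v4969 v1210 v1209 v2711 v7873 v5238 v3509 v3512 v7900 v3201 v3199 v7910 w3280 v7797 v6190 v7911 v3681 v3682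
theorem v7913 : PV l7913 := r7913 v481 v480 v5989 v5925 v2681 v7707 v7706 v7765 v4767 v5035 v3491 v4856 v4854 v3927 v7703 v2987 v2668 v3223 v4832 v4844 v2603 v7769 v4785 v7912 v2555 v2557 v7737 v7735 v4084 v7757 v4602 v4598
theorem v7914 : PV l7914 := r7914 v2571 v7759 v6261 w5825 w8958 v2707 w8880 v5519
theorem v7915 : PV l7915 := r7915 w5825 w9122 v2539 v2707
theorem v7916 : PV l7916 := r7916 v5989 v2681 v480 v3219 v7703 w5194 w4566 w5159 w5160 w4409 v5949 v3532 v1146 v7873 v5651 v4662 v7914 v4084 v7915 w5512 v20 v2619 v2707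
theorem v7917 : PV l7917 := r7917 v7703 v2996 w4899 v7761 v3768
theorem v7918 : PV l7918 := r7918 v5514 v2596
theorem v7919 : PV l7919 := r7919 v7918 v2580 v2601
theorem v7920 : PV l7920 := r7920 v2713 v2615 v4779 v5035 v4834 v7703 v3008 v7916 v494 v4593 v3423 v7917 v428 v1218 v7919 v4084 v7760 v2619 v5514
theorem v7921 : PV l7921 := r7921 v4165 v4785 v4164 w5446 w5447 w8798 w8656 w8799
theorem v7922 : PV l7922 := r7922 w4566 v7762 v4084 v4082 v7763 v2563 w3749 v6039 w8707 w8821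
theorem v7923 : PV l7923 := r7923 v2581 v6558 w3582 w5818 w9056
theorem v7924 : PV l7924 := r7924 v2571 v7762 v4966 v7923 v6211 v2584
theorem v7925 : PV l7925 := r7925 w3582 v7742 w9153
theorem v7926 : PV l7926 := r7926 w3749 v6039 w8707 w8821
theorem v7927 : PV l7927 := r7927 v7887 v7893
theorem v7928 : PV l7928 := r7928 v436 v435 v2882 v342 v3365 v7802 v4831 v4363 w9051 w5076 w5080 v6069
theorem v7929 : PV l7929 := r7929 v7883 v3187 v3098 v4672 w6990 v3647 w5091 w6862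
theorem v7930 : PV l7930 := r7930 v2882 v342 v435 v436 w4363 v7928 v3315 v3686 v3721 v3715 v4078 v4972 v4347 w3243 v7929 v5057 v3653 v4349 w5035 w5032
theorem v7931 : PV l7931 := r7931 v3423 v3216 v7927 v3200 v3201 v7797 v2873 v2874 v2875 v7930 v6077 v7885 v3669
theorem v7932 : PV l7932 := r7932 v7893 v7815 v7844
theorem v7933 : PV l7933 := r7933 v7894 v7928
theorem v7934 : PV l7934 := r7934 v3423 v2557 v2555 v2614 v2615 v3216 v3219 w5099 v7926 v2708 v7742 v7925 w8839 w6749 w5511 w5406 w5408 w6616 w6455 v3532 v5651 v7873 v3494 v2844 v4662 v3512 v7931 v7932 v3200 v3201 v7797 v2873 v2874 v2875 v7933 v6077 v7885 v3669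
theorem v7935 : PV l7935 := r7935 v2563 v2561
theorem v7936 : PV l7936 := r7936 v481 v480 v5989 v5925 v2681 v7707 v7706 v7765 v4767 v4779 v5035 v3491 v4856 v4847 v4854 v2662 v2661 v3473 v2668 v3216 v3118 v3117 v4832 v4844 v4834 v7703 v3008 v2994 w3556 v7913 v2615 v2614 v7921 v4138 v7920 v2555 v2557 v7922 v494 v4593 v4189 v7924 v4084 v4082 v7935 v7926 v7742 v4970 v430 w4865 v7934 v3801
theorem v7937 : PV l7937 := r7937 v4446 v3532 v4181 w5353 w8375
theorem v7938 : PV l7938 := r7938 w3469 w3467 w3468 v3118 v3117 v3115 v3223 v3219 v4183 v3439 v3444 v2536 v3419 w8679 v1218 w8374 v1150 w4689 w4685 w8640 w8592 v7937 v3336 v1102 v668 w8607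
theorem v7939 : PV l7939 := r7939 v5035 v481 v480 v5989 v5925 v2681 v7707 v3491 v4856 v4854 v7706 v2662 v2661 v7703 v2988 v2987 v3118 v3117 v3115 v4834 v3008 v7936 w3468 w3467 w3469 v7938 v4165 v4164 v4163 w8656 w8350 v34 v768 v6273
theorem v7940 : PV l7940 := r7940 v495 v487 v7756
theorem v7941 : PV l7941 := r7941 v3240 v4764 v7842 v4327 v4331
theorem v7942 : PV l7942 := r7942 v7799 v7877
theorem v7943 : PV l7943 := r7943 v3240 v3242 v7815 v7927 v2971 v7941 v7942 v3672 v3680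
theorem v7944 : PV l7944 := r7944 v5034 v3282 w6034 v7207 w3947 w3891 v3320 v4060 v3986
theorem v7945 : PV l7945 := r7945 v5034 v1145 v1210 v3008 v1149 v3089 w2442 v7944 v3308 v3992 v4055 w3945
theorem v7946 : PV l7946 := r7946 v5034 v1145 v1209 v7945 w2449 v7779 v6465 v4045 v4049
theorem v7947 : PV l7947 := r7947 v4087 v1145 v1209 v5034 v4086 v7946 v4763 v7860 v7779
theorem v7948 : PV l7948 := r7948 w12 v7862 v3695 v7795 v1124 w4041 w5903 w6021
theorem v7949 : PV l7949 := r7949 v5034 v7945 v6476 w2463 w2449 v7120 v6156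
theorem v7950 : PV l7950 := r7950 v7703 v4966 v7797 v2882 v342 v3205 v4967 v1244 v4087 v1145 v1209 v1210 v435 v436 v3686 v3721 v3715 v4150 v4347 v4346 w6889 v7854 w4367 v4972 v7948 v4086 v4371 v7947 v7949 v3321 v3697 v7860 v7207 w2575 w1671 v1131
theorem v7951 : PV l7951 := r7951 v7063 v3678
theorem v7952 : PV l7952 := r7952 v4967 v1244 v4087 v1145 v1209 v7947 v7862 v4763 v3960 v7871 w2449 v7779 v6048 v4542 v4546
theorem v7953 : PV l7953 := r7953 v4087 v4086 v4371 v7949 v3321 v3697 v7860 v7207 w2575 w1671 v1131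
theorem v7954 : PV l7954 := r7954 v7703 v4967 v4966 v3216 v2994 v3794 w4352 v4087 v2996 v3759 w4333 v1145 v1209 v1210 v5035 v4856 v4847 v4854 v2661 v5989 v2681 v2991 v2668 v480 v5238 v3509 v3512 v7943 v3200 v3203 v3197 v3205 v7797 v342 v2882 v2871 v2873 v2875 v2876 v7889 v3670 v7951 v435 v436 v7950 v3721 v3715 v4347 v4346 v7854 v4972 v7952 v7953 v7862 v3960 v7871 w2463 w2449 v6488 v6156 v7120 v6130
theorem v7955 : PV l7955 := r7955 v2571 v3216 v3927 v4794 v2730 v2603 v481 v480 v5989 v2681 v7707 w3556 v7703 v1145 v1210 v2662 v2988 v3223 v3219 w9147 w9075 w8978 w8525 w4834 w5348 w5368 v3532 v7954 v5434 v3856 v4248 v3859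
theorem v7956 : PV l7956 := r7956 v5035 v4856 v4854 v7955 v2707 v2590 v2574
theorem v7957 : PV l7957 := r7957 v5034 v4055 w3952 w4036 w3945 v3986 v3992 v3320 v3282 w6295
theorem v7958 : PV l7958 := r7958 v3089 w2569 v7957 v4060 v7227
theorem v7959 : PV l7959 := r7959 v5034 v1145 v1209 v1210 v3008 v1149 v7946 v7958 w2449 v7779 v6465 v4045 v4049
theorem v7960 : PV l7960 := r7960 v4087 v1145 v1209 v5034 v7959 v4763 v7860 v7779
theorem v7961 : PV l7961 := r7961 v4763 v3960 v7871 w2449 v7779 v6048 v4542 v4546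
theorem v7962 : PV l7962 := r7962 v4967 v4966 v1244 v4087 v1145 v1209 v7960 v4184 v7961 v7850 v7909
theorem v7963 : PV l7963 := r7963 v5034 v4055 w3952 w4036 w3945 v3986 v3992 v3320 v3282 w6280
theorem v7964 : PV l7964 := r7964 v3089 w2569 v7958 v7963 v4060 v7227
theorem v7965 : PV l7965 := r7965 v5034 v1145 v1209 v1210 v3008 v1149 v7964 w2463 w2449 v6465 v7120 w3971 w3979 w3915 v5659
theorem v7966 : PV l7966 := r7966 v1244 v4087 v1145 v1209 v7965 v4763 v7860 v6048 v5033 v5029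
theorem v7967 : PV l7967 := r7967 v3219 v4763 v3960 v3962 v7871 v6048 v3269 v4552 w4155 w5908 w6028
theorem v7968 : PV l7968 := r7968 v4967 v4966 v1244 v4087 v1145 v1209 v5989 v2681 v2991 v2668 v480 v5238 v3509 v3512 v7962 v7966 v4432 v4184 v7967 v7850 v7909
theorem v7969 : PV l7969 := r7969 v2713 v7703 v2996 v3759 w5004 w4996 w4333 v3216 v2994 v3794 w4352 v1145 w4555 v5035 v4834 v3422 v3423 v2993 v1210 v4856 v4847 v4854 v3927 v5989 v2681 v4129 v2808 v2988 v480 v3119 v3117 v3223 v3219 v4832 v4844 v3008 v2603 v7940 v4779 v4767 w4865 w4899 w5501 w5502 v4970 v4971 v2730 v4794 v7956 v4084 v7898 w3241 w9057 w9166 w6585 w6342 v1594 w5355 w5385 w4813 v3532 v7968 v5434 v3856 v4248 v3859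
theorem v7970 : PV l7970 := r7970 v2596 v6049
theorem v7971 : PV l7971 := r7971 v2580 v2601
theorem v7972 : PV l7972 := r7972 v2615 v2713 v2571 v7971 w5512 v6049 v7970 w3582 w9132
theorem v7973 : PV l7973 := r7973 v2615 v2713 v3422 v3423 v7972 v4084 v7760 v2619 v2544 v2539 w5512 w9033
theorem v7974 : PV l7974 := r7974 v2571 v7971 v7970
theorem v7975 : PV l7975 := r7975 v7703 v1145 w4555 v5035 v4834 v3422 v3423 v1210 v4856 v4854 v2713 v7969 v2615 v7973 v495 v4593 v4779 v7974 v4084 v7760 v2619 v2539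
theorem v7976 : PV l7976 := r7976 w5826 w9178 v4602 v2707
theorem v7977 : PV l7977 := r7977 v4600 v5797 w2924
theorem v7978 : PV l7978 := r7978 v6194 v5734 w8069
theorem v7979 : PV l7979 := r7979 v7978 v6862 w7774 v5522
theorem v7980 : PV l7980 := r7980 v2606 v2608 v3556 v3598 v3235 v1446 w8053
theorem v7981 : PV l7981 := r7981 w5287 w5290 v7980 w8187 w8272
theorem v7982 : PV l7982 := r7982 v5669 v650 w7895
theorem v7983 : PV l7983 := r7983 v7982 v1697 w8180 w5637 w2269 w1465 w8229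
theorem v7984 : PV l7984 := r7984 w5286 w5288 v5532 w8000 v2607 v3583 v3611
theorem v7985 : PV l7985 := r7985 v5871 v598 w7694
theorem v7986 : PV l7986 := r7986 v5272 w3648 w3645 v7985 w4428 w4429 w5590 w4264 v5532 w8000 v2606 v2607 w8119 v2469 v3611 v4462
theorem v7987 : PV l7987 := r7987 v1510 v2469
theorem v7988 : PV l7988 := r7988 v7985 v7987 w8075 w8119
theorem v7989 : PV l7989 := r7989 v5218 v3932 v3613 v4475 v4457 w4267
theorem v7990 : PV l7990 := r7990 v4087 w5285 w5286 w5289 v7988 w2712 w2716 w2715 v7989 v3235 v5871 v4805 v4451 w4266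
theorem v7991 : PV l7991 := r7991 w5590 w5589 v5871 v7985 w2712 v4475 v5218
theorem v7992 : PV l7992 := r7992 v7979 v7986
theorem v7993 : PV l7993 := r7993 v4087 v2477 v4280 v4260 v7991 v7992 w3427 w3428 v7990
theorem v7994 : PV l7994 := r7994 v1697 v3161 v7981 v4273 w2716 v4925
theorem v7995 : PV l7995 := r7995 v2550 v2469 w8187 v2606
theorem v7996 : PV l7996 := r7996 v7988 w2713 v7995 v3235 v3902 v3556
theorem v7997 : PV l7997 := r7997 v7980 w8187 v2550 v2471 w6425 w7757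
theorem v7998 : PV l7998 := r7998 v4950 v2494 v3931
theorem v7999 : PV l7999 := r7999 w5243 w5247 w4636 w4658 w5679 w5262 v7994 v7996 v7997 w2713 v7998 v3235 v3902 v3556
theorem v8000 : PV l8000 := r8000 v4921 v4925
theorem v8001 : PV l8001 := r8001 v1446 v7985
theorem v8002 : PV l8002 := r8002 v480 v5989 v5925 v2681 v3509 v3512 v5238 v2708 v4087 v5272 v481 v7707 v3491 v3473 v2668 v3223 v7993 v4204 w714 v7979 w3427 w3429 w3756 v7999 v5669 v650 v7982 v3161 v2379 v2651 v8000 w2716 v8001 w4428 w4430 w4433 w5590 v7987 v7997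
theorem v8003 : PV l8003 := r8003 w5287 w5289 w5290 v27 w8187 v2607 v2608 w1603 v7980 v3556 v3598 v3565 w2716 w2714 v3228 v3110 v2482 v4940 v8000 w7900 w4671
theorem v8004 : PV l8004 := r8004 v4204 w694 w688 w714 v7979 w3427 w3428 w3429 w3754 w3756 w3757 w3847 v8003 w5679 w5678 w5681 v5669 v650 v7982 w1452 w1465 w7894 w7897 w2258 w2269
theorem v8005 : PV l8005 := r8005 v4474 v4476
theorem v8006 : PV l8006 := r8006 v2606 v2607 v8005 v5871 w8119
theorem v8007 : PV l8007 := r8007 v5532 w8000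
theorem v8008 : PV l8008 := r8008 w3648 w3647 v7979 v8006 v8007 v19 w7752
theorem v8009 : PV l8009 := r8009 v7987 v5871 w8075 w8119
theorem v8010 : PV l8010 := r8010 v4087 w5285 w5286 w5288 v8009 w2712 w2715 w2714 v7989 v3234 v5871 v4290 v4458 w4264
theorem v8011 : PV l8011 := r8011 w2720 v598 v4466 v3931
theorem v8012 : PV l8012 := r8012 v480 v5989 v5925 v2681 v3509 v3512 v5238 v4209 v2708 v4087 v481 v7707 v3491 v3473 v4208 v2668 v8002 v8004 v2477 v4280 v4260 v8008 w3427 w3428 v8010 w5590 w5588 w5589 v5871 v8011 w2712 v4475 v5218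
theorem v8013 : PV l8013 := r8013 v5989 v2708 v481 v480 v5925 v2681 v7707 v3491 v3473 v4208 v2668 v4204 w714 v8004 v7979 w2976 w3427 w3429 w3756 v7999 v5669 v650 v7982 v3161 v2651 v8000
theorem v8014 : PV l8014 := r8014 v2980 v2985 v3595 v7985 v4455 w4266
theorem v8015 : PV l8015 := r8015 w5100 v4968 w5099 v4967 v4087 v1145 v1210 v7991 w5287 v8007 v2608 v8014 v2859 v8010
theorem v8016 : PV l8016 := r8016 v2980 v2981 v8006
theorem v8017 : PV l8017 := r8017 v1145 v1210 v8007 v8016 v2859 v8010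
theorem v8018 : PV l8018 := r8018 w5100 v4969 v4968 w5099 v4967 v4966 v4087 v1145 v1209 v1210 v7979 v8015 v8017 w5590 w5588 w5589 v5871 v2550 v8011 v5510 w2712 v2607 v4475
theorem v8019 : PV l8019 := r8019 v480 v5989 v5925 v2681 v3509 v3512 v5238 v4209 w5100 v4969 v4968 w5099 v4967 v4966 v4087 v1145 v1209 v1210 v481 v7707 v3473 v8012 v8013 v2477 v4280 v4260 v8018 w3427 w3428 w2975 v8010 w5590 w5588 v5871 v4467 v2759
theorem v8020 : PV l8020 := r8020 v7978 v6862 w7879 w7774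
theorem v8021 : PV l8021 := r8021 v7995 v3235 v3556 v4814
theorem v8022 : PV l8022 := r8022 v2494 v7998 w6604 w4274
theorem v8023 : PV l8023 := r8023 w5285 w5286 w5287 w5288 w5290 v8021 v5042 v7997 w2714 w2713 v8022 v3234 v3616 v4813 v3889 v3886
theorem v8024 : PV l8024 := r8024 v4204 w714 v8020 w3427 w3428 w3429 w3756 v8023 w5679 v5669 v650 w8698
theorem v8025 : PV l8025 := r8025 v2985 v2980 v7985 v8014 w4266 v4669 v3875
theorem v8026 : PV l8026 := r8026 v2981 v8025 v8016 w8000 v2550 v2551 v5871 v3611 w4262 v3915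
theorem v8027 : PV l8027 := r8027 v7987 v7985 v4580 w8119
theorem v8028 : PV l8028 := r8028 v4087 w2712 w2715 w2714 v7989 v3234 v5871 v4299 v4458 w4264
theorem v8029 : PV l8029 := r8029 v1145 v1210 w5285 w5286 w5287 v8026 v8028 v7987 v5871 v4580 w8119
theorem v8030 : PV l8030 := r8030 w5100 v4969 v4968 w5099 v4967 v4966 v4087 v1145 v1209 v1210 v8020 v8029 w5590 w5588 w5589 v7991 v5871 v2550 v8011 v5510 w2712 v2607 v4475
theorem v8031 : PV l8031 := r8031 w5285 w5286 v8028 v7987 v5871 v4580 w8119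
theorem v8032 : PV l8032 := r8032 v7703 w5100 v4969 v4968 w5099 v4967 v4966 v5989 v2708 w3582 w5511 w5512 v481 v480 v5925 v2681 v7707 v3491 v1244 v4087 v1145 v1209 v1210 v3473 v2668 v3118 v3219 v4132 v5238 v3509 v2836 v3512 w8504 w5353 w5371 w4841 w5344 w4799 w5811 v3532 v2657 v2658 v8019 v8024 v2477 v4280 v4260 v8030 w3427 v8031 w5590 w5588 w5589 v7991 v5871 v8011 w2712 v4475 v5218
theorem v8033 : PV l8033 := r8033 v2557 v2555 v7703 v2996 v3759 w5004 w4996 w4333 v3216 v2994 v3794 w4352 v1145 w4555 v1209 v1210 v2661 v3927 v481 v480 v5989 v5925 v2681 v7707 v2987 v2668 v3115 v3223 v328 v2603 v7735 v4084 v4082 v7976 w5013 v7977 w5512 w5514 v4602 w5100 v4593 v4189 v4779 v4767 w3582 v4969 w9044 v8032 v5434 v4180 v2809 v33 v1102 w8376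
theorem v8034 : PV l8034 := r8034 v7703 v7939 v1145 w4555 v5035 v481 v480 v5989 v5925 v2681 v7707 v3491 v4856 v4847 v4854 v7706 v3473 v2668 v3216 v4832 v4844 v4834 v3008 v2994 v3422 v3794 v4183 v3423 v7975 v2555 v2557 v8033 v2615 v2614 v7924 v7922 v4082 v7935 w4866 v7926 v4970 v7742
theorem v8035 : PV l8035 := r8035 v481 v480 v5989 v5925 v2681 v7707 v7706 v2661 v3118 v3117 v3115 v7703 v7939 v1145 v1210 w4555 v8034 w3468 w3467 w3469 v3444 v4165 v4164 v4163 w8656 w8350 v34 v768 v6273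
theorem v8036 : PV l8036 := r8036 w3582 v2713 w9147 w9136 v2571 v7734
theorem v8037 : PV l8037 := r8037 w4196 w4228 v4046 w5980 v3320 w1764 w6014
theorem v8038 : PV l8038 := r8038 v439 v3240 v4764 v4334 v2881
theorem v8039 : PV l8039 := r8039 v7809 v8038 v3675 v3676
theorem v8040 : PV l8040 := r8040 v3278 v8039 v7111 v6979
theorem v8041 : PV l8041 := r8041 v6077 v7928
theorem v8042 : PV l8042 := r8042 v435 w4363 w4358 v3721 v4972 v4370 v4371 w3243 v1131 w2435 w2576 v4976 v3279 v6092 w5018 w7001 w7025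
theorem v8043 : PV l8043 := r8043 v5048 v5672
theorem v8044 : PV l8044 := r8044 v342 v3686 v8042 v4077
theorem v8045 : PV l8045 := r8045 v4553 v4550
theorem v8046 : PV l8046 := r8046 v2871 v2873 v2874 v2875 v8041 v7884 v3669 w5071 w5082 w5079 w6888 w382 w385 w8641 w1182 w6897 w6862
theorem v8047 : PV l8047 := r8047 v2972 v6190 w4363 v6071 v7775 v996 v3688 v3943
theorem v8048 : PV l8048 := r8048 v3770 v4086 v5034 v1244 v3008 v4970 v430 v4968 w6732 w5012 v7840 v3423 v2713 v2993 v2661 v5989 v3216 v5068 w2549 w2442 w2569 w2450 v3303 v8037 w3911 w3893 v4050 v4031 w6227 v3320 v3088 v3282 v8040 w6014 v3200 v3201 v3197 v3205 w1656 v8047 v2882 v2871 v2873 v2874 v8046 v8041 v3669 v3698 v8044 v439 w5071 w5079 w5030 w5028 w6888 v3708 w382 w8641 v3639 v3700 v3678 v3653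
theorem v8049 : PV l8049 := r8049 v5034 v7840 v8048 w2463 w2449 v6465 v6156 v5050
theorem v8050 : PV l8050 := r8050 v1244 v7703 v2996 w5015 v3768 v5035 v4834 v7840 v4138 v4832 v4844 v5034 v4115 v8049 v4763 v7812 v7779
theorem v8051 : PV l8051 := r8051 w2488 w2442 v8045 v4518 w6575 v6028
theorem v8052 : PV l8052 := r8052 v7703 v3008 v4970 v2996 w5015 v3768 v5035 v4834 v7840 v3423 v4832 v4844 v328 v1244 v8050 v7845 v4763 v8043 v3303 v3304 v8051 w2463 w2449 v7779 v6156 v4542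
theorem v8053 : PV l8053 := r8053 v5068 w2461 v3303 v4027 v4031
theorem v8054 : PV l8054 := r8054 v8053 w2449 w2444 v6465 v1073 v3308
theorem v8055 : PV l8055 := r8055 v5655 v4747
theorem v8056 : PV l8056 := r8056 v7840 v5034 v8054 v4763 v7812 w2449 v8055 v5050 v5022
theorem v8057 : PV l8057 := r8057 v7703 v3008 v4970 v2996 w5015 v3768 v5035 v4834 v7840 v3423 v4832 v4844 v328 v8052 v1268 v8056 v7845 v8043 v3303 v3304 v8051 v3075 w2444 v4533 v1074 w3906 v4549
theorem v8058 : PV l8058 := r8058 v3242 v8039 v2971 v7111 v7877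
theorem v8059 : PV l8059 := r8059 v2882 v439 w5071 w5079 w5030 w5028 v3678 w6888 v3708 w382 w8641 v3639 v3653 v3700
theorem v8060 : PV l8060 := r8060 v4086 v5034 v3205 v5068 w2549 w2442 w2569 v8053 v3303 w1656 v1268 w2450 v8037 w3911 w3893 v4050 v4031 w6227 v3320 v3698 v3088 v3282 v8044 w6014
theorem v8061 : PV l8061 := r8061 v5034 v3770 v8060 v6476 w2449 v5050 v4049 v5022
theorem v8062 : PV l8062 := r8062 v342 v435 v3721 v7703 v3008 v4970 v430 w4363 v4972 v4968 v7840 v5035 v4115 v4371 v8061 v7812 v3697 w2575 v1131 w5890 w6137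
theorem v8063 : PV l8063 := r8063 v7703 v2996 w5015 v3768 w6732 w5012 v5035 v4834 v7840 v3423 v2713 v4138 v2993 v2661 v5989 v3216 v4832 v4844 v3008 v328 v4970 v430 v8057 v8058 v3200 v3201 v3197 v3205 v8047 v2871 v2873 v2874 v8046 v8041 v3669 v8059 v8062 v7845 v8043 v3303 v3304 v7199 v8051 v1074 w2453 v4549 v4533 v2779
theorem v8064 : PV l8064 := r8064 v3988 v3992
theorem v8065 : PV l8065 := r8065 v5034 v7827 v3308 v8064 v3089 w2494 v6465
theorem v8066 : PV l8066 := r8066 v7840 v5034 v4233 v4086 v8065 v4763 v7829 w2449 v8055 v5050 v5022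
theorem v8067 : PV l8067 := r8067 v7862 v3960 v8043 v7871 v3303 v3075 v4533 v2779 v4535 v4549
theorem v8068 : PV l8068 := r8068 v5034 v7827 v3308 v8064 v6476 v3089
theorem v8069 : PV l8069 := r8069 v4747 v5841
theorem v8070 : PV l8070 := r8070 v7703 v2996 w5015 v3768 v481 v480 v5989 v5925 v2681 v7707 v3491 w6732 v5035 v4834 v7840 v3219 v3117 v3118 v2661 v2662 w3556 v7921 v4183 w8525 w5348 v3532 v2711 v3423 v3473 v4129 v2991 v2992 v2668 v4832 v4844 v8063 v8067 v5034 v4233 v4086 v8066 v8068 v4763 v7829 w2449 v8069 v5050 v5022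
theorem v8071 : PV l8071 := r8071 v3770 v4086 v5034 v3008 v4970 v430 v4968 w6732 w5012 v3423 v2713 v2993 v2661 v5989 v3216 v3089 v5068 w2549 w2569 v8053 w2450 v8064 v3303 v1268 v8037 v3282 v8040 w3911 v4050 v3200 v3201 v3197 v3205 v8047 w1656 v4031 v3320 v2871 v2873 v2874 v8046 v3088 w6014 v8041 v3669 v3698 v8059 v8044
theorem v8072 : PV l8072 := r8072 v3303 v4057 v5655 v5678 w3906 w3897
theorem v8073 : PV l8073 := r8073 v5034 v7840 v8071 v3075 w2449 v8072 v5050 v4049 v5022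
theorem v8074 : PV l8074 := r8074 v3205 v4086 v5034 v3008 v4970 v430 v4968 v3089 v5068 w2549 w2569 v8053 w2450 v8064 v3303 w1656 v1268 v8037 v3282 w3911 v4050 v4031 v3320 v3698 v3088 w6014 v8044
theorem v8075 : PV l8075 := r8075 v5034 v3008 v4970 v430 w6732 w5012 v7840 v3423 v2713 v2993 v2661 v5989 v3216 v3770 v8073 v8058 v3200 v3201 v3197 v3205 v8047 v2871 v2873 v2874 v8046 v8041 v3669 v8059 v8074 v6476 w2449 v5050 v4049 v5022
theorem v8076 : PV l8076 := r8076 v7703 v2996 w5015 v3768 v5035 v4834 v7840 v4138 v4832 v4844 v5034 v4115 v8075 v4763 v7812 w2449 v8069 v5050 v5022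
theorem v8077 : PV l8077 := r8077 v7862 v4763 v8043 v3303 v3304 v8051 v3075 w2463 w2449 v4533 v4535 v2780 v4549 v4532 w3906 w3897 v5050
theorem v8078 : PV l8078 := r8078 v5034 v3008 v7827 v8068 v3308 v8064 v3089 w2494 w2500 v8072
theorem v8079 : PV l8079 := r8079 v7703 v2996 w5015 v3768 v481 v480 v5989 v5925 v2681 v7707 v3491 w6732 v5035 v4834 v7840 v3219 v3117 v3118 v2661 v2662 w3556 v7921 v4183 w8525 w5348 v3532 v2711 v3423 v3473 v4129 v2992 v2668 v4832 v4844 v328 v8070 v8077 v5034 v4233 v4086 v8076 v8078 v4763 v7829 w2449 v8069 v5050 v5022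
theorem v8080 : PV l8080 := r8080 v3089 v3090 w2542 w2569 v8064 v7808
theorem v8081 : PV l8081 := r8081 v5034 v3303 v6476 v4057 v5065 v5676 w3906 w3897
theorem v8082 : PV l8082 := r8082 v4525 v5034 v8080 v3075 w2449 v8081 v5050 v4049 v5022
theorem v8083 : PV l8083 := r8083 v4745 v4747
theorem v8084 : PV l8084 := r8084 v7840 v5034 v4233 v4086 v8082 v4763 v7812 w2449 v8083 v5050 v5022
theorem v8085 : PV l8085 := r8085 v5048 v5049 v4734
theorem v8086 : PV l8086 := r8086 v4432 v7862 v3962 v8085 v3303 v3304 v3257 v8051 v3075 v4533 v4535 v4549 w4155 w5908 w6028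
theorem v8087 : PV l8087 := r8087 v5035 v4834 w5511 v3117 v3118 v5925 v5989 v2681 v2661 v2662 v481 v480 v7707 w3556 v7921 v4183 w8525 w5368 v3509 v3219 w5348 v3532 v4662 v7840 v2711 v2844 w5810 v3512 v5238 w5512 v4189 v4593 w5513 v3423 v7703 v2996 v3491 v3473 v2992 v2668 v3223 v4832 v4844 v328 w5015 w6732 w4846 v3768 v8079 v8086 v5034 v4233 v4086 v8084 v8082 v7829 v4763 w2449 v8083 v5050 v5022
theorem v8088 : PV l8088 := r8088 v5034 v3089 w2542 v8064 v7825 v7857
theorem v8089 : PV l8089 := r8089 v8078 v8088 v3075 w2449 w2691 v8081 v7857 v3308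
theorem v8090 : PV l8090 := r8090 v5034 v4233 v4086 v8089 v4763 v7860 w2449 v8083 v5050 v5022
theorem v8091 : PV l8091 := r8091 v3117 v3118 v5925 v5989 v2681 v2661 v2662 v481 v480 v7707 w3556 v7921 w5512 v4189 v4593 w5513 v3423 w5511 w3582 v2713 v3927 v2603 v4183 v3491 v3473 v7703 v2991 v2992 v2668 v3219 v5035 v4832 v4844 v4834 v3008 v5238 v3509 v3512 v4610 v2571 w9075 w8978 w8525 w5348 w5368 v3532 v2711 v4662 v7840 v8087 w5103 w5099 w5100 v1217 v4968 v8090 v7862 v4763 v3960 v3321 v7871 v7814 v3075 w2449 v3261 v5045 v4533 w4038 v4535 v5713 v4549 v4085 w3906 w3897 v4542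
theorem v8092 : PV l8092 := r8092 w5514 v4767 v4779 v3117 v3118 v5925 v5989 v2681 v2661 v2662 v481 v480 v7707 w3556 v7921 v3115 v8091 v5434 v4180 v2809 v765 w8681 w8376
theorem v8093 : PV l8093 := r8093 v3223 v3219 w5348 w5368 w4786 v3532 v5651 v3854 v4662
theorem v8094 : PV l8094 := r8094 v4610 w6585 w6714
theorem v8095 : PV l8095 := r8095 v3089 w2542 w2569 v8064 v3286 v3282 v7770 w1528 w5883 w6014
theorem v8096 : PV l8096 := r8096 v5034 v3303 v6476 v4057 v4025 v5065 w3906 w3897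
theorem v8097 : PV l8097 := r8097 v5034 v8095 v3075 w2449 v8096 v5050 v4049 v5022
theorem v8098 : PV l8098 := r8098 v7812 v7829
theorem v8099 : PV l8099 := r8099 v7840 v5034 v4233 v4086 v8097 v4763 v8098 w2449 v8083 v5020 v5022
theorem v8100 : PV l8100 := r8100 v2713 v481 v480 v5989 v5925 v2681 v7707 v7706 v3927 v2603 v3117 v3118 v2661 v2662 w3556 v7921 v4183 v7703 v2996 v2995 v2993 v8035 v5035 v3491 v4856 v4847 v4854 v3473 v2991 v2988 v2992 v2668 v3216 v3223 v3219 v4832 v4844 v4834 v328 w3582 v8036 w5513 w5512 w5514 w5511 v3423 v4593 v4189 v4779 v4767 v8092 v4969 v4903 v4873 w4889 w4876 w5100 v3768 v8094 v2571 w6732 w9075 w8978 w8525 w5348 w5368 w4786 v8093 v3532 v7840 v2711 v5651 v3854 v3494 v3512 v8099 v4433 v4184 v7850 v3958 v8085 v3303 v3304 v3259 v8051 v3075 v4533 v4535 v4549 w4162 w5910 w8631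
theorem v8101 : PV l8101 := r8101 v5034 v3008 v8078 v7902 v3308 v8064 v3089 w2494 w2500 v8096
theorem v8102 : PV l8102 := r8102 v4967 v7840 v5034 v4233 v8101 v4763 v7860 w2449 v8083 v5020 v5033 v5022 v5029
theorem v8103 : PV l8103 := r8103 v7862 v7909
theorem v8104 : PV l8104 := r8104 v481 v480 v5989 v5925 v2681 v7707 v7706 v3927 v2603 v3117 v3118 v2661 v2662 w3556 v7921 v8035 v5035 v3491 v4856 v4847 v4854 v3473 v4129 v2808 v7703 v2991 v2992 v2668 v3119 v3219 v4832 v4844 v4834 v3008 v328 v2713 v8100 w3749 v2590 v2544 w2924 v4084 w9057 w9166 w8892 w6585 w5513 w5512 w5514 v1594 w5103 w5099 w5100 v3423 v4593 v4189 v4779 v4767 w5355 w5385 w4826 v1217 v4966 v4967 v4968 v4969 v3532 v7840 v2711 v7873 v5238 v3509 v3512 v8102 w36 v4432 v8103 v3960 v3962 v3321 v7871 v7814 v3075 v3269 v3261 v5045 v4533 w4038 v4535 w6295 v4549 w2671 w4154 w5908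
theorem v8105 : PV l8105 := r8105 v481 v480 v5989 v5925 v2681 v7707 v7706 v3927 v2603 v5035 v4832 v4844 v8104 v2557 v7190 v4602 v4084 w3582 v7736
theorem v8106 : PV l8106 := r8106 v4606 v7766 v2571
theorem v8107 : PV l8107 := r8107 v2571 v2574 w8899
theorem v8108 : PV l8108 := r8108 v2713 v8106 v2544 w2924 v8107 v5848 w6585 w6342
theorem v8109 : PV l8109 := r8109 v481 v480 v5989 v5925 v2681 v7707 v7706 v3927 v2603 v3117 v3118 v2661 v2662 w3556 v7921 v8035 v7703 v2987 v2668 v3223 v5035 v4832 v4844 v328 v8105 w5824 v8108 v2555 v2557 v7737 v7735 v4084 v7736 w8927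
theorem v8110 : PV l8110 := r8110 v2590 w2924 w6585
theorem v8111 : PV l8111 := r8111 v5034 v328 v3089 w2488 w2542 w2569 v8064 v6625 v3286 v3282 w4174 w5098 w6050 w6014 w1528
theorem v8112 : PV l8112 := r8112 v5034 v8111 v3075 w2449 v8096 v5050 v4049 v5022
theorem v8113 : PV l8113 := r8113 v5034 v3089 v7812 v7859 v3308 v4761 v4759
theorem v8114 : PV l8114 := r8114 v7840 v5034 v4233 v4086 v8112 v4763 v8113 w2449 v8083 v5050 v5022
theorem v8115 : PV l8115 := r8115 v4007 v5049 w4094 w4090 w4076 v4691 v4989 v4708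
theorem v8116 : PV l8116 := r8116 v3008 v1150 v421 v328 v3090 w2488 v8115 v3303 v3304 v8051
theorem v8117 : PV l8117 := r8117 v3303 v4756 v8043 v4752
theorem v8118 : PV l8118 := r8118 v5050 v5022
theorem v8119 : PV l8119 := r8119 v7703 v3008 v8109 v1218 w5103 v3223 v5925 w4685 v5989 v2987 v2681 w8640 w6532 w8592 v2710 w4864 v1150 v428 v481 v480 v7707 v7706 v3927 v2603 v3117 v3118 v2661 v2662 w3556 v7921 v4183 v2993 v8035 v5035 v3491 v4856 v4847 v4854 v3473 v2988 v2992 v2668 v3219 v4832 v4844 v4834 v328 v2713 v8110 w3582 v8036 v8094 w5513 w5514 w5511 w5012 v2571 w6732 v3423 v4779 v4767 w9075 w8978 w8525 w5348 w5368 v8093 v3532 v7840 v7873 v5651 v5238 v3512 v8114 v4184 v7850 v4763 v8116 w2449 v8117 v8118 v4542 v4544 v4549 w4072 v4514 v4511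
theorem v8120 : PV l8120 := r8120 v8109 v5035 v4832 v4844 v8119 v7190 v4602 v4603
theorem v8121 : PV l8121 := r8121 v3117 v3118 v5925 v5989 v2681 v481 v480 v7707 v7706 v2661 v2662 w3556 v7921 v8035 v3927 v7703 v2987 v2668 v3223 v5035 v4832 v4844 v328 v2603 v8109 v8120 w5824 v8108 v2555 v2557 v7735 v4084 w9011 v7757 w8927 v4598
theorem v8122 : PV l8122 := r8122 v2571 v2585 w3582 v2596 v4779 w9132 w5514
theorem v8123 : PV l8123 := r8123 v2544 w9122 v4597
theorem v8124 : PV l8124 := r8124 v8123 v2707 v5866 v5514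
theorem v8125 : PV l8125 := r8125 v2713 v8122 v4084 v8124 w5513 w5512 v7760 v4593 v5514
theorem v8126 : PV l8126 := r8126 w3582 v5552 w9167
theorem v8127 : PV l8127 := r8127 v8126 v5660 v2544 w9090
theorem v8128 : PV l8128 := r8128 v5068 w2569 v4066 v3100 w6252 w4036
theorem v8129 : PV l8129 := r8129 v5034 w876 v8128 v3075 w2449 v8096 v5050 v3308 w3957 v4049 w3949 v3991 v4995
theorem v8130 : PV l8130 := r8130 v4967 v7840 v3008 v1218 w6629 v5034 v4086 v8129 v4763 v7860 w2449 v8083 v5033 v8118 v5029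
theorem v8131 : PV l8131 := r8131 v5035 v4834 v2615 v8125 v2557 v2555 v2614 v4856 v4847 v4854 v2661 v7703 v2991 v3118 v3219 v4832 v4844 v3008 v2568 v2571 v8127 w5513 w9056 w5512 w5514 w8921 v3423 v2707 w3241 w3824 w9135 v4593 v4189 v4779 v4767 v5660 w8728 w6629 w5406 w5408 w5103 w5099 w5100 v3532 v1218 v4966 v4967 v4968 v4969 v7873 v7840 v4132 v3509 v2836 w9087 w4824 v8130 v4433 v8103 v3958 v3960 v7871 v7814 v3271 v4549 w4162 w5910 w8631
theorem v8132 : PV l8132 := r8132 w6252 w5984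
theorem v8133 : PV l8133 := r8133 v2882 v342 v435 v436 w4363 w4358 v3686 v3721 v3715 v4972 v4078 v4370 v4371 v4347 w3243 v1131 v7929 w2435 w2576 w4098 v6092 v4976 v3279
theorem v8134 : PV l8134 := r8134 v3008 v4970 v430 v4968 v3216 v3200 v3201 v3197 v8047 w1656 v2871 v2873 v2874 v2875 v8041 v3669 v3315 v3698 v8133 w5071 w5082 w5079 w6888 w382 w385 w8641 w1182 w6897 w6862
theorem v8135 : PV l8135 := r8135 w876 v4525 v5034 v3008 v4970 w5102 w6749 w6616 w6455 w5513 v3423 w5511 v2992 v3089 v3090 v5068 w2542 w2569 v8064 v3303 v3100 v3286 v7770 v3846 v8132 w5992 w5096 w5094 w5095 w4225 w4227 v3986 v4720 v4031 w2430 v3980 v8134 v8040 v8058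
theorem v8136 : PV l8136 := r8136 v5034 v7840 v3008 v4970 w5102 w6749 w6616 v8135 v3075 w2449 v8096 v5050 v8118 v4049
theorem v8137 : PV l8137 := r8137 v4082 v2555 v5989 v481 v480 v5925 v2681 v7707 v3491 v2614 v7926 v2708 v7742 w8839 w5408 v3219 w5406 v3532 v5651 v7873 v4662 v7840 v3512 v2844 v3494 v3008 v4970 w5102 w6749 w6616 w6455 v3117 v3118 v2661 v2662 w3556 v7921 w5513 v3423 v3223 v2989 v4908 v2616 v3473 v2668 v328 v8086 v5034 v4233 v8136 v4763 v8113 w2449 v8083 v8118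
theorem v8138 : PV l8138 := r8138 v3089 v3090 w2542 w2569 v8064 v3993 v3286 v414 w4176 w5097 w6050 v3846 v4981 v3099 v8132 w5992
theorem v8139 : PV l8139 := r8139 v4525 v5034 w876 v8138 v3075 w2449 v8096 v5050 v8118 v4049
theorem v8140 : PV l8140 := r8140 v7840 v5034 v4233 v8139 v4763 v8113 w2449 v8083 v8118
theorem v8141 : PV l8141 := r8141 v2614 v2615 v3117 v3118 v5925 v5989 v2681 v2661 v2662 v481 v480 v7707 w3556 v7921 v4138 v7703 v2994 v5035 v3491 v4856 v4847 v4854 v3473 v4129 v2992 v2668 v3216 v3219 v4832 v4844 v4834 v3008 v8125 v2555 v2557 v8131 v4084 v4082 v7926 v2708 v7742 v2616 v7925 v7763 v4970 w8839 w5513 w5514 v4593 v4189 v430 w4865 w5102 w5406 w5408 v3423 v4779 v4767 v3801 w6749 v3532 v5651 w6455 w6616 v7873 v3494 v2844 v4662 v3512 v7840 v8137 v1218 v8140 v8103 v4763 v8116 w2449 v8117 v8118 v4542 v4544 v4549 w4072 v4514 v4511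
theorem v8142 : PV l8142 := r8142 v2580 w3582 w8958
theorem v8143 : PV l8143 := r8143 v2571 v8142 v2544 v5519 w8880
theorem v8144 : PV l8144 := r8144 v2713 v8143 v4084 v2619 w8947 w3582
theorem v8145 : PV l8145 := r8145 v8035 v5035 v481 v480 v5989 v5925 v2681 v7707 v3491 v4856 v4847 v7706 v2662 v2661 v2668 v3118 v3117 v4834 w3556 v7921 v8121 v2615 v2614 v8141 w5824 w5727 v8144 v2555 v7935 v2568 v2584 w8661 v2576 w8422
theorem v8146 : PV l8146 := r8146 v5035 v481 v480 v5989 v5925 v2681 v7707 v3491 v4856 v4854 v7706 v2662 v2661 v7703 v2988 v2987 v3118 v3117 v3115 v4834 v3008 v8145 w3468 w3467 w3469 v7938 v4165 v4164 v4163 w8656 w8350 v34 v768 v6273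
theorem v8147 : PV l8147 := r8147 v5034 v8064 v7944
theorem v8148 : PV l8148 := r8148 w5978 w6048
theorem v8149 : PV l8149 := r8149 v1145 v1210 v3089 w2534 w2442 v8147 v8148 w4162 v5745 v4060
theorem v8150 : PV l8150 := r8150 v5034 v3843 v8149 v3075 w2463 w2449 v8096 v6156 v5050
theorem v8151 : PV l8151 := r8151 v4087 v5034 v4231 v4086 v8150 v4763 v3321 v7860 v7207 w2449 v3261 v8083
theorem v8152 : PV l8152 := r8152 v3303 v6488 v8043
theorem v8153 : PV l8153 := r8153 v481 v480 v5989 v5925 v2681 v7707 v7706 v3927 v2603 v2713 v8146 v7703 v2996 v3759 w5004 w4996 v5035 v4834 v3216 v2994 v3794 w4352 v4087 w4333 v1145 w4555 v3422 v3423 v4183 w3556 v1209 v8035 v3491 v4856 v4847 v4854 v2662 v3473 v2991 v2668 v3117 v3219 v4832 v4844 v3008 v2571 v2590 v7744 w3582 v8036 v495 v4593 v4189 w5496 w4866 w4901 w8978 w9075 v4779 v4767 v4970 v4971 v4966 v4967 w8525 w5348 w4798 w4810 v3532 v8151 v8103 v4763 v3960 v7871 w2463 w2449 v8152 v3272 v8118 v6156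 w29 w4160 v6130 w5909 w8632
theorem v8154 : PV l8154 := r8154 w5818 v8036 v8110
theorem v8155 : PV l8155 := r8155 w6052 w5981
theorem v8156 : PV l8156 := r8156 w2557 v8155 w4199 v5745 v4060
theorem v8157 : PV l8157 := r8157 v5034 v3772 v8156 v3075 w2449 v8096 v5050 v3308 w3957 v4049 w3949 v3991 v4995
theorem v8158 : PV l8158 := r8158 v7703 v1145 v1210 v3008 v1149 v5035 v5034 v4118 v8157 v4763 v7860 w2449 v8083 v5033 v8118 v5029
theorem v8159 : PV l8159 := r8159 v7703 v4967 v4966 v4084 v3927 v2603 v4087 v2996 v1145 v1209 w3582 v4610 v4605 w9089 v8158 v8103 v3960 v7871 w2449 v8152 v3308 v1074 v3094 v3095 w2528 v7870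
theorem v8160 : PV l8160 := r8160 v5034 v1145 v1210 v3089 w2534 w2569 v8064 v8148 v3282 w4162 w4173 w4191 v4060 v3986 v3320 w6280 w6295
theorem v8161 : PV l8161 := r8161 v5034 v1145 v1209 v3008 v1149 v3843 v8160 w2449 v6465 v5050 v3308 w3957 v4049 w3949 v3991 v4995
theorem v8162 : PV l8162 := r8162 v1244 v4087 v7703 v1145 v1209 v5034 v4231 v8158 v8161 v4763 v7860 v7779 v6048 v5029 v5033
theorem v8163 : PV l8163 := r8163 v6048 w2449 w2463 v7779 v5050 w3971 w3979 w3915 v5659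
theorem v8164 : PV l8164 := r8164 w3913 v6130 v4726 v4530
theorem v8165 : PV l8165 := r8165 v2713 v481 v480 v5989 v5925 v2681 v7707 v3491 v8146 v7706 v7703 v2996 v3759 w4333 v1244 v5035 v4834 v3216 v2994 v3794 w4352 v4087 v1145 w4555 v3422 v3423 v1209 v1210 v8035 v4856 v4847 v4854 v3927 v3473 v4129 v2808 v2991 v2992 v2668 v3119 v3219 v4832 v4844 v3008 v328 v2603 v8153 v4084 v8154 w5512 w5514 v4593 v4189 w4866 w4901 v4779 v4767 v4970 v4971 v4966 v4967 v8159 v2544 w2924 w8892 w9166 v1594 w5355 w5385 w4826 w5813 v3532 v8162 v8103 v4763 v3960 v7871 w2463 w2449 v6048 v8163 v8164 w3893 w3911 w3915 v5059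
theorem v8166 : PV l8166 := r8166 v7703 v8146 v1145 w4555 v5035 v4834 v3422 v3423 v1210 v481 v480 v5989 v5925 v2681 v7707 v3491 v4856 v4854 v7706 v2713 v8165 v2615 v7973 v495 v4593 v4779 v7974 v4084 v2539 v7760
theorem v8167 : PV l8167 := r8167 v3532 v3959 w4127 w6276
theorem v8168 : PV l8168 := r8168 v7978 v6862 v656
theorem v8169 : PV l8169 := r8169 w3754 w3756 v7983
theorem v8170 : PV l8170 := r8170 w694 w714 v8169 v7978 v8168 v6862 w7774
theorem v8171 : PV l8171 := r8171 v2469 v5218 v2646 v3613 v3174 v6923 w8253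
theorem v8172 : PV l8172 := r8172 v4204 w694 w714 v8169 v7978 w3648 w3643 w3644 v2550 v2551 v2552 v5674 v3931 v3881 w4265 v5871 w7757
theorem v8173 : PV l8173 := r8173 v8168 v7978 v5708 w7774
theorem v8174 : PV l8174 := r8174 v2494 v7998 v4947 v3931
theorem v8175 : PV l8175 := r8175 v2495 v2471
theorem v8176 : PV l8176 := r8176 w5285 w5287 w5290 v7981 v8021 w2713 v8174 v8175
theorem v8177 : PV l8177 := r8177 v7190 v4082 v4204 w694 w714 v8173 w3427 w3429 w3754 w3756 v8176 w5679 w5681 v5669 v650 w2269 w1465 w7897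
theorem v8178 : PV l8178 := r8178 w3648 w3643 w3644 v7978 v2550 v2551 v2552 v5674 v3931 v3881 w4265 v7985 w7757
theorem v8179 : PV l8179 := r8179 v4087 v4204 w694 w714 v8178 w3427 w3429 w3754 w3756 v8176 w5679 w5681 v5669 v650 w2269 w1465 w7897
theorem v8180 : PV l8180 := r8180 v7998 v2494 w2713 v7291 w8053
theorem v8181 : PV l8181 := r8181 v7982 w5243 w4636 w5679 w5262 v2293 v7996 v8180 v3235 v2380 v3556 w8264 v2650
theorem v8182 : PV l8182 := r8182 v2550 v8174 w8187 w2713 v7980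
theorem v8183 : PV l8183 := r8183 w5285 w5286 w5287 w5290 v8021 v2474 v8182 v3234 v2382 v3616 v2648 w8268 w8649
theorem v8184 : PV l8184 := r8184 w5408 w4658 w5679 w5262 v7994
theorem v8185 : PV l8185 := r8185 w8459 w8770
theorem v8186 : PV l8186 := r8186 v7190 v4082 w714 v4204 w5408 v8173 v8177 w3427 w3429 w3756 w8525 v7982 w4834 w4658 w5679 w5262 v7994
theorem v8187 : PV l8187 := r8187 w3643 v7978 v8178 v2552 w2339 v5674 v2650 v2651 v4274 v6810 w7941 w8345
theorem v8188 : PV l8188 := r8188 w3427 w3429 w3756 v8184 v7982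
theorem v8189 : PV l8189 := r8189 v7190 v4082 w714 v5925 v4208 w688 v4204 v5989 v2708 v2555 v4087 v481 v480 v2681 v7707 v3491 v3473 v2668 v3219 v8172 v8188 v7978 v8187 v6862 w5290 w7774
theorem v8190 : PV l8190 := r8190 w3648 w3643 w3646 v7978 v2550 v2552 v5674 v3931 v3901 w4274 v5871 w7757
theorem v8191 : PV l8191 := r8191 v5989 v2708 v7190 v4082 v4087 v481 v480 v5925 v2681 v7707 v3491 v3473 v2668 v4204 w694 w714 v8186 w9087 w4841 v8189 v8190 w3427 w3429 w3754 w3756 v8176 v8184 w5681 v5669 v650 w2269 w1465 w7897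
theorem v8192 : PV l8192 := r8192 w3648 w3647 v8173 v7986 v8006 v8007 v19 w7752
theorem v8193 : PV l8193 := r8193 v4087 w5285 w5286 v8009 w2712 v8171 v3234 v5871 v4299 w4262 v4472
theorem v8194 : PV l8194 := r8194 v4087 v2662 v3927 v3117 w3427 w3752 w3845 w3844 v8193 w5683 w5590 w5719 w5718 v5871 v3107 w7877 v2453 w1499 v598 v6923 w2712 w2321 v5218 w7876 v3579
theorem v8195 : PV l8195 := r8195 w3647 w3648 v7986 v8007 v8006
theorem v8196 : PV l8196 := r8196 w3648 w5285 v8009 v8195 v7978 v2550 v5871 w8119 v4581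
theorem v8197 : PV l8197 := r8197 v2477 v4280 v4260 w730 w727 w699 v8194 w3648 v8196 w5590 w5588 v5871 v7985 v8011
theorem v8198 : PV l8198 := r8198 v8173 v8190
theorem v8199 : PV l8199 := r8199 w5408 w5405 v3223 v3219 w5285 w5286 w5287 w5290 v8003 v8183 v8021 v8181 v7982 v2474 w5642 w4636 v8180 v3234 v2382 v3616 w8268 v2648
theorem v8200 : PV l8200 := r8200 v4209 v5989 v7190 v4602 v2708 v4082 v3927 v2603 v481 v480 v5925 v2681 v7707 v3491 v1244 v4087 v4183 v2662 v2661 v2660 v3473 v4208 v2668 v3119 v3118 v3117 v8197 v4204 w694 w688 w714 v8191 w9163 w4813 v8198 w3427 w3428 w3429 w3754 w3753 w3756 w3757 w3847 v8199 w5679 w5681 v5669 v650 v7982 w2269 w1465 w7897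
theorem v8201 : PV l8201 := r8201 v7978 v8190 v6862 w7774 w8115
theorem v8202 : PV l8202 := r8202 w3429 w3427 v8188 v8176
theorem v8203 : PV l8203 := r8203 w3756 w3753 w3429 w3427 v3219 w5285 w5286 w5287 w5290 v8021 v2474 v8202 v8183 v7982 w4636 v8180 v3234 v2382 v3616 v2648 w8268 w8649
theorem v8204 : PV l8204 := r8204 v5989 v2708 v7190 v4082 v481 v480 v5925 v2681 v7707 v3491 v3473 v2668 v4204 w714 v8201 w3756 v8203 w5679 v5669 v650 w8698
theorem v8205 : PV l8205 := r8205 v7987 v5871 v5680 w8119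
theorem v8206 : PV l8206 := r8206 v1145 v1209 v1210 w5285 w5286 w5287 v8205 v8026 v7978 v2550 v2551 v5871 v3611 w4262 v3915
theorem v8207 : PV l8207 := r8207 w3648 w3647 v8206 w5590 w5588 v5871 v7985 v8011
theorem v8208 : PV l8208 := r8208 v4087 w5285 w5286 v8205 w2712 v8171 v3234 v5871 v4299 w4262 v4472
theorem v8209 : PV l8209 := r8209 v3772 v4231 v5035 v4118 v4525 v5034 w5514 v5989 v7190 v4602 v2708 w3582 v4082 v2555 v481 v480 v5925 v2681 v7707 v3491 v1244 v4087 v4183 w3556 v7703 v2996 v1145 v1209 v1210 v2662 v3927 v3473 v4208 v4127 v4129 v2991 v2668 v3117 v3219 v3089 v3090 w2534 w2557 v8064 v8155 v3292 v3976 w4199 w4204 w4212 w4223 v4060 v4062 v5690 v4031 v3986 v3100 w2478 v3320 v5671 w2688 v8167 v2657 v2711 w8866 w5408 v5651 v5434 v2834 v2836 v4132 v4209 v8185 v8200 w9074 w4834 w4798 v8204 v2477 v4280 v4260 w730 w699 v8207 w3427 w3752 w3844 v8208 w5683 w5590 w5588 w5719 v5871 v3107 w7877 v2453 w1499 v598 v6923 w2713 v3162 v2759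 v4628 v3598
theorem v8210 : PV l8210 := r8210 v5989 v5925 v2681 v481 v480 v7707 v3473 v3491 v7703 v2996 v4087 v8158 v5034 v4967 v4966 v8209 v3075 w2463 w2449 v8096 v5050 w3971 w3979 v4049 v5022 w3915 v5659
theorem v8211 : PV l8211 := r8211 v4087 v481 v480 v5989 v5925 v2681 v7707 v3473 v7703 v5034 v8210 v4763 v7860 w2463 w2449 v8083 v5050 v8118 w3971 w3979 w3915 v5659
theorem v8212 : PV l8212 := r8212 v8118 v6156 v8164
theorem v8213 : PV l8213 := r8213 v2557 v7703 v2996 v3759 w5004 w4996 v3216 v2994 v3794 w4352 v4087 w4333 v4183 v481 v480 v5989 v5925 v2681 v7707 w3556 v1145 w4555 v1209 v1210 v2662 v3927 v3491 v3473 v2808 v2991 v2668 v3117 v3219 v3008 v2603 v7190 v4084 v4602 v7976 w3582 w5512 w5514 w5511 w5013 w9044 v4593 v4189 w4866 w4901 v4779 v4767 v4970 v4971 v4966 v4967 v8211 v8103 v4763 v3960 v8043 v7871 v3303 v3075 w2463 w2449 v8212 w9074 w5348 w5368 v3532 v5651 v5434 v3494 v4533 v4535 v2779 v4549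
theorem v8214 : PV l8214 := r8214 w3582 w9153 w9167 v5511
theorem v8215 : PV l8215 := r8215 v2544 w2924 v5528 w9076 w6616 v8127
theorem v8216 : PV l8216 := r8216 v7703 v328 v5035 w5818 v8215 v8214 v2617 v2571 v8127
theorem v8217 : PV l8217 := r8217 w3582 v2617 w9056 v2571
theorem v8218 : PV l8218 := r8218 v5034 v1145 v1210 v3089 w2534 w2442 w2569 v8064 v8148 v8132 w6034 w4162 v3100 v6059
theorem v8219 : PV l8219 := r8219 v5034 w876 v3843 v8218 v3075 w2463 w2449 v8096 v5050 v6156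
theorem v8220 : PV l8220 := r8220 v5034 v4087 v4763 v7860 w2463 w2449 v8083 v8212
theorem v8221 : PV l8221 := r8221 v3336 w4555 v5035 v4834 v3422 v3423 v7703 v1209 v1210 v3118 v3115 v3223 w4286 w4836 w4811 v3856 v6464 v4132 v2836 w9087
theorem v8222 : PV l8222 := r8222 v4087 v1145 v1210 v4231 v4086 v8220 v8219
theorem v8223 : PV l8223 := r8223 v4967 v4966 v4087 v1145 v1209 v1210 v481 v480 v5989 v5925 v2681 v7707 v3491 v3473 v2991 v2668 v8222 v8103 v4763 v3960 v7871 w2463 w2449 v8152 v8212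
theorem v8224 : PV l8224 := r8224 w2534 w2569 v8148 v8132 w4162 v3100 v4060
theorem v8225 : PV l8225 := r8225 v5034 w876 v3843 v8224 v3075 w2463 w2449 v8096 v5050 w3971 w3979 w3915 v5659
theorem v8226 : PV l8226 := r8226 v1145 v1210 v5034 v4231 v4086 v8225 v4763 v7860 w2449 v8083 v5033 v5029
theorem v8227 : PV l8227 := r8227 v8146 v481 v480 v5989 v5925 v2681 v7707 v7706 v7703 v2996 v3759 w5004 w4996 v5035 v4834 v3216 v2994 v3794 w4352 v4087 w4333 v1145 w4555 v3422 v3423 v1209 v8035 v3491 v4856 v4847 v4854 v2661 v3927 v3473 v4129 v2991 v2988 v2668 v3219 v4832 v4844 v3008 v328 v8166 v2555 v2557 v8213 v2615 v2614 v8216 w5512 w5514 w5013 v4593 v4189 w4866 w4901 v4779 v4970 v4971 v4966 v4967 v4767 v8217 w3749 v2544 w2924 w9146 w9135 w8921 w6731 w813 v5660 w8728 w5406 w5408 v3532 v8221 v8223 v8226 v4184 v8103 v3960 v3954 v7871 w2449 v8152 v3262 v4549 w4193 w5911 w6031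
theorem v8228 : PV l8228 := r8228 v5272 w4571 w5824 v3223 v2603 v8108 v2555 v2557 v7977 v7735
theorem v8229 : PV l8229 := r8229 v7703 v8146 v1145 w4555 v5272 v8035 v5035 v481 v480 v5989 v5925 v2681 v7707 v3491 v4856 v4847 v7706 v3927 v2987 v2668 v4832 v4844 v4834 v328 v3422 v8227 w5824 w4571 v8228 v2615 v8144 v7935 v2584 w6584 v2576 w6374
theorem v8230 : PV l8230 := r8230 v481 v480 v5989 v5925 v2681 v7707 v7706 v2661 v3118 v3117 v3115 v7703 v8146 v1145 v1210 w4555 v8229 w3468 w3467 w3469 v3444 v4165 v4164 v4163 w8656 w8350 v34 v768 v6273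
theorem v8231 : PV l8231 := r8231 v2713 v8154 v8036 v2544 w9066 w9057
theorem v8232 : PV l8232 := r8232 v3444 v5035 v4832 v4844 v4834 v7703 v328 v2603 v8231 v2557 v7190 v4084 v7976
theorem v8233 : PV l8233 := r8233 v3444 v3927 v5035 v4832 v4844 v4834 v8232 v2615 v8125 v8216 v2557
theorem v8234 : PV l8234 := r8234 v3444 w3582 v2713 v3927 v2603 v7703 w5099 v4967 v4966 w5514 v4767 v4779 w5512 v4189 v4593 w5511 v481 v480 v5989 v5925 v2681 v7707 w3556 v3423 v4183 v4138 v2662 v2661 v3491 v3473 v2991 v2992 v2668 v3216 v3117 v3219 v5035 v4832 v4844 v4834 v2571 w9075 w8978 w8525 w4840 w5348 w5368 v4888 v4896 v3532 v8092 v2711 v7873 v5238 v3509 v3512 v7890 v7943 v5034 v4233 v4086 v3200 v3201 v3197 v7797 v342 v2882 v2871 v2873 v2874 v2875 v7889 v3669 v7885 v435 v436 v3721 v3715 v4347 v4346 v7854 v4972 v7879 v7830 v7858 v4763 v7860 w2449 v8083 v5022 v5050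
theorem v8235 : PV l8235 := r8235 v3509 v3512
theorem v8236 : PV l8236 := r8236 v5035 v4832 v4844 v481 v5925 v5989 v2668 v7703 v2987 v2681 v480 v7707 v8230 w4888 v1210 w4894 w4561 v7706 v3927 v3216 v2742 w4992 v4834 v2740 v4087 w2759 w6795 v3444 v3491 v8233 w5514 v4767 v2603 v7737 w5016 v3008 w4882 v4971 v4970 w3582 v8234 v4084 v4610 v7898 v8235 v5434 v6184 v3496 v8092
theorem v8237 : PV l8237 := r8237 v7117 v3308 v7908 v4070 v3075 v2779 v6301
theorem v8238 : PV l8238 := r8238 v7703 v328 w2924 v4967 v4087 v2662 v2661 v2660 v5989 v481 v480 v5925 v2681 v7707 w3464 v3491 v3473 v4128 v4129 v2991 v2988 v2987 v2992 v2668 v3223 v2590 v2583 v4896 w4287 w4840 w4841 w4843 w4842 w4844 w8525 v1594 w9163 v7726 w8353 v2710 v3516 w1582 v3856 v668 v4132 v5238 v8235 v2251 w8504 w9087 v8102 v8237 v3960 v7871 v7814 v3308 v1074 v7199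
theorem v8239 : PV l8239 := r8239 v7703 v2992 v4896 v4888 v4967 v4966 v3216 v7900 v3201 v3199 v7910 w3280 v7797 v6190 v7911 v3681 v3688
theorem v8240 : PV l8240 := r8240 v7703 v8230 v5989 v5925 v2681 v481 v480 v7707 v3491 v7706 w4894 w4561 w4888 v1210 v3927 v3216 v2742 w4992 v5035 v4832 v4834 v2740 v4087 w2759 w6795 v8233 w5016 w5099 v4967 v4966 w5514 v4767 v4779 v3444 w5512 v4189 v4593 w3556 v3423 v4183 v1209 v3008 w4882 v4971 v4970 w4878 w4346 v3345 v3473 v4129 v2808 v2807 v2991 v2987 v2992 v2668 v3119 v3118 v3117 v3116 v3115 v3219 v4844 v328 v2603 v7737 v8236 w2924 v8238 w6768 w6342 v1594 w5355 w4843 w5385 v3532 v4888 v4896 v2711 v7873 v5238 v8235 v8239 v8102 v8103 v3960 v7871 v7814 v3075 v5045 v4533 v4535 w3906 v4549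
theorem v8241 : PV l8241 := r8241 v8230 w4894 w4561 v7703 w4888 v1210 v481 v480 v5989 v5925 v2681 v7707 v7706 v3927 v3216 v2742 w4992 v5035 v4832 v4834 v2740 v4087 w2759 w6795 v3444 v3423 v1209 v3008 w4882 v4971 v4970 w4878 v2661 v3491 v3473 v4129 v2991 v2992 v2668 v3118 v3219 v4844 v328 v8233 w5016 w5512 w5514 w5099 v4593 v4189 v4779 v4767 v4966 v4967 v8240 v2615 v2614 v8125 v2555 v2557 v8217 w3749 v2544 w2924 w9146 w6731 w6374 w813 w9135 v5660 w8728 w5406 w5408 v3532 v7873 v4132 v3509 v2836 w9087 w4841 v4888 v4896 v8130 v8103 v3960 v7871 v7814 v3075 v4549 v5045 v2779 v4533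
theorem v8242 : PV l8242 := r8242 w3582 v20 v4083 v7732
theorem v8243 : PV l8243 := r8243 v7703 v328 v5035 v2713 v8108 v8242 w2924 v2574 v5518 w6342
theorem v8244 : PV l8244 := r8244 w5824 v3223 v2603 v8243 v2555 v2557 v7737 v7735 w6382 v5741
theorem v8245 : PV l8245 := r8245 v2571 v2584 w9056 w8921 v2576
theorem v8246 : PV l8246 := r8246 v8230 w4894 w4561 v7703 w4888 v1210 v481 v480 v5989 v5925 v2681 v7707 v7706 v3927 v3216 v2742 w4992 v5035 v4832 v4834 v2740 v4087 w2759 w6795 v3444 v3423 v3008 w4882 v4971 v503 w4871 v3491 v2987 v2668 v4844 v8241 w5824 w4571 v8244 v2615 v8144 v2557 v8245 v4084 v7935 w9146 w8989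
theorem v8247 : PV l8247 := r8247 v5034 v3089 w2569 v7963 v4060 v7120 w3895
theorem v8248 : PV l8248 := r8248 v8103 v4763 v3960 v7871 w2463 w2449 v8152 v8118 v4546 v8164
theorem v8249 : PV l8249 := r8249 v3223 v3219 v5434 v3856 v5651 v3859
theorem v8250 : PV l8250 := r8250 w1742 v4055 w4022 w4029 w6248 w6249 w1596 w1765 v7207
theorem v8251 : PV l8251 := r8251 v5034 w2555 w2557 v8250 v4060 v7120 w3895
theorem v8252 : PV l8252 := r8252 v5034 v3772 v8251 v3075 w2449 v8096 v8118 v5050 v4049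
theorem v8253 : PV l8253 := r8253 v2713 v7703 v4967 v4966 v3927 v2603 v4087 v5035 v8248 v5034 v4117 v4118 v4086 v8252 v4763 v3321 v7860 v7207 w2449 v3261 v8083
theorem v8254 : PV l8254 := r8254 v5034 v3089 w2534 w2560 v8064 v8148 v3282 w4173 v7207 v3320 w1595 v3986 v3266 v4060 w6053 w4201
theorem v8255 : PV l8255 := r8255 v5034 v3843 v8254 v3075 w2449 v8096 v5050 v8118 v4049
theorem v8256 : PV l8256 := r8256 v7703 v5035 v5034 v4119 v4231 v4086 v8255 v4763 v3321 v7860 v7207 w2449 v3261 v8083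
theorem v8257 : PV l8257 := r8257 v3927 v3216 v2742 w4992 v2740 v4087 w2759 w6795 v2571 v2713 v7703 v4967 v4966 v2603 v4183 w4326 v3761 v2662 v2991 v2988 v2992 v3117 v3219 w9075 w8978 w8525 w4840 w5348 w5368 v4888 v4896 v3532 v8249 v8235 v8253 v8256 v8103 v4763 v3960 v7871 w2463 w2449 v8152 v8118 v8164 v4544 w3895 v4549
theorem v8258 : PV l8258 := r8258 v7703 w5016 w5099 v4967 v3927 v3216 v2742 w4992 v2740 v4087 w2759 w6795 w5512 v4189 v4593 w5511 v2603 v481 v480 v5989 v5925 v2681 v7707 w3556 v4183 v2662 v2661 v2660 w3464 v3491 v3473 v4128 v4129 v2991 v2988 v2992 v2668 v3119 v3118 v3117 v3116 v3115 v3223 v8257 v2707 v2590 v2583 v4896 w4287 w4840 w4841 w4843 w4842 w4844 w9074 w8525 v1594 w8353 w1559 v3516 w1582 v3856 v668 v4132 v4209 v5238 v8235 v2251 w3783 w8504 w9087 v8185 w8678 w5340 v8256 v8237 v4763 v3960 v7871 w2449 v8152 v5051 v8118 v6130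
theorem v8259 : PV l8259 := r8259 v3219 w5406 w5408 v3532 v8249
theorem v8260 : PV l8260 := r8260 v5434 v4180 v2809 v8259 w5812 v668 w8376
theorem v8261 : PV l8261 := r8261 v5034 v3089 v8247 w2569 v7957 v4060 v7120 w3895
theorem v8262 : PV l8262 := r8262 v5034 v8261 w2449 v6465 v5050 v3308 w3957 w3949 v4049 v3991 v4995
theorem v8263 : PV l8263 := r8263 v4087 v5034 v8262 v4763 v7860 w2449 v8083 v8118 v5033 v5029
theorem v8264 : PV l8264 := r8264 v4967 v4966 v4087 v8263 v8103 v3960 v7871 w2449 v8152 v4552 w3895 v7120 v6130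
theorem v8265 : PV l8265 := r8265 w6295 w6280
theorem v8266 : PV l8266 := r8266 v3089 w2534 w2538 w2569 v8064 v8148 v3293 v3282 w4173 w4191 v8265 v3320 w1529 v3986 w6311 v7120 w4007
theorem v8267 : PV l8267 := r8267 v5034 v2711 v3843 v8161 v8266 w2449 v6465 v5050 v3308 w3957 w3949 v4049 v3991 v4995
theorem v8268 : PV l8268 := r8268 v4087 v5034 v4231 v4232 v8267 v4763 v7860 w2449 v8083 v8118 v5033 v5029
theorem v8269 : PV l8269 := r8269 v3308 w3944 w3895 v5817 v4549
theorem v8270 : PV l8270 := r8270 v480 v5989 v5925 v2681 v3115 v7703 v2988 v3927 v3216 v2742 w4992 v2740 v4087 w2759 w6795 w5512 v4593 v8260 v8235 v5238 w5016 w5099 v4967 v4966 w5514 v4767 v4779 v4189 v2603 v481 v7707 v3491 v3473 v4129 v2808 v2807 v2991 v2992 v2668 v3119 v3219 v328 v2713 v8258 v4084 v4610 v2544 w2924 w8892 w9166 v1594 w5355 w4843 w5385 w5813 v3532 v4888 v4896 v8264 v8268 v8103 v3960 v7871 w2449 v8152 v8269 v7120 v6130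
theorem v8271 : PV l8271 := r8271 v7190 v4602 v4082 v4209 v4087 v7993 v4204 w714 v7979 v8188 v8179 v8177
theorem v8272 : PV l8272 := r8272 v4204 w714 v7979 v8188
theorem v8273 : PV l8273 := r8273 v5218 v4475
theorem v8274 : PV l8274 := r8274 v4087 v2477 v4280 v4260 v8192 w3427 v8031 w5590 w5589 v5871 v8273 w2712 v4474 v1510 v3930
theorem v8275 : PV l8275 := r8275 v8271 v7190 v4602 v4082 v4209 v4087 v8274 v8177 v8272
theorem v8276 : PV l8276 := r8276 v4087 v2477 v4280 v4260 w730 v8008 w3427 w3844 v8031 w5590 w5589 w5719 v5871 v3107 v8273 w9085 w2712 v2453 v1510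
theorem v8277 : PV l8277 := r8277 v7190 v4602 v4082 v4209 v4087 v8271 v8275 v8276 v4204 w694 w714 v8272 v7979 v8202 w3754 w3756 w5679 w5681 v5669 v650 w2269 w1465 w7897
theorem v8278 : PV l8278 := r8278 v7190 v4602 w5099 v4967 v4087 v2477 v4280 v4260 v7991 v8030 v8031 w3427
theorem v8279 : PV l8279 := r8279 v7190 v4082 v4204 w714 v8020 v8202 w3756 w5679 v5669 v650 w8698
theorem v8280 : PV l8280 := r8280 v7190 v4602 w5099 v4967 v4966 v4087 v8277 v1247 v8279 v2477 v4280 v4260 v8278 v8030 w3427 v8031 w5590 w5588 w5589 v5871 v8011 v8273 w2712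
theorem v8281 : PV l8281 := r8281 v8180 v2494 w4263 v7291
theorem v8282 : PV l8282 := r8282 v7982 w5243 w5247 w4658 w5679 w5262 v8021 v7997 w2716 v8281 v3235 v3599 v6842
theorem v8283 : PV l8283 := r8283 v7190 v4082 v4204 w694 w714 v7979 w3427 w3429 w3754 w3753 w3756 v8282 v8183 w5679 w5681 v5669 v650 w2269 w1465 w7897
theorem v8284 : PV l8284 := r8284 v7190 v4602 v4209 w5099 v4087 v8283 v7993 v8274 v8276
theorem v8285 : PV l8285 := r8285 v7190 v4082 v4204 w714 v8020 w3427 w3429 w3753 w3756 v8282 v8183 w5679 v5669 v650 w8698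
theorem v8286 : PV l8286 := r8286 w5099 v4967 v4209 v5989 v5925 v2681 v480 v3509 v2834 v8185 v2992 v4896 v4888 v7190 v4602 v2708 v8235 v5238 v4966 v4087 v481 v7707 v3491 v3473 v2668 v3219 v8280 v8284 v1247 v8285 v2477 v4280 v4260 v8278 v8030 w3427 v8031 w5590 w5588 w5589 v5871 v8011 v8273 w2712
theorem v8287 : PV l8287 := r8287 v4525 v3303 w1742 v3100 v4055 w4022 w4036 w3978 w6248 v3968 w1596 v5671 w2688 v4718 v4720
theorem v8288 : PV l8288 := r8288 v5034 v4967 v3090 w2555 v8287 v4060 v7120 w3895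
theorem v8289 : PV l8289 := r8289 v7703 v4967 v4966 v4087 v5035 v8103 v5034 v4117 v8288 v3075 w2449 v8096 v5050 v4049 v3308 w3957 w3949 v3991 v4995
theorem v8290 : PV l8290 := r8290 v4763 v4967 v4966 v4087 v8248 v5034 v7860 w2449 v8083 v5050 v5022
theorem v8291 : PV l8291 := r8291 v7190 v4602 w5099 v4967 v2477 v4280 v4260 v8030 w3427 w2975 v8031 w5590 w5588 v5871 v2759 v4467
theorem v8292 : PV l8292 := r8292 v5989 v7190 v4602 v2708 v480 v5925 v2681 v8235 v5238 v4132 v7703 w5016 w5099 v4966 w5511 w5512 v2603 v2740 v4087 w4346 v481 v7707 v3491 v3473 v4127 v2991 v2992 v2668 v3118 v3219 w8504 w5353 w5371 w4841 w5344 w5811 v3532 v4888 v4896 v2657 v8286 v8289 v8290 v1247 v8291 v8279 v8285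
theorem v8293 : PV l8293 := r8293 w3648 w3643 v8173 v7978 v2550 v2552 v5674 v3931 v3870 w4266 v5871 w7757
theorem v8294 : PV l8294 := r8294 v7190 v4082 v4087 v4204 w694 w714 v8293 w3427 w3429 w3754 w3756 v8202 v8188 v8184 w5681 v5669 v650 w2269 w1465 w7897
theorem v8295 : PV l8295 := r8295 v2477 v4280 v4260 w730 w727 w699 v8194 w3648 w3646 v8196 w5590 w5588 v7985 v5871 v4466 v1510 v3931
theorem v8296 : PV l8296 := r8296 w3757 w3756 w3753 w3429 w3427 v3223 v3219 w5285 w5287 w5290 v8203 v8183 v8021 w4778 v7982 v2483 v8281 w5664 v2293 v2388 v2380 v620 w8264 w1488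
theorem v8297 : PV l8297 := r8297 w5723 v7190 v4602 v4082 v4209 v4087 v2660 v4208 v8295 v4204 w694 w688 w714 v8294 v8293 w3754 w3756 w3848 v8296 w5679 w5681 v5669 v650 v7982 w2269 w1465 w7897
theorem v8298 : PV l8298 := r8298 w3643 v7978 v2552 w2339 v6862 v5674 w7774 v2651 w5290 w8115 v4274 v3870 w3414 w4658 w7766
theorem v8299 : PV l8299 := r8299 v2555 v8298 w3427 w3429 w3756 v8184 v5669 v650 w8698
theorem v8300 : PV l8300 := r8300 w3648 w3643 v7978 v2550 v2552 v6862 v5674 w7774 v3931 w8115 v3870 w4266 v5871 w7757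
theorem v8301 : PV l8301 := r8301 v7190 v4082 v4087 v4208 v4204 w688 w714 v8299 v8300 w3756 w3848 v8296 w5679 v5669 v650 w8698
theorem v8302 : PV l8302 := r8302 w5723 v7190 v4602 w5099 v4967 v4966 v4087 v2662 v2660 v3927 v4208 v3117 v8297 v1247 v8301 v2477 v4280 v4260 w730 w727 w699 v8207 w3427 w3752 w3845 w3844 v8208 w5683 w5590 w5719 w5718 v5871 v3107 w7877 v2453 w1499 v1510 v6923 w2712 w2321 v5218 w7876 v3579
theorem v8303 : PV l8303 := r8303 w3756 w3429 w3427 w5723 v8202 v8188 v8184 w5585 v5669 v650 v3161 v2651 v4921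
theorem v8304 : PV l8304 := r8304 w5723 w3756 w3848 w2976 v8303 v8296 w5679 w5585 v5669 v650 v7982 v3161 v2651 v4921
theorem v8305 : PV l8305 := r8305 v2980 v2985 v5674 v3870 v3931 w4266 v5870 w7757
theorem v8306 : PV l8306 := r8306 v2992 v4896 v4888 v2708 v7190 v4082 v2555 w5099 v4967 v4966 v4087 v4208 v4204 w688 w714 v8304 v7978 v2550 v2552 w2340 v6862 w7774 w5290 w8115 v8305 v2858 w3439 v3556 v4274 v2650 v6898 w8652
theorem v8307 : PV l8307 := r8307 v2608 v8016 v8014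
theorem v8308 : PV l8308 := r8308 w3434 v8208
theorem v8309 : PV l8309 := r8309 w5285 w5287 v8308 v8307 v8007 w8021 v2550 v2467 v4581
theorem v8310 : PV l8310 := r8310 w5590 v5871 v2550 v6194 v5728 v5510 v2606 v8016 v2462 v2469
theorem v8311 : PV l8311 := r8311 w5099 v4967 v4966 v8310 v8308 v8309 v2980 v2981 v8206
theorem v8312 : PV l8312 := r8312 v7190 v4602 v2708 v4209 w5016 w5099 v4967 v2660 v4208 v2992 v3219 w4497 w4975 v4888 v4896 w5723 v3532 v2657 v8185 v8302 v8306 v2477 v4280 v4260 w691 w699 v8311 w3427 w3755 w2974 v8308 w5680 w5590 v5871 v5218 v3572 v762 w7868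
theorem v8313 : PV l8313 := r8313 v4332 v4336
theorem v8314 : PV l8314 := r8314 w5584 w7660 w7460 w3841
theorem v8315 : PV l8315 := r8315 v3239 v3236 w5231 w5232 w5234 v2413 v2439 v7334 v2975 v4496 v4494
theorem v8316 : PV l8316 := r8316 v7703 w5099 v4967 v5035 v5102 v3239 v3101 v6442 v2549 v2425 v5173 v3322 v2609 v8315 w5517 w5519 v8314 w7453 v4079 w2710 v4488
theorem v8317 : PV l8317 := r8317 v5035 v2425 v2424 v1128 v648 w3640 v2317 w7460 w7608
theorem v8318 : PV l8318 := r8318 v3926 v3324 v3327 v8317 v4588 v5093 v5149 v5140 v5080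
theorem v8319 : PV l8319 := r8319 v5035 v4832 v4844 v7190 v4602 v2708 v4209 v7703 w5099 v4967 v4966 v4834 v4087 v4208 v4127 v8318 v8316 v8177 v2477 v4280 v4260 w730 w727 w699 v8311 v8194
theorem v8320 : PV l8320 := r8320 w8021 w7929
theorem v8321 : PV l8321 := r8321 v8320 v6862 v656
theorem v8322 : PV l8322 := r8322 v8321 v5708 v6194 w7774
theorem v8323 : PV l8323 := r8323 w5285 w5287 w5290 v27 v8021 w8187 v8175 v2608 v8174 v4949 w2713 w4263 v1446
theorem v8324 : PV l8324 := r8324 v7190 v4082 v4204 w694 w714 v8177 v8322 w3427 w3429 w3754 w3756 v8323 w5679 w5681 v5669 v650 w2269 w1465 w7897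
theorem v8325 : PV l8325 := r8325 v2981 v2467 v8005
theorem v8326 : PV l8326 := r8326 v3223 v3219 w5285 v8007 v2606 v2607 w1537 w1534 v8325 w3434 w3435 w3437 v2469 v2381 v2382 v2378 v54 v762 v677
theorem v8327 : PV l8327 := r8327 v2980 v2827 v8011 v28 v1091 v2381
theorem v8328 : PV l8328 := r8328 v3107 v2550 w7877 v5510 w1601
theorem v8329 : PV l8329 := r8329 w5099 v4966 v3219 v8173 v8326 w5683 w5682 w5590 w5588 w5719 w5718 v8327 w3435 w3524 w3525 v8328 v2385 v2382 w7966 w7921 w1498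
theorem v8330 : PV l8330 := r8330 v7987 w2712 w2715 v5218 v3932 v3578 v3613 v4457 v3175 w4672 w7965
theorem v8331 : PV l8331 := r8331 v3223 v3219 w5285 w5286 v8330 v2381 v2382 v2378 v4580 v2450 v2451 v2447 v54 w8287 v762 v676
theorem v8332 : PV l8332 := r8332 v762 w7868
theorem v8333 : PV l8333 := r8333 w3427 w3752 w3753 w3755 w3847 v8331 w5680 w5682 v8332 w1469 w7826 w7921
theorem v8334 : PV l8334 := r8334 v8246 v481 v480 v5989 v5925 v2681 v7707 v8230 w4894 w4561 v7703 w4888 v1210 v7706 v3927 v3216 v2742 w4992 v5035 v4832 v4834 v2740 v4087 w2759 w6795 v3444 w3556 v3122 v3345 w5008 v4138 w9176 v3423 v4183 v1209 v3008 w4882 v4971 v4970 v503 w4871 w4878 w4346 v2662 v2661 v2660 v3491 v3473 v4208 v4127 v4129 v2808 v2988 v2987 v2668 v3121 v3119 v3118 v3117 v3115 v3223 v3219 v4844 v2603 v8232 w5016 w5512 w5514 w5099 v4593 v4189 v4779 v4767 v4966 v4967 v8260 v4132 v4130 v4209 v5238 v3509 v8235 v2834 v2837 v2836 v8270 v2555 v2557 v7190 v4084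 v4082 v4602 w3582 v2708 w9044 v8292 v8312 w4287 w4840 w4841 w4843 w4842 w9074 w8525 w9087 v1594 w9163 w8505 v1246 v7726 v4445 w1551 v2254 w1607 v8185 w8866 v8319 v8324 v2477 v4280 v4260 w730 w727 w722 w691 w699 w695 v8333 v8322 v8329 v8326 w5680 w5683 w5590 w5588 w5719 v8327 w3437 w3524 v8332 v8328 w8673 v2378
theorem v8335 : PV l8335 := r8335 v5035 v4834 w4566 v7973 w4725 v4896
theorem v8336 : PV l8336 := r8336 v4084 v2539 v7760
theorem v8337 : PV l8337 := r8337 v2615 v3444 v5035 v4834 v7703 v328 v2713 v8335 v495 v4593 v4779 v8336 v2596 v6261 w2924 v6294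
theorem v8338 : PV l8338 := r8338 v2550 v4583 w8209 v2613
theorem v8339 : PV l8339 := r8339 v2567 v8338 v2467 v4581
theorem v8340 : PV l8340 := r8340 v2858 v4273 v4814
theorem v8341 : PV l8341 := r8341 v2858 v8340 v3556 v3598
theorem v8342 : PV l8342 := r8342 v8281 v2494 v8174 w2713 v1446 w8053
theorem v8343 : PV l8343 := r8343 v2485 v2471
theorem v8344 : PV l8344 := r8344 v4125 v2567 v5871 v43 v2550 w1527 w7878
theorem v8345 : PV l8345 := r8345 v7703 v2980 v2803 v8344 v1446 v3235 v8305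
theorem v8346 : PV l8346 := r8346 w5679 w5681 w5590 w5717 v8345 w3436 w3438 v7982 v5669 v650 w2269 w1465 w7897
theorem v8347 : PV l8347 := r8347 v3235 v8305
theorem v8348 : PV l8348 := r8348 v2567 v8338
theorem v8349 : PV l8349 := r8349 v3930 v3931 v8325 v8014
theorem v8350 : PV l8350 := r8350 w5285 w5287 w5289 v8349 v2646 v1510 v28 v3235 v4581 w4660 v3563 v3875
theorem v8351 : PV l8351 := r8351 v328 w2924 w3650 w3651 w3712 w3714 w3648 w3643 w3645 v8350 w5679 w5683 w5590 w5587 v1509 v28 v7985 v3171 v2649 v4460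
theorem v8352 : PV l8352 := r8352 w5285 w5286 w5288 v8308 v8348 v2980 v2985 v2827 v3234 v8350 v3611 v4290
theorem v8353 : PV l8353 := r8353 v7703 w5099 v4967 v328 w2924 w6731 v2614 v3219 w756 v2477 v4280 v4260 w691 w699 w695 v8351 v8352 w5680 w5682 w5590 w5717 v5871 v8344 v2550 w3727 w3731 w7878 v8332 w1503 w7919 w7826 w2276
theorem v8354 : PV l8354 := r8354 v1510 v5744 v3931
theorem v8355 : PV l8355 := r8355 v5042 v1446 v5162 w4266 w4265 v3228 v3870 v4926
theorem v8356 : PV l8356 := r8356 v328 w2924 w3649 w3651 w3648 w3643 w3644 w3647 v8347 v8355 v1510 v3931 v6565 v6570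
theorem v8357 : PV l8357 := r8357 v2980 v2981 v2984 v2985 v8347 v8355 v8348
theorem v8358 : PV l8358 := r8358 v8246 v8230 w4894 w4561 v7703 w4888 v1210 v481 v480 v5989 v5925 v2681 v7707 v7706 v3927 v3216 v2742 w4992 v5035 v4832 v4834 v2740 v4087 w2759 w6795 v3444 v3423 v1209 v3008 w4882 v4971 v4970 v2661 v3491 v3473 v4208 v4129 v2808 v2988 v2992 v2668 v3118 v3115 v3219 v4844 v328 v8334 v2615 v2614 v8337 v2555 v2557 v8216 v8217 w5016 w5512 w5514 w3749 v2544 w2924 w5099 v4593 v4189 v4779 v4767 w9146 w6731 w6374 v4966 v4967 v8260 w813 v7923 w9135 v5660 v4132 v4209 v3509 w8728 v2834 v2836 w5406 w9087 v3532 w4841 v2657 v4888 v4896 v8185 v8353 v4204 w694 v8356 v8346 w5285 w5286 w5287 w5290 v8357 w3435 v8341 v2474 v8342 v3234 v2382 v8175 v3616 v2648 w8268 w8649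
theorem v8359 : PV l8359 := r8359 w5824 v3223 v7703 v328 v2603 v8243 v2555 v2557 v7977 v7735
theorem v8360 : PV l8360 := r8360 v3216 v503 v5035 v4832 v4844 v4834 v7703 v3008 v481 v480 v5989 v5925 v2668 v2987 v2681 v7707 v3491 v7706 v3927 v8230 v2740 w4882 w4894 w4888 w4871 v2742 w4992 v4087 v4971 w4561 v1210 w2759 w6795 v3444 v3423 v8246 v8358 w5824 w4571 v8359 v2615 v8144 v2557 v8245 v4084 v7935 w9146 w8989
theorem v8361 : PV l8361 := r8361 v8231 v8036 v4608 v2590
theorem v8362 : PV l8362 := r8362 v8110 v5653 v8094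
theorem v8363 : PV l8363 := r8363 v2590 v5653
theorem v8364 : PV l8364 := r8364 w5818 v2713 v5035 v4834 v7703 v328 v8361 v8362 v8363 v4084 v4608 w3582 v4610 w9136
theorem v8365 : PV l8365 := r8365 v8231 v8036 v4608 v2544 v7478
theorem v8366 : PV l8366 := r8366 v2568 v5653 v7469 v2544
theorem v8367 : PV l8367 := r8367 w3582 v4610 w9136
theorem v8368 : PV l8368 := r8368 v4183 v2713 v5035 v4834 v7703 v328 w5818 v8365 v8366 v4084 v8367 v4608 w2924 w6585
theorem v8369 : PV l8369 := r8369 v626 w9174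
theorem v8370 : PV l8370 := r8370 v2568 v2571 w8978 v2707 w3824 v2590 w8467 w8685
theorem v8371 : PV l8371 := r8371 v4183 v2713 w5407 v6818 v2711 v3336 v2658 w5380 v5035 v4834 v476 v3219 v5224 v3119 v3117 v3115 v2814 w3540 v6270 v4129 v2674 v627 w1544 w1593 v8368 w5812 w5810 v8369 w3795 w8525 v8370 v4084 v4082 w8892 v2544 w3852 v4610 v6179
theorem v8372 : PV l8372 := r8372 v7703 v8371 v3444 w4555 v3439 v1145
theorem v8373 : PV l8373 := r8373 v5035 v4834 v7703 v2996 v3422 v494 w4555 w4561 v4789 w4884 v3006 v4860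
theorem v8374 : PV l8374 := r8374 w9173 v627
theorem v8375 : PV l8375 := r8375 v3119 v3118 v3219 v4129 v2848 v4165 v4164 v1594 w3468 w3467 v6246 w8656 w8350
theorem v8376 : PV l8376 := r8376 v6818 v476 v3219 v5175 v4252
theorem v8377 : PV l8377 := r8377 v2555 v7190 v4082 v4602 w8866 v2708
theorem v8378 : PV l8378 := r8378 v3119 v8374 v5035 v4834 v8373 v8375
theorem v8379 : PV l8379 := r8379 v8360 v476 v6818 v5035 v4834 v3219 v5224 w5380 v2658 v3119 v8374 w1545 w1544 v8376 v8378 v2848 v2711 v4832 v4844 w5407 v8372 v8377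
theorem v8380 : PV l8380 := r8380 v2571 v7766 v2544 v8107
theorem v8381 : PV l8381 := r8381 v2713 v4084 w8892 v2544 v6045
theorem v8382 : PV l8382 := r8382 v3444 v2533 v491
theorem v8383 : PV l8383 := r8383 v2713 v8381 v8380
theorem v8384 : PV l8384 := r8384 v2571 v7719 v2544 v2578 w8936
theorem v8385 : PV l8385 := r8385 v4600 w3582 v7736
theorem v8386 : PV l8386 := r8386 v8360 v6818 v2711 v2658 v3933 w5380 v5035 v4834 v476 v3219 v5224 v3216 v3119 v8374 v3464 w1545 w1544 w1593 v8376 v4129 v1594 v8378 v8379 w5824 v8382 v8383 v2557 v8384 v4084 v8385 v2544 v4598 w8927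
theorem v8387 : PV l8387 := r8387 v2249 w8374 w8350 w8375
theorem v8388 : PV l8388 := r8388 v5521 w7830 v656
theorem v8389 : PV l8389 := r8389 w5735 w5733 v27 v1697 w8187 w2269 w1536 w8229
theorem v8390 : PV l8390 := r8390 w7947 w7850
theorem v8391 : PV l8391 := r8391 v5521 v8388 v5532
theorem v8392 : PV l8392 := r8392 w7791 w8237
theorem v8393 : PV l8393 := r8393 v1705 w8027
theorem v8394 : PV l8394 := r8394 v2564 v2565 v8393 w2712 v4477 v4289 v4653
theorem v8395 : PV l8395 := r8395 w5288 w5731 w5734 w4673 w4674 v8394 w2335 w2338 w2336 v678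
theorem v8396 : PV l8396 := r8396 w1537 w1534 w1535 w8285 v672
theorem v8397 : PV l8397 := r8397 w5735 w5736 v8388 v27 w3754 w3756 w3757 w8187 v8389 v1697 w1539 w2258 w8226
theorem v8398 : PV l8398 := r8398 v7293 w2339 w2337 w7774 w1538 w1536 v6862 v732 v5669 w3670 w8457 w7810
theorem v8399 : PV l8399 := r8399 w8229 w7897
theorem v8400 : PV l8400 := r8400 w8328 w694 w688 w714 v8397 w5719 v8398 w3752 w3754 w3756 w3844 v8390 w1536 w1601 w7985 w1534 w2332 w7877 w740 v673 v8399 v1104 v1697 v5669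
theorem v8401 : PV l8401 := r8401 v3933 v2450 v2451 v2448 w8288 w8204 w8284 v2313 v4562
theorem v8402 : PV l8402 := r8402 w5285 w5286 w5735 w5732 w5731 w4676 v8391 w3427 w3428 w3752 w3753 w3756 w3755 v8395 v7840 v8401 v4584 v3234 v5680 v3615 v3230 v3891
theorem v8403 : PV l8403 := r8403 w8127 v1497
theorem v8404 : PV l8404 := r8404 v2564 w2332 w2329 v5510 v8393 v2607 w1538 w1536 w1601 w1603 w1534 v4474 w7877 w7874 w4608 w3710 w3706 w3696 v1091 v8403 w7785 w5606 v1104 w7706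
theorem v8405 : PV l8405 := r8405 v2269 w699 w691 w3648 w3647 v8404 w2335 w2338 w2336 v8392 w8210 w1534 v1091 w3680 w3683 v8396
theorem v8406 : PV l8406 := r8406 v2269 w695 w699 w691 w2283 w2287 w7825 w7826 w8162 w8164 w5621 w5655 v740 w5601 v2286 v2327 v741 w8161 w8250 v2283 w8248
theorem v8407 : PV l8407 := r8407 w690 w695 w699 v2658 v2657 v8406 w7922 w8253 v4908 w8832 w4632 w5657 w8155 w8252 w8163
theorem v8408 : PV l8408 := r8408 w8164 w5653 w7825 v1104 v29 v1279 w7918 w8248 w5627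
theorem v8409 : PV l8409 := r8409 w690 v2269 w699 v2657 v2564 w2332 w2331 w2330 w7877 w7876 w7875 v2453 w1499 w1495 w1498 w1497 w1492 w1494 v1705 v8407 w8459 v8185 w8155 v8408 w7922 w8253 w4632 v4908
theorem v8410 : PV l8410 := r8410 v4208 v2711 v2477 v4280 w726 w730 w727 w722 w691 w699 w695 v8402 w5719 w5718 w5717 w5716 v8405 w3752 w3754 w3753 w3756 w3757 w3755 w3846 w3845 w3844 v8409 w2335 w2338 w2336 v8396 v8390 w7928
theorem v8411 : PV l8411 := r8411 v3239 w5581 w5582 w5583 w7481 v2318 v2345 w3151 w3603 v47 v2519 v4963 w1431 w5211 w4729 v747 w8221 w7416 w2220 w3628 w7640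
theorem v8412 : PV l8412 := r8412 v3236 w5232 w5233 w5235 v2519 v6276 v2346
theorem v8413 : PV l8413 := r8413 v2424 v1128 v2796 v648 v5098 v2352
theorem v8414 : PV l8414 := r8414 v3236 v5035 v2425 v2435 v8412 w5581 w5582 w5583 w5584 w7481 v2318 w3152 v2319 v47 w7418 w1431 w1424 v3325 w1410 v747 w649 v2406 w635 w7416 v4484 w3630 w3620 w4731 w4605 w7725 w7626 w2217
theorem v8415 : PV l8415 := r8415 w5511 v3344 v5102 v2513 v3236 v3101 v3102 v3103 v3106 v8414 v4588 v5151 v2419 v5078 v2364 v5095 v747 w5221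
theorem v8416 : PV l8416 := r8416 v2424 v1128 v2796 v648 v2352 v2421 v5084
theorem v8417 : PV l8417 := r8417 w5514 v4767 v4779 v8415 v3925 v3926 v3327 v2644 v8416 v4588 v2418 v5093 v5149 v3236 v2349 v6423
theorem v8418 : PV l8418 := r8418 v3236 w5295 v3624 w5239 w3432 w3388 w7639 w2214 v603 w1405 v8411 w5232 v2370 v6276
theorem v8419 : PV l8419 := r8419 v3239 v4303 v4305 v4298 v8418 w4415 v4963 v4964
theorem v8420 : PV l8420 := r8420 w5295 w5239 v3623 w3432 w3521 w3388 w7625 w7478 v1308 w2215 w5568 w1404 v761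
theorem v8421 : PV l8421 := r8421 v8420 v5103 v3620
theorem v8422 : PV l8422 := r8422 v4091 v4200 v4276 v4277 v8421
theorem v8423 : PV l8423 := r8423 v2814 v7703 v2996 v2435 v2429 v8419 v3325 v8413
theorem v8424 : PV l8424 := r8424 v5151 v2419 v5078 v2364 v5095 v747 w5221
theorem v8425 : PV l8425 := r8425 w5169 w4679 w5267 v8423
theorem v8426 : PV l8426 := r8426 w5295 v3624 w5239 w5242 w3432 w3388 w7639 w2214 w2215 v603 w1404 v761 w635 w7699 v747 v2340 w5224 v2519
theorem v8427 : PV l8427 := r8427 v3239 v3236 v2364 v8426 v456 v460 v450 w5230 v2518 v5075 v5096 v747 v2975 w3386 v3632 v2441 v2442 w636 w635 v4494 v1485 w4603 w2203 v761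
theorem v8428 : PV l8428 := r8428 w3708 w3706 w3524 v7703 v2994 w3171 v4909 w4632 v4183 w708 v4208 w688 v2814 v2250 w5514 v4767 w5512 v4593 w5511 w5513 v2257 w3540 v2815 v2996 v3344 v3334 v2658 v3933 v3121 v5035 v4832 v4844 v4834 w2283 w2287 w7730 w4624 w4628 w4640 w5655 w5602 w5601 v2327 v732 v2282 w8064 w3693 v2322 w3696 w3661 w8393 w7873 w8226 w7874 v4126 w728 w2252 w2245 w7731 w7702 v8417 v8318 v2510 v2512 v5102 v2513 v2515 v3236 v3102 v3103 v3104 v3106 v8422 v4303 v4298 v8424 v8425 w5324 v8427 v3323 v3325 v8317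
theorem v8429 : PV l8429 := r8429 w5512 v4593 v1705 v7703 v2994 w3171 v4909 w694 v2814 v2257 w3783 v2250 v4129 w5514 v4767 v4189 w5513 v3423 v2657 v5035 v4832 v4844 v4834 v2473 w684 w740 v8393 w7877 w4599 w4632 w4611 w3710 w3706 v1091 v8428 w8459 w8443 w5653 w7730 v1104 v732 v6715 v5669
theorem v8430 : PV l8430 := r8430 w5295 v3624 w5239 w3432 w3388 w7639 v1308 w2215 w1404 w1405 v761 v8411 w5597
theorem v8431 : PV l8431 := r8431 v4963 v4964
theorem v8432 : PV l8432 := r8432 w7727 v2714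
theorem v8433 : PV l8433 := r8433 v3239 v8431 w4679 w5267 w4415 v8430
theorem v8434 : PV l8434 := r8434 v3624 w5242 w3432 w3388 w7639 v1308 w2215 w1404 v761
theorem v8435 : PV l8435 := r8435 w3667 v2322 v7703 v2994 w3171 v4909 w4632 w5714 v4208 w688 w694 w5514 v4767 w5512 v4593 w5511 v2814 w3821 v2257 w3540 v2815 v2996 v4183 v3344 v3334 v2658 v2657 v3933 v3121 v5035 v4832 v4844 v4834 w4622 w5650 v732 w5600 w5608 v2327 w8393 w8226 v767 v2314 w2278 w2258 w2252 v8399 w8373 w3436 w3733 w3660 w4763 w4766 w5644 v8417 v8318 v2510 v2512 v5102 v2513 v2515 v3236 v3239 v3102 v3103 v3104 v3106 v8432 v8422 v4303 v4305 v8424 v8431 v2435 v2428 v2432 v2438 w4730 v6373 w4604 v8433 v2969 w5324 v8434 v456 v460 v450 v445 v5106 v2518 v5075 v2415 w3432 v4573 v3632 v2441 w7639 v4494 w2215 w4603 v761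
theorem v8436 : PV l8436 := r8436 v4208 w688 w5512 v4189 w5513 v3423 w3693 w3667 v8435 v5669 w5605 v2715 w5603 v734 w7982 w2258 w2276 w7731 w7898
theorem v8437 : PV l8437 := r8437 w8064 w5605 w5606 v734 w7730 w2258 w2269
theorem v8438 : PV l8438 := r8438 w5716 w5715 w5714 w5719 v4208 w688 w694 v4204 v2814 v2257 w3783 v2250 w5514 v4767 w5512 v4593 v2713 v4183 v2604 v2711 v5035 v4832 v4844 v4834 v2564 w2332 w2329 w2328 v5510 v1705 v2607 v2608 w1538 w1536 w1539 w1601 w1603 w1604 w1537 w1534 w1535 w8255 v4945 v8429 v4201 v4202 w700 w703 w712 w8053 v4954 w4599 v2763 w4611 w4608 v4087 v8436 w3670 v8437 v732 v6715 w5606 w7730 w7810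
theorem v8439 : PV l8439 := r8439 w694 v2814 v2257 w3783 w5514 v4767 w5512 v4189 w5513 v3423 v2711 v5035 v4832 v4844 v4834 w3648 w3646 w3647 v8438 w2339 w2337 w8210 w1538 w1536 v6862 v732 v5669 w3670 w8457 w7810
theorem v8440 : PV l8440 := r8440 v2814 v2257 w3783 v2250 v2711 w5407 w3852 w8805 w8328 v2544 v4208 v4127 v4129 w5514 v4767 v4779 w5512 v4189 v4593 w5513 v3423 v7703 v2994 w3171 v2713 v3008 v1218 w5103 v2604 v2662 v2660 v3927 v425 v3007 v3006 v1149 v1150 v428 v5035 v4832 v4844 v4834 v8410 w694 w688 w714 v8400 v8397 w5719 v8439 w3752 w3754 w3756 w3844 v8390 w1538 w1536 w1601 w7985 w1534 v8399 w2332 w7877 w740 v673 v1104 v616 w7981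
theorem v8441 : PV l8441 := r8441 w5735 v8391 v1698 w3756
theorem v8442 : PV l8442 := r8442 w3427 w3752 w3754 w3756 v8390 v1698 v2606 w1536 w7985 w1534 w5298 v5669 v2564 v2462 v2473 v673 w8231 v1104 v740 w7897 w5619 w5602
theorem v8443 : PV l8443 := r8443 v1705 v2473 v8393 v2462 w4640 v2827 v2829 w7730 v1091 v1104
theorem v8444 : PV l8444 := r8444 v4208 w688 v4204 v6818 v2658 v2657 v3933 v473 v476 v3223 v3219 v1698 v2831 w3667 w5298 w5314 w5317 v5669 v650 v3161 v3171 v2379 v2651 w1452 w1465 v4919 v4626 v1705 w4756 v4283 v4284 v4808 v4936 v2450 v2451 v2447 w4746 v8443 v4201 v5881 w4641 w4623 w4621 w7982 v734 w2262 v2312 w7731 w7898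
theorem v8445 : PV l8445 := r8445 v638 w8145 w8064
theorem v8446 : PV l8446 := r8446 v4208 w688 v4204 v3223 v3219 v3161 v3171 v2379 v6779 v6793 v4929 v1705 w1452 w1465 w4754 v2450 v8437 v8443 v4201 v4202 v5881 v5111 w4613
theorem v8447 : PV l8447 := r8447 w7810 w7730
theorem v8448 : PV l8448 := r8448 v6818 v2711 w8805 w8328 v2673 v2658 v2657 v473 v476 v3223 v3219 v4204 w694 w714 v8441 v8442 w3648 w3643 w3644 w3645 w3646 v8398 v4909 v4903 v8444 w3438 v2850 w3670 v8445 w5298 w5317 v8446 v6192 w8796 v2651 w1465 v8447 w5602 w4637 w4651 v2760 v2764 v4941 v1705 v8393 v5881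
theorem v8449 : PV l8449 := r8449 v2379 w2307 w7872 v2454 v3577 w1485 v1705 v741 v7840 v5218 w2712
theorem v8450 : PV l8450 := r8450 v7840 v4649 w2716
theorem v8451 : PV l8451 := r8451 v2658 v2657 v3933 v3223 v8449 w8284 w8249 v2448 v3537 w1515 w1507 w1505 w1473 w1454 v4908 v4891 w7924 w7923 w4658 w2327 v2387 v3165 v605 v1705 w3738 v8450 w8155 w4632 w4618 v6923 w5600 w2280 w8248 v2283
theorem v8452 : PV l8452 := r8452 v2658 v2657 v2651 w1452 w1465 v4625 v3157 v3159 v3591 w7958 w3436 w5629 w7961 v2306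
theorem v8453 : PV l8453 := r8453 v7840 v5218 w2712
theorem v8454 : PV l8454 := r8454 w5602 v2306 w5621 v4570 w8164 w2278
theorem v8455 : PV l8455 := r8455 v2269 w699 v2658 v3933 v3223 v3219 w3414 v2831 w3690 v2322 w3696 v8451 w5308 w5317 w5325 v8452 v2448 v3537 v3570 w1473 v2305 w7918 v3168 v2379 v4670 v1705 w3434 w3436 v8453 v8454 w7825 v1104 v2314 w7922 w8522 w5646
theorem v8456 : PV l8456 := r8456 w5514 v4767 v4779 w5512 v4189 v4593 w5513 v3423 w5407 w5810 w5812 w5811 v5035 v4834 v476 v3219 v5224 v2814 v2257 v7703 v2996 w3186 v2994 w3168 w3171 v2993 w3164 w3540 v2713 v3008 v1218 w5103 v4183 v2604 v2662 v2661 v3927 v425 v3007 v3006 v1149 v1150 v428 v6818 v2711 v4832 w3202 v3336 v3334 v3933 v3121 v3216 v3118 v3117 v3115 v3223 v4844 v404 v4127 v4208 v5988 v2673 v8387 w3504 w3786 w9074 w8525 v8370 v4084 v4082 w8892 v2544 w3852 v20 w9089 v5571 v4605 v8094 w6714 w8805 w6497 w8328 v668 v2250 w3783 v2809 w8481 w8526 v4180 w764 v3512 v483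 v8440 v8448 v2477 v4280 v4260 w730 w722 w691 w699 w695 v2269 w719 w690 v8402 w5719 w5714 w5716 v8455 w3438 w3024 w3010 w3003 w3677 w3756 v8404 w2335 v1091 v2444 w8521 v1705 w5309 w7749 v3234 v6229 v3884 v3883
theorem v8457 : PV l8457 := r8457 v8360 w5407 v7703 v3008 v8386 v1218 w4860 v5035 v4834 v476 v3219 v5224 w4864 v5601 v2604 v425 v3007 v6818 v3336 v3933 v473 v503 v3115 v3223 w3540 v8364 w5513 w5812 v3423 v8456 v2703 v2689 v668 w8481
theorem v8458 : PV l8458 := r8458 v6818 v476 v3219 v5175 v2848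
theorem v8459 : PV l8459 := r8459 v7190 v4603 v4602
theorem v8460 : PV l8460 := r8460 v2536 v3439 w3469 w5354 v668 v3419
theorem v8461 : PV l8461 := r8461 v5035 v4834 v3115 v8360 v476 v6818 v3336 v8458 v7703 v3008 v8386 v1218 v1149 w4860 v3219 v5224 w4864 v5601 v8460 v2604 v2713 v8457 w5824 v8380 v8383 v4084 v5778 w3582 v6045
theorem v8462 : PV l8462 := r8462 v7703 v3008 v1218 v1149 v2557 v8459 w5824 v8384 v4084 v7757 w9011 v4598 w8927
theorem v8463 : PV l8463 := r8463 v7703 v3008 v8386 v1218 w4860 v5035 v4834 v8360 v476 v3219 v5224 w4864 v5601 v2604 v1149 v8458 v6818 v3336 v3115 v4832 v4844 v8460 v8462 v8457 v8461 w5824 v4253 v8383 v2674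
theorem v8464 : PV l8464 := r8464 v626 w4821 w8607 v3835 v2945
theorem v8465 : PV l8465 := r8465 v2568 v2590 v6952 w3582
theorem v8466 : PV l8466 := r8466 w5513 v2713 w5196 v1243 v7703 v2990 v6818 v3118 v3117 v3115 v3219 v328 v2673 v4165 v4164 v4163 v8464 w3506 w8774 w3795 v2250 w5781 w8504 w8503 w5401 w8798 v3491 v8465 v4084 v8367 v7659 v8110
theorem v8467 : PV l8467 := r8467 w4583 v3625 v4479 v2979
theorem v8468 : PV l8468 := r8468 v6625 w3944 w3938 v5067 v4055
theorem v8469 : PV l8469 := r8469 w2488 w2442 v8468 v7820 v4006 v3070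
theorem v8470 : PV l8470 := r8470 v5034 v6465 v5050 v6156
theorem v8471 : PV l8471 := r8471 v7793 v4069
theorem v8472 : PV l8472 := r8472 v5034 v6521 v7859 w3938 v3308 v4759
theorem v8473 : PV l8473 := r8473 w2463 w2449 v6048 v7779 v6156 v4542
theorem v8474 : PV l8474 := r8474 v3303 v4753 v5045 w3907 v4732
theorem v8475 : PV l8475 := r8475 v4087 v425 v3006 v3008 v1149 v328 v4763 v8473 v3089 w2488 v8472 v8474 v3308 v8051
theorem v8476 : PV l8476 := r8476 w2488 w2442 v8468 v7820 v4006 v3071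
theorem v8477 : PV l8477 := r8477 v1244 v8476 w2463 w2449 v8473 v8470 v728 v8471 v5050 v6156
theorem v8478 : PV l8478 := r8478 v1244 v4087 v3008 v1218 v425 v3007 v3006 v1149 v421 v328 v8477 v4763 v8475 v8473 v3089 w2488 v8472 v8474 v4548 v3308 w3938 v4520
theorem v8479 : PV l8479 := r8479 v728 v5655 v4048
theorem v8480 : PV l8480 := r8480 w2463 w2449 v8473 v728 v8479 v6156 v4045
theorem v8481 : PV l8481 := r8481 v1244 v3008 v1218 v425 v3006 v1149 v421 v328 v3089 w2488 w2450 v8476 v8472 v8474 v3308 v5957 v4520 w3938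
theorem v8482 : PV l8482 := r8482 v6476 v7793 v6962
theorem v8483 : PV l8483 := r8483 v6156 v6130 v5050
theorem v8484 : PV l8484 := r8484 v4087 v8481 w2449 v1244 w2463 v8483 v5842 v4763 v3008 v1218 v425 v3007 v8478 v8482
theorem v8485 : PV l8485 := r8485 v1244 v4087 v8481 w2463 w2449 v8483 v3303 v5842 v728 v8484 v8480 v4048 v4017 w3913
theorem v8486 : PV l8486 := r8486 v2701 v4085 w6047 w6014 w1530
theorem v8487 : PV l8487 := r8487 w2488 v8468 v7820 v5847 v3291 v3282 w4170 w5098 v8486 v728 v3320 w6014 w6114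
theorem v8488 : PV l8488 := r8488 v3008 v1218 w5103 w6732 v425 v3006 v1149 v421 v328 v3089 w2488 w2529 w2442 w2569 v8487 v8472 v8474 v3308 v4520 v4523
theorem v8489 : PV l8489 := r8489 w2463 w2449 v8483 v8473 v4763 v8471 v6465
theorem v8490 : PV l8490 := r8490 v8485 v1244 v4087 v3008 v1218 v425 v3007 v1149 v8488 v3075 w2463 w2449 v8483 v3303 v8489 v8482 v4763 v5045 v8083 v5034
theorem v8491 : PV l8491 := r8491 v3625 v3623
theorem v8492 : PV l8492 := r8492 v3240 v7259 v439 v5057 v3676 v4325 v4764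
theorem v8493 : PV l8493 := r8493 v3679 v3671
theorem v8494 : PV l8494 := r8494 v425 v3007 v3008 v1149 v1150 v3242 v8492 v2971 v7875 v8493 v7088 v441 w4372 v4317 w6818
theorem v8495 : PV l8495 := r8495 v4828 v3207
theorem v8496 : PV l8496 := r8496 v4764 v8495 v6081 v439 v4325 v4326
theorem v8497 : PV l8497 := r8497 v2882 v4177 v5057 w6888 v3653 w5077 v4829 v4352
theorem v8498 : PV l8498 := r8498 v1000 v2882 v3241 v3187 v4351 v3643 v3647 v3313 w6975 w6881 w389
theorem v8499 : PV l8499 := r8499 v1243 v2882 v2874 v2875 v8496 v3669 v7894 v441 v439 w5106 v8497 v1000 v996 v3709 w4362 w5049 w5024 v4972 w3243 v8498 v3654 v4326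
theorem v8500 : PV l8500 := r8500 v7065 v6076 v3674
theorem v8501 : PV l8501 := r8501 v8500 v7775 v3688 v4340
theorem v8502 : PV l8502 := r8502 v3205 w2569 w2442 w2488 v8469 v8468 v8499 v7820 v3291 v3282 v5861 w4170 w5098 v8486 v728 v3320 w6014 w6032
theorem v8503 : PV l8503 := r8503 v8472 v8474 v3308 v5957 v4520 w3938
theorem v8504 : PV l8504 := r8504 v1242 v3201 v8501 v8502
theorem v8505 : PV l8505 := r8505 v3242 v3679 v7852 w4372 w6813
theorem v8506 : PV l8506 := r8506 v425 v3007 v3008 v1149 v1150 v3242 v8492 v8494 v2971 v7875 v8505 v7088 v441 w4372 v4317 w6818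
theorem v8507 : PV l8507 := r8507 v2713 v3008 v1218 v1149 v4785 v425 v3007 v2604 v7708 w5513 v2590 w3582 w9136 w5103 w6732 v1244 v1243 v4790 v3006 v421 v428 v328 v3089 w2488 w2529 w2450 v8504 v8503
theorem v8508 : PV l8508 := r8508 v6962 w3907 v6163
theorem v8509 : PV l8509 := r8509 v2713 v3008 v1218 v1149 v4785 v425 v3007 v2604 v7708 w5513 v2590 w3582 w9136 v1244 v4087 v1243 v1242 v4790 v1150 v8485 v8490 v8506 v8507 v3075 w2463 w2449 v8480 v8483 v3303 v8508 v4763 v5672 v8083 v5034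
theorem v8510 : PV l8510 := r8510 v3008 v1218 w5103 w6732 v425 v3006 v1149 v421 v328 v3089 w2488 w2529 w2442 w2569 v8487 v8472 v8474 v8045
theorem v8511 : PV l8511 := r8511 v1244 v4087 v3008 v1218 v425 v3007 v1150 v8510 v3075 w2463 w2449 v8489 v8483 v8482 v3303 v4763 v5672 v5675 v5842 v4737
theorem v8512 : PV l8512 := r8512 v2882 v8495 v1000 v4361 v4358
theorem v8513 : PV l8513 := r8513 v2700 v4177 v5057 w6888 v3653 w5088 v3639 w8363
theorem v8514 : PV l8514 := r8514 v3008 v1218 w5103 w6732 w2569 w2442 v2991 w2529 v328 w2488 v2713 v1149 v4785 v425 v3007 v2604 v7708 w5513 v2590 w3582 w9136 v1243 v1242 v4790 v3006 v421 v428 v8476 v8469 v8468 v8506 v7820 v3201 v3197 v3205 v8501 v3291 v3282 v5861 v2882 v2871 v2874 v2875 w4170 w5098 v8486 v728 v3320 w6014 w6032 v8512 v3669 v7894 v441 v439 w5106 v8513 v1000 v996 v3709 w4362 w5049 w5024 v4972 w3243 v8498 v3654 v4326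
theorem v8515 : PV l8515 := r8515 v1244 v1243 v3008 v1218 v1149 v4785 v4790 v425 v3006 v328 v3089 w2488 w2450 v8514 v4763 v8472 v8474 v3308 v7118 v7859 w3897 v4548 v4543
theorem v8516 : PV l8516 := r8516 v2713 v3008 v1218 v1149 v4785 v425 v3007 v2604 v7708 w5513 v2590 w3582 w9136 v1244 v4087 v1243 v1242 v4790 v1150 v2991 v8509 v8511 v8515 v3075 w2463 w2449 v8480 v8483 v3303 v8508 v5675 v6036 v2779
theorem v8517 : PV l8517 := r8517 v3008 v1218 v425 v3006 v1149 v4233 v4086 v8112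
theorem v8518 : PV l8518 := r8518 v3008 v1218 w5103 w6732 v1244 v425 v3006 v1149 v421 v328 v3089 w2488 w2529 w2450 w2569 v8503 v8517 v7820 v3291 v3282 v5861 w4170 w5098 v8486 v728 v3320 w6114 w6014
theorem v8519 : PV l8519 := r8519 v1244 v4087 v3008 v1218 v425 v3007 v1149 v8518 v3075 w2463 w2449 v8489 v8483 v8482 v3303 v4763 v5045 v5842 v8083 v5034
theorem v8520 : PV l8520 := r8520 v3008 v1218 v425 v3006 v1149 v4233 v4086 v8111
theorem v8521 : PV l8521 := r8521 v2881 v4325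
theorem v8522 : PV l8522 := r8522 v3240 v7259 v439 v8521 v4764 v3675 v3676
theorem v8523 : PV l8523 := r8523 v425 v3007 v3008 v1149 v1150 v3242 v8522 v2971 v7875 v8493 v7088 v441 w4372 v4317 w6818
theorem v8524 : PV l8524 := r8524 v2700 v4177 v4178 w6888 w5088 w5089 w8363 w1182 w7022 w6975
theorem v8525 : PV l8525 := r8525 v1243 v2882 v2871 v2874 v2875 v8496 v3669 v7894 v441 v439 w5106 v8524 v1000 v996 v3709 w4362 w5049 w5024 v4972 w3243 v8498 v3654 v4326
theorem v8526 : PV l8526 := r8526 v1242 v3008 v1218 v425 v3006 v1149 v428 v3201 v3197 v3205 v8525 v2972 v8500 w4363 v6071 v7775 v996 v3688 v3943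
theorem v8527 : PV l8527 := r8527 v2713 v3008 v1218 v1149 v4785 v425 v3007 v2604 v7708 w5513 v2590 w3582 w9136 w5103 w6732 v1244 v1243 v4790 v3006 v1150 v421 v2991 v328 v3089 w2488 w2529 w2442 w2450 w2569 v8503 v8520 v7820 v3291 v3282 v5861 v706 v3071 w4170 w5098 v8486 v728 v3320 w6014 w6032 v8526 v3242 v8522 v8523 v2971 v7875 v8505 v7088 v441 w4372 v4317 w6818
theorem v8528 : PV l8528 := r8528 v2713 v3008 v1218 v1149 v4785 v425 v3007 v2604 v7708 w5513 v2590 w3582 w9136 v1244 v4087 v1243 v1242 v4790 v1150 v2991 v8519 v8527 v3075 w2463 w2449 v8480 v8483 v3303 v8508 v5675 v6036 v2779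
theorem v8529 : PV l8529 := r8529 v3008 v1218 w5103 w6732 w2569 v425 v3006 v1149 v421 v328 v8517 v7820 v3291 v3282 v5861 w4170 w5098 v8486 v728 v3320 w6114 w6014
theorem v8530 : PV l8530 := r8530 v3008 v1218 v425 v3006 v1149 v328 v3089 w2488 w2529 v8529 v8472 v8474 v8045
theorem v8531 : PV l8531 := r8531 v1244 v4087 v3008 v1218 v425 v3007 v1149 v1150 v8530 v3075 w2463 w2449 v8489 v8483 v8482 v3303 v5675 v6036 v2779
theorem v8532 : PV l8532 := r8532 v1243 v2882 v2871 v2874 v2875 v8512 v3669 v7894 v8524 v441 v439 w5106 v1000 v996 v3709 w4362 w5049 w5024 v4972 w3243 v8498 v3654 v4326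
theorem v8533 : PV l8533 := r8533 v1242 v3008 v1218 v425 v3006 v1149 v428 v3201 v3197 v3205 v8532 v2972 v8500 w4363 v6071 v7775 v996 v3688 v3943
theorem v8534 : PV l8534 := r8534 v3008 v1218 w5103 w6732 w2569 v2991 w2529 v328 w2488 v2713 v1149 v4785 v425 v3007 v2604 v7708 w5513 v2590 w3582 w9136 v1243 v4790 v3006 v1150 v421 v8520 v7820 v3291 v3282 v5861 v706 v3071 w4170 w5098 v8486 v728 v3320 w6014 w6032 v8533 v3242 v8522 v8523 v2971 v7875 v8505 v7088 v441 w4372 v4317 w6818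
theorem v8535 : PV l8535 := r8535 v1244 v1243 v3008 v1218 v1149 v4785 v4790 v425 v3006 v328 v3089 w2488 w2442 w2450 v8534 v4763 v8472 v8474 v3308 v4550 v7859 w3897 v4548 v4543
theorem v8536 : PV l8536 := r8536 v3008 v1218 v425 v3007 v2989 v3223 v4909 w4461 v3488 v3491 v1244 v3473 v3422 w5513 v2713 v4087 v1243 v1242 v1149 v4785 v4790 v3436 v3430 v2604 v2661 v1150 v2991 v3216 v2590 v7708 w3582 v5790 w9136 v8516 v8528 v8531 v8535 v3075 w2463 w2449 v8480 v8483 v8508 v3303 v5675 v6036 v2779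
theorem v8537 : PV l8537 := r8537 v2713 v3216 v3927 v7703 v3008 v1218 v1149 v2993 w6519 w4854 v5035 v4834 v3422 w5196 v4191 v3430 v2604 v2662 v2661 v425 v3007 v6818 v2711 v8458 v2990 v3336 v476 v3219 v4832 v4844 v328 w5103 w5513 v8466 v5039 v2675 v2672 v3835 w4698 w4699 v5438 v3506 v3499 v4247 v8536 v4084 v8367 v4608 v8110
theorem v8538 : PV l8538 := r8538 v7766 v2544 v2574 w8899
theorem v8539 : PV l8539 := r8539 v3286 v3282 w6297 w4163 w6050 w1528 w6014 v8265
theorem v8540 : PV l8540 := r8540 v5034 v4233 v4086 v8539 v3308 v3988 v5745 w4068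
theorem v8541 : PV l8541 := r8541 v8540 v7908 v706 v3308
theorem v8542 : PV l8542 := r8542 v5034 v7859 v3308 v4713 v4759 w3938
theorem v8543 : PV l8543 := r8543 v3008 v1218 v425 v3006 v1149 v1150 v328 v3089 w2488 w2542 w2442 w2569 v8541 v8542 v8043 v7772 v3304 v4523
theorem v8544 : PV l8544 := r8544 v3303 v6476 v4038 v4039
theorem v8545 : PV l8545 := r8545 v4087 v3008 v1218 v425 v3007 v1149 v1150 v8543 v3075 w2463 w2449 v8483 v3303 v8544 v8117 v4737 v5675
theorem v8546 : PV l8546 := r8546 v5034 v4233 v4086 v8539 v3308 v3988 v4059 w4068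
theorem v8547 : PV l8547 := r8547 v8546 v7908 v706 v3308
theorem v8548 : PV l8548 := r8548 v3008 v1218 v425 v3006 v1149 v1150 v328 v3089 w2488 w2542 w2442 w2450 w2569 v8547 v8542 v8043 v7772 v3303 w3938 v5957
theorem v8549 : PV l8549 := r8549 v3303 v4053 v4029 w3907
theorem v8550 : PV l8550 := r8550 v3303 v8549 v6290 v4039
theorem v8551 : PV l8551 := r8551 v1244 v4087 v3008 v1218 v425 v3007 v1149 v1150 v8545 v8548 v3075 w2463 w2449 v8483 v3303 v8550 v8117 v4735 v4737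
theorem v8552 : PV l8552 := r8552 v1244 v3008 v1218 v425 v3006 v1149 v328 v3089 w2488 w2542 w2442 w2450 w2569 v8547 v8542 v8474 v5957 v4551
theorem v8553 : PV l8553 := r8553 v8550 v8544
theorem v8554 : PV l8554 := r8554 w4571 v4087 v3008 v1218 v425 v3007 v1149 v1150 v6818 v2711 v8458 v2990 v476 v3219 v5224 v404 v2674 v2673 v4165 v4164 v4163 v2568 v8464 w3506 w8774 w3795 v2250 w5781 w9087 w8504 w8503 w4834 w5401 w5810 w8798 w8918 v3473 v3491 w8892 v2544 w3852 v2591 v2582 w6456 w8531 w6353 w6748 w8586 w8611 v8551 v8552 v3075 w2463 w2449 v8483 v3303 v8553 v5045 v4737 v5675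
theorem v8555 : PV l8555 := r8555 w4571 v2814 v8458 v8538 v8554 v2675 w6353 v3003 w6456 v2582
theorem v8556 : PV l8556 := r8556 v503 v5035 v4834 v8463 v3422 w5196 w5193 v1243 v1242 v7703 v3008 v8386 v1218 w4860 v3216 v8360 v476 v3219 v5224 w4864 v5601 v3927 v1149 v2993 w6519 w4318 w4854 v2750 v4785 v4790 w5506 v3436 v3430 v2814 v2604 v2662 v2661 w4878 v4832 w3202 v6818 v3336 w5380 v3118 v3117 v3115 v4844 v404 v2713 v8537 w5824 v8555 v4084 v8381 v5778 w3582 v6045
theorem v8557 : PV l8557 := r8557 v2578 v7719 w3582 w9011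
theorem v8558 : PV l8558 := r8558 v8463 v7703 v3008 v8386 v1218 w4860 v5035 v4834 v8360 v476 v3219 v5224 w4864 v5601 v2604 v1149 v503 v4832 v4844 v3422 v3436 w5196 v1242 v8556 v2557 v8459 w5824 v8557 v4084 v4598 v7757
theorem v8559 : PV l8559 := r8559 v7703 v5035 v4834 v8360 v8458 v2990 v6818 v3336 v3933 w5380 v476 v3219 v5224 v473 v3115 v3223 v3008 v8386 v1218 v1150 v1149 w4860 w4864 w4878 v5601 v2660 v2661 v2662 v8463 v8558 v8375 w3469 v2703 v1102 v8464
theorem v8560 : PV l8560 := r8560 v2596 v2708 w8790 w8355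
theorem v8561 : PV l8561 := r8561 w5407 v8560 v2544 v2588 w9177 w9045
theorem v8562 : PV l8562 := r8562 w5824 v8144
theorem v8563 : PV l8563 := r8563 v2571 v2568 v8561
theorem v8564 : PV l8564 := r8564 v4597 w3582 w8947 w9122
theorem v8565 : PV l8565 := r8565 v2713 v8562 v8563 v4084 v8564 v2544 v2539 v4593 w9033 w5512
theorem v8566 : PV l8566 := r8566 v2584 w3582 w8999
theorem v8567 : PV l8567 := r8567 v2571 v6462 w5824 v8566 v2544 v2576 w8921
theorem v8568 : PV l8568 := r8568 v2814 w5407 v8216 w5811 w5810 v8387 w9074 w8525 v6707 w8530 w8839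
theorem v8569 : PV l8569 := r8569 v2561 w3582 w8989
theorem v8570 : PV l8570 := r8570 v4183 v2614 v2615 v5035 v4834 v8458 v6818 v2658 v3933 w5380 v476 v3219 v5224 v3216 v3119 v3118 v3117 v4832 v4844 v8374 v8376 v3394 v3464 w1545 w1544 v2674 v8382 v8565 v2555 v2557 v8567 v4084 v4082 v8568 w5824 v8569 v2559 v2544 w8907
theorem v8571 : PV l8571 := r8571 v7703 v3008 v1149 v328 v2713 v8562 w5103 v8122 v8125 v4084 v8564 v5662 w2924 w6561
theorem v8572 : PV l8572 := r8572 v8216 w5513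
theorem v8573 : PV l8573 := r8573 v2555 w4860 v5035 v4834 v476 v3219 v5224 w4864 v5601 v3927 v7703 v3008 v1149 v1150 v2614 v2615 v8458 v2990 v6818 v3336 v3933 v473 v3115 v3223 v4832 v4844 v404 v2571 v8567 v5039 v2703 v2689 v3835 v1102 w4698 w4831 w3506 v2809 w8481 v3506 v3423 v8572 w5824 v8566 v2576 v7566
theorem v8574 : PV l8574 := r8574 v2555 v2614 v2615 v5035 v4834 v8458 v6818 v3336 v3933 v473 v3118 v3117 v3115 v3223 v4832 v4844 w5407 v8216 v8572 v8568 w5812 v3423 v2674 v2703 v2689 v668 w8481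
theorem v8575 : PV l8575 := r8575 v2615 v5035 v4834 v8458 v6818 v3336 v476 v3219 v5224 v3115 v7703 v3008 v4183 v8570 v1218 v425 v1149 w4860 w4864 v3006 v5601 v3927 v2661 v2662 v8460 v8571 v2557 v8573 v4084 v4082 v8574 w5824 v2561 v2559 v2544 w8907
theorem v8576 : PV l8576 := r8576 v6818 v2658 w5380 v476 v3119 v8374 v8376 w1545 w1544 v8378
theorem v8577 : PV l8577 := r8577 v2713 v2615 v3422 w5196 w5513 v1243 v6261 v4084 v8564 v8123 v2539 w9033
theorem v8578 : PV l8578 := r8578 v7703 v2990 v3933 v3115 v3223 v3219 v8375 w3469 v2703 v1102 v8464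
theorem v8579 : PV l8579 := r8579 v2615 v503 v5035 v2713 v8577 w5824 v5519 w3582 w8947 v5534 v8142
theorem v8580 : PV l8580 := r8580 v7703 v425 v3006 v328 v5035 w5103 w5513 v8215 v8214 w3582 v7742 v6462 v8127 v2675 w8898
theorem v8581 : PV l8581 := r8581 v2555 v2614 v6818 v3219 v2673 v4165 v4164 v4163 v2568 v8464 w8774 w3795 v2250 w5781 w9087 w8504 w8503 w8798 w8918 w5810 w8804 v7713 w8566
theorem v8582 : PV l8582 := r8582 v3187 v3098 v8521 w6990 v3647 w389 w6975
theorem v8583 : PV l8583 := r8583 v1244 w2450 v328 w2488 v3089 v4087 v3008 v1218 v1149 v4785 v4790 v425 v3006 v421 v428 v8503 v8485 v8469 v8506 v3201 v3197 v8501 v2882 v2871 v2874 v2875 v8496 v3669 v3315 v7894 v8524 v439 v1000 v996 v3709 w4362 w5049 w5068 v4972 w3243 v8582 v3654 v4326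
theorem v8584 : PV l8584 := r8584 v8472 v8474 v7118 v4548
theorem v8585 : PV l8585 := r8585 v328 w2488 v3089 v4087 v3008 v1218 v1149 v4785 v4790 v425 v3006 v421 v428 v8583 v8584 v8476 v8469 v8506 v3201 v3197 v8501 v2882 v2871 v2874 v2875 v8512 v3669 v3315 v7894 v8524 v439 v1000 v996 v3709 w4362 w5049 w5068 v4972 w3243 v8582 v3654 v4326
theorem v8586 : PV l8586 := r8586 v4086 v6625 v8132 w3944 v3100 v5067
theorem v8587 : PV l8587 := r8587 v2882 v2871 v2874 v2875 v8496 v3669 v3315 v7894 v8524 v439 v1000 v996 v3709 w4362 w5049 w5068 v4972 w3243 v8582 v3654 v4326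
theorem v8588 : PV l8588 := r8588 w4571 w6498 w2569 v1244 w2450 w2442 v328 w2488 v3089 w6713 w6374 v3008 v1218 v1149 v4785 v4790 v425 v3006 v421 v428 v8503 w876 v8586 v7820 v5861 v706 v3071 v8523 v3201 v3197 v8587 v2972 v8500 w4363 v6071 v7775 v996 v3688 v3943
theorem v8589 : PV l8589 := r8589 v2882 v2871 v2874 v2875 v8512 v3669 v3315 v7894 v8524 v439 v1000 v996 v3709 w4362 w5049 w5068 v4972 w3243 v8582 v3654 v4326
theorem v8590 : PV l8590 := r8590 w4571 w6498 w2569 v328 w2488 w6713 w6374 v3008 v1218 v1149 v4785 v4790 v425 v3006 v421 v428 w876 v8586 v7820 v5861 v706 v3071 v8523 v3201 v3197 v8589 v2972 v8500 w4363 v6071 v7775 v996 v3688 v3943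
theorem v8591 : PV l8591 := r8591 w4571 w6498 w6713 w6374 v1244 v4087 v3008 v1218 v1149 v4785 v4790 v425 v3006 v328 v8480 v3089 w2488 w2442 v8585 v8588 v8590 v8472 v8474 v4550 v4548
theorem v8592 : PV l8592 := r8592 v3075 w2463 w2449 v8483 v3303 v8508 v5675 v6036 v2779
theorem v8593 : PV l8593 := r8593 v3242 v8522 v2971 v7875 v8505 v7088 v441 w4372 v4317 w6818
theorem v8594 : PV l8594 := r8594 v2972 v8500 w4363 v6071 v7775 v996 v3688 v3943
theorem v8595 : PV l8595 := r8595 v8587 v8589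
theorem v8596 : PV l8596 := r8596 w4571 w6498 w2569 v328 w2488 w6713 w6374 v3008 v1218 v1149 v4785 v4790 v425 v3007 v3006 v1150 v421 v428 w876 v8586 v7820 v5861 v706 v3071 v8593 v3201 v3197 v8594 v8595
theorem v8597 : PV l8597 := r8597 v1244 w4571 v2557 v4087 v3008 v1218 v1149 v4785 v4790 v425 v3007 v3006 v1150 v328 v2589 v2584 v8566 w6498 w6374 w6713 v8591 v8592 v3089 w2488 w2442 w2450 v8585 v8596 v8503 v8472 v8474 v4550 v4548
theorem v8598 : PV l8598 := r8598 v2555 v2662 v2661 v3008 v1218 v425 v3007 v1149 v2614 v8458 v2989 v2990 v6818 v476 v3118 v3117 v3115 v3223 v3219 v8581 v5039 v2675 v2672 v3835 v4909 w4698 w4699 w4461 v5438 v3506 v3499 v4247 v3488 v3473 v3491 v8597 v2576 v7566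
theorem v8599 : PV l8599 := r8599 v503 v3219 v5035 v4832 v4844 v4834 v7703 v3008 v328 v3216 v8360 v476 v473 v6818 v5224 w5380 v3336 v8458 v8559 v2615 v8575 v8576 v1218 v425 v1150 v1149 w4860 w4864 w4878 v3006 v5601 v3927 v2660 v2661 v2662 v8578 v2993 v2814 v3422 v3430 v3436 v4785 w6519 w5196 w5506 v4790 v2750 w4854 w4318 v1242 v1243 v8579 v2557 v8580 w5824 w4571 v8598 v2561 v5797 w2924
theorem v8600 : PV l8600 := r8600 v5035 v4834 v7703 v2996 v2998 v5388 v4846 w4326 v4850 v4863 v4967 v4770 w4899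
theorem v8601 : PV l8601 := r8601 w4555 v3439 v1145
theorem v8602 : PV l8602 := r8602 v7703 v3008 v5035 v8600 v8601 v3444 v1218 w4860 w4872 w4864 v5387 v5399 v5388 v4770 v3756 v4780
theorem v8603 : PV l8603 := r8603 v5989 v5925 v2681
theorem v8604 : PV l8604 := r8604 v2571 v5653 v6942 v2544
theorem v8605 : PV l8605 := r8605 v2713 w5514 v8604 v4084 v4608 v8367
theorem v8606 : PV l8606 := r8606 v8605 w5824 v8383
theorem v8607 : PV l8607 := r8607 w5407 v8377
theorem v8608 : PV l8608 := r8608 v2571 v8384 v2578 w8978 w3582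
theorem v8609 : PV l8609 := r8609 v8599 v8602 v8603 v6818 v2711 v5035 v4834 v8458 w5380 v4183 v503 v3118 v3117 v4832 v4844 v7703 v3008 v328 v2996 v2998 v2814 v5388 v4846 w4882 w4888 w4871 w4326 w5008 v4852 v4850 v4971 v1210 v4863 v6736 w5787 w5792 v4967 v6057 v2661 v2662 v2604 v8387 w8525 w4899 w4901 v3137 v8606 v2555 v8607 w5824 w4571 v8608 v4082 v7977 v5741 v5797 v2708 v6179 w8579
theorem v8610 : PV l8610 := r8610 v8599 v3115 v5035 v4834 v7703 v8602 v8603 v6818 v8458 v3336 v8609 w3469 v8601 w5364 v3419 v668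
theorem v8611 : PV l8611 := r8611 v5035 v4834 v7703 v2998 v3422 v4846 w4561 w4894
theorem v8612 : PV l8612 := r8612 v3532 v3527 w5358 v34
theorem v8613 : PV l8613 := r8613 v5989 v3219 v8612 v3336 v3394 v626 v1779 w5358 v5949
theorem v8614 : PV l8614 := r8614 v3119 v3118 v3117 v3426 w5453 w5450 w5452 w8605 w8608 w8656 v6084
theorem v8615 : PV l8615 := r8615 v3119 v3118 v3117 v3115 v3219 v5989 v5925 v8603 v2808 w3468 w3467 w3469 v4129 v4165 v4164 v4163 v8614 v8612 v8613 v3336 v2661 v4786 v626 w8656 v4792 v6273 v768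
theorem v8616 : PV l8616 := r8616 v7703 v627 v667 v4133 v5437
theorem v8617 : PV l8617 := r8617 v3119 v3223 v3219 v5035 v4834 v7703 v8611 v8615 v476 v6818 v5224 w5380 v8458 v2658 v2989 v8616 w1545 w1544 v8375 v2675 v5411 v4909 v5387 w4942
theorem v8618 : PV l8618 := r8618 v404 v2713 v8562 v8563 w5407 w5512 v8336 v4084 v6887 w9033
theorem v8619 : PV l8619 := r8619 v6818 v2658 v3223 v3119 v5035 v4834 v476 v3219 v5224 w5380 v8458 v8616 w1544 w1545 v3394 v7703 v2988 v2614 v2615 v3118 v3117 v4832 v4844 v3008 v2996 v2998 v2814 v5388 v4846 w4882 w4894 w4888 w4326 w5008 v4850 v4970 v4971 w4561 v1210 v5412 v3765 w5787 w5792 v4967 v2675 v6057 v4132 v8387 w9074 w4899 w4901 v2673 w8350 w9087 v4776 v4187 v8618 v7713 v4084 v6707 w5824 v2559 w3582 v8569 w8947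
theorem v8620 : PV l8620 := r8620 v3115 v5035 v4834 v7703 v8599 v8617 v4183 v8602 v8610 v8603 v6818 v8458 v3336 v8619 v8601 w3469 w5364 v3419 v668
theorem v8621 : PV l8621 := r8621 v2713 v7703 v3007 v328 w5512 w5100 v8368 v8110 w3582 v8094 w9132 v2571
theorem v8622 : PV l8622 := r8622 v7703 v1145 w4555 v3423 v1209 v8621 v5518 v5665 v6176
theorem v8623 : PV l8623 := r8623 v3216 v7703 v3219 v8620 v3935 v3119 v2808 v3342 v3223 v8616 v2992 w4843 v3815 w8626 v1779 v4633 v2991 v3809 v1145 v1210 v3829 w4486 v3006 v2994 v5134 w5355 v1209 w5372 v3411 v6152 v3408 v3453 v3934 v4576 w5346 w4493 v5272 v2712 v5035 v4832 v4844 v328 v8622 v7710 v4084 v6097 v4600 v8377 w5406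
theorem v8624 : PV l8624 := r8624 v2571 v8363 v6123
theorem v8625 : PV l8625 := r8625 w5406 v8624 v4082 v4608 v7253 v2708 v6179
theorem v8626 : PV l8626 := r8626 v8625 v5518 v5665 v6176
theorem v8627 : PV l8627 := r8627 v7703 v3219 v8620 v3935 v3119 v2808 v3342 v3223 v8616 v2992 w4843 v3815 w8626 v1779 v4633 v2991 v3809 v1145 v1210 v3829 w4486 v3007 v3006 v3934 v4576 w5346 w5372 w5355 w4555 v3423 v1209 v5272 v2712 v2994 v3216 v5035 v4832 v4844 v328 v5134 v3453 v3411 v3408 v6152 v8623 v8626 v7710 v6145 v4600 v8377 w5406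
theorem v8628 : PV l8628 := r8628 v5035 v4834 v7703 v328 v2713 v8621 w5824 v8383 v8108 v8380 v8242 v5778
theorem v8629 : PV l8629 := r8629 v7703 v1145 v1210 v328 v2557 v7710 v4084 v7976 w5512 w5012 v7977
theorem v8630 : PV l8630 := r8630 v5035 v4834 v7703 v328 w5512 v8605 v8365
theorem v8631 : PV l8631 := r8631 v481 v8620 v3342 v3935 v3934 v3119 v3223 v3219 v5035 v4832 v4844 v4834 v7703 v2992 v2987 v2991 v2808 v8616 w4843 v3809 v3815 v1145 w8626 v4222 v2697 v1210 v1209 w4555 v1779 v4224 v3829 v3423 v4633 w8592 w4486 w5355 w5372 w4785 v8627 v2604 v8629 v2713 v8628 v8630 w5824 v8383 v8380 v5778 v8106 v8242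
theorem v8632 : PV l8632 := r8632 v480 v481 v2846 v2845 v5234 v4241 v4224
theorem v8633 : PV l8633 := r8633 v7703 v328 w5512 w5100 v8215 w3582 v5552 w9153 v4084
theorem v8634 : PV l8634 := r8634 w6584 v2589 w6374 v2576
theorem v8635 : PV l8635 := r8635 w4571 v7703 v328 v8634 v4084 v6097 v2561
theorem v8636 : PV l8636 := r8636 v2571 v8566 v2544 v2576 w8921
theorem v8637 : PV l8637 := r8637 v2557 v7703 v3006 v2994 v3216 v328 v3452 v3453 v3408 v4885 v8633 w5824 v8636 v6145 v2561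
theorem v8638 : PV l8638 := r8638 w5512 v8216
theorem v8639 : PV l8639 := r8639 v8620 v3342 v3935 v3934 v3119 v3223 v3219 v5035 v4832 v4844 v4834 v7703 v328 v8632 v2992 v2987 v2991 v2808 v8616 v8631 w4843 v2615 v3809 v3815 v5272 v1145 w8626 v2697 v1210 v1209 w4555 v1779 v3829 v4633 w8592 w4486 w5355 w5372 w4788 v3006 v3007 v7973 v2557 v8637 v3927 v8638 w5824 w4571 v8636 v2561 w2924 v5797
theorem v8640 : PV l8640 := r8640 v5174 v5433
theorem v8641 : PV l8641 := r8641 v3119 v3116 v3115 v3223 v3219 v5035 v4834 v7703 v8620 v3935 v3338 v3339 v3342 v8640 v8632 v2992 v2991 v2807 v2808 v8616 w4843 v3809 v3815 v1145 w8626 v2697 v1210 w4555 v1779 v4128 v3829 v5178 v4633 w8609 w4964 v4087 w5358 v8369 w3469 v3422 v8639 v5349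
theorem v8642 : PV l8642 := r8642 v1138 v1242 v5741 v7736 w6651 v2707 w5101 v4598
theorem v8643 : PV l8643 := r8643 v7703 v3442 w4561 v3007 w4555 v1145 v494 v1138 w5193 v1242 v3223 v5035 v4832 v4844 v4834 v2710 v2604 v7768 v2555 v2557 v7735 v4084 v8642 v7757 v2544 v4598 w9099 w5513
theorem v8644 : PV l8644 := r8644 v8562 v8125
theorem v8645 : PV l8645 := r8645 v3223 v1138 w5158 v2531 v3333 v3119 v2808 w5159 v5949 v4129 v1779 w1589 v3464 v3219 v3532 v3336 v481 v480 v7707 v2668 v4138 w5160 v3122 v7703 v2990 v2987 v1243 v3115 v5035 v4832 v4844 v4834 v2815 v3442 w9098 w4555 w4561 w5451 w5008 v1146 v1145 v3006 v755 v5651 v8464 v7873 w8774 v3512 v8643 v2615 v8644 v2557 v8572 w5824 v7935 v8245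
theorem v8646 : PV l8646 := r8646 v8641 v1138 w5159 w5158 v480 v481 v3216 v2808 v3119 v3115 v3223 v3219 v5035 v4834 v7703 v3008 v5925 v8603 v5949 v4129 v7707 v2531 v3532 v1779 v7706 v3491 v3336 v3464 v8645 v8601 w3469 v8382 v3419 v668 w8607 v1218 v1102 v1150
theorem v8647 : PV l8647 := r8647 v480 v481 v4224 v390 v5603 v5242
theorem v8648 : PV l8648 := r8648 v3216 v3118 v3117 v7703 v2994 v8373 w3556 v5776 v7921
theorem v8649 : PV l8649 := r8649 v2808 v8641 v1138 v1243 v3119 v3115 v3223 v3219 v481 v480 w5158 w5159 v8647 v5925 v8603 v5949 v8646 v4129 v7707 v2531 v3532 v4163 v1779 v7706 v2656 v3336 w1545 w1544 v8648 w3469 v626 w8607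
theorem v8650 : PV l8650 := r8650 v5035 v4834 v8640 v8575 v8372 v8383 w5824
theorem v8651 : PV l8651 := r8651 v7703 v1145 v4084 v8642
theorem v8652 : PV l8652 := r8652 v8641 v3442 w4555 v5035 v4834 v8640 v8575 v4832 v4844 v8650 v2557 v8651 v7190 v8384 w5824
theorem v8653 : PV l8653 := r8653 w5513 v8368
theorem v8654 : PV l8654 := r8654 v5035 v4834 v8653 w5824 v8383
theorem v8655 : PV l8655 := r8655 v7190 w5513 v4603 v4084 w9099 v2544
theorem v8656 : PV l8656 := r8656 v7703 v8641 v3442 w4555 v1145 v5035 v4834 v8649 v8640 v6350 v3223 v3119 v2808 w5380 v8616 v3394 v8575 v2604 v1138 v1242 v4832 v4844 v2674 v8652 v8654 v2557 v8655 w5824 v8384 v4084 v4598 v7757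
theorem v8657 : PV l8657 := r8657 v5035 v4834 v8649 v8640 v6350 v3336 v3933 v473 v8641 v1138 v1243 v3115 v3223 v7703 v3442 w4555 v1146 v8656 v2703 v2689 v1102 v755 w9097
theorem v8658 : PV l8658 := r8658 v5035 v4834 v8649 v8640 v6350 v3336 v3115 v7703 v8657 v8601 w3469 w5364 v3419 v668
theorem v8659 : PV l8659 := r8659 w5101 v8466
theorem v8660 : PV l8660 := r8660 v1138 v1242 v5034 v4058 v5050 w3897
theorem v8661 : PV l8661 := r8661 v8118 v8083
theorem v8662 : PV l8662 := r8662 v8553 v3308 v8660 v706 v702 w5929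
theorem v8663 : PV l8663 := r8663 v1244 v3008 v1218 v425 v3007 v1150 v1138 v1243 v1242 v8548 v3075 w2449 v8662 v4763 v8661 v5034 v8043 v4540 v4535
theorem v8664 : PV l8664 := r8664 v5035 v4834 v8649 v8640 v6350 v3223 v3119 v2808 w5380 v8616 v3394 v2604 v3933 v2710 v404 v3219 v3115 v7703 v3008 v8658 v8576 v1218 v1149 v2990 v3336 w4878 v4163 v8464 w3506 v503 v476 v473 v2658 w1545 v1150 w1544 v8578 v2814 w3795 v3117 v4164 v3118 v4165 v3422 w5506 v3430 w8774 w5781 v2250 w8504 w8503 w5401 v3491 v3473 w8798 w4834 w9087 v2673 v2674 w4860 v3216 v3464 v2993 w6519 v2750 v4087 w4318 w4854 v4785 v4790 v4191 v3436 v425 v3007 v1210 v2992 v8641 v1138 v1243 v1242 v4832 v4844 v2713 v8659 w5824 w4571 w5727 v8381 v8538 v2568 w8892 v2544 w3852 v2591 v2582 w8531 w6456 w8611 w8586 w6353 w6748 v8663 v8552 v3075 w2449 v8662 v4763 v8661 v5034 v7772 v5045 w3958 v4540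
theorem v8665 : PV l8665 := r8665 v5035 v4834 v8658 v8649 v476 v473 v8640 v6350 v2808 v2658 v3223 v3119 w5380 v8616 w1545 v3336 v7703 v3008 v8576 v1218 v1150 w1544 v1149 w4878 v8578 v3422 v3436 v3394 v8641 v1138 v1242 v4832 v4844 v2604 v8664 v2557 v8655 w5824 v8557 v4084 v4598 v7757
theorem v8666 : PV l8666 := r8666 v5035 v4834 v8649 v476 v473 v8640 v6350 v2808 v2658 v3223 v3119 w5380 v8616 w1545 v3336 v8658 v7703 v3008 v8576 v1218 v1150 w1544 v1149 w4878 v8578 v3394 v4785 v4790 v3422 w5506 v3430 v2814 v425 v3006 v3933 v3464 v3216 v2990 v503 v3118 v3117 v3115 v3219 v4832 v4844 v404 v4165 v4164 v4163 v8464 w3506 w8774 w3795 v2250 w5781 w8504 w8503 w5401 v3491 v8665 v2615 v8579 v2557 v8580 w5824 v7935 v8581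
theorem v8667 : PV l8667 := r8667 v2808 v7703 v2990 v8641 v3219 v5035 v4834 v3008 v8649 v476 v8640 v6350 v8658 v8576 v1218 v1149 v8666 v5039 v3835 w4698 w4699 v5438 v4244
theorem v8668 : PV l8668 := r8668 v8667 v8641 v1138 v1243 v8647 v8603 v8617 v8602
theorem v8669 : PV l8669 := r8669 v8641 v1138 w5193 v3119 v3223 v5035 v4834 v7703 v3008 v2808 v8667 v8668 v8640 w5380 v6350 v8616 v3394 v4780 v2674 v2675 v5411 v4971 v5387 w4865
theorem v8670 : PV l8670 := r8670 v5989 v8632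
theorem v8671 : PV l8671 := r8671 v8670 v8640 v8458
theorem v8672 : PV l8672 := r8672 v5035 v4834 v8669 v8671
theorem v8673 : PV l8673 := r8673 v480 v481 v5038 v5037 v2681 v8235 v7707 v3490
theorem v8674 : PV l8674 := r8674 v5038 v5037 v481 v480 v8673 v5731 v5242 v4659 v2843
theorem v8675 : PV l8675 := r8675 v5035 v4834 v8672 v8674 v8640 v6350 v3223 v3119 v2808 w5380 v8616 v3394 v2604 v2806 v3219 v3115 v4100 v7703 v2990 v3336 v2992 v5037 v2674 v4425 w4973 w4492 v1145 v8464 w3820 v2250 w3795 w3469 w4495 v3007 v2658 w1544 w1545 v4428 v4135 v3118 v3117 w5407 v8364 w5811 w5810 w8504 w8503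
theorem v8676 : PV l8676 := r8676 v5035 v4834 v8672 v8674 v8640 v6350 v3223 v3119 v2808 w5380 v8616 v3394 v2604 v3219 v3115 v4100 v7703 v2990 v3336 v2992 v5037 v2674 v4425 w4973 w4492 v1145 v8464 w3469 v8675 w5824 v8383
theorem v8677 : PV l8677 := r8677 v7190 v4084 v4602 v7736 w3582
theorem v8678 : PV l8678 := r8678 v8672 v8674 w5380 v5035 v4834 v8640 v7703 v2992 v5037 v2674 v4425 w4973 v2990 v3219 v3115 v6350 v4100 v3336 w4492 v1145 v8464 w3087 v4846 w3469 v3223 v3119 v2808 v8616 v3394 v4832 v4844 v2604 v8676 v2557 v8462 v8677 w5824 v8384 v4084 v7736 v8385 w8927 v4598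
theorem v8679 : PV l8679 := r8679 v4428 v4135 w5407 v8216 w5810 w5811 w8503 w8504
theorem v8680 : PV l8680 := r8680 v8672 v8674 w5380 v5035 v4834 v8640 v7703 v2992 v5037 v2674 v4425 w4973 v2990 v3219 v3115 v6350 v4100 v3336 w4492 v1145 v8464 w3087 v4846 v2806 w3820 v2250 w3795 w3469 w4495 v3006 v2989 v3223 v4441 w4462 v2658 v3119 v2808 v8616 w1544 w1545 v3933 v3464 v3394 v3118 v3117 v4832 v4844 v2615 v8571 v2557 v8567 v4084 v8679 w5824 v2561 v2559 v2544 w8907
theorem v8681 : PV l8681 := r8681 v7703 v1145 v7190 v8655 v4084 v8642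
theorem v8682 : PV l8682 := r8682 v8672 v8674 w5380 v5035 v4834 v8640 v7703 v2992 v5037 v2674 v4425 w4973 v2990 v3219 v3115 v6350 v4100 v3336 w4492 v1145 v8464 w3087 v4846 w3469 v3223 v3119 v2808 v8616 v3394 v4832 v4844 v8680 v2604 v8676 v8678 v2557 v1138 v3442 v1242 v8681 w5824 v8384 v4084 v8651 v4598 v7757
theorem v8683 : PV l8683 := r8683 v8363 v8465
theorem v8684 : PV l8684 := r8684 v2713 w5513 v8683 v4084 v7659
theorem v8685 : PV l8685 := r8685 v5034 v4029 v4017 w3920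
theorem v8686 : PV l8686 := r8686 v4026 v4030
theorem v8687 : PV l8687 := r8687 v4525 v3074 v8686 v4029 v8685 w4090 v3320 v3975 v3282 v8265 w6014
theorem v8688 : PV l8688 := r8688 v4021 w3927 w4095 v4718 v3966
theorem v8689 : PV l8689 := r8689 v4525 v5034 v8688 v3303 v5067 v4051
theorem v8690 : PV l8690 := r8690 v4697 v4718 w3982
theorem v8691 : PV l8691 := r8691 w2450 w2442 v4525 v4086 v8687 w2479 w2474 v8689 v4008 v8690 v4981 v4983
theorem v8692 : PV l8692 := r8692 w2442 v1244 v8691 v7908 v706 v3308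
theorem v8693 : PV l8693 := r8693 v328 v3089 v3090 w2488 w2442 w2569 v8692 v8542 v8043 v7199 v3304
theorem v8694 : PV l8694 := r8694 v4087 v8693 v3075 w2463 w2449 v8483 v3303 v8553 v8043 v5675 v4737
theorem v8695 : PV l8695 := r8695 v3090 w2569 v8692
theorem v8696 : PV l8696 := r8696 v4087 v8695 v3075 w2463 w2449 v8553 v8483
theorem v8697 : PV l8697 := r8697 v328 v3089 w2488 w2442 v8542 v8474 v7199 v3308
theorem v8698 : PV l8698 := r8698 v4087 v8694 v8696 v4763 v8697 w2463 w2449 v8483 v8661 v5841 v4743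
theorem v8699 : PV l8699 := r8699 v4087 v8695 v3075 w2449 v8553 v6157
theorem v8700 : PV l8700 := r8700 v8693 v8697
theorem v8701 : PV l8701 := r8701 v4087 v8698 v8699 v8700 v3075 w2449 v6157 v3303 v5675 v5672 v4737
theorem v8702 : PV l8702 := r8702 v3303 v4059 v4027 v2779
theorem v8703 : PV l8703 := r8703 v4086 v8687 v8702 v3308 v4056 v3999 w3938
theorem v8704 : PV l8704 := r8704 v328 v3090 w2488 w2442 w2569 v8703 v706 v6566 v3308 w3907 v4073
theorem v8705 : PV l8705 := r8705 v8704 v3075 w2463 w2449 v8553 v6157 v8483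
theorem v8706 : PV l8706 := r8706 v328 v3089 w2488 w2442 v8697 v8542 v8043 v7199 v3304
theorem v8707 : PV l8707 := r8707 v8083 v8661 v6157
theorem v8708 : PV l8708 := r8708 v4087 v8701 v8705 v4763 v8706 v3075 w2449 v8707 v5034 v7772 v5045 w3958 v4540
theorem v8709 : PV l8709 := r8709 v3303 v4059 v8685 w4199 v3320 w5981 w1765 v8265 w6014
theorem v8710 : PV l8710 := r8710 v3308 v4056 v3999 w3938
theorem v8711 : PV l8711 := r8711 v4118 v4086 v8710 v8702 v8709 v3074
theorem v8712 : PV l8712 := r8712 v7703 v328 v5035 w2488 w2557 w2442 w2569 v8711 v706 v3308 v7908 v4073 v4005 w3938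
theorem v8713 : PV l8713 := r8713 v3308 v5034 v4525 v4058 w4083 w4078 w3897 v3974 v4045 v4984
theorem v8714 : PV l8714 := r8714 v7703 v3007 v3006 v3772 v8712 v3075 w2449 v8553 v3308 v8713 v706 v702 w5929
theorem v8715 : PV l8715 := r8715 v4763 v5034 v8083 v8661 v5031 v5984
theorem v8716 : PV l8716 := r8716 v2604 v4428 w8918 w8798 v5035 v4834 v4087 v503 w5196 v1243 v1242 v7703 v3007 v3006 v5037 v4832 v4844 v2713 v8684 w5824 w4571 w5727 v8381 v2570 v8538 w8892 v2544 w3852 v2591 v2582 w8531 w6456 w8611 w8586 w6353 w6748 v8708 v8714 v8706 v3075 w2449 v8715 v7772 v5045 w3958 v4540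
theorem v8717 : PV l8717 := r8717 v7190 w5824 v8557
theorem v8718 : PV l8718 := r8718 v503 w5196 v1242 v5035 v4832 v4844 v2710 v2604 v8716 v2557 v8717 v4084 v7757 v4598 v8459 v8655
theorem v8719 : PV l8719 := r8719 v5035 v8672 v4100 v4428 v5038 v5037 v503 v3119 v3117 v3115 v3223 v3219 v4832 v4844 v4834 v7703 v328 v2992 v2987 v2988 v2990 v2989 v2806 v2808 v8674 v8640 w5380 v6350 v2674 v2673 v8616 v3933 v2658 v3336 v4425 v4441 v3394 v3464 w1544 w4495 w4498 w4492 w4973 v4427 v4424 w4463 w4462 w4946 w4942 v3006 v1146 v1145 v8464 w3469 v2809 w3082 w3054 w3062 w3087 w3820 w3795 v4867 v4846 v8682 v8576 v3422 v3430 v3436 v4191 w6519 v4785 w8774 v4196 v2750 w4854 w4318 w4958 w5468 w4481 w8918 v3500 v3505 v8718 v2615 v8579 v7713 v2557 v4084 v8580 v7763 w4571 w2924 v5797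
theorem v8720 : PV l8720 := r8720 v5234 v8640 v8458
theorem v8721 : PV l8721 := r8721 v5035 v4834 v8672 v5038 v8719 v8720
theorem v8722 : PV l8722 := r8722 v2571 v2568 v7708 w5730 v8380 w9147 v2707 w3826 v2574 w8778 w8381
theorem v8723 : PV l8723 := r8723 w5101 v4610 v8110
theorem v8724 : PV l8724 := r8724 v2708 v4606 w8579 v24
theorem v8725 : PV l8725 := r8725 v2604 v7703 v1145 v328 v2713 v8722 v4084 v4082 v8723 w5730 v8724 v2544 v5848 v6175 w9057
theorem v8726 : PV l8726 := r8726 v7190 v2578 v5666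
theorem v8727 : PV l8727 := r8727 v8459 v8677
theorem v8728 : PV l8728 := r8728 v3223 v7703 v2987 w4696 w8640 v1145 v2710 v2604 v8725 v2555 v2557 v8726 v4082 v8727 w5730 v4598 w8579 v2708
theorem v8729 : PV l8729 := r8729 v2571 v2580 w9010 v2544
theorem v8730 : PV l8730 := r8730 v2713 v8125 v8144 v8729 v4084 v2619 w9122 w3582
theorem v8731 : PV l8731 := r8731 v2808 v2807 v2806 v7703 v2990 v2987 v2992 v8721 w4557 v1145 v1146 w4563 v3007 v3006 v3374 v3384 w4569 v496 v498 v501 v3119 v3118 v3117 v3116 v3115 v3112 v3223 v3219 v5035 v4832 v4844 v4834 v481 v480 w5467 w5465 w5466 w5452 w5451 w4726 w4707 w4696 v1590 v3809 v1779 v759 v5925 v2668 v3488 v4127 v4128 w8640 w3464 v3473 v3491 w8660 w8659 v2656 v3392 v3464 w1589 v3516 w1582 w1545 w1544 v4770 v4775 v3835 v4771 v4132 v4130 v5238 v8235 w8656 w8607 w3468 v2330 w8774 w8933 v7921 v3435 v8728 v2615 v8730 v2557 v8638 v7935 v2589 v2576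
theorem v8732 : PV l8732 := r8732 v8362 v8110 w3582 v8094 v5711 v2571
theorem v8733 : PV l8733 := r8733 v2571 v7708
theorem v8734 : PV l8734 := r8734 v2713 v488 v496 v501 v7703 v328 w5515 w5101 v8732 v8605 v8733 v4084 v5662 v8367
theorem v8735 : PV l8735 := r8735 v5034 v4115 v4086 v8053 v5068 w2450 v8037 v4050 v5053
theorem v8736 : PV l8736 := r8736 v6566 v706 w3907 v3308 v4073
theorem v8737 : PV l8737 := r8737 v7703 v5035 v3089 w2549 w2442 v8736 v5034 v4233 v4086 v8735 v8064 v7857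
theorem v8738 : PV l8738 := r8738 v3303 v4759 w3907 v4737 v4738
theorem v8739 : PV l8739 := r8739 v8640 v3960 v4763 v3089 v3090 w2529 v8116 v5034 v4525 v4230 v8738 v3308 v3272 v4984 v7859 w6275 w4126
theorem v8740 : PV l8740 := r8740 v5034 v4233 v4086 v8735 v8064 v7857
theorem v8741 : PV l8741 := r8741 v7703 v5035 v3089 w2549 v8740 v6566 v8736 w3907 w3902 w5929 v4073 v3308
theorem v8742 : PV l8742 := r8742 v5034 v6476 v3308 v1073 v713 v5072 v5050
theorem v8743 : PV l8743 := r8743 v6290 w2497 v5267 v3070 w5875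
theorem v8744 : PV l8744 := r8744 v7703 v3008 v3770 v8741 v8742 v6566 w4076 w3907 w3902 v8743 v5060 v3308 v706 w5929
theorem v8745 : PV l8745 := r8745 v8640 v3960 v4763 v5034 v4525 v4230 v8738 v3308 v3272 v4984 v7859 w6275 w4126
theorem v8746 : PV l8746 := r8746 v3089 v3090 w2529 v8739 v3085 v8745 v8085 v7200
theorem v8747 : PV l8747 := r8747 v4737 v4735
theorem v8748 : PV l8748 := r8748 v8715 v5265 v8747 v5015 v5017
theorem v8749 : PV l8749 := r8749 v8640 v6350 v3933 v2710 v7703 v2991 v2992 v8744 v8746 v8748 v8085 v7814 v3304 v7200 v7199 v1074 v4535 v4547 w3907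
theorem v8750 : PV l8750 := r8750 v1246 v7703 v5035 v3089 w2549 w2443 v8740 v712 v706 w3890 v3308 v4073
theorem v8751 : PV l8751 := r8751 v1246 v1267 v3770 v8750 v8742 w2460 v6566 v6290
theorem v8752 : PV l8752 := r8752 v1268 v3089 w2443 v7871 v5034 v7859 v3308 w6192 v4759 w3890
theorem v8753 : PV l8753 := r8753 v8747 v5017 v5015
theorem v8754 : PV l8754 := r8754 v8640 v2673 v2674 v6350 v3933 v2710 v7703 v2991 v2992 v8749 v1246 v8751 v3960 v8752 w2460 v8753 v8085 v7814 v3304 v7199 v1074 w6151 v4547 w3890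
theorem v8755 : PV l8755 := r8755 v5034 v4228 v4233 v4086 v6625 v8064 v7426 v407 v3286 v3282 v1073 w5722 v6155 w4163 w6050 w1528 w5895 w6014
theorem v8756 : PV l8756 := r8756 v2989 v2992 v328 v3089 w2488 w2525 w2542 v8755 v6566 w4085 w4076 v3070 v3308 v8064 v728 v4701
theorem v8757 : PV l8757 := r8757 v3070 v3297
theorem v8758 : PV l8758 := r8758 v8757 v3308 w3907 w3902 v4069 v8743
theorem v8759 : PV l8759 := r8759 v3008 v3841 v8756 v8742 v6566 w4076 v8758 v1246 v1267 w2460 v6290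
theorem v8760 : PV l8760 := r8760 v1246 v8752
theorem v8761 : PV l8761 := r8761 v8640 v3960 v328 v3089 v3090 w2488 w2529 v8760 v8739 v8745 v3085 v8115 v7200
theorem v8762 : PV l8762 := r8762 v8748 v8753 v1246 w2460
theorem v8763 : PV l8763 := r8763 v328 v4763 v8761 v8762 v7772 v8117 v3308 v7199 v1074 w6151 v4518 v4547 w2491 v684 v5051
theorem v8764 : PV l8764 := r8764 v8750 v8737
theorem v8765 : PV l8765 := r8765 w3907 v3309 v8544 v8508
theorem v8766 : PV l8766 := r8766 v7703 v2991 v8640 v2674 v2673 v8763 v3770 v6350 v3933 v2710 v2992 v8754 v1119 v8764 v8742 v3075 v6566 v8765 v1246 v1267 v8544 v3312 v3309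
theorem v8767 : PV l8767 := r8767 v3770 v8750 v8764 v8744 v1119
theorem v8768 : PV l8768 := r8768 v8744 v8751
theorem v8769 : PV l8769 := r8769 v8767 v8742 v6566 v8768 v1119 v3075 v8765 v1246 v1267 v8544 v3312 v3309
theorem v8770 : PV l8770 := r8770 v8085 v7772 v3304 v4523
theorem v8771 : PV l8771 := r8771 v328 v3089 v3090 w2488 w2529 v8770 v5034 v8745 v1246 v1268 w2443 v7859 v3308 w6192 v4759 w3890
theorem v8772 : PV l8772 := r8772 v8640 v2673 v2674 v6350 v3933 v2710 v7703 v2991 v2992 v328 v8766 v8769 v4763 v8771 v8762 v8085 v7814 v7772 v8770 v3304 v407 v316 w2491 w2499 v4517 v4997 v5051 v5061 v8164 v2785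
theorem v8773 : PV l8773 := r8773 v3841 v8759 v8756 v1119 v8742 v3075 v6566 v8765 v1246 v1267 v8544 v3312 v3309
theorem v8774 : PV l8774 := r8774 v5034 v8745 v1246 v1268 w2443 v7859 v3308 w6192 v4759 w3890
theorem v8775 : PV l8775 := r8775 v328 v3089 v3090 w2488 w2529 v8774 v7772 v4708 v4523
theorem v8776 : PV l8776 := r8776 v328 v4763 v8763 v8775 v8762 v7772 v8117 v3308 v4523 v3094 w2491 v4517 w6151 v5051 v5061 v684
theorem v8777 : PV l8777 := r8777 v7703 v2991 v8640 v2674 v2673 v8776 v6350 v3933 v2710 w4958 v8773 v8772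
theorem v8778 : PV l8778 := r8778 v4233 v4086 v8088
theorem v8779 : PV l8779 := r8779 v8736 v712 v706 w3890 v3308 v4073
theorem v8780 : PV l8780 := r8780 w2442 v8778 v8779
theorem v8781 : PV l8781 := r8781 v7703 v8769 w4351 v4087 v8780 v8742 v3075 v6566 v8544 v6290 v3312 v3309
theorem v8782 : PV l8782 := r8782 w6014 w5895
theorem v8783 : PV l8783 := r8783 v5034 v4525 v4228 v4086 v6625 v8064 v7426 v413 v408 v3282 v1073 w6297 w5722 v8782 v3320 w947 v3983 v3966 v4056 v8686 v4032 w3907 w3890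
theorem v8784 : PV l8784 := r8784 v328 v3089 v3090 w2488 w2525 v8783 v6566 v8779 w4076 v3070 w5875 w6115
theorem v8785 : PV l8785 := r8785 v8758 v1119 v8765 v3075
theorem v8786 : PV l8786 := r8786 v8640 v6350 v7703 v2991 v2674 v2673 v8776 v3841 v3933 v2710 v2989 v2992 v3008 v8777 v4892 v4891 v8781 v8784 v8742 v6566 w4076 v8785 v1246 w2460 v8544 v6290 v3312 v3309
theorem v8787 : PV l8787 := r8787 v3006 v4525 v4233 v4086 v8742 v3090 v5068 v3303 v5745 w4091 w4078 w4229 v3966 v3975 w947 v3282 v7857 w6014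
theorem v8788 : PV l8788 := r8788 v328 v3089 w2488 v3070 v3308 v3988 v728 v4701
theorem v8789 : PV l8789 := r8789 v3008 v6566 w4085 w4080 w4076 v8788 v8785 v1246 v1267 w2460 v8544 v6290 v3312 v3309
theorem v8790 : PV l8790 := r8790 v4525 v3303 v5745 w4091 w4078 w4229 v3966 v3975 w947 v3282 w6014 w5895
theorem v8791 : PV l8791 := r8791 v8640 v2673 v2674 v6350 v3933 v2710 v7703 v2991 v2992 v3007 v3006 v328 v8776 v8786 v8789 v5034 v4525 v4086 v8742 v8787 v3090 w2488 v8790 v3308 v4056 v3999 v1073 w6297 v684 v411 v5072 v4051 v4984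
theorem v8792 : PV l8792 := r8792 w2542 v328 w2488 v3090 v3089 v4086 v4233 v5034 v8064 v8783 v3286 v3282 v7857 v8088 v7770 w6277 w1528 w5720 w6014
theorem v8793 : PV l8793 := r8793 v3933 v2710 v2989 v2992 v3007 v3006 v328 v3841 v8789 v5034 v4525 v4086 v8742 v3090 w2488 w2525 w2442 v8792 v8787 v8790 v3308 v5067 v3999 v5072 v4051 v411 v4984
theorem v8794 : PV l8794 := r8794 v8113 v8762
theorem v8795 : PV l8795 := r8795 v4708 v4523
theorem v8796 : PV l8796 := r8796 v3219 v8640 v6350 v5208 v2835 v390 w5823 w4552 w4548 w5818 v7703 v2993 v2673 v2674 v3006 v3008 v328 w3582 v2591 v2582 w9147 w8906 v3491 v1127 v485 w5841 v3500 v3505 v8791 v7840 v8793 v4763 v8794 v7772 v8795 v3094 w2489 w2491 v8117 v8661 v5051 v3308 v4542 w6151 v4547 v684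
theorem v8797 : PV l8797 := r8797 w5481 w5728 w8774 w8778 w8381
theorem v8798 : PV l8798 := r8798 v2989 v2992 v3006 v4086 v8742 v3089 v3090 w2525 w2542 w2569 v8792 v8787 v8790 v8540 v3308 v1073
theorem v8799 : PV l8799 := r8799 w2488 v7908 v3308 v3070 v5861
theorem v8800 : PV l8800 := r8800 v706 v702 v5750 w3888
theorem v8801 : PV l8801 := r8801 v5267 w2444 v8508 v1267
theorem v8802 : PV l8802 := r8802 v3303 v4069 v8800 v8801 w6115 w3890 v1244 v8508 w2460
theorem v8803 : PV l8803 := r8803 v2992 v4892 v3007 v328 w5493 w5839 v3484 v3478 v8798 v8799 v8802 v3308 v3312 v5847 v8757 v3309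
theorem v8804 : PV l8804 := r8804 w8778 w8381
theorem v8805 : PV l8805 := r8805 v2992 v4892 w5823 v3007 v328 v8803 w8774 v8804 w5727 v3484 v3478 v8798 v7117 v8799 v3308 v8802
theorem v8806 : PV l8806 := r8806 v2992 v4892 v3007 v8805 v3491 v5732 v1127 v3478 v8789 w5841 v8798
theorem v8807 : PV l8807 := r8807 w2569 w2542 v1073 v7827 v8539
theorem v8808 : PV l8808 := r8808 v5034 v328 v3089 w2488 v8807 v3308 v3996 v8064 w4066 v5745
theorem v8809 : PV l8809 := r8809 v4233 v4086 v8808 v6476 v3308 v1073 v7827 w2540 w2568 v8539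
theorem v8810 : PV l8810 := r8810 v8799 v8802 v3308 v3312 v706 v702 v3309 w5929
theorem v8811 : PV l8811 := r8811 v2992 v4892 v3933 v2710 v3007 v3006 v328 v3841 v8806 v6221 v8809 v8810 v8789
theorem v8812 : PV l8812 := r8812 w5727 w5493 v8804 w8774
theorem v8813 : PV l8813 := r8813 v8776 v8794
theorem v8814 : PV l8814 := r8814 v8113 v8775
theorem v8815 : PV l8815 := r8815 v5034 v4763 v3304 v3308 v8747 v8083 v5265
theorem v8816 : PV l8816 := r8816 v8640 v3957 v5034 v4232 v8813 v8814 v8815 v3293 v7859 v5799 v3036 w4161 w5894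
theorem v8817 : PV l8817 := r8817 v2568 w5823 w4552 w4548 w4543 w5818 v8640 v2673 v2674 v6350 v3933 v2710 v7703 v2991 v2992 w4557 v1145 v1146 w4563 v3006 w4569 v3219 v3008 v328 v4130 v5208 v390 v2837 v2835 v8796 w2924 v2599 v2574 w3749 v4892 v8797 v3500 v3505 v8811 v4763 v8812 v3484 v3478 v8816 v7772 v8795 v3094 w2489 w2491 v8117 v5051 v3308 v4517 w6151 v4547 v684
theorem v8818 : PV l8818 := r8818 v4180 v5437 v1102 v755 w8481
theorem v8819 : PV l8819 := r8819 v7703 v3223 w4557 v1146 v8640 v6350 v8818 v4183 v2571 v8817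
theorem v8820 : PV l8820 := r8820 w5818 v8640 v6350 v3933 v2710 v7703 w4557 v1145 v1146 v501 v3223 v3219 v4770 v4771 v4775 v8818 v5208 v8819 v4082 w6585 v3003 v4606 v8724 v3505 w5728
theorem v8821 : PV l8821 := r8821 v4525 v3303 v4059 w4091 w4229 v3966 v8782 w947
theorem v8822 : PV l8822 := r8822 v4525 v5034 v3282 v1073 v8821 v5068 v5067 v3999 v5072 v411 v4051 v4984
theorem v8823 : PV l8823 := r8823 v4086 v4525 v2989 v2992 v3006 v328 v3090 w2488 w2525 v8792 v8822 v3308 v3975 v4059 w4078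
theorem v8824 : PV l8824 := r8824 v4525 v5034 v3096 v5267 v713 v3091 v8686 v3074 v8661 v4029 v8685 v4017 w4092 w3914 v3969 v5072
theorem v8825 : PV l8825 := r8825 v3008 v8823 v8824 v1073 v3308 w6092 v4053 w4063 w3890 v3996 v8549 w2497
theorem v8826 : PV l8826 := r8826 v3070 v8757 v316 w2491 w2499 v3987 v728 v5763 v5749 v4743
theorem v8827 : PV l8827 := r8827 v3304 v4038 v5267 w6115 w5875
theorem v8828 : PV l8828 := r8828 v3933 v2710 v3007 v328 v3841 v8825 v6566 w4085 w4080 w4076 v8788 v8826 v3308 v8827 v4069 w3907 v1246 v1267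
theorem v8829 : PV l8829 := r8829 v8762 v8794 v3089 v3090 w2529 v8774
theorem v8830 : PV l8830 := r8830 v328 v3090 w2488 v8115 v4708 v4518 v3303 v4548 v4551
theorem v8831 : PV l8831 := r8831 v3308 v4763 v713 w6336 v5051 v684
theorem v8832 : PV l8832 := r8832 v3308 v4763 v8831 w6151 w4230 v684 v8782 v5051 v4085 v4545
theorem v8833 : PV l8833 := r8833 v8640 v6350 v2991 v3006 w9147 w8906 v8828 v4763 v3321 v8829 v7772 v8830 v8117 v3308 v3261 v8832 w4229 v4547 v8782 v1074 v4085 v713 v6130 v4544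
theorem v8834 : PV l8834 := r8834 v5034 v328 v3089 w2488 v8807 v8064 v3308 v3996 v4059 w4066
theorem v8835 : PV l8835 := r8835 v1073 v7827 w2540 w2568 v8539
theorem v8836 : PV l8836 := r8836 v3008 v4233 v4086 v8834 v8835 v3308 v4053 v8801 w6092 w4063 w3890 v3996 v8508 w2497
theorem v8837 : PV l8837 := r8837 v1246 v1267
theorem v8838 : PV l8838 := r8838 v8837 v328 v8836 v8810 v6566 w4085 w4080 w4076 w3907 v8788 v8826 v5060 v3308
theorem v8839 : PV l8839 := r8839 v3089 v3090 w2529 v8113 v8745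
theorem v8840 : PV l8840 := r8840 v5034 v8839 v8815 v8715 v7859 w2494
theorem v8841 : PV l8841 := r8841 v3308 v410 v8832 v8782 v4547 w3897 w124 v4085 v4517 v1074 v4508 v4509 v6130 v6158
theorem v8842 : PV l8842 := r8842 v5049 v4535
theorem v8843 : PV l8843 := r8843 v2998 v8640 v6350 v3933 v2710 v2991 v2992 v3007 v3006 v8833 v2707 w3241 v2599 v2574 v4892 v8837 v8838 v3321 v8840 v7772 v8830 v8117 v3308 v3261 v5808 v8841 v1245 w2460 v8842 w3907 v4547 v4517 v1074 v4533 v3096 v8115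
theorem v8844 : PV l8844 := r8844 v3933 v2710 v3007 v3841 v8825 v6566 v6290 w2460 w2453 v8779
theorem v8845 : PV l8845 := r8845 w2488 w2443 v4518 w6213 v3308 w3890 v4753
theorem v8846 : PV l8846 := r8846 v4518 v4524
theorem v8847 : PV l8847 := r8847 v2571 v5035 v4834 v8731 v8640 v6350 v3933 v2710 v3119 v2808 v8721 v3374 v4129 v1779 w1593 v7703 v498 v8601 v2674 w4557 w4563 v3007 v2673 v3464 v3431 v8734 v8383 v4832 v4844 v3115 v3384 v3336 v2713 v3394 v2658 w1544 v3435 v8820 v759 w5838 w5480 w5487 w5823 w4552 w4543 w5818 v2998 v2996 v2991 v1145 v1146 v3006 w4569 v496 v501 v3219 v328 v5208 v3500 v3505 v390 v5460 v3478 v8843 v4775 v4846 v3758 v5388 v4776 v3137 v4187 w4346 v4852 v3762 v4087 v1246 v8837 v8844 v8829 v7772 v8845 v3075 v8846 v3304 v3308 v5672 v4756 v4752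
theorem v8848 : PV l8848 := r8848 v3219 v5199 v5438
theorem v8849 : PV l8849 := r8849 v5068 v4056 v5853
theorem v8850 : PV l8850 := r8850 v328 v3090 w2488 v8849 v8821 v4059 v3282 w4065 v3996
theorem v8851 : PV l8851 := r8851 v5034 v4053 v4048 w3896
theorem v8852 : PV l8852 := r8852 v5034 v4086 v8850 w2449 v8661 v8851 v4058 v5050 w3895
theorem v8853 : PV l8853 := r8853 v8837 v1246 v8852 v6566 v6290 w2460 w2453 v8779
theorem v8854 : PV l8854 := r8854 v5035 v4834 v8731 v8640 v8721 v3374 v3119 v4129 v2808 v4832 v4844 v3115 v3384 v6350 v3336 v2713 v1779 v3394 v2658 w1544 v3933 v2710 w1593 v7703 v498 v8601 v3431 v3435 w4557 w4563 v3007 v2673 v3464 v8734 v2674 v8383 v8820 v759 w5487 v3219 v476 w5480 v501 w5472 v8848 v5208 v390 v3478 v3505 v5460 v3500 w5823 w4552 w5818 v2998 v2996 v2991 v1145 v1146 v3006 w4569 v496 v3008 v8847 v4771 v4846 v3758 v5388 v4776 v3137 v4187 w4346 v4852 v3762 v4087 v8853 v8829 v7772 v8846 v3308 v4711 w2489 v4707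 v4756 v4752
theorem v8855 : PV l8855 := r8855 v3303 v4059 w3907 v6709
theorem v8856 : PV l8856 := r8856 w6032 v8782
theorem v8857 : PV l8857 := r8857 v4525 v5034 v3308 v5068 v1073 v3999 v5067 v411 v5072 v4051 v4984
theorem v8858 : PV l8858 := r8858 v5034 v3996 v8064 w4066 v4059
theorem v8859 : PV l8859 := r8859 w4091 w4229 v3966 w947 w6032 w6014
theorem v8860 : PV l8860 := r8860 v4525 v328 v3089 v3090 w2488 w2569 v8857 v3303 v8858 v3282 v1073 v8859 v8855 v1246 w3890 v1268 w6297 v7827 v7902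
theorem v8861 : PV l8861 := r8861 v4525 v5034 v3303 v8549 w2507 w2460 v3075 v5265 v4027 v1245 v3076 v3077 v8661 v6709 v8688
theorem v8862 : PV l8862 := r8862 v4525 v8861 v3308 v3261 v1073 v3096 v5267 w2568 v8686 v4029 v8859 w3907
theorem v8863 : PV l8863 := r8863 v5034 v4053 v2784 v2786 w3870 v4087 w2463 w2449 v4017 v8083
theorem v8864 : PV l8864 := r8864 v5034 v4525 v4233 v8860 v8862 v1246 w2460 v8686 v4029 w4092 w4090 v8863 v3308 v1073 v3974 v713 v4984 v5072 v4045
theorem v8865 : PV l8865 := r8865 v7703 w4563 v3007 v3384 v501 v5035 v4832 v4844 v4834 v328 v8799 v6566 v8779 w4085 w4080 w4076 w2442 v8788 v4087 v4775 v5388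
theorem v8866 : PV l8866 := r8866 v702 v5847 w4064 v8826
theorem v8867 : PV l8867 := r8867 w3907 v6566 v6163 v1244 w2460
theorem v8868 : PV l8868 := r8868 v3303 v8867 v5060 w3891 v8827 w5875 v4039 v5267
theorem v8869 : PV l8869 := r8869 v3303 v8868 v1246 v8837 w2460 v8827 v4039
theorem v8870 : PV l8870 := r8870 v8869 v3308
theorem v8871 : PV l8871 := r8871 v7703 v8721 w4557 v1145 w4563 v3007 v3006 v3374 v3384 w4569 v5035 v4832 v4844 v4834 v328 v8864 v8865 v8866 v8870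
theorem v8872 : PV l8872 := r8872 v3089 v3090 w2529 v8113 v8774
theorem v8873 : PV l8873 := r8873 v5034 v4763 v3303 v8083 v8747 v5265
theorem v8874 : PV l8874 := r8874 v8829 v8872 v8873 v5031 v5027
theorem v8875 : PV l8875 := r8875 v3954 v7703 w4557 v1146 w4563 v3006 v501 v328 v5035 w2488 w2549 v8830 v4518 v4775 v3308 w1738 v5388 v5387 v4753 w6224 w4017
theorem v8876 : PV l8876 := r8876 v498 v7703 v8601 v3431 v2996 w4557 v1145 v1146 v501 v5035 v4834 v3303 v4756 v8117 v4752 v4775 v5672 v5388 v3075 v4087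
theorem v8877 : PV l8877 := r8877 v8721 v498 v7703 v8601 v3435 v3431 v2996 v2993 w4557 v1146 w4563 v3006 v3374 v5035 v4834 v328 v4763 v8874 v4184 v7772 v8875 v8876 v3308 v7199 v4518 v1074 w6151 w2491 v4547 v684 v5051
theorem v8878 : PV l8878 := r8878 v4525 v328 v3089 v3090 w2488 w2569 v8849 v8858 v3303 v4059 v3282 v8859
theorem v8879 : PV l8879 := r8879 v5034 v8878 w2449 v8661 v8851 v4045 v4058 w3895
theorem v8880 : PV l8880 := r8880 v5035 v4834 v8731 v8640 v6350 v3933 v2710 v3119 v2808 v8721 v3374 v4129 v1779 w1593 v2658 w1544 v3464 v3394 v2673 v2674 v2713 v3336 v476 v7703 v2991 v2992 w4557 v1145 w4563 v3007 v3006 v3384 w4569 v496 v498 v501 v3115 v3219 v4832 v4844 v328 v8601 v2996 v2998 v3431 v3435 v8734 v8383 w5823 w5818 w4543 w4552 v8820 v759 w5487 w5480 w5472 v8848 v5208 v3500 v3505 v390 v5460 v3478 v8854 v4606 v4084 v2544 w2924 w8998 v8877 v8871 v4771 v4846 v3758 v5388 v4187 w4346 v3762 v4087 v8879 v8865 v8866 v8870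
theorem v8881 : PV l8881 := r8881 w5487 w5488 w5489 v3488 v759 w8656 w8799 w3556 w8798
theorem v8882 : PV l8882 := r8882 w9057 w9136
theorem v8883 : PV l8883 := r8883 v3308 v4056 w6297 w3888
theorem v8884 : PV l8884 := r8884 v3303 v4525 v5745 w4091 v3966 w947 w5818 v8882 w804 v8790 w4229 w8906 w2687 w6014
theorem v8885 : PV l8885 := r8885 v5035 v4834 w4351 v4087 v4115 v2713 v7703 v8721 w4557 v1145 w4563 v3006 w4569 v498 v4832 v328 v3089 v3090 w2488 w2563 w2542 w2442 v8883 v8858 v3282 v8884 w5513 w5012 v8381 w6456 w6748 w2569 v8546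
theorem v8886 : PV l8886 := r8886 v5034 v6476 v5072 v8742 v5020 v4018 v4017
theorem v8887 : PV l8887 := r8887 w6297 w6166
theorem v8888 : PV l8888 := r8888 v5035 v4834 w4351 v4087 v5034 v7703 v8721 w4563 v3006 w4569 v8885 v6476 w2463 w2449 v3308 v5072 w3913 v8886 v8887 v684 v4067 v4054 v6157
theorem v8889 : PV l8889 := r8889 w804 v8821 w6014 w8906 w2686
theorem v8890 : PV l8890 := r8890 v3303 v4525 w4091 v3966 w947 w4205 w5818 w5815 v8889 w9136 w8998 w2687 v8859
theorem v8891 : PV l8891 := r8891 v5035 v4834 w4351 v4087 v4118 v4115 v2713 v7703 w4557 v1145 w4563 v3006 w4569 v498 v4832 v328 v3089 v3090 w2488 w2563 w2555 w2557 w2442 v8883 v8855 v8702 v8858 v3074 v3282 v8890 w5513 w5012 v8381 w6456 v4086 w6748 w2569 v8709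
theorem v8892 : PV l8892 := r8892 v5034 v5035 v4834 v8731 v8640 v6350 v3119 v2808 v8721 v3374 v4129 v1779 v3394 v3772 v8880 v4164 v4165 v3933 v2710 w1593 v2658 w1544 w1545 v3464 v2673 v2674 v476 v7703 v2992 w4557 v1145 w4563 v3007 v3006 w4569 v488 v496 v501 v3118 v3117 v3219 v4832 v4844 v2993 v2994 v2996 v8881 v485 v482 v8848 v5208 v3505 v390 v2836 v2835 w8503 v5460 v3478 w8798 w4840 w8918 w8799 v4788 v4194 w4481 w4975 v4771 v4789 w6519 v3797 w4351 w4318 v4087 v8888 v8891 v3075 w2463 w2449 v8549 v5072 v3308 v8887 v684 v4067 v4054 v8483 v6157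
theorem v8893 : PV l8893 := r8893 w8607 v626
theorem v8894 : PV l8894 := r8894 w2442 v8799 v706 v712 v3308 w3888 v4073
theorem v8895 : PV l8895 := r8895 v8508 v8553
theorem v8896 : PV l8896 := r8896 v5035 v4834 v7703 v2987 v8721 v3374 v3115 v8731 v8640 v6350 v3336 v8880 v4163 v8893 w3054 v3933 v3119 v2808 v4129 v1779 v3464 w4557 v1145 w3469 v488 v2806 w3820 w3795 v4164 v2658 w1544 v3117 v2809 v3118 w4563 v3007 w1545 v4165 v8881 v485 v5198 v3505 w8503 w8798 v4194 w6519 w4351 v4087 v2988 w3057 v3394 v496 v4788 v4789 v3797 w4318 v404 w3506 v3484 v498 v3436 v2674 v3384 v4832 v4844 v328 v8892 v8894 v3075 v8895 v3308 v5847 v8757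
theorem v8897 : PV l8897 := r8897 v8872 v8873 v3075 v5031 v8753 v5984
theorem v8898 : PV l8898 := r8898 v3303 v8115 v5672 v4755 v4730 v2779
theorem v8899 : PV l8899 := r8899 v328 v3090 w2488 w2442 v8898 v3308 v4551 v7199 v4548
theorem v8900 : PV l8900 := r8900 v5035 v4834 v8731 v8640 v6350 v3336 v2658 v3933 v2808 v2806 v7703 v2991 v2988 v2987 v8721 w4557 v1145 v1146 w4563 v3007 v3006 v3374 v488 v496 v501 v3119 v3118 v3117 v3115 v404 v4129 v2674 v1779 v3394 v3464 w1545 w1544 v8880 v4165 v4164 v4163 v8893 w3506 w3469 v2809 w3057 w3054 w3820 w3795 v8881 v485 v3484 v3478 v5198 v3505 v3500 w8503 w4840 w8918 w8798 w4489 v4788 v4194 v4775 v4789 v4790 w6519 v3797 w4351 w4318 v4087 v8896 v8897 v8899 v3075 v5672 v4535 v4533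
theorem v8901 : PV l8901 := r8901 v8640 v6350 v3933 v476 v7703 v2989 v2990 v2987 v3223 v3219 v3008 v5035 v5039 v2675 v5411 v4252 w6513 v3835 v4909 v4087 v1218 w4818 w4698 w4699 w4953 w4945 w2762 w2776 w2764 v5438 v4846 v4867 v5134 v4247 v4775
theorem v8902 : PV l8902 := r8902 v4082 v4598 w8579 v2708
theorem v8903 : PV l8903 := r8903 w1593 v2555 v2808 v496 v501 w5487 v3488 v3491 w8994 v3137 v4771 v2557 v8727 w5727 v8902 v2571 v8384 v5666 w8946 v2544
theorem v8904 : PV l8904 := r8904 v4083 w8946 v2586 v2544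
theorem v8905 : PV l8905 := r8905 v2571 v8385 v4598
theorem v8906 : PV l8906 := r8906 v4083 v8904 v8384
theorem v8907 : PV l8907 := r8907 v2881 v4672
theorem v8908 : PV l8908 := r8908 w5735 v1697 w8180 w2269 w2339 w1465 v8399 w3754 w7968 w8069
theorem v8909 : PV l8909 := r8909 w3414 v8908 w5594 w5591 v8398 w3427 v8390 v2606 v2608 v4270 v8000 v4628 v3235 w2716 w7717 w8053
theorem v8910 : PV l8910 := r8910 w8328 v4204 w694 w714 v8909 w3756 v8445 v8398 w5735
theorem v8911 : PV l8911 := r8911 v2606 v2607 w8119 v4476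
theorem v8912 : PV l8912 := r8912 v1705 w6442
theorem v8913 : PV l8913 := r8913 v7274 w8284
theorem v8914 : PV l8914 := r8914 w4262 v8912 v3930 w8119 v4476
theorem v8915 : PV l8915 := r8915 w5735 v8908 v8445
theorem v8916 : PV l8916 := r8916 w5520 w5431 w7519 w7608 w3841
theorem v8917 : PV l8917 := r8917 v3239 v4079 v8431 v4965 v2969 v8916 v460 v5075 v3632 v4496 v4494
theorem v8918 : PV l8918 := r8918 v8467 v5103 v3620
theorem v8919 : PV l8919 := r8919 w8255 v5510
theorem v8920 : PV l8920 := r8920 v8919 v6862 w7774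
theorem v8921 : PV l8921 := r8921 v1697 v5669
theorem v8922 : PV l8922 := r8922 w3754 w3756 v8390 v8921 w1536 w2269 v8399
theorem v8923 : PV l8923 := r8923 v4496 v4494
theorem v8924 : PV l8924 := r8924 v4598 w3582 v5102 v3239 v3102 v6954 v2549 v3296 v8918 v2609 v4079 v8431 v4314 v4965 w4146 v2969 w2511 w6043 v3921 w941 v8923 v2406 v747 w7643 w3516 w3842 v3630 w7519 w5521
theorem v8925 : PV l8925 := r8925 v4588 v2418 v5093 v5149 v3236 v2349 v6423
theorem v8926 : PV l8926 := r8926 v2606 v2607 w7777 v8005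
theorem v8927 : PV l8927 := r8927 w8459 v8185 w5752 w8774
theorem v8928 : PV l8928 := r8928 v5341 v5343
theorem v8929 : PV l8929 := r8929 v5297 v5308 v5039 v5383 v8928
theorem v8930 : PV l8930 := r8930 v5297 v2845 v5394 w4452 w4818 w4543 v8929 v4127 v7703 v5035 v473 v476 v5308 v1145 v1210 w4472 v2680 v3934 v3935 v3335 v6153 v4624 v4590 v2848 v3851 v4834 v2633 v3347 w8548 v4833 w3188
theorem v8931 : PV l8931 := r8931 v5297 v5308 v2845 v2846 v5644 v5343 v485 v3507 v3508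
theorem v8932 : PV l8932 := r8932 v8929 v4127 v7703 v3008 v5035 v5297 v2845 v5394 w4452 v473 v476 v5308 w4543 w4818 v8930 v8931 v3934 v3935 v3335 v6153 v4624 v4590 v3006 v2848 v425 w4476 v4834 v1218 v2633 v3347 v3851 w8548 v4833 w3188
theorem v8933 : PV l8933 := r8933 v2680 v8931
theorem v8934 : PV l8934 := r8934 v5297 v8929 v8933 v6153 v476 v3935 v4624 v3127 v3113 v3342 v3338 v5308 v7703 v3006 w4487 v3008 v425 v1218 v3829 v2848 v1412 v4967 w4483 w4495 v4129 v5035 v6253 w4816 w4825 v6701 v4850 v1779 v4836 w2776 w3101 v2907 v3810 v5363 v3760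
theorem v8935 : PV l8935 := r8935 v5297 v8929 v8933 v6153 v476 v3935 v4624 v5308 v2845 v2846 v4247 v483 v482 v4242 v4225
theorem v8936 : PV l8936 := r8936 w8833 w3183 w8701 v4870
theorem v8937 : PV l8937 := r8937 v5035 v3374 w5474 v4836 w8776 w3197
theorem v8938 : PV l8938 := r8938 v8873 w2460 v5029 v8747 v2779 v5015
theorem v8939 : PV l8939 := r8939 v3265 v5028 w6278 w4023
theorem v8940 : PV l8940 := r8940 v4117 v8938 w2555 v8939 v5956 v4761 w3895
theorem v8941 : PV l8941 := r8941 v3303 v3085 v4550 v4534 v2779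
theorem v8942 : PV l8942 := r8942 v5697 v6709 v6293 v4025
theorem v8943 : PV l8943 := r8943 v4763 w2555 v8939 v5846 v4761
theorem v8944 : PV l8944 := r8944 v4763 v4618 v5034 v4117 v8940 v1247 v8943 v8873 w2451 v5029 v5020 w3895
theorem v8945 : PV l8945 := r8945 v3303 v8941 v4550 v4548
theorem v8946 : PV l8946 := r8946 v4549 w3888 w6151
theorem v8947 : PV l8947 := r8947 v8085 v3303 v3304 v8945 v3091 v8946 v4547 v2779 w5897 v4533 w3891 w2460 v1247
theorem v8948 : PV l8948 := r8948 w2555 v8939 v5956 v4761 w3895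
theorem v8949 : PV l8949 := r8949 v4618 v3951 v8947 v4117 v8944 v8948 v8873 v5029 v5027
theorem v8950 : PV l8950 := r8950 v3085 v6293 v2779 v4060 v8855
theorem v8951 : PV l8951 := r8951 v8942 v1247 v8950 v3091 v1073 w6753 w6092
theorem v8952 : PV l8952 := r8952 v4618 v8949 v8951 v6566 v7053 v6290 v3078 v3303 v3304 v702 v1085 w3888 v5267 v3082
theorem v8953 : PV l8953 := r8953 v4618 v4117 v8948 v8815 v8873 v3091 v5799 w5884 w3888 v5027
theorem v8954 : PV l8954 := r8954 v4618 v1412 v4763 v3951 v8953 v8085 v3303 v3304 v8945 v3091 v8946 v4547 w3909 v2779 w5897 v4533 w3943 w2500 v4534 v3076 v5000 v4531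
theorem v8955 : PV l8955 := r8955 v4525 v5034 v3089 v3090 w2477 v3085 v8950 v8064 v3976 v6293 w4115 w3925 v6709 v4983 v4013
theorem v8956 : PV l8956 := r8956 v1242 v8955 v3091 v1073 w6753 w6092
theorem v8957 : PV l8957 := r8957 v1243 v1242 v1412 v4967 v4966 v3008 v3006 v425 v1217 v1218 v4969 v4968 v4618 v8952 v8954 v8956 v6566 v7053 v6290 v3078 v3303 v3304 v702 v1085 w3888 v5267 v3082
theorem v8958 : PV l8958 := r8958 v4007 v5034 v4525 v4117 v8948 v8873 v3075 w2472 w2449 v5029 v8747 v5010 v5008 w3895 v5050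
theorem v8959 : PV l8959 := r8959 v3304 v3303 v1412 v3089 v4550 w2442 v2779 w3895 w6015 v4534 w3947 w2461 v5657 w2450
theorem v8960 : PV l8960 := r8960 v4549 w3989 w6162 w6187
theorem v8961 : PV l8961 := r8961 v1412 v4967 v3008 v3006 v425 v1217 v1218 v4968 v8958 w26 v8085 v3303 v3256 v8959 w2637 v3075 v8960 v4547 v2779 v4533
theorem v8962 : PV l8962 := r8962 w2555 v8939 v3303 v5956 v4761 v5977 w3897 v2789 w3901
theorem v8963 : PV l8963 := r8963 v4763 v5034 v4117 v8962 v8873 v3075 w2463 w2449 v5029 v8747 v5014 v5027 v2783 v5050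
theorem v8964 : PV l8964 := r8964 w2442 v4550 w6015 v2789
theorem v8965 : PV l8965 := r8965 v1412 v4967 v3008 v3006 v425 v1217 v1218 v4968 v3951 v8961 v8963 w26 v8085 v3303 v3304 v3256 v8964 w2637 v8960 v4547 v2789 w6015 w5897
theorem v8966 : PV l8966 := r8966 v5034 v3089 v8064 v3989 v3287 w4120 w6174 w2644 v6293 v2779 v6709 v4060 v3303
theorem v8967 : PV l8967 := r8967 v4228 v8966 v3075 v8686 v5678 v4029
theorem v8968 : PV l8968 := r8968 v8967 v6566 v7053 v6290 v3078 v3303 v3304 v3075 v3082 v702 w3888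
theorem v8969 : PV l8969 := r8969 v5034 v3089 w2442 v8064 w6034 v2789 v2790 v4060 v6709 v3303
theorem v8970 : PV l8970 := r8970 v8969 v3075 v8686 v5678 v4029
theorem v8971 : PV l8971 := r8971 v8968 v2793 v8970 v6566 v7053 v6290 v3078
theorem v8972 : PV l8972 := r8972 v3817 v8971
theorem v8973 : PV l8973 := r8973 v4117 v8948 v8815 v8873 v3075 v5799 v8753 w3888 v5027
theorem v8974 : PV l8974 := r8974 v1412 v4967 v3008 v3006 v425 v1217 v1218 v4968 v8973 w26 v8085 v3303 v3256 v8959 w2637 v3075 v8960 v4547 v2779 v4533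
theorem v8975 : PV l8975 := r8975 v4117 v8962 v8873 v3075 v8753 v8747 v5017 v5027 v2786
theorem v8976 : PV l8976 := r8976 v5297 v8929 v8933 v3935 v6153 v476 v4624 v2846 v2848 v7703 v3006 w4487 v5308 v3008 v425 v1218 v3829 v3832 v8935 v4664 w5167 v1243 v1242 v2845 v482 v4216 v4225 v473 v3934 v4590 w4476 v3851 v6263 v1412 v4967 v4966 v1217 w4495 v4969 v4968 v5035 v4666 v6265 v5394 w4452 v8957 w2740 v3814 v8972 v3951 v8965 v8974 v8975 w26 v8085 v3303 v3304 v3256 v8964 w2637 v8960 v4547 v2789 w5897 w6015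
theorem v8977 : PV l8977 := r8977 v8949 v8954
theorem v8978 : PV l8978 := r8978 v3085 v6293 v8702 v2779 v4060
theorem v8979 : PV l8979 := r8979 v8978 v3091 v1073 w6753 w6092
theorem v8980 : PV l8980 := r8980 v4618 v8977 v8979 v6566 v7053 v6290 v3303 v3304 v3078 v702 v1085 w3888 v5267 v3082
theorem v8981 : PV l8981 := r8981 v1412 v4967 v3008 v3006 v425 v1217 v1218 v4968 v3951 v8965 v8974 v8975 w26 v8085 v3303 v3304 v3256 v8964 w2637 v4554 v8960
theorem v8982 : PV l8982 := r8982 v3269 v4060 w6175 v2779 w2645 v6293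
theorem v8983 : PV l8983 := r8983 w2558 v8155 w4216 v8982 v5956 v4059 w3895
theorem v8984 : PV l8984 := r8984 v4118 v4229 v8983 v3075 v8686 v5678 v4029
theorem v8985 : PV l8985 := r8985 v8984 v6566 v7053 v6290 v3303 v3304 v3075 v3078 v702 v3082 w3888
theorem v8986 : PV l8986 := r8986 v3308 v4060 w6034 v2789
theorem v8987 : PV l8987 := r8987 w2442 v8986 v4059 v2789 w6034 w5964
theorem v8988 : PV l8988 := r8988 v8987 v3075 v8686 v5678 v4029
theorem v8989 : PV l8989 := r8989 v8985 v2793 v8988 v6566 v7053 v6290 v3078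
theorem v8990 : PV l8990 := r8990 v3216 v5297 v8929 v8933 v3935 v6153 v476 v4624 v2846 v2848 v7703 v3006 w4487 v5308 v3008 v425 v1218 v3829 v3832 v8935 v4664 w5167 v1243 v1242 v2845 v482 v4216 v4225 v473 v3934 v4590 w4476 v3851 v6263 v1412 v4967 v4966 v1217 w4495 v4969 v4968 v5035 v4666 v6265 v5394 w4452 v8976 v3811 v3814 v8980 w2762 w2776 v4885 v8981 v3818 v3772 v8989
theorem v8991 : PV l8991 := r8991 v3308 v7117 v702 v3082 w3888
theorem v8992 : PV l8992 := r8992 v8991 v5956 v4074 w3895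
theorem v8993 : PV l8993 := r8993 v4618 v8992 v3091 v7838 v1084
theorem v8994 : PV l8994 := r8994 v1243 v1242 v1412 v4967 v3008 v3006 v425 v1217 v1218 v4969 v4968 v4618 v8977 v8993 v8956 v8979
theorem v8995 : PV l8995 := r8995 v1412 v4967 v3008 v3006 v425 v1217 v1218 v4968 v3951 v8965 v8974 v8975 w26 v8085 v3303 v3304 v3256 v8964 w2637 v8960 v4547 v2789 w5897 w6015
theorem v8996 : PV l8996 := r8996 v8967 v8984
theorem v8997 : PV l8997 := r8997 v1412 v4967 v4966 v8996 v8992 v3075 v6290 v4039 v5801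
theorem v8998 : PV l8998 := r8998 v8970 v8988
theorem v8999 : PV l8999 := r8999 v5035 v404 v8932 v4836 v5297 v8929 v8933 v3935 v6153 v476 v4624 v2846 v2848 v7703 v3006 w4487 v5308 v3008 v425 v1218 v3829 v3832 v8935 v4664 w5167 v4128 v1412 v4967 v3339 v3114 v8937 w5193 w5380 w4483 v3338 v4130 v3113 v6253 w4807 v8934 v1243 v1242 v2845 v482 v4216 v4225 v473 v3934 v4590 w4476 v3851 v6263 v1217 w4495 v4969 v4666 v6265 v5394 w4452 v8990 v3417 v8994 w2776 w2740 v3814 v8995 v3817 v3818 v3772 v8997 v2793 v8998 v7117 v3308 v5827 v7838 v4074 v2789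
theorem v9000 : PV l9000 := r9000 v4763 w2555 v8939 v5849 v4761 w3895
theorem v9001 : PV l9001 := r9001 w4023 v5029 w6148 w6278
theorem v9002 : PV l9002 := r9002 v4763 v4618 v5034 v4117 v9000 v8873 v3265 v9001 v5027 w3909 v2779 v5977 v5015 v5013 v3076
theorem v9003 : PV l9003 := r9003 v4618 v3951 v9002 v8085 v3303 v3304 v8945 v7118 v3091 v4547 w6423 w5897
theorem v9004 : PV l9004 := r9004 v5034 v3308 v4060 v3989 w3895 w4105 v4047 v4995
theorem v9005 : PV l9005 := r9005 w3714 v8020 v743 v5728 w1534 w7752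
theorem v9006 : PV l9006 := r9006 v3934 v2444 v3540 v4580 v3903 w5252 w2962 w7749
theorem v9007 : PV l9007 := r9007 v2606 v2608 w1534 v743 w2966 w2964 v4467 w7949
theorem v9008 : PV l9008 := r9008 v5738 w5962
theorem v9009 : PV l9009 := r9009 v3935 v3934 v2550 w2339 w2336 v4580 v2450 v2451 v2448 v743 w8287 w8127 v745
theorem v9010 : PV l9010 := r9010 v5297 v5308 v8929 v4208 w699 v8933 v6153 v3006 w4487 v476 v3935 v4624 v3008 v425 v1218 v3829 v3832 v8935 v4260 v2477 v2848 v1412 v4967 v4968 v3934 v2444 v3540 v4580 v4814 v2620 v6834 w7999 w2972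
theorem v9011 : PV l9011 := r9011 v5297 v5308 v8929 v4208 w699 v4280 v2477 v8933 v3935 v6153 v476 v4624 v2846 v2848 v3006 w4487 v3008 v425 v1218 v3829 v3832 v8935 v4664 w5167 v1242 v2845 v482 v4216 w4476 v473 v3934 v4590 v6263 v4968 v9010 v743 w8205 w2968 w2964 v2620 v2623 v4580 v4299 w7949 v4458 w4264
theorem v9012 : PV l9012 := r9012 v5297 v5308 v8929 v4208 w695 w699 w5407 v8933 v3935 v6153 v476 v4624 v2846 v2848 v3006 w4487 v3008 v425 v1218 v3829 v3832 v8935 v4664 w5167 v1242 v2845 v482 v4216 w4476 v473 v3934 v4590 v6263 v2627 v6265 w5285 w5286 w5287 w5735 w5732 w5731 v9011 w3393 w3394 w3391 v743 w7999 v8403 w2288 w8087 v1105 w8086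
theorem v9013 : PV l9013 := r9013 v5297 v8929 v8933 v6153 v3006 w4495 v5308 v3814 v4208 w699 w4487 v476 v3935 v4624 v3008 v425 v1218 v3829 v3832 v8935 v4260 v2477 v2554 v2846 v2848 v4664 w5167 v1242 v2845 v482 v4216 v4623 w4476 v473 v3934 v4590 v6263 v1412 v4966 v1217 v4969 v4968 v4666 v6265 v9005 w3427 v8390 w7829 v2550 w2335 v9006 v743 w7963 w5250 w5258 w5261 v9011
theorem v9014 : PV l9014 := r9014 v3905 v3903
theorem v9015 : PV l9015 := r9015 v5297 v8929 v8933 v3935 v6153 v476 v4624 v2846 v2848 v3006 w4487 v5308 v3008 v425 v1218 v3829 v3832 v8935 v4664 w5167 w5141 w5142 w5309 v9011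
theorem v9016 : PV l9016 := r9016 v2550 v2552 v9014 v4629
theorem v9017 : PV l9017 := r9017 v19 w7829 w7850
theorem v9018 : PV l9018 := r9018 v5297 v5308 v8929 v4208 w699 v8933 v6153 v3006 w4487 v476 v3935 v4624 v3008 v425 v1218 v3829 v3832 v8935 v4260 v2477 v2712 v2554 w5407 v4666 v7190 v4082 w8866 w4476 v473 v3934 v4590 v6263 v4602 v2846 v2848 v4664 w5167 v1242 v2845 v482 v4216 v9012 w5590 w5588 v9007 v9013 v9017 v2550 v9014 v3540 v743 w3394 v9015 v9016
theorem v9019 : PV l9019 := r9019 v2550 w2335 v9006 v743 w2957 w7963 w7949 w5250 v4580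
theorem v9020 : PV l9020 := r9020 v2712 v9005 w5590 w5588 w3427 v9019 v9017 v2606 v2608 w1534 v743 w2962 w2957 v4467 w7949
theorem v9021 : PV l9021 := r9021 v2382 v2379 v4580 v2450 v2451 v2448 v743 w8287 w8127 v745
theorem v9022 : PV l9022 := r9022 v5297 v5308 v8929 v8933 v6153 v3006 w4487 v476 v3935 v4624 v3008 v425 v1218 v3829 w2744 v4208 w695 w699 v3832 v8935 v4260 v2477 v2846 v2848 v4664 w5167 v1242 v2845 v482 v4216 w4476 v473 v3934 v4590 v6263 v1412 v4967 v1217 v4968 v9021 v2620 v2469 v7987 v5893 w3025 w2722 w4263 w8205 v4652 v3540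
theorem v9023 : PV l9023 := r9023 v5297 w5407 v8929 v8933 v3935 v6153 v476 v4624 v2846 v2848 v3006 w4487 v5308 v3008 v425 v1218 v3829 v3832 v8935 v4664 w5167 v1242 w4476 v473 v3934 v4590 v6263 v1412 v4966 v1217 v4969 v4666 v6265 w5285 w5735 w5732 w5731 v9022 w3427 v8020 v5521 v5532
theorem v9024 : PV l9024 := r9024 v5297 v8929 v8933 v3935 v6153 v476 v4624 v2846 v2848 v3006 w4487 v5308 v3008 v425 v1218 v3829 v3832 v8935 v4664 w5167 w5141 w5309 w5310 w5312 v9022
theorem v9025 : PV l9025 := r9025 v5297 v8929 v8933 v6153 v3006 w4487 v476 v3935 v4624 v5308 v3008 v425 v1218 v3829 v3832 v8935 v4260 v4280 v2477 v2845 v2846 v2848 v4664 v482 v4225 v9024 v465 v9016 v9017 v2606 v2607 v2463 v4475 v4473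
theorem v9026 : PV l9026 := r9026 v4525 v8929 v5297 v8933 v3935 v476 v6153 v4624 v2848 v1412 v4967 v4618 v5308 v4208 w699 v3006 w4487 v3008 v425 v1218 v3829 v3832 v8935 v4260 v2477 v2712 v2554 w5407 v4666 v7190 v4082 w8866 w4476 v473 v3934 v4590 v6263 v4602 v2846 v4664 w5167 v1242 v2845 v482 v4216 v4623 v4966 v1217 v4969 v4968 v6265 v3089 v3090 w2555 v3084 w2477 w2569 v9004 v3303 w1742 v3100 v4055 w4023 w3978 v4059 v4062 v8855 w6248 v3968 v6709 w1596 v4720 v5917 v9008 w4225 v9018 w2744 v1247 v9023 w5588 w5589 v9020 v9025 v2980 v2982 w3394 v743 v2444 v3540 v5667 v3905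
theorem v9027 : PV l9027 := r9027 v5297 v8929 v8933 v3935 v6153 v476 v4624 v2846 v2848 v7703 v3006 w4487 v5308 v3008 v425 v1218 v3829 v3832 v8935 v4664 w5167 v1242 v2845 v482 v4225 w4476 v473 v3934 v4590 v6263 v5035 v4117 v9026 v3091 v1073 w6753 w6092
theorem v9028 : PV l9028 := r9028 v4618 v3085 v8991 v3303 v5862 v7053 v4074 v2779
theorem v9029 : PV l9029 := r9029 v5035 v4836 v7703 v3008 v5297 v8929 v8933 v6153 v3006 v425 v1218 w4487 v476 v3935 v4624 v5308 v3829 v3832 v8935 v4130 v8934 v2557 v2848 v3338 v3113 v6253 w5364 w5513 v4666 v7190 v4084 w9178 w3242 v2846 v4664 w5167 v1243 v2845 v482 v4216 v4225 v1412 v4967 v4969 v4968 v6265 v9003 v9027 v9028 v3091 v7838 v1084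
theorem v9030 : PV l9030 := r9030 v5297 v8929 v8933 v6153 v3006 w4487 v476 v3935 v4624 v5308 v3008 v425 v1218 v3829 v3832 v2848 v3303 w1742 v3100 v4055 w4023 v4059 v4062 w6248 v6709 v9018 w1596 w3924 w4225 v9008
theorem v9031 : PV l9031 := r9031 v3089 v5034 v5297 v8929 v8933 v3935 v6153 v476 v4624 v2846 v2848 v3006 w4487 v5308 v3008 v425 v1218 v3829 v3832 v8935 v4664 w5167 v1242 v4968 v9030 v3308 v4060 v9004 v3989 w3895 w4105 v4045 v4995
theorem v9032 : PV l9032 := r9032 v5297 v5308 v8929 v8933 v6153 v3006 w4487 v476 v3935 v4624 v3008 v425 v1218 v3829 w2740 w2555 w2442 w2569 v9031 v8986 v3303 v4055 v4059 v2786 v6709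
theorem v9033 : PV l9033 := r9033 v5297 v8929 v8933 v3935 v6153 v476 v4624 v2846 v2848 v7703 v3006 w4487 v5308 v3008 v425 v1218 v3829 v3832 v8935 v4664 w5167 v1242 v2845 v482 v4216 w4476 v473 v3934 v4590 v6263 v1217 v4969 v5035 v4117 v9032 v3075 v8686 v5678 v4029
theorem v9034 : PV l9034 := r9034 v8991 v3303 v7053 v6566 v2779 v4074
theorem v9035 : PV l9035 := r9035 w2488 v9034 v2793 v7117 v3308 v5827 v4004 v2789 v5863
theorem v9036 : PV l9036 := r9036 v5297 v8929 v8933 v3935 v6153 v476 v4624 v2846 v2848 v7703 v3006 w4487 v5308 v3008 v425 v1218 v3829 v3832 v8935 v4664 w5167 v1243 v1412 v4967 v4966 v4969 v328 v4666 v6265 v9033 v9035 v3075 v6290 v4039 v5801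
theorem v9037 : PV l9037 := r9037 v4763 w2555 v8939 v3303 v4761 v5849 v5977 w3872 w3866
theorem v9038 : PV l9038 := r9038 v4763 v5034 v4117 v9037 v8873 v3075 w2463 w2449 v3265 v8747 v9001 v5027 v8661 v5050 v5014 w3895 v2783
theorem v9039 : PV l9039 := r9039 v3304 v3303 v4007 v4763 v3090 w2442 v8964 w6015 w3917 v2779 w3965 v4534 v4533 v4986 w2478 v4527
theorem v9040 : PV l9040 := r9040 v5035 v4836 v7703 v3008 v5297 v8929 v8933 v6153 v3006 v425 v1218 w4487 v476 v3935 v4624 v5308 v3829 v3832 v8935 v4130 v8934 v2557 v2848 v3338 v3113 v6253 w5364 w5513 v4666 v7190 v4084 w9178 w3242 v2846 v4664 w5167 v1243 v1242 v2845 v482 v4216 v4225 v1412 v4967 w4495 v4968 v9029 w2740 v3814 v9036 v3951 v9038 v8085 v3303 v7118 v9039 v3075 v4547 v4538 v4533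
theorem v9041 : PV l9041 := r9041 w5588 v8390 v2608 w1534 w7903 v743 v2550 w7985 w2966 v4948
theorem v9042 : PV l9042 := r9042 v4201 v9041 w5285 w5287 w5290 v8021
theorem v9043 : PV l9043 := r9043 w5590 w5588 v8390 v2606 v2608 w7903 v7291 w7985 v4948 v4944
theorem v9044 : PV l9044 := r9044 v5042 v3234 v2471 v3585 w7933 v3889 w4264
theorem v9045 : PV l9045 := r9045 v5297 v8929 v8933 v6153 v3006 w4476 v473 v3934 v4590 v5308 v3008 v425 v1218 v6263 v476 v3935 v4624 v4666 v7190 v4602 v6265 v1217 v2846 v2848 w4487 v3829 v3832 v8935 v4664 w5167 v1242 v1412 v4966 v4969 v4082 w714 v8020 w3429 w3428 w3427 v4204 w5407 v2712 v1243 v2845 v482 v4216 v4225 v4967 w4495 v4968 v3814 v9042 v5042 v9043 w5285 w5287 w5288 w5290 w5735 v7997 v8445 w2963 w2949 v9044 v2494 w7885 v3930 v2470 w4262 v4959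
theorem v9046 : PV l9046 := r9046 v2606 w1534 w7903 v743 v2550 w2957 w7949
theorem v9047 : PV l9047 := r9047 v8445 v6715 w7766
theorem v9048 : PV l9048 := r9048 v4270 v3556
theorem v9049 : PV l9049 := r9049 w5590 w5585 w5586 v9046 v9017 v8390 v2551 v2552 w2339 v9047 w2960 w2970 v3879 v4922 v9048
theorem v9050 : PV l9050 := r9050 v7190 v4602 w3429 w3427 v4082 w714 v4204 v4201 v9049 w5285 w5287 w5290 v8021
theorem v9051 : PV l9051 := r9051 v3234 v3235 v2379 v9047 w2960 w2970 v3879 v4922 v9048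
theorem v9052 : PV l9052 := r9052 w5590 w5585 w5586 v9043 v9051 v5893 w7885 v1446
theorem v9053 : PV l9053 := r9053 v5042 v3616 v3889 v3888
theorem v9054 : PV l9054 := r9054 v2622 v3108 v4821 w8186 w8235 v3574 w8230
theorem v9055 : PV l9055 := r9055 v3090 v3089 v4525 v5297 v5308 v8929 v8933 v6153 v476 v3935 v4624 v4666 v7190 v4082 w714 v3006 w4487 v3008 v425 v1218 v3829 v3832 v8935 v4209 w694 v4204 w4476 v473 v3934 v4590 v6263 v4602 w5407 v2554 v2712 v2846 v2848 v4664 w5167 v1243 v1242 v2845 v482 v4216 v4225 w5332 v3851 v1412 v4967 v4966 v1217 v4969 v4968 v2627 v6265 v2956 v2940 v4618 v3084 w2477 v9004 v3303 w1742 v3100 v4055 w4023 w3978 v4059 v4062 w6248 v3968 v6709 v8020 w1596 v4720 v5917 w3427 w3429 v9008 w4225 v9045 w3050 w3052 w8770 v9050 v2474 v2476 v2479 v9052 w5285 w5286 w5287 w5290 w5735 w5733 w5732 w5734 w5831 v7997 v8445 w3154 v2290 v2291 v2292 v9054 v3170 v3173 v617 w8267 w1468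
theorem v9056 : PV l9056 := r9056 v7190 v4082 w714 v4204 v4602 v3303 w1742 v3100 v4055 w4023 v4059 v4062 w6248 v6709 v8020 w1596 v2786 v5917 w3427 w3428 w3429 v9008 w3924 w4225 v9050 v2479 v9052 w5285 w5287 w5288 w5290 w5831 v7997 w3154 w2714 v9044 v3107 v8342 w8186 w8235
theorem v9057 : PV l9057 := r9057 v5034 v5297 v8929 v8933 v6153 v476 v3935 v4624 v2554 v2712 v2846 v2848 v3006 w4487 v5308 v3008 v425 v1218 v3829 v3832 v8935 v4664 w5167 v1243 v1242 v2845 v482 v4216 v4225 v473 v3934 v4590 w4476 v3851 v6263 v1412 v4967 v4966 v1217 w4495 v4969 v4968 v4666 v6265 v3089 w2555 w2569 v9055 w2740 w2442 v3814 v9056 v3308 v4060 v8986 v3989 w3895 v9004 w4105 v4045 v4995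
theorem v9058 : PV l9058 := r9058 w6174 w6106
theorem v9059 : PV l9059 := r9059 v8929 v5297 v8933 v3817 v3935 v6153 v476 v4624 v2846 v2848 v7703 v3006 w4487 v5308 v3008 v425 v1218 v3829 v3832 v8935 v4664 w5167 v1242 v2845 v482 v4216 v473 v3934 v4590 w4476 v3851 v6263 v5035 v4117 v4228 v9057 w2637 v9058 w5925 w5871
theorem v9060 : PV l9060 := r9060 v9028 v9035
theorem v9061 : PV l9061 := r9061 v5297 v8929 v8933 v3935 v6153 v476 v4624 v2846 v2848 v7703 v3006 w4487 v5308 v3008 v425 v1218 v3829 v3832 v8935 v4664 w5167 v1243 v473 v3934 v4590 w4476 v3851 v1412 v4967 v4969 v328 v4666 v6265 v3817 v9059 w26 v9060 w2637 v7838 v3287 w8753 w6187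
theorem v9062 : PV l9062 := r9062 v5297 v8929 v8933 v6153 v476 v3935 v4624 v4666 v7190 v4084 v2848 v3338 v7703 v3006 w4487 v5308 v3008 v425 v1218 v3829 v3832 v8935 v4130 v3113 v6253 w5364 w5513 v404 v8932 v8934 v2557 v5035 v4968 v3340 v3216 v2632 w4812 v2846 v4664 v2734 w5740 v8936 v4167 v3427 w5354 w4483 w4807 w5167 v1243 v1242 v2845 v482 v4216 v4225 w4476 v473 v3934 v4590 v6263 v1412 v4967 w4495 v4836 v8999 v3455 v2604 v3795 w9178 w3242 v9040 v9061 v3951 v9003 v9038 w2740 v8085 v3814 v3303 v7118 v9039 v4547 v3075 v4538 v4533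
theorem v9063 : PV l9063 := r9063 v7190 v4082 w714 v4204 v4525 v4602 v1412 v3303 w1742 v3100 v4055 v9056 w4023 w3978 v4059 v4062 w2564 w6110 v3968 v6709 v8020 w1596 v4719 v5917 w3427 w3428 w3429 v9008 w4225 v9050 v2479 v9052 w5285 w5287 w5288 w5290 w5831 v7997 w3154 w2714 v9044 v3107 v8342 w8186 w8235
theorem v9064 : PV l9064 := r9064 v5178 v1243 v1242 v1412 v4967 v4966 v3089 v3090 w2569 w2442 v9063 v3308 v3266 v4060 v9004 w6034 v2779 w2450 w2679 w4030 w3902 v1247 w6178 w6149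
theorem v9065 : PV l9065 := r9065 v9058 w5925 w5871
theorem v9066 : PV l9066 := r9066 v7703 v3008 v5297 v8929 v8933 v6153 v3006 v425 v1218 v2557 v476 v3935 v4624 v4666 v7190 v4084 w9178 w3240 v473 v3934 v4590 v5308 w4476 v3851 v6263 v2845 v2846 v2848 w4487 v3829 v3832 v8935 v4664 v482 v4216 w5167 v1242 v3817 v4228 v9065 w2637 v5035 v4119 v4117 v2554 v2712 v4225 v1217 w4495 v4969 v4968 v6265 v9061 w3104 v2913 w2798 v3814 w3206 v9064
theorem v9067 : PV l9067 := r9067 w3025 w2722 w8205 v4652 v3540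
theorem v9068 : PV l9068 := r9068 v5297 v5308 v8929 v8933 v6153 v3006 w4487 v476 v3935 v4624 v3008 v425 v1218 v3829 w2744 v473 v3934 v4590 w4476 v3851 v2956 v4208 w695 w699 v3832 v8935 v4260 v2477 v5178 v2846 v2848 v4664 w5167 v1242 v2845 v482 v4216 v6263 v1412 v4967 v1217 v4968 v6265 v9021 v2620 v2469 v5893 w4263 v9067 w2947 v2967 v8403 v2964 v3537
theorem v9069 : PV l9069 := r9069 v5297 v8929 v8933 v3935 v6153 v476 v4624 v2846 v2848 v3006 w4487 v5308 v3008 v425 v1218 v3829 v3832 v8935 v4664 w5332 v1412 v4967 v2627 v4209 w3052 w8770 v4208 v2269 w699 w5407 w5167 v1242 v2845 v482 v4216 w4476 v473 v3934 v4590 v6263 v6265 w5285 w5735 w5733 w5732 w5731 v9068 w3394 w3391 w3392 v743 v8403 w1476 w8087 w8084 w7997 v1104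
theorem v9070 : PV l9070 := r9070 v5297 v473 v476 w5302 w5299 w5298 v9068
theorem v9071 : PV l9071 := r9071 v5297 v8929 v8933 v6153 v3006 w4487 v476 v3935 v4624 v5308 v3008 v425 v1218 v3829 v3832 v8935 v4260 v4280 v2477 v2845 v2846 v2848 v4664 v482 v4225 w5167 v9070 w5141 v9016 v9017 v2606 v2607 v2463 v4473 v4475
theorem v9072 : PV l9072 := r9072 v5297 v5308 v8929 v4208 w699 v8933 v6153 v3006 w4487 v476 v3935 v4624 v3008 v425 v1218 v3829 v3832 v8935 v4260 v2477 v2712 v2554 w5407 v4666 v7190 v4082 w8866 w4476 v473 v3934 v4590 v6263 v4602 v2846 v2848 v4664 w5167 v1242 v2845 v482 v4216 v4623 v1412 v4966 v1217 v4969 v4968 v6265 w2744 v1247 v9069 w5590 w5588 w5589 v9020 v9071 v2982 w3394 v743 v2444 v3540 v5893 v3905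
theorem v9073 : PV l9073 := r9073 v2964 v4652
theorem v9074 : PV l9074 := r9074 v5297 v5308 v8929 v4208 w695 w699 v8933 v6153 v3006 w4487 v476 v3935 v4624 v3008 v425 v1218 v3829 v3832 v8935 v4260 v2477 v5178 w5407 v2846 v2848 v4664 w5167 v1242 v2845 v482 v4216 w4476 v473 v3934 v4590 v6263 v1412 v4967 v1217 v4968 w5285 w5735 w5732 w5731 v9021 v2620 v2469 v5893 w4263 v9073 v3540 v743 w8205
theorem v9075 : PV l9075 := r9075 v5297 v5308 v8929 v4208 w695 w699 v8933 v6153 v3006 w4487 v476 v3935 v4624 v3008 v425 v1218 v3829 v3832 v8935 v4260 v2477 v2712 v2554 w5407 v4666 v7190 v4082 w8866 w4476 v473 v3934 v4590 v6263 v4602 v2846 v2848 v4664 w5167 v1242 v2845 v482 v4216 v4623 v1412 v4966 v1217 v4969 v4968 v6265 v9074 w5590 w5588 v9020 v9007 v9017 v9016 w5141 w5310 w5312 v9009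
theorem v9076 : PV l9076 := r9076 w5735 w5732 w5833 v8403 v1105 w7998 w8086 w2293 w8089
theorem v9077 : PV l9077 := r9077 v1412 v4966 v3008 v3006 v425 v1217 v1218 v4969 v4968 v3934 v2981 w3393 w3394 w3391 w3417 v743 v2444 v3576 w1517 v9076 w5590 w5589 v9020 v5893 v3914
theorem v9078 : PV l9078 := r9078 v5297 v5308 v8929 v4208 w695 w699 v8933 v6153 v3006 w4487 v476 v3935 v4624 v3008 v425 v1218 v3829 v3832 v8935 v4260 v4280 v2477 v2712 v2554 w5407 v4666 v7190 v4082 w8866 w4476 v473 v3934 v4590 v6263 v2845 v2846 v2848 v4664 v482 v4216 w5167 v1242 v3817 v4228 v9065 w2670 v3040 v3851 w2637 v4525 v5178 v4602 v4623 v1412 v6265 v3303 v3100 v4055 w3969 v4059 v4062 v8855 v3972 v6709 v3320 w3924 v9008 w4225 v9077 v9075 w2740 v9072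
theorem v9079 : PV l9079 := r9079 v5034 v1242 v3308 v4060 v9004 w6034 w3895 w3947 v4045 v4995
theorem v9080 : PV l9080 := r9080 v5297 v7703 v8929 v8933 v6153 v3006 w4487 v476 v3935 v4624 v5308 v3008 v425 v1218 v3829 v3832 v8935 v4167 v2632 v3216 w4476 v473 v3934 v4590 v6263 w8965 v3455 v2604 v3761 v3795 v9066
theorem v9081 : PV l9081 := r9081 v8966 v8702
theorem v9082 : PV l9082 := r9082 v8929 v5297 v8933 v3817 v7703 v5178 v2632 v3935 v6153 v476 v4624 v2846 v2848 v3006 w4487 v5308 v3008 v425 v1218 v3829 v3832 v8935 v4664 w5167 v1242 v2845 v482 v4216 v473 v3934 v4590 w4476 v3851 v6263 v4968 v4127 v1412 v4228 v9065 w2636 w2637 w2644 v3039 v9079 v9081 v9080 w722 v9078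
theorem v9083 : PV l9083 := r9083 v5297 v8929 v8933 v3935 v6153 v476 v4624 v2846 v2848 v7703 v3006 w4487 v5308 v3008 v425 v1218 v3829 v3832 v8935 v4664 w5167 v1243 v473 v3934 v4590 w4476 v3851 v1412 v4967 v4969 v328 v4666 v6265 v3817 v9082 w26 v9060 w2637 v7838 v3287 w8753 w6187
theorem v9084 : PV l9084 := r9084 v3303 v4761 v5977 v5976
theorem v9085 : PV l9085 := r9085 v5034 v4763 v1412 v4967 v3006 v4968 v3089 v9084 v4995 v5028 w3952
theorem v9086 : PV l9086 := r9086 v3303 v4760 v5977 v5976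
theorem v9087 : PV l9087 := r9087 v4763 v5178 v3006 v4968 v5034 v4117 v9085 v9086 v3265 v9001 v5027 v2779 w3895 v5977 v5020 v5015 v5265
theorem v9088 : PV l9088 := r9088 v3303 v8945 v4550 v4548 v9039
theorem v9089 : PV l9089 := r9089 v5297 v8929 v8933 v3935 v476 v6153 v4624 v2848 v3338 v7703 v3006 w4487 v5308 v3008 v425 v1218 v3829 v3832 v8935 v4130 v3113 v6253 w5364 w5513 v5035 v4968 v3340 v404 v8932 v8934 v3216 v2632 w4812 v2846 v4664 v2734 w5740 v8936 v4167 v3427 w5354 w4483 w4807 w4816 w5167 v1243 v2845 v482 v4225 v473 v3934 v4590 w4476 v3851 v1412 v4666 v5394 w4452 v9062 v5178 v9083 v4763 v3951 v9087 w26 v8085 v3303 v3256 v9088 w2637 v8960 v4547 w3909 v2779 w3895 v4533 v3075 v5265 v3076 v6130 v5013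
theorem v9090 : PV l9090 := r9090 v5297 v8929 v8933 v6153 v3006 w4476 v473 v3934 v4590 v5308 v3008 v425 v1218 v6263 v476 v3935 v4624 v4666 v7190 v4602 v6265 v1217 v2846 v2848 w4487 v3829 v3832 v8935 v4664 w5167 v1242 v1412 v4966 v4969 v4082 w714 v8020 w3429 w3428 w3427 v4204 w5407 v1243 v2845 v482 v4225 v3851 v4968 w5285 w5287 w5288 w5290 w5735 w5731 v8021 v8445 v2473 v7997 w2952 w2963 v9044 v2620 v8174 v42 v1680 w8231
theorem v9091 : PV l9091 := r9091 v5042 v461 v464 v465 w5302 v3585 v3614 v3599 v57 v8000 w2972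
theorem v9092 : PV l9092 := r9092 v3234 v2464 v4928 v4931
theorem v9093 : PV l9093 := r9093 v2846 v8929 v5297 v8933 v6153 v3006 w4487 v476 v3935 v4624 v5308 v3008 v425 v1218 v3829 v3832 v8935 v4623 v2848 v1412 v4967 v4969 v4666 v2473 v9091 w5252 v9092 v2620 v4947 w7732 w2962
theorem v9094 : PV l9094 := r9094 v3100 v3303 v8929 v5297 v8933 v2712 v6153 v476 v3935 v4624 v2554 w5407 v3008 v3006 v425 v1218 v5308 v4666 v7190 v4082 w8866 w4476 v473 v3934 v4590 v6263 v2845 v2846 v2848 w4487 v3829 v3832 v8935 v4664 v482 v4216 w5167 v1242 v3817 v4228 v9065 w2670 v3040 v3851 w2644 w2637 v4525 v4602 v1412 v4966 v1217 w4495 v4969 v6265 w3969 v4059 v4062 v8855 v3972 v6709 v1246 v3320 v6293 v2786 w3924 v5917 w2735 w2736 v9008 v3814 w4225 v9018 v4204 w714 v8020 w3427 w3428 v9090 w5590 w5586 w5588 v8390 v2606 v2607 v2608 w1534 v9093 v4201 v743 w2966 w2964 v4947 w7949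
theorem v9095 : PV l9095 := r9095 v5297 v473 v8929 v8933 v3934 v6153 v4590 v5308 v3006 w4476 v3008 v425 v1218 v3851 v6263 v2845 v3935 v476 v4624 v2846 v2848 w4487 v3829 v3832 v8935 v4664 v482 v4216 w5167 v1242 v3817 v4228 v9065 w2644 w2637 v1217 v9094 v4055 v6293 v5956 w3866 w3872
theorem v9096 : PV l9096 := r9096 v9079 v8986
theorem v9097 : PV l9097 := r9097 v8929 v5297 v8933 v3817 v3935 v6153 v476 v4624 v2846 v2848 v3006 w4487 v5308 v3008 v425 v1218 v3829 v3832 v8935 v4664 w5167 v1242 v2845 v482 v4216 v473 v3934 v4590 w4476 v3851 v6263 v4968 v1412 v4228 v9065 w2636 w2637 v3039 v9095 v9096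
theorem v9098 : PV l9098 := r9098 v7908 v4073 w3938 v5847 v4005
theorem v9099 : PV l9099 := r9099 w2488 v9098 v3308 v8991 v7117 v4618 v2793
theorem v9100 : PV l9100 := r9100 v5297 v8929 v8933 v3935 v6153 v476 v4624 v2846 v2848 v3006 w4487 v5308 v3008 v425 v1218 v3829 v3832 v8935 v4664 w5167 v1243 v473 v3934 v4590 w4476 v3851 v1412 v4967 v328 v4666 v6265 v2845 v5394 v3817 v9097 w26 v9099 w2637 v8870 v3287 w8753 w6187
theorem v9101 : PV l9101 := r9101 v9038 v9002
theorem v9102 : PV l9102 := r9102 v3303 v4967 v9088 v4550 v4618 v4548 v9039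
theorem v9103 : PV l9103 := r9103 v9003 v8977
theorem v9104 : PV l9104 := r9104 v5297 v7703 v8929 v8933 v6153 v3006 w4487 v476 v3935 v4624 v5308 v3008 v425 v1218 v3829 v3832 v8935 v4130 v8934 v2846 v2848 v4664 w5167 v1243 v1242 v2845 v482 v4216 v4225 v473 v3934 v4590 w4476 v3851 v1412 v4967 v1217 w4495 v4968 v5035 v4666 v5394 w4452 v4836 v9100 v3951 v9101 w26 v8085 v3303 v3256 v9102 w2637 v8960 v4547 v9103 w2740 v3075 v3814 v4533 v8995 v4538
theorem v9105 : PV l9105 := r9105 v5297 v8929 v8933 v6153 v3006 w4495 v5308 v3814 v5178 v476 v3935 v4624 v4666 v7190 v4082 w4476 v473 v3934 v4590 v3008 v425 v1218 v6263 v4602 v2712 v2846 v2848 w4487 v3829 v3832 v8935 v4664 w5167 v1242 v2845 v482 v4216 v1412 v4966 v1217 v4969 v6265 v4204 w714 v9090 v8020 w5585 w5586 w5588 v8390 w3427 w3428 v2606 v2607 v2608 w1534 v9093 v4201 v743 w2972 v4921 v4916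
theorem v9106 : PV l9106 := r9106 v8929 v5297 v8933 v3817 v7703 v5178 v2712 v6153 v476 v3935 v4624 v2554 w5407 v3008 v3006 v425 v1218 v5308 v4666 v7190 v4082 w8866 v2846 v2848 w4487 v3829 v3832 v8935 v4664 w5167 v1242 v2845 v482 v4216 v473 v3934 v4590 w4476 v3851 v6263 v4968 v4127 v1412 v4525 v4228 v9065 w2636 w2637 w2644 v3039 v3040 w2670 v9096 v3303 v3100 v9081 v4055 w3969 v4059 v4062 v8855 v3972 v6709 v1246 v3320 w3924 v5917 w2735 w2736 v9008 w4225 v9105 w722 v9078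
theorem v9107 : PV l9107 := r9107 v5297 v8929 v8933 v3935 v6153 v476 v4624 v2846 v2848 v7703 v3006 w4487 v5308 v3008 v425 v1218 v3829 v3832 v8935 v4664 w5167 v1243 v1242 w4476 v473 v3934 v4590 v6263 v1412 v4967 v328 v4666 v6265 v2845 v5394 v9106 v9099 v8870 v702 v1085 w6547
theorem v9108 : PV l9108 := r9108 v5297 v8929 v8933 v3935 v476 v6153 v4624 v2848 v3338 v7703 v3006 w4487 v5308 v3008 v425 v1218 v3829 v3832 v8935 v4130 v3113 v6253 w5364 v5035 v4968 v3340 v404 v8932 v8934 v3216 v2632 w4812 v2846 v4664 v2734 w5740 v8936 v4167 v3427 w5167 v1243 v2845 v482 v4225 v473 v3934 v4590 w4476 v3851 v1217 v1412 v4666 v5394 w4452 w5513 v9089 v9104 v5178 v9107 v4763 v3951 v9087 w26 v8085 v3303 v3304 v3256 v9102 w2637 v8960 v4547 w3909 w3895 v5982 v3075 v5265 v3076 v6130 v5013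
theorem v9109 : PV l9109 := r9109 w4575 v7977 w6689 v2578 w6544 v2586
theorem v9110 : PV l9110 := r9110 v5297 v8929 v8933 v6153 v3006 w4476 v473 v3934 v4590 v5308 v3008 v425 v1218 v6263 v476 v3935 v4624 v4666 v7190 v4602 w3429 w3427 v4082 w714 v4204 w5407 v2846 v2848 w4487 v3829 v3832 v8935 v4664 w5167 v1243 v2845 v482 v4225 v4968 v6265 w5285 w5286 w5287 w5290 w5735 w5732 w5831 v8021 v8445 v2474 v2479 w2963 w3704 v2292 v9053 v9054
theorem v9111 : PV l9111 := r9111 v5297 v8929 v8933 v6153 v3006 w4476 v473 v3934 v4590 v5308 v3008 v425 v1218 v6263 v476 v3935 v4624 v4666 v7190 v4602 w3429 v4082 w714 v4204 v2846 v2848 w4487 v3829 v3832 v8935 v4664 w5167 v1242 v3851 v1412 v4966 v6265 v9110 w5585 w5586 v9051 v2550 v9017 w7903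
theorem v9112 : PV l9112 := r9112 v5297 v8929 v8933 v6153 v3006 w4476 v473 v3934 v4590 v5308 v3008 v425 v1218 v6263 v476 v3935 v4624 v4666 v7190 v4602 v6265 v1217 v2846 v2848 w4487 v3829 v3832 v8935 v4664 w5167 v1242 v1412 v4966 v4969 v4082 w714 v8020 w3429 w3428 w3427 v4204 w5407 v1243 v2845 v482 v4225 v4968 w5285 w5286 w5287 w5288 w5290 w5735 w5732 w5831 v8021 v8445 v2474 v2479 v7997 w2963 w3704 v2292 v9044 v9054 v2494 v3616 v3930
theorem v9113 : PV l9113 := r9113 v5297 v5308 v8929 v8933 v6153 v476 v3935 v4624 v4666 v328 v3006 v2848 v1412 v4966 v4967 v9109 v7190 v4082 v2846 w4487 v3008 v425 v1218 v3829 v3832 v8935 v4664 w5167 v1242 v1217 v4969 v6265 v4204 w714 v8020 v9111 v9112 w5590 v9043 v8390 v2606 w7903 v2550 w7777 w7949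
theorem v9114 : PV l9114 := r9114 v2859 v4290 v3608
theorem v9115 : PV l9115 := r9115 v2859 v9114 v3583 v2860
theorem v9116 : PV l9116 := r9116 v3234 v2463 v3608 v3890 v3912 v3892 w2721 w7740
theorem v9117 : PV l9117 := r9117 v2381 v2382 v2379 v4580 v2450 v2451 v2448 v1091 w8287 w8127 v745
theorem v9118 : PV l9118 := r9118 v5297 v5308 v8929 v4208 w695 w699 v8933 v6153 v3006 w4487 v476 v3935 v4624 v3008 v425 v1218 v3829 v3832 v8935 v4260 v2477 v2848 v1412 v4967 w2740 v4618 w2744 w4495 v3811 w5407 v2846 v4664 w5167 v1242 w4476 v473 v3934 v4590 v6263 v1217 v4968 w5285 w5735 w5732 w5731 v9117 v2620 v2469 v7987 v5893 v9067 w4263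
theorem v9119 : PV l9119 := r9119 w5299 w5298 v9117 v2469 v5893
theorem v9120 : PV l9120 := r9120 v5297 v5308 v8929 v4208 w695 w699 v4280 v2477 v8933 v6153 v3006 w4487 v476 v3935 v4624 v3008 v425 v1218 v3829 w2744 w4495 v3811 v2846 v2848 v3832 v8935 v4664 w5167 v1242 v2845 v482 v4216 v4623 w4476 v473 v3934 v4590 v6263 v1217 v4968 v9118 w5590 w5587 w5589 v9119 w5252 w5139 v9116 v2620 v5751 v737 w7708 v3930 w2959 v4475
theorem v9121 : PV l9121 := r9121 w5285 w5287 v8007 v2606 v2608 v2467 v5689 v3595 v4452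
theorem v9122 : PV l9122 := r9122 v4525 v8929 v5297 v8933 v3935 v476 v6153 v4624 v2848 v1412 v4967 v5308 v3006 w4487 v3008 v425 v1218 v3829 w2740 v4618 v2940 v2712 v2554 v328 v4966 v9109 w5407 v4666 v7190 v4082 w8866 w3113 w3050 w2744 w4495 v3811 v3813 w4476 v473 v3934 v4590 v6263 v4602 v2846 v3832 v8935 v4664 w5167 v1242 v2845 v482 v4216 v4225 v1217 v4969 v4968 v6265 v4208 v3089 w2461 v3084 w2477 w2569 v9004 v3303 v3100 v4031 v6293 w3924 v5917 v4055 v4011 w3907 w947 v1247 v9008 w4225 v9113 v2477 v4280 v4260 w699 v9120 v2980 v2982 v2985 w3394 w3427 v8020 v9121 w5588 v5728 v2550 w2335 v657 v1091 w7752 v3540 v3905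
theorem v9123 : PV l9123 := r9123 v5297 v5308 v8929 v8933 v6153 v3006 w4487 v476 v3935 v4624 v3008 v425 v1218 v3829 w4495 v3810 w2744 v2846 v2848 v3832 v8935 v4664 w5167 v1242 v2845 v482 v4225 w4476 v473 v3934 v4590 v6263 v9122 v5806 w2444 v3308 v1073
theorem v9124 : PV l9124 := r9124 v5297 v5308 v8929 v8933 v7703 v6153 v3006 w4487 v476 v3935 v4624 v3008 v425 v1218 v3829 w4495 v3810 w2740 w2744 v2848 v3338 v3832 v8935 v4130 v3113 v6253 w5364 v328 v1412 v4966 v4967 v9109 w5513 v5035 v4968 v3340 v8934 v3216 v2632 w4812 v2846 v4664 v2734 w5740 v8936 v4167 w5167 v1243 v1242 v2845 v482 v4216 v4225 w4476 v473 v3934 v4590 v6263 v1217 v4969 v4666 v6265 v4836 w3196 v9103 v9123 v9060 v7838 w2444 v1085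
theorem v9125 : PV l9125 := r9125 v8686 v4028
theorem v9126 : PV l9126 := r9126 v5034 v8929 v5297 v8933 v3935 v476 v6153 v4624 v2848 v1412 v4967 v4618 v5308 v3006 w4487 v3008 v425 v1218 v3829 v2940 v2846 v3832 v8935 v4664 w5167 v1242 v2845 v482 v4216 w4476 v473 v3934 v4590 v6263 v1217 v4969 w3924 v2777 v9125 v3099 v5678 v5917 v3076 w2571 v9113 v4019 w4225 v3320 v5738 w5962
theorem v9127 : PV l9127 := r9127 w2544 v4031 w6312 v3260
theorem v9128 : PV l9128 := r9128 w4014 v9127 w2650 v8686 w6107 w1727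
theorem v9129 : PV l9129 := r9129 v5297 v5308 v8929 v4208 w695 w699 v8933 v6153 v3006 w4487 v476 v3935 v4624 v3008 v425 v1218 v3829 v3832 v8935 v4260 v2477 v2848 v1412 v4967 w4495 v3810 w2740 v4618 w2744 v3811 w5407 v2846 v4664 w5167 v1242 w4476 v473 v3934 v4590 v6263 v1217 v4968 w5285 w5735 w5732 w5731 v9119 v9117 w4263 v2620 v9073 v9067 v4468 v2967
theorem v9130 : PV l9130 := r9130 v5297 v5308 v8929 v4208 w695 w699 v4280 v2477 v8933 v6153 v3006 w4487 v476 v3935 v4624 v3008 v425 v1218 v3829 w4495 v3810 w2744 v3811 v2846 v2848 v3832 v8935 v4664 w5167 v1242 v2845 v482 v4216 v4623 w4476 v473 v3934 v4590 v6263 v1217 v4968 v9129 w5590 w5587 w5589 v9119 w5252 w5139 v9116 v2620 v5751 v737 w7708 v3930 w2959 v4475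
theorem v9131 : PV l9131 := r9131 w5287 w5733 v6912 v2625 v3595 v4815
theorem v9132 : PV l9132 := r9132 v8929 v5297 v8933 v3821 v3935 v476 v6153 v4624 v2848 v1412 v4967 v5308 v3006 w4487 v3008 v425 v1218 v3829 w4495 v3810 w2740 v4618 v2712 v2554 v328 v4966 v9109 w5407 v4666 v7190 v4082 w8866 w3113 w3050 w2744 v3811 v3813 w4476 v473 v3934 v4590 v6263 v4602 v3832 v8935 v4167 v2846 v4664 w5167 v1242 v2845 v482 v4216 v4225 w5332 v4209 v3851 v1217 v4969 v4968 v2627 v6265 v4208 v5034 v4525 v4233 v9128 w3924 v2777 v9125 w1727 v3099 v5678 v5917 v4027 w2507 w2544 v3076 w2571 w8721 w5979 v4019 w3790 w4179 v3320 v4986 v9126 v9008 v5806 v4055 v2477 v4260 w699 v2269 w4225 w3907 v1247 v9130 v2982 w3394 w3391 w3427 v8020 v9131 w5588 v5728 v2550 w2335 v657 v1091 w7752 v3540 v3905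
theorem v9133 : PV l9133 := r9133 v5297 v5308 v8929 v8933 v6153 v3006 w4487 v476 v3935 v4624 v3008 v425 v1218 v3829 w4495 v3810 w2744 v2846 v2848 v3832 v8935 v4664 w5167 v1243 v1242 w4476 v473 v3934 v4590 v6263 v1412 v4967 v4969 v328 v4666 v6265 v9132 v9060 v7838 w2444 v1085
theorem v9134 : PV l9134 := r9134 v7703 v8929 v5297 v8933 v3935 v476 v6153 v4624 v2848 v1412 v4967 v5308 v3006 w4487 v3008 v425 v1218 v3829 w4495 v3810 w2740 v4618 v3813 v3338 v3832 v8935 v4130 v3113 v6253 w5364 v328 v4966 v9109 w5513 v5035 v4968 v3340 v8934 v3216 v2632 w4812 v2846 v4664 v2734 w5740 v8936 w5167 v1243 v2845 v482 v4225 v473 v3934 v4590 w4476 v3851 v1217 v4666 v5394 w4452 v9124 v9133 v3951 v9087 w26 v8085 v3303 v3304 v3256 v9102 w2637 v8960 v2779 v5982 v4539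
theorem v9135 : PV l9135 := r9135 v8929 v5297 v8933 v3821 v3935 v476 v6153 v4624 v2848 v1412 v4967 v5308 v3006 w4487 v3008 v425 v1218 v3829 w4495 v3810 w2740 v4618 v3811 v2846 v3832 v8935 v4664 w5167 v1242 v2845 v482 v4216 v473 v3934 v4590 w4476 v3851 v6263 v1217 v4969 v4968 v5034 v4233 v9128 v2777 v9125 w3911 w1727 v5678 v4027 w2500 w2544 v3076 w5979 v4019 w4177 v5849 v4995
theorem v9136 : PV l9136 := r9136 v5297 v5308 v8929 v8933 v6153 v3006 w4487 v476 v3935 v4624 v3008 v425 v1218 v3829 w4495 v3810 w2744 v1246 v2846 v2848 v3832 v8935 v4664 w5167 v1243 v1242 w4476 v473 v3934 v4590 v6263 v1412 v4967 v328 v4666 v6265 v2845 v5394 v9135 v9099 v8870 w2444 v1085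
theorem v9137 : PV l9137 := r9137 v5297 v8929 v8933 v3935 v476 v6153 v4624 v2848 v3338 v7703 v3006 w4487 v5308 v3008 v425 v1218 v3829 v3832 v8935 v4130 v3113 v6253 w5364 v5035 v4968 v3340 v404 v8932 v8934 v3216 v2632 w4812 v2846 v4664 v2734 w5740 v8936 v4167 v3427 w5167 v1243 v2845 v482 v4216 v4225 v473 v3934 v4590 w4476 v3851 v1412 v4967 v4966 v1217 w4495 v328 v4666 v5394 w4452 v9109 v9108 v3810 v3813 w2744 w2740 v9134 v4875 v1246 w2789 v9136 v3951 v9103 v9087 w26 v8085 v3303 v3304 v3256 v9102 w2637 w2444 v8960 w5897 w3891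
theorem v9138 : PV l9138 := r9138 v5662 v4610
theorem v9139 : PV l9139 := r9139 v7703 v5297 v8929 v8933 v6153 v3006 v4968 v3008 v425 v1218 v3935 v476 v4624 v2846 v2848 w4487 v5308 v3829 v3832 v8935 v4664 w5167 v473 v3934 v4590 w4476 v3851 v6263 v2845 v482 v4216 v1242 v4228 v3817 v9065 w2637 v3039 v1412 w2636 v9096 v3338 v4130 v3113 v6253 w5364 w5513 v9137 v2713 v5035 v3340 v404 v8932 v8934 v3216 v2632 w4812 v2734 w5740 v8936 v4167 v3427 w5354 v8999 v3455 v4055 v2604 v4059 v9138 v2571 v5670 w9147 w8988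
theorem v9140 : PV l9140 := r9140 v4608 v4610
theorem v9141 : PV l9141 := r9141 v5297 v5308 v4228 v8929 v8933 v3817 v3935 v476 v6153 v4624 v2848 v3338 v7703 v3006 w4487 v3008 v425 v1218 v3829 v3832 v8935 v4130 v3113 v6253 w5364 w5513 v9137 v2713 v5035 v4968 v3340 v404 v8932 v8934 v3216 v2632 w4812 v2846 v4664 v2734 w5740 v8936 v4167 w5354 w5167 v1242 v2845 v482 v4216 v473 v3934 v4590 w4476 v3851 v6263 v1412 v9065 w2636 w2637 w2644 v3039 v9096 v9139 v5178 v9081 v3455 v4055 v2604 v4059 v9140 v2571 v5670 w9147 w8988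
theorem v9142 : PV l9142 := r9142 w4225 v5713 w124 w6436 w6768
theorem v9143 : PV l9143 := r9143 v8929 v5297 v8933 v3821 v9137 v3935 v6153 v476 v4624 v2846 v2848 v7703 v3006 w4487 v5308 v3008 v425 v1218 v3829 v3832 v8935 v4664 w5167 v1242 v2845 v482 v4216 v4225 v473 v3934 v4590 w4476 v3851 v6263 v1412 v4967 v1217 w4495 v4969 v4968 v328 v6265 v5034 v4525 v4233 v9141 v3810 v9135 v3811 w2744 w2740 v9128 v1247 v4618 w3924 v2777 v9125 w1727 v5678 w2497 w2544 v3076 v6293 w5979 v4019 w4174 v3320 v3998 v3282 v1073 w6034 v9142 w4035 v8362 v8110 v8094 w6732 w6477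
theorem v9144 : PV l9144 := r9144 v5297 v8929 v8933 v3935 v6153 v476 v4624 v2846 v2848 v7703 v3006 w4487 v5308 v3008 v425 v1218 v3829 v3832 v8935 v4664 w5167 v1243 v473 v3934 v4590 w4476 v3851 v1412 v4967 v4969 v328 v4666 v6265 v3817 v9143 w26 v9060 w2637 v7838 v3287 w8753 w6187
theorem v9145 : PV l9145 := r9145 v3951 v1412 v4967 v3008 v3006 v425 v1218 v4968 v9087 v4836 v9101
theorem v9146 : PV l9146 := r9146 v2568 v5670 w8549 w8822
theorem v9147 : PV l9147 := r9147 v9137 v2548 v5297 v8929 v8933 v3935 v476 v6153 v4624 v2848 v3338 v7703 v3006 w4487 v5308 v3008 v425 v1218 v3829 v3832 v8935 v4130 v3113 v6253 w5364 v5035 v4968 v3340 v404 v8932 v8934 v3216 v2632 w4812 v2846 v4664 v2734 w5740 v8936 v4167 v3427 v2712 w5167 v1243 v1242 v2845 v482 v4216 v4225 v473 v3934 v4590 w4476 v3851 v1412 v4666 v5394 w4452 w5407 v9144 v9145 w26 v8085 v3303 v3256 v9102 w2637 v8960 v4554 v9146 v4082 v4610 v9140 w8662 v2543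
theorem v9148 : PV l9148 := r9148 v9137 v8929 v5297 v8933 v2845 v5308 v3935 v6153 v476 v4624 v2846 v2848 v7703 v3006 w4487 v3008 v425 v1218 v3829 v3832 v8935 v4664 v482 v4216 v4225 v1217 v4969 v9147 w4575 v5525 v5665 v7491 w6768
theorem v9149 : PV l9149 := r9149 v1242 v1412 v4228 v9065 w2636 w2637 w2644 v3039 v9096 v4059 v4055 v6293 v5956 w3866 w3872
theorem v9150 : PV l9150 := r9150 v8929 v5297 v8933 v6153 v2712 v2548 w5407 v9146 v3935 v476 v4624 v2846 v2848 v3006 w4487 v5308 v3008 v425 v1218 v3829 v3832 v8935 v4664 w5167 v1243 v2845 v482 v4216 v473 v3934 v4590 w4476 v3851 v6263 v1412 v4967 v1217 v4968 v328 v4666 v6265 v5394 v3817 v9136 v9140 v9149 w26 v9099 w2637 v8870 v3287 w8753 w6187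
theorem v9151 : PV l9151 := r9151 v2548 v8929 v5297 v8933 v2712 v7703 v6153 v3006 w4487 v476 v3935 v4624 v5308 v3008 v425 v1218 v3829 v3832 v8935 v4130 v8934 v2846 v2848 v4664 w5167 v1243 v1242 v2845 v482 v4216 v4225 v473 v3934 v4590 w4476 v3851 v4968 v5035 v1412 v4666 v5394 w4452 w5407 v9146 v4082 v9150 v9145 w26 v8085 v3303 v3256 v9102 w2637 v8960 v4554 v4610 v9140 v2543 w8662
theorem v9152 : PV l9152 := r9152 v7490 w6768
theorem v9153 : PV l9153 := r9153 v1242 v1412 v4228 v9149 v4086 v9065 w2636 w2637 w2644 v3039 w2670 v9096 v7963 v3303 v6293 v4031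
theorem v9154 : PV l9154 := r9154 v5297 v8929 v8933 v3935 v6153 v476 v4624 v2846 v2848 v3006 w4487 v5308 v3008 v425 v1218 v3829 v3832 v8935 v4664 w5167 v1243 v2845 v482 v4216 v473 v3934 v4590 w4476 v3851 v6263 v1412 v4967 v1217 v4968 v328 v4666 v6265 v5394 v3817 v9136 v9153 w26 v9099 w2637 v8870 v3287 w8753 w6187
theorem v9155 : PV l9155 := r9155 w5897 w6423
theorem v9156 : PV l9156 := r9156 v3304 v9155 v5267 v4533 v4538
theorem v9157 : PV l9157 := r9157 w2460 v5267 v1246 w5897 w3891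
theorem v9158 : PV l9158 := r9158 v5297 v7703 v8929 v8933 v6153 v3006 w4487 v476 v3935 v4624 v5308 v3008 v425 v1218 v3829 v3832 v8935 v5035 v4968 v3340 v4130 v2848 v4834 v8934 v3216 v2632 v3113 v3338 v6253 w4812 v2846 v4664 v2734 w5740 v8936 v4167 w5364 v2712 w5167 v1243 v1242 v2845 v482 v4216 v4225 v473 v3934 v4590 w4476 v3851 v1412 v4967 v1217 v4969 v4666 v5394 w4452 v2820 v3427 v9137 v9148 v2548 v9151 w4575 w5727 v5525 v9152 v2568 v2591 w8531 v9154 v4007 v9145 w26 v8085 v3303 v3304 v3256 v9102 w2637 v8960 v4547 v9156 v9157 v5982 v4533 v8842 v4836 v8954 v2779 v2781 w2472 v4529 v5011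
theorem v9159 : PV l9159 := r9159 v2557 v7190 v4602 v4084 w3582 w9178
theorem v9160 : PV l9160 := r9160 v8929 v5297 v8933 v2712 v7703 v6153 v3006 w4476 v473 v3934 v4590 v5308 v3008 v425 v1218 v6263 v476 v3935 v4624 v4666 w5407 w5513 v9159 v2713 v2548 v9146 v4084 v4082 v8367 v2543 v4608 w8662
theorem v9161 : PV l9161 := r9161 v5297 v8929 v8933 v6153 v476 v3935 v4624 v3113 v2845 v5308 v2846 v2848 v7703 v3006 w4487 v3008 v425 v1218 v3829 v3832 v8935 v4664 v482 v4216 v4225 v2734 v4130 v1412 v4967 v4966 v1217 v4969 v4968 v4129 v328 v5035 v3338 v3340 v3342 v4834 v6253 v8934 w5364 w4812 w5354 w5740 v3216 v2630 v2632 v8936 v4167 v9158 w3540 v3452 w8836 v2604 w5487 v9160 w5824 w4575 v9109 v2713 v5525 v9152 v2571 v7766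
theorem v9162 : PV l9162 := r9162 v7703 v4967 v5035 v2820 v2821 v4149 v4113 w4569 v4143 w5490 v5166 v3729 w3196 w8777 w8803
theorem v9163 : PV l9163 := r9163 w4569 w4523 v3729 v3784 v3785
theorem v9164 : PV l9164 := r9164 v8929 v5297 v8933 v2845 v5308 v3935 v6153 v476 v4624 v2846 v2848 v7703 v3006 w4487 v3008 v425 v1218 v3829 v3832 v8935 v4664 v482 v4216 v4225 v3029 v4127 v4129 v5035 v1412 v473 v3934 v4590 v3111 v9161 v3929 v9162 v2995 v2996 v2998 v3000 w3540 v9163 v4149 w5380 v4141 v641 v3725 w8464 v3126 v3759 v3749 v7692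
theorem v9165 : PV l9165 := r9165 v8929 v5297 v8933 v3342 v3341 v3335 v2637 v2633 v3213 v7703 v6153 v3006 w4487 v476 v3935 v4624 v5308 v3008 v425 v1218 v3829 v3832 v8935 v4132 v473 v3934 v4590 w4476 v3851 v4968 v4127 v4129 v5035 v2820 v2821 v8932 v5131 v3352 v3376 w5390 v3347 w5380 w8548 v671 w3180 w3823 v2252 v4849 w8544 w4824
theorem v9166 : PV l9166 := r9166 v2633 v7703 v5297 v8929 v8933 v6153 v3006 v4968 v4127 v5035 v2845 v5394 w4452 v3335 v9165 v3000 w3538 v4839 w8548 w4818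
theorem v9167 : PV l9167 := r9167 v9060 w2637 v7838 v3287 w8753 w6187
theorem v9168 : PV l9168 := r9168 v3929 v7703 v3008 v425 v1218 v429 v5035 w4550 w4540 v3749 v3761 w3232 v2912
theorem v9169 : PV l9169 := r9169 v7703 v3006 w3197 w3198 v9168 w5363 w5364 w5366 w8575 w8547 v39 w1552 w8544 w8770 w3777
theorem v9170 : PV l9170 := r9170 v5297 v8929 v8933 v3935 v6153 v476 v4624 v2846 v2848 v7703 v3006 w4487 v5308 v3008 v425 v1218 v3829 v3832 v8935 v4664 w5167 v1242 w5332 v4209 v4130 v4132 w4476 v473 v3934 v4590 v6263 v1412 v4967 v4128 v5035 v2627 v3213 v2634 v2636 v2637 v9166 v9169 v3728 v3724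
theorem v9171 : PV l9171 := r9171 v4084 v2617 v6707 v2545 w9076
theorem v9172 : PV l9172 := r9172 v2557 v9171 v2571 w9167 w8968
theorem v9173 : PV l9173 := r9173 v5297 v5308 v4204 v8929 v8933 v6153 v3006 w4487 v476 v3935 v4624 v3008 v425 v1218 v3829 w2740 v2940 v473 v3934 v4590 w4476 v3851 v2956 w3050 w5407 v2846 v2848 v3832 v8935 v4664 w5167 v1243 v2845 v482 v4225 v4968 v4666 v6265 w5285 w5286 w5287 w5288 w5290 w5735 w5732 w5831 v8341 v8445 v2474 v2479 w2963 w2947 w3704 v2292 v9044 v9054 v2494 v3616 v3930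
theorem v9174 : PV l9174 := r9174 v5297 v8929 v8933 v3935 v6153 v476 v4624 v2846 v2848 v3006 w4487 v5308 v3008 v425 v1218 v3829 v3832 v8935 v4664 w5167 v1242 v1412 v4966 v1217 v4969 v4666 v6265 w714 v8020 w3427 w3428 v9173 v8390 w7903 w7985
theorem v9175 : PV l9175 := r9175 v2381 v2382 v2379 v735 v732 w8498 v1105 v745 w8268
theorem v9176 : PV l9176 := r9176 v5297 v5308 v4204 w5407 v8929 v8933 v3935 v6153 v476 v4624 v2846 v2848 v3006 w4487 v3008 v425 v1218 v3829 v3832 v8935 v4664 w5167 v1243 v2845 v482 v4225 v4969 v4968 v473 v3934 v4590 v4666 v6265 w5285 w5286 w5287 w5290 w5735 w5732 w5731 v8341 v8445 v5042 v2473 v2474 v9175 v2620 v2494 v42 v3930 v7291 v2470 w2968 v3616 v4940 w4264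
theorem v9177 : PV l9177 := r9177 v5297 v8929 v8933 v3935 v6153 v476 v4624 v2846 v2848 v3006 w4487 v5308 v3008 v425 v1218 v3829 v3832 v8935 v4664 w5167 v1242 v1412 v4966 v1217 v4969 v4666 v6265 w714 v8020 w3427 v9176 v8390 w7903 w7985
theorem v9178 : PV l9178 := r9178 v466 v3234 v3235 v2379 v9116 v3608 v4629 w2735 v3890 v3872 v3874 w2963 v1509
theorem v9179 : PV l9179 := r9179 v5297 v5308 v8929 v4208 w695 w699 v8933 v6153 v3006 w4487 v476 v3935 v4624 v3008 v425 v1218 v3829 v3832 v8935 v4260 v4280 v2477 v2846 v2848 v4664 w5167 v1242 v2845 v482 v4216 v4623 v473 v3934 v4590 w4476 v3851 v6263 v1217 v4968 v9015 v9119 v466 w5255 v9115 w5256 v9178 v2620 v5751 v737 w7708 v3930 w2968 v3608 v4461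
theorem v9180 : PV l9180 := r9180 v5297 v5308 v4204 v8929 v8933 v6153 v3006 w4487 v476 v3935 v4624 v3008 v425 v1218 v3829 w2740 v2940 w3050 w5407 v2846 v2848 v3832 v8935 v4664 w5167 v1243 v2845 v482 v4225 v4968 v4666 v6265 w5286 w5287 w5290 w5735 w5732 w5831 v8341 v8445 v2474 v2479 w3704 w2963 v2292 v9053 v9054
theorem v9181 : PV l9181 := r9181 v5297 v8929 v8933 v3935 v6153 v476 v4624 v2846 v2848 v3006 w4487 v5308 v3008 v425 v1218 v3829 v3832 v8935 v4664 w5167 v1242 v473 v3934 v4590 w4476 v3851 v1412 v4966 v1217 v4969 v4666 v6265 v4204 w714 v9174 v8020 w3427 w3429 v9180 w5590 w5585 w5586 v9051 v5893 v2613 w7903 w7985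
theorem v9182 : PV l9182 := r9182 v5297 v8929 v8933 v3935 v6153 v476 v4624 v2846 v2848 v3006 w4487 v5308 v3008 v425 v1218 v3829 v3832 v8935 v4664 w5167 v1242 v2845 v482 v4216 w4476 v473 v3934 v4590 v6263 v1217 v4208 w2744 v1247 v9181 v2477 v4260 w699 v9023 v9120 w5590 w5588 v2980 v2982 w3394 v743 v2444 v3540 v5667 w7740 v3905
theorem v9183 : PV l9183 := r9183 v5297 v8929 v8933 v3935 v6153 v476 v4624 v2846 v2848 v3006 w4487 v5308 v3008 v425 v1218 v3829 v3832 v8935 v4664 w5167 v1242 v2845 v482 v4216 w4476 v473 v3934 v4590 v6263 v1217 w4495 v4208 v9182 v3814 v9177 v2477 v4260 w699 v9012 w5590 w5585 w5587 w5588 w5589 v9179 v2980 v2982 w3394 v743 v2444 v3540 v5667 w7740 v3905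
theorem v9184 : PV l9184 := r9184 w6055 w6064
theorem v9185 : PV l9185 := r9185 v8174 v2494 v2470
theorem v9186 : PV l9186 := r9186 w5285 w5287 w5290 w5735 w5732 w5731 v8341 v8445 v2473 v2474 w2952 v9175 v9185
theorem v9187 : PV l9187 := r9187 v4204 w714 v8020 w3427 v9186 w5590 w5588 v8390 w7985 v2564 w2301 v5893 v1071 v3931 v4947 w2952 v8445 w7729
theorem v9188 : PV l9188 := r9188 v5297 v8929 v8933 v3935 v476 v6153 v4624 v2848 v9170 v3113 v7703 v3006 w4487 v5308 v3008 v425 v1218 v3829 v3832 v8935 v4130 v3338 v6253 w5364 v5035 v4968 v4834 v8934 v2632 v3216 w4812 v3340 v2846 v4664 v2734 w5740 v8936 v4167 v3427 v2820 v9164 v2615 w5167 v1243 v1242 v2845 v482 v4216 v4225 v473 v3934 v4590 w4476 v3851 v6263 v1412 v4966 v1217 w4495 v4969 v4666 v6265 v4208 w5407 w5513 v9172 v2713 v2548 v7974 v3282 v4084 v4082 v6706 v2539 v8123 w9023 w2687 v9184 w4225 v9183 v1246 w2736 v3814 v9187 v2477 v4260 w699 v9012 w5590 w5585 w5587 w5588 w5589 v9179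 v2980 v2982 w3394 v743 v2444 v3540 v5667 w7740 v3905
theorem v9189 : PV l9189 := r9189 w6478 w6731 w2569 v5869 w6252
theorem v9190 : PV l9190 := r9190 v3100 v9189 v4086 w6113 w6252
theorem v9191 : PV l9191 := r9191 v5297 v5308 v4228 v5034 v8929 v8933 v3817 v9170 v9164 w876 v2820 v7703 v6153 v3006 w4487 v476 v3935 v4624 v3008 v425 v1218 v3829 v3832 v8935 v5035 v4968 v4130 v2848 v4834 v8934 v2632 v3216 v3113 v3338 v6253 w4812 v3340 v2846 v4664 v2734 w5740 v8936 v4167 w5167 v1243 v1242 v2845 v482 v4216 v473 v3934 v4590 w4476 v3851 v6263 v1217 v4969 v429 v1412 v6265 v9149 v9065 w2636 w2637 w2644 v3039 w2668 v9096 v3303 v4031 v5917 v6293 v4055 w3946 v4062 v8855 v2784 v2786 v3992 w3871 v9188 w4575 w4140 v9190 v5525 v7974 v4595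
theorem v9192 : PV l9192 := r9192 w5286 v5532 v2565 v4301 v4462 v4459
theorem v9193 : PV l9193 := r9193 v7703 v8929 v5297 v8933 v3935 v476 v6153 v4624 v2848 v1412 v4967 v5308 v3006 w4487 v3008 v425 v1218 v3829 w4495 v3810 w2740 v4618 v3811 v3813 v9170 v3113 v3832 v8935 v4130 v3338 v6253 w5364 v5035 v4968 v4834 v8934 v2632 v3216 w4812 v3340 v2846 v4664 v2734 w5740 v8936 v4167 v3427 v2820 v9164 v2615 w5167 v1243 v1242 v2845 v482 v4216 v4225 w4476 v473 v3934 v4590 v6263 v4966 v1217 v4969 v4666 v6265 w5513 v9172 v2713 v7974 v3282 v4084 v4082 v6706 v2539 v8123 w9023 w2687 v9184 w4225 v9181 v2477 v4280 v4260 v9120 v2980 v2982 v2983 w3427 v8020 v9192 w5588 v5728 v657 v2611 v2613 w7752 v3905 v5667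
theorem v9194 : PV l9194 := r9194 v3100 v8634 v9189
theorem v9195 : PV l9195 := r9195 v5297 v5308 v4233 v5034 v8929 v8933 v3821 v9170 v9164 w876 v2820 v7703 v6153 v3006 w4487 v476 v3935 v4624 v3008 v425 v1218 v3829 v3832 v8935 v5035 v4968 v4130 v2848 v4834 v8934 v2632 v3216 v3113 v3338 v6253 w4812 v3340 v2846 v4664 v2734 w5740 v8936 v4167 w5167 v1243 v1242 v2845 v482 v4216 v4225 v473 v3934 v4590 w4476 v3851 v6263 v1412 v4967 v1217 w4495 v4969 v6265 w3196 v9191 v3810 v9135 v9136 v3811 w2744 w2740 v9128 v1247 v4618 v9125 v5917 w3924 v2777 w1727 v5678 w2500 w2497 w2566 w2544 v3076 v6293 w5979 v4019 w4174 w4176 w4177 v3998 v4995 v5806 v9193 w4575 w4140 v9194 v5525 v7974 v4595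
theorem v9196 : PV l9196 := r9196 v5297 v8929 v8933 v3935 v476 v6153 v4624 v2848 v9170 v3113 v7703 v3006 w4487 v5308 v3008 v425 v1218 v3829 v3832 v8935 v4130 v3338 v6253 w5364 w5513 v5035 v4834 v9195 v4836 v5178 v3817 v4968 v8934 v2632 v3216 w4812 v3340 v2846 v4664 v2734 w5740 v8936 v4167 v9164 v2615 w5167 v1242 v2845 v482 v4216 v4225 v473 v3934 v4590 w4476 v3851 v6263 v1217 w4495 v4969 v2557 v9172 v9171 v2571 w9167 w9090 w8721 w3104 v3810 v9149 v8956 v8967
theorem v9197 : PV l9197 := r9197 v9170 v5035 v8929 v5297 v8933 v3935 v476 v6153 v4624 v2848 v4834 v9195 v4836 v2820 v7703 v3006 w4487 v5308 v3008 v425 v1218 v3829 v3832 v8935 v4968 v4130 v8934 v2632 v3216 v3113 v3338 v6253 w4812 v3340 v2846 v4664 v2734 w5740 v8936 v4167 w5364 v9164 w5167 v1243 v6265 w5513 v9196 v7974 v4084 v6706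
theorem v9198 : PV l9198 := r9198 v4228 w876 v1242 v3008 v3006 v425 v1217 v1218 v4968 v1412 v9149 v9065 w2636 w2637 v3039 v9096 v8966 v4055 v9190 w4036
theorem v9199 : PV l9199 := r9199 v5297 v5308 v4233 v8929 v8933 v3821 v3935 v6153 v476 v4624 v2846 v2848 v3006 w4487 v3008 v425 v1218 v3829 v3832 v8935 v4664 w5167 v1242 v2845 v482 v4216 v473 v3934 v4590 w4476 v3851 v6263 w4495 v3810 v3811 v9128 w3104 v9125 v5917 w8721
theorem v9200 : PV l9200 := r9200 v8929 v5297 v8933 v3817 v2820 v7703 v6153 v3006 w4487 v476 v3935 v4624 v5308 v3008 v425 v1218 v3829 v3832 v8935 v5035 v4968 v9170 v4130 v2848 v4834 v8934 v2632 v3216 v3113 v3338 v6253 w4812 v3340 v2846 v4664 v2734 w5740 v8936 v4167 v9164 w5167 v1243 v2845 v482 v4216 v473 v3934 v4590 w4476 v3851 v6263 v1217 v4969 v6265 v9195 v4836 v5178 v9197 w4575 v9199 v9198 v5525 v7974 v4595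
theorem v9201 : PV l9201 := r9201 v5297 v8929 v8933 v3935 v6153 v476 v4624 v2846 v2848 v7703 v3006 w4487 v5308 v3008 v425 v1218 v3829 v3832 v8935 v4664 w5167 v1243 v473 v3934 v4590 w4476 v3851 v1412 v4967 v4969 v328 v4666 v6265 v2845 v5394 v3817 v9200 w26 v9167 v9099 w2637 v8870 v3287 w8753 w6187
theorem v9202 : PV l9202 := r9202 v3304 v1074 v5267 v4533 v8842
theorem v9203 : PV l9203 := r9203 v9201 v5297 v8929 v8933 v6153 v3935 v476 v4624 v2848 v5035 v7703 v3006 w4487 v5308 v3008 v425 v1218 v3829 v3832 v2845 v2846 v8935 v4664 v482 v4216 w5167 v1242 v9170 v4834 v4130 v8934 v9145 v1412 v4968 v4225 v1243 v3113 v3338 v6253 w5364 v2632 v3216 w4812 v3340 v2734 w5740 v8936 v4167 v3427 v8085 v9102 v3303 v5394 w4452 v4666 w26 v473 v3934 v4590 v3256 w4476 v3851 w2637 v8960 v4547 v9156 v4967 v1217 w4495 v4836 v9103 w2740 v8995 v3814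
theorem v9204 : PV l9204 := r9204 v5297 v7703 v8929 v8933 v6153 v3006 w4487 v476 v3935 v4624 v5308 v3008 v425 v1218 v3829 v3832 v8935 v5035 v4968 v9170 v4130 v2848 v4834 v8934 v2632 v3216 v3113 v3338 v6253 w4812 v3340 v2846 v4664 v2734 w5740 v8936 v4167 w5364 w5167 v1243 v1242 v2845 v482 v4216 v4225 v473 v3934 v4590 w4476 v3851 v1217 v1412 v4666 v5394 w4452 v3427 v9201 v4763 v9145 w26 v8085 v3303 v3304 v3256 v9102 w2637 v8960 v4547 v9203 v5178 v5982 w3909 w3895 v3075 v5265 v6130 v3076 v5013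
theorem v9205 : PV l9205 := r9205 v5297 v5308 v8929 v8933 v6153 v3006 w4487 v476 v3935 v4624 v3008 v425 v1218 v3829 w4495 v3810 v9135 w2744 v1247
theorem v9206 : PV l9206 := r9206 v9170 v5297 v7703 v8929 v8933 v6153 v3006 w4487 v476 v3935 v4624 v5308 v3008 v425 v1218 v3829 v3832 v8935 v4130 v2848 v5035 v4834 v8934 v2557 v3113 v3338 v6253 w5364 w5513 v4228 v3817 v2845 v2846 v4664 v482 v4225 v4968 v2632 v3216 w4812 v3340 v2734 w5740 v8936 v4167 w5354 v9204 v3452 v3000 v9164 v2615 w5167 v1242 v4216 v473 v3934 v4590 w4476 v3851 v6263 v1217 v328 v1412 v6265 v4084 v2617 v6707 w2924 v2560 w9076 w6616 w6731 v2544 v5719 v9205 v9149 v9065 v9198 w2636 w2637 w2644 v3039 v5178 v9096 v8976 v3303 v4055 v4031 v2786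
theorem v9207 : PV l9207 := r9207 v5297 v8929 v8933 v3935 v476 v6153 v4624 v2848 v9170 v3113 v7703 v3006 w4487 v5308 v3008 v425 v1218 v3829 v3832 v8935 v4130 v3338 v6253 w5364 w5513 v9204 v5035 v4968 v4834 v8934 v2632 v3216 w4812 v3340 v2846 v4664 v2734 w5740 v8936 v4167 v9164 v2615 v2845 v482 v4225 v2557 v9206 v2571 w9167 v8126 w9090 v2592
theorem v9208 : PV l9208 := r9208 v2713 v2615 v7703 v3008 v5035 v4084 v7915 v6706
theorem v9209 : PV l9209 := r9209 v8929 v5297 v8933 v3935 v6153 v476 v4624 v2846 v2848 v7703 v3006 w4487 v5308 v3008 v425 v1218 v3829 v3832 v8935 v4664 v4968 v9170 v4130 v5035 v4834 v8934 v2630 v3342 v4129 v9204 w3540 w8836 w5472 v2845 v482 v4225 v2632 v3216 v3113 v3338 v6253 w4812 v3340 v2734 w5740 v8936 v4167 w5354 v3452 w5364 v9164 w5167 v1243 v1412 v4967 v6265 w5513 v9207 v9208 v6261 v7972 v5719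
theorem v9210 : PV l9210 := r9210 v4084 v5664 w8989 w8907
theorem v9211 : PV l9211 := r9211 v3216 v2615 v7703 v328 v2557 v9210 v2571 v8566 w2924 v2576 v6140
theorem v9212 : PV l9212 := r9212 v7703 v1412 v4966 v3008 v3006 v425 v1217 v1218 v4969 w5824 v9211 v5525 v7971 v4595
theorem v9213 : PV l9213 := r9213 v2845 v5394 v5297 v8929 v8933 v6153 v3935 v476 v4624 v2848 v7703 v3006 w4487 v5308 v3008 v425 v1218 v3829 v3832 v2846 v8935 v4664 v482 v4216 w5167 v1242 v9170 v9164 v4130 v5035 v4834 v8934 v4968 v2632 v3216 v3113 v3338 v6253 w4812 v3340 v2734 w5740 v8936 v4167 v9204 v2630 v3342 v4129 w3540 w8836 w5487 v9212 v1243 v473 v3934 v4590 w4476 v3851 v1412 v4967 v4969 v328 v4666 v6265 v3817 v9209 w26 v9167 v9099 w2637 v8870 v3287 w8753 w6187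
theorem v9214 : PV l9214 := r9214 v8085 v3303 v4547 v4763 v8947 w3895 w2449 v6130 v5020
theorem v9215 : PV l9215 := r9215 v9170 v5297 v7703 v8929 v8933 v6153 v3006 w4487 v476 v3935 v4624 v5308 v3008 v425 v1218 v3829 v3832 v8935 v4130 v2848 v5035 v4834 v8934 v2557 v2845 v2846 v4664 v482 v4216 w5167 v1242 v9213 v9145 w26 v3113 v3338 v6253 w5364 v5394 v9164 v4968 v2632 v3216 w4812 v3340 v2734 w5740 v8936 v4167 v9204 v2630 v3342 v4129 w3540 w8836 w5487 v9212 w5513 v4225 w5354 v3452 v3000 v2615 v1243 v473 v3934 v4590 w4476 v3851 v328 v1412 v4666 w4452 v4084 v2617 v6707 w2924 v2560 w9076 w6616 w6731 w6363 v2544 v5719 v8085 v3303 v3304 v3256 v9102 w2637 v8960 v4554 v4547 v9156 v9214 v5178 v2789 v8976 w6575 w5897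
theorem v9216 : PV l9216 := r9216 v5297 v8929 v8933 v3935 v476 v6153 v4624 v2848 v9170 v3113 v7703 v3006 w4487 v5308 v3008 v425 v1218 v3829 v3832 v8935 v4130 v3338 v6253 w5364 v2845 v5394 v2846 v4664 v482 v4216 w5167 v1242 v9164 v5035 v4834 v8934 v4968 v2632 v3216 w4812 v3340 v2734 w5740 v8936 v4167 v9204 v2630 v3342 v4129 w3540 w8836 w5487 v9212 w5513 v2615 v4225 v2557 v9215 v2571 w9167 v8126 w9090 v2592
theorem v9217 : PV l9217 := r9217 v9170 v9164 v5297 v8929 v8933 v6153 v476 v3935 v4624 v3113 v2846 v2848 v7703 v3006 w4487 v5308 v3008 v425 v1218 v3829 v3832 v8935 v4664 w5167 v1243 v1242 v2845 v482 v4216 v4225 v2734 v4130 v1412 v4967 v4968 v4129 v5035 v6265 v5394 v3338 v3340 v3342 v4834 v6253 v8934 w5364 w4812 w5354 w5740 v3216 v2630 v2632 v8936 v4167 v9204 w3540 v3452 w8836 w5487 w5472 v9212 w5513 v9216 v9208 v6261 v7972 v5719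
theorem v9218 : PV l9218 := r9218 v8929 v5297 v8933 v2845 v5308 v3935 v6153 v476 v4624 v2846 v2848 v7703 v3006 w4487 v3008 v425 v1218 v3829 v3832 v8935 v4664 v482 v4216 v4225 v3029 v4127 v4129 v5035 v1412 v473 v3934 v4590 v9170 v3111 v9217 v3929 v9162 v2995 v2996 v2998 v3000 w3540 v9163 v4149 w5380 v4141 v641 v3725 w8464 v3126 v3759 v3749 v7692
theorem v9219 : PV l9219 := r9219 v2557 v8717 v8905 v4084
theorem v9220 : PV l9220 := r9220 v9166 v5297 v7703 v8929 v8933 v6153 v3006 w4487 v476 v3935 v4624 v5308 v3008 v425 v1218 v3829 v3832 v8935 v4130 v2848 v5035 v4834 v8934 v2845 v2846 v4664 v482 v4225 v4968 v2632 v3216 v3338 v3113 v6253 w4812 v3340 v2734 w5740 v8936 v4167 w5354 w5364 v9218 v3439 v3452 v2630 v3342 v4129 w3540 w8836 w5472 v4769 w5487 w5167 v1242 v4216 v1412 v4966 v1217 v4969 v4666 v2604 v9160 w5824 w4575 v9219 v2713 v5525 v8380 v9152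
theorem v9221 : PV l9221 := r9221 v4084 v2617 v6707 v2544 w9076
theorem v9222 : PV l9222 := r9222 v2557 v9221 v2571 v8127
theorem v9223 : PV l9223 := r9223 v2615 w5513 v9222 v9208 v7972
theorem v9224 : PV l9224 := r9224 v7703 v3006 w4575 v3008 v425 v1217 v2557 v8636 v4084 w6478 v8569 v6038
theorem v9225 : PV l9225 := r9225 v9218 v8929 v5297 v8933 v2845 v5308 v3935 v6153 v476 v4624 v2846 v2848 v7703 v3006 w4487 v3008 v425 v1218 v3829 v3832 v8935 v4664 v482 v4216 v4225 v2734 v4130 v1412 v4967 v1217 v4969 v4968 v4129 v5035 v4666 v6265 v5394 v3338 v3340 v3342 v9166 v3113 v4834 v6253 v8934 w5364 w4812 w5354 w5740 v3216 v2630 v2632 v8936 v4167 v3439 w3540 v3452 w8836 w5487 w5472 v4769 v9220 v2615 v9223 w5824 v9224 v5525 v7971 v4595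
theorem v9226 : PV l9226 := r9226 v3111 v9162
theorem v9227 : PV l9227 := r9227 v7703 v3006 w3197 v9168 w5366 w8547 w8577
theorem v9228 : PV l9228 := r9228 v9225 v9218 v5297 v8929 v8933 v3935 v6153 v476 v4624 v2846 v2848 v7703 v3006 w4487 v5308 v3008 v425 v1218 v3829 v3832 v8935 v4664 w5167 v1242 w4476 v473 v3934 v4590 v6263 v4128 v5035 v3213 v2634 v9227 v3728 v3724
theorem v9229 : PV l9229 := r9229 v8929 v5297 v8933 v3935 v476 v6153 v4624 v2848 v1412 v5308 v2845 v2846 v5035 v7703 v3008 v4129 v4127 v3006 v3029 v425 w4487 v1218 v3829 v3832 v8935 v4664 v482 w5167 v4225 v4216 v9218 v9225 v3929 v9228 v9226 v2995 v3000 w3540 v9163 v4149 w5380 w5193 v4141 v4769 v3127 w8506 w8464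
theorem v9230 : PV l9230 := r9230 v2820 v4157 v5036 v3113 v3114 v3444 v3389 v3427 w4555 w5463 w5474 v755 v4214 v2273 w794 w8776 w8609 w3197 v4836
theorem v9231 : PV l9231 := r9231 v3217 v3213 v5036 w4513 w4540 w5469 v3429 v4638 w8849 v4417 w3172
theorem v9232 : PV l9232 := r9232 v8929 v5297 v8933 v3342 v3341 v3340 v3339 v3338 v3935 v6153 v476 v4624 v2846 v2848 v1412 w4494 v5308 v5951 v3008 v428 v1218 v3829 v3832 v8935 v4664 w5167 v1243 v2845 v482 v4225 v4623 v473 v3934 v4590 w4485 v3851 v9229 v4156 v4157 v4158 v5036 v4967 v4966 v432 v4666 v9230 v2635 v2637 v2638 v9231 w5365 w5362 v3421 v5345 w8416 w8563 v1669 v1641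
theorem v9233 : PV l9233 := r9233 v3113 v3114 v5128 v4096 v4095 w8776 v6253 w5760 v2308 w8482 w8849 v2316
theorem v9234 : PV l9234 := r9234 v5297 v8929 v8933 v3935 v6153 v476 v4624 v2846 v2848 v1412 w4494 v5308 v5951 v3008 v428 v1218 v3829 v3832 v8935 v4664 w5167 v1243 v2845 v482 v4225 v2734 w5332 v9229 v4156 v4157 v4158 v5036 v4967 v2628 v3338 v3339 v3340 v3341 v3342 v9232 v3000 w3540 w3542 v2847 w3543 v9233 v2637 v2638 v3433 v1641 w5362 w8560
theorem v9235 : PV l9235 := r9235 w8482 v667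
theorem v9236 : PV l9236 := r9236 v2821 v2820 v3929 v4156 v4157 v5036 v3113 v4620 v4621 v503 w5380 w5193 w5363 w5364 v4113 v2819 v35 v4214 v3129 v3127 w8481 w8527 v9235 w8377 v644 w8526 w1556 w1549
theorem v9237 : PV l9237 := r9237 v3929 v5036 v9236 v3213 v2824 v4638 w4540
theorem v9238 : PV l9238 := r9238 v5036 v3216 v4638 v5794 w4554 v4189
theorem v9239 : PV l9239 := r9239 v3929 v430 v9163 v503 w5380 w5193 v4113 v9235 v404 v4108 v7651 v2724
theorem v9240 : PV l9240 := r9240 w4555 v3134 v3741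
theorem v9241 : PV l9241 := r9241 v3127 v4156 v5036 v432 v3113 v9239 v4214 v9240 w5364 v2725 w8481 w8527
theorem v9242 : PV l9242 := r9242 v9241 v3213
theorem v9243 : PV l9243 := r9243 v2846 v2845 v5297 v5308 v476 v8929 v8933 v3935 v6153 v4624 v4666 v2848 v1412 v9229 v5951 v3006 v428 v432 v4967 w4494 v3008 v4969 v1218 v1217 v3829 v3832 v8935 v4664 v482 w5167 v4225 v4216 v9234 v3929 v9237 v2994 v2995 v3000 w3541 w3540 v9238 v9242
theorem v9244 : PV l9244 := r9244 v3829 w4484 v3826 v1145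
theorem v9245 : PV l9245 := r9245 v3113 v9243 w3469 v2820 v7703 v2991 v2992 v5035 v3338 v6262 v8369 v2641 v9244 v4100 v3824 v8893 w4495 v3374 v2939 w4715 w5388
theorem v9246 : PV l9246 := r9246 v3113 v476 v9243 w3469 v2821 v7703 v2991 v2992 v5035 v9245 v5374 v5344 v5343 v5644 v485 v5268 v3357 w4470 w4481 w5400 v4903 v4893 v8369 v2677 v3336 w8376 v3527 v34
theorem v9247 : PV l9247 := r9247 v3338 v3849 w4690 v3852 v668 v1102 w5403 v8893 v3351
theorem v9248 : PV l9248 := r9248 v7703 v3008 v1149 v1150 v421 v3113 v3222 v5035 v3935 v3338 v9247 v4100 v8893 v8464 v3374 w4882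
theorem v9249 : PV l9249 := r9249 v9243 w3469 v2821 v2820 v7703 v2989 v2990 v2992 v3008 v9246 v1218 v428 v1412 v9248 v5374 v5344 v4887 v5644 v4893 v5268 v2677 w4389 v2676 v1242
theorem v9250 : PV l9250 := r9250 v9249 v2635 v9243 w3470 v2820 v7703 v2991 v3342 v6262 v9244 v4129 v2641 v5623 v3368 v5636 w5487 v3376 w8704
theorem v9251 : PV l9251 := r9251 w8748 w8444
theorem v9252 : PV l9252 := r9252 v5035 v6254 w4322 v4885 v4883 v2916 v4870
theorem v9253 : PV l9253 := r9253 v1242 v1138 v2660 v2661 v2662 w8739 w8429 v9251 v642 w8737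
theorem v9254 : PV l9254 := r9254 v1412 v4087 v3217 v3213 v6254 v9252 w4335 v4885 w4250 w4879 v4883 v3408
theorem v9255 : PV l9255 := r9255 v9249 v2638 v2637 v2635 v9243 w3470 w3467 w3468 v2820 v7703 v2991 v2992 v5374 v5344 v5348 v5343 v5644 v5268 w4470 w4481 v4902 v4893 v4890 v2677 v4967 v5643 v2676 v4208 v5269 v9254 v2662 v9253 v9251 w759
theorem v9256 : PV l9256 := r9256 v9243 w3470 w3471 w3468 v7703 v4129 v4128 v2641 w8704 w8400 v2262 w5768 w5767 w8397 v38 v5323
theorem v9257 : PV l9257 := r9257 v7703 v3008 v1149 v421 v3935 v3222 v9243 v2989 v3849 w4690 w4691 v3852 w4694 v5622 v4221 v9256 v5039 v4245 v4238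
theorem v9258 : PV l9258 := r9258 v9243 w3470 w3469 w3467 w3468 v2821 v7703 v3008 v5035 v9249 v2634 v2636 v2635 v2637 v2638 v9255 v3338 v3339 v3340 v3341 v3342 v9250 v1218 v1210 v428 v425 v3006 v5370 v3352 v9257 v4135 v4136 v4428 v4100 v5375 w8397 w8701 w8703 v2266 w5739
theorem v9259 : PV l9259 := r9259 v3935 v476 v9243 v2641 v4802
theorem v9260 : PV l9260 := r9260 v476 v9243 v3935 v9259 v2694 v4254
theorem v9261 : PV l9261 := r9261 v2821 v3357 w5400 w5196 v3444 v8369 v4163 w8398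
theorem v9262 : PV l9262 := r9262 v2662 v9253 v9251 w759
theorem v9263 : PV l9263 := r9263 v9243 w3470 w3469 w3467 w3468 v2821 v7703 v2991 v3008 v5035 v476 v9258 v9260 v5374 v5344 v5348 v5343 v5644 v485 v5268 w4470 v4904 v4901 v2677 v4967 v2676 v4208 v5269 v1242 v3529 w4389 v3336 v4802 v1218 v9261 v2635 v2637 v2638 v9262 v3394 v671 v5373 w5404 v3352
theorem v9264 : PV l9264 := r9264 v7703 v9263 v5377 v9243 v2991 v5303 v3829 v3826 v1145 v1209 v3833 v3338 v3935 w3469 v2820 v2992 v3113 v8369 v1102 v8893 v5178 v3374 w4293 w5388 v5289 v4633 w5159 w5166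
theorem v9265 : PV l9265 := r9265 v9243 v7703 v2992 v4129 v4127 v4208 v671 w8706 w4971 w5771 w4843 w5741 w5744 v3816 w8702 w8721 w759
theorem v9266 : PV l9266 := r9266 v9263 v5377 v5303 v3342 v3341 v3340 v3335 v5587 v480 v481 v9243 w3470 w3472 w3467 w3468 v2821 v7703 v2991 v5035 v3829 v3826 v1145 v1209 v9264 v2633 v2637 v2638 v3352 v3347 v9265 v5039 v2698 v5952 v390 v4242 v4225
theorem v9267 : PV l9267 := r9267 v9263 v5377 v5303 v481 v9243 v7703 v2991 v3008 v9266 v1218 v1149 w4701 v3826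
theorem v9268 : PV l9268 := r9268 v3935 v4246 v4242
theorem v9269 : PV l9269 := r9269 v4132 v4130 w8702 w8606 v1779 v8893 w2350 w2354
theorem v9270 : PV l9270 := r9270 v3935 v4246 v9268 v390 v4225
theorem v9271 : PV l9271 := r9271 v5377 v5303 v3935 v5587 v480 v481 v9243 v7703 v2990 v2992 v4129 v2735 w5327 v2546 w5329 v4802 v671 w5744 v9269 v9270 v3839 v3813 w4480 w4771 w4766 v1145 v5576
theorem v9272 : PV l9272 := r9272 v9243 v7703 v2992 w3468 w3469 w3470 v9263 v481 v480 v5377 v5303 v3935 v3338 v3341 v3342 v9267 v9271 v5039 v2698 v5289 v4256 v3813 w5327 w5329 v9270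
theorem v9273 : PV l9273 := r9273 v4128 v4127 v3339 v3338 v3335 v5035 v3370 v3378 v4838 w4828 w4836 w4838 w8466 v668 w8465 w3569 w3497 v2840
theorem v9274 : PV l9274 := r9274 w4830 w8834 v3763 v4864
theorem v9275 : PV l9275 := r9275 v7703 v3008 v1218 v428 v5269 v1210 v9272 v328 v9243 w5407 w5101 w5513 v8653 v7458 v8366 v8462 w2924 w6651
theorem v9276 : PV l9276 := r9276 w5824 v2556 v8906 v8384 v4598 v7757
theorem v9277 : PV l9277 := r9277 v3927 v7703 v425 v3006 v428 v5269 v1412 v2615 v8571 v2556 v8572 w5824 w4571 v8636 w6363 v2561 v3003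
theorem v9278 : PV l9278 := r9278 v5513 v5515
theorem v9279 : PV l9279 := r9279 v7703 v3008 v1218 v425 v3007 v428 v5269 v1149 v2603 v8462 v2713 v9278 w5824 w4571 v8380 v4611 w6768 v7491
theorem v9280 : PV l9280 := r9280 v9222 v6707 v2571 v5660 w8999 w3582
theorem v9281 : PV l9281 := r9281 v3442 v7703 v2996 v3763 w4524 v2994 v3797 w4510 v3927 v3008 v1218 v425 v3006 v428 v5269 v1412 v1149 v9279 v2615 v7917 v2556 v9280 w5824 w4571 v8636 w6363 v2561 v3003
theorem v9282 : PV l9282 := r9282 w5101 v6707 w6769 w6629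
theorem v9283 : PV l9283 := r9283 v3927 v7703 v2994 v3797 w4510 v3442 v2993 v3008 v1218 w4858 w9027 v9279 v2615 v2996 v3763 w4524 v425 v3006 v428 v1412 v1149 v1210 v9281 v7917 v2556 v9282 w5824 w4571 v8636 w6363 v2561 v3003
theorem v9284 : PV l9284 := r9284 v9283 v3423
theorem v9285 : PV l9285 := r9285 w5824 v7703 v3008 v1218 v1149 v2556 v8384 v4084 v4598 v7757
theorem v9286 : PV l9286 := r9286 v7703 v9272 v2994 v3797 w4510 v3927 v9243 v2641 v2640 v3008 v1218 v9277 v2712 v2603 v9275 w5824 w4571 v9285 v2713 v8380 v4611 w6768 v7491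
theorem v9287 : PV l9287 := r9287 v1243 v1242 v4228 v9065 v7426 w3990 w4000 w3992 v6127 v4056 v6157 w2449
theorem v9288 : PV l9288 := r9288 v1243 v1412 v7840 v5269 v3817 v9287 v9034 v7117 v7838
theorem v9289 : PV l9289 := r9289 v4763 v1243 v1242 v428 v1412 v7840 v425 v3006 v5034 v8113 v8707 w2449
theorem v9290 : PV l9290 := r9290 v4228 v4230 v9065 v7426 w2652 w4119 w4000 w4182 v3996 v1073 w2528 w6047 v3258 v5678 v4027
theorem v9291 : PV l9291 := r9291 v1243 v1242 v3817 v3819 v9290 v9034 v7117 v7838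
theorem v9292 : PV l9292 := r9292 w2488 w2442 v8468
theorem v9293 : PV l9293 := r9293 v1243 v1242 v5034 v9292 v3075 w2463 w2449 v8686 v8685 v8707
theorem v9294 : PV l9294 := r9294 v9034 v7117 v7838
theorem v9295 : PV l9295 := r9295 w2488 w2569 v8710 v6625 v3100 w5098 v8132 w5992
theorem v9296 : PV l9296 := r9296 v1243 v3008 v1150 v9289 v8043 v7788 v3303 v9156 v4548
theorem v9297 : PV l9297 := r9297 v3008 v1218 w4239 v2771 v1243 v428 v1412 v7840 v425 v3007 v3006 v5269 v1149 v328 v9296 v9294 v9288 v9293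
theorem v9298 : PV l9298 := r9298 v1243 v1242 v428 v1412 v7840 v425 v3006 v3008 v1150 v9289 v8043 v3303 v6157 w2449 v4550 v4548
theorem v9299 : PV l9299 := r9299 v1210 w5101 v3008 v1218 v2771 w4239 v9298 w876 v1243 v1242 v428 v1412 v7840 v425 v3007 v3006 v5269 v1149 v328 v2618 w6749 v2616 w6455 v9297 v9294 v9291 v5034 v9295 v3075 w2463 w2449 v8686 v8685 v8707
theorem v9300 : PV l9300 := r9300 v7703 v3008 v1218 v428 v5269 v1210 w5101 v8216 v9299 v2571 w6769 w8999 v5528 v2707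
theorem v9301 : PV l9301 := r9301 v1242 v7703 v9272 v2996 v3763 v2994 v3797 v3927 v9243 v2641 v3008 v1218 v425 v3006 v428 v1412 v1149 v473 v2993 v2992 w4510 w4524 v9286 w4858 v3423 v3442 v9284 w6537 w9027 v9279 v2615 v7917 v2556 v9300 w5824 w4571 v8636 w6363 v2561 v3003
theorem v9302 : PV l9302 := r9302 v9243 w5407 w5101 w5513 v9278 v7458 v8366 v8459 w2924 w6651
theorem v9303 : PV l9303 := r9303 v2556 v8906 v8384 w9011 v4598 v2707
theorem v9304 : PV l9304 := r9304 v5274 v5268 v9243 v2641 v2640 v7703 v3008 v1218 v425 v3007 v3006 v428 v5269 v1412 v1149 v1210 v9272 v328 v5035 v2712 v2603 v9302 w5823 v9303 v2713 v8380 v4084 v4611 v5534 w9166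
theorem v9305 : PV l9305 := r9305 v2556 v8572
theorem v9306 : PV l9306 := r9306 v428 v5269 v1412 v7703 v3008 v1150 v9305 v2713 v6261 v2539 v4084 v8564
theorem v9307 : PV l9307 := r9307 v5274 v7703 v3008 v1218 w4887 v1243 v1242 v9243 v2641 v425 v3006 v428 v1412 v9272 v9304 v2615 v9306 w5823 v8144 v2556 v8636 v4084 v2561 w8907 v2544
theorem v9308 : PV l9308 := r9308 v7703 v3008 v1218 v425 v3007 v3006 v428 v5269 v1412 v1149 v5035 v2603 v8462 v2713 v9278 w5827 v8380 v4084 v4611 v5534 w9166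
theorem v9309 : PV l9309 := r9309 v1243 v1242 v3817 v9294 v4228 v9065 v7426 w3990 w4000 w3992 v6127 v3308 v4056 v1073 w2444
theorem v9310 : PV l9310 := r9310 v4763 v428 v1412 v7840 v425 v3006 v5034 v8113 v8873 w2449 v5027 v5022 w3896
theorem v9311 : PV l9311 := r9311 v1243 v3008 v1218 v428 v1412 v7840 v425 v3007 v5269 v1149 v1150 v1268 v9309 v9310 v8043 v3303 v9156 v7118 v4548
theorem v9312 : PV l9312 := r9312 v3008 v1218 v425 v3007 v3006 v1149 v428 v9311 v9298 v9288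
theorem v9313 : PV l9313 := r9313 w2525 w2442 v8883 v7426 v6958 w3990
theorem v9314 : PV l9314 := r9314 v1243 v1242 v3817 v9294 v4228 v9313 v3075 v8686 v4029 v4037
theorem v9315 : PV l9315 := r9315 v8899 v8043 v9156
theorem v9316 : PV l9316 := r9316 v1243 v3008 v1218 v428 v1412 v7840 v425 v3007 v3006 v5269 v1149 v1150 v421 v9312 v9314 v9315 v9296 v9310
theorem v9317 : PV l9317 := r9317 v4550 v4548
theorem v9318 : PV l9318 := r9318 v1243 v428 v1412 v7840 v3008 v1150 v9298 v9310 v8043 v3303 v9317 v9202 v3075 v4549 v4533 v2779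
theorem v9319 : PV l9319 := r9319 v8686 v4029 v4037
theorem v9320 : PV l9320 := r9320 v1243 v1242 v3008 v1218 v428 v1412 v7840 v425 v3007 v5269 v1149 v9316 v9318 v3817 v9294 v4228 v9319 w2532 v3075 w2453 v7426 v8883 w4000 v3303 v4027
theorem v9321 : PV l9321 := r9321 v4228 v9319 w2532 v3075 v7426 w3990 w4000 v4056 v3303 v4055 v4027
theorem v9322 : PV l9322 := r9322 v1243 v1242 v3817 v9321 v9035 v7117 v7838
theorem v9323 : PV l9323 := r9323 v428 v1412 v7840 v425 v3006 v8113 v9310 v8873 v3075 v5027 v8747 v5017 w3907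
theorem v9324 : PV l9324 := r9324 v1210 w5101 v1243 v3008 v1218 v428 v1412 v7840 v425 v3007 v3006 v5269 v1149 v1150 v328 v6707 v2618 v2616 w6749 w6455 v9320 v9322 v4007 v9323 v8043 v3303 v3304 v9317 v9202 v3075 w2472 v4549 v4533 w4091 v2789 v2781 w5897 v4529 v3096 v4981
theorem v9325 : PV l9325 := r9325 v7703 v3008 v1218 v428 v5269 v1210 w5101 v8216 v9324 v2571 w6769 w8999 v5528 v2707
theorem v9326 : PV l9326 := r9326 v7703 v3008 v1218 w4887 v3927 v9243 v2992 v3811 v2641 v425 v3006 v428 v1412 v1149 v9272 v2989 w4773 w4775 v9301 v5268 v5274 v9307 v498 v3423 v3442 w5188 w5187 v9308 v2615 v7917 v2556 v9325 w5827 v8636 v4084 v2561 w8907 v2544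
theorem v9327 : PV l9327 := r9327 v1243 v1242 v7703 v3008 v1218 v428 v1412 v7840 v9243 v2641 v2640 v5622 v4219 v4221 v425 v3007 v5269 v1149 v421 v9272 v2989 w4452 w4456 v2771 w4239 v9286 v3423 v3442 v9284 v9318 v3817 v3770 v9321 v4184 v6566 v7117 w4076 w4198 w3907 v3308 w1738 v4003 v4072 w9148 w5991 v9098
theorem v9328 : PV l9328 := r9328 w5827 v8636 v4084 v2561 w8907 v2544
theorem v9329 : PV l9329 := r9329 v4228 v9319 w2532 v3075 v7426 w4002 w3991 v4056 v3303 v4055 v4027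
theorem v9330 : PV l9330 := r9330 v1243 v1242 v3817 v9329 v6566 v7117 v5827 v2790
theorem v9331 : PV l9331 := r9331 v428 v1412 v7840 v3008 v1150 v9323 v8043 v3303 v9317 v9202 v3075 v4549 v4533 w3906
theorem v9332 : PV l9332 := r9332 v6707 v2618 v2616 w6749 v9330 w6455
theorem v9333 : PV l9333 := r9333 v2571 w6769 w8999 v5528 v2707
theorem v9334 : PV l9334 := r9334 v7703 v1210 w5101 v3008 v1218 v428 v5269 v8216 v9333 v1243 v1412 v7840 v425 v3007 v1149 v9325 w4285 w4290 v9332 v9331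
theorem v9335 : PV l9335 := r9335 v1243 v7703 v3008 v9243 v2991 v9244 v1218 v1149 v3826 w4701 v5622 v4221 v1210 w4710 v9272 v3000 v428 v1412 v2989 v3222 v3849 v3830 v3113 v3111 v3114 v9273 v2990 v404 v9248 v2809 v4238 v3340 v2628 w2343 w3556 v425 v3006 v2994 v3142 v3797 w4794 w8543 v4167 v3927 v2992 v3811 v7840 v3129 v4208 v2641 v2640 v4219 w3464 v3007 v5269 w4863 w4887 v9326 v2325 w8604 v2331 v9327 v9307 v498 v3423 v3442 w5188 w5187 v9308 v2615 v7917 v2556 v9328 w5101 v8216 v9333 v9334 w4287 w4292 v9332 v9331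
theorem v9336 : PV l9336 := r9336 v1242 v3817 v9321 v7117 v3304 v9322 v4004 v319 w2505 v3982 v4690 v4015
theorem v9337 : PV l9337 := r9337 v1242 v3817 v9321 v7117 v1243 w3924 v9336 v8894 v8870
theorem v9338 : PV l9338 := r9338 v1218 v428 v5269 v1149 v1412 v7840 v1242 v3817 v9321 v7117 v3308 v9322 v4004 v4069 w2489
theorem v9339 : PV l9339 := r9339 v1243 v1242 v1218 v428 v1412 v7840 v5269 v1149 v421 v3817 v9321 v6566 v7117 w4094 w4090 w4076 v3308 v9337 v2786 v9338 v8870 v4073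
theorem v9340 : PV l9340 := r9340 v1243 v428 v1412 v7840 v425 v3006 v3008 v1150 v4763 v9318 v9323 v9331 v8043 v3303 v3304 v9317 v9202 w2449 v4549 w4072 v2789 w3897 w5897 v6130 v3095 v4993
theorem v9341 : PV l9341 := r9341 v3008 v1218 v428 v5269 v7117 v3308 v421 v1243 v425 v3007 v6566 w4076 w4080 w4085 v1412 v328 v9339 w4285 w4762 v1691 v2786 v8788 v4069 v8827
theorem v9342 : PV l9342 := r9342 v3308 w2488 v4073 v4004
theorem v9343 : PV l9343 := r9343 v9243 v7703 v2992 v3811 v3008 v2991 v9244 v1218 v428 v1412 v7840 v3129 v1149 v3826 w4701 v5622 v4221 v1210 w4710 v9272 v3000 v2989 v3222 v3849 v3830 v3113 v3111 v3114 v9273 v2990 v404 v9248 v2809 v4238 v4209 v2806 w3788 v2641 v2640 v4219 v425 v3007 v5269 v421 v2627 v328 v5035 v1242 v1243 v9335 v500 v3351 v3357 v4775 v4771 v9340 v3817 v9329 v6566 v7117 w4076 v3308 v9341 w4165 w4004 v9342 v8827 v4069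
theorem v9344 : PV l9344 := r9344 v4525 w3924 v4037 v5008 v4010
theorem v9345 : PV l9345 := r9345 w2525 v7426 w3990 w4000 v4056 v4055 v3303 v4027 v4037
theorem v9346 : PV l9346 := r9346 v4054 v4068
theorem v9347 : PV l9347 := r9347 v4228 v9321 v9345 v9346 w3989 v7426 v9058
theorem v9348 : PV l9348 := r9348 v3308 w2488 v4075 v4005 v9342
theorem v9349 : PV l9349 := r9349 v3008 v1218 w4389 v5268 v1138 v428 v1412 v7840 v425 v3007 v5269 v1149 v9243 v2989 v328 v9347 w26 v7117 v3304 v3308 w1724 v9348 v3075 v4039 v4038 v4069 w3989 w6259 w6125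
theorem v9350 : PV l9350 := r9350 w2525 v7426 w3990 w4001 v4056 v3303 v4037 v4027
theorem v9351 : PV l9351 := r9351 v4228 v9329 v9350 v9346 w3990 v7426 v9058
theorem v9352 : PV l9352 := r9352 v3008 v1218 w4389 v5268 v1138 v9243 v2992 v3811 v428 v1412 v7840 v425 v3007 v5269 v1149 v2989 v328 v3817 v9349 w4285 w4762 v1691 v9351 v7117 v3304 v3308 v9348 v3075 v4039 v4038 v2786 v4069
theorem v9353 : PV l9353 := r9353 v4007 v3006 v328 v3090 w2488 v9317 v3303 v8115 v6031 w4091 w4078 w4065 v4691 v4989 v4708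
theorem v9354 : PV l9354 := r9354 w4389 v5274 v1137 v428 v1412 v7840 v425 v3006 v3008 v1150 v421 v4763 v9323 v9353 v3075 w2449 v5672 v3303 v3304 v4533 v4535 v4549 w4072 w3906 w3897 w3891 v6130 w5897 v4993 v3095
theorem v9355 : PV l9355 := r9355 w2525 v7426 w4002 w3991 v4056 v4055 v3303 v4037 v4027
theorem v9356 : PV l9356 := r9356 v4228 v9329 v9355 v9346 w3991 v7426 v9058
theorem v9357 : PV l9357 := r9357 v9243 v2992 v3811 v3008 v1218 v428 v1412 v7840 v425 v3007 v5269 v1149 v2989 v328 v1138 w4389 v5268 v9354 v3817 v9352 w4287 v9356 v7117 v3304 v3308 v9348 v3075 v4039 v4038 v2786 v4069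
theorem v9358 : PV l9358 := r9358 v7703 v425 v3006 v2994 v4882 w4861 w4862 v3430 v3452
theorem v9359 : PV l9359 := r9359 v9272 v7703 v3008 v9243 v2991 v9244 v1218 v3129 v3142 v9358 v1149 v3826 w4701 v5622 v4221 v1210 w4710 v3000 v428 v1412 v2989 v3222 v3849 v3830 v3113 v3111 v3114 v9273 v2990 v404 v9248 v2809 v4238 v4209 v2806 w3788 v2641 v2640 v4219 v2627 v9357 v9343
theorem v9360 : PV l9360 := r9360 v5268 v9272 v7703 v3008 v1218 v9358 v3927 v9243 v2640 v425 v3007 v2989 v328 v9339 v4771 v3442 v500 v9307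
theorem v9361 : PV l9361 := r9361 w2442 v8883 v3303 v4059 v8702 v4037 w3906
theorem v9362 : PV l9362 := r9362 v4058 v4064
theorem v9363 : PV l9363 := r9363 v9361 v3075 v9319 v9362 w3906 v4026 v4037
theorem v9364 : PV l9364 := r9364 v1243 v1242 v5268 v7703 v3008 v1218 v428 v1412 v7840 v9243 v2641 v2640 v425 v3007 v5269 v1149 v421 v328 v3817 v9360 v9363 w26 v7117 v6566 v3308 w1724 v9348 w4076 v8827 v8870 v4069 v4004 w3989 v3038 w6125
theorem v9365 : PV l9365 := r9365 v4763 v3008 v1218 v425 v3006 v1149 v1150 v421 v328 v3089 w2488 w2442 v9317 v3303 v4753 v5672 v4732 w3888 w3896 w4080 w4076 w6213 v6155 v4742 v4743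
theorem v9366 : PV l9366 := r9366 v5274 v5268 v7703 v3008 v1218 v428 v1412 v7840 v9243 v2641 v1150 v1243 v9364 v9323 v9331 v9365 v3075 v5672 v4533 v4535
theorem v9367 : PV l9367 := r9367 v9361 v9363 v3075 w2472 v9344 v4029 v4030
theorem v9368 : PV l9368 := r9368 v7703 v3008 v9243 v2991 v9244 v1218 v1149 v3826 w4701 v5622 v4221 v1210 w4710 v9272 v3000 v428 v1412 v2989 v3222 v3849 v3830 v3113 v3111 v3114 v9273 v2990 v404 v9248 v2809 v4238 v3340 v2628 w2343 w3556 v425 v3006 v2994 v3142 v3129 v9358 v3797 w4794 w8543 v4167 v7840 v2641 v2640 v4219 v3007 v5269 v2992 v328 v9359 v3816 v3808 w4481 w4778 w4301 v2757 v5268 w4767 w4770 v9366 v1138 v9354 v3817 v9349 v9367 w26 v7117 v3304 v3308 w1724 v9348 v3075 v4039 v4038 v4069 w3989 w6125 w6259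
theorem v9369 : PV l9369 := r9369 v3008 v1218 v428 v1412 v7840 v1150 v421 v425 v9353 v9365
theorem v9370 : PV l9370 := r9370 v5274 v5268 v9243 v7703 v2992 v3813 v3808 v3816 v3008 v1218 v428 v1412 v7840 v2641 v1150 v1243 v9364 v4763 v9323 v9369 v3075 w2449 v5672 v3303 v5051 v5061 w3896
theorem v9371 : PV l9371 := r9371 v1138 v3008 v1218 v428 v1412 v7840 v425 v3007 v5269 v1149 v328 v3817 v9349 v9367 w26 v7117 v3304 v3308 w1724 v9348 v3075 v4039 v4038 v4069 w3989 w6125 w6259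
theorem v9372 : PV l9372 := r9372 v2628 w2343 v3142 v3129 v7703 v3008 v9243 v2991 v9244 v1218 v1149 v3826 w4701 v5622 v4221 v1210 w4710 v9272 v3000 v428 v1412 v2989 v3222 v3849 v3830 v3113 v3111 v3114 v9273 v2990 v404 v9248 v2809 v4238 v4209 v2806 w3788 v2641 v2640 w3556 v4219 v425 v3006 v1150 v421 v3340 v2627 v2994 v2992 v7840 v8185 v9358 v3797 w4794 w8543 v4167 v9368 v3813 w8415 v3816 v3808 w4481 w4778 w4301 v2757 w4765 v5268 v5274 w4767 v9370 v1137 v9371 v4763 v9323 v9353 v3075 w2449 v5672 v3303 v5051 v5061 w3896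
theorem v9373 : PV l9373 := r9373 v4068 v2789 v3308 w5915
theorem v9374 : PV l9374 := r9374 w3990 v9362 v7426 v9058
theorem v9375 : PV l9375 := r9375 v5034 v4525 v4228 v4229 v9355 v9374 w4083 w4078 v4068 v3308 v3269 v3974 v3048 v3049 v4984 v7426 w6308 w3988 w3996 w5915 v4045 v713
theorem v9376 : PV l9376 := r9376 v1242 v7703 v9272 v3000 v5035 v4838 v3008 v1218 v2994 v5268 v3384 v5643 w4860 v6257 v4189 v9286 w5187
theorem v9377 : PV l9377 := r9377 w3991 v9362 v7426 v9058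
theorem v9378 : PV l9378 := r9378 v4228 v9375 v9355 w4287 w4292 v9377 v9373 w3906 v5267 v4026 v4037
theorem v9379 : PV l9379 := r9379 w2488 v9348 v3070
theorem v9380 : PV l9380 := r9380 v2989 v3222 v3008 v1218 v1149 v3849 v425 v3007 v3006 v428 v5269 v421 v328 v3817 v3818 v9378 v6566 w4076 v9379 v8866 v3308 v8870 v8827 v4004 v4069 v3094 w3907 w3890 w6115
theorem v9381 : PV l9381 := r9381 v5034 v4763 w3991 v7426 w6208 w6274 w1724 v5030 v4998 v4704 w4105
theorem v9382 : PV l9382 := r9382 v4525 v4763 v3008 v1218 v425 v3006 v428 v1412 v9243 v2989 v3089 v3090 w2525 v9381 w4083 v4759 v4984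
theorem v9383 : PV l9383 := r9383 v5035 v4116 v4525 v5034 v3952 v4763 v9272 v9243 v7703 v2991 v2987 v7426 v3048 w2522 w6106 v9058 w2681 w2526 w1724 w1735 v3442 w6147 w6131 v491 w4135 v684 v4699 v5022
theorem v9384 : PV l9384 := r9384 v8873 v4760
theorem v9385 : PV l9385 := r9385 v5034 v4763 v7703 v3008 v1218 v425 v3006 v428 w3991 v9383 v9384 v3308 v3268 w6144 w2652 v5002 w4062 w6131 v3095 v713 v4993 v5022 w4075
theorem v9386 : PV l9386 := r9386 v4007 v4763 v7703 v3008 v1218 v428 v1412 v421 v4525 v4228 v9382 v9385 w4083 w4065 v5027 v4699 v3303 v8873 v5274 w4239 w3958 v8690 v1245 v4735 w2479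
theorem v9387 : PV l9387 := r9387 v4763 v328 v3090 w2488 v9317 v3303 v8115 v8474 v4753 w4240 w3896 v5274 v5053 v4743 v5056
theorem v9388 : PV l9388 := r9388 v4756 v4549 v3308 v1074 v5267 v5672 v4533 v4535
theorem v9389 : PV l9389 := r9389 v4763 v3303 v5672 v3075 v5265 v4087 v5841 v5178 v4743 v5056
theorem v9390 : PV l9390 := r9390 v518 w6062
theorem v9391 : PV l9391 := r9391 v5672 v3075 v5267 v5054 v4087 w5897 v2790
theorem v9392 : PV l9392 := r9392 v4087 v2779 v3075 v4533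
theorem v9393 : PV l9393 := r9393 v7703 v3008 v9243 v2991 v9244 v1218 v1149 v3826 w4701 v5622 v4221 v1210 w4710 v9272 v3000 v428 v1412 v2989 v3222 v3849 v3830 v3113 v3111 v3114 v9273 v2990 v404 v9248 v2809 v4238 v3340 v2628 w2343 w3556 v425 v3006 v5035 v9372 v4838 w4840 w8543 v4167 v2992 v3813 v3811 v2627 w2357 v3142 v3129 v2807 v2641 v2640 v4219 v1150 v421 v1242 v1243 v9376 v9380 v4763 v9386 v9387 v9388 w4072 v9389 v3308 v9391 v9392 v2789 w5897 v3095 v5267 v713 v4993 v4533 v4542 w3866 w3872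
theorem v9394 : PV l9394 := r9394 v4228 v9355 v9378 v9377 v9346
theorem v9395 : PV l9395 := r9395 w2525 v9348 v9390 v3287
theorem v9396 : PV l9396 := r9396 v3312 w4004 v3303 v8800 w1725 w6126 w8382
theorem v9397 : PV l9397 := r9397 v4043 v4039
theorem v9398 : PV l9398 := r9398 v3303 v4069 v9397 v8827 v4038 v3070 w2497
theorem v9399 : PV l9399 := r9399 v9398 v3308 v3309 v8757
theorem v9400 : PV l9400 := r9400 v9243 v2992 v3811 v2989 v3222 v3008 v1218 v1149 v3849 v2991 v3826 v425 v3007 v3006 v428 v5269 v1412 v421 v328 v3817 v3818 v3820 v9394 w26 v4433 v9395 v9396 w4065 v9399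
theorem v9401 : PV l9401 := r9401 v9243 v7703 v2989 w2525 v3089 v5034 v4763 v3008 v1218 v425 v3006 v1210 w3991 v9383 w6208 w1724 w6274 v4998 v5030 w4073 v8083 v4748
theorem v9402 : PV l9402 := r9402 v4525 v4763 v7703 v3008 v1218 v425 v3006 v428 v1412 v3090 v9401 w4083 v4759 v4984
theorem v9403 : PV l9403 := r9403 v4228 v9402 v9385 v8873 v5027
theorem v9404 : PV l9404 := r9404 v4007 v3006 v328 v3090 w2488 v9317 v9387 v3303 v4755 w4091 w4078 w4065 v4691 v4989 v4708
theorem v9405 : PV l9405 := r9405 v4007 v4763 v5672 w2507 v4984 v4691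
theorem v9406 : PV l9406 := r9406 v7703 v9272 v3000 v5035 v9372 v4838 v2627 w2357 v2628 w2343 v3008 v9243 v2991 v9244 v1218 v1149 v3826 w4701 v5622 v4221 v1210 w4710 v428 v1412 v2989 v3222 v3849 v3830 v3113 v3111 v3114 v9273 v2990 v404 v9248 v2809 v4238 v2807 v2641 v2640 w3556 v4219 v425 v3006 v1150 v421 v3340 v2992 v3811 v3813 w4840 w8543 v4167 v9393 v1137 w4389 v5268 v5274 v9400 v4763 v9403 v9404 v9388 v9389 w4091 w4083 w4072 v3308 v9405 v9392 v2789 w5897 v3095 v5267 v713 v4993 v4533 v4542 w3866 w3872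
theorem v9407 : PV l9407 := r9407 v9355 v9361
theorem v9408 : PV l9408 := r9408 v4228 v9374 v9375 v9346
theorem v9409 : PV l9409 := r9409 v9367 v9363 v1138 v1242
theorem v9410 : PV l9410 := r9410 v1412 v4087 v4228 v9407 v9408 v9409
theorem v9411 : PV l9411 := r9411 v9243 v2989 v3222 v3008 v1218 v1149 v3849 v2991 v3826 v425 v3007 v3006 v428 v5269 v1412 v421 v328 v3817 v3818 v3820 v9410 w26 v4433 v9395 v9396 w4065 v9399
theorem v9412 : PV l9412 := r9412 v5034 v4763 w3896 w3890 w6192 v5799 v5030 v8083 v4748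
theorem v9413 : PV l9413 := r9413 v4525 v4763 v425 v3006 v428 v1412 v3090 w2442 v9412 w4083 v4759 v4984
theorem v9414 : PV l9414 := r9414 v4763 v9413 v8873 w2449 v5027 v5051 w3896
theorem v9415 : PV l9415 := r9415 v3006 v9387 v9404 v1243 v1137
theorem v9416 : PV l9416 := r9416 v7703 v3008 v9243 v2991 v9244 v1218 v1149 v3826 w4701 v5622 v4221 v1210 w4710 v9272 v3000 v428 v1412 v2989 v3222 v3849 v3830 v3113 v3111 v3114 v9273 v2990 v404 v9248 v2809 v4238 v2641 v2640 v4219 v1150 v421 v425 v2992 v9372 v9406 v3816 v3808 w4481 w4778 w4301 v2757 v5268 v5274 w4770 v4087 v9411 v4763 v9414 v9415 v9389 v3075 w2449 v5672 v5051 v4535 w3896 v4533 v5061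
theorem v9417 : PV l9417 := r9417 v7703 v2994 v3797 v3008 v1218 v2771 w4315 w4510 v428 v5269 v9277 v2603 v8462 v8654
theorem v9418 : PV l9418 := r9418 v7703 v3008 v1218 v425 v3007 v428 v5269 v1412 v1149 v2603 v8462 v9278 v8383 w5827
theorem v9419 : PV l9419 := r9419 v7703 v3008 v1218 w4389 v1243 v2994 v3797 w4509 w4510 v425 v3007 v3006 v428 v5269 v1412 v1149 v1150 v1210 v328 v9417 w5187 v9418 v2615 v7917 w876 v2556 v9328 w5101 v6259 v9280 w6749 w6455 v9295
theorem v9420 : PV l9420 := r9420 v7703 v3008 v1218 w4389 v1242 v9272 v2994 v3797 v2771 w4315 w4510 v9243 v2641 v2640 v425 v3007 v428 v5269 v1412 v1149 v1210 v328 v5035 v9277 v2712 v2603 v9302 v9276 v8654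
theorem v9421 : PV l9421 := r9421 v9243 v2641 v9272 v9420 v3423 v3442 v9419
theorem v9422 : PV l9422 := r9422 v7703 v9272 v2994 v3797 v9243 v2641 v2640 v3008 v1218 v428 v1412 v1149 v5035 v2771 w4389 w4510 w4315 v1242 v9421 v5721 w5186 v9277 v2712 v2603 v9275 v9276 v8654
theorem v9423 : PV l9423 := r9423 v7703 v3008 v1218 v428 v5269 v2603 v8462 v8654
theorem v9424 : PV l9424 := r9424 v7703 v3008 v1218 v425 v3006 v428 v1412 v503 v9423 v2615 v9306 v8571 w5823 v2556 v8636 v4084 v2561 w8907 v2544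
theorem v9425 : PV l9425 := r9425 w3436 w3438 v1698 v5668 v2306 v736 v2305 w2270 w7943
theorem v9426 : PV l9426 := r9426 w5735 w5732 w5731 v8913 v56 v1279 v1105 v2313 w8163
theorem v9427 : PV l9427 := r9427 v2448 v3570 v5680 v8453 v1510
theorem v9428 : PV l9428 := r9428 v3934 v2628 v2627 v9243 w3434 w3435 w3436 w3438 v9426 w5594 v9427 v7274 w8284 v2624 w2270 v2306 v3180 w7961 v3538
theorem v9429 : PV l9429 := r9429 v2831 v8913 v3537 v4670 v3168
theorem v9430 : PV l9430 := r9430 v9429 v8403 v1506 w8084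
theorem v9431 : PV l9431 := r9431 v3008 v1218 v425 v3007 v3006 v428 v1412 v1149 v1150 v3935 v2477 v4280 w695 v2269 v9428 v2983 w3427 v8391 w5595 w5594 w5592 v9430 w4746 v5740 v3605 v3892
theorem v9432 : PV l9432 := r9432 v7293 w8169 w7774
theorem v9433 : PV l9433 := r9433 v736 v2305 w2270 w7943
theorem v9434 : PV l9434 := r9434 v1243 v1242 v3008 v1218 v425 v3007 v428 v5269 v1412 v1149 v1150 v2627 v9243 v2556 v8906 v9303 v2571 w801 w5838 v4598 v2708 v9431 w694 w688 w714 v8441 v9432 w3427 w3754 w3756 w3757 v9425 v1698 v2306 v9433 w1452 w7981 w2258 w8394 w7894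
theorem v9435 : PV l9435 := r9435 w3582 v4606 w8906 v2571
theorem v9436 : PV l9436 := r9436 v4208 v2628 v9243 v7703 v3008 v2991 v9244 v1218 v1149 v3826 w4701 v5622 w3464 w8348 v4221 v1210 w4710 v9272 v3000 v428 v1412 v2989 v3222 v3849 v3830 v3113 v3111 v3114 v9273 v2990 v404 v9248 v2809 v4238 v4167 v2992 v3813 v3811 v9416 v4129 v2808 v3342 v2627 w2357 w8704 v3142 v3129 v4209 v2641 v2640 v4219 v425 v3007 v5269 v328 v5035 v2712 v2603 v9302 v9434 v2713 v8383 w5819 v9435 w2924 v2574 w6497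
theorem v9437 : PV l9437 := r9437 v2561 w3582 v2571 v8636 w8891
theorem v9438 : PV l9438 := r9438 v2556 v3099 v9437 w2924 v2576 v3066 v5797 w6455 v8132 w5896 w5992
theorem v9439 : PV l9439 := r9439 w694 w714 v8441 v9432 w3754 w3756 v5668 v736 v2305 v9433 w2270 w8344
theorem v9440 : PV l9440 := r9440 v8391 w3752 w3753 w3756 v9426
theorem v9441 : PV l9441 := r9441 w1452 v7274 w8284 v2283 w5629 w7958
theorem v9442 : PV l9442 := r9442 v3935 v3934 w3414 w3663 v9441 v3537 v9427 v4670 v3167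
theorem v9443 : PV l9443 := r9443 w3464 v2325 v3935 v2477 v4280 v4260 w695 w690 v9440 w5595 w5594 w5592 w5591 v9442 w3438 w3020 v9430 w4746 v5740 v3605 v3892
theorem v9444 : PV l9444 := r9444 v736 v2305 v9433 w2270 w8344
theorem v9445 : PV l9445 := r9445 v9243 v2641 v2640 v7703 v3008 v1218 v425 v3007 v428 v5269 v1412 v1149 v1210 v9272 v328 v5035 v2712 v2603 v9302 v9276 v8654
theorem v9446 : PV l9446 := r9446 v1243 v1242 v9243 v7703 v2992 v3813 v3811 v2641 v3008 v1218 v425 v3006 v428 v1412 v9272 v328 v3442 v4771 v501 v9445 v2615 w876 v9306 v8571 v9438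
theorem v9447 : PV l9447 := r9447 w694 w688 w714 v8441 v9439 v9432 w3754 w3756 w3757 v1698 v9444 w1452 w7981 w2258 w8394 w7894
theorem v9448 : PV l9448 := r9448 w5735 w5732 v8391 v8913 w3753 w1473 v1105 w8252 w8163
theorem v9449 : PV l9449 := r9449 v3935 v3934 v2448 v3537 v3570 v3168 v3235 v1510 v8453
theorem v9450 : PV l9450 := r9450 v9243 v2831 v9448 w5594 w5592 v9449 v7274 w8284 v2624 w2270 v2306 v3168 v3538 v3591 w7961 w3436
theorem v9451 : PV l9451 := r9451 v7703 v328 v2713 v8383 w5819 v9435 w2924 v2599 w6497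
theorem v9452 : PV l9452 := r9452 v2831 w3663 v9448 v9441 w5592 v9449
theorem v9453 : PV l9453 := r9453 w1538 v9444 w3754 v5510 w7774
theorem v9454 : PV l9454 := r9454 v1698 w3663 v9453 w1452 v5668 w7981 w2258 w8394 w7894
theorem v9455 : PV l9455 := r9455 v1071 w7766
theorem v9456 : PV l9456 := r9456 v2712 v1243 v1242 v1210 v9243 v2991 v3008 v1218 v1149 v3826 w4710 v4238 v4167 v2992 v3813 v3811 v4209 v4208 v3830 v425 v3007 v428 v5269 v1412 v1150 v2627 v2556 v8906 v9303 v2571 w801 w5838 v4598 v9431 v2708 v4204 w694 w688 w714 v8441 w5592 v9454 v2850 w3039 v8445 w4756 v9455 w8768 v3160 v6793 v4919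
theorem v9457 : PV l9457 := r9457 v7703 v328 v2713 v3282 v8383 v5808 w5819 v9435 w2924 v3066 w6497 w6014 v4086
theorem v9458 : PV l9458 := r9458 v4208 v2628 w8348 v9456
theorem v9459 : PV l9459 := r9459 v2712 v1243 v1242 v7703 v3008 v1218 v9243 v2991 v1149 v3826 w4701 v4221 v1210 w4710 v9272 v3000 v428 v1412 v2989 v3222 v3849 v3830 v3113 v3111 v3114 v9273 v2990 v404 v9248 v2809 v4238 v4167 v2992 v3813 v3811 v4209 v2806 w3788 v4208 v4219 w3464 v425 v3007 v3006 v5269 v1150 v2628 v2627 v2988 v5035 v9457 v2556 v8906 v9303 v2571 w801 w5838 v4598 v2708 v9458 v2325 v9443 v4204 w694 w688 w714 v8441 w5592 v9454 v2850 w3039 v8445 w4756 v9455 w8768 v3160 v6793 v4919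
theorem v9460 : PV l9460 := r9460 w694 w688 w714 v8441 v9454 v8445 v7440 v9455 w8768
theorem v9461 : PV l9461 := r9461 v1243 v1242 v3935 v2628 v2627 v9243 w8348 v9460 v2477 v4280 w695 v2269 v9450 w3438 w3020 w3756 v8391 w5595 w5594 w5592 v9430 w4746 v5740 v3605 v3892
theorem v9462 : PV l9462 := r9462 v9278 v8459
theorem v9463 : PV l9463 := r9463 v5035 v9272 v7703 v9243 v2991 v9244 v3008 v1218 v1149 v428 v1412 v3000 v3826 v2989 v3222 v3849 v3830 w4701 v5622 v3113 v3111 v3114 v9273 v3142 v4221 v1210 w4710 v2990 v404 v9248 v2809 v4238 v4167 v1242 v5269 v425 v3007 v2641 v2992 v3811 v9462 v2603 v9276 v498 v9416 v4129 v2808 v3342 v2627 w2357 w8704 v2806 w3788 v2640 v4219 w3464 w4773 v2754 v9458 v9436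
theorem v9464 : PV l9464 := r9464 v6793 v3874
theorem v9465 : PV l9465 := r9465 w3464 v2325 v3935 v2477 v4280 v4260 w695 w690 v9440 w5594 w5592 w5591 v9442 w3438 v2850 w3039 v9430 w4757 v9464 v3591 v4453
theorem v9466 : PV l9466 := r9466 v9243 v7703 v2991 v9244 v3008 v1218 v1149 v428 v5269 v425 v3007 v3826 w4701 v5622 v4221 v2641 v2992 v3811 v9462 v1242 v1210 w4710 v9272 v3000 v1412 v2989 v3222 v3849 v3830 v3113 v3111 v3114 v9273 v2990 v404 v9248 v2809 v4238 v4167 v5035 v2603 v3142 v2556 v8906 v2571 v4598 v2708 v4129 v2808 v3342 v2627 w2357 w8704 v9303 w5838 w801 v1243 v3813 v9416 v4209 v2806 w3788 v4208 v2640 v4219 w3464 v3006 v1150 v2628 v9463 v2325 v9465 v9447 v1267 w4291 w4298 v9459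
theorem v9467 : PV l9467 := r9467 v7703 v9243 v2991 v9244 v3008 v1218 v1149 v428 v5269 v425 v3007 v3826 w4701 v5622 v4221 v2641 v2992 v3811 v9462 v2603 v2712 v1243 v1242 v1210 w4710 v9272 v3000 v1412 v2989 v3222 v3849 v3830 v3113 v3111 v3114 v9273 v2990 v404 v9248 v2809 v4238 v3340 v2628 w2343 w3556 v3006 v2994 v3142 v3797 w4794 w8543 v4167 v3129 v2996 v3763 v3813 v9416 v4129 v2808 v3342 v2627 w2357 w8704 v4209 v2806 w3788 v4208 v2640 v4219 w3464 v1150 v3935 v2988 v2987 v5035 v2556 v9276 v8906 v9303 v501 v2571 w801 w5838 v4775 v4598 v2708 v9466 v1268 w4291 v9461 v2325 v9460 v2477 v4280 v4260 w695 w690 v9452 w3438 w3010 w3020 w3003 w3756 v8391 w5595 w5594 w5592 v9430 w4734 w4737 w4746 w4743 v8011 v5740 v3914 v3605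
theorem v9468 : PV l9468 := r9468 v7703 v3008 v9243 v2991 v9244 v1218 v1149 v3826 w4701 v5622 v4221 v1210 w4710 v9272 v3000 v428 v1412 v2989 v3222 v3849 v3830 v3113 v3111 v3114 v9273 v2990 v404 v9248 v2809 v4238 v3340 v2628 w2343 w3556 v425 v3006 v2994 v3142 v3797 w4794 w8543 v4167 v3129 v2996 v3763 v2992 v3811 v9416 v2641 v3007 v5269 v2603 v3320 v9462 v9467 v9451 v9457
theorem v9469 : PV l9469 := r9469 v2556 v3099 v9280 w6749 w6455 w2568 v8132 w5992
theorem v9470 : PV l9470 := r9470 w5101 v6259 w5093 v4084 v9469 v2713 v2539 v8564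
theorem v9471 : PV l9471 := r9471 v7703 v328 v5035 v2615 w876 v9470 v9438 v2713 v8562 v8144 v5519 v501 w3582 v4775 w9122 v8729 v4083
theorem v9472 : PV l9472 := r9472 v7703 v9243 v2991 v9244 v3008 v1218 v1149 v3826 w4701 v5622 v4221 v9272 v3000 v428 v1412 v2989 v3222 v3849 v3830 v3113 v3111 v3114 v9273 v3129 v3142 v9416 v2992 v3811 v4228 v3817 w2525 v7426 w3991 v4056 v4066 v4055 w4002 v3303 v4027 v4025 v3089 v328 w2488 v6625 v408 v5034 v3983 v425 v3006 v2996 v3341 v2990 v404 v9248 v2814 v2250 v1210 w4710 v2809 v4238 v4132 v9274 w4213 v2993 w2549 v5035 v4115 v8064 v3283 w6012 w937 v2994 w2551 v4116 v4129 v2808 v3342 v2627 w2357 w8704 w4214 v3284 w6013 v3953 v3340 v2628 w2343 w3556 v3797 w4794 w8543 v4167 v9422 v5274 v5266 w2461 v413 v3813 v2641 v3007 v5269 v1150 v1243 v9471 v9468 v4771 v9446 w4911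
theorem v9473 : PV l9473 := r9473 v9243 v2708 v3008 v1218 v1149 v428 v5269 v425 v3007 v2992 v3811 v9462 v2712 v3813 v1210 v2991 v3826 w4710 v4238 v4209 v4208 v3830 v1412 v1150 v2628 v2627 w4773 w8348 v9431 v4204 w694 w688 w714 v8441 v9447 v9454 w5592 v2850 w3039 v8445 w4757 v9455 w8768 v3160 v6793 v4919
theorem v9474 : PV l9474 := r9474 v9243 v2708 v3008 v1218 v1149 v428 v5269 v425 v3007 v2991 v3826 w4701 v4221 v2992 v3811 v9462 v2712 v3813 v1210 w4710 v4238 v4209 v4208 v4219 w3464 v3830 v3006 v1412 v1150 v2628 v2627 v9473 v2325 v9465 v4204 w694 w688 w714 v8441 v9447 v9454 w5592 v2850 w3039 v8445 w4757 v9455 w8768 v3160 v6793 v4919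
theorem v9475 : PV l9475 := r9475 v1268 w4291 v3008 v1218 v1149 v428 v5269 v425 v3007 v9462 v2712 v3006 v1412 v1150 v3935 v2628 v2627 v9243 v2988 v2987 w8348 v9460 v2477 v4280 v4260 w695 v2269 v9450 w3438 w3010 w3020 w3003 w3756 v8391 w5595 w5594 w5592 v9430 w4734 w4737 w4746 w4743 v8011 v5740 v3914 v3605
theorem v9476 : PV l9476 := r9476 v7703 v3008 v1218 v1149 v428 v5269 v425 v3007 v9243 v2991 v3826 w4701 v4221 v2992 v3811 v9462 v2712 v1210 w4710 v9272 v3000 v1412 v2989 v3222 v3849 v3830 v3113 v3111 v3114 v9273 v2990 v404 v9248 v2809 v4238 v4167 v3813 v4209 v2806 w3788 v4208 v4219 w3464 v3006 v1150 v3935 v2628 v2627 v2988 v2987 v5035 v2554 v2556 v8906 v8462 v2571 w801 v498 v3431 v3435 v4598 v8902 v2708 v9474 v1268 w4291 v9475 v2325 v9460 v2477 v4280 v4260 w695 w690 v9452 w3438 w3010 w3020 w3003 w3756 v8391 w5595 w5594 w5592 v9430 w4734 w4737 w4746 w4743 v8011 v5740 v3914 v3605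
theorem v9477 : PV l9477 := r9477 v7703 v3008 v1218 v9243 v2991 v1149 v3826 w4701 v4221 v1210 w4710 v9272 v3000 v428 v1412 v2989 v3222 v3849 v3830 v3113 v3111 v3114 v9273 v2990 v404 v9248 v2809 v4238 v4167 v2992 v3811 v425 v3007 v3006 v5269 v2603 v3320 v9462 v9476 v9451 v9457
theorem v9478 : PV l9478 := r9478 v7703 v3008 v9243 v2991 v9244 v1218 v1149 v3826 w4701 v5622 v4221 v1210 w4710 v9272 v3000 v428 v1412 v2989 v3222 v3849 v3830 v3113 v3111 v3114 v9273 v2990 v404 v9248 v2809 v4238 v3340 v2628 w2343 w3556 v425 v3006 v2994 v3142 v2992 v3811 v4228 v3817 w2525 v7426 w3991 v4056 v4055 v3089 v328 w2488 v6625 v408 v5034 v3983 w2551 v5035 v4116 v4129 v2808 v3342 v2627 w2357 w8704 w4214 v3129 v8064 v3284 w6013 v3953 v3797 w4794 w8543 v4167 v2996 v3763 v3341 v2814 v2250 v4132 v9274 w4213 v2993 w2549 v4115 v3283 w6012 w937 w4002 v3303 v4027 v4025 v5266 w2461 v4066 v413 v3813 v9416 v2641 v2640 v3007 v5269 v1150 v9422 v5274 v9472 v1137 v1138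 v9477 v2615 w876 v9471 v3431 v4779 v498 w4912 v7761 v495 v2556 v9438 v8638
theorem v9479 : PV l9479 := r9479 v2550 w7774 v5564 v2606
theorem v9480 : PV l9480 := r9480 v1243 v1242 v2989 v2988 v4204 w694 w688 w714 v8441 v9454 w5596 w3438 w3015 w3010 w3756 v8445 w4743 v9479 v7293 v5510 v2606 v2608 v5564 v4945
theorem v9481 : PV l9481 := r9481 v8913 v1279 w8160
theorem v9482 : PV l9482 := r9482 v1279 w1473 v1105 v2313 w7826
theorem v9483 : PV l9483 := r9483 v2628 v2627 v9243 w3435 w3436 v9482 v7274 v2624 w2270 v3168 w7961 v3538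
theorem v9484 : PV l9484 := r9484 v3008 v1218 v425 v3006 v428 v1412 v1149 v473 v476 v2831 v9481 w5301 w5314 w5317 w4746 v2306 w5639 v9483 v2983 v5740 v3605 v3177
theorem v9485 : PV l9485 := r9485 v1242 v9243 v2991 v9244 v3008 v1218 v1149 v428 v5269 v425 v3007 v3826 w4701 v5622 v4221 v2641 v2992 v3811 v9462 v2712 v3813 v1210 w4710 v4238 v4209 v4208 v2640 v4219 w3464 v3830 v2989 v3222 v3849 v3006 v1412 v1150 v3935 v2628 v2627 v2988 v2987 w4773 w8348 v9480 v2477 v4280 v4260 w695 v2269 v9484 w3438 w3010 w3020 w3003 w3756 v8391 w5595 w5594 w5592 v9430 w4734 w4737 w4746 w4743 v8011 v5740 v3914 v3605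
theorem v9486 : PV l9486 := r9486 v3935 v3934 v2831 w3663 v9481 v9441 w5317 w4757 v2448 v3537 v1279 v3168 v2379 v4648 v1705 w2716
theorem v9487 : PV l9487 := r9487 v1242 v9243 v2991 v9244 v3008 v1218 v1149 v428 v5269 v425 v3007 v3826 w4701 v5622 v4221 v2641 v2992 v3811 v9462 v2712 v3813 v1210 w4710 v4238 v4209 v4208 v2640 v4219 w3464 v3830 v2989 v3222 v3849 v3006 v1412 v1150 v3935 v476 v2628 v2627 v9485 v2325 v9480 v2477 v4280 v4260 w690 v9486 w3438 v2850 w3039 w3756 v8391 w5594 w5592 v9430 w4757 v9464 v3559 v4453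
theorem v9488 : PV l9488 := r9488 v8913 v3537 w8160 v2305 v2624 w2270 v3168 w5592 w5322 v8391 w8251 w3754
theorem v9489 : PV l9489 := r9489 v2305 w7918 w7825 v2314
theorem v9490 : PV l9490 := r9490 v2628 v2627 v9489 v7274 v2624 w2270 v3168 w7961 v3538
theorem v9491 : PV l9491 := r9491 v3935 v473 v476 v2627 v9243 v2831 v9488 w5301 w5314 w5317 v2306 w4748 v9490 w3436 w3026 v5740 v3605 v3177
theorem v9492 : PV l9492 := r9492 w3438 v2850 w3039 w3756 v8391 w5594 w5592 v9430 w4757 v9464 v3559 v4453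
theorem v9493 : PV l9493 := r9493 v1242 v9243 v2991 v9244 v3008 v1218 v1149 v428 v5269 v425 v3007 v3826 w4701 v5622 v4221 v2641 v2992 v3811 v9462 v2712 v3813 v1210 w4710 v4238 v4209 v4208 v2640 v4219 w4723 v3830 v2989 v3222 v3849 v3006 v1412 v1150 v3935 v3934 v476 v2628 v2627 v2990 v9480 v2477 v4280 v4260 v2269 w690 v9492 v2831 w3663 v9491 v9488 v9441 w5317 w4757 v2448 v3537 w7918 v3168 v2379 v4648 v1705 w2716
theorem v9494 : PV l9494 := r9494 v2325 v2328
theorem v9495 : PV l9495 := r9495 v1242 v7703 v9243 v2991 v9244 v3008 v1218 v1149 v428 v5269 v425 v3007 v3826 w4701 v5622 v4221 v2641 v2992 v3811 v9462 v2628 w3464 v4208 v9494 v1210 w4710 v4238 v4167 v2989 v3222 v3849 v1412 v5035 v2556 v8906 v8462 v9303 v2571 w801 v501 w5838 v4598 v4775 v2708 v9487 v1268 v9493 w4292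
theorem v9496 : PV l9496 := r9496 v9451 v9457
theorem v9497 : PV l9497 := r9497 v2989 v2988 v4204 w694 w688 w714 v8441 w5596 v9454 w3438 w3015 w3010 w3756 v8445 v9479 w4743 v5510 v7293 v2606 v2608 v4945 v5564
theorem v9498 : PV l9498 := r9498 v3008 v9243 v2991 v9244 v1218 v1149 v3826 w4701 v5622 v4221 v1210 w4710 v4238 v4209 w690 v4260 v2992 v3811 v3830 v425 v3006 v428 v1412 v476 v2628 v3222 v9486 w4773 v9484
theorem v9499 : PV l9499 := r9499 v2628 v9243 v7703 v3008 v2991 v9244 v1218 v1149 v3826 w4701 v5622 w3464 v4221 v4208 v9494 v1210 w4710 v9272 v3000 v428 v1412 v2989 v3222 v3849 v3830 v3113 v3111 v3114 v9273 v2990 v404 v9248 v2809 v4238 v3340 w2343 w3556 v425 v3006 v2994 v3142 v3797 w4794 w8543 v4167 v3129 v2996 v3763 v2992 v3813 v3811 v9416 v4129 v2808 v3342 v2627 w2357 w8704 v4209 v2806 w3788 v2641 v2640 v4219 w4723 v3007 v5269 v1150 v3935 v3934 v476 v5035 v2712 v2603 v3320 v9462 v9496 v2554 v2556 v8906 v8462 v9495 v2571 w801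 v498 v1137 v3431 v3435 v4598 v8902 v2708 v9497 v2477 v4280 v4260 w695 v2269 w690 v9492 v2831 w3663 v9498 v9488 v1268 w5317 w4757 w4292 v9491 v9441 v2448 v3537 w7918 v3168 v2379 v4648 v1705 w2716
theorem v9500 : PV l9500 := r9500 v1698 w3436 v9425 v9444 w1452 w7981 w2258 w8394 w7894
theorem v9501 : PV l9501 := r9501 w7774 v6862
theorem v9502 : PV l9502 := r9502 v2982 w3427 v9501 v2564 v2566 v7293 v4268 v4945
theorem v9503 : PV l9503 := r9503 w3414 v1698 w3663 w4743 v9502 w3436 v9500 v9444 w5629 w1452 v5668 w7981 w7894 w2258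
theorem v9504 : PV l9504 := r9504 v2708 v2992 v4204 w694 w688 w714 v8441 w5591 v9503 w3438 w3039 v8445 v9047 w4743 v7442 v9502
theorem v9505 : PV l9505 := r9505 v2628 v9243 v7703 v3008 v2991 v9244 v1218 v1149 v3826 w4701 v5622 w3464 v4221 v4208 v9494 v2992 v3813 v3811 v1210 w4710 v4238 v4209 v2641 v2640 v4219 v428 w4723 v3830 v2989 v3222 v3849 v425 v3007 v3006 v5269 v1412 v1150 v3935 v3934 v473 v2627 v2990 v328 v1242 v1243 v9470 v9438 v2713 v8562 v8144 v5519 v501 w5838 v2708 w3582 v4775 v8729 v4084 v4082 w8935 v9504 v2477 v4280 v4260 w695 v2269 w690 v9492 v9498 v2831 w3663 v1268 v9488 w4292 w4291 w5314 w4743 v9491 w4748 w4734 v9441 v3570 w7918 v3177 v4651 v2379 w2714 v8011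
theorem v9506 : PV l9506 := r9506 v7703 v328 v9438 w5101 w5093 v6124 v9469
theorem v9507 : PV l9507 := r9507 v7703 v9272 v3000 v5035 v9478 v4838 v2628 v9243 v3008 v2991 v9244 v1218 v1149 v3826 w4701 v5622 w3464 v4221 v4208 v2989 v3222 v3849 v2992 v3811 v4228 v3817 w2525 v7426 w4002 w3991 v4056 v3303 v4055 v4027 v4025 v9494 v1210 w4710 v428 v1412 v3830 v3113 v3111 v3114 v9273 v2990 v404 v9248 v2809 v4238 v3340 w2343 w3556 v425 v3006 v2994 v3142 v3089 v328 w2488 v6625 v408 v5034 v3983 w2551 v4116 v4129 v2808 v3342 v2627 w2357 w8704 w4214 v3129 v8064 v3284 w6013 v3953 v3797 w4794 w8543 v4167 v2996 v3341 v2814 v2250 v4132 v9274 w4213 v2993 w2549 v4115 v3283 w6012 w937 v5266 w2461 v3085 v4066 v413 v3813 v9416 v4209 v2806 w3788 v2641 v2640 v4219 w4723 v3007 v5269 v1150 v3935 v3934 v473 v9499 v2615 w876 v9505 v1137 v9506 v2713 v8571 v498 v3431 v3435 v9306 v8144 v5519 w5838 v8729 v2708 w3582 v4084 v4082 w8935 v9504 v2477 v4280 v4260 w695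 v2269 w690 v9492 v9498 v2831 w3663 v1268 v9488 w4292 w4291 w5314 w4743 v9491 w4748 w4734 v9441 v3570 w7918 v3177 v4651 v2379 w2714 v8011
theorem v9508 : PV l9508 := r9508 v7703 v9272 v3000 v5035 v9478 v4838 v3008 v9243 v2991 v9244 v1218 v1149 v3826 w4701 v5622 v4221 v1210 w4710 v428 v1412 v2989 v3222 v3849 v3830 v3113 v3111 v3114 v9273 v2990 v404 v9248 v2809 v4238 v3340 v2628 w2343 w3556 v425 v3006 v2994 v3142 v2992 v3811 v4228 v3817 w2525 v7426 w3991 v4056 v4055 v3089 v328 w2488 v6625 v408 v5034 v3983 w2551 v4116 v4129 v2808 v3342 v2627 w2357 w8704 w4214 v3129 v8064 v3284 w6013 v3953 v3797 w4794 w8543 v4167 v2996 v3341 v2814 v2250 v4132 v9274 w4213 v2993 w2549 v4115 v3283 w6012 w937 w4002 v3303 v4027 v4025 v9507 v1138 v9446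
theorem v9509 : PV l9509 := r9509 v7703 v3008 v9243 v2991 v9244 v1218 v1149 v3826 w4701 v5622 v4221 v1210 w4710 v9272 v3000 v428 v1412 v2989 v3222 v3849 v3830 v3113 v3111 v3114 v9273 v2990 v404 v9248 v2809 v4238 v3340 v2628 w2343 w3556 v425 v3006 v2994 v3142 v2992 v3811 v4228 v3817 w2525 v7426 w3991 v4056 v4055 v3089 v328 w2488 v6625 v408 v5034 v3983 w2551 v5035 v4116 v4129 v2808 v3342 v2627 w2357 w8704 w4214 v3129 v8064 v3284 w6013 v3953 v3797 w4794 w8543 v4167 v2996 v3341 v2814 v2250 v4132 v9274 w4213 v2993 w2549 v4115 v3283 w6012 w937 w4002 v3303 v4027 v4025 v2641 v2640 v9478 v4838 v9508 v5274 v3374 v2730 w4389 w5186 v1242 v9277 v2712 v2603 v9275 v8654 v9276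
theorem v9510 : PV l9510 := r9510 v7703 v9272 v2996 v3341 v9243 v2991 v9244 v2990 v2989 v3000 v3008 v1218 v428 v1412 v1149 v3826 v3222 v3849 v3830 w4701 v5622 v3113 v3111 v3114 v9273 v404 v9248 v2814 v2250 v4221 v1210 w4710 v2809 v4238 v4132 v3129 v9274 v2992 v3811 v4228 v5035 v4116 v4115 v5034 v3817 v4129 v2808 v3342 v2627 w2357 w8704 v2628 w2343 v3142 v2641 v2640 w3556 v425 v3006 v3340 v2994 v2993 v328 v3089 w2488 w2525 w2549 w2551 v6625 v7426 v408 w4213 w4214 w4002 w3991 v4056 v3303 v4055 v3983 v8064 v4027 v3283 v3284 v4025 w6012 w6013 w937 v3953 v3797 w4794 w8543 v4167 v9509 v5268 v3357 v3384 v4794 w4389 w4887 w5186 v1242 v9277 v2712 v2603 v9275 v8654 v9285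
theorem v9511 : PV l9511 := r9511 v9243 w5407 w5101 v8459 v7190 v7458 w6651 w2924
theorem v9512 : PV l9512 := r9512 v1073 w5863
theorem v9513 : PV l9513 := r9513 w2532 v5267 v7426 w3988 w5915 w5863
theorem v9514 : PV l9514 := r9514 v6709 v4025
theorem v9515 : PV l9515 := r9515 v5034 v9513 v9514 v3304 v3257 v4026 v3987 w4003 v3064 w6308
theorem v9516 : PV l9516 := r9516 v425 v9377 w4068 v5034 v9515 v1242 v4054 w4389 v3303 v5274 v9514 v5265 v5655 v5056
theorem v9517 : PV l9517 := r9517 v4229 v4228 v5034 v3818 v3817 v7703 v3008 v9243 v2991 v9244 v1218 v1149 v3826 w4701 v5622 v4219 v4221 v3830 v2989 v3222 v3849 v425 v3006 v428 v2992 v3811 v9510 v9377 w4072 w4068 v9516 v4053 v3308 v4054 v3987 v3063 v4993 v7426 w3988 w4002 w5915 v3091 v5267 w2463 v4026 v4017 v4022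
theorem v9518 : PV l9518 := r9518 v3008 v1218 v428 v1412 v4087 v1149 v328 v3089 w2488 w2442 v8883 v3303 v8858 w6297 w3901 v4027 v4025
theorem v9519 : PV l9519 := r9519 v4025 v4034
theorem v9520 : PV l9520 := r9520 v8686 v4026 v9362 w3906
theorem v9521 : PV l9521 := r9521 v3008 v1218 v428 v1412 v4087 v9518 v3075 v9519 v3303 v3304 v9520 v1242 v4054 v1138 w3890 v8887
theorem v9522 : PV l9522 := r9522 v1698 w3663 w4743 v9500 v2982 w3427 v7293 v2550 v3898 v4944
theorem v9523 : PV l9523 := r9523 v9243 v3008 v1218 v1149 v428 v5269 v425 v3007 v9462 v1242 v1412 v2556 v9303 v8904 v2571 v4598 v2708 w801 w5838 v1243 v2991 v3826 w4767 v1210 w4710 v4238 v4209 v4208 v3830 v2989 v3222 v3849 v1150 v2627 v9431 v9434 v4204 w694 w688 w714 v8441 v9522 w3015 w3756 v8445 v7293 w4743 v2550 v3898 v4944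
theorem v9524 : PV l9524 := r9524 v2628 v9243 v3008 v2991 v9244 v1218 v1149 v3826 w4701 v5622 w3464 v4221 v4208 v9494 w4767 v1210 w4710 v4238 v2641 v4219 v3830 v425 v3007 v3006 v428 v1412 v1150 v3935 v2992 v2477 v4280 v4260 w695 v2269 v9492 v9484
theorem v9525 : PV l9525 := r9525 w3414 v1698 w3663 w4743 v9500 v2982 w3427 v7293 v2550 v2552 v3898 v9048
theorem v9526 : PV l9526 := r9526 v1243 v1242 v2628 v9243 v7703 v3008 v2991 v9244 v1218 v1149 v3826 w4701 v5622 w3464 v4221 v4208 v9494 v3340 w2343 v9272 w3556 v425 v3006 v2989 v3222 v3849 v2994 v3142 v3129 v2996 v4860 v3797 w4794 w8543 v9416 v4129 v3000 v428 v1412 v3830 v3113 v3111 v3114 v9273 v2808 v3342 v2627 w2357 w8704 v1210 w4710 v2990 v404 v9248 v2809 v4238 v4209 v2806 w3788 v2641 v2640 v4219 v3007 v5269 v1150 v2992 v5035 v2712 v9462 v2604 w947 v9496 v9276 v9303 v2556 v501 v8904 w5838 v4775 v2571 w801 v4598 v2708 v9523 v9524 v4204 w694 w688 w714 v8441 v9480 w5594 w5592 v9525 w3438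 v2850 w3039 w3015 w3756 v8445 v7293 w4743 w4757 v2550 v2552 v3898 v3559 v6213 v3560
theorem v9527 : PV l9527 := r9527 v2556 v3100 v9437 w2924 v3066 v8132 w5896 w124 w5992 v5797 w6455
theorem v9528 : PV l9528 := r9528 v2708 v1243 v1242 v9503 w3756 v7293 v9501
theorem v9529 : PV l9529 := r9529 w3414 v1698 w3663 w4757 v9500 v2985 w3427 v5708 v2611 v3866 v4268
theorem v9530 : PV l9530 := r9530 v1243 v1242 v9243 v7703 v2989 v3222 v3008 v2991 v9244 v1218 v1149 v3849 v9517 w4301 v428 v1412 v2757 v4087 w2442 v328 w2488 v3089 v2992 v3808 v3826 w4701 w4481 v8883 v8858 w6297 w3890 v5622 v4221 v9521 w3901 v7040 v1267 v1268 v3303 v3090 v4525 v5034 v3993 v414 v3966 v2628 w3464 v4208 v9494 v9272 v2993 v3142 v3129 v425 v3006 v2996 v4129 v3000 v3830 v3113 v3111 v3114 v9273 v2808 v3342 v2627 w2357 w8704 w4969 v4860 v3927 v2994 v3797 w4318 w6519 v5274 v5268 w4778 v3816 v9416 v1210 w4710 v2990 v404 v9248 v2809 v4238 v4209 v2806 w3788 v2641 v2640 v4219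 v3007 v5269 v1150 v9526 v2615 w876 v9470 v9527 v2713 v8571 v8144 v5519 v501 w5838 v2708 w3582 v4775 v8729 v4084 v4082 w9122 w8935 v9524 v4204 w694 w688 w714 v8441 w5592 w5591 v9528 v9529 v2850 w3039 w3756 v8445 v5708 w4757 v2611 v3866 v6793
theorem v9531 : PV l9531 := r9531 v1243 v1242 v7703 v3008 v9243 v2991 v9244 v1218 v1149 v2989 v3222 v3849 v9517 v2757 v428 v1412 v4087 w2442 v8883 v3089 v3826 w4701 v5622 v4221 v2992 v3808 w4481 w4301 v9521 v9272 v2993 v3142 v3129 v425 v3006 v2996 v4129 v3000 v3830 v3113 v3111 v3114 v9273 v2808 v3342 v2627 w2357 w8704 w4969 v4860 v3927 v2994 v3797 w4318 w6519 v3340 v2628 w2343 w3556 w4794 w8543 v5274 v5268 w4977 v4525 v2641 v328 v9530 v3442 v4771 v501 v9445 v2615 w876 v9306 v8571 v9527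
theorem v9532 : PV l9532 := r9532 w1452 w8284 w8200 w2258
theorem v9533 : PV l9533 := r9533 v4669 v4670
theorem v9534 : PV l9534 := r9534 v3935 v3934 v3537 v1279 v9427 v3160 v9533
theorem v9535 : PV l9535 := r9535 v2293 v9532
theorem v9536 : PV l9536 := r9536 w3663 v9534 w1452 v9535 w5628 w7867 w7958 v2283
theorem v9537 : PV l9537 := r9537 v8403 v1506 w8084
theorem v9538 : PV l9538 := r9538 v2477 v4280 v4260 w690 v9536 v2850 w3039 w3756 v8391 w5592 v9537 w4757 v9464 v3559 v4453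
theorem v9539 : PV l9539 := r9539 v2708 v4209 v4208 v2991 v3008 v1218 v1149 v3826 v3830 v2989 v3222 v3849 v425 v3007 v3006 v428 v5269 v1412 v1150 v2992 v9538 v4204 w694 w688 w714 v8441 v9447 v9522 w3756 v7293 w8210 w8169
theorem v9540 : PV l9540 := r9540 v9535 v1279 w8160
theorem v9541 : PV l9541 := r9541 w1452 w7867 w7958 v2283
theorem v9542 : PV l9542 := r9542 v2831 w3663 v9540 w5317 v2306 w5628 v9541 v3537 v9489 v3168 w3436 v9533
theorem v9543 : PV l9543 := r9543 v2477 v4280 v4260 v2269 w690 v9542 v2850 w3039 v9537 w5317 w4757 v9464 v3559 v4453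
theorem v9544 : PV l9544 := r9544 v2604 v2712 v1243 v1242 v2628 v9243 v7703 v3008 v2991 v9244 v1218 v1149 v3826 w4701 v5622 w3464 v4221 v4208 v9494 v1210 w4710 v4238 v4209 v2641 v2640 v4219 v3830 v2989 v3222 v3849 v425 v3007 v3006 v428 v5269 v1412 v1150 v3935 v476 v2627 v2988 v2992 v328 v5035 v2556 v9511 v8462 v8906 v9303 v501 v2571 w801 w5838 v4775 v4598 v2708 v9539 v9543 v4204 w694 w688 w714 v8441 v9480 w5596 v9525 w3438 w3010 w3756 v7293 v2550 w8210 v5564 v2606
theorem v9545 : PV l9545 := r9545 v3340 v2628 w2343 v9272 v7703 v3008 v9243 v2991 v9244 v1218 v1149 v3826 w4701 v5622 w3556 v425 v3006 v2989 v3222 v3849 v2994 v3142 v3129 v2996 v4860 v3797 w4794 w8543 v9416 v4129 v3000 v428 v1412 v3830 v3113 v3111 v3114 v9273 v2808 v3342 v2627 w2357 w8704 v2990 v404 v9248 v2809 v2806 w3788 v2641 v2640 v4221 v3007 v2712 v2604 w947 v9544 v9457 w5407 v5515 v7458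
theorem v9546 : PV l9546 := r9546 v7703 v328 v2556 v3100 v9280 v9437 w2924 v2597 v3066 v5797 w4227 w6455 w5984 w5992
theorem v9547 : PV l9547 := r9547 v9531 v1243 v1242 v9243 v7703 v2989 v3222 v3008 v2991 v9244 v1218 v1149 v3849 v9517 w4301 v428 v1412 v2757 v4087 w2442 v328 w2488 v3089 v2992 v3808 v3826 w4701 w4481 v8883 v8858 w6297 w3890 v5622 v4221 v9521 w3901 v7040 v1267 v1268 v3303 v3090 v4525 v5034 v3993 v414 v3966 v2628 w3464 v4208 v9494 v9272 v2993 v3142 v3129 v425 v3006 v2996 v4129 v3000 v3830 v3113 v3111 v3114 v9273 v2808 v3342 v2627 w2357 w8704 w4969 v4860 v3927 v2994 v3797 w4318 w6519 v5274 v5268 w4977 w4781 w4778 v3816 v9416 v1210 w4710 v2990 v404 v9248 v2809 v4238 v4209 v2806 w3788 v2641 v2640 v4219 v3007 v5269 v1150 v3935 v476 v9545 v2615 w876 v9546 v2713 v8571 v501 v498 v4775 v9306 v8144 v5519 w5838 v8729 v2708 w3582 v4084 v4082 w9122 w8935 v9543 v4204 w694 w688 w714 v8441 w5591 v9528 v9529 w3756 v7293 v5708 w8210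
theorem v9548 : PV l9548 := r9548 v9243 v2640 v7703 v3008 v1218 v428 v5269 v1412 v1149 v1210 v9272 v328 v5035 v2712 v2604 v8654 v9511 v9276
theorem v9549 : PV l9549 := r9549 v9243 v7703 v2989 v3222 v3008 v2991 v9244 v1218 v1149 v3849 v9517 w4301 v428 v1412 v2757 v4087 w2442 v328 w2488 v3089 v2992 v3808 v3826 w4701 w4481 v8883 v8858 w6297 w3890 v5622 v4221 v9521 w3901 v7040 v1268 v9272 v2993 v3142 v3129 v425 v3006 v2996 v4129 v3000 v3830 v3113 v3111 v3114 v9273 v2808 v3342 v2627 w2357 w8704 w4969 v4860 v3927 v2994 v3797 w4318 w6519 v5268 w4977 v3816 v5269 v1242 v9531 v9547 v3442 v4771 v501 v9548 v2615 w876 v8571 v9546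
theorem v9550 : PV l9550 := r9550 v9243 v2708 v2991 v3008 v9244 v1218 v1149 v3826 w4767 v4208 v2641 w4701 v5622 v4219 v4221 v9431 v9524
theorem v9551 : PV l9551 := r9551 v2708 v2989 v2992 v4204 w694 w688 w714 v8441 v9497 w5594 w5592 v9525 w3438 v2850 w3039 w3015 w3756 v8445 v7293 w4743 w4757 v2550 v2552 v3898 v3559 v6213 v3560
theorem v9552 : PV l9552 := r9552 v2712 v2628 v9243 v7703 v3008 v2991 v9244 v1218 v1149 v3826 w4701 v5622 w3464 v4221 v4208 v9494 v9416 v3142 v3129 v1210 w4710 v9272 v3000 v428 v1412 v2989 v3222 v3849 v3830 v3113 v3111 v3114 v9273 v2990 v404 v9248 v2809 v4238 v4209 v2806 w3788 v2641 v2640 v4219 v425 v3007 v3006 v5269 v1150 v3935 v476 v2627 v2992 v5035 v2554 v2556 v8459 v8462 v8906 v498 v2571 w801 v3431 v3435 v4598 v8902 v9551 v9550 v9539 v9543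
theorem v9553 : PV l9553 := r9553 v3340 v2628 w2343 v9272 v7703 v3008 v9243 v2991 v9244 v1218 v1149 v3826 w4701 v5622 w3556 v425 v3006 v2989 v3222 v3849 v2994 v3142 v3129 v2996 v4860 v3797 w4794 w8543 v9416 v3000 v428 v1412 v3830 v3113 v3111 v3114 v9273 v2641 v2640 v4221 v3007 v2712 v2604 w947 v9552 v9457 w5407 v5515 v7458
theorem v9554 : PV l9554 := r9554 v7703 v328 v2556 v9546 v9280 v9527
theorem v9555 : PV l9555 := r9555 v2708 v9503 w3756 v7293 v9501
theorem v9556 : PV l9556 := r9556 v5519 v2708 v2992 v4204 w694 w688 w714 v8441 w5592 w5591 v9555 v9529 v2850 w3039 w3756 v8445 v5708 w4757 v2611 v3866 v6793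
theorem v9557 : PV l9557 := r9557 v2628 v9243 v7703 v3008 v2991 v9244 v1218 v1149 v3826 w4701 v5622 w3464 v4221 v4208 v2992 v9517 v3808 w4481 v2989 v3222 v3849 w4301 v2757 v9521 v9494 v9272 v2993 v3142 v3129 v425 v3006 v2996 v4129 v3000 v428 v1412 v3830 v3113 v3111 v3114 v9273 v2808 v3342 v2627 w2357 w8704 w4969 v4860 v3927 v2994 v3797 w4318 w6519 v4087 v5274 v5268 w4977 w4781 w4778 v3816 v4525 v5034 v9416 v1210 w4710 v2990 v404 v9248 v2809 v4238 v4209 v2806 w3788 v2641 v2640 v4219 v3007 v5269 v1150 v3935 v476 v328 v3089 v3090 w2488 w2442 v8883 v3303 v8858 v3993 w6297 v414 w3890 w3901 v3966 v7040 v1268 v1267 v9549 v1137 v1138 v9553 v2615 w876 v9554 v2713 v8571 v498 v3431 v3435 v9306 v8144 v5519 w5838 v8729 w3582 v4084 v4082 w9122 w8935 v9556 v9550 v9543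
theorem v9558 : PV l9558 := r9558 v4087 w2463 v3075 v5034 w1727 v4034 w4085 w4166 v8863 v2777 w5873 v4017 w2660 v4993
theorem v9559 : PV l9559 := r9559 v3821 v7703 v3008 v9243 v2991 v9244 v1218 v1149 v3826 w4701 v5622 v4221 v2989 v3222 v3849 v425 v3006 v428 v1412 v421 v2992 v4233 v9517 v3808 w4481 w4301 v2757 v5274 v4087 v9521 v9557 v3075 v9558 v3303 v3304 v9520 v1242 v4054 v1138 w3890 v8887
theorem v9560 : PV l9560 := r9560 v404 v9243 v2641 v2640 v7703 v3008 v1218 v428 v1412 v9272 v2994 v5035 v5268 v3357 v3384 v2771 w4887 w4860 v6257 v9277 v2712 v2604 v9275 v9285 w5824 v2713 v8380 v4084 v4604 v7734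
theorem v9561 : PV l9561 := r9561 v3008 v328 v9379 v9399 v9396
theorem v9562 : PV l9562 := r9562 v4433 v3820 v404 v9243 v2641 v2640 v9272 v7703 v3008 v1218 w4701 v5622 w3556 v425 v3007 v3006 v428 v5269 v1412 v421 v3340 v2994 v2992 v5035 v1242 v1243 v6566 w4076 v9561 v5268 v3357 v3384 w4481 v2771 w5401 w4860 v3811 w8543 v6257 v4167 v4189 v9560 w5187
theorem v9563 : PV l9563 := r9563 v9243 v2989 v328 v9395 v9396 v9561 w4065
theorem v9564 : PV l9564 := r9564 v2628 w2343 v3142 v3129 v7703 v3008 v9243 v2991 v9244 v1218 v1149 v3826 w4701 v5622 v4221 v1210 w4710 v9272 v3000 v428 v1412 v2989 v3222 v3849 v3830 v3113 v3111 v3114 v9273 v2990 v404 v9248 v2809 v4238 v2641 v2640 w3556 v425 v3007 v3006 v5269 v421 v3340 v2994 v5035 v3817 v3820 v9559 w26 v4433 v9563 v5268 v3357 v3384 v2771 w4389 w5401 w4887 w4860 v1242 v9562 w8543 v6257 v4167 v4189 w5187 v9277 v2712 v2604 v9275 v8654 v9285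
theorem v9565 : PV l9565 := r9565 v4228 v3008 v1218 v425 v3006 v428 v1412 v9243 v2992 v8113 v9382 v3811 v3816 w4481 w4301 v2757 v5274 v4087 v9414
theorem v9566 : PV l9566 := r9566 v7703 v9272 v3000 v5035 v3008 v1218 v9323 v4838 w3556 v9243 v2989 v1149 v3849 v425 v3006 v3340 v2992 v3811 v9403 w4840 v4164 w8543
theorem v9567 : PV l9567 := r9567 v9243 v7703 v2989 v3008 v1218 v1149 v3849 v428 v1412 v2992 v9323 v9566 v3816 w4301 v2757 v9414 v4087
theorem v9568 : PV l9568 := r9568 v4763 v9243 v2807 v9272 w3556 v4219 v7703 v2989 v3008 v1218 v1149 v3849 v425 v3006 v428 v1412 v3340 v2992 v4228 v9565 v9567 v5274 v5178 v3374 w4481 w4239 v4087 w5398 v3811 v1245 w2449 w8543 v5842 v4167 v5027 v9385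
theorem v9569 : PV l9569 := r9569 v8474 v8898
theorem v9570 : PV l9570 := r9570 v421 v2771 w4239 v9569 v3308 v4548 v4520 w3938
theorem v9571 : PV l9571 := r9571 w6281 w6213
theorem v9572 : PV l9572 := r9572 v4087 w2442 v9571 w3888 v4548 v4753 v8898
theorem v9573 : PV l9573 := r9573 v3303 v5672 v8043 v5054 v4753 v2786
theorem v9574 : PV l9574 := r9574 v425 v3006 v428 v1412 v3008 v1149 v1150 v421 v328 v3090 w2488 w2525 v9570 v5268 v9572 v9573 v3268 v4548 v9390 w3991 w6289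
theorem v9575 : PV l9575 := r9575 v4087 v3075 v5672 v9388 v9392
theorem v9576 : PV l9576 := r9576 v4763 v4087 w2449 v9575 v3813 v4547 v3816 w4301 w3896 v5051
theorem v9577 : PV l9577 := r9577 v4221 v9243 v7703 v2989 v3008 v1218 v1149 v3849 v428 v1412 v1150 v421 v2992 v1243 v9568 w26 v9574 v9389 v3308 v3268 v9576 w4255 v2757 v5268 v3813 v9388 v9391 w4065 v2789 v4517 w5897 w2617 v5267 v9390 v4533 w6289 w4002
theorem v9578 : PV l9578 := r9578 v4087 v8898 w2442 v3308 v4548 w6281 w3888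
theorem v9579 : PV l9579 := r9579 v4007 v3303 v4755 w4091 w4078 w4065 v4691 v4708 v4989
theorem v9580 : PV l9580 := r9580 v425 v3006 v421 v428 v328 v3090 w2488 w2525 v9574 v9579 v3268 v4548 v9390 w3991 w6289
theorem v9581 : PV l9581 := r9581 v7703 v3008 v9243 v2991 v9244 v1218 v1149 v3826 w4701 v5622 v4221 v1210 w4710 v9272 v3000 v428 v1412 v2989 v3222 v3849 v3830 v3113 v3111 v3114 v9273 v2990 v404 v9248 v2809 v4238 v2807 v2641 v2640 v4219 v425 v3006 v1150 v421 v2628 v2627 v2992 w2343 w2357 v9416 v9564 v9577 v1137 w4389 v5268 v5274 v9567 w26 v9580 v9389 v3308 v3268 v9576 v2757 v3813 v9388 w4091 w4083 w4065 v2789 v9405 v4517 w5897 w2617 v5267 v9390 v4533 w6289 w4002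
theorem v9582 : PV l9582 := r9582 v3342 v3341 w8462 v2316 w5402 v1779 v3351
theorem v9583 : PV l9583 := r9583 v7703 v3008 v1218 v425 v3006 v428 v5269 v1412 v1210 v328 v2615 w876 v8571 v9438 w5101 v6124 w6616 v3003 w6749 v2617
theorem v9584 : PV l9584 := r9584 v9272 v9275 v8654 v9285
theorem v9585 : PV l9585 := r9585 v7703 v9272 v2994 w2551 v2993 w2549 v9243 v2989 w2525 v2991 w2527 v328 w2488 v3090 v3089 v1242 v4229 v4228 v5035 v4116 v4115 v4525 v3818 v3817 v2628 v3008 v9244 v1218 v428 v1412 v1149 v3826 w4701 v4129 v3000 v3222 v3849 v3830 v5622 v3113 v3111 v3114 v9273 v404 v2808 v2990 v9248 v2814 v2250 v4221 v1210 w4710 v2809 v4238 v4132 v9582 v9581 w2343 v3142 v3129 v2641 v2640 w3556 v4219 v425 v3006 v3341 v3340 v2996 v2992 w4452 w4481 w4456 v2771 w4239 v8710 v3811 v3813 v9274 v9345 v4087 v3303 v8855 v6625 v7426 v9292 v6709 w4083 v4066 v3996 w4213 v3969 v4027 v3288 v3283 v3284 v9514 w6308 w6012 w4215 w937 w6013 v3953 v3797 w4794 w4510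 w4315 w8543 v4167 v9583 v2712 v2603 v9584 w4858 v3442 w5187 w9027 v9418
theorem v9586 : PV l9586 := r9586 v4059 w3991 v7426
theorem v9587 : PV l9587 := r9587 v1243 v9424 v9418 w5187
theorem v9588 : PV l9588 := r9588 v1698 v9454 w5735
theorem v9589 : PV l9589 := r9589 w694 w688 w714 v9588 w3756 v8445 v9432 w5735
theorem v9590 : PV l9590 := r9590 v2831 v9534 v7274 v8913 v2624 w5308 w5317 v3168 v3591
theorem v9591 : PV l9591 := r9591 v8403 v1506 v3537 v2624 v3875 v3874
theorem v9592 : PV l9592 := r9592 v1210 w4710 v4238 v4260 v3008 v1218 v425 v3007 v3006 v428 v1412 v3935 v9243 v2985 v9590 v2850 v9591 w5317 w4757 v9464 v3559 v4453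
theorem v9593 : PV l9593 := r9593 v3008 v1218 v1149 v428 v5269 v425 v3007 v5274 v9462 v2712 v5268 v1243 v1242 v3006 v1412 v1150 v3934 v2628 v2627 v9243 v9589 v2477 v4280 w695 v2269 w690 v9592 w3438 w3439 v9428 v9427 v9441
theorem v9594 : PV l9594 := r9594 v1243 v1242 w694 w688 w714 v9588 w3438 w3010 w3756 v8445 w5298 w5735 v9479 v7293
theorem v9595 : PV l9595 := r9595 v9243 v2991 v9244 v3008 v1218 v1149 v428 v5269 v425 v3007 v3826 w4701 v5622 v4221 v2641 v2992 v3811 v5274 v9462 v2712 v1210 w4710 v4238 v4167 v3813 v2628 w3464 v4208 v9494 v5268 v1242 v4209 v2640 v4219 v3830 v1412 v1150 v3935 v473 v476 v2627 v2988 v2556 v9303 v8906 w5838 v2571 w801 v4598 v2708 v9593 v9594 v2477 v4280 v4260 w695 v2269 v9498 v2850 w3039 v9591 w5317 w4757 v9464 v3559 v4453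
theorem v9596 : PV l9596 := r9596 v7703 v328 v2713 v8383 w5819 v9435 w2924 v2574 w6497
theorem v9597 : PV l9597 := r9597 v7703 v3008 v9243 v2991 v9244 v1218 v1149 v3826 w4701 v5622 v4221 v1210 w4710 v9272 v3000 v428 v1412 v2989 v3222 v3849 v3830 v3113 v3111 v3114 v9273 v2990 v404 v9248 v2809 v4238 v3340 v2628 v5035 v4129 v2808 v2814 v2250 v4132 v9582 w2343 w3556 v425 v3006 v2994 v3142 v3797 w4794 w8543 v4167 v3129 v2996 v3763 v2992 v3811 v5274 v9581 v2806 w3788 v2641 v3007 v5269 v2603 v9462 v9587 v501 v9596 v4775 v9595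
theorem v9598 : PV l9598 := r9598 v2628 v9243 v3008 v2991 v9244 v1218 v1149 v3826 w4701 v5622 w3464 v4221 v4208 v9494 v1210 w4710 v4238 v2641 v4219 v3830 v425 v3007 v3935 v476 v2992 v2477 v4280 v4260 w695 v2269 v9498 v2850 w3039 v9591 w5317 w4757 v9464 v3559 v4453
theorem v9599 : PV l9599 := r9599 v1243 v1242 v1698 w5325 w5735 v9503
theorem v9600 : PV l9600 := r9600 v7703 v9243 v2991 v9244 v3008 v1218 v1149 v3826 w4701 v5622 v4221 v9272 v3000 v428 v1412 v2989 v3222 v3849 v3830 v3113 v3111 v3114 v9273 v5035 v2628 v4129 v404 v2808 v2990 v9248 v2814 v2250 v1210 w4710 v2809 v4238 v4132 v9582 v3129 v3142 v3303 v3340 w2343 w3556 v425 v3006 v2994 v3797 w4794 w8543 v5274 v5268 v4167 v9446 v2992 v3813 v3811 w3464 v4208 v9494 v1243 v1242 v9581 v4209 v2806 w3788 v2641 v2640 w4723 v3007 v5269 v1150 v2627 v328 v1268 v1267 v9597 v2615 w876 v9583 v501 v498 v4775 v9306 v9527 v2713 v8144 v5519 w5838 v8729 w3582 v4084 v4082 w9122 w8935 v9598 v4204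 w694 w688 w714 v9599 v8445 v9047 v9455 w7729
theorem v9601 : PV l9601 := r9601 v3226 v3875
theorem v9602 : PV l9602 := r9602 v3935 v3537 v3934 v2448 v5274 v1412 v9449 w4596 w4602 v9601 v3235 v8450 w7990
theorem v9603 : PV l9603 := r9603 v3935 v8913 v3537 v9602 w8160 v2624 v3168 v9601 w4602
theorem v9604 : PV l9604 := r9604 v2628 v9243 v7274 v9441 v2624 v2306 v3168 v9490 v3591 w3436
theorem v9605 : PV l9605 := r9605 v1412 v3935 v3222 v2831 w3663 v9603 w5308 w5317 w4743 w4757 w4734 v9604 v3537 w7918 v3168 v2379 v4648 v8011 w2716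
theorem v9606 : PV l9606 := r9606 v9243 v2708 v7703 v2991 v9244 v3008 v1218 v1149 v428 v5269 v425 v3007 v3826 w4701 v5622 v4221 v2641 v2992 v3811 v5274 v9462 v2603 v2712 v1210 w4710 v9272 v3000 v1412 v2989 v3222 v3849 v3830 v3113 v3111 v3114 v9273 v2990 v404 v9248 v2809 v4238 v3340 v2628 v5035 v4129 v2808 v2814 v2250 v4132 v9582 w2343 w3556 v3006 v2994 v3142 v3797 w4794 w8543 v4167 w4788 v3129 v2996 v3763 v3813 w3464 v4208 v9494 v5268 v1242 v9581 v4209 v2806 w3788 v2640 v4219 v1150 v3935 v473 v476 v2627 v2988 v9597 v9596 v9303 v2586 w5838 v4082 v9594 v2477 v4280 v4260 v2269 w690 v9605 v2850 w3039 v9591 w5317 w4757 v9464 v3559 v4453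
theorem v9607 : PV l9607 := r9607 v9243 v2850 w3039 v9591 w5317 w4757 v9464 v3559 v4453
theorem v9608 : PV l9608 := r9608 v9243 v2992 v3811 v2628 v3008 v2991 v9244 v1218 v1149 v3826 w4701 v5622 w3464 v4221 v4208 v9494 v5274 v1210 w4710 v4238 v4209 v2641 v4219 v3830 v2989 v3222 v3849 v425 v3007 v3006 v428 v1412 v3935 v476 v2477 v4280 v4260 w695 v2269 w690 v9607 w3663 v9605 v9598 v9592 v9534 v9428 v9441
theorem v9609 : PV l9609 := r9609 v9243 v2708 v2991 v9244 v3008 v1218 v1149 v428 v5269 v425 v3007 v3826 w4701 v5622 v4221 v2641 v2992 v3811 v5274 v9462 v2712 v3813 v2628 w3464 v4208 v9494 v5268 v1243 v1242 v1210 w4710 v4238 v4209 v2640 v3830 v2989 v3222 v3849 v1412 v1150 v473 v2627 v2988 v9303 v2586 w5838 v4082 v9608 v4204 w694 w688 w714 v9588 w3438 w3015 w3010 w3756 v8445 w5298 w5735 w4743 v9479 v5510 v2606 v2608 v5564 v4945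
theorem v9610 : PV l9610 := r9610 v7703 v9243 v2991 v9244 v3008 v1218 v1149 v428 v5269 v425 v3007 v3826 w4701 v5622 v4221 v2641 v2992 v3811 v5274 v9462 v2603 v1210 w4710 v9272 v3000 v1412 v2989 v3222 v3849 v3830 v3113 v3111 v3114 v9273 v2990 v404 v9248 v2809 v4238 v3340 v2628 v5035 v4129 v2808 v2814 v2250 v4132 v9582 w2343 w3556 v3006 v2994 v3142 v3797 w4794 w8543 v4167 w4788 v9581 v2806 w3788 v9606 v9609 v2591 v4606
theorem v9611 : PV l9611 := r9611 v2556 v4598 v8906 v2571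
theorem v9612 : PV l9612 := r9612 v4525 v7703 v3089 v9585 v3008 v9243 v2991 v9244 v1218 v428 v1412 v4087 v1149 w2442 v8883 v2989 v3222 v3849 v3817 v4228 w2525 v9586 v4055 v4066 v3303 v2779 v4027 w2461 v4037 v3826 w4701 v5622 v4221 v9519 v3090 w4083 v3969 v425 v3006 v9272 v2993 w2549 v5035 v4115 v2628 v4129 v3000 v3830 v3113 v3111 v3114 v9273 v404 v2808 v2990 v9248 v2814 v2250 v1210 w4710 v2809 v4238 v4132 v9582 v3129 w4078 v3975 v3283 v3287 w6307 v2996 v3341 v9274 w4213 w6012 w937 v4116 v3284 v2994 w2551 w2527 v4229 v3818 v3288 w6308 w4215 w6013 v3953 w4283 v3142 v3797 w4788 w4315 v9600 v3340 w2343 w3556 w4794 w8543 v5274 v5268 v4167 v9446 v3763 v2992 v3811 v1242 v4117 v2641 v4219 v3007 v5269 v421 v2603 v9462 v9610 v2544 v3066 v9611 v2713 v9451 v8383 v8687 w8998 w803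
theorem v9613 : PV l9613 := r9613 v7703 v9243 v2991 v9244 v3008 v1218 v1149 v3826 w4701 v5622 v4221 v9272 v3000 v428 v1412 v2989 v3222 v3849 v3830 v3113 v3111 v3114 v9273 v5035 v2628 v4129 v404 v2808 v2990 v9248 v2814 v2250 v1210 w4710 v2809 v4238 v4132 v9582 v3129 v3142 v3089 v4087 w2442 v8883 v3817 v4228 w2525 v9586 v4055 v3303 v3340 w2343 w3556 v425 v3006 v2994 v4525 v3090 w4083 v3969 v4116 w4078 v3975 v3284 w2551 w2527 v4229 v3818 v3288 w6308 v2996 v3341 v9274 w4215 w6013 v3953 v3797 w4794 w8543 w4315 v2993 w2549 v4115 v3283 v3287 w6307 w4213 w6012 w937 v9585 v5274 v5268 v2779 v4027 v9519 v4167 v9446 w4283 w4788 v2992 v3813 v3811 w3464 v4208 v9494 v4037 w2461 v4066 v1243 v1242 v9581 v4209 v2806 w3788 v2641 v2640 w4723 v3007 v5269 v1150 v2627 v328 v9612 v2615 w876 v9583 v498 v9306 v9527 v2713 v8144 v5519 v2580 w5838 w3582 v4084 v4082 v9608 w8935 v4204 w694 w688 w714 v9599 w3438 w3039 v8445 v9047 w5325 w5735 w4743 v7442 v9502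
theorem v9614 : PV l9614 := r9614 v7703 v9243 v2991 v9244 w2527 v4229 v3818 v3090 v4525 v3008 v1218 v1149 v428 v1412 v4087 w2442 v8883 v2989 v3222 v3849 v3817 v4228 w2525 v9586 v4055 v425 w4078 v3975 v3288 w6308 v3287 w6307 v3826 w4701 v5622 v4221 v3303 v2779 v4027 v9519 v5035 v2628 v4129 v9272 v3000 v3830 v3113 v3111 v3114 v9273 v404 v2808 v2990 v9248 v2814 v2250 v1210 w4710 v2809 v4238 v4132 v9582 v3129 v3284 v3283 w4083 v3969 v9585 v5274 v5268 v2994 w2551 v2993 w2549 v3089 v1243 v4116 v4115 w2343 v3142 v2641 w3556 v3006 v3341 v3340 v2996 v9274 w4213 w4215 w6012 w6013 w937 v3953 v3797 w4794 w4315 w8543 v4167 v9446 v9613 v4775 v3423 v501 v9424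
theorem v9615 : PV l9615 := r9615 v2628 v9243 v3008 v2991 v9244 v1218 v1149 v3826 w4701 v5622 w3464 v4221 v4208 v9494 v1210 w4710 v4238 v2641 v4219 v3830 v425 v3007 v3006 v428 v1412 v3935 v476 v2992 v2477 v4280 v4260 w695 v2269 v9607 v9484 v9592 v9428
theorem v9616 : PV l9616 := r9616 v1698 v9525 w5735
theorem v9617 : PV l9617 := r9617 v2708 v1243 v1242 v473 v476 v2989 v2988 v2992 v4204 w694 w688 w714 v9594 v9616 w3438 w3039 w3015 w3756 v8445 w5308 w5735 w4743 w4757 v7293 v2550 v2552 v3898 v4920 v3592 v3591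
theorem v9618 : PV l9618 := r9618 v2712 v9243 v2991 v9244 v2994 v5135 w4788 v3008 v1218 v1149 v3826 w4701 v5622 v4221 v1210 w4710 v4238 v4167 v2628 w3464 v4208 v9494 v5274 v5268 v1242 v4209 v2641 v2640 v4219 v3830 v2989 v3222 v3849 v425 v3007 v3006 v428 v5269 v1412 v1150 v3935 v476 v2627 v2992 v2556 v8459 v9303 v9611 v8906 w5838 w801 v9617 v2477 v4280 v4260 v2269 w690 v9615 v9607 v9536 v9542
theorem v9619 : PV l9619 := r9619 v7703 v3008 v9243 v2991 v9244 v1218 v1149 v3826 w4701 v5622 v4221 v1210 w4710 v9272 v3000 v428 v1412 v2989 v3222 v3849 v3830 v3113 v3111 v3114 v9273 v2990 v404 v9248 v2809 v4238 v2628 v5035 v4129 v2808 v2814 v2250 v4132 v9582 w2343 w3556 v3340 v425 v3006 v1277 v4167 v5274 v9581 v3142 v2806 w3788 v2641 v2640 v3007 v2712 v2603 v9618 v9596 w5407 v5515 v7458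
theorem v9620 : PV l9620 := r9620 v2556 v9527 v9437 w2924 v2597 w6616 w6363
theorem v9621 : PV l9621 := r9621 v9620 w5101 v6124 v2617 w6616 w2924
theorem v9622 : PV l9622 := r9622 v1243 v1698 v9599 w5325 w5735 v9529
theorem v9623 : PV l9623 := r9623 v2708 v2992 v4204 w694 w688 w714 v9622 v2850 w3039 w3756 v8445 w5317 w5325 w5735 w4757 v9528 v5708 v2611 v3866 v6793
theorem v9624 : PV l9624 := r9624 v7703 v9243 v2991 v9244 v5035 v2628 v3008 v1218 v428 v1412 v1149 v3826 w4701 v4129 v9272 v3000 v2989 v3222 v3849 v3830 v5622 v3113 v3111 v3114 v9273 v404 v2808 v2990 v9248 v2814 v2250 v4221 v1210 w4710 v2809 v4238 v4132 v9582 v3142 v2994 v5135 w4788 v3129 v2996 v3763 v3927 w2343 w3556 v3340 v425 v3006 v1277 v4167 w3464 v4208 v9494 v5274 v5268 v1243 v1242 v9581 v4209 v2806 w3788 v2641 v2640 v4219 w4723 v3007 v5269 v1150 v3935 v476 v2627 v2992 v328 v9619 v2615 w876 v9621 v2713 v8571 v498 v9306 v8144 v5519 w5838 v8729 w3582 v4084 v4082 w9122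 w8935 v9623 v2477 v4280 v4260 v2269 w690 v9615 v9607 v9542
theorem v9625 : PV l9625 := r9625 v3927 v7703 v3008 v9243 v2991 v9244 v1218 v1149 v3826 w4701 v5622 v4221 v1210 w4710 v9272 v3000 v428 v1412 v2989 v3222 v3849 v3830 v3113 v3111 v3114 v9273 v2990 v404 v9248 v2809 v4238 v2628 v5035 v4129 v2808 v2814 v2250 v4132 v9582 w2343 w3556 v3340 v425 v3006 v1277 v4167 v5274 v1243 v3142 v3129 v2641 v9624 v4775 v3423 v501 v9424
theorem v9626 : PV l9626 := r9626 v9585 v5268 v9243 v7703 v2989 w2525 v3089 v1242 v4228 v4525 v3817 v5035 v2628 v3008 v2991 v9244 v1218 v428 v1412 v1149 v3826 w4701 v4129 v9272 v3000 v3222 v3849 v3830 v5622 v3113 v3111 v3114 v9273 v404 v2808 v2990 v9248 v2814 v2250 v4221 v1210 w4710 v2809 v4238 v4132 v9582 v9581 w2343 v3142 v3129 v2641 w3556 v425 v3006 v5269 v3340 v2994 v328 w4283 v4087 w2442 v8883 v3303 v9586 v2779 v4055 v4066 v4027 w2461 v4037 v9519 v9614 w4778 w4301 w4781 v1268 v1267 v1277 v9252 v5135 v4167 w4315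 v9625 v3442 v4771 v501 v9548 v2615 w876 v8571 v9621
theorem v9627 : PV l9627 := r9627 v9243 v2991 v9244 v3008 v1218 v1149 v428 v5269 v425 v3007 v3826 w4701 v5622 v4221 v2641 v2992 v3811 v5274 v9462 v2712 v2628 w3464 v4208 v9494 v3813 v5268 v1242 v1210 w4710 v4238 v4209 v2640 v3830 v1412 v1150 v473 v2627 v2988 v2556 v9303 v9611 v8906 w5838 v2708 v9609 w801 v9608 v9594
theorem v9628 : PV l9628 := r9628 v7703 v328 v2713 v9451 v9596 v8383 v1267 w5819 v9435 w2924 v3066 w6497 v8687 v4086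
theorem v9629 : PV l9629 := r9629 v7703 v9272 v2993 v5035 v2628 v3008 v9243 v2991 v9244 v1218 v428 v1412 v1149 v3826 w4701 v4129 v3000 v2989 v3222 v3849 v3830 v5622 v3113 v3111 v3114 v9273 v404 v2808 v2990 v9248 v2814 v2250 v4221 v1210 w4710 v2809 v4238 v4132 v9582 v3142 v4525 v4228 v3817 w2525 v2992 v9626 v2757 v3811 v7426 w3991 v4056 v3090 v328 w2488 v6625 v411 v4055 v3969 v425 v3006 w2549 v4115 v2996 v3341 v3129 v9274 w4213 v3089 v9585 v8858 v3283 w6012 w937 v2994 v4116 v3284 w2551 w2527 v4229 v3818 v3288 w6308 w4215 w6013 v3953 v3797 v2750 w6519 v3340 w2343 w3556 w4794 w8543 w4796 v3763 v3303 w4002 v4027 v9519 w2461 v3085 v4066 v4219 v2640 v2641 v5268 v9400 v5274 v1242 v9581 v2806 w3788 v3007 v5269 v421 v2603 v9462 v9628 v8462 v501 v4775 v9627 w4291 v1268 v1267 v9595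
theorem v9630 : PV l9630 := r9630 v7703 v3008 v1218 v425 v3006 v428 v5269 v1210 v328 v2556 v9620 v9621 v8633
theorem v9631 : PV l9631 := r9631 v2713 v2628 v9243 v7703 v3008 v2991 v9244 v1218 v1149 v3826 w4701 v5622 w3464 v4221 v4208 v9494 v2992 v3813 v5268 v1242 v1210 w4710 v4238 v4209 v2641 v2640 v428 w4723 v3830 v2989 v3222 v3849 v425 v3007 v5269 v1412 v1150 v476 v2627 v8144 v5519 w5838 v8729 w3582 v9608 v4084 v4082 w8935 v4204 w694 w688 w714 v9599 v9047 v2850 w3039 v8445 v3160 v7442 w5317 w5325 v3545 v6793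
theorem v9632 : PV l9632 := r9632 v428 v1412 v7703 v3008 v1149 v1150 v6261 v5514 v8564 v4084
theorem v9633 : PV l9633 := r9633 v7703 v9272 v2993 v5035 v2628 v3008 v9243 v2991 v9244 v1218 v428 v1412 v1149 v3826 w4701 v4129 v3000 v2989 v3222 v3849 v3830 v5622 v3113 v3111 v3114 v9273 v404 v2808 v2990 v9248 v2814 v2250 v4221 v1210 w4710 v2809 v4238 v4132 v9582 v3142 v4525 v4228 v3817 w2525 v2992 v9626 v2757 v3811 v7426 w3991 v4056 v3090 v328 w2488 v6625 v411 v4055 v3969 v425 v3006 w2549 v4115 v2996 v3341 v3129 v9274 w4213 v3089 v9585 v8858 v3283 w6012 w937 v2994 v4116 v3284 w2551 w2527 v4229 v3818 v3288 w6308 w4215 w6013 v3953 v3797 v2750 w6519 w4796 v3303 w4002 v4027 v9519 w2461 v3085 v4066 v4219 v2640 v2641 v5268 v9400 v3813 v5274 v1243 v9581 v2806 w3788 v9629 v2615 w876 v9583 v501 v496 v4775 v9630 v2713 v9632 v8144 v5519 v9631 v8729 w3582 w4291 v4084 w9122 v9600 v4838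
theorem v9634 : PV l9634 := r9634 v4229 v4228 v5035 v4116 v4115 v4525 v3818 v3817 v2628 v7703 v3008 v9243 v2991 v9244 v1218 v428 v1412 v1149 v3826 w4701 v4129 v9272 v3000 v2989 v3222 v3849 v3830 v5622 v3113 v3111 v3114 v9273 v404 v2808 v2990 v9248 v2814 v2250 v4221 v1210 w4710 v2809 v4238 v4132 v9582 w2343 v3142 v3129 w3556 v425 v3006 v3341 v3340 v2996 v2994 v2993 v2992 v328 v3089 v3090 w2488 w2527 w2525 w2549 w2551 v9585 v5268 v5274 v9626 v2757 v3811 v9274 v6625 v7426 w4213 v411 w4002 w3991 v4056 v4055 v3303 v8858 v3969 v4027 v3288 v3283 v3284 v9519 w6308 w6012 w4215 w937 w6013 v3953 v3797 w4794 v2750 w8543 w6519 v9633 v9446 v4771 w4911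
theorem v9635 : PV l9635 := r9635 v4525 v5034 v425 v428 v9377 v9516 w4083 w4078 v4053 v3308 v3974 v3048 v4984 v7426 w3988 w4002 w5915 v3091 v5267 w2463 v4026 v4017 v4022
theorem v9636 : PV l9636 := r9636 v4233 v4229 v4228 v3821 v3818 v3817 v5035 v2628 v7703 v3008 v9243 v2991 v9244 v1218 v428 v1412 v1149 v3826 w4701 v4129 v9272 v3000 v2989 v3222 v3849 v3830 v5622 v3113 v3111 v3114 v9273 v404 v2808 v2990 v9248 v2814 v2250 v4221 v1210 w4710 v2809 v4238 v4132 v9582 v9581 v4219 v425 v3006 v421 v2992 v1242 v9634 v9635 v3811 v3808 w4481 w4301 v2757 v5274 v1247 v9521 w2460 v9558 v9520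
theorem v9637 : PV l9637 := r9637 v7703 v9243 v2991 v9244 v3008 v1218 v1149 v428 v5269 v425 v3007 v3826 w4701 v5622 v4221 v2641 v2992 v3811 w4389 v5274 v1138 v9462 v2712 v1210 w4710 v9272 v3000 v1412 v2989 v3222 v3849 v3830 v3113 v3111 v3114 v9273 v2990 v404 v9248 v2809 v4238 v4167 v2628 w3464 v4208 v9494 v3813 v5268 v1137 v5035 v4129 v2808 v2814 v2250 v4132 v9582 v9581 v3142 v3129 v4209 v2806 w3788 v2640 v1150 v473 v2627 v2988 v2554 v2556 v8462 v8906 v498 v2571 w801 v3431 v3435 v4598 v8902 v2708 v9608 v4204 w694 w688 w714 v9588 w3438 w3015 w3010 w3756 v8445 w5298 w5735 w4743 v9479 v5510 v7293 v2606 v2608 v5564 v4945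
theorem v9638 : PV l9638 := r9638 v9628 v8383 v3435 w5826
theorem v9639 : PV l9639 := r9639 v7703 v3008 v9243 v2991 v9244 v1218 v1149 v3826 w4701 v5622 v4221 v1210 w4710 v9272 v3000 v428 v1412 v2989 v3222 v3849 v3830 v3113 v3111 v3114 v9273 v2990 v404 v9248 v2809 v4238 v3340 v2628 v5035 v4129 v2808 v2814 v2250 v4132 v9582 w2343 w3556 v425 v3006 v2994 v3142 v4525 v4228 v3817 w2525 v2992 v3811 v7426 w3991 v4056 v4055 v3090 v328 w2488 v6625 v411 v3969 v4116 v3129 v3089 v9636 w4389 v8858 v3284 w2551 v2996 v3341 v9274 w2527 v4229 v3818 v3288 w6308 w4215 w6013 v3953 v3797 w4794 w8543 v4167 v3763 v2993 w2549 v4115 w4213 v3283 w6012 w937 v3303 w4002 v4027 v9519 w2461 v3085 v4066 v4219 v2640 v2641 v5268 v9400 v5274 v1138 v3007 v5269 v421 v2603 v9462 v9637 v9638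
theorem v9640 : PV l9640 := r9640 v1698 w5325 w5735 v9503
theorem v9641 : PV l9641 := r9641 v2628 v9243 v3008 v2991 v9244 v1218 v1149 v3826 w4701 v5622 w3464 v4221 v4208 v9494 v2992 v3811 w4389 v5274 v1138 v1210 w4710 v4238 v4209 v2641 v4219 v3830 v425 v3007 v3006 v428 v1412 v3935 v476 v2477 v4280 v4260 w690 v9598 v9607 v9534 w3663 v9441
theorem v9642 : PV l9642 := r9642 v7703 v3008 v9243 v2991 v9244 v1218 v1149 v3826 w4701 v5622 v4221 v1210 w4710 v9272 v3000 v428 v1412 v2989 v3222 v3849 v3830 v3113 v3111 v3114 v9273 v2990 v404 v9248 v2809 v4238 v3340 v2628 v5035 v4129 v2808 v2814 v2250 v4132 v9582 w2343 w3556 v425 v3006 v2994 v3142 v4525 v4228 v3817 w2525 v2992 v3811 v7426 w3991 v4056 v4055 v3090 v328 w2488 v6625 v411 v3969 v4116 v3129 v3089 v9636 w4389 v8858 v3284 w2551 v2996 v3341 v9274 w2527 v4229 v3818 v3288 w6308 w4215 w6013 v3953 v3797 w4794 w8543 v4167 v3763 v2993 w2549 v4115 w4213 v3283 w6012 w937 w3464 v4208 v3303 w4002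 v4027 v9519 v9494 w2461 v3085 v4066 v4219 v2640 v2641 v5268 v9400 v3813 v5274 v1138 v1137 v9581 v4209 v2806 w3788 v3007 v5269 v1150 v421 v473 v2627 v2988 v2712 v2603 v9462 v9639 v9638 w4291 w4764 v2554 v2556 v8462 v1268 v1267 v8906 v498 v2571 w801 v3431 v3435 v4598 v8902 v2708 v9641 w694 w688 w714 v9588 w3438 w3010 w3756 v8445 w5298 w5735 v9479 v7293
theorem v9643 : PV l9643 := r9643 v2992 v4204 w694 w688 w714 v9640 w3438 w3039 v8445 v9047 w5325 w5735 w4743 v7442 v9502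
theorem v9644 : PV l9644 := r9644 v7703 v9272 v2994 w2551 v9243 v2989 w2525 v2991 w2527 v328 w2488 v3090 v3089 v3008 v9244 v1218 v9636 w4389 v5274 v5268 v1138 v1137 v4229 v4228 v5035 v4116 v4525 v3818 v3817 v2628 v428 v1412 v1149 v3826 w4701 v4129 v3000 v3222 v3849 v3830 v5622 v3113 v3111 v3114 v9273 v404 v2808 v2990 v9248 v2814 v2250 v4221 v1210 w4710 v2809 v4238 v4132 v9582 v9581 w2343 v3142 v3129 v4209 v2806 w3788 v4208 v2641 v2640 w3556 v4219 w3464 w4723 v425 v3007 v3006 v5269 v1150 v3341 v3340 v2627 v2996 v2992 v3811 v3813 v9274 v9400 v6625 v7426 v411 w4002 w3991 v4056 v3303 v4055 v4066 v8858 v3969 v4027 v3288 v3284 v3085 w2461 v9519 w6308 v9494 w4215 w6013 v3953 v3797 w4796 w4794 w8543 v4167 v9642 v2615 w876 v9583 v498 v496 v3431 v3435 v9630 v2713 v9632 v8144 v5519 w5838 v8729 w3582 v4084 v4082 w9122 w8935 v9643 v9608 v9598 w4291 v1268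
theorem v9645 : PV l9645 := r9645 v9588 w3438 w3010 w3756 v8445 w5298 w5735 v9479 v7293
theorem v9646 : PV l9646 := r9646 v2708 v473 v476 v2989 v2988 v2992 v4204 w694 w688 w714 v9645 v9616 w3438 w3039 w3015 w3756 v8445 w5308 w5735 w4743 w4757 v7293 v2550 v2552 v3898 v4920 v3592 v3591
theorem v9647 : PV l9647 := r9647 v2712 v7703 v3008 v9243 v2991 v9244 v1218 v1149 v3826 w4701 v5622 v4221 v1210 w4710 v9272 v3000 v428 v1412 v2989 v3222 v3849 v3830 v3113 v3111 v3114 v9273 v2990 v404 v9248 v2809 v4238 v2628 v5035 v4129 v2808 v2814 v2250 v4132 v9582 w2343 w3556 v3340 v425 v3006 v1277 v4167 w3464 v4208 v9494 w4767 w4389 v5274 v5268 v1138 v1137 v9581 v3142 v3129 v4209 v2806 w3788 v2641 v2640 v4219 v3007 v5269 v1150 v3935 v476 v2627 v2992 v2554 v2556 v8459 v8462 v8906 v498 v2571 w801 v3431 v3435 v4598 v8902 v9646 v2477 v4280 v4260 v2269 w690 v9615 v9607 v9536 v9542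
theorem v9648 : PV l9648 := r9648 v7703 v3008 v9243 v2991 v9244 v1218 v1149 v3826 w4701 v5622 v4221 v1210 w4710 v9272 v3000 v428 v1412 v2989 v3222 v3849 v3830 v3113 v3111 v3114 v9273 v2990 v404 v9248 v2809 v4238 v2628 v5035 v4129 v2808 v2814 v2250 v4132 v9582 w2343 w3556 v3340 v425 v3006 v1277 v4167 w4389 v5274 v2641 v2640 v3007 v2712 v2603 v9647 v9596 w5407 v5515 v7458
theorem v9649 : PV l9649 := r9649 v1698 v9640 w5325 w5735 v9529
theorem v9650 : PV l9650 := r9650 v2708 v2992 v4204 w694 w688 w714 v9649 v2850 w3039 w3756 v8445 w5317 w5325 w5735 w4757 v9555 v5708 v2611 v3866 v6793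
theorem v9651 : PV l9651 := r9651 v7703 v3008 v9243 v2991 v9244 v1218 v9636 w4389 v5274 v5268 v1138 v1137 v4525 v3818 v3817 v5035 v2628 v428 v1412 v1149 v3826 w4701 v4129 v9272 v3000 v2989 v3222 v3849 v3830 v5622 v3113 v3111 v3114 v9273 v404 v2808 v2990 v9248 v2814 v2250 v4221 v1210 w4710 v2809 v4238 v4132 v9582 v9581 w2343 v3142 v3129 v4209 v2806 w3788 v4208 v2641 v2640 w3556 v4219 w3464 w4723 v425 v3007 v3006 v5269 v1150 v3340 v3935 v476 v2627 v2996 v2994 v2992 v328 v3089 v9644 v3816 v3808 w4778 w4301 v2757 w4781 w4767 w4770 v1247 v9410 v9521 v1268 v1267 v4087 w2443 v9494 v1277 v9252 v5135 v8883 v4167 v3927 v3763 w4796 w4315 v9648 v2615 w876 v9621 v2713 v8571 v498 v3431 v3435 v9306 v8144 v5519 w5838 v8729 w3582 v4084 v4082 w9122 w8935 v9650 v2477 v4280 v4260 v2269 w690 v9615 v9607 v9542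
theorem v9652 : PV l9652 := r9652 v9377 v9516 v9635 v4053 v4054
theorem v9653 : PV l9653 := r9653 v3821 v3818 v3817 v5035 v2628 v7703 v3008 v9243 v2991 v9244 v1218 v428 v1412 v1149 v3826 w4701 v4129 v9272 v3000 v2989 v3222 v3849 v3830 v5622 v3113 v3111 v3114 v9273 v404 v2808 v2990 v9248 v2814 v2250 v4221 v1210 w4710 v2809 v4238 v4132 v9582 v9581 v4219 v425 v3006 v421 v2992 v4228 v4229 v4233 v9636 v1138 w4389 v5274 v9651 v9652 v3811 v3808 w4301 v2757 v1247 v9521 w2460 v9558 v3303 v3304 v9520 v8887 v4054 w3888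
theorem v9654 : PV l9654 := r9654 v2628 v5035 v7703 v3008 v9243 v2991 v9244 v1218 v428 v1412 v1149 v3826 w4701 v4129 v9272 v3000 v2989 v3222 v3849 v3830 v5622 v3113 v3111 v3114 v9273 v404 v2808 v2990 v9248 v2814 v2250 v4221 v1210 w4710 v2809 v4238 v4132 v9582 w2343 v3142 v3129 v2641 v2640 w3556 v425 v3007 v3006 v5269 v421 v3340 v2994 v3817 v3820 v9653 w26 v4433 v9563 v5268 v3357 v3384 v2771 w4389 w5401 w4887 w4860 v1242 v9562 w8543 v6257 v4167 v3927 v4189 w5187 v9277 v2712 v2603 v9584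
theorem v9655 : PV l9655 := r9655 v3008 v1218 v425 v3006 v428 v1412 v8113 v9382
theorem v9656 : PV l9656 := r9656 v5029 v5027
theorem v9657 : PV l9657 := r9657 v9656 v3303 v8873 v9384 v5178 v2779 v4087 v4735 v3075
theorem v9658 : PV l9658 := r9658 v5034 v4763 v4759 v8083 v8738 w3896 v4748
theorem v9659 : PV l9659 := r9659 v4525 v5034 v4763 v3308 v4984 v7859 w4083 v5030
theorem v9660 : PV l9660 := r9660 v3008 v1218 v425 v3006 v428 v1412 v9243 v2992 v4228 v9657 v3089 v3090 v8113 v9659 v9658 v5274 w4481 w4389 v3811 v9655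
theorem v9661 : PV l9661 := r9661 v328 w2488 v3090 v3008 v1218 v425 v3006 v1149 v1150 v421 v9574 v9317 v9387 v9573 v9569 w4240 v9369 v5268
theorem v9662 : PV l9662 := r9662 v3008 v1218 v425 v3006 v421 v428 v328 v3090 w2488 v9661 v1243 v1137 w4389 v9579 v5268 v9317 v9580
theorem v9663 : PV l9663 := r9663 v3308 v4763 v3006 v9391 v9388 v9575 w4068 v2789 w5897 v3095 v5267 v713 v4998 v4533 v4542 w3866 w3872
theorem v9664 : PV l9664 := r9664 v3308 v4763 v9243 v2992 v3813 v4547 v3816 w4301 v2757 v8946 v1247 v1268 w3896 v3095 v713 v4544 v7859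
theorem v9665 : PV l9665 := r9665 v9243 v2641 v2640 v4129 v7703 v3008 v2991 v9244 v1218 v1149 v3826 w4701 v5622 v4221 v3830 v1210 w4710 v2989 v3222 v3849 v425 v3006 v428 v1412 v1150 v2628 v9272 v3000 v2990 v5035 v3113 v3111 v3114 v9273 v404 v2814 v2808 v9248 v2250 v2809 v4238 v4132 v9582 v9581 v9654 v4763 v9660 w26 v9662 v9389 v3308 v9664 v9388 v9575 v9663 w4091 w4083 w4072 v2789 v1243 w5897 v1137 v3095 v5267 v713 v9405 v4993 v4533 v4542 w3866 w3872
theorem v9666 : PV l9666 := r9666 v7703 v3006 v9272 v3000 v2995 v9243 v2989 v2987 v5035 v3217 v2633 v4835 w4904 w4903 v4839 v3379 v4872 v2806 v5590 w4515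
theorem v9667 : PV l9667 := r9667 v3935 v9243 v7703 v2991 v3008 v9244 v1218 v1210 v428 v425 v1149 v3826 w4710 w4701 v3830 w4723 v5622 v4221 v9666 v9665 v5039 v4238 v4245
theorem v9668 : PV l9668 := r9668 v2556 v9285 v8655
theorem v9669 : PV l9669 := r9669 v3370 v2603 v8462 v9451 v8364 w5512
theorem v9670 : PV l9670 := r9670 v3370 v2615 v9306 v8562 w5823 v2556 v8636 v9437 v4084 v2544 w8907
theorem v9671 : PV l9671 := r9671 v7703 v2996 v4860 v3927 v3370 v3303 v2779 v4055 v4027 v4025 v9670 v2603 v9669 v9668 v9451 v8364 w5512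
theorem v9672 : PV l9672 := r9672 v4087 w2442 v9671 v4059 w3888 w6297 w6227
theorem v9673 : PV l9673 := r9673 v7703 v2996 v4860 v3927 v3370 v9670 v2603 v9669 v9668 v9451 v8364 w5512
theorem v9674 : PV l9674 := r9674 v3370 v2615 v9306 v8562 w5823 v2556 v8636 v4084 v2561 w8907 v2544
theorem v9675 : PV l9675 := r9675 v3303 v4059 v2786 v4031 v4034
theorem v9676 : PV l9676 := r9676 v4055 v2713 v3282 v8890 w5513 v8106 v5518
theorem v9677 : PV l9677 := r9677 v3303 v7703 v3000 w2555 w2563 v3090 v5035 v4115 v4525 w5169 v3008 v4970 w4393 w4492 v1145 w4498 v5269 v1412 w4495 v3007 v3006 v1243 v1242 v2996 v2993 v3129 v3142 w2343 w8834 w8543 w5488 w5494 w4970 w4979 w4934 w5362 w5356 v3370 v4860 v3927 w6519 v9672 v9674 v2603 v9675 w4078 v4055 v3975 v9673 v9519 v4027 v4031 v9676 v8462 v9668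
theorem v9678 : PV l9678 := r9678 w8462 v2316 w8773 w5761 v1779 w8775
theorem v9679 : PV l9679 := r9679 v2556 v8717 v8459 v4084 v4598 v7757
theorem v9680 : PV l9680 := r9680 w5823 v8381 v2574 v2582
theorem v9681 : PV l9681 := r9681 v3370 v7703 v1145 v2603 v9679 v9680 w5101 v9278 v8363 w6497 w6714
theorem v9682 : PV l9682 := r9682 w876 v8586 w6498 w2568
theorem v9683 : PV l9683 := r9683 v2561 w6363 w2924
theorem v9684 : PV l9684 := r9684 v7703 v328 w2488 v3370 v3006 v2615 v8579 v2556 v8633 w4571 v9683 w6498 v9682 w6713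
theorem v9685 : PV l9685 := r9685 v2556 v8717 v8655 v4084 v4598 v7757
theorem v9686 : PV l9686 := r9686 v3436 v4087 w2442 v3303 v3370 v7703 v1145 v1146 v3007 v2779 v4055 v4027 v4025 v4037 v9684 v2603 v9681 v9685 v9680 w5101 v9278 v8363 w6497 w6714
theorem v9687 : PV l9687 := r9687 v7703 v328 w2488 v3129 w4495 v3006 v2996 w8834 w4970 v4860 v3927 w2343 w8543 w5356 w5362 w4979 w5494 w5488 v3142 v3008 v4970 w4703 w5169 w4393 w4498 v5269 v1412 v3007 v1243 v1242 w4492 v2993 v9677 w4679 w4302 w4783 v9672 w8875 v9686 v4059 w3938 v6625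
theorem v9688 : PV l9688 := r9688 v3308 v5034 v8887 v684 v4051 v4049
theorem v9689 : PV l9689 := r9689 w5512 v8364
theorem v9690 : PV l9690 := r9690 v7703 v328 w2488 v3090 v3089 v4525 v5034 v3370 v2993 v5035 v3308 v4056 v8710 v3993 v4061 w4855 v412 w6519 v4984 v9674 v2603 v9688 v9668 v2713 v9689 w5823 v9680 v8380 v5525 w3582 v5534
theorem v9691 : PV l9691 := r9691 v3370 v2713 v9689 w5823 v9680 v8106 v5518
theorem v9692 : PV l9692 := r9692 v3370 v9674 v2603 v9691 v8462 v9668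
theorem v9693 : PV l9693 := r9693 v3370 v7703 v1145 v328 v2603 v9679 v2713 v9680 w5101 v8363 v8362 v4084 v9140 v7659
theorem v9694 : PV l9694 := r9694 v3370 v7703 v3006 v328 v2615 v8579 v2556 v8633 w4571 v9683 v6172 v5666 w6374 w2924
theorem v9695 : PV l9695 := r9695 v7703 v3006 v3007 v1145 v3927 v9690 v3303 v3370 v5035 v2995 v4872 v1146 v2993 v328 v4055 w4193 v9692 v3436 v4790 w6519 w4854 w4026 v4027 v4037 v4025 v9694 v2603 v9693 v9685 v2713 v9680 w5101 v8363 v8362 v4084 v9140 v7659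
theorem v9696 : PV l9696 := r9696 v2603 v3370 v5035 v2713 v9689 w5823 v9680 v8380 v5518 w3582 v5534
theorem v9697 : PV l9697 := r9697 v3370 v9674 v2603 v9696 v8462 v9668
theorem v9698 : PV l9698 := r9698 w8834 w5494 v7703 v2993 v3142 v3129 w4495 v3006 v2996 w4970 v4860 v3927 w4492 v1145 w5169 v1242 v1243 v3007 w4498 v1412 v5269 v3008 v4970 w4393 w5488 w4979 w2343 w8543 w5362 w5356 v9697 w6519 w4854 v328 w2488 v9687 v9695 v4059 w3938 v6625
theorem v9699 : PV l9699 := r9699 w4498 v1412 w8834 w4970 v7703 v2993 v3142 v3129 w4495 v3006 v2996 v4860 v3927 w4492 v1145 w5169 v1242 v1243 v3007 v5269 v3008 v4970 w4393 w5488 w5494 w4979 w2343 w8543 w5362 w5356 v9697 w6519 w4344 v4087 w4693 w4943 w4318 v3436 v3303 v9698 v3075 w2449 v8096 v4029 v4025 v8553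
theorem v9700 : PV l9700 := r9700 v3308 v5034 v8887 v1073 w4067 w3900 w3904 v3095 v8686 v4993 v4025 v4017
theorem v9701 : PV l9701 := r9701 w4498 v1412 w8834 w4970 v7703 v2993 v3142 v3129 w4495 v3006 v2996 v4860 v3927 w4492 v1145 w5169 v1242 v1243 v3007 v5269 v3008 v4970 w4393 w5488 w5494 w4979 w2343 w8543 w5362 w5356 v9697 w6519 w4344 v4087 w4693 w4943 w4318 v9699 v9690 v3075 w2463 w2449 v9700 v8713
theorem v9702 : PV l9702 := r9702 v5038 v3935 v3222 v7703 v3008 v4970 w4693 v2950 v5208 v2836 v2949 w4492 v1145 w4498 v5269 w4495 v3007 w5169 v1243 v1242 v4428 v4135 v3341 v3340 v328 v3817 v9701 v4421 v6566 v9395 v8827 v8866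
theorem v9703 : PV l9703 := r9703 v1412 v3089 v3090 v9658 v9659
theorem v9704 : PV l9704 := r9704 v9703 v8873 v3075 v5027 v8747 w3907 v5017
theorem v9705 : PV l9705 := r9705 v4763 w4072 v4548 v4512 v4993
theorem v9706 : PV l9706 := r9706 v328 v3089 v3090 w2488 v9569 v3308 v9705 v4550 w3938 v4520
theorem v9707 : PV l9707 := r9707 v3129 v7703 w4495 v3006 v2996 v5038 v3935 v3222 v3008 v4970 w4693 v2950 v5208 v2836 v3341 v4135 w8834 w4970 v4860 v3927 v3340 v4428 w2343 w8543 w5356 w5362 w4979 w4943 w5494 w5488 v3142 w5169 w4393 w4492 v1145 v1146 w4498 v5269 v1412 v3007 v1243 v1242 v2993 v9697 v4790 w6519 v3430 w4854 w4344 w4318 v4087 v9702 v9704 v9706 v9575 v3075 v5672 v3303 v4547 v4549 w3907 v4535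
theorem v9708 : PV l9708 := r9708 v3129 v7703 w4495 v3006 v2996 v5038 v3935 v3222 v3008 v4970 w4693 v2950 v5208 v2836 v3341 v4135 w8834 w4970 v4860 v3927 v3340 v4428 w3556 w2343 w8543 w5356 w5362 w4979 w5494 w5488 v3142 w5169 w4393 w4492 v1145 w4498 v5269 v1412 v3007 v1243 v1242 v5037 v9707 v8373 v9674 v2712 v2603 v9696 v2554 v2556 v7720 v8651 v4084 v8727 v8905
theorem v9709 : PV l9709 := r9709 v2628 v3222 v7703 v9272 v2996 v9243 v2989 v2992 v3008 v3935 v3341 v3342 v9667 v5037 v5038 v4135 v4136 v5623 v2640 v2641 v5636 v6670 v3824 v4796 w4495 w4498 w4492 v3825 v3823 v4970 v3006 v1412 v1145 w4693 v2950 v5208 v2836 v3147 w5341 v9678 v3129 w8834 w5488 w4970 w5485 v4860 v9708 v3368 v4769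
theorem v9710 : PV l9710 := r9710 w8585 w8574
theorem v9711 : PV l9711 := r9711 v5374 v5344 v5644 v5268 v9243 v2992 v5343 w4481 v4893 v2677 v2676 v1242 w4395 v4890 v4967 v2988 v5412 v5338
theorem v9712 : PV l9712 := r9712 v7703 v2994 v5795 v9252
theorem v9713 : PV l9713 := r9713 v4525 w4078 w4065 v4055 v3976 v3996
theorem v9714 : PV l9714 := r9714 w4574 w5823 v7977 v8384
theorem v9715 : PV l9715 := r9715 v7703 v328 v2556 v9714 w5514 v9159
theorem v9716 : PV l9716 := r9716 v3370 v2603 v9715 v9689 w4574 w5823 v8243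
theorem v9717 : PV l9717 := r9717 v3422 v3370 v7703 v328 v9716 v2615 v7973 v2556 v8638 w4574 v9683 v8634
theorem v9718 : PV l9718 := r9718 v9713 v8855
theorem v9719 : PV l9719 := r9719 v7703 v328 w2488 v3090 v4525 v1138 v1137 w5196 w5197 v3007 w4244 w4401 v9717 v9718 v3308 v4060 v3976 w4078
theorem v9720 : PV l9720 := r9720 v5034 w3951 v4059 v4704 v3986
theorem v9721 : PV l9721 := r9721 v3303 v9720 v4055 v2779 v6293 v4025
theorem v9722 : PV l9722 := r9722 v5034 v3303 v8096 v8083 v8479 v8851 v8685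
theorem v9723 : PV l9723 := r9723 v7703 v3007 w4088 v9717 v5690 v4029
theorem v9724 : PV l9724 := r9724 v5034 v1242 v1138 v1137 w5196 w5197 v1412 v4087 v5269 v3075 w2463 w2449 v9722 v3308 v4054 w3946 w3964 w3888 v3991 w6166 w2444 v9723 w4251 w3951 w3896 v4995 v4049
theorem v9725 : PV l9725 := r9725 w5823 v8383
theorem v9726 : PV l9726 := r9726 v3370 v2603 v9715 v9725 w5514 v8368
theorem v9727 : PV l9727 := r9727 v3927 v3370 v7703 v328 v9726 v2614 v2615 v8565 v2556 v8638 w4575 w5823 v9683 v8636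
theorem v9728 : PV l9728 := r9728 v1242 w5197 v7703 v4967 v1412 v3370 v4087 v2808 v9712 v4767 v3927 w5196 v3422 v1138 v5269 v5035 v3000 v5685 v4525 v9724 v3089 v3090 v9719 v9727 v9721 v4060 w4083 v3970 v4984
theorem v9729 : PV l9729 := r9729 v3303 w2488 v4075 v9098 v2779 v7053
theorem v9730 : PV l9730 := r9730 v3303 v9729 v3075 v6290 v2779 v4039 v4070
theorem v9731 : PV l9731 := r9731 v7703 v4967 v1412 v1242 v5268 v5035 v3000 v5685 w4543 w5196 v3422 v5643 v4087 w5197 v3370 v2808 v9712 v4189 v3008 w4389 v1217 v1218 w4395 v5269 v328 v9728 v9730 v3308 v702 w3888 w3900 w5929 v3082 v6290 v5267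
theorem v9732 : PV l9732 := r9732 v4967 v1412 v9703 v9657 v8815 v8873 v5799 v5027 w3888
theorem v9733 : PV l9733 := r9733 v3089 w2551 v7859 v9705 v4185 v4550 w4019 w6293
theorem v9734 : PV l9734 := r9734 v3303 v4547 v9392
theorem v9735 : PV l9735 := r9735 v3142 v7703 v2994 v5643 v4967 v1412 v4087 v1242 v5268 v5035 v3000 v5685 w4543 w5197 v3370 v2808 v9712 v3794 v3129 w5196 v3422 v3008 w4389 v1218 w4395 v1137 v2992 v9731 v3955 v3952 v9732 v8085 v3303 v3304 v3260 v3254 v9733 v9734 w3964 w3939 v8946 v4549 w4012 v5817 v3096 w2540 w6292 v4991 v4435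
theorem v9736 : PV l9736 := r9736 v7703 v3006 v3927 v3370 v9726 v2614 v2615 v8565 v2556 v8638 w4575 w5823 v8636 w6478 w6363
theorem v9737 : PV l9737 := r9737 v3089 v9721
theorem v9738 : PV l9738 := r9738 v4967 v1412 v4087 v9737 v3075 w2463 w2449 v9722
theorem v9739 : PV l9739 := r9739 v3370 v5035 v2603 v9716 v9715 v8630 v2713 w5823 v5518 v8106 v8242
theorem v9740 : PV l9740 := r9740 v3422 v3370 w4543 v9739 v2615 v7973 v2556 v8638 w5823 v9224
theorem v9741 : PV l9741 := r9741 v4525 v3090 v4060 w4083 v3970 v4987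
theorem v9742 : PV l9742 := r9742 v4967 w4251 v1242 v1138 v1412 v4087 v5034 v9738 v3308 v9741 w2449 v4054 w3946 w3951 w3896 v3991 v4995 v4049
theorem v9743 : PV l9743 := r9743 v3008 v5268 v1242 w4389 v1217 v1218 w4395 v4967 v1412 v5643 v4087 v5269 v328 v9742 v9730 v3308 v702 w3888 w3900 w5929 v3082 v6290 v5267
theorem v9744 : PV l9744 := r9744 v3303 v8043 v8873 v9658
theorem v9745 : PV l9745 := r9745 v5000 v5001
theorem v9746 : PV l9746 := r9746 v3308 v5034 v9745 v3089 v9657 v5027 v4999 w3946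
theorem v9747 : PV l9747 := r9747 v4763 w4072 v4548 v4512
theorem v9748 : PV l9748 := r9748 v3308 v3089 v9745 v9747 w3946 v4550 v4516
theorem v9749 : PV l9749 := r9749 v1242 v5268 v5035 v7703 v3000 v5685 w4543 w5197 v4967 v1412 v3370 v2808 w5196 v3422 v3008 w4389 v1217 v1218 w4395 v1138 v1137 v5643 v4087 v5269 v3129 v3142 v9712 v3927 v4189 v4767 v9735 v3006 w4251 v9736 v9740 v9743 v4763 v9744 v3308 v9746 v8085 v9748 w2449 v9734 v8946 v4549 w3951 w3896 v3095 v4995 v4544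
theorem v9750 : PV l9750 := r9750 v7703 v9709 v5374 v9243 v2992 v5343 v5344 v5644 v5268 w4481 v4890 v4967 v1412 v4893 v2677 v2676 v1242 v2991 w4470 v4902 v5035 v9272 v3000 v5685 w4543 w5196 v3422 w5197 v3370 v485 v3222 v9711 v3503 v3507 v3498 v2671 v4903 v3477 v2998 v9749 v2631 v4846 w4905 w4907 v3413 v4187
theorem v9751 : PV l9751 := r9751 v7703 v328 w2488 v3090 v3216 w5196 v3422 w5197 v3370 v1138 v1137 v3007 w4244 w4401 v9718 v9716 v2615 v7973 v2556 v8638 w4574 v8634 v2561 v2559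
theorem v9752 : PV l9752 := r9752 v3927 v3216 v3370 v9726 v2614 v2615 v8565 v2556 v8638 w5823 v9437 v8636 v2559
theorem v9753 : PV l9753 := r9753 v7703 v4967 v1412 v4087 v5269 v9738 v9751 v3075 w2463 w2449 v9722
theorem v9754 : PV l9754 := r9754 v3303 w2488 v9098 v7053 w3959 v2779 v5863
theorem v9755 : PV l9755 := r9755 v3303 v9754 v3075 v6290 v4039 v2779 v4070
theorem v9756 : PV l9756 := r9756 v3927 v7703 v4967 v1412 w5196 v3422 v1138 w5197 v5269 v9752 v9753
theorem v9757 : PV l9757 := r9757 v3927 v3216 v3370 v9726 v2614 v2615 v8565 v2556 v8638 w5823 v8636 v4084 v2559 v8569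
theorem v9758 : PV l9758 := r9758 v7703 v4967 v1412 v5269 w4543 w5197 v1138 w4395 v3008 w4389 v1218 w5196 v3422 v9757 v1217 v1137 v4087 v328 v9744 v9755 v9756 v9738 v3006
theorem v9759 : PV l9759 := r9759 v4525 v3090 v4060 w4083 v4984 v3970
theorem v9760 : PV l9760 := r9760 v3216 v3422 v3370 v7703 v3007 w4088 v9739 v7973 v5690 v4029 v2615 v2556 v8638 w4574 v8634 v2561 v2559
theorem v9761 : PV l9761 := r9761 v3308 v1242 v1138 v1137 w5196 w5197 v1412 v4087 v5269 v7703 v5034 v9759 v3075 w2449 v4054 w3946 w3964 w3888 v3991 w6166 w2444 v9760 w4251 w3951 w3896 v4995 v4049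
theorem v9762 : PV l9762 := r9762 v3308 v7703 v3008 v5268 v1242 w4389 v1218 w4395 w4543 v5269 v9761 v702 w3888 w3900 w5929 v3082 v6290 v5267
theorem v9763 : PV l9763 := r9763 v4763 v3308 v4967 v5034 v9703 v7859 v4997 v4992 v4999 w4072 v5029
theorem v9764 : PV l9764 := r9764 v3264 v3308 v7703 v4967 v1412 v1242 v5268 v5035 v3000 v5685 w4543 w5196 v3422 v3008 w4389 v1218 w4395 v1137 v5643 v4087 v2994 v9762 v4007 v3952 v9763 v8085 v9733 v9734 v3075 w2472 w3964 v8946 v4549 v3096 v8842 v9202 v4991 w3924 v4527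
theorem v9765 : PV l9765 := r9765 v3308 v3008 v5268 v1242 w4389 v1217 v1218 w4395 v4967 v5269 v5643 v9742 v702 w3888 w3900 w5929 v3082 v6290 v5267
theorem v9766 : PV l9766 := r9766 v4763 v3308 v5034 v9745 v3089 v4997 v4992 v4999 w4072 v5029
theorem v9767 : PV l9767 := r9767 v1242 v5268 v5035 v7703 v3000 v5685 w4543 w5197 v4967 v1412 v3370 v2808 w5196 v3422 v3008 w4389 v1218 w4395 v1138 v1137 v5643 v4087 v5269 v2994 v3216 v9712 v3927 v4189 v4767 v3794 v9757 v9758 v3308 v9764 v3006 v9740 w4251 v9765 v4763 v9766 v8085 v9748 v9734 w2449 v8946 v4549 w3896 v3095 v4544 v9745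
theorem v9768 : PV l9768 := r9768 v3422 v3370 v7703 v328 v2603 v8606 v2556 v9714 v7190 w5514 v4084 v7976
theorem v9769 : PV l9769 := r9769 w4575 w5823 v7977 v8608
theorem v9770 : PV l9770 := r9770 v3370 v7703 v328 v2603 v2711 v8606 v2554 v9769 w5407 v7190 v4082 v4602 w8866 v2708
theorem v9771 : PV l9771 := r9771 v7713 v6707 v2561 v2559
theorem v9772 : PV l9772 := r9772 v2556 v7713 v8638 v4084 v2559 w5823 v8569
theorem v9773 : PV l9773 := r9773 v3422 v3370 v9768 v2614 v2615 v9772 v2713 v8562 v8563 v8336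
theorem v9774 : PV l9774 := r9774 v7713 v4084 v6707 v2559 w5823 w3582 v8569 w8947
theorem v9775 : PV l9775 := r9775 v9272 v9709 v9243 v7703 v2992 v5374 v5343 v5344 v5644 v5268 w4481 v4893 v2677 v2676 v485 v3222 v9711 v3503 v2836 v3507 v3498 v4132 v3008 v1242 w4389 v1218 w4395 v1138 v2991 w4470 v4902 v5035 v3000 v4890 v5685 w4543 w5196 w5197 w4841 w4843 w4840 v4967 v5269 v1412 v2671 v5643 v4903 w4456 v3477 w3556 v5348 v473 v2998 v2996 v2988 v3370 v3422 v2808 v4183 v9750 v671 v9767 v3129 v3127 v4846 v8600 w8462 v1594 w9163 w4894 w4905 w4907 w4326 w9087 v2528 v4445 v3413 v3137 v3765 v3463 v2662 v4776 v9773 v3141 w8525 w9074 v9770 v2614 v2615 v9774 v2713 v8562 v8563 v8336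
theorem v9776 : PV l9776 := r9776 v6208 v4606 w6342 w2924
theorem v9777 : PV l9777 := r9777 w4575 w5823 v9776 v2571 v8380 v2574 w9024 w3582
theorem v9778 : PV l9778 := r9778 v7703 v328 v9243 v2603 v2711 v9715 v2548 v9777 w5407 v5670 v4082 v4608 v9140 w8805 v2708
theorem v9779 : PV l9779 := r9779 v2556 v8638 w5823 v8636 v4084 v2559 v8569
theorem v9780 : PV l9780 := r9780 w5823 v5519 v7971 w3582 v4084 w8947 w8989
theorem v9781 : PV l9781 := r9781 v5268 w4543 v7703 v4967 v5269 v1412 v2615 v9779 v9780 v6261 v2538 v4597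
theorem v9782 : PV l9782 := r9782 v3008 v1217 v4967 v1412 v4087 v5269 v328 v9744 v9738 v9755
theorem v9783 : PV l9783 := r9783 v4525 v5034 v3308 v3089 v3090 v4060 w2569 v3989 w4083 w4140 v3970 v8265 v3320
theorem v9784 : PV l9784 := r9784 v3308 w4251 v1242 v1138 v5034 v9783 w2449 v4054 w3946 w3951 w3896 v3991 v4995 v4049
theorem v9785 : PV l9785 := r9785 v3308 v3008 v5268 v1242 w4389 v1218 w4395 v1412 v4087 v5269 v9784 v702 v6566 w3888 w5929 v6290 v3082 v5267
theorem v9786 : PV l9786 := r9786 v5034 v3308 v3089 v5028 v5000 w3946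
theorem v9787 : PV l9787 := r9787 v9786 v3075 v8753 v8938 v1247
theorem v9788 : PV l9788 := r9788 w4575 v3261 v3308 w4251 v5268 v1242 w4395 v1412 v4087 v4082 v4609 v4606 v7491 v24 w6768 w8421 v9785 v9787 v1074 w6281 w6015
theorem v9789 : PV l9789 := r9789 w5823 v5518 v2708 w3582 v9788 v2571 v8380 w9024
theorem v9790 : PV l9790 := r9790 v3222 v7703 v9272 v3000 v2998 v9243 v2991 v2992 v3008 v5035 v9709 v5374 v5344 v5343 v5644 v485 v3477 v5268 w4470 w4481 v4902 v4903 v4893 v4890 v2677 v4967 v5685 v5643 v2676 v2671 v1412 v5269 w4836 w4543 w4841 v4087 v1242 w5197 w5196 v1137 v1138 w4389 w4395 v1218 v1217 v9711 v4132 v4130 v3503 v3498 v3507 v2837 v2836 v9775 v3213 v3217 v2636 v2637 v4835 v9666 v4843 w8575 v4847 w8544 v3350 v3372 v3424 w4251 v39 w4905 w4907 v3347 v5160 v2808 v3441 v3425 v9252 v3516 v3927 v9781 v2603 v2711 v9778 v9715 v2548 v9782 v9789 w5407 v5670 v4082 v4608 v9140 v2708 v6179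
theorem v9791 : PV l9791 := r9791 w4710 v3829 v1210
theorem v9792 : PV l9792 := r9792 v495 v7703 v1145 v1210 w4555 v5723 v3423 v5035 v4834 w4557 v3370 v3000 v4844 v5272 w4543 v3216 v328 v9739 v2615 v7973 v2556 v8638 w4574 w5823 v9683 v8636
theorem v9793 : PV l9793 := r9793 v5518 v6176 v5665
theorem v9794 : PV l9794 := r9794 v7703 v1145 v1210 w4555 v5723 v3423 v5035 v4834 w4557 v3370 v3000 v4844 v5272 w4543 v3216 v1209 v2603 v9715 v9793 w5514 v8368
theorem v9795 : PV l9795 := r9795 v7703 v328 v2556 v8638 w4575 w5823 v9683 v8636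
theorem v9796 : PV l9796 := r9796 v2615 v495 v5035 v4834 v7703 v1145 w4557 v3370 w4555 v3000 v4844 v5272 w4543 v3216 v9792 v3007 w4486 v4633 v9795 v2713 v8562 v8336 w5514 v2571 v6261 v2588 w9132 w3582
theorem v9797 : PV l9797 := r9797 v2615 v495 v3370 v7703 v2713 v7973 v8562 v3007 w5514 w4486 v4633 v8336 v2571 v6261 v2588 w9132 w3582
theorem v9798 : PV l9798 := r9798 v5035 v4834 v7703 v9790 v5377 v9243 v2991 v5303 v480 v9791 v3826 v1145 w4557 v3370 w4555 v9272 v3000 v4844 v5272 w4543 v481 v5587 v2733 v390 v4216 v4225 v4799 v5039 v2547 v3216 v1210 v3833 v3935 v2992 v495 v487 w5462 v3470 w4843 v3808 v9794 v2615 v9797 v2556 v9779 v8638 v9796 w5823 v9224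
theorem v9799 : PV l9799 := r9799 v3216 v7703 v2996 v2994 w4296 w4293 v5795 w4354 v3759
theorem v9800 : PV l9800 := r9800 v3303 v5272 v9730 v9319 v6293 v8702 v4031
theorem v9801 : PV l9801 := r9801 w3663 v9534 w1452 v7274 w7959 v2283 v2293 w8283
theorem v9802 : PV l9802 := r9802 v3563 v3875
theorem v9803 : PV l9803 := r9803 w5253 w4657 v9802 v4455 v9533
theorem v9804 : PV l9804 := r9804 v5377 v4209 w690 v4210 v2269 v5039 v4280 v2477 v480 v5303 v5587 v2733 v3147 v9243 v2834 v2628 v2627 v2831 v9801 v9534 v7274 w7959 v2624 w2270 w5247 w5253 v2294 v4805 v3538 v3595 w8286 w3436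
theorem v9805 : PV l9805 := r9805 v5377 v5303 v481 v480 v5587 v2733 v390 v4216 v4225 v5039 v3935 v9243 v2477 v4280 v4260 v9804 w3438 v2850 w3039 v9803 v744 v22 v3537 v2624 v3874 v3875
theorem v9806 : PV l9806 := r9806 v7978 w8115
theorem v9807 : PV l9807 := r9807 v7982 v5668 w5679 v750 v2305 w1538 w2270 v9806 w3754 w8650 w8267
theorem v9808 : PV l9808 := r9808 v2324 w8846
theorem v9809 : PV l9809 := r9809 w2270 v732 v2305 w1538 v9806 w3754 w8650 w8267
theorem v9810 : PV l9810 := r9810 v7982 w5679 v9809 v1071 w8393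
theorem v9811 : PV l9811 := r9811 v3308 v1145 v1210 v7117 v1073 v5034 v3095 w6034 v9096 w3947 w2449 v4995 v4045 v4049
theorem v9812 : PV l9812 := r9812 v7860 v9656
theorem v9813 : PV l9813 := r9813 v9734 v3075 w3907 v8842
theorem v9814 : PV l9814 := r9814 v5377 v328 v9243 v2991 v5303 v480 v9791 v3826 v5272 v5587 v2733 v4799 v7840 v9730 v4231 v3820 v3303 v1145 v1210 w8866 v481 v390 v4216 v4225 v2833 v5039 v2547 v4210 v4209 v1209 v3833 v2628 v2627 v2992 w2534 v9800 v8148 v9808 w4162 w4164 v4059 v4062 v4031 v9805 v9519 w694 w714 v9810 w3756 v9047 v7978 w2339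
theorem v9815 : PV l9815 := r9815 v3303 v7840 v5377 v5303 v481 v480 v5587 v2733 v390 v4216 v4225 v4799 v9243 v2991 v9791 v3826 v5272 v328 v9730 v9814 v3075 v5806 v4025 v4029
theorem v9816 : PV l9816 := r9816 v5377 v9243 v2991 v5303 v480 v9791 v3826 v1145 v1209 v3833 v3303 v9815 v8043 v7860 v8873
theorem v9817 : PV l9817 := r9817 w8021 w8115
theorem v9818 : PV l9818 := r9818 w2270 v732 v2305 w1538 v9817 w3754 w8650 w8267
theorem v9819 : PV l9819 := r9819 v7982 w5679 v9818 v1071 w8393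
theorem v9820 : PV l9820 := r9820 v5377 v328 v9243 v2991 v5303 v480 v9791 v3826 v5272 v5587 v2733 v4799 v7840 v9730 v4231 v3820 v3303 v2712 v1145 v1210 w8866 v2992 v3808 v3816 v481 v390 v4216 v4225 v2834 v2833 v5039 v2547 v4210 v4209 v1209 v3833 v2628 v2627 w2534 v9800 v8148 v9808 w4162 w4164 v4059 v4062 v4031 v9805 v9519 v4204 w694 w714 v9819 w3039 w3756 v8398 v9817 v2608 w1538 v5674 v6715 v4923 w7729 w4658
theorem v9821 : PV l9821 := r9821 v3303 v7840 v5377 v5303 v481 v480 v5587 v2733 v390 v4216 v4225 v4799 v9243 v2991 v9791 v3826 v5272 v328 v9730 v9820 v3075 v5806 v4025 v4029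
theorem v9822 : PV l9822 := r9822 v5377 v9243 v2991 v5303 v480 v9791 v3826 v1145 v1209 v3833 v3303 v9821 v8043 v7860 v8873
theorem v9823 : PV l9823 := r9823 v5377 v5303 v2712 v9243 v2992 v3808 v3816 v9816 v9822
theorem v9824 : PV l9824 := r9824 v3308 v1145 v1210 v3817 v7117 v1073 v5034 v4228 v3095 w2522 w6034 w6046 w3947 w4153 v4995 v4060 w2449 v4045 v4049
theorem v9825 : PV l9825 := r9825 v7840 v5377 v9243 v7703 v2992 v5303 v3816 v481 v480 v5587 v2733 v390 v4225 v3147 v2989 v3222 v2991 v9791 v3826 v1145 v1210 v3851 v3833 v3403 v4779 v4767 v3759 w4899 w4354 v9823 v3308 v3268 v9824 v4763 v9812 v8085 v9102 v9734 v9813 w2449 w3946 v8946 w3896 v3095 v4544 v5000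
theorem v9826 : PV l9826 := r9826 v2628 v5377 v4210 v9243 v480 v5303 v5587 v2733 v2833 v481 v390 v4225 v9808 v4799 v3147 v5039 v2991 v9791 v3826 v1145 v1210 v3833 v2477 v4280 v4260 v9804 v8207 w3756
theorem v9827 : PV l9827 := r9827 v2628 v5377 v4210 v9243 v480 v5303 v5587 v2733 v2833 v481 v390 v4225 v9808 v3935 v2554 v2712 v2991 v9791 v3826 v1145 v1210 v2708 w8866 w5408 v4662 v7840 v2844 w5405 v4799 v3147 v5039 v2547 v4209 v2989 v3222 v3851 v1209 v3833 v2627 v9826 v4204 w694 w714 v8300 w3427 w3429 w3756 v7982 v9807 w5243 w5247 w5679 w5262 w4636 v9818 v8021 v2379 v8180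
theorem v9828 : PV l9828 := r9828 v3222 w3414 v7982 w5679 w5262 w4636 v9818 v750 v3160 v2379 v4273 v4950 v4949
theorem v9829 : PV l9829 := r9829 v4204 w694 w714 v9828 w3039 w3756 v8398 v9817 v2608 w1538 v5674 v6715 v4923 w7729 w4658
theorem v9830 : PV l9830 := r9830 v5377 v328 v9243 v2991 v5303 v480 v9791 v3826 v5272 v5587 v2733 v4799 v3935 v2554 v2712 v1145 v1210 v2708 w8866 w5408 v2844 v4662 v7840 v3008 v1149 v9755 v4231 v5034 v3820 v3100 v3303 v2992 v3808 v3816 v481 v390 v4216 v4225 v2834 v2833 v5039 v2547 v4210 v4209 v2989 v3222 v3851 v1209 v3833 v2628 v2627 v2987 v3089 w2534 v8148 w4173 w4162 w4164 w4191 v4062 v4059 v6709 v3986 v4031 v9808 v3320 w2461 v9519 v5671 w2690 v9827 v9829 v2477 v4260 v9804 w3438 w3003 v8025 v7985 w4434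
theorem v9831 : PV l9831 := r9831 v3303 v480 v5377 v5303 v5587 v2733 v3935 v2554 v2712 v9243 v2991 v9791 v3826 v1145 v1210 v2708 w8866 w5408 v4662 v7840 v2844 v481 v390 v4216 v4225 v4799 v3008 v1149 v5272 v328 v9755 v9830 v3075 v5806 v4025 v4029
theorem v9832 : PV l9832 := r9832 v5377 v9243 v2991 v5303 v480 v9791 v3826 v1145 v1209 v3833 v3303 v9831 v8043 v7860 v8873
theorem v9833 : PV l9833 := r9833 v5034 v7860 v7120 v5029 w3895
theorem v9834 : PV l9834 := r9834 v2554 v9243 v2708 v480 v5377 v5303 v5587 v2733 v3935 v2712 v7703 v2991 v9791 v3826 v1145 v1210 w8866 w5408 v4662 v2844 v9825 v7840 v2992 v3816 v481 v390 v4225 v3147 v2989 v3222 v3851 v3833 v4779 v4767 v3759 w4899 w4354 w5015 v9832 v3308 v3268 v9824 v4763 v9833 v8085 v9102 v9734 v9813 w2449 w3946 v8946 w3896 v3095 v4544 v5000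
theorem v9835 : PV l9835 := r9835 v480 v5377 v5303 v5587 v2733 v3147 v9834 v4860 v4864
theorem v9836 : PV l9836 := r9836 w694 w714 v9819 v8445 v9047 v9455 w7729
theorem v9837 : PV l9837 := r9837 w5253 w4657 w8249 v4805 w1452 v3964 v4451 w8283 w2518 w4180 w6207
theorem v9838 : PV l9838 := r9838 w82 w83 v9837 w4181 w7959 v3537 w920 v4805 w6105 w4449 w2632 v3874
theorem v9839 : PV l9839 := r9839 w5247 w5253 w8249 v4805 w1452 w1458 v3538 v3595 w8283 v8332 w3436 w5627 w5641 w8286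
theorem v9840 : PV l9840 := r9840 v5377 v5303 v3935 v9243 v2624 v2283 w2270 v9839 w7959 v3537 v4805 w4449 v3874 v3872
theorem v9841 : PV l9841 := r9841 v5377 v4209 w690 v4210 v2269 w691 v4260 v5039 v4280 v2477 v9243 v480 v5303 v5587 v2733 v2834 v8185 v3147 v3934 v2831 w3667 w3663 v9840 v2379 v7274 v2448 v3570 v1510 v8453
theorem v9842 : PV l9842 := r9842 v5377 v4210 v9243 v480 v5303 v5587 v2733 v2833 v481 v390 v4225 v9808 v4216 v5039 v3935 v2477 v4280 v4260 v9841 w3438 v2850 w3039 v9803 v744 v22 v3537 v2624 v3875 v3874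
theorem v9843 : PV l9843 := r9843 v5377 v328 v9243 v2991 v5303 v480 v9791 v3826 v5272 v5587 v2733 v4799 v3935 v2844 v4662 v7840 v9730 v4231 v3820 v3303 v2712 v1145 v1210 w8866 v2992 v3808 v3816 v481 v390 v4216 v4225 v2834 v2833 v5039 v2547 v4210 v4209 v2989 v3222 v3851 v1209 v3833 v2628 v2627 w2534 v9800 v8148 v9808 w4162 w4164 v4062 v4059 v4031 v9519 v9842 v9829 v9836
theorem v9844 : PV l9844 := r9844 v3303 v480 v5377 v5303 v5587 v2733 v3935 v4662 v7840 v2844 v481 v390 v4216 v4225 v4799 v9243 v2991 v9791 v3826 v5272 v328 v9730 v9843 v3075 v5806 v4025 v4029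
theorem v9845 : PV l9845 := r9845 v480 v5377 v5303 v5587 v2733 v3935 v4662 v9243 v2991 v9791 v3826 v1145 v1209 v3833 v3303 v9844 v8043 v8873 v4759 v4761
theorem v9846 : PV l9846 := r9846 v9786 v9656
theorem v9847 : PV l9847 := r9847 v480 v5377 v5303 v5587 v2733 v3935 v4662 v7840 v9243 v2992 v3816 v481 v390 v4225 v3147 v2989 v3222 v2991 v9791 v3826 v1145 v1210 v3851 v3833 v9845 v3308 v3268 v9824 v4763 v9846 v8085 v9102 v9734 w2449 w3946 v8946 w3896 v3095 v4544 v5000
theorem v9848 : PV l9848 := r9848 w3414 v7982 v9807 w5679 w5262 w4657 v9818 v3160 v4273 v4925 v4915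
theorem v9849 : PV l9849 := r9849 v4204 w694 w714 v9848 v8445 v9047 v9455 w7729
theorem v9850 : PV l9850 := r9850 v5377 v5303 v3935 v480 v9243 v2624 v2283 w2270 v9839 w7959 v3537 v2305 v4805 v467 w5260 v3179 v651 w3436
theorem v9851 : PV l9851 := r9851 v5377 v4209 w690 v4210 v2269 w691 v5039 v4280 v2477 v9243 v480 v5303 v5587 v2733 v2833 v481 v390 v4225 v9808 v2834 v8185 v3147 v3934 v2831 w3667 w3663 v9850 v2379 v7274 v2448 v3570 v1510 v8453
theorem v9852 : PV l9852 := r9852 v5377 v5303 v481 v480 v5587 v2733 v390 v4216 v5039 v9243 v2477 v4280 v4260 v9851 w3438 v2850 w3039 v9803 v663 v744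
theorem v9853 : PV l9853 := r9853 v5377 v4231 v5303 v3820 v3303 v480 v5587 v2733 v3935 v2844 v4662 v2712 v9243 v2991 v9791 v3826 v1145 v1210 w8866 v2992 v3808 v3816 v481 v390 v4216 v4225 v4799 v2834 v2833 v5039 v2547 v4210 v4209 v2989 v3222 v3851 v1209 v3833 v2628 v2627 w2534 v8148 w4162 w4164 v4062 v4059 v6709 v4031 v9808 v9519 v9852 v9829 v9849
theorem v9854 : PV l9854 := r9854 v3303 v480 v5377 v5303 v5587 v2733 v3935 v4662 v7840 v2844 v481 v390 v4216 v4225 v4799 v3008 v9243 v2991 v9791 v3826 v1149 v5272 v328 v9755 v9853 v3075 v5806 v4025 v4029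
theorem v9855 : PV l9855 := r9855 v480 v5377 v5303 v5587 v2733 v3935 v4662 v9243 v2991 v9791 v3826 v1145 v1209 v3833 v3303 v9854 v8043 v8873 v4759 v4761
theorem v9856 : PV l9856 := r9856 v2603 v9790 v5377 v5303 v2712 v9243 v7703 v2992 v9272 v2991 v480 v9791 v3826 v5587 v2733 v3147 v9799 v3816 v2808 v1145 w4555 w4557 v5272 w4543 v481 v390 v4225 v5039 v3216 v2989 v3222 v1210 v3851 v3833 v3935 v2998 v2996 v328 v5035 v2554 v2556 v7720 v9714 v4084 v4082 v4602 v7976 v2708 w5511 w8866 v2730 v4794 w5408 v4662 v7840 v9835 v4847 w4905 w4346 v2740 v9712 v4779 v4767 v9847 v9855 v3308 v3268 v9824 v4763 v9787 v8085 v9102 v9734 w2449 w3946 v8946 w3896 v3095 v4544 v5000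
theorem v9857 : PV l9857 := r9857 w2534 v4059 v8148 w4162
theorem v9858 : PV l9858 := r9858 v3303 v9857 v3075 v5806 v4025 v4029
theorem v9859 : PV l9859 := r9859 v3268 v9824
theorem v9860 : PV l9860 := r9860 v3008 v1149 v5272 v328 v3820 v9859 v9755 v9858 v4231
theorem v9861 : PV l9861 := r9861 v8873 v4759 v4761
theorem v9862 : PV l9862 := r9862 v8113 v9786
theorem v9863 : PV l9863 := r9863 v7840 v5034 v9861 v9862 v9657 w2449 v5029 v5050 w3895
theorem v9864 : PV l9864 := r9864 v7840 v7703 v1145 v1210 v4779 v4767 v3759 w4899 w4354 v9860 v9863 v8085 v9102 v9202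
theorem v9865 : PV l9865 := r9865 w5512 v2712 v4132 v5039 v3216 v7703 v3826 v1145 v1210 v3833 v3935 v3222 v2996 v2995 v2994 v5035 v2568 w815 w9166 v2544 w3852 v4610 v4605 v6179 w5408 v4662 v2844 v7840 v9864 v4885 v9712 v3447 v5249 v2746
theorem v9866 : PV l9866 := r9866 v3089 w2534 w2569 v8064 v8148 v3282 w4173 w4191 v3986 w6280 v3320
theorem v9867 : PV l9867 := r9867 v3008 v1149 v5272 v328 v3820 v9859 v9860 v9755 v5034 v4231 v4086 v9866 v3075 v5806 v9319
theorem v9868 : PV l9868 := r9868 v9243 v7703 v2992 v9790 v5377 v5303 v9272 v2991 v480 v9791 v3826 v5587 v2733 v3147 v9799 v3808 v3816 v9798 v5035 v4834 v1145 w4557 v3370 v2808 v1210 w4555 v5723 v3423 v3000 v4844 v4183 v481 v390 v4216 v4225 v4799 v2836 v5039 v2547 v3216 v2989 v3222 v3851 v1209 v3833 v3935 v2998 v2995 v2712 v2603 v9856 v2713 v2548 v9793 v8368 w5511 v2730 v4794 v9865 v4082 w801 w9075 v2707 w3825 w3239 v6049 w8685 w6600 v4854 w5408 w5099 w4346 v2740 v4662 v2844 v4087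 v9712 v4779 v4767 v9867 v4763 v9863 v8085 v3303 v3304 v9102 v9734 w2449 w3946 v8946 w3896 v3095 v4544 v5000
theorem v9869 : PV l9869 := r9869 w2569 v8224 w5992 w6261
theorem v9870 : PV l9870 := r9870 v4231 v3820 v4967 v1145 v1210 v9859 v3100 v9858 v9869 v3075 v5806 v9319
theorem v9871 : PV l9871 := r9871 v3216 v7703 v2995 v2994 v5035 v4885 v9712 v3447 v5249 v2746
theorem v9872 : PV l9872 := r9872 v4967 v4966 v3008 v1149 v5272 v328 w876 v9859 v9870 v9755
theorem v9873 : PV l9873 := r9873 v3216 v2556 v2615 v7703 v1145 v1210 v2996 v328 v4084 v2617 w2924 v2544 w6616 w9146 w5099 v4967 v7840 v9871 v4779 v4767 v3759 w4354 v9872 v4763 v9863 v8085 v3303 v3304 v9102 v9734 v9813 w2449 w3946 v8946 w3896 v3095 v4544 v5000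
theorem v9874 : PV l9874 := r9874 v3008 v1149 v5272 v328 v9859 v9860 v3303 v9755 v9514 v6709 v6293
theorem v9875 : PV l9875 := r9875 v2615 v4183 v2835 v3216 v7703 v3826 v1145 v1210 v3833 v3340 v3935 v3222 v2996 v2556 v8216 v8638 w5511 v2730 v4794 v9873 v2571 v5660 v8217 w3582 w8999 w8560 w5368 v4662 v2844 v7840 v9871 v4779 v4767 v3759 w4899 w4354 v9874 v4763 v9863 v8085 v3303 v3304 v9102 v9734 v9813 w2449 w3946 v8946 w3896 v3095 v4544 v5000
theorem v9876 : PV l9876 := r9876 v4084 v8336 v8564 v2730 v2544 w5511 w9033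
theorem v9877 : PV l9877 := r9877 v3216 v7703 v2994 v1243 v4779 w5194 v4885 v9871 v5650
theorem v9878 : PV l9878 := r9878 v2615 v5035 v4834 v7703 v3826 v1145 w4557 v3370 v9877 v1210 w4555 v5723 v3423 v3000 v4844 v3216 v3833 v9875 v2713 v6261 v9876
theorem v9879 : PV l9879 := r9879 v9243 v7703 v2992 v9790 v5377 v5303 v9272 v2991 v480 v9791 v3826 v5587 v2733 v3147 v9799 v3808 v3816 v9798 v5035 v4834 v1145 w4557 v3370 v2808 v5272 w4543 v481 v390 v4216 v4225 v4799 v5039 v2547 v2632 v3216 v2989 v3222 v1210 v3851 v328 v9868 v2615 v9878 w4574 w5823 v8562 v9224 v2556 v8636 v2561 v9683 v2559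
theorem v9880 : PV l9880 := r9880 v9790 v5377 v5303 v481 v480 v5587 v2733 v390 v4225 v3147 v3216 v7703 v9243 v2991 v9791 v3826 v1145 v9272 v2994 v5035 v4834 w4557 v3370 v2808 v9879 v3927 v3452 v4885 v9871 v5650
theorem v9881 : PV l9881 := r9881 v2628 v5377 v4210 v9243 v480 v5303 v5587 v2733 v2833 v481 v390 v4225 v9808 v4216 v5039 v2477 v4280 v4260 v9804 w3438 v2850 w3039 v9803 v663 v744
theorem v9882 : PV l9882 := r9882 v7982 w3663 v9807 w5679 v9818 v1071 w2258 w1452 w8226 w8699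
theorem v9883 : PV l9883 := r9883 v9882 v8445 v9047 v9455 w7729
theorem v9884 : PV l9884 := r9884 v3303 v9861 v8043
theorem v9885 : PV l9885 := r9885 v4763 v7840 v5034 v9863 v9862 v9657 v3075 w2463 w2449 v8747 v5050 v5014 v2783
theorem v9886 : PV l9886 := r9886 v1145 v1209 v1210 v9859 v8998 v3303 v7053 v9397
theorem v9887 : PV l9887 := r9887 v3303 v1145 v1210 v4231 v9858 v8969 v9514 v3075
theorem v9888 : PV l9888 := r9888 v3303 v9887 v7053 v9397
theorem v9889 : PV l9889 := r9889 v1145 v1210 v8987 v8969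
theorem v9890 : PV l9890 := r9890 v3820 v9886 v9888 v3308 v7117 v5034 v9889 w2463 w2449 v4054 w3969 w3978 w3896 v2787 v5659
theorem v9891 : PV l9891 := r9891 v4763 v3303 v9861 v9884 v5672 w2474 v4730 v5673 v2780
theorem v9892 : PV l9892 := r9892 v7840 v7703 v5035 v4117 v9862 v9001 v3075 w3906 v8747 v5015
theorem v9893 : PV l9893 := r9893 v736 v2305 w2270 v6900
theorem v9894 : PV l9894 := r9894 w5627 w8201 w8283 v2283
theorem v9895 : PV l9895 := r9895 w3663 v9534 w1452 v9894 w7959 w5629 w2258 w7866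
theorem v9896 : PV l9896 := r9896 v5039 v2477 v4280 v4260 v2269 w690 v9895 w3438 v2850 w3039 w3670 v9803 v744 v22 w5636 v2305 w2270 w7747
theorem v9897 : PV l9897 := r9897 v5039 v2477 v4280 v4260 w690 v9895 w3438 v2850 w3039 v9803 v663 v744
theorem v9898 : PV l9898 := r9898 v3442 w5513 w9099 w9178
theorem v9899 : PV l9899 := r9899 v736 v2305 w1538 w2270 v9817 w8267 w3754
theorem v9900 : PV l9900 := r9900 w8393 v616
theorem v9901 : PV l9901 := r9901 v9432 v7978 v9817 w7830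
theorem v9902 : PV l9902 := r9902 v736 v2305 v9899 w2270 w8650
theorem v9903 : PV l9903 := r9903 v7840 v4204 w694 w714 v9901 w3427 w3429 w3754 w3756 v7982 w5243 w5247 w5679 w5262 v8021 v9902 v616 v2379 v750 v8281
theorem v9904 : PV l9904 := r9904 v2628 v5377 v4210 v9243 v480 v5303 v5587 v2733 v2833 v481 v390 v4225 v9808 v2627 v3222 v9842 v9805
theorem v9905 : PV l9905 := r9905 v2628 v2627 v3222 v9904 v9852 v9881
theorem v9906 : PV l9906 := r9906 w3039 w3756 v9432 v9817 v2608 w1538 v5674 v4923 v2624 w4658 w7729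
theorem v9907 : PV l9907 := r9907 w1538 v9902 v9817 w3754
theorem v9908 : PV l9908 := r9908 v9243 v2991 v480 v5377 v5303 v9791 v3826 v481 v5587 v2733 v390 v4225 v4216 v2992 v3808 v3820 v7840 v4231 v9858 v3303 v3816 v2554 v2712 v1145 v1210 v2708 w8866 v4799 v3147 v2834 v2833 v5039 v2547 v4210 v4209 v1209 v3833 v2628 v2627 v3222 w2534 v8148 w4162 w4164 v4062 v6709 v4031 v4034 v9808 v9905 v4204 w694 w688 w714 v9903 v9906 v7982 w3663 w5679 v9907 w1452 v616 w2258 v750 w8699 w8226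
theorem v9909 : PV l9909 := r9909 v7840 v5377 v5303 v481 v480 v5587 v2733 v390 v4225 v9908 v3075 v5806 v9319
theorem v9910 : PV l9910 := r9910 v5034 v1145 v1210 v3308 v3268 v1073 v3095 w2522 w6034 w6046 w3947 w4153 v4995 v4060 w2449 v4049 v4045
theorem v9911 : PV l9911 := r9911 v7840 v9901 w3427 w3429 w3756 v7982 w5243 w5247 w5679 w5262 w4636 v9907 v8021 v616 v2379 v750 v8180
theorem v9912 : PV l9912 := r9912 v5377 v5303 v3820 v3817 v9243 v2992 v3808 v3816 v2554 v2712 v2991 v480 v9791 v3826 v1145 v1210 v2708 w8866 v7840 v481 v5587 v2733 v390 v4216 v4225 v4799 v3147 v2834 v2833 v5039 v2547 v4210 v4209 v2989 v3222 v3851 v1209 v3833 v2628 v2627 v4228 v4231 v9910 v9858 v9909 v8998 v9808 v5806 v9905 w2534 v4204 w694 w688 w714 v8148 w4162 v4062 v9675 v9911 v9906 v7982 w3663 w5679 v9907 w1452 v616 w2258 v750 w8699 w8226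
theorem v9913 : PV l9913 := r9913 w8840 w6107
theorem v9914 : PV l9914 := r9914 v9913 w2663 v9390 w8686 w4153 v6288 v5863 v6060
theorem v9915 : PV l9915 := r9915 v3303 w1726 v3100 v7053 w3959 w4038 v5867 v3320 v728 v4234 v9914 v8479 w2449 v4076 v5863
theorem v9916 : PV l9916 := r9916 v5377 v4082 v7840 v5303 v481 v480 v5587 v2733 v390 v4216 v4225 v4799 v9243 v2833 v5039 v2547 v2989 v3222 v2991 v9791 v3826 v1145 v1210 v3851 v1209 v3008 v1149 v3833 v3817 v3821 v9912 w26 w36 v9915 v3308 v8757 v4006 v3299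
theorem v9917 : PV l9917 := r9917 v5377 v9243 v7703 v2992 v5303 v3816 v7840 v481 v480 v5587 v2733 v390 v4225 v3147 v2991 v9791 v3826 v1145 v1209 v1210 v3833 v4779 v4767 v9916 v4007 v9884 v3308 v9885 v8085 v9102 v3075 w2472 v9202 v4535 v4547 v2784 w3978 v2786 w3871 v8946 v4527 v3096 v4983
theorem v9918 : PV l9918 := r9918 v1145 v1209 v1210 v8998 v9889 v3075 v4054 v2786 v4029 v4030
theorem v9919 : PV l9919 := r9919 v7840 v3820 v9888 v3308 v9918 v706 w6669 w6393
theorem v9920 : PV l9920 := r9920 v7703 v9243 v2991 v9790 v480 v5377 v5303 v9791 w4972 w5386 w4971 w5370 w4911 v7840 v481 v5587 v2733 v390 v4216 v4225 v4799 v3147 v5039 v2547 v3216 v3826 v1145 v1209 v3833 v9272 v2996 v2994 v2992 v3816 v3808 v9917 v3403 v5795 v4864 v3417 v3457 v3447 v9712 v1247 v4865 v9919 v3951 v9891 v3308 v3265 v9892 v8964 v3075 v5672 v4535 v4533 v2786 v4547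
theorem v9921 : PV l9921 := r9921 v7982 v9900 v2294 v9893
theorem v9922 : PV l9922 := r9922 w3039 w3756 v7978 v2552 w2339 v5674 v3870 w4657 v1674 w7766
theorem v9923 : PV l9923 := r9923 v5377 v5303 v481 v480 v5587 v2733 v390 v4225 v5806 v2628 v4210 v9243 v2833 v9808 v4231 v5034 v3100 v3303 v3820 v2554 v2712 v2708 w8866 v7840 v4799 v3147 v5039 v2547 v4209 v2627 v3222 v9905 v8148 v4204 w694 w714 w4173 w4162 w4164 w4191 v3986 v9675 v4031 v3320 w2461 v5671 v1140 v1139 w2690 v9911 v9922 w3414 v7982 v9921 w5243 w5247 w5679 w5262 w4636 v2294 v8190 v9893 w3427 v616 v8021 v2379 v750 v8180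
theorem v9924 : PV l9924 := r9924 v4204 w694 w714 v9911
theorem v9925 : PV l9925 := r9925 v9897 v9896
theorem v9926 : PV l9926 := r9926 v5377 v4233 w1726 v5303 v3821 v2554 v2712 v9243 v2991 v480 v9791 v3826 v1145 v1210 v2708 w8866 v7840 v481 v5587 v2733 v390 v4216 v4225 v4799 v3147 v2834 v2833 v5039 v2547 v4210 v4209 v2989 v3222 v3851 v1209 v3833 v2628 v2627 v2992 v9808 v5806 v9913 v3089 v3090 w2534 w2555 v9923 v8287 v4055 w5979 v2786 v9675 v9127 w2461 v1140 v1139 v9925 v4204 w694 w714 v9924 v9922 w3414 v2831 v7982 v9921 w5679 v2294 v8190 v9893 w3427 v616 v8023 v750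
theorem v9927 : PV l9927 := r9927 v3303 v5377 v5303 v3820 v7840 v481 v480 v5587 v2733 v390 v4216 v4225 v9243 v2991 v9791 v3826 v1145 v1209 v4117 v9926 v6161 v6709 v9887 w2449 v2786 v4055
theorem v9928 : PV l9928 := r9928 v5377 v5303 v3821 v3817 v4602 v4082 v7840 v481 v480 v5587 v2733 v390 v4216 v4225 v4799 v9243 v2833 v5039 v2547 v2989 v3222 v2991 v9791 v3826 v1145 v1210 v3851 v1209 v3008 v1149 v3833 v9927 w26 w36 v9915
theorem v9929 : PV l9929 := r9929 v4228 v9910
theorem v9930 : PV l9930 := r9930 v7840 v480 v5377 v5303 v5587 v2733 v3147 v9243 v2989 v3222 v2991 v9791 v3826 v1145 v1210 v3851 v3817 v9928 v3308 v9929 v706 w6669 w6393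
theorem v9931 : PV l9931 := r9931 v7703 v9243 v2991 v9790 v480 v5377 v5303 v9791 v9880 w4972 w5386 w4971 w5370 w4911 v3216 v2556 v9272 v3000 v5035 v4838 v7840 v5587 v2733 v2834 v4131 v3339 v3114 w8776 w3780 v2840 v3335 v3111 v4097 w8777 w9017 w8610 v4841 v481 v390 v4225 v3147 v3826 v1145 v1209 v1210 v3833 v2996 v2994 v2992 v4084 v9898 v4602 w3582 w9178 w5513 w5017 w5512 v3423 v9920 v3811 v3813 w4296 w4293 w4780 w4782 v5795 v4779 v4767 v3759 v7692 v9930 v4007 v9884 v9885 v8085 v9102 v3075 w2472 v9202 v4533 v2781 v5010 v4529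
theorem v9932 : PV l9932 := r9932 v2579 v2602
theorem v9933 : PV l9933 := r9933 v3216 v2556 v7703 v9790 v5377 v9243 v2991 v5303 v480 v9791 v3826 v1145 v1210 v9272 v2603 v9932 v4084 v9931 v9898 w5514 v4602 w9178 w3582
theorem v9934 : PV l9934 := r9934 v3100 v3303 v9858 v9869 v3075 v5806 v9514
theorem v9935 : PV l9935 := r9935 w2569 v4055 w4036 w6261 w6252
theorem v9936 : PV l9936 := r9936 v3100 v3303 v3820 v1145 v1210 v9243 v2991 v2992 v4231 v9934 v3808 v3811 v9935 v3075 v5806 v9514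
theorem v9937 : PV l9937 := r9937 v328 w2924 v3008 v1149 v3303 v3100 v9936 w36 v5862 v7053 w3959 w4038 v4039 w6261 v6288 w2626 w2568 v2779 v2789 v3299 w5875
theorem v9938 : PV l9938 := r9938 v9790 v5377 v5303 v3817 v481 v480 v5587 v2733 v390 v4216 v4799 v3147 v3216 v9243 v7703 v2989 v3222 v2991 v9791 v3826 v1145 v1210 v3851 v9272 v2994 v2992 v9929 v4767 v5795 v3457 v9712 w4296 v9918 v3808
theorem v9939 : PV l9939 := r9939 v7703 v328 w2924 w6731 v7840 v9790 v5377 v5303 v481 v480 v5587 v2733 v390 v4216 v4225 v4799 v9243 v5039 v2547 v2991 v9791 v3826 w876 v9937 v3308 v9938 v706 w6669 w6393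
theorem v9940 : PV l9940 := r9940 v7840 v3216 v7703 v2994 v3303 v9861 v9884 v5672 v4779 v3075 v4730 v5795 v4755 w3906
theorem v9941 : PV l9941 := r9941 v3265 v3216 v7703 v2994 v9885 v9892 v4767 v5795
theorem v9942 : PV l9942 := r9942 v3308 v4763 v1210 v8085 v9102 v3075 w2449 v9202 v4535 v4547 w3946 v2786 w3907 w3896 v8946 v4544 v3095 v5000
theorem v9943 : PV l9943 := r9943 v3308 v3216 v7703 v1209 v9942 v4779 v3447 v9712 v8964 v3075 v5672 v4535 v4533 v2786 v4547
theorem v9944 : PV l9944 := r9944 v2615 v3216 v2556 v7703 v9272 v3000 v5035 v9880 v4838 v7840 v9243 v9790 v480 v5377 v5303 v5587 v2733 v2834 v2991 v9791 w4972 v4131 v3339 v3114 w8776 w3780 v2840 v3335 w4971 v3111 v4097 w8777 w9017 w8610 v481 v390 v4225 v3147 v3826 v1145 v1209 v1210 v3833 v2994 v2992 v328 v2617 v9221 w2924 w5513 w5017 w5512 w5514 w6363 w4912 v3423 v5723 v9939 v4763 v3951 v9940 v9941 v9943 v3816 v3813 w4296 v5795 v4779 v8085 v9102 w2449 v4549 w3897 v6130 v5020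
theorem v9945 : PV l9945 := r9945 w6296 v6159
theorem v9946 : PV l9946 := r9946 v9858 v8132
theorem v9947 : PV l9947 := r9947 v4086 v9790 v5377 v4233 v4231 v3100 w1726 v3303 w876 v5303 v3821 v3820 v2571 v2615 v481 v480 v5587 v2733 v390 v4216 v4225 v3147 v7703 v9243 v2991 v9791 v3826 v1145 v1210 v9272 v2992 v2708 v8126 v8217 w5513 v5723 v9945 w3743 v9946 v3808 w5979 v3811 w4167 v9127 v9514
theorem v9948 : PV l9948 := r9948 v3303 w876 v9790 v5377 v5303 v3820 v481 v480 v5587 v2733 v390 v4216 v4225 v7703 v9243 v2991 v9791 v3826 v1145 v1210 v328 v4231 v4086 v9947 w2924 v2581 v2592 v9858 v5917 v8224 v6709 v5806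
theorem v9949 : PV l9949 := r9949 v4076 v5863
theorem v9950 : PV l9950 := r9950 v4741 v4747
theorem v9951 : PV l9951 := r9951 v9790 v5377 v5303 v481 v480 v5587 v2733 v390 v4216 v4799 v9243 v5039 v2547 v7703 v2991 v9791 v3826 v1145 v1209 v3008 v1149 v3303 v9948 v7053 w3959 v9949 v3075 w2449 v4039 v5655 v6288 w3906 w3897
theorem v9952 : PV l9952 := r9952 v9243 v9790 v480 v5377 v5303 v5587 v2733 v2834 v7703 v2991 v9791 v9880 w4972 v4131 v3339 v3114 v9272 v3000 v5035 v4838 w8776 w3780 v2840 v3826 v1145 v1210 w5513 w5512 w5514 w4912 v5723 v9938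
theorem v9953 : PV l9953 := r9953 v2571 v3216 v2556 v9222 v8126 w9167 v5768 v2592
theorem v9954 : PV l9954 := r9954 v9272 v9790 v480 v5377 v5303 v5587 v2733 v3147 v481 v390 v4225 v7703 v9243 v2991 v9791 v9880 w4972 v4131 v3339 v3114 v3000 v5035 v4838 w8776 v2840 v2615 v9944 v9953 v3216 v2556 v7840 v3335 w4971 v3111 v4097 w8777 w9017 w8610 v9951 v3308 v9952 v706 w6669 w6393
theorem v9955 : PV l9955 := r9955 v7703 v9862 v9941 v9657
theorem v9956 : PV l9956 := r9956 v7703 v9272 v3000 v5035 v9880 v4838 v7840 v9243 v9790 v480 v5377 v5303 v5587 v2733 v2834 v2991 v9791 w4972 v4131 v3339 v3114 w8776 w3780 v2840 v4097 v3335 w4971 v3111 w8777 w8610 v481 v390 v4225 v3147 v3216 v3826 v1145 v1209 v1210 v3833 v2994 v2992 v9933 v2615 v9944 v9953 w5513 w5512 w5514 w4912 v3423 v9954 v4007 v3951 v9940 v9955 v9943 v3816 v3813 w4296 w4293 v5795 v4779 v8085 v9102 v3075 w2472 v4533 v2781 v5010 v4529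
theorem v9957 : PV l9957 := r9957 v2713 w5515 w9166 v2544 v7898 v4610 v9858
theorem v9958 : PV l9958 := r9958 v2713 v7703 v328 v4084 v9957 v8367 w2924 v4608 w6768 w6585
theorem v9959 : PV l9959 := r9959 v5034 v9858 v9866
theorem v9960 : PV l9960 := r9960 v4231 v3820 v3008 v1149 v9243 v2991 v2992 v3089 w2569 v9959 v3808 v7963 v3811
theorem v9961 : PV l9961 := r9961 v3075 w2463 w2449 v9722
theorem v9962 : PV l9962 := r9962 v4086 w4974 w4971 w5513 w5017 w5814 w4912 w5375 w6615 v9960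
theorem v9963 : PV l9963 := r9963 v9790 v5377 v5303 v3820 v2713 v7703 v9272 v3000 v5035 v9880 v4838 v7840 v480 v5587 v2733 v9243 v2991 v9791 w4972 v4131 v3339 v3114 w8776 v2840 v4097 v3335 w4971 v3111 w8777 w8610 v4183 v481 v390 v4216 v4225 v3147 v5039 v3826 v1145 v1209 v4231 v9958 v2571 v9961 v9962 v8366 w9147 v2707 v7037
theorem v9964 : PV l9964 := r9964 v7703 v9272 v3000 v5035 v9880 v4838 v7840 v9790 v5377 v5303 v481 v480 v5587 v2733 v390 v4216 v4799 v9243 v5039 v2547 v2991 v9791 v3826 v1145 v1209 v3008 v1149 v3303 v9963 v7053 w3959 v9949 v3075 w2449 v4039 v5655 v6288 w3906 w3897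
theorem v9965 : PV l9965 := r9965 v7703 v328 v4084 v8367 w2924 v4608 w6768 w6585
theorem v9966 : PV l9966 := r9966 v2713 v4183 v9965 v2571 v8366 w9147 v2707 v7037
theorem v9967 : PV l9967 := r9967 v9272 v9790 v5377 v5039 v5303 v481 v480 v5587 v2733 v390 v4225 v7703 v9243 v2991 v9791 v9880 w4972 v4131 v3339 v3114 v3000 v5035 v4838 w8776 v2840 v9966 v7840 v3335 w4971 v3111 v4097 w8777 w9017 v9964 v3308 v9952 v706 w6669 w6393
theorem v9968 : PV l9968 := r9968 v9956 v7703 v9272 v3000 v5035 v9880 v4838 v7840 v9243 v9790 v480 v5377 v5303 v5587 v2733 v2834 v2991 v9791 w4972 v4131 v3339 v3114 w8776 w3780 v2840 v4097 v3335 w4971 v3111 w8777 w8610 v481 v390 v4225 v3147 v5039 v3216 v3826 v1145 v1209 v1210 v3833 v2994 v2992 v2603 v9966 w5513 w5512 w5514 w4912 v3423 v9967 v4007 v3951 v9940 v9955 v9943 v3816 v3813 w4296 w4293 v5795 v4779 v8085 v9102 v3075 w2472 v4533 v2781 v5010 v4529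
theorem v9969 : PV l9969 := r9969 v2615 v3216 v9790 v5377 v5303 v9243 v7703 v2991 v480 v9791 v3833 v3826 v9272 v2994 v2992 w5513 w5512 w5514 v8336 v6261 v4779 v5795 v3457 v9712 w4296 v9889 v3808
theorem v9970 : PV l9970 := r9970 v4084 v2539 v8564
theorem v9971 : PV l9971 := r9971 v7703 v9272 v3000 v5035 v9880 v4838 v7840 v9243 v9790 v480 v5377 v5303 v5587 v2733 v2834 v2991 v9791 w4972 v4131 v3339 v3114 w8776 w3780 v2840 v3335 w4971 v3111 v4097 w8777 w9017 w8610 v481 v390 v4216 v4225 v4799 v3147 v5039 v2547 v3216 v3826 v1145 v1209 v1210 v3833 v3935 v2996 v2994 v2992 v9956 v2713 v9968 v2615 v9970 v6261 v2588 v1243 v3431 v2577 v1137 v1138 v498 w4912 v9797 v4779 w5194 v5795 v4864 v3417 v3457 v9712 w4296 v1247 v4865 v3816 v3808 v9919 v9891 v9943 v9885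
theorem v9972 : PV l9972 := r9972 v2556 v8906 v7977 v2571
theorem v9973 : PV l9973 := r9973 v2603 v9972 v5518 v2591 v7491 w6768
theorem v9974 : PV l9974 := r9974 v4084 v3216 v2556 v7703 v328 v9224 v8569 v9683 v2559
theorem v9975 : PV l9975 := r9975 v3303 v9936 v5802 v7053
theorem v9976 : PV l9976 := r9976 v3268 v3308 v1145 v1210 v5034 v4228 v9929 v1073 w4708 v3095 w2522 w6046 w4171 w4153 w4156 v4995 v4060 v4049 w2449
theorem v9977 : PV l9977 := r9977 v7840 v9243 v2989 v1145 v1210 v3851 v2991 v3817 w876 v9975 v3308 v9976 v706 w6669 w6393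
theorem v9978 : PV l9978 := r9978 v3308 v328 v3089 w2488 v9317 v4550 v9102 v9747 v4518 w4409 v5000 w4102
theorem v9979 : PV l9979 := r9979 v4763 v3816 v4549 v3813 w4296 w3897 v6130 v5020
theorem v9980 : PV l9980 := r9980 v3216 v2556 v2615 v7703 v9790 v5377 v9243 v2991 v5303 v480 v9791 v3826 v1145 w4574 v9272 v3000 v5035 v9880 v4838 v7840 v5587 v2733 w4972 v4131 v3339 v3114 w8776 v2840 v3335 w4971 v3111 v4097 w8777 w9017 w8610 v481 v390 v4216 v4225 v4799 v3147 v5039 v2547 v2989 v3222 v1210 v3851 v1209 v5272 v3833 v2992 v4084 v9974 w5827 w5826 w5825 w9076 v3452 v3435 v3431 v2544 v4775 v4771 v2562 v2561 v3006 w6478 w4474 w6363 w6731 v9977 v9884 v4007 v3308 v9885 v8043 v9978 v3075 w2472 w2449 v9979 v9942 v4535 v9202 v2767 w3924 v4547 v8946 v4527 w3964 v3096 v4991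
theorem v9981 : PV l9981 := r9981 v2615 v9790 v480 v5377 v5303 v5587 v2733 v7703 v9243 v2991 v9791 v9880 w4972 v4131 v3339 v3114 v9272 v3000 v5035 v4838 w8776 v2840 v4841 v481 v390 v4225 v3216 v3826 v5272 v2995 v2556 v9980 v2571 v8636 w9167 v2707 w3239 v2576 v6140
theorem v9982 : PV l9982 := r9982 v9790 v480 v5377 v5303 v5587 v2733 v7703 v9243 v2991 v9791 v9880 w4972 v4131 v3339 v3114 v9272 v3000 v5035 v4838 w8776 v2840 v3335 w4971 v3111 v4097 w8777 w9017 v481 v390 v4216 v4225 v4799 v3216 v3826 v1145 v1209 v1210 v328 v9971 w4574 v9973 v2615 v9981 v2713 v8562 v8144 v5519 v501 w3582 v3408 w9122 v4775 v4083 v7971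
theorem v9983 : PV l9983 := r9983 v7978 v9817 w8150
theorem v9984 : PV l9984 := r9984 v3303 v3235 v2379 v2380 v3250 v3249 v9838
theorem v9985 : PV l9985 := r9985 w8236 w8187
theorem v9986 : PV l9986 := r9986 v7978 v9985 w7903 w7850
theorem v9987 : PV l9987 := r9987 w3648 v9817 v2606 w7777 w8119
theorem v9988 : PV l9988 := r9988 w3428 w3756 w3757 v9984
theorem v9989 : PV l9989 := r9989 v9986 v2550 v9988 v9432 v9987
theorem v9990 : PV l9990 := r9990 v3222 w3414 w3663 v1279 v4803 w1452 w7959 v3595 v9894 w8283 w5637 v9117 v2293 v2307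
theorem v9991 : PV l9991 := r9991 v2554 v2550 v2551 v2552 w2339 w2340 v9990 w3438 v3611 v3915 v3914
theorem v9992 : PV l9992 := r9992 w7777 w8119
theorem v9993 : PV l9993 := r9993 w3648 w3646 w3647 v9991 w8000 v2606 v2608 v9992 v4468 v4465
theorem v9994 : PV l9994 := r9994 v3222 v3235 v2379 v2380 v9990
theorem v9995 : PV l9995 := r9995 w3648 w3647 v5728 v2550 v2551 w7777 v3914 v5680 v3605 v3611
theorem v9996 : PV l9996 := r9996 w3643 v9817 v2608 v4918 v4924
theorem v9997 : PV l9997 := r9997 w8866 v4204 w694 w688 w714 v9883 v9986 v2552 w2339 v9996 w3756 v7982 v9907 v616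
theorem v9998 : PV l9998 := r9998 w714 v7982 v9432 w3756
theorem v9999 : PV l9999 := r9999 v9243 v2708 v3935 v3934 v2628 w3427 w3752 w3756 v9994 v2620 v7987 v2469 w2712 v5893 w4273 v4653 v3576 w7871 w8205
theorem v10000 : PV l10000 := r10000 v2708 v3222 v9989 v9993
theorem v10001 : PV l10001 := r10001 v2628 v5377 v4210 v9243 v480 v5303 v5587 v2733 v2833 v481 v390 v4225 v9808 v2708 v2554 v2712 v1412 v4216 v4799 v3147 v2834 v5039 v2547 v4209 v3935 v3934 v2627 w5285 w5286 w5287 w5290 v9997 v2477 v4280 v4260 w699 w695 w690 v9999 w3648 w3647 v10000 v8027 v7985 w4273 v8911 v9817 w8000 v2550 v2551 v3915 v3611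
theorem v10002 : PV l10002 := r10002 v8332 v634
theorem v10003 : PV l10003 := r10003 v2554 v5377 v5303 v2712 v9243 v2991 v480 v9791 v3826 v1145 v1210 v2708 w8866 v328 v1412 v433 v9109 v481 v5587 v2733 v390 v4216 v4799 v3147 v5039 v2547 v4210 v1209 v3833 v1139 v10001 w5680 w5679 w5590 w5589 v9998 v2477 v4280 w691 v10002 w3755 v9432 v8310 v9995
theorem v10004 : PV l10004 := r10004 v3234 v9992 v4580 v3611 v3892 v3893
theorem v10005 : PV l10005 := r10005 w3648 w3645 w3647 v10004 v2550 v1510 w8000 v3930 v5872 v8911 v4473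
theorem v10006 : PV l10006 := r10006 v9994 v10002 v7987 w4646 w4631 w2712 w2714 v4653 v3613 v4458
theorem v10007 : PV l10007 := r10007 v5377 v4209 w690 v4210 v2269 w691 v4260 v5039 v4280 v2477 v480 v5303 v5587 v2733 v3147 v9243 v2834 v3935 v3934 v2628 v2627 v3222 v2383 v2379 v4580 v9840 v2452 v2448 w8770 w8286 w7959 w5637
theorem v10008 : PV l10008 := r10008 w4271 v4653 v3613 v4458
theorem v10009 : PV l10009 := r10009 v5377 v4209 w690 v4210 w695 w699 w691 v4260 v5039 v4280 v2477 w4295 v2628 v9243 v480 v5303 v5587 v2733 v2833 v481 v390 v4225 v9808 v2708 v1412 v4216 v4799 v3147 v2834 v2547 v3935 v3934 v3222 v9989 v10005 w3427 w3428 w3754 w3756 w3757 w3755 v10006 v10007 v2620 v7987 w2712 w2714 v10008 w4649 v737 v1092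
theorem v10010 : PV l10010 := r10010 v9986 v9987 v2550
theorem v10011 : PV l10011 := r10011 v3234 v2381 v9992 v4580 v2827 v3611 v1091 v3893 w7749 w4656
theorem v10012 : PV l10012 := r10012 w3648 w3645 w3647 v10010 v10011 v2550 v1510 w8000 v3930 v5872 v8911 v4473
theorem v10013 : PV l10013 := r10013 v5377 v4209 w690 v4210 v2269 w691 v5039 v4280 v2477 v2628 v9243 v480 v5303 v5587 v2733 v2833 v481 v390 v4225 v9808 v3147 v2834 v3935 v3934 v2627 v3222 v2383 v2379 v4580 v9850 v2452 v2448 w8770 w8286 w7959 w5637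
theorem v10014 : PV l10014 := r10014 w4295 v2628 v5377 v4210 v9243 v480 v5303 v5587 v2733 v2833 v481 v390 v4225 v9808 v2708 v2554 v2712 v4216 v4799 v3147 v2834 v5039 v2547 v4209 v3935 v3934 v2627 w5285 w5286 w5287 w5290 v9997 v2477 v4280 v4260 w691 w699 w695 w690 v10009 v10012 w3427 w3428 w3754 w3756 w3757 w3755 v10006 v10013 v2620 v7987 w2712 w2714 v10008 w4649 v737 v1092
theorem v10015 : PV l10015 := r10015 w3643 v9432 v5728 v2552 w2339 w7791 w7752 v3874 v3539 w7959 v1674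
theorem v10016 : PV l10016 := r10016 v5377 v5303 v9243 v2991 v480 v9791 v3826 v5039 v2547 v481 v5587 v2733 v390 v4225 v4216 v9936 v3833 v3100 v1145 v1209 v9961 w2569 v9008 v5867 v328 v1412 v433 v9109 w5096 v2989 w2525 w2534 v3089 v4231 v4228 v5034 v3303 v3820 v3817 v2554 v2712 v1210 v2708 w8866 v4799 v2833 v4210 v3222 v3851 v2628 v2627 v2992 v3816 v3808 v9858 v8064 v8148 v5956 v3986 v3287 w4162 w4164 v9950 w6046 v4062 v6709 v4031 w2465 v9808 v3074 v9519 v10003 w4289 v10014 w5680 w5679 w5682 w5585 v9998 v4260 w691 w695 v10015 w3753 w3755 v10002 v8332 w1469 w7824 w7921 w2277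
theorem v10017 : PV l10017 := r10017 v10004 v3611 v4284 v3911 w4634 w7809 w7767
theorem v10018 : PV l10018 := r10018 v5042 v3911 v3612 v4958
theorem v10019 : PV l10019 := r10019 v9921 w3438 v2287 v10017 v10018 w4273 w7757 w7797
theorem v10020 : PV l10020 := r10020 v8341 v7985 v3595 w4274 v3901
theorem v10021 : PV l10021 := r10021 w7757 w7797
theorem v10022 : PV l10022 := r10022 w3648 w3645 w3646 w3647 v10019 v10020 v5042 v10021 w4273 v3911 v10018 v3616
theorem v10023 : PV l10023 := r10023 v2708 v4210 v4209 v4204 w694 w714 v9997 v9986 v2550 v2551 v2552 w2338 v10022 w3427 w3756 v8341 v3599 v7982 w4657 v3870 v3871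
theorem v10024 : PV l10024 := r10024 v9243 v2708 v3935 v3934 v2628 w3427 w3752 w3756 v9994 v2620 v7987 v2469 w2713 v5893 w4750 w4274 w8205 v4652 v3540
theorem v10025 : PV l10025 := r10025 v3222 v2379 v9994 v10004 w3438 v2850 v1509 v9803
theorem v10026 : PV l10026 := r10026 v2628 v5377 v4210 v9243 v480 v5303 v5587 v2733 v2833 v481 v390 v4225 v9808 w4780 w4296 v2554 v2712 v4216 v4799 v3147 v2834 v5039 v2547 v4209 v3935 v3934 v2627 w5285 w5286 w5287 w5290 v10023 v2477 v4280 v4260 w699 w695 w690 v10024 w3648 w3643 w3645 w3647 v10025 v2550 v1510 v7978 w8000 v3930 w7694 v8911 v4473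
theorem v10027 : PV l10027 := r10027 v328 v1412 v433 v5377 v9243 v2991 v5303 v480 v9791 v3826 v9109 v1145 v1209 v9961 w2569 v3100 v5039 v2547 v481 v5587 v2733 v390 v4225 v4216 v9936 v9008 w5096 v3089 v5034 v3303 v2554 v2712 v1210 v2708 w8866 v4799 v2833 v4210 v4209 v2989 v3222 v3851 v3833 v2628 v2627 v2992 v10016 v3811 v3813 w4296 w4293 v3986 v5849 w3911 w3897 v6709 v4031 v9675 v9808 w2461 v1139 v10026 w5680 w5679 w5678 w5585 v9998 v4260 w691 w690 v10015 w3756 w3757 w3755 v10002 v634 w1456 v2295 w7866 w7959 w2258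
theorem v10028 : PV l10028 := r10028 v9817 v2608 w3646 v4201 v9987 v1091 v4949 v1092 w4653
theorem v10029 : PV l10029 := r10029 v5042 v3234 v2468 v4935 v5876
theorem v10030 : PV l10030 := r10030 w3645 w3646 v9817 v2606 v2607 v2608 w1534 v5652 v2858 w3415 v10028 v2473 v10029 v2620 v4949 w7732 w4653
theorem v10031 : PV l10031 := r10031 v4204 v4231 v3303 v3820 v2712 v9243 v2991 v2992 v3816 v3808 v9858 v8148 w4164 v6709 v4031 v9808 v9519 v10030 w3756 v9985 v7982 v9907 w2339 v616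
theorem v10032 : PV l10032 := r10032 v5034 v3303 v3811 w4296 v3986 v1140 v5849 w2461 w3911 v4031
theorem v10033 : PV l10033 := r10033 w694 w714 v10031
theorem v10034 : PV l10034 := r10034 v10011 v10004
theorem v10035 : PV l10035 := r10035 w3648 w3643 w3645 v10034 v2620 v7987 v1510 v5689 v2827 v2450 w4660 w7708
theorem v10036 : PV l10036 := r10036 v2628 v5377 v4210 v9243 v480 v5303 v5587 v2733 v2833 v481 v390 v4225 v9808 v10007 v10013
theorem v10037 : PV l10037 := r10037 v9243 v2989 v5377 v5303 v3222 v2991 v480 v9791 v3826 v1145 v1210 v3851 v1209 v9961 v481 v5587 v2733 v390 v4225 v4216 v3820 v4231 v2992 v3808 v9858 v3303 w2534 v8148 w4164 v4031 w2461 v1140 w4289 w4295 v2628 v4210 v2833 v6709 v9808 v2708 v1412 v4799 v3147 v2834 v5039 v2547 v4209 v3833 v3935 v3934 v2627 w5285 w5286 w5287 w5288 w5290 v10033 v2477 v4280 v4260 w691 w699 w695 w690 v10035 w3427 w3428 w3752 w3754 w3756 w3757 w3755 v10006 v10036 v2620 v7987 w2712 w2714 v10008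 w4649 w7871 v737
theorem v10038 : PV l10038 := r10038 v9998 v4260 w691 v10015 w3755 v8332 w7824 w8673
theorem v10039 : PV l10039 := r10039 v5377 v9243 v2991 v5303 v480 v9791 v3826 v1145 v1209 v9961 w2569 w2534 v3089 v4231 v3100 v3303 v3820 v2554 v2712 v1210 v2708 w8866 v328 v1412 v433 v9109 v481 v5587 v2733 v390 v4216 v4225 v4799 v5039 v2547 v4210 v2992 v9936 v9008 w5096 v10027 v10032 v3808 v9858 v8148 w4162 w4164 v4031 v9519 v10037 w5680 w5679 w5585 v10038 v4062
theorem v10040 : PV l10040 := r10040 v7978 v9996 v2552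
theorem v10041 : PV l10041 := r10041 v4204 w694 w688 w714 v9883 v10040 w3427 w3756 v8341 v7982 v9907 w4636 v616 v8180 v2379
theorem v10042 : PV l10042 := r10042 w3648 w3645 w3647 v10034 v1510 v3930 v4473 v4476
theorem v10043 : PV l10043 := r10043 v5377 v4209 w690 v4210 w695 w699 v4260 v5039 v2477 v2628 v9243 v480 v5303 v5587 v2733 v2833 v481 v390 v4225 v9808 v3147 v2834 v3935 v3934 v9994 v10036
theorem v10044 : PV l10044 := r10044 v9999 v1139
theorem v10045 : PV l10045 := r10045 v2628 v5377 v4210 v9243 v480 v5303 v5587 v2733 v2833 v481 v390 v4225 v9808 v2708 v1412 v3147 v2834 v4209 v5039 v2477 v4280 v4260 w699 w695 w690 v10042 w3427 w3428 w3752 w3754 w3756 w3757 w3755 v10043 v2620 v7987 w2712 w2714 v10044 v10008 w4649 w7871 v737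
theorem v10046 : PV l10046 := r10046 v8341 v10028 v2827
theorem v10047 : PV l10047 := r10047 v10029 v2471
theorem v10048 : PV l10048 := r10048 w3645 w3647 v9817 v2606 v2607 w1534 v10046 v5042 v2473 v10047 v2620 v4957 w4649 w8695 w7732
theorem v10049 : PV l10049 := r10049 v328 v1412 v433 v5377 v9243 v2991 v5303 v480 v9791 v3826 v9109 w5290 w5288 w5287 w5286 w5285 v1145 v1209 v9961 w2534 v4231 v3303 v3820 v2554 v2712 v1210 v2708 w8866 v481 v5587 v2733 v390 v4216 v4225 v4799 v3147 v2834 v2833 v5039 v2547 v4210 v4209 v2989 v3222 v3851 v3833 v2628 v2627 v2992 v3816 v3808 v9858 v8148 w4162 w4164 v4062 v6709 v4031 v9808 v9519 w2461 v10045 v4204 w694 w714 v10041 v10048 w3429 w3756 v7982 v9907 w4650 v616 v3160 v3171 v4273 v4932 v4934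
theorem v10050 : PV l10050 := r10050 v1244 v1140 w714 v7978 v2552 v2551 v2550 v4209 w694 v4204 v1139 v2708 v4210 v9808 v10041 v10022
theorem v10051 : PV l10051 := r10051 v1145 v1210 v8969 v8855 v4055
theorem v10052 : PV l10052 := r10052 v3303 v9519 v9675 v4031 v4055 v6293
theorem v10053 : PV l10053 := r10053 w714 v1244 v1140 v2708 w8866 v7978 v10050 w2338
theorem v10054 : PV l10054 := r10054 v4210 v9808 v1244 v1140 v2708 w8866 v4209 v4204 w694 v10041 v10053 w3427 w3756 v8341 v7982 w4636 v2294 v8180 v9893 v2379 v616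
theorem v10055 : PV l10055 := r10055 v5377 v9243 v2991 v5303 v480 v9791 v3826 v1145 v1209 v9961 v328 v1412 v433 v9109 v2554 v2712 v481 v5587 v2733 v390 v4216 v4225 v4799 v3147 v2834 v2833 v5039 v2547 v4210 v4209 v2989 v3222 v1210 v3851 v3833 v3935 v3934 v2628 v2627 v2992 w5285 w5286 w5287 w5290 v10049 v3811 v3813 w4296 w4293 w4780 v1244 v1139 v10051 v9808 v10052 v10054 v2477 v4280 v4260 w699 w695 w690 v10024 w3648 w3643 w3645 w3647 v10025 v1510 w7694 v3930 w4273 v4476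
theorem v10056 : PV l10056 := r10056 w2534 v3303 v3820 v3934 v9858 v8148 w4162 w4164 v4062 v4031 v9519 v9998 v4260 w691 v10015 w3755 v10002 v8332 v2447 v3541 v5893 v3903 v3232
theorem v10057 : PV l10057 := r10057 v5377 v9243 v2991 v5303 v480 v9791 v3826 v1145 v1209 v9961 v4231 v4082 v2554 v2712 v1210 v328 v1412 v433 v9109 v4602 v2708 w8866 v481 v5587 v2733 v390 v4216 v4225 v4799 v2833 v5039 v2547 v4210 v4209 v2628 v2627 v2992 w6382 w6700 v10039 v10055 w5680 w5679 w5678 w5590 w5585 w5588 v10056 v3808 v4055 v3811 v3813 w4296 w4293 v1244 v1139 v8855 v10052 v9808 v9998 v4260 w691 w690 v10015 w3756 w3757 w3755 v634 w1456 v2295 w7866 w7959 w2258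
theorem v10058 : PV l10058 := r10058 v5034 v3303 v9858 v8148 w4173 w4164 w4191 v3986 v4031 v3320 w2690 v5671
theorem v10059 : PV l10059 := r10059 v5377 v4233 v4231 v5034 v3100 w1726 v5303 v3821 v3820 v4082 v2554 v2712 v9243 v2991 v480 v9791 v3826 v1145 v1210 v328 v1412 v433 v9109 v4602 v2708 w8866 v3935 v5587 v2733 v4664 v481 v390 v4216 v4225 v1209 v3833 v2992 v9961 v3089 w2534 w2542 v10057 v10058 v3808 w5979 v3811 w4177 w4167 w4192 v9127 v3986 w2690 v3320 w6090 w6074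
theorem v10060 : PV l10060 := r10060 v3303 v8951 v5806 v3085 v4031 v6293
theorem v10061 : PV l10061 := r10061 v5377 v5303 v481 v480 v5587 v2733 v390 v4216 v4225 v3147 v7703 v9243 v2991 v9791 v3826 v1145 v1209 v1210 v2992 v10059 v4618 w4293 w4327 v3808 v4864 v5956 v4767 w3895 v10060 v5745 v8979
theorem v10062 : PV l10062 := r10062 v3303 v7053 w3959 v9949 v3216 v9915 v3075 v4779 v4040 v4885 v4882
theorem v10063 : PV l10063 := r10063 v5377 v5303 v3821 v3817 v481 v480 v5587 v2733 v390 v4216 v4225 v4799 v3147 v9243 v2833 v5039 v2547 v7703 v2989 v3222 v2991 v9791 v3826 v1145 v1210 v3851 v1209 v3008 v1149 v3833 v3303 v10061 w26 w36 v7053 w3959 v9949 v10062 v4618 v3091 v4088 v2779 w3900 v1075 w6115 v6288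
theorem v10064 : PV l10064 := r10064 v3222 v3268 v3308 v9790 v5377 v5303 v3817 w5514 v480 v5587 v2733 v7703 v9243 v2991 v9791 v9880 w4972 v4131 v3339 v3114 v9272 v3000 v5035 v4838 w8776 v2840 v3147 v2989 v3826 v1145 v1210 v3851 v2996 v4228 v9952 v4618 w4327 v4088 v4864 v4767 v1085 w2522 v3091 w6046 v4060 w4153
theorem v10065 : PV l10065 := r10065 v9272 v7703 v328 v1412 v433 v3000 v5035 v9880 v4838 v9790 v5377 v9243 v2991 v5303 v480 v9791 v3826 v4841 v9109 w5513 v3423 w5514 w5017 v5587 v2733 w4972 v4131 v3339 v3114 w8776 v2840 v3335 w4971 v3111 v4097 w8777 w9017 w8610 v2996 v2994 v10063 v3308 v10064 v7117 v8757 v5861 v3310 v3311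
theorem v10066 : PV l10066 := r10066 v3303 v8873 v5977 v4761 w3906 w3897
theorem v10067 : PV l10067 := r10067 v3321 v4763 v3216 v7703 v2994 v3303 v3100 v5849 w4037 v5671 v10066 v8043 v5672 w6700 v4779 v4730 w2689 v5795 v5673 w3919
theorem v10068 : PV l10068 := r10068 v5034 v3308 v3089 v9786 v7859
theorem v10069 : PV l10069 := r10069 v5034 v4763 v3075 w2449 v8747 v5020 v5015 w3897 w3906
theorem v10070 : PV l10070 := r10070 v4763 v1210 v5034 v10068 v9656 v5029 v10069 v4618 v9002 w3895 v5021 v5020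
theorem v10071 : PV l10071 := r10071 w2525 v9317 v4550 v9390 w4153 w6027
theorem v10072 : PV l10072 := r10072 v4007 v9790 v5377 v5303 v481 v480 v5587 v2733 v390 v4225 v3147 v7703 v9243 v2991 v9791 v3826 v1145 v1209 v3833 v9272 v2992 v9943 v3075 w2472 v3816 v5672 v3813 w4293 v4533 v2781 v5010 v4529
theorem v10073 : PV l10073 := r10073 v7703 v328 v1412 v433 v9272 v3000 v5035 v9880 v4838 v9790 v5377 v9243 v2991 v5303 v480 v9791 v3826 v4841 v9109 v3216 v2556 v5587 v2733 v2834 w4972 v4131 v3339 v3114 w8776 w3780 v2840 v3335 w4971 v3111 v4097 w8777 w9017 w8610 v481 v390 v4216 v4225 v3147 v5039 v2989 v3222 v1145 v1210 v3851 v1209 v3833 v2996 v4084 v9898 v4602 w3582 w9178 w5513 w5017 w5512 w5514 v3423 v10065 v3951 v10067 v3268 v10070 w26 v10071 v10072 v4618 v8947 w4327 v4779 v4864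
theorem v10074 : PV l10074 := r10074 v1412 v433 v5035 v7703 v9272 v3000 v9880 v4841 v4838 v3216 v9790 v5377 v9243 v2991 v5303 v480 v9791 v3826 v328 v2556 v9109 v10073 v7190 v2571 v2602 v7233 v7037 w9121
theorem v10075 : PV l10075 := r10075 v4231 v9857 v9858 v5806 v4068 v4618 v3091 w3888 w6092 w6166
theorem v10076 : PV l10076 := r10076 v3303 w2463 w2449 v9950 v728 v4024 v4048 v4020
theorem v10077 : PV l10077 := r10077 v5272 w3944 v3820 v10075 v9949 v10076 v4618 v4088 w3895 v5847 v6288 v7838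
theorem v10078 : PV l10078 := r10078 v3216 v7703 v1145 v1209 v2994 v3303 v5956 v10077 v4763 v10066 v9950 v8043 v5672 v4779 v5265 v4730 v5795 v6031 w3906
theorem v10079 : PV l10079 := r10079 v3308 v7703 v9790 v5377 v9243 v2991 v5303 v480 v9791 v3826 v1145 v1210 w5513 v5723 v3335 v9880 w4971 v3111 v5035 v4097 v9272 v3000 v4838 w8777 w9017 v4841 v10064 v8757 v5861 v7117 v3310 v3311
theorem v10080 : PV l10080 := r10080 v7703 v9790 v5377 v9243 v2991 v5303 v480 v9791 v3826 v1145 v1210 w5513 v5723 v9272 v3423 v9880 w4971 w5814 w5514 w5512 w5017 v2548 v2712 v1412 v5587 v2733 v2834 w4972 v4131 v3339 v3114 v3000 v5035 v4838 w8776 w3780 v2840 v3335 v3111 v4097 w8777 w9017 w8610 v481 v390 v4216 v4225 v4799 v3147 v5039 v2547 v2989 v3222 v3851 v3833 v4082 w6768 w8852 w8727 w8510 v3003 v4610 v4605 v10078 v3308 v3268 v10079 v3951 v10070 w26 v9943 v1074 v10071 v3091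
theorem v10081 : PV l10081 := r10081 v4231 v5034 v3820 v1412 v9243 v7703 v2991 v2992 v9960 v4618 w4293 v3808 v9866 v10078
theorem v10082 : PV l10082 := r10082 w6615 v7703 v1145 v1209 v4086 v10081 v5806 v4068 v9961 v4618 v3091 w3888 w6092 w6166
theorem v10083 : PV l10083 := r10083 v3303 v7703 v1145 v1209 v3008 v1149 v10082 v7053 w3959 v9949 v6288 v2779 w3906 v4618 w3897 w2449 v5655
theorem v10084 : PV l10084 := r10084 v4885 v4882
theorem v10085 : PV l10085 := r10085 v10080 v7703 v9790 v5377 v9243 v2991 v5303 v480 v9791 v3826 v1145 v1210 w5513 v5723 v9272 v3423 v9880 w4971 w5814 w5514 w5017 v3935 v5587 v2733 v4664 w4972 v4131 v3339 v3114 v3000 v5035 v4838 w8776 v2840 v4097 v3335 v3111 w8777 w8610 v481 v390 v4216 v4225 v4799 v3147 v5039 v2547 v3833 v10079 v10083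
theorem v10086 : PV l10086 := r10086 v4763 v3303 v5849 v8085 v10066
theorem v10087 : PV l10087 := r10087 v10074 v2713 v1412 v9243 v9790 v480 v5377 v5303 v5587 v2733 v2834 v7703 v2991 v9791 v9880 w4972 v4131 v3339 v3114 v9272 v3000 v5035 v4838 w8776 w3780 v2840 v3335 w4971 v3111 v4097 w8777 w9017 w8610 v481 v390 v4216 v4225 v3147 v5039 v3216 v2989 v3222 v3826 v1145 v1210 v3851 v3833 v2994 v9966 w5513 w5512 w5514 v3423 v10080 v2571 w9075 v2707 v2583 v6049 v10084 v4779 v10085 v3951 v10086 v3268 v10070 w26 v10071 v10072 v4618 v8947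
theorem v10088 : PV l10088 := r10088 v9982 v9790 v5377 v5303 v481 v480 v5587 v2733 v390 v4216 v4225 v4799 v7703 v9243 v2991 v9791 v3826 v1145 v2603 v10074 v10087 w4574 v5518 v9152 v2591
theorem v10089 : PV l10089 := r10089 v9790 v5377 v5303 v481 v480 v5587 v2733 v390 v4216 v4225 v4799 v3147 v9243 v2834 v5039 v2547 v5035 v4097 v4131 v3114 v3111 v7703 v2991 v9791 v3826 v1145 v1209 v1210 v3833 v3339 v3335 v9272 v3000 v2996 v2994 v2993 v2992 v3216 v9880 v10088 w4971 w4972 v4838 v3927 v3470 w6762 w8777 w8776 v7840 v3452 v5795 v4864 v3457 v491 v487 w4914 v1767 w8610 w9017 v2840 w3780 w4296 v4865 v3423 v5723 v3417 v3816 v3808 v9919 v3951 v9940 v9955 v9943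
theorem v10090 : PV l10090 := r10090 v9272 v9790 v480 v5377 v5303 v5587 v2733 v2837 v4130 v3113 v7703 v9243 v2991 v9791 v3338 v2998 v5035 v10089 v4846 w4965 v4850 w8774
theorem v10091 : PV l10091 := r10091 v3222 v9243 v5039 v9790 v5377 v5303 v3935 v7703 v2991 v480 v9791 w4494 v4633 v3342 v4133 v1779 v3126 v4665 v4967 v481 v5587 v2733 v390 v4216 v4225 v4799 v2547 v3826 v3820 v9888 v3308 v9938 v706 w6669 v2789 v5858
theorem v10092 : PV l10092 := r10092 v4763 v3303 v5849 v10086 v10066 v2783 v5672 v5673 w2474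
theorem v10093 : PV l10093 := r10093 v9790 v5377 v5303 v481 v480 v5587 v2733 v390 v4216 v4225 v3147 v9243 v2834 v4133 v4131 v5039 v3114 v7703 v2991 v9791 v3826 v1145 v1209 v1210 v3833 v3342 v3339 v3935 v3222 v9272 v3000 v2996 v2994 v2993 v2992 v5035 v10090 v1412 v4834 v4967 w4494 w4972 w8776 v4633 v2840 w3780 v1779 v3126 v3140 v10088 v3927 v3470 w6762 v3452 v5795 v4864 v4885 v3457 v3408 v491 v1767 w4296 v1247 v4865 v5650 v3417 v3423 v5723 v3816 v3808 v10091 v3951 v10092 v9943 v10070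
theorem v10094 : PV l10094 := r10094 v10093 v9790 v5377 v5303 v481 v480 v5587 v2733 v390 v4225 v3147 v9243 v2834 v5035 v4097 v4131 v3114 v3111 v7703 v2991 v9791 v3826 v1145 v1209 v3833 v3339 v3335 v9272 v3000 v2994 v2993 v2992 v3216 v9880 v9982 v9981 w4971 w4972 v4838 v3927 v3470 w6762 v9954 w8777 w8776 v7840 v3452 v5795 v491 v487 w4914 v1767 v3951 w8610 v2840 w3780 w4296 v1247 v3423 v3403 v9891 v3816 v3265 v9943 v9892
theorem v10095 : PV l10095 := r10095 v9272 v9790 v480 v5377 v5303 v5587 v2733 v2837 v4130 v3113 v7703 v9243 v2991 v9791 v3338 v2998 v5035 v10094 v4846 w4965 v4850 w8774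
theorem v10096 : PV l10096 := r10096 w876 v7703 v1412 v4967 v1145 v1210 v2996 v9243 v2991 v2992 v328 v2617 v9221 w2924 w5017 w5514 w6731 v9936 v4618 w4293 w4327 v3808 v4864 v10078 v4767 v10060
theorem v10097 : PV l10097 := r10097 v2554 v9243 v5039 v9790 v5377 v5303 v3935 v7703 v2991 v480 v9791 v10095 v1412 w4494 v4633 v3342 v4133 v5587 v2733 v2834 v5035 v4834 w4972 v4131 v3339 v3114 v4967 w8776 w3780 v1779 w2388 v3222 v3126 v2840 v10093 v2615 v481 v390 v4216 v4225 v4799 v3147 v2547 v3826 v1145 v1210 v3833 v9272 v2996 v2992 v10096 v9953 v9951 w5514 v4618 w4293 w4327 v3808 v4864 v10078 v4767 v10060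
theorem v10098 : PV l10098 := r10098 v2554 v9243 v5039 v9790 v5377 v5303 v3935 v7703 v2991 v480 v9791 v10095 v1412 w4494 v4633 v3342 v4133 v5587 v2733 v2834 v5035 v4834 w4972 v4131 v3339 v3114 v4967 w8776 w3780 v1779 w2388 v3222 v3126 v2840 v10093 v2615 v481 v390 v4225 v3147 v9272 v10097 v3442 w5513 v9221 v9953
theorem v10099 : PV l10099 := r10099 v8636 v9974
theorem v10100 : PV l10100 := r10100 v3820 v1145 v1210 v9243 v2991 v2992 v4618 w4293 v3808 v10075 v10060
theorem v10101 : PV l10101 := r10101 v7703 v1145 w4574 w876 v4084 w9076 v2544 v5704 v2562 w6478 v9975 w6731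
theorem v10102 : PV l10102 := r10102 v9790 v5377 v4231 v3100 v10093 w876 v5303 v3820 v2554 v9243 v5039 v3935 v7703 v2991 v480 v9791 v10095 v1412 w4494 v4633 v3342 v4133 v5587 v2733 v2834 v5035 v4834 w4972 v4131 v3339 v3114 v4967 w8776 w3780 v1779 w2388 v3222 v3126 v2840 v2615 v481 v390 v4216 v4225 v4799 v2547 v3826 v1145 v5272 v9272 w4574 v10099 w5827 w5826 w5825 v3452 v3435 v3431 v4771 v10100 v10101 v2571 v8634 v4086 w9167 v9945 w8968 v9946
theorem v10103 : PV l10103 := r10103 v2554 v9243 v5039 v9790 v5377 v5303 v3935 v7703 v2991 v480 v9791 v10095 v1412 w4494 v4633 v3342 v4133 v5587 v2733 v2834 v5035 v4834 w4972 v4131 v3339 v3114 v4967 w8776 w3780 v1779 w2388 v3222 v3126 v2840 v10093 v2615 v481 v390 v4225 v3147 v9272 v10102 v10098 v3423 w5513 v9221 v9953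
theorem v10104 : PV l10104 := r10104 v3303 v7053 v4618 v4088 v2779 v5847 v6288 v7838
theorem v10105 : PV l10105 := r10105 v9243 v5039 v9790 v5377 v5303 v3935 v7703 v2991 v480 v9791 v10095 v1412 w4494 v4633 v4967 v481 v5587 v2733 v390 v4216 v4225 v4799 v2547 v3826 v1145 v1209 v3008 v1149 v3833 v3303 v10103 v7053 w3959 v9949 v10104 v10076 w2449 v5655
theorem v10106 : PV l10106 := r10106 v10105 v2554 v9243 v5039 v9790 v5377 v5303 v3935 v7703 v2991 v480 v9791 v10095 v1412 w4494 v4633 v3342 v4133 v5587 v2733 v2834 v5035 v4834 w4972 v4131 v3339 v3114 v4967 w8776 w3780 v1779 w2388 v3222 v3126 v2840 v10093 v2615 v481 v390 v4225 v3147 v9272 v10079 v9221 v9953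
theorem v10107 : PV l10107 := r10107 v3268 v3308 v1145 v1210 v4228 v9976 v1073 w2522 v3091 w6046 v4060 w4153
theorem v10108 : PV l10108 := r10108 v2554 v9243 v5039 v9790 v5377 v5303 v3935 v7703 v2991 v480 v9791 v10095 v1412 w4494 v4633 v3342 v4133 v5587 v2733 v2834 v5035 v4834 w4972 v4131 v3339 v3114 v4967 w8776 w3780 v1779 w2388 v3222 v3126 v2840 v4665 w4493 v6250 v10093 v2615 v481 v390 v4216 v4225 v3147 v2989 v3826 v1145 v1210 v3851 v5272 v9272 v3817 v10105 v3308 v10106 w4574 v10099 w5827 w5826 w5825 v3452 v3435 v4771 v10107 v8757 v7117 v5861 v3311 v3310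
theorem v10109 : PV l10109 := r10109 v4763 v5034 v10066 v8083 v4746
theorem v10110 : PV l10110 := r10110 v3303 v5672 v4763 v5035 v4834 v7703 v2994 w5513 w5514 v3423 v8043 v5849 v4730 v4779 w4025 v5795 v4885 w4203 w3906 v6166
theorem v10111 : PV l10111 := r10111 v2615 v10110 v9221 v9953
theorem v10112 : PV l10112 := r10112 v7703 v1412 v4967 v2615 v1209 v1210 v10109 v10111 w4574 v10099 w5827 w5826 w5825 v3452 v3431 v4775 v10086
theorem v10113 : PV l10113 := r10113 v4763 v5034 v10068 v9656 v5029 v10069 v4618 v8938 w3895 w2451 v5020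
theorem v10114 : PV l10114 := r10114 v9243 v7703 v2989 v9790 v5377 v5303 v3222 v2991 v480 v9791 v3826 v1145 v1210 v3851 v481 v5587 v2733 v390 v4225 v3935 v5039 v10095 v1412 w4494 v4665 v9272 v3833 v5272 v3147 v4216 v10093 v4633 v5035 v4834 w4972 v4131 v3339 v3114 v4967 w8776 v2840 v3342 v4133 v2834 w3780 v1779 v3126 v3140 v2554 w2388 v10108 v10112 v3268 v10113 w26 v10071 v2996 w5513 w5512 w5514 v3423 v10072 v4618 v8947 w4327 v4779 v4864
theorem v10115 : PV l10115 := r10115 v2554 v9243 v5039 v9790 v5377 v5303 v3935 v7703 v2991 v480 v9791 v10095 v1412 w4494 v4633 v3342 v4133 v5587 v2733 v2834 v5035 v4834 w4972 v4131 v3339 v3114 v4967 w8776 w3780 v1779 w2388 v3222 v3126 v2840 v10093 v2615 v481 v390 v4225 v3147 v9272 v10114 v9221 v9953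
theorem v10116 : PV l10116 := r10116 v7703 v9790 v5377 v9243 v2991 v5303 v480 v9791 v3826 v1145 w4574 v2989 v3222 v1210 v3851 v481 v5587 v2733 v390 v4225 v3935 v5039 v1412 w4494 v4665 v3268 v3147 v4967 v4633 v10113 w26 v10071 v2615 v4216 v1209 v3833 v9272 v3000 v2992 v3008 v5035 v4084 w9076 v2544 v5704 v9103 w6478 w2449 v9942 w6363 v9979
theorem v10117 : PV l10117 := r10117 v10093 v2615 v9790 v5377 v5303 v481 v480 v5587 v2733 v390 v4216 v4225 v3147 v9243 v2834 v4133 v4131 v5039 v3114 v7703 v2991 v9791 v3826 v1145 v5272 v3833 v3342 v3339 v3935 v3222 v9272 v2995 v5035 v2554 v10095 v1412 v4834 v6250 v4967 w4494 w4972 w8776 v4633 v2840 w3780 v1779 v3126 v3140 w2388 v10108 v10112 v10115 w4574 v10099 w5827 w5826 w5825 v3452 v3431 v4775 v10116 v2571 w9167 v2707 w3239 v2576 v6140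
theorem v10118 : PV l10118 := r10118 v2615 v7703 v9790 v5377 v9243 v2991 v5303 v480 v9791 v3826 v1145 v1209 v3833 v9272 v7840 v9970 v9961 v2571 v6261 v2588 v9969 w9132 w3582
theorem v10119 : PV l10119 := r10119 v9243 v2834 v390 w5285 w5286 w5287 w5290 v9999 v10042
theorem v10120 : PV l10120 := r10120 v2628 v9243 v2833 v9808 v2834 v5039 v3935 v2477 v4280 v4260 w730 w691 w699 w695 w690 v10119 w5680 w5679 w5719 w5588 v10002 w3667 w3732 w3014 v744 v21 v3537 v3107 v3905
theorem v10121 : PV l10121 := r10121 w5287 w5290 v9983 w3427 w3429 w3757 v622 v8341 v5652 w1500 v4297 v3157 w8652 w8264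
theorem v10122 : PV l10122 := r10122 v2628 v4210 v9243 v2833 v9808 v2708 v4209 v2627 v10120 v4204 w688 w714 v9836 v9986 v10121 w5679 v9998
theorem v10123 : PV l10123 := r10123 w694 w688 w714 v9883
theorem v10124 : PV l10124 := r10124 v2628 v9243 v2833 v9808 v5039 v2477 v4280 v4260 w691 w699 w695 w690 v10119 w5680 w5590 v10002 v7985 w3002
theorem v10125 : PV l10125 := r10125 v2628 v4210 v9243 v2833 v9808 v2992 v3808 v3816 v2708 v2834 v4209 v1145 v1209 v1210 v2627 v2989 v2987 v10122 v10124 v4204 w688 w714 v10123 v9986 v10121 w5679 v9998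
theorem v10126 : PV l10126 := r10126 v1145 v1209 v1210 v9243 v2989 v2987 v10120 v10124
theorem v10127 : PV l10127 := r10127 w5679 v9998
theorem v10128 : PV l10128 := r10128 v9243 v2992 v3808 v3816 v2708 v4210 v4209 v5039 v1145 v1209 v1210 v3222 v1139 v10125 v10126 v4204 w714 v10127 w5285 w5287 w5290 v9983 w3427 w3752 w3753 w3756 v8341 v8342 v7982 v2473 v2474 v2381 v2382 v2379 v673 v616 v1105 w8268 w8649
theorem v10129 : PV l10129 := r10129 v9986 v10121
theorem v10130 : PV l10130 := r10130 v4204 w688 w714 v10123 v10127 w5285 w5286 w5287 w5290 v9983 w3427 w3756 v8341 v7982 v5042 w4639 w4622 v10129 v8342 v3234 v2471 v3616 v3889 w8099 w2714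
theorem v10131 : PV l10131 := r10131 w5285 w5286 w5287 w5290 v10045
theorem v10132 : PV l10132 := r10132 v10002 w3667 w3732 w3014 w3002 v744 v21 v7985 v3537 v3107 v3905
theorem v10133 : PV l10133 := r10133 w3648 w3646 v5728 w7791 v2611 v2613 v3905 v1510
theorem v10134 : PV l10134 := r10134 v3934 v2447 v3541 v5893 v3903 v3905
theorem v10135 : PV l10135 := r10135 v8332 w7786 w7705
theorem v10136 : PV l10136 := r10136 v9243 v2992 v5377 v5303 v3808 v481 v480 v5587 v2733 v390 v4216 v4225 v2834 v4210 v5039 v2991 v9791 v3826 v1145 v1209 v1210 v3935 v3934 v2989 v2987 v2477 v4260 w730 w691 v10131 w5680 w5679 w5719 w5590 w5588 v10132 v10135 v2447 v3541 v10134 v5893 v3903 w7740 w2713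
theorem v10137 : PV l10137 := r10137 v2628 v4210 v9243 v2833 v9808 v2992 v3816 v2708 v2834 v4209 v2989 v3222 v1145 v1210 v3851 v1209 v2627 v10128 v10130 w4288
theorem v10138 : PV l10138 := r10138 v4201 v8341 v2980 v2983 w3427 v9817 v10035 w8150 v2564 v2565 v1510 v4301 w7694 v4938 w4264
theorem v10139 : PV l10139 := r10139 v3235 v2389 v748 v2454 v3542 w8099 v3871 w2716
theorem v10140 : PV l10140 := r10140 w3648 w3646 w8006 v4949 v3931
theorem v10141 : PV l10141 := r10141 w5661 w4657 w4636 w4622 v10139 v10140 w3427 v2470 v2494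
theorem v10142 : PV l10142 := r10142 v7982 v9455 v1674 w7729
theorem v10143 : PV l10143 := r10143 v5377 v9243 v2992 v5303 v2991 v480 v9791 w4293 v3816 v2708 v481 v5587 v2733 v390 v4216 v4225 v4799 v3147 v5039 v2547 v2989 v3222 v3826 v1145 v1210 v3851 v1209 v3833 v3935 v10136 v4204 w708 w714 v10127 w5285 w5286 w5287 w5290 v10137 v1140 w4288 v10138 v10142 w5661 w4657 w4636 w4622 v10141 v10139 v10140 w3427 v7998 v2494 v4949 v3931
theorem v10144 : PV l10144 := r10144 v7703 v9243 v2991 v480 v5377 v5303 v9791 v3826 v2996 v3759 w4962 w5514 v4767 v4779 v3927 v1145 v1209 v9961 w2534 v3090 v1412 v4231 v4525 v3216 v3303 v3820 v481 v5587 v2733 v390 v4216 v4225 v4799 v3147 v5039 v2547 v5035 v4097 v2989 v3222 v1210 v3851 v3833 v2992 w4293 v3808 v5956 v10078 v8148 v9874 w3968 w4037 w3895 v3978 w4164 v4062 v3282 v4031 v9519 w2461 v10143 w2690 w6190 w6179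
theorem v10145 : PV l10145 := r10145 w5290 w5287 w5285 w714 w688 v10123 v9983 v10129 w3427 v8341 v10139 v8180
theorem v10146 : PV l10146 := r10146 v4201 v8341 v2981 w3427 v9817 v10035 w8150 v2564 v2565 v4957 v4301
theorem v10147 : PV l10147 := r10147 v2628 v5377 v4210 v9243 v480 v5303 v5587 v2733 v2833 v481 v390 v4225 v9808 v2992 v3816 v2708 v4216 v4799 v3147 v2834 v5039 v2547 v4209 v2989 v3222 v2991 v9791 v3826 v1145 v1210 v3851 v1209 v3833 v3935 v2627 v10136 v4204 w708 w714 v10127 v10142 w5285 w5286 w5287 w5290 w5661 w4657 w4636 w4627 w4622 v10145 v1140 v10146 v10141 v10139 v10140 w3427 v7998 v2494 v4949 v3931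
theorem v10148 : PV l10148 := r10148 v9243 v7703 v2989 v5377 v5303 v3222 v2991 v480 v9791 v3826 v1145 v1210 v3851 v10144 v2758 v2996 v3759 w4962 w5514 v4767 v4779 v3927 v1209 v9961 w2534 v3090 v3089 v1412 v430 v4231 v4525 v5034 v3216 v3303 v3820 v481 v5587 v2733 v390 v4216 v4225 v4799 v3147 v5039 v2547 v5035 v4097 v3833 v2992 v3808 v5956 v10078 v9889 v8148 w3955 w3968 w4037 v2783 v3986 v3978 v10052 w4162 w4164 v4728 v8083 v3282 v4062 v4031 w2469 v10147 w2690 w6190 w6179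
theorem v10149 : PV l10149 := r10149 v10142 w5661 w4657 w4636 w4622 v10145
theorem v10150 : PV l10150 := r10150 v8341 v2985 w3427 v7978 v6862 v2611 v9533 v3870
theorem v10151 : PV l10151 := r10151 w3648 w3646 v7978 v6862 v2611 v2613 v3901 w8006
theorem v10152 : PV l10152 := r10152 v9243 v2708 v2627 w4657 w4636 w5676 w4622 w5642 v2294 v10150 v2474 v2479 v10151 w3427 w3753 w3756 w3844 v9054 v9893 v3171 v616
theorem v10153 : PV l10153 := r10153 v9243 v2708 v4183 v2627 v4204 w694 w708 w714 v10127 w5286 w5287 w5290 v10149 w8727 v10152 v7982 w3756 v7978 v6862 w1501 w8861 w7766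
theorem v10154 : PV l10154 := r10154 v5377 v4209 w690 v4210 w695 w699 v4260 v5039 v4280 v2477 v2628 v9243 v480 v5303 v5587 v2733 v2833 v481 v390 v4225 v9808 w4296 v3147 v2834 v3935 v3934 w5285 w5286 w5287 w5290 v10024 w3648 w3643 w3645 w3647 v10025 v1510 v3930 v4476 v4473
theorem v10155 : PV l10155 := r10155 v2628 v5377 v4210 v9243 v480 v5303 v5587 v2733 v2833 v481 v390 v4225 v2991 v9791 v3826 v2992 v3811 v1145 v1209 v9961 w4296 v10051 v9808 v4216 v10052 w4780 v3813 v2989 v3222 v1210 v3851 v2758 v3089 w5814 v1412 v430 v5034 v3303 v4799 v3147 v2834 v5039 v2547 v4209 v3833 v3935 v2987 v5956 w3955 v2783 v10032 v3986 v4728 v8083 w2469 v1139 v10153 v2477 v4260 w730 w691 v10154 w5680 w5679 w5719 w5590 w5588 v10132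
theorem v10156 : PV l10156 := r10156 v9432 v8390 w7903 w7985
theorem v10157 : PV l10157 := r10157 w3648 v10133 v7985
theorem v10158 : PV l10158 := r10158 v2628 v5377 v4210 v9243 v480 v5303 v5587 v2733 v2833 v481 v390 v4225 v2991 v9791 v3826 v2992 v3811 v1145 v1209 v9961 w4296 v10051 v9808 v4216 v10052 w4780 v3813 v2989 v3222 v1210 v3851 v2758 w2542 v3089 v2708 w5814 v4233 w1726 v3303 v3821 v4799 v3147 v2834 v5039 v2547 v4209 v3833 v3935 v2627 v10155 w5979 w4177 w4167 v10032 v4031 v10153 w2461 v2477 v4260 w691 w690 v1139 v10154 w5680 w5679 w5678 w5590 w5588 v10156 v10157 w3756 w3757 w3755 v634 w1456 v2295 w7866 w7959 w2258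
theorem v10159 : PV l10159 := r10159 v1412 v430 w3957 w3952 w3967 v6127 v6660
theorem v10160 : PV l10160 := r10160 v7703 v5377 v9243 v2991 v5303 v480 v9791 v3826 v1145 v1209 v5039 v2547 v5587 v2733 v4799 v481 v390 v4216 v5034 v10159 v408 v328 v9961 w2488 v3089 w3582 w5814 w5514 v3216 v3303 w876 v2548 v4183 v5035 v4097 v1210 v2996 v2992 v3927 v4779 v4767 v3759 w4962 v10144 v10148 v3811 v10158 v3986 v3998 v5849 v3282 w4037 v2783 v4728 w2689 w6190 w6179
theorem v10161 : PV l10161 := r10161 v4084 v10117 v2713 v10093 v2615 v9272 v5035 v4097 v9790 v5377 v5303 v3335 v7703 v9243 v2991 v480 v9791 v9880 w4971 v3111 v3000 v4838 w8777 w8610 v2539 w3582 w9107 v4082 v3826 v1145 v1210 w5513 v5723 v3423 w5514 w5512 w5017 v5587 v2733 v3147 w4972 v4131 v3339 v3114 w8776 v2840 v2834 w3780 v10118 v1412 w9017 v4841 v3216 v481 v390 v4216 v4225 v4799 v5039 v2547 v2989 v3222 v3851 v2996 v2994 v2992 v10160 v5795 v4864 v3457 v3417 v9712 w4296 v4865 v9890 v3808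
theorem v10162 : PV l10162 := r10162 v7703 v4618 v10100 w4327 v4767 v4864
theorem v10163 : PV l10163 := r10163 v9243 v9790 v480 v5377 v5303 v5587 v2733 v2834 v7703 v2991 v9791 v9880 w4972 v4131 v3339 v3114 v9272 v3000 v5035 v4838 w8776 w3780 v2840 v3216 v3820 v10117 v10093 v481 v390 v4216 v4225 v3147 v3826 v1145 v1210 v3833 v2996 v2994 v2992 w5513 w5512 w5514 v5723 v10162 v10161 v6261 v4779 v5795 v3457 v9712 w4296 v9887 v3808
theorem v10164 : PV l10164 := r10164 v7703 v3000 v5035 v4838 v9208 v4779 v6261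
theorem v10165 : PV l10165 := r10165 v4084 v2539 v8123 w3582
theorem v10166 : PV l10166 := r10166 v9790 v480 v5377 v5303 v5587 v2733 v7703 v9243 v2991 v9791 v9880 w4972 v4131 v3339 v3114 v9272 v3000 v5035 v4838 w8776 v2840 v4097 v3335 w4971 v3111 w8777 w8610 v10117 v2713 v10093 v2615 v3833 v10163 v10165 v2571 v6261 v2588 w9132 w3582
theorem v10167 : PV l10167 := r10167 v2713 v8144 v8143 v4595
theorem v10168 : PV l10168 := r10168 v2713 v7703 v1209 v1210 v5035 v5525 w3582 v10167 w5827 w5825 w9122 v3452 v4775 v4083 v7971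
theorem v10169 : PV l10169 := r10169 v3303 v10117 v10093 v2615 v9790 v5377 v5303 v481 v480 v5587 v2733 v390 v4216 v4225 v4799 v9243 v5039 v2547 v5035 v4097 v4131 v3114 v3111 v7703 v2991 v9791 v3826 v1145 v1209 v3008 v1149 v3833 v3339 v3335 v9272 v3000 v9880 w4971 w4972 v4838 w8777 w8776 w8610 v2840 v10168 v10166 v7053 w3959 v9949 v10104 v10076 w2449 v5655
theorem v10170 : PV l10170 := r10170 v5035 v4097 v4133 v5039 v3111 v2806 v2808 v1779 v667 v3374 v4633 w8610 w4494 w5372 w5448 v1412 v9797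
theorem v10171 : PV l10171 := r10171 w4972 w8465 v4834
theorem v10172 : PV l10172 := r10172 v3114 v10171 w8776 v4662 v5685 w5397 w4543
theorem v10173 : PV l10173 := r10173 v10165 v2571 v6261 v2588 w9132 w3582
theorem v10174 : PV l10174 := r10174 v9272 v9790 v5377 v5303 v9243 v7703 v2991 v480 v9791 v3833 v5587 v2733 v5035 v3000 v3935 v3339 v3826 v5272 v4131 v3147 v10172 v2840 v10093 v2615 v10117 v2713 v4097 v3335 v2833 v2326 v3111 v3222 v3342 v1145 v1210 v1209 v10170 v3126 v9880 w4971 w8610 v4799 v481 v390 v4225 v4216 v4838 v10168 v10173 v10169 v10079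
theorem v10175 : PV l10175 := r10175 w5513 v3423 w5514 v9940 v10110 v10109
theorem v10176 : PV l10176 := r10176 v9243 v9790 v480 v5377 v5303 v5587 v2733 v2833 v5035 v7703 v9272 v3000 v3935 v3339 v2991 v9791 v3826 v5272 v4131 v3147 v10172 v2326 v2834 w3780 v2840 v481 v390 v4216 v4225 v4799 v4097 v5039 v3111 v2989 v3222 v1145 v1210 v3851 v1209 v3833 v3342 v3335 v2996 v10093 v2615 v10117 v2713 v10170 v3126 v3140 v9880 w4971 v4838 w8610 w9017 v10168 v10173 w5513 w5512 w5514 w4912 v3423 v10174 v10175 v3268 v10113 w26 v10071 v10072 v4618 v8947 w4327 v4779 v4864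
theorem v10177 : PV l10177 := r10177 v7703 v9243 v2991 v9790 v480 v5377 v5303 v9791 v3340 v9272 v2995 v5035 v3216 v2632 v1277 w8833 v4868 w4956
theorem v10178 : PV l10178 := r10178 v9790 v5377 v9243 v7703 v2991 v5303 v480 v9791 v3826 v5272 v3342 v3339 v3935 v5587 v9272 v3000 v5035 v5039 v4131 v4133 v2733 v2834 v2835 v3147 v10172 v2841 v2840 w3780 v10176 v4164 v10177 v3127 v1779 v3374 v3351 v4633 v8611 w4903 w4486
theorem v10179 : PV l10179 := r10179 v3935 v3837 w4480 v4248 v390 v4242 v4225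
theorem v10180 : PV l10180 := r10180 v7703 v9272 v3000 v2998 v9243 v2991 v2990 v5035 v9790 v481 v480 v5587 v5377 v5303 v3338 v9791 v3826 v3833 v1145 v1210 v10179 v4130 v2733 v10178 v2837 v3147 v3213 v2636 v4839 w8835 v4835 w4965 v4847
theorem v10181 : PV l10181 := r10181 v5039 v9243 v3935 v9260 v480 v5587 v2733 v2735 v5190 w4486 w5166 v3006 v3153
theorem v10182 : PV l10182 := r10182 v9243 v2991 v10181 v5374 v5253 v4898 v476 v1412 w4494
theorem v10183 : PV l10183 := r10183 v2557 w5511 v8366 v7976 v4084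
theorem v10184 : PV l10184 := r10184 v2557 v4183 v7703 v1209 v1210 v328 v2604 v10183 v9714 w5824 v8384 v4084 v5741 v8385 v6038
theorem v10185 : PV l10185 := r10185 v2557 w5511 v9221 v9953
theorem v10186 : PV l10186 := r10186 v10184 v2615 v10185 v9224 w5824
theorem v10187 : PV l10187 := r10187 v9966 w5511
theorem v10188 : PV l10188 := r10188 v7703 v1209 v2604 v10187 w4574 v5518 v5665 v7491 w6768
theorem v10189 : PV l10189 := r10189 v10180 v3935 v9260 v480 v5587 v2733 v5190 v9243 v5039 v2735 w5166 v3151 v3153 v481 v5377 v390 v4216 v4225 v1138 v1137 v3154 v9272 v2836 v2837 v7703 v10182 w4716 v4969 v4968 w4711 v1210 w4703 w4697 v2547 v3341 v3338 v4130 v4132 v2996 v3008 v5035 v2631 v3149 w8544 w8835 w4820 w5349 w5383 w5371 w5451 w5493 w5481 v4864 v7600 v10186 v2713 v10188 v2615 v7972 v7973 v4084 v1412 v4834 v4967 v10168 w5511 v10165 v6706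
theorem v10190 : PV l10190 := r10190 v5035 w4822 w4826 v3762 v4850 v4863
theorem v10191 : PV l10191 := r10191 w5761 w5762 v671 w8544 w8462 v6253 w8464 w2354 w2350
theorem v10192 : PV l10192 := r10192 v7703 v10180 v10182 v4130 v4133 v4132 v5039 v9272 v2998 v2996 v9243 v2991 v3935 v3338 v3341 v3342 v9260 v480 v5587 v5377 w4711 w4716 v2733 v2735 v5190 v3828 v1210 v4968 v2836 w5327 w5166 v4802 v3153 v10191 w4822 w5355 v10190 v4864 v10189 v4789
theorem v10193 : PV l10193 := r10193 w5407 v9932 v4082 v4602 v6179 v2708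
theorem v10194 : PV l10194 := r10194 v4525 v5034 v3308 v4967 v3089 v3090 v4060 w2569 v3989 w4083 w4140 v3970 v3320 v5713 v6083
theorem v10195 : PV l10195 := r10195 v1242 v1138 v5034 v4086 v10194 v9346 w2449 w3896 v4049 v5022
theorem v10196 : PV l10196 := r10196 v3308 v1242 v5268 w4389 v5643 v4967 v1412 v4087 v5269 v10195 v5847 v702 v6566 w3939 w5929 v6290 v3082 v5267
theorem v10197 : PV l10197 := r10197 v4967 v3006 w4251 v4969 v4968 v1242 v5268 w4395 v5643 v1412 v4087 v1137 v10196 v9787 v8085 v9978 v9734 v9202 v4549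
theorem v10198 : PV l10198 := r10198 v1242 v1138 v5034 v4086 v10194 w2449 v4054 w3896 v5022 v4049
theorem v10199 : PV l10199 := r10199 v3308 v4967 w4251 v4969 v4968 v5643 v1412 v4087 v5269 v9785 v3770 w1764 v10198 v4184 v5847 w4211 w5991 w5881
theorem v10200 : PV l10200 := r10200 v4967 v3006 w4251 v4968 v1242 v5268 w4395 v5643 v1412 v4087 v1137 v3308 v10197 v10199 v4763 v9787 v8085 v8846 v7200 v4533 v5817 v4520 w4102 v3074 w3919 v4532 v316 v4999
theorem v10201 : PV l10201 := r10201 v3006 v4969 v1242 v5268 w4395 w4557 v3008 w4389 v1217 w4543 v5643 v4967 v1412 v4087 v5269 v1138 v1137 v3000 v2996 v328 v2711 v2604 v10193 w4574 v9769 v9714 w5824 v7977 v2571 v2578 w6544 w3582 w9075 v10200 w1747 v9744 v3100 v9755 v3772 v4118 v4120 v9961 w2563 w2557 v4059 w2569 v4055 w4205 v8155 w5983 w4223 w1594 v6083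
theorem v10202 : PV l10202 := r10202 v2617 w6616 w2924
theorem v10203 : PV l10203 := r10203 v2571 w8926 v2707 w3239 v2592 w6629
theorem v10204 : PV l10204 := r10204 v5269 v7703 v2995 v328 w5511 w5099 v8638 v10203 v6707 v10202
theorem v10205 : PV l10205 := r10205 v4084 v2559 w3582 v8569 w8947
theorem v10206 : PV l10206 := r10206 v7703 v3006 v4968 v4967 v1412 v3000 v5035 v4838 v1242 v5268 w4395 w4555 v3422 w4557 v3370 v10201 v2615 v10204 w5824 v10205 v2584 v2576
theorem v10207 : PV l10207 := r10207 v10180 v7703 v9272 v3000 v2998 v2996 v9243 v2991 v2992 v5035 v5039 v4133 v10182 v10192 v5374 v5253 v2676 v2671 v4901 v4904 v476 v5344 v5343 v1242 v3529 v4967 v4838 v5729 w5166 v4802 v3154 v485 v3477 v1137 v3933 v1412 v5268 v5643 v3152 v4887 w4389 w4395 w4543 v3498 v5396 v3507 v3153 v3151 w4843 w4557 w4555 v3006 v3370 v3422 v4968 v4969 v2808 v9767 v671 v8600 v4846 v3394 v3464 w4905 w4907 w4908 w4326 v4776 v3765 v3762 v10206 v2548 v7973 v2711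 v2604 v8606 v9689 v9782 v9789
theorem v10208 : PV l10208 := r10208 v9260 v5587 v480 v481 v3935 v5038 v9243 v2991 v2990 v3834 v4223 v2698 v4225 v2735 v4242 w5159 w5327 w5166 v4246 w4772 w4782 v3839 w4480 w4766 v1145 v5576
theorem v10209 : PV l10209 := r10209 v9260 v480 v3935 v4242 v4251
theorem v10210 : PV l10210 := r10210 v5038 v9243 v2991 v3935 v9260 v481 v480 v10208 v3831 v9270 v10209 v4240 v4249
theorem v10211 : PV l10211 := r10211 v9243 v2989 v2990 v5038 v10210 v5334 v5303 v5344 v5343 v9711 v5644 v485 v482 w4461 w4468 v4910 v3508 v3521 v4246 v3839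
theorem v10212 : PV l10212 := r10212 v7703 v1210 v2604 v9715 v8727 w5824 v8384 v4084 v8905 w8927 v7736
theorem v10213 : PV l10213 := r10213 w4568 v5269 w4558 w4557 v3217 v3213 v2558 v10212 v2615 v9779
theorem v10214 : PV l10214 := r10214 v5670 v9140
theorem v10215 : PV l10215 := r10215 v10214 v5518 v5665 v4606
theorem v10216 : PV l10216 := r10216 v4087 v3303 v9884 v9755 v9514 v6709 v6293
theorem v10217 : PV l10217 := r10217 v9294 v9319 v6293 v5690 v4031
theorem v10218 : PV l10218 := r10218 v1209 v1210 v328 v10216 v10217 v9885 v8085 v9978 v9202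
theorem v10219 : PV l10219 := r10219 v9319 v6293 v5690 v4031
theorem v10220 : PV l10220 := r10220 v10219 v7117 v9755 v3308
theorem v10221 : PV l10221 := r10221 v3303 v5672 v3075 v4730 v6031 v2779
theorem v10222 : PV l10222 := r10222 v1412 v4087 v5269 v4969 v4968 v1209 v1210 v328 v10218 v10220 v4763 v9863 v10221 v3308 v1074 v3095 w6015 w3942 v5000 v4512 w4075 w4072 v4544 v4550 v713
theorem v10223 : PV l10223 := r10223 w2569 v4060 v9184 w4229
theorem v10224 : PV l10224 := r10224 v3308 w876 v9294 v5034 v10223 v9346 w2449 w3946 w3951 w3896 v3991 v4995 v4049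
theorem v10225 : PV l10225 := r10225 v4087 v4969 v4968 v1209 v1210 v328 v10216 v3261 v10224 v9787 v8085 v9978 v9202
theorem v10226 : PV l10226 := r10226 v9514 v6709 v6293
theorem v10227 : PV l10227 := r10227 v10226 v5690 v4036 v4028
theorem v10228 : PV l10228 := r10228 v10227 v7117 v9755 v3308
theorem v10229 : PV l10229 := r10229 v9861 v10113
theorem v10230 : PV l10230 := r10230 v1412 v4087 v5269 v1247 v4969 v4968 v1209 v1210 v328 v10222 v10225 v10228 v4763 v10229 v10221 v3308 v1074 v3095 w6015 w3942 v5000 v4512 w4075 w4072 v4544 v4550 v713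
theorem v10231 : PV l10231 := r10231 v10220 v10228 v9294 v10226 v3303 v3253 v10224
theorem v10232 : PV l10232 := r10232 v4763 v328 v3303 v5048 v3074 v4734 w3963 w3959 v2779 w3919 v4754 v4724 v3089 w2488 v5000 v4710
theorem v10233 : PV l10233 := r10233 v4763 v4968 v3308 v1074 v3095 w6015 w3942 v5000 v4512 w4075 w4072 v4544 v4550 v713
theorem v10234 : PV l10234 := r10234 v4730 v5677
theorem v10235 : PV l10235 := r10235 v1412 v4087 v5269 v1247 v4969 v4968 v1209 v1210 v328 v10230 v10231 v10229 v10233 v3303 v10232 v10234 v2779 v4754 v4755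
theorem v10236 : PV l10236 := r10236 v9514 v6709 v4027
theorem v10237 : PV l10237 := r10237 v5034 v10236 v3303 v3304 v5690 v5068 v2777 v3075 w2463 v8686 v9346 v4018 w3946 w3951 v3991 v4995
theorem v10238 : PV l10238 := r10238 v10237 v7117 v9755 v3308
theorem v10239 : PV l10239 := r10239 w5099 w5511 v1412 v4087 v5269 v1247 v3470 v7703 v4969 v4968 v1209 v1210 v328 v4084 v9876 w9076 v2544 v5683 v4594 w6690 w6561 w6543 v10235 v10238 v10229 v10233 v3303 v10234 v5045 v2779 w3919 w3910 v6166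
theorem v10240 : PV l10240 := r10240 v6261 v2588 w3582 w9167 w9132
theorem v10241 : PV l10241 := r10241 v7703 v10180 v10211 v10207 v3217 v3213 v10182 v4130 v4133 v4132 v5039 v9272 v3000 v2998 v2996 v9243 v2991 v2990 v2992 v5035 v3935 v3338 v3341 v3342 v9260 v481 v480 v5587 v5377 v2547 w4711 w4716 w4701 w4697 v2733 v5190 v3848 v2735 v3828 v3831 v1210 v1209 v4968 v4969 v390 v2836 v1137 v1138 w5166 v3220 v3847 v472 w5327 v4839 v4225 v4216 v3153 v3151 v10191 w4557 w4558 w4555 v4847 w4822 w5372 w5355 w5346 w4843 v3372 v3424 w4346 v2740 v4864 w4568 v3470 v3816 v3808 v3441 v3425 v1412 v10213 v10215 v2615 v9780 w5511 w5099 v10239 v2571 v10240 v6294 v3003 w6701 v2596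
theorem v10242 : PV l10242 := r10242 v9243 v5035 v7703 v3008 v2991 v9272 v2998 v3000 v10180 v10211 v5039 v4132 v10182 v10207 v3213 v3217 v2637 v10241 v5374 v5253 v2676 v2671 v4901 v4904 v476 v5344 v5343 v9666 v1242 v3529 v4967 v5729 v4802 v3154 v485 v482 v3477 v423 v425 v429 v4968 v4969 w4495 v1137 v1138 v5269 w4258 v3152 v3153 v3151 v1218 v1217 v4839 w4841 v3498 v3507 v2836 v4847 w4557 w4558 w4555 w8544 w4905 w4907 v3372 v3424 v3397 v3466 v3441 v3425 v9781 v10213 v2711 v2604 v9778 v2548 v9782 v9789 w5407 v5670 v10214 v4082 v4608 v6179 v2708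
theorem v10243 : PV l10243 := r10243 v3339 v3935 v5036 w4557 w4555 v3389 v3423 v2840 v4374 v4096 v10172
theorem v10244 : PV l10244 := r10244 v3339 v3338 v498 w4912 v3389 v4967 v2840 w8776 v2275 w8789 v755
theorem v10245 : PV l10245 := r10245 v3114 v3113 v5587 v5113 v480 v5377 v9243 v2991 v9791 v3826 v1145 v1210 v3008 v1149 v5272 v3833 v481 v2733 v390 v4225 v3147 v10242 v4157 v4158 v4210 v3341 v3340 v5036 v2994 v2996 v3000 v2836 v2835 v10243 w4972 w4974 v10244 w4513 w4540 w5453 w5452 v3431 w8785 w8849 v3141 v2631 v3807 v4397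
theorem v10246 : PV l10246 := r10246 v5587 v5113 v480 v5377 v9243 v2991 v9791 v3826 v1145 v1209 v1210 v3833 v4210 v3338 v3335 v10242 v5036 v3113 v3111 v10245 w3469 w3472 v3444 v1102 w5448 v2274 v8893 w8610
theorem v10247 : PV l10247 := r10247 v5036 v2994 v2996 v2836 w8849 v1641 w5446 w4943 w4962 v4416 v2914 v4189
theorem v10248 : PV l10248 := r10248 w8419 w8416 v5279 v3816 w8722 w4819 w4943
theorem v10249 : PV l10249 := r10249 v3342 v3341 v3340 v3222 v10242 v9243 v481 v480 v5587 v5252 v5377 v5113 v2733 v4158 v4157 v4156 v2989 v2991 v390 v9791 v3826 v4225 v3833 v1145 v1210 v3851 v10246 v3213 v3217 v2635 v2637 v2638 v10247 v2820 w3468 w3467 w3470 v10248 v5136 v5767 w5467 w8724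
theorem v10250 : PV l10250 := r10250 v476 w4494 v1412 w4484 w4900 w5366 v3423 w8465 v4374 v4096
theorem v10251 : PV l10251 := r10251 v2998 v2996 v3342 v3341 v5036 v3452 v3129 v3127 v4397 v4395 v3371 w5487 v5898 v9678 v4099 v4385 v2740 w4326
theorem v10252 : PV l10252 := r10252 v5794 v5724 v3805
theorem v10253 : PV l10253 := r10253 v3342 v3341 v3339 v4096 v4101 v4099 v10171 v9678 w5745 w8834
theorem v10254 : PV l10254 := r10254 v5682 v5376 v2746 v2744
theorem v10255 : PV l10255 := r10255 v3000 v5128 v2995 v2994 v10251 v10254 v4414 v4403 v2746 v2744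
theorem v10256 : PV l10256 := r10256 w5169 v1243 v3935 v5208 v2836 w5339 v476 w4494 v1412 w4484 v1146 w4487 v3007 v3000 v3114 v3339 v5036 v2840 v10250 v494 v10253 v10255 v4376
theorem v10257 : PV l10257 := r10257 v2994 v9243 v2991 v2992 v3008 v5039 v10249 v2641 v2640 v3935 v2628 v10242 w4487 w4484 v3007 v1145 v3826 v5623 v2939 v2938 v5636 v3824 v5208 w5169 v4796 v3823 v4970 v3147 w4393 w5341 v10252 v10256 v2808 v3383 w4860 w4864 v5601
theorem v10258 : PV l10258 := r10258 w5363 w5365 v3423 w8561 v9235 v2316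
theorem v10259 : PV l10259 := r10259 v3342 v3341 v2808 v3383 v5899 w5391 v2316 w8561
theorem v10260 : PV l10260 := r10260 w4836 w4838 w8465 v2275 w8483 w8481
theorem v10261 : PV l10261 := r10261 v2836 v2837 v390 v10257 v3000 v9243 v2991 v3008 v3114 v3113 v5039 v10249 v2641 v3342 v3341 v3339 v3338 v2628 v10242 v5036 v4210 v4157 v4156 v9791 v9244 v3830 v5637 v1218 v1149 w4701 v4221 v10258 v3431 v10259 v2840 v10260 v4376 v4096 v4838 w8465 w8776
theorem v10262 : PV l10262 := r10262 v10257 v3008 v5039 v9243 v10249 v2641 v390 v10261 v5636 v4796 w4703 v4970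
theorem v10263 : PV l10263 := r10263 v5039 v9243 v10249 v2641 v2991 v10257 v10262 v4798 v2733 v485 w4714 v9791 v4797 v4796 v4968
theorem v10264 : PV l10264 := r10264 v5036 w8722 v2631 w8624 v6169 v4187
theorem v10265 : PV l10265 := r10265 v4214 v2275 w8609 w8776 w3102 v4838
theorem v10266 : PV l10266 := r10266 v5039 v9243 v10249 v2641 v10263 v6455 v4798 v10242 v5036 v4655 v432 v1254 v3442 w5468 w5469 w4540 w4555 v494 v473 w4485 v476 w4494 v428 v5112 v1357 v3114 v3113 v3341 v3339 v3338 v3222 v4209 v4210 v4157 v7699 v6263 v3827 v1218 w2989 v10264 v2812 v3386 w5479 v10265 v755 w774 w8787 w8627 v2323 v2263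
theorem v10267 : PV l10267 := r10267 v3375 w5479 v4375 w8609 v4096
theorem v10268 : PV l10268 := r10268 v4655 v432 v5036 v1254 v3442 w4555 v428 w4513 v494 v5112 v2895 v2807 v2808 v10267 v3389 w5380 v3367 v6237 v667 v5987 v3126
theorem v10269 : PV l10269 := r10269 w3197 v5128 v4838 v4096 w8776
theorem v10270 : PV l10270 := r10270 v3341 v3338 v755 v4375 v4099 v6701 w8834 v2631
theorem v10271 : PV l10271 := r10271 v3341 v3338 v4095 v4099 v6701 w8834 v2631
theorem v10272 : PV l10272 := r10272 w8834 v2316 w8773 w8788 v6435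
theorem v10273 : PV l10273 := r10273 w8609 w8627
theorem v10274 : PV l10274 := r10274 v3114 v3111 v3113 v5039 v9243 v10249 v2641 v2640 v476 v3342 v3341 v3339 v3338 v3335 v2628 v3222 v10242 v5036 v10263 v4655 v1316 v1357 v5112 v6455 v430 v432 w4498 w4494 v4798 v1254 v485 v3442 w4555 w4546 w5469 w5468 v10266 v6220 v5623 v3824 v4796 w3465 v3218 v4970 w2989 v4644 v4643 v10268 w3563 w3564 v3386 w5487 w5479 v10269 v10270 v10271 v10272 v10273 w3499 v2323 w3789 v3359 w8787 w8774 w5490 v2276 w8777 v2274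
theorem v10275 : PV l10275 := r10275 v3008 v3113 v3338 v9244 v1218 v1149 v3826 v3383 v9791 v3830 w5392 v668
theorem v10276 : PV l10276 := r10276 v2820 v5036 v3383 v3439 v3367 w5364 v668
theorem v10277 : PV l10277 := r10277 v10242 v9243 v2992 v2991 v1145 v10275 w4492 v3824
theorem v10278 : PV l10278 := r10278 w5364 v3419 v668
theorem v10279 : PV l10279 := r10279 v5039 v9243 v10249 v2641 v3338 v10242 v5036 v3113 v10274 v2820 w3469 v10276 v10277 v4655 v5112 v2920 v2926 v2930 v2896 v2910 v428 v432 v10278 v494 w4513 w4518 w4508 w4555 w4540 v3427 v5171 v5169 v4417 v3449 v4396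
theorem v10280 : PV l10280 := r10280 v2994 v9243 v2991 v3008 v10279 v2637 v3217 v5039 v10249 v2641 v3341 v10242 v5036 v4157 v9244 v1218 v1149 v3826 w4701 w4702 v5622 v4221 v4798 v3425 v2836 v3433 w8561 v5682 w4809
theorem v10281 : PV l10281 := r10281 v499 w4874 w4880 v5476
theorem v10282 : PV l10282 := r10282 v2808 v5601 v6254 w4864 w4946 w4255 v3377 v5461
theorem v10283 : PV l10283 := r10283 v10279 v2638 v2637 v2635 v3217 v5039 v9243 v10249 v2641 v3342 v3341 v3340 v3935 v10242 v5036 v3008 v2992 v2991 v2994 v10280 v5623 v5636 v3824 v4796 w3556 w5169 w4495 w4498 w4492 v3825 v4970 v3006 w4393 w4703 w4693 v2939 v2938 v5208 v5794 v2836 v10281 w5482 v3433 w8848 v5682 v5230 v10282 v3373 v2838 w5487 w5488 v1579 w8834 v2300 v4568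
theorem v10284 : PV l10284 := r10284 v10242 v4157 v4158 v2638 v2637 v3341 v3340 v5036 w5363 w5362 v3425 w8560 w8416 v3813 w8417 w3200 w3089
theorem v10285 : PV l10285 := r10285 v4655 v432 v1254 v476 w4494 w4498 v1357 v3213 v3341 v10242 v5036 v4157 v7699 v3827 v10284 v494 w4540 w5469 v5987 v10264 v3779 w3086
theorem v10286 : PV l10286 := r10286 w5362 v3425 w8543 w8560
theorem v10287 : PV l10287 := r10287 v10279 v2638 v3213 v5039 v9243 v10249 v2641 v476 v3340 v10242 v5036 v10283 v4655 v6455 v430 v432 w4498 w4494 v4798 v485 v10285 v5623 v3824 v4796 w3556 v3822 v4970 w2989 v4643 v10286 v494 w4540 v5987 v4638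
theorem v10288 : PV l10288 := r10288 w5365 v3421 w8419
theorem v10289 : PV l10289 := r10289 v5036 v4158 v4157 v4156 v10288 v3429 w8724 w8721 w8419 v642 w8417
theorem v10290 : PV l10290 := r10290 w5363 w5362 v10288 v4567 w8397 v2300
theorem v10291 : PV l10291 := r10291 v5039 v10242 v5036 v9243 v3340 v3341 v3342 v10249 v2641 v10279 v2635 v2637 v2638 v10287 w3468 w3467 w3470 v10289 v5623 v5636 v10290 w5482 v3429 w8721 w8701 v5113 v2992 v3824 v3825
theorem v10292 : PV l10292 := r10292 v3114 v1242 v1137 v5036 v3000 v3435 v5128 v498 w5366 v4096 v3389 v2840 w8465 v3337 w8507 v3522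
theorem v10293 : PV l10293 := r10293 v1242 v5036 v10292 v2821 v3444 v8601 w5196 v3357 v4375 v4376
theorem v10294 : PV l10294 := r10294 v3213 w5363 v3425 w4912 w8585 v4380 v4835 v2661 v4847 v6132 w4907
theorem v10295 : PV l10295 := r10295 v3217 v5036 v2994 v2998 v3000 v2836 v10294 v3433 w4513 v5682
theorem v10296 : PV l10296 := r10296 v10242 v5036 v9243 v5039 v10291 v6243 v5374 v5253 v2676 v2671 v2992 v4158 v4157 v5344 v5343 v1242 v5644 v485 v482 v5268 v3503 v3498 w4389 w4481 v5396 v4893 v4890 v4967 v5643 v1412 v5269 v4087 v10293 v3217 v2635 v2637 v2638 v10295 w3467 w3470 v9251 v2659 v2662 v1738 v6254 w4886 v3468 v4417 w2755 v5682 w6762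
theorem v10297 : PV l10297 := r10297 v5038 v9243 v481 v480 v5587 v5113 v2990 v2991 v9791 v3826 v3833 v1145 v10179 v1210
theorem v10298 : PV l10298 := r10298 v10297 v3935 v5038 v3222 v9243 v3008 v2988 v2991 v5437 v5412 v9244 v432 v1145 v1218 v3826 w4701 w4702 w4723 v5622 v4221 v4245 v4238
theorem v10299 : PV l10299 := r10299 v5038 v3222 v3935 v10297 v476 v473 v10298 v4655 v7699 v432 w4491 w4482 v1254 v3855 v3836 v3857 v2942 v5952
theorem v10300 : PV l10300 := r10300 v3222 v10296 v5038 v10299 v6243 v5303 v9711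
theorem v10301 : PV l10301 := r10301 v4096 w8547 v2339 w8465 v4850 v4834 v7692 v5793 v4395
theorem v10302 : PV l10302 := r10302 v4211 v4214 v3362 w8481 w3569 w8562 w8565 v1641 v2268 v2267
theorem v10303 : PV l10303 := r10303 v2836 v2837 v2998 v2996 v390 v4157 v499 v498 w5358 w5361 w5360 v3389 v2840 v10302 v4096 v10301 w8547 v4967 w8465 v1412
theorem v10304 : PV l10304 := r10304 v10300 v9260 v5587 v5113 v3008 v480 v3935 v10211 v9243 v2990 v3848 w4698 v1218 v5377 v2989 v5039 v2735 v10182 w4716 w4475 v3851 v2733 v5190 w5166 v3153 v481 v390 v4225 v1137 v4799 v2547 w4705 v10242 v4157 v3341 v3339 v3338 v3335 v5036 v2998 v3000 v2836 v10303 w5452 v3431 w4555 w4546 w8849 v5128 v4838 v4850 v2631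
theorem v10305 : PV l10305 := r10305 v10300 v9260 v5587 v5113 v3008 v480 v3935 v10211 v9243 v2990 v3848 w4698 v1218 v10242 v5377 v4156 v4157 v4158 v3342 v3341 v3340 v5036 v10304 v2820 w3468 w3467 w3470 v3444 v3389 v3375 w5453 w5450 w5452 w8626 v5279 w8623 w8722 v2288 v2316
theorem v10306 : PV l10306 := r10306 v1641 w8849 w5744 w8419 w8563
theorem v10307 : PV l10307 := r10307 v10300 v10242 v9243 v3935 v3340 v3341 v3342 v9260 v481 v480 v5587 v5377 v5113 v4158 v4157 v4156 v2991 v10211 v5039 v10182 v2733 v2735 v3831 v390 v2834 v2546 v4225 v10305 v2635 v2637 v2638 v10306 w3767 w3768 w8416 w8419 w8721 w5744 w8722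
theorem v10308 : PV l10308 := r10308 v1242 v1137 v5036 v3000 v3435 v5128 v498 w5366 v4096 v3389 v2840 w8547 w8465
theorem v10309 : PV l10309 := r10309 v1242 v1137 v5039 v5036 v10308 w3469 v3444 v9261 v8601 v4375 v5128
theorem v10310 : PV l10310 := r10310 v9243 v10242 v10300 v10307 v6243 v5374 v5303 v2990 v2991 v10211 v4158 v4157 v476 v5344 v5343 v5039 v10182 v5644 v485 v482 v2676 v2671 v4901 v4904 v5268 v3503 v3498 w4466 v1242 v3529 v4967 v5396 v3847 w4389 v2657 v2658 v3336 v3337 v3153 v1412 v5269 v10309 v2635 v2637 v2638 v10295 w3468 w3467 w3470 v9251 w1554 w1544 v10289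
theorem v10311 : PV l10311 := r10311 v5113 v3000 v499 v2726 v4170 v4113 v3725 w3570 w4972 v3729 w4912 w8802 w8776 v4967
theorem v10312 : PV l10312 := r10312 v5113 v1210 v2998 v3000 v10311 w4555 w4546 v3729 v3749 v3748
theorem v10313 : PV l10313 := r10313 v3114 v3113 v5587 v5113 v1209 v2628 v5377 v4210 v5039 v10310 v9243 v5035 v4131 v4130 v10312 v2820 w3469 w3471 v4149 v35 v4143 w5466 w8657 v746 v4633 w8609 v2546 v4560 v2329
theorem v10314 : PV l10314 := r10314 v5113 v3000 v2726 v9240 v4096 v10312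
theorem v10315 : PV l10315 := r10315 w2343 w9116 w8749 v9251
theorem v10316 : PV l10316 := r10316 v10310 v3929 v4556 w1543 v10315 v2631 w8680 v5793 w4962
theorem v10317 : PV l10317 := r10317 v4157 v4158 v3111 v3113 v2628 v9243 v2833 v4210 v10310 v499 w5375 v4113 v4662 v2844 v4211 v4214 v1102 v33 v10316 v2270 w1567 w8846 w8683 w5770
theorem v10318 : PV l10318 := r10318 v5587 v5113 v1209 v3222 v9243 v2833 v390 v5377 v10310 v3929 v3113 v3114 v10313 v5036 v4156 v10314 v2821 w3468 w3467 w3469 w3472 w3470 v35 v10317 v494 w5450 w4540 v3133 v1590 v3126 v4188 v4638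
theorem v10319 : PV l10319 := r10319 v5035 v3217 v1145 v1210 v3929 v2994 v2995 v3000 v3794 v3785 v3726 v5796
theorem v10320 : PV l10320 := r10320 v3726 v3724
theorem v10321 : PV l10321 := r10321 v10320 w4971 w4972 w8706 w8705 w8740 v763 w1553 w1561 w8739 w8431
theorem v10322 : PV l10322 := r10322 v2637 v2635 v2636 v2634 v2633 v5039 v5587 v5113 v481 v10310 v9243 v5035 v4132 v4131 v4133 v4130 v4127 v10319 v2821 w3468 w3469 w3471 w3472 w3470 v10321 v1242 v5167 v1138 w5493 w5491 w5494 w8738 w8705 w8702 v39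
theorem v10323 : PV l10323 := r10323 v5036 v2994 v5794 v3807 v4189 w4528
theorem v10324 : PV l10324 := r10324 v9243 w3467 w3468 v2638 v2637 v3217 v2628 v2833 v5377 v4210 v5587 v5113 v2992 v480 v10310 v3928 v2824 v2822 v4967 v4662 v1412 v5269 w4912 v477 v2732 v2533 v9251 v2329 w5349 v5206 w1542 w8417
theorem v10325 : PV l10325 := r10325 v481 v5377 v5587 v480 v2733 v390 v4216 v4225 v4799 v9243 v5039 v2547 v5113 v2991 v3008 v3935 v10310 v3929 v9791 v3826 v3833 v1145 v1149 v10318 v3213 v3217 v10322 v5036 v4158 v4157 v10323 v10324 w4513 v4658 v3807 v4639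
theorem v10326 : PV l10326 := r10326 v5035 v3729 v3725 w4557 v4141 v4149
theorem v10327 : PV l10327 := r10327 v5035 v10326 v3001 v3735 v3727 v4149 v4143
theorem v10328 : PV l10328 := r10328 v5113 v3000 v2726 v9240 w4555 v3729
theorem v10329 : PV l10329 := r10329 v5113 v10327 v5036 v10328 v2821 v4621 v499 v4113 v5129 v3739 v3737
theorem v10330 : PV l10330 := r10330 v5035 v3217 v2995 v10319 v3785 v3782
theorem v10331 : PV l10331 := r10331 v499 w5358 v5167 w8398 w8430
theorem v10332 : PV l10332 := r10332 v2636 v3213 v1210 v10310 v9243 v5035 v4130 v10330 v2821 w3469 v10331 w4555 v9168 v3728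
theorem v10333 : PV l10333 := r10333 v9243 w3470 v2635 v5587 v5113 v2992 v5377 v10310 v2824 v2822 v4967 v5345 v1412 v5269 w4912 v5197
theorem v10334 : PV l10334 := r10334 v9243 v5587 v5113 v2991 v2990 v5377 v480 v481 v3935 v10310 v3929 v5039 v2733 v2547 v390 v3147 v4799 v4225 v10325 v10182 v5190 v3848 v2735 v4801 w4711 w4716 v3828 v3831 v1138 v3847 v3220 v3153 v10329 v3213 v3217 v10332 v5036 v4156 v10323 v10333 w4540 v4658 v4638
theorem v10335 : PV l10335 := r10335 v5587 v5113 v10334 v10211 v10299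
theorem v10336 : PV l10336 := r10336 v3929 v3797 v3782 w4986 w5002
theorem v10337 : PV l10337 := r10337 v10335 v9260 v10299 v4132 v5035 v10310 v3725 v3808 w4841 v10336 v3142 w8504 w8462
theorem v10338 : PV l10338 := r10338 v5035 v10335 v9260 v10299 v9243 v5039 v2641 v3008 v2991 v9244 v1218 v1149 v3826 w4702 v4798 w4701 v5622 v4221 v428 v1412 v1210 v2992 v10310 v2994 v2995 v3000 v2836 v10337 w4898 v3729 v4146 v4145
theorem v10339 : PV l10339 := r10339 v10335 v9260 v3113 v3008 v9243 v2991 v9244 v1218 v1149 v3826 w4701 v5622 v4221 w4702 v10299 v10310 v4130 v10338 v2820 w3469 v5777 v4146 v34 w5392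
theorem v10340 : PV l10340 := r10340 v3008 v1218 v1149 v1210 v2994 v2995 v3000 v4782 w4900 w4880 v2725 v3740 v3725 v10336 v3781
theorem v10341 : PV l10341 := r10341 v2821 v499 w5364 v4783 v668 v35 w8376 v4106 v4214
theorem v10342 : PV l10342 := r10342 v10335 v9260 v9243 v2991 v3008 v9244 v1218 v1149 v3826 v3830 v2989 v3222 v3849 v425 v3007 v428 v5269 v1412 v10299 v5039 v2641 v2640 v10310 v3929 v3928 v3113 v10339 v5036 v4158 v4157 v4156 v6237 w4796 w4795 w4794 v10340 w3468 w3467 w3469 w3470 v10341 v494 v491 v2536 v2533 v3129 v3127 v3141 v5899 w8323 w8377 v6084 w8375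
theorem v10343 : PV l10343 := r10343 v3217 v3008 v1218 v1149 v2994 v2995 v3000 v10336 v3730
theorem v10344 : PV l10344 := r10344 v499 w5363 w5364 w5366 v4107 w8397 w8400 w8430 v39
theorem v10345 : PV l10345 := r10345 w4836 w4838 w4839 w8400 w8401 w8432 w8430 w1553 w1561 w8739 w8431
theorem v10346 : PV l10346 := r10346 v10342 v2637 v2635 v2636 v2634 v2633 v10335 v9260 v9243 v2991 v3008 v9244 v1218 v1149 v3826 v428 v1412 v10299 v5039 v2641 v10310 v5035 v4132 v4131 v4133 v4130 v4127 v10343 v2821 w3468 w3469 w3471 w3472 w3470 v10344 v2823 v4173 v10345 v3730 v3728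
theorem v10347 : PV l10347 := r10347 v2994 v2836 v5794 w8561 v9710
theorem v10348 : PV l10348 := r10348 v9243 v2991 v2989 v3008 v10335 v9260 v10299 v5039 v2641 v2640 v3222 v10310 v3929 v9244 v1218 v428 v425 v1149 v1412 v5269 v3007 v3826 v3849 w4701 w4702 v5622 v4221 v4798 v10342 v3213 v3217 v2635 v2637 v2638 v10346 v5036 v4158 v4157 v4156 v6237 w4796 w4795 v10347 w3468 w3467 w3470 v2536 v2535 v5345 v9251 w8445 w8417 w1542 w1564
theorem v10349 : PV l10349 := r10349 w4900 w4880 v3725 v3782 v3781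
theorem v10350 : PV l10350 := r10350 v5035 v3929 v3762 v3744 v2740 w4326
theorem v10351 : PV l10351 := r10351 v5035 v1145 v3929 v2994 v2995 v2996 v2998 v3000 v10349 v494 v4782 v4174 v3729 v3725 v10350 v3216 v4789 v10336
theorem v10352 : PV l10352 := r10352 v499 w5364 v4106 v34
theorem v10353 : PV l10353 := r10353 v2820 v3929 v3928 v2536 v2533 v3127 v3141 w8605 w8655 v4143 w5380 v4139 v1594
theorem v10354 : PV l10354 := r10354 v10335 v9260 v3113 v10348 v9243 v2991 v10299 v5039 v2641 v5623 v5636 v3008 v4796 v4970 w4703 v2939 v2992 v3824 w4498 v1412 w4492 v10310 v5035 v4133 v4130 v4428 v10351 v2821 w3467 w3469 w3470 v8893 v10352 v494 v491 w5482 v10353 v4172 v746 w8657 v4106 w5493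
theorem v10355 : PV l10355 := r10355 v9243 v2991 v10348 v10335 v9260 v10299 v5039 v2641 v5623 v5636 v3008 v4796 v4970 w4703 v2938 v2992 v3824 w4498 v1412 v4968 v3007 v3823 v6670 v2640 v10310 v3929 v3928 v10354 v5036 v10252 v2994 v3135 v491 v2533 v5724 v3803
theorem v10356 : PV l10356 := r10356 v5035 v10330 v10343
theorem v10357 : PV l10357 := r10357 v10355 v2638 v2637 v2636 v2634 v3213 v10335 v9243 v9260 v10299 v5039 v2641 v2992 v10348 v3824 w4498 v1412 v3825 v5623 v5636 v10310 v3929 v5035 v4132 v4131 v4130 v4428 v10356 v2821 w3468 w3467 w3469 w3471 v10344 v494 w5482 v2823 v4787 w8701 w8737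
theorem v10358 : PV l10358 := r10358 v10335 v9243 v9260 v10299 v5039 v2641 v2640 v10310 v3929 v3008 v2992 v2991 v10348 v5623 v5636 v4796 v3824 v4968 v4970 w4498 v3823 v3007 w4703 v1412 v2938 v10355 v3217 v10357 v5036 v10252 v2994 v4640 v2823 v4411 v2822
theorem v10359 : PV l10359 := r10359 v499 v4095 v4111 w3497 v10352
theorem v10360 : PV l10360 := r10360 v10335 v9260 v3222 v10358 v5112 v7703 v5036 v10310 v3928 v10299 v9243 v5039 v2641 v6455 v4798 w5168 v4782 w5186 v2730 v3140 w5366 w5365 w5364 v3114 v3113 v485 v4655 v432 v1254 v473 w4485 v476 w4494 v428 v1360 v1316 v2640 v7699 v4156 v6263 v3850 v3827 v1218 v3852 w2989 v9235 v4218 v7651 w8377 v10359 v4212 v5129 w3102 w3100 v1592 w8378 v668 w1582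
theorem v10361 : PV l10361 := r10361 v10335 v9260 v10299 v9243 v5039 v2641 v10358 v6455 v4798 w5168 v7703 v5036 v4655 w4498 v5112 v1360 v10310 v3929 v4782 w5187 v4593 v10360 v6670 v3824 v5793 v3218 v3778 v3775
theorem v10362 : PV l10362 := r10362 v2926 v2920 v4655 v432 v1254 v7703 v5036 v428 v3929 w4513 w4518 v3133 v3804 v5165
theorem v10363 : PV l10363 := r10363 v3850 v10341 v3852
theorem v10364 : PV l10364 := r10364 v10335 v9260 v10299 v9243 v5039 v2641 v10358 v6455 v4798 v485 v4655 v432 v1254 v7703 v5036 v473 w4485 v3222 v10310 v3113 v10361 w3469 v10362 v3135 v10363 v5623 v4796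
theorem v10365 : PV l10365 := r10365 v3929 w4513 w4518 w4508 w4540 v5165 v5169 v3779 v2916 w2787
theorem v10366 : PV l10366 := r10366 v10310 v3929 v10358 v4655 v5112 v5276 v7703 v428 v432 v5036 v1254 v10364 v3213 v3217 v5794 v10365 v4631 v2822 v2920 v2930 v4411 v5165 v5169 v2747 w4308
theorem v10367 : PV l10367 := r10367 w5100 v8362
theorem v10368 : PV l10368 := r10368 v10366 v6243 v5374 v5303 v5344 v5644 v10310 v5035 v3000 v9243 v2992 v5343 v5268 w4481 v4890 v4967 w4912 v3725 v4170 v3928 v2667 v2725 w5362 w3556 v4183 w8525 v3141 v4794 v4893 v2677 v2676 v1242 w4395 v1210 v2995 v3785 w4535 v3007 w4470 v2991 v4903 v498 v4141 v1137 v1412 v328 v2605 v10367 w4574 w5824 v8243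
theorem v10369 : PV l10369 := r10369 v10366 v6243 v5374 v9243 v2992 v5303 v5343 v5344 v5644 v5268 w4481 v4890 v4967 v5269 v4893 v2677 v2671 v6259 v4597 v2538
theorem v10370 : PV l10370 := r10370 v10366 v6243 v5374 v5303 v5344 v5644 v10310 v5035 v3000 v9243 v2992 v5343 v5268 w4481 v4890 v4967 w4912 v3725 v4170 v3928 v2667 v2725 w5362 w3556 v4183 w8525 v3141 v4794 v4893 v2677 v2676 v1242 w4395 v1210 v2995 v3785 w4535 v3007 v3006 v3787 w4470 v2991 v4903 v499 v4108 v4106 v5167 v3733 v498 v1209 v1137 v1412 v10368 v10369 v5525 w5824 v7971 w3582 v5555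
theorem v10371 : PV l10371 := r10371 v10366 v6243 v5374 v5303 v5344 v5644 v10310 v5035 v3000 v9243 v2992 v5343 v5268 w4481 v4890 v4967 w4912 v3725 v4170 v3928 v2667 v2725 w5362 w3556 v4183 w8525 v3141 v4794 v4893 v2677 v2676 v1242 w4395 v1210 v2995 v3785 w4535 v3006 w5365 v498 v4141 v2808 v4129 v499 v4108 v4106 v1594 v3127 w4470 v2991 v4902 v5167 v2726 v3733 v1209 v1138 v5269 v3929 v10370 v10184 v8635 v6124 v6707
theorem v10372 : PV l10372 := r10372 v6124 v6707
theorem v10373 : PV l10373 := r10373 v10366 v6243 v5374 v5303 v5344 v5644 v10310 v5035 v3000 v9243 v2992 v5343 v5268 w4481 v4890 v4967 w4912 v3725 v4170 v3928 v2667 v2725 w5362 w3556 v4183 w8525 v3141 v4794 v4893 v2677 v2676 v1242 w4395 v1210 v2995 v3785 w4535 v3006 w5365 v498 v4141 v2808 v4129 v499 v4108 v4106 v1594 v3127 w4470 v2991 v4902 v5167 v2726 v3733 v1138 v5269 v328 v3929 v10184 v10372 w4574 v9683 v7741 v2584 w6374 w2924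
theorem v10374 : PV l10374 := r10374 v2713 v10371 v9243 v10366 v5374 v5303 v6243 v2992 v5343 v5344 v5644 v5268 w4481 v4893 v2677 v2676 v498 v10310 v5035 v3000 v4890 v4967 w4912 v3725 v4141 v3929 w5365 v2808 v4129 v499 v4108 v4106 v1594 v3127 v4767 w4470 v2991 v4903 v4170 v1242 v1137 v1412 v2605 v8605 v5518 w5824 v8242
theorem v10375 : PV l10375 := r10375 v10366 v6243 v5374 v5303 v5344 v5644 v10310 v5035 v3000 v9243 v2992 v5343 v5268 w4481 v4890 v4967 w4912 v3725 v4170 v3928 v2667 v2725 w5362 w3556 v4183 w8525 v3141 v4794 v4893 v2677 v2676 v1242 w4395 v1210 v2995 v3785 w4535 v3007 v3006 v3787 w4470 v2991 v4903 v499 v4108 v4106 v5167 v3733 v498 v1209 v1137 v1412 v10374 v10369 v5525 w5824 v7971 w3582 v5555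
theorem v10376 : PV l10376 := r10376 v10366 v6243 v5374 v5303 v5344 v5644 v10310 v5035 v3000 v9243 v2992 v5343 v5268 w4481 v4890 v4967 w4912 v3725 v4170 v3928 v2667 v2725 w5362 w3556 v4183 w8525 v3141 v4794 v4893 v2677 v2676 v1242 w4395 v1210 v2995 v3785 w4535 v3006 w5365 v498 v4141 v2808 v4129 v499 v4108 v4106 v1594 v3127 w4470 v2991 v4902 v5167 v2726 v3733 v1138 v5269 v328 v3929 v10375 v2557 v10184 v10373 v10372 w4574 w5824 v9683 w6498 v10099 v2571 w6374 w9024 v5516 v2707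
theorem v10377 : PV l10377 := r10377 v10366 v6243 v5374 v5303 v5344 v5644 v10310 v3928 v4794 v5268 v9243 v2992 v5343 w4481 v4893 v2677 v2676 v1242 w4395 v1210 v5035 v2995 v3785 w4535 v3006 v3929 v4767 v1138 v4890 v4967 v5269 v2557 v10212 v10372 w4574 w5824 v7935 v10099 v2571 w9024 v2707 w3239 v2576 v6140
theorem v10378 : PV l10378 := r10378 v10310 v2605 v2713 v10366 v6243 v3007 v5374 v5303 v9243 v2992 v5343 v5344 v5644 v5268 w4481 v4893 v2677 v2671 v328 v3928 w5100 w5511 v8367 v8732 v4608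
theorem v10379 : PV l10379 := r10379 v499 v498 v10366 v6243 v3000 v10310 v5035 v5374 v9243 v2992 v5303 v5343 v5344 v5644 v5268 w4481 v4890 v4967 w4912 v3733 v3725 v4170 v4141 v2726 v4893 v2677 v2676 v4108 v5167 v4106 w4470 v2991 v4902 v2667 v2725 w5362 w3556 v4183 w8525 v3141 w5365 v2808 v4129 v1594 v3127 v10377 v2713 v3928 v4794 v1242 w4395 v1210 v2995 v3785 w4535 v3007 v3929 v4189 v4903 v1209 v1137 v1412 v328 v2605 v7733 v4084 v10378 v5518 w5824 v8242
theorem v10380 : PV l10380 := r10380 v10366 v6243 v5374 v5303 v5344 v5644 v10310 v5035 v3000 v9243 v2992 v5343 v5268 w4481 v4890 v4967 w4912 v3725 v4170 v3928 v2667 v2725 w5362 w3556 v4183 w8525 v3141 v4794 v4893 v2677 v2676 v1242 w4395 v1210 v2995 v3785 w4535 v3007 v3006 v3787 w5365 v498 v4141 v2808 v4129 v499 v4108 v4106 v1594 v3127 w4470 v2991 v4903 v4902 v5167 v2726 v3733 v1209 v1137 v1412 v10377 v10379 v10369 v5525 w5824 v7971 w3582 v5555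
theorem v10381 : PV l10381 := r10381 v10366 v6243 v5374 v5303 v5344 v5644 v5268 v9243 v2992 v5343 w4481 v4893 v2677 v2676 v1242 w4395 v1209 v1138 v328 v2561 v6145
theorem v10382 : PV l10382 := r10382 v10366 v5374 v5303 w5365 v9243 v498 v10310 v5035 v6243 v3000 v2992 v5343 v5344 v5644 v5268 w4481 v4890 v4967 w4912 v3725 v4141 v2808 v4893 v2677 v4129 v499 v4108 v4106 v1594 v2667 v4170 v2725 w5362 w3556 v4183 w8525 v2676 v5167 v2726 v3733 v2995 v1242 w4395 v1210 v1138 v5269 w4470 v2991 v3929 v3928 v4902 v3141 v3127 v4794 v3785 v4189 w4535 v3006 v10380 v10375 v10376 v2557 v10184 v9779 v10372 w5824 v10381 v2571 w9024 v2707 w3239 v2576 v6140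
theorem v10383 : PV l10383 := r10383 v9243 v10366 v5374 v5303 v6243 v2992 v5343 v5344 v5644 v5268 w4481 v4893 v2677 v4128 v5035 v3000 v2998 v2996 v2676 v4890 v4967 v10310 v2663 v498 w5366 w4912 v3725 v4141 v2807 w8432 v10382 v3150 v10350 v3744 v3748
theorem v10384 : PV l10384 := r10384 v10366 v6243 v3000 v2995 v5374 v5303 v5344 v5644 v5268 v9243 v2992 v5343 w4481 v4893 v2677 v2676 v1242 w4395 v1210 w4389 v10310 v5035 v10383 w4518 w4555 v3785 v3784 v3729
theorem v10385 : PV l10385 := r10385 v10366 v6243 v2998 v2995 v5374 v5303 v5344 v5644 v5268 v9243 v2992 v5343 w4481 v4893 v2677 v2676 v1242 w4395 v1210 v4890 v5643 v10310 v3929 v10323 v3785 v3744 v2739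
theorem v10386 : PV l10386 := r10386 v10366 v5374 v10384 v4158 v5036 v5303 v5344 w3556 v6243 v3000 v2994 v9243 v2992 v5343 v5644 v5268 w4481 v4893 v2677 v2676 v4890 v4967 w4456 v476 v2988 v10310 v2667 v3929 w5362 w4912 v2725 w8525 v3740 v3725 v10385 v3141 v3138 v3805 v10211 v3529 v3221 v3806
theorem v10387 : PV l10387 := r10387 v10366 v5374 v5303 v5344 v5644 v5268 v9243 v6243 v2992 v5343 w4481 v4893 v2677 v2676 v1242 w4389 v10310 v3929 v2994 v10384 v5036 v10386 w4513 v3134 v3807 v3806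
theorem v10388 : PV l10388 := r10388 v9243 v10366 v5374 v5303 v6243 v2992 v5343 v5344 v5644 v5268 w4481 v4893 v2677 v4128 v4129 v5035 v10387 w3470 w3471 w3467 w3468 v2821 v4890 v4967 v5269 v4208 v2676 v10310 v2663 v3929 v499 w5365 w5366 v4106 w8432 v1594 v2301 w2345 v2316 v9262
theorem v10389 : PV l10389 := r10389 v10387 v2820 v10366 v6243 v5374 v5303 v5344 v5644 v5268 v9243 v2992 v5343 w4481 v4893 v2677 v2676 v1242 w4395 v1210 v4890 v4967 v1412 v5643 v4087 v10310 v5035 v10388 w4555 w4546 w5195 v4143 v3727 w2776 v3729 v3749 v3748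
theorem v10390 : PV l10390 := r10390 v9243 v10366 v6243 v2992 v5374 v5303 v5343 v5344 v5644 v5268 w4481 v4893 v10310 v2667 v10387 w3467 v4890 v4967 v5269 v10389 v4158 v9251 v5036 w5362 v4783 w8374
theorem v10391 : PV l10391 := r10391 v10366 v5374 v5303 v5344 v5644 v5268 v9243 v6243 v2992 v5343 w4481 v4893 v2677 v2676 v1242 w4395 v4890 v4967 v1412 v5643 v4087 v5269 v10310 v2667 v3929 v3928 v10387 w3467 v10389 v5036 v4158 v9251 v2629 v10390 w4540 v3133 v5792
theorem v10392 : PV l10392 := r10392 v10391 v2638 v3217 v3213 v10366 v5374 v5303 v5344 v5644 v5268 v9243 v6243 v2992 v5343 w4481 v4893 v2677 v2676 v1242 w4395 v4890 v4967 v5269 v10310 v2667 v3929 v4158 v10323 v9251 w3467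
theorem v10393 : PV l10393 := r10393 v9243 v10310 v3929 v10366 v6243 v5374 v5303 v2992 v5344 v5343 v5644 v5268 w4481 v4893 v4890 v2677 v4967 v2676 v4208 v5269 v10391 v2635 v2637 v2638 v10392 v4129 v10356 w3468 w3467 w3470 v9262
theorem v10394 : PV l10394 := r10394 v10393 v3219
theorem v10395 : PV l10395 := r10395 v10393 v3223
theorem v10396 : PV l10396 := r10396 v10395 v10393 v7703 v2989 v2992 v480 v1209 v1210 v3000 v2994 v5035 v3119 v3812 v6133 v3342 v3851 v3809 v4133 v5242 v3794 v2843 w4942 v4838 w8775 v8721 v5243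
theorem v10397 : PV l10397 := r10397 v10393 v480 v481 v3491 v8603 v7707
theorem v10398 : PV l10398 := r10398 v10393 v7703 v1209 v480 v10397 v6133 v10396 v5039 v2846 v4614 v2843
theorem v10399 : PV l10399 := r10399 v10393 v2557 v5433 v6818 v7703 v1210 v328 v498 v499 v2604 v10212 v2711 v4767 v8607 v9769 v9219
theorem v10400 : PV l10400 := r10400 v10393 v5433 v7703 v1210 v8376 v2673 w4492 v2992 v4891 v328 v498 v2557 v10399 v2615 v10372 v8567 w4574 w5824 v4084 v10205 v8569 w6363 w2924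
theorem v10401 : PV l10401 := r10401 v10393 v2708 v7253 v6179
theorem v10402 : PV l10402 := r10402 v4082 v10401 w2924 v4608 w6342 w6585
theorem v10403 : PV l10403 := r10403 v10393 v2713 v5433 v8376 v2674 v6818 v4183 v7703 v328 v2604 v2711 v9725 w5407 v10402 v8370 v8366
theorem v10404 : PV l10404 := r10404 v10394 v10393 v498 v10398 w4492 w4479 w5362 w5364 w5363 v4183 v7703 v1210 v3927 v3442 v3000 v5035 v3118 v3117 v3115 v499 v2992 v2990 v5433 v4892 v6818 v8376 v2659 v2661 v3336 v3837 v2674 w8374 w8525 w9074 v8369 v4132 v4130 w8350 w9106 v6253 w9087 v3370 v8721 w4906 v4841 v10400 v10403 v2614 v2615 v8565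
theorem v10405 : PV l10405 := r10405 v10393 v3118 v3117 w3542 w3543 w8479 v3340 w1569 w8525 v5467 w8526 w8504
theorem v10406 : PV l10406 := r10406 v10393 v4183 v7703 v1210 v3345 v3423 v3000 v2998 v5035 v3115 v498 v10398 w5363 w5364 w5362 v10405 v5433 v10404 v6818 v3336 v8369 w8481 v6253 v3370 v4846 v8721 v4850 v4838
theorem v10407 : PV l10407 := r10407 w5680 w5590 v10135 v7985 v5871 v3569 v8453
theorem v10408 : PV l10408 := r10408 v10394 v3234 v2382 v3616 v2648 w8268 w8649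
theorem v10409 : PV l10409 := r10409 v7840 v4204 w714 v10127 v9901 w5285 w5286 w5287 w5290 w3427 w3429 w3753 v8341 v2474 v10408 v2550 v8180 v2494 w8187 v3931 v7980 v4943 w2713
theorem v10410 : PV l10410 := r10410 v10394 v10393 v7840 v2658 w3434 w3438 v8027 v9994 w2712 v8171
theorem v10411 : PV l10411 := r10411 v3234 v3611 v3915 v3233
theorem v10412 : PV l10412 := r10412 v1209 v1210 v2980 v2981 w3427 v7985 v9901 v10411 v2550 v1510 w8000 v3930 v8911 v4473
theorem v10413 : PV l10413 := r10413 w8700 v2327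
theorem v10414 : PV l10414 := r10414 v1210 v10412 v10410
theorem v10415 : PV l10415 := r10415 v1209 v1210 v2980 v2981 w3427 v10411 v9901 v2550 v1510 w8000 v3930 v5872 v8911 v4473
theorem v10416 : PV l10416 := r10416 v10395 v2379 v4580 v2448 v2449 w7959 v9894
theorem v10417 : PV l10417 := r10417 w690 v2657 v8185 v1210 w5285 w5286 w5287 w5290 v10414 w8542 v10415 w3438 w3439 v10416 v7987 v8453 v3573 v3571 v7274 w7959 v9894
theorem v10418 : PV l10418 := r10418 v4208 w3464 v2658 v10413 v4209 v2708 v1209 v1210 v10409 v2477 v4280 v4260 w691 w699 w695 v10417 w5680 w5683 w5682 v10407 v10135 w1474 w1469 v28 w3683 w7826 w7921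
theorem v10419 : PV l10419 := r10419 v4201 v8341 v2980 v2982 v2827 w3427 v9817 v2606 v2608 w1534 w1536 v9992 w7694 v4949 v1091 w4633 w2283 w4736 v7352
theorem v10420 : PV l10420 := r10420 v5042 v2981 v5118 v3930 v2452 v2448 v2457 v7291 v4957 v732 w4606 w2269 w5615 v7352
theorem v10421 : PV l10421 := r10421 v2657 v2834 v8185 w8678 v2711 v2708 v4204 w694 w714 v10127 v10142 w5285 w5286 w5287 w5290 w5627 v10419 v2473 v2474 v10420 w3434 w3435 w3436 v10408 v2494 v2450 v2452 v673 w2283 w8697 w8229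
theorem v10422 : PV l10422 := r10422 v2980 v2981 v10411 v5667 v3930 v4476 v4473
theorem v10423 : PV l10423 := r10423 v1209 v1210 w5285 w5286 v10422 w3438 w3439 v10416 v7987 v8453 v3573 v3571 v7274 v9894 w7959
theorem v10424 : PV l10424 := r10424 v4208 w3464 v2658 v10413 v4209 v2657 v2834 v8185 v1209 v10418 w8678 v10421 v2477 v4280 w691 w699 w695 w690 v10423 w5680 w5683 w5682 v10135 w1474 w1469 v28 w8672 w3683 w2287 w7826
theorem v10425 : PV l10425 := r10425 v10393 v7840 v4204 w714 v10127 v10142 v9901 w5287 w5290 v8445 w3427 w3429 v7981 v8921 v7994 v8341 w2716 v3161 v4297 v4917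
theorem v10426 : PV l10426 := r10426 v1209 v1210 v2980 v2981 v2827 v2829 w3427 v10411 v9901 v2550 v5667 w8000 v2450 v2452 v2447 w7694 v8911 v1091 v10135 w4607 w2283 w5613 w8040
theorem v10427 : PV l10427 := r10427 w690 v2657 v2834 v8185 v1210 w5285 w5286 w5287 w5290 v10426 w3438 w3439 v10410 w8542 v10416 v7987 v8453 v3573 v3571 v7274 v9894 w7959
theorem v10428 : PV l10428 := r10428 v10424 v4208 w3464 v2658 v10413 v4209 v2708 v1209 v1210 v10425 v2477 v4280 v4260 w691 w699 w695 v2269 v10427 w5680 w5683 w5682 v10407 v10135 w1474 w1469 v28 w3683 w7826 w7921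
theorem v10429 : PV l10429 := r10429 v2711 v2708 v4204 w694 w714 v10127 v10142 w5285 w5287 w5290 w5627 w5632 v10419 v2474 v2476 v10420 v8175 w3435 w3437 v2494 v767 v2451 v2312 w8696 w8230
theorem v10430 : PV l10430 := r10430 v2980 v2981 v2827 v2829 v10411 v5667 v3930 v2450 v2452 v2447 w7694 v4476 v1091 v10135 w4607 w2283 w5613 w8040
theorem v10431 : PV l10431 := r10431 v1209 v1210 w5285 w5286 v10430 w3438 w3439 v10416 v7987 v8453 v3573 v3571 v7274 v9894 w7959
theorem v10432 : PV l10432 := r10432 v4208 w3464 v2658 v10413 v4209 v2657 v2834 v8185 v1209 v10424 v10428 w8678 v10429 v2477 v4280 w691 w699 w695 v2269 w690 v10431 w5680 w5683 w5682 v10135 w1474 w1469 v28 w8672 w3683 w2287 w7826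
theorem v10433 : PV l10433 := r10433 v10393 w690 v2657 v8185 v7840 v2992 v1209 v1210 w5285 w5286 w5287 w5290 v10422 v10414 w3434 w3438 w3439 v4888 w8542 v10416 v7987 v2469 w2712 v8453 v2646 v8273 v3613 w4753 v3174 w8253
theorem v10434 : PV l10434 := r10434 v5728 v8392
theorem v10435 : PV l10435 := r10435 v4208 w3464 v2658 v10413 v4209 v2657 v8185 v7840 v2708 v1209 v1210 v10409 v2477 v4280 v4260 w699 w695 v2269 w690 v10433 w5679 w5678 w5681 v7991 v10156 v10434 w3754 w3756 w3757 v25 w7917 w1454 w1461 w7959 w7869 w2269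
theorem v10436 : PV l10436 := r10436 v10393 v7840 v1209 v1210 w5285 w5286 v10422 w3434 w3438 w3439 v10416 v7987 v2469 w2712 v8453 v2646 v8273 v3613 w4753 v3174 w8253
theorem v10437 : PV l10437 := r10437 v10393 v10432 v4208 w3464 v2658 v10413 v4209 v2657 v2834 v8185 v2708 v2992 v1209 v10435 v4896 w8678 v10421 v2477 v4280 w699 v2269 w690 v10436 w5679 w5678 w5681 v10156 v10434 w3754 w3756 w3757 v25 w8675 w1454 w1461 w7959 w7869 w2269
theorem v10438 : PV l10438 := r10438 v2980 v2981 v2827 v2829 v10411 v5667 v3930 v2450 v2452 v2448 v3611 v1091 v3583 w2283 w7708 v2831 w8040 v744 v2294 w5652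
theorem v10439 : PV l10439 := r10439 v10393 w690 v2657 v2834 v8185 v7840 v2992 v1209 v1210 w5285 w5286 w5287 w5288 w5290 v10438 w3434 w3438 w3439 v10410 v4888 w8542 v10416 v7987 v2469 w2712 v8453 v2646 v8273 v3613 w4753 v3174 w8253
theorem v10440 : PV l10440 := r10440 v4208 w3464 v2658 v10413 v4209 v2657 v2834 v8185 v7840 v1209 v2477 v4280 v4260 w699 w695 v2269 w690 v10439 w5679 w5678 w5681 v7991 v10156 v10434 w3754 w3756 w3757 v25 w7917 w1454 w1461 w7959 w7869 w2269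
theorem v10441 : PV l10441 := r10441 v4209 v2657 v2834 v8185 v2658 v2708 w3464 v4208 v1209 v1210 v10413 v10432 v10437 v10440 v10425 v10429 w8678
theorem v10442 : PV l10442 := r10442 v4204 w694 w714 v10127 v10142 v8173 w5285 w5286 w5287 w5290 w3427 w3752 w3754 w3753 v8341 v2473 v2474 v10408 v8180 v2494 w4633 v2450 v2452 v7291 w4736 v673 w8229 w2283
theorem v10443 : PV l10443 := r10443 v1209 v1210 v2980 v2981 w3427 v8173 v8007 v2606 v2607 v9992 v4473 v4476
theorem v10444 : PV l10444 := r10444 w3439 w3438 w690 v2657 v8185 v10410 w8542 v10416 v7987 v8453 v3573 v3571 v7274 v9894 w7959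
theorem v10445 : PV l10445 := r10445 v10394 v10395 v2381 v2382 v2378 v4580 v2450 v2447 w7963 v10135 v677
theorem v10446 : PV l10446 := r10446 v10394 v10393 w3437 w3435 w3434 w695 w699 w691 v2658 w3464 v10444 v2327 v10445 v7987 v8453 v3572 v3613 v10135 v3170 v3172 v3174 w5651 v678
theorem v10447 : PV l10447 := r10447 v10394 v10395 v2381 v2382 v2378 v4580 v2450 v2447 w7963 w7960 v677
theorem v10448 : PV l10448 := r10448 v10393 w699 w691 v7840 v1210 w5285 w5286 w5287 w5290 v10443 w3434 w3435 w3437 v10446 v10447 v7987 w2712 w2714 v8273 v8171 v10008 v1244 v1139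
theorem v10449 : PV l10449 := r10449 w5682 w5680 v10407 v10135 w1469 w7826 w7921
theorem v10450 : PV l10450 := r10450 v4209 v2657 v8185 v7840 v2658 v2708 v4208 v1209 v1210 v10442 v2477 v4280 v4260 w691 w695 v2269 w690 v10448 w5679 w5678 w5681 v10156 v10434 w3754 w3753 w3756 w3757 v10449 v7991 v25 w7917 w1454 w1461 w7959 w7869 w2269
theorem v10451 : PV l10451 := r10451 v10393 v2657 v2834 v8185 w8678 v2992 v4896 v2711 v2708 v4204 w694 w714 v10127 v10142 w5285 w5286 w5287 w5290 w5627 w5632 v10419 v2473 v2474 v10420 w3434 w3435 v10408 v2494 v2450 v2451 v7291 v673 w4750 w2287 v676 w8230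
theorem v10452 : PV l10452 := r10452 v4581 v2467
theorem v10453 : PV l10453 := r10453 v2980 v2981 v10452 v5667 v3930 v4473 v4476
theorem v10454 : PV l10454 := r10454 v1140 v1244
theorem v10455 : PV l10455 := r10455 w699 w691 v7840 v1209 v1210 w5285 w5286 w5287 w5290 v10453 w3434 w3435 w3437 v10446 v10447 v7987 w2712 w2714 v8273 v10008
theorem v10456 : PV l10456 := r10456 v4209 v2657 v2834 v8185 v2658 v2708 v4208 v1209 v10450 v10451 v2477 v4280 v4260 w691 w695 v2269 w690 v10454 v10455 w5679 w5678 w5681 v10156 v10434 w3754 w3753 w3756 w3757 v10449 v25 w8675 w1454 w1461 w7959 w7869 w2269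
theorem v10457 : PV l10457 := r10457 v1209 v1210 v4204 w694 w714 v10142 v8341 v10419 w3427 v8173
theorem v10458 : PV l10458 := r10458 w5285 v1209 v1210 v2980 v2981 v2827 v2829 w3427 v10452 v8173 v2550 v5667 w8000 v7984 v2450 v2452 v2448 w7694 v8911 v2831 v1091 w4606 v744 w2283 w5616 w8040
theorem v10459 : PV l10459 := r10459 v10393 w691 v7840 w3434 w3435 w3437 v10446 v10447 v7987 w2712 w2714 v8273 v8171 v10008 v1244 v1139
theorem v10460 : PV l10460 := r10460 v10393 w5290 w5288 w5287 w5286 w5285 v4209 v2657 v2834 v8185 v2711 v4208 v2992 v1209 v1210 v4201 v10457 v4280 v4260 v2269 v10459 v2980 v2827 v2829 v10452 v10458 v5667 v4896 v3930 v2450 v2452 v2448 w7694 w4750 v3611 v1091 v3583 w2283 v2831 w8040 v744 v2294 w5652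
theorem v10461 : PV l10461 := r10461 v10393 v10142 v5040 w5290 w5285 v8170 v8173 v8445 w5627 w5632 w3427 w3429 w3753 w3755 v7994 w4654 v8175 v767 v2494 w2276 v2451 v7291 w8230 w4744
theorem v10462 : PV l10462 := r10462 v10393 v4209 v2657 v2834 v8185 v7840 v4602 v2708 v4082 v2992 v1209 v1210 w5285 v10460 v2484 v2474 v2475 v2476 v2477 v10142 v10461 v4896 w8678 w5627 w5632 v10420 w3435 w3437 v8175 v767 v2494 w2276 v2451 v7291 w8230 w4750 v676
theorem v10463 : PV l10463 := r10463 v7840 w5679 w5678 w5681 v10127 v10156 v2477 v4280 w691 w695 v2269 w690 v10434 w3754 w3753 w3756 w3757 v10449 v7991 v25 w7917 w1454 w1461 w7959 w7869 w2269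
theorem v10464 : PV l10464 := r10464 v10393 v2555 v2550 v2551 w2335 w2338 w2336 v10411 v3611 v1091 v4283 v4284 v2647 v2648 v28 w8112 v676 w7767 w7942
theorem v10465 : PV l10465 := r10465 v4201 v4209 v1209 v1210 v4204 w694 w714 v8341 v2980 v2981 v2982 v2828 v2827 w3427 v10464 v7978 w8021 v8320 v2606 v2608 w1534 w1538 w1536 v7985 v9992 v4949 v1091 w4610 w2283 v7352 w5616 v7982 w8768 w7729
theorem v10466 : PV l10466 := r10466 v4209 v2657 v2834 v8185 v2711 v4208 v1210 v4201 v10465 v4280 v4260 v2269 v10459 v2980 v2981 v2827 v2829 v10411 v4583 v3930 v2450 v2452 v2448 w7694 v3611 v4476 v1091 v3583 w4606 w2283 v2831 w8040 v744 w5616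
theorem v10467 : PV l10467 := r10467 v10394 v10393 v5042 v2981 v2828 v2827 v5162 v3170 v3172 v3174 v3612 v2647 v2648 v2649 w8112 w7770 v676 w7767 w7942
theorem v10468 : PV l10468 := r10468 v8175 v10408
theorem v10469 : PV l10469 := r10469 v5040 v10467 w3435 v10468 v2494 v8180 v3931 v7291 v4943 w8053 w2713
theorem v10470 : PV l10470 := r10470 v10394 v10395 v3234 v2382 v2378 v10021 v3612 w4750 v2647 v2648 w8112 v676 w7767 w7942
theorem v10471 : PV l10471 := r10471 v5042 v2980 v2981 v2828 v2827 v10470 v2492 v1446 v3930 v2450 v2452 v2448 w4750 v4957 w8456 w4606 w2283 v7352 w5616 v7982 w8768 w7729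
theorem v10472 : PV l10472 := r10472 v10393 v1209 v4208 v2708 v4209 v2657 v2658 v2834 v8185 v10463 w5290 w5288 w5287 w5286 w5285 v7840 v2992 v1210 v10441 v10466 v2473 v2474 v2475 v2476 v2477 v10469 v4896 w8678 v10471 w3435 w3437 w3438 v10468 v7982 v2494 w5632 v2451 v2447 v7291 v617 w4750 w2276 v676 w8230
theorem v10473 : PV l10473 := r10473 v4082 v4602 v10472 v1209 v4208 v2708 v4209 v2657 v2658 v2834 v8185 v10463 v10456 v10462
theorem v10474 : PV l10474 := r10474 w5285 v4602 v1209 v1210 v2980 v2981 v2827 v2829 w3427 v10452 v2550 v4583 v7978 v3930 v2450 v2452 v2448 w7694 v4081 w716 w714 v7984 v4476 v1091 v2831 w4606 w2283 v744 w5616 w8040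
theorem v10475 : PV l10475 := r10475 v4201 v8341 v5041 v4204 v10459
theorem v10476 : PV l10476 := r10476 v4204 w694 v4949 v7352 w4610 w5616 v7982 w8768 w7729
theorem v10477 : PV l10477 := r10477 w5290 w5289 w5287 w5286 w5285 v2657 v2834 v8185 v4082 v4208 v1210 v4201 v10475 v2980 v2982 v2985 v2828 v2827 v10452 v10474 v4583 v10454 v3931 v2450 v2451 v2452 v2448 w7694 v3595 v1091 w2283 w2287 v10476 v4280 w695 v5689 v3565 w8041 w4617 v2831 w5618 v744
theorem v10478 : PV l10478 := r10478 v5040 v10467 w3434 w3435 w3436 w3438 v10468 v7982 v2494 v8180 w4633 v2450 v2452 v7291 w4736 v673 w8229 w2283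
theorem v10479 : PV l10479 := r10479 v10393 v4209 v2657 v2834 v8185 v7840 v2658 v4602 v2708 v4082 v4208 v2992 v1209 v1210 v10463 w5285 w5286 v10472 v10473 v10477 v2473 v2474 v2475 v2476 v2477 v10478 v4896 w8678 v10471 w3435 w3437 w3438 v10468 v7982 v2494 w5632 v2451 v2447 v7291 v617 w4750 w2276 v676 w8230
theorem v10480 : PV l10480 := r10480 v1209 v1210 v9901 v4081 w716 w714 v10438
theorem v10481 : PV l10481 := r10481 v2829 v2827 v2828 v2981 v2980 v2711 v1209 v1210 v10480 v10464 v7978 w8000 v4081 w716 w714 v2606 v2607 w1534 w1538 w1536 v10411 w7694 v3611 v4476 v1091 v3583 w4606 w2283 v2831 w8040 v744 w5616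
theorem v10482 : PV l10482 := r10482 v5669 w8698
theorem v10483 : PV l10483 := r10483 v4204 w694 w714 v10419 v9817 w1538 v10482 w8768 w7729
theorem v10484 : PV l10484 := r10484 w3427 v4201 v2711 v4208 v10483 v4280 v2269 v10438
theorem v10485 : PV l10485 := r10485 v4201 v4204 w694 w714 w8021 v8320 v2606 v2608 w1534 w1538 w1536 v7985 v9992 v4949 v1091 w4610 w2283 v7352 w5616 v10482 w8768 w7729
theorem v10486 : PV l10486 := r10486 v4209 v2657 v2834 v8185 v2711 v4082 v4208 v1209 v1210 v4201 v10475 v2980 v2981 v2982 v2828 v2827 v2829 w3427 v10481 v10484 v10464 v10485 v4280 v4260 v2269 v10411 v4583 v3930 v3931 v2450 v2452 v2448 w7694 v3611 v4468 v1091 w4610 v3583 w2283 v2831 w8040 v744 w5616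
theorem v10487 : PV l10487 := r10487 v1209 v1210 w3427 v10467 v9901
theorem v10488 : PV l10488 := r10488 v5040 v7840 v1209 v1210 v10487 v2858 w3435 v10468 v2550 v8182 v7978
theorem v10489 : PV l10489 := r10489 v5040 v3931 v2450 v2452 v2448 v2457 w7717 v4949 w4750 w4610 w8456 w2283 v7352 w5616 v10482 w8768 w7729
theorem v10490 : PV l10490 := r10490 v2980 v2982 v2828 v2827 v10489 v5118 v2492 v10470
theorem v10491 : PV l10491 := r10491 v10393 v4209 v2657 v2834 v8185 v4602 v2992 w5285 w5286 w5287 w5288 w5290 v10486 v2484 v2473 v2474 v2475 v2476 v2477 v10488 v4896 v10490 w3434 w3435 w3436 v10468 v2494 v2450 v2452 v673 v8399 w2283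
theorem v10492 : PV l10492 := r10492 v9432 v5728 v8392
theorem v10493 : PV l10493 := r10493 v10482 v650
theorem v10494 : PV l10494 := r10494 w5681 w5678 w5679 v7840 v10449 v7991 v25 w7917 w1454 w1461 w7959 w7869 w2269
theorem v10495 : PV l10495 := r10495 v10479 v4209 v2657 v2834 v8185 v2658 v4602 v2708 v4208 v1209 v10491 w5679 v10492 w3754 w3753 w3756 w3757 v10493 v4280 w691 w695 v2269 w690 v10494 v2477
theorem v10496 : PV l10496 := r10496 v3924 v5096 w5121 v2371 v5097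
theorem v10497 : PV l10497 := r10497 v3239 v2975 v2517 v455 v7334 v4493 v4496
theorem v10498 : PV l10498 := r10498 v3926 v3324 v3327 v3533 v8317 v4587 v4588 v5093 v5149 v2417 v2348 v5140 v655 v5152 w3364
theorem v10499 : PV l10499 := r10499 v2518 v2520
theorem v10500 : PV l10500 := r10500 v7703 v2980 w7694 v3931 v10498 v5102 v3236 v3239 v3103 v6442 v10499 v2975 v2796 v2517 v1427 v1443 v455 v3325 w5222 w5218 v7334 v3633 v5097 v4257 v4275 v4496 w3386 w3387 v2441 v2442 v1485 w4585 w2203 w8061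
theorem v10501 : PV l10501 := r10501 v4587 v4588 v6283 v3926 v5093 v5149 v5140 w5205 v5152 v2410
theorem v10502 : PV l10502 := r10502 v3239 v3236 v3926 v2975 v2796 v2517 v2366 v1427 v455 w5218 v7334 v3633 v5097 v4257 v4275 v4496 w3386 w3387 v2441 v2442 v1485 w4585 w2203 w8061
theorem v10503 : PV l10503 := r10503 v3926 v5102 v3236 v3239 v3103 v10502 v2520 v2371 v447 v5082 v2412
theorem v10504 : PV l10504 := r10504 v7703 v2980 w7694 v3930 w3414 v2831 w3663 v5669 v3583 w7894 w2245 v10500 v10501 v10503 v3323 v3325 v8317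
theorem v10505 : PV l10505 := r10505 v7703 v2980 w7694 v3931 v2982 v4204 w694 w688 w714 v4949 v7352 v8320 w4610 w5616 w5615 v10504 w8768 w7729
theorem v10506 : PV l10506 := r10506 v10395 v10393 v10394 w5290 w5288 w5287 w5286 w5285 v2808 v4129 v3119 v1594 w5355 v3532 v2657 v2834 v8185 w5351 v2531 v4602 v4082 v4208 v7703 v1209 v1210 v4201 v10475 v2980 v2985 v2828 v2827 w3427 v10452 v10474 v2550 v4583 v10454 v3930 v2450 v2451 v2452 v2448 v2449 w7694 v3611 v1091 w2283 w2287 v10505 v4280 w695 v3583 v5689 w8041 v2831 w4617 w5618 v744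
theorem v10507 : PV l10507 := r10507 v7703 v10503 v3323 v3325 v8317
theorem v10508 : PV l10508 := r10508 v4587 v4588 v6283 v3926 v5093 v5149 v5140 w5205 v5152 v2498 v2411 v4574 v4575
theorem v10509 : PV l10509 := r10509 w3663 v5669 w7894 w2245
theorem v10510 : PV l10510 := r10510 v7703 v2981 v2980 v5040 v5042 v1209 v1210 v2550 v2492 v1446 v8320 v3930 v2450 v2452 v2448 v2449 w4750 v10507 v4957 w8456 w4606 w2283 v7352 w5616 w5615 v10509 w8768 w7729
theorem v10511 : PV l10511 := r10511 v10508 v7703 v2980 v2828 v2827 w3427 v10510 v3234 v10470 v3612 v4820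
theorem v10512 : PV l10512 := r10512 v10395 v10394 v10393 v2808 v4129 v3119 v1594 w5355 v3532 v2657 v2834 v8185 w5351 v2531 v4602 v7703 v2992 w5285 w5286 w5287 w5290 v10506 v2484 v2473 v2474 v2475 v2476 v2477 v2478 v10488 v4896 v10511 w3434 w3435 w3436 v10468 v2494 v2450 v2452 v673 v8399 w2283
theorem v10513 : PV l10513 := r10513 v464 v465 v463 v10475
theorem v10514 : PV l10514 := r10514 w694 v5669 v650 w2269 w1465 w7897
theorem v10515 : PV l10515 := r10515 v10395 v10393 v10394 v2808 v4129 v3119 v1594 w5355 v3532 v2658 v2657 w5351 v2531 v2834 v4209 v4602 v2708 v4208 v7703 v1209 v8185 v10479 v10495 v10512 w5679 w5681 v10492 w3754 w3753 w3756 w3757 v10514 v4280 w691 w695 v2269 w690 v10494 v2477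
theorem v10516 : PV l10516 := r10516 v3926 v2365 v5102 v3103 v3105 v10502 v2342 v2520 v10499 w5223 w7479 w7493
theorem v10517 : PV l10517 := r10517 v3924 v3325 v1128 v2796 v648 w7459 v2372 w5218 v2413
theorem v10518 : PV l10518 := r10518 v3930 v2831 v10509 v3583 v10516
theorem v10519 : PV l10519 := r10519 v3931 v4204 v2982 v4949 w4610 w694 v10476 v7352 w5616 w5615 v10518 w8768 w7729
theorem v10520 : PV l10520 := r10520 v1209 v1210 w688 w714 v7978 v8320 v10517 v10519 v1104 v732 v6715 v5669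
theorem v10521 : PV l10521 := r10521 v4201 v4208 v2980 v2981 v2827 v2829 w3427 v10452 v2550 v4583 v3930 v2450 v2452 v2448 v2449 w7694 v3611 v1091 v10520 v4280 v2269 v4476 v3583 w4606 v2831 v744 w8127 w5616 v1104 w8040
theorem v10522 : PV l10522 := r10522 w8021 v8007
theorem v10523 : PV l10523 := r10523 w8674 w7823
theorem v10524 : PV l10524 := r10524 v10393 v4201 v4896 w4750 w8253 v3162 v3598 v2651 v2653 v10523 w8249 v1104 w8162 v2294 w5652
theorem v10525 : PV l10525 := r10525 v10393 v3161 w7823 v3598 v2651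
theorem v10526 : PV l10526 := r10526 v10393 v4201 w4734 v10525 w7959 v1279 w1454 v4888 w4750 w4760 w8253 w4645 w7917 v2283 w2280
theorem v10527 : PV l10527 := r10527 w5616 v2294 w5611 v2327 v737 w2278
theorem v10528 : PV l10528 := r10528 w8522 v2327
theorem v10529 : PV l10529 := r10529 w8201 v10527 v2314 v2305 w8162
theorem v10530 : PV l10530 := r10530 v10394 v10529 w8249 v2651 w1452 w1465 v3598 v9894 v3159 w5637 w8286
theorem v10531 : PV l10531 := r10531 v10393 v4201 v2658 v2657 w3434 w3435 w3436 w3437 w3438 w3439 v8341 v4203 v4204 v4205 v4206 v10447 v2469 v2646 v5893 v10526 v10530 v2327 w5650 v2294 w8253 v3162 v4561 v3598 w8162 v2653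
theorem v10532 : PV l10532 := r10532 w714 v2550 v4583 v7978 v2448 v2449 v10485 v732 w2258 w8699 w8226
theorem v10533 : PV l10533 := r10533 v10395 w3690 w3663 v10493 w5662 v10532 v3235 v2389 v2380 v3595 v748 w8270 v2650 w8264 w8652
theorem v10534 : PV l10534 := r10534 v2550 v4583 v7978 v3931 v2452 v2448 w7694 v4949 v6715 w4610 w7729 v2314 w5616 v7352
theorem v10535 : PV l10535 := r10535 v4201 v2711 v4209 v4204 w694 w688 w708 w714 v10533 v2850 v10534 v3234 v2467 v10411 v3611 v2606 v4810 w8021 v10464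
theorem v10536 : PV l10536 := r10536 v2658 v10508 v2836 v2834 v4209 v4208 v2992 v1209 v1210 v10531 v2980 v2981 v2982 v2828 v2827 v2829 w3427 v10521 v10413 v10535 v4280 v2269 v10411 v4583 v3930 v2452 v2448 w7694 v3611 v4476 v3583 w4606 v2831 v744 w8127 w5616 v2314 w8040
theorem v10537 : PV l10537 := r10537 v10393 v2980 v1209 v1210 v2550 v2492 v1446 v7978 v3930 v2450 v2452 v2448 v2449 v4896 v3612 w4750 v10520 v735
theorem v10538 : PV l10538 := r10538 v10393 v2828 v2980 v3234 v3612 v4820 v10467 v10470 v4896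
theorem v10539 : PV l10539 := r10539 v732 w5616 v2314 w8065
theorem v10540 : PV l10540 := r10540 v5040 v2658 v10508 v1209 v1210 v2980 v2982 v2829 w3427 v10538 v2550 v2492 v1446 v10537 v7978 v3931 v2452 v2448 v10413 v4949 w4610 v10539 v10493 w8768 w7729
theorem v10541 : PV l10541 := r10541 w7981 v7982 v1104 v8399
theorem v10542 : PV l10542 := r10542 v2834 v4209 v4602 v4082 v4208 v2992 w5285 w5286 w5287 w5288 w5290 v10536 v2484 v2473 v2474 v2475 v2476 v2477 v10540 w3434 w3435 w3436 w3438 v10468 v2494 v2450 v2452 v2448 v673 v10541 v732 v1104 w8229 v8399 w5616 w7899 w5611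
theorem v10543 : PV l10543 := r10543 w5679 w694 v10127 v650 v5669 v10528 w1465 v10541 w2278
theorem v10544 : PV l10544 := r10544 v5893 v2450 v2452 v2448 v5872 v54 w7959 w7869 v1104
theorem v10545 : PV l10545 := r10545 v10394 v4124 v10544 v2385 v2382 v5871 w7966 w7921 w1498
theorem v10546 : PV l10546 := r10546 v10393 v10394 v10395 v10508 v2424 v4130 v4209 v4602 w3582 v2708 w5511 w5512 v4082 v2808 v2815 w3464 v4129 v4208 v2660 v3120 v7703 v1209 v3119 v3115 v1594 w5355 w5351 w5813 v3532 v2531 v2657 v2658 v3336 v10515 v6253 v10542 w5679 w5681 w5683 w5682 w5718 w5590 v10492 w3752 w3754 w3753 w3756 w3845 v10543 w695 v2269 v10545 v2477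
theorem v10547 : PV l10547 := r10547 v5035 v2425 v7703 v8318 v5102 v3239 v3101 v2549 v5173 v3322 v2609 v8315 v8317 w5518 w5584 v8314 v3325 w7460 v2409 w3150 v4494
theorem v10548 : PV l10548 := r10548 v3926 v3925 v3236 v3103 v5117 v5122 v653 w5206 v2796 v5076
theorem v10549 : PV l10549 := r10549 v2504 v2499
theorem v10550 : PV l10550 := r10550 v2503 v2522
theorem v10551 : PV l10551 := r10551 v10393 v2424 v7703 v1209 v1210 v7978 v8320 v10454 v10547 v1247 v8316 v3327 v2645 v10548 v2500 v10550 v2826 w7578 w8811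
theorem v10552 : PV l10552 := r10552 v4602 w3427 v2827 v2828 v7703 v2981 w5286 w5285 v10508 v10551 v2550 w7830 w8115 v10452 v10464
theorem v10553 : PV l10553 := r10553 v2975 v2718 v8923 w7660 v2409
theorem v10554 : PV l10554 := r10554 v4602 w3427 w5285 w5511 v1209 v1210 v10452 v2550 v7978 v8320 v10517 v3926 v2365 v5102 v3239 v3104 v3105 v2549 v5173 v8315 v2609 w5579 w5580 v10553 v2342 v2343 v10499 w7479 w663 w7493 v1436
theorem v10555 : PV l10555 := r10555 v1209 v1210 v2796 v10553 v1443 v3325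
theorem v10556 : PV l10556 := r10556 v5102 v2514 v3239 v3103 v3105 v2549 v5173 v8315 v2609 w5580 v10555 v2342 v10499 w7479 w7493
theorem v10557 : PV l10557 := r10557 v10556 v3327 v10548 v10550 v10549
theorem v10558 : PV l10558 := r10558 v5102 v2514 v3239 v3103 v3105 v2549 v5173 v8315 v2609 w5580 v10555 v2342 v10499 w7479 w9070
theorem v10559 : PV l10559 := r10559 v10393 v10558 v3327 v2645 v10548 v2500 v10550 v2826 w7578 w8811
theorem v10560 : PV l10560 := r10560 v4082 w714 v4204 w5290 w5287 w5286 v10508 v2430 v2424 v4602 w3582 v2815 v3120 v7703 v1209 v1210 v2998 v4201 v8341 v2981 v2828 v2827 w3427 v10552 v10554 v10559 v9983 v7978 v10464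
theorem v10561 : PV l10561 := r10561 v8343 v10538
theorem v10562 : PV l10562 := r10562 v2424 w3582 w5511 v2815 v3120 v7703 v1209 v1210 v2998 v7978 v8320 v10551 v10557 v10559 v10517 v3926 v2365 v5102 v3239 v3103 v3104 v3105 v2549 v5173 v8315 v2609 w5579 w5580 v10555 v2342 v2343 v10499 w7479 v1436 w663
theorem v10563 : PV l10563 := r10563 w5286 w5285 v10508 v2430 v4209 v4602 v4082 v7703 v1210 w694 w714 v10560 v2473 v2474 v2476 v10561 v2550 v10562 w3752 w3754 w3756 w8187 w1534 w1538 w1536 v673 v10541 v732 v1104 w8229 v8399 w5616 w7899 w5611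
theorem v10564 : PV l10564 := r10564 w5285 v10508 v4602 w3582 v2815 v3120 v7703 v2998 v10562 v10552 v2550 w3434 w3435 w3437 v10447
theorem v10565 : PV l10565 := r10565 v2606 v2607 v8325 w3434 w3435 w3437 v2469 v10447
theorem v10566 : PV l10566 := r10566 v2981 v10411
theorem v10567 : PV l10567 := r10567 v10393 w5285 v10565 w5286 v2710 v8326 w8000 v2550 v10566 w3434 w3435 w3437 v10447
theorem v10568 : PV l10568 := r10568 w5290 w5287 w5286 w5285 v10508 v2430 v4602 v7703 v2992 v1209 v1210 v10567 v10562 v10564 v2550 v10531 v10452 v10566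
theorem v10569 : PV l10569 := r10569 v10393 v10394 v10395 v7703 v1210 v2987 v7726 v2710 v8377 w5406 v3532 v2657 v2834 v4209 v4602 v2708 v4208 v2992 v1209 w5285 w5286 w5287 w5290 v10563 v2477 v4280 w691 w699 w690 v10568 w3427 w3752 w3753 w3756 w3757 w3755 v10531 v10447 v7840 v8185 v7987 v8453 w2712 v3573 v3571 v3613 v8171 v3171 v3169 w8542 w7959 w8283 w5627
theorem v10570 : PV l10570 := r10570 v2980 v2981 v8926
theorem v10571 : PV l10571 := r10571 v1209 v1210 v9432 v8392 v2484 v4080 v4081 w750 w715 v19 v2608 w1605 w1537 v10570 w3527 w3437 w7964 v8332 v3165 v6206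
theorem v10572 : PV l10572 := r10572 v7840 v8453 w2712 v3572 v4475 v8332
theorem v10573 : PV l10573 := r10573 v10572 v7987 v598 v2462 v3930 v8273 v8005
theorem v10574 : PV l10574 := r10574 v10394 v2385 v2382 v5871 w7966 w7921 w1498
theorem v10575 : PV l10575 := r10575 v10395 v10393 v10394 v2557 v2555 v7703 v498 v8721 w4906 v4969 v4968 v5035 v3000 v4841 v4838 v481 v10396 v480 v8603 v7707 v3473 w3464 v5925 v2668 v4127 v4208 v2660 v2988 v2987 v10406 v4183 v1209 v1210 v3442 v3423 v4138 v3115 v499 v2604 v10212 v7735 v4767 v4779 v4084 v4082 v7737 v8905 v7976 v4602 w5017 w5512 v2708 w3582 v4189 v4593 w9044 v8260 v5238 v4209 v8235 v3509 v10546 v7726 v2656 v2710 v8377 w5406 v3532 v2657 v10569 w5680 w5682 w5719 w5718 w5714 w5590 w5585 w5589 v10571 w3427 w3754 w3753 w3756 w3755 w3845 w3844 v10543 v2477 v4280 w730 w727 w691 w695 v10574 v3107 v10573 w7828 v3331 w7877 v8005 v4475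
theorem v10576 : PV l10576 := r10576 v8354 v4583 v3931 v2450 v2452 v2448 w7694 v4949 v1091 v6715 w4610 w2283 w7729 w5616 v7352
theorem v10577 : PV l10577 := r10577 v10394 v10395 v3234 v3235 v2383 v2379 v10452 v2467 v10411 v3611 v3595 v6715 w6719 v3911 v2653 w7766 w4606 w8111 w5616
theorem v10578 : PV l10578 := r10578 v10393 w694 v4204 v2657 v4201 v10577 v8354 v4583 v10576 v4896 v2450 v2452 v2448 w7694 w8770 v1091 v6715 w4750 w5654 v1104 w8065
theorem v10579 : PV l10579 := r10579 v10393 w694 v10578 v5042 v2473 v2474 v2476 v10467 v10538 v4896 v1446 v2492 w4750 v3930 v2450 v2452 v2448 v735 v4957 v6715 w4607 w7729 v1104 w5612 v7352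
theorem v10580 : PV l10580 := r10580 v4583 v3930 v2450 v2452 v2448 w7694 v4476 v1091 v744 w4606 w8127 w5616 v1104 w8040
theorem v10581 : PV l10581 := r10581 v328 w2924 v4208 v1209 v1210 w3649 w3651 w3712 w3713 w3714 v10492 w3648 w3647 w3646 w5285 w5286 w5287 w5290 v10579 v2477 v4280 w699 v2269 v10580 v10452 v10411
theorem v10582 : PV l10582 := r10582 v10395 v4209 w694 v4204 v2614 v2567 v4201 v8341 v2980 v2981 v2828 v2827 v2829 v8339 v8348 v10464 v2379 v2380 v10577 w8209 v8921 w3663 w1500 w8264 w8652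
theorem v10583 : PV l10583 := r10583 v2492 v3930 v3612 v2450 w4750 v735 v2449 v2448 v2452 v7703 v2980 w6466 w694 v2657 v10508 v2815 v8185 v10490 w2283 v10519 v3323 v3325 v8317
theorem v10584 : PV l10584 := r10584 v5669 v732
theorem v10585 : PV l10585 := r10585 w694 v10584 v1104 v7352 v10519 w5616 v10517 v23
theorem v10586 : PV l10586 := r10586 v10393 v5042 w694 v10508 v2424 v3120 v7703 v1209 v1210 v2980 v2981 v10467 v10538 v4896 v1446 v2492 w4750 w6466 v3930 v2450 v2452 v2448 v2449 v735 v3612 v4957 w4606 v10583 v10585 v6715 w7729 v1104 w5616 v7352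
theorem v10587 : PV l10587 := r10587 v2834 v4209 v4208 v7703 v2992 w694 w688 v10582 v2473 v2474 v2476 v10586 w3434 w3435 w3436 w3438 v10468 v2494 v2450 v2452 v2448 v673 v10584 v10541 v1104 w8229 v8399 w5616 w7899 w5611
theorem v10588 : PV l10588 := r10588 v8339 v8348 v10566
theorem v10589 : PV l10589 := r10589 v2834 v4209 w3464 v4208 v7703 v2992 v1209 v1210 w5285 w5286 w5287 w5288 w5290 v10587 v2477 v4280 v10588 v10513 v10531
theorem v10590 : PV l10590 := r10590 v43 w7789 w7709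
theorem v10591 : PV l10591 := r10591 v7703 v2980 v2803 v10590 v4125 v10021 v1446
theorem v10592 : PV l10592 := r10592 w694 v7982 v5669 v650 v10528 v2314 w1465 v8399
theorem v10593 : PV l10593 := r10593 v10395 v10394 w5406 v3532 v2657 w5405 v2531 v2656 v4209 w5511 w5512 w3464 v4208 v2660 v7703 v1209 v1210 v10589 w5679 w5681 w5683 w5682 w5718 w5717 w5590 v10591 w3434 w3435 w3436 w3438 w3525 v10592 v2477 v4280 w691 w695 v2269 v10449 v10545
theorem v10594 : PV l10594 := r10594 v7703 w5285 w5286 w5287 w5288 w5290 v10587 v2477 v4280 v10588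
theorem v10595 : PV l10595 := r10595 w5511 w5512 v7703 v1210 v10594 w5717 w5590 v10591
theorem v10596 : PV l10596 := r10596 v10393 w4734 w7823 w7918 v4888 w4750 w4760 w8253 w4645 w2280 w7917 v2283
theorem v10597 : PV l10597 := r10597 v2269 w699 v2614 v2550 v7987 v2469 w8209 v2646 v2612 w1501 w1502 w1500 v8453 v5893 v10596 v10530 w8249 v2327 v10527 w5650 w8162 w8253 v1104
theorem v10598 : PV l10598 := r10598 v10394 w3439 w3438 w3436 w3435 w3434 v2657 v2656 v4209 v2568 v4208 v7703 v2992 v1209 v1210 w5285 w5286 w5287 w5288 w5290 v10587 w756 v2477 v4280 w695 w690 v10597 v2382 v4580 v2451 w7962 w8287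
theorem v10599 : PV l10599 := r10599 v2550 v5872 w7878 v1705 v5893 v2612 v8453
theorem v10600 : PV l10600 := r10600 v6215 w7962 w7921
theorem v10601 : PV l10601 := r10601 v10395 v10393 v10394 w3749 v2555 v7703 v328 w2924 w6731 v2568 v2614 v2592 w8728 w5406 v3532 v2657 w5405 v2531 v2656 v2834 v4209 w6713 v2581 w5511 w5512 w3464 v4208 v2992 v1209 v10581 v10593 v10595 w3434 w3435 w3436 w3438 v10598 w5679 w5683 w5682 w5590 v10592 w756 v2477 v4280 w695 v10599 v2381 v2382 v10600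
theorem v10602 : PV l10602 := r10602 v3926 v2610 v5102 v2549 v5173 v8315 w7419 w7588
theorem v10603 : PV l10603 := r10603 v5102 v2516 v2549 v8315 w7419 w7588
theorem v10604 : PV l10604 := r10604 v10393 v4201 w5290 w5288 w5287 w5286 w5285 v2829 v2827 v2981 v2980 v10508 v2430 v4204 w694 w688 v10577 v4583 v8354 v3930 v2450 v2452 v2448 v2449 v8325 v3611 v3580 v1091 v6715 v1104 w7729 v7352 w5616 w5600 w8063 w8458 v10602 v3924 v3325 v2643 v10517 v10603 v10548 v2500 v10550 v2826 w7578 w8811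
theorem v10605 : PV l10605 := r10605 v4583 v8005 v3930
theorem v10606 : PV l10606 := r10606 w5286 w5285 v2981 v4208 v10604 v4280 v10605 v10452 v10411
theorem v10607 : PV l10607 := r10607 v10393 w5286 w5285 v2981 v2980 w3650 w3649 w3711 w3712 v10606 v5042 v2473 v2474 v2475 v2476 v2477 v10467 v10561 v4896 v1446 v2492 w4750 v3930 v2450 v2452 v2448 v4957 v735 v6715 w4607 v1104 w7729 w5612 v7352
theorem v10608 : PV l10608 := r10608 v10588 v4280 v4279 v10582
theorem v10609 : PV l10609 := r10609 v10393 v10602 v3924 v3325 v2643 v10603 v10548 v2500 v10550 v2796 v2826 v1128 w7578 w8811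
theorem v10610 : PV l10610 := r10610 v2592 v10508 v2430 v2431 v10609 v4209 w5285 w5286 w5287 w5290 v10607 v10608 v2473 v2474 v2476 v10467
theorem v10611 : PV l10611 := r10611 v4125 v2567 v43 v3332 w1527 w7789 v2386 v3166 w2400 v4466 v6571 w7878 w3649
theorem v10612 : PV l10612 := r10612 v7703 v328 w2924 w6731 v2592 w6713 v2557 v2615 v2544 w9146 w8921 v10508 v2424 v2430 v2431 v10609 v2581 w5511 v1209 v1210 v2980 v2982 v2803 v10610 w5717 w5590 w5588 v10611 v10021 v1446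
theorem v10613 : PV l10613 := r10613 v10394 v2657 v2656 v2567 v4201 v8341 v5041 v4203 v4204 v4205 v4207 v10597 v2382 v10447 v4580 v2451 w7962 w8287
theorem v10614 : PV l10614 := r10614 v2657 v2656 v4208 w5285 w5287 w5290 v10613 v2473 v2475 v2477 v8343 v10592 v2494 v2450 v2452 v2448 v673 v10584 v1104 w8229 v8399 w5616 w7899 w5611
theorem v10615 : PV l10615 := r10615 v3107 v2550 w9085 w7878 v2453 w7828 v2612 v1510 v8453
theorem v10616 : PV l10616 := r10616 v10395 v10393 v10394 w3749 v2555 v7703 v328 w2924 w6731 v2568 v2614 v2592 w8728 w5406 v3532 v2657 w5405 v2531 v2656 v2834 v4209 w6713 v2581 v2557 v2615 v2544 w9146 w8921 w5514 v4779 v4767 w3464 v4127 v4208 v2660 v2992 v1209 v1210 v3927 v10601 v10612 w3434 w3435 w3436 w3437 w3438 w3439 w3651 w3524 w3525 v10614 w5679 w5683 w5682 w5719 w5718 w5590 v10592 w756 v2477 v4280 w730 w727 w695 v10615 v2381 v2382 v10574 v10600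
theorem v10617 : PV l10617 := r10617 v2829 v2827 v2982 v2981 v2980 v4209 v4208 v4201 v10608 w3649 w3712 v10578 v4280 v2269 v10580 v10452 v10411
theorem v10618 : PV l10618 := r10618 w4743 v3896 v3537 v6715 w7729
theorem v10619 : PV l10619 := r10619 v10393 v5042 v3174 v5161 v4938 v3573 v3575 w4612 v6715 w5612 v1104 w8065
theorem v10620 : PV l10620 := r10620 v10394 v5042 v3171 w2278 v5161 v4938 w2260 v3571 w4612 v6856 w5610
theorem v10621 : PV l10621 := r10621 v3896 v3900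
theorem v10622 : PV l10622 := r10622 v5040 v10618 v6715 v10619 v10620
theorem v10623 : PV l10623 := r10623 v2424 v2815 v3120 v7703 v10507 v10585
theorem v10624 : PV l10624 := r10624 v10584 v2829 w3658 v7703 v2983 v4938 w4612 v10493 v7982 w5614 v10528 v10509 w2278 v10623 v3568 w7893 w8108
theorem v10625 : PV l10625 := r10625 v10395 v2829 v7703 v2983 v2982 v2981 v2980 v2656 v4209 v10508 v2592 v4208 v1209 v1210 w5285 w5286 w5287 w5288 w5290 v10617 v5042 v5040 v2473 v2474 v2475 v2476 v2477 v2478 v10467 v10538 v4912 v1446 v10621 v3534 v3536 v3537 v3596 v4949 v3587 v3228 w4610 v5161 v10622 v10584 v10624 v10539 w5616 v10620 v4561 w8065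
theorem v10626 : PV l10626 := r10626 v7703 v328 w2924 w6731 w6713 w5511 w5512 v1210 v10625 w5717 w5590 v10591
theorem v10627 : PV l10627 := r10627 v2657 v2656 v4208 w5285 w5286 w5287 w5290 v10613 v2473 v2474 v2475 v2477 v10468 v10592 v2494 v2450 v2452 v2448 v673 v10584 v1104 w8229 v8399 w5616 w7899 w5611
theorem v10628 : PV l10628 := r10628 v10395 v10394 w5406 v3532 v2657 w5405 v2531 v2656 v2581 v2592 v2568 v4208 w3434 w3435 w3436 w3437 w3438 w3439 w3651 w3524 w3525 v10627 w5679 w5683 w5682 w5719 w5718 w5590 v10592 w756 v2477 v4280 w730 w727 w695 v10615 v2381 v2382 v10574 v10600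
theorem v10629 : PV l10629 := r10629 w5290 w5287 w5286 w5285 v10508 v2431 v4209 v2592 v10608 w3650 w3649 w3711 w3712 v10606
theorem v10630 : PV l10630 := r10630 v2592 v10508 v2430 v2431 v10609 w5286 v10629 v2473 v2474 v2476 v10467
theorem v10631 : PV l10631 := r10631 v4125 v2567 v43 v3332 w1527 w7789 v2386 v3166 w2400 v4466 v6570 w7878 w3649
theorem v10632 : PV l10632 := r10632 v10393 v10395 v10394 v2615 v2614 v2557 v2555 v5035 v7703 v3000 v4841 v4838 w3464 v4127 v2660 v2989 v2988 v2992 v1209 v1210 v3927 v328 v3115 v9222 v8217 w5017 w5512 w5514 w5511 w2924 w3749 v2544 v4593 v4767 v4779 w6731 w9146 w8921 v8260 v2568 v2592 v2581 w6713 v10508 v4209 v3509 w8728 v2424 v2430 v2431 v2834 w5405 w5406 v2531 v3532 v10616 v10628 v2980 v2982 v2803 v10626 v10609 v10630 w5717 w5590 w5588 v10631 v1446 v10021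
theorem v10633 : PV l10633 := r10633 w4574 w5824 v8634 v2559 v4084 v8569
theorem v10634 : PV l10634 := r10634 v10393 v7703 v498 v8721 w4906 v4969 v4968 v481 v10396 v480 v8603 v7707 v3473 v5925 v2668 v10406 v3927 v3442 v3423 v2557 v10575 v2615 v10633 v9222 v10632 w5511 v4794
theorem v10635 : PV l10635 := r10635 v7703 v1209 v1210 v3321 v10175 v7207 v3261
theorem v10636 : PV l10636 := r10636 v5034 v9961 v9866
theorem v10637 : PV l10637 := r10637 v10393 v5034 v2711 v7703 v1209 v1210 v10635 v3843 v10636 v3308 v3272 v3261 v7120 v1073 v7207 w3998 w2528 w1530 w6309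
theorem v10638 : PV l10638 := r10638 v5034 v7703 v1209 v1210 v4763 v10175 v10068 v8118 w2449
theorem v10639 : PV l10639 := r10639 v10393 v10638 v2711 v7703 v1209 v1210 v10637 v8089
theorem v10640 : PV l10640 := r10640 v1209 v424 v9961 v3089 w2569 v7963
theorem v10641 : PV l10641 := r10641 v10393 v3272 v7120 v7207 w3998 w1530 w6309
theorem v10642 : PV l10642 := r10642 v10393 v2711 v7703 v1209 v1210 v328 w4636 w4263 w4610 v4618 w5616 v8077 w8540 v5034 v4230 v4231 v4233 v4086 v10638 v10639 v10640 v3308 v3261 v1073 w2528 v10641 v7827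
theorem v10643 : PV l10643 := r10643 v2294 w5652
theorem v10644 : PV l10644 := r10644 v4230 v4231 v4086 v10637
theorem v10645 : PV l10645 := r10645 v10393 v7703 v1209 v328 v10644 v8067 v8077
theorem v10646 : PV l10646 := r10646 v5034 v9866 v5956 v4057 w3895
theorem v10647 : PV l10647 := r10647 v2711 v7703 v1209 v1210 v5034 v4230 v4231 v4086 v10635 v3843 v10646 v3308 v3261 v1073 v10641 w2528
theorem v10648 : PV l10648 := r10648 v10393 v7703 v1210 v10645 v7840 v4618 v10647 v9294 v3960 v8085 v7871 v9202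
theorem v10649 : PV l10649 := r10649 v10395 v7703 v1209 v1210 v328 v8086 v4228 v4231 v4086 v10638 w853 v3843 v9910 v10636
theorem v10650 : PV l10650 := r10650 v10395 v7703 v1209 v4231 v4086 v10635 w853 v3843 v10107 v10646
theorem v10651 : PV l10651 := r10651 v10393 v7703 v1210 v10648 v10649 v7840 v4618 v10650 v9294 v3960 v8085 v7871 v9202
theorem v10652 : PV l10652 := r10652 v10393 v7703 v1209 v1210 v4233 v4086 v10638 v8078
theorem v10653 : PV l10653 := r10653 v10393 v7703 v1209 v328 v10652 v8067 v8077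
theorem v10654 : PV l10654 := r10654 v10393 v5035 v7703 v3000 v4838 v1209 v1210 v4117 v4233 v4086 v8078 v3951 v10175 v10068 v3265 v9001 v5033
theorem v10655 : PV l10655 := r10655 v10393 v2711 v5035 v7703 v3000 v4838 v1210 v10651 v10653 v4618 v10654 v9294 v3960 v8085 v7871 v9202
theorem v10656 : PV l10656 := r10656 v10395 v4230 v5034 v1210 v10640 v3308 v3261 v9976 v1073 v10641 w2528
theorem v10657 : PV l10657 := r10657 v7703 v1209 v1210 v424 v4525 v4086 v10635 w853 v10656 v4618 v8247 v3091 v1073 v9512 v3308 w3961 v6465 v3978 w2503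
theorem v10658 : PV l10658 := r10658 v10393 v328 v8067 v8077
theorem v10659 : PV l10659 := r10659 v10393 v1209 v1210 v10658 v4618 v9294 v3960 v8085 v9156 v7871
theorem v10660 : PV l10660 := r10660 v10393 v7703 v1210 v10638 v7827 v10640 v3308
theorem v10661 : PV l10661 := r10661 v10393 v1209 v1210 v7827 v7856 v3304 v3308 v4057 v6465 v2779 v5265 v4025
theorem v10662 : PV l10662 := r10662 v2711 v4209 w5017 v5035 v7703 v3000 v4841 v4838 v1209 v1210 v4204 w694 v10142 v732 v1104 v10476 v10642 v4942 v10655 v10659 v4117 v4233 v4086 v10657 v10660 v4618 v10661 v3951 v10175 v10068 v3265 v9001 v5033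
theorem v10663 : PV l10663 := r10663 v4280 v4260 v2269 v10580 v3554 w3414
theorem v10664 : PV l10664 := r10664 v10584 v6715
theorem v10665 : PV l10665 := r10665 v7982 w7729
theorem v10666 : PV l10666 := r10666 v10644 v10649
theorem v10667 : PV l10667 := r10667 v10666 v7840 v4618 v10647 v10650
theorem v10668 : PV l10668 := r10668 v10393 v7703 v1209 v1210 v10667 v10658 v7840 v4618 v8993 v3960 v10175 v10635 v7871 v4085 v4549 w3895 v6130 v5656
theorem v10669 : PV l10669 := r10669 v10393 v2711 v5035 v7703 v3000 v4838 v1209 v1210 v10668 v10653 v10654 v7840 v4618 v8993 v3960 v10175 v8085 v7871 v4549 v2779 v4534 v4533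
theorem v10670 : PV l10670 := r10670 v5035 v7703 v3000 v4838 v4209 v4841 v10664 v1104 v10476 v2711 w5017 v1209 v1210 v10662 v10669 v10659 v4117 v4233 v4086 v10657 v10660 v4618 v10661 v3951 v10175 v10068 v3265 v5033 v9001
theorem v10671 : PV l10671 := r10671 v5034 v9961 v3089 w2534 v8064 v8148 v3282 w4173 v7207 v3986 v3320
theorem v10672 : PV l10672 := r10672 v10395 v4231 v4230 v5034 v1209 v1210 v10671 v3308 v3261 v9976 v1073 v10641 w2528
theorem v10673 : PV l10673 := r10673 v3303 v5956 w3895 v4057 v3085 v6293 v4031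
theorem v10674 : PV l10674 := r10674 v10395 v2711 v7703 v1209 v1210 v5034 v4230 v4086 v10635 w853 v3843 v10672 v7840 v4618 v10673 v3308 v3261 v10107 v1073 v10641 w2528
theorem v10675 : PV l10675 := r10675 v10393 v7703 v1209 v1210 v10674 v10658 v7840 v4618 v8993 v3960 v10175 v8085 v10635 v7871 v4085 v9202 v4549 w3895 v6130 v5656
theorem v10676 : PV l10676 := r10676 v10393 v7703 v1209 v1210 v10638 v8089
theorem v10677 : PV l10677 := r10677 v10393 v5034 v1209 v1210 v8088 w2691 v7857 v3308 v8064 v6465 w2494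
theorem v10678 : PV l10678 := r10678 v5035 v7703 v3000 v4838 v1209 v1210 v4117 v4233 v4086 v10676 v4618 v10677 v3951 v10175 v10068 v3265 v5033 v9001
theorem v10679 : PV l10679 := r10679 v10393 v2711 v5035 v7703 v3000 v4838 v1209 v1210 v10675 v10678 v10658 v7840 v4618 v8993 v3960 v10175 v8085 v7871 v9202 v4549 v2779 v4534 v4533
theorem v10680 : PV l10680 := r10680 v9961 w2555 w2557 v8250
theorem v10681 : PV l10681 := r10681 v10395 v4230 v5034 v2713 v1209 v1210 v3000 v2996 v10680 v3308 v3261 v9976 v1073 v10641 w2528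
theorem v10682 : PV l10682 := r10682 v5035 v4118 v4117 v4525 v2604 w5514 v4767 w5512 v4593 v2713 v7703 v3000 v4838 v1209 v1210 v2996 v3759 v10635 v7692 w853 v3772 v10681 v4618 v8251 v3091 v1073 v9512 v3308 w3961 v6465 v3978 w2503
theorem v10683 : PV l10683 := r10683 v10393 v7703 v1210 v10638 v7858
theorem v10684 : PV l10684 := r10684 v10393 v4525 v1209 v1210 v7856 w2691 v3091 v7857 v9512 v3308 w3961 v6465 v3978 w2503
theorem v10685 : PV l10685 := r10685 v5035 v7703 v3000 v4838 w5512 v4189 v4209 v4841 w5514 v4767 v10664 v1104 v10476 v2711 v4779 v4593 w5017 v1209 v1210 v10670 v10679 v10659 v4117 v4233 v4086 v10682 v10683 v4618 v10684 v3951 v10175 v10068 v3265 v5033 v9001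
theorem v10686 : PV l10686 := r10686 v2711 w853 v3843 v10672
theorem v10687 : PV l10687 := r10687 v10686 v3321 v8753 v7207 v3075 v3261 v8113 v10109
theorem v10688 : PV l10688 := r10688 v10395 v4230 v5034 v1209 v1210 w853 v10673 v3308 v3261 v10107 v1073 v10641 w2528
theorem v10689 : PV l10689 := r10689 v2711 v4086 v10687 v7840 v4618 v10688 v3321 v10109 v7207 v3261
theorem v10690 : PV l10690 := r10690 v4758 v4754
theorem v10691 : PV l10691 := r10691 v10393 v7862 v4763 v3960 v7871 w2449 v8661 v10690 v3308 v6130 v4544 v4549 w3895 v2789 w5897 w6575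
theorem v10692 : PV l10692 := r10692 v10393 v1209 v1210 v10689 v10691 v7840 v4618 v8993 v3960 v3321 v7871 v3091 v10690 v3308 v3261 v8946 v7207 w3895 v4085 v5656 v6130
theorem v10693 : PV l10693 := r10693 v10393 v4086 v4233 v1209 v1210 v8090 v8089 v10109 v8753 v10068 v3075
theorem v10694 : PV l10694 := r10694 v10393 v4969 v4968 v1209 v1210 v8078 v10677
theorem v10695 : PV l10695 := r10695 v4969 v4968 v5034 v4233 v4086 v10693 v7840 v4618 v10694 v4763 v8753 v10109 v8661 v10068 v5265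
theorem v10696 : PV l10696 := r10696 v10393 v2711 v4969 v4968 v1209 v1210 v10692 v10695 v10691 v7840 v4618 v8993 v3960 v7871 v7814 v3091 v3308 v8946 v2779 v10234 v4534 v4533
theorem v10697 : PV l10697 := r10697 w853 v3772 v10681
theorem v10698 : PV l10698 := r10698 v2604 v10697 v3321 v8753 v7207 v3075 v3261 v8113 v10109
theorem v10699 : PV l10699 := r10699 v4525 v1209 v1210 v3000 v2996 v3772 v8251 v3091 v1073 v9512 v3308 w3961 v6465 v3978 w2503
theorem v10700 : PV l10700 := r10700 v2604 v2713 v7703 v5035 v4117 v4118 v4086 v10698 v7840 v4618 v10699 v3321 v10109 v7207 v3261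
theorem v10701 : PV l10701 := r10701 v10393 v10691 v4618 v9294 v3960 v7871 v3091 v10690 v9155 v3308
theorem v10702 : PV l10702 := r10702 v10393 v1209 v1210 v7856 v7858 v9961 v7827 v3308
theorem v10703 : PV l10703 := r10703 v10702 v8753 v3075 v8113 v10068 v10109
theorem v10704 : PV l10704 := r10704 v10684 v10661
theorem v10705 : PV l10705 := r10705 v10393 w5290 w5285 v7703 v2982 v2981 v2980 v2711 v3927 v2659 v3117 v4183 w3556 w8525 w5810 w5511 w5368 w5343 v4209 w5514 v4779 v4767 w5512 v4593 v4189 w5017 v4969 v4968 v5035 v3000 v4841 v4838 v4208 v1210 v2996 v2567 v4201 v10452 v5532 v8007 v1510 v2566 v2608 w1534 w1538 w1536 w7694 v1091 w7708 v10663 w694 v10664 v1104 v10476 v10665 v10643 w8540 v10685 v3768 v7692 v10696 v10701 v5034 v4233 v4086 v10700 v10703 v7840 v4618 v10704 v4763 v10109 v8661 v5023 v5021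
theorem v10706 : PV l10706 := r10706 v2653 v2305 v3596 v10664 v3594 v10665 v10476 v10620 v1104
theorem v10707 : PV l10707 := r10707 v2983 v2982 v2981 v2980 v2658 v5040 v2473 v2474 v2476 v2477 v2478 v10538 v1446 v10706 v2446 v3536 v2492 v3896 v3900
theorem v10708 : PV l10708 := r10708 v3303 v6476 v3085 v6293 v4031
theorem v10709 : PV l10709 := r10709 v10395 v4230 v5034 w853 v10708 v3308 v3261 v10107 v1073 v10641 w2528
theorem v10710 : PV l10710 := r10710 v2711 v1210 v4086 v10687 v7840 v10709 v3321 v10109 v7207 v3261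
theorem v10711 : PV l10711 := r10711 v10393 v1209 v1210 v10710 v10658 v4618 v9294 v3960 v8085 v7871 v3303 v3304 v3091 v8946 v2779 v4534 v4533
theorem v10712 : PV l10712 := r10712 v4915 w8540 w4617 w5616
theorem v10713 : PV l10713 := r10713 v10393 v1209 v1210 v10711 v10710 v10691 v4618 v9294 v3960 v7871 v3091 v10690 v3308 v8946 v2779 v10234 v4534 v4533
theorem v10714 : PV l10714 := r10714 v10393 v8068 v8088 w2691 v6476 v7857 v3308
theorem v10715 : PV l10715 := r10715 v1210 v5034 v4233 v4086 v10693 v7840 v10714 v4763 v8753 v10109 v8661 v10068 v5265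
theorem v10716 : PV l10716 := r10716 v8103 v9294 v4618
theorem v10717 : PV l10717 := r10717 v10393 v2711 v1209 v1210 v3008 v10713 v10715 v10716 v3960 v7871 v7814 v3308 v7199 v1074 w5897 v4549 w3937 v2789 v4521 v2779 w2497 v10234 v4533
theorem v10718 : PV l10718 := r10718 v3772 v8251 v6476 v3091 v3308 v1073
theorem v10719 : PV l10719 := r10719 v2604 v2713 v7703 v1210 v3000 v2996 v5035 v4117 v4118 v4086 v10698 v7840 v4618 v10718 v3321 v10109 v7207 v3261
theorem v10720 : PV l10720 := r10720 v1210 v10659 v10701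
theorem v10721 : PV l10721 := r10721 v7703 v2996 v3759 v10719 v7692
theorem v10722 : PV l10722 := r10722 v10393 v10664 v10665 v2711 v7703 v1210 v10476 v10712 v10717 v10720 v5034 v4233 v4086 v10721 v7876 v4763 v8753 v8661 v5265 v8113 v10068 v10109
theorem v10723 : PV l10723 := r10723 v7117 v3304 v3308 v5827 v7053 w3937 w3906 v6288
theorem v10724 : PV l10724 := r10724 v3303 v10690 v8085
theorem v10725 : PV l10725 := r10725 v10393 v1210 v10717 v10710 v10454 w25 v10723 v3960 w905 v7871 v10724 v3308 v3274 v7199 v1074 w5897 w3986 w6161 w7689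
theorem v10726 : PV l10726 := r10726 v5034 v6476 v3089 w2534 v8064 v8148 v3282 w4173 w4191 v3986 v5713 v3320
theorem v10727 : PV l10727 := r10727 v10393 v5034 v3843 v10726 v3308 v3272 v1073 v3095 w2528 w6034 w3947 w3994 v4995 w6309 v3844
theorem v10728 : PV l10728 := r10728 v10109 v9861
theorem v10729 : PV l10729 := r10729 v1210 v5034 v4230 v4231 v4086 v10727 v4763 v8753 v8661 v5265 v9786 v10728
theorem v10730 : PV l10730 := r10730 v10716 v10723 v10454
theorem v10731 : PV l10731 := r10731 v4007 v1209 v1210 v424 v328 v3303 v10724 v10234 v3090 w2488 w3973 w3959 w3981 v4693 v4991 v4710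
theorem v10732 : PV l10732 := r10732 w25 v10730 w905 v10731 v3308 v3274 v7199 v1074 w5897 w3986 w6161 w7689
theorem v10733 : PV l10733 := r10733 v10393 v10732 v10725 v4888 v10729
theorem v10734 : PV l10734 := r10734 v10393 v3089 w2542 v8064 v3286 v3282 v7770 w6011 w1528 w4192 v5713
theorem v10735 : PV l10735 := r10735 v5034 v10734 v6476 v3308 v1073 v713 v8661 v5050 v4049
theorem v10736 : PV l10736 := r10736 v5034 v4763 v8753 v10728 v8661 v10068 v5265
theorem v10737 : PV l10737 := r10737 v10732 v10736 v4086 v4233 v2711 v1210 v10733 v10715 v10735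
theorem v10738 : PV l10738 := r10738 v5034 v424 v6476 v6958 v3089 w3946 w3952 v7963 v3992 v3986 v3282 v3320 v7171
theorem v10739 : PV l10739 := r10739 v10393 v7703 v10736 v3308 v1073 w2528 v3095 v3272 v4230 v5034 v2711 v1210 v10721 v4888 w6034 w3947 w3994 v4995 w6309 v3844
theorem v10740 : PV l10740 := r10740 v10393 v2829 v2827 v7703 v2985 v2982 v2981 v2980 v2711 v3927 v2659 v3117 v4183 w3556 w8525 w5810 w5511 w5368 w5343 v4209 w5514 v4779 v4767 w5512 v4593 v4189 w5017 v4969 v4968 v5035 v3000 v4841 v4838 v1210 w5285 w5286 w5287 v10707 v2567 v4201 v10452 v10705 v5532 v8007 v10605 v1510 v2566 v2608 w1534 w1538 w1536 v5041 v4280 v4281 v1091 v10664 v1104 v10722 v10732 v5034 v4086 v10736 v10737 v10738 v3308 v1073 v10739 v5068 v713 v8661 v5050 v4049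
theorem v10741 : PV l10741 := r10741 v10393 v2711 v3927 v2659 v3117 v4183 w3556 v2604 w3582 v2713 v4610 v2571 w8978 w8525 w5810 w9075 w5514 v4767 w5512 v4189 w5017 v7703 v4969 v5035 v3000 v4841 v4838 v1209 v1210 v2982 w3427 v10740 w5679 w5588 v10492 v10156 v8392 v19 v2564 v2608 w1538 v4466 v4260 v10665 v10664
theorem v10742 : PV l10742 := r10742 v10393 v10395 v8603 v5925 v2531 v481 v480 v7707 v3473 w3464 v2668 v4208 w5243 w5247 w5262 v10531 v10513
theorem v10743 : PV l10743 := r10743 w3464 w4428 w4430 w4433 v10531 v10513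
theorem v10744 : PV l10744 := r10744 w3435 v2658 v10449 v10513 w5285
theorem v10745 : PV l10745 := r10745 v5872 v5893
theorem v10746 : PV l10746 := r10746 v10393 v10394 v10395 w3438 w3437 w3436 w3435 w3434 v2658 v2657 v8603 v5925 v2531 v481 v480 v7707 v3473 w3464 v2668 v4208 v4201 v10742 v10592 v4280 w691 w695 v10743 v10744 v10745 v2383 v2379 v10447 w7959 w5248 v2305 v651
theorem v10747 : PV l10747 := r10747 v10394 v10395 v10393 w3438 w3436 w3435 w3434 v8603 v5925 v2531 v3532 v481 v480 v7707 v3473 v2668 v2991 v2992 v1209 v1210 v422 v10689 v4888 v10746 v2473 v2474 v2475 v2477 v7982 w5243 w5246 v10468 v2494 v2450 v2452 v2448 v7291 v673 v10584 w4750 v1104 v10643 w8229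
theorem v10748 : PV l10748 := r10748 v4204 v7982 w5247 w5262 v8341
theorem v10749 : PV l10749 := r10749 v10393 v2269 v4201 v2469 v7987 v2646 w8253 v3162 v3174 v3598 v3613 v2650 v2651 v2653 v8453 v10596 v10530 v10643 v4561 w8162
theorem v10750 : PV l10750 := r10750 v10394 v10395 w695 w691 v4201 v2658 v2657 w4428 w4429 w4430 w4750 v10749 v2381 v2382 v2378 v4580 w8253 v678 v2451 v672
theorem v10751 : PV l10751 := r10751 v5034 v9961 w2449 v8661 v5050 v4049
theorem v10752 : PV l10752 := r10752 v10394 v10393 v481 v480 v8603 v7707 v3473 v4968 v10736 v4086 v4233 v5034 v5925 v3532 v2711 v4969 v2992 v1209 v1210 v10747 v10695 v10734 v10751 v4618 v3091 v1073 v3308 v8064 v6465 w2494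
theorem v10753 : PV l10753 := r10753 v10393 v2657 v2651 w1465 w7959 v3161 v3598 w5254 w5255 w7869 v10544 w2269 v8185
theorem v10754 : PV l10754 := r10754 v10753 v2448 v3570 v1510 v5893 v8453
theorem v10755 : PV l10755 := r10755 v10393 v10394 v10395 v5925 v4208 v2269 w691 v4280 v4201 w3438 w3437 w3436 w3435 w3434 v2711 v2658 v8603 v2531 v481 v480 v7707 v3473 v2668 v7703 v2991 v2992 v1209 v1210 v422 v2996 v3759 v10742 v10743 v7692 v10700 v10754 v2383 v2379 v10447 w7959 w5248 v2305 v651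
theorem v10756 : PV l10756 := r10756 v4525 v10751 v4618 v3091 v1073 v9512 v3308 w3961 v6465 v3978 w2503
theorem v10757 : PV l10757 := r10757 v10393 w3438 v5925 v2668 v10748 v10755
theorem v10758 : PV l10758 := r10758 v10395 v10394 v10393 w3438 w3436 w3435 w3434 v5925 v8603 v3532 v2711 v2531 v7703 v4969 v4968 v481 v480 v7707 v3473 v2668 v2991 v2992 v1209 v1210 v2996 v4086 v10736 v10752 v10756 v7856 v3759 v7692 v10700 v4888 v10757 v2473 v2474 v2475 v2477 v7982 w5243 w5246 v10468 v2494 v2450 v2452 v2448 v7291 v673 v10584 w4750 v1104 v10643 w8229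
theorem v10759 : PV l10759 := r10759 v10395 v10393 v481 v480 v8603 v7707 v5925 v4208 v2668 v3473 v2531 v10743 v10746 v10744 v5871 v10745
theorem v10760 : PV l10760 := r10760 v10393 v10394 v10395 v5925 v4208 v2269 w695 w691 v4280 v4201 w3438 w3437 w3436 w3435 w3434 v2658 v8603 v2531 v481 v480 v7707 v3473 v2668 v10742 v10743 v10759 v10754 v2383 v2379 v10447 v5871 w7959 w5248 v2305 v651
theorem v10761 : PV l10761 := r10761 v10393 v5035 v7703 v3000 v4838 v4841 v4969 v10730 v3960 v4968 v1210 v4888 v4896 v7871 v10696 v8085 v10679 v9202 v10669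
theorem v10762 : PV l10762 := r10762 v5872 v10745 v1510 v7840 v8453 w2716 v3932 v5686 v3598 v4628
theorem v10763 : PV l10763 := r10763 w7962 w8287
theorem v10764 : PV l10764 := r10764 v10394 v2381 v2382 v10763 w1482 v2445 w8253 v4580 v10600 w5249
theorem v10765 : PV l10765 := r10765 v7703 v1210 v4968 v4209 v2657 v2658 v4201 v4208 w695 v10764 w690 v4260 v4280 v5035 v3000 v4838 v1209 v422 v10761 v10762 v10750
theorem v10766 : PV l10766 := r10766 v3308 v4007 v4763 v9155 v3096 w6015 w3965 w3976 v9571 v4986 v8045 v4693 v9156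
theorem v10767 : PV l10767 := r10767 v10395 v10393 v7703 v8603 v5925 v2668 v4968 v3115 v480 v2988 v1209 v1210 v4969 v8260 v5238 v5035 v3000 v4838 v4841 v10730 v10731 v10766 w3439 w3438 w3437 w3436 w3435 w3434 v2531 v3509 v2834 v8235 v4209 w5017 v481 v7707 v3473 w3464 v2991 v2992 v422 v10748 v10760 v10765
theorem v10768 : PV l10768 := r10768 v10395 v10394 v10393 v7703 v2992 v2991 v8603 v5925 v481 v480 v7707 v2668 v3473 v3115 v2988 v1209 v1210 v4969 w5512 v4593 v8260 v5238 v8235 v3509 w5511 v3927 v2659 v3117 v4183 w3556 v2604 w3582 v2713 v4610 v2571 w8978 w8525 w5348 v3532 w5343 v2531 v10741 w3438 w3436 w3435 w3434 w5810 w5368 w9075 v2834 v4209 w5514 v4779 v4767 v4189 w5017 v4968 v5035 v3000 v4841 v4838 v10758 v10730 v10731 v10766 v10761 v10767 v2473 v2474 v2475 v2477 v7982 w5243 w5246 v10468 v2494 v2450 v2452 v2448 v7291 v673 v10584 w4750 v1104 v10643 w8229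
theorem v10769 : PV l10769 := r10769 v10393 v1210 v4230 v4231 v4086 v10736 v10710 v10727 v4888
theorem v10770 : PV l10770 := r10770 v10393 v10394 v3008 v328 v4433 v10730 v4763 v3957 v3958 v3321 v10731 v3308 v3273 v3271 v3261 v7199 v1074 w5897 w3937 w4035 v4521 v5713 v3037 w2657 w2489 w2491 v4085 w751 w5910 w6163 v4549 v4542 w4162 w4007
theorem v10771 : PV l10771 := r10771 v7703 v10736 v4086 v10769 v10738 v10739
theorem v10772 : PV l10772 := r10772 v10736 v4086 v4233 v1210 v10715 v10735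
theorem v10773 : PV l10773 := r10773 v10393 v10394 v10395 v2604 v8603 v480 v3115 v5925 v7703 v2988 v1209 v1210 v4969 w5512 v4593 v8260 v3509 v8235 v5238 w5514 v4779 v4767 v4189 w5511 w5017 v2713 v4968 v5035 v3000 v4841 v4838 v481 v7707 v3473 w3556 v2668 v3927 v2659 v2991 v2992 v4183 v3117 w3582 v4610 v2571 v2568 w9075 w8978 w8525 w5348 w5343 w5368 w5810 v3532 v2531 v2711 v10768 v10770 v4086 v10736 v10771 v10772 v10738 v7856 v3308 v10751 v1073 v3091
theorem v10774 : PV l10774 := r10774 v10393 v2711 v1209 v1210 v5034 v4231 v4232 v10736 v3843 v10756 v3089 w2534 w2538 w2569 v8160 v8064 v8148 v8266 v3293 v3282 v1073 w4191 v4888 w6034 v8265 w4005 w1529 w6311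
theorem v10775 : PV l10775 := r10775 v7117 v9099 v3308 v8870 v10454 v4070 w3906 v1246 v6290 w2460
theorem v10776 : PV l10776 := r10776 v10393 v3273 v8661 v4542 v4434 v4185 v4544 w4021 w4008 w6293 w6163 w2667
theorem v10777 : PV l10777 := r10777 v10393 v328 w2494 w2491 w2531 v7870
theorem v10778 : PV l10778 := r10778 v10393 v3308 v4763 v7871 v10777 v8661 v4542 v4185 v4544 w4021 v8269 w6293 v4549 w2550 v2789 w5897
theorem v10779 : PV l10779 := r10779 v10393 v422 v328 v10774 v10775 v4763 v3957 v3960 v3952 v10731 v3308 v3264 v10778 v4888 v10776 w2491 v4518 v4520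
theorem v10780 : PV l10780 := r10780 v10393 v5034 v8160 v8266
theorem v10781 : PV l10781 := r10781 v9961 v7840 v4618 v10673
theorem v10782 : PV l10782 := r10782 v5034 v1209 v1210 v10780 v10781 v3308 v7120 v1073 v5072 v713
theorem v10783 : PV l10783 := r10783 v5034 v10781 v3089 w2534 w2569 v9866 v8064 v8148 v3282 w4191 v8265 v519
theorem v10784 : PV l10784 := r10784 v10393 v4232 v4231 v4230 v5034 v2711 v1209 v1210 v3843 v10782 v4888 v10783 v3308 v3272 v1073 v3095 w2528 w6034 w3947 w3994 v4995 w6309 v3844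
theorem v10785 : PV l10785 := r10785 v10113 v10728
theorem v10786 : PV l10786 := r10786 v10784 v10785
theorem v10787 : PV l10787 := r10787 v7120 v5072
theorem v10788 : PV l10788 := r10788 v10393 v3308 v4763 v7871 v10777 v10787 v4542 w3955 v4544 v8269 v4513 v4549 v3095 v2789 w5897
theorem v10789 : PV l10789 := r10789 v4518 v4520
theorem v10790 : PV l10790 := r10790 v10393 v422 v328 v10779 v10786 v10775 v3957 v3960 v10731 v3308 v3273 v10788 v4888 v10789 v3094 w2657 v4517 v4519 w5897 w4005 w8511 w6163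
theorem v10791 : PV l10791 := r10791 v5034 v5806 v9866
theorem v10792 : PV l10792 := r10792 v10393 v3933 v1210 v5034 v4230 v4231 v4086 v10689 v10785 v3843 v10791 v3272 v7120 v10787 w3999 w2531 v5023 w6309 v3844
theorem v10793 : PV l10793 := r10793 v10393 v2544 v328 w2924 v2713 v1210 v422 v10790 w9166 w6768 v6049 v2583 v4896 v10792 v10775 v4763 v3957 v3960 v10731 v3308 v3273 v10777 v10787 v4434 v4542 v4544 w4008 w6291 w6163
theorem v10794 : PV l10794 := r10794 v10393 v10395 v4231 v4230 v4525 v5034 v3933 v1209 v1210 v10774 v10785 w853 v3843 v10783 v3308 v3272 v3261 v10107 v1073 v3095 v3096 w2528 w6034 w2568 w3947 w3976 w4035 v4995 v8265 v3844 w947 w6309 v3968 w4006 v9125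
theorem v10795 : PV l10795 := r10795 v10393 v3933 v2544 v7703 v328 w2924 v2713 v1210 v5035 v5034 v4115 v4230 v4231 v10794 w9166 w6768 w804 v6049 v2583 v4896 v10689 v10785 v3843 v10791 v3308 v3272 v7120 v1073 w3955 w3999 v3095 w2528 v4995 w6309 v3844
theorem v10796 : PV l10796 := r10796 v3308 v3008 v3094 w2489 w2497 v4517 v4519 w5897 v4549 w3891 w3906 v10234 v4533
theorem v10797 : PV l10797 := r10797 v10395 v10393 v2808 v4129 v3119 v1594 w5813 w5514 w5385 w5512 w5351 v2544 v7703 v328 w2924 v2713 v2991 v2992 v1209 v1210 v10793 v10795 w26 v10730 v4763 v3957 v3960 v3963 v3321 v10731 v3308 v3273 v3261 v3268 v10796 w2617 w2626 v10789 w8634 w9166 w6768 w4190 w813 v6049 v2583 w6280 v4896 v10777 v4085 w751 v4542 v4544 w4008 w6291 w6163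
theorem v10798 : PV l10798 := r10798 v3089 w2569 v7957 v7963
theorem v10799 : PV l10799 := r10799 v5034 v1209 v424 v3303 v10798 v9961 v4057 v7840 v4618 w3895 v6465 w3909 v4746 v3081 v4019

end Pool.Agent.BDD.A
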