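import Pool.Agent.BDD.AR9
import Pool.Agent.BDD.AR10
import Pool.Agent.BDD.AR11
import Pool.Agent.BDD.AR12
import Pool.Agent.BDD.AR13
import Pool.Agent.BDD.AR14
import Pool.Agent.BDD.AO0
import Pool.Agent.BDD.AO1
import Pool.Agent.BDD.AO2
import Pool.Agent.BDD.AO3
import Pool.Agent.BDD.AO4
import Pool.Agent.BDD.AO5
import Pool.Agent.BDD.AO6
import Pool.Agent.BDD.AO7
import Pool.Agent.BDD.AV2

set_option autoImplicit false
set_option linter.all false

namespace Pool.Agent.BDD.A

theorem v10800 : PV l10800 := r10800 v10393 v10395 v4230 v4525 v5034 v3933 v1210 w853 v10799 v3308 v3272 v3261 v10107 v1073 v3095 v3096 w2528 w6034 w2568 w3947 w3976 w4035 v4995 v8265 v3844 w947 w6309 v3968 w4006 v9125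
theorem v10801 : PV l10801 := r10801 v10785 v10736
theorem v10802 : PV l10802 := r10802 v10801 v1210 v424 v5806 v10640 v8247 v4618
theorem v10803 : PV l10803 := r10803 v10393 v2544 v7703 v328 w2924 v2713 v1210 v5035 v5034 v4115 v4230 v10801 v10800 w9166 w6768 w804 v6049 v2583 v4896 v10802 v3308 v3272 v7120 v1073 w3955 w3999 v3095 w2528 v4995 w6309 v3844
theorem v10804 : PV l10804 := r10804 v10730 v10775
theorem v10805 : PV l10805 := r10805 v10393 w5512 v2808 v4129 v3119 v1594 w5351 v2604 w5514 v4779 v4767 v4593 v4189 v7703 v2991 v2992 v422 v2996 v2994 v328 v3794 v10797 v10803 v10804 v10731 v10766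
theorem v10806 : PV l10806 := r10806 v10393 v3286 v3282 v1073 w2540 w2568 v7770 w1528 w6011 v8265 w4192
theorem v10807 : PV l10807 := r10807 v5034 v3008 v8064 v3089 w2494 w2500 w2502 v9722 v3308
theorem v10808 : PV l10808 := r10808 v10393 v4969 v4968 v1209 v1210 v8101 v10806
theorem v10809 : PV l10809 := r10809 v10393 v7703 v328 w2924 v4968 v1209 v1210 v5035 v4115 v4233 v10801 v10807 v10808 w9166 w6768 w804 v2583 v7827
theorem v10810 : PV l10810 := r10810 v10395 v10393 v2544 v328 w2924 v2713 v2991 v2992 v1209 v1210 v422 w26 v10804 v4763 v3957 v3960 v3963 v3321 v10731 v3308 v3273 v3261 v3268 v10796 w2617 w2626 v10789 w8634 w9166 w6768 w4190 w813 v6049 v2583 w6280 v4896 v10777 v4085 w751 v4542 v4544 w4008 w6291 w6163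
theorem v10811 : PV l10811 := r10811 v10393 v1210 v10799 v3308 v7902 v10806 v7827
theorem v10812 : PV l10812 := r10812 v10393 v2711 v2544 v7703 v328 w2924 v2604 w5514 v4779 v4767 w5512 v4593 v4189 v2713 v4969 v4968 v2808 v4129 v2992 v1210 v424 v5035 v3119 v1594 w5813 v10805 v10810 v4115 v4233 v10801 v10809 v10811 w9166 w6768 w804 v2583 v7827 v3308 v5806 v3089 w2569 v7963
theorem v10813 : PV l10813 := r10813 v10393 v1209 v1210 v4233 v10801 v4086 v10807 v3286 v3282 v1073 w2540 w6034 w2568 w4035 w4010 w6280 w6312 w1528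
theorem v10814 : PV l10814 := r10814 w5812 w8685 v6253 w8467
theorem v10815 : PV l10815 := r10815 v10393 v5034 v3308 v3273 v3265 v7120 v1073 w4025 w4008 w2553 w2535 w6278 w6311 w943
theorem v10816 : PV l10816 := r10816 w6342 v4086 v10801 v4232 v1210 v424 v10813 v10815 v6476 v10802 v10798
theorem v10817 : PV l10817 := r10817 v10393 v2544 w3749 v7703 v328 w2924 v2604 v4130 w5514 v4779 v4767 w5512 v4593 v4189 w5017 v2713 v4969 v4968 v5035 v3000 v4841 v4838 v4129 v2992 v1210 v424 v3115 v3336 v2711 v10812 w8892 w6342 w813 v6049 v2583 v4896 v10814 v10810 v4117 v4233 v10801 v4086 v10816 v10809 v7827 v3308 v6476 v3089 w2569 v7963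
theorem v10818 : PV l10818 := r10818 v10394 v3532 w5372 v3527 v1594
theorem v10819 : PV l10819 := r10819 v10393 v3119 v8603 v5925 v4129 v2808 w5514 v10818 v480 v3115 v7703 v2988 v1209 v1210 v4969 w5512 v4593 v8260 v3509 v2836 v8235 v5238 v481 v7707 v3473 v2668 v10773 v10817
theorem v10820 : PV l10820 := r10820 v3926 v5102 v10499 v10497
theorem v10821 : PV l10821 := r10821 v5102 v3103 v10499 v653 v2796
theorem v10822 : PV l10822 := r10822 v3933 v4208 v4201 v10452 v4583 v3931 v2613 v3595 v10663 w714 w8069 w8150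
theorem v10823 : PV l10823 := r10823 v1209 v1210 v2980 v2981 v2827 v2829 w3427 v10492 w5285 w5286 w5287 w5290 v10822 v5042 v5162 v3612 v4820
theorem v10824 : PV l10824 := r10824 v10393 w3438 w3436 v2658 v2657 v481 v480 v8603 v7707 w3464 v5925 v2668 v4208 v10742 v10760 v10592
theorem v10825 : PV l10825 := r10825 v1446 w8053
theorem v10826 : PV l10826 := r10826 v10393 v2658 v2657 v3933 v481 v480 v8603 v7707 w3464 v5925 v2668 v4208 w3434 w3435 w3436 w3438 v10824 v2473 v2474 v2475 v2477 v10543 w5285 w5286 v10408 v2494 v2450 v2452 v2448 v673 v8399 v10664 v1104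
theorem v10827 : PV l10827 := r10827 v1209 v1210 v2980 v2981 v2827 v2829 w3427 v10823 v10492 w5285 w5286 w5287 w5290 v10822 v2473 v2474 v2476 v10467
theorem v10828 : PV l10828 := r10828 w8069 w8150
theorem v10829 : PV l10829 := r10829 v9533 v2736
theorem v10830 : PV l10830 := r10830 v3933 v2611 v3595 v10828 v3235 v10663 w714
theorem v10831 : PV l10831 := r10831 v10394 v4082 v4208 v4201 v10830 v3931 v2650 v9533 v4583 v3157 v2566 v10411 v4280 v4281 v4081 v4279 v10828 w8115 v6898 v10577 w8652 w3663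
theorem v10832 : PV l10832 := r10832 v4082 v1209 v1210 v2980 v2981 v2827 v2829 w3427 v10827 v10492 w5285 w5286 w5287 w5290 v10831 v5042 v2473 v2474 v2476 v5162 v10467 v3612 v4820
theorem v10833 : PV l10833 := r10833 v10393 v4082 v2658 v2657 v3933 v481 v480 v8603 v7707 w3464 v5925 v2668 v4208 w3434 w3435 w3436 w3438 v10824 v10826 v2484 v2473 v2474 v2475 v2477 v10156 v10592 w5285 w5286 v10408 v2494 v2450 v2452 v2448 v673 v10664 w7899 v1104 v10643 w8229
theorem v10834 : PV l10834 := r10834 v10393 v2596 v2708 v5238 v10508 v2430 v8603 v480 v3509 v2834 v8235 v4209 v481 v7707 v3473 v5925 v2668 v2992 v1209 v1210 v422 v10833 v10832 v10820 v3325 v2643 v10821 v10548 v2500 v10550 v2796 v2826 v1128 w7578 w8811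
theorem v10835 : PV l10835 := r10835 v4201 v2829 v2827 v2981 v2980 v3933 v4209 v4208 v10517 v10452 v4583 v3930 v3931 v2450 v2452 v2448 v2449 v3611 v3595 v1091 v10663 w688 v10664 v10519 v1104
theorem v10836 : PV l10836 := r10836 v3536 v3537 v3595 v4923 v10664 v3235 w4617 v10539 v10618 w8698
theorem v10837 : PV l10837 := r10837 v10394 v3933 v4204 w694 v10836 v9533 v3160 v4274 v8921 v4272 v10578
theorem v10838 : PV l10838 := r10838 v2829 v2827 v2985 v2982 v2981 v2980 v2658 v3933 v10508 v4209 v4208 v1209 v1210 v4201 v7985 v10835 v10413 v10837 v4280 v10566 v4583 v3931 v3595 v10663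
theorem v10839 : PV l10839 := r10839 v5040 v3933 v2611 v3534 v3536 v3537 v3596 v4923 v6862 v10622 w4617 w2300 w3663 v10539 w5614 w7894
theorem v10840 : PV l10840 := r10840 v2658 v3933 v4209 v4208 v1209 v1210 v2980 v2981 v2982 v2983 v2985 v2829 w3427 v10492 w5285 w5286 w5287 w5288 w5290 v10838 v5040 v2484 v2473 v2474 v2475 v2476 v2477 v2478 v10707 v10538 v10528 v1446 v10839 v3931 v10621 v2492
theorem v10841 : PV l10841 := r10841 v10393 v10395 v2658 v2657 v481 v480 v8603 v7707 w3464 v5925 v2668 v4208 w3434 w3436 w3438 v10824 v2473 v2475 v2477 v10543 v8921 v10592 w5285 v2379 v736 v2494 w1465 v2450 v673 v1104 w8229 v8399 v10643 w7899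
theorem v10842 : PV l10842 := r10842 v10395 v4082 v2614 v4912 w8684 v10840
theorem v10843 : PV l10843 := r10843 v10394 v3933 v4209 v4208 v4201 v10830 v3931 v9533 v4583 v3160 v10411 v5041 v4280 v4288 v4274 v8921 v4287 v10578
theorem v10844 : PV l10844 := r10844 v1209 w3427 v10492 w5290 w5289 w5287 w5286 w5285 v2829 v2827 v2982 v2981 v2980 v1210 v10827 v10843 v5042 v2473 v2474 v2476 v5162 v10467 v3612 v4820
theorem v10845 : PV l10845 := r10845 v3933 v4583 v3931 v2613 v3595 v10663 w714 w7929 w8150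
theorem v10846 : PV l10846 := r10846 v2658 v4209 v4208 v4201 v10845 v10452 v2467 v10411 v10413 w6719 v4280 v10837
theorem v10847 : PV l10847 := r10847 v10393 v10394 v10395 v8603 v480 v3509 v4664 v2596 v4082 v2708 v2614 v2658 v3933 v2834 v8235 v4209 v5238 v481 v7707 v3473 w3464 v5925 v2668 v4208 v2989 v2992 v1209 v1210 v422 v10834 v10841 v2980 v2981 v2982 v2983 v2985 v2827 v2829 w3427 v10492 w5285 w5286 w5287 w5290 v10844 v4912 w8684 v10842 v10846 v5040 v2484 v2473 v2474 v2475 v2476 v2477 v2478 v10707 v10538 v10528 v1446 v2459 v10839 v2492 v10621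
theorem v10848 : PV l10848 := r10848 v3926 v2363 v5102 v3106 v5173 v8315 v10499 w5582 v2797 w9159
theorem v10849 : PV l10849 := r10849 v10393 w5511 v10848 v3325 v2643 v10517 v10821 v10548 v2500 v10550 v2826 w7578 w8811
theorem v10850 : PV l10850 := r10850 v4583 v10605 v2613 v4081 v10828
theorem v10851 : PV l10851 := r10851 v2829 w5285 w5286 w5287 w5288 w5289 v10850 v3234 v3235 v10452 v10411 v3611 v3595 v4280 v4281 v4812 v2831 v4287 v10577
theorem v10852 : PV l10852 := r10852 v7703 v2981 v2980 v4123 v10851 w5719 v21 w7790 w7751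
theorem v10853 : PV l10853 := r10853 v7703 v1209 v1210 v2981 v2801 w3427 v10852 v5042 v2484 v2473 v2474 v2476 v5162 v9432 w5286 v10467 v3612 v4820
theorem v10854 : PV l10854 := r10854 v3933 w5285 w5287 w5290 v10531
theorem v10855 : PV l10855 := r10855 w5680 v10543 v10002 w691
theorem v10856 : PV l10856 := r10856 v10393 v3119 v4129 v2808 w5514 v10818 v3336 v4130 v3115 v6253 w5812 v4082 v2708 v2658 v2657 v3933 v10508 v2430 v2435 v2424 v4209 v4208 v7703 v2992 v1209 v1210 v10849 v10853 w3434 w3436 w3437 w3438 v10855 w5285 v10854 v8343 v2473 v2475 v2477 v2494 v10592 v2450 v2452 v2448 v673 v10664 v1104 w8229 v8399 v10643 w7899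
theorem v10857 : PV l10857 := r10857 v10393 v10848 v3325 v2643 v10821 v10548 v2500 v10550 v2796 v2826 v1128 w7578 w8811
theorem v10858 : PV l10858 := r10858 w3438 w3437 w3436 w3435 v2658 v2657 v3933 v7703 v2992 v1209 v1210 v4124 v10854 w5680 w5682 w5718 w5590 v10543 w691 w695 v8332 v10574 v2447 v5873
theorem v10859 : PV l10859 := r10859 v10393 v7703 v1209 v10801 v10807 v1073 w6034 v2992 w2535 v3095 v3293 v4232 v5034 v3119 v4129 v2808 w5514 v10818 v3336 v4130 v3115 v6253 w5812 v4082 v2708 v2658 v2657 v3933 v10508 v2430 v2435 v2424 v4209 v4208 v2660 v1210 v10856 v4888 w4005 w6311 v3845 v4995 v10708 v10857 v10853 w3434 w3436 w3438 w3525 v10858 v5040 v2473 v2475 v2477 v10543 v10592 w5285 v8343 v2494 v2450 v2452 v2448 v10825 v673 v10664 w2713 v1104 v9185 w8229 w7899 v10643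
theorem v10860 : PV l10860 := r10860 v3926 v2360 v2610 v2361 v5102 v3104 v5173 v8315 v10499 w5565 w5516 w5579 v2978 v2718 v4478 v4303 v4079 v4179 w7609 w7428 w2221 w3624 v1491 w7491
theorem v10861 : PV l10861 := r10861 v10393 v2614 w8684 v10860 v3325 v2643 v10821 v10548 v2500 v10550 v2796 v2826 w8811 v1128 w7578
theorem v10862 : PV l10862 := r10862 v2827 v4201 v10851 w5683 w5590 v9432 v28 v5871 v4081 v2649 v8005
theorem v10863 : PV l10863 := r10863 v1209 v1210 v2980 v2981 w3427 v10862 v5042 v2484 v2473 v2474 v2476 v5162 v9432 v10828 v2565 w5286 w8115 v10467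
theorem v10864 : PV l10864 := r10864 v2596 v4082 v2708 v2658 v2657 v4209 v4208 v7703 v1209 v10863 w3434 w3436 w3437 w3438 w3525 v10855 v10858 w5285 v2473 v2475 v2477 v8343 v8921 v10592 v2494 v2450 v2452 v673 v1104 w8229 v8399 v10643 w7899
theorem v10865 : PV l10865 := r10865 v2827 v4201 v10851 w5683 w5588 v9432 v8392 v28 v4080 v2564 v2655 v4466
theorem v10866 : PV l10866 := r10866 v1209 v1210 v2980 v2981 v2982 w3427 v10865 v5042 v2484 v2473 v2474 v2476 v5162 v9432 v10828 v2565 w5286 w8115 v10467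
theorem v10867 : PV l10867 := r10867 v10393 v10395 v7703 v1209 v4208 v2596 v4082 v2708 v4209 v3119 v4129 v2808 w5514 v10818 v3336 v4130 v3115 v6253 w5812 v2657 v2658 v10866 w3438 w3436 v2660 w3525 v10858 v2477 v10543 w5285 v10592 v2475 v2473 v5040 w3434 v2992 v1210 v5034 v4232 v10801 v10807 v3293 v1073 v3095 w2535 w6034 w3947 v10859 v10864 v4888 w4005 w6311 v3845 v4995 v10708 v8921 v2379 v736 v2494 w1465 v2450 v10825 v673 w2713 v1104 v9185 w8229 w7899 v10643
theorem v10868 : PV l10868 := r10868 v10393 v3119 v8603 v5925 v4129 v2808 w5514 v10818 v3336 v3115 v480 v7703 v2988 v1209 v1210 v8260 v4130 v6253 w5812 w5511 w5345 v2596 v4082 v2708 v3933 v5238 v10508 v2430 v2424 v3509 v8235 w5512 v2806 v481 v7707 v3473 w3464 v2668 v422 v3927 v328 v10847 v10861 v10867 v10804 v10731 v3308 v10796 v4518 v4521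
theorem v10869 : PV l10869 := r10869 v4201 v3933 v4209 v4208 v4583 v3931 v3595 v10663 v4204 w694 v10836
theorem v10870 : PV l10870 := r10870 v2829 v2827 v2985 v2982 v2981 v2980 v4208 v1209 v1210 v7985 v10835 v10413 v10869 v2564 v10411 v4081 w7879 v6862
theorem v10871 : PV l10871 := r10871 v1209 v10492 v2829 v2985 v2983 v2982 v2981 v2980 v2658 v3933 v10508 v4209 v4208 v1210 v10870 v5040 v2484 v2473 v2474 v2475 v2476 v2477 v2478 v10707 v10538 v10528 v8001 v10839 v3931 v10621 v2492
theorem v10872 : PV l10872 := r10872 v4082 v4208 v4201 v10845 v2564 v10452 v10411 v4081 w7879 v6862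
theorem v10873 : PV l10873 := r10873 v2658 v3933 v4209 v4208 v1209 v1210 v2980 v2981 v2982 v2983 v2985 v2827 v2829 w3427 v10492 w5285 w5286 w5287 w5288 w5290 v10871 v10872 v5040 v2484 v2473 v2474 v2475 v2476 v2477 v2478 v10707 v10538 v10528 v2459 v1446 v2492 v10839 v10621
theorem v10874 : PV l10874 := r10874 v4082 v10833 v10841
theorem v10875 : PV l10875 := r10875 v10395 v4082 v2614 v4912 w8684 v10873
theorem v10876 : PV l10876 := r10876 v10393 v10394 v8603 v480 v3509 v4664 v2596 v4082 v2708 v2834 v8235 v4209 v5238 v481 v7707 v3473 w3464 v5925 v2668 v2989 v2992 v1209 v1210 v422 v10874 v10875 v10832 v10844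
theorem v10877 : PV l10877 := r10877 v3234 v10452 v10411 v3611 v4807 v4812
theorem v10878 : PV l10878 := r10878 v6856 v10528 w7894 w3663 w7729 v10539 w5600
theorem v10879 : PV l10879 := r10879 v3933 w5285 w5286 w5288 v10877 v4583 v10605 v2451 v2452 v2448 v2449 v2613 v4280 v4281 v4283 v4081 v4279 v10664 v6862 w2300 w2303 v6856 w8066 v10878 v10665 w5618 w5600
theorem v10880 : PV l10880 := r10880 v2829 v2985 v2983 v2982 v2981 v2980 v2658 v3933 v4208 v1209 v1210 v5040 v2484 v2473 v2474 v2475 v2476 v2477 v2478 v9432 w5285 w5286 w5287 v10561 v10707 v1446 v10528 v10839 v3931 v10621 v2492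
theorem v10881 : PV l10881 := r10881 v2658 v4209 v4208 v1209 v2981 v2982 v2828 v2827 v2829 w3427 v10880 v4201 v10879 w5683 w5588 v9432 v8392 v28 v4080 v2564 v2655 v4466
theorem v10882 : PV l10882 := r10882 v10393 w5679 w5585 v10543 v10523 v4260 v2651 w7959 v6206 v3161
theorem v10883 : PV l10883 := r10883 v10395 v2596 v4082 v2708 v2614 v2658 v2657 v3933 v2834 v4209 v4208 v2989 v2992 v1209 v1210 v4912 w8684 v10881 w3434 w3436 w3438 v10882 w5285 v10854 v8343 v2473 v2475 v2477 v2494 v10592 v2450 v2452 v2448 v732 v673 v1104 w8229 v8399 v10643 w7899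
theorem v10884 : PV l10884 := r10884 w3438 w3436 w3435 v2658 v2657 v4208 v7703 v2992 v1209 v1210 v4124 v10854 w5682 w5718 w5590 w5589 v10543 v4280 w695 v10574 v5873 v3930 v8005 v4475
theorem v10885 : PV l10885 := r10885 v10393 v3119 v8603 v5925 v4129 v2808 w5514 v10818 v3336 v3115 v480 v7703 v2988 v1209 v1210 v8260 v4130 v6253 w5812 w5511 w5345 v2596 v4082 v2708 v2658 v2657 v3933 v5238 v10508 v2424 v3509 v8235 v4209 w5512 v481 v7707 v3473 w3464 v2668 v4208 v2660 v10868 v10876 v10883 v10866 w3434 w3436 w3438 w3525 v10884 v2473 v2475 v2477 v10543 v10592 w5285 v8343 v2494 v2450 v2452 v2448 v673 v10664 v1104 w8229 v8399 v10643 w7899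
theorem v10886 : PV l10886 := r10886 v4201 v2829 v2827 v2985 v2982 v2981 v2980 v4208 v1209 v1210 v10745 v10845 v10835 v10413 v10869
theorem v10887 : PV l10887 := r10887 v10395 v1209 v10492 v2829 v2827 v2985 v2982 v2981 v2980 v4082 v2658 v10508 v4209 v4208 v1210 v10886 v3235 v2380 v2564 v10452 v2467 v10411 v3595 v10413 w6719 v4280 v4281 v4081 v4279 v2650 v10837 v6862 w8115 v6898 v10577 w8652 w3663
theorem v10888 : PV l10888 := r10888 v2658 v3933 v4209 v4208 v1209 v1210 v2980 v2981 v2982 v2983 v2985 v2829 w3427 v10492 w5285 w5286 w5287 w5288 w5290 v10887 v2484 v2473 v2474 v2475 v2476 v2477 v2478 v10707 v10538 v10528 v1705 v1446 v10839 v3931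
theorem v10889 : PV l10889 := r10889 v4201 v2658 v2657 v3933 v5041 v4203 v4204 v4207 v10750 v10764 v10762
theorem v10890 : PV l10890 := r10890 v2658 v2657 v4209 v10889 v4260 v10543 w5287 w5290 v8341
theorem v10891 : PV l10891 := r10891 v10394 v10393 v10395 v2596 v4082 v2708 v2614 w8684 v2989 v4912 v2992 v4896 v4664 v2658 v2657 v3933 v2834 v4209 w3464 v4208 v1209 v1210 v422 v10888 w3434 w3435 w3436 w3437 w3438 w3439 v10890 v2473 v2474 v2475 v2477 v10543 v10592 w5285 w5286 v10468 v2494 v2450 v2452 v2448 v673 v10664 v1104 w8229 v8399 v10643 w7899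
theorem v10892 : PV l10892 := r10892 v2829 v2827 v2985 v2982 v2981 v2980 v4208 v1209 v1210 v4583 w7694 v10835 v10413 v10869
theorem v10893 : PV l10893 := r10893 v2829 v2827 v2981 v2980 v10872 v10892 v2564 v10452 v10566 v4081 w7879 w8150
theorem v10894 : PV l10894 := r10894 v2658 v3933 v10508 v4209 v4208 v1209 v1210 v2980 v2981 v2982 v2983 v2985 v2829 w3427 v10492 w5285 w5286 w5287 w5288 w5290 v10893 v2484 v2473 v2474 v2475 v2476 v2477 v2478 v10707 v10538 v10528 v1705 v1446 v10839 v3931
theorem v10895 : PV l10895 := r10895 v4201 v2658 v2657 v3933 w5285 w5287 w5290 v8341 v5041 v4203 v4204 v4207 v10750 v10764 v5893 v2469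
theorem v10896 : PV l10896 := r10896 w5679 w5678 v10543 v10523 w690 w1452 w7958 w7866
theorem v10897 : PV l10897 := r10897 v10394 v10393 v10395 v4664 v2596 v4082 v2708 v2614 v2658 v2657 v3933 v2834 v4209 w3464 v4208 v2989 v2992 v1209 v1210 v422 v4896 v4912 w8684 v10891 v10894 w3434 w3435 w3436 w3437 w3438 w3439 v10896 w5285 w5286 v10895 v2473 v2474 v2475 v2477 v10468 v10592 v2494 v2450 v2452 v2448 v673 v10664 v1104 w8229 v8399 v10643 w7899
theorem v10898 : PV l10898 := r10898 v4082 v10832 v10844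
theorem v10899 : PV l10899 := r10899 v4201 w5285 w5286 w5287 w5290 v8341 v5041 v4203 v4204 v4207 v10764 v10745 v2469 v10749 v2646 w7922 v737
theorem v10900 : PV l10900 := r10900 v10393 v2658 v2657 v3933 v4209 v4201 v10890 v4888 v10899 w5590 v10543 v10745 w695 v10764
theorem v10901 : PV l10901 := r10901 v2658 v2657 v3933 v2473 v2474 v2475 v2477 v10543 v10592 w5285 w5286 v10468 v2494 v2450 v2452 v2448 v673 v10664 v1104 w8229 v8399 v10643 w7899
theorem v10902 : PV l10902 := r10902 v10393 v4201 v2658 v2657 v3933 w5285 w5286 w5287 w5290 v10895 v8341 v4888 v5041 v4203 v4204 v4207 v10764 v2469 v2646 v5893 v10749 w7922 v737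
theorem v10903 : PV l10903 := r10903 v10394 v4664 v2596 v4082 v2708 v2658 v2657 v3933 v2834 v4209 w3464 v4208 v2992 v1209 v1210 v422 v10897 v10898 w3434 w3435 w3436 w3437 w3438 w3439 v10901 v4201 v10900 v10902 w5682 w5590 v10543 w695 v10764 v1692 v5873 v2445
theorem v10904 : PV l10904 := r10904 v10394 v10395 v4664 v2596 v4082 v2708 v2614 v2658 v2657 v3933 v10508 v2430 v2834 v4209 v2806 v4208 v2989 v2992 v1209 v1210 v422 v4912 w8684 v10861 v10881 w3434 w3435 w3436 w3437 w3438 w3439 v10901 v10896 v10902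
theorem v10905 : PV l10905 := r10905 v10393 v10394 v2615 v3119 v498 v10396 v8603 v5925 v4129 v2808 w5514 v10818 v3336 v2658 v2657 v3933 v7703 v8721 w4906 v4969 v3115 v480 v2988 v1209 v1210 v8260 v5238 v10508 v2424 v3509 v8235 v4130 v4209 w5511 w5512 w5017 v2713 v4968 v499 w4909 v5035 v3000 v4841 v4838 v481 v7707 v3473 w3464 v2668 v4208 v2992 v10406 v422 v3927 v3442 v3423 v2708 v2596 v4082 v9876 v6253 v4664 w5812 v10885 v10903 v10904 v10866 w3434 w3435 w3436 w3437 w3438 w3439 w3524 v10901 v4123 v4201 v10902 w5719 w5590 w5589 v10543 v4280 w695 v10764 v3107 v5873 w7828 v3930 w7877 v8005 v4475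
theorem v10906 : PV l10906 := r10906 v10393 v10634 v499 v498 v8721 w4909 w4893 w4906 v10396 v10406 v7703 v1210 v3442 v3423 v328 w5017 w5512 w5514 v4189 v4593 v4767 v4779 v10819 v10905 w2924 v2539 w6801
theorem v10907 : PV l10907 := r10907 v4084 v8367 w9057 v2544
theorem v10908 : PV l10908 := r10908 v2713 v4183 v2604 v10907 v2571 v2568 w9147 v2707 v7469
theorem v10909 : PV l10909 := r10909 v5035 v7703 v3000 v4838 v328 v4779 v9208 v10164 v2596 v6294 w2924
theorem v10910 : PV l10910 := r10910 v7703 v3000 v10173 v10165 v6294 v2571 v3003 w3242 v2596 w9132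
theorem v10911 : PV l10911 := r10911 v7703 v3008 v5035 v4084 v6706
theorem v10912 : PV l10912 := r10912 w3582 v2596 w9132
theorem v10913 : PV l10913 := r10913 v10393 v10634 v2713 v498 v8721 v10396 v5925 v8603 v10406 v7703 v1210 v328 v10906 v10908 v2615 v10910 v10911 v2571 v10912 w2924 v2588 v6294
theorem v10914 : PV l10914 := r10914 v2713 v7703 v328 v2604 v8108 v8380 v6208 v4084 v4604 w8969 w3582
theorem v10915 : PV l10915 := r10915 v10393 v498 v10396 v8603 v7703 v1209 v10634 v10913 w4574 w5824 v10914 v2615 v5519 v10167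
theorem v10916 : PV l10916 := r10916 v5872 v3930 v2424 v7703 w3414 v2831 v10498 v3583 v5102 v10821 v3236 v3239 v10499 v3325 v2366 v2975 v2796 v453 v1431 v7334 w5218 v4275 v4496 v5088 v5097 w4585 w3387 v2441 w8143 w8061
theorem v10917 : PV l10917 := r10917 v10393 v7703 v1209 w3427 v10492 w5290 w5288 w5287 w5286 w5285 v2829 v2827 v2981 v2980 v4209 v2657 v2834 v8185 v2992 v4896 v2602 v4082 v10508 v3933 v4208 v4201 v10486 v10452 v10477 v2550 v4583 v10829 v10522 v3930 v2450 v2452 v2448 v5872 v3595 v3611 v1091 w4750 v10663 w2283 w694 w714 v7352 w7929 v10643 v10916 w7729 v1674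
theorem v10918 : PV l10918 := r10918 v3926 v5102 v3236 v3239 v10499 v2366 v2975 v2796 v453 v1431 v7334 w5218 v4496 v5088 v5097 w4585 w3387 v2441 w8143 w8061
theorem v10919 : PV l10919 := r10919 v2432 v7703 v2982 v2980 v2424 v3933 v2550 v1446 v2492 w8021 w7929 v10489 v10918 v3323 v3325 v8317
theorem v10920 : PV l10920 := r10920 v10393 v10394 v10395 v4209 v2657 v2834 v8185 v7703 v2992 v4896 v2602 v10508 v1209 v1210 v2980 v2828 v2827 w3427 v10492 w5285 w5286 v10917 v2484 v2473 v2474 v2475 v2476 v2477 v10919 v3234 v2382 v2378 v2457 v10021 v3600 v2493 w4750 v2647 v2648 w8112 v676 w7767 w7942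
theorem v10921 : PV l10921 := r10921 v10394 v10393 v2602 v4082 v2711 v2555 v2708 w8579 v3336 v4130 v3115 v8893 w9106 w5345 v5238 v10508 v2430 v2424 v8603 v480 v3509 v4663 v2834 v8235 v4209 v481 v7707 v3473 v5925 v2668 v7703 v2992 v1209 v1210 v422 v10920 v10841 v10820 v3325 v2643 v10821 v10548 v2500 v10550 v2796 v2826 v1128 w7578 w8811
theorem v10922 : PV l10922 := r10922 v3926 v5102 v3239 v3236 v2975 v2796 v2517 v2366 v1431 v455 w5218 v7334 v5097 v4275 v4496 v5088 v2441 w4585 w3387 w8143 w8061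
theorem v10923 : PV l10923 := r10923 v3926 v5102 v3236 v3239 v10922 v2520 v2371 v447 v5082 v2412
theorem v10924 : PV l10924 := r10924 v3323 v3325 v8317
theorem v10925 : PV l10925 := r10925 v10393 v7703 v1209 w3427 v10492 w5290 w5289 w5288 w5287 w5286 w5285 v2829 v2827 v2981 v2980 v4209 v2657 v2834 v8185 v2992 v4896 v2602 v4082 v10508 v2424 v3933 v4208 v4201 v10486 v10452 v10477 v2550 v4583 v10829 v2450 v2452 v2448 w7694 v3595 v1091 w4750 v10663 w2283 w694 w714 v7352 v8320 v10643 v10924 v10923 v3565 v2831 w7729 v1674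
theorem v10926 : PV l10926 := r10926 v5042 v7703 v2982 v2980 v2424 v3933 v2550 v2492 v1446 v8320 v10489 v10923 v10924
theorem v10927 : PV l10927 := r10927 v10393 v4209 v2657 v2834 v8185 v7703 v2992 v4896 v2602 v10508 v1209 v1210 v2827 w3427 v10492 w5285 v10925 v2484 v2473 v2475 v2477 v10926 v2457 v2487
theorem v10928 : PV l10928 := r10928 v10394 v10393 v2602 v4082 v2711 v2555 v2708 w8579 v3336 v4130 v3115 v8893 w9106 w5345 v8603 v480 v3509 v4663 v2834 v8235 v4209 v5238 v2658 v2657 v481 v7707 v3473 w3464 v5925 v2668 v4208 v7703 v2992 v1209 v1210 v422 v8185 w8678 v10921 v10927 w3434 w3435 w3436 w3438 v10824 v10841 v2473 v2474 v2475 v2477 v10543 v10592 w5285 w5286 w5632 v10408 v2494 v2450 v2451 v2452 v673 w2287 w2283 w8230 v8399 v676 w7899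
theorem v10929 : PV l10929 := r10929 w8147 w8065
theorem v10930 : PV l10930 := r10930 w7729 v1674
theorem v10931 : PV l10931 := r10931 v2829 v2827 v2981 v2980 v3933 v2550 v4583 v3930 v3931 v2452 v2448 w7694 v3611 v3595 w4750 v10663 w694 w714 v8320 v10929 v10643 v10930 v10493 v2831 v10517 v3583 v3926 v10922 v5102 v2520 v3239 v451 v447 v5082 v4579
theorem v10932 : PV l10932 := r10932 v2827 v2828 v2981 v4082 v10508 v4209 v4208 v4201 v10931 v10452 v2467 v10566 v2606 v4081 v9817 w8021 v10464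
theorem v10933 : PV l10933 := r10933 v5042 v2980 v3933 v2550 v2492 v1446 v8320 v2452 v2448 w4750 v10929 v10643 v10930 v10493 v10517 v3926 v10922 v5102 v2520 v3239 v451 v447 v5082 v4579
theorem v10934 : PV l10934 := r10934 v3930 v10047
theorem v10935 : PV l10935 := r10935 v10394 v10395 v2602 v10508 v1209 v1210 v2980 v2981 v2983 v2828 v2829 w3427 v10492 w5285 w5286 w5287 w5288 w5290 v10932 v5042 v2484 v2474 v2475 v2476 v2477 v10933 v3234 v2382 v2378 v10021 w4750 v10934 v2493 v10018 v4953 v2647 v2648 w8112 v676 w7767 w7942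
theorem v10936 : PV l10936 := r10936 v10393 v2658 v2657 v3933 v481 v480 v8603 v7707 w3464 v5925 v2668 v4208 w3434 w3435 w3436 w3438 v10824 v10841 v2473 v2474 v2475 v2477 v10543 v10592 w5285 w5286 v10408 v2494 v2450 v2452 v2448 v673 v616 v1104 w8229 v8399 v10643 w7899
theorem v10937 : PV l10937 := r10937 v10394 v10393 v422 v7703 v1210 v1209 v2992 v5238 v4209 v480 v8603 v8235 v3509 v2834 v4663 v3336 v4130 v3115 v8893 w9106 w5345 v2708 v2602 v4082 v2711 v2555 w8579 v10936 v10508 v2424 v481 v7707 v3473 v5925 v2668 v3120 v4896 v10928 v10935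
theorem v10938 : PV l10938 := r10938 v3933 v2550 v4583 v7978 v3931 w714 v3595 v10663
theorem v10939 : PV l10939 := r10939 v2981 v2980 v4082 v4208 v1209 v1210 v4201 v10938 v10452 v2467 v10566 v2606 v4081 v9817 w8021 v10464
theorem v10940 : PV l10940 := r10940 v10394 v10393 v2602 v4082 v2711 v2555 v2708 w8579 v3336 v4130 v3115 v8893 w9106 w5345 v8603 v480 v3509 v4663 v2834 v8235 v4209 v5238 v5925 v2668 v481 v7707 v7703 v2992 v1209 v1210 v422 v10936 v2981 v2983 v2828 v2827 v2829 w3427 v10492 w5285 w5286 w5287 w5288 w5290 v10937 v10939 v5042 v2484 v2473 v2474 v2476 v5162 v7978 v3170 v3172 v3174 v2550 v10934 v2646 v2493 w7770 v10018 v4953 v2647 v2648 w8112 v676 w7767 w7942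
theorem v10941 : PV l10941 := r10941 w3427 v7703 v2981 v2602 w5285 v10452 v2550 v10605 v10562 v4081
theorem v10942 : PV l10942 := r10942 w5680 w5714 w5590 w5585 v10571
theorem v10943 : PV l10943 := r10943 v10393 v7703 v2602 v4084 v2604 w3582 w9044 v10508 v2424 v10559 v3119 v4129 v2808 w5514 v10818 v2711 v2555 v2708 w8579 v2435 v2836 v4138 v2980 v2981 v2983 v2828 w3427 v10942 w5285 w5286 w5288 v10941 v5042 v2484 v2474 v2476 v2482 v10562 v2550 v2551 w2338 w2336 w2401 v10021 v10934 w4750 w4922 v2493 v2487 v10018 v10857 v4953 v639 v2647 v2648 w3697 w8112 w7767 v676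
theorem v10944 : PV l10944 := r10944 w691 v4201 v2658 v2657 v3933 w5285 w5286 w5287 v10447 v7987 v2469 w6657 w4750 v10749
theorem v10945 : PV l10945 := r10945 v10393 w3439 w3438 w3437 w3436 w3435 w3434 v481 v480 v8603 v7707 v3473 w3464 v5925 v2668 v4208 v7703 v2992 v1210 v4124 v10748 v4280 w691 w695 w690 v10944 w5680 w5682 w5718 w5590 w5589 v10574 v10573 v10858 v10884
theorem v10946 : PV l10946 := r10946 v10394 v10393 v10395 v2815 w5511 v3119 v8603 v5925 v4129 v2808 w5514 v10818 v3115 v480 v7703 v2988 v1209 v1210 v8260 v3336 v4130 v8893 w9106 w5812 v2602 v4084 v2604 w3582 w9044 v10940 v4082 v2711 v2555 v2708 w8579 v5238 v10508 v2430 v2424 v3509 v4663 v8235 v4209 v2658 v2657 v3933 v481 v7707 v3473 w3556 w3464 v2668 v4208 v2660 v3927 v2659 v2989 v2992 v4183 v3117 v4896 v4912 v10557 w8525 w4790 v10943 w3434 w3436 w3438 w3525 v10945 v2484 v2473 v2475 v2477 v10156 v10592 w5285 v8343 v2494 v7291 v2450 v2452 v2448 w4750 v673 v616 v10643 v1104 w8229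
theorem v10947 : PV l10947 := r10947 w5285 w3427 v7703 v2981 v2602 v2550 v10605 v10562 v4081
theorem v10948 : PV l10948 := r10948 v10394 v10395 w5288 w5287 w5286 w5285 w3427 v2829 v2827 v2602 v10508 v2430 v7703 v4201 v10941 v10947 v3234 v3235 v2381 v2383 v2379 v2467 v10566 v3611 v3595 v1091 v2606 v4280 v4281 v4081 v4812 v2651 v2653 v28 v9817 v2831 w7766 w8111 v10643
theorem v10949 : PV l10949 := r10949 v10394 v10393 v2602 v4082 v3119 v4129 v2808 w5514 v10818 v2711 v2555 v2708 w8579 v4084 v2604 v7703 v1209 v1210 v2981 v2983 v2828 v2827 w3427 v10942 w5285 w5286 w5288 v10948 v5042 v2484 v2473 v2474 v2476 v5162 v7978 v3170 v3172 v3174 v2550 v10934 v2646 v2493 w7770 v10018 v4953 v2647 v2648 v4812 w8112 v2830 v676 w7767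
theorem v10950 : PV l10950 := r10950 v10393 v4201 w3439 w3438 w3437 w3436 w3435 w3434 v3933 w5285 w5286 w5287 w5290 v10854 v8341 v7840 v5041 v4203 v4204 v4205 v10944 v10447 v4888 v7987 v8171 w2712
theorem v10951 : PV l10951 := r10951 w3438 w3437 w3436 w3435 v2658 v2657 v4208 v7703 v2992 v1209 v1210 v4124 v10950 w5680 w5682 w5718 w5590 w5589 v10543 v4280 w691 w695 v10574 v10573 v10858 v10884
theorem v10952 : PV l10952 := r10952 v10393 v3119 v8603 v5925 v4129 v2808 w5514 v10818 v2711 v2604 v2555 v3336 v3115 v480 v7703 v2988 v1209 v1210 v8260 v4130 v8893 w9106 w5812 v3509 v8235 v4209 v5238 v2658 v2657 v3933 w5511 v2815 v481 v7707 v3473 w3464 v2668 v4208 v2660 v4138 v2602 v2708 w3582 v4084 v4082 w8579 w9044 v10940 v10946 v10949 w3434 w3436 w3438 w3525 v10951 v2473 v2475 v2477 v10543 v10592 w5285 v8343 v2494 v2450 v2452 v2448 v673 v616 v1104 w8229 v8399 v10643 w7899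
theorem v10953 : PV l10953 := r10953 v7703 v328 v10952 w2924 v4602 w6689
theorem v10954 : PV l10954 := r10954 v10394 v10395 v3234 v2381 v2382 v2378 v10452 v10566 v3611 v1091 v4283 v4284 v2647 v2648 v28 w8112 v676 w7767 w7942
theorem v10955 : PV l10955 := r10955 v7703 v2981 v2980 w3749 v4209 v3933 v4208 v499 v4125 v4201 v10590 w5271 w5284 w5276 w5275 w5717 v10954 v4583 v8348 v3931 v2450 v2452 v2448 w3649 w3712 v3595 v1091 v10663 w7708 v4204 w694 v10930 v8354 v10929 v10643
theorem v10956 : PV l10956 := r10956 v2982 v3933 v3931 v2452 v2448 v10918 v10929 v3325 w8767 v10821 v10476 v10548 v10550 v10549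
theorem v10957 : PV l10957 := r10957 v10394 v2432 v5040 v5042 v2983 v2982 v2981 v2980 v3933 v1446 w4750 v10956 v2492 v10621 v3534 v3536 v3537 v4949 v10929 w4610 v10643 w5615 w8767 v10930 v3173 v10476 w3658 v5161 v4938 v10509 v3568 w4612 v1495 w8108
theorem v10958 : PV l10958 := r10958 v10393 v10394 v10395 v5042 v2981 v2980 v10508 v4896 v10957 v3234 v2382 v2378 v10021 v10018 w4750 v4953 v2647 v2648 w8112 v676 w7767 w7942
theorem v10959 : PV l10959 := r10959 v4928 v4933
theorem v10960 : PV l10960 := r10960 v10394 v10393 v3171 v3173 v3174 v10959 v2651 v2653 v2655 w8111 w7770 v10643 v650 w7766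
theorem v10961 : PV l10961 := r10961 v10393 v498 v8721 w5017 v7703 v328 w2924 w6731 w4906 v4969 v10508 v2424 v4209 v4968 v1210 v422 v2980 v2981 v2984 v2803 v2828 v2827 v2829 v10955 v5042 v5040 v2473 v2474 v2475 v2476 v2477 v2478 v10960 v3234 v5161 v5162 v3604 v1446 v10958 w4428
theorem v10962 : PV l10962 := r10962 v10393 v3933 v5925 v4208 w5243 w5247 w5679 w5262 v10613
theorem v10963 : PV l10963 := r10963 v10393 w3439 w3438 w3437 w3436 w3435 w3434 v8603 v480 v3509 v2834 v8235 v4209 v2658 v2657 v3933 v481 v7707 w3464 v5925 v2668 v4208 v4201 v10824 v10962 v10592 v4280 v4260 w695 v10764 v10762 w4428 w4430 w4433 w5590 v10613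
theorem v10964 : PV l10964 := r10964 v10394 v10393 v498 v8721 w5017 v7703 v328 w2924 w6731 v2581 v2592 v3119 v8603 v5925 v4129 v2808 w5514 v10818 v3336 v4130 v3115 v8893 w9106 w5812 w5511 w5345 w5358 v480 v3509 v4663 v2834 v8235 v4209 v5238 v2658 v2657 v3933 w5512 w4906 v4968 v481 v7707 v3473 w3464 v2668 v4208 v2992 v1209 v1210 v422 v10961 w3434 w3435 w3436 w3438 w3651 v10963 v2473 v2474 v2475 v2477 v10592 w5243 w5246 v10468 v2494 v2450 v2452 v2448 v673 v616 v1104 w8229 v8399 v10643 w7899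
theorem v10965 : PV l10965 := r10965 v2567 v2981 v464 v465 v462 v10954 v2550 v4583 v10605 v3931 v2613 v3595 v3562 w3650 v8348 w7878
theorem v10966 : PV l10966 := r10966 v7703 v2982 v2581 v2592 v2615 v2557 v4201 v10965 w4443 w5285 w5271 v10631
theorem v10967 : PV l10967 := r10967 v2592 v7703 v2981 v2984 v2803 v2828 v2827 v2829 v10966 v5042 v5040 v2473 v2475 v2477 v5162 v10960
theorem v10968 : PV l10968 := r10968 v4201 v2567 v2658 v2657 v3933 v465 v463 v10613 w5719 v10615 v10764 v10447
theorem v10969 : PV l10969 := r10969 v10393 v2658 v2657 v3933 w5511 v481 v480 v8603 v7707 v3473 v5925 v4208 v7703 v1209 v1210 v4123 v4124 v2567 v4201 v10962 v10592 v4280 w691 w695 v10968 w4441 w5285 w5249 w5272 w5273 v10615 v10764 v10574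
theorem v10970 : PV l10970 := r10970 v10394 v10393 v3119 v498 v10396 v8603 v5925 v4129 v2808 w5514 v10818 v3336 v10915 v3115 v480 v7703 v2988 v1209 v1210 v8721 w4906 v4969 w5512 v4593 v8260 v4130 v8893 w9106 w5812 w5511 w5345 v4767 v5238 v10508 v2430 v2424 v3509 v4663 v8235 v4209 v2658 v2657 v3933 v4779 v4189 w5017 v4968 v499 w4909 v5035 v3000 v4841 v4838 v481 v7707 v3473 w3464 v2668 v4208 v2660 v2992 v10406 v3927 v3442 v3423 v328 v2557 v10953 v2615 v8217 w2924 w6731 v2592 v2581 v2431 v10964 v10609 v10967 w3434 w3435 w3436 w3437 w3438 w3439 w3651 w3524 w3525 v10969 v2473 v2475 v2477 v10592 w5243 v8343 v2494 v2450 v2452 v2448 v673 v616 v1104 w8229 v8399 v10643 w7899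
theorem v10971 : PV l10971 := r10971 w694 v10929 v10476 w8767
theorem v10972 : PV l10972 := r10972 v3303 v7053 w3959 w3906 v5863 v6060
theorem v10973 : PV l10973 := r10973 v5827 w5929 v706
theorem v10974 : PV l10974 := r10974 v4618 v4088
theorem v10975 : PV l10975 := r10975 v10821 v1128 v10548 v2796 v10550
theorem v10976 : PV l10976 := r10976 v10975 v3325 v3327 v10922 v5102 v10499
theorem v10977 : PV l10977 := r10977 v10731 v10766
theorem v10978 : PV l10978 := r10978 v10454 v1246 v1210 v328 v10977 v8799 w2460 v6290 w3906 w3901 v6059 v4070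
theorem v10979 : PV l10979 := r10979 v10393 w694 w5512 v2803 v4125 v10590 w5275 w5514 w5280 w5511 w5271 v4896 v2829 v7703 v2982 v2980 v328 v4610 w2924 w6768 v2711 v10508 v2424 v3933 v10974 v4583 v3930 v3931 v2452 v2448 w7694 v3611 v10929 v10971 w4750 v10643 v10930 v10493 v2831 v3583 v10976 v10978 v4233 v10801 v10803 v10811
theorem v10980 : PV l10980 := r10980 v10393 w5512 v2803 v4125 v10590 w5275 w5514 w5280 w5511 w5271 v4201 v2827 v2828 v7703 v2984 v328 v4610 w2924 w6768 v3336 v4130 v3115 v8893 w9106 w5812 w5345 v4209 v4204 v10979 v3234 v3235 v10452 v10566 v10954 v3611 v10959 v4287 v4813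
theorem v10981 : PV l10981 := r10981 v2829 v2827 v3933 v4583 v10580 v3930 v2831 v3611 v3583
theorem v10982 : PV l10982 := r10982 v10393 v2803 v7703 v2981 v2980 w5511 w5514 w5512 v8721 w5017 v4208 v4125 v4201 v10590 w5271 w5283 w5280 w5275 v10980 v4280 v2269 v10981 v10452 v10566
theorem v10983 : PV l10983 := r10983 v2980 v1446 w4750 v2432 v5040 v2982 v10957 v10956 v2606 v5118 v10621 v3536 v3537 v10929 v10643 v10930 w3712 w8272 w8187
theorem v10984 : PV l10984 := r10984 v7703 v328 v4610 w2924 w6768 v2711 v4233 v10801 v10803 v10811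
theorem v10985 : PV l10985 := r10985 v10974 v1210 w4743 v3896 v3536 v3537 v10971 v10930 v10978 v10493
theorem v10986 : PV l10986 := r10986 v10393 v2484 v5040 v4896 v7703 v2982 v2980 v328 v4610 w2924 w6768 v10508 v2424 v3933 w5511 v1210 v422 v1446 w4428 w5590 w4750 v10983 v10984 v10985 v10643 v10929 v2446 v3536 v2492 v10621
theorem v10987 : PV l10987 := r10987 v10393 v10395 v2829 v2827 v7703 v2984 v2980 v3336 v4130 v3115 v8893 w9106 w5812 w5511 w5345 v4209 v8721 w5017 v422 v4912 v10982 v5040 v2473 v2475 v2477 v2478 v10986 v3234 v3235 v10021 v10959 v10960 w4430 v4296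
theorem v10988 : PV l10988 := r10988 v8799 v3075 v6290 w3959 v6321
theorem v10989 : PV l10989 := r10989 v1209 v424 v328 v10988 v10731 v3308 v10796 v10789
theorem v10990 : PV l10990 := r10990 v7703 v328 w2924 v2711 v4968 v10809 v10794
theorem v10991 : PV l10991 := r10991 w3891 w3902 v6059 v5863 v6060
theorem v10992 : PV l10992 := r10992 v10973 w3937 v10991 v10972 v3308 v6059 v5861 v3310
theorem v10993 : PV l10993 := r10993 v424 v422 v10972 v7793 w3891
theorem v10994 : PV l10994 := r10994 v10973 w3937 v10993 v3308 v5858 v5861 v3310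
theorem v10995 : PV l10995 := r10995 v1209 v10989 v10994 v10731 v3308 v10796 v10789
theorem v10996 : PV l10996 := r10996 v7703 v328 v4610 w2924 w6768 v2544 v2713 v4968 v10984 v10990
theorem v10997 : PV l10997 := r10997 v10393 w3439 w3438 w3437 w3436 w3435 w3434 v8603 v480 v3509 v2834 v8235 v4209 v481 v7707 w3464 v5925 v4208 v2477 v4260 v10760 v10889
theorem v10998 : PV l10998 := r10998 v10395 v4208 v4204 w694 v10592 v8921 w5243 w5247 w5262 v2379 v736 v8341 w1465 v2473 v2494 v2450 v673 v1104 w8229 v8399 v10643 w7899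
theorem v10999 : PV l10999 := r10999 v3075 v6290 w3906 v4070 v3311
theorem v11000 : PV l11000 := r11000 v10394 v10393 v10395 v3119 v8603 v5925 v4129 v2808 w5514 v10818 v3336 v4130 v3115 v8893 w9106 w5812 w5511 w5345 v480 v3509 v4663 v2834 v8235 v4209 v5238 v2658 v2657 v3933 v8721 w5017 v10974 v7703 v4969 v4968 v481 v7707 v3473 w3464 v2668 v2991 v2989 v2992 v1209 v1210 v422 v328 v4610 w2924 w3749 w6768 v10996 w26 v10995 v4896 v10454 v10987 w3434 w3436 w3438 v10998 v10997 v10977 w853 v10999 w2525 v8799 v9390 v10973 v3256 v3268 w3937 v7053 v6288 w3906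
theorem v11001 : PV l11001 := r11001 v3933 v10452 v4583 v3931 v2452 v2448 v5872 v10971
theorem v11002 : PV l11002 := r11002 v10021 v10934 w8099
theorem v11003 : PV l11003 := r11003 v10508 v10975 v3325 v2983 v2982 v2980 v4208 v4204 w694 w688 v11001 v2474 v2476 v2432 v10958 v11002 v1446 v10918 v2492 v10621 v3536 v3537 v10971
theorem v11004 : PV l11004 := r11004 v2477 v4280 w699 v2269 v10452 v10981
theorem v11005 : PV l11005 := r11005 v3933 v10452 v4583 v3931 v2452 v2448 w7694 v10971
theorem v11006 : PV l11006 := r11006 v3536 v3537 v10971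
theorem v11007 : PV l11007 := r11007 v4204 v1446 v11006 v3931 v10621 v2492
theorem v11008 : PV l11008 := r11008 v2829 v2828 v2983 v2982 v2981 v2980 w5511 v4208 v1209 v1210 w3582 w3427 w9075 w8978 v10492 w5285 w5286 w5288 v11004 v11003 v11005 v11007 v10934 v2487
theorem v11009 : PV l11009 := r11009 v10393 v4204 v2829 v2827 v2803 v7703 v2984 v2980 v2424 v498 v8721 w4906 v4969 v4968 v4125 v4201 v10590 w5280 w5276 w5275 v10829 v3536 v3537 v3595 v10959 v10929 v3235 v4301 w8767 v1510 v2309 v2450 v5872 w7708 v10643 v10930 v10493 v2831 v10976 v3583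
theorem v11010 : PV l11010 := r11010 v10393 v10508 v2432 w694 v4204 v4896 v2984 v2982 v2980 v3933 v1210 v422 v1446 w4428 w4429 w5590 w4750 v10956 v10958 v2646 v2606 v2492 w8113 v10621 v3174 v3534 v3536 v3537 v4932 v10929 w4615 v10643 w5614 v10930 v10493 w3712 w3663 v10975 w7894 v3325 w2300 v10820 w8254 w8272
theorem v11011 : PV l11011 := r11011 v10393 v4208 w688 w694 v4204 v2829 v2827 v2828 v7703 v2984 v2980 v498 v8721 w4906 v4969 v10508 v2424 v4968 v422 v11009 v2473 v2474 v2476 v11010 v3234 v3235 v10021 v10959 v10960 w4430 v4296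
theorem v11012 : PV l11012 := r11012 v10454 v328 v10977 v10999 v8799
theorem v11013 : PV l11013 := r11013 v10393 v2583 v7703 v328 w2924 v2711 v10974 v1210 v11012 v4233 v10801 v4086 v10803 v10640 v7827 v3308
theorem v11014 : PV l11014 := r11014 v2477 v4280 w726 w699 v2269 v10590 w5271 w5280 w5275 v11004 v10981 v10411
theorem v11015 : PV l11015 := r11015 v10393 v4208 v4129 w5512 w5514 w5511 v7703 v2980 v2981 v2803 v11014 v2658 v498 v8721 w5017 w4906 v4969 v4968 v499 w4909 w4893 v10528 v11013 v11011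
theorem v11016 : PV l11016 := r11016 v1510 v3931 v5872 v11006
theorem v11017 : PV l11017 := r11017 v4204 v7703 v2984 v2982 v2980 v4209 v4125 v2567 v4201 v10590 w5271 w5284 w5275 w5717 v11016 v3234 v3235 v2564 v9992 v10954 v10959 v4272 v2606 w3649 w8254
theorem v11018 : PV l11018 := r11018 v1446 v11007 w4428
theorem v11019 : PV l11019 := r11019 w694 v4204 v2473 v11018 v3234 v3235 v10021 v10959 v10960 w4430 v4296
theorem v11020 : PV l11020 := r11020 v1510 v3931 w7694 v11006
theorem v11021 : PV l11021 := r11021 v10393 v3442 v4208 v4129 w5512 w5514 w5511 v7703 v2980 v2981 v2803 v11014 v4204 v2829 v2827 v2828 v2984 v2982 v2568 v2571 v2711 v2713 v3336 v4130 v3115 v8893 w9106 w5812 w5345 v498 v8721 w4906 v4969 v10508 v2424 v4209 v4968 v5035 v3000 v4841 v4838 v1210 v422 v3423 v499 v11008 w3749 w8778 v11015 v11019 v4125 v2567 v11017 v10590 w5284 w5717 v11020 v3234 v3235 v2564 v9992 v10959 v4264 v2606 w3649 w8254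
theorem v11022 : PV l11022 := r11022 v2711 v3933 v4968 v10689 v10695
theorem v11023 : PV l11023 := r11023 v2711 v4968 v1209 v1210 v5034 v4233 v10801 v4086 v10807 v10756 v3282 v1073 v3089 v11022 v10734 v4942 w6034 w4263 w3947 w4035 v8986 v3986 v5713 v3320
theorem v11024 : PV l11024 := r11024 v1209 v4969 v10492 v2982 v2980 v4968 v2567 v10452 v8007 v1510 v2608 v5872 v11023 v10995 w25 v10994 v10731 w905 v10796 v3274 w2616 w8022 w6288
theorem v11025 : PV l11025 := r11025 v5042 v2473 v5162 v3228 v10959 v10960 v4296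
theorem v11026 : PV l11026 := r11026 v7703 v1209 v1210 v2996 v5035 v5034 v4117 v4118 v10801 v4086 v10756 v3089 v7856 w2442 v3759 v7692 v10698 v4942 w4263 v8986 v4055 w3946 w3952 w4036 v3992 v3986 v3282 v3320 v5713
theorem v11027 : PV l11027 := r11027 v10394 v10393 v2571 v2711 v2604 v2713 v3336 v4130 v3115 w5512 v4593 v8893 w9106 w5812 w5511 w5345 v4663 v4209 v3933 w5514 v4779 v4767 v4189 v498 v8721 w5017 v5035 v7703 v3000 v4838 v10974 w4906 v4969 v4968 v499 w4909 v4841 v4129 v4208 v1209 v1210 v3442 v3423 v2980 v2981 v2982 v2984 v2803 v2827 v2829 v11014 v4204 w694 v11021 v6049 w3582 w3427 w9075 w8978 v10492 w5285 w5287 v11025 v2567 v10452 v11024 v8007 v1510 v2608 w7694 v11026 v10977 v10994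
theorem v11028 : PV l11028 := r11028 v10393 v2658 v2657 v3933 v5925 v4208 v8603 v4204 w694 v10998 v10592 w5243 w5247 w5246 w5262 v8341 v2473 v2474 v10408 v2494 v2450 v2452 v2448 v673 v616 v1104 w8229 v8399 v10643 w7899
theorem v11029 : PV l11029 := r11029 w7694 v1705
theorem v11030 : PV l11030 := r11030 v10393 v4209 v3933 v2657 v2658 w3434 w3435 v5925 v2477 v4208 w699 w695 v480 v8603 v8235 v3509 v2834 v10760 v10764 v4260 v4280 w3439 w3438 w3437 w3436 v481 v7707 w3464 v2668 v10997 v10762 v4888 w4428 w4429 w5590 v7987 v10902 w2712 v8171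
theorem v11031 : PV l11031 := r11031 v7987 v11029 w4441
theorem v11032 : PV l11032 := r11032 v10393 v3933 v2657 v2658 w699 w695 v10764 w690 w4428 w4429 w5590 v10750 v10902 v4888 v8171
theorem v11033 : PV l11033 := r11033 v10393 v10394 v8603 v480 v3509 v4663 v2834 v8235 v4209 v2658 v2657 v3933 v10974 v481 v7707 w3464 v5925 v2668 v4208 w3434 w3435 w3436 w3437 w3438 w3439 v11028 v2477 v4280 w699 w695 v10760 v10764 v11030 v11031 w2712 v11032 w6657 v3930 v2469 v4475 w4442
theorem v11034 : PV l11034 := r11034 v10393 v3423 v3442 v422 v7703 v1210 v1209 v2992 v5035 v3000 v498 v8721 v4838 v499 w4909 w4906 v4968 w5017 w5512 v4189 v4593 w5514 v4767 v4779 v3119 v8603 v5925 v4129 v2808 v10818 v3115 v480 v2988 v4969 v8260 v3336 v4130 v8893 w9106 w5358 w5511 w5345 w5812 v11033 v3509 v2834 v8235 v5238 w4893 v4841 v481 v7707 v3473 w3464 v2668 v2991 v2615 v11000 v11027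
theorem v11035 : PV l11035 := r11035 v4084 v2539 w9107 w3582
theorem v11036 : PV l11036 := r11036 v7703 v2603 v11035 w6801 v2596 v3003
theorem v11037 : PV l11037 := r11037 v4610 w6342 w2924
theorem v11038 : PV l11038 := r11038 v10975 v3327 w1429 v5102 v3104 v5173 v8315 v10499 w5516 w5579 v2978 v4478 v4179 w7428 v1436
theorem v11039 : PV l11039 := r11039 v1209 v10994 v10731 v3308 v10796 v4518 v4521
theorem v11040 : PV l11040 := r11040 v7703 v328 w5017 v11037 w5514 v4767 v10508 v2424 v3933 v4779 w5512 v4593 v4189 v5035 v3000 v4841 v4838 v3344 v11038 v11039 v10771 v10772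
theorem v11041 : PV l11041 := r11041 v10395 w26 v10977 w853 v10999 v10973 v3089 w2525 w2442 w3943 w3947 v9390 v706 v3268 v3992 v728 v4703
theorem v11042 : PV l11042 := r11042 v10393 v2713 v3933 v10974 v7703 v1209 v1210 v2993 v5035 v4896 v10454 w4819 v11041 v4115 v10801 v4086 v10771 v3770 v10751 v7855
theorem v11043 : PV l11043 := r11043 v10393 v7703 v328 w5017 v3927 v1210 w5512 v4593 w5514 v4779 v2713 v11036 v2615 v11037 v2571 v3334 w1606 v3933 v4767 v4189 v5035 v3000 v4838 v10974 v4841 v2659 v4183 v1209 v3117 w9075 w8978 w8525 v11040 v11042 v11039 v10801 v4086 v10771 v10751 v7856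
theorem v11044 : PV l11044 := r11044 v3327 w1429 v5102 v3104 v5173 v8315 v10499 v2609 w5516 w5579 v2978 v4478 v4179 w7428 w3641 w7600 w7571
theorem v11045 : PV l11045 := r11045 v10393 v11044 w1419 v10821 v10975 v10548 v2500 v10550 v2826 w7578 w8811
theorem v11046 : PV l11046 := r11046 v10974 v7703 v1210 v5035 v11012 v4117 v10801 v4086 v10816 v8742 v10640 v5068
theorem v11047 : PV l11047 := r11047 v10394 v10393 v498 v8721 w5017 v5035 v7703 v3000 v4838 v10915 v10974 w4906 v4969 v4968 v499 w4909 v4841 v2808 v481 v10396 v480 v8603 v7707 v3473 w3556 v5925 v2668 v4129 v2660 v2991 v2989 v2988 v2992 v10406 v1209 v1210 v3344 v3927 v3442 v3423 v2995 v328 v3119 v3115 w5512 w5514 w5511 v4189 v4593 v4767 v4779 v10818 v8260 v3933 v3334 v3336 v5238 v4130 v8235 v3509 v10508 v8893 v4663 v2424 v2430 w9106 w5345 w5812 v10970 v2713 v11036 v2615 w1606 v11034 v11037 v2571 v2431 v11043 v2707 w3239 v6049 v2583 v4896 v10454 v11045 v11046 v11041 v4117 v4233 v10801 v4086 v10816 v10640 v7827 v3308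
theorem v11048 : PV l11048 := r11048 v7703 v328 v2615 v10914 v2557 v9109 v8384 v5741 v4084 w6382 v8905
theorem v11049 : PV l11049 := r11049 v7971 v8634
theorem v11050 : PV l11050 := r11050 v2557 v10633
theorem v11051 : PV l11051 := r11051 v10393 v5035 v7703 v3000 v498 v8721 v4841 v4838 w4906 v481 v10396 v480 v8603 v7707 v3473 v1209 v1210 v3927 w5017 v11047 v11048 v2603 v11050 v10167 v5519
theorem v11052 : PV l11052 := r11052 v4084 v7976
theorem v11053 : PV l11053 := r11053 w5826 v3442 v2615 v10908 v2557 v11052 v2571 v2602 w9108 v2544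
theorem v11054 : PV l11054 := r11054 v2557 v9221 v2571 v9953 v5552 v2544 v2592 w9090
theorem v11055 : PV l11055 := r11055 v10393 v498 v10396 v5925 v8603 v10406 v7703 v1210 v3927 v328 v8721 w4906 v4968 v10915 v11051 w5826 v11053 v2603 v11054 v2713 v10910 v10911 v2571 v10912 w2924 v2588 v6294
theorem v11056 : PV l11056 := r11056 v10395 v11004 w694 w714 v8322 v9817 w1538 w1536 v10664 v2379 v2314 v8001 v7352 w4736
theorem v11057 : PV l11057 := r11057 v1209 w3427 v10492 v2829 v2983 v2982 v2981 v2980 v2711 v4208 v1210 v11056 v10484 v5040 v2475 v2477 v5118 v11002 w7717 v3931 v2452 v2448 v4949 w4610 w4734 v10539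
theorem v11058 : PV l11058 := r11058 v10393 v10395 v8603 v5925 v2531 v480 v3509 v2834 v8235 v4209 v5238 v7190 v4602 v2708 v4082 v481 v7707 v3473 v2668 v2992 v1209 v1210 v422 v10936 v2828 v2827 v2829 w3427 v10492 w5285 w5286 w5287 w5288 w5290 v11057 v8020 v10939 v2484
theorem v11059 : PV l11059 := r11059 v10492 v2711 v4209 v4204 w694 w714 v10535 v9817 v5118 v11002 w7717 v2608 w1538 w1536 v4949 w4610 w4734 v10539
theorem v11060 : PV l11060 := r11060 v2711 v2834 v4209 v7190 v4602 v4082 v4208 v1209 v1210 v2980 v2981 v2982 v2983 v2828 v2827 v2829 w3427 v10492 w5285 w5286 w5287 w5288 v11056 v11059 v2477 v4280 w699 v2269 v10438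
theorem v11061 : PV l11061 := r11061 v2858 v9048 v3598
theorem v11062 : PV l11062 := r11062 v11061 v3931 v2650 v2653 v4580 v5893 w8179 w8264 w4736 v8921 w8181 v2314
theorem v11063 : PV l11063 := r11063 v2607 w1602 w1537 w1536 v3616 v617 v3109 w2273 w8229 v8399 w5701 w7901
theorem v11064 : PV l11064 := r11064 v4950 v4947
theorem v11065 : PV l11065 := r11065 v2650 v2652 v2653 w8179 w8264 w8266 w8181 w2273
theorem v11066 : PV l11066 := r11066 v11065 v3536 v3537 w8229 v10664 w2269
theorem v11067 : PV l11067 := r11067 v4208 v2658 v2327 v2615 v2711 v2657 v4204 w694 w688 w714 v10543 v10592 w5285 w5286 w5287 v2293 w5632 v11062 v5042 v2474 v2476 v2479 v2480 v10468 v3107 v11063 v9817 w2974 v11066 w5704 w4739 w7849 w7902 v4956 v3331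
theorem v11068 : PV l11068 := r11068 v465 v10416 v2469 v2646 v5893 v10524
theorem v11069 : PV l11069 := r11069 v10395 v10393 v4208 v2658 v2327 v3509 v2834 v7703 v1412 v4967 v4209 v2657 w8770 v2531 v8235 v2615 v7190 v4602 v2708 v4082 v3008 v430 v4971 v4970 v4966 v2992 v4183 v1209 v1210 v11060 w3434 w3435 w3436 w3437 w3438 w3439 w3531 w3532 v11067 v2477 w695 v2269 w690 v11068 w4441 w5252 w5248 w5249 w5243 w5272 v10545
theorem v11070 : PV l11070 := r11070 v7190 v4602 v1209 v1210 v2828 v2827 v2829 w3427 v10492 v8020 w5285 w5286 w5287 w5290 v2484 v10939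
theorem v11071 : PV l11071 := r11071 v2269 w699 w691 v2658 v2657 v465 v10447 v2469 v2646 v5893 v10530 v10526
theorem v11072 : PV l11072 := r11072 v10393 v10394 v10395 v2615 v7190 v4602 v2708 v4082 w5511 w5512 v5035 v4834 w5017 v7703 v3008 v1412 v430 v4971 v4970 v4967 v4966 v481 v480 v8603 v7707 w3564 w3563 v3473 w3464 v5925 v2668 v4129 v4208 v2992 v1209 v1210 v3119 v3118 v5238 v4209 v4132 v8235 v3509 w8801 v2834 w4935 w4939 w8506 w9086 w8504 w5349 w5344 w5371 w5811 w5761 v2260 w5768 v3532 v2531 w5753 w5807 v4563 v2657 v2658 w8770 v2327 v11058 w6700 v11069 v11070 w3434 w3435 w3436 w3437 w3438 w3439 w3531 w3532 v11067 v2477 w695 v2269 w690 v11071 w4441 w5252 w5248 w5249 w5243 w5272 v10545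
theorem v11073 : PV l11073 := r11073 v10393 v3118 v3117 v4181 v8259 w8817 w5810 w8526 w8525
theorem v11074 : PV l11074 := r11074 v4204 w694 w714 v9432 w5285 v9817 v2606 v2608 w1538 w1536 v2467 w7694 v4949 w4734 w4610 v10539
theorem v11075 : PV l11075 := r11075 v2450 v2452 w8129 w8040 w2283
theorem v11076 : PV l11076 := r11076 v464 v10452 v10566
theorem v11077 : PV l11077 := r11077 v5667 w7694 w4750 w4736 v11075
theorem v11078 : PV l11078 := r11078 v2982 v2981 v2980 v2711 v3008 v430 v4971 v4967 v4208 v4201 v11074 v4280 v2269 v11077 v11076 w4442 v4470 v3233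
theorem v11079 : PV l11079 := r11079 v2829 v2827 v2981 v2980 v4082 v2711 v3008 v430 v4971 v4967 v4966 v1209 v1210 v11078 v5042 v2484 v2473 v2474 v2475 v2476 v2477 v9432 v9817 w5286 v2606 v2607 w1538 w1536 v10538 w7717 v4957 w4734 w4606 v10539
theorem v11080 : PV l11080 := r11080 v9983 v9432
theorem v11081 : PV l11081 := r11081 v2981 v2980 v4201 v11077 v11076 w4442 v4470 v3233
theorem v11082 : PV l11082 := r11082 v7190 v4602 v4082 v3008 v430 v4971 v4967 v4966 v1209 v1210 v2827 v2829 w3427 v11079 v11080 v4081 w716 v11081 v2484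
theorem v11083 : PV l11083 := r11083 v10393 v10395 v10394 w3439 w3438 w3437 w3436 w3435 w3434 v8603 v5925 v2531 v3532 v481 v480 v7707 w3464 v2668 v4208 v11028 v2477 w727 w695 v2269 w690 v10854 v11071 w5679 w5681 w5683 w5682 w5718 w5590 v10544 v2385 v2382 v2463 w7966 v2393 w1498 w7921
theorem v11084 : PV l11084 := r11084 v2327 v4204 w694 w688 v10543 v10592 w5285 w5287 v2293 v11062
theorem v11085 : PV l11085 := r11085 v10394 v4208 v2658 v2327 v2657 v7703 v3008 v1412 v430 v4971 v4970 v4967 v1209 v1210 v4124 v11084 v4280 w695 v2269 w690 v11071 w4441 w5249 w5243 w5272 v10754 v2385 v2382 v2463 w7966 v2393 w1498 w7921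
theorem v11086 : PV l11086 := r11086 v10395 v10394 v10393 v2615 v7190 v4602 v2708 v4082 v5925 v8603 w5511 v3118 v4132 v481 v480 v7707 w3564 v3119 v4129 w3563 v8235 w8801 w8506 w8504 w5349 v3532 v2711 w5768 v4208 w3464 v2658 v2327 w5761 v3509 v2834 v7703 v1412 v4967 v4209 v2657 w8770 v2260 v4563 w5344 v2531 w5811 w5512 w5371 w9086 w4939 w4935 v5035 v4834 w4977 v5238 w5017 v3008 v430 v4971 v4970 v2668 v4127 v2992 v1209 v1210 v11072 v11082 w3434 w3435 w3436 w3437 w3438 w3439 w3532 v11083 v11085 v2484 v2474 v2475 v2476 v2477 v2480 v10543 v10592 w5285 w5286 w5632 v10468 v11063 v2550 v9817 w7792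
theorem v11087 : PV l11087 := r11087 v3325 v3327 v5102 v3239 v5173 v8315 v8923 w5518 v4495
theorem v11088 : PV l11088 := r11088 v3327 v11087 v5102 v7334 v2549 v5173 v8315 v3632 v2609 w3384 w7660
theorem v11089 : PV l11089 := r11089 v3927 v2362 v2414 v1128 v648 w7459 v2352 v2372 w5222 w5218 v2439 v2413
theorem v11090 : PV l11090 := r11090 v3008 v430 v4971 v4967 v3327 w1429 v11087 v5102 v2409 v2408 v7334 v3104 v11088 w5226 w7428 v1436
theorem v11091 : PV l11091 := r11091 v5102 v5139 v3236 v5089 v2394 v3631 w5203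
theorem v11092 : PV l11092 := r11092 v5122 v5089 v2394 w5205
theorem v11093 : PV l11093 := r11093 v5117 v11092
theorem v11094 : PV l11094 := r11094 v1412 v4967 v5102 v3103 v8315 v653 w5583 w7459
theorem v11095 : PV l11095 := r11095 v3008 v430 v4970 v4967 v11093 v3236 v10550 v2976 v3922 v3237
theorem v11096 : PV l11096 := r11096 w5288 w5286 w5285 v3008 v1412 v430 v4971 v10508 v7190 v4602 w3427 v2981 v2980 w5511 w5512 v4970 v4967 v4966 v1209 v1210 v3344 v3927 v4201 v10877 v2550 v5667 v10605 v2450 v2452 v4281 v4081 v1091 v8020 v8320 w2283 v7352 w5652 w8844 v11090 v2362 v2414 v11089 v11094 v3328 v11095 v2408 v6399 v2351 v2373 v760 w5219 w5217 v2439 v2413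
theorem v11097 : PV l11097 := r11097 v3442 v2615 v7190 v4602 w3427 v7703 v2983 v2980 v4082 v4084 v2711 w5512 v4593 v4189 v5035 v4834 w5017 v3008 v1412 v430 v4971 v4967 v4966 v10406 v1209 v1210 v3423 v10508 v10942 v2424 w5285 w5288 v11096 v2484 v2475 v2477 v5118 v11002 v8020 v2452 v2448 w7717 v10664 w4736 v2314 w8065
theorem v11098 : PV l11098 := r11098 v3239 v5173 v8315 v8923 w5518 v4495
theorem v11099 : PV l11099 := r11099 v5077 v5105 v5141 v3622
theorem v11100 : PV l11100 := r11100 v3325 v3327 v11099 v3239 v2549 v5173 v8315 v11098 v2609 v7334 v10553 v455 w5132 v5150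
theorem v11101 : PV l11101 := r11101 v4967 v11095 v11099 v3236 v5122 v5089 v2394 v3631 w5203
theorem v11102 : PV l11102 := r11102 v1412 v4967 v11099 v3103 v8315 v653 w5583 w7459
theorem v11103 : PV l11103 := r11103 v3236 v5117 v4310 v4307
theorem v11104 : PV l11104 := r11104 v1242 w5511 w5512 v5035 v4834 w5017 v7703 v3008 v1412 v430 v4970 v4967 v3927 v2424 v11100 v2362 v2414 v11089 v11101 v4498 v2408 v11102 v3328 v11103 v2501 v1435 w8889 v1322
theorem v11105 : PV l11105 := r11105 v4588 v5144 v6442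
theorem v11106 : PV l11106 := r11106 v4588 v11105 v3926 v5093 v5149 v5080 v5140
theorem v11107 : PV l11107 := r11107 v9432 v9817 v8320 w8150
theorem v11108 : PV l11108 := r11108 v2484 v4081 w717 w715 v10567 w5683 w5589 v28 v2649 v8005 v4470
theorem v11109 : PV l11109 := r11109 v7703 v3008 v1412 v430 v4971 v11106 v3442 v2615 v7190 v4602 v4082 w5512 v4593 v4189 v5035 v4834 w5017 v4970 v4967 v4966 v10406 v1209 v1210 v2981 v2827 v2829 w3427 v11097 v11108 v11080 v11107 v11104
theorem v11110 : PV l11110 := r11110 v3236 v3104 v5117 v5122 v760 w5206 w5219 v5076 v2439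
theorem v11111 : PV l11111 := r11111 v11110 v2501 v1435 w8889 v1322
theorem v11112 : PV l11112 := r11112 v3008 v1412 v430 v4971 v11106 w5511 v4970 v4967 v1209 v1210 v3344 v3927 v11090 v2362 v2414 v11094 v3328 v11111 v2408 v4179 v11095 v11093 v6382 v3236 v4823 v4824
theorem v11113 : PV l11113 := r11113 v3008 v1412 v430 v4971 v11106 w5511 v4970 v4967 v1209 v1210 v3927 v11112 v1242 v11100 v2362 v2414 v11102 v3328 v11111 v2408 v4179 v11095 v11093 v6382 v3236 v4823 v4824
theorem v11114 : PV l11114 := r11114 w3439 w3438 w3437 w3436 w3435 w3434 v4082 v2711 v3008 v1412 v430 v4971 v4970 v4967 v4966 v2992 v1209 v1210 v11080 v10942 v2484 w714 w713 w5285 v11071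
theorem v11115 : PV l11115 := r11115 v8923 w3153 v4495 w7608 w4919
theorem v11116 : PV l11116 := r11116 w5285 w3439 w3438 w3437 w3436 w3435 w3434 v2658 v2327 v2657 v10854 v11084 w690 v11071
theorem v11117 : PV l11117 := r11117 v2615 v7190 v4082 v4208 v2477 v10901 w6700 v11067
theorem v11118 : PV l11118 := r11118 w3439 w3438 w3437 w3436 w3435 w3434 v2615 v7190 v4082 v4084 v4208 v2658 v2327 v2657 v5035 v4834 w5017 v7703 v3008 v1412 v430 v4971 v4970 v4967 v4966 v2992 v1209 v1210 v11114 v11117 v4124 v10884 v11116 w6700 v11084 w5682 w5718 w5590 w5589 w2974 v4280 w695 w690 v10574 v4475 v11071 v5751 v3930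
theorem v11119 : PV l11119 := r11119 w3438 w3437 w3436 v7190 v4082 v2711 v2658 v2657 v4208 w5285 w5286 v11116 v2484 v2475 v2476 v2477 v2480 v8343 v11080 v10592 v2550 w7792 w5632 v11063
theorem v11120 : PV l11120 := r11120 v10393 v2652 w7960 v6206 v3164
theorem v11121 : PV l11121 := r11121 v10395 v10393 v10394 v2615 v498 v10396 v5925 v4129 v3119 v2660 v481 v480 v8603 v7707 v11055 w3563 v7703 v1210 v4183 v10406 v2988 v3927 v2659 v2661 w3556 w3564 w5512 v4593 v11073 v8235 w8801 v3118 v4132 w8506 w8504 w5768 v4208 w3464 w5511 w5349 v3532 v2658 v2327 w5761 v3509 v2834 v3370 v1412 v4967 v4209 v2657 w8770 v2260 v4563 w5807 w5344 v2531 w5811 w9086 v2994 v4773 v4769 v3794 w4939 v5238 v4189 v5035 v4834 w5017 v3008 v430 v4971 v4970 v4966 v5719 v3387 v3473 v2668 v2992 v1209 v3442 v3423 v7190 v4082 v4602 v2708 v11086 v11106 v2424 v11109 w3434 w3435 w3436 w3437 w3438 w3439 w3531 w3532 v11113 v11118 v11119 w5680 w5682 w5585 v10543 v2477 v4260 w691 w695 w690 v11071 v11120 v2447 w1469 v634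 v5751 w7921 v2382
theorem v11122 : PV l11122 := r11122 v10393 v10395 v3161 v2379 v2314 v9533 v5667 v3536 w7694 v7352 w4736
theorem v11123 : PV l11123 := r11123 v10664 v8921 v638 w7766
theorem v11124 : PV l11124 := r11124 v10394 v10395 w694 v11123 v3171 v2379 v2313 v11122 v4819 v1446 v2474 v3574 w4735 w8066
theorem v11125 : PV l11125 := r11125 v2828 v2981 v2980 v1209 v1210 w5285 w5286 w5288 v11124 v2477 v4280 w699 v2269 v11076 v10981
theorem v11126 : PV l11126 := r11126 v10394 w694 w714 v11123 v11124 v8390 v3171 v11122 v2607 v3604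
theorem v11127 : PV l11127 := r11127 v1209 v1210 v2980 v2828 v2827 v11125 w5683 v10492 v11126 w699 v28 v1091 w7708
theorem v11128 : PV l11128 := r11128 v4208 v2658 v2327 v2657 v4204 w694 w688 v11123 v10592 w2319 v2314 w2278 v2293 w5632 v11062 v2473 v2476 v2479 v11066 w5652 w5704 w7847 w7849 w7902 w1475 w7897
theorem v11129 : PV l11129 := r11129 v4208 v2658 v2327 w5285 w5287 v11128 v2477 v2269 w690 v11068
theorem v11130 : PV l11130 := r11130 v10395 v10394 v10393 v5925 v4208 v481 v480 v8603 v7707 w3464 v3532 v2658 v2327 v2834 v1412 v4967 v2657 w8770 v2531 v3008 v430 v4971 v4970 v4966 v3473 v2668 v2992 v1209 v1210 v11127 w3434 w3435 w3436 w3437 w3438 w3439 w3531 w3532 v11083 v11129 w5679 w5682 w5718 w5590 v10592 v10523 v2477 w727 w695 v2269 v10753 v10574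
theorem v11131 : PV l11131 := r11131 v622 w8272
theorem v11132 : PV l11132 := r11132 w694 w714 v11131 v2564 w2302 w2301 w7792 v5667 v11122 w1536 w7717 v7352 w4736
theorem v11133 : PV l11133 := r11133 v4208 v2477 v4280 v2269 v11081
theorem v11134 : PV l11134 := r11134 v4082 v2711 v3008 v430 v4971 v4967 v1209 v1210 v2980 v2982 v2827 v2829 v11079 v11133 v4204 w714 v11132 v8390 w5590 w5588 v2606 v2608 v4944 v1446 w7694
theorem v11135 : PV l11135 := r11135 w688 w714 v10592 v11131 v2293 w2300 w8427 v6856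
theorem v11136 : PV l11136 := r11136 v4208 v2327 w5285 v11135 v2477 v2269 w690 v11068
theorem v11137 : PV l11137 := r11137 v10394 v10393 v10395 v5925 v8603 v3532 v2711 v4208 v481 v480 v7707 w3464 v2658 v2327 v2834 v1412 v4967 v2657 w8770 v2531 v3008 v430 v4970 v2668 v2992 v1209 v1210 v4082 v4610 w6436 w3749 w6768 v11130 w8434 v11134 w3434 w3436 w3438 w3439 w3651 v11136 w5679 w5590 v10592 v10523 v2477 v2269 w7959 v10753 v2379
theorem v11138 : PV l11138 := r11138 v10394 v4201 v11122 v10664 v2448 w1473 v2305 v4583 v28 v2383 w5652 w8499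
theorem v11139 : PV l11139 := r11139 w694 v11138 v5118 v11002 v2452 v2448 v1446 v10664 w4736 v2314 w8065
theorem v11140 : PV l11140 := r11140 v2829 v2827 v2983 v2981 v2980 v4208 v1209 v1210 w5285 w5286 w5288 v11125 v11139 v2477 v4280 v11004 v10422
theorem v11141 : PV l11141 := r11141 v1209 v1210 v2980 v11140 w5590 v10492 w3427 v2583 v8001 v7985 v10021
theorem v11142 : PV l11142 := r11142 v4208 v2658 v2327 v2657 v4204 w694 w688 v10592 v2293 w5632 v11062 v2474 v2476 v2479 v10408 v11066 v3107 w5704 w7849 w1516 w1518 w7902 v617 w7897 w2273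
theorem v11143 : PV l11143 := r11143 v10393 v4208 v2658 v2327 v3112 w5285 w5286 w5287 v11129 v11142 v2477 v2269 w690 v11068
theorem v11144 : PV l11144 := r11144 v10395 v10394 v10393 v5925 v4208 v481 v480 v8603 v7707 w3464 v3532 v2658 v2327 v2834 v7703 v1412 v4967 v2657 w8770 v2531 v3119 v4129 w3563 w8801 w9086 w8506 v3008 v430 v4971 v4970 v4966 v3473 v2668 v4127 v2992 v1209 v1210 v11141 w3434 w3435 w3436 w3437 w3438 w3439 w3531 w3532 v11083 v11143 w5679 w5681 w5683 w5682 w5718 w5590 v10592 v2477 w695 v2269 v10545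
theorem v11145 : PV l11145 := r11145 w3663 v10584 v5669 w1454 v2293 w8264
theorem v11146 : PV l11146 := r11146 v10453 v8007 v4284 w1537 w7809 w8146
theorem v11147 : PV l11147 := r11147 v3107 v5667 v21 v2447 w5703 w8146
theorem v11148 : PV l11148 := r11148 v2980 v11146 w9075 v10422 w3742 v4284 v11147 v3234 v3611 v4807
theorem v11149 : PV l11149 := r11149 v11145 v2850 v2287 v11148 w3752 w8778 w2301 w8254 w1538 v732 w8768
theorem v11150 : PV l11150 := r11150 v5667 w7694 v2448 w4734 v732
theorem v11151 : PV l11151 := r11151 v7703 v2980 v4123 v2567 v11122 w2264 w2257 v11149 v8921 v2850 v11150 v3234 v11076 v3611 v4807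
theorem v11152 : PV l11152 := r11152 v7703 v2983 v2981 v2980 w5285 w5286 w5288 v11151 v5042 v5118 v11002 v3930 v2452 v2448 w7717 v4957 w4734 w4606 v10539
theorem v11153 : PV l11153 := r11153 v4204 v4201 v11122 v28 v11150 v2655 v4944
theorem v11154 : PV l11154 := r11154 v2568 v4208 v2658 v2327 v2657 v2834 v4209 v7703 v3008 v430 v4971 v4970 v4967 v4966 v1209 v1210 v2980 v2982 v2827 v2829 v11133 w694 w688 v11152 w5683 w5590 w5588 v11153 v1446 v10021
theorem v11155 : PV l11155 := r11155 v10393 v5925 v4208 v2658 v2327 v2657 v8603 v4204 w694 w688 v10592 w5243 w5247 w5246 v2293 v11062 v2473 v2474 v10468 v2486 v2450 v2452 v673 w2283 v7352 v8399 w4736 v7291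
theorem v11156 : PV l11156 := r11156 v10395 v10394 v10393 v2713 v5925 v8603 v3532 v2711 v4208 v481 v480 v7707 w3464 v2658 v2327 v3509 v2834 v7703 v1412 v4967 v4209 v2657 w8770 v2531 v3119 v4129 w3563 v8235 w8801 w9086 w8506 v5238 v3008 v430 v4971 v4970 v2668 v4127 v2992 v1209 v1210 v3112 v11137 v2571 v11144 v11154 w3434 w3435 w3436 w3438 w3439 w3532 v11083 v11155 v2477 v4280 v2269 w690 v11068 w4441 w5243 v10754 v2463 v2390
theorem v11157 : PV l11157 := r11157 v10393 v10395 v3161 v2379 w2315 v6571 v9533 v5667 w3537 v3543 w7694 w8208 w4924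
theorem v11158 : PV l11158 := r11158 v8445 w7766 w7808
theorem v11159 : PV l11159 := r11159 v11145 v8921
theorem v11160 : PV l11160 := r11160 w2257 v11158 v11159
theorem v11161 : PV l11161 := r11161 v10395 v7703 v2980 v1209 v1210 v4204 w688 v11160 v2379 v5667 v10825 v4125 v11157
theorem v11162 : PV l11162 := r11162 v7703 v3008 v430 v4971 v4966 v4208 v1209 v2980 v2827 v2829 v11161 v2477 v4280 w699 v2269 v11133 v11077 v9992 v11076 v2392
theorem v11163 : PV l11163 := r11163 v10393 v3112 v11128 v11142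
theorem v11164 : PV l11164 := r11164 v10393 v10395 v2858 v5925 v4208 v2658 v2327 v2657 v8603 v4204 w694 w688 v10592 v11160 w5243 w5247 w5246 w5262 v2293 v3161 v2379 v2314 v11062 v11163 v4263 v2486 v3536 w8229 v8399 w4736 v7291
theorem v11165 : PV l11165 := r11165 v10395 v10393 v10394 v5925 v4129 v3119 v2660 v481 v480 v8603 v7707 w3563 v8235 w8801 v3118 v4132 w3564 v2661 w8506 w8504 w5768 v4208 w3464 w5511 w5349 v3532 v2658 v2327 w5761 v3509 v2834 v7703 v1412 v4967 v4209 v2657 w8770 v2260 w5807 w5344 v2531 w5811 w5512 w5371 w9086 w4939 w4935 v5238 v3008 v430 v4971 v4970 v4966 v3473 v2668 v4127 v2992 v1209 v1210 v11156 v11162 w3434 w3435 w3436 w3437 w3438 w3439 w3531 w3532 v11083 v11164 v2477 v4280 w727 w695 v2269 w690 v11071 w4441 w5249 w5243 w5272 v10754 v2385 v2382 v2463 v5680 w7966 w7921 w1498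
theorem v11166 : PV l11166 := r11166 v2713 w5017 v7703 v3008 v430 v4971 v4970 v4967 v4966 w9075 w8978 v10771 v10732
theorem v11167 : PV l11167 := r11167 v3008 v430 v4971 v4970 v4967 v4966 v422 v328 v10804 v10977
theorem v11168 : PV l11168 := r11168 v7703 v328 w5017 v11037 v2711 v3008 v430 v4970 v4967 v1210 v4773 v4769 v3000 v2995 v5035 v11166 w3584 w3239 v2583 v11167 v4117 v10816
theorem v11169 : PV l11169 := r11169 v7703 v3008 v430 v4970 v4967 v5035 v4117 v10816
theorem v11170 : PV l11170 := r11170 w7729 w7808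
theorem v11171 : PV l11171 := r11171 v3008 v430 v4971 v11106 v4967 w1430 v3325 v3327 w1429 v11099 v3104 v3105 v5173 v8315 v11098 w5579 w5580 v2407 v2408 w7428 w7493 w3634
theorem v11172 : PV l11172 := r11172 v3008 v1412 v430 v4971 v11106 w5511 w5512 v4970 v4967 v3927 v2362 v2414 v11089 v11101 v11102 v2408 v3328 v11111
theorem v11173 : PV l11173 := r11173 v3008 v430 v4971 v11106 v4967 v3325 v3327 w1429 v11171 v11099 v3104 v5173 v8315 v11098 w5579 v2408 w7428 v1436
theorem v11174 : PV l11174 := r11174 v2571 v3008 v1412 v430 v4971 v11106 v2713 v2615 w5512 v4593 v4189 w5511 v4970 v4967 v3927 v2362 v2414 v11172 v11102 v2583 v3328 w3582 v11111 w9075 v2408 v4179 v11093 v6382 v3236 v4823 v4824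
theorem v11175 : PV l11175 := r11175 v7703 v3008 v1412 v430 v4971 v11106 v2424 v328 v5035 v4834 w5017 v2615 v11037 w5512 v4593 v4189 v4970 v4967 v3122 v1209 v3344 v3345 v4138 v11174 v3325 v3327 w1429 v11173 v11099 w9131 w8925 v3104 v5173 v8315 v11098 v11167 w5579 v2408 v10771 w7428 w9071
theorem v11176 : PV l11176 := r11176 v10395 v10393 v7703 v1209 v1210 v5719 v4204 v3008 v430 v4971 v3161 v6571 w3537 v3119 w2315 v2379 v2713 v328 w5017 v11037 v5661 w3582 w8978 v2996 v4773 v4769 v3759 v2980 v2981 v2829 v5667 v3930 v2448 v2449 v2456 v10825 v8005 v10665 v4125 v4278 w5665 v8445 v2293 w8208 w3658 w8226 w4927 w5624 w2245 w8225 w7784 w8178 v11168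
theorem v11177 : PV l11177 := r11177 v10395 v10394 v10393 v7703 v328 w5017 v480 v8603 v1210 v4183 v2988 v3927 v2659 v2661 v5925 v481 v7707 w3556 w3564 w5512 v4593 v11073 v8235 v11037 v2571 v4129 v3119 v2660 w3563 w8801 v3118 v4132 w8506 w8504 w5761 v3509 v2834 v1412 v4967 v4209 w5511 w5349 v3532 v2657 w8770 v2260 w5807 w5753 w5344 v2531 w5768 w5811 w5371 w9086 w4977 v5238 v4189 v3008 v430 v4971 v4970 v4966 v5719 v3473 w3464 v2668 v4208 v2991 v2992 v1209 v4204 w688 v11160 v3161 v6571 w3449 v11176 w3434 w3435 w3436 w3437 w3438 w3531 v11028 v11164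
theorem v11178 : PV l11178 := r11178 v10393 w3427 v8326 w5590 v8392 v10570 v9017
theorem v11179 : PV l11179 := r11179 w695 w699 w691 v2711 v3008 v1412 v430 v4970 v4967 v2992 v1209 v1210 v11178 w3434 w3435 w3436 w3437 w3438 w3439 w3532 v11071 w4441 w4447 w5249 w5244 w5272 v11120 v10574 v2447 v5873
theorem v11180 : PV l11180 := r11180 v10393 v2981 v2827 w3427 v8326 w5683 w5589 v28 v2649 v4470 v8005
theorem v11181 : PV l11181 := r11181 v10395 v10393 v10394 v498 v10396 v5925 v4129 v3119 v2660 v481 v480 v8603 v7707 v11055 w3563 v7703 v1210 v4183 v10406 v2988 v3927 v2659 v2661 w3556 w3564 w5512 v4593 v11073 v8235 w8801 v3118 v4132 w8506 w8504 w5768 v4208 w3464 w5511 w5349 v3532 v2658 v2327 v3336 v3334 w5344 v2531 w5792 w5811 w5371 w9086 v2994 v4773 v4769 v3794 w4939 v5035 v3370 v4834 w4977 v3509 v4209 v5238 v4189 w5017 v3008 v1412 v430 v4970 v4967 v5719 v3387 v3473 v2668 v4127 v2991 v2992 v1209 v3442 v3423 v328 v2615 v2711 v11121 v2713 v11165 v11037 v2571 v2568 v11175 v5661 w3582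 w9075 v11177 v2477 v4280 v4260 w727 w691 w699 w695 w690 w756 v11179 v11180 w3434 w3435 w3436 w3437 w3438 w3439 v11071 w4447 w5249 w5244 v11120 v2447 w1469 v634 v5751 w7921 v2382
theorem v11182 : PV l11182 := r11182 v10393 v2555 v2557 v8217 v5660 v7926 v4082
theorem v11183 : PV l11183 := r11183 w694 v2658 v1209 v2980 v2982 v2827 v11140 w5683 w5588 v11153
theorem v11184 : PV l11184 := r11184 v10395 v10393 v5925 v4208 v481 v480 v8603 v7707 w3464 v2658 v2327 v2834 v1412 v4967 v2657 w8770 v2531 v3008 v430 v4971 v4970 v4966 v2668 v2992 v1209 v1210 v422 v11183 w3434 w3435 w3436 w3437 w3438 w3439 w3531 v10824 v10592 v11143 w5679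
theorem v11185 : PV l11185 := r11185 v1210 v2980 v11140 w5590 v1446 v10021
theorem v11186 : PV l11186 := r11186 v10395 v10394 v10393 v5925 v4208 v481 v480 v8603 v7707 w3464 v3532 v2658 v2327 v2834 v1412 v4967 v2657 w8770 v2531 v3008 v430 v4971 v4970 v4966 v2668 v2992 v1209 v1210 v11184 v11185 w3434 w3435 w3436 w3437 w3438 w3439 w3531 v11028 v10592 v11143 w5679
theorem v11187 : PV l11187 := r11187 v1209 v2980 v2827 v2829 v11140 v11077 w5590 v9992 w6719
theorem v11188 : PV l11188 := r11188 v10395 v10394 v10393 v5925 v4208 v481 v480 v8603 v7707 w3464 v3532 v2658 v2327 v2834 v7703 v1412 v4967 v2657 w8770 v2531 v3119 v4129 w3563 w8801 w9086 w8506 v3008 v430 v4971 v4970 v4966 v3473 v2668 v2992 v1209 v1210 v11186 v2477 w699 w695 v2269 w690 v11187 w3434 w3435 w3436 w3437 w3438 w3439 w3532 v11071 w4441 w5252 w5248 w5249 w5243 w5272 v10545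
theorem v11189 : PV l11189 := r11189 v2539 v4080 w3427 v9432 v9817 w8150
theorem v11190 : PV l11190 := r11190 v2588 v2577
theorem v11191 : PV l11191 := r11191 v2980 v11189 v2564 w2301 w2302 v5667 v11122 v2452 w7717 v7352 w4736
theorem v11192 : PV l11192 := r11192 v10394 v10393 v11190 v5925 v4208 v481 v480 v8603 v7707 w3464 v3532 v2658 v2327 v3008 v1412 v430 v4971 v4970 v4967 v2668 v4204 w694 v11191 w3434 w3435 w3436 w3438 w3439 v11155 v11028
theorem v11193 : PV l11193 := r11193 v2827 v2829 v11081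
theorem v11194 : PV l11194 := r11194 v10395 v10394 v10393 v5925 v4208 v481 v480 v8603 v7707 w3464 v3532 v2658 v2327 v2834 v7703 v1412 v4967 v2657 w8770 v2531 v3119 v4129 w3563 w8801 w9086 w8506 w5511 v3008 v430 v4970 v2668 v4127 v2992 v1209 v1210 v11188 v11190 v4082 v2539 v2708 w8684 v11192 v2477 v4280 v2269 v11193 w3434 w3435 w3436 w3437 w3438 w3439 w3532 v11083 v11085
theorem v11195 : PV l11195 := r11195 v10395 v10393 v10394 v5925 v4208 v481 v480 v8603 v7707 w3464 v3532 v2658 v2327 v2834 v7703 v1412 v4967 v2657 w8770 v2531 v2660 v3119 v4129 w3563 w8801 w9086 w4939 w4935 w5511 v3008 v430 v4971 v4970 v4966 v3473 v2668 v4127 v2992 v1209 v1210 v11194 v11162 w3434 w3435 w3436 w3437 w3438 w3439 w3531 w3532 v11083 v11164 v2477 w727 w695 v2269 w690 v11071 w4441 w5252 w5248 w5249 w5243 w5272 v10544 v2385 v2382 v2463 v5680 w7966 w7921 w1498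
theorem v11196 : PV l11196 := r11196 v3008 v1412 v430 v4971 v11106 w5511 v4970 v4967 v3927 v2362 v2414 v11102 v3328 v11111 v2408 v4179 v11095 v11093 v6382 v3236 v4823 v4824
theorem v11197 : PV l11197 := r11197 v3008 v1412 v430 v4971 v4970 v4967 v4966 v1209 v3344 v3345 v11196 v11173 w9131 w8925 v6261 v10883 v2539
theorem v11198 : PV l11198 := r11198 v2539 v10866
theorem v11199 : PV l11199 := r11199 w8226 w7894
theorem v11200 : PV l11200 := r11200 v7982 v10493 v11199 w2300 v8392 v5532
theorem v11201 : PV l11201 := r11201 w5679 v2293 w8132 w8226 w2300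
theorem v11202 : PV l11202 := r11202 v10393 v10395 v4204 w688 v11160 v3161 v2379 v6571 v5667 w3449 v2448 v2449 v2613 v10825 v2567 v11201 v11170 v11200
theorem v11203 : PV l11203 := r11203 v5667 v8005 v3930
theorem v11204 : PV l11204 := r11204 v2834 v4208 v2991 v1209 v1210 v2980 v2981 v11198 v2568 w6801 w3112 w2973 w8661 v11202 v2477 v4280 v11203 v9992 v11076 v2391
theorem v11205 : PV l11205 := r11205 v11028 v11164
theorem v11206 : PV l11206 := r11206 v10395 v10394 v10393 v5925 v4208 v481 v480 v8603 v7707 w3464 v3532 v2658 v2327 v3509 v2834 v1412 v4967 v4209 v2657 w8770 v2531 v8235 v5238 v3008 v430 v4971 v4970 v4966 v3473 v2668 v2992 v1209 v1210 v11204 w3434 w3435 w3436 w3437 w3438 w3439 w3531 w3532 v11205 v2477 v4260 w727 w691 w695 w690 v11071 w4441 w4447 w5249 w5244 w5272 v11120 v10574 v2447 v5873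
theorem v11207 : PV l11207 := r11207 v3008 v430 v4971 v4967 v4966 v1209 v1210 v2980 v2981 w3427 v11080 v2484 v4081 v11203 v11076 v2391 w4442 v3930 v4470
theorem v11208 : PV l11208 := r11208 v10393 v10394 v10395 v5035 v498 v11055 v3370 v4834 w5017 v7703 v3008 v1412 v430 v4971 v4970 v2994 v1210 v4773 v4769 v3794 v4967 v4966 v5719 v3387 v10396 v481 v480 v8603 v7707 w3564 w3563 v3122 w3556 w3464 v5925 v2668 v4127 v4129 v4208 v2661 v2660 v3927 v2659 v2988 v2992 v10406 v4183 v1209 v3442 v3423 v4138 v3119 v3118 w5512 w5511 v4189 v4593 v11073 v5238 v4209 v4132 v8235 v3509 w8801 v2834 w4977 w4939 w8506 w9086 w8504 w5349 w5344 w5371 w5811 w5761 w5792 v2260 w5768 v3532 v2531 w5807 v2657 v2658 v3334 w8770 v2327 v11181 v2603 w1593 v11182 v11195 v11106 v2424 v11197 v11206 v11190 v4082 v2539 v2708 v11207 w3434 w3435 w3436 w3437 w3438 w3439 w3531 v11205 v2477 v4280 v4260 w691 w690 v11116 v11071 w5680 w5585 w5589 v11120 v2447 v3569 v634 v5751 v3912 v3233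
theorem v11209 : PV l11209 := r11209 w3582 v2604 w8969 v4083 v7766
theorem v11210 : PV l11210 := r11210 v7703 v328 v2557 v9109 v10633 v2615
theorem v11211 : PV l11211 := r11211 v2604 v8106 v11209
theorem v11212 : PV l11212 := r11212 v7703 v328 v5035 v11211 w2924 v5518 v2574 w6342
theorem v11213 : PV l11213 := r11213 v10393 v7703 v3008 v498 v11055 v3370 v1412 v430 v4971 v4967 v4966 v433 v1210 v4773 v4769 v5035 v4834 v481 v10396 v480 v8603 v7707 v3473 v1209 v3423 w5017 v11208 v11210 v2713 v11212 v11049 v5519 v4595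
theorem v11214 : PV l11214 := r11214 v2604 v9159
theorem v11215 : PV l11215 := r11215 w6731 w6599
theorem v11216 : PV l11216 := r11216 v2571 w6584 v8126 w6713 v2592 w8801 w9086
theorem v11217 : PV l11217 := r11217 v10393 v2555 v4082 v2617 v7926
theorem v11218 : PV l11218 := r11218 v2660 v7703 v328 v2557 v11214 v2614 v2615 v11217 v2571 v11216 v8126 w2924 v2592 w6629
theorem v11219 : PV l11219 := r11219 v3933 v4208 v1209 v1210 v2980 v2828 v11140 v11185 v10492 v4201 v11126 v11187 v2269
theorem v11220 : PV l11220 := r11220 v4204 v11061 v8341 v3931 v11163 v5751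
theorem v11221 : PV l11221 := r11221 v10393 v10395 v2711 v2658 v2657 v3933 v5925 v4208 v8603 w694 v10592 w714 v8921 w5247 w5246 w5262 w5632 v2379 w2339 v11220 v2476 v2480 v11063 v9017 w8187 v11143
theorem v11222 : PV l11222 := r11222 v10393 v10394 v3119 v5925 v4129 v481 v480 v8603 v7707 w3563 w8801 w9086 w8506 w5445 w3749 v7703 v2992 v4896 v3008 v1412 v430 v4971 v4970 v4967 v4966 w3564 v3473 w3464 v2668 v4208 v1209 v1210 v3118 v4209 v4132 v3509 w8504 v2834 w5371 w5353 w5761 v2260 w5768 v3525 w5807 v4563 v3933 v2657 v2658 v3334 v2711 w8770 v2327 w8662 v11219 w3434 w3435 w3436 w3437 w3438 w3439 w3531 w3532 w3651 v11221 v2477 w699 w695 v2269 w690 v11068 w4441 w5252 w5248 w5249 w5274 v10545 w5247 v10530 w1472 w1473 v9894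
theorem v11223 : PV l11223 := r11223 v10393 v480 v481 v5228 v6184
theorem v11224 : PV l11224 := r11224 v11131 v8390 w7985
theorem v11225 : PV l11225 := r11225 v3933 v11122 v11150
theorem v11226 : PV l11226 := r11226 v10393 v3933 v4082 v4896 v3008 v430 v4971 v1209 v1210 v2980 v2981 v2827 v2829 v11079 v11133 w694 w714 v11224 v2564 v5667 v3930 v2452 v2448 v11225 v5042 v1446 v4957 w4734 w4606 v10539
theorem v11227 : PV l11227 := r11227 w694 w714 v10592 v8921 w8426 v2314 w1465 v7352 v8399 w5733 v10156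
theorem v11228 : PV l11228 := r11228 v1412 w4441 w690 v3933 v5751 v10754 v2448 v2449 v9894
theorem v11229 : PV l11229 := r11229 v10393 v10394 v8603 v480 v481 v7707 v11223 v3509 v2834 v4132 v4209 v2604 v3119 v7703 v1210 v5925 v4129 w3563 v3008 v1412 v430 v4970 v11218 v2713 v4971 v2994 v4773 v4769 v3794 v4967 v5719 w3564 w3464 v2668 v4208 v2661 v2660 v2992 v1209 v328 v3118 v4084 v4082 v9965 v8882 v8367 w9057 w8801 v11037 w8920 w5445 w4935 w4939 w5838 w8506 w9086 v4189 v4593 v11222 w8504 w5371 w5761 w5768 v3525 v3933 v2657 v2658 w8770 v2327 v11226 w3434 w3436 w3438 w3439 v11227 v2477 v4280 v2269 w690 v11068 v11228 v2463 v2390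
theorem v11230 : PV l11230 := r11230 v10393 v2604 v3119 v7703 v1210 v8603 v481 v480 v7707 v5925 v4129 w3563 v3008 v1412 v430 v4970 v11218 v2713 v11229 v2571 w9147 w9066
theorem v11231 : PV l11231 := r11231 v10393 v10395 v2711 v2658 v2657 v5925 v4208 v8603 w694 w714 v11123 v10592 v11224 v2379 w5247 w5246 w5262 w5632 v11220 v2476 v2480 v11063 v9017 w8187 w5285 v11163
theorem v11232 : PV l11232 := r11232 v10393 v10394 v2660 v3119 v5925 v4129 v481 v480 v8603 v7707 w3563 w8801 w9086 w8506 w4939 v5035 v4834 w4977 w5445 v2604 v7703 v3008 v1412 v430 v4970 v4967 v4966 w3564 v3473 w3464 v2668 v4127 v4208 v2661 v2992 v1209 v1210 v3118 v4209 v4132 v3509 w8504 v2834 w5371 w5353 w5761 v2260 w5768 v3525 w5807 v4563 v3933 v2657 v2658 v3334 w8770 v2327 v11162 w3434 w3435 w3436 w3437 w3438 w3439 w3531 w3532 w3651 v11231 v2477 v4280 w727 w695 v2269 w690 v11071 w4441 w5249 w5274 v11228 v10574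
theorem v11233 : PV l11233 := r11233 v10393 v10395 v10394 v480 v481 v5228 v3856 v3524 v3520
theorem v11234 : PV l11234 := r11234 w694 w714 v10592 v8921 w8426 v2314 w1465 w8229 v8399 w5733 v10156
theorem v11235 : PV l11235 := r11235 v10393 v10394 v11230 v2604 v3119 v7703 v1210 v8603 v481 v480 v7707 v5925 v4129 w3563 v3008 v1412 v430 v4970 v11218 v2713 v4971 v2994 v4773 v4769 v3794 v4967 v5035 v4834 v5719 w3564 v3473 w3464 v2668 v4127 v4208 v2661 v2660 v2988 v2992 v1209 v328 v3118 v4084 v4082 v9965 v8882 v8367 w9057 w8801 v11037 w8920 w5445 w4977 w4939 w5838 w8506 w9086 v4189 v4593 v11233 v4209 v4132 v3509 v11232 w8504 v2834 w5371 w5761 w5768 v3525 v3933 v2657 v2658 w8770 v2327 v11162 w3434 w3435 w3436 w3437 w3438 w3439 w3532 v11234 v2477 v4280 w727 w695 v2269 w690 v11071 w5249 w5274 v11228 v2385 v2382 v2463 v5680 w7966 w7921 w1498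
theorem v11236 : PV l11236 := r11236 v10393 v2604 v3119 v7703 v1210 v8603 v481 v480 v7707 v5925 v4129 w3563 v3008 v1412 v430 v4970 v11218 v2713 v11230 v11235 v2571 v2590 w9147 w3582
theorem v11237 : PV l11237 := r11237 v8094 w6585 w2924
theorem v11238 : PV l11238 := r11238 v10393 v3119 v7703 v1210 v8603 v481 v480 v7707 v5925 v4129 w3563 v3008 v1412 v430 v4970 v11218 v2713 v4183 v328 v2604 v11236 v11237 v2571 v2568 w9147 w3584 v7469
theorem v11239 : PV l11239 := r11239 v10393 v498 v10396 v5925 v4129 v481 v480 v8603 v7707 v10406 v7703 v1210 v3442 v3423 v3008 v5035 v3119 v11055 w3563 v3370 v3387 v4773 v5719 v1412 v4834 v430 v4967 v4970 v11213 w5826 v11218 v2713 v11238 v2615 v9208 v2571 v2588 v10912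
theorem v11240 : PV l11240 := r11240 v2556 v8677
theorem v11241 : PV l11241 := r11241 v1244 v4618 v1209 v1210 v7771 v10092 v3308 v10796 v10789
theorem v11242 : PV l11242 := r11242 v5034 v4618 v1210 v10799 v3308 v5068 v4054 v3075 w2463 w3946 w3952 w3907 v2787 v4030 v4020 v3991 v4995
theorem v11243 : PV l11243 := r11243 v10728 v8753 v10068 v3075
theorem v11244 : PV l11244 := r11244 w5405 v7703 w6436 v10984 v11242
theorem v11245 : PV l11245 := r11245 v7703 v4618 v11243 v4233 v1209 v1210 v2604 v2710 v11240 v11244 v4086 v10702 v7856 v11242 v9961 w2691 v3261 v4054 v7171 w4036 w6179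
theorem v11246 : PV l11246 := r11246 v10395 v10394 v10393 v7703 v2994 v5035 v2998 v11239 v3927 v498 v10396 v2659 v3117 v4183 v481 v480 v8603 v7707 w3556 v10406 v3137 v2727 w8525 w5810 w5408 v5925 v2988 v1210 w5511 v2730 v8259 w5406 v3532 v3509 v4662 v4850 v2996 v8235 v3762 v495 v3758 v4768 v8721 w4327 v2749 v3794 v3442 v2992 v2991 v2668 v3473 v2728 w5405 v2531 w4829 v4888 v4855 v4780 v4781 v4846 v1412 v499 w4893 w5017 w4334 w4906 v4968 v3423 v4794 v5238 v4896 v4969 v3801 v11241 v11245 v3769 v10372 v5514 v4618 v11243 v3772 v4118 v5034 v1209 v10756 v10905 v3089 w2557 v5068 v7806 v3303 v3243 v10159 w3946 w4031 w3907 w6249 v3986 v3992 v4031 w3887 w818 v3276 w2424 w6212 w6191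
theorem v11247 : PV l11247 := r11247 v5667 v11029 v3930 w4273 v4476
theorem v11248 : PV l11248 := r11248 v1209 v1210 v2980 v2981 w3427 v11080 v2484 v4081 v11247 v11076 v2391 w4442 v3930 v4470
theorem v11249 : PV l11249 := r11249 v10393 v2858 v4204 v10543 v8921 w5287 w5290 v3161 v11061 v4263
theorem v11250 : PV l11250 := r11250 v3930 v2469 v4475 w4442
theorem v11251 : PV l11251 := r11251 v1412 v2656 w5408 v4208 v4201 v11249 v4280 w695 w690 v10764 v11031 w2712 v11250 v2646 v5751 v5893 v464 v465 v10749 v737 v6923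
theorem v11252 : PV l11252 := r11252 v10394 v10393 v10395 v2708 v1412 w5406 v3532 v2657 w5405 v2531 v2656 v4208 v2992 v1209 v1210 v4082 v11248 v2858 w3434 w3435 w3436 w3438 w3439 v11251 v5040 v2477 v10543 v10592 v8921 w5285 w5290 w4633 w4622 v3161 v2379 v2486 v4263 w8053 v4950 w2713
theorem v11253 : PV l11253 := r11253 v10395 v10394 v10393 v3927 v498 v10396 v2659 v3117 v4183 v481 v480 v8603 v7707 w3556 v11239 v10406 v3137 v2727 w8525 v2728 v495 v3473 w3464 v5925 v2668 v2661 v7703 v2991 v2988 v2992 v1210 v3442 v3423 v2998 v2996 v2994 v5035 v3118 v499 w5810 w5511 w5405 w5406 w5408 v2730 v4794 v2531 v3532 v8259 v5238 v4209 v4132 v8235 v3509 v3762 v2836 v4662 v2844 w4829 v3758 v3769 v4850 v4888 v4896 v4768 w8504 v4855 v4846 v8721 v4780 v4781 w4815 v1412 w4906 w4893 w5017 w4327 w4334 w4297 w4300 v4968 v4969 v4618 v2749 v3794 v3801 v11241 v11245 v10372 v5514 v11246 v11252 v11190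
theorem v11254 : PV l11254 := r11254 v2556 v7190 v11052
theorem v11255 : PV l11255 := r11255 v2604 v7703 v328 v4084 v11237 v8882 w5819 v3762
theorem v11256 : PV l11256 := r11256 v7703 v2996 v2604 v11254 v2713 v11255 v2571 w9147 v2707 v6942
theorem v11257 : PV l11257 := r11257 v6707 v6039 v8214
theorem v11258 : PV l11258 := r11258 v3927 v5035 v2556 v11257 v2571 v8127 v8126 v4778 v2592
theorem v11259 : PV l11259 := r11259 v5035 v4834 v8602 v3370
theorem v11260 : PV l11260 := r11260 v10393 v7703 v2994 v498 v10396 v8603 v11239 v11259 v5035 v2998 v3000 v4838 v4850 v7692 w4334 w4335 v3801 v10406 v3137 v495 v2996 v3758 v4768 v3927 v499 w4909 w4559 v2730 v4855 v2728 v1210 v3442 v11253 v11256 v2615 v11258 v2713 v10173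
theorem v11261 : PV l11261 := r11261 v10393 v10914 v2711 v2555 v8726 v5741 v8902 w6382
theorem v11262 : PV l11262 := r11262 v10394 v10395 v10393 v480 v481 v10406 v4183 v7703 v1210 v3345 v3927 v3423 v4138 v3000 v2998 v2996 v2994 v5035 v3117 v498 v499 v2992 v2988 v10396 v2659 v8603 v5925 v7707 v2668 w3556 v3473 v11239 v3131 v3137 v495 v2727 v2728 w8525 v11259 w4906 v4838 v4841 w4909 v4968 v4850 v7692 v4855 w4834 w4559 v4846 w4334 w4329 w5009 v3758 v3769 v4888 w4497 v4794 w4335 w4306 w8967 v4768 v3532 v3794 v3854 w9164 v5238 v11260 w5730 w4574 w5824 v11261 v11049 v6173 v9771 v2619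
theorem v11263 : PV l11263 := r11263 v10393 v7703 v1209 v480 v11262 v2846 v8671 v5989 v1412 v6133 v2843 v4967
theorem v11264 : PV l11264 := r11264 v2604 v2711 v10402 v8370
theorem v11265 : PV l11265 := r11265 v10395 v10393 v11263 w5407 v5035 v7703 v3000 v498 w5364 v3423 v3345 v4183 w5363 w5362 v10405 v5433 v6818 v3336 v3115 v2988 v5412 v4130 v6253 v3370 v8721 v4841 w4906 v3118 v2661 v4132 v1210 v8376 v2674 w8350 w9087 v8369 w9106 v3117 v3927 v2659 w4492 v2992 v4892 w8374 w9074 w8525 v3442 v328 w5512 v2727 v10400 v2713 v11264 v2614 v2615 v8565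
theorem v11266 : PV l11266 := r11266 v498 v3370 v3442 v7703 v328 v2604 v2711 v11254 v10402 v8036 v2571 v2544 v6942
theorem v11267 : PV l11267 := r11267 v3137 v2727
theorem v11268 : PV l11268 := r11268 v10393 v3370 v5433 v8376 v2674 v2614 v2615 v8565
theorem v11269 : PV l11269 := r11269 v10395 v10393 v7703 v1210 v3345 v3927 v3442 v3423 v3000 v5035 v3118 v3117 v3115 v498 v499 v4183 v10406 v11263 w5363 w5364 w5362 w4492 v10405 v2992 v2988 v5433 v4892 v6818 v8376 v2659 v2661 w8374 v3336 v5412 v2674 w8525 w9074 v8369 v4132 v4130 w8350 w9106 w9087 v6253 v3370 v8721 w4906 v4841 v11267 v10400 v11268 v2604 v9725 w5407 v11265 v11266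
theorem v11270 : PV l11270 := r11270 v10393 v5038 v5037 v480 v8674 v2846 v5989 v4614 v2843
theorem v11271 : PV l11271 := r11271 v10393 v7703 v5035 v5037 v5038 v4100 v11270 w5364 w4492 v5934 v6818 v3336 v6253 v8720 v5225 v2992 v4425
theorem v11272 : PV l11272 := r11272 v10395 v11243 v5034 v1209 v9976 v10756 v3243 v4055 v3089 w2557 w2442 w6249 w3946 w4027 v3992 w6034
theorem v11273 : PV l11273 := r11273 v5667 v3931 w7694 v4468 w4274
theorem v11274 : PV l11274 := r11274 v1209 v1210 v2980 v2981 v2982 w3427 v11080 v2484 v4080 v4081 v11273 v11076 v2391 w4442 v3930 v4470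
theorem v11275 : PV l11275 := r11275 v2469 v11250 w4441 w2712 w7694
theorem v11276 : PV l11276 := r11276 v2657 v2656 v11275 v2646 v5751 v5893 v464 v465 v11071 v10526 v10749 v2327 w5650
theorem v11277 : PV l11277 := r11277 v2657 v2656 v4208 v4201 v11249 v4280 w691 w690 v11276 v5680 v10447 v2463
theorem v11278 : PV l11278 := r11278 v10393 v10395 v2711 v2657 v2531 v2656 v4618 v2793 v7703 v5178 v4208 v2991 v2992 v1209 v1210 v5035 v2555 v7190 v8377 v4082 v4602 v2708 w8629 w8579 v11241 v4118 v11243 w853 v3772 v11272 v11274 v2858 w3434 w3435 w3436 w3437 w3438 w3439 v11277 v5040 v2477 v10543 v10592 v8921 w5285 w5290 w4622 w4655 v3161 v2379 v2486 v4263 v4925 w8053 w2716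
theorem v11279 : PV l11279 := r11279 w2442 v8986
theorem v11280 : PV l11280 := r11280 v7703 v328 v11237 w6436 v4618 v5178 v2991 v2992 v1210 v5034 v11243 v10984 v11244 v10799 v3308 v11279 w2449 v4054 w3946 w3952 v2785 v3991 v4995 v4049
theorem v11281 : PV l11281 := r11281 v4763 v10690 v5849 v6031 w3897
theorem v11282 : PV l11282 := r11282 v2713 v4618 v2793 v7703 v5178 v4129 v1209 v1210 v328 v10907 v11237 v4610 w5810 v11280 v10810 v7771 v11241 v11281 v3308 v10796 v10789
theorem v11283 : PV l11283 := r11283 v5178 v4618 v11243 v5034 v1209 v7945 v11272 v9961 w2449 v4054 v2785 v5022 v4049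
theorem v11284 : PV l11284 := r11284 v4618 v7703 v5178 v2991 v2992 v1209 v1210 v5035 v4118 v4233 v11243 v4086 w853 v3772 v11283 v10702 v7856 v11242 v9961 v4054 w2691 v3261 w4036 v7171 w6179
theorem v11285 : PV l11285 := r11285 v4618 v2793 v5178 v1209 v1210 v10995 v7771 v11241 v11281 v3308 v10796 v10789
theorem v11286 : PV l11286 := r11286 v10395 v7703 v11267 v5035 v3000 v4838 v4841 v11285 v2531 v2996 v2604 v2711 v11278 v2713 v11282 v2571 v2590 v11284 w3582 w5017 w9147
theorem v11287 : PV l11287 := r11287 v10393 v10395 v2708 v4082 v2531 v11243 w853 v2657 v2656 v4208 v2991 v2992 v1209 v1210 v11272 v11274 w3434 w3435 w3436 w3437 w3438 w3439 v11277 v5040 v2477 v10543 v10592 v8921 w5285 w4622 w4655 w8426 v3161 v2379 v2486 w8053 v2651 v4925 w2716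
theorem v11288 : PV l11288 := r11288 v10395 v10393 v10372 v2539 v2708 v4082 v481 v480 v8603 v7707 v3473 v11243 v5034 v2988 v1210 v8249 v3509 v2834 v8235 v5238 v4209 v2657 v5925 v2531 v2656 w3464 v4208 v2668 v10397 v2992 v1209 v422 v3000 v2996 v11287 v11252 v10898 v10756 w3434 w3435 w3436 w3437 w3438 w3439 v3089 w2560 w2557 v5068 v7806 v3303 w1745 v3243 w3946 w4031 w3907 w6250 w6249 v3992 v4031 w827 w3887 v3276 w2424 w6191 w6212 v10901 v10998 v4201 v10902 v4280 w695 w5590 v10764 v5893 v11275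
theorem v11289 : PV l11289 := r11289 v5034 v1209 v3247 v9961 v4055 v3089 w2549 w2442 w3946 w6247 v3992 w4016 w6564
theorem v11290 : PV l11290 := r11290 v5178 v4618 v11243 v5034 v1210 v11272 v11279 w2449 v4054 v2785 v5022 v4049
theorem v11291 : PV l11291 := r11291 v5178 v4618 v11243 v5034 v1209 v1210 v11290 v5068 v10756 w2449 v4054 v2785 v5022 v4049
theorem v11292 : PV l11292 := r11292 v10395 v10393 v8603 v480 v7703 v2988 v1210 v5178 v8249 v8235 v481 v7707 v3473 v5035 v3000 v4838 v4618 v10397 v5925 v2668 v11267 v4841 v5238 v11285 v11243 v2996 v2991 v4118 v2531 w853 v3772 v11291 v3303 v1209 v9961 v4055 w3907 v4031 v5034 v3089 w3946 v3992 v4119 v4209 v2793 v3117 v4183 v3927 v2659 w3556 w8525 w3464 v11286 v2615 v10372 w876 v2713 v10910 w5810 w5017 w4036 v11288 v4086 w6801 v3282 w6179 w2690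
theorem v11293 : PV l11293 := r11293 v10395 v10394 v10393 v7703 v2991 v2988 v480 v481 v3115 v11271 v11269 v3216 v4183 v1209 v1210 v3927 v3442 v3423 v3000 v2998 v2996 v2995 v2994 v2993 v5035 v3117 v498 v499 v2659 v8603 v5925 v10397 v2668 v7707 v11259 v3144 w6726 v11267 w3556 v3473 w4906 v4838 v4841 w4893 w4909 v487 v2729 w4312 w8525 v4968 v4969 v4871 v4850 v5178 v4618 v2749 v2793 w5343 w5348 w5368 w4805 w4790 w4786 w4783 w4802 v4877 w4324 v4867 v3802 v3793 v2531 v3532 v4899 v4906 v4768 v8249 v4781 v4780 v5238 v8235 v11285 v5034 v4115 v4118 v11243 w853 v3770 v3772 v11291 v3247 v9961 v4055 v11289 v3089 w2549 w2442 w3946 w6247 v3992 w4016 v11292 w6034 w5730 w4574 w5824 v11261 v6173 v9771 v5519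
theorem v11294 : PV l11294 := r11294 v10393 v7703 v5035 v4967 v4838 v1412 v8721 v3370
theorem v11295 : PV l11295 := r11295 v10393 v480 v7703 v1209 v498 v3000 v11294 v11293 v6133 v5242 v2843
theorem v11296 : PV l11296 := r11296 v10393 v7703 v1209 v498 v3000 v11294 v480 v11295 v2846 v5989 v6133 v2843
theorem v11297 : PV l11297 := r11297 v10393 v3345 v3423 v498 v7703 v3000 v11294 v2998 v2995 v2994 v3008 v5035 v3115 v11271 v4183 v11269 v3216 v4871 v4850 v4867 v1412 v4834 v430 w4549 w4560 w4562 v5796 v4971 v3793 v4768 v4780 v11296 w5352 w5357 v10405 v5433 v2675 v2674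
theorem v11298 : PV l11298 := r11298 v10393 v498 v432 w4900 v1412 v8721 v3370
theorem v11299 : PV l11299 := r11299 v7703 v2998 v2994 v5035 v4885 v5795 w4528 w4334 v3457 v4850
theorem v11300 : PV l11300 := r11300 v7703 v2995 v5035 w4906 v4968 v11299 v4871 v5592 v5796
theorem v11301 : PV l11301 := r11301 v10393 v5035 v4834 v8721 v3370
theorem v11302 : PV l11302 := r11302 v10393 v480 v8603 v6133 v2843 v2846 v5242
theorem v11303 : PV l11303 := r11303 v10393 v3119 v3118 v3115 v6818 v8376 v3336 v3397 v3394 v4129 v8369 v667 w8481 v644 w8464 w783 w8462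
theorem v11304 : PV l11304 := r11304 v10393 v11303 v5934 v5905
theorem v11305 : PV l11305 := r11305 v10393 v498 v11301 v3115 v11298 v11271 v7703 v1209 v1210 v3000 v11294 v4138 v3423 v11297 v11300 v11302 w5363 w5364 w5365 v11304
theorem v11306 : PV l11306 := r11306 v10393 v10395 v4082 v3119 v5989 v7703 v1209 v11302 v5925 v4129 v2808 v487 v10818 v2711 v4767 v10508 v2424 v480 v10397 v3513 v4209 v4779 v2658 v3933 v490 v481 v7707 v3473 w3464 v4208 v2992 v2668 v5035 v3000 v4841 v1210 v422 v11214 v8377 v4602 w5017 v2708 v10936 v2980 v2981 v2803 w3427 v11070 v11014 v10492 w694 w714 w5285 w5286 w5287 w5288 w5290 v11107 v9817 w1538 v10664 v2379 v10892 v2473 v2474 v2476 v10540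
theorem v11307 : PV l11307 := r11307 v10393 v2604 v7703 v10397 v1209 v11302 v5925 v5989 v2668 v487 v4779 v11167 v4767 v3119 v4129 v2808 v10818 v481 v480 v7707 v3473 v2991 v2992 v328 v11306 v2713 v10907 v11237 w5813 v10984
theorem v11308 : PV l11308 := r11308 v10393 v7190 v2713 v7703 v10397 v1209 v11302 v5925 v5989 v2668 v487 v5035 v2998 v4850 v4779 v11167 v4086 v3119 v4129 v2808 v10818 v2711 v2604 v481 v480 v7707 v3473 v4968 v4767 v10801 v4118 v4117 v3513 v4209 v3933 v490 v4208 v2991 v2992 v4969 v3000 v4841 w5841 w4846 v10803 w3582 w8969 w8978 w9075 v10758 v10697 v2980 v2981 v2803 w3427 v11107 v11014 v10492 v10142 v5532 v8007 w4630 v2564 v2607 v4951 v4476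
theorem v11309 : PV l11309 := r11309 v10393 v7703 v481 v1209 v11302 v480 v7707 v3473 v4968 v487 v5035 v2998 v4850 v4767 v10397 v5925 v5989 v2668 v4779 v11167 v10801 v4232 v4117 v5034 v2994 v3794 w4963 w4944 v3119 v4129 v2808 v10818 v3336 v2992 v4969 v1210 v3000 v11307 v7190 v4086 v11308 w5725 w6732 w6477 v10815 v9961 v4055 v3089 w2569 w3946 w3952 v3992 v3986 v3282 v3320 v6061 w6280
theorem v11310 : PV l11310 := r11310 v2342 v2520 w7479 w5223
theorem v11311 : PV l11311 := r11311 v3239 v3633 v4496 w3516 w4588 w7480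
theorem v11312 : PV l11312 := r11312 v10393 v744 w7959 w3414 v3161 v3554
theorem v11313 : PV l11313 := r11313 v2980 v2982 v7985 w4430 w4433 v10829 v3537 v11312 w4633 v4464 v4468
theorem v11314 : PV l11314 := r11314 v10393 v10397 v5989 w3525 v11083
theorem v11315 : PV l11315 := r11315 v2477 v4260 v11313
theorem v11316 : PV l11316 := r11316 v10393 v10395 w3521 v5989 w3432 v5925 v2405 v4209 v2658 v481 v11302 v480 v7707 v3473 w3464 v4208 v2992 v2668 v10397 v10528 w7491 v11314 v2980 w3388 v11315 v4204 w688 v11123 v3161 v2379 w2308 v1071 w2215 v6571 v5667 v8001 v2651 w1452 w1490 w3449 v10825 v2441 w4432 w4924 w4585 v11199 v4162 v2402 w2245 w8035 w3618 w3596 w3389 w8207 v3565 w5623 v4278 w8125 w7893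
theorem v11317 : PV l11317 := r11317 v10393 v480 v10397 v3513 v4209 v3933 v5989 v2992 v5925 v2668 v10142 v11123 w5247 w5246 w5662 w5243 v8445 w8180 w2307 v10707 w3690 w1486 v4161 w8206
theorem v11318 : PV l11318 := r11318 v5667 v3931 v2448 v5689 v11312 w4655
theorem v11319 : PV l11319 := r11319 v10393 v10508 v1138 v10496 v480 v10397 v3513 v3933 v481 v11302 v7707 v3473 v5925 v2980 v2985 v11317 v2477 v4280 v4260 w645 v7985 w4428 w4433 w4585 v11318 v4581 v2374 v2441 w8124 w8282
theorem v11320 : PV l11320 := r11320 v10393 v3117 v11302 v481 v480 v7707 w3556 v5925 v4164 v2662 v4165 v2661 v3118 v5989 w3464 v4163 v3336 v3115 v8893 v2251 v6253 v3927 v2993 w6795 w4983 w5782 w8799 w8798 w4944 w4846 w5841 v1138 w8917 v10508 v2437 v2434 v2436 w8503 w9088 v10397 v2809 v3513 v4209 v4195 w5345 w4803 w4787 w5798 w4325 v3334 v2658 v2657 v3933 v4191 v4198 v490 v3473 v4208 v2992 v2668 v2660 v3344 v3119 v11089 v10517 w1431 w1430 w1423 v3327 w1429 v11099 v3236 v3102 v3104 v3105 v10496 v11310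 v2975 v2517 v456 v455 v11311 v5108 v2404 v7334 v3636 w3521 v2798 w7627 w7553 w5555 w4917 w9160 v11316 v11319 w3434 w3435 w3436 w3437 w3438 w3439 w3525 v10998 v2477 v4280 w727 w695 w690 v10854 v11276 w5682 w5718 w5590 v10574
theorem v11321 : PV l11321 := r11321 v3325 v1128 v2796 v5098 v2353 v2422
theorem v11322 : PV l11322 := r11322 v11321 v3926 v2364 v2365 v11099 v3102 v3105 v11310 v2975 v2517 v455 v11311 v7334
theorem v11323 : PV l11323 := r11323 v10393 v2829 v7703 v2985 v3933 v498 v4125 v4162 v10590 w5283 w5276 w4663 v10829 v3534 v3536 v3537 v3544 v10664 v3161 w2308 w2269 v4915 v10712 w4654 v11170 v10509 v2831 w3693 w3658 v3565 w8207 v4278 w5623 w8125 w7893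
theorem v11324 : PV l11324 := r11324 v10394 v7703 v2981 v3933 v4204 w694 w688 v11323 v5042 v5162 v3171 v11158 v10664 v5669 v2448 w5243 v2493 v2492
theorem v11325 : PV l11325 := r11325 v10393 v480 v10397 v3513 v4209 v3927 v7703 v2993 w6795 v2994 v4195 v4191 v3794 w4325 v5989 v11302 v5925 v4129 v2808 v487 v10818 v2658 v3933 v4198 v481 v7707 v3473 w3464 v4127 v4208 v2992 v2668 v2660 v499 v10528 v11314 v2980 v2982 v2985 v2803 v11324 v2477 v4280 v4260 w726 v10590 w5284 w5276 v11318 v10829 v4464 v3537 v11312 w4633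
theorem v11326 : PV l11326 := r11326 v5667 v4942 v3931
theorem v11327 : PV l11327 := r11327 v4204 v10142 w4633 v8445 w3414 v11326 v3235 v3894 v9048
theorem v11328 : PV l11328 := r11328 v490 v499 v2980 v2981 v2982 v2985 v2803 v11327 v2477 v4280 v4260 w726 v10590 w5271 w5284 w5276 w5275 v11318 v3234 v3235 v4581 v4300 v4815 v2448 v4471 v11312 w4630
theorem v11329 : PV l11329 := r11329 v10393 v3933 v481 v11302 v480 v7707 v3473 v5989 w3464 v5925 v4208 v2668 v10397 w3434 w3435 w3436 w3437 w3438 w3439 w3525 v11028 v2477 v4280 w727 w695 w690 v10854 v11276 w5682 w5718 w5590 v10574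
theorem v11330 : PV l11330 := r11330 v10393 v498 v7703 v3000 v11294 v11298 v1210 v1209 v3115 v11271 v499 v11301 w4909 w4906 v4968 v11305 v3422 v2660 v5989 v2992 v5925 v4127 v3927 v4195 v4191 v3119 v11302 v4129 v2808 v487 v10818 v2993 w6795 w4312 v5178 v4618 v2793 v4163 v3336 v6253 w5358 w5375 w5345 v5035 v2998 v2994 v3794 v2749 v4850 v4767 v4779 v4165 v2661 v3118 v481 v480 v7707 w3464 v8893 v2251 w4983 w5782 w8799 v10397 v2809 v3513 v4209 v3117 v2662 v4164 w3556 w8798 w8503 w5841 w4944 w4846 v11329 v1138 v2657 w3782 w5756 w8770 v4969 w8917 v10508 v2437 v2434 v2424 w9088 w4803 w4787 w4325 v5796 v3933 v4198 v490 v3473 v2668 v3443 v4841 v422 v11320 v11322 v11325 v11328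
theorem v11331 : PV l11331 := r11331 v5667 v3931 v2448 v4949 w4633 v11170 v10493
theorem v11332 : PV l11332 := r11332 v10395 v3933 v4204 v11331 v3234 v2379 v10664 v3537 v3876 w4648 v5669 w7766
theorem v11333 : PV l11333 := r11333 v1509 w8674 w7959
theorem v11334 : PV l11334 := r11334 v10395 v3933 v11332 v2477 v4280 v4260 v7985 w4433 v11318 v2379 v11333 w4630 v3915 v4471
theorem v11335 : PV l11335 := r11335 v10393 v5667 v2448 v2454 v10825 v10664 v4161 v3161 w2307 v6571 w3535 w8206 w5662 v10930 v10493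
theorem v11336 : PV l11336 := r11336 v10395 v4204 w688 v11335 v2379 v2380 v11158 v11123 v10664 w3663 v10493 w1454 w8264 w5627
theorem v11337 : PV l11337 := r11337 w4760 v1509 w7918 v11312 v3225
theorem v11338 : PV l11338 := r11338 v10395 v3933 v4208 v11334 v11336 v2477 v4280 v4260 v7985 w4433 v11318 v3235 v2379 v11337 w4630 v3915 v4471
theorem v11339 : PV l11339 := r11339 v10395 v3933 v11332 v2477 v4280 v4260 w726 v10590 w5284 v11318 v2379 v11333 w4630 v3915 v4471
theorem v11340 : PV l11340 := r11340 w4760 v1509 v3225 w7959 v3537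
theorem v11341 : PV l11341 := r11341 v10393 v10395 v3117 v2662 v11305 v3115 v11298 v11271 v5925 v4164 v498 v7703 v3000 v11294 v1209 v11302 v481 v480 v7707 w3556 v4165 v2661 v3118 v5989 w3464 v4163 v3119 v4129 v2808 v3927 v1210 v4195 v487 v10818 v3336 v11301 v2993 w6795 w4312 v5178 v8893 v2251 v3422 v6253 v2994 v4191 v3794 w4983 w5782 w8799 w8798 w8503 w9088 w5756 w4963 w4944 v10397 v2809 v3513 v4209 w8917 v5035 v2998 v2749 v4850 v4779 v4767 w5345 w4803 w4787 w5375 w5358 w3782 w4325 v2657 v3933 v4618 v2793 v4198 v3473 v4127 v4208 v2992 v2668 v2660 v3443 w4906 v4969 v4968 v499 w4909 v4841 w5841 w4846 v11329 v2980 v2981 v2982 v2984 v2985 v2803 v11330 v11339 v11336 v2477 v4280 v4260 w726 v10590 w5284 v11318 v3235 v2379 v11340 w4630 v3915 v4471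
theorem v11342 : PV l11342 := r11342 v10395 v10393 v4082 v7415 v7255 v2542
theorem v11343 : PV l11343 := r11343 v2713 v10680 v3261 v5859 v7207 w4229 v5735
theorem v11344 : PV l11344 := r11344 v2980 v2981 v2982 v2984 v2985 v11338
theorem v11345 : PV l11345 := r11345 v10393 v3119 v5989 v498 v7703 v3000 v11294 v11298 v1209 v3115 v11271 v11302 v5925 v4129 v2808 v3927 v11305 v1210 v4195 v487 v10818 v2711 v2604 v481 v480 v7707 v3473 v11301 w4906 v4968 v2993 w6795 w4312 v5178 v5035 v2998 v2994 v4191 v3794 v2749 v4850 v4767 v3117 v2662 v4164 w3556 v4165 v2661 v3118 w3464 v4163 v3336 v8893 v2251 v3422 v6253 w4983 w5782 w8799 w8798 w8503 v10397 v2668 v3443 v499 w4909 v4618 v2793 w8917 v4779 v11167 v10801 v3772 v4118 v4117 w9088 w5756 w4963 v2809 v3513 v4209 w5345 w4803 w4787 w4784 w5795 w5375 w5358 w3782 w4325 v2658 v2657 v3933 v4198 v4208 v2992 v4969 w4893 v4841 v422 v2996 v11309 v11341 w5725 v11342 v7190 v4086 w6732 w6477 v11343 v10413 v11344 w3434 w3435 w3436 w3437 w3438 w3439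 v11028 v2477 v4280 w690 v11276 v11071 v5871 w4441
theorem v11346 : PV l11346 := r11346 w7479 w7415
theorem v11347 : PV l11347 := r11347 v490 v3344 v11089 v10517 w1430 v3327 v11099 v3236 v3239 v3101 v3105 v5173 v3322 v11115 v11346 w5225 w7552 v2399 v2799
theorem v11348 : PV l11348 := r11348 v3933 v7190 v10771
theorem v11349 : PV l11349 := r11349 w3427 v11107 v2484 v4081 w717 w715 v11178
theorem v11350 : PV l11350 := r11350 v2711 v7703 v11167 v2994 v3794 w4944 v4208 v2991 v2992 v2660 v1209 v1210 w5841 w4846 v11348 v4082 v6208 v6039 v2708 v11349 w3434 w3435 w3436 w3438 w3525 v10901 v10884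
theorem v11351 : PV l11351 := r11351 v10393 v3119 v4129 v2808 v487 v10818 v2711 v4767 v10508 v2424 v5035 v2425 v4779 v7703 v3000 v4841 v1210 v328 v11347 v11350 w5725 v8377 v11237 w6732 w6477
theorem v11352 : PV l11352 := r11352 v2981 v2980 v2477 v4280 v11203 v9992 v11076 v2392
theorem v11353 : PV l11353 := r11353 v3933 v4208 v2980 v2982 v2984 v11352 v11332 v11336
theorem v11354 : PV l11354 := r11354 w5841 w4846 w5680 w5682 w5718 w5590 w5585 v10574 v11120 v5751 v2447
theorem v11355 : PV l11355 := r11355 v10393 v3927 v7703 v1210 v4195 v487 v5035 v2998 v2993 w6795 w4312 v2994 v4191 v3794 v2749 v4850 v4767 v5989 v1209 v11302 v481 v480 v7707 w3464 v5925 v4163 v3119 v4129 v2808 v10818 v3336 v3115 v5178 v8893 v2251 v3118 v2661 v4165 v6253 w4983 w5782 w8917 v10508 v2437 v3117 v2662 v4164 w3556 w8799 w8798 w8503 w9088 w5756 v10397 v2809 v3513 v4209 v4779 w5345 w4803 w4787 w4784 w3782 v2658 v2657 v3933 v4618 v2793 v4198 v490 v3473 v4127 v4208 v2992 v2668 v2660 v3000 v4841 v11351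 v10413 v11353 w3434 w3435 w3436 w3437 w3438 w3439 w3525 v11028 v2477 v4260 w727 w691 w695 w690 v11071 w4441 w4447 w5249 w5274 w5244 v10574 v11120 v5751 v2447
theorem v11356 : PV l11356 := r11356 v490 v2514 v11099 v3236 v3105 v11310 v11346 v2976 w5220 w4591 v2439 v4486 v4961
theorem v11357 : PV l11357 := r11357 v10393 w4312 v4618 v2793 v5178 v2814 v3000 v11347 v11356 v3327 v3329 v2645 v10548 v1128 v2502 v2500 w3633 v2318 w7503 w7651 w5562
theorem v11358 : PV l11358 := r11358 v3933 v11332 v11336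
theorem v11359 : PV l11359 := r11359 v10395 v4208 v2980 v2981 v2982 v2984 v2985 v11358 v4280 v4260 v11203 v3235 v2379 v11340 w4630 v3915 v4471
theorem v11360 : PV l11360 := r11360 v10393 v11305 v7703 v498 v11301 w4906 v4969 v3927 v11298 v1210 v4195 v487 v5035 v2998 v3000 v11294 v2993 w6795 w4312 v2994 v4191 v3794 v2749 v4850 v4767 v5989 v1209 v3115 v11271 v11302 v481 v480 v7707 w3464 v5925 v4163 v3119 v4129 v2808 v10818 v3336 v5178 v8893 v2251 v3118 v2661 v4165 v3422 v6253 w4983 w5782 w8917 v10508 v2437 v2430 v2435 v2424 v2425 v3117 v2662 v4164 w3556 w8799 w8798 w8503 w9088 w5756 w4963 v10397 v2809 v3513 v4209 v4779 w5345 w4803 w4787 w5375 w5358 w3782 v2658 v2657 v3933 v4618 v2793 v4198 v490 v3473 v4127 v4208 v2992 v2668 v2660 v3443 v4968 v499 w4909 v4841 v11345 v11355 v11357 v10413 v11359 w3434 w3435 w3436 w3437 w3438 w3439 w3525 v11028 v2477 v4260 w727 w691 w695 w690 v11071 w4441 w4447 w5249 w5274 w5244 v10574 v11120 v5751 v2447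
theorem v11361 : PV l11361 := r11361 v5104 v5103 v5106
theorem v11362 : PV l11362 := r11362 v10393 v6200
theorem v11363 : PV l11363 := r11363 v452 v450 v5155 v5156
theorem v11364 : PV l11364 := r11364 v11270 v10397
theorem v11365 : PV l11365 := r11365 v3238 v5093 v5117 v3926 v5122 w5206 v6368 v3925 v5076 v2976 w5205 v5092 v2439 v5148 v3008 v5157 v451 w5199 v5109
theorem v11366 : PV l11366 := r11366 v11365 v2498 v5093 v5117 v3926 v5122 w5206 v3925 v5084 v5090 v5143 v4498 v5145
theorem v11367 : PV l11367 := r11367 v4588 v5093 v5151 v4587 v5078 v5119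
theorem v11368 : PV l11368 := r11368 v2498 v11363 v2368 v4587 v4588 v11366 v5151 v5120 v2369 v2398
theorem v11369 : PV l11369 := r11369 v451 v3236 v453 v450 v2498 v5143 v4587 v3183 v2522
theorem v11370 : PV l11370 := r11370 v3236 v3926 v5077 v5142
theorem v11371 : PV l11371 := r11371 v10395 v3934 v473 v10393 v5433 v5934 v5905 v2705
theorem v11372 : PV l11372 := r11372 v10393 v481 v11371 v485 v5198
theorem v11373 : PV l11373 := r11373 v3004 v4655
theorem v11374 : PV l11374 := r11374 v11305 w5513 v3319 v11054 v10910 w2393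
theorem v11375 : PV l11375 := r11375 v3926 w1078 v8413 w1429
theorem v11376 : PV l11376 := r11376 v4083 v6039 w9178 v2707
theorem v11377 : PV l11377 := r11377 v2602 v7478 w3838
theorem v11378 : PV l11378 := r11378 v11305 v494 v490 v3927 v3144 v7703 v3008 v3026 v5035 w4532 v4872 v1210 v404 v3137 w5513 v11374 w1160 v10908 w1975 v11377 v4083 v9898 w9178 v4602 v2707
theorem v11379 : PV l11379 := r11379 w2393 v5518 v5775 v2707 w358 w9147
theorem v11380 : PV l11380 := r11380 v10395 v3927 w1160 v11305 v494 v3137 v3435 v7703 v3008 v325 v5269 v433 v11048 v11379 w1941 v9109 v8902 v2586 v2578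
theorem v11381 : PV l11381 := r11381 w2393 v5518 v2707 v4606 w9147 w358
theorem v11382 : PV l11382 := r11382 v3927 w1160 v10914 v11381
theorem v11383 : PV l11383 := r11383 v11305 v494 v490 v3927 v3144 v3435 v5035 w1132 w1160 v11380 v11382 w1975 v8726 v8905 v4083
theorem v11384 : PV l11384 := r11384 v10395 w1941 v7935 w8550
theorem v11385 : PV l11385 := r11385 v11305 v3435 v5035 v3318 v3319 v11049 v4082 v4083 v6007 v2707 v2708 v11384 w2393 v10167 w9122
theorem v11386 : PV l11386 := r11386 w1975 v8905 v4083 v2586 v2578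
theorem v11387 : PV l11387 := r11387 v10974 v5269 v10995 v10454 v10978 v11041
theorem v11388 : PV l11388 := r11388 v10974 v5269 v1210 v1209 v11387 v5034 v10736 v10751 v10799 v11279 w2442 v4060 w2493 v3308 w6034 w3895 w3947 v5050 v4047 v4995
theorem v11389 : PV l11389 := r11389 v10785 v10800
theorem v11390 : PV l11390 := r11390 v10974 v5269 v10995 v10454 v11012 v11041
theorem v11391 : PV l11391 := r11391 v10393 w1132 v7703 v1210 v5035 v5269 v11388 v11390 v4502 v10785 v10799 v11389 w102 v3308 w4496 w1643 w1647 v1073 w2540 w6034 w2568 w4035 w4010 v8265 w6312 w1528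
theorem v11392 : PV l11392 := r11392 v1210 v1209 v11167 v5034 v10736 v10799 v10756 v3308 v4060 w2493 v1073 w6034 v8986 w3947 w3895 v4995 v5050 v4047
theorem v11393 : PV l11393 := r11393 v10393 w2393 v7703 v1210 v1209 v480 v485 v11270 v8603 v7707 v3473 v5989 v5925 v2668 v2992 v3012 v10397 v3000 v2996 v5035 v11392 v1412 w4726 w4258 v7840 v4888 v4896 v8248 v4502 v10736 v10751 w123 w120 w853 v9759 w2557 w2563 w927 v3303 v4055 w1748 w4036 w4033 w4028 w6251 w6249 w1594 w1765 v5808
theorem v11394 : PV l11394 := r11394 v10393 v7703 v1210 v5035 v11167 v4502 v10785 v10799 v11389 w102 v3308 w4496 w1643 w1647 v1073 w6034 w2540 w2568 w4035 w4010 v8265 w6312 w1528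
theorem v11395 : PV l11395 := r11395 v3303 v9961 w1748 w2557 w2563 w2569 v4055 w4036 w4033 w4028 w6251 w6249 w1594 w1765 w6295 w6280
theorem v11396 : PV l11396 := r11396 v1412 v7840 v7703 v1210 v1209 v3000 v2996 v5035 v5034 v4502 v10785 w123 w120 w853 w927 v11395 v3308 v7120 v9759 v1073 w3956 w2449 v3095 v4995 v4049
theorem v11397 : PV l11397 := r11397 v10393 v11270 v5925 v8603 v10397 w1939 v11305 v494 v490 v3927 v3144 w1969 w2370 w5449 w351 v5035 w305 w800 v5989 w3479 w8659 w8609 v11378 w4574 w5730 v7703 v3008 v3026 w4532 v4873 v4872 v1210 v1209 w4539 w1159 w1152 w1575 w1559 w1147 w1115 w9018 v3000 v8731 v4841 v480 v485 v7707 v3473 v3137 v2668 v2992 v3032 v3012 v3435 v3431 w352 w340 v11385 w1132 w1160 v11383 v11386 w2393 v5518 v10914 v2707 v2708 w5825 w9147 v4771 w9136 w358 w801 w8920 v4609 v7491 w8510 w8579 w6768 w8629 v11391 v11393 v11394 v1412 w4726 v7840 v4888 v4896 v11396 v8103 v8043 v7781 v4534 v4533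
theorem v11398 : PV l11398 := r11398 v10393 w1939 v11305 v494 v490 v3927 v11270 v10397 v3144 w1969 w2370 w5449 v8603 w351 v5035 v5925 w305 w800 v5989 w3479 w8659 w8609 v7703 v3000 v8731 v4841 v480 v485 v7707 v3473 v3137 v1209 v1210 v11378 w4574 v11397 v1137 v4775 w4405 v501 w5825 v11048 w1160 v11050 v5519 v10167
theorem v11399 : PV l11399 := r11399 v429 v433 v5269 v7703 v3008 v325 v5035 w5513 w5101 v9222 v8215 v8214
theorem v11400 : PV l11400 := r11400 v10394 v10393 w1159 v3927 w1152 w1575 v11270 v8603 w1939 v11305 v494 v490 v10397 v3144 w1969 w2370 w351 v5035 v5925 w305 w800 w5449 v5989 w3479 w8659 w1559 w1147 w1115 w9018 w1582 w8609 v7703 v3000 v8731 v4841 w2364 v480 v485 v7707 v3473 v3137 v2668 v3011 v3435 v3431 w5451 v429 w4898 w4705 v1145 v1146 v433 v3006 v3007 v501 v3835 v755 v1412 v5269 v4771 v4775 v5238 v8235 v8893 v8728 v3319 v8730 w1975 v11399 v7935 v2584 v2576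
theorem v11401 : PV l11401 := r11401 v3927 v7703 v3008 v325 v5035 w1160 v11386 w2393 v10914 v9776 w358 v2574 w9147 v2707
theorem v11402 : PV l11402 := r11402 v10395 w1941 v8634 v4082 v11384 w8821
theorem v11403 : PV l11403 := r11403 v10393 w1939 v11305 v494 v490 v3927 v11270 v10397 v3144 w1969 w2370 w351 v5035 v5925 w305 w800 v3137 v8603 v5989 v3435 w5449 v7703 v3000 v3008 v3026 v8731 w3479 v4841 w8659 w8609 w9018 v11400 v424 w4532 v1209 v1210 v11378 v11398 w4572 v4873 w5730 v11401 v3318 v3319 v11402 w2393 v5519 v2707 v10167 w9122 w5825 v4083 v4775 v7971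
theorem v11404 : PV l11404 := r11404 w3564 w3563 w8817 w8799 w8801
theorem v11405 : PV l11405 := r11405 v10393 v11305 v494 v490 w5452 w5450 w351 v7703 v3000 v480 v485 v11270 w1159 v3927 v5035 w1939 v5989 v5925 v8603 v10397 w1152 w305 v7707 v3144 w1569 w1575 w799 w1969 w2363 w2367 v11404 v8731 v11403 v4838
theorem v11406 : PV l11406 := r11406 v10393 v480 v485 v11270 v11305 v3431 v11405 v4224 v8647 v390 v2846
theorem v11407 : PV l11407 := r11407 v1697 w7981 w7941
theorem v11408 : PV l11408 := r11408 v11275 v5873 v5751 w4439 w4438 w4738 v10749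
theorem v11409 : PV l11409 := r11409 v3933 w1116 w1117 w297 w727 w699 w691 w695 w690 w290 w295 v5041 v11408 v10447 w5245 w5272 w4441 v10574
theorem v11410 : PV l11410 := r11410 w7981 w7895
theorem v11411 : PV l11411 := r11411 w7842 w8652
theorem v11412 : PV l11412 := r11412 w4622 w4621 v11411 w1454 w1461 w7981 v11410 w2269 v8399
theorem v11413 : PV l11413 := r11413 w3414 v9048 v4923 w4655 w7981 w8698
theorem v11414 : PV l11414 := r11414 w272 w3397 v3933 v5667 v3930 w1109 w1110 w1143 w1144 v10825 v3932 w271 w273 w7694 v5189 v3586 w731 w4927 w4432 w1911 v6571 w2323 w3449 w3535 w8206 w5659 w5662 v10618 v11410 w7981 w3406 w3658 w3694 w7894 v3565 w8207 w2245 w268 w5623 v1495 w7841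
theorem v11415 : PV l11415 := r11415 v10393 v10395 w3556 w1152 w1939 w8798 w9088 w8503 w3464 w688 w272 v11414 v3234 w1927 w1928 v3228 v11158 w3414 v2322 v9048 v3894 w1090 w4629 w8652
theorem v11416 : PV l11416 := r11416 v10393 w3556 w1152 w1939 w299 w8798 w9088 w3490 w2367 w302 w3478 v10818 v3933 w303 w297 v3008 v325 v2983 v3018 w2845 v2985 w3418 v11415 w699 w725 w690 w290 v10590 w295 w5284 w5277 w5278 v5041 v11318 v3234 v2458 v3601 v4581 v3229 v3893
theorem v11417 : PV l11417 := r11417 v10393 w3556 w1152 w1939 w299 w8798 w8503 v1210 v2993 w6795 w4784 w4787 w4803 v4195 w5345 w1969 w2367 w302 w3478 w4503 v10818 w1117 v3933 v4198 v4191 v1209 w3464 w297 v2992 v11416 v2859 w3437 w3439 w3525 w3434 w3435 w3436 w3438 v376 v11409 w688 w694 w272 v11412 w4439 w4437 w4438 w4433 v8341 w290 w706 v10468 v2494 v3930 w1109 v10825 v3932 v3616 w2716 w2715 v9048 v8000 v4934 v11410 w4643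
theorem v11418 : PV l11418 := r11418 v5667 v3930 w1109 v3932 v11413 v4949 v11170 w4633
theorem v11419 : PV l11419 := r11419 v10395 v3234 v3228 w1928 w3414 v2322 v9048 v3894 w1090 w4629 w8652
theorem v11420 : PV l11420 := r11420 v10395 w688 w272 v11418 w1927 v11419 v6715 w8110 w7766
theorem v11421 : PV l11421 := r11421 w297 v3008 v325 v2983 v3018 w2845 v2985 w3418 v11420 w699 w725 w690 w290 v10590 w295 w5284 w5278 v5041 v11318 v3234 v3601 v3229 v3893
theorem v11422 : PV l11422 := r11422 v10393 v1137 v10508 w253 w254 w256 w3556 v3927 w1152 w1939 w299 w8798 w9088 w8503 v1210 v2993 w6795 v3430 v3422 w301 w1969 w2364 w2367 w302 w3478 w4503 v10818 w1117 v3933 w1124 w1565 v6253 w4784 w4787 w4803 v4195 w5345 v8893 v4198 v4191 v490 v1209 v498 v503 v3443 w3464 w1159 w1575 w303 w297 v2992 v11417 v11322 v11421 v2859 w3437 w3439 w3525 w3434 w3435 w3436 w3438 v376 v11409 w688 w694 w272 v11412 w4439 w4437 w4438 w4433 v8341 w290 w706 v10468 v2494 v3930 w1109 v3932 v11413 v9048 v4925 v4917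
theorem v11423 : PV l11423 := r11423 w3414 w3689 v9048 w1911 w8206 w5662 w7981 w8698
theorem v11424 : PV l11424 := r11424 v5667 v3930 w1109 w1144 v10825 v3932 w273 v11423 v6715 v11170 w8064
theorem v11425 : PV l11425 := r11425 v10395 w688 w272 v11424 w1927 v11419 v11158
theorem v11426 : PV l11426 := r11426 v10393 v10395 w1152 w1939 v11270 v5925 w299 w8798 w9088 w8503 v3933 v480 v485 v8603 v7707 v3473 v5989 w3464 w297 v10397 v3008 v325 v3017 v3018 w2845 v2984 v2985 v11425 w699 w690 w290 w295 v5041 v11203 v3234 w1927 v3228 v11340 w5247 w4643 v3586 v3885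
theorem v11427 : PV l11427 := r11427 w688 w694 w272 v11412 w4439 w4437 w4438 w4433 v8341 v8343 v2494 v3930 v10825 v3932 v3616 w2715 v4934 v4927
theorem v11428 : PV l11428 := r11428 w2719 v1510 v8005 v3930
theorem v11429 : PV l11429 := r11429 v11428 w2712 v11250 v5873 v5751 w4439 w4438 w4738 v10749
theorem v11430 : PV l11430 := r11430 v10393 v480 v485 v11270 v8603 v7707 w3556 w1152 w1939 v5925 w299 w8798 w8503 v1210 v2993 w6795 w4784 w4787 v4195 w5345 v3933 w1116 w1117 v4198 v4191 v1209 v3473 v5989 w3464 w297 v2992 v10397 v11426 w3437 w3439 w3525 w3434 w3435 w3436 w3438 v11427 w727 w699 w691 w695 w690 w290 w295 v5041 v11429 v10447 w5245 w5272 w4441 v10574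
theorem v11431 : PV l11431 := r11431 v3008 v325 v3018 w2845 v2985 v11420
theorem v11432 : PV l11432 := r11432 v3930 w1109 v3932 v11413 v3599 v4925 v4917
theorem v11433 : PV l11433 := r11433 v1209 w3464 w688 w694 w272 v11431 w3439 w3436 w3438 v11412 w4439 w4437 w4433 v8341 v11432 v8343 v2494
theorem v11434 : PV l11434 := r11434 v10393 v10395 v5041 v11270 v5925 w297 w699 w290 v480 v485 v8603 v7707 v3473 v3008 v325 v3017 w2845 v2984 v11203 v3234 w1927 v3228 v11333 w5247 w4643 v3586 v3885
theorem v11435 : PV l11435 := r11435 v10393 v10395 v5989 w3478 v3430 w4900 v1210 v2993 v3927 w6795 w4312 v5178 v11270 v5925 w301 w1939 w1969 w2364 w2367 v8603 w302 v498 v503 w4883 w4503 v10818 w1117 v3933 w1124 w1565 v8893 w3782 v480 v3008 v3031 v3422 v6253 w5375 v8249 v4438 w1152 w299 v485 v7707 w3556 w1159 w1569 w300 w2363 v2814 w3796 w8799 w8798 w5756 w8770 w4906 v4969 w8917 v10508 w253 w255 w256 w250 w4980 w9088 w8503 w4998 w5806 w4784 w4787 w4803 v4195 w5345 w1116 v1021 v785 v4198 v4191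 v4968 v1209 v3443 w4912 v3473 w3464 w1575 w297 v2992 v10397 v11422 v11357 v1247 v11430 v11433 w699 w691 w690 w290 w295 v5041 v11434 w3437 w3439 w3434 w3435 w3436 w3438 v11429 w1927 v10447 v11333 w5243
theorem v11436 : PV l11436 := r11436 v6707 v10372 v3099 v2592 v6558 v5715 w124 w4036 w2569 w6252
theorem v11437 : PV l11437 := r11437 v10898 v2539
theorem v11438 : PV l11438 := r11438 v5178 v10801 w876 v5034 v4526 v1021 v785 v1210 v1209 v10751 v11279 v3303 v4055 v11436 v6261 v11437
theorem v11439 : PV l11439 := r11439 v10393 v11406 v5035 v7703 v3000 v11270 v5989 v8731 v4838 v3430 v5925 w305 v4841 v3008 v3025 v3927 w4900 v1210 v4195 v4191 v3794 v2993 w6795 w4312 v2748 w4325 v2998 v2749 v4850 v498 v503 w4883 w4503 v4767 v4779 w4983 v3422 w301 w1939 w1969 w2364 w2367 v8603 w302 w3478 v10818 w1117 v3933 w1124 w1565 v6253 w5782 v2747 w1152 w299 v480 v485 v7707 w3556 w1159 w1569 w300 w2363 v2814 v5178 v8893 w3796 w8799 w8798 w4947 w4906 v4969 w8917 v10508 w257 v11435 v11360 w4912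 v10397 v2668 w8503 v1021 v785 v3443 v11167 w9088 v3031 w5375 v8249 w3490 w3782 w4998 w5806 w4784 w4803 v4198 v4968 v1209 v3473 w3464 w297 v2992 v325 v3018 w2845 v11425 v11438 v11341 w5814 w5724 v10164 v6558 v6707
theorem v11440 : PV l11440 := r11440 v10393 v5989 v480 v485 v11270 v8603 v7707 w3464 v5925 v2668 v10397 w3434 w3435 w3436 w3438 v11028
theorem v11441 : PV l11441 := r11441 v10393 v11406 v5035 v7703 v3000 v11270 v5989 v8731 v4838 v3430 v5925 w305 v4841 v3008 v3025 v3927 w4900 v1210 v4195 v4191 v3794 v2993 w6795 w4312 v2748 w4325 v2998 v2749 v4850 v498 v503 w4883 w4503 v4767 v4779 w4983 v3422 w301 w1939 w1969 w2364 w2367 v8603 w302 w3478 v10818 w1117 v3933 w1124 w1565 v6253 w5782 v2747 w1152 w299 v480 v485 v7707 w3556 w1159 w1569 w300 w2363 v2814 v5178 v8893 w3796 w8799 w8798 w4947 w4906 v4969 w8917 v10508 w257 v11435 v11360 v3473 v4968 w4912 v10397 v2668 w8503 v1021 v785 v3443 v11167 v10801 w876 v5034 v4526 w253 w254 w256 w5756 w9088 v3031 w5375 v8249 v4438 w3782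 w4998 w5806 w4787 w4803 w5345 w5358 v4198 v490 v1209 w297 v325 v11440 v3018 w2845 v2984 v11439 v11358 v11322 v1138 v10751 v11279 v3303 v4055 v11436 v10164 v6261 w5814 w5017 v2539 v10876
theorem v11442 : PV l11442 := r11442 v10202 v6707
theorem v11443 : PV l11443 := r11443 v7703 v3008 v325 w5814 w5724 v10164 v6558 v11442
theorem v11444 : PV l11444 := r11444 v10393 v11270 v5989 v8731 v3927 w1152 v11406 v5925 w299 v480 v485 v8603 v7707 w3556 w1939 w1159 w1569 w300 w1969 w2363 v7703 v5035 v3000 v4838 v3430 w4900 v1210 v2993 w6795 v3008 v3025 v4195 v4191 v3794 w4983 v3422 w301 w2364 w2367 w302 w3478 v498 v503 w4883 w4503 v10818 w1117 v3933 w1124 w1565 v6253 w5782 v2814 w4312 v5178 v8893 w3796 w8799 w8798 w4980 v3443 w4906 v4968 v4198 v2998 v2749 v4850 w4803 w4998 w5806 w8503 w305 v4841 v2748 w4325 v4767 v4779 v2747 w4947 v4969 w8917 v10508 w257 v11435 v11360 v11443 w4848 v3031 w5375 v8249 v4438 w3490 w3782 w5345 v1021 v785 v490 v1209 v3473 w297 v2992 v10397 v325 v11441 w699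 w290 v11341 v10824 v3017 w2845 w3418 v11014
theorem v11445 : PV l11445 := r11445 v11353 v11359
theorem v11446 : PV l11446 := r11446 v10393 v7703 v11406 v5035 v11270 v5925 w305 v5989 v8731 v3000 v4841 v4838 v3008 v3025 v3927 v3430 w4900 v1210 v4195 v4191 v3794 v2993 w6795 w4312 v2748 w4325 v2998 v2749 v4850 v498 v503 w4883 w4503 v4767 v4779 w4983 v3422 w301 w1939 w1969 w2364 w2367 v8603 w302 w3478 v10818 w1117 v3933 w1124 w1565 v6253 w5782 v2747 w1152 w299 v480 v485 v7707 w3556 w1159 w1569 w300 w2363 v2814 v5178 v8893 w3796 w8799 w8798 w4947 w4906 v4969 w8917 v10508 w257 v11435 w253 w255 w256 w250 w4980 w5756 w9088 w8503 v3031 w5375 v8249 v4438 w3782 w4998 w5806 w4787 w4803 w5345 w5358 w1116 v1021 v785 v4198 v4968 v1209 v3443 v3473 w3464 w1575 v2668 w297 v2992 v10397 v11360 v11443 v11444 v11357 v10413 v11445 w3437 w3439 w3525 w3434 w3435 w3436 w3438 v11440 w727 w699 w691 w695 w690 w290 w295 v10854 v11071 v11354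
theorem v11447 : PV l11447 := r11447 v11209 v4595 v2580
theorem v11448 : PV l11448 := r11448 v10393 v11270 v5989 v8731 v11406 v5035 v7703 v3000 v4838 v3430 v498 v503 w4883 w4906 v4969 w4900 v1210 v1209 v3422 v4841 w3478 v2814 v480 v485 v8603 v7707 v3473 w3556 w1159 v3927 w1152 w1569 v5925 w302 w300 w299 w301 w305 v2998 v2993 v3008 v3025 v325 w1939 w1969 v4195 w6795 w2363 w2364 w2367 v4191 w4312 w4503 v3794 v2747 v2748 v2749 v5178 v10818 w4325 w4983 v4850 v3933 w1117 v4767 v4779 w1124 w1565 v6253 v8893 w5782 w3796 w8799 w8917 w8798 v10508 w8503 w4947 w257 v11435 v11446 w5826 w4574 v11210 w2393 v11447 v5519 v5525 v2574 v9776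
theorem v11449 : PV l11449 := r11449 v10393 v5989 v11406 v7703 v3000 v3008 v3026 v3025 v11270 v5035 v8731 v4838 v3430 w4906 v11448 v3216 v4871 w4536 v5796 v4784 v3793
theorem v11450 : PV l11450 := r11450 v2260 w8506 w8504
theorem v11451 : PV l11451 := r11451 v10394 v10393 w302 w300 v3008 v3031 v2993 w1939 w1969 v4195 w6795 w2363 w2367 v490 v4198 w4312 w4998 w4503 v5178 v11450 w5355 w5385 w8801 v3532 v8249 v5651 v3512
theorem v11452 : PV l11452 := r11452 v10393 v485 v7707 w3563 w3564 w1159 v3927 w1152 w1575 w1569 v7703 v3008 v3026 v3025 v5035 v3430 v3378 v11298 v503 v11301 v1210 w4883 w4903 v11451 v3216 v4871 w4536 v5796 v4784 v3793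
theorem v11453 : PV l11453 := r11453 v10395 v10393 w1939 w1935 w2382 w2363
theorem v11454 : PV l11454 := r11454 v10393 v11406 v11270 v480 v7703 v3430 v498 v11298 v1209 v10396 v6133 v2846 v2843
theorem v11455 : PV l11455 := r11455 v10393 v11270 v5035 v4834 v8731 v8671
theorem v11456 : PV l11456 := r11456 v11406 v7703 v3000 v3008 v3026 v3025 v5035 v11449 v11455 v4838 v3430 v11454 w4906 v3216 v4871 w4536 v5796 v4784 v3793
theorem v11457 : PV l11457 := r11457 v10393 v11456 v11406 v7703 v3000 v480 v485 v11270 w1159 v3927 v11453 w1939 v5989 v5925 v8603 w1152 w299 w300 v7707 v11452 w1569 w3556 w3564 v11294 w5488 w5489 w8799 w8798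
theorem v11458 : PV l11458 := r11458 v10393 v10394 v11270 v7703 v5035 v4838 v11294 v4834 w5465 w4557 v8671 w4839 v1145 v3012 v3826
theorem v11459 : PV l11459 := r11459 v7703 v3008 v5035 v3025 v3026 v3000 v11406 v11456 v11457 v11458 v3378 v11454 v11301 w4904 v3216 v4871 w4536 v5796 v4784 v3793
theorem v11460 : PV l11460 := r11460 v10393 v480 v485 v11270 v8603 v7707 v5035 v5925 w305 v7703 v5989 v2992 w3468 w3467 w1152 v11453 w1939 w340 w351 v2534 w799 w5444 w8679 v4896 v11223 w4721 v4438 v1210 w771 v3444 w8656 w5452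
theorem v11461 : PV l11461 := r11461 w301 w300 w302 w8656 w8350 v1594 v34 w5791 w5782
theorem v11462 : PV l11462 := r11462 v7703 v5035 v4838 v4967 v4836 w4909 v3351
theorem v11463 : PV l11463 := r11463 v10393 v5989 w3470 w3469 w3468 v11270 v8603 v5925 v2820 v404 v11455 v11462 v11453 w1939 w1969 v11460 w2364 w2367 v11461
theorem v11464 : PV l11464 := r11464 v10393 v11459 v2820 v11455 v11270 w1159 v3927 v7703 w1939 v5989 v8603 w1152 w3467 w1569 v11463 v3216 v8615 v4770 w340 v501 w4898 w4904 v1210 v4969 v3444 w8374 v494 w8679 v3136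
theorem v11465 : PV l11465 := r11465 v10393 v10394 v3935 v2843 v4632 v5208
theorem v11466 : PV l11466 := r11466 v10395 v10393 v7703 v480 v11270 v485 v11459 v2820 v404 v11455 v11462 v11464 v3935 v11465 v6133 v5603 v5437 v4224 v2846 v4241
theorem v11467 : PV l11467 := r11467 w4574 v7703 v2998 v5035 v11305 w4546 v4850 v1210 v1209 v3927 v501 w5825 v11048 w1160 v11050 v5519 v10167
theorem v11468 : PV l11468 := r11468 v11305 v3435 v11466 v11371 v5035 w5168 w5728 w5193 v3384 v11401 v3318 v3319 v11049 v11402 v4083 v2619 w2393 v2707 v10167 w9122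
theorem v11469 : PV l11469 := r11469 w2393 v5519 v8144 v2707 w9122
theorem v11470 : PV l11470 := r11470 v10393 v10394 v11305 v3435 v11466 v11371 v6818 v5035 v4775 v11468 v483 w5391 v4664 v3384 v11401 v3319 v11049 v4083 v11469 v7935 w6731 w6478
theorem v11471 : PV l11471 := r11471 v10393 w3573 w3793 w3489 v7703 v2998 v5035 v11305 w4546 v4850 w4540 v1210 v1209 w340 v3927 v11466 v11371 w1152 w1939 v1127 w8905 v11378 w4574 v11470 w4889 v11467
theorem v11472 : PV l11472 := r11472 v10393 v10395 v7703 v3008 v3032 v11466 v11371 w4472 v4908 v1210 v2674 w340 v11305 v6818 v3933 v3927 v325 w5513 v11378 v11374 w5407 v11214 w1132 w1160 v10402 v8366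
theorem v11473 : PV l11473 := r11473 v4498 w245 w335 w621
theorem v11474 : PV l11474 := r11474 v7703 v3008 v8318 v10924 v5102 v3236 v10499 v3238 v3015 v8923
theorem v11475 : PV l11475 := r11475 v2976 v5509 w4423 v2355 v2367 v4484
theorem v11476 : PV l11476 := r11476 v5098 v11368
theorem v11477 : PV l11477 := r11477 v11370 v2422 v3924 v2347 v446 v2412
theorem v11478 : PV l11478 := r11478 v7703 v11474 v11475 v11477 v11366 v5102 v10499
theorem v11479 : PV l11479 := r11479 w7567 w7641
theorem v11480 : PV l11480 := r11480 v7117 v6566 v9099 v8827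
theorem v11481 : PV l11481 := r11481 v11480 v8043 v8770 v9202 w2488
theorem v11482 : PV l11482 := r11482 v1131 w7010 w6084
theorem v11483 : PV l11483 := r11483 w5957 w6219
theorem v11484 : PV l11484 := r11484 v3193 v3653
theorem v11485 : PV l11485 := r11485 v2882 v11484 v437 v3661 v4829 v4352
theorem v11486 : PV l11486 := r11486 v2882 w4056 w4057 v8038 v3707 v3675 v1000
theorem v11487 : PV l11487 := r11487 v3240 v8907 v4764 v3683 v3675
theorem v11488 : PV l11488 := r11488 v2892 v11486 w4209 v11487 w313 w6989 w6967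
theorem v11489 : PV l11489 := r11489 v3240 w1629 v3241 w1670 v11488 w2812 v7111 v7942
theorem v11490 : PV l11490 := r11490 v3241 w4045 w4047 w4048 w4061 v4678 w6813 v4974 w1002 w3243 w6872
theorem v11491 : PV l11491 := r11491 v7069 w183 v11485 v8907 v3241 w1808 v4764 w1628 w1658 w1098 w884 v11482 w2435 w2576 w2579 v11483 w1 v11490 w3885 w6039 w5999
theorem v11492 : PV l11492 := r11492 v8500 v6071
theorem v11493 : PV l11493 := r11493 w6191 v11491
theorem v11494 : PV l11494 := r11494 v10393 v11106 w246 w4574 v7703 v3008 v325 v9776 w6456 w1132 v7840 w250 v5035 w257 v424 v418 v1210 v1209 v2992 v3012 w351 v2998 v11481 v4506 w73 v10801 v10751 v10813 v8090 w111 w96 w95 w24 v10807 v5068 w2559 w2538 w2542 w1643 w1609 w1647 v3303 w1734 v7770 w1748 w1528 w867 w6011 w1616 w1615 v5808 w4187 w4188 w4189 w6250 w4142 w4141 w4040 w4039 w4038 w4037 w932 w930 v4718 v4027 w6010 w4186 v11489 w1942 w1979 w2008 w1666 v11492 v2887 v2888 v2890 v7069 w183 w182 v11485 v8907 w388 v3241 w1808 v4764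 w1815 w1986 w1985 w1098 w1180 w884 v11482 w2576 w2579 v11490 w4207 w4206 w4208 w7021 w6959 w385 w1192 w6987
theorem v11495 : PV l11495 := r11495 v10393 v7703 v1210 v1209 v5035 v4502 v10801 v10751 w102 v10807 w2542 w1643 v5825 w1647 v7770 w4035 w1528 v5808
theorem v11496 : PV l11496 := r11496 v424 v418 v1209 v3008 v325 v11480 v10731 v3308 v10796 v10789
theorem v11497 : PV l11497 := r11497 w4574 v7703 v3008 v325 v9776 w6456 w1132 v7840 v2992 w340 v11494 v11496 v10813 v11495
theorem v11498 : PV l11498 := r11498 v10393 v7703 v1210 v1209 v5035 v4502 v10801 v10751 w102 w804 v10807 w2542 w2569 w1643 w1647 v7770 w1528 w6130 v5808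
theorem v11499 : PV l11499 := r11499 v7117 v1074 v7199
theorem v11500 : PV l11500 := r11500 w4139 w4038 w4035 v8743
theorem v11501 : PV l11501 := r11501 v7703 v10813 v11498
theorem v11502 : PV l11502 := r11502 w1160 v5035 v7703 v1210 v11386 w2393 v3008 v325 w4574 v9776 v2574 v9435 w6456 w358 w1132 v7840 v424 v418 v2992 w340 v3000 v2767 v11497 v11501 w35 v11499 v3308 w1738 v10731 w869 v9099 v11500 v4070 w5817 v2789 w6260 w5875 w2548
theorem v11503 : PV l11503 := r11503 v10393 w4574 v7703 v3008 v325 v9776 w6456 w1132 v7840 v1210 v1209 v2992 v3012 w340 w351 v5035 w352 v2998 v5034 v4502 v10801 v10751 v10813 v4526 w102 w101 w122 v10807 v5068 v8778 w2559 w2538 w2542 v11495 w1643 w1647 v3303 w1609 w1734 v7770 w1748 w1528 w867 w6011 w1616 w1615 v5808 w4187 w4188 w4189 w6250 w4142 w4141 w4040 w4039 w4038 w4037 w932 w930 v11489 v4718 v4027 w6010 w1942 w1979 v8594 w4186 w2008 w1666 v2887 v2888 v2890 v7069 w183 w182 v11485 v8907 w388 v3241 w1808 v4764 w1815 w1986 w1985 w1098 w1180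 w884 v11482 w2576 w2579 v11490 w4207 w4206 w4208 w7021 w6959 w385 w1192 w6987
theorem v11504 : PV l11504 := r11504 v7840 v424 v418 v7703 v1210 v1209 v3008 v325 v11497 w4251 v11503 v11480 v11481 v11499 v10232 v3308
theorem v11505 : PV l11505 := r11505 v10395 v10393 v7703 v2998 v5035 v11305 w4546 v4850 v11472 w4574 v7840 w1970 v11466 v11371 v2674 v3008 v3032 w4472 v4909 v11106 v4908 v424 v418 w4492 v1210 v1209 v2673 v2992 w340 v3435 v3431 w1969 w3573 w1159 v3927 w1152 w1575 w1569 v6818 v3933 w1158 v325 w1132 w1160 v11386 v11048 w2393 v9776 w358 v2574 w6456 v9435 v11478 v4498 v11502 v11504 v11501 v11499 v3308 v3303 v9755 v8043 v10731 v10232 w4251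
theorem v11506 : PV l11506 := r11506 w4045 w4047 w4061 v4678 w6863 v4974 w3243
theorem v11507 : PV l11507 := r11507 v10393 v7703 v10807 w1643 v11049 w6478 v7840 v10751 w2569 v2998 w2559 w876 v5035 w352 v4502 w122 v2559 v2562 w351 v3008 v325 v5068 v7770 v3303 v9194 w1609 w6011 w1748 v3099 w4142 w4141 w4039 w4038 w4037 w4187 w4188 w4189 w1616 w1615 v8132 v11489 v4027 w6250 w1942 v11492 w932 w930 w2008 w1666 v2887 v2888 v2890 v7069 w6010 w182 v11485 v8907 w4186 w388 v3241 w1808 v4764 w1817 w1815 w1986 w1985 v3315 w1098 w1180 w884 v11482 w2576 v11483 w359 v11506 w4207 w4206 w4208 w7021 w6959 w385 w1192 w6987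
theorem v11508 : PV l11508 := r11508 v10393 w1643 w876 v8155 w6034 w4219 v2774 w4035 w6312 v9189 w944 w2390 w6279
theorem v11509 : PV l11509 := r11509 v10393 v7703 v1210 w4574 v11049 v2559 v2562 w1975 v7840 w5773 v1209 v2992 v3012 v5035 w352 v3000 v2996 v5034 v4502 v10801 v10751 v4526 w102 w101 w123 w120 w853 v10807 w876 w2501 w2557 w2563 w2538 w2542 w2442 w927 w1643 w1734 v11508 v5068 v11507 v9194 v3981 w4141
theorem v11510 : PV l11510 := r11510 v7703 v1210 w4574 v11049 v7840 v424 v418 v1209 v3008 v325 v2559 v9771 v2562 v11509 v11480 v11481 v11496 v11499 w4258 w4251 v3308 v10232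
theorem v11511 : PV l11511 := r11511 v9683 w6363 w6478
theorem v11512 : PV l11512 := r11512 v10395 v10393 v7703 v2998 v5035 v11305 w4546 v4850 w3573 w1970 w1159 w351 v642 w5786 w9098 v11472 w4574 w1969 v3927 w1158 w352 v2814 w5773 w9021 w8956 w1939 w2367 w305 w799 w3478 v11466 v11371 w1152 w1575 w8994 v3008 v3032 w4472 v4909 v4908 v1210 v1209 v2674 v2673 w340 v3435 v3431 v6818 v3933 w1124 w1569 v325 v11505 v3319 v11049 v4083 v11469 v11510 v11511
theorem v11513 : PV l11513 := r11513 v10393 v3008 v325 v11480 v11499 v3954 v3308 w924 v10724 v7871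
theorem v11514 : PV l11514 := r11514 v7703 v1210 v5035 w1160 v11503 v11386
theorem v11515 : PV l11515 := r11515 v10395 v10393 v7703 v3927 v11466 v11371 w1152 v11305 v3431 v3012 v2674 v1210 v424 v418 v3008 v3032 w4472 v4908 v4909 v11513 v2998 v5035 w4546 v4850 v11472 w4574 w1970 w4492 v1209 v2673 v3435 w1159 w1575 w1569 v6818 v3933 w1158 v11514 v3319 v11049 v9771 v4083 v11469
theorem v11516 : PV l11516 := r11516 v11305 v3435 v7703 v3008 v325 v5035 w1160 v11386 v8383 w2393 v9776 v9435 v2574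
theorem v11517 : PV l11517 := r11517 v10395 v10393 v10394 w1159 v3927 v11466 v11371 w1152 w1569 w351 v5035 w305 w799 v7703 v6818 v3008 v3031 v5412 v4438 w771 v11453 w8917 w8799 w3573 w3793 w3489 w3478 w3787 v2998 v11305 w4546 v4850 w1970 v3032 w4472 v4909 v1210 v1209 v2674 w297 w340 v494 v490 w352 w1939 w1969 w2367 v2814 v3933 w1116 w1575 v476 v472 w1158 v325 v11471 v642 w5741 w5786 w9074 w5773 w5461 w8525 w5458 w5369 w8994 w9098 w8956 w9021 v3500 v3505 w8522 v4663 v4664 v11472 w4574 v11470 v11512 v433 v3006 v3007 v11515 v11516 v3319 v11049 v4083 v11511 v11469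
theorem v11518 : PV l11518 := r11518 v404 v3927 w1132 w1160 v10908 v11377 v4082 v11342 v10401 v4602
theorem v11519 : PV l11519 := r11519 v10395 v10393 w3496 w3489 w351 v5035 w305 w799 v11466 v7703 v11371 v6818 v3008 v3031 v5412 v4438 w771 v2998 v11305 w4546 v4850 v3032 w4472 v4908 v1210 v3000 v4841 v404 w1159 v3927 w1152 w1569 v3933 v11453 w8799 v11517 v3351 v3374 w4903 w5196 w5402 w5193 v3491 v3473 v11467 w5513 w5407 v11518 v3319 v10909 v11054
theorem v11520 : PV l11520 := r11520 w1098 v3716 w1183 w5052 w6988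
theorem v11521 : PV l11521 := r11521 v2882 v2889 v11487 v339 v1000 w313 v4500 w386 v11520 v4338 v4334
theorem v11522 : PV l11522 := r11522 v3240 w1629 v3241 w1668 v11521 w2812 v7111 v7942
theorem v11523 : PV l11523 := r11523 v10395 v10393 w4574 v7703 v3008 v325 v9776 w6456 w1132 v7840 v1210 v1209 v2992 v3012 w340 v5035 w352 w1939 v5034 v4502 v10801 v10751 v10813 v4526 w102 w99 v10807 w2501 w2529 w2542 v11495 v8778 v8053 v5068 w1643 w1644 w1647 w2450 v3303 w1609 v7770 w1758 w1748 w1528 w867 w6011 w1616 w1615 v5808 w4142 w4040 w4039 w4038 w4037 w4035 v3969 v4718 v4027 w818 w2428 w2431 w825 w6009 v11522 w1913 w1914 w1942 w1979 v11492 w1666 v11493 w3253 v2886 v7069 w5936 w183 w180 v11485 v8907 v3241 w1808 v4764 w1628 w1658 w1098 w877 w884 v11482 w2435 w2576 w2579 v11483 v11490 w1 w4168 w4169 w7016 w7019 w181 w1532 w1097 w992 w878 w5999 w4042 w4060 v4974 w6872 w3243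
theorem v11524 : PV l11524 := r11524 v5817 v4523 v4517
theorem v11525 : PV l11525 := r11525 v7703 v3008 v325 w4574 v9776 v2574 v2591 v2582 v424 v418 v1210 v1209 v11523 v11480 v11524 v3308 v3303 v10724 v10234 w2489 w3958 v4710
theorem v11526 : PV l11526 := r11526 v418 v325 w869 v7117 v9099 v3308 w1738 v11500 v4070 v9755 w5817 v2789 w6260 w5875 w2548
theorem v11527 : PV l11527 := r11527 v7703 v3008 v325 w4574 v9776 v2574 v2582 w6456 v2591 w358 w5825 w1132 v7840 v424 v418 v1210 v1209 v2992 w340 v3000 v11525 v11501 w35 v11526 v11524 v3308 v3303 v10724 v10234 w2489 w3958 v4710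
theorem v11528 : PV l11528 := r11528 v7840 w2478 v7069 v11493 w183 v11485 v8907 w5936 v3241 w1808 v4764 v3662 w1628 w1658 w1098 w877 v442 w4384 w4385 w884 v3642 v11482 w1002 w992 w2435 w2576 v11483 w878 v4678 w1 w5999 v4974 w4060 w3243 w6872
theorem v11529 : PV l11529 := r11529 v3206 v3673
theorem v11530 : PV l11530 := r11530 v2973 v6071 w4383 v11529 v1000 v3692 v4500 v3940
theorem v11531 : PV l11531 := r11531 v10393 w4574 v7703 v3008 v325 v9776 w6456 w358 w5825 w1132 v7840 v1210 v1209 w340 v5035 w352 v5034 v4502 v10801 v10751 v11501 v10813 v4526 w102 v10807 w2501 w2542 v5068 v11495 v8778 v8053 w1643 w1647 v3303 v4062 w1609 v1139 v7770 w1748 w3906 w1528 w867 w1616 w1615 v4027 v5808 v11522 w2424 w2427 w4142 w4040 w4039 w4037 w1942 w1979 v3969 w1666 w818 w825 v11530 v2882 v2888 v7069 v11528 w183 v11485 v8907 w4409 v3241 w1808 v4764 v3662 w5032 w1815 w1985 w1133 v442 v3699 v3642 v4500 w173 w1002 w992 w314 w365 w1166 w6987 w4853 w5822 v4974 w6872 w3243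
theorem v11532 : PV l11532 := r11532 v418 v5817 w3940 w3934 w3959 v5823 v10234 v3303
theorem v11533 : PV l11533 := r11533 v418 v11532 v3308 v3303 v10724 v10234 w2489 w3958 v4710
theorem v11534 : PV l11534 := r11534 v418 v325 v11480 v11526
theorem v11535 : PV l11535 := r11535 v5817 w3959 w3939 v4523 v10234 v9734 w2488
theorem v11536 : PV l11536 := r11536 v7703 v3008 v325 w4574 v9776 v2574 v2591 v2582 v7840 v424 v418 v1210 v1209 v2992 v3000 v11527 v11531 w35 v11534 v11533 v2772 v11535 v3308 v3303 v10724 v10234 w2489 w3958 v4710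
theorem v11537 : PV l11537 := r11537 v3240 w182 v8907 w388 v4764 v3675 w5060 w6959 w6976
theorem v11538 : PV l11538 := r11538 w352 v2882 v2889 v2890 v339 v11537 v1000 w313 v4500 w386 v11520 v4338 v4334
theorem v11539 : PV l11539 := r11539 v7703 v1210 v1209 w351 v3008 v325 v5035 v3240 w1629 v3241 w1668 w1669 v11538 w2812 v7111 v7877
theorem v11540 : PV l11540 := r11540 v10393 v7840 w2478 w1609 w1615 w1616 w1647 w1643 w4574 v7703 v3008 v325 v9776 w6456 w1132 v1210 v7770 w1528 w867 v5808 w4142 w4141 w4040 w4039 w4037 w4035 v3969 v3981 w818 w825 v11539 w1942 w1979 v11492 w1666 v7069 v11493 w183 v11485 v8907 w5936 v3241 w1808 v4764 v3659 w1628 w1658 w1098 w877 v442 w4382 w884 v3642 v11482 w1002 w992 w2435 w2576 v11483 w878 v4678 w1 w5999 w4042 w4060 v4974 w6872 w3243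
theorem v11541 : PV l11541 := r11541 v8155 w6034 w4217 w4035 w6309 v5808 w1530
theorem v11542 : PV l11542 := r11542 v10393 v3303 w1647 w1643 v7703 v10801 w853 w927 v7840 v1209 v10751 w2442 v2996 w2557 w2501 v5035 w352 v4502 w120 v5034 v4526 w1132 w4574 v8185 v1210 w8542 w5750 v11541 v7770 w1528 w867 v5808 w4142 w4040 w4038 w4037 v3969 v4718 v4027 v5841 w2428 w2431 v11540
theorem v11543 : PV l11543 := r11543 v10393 w1647 v7825 v8155 v7207 w4218 w1529 w6311
theorem v11544 : PV l11544 := r11544 v10393 v7703 v10801 w853 w927 w4574 v3008 v325 v9776 w6456 v1209 v7840 v10751 w2569 w2442 v2996 w2557 w358 v5035 v4502 w804 w352 w120 w1132 v8185 v1210 w1939 w1643 w1644 w1647 w1758 w1759 v11543 v3006 w8542 w5750 v11541 v5068 v7770 v3303 w1528 w1748 v5808 v11542 w6130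
theorem v11545 : PV l11545 := r11545 v7840 v3074 w1942 v11492 w1666 w1663 v7069 v11485 v8907 v3241 v4764 v3659 w1098 w877 v442 w4380 w4382 w4097 w884 v3642 v11482 w992 w2435 w2576 w2577 w878 v4678 v4681 w6200 w38 w173 w41
theorem v11546 : PV l11546 := r11546 w1969 w1761 w351 v7703 v3008 v325 v5035 v11545 v3240 w1816 v3241 w2011 w2010 v11538 w2812 v7111 v7877
theorem v11547 : PV l11547 := r11547 v11492 v2890 v7069 w182 v11485 v8907 w388 v3241 w1808 v4764 w1815 w1986 v3691 w5060 w6959 w6976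
theorem v11548 : PV l11548 := r11548 w351 w1969 v7703 v3008 v325 v5035 v11546 v11547 v3240 w1816 v3241 w2011 w2010 v11538 w2812 v7875 v7877 v3680 v3672
theorem v11549 : PV l11549 := r11549 w6987 v569
theorem v11550 : PV l11550 := r11550 v10393 v11371 v6818 v3933 v3677 w1098 w5054 w5056 w5044 w1180 w7021 w382 w385 w8335 w1181 v11549
theorem v11551 : PV l11551 := r11551 w1942 v11492 w2005 w2008 v2884 v2887 v2888 v7069 v11550 v4764 v4828 v8907 v439 v3193
theorem v11552 : PV l11552 := r11552 w351 v7703 v3008 v325 v5035 v3240 w1816 v3241 w2011 w2010 v11538 w2812 v7877 v7111 v7941 v3680 v3672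
theorem v11553 : PV l11553 := r11553 v10393 v11371 v6818 v3933 w1969 v2674 v11552 w351 v5035 w305 w799 v2673 w1939 v11548 v11551
theorem v11554 : PV l11554 := r11554 v3241 v8907 v3659 v442 w4375 w4097 v3642 v4688 w992 w173 w878 w40 w6200
theorem v11555 : PV l11555 := r11555 v4978 v4976
theorem v11556 : PV l11556 := r11556 v3721 v3717
theorem v11557 : PV l11557 := r11557 v10393 v7840 v3074 w1969 w1761 w351 v5035 w305 w799 v11371 v2674 v2673 v6818 v3933 w1939 v11552 w1942 v11492 w2005 w2008 w1666 w1663 v2882 v2884 v2887 v2888 v7069 v339 v11553 v8495 w1098 w877 v11550 w884 v11556 w314 w57 v1131 w2435 w2576 w2578 v11555 v11554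
theorem v11558 : PV l11558 := r11558 v10393 w1969 w1761 w305 w799 v11371 v2674 v2673 v6818 v3933 w1939 v11551 v11545 v11547
theorem v11559 : PV l11559 := r11559 v3690 v3672
theorem v11560 : PV l11560 := r11560 v10393 v11371 v2674 w351 w1969 v6818 v3933 v7703 v3008 v325 v5035 v11558 v3240 w1816 v3241 w2011 w2010 v11538 w2812 v7877 v11559 v8313 v7941
theorem v11561 : PV l11561 := r11561 v10393 v7840 v3074 v11371 v6818 v3933 w1942 v11492 w2005 w2008 w1666 w1663 v2882 v2884 v2887 v2888 v7069 v339 v8495 w1098 w877 v11550 w884 v11556 w314 w57 v1131 w2435 w2576 w2578 v11554 v11555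
theorem v11562 : PV l11562 := r11562 v10393 v11371 v6818 w1117 v3933 w1098 v3672 w1179 w5045 w6927 w8451
theorem v11563 : PV l11563 := r11563 v10394 v10395 v10393 v7703 v3008 v325 w4574 v11371 v2674 v9776 v2574 v2591 v2582 v6818 v3031 v5412 v494 v490 w5457 v4664 v7840 v4663 v1210 v1209 w351 v5035 w305 w799 v2673 v2992 v3012 w1969 w1117 v3933 w1939 v5034 v4502 v10801 v10751 v4526 w102 w101 w99 w2501 w2529 w2538 w2542 w2442 v11544 v3308 w1738 v3975 w5964 v3303 v4059 w1761 w4078 v2789 v8702 w3917 w3909 w2478 v3074 w2427 v4009 v4017 v3956 w818 w825 v11557 v11560 v11561 v3240 w1816 v3241 w2011 w2010 v11538 w2812 v2868 v7877 w313 w384 v11562 v8313 v7941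
theorem v11564 : PV l11564 := r11564 v10394 v10395 v10393 v7703 v3008 v325 w4574 v11371 v2674 v9776 v2574 v2582 w5825 v6818 v3031 v5412 v494 v490 w5457 v4664 v7840 v4663 v424 v418 v1210 v1209 v2673 v3000 w1152 v11563 w35 v11534 v11524 v3308 v3303 v10724 v10234 w2489 w3958 v4710
theorem v11565 : PV l11565 := r11565 v10393 v7703 v10801 w853 w927 w358 v5035 v4502 w804 w352 w120 w6456 w2569 v7840 w2442 v2996 w2557 v3006 w1132 v1210 v1209 w1969 w1939 w1643 w1644 w1647 w1758 v11541 v7770 w1528 w867 v5808 w4035 w6130 v11552 w1979 v11530 v2882 v7069 v339 w183 v11485 v3241 w1808 v8907 w1628 w1658 v4764 v3659 w877 v11556 v442 w4382 w314 v3642 v4680 w56 w1002 w992 w2485 w878 w5999 w4042 w4060 v4974 w6872 w3243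
theorem v11566 : PV l11566 := r11566 v7703 w2493 v5035 v5034 v4502 v10801 w102 w99 v11565 v3994 v3988
theorem v11567 : PV l11567 := r11567 v7703 v3008 v3029 v7840 v424 v418 v1210 v1209 v2992 v3012 v325 w2529 w2542 v11566 v11533 v9099
theorem v11568 : PV l11568 := r11568 v1209 v10801 v10751
theorem v11569 : PV l11569 := r11569 v7703 v3008 v325 w4574 v9776 v2574 v2591 v2582 w5825 v8185 v7840 v1210 v1209 v424 v3000 v3029 w8542 w5750 v11567 v11568 w35 v11533 v11534
theorem v11570 : PV l11570 := r11570 w1644 v11543 w1759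
theorem v11571 : PV l11571 := r11571 v7703 v1210 v5035 v5034 v4502 v10801 w102 w101 w120 w804 w853 w927 v11570 v3994 v3988
theorem v11572 : PV l11572 := r11572 v424 v418 v7703 v1210 v1209 v2992 v3012 v3008 v325 w2493 w2489 w2557 w2538 w2542 w2442 w2569 v11571 v9099 v9571 v11533 v8795 w4063
theorem v11573 : PV l11573 := r11573 v10394 v10395 v10393 v3927 w1160 v11466 v11371 v6818 v3933 w1132 w4574 v7703 v3008 v3031 v5412 w3489 v11305 v494 v490 v11519 w5457 v4664 v7840 v4663 w351 v5035 w305 w799 v4438 w771 v11453 w1159 w1152 w1569 w9087 w8504 w3478 w3781 v2998 w4546 v4850 w1970 v3032 w4472 v4909 v4908 v424 v418 w4492 v1210 v1209 v2674 v2673 w340 v3000 v4841 v3435 v3431 w352 v404 v2996 w1575 w1117 v325 w1939 v10914 v9776 v9725 w5825 w358 v2574 v2582 v2591 w6456 v5727 v3357 v4771 v4775 v11401 v11536 v11564 v11569 v11572 w2463 w2449 v11568 w35 v11534 v4763 v11533 v10724 w4241 v2772 v8212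
theorem v11574 : PV l11574 := r11574 v10394 v10395 v10393 v11466 v11371 v6818 v7703 v3008 v3031 v5412 w3489 v11305 v494 v490 v11519 w5457 v4663 v2998 v5035 w4546 v4850 v1210 v3000 v4841 v3435 v404 v3927 v325 w1160 v11573 w1975 v11386 v3357 v3384 v9714 v9219
theorem v11575 : PV l11575 := r11575 v3319 v7703 v2998 v5035 v11305 w4546 v4850 v1210 v1209 v11466 v11268 v11469 v501 v4083 v4775 v7971
theorem v11576 : PV l11576 := r11576 v10393 w1643 w876 w340 w102 v5034 v4526 v8634 w6478 w6731 v2559 v2562 v11371 v6818 v3933 w1914 v11492 v11551 v2882 v2886 v7069 v8053 v5068 v7770 v339 w180 v11485 w2450 v3303 v9194 w1609 w867 w6011 v3241 w1808 v8907 w1657 w4142 w4141 w4040 w4039 w4038 w4037 w4035 w1817 w1628 w1658 v4764 w1612 v3969 v3981 v4718 v4027 v3315 w877 v11556 w818 w2431 w822 v4078 w314 v11482 w56 w2435 w2576 v11506 w4169 w7019 w1097 w992 w878 w5999 w4042 w4060 v4974 w6863 w3243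
theorem v11577 : PV l11577 := r11577 v3240 w1816 v3241 w2010 v11521 w2812 v7877 v7111 v11559 v7941
theorem v11578 : PV l11578 := r11578 v10393 v10395 v7703 v2992 w2542 w2501 w2493 w4574 v3008 v3032 v11371 w4472 v4908 v1210 w351 v5035 w305 w799 v2674 v2673 v5034 v4502 v10801 v8064 v11576
theorem v11579 : PV l11579 := r11579 v10393 v7840 v424 v418 v11371 v2673 v7703 v3008 v325 w2442 v11578 v9099 v9571 v11524 w5950
theorem v11580 : PV l11580 := r11580 v10393 v10395 w4574 v8634 w6478 w6731 v2559 v2562 v7840 v7703 v3008 v3032 v11371 w4472 v4909 v4908 v424 v418 v1210 v1209 w351 v5035 w305 w799 v2674 v2673 w352 w1969 v6818 v3933 v325 w1939 v11577 v11551 v11579 v11568 v11480 v7814 v11524 v3308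
theorem v11581 : PV l11581 := r11581 v10393 v10395 w4574 v8634 w6478 w6731 v2559 v2562 v7703 v3008 v3032 v11371 w4472 v4909 v4908 v1210 v1209 w351 v5035 w305 w799 v2674 v2673 w1969 v6818 v3933 w1939 v11580 v11552 v11492 v11551 v2882 v2890 v7069 v339 w182 v11485 v8907 w388 v3241 w1808 v4764 v3659 w1817 w1815 w1986 v3315 w1098 v11556 v442 w1183 v4078 v3642 w992 w1167 w6976 w4852 w5821 v4974 w6863 w3243
theorem v11582 : PV l11582 := r11582 v4764 v4828 v8907 v3193 v439
theorem v11583 : PV l11583 := r11583 v10393 v7703 v1210 v5035 w305 w799 v11371 v2674 v2673 v6818 v3933 w1939 w1942 v11530 w2005 w2008 v2882 v2884 v2887 v2888 v2890 v7069 v339 w182 w388 v11582 v3315 w1098 v11550 v11556 w1183 v11485 v4078 v3241 w1808 v8907 w1817 w1815 w1986 v3662 v442 v3642 w992 w1167 w8912 w4852 w5821 v4974 w6863 w3243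
theorem v11584 : PV l11584 := r11584 v5035 w352 v7703 v3008 v325 v11552 v11577
theorem v11585 : PV l11585 := r11585 v10394 v10395 v10393 w4574 v11466 v7703 v11371 v6818 v3008 v3031 v5412 w3489 v11305 v494 v490 v11519 w5457 v4664 v4663 w351 v5035 w305 w799 v4438 w771 v11453 w1159 v3927 w1152 w1569 w9087 w8504 w3496 v2998 w4546 v4850 w1970 v3032 w4472 v4909 v4908 v1210 v1209 v2674 v3000 v4841 v3435 v3431 w1969 w1575 v3933 v11574 v3319 v11575 w1975 v11050 v8634 v2559 v10205 v501 w5488 v3374 v2562 v9437 v4771 v4775 v3478 v3484 w6478 w6731 v11584 v3384 v11583 v11581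
theorem v11586 : PV l11586 := r11586 v7703 v3000 v5035 v4841 v11305 v3435 v404 v3008 v325 w1160 v11516 v3357 v3384 w4903 v9725 v9769 v9219
theorem v11587 : PV l11587 := r11587 v10394 v10395 v10393 v11466 v7703 v11371 v6818 v3008 v3031 v5412 w3489 v11305 v494 v490 v11519 w5457 v4664 v4663 v11453 w1159 v3927 w1152 w1569 w351 v5035 w305 w799 v4438 w771 w8504 w3496 v2998 w4546 v4850 v3032 w4472 v4909 v1210 v2674 v325 w4574 v11585 v6221 v11586 v11575 v8634 v11511
theorem v11588 : PV l11588 := r11588 v3927 w1160 w340 v7703 v3008 v325 v10402 v10908 v8366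
theorem v11589 : PV l11589 := r11589 v10393 v11466 w5407 v11305 w5513 v11371 v2674 v6818 v3933 v3927 v5035 w1132 w1160 v11588 w1975 v9932 v8377 v4083 v9898
theorem v11590 : PV l11590 := r11590 v10393 v10395 v10394 v7703 v2998 v5035 v11305 w4546 v4850 v3008 v3032 v11466 v11371 w4472 v4908 v6818 v3031 v5412 v1210 v494 v490 w3489 v11519 w5457 v4663 v4664 v11587 w5513 v11589 v3319 v11374 v9222 v3374 v11268
theorem v11591 : PV l11591 := r11591 v10393 v10395 w351 v5035 w305 w799 v11466 v11371 v2674 v7703 v3008 v3031 w1159 v3927 w1152 w1569 v6818 v11453 v5412 v4438 w771 v11590 w8350 w8656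
theorem v11592 : PV l11592 := r11592 v10393 v7840 v3008 w2489 v8780 v8794 v8770
theorem v11593 : PV l11593 := r11593 v7840 v8794 v10751
theorem v11594 : PV l11594 := r11594 v10393 v3927 w1160 v4438 v8185 v2835 v390 v7703 v2996 w1152 v2707 v2591 w9147 v3491 v1127 v485 v642 w5756 w5775 v3500 w8994 w8832 w5005 v3764 v11592 v11593 v11499 v3308 v8870 v10724
theorem v11595 : PV l11595 := r11595 v10394 v10393 v3933 w1132 v5208 v390 v433 v1412 v7840 v5269 v7703 v3006 v2992 w1117 w1124 w1565 v3008 v5035 v3003 w3749 v2574 v2599 v4873 v4971 v4892 v8812 v8797 w6353 w4518 w4515 w4977 v3478 v3500 v8811 w8994 v8099 v11524 v8116 v8117 v3308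
theorem v11596 : PV l11596 := r11596 v10394 v3933 w1132 v5208 w3548 w3460 v2835 v433 v5269 v1412 v7703 v3007 v3006 v2992 v3008 v3026 w1159 v3927 w1152 w1575 w1117 v11595 v2582 v11594
theorem v11597 : PV l11597 := r11597 v10394 v10395 v10393 v3927 w1160 v7703 v11371 v6818 w1117 v3933 w1124 w1565 v8818 v4438 v433 v1412 v5208 w3460 v8185 v390 w351 v5035 w305 w800 w774 w799 v2674 v2673 w340 w358 w312 v11596 v3505 v485 w5333 v3491 w8373 w9147 v2574 v2707
theorem v11598 : PV l11598 := r11598 v10393 v4082 v4083 w9057 w3838 v4606 v8724 v3505 w5728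
theorem v11599 : PV l11599 := r11599 v10394 v10393 v10395 w358 v5035 v11305 v3435 v7703 v3000 v4841 v3927 w1160 v11386 w2393 v11466 v11371 v6818 w1117 v3933 w1124 w1565 w1939 w1969 w2364 v3431 v8818 v4438 v433 v1412 v5727 v5208 w3460 v8185 w3549 v2835 w351 w305 w799 w771 w340 w2367 w1159 w1152 w1569 v11453 w8799 w8917 v11597 w8906 w8905 v2707 w5756 v2574 w8373
theorem v11600 : PV l11600 := r11600 v433 v5269 v1412 v3007 v3006 v3008 v325 v11593 v11481 v418 v421 v8789 v8117 v9663
theorem v11601 : PV l11601 := r11601 v10393 v433 v1412 v7840 v5269 v7703 v3006 v3008 v11600 v1217 v3798 v421 w5820 v8793 v8794 v8085 v9202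
theorem v11602 : PV l11602 := r11602 v7117 v8870
theorem v11603 : PV l11603 := r11603 v11602 v4763 v8085 v8117 v8842 v8118 v5051 v4547 w3876 v4530 w3869
theorem v11604 : PV l11604 := r11604 v433 v1412 v7840 v5269 v7703 v3007 v3006 w2463 v3075 w2449 v11601 v11603 v8794 v8742
theorem v11605 : PV l11605 := r11605 v10393 v7703 w2493 v429 v433 v1412 v3006 v1145 v5035 v5034 v4502 v8794 v5068 v8787 w102 w804 v4059 w6456 v7827 w4069 v3988
theorem v11606 : PV l11606 := r11606 v10395 v10394 v10393 v3927 w1160 v11466 v11371 v6818 v3933 w1132 v5035 v11591 w4897 v5727 v7703 w1117 w1124 w1565 w1939 w1969 w2364 v11305 v3431 v1146 w4898 v501 v4770 v4775 v8818 v5208 w3549 v390 w351 w305 w799 v4438 w771 v429 v433 v1412 v7840 v4771 v5269 v404 v3357 v3007 v3006 v1145 v2674 v2673 w3478 v2992 w340 v3000 v4841 v3435 v3008 v3025 w1159 w1152 w1569 v11453 v11386 w2393 v8383 v11598 w358 v11599 w4979 w8504 w9087 w5494 w5840 v4891 v4892 v3478 v3484 v2574 v2707 v9435 w9147 v11604 w2489 w2442 v11592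 v11605 v8779 v8770
theorem v11607 : PV l11607 := r11607 v10394 v10393 w2393 v3933 w1132 v5208 w3549 w3548 v2835 v390 v4438 w771 v433 v1412 v7840 v5269 v3006 w1939 w2367 w2364 v11453 w8917 v2260 w5775 w8994 v1127 w8905 w9147 w6732 w3824 v2707 v2574 v2599 v8812 v8797 v3478 v3484 v3500 v3505 v8811 v8794 v11524 v8116 v8117 v3308
theorem v11608 : PV l11608 := r11608 v10395 v10394 v10393 v501 w4533 w4526 w5005 w5003 w4327 v3927 w1160 v11466 v11371 v6818 v3933 w1132 v5035 v5727 v7703 w1117 w1124 w1565 w1939 w2364 v11305 v3431 v4770 v4775 v8818 v5208 w3549 v390 w351 w305 w800 v4438 w774 w799 w771 v433 v1412 v7840 v4771 v5269 v404 v3357 v3006 v2674 v2673 w3478 v2992 w340 v3435 w1159 w1152 w1575 w1569 v3008 v325 v11453 w2393 v8383 v11598 w5819 w358 w312 v11607 w4979 w8504 w9087 w5494 w5840 v4892 v3478 v3484 v2574 v2707 v9435 w9147 v8793 v4763 v8794 v7772 v407 v8795 v8830 v409 v316 w2496 v8117 v4992 v8842 v3308 v4515 v2786 v4547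
theorem v11609 : PV l11609 := r11609 v10393 v10394 v11371 v6818 v8913 w5312 w5326 v8452
theorem v11610 : PV l11610 := r11610 v10393 v11371 v6818 w1117 v8185 v2674 v3933 w1116 w730 w699 v2269 w690 v11352 w336 w295 v2859 w3437 w3439 w3434 w3435 w3436 w3438 v5041 v376 v11609 w1473 v9427 w1454 w1459 w1466 v2305 v7060 v8406 v2309 w7922 w8251 w5654
theorem v11611 : PV l11611 := r11611 v10394 v10393 v10395 v11466 v11371 v7703 v6818 w1117 v3933 w1124 w1565 w1939 w2364 v8818 v5035 v5727 v5208 v3505 v3500 v2708 w1132 v4438 v1412 w3460 v8185 w3461 v390 w351 w305 w799 w771 v7840 v5269 v2674 v2673 w297 w340 w2367 w1116 w1159 v3927 w1152 w1575 w1569 v11453 w8799 w8917 v2260 w5775 w8994 v1127 w8905 v10528 v11610 w694 w714 v11123 v8910 v8915 w2339 v8922 v8919 v8318 v5102 v3236 w1899 v6954 v8918 v3238 w2229 w2399 w1077 w1079 v8431 v4965 v2766 w2708 w6507 w257 v10924 v8917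
theorem v11612 : PV l11612 := r11612 v10393 v10395 v5041 v11371 v6818 v3933 v325 w3414 v2322 v11609 v9427 v1279 v3017 w2845 w1927 v11203
theorem v11613 : PV l11613 := r11613 v4027 v4031
theorem v11614 : PV l11614 := r11614 v9432 v10828 v9817
theorem v11615 : PV l11615 := r11615 w1494 w7981 w7875 w2315
theorem v11616 : PV l11616 := r11616 v1071 w8651
theorem v11617 : PV l11617 := r11617 v10395 w708 w714 w275 v11614 w3756 w3846 w3429 v1698 w5694 w4760 w5735 v11616 w1452 w7981 v11615 w1090 w1927 w2339 w735 v9048 v4921 w7850 w271 w2716 w1096 w7717 v5881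
theorem v11618 : PV l11618 := r11618 v10393 v11371 v2674 v325 w2865 v3031 w730 v2269 w690 w336 w295 v5041 v11612 w3438 w3003 w3010 v11203 v10452 v9992 v2392
theorem v11619 : PV l11619 := r11619 v10393 v10395 v390 v11371 v6818 v3933 w1116 v476 w3414 w3406 v1698 w5304 w5315 w4760 w5735 w5319 v11616 w1452 w7981 w1090 w1927 w2339 v9048 v4921 v4626 v6194 v3228 w2716 v4808 w3427 v1705 v3606 w7717 v5881
theorem v11620 : PV l11620 := r11620 v10393 v11371 v4892 v6818 v3933 w1116 w1117 w708 w714 v11617 w275 v11619 w3039 v8445 w3756 w4760 v10930 w5735 v6194 w1454 w2402 w1112 w1911 v3866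
theorem v11621 : PV l11621 := r11621 w1959 w7872 w4669 v4456 v4455
theorem v11622 : PV l11622 := r11622 v10394 v3933 w1116 v11453 w1452 w1485 w1090 v11621 w1911 w2306 w8289 v3555 w8284 w5437 v8452
theorem v11623 : PV l11623 := r11623 v10395 v5041 v3933 v325 w3414 w3689 v2322 v11622 v9427 v1279 v3017 w2845 w1927 v11203
theorem v11624 : PV l11624 := r11624 v10393 v11371 v2674 v325 w2865 v3031 v6818 w730 v2269 w690 w719 v11618 w336 w295 v5041 v11623 w3438 w3003 w3010 v11203 v10452 v9992 v2392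
theorem v11625 : PV l11625 := r11625 w1465 v8399 w2269 w7981 v732
theorem v11626 : PV l11626 := r11626 w3756 w3754 v11625 v1071 w8345 v11616
theorem v11627 : PV l11627 := r11627 v9048 v4265
theorem v11628 : PV l11628 := r11628 v10393 v11371 v4892 v6818 w1117 v7703 v5035 w708 w694 w714 v11620 w275 v8915 w5591 v11626 v11614 v6194 w2402 w1911 v11627 v2832 v2986 v6565 v8445 v3866 w4760
theorem v11629 : PV l11629 := r11629 v5041 w3438 w3015 w3003 w3010 v11203 v3234 v10452 v2472 v3228 v8912 v2763 w4597 v3905 v3591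
theorem v11630 : PV l11630 := r11630 v10394 v10395 v10393 v7703 v11466 v11371 v6818 w1117 v3933 w1124 w1565 w1939 w1969 w2364 v11305 v3431 v11591 v1146 w4898 v501 v4770 v4775 v8818 v4438 v429 v433 v1412 v5035 w4897 v5727 v5208 w3460 v8185 w3549 w3461 v2835 v390 w351 w305 w799 w771 v7840 v4771 v5269 v404 v3357 v3007 v3006 v1145 v2674 v2673 w297 w3478 v2992 v3008 v325 w2865 v3032 v3031 w340 v3000 v4841 v3435 v494 w2367 w3573 v3025 v2996 w1159 v3927 w1152 w1575 w1132 w1160 v11606 v3763 v1218 v3797 w4327 w5003 w5005 v2752 v11608 w1941 w1975 v9303 v9611 v8906 v8903 v2707 v2708 v2586 w801 v485 v3478 v3484 w8879 v6022 v3500 v3505 v11611 w4979 w5791 v4891 v11628 w730 v2269 w690 w719 v11624 w336 w295 v11629 v11612 v11623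
theorem v11631 : PV l11631 := r11631 v10395 w3414 v1698 w3712 w4760 w5735 w5326 v11616 v11627 w1501 w7981 v4268 w1927 w2339 v4921 w7878 w2716 w278 v1705 w7717 v5881
theorem v11632 : PV l11632 := r11632 v10393 v11371 v6818 w1117 v3933 v476 v472 w708 w275 v11631 w3438 w3039 w3003 v8445 w4760 v10930 w5298 w5312 w1109 w1454 v5667 w1112 v2392 v3866 v4293
theorem v11633 : PV l11633 := r11633 w1452 v1278 w2257 w8283 w7958
theorem v11634 : PV l11634 := r11634 v10393 v11371 v6818 w1117 v3933 w1454 v9427 w1112 v9533 v10829 v3179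
theorem v11635 : PV l11635 := r11635 v2322 v11633
theorem v11636 : PV l11636 := r11636 v10393 v11371 v2674 v6818 v3933 w1116 w730 w690 w336 w295 v5041 v11634 v11635 w3438 w3003 w3010 v11203 v10452 v2472 v5870 w8075
theorem v11637 : PV l11637 := r11637 v10393 v11371 v6818 v3933 w1116 w1117 w1452 w1501 v11625 w1090 w3001 v9048 v3228 w1911 v3234 w2402 v1705 v10825 w278 w7878 w7775
theorem v11638 : PV l11638 := r11638 w3414 w3712 v11637 v1071 w8345 v11616
theorem v11639 : PV l11639 := r11639 v10393 w312 w8422 v7840 v11371 v2674 v2673 w305 v6818 w1117 v3933 v11636 w708 w694 v11632 w275 v11638 w3446 w3039 v8445 w4760 v10930 w5319 w1454 w1112 v6793 v3866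
theorem v11640 : PV l11640 := r11640 v476 v472 w3414 v1698 w3712 w4760 w5298 w5735 w5312 w5326 v11627 v3228 w1911 v4268 v3234 w2402 v3317 v4921 w7878 w2716 w278 v1446 v3590 v2490 v5881
theorem v11641 : PV l11641 := r11641 v10393 v11371 v6818 w1117 v3933 w3039 v8445 w4760 v10930 w1454 w1112 v3865 v3866
theorem v11642 : PV l11642 := r11642 w7878 w7775
theorem v11643 : PV l11643 := r11643 w1452 w1494 w1501 v11625 w1090 w3728 v9048 w1911 w2325 w2402 v11642 w809 w8068 w7733
theorem v11644 : PV l11644 := r11644 v10393 v11371 v3318 v6818 v3933 w1116 w1117 w708 w694 w275 v11641 w3414 w3712 v11640 v11643 v736 v1697 w8651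
theorem v11645 : PV l11645 := r11645 v4455 v4453
theorem v11646 : PV l11646 := r11646 v10395 v10394 v10393 v11371 v6818 v5208 v390 w3749 w1941 v3318 v4438 w1117 w3460 v8185 w3461 v7840 v2674 v2673 w305 w340 v3933 w1116 v11453 v5663 w358 w312 v2576 v3494 v7566 w8917 w8422 w4979 w5494 v4891 v4892 v3478 v11639 v11644 w730 w690 w336 w295 v5041 v11634 w1452 v11635 w1090 w3438 w3039 v11645 v3591 v3595
theorem v11647 : PV l11647 := r11647 v10395 w708 w275 w694 w3749 w1941 v11371 v3318 w358 w312 v2576 w8422 v11644 v11640 v11638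
theorem v11648 : PV l11648 := r11648 v11511 w6455
theorem v11649 : PV l11649 := r11649 v10393 v2576 v11371 v2674 v2673 v6818 w1117 v3933 w708 w275 v11647 w3446 w3039 v8445 v11641 w4760 v10930 w5319 w1454 w1112 v6793 v3866
theorem v11650 : PV l11650 := r11650 v10393 v5041 v11371 v6818 v3933 w1116 w1117 w3414 v11635 w1454 v9427 w1112 v10829 v4670 v3167 v4803
theorem v11651 : PV l11651 := r11651 w3010 w3018 w3003 w3438 v5041 v11629 v11203 v8914 v3234 w4598 v3605 v3892 v3891
theorem v11652 : PV l11652 := r11652 v11645 v3591 v3595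
theorem v11653 : PV l11653 := r11653 v10394 v10393 v7703 v3003 v4438 v11371 v6818 w1117 v5208 w3460 v8185 w3461 v390 w351 v5035 w305 w799 w771 v7840 v2674 v2992 v3008 v325 w2865 v3031 w340 w1939 v11646 v3473 w8905 v6221 v485 w4980 v4891 v4892 v11648 v2576 v11649 w730 w690 w336 w295 v11650 w3438 w3039 v11652 v10829 v4670 v3873 v3874
theorem v11654 : PV l11654 := r11654 v10393 v390 v485 v3494 v3491 v2576 v2563
theorem v11655 : PV l11655 := r11655 v10393 v10395 v11371 v6818 v3933 w1116 w1117 v476 v472 w1452 w1501 v11643 w1090 v1698 v9048 w4760 w5298 w5312 w7981 v4921 w1927 w2339 w2716 v11642 w278 v3590 v2490 w7717 v5881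
theorem v11656 : PV l11656 := r11656 v736 w8345 w8651
theorem v11657 : PV l11657 := r11657 v5663 w6363 w6455
theorem v11658 : PV l11658 := r11658 w3414 w3712 v11656 v11655
theorem v11659 : PV l11659 := r11659 v10395 v10393 w3749 w1941 v11371 v3318 v6818 w1117 v3933 v11453 v11657 w358 v2576 w8917 w4979 v4892 v11658 w3446 w3039 v8445 v11641 w4760 v10930 w5319 w1454 w1112 v3866 v6793
theorem v11660 : PV l11660 := r11660 v10395 v10393 w1941 v3318 v5732 v7566 v2563 v2576
theorem v11661 : PV l11661 := r11661 v11371 v11660 w340 w708 w694 w275 v11659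
theorem v11662 : PV l11662 := r11662 v10393 v10395 v5041 v11371 v6818 v3933 w3414 v2322 v11609 w1109 v1279 v9427 w1927 v3017 v4582 v10605
theorem v11663 : PV l11663 := r11663 v10394 v10395 v10393 v7703 v11466 v11371 v6818 w1117 v3933 w1124 w1565 w1939 w1969 w2364 v11305 v3431 v11591 v1146 w4898 v501 v4770 v4775 v8818 v4438 v429 v433 v1412 v5035 w4897 v5727 v5208 w3460 v8185 w3549 w3461 v2835 v390 w351 w305 w799 w771 v7840 v4771 v5269 v404 v3357 v3007 v3006 v1145 v2674 v2673 w297 w3478 v2992 v3000 v4841 v3435 w1159 v3927 w1152 w1575 w1569 v3008 v11453 v11630 v3319 v8730 w1975 v9437 v3003 v11654 v3500 v3505 v11653 v11660 v11657 v2576 v2597 w8917 w4979 v4891 v11661 w730 v2269 w690 w336 w295 v11662 w3438 w3039 v11652 v10829 v4670 v3179 v3874 v3873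
theorem v11664 : PV l11664 := r11664 v10393 v11466 v11371 v2673 v11305 v494 v490 v3431 v3927 v7703 v3008 v325 v11589 v8732 v8459
theorem v11665 : PV l11665 := r11665 v11305 v3927 v7703 v11591 v429 w4898 v1145 v433 v3007 v501 v1412 v5269 v4770 v4771 v11663 w5101 v11664 v3319 v8125 w1975 v11399
theorem v11666 : PV l11666 := r11666 v10395 v10393 v11371 v6818 v3933 v476 v472 v2702 v5411 v3797 w4315
theorem v11667 : PV l11667 := r11667 w1816 w2010 v11521 w2812 v7875 v7111 v8505
theorem v11668 : PV l11668 := r11668 v421 v418 v1210 v1209 v3008 v325 v11480 v11496 v8085 v7772 v9884 v9202 w3940 v4548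
theorem v11669 : PV l11669 := r11669 v2882 v339 v7840 v3074 w2478 w183 v11582 v11485 v8907 w1098 w1133 v11556 v3241 w884 w314 v11482 w2576 w2578 w2579 v4679 w4233 w4234 w6813 v4688 w1002 w992 w173 v3704 w1166 w365 w4387 v11549 v4974 w5822 w3243 w6872
theorem v11670 : PV l11670 := r11670 w351 v7703 v3008 v325 v5035 w1816 w2011 w2010 v11538 w2812 v7875 v7111 v8505
theorem v11671 : PV l11671 := r11671 v2882 v339 v1000 v6081 v3678 v4500 v4335 v4364 v4366
theorem v11672 : PV l11672 := r11672 w1454 v736 v650 w2257 w7940 w8346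
theorem v11673 : PV l11673 := r11673 v5825 w5964
theorem v11674 : PV l11674 := r11674 v11492 v2890 v11671 w182 v11582 v11485 w388 v3691 v3241 w1808 w5060 w1815 w1986 w6959 w6976
theorem v11675 : PV l11675 := r11675 w351 v7703 v3008 v325 v5035 v11674 w1816 w2011 w2010 v11538 w2812 v7875 v11559 v8505
theorem v11676 : PV l11676 := r11676 v8445 v9047 v10930 w8861
theorem v11677 : PV l11677 := r11677 v7703 v1210 v5035 w1979 v11530 v2882 v2890 v11671 v339 w183 w182 v11582 v11485 v8907 w388 w1098 v11556 v3241 w1808 v3662 w1183 w1815 w1986 v442 w4385 v3642 v4974 w1002 w992 w3243 w1167 w6872 w8912 w5821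
theorem v11678 : PV l11678 := r11678 v5035 w352 v7703 v3008 v325 v11667 v11670
theorem v11679 : PV l11679 := r11679 v421 v418 v325 v11480 v11533
theorem v11680 : PV l11680 := r11680 v421 v418 w6456 v7703 v1210 v1209 w1132 v7840 w351 v3008 v325 v5035 v11677 w1816 v11678 w2011 w2010 v11679 v11495 v11538 w2812 v7875 v11559 v8505
theorem v11681 : PV l11681 := r11681 v10393 v2882 v339 v11582 v11556 w1133 w1098 v11485 v8907 v3008 v325 v9776 w183 v3303 w1657 v5034 v4526 w1979 w1914 w1132 v7840 v10807 v11613 w1643 w1647 w1609 w2478 v7770 w6011 w1612 w1528 w887 v5808 w4142 w4040 w4039 w4037 v3969 w818 w825 w822 v11669 v11482 w2576 w2579 v4679 v11490 v2773 w4169 v4974 w7019 w3243 w1532 w1097 w6872 w992 w5822 w1166 v11549 w6975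
theorem v11682 : PV l11682 := r11682 w340 v7703 v2992 w5825 v3008 v325 v9776 w358 w1160 w2393 v2574 v2707 w9147 v11680 v421 v418 w6456 v1210 v1209 v7840 w351 v5035 v11668 v11678 v4502 v10801 v11568 v5068 w1979 v11492 w102 w2501 w2542 v2882 v2888 v2890 v2886 v11671 v339 w183 w182 w180 v11582 v11485 v8907 w388 w1098 v11556 v3241 w1808 w1183 w1815 w1986 w1985 v11681 v3659 v442 w4385 v3642 v4974 w1002 w992 w3243 w1167 w6872 w6976 w5821
theorem v11683 : PV l11683 := r11683 v10394 v10393 v7703 v3008 v325 v9776 w358 v3927 w1160 w2393 v2992 v11466 v11371 v4892 v2574 v2707 w9147 v421 v418 v1210 v1209 v6818 v5208 w3549 w5825 v3933 w1132 v7840 v4891 w340 v11305 v3435 v3431 w1969 w1159 w1152 w1575 w1158 v11680 v11682 v11675 v11495 v11480 v11496 v4763 v3954 v10731 w945 w928 v3308 w1644 v5817 v1074 w1760 w3944 v5043 v10776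
theorem v11684 : PV l11684 := r11684 v10393 w358 v426 v421 v418 v7703 v429 v1210 v1209 v7840 w340 w1969 v5035 v11668 v11678 v5034 v4502 v10801 v11568 v5068 w1942 v11492 v4526 w102 w804 v8778 w2501 w2442 v3303 v2882 v11671 v7827 v4059 v339 v8495 w1738 w5964 v3975 v11556 w1664 w1663 v2789 w314 v8702 w3917 w3909 w57 w2478 v3074 w2427 v4009 v4017 w877 w818 w822 v11482 w2435 w2576 w2578 v11554 v11555
theorem v11685 : PV l11685 := r11685 v3008 v325 v11480 v11496 v4763 v3954 v10731 w945 w928 v3308 w1644 v5817 v1074 w1760 w3944 v5043 v10776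
theorem v11686 : PV l11686 := r11686 v7840 v3074 w1942 v11492 w1664 w1663 v2882 v11671 v339 v8495 w1098 v11556 w877 w884 w314 w57 v1131 w2435 w2576 w2578 v11554 v11555
theorem v11687 : PV l11687 := r11687 v10394 v10393 w358 v426 v421 v418 v7703 v429 v1210 v1209 v11305 v494 v490 w4531 v11466 v11371 v6818 v5208 w3549 v7840 v4892 v4891 w340 v3435 v3431 w351 w1969 w1159 v3927 w1152 w1575 v3933 w1158 v3008 v325 v5035 v11684 v11685 v5034 v4502 v10801 v11568 v5068 v11495 v4526 w102 w804 w2501 w2442 v3303 v4059 v7827 v11673 w1738 v3975 v2789 v8702 w3917 w3909 w2478 v3074 w2427 v4009 v4017 v3956 w818 w825 v11686 w1816 w2011 w2010 v11538 w2812 v7875 v8505 v3680 v3672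
theorem v11688 : PV l11688 := r11688 v10393 v7703 v3008 v325 w4575 v9776 w358 v3927 w1160 w2393 v2992 v11466 v11371 v4892 v2574 v2707 w9147 w6456 v429 v1210 v1209 v11305 v494 v490 w4531 v426 w5825 v6818 v3933 w1132 v7840 v4891 v3012 w340 v3435 v3431 v5035 w352 v2996 w1159 w1152 w1575 w1939 v11683 v11687 v11679 v11568 w2493 w2557 w2538 w2542 w2569 v11571
theorem v11689 : PV l11689 := r11689 v10393 v5068 v3303 w1657 v5034 v11485 v3241 v2882 v339 v11556 w1979 v10807 v11613 v6709 w1643 w1644 w1647 w1609 v3074 w2427 v2777 v7770 w1751 w1612 v4017 w1528 w887 w818 v5808 w822 w4035 v11482 w2435 w2576 v4679 w4361 v3642 w1002 w992 w878 w5999 w4042 w4060 v4974 w6872 w3243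
theorem v11690 : PV l11690 := r11690 v3241 v3659 v442 v3642 w1002 w992 w1167 w6976 w4852 w5821 v4974 w6872 w3243
theorem v11691 : PV l11691 := r11691 w4258 v7703 v1210 v1209 v5035 v4502 v10801 v11568 w102 w56 w2542 v11689
theorem v11692 : PV l11692 := r11692 w4258 w6456 v7703 v1210 v1209 w1132 v7840 w351 w1969 v3008 v325 v5035 v11678 w1979 v8594 v2882 v2890 v11671 v339 w183 w182 v11582 v11485 v8907 v11556 w388 w1098 v3241 w1808 w314 w1183 w1815 w1986 w1985 v11690 v11691 v11480 v9575 v9884 v4551 w2450 v5957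
theorem v11693 : PV l11693 := r11693 v10394 v10393 v1246 w4258 v418 v7703 v1210 v1209 v11466 v11371 v6818 v5208 w3549 v3933 w1132 v7840 v3000 v5035 v4841 v11305 v3435 v3431 w1969 w1159 v3927 w1152 w1575 w1158 v3008 v325 v11692 v11675 v11495 v11480 v4763 v3954 v10232 w945 w928 v3308 w1644 v5817 v1074 v11499 w1760 w3944 v5043 v10776
theorem v11694 : PV l11694 := r11694 w6456 v7703 v1210 v1209 w1132 v7840 w351 w1969 v5035 v11678 w1979 v11530 v2882 v2890 v11671 v339 w183 w182 v11582 v11485 v8907 v11556 w388 w1098 v3241 w1808 w314 w1183 w1815 w1986 w1985 v11690 v11691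
theorem v11695 : PV l11695 := r11695 v10393 v421 v418 v7703 v1210 v1209 v7840 v11305 v3435 v3431 w1159 v3927 v11466 v11371 w1152 w1575 v6818 v3933 v3008 v11693 v11679 v5034 v10801 v11568 v5068 v4526 w2501 w2442 v3303 v4062 w4091 v3966 w947 v11694 v11673 w6366 w4035 w1647 v5808
theorem v11696 : PV l11696 := r11696 v10393 v429 w4258 w358 v7703 v1210 v7840 w340 v3008 v5035 v5034 v4502 v10801 v11568 v5068 v4526 w102 w99 w804 v8778 w2501 w2489 w2529 v3303 v7827 v4059 v8702 w1738 v3996 v3975 w4091 w2427 w4122 v3966 v11686 w6243 w6309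
theorem v11697 : PV l11697 := r11697 v429 w4258 v426 v421 v418 v7703 v1210 v1209 w1969 v3008 v325 v11678 v11696 v11480 v9575 v9884 w2493 v4551 v9705
theorem v11698 : PV l11698 := r11698 v11697 v426 v421 v418 v7703 v429 v1209 v7840 w340 w351 w1969 v3008 v325 v5035 v11696 v11495 w1816 w2011 w2010 v11538 w2812 v7875 v8505 v3680 v3672
theorem v11699 : PV l11699 := r11699 v10394 v10393 w4251 v429 w4258 v426 v421 v418 v7703 v1210 v11305 v494 v490 w4531 v11466 v11371 v6818 v5208 w3549 v4892 v3481 v3484 v3478 v7840 v4891 v3435 v3431 w1159 v3927 w1152 w1575 v3933 w1158 v3008 v325 v11697 v11698 v11480 v4763 v3954 v10232 w945 w928 v3308 w1644 v5817 v1074 v11499 w1760 w3944 v5043 v10776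
theorem v11700 : PV l11700 := r11700 v10394 v10393 v11466 v11371 v6818 v476 w1939 w1969 w2367 w351 v5035 v7703 v3008 v3025 v11666 w305 w799 w3478 w1159 v3927 w1152 w1575 v11665 w8658 w1160 v2674 v9725 v503 w5480 w5492 v8383 w5825 w5472 v8848 v5727 v5208 v4663 v3505 v3500 v2992 w4977 v4892 v3481 v3484 v3478 w3556 v4775 v4771 v404 v3357 w2393 w1970 v3933 w1132 v7840 v4891 v2673 v3012 w340 v3000 v4841 v11305 v494 v490 v3435 v3431 w352 v2996 v325 v426 v429 w4531 w4575 v1209 v1210 v9776 w6456 v11586 w358 v2574 v2707 w9147 v1127 v642 v11688 w4251 v11695 v11699 v11679 v11568 w2493 w2557 w2538 w2542 w2569 v11571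
theorem v11701 : PV l11701 := r11701 v10393 v7703 v1210 v5035 v4502 v10801 v11568 v5068 w804 v8778 w2501 w2569 v8702 v8687
theorem v11702 : PV l11702 := r11702 v4763 v3006 v433 w2493 w2442 v9571 w5950 w4067 w3888 v7859 v9705 v4701
theorem v11703 : PV l11703 := r11703 v7703 v3006 v5035 v404 w1160 v9725 v3357 v5727 v8383 w2393 v7840 v11305 v3435 v3431 v3008 v325 v424 v1210 w4574 w4244 v2768 v418 v11516 v9776 w6456 w4246 w358 v2574 v2707 w9147 v11701 v11480 v4763 v11702 w2463 w2449 v7814 v8269 v8118 v8164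
theorem v11704 : PV l11704 := r11704 v10393 v7703 v5035 v5034 v4502 v8794 v11593 v4526 w102 w804 v8778 w2501 v5068 v7827 v4059 v3975 w4079
theorem v11705 : PV l11705 := r11705 v7840 v3008 v421 v2769 v11534 v9575 v11702
theorem v11706 : PV l11706 := r11706 v11602 w2442 v8779
theorem v11707 : PV l11707 := r11707 v7772 v3006 v11705 v9202 v8830
theorem v11708 : PV l11708 := r11708 v10393 v7703 v1146 v3006 v433 w2393 v3927 w1160 v11466 v11371 v6818 v3933 w1132 v7840 w340 v11305 v3435 v3431 w1969 v3000 v3008 v3025 v2996 w1158 v325 w5819 w5820 v9776 w6456 v3764 w358 v2574 v2707 w9147 v11704 w35 v11706 v3954 v8085 v9884 w1597 w945 v3307 v11707 v3308 w1763 w1766 v9733 v5808 v4547 w4036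
theorem v11709 : PV l11709 := r11709 v10393 w4571 w4573 v433 w358 v8843
theorem v11710 : PV l11710 := r11710 v10393 v8794 v8864
theorem v11711 : PV l11711 := r11711 v8085 v7772 v7200 v8830 v3074 w2449 v9202 v11603
theorem v11712 : PV l11712 := r11712 v10393 v7703 v1146 v3006 v433 w2393 v3927 w1160 v11466 v11371 v6818 v3933 w1132 v7840 v2992 v11305 v3435 v3431 v5035 v11708 w4573 w4571 v11709 v4083 v4606 w3838 v3003 w8998 v11710 v11711 v7909 v11706
theorem v11713 : PV l11713 := r11713 v10393 v11371 v6818 v3933 w1132 v8874 v8864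
theorem v11714 : PV l11714 := r11714 v10394 w853 v7909 v9395 v11602
theorem v11715 : PV l11715 := r11715 v10394 v10393 v7703 v3927 v3000 v5035 v4841 v2992 v11466 v11371 v3008 v3025 v11666 v2673 v2674 v11665 w1939 w1969 w2367 w351 w305 w799 w3478 w1159 w1152 w1575 w8658 w4977 v4891 v4892 v6818 v3933 w1132 w1160 v8383 w5825 v4771 v4775 v9725 w5492 v3481 v3478 v3484 v476 v503 w5480 w5472 v8848 v5727 v5208 v3505 v4663 v11700 v11703 v1146 v3006 v433 v3500 w5838 v404 v3357 w2393 v7840 v3032 v3012 v11305 v3435 v3431 v325 v11712 v9435 v11586 v3003 v2574 w4573 w4571 w6497 v11713 w26 v11714 v8085 v7772 v3303 v7200 v8830 v3308 v4535 v9202 v4547 v7199 v2786 w3888 w6151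
theorem v11716 : PV l11716 := r11716 v7909 v11706
theorem v11717 : PV l11717 := r11717 v10394 v10393 v11466 v11371 v6818 v476 w1939 w1969 w2367 w351 v5035 v7703 v3008 v3025 v11666 w305 w799 w3478 w1159 v3927 w1152 w1575 v11665 w8658 w1160 v2674 v9725 v503 w5480 w5492 v8383 w5825 w5472 v8848 v5727 v5208 v4663 v3505 v3500 v2992 w4977 v4892 v3481 v3484 v3478 v4775 v4771 w5838 v404 v3357 w2393 v3933 w1132 v7840 v4891 v2673 v3012 v3000 v4841 v11305 v3435 v3431 v11700 v433 v3006 v11703 v1146 v11715 v1218 v3797 v421 w4315 w4511 w5820 v11709 v4083 v4606 w3838 v3003 w8998 v11713 v11716 v7772 v8830 v3075 v8117 v8842 v3308 v2790 v2786 v7199 v5823 v1074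
theorem v11718 : PV l11718 := r11718 w1647 v11541
theorem v11719 : PV l11719 := r11719 w1942 v11492 w2005 w2008 v2884 v2887 v2888 v11671 v11582 v11550
theorem v11720 : PV l11720 := r11720 v8505 v7842
theorem v11721 : PV l11721 := r11721 w351 v7703 v3008 v325 v5035 w1816 w2011 w2010 v11538 w2812 v7111 v11720
theorem v11722 : PV l11722 := r11722 v8155 v8148 w8404 w8908 w1731 w1762 v11718 w1738
theorem v11723 : PV l11723 := r11723 v10393 v7703 v1145 v1276 v5272 v7840 v2992 v11371 v4892 v4891 v3012 v3011 w340 w351 v5035 w352 w1969 v2996 v6818 w1117 v3933 v3008 v325 w1939 v4502 v10801 v10813 v11568 w100 w99 w120 w853 w2557 w2533 w2529 w2442 w922 w927 v11722 v11719 w1816 v11721 w2011 w2010 v11538 w2812 v7941 v11720 v11559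
theorem v11724 : PV l11724 := r11724 v7840 v8085 v7772 v9884 v9202 w3938 w2450 v5957
theorem v11725 : PV l11725 := r11725 v426 v7840 v3008 v11716 v11679 v4763 v3954 v11685 w945 w928 v2767 w4251 v1246 v11724 v10232 v3308 w1644 v5817 v1074 v11499 w1760 w3944 v5043 v10776
theorem v11726 : PV l11726 := r11726 w1942 v11492 w2005 w2008 v2884 v2887 v2888 v11671 v8495 v11550
theorem v11727 : PV l11727 := r11727 v10393 w358 v7703 v1145 v1276 v5272 v7840 v2992 v11371 v4892 v4891 v3012 w340 w351 v5035 w352 w1969 v2996 v6818 v3933 v3008 v325 w1939 v10813 v11568 v11723 w2493 w2557 w2538 w2542 w2569 v11571 v11726 w1816 v11721 w2011 w2010 v11538 w2812 v7941 v11720 v3680 v3672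
theorem v11728 : PV l11728 := r11728 v10394 v10393 v11466 v476 v11371 w1939 w1969 w2367 w351 v5035 v7703 v3008 v3025 v11666 w305 w799 w3478 w1159 v3927 w1152 w1575 v11665 w8658 w1160 v2674 v9725 v503 w5480 w5492 v8383 w5825 w5472 v8848 v4438 v6818 w1117 v5727 v5208 w3460 v8185 v4663 v3505 v3500 w3549 v2992 w4977 v4892 v3481 v3484 v3478 w3556 v4775 v4771 v404 v3357 w2393 w1970 v3933 w1132 v7840 v4891 v2673 w340 v3000 v4841 v11305 v3435 v3431 w1158 v325 v11717 v5272 v1276 v1275 v5776 v1145 v3794 w4571 v9776 w6456 v11586 w358 v2574 v2707 w9147 v1127 v642 v11727 v11716 v11725 v4763 w4252 w4244 v11702 w2463 w2449 v10724 v8212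
theorem v11729 : PV l11729 := r11729 w1979 v11492 v2882 v2890 v11671 v339 w183 w182 v11582 v11485 v8907 v11556 w388 w1098 v3241 w1808 w1183 w1815 w1986 v11690
theorem v11730 : PV l11730 := r11730 w351 v7703 v3008 v325 v5035 w1816 w2011 w2010 v11538 w2812 v7875 v11720 v11559
theorem v11731 : PV l11731 := r11731 v7703 v1210 v1209 w351 v5035 v11730 w1979 v11729 v11677 v11530 w4091 v2882 v2890 v11671 v3966 v339 w183 w182 v11582 v11485 v8907 w877 v11556 w388 v3241 w1808 w940 w1815 w1986 v11690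
theorem v11732 : PV l11732 := r11732 v10393 w358 v7703 v3008 v3030 v421 v418 w6456 v3007 v429 v1210 v1209 v11371 v6818 v3933 w1132 v7840 v4892 v4891 w340 w351 v5035 w352 w1969 v2996 v325 w1939 v5034 v4502 v10801 v11501 v11568 v4526 w102 w804 w853 w2493 w2501 w2557 w2538 w2542 w2442 w2569 v5068 w927 v3303 v4059 v11731 v7827 v11571 w1738 w5964 v3975 v2789 v8702 w3917 w3909 w2478 v3074 w2427 v4009 v4017 v3956 w818 w825 v11686 w1816 w2011 w2010 v11538 w2812 v2868 v7875 v11720 w313 v11562 w384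
theorem v11733 : PV l11733 := r11733 v10395 v4763 v3008 v3030 v421 v418 w2493 w2524 w2442 v9571 w5950 w6015 w1642 v5817 v9745 w8329 w3938 w4121 v4548 v4701
theorem v11734 : PV l11734 := r11734 v10393 v7703 v3008 v325 v3007 w4575 v9776 w358 w1160 w2393 w9066 w9147 v429 v1210 v1209 v3030 v421 w5825 v7840 v11371 v4892 v4891 v5035 w305 v3000 v476 v472 v11732 w35 w26 v11534 v3963 v11533 v11733 v3075 v5045 v4535 v4533
theorem v11735 : PV l11735 := r11735 v10393 w351 w1969 v11371 v6818 v3933 v7703 v3008 v325 v5035 w1939 v11719 w1816 w2011 w2010 v11538 w2812 v11720 v11559 v8313 v7941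
theorem v11736 : PV l11736 := r11736 v10393 w358 v7703 v3008 v3030 v421 v418 v3007 v429 v1210 v1209 v7840 v2992 v11371 v4892 v4891 w351 w799 v3012 v3011 w340 v5035 w352 w1969 v2996 v6818 w1117 v3933 v325 w1939 v4502 v10801 v11501 v11568 w100 w99 w120 w853 w2557 w2533 w2529 w2442 w922 w927 v11722 v11735 v11726 w1816 w2011 w2010 v11538 w2812 v2868 v11720 w313 w384 v11562 v8313 v7941
theorem v11737 : PV l11737 := r11737 v10393 v10394 w1970 v3927 w1160 v11466 v11371 v6818 v3933 w1132 v7840 v7703 v2992 w1939 w1969 w2367 w351 v5035 v3008 v3025 v11666 w305 w799 w3478 w1159 w1152 w1575 v11665 w8658 w4977 v4892 v4891 v2674 v2673 v3031 v3012 w340 v3000 v4841 v11305 v3435 v3431 v404 w1117 v476 v472 v325 w2393 v9725 v8383 v503 v5727 v3357 w5492 w5825 w5480 v3481 v4771 v4775 w5472 w3556 v3478 v3484 v8848 v4438 v5208 w3460 v3500 v3505 v4663 v8185 v11728 v3007 v3030 v429 w4575 v421 v1209 v1210 v9776 w6456 v11586 w358 w9066 w9147 v1127 v642 v11734 v11736 w35 w26 v11534 v4763 v3963 v11533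 v11733 w2449 v10724 v5051 v8661 v4542
theorem v11738 : PV l11738 := r11738 w1975 v404 v11386 v8905 v3357 v4083 w5823 v8384
theorem v11739 : PV l11739 := r11739 w3464 w3414 v2322 v11609
theorem v11740 : PV l11740 := r11740 v10393 v11371 v2674 v6818 v3933 w1116 w730 v2269 w690 w336 w295 v5041 v11634 w1452 w1090 v11739 w3446 w3039 v8403 w4760 w5319 v4453 v3559
theorem v11741 : PV l11741 := r11741 w688 w694 v8441 w714 v11614 w3756 w3757 w3754 w3752 w3846 v1698 w5694 v11672 w7981 v11615 w1465 w2269 w2339 w735 w7897 w7850 v2306 w1534 w5655 v618 w8231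
theorem v11742 : PV l11742 := r11742 v10393 v10394 v11371 v6818 w5312 w5326 v8452
theorem v11743 : PV l11743 := r11743 v10393 v10395 v11371 v6818 w1117 w1465 v5041 w3464 w1152 w3414 w3689 v2322 v11742 w8284 w2315 w2269 v8449 v2277 w5693 w8044 w8203 w3728
theorem v11744 : PV l11744 := r11744 v10393 v11371 v2674 v6818 v3933 w1116 w730 v2269 w725 w690 w719 v11740 w336 w295 v5041 v11634 w1452 w1494 w1090 v11743 w3446 w3039 v8403 w4760 w5319 v4453 v3559
theorem v11745 : PV l11745 := r11745 v10393 v10395 v11371 v6818 v3933 w1116 w1117 v2322 v1698 w4760 v11672 w7981 w1452 w1927 w2306 w2339 w1090 w1959 v6194 v4921 w3427 w7850 w2716 v4628 w1096 w7717 v5881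
theorem v11746 : PV l11746 := r11746 v10393 w714 w688 v11371 v6818 v3933 w1132 v7840 w1939 w1969 w2367 w1117 v11453 v8441 v11741 w5594 v11745 w3039 w3756 v8445 v6194 w4760 v10930 w2402 w1454 w1911 w1112 v3866
theorem v11747 : PV l11747 := r11747 w3756 w3757 w3754 v11625 v736 w8345 v11672
theorem v11748 : PV l11748 := r11748 v5674 w1095 v3866 w4932 w8890 w8114
theorem v11749 : PV l11749 := r11749 v10393 v11371 v6818 v3933 w1132 w4977 w1117 w708 w688 w694 w714 w275 v11746 v8397 v11747 v11614 v6194 w2339 w2402 w1911 v11748 w3040 w3034 w3033 v1697 v11625 v11672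
theorem v11750 : PV l11750 := r11750 v10393 v10395 v5041 v11371 v6818 v3933 v11739 w1109 v1279 v9427 w1927 w2845 v5667
theorem v11751 : PV l11751 := r11751 v10393 v11371 v6818 v3933 w1116 w1452 v8403 w1090 w4760 v3591 v4453
theorem v11752 : PV l11752 := r11752 v10393 v11371 v6818 w1117 v3933 w3438 w3039 w3015 w3003 w3756 v8391 w5594 v11751 w1109 w1454 v5667 w1112 v3905 v3904
theorem v11753 : PV l11753 := r11753 w1494 v11743
theorem v11754 : PV l11754 := r11754 v10393 v10395 v11466 v11371 w1939 w1969 w2367 w351 v5035 w305 w799 w1159 v3927 w1152 w1575 w8658 w4977 v7703 v1210 w4718 v5460 w771 v2708 w3464 v429 v3006 w4719 v1146 w800 v2674 v2673 v2992 v3008 v325 w2865 v3032 v3011 v6818 v3933 v11749 w730 v2269 w725 w690 w719 v11744 w336 w295 v5041 v11752 v11750 v11753 w1109 v1279 v9427 w1927 w2845 v5667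
theorem v11755 : PV l11755 := r11755 v10394 v10393 w1939 w1969 w2367 w351 v5035 w305 w799 w1159 v3927 v11466 v11371 w1152 w1575 w8658 w4977 v7703 v1210 w4719 v6818 w1117 v5208 w3460 v3500 v8185 v11754
theorem v11756 : PV l11756 := r11756 v10395 v10394 v10393 v7703 v5035 v11305 v3435 v3000 v4841 v3927 w1160 v11738 v1210 v429 v3007 v11466 v11371 v6818 v3008 v3031 v3025 v3797 w4315 v5413 w1939 w1969 w2367 w351 v11666 w305 w799 w3478 w1159 w1152 w1575 w8658 w4977 w4719 v9285 v3374 v5208 v3505 w4819 w8374 w9074 w1975 v3384 v8906 w801 v9611 v2707 v494 v490 w4544 v5269 w4999 w1941 v3431 v9303 w5841 w8879 v11755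
theorem v11757 : PV l11757 := r11757 v10393 v3927 w1160 v7703 v2992 v11466 v11371 w1939 w1969 w2367 w351 v5035 v3008 v3025 v11666 w305 w799 w3478 w1159 w1152 w1575 v11665 w8658 w4977 v4892 v4891 w297 v3031 w340 v3000 v4841 v11305 v3435 v2996 v6818 v11737 v11738 v1210 v3797 v3763 v9285 w4718 w4315 w4830 v501 v3481 v5413 v4775 v4438 v4771 v11756 v5776
theorem v11758 : PV l11758 := r11758 v4850 v4846
theorem v11759 : PV l11759 := r11759 v3319 v5035 v7703 v2998 v11758 v11305 v3431 v11466 w2393 v11268 v8144 v501 v3374 v4775 v7919 v4083 v2619 w9122 v2707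
theorem v11760 : PV l11760 := r11760 v4083 w8891 v2707 w3242 v2576 v6140
theorem v11761 : PV l11761 := r11761 v10393 v3241 w1817 w1098 v3315 v5068 v3303 w1657 w1914 w2501 w876 v5034 v4526 v10807 v9190 v11613 w1643 w1644 w1609 w4142 w4039 w4037 w4035 w2427 v7770 w1751 w1612 v3969 w6011 w887 w818 w822 v11482 w2576 w2435 v11506 w4169 w7019 w1097 w992 w878 w5999 w4042 w4060 v4974 w6863 w3243
theorem v11762 : PV l11762 := r11762 v11492 v11530
theorem v11763 : PV l11763 := r11763 v7703 v2992 v7840 w4574 v3008 v325 v11511 v11568 w2542 w340 v5035 v4502 w102 v10801 w6478 w6731 v424 v418 v1209 w351 w1969 v11678 v11762 v2882 v2890 v2886 v11671 v339 w182 w180 v11582 v11485 v11556 w388 v3315 w1098 v3241 w1808 v8907 v4078 w314 w1183 w1817 w1815 w1986 w1985 w56 v11761 v3659 v442 v3642 w992 w1167 w6976 w4852 w5821 v4974 w6863 w3243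
theorem v11764 : PV l11764 := r11764 v10394 v10393 w4574 v5035 v7703 v3000 v4841 v11466 v11371 v3008 v3025 v11666 v2674 v3319 w1975 v424 v418 v11760 w358 w6478 w6731 v3006 v325 v11511 v11305 w4529 v1209 v6818 v5208 w3549 v2998 v11758 w1970 v7840 v2992 v4892 v4891 v2673 v3435 v3431 w1969 w1159 v3927 w1152 w1575 v3933 w1158 v11725 v10801 v11568 w876 w2442 v5068 w2569 v3303 v3099 v11763 v11673 w4035 v9189 w6261 w5913 v11675
theorem v11765 : PV l11765 := r11765 v10394 v10393 w5824 v3384 v11466 v11371 v6818 v476 w1939 w1969 w2367 w351 v5035 v7703 v3008 v3025 v11666 w305 w799 w3478 w1159 v3927 w1152 w1575 v11665 w8658 w5475 w5483 w5472 v8848 v5208 v4663 v3505 v3500 v2992 w4977 v4892 v3481 v3484 v3478 v2998 v11758 v4775 v4771 v11757 v11759 w1975 v3319 v2674 v3000 v4841 v404 v424 v418 v11760 w358 w8977 w3838 v9437 v11764 v2562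
theorem v11766 : PV l11766 := r11766 v7703 v5035 v4502 v8794 v11593 w804 w876 v5068 w2569 v8132 v3303 v3099
theorem v11767 : PV l11767 := r11767 v7840 v7703 v11766 v11716 v7772 v8830 w2463 v3075 w2449 v11603
theorem v11768 : PV l11768 := r11768 v10393 w1975 v9437 v7703 v3003 v11657 v2597 v3008 v325 v5035 v5034 v4502 v8874 v10807 v4526 w804 w876 v1073 v3095 w2568 v9527 v8132 v5068 v3099 v3075 v8686
theorem v11769 : PV l11769 := r11769 w1975 v9437 v7703 v3003 v11657 v2597 v2576 v7840 v11767 v11768 v11716 v4763 v7772 v9884 v8830 v3075 w2449 v4547 v8842 v5051 w3907 w3896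
theorem v11770 : PV l11770 := r11770 v5068 w2569 v3303 v8132 v3099
theorem v11771 : PV l11771 := r11771 v10393 v7703 v3003 v429 v3006 v5035 v5034 v4502 v8874 v4526 w804 w876 v11770 v3075 v8686 v3099 v6709 v8132 w4089 v8863 v3052 v3308 v3974
theorem v11772 : PV l11772 := r11772 v10394 v10393 v11466 v11371 v6818 v476 w1939 w1969 w2367 w351 v5035 v7703 v3008 v3025 v11666 w305 w799 w3478 w1159 v3927 w1152 w1575 v11665 w8658 w5475 w5483 w5472 v8848 v5208 v4663 v3505 v3500 v2992 w4977 v4892 v3481 v3484 v3478 v2998 v11758 v4775 v4771 v11757 v11759 w1975 v3319 v7840 v2674 v2673 v3012 v3000 v4841 v11305 v3435 v3431 v404 w5824 v3384 v11765 v429 v1146 v3006 v3007 v9437 w3838 v3003 w8977 v11657 v11760 v2576 v2597 v418 v421 v11769 v3798 w4315 v11771 v11716 v8085 v7772 v3303 v8830 v3075 v4547 v8842 v2786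
theorem v11773 : PV l11773 := r11773 v7703 v3008 v325 w5017 v8636 v10205 v11511
theorem v11774 : PV l11774 := r11774 v5035 v7703 v2998 v11758 v11757 v3319 v11759 w1975 v11773 w5825 w5824 v11772 v3374
theorem v11775 : PV l11775 := r11775 v10393 w2493 w876 v5034 v5272 w4571 v10807 w1643 v3989 w6312 w4138 w4140 w944 w6279 v9189 w2390
theorem v11776 : PV l11776 := r11776 v10395 v10394 v10393 v5035 v7703 v2998 v11758 v11757 v3319 w1970 v7840 v2992 v11466 v11371 w1939 w1969 w2367 w351 v3008 v3025 v11666 w305 w799 w3478 w1159 v3927 w1152 w1575 v11665 w8658 w4977 v4892 v4891 v2674 v2673 v3031 v3012 v3011 w340 v3000 v4841 v11305 v3435 v3431 w352 v3026 v2996 v6818 v3933 w1124 w1117 w1158 v325 v11774 v5272 v1275 v1145 v3794 w4571 v1217 v5412 v11575 v4438 w1975 v11773 w5825 w5824 w5823 v11760 v4771 v4775 w5475 w5483 w5472 v3374 v3384 w358 v3501 v3481 v11511 w3460 w3549 v3500 v3505 v4663 v3478 v3484 v5663 v8185 v2562 v9437 v3006 w6478 w8542 w6731 v11725 v5034 v4502 v10801 v11568 w102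 w100 w99 w123 w120 w119 w853 w876 w2493 w2557 w2554 w2563 w2533 w2529 w2542 w2569 w922 w927 v8148 v8155 w4183 w4184 v11775 v11735 w8404 w8908 w1731 w1762 w6309 w1738 w942 v3989 w4134 w4140 w6278 w2391 w5913 w6261
theorem v11777 : PV l11777 := r11777 v5035 w2393 v8144 v8729 v4083 v2619 w9122 v2707
theorem v11778 : PV l11778 := r11778 v3008 w2501 w2489 v8857 w2569 v3303 v8132 v3099
theorem v11779 : PV l11779 := r11779 v7840 v7703 v5035 v5034 v4502 v8794 w804 w876 v11778 w2463 v3075 w2449 v8824 v8686 v8661 v1073 v8685 v8851 v3308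
theorem v11780 : PV l11780 := r11780 v11716 v7772 v8830 v3075 v8117 v4547 v8842 v2786
theorem v11781 : PV l11781 := r11781 v10394 v10393 v5035 v7703 v2998 v11758 v7840 v2992 v11466 v11371 w1939 w1969 w2367 w351 v3008 v3025 v11666 w305 w799 w3478 w1159 v3927 w1152 w1575 v11665 w8658 w4977 v4892 v2674 v2673 v3031 v3012 v3000 v4841 v11305 v494 v490 v3435 v3431 v404 v6818 v11757 v3319 v11776 v1210 v1218 v5776 v3797 v429 w4897 w4898 v1146 w4719 w4718 v421 w4544 w4315 v3006 v3007 v5727 v3357 v501 v3481 v5269 v5413 v5208 v4771 v4775 v3478 v3484 v3500 v3505 v11777 w1975 v11773 v9437 w3838 v3003 w8977 v11657 v2576 v2597 v11780 v5034 v4502 v8874 v4526 w804 w876 v11778 v3075 v8686 v3099 v6709 v8132 w4089 v8863 v3052 v3308 v3974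
theorem v11782 : PV l11782 := r11782 w340 w2393 v10402 w358 v8366 v7708 w9066 w9147
theorem v11783 : PV l11783 := r11783 v11305 w5513 v494 v7703 v3008 v325 v5035 v11782 w1975 v9932 v4082 v4083 v10401 v9898 v4602
theorem v11784 : PV l11784 := r11784 v10393 v11466 v11781 w5407 v5035 v7703 v2998 v11758 v11371 v3008 v3025 v11666 v2674 v2673 v11305 v494 v490 v3431 v6818 v3933 v3927 w1132 w1160 v11783 v1210 v3797 v429 w4897 w4898 w4544 v3007 v5727 v501 v5269 v8734 v4771 v8459
theorem v11785 : PV l11785 := r11785 v3319 v11305 w5513 v11054 v11466 v11374 v11268 v3374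
theorem v11786 : PV l11786 := r11786 v10393 v7703 v2992 v11466 v11371 w1939 w1969 w2367 w351 v5035 v3008 v3025 v11666 w305 w799 w3478 w1159 v3927 w1152 w1575 v11665 w8658 w4977 v4891 v11305 v3431 v2998 v11758 v11781 w5513 v11784 v3319 v11054 w2393 v11785 v1210 v1218 w4897 v9632 v5727
theorem v11787 : PV l11787 := r11787 v10393 v10394 v11371 v6818 w5475 w5472 v3501 v4664
theorem v11788 : PV l11788 := r11788 v3927 w1160 v7703 v3008 v3025 v11305 v494 v490 w4544 v3797 v3435 v5035 w4576 v11738 w5825 w2393 v11212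
theorem v11789 : PV l11789 := r11789 v10393 v7703 v3008 v3025 v11305 v494 v490 w4544 v3797 v11466 v11371 v2674 v404 v6818 v3933 v3927 v325 v5035 w1132 w1160 v11788 w5513 w5407 v11782 w1975 v11377 v4082 v4083 v10401 v9898 v4602
theorem v11790 : PV l11790 := r11790 v5519 v10167
theorem v11791 : PV l11791 := r11791 v10393 v501 v11371 v7703 v3008 v325 v5035 w4576 w5825 v11790 w1975 v8567 v4083 v11511 v6175 v8569
theorem v11792 : PV l11792 := r11792 v10393 v10394 v7703 v3000 v5035 v4841 v11305 v494 v490 v3435 w351 w1939 w1969 w2367 v2998 v3008 v3025 w1159 v3927 v11466 v11371 w1152 w1575 v6818 v476 v3011 v2992 w3478 v11666 w305 v2674 v11665 w799 w8658 w4977 v4891 v4892 v11786 v1412 w4544 w4559 w4491 v3798 v3797 v4850 v3837 v11787 v11789 v3319 v11791 w5513 v10909 v11054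
theorem v11793 : PV l11793 := r11793 v10394 v4775 w5471 v4664 v4247
theorem v11794 : PV l11794 := r11794 v10394 v10393 v3927 w1160 v10187 w2393 w340 w1152 w1939 v4664 v3505 w5458 v3512 v1127 v10908 v9140 w358 v8683 w9147 w9066
theorem v11795 : PV l11795 := r11795 v10393 v10395 v10394 v11371 v6818 v5412 v4250 v3858 v4247
theorem v11796 : PV l11796 := r11796 v10393 v7703 v11466 v11305 v3431 v476 v472 v1412 w4482 v433 v429 v11795 v3008 v3025 v494 v490 w4544 v3797 v4969 v404 v11371 v6818 v3927 v5035 w1160 v11788 w5513 v11794 w1975 v11377 v11214 v4083 v9898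
theorem v11797 : PV l11797 := r11797 v10393 v501 v433 v426 v421 v418 v11371 w4576 v11791 w5825 v11790 w1975 v9974 v8567
theorem v11798 : PV l11798 := r11798 v10393 v10395 v7703 v3000 v5035 v4841 v11305 v494 v490 v3435 w351 w1939 w1969 w2370 v2998 v3008 v3025 v11466 v11371 v6818 w1117 v3933 w1124 w1566 v476 v472 v11792 v2846 w3539 w3543 v8671 v5175 v5467 v1412 w305 v4592 v433 w4544 w4559 w800 v4968 v3798 v3797 v4850 w8776 v11793 v11796 v3319 v11797 w5513 v9222 v10909
theorem v11799 : PV l11799 := r11799 v10395 v10393 v10394 v5038 v5039 v11371 v6818 v3933 v476 v472 v2525 v5225 v5224 v3012 v2992 v4429 v4425 v4431 w4977 w8658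
theorem v11800 : PV l11800 := r11800 v10393 v10394 v5038 v5039 v11371 v3012 v2674 v4429
theorem v11801 : PV l11801 := r11801 v10394 v10393 v11305 v494 v490 w351 w1939 w1969 w2367 w1159 v3927 v11466 v11371 w1152 w1575 v6818 v476 v7703 v5035 v11798 v5038 w306 w787 v11799 v1412 w4494 v11800 v2846 w3543 v5467 v4664 v3505 w5458 v3512 w8798
theorem v11802 : PV l11802 := r11802 w4326 v2740
theorem v11803 : PV l11803 := r11803 v10393 w690 w295 w730 w336 v2269 v11371 v8458 v5225 v11618 v11662 v11651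
theorem v11804 : PV l11804 := r11804 v10393 v10395 v11371 v6818 v3933 w1116 w1452 w1090 v5041 v8458 w1152 v11453 w1939 w3414 w3689 v2322 v11742 w8284 v8449 w2306 w4670 w1959 v4456 v4455
theorem v11805 : PV l11805 := r11805 v10393 v11371 v8458 v6818 v3933 w1116 w1452 w1090 v11804 w3438 w3039 v11652
theorem v11806 : PV l11806 := r11806 v10393 v11371 v4891 v8458 v2708 v6818 v3933 w1132 w8328 w3460 w1117 v8185 w351 v5035 w305 w799 w771 w297 w340 w3461 v390 v2673 v5225 v7703 v1146 v1145 v7840 w1939 w1969 w2367 v3008 v325 v11628 w730 v2269 w690 w719 w336 w295 v5041 v11803 v11805 w1454 v9427 v11634 w1112 v3017 w2845 v3932 v11203 v3914 v3913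
theorem v11807 : PV l11807 := r11807 v3180 v3179
theorem v11808 : PV l11808 := r11808 v9048 v6565
theorem v11809 : PV l11809 := r11809 v674 w8113
theorem v11810 : PV l11810 := r11810 v10393 v11371 v8458 v2708 v6818 v3933 w1132 w8328 v2673 v5225 w305 w1117 v11740 w708 w688 w694 w714 w275 v11746 v8397 v11747 w5594 v11614 v6194 w2335 w2402 w1911 v11808 w1095 v11807 w1496 w290 v11809 w4758 v6228 v3866
theorem v11811 : PV l11811 := r11811 v3180 v3178
theorem v11812 : PV l11812 := r11812 v10393 v11371 v8458 v2708 v6818 v3933 w1132 w8328 v2673 v5225 w1117 w337 w295 v4080 w718 w724 v11746 v8397 v11747 w5594 v11614 v6194 w2335 w2402 w1911 v11808 w1095 w1496 v11811 w290 v11809 w4758 v6228 v3866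
theorem v11813 : PV l11813 := r11813 v10395 v10394 v10393 w340 v5035 w275 w710 w708 v5041 v5042 w272 v11466 v11371 v4891 v8458 v2708 v6818 v3933 w1132 w8328 v7703 w1117 w1124 w1565 w1939 w1969 w2364 v8818 v5208 v3500 v3505 w3460 v4438 v8185 w351 v5039 w305 w799 w771 w297 w3461 v390 v5225 w1159 v3927 w1152 w1575 v3008 v325 v11810 v11750 v11752
theorem v11814 : PV l11814 := r11814 v10393 v11371 v6818 v3933 w1116 w1452 w1090 v5041 v5042 w5594 w5592 v4628 v4626 v2985 w3406 v11751
theorem v11815 : PV l11815 := r11815 v10393 v11371 v6818 v3933 w1116 w1452 w1090 v5041 v5042 v3228 v3234 v11814 w4673 w4678 v8393 v4456 w2716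
theorem v11816 : PV l11816 := r11816 v10393 v11371 v6818 v3933 w1116 w1452 w1090 v5041 v5042 w5594 w5591 v3591 v3547 w3439 w3438 v11742 w8284
theorem v11817 : PV l11817 := r11817 v11815 w1959 w2306 v11816 w5735 v8403 w8284
theorem v11818 : PV l11818 := r11818 v10395 v10394 v10393 v11466 v11371 v5035 v4834 v8458 v2708 v6818 v3933 w1132 w8328 v7703 w1117 w1124 w1565 w1939 w1969 w2364 v1146 v8818 v5208 v3500 v3505 w3460 v4438 v8185 w351 v5039 w305 w800 w774 w799 w771 w297 w340 w3461 v5225 v1145 v7840 w1159 v3927 w1152 w1575 v3008 v325 v11453 w4843 v4891 v11806 v11812 v5041 w275 w272 v5042 w708 w710 v11813 v11817 w1109 w1454 v11634 v9427 w1112 v3017 w2845 v3932 v5667 v3913 v3914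
theorem v11819 : PV l11819 := r11819 w5594 v6194 v4628 w3427
theorem v11820 : PV l11820 := r11820 v10393 v11371 v6818 w1117 v3933 w1112 v11808 w1454 w1911 w2402 v11819 w5735 v8915 v1103 v8445
theorem v11821 : PV l11821 := r11821 v2708 v11820 v3932 w1095 v3930 w1486 v11656 w3438 w3003 v5667 v8912 w7740
theorem v11822 : PV l11822 := r11822 w3756 w3754 w3846 v11626 v1698 v10514 w8233 w5674
theorem v11823 : PV l11823 := r11823 v10393 v5041 v5042 v11371 v8458 v6818 w1117 v3933 w1112 w1454 v11805 v11739 w3438 w3039 v11652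
theorem v11824 : PV l11824 := r11824 v3930 v8453 v1705
theorem v11825 : PV l11825 := r11825 w1095 w1090 w1486 v1071 v11656 w2257 v11123 v8445 w5629 w8652 w7765
theorem v11826 : PV l11826 := r11826 v10395 v2708 v11820 v11821 v3932 w1095 v3930 w1493 w1486 v1071 v11656 w3438 w3039 w3003 v2278 v8445 v9047 v9533 v3866 v5667 v8912 w4756 w1924 w4641 v58
theorem v11827 : PV l11827 := r11827 w2269 v6194 w3754 w3752 v11626 w7850 w7897 w8227 w1534 v2306 w5655 v673 w8231
theorem v11828 : PV l11828 := r11828 w5735 v8915 v1103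
theorem v11829 : PV l11829 := r11829 v11827 v732 w7981
theorem v11830 : PV l11830 := r11830 v11828 v11829
theorem v11831 : PV l11831 := r11831 v11830 v8445 v11170
theorem v11832 : PV l11832 := r11832 v10393 v11371 v6818 w1117 v3933 w1112 v11808 w1454 w1461 w1911 w2402 v11831
theorem v11833 : PV l11833 := r11833 v10393 v10395 v2708 v11371 v2673 w337 v4080 w718 w724 v11826 w336 w290 w736 v11832 v3932 w1095 v3930 w1493 w1486 v1071 v11656 w3438 w3003 v2278 v8445 v9047 v5667 w8099 w1924 w4647 w7769 v740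
theorem v11834 : PV l11834 := r11834 w3414 v2322 v1279 v3167 w8248 w5321
theorem v11835 : PV l11835 := r11835 v10393 v10395 w340 v11371 v8458 v5225 w305 w1152 v476 v472 v11833 v5041 w275 w272 v5042 w708 w710 v11823 v3932 w1095 w1090 v11824 w1486 v3234 w1927 w1928 v3228 v11834 v11651 v6198
theorem v11836 : PV l11836 := r11836 v2322 w8345 v11672
theorem v11837 : PV l11837 := r11837 v10393 v10395 v2708 v11371 v6818 w1117 v11820 v3932 w1095 v3930 w1493 w1486 v1071 v11836 w3438 w3039 w3003 v2278 v8445 v9047 v10829 v9533 v3179 v3866 v5667 v8912 w4756 w1924 w4641 v58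
theorem v11838 : PV l11838 := r11838 v11828 v6194 w3753 w3752 v11747 w7850 v1698 w1535 w1534 v673 w8231 w2287 v740 w7898
theorem v11839 : PV l11839 := r11839 v11838 v8445 v11170
theorem v11840 : PV l11840 := r11840 v10393 v11371 v6818 w1117 v3933 w1112 v11808 w1454 w1911 w2402 v11839
theorem v11841 : PV l11841 := r11841 v10393 v10395 v2708 v11371 v2673 v6818 w1117 w337 w295 v4080 w718 w724 v11837 w336 w290 w736 v11840 v3932 w1095 v3930 w1493 w1486 v1071 v11836 w3438 w3003 v2278 v8445 v9047 v5667 w8099 w1924 w4647 w7769 v740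
theorem v11842 : PV l11842 := r11842 v10393 v10395 v11371 v6818 w1117 v3933 w1112 w1454 v5041 v5042 v8458 w1152 v11453 w1939 w3414 w3689 v2322 v11739 v11742 w8284 v8449 w1927 w2306 w4666 w1959 v4469 v4625 w2713 w4595 v8393
theorem v11843 : PV l11843 := r11843 v10393 v10395 v5041 v5042 v11371 v8458 v6818 w1117 v3933 w1112 w1454 w1461 v11842 w3446 w3039 w3003 v2303 v8403 w5319 w7785 v3559 w1927 w2269 v4453 v8393 w7706 w4756 w4640
theorem v11844 : PV l11844 := r11844 v10394 v10393 v10395 v11466 v11371 v5035 v4834 v8458 v2708 v6818 v3933 w1132 w8328 v7703 w1117 w1124 w1565 w1939 w1969 w2364 v1146 v8818 v5208 v3500 v3505 w3460 v4438 v8185 w351 v5039 w305 w800 w774 w340 w3461 v390 v5225 v1145 v7840 w1159 v3927 w1152 w1569 v476 v472 v11818 v11835 v11841 v5041 w275 w272 w708 w710 v11843 v3932 w1095 w1090 v11824 w1486 v3234 w1927 w1928 v3228 v11834 w3039 v6198 v3874 v3873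
theorem v11845 : PV l11845 := r11845 v8318 v5102 v3236 w5422 w5417 w5416 v5151 v5075 v10924 v11474 v2398
theorem v11846 : PV l11846 := r11846 v3236 v3238 v8318 v494 v490 v7703 v3008 w335 v11479 w5422 w5417 w5416 w5415 v5151 v5075 v2518 v10924 v2398 v3015 v8923
theorem v11847 : PV l11847 := r11847 v3238 v7703 v3008 v4587 v10924 v11368 v8923 v3015
theorem v11848 : PV l11848 := r11848 v10395 v11371 w1921 v5102 w1076 v6423 v11361 v4308
theorem v11849 : PV l11849 := r11849 v11093 v3926
theorem v11850 : PV l11850 := r11850 v4498 v4587 v3236 v8918 v11849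
theorem v11851 : PV l11851 := r11851 v11361 v3620
theorem v11852 : PV l11852 := r11852 v4498 v4587 v3236 v3238 v11849 v11851 v11092 w4579 v8923 v4497
theorem v11853 : PV l11853 := r11853 v3236 v3238 v455 v5075 v451 v2518 v3632 v4573 v8923
theorem v11854 : PV l11854 := r11854 v3624 v3617
theorem v11855 : PV l11855 := r11855 v3236 v3238 v8431 v4962 v2969 v11854 v460 v5151 v11853
theorem v11856 : PV l11856 := r11856 w289 v11848 v3236 v11855 v3926 v5093 v11366 v2423 v2439
theorem v11857 : PV l11857 := r11857 v11850 v11852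
theorem v11858 : PV l11858 := r11858 v11857 v5102 v6382 v4824 v4822
theorem v11859 : PV l11859 := r11859 v3236 v8318 v5035 w257 v10924 v11853 v11368 w5521 w5427 v2795 v2718 w7556 w7519 w1600
theorem v11860 : PV l11860 := r11860 v10393 v11466 v11371 v8458 v2673 v5225 v7840 v3927 v7703 v11858 w289 v4079 v11856 v11848 v8318 v3236 w1899 w1142 v3238 w2229 w2399 v11846 v8431 v4965 w2708 v2969 v11859 v5151 v11367 w4577 v5078 v5096 w6507
theorem v11861 : PV l11861 := r11861 v3236 v8318 v5035 w257 v10924 w671 w641 v11368 w3374 v2370 w7554 v5096 w5425 w5423 w1070 v11361 v5075 w3432 v3632 w7639 v4487 v4484 w2215 w616 w4605 v761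
theorem v11862 : PV l11862 := r11862 v3236 v3238 v8318 v7840 w289 v8431 v4965 w4259 w4730 w2708 v4960 w2711 v11861 v5151 v11367 w4577 v5078 v5096 w6507
theorem v11863 : PV l11863 := r11863 v10393 w271 w1911 w2402 v3228 v3234 v11466 v11371 v6818 w1117 v3933 w1112 w1461 w1454 v4080 w337 v8458 v2708 w351 v5035 w305 w800 v390 v2673 v5225 w1159 v3927 v7703 v3008 v325 w3406 v11828 w5594 w5592 v4628 v4626 w3407 w2845 v2985 w3397 w3398 w3427 v5667 w268 v4919 v8919 w1106 w1107 w687 w680 v1091 w2287 w2283 w7731 w7730 v11860 v8393 v632 w4281 w4628 v740 v1103 v9900 v1697 v8318 v5102 w1142 w1105 v3236 w1899 w1428 w2225 v11862 v4498 w251 v11851 v4587 w660 w5425 v11092 w7554 v11368 w3374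
theorem v11864 : PV l11864 := r11864 v10393 v3228 v3234 v11466 v11371 v6818 w1117 v3933 w1112 w1461 w1454 v8458 v476 v472 w271 v11863 w3438 w3022 w3003 v8445 v6715 v5667 v4929 w5298 w4754 v6828 w1106 v8443 v11860
theorem v11865 : PV l11865 := r11865 v494 v490 w5417 w5415 v11853 v2518 v2975
theorem v11866 : PV l11866 := r11866 v11626 v8915 v8919
theorem v11867 : PV l11867 := r11867 v494 v490 w1142 v11479 w5422 v11865 v5151
theorem v11868 : PV l11868 := r11868 v10395 v10393 v11466 v11371 v8458 v2708 v7703 v6818 w1117 v3933 w1124 w1565 w1939 w2364 v8818 v5039 v2673 v5225 v3927 v11858 v11860 w335 w289 v11848 v3236 w1899 v11866 v11867 v5093 v11366 v4586 v2524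
theorem v11869 : PV l11869 := r11869 v10394 v10393 v5042 v3234 v11371 v6818 w1117 w1461 w1454 v5208 v5039 v3008 v325 v2983 v3017 w2845 v2985 w3397 v5667 v4817 v8444 v4954 v5881 v8437 w4608
theorem v11870 : PV l11870 := r11870 v10394 v10393 v3236 v3234 v11371 v6818 w1117 w1461 w1454 v8458 v5208 w3460 v5039 v2673 v5225 v494 v490 v8441 v11479 w5596 w5595 w5417 w5411 w5415 v5075 v2518 v3632 v2976 v2423 v4484 v4482 v10664 w2269 v11869 w3436 w3438 v2490 w7897 v1698 v5881 w4659 w5602 w4618
theorem v11871 : PV l11871 := r11871 v5035 w257 w671 v3236 v10924 v11368 w3374 v2370 w7554 v5096 w5425 w5423 w1070 v11361 v5075 w3432 v3632 v4484 v4482 w4605 v10664 v761 v11861 w2215 w7491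
theorem v11872 : PV l11872 := r11872 v10394 v10393 v3236 v3238 v8431 v11371 v6818 v3933 w1105 w2225 v5039 w289 v11808 v3228 v3234 w1117 w1112 w1454 w295 w1132 v8458 v5208 w3460 v4438 v8185 v2673 v5225 v7840 v7703 v5035 w257 w246 w640 w639 v11870 v8397 v11747 v8000 w7687 w2716 v4919 w1096 w8053 w4281 w4259 v4960 w2711 v11871 v11854 v460 v455 v5075 v451 v2518 w3352 v3632 v446 v2423 v4484 v2415 w4605 w1067 w1070 w1071 v761 v1494 v2334 v1400 v1485
theorem v11873 : PV l11873 := r11873 v5151 w334 w5425 v5078 v4566 w7570 v11368 w3374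
theorem v11874 : PV l11874 := r11874 v10394 v10393 w2225 v3236 w335 v5035 w352 w336 w746 v11808 v3228 v11371 v6818 v3933 w1112 w351 v5039 w305 w800 v4438 w774 w337 w724 w718 w295 w1132 v8458 v5208 w3460 w1117 v8185 v2673 v5225 v7703 w1142 w1428 v11873 v11870 v11872 v8397 v11747 v8919
theorem v11875 : PV l11875 := r11875 v10393 v10395 v7703 v11466 v11371 v6818 w1117 v3933 w1124 w1565 w1939 w2364 v8458 v8818 w1159 v3927 v3236 w1899 v11874 v5093 v11366 v4586 v2524
theorem v11876 : PV l11876 := r11876 v10393 v10395 v11466 v11371 v8458 v7703 v6818 w1117 v3933 w1124 w1565 w1939 w2364 v8818 v5039 v2673 v5225 w289 v11875 w1921 v5102 w1076 v6423 v11361 w3432 v4309 w8342 w7512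
theorem v11877 : PV l11877 := r11877 v4498 v4587 v3236 w1899 v11849 w2225 w1142 v11851 w1428 w5425 v11092 w7554 v11368 w3374
theorem v11878 : PV l11878 := r11878 v10394 v10393 v10395 w351 v5035 v7703 v11466 v11371 v6818 w1117 v3933 w1124 w1565 w1939 w2364 v8458 v8818 v5039 w305 w800 v4438 w774 w337 w724 w718 v4080 v2708 v3927 w1160 v5208 w3460 v8185 w1159 v11808 w1911 w2402 v11864 v11868 v11876 w251 w660 v11877 v5102 v6382 v4824 v4822
theorem v11879 : PV l11879 := r11879 v10395 v10394 v10393 v11466 v11371 v8458 v6818 v7703 w1117 v3933 w1124 w1565 w1939 w1969 w2364 v8818 v5208 w3460 v4438 v8185 w8373 w351 v5035 v5039 w305 w800 w774 w799 w771 w3461 v5225 w1159 v3927 w1152 w1569 v11453 w337 w295 w718 v11878 v3932 w1095 w1090 v3930 w1486 v1071 w2257 v11836 w3438 w3003 v8445 v9047 v5667 w5628 w8917 w1958 w7765 w7940 w5685 w3687 w7946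
theorem v11880 : PV l11880 := r11880 v10393 v5041 v5042 v11371 v8458 v2673 v5225 v7840 v11858 v11823 v11856 v3932 v3930 v11824 v5870 v8912 w6346
theorem v11881 : PV l11881 := r11881 v10394 v10393 v10395 w4543 v11466 v11371 v5035 v4834 v8458 v2708 v7703 v6818 w1117 v3933 w1124 w1565 w1939 w1969 w2364 w4555 v1146 v8818 v5039 v8900 w1941 w1132 v1145 v8902 w8328 v8721 v3374 v5208 v3500 v3505 w1975 w3460 v4438 v8185 w340 w3461 v390 v5225 w4561 v3007 v3006 v3384 v501 v7840 w4567 w1159 v3927 w1152 w1569 v476 v472 v11844 v4892 v11879 v5041 w275 w272 w708 w710 v11880 v11843 v3932 w1095 w1090 v11824 w1486 v3234 w1927 w1928 v3228 v11834 w3015 v6198 v3904 v3905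
theorem v11882 : PV l11882 := r11882 w5437 w5835 v4628 v7293 w3427
theorem v11883 : PV l11883 := r11883 v11626 v8915 v7293
theorem v11884 : PV l11884 := r11884 w1911 v6571 v11882 w3535 w8232
theorem v11885 : PV l11885 := r11885 v9048 v5674 v2986
theorem v11886 : PV l11886 := r11886 v490 w1112 w1146 w1454 w1461 v11885 v3228 w1911 v6571 v11884 v3234 w3535 v5652 v5042 w290 w8232 v468 v3558 w5437 w5433 w3446 v5138 v1698 w3434 w3436 v2490 w7981 w1106 w2269 v673 w7897 w8231 v2306 w5655
theorem v11887 : PV l11887 := r11887 v2708 v11883 v11886 w1095 w1486 w1605 v11656 w3756 v7293 v9817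
theorem v11888 : PV l11888 := r11888 v2708 w1152 w337 w295 v4080 w718 w724 v11887 w2337 w2340 w2402 w1911 v11885 w1095 w1090 w1491 w1486 v11656 v2303 w3756 v8445 v11614 w5326 w7768 v11627 w5636 w3413 w5628 w7765
theorem v11889 : PV l11889 := r11889 v10394 v10393 v10395 v7703 v3008 v3025 v3797 v11466 v11371 v6818 w1117 v3933 w1124 w1565 w1939 w1969 w2364 v8458 v11305 v3431 v8818 v5208 v3500 v3505 w3460 v4438 v8185 w351 v5035 v5039 w305 w800 w774 w340 w3461 v2835 v390 v2673 v5225 v3435 v494 w1159 v3927 w1152 w1569 v476 v472 v11888 v5041 w275 w272 w708 w710 v11823 v3932 w1095 w1090 v11824 w1486 v3234 w1927 w1928 v3228 v11834 w3015 v6198 v3904 v3905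
theorem v11890 : PV l11890 := r11890 w295 v2708 v11885 w1911 w2402 v11886 v8397 v11747 v7293
theorem v11891 : PV l11891 := r11891 v10395 v2708 w337 w295 v4080 w718 w724 v11890 v3932 w1095 v3930 w1491 w1486 v1071 v11836 w3438 w3015 w3003 v2303 w3756 v8445 v5667 v11614 w1925 v3898 w7768 w4742 w4628 v8912 w8099
theorem v11892 : PV l11892 := r11892 v10394 v10393 v10395 v7703 v3008 v3025 v3797 v11466 v11371 v6818 w1117 v3933 w1124 w1565 w1939 w1969 w2364 v8458 v11305 v3431 v8818 v5208 v3500 v3505 w3460 v4438 v8185 w351 v5035 v5039 w305 w800 w774 w340 w3461 v2835 v390 v2673 v5225 v7840 v3435 v494 w1159 v3927 w1152 w1569 v476 v472 v11889 v11891 v5041 w275 w272 w708 w710 v11843 v3932 w1095 w1090 v11824 w1486 v3234 w1927 w1928 v3228 v11834 w3015 v6198 v3904 v3905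
theorem v11893 : PV l11893 := r11893 v10395 v10394 v10393 v11466 v11371 v8458 v6818 v7703 w1117 v3933 w1124 w1565 w1939 w2364 v8818 v5208 w3460 v8185 w8373 w351 v5035 v5039 w305 w800 w774 v5225 w1159 v3927 w1152 w1569 w337 w295 v4080 w718 w724 v11868 w2340 w2402 w1911 v11885 w1095 w1090 w1486 v11656 v8445 v9455 w5628 w7765 w8652
theorem v11894 : PV l11894 := r11894 v10395 v10394 v10393 v11466 v11371 v6818 v7703 w1117 v3933 w1124 w1565 w1939 w1969 w2364 v8458 v8818 v5208 v3500 v3505 v4438 w340 w3461 v390 v5039 v3927 v5035 v11893 w275 w272 w708 w710 v11880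
theorem v11895 : PV l11895 := r11895 v10393 v3228 v3234 v11466 v11371 v6818 w1117 v3933 w1112 w1461 v8458 w3461 v11863 w3015 w3003 v2303 v8445 v4945 v8393 v8447 w4742 w4628
theorem v11896 : PV l11896 := r11896 w7898 w7731
theorem v11897 : PV l11897 := r11897 v1698 w7981 w5691 w5628 w2269 w7848 v734 w2267 v2311 w1513 v11896 v740 w4647 v5881 w8170 v1705
theorem v11898 : PV l11898 := r11898 v10393 v5042 v7703 v11885 w1911 w2324 v3228 v3234 v11466 v11371 v6818 w1117 v3933 w1112 w1461 w1454 w295 v5035 w305 w800 v8458 v2673 v5225 v7840 w1124 w1565 w1159 v3927 w3406 w3696 v11828 w5593 v4808 v11897 v11747 v8000 v11625 v5510 v8919 w2716 w2717 v8447 w1096 v4954 w8053 w4608 v2762 w4628 w5606 v9900 v732 v8318 v5102 w1142 w1105 w1899 w1428 w2225 v11862 w251 v11877 w660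
theorem v11899 : PV l11899 := r11899 v10394 v10393 v10395 w351 v5035 v7703 v11466 v11371 v6818 w1117 v3933 w1124 w1565 w1939 w2364 v8458 v8818 v5039 w305 w800 v4438 w774 w337 w724 w718 v4080 v5208 w3460 v8185 w8373 v4892 w8933 v2708 v3927 w1160 w3461 w352 w1112 v11885 w1461 v3228 w1911 v3234 w2402 v11895 w336 w736 w746 v11898 w3438 w3039 w3003 v2303 v8445 v5667 v4919 v8447 w4756 w8053 w4640
theorem v11900 : PV l11900 := r11900 v10395 v10394 v10393 v11466 v11371 v8458 v6818 v7703 w1117 v3933 w1124 w1565 w1939 w1969 w2364 v8818 v5208 w3460 v4438 v8185 w8373 w351 v5035 v5039 w305 w800 w774 w8933 w3461 v5225 w1159 v3927 w1152 w1569 w337 w295 w718 v11899 v3932 w1095 w1090 v3930 w1486 v1071 v11836 w2257 w3438 w3003 v8445 v5667 v9455 w5686 w5628 w1958 w7765 w7940 w3687 w7946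
theorem v11901 : PV l11901 := r11901 v10394 v10393 v10395 v11466 v11371 v5035 v11801 v4834 v8458 v8721 v3374 v6818 v7703 w1117 v3933 w1124 w1565 w1939 w1969 w2364 v11305 v3431 w4555 v1146 v2998 v11758 v501 v4775 v8818 v5208 w3460 v4438 v8185 w340 w351 v5039 w305 w799 w3549 w3548 w3461 v2835 v390 v5225 v4771 v2993 v476 v5224 w3164 v3008 v3025 w3168 v3026 w3173 v3000 w3202 v1145 w4561 v3007 v3006 v3384 v7840 w4567 v4844 v3435 w2367 w3573 w1159 v3927 w1152 w1575 w1569 v472 w1132 w1160 v8900 w1941 w1975 v8903 v8727 v8906 v485 v3478 v3484 v9611 v9303 w358 w801 v8905 v3505 v3500 v2707 v2708 w5823 w5818 v8902 w8328 v3797 w4543 v11881 v11892 v11894 v11900 v5041 w275 w272 w708 w710 v11843 v3932 w1095 w1090 v11824 w1486 v3234 w1927 w1928 v3228 v11834 w3015 v6198 v3904 v3905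
theorem v11902 : PV l11902 := r11902 v11777 v9437 w1975
theorem v11903 : PV l11903 := r11903 v7703 w4555 v1146 w5513 v9305 v10173 w2393
theorem v11904 : PV l11904 := r11904 v10393 v11371 v6818 v3933 w1116 v11635 v11739
theorem v11905 : PV l11905 := r11905 v10393 v11371 v6818 w1117 v3933 w1112 w1454 v11904 w3438 w3039 v11652
theorem v11906 : PV l11906 := r11906 v10393 v11371 v6818 w1117 v3933 w1112 w1461 w1454 w1116 v476 v472 v11655 v11643 v1698 w5298 w5312 w7981 v5138 w2269 w3436 v2490 w7897 v5881 w4659 w5602 w4618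
theorem v11907 : PV l11907 := r11907 v10393 v11371 v3318 v8458 v7840 v3317 v11885 v3228 w1911 v6570 v3234 w2402 w3649 v11642 w278 v5042 v11906 w3438 w3018 w3010 v5163
theorem v11908 : PV l11908 := r11908 v11836 v736
theorem v11909 : PV l11909 := r11909 v10395 v3932 v3930 v1510 w1925 v3898 w6442 w7768 w4742 w4628
theorem v11910 : PV l11910 := r11910 v10395 v10394 v10393 w358 v11466 v11371 v8458 v6818 v7703 w1117 v3933 w1124 w1565 w1939 w1969 w2364 v8818 v5208 w3460 v8185 w3461 v5039 v2673 v5225 v5035 w305 w1159 v3927 w1152 w1575 w1569 w708 w688 w694 w275 v11907 w1095 w1496 w1493 w1491 w1486 v11908 w3438 w3015 w3003 w3018 w3010 v2278 v2303 v8445 v11909 v5042 w336 w290 v5163 w736 v3228 w1931 w1959 v11809 w2316 v740 w7769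
theorem v11911 : PV l11911 := r11911 v10393 v10395 v5041 v11371 v6818 w1117 v3933 w1112 v11905 w1454 w1461 v11904 w3446 w3039 w3003 v2303 v8403 w5319 w7785 v3559 w1927 w2269 v4453 v1510 w7706 w4756 w8027 w4640
theorem v11912 : PV l11912 := r11912 v3930 v8453 v1510
theorem v11913 : PV l11913 := r11913 v10393 v10395 v11371 v8458 v5225 v476 v472 w730 v2269 w690 w336 w295 v5041 v11911 v3932 w1095 w1090 w1486 v11912 v3234 w1927 w1928 v3228 v11834 v6198 w3039 v3874 v3873
theorem v11914 : PV l11914 := r11914 w8067 w8018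
theorem v11915 : PV l11915 := r11915 w1454 w7981 w5628 w5691 w2269 v734 w7848 w2250 w1513 w2243 w2244 v11896 v740 v11914 v32 v1680 v11625 w8231
theorem v11916 : PV l11916 := r11916 v10393 v11371 v8458 v5225 v8318 v2673 v5035 w352 v7703 v11858 w335 w289 v11848 v3236 w1899 w2225 w2399 v11847 v11845 w7567 w3641 v11873 w259 v10924 w7442 w5522 v2398 v2397
theorem v11917 : PV l11917 := r11917 v10395 v10393 w1911 w2402 w2324 v11466 v11371 v6818 w1117 v3933 w1112 w1454 v3317 v8837 v7703 w1124 w1565 w1939 w2364 v5035 v4834 v8458 v8818 v5039 w312 w358 v2673 v5225 v8721 v3384 v3374 v501 v7840 w1159 v3927 v3008 v325 w3696 w3712 v11642 w810 w278 w754 w755 v11915 v1103 v9900 v11625 w3436 v3594 v3589 v8318 w1142 v3316 w1428 v11916 v11779 v8810 v7772 v8830 v3075 v8876 v4547 v8842 w3907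
theorem v11918 : PV l11918 := r11918 v10394 v10393 v10395 v7703 v11466 v11371 v6818 w1117 v3933 w1124 w1565 w1939 w2364 v5035 v4834 v8458 v8818 v5039 w312 v8721 v3374 v5208 w3461 v3384 v3317 w1112 v11885 w1454 w1461 w1911 w2402 v11917 w3677 v2303 v8445 w8768 w5628 w2269 v734 w8769 w2250 w7730 w3711 w2244 v2306 v11642 w5655 w754 v11914
theorem v11919 : PV l11919 := r11919 v3860 v6793 v3865
theorem v11920 : PV l11920 := r11920 v10394 v10393 v10395 w351 v5035 v7703 v11466 v11371 v6818 w1117 v3933 w1124 w1565 w1939 w1969 w2364 v11801 v4834 v8458 v11305 v3431 w4555 v1146 v2998 v11758 v8721 v501 v4775 v8818 v5039 w305 w799 v3374 v5208 w3549 w3548 w3461 w3460 v390 v5225 v4771 v2993 v476 v5224 w3164 v3008 v3025 w3168 v3026 w3173 v3000 w3202 v1145 w4561 v3007 v3006 v3384 w4567 v4844 v494 v490 v3435 w3573 v404 w1159 v3927 w1152 w1569 v11453 w340 v4438 w297 w771 v8185 v11901 v3319 v11903 v11777 v11902 w1941 w1975 w3838 v3003 w3749 v11654 v11660 v11657 v3505 v3500 v8636 v2576 v2597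 w5823 w8917 w4552 w4543 w5494 v3478 v11913 w708 w688 w694 v11910 w275 w8373 w5757 v11918 w1095 w1090 w1486 v11908 w3446 w3039 v8445 w5319 w5687 w5628 v11919 w1930 w1959 w7765 w7940 w3687 w7946
theorem v11921 : PV l11921 := r11921 v10395 v10394 v10393 w1939 w1969 w2367 w2364 v7703 v2998 v11466 v11371 v6818 w1117 v3933 w1124 w1565 w1159 v3927 w1152 w1575 v476 v5035 w351 v11305 v3431 v11801 v4834 v8721 w4555 v5224 v8458 v11758 v501 v3374 v1146 w3189 v4775 v8818 v5039 v5208 w305 v390 w799 v11920 v11800 v4431 w8658 w5475 w5483 v3505 v3483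
theorem v11922 : PV l11922 := r11922 v10393 v11466 v11371 v6818 w1117 v3933 w1124 w1565 v7703 w1939 w1969 w2364 v11921 v3430 w5364 v11298 v3422 v1210 v6253 v8376 w301
theorem v11923 : PV l11923 := r11923 v7703 v2998 v2993 v3008 v3026 v3025 v3927 v5035 v3216 v4871 v11758 v1412 v4834 v433 w4317 v5796 w4537 v2750 v3793 v11305 w6429
theorem v11924 : PV l11924 := r11924 v2707 w8978 w9147 w5825 v5653
theorem v11925 : PV l11925 := r11925 v7703 v3008 v325 v5035 v9811 v3303 v9755 v11613 v6709 v5034 v4502 w2478 w3924 v4526 w804 v4009 w947 v7207 w1647 v5738 v7100 w5098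
theorem v11926 : PV l11926 := r11926 v4502 w804 v7207 w1647 v3308 v9086 v9084
theorem v11927 : PV l11927 := r11927 v7703 v5035 v3954 w1597 v11926 v11499 v10731 v3308
theorem v11928 : PV l11928 := r11928 v7703 v5035 v4502 v8955 w101 w119 v3091 v10815 v1073 w6092 v4053 w3888
theorem v11929 : PV l11929 := r11929 v7703 v3008 v1218 v325 v11925 v11928 v7117 v9099 v3308 v3091 v4070 w5875 w3895 v2779 w3891 v5047 v6290 v1246 w2464
theorem v11930 : PV l11930 := r11930 v8702 w2461 v4059 w2450 w3895 v5047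
theorem v11931 : PV l11931 := r11931 w6959 w6976
theorem v11932 : PV l11932 := r11932 w182 w388 v11931 w5064 v3642 v2880
theorem v11933 : PV l11933 := r11933 v3704 v4351
theorem v11934 : PV l11934 := r11934 v3241 v2882 v2891 v11932 v1000 v11933 v437 v4348 v3652
theorem v11935 : PV l11935 := r11935 v3240 v3241 v6997 v442 v439 v4635 v3679 v4764
theorem v11936 : PV l11936 := r11936 v10394 v10393 v3927 w1160 v11923 v11922 v5035 v11466 v11371 v7703 v3008 v3378 v11301 v503 w4887 v1218 v8376 w305 w351 w799 w1159 w1152 w1575 w5380 v2998 w4904 v11305 w4550 v4850 w5195 w5193 v4769 v641 w3563 v4969 w5381 w4972 v2678 v11800 v3481 v5909 w3555 v6818 w4968 v2996 w3184 v3837 v3501 v7707 v4800 v4661 v5208 v5178 v3497 v3488 w340 v5730 w1939 w1969 w2367 w9163 v3000 w3202 v5719 w1970 v494 v490 v3435 v3431 w352 v1217 v4968 v4841 w4977 w4897 w4883 w4910 v3387 v3370 w1117 v3933 w1124 w1565 v325 v11726 v3240 w1816 w2011 v11927 v11929 v11934 w2812 v11935 v1000 v8313 v3672 v436 w5029 v3711 v11933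
theorem v11937 : PV l11937 := r11937 v2884 v2887 v2888 v11671 v8495 v11550
theorem v11938 : PV l11938 := r11938 v3209 v3681
theorem v11939 : PV l11939 := r11939 w1942 w2005 w2008 v11937 v8500 v11938 v3682 v4337
theorem v11940 : PV l11940 := r11940 v3683 v3675
theorem v11941 : PV l11941 := r11941 v3240 v11940 v4764 v2893 v4672 w5035
theorem v11942 : PV l11942 := r11942 v3240 v2882 v11941 v1000 v11933 v4348 v3706
theorem v11943 : PV l11943 := r11943 v3240 w2812 v11935 v1000 v8313 v3672 v436 w5029 v3711 v11933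
theorem v11944 : PV l11944 := r11944 v10394 v10393 v11923 v11922 v5035 v11466 v11371 v7703 v3008 v3378 v11301 v503 w4887 v1218 v8376 w305 w351 w799 w1159 v3927 w1152 w1575 w5380 v2998 w4904 v11305 w4550 v4850 w5195 w5193 v4769 v641 w3563 v4969 w5381 w4972 v2678 v11800 v3481 v5909 w3555 v6818 w4968 v2996 w3184 v3837 v3501 v7707 v4800 v4661 v5208 v3488 v5730 w1939 w1969 w2367 w9163 v5719 w1970 v494 v490 v3435 v3431 v1217 v4968 v3000 v4841 w4910 v3387 v3370 v325 v11936 v11939 v3240 w1816 w2011 v11943 v11934 v11942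
theorem v11945 : PV l11945 := r11945 v11933 v3715
theorem v11946 : PV l11946 := r11946 v3241 v4635 v3644 w1002 w992 w1166 v11945 v3701 v4500 w173 w314 v4974 w365 w5019 v11549 w6864 w3837
theorem v11947 : PV l11947 := r11947 v11371 w1152 w1942 w1979 w2005 w2008 v11937 v2973 v8500 v7605 v436 w5056 v6070 w5029 w5035 w5038 w183 w1133 v11946 v3195 v3657
theorem v11948 : PV l11948 := r11948 v3240 v11943 v2882 v11941 v1000 v11933 v437 v4348 v3652
theorem v11949 : PV l11949 := r11949 v436 w183 v3209 w1133 v11946 v3194 v3657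
theorem v11950 : PV l11950 := r11950 v11371 w1152 w1942 w1979 v11947 w2005 w2008 v11937 v2973 v8500 w5056 w5029 w5035 w5038 v11949 v3682 v4337
theorem v11951 : PV l11951 := r11951 v7703 v3008 v325 v5035 v3240 w1816 v11943 v11948 w2011 v11934
theorem v11952 : PV l11952 := r11952 v10394 v10393 v11923 w1969 v11922 v3378 v3370 v11301 w4910 v7703 w4904 v4969 v3008 v503 w4887 v1217 w351 v11305 v3431 w5195 v494 v490 v1218 v2998 v5035 w4550 v4850 v5719 v11466 v11371 v8376 v5909 w305 w799 w1159 v3927 w1152 w1575 w5380 w5193 v4769 v641 w3563 w5381 w4972 v2678 v11800 v3481 v3488 w3555 v6818 w4968 v2996 w3184 v3837 v5208 v3501 v7707 w358 w1160 v3000 v4841 v3497 v3387 v4800 v4661 v8726 w2393 v11924 v2574 w5513 w340 w312 v7469 w9147 v11951 w8906 v3003 w6600 v5730 w1939 w2367 w9163 w1970 v3435 v4968 v11944 v11950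
theorem v11953 : PV l11953 := r11953 v436 v1000 v3682 v4359 v4362
theorem v11954 : PV l11954 := r11954 v10394 v10393 v7703 v11466 v3927 v11371 w1152 w1159 w1575 v11923 v11922 v3378 v11301 w4904 v4968 v3008 v503 w4887 v1218 w351 v11305 v5035 v8376 w305 w799 v2998 w4550 v4850 w5195 w5193 v4769 v2678 v5909 w1939 w1969 w2367 w5380 v641 w9163 v4969 w5381 w4972 v11800 w3563 v5730 v6818 w4968 v2996 w3184 v3837 w3555 v4800 v4661 w358 w1160 v3000 v4841 v3501 v3497 v3387 v8726 w2393 v11924 v2574 w5513 w340 w312 v7469 w9147 v3370 w4910 v1217 v3431 v494 v490 v5719 v3481 v3488 v5208 v7707 v11951 w1942 w2005 w1970 w2008 v11937 v2973 w1979 w8906 v3003 w6600 v3435 v8500 v436 w5056 w5029 w5035 w5038 v11952 v11953 w183 v11938 v3209 w1133 v11946 v3195 v3657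
theorem v11955 : PV l11955 := r11955 v11529 v11938
theorem v11956 : PV l11956 := r11956 v1000 v4500 w4383 v3674 v3940
theorem v11957 : PV l11957 := r11957 v11956 v3682 v4337
theorem v11958 : PV l11958 := r11958 w183 v11529 v3209 v11955 v436 w5056 w5029 w5035 w5038 w1133 v11946 v3195 v3657
theorem v11959 : PV l11959 := r11959 v10394 v10393 v11466 v11371 v7703 v3008 v11923 v11922 v3378 v11301 v503 w4887 v1218 v8376 w312 w358 v5035 w305 w351 w799 w1159 v3927 w1152 w1575 w5380 v2998 w4904 v11305 w4550 v4850 w5195 w5193 v4769 v641 w3563 v4969 w5381 w4972 v2678 v11800 v3481 v5909 w3555 v6818 w4968 v2996 w3184 v3837 v3501 v7707 v4800 v4661 v3497 v5208 v3488 w340 v5730 w1939 w1969 w2367 w9163 v5719 w1970 v494 v490 v3435 v3431 v1217 v4968 v3000 v4841 w4897 w4910 v3387 v3370 w1160 v8726 w2393 v11924 v3003 v2574 w6600 w5513 v7469 w9147 w8906 v11951 w1942 w1979 w2005 w2008 v11937 v2973 v11954 v11958 v11956 v11957 v11953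
theorem v11960 : PV l11960 := r11960 v7971 v6261
theorem v11961 : PV l11961 := r11961 v10394 v10393 v7703 v3008 v11923 v11922 v3378 v11301 v503 w4887 v1218 v11466 v11371 v6818 w5381 w4968 v2996 v5035 v8376 w305 w351 w799 w1159 v3927 w1152 w1575 w5380 v2998 w4904 v11305 w4550 v4850 w5195 w5193 v4769 v641 w3184 v3837 w3555 v4800 v4661 v5909 v3501 v3497 w1939 w1969 w2367 w9163 v5719 v3431 v3000 v4841 w4910 v11959 v11960 v6271 v5714 w4576 v6172 v3003 w6374
theorem v11962 : PV l11962 := r11962 w4576 v9776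
theorem v11963 : PV l11963 := r11963 v10393 v11371 v6818 v3933 w1132 v11962 w5407 v10402
theorem v11964 : PV l11964 := r11964 v10393 v11371 v6818 v3933 w1132 w1160 v11963 w1975 v9109 v9898 w5407 v8377
theorem v11965 : PV l11965 := r11965 v5704 v5519
theorem v11966 : PV l11966 := r11966 v11965 w5513 v10911
theorem v11967 : PV l11967 := r11967 v10394 v10393 v11923 v11922 v5035 v11466 v11371 v7703 v3008 v3378 v11301 v503 w4887 v1218 v8376 w305 w351 w799 w1159 v3927 w1152 w1575 w5380 v2998 w4904 v11305 w4550 v4850 w5195 w5193 v4769 v641 w3555 v6818 w5381 w4968 v2996 w3184 v3837 v5208 v4969 w4972 v2678 v11800 w3563 v5730 v5909 v3435 v494 v1217 v3000 v4841 w4910 v3387 v3370 v325 v11961 v4083 v11964 v3319 v11966 w1975 v7763 v3003 v2560 v11657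
theorem v11968 : PV l11968 := r11968 w5825 v2574 v7732
theorem v11969 : PV l11969 := r11969 v3681 v4764 v3194 v4635
theorem v11970 : PV l11970 := r11970 w1942 v11726 w2005 w2008 v11937 v8500 w5035 v11969 v3682 v4337
theorem v11971 : PV l11971 := r11971 v3240 v3241 v11941 v11932
theorem v11972 : PV l11972 := r11972 v7703 v3008 v325 v5035 v3240 w1816 v11943 w2011 v2882 v2891 v11971 v1000 v11933 v4348 v3700
theorem v11973 : PV l11973 := r11973 w1942 w2005 w2008 v11937 v8500 w5035 v11970 v11953 v7775 v11969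
theorem v11974 : PV l11974 := r11974 v7207 w1647 v5738 v7100 w5098
theorem v11975 : PV l11975 := r11975 w1644 w1647 w1758 v5735 v7059 w5721
theorem v11976 : PV l11976 := r11976 v5034 v4526 v11974 w947 w1530 v11975 v3308 v7100 v8064 v3303 w3972 w2508 v4009
theorem v11977 : PV l11977 := r11977 w1647 v7207 w1530 v11975
theorem v11978 : PV l11978 := r11978 v10393 v7703 v3008 v3014 v2973 w1942 v5178 v325 v5035 w1939 v3241 v4635 v11945 v3701 v4500 w314 v4974 v4686 w4237 v10723 v4502 w99 w804 w55 v11976 v11977 v3308 w1738 v11930 w1661 v4053 w3938 w3929 v3997 w2601 w6233 w6198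
theorem v11979 : PV l11979 := r11979 v7703 v3008 v325 v5035 v4502 w99 w804 v11976
theorem v11980 : PV l11980 := r11980 v10723 v10973 v7117 w3936 w3891 v3308 v5863 v4070
theorem v11981 : PV l11981 := r11981 v10393 v8500 v436 v7703 v3008 v325 w2812 w2813 v5178 v5035 w1939 v11927 v6070 v11978 v3657 v1233 v3191 w6899 v11980 v4502 v11979 w99 w804 v11977 v3308 v11930 v4053 w3888 w6092 w2444 v1140 w4235 v3949 v3715 v3712
theorem v11982 : PV l11982 := r11982 v3241 v4635 v11945 v3644 v3701 w1002 w992 v4500 w173 w1166 w314 v4974 w365 w5019 v11549 w6936 w3837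
theorem v11983 : PV l11983 := r11983 v3194 v3657
theorem v11984 : PV l11984 := r11984 v8500 v436 v7703 v2973 v8726 w1979 v5653 v3003 w6600 w358 w1160 w183 v11981 v11983 v4635 v4764 w1133 v11982
theorem v11985 : PV l11985 := r11985 v8500 v11984 v3682 v4337
theorem v11986 : PV l11986 := r11986 v7703 v5035 v3954 w1597 v11926 v10731 v3308 v10796 v10789
theorem v11987 : PV l11987 := r11987 v10393 v8500 v11953 v436 v7703 v3008 v325 w2812 w2813 v5178 v5035 w1939 v3208 v11986 v11980 v11979 v11978 v4502 v3657 w99 w804 v1233 v11977 v3191 v3308 w6899 v11930 v6649 w3888 w6092 w2444 v1140 w4235 v3949 v3715 v3712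
theorem v11988 : PV l11988 := r11988 v10394 v10393 v7703 v11466 v3927 v11371 w1152 w1159 w1575 v11923 v11922 v3378 v11301 w4904 v4968 v3008 v503 w4887 v1218 w351 v11305 v5035 v8376 w305 w799 v2998 w4550 v4850 w5195 w5193 v4769 v2678 v5909 w1939 w1969 w2367 w5380 v641 w9163 v4969 w5381 w4972 v11800 w3563 v5730 v6818 w4968 v2996 w3184 v3837 w3555 v4800 v4661 w358 w1160 v3000 v4841 v3501 v3497 v3387 v8726 w2393 v3481 v3488 v11968 w5513 w9066 w9147 v3370 w4910 v1217 v3431 v494 v490 v5719 v5208 v7707 v11967 v11972 w1942 w2005 w1970 w2008 v11937 v2973 w1979 v5653 v3003 w6600 w8906 w5407 v3933 w1132 w340 v3435 w4897 w4883 v8500 v436 w5056 w5029 w5035 w5038 v11973 v11985 v11953 w183 v11987 v11983 v4635 v4764 w1133 v11982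
theorem v11989 : PV l11989 := r11989 v2973 v11957 v11762 v11529 v11969 w5035
theorem v11990 : PV l11990 := r11990 v11529 v7775
theorem v11991 : PV l11991 := r11991 v11956 v11953
theorem v11992 : PV l11992 := r11992 v2973 v11989 v11991 v11529 v11990 w5035 v11969
theorem v11993 : PV l11993 := r11993 v7703 v3008 v1218 v1217 v5035 v3954 w1597 v11926 v7772 v10731 v8043 v11533 w3936 w3938 v3308 v7200 v5812 v3085
theorem v11994 : PV l11994 := r11994 v5035 v4083 v3319 v8726 v7703 v5178 v3008 v1218 v11993 v11980 v11979 v4502 w99 w804 v11977 v3308 v11930 v4053 w3938 v3997 v4000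
theorem v11995 : PV l11995 := r11995 v7703 v11992 v2973 v5035 v4083 v3319 v8726 v5653 v3003 w6600 w1979 v3008 v1218 v11957 w183 v11529 v436 w5056 w5029 w5035 w5038 v11994 v11983 v4635 v4764 w1133 v11982
theorem v11996 : PV l11996 := r11996 v7703 v5178 v5035 v3954 w1597 v11926 v10731 v8043 v3308 v7200 v7199 v5266 v8946 v4547
theorem v11997 : PV l11997 := r11997 v5035 v4083 v3319 v8726 v11996 v11980 v4502 w99 w804 v11977 v3308 v6649 w3938 v3997 v4000
theorem v11998 : PV l11998 := r11998 v10394 v10393 v5035 v4083 v11967 v11923 v11922 v11466 v11371 v7703 v3008 v3378 v11301 v503 w4887 v1218 v8376 w305 w351 w799 w1159 v3927 w1152 w1575 w5380 v2998 w4904 v11305 w4550 v4850 w5195 w5193 v4769 v641 w3563 v4969 w5381 w4972 v2678 v11800 v3481 v5909 w3555 v6818 w4968 v2996 w3184 v3837 v3501 v7707 v4800 v4661 v3497 v5208 v3488 w340 v5730 w1939 w1969 w2367 w9163 v5719 w1970 v494 v490 v3435 v3431 v1217 v4968 v3000 v4841 w4897 w4893 w4883 w4910 v3387 v3370 v3933 w1124 w1606 v3319 v8726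 v11988 w2393 v11968 w5513 w5407 w9066 w9147 w8906 v5653 v11972 v3003 w1942 w1979 w6600 w2005 w2008 v11937 v2973 v11992 v11995 v11991 w183 v11529 v436 w5056 w5029 w5035 w5038 v11997 v11983 v4635 v4764 w1133 v11982
theorem v11999 : PV l11999 := r11999 v10394 v10393 v7703 v3008 v11923 v11922 v3378 v11301 v503 w4887 v1218 v11466 v11371 v6818 w5381 w4968 v2996 v5035 v8376 w305 w351 w799 w1159 v3927 w1152 w1575 w5380 v2998 w4904 v11305 w4550 v4850 w5195 w5193 v4769 v641 w3184 v3837 w3555 v4800 v4661 v5909 v3501 v3497 w1939 w1969 w2367 w9163 v5719 v3431 v3000 v4841 w4883 v4083 v11998 w1160 v11960 v6271 v5714 v6172 v6140 v3003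
theorem v12000 : PV l12000 := r12000 v11983 v3241 v4635 w1817 v3644 v4764 w992 v3315 w1133 v11945 w1166 v3701 v4500 w173 v4078 w314 v4974 w365 w5019 v11549 w6929 w3837
theorem v12001 : PV l12001 := r12001 v11371 w1152 w1942 w2005 w2008 v11937 v11973 v8500 v436 w5056 w5029 w5035 w5038 v12000 v3682 v4337 v11953
theorem v12002 : PV l12002 := r12002 v11529 v436 w5056 w5029 w5035 w5038 v12000
theorem v12003 : PV l12003 := r12003 v10394 v10393 v11923 v11922 v5035 v11466 v11371 v7703 v3008 v3378 v11301 v503 w4887 v1218 v8376 w305 w351 w799 w1159 v3927 w1152 w1575 w5380 v2998 w4904 v11305 w4550 v4850 w5195 w5193 v4769 v641 w3563 v4969 w5381 w4972 v2678 v11800 v3481 v5909 w3555 v6818 w4968 v2996 w3184 v3837 v3501 v7707 v4800 v4661 v5208 v3488 v5730 w1939 w1969 w2367 w9163 v5719 w1970 v494 v490 v3435 v3431 v1217 v4968 v3000 v4841 w4897 w4910 v3387 v3370 v325 v11967 v11999 w358 v11964 v3319 v11966 w1975 v7763 v3003 v5787 w5513 v6707 v11442 w9076 w6731 w6363 v11972 w1942 w2005 w2008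 v11937 v2973 v12001 v11992 v12002 v11956 v11957 v11953
theorem v12004 : PV l12004 := r12004 v7703 v3008 v325 v5035 v3240 w1816 v11943 w2011 v2882 v2891 v11971 v1000 v11933 v437 v3652 v4325
theorem v12005 : PV l12005 := r12005 w1979 v11371 w1152 w1942 w2005 w2008 v11937 v2973 v11958 v11973 v11950 v8500 v11953
theorem v12006 : PV l12006 := r12006 v10393 w2393 v5035 v4083 v11371 v8376 w305 w351 w800 w812 w340 v5909 v2678 w1970 v494 v490 w799 w1969 w1152 v7703 w1939 v11924 v3003 v2574 w6600 w5513 v7469 w9147 w8906 v12004 w1942 w1979 w2005 w2008 v11937 v2973 v11958 v12005 v11957 v11991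
theorem v12007 : PV l12007 := r12007 v3689 v4764 v3208 v3194 v4635
theorem v12008 : PV l12008 := r12008 v11953 v3682 v4337
theorem v12009 : PV l12009 := r12009 w1942 w2005 w2008 v11937 v8500 w5035 v12007 v12008
theorem v12010 : PV l12010 := r12010 v10393 v11371 v8376 v5909 v2678 v494 v490 v5035 w305 w799 w1969 v7703 v3008 v325 w1939 v12009 v3240 w1816 v11943 w2011 v2882 v2891 v11971 v1000 v11933 v437 v3700 v4325
theorem v12011 : PV l12011 := r12011 w5511 w5017 v11212
theorem v12012 : PV l12012 := r12012 v11529 v12007 w5035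
theorem v12013 : PV l12013 := r12013 w1942 w2005 w2008 v11937 v2973 v12012 v11957 v11991
theorem v12014 : PV l12014 := r12014 v10394 v10393 v5035 v4083 v12003 v11923 v11922 v11466 v11371 v7703 v3008 v3378 v11301 v503 w4887 v1218 v8376 w305 w351 w799 w1159 v3927 w1152 w1575 w5380 v2998 w4904 v11305 w4550 v4850 w5195 w5193 v4769 v641 w3563 v4969 w5381 w4972 v2678 v11800 v3481 v5909 w3555 v6818 w4968 v2996 w3184 v3837 v3501 v7707 v4800 v4661 v3497 v5208 v3488 v5730 w1939 w1969 w2367 w9163 v5719 w1970 v494 v490 v3435 v3431 v1217 v4968 v3000 v4841 w4897 w4910 v3387 v3370 v325 v3319 v8726 w2393 v12006 v12011 w9066 w9147 w8906 v12010 v12013 v3240 w1816 v11943 w2011 v2882 v2891 v11971 v1000 v11933 v437 v3700 v4325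
theorem v12015 : PV l12015 := r12015 v12009 v12013
theorem v12016 : PV l12016 := r12016 v10393 v11371 v8376 v5909 v2678 v494 v490 v5035 w305 w799 w1969 v7703 v3008 v325 w1939 v12015 v3240 w1816 v11943 v12004 w2011 v2882 v2891 v11971 v1000 v11933 v437 v3700 v4325
theorem v12017 : PV l12017 := r12017 v6261 w4576 w6801 w6419
theorem v12018 : PV l12018 := r12018 v10394 v10393 v12003 v7703 v3008 v11923 v11922 v3378 v11301 v503 w4887 v1218 v11466 v11371 v6818 w5381 w4968 v2996 v5035 v8376 w305 w351 w799 w1159 v3927 w1152 w1575 w5380 v2998 w4904 v11305 w4550 v4850 w5195 w5193 v4769 v641 w3184 v3837 w3555 v4800 v4661 v5909 v3501 v3497 w1939 w1969 w2367 w9163 v5719 v3431 v3000 v4841 w4883 w4910 v4083 v12014 w1160 v12017 v6271 v5714 v6172 v6140 v3003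
theorem v12019 : PV l12019 := r12019 v10394 v10393 v11923 v11922 v7703 v2998 v5035 v3378 v11301 w4904 v11305 w4550 v4850 w5195 w5193 v4769 v3008 v503 w4887 v1218 v5719 w1970 v3435 v3431 v494 v11466 v11371 v8376 w305 w351 w799 v1217 v4969 v4968 v3000 v4841 w5381 w4972 w4968 w4897 w4910 v3387 v3370 w5380 w1939 w1969 w2367 v2996 w1159 v3927 w1152 w1575 v6818 v325 v641 v2678 v5909 w3563 w3555 w3184 w9163 v11800 v5730 v3481 v3837 v3488 v5208 v4800 v3501 v4661 v7707 v12003 v12018 w358 v11964 v3319 v11966 w1975 v7763 v3003 v5787 v11442 w6731 w6363 v12016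
theorem v12020 : PV l12020 := r12020 v10393 v5730 w3564 v3491 v5732 w5395 w8504 w8526
theorem v12021 : PV l12021 := r12021 v10395 v4441 v4442
theorem v12022 : PV l12022 := r12022 v10395 w1935 w2403 w2393 v7720
theorem v12023 : PV l12023 := r12023 v5035 v4083 v3927 w1975 v11968 v12011 w8988 v5711 v2583
theorem v12024 : PV l12024 := r12024 v5035 v4083 v11923 v11922 v7703 v2998 v3378 v11301 w4904 v11305 w4550 v4850 w5195 w5193 v4769 v494 v490 v3431 v4969 v3000 v4841 v3387 v3008 v325 v3319 v12023 w2393 v9109 v7190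
theorem v12025 : PV l12025 := r12025 v10393 v11923 v11922 v7703 v2998 v5035 v3378 v11301 w4904 v11305 w4550 v4850 w5195 w5193 v4769 v3008 v503 w4887 v1218 v5719 v3435 v3431 v3000 v4841 w4883 v11466 v11371 v3927 v4083 v12024 w1160 v11960 v6271 w5825 v9211
theorem v12026 : PV l12026 := r12026 v6208 v11962 v11237 v9140
theorem v12027 : PV l12027 := r12027 v10393 w358 v11466 v11371 v11923 v11922 v3378 v11301 w4904 w4476 v12019 v12021 v7703 v2998 v5035 v11305 w4550 v4850 w5195 w5193 v4769 v3431 v3008 v503 w4887 v1218 v476 w4471 v3000 v4841 w4897 w4910 v3387 v3927 v325 v3319 v11964 v2846 v11795 v3505 v3512 v12026 w1975 v9109 w5513 v9898 v11214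
theorem v12028 : PV l12028 := r12028 v3927 w1160 w2393 v7915 w5511 v11447 v5519
theorem v12029 : PV l12029 := r12029 v10395 w1941 w5407 v2617 v6707 w3749 w8707
theorem v12030 : PV l12030 := r12030 v12029 w5825 v9211
theorem v12031 : PV l12031 := r12031 v5519 v4595
theorem v12032 : PV l12032 := r12032 v10393 v11466 v11371 v11923 v11922 v3378 v11301 w4904 w4476 v12019 v12021 w340 v7703 v2998 v5035 v11305 w4550 v4850 w5195 w5193 v4769 v494 v490 v3435 v3008 v503 w4887 v1217 v4969 v4968 v3000 v4841 w4883 v3370 w1159 v3927 w1152 w1569 v11453 v5730 v12020 v12025 w358 w801 v12027 w1592 w1160 v12030 v12028 v12031 w5513 v10911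
theorem v12033 : PV l12033 := r12033 v10393 w3564 v3491 v5732 w5395 w8504 w8526
theorem v12034 : PV l12034 := r12034 v11371 w1152 w1942 w1979 v12005 w2005 w2008 v11937 v2973 v11958 v11956 v12008
theorem v12035 : PV l12035 := r12035 v3241 v442 v3651 v2880 v1233
theorem v12036 : PV l12036 := r12036 v2882 w182 w388 v12035 v437 w5062 v4672 v11933 v11931 v3703
theorem v12037 : PV l12037 := r12037 v10393 v494 v5035 v11371 v8376 w305 w351 w799 w1969 v7703 v3008 v325 w1939 v12034 v3240 w1816 v11943 w2011 v2882 v2891 v12036 v1000 v11933 v437 v4348 v3652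
theorem v12038 : PV l12038 := r12038 v10393 v11529 v436 v5035 v4083 w183 v7703 w2816 v2973 w1979 w1942 v3319 w1939 v4635 v4764 w1133 v11945 v11982 v3701 v11986 v4500 v4683 v11980 w314 v4502 w99 w804 w55 v11977 v3308 w1738 v6958 w1661 w3938 w3930 v3997 v7100 w2601 w6198 w6233
theorem v12039 : PV l12039 := r12039 v10394 v10393 v11923 v11922 v3378 v11305 w5195 v3435 w2393 v11301 v7703 w4904 v4969 v494 v490 v3319 v12011 v5035 v4083 w5193 v11968 v8363 w9066 w8906 v11466 v3927 v11371 w1152 w1159 w1575 v4968 v3008 v503 w4887 v1218 w351 v8376 w305 w799 v2998 w4550 v4850 v4769 v11453 w1569 v12019 w4476 v12021 v12033 v390 v2846 v12032 w1939 w1942 w2005 w1970 w2008 v11937 v11529 w5038 w5035 w5029 w5056 v436 v325 w2812 w2813 v3370 v3387 w4910 w4897 v3000 v4841 v1217 v3431 v5719 v5653 v3003 w6600 v6818 v6184 v5208 v3481 v3501 v7707 v12037 v5178 v3497 w5407 v3933 w1124 w1606 w340 w4883 v11973 v12038 v3657 v11983 v1233 v11986 v3208 v3191 w6899 v11980 v4502 w99 w804 v11977 v3308 v6958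 w3938 w3888 v7100 w6092 v4059 w2444 v1140 w4235 v3949 v3715 v3712
theorem v12040 : PV l12040 := r12040 v11529 v436 v5035 v4083 w183 v7703 v2973 w1979 v3319 v4635 v4764 w1133 v11945 v11982 v3701 v11996 v4500 v11980 w37 w361 w86 v11977 v3308 v6958 w3938 v3997 v4000
theorem v12041 : PV l12041 := r12041 v10394 v10393 v11466 v3927 v11371 w1152 w1159 w1575 v7703 v11923 v11922 v3378 v11301 w4904 v4968 v3008 v503 w4887 v1218 w351 v11305 v5035 v8376 w305 w799 v2998 w4550 v4850 w5195 w5193 v4769 v11453 w1569 v12019 w4476 v12021 v12033 v390 v2846 v12032 w1939 w1942 w2005 w1970 w2008 v11937 v3370 v3387 w4910 w4897 v3000 v4841 v4969 v1217 v3431 v3435 v5719 v4083 v3319 w2393 v11968 v8363 v494 v490 v12011 w9066 w8906 v5653 v3003 w6600 v6818 v6184 v5208 v3481 v3501 v7707 v12037 v3497 w5407 v3933 w1124 w1606 w340 w4883 w180 v11529 w5056 w5029 w5035 w5038 v12039 v11992 v12040 v11983 v11996 v11980 v4502 w99 w804 v11977 v3308 v6958 w3938 v3997 v4000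
theorem v12042 : PV l12042 := r12042 v10393 v11453 v11466 v11371 w1159 v3927 w1152 w1569 v11923 v11922 v3378 v11305 w5195 w5193 v12019 v11301 w4904 w4476 v12021 v12033 v390 v2846 w2393 v7703 v4969 v494 v490 v3319 v12011 v5035 v4083 v11968 v8363 w9066 w8906 v12032 v2998 w4550 v4850 v4769 w1970 v3435 v3008 v503 w4887 v1218 v8376 w305 w351 w799 v4968 v3000 v4841 w4897 v3387 w1575 w1939 w1942 w2005 w2008 v11937 v2973 v12041 v12008 v8500 v11956
theorem v12043 : PV l12043 := r12043 v10394 v10393 v11923 v11922 v3378 v11301 v7703 w4904 v4969 v11305 v494 v490 v3319 w2393 v12011 w5195 w5193 v5035 v4083 v11968 v12032 v11466 v11371 w4476 v12019 v12021 v2998 w4550 v4850 v4769 v3008 v503 w4887 v1218 v5719 w1970 v3435 v3431 w351 v1217 v4968 v3000 v4841 w4897 w4910 v3387 v3370 w1969 w1159 v3927 w1152 w1575 w1569 v6818 v325 v11453 v8363 v5653 w9066 v3003 w8906 w6600 v12033 v390 v3481 v2846 v6184 v5208 v3501 v7707 v12037 v12042 v3240 w1816 v11943 w2011 v2882 v2891 v12036 v1000 v11933 v4348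 v3700
theorem v12044 : PV l12044 := r12044 v3319 v5035 v4083 v11305 v494 v490 v7703 v3008 v11923 v11922 v3378 v11301 v503 w4887 v1217 w4904 v4969 w4897 v325 w2393 v12011 v12043 v7733 w9147 w9066
theorem v12045 : PV l12045 := r12045 v5035 v4083 v11923 v11922 v7703 v2998 v3378 v11301 w4904 v11305 w4550 v4850 w5195 w5193 v4769 v3000 v4841 v3387 v3008 v325 v3319 v12044 v9109 v7190
theorem v12046 : PV l12046 := r12046 v10393 v12019 v11923 v11922 v7703 v3008 v3378 v11301 v503 w4887 v1218 v2998 v5035 w4904 v11305 w4550 v4850 v5719 w5195 w5193 v3431 v3000 v4841 w4883 v3387 v11466 v11371 v3927 v4083 v12045 w1160 v11960 w1975 v6271 w5825 v8566 v3003 v6141 v2576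
theorem v12047 : PV l12047 := r12047 v3927 w1160 w358 v12019 v11923 v11922 v3378 v11305 w5195 w5193 v494 v490 v7703 v3008 v11301 v503 w4887 v1217 v3370 v5035 v11966 v12028
theorem v12048 : PV l12048 := r12048 v11371 w1152 w1942 w2005 w2008 v11937 v2973 v12001 v11992 v12002 v12008 v11956
theorem v12049 : PV l12049 := r12049 v10395 v10394 v10393 v12019 v11923 v11922 v7703 v2998 v5035 v3378 v11301 w4904 v11305 w4550 v4850 w5195 w5193 v4769 v3008 v503 w4887 v1218 v5719 w1970 v3435 v3431 v494 v11466 v11371 v8376 w305 w351 w799 v1217 v4969 v4968 w4476 v3000 v4841 w4897 w4910 v3387 v3370 w1969 w1159 v3927 w1152 w1575 w1569 v6818 v325 w1939 v12021 w340 v12032 v12046 w358 w801 v12027 w1592 w1160 v12047 w1941 w1975 v7763 v3003 v5787 w5513 w5407 v6707 v11442 v12029 v2560 w8707 w9076 w6731 w6363 v390 w2871 v3481 v2543 v5412 v3488 v5208 v3501 v7707 v12048 v3240 w1816 v11943 w2011 v2882 v2891 v12036 v1000 v11933 v4348 v3700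
theorem v12050 : PV l12050 := r12050 v490 v3927 v5035 v4083 v11960 w1132 w1160 v12011 v7767 w9147 w9066
theorem v12051 : PV l12051 := r12051 v10394 v10393 v11371 v6818 v7703 v11392 v4900 v4889 v11394
theorem v12052 : PV l12052 := r12052 w1644 v1073 w1647 w1758 w2528 w6034 w3994 w4035 w6309 v5808 w1530
theorem v12053 : PV l12053 := r12053 v3008 v1217 v10798 v6465 v4057 w2451 v7050 v2779
theorem v12054 : PV l12054 := r12054 v3008 v1218 v12053 v3308 v9811 v1073 w2448 v3095 v3091 v9004
theorem v12055 : PV l12055 := r12055 v5992 v5004 v5006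
theorem v12056 : PV l12056 := r12056 v9086 v9084
theorem v12057 : PV l12057 := r12057 v10394 v10393 v3927 v11466 v11371 w1152 v11305 v494 v490 v7703 v3008 v11923 v11922 v3378 v11301 v503 w4887 v1218 v8376 v12049 v2674 v2846 v3370 v6818 v3431 w4897 v476 w4904 w4471 v11795 v4664 w5458 w3543 w1939 v12019 v3505 v3512 w8798 v3933 v4969 w5195 w5193 v2998 v5035 w4550 v4850 v5719 v390 v485 v11453 w1159 w1569 v3490 v12033 w2393 v12050 w801 w358 v3473 v3494 v4769 v3435 v4968 w5381 w4972 w5380 w4977 w4910 v3387 w1124 v325 w1606 v3319 v12011 w5825 w5838 v8367 v9140 v3003 v4607 v2543 v11237 v11167 v6209 v5034 v12051 v5178 v12054 v4763 v9145 v12056 v3308 v10068 v7120 v7859 v5033 w3957 v5029 v4994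
theorem v12058 : PV l12058 := r12058 v10393 v11453 v11466 v11371 w1159 v3927 w1152 w1569 v11923 v11922 v3378 v11305 w5195 w5193 v12019 v7703 v3008 v11301 v503 w4887 v1218 v8376 v12049 v2674 v2846 v390 v3431 w4897 v476 w4904 w4471 v11795 v3505 v485 v3512 v3490 v12033 v2998 v5035 w4550 v4850 v5719 v494 v490 v1217 v4969 v3370 v6818 v3933 w2393 v12050 w358 v12057 w1160 v12028 v12031 v10911 w5513
theorem v12059 : PV l12059 := r12059 v10393 v11923 w1975 v11922 v7703 v2998 v5035 v3378 v11301 w4904 v11305 w4550 v4850 w5195 w5193 v4769 v11466 v11371 v3008 v503 w4887 v1218 v8376 v3000 v4841 v3387 v6818 v3933 v3927 v325 w1132 w1160 v9109 v12022 w5513 v4083 v11214 v9898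
theorem v12060 : PV l12060 := r12060 v10393 v11371 v8376 v2674 v6247 w358 v5717 v6271 v8566 w5825
theorem v12061 : PV l12061 := r12061 v10393 v12019 v11923 v11922 v7703 v2998 v5035 v3378 v11301 w4904 v11305 w4550 v4850 w5195 w5193 v4769 v3435 v3431 v11466 v11371 v3008 v503 w4887 v1218 v8376 v1217 v476 w4471 v4969 v4968 v3000 v4841 w4897 w4883 v3387 w1159 v3927 w1152 w1569 v11453 v12049 v2674 v2846 v390 v11795 v3505 v485 v3494 v3512 v3490 v12033 v12058 w1975 v12059 v3318 v3319 v12060 v4082 v12029 v12030 v7935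
theorem v12062 : PV l12062 := r12062 v3927 w1160 v12011 v9965 w5825
theorem v12063 : PV l12063 := r12063 v10393 v11453 v11466 v11371 w1159 v3927 w1152 w1569 v11923 v11922 v3378 v11305 w5195 w5193 v12019 v7703 v3008 v11301 v503 w4887 v1218 v8376 v2673 v2846 v390 v3431 w4897 v476 w4904 w4471 v11795 v3505 v485 v3512 v3490 v12033 v2998 v5035 w4550 v4850 v5719 v494 v490 v1217 v4969 v3370 v6818 v3933 w2393 v12050 w358 v12062 v12031 w5513 v9208
theorem v12064 : PV l12064 := r12064 v10395 v10393 v11371 v3318 w1941 v8376 v2673 w358 v6268 v6271 w5837 v2576 v8566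
theorem v12065 : PV l12065 := r12065 v10393 v12019 v11923 v11922 v7703 v2998 v5035 v3378 v11301 w4904 v11305 w4550 v4850 w5195 w5193 v4769 v3435 v3431 v11466 v11371 v3008 v503 w4887 v1218 v8376 v476 w4471 v4968 v3000 v4841 w4897 w4883 w5381 w1159 v3927 w1152 w1569 v11453 v2673 v2846 v390 v11795 v3505 v485 v3494 v3512 v3490 v12033 v12063 w1975 v12059 v3318 v3319 v12064 v4082 v12029 v12030 v7935
theorem v12066 : PV l12066 := r12066 v10393 v11453 w1939 w3556 w3564 v12033 w306 w780 w8504 w5775 w8799 w8798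
theorem v12067 : PV l12067 := r12067 v10393 v10394 v8363 v12066 v390 v2846 v6184 v4800 v4661
theorem v12068 : PV l12068 := r12068 w5825 w2393 w351 v7703 v3008 v325 v5035 w358 v12067 v7733 w9147 w9066
theorem v12069 : PV l12069 := r12069 v3008 v325 v10977 v9099 v8870 v1084 v5847 v5267 w3958 v6290
theorem v12070 : PV l12070 := r12070 v7703 v5035 v12069 v5034 v9145 v10799 v3308 v1073 v3095 v9096 v713 v5072 v5050
theorem v12071 : PV l12071 := r12071 v7703 v5035 v5034 v9145 v10799 v3308 v1073 v3095 w6034 v9096 w3947 v713 v4995 v5050 v4049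
theorem v12072 : PV l12072 := r12072 v7703 v12071 v10977 v3008 v325 v12070 v9060 v7838 v1084 v5847 v5267 w3958 v6290
theorem v12073 : PV l12073 := r12073 v1084 v5847 v3095 v407 v409 v3989 v728 v4512 v4701
theorem v12074 : PV l12074 := r12074 v9099 v1246 v4070 w2460 w3906 v6290
theorem v12075 : PV l12075 := r12075 v7703 v3008 v325 v12071 v10977 v12072 v10454 v12073 v3308 v3303 v12074 v7053 w3958 w3906 v6288
theorem v12076 : PV l12076 := r12076 v7703 v3008 v1218 v5035 v5034 v9145 v12053 v3308 v1073 v3095 w6034 v9096 w3947 v713 v4995 v5050 v4049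
theorem v12077 : PV l12077 := r12077 v7703 v3008 v1218 v325 v12075 v5178 v12076 v10977 v12073 v3308 v9755 v9754 v3091 w5875 w6459
theorem v12078 : PV l12078 := r12078 v10393 v7703 v5035 v4502 v10801 w101 w119 v10799 v3308 v10815 v1073 v4889 v3095 v10756 v9096
theorem v12079 : PV l12079 := r12079 v9099 v9754 v9028 v785
theorem v12080 : PV l12080 := r12080 v10977 v3008 v325 v12069 v12074 v10454
theorem v12081 : PV l12081 := r12081 v3008 v325 v10977 v12073 v3308 v3303 v12079 v12080 v7053 v7838 v10454 v4070 w3906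
theorem v12082 : PV l12082 := r12082 v3008 v1218 v1217 v12053 v8261 v8262 v3308 v3091 v1073
theorem v12083 : PV l12083 := r12083 v10394 v10393 w2393 v12065 v12061 v12019 v11923 v11922 v7703 v2998 v5035 v3378 v11301 w4904 v11305 w4550 v4850 w5195 w5193 v4769 v494 v490 w5506 v3435 v3431 w351 w352 v11466 v11371 v3008 v503 w4887 v1218 v8376 v1217 v476 w4471 v4969 v4968 v3000 v4841 w5380 w4977 w4897 w4883 w4910 v3387 v3370 v6818 w1117 v3933 w1124 w1565 w1159 v3927 w1152 w1569 v325 w1939 w1132 w1160 v12011 w5825 w5838 v12068 v4083 v8367 v12027 v4608 v3003 v4607 v2674 v11237 v8882 w9057 v2846 w3543 v2543 w8920 v390 v11795 v4664 v3505 v12066 w5458 v485 w8798 v3490 w8905 w801 v6209 v12077 v12081 v5034 v12078 v5178 v12082 v12056 v3308 v10068 v7120 v7859 v5033 w3949 v4999 v5029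
theorem v12084 : PV l12084 := r12084 v11923 v11922 v7703 v3008 v3378 v11301 v503 w4887 v1218 v2998 v5035 w4904 v11305 w4550 v4850 v5719 w5195 w5193 v3431 v1217 v3370 v12083 v11960 v12031 w5513 v9208
theorem v12085 : PV l12085 := r12085 v11923 w1975 v11922 v7703 v2998 v5035 v3378 v11301 w4904 v11305 w4550 v4850 w5195 w5193 v4769 v3008 v503 w4887 v1218 v3000 v4841 v3387 v3927 v325 w1160 v9109 w5513 v7190 v11214 v4083 v9898
theorem v12086 : PV l12086 := r12086 v10393 v11371 w358 v6271 w5825 v8566 v3003 v6141 v2576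
theorem v12087 : PV l12087 := r12087 w4576 w5825 v11511 v8569 v5663
theorem v12088 : PV l12088 := r12088 v10394 v4661 v4800
theorem v12089 : PV l12089 := r12089 v10393 v10395 v12019 v11923 v11922 v3378 v11305 w5195 w5193 w5506 v3435 w351 v7703 v3008 v11301 v503 w4887 v1218 w4904 v4968 v3000 v5035 v4841 w4897 w4883 w4910 v3387 w1159 v3927 v11466 v11371 w1152 w1569 v6818 v325 v12065 v12061 v12084 w1975 v12085 v3319 v12086 v4083 v12087 v2617 v11442 v3003 w6731 v12066 v390 w2871 v5412 v12088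
theorem v12090 : PV l12090 := r12090 v2707 v5653 v5711
theorem v12091 : PV l12091 := r12091 v10394 v10393 w358 w5825 w1160 w2393 w1970 v494 v490 v5035 v11371 v8376 w305 w351 w799 w1969 w1152 v6818 v7703 v3008 v325 w1939 v12090 v2590 v2583 v7478 w9147 w8906 v12066 v12067 v390 v2846 v6184 v11800 v2674 v5208 v3481 v3501 v12015 v7707 v3240 w1816 v11943 w2011 v2882 v2891 v12036 v1000 v11933 v437 v4325 v3652 v3700
theorem v12092 : PV l12092 := r12092 v10393 w5825 w1160 w2393 v494 w351 v11371 v8376 w1152 v5035 w358 v12091 v2673 v2846 v390 v12066 v8733 w9147 w9066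
theorem v12093 : PV l12093 := r12093 v10393 v10394 w2393 v12089 v12019 v11923 v11922 v7703 v2998 v5035 v3378 v11301 w4904 v11305 w4550 v4850 w5195 w5193 v4769 v3008 v503 w4887 v1218 v5719 v494 v490 w5506 v3435 v3431 v11466 v11371 v8376 v1217 v476 w4471 v4969 v4968 v3000 v4841 w5381 w4972 w4897 w4910 v3387 v3370 w5380 w1159 v3927 w1152 w1575 w1569 v6818 v3933 w1939 w1132 w1160 v12011 w5825 w5838 v12092 v4083 v12027 v8367 v2674 v4608 v2543 v2846 w3543 v8882 v11795 v4664 w5458 w8798 w801 w8662 w8484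
theorem v12094 : PV l12094 := r12094 v12089 v11923 v11922 v7703 v3008 v3378 v11301 v503 w4887 v1218 v2998 v5035 w4904 v11305 w4550 v4850 v5719 w5195 w5193 v3431 v1217 w4910 v3370 v12093 v12017 v12031 w5513 v9208
theorem v12095 : PV l12095 := r12095 v10395 v10394 v10393 v5035 v11466 v11371 v7703 v3008 v11923 v11922 v3378 v11301 v503 w4887 v1218 v8376 w305 v1217 w4904 v4969 v4968 v3000 v4841 w5381 w4972 w4897 w4883 w4910 v3387 v3370 w1969 v2998 w1159 v3927 w1152 w1575 w1569 v6818 v325 w1939 w351 v11305 w799 v494 v3431 v3435 w4550 w5195 w5506 v4850 w5193 w1970 v5719 v4769 v12019 v12089 v12094 w1975 v12085 v3319 v12086 v4083 v12087 v2617 v6707 v11442 v3003 w6731 w6363 v12066 v390 w2871 v2846 v5412 v11800 v2674 v2673 v12088 v5208 v5730 v3481 v3501 v12015 v3488 v7707 v3240 w1816 v11943 w2011 w2396 v2882 v2891 v2879 v12036 v1000 w313 v11933 w391 w5107 w6843 w6937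
theorem v12096 : PV l12096 := r12096 v10393 v11466 v11371 v6818 w1117 v3933 w1124 w1565 v7703 v3008 w1939 v11923 w1969 v11922 w2364 v3378 v503 v3370 v11301 w4887 v1218 v8376 v12095 v3430 w301 w5364 v6253
theorem v12097 : PV l12097 := r12097 v10393 w5485 v3490 w8799
theorem v12098 : PV l12098 := r12098 v10394 v10393 w351 v11466 v11371 v5035 v7703 v3000 v12096 v4838 v4834 v8458 v11294 v501 w1159 v3927 w1152 w1569 v6818 v11453 v3374 v8854 v5038 w306 v5208 w780 v390 w3549 v12097 v485 v3483 v3505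
theorem v12099 : PV l12099 := r12099 v10393 v7703 v3000 v12096 v11294 v501 v5035 v4838 v4834 v2998 v2996 v11466 v11371 v8376 v12098 v4773 v5388 v4846 v4772 w4326 v3762
theorem v12100 : PV l12100 := r12100 v10393 v7703 v5035 v3000 v12096 v4838 v11294 w4557 v1145 w4563 v3006 v11466 v11371 v4834 v8458 v501 v12098 v5039 v8901 v5038
theorem v12101 : PV l12101 := r12101 v3006 v6476 v8790 w2501
theorem v12102 : PV l12102 := r12102 w2552 w2530 w6313 w4185 w5816 w6047 v8782 w1530
theorem v12103 : PV l12103 := r12103 v10393 v5039 v7703 w4557 v1145 v11371 v8458 w5823 w4543 v6001 v5268 v5274 w5818 v3008 v1218 v421 v3927 w1160 v6818 v3933 w1132 v2992 v3012 v1146 w4563 v3007 v3006 v4967 v2996 w1152 v5035 v8817 v8776 w853 v8789 w923 v5034 v4502 v4526 w99 w118 w804 v12101 v3308 w1643 w1644 w1647 w1732 w1760 v12102 v4058 w4079 w4157 w4229 v3974 v8782 v3054 w1530 w6047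
theorem v12104 : PV l12104 := r12104 v3303 v9961 v8861 v8863 v3091 v1246 v4029 w2454
theorem v12105 : PV l12105 := r12105 v10393 v5034 v4526 v3008 v1218 v421 v2992 v1145 w1643 w1644 w1647 w1732 w1760 v12102 v12104 v4058 w4079 w4157 w4229 v3974 v8782 v3054 w1530 w6047
theorem v12106 : PV l12106 := r12106 v10393 v7703 v1145 v11371 v8458 v6001 v5274 v3008 v1218 v421 v3012 v6818 v3933 v5035 v4502 v8874 w99 w118 w804 w853 w923 v12105 v3308 v12104 w2493 w2489 v8858
theorem v12107 : PV l12107 := r12107 v421 v6566 w4081 w4076 w4085 v8757 v8788 v8870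
theorem v12108 : PV l12108 := r12108 v421 v3007 v3006 v12107 v9744 v7772 v9663 v8830
theorem v12109 : PV l12109 := r12109 v10395 v10394 v10393 v3927 w1160 w358 w9147 w4844 v11371 v8458 w5823 w4543 v5274 v6818 v7703 w4557 v1146 v8818 v5208 w3461 v2835 v5039 v1145 v6001 v5268 w5818 v3008 v1218 v421 v3933 w1132 v5035 w352 w4563 v3006 v4967 v2996 w1116 w1152 w340 w297 v1127 w5841 w5742 w8522 v12103 v8833 v12106
theorem v12110 : PV l12110 := r12110 v10393 w306 v3483 w780 v12097
theorem v12111 : PV l12111 := r12111 v10393 v7703 w4557 v1145 v11371 v8458 w5823 w4543 v6001 v5268 v5274 v3008 v1218 w358 v3927 w1160 v1146 w4563 v2707 v9435 w9147 v12109 v12108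
theorem v12112 : PV l12112 := r12112 v10393 v7703 w4557 v1145 v11371 v8458 w5823 w4543 v6001 v5268 v5274 w5818 v3008 v1218 v421 v3927 w1160 v6818 v3933 w1132 v1146 w4563 v3006 v4967 v2996 v12103 v8843 v12106
theorem v12113 : PV l12113 := r12113 v10393 v3006 w2493 w2542 w2569 w2443 v8546
theorem v12114 : PV l12114 := r12114 v8713 v3308 v4058 v713 w3891 w5915
theorem v12115 : PV l12115 := r12115 v10393 v5039 v7703 w4557 v1145 v11371 v8458 w5823 w4543 v6001 v5268 v5274 v3927 w1160 w4563 v3006 w1152 v8817 v6476 v12114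
theorem v12116 : PV l12116 := r12116 v10393 v7703 w4557 v1145 v11371 v8458 w5823 w4543 v6001 v5268 v5274 w5818 v3008 v1218 v421 v3927 w1160 v6818 v3933 w1132 v2992 v3012 v1146 w4563 v3006 v4967 v12108 v8874 v12112 v1245 v12113 v12115 v12104 v12114 v8843
theorem v12117 : PV l12117 := r12117 v3008 v325 v8810 v7772 v8043 v8830 v9202
theorem v12118 : PV l12118 := r12118 v10395 v10394 v10393 v7703 w4557 v1145 v11371 v8458 w5823 w4543 v6001 v5268 v5274 w5818 v3008 v1218 v421 w358 v3927 w1160 v6818 v3933 w1132 w2393 w351 v5035 w352 v2992 v3012 v1146 w4563 v3007 v3006 v501 v4967 w1116 v11453 w1939 v3216 w1970 v4774 w1969 w2366 w2367 w2370 v8818 v5039 v5208 w305 v390 v2839 w3461 w3554 w3555 v4662 w800 w799 w8465 w8506 w5165 w4844 w8915 w8801 v3500 v12110 w340 w297 v4438 w771 w8799 w5494 w5840 w5745 v3478 v3484 w8522 v12111 v3003 v2574 v2599 v8837 v12116 v1244 v12117 v8874 v12113 w2460 v12115 v8895 v8843 v12114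
theorem v12119 : PV l12119 := r12119 v4772 v3758 v3762
theorem v12120 : PV l12120 := r12120 v10395 v10394 v10393 w351 v5035 v7703 v11371 v8458 v6818 w4557 v1146 v11453 v2996 v501 v12119 w1970 w2366 v8818 v5039 w305 w799 v2673 w1939 v3216 w1969 w2367 v3008 v1218 v421 w358 v3927 w1160 w2393 v1145 w4563 v4967 w1152 w5823 w5818 w4543 v5274 v5268 v6001 v5208 v390 v2839 w3555 v12118 v12110 w8506 v1138 w5169 w5168 v4438 w8801 v8819 v3478 v3484 v3500 w771 v8843 w8799 w5840
theorem v12121 : PV l12121 := r12121 v10395 v10394 v10393 w358 v3927 w1160 w2393 w351 v7703 w4557 v1146 v11371 v8458 v501 v2996 v6818 v5035 v11453 w1939 v12119 v3216 w1970 v3763 w1969 w2366 w2367 v8818 v5039 w305 w799 v12120 w4525 v8106 v8107 v5274 w8978 v5208 v390 v2839 w3555 v5460 v12110 w8506 w5485 v3491 v11404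
theorem v12122 : PV l12122 := r12122 v10394 v10393 v11371 v6818 v5208 v4662 v3505 w5333 w5337
theorem v12123 : PV l12123 := r12123 v10395 v10393 w1939 w1935 w2383 w2364
theorem v12124 : PV l12124 := r12124 v8733 v8363
theorem v12125 : PV l12125 := r12125 v10393 v5034 v4526 v3308 w1643 w1644 w1647 w1732 w1760 v12102 v4063 w4079 w4157 w4229 v3974 v8782 v3054 w1530 w6047
theorem v12126 : PV l12126 := r12126 v10393 v7703 v1145 v11371 v8458 v6001 v5274 v3008 v1218 v421 v6818 v3933 w1132 v2992 v3012 v3006 v5035 v4502 v8874 w118 w804 w99 w853 w923 v12125 v12101 v12106 v8825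
theorem v12127 : PV l12127 := r12127 v10394 v2844
theorem v12128 : PV l12128 := r12128 v10394 v2944
theorem v12129 : PV l12129 := r12129 v10394 v2945
theorem v12130 : PV l12130 := r12130 v10395 v2954
theorem v12131 : PV l12131 := r12131 v10395 w6532
theorem v12132 : PV l12132 := r12132 v10395 w8592
theorem v12133 : PV l12133 := r12133 v10395 w1941
theorem v12134 : PV l12134 := r12134 v10395 w1935
theorem v12135 : PV l12135 := r12135 v10393 w1939
theorem v12136 : PV l12136 := r12136 v10395 v3215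
theorem v12137 : PV l12137 := r12137 v10395 w1932
theorem v12138 : PV l12138 := r12138 v10395 w1930
theorem v12139 : PV l12139 := r12139 v10393 w1931
theorem v12140 : PV l12140 := r12140 v10395 w1923
theorem v12141 : PV l12141 := r12141 v10395 w1925
theorem v12142 : PV l12142 := r12142 v10395 w1927
theorem v12143 : PV l12143 := r12143 v10395 w1928
theorem v12144 : PV l12144 := r12144 v10395 w1921
theorem v12145 : PV l12145 := r12145 v10393 w1922
theorem v12146 : PV l12146 := r12146 v10395 w1913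
theorem v12147 : PV l12147 := r12147 v10393 w1914
theorem v12148 : PV l12148 := r12148 v10393 w1643
theorem v12149 : PV l12149 := r12149 v10395 w1642
theorem v12150 : PV l12150 := r12150 v10393 v3478
theorem v12151 : PV l12151 := r12151 v10393 v3483
theorem v12152 : PV l12152 := r12152 v10393 v3484
theorem v12153 : PV l12153 := r12153 v10393 v3500
theorem v12154 : PV l12154 := r12154 v10393 v3815
theorem v12155 : PV l12155 := r12155 v10394 v3826
theorem v12156 : PV l12156 := r12156 v10394 v3833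
theorem v12157 : PV l12157 := r12157 v10394 v3836
theorem v12158 : PV l12158 := r12158 v10394 v3837
theorem v12159 : PV l12159 := r12159 v10395 v3854
theorem v12160 : PV l12160 := r12160 v10395 v3855
theorem v12161 : PV l12161 := r12161 v10395 v3856
theorem v12162 : PV l12162 := r12162 v10395 w6639
theorem v12163 : PV l12163 := r12163 v10394 v4243
theorem v12164 : PV l12164 := r12164 v10394 v4244
theorem v12165 : PV l12165 := r12165 v10394 v4245
theorem v12166 : PV l12166 := r12166 v10394 v4247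
theorem v12167 : PV l12167 := r12167 v10394 v4248
theorem v12168 : PV l12168 := r12168 v10395 v4439
theorem v12169 : PV l12169 := r12169 v10395 v4441
theorem v12170 : PV l12170 := r12170 v10395 v4443
theorem v12171 : PV l12171 := r12171 v10395 v4447
theorem v12172 : PV l12172 := r12172 v10395 w8640
theorem v12173 : PV l12173 := r12173 v10395 v4576
theorem v12174 : PV l12174 := r12174 v10395 v4592
theorem v12175 : PV l12175 := r12175 v10394 v4633
theorem v12176 : PV l12176 := r12176 v10395 w8450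
theorem v12177 : PV l12177 := r12177 v10394 v4663
theorem v12178 : PV l12178 := r12178 v10394 v4800
theorem v12179 : PV l12179 := r12179 v10393 v4888
theorem v12180 : PV l12180 := r12180 v10393 v4891
theorem v12181 : PV l12181 := r12181 v10393 v4892
theorem v12182 : PV l12182 := r12182 v10393 v4894
theorem v12183 : PV l12183 := r12183 v10393 v4896
theorem v12184 : PV l12184 := r12184 v10394 v4900
theorem v12185 : PV l12185 := r12185 v10394 v4902
theorem v12186 : PV l12186 := r12186 v10394 v4903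
theorem v12187 : PV l12187 := r12187 v10394 v4905
theorem v12188 : PV l12188 := r12188 v10395 v4908
theorem v12189 : PV l12189 := r12189 v10395 v4909
theorem v12190 : PV l12190 := r12190 v10395 v4911
theorem v12191 : PV l12191 := r12191 v10395 v4913
theorem v12192 : PV l12192 := r12192 v10393 v4613
theorem v12193 : PV l12193 := r12193 v10393 v5250
theorem v12194 : PV l12194 := r12194 v10393 v2673
theorem v12195 : PV l12195 := r12195 v10393 v2674
theorem v12196 : PV l12196 := r12196 v10395 v2702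
theorem v12197 : PV l12197 := r12197 v10393 v2697
theorem v12198 : PV l12198 := r12198 v10395 v2531
theorem v12199 : PV l12199 := r12199 v10394 v3532
theorem v12200 : PV l12200 := r12200 v10393 v2681
theorem v12201 : PV l12201 := r12201 v10393 v5226
theorem v12202 : PV l12202 := r12202 v10393 v2668
theorem v12203 : PV l12203 := r12203 v10393 v4612
theorem v12204 : PV l12204 := r12204 v10393 v2672
theorem v12205 : PV l12205 := r12205 v10393 v3497
theorem v12206 : PV l12206 := r12206 v10394 v3526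
theorem v12207 : PV l12207 := r12207 v10393 v3488
theorem v12208 : PV l12208 := r12208 v10393 v4217
theorem v12209 : PV l12209 := r12209 v10393 v3474
theorem v12210 : PV l12210 := r12210 v10393 v3513
theorem v12211 : PV l12211 := r12211 v10393 v3506
theorem v12212 : PV l12212 := r12212 v10393 v3494
theorem v12213 : PV l12213 := r12213 v10393 v3512
theorem v12214 : PV l12214 := r12214 v10393 v5198
theorem v12215 : PV l12215 := r12215 v10393 v4241
theorem v12216 : PV l12216 := r12216 v10393 v5225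
theorem v12217 : PV l12217 := r12217 v10394 v4437
theorem v12218 : PV l12218 := r12218 v10394 v3835
theorem v12219 : PV l12219 := r12219 v10393 v4889
theorem v12220 : PV l12220 := r12220 v10393 v3809
theorem v12221 : PV l12221 := r12221 v10393 v4425
theorem v12222 : PV l12222 := r12222 v10393 v4427
theorem v12223 : PV l12223 := r12223 v10393 v2842
theorem v12224 : PV l12224 := r12224 v10393 v4224
theorem v12225 : PV l12225 := r12225 v10393 v3490
theorem v12226 : PV l12226 := r12226 v10393 v6247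
theorem v12227 : PV l12227 := r12227 v10393 v3491
theorem v12228 : PV l12228 := r12228 v10394 v4662
theorem v12229 : PV l12229 := r12229 v10393 v2675
theorem v12230 : PV l12230 := r12230 v10393 v3481
theorem v12231 : PV l12231 := r12231 v10394 v3838
theorem v12232 : PV l12232 := r12232 v10393 v4614
theorem v12233 : PV l12233 := r12233 v10394 v4431
theorem v12234 : PV l12234 := r12234 v10394 v4429
theorem v12235 : PV l12235 := r12235 v10394 v10393 v5224
theorem v12236 : PV l12236 := r12236 v10393 v5242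
theorem v12237 : PV l12237 := r12237 v10393 v5238
theorem v12238 : PV l12238 := r12238 v10393 v3487
theorem v12239 : PV l12239 := r12239 v10393 v5175
theorem v12240 : PV l12240 := r12240 v10393 v3510
theorem v12241 : PV l12241 := r12241 v10394 v5208
theorem v12242 : PV l12242 := r12242 v10394 v3520
theorem v12243 : PV l12243 := r12243 v10394 v3524
theorem v12244 : PV l12244 := r12244 v10393 v3501
theorem v12245 : PV l12245 := r12245 v10393 v3509
theorem v12246 : PV l12246 := r12246 v10393 v3502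
theorem v12247 : PV l12247 := r12247 v10394 v4664
theorem v12248 : PV l12248 := r12248 v10393 v3473
theorem v12249 : PV l12249 := r12249 v10393 v3505
theorem v12250 : PV l12250 := r12250 v10393 v3499
theorem v12251 : PV l12251 := r12251 v10393 v5617
theorem v12252 : PV l12252 := r12252 v10393 v5467
theorem v12253 : PV l12253 := r12253 v10393 v5730
theorem v12254 : PV l12254 := r12254 v10393 v5731
theorem v12255 : PV l12255 := r12255 v10393 v5732
theorem v12256 : PV l12256 := r12256 v10393 v5460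
theorem v12257 : PV l12257 := r12257 v10393 v5733
theorem v12258 : PV l12258 := r12258 v10393 v5434
theorem v12259 : PV l12259 := r12259 v10393 v5603
theorem v12260 : PV l12260 := r12260 v10393 v5438
theorem v12261 : PV l12261 := r12261 v10393 v5411
theorem v12262 : PV l12262 := r12262 v10393 v5413
theorem v12263 : PV l12263 := r12263 v10393 v5600
theorem v12264 : PV l12264 := r12264 v10395 v5412
theorem v12265 : PV l12265 := r12265 v10394 v5651
theorem v12266 : PV l12266 := r12266 v10395 v5437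
theorem v12267 : PV l12267 := r12267 v10393 v6224
theorem v12268 : PV l12268 := r12268 v10393 v6217
theorem v12269 : PV l12269 := r12269 v10393 v7250
theorem v12270 : PV l12270 := r12270 v10393 v6212
theorem v12271 : PV l12271 := r12271 v10393 v6200
theorem v12272 : PV l12272 := r12272 v10393 v6001
theorem v12273 : PV l12273 := r12273 v10393 v6462
theorem v12274 : PV l12274 := r12274 v10394 v6886
theorem v12275 : PV l12275 := r12275 v10393 v6246
theorem v12276 : PV l12276 := r12276 v10393 v6178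
theorem v12277 : PV l12277 := r12277 v10393 v6818
theorem v12278 : PV l12278 := r12278 v10393 v5909
theorem v12279 : PV l12279 := r12279 v10393 v6889
theorem v12280 : PV l12280 := r12280 v10393 v6245
theorem v12281 : PV l12281 := r12281 v10393 v7472
theorem v12282 : PV l12282 := r12282 v10393 v6170
theorem v12283 : PV l12283 := r12283 v10393 v6811
theorem v12284 : PV l12284 := r12284 v10393 v6184
theorem v12285 : PV l12285 := r12285 v10393 v7254
theorem v12286 : PV l12286 := r12286 v10393 v5989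
theorem v12287 : PV l12287 := r12287 v10393 v6249
theorem v12288 : PV l12288 := r12288 v10393 v5925
theorem v12289 : PV l12289 := r12289 v10395 v7415
theorem v12290 : PV l12290 := r12290 v10393 v5949
theorem v12291 : PV l12291 := r12291 v10393 v6133
theorem v12292 : PV l12292 := r12292 v10393 v6248
theorem v12293 : PV l12293 := r12293 v10393 v7255
theorem v12294 : PV l12294 := r12294 v10393 v8671
theorem v12295 : PV l12295 := r12295 v10393 v8900
theorem v12296 : PV l12296 := r12296 v10393 v8647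
theorem v12297 : PV l12297 := r12297 v10395 v8818
theorem v12298 : PV l12298 := r12298 v10393 v8607
theorem v12299 : PV l12299 := r12299 v10394 v8464
theorem v12300 : PV l12300 := r12300 v10393 v8458
theorem v12301 : PV l12301 := r12301 v10393 v8377
theorem v12302 : PV l12302 := r12302 v10393 v7638
theorem v12303 : PV l12303 := r12303 v10393 v7666
theorem v12304 : PV l12304 := r12304 v10393 v8603
theorem v12305 : PV l12305 := r12305 v10393 v8903
theorem v12306 : PV l12306 := r12306 v10393 v8901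
theorem v12307 : PV l12307 := r12307 v10393 v8848
theorem v12308 : PV l12308 := r12308 v10393 v8776
theorem v12309 : PV l12309 := r12309 v10393 v8874
theorem v12310 : PV l12310 := r12310 v10395 v8925
theorem v12311 : PV l12311 := r12311 v10393 v8567
theorem v12312 : PV l12312 := r12312 v10393 v8615
theorem v12313 : PV l12313 := r12313 v10393 v8614
theorem v12314 : PV l12314 := r12314 v10393 v8376
theorem v12315 : PV l12315 := r12315 v10393 v8235
theorem v12316 : PV l12316 := r12316 v10395 v7726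
theorem v12317 : PV l12317 := r12317 v10393 v8249
theorem v12318 : PV l12318 := r12318 v10393 v7707
theorem v12319 : PV l12319 := r12319 v10395 v10394 v9117
theorem v12320 : PV l12320 := r12320 v10393 v7876
theorem v12321 : PV l12321 := r12321 v10394 v9791
theorem v12322 : PV l12322 := r12322 v10395 v9976
theorem v12323 : PV l12323 := r12323 v10395 v10107
theorem v12324 : PV l12324 := r12324 v6566 w4076 v8757 v3308 v8870 v4073 v8779 v2786 w3888 w6115
theorem v12325 : PV l12325 := r12325 v8474 v9573 v1246 v8845 v9572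
theorem v12326 : PV l12326 := r12326 v407 v409 v4763 v3008 v325 w2493 w2501 w2489 v12325 v4993 v4551 v9747
theorem v12327 : PV l12327 := r12327 v3007 v3006 v12324 v7772 v12326 v9663 v9575 v9388 v9389 v3303 v2789 v8846 v5672 w5853 v5267
theorem v12328 : PV l12328 := r12328 w340 v7703 v1145 v11371 v12300 v12272 v5274 w358 v12277 v3933 w1132 v5035 w352 v2992 v3012 v3007 v3006 v2996 v5034 v12309 v12126 v4526 v9435 w6362 v2574 v2599 v8837 v1245 v12113 w2460 v8895 v3308 v4063 v12114 w4079 w4084 w3897 v1073 v3974 v713 v4984 v4045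
theorem v12329 : PV l12329 := r12329 v4763 w2493 v8474 v4993 v4551 v9747
theorem v12330 : PV l12330 := r12330 w5818 v7703 v3007 v495 v12124 w5823 v1137 v1145 v11371 v12300 v12272 v5268 v5274 v3008 v1218 v421 w358 w351 v1146 v3006 v4967 v12277 v3933 w1116 v325 v5035 v5039 v12241 w305 v12194 v390 v2839 w3461 w3554 w3555 v12228 w800 w799 v12110 w8465 w8506 w5165 v4438 w297 w4844 w8915 w8801 v12153 w771 w8799 w5494 w5840 w5745 v12150 v12152 w8522 v12328 v12327 w9147 v2707 v2574 v8837 v8810 v1244 v7772 v407 v409 v12329 v9388 w2460 v4554 v5045 v3303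
theorem v12331 : PV l12331 := r12331 v11371 v12277 v476 v12218 w4705 w4695 v12260 v12214
theorem v12332 : PV l12332 := r12332 w2393 v7703 v5035 v3000 v12096 v4838 v11294 w4563 v3007 v3927 w1160 v501 v495 v12124 v12100 v3380 v12099 w358 v11466 v11371 v12277 v3933 w1132 v498 v3435 v3431 w351 v4834 v12300 v3011 w4557 v1145 v4844 v2996 w1117 w1124 w1566 w1565 w1159 w1152 w1575 w1569 v12123 v11453 v12135 v12119 v3216 w1970 v4774 v3763 w1969 w4525 w2367 w2370 v5274 v12121 v12331 v5039 v12241 v12330 w305 w312 v390 v2839 w3548 v8106 v8107 w800 v12110 v2574 v2542 w8978 w3838 v4438 v12256 v3349 w774 v8812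
theorem v12333 : PV l12333 := r12333 v11371 v12300 v12277 v5039 v12122 v12216 v12129 w4705 v12244 v12249
theorem v12334 : PV l12334 := r12334 v7703 v11466 v11371 v5035 v3000 v12096 v4838 v4834 v12300 v3011 v11294 w4557 v1145 v3008 v3026 v3025 v12099 v1218 v12332 v12333 v12331 w4510 w4543 v3797 w4863 v4867
theorem v12335 : PV l12335 := r12335 v4773 v12119
theorem v12336 : PV l12336 := r12336 v5039 v7703 v11466 v11371 v5035 v3000 v12096 v4838 v4834 v12300 v3012 v11294 v501 w1159 v3927 w1152 w1569 v12277 v11453 v3374 v12295 v12241 v11800 v12233 v12282 w3549 v12110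
theorem v12337 : PV l12337 := r12337 v8799 v8866 v8870
theorem v12338 : PV l12338 := r12338 v3007 v4967 v3008 v325 v12108 v12337 v9744 v7772 v3308 v8846
theorem v12339 : PV l12339 := r12339 v5034 v4526 v5274 v3008 v3303 v12104 v4059 w2493 w2501 w2489 w2569 v8858 v8859 w1647
theorem v12340 : PV l12340 := r12340 v3308 w853 w2493 w2552 w2530 v3993 w6313 v409 w4185 v4993 w6047 w823 w865 w819
theorem v12341 : PV l12341 := r12341 v5268 v5274 v7703 v3008 v1218 v11371 v12300 v2992 v3012 v1146 v1145 v3006 v4967 v12277 v3933 v325 v5035 v4606 v9776 v3003 w6585 w6497 v12338 v5034 v4502 v12309 v11713 v4526 w118 w99 w853 w923 v12339 v3308 v12148 w1644 w1647 w1732 w1760 v12340 v4058 v12114 w4079 w3906 v1246 v3974 w2460 v3052 v4026 v8859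
theorem v12342 : PV l12342 := r12342 v5035 v12334 v4083 v3927 w1160 w2393 v7703 v3000 v12096 v11294 v498 v3435 v3431 w351 w352 v4838 w4557 v1146 v11466 v11371 v4834 v12300 w4563 v501 v4844 v2996 v12277 w1117 v3933 w1124 w1566 w1565 w1116 w1159 w1152 w1575 w1569 v12123 v11453 v12135 v12297 v5039 w305 v12216 v12194 w800 w799 v12336 v3380 v12119 v12335 v3216 w1970 v4774 v7600 v3763 w1969 w4525 w2367 w2370 v5274 v12241 v390 w3461 w3549 v12228 w3554 w3555 v12110 w8465 w8506 w340 v4438 w297 w5397 w8915 w8801 w771 v12213 w8799 v12153 w5494 w5745 v12150 v12152 w8522 v12341 w5513 v7659 v8882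
theorem v12343 : PV l12343 := r12343 v11466 v11371 v5035 v7703 v3000 v12096 v4838 v4834 v12300 v11294 v501 v2996 v12314 v12335 v12295 v12336 v5038
theorem v12344 : PV l12344 := r12344 v7703 v5035 v3000 v12096 v4838 v11294 w4557 v1145 w4563 v3006 v11466 v11371 v4834 v12300 v501 v12336 v5038 v12306 v12295
theorem v12345 : PV l12345 := r12345 v3007 v3008 v325 w35 v12327 w115 v12337 v3954 v7772 w931 w926 v8846 v3308 v3303 v5672 v4732 w2544 w2539 w4166 w4164 w6029 w1733 w5947 w5961
theorem v12346 : PV l12346 := r12346 w351 v5035 v11371 v12300 v7703 v1145 v3011 v12331 v5039 w305 w799 v4438 w771 w340 v12194 v12272 v5268 v5274 v3008 v1218 v421 w352 v2992 v3012 v1146 v3006 v12277 v3933 v325 v4606 v9776 v3003 w6585 w6497 v12345 v5034 v4502 v12309 v11713 v4526 w118 w99 w853 v12339 w923 v3308 v12148 w1644 w1647 w1732 w1760 v12340 v4058 v12114 w4079 w3906 v1246 v3974 w2460 v3052 v8859 v4026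
theorem v12347 : PV l12347 := r12347 v5035 v12334 v4083 v3927 w1160 w2393 v7703 v3000 v12096 v11294 v498 v3435 v3431 w351 v11466 v11371 v4838 v4834 v12300 v3011 w4557 v1145 w4563 v501 v4844 v4967 v2996 v12277 w1117 v3933 w1124 w1566 w1565 w1116 w1159 w1152 w1575 w1569 v12123 v11453 v12135 v12342 v1137 v12343 v12344 v3380 v12119 v3216 w1970 v4774 v3763 w1969 w4525 w2367 w2370 v5274 v12331 v12241 v5039 v390 w3461 w3548 w3549 v12228 w3554 w3555 w305 v12110 w5165 w800 w799 v4438 w297 v12153 w8465 w8506 w771 v10260 w4844 w5397 w8915 w8801 w8799 w5494 w5745 v12150 v12152 w8522 v12346 w5513 v7659 v8882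
theorem v12348 : PV l12348 := r12348 v7703 v11371 v12300 v3011 w4557 v1145 v12277 v3008 v5035 v12218 v12331 v12158 w4510 w4543 v1218 v3797 w4863 v4867
theorem v12349 : PV l12349 := r12349 w708 w688 w694 w714 v11123 v11676 w275 v11825 v8173 v12142 v1071 w2339 v2314 v1698 w1146 v11808 w3754 w3427 w1465 w5298 v11884 w7897 v2490 w4640 v5881
theorem v12350 : PV l12350 := r12350 w1454 v7274 w2257 w7958 w8283
theorem v12351 : PV l12351 := r12351 v11371 v12277 v3933 w1116 w1117 w3663 v12350 w1110 w1452 v1279 v12142 w8160 v11428 w8155 w3017 w4640 v9489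
theorem v12352 : PV l12352 := r12352 v11371 v12300 v12216 w730 v2269 w690 w336 w295 v5041 v12351 w3438 w3003 v11428 v9992 v10452 v2392
theorem v12353 : PV l12353 := r12353 v11371 v12300 v2708 v12194 v12216 w305 v12277 w1117 v476 v472 w8839 v12349 v12352
theorem v12354 : PV l12354 := r12354 w688 w714 v11123 v11676 v11825 v8173 v1071 w8227 w3663 w1112 v11224 w5628 w2300 w7894
theorem v12355 : PV l12355 := r12355 v12142 w8160 v11428 w8155 w3017 w4640 v9489
theorem v12356 : PV l12356 := r12356 v5041 w3663 w3693 v12350 w1504 w1110 w1112 w1452 v12355 w2257 w7918 v11834 w5666 w1911 w8165 w2323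
theorem v12357 : PV l12357 := r12357 w730 v2269 w720 w690 w336 w295 v5041 v12356 w3438 w3003 v11428 v9992 v10452 v2392
theorem v12358 : PV l12358 := r12358 v11371 v12277 w1117 w8459 v12300 v12194 v12216 v3933 v12353 v12354
theorem v12359 : PV l12359 := r12359 w5735 w5628 v734 w2300 v657 w7985
theorem v12360 : PV l12360 := r12360 v11371 v12277 w1117 w8459 v12300 v2708 v3318 v12194 v12216 w305 v3933 w1124 w1566 w1116 v476 v472 v12357 w688 w714 v11123 v11825 v1071 v3317 w1112 v12358 w8380 v12359 v1103 v8445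
theorem v12361 : PV l12361 := r12361 w730 v2269 w720 w690 w336 w295 v11651 v12356
theorem v12362 : PV l12362 := r12362 v12349 v12354
theorem v12363 : PV l12363 := r12363 v11371 v12277 w1117 w8459 v12300 v2708 v3318 v12194 v12216 w305 v3933 w1124 w1566 w1116 v476 v472 v12360 v12361 w688 w714 v11123 v12362 v11825 v1071 w8380 v3317 w1112 v12359 v1103 v8445
theorem v12364 : PV l12364 := r12364 w688 w694 w714 v11747 v8173
theorem v12365 : PV l12365 := r12365 v12357 v12361
theorem v12366 : PV l12366 := r12366 v11371 v12277 w1117 w8459 v12300 v2708 v3318 v12194 v12216 w305 v3933 w1124 w1566 w1116 v476 v472 v12363 v12365 w688 w694 w714 v12364 v11825 v11747 w8380 v3317 w1112 v10828 w7813 v12359 w2300 v8445 v11199 w3663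
theorem v12367 : PV l12367 := r12367 v8053 w2444
theorem v12368 : PV l12368 := r12368 w4779 v12366
theorem v12369 : PV l12369 := r12369 v11371 v12300 v12216 v12277 v3933 w1116 w1117 w699 w691 w695 w690 v11352 w3437 w3439 w3434 w3435 w3436 w3438 v12350 w1462 w1472 w1456 v2304 w1452 v8406 v2310 w2281 w7922 v678 w7919
theorem v12370 : PV l12370 := r12370 v5035 v7703 v3000 v12096 v4838 v4834 v11466 v11371 v12300 v3008 v3025 v3026 v11294 v12348 v12277 v2996 v501 w4557 v3011 v12333 v12335 v3374 v12241 w3460 w1117 v11453 w1159 v3927 w1152 w1569 w351 v390 w3549 v12110 v4438 w3548 v3933 w1124 w1565 v12123 v5039 w305 w800 w774 w8774 w5754 w8459 v12135 v3216 w1969 w2367 w799 v476 v12235 w1575 w8658 w8994 w4843 v4771 w5839 v2708 v498 w5468 v12153 w297 w340 w3461 v2835 v3384 v3318 v3435 v3431 v12194 v12216 v325 w2865 v3032 v3031 v1146 v1145 w4563 v3007 v3006 v495 v4844 w1116 v12368 w5741 v1127 w8905 v12369 w688 w694 w714 v11123 v12364 v11747 v1071 w8380 w1452 w1501 v12359 v10828 w7813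 v8445 v2293 w2300 w3663 w8226
theorem v12371 : PV l12371 := r12371 w8522 v10528 w5741 v1127
theorem v12372 : PV l12372 := r12372 v3927 v11466 v11371 w1152 v12277 v3933 w1116 v7703 v3008 v3025 v3026 v5035 v3000 v12096 v4838 v11294 v4834 v12348 v2996 v501 w4557 v12300 v3011 v12333 v12335 v3374 v12241 v2835 w3461 v11453 w1159 w1569 w351 v390 w3549 v12110 w340 v5039 w297 v12371 v12135 v3216 w1969 w2367 w305 w799 v476 v12235 w1575 w8658 v4771 v498 w3548 w1117 w1124 w1565 v12123 w800 v4438 w774 w8774 w5468 v12153 v3384 v3435 v3431 v12194 v12216 v3012 v1146 v1145 w4563 v3006 v4844 v12370 v1246 v1245 v1244 v12308 v12108 v8053 v8742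
theorem v12373 : PV l12373 := r12373 w694 w3756 w3846 v11822 v1698 w8913 v11615
theorem v12374 : PV l12374 := r12374 v12135 w2367 v3318 w708 w688 w714 w275 v11825 v3317 w1112 v11808 w1454 w1492 w1911 w2325 v12373 v10828 v5708 w8380 v12359 v1103 v8445
theorem v12375 : PV l12375 := r12375 v5035 v7703 v3000 v12096 v4838 w4843 w1159 v3927 v11466 v11371 w1152 w1569 w351 v3008 v3025 v3026 v11294 v4834 v12348 v5039 w305 w799 v11453 v501 w4557 v12300 v3011 v12333 v12277 v2996 v12335 v3374 v12241 v390 w3549 v12110 v4438 w771 w8917 w4970 w4817 w5744 v3933 w1116 v2835 w3461 w340 w297 v12371 w3460 w1117 w3548 w1124 w1565 v12123 w800 w774 w8774 w5754 w8459 v12135 v3216 w1969 w2367 v476 v12235 w1575 w8658 w8994 v4771 v498 w5468 v12153 v3384 v3435 v3431 v12194 v12216 v325 w2865 v3032 v3031 v3012 v1146 v1145 w4563 v3007 v3006 v4844 w1566 v472 v12374 v12365 v1246 v1245 v12308 v8789 v8053 v8742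
theorem v12376 : PV l12376 := r12376 v3318 w688 w694 w714 v11825 v11747 v3317 w1112 v10828 w7813 v5708 w8380 v12359 w2300 v8445 v11199 w3663
theorem v12377 : PV l12377 := r12377 v3927 v11466 v11371 w1152 v12277 v3933 w1116 v7703 v3008 v3025 v3026 v5035 v3000 v12096 v4838 v11294 v4834 v12348 v2996 v501 w4557 v12300 v3011 v12333 v12335 v3374 v12241 v2835 w3461 v11453 w1159 w1569 w351 v390 w3549 v12110 w340 v5039 w297 v12371 w3460 w1117 v4438 w3548 w1124 w1565 v12123 w305 w800 w774 w8774 w5754 w8459 v12135 v3216 w1969 w2367 w799 v476 v12235 w1575 w8658 w8994 w4843 v4771 w5839 v2708 v2707 v498 w5468 v12153 w771 v3384 v3435 v3431 v12194 v12216 v325 w2865 v3032 v3031 v1146 v1145 w4563 v3007 v3006 v4844 w1566 v472 v12372 w8917 w4970 w5744 w4817 v12375 v12376 v12365 v1246 v1244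
theorem v12378 : PV l12378 := r12378 v3318 w688 w714 v11123 v12362 v11825 v1071 w8380 v3317 w1112 v12359 v1103 v8445
theorem v12379 : PV l12379 := r12379 w1090 w1484 v11621 w2304 w7958 w8283
theorem v12380 : PV l12380 := r12380 v5041 w1969 w1116 v12134 w3689 w3663 w3693 v12379 w1504 w1110 w1112 w1452 v12355 w2257 w7918 v11834 w5666 w1911 w8165 w2323
theorem v12381 : PV l12381 := r12381 v5041 v12380 w3438 w3003 v11651 v11428 v9992 v10452 v2392
theorem v12382 : PV l12382 := r12382 v2269 w699 v12142 w8160 v2314 v1705 w3025 w3017 v8454 w7825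
theorem v12383 : PV l12383 := r12383 w1969 w1116 v12134 w3689 w3663 w3693 v12379 w1472 w1504 v2304 w1110 w1112 w1452 v12382 w2257 w7918 v11834 w5666 w1911 w8165 w2323
theorem v12384 : PV l12384 := r12384 w730 v2269 w720 w690 w719 w336 w295 v5041 v12381 v1246 v1245 v12383 w3438 w3003 w3010 v11203 v9992 v10452 v2392
theorem v12385 : PV l12385 := r12385 v12135 v3216 w1969 w2367 v7703 v3000 v12096 v11294 v501 v2996 v11466 v5035 v4838 v4834 w4557 v11371 v12300 v3011 v3008 v3025 v3026 v12348 v12333 v12335 v4771 v12277 v3374 v12241 w3548 w1117 v3933 w1124 w1565 v12123 w351 v5039 w305 w800 v11453 w1159 v3927 w1152 w1569 v390 w3549 v12110 v4438 w774 w8774 w5839 v2708 v2707 v498 w5468 v12153 w799 w771 w297 w340 w3461 w3460 v2835 v476 v12235 v3384 v3435 v3431 v12194 v12216 v2992 v325 w2865 v3032 v3031 v1146 v1145 w4563 v3007 v3006 v495 v4844 w1566 w1116 w1575 v472 w4843 w8994 w8658 w5754 w5794 w8459 v12371 v12377 w8799 w4970 w5744 w4817 w4991 v12384 v12376 v12378 v12374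
theorem v12386 : PV l12386 := r12386 v11371 v12277 v3933 w1116 w1117 w3663 v12350 w1472 v2304 w1110 w1452 v12382 v1279
theorem v12387 : PV l12387 := r12387 v5041 w3438 w3003 v11651 v11428 v9992 v10452 v2392
theorem v12388 : PV l12388 := r12388 v11371 v12277 w1117 w1454 v9894 v11742
theorem v12389 : PV l12389 := r12389 v5697 v3092 v11613
theorem v12390 : PV l12390 := r12390 v11656 v1698 w1465 w7981 w5636 v2314 w7897 w3754 w7730 v8173
theorem v12391 : PV l12391 := r12391 w694 w714 v12390 v8445 v11158 v11676 v2303 v9455 w5636 v2314 w7730 w1465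
theorem v12392 : PV l12392 := r12392 v11371 v12300 v12194 v12216 v12277 v3933 w1116 w1117 v12391 w730 v2269 w690 w336 w295 v12387 w3414 w3663 v12388 w1472 v2304 w1110 w1452 v12382 v2283 v1279 w7918 w8248 w5627
theorem v12393 : PV l12393 := r12393 v1698 w5735 v11371 v12181 v11619 v8173 w2300 w7985
theorem v12394 : PV l12394 := r12394 w3754 w3427 w7897 v3606 w4640 v2490 v5881
theorem v12395 : PV l12395 := r12395 w714 v390 v11371 v12277 v3933 w1116 w1117 v476 v472 w3414 w3406 w3663 v11656 v1698 w1452 w1465 w1501 w5304 w5315 w5298 w5319 w5326 w7981 w5628 w1090 v11627 v12142 v2314 w7894 v4626 v3228 v4808 v12393 w4779 v12394 v8173 w8380 v12359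
theorem v12396 : PV l12396 := r12396 v11371 v12277 v3933 w1116 w708 w688 w694 w714 w275 v12395 v8445 v11676 v9455 w8380 w1452 w1501 v12359
theorem v12397 : PV l12397 := r12397 v11371 v12300 v2708 w297 w340 w3461 w3460 v390 v12194 v12216 v5035 w305 v7703 v2992 v3008 v325 w2865 v3032 v3031 v3012 v3011 v1146 v1145 v3007 v3006 v12277 v3933 w1116 w1117 v476 v472 v12108 v12309 v10807 v1073 v12367 v12389 v12392 w8459 v12396 w730 w690 w336 w295 v12387 w3663 v12386 v12350 v12185 w1472 v2304 w1110 w1112 w1452 w4769 v12382 v2283 w7918 v11834 w4622 v3228 v8912 v3234 w8155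
theorem v12398 : PV l12398 := r12398 w8373 v12364
theorem v12399 : PV l12399 := r12399 w3663 v11656 w1452 v11199 w2258 v732 w7981
theorem v12400 : PV l12400 := r12400 w694 w688 v11371 v12277 v3933 w1116 w1117 v12398 v12399 v8445 v11158 v11676 v2303 v9455 w5636 v2314 w7730 w1465
theorem v12401 : PV l12401 := r12401 w3663 v11656 w1452 w1501 v11199 v6862 w2300
theorem v12402 : PV l12402 := r12402 v11371 v12277 v3933 w1116 w1117 w688 w694 w714 v12400 w8459 v12364 v11747 w8380 v12401 v8445 w5735 v9455 w5628 v9501 w1452 w2300 v734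
theorem v12403 : PV l12403 := r12403 v2269 v11371 v12300 v12277 v3933 w1116 v12388 w1472 v2304 w1110 w1452 v12382 v2283 v1279 w7918 w8248 w5627
theorem v12404 : PV l12404 := r12404 w690 v11371 v12277 v3933 w1116 w1117 v476 v472 w3414 w3663 v12403 w8459 v12386 v12350 v12185 w1472 v2304 w1110 w1112 w1452 w4769 v12382 v2283 w7918 v11834 w4622 v3228 v8912 v3234 w8155
theorem v12405 : PV l12405 := r12405 v11371 v12300 v2708 w297 w3461 w3460 v390 v12216 v5035 w305 v7703 v2992 v3008 v325 w2865 v3032 v3031 v3012 v3011 v1146 v1145 v3007 v3006 v12397 v12402 w730 w690 w336 w295 v12404 w3438 v11651 v11352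
theorem v12406 : PV l12406 := r12406 v11656 v1698 w1465 w7981 v2306 v2314 w7897 w7730 w3754 v8173
theorem v12407 : PV l12407 := r12407 w694 w714 v12406 v8445 v11158 v11676 v2303 v9455 v2306 v2314 w1465 w7730
theorem v12408 : PV l12408 := r12408 w297 v11371 v12300 v12194 v12216 v2992 v3008 v325 w2865 v3032 v3031 v3012 v3011 v1146 v1145 v3007 v3006 v12277 v3933 w1116 w1117 v12108 v12309 v10807 v1073 v12367 v12392 w8459 v12407 w730 w690 w336 w295 v12387 w3663 v12386 v12350 w1472 v2304 w1110 w1452 v12382 v2283 w7918 w8248 v2293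
theorem v12409 : PV l12409 := r12409 w690 v11371 v12277 v3933 w1116 w1117 w3414 w3663 v12403 w8459 v12386 v12350 w1472 v2304 w1110 w1452 v12382 v2283 w7918 w8248 v2293
theorem v12410 : PV l12410 := r12410 v11371 v12300 v2708 w297 w3461 w3460 v390 v12216 v5035 w305 v7703 v2992 v3008 v325 w2865 v3032 v3031 v3011 v1146 v1145 v3007 v3006 v12405 v12408 v12402 w730 w690 w336 w295 v12409 w3438 v11651 v11352
theorem v12411 : PV l12411 := r12411 w3754 w3752 w3845 w7897 w7876 w5655 w738 v1680 w8231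
theorem v12412 : PV l12412 := r12412 w714 v11453 v12134 w3667 v11656 v1698 w3693 w1452 w1465 w1489 w1501 w7981 w5690 w5633 w5696 w2310 w2317 w2278 v2282 v2314 w7873 w723 w7844 w1495 v12411 v8173 w8380 v12359
theorem v12413 : PV l12413 := r12413 w688 w694 w714 v12391 v12407 w5763 v12412 v8445 v11676 v9455 w8380 w1452 w1501 v12359
theorem v12414 : PV l12414 := r12414 w8283 w8200
theorem v12415 : PV l12415 := r12415 v476 v472 v11371 w1090 v12414 w5316 w7958 v4626 v12138
theorem v12416 : PV l12416 := r12416 v8912 w8155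
theorem v12417 : PV l12417 := r12417 v5041 v11371 v12300 w3461 w3460 v390 v12277 v3933 w1116 v476 v472 w3406 w3663 v12415 w1472 v2304 w1110 w1112 w1452 v12382 v2283 v1279 w7918 v11834 w8248 v12185 v3228 w5600 w4657 v3234 v12416 w4620 w4614
theorem v12418 : PV l12418 := r12418 w297 v11371 v12300 v12216 w730 w690 w336 w295 v5041 v12417 w3438 w3003 w3010 v11651 v11203 v9992 v10452 v2392
theorem v12419 : PV l12419 := r12419 v11371 v12300 v2708 w351 v5035 w305 w799 w771 w297 w3461 w3460 v12194 v12216 v7703 v2992 v3008 v325 w2865 v3032 v3031 v3012 v3011 v1146 v1145 v3007 v3006 v12277 v3933 w1116 w1117 v11453 v12410 w8799 v12418 v12402 v12413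
theorem v12420 : PV l12420 := r12420 w5629 w3663 w3667 w714 w694 v12123 v11453 v12134 w1452 w1465 w1489 w1501 w7981 w7894 w2310 w2312 w2317 w2278 v2282 v2314 w2258 w7873 w723 w742 w7848 w1508 w1526 w8228 w5698 v12411 v8173 w8380 w8373 v12359
theorem v12421 : PV l12421 := r12421 w3663 w5629 v12420 w1454 v1071 v650 v2283 w7940
theorem v12422 : PV l12422 := r12422 w1465 w7981 v2314 w7897 w3754 w7730 v8173
theorem v12423 : PV l12423 := r12423 w714 w694 w3663 v1698 w3693 w3696 w5690 w5691 v12421 v2306 v12422 w1454 v1071 v650 v2283 w8346 w7940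
theorem v12424 : PV l12424 := r12424 w714 w694 w1569 v1127 v8441 v642 v12423 w3756 v8445 v11158 v11676 v2303 v9501 v9455 v2314 w8380 v5734 w1452 w1465 v12359 w7730 w5636
theorem v12425 : PV l12425 := r12425 w1501 w714 w694 w688 w7981 v12422 w2258 w5636 v12364 v12359 w8380
theorem v12426 : PV l12426 := r12426 w714 w694 w688 v11371 v12277 v3933 w1116 w1117 w1452 v11199 v12425 v732 w2258 v12364 v11747 w8380 v8391 v9501 w2300
theorem v12427 : PV l12427 := r12427 w688 v11371 v12277 w1117 w3663 v12426 w1454 v1071 v2283 v11407 w8346 w7940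
theorem v12428 : PV l12428 := r12428 v11371 v12277 v3933 w1116 w1117 w688 w694 w714 v12424 v12427 w3756 v8445 v11158 v11676 v2303 v8391 v9501 v9455 v2314 w8380 v5734 w1452 w1465 v12359 w7730 w5636
theorem v12429 : PV l12429 := r12429 w690 v11371 v12300 w3461 w3460 v390 v12417 v12409 v12404
theorem v12430 : PV l12430 := r12430 v11371 v12277 v3933 w1116 w1117 w1452 w1465 w1501 v8403 w1090 v657 w7785 v3591 v4453 w2232 v2314 w4756 v8393 w7706 w4640
theorem v12431 : PV l12431 := r12431 v11371 v12300 v2708 w351 v5035 w305 w799 w771 w297 w340 w3461 w3460 v12194 v12216 v7703 v2992 v3008 v325 w2865 v3032 v3012 v3011 v1146 v1145 v3007 v3006 w1575 w1569 v12277 w1117 v3933 v12419 v12428 w730 v2269 w690 w336 w295 v12429 w3438 w3039 w3015 w3003 w3756 v2303 v8391 w5594 v12430 w1109 w1454 v41 v5667 w1112 v6198 v3904 v3905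
theorem v12432 : PV l12432 := r12432 w3754 w3752 w3845 w3427 w7897 w7876 v3606 v29 w738 v2490 w7984 w1106
theorem v12433 : PV l12433 := r12433 w5735 w714 w1116 v12123 v11453 v12134 w1452 w1465 w1489 w7981 w1090 v12142 w2310 w2312 w2317 w2260 v11808 v4626 w7873 v3228 v4808 w728 w742 w7848 w1513 w1526 v12432 v8173 v9501 w8380 v11896 w2303
theorem v12434 : PV l12434 := r12434 v2265 v11371 v12277 v3933 w1116 w1117 v476 v472 w3406 v1698 w3693 w3696 w5304 w5315 w5298 w5319 w5688 w5691 v2306 w5639 w5646 w5696 v12433 w1473 v11908 v1071 v650 v9433 w2280 w3681 w7770 w7749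
theorem v12435 : PV l12435 := r12435 v11371 v12277 v3933 w1116 w8522 w8395 v10528 w1117 w708 w688 w694 w714 w275 v12434 w3756 v8445 v11676 v2303 w5735 v9455 v2306 w8380 v9501 w1465 w2302 w7730
theorem v12436 : PV l12436 := r12436 v5041 v11371 v12277 v3933 w1116 w1452 v11742 w1090 v12415 v2293 w8283 v12138 v3554 v4625
theorem v12437 : PV l12437 := r12437 w7918 w5694 w5646 w2260 v43 w7822 w3735 w3728 w5628 v8408 w7922
theorem v12438 : PV l12438 := r12438 v11371 v12300 w3460 v390 v12277 v3933 w1116 w1117 w3414 w3406 w3663 v12436 w1473 w1109 w1510 w1454 v2305 w1112 v12437 v741 w8249 v2293 w2280 v12180 w8248 v12138 v12143 v9533 v12416 w3434 w4647 w7922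
theorem v12439 : PV l12439 := r12439 w1452 w1465 w1501 w1090 v11652 v8391 v8403 v657 v1509 v2306 w5700 w2332 w2260 w7706 v605 v29 w1523 v1091
theorem v12440 : PV l12440 := r12440 v12439 v41 v6198
theorem v12441 : PV l12441 := r12441 v11371 v12300 v2708 v12277 w1117 w1565 v12123 w351 v5035 w305 w800 w774 w8774 w799 w771 w297 w340 w3461 w2393 v12194 v12216 v7703 v2992 v1146 v1145 v3007 v3006 w1566 v3933 w1116 w1569 v12431 w8522 w5748 w8395 v12435 w730 w699 v2269 w725 w690 w336 w295 v12438 w3438 w3039 w3756 w3677 v2303 w3729 v12440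
theorem v12442 : PV l12442 := r12442 v5708 v6862 w8380 w2300
theorem v12443 : PV l12443 := r12443 w1501 w1465 w714 w5735 w5688 w5691 w7981 w5629 w7873 w2278 v2282 v2314 w7894 w723 w742 w2258 w7848 w1508 w1526 v12442 v11747 v12411 w8228 w5698
theorem v12444 : PV l12444 := r12444 w1501 w1465 w714 v12443 v1103 v732 v2294 v11199 v2314 w8229 w3754 v10828 v12442
theorem v12445 : PV l12445 := r12445 w5735 v2306 w7981 v2314 w7897 w3754 w7730 v5708
theorem v12446 : PV l12446 := r12446 w714 w1452 w1465 w1489 w1501 w1090 v11808 w1911 w2323 w2324 w2326 v12444 v12445 v1103 v732 v11199 w2258 v11747 v10828 v12442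
theorem v12447 : PV l12447 := r12447 w3667 w3663 w3693 w3696 v12446 w1454 v1071 v2283 v11407 w8346 w7940
theorem v12448 : PV l12448 := r12448 w714 v11371 v12277 v3933 w1116 w1117 w1452 w1465 w1501 v6715 w7729 v2314 w8380 w7730 v12359 w5636
theorem v12449 : PV l12449 := r12449 v11371 v12277 v3933 w1116 w1117 v12447 w3438 w3015 w3003 v8445 v2303 v12448 w1109 w1454 v2305 v5667 w1112 v11909 v12141 w8099 v3898 w7768 w4628 w4742
theorem v12450 : PV l12450 := r12450 w5735 w714 w1116 v12123 v11453 v12134 w1452 w1465 w1489 w1501 w7981 w1090 v12142 w2310 w2312 w2317 w2260 v11808 w7873 v3228 v4626 w728 w742 v4808 w7848 w1513 w1526 v12432 v6862 v5708 w8380 v11896 w2303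
theorem v12451 : PV l12451 := r12451 v2265 v11371 v12277 v3933 w1116 w1117 v476 v472 w3406 w3693 w3696 v1698 w5304 w5315 w5298 w5319 w5688 w5691 v2306 w5639 w5646 w5696 v12450 v2305 v11908 v1071 v650 w2270 v9444 w7768
theorem v12452 : PV l12452 := r12452 w3756 w714 w1465 w1501 v11170 v6862 w8380 w7730 w2302
theorem v12453 : PV l12453 := r12453 v2708 w3461 w3460 v11371 v12277 v3933 w1116 w1117 w708 w688 w694 w275 v12449 w8522 v10528 v12451 v8445 v2303 v2306 v12452 v2305 w7768 w8860
theorem v12454 : PV l12454 := r12454 v11371 v12300 w3438 v12277 v3933 w1116 w1452 w1090 v11652 v8403 v8391 w5312 v12430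
theorem v12455 : PV l12455 := r12455 v2269 v11371 v12300 w3461 v12277 w1117 v3933 v12429 w3039 w3015 w3003 w3756 v2303 v12454 w1109 w1454 v41 v1705 w1112 v6198 v3904 v3905
theorem v12456 : PV l12456 := r12456 v3216 w1969 v7703 v3000 v12096 v11294 v501 v2996 v11466 v5035 v4838 v4834 w4557 v11371 v12300 v3011 v3008 v3025 v3026 v12348 v12333 v12335 v4771 v12277 v3374 v12241 v390 v11453 w1159 v3927 w1152 w1569 w351 w3549 v12110 w3548 w1117 v3933 w1124 w1565 v12123 v5039 w305 w800 v4438 w774 w8774 w2393 v12347 v3319 v498 v3431 v1146 v11960 v9970 v8144 w5823 w5493 v12152 v12150 w4548 w4552 v2619 v2707 v4083 w8935 w5839 v2708 v4082 w5468 v12153 w799 w771 w297 w340 w3461 v2835 w3480 v476 v12235 v3384 v3318 v3435 v12194 v12216 v2992 v325 w2865 v3032 v3012 v1145 w4563 v3007 v3006 v4844 w1566 w1116 v12385 v12441 v12453 w730 w699 v2269 w725 w690 w336 w295 v12455 w8522 w5748 w8395 v12438 w3438 w3039 w3756 w3677 v2303 w3729 v12440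
theorem v12457 : PV l12457 := r12457 v3228 v11371 w1090 w714 v12277 w1117 v476 v472 w5304 w5315 w5298 w5735 w5319 w5628 v4626 w7894 v4808 v12442 v11747 v12394
theorem v12458 : PV l12458 := r12458 w3663 w714 w694 v11371 v12300 v2708 v12277 v3933 w1116 w1117 w8994 w8658 w5754 w4817 v8921 v11656 w8459 v12142 w2306 v2314 w1452 w1465 w1501 w1959 v12457 v1103 v11199 v11747 v10828 v12442
theorem v12459 : PV l12459 := r12459 w694 v12135 w1969 w2367 v11371 v12300 v2708 w771 w3460 v12277 v3933 w1116 w1117 v11453 w3406 w3667 w3663 w3693 w3696 v12458 v12446 w1454 v736 v2283 v11407 w8346 w7940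
theorem v12460 : PV l12460 := r12460 w694 v11371 v12300 v2708 w3461 w799 v12194 v12216 v12277 v3933 w1116 w1117 v12459 w3446 w3039 w3015 w3003 v8445 v2278 v2303 w5319 v12448 w1473 w1454 w1466 v2305 w8861 w1112 v9047 v11919 v11909 v12139 w336 w290 v11809 v2310 w736 v740 w7769
theorem v12461 : PV l12461 := r12461 v2265 v2708 w3461 v390 v11371 v12277 v3933 w1116 w1117 v476 v472 w3414 w3406 w3693 w3696 v1698 w5304 w5315 w5298 w5319 w5312 w5326 w5691 w5689 v2306 w5639 w5646 w5696 v12450 w1454 v2305 v11908 v736 v650 w1112 w2270 v9444 v4268 w7768 w3436 v11807 v4294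
theorem v12462 : PV l12462 := r12462 v11371 v12300 v2708 w305 w799 w771 w3461 v12194 v12216 v12277 v3933 w1116 w1117 w708 w688 w694 w275 v12460 w8522 v10528 w8395 v12461 v8445 v2303 v2306 v12452 v2305 w8861 w7685 v9047 w7768
theorem v12463 : PV l12463 := r12463 v5041 v11371 v12277 v3933 w1116 w1452 v11742 v12415 v1496 v7274
theorem v12464 : PV l12464 := r12464 v11371 v12277 v3933 w1117 w1454 w1112 v3932 w1116 v2305 w1473 v2269 w699 v12300 v476 w5304 w5315 w7918 v3177 v2314 v4671 w3434 w3436 v8454 w7825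
theorem v12465 : PV l12465 := r12465 v5041 v2269 v11371 v12300 w3461 w3460 v390 v12277 w1117 v3933 v476 v472 w3414 w3406 w3663 v12463 w1109 w1454 w1112 v12464 v741 w8249 v2283 v12185 w8248 v11834 w4657 w5600 v3228 w4618 v3234 w7990 w8155
theorem v12466 : PV l12466 := r12466 v11371 v12277 v3933 w1116 w1117 w1452 w1465 w1090 v11652 v8403 v1674 v12142 v2314 v1510 v4466 w7706 w8027 w4742 w4628
theorem v12467 : PV l12467 := r12467 v2269 v11371 v12300 w3461 v12277 w1117 v3933 v12465 w3438 w3039 w3015 w3003 v2303 v12466 w1109 w1454 v41 v1510 w1112 v6198 v3904 v3905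
theorem v12468 : PV l12468 := r12468 v11371 v12300 w3460 v390 v12277 v3933 w1116 w1117 w3414 w3406 w3667 w3663 v12463 w1473 w1510 w1454 w1459 v2305 v12437 w1112 v741 w8249 v2293 w2274 w2280 w2266 w8248 w7919 v12138 v9533 w3434 w3435 w7922 v678
theorem v12469 : PV l12469 := r12469 v11466 v7703 v3008 v3025 v3026 v5035 v3000 v12096 v4838 v11294 v4834 v12348 v11371 v12277 v2996 v501 w4557 v12300 v3011 v12333 v12335 v3374 v12241 v390 v11453 w1159 v3927 w1152 w1569 w351 w3549 v12110 w3548 w1117 v3933 w1124 w1565 v12123 v5039 w305 w800 v4438 w774 w8774 w2393 v12347 v3319 v498 v3431 v1146 v11960 v9970 v8144 w5823 w5493 v12152 v12150 v2619 v2707 v4083 w8935 w5839 v2708 v4082 w5468 v12153 w297 w340 w3461 v2835 w3480 v476 v12235 v3384 v3318 v3435 v12216 v2992 v325 w2865 v3032 v3012 v1145 w4563 v3007 v3006 v4844 w1566 w1116 w1575 v3216 v4771 v12456 v3764 v12462 w730 w699 w691 w695 v2269 w725 w690 w336 w295 v12467 w8522 v12371 w5748 w8395 v12468 w3438 w3039 w3756 w3677 v2303 w3729 v12440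
theorem v12470 : PV l12470 := r12470 v11371 v12277 v3933 w1116 w708 w714 v11123 v11676 w275 v12142 v736 w8227 w1452 w1501 w5735 w5312 w4742 w4734 w1090 v5708 v4947 v11808 w3427 w2713 v4628 v1446
theorem v12471 : PV l12471 := r12471 v2269 w699 v11371 v12300 w3461 w3460 v12277 v3933 w1116 w3406 w3663 v12415 w1472 w1509 v2304 w1452 v1279 v741 v12464 w8522 v12437
theorem v12472 : PV l12472 := r12472 v12142 w8038 v4466 w4742
theorem v12473 : PV l12473 := r12473 v11371 v12277 v3933 w1116 v476 v472 w1452 v12466 w1090 v12472 v2283 v6771 w5305 w4755 v3591 v4453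
theorem v12474 : PV l12474 := r12474 v41 v6198
theorem v12475 : PV l12475 := r12475 v11466 v7703 v3008 v3025 v3026 v5035 v3000 v12096 v4838 v11294 v4834 v12348 v11371 v12277 v2996 v501 w4557 v12300 v3011 v12333 v12335 v3374 v12241 v498 w3548 w1117 v3933 w1124 w1565 v12123 w351 v5039 w305 w800 v11453 w1159 v3927 w1152 w1569 v390 w3549 v12110 v4438 w774 w8774 w5468 v12153 w297 w340 w3461 v2835 w3480 v476 v12235 v3384 v12347 v3319 v3318 w2393 v3435 v3431 v12194 v12216 v2992 v325 w2865 v3032 v3012 v1146 v1145 w4563 v3007 v3006 v495 v4844 v2998 w1566 w1116 v11960 v4083 v9970 v4082 v2619 v8144 v2707 v2708 w5823 w5839 w8935 w5493 v12150 v12152 v12469 v3137 v4187 v8600 v5388 v4846 v4776 v5791 v3758 v5387 v1127 v878 w4346 w5011 v2739 w4965 v3762 w4940 v8837 w5800 w5784 w4937 v12185 v12470 w730 w699 v2269 w725 w690 w336 w295 v5041 v12471 w3438 w3039 w3015 w3003 w3756 w3677 v2303 w3729 v12474 w1452 w1465 v12473 w1090 w8522 v12472 v12440 w7785 w2280 v2285 w8128 v10643 w7749 w7788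
theorem v12476 : PV l12476 := r12476 v878 v7703 v11371 v12300 v3012 v3006 v3008 v5035 v12327 v4502 v12309 v10751 w804 w876 w2493 w2489 v5068 v8702 v4059 v8858 w2690 w4229 w1647 w5928
theorem v12477 : PV l12477 := r12477 w1647 v1073 v8824 w6328 v5068 v8702 w4230 w2690 w5928
theorem v12478 : PV l12478 := r12478 v3308 v3008 w2493 w2489 v8858
theorem v12479 : PV l12479 := r12479 v878 v7703 v11371 v12300 v3012 v5035 v4502 v12309 w804 w876 v12477 v3308 v3303 v12478 v8863 v3075 v4029
theorem v12480 : PV l12480 := r12480 v11466 v11371 v7703 v3008 v3025 v3026 v5035 v3000 v12096 v4838 v11294 v4834 v12348 v12277 v2996 v501 w4557 v12300 v3011 v12333 v12335 v3374 v12241 v390 v11453 w1159 v3927 w1152 w1569 w351 w3549 v12110 v495 v12475 v4775 v3137 v12255 v2998 v4846 w4346 v1246 v12227 v12150 v3758 v3762 v4852 v5791 v4776 v5388 v8600 v4187 v498 w3548 w1117 v3933 w1124 w1565 v12123 v5039 w305 w800 v4438 w774 w8774 w5468 v12153 w340 v3384 v12347 v3319 w2393 v3435 v3431 v12194 v12216 v1146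 v1145 w4563 v3007 v3006 v4844 v4967 v325 v4082 w801 v6261 v8143 v2593 w5823 w5818 w4552 w4543 w6525 v12476 v12479 v12324 v7772 v8846 v8845 v3308 v8876
theorem v12481 : PV l12481 := r12481 w1452 v11615 w1090 w735 v4947 w271 w2713 v1446
theorem v12482 : PV l12482 := r12482 v3899 v3896
theorem v12483 : PV l12483 := r12483 v11466 v11371 w1159 v3927 w1152 w1575 v12277 v3933 w1116 v12096 v5035 v7703 v3000 v4838 v4834 v11294 w4557 v12300 v3011 v3008 v3025 v3026 v12348 v12333 v2996 v501 v12335 v3384 v11453 w1569 w351 v3374 v12241 v390 w3549 v12110 v5039 w305 w799 v4438 w771 v495 v12475 v4775 v3137 v12255 v5388 v878 v2998 v4846 w4346 v8837 w3573 w5008 w8956 w2372 v4852 v498 w3548 w1117 w1124 w1565 v12123 w800 w774 w8774 w5468 v12153 v4844 v5791 w4563 v3007 v1146 v3435 v11676 w340 w708 w275 v12194 v3431 v1698 v2835 v1127 w5011 w5784 w5694 v5387 w4940 w4742 w5800 v2739 w4937 w4734 v4776 v11407 v12142 v12482 w1112 w1454 v12481 w3526 v12347 v3317 v12227 v12150 v8600 v12480 w3427 w714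 v5708 v8388
theorem v12484 : PV l12484 := r12484 v2601 v2619
theorem v12485 : PV l12485 := r12485 v5514 v12484
theorem v12486 : PV l12486 := r12486 v11466 v12096 v5035 v7703 v3000 v4838 v4834 v11294 w4557 v11371 v12300 v3011 v3008 v3025 v3026 v12348 v12333 v12347 w351 v5039 w305 w800 v498 v3435 v12216 v3032 v3012 v1145 w4563 v3006 v501 v495 v2998 v2996 v12277 w1117 v3933 w1124 w1566 w1565 w1116 w1159 v3927 w1152 w1569 v476 v12123 v11453 v12335 v3374 v12235 v12241 v390 v2835 w3548 w3549 v12110 w340 v4438 w297 w774 w8774 v12475 v4775 v3137 v4187 v8600 v5388 v4846 v3758 v5387 v12255 v12227 v1127 w5011 w4965 v3762 w4940 v12150 w5784 v12185 v12485 v12483 w730 w725 w690 w336 w295 v5041 v12471 w3015 v12474 w1452 w1090 v12472 w7785 w8477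
theorem v12487 : PV l12487 := r12487 w694 w688 w771 v11371 v12300 w3461 v12277 v3933 w1116 v12459 w8522 v10528 w8395 v12461
theorem v12488 : PV l12488 := r12488 v2303 w688 v11371 v12277 v3933 w1116 w1117 v12448 v12452 w8522 v2306
theorem v12489 : PV l12489 := r12489 w714 w694 v11371 v12300 w3461 v2708 v5035 w305 w799 v12194 v12216 v7703 v2992 v3008 v325 w2865 v3032 v12277 v3933 w1116 v3927 w1152 w1575 w1569 w1117 v11453 v3216 v3763 v12487 w3446 w3039 w3015 w3003 w3756 v8445 v2303 w5319 w5735 v12488 w1473 w1454 v2305 w1112 v11919 v12139 w1959 w2231 w2313 v9501 v11909 w7768 w290 v2306 v11809 w5655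
theorem v12490 : PV l12490 := r12490 v11371 v12277 v3933 w1116 v476 v472 v1698 v650 w5298 w5312 w5735 w4742 w4734 w1452 w1501 w1090 v5708 v11808 v4947 w3427 w2713 v4628 v2490 w7717
theorem v12491 : PV l12491 := r12491 v5035 v7703 v3000 v12096 v4838 v4834 v11466 v476 v12235 v3008 v3025 v3026 v11294 v12348 v11371 v12277 w4557 v12300 v3011 v12333 v12347 v1145 v4967 v7711 v4597 v3319 w2393 v2707 v4083 w8947 w5823 w4543 v5274 v12241 v390 v11453 w1159 v3927 w1152 w1569 v501 w351 w3549 v12110 w3548 w1117 v3933 w1124 w1565 v12123 v5039 w305 w800 v4438 w774 w8774 w5493 v12152 v12150 v498 w5468 v12153 w5839 v4082 w297 w340 w3461 v2835 v5268 w8935 v2708 v12486 v3318 v3435 v3431 v12194 v2992 v1146 w4563 v3007 v3006 v495 v4844 v2998 v2996 w1566 w708 w694 w714 w275 v12489 v3137 v8600 v5388 v4846 v4776 v5791 v5387 v1127 v878 w4346 w5011 v2739 w4976 v11123 w4940 v8837 w5800 w4937 v12142 v12490 w3039 w3756 v8445 v8388 v9501 v5708 v12488 v7293 v3317 v12283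
theorem v12492 : PV l12492 := r12492 w3693 w3414 w719 v11371 v12300 v12277 v3933 w1116 v12123 v11453 w1452 w1485 w1489 v11739 v11742 w1090 w8799 w8284 w2306 w2310 w2312 w7872 w1959 w7873 w4670 w5684 v4625 w5697 v4456 v4455 w8200 w5591 w5439 w2260 v8391 w8166 v2313 w3753 w1513 w8204
theorem v12493 : PV l12493 := r12493 v11371 v12277 v3933 w1116 v2305 w1117 w1454 w1473 v2269 w699 v12464 w8522 v12371 w8395 v12437
theorem v12494 : PV l12494 := r12494 v741 v1279 v11834 w8248 v3228 w5600 v3234 w4618 v1510 w8155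
theorem v12495 : PV l12495 := r12495 v5041 v2269 w695 w691 w699 v390 v11371 w5493 v12152 v12150 v12300 w3461 w3460 v12277 v3933 w1116 w1117 v476 v472 w3406 w3689 w3667 w3663 w3696 v12492 w1473 w1109 w1510 w1454 w1459 w1112 v12493 v741 v1279 v12185 w4657 v12494 v12138 v2283 v9533 w2274 w2280 w2266 w3434 w3435 w7922 v678 w7919
theorem v12496 : PV l12496 := r12496 v2303 w3677 v2269 w699 w8522 w5748 w8395 v12440
theorem v12497 : PV l12497 := r12497 v2269 v11371 v12300 w3480 v476 v12235 v390 w5493 v12152 v12150 w3461 v7703 v2992 v3008 v325 w2865 v3032 v3012 v12277 w1117 w1566 w1565 v3933 w1116 v3927 w1152 v3216 v4771 v3797 v12495 w3438 w3039 w3015 w3003 w3756 v2303 w3729 v12496 v12466 w1109 w1454 v12474 v1510 w1112 v3904 v3905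
theorem v12498 : PV l12498 := r12498 v11371 v12277 v3933 w1116 w1117 w1452 w1485 w1465 w1494 v11742 w8284 w2306 w2315 w7872 w5684 w5692 w5712 w8200 w8044 w2260 w3728 v2314 w8203
theorem v12499 : PV l12499 := r12499 v5041 v2269 v11371 v12300 w3461 w3460 v390 w3414 w3406 w3689 w3663 v12498 w1510 v1279 v12493 v741
theorem v12500 : PV l12500 := r12500 w1909 v4466 w8043 w4926
theorem v12501 : PV l12501 := r12501 v11466 v7703 v3008 v3025 v3026 v5035 v3000 v12096 v4838 v11294 v4834 v12348 v11371 v12277 w4557 v12300 v3011 v12333 v12347 v1145 v4967 v7711 v4597 v3319 w2393 v2707 v4083 w8947 w5823 w4543 v5274 v12241 v390 v11453 w1159 v3927 w1152 w1569 v501 w351 w3549 v12110 w3548 w1117 v3933 w1124 w1565 v12123 v5039 w305 w800 v4438 w774 w8774 w5493 v12152 v12150 v498 w5468 v12153 w799 w771 w297 w340 v2835 w8935 w5818 v2708 v12486 v3318 v3435 v12216 v3032 v3012 v1146 w4563 v3007 v3006 v495 v2998 v2996 w1566 w1116 w1575 v476 v12235 v12491 w730 w722 w720 w725 w690 w719 w336 w295 v12497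 v4187 v8600 v5388 v4846 v3758 v5387 w5008 v2739 w4965 v3762 v3797 w4940 v12185 v12136 v12499 w3015 w3719 w3756 v12474 w1452 w1489 w1501 w1090 v12472 w7785 v8403 v12500 w2232 v4464 v657 w4675
theorem v12502 : PV l12502 := r12502 v3228 v3234 w1501 v11371 v12277 w1117 w1465 v3933 w1116 w1452 w7981 v12457 v2314
theorem v12503 : PV l12503 := r12503 w714 v11371 v12277 v3933 w1116 w1117 w3406 w3663 v11908 w1452 w1501 w1090 v11808 v12502 v1103 v11199 v11747 v10828 v12442
theorem v12504 : PV l12504 := r12504 w708 w688 w694 w275 v12503 v8445 v12488 v9455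
theorem v12505 : PV l12505 := r12505 w3414 v11371 v12300 v12277 w1117 w1465 v11804 v11742 w8284 w5637 w4622 v12142 v2314 v8393 w8203 w3017
theorem v12506 : PV l12506 := r12506 v5041 v2269 v11371 v12300 w3461 w3460 v390 v12277 v3933 w1116 w1117 v476 v472 w3406 w3663 v12505 w1473 w1109 w1454 v2305 v12464 w1112 v12382 w4657 v2283 v12494
theorem v12507 : PV l12507 := r12507 v11371 v12277 v3933 w1116 w1452 w1090 w1117 w1465 v5041 w5319 v1674 v3559 v12142 v2314 v11645 w7706 v8393 w4628
theorem v12508 : PV l12508 := r12508 v11371 v12277 v3933 w1116 w1452 v12466 w1090 v12507 w4657 w4633 w4622 v4450 v4455 v4464 v8393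
theorem v12509 : PV l12509 := r12509 v11466 v11371 v5035 v7703 v3000 v12096 v4838 v4834 v12300 v2708 v2707 v12486 v11294 w4557 v3011 v3008 v3025 v3026 v12348 v12333 v12347 v3319 v3318 w2393 w351 v5039 w305 w799 w800 v498 v3435 v3431 v12216 v2992 v325 w2865 v3032 v1146 v1145 w4563 v3007 v3006 v501 v4844 v4967 v2996 v12277 w1117 v3933 w1124 w1566 w1565 w1116 w1159 v3927 w1152 w1575 w1569 v12123 v11453 v12135 v7711 v4083 v4597 w8947 w5823 w8935 w4543 v5274 v5268 v12241 v390 v2835 w3460 w3461 w3548 w3549 v12110 w340 v4438 w297 v4082 w771 w774 w8774 w5468 w5839 w5493 v12153 v12150 v12152 v12501 v12119 w3554 w3555 v3216 v4774 v3763 w1969 v3797 w2367 w2370 w8506 v10260 w8915 w8801 w5754 v12371 w4792 w4788 w4817 w8459 v12504 w730 v2269 w690 w719 w336 w295 v12506 w3438 w3446 w3039 w3015 w3003 v2303 v12508 w1109 w1454 v12474 v1510 w1112 v3904 v3905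
theorem v12510 : PV l12510 := r12510 v3228 v3234 v4083 w811 w6525 w8355 w2300 v657 w3754 w3427 w2973 v8399 w7897 v4628 w4628 v5881 w8170
theorem v12511 : PV l12511 := r12511 w708 w275 v11371 v12277 v3933 w1116 w1452 w1090 v11808 v3228 v3234 v3318 w1501 w1117 w1465 w5312 w5735 w7981 w5628 v2314 w7894 v12510 w801 w750 v12442 w3754 w3427 v8399 w7897 v4628 w4628 v5881 w6510 w8170
theorem v12512 : PV l12512 := r12512 v5523 v657
theorem v12513 : PV l12513 := r12513 v11371 v3318 w1501 v12277 v3933 w1116 w1452 v12300 v2708 w1117 w5818 w5840 v12511 v1103 v11199 v11625 w3754 v12512 w2300 w8355 w714 v10828 v12442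
theorem v12514 : PV l12514 := r12514 w8958 w8947
theorem v12515 : PV l12515 := r12515 v3008 v1218 v421 w1647 v8887 v1073 w4230 w3893 v8824 w5928 v5067 v8702 w2690
theorem v12516 : PV l12516 := r12516 v5035 v4083 w6525 v878 v7703 v11371 v12300 v3012 v4502 v12309 w804 w876 v12515 v3308 v12478 v3303 v8863 v3075 v4029
theorem v12517 : PV l12517 := r12517 v11466 v7703 v3008 v3025 v3026 v5035 v3000 v12096 v4838 v11294 v4834 v12348 v11371 v12277 v3374 v12241 v1137 v12228 w5165 v12153 v2998 v501 v4775 v4846 w4346 v1246 v2996 w4557 v12300 v3011 v12333 v3758 v3762 v4852 v4776 v495 v3137 v3384 v498 v3431 v5039 v12194 v1146 w4563 v3007 v4844 v325 v12324 v7772 v8846 v8845 v3308 v8876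
theorem v12518 : PV l12518 := r12518 w4571 v5035 v4083 v12516 v2593
theorem v12519 : PV l12519 := r12519 w2278 v2313 w8182 w7898 v740
theorem v12520 : PV l12520 := r12520 v12142 w1452 w1465 w1489 w1494 w1501 w1090 w7873 v11808 v4947 w728 v4626 w2713 v2963 v5708 w3754 w3753 w3752 w3846 w3427 w7875 v4628 w735 w7717 w1089 v1705 v3907 w1088 w1445 v12519 w8522 w2260 v2306 w5646 w7897 v6923 v29
theorem v12521 : PV l12521 := r12521 v5035 v7703 v3000 v12096 v4838 v4834 w2393 v11466 v11294 w4557 v11371 v12300 v3011 v3008 v3025 v3026 v12348 v12333 v12347 v3319 v2707 v12509 v12514 w5818 v2708 v12486 v1218 v421 v3318 w351 v5039 w305 w799 v498 v3435 v3431 v12194 v12216 v1146 v1145 w4563 v3006 v501 v495 v4844 v2998 v2996 v12277 v3933 w1116 w1159 v3927 w1152 w1575 w1569 w1117 v476 v11453 v3374 v3384 v12235 v4775 v10173 v12241 v3137 v4187 v8600 v5388 v4846 v4776 v3758 v5387 v390 w3461 w3548 w3549 w3406 v1698 v878 w4346 v4852 v11407 v3762 v3797 w3694 v12110 w5319 w5312 v8837 v12142 w2310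 v12136 w340 v4438 w297 v12227 v3214 w8658 w708 w771 w694 v12150 w4954 w4951 w4949 w5838 w5688 w5694 w275 w4743 w4740 w4734 w5735 v12517 v12518 w750 v12520 w1109 w1454 w1112 v3899 w2713 v3897 v1705
theorem v12522 : PV l12522 := r12522 v12142 w2315 v2314 v1705 w3017 w7845 w5674 w8167 w8185
theorem v12523 : PV l12523 := r12523 v5035 v7703 v3000 v12096 v4838 v4834 w2393 v11466 v11294 w4557 v11371 v12300 v3011 v3008 v3025 v3026 v12348 v12333 v12347 v3319 v2707 v12509 v12514 v12486 w351 v5039 w305 w799 w800 v498 v3435 v3431 v12194 v12216 v1145 w4563 v3007 v501 v4844 v2996 v12277 w1117 v3933 w1124 w1566 w1116 w1159 v3927 w1152 w1575 w1569 v11453 v12135 v12521 v3380 v12119 v4774 v3216 v3763 w1969 v3797 w4525 w2367 w2370 v5274 v5268 v12241 v390 v2835 w3460 w3461 w3549 w3554 w3555 w3663 v12110 w8465 w3700 w8506 w340 v4438 w297 w4793 w8801 v12371 w771 w694 w688 w8799 w5744 w5750 w8459 v12513 w1109 w1510 w1454 v2305 v12522 w8345 v11407 v2283 w5629 w7940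
theorem v12524 : PV l12524 := r12524 w351 v11466 v12096 v5035 v7703 v3000 v4838 v4834 v11294 w4557 v11371 v12300 v3011 v3008 v3025 v3026 v12348 v12333 v501 v495 w1159 v3927 w1152 w1569 v12277 v11453 v3374 v4775 v12241 v3137 v390 w3549 v12255 v12110
theorem v12525 : PV l12525 := r12525 w351 v5035 v11466 v7703 v3008 v3025 v3026 v3000 v12096 v4838 v11294 v4834 v12348 v5039 w305 w799 w4557 v11371 v12300 v3011 v12333 v501 v2996 w1159 v3927 w1152 w1575 w1569 v12277 v11453 v12135 v12524 v12119 v3216 v3763 w1969 w4525 w2367 v5274 v12241 v390 w3549 w3555 v12256 v12110 w8506 w5485 v12255 v11404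
theorem v12526 : PV l12526 := r12526 v7703 v3008 v11466 v11371 v5035 v3000 v12096 v4838 v4834 v12300 v3032 w3015 v12525 v1137 w351 v3025 v3026 v11294 v12348 v5039 w305 w799 w4557 v3011 v12333 v1146 w4563 v3007 v501 v4844 v2998 v2996 w1159 v3927 w1152 w1575 w1569 v12277 w1117 v3933 v476 v11453 v3374 v12235 v4775 v12241 v8600 v5388 v4846 v5791 v5387 v390 w3549 v12228 w4346 v4852 v3797 v12110 w5165 v8837 v12136 w340 v12153 w8658 w708 v8445 v11158 w4954 w275 v11170 v12142 w4743 w1454 w7684 w1112 v3897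
theorem v12527 : PV l12527 := r12527 v12486 v12509 v12525 v5035 v7703 v3000 v12096 v4838 v4834 w2393 v11466 v11294 w4557 v11371 v12300 v3011 v3008 v3025 v3026 v12348 v12333 v12347 v3319 v2707 v12514 w5818 v1137 v2708 v3318 w351 v5039 w305 w799 w800 v498 v3435 v3431 v12216 v1146 v1145 w4563 v3007 v501 v4844 v2996 v12277 w1117 v3933 w1124 w1566 w1116 w1159 v3927 w1152 w1575 w1569 v11453 v12135 v12523 w3438 w3446 v12526 v3380 v12119 v4774 v3216 v3763 w1969 v3797 w4525 w2367 w2370 v5274 v5268 v12241 v390 v2835 w3461 w3549 v12228 w3554 w3555 w3397 v12110 w5165 w8465 w8506 w340 v4438 w297 v12153 w4793 w8915 w8801 v12371 w771 w694 w688 v8445 v11158 w2278 v2314 w8799 w5319 w5312 w5690 v6779 v12139 w5840 w5834 w5663 w1452 w1465 w1501 v12448 v10930 v6793 w801 v734 v12510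
theorem v12528 : PV l12528 := r12528 v5035 v11466 v7703 v3008 v3025 v3026 v3000 v12096 v4838 v11294 v4834 v12348 v5039 w305 v12527 w730 w336 w351 w800 w725 w720 v12486 v12509 v12525 v1137 v11371 v12300 v2708 w4557 v3011 v12333 v12347 v3318 w799 v498 v3435 v12216 v3032 v1145 w4563 v3006 v501 v495 v2998 v2996 v12277 w1117 v3933 w1124 w1566 w1116 w1159 v3927 w1152 w1575 w1569 v476 v11453 v3374 v12235 v4775 v12241 v3137 v4187 v8600 v5388 v4846 v3758 v5387 v390 v2835 w3549 v12228 w4346 w5008 v2739 v4852 v3762 v3797 v12110 w5165 v1246 v12136 w340 v4438 w297 v12227 v1268 w8658 w771 w690 v12150 w5795 w719 w295 v12499 w3015 w3756 w3719 v12474 w1452 w1489 w1501 w1090 v12500 v12512 w2232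
theorem v12529 : PV l12529 := r12529 v7703 v3008 v12486 v1218 v11466 v12096 v5035 v3000 v4838 v4834 v11294 w4557 v11371 v12300 v3011 v3025 v3026 v12348 v12333 v12347 v3319 w2393 w351 v5039 w305 w799 w800 v498 v3435 v3431 v12216 v2992 v325 w2865 v3032 v1145 w4563 v3007 v3006 v501 v2996 v12277 w1117 v3933 w1124 w1566 w1116 w1159 v3927 w1152 w1575 w1569 v11453 v12135 v2707 v12509 v1137 v12514 v12525 v12527 w730 w336 v12528 v3380 v12119 v4774 v3216 v3763 w1969 v3797 w4525 v11802 w2367 w2370 v5274 v12241 v9632 v390 v2835 w3460 w3461 w3549 v12228 w3554 w3555 w5823 v12110 w5165 w8465 w8506 w340 v4438 w297 w4827 w4793 w4789 w8801 v12371 w771 w690 v2269 w8799 w719 w295 w5494 w5750 v12506 v12150 w3438 w3446 w3039 w3015 w3003 w3670 v12508 w1109 w1454 v12474 v1510 w1112 v3904 v3905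
theorem v12530 : PV l12530 := r12530 v7703 v3003 v3319 w2393 v498 v3431 w4557 v1145 v5035 v4834 v3374 v9632 v2619 v8144 w6525 w5818
theorem v12531 : PV l12531 := r12531 v11466 v12096 v5035 v7703 v3000 v4838 v4834 v11294 w4557 v11371 v12300 v3011 v3008 v3025 v3026 v12348 v12333 v1145 v501 v2996 v12347 v12486 v1218 v12529 v12530 v12119 v4774 v3763 v5519 w4525 v5514 v5274
theorem v12532 : PV l12532 := r12532 v5035 w1160 v8727 v7736 v8906
theorem v12533 : PV l12533 := r12533 v3319 v8638 v9437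
theorem v12534 : PV l12534 := r12534 v5102 w1899 v8918 w335 v11867
theorem v12535 : PV l12535 := r12535 v12531 v3216 w1975 v7703 v3000 v5035 v12096 v4838 v4844 v3927 v11294 v501 v495 w4563 v3006 v11466 v11371 v4834 v12300 v3008 v3025 v3026 v12348 v5039 v12216 v12533 w1160 v4771 w4557 v1145 v8727 w5595 w5596 v3234 v12277 v3374 v12241 w3548 w3696 w3694 v11453 w1159 w1152 w1569 w351 v3011 v12333 v390 w3549 v12110 v4438 w694 v2707 v3384 v12532 v1218 v421 v2586 v4082 v12133 v3933 w1132 v2708 v498 v3435 v8902 w8328 v4775 w1117 w1124 w1565 v12123 w305 w800 w774 w8774 w799 w771 w340 v2835 v3431 v12194 v3007 v4967 w1158 v12394 v1127 v1698 v5510 w5756 w5690 w5691 w1535 w1603 w7873 w7874 w728 v11896 v740 v12534 w1078 w1076 w1409 w1429 w1418 v12310 w257 w250 w672 w641 v10548 v1134 v12145 w5540 w8520 w8370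
theorem v12536 : PV l12536 := r12536 v8837 v1244 v7703 v3008 v1218 v421 v11466 v3025 v3026 v5035 v3000 v12096 v4838 v11294 v4834 v12348 v11371 v12277 v3374 v12241 v498 w3548 w1117 v3933 w1124 w1565 v12123 w351 v5039 w305 w800 v11453 w1159 v3927 w1152 w1569 v501 w4557 v12300 v3011 v12333 v390 w3549 v12110 v4438 w774 w8774 w5468 v12153 v3384 v12531 v3435 v3431 v12194 v12216 v3012 v1146 v1145 w4563 v3007 v3006 v4844 v4967 w1575 w1158 v325 v12308 w853 v12337 v10807 w923 v5034 v8742 v8887 v1073 v4526 w2501 w2489 v8857 w2450 w4077 v12389 v3969 v5053 v684 v8924 w1078 w1076 w1429 v12310 w257 w672 v10548 v10549 v2521 v2505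
theorem v12537 : PV l12537 := r12537 v8837 v1244 v11453 v5035 v11466 v11371 w1159 v3927 w1152 w1569 v7703 v3000 v12096 v11294 v501 w351 v4838 v4834 w4557 v12300 v3011 v3008 v3025 v3026 v12348 v12333 v12277 v3374 v12241 v390 w3549 v12110 w340 v12531 v498 v3435 v3431 v5039 v12194 v12216 w305 v2992 v3012 v1145 w4563 v3007 v3006 v4967 w1575 w1117 v3933 w1158 v5034 v4502 v12309 v4526 w102 w101 w853 v10807 w922 w923 v12148 v8887 v1073 w1734 w4163 w4161 w4087 w4077 v3096 w2535 w2540 v12389 w6050 w6049 v11856 w867 w824 v4498 w251 v4981 w819 v4587 w661 v11613 v4984 v8508 v8083 v5053 v684 v8924 w1078 v6382 w1429 w4583 v10548 v3919 v3918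
theorem v12538 : PV l12538 := r12538 w5636 w5643 w7897 v11896 w3754 v6194
theorem v12539 : PV l12539 := r12539 v11820 v11832 w290
theorem v12540 : PV l12540 := r12540 v5035 v7703 v3000 v12096 v4838 v4834 v11466 v11371 v12300 v3008 v3025 v3026 v11294 v12348 v12277 v3374 v12241 w3460 w1117 v11453 w1159 v3927 w1152 w1569 v501 w351 w4557 v3011 v12333 v390 w3549 v12110 v4438 v2708 v3384 v12531 v4844 v495 w4563 v3006 v5039 v12216 v3216 w1975 v12533 w1160 v4771 v1145 v8727 v2586 v4082 v12133 v3933 w1132 v498 v3435 v8902 w8328 w694 w714 w1465 w340 w708 w275 w1116 w1452 w1090 v11808 w1911 w2402 v12194 v3431 v1698 w5735 w305 w799 w771 w3548 w3694 w1969 w2323 w1489 w1124 w1565 v12123 w800 w774 w8774 w5689 w7873 w728 v4775 w3696 w5691 w2324 w742 w7848 w1513 w7981 v2313 v2314 w723 w1566 w1508 w3667 v2282 w8228 v12538 w8459 v3228 w3406 v476 w5315 w5319 v4626 v4808 w5468 v12153 v3012 v1146 v3007 v12539 v12186 v12535 v11896 w4754 w4652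
theorem v12541 : PV l12541 := r12541 v11371 v12277 v3933 w1116 w1452 w1090 v11808 w1911 w2402 w1117 v11820 v11839 w290
theorem v12542 : PV l12542 := r12542 v11466 v11371 v12277 w1117 v3933 w1124 w1566 v7703 v3000 v12096 v11294 v501 v4775 v3008 v3025 v3026 v5035 v4838 v4834 v12348 v3374 v12241 w3548 w3696 w1565 v12123 w351 v5039 w305 w800 v11453 w1159 v3927 w1152 w1569 w4557 v12300 v3011 v12333 v390 w3549 v12110 v4438 w774 w8774 v12194 v498 v3431 v1698 w5691 v3216 w1969 v4844 v3384 w340 w708 w275 w1116 w1452 w1090 v11808 w1911 w2324 w3694 w2323 w1489 w5689 w7873 w742 w7848 w1508 w1513 w799 w771 w728 w723 v12531 v12133 v495 w4563 v3006 v12216 w1975 v12533 w1132 w1160 v4771 v1145 v8727 v2586 v3435 v8902 w5735 w7981 w5312 v476 v472 w5298 w2402 v3228 v3234 w1465 w3460 w3667 v4082 w714 w297 w688 w694 v2708 w8328 w5468 v12153 v2992 v3012 v1146 v3007 v325 v2282 v2313 v2314 w8228 v12538 w8459 v12540 v12541 v12186 v12181 v11896 v11897 v740 v4628 w4642 w2845 v4582 w8027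
theorem v12543 : PV l12543 := r12543 v11371 w1078 w1076 w1429 v12310 w257 w672 v1128 v10548 w3375 v2521 v2505
theorem v12544 : PV l12544 := r12544 v3228 v3234 w271 v4628 v8443 w2845
theorem v12545 : PV l12545 := r12545 v12531 v3216 w1975 v7703 v3000 v5035 v12096 v4838 v4844 v11294 v3384 v11453 v11466 v11371 w1159 v3927 w1152 w1569 v501 w351 v4834 w4557 v12300 v3011 v3008 v3025 v3026 v12348 v12333 v12277 v3374 v12241 v390 w3549 v12110 w340 w708 w275 v3933 w1116 w1452 w1090 v11808 w1911 w2402 w1969 w2326 w2324 w2323 v3228 v3234 w1489 w1117 w1465 w3548 w3696 w3694 w3460 w3663 w3406 v495 w4563 v3006 v5039 v12216 v12533 w1160 v4771 v1145 v8727 v2586 v4082 w714 w297 w688 v4438 w694 v12133 w1132 v2708 v498 v3435 v8902 w8328 v12135 w2367 w1575 w305 w799 v3007 v12305 v12150 v4775 w1124 w1565 v12123 w800 w774 w8774 w771 w3461 v2707 v3431 v12194 v3012 v4967 v476 v472 w1158 v325 v1698 w5304 w5315 w5298 w5319 w5312 w7981 w5691 w5689 w5735 v4626 w7873 v4808 w728 w742 w7848 w1513 w1526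 v12542 w8522 w2260 v2265 w8395 v2306 w5639 w5646 w7894 w5696 v12432 w5628 v5510 v6194 w1534 v12186 v11896 w4777 v31 v12543 v12534 v12544 w290 w7812 w7984
theorem v12546 : PV l12546 := r12546 w7981 w5735 w2258 v6194 v11747
theorem v12547 : PV l12547 := r12547 v12546 v732 w2258 v11828 v11747 v6194
theorem v12548 : PV l12548 := r12548 v7703 v11466 v11371 v5035 v3000 v12096 v4838 v4834 v12300 v2992 v11453 w1159 v3927 w1152 w1569 v11294 v501 w351 w4557 v3011 v3008 v3025 v3026 v12348 v12333 v12277 v3374 v12241 v390 w3549 v12110 v12181 v8837 v5039 w297 w688 w3460 w3663 v3933 w1116 w1452 v11199 w3461 v10528 w1489 w1117 w1465 w3548 w3696 w3694 v4438 w694 v1218 v421 v498 w1124 w1565 v12123 w305 w800 w774 w8774 w5468 v12153 w799 w771 v3384 v3435 v3431 v12194 v12216 v325 w2865 v1146 v1145 w4563 v3007 v3006 v4844 v4967 w7981 w5689 w4756 v2314 w2258 w7873 v8399 w8373 w728 w742 w3001 w7730 v11915 v1705 w4640 w290 w8027 w6485 v12536 v12537 v12117 v12337 v9744 v7772 v8043 v8830 v7200 v4535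 v4547 w3907
theorem v12549 : PV l12549 := r12549 v3236 v3238 v7703 v3008 v5035 w257 v10499 w671 w641 v3015 w3374 v2519 w7554 v451 w5425 w5423 v2423 v11361 v11851 v5075 v3632 v4494 w3432 w289 v4487 w4727 w4603 w7639 w616 v761 w2215
theorem v12550 : PV l12550 := r12550 v4587 v11873 v4498
theorem v12551 : PV l12551 := r12551 v5102 v3228 v3234 v7703 v3008 v325 w268 v12544 v8393 w687 v2755 w4284 v12549
theorem v12552 : PV l12552 := r12552 v12531 v3216 w1975 v7703 v3000 v5035 v12096 v4838 v4844 v11294 v3384 v11453 v11466 v11371 w1159 v3927 w1152 w1569 v501 w351 v4834 w4557 v12300 v3011 v3008 v3025 v3026 v12348 v12333 v12277 v3374 v12241 v390 w3549 v12110 w340 w708 w275 v3933 w1116 w1452 w1090 v11808 w1911 w2402 w1969 w2324 w2323 v3228 v3234 w1117 w1465 w3460 w3663 w3406 v495 w4563 v3006 v5039 v12216 v12533 w1160 v4771 v1145 v8727 v2586 v4082 w714 w297 w688 v4438 w694 v12133 w1132 v2708 v498 v3435 v8902 w8328 v12135 w2367 w1575 w305 w799 v3007 v12305 v12150 v2707 v12532 v4775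 w3548 w1124 w1565 v12123 w800 w774 w8774 w5468 v12153 w3461 v3431 w352 v12194 v325 w2865 v3012 v1146 w1158 v12545 v10528 v11199 v8000 v12547 v12186 v4919 v12548 v732 v9900 v2314 w2258 v12536 v12543 v8399 v11828 v11747 v5102 w1142 w1105 w3001 w5596 w5594 w5592 v5510 v3236 w1899 v6954 w1428 v1705 v4626 w1534 w2225 w1070 v12550 v12551 w336 w8053 w746 w4622 v12549
theorem v12553 : PV l12553 := r12553 w5735 v476 v472 w5298 w5304 v11371 v12277 v3933 w1116 w1452 w1090 v11808 w1911 w2402 v3228 v3234 w1117 w1465 w694 v12300 v2708 v2707 v12194 v12216 v11884 v6194 v12541 w290 v3604 v2490 v5881 w3752 w8459 w2258 w1106 w4665 v673 w5636 v12432 w8231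
theorem v12554 : PV l12554 := r12554 v5102 w1142 v3236 w1899 w1428 w2225 v12550 v11865 w4593 v11479 w335 v4479 v4480
theorem v12555 : PV l12555 := r12555 w8520 w8370
theorem v12556 : PV l12556 := r12556 v11453 v5035 v11466 v11371 w1159 v3927 w1152 w1569 v7703 v3000 v12096 v11294 v501 w351 v4838 v4834 w4557 v12300 v3011 v3008 v3025 v3026 v12348 v12333 v12277 v3374 v12241 v390 w3549 v12110 v498 v3435 w352 v5039 v12194 v12216 w4563 v3007 w1158 v12554 w1078 w1076 w1429 w1418 v12310 w257 w250 w672 v10548 v12145 v12555 w5296 v11361 v6382 v4308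
theorem v12557 : PV l12557 := r12557 v3228 v3234 v3008 v325 w271 v4628 v4582 v2983 w2845 w1106 v4936 v8443 w4752
theorem v12558 : PV l12558 := r12558 w8373 v11897
theorem v12559 : PV l12559 := r12559 v12552 v12531 v3216 w1975 v7703 v3000 v5035 v12096 v4838 v4844 v11294 v3384 v11453 v11466 v11371 w1159 v3927 w1152 w1569 v501 w351 v4834 w4557 v12300 v3011 v3008 v3025 v3026 v12348 v12333 v12277 v3374 v12241 v390 w3549 v12110 w340 w708 w275 v3933 w1116 w1452 w1090 v11808 w1911 w2402 w1969 w2326 w2324 w2323 v3228 v3234 w1489 w1117 w1465 w1485 w3548 w3696 w3694 w3460 w3663 w3667 w3406 v495 w4563 v3006 v5039 v12216 v12533 w1160 v4771 v1145 v8727 v2586 v4082 w714 w297 w688 v4438 w694 v12133 w1132 v2708 v498 v3435 v8902 w8328 v2707 v12532 v3797 v9303 v12135 w2367 w1575 w305 w799 v3007 v12305 v4775 w1124 w1565 v12123 w800 w774 w8774 w5468 v12153 w771 v3431 v12194 v2992 v1146 w1566 v476 v472 v1698 w5304 w5315 w5298 w5319 w5312 w7981 w5691 w5689 w5735 v4626 w7873 v4808 w723 w728 w742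 w7848 w1513 w1508 w1526 v12553 v12181 v12556 v12557 w290 v12558 w8459 w2258 w2265 w5755 w5636 w7894 w8228 w5695 v664 w5629 v11896 w5646 v31 v12432 v5510 w1534 w7984 w7812
theorem v12560 : PV l12560 := r12560 v8837 v1244 v7703 v3000 v12096 v11294 v2996 v3927 v5035 v4838 v4834 v4844 w4557 v1145 v12531 v2707 v3384 v501 v4771 v3216 w1975 v495 w4563 v3006 v11466 v11371 v12300 v3008 v3025 v3026 v12348 v5039 v12216 v12533 v12532 v3763 w4525 v1218 v421 v11453 w1159 w1152 w1569 w351 v3011 v12333 v12277 v3374 v12241 v390 w3549 v12110 w1160 v8727 v2586 v4082 v12133 v3933 w1132 v2708 v498 v3435 v8902 w8328 v12135 w1969 w2367 w1575 w305 w799 v3007 v12305 v12150 v3797 v4775 w3548 w1117 w1124 w1565 v12123 w800 v4438 w774 w8774 w5468 v12153 v3431 w352 v12194 v3012 v1146 v4967 w1158 v325 v12543 v12308 v5102 w1142 v12337 v3236 w1899 w1428 v5034 v4502 v8742 v3238 w2225 w2399 v4526 w2501 w2489 v8857 v4059 v12478 w2443 v12550 v3303 w4194 w4091 w1644 w1639 v11865 v3966 w1756 w4593 w4589 w4147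 w4148 w947 v6373 w2510 v4490 w335 v4079 v4506 v4960 w76 w6008 w2514 w6044 w903 w900 w1068 v11368 v3015 v2718 v11853 w7519 w5521
theorem v12561 : PV l12561 := r12561 v5102 w1142 v3236 w1899 w1428 v3238 w2225 v12550 v11865 w4589 v6373 v4490 w335 w8904 w7567
theorem v12562 : PV l12562 := r12562 w1970 v3216 v11371 w1078 w1076 w1429 w1427 w1418 v12310 w257 w250 w672 w671 v10548 v12145 w1953 v12555 w2226 w5572 w7504 w9144
theorem v12563 : PV l12563 := r12563 v5035 v3927 w1158 v11466 v11371 w1152 v7703 v3000 v12096 v4838 v11294 w4563 v3006 v3008 v3025 v3026 v4834 v12348 v5039 v12300 v12216 v12194 w351 v3374 v11453 w1159 w1569 v501 w4557 v3011 v12333 v12277 v12241 v390 w3549 v12110 w305 w799 v4438 w771 w8799 v12562 w297 w688 w3460 w3663 v3933 w1116 w1452 v11199 w3461 v10528 w1489 w1117 w1465 w3548 w3696 w3694 w694 v3384 v12531 v4844 v495 v3216 w1975 v12533 w1160 v4771 v1145 v8727 v2586 v4082 v12133 w1132 v2708 v498 v3435 v8902 w8328 w1969 v4775 w1124 w1565 v12123 w800 w774 w8774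 v3431 w352 v325 w2865 v1146 v3007 w7981 w5689 w5686 w4756 v2314 w2258 w7873 w4929 v8399 w8373 w728 w742 w3001 w7730 v11915 v1705 w4640 w290 w8027 v12560 v12561
theorem v12564 : PV l12564 := r12564 v7703 v3000 v12096 v11294 v501 v5035 v4838 w4563 v3007 v11466 v4834 w4557 v11371 v12300 v3011 v3008 v3025 v3026 v12348 v12333 w352 v3927 w1158 w1152 v3006 v5039 v12216 v12194 w351 v3374 v11453 w1159 w1569 v12277 v12241 v390 w3549 v12110 w305 w799 v4438 w771 w8799 v12562 v498 v3435 v5102 v3236 w1142 w1428 v3216 w1969 w1899 w2225 v12550 v12531 w1975 w2399 v3238 v3933 w1105 v2996 v4844 v1145 v2707 v3384 v4771 v495 v12533 v12532 v3763 w4525 v1218 v421 w1160 v8727 v2586 v4082 v12133 w1132 v2708 v8902 w8328 v12135 w2367 w1575 v12305 v12150 v3797 v4775 w3548 w1117 w1124 w1565 v12123 w800 w774 w8774 w5468 v12153 w3479 v3431 v3012 v1146 v4967 v325 v12560 v11865 v12308 w4351 w4590 w5571 v12337 v878 v6373 v4505 v8742 w2708 v2969 v4490 w2501 w2489 v8857 v4059 v12478 w2517 w2510 v11853 w335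 w289 v4079 v4506 w4149 w4144 w1640 w1639 w6045 w5521 w5237 w4578 w7567 w6008 w7544 w3625 w901 w1079 w7639 w7519 w2215 w3652 v761 w7699
theorem v12565 : PV l12565 := r12565 v5102 v3236 v3238 v8431 v4965 v11371 v12277 v3933 w1105 v7703 v12300 v3012 v3008 v5035 v4502 v12309 v4505 v10751 v4506 w75 w2501 w2489 v8857 v4059 v12478 w2517 w2510 w2511 w4149 w4145 w4144 w1640 w1644 w1639 w6045 w1755 w6008 w6043 w901 w899 w1068 v11368 w3374 w7554 w5425 w5423 v11361 v5075 v3632 w3432 v4487 v4484 w7639 w616 w4605 w2215 v761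
theorem v12566 : PV l12566 := r12566 v878 v3008 v325 v12337 v8043 v8899 v9813
theorem v12567 : PV l12567 := r12567 w251 v11851 w655 w5425 w5426 w7554 w7628 v2333
theorem v12568 : PV l12568 := r12568 v5102 v3236 v3238 v8431 w289 v7703 v3008 v325 v11371 v12300 w2865 w3461 v12277 v3933 w1116 w297 v10528 v2314 v8399 w3001 v3012 v12186 v8837 v3228 v3234 v11064 v4945 v12216 w268 v12544 v8393 w626 v2755 w4284 v878 v12566 w4259 v2765 w4728 v4960 v12565 w2711
theorem v12569 : PV l12569 := r12569 v11466 v11371 v5035 v7703 v3000 v12096 v4838 v4834 v12300 v3008 v3025 v3026 v11294 v12348 v12277 v3374 v12241 w3460 w3663 w3406 v11453 w1159 v3927 w1152 w1569 v501 w351 w4557 v3011 v12333 v390 w3549 v12110 w340 w708 w275 v3384 v12531 v4844 v495 w4563 v3006 v5039 v12216 v3216 w1975 v12533 w1160 v4771 v1145 v8727 v2586 v4082 w714 w297 w688 v4438 w694 v2996 v2707 v12532 v3763 w4525 v1218 v421 v12133 v3933 w1132 v2708 v498 v3435 v8902 w8328 v12135 w1969 w2367 w1575 w305 w799 v3007 v12305 v12150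 v4775 w3548 w1117 w1124 w1565 v12123 w800 w774 w8774 w5468 v12153 w771 w3461 v2814 v3431 w352 v12194 v325 w2865 v1146 v4967 w1116 w1158 w1452 w1465 w1090 v11808 v3228 w1911 v3234 w2323 w2324 w2402 v12552 w8799 v12559 v10528 v11199 v8000 v11064 v12547 v4919 v4945 v8837 v12562 v5102 w1142 v3236 w1899 w1428 w1426 v3238 w2225 w2223 v12550 w257 w249 w671 v12563 v732 v9900 v2314 w2258 v8399 v11828 v11747 w3026 w3001 w5596 w5595 w5594 w5592 v5510 v1705 v4626 w1534 v3930 v4936 v12564 v12567 w335 w289 v8431 v12568 w336 w8053 w642 w4622 w4279 w4728 v878 v12566 w4259 v2765 v12565 v4960 w2711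
theorem v12570 : PV l12570 := r12570 w694 v11371 v12277 v3933 w1132 v12300 w1116 w1117 v476 v472 v2305 w1538 v11908 v736 w8459 w2270 w8345 v11407 w5636 w5298 w5735 v9444 w3436 w3009 w3754 w7768 v9479 v5510
theorem v12571 : PV l12571 := r12571 v2707 v11884 v7293 w336 w290 w3754 w3752 w3845 w7850 v2255 w8234 w1534 v673 v1104 v12411 w7897 v2306
theorem v12572 : PV l12572 := r12572 v7703 v3000 v12096 v11294 v3374 v498 v3435 w351 v11466 v11371 v5035 v4838 v4834 v12300 v3008 v3025 v3026 v12348 v5039 v12194 v12216 w4557 v3011 v12333 w4563 v3007 v3006 v4967 v3927 w1158 v12534 w1078 w1076 v12543 w1429 v12310 v11856 w257 v6382 w672 w4583 v10548 v3919 v3918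
theorem v12573 : PV l12573 := r12573 w8443 w8459
theorem v12574 : PV l12574 := r12574 w1159 v7703 v3000 v12096 v11294 v501 v4775 v11466 v3008 v3025 v3026 v5035 v4838 v4834 v12348 v11371 v12277 v3374 v12241 w3548 w3696 w1117 v3933 w1124 w1565 v12123 w351 v5039 w305 w800 v11453 v3927 w1152 w1569 w4557 v12300 v3011 v12333 v390 w3549 v12110 v4438 w774 w8774 w5691 v3216 w1969 v3384 v2832 w340 w708 w275 w1116 v3031 v12216 v12194 v498 v3431 v3435 v12531 v2708 w3460 w3461 v4844 v495 w4563 v3006 w1975 v12533 v12133 w1132 w1160 v4771 v1145 v8727 v2586 v8902 v4082 w8328 w297 w688 w714 v12570 w1452 w1090 v9048 w1911 w2324 w3694 w2323 w1489 w5689 w7873 w742 w7848 w1526 w799 w771 w728 v3228 w3406 v476 w5315 w5319 v4626 v4808 w5735 w7981 w5312 v472 w5298 v12569 v12573 w2402 w2326 v3234 v1119 w1465 w1485 w694 v12135 w2367 w1575 v3007 v12305 v12150 v2707 v12532 v3797 v9303 w352 v2992 v1146 v12571 v12181 v12558 v12557 v12556 v12572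
theorem v12575 : PV l12575 := r12575 v11466 v11371 v12277 w1117 v5035 v7703 v3000 v12096 v4838 v4834 v12300 v3008 v3025 v3026 v11294 v12348 v3374 v12241 w3460 v11453 w1159 v3927 w1152 w1569 v501 w351 w4557 v3011 v12333 v390 w3549 v12110 v4438 v3031 v5039 v12216 v12194 v498 v3431 v3435 v12531 v2708 v3384 w3461 v4775 v4844 v495 w4563 v3006 v3216 w1975 v12533 v12133 v3933 w1132 w1160 v4771 v1145 v8727 v2586 v8902 v4082 w8328 w297 w688 w714 v12570 v12569 v12573 v2832 w340 w708 w275 w1116 w1452 w1090 v9048 w1911 w2402 w1969 w2324 w2323 v3228 v3234 w694 v12135 w2367 w1575 w305 w799 v3007 v12305 v12150 v2707 v12532 w5735 v12574 v8000 v11747 v7293 v4919 v12548 v12563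
theorem v12576 : PV l12576 := r12576 v7703 v3000 v12096 v11294 v501 v5035 v4838 w4563 v3007 v11466 v4834 w4557 v11371 v12300 v3011 v3008 v3025 v3026 v12348 v12333 w352 v3927 w1158 v3006 v5039 v12216 v12194 w351 v3374 v12543 v498 v3435 v5102 v3236 w1159 w1142 w1428 v12550 v12277 v3933 w1105 v3012 v11453 w1152 w1569 v12241 v390 w3549 v12110 v12186 v3228 v3234 v1145 v1705 v4438 w694 w340 w708 v12536 v6954 w1070 v12551 w336 w8053 w746 w4622 v12549
theorem v12577 : PV l12577 := r12577 v5035 v11453 v11466 v11371 w1159 v3927 w1152 w1569 v7703 v3000 v12096 v11294 v501 w351 v4838 v4834 w4557 v12300 v3011 v3008 v3025 v3026 v12348 v12333 v12277 v3374 v12241 v390 w3549 v12110 w340 w708 w275 v3384 v12531 v4844 v495 w4563 v3006 v5039 v12216 v3216 w1975 v12533 w1160 v4771 v1145 v8727 v2586 v4082 w714 w297 w688 v4438 w694 v2996 v2707 v12532 v3763 w4525 v1218 v421 v12133 v3933 w1132 v2708 v498 v3435 v8902 w8328 v12135 w1969 w2367 w1575 w305 w799 v3007 v12305 v12150 v4775 w3548 w1117 w1124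 w1565 v12123 w800 w774 w8774 w5468 v12153 w3461 w3460 v2814 v3431 w352 v12194 v3031 v1146 v4967 w1116 w1158 v2832 w3406 v12570 w1452 w1465 v12569 w1090 v1119 v9048 v3228 w1911 v3234 w2402 v12573 v12575 v11828 v1103 v732 v9900 w5596 w5595 w5594 w5592 v8000 v11064 v11747 v4626 w2724 w2716 v5510 v7293 v4929 v1705 w1534 v8837 v4945 v12543 v5102 w1142 v3236 w1899 w1428 w1426 v3238 w2225 w2223 v12550 w257 w249 w671 v12576 v12564 v12567 w335 w289 v8431 v12568 w336 w8053 w642 w4622 w4280 w4728 v12566 w4259 v2765 v12565 v4960 w2711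
theorem v12578 : PV l12578 := r12578 v7293 v11170 w2337 w7810 w8457
theorem v12579 : PV l12579 := r12579 v11466 v11371 v12277 v3933 v7703 v3000 v12096 v11294 v3374 v5035 v4838 w4557 v1145 v12142 v1705 w1106 v3930 v3008 v3025 v3026 v4834 v12348 v12241 v498 w3548 w1117 w1124 w1565 v12123 w351 v5039 w305 w800 v11453 w1159 v3927 w1152 w1569 v501 v12300 v3011 v12333 v390 w3549 v12110 v4438 w774 w8774 w5468 v12153 v3435 v12194 v12216 v1146 w4563 v3007 v4967 w1158 v11203 v12534 v4936 w1078 w1076 w4613 w1409 w1429 w1418 v12310 w8053 w257 w250 w249 w271 w268 w672 v1091 w626 v10548 v1104 v1134 v12145 w7730 w5538 v12555 v2306 w5554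
theorem v12580 : PV l12580 := r12580 v3930 v5042 v5881 v4954 w4608
theorem v12581 : PV l12581 := r12581 v11466 v11371 v12277 v3933 w1116 w1452 w1090 w1159 v3927 w1152 w1569 w1489 w1117 w1465 v7703 v3008 v3025 v3026 v5035 v3000 v12096 v4838 v11294 v4834 v12348 v3374 v12241 v498 w3548 w1124 w1565 v12123 w351 v5039 w305 w800 v11453 v501 w4557 v12300 v3011 v12333 v390 w3549 v12110 v4438 w774 w8774 w5468 v12153 v1146 w4563 v3007 v4844 v8445 w5312 v476 v472 w5298 w3461 w3677 w3460 w3670 v3031 w3010 v325 w2865 w3018 w3003 v2992 w3039 w3438 w340 w708 w275 w297 w688 w694 v3384 v3435 v1145 w7808 v11808 v12142 v8437 v3228 v4919 v1705 w4756 w1106 v12580 v12544 v12556 v12579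
theorem v12582 : PV l12582 := r12582 v7703 v11466 v11371 v5035 v3000 v12096 v4838 v4834 v12300 v2992 v11453 w1159 v3927 w1152 w1569 v11294 v501 w351 w4557 v3011 v3008 v3025 v3026 v12348 v12333 v12277 v3374 v12241 v390 w3549 v12110 v12181 v3012 v12186 v3933 w1116 w1452 w1090 w1117 w1465 v498 w3548 w1124 w1565 v12123 v5039 w305 w800 v4438 w774 w8774 w5468 v12153 v1146 w4563 v3007 v4844 v8445 w3460 w3670 v325 w2865 w3003 v3032 w3015 w340 w708 w275 w694 v12150 v1145 v12581 v1119 v8447 w4659 w4644 w5602 v4941 w4618 v1705 w8053 v8393 v12556 v12572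
theorem v12583 : PV l12583 := r12583 v7703 v3000 v12096 v11294 v498 v3435 v5102 w1899 v3927 w1142 v11466 v5035 v4838 v4834 w4557 v11371 v12300 v3011 v3008 v3025 v3026 v12348 v12333 w4563 v3007 v4967 v12536 v8918 w335 w8904 w7567
theorem v12584 : PV l12584 := r12584 v11466 v11371 v5035 v7703 v3000 v12096 v4838 v4834 v12300 v3008 v3025 v3026 v11294 v12348 v12277 v3374 v12241 w3461 v3933 w1116 v5039 v11453 w1159 v3927 w1152 w1569 v501 w351 w4557 v3011 v12333 v390 w3549 v12110 w297 v4771 v3216 w1969 v12531 v4844 v12135 w2367 w1575 v495 w4563 v3006 v12216 w1975 v12533 w305 w799 v3384 v3007 v498 v3435 v1145 w1132 v12305 v2707 v12532 v3797 w1160 v8727 v2586 v4082 v12133 v2708 v8902 w8328 v1218 v421 v12577 v4438 w694 w714 w3756 w3460 w3670 w3548 w1117 w1124 w1565 v12123 w800 w774 w8774 w5468 v12153 v1146 v8445 w5735 w1465 v12578 v12582 v10528 w1452 w1090 w5686 w5689 v476 w5304 v325 w2865 w3003 v3032 w3015 v2992 w3039 w340 w708 w275 v12150 v4775 w352 v12194 w1158 w7808 v11808 v12142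 v2314 v4919 v1705 v4945 w7730 w4756 w4929 w5670 w4640 v12562 w8053 v5102 w1142 v8393 v3236 w1899 w1428 w2225 v12550 v11865 v12583 v12564 v12561
theorem v12585 : PV l12585 := r12585 v12531 v12133 v3927 v5035 v7703 v3000 v12096 v4838 v4844 v11294 v501 v495 w4563 v3006 v11466 v11371 v4834 v12300 v3008 v3025 v3026 v12348 v5039 v12216 v3216 w1975 v12533 v12277 v3933 w1132 v3384 w1160 v4771 w4557 v1145 v8727 v2586 v11453 w1159 w1152 w1569 w351 v3011 v12333 v3374 v12241 v390 w3549 v12110 v498 v3435 v8902 w3548 w1117 w1124 w1565 v12123 w305 w800 v4438 w774 w8774 w5468 v12153 v1146 v3007 v12577 v8445 w5735 w5686 w5689 w3461 w3677 w3460 w3670 v2708 w3756 v325 w2865 w3003 v3032 w3015 w340 w708 w275 v4082 w714 w694 v2707 v12532 v1218 v421 w8328 v12135 w1969 w2367 w1575 w799 v12305 v12150 v3797 v4775 w297 w352 v12194 v2992 v3012 w1116 w1158 w1452 w1465 w1090 v12578 v12186 v12181 v12582 v10528 v12584 v8447 w4659 w4644 w8457 v2306 w5670 w4929 v4941 v2309 w5655 v12562 v1705 v11914 v5102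 w1142 w1106 v632 v3236 w1899 w1428 w2225 v12550 v11865 v12583 v12560 v12561
theorem v12586 : PV l12586 := r12586 v11453 v5035 v11466 v11371 w1159 v3927 w1152 w1569 v7703 v3000 v12096 v11294 v501 w351 v4838 v4834 w4557 v12300 v3011 v3008 v3025 v3026 v12348 v12333 v12277 v3374 v12241 v390 w3549 v12110 v3384 v12531 v4844 v495 w4563 v3006 v5039 v12216 v3216 w1975 v12533 w1160 v4771 v1145 v8727 v2586 v4082 v12133 v3933 w1132 v2708 v498 v3435 v8902 w8328 v4775 w3548 w1117 w1124 w1565 v12123 w305 w800 v4438 w774 w8774 w5468 v12153 w340 w3460 v3431 v325 w2865 v3032 v1146 v3007 w1116 w708 w694 w275 v12577 w3015 w3003 w3670 v8445 v12585 w1109 w1454 v2305 v9455 v1705 w1112 v12141 v3898 v11909 w7768 w4742 w8099 w4628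
theorem v12587 : PV l12587 := r12587 w3677 v11371 v12277 v3933 w1116 w1117 w1452 w1465 w1090 v11823 v8403 w7785 v12142 v12472 v1705 v8393 w1106 w4628 v1091 w7706 v1104
theorem v12588 : PV l12588 := r12588 v11453 v5035 v11466 v11371 w1159 v3927 w1152 w1569 v7703 v3000 v12096 v11294 v501 w351 v4838 v4834 w4557 v12300 v3011 v3008 v3025 v3026 v12348 v12333 v12277 v3374 v12241 v390 w3549 v12110 v3384 v12531 v4844 v495 w4563 v3006 v5039 v12216 v3216 w1975 v12533 w1160 v4771 v1145 v8727 v2586 v4082 v12133 v3933 w1132 v2708 v498 v3435 v8902 w8328 v9303 w5823 v12135 w1969 w2367 w1575 w305 w799 v3007 v12305 v12150 v2707 v12532 v3797 w3548 w1117 w1124 w1565 v12123 w800 v4438 w774 w8774 w5468 v12153 w771 w297 w340 w3461 w3460 v2835 v476 v12235 v2992 v325 w2865 v3032 v3012 v1146 w1566 v12586 w730 w722 w720 w725 w690 w699 v2269 w719 w336 w295 v12495 w3015 w3003 w3670 v12587 w1109 w1454 v12474 v1705 w1112 v3904 v3905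
theorem v12589 : PV l12589 := r12589 v11453 v5035 v11466 v11371 w1159 v3927 w1152 w1569 v7703 v3000 v12096 v11294 v501 w351 v4838 v4834 w4557 v12300 v3011 v3008 v3025 v3026 v12348 v12333 v12277 v3374 v12241 v390 w3549 v12110 v3384 v12531 v5039 w305 w799 v498 v3435 v12216 v1145 w4563 v3007 v3006 v495 v4844 w1575 v3933 v12135 v3216 w1969 w1975 w2367 v12533 w1132 v12305 v12588 v12152
theorem v12590 : PV l12590 := r12590 w1452 w1485 w1090 v11808 v3228 w1911 v6570 v3234 w3535 w1912 w8232 w5435 w4931 w4923 v4921 w2716 v1705 v3930 w7717 v3606 v11819 w3427 v8388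
theorem v12591 : PV l12591 := r12591 v11371 v12277 v3933 w1117 w1454 w1112 w1109 v12300 w3461 w3460 v2832 v12570 v1698 w7941 w5326 w4757 v12142 v4269 v3867 v1705 w2716
theorem v12592 : PV l12592 := r12592 v5714 v11371 v12300 v2708 v12277 v3933 w1132 v12133 w8579 v6179 v4603 w8328 w1116 w708 w688 w714 w275 v12590 v12591 v8445 v6192 v6808
theorem v12593 : PV l12593 := r12593 v11466 v11371 v5035 v7703 v3000 v12096 v4838 v4834 v12300 v2708 v12531 v12133 w351 v3008 v3025 v3026 v11294 v12348 v5039 w305 w799 w800 v498 v3435 v3431 v12194 v12216 w4557 v3011 v12333 v501 v495 v490 v3032 v3031 v3012 v1146 v1145 w4563 v3007 v3006 v4844 v2998 v2996 v12277 w1117 v3933 w1124 w1566 w1565 w1116 w1159 v3927 w1152 w1575 w1569 v476 v12123 v11453 v3374 v3384 v12235 v12241 v390 v2835 w3460 w3548 w3549 v12110 w340 v4438 w297 w771 w774 w8774 w5468 v12153 v12589 v3137 v4187 v8600 v5388 v4846 v4776 v5791 v3758 v5387 v12255 v12227 v1127 v878 w4346 w5008 w5011 v2739 w4311 v4852 w4965 v5714 v3762 w4940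 v12150 v8837 w5784 v12185 v4082 w8431 v9771 w1132 w8579 v6179 v3797 v12592 w730 w720 w725 w690 v2269 w719 w336 w295 v12499 w3438 w3015 w3719 w3670 v12474 w1452 w1465 w1489 w1090 v12500 v12472 v3234 v12141 w7785 v3228 v8403 v3591 w8128 w5307
theorem v12594 : PV l12594 := r12594 v11808 w1911 w2402 v12133 v2586 v4080 v11820 v7293 w336 w3754 v2256 w7897 w8233 w5675
theorem v12595 : PV l12595 := r12595 v9932 v4603
theorem v12596 : PV l12596 := r12596 v11808 w1911 w2402 v11371 v12300 v2708 v12133 v12194 v12216 v12277 v3933 w1132 v12595 v2586 v8902 v11841 v4080 w5723 w5735 w6418 v7293 v12594 w2976 v8000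
theorem v12597 : PV l12597 := r12597 v2707 v12133 w5814 w8355 w8891 w312 v7763
theorem v12598 : PV l12598 := r12598 v476 v472 v11371 v3318 v3319 v12597 w5405 w5840 v2561 v8566 w358
theorem v12599 : PV l12599 := r12599 v11479 w5573 w663 w7628 w7552
theorem v12600 : PV l12600 := r12600 v5102 w1142 w1899 w1426 w2223 v12599 w5422 v11865 v5151 v11851
theorem v12601 : PV l12601 := r12601 w5707 w5622 w5625 w5540 w5544 v12555 w2222 v653 w7607
theorem v12602 : PV l12602 := r12602 w7730 w7897
theorem v12603 : PV l12603 := r12603 v7703 v2996 v3000 v12096 v11294 v501 v11466 v5035 v4838 v4834 w4557 v11371 v12300 v3011 v3008 v3025 v3026 v12348 v12333 v12119 v3216 w1969 w1911 w2325 v3228 v3234 v12277 v12335 v3763 w4525 v5274 v12241 w3548 w1117 v3933 w1124 w1565 v12123 w351 v5039 w305 w800 v11453 w1159 v3927 w1152 w1569 v390 w3549 v12110 v4438 w774 w8774 w1566 v12135 w2370 w3554 w8465 w799 w771 w3555 w2367 w1575 w8506 w8801 w8799 w5745 w5766 v12228 w5397 w5494 v12152 w5791 v7600 v4774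 v498 v3435 w352 v12194 v12216 v495 v490 v1145 w4563 v3007 w1158 v325 w8233 v2256 w336 v4628 v12416 w2845 w8027 v12600 w1078 w1076 w1409 w1429 w1418 v12310 w257 w250 w672 w641 v12601 v1134
theorem v12604 : PV l12604 := r12604 v5102 v3236 v3238 v5034 v4526 v3008 v11865 w4589 v6373 v4490 w335 v4079 v4506 w7567 w75 w8904 v8742 w2501 w2489 v8857 v4059 v12478 w2510 w2511 v3303 w4091 w4146 w4144 w1644 w1639 v3966 w1755 w6008 w947 w6043 w903 w899 w1068 v11368 v3015 v2718 v11853 w7519 w5521
theorem v12605 : PV l12605 := r12605 w1969 v5102 w1142 w1899 w1426 w2223 w2399 v12604 v4587 w334 v4498 w669 v5151 w5426 v3624 w7642 w3522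
theorem v12606 : PV l12606 := r12606 v5035 v7703 v3000 v12096 v4838 v4834 v12531 v2996 v11294 v501 v11466 w4557 v11371 v12300 v3011 v3008 v3025 v3026 v12348 v12333 v12593 v12335 v495 w4563 v3006 v5039 v12216 v2708 v12119 v3216 w1975 w1159 v3927 w1152 w1569 w351 w305 w799 v11453 v12277 v3763 w4525 v5274 v12241 v390 w3549 v12110 v4438 w771 w3555 v12135 w1969 w2367 w1575 w8506 w8801 w8799 w1117 v3933 w1124 w1566 w2370 w800 w3554 w8465 w5745 w5772 v12598 v12595 v498 v3431 v4844 v3007 v1145 v1146 v12194 w3460 w5750 w8459 v12133 w1132 v3435 v5268 v2586 v8902 v12228 w5397 w5494 v12152 v12213 v12153 w694 w340 w708 w275 v4080 v11828 w5593 w5594 w3700 w3548 w3694 w3663 v3380 w1116 w1452 w1090 v11808 w1911 w2325 w2323 w1494 w1489 w1465 w297 w688 w1565 v12123 w774 w8774 w5766 w3461 w8522 v12150 w4832 w4950 w8915 v3797 w4793 w4844 v1218 v4774 w352 v2992 v325 w2865 v3012 v4967 w1158 w5689 w5686 w5629 w7981 w7873 w7894 w2278 v2314 w723 w742 w2245 v12596 v12602 w5606 w5675 w4628 w5655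 v12603 w8229 w3681 w3658 v11914 w7999 w8557 w681 w8042 v1495 w7841 w8125 v12338 v4502 v12309 v12605 v3926 w1078 w1076 w1429 w1418 v12310 w257 w250 w672 v12601 w5236 w5241 v5159 v5117 v2354
theorem v12607 : PV l12607 := r12607 v3236 v3238 v3008 v11865 v11476 w4592 w4587 v2977 v3015 v2974 v2718 v4481 v11853 w7544 v4079 w5521 w1079 w7519
theorem v12608 : PV l12608 := r12608 v4587 w334 v4498 w669 v5151 w5426 v3624 w7642 w3522
theorem v12609 : PV l12609 := r12609 v5268 v5274 w1969 v5035 w352 v11371 v12300 v12194 v12216 v7703 v3012 v3007 v3006 v4967 v5102 w1142 w1899 w1426 w2223 w2399 v12608 v12607 v1137 v1138 v12338 v12308 v12605 v4502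
theorem v12610 : PV l12610 := r12610 v12531 v7703 v2996 v3000 v12096 v11294 v501 v11466 v5035 v4838 v4834 w4557 v11371 v12300 v3011 v3008 v3025 v3026 v12348 v12333 v12593 v12119 v3216 w1975 v4844 v12335 v3763 w4525 v5268 v3380 v11453 w1159 v3927 w1152 w1569 w351 v12277 v5274 v12241 v390 w3549 v12110 w340 w708 w275 v3933 w1116 w1452 w1090 v11808 w1911 w2402 v495 w4563 v3006 v5039 v12216 v2708 w305 w799 v4438 w771 w3555 v12135 w1969 w2367 w1575 w8506 w8801 w8799 w1117 w1124 w1566 w2370 w800 w3554 w8465 w5745 w5772 v12598 v12595 v2586 v4080 w694 v12133 w1132 v498 v3435 v1145 v8902 w3460 w5750 w8459 w297 w3461 v12228 w5397 w5494 v12152 w8522 v12150 w4832 w4950 v12213 v12153 w8915 v3797 v1218 v7600 v4774 v3431 v12194 v1146 v3007 w1158 v11828 v12606 v1103 v732 v9900 w5650 v11625 w2278 w3681 w3754 v11914 w7999 w8557 v8920 v6194 w8042 v12609 v3926 w1078 w1076 w1429 v12310 w257 w672 v1128 v648 v46 w5432 w5412 v5159 v2355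
theorem v12611 : PV l12611 := r12611 v11466 v7703 v3008 v3025 v3026 v5035 v3000 v12096 v4838 v11294 v4834 v12348 v11371 v12277 v2996 v501 w4557 v12300 v3011 v12333 v12119 v12335 v3763 w4525 v5274 v12241 w3548 w1117 v3933 w1124 w1565 v12123 w351 v5039 w305 w800 v11453 w1159 v3927 w1152 w1569 v390 w3549 v12110 v4438 w774 w8774 w1566 v12135 v3216 w1969 w2370 w3554 w8465 w799 w771 w3555 w2367 w1575 w8506 w8801 w8799 w5745 w5766 v12228 w5397 w5494 v12152 w5791 v7600 v4774 v498 v3435 v12194 v12216 v495 v490 w4563 v3007 w1158 v12600 w1078 w1076 w1409 w1429 w1418 v12310 w257 w250 w672 w641 v12601 v1134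
theorem v12612 : PV l12612 := r12612 v5268 v5274 w1969 v5035 w352 v7703 v11371 v12300 v3012 v3007 v3006 v4967 v5102 w1142 w1899 w1426 w2223 w2399 v12608 v12607 v1137 v1138 v12338 v4502 v12309 v12605
theorem v12613 : PV l12613 := r12613 v5035 v11453 v11466 v11371 w1159 v3927 w1152 w1569 v7703 v3000 v12096 v11294 v501 w351 v4838 v4834 w4557 v12300 v3011 v3008 v3025 v3026 v12348 v12333 v12277 v2996 v12593 v12119 v12335 v3763 w4525 v5274 v12241 v390 w3549 v12110 w340 w708 w275 v4438 w694 v5268 v12531 v495 w4563 v3006 v5039 v12216 v2708 v3216 w1975 w305 w799 w771 w3555 v12135 w1969 w2367 w1575 w8506 w8801 w8799 w1117 v3933 w1124 w1566 w2370 w800 w3554 w8465 w5745 w5772 v12598 v12595 v2586 w3548 w1565 v12123 w774 w8774 w5766 w1116 w297 w3461 v12228 w5397 w5494 v12152 w8522 v12150 w4832 w4950 v12213 v12153 w8915 v3797 w4793 v1218 v4774 v3380 v498 v3435 v3431 v12194 v325 w2865 v1146 v1145 v3007 v4844 v476 w1158 w1452 w1465 w1489 w1090 v11808 v3228 v3234 v12610 w3003 w3677 v2278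 v8445 v9047 v1705 w5315 w5686 v10930 w2278 v2313 v2314 w1106 w1107 v12602 w5675 w4628 w5655 v2307 w8053 w6485 v11914 w8042 w8041 w711 v12611 v12612 v3926 w1078 w1076 w1429 w1418 v12310 w257 w250 w672 v12601 w5236 w5241 v5159 v5117 v2354
theorem v12614 : PV l12614 := r12614 v11371 v12277 v3933 w1116 v2305 w1117 w1454 w1109 w694 w3663 w3700 v12570 v12522 w8345 v11407 v2283 w5629 w7940
theorem v12615 : PV l12615 := r12615 v12531 v12133 v11466 v7703 v3000 v12096 v11294 v501 v495 v5035 v4838 w4563 v3006 v3008 v3025 v3026 v4834 v12348 v5039 v11371 v12300 v12216 v2708 v2996 w4557 v3011 v12333 v12593 v12119 v3216 w1975 w1159 v3927 w1152 w1569 w351 w305 w799 v11453 v12277 v12335 v3763 w4525 v5274 v12241 v390 w3549 v12110 v4438 w771 w3555 v12135 w1969 w2367 w1575 w8506 w8801 w8799 w1117 v3933 w1124 w1566 w2370 w800 w3554 w8465 w5745 w5772 v12598 w1132 v12595 v498 v3435 v1145 v5268 v2586 v8902 w1116 w297 w3461 v12228 w5397 w5494 v12152 w8522 v12213 v12153 w8915 w340 w3460 v4774 v3431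 v12194 v3031 v1146 v3007 v4844 w708 w688 w275 v4080 v12613 w1510 v12614 v8445 w7766 v6808
theorem v12616 : PV l12616 := r12616 w351 v5035 v11466 v7703 v3008 v3025 v3026 v3000 v12096 v4838 v11294 v4834 v12348 v5039 w305 w799 w800 v498 v3435 v11371 v12300 v12216 w4557 v3011 v12333 v2992 v325 w2865 v3032 v1145 w4563 v3007 v3006 v501 v2996 v12277 w1117 v3933 w1124 w1566 w1116 w1159 v3927 w1152 w1575 w1569 v11453 v12135 v12593 v3380 v12119 v12335 v4774 v3216 v3763 w1969 v3797 w4525 v11802 w2367 w2370 v5274 v12241 v390 v2835 w3460 w3461 w3549 v12228 w3554 w3555 v12110 w8465 w8506 v4438 w297 w4827 w5397 w4793 w4789 w8801 w771 v12213 w8799 w5494 w5745 w5750 v12150 v12152 w8522 v12615 w730 w690 v2269 w719 w336 w295 v12506 w3438 w3446 w3039 w3015 w3003 w3670 v12508 w1109 w1454 v12474 v1705 w1112 v3904 v3905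
theorem v12617 : PV l12617 := r12617 v3927 w1160 v5035 v3216 v4771 w1975 v9611 v8727
theorem v12618 : PV l12618 := r12618 v11371 v12277 v3933 w1132 v4082 v4598 w5407 v4602 v12285
theorem v12619 : PV l12619 := r12619 v11466 v7703 v3008 v3025 v3026 v5035 v3000 v12096 v4838 v11294 v4834 v12348 v11371 v12277 v3374 v12241 v390 v3384 v12616 v12531 v498 v3435 w4557 v1145 v501 v4844 v2998 v12617 v8600 v4846 v4776 v12618 v4852 v8726
theorem v12620 : PV l12620 := r12620 w3434 w3436 v2490 w1106 v673 v1104 v8399 w7897 w8231 v2306 w5655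
theorem v12621 : PV l12621 := r12621 v3234 w1912 v7703 v3003 v3012 v3927 v3008 v325 v3216 v4775 v11903 v11657 w312 v2576 v11642 w278 w754 v12620 v2983 v3017 w2845 v2827 w3397 v2488 v5163 v5111 w8053 w1106 v12186 w4752 w4642 w4640 w7812 w7730 v1104
theorem v12622 : PV l12622 := r12622 v495 v7703 v2998 v2996 v5035 v4187 v4846 v4776 v5791 w4965 v9771 v12185
theorem v12623 : PV l12623 := r12623 v11466 v11371 v12277 v3933 w1116 w1452 w1090 v12619 v3317 v3319 v12531 v7703 v3000 v12096 v11294 v3384 v5035 w340 w708 w275 v3008 v3025 v3026 v4838 v4834 v12348 v3374 v12241 v2832 v9048 v3228 v3234 w1912 v498 w351 v5039 w305 w800 v4438 w774 w1117 w1124 w1565 v12123 v8893 w8774 w5468 v12153 v12616 v2542 w3712 w3696 w3694 w3406 v12300 w3460 w297 w688 w694 w799 w771 w1159 v3927 w1152 w1569 w1489 w1465 v3003 v3435 v3431 v12194 w4557 v3011 v12333 v3012 v1146 w4563 v3007 v3006 v501 v4844 v4967 v476 v472 v11453 w5298 w5319 w5689 w7981 w8698 v4626 w2310 w2312 w7873 w728 w742 v12622 v3216 v4775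 v12621 v11903 v12573 v11657 w312 v2576 v11642 w278 w754 v12620 v2983 v3017 v5163 w8373 v11915
theorem v12624 : PV l12624 := r12624 v5035 w340 w708 w275 v11466 v7703 v3008 v3025 v3026 v3000 v12096 v4838 v11294 v4834 v12348 v5039 w297 w688 v4438 w694 w351 w305 w800 w774 v11371 v12277 v3933 w1116 w1452 w1090 w1117 w1465 v12616 v3003 v12531 v498 v3435 v3431 v12300 v12216 w4557 v3011 v12333 v501 v495 v490 v325 w2865 v3012 v1146 v1145 w4563 v3007 v3006 v4844 v4967 w1124 w1565 w1159 v3927 w1152 w1575 v476 v12123 v3374 v3384 v12235 v12241 v8893 v390 w3460 w3461 v2542 v2832 w8774 w3663 w3712 v9048 w5468 v3228 v12153 v3234 w1912 v12619 v3318 v3319 v3317 v12623 v1103 v732 v9900 v3137 v3144 v10528 v11199 v9779 v4775 v4771 w1969 w1975 v11903 v2314 w2258 w4552 w5493 v11657 v8399 v12150 w358 v2576 v2597 w3436 w3026 w3001 v11643 v11642 v1705 v8837 w278 v5042 v5111 w8053 w4279 v878 v12566 v4502 v12309 v10751 w804 w876 v11778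
theorem v12625 : PV l12625 := r12625 v7190 v2578
theorem v12626 : PV l12626 := r12626 v11371 v12277 v3933 w1132 v12625 v4082 v4598 w5407 v4602 v12289
theorem v12627 : PV l12627 := r12627 v11371 v12273 v2576
theorem v12628 : PV l12628 := r12628 v7703 v12616 v3003 v12531 w351 v5035 v11466 v3008 v3025 v3026 v3000 v12096 v4838 v11294 v4834 v12348 v5039 w305 w799 w800 v498 v3435 w4557 v11371 v12300 v3011 v12333 v1145 v501 v4844 v2996 v12277 w1117 v3933 w1124 w1566 w1565 w1159 v3927 w1152 w1575 v12123 v12135 v4438 w774 v12624 v3380 v12119 v12335 v3216 v3763 w1969 w4525 v11802 w2367 w2370 v5274 v12299 v12241 w8774 v390 v12228 w3554 w3555 v2542 w8465 w8506 w5397 w8915 w5493 v12150 v12626 v12627 v2618 v11657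
theorem v12629 : PV l12629 := r12629 v11466 v12096 v5035 v7703 v3000 v4838 v4834 v11294 w4557 v11371 v12300 v3011 v3008 v3025 v3026 v12348 v12333 v3012 v501 w1159 v3927 w1152 w1569 v12277 v11453 v11800 v12233 v12282 v12110 w3549 w3564 v12241 v3374
theorem v12630 : PV l12630 := r12630 w351 v5035 v11466 v7703 v3008 v3025 v3026 v3000 v12096 v4838 v11294 v4834 v12348 v5039 w305 w800 v12629 v4438 w774 v11371 v12277 w1117 v3933 w1124 w1565 v12123 v3374 v8893 w8774 v12628 w4557 v1146 w4563 v3007 v4844 v12241 v498 w5468 v12153 v8445 w5686 w3549 v12619 v3319 v12300 w3479 v2281 v12616 v2544 v3384 v325 w2865 w3003 v2992 w3039 w1116 w1452 w1090 w1465 w340 w708 w275 w694 w799 w771 w297 v3003 v12531 v3435 v3431 w352 v12194 v12216 v3011 v12333 v1145 v3006 v501 v4967 v2998 w1159 v3927 w1152 w1569 w1158 v11453 v6715 v11808 v10930 v12142 v4971 v8837 v4919 v1705 w4346 w4339 w4245 w4930 w4756 v4846 v4867 v9306 v4771 w1969 w1975 v11657 v2576 v8636 v2597 w8917 w5823 w5494 v12582 v10528 v12562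 v2314 v5102 w1142 v3316 v12602 v3236 w1899 w1428 w4640 w2225 w2399 w8053 v8393 v12550 v8918 w259 v10499 v11865 w335 v3015 w7567 v11853 w3641 w5521 w7442
theorem v12631 : PV l12631 := r12631 v4941 v4946
theorem v12632 : PV l12632 := r12632 v2461 w278 v3591 v11642 v6570 w3649
theorem v12633 : PV l12633 := r12633 w1912 w5312 v476 v472 w5298 v11371 v12277 v3933 w1116 w1452 w1090 v3317 w1117 w1465 v12273 v2576 v12632 v4945 v8447 w8373 w4742 w5628 w4628 v764 w8053 w3711 w278 v11642
theorem v12634 : PV l12634 := r12634 v7703 v3008 v325 v11466 v11371 v5035 v3000 v12096 v4838 v4834 v12300 w2865 w351 v12629 v12628 w3003 v3032 w3015 w3438 v12277 v3933 w1116 w1452 w1090 w340 w708 w275 v3025 v3026 v11294 v12348 v5039 w297 w688 v4438 w694 w305 w800 w774 v12616 v3003 v12531 v498 v3435 w4557 v3011 v12333 v1146 v1145 w4563 v3007 v4844 w1117 w1124 w1565 v476 v12123 v3374 v12235 v2544 v12619 v2801 v12241 v8893 w3782 w3826 w3706 w8774 w5468 v12153 v8445 v12630 v12573 v12631 v1705 v12633 v2560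 v11657
theorem v12635 : PV l12635 := r12635 w351 v12629 v7703 v12616 v3003 v12531 v5035 v11466 v3008 v3025 v3026 v3000 v12096 v4838 v11294 v4834 v12348 v5039 w305 w799 v498 v3435 w4557 v11371 v12300 v3011 v12333 v501 v4844 v2996 w1159 v3927 w1152 w1575 v12277 v12135 v12634 v3380 v12119 v12335 v3216 v3763 w1969 w4525 w2367 v5274 v12241 w3555 v2542 w8506 v12626 w8915 v12627 v2560 v11657
theorem v12636 : PV l12636 := r12636 w351 v12629 v12616 v12531 v11466 v7703 v3008 v3025 v3026 v5035 v3000 v12096 v4838 v11294 v4834 v12348 v501 v495 v490 v498 v4844 v11371 v12277 v3927 v3374 v12619 v12241 v3319 v390 v12255 v11660 v3144 v9305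
theorem v12637 : PV l12637 := r12637 w351 v12629 v5035 v11466 v7703 v3008 v3025 v3026 v3000 v12096 v4838 v11294 v4834 v12348 v5039 w305 w799 w4557 v11371 v12300 v3011 v12333 v501 v2996 w1159 v3927 w1152 w1575 w1569 v12277 v11453 v12135 v12636 v12119 v12335 v3216 v3763 w1969 w4525 w2367 v5274 v12241 v390 w3555 v12256 v12255 w8506 w5485 v11404
theorem v12638 : PV l12638 := r12638 v2305 w694 v5791 v4775 v1071 v11908 w8345 v11407 w8459 w2270 v9444 w5636 w7768
theorem v12639 : PV l12639 := r12639 v2560 v11657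
theorem v12640 : PV l12640 := r12640 v11466 v11371 v12277 v3933 w1117 v12637 v12635 w1454 w1112 w1116 v2305 w1109 v5035 w351 v12629 w340 w708 w275 v7703 v3008 v3025 v3026 v3000 v12096 v4838 v11294 v4834 v12348 v5039 w297 w688 v4438 w694 w305 w800 w774 v12616 v3003 v12531 v498 v3435 v3431 v12300 v12194 v12216 w4557 v3011 v12333 v325 w2865 v3032 v1146 v1145 v501 v2996 w1124 w1565 v476 v12123 v3374 v3384 v12235 w3479 v12619 v12241 v8893 w3782 v2281 w8774 w5468 v12153 v12639 v12273 v2576 v12638 w3015 w3003 w3670 v638 v1705 v11909 v12141 v3898 w8099 w7768 w4742 w4628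
theorem v12641 : PV l12641 := r12641 v12637 w351 v12629 v7703 v12616 v3003 v12531 v5035 v11466 v3008 v3025 v3026 v3000 v12096 v4838 v11294 v4834 v12348 v5039 w305 w799 v498 v3435 w4557 v11371 v12300 v3011 v12333 v501 v4844 v2996 w1159 v3927 w1152 w1575 v12277 v12135 v3380 v12119 v12335 v3216 v3763 w1969 w4525 w2367 v5274 v12241 w3555 v2542 w8506 v12626 w8915 v12639 v12627
theorem v12642 : PV l12642 := r12642 w1106 w8053 w4642 w4628 w7812 w7730 v1104
theorem v12643 : PV l12643 := r12643 v5042 v11371 v12277 v3933 w1116 w1452 w1090 v2832 v9048 v3228 v3234 w3406 w1117 w1465 v3012 v476 v472 v3008 v325 w5304 w5315 w5298 w7981 v4808 v12620 v3604 v2983 v3018 w2845 v2827 w3397 v12186 v4945 v4936 w4742 w4746 v12642 w6510 w4628 w4621 w7730 v734 v2314 w2260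
theorem v12644 : PV l12644 := r12644 v421 v11371 v12300 v12194 v12216 v3012 v4967 v3008 v325 v12308 w876 v12337 v8742 v11778 v4504 w752
theorem v12645 : PV l12645 := r12645 v6954 w8053 w1070 w4622 v12549
theorem v12646 : PV l12646 := r12646 v7703 v3000 v12096 v11294 v498 v3435 v12531 v12616 v3003 v12637 w351 v12629 v12641 v12619 v12639 v11466 v5035 v4838 v4834 w4557 v11371 v12300 v3011 v3008 v3025 v3026 v12348 v12333 v3318 w1501 v12277 w1117 v3933 w1124 w1565 v5039 w305 w800 v4438 w774 v12123 v3374 v8893 v2544 w3826 w3712 v12273 v2576 v2996 v5791 v3216 w1975 v3384 w1116 w1452 w1090 w340 w708 w275 v12241 v2832 v9048 w1911 w2402 v11642 w278 w358 w810 w808 v3228 v3234 v476 v12235 w3782 w3663 w1465 v12640 v1217 w297 w688 w694 w1969 v390 w1159 v3927 w1152 w1569 w799 w771 w3549 v11453 w8917 w5488 v12150 v501 v4771 v4775 w8774 w5468 v12153 v2597 w312 w3479 v2281 v3431 w352 v12194 v12216 v325 w2865 v1146 v1145 w4563 v3007 v3006 v4844 w1575 w1158 v1103 v732 v9900 v10528 v11199 v2314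 w2258 v8399 v11643 w3436 w3001 v12562 v5102 w1142 w1105 v3236 w1899 v6954 w1428 w2225 w1077 v12550 w257 v10499 w672 w671 w639 v2976 w3374 v10821 w1403 w1068 v12644 w7554 w5423 v5075 w3387 v3632 v4484 v12645 w1093 w6510 w1420 w4605 v636
theorem v12647 : PV l12647 := r12647 v11466 v11371 v12277 v3933 w1116 w1452 w1090 w351 v12629 v12641 v12619 v3318 w1501 w1117 w1465 v5035 w340 w708 w275 v7703 v3008 v3025 v3026 v3000 v12096 v4838 v11294 v4834 v12348 v5039 w297 w688 v4438 w694 v12531 v2996 w4557 v12300 v3011 v12333 v12616 v498 v3435 v3003 v12637 v12639 v12273 v2576 v5791 v3216 w1975 w1969 v501 v4775 w312 w358 w305 w800 w774 w1124 w1565 v12123 v3374 v8893 w8774 v2544 w3826 v476 v12235 w3782 v12241 v3384 v3431 v1146 v1145 w4563 v3007 v4844 v472 v2832 w3406 w3696 w3712 v9048 v3228 w1911 v3234 w2324 w2402 v11642 w810 w278 w754 w755 v5042 v12646 w5304 w5315 w5298 w7981 v12643 v4808 v12620 v12573 v3604 w8373 v11915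
theorem v12648 : PV l12648 := r12648 v495 v490 v3008 v5102 w1142 v8918 v3236 w1899 w1428 w335 v3238 w2225 v11479 v12550 w5417 w5411 v10499 v5075 v2423 v3015 v3632 v8923
theorem v12649 : PV l12649 := r12649 v7703 v2996 v11466 v12096 v5035 v3000 v4838 v4834 v11294 w4557 v11371 v12300 v3011 v3008 v3025 v3026 v12348 v12333 v12616 v12531 v5039 w351 v12629 v12641 v12619 v498 v3435 v3003 v12637 v12639 v12273 v2576 v5791 v3216 w1969 v2597 v3374 w352 v12194 v12216 w4563 v3007 v501 v4967 v3927 w1152 w1158 w1159 v12648 w1078 w1076 w1409 w1429 w1418 v12310 w257 w250 w672 w641 v10548 v1134 v12145 w5540 v12555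
theorem v12650 : PV l12650 := r12650 v11466 v11371 v12277 v3933 w1107 w1106 v7703 v3008 v3025 v3026 v5035 v3000 v12096 v4838 v11294 v4834 v12348 v12641 v3374 v12241 v498 w351 v5039 w305 w800 v12629 v4438 w774 w1117 w1124 w1565 v12123 v8893 w8774 w5468 v12153 w4557 v1146 w4563 v3007 v4844 v12647 v8445 v3435 v6715 v12142 w1116 w1452 w1090 w340 w708 w275 v12300 v3032 w3015 v10930 v4945 w4742 w3479 v2281 v2278 w3677 v325 w2865 w3003 w1159 v3927 w1152 w1569 w1489 w1465 v12640 v1217 v421 w694 v390 w799 w771 w3549 v11453 v12616 v12531 v12619 v3003 v12637 v12639 v12273 v2576 w8917 w5488 v12150 v501 v2996 v3011 v12333 v5791 v4771 v4775 v2597 w312 v476 v12235 w3782 v3384 v3431 v12194 v12216 v1145 v3006 v4967 w1158 w271 v1091 v1104 v12602 w5636 v2306 w4628 w8459 w5655 v2307 w8027 w2287 w8041 w711 v12649 v12562 v12644 v5102 v8918 v3236 v11854 v3238 v460 v5151 v455 v5075 v10499 v451 v3632 v3015 v2423 v8923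
theorem v12651 : PV l12651 := r12651 v11466 v7703 v3008 v3025 v3026 v5035 v3000 v12096 v4838 v11294 v4834 v12348 v11371 v12277 v12641 v3374 v12241 v498 w351 v5039 w305 w800 v12629 v4438 w774 w1117 v3933 w1124 w1565 v12123 v8893 w8774 w5468 v12153 w4557 v1146 w4563 v3007 v4844 v12647 v8445 v3435 v6715 v12142 w1116 w1452 w1090 w340 w708 w275 v12300 v3032 w3015 v10930 v4945 w4742 v3012 v12186 w3479 v2281 w3677 v476 v12235 w3782 w3670 v325 w2865 w3003 w1465 w694 v12650 w290 v12642
theorem v12652 : PV l12652 := r12652 v11466 v7703 v3008 v3025 v3026 v5035 v3000 v12096 v4838 v11294 v4834 v12348 v11371 v12277 v12641 v3374 v12241 v498 w351 v5039 w305 w800 v12629 v4438 w774 w1117 v3933 w1124 w1565 v12123 v8893 w8774 w5468 v12153 w4557 v1146 w4563 v3007 v4844 v12647 v8445 v476 v12235 w3782 w3670 v12300 v3031 w3010 v325 w2865 w3003 w1465 w1116 w1452 v12640 w297 w688 w694 v12637 v3435 v1145 v6715 v10930 v12142 v8437 v12651 v1510 w6510 v5042 w4608 v4954 v3907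
theorem v12653 : PV l12653 := r12653 v4914 v6213
theorem v12654 : PV l12654 := r12654 v5035 w351 v12629 w340 w708 w275 v11466 v7703 v3008 v3025 v3026 v3000 v12096 v4838 v11294 v4834 v12348 v5039 w297 w688 v4438 w694 v11371 v12277 v12641 v3374 v12241 v498 w305 w800 w774 w1117 v3933 w1124 w1565 v12123 v8893 w8774 w5468 v12153 v3435 v12531 v12616 v3003 v12637 v12619 v12639 v2544 w3826 v476 v12235 w3782 w4557 v12300 v3011 v12333 v2992 v325 w2865 v3032 v1146 v1145 w4563 v3007 v4844 w1116 w1452 w1465 w1090 v12647 w3438 w3039 w3015 w3003 w3670 v8445 w5312 v12652 v12573 v12631 v12633 v1510 w6510 v12653 v3590 v4945 v8447 w4611 w5602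
theorem v12655 : PV l12655 := r12655 v11371 v12277 v3933 w1116 v2305 w694 w1117 v11908 v736 w8459 w2270 w8345 v11407 w5636 v9444 w7768
theorem v12656 : PV l12656 := r12656 v7703 v3000 v12096 v11294 v501 v12641 v2996 v11466 v5035 v4838 v4834 w4557 v11371 v12300 v3011 v3008 v3025 v3026 v12348 v12333 v12616 v12531 v5039 w351 v12629 v12619 v498 v3435 v3003 v12637 v12639 v12273 v2576 v5791 v4775 v3216 v12277 v3374 v12241 w305 w800 v4438 w774 w1117 v3933 w1124 w1565 v12123 v8893 w8774 w5468 v12153 w3479 v2281 v476 v12235 w3782 v3384 w297 w340 v3431 v12194 v12216 v2992 v325 w2865 v3032 v1146 v1145 w1116 v12135 w708 w694 w688 w275 v12654 w1473 w1454 w1466 v2305 w1112 v12655 w3446 w3039 w3015 w3003 w3670 v2278 v638 v11909 w5319 w336 w290 v11919 w736 v12139 w1959 v11809 w2316 v740 w7769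
theorem v12657 : PV l12657 := r12657 v11371 v12277 v3933 w1116 w1452 v2269 v390 v2832 w3406 w3663 v11739 v12436 v12388 w8522
theorem v12658 : PV l12658 := r12658 v2269 w699 w690 v390 v11371 v12300 v12277 v3933 w1116 w1117 w1452 w1465 w1090 v11911 w8459 v12573 w5755 v12657 w3438 w3039 w3015 w3003 w3729 w3670 w3677 v11652 v12466 v8403 w7785 w5636 w5700 w2319 w2260 w7706 v605 v29 w1523 v1091
theorem v12659 : PV l12659 := r12659 v11371 v12277 v3933 w1117 w1454 w1112 w1109 w1116 w1473 v5041 w699 v390 v12300 v476 v472 w3406 w3663 v12493 v741 v1279 v12185 w4657 v12494 v12138 v12143 v2283 v9533 v1510 w2280 w3434 w8155 w7922 w4642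
theorem v12660 : PV l12660 := r12660 v11466 v11371 v5035 v7703 v3000 v12096 v4838 v4834 v12300 v3008 v3025 v3026 v11294 v12348 v5039 v12216 w305 w4557 v3011 v12333 v2992 v325 w2865 v3032 v3012 v1145 w4563 v3007 v3006 v498 v501 v2996 v12277 w1117 v3933 w1124 w1566 w1565 w1159 v3927 w1152 w1569 v476 v12123 v11453 v12134 w351 v3435 w800 w799 v12531 v12616 v3003 v12629 w340 v4438 w297 w771 w774 v12637 v12641 v3374 v12235 w3479 w3480 v12619 v12241 v8893 w3782 v2281 v12639 v390 v2835 w3549 w8774 v12273 v2576 v2597 w5468 w8917 v5791 w5488 v4771 v12150 v12656 w730 w725 w690 w336 w295 v12658 w1510 w1454 w1112 v12659 w3438 w3039 v12474 v10829 v4670 v3873 v3874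
theorem v12661 : PV l12661 := r12661 v3228 v11371 v12277 v3933 w1116 w1452 w1090 w1117 w1465 v476 w5304 w5315 w5319 w7981 w5686 v2306 v4626 w2269 w7872 w7897 v4808 v12602 w273 w3436 v3604
theorem v12662 : PV l12662 := r12662 v2586 v2578
theorem v12663 : PV l12663 := r12663 v9817 v10828
theorem v12664 : PV l12664 := r12664 v3236 v3238 w253 v11865 w4590 v6373 v2969 v11853 w5420 w7628 w7552
theorem v12665 : PV l12665 := r12665 v3238 v4587 v11367 v4498 v8431 v5151 v6373 w4577 v5078 w2708 v5096 w6507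
theorem v12666 : PV l12666 := r12666 v5102 w1142 v3236 w1899 w1426 v12665 w2223 v12664
theorem v12667 : PV l12667 := r12667 v11371 w1078 w1076 w1429 v12310 w256 v10548 v10549 v2521 v2505
theorem v12668 : PV l12668 := r12668 v7703 v3000 v12096 v11294 v501 v495 v490 v12660 v3927 v11466 v11371 w1152 v3008 v3025 v3026 v5035 v4838 v4834 v12348 v5039 w299 v12277 v12241 v2835 v12135 w4557 v12300 v3011 v12333 w8503 w8798 v4194 v4788 v4789 v3797 w4668 v4790 v1145 v4844 w4840 w1159 w1569 w300 w3549 v11453 w8799 w5488 w4481 v5268 v498 v3436 v11808 v3228 v3234 v2993 w6519 w4351 v878 v8000 w2716 v1705 v3930 v11064 v390 w302 w301 w1117 v3933 w1124 w1565 v12123 v8893 w8774 w5779 v4558 w1575 w1969 w2367 w8506 w3563 v4771 v4775 v12151 v4438 w4489 v12150 w4936 w4318 v12134 w305 w5766 w5748 w8466 w3819 w5468 v12153 w8918 w303 v12194 v12216 v3012 v1146 w4563 v3007 v3006 v4967 w1158 v12295 v8459 w1912 v12662 v4080 v4598 w3427 v12663 w5593 v11819 v3581 w268 w680 v1495 v12667 v5102 w1142 v12666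 v3236 w1899 w1421 w1428 w1426 w8027 v3238 v12665 w2225 w2223 w4613 w255 w250 w8178 v12567 w632 v12566 v8592 w289 v4506 v8431 v4504 v12309 v4505 w2501 w2489 v8857 v4059 v12478 w2517 w648 w74 v6373 w4729 w4146 w4144 w4149 w1640 w1644 w1639 w6045 w2510 w2511 w6008 w1755 w6043 w902 w899 w1068 v11368 w3374 w3362 w7554 w5423 w5543 v5075 w8221 w3431 w2220 w7640
theorem v12669 : PV l12669 := r12669 v7711 v5661 v5519
theorem v12670 : PV l12670 := r12670 v3319 v5035 w2393 v12669 v4082 v9970 v4080 v2619 v2707 v2708 w3427 v5534 v12663 w5839 v12442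
theorem v12671 : PV l12671 := r12671 v12133 v11371 v3318 v12194 v12273 w312 v2576 v7713 v2708 w8566 w8355
theorem v12672 : PV l12672 := r12672 v7703 v3000 v12096 v11294 v501 v495 v12660 v3927 v11466 v11371 w1152 v3008 v3025 v3026 v5035 v4838 v4834 v12348 v5039 w299 v12277 v12241 v2835 v12135 w4557 v12300 v3011 v12333 w8503 w8798 v4788 v390 w302 w1159 w1569 w300 w3549 v11453 w8799 w301 w1117 v3933 w1124 w1565 v12123 v8893 w8774 w5779 v4558 w1575 v490 v4194 w1969 w2367 w8506 w3563 v4775 w5488 v12151 v4790 v498 w5468 v12153 w8918 v3436 v12216 v1146 v1145 w4563 v3007 v3006 v4844 v4967 v325 v3318 v3319 v3317 v12670 w1975 v12671 v4083 v7935 v7763 w5513 w5099 v8215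
theorem v12673 : PV l12673 := r12673 v7703 v3000 v12096 v11294 v501 v495 v12660 v3927 v11466 v11371 w1152 v3008 v3025 v3026 v5035 v4838 v4834 v12348 v5039 w299 v12277 v12241 v2835 v12135 w4557 v12300 v3011 v12333 w8503 w8798 v4788 v4790 v1145 v4844 w4840 w1159 w1569 w300 w3549 v11453 w8799 w5488 w4481 v5268 v498 v3436 v11808 v3228 v3234 v2993 v490 v4194 w6519 w4351 v878 v8000 w2716 v1705 v3930 w2245 w1117 v3933 w1124 w1565 w301 v12123 v8893 w3460 v390 v12151 v4438 v8927 w2269 w3461 w1116 w297 v10528 v2309 w2252 w2723 w302 w8774 w5779 v4558 w1575 w1969 w2367 w8506 w3563 v4771 w1566 w5766 v2265 w303 w2370 w8465 w4936 v4789 v3797 v12134 w305 w5748 w8466 w3819 w5468 v12153 w8918 v12194 v12216 v1146 w4563 v3007 v3006 w1158 v12672 v12295 v8459 w1912 v12662 v4080 v4598 w3427 v12663 w5593 v5510 w7734 v3581 v4936 v12667 w4928 v5102 w1142 w1105 v12666 v12668 v3236 w1899 w1428 w1426 w290 w8053 v3238 v12665 w2225 w2223 w4618 w255 w252 w250 w248 v8432 v12567 w629 w289 v8431 v6373 w4604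 w4916 w4730 v2969 w7551 v8434 w3625 w3617 v460 w7639 v1308 v455 v5075 w2215 w1404 v451 v2518 v3632 v761 v4573 v4494 w4603
theorem v12674 : PV l12674 := r12674 w7553 w7416
theorem v12675 : PV l12675 := r12675 v3636 v3632
theorem v12676 : PV l12676 := r12676 v3008 v2976 v3015 w3375 v1443 w1431 v12674 w3381 w7629 v12675 w5409 w4915 w4918 v5091
theorem v12677 : PV l12677 := r12677 v490 v11099 w1142 w1899 w1426 w2227 w2224 w2223 v12676 w3511 v2518 w7628 w5414
theorem v12678 : PV l12678 := r12678 v3926 w1078 w1429 v10548 v10549 v11366 v11369 v2356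
theorem v12679 : PV l12679 := r12679 w4596 w4613 v4626 w268 v1495 w7784
theorem v12680 : PV l12680 := r12680 v490 v3927 v4194 w1969 v4788 v4790 w1158 w1159 w256 w254 w253 v12678 v12677
theorem v12681 : PV l12681 := r12681 v5268 v11106 v12667 v11099 v12665 v3236
theorem v12682 : PV l12682 := r12682 v3228 v3234 w273 w269 w8027 v4557 w4667 v12679 w7873 w5624 w4619
theorem v12683 : PV l12683 := r12683 v11466 v11371 v12277 v3933 w1116 w1452 w1090 w1159 v3927 w1152 w1569 w1489 w1485 v7703 v3000 v12096 v11294 v498 v12660 v3436 v3008 v3025 v3026 v5035 v4838 v4834 v12348 v5039 w302 w303 w300 w299 w301 v12300 v12194 v12216 w305 w4557 v3011 v12333 v501 v495 v490 v1146 v1145 w4563 v3007 v3006 v4844 v2993 w1117 w1124 w1566 w1565 w1575 w1158 v12123 v11453 v12135 v12134 v12241 v8893 v390 v2835 w3460 w3461 w3549 w3406 w8774 w3691 w3694 w8503 w3663 w4840 w8918 w5766 w8798 w5779 v2265 w5748 v4788 v4194 w8799 v4558 w8466 v4789 v4790 w1969 w6519 w5488 w4970 w3819 w3569 v3797 w2367 w2370 w4351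 w4936 v12151 w4481 w4794 w8506 w8465 v878 v4438 w297 v5268 w3563 w694 v8927 w688 v4775 w272 v11808 v3228 w1911 v3234 w2323 v12661 v1103 v732 v9900 w4658 w4636 v10528 v8000 v11199 v11625 w2269 v2309 w2716 w2252 w2245 w3728 w3436 w3658 w3660 v1705 v12673 v1242 v12681 w256 w255 w252 w250 v12680 v12678 v11099 w1142 w1105 v3236 w1899 w1428 w1426 v3238 w2225 w2223 v12567 w289 v12682 w290 v3594 w8053 v3590 w248 w629 w5144 w4618 v8431 v8432 v6373 w4604 w4916 w4730 v2969 w7551 v8434 w3625 w3617 v460 w7639 v1308 v455 v5075 w2215 w1404 v451 v2518 v12675 v761 v2355 v4494 w4603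
theorem v12684 : PV l12684 := r12684 v11466 v12096 v5035 v7703 v3000 v4838 v4834 v11294 w4557 v11371 v12300 v3011 v3008 v3025 v3026 v12348 v12333 v501 v2996 v5274 v3374 w4525 v12119 v12335 v3763
theorem v12685 : PV l12685 := r12685 w3003 w3010 v11158 v8445 v12142 w7729 w5691 v1705 w4925 v3930 v4474 v4954
theorem v12686 : PV l12686 := r12686 v11466 v7703 v3008 v3025 v3026 v5035 v3000 v12096 v4838 v11294 v4834 v12348 v11371 v12277 v12684 v12241 v390 w4557 v12300 v3011 v12333 w1159 v3927 w1152 w1569 v5039 v12660 w300 w3549 v11453 w299 v2835 v12135 w8503 w8798 w8799 w5488 v12151 v12152 v1145 v2993 v501 v495 v490 v4194 w6519 v4788 v4790 v498 w301 w1117 v3933 w1124 w1565 v12123 v8893 w8774 w5468 v12153 w8918 v3436 v12216 v325 w2865 v3031 v1146 w4563 v3007 v4844 v12685 v12683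
theorem v12687 : PV l12687 := r12687 v650 w7843 w5628 w2257 w7940
theorem v12688 : PV l12688 := r12688 w1454 w3663 v11908 v12687 v2293 w8346 w8179
theorem v12689 : PV l12689 := r12689 v7703 v3000 v12096 v11294 v501 v495 v12660 v3927 v11466 v11371 w1152 v3008 v3025 v3026 v5035 v4838 v4834 v12348 v5039 w299 v12277 v12684 v12241 v2835 v12135 w4557 v12300 v3011 v12333 w8503 w8798 v4788 v390 w302 w1159 w1569 w300 w3549 v11453 w8799 w301 w1117 v3933 w1124 w1565 v12123 v8893 w8774 w5779 v4558 w1575 v490 v4194 w1969 w2367 w8506 w3563 v4775 w3460 w5488 v12151 v4438 v8927 w297 v4790 v498 w5468 v12153 w5752 w5766 w8918 w3461 v3436 v12216 v1146 w4563 v3007 v4844 w688 v12686 v12688 v11158 v6808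
theorem v12690 : PV l12690 := r12690 w7867 w5628 w2257 w7958
theorem v12691 : PV l12691 := r12691 v2832 w3691 w3663 v12690 w5660 w8284 w4636 w8289 v12142 v4469 v4468 w1959 w2713 v8393 v4625 w4595
theorem v12692 : PV l12692 := r12692 w7706 w7787
theorem v12693 : PV l12693 := r12693 w4794 w4808 v11371 v12300 w3461 w3460 v390 v12277 v3933 w1116 w1117 w1152 w1452 w1485 w1465 w1090 v12691 w3015 w3003 w3670 v12587 v12692 v2306 w4644 v8403 w8127 v4468 v12142
theorem v12694 : PV l12694 := r12694 v11371 v12277 v3933 w1116 v2305 w1117 w1454 w1473 v2269 w699 v12464 v12437 w8395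
theorem v12695 : PV l12695 := r12695 v11371 v12277 v3933 w1117 w1454 w1112 w1109 v5041 v12300 w3461 w3460 v390 v476 v472 w3406 w3663 v12694 v741 w4658 w2257 v12494
theorem v12696 : PV l12696 := r12696 v11466 v11371 v12277 w1117 v3933 w1124 w1566 w1565 w1159 v3927 w1152 w1575 w1569 v7703 v3008 v325 v5035 v12123 v11453 v12135 v3025 v3026 v2993 v3000 v12096 v4838 v11294 v4834 v501 v498 w4563 w4557 v12300 v495 v3006 v3007 v1145 v3011 v3032 w2865 v2992 v490 v12348 v5039 v12333 v12216 v12660 w301 w299 w300 w303 w302 v12684 v12241 v8893 v390 v2835 w3460 w3549 w8774 w8503 w5468 w4840 w5766 w8798 w5779 w5752 v4788 v4194 w8799 v4558 v4789 v4790 w1969 w6519 w5488 v3797 w2367 w4351 v12151 v12150 w4481 w8506 v878 v4438 w297 v12152 w3563 v8927 v4771 v12689 w725 w690 w699 v2269 w719 w295 w290 v12693 w1510 w1454 w1112 v12695 w3438 w3039 v12474 v10829 v4670 v3873 v3874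
theorem v12697 : PV l12697 := r12697 v11371 v12277 w1117 v3933 w1124 w1565 v12123 v8893 v10278 v3427 v3439 v1102 v1145 v1209
theorem v12698 : PV l12698 := r12698 v1242 v5102 v3236 v3238 v2498 v5098 v12675 v11115
theorem v12699 : PV l12699 := r12699 v1242 v2820 w1158 v5102 w1142 w1899 v6954 w2227 w2229 w2224 w1077 v12698 w3375 w3371 w3373 v1443 w1431 v12674 v635 w7567 w7428
theorem v12700 : PV l12700 := r12700 v2820 w1158 v12699 w1078 w1409 w1429 v10548 v1128 v12144 w3622 w2219 w8060 w7724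
theorem v12701 : PV l12701 := r12701 v11466 v11371 v12277 v3933 w1107 v12135 v7703 v12696 v12697 w3469 v12300 v1412 v4967 v433 v429 v1210 v3444 w4537 v5035 v476 w4494 v2820 v404 w3506 v12252 w3477 v12249 v485 v12213 v12225 v12187 w3078 v4871 w1969 w2370 w2367 w4550 w3090 v4850 v12247 v2734 w5639 w5332 w5636 v4438 w694 v12239 w297 w688 w351 w5167 v1242 v4969 v12212 v10508 w257 w672 v12227 v12248 w250 v3427 v1209 v4968 v4834 v4836 w305 w799 w800 w3396 w3691 w1159 v3927 w1152 w1569 w1489 w1117 w1465 w1116 w1452 w1124 w1566 w1575 v501 v3384 w5474 w5480 v4775 w7981 w8776 w8801 w8994 w8658 v10493 v2281 w3715 v10592 w8814 v11199 v2279 w8767 w3730 v2311 w7707 w631 v12700 v11321 v3926 v5102 w1142 w1105 v3236 w1899 v5173 w1426 v3238 w2229 w2223 w1077 w1072 v12698 v11115 w3365 w3361 v4498 w245 w335 w289 w620 v6377 w5556 w8765 w2210 v613 w7977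
theorem v12702 : PV l12702 := r12702 w1078 v12678 w1429 w1418 v10548 v12145 v10549 v11366 v11369 w5214 w8811 w7503
theorem v12703 : PV l12703 := r12703 v3236 v3238 v3016 w3371 v2519 w4421 v4488 w335 w7567 w7428
theorem v12704 : PV l12704 := r12704 v1242 v5102 v3236 v3238 v2498 v2520 v5098 v12675 w4419 v4494 v4495
theorem v12705 : PV l12705 := r12705 v12704 v1242 v5102 w1899 w1142 v12699 v12703
theorem v12706 : PV l12706 := r12706 v3236 v3238 v12674 v11115 w662 v635 w623 w659 w657 w650 w652 w651 w7569 v4498 w7428 w5558 w5559 w5229 w8985 w5570 w5533 w5566 w5567 w5569 w8763 w8762 w7565 v5164 w7956 w7864 w2209 w2211 w2215 v2335 w2200 w7955 w7897 w7981 v633 w5534 w3658 w624 w8036 w7980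
theorem v12707 : PV l12707 := r12707 w7496 w7525
theorem v12708 : PV l12708 := r12708 w9147 w9066
theorem v12709 : PV l12709 := r12709 w2393 v12026 w358 w259 v12708 w5511 w5579 v2574 v12707 v2718
theorem v12710 : PV l12710 := r12710 v433 w1160 w1079 v12709 w1900 v9109 v7190 v6039 w5234 v4079 v2718 w7660
theorem v12711 : PV l12711 := r12711 v3319 v9771 w2393 v11960 v4083 v11965 w5513 v8123 w9023
theorem v12712 : PV l12712 := r12712 v433 v11371 v12277 v3933 w1132 w1160 w1079 v12710 v12709 v9109 w5407 v7190 v4082 v12618 v12293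
theorem v12713 : PV l12713 := r12713 v3008 v3016 v3236 v3238 w688 v1412 v433 v4969 v429 v4967 w1452 v2314 w7897 v2291 w3671 v10878 v12706 v2519 v2370 w4421 v5121 v4488 w245 w335 w289 w267 w613 w7428 w5570 w5567 w7565 w7864 w2215
theorem v12714 : PV l12714 := r12714 v11466 v476 v12696 v7703 v12697 w3477 v11371 w3469 v12300 v12277 v12247 v2734 v3933 w1116 v12239 v2820 v404 w3506 v12252 v12249 v485 v12213 v12225 w297 v12227 v3008 v3927 v5035 v4834 v1412 v4967 v4836 v433 v429 v4969 v1209 v1210 v3444 v3427 w5167 v1242 v12212 v10508 w257 w351 w672 w4537 w4494 v12187 w3078 v4871 w1969 w1158 w1152 w250 v12248 v12702 v12705 v6738 v5102 v5173 w1077 w1899 w2227 v12704 w3375 v1443 w1403 w1068 w1431 w1117 w1124 w1566 w1425 w3391 w3360 w3359 w3358 w3396 w3361 w3362 v2849 w3373 w3371 w3367 w3366 w3365 w3368 v2795 v3016 v3015 w3370 w1452 w1090 w1074 w1067 w1075 w2224 w2229 v3236 v3238 w1565 w1142 w1421 w1422 w1105 w5332 w5636 w5312 w5319 v472 w5298 w5315 w5304 v4438 w694 w633 v1243 v12123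 v494 v490 w5456 v755 w783 w5457 v3439 v4968 v4966 w305 v12174 v12226 w3694 w1159 w1569 w1489 w1465 v325 w274 v4629 v3228 w1911 v3234 w2323 v5751 v12701 w5380 w5506 w5279 w5281 w5282 w1070 w1073 w1069 w1071 v12713 w7981 v2283 w9016 v12706 w5578 w4919 w4920 w5564 w5563 w9158 v4494 v4488 w8811 w245 v11473 v7334 w335 w289 w267 w2213 w618 w614 w662 w5227 w5215 w7428 w7976 w8762 w5532 w8764 w8985 w5566 w5569 w5535 w5530 w2212 w2207 w7956 w8280 w2211 w2200 w653 w625 w7897 w9072 w3658 v12712 w7980 v3319 w7938 v9771 v12711 w2393 v12017 v4083 v11965 w5513 v8123 w9023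
theorem v12715 : PV l12715 := r12715 v12714 v12135 v7703 v11466 v11371 v12696 v12697 w3469 v12300 v1412 v4967 v433 v429 v1210 v3444 w4537 v5035 v476 w4494 v2820 v404 w3506 v12252 w3477 v12249 v485 v12213 v12225 v12187 w3078 v4871 w1969 w2367 w4550 w3090 v4850 v472 w5298 w351 v12239 w305 w799 w3391 w1159 v3927 w1152 w1575 v501 w5480 v12701 v4775 w8801 w8994 v2491 v2490
theorem v12716 : PV l12716 := r12716 v12142 v2314 v11064 v1446 w7897 w2951 w3005
theorem v12717 : PV l12717 := r12717 v11466 v476 v472 v11371 v12696 v7703 v12697 w3469 v12300 v1412 w4478 w4734 w3477 v12277 v12247 w5332 w5636 v5035 v2820 v404 w3506 v12252 v12249 v485 v12213 v12225 w340 w708 w275 v4438 w694 w5167 v1242 v433 v4969 v12212 v10508 w250 w633 w351 w257 w672 v12227 v12248 v12239 w297 v1243 v2734 v429 v1210 v3444 v494 v490 w5456 w4537 v3427 v1209 v4834 v4836 w4494 v4967 w3396 w3391 v3933 w1116 w1452 w1090 w1117 w1465 w1124 w1565 v3927 w1152 w1158 v3008 v12187 w3078 v4871 w1969 v12702 v5102 w1142 v3236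 w1899 v5173 w1421 v3238 w2227 w2229 w1077 w1075 w1074 v12704 w3370 v3015 v3016 v2795 w3375 w3366 w3371 v2849 w3360 v1443 w1403 w1068 v12705 v6738 v12714 w336 w640 v12715 w5506 v12716 w7981 v2283 w9016 w5578 w4919 w4920 w5564 w9158 v4494 v4488 w8811 w245 v7334 w335 w289 w2213 w618 w5227 w5215 w7428 w7976 w5532 w8764 w5529 w2208 v1346 v614
theorem v12718 : PV l12718 := r12718 v4629 v3228 v3561 v2860 v4460 v4461
theorem v12719 : PV l12719 := r12719 v11466 v476 v11371 v12696 v7703 v12697 w3469 v12300 v1412 w4491 w4752 w4756 w5312 w5319 w5304 v5035 v2820 v404 w3506 v12252 w3477 v12249 v485 v12213 v12225 w340 w708 w275 v433 v429 v1210 v3444 v3439 v4967 w3396 w3391 v12277 v3933 w1116 w1452 w1090 v12717 v11410 v12718 v3593 v4922 v4918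
theorem v12720 : PV l12720 := r12720 w271 v4629 v3228 v3234 v4930 v5751 w2958 w1106 w7694 w3025 w3005 w7963 v8399 w7983 v1104 w7981
theorem v12721 : PV l12721 := r12721 v5042 w688 w1452 v9048 w7981 v3228 v12142 v12716 v1446 v10528 w2260 v2290 v11199 w3656 w2943 w2945 v4956 v4818 v3887
theorem v12722 : PV l12722 := r12722 v8399 w7983
theorem v12723 : PV l12723 := r12723 v476 v472 v1412 w4478 w4734 w4482 w4742 w4740 w4491 w4754 w4752 w5312 w5298 w5304 w4485 w4498 v11371 v12277 v3933 w1116 w1452 w1090 w1117 w1465 v12182 v12190 v12720 v12721 v12722 v2291 w3013 w3681 w3048 v4944 w3016 v1446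
theorem v12724 : PV l12724 := r12724 v1412 w271 v4629 v3228 v3561 v3234 v2860 v4463 v4461 v5751 w681 w682 w2953 w1106 w1107 w1108 w7694 v11275 w2750 w3000 w3002 w3019 w7870 w7960 w7963 w2255 v4565
theorem v12725 : PV l12725 := r12725 v5035 v12696 v2820 v404 v7703 v11466 v12697 w3506 v11371 w3469 v12252 w3477 v12249 v485 v12213 v12225 w340 w708 w275 v4438 w694 v12227 v12239 w297 v476 v12300 v12277 v12247 v2734 w5332 v1412 v433 v429 v1210 v3444 v3439 v4969 v472 w4478 w4491 v4967 v2832 w3396 w3391 v3933 w1116 w1452 w1090 w5304 w5298 w5319 w5312 w5636 w5639 w5646 w5631 w4756 w4752 w4734 v12719 v12723 v11410 v12724 v3593 v4922 v4918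
theorem v12726 : PV l12726 := r12726 w5480 w5438 w8801 w8658 v12674 w623 v2716 w7569 w651 w650 v6377 w5542 w5541 w8282 w8199 w2199
theorem v12727 : PV l12727 := r12727 w2393 v12026 w358 w312 w259 v12708 w5511 w8978 w5810 w5579 v2574 w3826 v2718 w8778 w7496 w2221
theorem v12728 : PV l12728 := r12728 v3236 v3238 v433 v429 v1210 v1209 v4969 v4967 v4966 v3008 v325 w1132 w1160 w1079 v12727 w1912 w1900 v9109 v7190 w5286 v8315 v4080 v4079 v9432 w7850 v10553 w7660 w8093 v6039 w7595
theorem v12729 : PV l12729 := r12729 v3316 v11371 v3318 v7703 v1412 v433 v429 v1210 v1209 v4967 v5035 w2393 v11960 v4083 v4082 v11965 v4079 w5513 w5407 v2539 v8123 v8315 v2718 w3826 w7609 w8530 w2221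
theorem v12730 : PV l12730 := r12730 v11371 v12273 v2576 v2589
theorem v12731 : PV l12731 := r12731 w1899 v3927 w1142 v12696 w3371 v7703 v11466 v11371 v12697 w3469 v12300 v1412 v433 v4969 w351 v5035 w257 w672 w3373 w1158 v4967 v429 v1210 v3444 w4537 v476 w4494 v12187 w3078 v4871 w1969 w2227 v3427 v1209 v2820 w3375 v1443 w1431 w2224 v12674 v635 w7428 w8985 v4834 v4836 w1077 w1403 w1068 v12252 v3236 v3238 w2229 v11115 v4498 v494 v490 v3439 v4968 v472 v12277 v3933 v12239 v12174 v404 w3506 v12728 v3318 v3319 v12729 v12730 v4082 v7935 v12029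
theorem v12732 : PV l12732 := r12732 v3236 v3238 v433 v4969 v429 v4967 v4966 v3008 v325 w1132 w1160 w1079 v12727 w1900 v9109 v7190 v4599 v8315 v10555
theorem v12733 : PV l12733 := r12733 v3316 v11371 v3318 v7703 v1412 v433 v429 v1210 v1209 v4967 v5035 w2393 v12017 v4083 v4082 v11965 v4079 w5513 w5407 v2539 v8123 v8315 v2718 w3826 w7609 w8530 w2221
theorem v12734 : PV l12734 := r12734 w1077 v7703 v11466 v11371 v12696 v12697 w3469 v12300 v1412 v4967 v433 v429 v1210 v3444 w4537 v5035 v476 w4494 v12187 w3078 v4871 w1969 w1899 w2227 v3427 v1209 v2820 w3375 v1443 w1403 w1068 v3927 w1158 w1431 w3373 w3371 w3365 w2224 w2229 v3236 v3238 v12277 v3933 w1105 w1142 w351 w257 w672 v494 v490 v3439 v4969 v4968 v4834 v4836 v12239 w305 v472 v12174 v12252 v404 w3506 v12674 v11115 v635 w657 v4498 w7428 w8985 w5570 w7565 v12731 v12732 v3318 v3319 v12733 v12730 v4082 v7935 v12029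
theorem v12735 : PV l12735 := r12735 v433 v11371 v12277 v3933 w1132 w1160 w1079 v12727 w1900 v9109 v7190 w5234 v4079 v12618 w7660 v2718
theorem v12736 : PV l12736 := r12736 v11960 v12017
theorem v12737 : PV l12737 := r12737 v11371 v3318 v1412 w2393 v12736 v4083 v4082 v11965 v4079 w5513 w5407 v2539 v8123 w5234 v2718 w3826 w7609 w8530 w2221
theorem v12738 : PV l12738 := r12738 v476 v472 v11371 v12277 v3933 v12239 v12174 v12226 v12273 v2576 v7713 w259 w5520 v2718 w7514
theorem v12739 : PV l12739 := r12739 v1242 v7703 v11466 v11371 v12696 v12697 w3469 v12300 v1412 v433 v4969 v10508 v3927 w1158 w1152 v2820 v404 w3506 v485 v12225 w250 v12248 v12227 w351 v5035 w257 w672 v12702 v5102 v3236 v10496 w1077 v12135 v4967 v429 v1210 v3444 w4537 v476 w4494 v12187 w3078 v4871 w1969 w2367 w1899 w2223 w2224 w2227 v3238 w1159 w1142 w1426 v12142 v12277 v3933 w1116 w1452 w1090 v11064 w2951 v12239 w297 v1243 v494 v490 v3439 v3427 v1209 v4968 v4834 v4836 w4491 v4966 w305 w799 w3396 w3391 v472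 v12174 v12252 w1117 w1465 w1575 v3008 v325 v12704 v12705 v3016 w3375 w3371 w3373 w3361 w3358 w3359 v6738 v6856 v1443 v2314 w2249 w1431 w1403 v7352 w7897 w1068 w5303 w4745 w3005 v12716 v1510 w6756 w274 w1070 w1069 v12726 w5380 v12734 v2519 v2370 w4421 w5210 v5121 v4488 v613 v7334 w335 w2210 w7428 w8985 w5229 v12735 v3318 v3319 v3316 v12737 w1900 v12738 v4082 v7935 v12029
theorem v12740 : PV l12740 := r12740 v490 v2517 w3371 w3372 w5413 w5414 v2519 w7567 w7552 w663
theorem v12741 : PV l12741 := r12741 v5751 w7694 w1070 w2929 w7891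
theorem v12742 : PV l12742 := r12742 v12142 v12716 v1446 w2260 w3004 v11199
theorem v12743 : PV l12743 := r12743 v12142 v1412 v433 v429 v464 w4445 w4438 w5251 w5237 w5238 v4937 w2953 v12742 v5751 w267 w7694 v12741 w1070 w1069 w1071 v770 w7956 w2929 w2930 v682 w7979 v1400
theorem v12744 : PV l12744 := r12744 w5167 v1242 v5102 v3236 v10496 v3238 v12142 v11371 v12277 v3933 w1116 w1452 w1090 v11064 w2951 v1243 v1412 v433 v429 w1117 w1465 v12740 v2498 v2520 v5098 v2861 v12675 w4419 v5150 v3625 v3631 v4495 v4487 w617 w616 v12743 w5306 w5139 v3613 w290 v2494 v10825 w1106 w3019 w3005 v618 v8399 v1104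
theorem v12745 : PV l12745 := r12745 v12142 w351 v5035 v11466 w5167 v1242 v7703 v11371 v12696 v12697 w3469 v12300 v1412 v433 v4969 v10508 w257 w672 v485 v2820 v404 w3506 v12225 v12227 v12248 v12239 w297 w250 v476 v2734 v429 v1210 v3444 v494 v490 w5458 w4537 v3439 w4494 w4491 v4967 w3391 v12252 v12277 v3933 w1116 w1452 w1090 w1117 w1465 v3927 w1152 w1158 w1159 v12187 v12702 v11064 w3078 v5102 w1142 w2951 v4871 v3236 w1899 w1426 w1969 v10496 w2223 w1077 w1412 v12739 v12744 v6738 v2314 v7352 w7897 w4745 w3005 v12716 v1510 w7694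
theorem v12746 : PV l12746 := r12746 v681 v2820 w3375 w3371 w3373 v12703 v1443 w1431 v12674 v635 w7567 w7428
theorem v12747 : PV l12747 := r12747 v5034 v4526 w2393 v12026 v8250 w124
theorem v12748 : PV l12748 := r12748 v433 w1160 v12747 v9109 v8726 w5286 v4080 v10156
theorem v12749 : PV l12749 := r12749 w351 v5035 w274 w748 v11466 v11371 v12696 v7703 v12697 w3469 v12300 v464 v5751 v1412 v433 v429 w4438 v3927 w1152 v12135 v1210 v3444 v494 v490 w5458 w8679 w5167 v1243 v1242 w4550 v3439 v3427 v1209 v4969 v4968 v4834 v4836 v4967 v4966 w4498 v12239 w305 w799 w800 v476 v472 v12277 v3933 v12174 v12226 v12252 w352 v2820 w1117 w1124 w1566 w1565 w1159 w1575 v3008 v325 w5369 w8801 w5380 w8994 w5673 w5556 v4770 w3202 v3384 v8937 w8208 w7642 w8984 v4775 v4771 w3094 w3088 w3156 v10659 w6756 v4502 v10801 w121 w101 w119 w853 v10815 w927 v6476 w2557 w2554 v12748 v9771 v12736 v4080 v11965 v10156 w5286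
theorem v12750 : PV l12750 := r12750 v2574 v2582
theorem v12751 : PV l12751 := r12751 v6476 w2557 w2554 v8250
theorem v12752 : PV l12752 := r12752 w2393 v3216 v7703 v1210 v5035 v12135 v4502 v10801 w121 w101 w99 w119 w804 w853 w927 v12751 v3308 v10815 v11977
theorem v12753 : PV l12753 := r12753 w3094 w3088 v12752
theorem v12754 : PV l12754 := r12754 v9060 v7838 v1084 v5847 v5267 w3958 v6290
theorem v12755 : PV l12755 := r12755 v433 v426 v421 v418 v429 v1210 v1209 v4969 v4968 v4967 v4966 v3008 v325 v12754 v8770 v10731 v10796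
theorem v12756 : PV l12756 := r12756 v12754 v7772 v11524 w3938 v3308 v4753 v4758
theorem v12757 : PV l12757 := r12757 v433 v426 v421 v418 v429 v1209 v4969 v4968 v4967 v4966 v3008 v325 v12754 v12755 v8043 v10731 v8045 v9156
theorem v12758 : PV l12758 := r12758 w2393 v12135 v6958 v6476 w3938 w3991 w2489 w2555 v8250 v3998 w2666 v12149 v11977 w6174
theorem v12759 : PV l12759 := r12759 v1021 v10718
theorem v12760 : PV l12760 := r12760 w2393 v3927 w1160 w1132 v3216 v1242 v433 v426 v421 v418 v7703 v429 v1210 v4968 v4967 v3008 v5035 v12135 v5034 v4502 v10801 v4504 v12753 w121 w99 w119 w804 w853 w3202 w927 v12758 v3308 v7120 v11977 w3949 v3761 v1085 v3991 v12759 v11568 v9096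
theorem v12761 : PV l12761 := r12761 v4523 v4521
theorem v12762 : PV l12762 := r12762 v3303 v5672 w2496 v12761 v4710 w3938 v4753 v4758
theorem v12763 : PV l12763 := r12763 v433 v426 v421 v418 v429 v1210 v1209 v4969 v4967 v4966 v3008 v325 v12754 v12757 v12762 v3308 v9155 v12761 v3094
theorem v12764 : PV l12764 := r12764 v3927 w1160 w340 v1243 v11466 v11371 v12696 v7703 v12697 w3469 v12300 v1412 v433 v429 v1210 v3444 w4540 w4550 v3439 v4969 v5035 v4834 v4836 v476 v472 w4485 w4498 v12277 v3933 v12239 v12174 v12252 w351 w352 v2820 w1117 w1124 w1565 w1159 w1152 w1575 v3008 v325 w2393 v12026 w358 v12750 w5513 w5407 v6049 v5780 v12760 w8988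
theorem v12765 : PV l12765 := r12765 v7703 v11466 v11371 v12696 v12697 w3469 v12252 v12226 v476 v472 v12277 v3933 v12239 v12174 v12300 v1412 v433 v429 v1210 v3444 v3427 v1243 v12763 v3236 v3238 v1242 v4969 v10508 v5173 v3439 v1209 v4967 v4966 v3008 v325 w1079 v12764 w1912 w1900 v9109 v7190 w5286 w5234 v4080 v4079 v9432 w7660 w7903 w7467 v9017
theorem v12766 : PV l12766 := r12766 v1412 w2393 v12736 v4083 v4080 v12031 v8020 w5513 v8123 w5286 w7903 w9023 w7985
theorem v12767 : PV l12767 := r12767 v11466 w5167 v1242 v5102 v7703 v3008 v3927 w1158 v12696 v11371 v12697 w3469 v12300 v1412 v433 v429 v4969 v1209 v1210 v3444 v3427 v10508 w351 v5035 w257 w672 w1142 w1899 v3236 v3238 w1898 v1448 v12746 v2520 v5150 v2498 v2861 v3625 w335 v476 v472 w5294 v5098 w1152 v2820 v404 w3506 v485 v12225 w340 v12135 v494 v490 w5458 w8679 v5173 w1077 w1159 w1426 v12227 v12248 v1243 v4968 v4834 v4836 v4967 v4966 v12277 v3933 v12239 v12174 v12252 w1116 w1452 w1090 w1575 w1494 v11115 w245 v2399 v3636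 w620 v2395 v12749 w5475 v4780 v12765 v3318 v3319 v3317 v12766 v12730 v6707 w4576 w5729 v11402
theorem v12768 : PV l12768 := r12768 v3303 v6958 w1748 w4033 w6112 w6251
theorem v12769 : PV l12769 := r12769 v1242 v7703 v1412 v433 v429 v1210 v4968 v4967 v5035 v12135 v5034 v4502 v10801 w99 w123 w804 v11974 w947 w1594 v4008 v12768 v3308 v7120 v11977 w3957 v4049 v1085 v3985 v713 v9096
theorem v12770 : PV l12770 := r12770 v433 v429 v1209 v4968 v8043 v10731 v9156 v3308 v10796 v9102 v4551 v10789 v4548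
theorem v12771 : PV l12771 := r12771 v4763 v4521 v7859 w3962 v4726 v4723
theorem v12772 : PV l12772 := r12772 v325 v3303 v5672 w2496 w2500 v12771 v4710 w3938 v4753 v4758
theorem v12773 : PV l12773 := r12773 v3927 w1160 v11466 v11371 v12277 v3933 w1132 v12696 v7703 v12697 w3469 v12300 v1412 v433 v429 v1210 v3444 w4540 v6736 v3216 v1243 v3439 v3427 v426 v421 v418 v1209 v4969 v4968 v4967 v4966 v5035 v4834 v476 v472 v12239 v12174 v12252 w352 v2820 v3008 v325 w2393 v12026 w358 v12750 w5513 w5407 v6049 v5780 w8988 v12769 v12754 v12770 v12772 v3308 v9155 v3094 v3095 v7199 v4521 v7859 w3944 v6130 v5043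
theorem v12774 : PV l12774 := r12774 v3236 v3238 v1242 v7703 v11466 v11371 v12696 v12697 w3469 v12300 v1412 v433 v4969 v10508 v5173 v429 v1210 v3444 v3439 v1209 v4967 v4966 v476 v472 v12277 v3933 v12239 v12174 v3008 v325 w1079 v12773 w1912 w1900 v9109 v7190 w5286 w5234 v4080 v4079 v9432 w7660 w7903 w7467 v9017
theorem v12775 : PV l12775 := r12775 v12133 w5729 w5591 v5521 w8209 w278 w754 w8821 v11384
theorem v12776 : PV l12776 := r12776 v11466 v11371 v12696 v7703 v12697 w3469 v12300 v1412 v433 v429 v1210 v3444 w4540 v6736 v3216 w5167 v1243 v1242 v3427 v1209 v4969 v4968 v4966 v476 v472 v12277 v3933 v12239 v12174 v12252 v2820 v5035 v3318 v3319 v3317 v12766 w1975 w1912 v12775 w5513 v12273 v9221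
theorem v12777 : PV l12777 := r12777 v3636 v3627
theorem v12778 : PV l12778 := r12778 v4485 v4484
theorem v12779 : PV l12779 := r12779 v11466 w5167 v12776 v12774
theorem v12780 : PV l12780 := r12780 v4770 v4780
theorem v12781 : PV l12781 := r12781 v11466 v11371 v485 v12696 v2820 v404 v7703 v12697 w3506 v12225 v12227 w5167 v1242 v5102 v3008 v3927 w1158 w3469 v12300 v1412 v433 v429 v4969 v1209 v1210 v3444 v3427 v10508 w351 v5035 w257 w672 w1142 w1899 v3236 v3238 w1898 v1448 v12746 v2498 v12252 v5098 v2520 w4424 v12778 v12777 v3636 v5150 v2861 v3625 v12248 w340 v12277 v3933 w1116 w1452 w1090 v12135 v3607 w271 v12779 v12780 v3216 w1969 w2367 w2370 w2325 w2223 v12767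
theorem v12782 : PV l12782 := r12782 v32 v618 w8229 v1104
theorem v12783 : PV l12783 := r12783 v12696 v7703 v11466 v12697 w3477 v2832 v11371 v12277 v3933 w1116 w1452 w1090 v3556 v3228 v11453 w2306 v12142 v485 v2820 v404 w3506 v12225 v12227 w5167 v1243 w3469 v12300 v1412 v433 v429 v1210 v3444 v3427 w3391 v476 v472 v12239 v12174 w1117 w1465 v12781 w5306 w5303 w5139 v3613 w290 v2494 w1106 v12782 v11914 w8148
theorem v12784 : PV l12784 := r12784 w2393 v12026 w358 v12750 v12708 w5513
theorem v12785 : PV l12785 := r12785 v3236 v3238 v5173 v1412 v433 v429 v1210 v1209 v4969 v4967 v4966 v3008 v325 w1160 w1079 v12784 w1912 w1900 v9109 v7190 w5286 v8315 v4080 v4079 v9432 w7903 w7660 v9017 w7467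
theorem v12786 : PV l12786 := r12786 v1412 w2393 v12736 v4083 v4080 v12031 w5513 v8123 w5286 w9023 w3739 w7985 w7903
theorem v12787 : PV l12787 := r12787 v5102 v3236 v3238 v4498 v11091 v11115
theorem v12788 : PV l12788 := r12788 v5102 v3236 v3238 w1898 v7703 v11466 v11371 v12696 v12697 w3469 v12300 v1412 v433 v4969 v10508 v5173 w1077 v5035 w257 v429 v1210 v3444 v3439 v3427 v1209 v4968 v4834 v4836 v4967 v476 v472 v12277 v3933 v12239 v12174 v12252 v2820 v404 w3506 v3927 v12787 v12785 v3318 v3319 v3317 v12786 v12730 v4082 v11215 v12029 w4576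
theorem v12789 : PV l12789 := r12789 v7703 v1412 v433 v429 v1210 v1209 v4969 v4967 v4966 v3008 v325 v5035 w1160 v12784 w1975 w1912 v9109 w5513 v7190 w5286 v4083 v4080 v9432 w9178 w7903 w8957 v9017
theorem v12790 : PV l12790 := r12790 w4576 w5591 v11215 w278 w8209 w8046
theorem v12791 : PV l12791 := r12791 v12696 v7703 v11466 v12697 w3477 v2832 v11371 v12277 v3933 w1116 w1452 w1090 v3556 v3228 v12142 v485 v2820 v404 w3506 v12225 v12227 w3469 v12239 w297 w5167 v1243 v1242 v476 v2734 v12300 v1412 v433 v429 v1210 v3444 v494 v490 v3439 v3427 v1209 v4968 w3391 v472 v12174 v12252 w3691 w1117 w1465 v3927 v5035 v12783 v3143 v6738 v2314 v7352 w5303 v3607 v12788 v12789 v3319 v3317 v12786 w1975 w1912 v12790 w5513 v12273 v9221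
theorem v12792 : PV l12792 := r12792 v1435 w9055 w8889
theorem v12793 : PV l12793 := r12793 v635 w335 v11473 v6382 v4823 v2861 v5107 v3182
theorem v12794 : PV l12794 := r12794 v12780 v12792 v3216 w1953
theorem v12795 : PV l12795 := r12795 w351 v5035 v11466 w5167 v1242 v7703 v11371 v12696 v12697 w3469 v12300 v1412 v433 v4969 v10508 w257 w672 v485 v2820 v404 w3506 v12225 v12227 v429 v1210 v3444 w4540 v4968 v12252 v3927 w1158 v12791 w1078 w1429 v10548 v12793 w258 v12794 v6736 v3216 w1953 v1435 w3371 v2800 v11366 v11369 v4306 v5083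
theorem v12796 : PV l12796 := r12796 v3308 v1242 v433 v429 v1210 v4968 w2493 v9096 w5915 v710 v2789 v9004
theorem v12797 : PV l12797 := r12797 w4123 w4140 v7059 v5808 w1530
theorem v12798 : PV l12798 := r12798 v3989 v3987
theorem v12799 : PV l12799 := r12799 w4576 v11371 v12277 v3933 w1132 v1242 v7703 v433 v429 v1210 v1209 v4968 v4967 v5035 v5034 v4502 v10801 w99 v10799 v3308 w1644 w1647 v12798 w1758 v12797 v10756 v4060 v12796
theorem v12800 : PV l12800 := r12800 v433 v426 v421 v418 v429 v1210 v4969 v4967 v4966 v3008 v325 v12757 v12756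
theorem v12801 : PV l12801 := r12801 v1243 v1242 v7703 v1412 v433 v429 v1210 v1209 v426 v421 v4969 v4968 v4967 v5035 w4576 v5525 v2582 w6436 v9152 v12800 v5034 v10801 v12799 v10799 v4871 v4622 w2764 v7120 v1021 v8261 v12082 w3895 v4058
theorem v12802 : PV l12802 := r12802 v433 v429 v4967 v4968 v10801 v10802 v10799
theorem v12803 : PV l12803 := r12803 v433 v429 v4967 v4968 v10801 v5034 v1210 v1209 w1647 w1609 v12798 v11977 v7207 w1615 w4134 v10756 w1596 w6248 w2555
theorem v12804 : PV l12804 := r12804 v7703 v433 v429 v4967 v4968 v10801 v1209 v3761 v10756 w2555 w2557 v8250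
theorem v12805 : PV l12805 := r12805 w2489 v4055 v3998 w3938
theorem v12806 : PV l12806 := r12806 v1412 v433 v429 v4967 v4968 v10801 v5034 v426 v421 v418 v1210 v1209 v3008 v12135 v3303 w1748 v12803 v12805 v9961 v4057 v1021 v6465 w3895 w3909 v3081 v5849 v4019
theorem v12807 : PV l12807 := r12807 v433 v429 v4967 v1242 v4968 v10801 v1210 v1209 v3308 v11977 v10756 v4060 v12796
theorem v12808 : PV l12808 := r12808 w2393 v3927 w1160 w1132 v1242 v1412 v433 v429 w4540 w4550 v426 v421 v418 v7703 v1210 v1209 v4968 v4967 v3008 v5035 v12135 v5034 v4502 v10801 w121 w99 w119 w804 w853 w927 v12807 v3303 v12804 v12806 v11977 v3766 v12805 v10680 v4057 v1021 v6465 w3895 w3909 v3081 v4746 v4019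
theorem v12809 : PV l12809 := r12809 v4763 v9155 v7859 w6575 v4703 w3947
theorem v12810 : PV l12810 := r12810 v4763 v1412 v433 v426 v421 v418 v325 v3303 v5672 w2496 w2500 v12809 v4710 v407 w3962 v4705 v4726 v4723
theorem v12811 : PV l12811 := r12811 v1412 v433 v426 v421 v418 v429 v1210 v1209 v4969 v4968 v4967 v4966 v3008 v325 v12754 v12757 v12800 v12810 v3308 v8045 v9155 v9156 v5267 v5672
theorem v12812 : PV l12812 := r12812 v11466 v12135 v3927 v12696 v11371 v7703 v12697 w3469 v12252 v12226 v12300 v476 v472 v12277 v3933 v12239 v12174 v5035 v4834 v4836 v1412 v433 v429 v1210 v3444 v3427 v3439 w4537 v494 v490 v12801 w5407 w5513 w2393 w1160 w1132 v1243 v1242 w4540 w4529 w4550 v4967 w351 w352 w1159 w1152 w1575 w358 v2590 v5780 w8988 v12811 v4502 v12808 w99 w119 w804 v4850 v3762 v12807 w2780 w2781 v12806 v3800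
theorem v12813 : PV l12813 := r12813 v4083 v4610 w9057 v2545
theorem v12814 : PV l12814 := r12814 v12148 w1647 v12798 w1610 v7207 w4133 w4123 w1614 w1530 w6247 v7059 w2548 v1085
theorem v12815 : PV l12815 := r12815 v5034 v3303 v3248 v12814 v12805 w2451 v6465
theorem v12816 : PV l12816 := r12816 w2393 v3927 w1160 v11466 v11371 v12277 v3933 w1132 v1243 v1242 v12696 v7703 v12697 w3469 v12300 v1412 v433 v429 v1210 v3444 v494 v490 w4537 v3439 v3427 v426 v421 v418 v1209 v4968 v5035 v4834 v4836 v4967 v476 v472 v12239 v12174 v12226 v12252 v3008 v12135 v12801 w5513 v12813 w358 v2590 v5780 v12812 w8988 v4871 v12811 w2764 w2771 v5034 v4502 v10801 v1021 w99 w804 w869 v12815 v7120 w3895 v4060 v5859 v10756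
theorem v12817 : PV l12817 := r12817 v12142 v4943 v12184 w2951 w3019 w3005 w7963 w8697 v1104
theorem v12818 : PV l12818 := r12818 v11466 v11371 v12277 v3933 w1132 v12142 v12696 v2820 v404 v7703 v12697 w3506 v12225 v12227 v12248 w340 w5167 v1242 w3469 v12300 v1412 v433 v429 v1210 v3444 v3439 v1209 v4969 v476 w4494 v4967 v4966 w3391 v472 v12239 v12174 w1116 w1452 w1090 w1117 w1465 v3008 v325 v464 w4440 w4438 w5258 w5251 v3607 w271 v5751 w7694 w1106 v12817 v12816 v12133 w1912 v9109 w5407 v7190 w5286 v4082 v4080 v10492 w7903 w8866 v9017 w8484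
theorem v12819 : PV l12819 := r12819 v12142 v1243 v11371 v12277 v3933 v476 w5306 w5303 w5139 v3613 w290 v2494 w1106 v12782 v11914 w8148
theorem v12820 : PV l12820 := r12820 v12142 v11466 v11371 v12696 v2820 v404 v7703 v12697 w3506 v12225 v12227 w5167 v1243 v1242 w3469 v12300 v1412 v433 v429 v1210 v3444 v3439 v3427 v1209 v4969 v4968 v476 w4494 v4966 w3391 v472 v12277 v3933 v12239 v12174 v12252 w1116 w1452 w1090 w1117 w1465 v5035 v12819 v464 w4440 w4438 w5258 w5251 v3607 v12818 w271 v5751 w7694 v3318 v3319 v3317 w1106 v12766 v12817 v12730 v6707 w4576 w5729 v11402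
theorem v12821 : PV l12821 := r12821 v3303 v433 v426 v421 v418 v10804 v7053 v12079 w3906 v4071
theorem v12822 : PV l12822 := r12822 v10454 v1412 v433 v426 v421 v418 v3303 v12821 v4763 v10086 v7772 w3944 w3962 v5655 v1116 v4726 v4723
theorem v12823 : PV l12823 := r12823 v433 v426 v421 v418 v3308 v11524 v10804 v5847 w3938 v3310 v3082
theorem v12824 : PV l12824 := r12824 v3303 v10454 v433 v426 v421 v418 v10804 v7053 v12079 w3906 v4070
theorem v12825 : PV l12825 := r12825 v1243 v7703 v1412 v433 v429 v1210 v1209 v4969 v4968 v4967 v4966 v3008 v325 w4576 v5525 v2582 w6436 v9152 v12799 v12823 v12822 v12824 v10086 v12810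
theorem v12826 : PV l12826 := r12826 v5035 v12135 w2393 v12825 w5513 v12813 v12708 w358
theorem v12827 : PV l12827 := r12827 v494 v490 v3143 v1242 v7703 v1412 v433 v429 v1210 v1209 v4969 v4967 v4966 v3008 v325 v5035 w1160 v12826 w1912 v9109 w1975 w5513 v7190 w5286 v4083 v4080 v10492 w9178 w7903 w8957 v9017
theorem v12828 : PV l12828 := r12828 v12142 v11466 v11371 v12696 v2820 v404 v7703 v12697 w3506 v12225 v12227 v12248 w3469 v12239 w297 w340 w5167 v1243 v1242 v476 v2734 v12300 v1412 v433 v429 v1210 v3444 v3439 v3427 v1209 v4968 v472 w4482 w4494 w4491 w3391 v12277 v3933 v12174 v12226 v12252 w3691 w1116 w1452 w1090 w1117 w1465 v3927 v5035 v12820 v6738 v2314 w2278 v7352 w5300 w5303 v10643 w4741 w4745 v3607 w271 v5751 w7694 v737 v12817 v12827 v3319 v3317 v12786 v12730 v6707 v6007 v2562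
theorem v12829 : PV l12829 := r12829 v5034 v433 v429 v1209 v426 v421 v4968 v3303 v10798 v9514 v5265 v8479 v8083
theorem v12830 : PV l12830 := r12830 w4576 v11371 v12277 v3933 w1132 v1242 v7703 v433 v429 v1210 v4968 v4967 v5035 v5034 v4502 v10801 w99 v12829 v3308 w1644 w1647 v12798 w1758 v12797 v1085 v3991 v9096 v3091 v11568
theorem v12831 : PV l12831 := r12831 v10086 v4758 v4753
theorem v12832 : PV l12832 := r12832 v1412 v433 v426 v421 v418 v429 v4763 v3954 v7772 w945 w928 w3936 w3944 w3938 v12831 v3308 w1644 v9155 w1760 w6015 v10776 v5043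
theorem v12833 : PV l12833 := r12833 v418 v3303 v12079 v7053 v4070 w3906
theorem v12834 : PV l12834 := r12834 v7703 v1412 v433 v429 v1209 v4969 v5525 v2582 w4576 v9152 w6436 v1243 v1242 v426 v421 v418 v1210 v4967 v4966 w4498 v3008 v325 v12830 v12832 v12754 v10454 v11980 v12833 v3308 v5847 w3938 v3310 v3082
theorem v12835 : PV l12835 := r12835 v12142 v429 w4440 w4438 w5258 w5251 v3607 w271 w7694 v12817
theorem v12836 : PV l12836 := r12836 v11371 v12277 v3933 w1116 v476 w5303 v12819 v7352 v6738 v2314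
theorem v12837 : PV l12837 := r12837 v5034 v433 v429 v1209 v3303 v8479 v9514 w2494 v5265 v3986 v4055 w3952
theorem v12838 : PV l12838 := r12838 v1242 v7703 v1412 v433 v429 v1210 v4968 v4967 v5035 v5034 v4502 v10801 w99 w804 v11974 w947 v4008 v12837 v3308 v7120 v12798 v11977 v1085 v3991 v4049 v9096 v713
theorem v12839 : PV l12839 := r12839 v4763 v1412 v433 v426 v421 v418 v429 v325 v3303 v12831 v5672 w3969 w3938 w3964 w2496 w2506 v4698 v4710 v4991
theorem v12840 : PV l12840 := r12840 v4763 v4008 v433 v4968 v4548 v9102 w6032 v4693 w5093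
theorem v12841 : PV l12841 := r12841 v3927 w1160 v11466 v11371 v12277 v3933 w1132 v7703 v12696 v12697 w351 v5035 w3469 v12239 w305 w799 v12135 v12300 v1412 v433 v429 v1210 v3444 w4540 w3477 v12252 v12249 v12213 v6736 v3216 w1969 w2367 w1159 w1152 w1575 v7174 v1594 v644 w1970 v485 v2820 v404 w3506 v12225 v12227 v12248 w340 v12247 w5167 v1243 v1242 v12212 w4529 v3439 v3427 v426 v421 v418 v1209 v4969 v4968 v4834 v4836 v4967 v4966 w4498 v476 v472 v12174 v12226 w1158 v3008 v325 w2393 v12834 w5513 w5407 v9140 w358 v12708 w9147 w3242 w8988 v12838 v12754 v3954 v12832 w1597 v12839 v3308 v7118 v9155 w1647 v3096 w2568 v7207 w124 v12840 v9156 v5267 v5672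
theorem v12842 : PV l12842 := r12842 v11466 v11371 v12696 v7703 v12697 w3469 v12252 w3477 v12249 v485 v2820 v404 w3506 v12213 v12225 v12227 v12300 v12277 v12247 w5167 v1242 v12212 v1412 v433 v429 v1210 v3444 v3439 v1209 v4969 v4967 v4966 v476 v472 v3933 v12239 v12174 v3008 v325 w1132 v12841 v12133 w1912 v9109 w5407 v7190 w5286 v4082 v4080 v10492 w8866 w8484 w7903 w7850
theorem v12843 : PV l12843 := r12843 v12696 v7703 v11466 v11371 v12697 w3469 v12300 v1412 v433 v429 v1210 v3444 v494 v490 w4540 v3439 v3427 v1209 v4969 v4968 v476 w4494 w3477 v2832 w3396 w3391 v472 v12277 v3933 v12239 v12174 v12252 w3696 w3694 w3691 v2820 v404 w3506 w351 w1116 w1452 w1090 w1159 v3927 w1152 w1569 w1489 w1117 w1465 v5035 v12123 v11453 v12247 v12249 w5167 w5332 w5456 v2734 v485 v12212 v12213 v1242 v1243 v10508 v12225 w257 w250 w340 w297 v4438 v12227 w671 w633 w708 w688 w694 w275 v12725 w5259 w5266 w5256 v732 w5665 w5667 v2293 w5632 v3556 v12142 w2310 w2312 w8207 v3228 v3565 w742 w638 v4811 w8184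 w1526 v12745 v12795 v12828 v6736 v3216 v12836 v464 v3607 w271 v5751 w1106 v12835 v12842 v3319 v3317 v12776 v12786 w1912 w1975 v12790 w5513 v12273 v9221
theorem v12844 : PV l12844 := r12844 v11795 v11372 v1243 w5169
theorem v12845 : PV l12845 := r12845 v12696 v11466 v476 v472 v11371 v7703 v12697 w3469 w3477 v12300 v1412 v433 w4482 v429 v12843 v12844
theorem v12846 : PV l12846 := r12846 v485 v483 w3469 v12307 v8893 v5039 w301
theorem v12847 : PV l12847 := r12847 v11371 v476 v485 v12846 v2846 v12252 v11372 v12249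
theorem v12848 : PV l12848 := r12848 v12123 v11371 v12277 w1117 v3933 w1124 w1565 v12847 w5339 w1116 w1452 w1090 w1465 w1152 w1485 v476 v472 v11453 v12135 v5039 v12241 w301 w299 v390 v2832 v8893 w3469 w3691 v12252 v12300 v12174 w3391 v12122 v12249 v6253 w5333 v12213 w5358 w5345 w5740 v12225 w8798 v3440 v7167 w297 v4438 v12227 w3774 w8996 w3723 v4192 w688 w694 w8770 v4197 w272 v11625 v7982 v10584 v9048 w5662 w2306 w2269 w8206 w8229 w273 w5311 v3593
theorem v12849 : PV l12849 := r12849 v11371 v12277 v3008 w3469 v3031 v12266 v8893 v12264 v1102 v1146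
theorem v12850 : PV l12850 := r12850 v12696 v11466 v11371 v12277 w1117 v3933 w1124 w1565 v476 v472 v3927 v7703 v12123 v12845 v12848 v12849 v2846 v12300 v1412 v433 w4482 v429 v12844
theorem v12851 : PV l12851 := r12851 v12247 v12178
theorem v12852 : PV l12852 := r12852 v11371 v12277 v3933 w1132 v12314 v12195 w2393 v11963 w358 w312 v12708 w8978 w5511 w5810 v8107 v2708 w8611 w8531
theorem v12853 : PV l12853 := r12853 v11371 v12277 v3933 w1132 w1160 v12852 v7710 v9109 v4082 v12618 w5407 v10401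
theorem v12854 : PV l12854 := r12854 v12736 v11966
theorem v12855 : PV l12855 := r12855 v12696 v2820 v3374 v11301 v11466 w5381 w4968 w4745 v404 v11462 v3927 v5035 v7703 v5178 w4317 v5726 v5721 w5457 w1159 v11371 w1152 w1569 v11453 w351 w4898 v1210 v3444 w5195 v1243 v3427 v12277 w1117 v3933 w1124 w1565 v12123 w5456 v755 w783 w3468 w8656 w5458 v483 v485 v12225 w340 v12135 w3467 w8987 w8679 v12227 v1242 v3439 v4793 v8382 v12314 v1209 w4910 v4966 w4904 v4969 v4968 v12142 w1116 w1452 w1090 w1465 v3008 v325 v11199 v12716 w8602 w5265 v12853 v3317 v12854 w1912 v12790 v12273 v2617 v2560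
theorem v12856 : PV l12856 := r12856 v11371 v12314 v12195 w2393 v11963 w358 v12750 v12708 w5513
theorem v12857 : PV l12857 := r12857 v11371 v12277 v3933 w1132 w1160 v12856 v7710 v9109 v4082 v12618 w5407 v10401
theorem v12858 : PV l12858 := r12858 v390 v485 v12213 v12225 v12212 v11654 v6172 v5704
theorem v12859 : PV l12859 := r12859 v11466 v11371 v5035 v12696 v2820 v404 v3374 v11301 v11462 v7703 v5178 w4317 v5726 w4898 v1210 v3927 v8382 v12277 v12851 v483 v485 v390 v12213 v12225 v12227 v12314 w297 v4438 w340 v2832 w351 v3444 w5195 v1243 v3427 w1117 v3933 w1124 w1565 v12123 v5721 w5456 v755 w783 w5457 w5458 v476 v2734 w5332 v1242 v3439 v4793 v1209 w4910 v4966 w4904 v4969 v4968 w1465 w1116 w1159 w1152 w1569 v3008 v325 v11453 v12135 w3467 w3468 w3469 v12194 w3460 w3461 w3449 w8679 w8987 w8656 w8995 w9020 w8770 w8814 w2269 v7352 v12855 v12857 v3319 v12854 w1975 v12858 w5513 v12273 v9221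
theorem v12860 : PV l12860 := r12860 v5178 v3303 v10738 v5977 v2779 v4760 v4761
theorem v12861 : PV l12861 := r12861 v12798 w4123 w4140 v5713 w1530 w6309 v7059 w2528 v1085
theorem v12862 : PV l12862 := r12862 w4576 v11371 v12277 v3933 w1132 v7703 v1210 v5035 v5034 v4502 w99 w804 v12860 v3308 w1644 w1647 w1758 v12861 v9786 v5031 v5033
theorem v12863 : PV l12863 := r12863 v9099 v9755 v8870 v3091 v1084
theorem v12864 : PV l12864 := r12864 v4966 v3008 v325 v12863 v12770 v12762
theorem v12865 : PV l12865 := r12865 w8600 w7897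
theorem v12866 : PV l12866 := r12866 w4576 v11371 v12277 v3933 w1132 v7703 v1210 v5035 v5034 v4502 v12862 w99 w804 v12860 v3308 v12148 v12055 w1647 w1732 v12861
theorem v12867 : PV l12867 := r12867 v476 v2734 v7703 v1210 v1209 v4966 v5178 v5274 v11371 v12277 v3933 w1116 v3008 v325 w4438 w5251 v12865 v2291 w3005 w8814 v1446 v598 w6756 v12866 v12864 v12823
theorem v12868 : PV l12868 := r12868 v1243 v3228 v11371 v12277 v3933 w1116 w1452 w1090 w1117 w1465 v466 v12819 v3598 v4821
theorem v12869 : PV l12869 := r12869 v1243 v1242 v11371 v7703 v1210 v12314 v12142 v12277 w1117 w1465 v3008 v325 v12868 w4438 w5251 v12865 w3005 v1446 v598 w7694 v12026 w358 v2574 v12867 v2591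
theorem v12870 : PV l12870 := r12870 v12142 v11371 v12277 v3933 w1116 w1452 w1090 v11064 w2951 v8000 v476 v2734 v1243 v1242 v7703 v1210 v1209 v4966 v5178 v5274 w1117 w1465 v3008 v325 v12869 v10454 v6738 v4923 v2314 w4266 v7352 v8399 v12716 w5300 w3005 v5751 w7694 w6756 v12026 w358 v2574 v2591 v12866 v12823 v12074 v12770 v12762
theorem v12871 : PV l12871 := r12871 v4966 v3008 v325 v12864 v12823
theorem v12872 : PV l12872 := r12872 v3303 v5034 v4526 v3008 v6958 v6476 w3978 w2501 w2569 v12805 v3968 w1647 w947 v6061 w6280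
theorem v12873 : PV l12873 := r12873 v5178 v5274 v3303 v12872 v5977 v2779 v4760 v4761
theorem v12874 : PV l12874 := r12874 w2393 v12142 v11371 v12277 v3933 w1116 w1452 w1090 v11064 w2951 v1243 v1242 v5035 w352 v11453 w2306 w1959 v7703 v1210 v12314 v1209 v5178 v5274 w1117 w1465 v12135 w8656 w3105 v12870 w5513 v12813 w358 v12708 w9147 v12868 w3241 w8988 w4438 w5251 v12865 w3005 v8001 v1446 v598 w6756 v12871 v5034 v4502 w101 w119 w804 v12873 v3308 v7120 v12055 w3895 v10815 v5859
theorem v12875 : PV l12875 := r12875 v6958 v12768 w3938 w4036 w1594 v7100 v5713 w1647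
theorem v12876 : PV l12876 := r12876 v5274 v3303 v12875 v5977 v2779 v4760 v4761
theorem v12877 : PV l12877 := r12877 v7703 v1210 v5178 v5035 v5034 v4502 w99 w123 w804 v12876 v3308 v12148 w1647 w1732 v12861 v10068 v5031 v5033
theorem v12878 : PV l12878 := r12878 v3303 v12863 v8043 v7772 w3938 v4758 v4753
theorem v12879 : PV l12879 := r12879 v1084 v5847 v3071 v3094
theorem v12880 : PV l12880 := r12880 v476 v2734 v483 v1243 v1242 v11371 v7703 v1210 v12314 v1209 v12142 v5178 v5274 v12277 v3933 w1116 w1452 w1090 w1117 w1465 v3008 v325 v12868 w4438 w5251 v12865 v2291 w3005 v2322 w8814 v1446 v598 w6756 v11199 w8602 w5265 v12877 w25 v12878 v3308 w1640 v12879 v3965 v7772 v9155 w4151 v7199 w2516 w6025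
theorem v12881 : PV l12881 := r12881 v1246 v3303 v12074 v8043 v5672 v7772 w2460 w3938 v4753
theorem v12882 : PV l12882 := r12882 v11371 v12277 v3933 w1132 v6226 v12142 v5035 w708 w275 w1116 w1452 w1090 v11064 w2951 v8000 w688 v476 v2734 v483 v1243 v1242 v7703 v1210 v1209 v4966 v5178 v5274 w1117 w1465 v3008 v325 w4576 v2574 v2591 v12880 v10454 v6738 v4923 v2314 v12877 w4266 v7352 v8399 v12716 w5300 v2291 w3671 v10878 w3005 v5751 w25 v2322 w6756 w8602 w5265 v12881 v3308 w1640 v12879 v9155 v3965 v7772 v7199 w2516 w4151 w6025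
theorem v12883 : PV l12883 := r12883 v12768 v11974 w1594
theorem v12884 : PV l12884 := r12884 v3303 v5977 v2779 v4760 v4761
theorem v12885 : PV l12885 := r12885 v5274 v12884 v6958 v12768 v12883 w3938 w4012 w933 w1594 v7100 v12148 w1647 w6146 v8782 w2672 v8265
theorem v12886 : PV l12886 := r12886 v5034 v4502 w102 w101 w123 w119 w804 v12885 v3308 v7120 v12055 w3895 v10815 v5859
theorem v12887 : PV l12887 := r12887 w2393 v6226 v12142 v5035 w708 w275 v11371 v12277 v3933 w1116 w1452 w1090 v11064 w2951 w688 v483 v1243 v1242 v7703 v1210 v12314 v1209 v4966 v5178 v5274 w1117 w1465 v3008 v325 v12135 v12882 w5513 v12708 w9147 w8679 v12868 w8988 w3104 w3824 w4438 w5251 v12865 v2291 w3005 v2322 v1446 v598 w6756 v11199 w8602 w5265 v12886 w25 v12878 v3308 w1640 v12879 v3965 v7772 v9155 w4151 v7199 w2516 w6025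
theorem v12888 : PV l12888 := r12888 v1246 v1244
theorem v12889 : PV l12889 := r12889 v5035 w352 v7703 v3008 v325 v12026 v12887 w358
theorem v12890 : PV l12890 := r12890 w1647 v11371 v12277 v3933 w1132 v2574 v12861 v2591
theorem v12891 : PV l12891 := r12891 v5034 v5178 v5274 v11371 v3008 v3303 v12884 v9514 v6709 v12837 w2565 w2536 w2460 v7050 v4008 w818 v12805 w3997 v3956 w947 w825 w1647 w6209 v12890 w5513 w9147 w8988 w2687 v8782 w6280
theorem v12892 : PV l12892 := r12892 v10068 v5031 v5033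
theorem v12893 : PV l12893 := r12893 v12888 v7703 v1210 v5178 v5035 v5034 v4502 w101 w99 w119 w804 v12891 v3308 w1644 w1758 v12892 v12890 w5513 w9147 w8988 v7120 v10815 w3895 v5859
theorem v12894 : PV l12894 := r12894 v12863 v10454 v12074
theorem v12895 : PV l12895 := r12895 v12888 v1209 v4966 v3008 v325 v3303 v12894 v4763 v10731 v5672 v4008 w2496 w2506 v4732 w2460 w2479 w3924 v4753 v4715 w3938 w3964 v4710 v4991
theorem v12896 : PV l12896 := r12896 v5713 v7207 w4222 w4192 w6031 w6030 w6011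
theorem v12897 : PV l12897 := r12897 v3308 v5982 w3895 w2464 v5656 v5043
theorem v12898 : PV l12898 := r12898 v3308 v9155 w124 w802 v4526 v12897 w4033 v7118 w6225 w6294
theorem v12899 : PV l12899 := r12899 w5729 w5823 v2574 v12896 v2591
theorem v12900 : PV l12900 := r12900 v12888 v7703 v5178 w4329 v5035 v5725 v4853 w4317 v5726 v4875 w352 v1209 w4887 v5274 v11371 v12277 w1117 v3933 w1124 w1565 w358 v12893 w35 v12895 v3308 v12148 w1644 w1647 v12879 v9155 v3954 w2547 w2540 w2562 w1597 w946 w931 v12898 v12899 w5513 w9147 w8988 w2685 v8782 w6280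
theorem v12901 : PV l12901 := r12901 v3303 v10798 v9514 w2460
theorem v12902 : PV l12902 := r12902 v6226 v12142 v11371 v12277 v3933 w1116 w1452 w1090 v11064 w2951 v476 v2734 v483 v1243 v3228 w1117 w1465 v3545 w8698 w5591 w5259 w5256 v11131 v3565 w8187 v4811 w1096 v12836 w4438 w5251 v3602 v12865 w7694 w3005
theorem v12903 : PV l12903 := r12903 v5034 w4576 v11371 v12277 v3933 w1132 v12901 v3308 w1644 w1647 v12798 v12052 w1758 v12797
theorem v12904 : PV l12904 := r12904 v12888 v7703 v1210 v5178 v5035 v4502 w99 v12903 v12884 v12892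
theorem v12905 : PV l12905 := r12905 v3927 w1160 v7703 v12850 v5178 v12696 v2820 v3374 v11301 w4329 v404 v11462 v5035 v5725 v4853 w708 w275 w351 w4898 v1210 v3444 w5195 v1243 v3427 v11466 v11371 v12277 w1117 v3933 w1124 w1565 v12123 w4317 v5726 v5721 w5456 v755 w783 w5457 w5458 v1242 v3439 v4793 v12314 w305 w799 v8382 v12135 w1969 w2367 v11453 v6226 w2306 w1959 v1209 w4904 v4969 v4968 w5380 w4977 v3351 w4887 w4910 v5274 w1159 w1152 w1569 w1158 w2393 v12874 v12889 v1594 w3107 w3695 v12900 v4083 v4080 v9140 v6007 v7490 w4576 w5823 v9152 w8969 w3740 v12902 v12904 v12895 v3308 v12879 v9155 v5817 v3094 w3938 v4518 v5982 v9157 v5071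
theorem v12906 : PV l12906 := r12906 v1242 v1210 v5102 v12704 v3236 w1899 v5173 v3238 w2399 v4578 w1079 w5121 w5231 v2355 v10553
theorem v12907 : PV l12907 := r12907 v11366 v5100
theorem v12908 : PV l12908 := r12908 w351 v5035 v12696 v2820 v3374 v7703 v11301 w4898 v1210 v3444 w5195 v1242 w4904 v4969 v10508 w257 w672 v4968 v12906 w1078 v12907 v3236 v12793 v12794
theorem v12909 : PV l12909 := r12909 v476 v2734 v11371 v12314 v12142 v5893 v3930 v12836 w5251 v12865 w3005 w7694 v1446
theorem v12910 : PV l12910 := r12910 v11371 v12277 v3933 w1116 w1452 w1090 w4438 w4266 v12868 v4923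
theorem v12911 : PV l12911 := r12911 v11371 w1076 v12907 v3236 v12144 v10549 v12793 v11369 w654 w258 v5083 v6423
theorem v12912 : PV l12912 := r12912 v11466 v7703 v12850 v5178 v6226 v12696 v2820 v3374 v11301 w4898 v11371 v1210 v12314 v11453 w2306 v5035 v404 v11462 w4317 v5726 w1959 v3927 v5721 v4793 v3444 v3427 w5195 w708 w275 v12277 v3933 w1116 w1452 w1090 v8000 v12910 v12142 v11064 w2951 w351 v1242 w4904 v4969 v10508 w257 w672 v476 v2734 v3439 w305 w799 v8382 v3228 v1209 w4910 v4966 v4968 w1117 w1465 v3008 v325 w1160 v12905 v7710 v9109 w1975 v4083 w5513 w9178 w9099 w8957 v4602 v5893 v12909 v3930 v12908 v12836 w5251 v12865 w3005 v1446 w6756 v12911 v5102 v12704 v3236 w1899 v5173 v3016 v2718 v2519 v3238 w2399 w1079 w4421 w5233 v4488 w7660 v4079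
theorem v12913 : PV l12913 := r12913 v1242 v5102 v12704 v3316 w1899 v2718 w2399 w7514 w7419
theorem v12914 : PV l12914 := r12914 v12913 v3926 w1078 v12907 v3236 v10549 v12793 w1953 v5153 v1435 w5416 w8889
theorem v12915 : PV l12915 := r12915 w876 v3303 v3099 v6709 v9519 v7050 w2479 w4036 v5739
theorem v12916 : PV l12916 := r12916 v5034 v4526 v11371 v12314 v12273 v12252 v1242 v12277 v3933 w853 w876 v12915 v3308 v12149 w1644 v12798 w1758 w4120 w4123 w4140 w8470 v3040 w2670 v3976 w6252 w4115 v3099 v4983 w865 w6309 w8469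
theorem v12917 : PV l12917 := r12917 v12888 v7703 v1210 v5178 v5035 v4502 v4504 w99 w804 v12916 v12884 v12892
theorem v12918 : PV l12918 := r12918 v3308 v5982 v9157 v5071
theorem v12919 : PV l12919 := r12919 v11371 v3318 w3391 v12252 w351 v5035 v1242 v10508 w257 w672 v7703 v1210 v12314 w297 w340 v1243 v11453 w2306 w1959 v3228 v1209 v5178 v5274 v12135 w358 w312 w259 v12736 v12133 v12730 w1975 v12273 v2576 w4576 w5729 v2584 w8566 v12914 v12909 v12917 v12895 v3308 v12879 v9155 v4763 v3095 v12918 w3952 v7118 v4513 v4995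
theorem v12920 : PV l12920 := r12920 v5035 v4083 v7703 v3008 v12031 v6706 w5513
theorem v12921 : PV l12921 := r12921 w3391 v11466 v11371 v12226 v12252 v5035 v483 v485 v12225 w340 w708 w275 v12227 v12248 v7703 v12696 v2820 v12850 v3374 v11301 w4898 v1210 v12314 w297 v3444 w5195 v3439 v3427 v404 v11462 v5178 w4317 v5726 v3927 v5721 v4793 v8382 v11453 v6226 w2306 w1959 v1209 w4904 v4969 v4968 w4476 w5380 w4977 v3351 w4887 v12142 w4910 v12277 v3933 w1116 w1452 w1090 w1117 w1465 v12182 v12190 v8000 v11064 w2951 v12910 v12912 v3318 v12919 v4082 v12920 v12029 w4576 v7935 w6731 w6478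
theorem v12922 : PV l12922 := r12922 v10815 v5859
theorem v12923 : PV l12923 := r12923 v5034 v1210 v5178 w3104 w3113 v12873 v3308 v7120 w3895 w3893 v12922 v10068 v5799 v5029
theorem v12924 : PV l12924 := r12924 v12860 v12873 w6732
theorem v12925 : PV l12925 := r12925 v11371 v12277 w1117 v3933 w853 w921 w6175 v6059 v4060 w2639 w2754
theorem v12926 : PV l12926 := r12926 v7710 v11371 v12277 v3933 w1132 v7703 v1210 v5274 w4452 v5178 v5035 v12123 v12135 v12811 v5034 v4502 w101 w99 w98 w119 w804 v12923 v12219 v12924 v3308 v7120 w1644 v11977 w3995 w3895 w3893 w1757 v12925 v5799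
theorem v12927 : PV l12927 := r12927 w271 v12142 v12884 v12885 v12883 w6756 v12817
theorem v12928 : PV l12928 := r12928 v7703 v1210 v5178 v5035 v5034 v4502 w102 w101 w123 w119 w804 v12927 v3308 v7120 w3895 w3893 v12922 v10068 v5799 v5029
theorem v12929 : PV l12929 := r12929 v4966 v3008 v325 v12754 v12770 v12772 v3308 v9155 v3095 v7199 w6336 v7859 w3893 v6130 v5043
theorem v12930 : PV l12930 := r12930 w3104 v12928
theorem v12931 : PV l12931 := r12931 v7710 v12750 w5407 v11371 v12277 v3933 w1132 w1106 v7703 v1210 v1209 v5274 w4452 v5178 w1116 w1452 w1090 w1117 w1465 v5035 v12123 v12135 v12926 v12929 v5034 v4502 w102 w99 w98 w123 w804 v12927 v3308 v7120 w1644 w3995 w3895 w3893 w1757 v12930 v12219 v11977 v5799 v12925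
theorem v12932 : PV l12932 := r12932 v3303 v12884 w853 w927 v8251 v4057 v6465 v2779 v5265 v5676
theorem v12933 : PV l12933 := r12933 v5034 w2393 w4329 v12135 w3104 w3094 v12932 v3308 v7120 v11977 w3893 v10815 v5799
theorem v12934 : PV l12934 := r12934 v1242 w1647 v11977 v12798 v7207 v3991 w4105 w947 v3986 v4008
theorem v12935 : PV l12935 := r12935 v5034 v5274 v3303 v12884 v12934 v12805 v4057 v6465 v2779 v5265 v5676
theorem v12936 : PV l12936 := r12936 v11371 v12277 v3933 w1132 v1243 v1242 v5274 w4452 v7703 v5178 v3008 v5035 v12123 v12135 v12811 v5034 v4502 w101 w99 w98 w120 w119 w804 v12933 v12935 v3308 v7120 w1644 v11977 w3995 w3895 w3893 w1757 v5799 v12925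
theorem v12937 : PV l12937 := r12937 v5178 v12884 v12837 v11974 v4008 w947
theorem v12938 : PV l12938 := r12938 w5407 v11371 v12277 v3933 w1132 v5274 w4452 v7703 v5178 v5035 v12123 v12135 v5034 v4502 w99 w98 w804 v12937 v3308 v7120 w1644 w1647 v11977 w3995 w3895 w3893 w1757 v10641 v5799 v1085 v12925 w2528
theorem v12939 : PV l12939 := r12939 v7207 w1647 v5738 v4710 w5098
theorem v12940 : PV l12940 := r12940 v4763 v4008 v1210 v1209 v3008 v325 v3303 v10731 v5672 w2496 v4732 w3924 v12939 w124 v4717 v4715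
theorem v12941 : PV l12941 := r12941 v3308 v5982 w3895 v5267 v6130 v5071 v5656
theorem v12942 : PV l12942 := r12942 v3927 w1160 v11466 v11371 v12277 v3933 v5035 v12696 v2820 v404 v3374 v11301 v11462 v7703 v5178 w4317 v5726 w4898 v1210 v8382 v12142 w1117 w1465 v12314 v5721 v4793 v3444 v3427 w5195 v476 v2734 w297 v11453 w2306 w1959 v3228 v12836 v464 v3607 v5751 w1106 w5251 v483 v485 w5258 w4438 w4904 w4440 w340 w5458 v1243 v1242 v3439 w352 w4329 v5725 v1209 w4910 v4966 v4969 v4968 w4476 w5381 w4972 w5380 w4977 v5274 w1116 w1452 w1090 w1124 w1565 w1159 w1152 w1575 w1569 v3008 v325 v12135 w358 v7710 v12750 w2393 w5513 w5407 v12708 w9147 w8679 w8988 w3824 v12931 v12835 v12936 v12938 v12754 v4763 v3954 w1597 v12940 v3308 v9155 v3095 v7859 v12941 w3952 v7118 v4513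
theorem v12943 : PV l12943 := r12943 v5034 w4576 v11371 v12277 v3933 w1132 v1242 v7703 v12135 v12053 v3308 w1644 w1647 v12798 w1758 w4123 w4140 v12797 v5808 v12082 w1530 v12076 w6309 w8469
theorem v12944 : PV l12944 := r12944 v5035 v7703 v5178 w4329 v5725 w4317 v5726 v1210 v4502 w99 v12943 v12884 v10068 v3308 v5033 v5799 w3888
theorem v12945 : PV l12945 := r12945 v7703 v3008 v325 v12026 v1243 v1210 v1209 v4966 v5274 w4576 v5525 v7490 v9152 v12944 v12800 v12823 v12824 v10731 v7772 w3938 v4758 v4753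
theorem v12946 : PV l12946 := r12946 w2393 v3927 w1160 v12696 v2820 v3374 v7703 v11301 w4898 v1210 v3444 w5195 v3439 v3427 v5035 v404 v11462 v5178 w4317 v5726 v5721 v4793 v8382 w4904 v4969 v4968 v3351 w4887 w4910 v11466 v12945 w5513 v12813
theorem v12947 : PV l12947 := r12947 v5034 v4526 w4576 v3008 v3303 v12837 v10798 v9514 v4008 v5265 w2506 w947 v4695 v5655 w4143 w3944 v5808 v7100 w1647
theorem v12948 : PV l12948 := r12948 v5034 v11371 v12277 v3933 w1132 v1242 v12947 v3308 w1644 w1647 v12798 w1758 w4105 v12797 v1085 v3991 v9096 v713 v4995 v5050 v4049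
theorem v12949 : PV l12949 := r12949 v7703 v1210 v1209 v5178 v5274 v5035 v4502 w99 v12948 v12884 v10068 v3308 v5033 v5799 w3888
theorem v12950 : PV l12950 := r12950 v4966 v5274 v3008 v325 v12754 v11980 v12879 v10454 v3308 v12833
theorem v12951 : PV l12951 := r12951 v1210 v10731 v4758 v4753
theorem v12952 : PV l12952 := r12952 v12942 v11466 v11371 v12277 v3933 v5035 v12696 v2820 v404 v3374 v11301 v11462 v7703 v5178 w4317 v5726 w4898 v1210 v3927 v8382 v12142 w1117 w1465 v12314 v5721 v4793 v3444 v3427 w5195 v476 v2734 w297 v11453 w2306 w1959 v3228 v12836 v464 v3607 v5751 w1106 w340 v483 v485 v1243 v3439 v1209 w4904 v4969 v4968 w5381 w4972 v3351 w4887 w4910 v5274 w1116 w1452 w1090 v3008 v325 v12135 v12026 v12835 v12946 v9140 w4576 v5525 v7490 v9152 v12949 v12950 v7772 w3938 v12951 v3308 v9155 v4517 v4518 v5982 v4548 v5267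
theorem v12953 : PV l12953 := r12953 v11466 v11371 v12277 w1117 w1465 v7703 v12696 v2820 v3374 v11301 w4898 v1210 v12314 v5035 v404 v11462 v5178 w4317 v5726 v3927 v5721 v4793 v3444 v3427 w5195 v476 v2734 w297 v11453 w2306 w1959 v3228 v12836 v3439 v8382 v1209 w4910 v4966 w4904 v4969 v12142 v3933 v3008 v325 w1132 v12942 v4082 v4080 v12952 v12133 w1912 v9109 w5407 w5286 w8866 w8484 v9432 w7903 v9017
theorem v12954 : PV l12954 := r12954 v11371 v12314 v12736 w278 w1912 v12730 v12273 v12790 w5591 w8209 v658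
theorem v12955 : PV l12955 := r12955 v12850 v5035 v12696 v2820 v404 v3374 v11301 v11462 v7703 v5178 w4317 v5726 w4898 v1210 v3927 v8382 v11466 v11371 v12277 v12851 v483 v485 v476 v2734 v3444 w5195 v1243 v3427 v5721 v4793 v11453 v6226 w2306 w1959 v3228 v12314 v1209 w4904 v4968 v12142 w4910 v3933 w1116 w1452 w1090 w1117 w1465 v390 v2832 w3406 v12212 v12213 v12225 w340 v4438 w297 v12248 v12227 w708 w694 w688 w275 v12859 v12252 v12226 w3391 v12921 w7895 v3549 w5259 w5256 v3565 v4811 v12836 v3607 v12953 v3318 v3317 v12954 v4082 v12920 v12133 v12029 w5729 v11384 w8821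
theorem v12956 : PV l12956 := r12956 v2846 v3228 v11371 v12277 v3933 w1116 w1452 w1090 w1117 w1465 v476 w5304 w5319 w5312 w5636 w4752 v12865 w3436 w3448 w3026 v3590 v3558 v5740
theorem v12957 : PV l12957 := r12957 v11371 v12277 v3933 w1132 w1160 v12852 v12133 v7710 v9109 v4082 w5407 v12298 v12289 w8866
theorem v12958 : PV l12958 := r12958 v11371 v5714 v12273 v2597 v12790
theorem v12959 : PV l12959 := r12959 v5035 v12696 v12955 w3475 w3476 v3927 v11466 v11371 w1152 v2820 v12850 v3374 w5380 w1159 w1569 v7703 v11301 w4898 v1210 v12314 v2846 v12195 w351 v3444 w5195 v1243 v3427 v12277 w1117 v3933 w1124 w1565 v12123 v404 v11462 v5178 w4317 v5726 v5721 v8382 v12851 w5456 v755 w783 v483 v12245 v12276 w708 w275 w5381 w4972 v11800 w297 w688 v4438 w694 w5458 v12135 w8987 w8679 v12194 v12205 v12088 v3008 v325 w2867 w2882 v476 v2734 w5332 v3439 v4793 v11453 v6226 w2306 w1959 v1209 w4910 v4966 w4904 v4969 v4968 w4968 v12142 w1116 w1452 w1090 w1465 v12956 v1103 w5266 v6738 v8000 v2314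 v4923 v7352 w4266 v12742 v12957 v3317 v12854 w1912 v12958 v7935 v11215 v11442
theorem v12960 : PV l12960 := r12960 v11371 v12277 v3933 w1132 w1160 v12856 v12133 v7710 v9109 v4082 w5407 v12298 v12289 w8866
theorem v12961 : PV l12961 := r12961 v4966 v11371 v5714 v12273 v6172 v3003 w4576 w6374
theorem v12962 : PV l12962 := r12962 v12696 v2820 v12850 v3374 v7703 v11301 w4898 v1210 v3444 w5195 v1243 v3439 v3427 v5035 v404 v11462 v5178 w4317 v5726 v3927 v5721 v4793 v8382 w351 v11466 v11371 v12314 v1209 w4910 v4966 w4904 v4969 v4968 w5381 w4972 w5380 v12277 w1117 v3933 w1124 w1565 w1159 w1152 w1569 v3008 v325 v12123 v12135 v12851 v483 w5456 w5458 v755 w783 v12955 v2846 w3475 w3476 v12088 v12245 v12205 v11800 v12195 v12194 v12276 w8679 w8987 v12959 v5668 v12960 v12854 v12961 v7935 v11215 v11442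
theorem v12963 : PV l12963 := r12963 v11371 v12277 v3008 v12264 v12844 w2874
theorem v12964 : PV l12964 := r12964 v12696 v2820 v11466 v11371 v12277 w1117 v3933 w1124 w1565 v476 v7703 v12123 v12850 v3374 v11301 w4904 w4898 w4471 v1210 v12314 v12963 v12962 v3426 w301 w5364 v6253 v8369 v12300 w3469
theorem v12965 : PV l12965 := r12965 v11466 v11371 v12277 v3933 w1132 w5168 v1243 v1242 v7703 v433 v429 v1210 v4969 v5035 v4836 v4967 w4498 v12696 v2820 w1117 w1124 w1566 w1565 w1159 v3927 w1152 w1575 v501 v3384 w5474 w5480 v4775 v4771 w8776 w8801 w8994 w8658 w3193 v11167 w3017 v11169 v8001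
theorem v12966 : PV l12966 := r12966 v11466 v11371 v12696 v7703 v12697 w3469 v12252 w3477 v12300 v1412 v433 v429 v476 v472 w4482 v12963 v12249 w5168 v1242 v4969 v12212 v10508 v12213 v3927 w1158 w1152 v2820 v404 w3506 v485 v12225 w250 v12248 v12227 w351 v5035 w257 w672 v12702 v5102 v3236 v10496 v3238 w1899 v12277 v3933 w1105 w1142 v1210 v3444 w5468 w5345 v1243 v3439 w5470 v4967 v4966 v12239 v12174 v3008 v325 v12704 v3016 w3365 w3371 v12734 v2519 v2370 w4421 v5121 v4488 v7334 w335 w289 w7428 w5570 v12735 w7565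
theorem v12967 : PV l12967 := r12967 v7703 v433 v429 v1210 v4968 v4967 v5035 v5034 v4502 v10801 w101 w119 w804 v12802 v7120 v12922 w3895
theorem v12968 : PV l12968 := r12968 v5102 v3236 v7703 v433 v4969 v10508 v426 v421 v418 v4968 v429 v4967 v4966 v3008 v325 v12967 v12895 v12823 v10497 v2498 v2520 v12675 w4424 v4485 v4483
theorem v12969 : PV l12969 := r12969 v7703 v4967 v1021 v433 v429 v1210 v426 v421 v4968 v5035 v4502 v10801 v5697 w804 v8247 v9514 w2460
theorem v12970 : PV l12970 := r12970 v9099 v1084 v3091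
theorem v12971 : PV l12971 := r12971 w2393 v3927 w1160 v11466 v11371 v12696 v7703 v12697 w3469 v12252 w3477 v12300 v1412 v433 v429 v476 v472 w4482 v12963 v12249 v485 v2820 v404 w3506 v12213 v12225 v12227 v12888 w1158 w1152 w5168 v1242 v4969 v12212 v10508 w250 v12248 w351 v5035 w257 w672 v12702 w4498 v12182 v12135 v1210 v3444 w5468 w5345 v3143 w1969 w2370 w2367 v494 v3136 w1970 w340 v1243 w4529 v3439 v3427 v426 v421 v418 v12277 v12851 v4968 v4834 v4836 v4967 v12239 w305 w799 w800 v3933 v12174 v12226 w352 w1117 w1124 w1565 v3008 v325 w358 v12708 w5511 w5017 v2574 w6456 v2591 v11321 v12965 w5380 v12966 v1594 v8001 v644 w2716 v1021 v12968 v12969 v12895 v3308 v12970 v12832 v9155 v7118 v3095 v3091 w2448 w3895 v9745 v4548 v5656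
theorem v12972 : PV l12972 := r12972 v1242 v7703 v433 v429 v1210 v1209 v4968 v4967 v5034 v10801 v12078 v10799 v7120 v5859 w3895
theorem v12973 : PV l12973 := r12973 v7703 v3008 v325 v1412 v12026 v1243 v433 v426 v421 v418 v429 v1209 v4969 v4968 v4967 v4966 w4576 v5525 v7490 v9152 v12972 v12895 v12823
theorem v12974 : PV l12974 := r12974 v5035 v12973 w5513 v12813
theorem v12975 : PV l12975 := r12975 v7703 v433 v429 v1210 v4968 v4967 v5035 v5034 v4502 v10801 v12829 v7120 w101 w119 w3895 v12922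
theorem v12976 : PV l12976 := r12976 v3927 w1160 v11466 v476 v472 v11371 v12696 v7703 v12697 w3469 v12300 v1412 w4485 v2820 v404 w3506 v12252 w3477 v433 v429 w4482 v12963 v12249 v485 v12213 v12225 v12190 w4498 v12182 v12135 v1210 v3444 w5468 w5345 v3143 w1969 w2370 w2367 v12227 v12248 w340 v494 v3136 w5168 v1243 v1242 v3439 v3427 v12212 w5333 v426 v421 v418 v1209 v4969 v4968 v5035 v4834 v4836 v4967 w351 v12239 w305 w799 w800 v12277 v3933 v12174 v12226 w352 w1117 w1124 w1566 w1565 v3008 v325 v12134 w2393 v12971 v12026 v8001 w3160 w2716 w3729 w3734 v1021 w8777 w8776 w5486 w5760 v1594 w3063 v12974 v9140 w4576 v5525 v7490 v9152 v12975 w35 v12895 v3308 w1641 w1644 v12970 v3954 v7772 v9155 w908 w4210 w4152 w2546 w2520 w6031 w8047 w6026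
theorem v12977 : PV l12977 := r12977 v1242 v5102 v3236 v10496 v3238 v1210 v12704 v8315 v10553
theorem v12978 : PV l12978 := r12978 v2517 w3372 w5414 v6377 w7552
theorem v12979 : PV l12979 := r12979 v1242 v5102 v3236 v3238 v12142 v1210 v12977 v8001 w3003 v12978 v2498 v2520 v2371 v2861 v12675 w4419 v5150 v5086 v4495 w5294 v3625 w5240 w5527 w2931 w2929 w289 w7565 w2215 w7864 w7891
theorem v12980 : PV l12980 := r12980 v2517 v2519
theorem v12981 : PV l12981 := r12981 v11466 v476 v472 v12696 v7703 v11371 v12697 w3469 v12300 v1412 v433 v429 v1210 v3444 v12252 w3477 w4482 v12963 v12249 w5468 w5345 v3927 v3143 w1969 w5168 v1242 w1158 w1152 v2820 v4969 v12212 v10508 v404 w3506 v485 v12213 v12225 w250 v12248 v12227 w351 v5035 w257 w672 v12702 v5102 w1899 w2223 v3236 v10496 v3238 w1159 w1142 w1426 v12277 v3933 w1105 v11453 w2306 w1959 v8000 w5335 w1116 v12239 w297 v6738 v2282 v3228 v12135 w2367 v12142 w5318 v3439 v494 v1209 v4968 v4967 v4966 w305 w799 v12174 w1575 v3008 v325 w1132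 w1079 v12976 v12133 w1912 v9109 w1900 w5407 v7190 w5285 v4082 v4080 v9432 w8866 w8484 w8742 v5893 v9017 v4602 v3930 w1108 w1070 w8093 w3428 v11321 v3565 v4937 v12979 v7174 v12966 v8001 w3003 w2954 w8039 w630 v12980 v2498 v2520 v2371 v12675 w4419 v5150 v5086 v4495 w5294 v8491 w5240 w5527 w2931 w2929 w289 v4487 w7565 w616 w2215 w7891
theorem v12982 : PV l12982 := r12982 v11371 v3318 v1412 w2393 v12736 v12031 v4083 v4082 v4080 w5513 w5407 w5285 v8123 v9432 w9023 w3826 w7985 w8530 w2300
theorem v12983 : PV l12983 := r12983 v3317 v11371 v1242 v10508 v5102 v3236 v10496 w1075 v3238 v3228 v1243 v12142 w5318 v433 v429 v476 v472 w259 v12273 v12954 v2576 v12730 v5042 w336 v5138 v3588 v1446 v2584 w732 w643 v2859 v11321 w3003 w3005 v12913 v4811 v12980 v4937 v2498 v2520 v2371 w2954 v12675 w4419 v5150 w5211 w8016 v5086 v4495 w5294 v8491 w1408 w5531 w2932 w335 w656 w7566 w2220 w8221 w8059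
theorem v12984 : PV l12984 := r12984 v11466 v476 v11371 v12696 v7703 v12697 w3469 v12300 v1412 w4491 v12252 w3477 v433 v429 v472 w4482 v12963 v12249 v485 v2820 v404 w3506 v12213 v12225 v12227 w5335 v12277 v3933 w1116 v12239 w297 v6738 v2314 v7352 w4745 w4751 w5311 w5303 w5300 v2282 w351 v5035 w5168 v1242 v4969 v12212 v10508 w257 w672 v11453 w2306 v1210 v3444 w5468 w5345 v3927 v3143 w1959 v12248 w250 v1243 v3427 w1117 w1124 w1565 v12123 v755 v1209 v4968 v4967 w305 w1152 w1158 v12702 v8399 w1142 w1421 v12981 v3318 v3319 v3317 v12982 w1975 v12983 v4082 v7935 v12029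
theorem v12985 : PV l12985 := r12985 w358 v12750 v12708 w5513
theorem v12986 : PV l12986 := r12986 v7703 v1412 v433 v4969 w1160 w2393 v12985 v429 v1209 v5525 w4576 v9152 v7490 w340 v1243 v1210 v4968 v476 w4494 v4967 v4966 w4498 v5035 w352 v11371 v3008 v325 v12827 v12184 w2731 v1021 v12972 v12823 v12824 v12839
theorem v12987 : PV l12987 := r12987 v1412 v433 v426 v421 v429 v325 v12839 v12833 v11980
theorem v12988 : PV l12988 := r12988 v9028 v1084 v3091
theorem v12989 : PV l12989 := r12989 v7703 v11466 v11371 v12696 v12697 w3469 v12300 v1412 v433 v4969 v429 v1210 v3444 v12252 w3477 v476 v472 w4482 v12963 v12249 v485 v2820 v404 w3506 v12213 v12225 v12227 v3927 w1160 w2393 v12985 v12277 v3933 v12239 v12174 v3439 v12212 w5468 w5345 v3143 v12789 v10454 v12248 w340 v494 v3136 w5168 v1243 v1242 v3427 v426 v421 v418 v1209 v4968 v5035 v4834 v4836 w4494 v4967 v4966 w4498 v12226 w352 w1117 w1124 w1565 v3008 w4576 v5525 v7490 v9152 v12986 v12842 v12184 v12219 w2731 v1021 v12975 v12987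 v3308 v12988 v7772 v9155 w3938 v4517 v4518 v3091 v4548
theorem v12990 : PV l12990 := r12990 v3927 w1160 v11466 v11371 v12696 v7703 v12697 w3469 v12252 w3477 v12300 v1412 v433 v429 v476 v472 w4482 v12963 v12249 v485 v2820 v404 w3506 v12213 v12225 v12227 v1210 v3444 v4969 v5035 w2393 v12985 v12989 w5513 v9140 v12813
theorem v12991 : PV l12991 := r12991 v11466 v11371 v12696 v7703 v12697 w3469 v12252 w3477 v12300 v1412 v433 v429 v476 v472 w4482 v12963 v12249 v485 v2820 v404 w3506 v12213 v12225 v12227 v12248 v1210 v3444 w5468 w5345 v3927 v3143 w5168 v1242 v3439 v12212 v1209 v4969 v4967 v4966 v12277 v3933 v12239 v12174 v3008 v325 w1132 v12789 v8001 w3003 v12990 v12133 w1912 v9109 w5407 v7190 w5285 v4082 v4080 v9432 w8866 w8484 w7903 v9017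
theorem v12992 : PV l12992 := r12992 v1412 w2393 v12736 v12031 v4083 v4080 w5513 w5285 v8123 v9432 w9023 w7903 w7985
theorem v12993 : PV l12993 := r12993 v3593 v5138
theorem v12994 : PV l12994 := r12994 v12964 v11466 v11371 v12277 v3933 w1116 w1452 w1090 w1117 w1465 v3927 w1152 w1485 v12696 v2820 v404 v476 v472 v7703 v5035 v11453 v12697 w3469 w3477 w3506 v12239 v12252 v12300 v12174 v1412 v433 v4966 v4967 w4491 w4482 v429 v4968 v4969 v12963 v1209 v1210 v11170 v12249 v12851 v3444 w5259 w5266 w5256 v732 w8541 v485 w5168 w5335 w5468 v12212 v12213 v3427 w5316 v12142 w2306 w8064 v1243 w5345 v12225 v3143 w340 v4438 w297 v12227 w1959 w708 w694 w688 v6738 w275 v6856 v2314 v7352 w5300 w5303 w5311 w4745 v12984 v12991 v3318 v3319 v3317 v12992 v12993 v12954 v4082 v7935 v12029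
theorem v12995 : PV l12995 := r12995 w5729 v2574 v2708 w8611 w8531
theorem v12996 : PV l12996 := r12996 w312 v483 v485 w340 v12227 v390 v2846 v12995 w5513 v8366
theorem v12997 : PV l12997 := r12997 v485 v11371 v11800 v2846 v390 v12213 v12225
theorem v12998 : PV l12998 := r12998 v7703 v5178 v5274 v12866 v12895 v3308 v12879 v12761 v9155 v3094
theorem v12999 : PV l12999 := r12999 v11371 v12277 v3933 w1132 v7703 v1209 v5178 v5274 v12135 v12998 v12877 v12895 v3308 v12879 v9155 v7199 w6336 v12918 w3888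
theorem v13000 : PV l13000 := r13000 v7703 v1210 v1209 v5178 w4329 v5035 v5034 v4502 w101 w120 w119 w804 v12932 v12892 v7120 v12922 w3895
theorem v13001 : PV l13001 := r13001 w2393 v3927 w1160 v11466 v11371 v12277 v3933 w1132 v12696 v2820 v3374 v11301 w4904 w4476 v7703 w5381 w4972 w4898 v476 w4471 v12963 v5035 v404 v11462 v5178 w4317 v5726 v1210 v8382 v12851 v483 v12997 v12190 w5380 w4977 v12182 v12314 w297 w340 v485 v3444 w5195 v1243 v1242 w351 w305 w799 v2534 w5458 v2734 v4793 v12135 w1969 w2367 v3439 v3427 w4329 v5725 v1209 w4910 v4966 v4969 v4968 v3351 w4887 v5274 w352 w1117 w1124 w1565 w1116 w1159 w1152 w1575 w1158 v3008 v325 w358 v12996 v12708 v6738 v12957 w5511 w5017 v2846 v12252 v12226 v2574 v390 v12212 v12213 v2591 v12248 v12999 v1594 w3107 w3097 v12900 v13000 v12895 v3308 v12823 v12879 v10766 v7118 v12918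
theorem v13002 : PV l13002 := r13002 v390 w3498 v2846 v1594 v11963
theorem v13003 : PV l13003 := r13003 v4966 v3008 v325 v12895 v12823
theorem v13004 : PV l13004 := r13004 v5178 v12884 v12053
theorem v13005 : PV l13005 := r13005 v7703 v1210 v5178 v5274 v5035 v13003 v5034 v4502 w101 w119 v13004 v12892 v7120 v12922 w3895
theorem v13006 : PV l13006 := r13006 v5178 v12884 v12901
theorem v13007 : PV l13007 := r13007 v12888 v7703 v1210 v5178 v5035 v5034 v4502 w101 w119 v13006 v12892 v7120 v12922 w3895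
theorem v13008 : PV l13008 := r13008 v7703 v3008 v325 v12026 v5035 v5178 w4329 v5725 v1209 v5274 w4576 v5525 v7490 v9152 v13005 v13007 v12895 v3308 v12148 v12879 v3954 v9155 v7772 w6281 w931 w2540 w4174 w6015 w6030 w8663
theorem v13009 : PV l13009 := r13009 v3927 w1160 v12696 v2820 v3374 v11301 v11466 w5380 w4977 v11371 v7703 w5381 w4972 w4898 v476 w4904 w4471 v12963 v5035 v404 v11462 v5178 w4317 v5726 v1210 v8382 v12277 v12851 v483 v12997 v12182 w340 v485 v3444 w5195 v1243 v1242 w351 v12314 w305 w799 v2534 w5458 v4793 v12135 w1969 w2367 v3439 v3427 w4910 v4966 v4969 v4968 v3351 w4887 w352 w1117 v3933 w1124 w1565 w1152 v3008 v325 w2393 v13001 v13002 v12227 v12248 v12957 v2846 v12252 v12226 v12212 v12213 v12026 v1594 w3107 v13008 w5513 v9140 v12813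
theorem v13010 : PV l13010 := r13010 v1242 v5102 v12704 v3236 w1899 v5173 v3016 v2718 v2519 v3238 w2399 w1079 w4421 w5233 v4488 w7660 v4079
theorem v13011 : PV l13011 := r13011 v12907 v3236 v10549 v10550
theorem v13012 : PV l13012 := r13012 v7703 v12696 v2820 v3374 v11301 w4904 v4969 w4898 v1210 v3444 w5195 v1242 v10501 v3008 v12908 v13010
theorem v13013 : PV l13013 := r13013 v1242 v5102 v3236 v3238 v2498 v2520 v5098 v2371 v2861 v12675 w4419 v5150 v5086 v4495 w5294 v3625 w5240 w5527 w2931 w2929 w289 w7565 w2215 w7864 w7891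
theorem v13014 : PV l13014 := r13014 v12978 v12980
theorem v13015 : PV l13015 := r13015 v11466 v11371 v7703 v12696 v2820 v3374 v11301 w4898 v1210 v12314 w5381 w4972 v476 w4904 w4471 v12963 v5035 v404 v11462 v5178 w4317 v5726 v3927 v8382 v12277 v12851 v483 v12997 w297 v12142 v485 v3444 w5195 v1242 v2734 v2534 v4793 v3439 w4329 v5725 v2537 w1969 v1209 w4910 v4966 v4969 v4968 v3933 w1116 v472 w1159 v3008 v325 w1132 w1160 v13009 v12133 v7710 v9109 w1975 v4083 v4082 w5513 w5407 w9178 w8866 w8484 w9099 v5893 v4602 v12298 v2709 w3510 v12252 v12212 v12213 v12227 v12248 v10501 v6738 v2314 v7352 w5303 v13011 v5102 w1142 w1105 v3236 w1899 w1426 v10496 w2223 w1070 v13012 v8001 w3003 v13013 v13014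
theorem v13016 : PV l13016 := r13016 v7742 v3003 v12639
theorem v13017 : PV l13017 := r13017 v11371 v12277 v390 w3498 v12088 v12205 w9163 v12961
theorem v13018 : PV l13018 := r13018 v11466 v11371 v7703 v12696 v2820 v3374 v11301 w4898 v1210 v12314 w5381 w4972 v476 w4904 w4471 v12963 v5035 v404 v11462 v5178 w4317 v5726 v3927 v8382 v12277 v12851 v483 v12997 w297 v4438 v11453 w2306 w1959 v3228 v12142 w5332 w5627 w5632 v485 v3444 w5195 v1243 v1242 w351 w305 w799 w5262 w5256 v2734 v12135 w1969 w2367 v3427 w4329 v5725 v2537 v1209 v4969 v4968 w5380 w4977 w4910 w1090 v3933 w1116 w1159 w1152 w1575 w1117 v472 v12182 w3039 v4923 w4266 w4275 v13015 v3317 v12854 w1975 v13016 v12273 v13017 v12227 v12248 v6738 v6856 v2314 v2282 w2258 w2245 v7352 v8399 w8524 w5303 w5311 w5612 w3465 v12212 v12213 v11654 v10508 v12954 v2584 w259 v13011 v5042 w336 v5138 v1446 v5102 w1142 w1105 w732 v2859 w3436 w3003 v3236 w1899 w1426 v4811 v12252 v10496 w2223 v4937 v12913 w1075 w2945 w2954 v13014 w8016 v13013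 w1407 w1406 w7939 w8062
theorem v13019 : PV l13019 := r13019 w340 v7710 v12750 w2393 w5513 v12985 v8366
theorem v13020 : PV l13020 := r13020 v11371 v12277 v3933 w1132 v390 v13002 v2846 v9109 w1975 v12298 w5513 w9099 w9178
theorem v13021 : PV l13021 := r13021 v7703 v1210 v5178 v5035 v5034 v4502 v13004 w101 w119 v7120 w3895 v12922 v5029 v10068
theorem v13022 : PV l13022 := r13022 v1242 v7703 v12696 v2820 v3374 v11301 w4898 v1209 v6007 w4910 w4576 v9152 v7490 v11466 w5381 w4972 v476 w4904 w4471 v12963 v11371 v12277 v12851 v483 v12997 v1243 v404 v11462 v5035 v5178 w4329 v5725 v1210 v4966 v4969 v4968 w5380 w4977 v3351 w4887 w1117 v3933 w1124 w1565 w1159 v3927 w1152 w1569 v3008 v325 v11453 w8656 v12945 v2263 v12219 w3106 v13021 v12950 v12823 v10731 v12810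
theorem v13023 : PV l13023 := r13023 w4576 v1242 v7703 v1210 v5178 v5035 v5034 v4502 v12949 w101 w119 v1247 v13006 v7120 w3895 v12922 v5029 v10068
theorem v13024 : PV l13024 := r13024 v1209 v5178 v5274 v12950 v7772 w3944 w3938 v12951 v3308 v7120 v9155 v12941
theorem v13025 : PV l13025 := r13025 v7703 v11466 v12696 v2820 v3374 v11301 w5381 w4972 w4898 v476 w4904 w4471 v12963 v11371 v12277 v12851 v483 v12997 v1243 v1242 v404 v11462 v5035 v5178 w4329 v5725 w4317 v5726 v1209 v4969 v4968 w5380 w4977 v3351 w4887 w4910 w1117 v3933 w1124 w1565 v12135 w4576 v6007 v7490 v9152 v13022 v13024 v12949 v12184 v12219 w3102 v13023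
theorem v13026 : PV l13026 := r13026 v3927 w1160 v12696 v2820 v3374 w5195 v5035 w2393 v13025 w5513 v9140 v12813
theorem v13027 : PV l13027 := r13027 v11466 v11371 v7703 v12696 v2820 v3374 v11301 w4898 v1210 v12314 w5381 w4972 v476 w4904 w4471 v12963 v5035 v404 v11462 v5178 w4317 v5726 v3927 v8382 v12277 v12851 v483 v12997 w297 w340 v11453 w2306 w1959 w351 v3444 w5195 v1243 v3427 w1117 v3933 w1124 w1565 v12123 v2534 w5456 v755 w783 v12135 w1969 w2367 w2315 v12142 v485 w305 w799 w5457 v2734 v4793 v3439 w4329 v5725 v1209 w4910 v4966 v4969 w4968 w5380 w352 w1116 v3008 v325 w1160 v13019 v4083 v4080 v13020 v12227 v12248 v10454 v6738 v12960 v2314 w2278 v2846 v12252 v12226 v7352 v12212 v12213 w5300 w5303 w5311 w5652 w4745 w5699 v12789 v12993 w274 v5873 w271 w748 w1106 w7708 w7709 w3677 w3724 v13026 w1912 v9109 w1975 w5513 w5285 w9178 v9432 w8957 w7903 v9017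
theorem v13028 : PV l13028 := r13028 v12142 w1912 v11371 v12277 v3933 w1116 w1452 w1090 v3317 w297 v485 w1117 w1465 v12273 v13017 w4576 v12227 v11660 v8634 v6738 v2584 v2314 v752 v7352 v12790 w5311 v3593 v5138
theorem v13029 : PV l13029 := r13029 v12964 v11466 v11371 v12277 v3933 w1116 w1452 w1090 w1159 v3927 w1152 w1575 w1494 w1117 w1465 v12696 v2820 v404 w1124 w1565 w1569 v476 v7703 v5035 v12123 v11453 v12135 w351 v12994 v5178 v3374 w5380 w5381 v11301 w4904 w4910 w4898 w4972 v11462 w4317 v4968 v4969 w4471 v4966 v1209 v1210 v5726 v11170 v12963 v12314 v8382 v3444 w1969 v2534 v12851 w305 v3427 w5195 w2367 v4793 v483 w5456 v2734 w5457 w5262 w799 v1242 v1243 v732 v755 w2306 w8064 w8541 w783 w1959 v12997 w340 v4438 w297 w708 w694 w688 w275 v13018 v13027 v3319 v12854 w1975 v13028 v7742 v3003 v5787 w5513 v9221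
theorem v13030 : PV l13030 := r13030 v4967 v1021 w2393 v433 v4968 v3927 w1160 v10718 v12320
theorem v13031 : PV l13031 := r13031 w3469 v12849 v8893 v5039 w301
theorem v13032 : PV l13032 := r13032 v1242 v10501 v5102 v3236 v10496 w1070 v12142 v13014 v13013 w7694 v1446
theorem v13033 : PV l13033 := r13033 v1242 v10501 v2820 w1158 v12702 v5102 w1142 w1105 v3236 w1899 w1426 v10496 w2229 w2223 w1077 v13032 v12698 v11346 w3372 w7552
theorem v13034 : PV l13034 := r13034 v3927 w1160 v5034 v4526 w2759 v433 v429 v1210 v1209 v4969 v4967 v4966 v8726 w124 w2393 v12750 w5513 w5285 v12708 w9057 w3836 w3849 w6732 v10492 v13030 w6615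
theorem v13035 : PV l13035 := r13035 v1412 v433 v4968 v429 v4967 v1242 v3008 v325 v12026 v5848 v7490 v9152 v10811 v12054
theorem v13036 : PV l13036 := r13036 v5035 w257 v4836 v1242 v12696 v2820 v3927 w1158 w1159 v11321 v11375 v5102 w1142 v3236 w1899 v5173 w1426 v3238 w2229 w2223 w1077 v11115 v11346 v7334 w5227
theorem v13037 : PV l13037 := r13037 v433 v4969 v10501 v4967 w1159 v3927 v5102 w1142 v3236 w1899 v5173 w1426 v3238 w2229 w2223 w1077 v11346 w5227 v7334 v11115 v11101
theorem v13038 : PV l13038 := r13038 v5035 v1242 v7703 v433 v4969 v10501 w257 v4968 v4836 v4967 v12696 v2820 v3927 v11466 v11371 w1152 w1158 v13036 v13037 w1078 w1429 w1418 v10548 v12145 v10550 w3370 w7578 w8811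
theorem v13039 : PV l13039 := r13039 v1412 v4967 w2759 v1021 v433 v429 v1242 v4968 v1243 v11167 v10801 v1209 v4969 v4966 v3008 v325 w1132 v13034 v4080 v10156 w5285 w5731 w4673 v9109 v13035
theorem v13040 : PV l13040 := r13040 v13029 v12964 v11466 v11371 v12277 v3933 w1116 w1452 w1090 w1159 v3927 w1152 w1569 w1489 w1117 w1465 v12696 v2820 w1124 w1566 w1565 v476 v472 v7703 v5035 v12123 v11453 v12135 v12847 w5169 w5339 v1242 v1243 v13031 v2846 v12239 v12252 v12300 v12174 v390 w305 w301 w299 w300 w303 v1412 v4834 v6253 v8893 v433 w4498 v4966 v4967 w4491 w4494 w4482 v4836 w5358 w5354 w5345 w4825 v2308 w5740 w4803 v429 v4968 v4969 w4709 v6715 v12963 v3440 v1209 v1210 v11170 v10501 v12142 w2306 w2310 w8541 v12851 v12249 w5269 v2293 w5665 w8064 w257 w256 w253 w5257 v12997 v12212 v12213 v4438 w297 v12227 v12248 w250 v7167 w8798 w694 w688 v6738 v6856 v4192 w8656 v4786 w3795 w3718 w8996 w272 v2315 v2314 w2245 w1969 w6795 v4197 v4193 w1959 w3814 v11167 v7352 w3054 w8776 v4504 w5300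 w5303 w5311 w5652 w4745 w5612 w5479 w114 w112 w97 v5893 v13033 w3205 w3095 v12993 w273 w269 v4557 w8207 w3161 v13038 v5189 w7694 v2859 w2945 v3565 w268 w8062 w8013 w7957 v13039 v3318 v3319 v3317 v12954 v12992 v7935 v11217
theorem v13041 : PV l13041 := r13041 v12696 v2820 v11466 v11371 v12277 w1117 v3933 w1124 w1565 v7703 v12123 v13029 v13040 v3374 v3426 v11301 w4898 w5364 v1210 v8369 v12314 w3469 w301 v12300 v6253
theorem v13042 : PV l13042 := r13042 v12142 v736 w8180 v12482 w4742
theorem v13043 : PV l13043 := r13043 v12482 v5893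
theorem v13044 : PV l13044 := r13044 w5636 w5646 w4742 w4734 w7941 v13043 v12140 v12141 w7943 v32 v28 w7770
theorem v13045 : PV l13045 := r13045 w3691 v13042 v13044 v1697 w5662 w5627 w8183 w2304 w8264 w8501
theorem v13046 : PV l13046 := r13046 v11466 v11371 v12277 v3933 w1117 v13041 w1454 w1112 w1116 v2305 w1124 w1565 w1505 w1109 w1473 v12696 v2820 v404 v476 v472 v7703 v5035 v12134 v12697 w3469 w3477 w3506 v12239 v12252 v12226 v12300 v1412 v433 w4494 w4478 w4482 v429 v12963 v1209 v1210 v12249 v3444 v485 w5168 w5333 w5335 w5468 v12997 v12212 v3427 v12227 v1243 w340 w297 v4438 w708 w688 w694 w275 v13045 v638 v6808 w7766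
theorem v13047 : PV l13047 := r13047 v650 v758 w7766
theorem v13048 : PV l13048 := r13048 v13042 v11159 w2257
theorem v13049 : PV l13049 := r13049 v11466 v11371 v12277 v3933 w1117 v13041 w1454 w1112 v12696 w1124 w1565 v3927 w1152 v476 v472 v7703 v12123 v12135 v13046 v12847 v13031 w5169 w5339 v2846 v12239 v12252 v12226 v12300 v12174 v1243 w301 w299 v1412 v8893 v6253 v433 v4967 w4494 w4482 w5358 w5345 w5740 v429 v12963 v3440 v1209 v1210 v12249 w5333 v12997 v12212 v12213 w297 v4438 v7167 w8798 w688 v4192 v2321 w3774 w8996 w272 v4197 w8770 v13047 w5627 v13048 v638 v2272 w8501 w8014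
theorem v13050 : PV l13050 := r13050 v11371 v12277 v483 w5392 v12851 v8369 v12300 w3469
theorem v13051 : PV l13051 := r13051 v4438 w694 v485 w7941 v12205 v390 v12212 v12227 v13044
theorem v13052 : PV l13052 := r13052 v11371 v12314 w297 w688 w272 w5168 v1243 w5335 w5333 v12277 v3933 w1117 w1454 w1112 w1116 v2305 w1109 w1473 v13042 v13051 w5266 w5627 w8345 v1697 v12278 v12195 v2846 v2832 v4273 v12138 w8264 w8501
theorem v13053 : PV l13053 := r13053 w4742 w4734 w7766 v13043 v12212 v3898 v3022 w3015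
theorem v13054 : PV l13054 := r13054 v11371 v12314 w297 w688 w272 w5335 v12135 w1969 w2370 v12277 v3933 w1117 w1454 w1112 w1124 w1565 w1505 w1109 v12123 v8382 v3444 w337 v6253 v3427 v13052 v6808 v13053 w5662 v638 w8500 v12226 v12278 w3467 v6868 w3718 w2305 w8019
theorem v13055 : PV l13055 := r13055 v12696 v2820 v404 v11466 v11371 v12277 w1117 v3933 w1124 w1565 v3927 v7703 v3008 v5035 v12123 v13041 v13049 v5274 v5178 v3374 w4452 w5381 v11301 w5382 w4898 v11462 w4972 w4317 w4959 v1209 v1210 v5726 v12963 v12314 w305 v13050 v12997 v4438 w776 v13054 v3426 w5364 v8369 v6253 w3469 v12300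
theorem v13056 : PV l13056 := r13056 v476 v472 v11371 w3469 w3477 v12252 v12300 v12249 v1412 v433 w4482 v429 v12963
theorem v13057 : PV l13057 := r13057 v11371 v12277 w1117 v3933 w1124 w1565 v12123 v8893 v12697 v13031 w301 v12239
theorem v13058 : PV l13058 := r13058 v12696 v2820 v11466 v11371 v12277 w1117 v3933 w1124 w1565 v7703 v12123 v13056 v13057 v3374 v11301 w4898 w5392 v1210 v8369
theorem v13059 : PV l13059 := r13059 v5041 v476 v472 v1412 w4478 w4491 v11371 v12277 v3933 w1116 w1452 w1090 w1117 w1465 w5298 w7959 w5319 w5636 w5646 w4756 w4734 v12142 v4627 v6206 v5751 v4454 w7694 w1106 w2967 w2971 w3025 w3017 w7963 w7869 v1104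
theorem v13060 : PV l13060 := r13060 v11371 v12239 w295 v5041 w290 v12300 v12252 v12277 w1117 w1465 v3933 w1116 w1452 v476 v11453 v12134 w3691 w3391 w3396 v13059 w5662 w5256 w5627 w8206 v9115 w2304 w2313 w5303 w8283 w8286 v2322 v2291
theorem v13061 : PV l13061 := r13061 v744 w7785 w4742 v12142 v4466 v4467
theorem v13062 : PV l13062 := r13062 v12142 w2306 w8038 w8206 w8656 w3686 w3699 w8037 w2258 w2269 w8040 w5300 w5303 w7706 v5751 v9115 v2460
theorem v13063 : PV l13063 := r13063 v11466 v11371 v12696 w3469 v12239 v13055 v13058 w3477 v12258 v2820 v404 w3506 v485 v12213 v12225 v4438 w690 w295 v5041 w5335 v12300 v12277 w1117 v3933 w1124 w1565 v12123 v5035 w305 w776 v6253 v2308 v476 w5358 w297 v2269 w724 w699 w290 v7703 v1412 v433 v429 v1210 v4968 v472 w4482 v12252 w1116 w1452 w1090 w1465 v3927 w1152 w1485 w5168 v1242 w5165 w5333 w1159 w1569 v11453 w351 v3439 w783 v13060 v13061 w5662 w5259 w5266 w5256 w5627 v13062 w8127 v6771 v12138 v3565 v6724 w3395 w8037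
theorem v13064 : PV l13064 := r13064 v11371 v12239 w295 w290 v12300 v1412 v12252 v12277 v3933 w1116 w1452 w1090 w3391 v13060 w2967 v5686 v4454 v3598 w4448
theorem v13065 : PV l13065 := r13065 v11466 v11371 v12277 v3933 w1116 w1452 w1090 w1117 w1465 v3927 w1152 w1485 v13058 w5168 v1242 w5165 w5335 w5333 v485 v13055 v12696 v2820 v404 w1124 w1565 v476 v472 v7703 v5035 v12123 v12135 v13057 w3469 w3477 w3506 v12239 v12252 v12300 v12258 w305 v1412 v4834 v12122 v12213 v433 w4491 w4482 v4836 v12225 v429 v4968 w297 v4438 v1210 w699 v2269 w776 w690 w290 w724 v6253 w295 w5345 w5740 w4803 v5041 v13063 w299 v7167 w8798 v4192 w3205 w3774 w6795 v4193 w8770 w3069 v13064 v13061 w3718 w3039 w3670 w5662 w5259 w5256 w8127 w8130 w2269 w1959 w8040 v3228 v3565 v11645 w5303 v2859 v4292 v3603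
theorem v13066 : PV l13066 := r13066 w7959 w7867 w4742 v12142 v4467 v4466
theorem v13067 : PV l13067 := r13067 v4438 w690 w1452 v485 v390 w3460 w3461 v12213 v12227 w3663 w8814 v9894
theorem v13068 : PV l13068 := r13068 v12138 w1959 w8283 v6771 w8130 w3715
theorem v13069 : PV l13069 := r13069 v4438 w690 w1452 w1090 v13066 w5662 w5266 w5627 v13067 v13068 v6724 v3553 v12414 w3453
theorem v13070 : PV l13070 := r13070 v11371 v12314 v4438 w690 w295 v5041 w297 v12277 v3933 w1116 w1452 w1090 w5168 v1242 w5335 w5333 w3468 w3471 v3032 v12195 w8656 v13069 w3015 w3446 v12472 v1674 w5662 w5259 w5627 v3564 v13068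
theorem v13071 : PV l13071 := r13071 v11371 v12252 v12277 v3933 w1116 w1452 w1090 v13061 w3396 v13059
theorem v13072 : PV l13072 := r13072 v12138 w1959 w8283 v6771 w3716 w8130
theorem v13073 : PV l13073 := r13073 v11466 v11371 v7703 v12696 v2820 v13065 v3374 v11301 w4898 v1210 v12314 v13055 w5382 w4959 v12963 v13058 w5381 w4972 v12997 v4438 w690 w295 v5041 v5035 w305 w776 w297 v2269 w724 w699 w290 v404 v11462 v5178 w4317 v5726 v3351 w4909 v4966 v3008 w4893 v4970 v12277 v3933 w1116 w1452 w1090 w1117 w1465 v3927 w1152 w1485 w5168 v1242 w5165 w5335 w5333 w1159 w1569 v476 v11453 w351 v3444 v3439 v13063 v8382 w783 w5468 w5469 v13070 v2846 v12213 v13071 w5662 w5259 w5266 w5256 w5627 v13072 v6724 v3565 w3396 w3395 v13062 w8037 w8127 v6771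
theorem v13074 : PV l13074 := r13074 v13058 v12696 v2820 v11466 v11371 v12277 w1117 v3933 w1124 w1565 v7703 v5035 v12123 v13065 v3374 w5381 v11301 w5382 w4898 w4972 w4959 v1210 v12963 v12997 v12314 v4438 w305 w776 v13073 v3426 w5364 v8369 v6253 w3469 v12300
theorem v13075 : PV l13075 := r13075 v11371 v12277 v3933 w1117 w1454 w1112 w1109 v476 v472 w5298 v10523 w5319 w4756 w4734 v5751 w3039 w3446 v9464 v5870
theorem v13076 : PV l13076 := r13076 v9073 v5873 w4263
theorem v13077 : PV l13077 := r13077 v5035 w352 v11466 v11371 v12277 v3933 w1117 v13074 w1454 w1112 v3932 w1109 v13058 w5168 v1243 v1242 w5165 v485 v13055 v12696 v2820 v404 w1124 w1565 v3927 w1152 v7703 v3008 v12123 v12135 w3467 w3469 v2992 v12697 v10278 v5274 v5178 v3374 v3351 v494 v8601 w5482 w5468 v3427 v3439 w4452 w5381 w5382 w4898 w4893 w4521 v11462 w4972 v755 w4968 w4959 v1209 v1210 v12963 v4970 v5726 v12997 w798 w718 v8382 w340 w730 w337 w8679 w8987 w336 v5041 v13075 w5256 v13076 v3234 v5680 v4290 v4291 v2983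 v3018 v3906 v3893 v3892 w4263 v5871
theorem v13078 : PV l13078 := r13078 v1412 w4482 w4478 w5298 w4742 w4734 v5751 v3232 v5871 v3903
theorem v13079 : PV l13079 := r13079 w2258 w2249 w2269 w2244 w8162 w7999 v32
theorem v13080 : PV l13080 := r13080 v11371 v12239 w295 v5041 v12300 v12277 v3933 w1116 v2305 w1117 w1454 w1473 v476 w3391 w8249 v9115 w5306 w5303 v13079 w8159 w3663 v2322 w3671 w3679 w8162 w8253 v1104
theorem v13081 : PV l13081 := r13081 w3395 w3659 v4290 w2946 v3234 v1510
theorem v13082 : PV l13082 := r13082 v11371 v12239 w295 v5041 w297 v2269 w699 v476 v12300 v1412 w4494 v12277 v3933 w1117 w1454 w1112 v3932 w1109 w1116 w1473 v472 v13080 v41 v12474 v12184 w3036 v13081 w8083 v12143 v2283 v5751 v1510 w2280 w5297 w3019 w8253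
theorem v13083 : PV l13083 := r13083 v11466 v11371 v12277 v3933 w1117 v13074 w1454 w1112 v3932 w1109 v13058 w5168 v1242 w5165 w5333 v485 v13055 v12696 v476 v472 v7703 v5035 v13077 v2846 v12239 v12300 v390 v12258 v12213 w305 v1412 v12228 v12225 w730 v433 v4438 v12227 v12248 w336 v429 v4968 w690 v1210 w295 v3444 v5041 v3439 v13078 w5256 w5627 v13082 v5178 v13076 v3234 v12143 v4290 v4291 w8083 w3395
theorem v13084 : PV l13084 := r13084 v13083 v12696 v2820 v11466 v11371 v12277 w1117 v3933 w1124 w1565 v7703 v12123 w3469 v13031 v3374 v3426 v11301 w4898 w5364 v1210 v8369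
theorem v13085 : PV l13085 := r13085 w1454 w1112 w1109 w5298 v663 v13078 v5751 v2391 v2292 w3679 v10764
theorem v13086 : PV l13086 := r13086 v5041 w3396 w2967 v4805 v6834
theorem v13087 : PV l13087 := r13087 v7703 v5035 v12123 v11453 v12135 v3927 w1159 v11466 v476 v11371 v12277 v472 w1152 v3933 w1117 w1569 w1124 w1116 w1565 v12696 v13055 v13058 v485 w5168 w5333 w5335 w5165 v1242 v13074 w1109 w1454 w1112 v13083 v13084 v2846 v12239 v12300 v390 v12258 v12213 w301 w299 w300 v1412 v4834 v12228 v12225 v6253 v433 w4491 w297 v4438 v12227 v12248 w5358 w5345 v2308 w5740 w4803 v429 v4968 w699 w695 w690 v3426 v7167 w8798 v1210 w290 w295 v13057 v4836 v4192 w8656 w3205 v2321 w3774 w6795 w3099 w8770 w2758 w3069 v1021 v13085 w5259 w5627 v13086 v41 v12474 v2272 w2257 w8083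
theorem v13088 : PV l13088 := r13088 v7703 v3000 v2998 v2996 v13087 v5035 v11758 v4846 v4838 v4863 w5011 v2741
theorem v13089 : PV l13089 := r13089 v476 v472 v11371 v12277 v1412 v12851 v433 w4482 v12963 v429
theorem v13090 : PV l13090 := r13090 v13087 v11305 v6132 v494
theorem v13091 : PV l13091 := r13091 v7703 v3000 v3008 v3025 v13087 v5035 v13088 v3216 v13090 v3422 v494 v3430 v7704 v4838 v10084 w4561 v3006
theorem v13092 : PV l13092 := r13092 v11371 v12277 w1117 v3933 w1124 w1565 v476 v472 v13087 v7703 v3008 v5035 v12123 v3025 v3026 v13091 v1412 v13089 v433 v4967 w4491 w4494 w4482 v483 v429 v4968 v1210 v12963 v12314 v12997 w305 v4438 w776 v6253 w4812 w4807 v4871 v4885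
theorem v13093 : PV l13093 := r13093 v13092 v2820 v11371 v12277 w1117 v3933 w1124 w1565 v7703 v12123 v13056 v13057 v3374 v11301 w4898 w5392 v1210 v8369
theorem v13094 : PV l13094 := r13094 w351 v13093 w5168 v1243 v13092 v2820 v404 v11371 v12277 w1117 v3933 w1124 w1565 v7703 v5035 v12123 v11453 v12300 w3468 w3469 v13057 v10278 v3351 v494 v8601 w5468 w5469 v3427 w4893 v490 w4521 v11462 v755 v5726 w783 v2533 w8606 w1119
theorem v13095 : PV l13095 := r13095 v7703 v476 v472 v13094 v1412 w4482 v433 v429 v12963 w4494 v13093 v12997 v4438 w351 v5035 v11371 v1210 v12314 w305 w799 w771 w340 v13092 v3444 v3427 w5470 w5469 v12277 w1117 v3933 w1124 w1565 v13087 v11453 v12135 w3467 w3468 w3469 w8623 v13057 w1118 w8606 w1156 w1572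
theorem v13096 : PV l13096 := r13096 v13092 v11371 v13087 v7703 v5035 v13094 v1412 v4834 v433 v4967 v429 v1210 v3444 v494 w4550 v13095 v12252 v3455 v4850 v5725 v5363 v4836 v2907 w2776
theorem v13097 : PV l13097 := r13097 v13096 v13092 v2820 v11371 v12277 w1117 v3933 w1124 w1565 v7703 v12123 w3469 v13031 v3374 v3426 v11301 w4898 w5364 v1210 v8369
theorem v13098 : PV l13098 := r13098 v11453 v12135 w1119 w1118 w8773 w8605 w3777 w3767
theorem v13099 : PV l13099 := r13099 v13087 v7703 v12123 v11453 v12135 v476 v11371 v12277 v3933 w1117 w1124 w1565 w1566 v13092 v13093 v485 w5168 w5333 w5335 w5165 v13096 v13097 v2846 v12239 v12300 v390 v12258 v12213 w301 w299 w300 w302 v12228 v12225 v6253 v4438 w5358 v2308 w5740 v3426 v13057 v13098 w1156 w1152 w1572 w1586 w8798 w8773 w3774 v644 w8770 v1779 w2350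
theorem v13100 : PV l13100 := r13100 v7703 v13091 v1412 v4967 v433 v2998 v5035 v11305 v13090 w4550 v4850
theorem v13101 : PV l13101 := r13101 v7703 v1412 v433 v429 v1210 v2998 v2993 v2996 w1156 w1152 w6795 w1586 w8798 v3216 v1779 w8464 w4952 v10190
theorem v13102 : PV l13102 := r13102 v11453 v12135 w1119 w1118 w8773 w8461 v6273
theorem v13103 : PV l13103 := r13103 v13099 v11270 v12304 v480 v12245 w3549 v12315 v13087 v12193 v7703 v13091 v1412 v4967 v13100 v3430 v12288 w302 w300 w299 v433 v429 v1210 v485 v12318 w3556 v12286 v2993 v12135 w5358 v12199 v3933 w1117 w1124 w1566 v13102 w6795 v13101 v12136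
theorem v13104 : PV l13104 := r13104 v11270 v12288 w299 v480 v485 v12304 v12318 w3556 w1152 w6795 w8798 v4190 w5444
theorem v13105 : PV l13105 := r13105 v13099 v11270 v12288 v13100 w301 v7703 v13091 v1412 v433 v429 v1210 v4968 v4967 v12304 v2993 v3008 v3025 v480 v13087 v12123 v12135 v12193 v12245 v12315 w3548 v13103 v6253 w8505 v13104 w6683 v4885 v6257 v2750
theorem v13106 : PV l13106 := r13106 v7703 v13091 v1412 v433 v429 v1210 v426 v421 v4969 v13099 v480 v485 v11270 v12304 v12318 v3008 v12286 v3031 v12288 v13105 v11223 v11233 w4471 w4459 v12199 v12317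
theorem v13107 : PV l13107 := r13107 v7703 v3008 v3025 v13087 v5035 v13091 v1412 v4834 v433 v4967 v4968 v13106 v5178 v6257 w4317 v4885 v5726
theorem v13108 : PV l13108 := r13108 v13099 v480 v485 v11270 v7703 v3000 v13107 v3935 v11458 v11465 v12291 v12259 v12266 v12224 v2846 v12215
theorem v13109 : PV l13109 := r13109 v7840 v11758 w2776
theorem v13110 : PV l13110 := r13110 v5035 v5363 v13109 v4859 v7692 v4850 w3232 v2912
theorem v13111 : PV l13111 := r13111 v3216 v5035 v7840 v2533 w2774 w2776 w1120 v12172 w4804 v7692 v4864 v4851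
theorem v13112 : PV l13112 := r13112 v5035 v13099 v11270 v12288 w305 w351 w799 v7703 v3008 v325 v12286 w2865 v13108 w3470 v12304 v11364 v2820 v404 v11455 v11462 v13087 v12135 v4836 v13110 v3216 v3417 w1969 v495 w5462 v3408 w2367 v490 v1779 v13111 v1412 v433 w4556 v4968 v4862 v4864
theorem v13113 : PV l13113 := r13113 v13099 v11270 v12288 v12286 v13108 v2820 v11455 v7703 v13112 v12290 v3374 w5159 w4898 w5195 v1210 v3444
theorem v13114 : PV l13114 := r13114 v13099 v13108 v2820 v11455 v11270 v13087 v7703 v12286 v12288 v11364 v12304 w3467 w3468 w3470 v13113 w299 w300 w302 v12312 v12313 v3459 v3417 v3448 v11298 w4906 w4541 v4968 v4862 v4864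
theorem v13115 : PV l13115 := r13115 v7703 v13099 v480 v11270 v485 v13108 v2820 v404 v11455 v11462 v13114 v3935 v11465 v12291 v12259 v12266 v12224 v2846 v12215
theorem v13116 : PV l13116 := r13116 v2998 v2994 v13115 v5192 v11758 v3216 v9238 v5794 w4909 v3357
theorem v13117 : PV l13117 := r13117 v5112 v3000 v13115 v5036 v12123 v5039 v12241 w297 w3548 v12177 v13116 v4376 w342 v1243 v3431 v2274 v1137 w5364 w8481
theorem v13118 : PV l13118 := r13118 v483 v5112 v3008 v3031 v2994 v2993 v3927 v12277 v3933 w1124 w1117 w1565 v476 v13115 v5036 v13117 v12260 v12214 v12262 v390 v12227 w4315 w4312 v3807 w6726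
theorem v13119 : PV l13119 := r13119 w1159 v3927 v13115 v5036 w353 v11758 v3216 w1970 v5794 v5682 w6537 w4984 w9022 w9118
theorem v13120 : PV l13120 := r13120 v13115 v11453 v5794 v5682 v5268 v12128 v785 w4510 w4509 w4806 w4313 v3371 w8526 v3776 v2819
theorem v13121 : PV l13121 := r13121 v7840 v5112 v3011 v3000 v2998 v2995 v2994 v2993 v2996 v3927 w1152 w1159 w1569 v12277 v13115 v5036 v5039 v12241 v12194 w297 w3549 v13119 v4374 w342 v3423 w761 v494 v490 v13120 v4403 v3144 v2746 v2744 v3806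
theorem v13122 : PV l13122 := r13122 v483 v5112 v3008 v3031 v3011 v2994 v3927 w1152 v476 v472 v12277 v13115 v5036 v12135 w340 v13118 v13121 v12260 v12214 v12264 v12166 v390 v2835 v12211 v12227 v1145 v3423 w8525 v12331 v12159 v494 w5343 v12161 v3137 v3144 v3797 w4510 w4509 v3371 v2819
theorem v13123 : PV l13123 := r13123 v13115 v5794 v5682 v5268 v785 w4510 w4314 w4509 v3371 v4385 v2819
theorem v13124 : PV l13124 := r13124 v7840 v5112 v3012 v3000 v2998 v2995 v2994 v2993 v3927 v12277 v13115 v5036 v13122 v5038 v11800 v12233 v5039 v12241 v12282 v12194 v12249 v12151 v13119 w5169 v1243 v4376 v5128 v3423 v494 v490 v13123 v4403 v3144 v2746 v2744 v3806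
theorem v13125 : PV l13125 := r13125 v13124 w5168 v1243 v485 v5112 v3000 v2998 v2994 v2993 v12277 v5039 v12241 v12194 v390 v12213 v13119 v12225 v4376 v13121
theorem v13126 : PV l13126 := r13126 v5112 v3008 v3031 v12277 v13124 w5168 w5165 v13125 v12258 v12264 v12163 v1145
theorem v13127 : PV l13127 := r13127 w353 w305 w781 w776 w8817 v6253 v2308
theorem v13128 : PV l13128 := r13128 v5112 v3008 v3031 v3000 v12277 v3933 w1124 w1117 w1565 v476 v13115 v5036 v12123 v11453 v1412 v13089 v433 w4494 v483 w5167 v2734 v429 v4969 v11800 v485 v1243 v12264 v12229 w340 v4438 v12241 v390 w3549 v12227 v13127 v4376 v5128 w4567 v3423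
theorem v13129 : PV l13129 := r13129 v13115 v5036 v4838 w4912 v4376 v3431
theorem v13130 : PV l13130 := r13130 w358 v12022 w1975 v7708 v8108 w5824
theorem v13131 : PV l13131 := r13131 v8723 v9776 w4571
theorem v13132 : PV l13132 := r13132 v7935 v11217
theorem v13133 : PV l13133 := r13133 w4395 v1242 v390 w1132 w1160 v13130 v4083 v13131 w1975 v7757 v12626 v2542
theorem v13134 : PV l13134 := r13134 w2393 v8882 w5511 v8108
theorem v13135 : PV l13135 := r13135 w4395 v1242 v390 w1132 w1160 v13133 v13130 v4083 v13134 w1975 v7757 v12626 v2542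
theorem v13136 : PV l13136 := r13136 v6259 w4571 w5824 v8634 w2393 v8143
theorem v13137 : PV l13137 := r13137 w2393 v7752 v5519 v5514
theorem v13138 : PV l13138 := r13138 w4395 v1243 v5112 v1146 v1145 v13115 v2994 v5682 w4510 v3367 v3389 v4967 v5269 v3008 v325 v5036 v13135 v3319 v13136 v4083 v13137 v10372 v7935
theorem v13139 : PV l13139 := r13139 w358 v12022 w1975 v7708 v8380 w5824
theorem v13140 : PV l13140 := r13140 w4571 v9776
theorem v13141 : PV l13141 := r13141 v5112 v3008 v325 w2393 v13140 v7659 v5774 v5662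
theorem v13142 : PV l13142 := r13142 v5112 v4967 v5269 w1132 w1160 v13139 v4083 v13141 w1975 v12618 v7757
theorem v13143 : PV l13143 := r13143 w2393 v8143
theorem v13144 : PV l13144 := r13144 v6259 w5824 v13143 w1975 v12311
theorem v13145 : PV l13145 := r13145 v5039 w305 v4438 w777 v13115 w353 v5036 w340 w788 w781 v12277 v12241 w3460 w3549 v390 v12194 v12195 v3927 w1152 w1159 w1569 v13128 v13126 v12122 v5112 v4967 v5269 v3008 v325 w2865 v3031 v2995 v2994 v2993 w1575 v3933 w1124 w1117 w1566 v11453 v12135 v5794 v5682 w1969 v5268 v12131 v5643 w6537 v4794 v12130 w4510 w4789 v2744 w4509 w4792 w4791 w2367 w2370 v5387 w8465 v4876 v4868 v4160 w8526 w9073 v5133 v10323 v4189 w3780 v3389 v3367 v12256 v12255 v1145 v1146 w4395 w4869 w8377 w9152 v1242 v1243 v13138 v13142 v3319 v13144 v4083 v13137 v10372 v7935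
theorem v13146 : PV l13146 := r13146 v2995 v2994 v2996 v3927 v13115 v5036 v3216 v4867 v5388 v2744 w4896 v3806 v3144
theorem v13147 : PV l13147 := r13147 v12022 w1975 v12124 w5824 v8380
theorem v13148 : PV l13148 := r13148 w2393 v13140 v7659
theorem v13149 : PV l13149 := r13149 w1132 w1160 v13147 v4083 v13148 w1975 v7757 w3838 v4598 w5513 v8459 w9099
theorem v13150 : PV l13150 := r13150 w5824 v2619 w8947 v2707
theorem v13151 : PV l13151 := r13151 w2393 v13150 v8564 v5662
theorem v13152 : PV l13152 := r13152 w4571 v5797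
theorem v13153 : PV l13153 := r13153 v12277 v12241 v390 v5039 v12194 v12195 v3927 w1152 w1159 w1569 v13128 v13126 v12122 v5112 v3000 v4967 v13129 v5269 v3012 v3008 v325 v2995 v2994 v2993 v3933 v13115 v5036 v13146 v5794 v5682 v13145 v5268 v5643 w6537 w4510 w4511 v2744 w4509 v11800 v12233 v12151 v5387 v3349 v4876 v4868 v4160 w4484 w5169 v12225 v4189 v3389 v1145 v1146 w4869 v1242 v1243 v13149 v3319 v13144 v4083 v13151 w1975 v7763 v3003 w3838 v13152 w5513 v2618 w9076
theorem v13154 : PV l13154 := r13154 v5112 v3008 v325 v13115 v5036 v13140 w5513 v5662 v8036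
theorem v13155 : PV l13155 := r13155 v13115 v3389 v494 v5036 w1132 w1160 v13147 v13154 v12133 v8459 v8902 w5727
theorem v13156 : PV l13156 := r13156 w5824 v2619 v12514 v2707
theorem v13157 : PV l13157 := r13157 v5039 w297 v13153 w342 w767 w761 v5112 v3927 w1152 w1159 w1569 v13128 v13126 v4967 v3000 v13129 v4374 v1137 w4411 v3007 v3006 w4409 v1146 v1145 v1243 v1242 v13115 v5036 v3423 v4378 v12277 v12241 w3549 v390 v12194 v12195 v12122 v5269 v3008 v3031 v2995 v2994 w1575 v3933 v11453 v12135 v5794 v5682 w1969 v4409 v5268 v12130 w4510 w4792 w4791 w2367 v4410 v3371 w8526 w3478 v12256 v12255 w9152 v13155 v3318 v3319 v13144 v13132 w2393 v13156 v4597 v5662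
theorem v13158 : PV l13158 := r13158 v2995 v2994 v3927 v5036 v4403 v3144 v2746 v2744 v3806
theorem v13159 : PV l13159 := r13159 v5268 v6566 v6290 w3907 w2496 v3075 v9098 v3082
theorem v13160 : PV l13160 := r13160 v5643 v878 v5268 v4967 v1137 w4411 v3007 v3006 w4409 v1146 v1145 v1243 v5269 v3008 v325 v13159 v9575 v8697
theorem v13161 : PV l13161 := r13161 v5034 v4526 v1145 v3008 w2501 w2489 w2569 v8857 v3303 v4059 w4079 v8859 v3975 w1647
theorem v13162 : PV l13162 := r13162 v5112 v13161 v9961 v3075 w2463 v9700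
theorem v13163 : PV l13163 := r13163 v5112 v4967 v13162 v9763 v9703 v8873
theorem v13164 : PV l13164 := r13164 v5643 v878 v5268 v4967 v1137 w4411 v3006 w4409 v1145 v1243 v5269 v3008 w2489 w2442 v8697 v9098 v712 v3082 w3888
theorem v13165 : PV l13165 := r13165 v5643 v878 v5112 v4967 v1137 w4411 v3007 v3006 w4409 v1146 v1145 v1243 v1242 v5269 v13163 v13160 v13164 v9575 v3075 w2449 v6566 v8508 w3911 v5050 v6130
theorem v13166 : PV l13166 := r13166 v5112 v4967 v13162 v9703 v8873 v5031 v10069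
theorem v13167 : PV l13167 := r13167 v1137 w4411 v3006 w4409 v1146 v1145 v1243 v9575 v12326 v7772
theorem v13168 : PV l13168 := r13168 v5643 v878 v5112 v4967 v1137 w4411 v3007 v3006 w4409 v1243 v1242 v5269 v3008 v325 v13165 v13166 v13167 v6566 v13159 w3907 v5060 v3082 v3075 v7839 v3305
theorem v13169 : PV l13169 := r13169 v5034 v4526 v1145 v3008 w2501 w2489 w2569 v8710 v3303 v4059 w4079 v8859 v3975 w1647
theorem v13170 : PV l13170 := r13170 v5112 v13169 v9961 v3075 w2463 v9700
theorem v13171 : PV l13171 := r13171 v5112 v4967 v13170 v9703 v8873 v3075 v10069 v8753 v5029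
theorem v13172 : PV l13172 := r13172 v6566 v7053 v6290 w3907 v3303 v3075 v3082
theorem v13173 : PV l13173 := r13173 v9575 v9706
theorem v13174 : PV l13174 := r13174 w2542 w2569 v9342 v12148 w1647 w6063 w6032 w1528
theorem v13175 : PV l13175 := r13175 v13115 v3371 v3367 v3389 v5643 v878 v5268 v5112 v4967 v1137 w4411 v3007 v3006 w4409 v1146 v1145 v1243 v1242 v5036 v3423 v5269 v3008 v325 w2393 v13140 v13148 v13154 w5513 w5099 v5662 w6714 v2707 w8906 v13168 v13171 w36 v4422 v13173 v6566 v13172 w4166 w4076 w3907 w3911 w4227 v13174 w2449 v4069 v5050 v6130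
theorem v13176 : PV l13176 := r13176 v5268 v5112 v2994 v13115 v5682 w4510 v3371 v3389 v5036 v3423 v494 w4517 v2993 w6537 w4318 v4967 v1137 w4411 v3007 w4409 v1145 v1242 v5269 w1132 w1160 v13147 v13175 w1975 v8459 w5824 v4598 v2707 v7757 w9024
theorem v13177 : PV l13177 := r13177 w2393 v13156 v4597 v5662
theorem v13178 : PV l13178 := r13178 v2561 v13152 v3003
theorem v13179 : PV l13179 := r13179 v12277 v12241 v390 v5039 v12194 v12195 v3927 w1152 w1159 w1569 v13128 v13126 v12122 v5112 v3000 v4967 v13129 v5269 v2992 v3008 v325 v2998 v2995 v2994 v3933 v13115 v5036 v13153 v4374 v4378 v1137 v3423 v1243 w4409 w4411 v494 v1146 v3006 v3007 v490 v13158 v5794 v5682 v4409 v4406 v13157 v5268 v5643 w4510 w4314 v4410 v12221 v12151 v12209 v3371 v4385 v12225 v5133 v13176 v3319 v13144 v13177 w1975 v13178 w5513 w5099 v8215 v2707 v7763 w8891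
theorem v13180 : PV l13180 := r13180 v3927 w1152 w1159 w1569 v13128 v13126 v12277 v12241 v12228 v13179 v12153 w5168 w5165
theorem v13181 : PV l13181 := r13181 v12124 w5824 v8380
theorem v13182 : PV l13182 := r13182 w2393 v5112 v429 v3007 v3008 v325 v13154 v13140 v13131 v8882 w5513
theorem v13183 : PV l13183 := r13183 v5112 v3008 v325 v4604 v6097 v5662
theorem v13184 : PV l13184 := r13184 v3927 w1160 v13115 v5112 v2994 v5036 v2993 w4502 w6726 v5794 v494 v3137 v2996 v3779 w4524 v4160 w4525 v429 v3007 w2393 v13181 v4083 v13182 v13183 v8036 w5511 v11211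
theorem v13185 : PV l13185 := r13185 v5112 v2996 v13115 v5036 v494 v3137 v3779 w4525 v3927 v2993 w4502 w6726 v5133 w4395 v1242 v1145 v5269 w1132 w1160 v13184 v12133 w1975 v8459 v8717 w5727 v8902
theorem v13186 : PV l13186 := r13186 v6261 w5824 v8143
theorem v13187 : PV l13187 := r13187 w2393 v13186 v4083 v13137
theorem v13188 : PV l13188 := r13188 v11660 v9437
theorem v13189 : PV l13189 := r13189 w5513 v8127
theorem v13190 : PV l13190 := r13190 v13115 v5112 v2994 v3927 v5036 v2993 v12227 w4502 w6726 v5794 v494 v3137 v2996 v3779 w4524 v4160 w3478 w4525 w4395 v1243 v429 v3006 v1146 v1145 w340 v4967 v5269 w1152 w1159 w1575 w353 w788 w8377 w9152 v13185 v3318 v3319 v13187 w1975 v13132 w358 v13189 w5824 v8636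
theorem v13191 : PV l13191 := r13191 w5727 v6007 v8724
theorem v13192 : PV l13192 := r13192 v494 v13115 v5036 w2393 v13181 v4082 v13154 v13191 w5513 v5662 v8036
theorem v13193 : PV l13193 := r13193 v13115 v5036 v5112 v2993 w4502 w6726 w1132 w1160 v13192 v12133 w1975 v8459 v8717 w5727 v8902
theorem v13194 : PV l13194 := r13194 w2393 v13177 v13186
theorem v13195 : PV l13195 := r13195 w358 v13189 w5824 v8636
theorem v13196 : PV l13196 := r13196 v5112 v3000 v2995 v2994 v2993 v2996 v3008 v3927 w1152 w1159 w1569 v12277 w1117 v3933 v476 v472 v13115 v5036 v11453 v12135 v3011 v3031 v13128 v13126 v4967 v5269 v13129 v13180 v5038 v12264 v12266 w340 v429 v1145 v1146 v3006 v3007 v12331 v12159 v12218 w4452 w4543 w4395 v12161 w4705 w4706 v1242 v1243 v1218 v12260 v12250 v12214 v12164 v12166 w4863 v390 v2835 w3460 v12211 w5341 v12227 v12248 v3423 w8525 v1700 v494 w4502 w5343 w2350 v3137 w6726 v3779 v5133 v5794 w4804 w4524 w4525 v4160 v13190 v4410 v13193 v3318 v3319 v13194 v12133 w1975 v13195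 v4082 v13178 v13132 v7926 w5407 v2708 w8839
theorem v13197 : PV l13197 := r13197 v3927 w1152 v12277 v3933 v476 v472 v13115 v5036 v12135 v5112 v2994 v13196 v2846 w3543 v12239 v12300 v390 v12174 v1412 v13089 v9238 w4494 v483 v485 v12258 v12997 w340 v12227 v11267 v3137 w8525 w5356
theorem v13198 : PV l13198 := r13198 v3927 v5036 w4510 w4504 v3807 v3806 w6726
theorem v13199 : PV l13199 := r13199 v5036 w340 w781 w761 w353 w342
theorem v13200 : PV l13200 := r13200 v11453 v12135 v485 w4481 w5398 w5399 v12244 v12181 w8374 w8525 w3549 w8526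
theorem v13201 : PV l13201 := r13201 v13115 v13119 v4967 w4905 w4899 v4846 v2915
theorem v13202 : PV l13202 := r13202 v13115 v5274 v2993 v2994 v13198 v3000 v2998 v2996 v5036 v4376 v4374 v3423 w5506 w5008 w5004 v2915 v4385
theorem v13203 : PV l13203 := r13203 v13115 v5274 v2993 v2994 v13198 w5380 v5178 v2998 v2996 w5169 w5483 v1243 v13202 v13201 v1412 v4834 v4967 w4315 w4317 v3807 v5726
theorem v13204 : PV l13204 := r13204 v5039 v12194 v12195 v13197 v5274 v3927 w1152 w1159 w1569 v13115 v5036 v2993 v2994 v2992 v13198 v13203 w4481 v12221 w340 w297 v13200 v13199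
theorem v13205 : PV l13205 := r13205 v3927 v5036 v5794 v3144 v3806
theorem v13206 : PV l13206 := r13206 v13115 v4376 v4375 v5798 v3375 v4404 w2899 v4639 v5275
theorem v13207 : PV l13207 := r13207 v13115 v12135 v13206 v5831 w1969 v4639 v5169 w2370 v5275 v12171 v1770 w2899 w3059 v10267
theorem v13208 : PV l13208 := r13208 v494 v433 v429 w2393 v7733 v4083 v13148 v11962 v9140
theorem v13209 : PV l13209 := r13209 v12662 w5513 v11377
theorem v13210 : PV l13210 := r13210 v12268 v5276 v4655 v1316 w1160 v13208 v13209 v12618 v7495 v4603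
theorem v13211 : PV l13211 := r13211 v7495 v5519
theorem v13212 : PV l13212 := r13212 v404 w358 v13186 v2596 w9045 w3838
theorem v13213 : PV l13213 := r13213 v404 v1357 w2393 v13211 w5513 v13212 v4597 v4083 w3838 w9033
theorem v13214 : PV l13214 := r13214 v4438 v13115 v5039 w297 v13199 w771 v12277 v3933 w1124 w1117 w1566 v13197 v13204 v1357 v476 v472 v4655 w4482 w4491 v12274 v483 v5274 v5036 v433 v429 v1254 v3442 w4502 w4561 w4537 w4550 w4529 v5276 v494 v490 v13205 v13207 v3386 v3367 w3478 v3389 v2901 v404 w5167 w5193 w5380 w5469 v1242 w4498 v5113 v1360 v12195 v3927 w1152 w1159 w1575 w1569 v11453 v12135 v5831 v4848 w1969 v4639 v2817 v2819 w2367 v5275 v12171 v12228 w8377 w9152 w3056 v12245 v12181 w8680 w8986 w2889 v13210 v3319 v13213 w1975 v12311 v13188 v6707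
theorem v13215 : PV l13215 := r13215 v494 v433 v429 w2393 v7733 v11962 w5513 v9140 v4608 v13148 v2707 w9147
theorem v13216 : PV l13216 := r13216 v404 v503 v433 v429 w1160 v13215 w1975 v13209 v9714 v12618 v4603
theorem v13217 : PV l13217 := r13217 v1357 w2393 v13211 w5513 v13212 v6341 v4597 v2544
theorem v13218 : PV l13218 := r13218 v13115 v12277 v3933 w1124 w1117 w1566 v13197 v13204 v1357 v476 v472 v4655 w4482 w4491 v12274 v483 v5274 v5036 v433 v429 v1254 v3442 w4502 w4561 w4537 w4550 w4529 v5276 v494 v490 v13205 v13207 v3386 v3367 w3478 v3389 v3025 v2918 v2901 v2895 w3573 w5167 w5193 w5380 w5469 w5468 v1242 v5113 v1360 v1316 v5039 v12195 v3927 w1152 w1159 w1575 w1569 w1565 v12123 v11453 v12135 v4438 w297 v13199 w771 v13214 w342 v4375 v4377 v4404 v5170 v2274 v4386 w1969 w3117 w8787 v2817 v2819 w2367 w3548 w3798 w9152 v12245 w8680 w8986 v12270 v12268 v13216 v3319 v13217 w1975 v12311 v13188 v6707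
theorem v13219 : PV l13219 := r13219 w5824 v8380
theorem v13220 : PV l13220 := r13220 w2393 w1160 v404 v494 v490 w358 v13181 v13219 w5513 v12090 v7243 w3838
theorem v13221 : PV l13221 := r13221 w1160 v5275 v13220 v4083 v13148
theorem v13222 : PV l13222 := r13222 v7495 v4598
theorem v13223 : PV l13223 := r13223 v404 v4655 v433 v429 v1254 v5276 v1357 w1160 v13221 w1975 v13209 v4083 v13222 w5513 v4603 w9099 w3838
theorem v13224 : PV l13224 := r13224 v13115 v4655 v433 v429 v1254 v3386 v3367 v3389 v2901 v5276 v5036 v3442 w4529 v494 v490 v13205 w4550 w4537 w4561 v5113 v13197 v5274 v3927 v5831 v4848 v4639 v2817 v2819 v5275 v13223 v3319 v13213 w1975 v12311 v4083 v12087 w5513 v2618 v6707 v8214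
theorem v13225 : PV l13225 := r13225 v11930 w2442 v3308 v11673 w6297
theorem v13226 : PV l13226 := r13226 v4053 v8553 v8851 w3938 w4036 v4008 v3997 w947 w1647 v5808
theorem v13227 : PV l13227 := r13227 v4655 v433 v429 v1254 v5113 v1316 v13225 v3068 v3075 w2449 v13226 v7031 v8660
theorem v13228 : PV l13228 := r13228 v786 v4655 v433 v429 v1254 v1316 v5274 v5034 v13227 v4763 v7613 v2779 w3895 v5978 v5977 v5020 v5028 v5015 v5265
theorem v13229 : PV l13229 := r13229 v4655 v433 v429 v5276 v1360 v13228 v6595 v10973 v712 w3936 w2453 v6290 v6321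
theorem v13230 : PV l13230 := r13230 v4053 v8508 v8851 w3938 w4036 v4008 v3997 w947 w1647 v5808
theorem v13231 : PV l13231 := r13231 v4655 v433 v429 v1254 v5113 v1316 v13225 v3068 v3075 w2449 v13230 v7031 v8660
theorem v13232 : PV l13232 := r13232 v786 v4655 v433 v429 v1254 v1316 v5274 v5034 v13231 v4763 v7613 v2779 w3895 v5978 v5977 v5020 v5028 v5015 v5265
theorem v13233 : PV l13233 := r13233 v5276 v1360 v706 v712 w5985
theorem v13234 : PV l13234 := r13234 v5113 v13229 v13232 w35 v6595 w113 w869 v13233 v3067 w2442 w2447 w2674 w2638 v6508 w4132 v4002 w8979 w1647 w5929 w1758 w3994 w4035 w6188 v5808 w1530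
theorem v13235 : PV l13235 := r13235 v4053 v8553 v8851 w3938 w4036 v4008 v3997 w947 w1647 v7171 w6164
theorem v13236 : PV l13236 := r13236 v4655 v433 v429 v1254 v5113 v1316 v13225 v3068 w2691 v3075 w2449 v13235 v7031 v8660
theorem v13237 : PV l13237 := r13237 v786 v4655 v433 v429 v1254 v1316 v5274 v5034 v13236 v4763 v7613 v2779 w3895 v5978 v5977 v5020 v5028 v5015 v5265
theorem v13238 : PV l13238 := r13238 v4655 v433 v429 v5276 v1360 v13237 v6595 v10973 v13233 w3936 w2453 v6290 v6321
theorem v13239 : PV l13239 := r13239 v4053 v8508 v8851 w3938 w4036 v4008 v3997 w947 w1647 v7171 w6164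
theorem v13240 : PV l13240 := r13240 v4655 v433 v429 v1254 v5113 v1316 v13225 v3068 w2691 v3075 w2449 v13239 v7031 v8660
theorem v13241 : PV l13241 := r13241 v786 v4655 v433 v429 v1254 v1316 v5274 v5034 v13240 v4763 v7613 v2779 w3895 v5978 v5977 v5020 v5028 v5015 v5265
theorem v13242 : PV l13242 := r13242 v5276 v13234 v13238 v13241 v6595 v13233 w2442 w2453 w2447 v6508 v6321 v4041 v3305
theorem v13243 : PV l13243 := r13243 v5034 v13236 v7613 v7154
theorem v13244 : PV l13244 := r13244 v4655 v433 v429 v5276 v1360 v13243 v6595 v10973 v13233 w3936 w2453 v6290 v6321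
theorem v13245 : PV l13245 := r13245 v5034 v13240 v7613 v7154
theorem v13246 : PV l13246 := r13246 v786 v5276 v5113 v5274 v13242 v13244 v13245 w35 v6595 w113 v13233 v3067 w2442 w2453 w2447 w2638 v6508 v6321 v3305 v4002 v7839 w1610 v12148 w1647 w5929 w1614 w3994 w4035 w6188 v5808 w1530
theorem v13247 : PV l13247 := r13247 v4053 v8549 v8851 w3938 w4036 v4008 v3997 w947 w1647 v7171 w6164
theorem v13248 : PV l13248 := r13248 v4655 v433 v429 v1254 v5113 v1316 v13225 v3068 w2691 v3075 w2449 v13247 v7031 v8660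
theorem v13249 : PV l13249 := r13249 v786 v4655 v433 v429 v1254 v1316 v5274 v5034 v13248 v4763 v7613 w3895 v5978 v5025 v5020
theorem v13250 : PV l13250 := r13250 v3311 v4070
theorem v13251 : PV l13251 := r13251 w1160 v786 v2901 v4655 v5113 v1357 v5274 v12135 w2393 v13220 v11962 v13148 w5513 v4608 v2707 v2791 w9147 w8906 w6714 v1127 v13246 v13249 v6595 v13233 w2442 w2453 w2447 v13250 v2779 w3895 v6301 v5809 v6130 v8118
theorem v13252 : PV l13252 := r13252 v404 v503 v4655 v433 v429 v1254 v5276 w1132 w1160 v13251 w1975 v13209 v9714 w5513 v4603 w3838 w9108 w9099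
theorem v13253 : PV l13253 := r13253 w5825 v2618 v6707 v2707 w8891 w9153
theorem v13254 : PV l13254 := r13254 v5039 v13197 v5274 v3927 w1152 v12277 v3933 w1124 w1117 w1566 v476 v472 v13115 v5036 v12195 v12194 v13204 v1357 v1360 v5113 v4655 v5276 v433 w4498 w4491 w4482 v429 v12274 v1254 v483 w5167 v3442 v485 v1242 v494 w5470 w4502 w4561 w4537 w4550 w4529 v490 v13205 v3025 v13207 v3386 w5193 v2895 v2901 v2918 v3389 v3367 v13218 v12280 v12302 v12279 v12221 v12245 v12282 w3556 v12209 v12225 v13224 v4375 v4377 v4404 v5170 v4386 v4640 v4639 w2765 w2783 w3117 v2817 v2819 v13252 v3319 v13217 w1975 v12311 v13253 w5511 v7495 v5787 w2924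
theorem v13255 : PV l13255 := r13255 v3927 w1152 w1159 w1569 v13115 v5036 v11453 v12135 v5039 v13254 v2846 w3542 w3543 v12252 v390 v12249 v485 w5333 v12213 v12225 w340 w297 v12227 v13199 w8817 w8526 w5749 w8525
theorem v13256 : PV l13256 := r13256 v5274 v13115 v2996 v2993 v2994 v2998 v3009 v13198 v12264 v429 w4395 w4888 w4884 v433 v1243 v2915 v1412 v13202 v4846
theorem v13257 : PV l13257 := r13257 v1360 v7495 v11660
theorem v13258 : PV l13258 := r13258 w358 v8126 w3838 v2592 v5768
theorem v13259 : PV l13259 := r13259 v4655 v433 v429 v1254 v1138 v1242 v7495 v11962 v6007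
theorem v13260 : PV l13260 := r13260 v12267 v12268 v494 v4655 v433 v429 v1254 v1316 w2393 v7733 v4082 v13259 w5513 w5407 v12289 w3749 w3824 v8367 w9147
theorem v13261 : PV l13261 := r13261 v503 v4655 v433 v429 v1254 v5276 w1132 w1160 v13260 w1975 v13209 v9714 v4082 w5407 v4603 v12289 w3749
theorem v13262 : PV l13262 := r13262 v13115 v5036 v13255 v5038 w340 v13197 v3927 w1152 w1159 w1575 v12277 v3933 v476 v472 v12135 v13256 v5113 v4655 v5276 v433 w4491 w4482 v429 v1254 v3442 v12157 v12160 v494 w4529 v2942 v12231 v12158 v490 v12260 v12240 v12165 w5461 v13205 v485 v12259 v3804 v12268 v12163 v12167 w8679 w3058 w3072 w3572 w2984 w1969 v4639 v3137 w3563 w2367 v4159 v3375 v2819 w5376 v2817 v13261 v3319 v13217 w1975 v13257 w5513 v13258 v13253 v6707 v1594 w9152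
theorem v13263 : PV l13263 := r13263 v12277 v3933 v476 v472 v13115 v5036 v12135 v3927 w1152 v13255 v5038 w340 v13262 v2846 w3543 v12239 v12300 v12174 v390 v12258 v11372 v12211 w8525 v1412 v12227 w5343 w5356 v3137 w4553 v4638
theorem v13264 : PV l13264 := r13264 v4846 v13109 v11802 v4838
theorem v13265 : PV l13265 := r13265 v3000 v2998 v2996 v13115 v5036 v501 v498 v495 v3431 v6132 v4397 v4395 w4554 v1412 v13264 v4376 v4385 v11802
theorem v13266 : PV l13266 := r13266 v13265 v2998 v2996 v13115 v5036 v494 v3431 v2720 v6132 v4397 v4395 w4554 v2741 v1412 v4846 v4385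
theorem v13267 : PV l13267 := r13267 v5036 v4401 v6132 v4399 v3447
theorem v13268 : PV l13268 := r13268 v6253 v2274 w342 v4846 v13109 v4967 w4907
theorem v13269 : PV l13269 := r13269 v13263 v12277 v3933 w1124 w1117 w1565 v13115 v5036 v12123 v3008 v2996 v2998 v3000 v13265 v13266 w5364 v3423 v13267 v4395 w4872 v4397 v1217 v3450 v13268 v668 w8481
theorem v13270 : PV l13270 := r13270 v11453 w8624 v13115 w5487 v3375 v5193 w3563
theorem v13271 : PV l13271 := r13271 w3556 v4655 v433 v429 v1254 v1360 v1357 v1316 v13263 v12277 v3933 w1124 w1117 w1565 v13115 v5036 v12135 w1158 w1156 w1152 w1572 w1589 w8525 w5356 w4545 v5987 v6169 w5460 v13270 w5380 v3386 v9235 v3367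
theorem v13272 : PV l13272 := r13272 v13115 v5036 v5039 w297 v12194 v13269 v4655 v433 v429 v1254 v3442 v12277 v476 w4491 v12274 v483 w5470 v1360 v1357 v4438 v13199 w771 w340 v3933 w1116 v12135 w3556 w3464 v12255 v12152 w5339 w8814 w2345 v13271 w1118 w8785
theorem v13273 : PV l13273 := r13273 v5128 v4386 w2799 w2773
theorem v13274 : PV l13274 := r13274 v13115 v5036 v1316 v1357 v5112 v4655 v433 v429 v1254 v3442 v494 w4567 w4550 w4540 v5987 v6169 v4397 v13273 v4848 v5725 w2773 v4838 w2799
theorem v13275 : PV l13275 := r13275 v3009 v2994 v2996 v12277 v5036 v3216 v6132 v13267 v3447 v12194 v4416 v5039 w4875 v12264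
theorem v13276 : PV l13276 := r13276 v13115 v5036 v13263 v13274 v13266 v3423 v13265 w5380 v2996 v3008 v12277 v3012 v3009 v13275 v4395 w4872 w4884 w4960 v4397 v1218 v12264 v1243 v12314 v12251 v12195 v390 v12234 v13272
theorem v13277 : PV l13277 := r13277 v13115 v5036 v12123 v12277 v3933 w1117 w1124 w1565 v13263 v13274 v13266 w5364 v3423 v13276 w3541 v12300 w8481 v6253
theorem v13278 : PV l13278 := r13278 v12292 v2994 v3216 v5794 v10323 w4696 v12172 v12131
theorem v13279 : PV l13279 := r13279 v13277 v480 v485 v11270 v12304 v12318 w3556 v13115 v12288 w297 v13199 v12286 v12292 w2880 v2994 v2993 v2996 v3008 v5036 w340 v11364 v11453 v12135 v3927 w1159 w1152 w1569 v13278 v3137 v11267 v494 v3776 w8525 v498 w4872 v1218 v3389 w3564 w8817 w5776 w4993 w4990 v3807 w6726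
theorem v13280 : PV l13280 := r13280 v6132 v3457
theorem v13281 : PV l13281 := r13281 v13115 v5036 v11453 v12135 w1156 w6726 w1572 w1589 w1969 v4420 w8786 w2367 w4943 w4970 v9235 w4843 w4837 w4800 v5248 v4850
theorem v13282 : PV l13282 := r13282 v5036 w6694 w6762 v4420 v5682
theorem v13283 : PV l13283 := r13283 v13115 v13282 v3933 w1117 w1124 w1565 v13281
theorem v13284 : PV l13284 := r13284 v13115 v11270 v12288 w297 v13199 v12304 v11364 v12286 v5036 v12193 v4438 w771 v13282 w6726 v4420 v5682 v13283 v12199 v12206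
theorem v13285 : PV l13285 := r13285 v13115 v5036 v13277 v480 v11270 v12292 v12286 v12288 v485 v12304 v3008 v2996 v2993 v2994 v2995 v2998 v3000 v3009 v12318 v13279 v13265 v13266 v3423 v13280 v4395 w4872 v4397 v1217 v1218 v3450 v3389 w4891 w4901 w3564 v4969 v4967 v13284 v11223 v11233 w4482 w4471 w4459 v12198 v12173 v12199 v12317
theorem v13286 : PV l13286 := r13286 v13285 v11371 v480 v485 v11270 v11362 v3000 v2994 v13115 v5039 v11465 v12254 v4967 v12232 v13129 v12224 v1412 v12203 v1243 v5794 v1137 v13146 v4374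
theorem v13287 : PV l13287 := r13287 v11371 v480 v485 v11270 v11362 v3935 v12291 v12259 v12266 v12224 v2846 v12215
theorem v13288 : PV l13288 := r13288 v13115 v5036 v12135 v13285 v3935 v11362 v11371 w1127 v3933 v2995 v3000 v480 v11270 w1124 v485 v13287 v5039 v11465 v4438 v13286 v12254 v4967 v12232 v13129 v12193 v12224 v1412 v3011 v3012 v12192 v12236 v1243 v3431 v12321 v12175 v12129 v1137 v498 w4869 w4295 w5377 v4374 v1210 w4346 w4339 w305 v3389 v4867 w777 w3554 w1969 w2370 w8465 w1576 w1591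
theorem v13289 : PV l13289 := r13289 v3216 v13288 v13115 v5036 v12123 v10276 v10278 v1145 v494 w4529 v4188 v3807 v4639
theorem v13290 : PV l13290 := r13290 v12277 v3933 w1124 w1117 w1565 v476 v472 v13288 v2820 v13115 v13289 w3469 v12300 v1412 v433 v4967 v429 v2819 v12239 v12174 w4541 v4638
theorem v13291 : PV l13291 := r13291 v13115 v5036 w340 v13290 v12277 v3933 w1124 w1117 w1565 v3927 w1152 v13288 v12123 v12135 w3467 w3469 v3010 v10276 v10278 v1145 v494 w4472 v3136 v12189 w8679 w8374
theorem v13292 : PV l13292 := r13292 v13290 v3008 v12277 v3933 v476 v472 v3927 w1152 w1159 w1575 w1569 v13288 v2820 v13115 v5036 v11453 v12135 w340 v13291 v2846 v12239 v12300 v12174 v390 w297 v1412 v13089 v13199 v433 w4482 v483 w4688 v429 v12963 v485 v1218 v4438 v12227 v3444 v3389 w771 v494 v3427 w5469 w5470 w5487 v3136 w8817 w8679 v1669 w8751 v1590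
theorem v13293 : PV l13293 := r13293 v13288 v13115 v12123 w3469 v11800 v10276 w4484 v1145
theorem v13294 : PV l13294 := r13294 v12277 v3933 w1124 w1117 w1565 v476 v13292 v5038 v13293 v2846 v12252 v12300 v12249 v1412 v12997 w4494
theorem v13295 : PV l13295 := r13295 v4655 v433 v429 v5112 v5274 v13288 v2926 v2920 v2896 w3128 v13115 w4567 w4502 w4529 w4532 v5169 v5171
theorem v13296 : PV l13296 := r13296 v13288 v13115 v5036 v12123 v12277 v3933 w1117 w1124 w1565 v13294 v4655 v433 v429 v1254 v13295 w5364 v10278 w9097 w3469 v6253 v12300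
theorem v13297 : PV l13297 := r13297 v11453 v12135 w5452 w5453 w8680 w8679
theorem v13298 : PV l13298 := r13298 v5036 v3216 v5794 v2536 v4411 v2535
theorem v13299 : PV l13299 := r13299 v13288 v13115 v5036 v12135 v3927 w1159 w1152 w1569 v13296 v11270 v12292 v12286 v12288 w340 v12304 w3467 w3468 w2880 w297 v13199 v13297 v3444 v1210 v429 w4696 w4874 v433 v3007 v12172 v12131 v1412 w8679 w8374 v13298 w5447 v4186
theorem v13300 : PV l13300 := r13300 v12277 v3933 w1124 w1117 w1565 v13299 v13288 v2820 v404 v13115 v5036 v12123 w3469 v13293 v13057 v10276 v10278 w340 v1145 v494 v3427 v1209 v1210 w4540 v1102 v12314 v3389 w775 v2274 v12195 w342 v3351 w5197 v1243 v6169 v3449 v4400 v4402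
theorem v13301 : PV l13301 := r13301 v476 v472 v13299 v13288 v13115 v5036 v3008 v13300 v12252 v12300 v1412 v13089 v433 w4482 w5167 w4688 v429 v1243 v1218 v3444 v494 v3427 w4540 v3455 v6169
theorem v13302 : PV l13302 := r13302 v4655 v433 v429 v13288 v2910 v13115 v5036 v494 v3427 w4540 v4396 v3449 v4400
theorem v13303 : PV l13303 := r13303 v13299 v13288 v13115 v5036 v12123 v12277 v3933 w1117 w1124 w1565 v13301 v4655 v433 v429 v1254 v13302 w5364 v10278 w9097 w3469 v6253 v12300
theorem v13304 : PV l13304 := r13304 v12135 v12134 w2385 w2367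
theorem v13305 : PV l13305 := r13305 v13115 v13303 v11270 v12288 w297 v13199 v480 v485 v12304 v12318 v13288 v12286 w3470 w3468 w3467 v5036 w340 v13304 v12135 w5450 w5453 v3427 w8623 w8679 v13297 v11223 w1569 w1578 v4438 w8626 w771
theorem v13306 : PV l13306 := r13306 v13288 v13115 v5036 v13299 v13303 v12292 v12286 v3008 w3470 v13305 v498 v3444 v503 v1210 v1218 w4863 w4874 v5475
theorem v13307 : PV l13307 := r13307 v12135 v13115 v5036 v13288 v13306 v11362 v11371 w1127 v13287 v480 v11270 v5039 v11465 v485 w340 v12254 v4967 v12232 v12224 v12208 w4726 w3467 v2992 v1243 v12154 v12220 v1138 w8623 v1276 w8323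
theorem v13308 : PV l13308 := r13308 v11371 v12277 v3933 v476 v472 v13307 v3213 v3216 v12196 v12229 v12261 v11666 v3797 v4969 w4314 v3006 v4835 v4380 v4388
theorem v13309 : PV l13309 := r13309 v11487 w2812 v11720
theorem v13310 : PV l13310 := r13310 v3240 v13309 v1000 v7111 v2882 v11933 v4348 v437 v3652
theorem v13311 : PV l13311 := r13311 v3008 v325 v1209 v1210 v424 v418 v4967 v13310 v4966 v878 v11496 v5034 v4502 v10801 v11568 w102 v10807 w2542 v5068 v12148 w1609 v3303 v7770 v11613 v6709 v3074 v2777 v4017 w818 w825 v11492 w1657 v2882 v2890 v11671 w1612 v339 w182 v11582 v11485 v11556 w388 w1098 w884 v11482 w2576 v4679 w4368 w6890 w6870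
theorem v13312 : PV l13312 := r13312 v4967 v4966 v424 v418 v1210 v1209 v3008 v325 v13310 w1943 w2014 v13311 v11762 v2890 v11671 w182 v11485 v8907 w388 v3662 w5087 w6890 w6870
theorem v13313 : PV l13313 := r13313 w1943 v11492 w2014 v2890 v11485 v8907 v3659 w5087 w6890 w6870
theorem v13314 : PV l13314 := r13314 v3240 v8907 v4764 v3659 v3675 w5035
theorem v13315 : PV l13315 := r13315 w182 w388 v13313 v13314 w2812 v11720
theorem v13316 : PV l13316 := r13316 v11492 v11671
theorem v13317 : PV l13317 := r13317 v13315 v1000 v13316 v3240 v7111 v2882 v11933 v4348 v437 v3652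
theorem v13318 : PV l13318 := r13318 v1210 w1943 v11762 w2014 v2890 v11485 v8907 v3662 w5087 w6890 w6870
theorem v13319 : PV l13319 := r13319 v424 v418 v3008 v325 w182 w388 v13318 v13314 w2812 v11720
theorem v13320 : PV l13320 := r13320 v11762 v11671
theorem v13321 : PV l13321 := r13321 v1210 v1209 v1000 v13320 v3240 v7111 v2882 v11933 v437 v4348 v3652
theorem v13322 : PV l13322 := r13322 v4966 v4967 v13321 w182 w388 v424 v418 v1210 v1209 v3008 v325 v3213 v3216 v13310 v13312 w1942 v11762 w2012 v2890 v11485 v8907 v13311 v3662 w5087 w6890 w6870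
theorem v13323 : PV l13323 := r13323 v1210 w1942 v11762 w2012 v2890 v11485 v8907 v3659 w5087 w6890 w6870
theorem v13324 : PV l13324 := r13324 v13314 w2812 v11720
theorem v13325 : PV l13325 := r13325 v4967 v4966 v424 v418 v1210 v1209 v3008 v325 v3213 v3216 v13321 w182 w388 v13322 v13324 v13323 v13317 v13319
theorem v13326 : PV l13326 := r13326 w6890 w6870
theorem v13327 : PV l13327 := r13327 v424 v418 v1210 v3008 v325 w182 v13309 w388 w1943 v11762 v2882 v2890 v11582 v11485 v3241 w1807 w1982 v13326 w5081 w5083 v11945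
theorem v13328 : PV l13328 := r13328 v1000 v3240 v7111 v2882 v11933 v437 v8521 v3652
theorem v13329 : PV l13329 := r13329 v1210 v1209 v13328 v13320
theorem v13330 : PV l13330 := r13330 v4967 v4966 v424 v418 v1210 v503 v3008 v325 v3213 v3216 v13325 v13329 w182 v13327 w388 v13324 v13323 v13315 v13319
theorem v13331 : PV l13331 := r13331 v2882 v2890 v11582 v11485 v3241 w1807 w1982 v13326 w5081 w5083 v11945
theorem v13332 : PV l13332 := r13332 v12147 w1943 v13331 w3280 v11529 w5047 w8515 w6949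
theorem v13333 : PV l13333 := r13333 v11371 v12255 w182 w180 w388 v13332 v13309 v13324
theorem v13334 : PV l13334 := r13334 v11671 v2973 v7605 v11957
theorem v13335 : PV l13335 := r13335 v4967 v4966 v11371 v12253 v12227 v485 v483 v13089 v12150 v12255 v424 v418 v1210 v1209 v503 v3008 v325 v12277 v3933 v13330 v13333 v1000 v13334 v3240 v7111 v2882 v11933 v437 v4354 v3652
theorem v13336 : PV l13336 := r13336 v1210 v11762 v2882 v11582 v3677 v436 w5029 v3715 v11945 v3705 v4352
theorem v13337 : PV l13337 := r13337 v424 v418 v3008 v325 v13336 v13309 v13324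
theorem v13338 : PV l13338 := r13338 v13337 v13321 v13329
theorem v13339 : PV l13339 := r13339 v2882 v11582 v3677 v436 w5029 v3715 v11945 v3705 v4352
theorem v13340 : PV l13340 := r13340 v12147 v13339 w3280 v11529 w5047 w8515 w6949
theorem v13341 : PV l13341 := r13341 v11371 v12255 w180 v13340 v13309 v13324
theorem v13342 : PV l13342 := r13342 v4967 v4966 v11371 v12253 v12227 v485 v483 v13089 v12150 v12255 v424 v418 v1210 v1209 v3008 v325 v13335 v13338 v13341 v1000 v13334 v3240 v7111 v2882 v11933 v437 v4354 v3652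
theorem v13343 : PV l13343 := r13343 v1210 w1943 v11762 v13331
theorem v13344 : PV l13344 := r13344 w1645 w1629 w1753 w6001 w6266 w4049
theorem v13345 : PV l13345 := r13345 v3240 v3241 v1138 v1137 v4967 v878 v1210 v11371 v12277 w1117 v3933 v2882 v2889 v2890 v2885 v8907 v4764 v3659 w1098 v3675 v3687 v442 w5087 w5086 w4373 w4385 w5032 w5022 w1179 w1183 w5045 v11496 v3642 v13326 w6850 w6835 v3699 v5034 v4502 v10801 v11568 w1987 w2007 w2699 v4500 v4526 w101 w2442 v5068 w2450 w2483 w1982 w7018 v4677 w38 w54 w2486 v3303 v4059 v8702 w3895 w3917 w2478 v4046 v4009 w818 w877 w821 v13344 w5964 w3931 w3933 w6266 w6201 w1659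
theorem v13346 : PV l13346 := r13346 v4966 v4967 v1138 v1137 v13321 w182 w387 w388 w4568 v424 v418 v503 v3008 v325 v2992 v11371 v12277 v3933 v13322 v13343 v13345 w2812 v11720
theorem v13347 : PV l13347 := r13347 v1210 v11371 v12277 w1117 v3933 v476 v472 v3213 v3216 v12146 w1942 w1943 v11762 w2004 w2005 v2882 w3253 v2883 v2884 v2888 v11582 w1098 v3677 w1178 v436 w5041 w5043 w5044 w7017 v3715 w7016 w376 w173 w365 w364 w8335 w1181 v11549 w6897 w2013 w2009
theorem v13348 : PV l13348 := r13348 v2889 v8907 v4764 v3659 w1098 w5086 w1183 w6850 w6889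
theorem v13349 : PV l13349 := r13349 v424 v418 v3008 v325 v11371 v12277 v3933 v13347 v3240 v13309 v13348 w2812 v11720
theorem v13350 : PV l13350 := r13350 v11371 v3010 w4472 v12189 v12253 w3556 v1642 w4568 v4967 v4966 v3009 v12277 v12264 v12227 v485 v12244 w3549 v483 v12177 v13089 v12153 v12249 v12150 v12255 v12188 v2992 v13342 v1137 v1138 v13321 w182 w387 v13349 w8574 v13346
theorem v13351 : PV l13351 := r13351 w182 w387 w388 v4967 v4966 v424 v418 v503 v3008 v325 v13327 v13343 v13324 v13345 w2812 v11720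
theorem v13352 : PV l13352 := r13352 v4967 v11371 v12277 v3009 v12264 v3010 w4472 v12189 v12253 v12227 v485 v12244 v483 v12177 v13089 v12153 v12249 v12150 v12255 v12188 v424 v418 v1210 v503 v3008 v325 v13351 v1138 v13333
theorem v13353 : PV l13353 := r13353 v1000 v2882 v11933 v437 v3652 v4325 v4348
theorem v13354 : PV l13354 := r13354 v4967 v4966 v11371 v12277 v3009 v12264 v3010 w4472 v12189 v12253 v12227 v485 v12244 v483 v12177 v12153 v12150 v12255 v1209 v13352 v13334 v3240 v13353 v7875 v11559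
theorem v13355 : PV l13355 := r13355 v11371 v3010 w4472 v12189 v12253 w3556 v1642 v12277 v3009 v12264 v12227 v485 v12244 v483 v12177 v13089 v12153 v12249 v12150 v12188 v424 v418 v1210 v3008 v325 w182 w387 v13349 v1138 v13341
theorem v13356 : PV l13356 := r13356 v3009 v11371 v12277 v12264 v3010 w4472 v12189 v12253 v12227 v485 v12244 w3549 v483 v12177 v12153 v12150 v12255 v1210 w340 w351 v5035 v3927 w1152 v3213 v4966 v4967 w4566 w4568 v4189 v4593 v4767 v4779 v13350 w9042 v13354 v13355 v13334 v3240 v13353 v7941 v11559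
theorem v13357 : PV l13357 := r13357 v8363 w183 w4575 w5067 w6961 w6456 w3243
theorem v13358 : PV l13358 := r13358 w1943 v11955 v13331
theorem v13359 : PV l13359 := r13359 v415 v11486 w4055 w5890 w5999 w2581
theorem v13360 : PV l13360 := r13360 v5034 v4526 v3308 v3303 w3980 w3974 w4116 v4718 v4694 w2479 v3975 v4735
theorem v13361 : PV l13361 := r13361 v11371 v12277 v3933 w1132 v13140 w5407 v10402
theorem v13362 : PV l13362 := r13362 v3240 v3241 v2882 v2890 v11487 v8907 v4764 v3659 v3675 v442 w5087 w5032 v436 w4363 v3642 v13326 v3699 v434 v4500 v4676 w1002 v13357 w2394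
theorem v13363 : PV l13363 := r13363 w1160 v13361 v9777 v8363
theorem v13364 : PV l13364 := r13364 w1160 v13361 v13181 v13362
theorem v13365 : PV l13365 := r13365 v13307 v3434 v3441 v13309 v3240 w351 v5035 w182 w388 v1137 v498 v503 v3350 v3361 v3372 v2882 v2890 v8907 v4764 v3659 v3675 w5087 w5032 w4363 v13326 v3699 v4500 v4676 v13364 v3319 v7919 v12485 v3315 v9780 v4083 v4078 v8564 w5099 w5105 w2394 w6690 w6863 w3243
theorem v13366 : PV l13366 := r13366 v13307 v3434 v3441 v13365 w2812 v11720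
theorem v13367 : PV l13367 := r13367 v2596 v2585
theorem v13368 : PV l13368 := r13368 v3319 v9780 w5099 v13367 w6690 w6561
theorem v13369 : PV l13369 := r13369 v5035 v13307 v3434 v498 v503 v3350 v3361 v3372 v13368 w1160 v13361 w358 v13181 v8363 w5826 w9032 w9121
theorem v13370 : PV l13370 := r13370 v3008 v325 v1209 v1210 v424 v418 v5035 v3000 v13307 v3010 v11371 w4472 v12188 v4839 v4843 v4835 v12189 v12253 v3434 v498 v503 v3350 v3361 v12227 v485 v483 v13089 v3213 v2998 v4847 w4907 w4409 v1137 v13369 v1138 v12277 v3009 v12264 v12244 v12177 v12153 v12249 v12150 v12255 v3347 v3006 w351 w182 w388 v13366 w1943 v13358 v13331 v2973 v6071 w4383 v3206 v4499 v4974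
theorem v13371 : PV l13371 := r13371 v1000 v2882 v11671 v6081 v13353 v439 w5030 v4349 v3654
theorem v13372 : PV l13372 := r13372 v3240 v13353 v7875 v11559
theorem v13373 : PV l13373 := r13373 w4409 v1138 v1137 v13307 v3213 v2998 v5035 v3000 v3010 v11371 w4472 v12188 v4839 v4835 v4847 w4907 v12277 v3009 v12264 v12189 v12253 v3434 v498 v503 v3350 v3361 v12227 v485 v12244 v483 v12177 v13089 v12153 v12150 v12255 v4843 v424 v418 v1210 v1209 v3425 v3008 v325 v13369 v13370 v1000 v4500 v13372 v13371 v2973 v6071 v7605 w4383 v3692 v3940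
theorem v13374 : PV l13374 := r13374 v2882 v2890 v11582 v11485 v8907 v3241 w1807 w1982 v13326 w5081 w5083 v3715 v3704
theorem v13375 : PV l13375 := r13375 w1943 v13374 v6071 v3693 v3206
theorem v13376 : PV l13376 := r13376 w5099 v12485 v10910 v7711 w2394 v4078 w6690 w6863 w3243
theorem v13377 : PV l13377 := r13377 v2585 v7711
theorem v13378 : PV l13378 := r13378 v3240 w351 v5035 w182 w388 v1137 v13307 v3434 v498 v503 v3350 v3361 v3372 v2882 v2890 v11487 v8907 v13364 v3659 v4764 v3319 v3315 w5087 w5032 v3675 v9780 v13326 v3699 w4363 w5512 w5099 w5105 v4500 v4676 v13376 v13377 w6690 w6561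
theorem v13379 : PV l13379 := r13379 v439 w4374 v442 w6813 v4825
theorem v13380 : PV l13380 := r13380 v13373 w4409 v1138 v13307 v3213 v2998 v5035 v3000 v3010 v11371 w4472 v12188 v4839 v4835 v4847 w4907 v12277 v3009 v12264 v12189 v12253 v3434 v498 v503 v3350 v3361 v12227 v485 v12244 v483 v12177 v13089 v12153 v12249 v12150 v12255 v3347 v3006 v4843 v424 v418 v1210 v1209 w351 v3441 v3008 v325 w182 w388 v13375 v3240 v3241 v13378 v2973 w2812 v11720 v13379 w4363 v3679 v3034 v3937
theorem v13381 : PV l13381 := r13381 v1000 v4500 v2882 v11671 v6081 v339 v4335 w5026 v3718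
theorem v13382 : PV l13382 := r13382 v1000 v4500 v1138 v13381 v2973 v6071 v7605 w4383 v3692 v3940
theorem v13383 : PV l13383 := r13383 v2882 v1000 v3684 v3707 w5028
theorem v13384 : PV l13384 := r13384 v1000 v1137 v2882 v13383 v4334 v4360 v436
theorem v13385 : PV l13385 := r13385 w4409 v11371 v12277 v3009 v12264 v3010 w4472 v12189 v3000 v13307 v5035 v12188 v4839 v4835 v12253 v3434 v498 v503 v3350 v3361 v12227 v485 v12244 v483 v12177 v12153 v12150 v12255 v1210 v3425 v13373 v13380 v1000 v4500 v13382 v13384 v2973 v11559 v3937 v3939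
theorem v13386 : PV l13386 := r13386 w340 v503 v11371 w1152 w1160 v13361 v13363 v13181 v1642 w2395 w2005 w8335 w1181 v11549 w6897
theorem v13387 : PV l13387 := r13387 w1181 w1165 v11549 w993 w4851 w6897 v4979
theorem v13388 : PV l13388 := r13388 v13387 w1189 w7009 w6880
theorem v13389 : PV l13389 := r13389 w1984 w1980
theorem v13390 : PV l13390 := r13390 v11555 v13388 w2701
theorem v13391 : PV l13391 := r13391 w312 v5661 v8560
theorem v13392 : PV l13392 := r13392 v13307 v3213 v3216 w1942 w1943 v13389 v3927 v2998 v5035 v3000 v3010 v11371 w4472 v12188 v4839 v4835 v4847 w1152 w1159 w1569 w1575 v2994 v13308 v12195 v12194 v3434 v498 w5363 v3441 v3425 w351 w305 w799 v3009 v12277 v12264 v4438 w771 v4843 v3372 v503 v3350 v3361 v3347 v2995 v4868 v2746 w4345 v12189 v12253 v12255 v1246 v13356 w4905 w4907 w4409 v1138 v10213 w1979 v12147 v12146 w182 w388 w180 v13385 v1137 v12227 v485 v12244 v483 v12177 v13089 v12153 w3556 v3006 v424 v418 v1210 v1209 v3008 v325 v3933 w1124 v476 v472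 v2882 w3253 v2884 w3261 v2888 v2890 v2886 v11582 v339 w1098 w1133 v3677 w1183 v436 w5051 w5041 w5044 w5047 v434 v3715 w7020 w7016 w7019 v3721 w173 w1097 w365 w364 v13386 v3318 v3319 v9780 w5407 w5099 v13390 w1808 v8907 w1983 v3704 w992 w5083 w5078 w1166 w1167 w9039 w6897 v13391 w6690 w6543
theorem v13393 : PV l13393 := r13393 v13307 v11371 v3927 w1152 w1159 w1569 w1575 v2994 v2998 v3000 v13308 v12195 v12194 v3434 v498 w5363 v3441 v3425 v5035 v3010 w4472 v12188 v4839 w351 w305 w799 v3009 v12277 v12264 v4438 w771 v4843 v4835 v3372 v503 v3350 v3361 v3347 v3213 v3216 v2995 v4868 v2746 w4345 v12189 v12253 v12255 v1246 v13356 w4409 v1138 v12227 v485 v12244 v483 v12177 v12153 v12150 v3008 v325 v13392 v2973 v3014 w2812 v6071 v11955 w4376 w4383 v3206 v13379 v4499 v4980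
theorem v13394 : PV l13394 := r13394 v503 w1160 v13361 v13363 w1002 v13181 w6897 v13357 w2395
theorem v13395 : PV l13395 := r13395 v2596 v11960 v3003 v6294
theorem v13396 : PV l13396 := r13396 v4078 v9876 w6690 w3243 w6863 w6543 w2395 w6897
theorem v13397 : PV l13397 := r13397 v3240 v3241 v1137 v13307 v3213 v2998 v5035 v4847 w4907 v11371 v12253 v12195 v3434 v498 v503 v3350 v3361 v12227 v485 v483 v13089 v12255 v3006 v3372 v3008 v325 v3216 v2882 v2888 v11487 v8907 v3659 v4764 v442 w5084 w5032 w1133 v3675 v3642 v3699 v436 w4363 w992 v4500 w173 v434 v4676 w1166 w314 w365 v13394 v3318 v3319 v3315 v9780 w5407 w5099 w5104 v13396 v13391 v13395 v6294 w6701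
theorem v13398 : PV l13398 := r13398 v3927 v13307 v3213 v2998 v5035 v3000 v3010 v11371 w4472 v12188 v4839 v4835 v4847 w1152 w1159 w1569 w1575 v2994 v13308 v12195 v12194 v3434 v498 w5363 v3441 v3425 w351 w305 w799 v3009 v12277 v12264 v4438 w771 v4843 v3372 v503 v3350 v3361 v3347 v3216 v2995 v4868 v2746 w4345 v12189 v12253 v12255 v1246 v13356 w4905 w4907 w4409 v1138 v10213 v12227 v485 v12244 v483 v12177 v12153 v12249 v3006 v424 v418 v1210 v1209 v3008 v325 v13393 v3240 v3241 v13397 v2973 v3014 w2812 v13379 v11720 w4363 v3679 v3034 v4764 v3946 v4635 w4377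
theorem v13399 : PV l13399 := r13399 v3240 v13384 v13353
theorem v13400 : PV l13400 := r13400 v13307 v11371 v3927 w1152 w1159 w1569 w1575 v2994 v2998 v3000 v13308 v12195 v12194 v3434 v498 w5363 v3441 v3425 v5035 v3010 w4472 v12188 v4839 w351 w305 w799 v3009 v12277 v12264 v4438 w771 v4843 v4835 v3372 v503 v3350 v3361 v3347 v3213 v3216 v2995 v4868 v2746 w4345 v12189 v12253 v12255 v1246 v13356 w4409 v12227 v485 v12244 v483 v12177 v12153 v12150 v1210 v1209 v13398 v1000 v13382 v4500 v13399 v2973 v7111 v11559 v3939 v3942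
theorem v13401 : PV l13401 := r13401 w2012 w2014
theorem v13402 : PV l13402 := r13402 w5085 v3677 v13326
theorem v13403 : PV l13403 := r13403 v5035 v4083 v4597 v9876 w8977 w3838
theorem v13404 : PV l13404 := r13404 v2886 v2890 v2892 v2888 w3261 v2884 w3253 v2882 w351 v5035 w182 w388 w180 v13307 v3213 v3216 w1942 w1943 v13401 w1979 v12147 v12146 v11371 v3000 v4839 v4835 v12253 v12195 v3434 v498 v503 v3350 v3361 v12227 v485 v483 v13089 v12255 w3556 v3006 v3372 v4843 v3008 v325 v12277 v3933 w1124 v476 v472 w1098 w1133 v13402 v436 w5051 w5041 w5044 w5047 v3715 w7020 w7016 w7019 w173 w1190 w365 w364 w7000 v13386 w5066 v3318 v3319 v3315 v9780 w5512 w5407 w5104 v13403 w183 v13391 v13395 w6968 w6910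
theorem v13405 : PV l13405 := r13405 w351 v5035 w182 w388 v13307 v3213 v3216 w1942 w1943 v13401 v3000 v4839 v4835 v11371 v12195 v3434 v498 w1158 v2890 v13404 w1001 v4828 w1191 w5085 w6870
theorem v13406 : PV l13406 := r13406 v11371 v12277 v3009 v12264 v12195 v3010 w4472 v12189 v3000 v13307 v5035 v12188 v4839 v4835 v12253 v3434 v498 v503 v3350 v3361 v12227 v485 v12244 v483 v12177 v12153 v12150 v12255 v3347 v424 v418 v1210 v1209 v3008 v325 v13405 w2812 v6071 v11955 v439 w4374 v13379 v442 w6827 v3189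
theorem v13407 : PV l13407 := r13407 v1000 v4500 v3674 v4975
theorem v13408 : PV l13408 := r13408 v1138 v1137 v11371 v12277 v3009 v12264 v12195 v3010 w4472 v12189 v3000 v13307 v5035 v12188 v4839 v4835 v12253 v3434 v498 v503 v3350 v3361 v12227 v485 v12244 v483 v12177 v12153 v12150 v3347 v3425 v12194 v13406 v1000 v13381 v4500 v2973 v6071 w4383 v13407 v6076 v3940
theorem v13409 : PV l13409 := r13409 w56 w57 v13359
theorem v13410 : PV l13410 := r13410 v8757 v8846
theorem v13411 : PV l13411 := r13411 v878 v418 v3950 w947 w888 w889 v5808 w4141 w4139 v13409 v4502 v13410 v3308 v9744 v9755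
theorem v13412 : PV l13412 := r13412 w2333 w1976 w1977 v13411 v4008 w867 v728 v4526 v4503 w124 v7770 w3743 v7171 w5928 w6179
theorem v13413 : PV l13413 := r13413 v3006 w4575 w6456 v878 v418 v3008 v325 v13412 w1647 v3308 v3303 v9744 v9755 v5034 v10751 v4526 w2493 w2501 w2569 v9720 v3988 w4091 w4140 v3966 v6083 w947
theorem v13414 : PV l13414 := r13414 v434 w5067 w2333 w1976 w1977 v13411 v4008 w867 w839 v728 v4526 v4501 v4503 w124 w58 v7770 w3743 w2587 v7171 w6179 w5922 w4060
theorem v13415 : PV l13415 := r13415 v3006 w4575 w6456 v878 v418 v3008 v325 v13413 v13414 w1647 v3308 v3303 v9744 v9755 v5034 v9961 v4526 w2493 w2501 w2569 v9720 v3988 w4091 w4140 v3966 v6083 w947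
theorem v13416 : PV l13416 := r13416 v418 v3008 v325 v13410 v3308 v9755 v10232
theorem v13417 : PV l13417 := r13417 w885 w886 v13409
theorem v13418 : PV l13418 := r13418 v878 w4141 w4222 w4139 v13416 v4502 v13417 w931 w5926 w9034
theorem v13419 : PV l13419 := r13419 w2392 w2333 w1976 w1977 v13418 v5808 w947 w1528 v4008 v728 v4526 v4503 w124 v7770 w6179 w3743
theorem v13420 : PV l13420 := r13420 v3308 v3303 v1137 v878 v1210 v424 v3008 v325 w4141 w4139 w4143 w4040 v13416 v5034 v13360 v4526 v3966 v4009 w2509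
theorem v13421 : PV l13421 := r13421 v5034 v4502 v4526 w102 w804 v6159 v2792 w3743 w6211 w947 w1528 v3966 v7770 w4130 w6246
theorem v13422 : PV l13422 := r13422 v1138 v1137 v878 v424 v418 v1210 v3008 v325 w1647 v3308 v3303 v13420 v13421 v9755 v10232
theorem v13423 : PV l13423 := r13423 v434 w5067 v878 w4141 w4059 w4139 v13416 v4502 w55 v13417 v1125 w918
theorem v13424 : PV l13424 := r13424 v11371 v12277 v3933 w1098 w4409 v1137 v2882 v3009 v12264 v3010 w4472 v12189 v3000 v13307 v12188 v4839 v4835 v12253 v3434 v498 v503 v3350 v3361 v12227 v485 v12244 v12249 v12255 v13399 v11940 v3675 v436 v3713 v3240 v11933 v4348 v3241 v437 v442 v3642 w992 w1164 w1000 w4363 v339 v434 v3719 v4676 v3006 w4381 v4682 w2800 w314 w173 w365 v2884 v1138 v3213 v2998 v4847 w4907 v483 v12177 v13089 v12153 v12150 v3216 v2995 v4868 w4345 v1246 w3556 v2746 v3347 v3008 v3029 v4843 v424 v418 v1210 v1209 w340 v3425 v3441 v325 w1152 v476 v472 w1132 w1160 v13361 v13363 w1002 w358 v13181 v8363 w183 v1642 w2404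 w2394 w5826 w4575 v2574 w5067 w6456 v2707 v2708 w3243 w9032 w6834 v13415 v13422 w2333 w1976 w1977 w1978 v13419 v13423 v5808 w947 w1528 v4008 v728 v4526 v4503 w124 v7770 w6179 w3743
theorem v13425 : PV l13425 := r13425 v498 v13307 v3372 v503 v5035 v3350 v3213 v3216 v3319 v9780 w5512 v13395 v13403
theorem v13426 : PV l13426 := r13426 v13307 v3434 v498 v503 v2882 v3000 v3010 v11371 w4472 v12188 v4839 v4835 v3350 v3361 v3009 v12277 v12264 v12189 v12253 v12227 v485 v12244 v12249 v12255 w4409 v13399 v11940 v3675 v436 v3713 v3240 v11933 w5083 v2890 v13326 v13424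
theorem v13427 : PV l13427 := r13427 w2390 w1976 w1977 v13411 v4008 w875 v728 v4526 v4501 w6054 w2567 w5927 v4009 v4010
theorem v13428 : PV l13428 := r13428 v878 v418 w4035 w4224 w4040 w4039 w4037 v13427 w1647 v3308 v9744 v9755 v5828 w5964
theorem v13429 : PV l13429 := r13429 w2390 w2333 w1976 w1977 v5808 v13411 w1528 w1594 v4008 v728 v4526 v4501 v4503 w124 w6179 w3743 w3829 w6312 w6054 w4220
theorem v13430 : PV l13430 := r13430 v3006 w4575 w6456 w1160 v878 v418 v3008 v325 v13428 v13429 w1647 v3308 v3303 v9744 v9755 v5034 v9961 v4526 w2493 w2501 w2569 v9720 v6083 w4091 w947 v3966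
theorem v13431 : PV l13431 := r13431 v434 w5067 v3006 w4575 v1137 v878 v1246 v3008 v3029 v1210 v424 v3213 v3216 w4141 w4059 w4139 v13420 v13416 w1644 w1645 v4502 w1749 w1751 w1754 w55 v13418 v13417 w918 w6903 w5921
theorem v13432 : PV l13432 := r13432 w2333 v5808 w947 w1528 v4008 v728 v4526 v4503 w124 w6179 w3743 w8613 w6312
theorem v13433 : PV l13433 := r13433 v5034 v4502 v4526 w101 w804 v6159 v2792 w3744 w6211 w947 w1529 v3966 w4129 w6311 w6245
theorem v13434 : PV l13434 := r13434 v418 v3008 v325 v13432 w1647 v3308 v3303 v13433 v9755 v10232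
theorem v13435 : PV l13435 := r13435 v11371 v3009 v12277 v12264 v3010 w4472 v12189 v3000 v13307 v5035 v12188 v4839 v4835 v12253 v3434 v498 v503 v3350 v3361 v12227 v485 v12244 v12249 v12255 w4409 v13399 v11940 v2882 v339 v3675 v436 v434 v3719 w314 v3713 w173 w365 w4363 v4676 w1133 v3933 w1098 w351 w182 w388 v2890 v2888 v3240 v3241 v1138 v1137 v3213 v2998 v4847 w4907 v3216 v2995 v4868 v2746 v483 v13089 v878 v12177 v12153 v12150 w3556 w4345 v3347 v3006 v3372 v4843 v424 v418 v1210 v1209 w340 v3425 v3441 w5365 v3008 v325 v2993 w1152 v476 v11933 v437 w5083 w5078 w4381 v4348 v442 v4682 v3642 w2800 w1000 w992 w1164 w1166 w1167 v13425 w1132 w1160 v13361 v13363 w1002 w358 v13181 v8363 w183 v1642 w6897 w2404 w5826 w4575 v2574 w5067 w2395 w6456 v2707 v2708 w3243 w9032 w6834 v13426 v13430 v13434 w9039 v13431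
theorem v13436 : PV l13436 := r13436 v5034 v4502 v4526 w102 v13417 v7770 v3956 w2545 v4014 v4009
theorem v13437 : PV l13437 := r13437 v418 v13410 v3308 v3303 v9755 v10234
theorem v13438 : PV l13438 := r13438 w2333 w1976 w1977 v13436
theorem v13439 : PV l13439 := r13439 v1137 v878 v424 w4141 w4139 w4143 w4040 w4038 v13437 v5034 v4526 v13438 w1647 v3308 v13360 v3303 v3966 v4009 w2509
theorem v13440 : PV l13440 := r13440 w2333 v5808 w947 w1528 v4008 v728 v4526 v4503 w124 v7770 w6179 w3743
theorem v13441 : PV l13441 := r13441 v11371 v12253 v12255 w4575 w6456 w3243 v13399 v3675 v436 v434 w5067 v2574 w183 v12277 v3933 w1132 v2882 v11940 v3713 w173 w365 w1098 v3240 v1138 v1137 v878 v12227 v12150 v424 v418 v476 v472 w993 w1164 w1166 v3704 v11549 w6897 w4381 w2395 v4682 w6978 w6834 w2800 v13439 v13440 w1647 v3308 v3303 v13421 v9755 v10234 v2779 v7814 v4755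
theorem v13442 : PV l13442 := r13442 w1160 v13361 v13181 v2888 v2884 w2396 v13386
theorem v13443 : PV l13443 := r13443 w6966 w8335
theorem v13444 : PV l13444 := r13444 w2392 w1976 w1977 v13417 w931 w6051 w9123
theorem v13445 : PV l13445 := r13445 v1137 v878 v424 w4141 w4222 w4139 w4143 w4040 w4038 v13437 v5034 v4502 v4526 v13444 w1647 v3308 v13360 v3303 v3966 v4009 w2509
theorem v13446 : PV l13446 := r13446 w2390 w2333 v5808 w947 w1528 w1594 v4008 v728 v4526 v4501 v4503 w124 w6179 w3743 w3829 w6312 w6054 w4220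
theorem v13447 : PV l13447 := r13447 v2884 v11371 v12253 v12255 v13399 v3675 w5044 v13443 v11940 v2882 v339 v436 v434 v3719 w314 v3713 w173 w365 w1133 v2888 v1138 v1137 v878 v12227 v12150 v1246 w3556 v424 v418 w340 v498 v503 w5365 w1152 v12277 v3933 v476 w1132 w1160 v13361 v13363 w358 v13181 v8363 w183 v1642 w2404 w5826 w4575 v2574 w5067 w6456 v2707 v2708 w3243 w9032 v13442 w6978 w6834 v13441 v13445 v13446 w1647 v3308 v3303 v13433 v9755 v10234 v2779 w3919 w3910 v4755 v6166 v10690 v5672
theorem v13448 : PV l13448 := r13448 v2882 v339 v5035 v13307 v11371 v2994 v2998 v3000 v13308 v12195 v3434 v498 v503 v3010 w4472 v12188 v4839 v4835 v3350 v3361 v12189 v12253 v12255 v3927 w1152 w1159 w1569 w1575 v12194 w5363 v3441 v3425 w351 w305 w799 v3009 v12277 v12264 v4438 w771 v4843 v3372 v3347 v3213 v3216 v2995 v4868 v2746 w4345 v1246 v13356 w4409 w4896 v4847 w4907 w4905 v1138 v10213 v13400 v13408 v13399 v2888 v2884 v3240 v3241 v1137 v12227 v485 v12244 v483 v12177 v13089 v12153 v12249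 v3008 v3029 v3006 v1210 v1209 v325 v2992 v3933 w1098 v3675 v11940 w1183 v436 w5044 w4363 v434 v3713 v3719 w173 w314 w279 v4676 w365 w364 v13435 v13443 w1181 v11549 w5061 w5057 w4851 v3642 v2881 v4682 w992 w2800 v13447 v3318 v3319 v9780 w5512 w5407 w5099 v13403 v13391 w6701 v6294
theorem v13449 : PV l13449 := r13449 v3927 v2994 v2998 v3000 v13308 v13307 v11371 w1152 w1159 w1569 w1575 v12195 v12194 v3434 v498 w5363 v3441 v3425 v5035 v3010 w4472 v12188 v4839 w351 w305 w799 v3009 v12277 v12264 v4438 w771 v4843 v4835 v3372 v503 v3350 v3361 v3347 v3213 v3216 v2995 v4868 v2746 w4345 v12189 v12253 v12255 v1246 v13356 w4409 w4896 v4847 w4907 w4905 v1138 v10213 v13400 v13408 v1137 v12227 v485 v483 v13089 v13399 v13448 v4673 v8038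
theorem v13450 : PV l13450 := r13450 v3240 v3241 v11559 v3679 v13379
theorem v13451 : PV l13451 := r13451 v1233 v3240 v3241 v11720 v4635 v4825 v442
theorem v13452 : PV l13452 := r13452 w351 v2994 v2998 v3000 v13308 v5035 w305 w799 v13307 v11371 v12195 v3434 v498 v503 v3425 v3441 w5363 v12194 v3008 v325 v3010 v3009 v2995 v3927 w1152 w1159 w1575 w1569 v12277 v3213 v3216 v424 w4472 v1209 v1210 v12264 v418 v12188 v12189 v4438 v4839 w771 v4843 v4835 v3350 v4868 v3372 v4847 v12253 v3361 v3347 w4345 v2746 v12255 v1246 v13356 w4409 w4896 w4907 w4905 v1138 v10213 v13400 v13408 v3240 v3241 v13449 w2812 v13450 v4764 v1233 v13451 v7111 w6905 w6776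
theorem v13453 : PV l13453 := r13453 v13307 v429 w4900 v3006 v4835
theorem v13454 : PV l13454 := r13454 v13307 v11371 v2994 v2998 v3000 v13308 v12195 v3434 v3010 v5035 v13453 w4472 v13452 v12169
theorem v13455 : PV l13455 := r13455 v3927 v11371 v13307 v3213 v3216 v2996 v2993 v2994 v2998 v3000 v13308 v12195 v3434 v13454 v10323 v3779 v2914 w4869 w6537
theorem v13456 : PV l13456 := r13456 v3927 v11371 v13307 v3213 v3216 v13455 v5113 v5112 v4655 v5276 v7703 v7614 v2730 v4593 w4560 w4544 w4538 v5794 v12195 w4565 w4553 v5169 v12204 v3779 v1770 w2783 v5131 w2773 v4381 v4389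
theorem v13457 : PV l13457 := r13457 v11371 v13456 v5036 v7703 v2994 v2998 v3000 v13308 v12195 v3010 v3012 v5035 v13307 v3213 w4472 w4484 v1210 v12169 v12185 v4789 v4839 v494 v4835 v3424
theorem v13458 : PV l13458 := r13458 v13307 v13456 v5036 v5035 v7703 v3000 v13457 v429 v13453 v3006 v3432 v4835 v4839
theorem v13459 : PV l13459 := r13459 v11371 v13458 v12300 v1412 v433 v429 v476 v472 w4482 w4494 v2846 v390 v12252 v13307 v3213 v3216 v3000 v12844 v4968 v10323 v12249 v5035 v485 v12997 v4839 v12227 w4564 v4835 v3361 v3350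
theorem v13460 : PV l13460 := r13460 v11371 v12277 v3933 v476 v472 v13307 v3213 v3216 v13458 v12239 v12174 v13459 v5276 v7703 v12287 v5794 v4639 v4411
theorem v13461 : PV l13461 := r13461 v5035 v13307 v3213 v3216 v10084 v4864 v4839 v4847 v11802
theorem v13462 : PV l13462 := r13462 v3000 v2998 v2995 v2994 v2996 v3008 v13307 v3213 v3216 v5035 v13461 v4970 v7704 v4872 w4866 v5367
theorem v13463 : PV l13463 := r13463 v13307 v4839 v3361 v4835 v3350
theorem v13464 : PV l13464 := r13464 v13460 v11371 v476 v13307 v3213 v2996 v2998 v3000 v13462 v5036 v13275 v13267 v6132 v3447 v2846 v12300 v3433 w5359 w5354 v4399 v390 v13089 w5484 w4885 w4960 w4891 w4951 v483 v12844 v4968 v485 v12997 v12227 v13463 v4380 v4390 v7692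
theorem v13465 : PV l13465 := r13465 v11371 v12277 v3933 v13307 v3213 v3216 v13464 v5112 v7703 v5036 v13460 v6132 v4655 v433 v429 v1254 v1138 w5183 v2730 w1118 v494 v498 v503 w5356 v476 v472 w4478 v5113 v1316 w3143 v3350 v4835 v4840 v5131 v12229 v12263 v12194 w3201 w3205 v13267 v10286 w3071 w8479 v12176 w8461
theorem v13466 : PV l13466 := r13466 v13464 v7703 v5036 w352 v13460 v13307 v3213 v11371 v6132 v494 v498 v503 v476 w5354 v13280 v5113 v12277 v3933 w1124 w1117 w1565 v7594 v4837 v4833 v3347 w2912 v3350 v3358 v5277 v12268 w306 v12282 w782 w3572 v6253 w8545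
theorem v13467 : PV l13467 := r13467 v11371 v12277 v3933 v13307 v3213 v3216 v13464 v5112 v7703 v5036 v13460 v6132 v4655 v433 v429 v1254 v1138 w5183 v2730 w1120 v494 v498 v503 w5359 v3447 v13466 w3143 v13465 v3350 w3540 v12300 v6258 w9096 w8563
theorem v13468 : PV l13468 := r13468 v13467 v11371 v12277 v3933 v13307 v3213 v3216 v13464 v5112 v7703 v5036 v13460 v6132 v4655 v433 v429 v1254 v1138 w5183 v2730 w1118 w5356 v3447 w4498 v1316 v4380 v4382 v12194 v5039 v12229 v5038 v12181 w340 w3205 w8479 w8560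
theorem v13469 : PV l13469 := r13469 w8479 w8560
theorem v13470 : PV l13470 := r13470 w2773 w2799
theorem v13471 : PV l13471 := r13471 v13468 v13467 v11371 v12277 v3933 v13307 v3213 v3216 v13464 v5112 v7703 v5036 v13460 v6132 v4655 v433 v429 v1254 v1138 w5183 v2730 w1118 w5356 v3447 v1316 v4381 v12280 w340 v13469 v2835 w3556 v12269 v12284 v5039 v12194 v13267 v13470 v4389 v7692 v4387 v4398
theorem v13472 : PV l13472 := r13472 v13307 v3213 v13470 v4387 v11802 v4389 v4400
theorem v13473 : PV l13473 := r13473 v13467 v13307 v3213 v3216 v13464 v5112 v7703 v5036 v13460 v11371 v6132 v4655 v433 v429 v1254 v1138 w5183 v2730 v3447 v13468 v13471 v5235 v13472 w3231 v13267 v4399 w3211 w4354 w6762 v5185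
theorem v13474 : PV l13474 := r13474 v11371 v12277 v3933 v13307 v3213 v3216 v13460 v13464 v1316 v5112 v4655 v7703 v433 v5036 v429 v6132 v3447 v1254 w5356 v1138 w5183 v2730 w1118 v13473 w3543 v12252 v13469 v12302 w340
theorem v13475 : PV l13475 := r13475 v2992 v11371 v13307 v3213 v3216 v4840 v4839 v12229 v4968 v12263 v12195 w4903 v1412 v5132
theorem v13476 : PV l13476 := r13476 v5035 v13474 w3469 v2820 v11371 v12277 v3933 w1124 w1117 w1565 v13307 v13475 v4835 v3006 v429 w4487 w4563 w4561 v1210 w4836 v3368 v3421 v8369 w8398 w8418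
theorem v13477 : PV l13477 := r13477 v2992 v3012 w3472 w3471 w3470 w3469 v11371 v12277 w1117 w1566 w1565 v12185 v12180 w4974 w4972 w4971 w4977 w8703 w8739 v13031 w8610 w8609 w2384 w2376
theorem v13478 : PV l13478 := r13478 v11371 v3927 w1152 w1159 w1575 v2992 v13474 w3470 v2820 v12277 v3933 w1124 v13307 v3213 v4840 v4839 v12229 v4968 v12263 v12195 w305 w301 w303 w302 w4906 v1412 w4913 v3428 v4787 v13477 v12221 v11799 w4977 w8739
theorem v13479 : PV l13479 := r13479 v5035 v3927 v13474 w3469 v2820 v11371 v12277 v3933 w1124 w1117 w1565 v13307 v13476 v13478 v4835 v3006 v429 w4487 v4969 w4563 v1210 w4836 v12229 v3368 v8369 w301 w8398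
theorem v13480 : PV l13480 := r13480 v12147 v7063 w5074 w6887 w8667
theorem v13481 : PV l13481 := r13481 v2882 w3259 v11671 w180 v8495 v13480 v436 w5029 v3715 v11945 v3705 v4352
theorem v13482 : PV l13482 := r13482 v1210 v13481 v11989 v8500 w5035 v12008 v11969
theorem v13483 : PV l13483 := r13483 v3675 v2893
theorem v13484 : PV l13484 := r13484 v3240 v13483 w5035 v4672 v3659
theorem v13485 : PV l13485 := r13485 v3240 v2882 v11942 v13484 v1000 v11933 v3706 v4348
theorem v13486 : PV l13486 := r13486 v3672 v4332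
theorem v13487 : PV l13487 := r13487 v3240 w2812 v11943 v11935 v13486 w5035 v3656 v4327
theorem v13488 : PV l13488 := r13488 v11941 v13484
theorem v13489 : PV l13489 := r13489 v3240 v13487 v2882 v13485 v13488 v1000 v11933 v437 v3706 v4325
theorem v13490 : PV l13490 := r13490 w182 v11529 w388 w5060 w6935 w6951
theorem v13491 : PV l13491 := r13491 w351 v13479 v5035 v11371 v3927 w1152 v3009 v13474 w3467 v3008 v325 v2820 v12277 v13307 v3213 v3216 v4837 v4842 v3376 w5380 w5381 w4898 w4904 w4910 v3388 v3368 w4972 v1209 v1210 v12264 v4968 v4969 v4966 v4967 v11800 v12314 v2537 w340 v12255 v12195 v12194 v4188 v2536 v9251 v390 v12253 v12230 v11787 w8374 v12251 v12241 v12088 v12244 v12207 v4767 v4779 w5362 v12318 v12205 v3429 v3437 v13489 w1942 w1943 v13481 v13482 v13401 v2973 v2862 v13490 v12008 v11957 v6190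
theorem v13492 : PV l13492 := r13492 v13479 v5035 v13474 v2820 v13307 v3213 v13491 v4833 v3368 v501 w4569 v495 v1412 v2536
theorem v13493 : PV l13493 := r13493 v5035 v13474 v2820 v11371 v12277 v3933 w1124 w1117 w1565 v13307 v4837 v3376 v3428 w4898 v3368 w5364 v1209 v1210 v668 v12314 w8398 w301
theorem v13494 : PV l13494 := r13494 v3011 v13474 w3469 v2820 v404 v11371 v12277 v3933 w1124 w1117 w1565 v13307 v5035 v13479 v13492 v13493 v4833 v3420 v3368 v3347 v3428 w4555 v3438 w4543 v1145 v5274 v12331 v13031 v12241 v5039 v390 w301 w8703 w5481 w5493 v12249 v12256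
theorem v13495 : PV l13495 := r13495 v13494 v5036 v3927 v13474 w3469 v2820 v404 v11371 v12277 v3933 w1124 w1117 w1565 v13307 v13475 v4835 v3006 v429 w4487 w4563 w4564 v1209 w4836 v3369 v3347 v668 w8398 w8418
theorem v13496 : PV l13496 := r13496 v13495 v13494 v11371 v13307 v3213 v3216 v4383 v12195 v12261 v11666 w4312 w4315 v5169 v1770
theorem v13497 : PV l13497 := r13497 v11371 v12195 v3010 v13474 w3469 v2820 v12277 v3933 w1124 w1117 w1565 w4472 w4479 v1209 v1210 w4557 v12169 w4831 v5136 w342 w297 v668 w8418 v2274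
theorem v13498 : PV l13498 := r13498 v5036 v13307 v3213 v3216 v433 v1412 v2536 v2535 w4881 w4895 v4411 v4388 w2792 w2776
theorem v13499 : PV l13499 := r13499 v13494 v13474 v11371 v13307 v13495 v13496 v4380 v13498 v429 v4969 v13497 v12229
theorem v13500 : PV l13500 := r13500 v4967 v2819 w4556 v4159 v4638
theorem v13501 : PV l13501 := r13501 v13307 v4833 v3347
theorem v13502 : PV l13502 := r13502 v13474 v2820 v404 v13307 v3213 v13494 v5036 v13499 v13500 v1412 v2536 v2818 v494 w4913 v501 v3421 v503 v13501 v4379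
theorem v13503 : PV l13503 := r13503 v12188 v12169
theorem v13504 : PV l13504 := r13504 w340 v12180 w4980 w8623 w8721
theorem v13505 : PV l13505 := r13505 v11371 v3010 v13307 v5035 v4839 v4840 v12229 v12195 v13503 w4472 v1146 v1145 v13474 v2820 v4968 w4904 v3376 v2992 v12263 v1412 w4906 v3011 w3470 w3469 w3467 v12277 v3933 w1124 w1117 w1565 v3213 v13476 w352 v3429 w1120 w1118 v13504 v11800 w306 v12221 w4974 w782 w4977 w8703 v5461 v12299 w4249 v4851 v878 w2776
theorem v13506 : PV l13506 := r13506 v3011 v13474 w3469 v11371 v12277 v3933 w1124 w1117 w1565 v13307 v3213 v13031 v12299 v5178 v4851 v878 w2776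
theorem v13507 : PV l13507 := r13507 v5035 v3010 v2992 v13474 w3469 v2820 v11371 v12277 v3933 w1124 w1117 w1565 v13307 v4840 v4839 v12229 v4968 v12263 v12195 w4904 v1412 v3376 v13503 w4472 v1145 v13505 w301 v13506 w8703 w4978 v12221 v12180
theorem v13508 : PV l13508 := r13508 v5035 v13502 v3009 v13474 v2820 v11371 v12277 v13307 v3213 v3216 v13507 v4837 v4842 v3376 w5381 w4898 w4904 v3388 w4972 v12264 v4968 v4969 v11800 v12255 v390 v12253 v12241 v10084 v5178 v5798 w4317 v4870
theorem v13509 : PV l13509 := r13509 v13508 v5035 v3009 v13474 w3469 v2820 v11371 v12277 v3933 w1124 w1117 w1565 v13307 v429 w4487 v4969 w4563 v1209 v12264 v11800 w4836 v12229 v3368 v4438 v668 w305 w776 w8398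
theorem v13510 : PV l13510 := r13510 v503 v498 v13474 v11371 v12277 v3933 v13307 v3213 v3216 v5132 v3429 v3437 w1120 v5461 v12256 w5487
theorem v13511 : PV l13511 := r13511 v3011 v13474 w3470 w3469 v2820 v404 v11371 v12277 v3933 w1124 w1117 w1565 v13307 v5035 v13508 v13509 v433 v3006 v1412 v5370 v503 w4558 w4543 v3355 v3352 v1145 v5274 v12331 v12272 v12241 v5039 v390 v13510 w301 v13031 w8703 w5481 w5493 v12249 v12256
theorem v13512 : PV l13512 := r13512 v13511 v5036 v13502 v3010 v2992 v13474 v2820 v404 v11371 v12277 v3933 v13307 v3213 v3216 v4840 v4839 v13475 v12229 v4968 v12263 w1120 v12195 v12194 w4906 w4903 v13503 v3429 v3352 w4462 v10282 v5682 v4417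
theorem v13513 : PV l13513 := r13513 v13511 v3009 v3008 v13474 v2820 v404 v11371 v12277 v13307 v3213 v3216 v13512 v4837 v4842 v3352 w5394 w4887 w4897 v3361 w4971 v1218 v12264 v11800 v12314 v12255 v12194 v390 v12241 v5178 w4317 w4315 v4870 v5682 v5798
theorem v13514 : PV l13514 := r13514 v13513 v3009 v13474 w3469 v2820 v404 v11371 v12277 v3933 w1124 w1117 w1565 v13307 v429 w4487 v4969 w4564 v1209 v12264 v11800 w4836 v12229 v3347 v4438 v668 w305 w776 w8398
theorem v13515 : PV l13515 := r13515 v13511 v5036 v3011 v13474 w3470 v2820 v404 v11371 v12277 v13307 v13513 v13514 v433 v3006 v1412 v5370 w4558 w4543 v3355 v3352 v1145 v5274 v12331 v12272 v12241 v13510 v390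
theorem v13516 : PV l13516 := r13516 v13515 v13511 v13502 v11371 v13307 v3213 v3216 v4383 v4382 v12195 v12261 w4317 w4329 w4315 v4408 v4390 v4389 v4417 w2764 v2922
theorem v13517 : PV l13517 := r13517 v13515 v13511 v5036 v13502 v13474 w3469 v2820 v11371 v12277 v3933 w1124 w1117 w1565 v476 v13307 v3213 v13516 v4381 v3377 v3449 v5767 w5381 w4898 w5354 w4972 v1209 v1210 v668 v11800 v12314 w8418 w342 w297 v2274
theorem v13518 : PV l13518 := r13518 v13517 v13515 v13511 v11371 v1210 v13497 v12314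
theorem v13519 : PV l13519 := r13519 w9007 w8723
theorem v13520 : PV l13520 := r13520 w8326 w2351 w8420 w2358 v12573 v5345
theorem v13521 : PV l13521 := r13521 w5803 w5797
theorem v13522 : PV l13522 := r13522 v13521 v668 v13520
theorem v13523 : PV l13523 := r13523 v5036 v13474 w3471 w3470 w3469 v2820 v11371 v12277 v3933 w1124 w1117 w1566 w1565 v476 v13307 v3213 v3216 v501 v3377 v495 v490 v2533 w1120 v5279 w5480 w5487 w5472 v12307 v4438 v12244 w3460 v13519 v13521 v13522 w8418 w8420 w2359 w2356 w8326 v667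
theorem v13524 : PV l13524 := r13524 v13307 v3213 w4888 w4884 v3369 v4388 v4398 w3232 v2912
theorem v13525 : PV l13525 := r13525 v11371 v12195 w342 w297 w768 w767 v2274 v13523
theorem v13526 : PV l13526 := r13526 v11371 v12195 v13525 v12169 v12168
theorem v13527 : PV l13527 := r13527 v13518 v429 v433 v1412 v1146 v1145 v13517 v13515 v13511 v13502 v3010 v3011 v3008 v13474 v2820 v11371 v12277 v3933 v476 v472 v13307 v4380 v13524 v13526 v5039 v12196 v12261 v12331 v1218 v878 w4543 w4863 w2764 v5254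
theorem v13528 : PV l13528 := r13528 v13474 v2820 v404 v11371 v13307 v3213 v3011 v3010 v13502 v13511 v13515 v13517 v13518 v429 v1145 v1146 v433 v1412 v13527 v4379 v3348 v3369 v13472 w4543 v12331 v12272 v5039 v4402 v13526 v4399
theorem v13529 : PV l13529 := r13529 v13307 v3361 w4570 v3352 v5131
theorem v13530 : PV l13530 := r13530 v667 v5345
theorem v13531 : PV l13531 := r13531 v668 w8481 v644 w8480 w2365 v10306 w2373
theorem v13532 : PV l13532 := r13532 w8418 w8562 v644 w8561 w8480 w2354 v9235 w2350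
theorem v13533 : PV l13533 := r13533 v13474 v2820 v404 v11371 v12277 v3933 w1124 w1117 w1565 v476 v472 v13307 v3213 v3216 v13528 v2846 v12239 v12252 v12300 v390 v1412 v13089 v433 w4494 w4482 v4966 v4967 v483 w5167 v2734 v429 v4968 v12963 v485 v12997 v12212 v1209 w297 v12227 v13529 v5035 w342 v6203 v5036 v13500 v3381 v13199 w767 v2274 v3455 w5380 w5357 w5354 w5183 v2534 w1120 w1119 v13530 v13532 v668 v13531 w8481 v644 v4382 w8480 v5235 w8561
theorem v13534 : PV l13534 := r13534 v13474 v13533 v2896 v4655 v5113 v2820 v404 v13307 v4837 v13501 w4570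
theorem v13535 : PV l13535 := r13535 v13534 v13533 v4655 v433 v429 v1254 v1138 v13474 v2926 v2920 v2910 v2902 v2896 v7703 v2820 v13307 v3213 v3216 v4381 v3377 v4389 v4407 w5193 v7692 v5796 v5180 v2817 v4393
theorem v13536 : PV l13536 := r13536 v13307 v13474 v13533 v4655 v7703 v2896 v5036 v13534 v13535 w4567 v4379 v3421
theorem v13537 : PV l13537 := r13537 v13536 v12292 v4968 v13307 v3213 w4244 w4546 v1244 v4851 w2780
theorem v13538 : PV l13538 := r13538 v3676 v8038
theorem v13539 : PV l13539 := r13539 v2882 v8039 v11487 v1000 v13538 v436 v3714 v4360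
theorem v13540 : PV l13540 := r13540 v3240 v3241 v13539 v7619 v7799
theorem v13541 : PV l13541 := r13541 v2882 v339 v12146 w5071 w5070 v3207 w5028 w5026 w1098 v3708 v3717 w6886 w173 w314 w365 w364 w8641 w1181 v569 w6897
theorem v13542 : PV l13542 := r13542 v13307 v3213 v3216 w1942 w1943 v13401 v13389 v3432 v3433 v13536 v12292 v4968 v3006 w3253 v2884 v2888 v2890 v7069 w182 w388 v13541 v7894 w5060 w1001 w6999 w1191
theorem v13543 : PV l13543 := r13543 v12147 v5269 v1412 v480 v485 v11270 v12304 v12318 v12248 v11364 v12292 w3280 v6071 v7605 v8594 w5075 w180 w8808 w6831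
theorem v13544 : PV l13544 := r13544 v2882 w173 v3947 w365 v3653 w992 v3700 w1166 w5050 v569
theorem v13545 : PV l13545 := r13545 v11270 w180 v2882 v339 v12147 v439 w5075 v3207 v442 w6887 w1133 v11556 w1190 w1097 w314 w6871 v3190 w4366 w4365 w6955 w2698 v13544 v3715 v3708
theorem v13546 : PV l13546 := r13546 v12292 v4968 v3006 v13545 w5060 w6999 w7024
theorem v13547 : PV l13547 := r13547 v11270 w180 v2882 v12147 v12146 v439 w5075 w5070 v3207 v442 w6887 w1098 w1133 w1190 w1097 w1183 w6886 w6871 v3190 w375 w4366 w4365 w1807 w6955 w1981 w2698 w7023 v13544 w5055 v3708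
theorem v13548 : PV l13548 := r13548 w1152 w1158 v13536 v11270 v13307 v3432 w340 v3213 v3216 v12292 v2995 v4872 v3433 w1124 v4968 v3006 v433 v12304 w1942 w1943 v13389 v13401 v13543 w2005 v2882 w3253 v2888 v2889 v2892 v2890 v2886 v7069 w182 w388 w387 v13546 v13542 v1243 v13547 v436 v7894 w5029 w5035 v6069
theorem v13549 : PV l13549 := r13549 v436 v434 v2882 v339 v6064 v4674 v4360
theorem v13550 : PV l13550 := r13550 v13307 v3213 v3216 w1942 w1943 v13401 v13389 w1158 v13536 v11270 v3432 w340 v12292 v2995 v4872 v3433 w1124 v4968 v3006 v2882 w3253 v2888 v2889 v2892 v2890 v2886 v7069 w182 w388 w387 v13546 v13542 v13547 v7894 v1243 w5029 w5035 v436 v6069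
theorem v13551 : PV l13551 := r13551 w5073 v6077 w1098 w1179 w6830 w8755
theorem v13552 : PV l13552 := r13552 v13536 v11270 v12304 w4707 v12292 v3011 v12217 w1117 v480 v12245 v12237 w1152 v12288 w2880 w4696 v12172 v12131 v1145 v4968 v433 v5269 v1412 v3006 v485 v12318 v12248 v12202 v13307 v3213 v3216 w1942 v13548 w2005 w2006 v13550 v2973 v2868 v8594 v13551 w4359 v7775 v3682 v3943 v1000 v4500
theorem v13553 : PV l13553 := r13553 v7815 v13549 v439 v8038 v6073
theorem v13554 : PV l13554 := r13554 v13536 v11270 v12304 v12292 w2880 v12288 w4696 v12172 w1124 w4707 v3011 v12217 w1117 w1565 v480 v12245 w3548 w305 v4438 w776 v12315 v13307 v3432 v3434 v1146 v4968 v433 v1412 v3007 v11364 w8774 w8933 v13552 v3240 v13540 v3241 v13553 v7619 v7799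
theorem v13555 : PV l13555 := r13555 v13307 v3432 v3434 v13536 v11270 v12304 v12292 w2880 v12288 w4696 v12172 w1116 v1146 w4707 v4968 v433 v1412 v3007 v480 v485 v12318 w3464 w297 v11364 v3011 v12245 v12315 v12217 v13554 w2344 w8814 v2732 v12228 v12127 v13552 v3240 v13540 v3241 v13553 v7619 v7799
theorem v13556 : PV l13556 := r13556 v12218 v12210 v12242 v12243
theorem v13557 : PV l13557 := r13557 v13536 v480 v12292 v3011 v11364 v13307 v4840 v4839 v4968 v3007 w4906 v13537 w4707 v1145 v13556 w4904 v3379 v3376 v3382 v433 w4911 w4914 v2992 v11270 v12180 w4980 v3012 v12185 w4974 v485 v12304 v12318 v3213 v3216 v2995 v13462 w3556 v3432 v4872 v3927 w1159 v4771 v4775 w351 w340 w4317 w4324 v5796 w1152 w1575 v2750 v1244 v629 v13555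
theorem v13558 : PV l13558 := r13558 v13536 v11270 v12288 w305 v12304 v11364 v12292 w2880 v3012 v3011 v480 v13307 v4840 v4839 v4968 v12185 v3007 w4906 w4904 w4974 v3379 v3376 v13537 w4707 w4696 v1145 v12172 v12132 w1124 v13556 v4438 v12217 w776 w1117 w1565 v13557 w3469 w8703 v8893
theorem v13559 : PV l13559 := r13559 v13536 v12292 v13307 v11364 v13558 v3001 v4837 v3388 v3376
theorem v13560 : PV l13560 := r13560 v5684 w2764
theorem v13561 : PV l13561 := r13561 v13536 v12292 v11270 v480 v13307 v3213 v3216 v3012 v13559 v3935 v13287 v12236 v12321 v5039 v11465 v12155 w4972 v12192 v4967 v12228 v5272 v1145 w5389 w5397 v5178 v1412 w4477 w4240 w4515 v1210 v878 v13560 v3001 v4837 v3376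
theorem v13562 : PV l13562 := r13562 v12292 v11270 v480 v12286 v12294 v13287 v1412 v11465 v4967
theorem v13563 : PV l13563 := r13563 v13536 v13562 v13307 w3478 v3377 v5279 v1590 w8943
theorem v13564 : PV l13564 := r13564 v5036 v13536 v11270 v12304 v12288 v12292 v13562 w2880 v13307 v3213 v13278 v13280
theorem v13565 : PV l13565 := r13565 v13536 v11364 v13562 v480 v485 v12292 v11270 v13307 v13561 v5036 w353 w340 w788 v13564 v2820 v404 v3361 v3352 v503 w5492 v5131 v4837 v498 v4968 v13537 v433 v3007 v1146 v1412 v13563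
theorem v13566 : PV l13566 := r13566 v13536 v12292 v13307 v11364 v13565 v4845 v4835 v3006 v4968 w4564 v13463
theorem v13567 : PV l13567 := r13567 v13536 v12292 v11270 v480 v13562 v3012 v13566 v12321 v13287 v12236 v3935 v11465 v12228 w4488 v3007 v4967 v1412 v5039 v12192 v5178 v878 v12155 v1145 v1210 w4477 v5272 w4240 w4726 v12156 v13307 v3213 v3216 v13561 w4910 w4317 w4977 v5036 w353 v13560 w340 w788 v3001 v13563
theorem v13568 : PV l13568 := r13568 v13536 v12292 v13562 v3012 v11270 v480 v13307 v13566 v3935 v13287 v12236 v12321 v11465 v12155 v4967 v12228 v5272 w4488 v3006 v13567 w4543 v4835 v5370 v3002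
theorem v13569 : PV l13569 := r13569 v13568 v13307 v3213 v3216 v5247 v4410
theorem v13570 : PV l13570 := r13570 v13536 v13562 v13568 v5035 v13564 w3470 v2820 v11270 v12304 v12292 v13307 v3213 v3216 v4967 v13500 v13569 w2764 v5650 v2922 w2783 v1021 v5796 w4308 v5170
theorem v13571 : PV l13571 := r13571 v13536 v11270 v13568 w342 v12288 w297 w767 v5035 v13564 v2820 v12304 v5036 v12292 v13562 v2992 v13307 v3213 v13570 v1412 w4726 w4913 w4910 v2536 v12183 w4977 v13569 v13563 w2764 v1146 v878 w4258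
theorem v13572 : PV l13572 := r13572 v13568 v5035 v13307 v3213 v3216 v2750 w4340 v4407 v5798 v4408 v5682
theorem v13573 : PV l13573 := r13573 v13568 v13307 v4381 v5035 v3213 v3216 w4317 w4315 v4407 v5798 v4408 v5682
theorem v13574 : PV l13574 := r13574 v13568 v5035 v5036 v13571 v13307 v4381 v13573 v13572 v3213 v3216 v13536 v11270 v12304 v12292 v13564 v2820 v3377 w4910 v4967 w4538 v2534 w9050 v4966 v5767 v13562 v12288 v12202 v785 v5177 v5796 v4407 w2756
theorem v13575 : PV l13575 := r13575 v13568 v5035 v13536 v12292 v13307 v13564 v2820 v13571 v4381 v3377 w4910 v4967 v13573 v13574 v1021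
theorem v13576 : PV l13576 := r13576 v13568 v5035 v13536 v12292 v13562 v3012 v11270 v480 v13307 v3213 v13575 v13287 v12321 v5039 v11465 v12155 v12192 v4967 v5272 v5178 v1412 v5269 w4910 w4909 w4525 w4515 v878 v13573 v4638 v5247 w2764
theorem v13577 : PV l13577 := r13577 v13576 v13568 v5035 v5036 v13536 v11270 w342 v13562 v480 v485 v12292 v13307 v12288 v12304 v13564 w297 v12202 v12318 v2820 w767 v5235 v3421 v12237 v3369 w5450 w4567 w4555 v11223 v1412 v1146 v13563
theorem v13578 : PV l13578 := r13578 v13576 v13536 v12292 v13562 v3012 v13577 v11270 v480 v12321 v12155 v1145 w4557 v13287 v12236 v3935 v11465 v12228 w4477 w4882 v4967 v1412 v5039 v12192 v5178 v878 v13568 v13307 v3213 v4380 w2776 v4388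
theorem v13579 : PV l13579 := r13579 v13307 v13536 v480 v11270 v12292 v13562 v3012 v13568 v5035 v5036 v13576 v13577 v12321 v12155 v1145 w4555 v13578 v3000 v4379 v3421
theorem v13580 : PV l13580 := r13580 v13579 v3929
theorem v13581 : PV l13581 := r13581 v13580 v3927
theorem v13582 : PV l13582 := r13582 v13580 v13579 v426 v421 v418 v429 v501 v498 w4525 w4547 v4143 v7656 v4771 v9168
theorem v13583 : PV l13583 := r13583 v12195 v12278 v2846 v12249 v12213
theorem v13584 : PV l13584 := r13584 v13579 v13582 v4139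
theorem v13585 : PV l13585 := r13585 v13579 v13580 v7703 v2999 v2997 v3749 v4769 v7692 v3759
theorem v13586 : PV l13586 := r13586 v13580 v13579 v7703 v2997 v2999 v4145 v4141 v12335 v13585 v3758 v3748 v7692
theorem v13587 : PV l13587 := r13587 v1210 w4469 v12314 v12963 v13583
theorem v13588 : PV l13588 := r13588 v13579 v3729 v12134 v7703 w1153 v429 v4969 v1210 v13586 v13584 v13587 v480 v11270 v13562 v12288 v485 v12304 v3009 w3480 w305 v12318 v12315 w8660 v11223 w4959 v11233
theorem v13589 : PV l13589 := r13589 v13579 v1412 v7703 v1210 w4258 w4540 w4546 v878 v7656 w2776 v3749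
theorem v13590 : PV l13590 := r13590 v13579 v3785 v3782
theorem v13591 : PV l13591 := r13591 v12123 v11453 w4974 v7680 w4809
theorem v13592 : PV l13592 := r13592 v13580 v2995 w3077 w3076 v2536 w299 w300 w302 v12275
theorem v13593 : PV l13593 := r13593 v13580 w4091 v3966 w4195 w4914 v12011 w947 w5820 w5816 v8859 v8782 w5912
theorem v13594 : PV l13594 := r13594 v5269 w2393 w1647 v13593 v12669 v4080 v11614 w3427 v5519 v5514
theorem v13595 : PV l13595 := r13595 v421 v11499 v3308 v3303 v9891 v9397 w4081 w4076 w4085 v8827 v8788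
theorem v13596 : PV l13596 := r13596 v13579 v13580 v13581 v7703 v3007 v433 v1412 v5269 w4904 v4145 v4146 w4911 v4775 v3008 v1218 w4906 v4174 v3134 v2996 v3763 w4327 w4525 v5274 v5268 v1246 v13595 v5034 v4526 w351 w799 w771 w5003 v13304 v476 v12235 v4143 w8658 v2260 w4977 w5480 v11799 w340 w297 w800 v3216 v2994 v3797 v2998 v4771 v2992 v3006 v11453 v12135 v11744 w688 w708 v11123 w272 w2306 w1959 v6571 w3535 v8794 v11593 w853 w2501 w2489 v12478 w2559 v8857 v4059 w929 v3303 w1609 w4084 w4200 w3906 w1748 v4027 w1616 v3969 w2424 w5982 w818 w3887 w6191 w6212 v1071 w1487 w8232 w5662 w5669 v11170 v10514 w3436 v13594 v12133 w1975 v9771 v12617 w1132 w1160 v8727 v8726 v2707 v2708 v4082 v8902 v11741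
theorem v13597 : PV l13597 := r13597 v433 v1412 v7840 v3006 v8113 v8753 v3075
theorem v13598 : PV l13598 := r13598 v5034 w2493 v12478 w2559 v3993 v8887 v409 w4197 w3890 w3901 v4056 v3303 w1609 v3983 w1748 v4027 w1616 w818 w2424 w5982 w3887 w5914 w6191
theorem v13599 : PV l13599 := r13599 v5034 v5274 v13598 w2449 v9961 v5072 v4054 w3896
theorem v13600 : PV l13600 := r13600 v13579 v13580 v1246 w4904 v7703 v2996 v3763 w4525 v5268 v5274 w4327 w4906 v4174 v3134 w352 v2998 v3008 v1218 v433 w4911 v4145 v4775 v4771 w305 v4146 v5269 v1412 v3007 v3006 v7840 v8185 v13595 v5034 v4502 w122 v13597 w853 w929 v13599 v11593 v13596 w2493 w2501 w2489 v12478 w2559 v8857 w2450 v3993 v3303 w1609 v409 w1748 w1616 v3983 w5982 v4749 w4202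
theorem v13601 : PV l13601 := r13601 v5034 v3008 w2493 w2501 w2489 v12478 w2559 v8857 w2450 v3993 v3303 w1609 v409 w1748 w1616 v3983 w5982 v4748 w4202
theorem v13602 : PV l13602 := r13602 v5274 v3008 v1218 v421 v13601 v12104 v8824 v3308 v1073
theorem v13603 : PV l13603 := r13603 v5034 w2493 v12478 w2559 w2450 v3993 v8887 v409 w3890 v4056 v3303 w1609 v3983 w1748 w1616 v4748 w5982 w4202
theorem v13604 : PV l13604 := r13604 v3303 v4053 v6163 v8863
theorem v13605 : PV l13605 := r13605 v1246 v5274 w853 w929 v13602 v13603 w2460 v13604 v3308 v4054 v8887 w3890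
theorem v13606 : PV l13606 := r13606 v5274 v1412 v4502 w122 v13605 v9703 v9763 v8873
theorem v13607 : PV l13607 := r13607 v1246 w2443 v706 v712 v3308 w3890 v4073
theorem v13608 : PV l13608 := r13608 v9397 v4038
theorem v13609 : PV l13609 := r13609 v1246 v13607 w2460 v13608 v3303 v5801 v3312 w4076 v9399
theorem v13610 : PV l13610 := r13610 v3006 v433 v3008 w2501 w2489 v10789 v4708 v3308 v7772 v9579
theorem v13611 : PV l13611 := r13611 v13581 v13580 v13579 v7703 v3008 v1145 v3216 w1152 v433 v1412 w4913 w4904 v4145 v4143 v476 v12235 v12300 v3012 w1153 v12277 v3933 w1116 w1546 w1555 v5039 v12195 v13592 v13590 v1218 v421 v3782 v3786 v13304 w1970 w2381 w4911 v4775 v4771 v12194 w305 w1548 v2259 w3479 v2992 w1117 v1146 v4146 v5269 w4906 v3007 v3006 v2996 v2998 v10351 v4174 v3763 w351 w352 v3134 w4525 w5005 w4336 w800 w799 v5274 v5268 w8353 v11799 w8658 v12241 w5797 v4438 w5480 w5487 w4977 v390 w3460 v2835 v12249 v12153 v12256 v12150 v12181 v12180 v1246 v13600 v13606 v13609 v13610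 v9388 w2460 w3906 v5045 v4540
theorem v13612 : PV l13612 := r13612 v13581 v13579 v13580 v433 v1412 v12300 v5039 v12195 w1153 v12277 v3933 w1116 w1555 w1546 w4904 v4145 v476 v12235 v4143 w4913 w1152 v13611 v2536 w3467 w3468 w299 w300 w302 v12275
theorem v13613 : PV l13613 := r13613 v13579 v13580 v7703 v2996 v2998 v3748 v7692 v3744 v3758
theorem v13614 : PV l13614 := r13614 v13579 v7692 v7656
theorem v13615 : PV l13615 := r13615 v33 w8657
theorem v13616 : PV l13616 := r13616 v13579 w1153 v12277 v3933 w1116 w1546 w1548 v13588 v433 v1412 v3729 w4904 v4145 v476 v12235 v12300 v7703 w4906 v4143 v13589 v1146 v3007 v3731 v12123 v5039 v12195 v13612 v13613 w3469 v13614 w4525 w4327 v2748 v5274 v12241 v13615 v12213 v13591 v12249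
theorem v13617 : PV l13617 := r13617 v13579 v13580 v7703 v3729 v13588 v433 w4906 w4904 v4145 v4143 v13589 v1145 v1412 v12277 v12300 v3011 v3009 v13616 v12262 v12218 v878 w4317 w4315 v12158 w2762 w2764 v3784 v3797
theorem v13618 : PV l13618 := r13618 v13579 v3729 v13588 w4904 v4145 v4143 v13617 v11270 v13562 v12288 v12200
theorem v13619 : PV l13619 := r13619 v13579 v7703 v10356 v2820 v3213 v498 v4144 v9168
theorem v13620 : PV l13620 := r13620 v13579 v13580 v7692 v3749 v7664 w3232 v2912 v3761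
theorem v13621 : PV l13621 := r13621 v13579 v13580 v13581 w4344 v7703 v10356 v2820 v3213 v3216 v13619 v2767 w4527 v4140 v4967 v2534 v3757 v1021 w2757 v3759 w6519
theorem v13622 : PV l13622 := r13622 v13579 v13581 v13580 v7703 v13618 v3213 v10356 v3730 v3216 v13620 w4327 w4344 v2748 v13621 v433 w4906 v2768 v1412 v1145 v2823 v13590 w6519 w2764 w6377 v2922 v3792
theorem v13623 : PV l13623 := r13623 v5034 v1247 v3008 w2493 w2557 v7806 v5068 w2461 w3952 w4031 w3896 v3303 v12805 v4031 v3986 w3877 w1748 w1609 w818 w1616 w6250 w2441 w2561 w6033 v8661 w6065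
theorem v13624 : PV l13624 := r13624 v4967 w853 w929 v13623 w2444 w2451 v3075 v1085 v8096 v3308
theorem v13625 : PV l13625 := r13625 v1244 v1247 v4967 v1210 v4502 w122 v13624 v10801 v12056 v5178 v3308 v10068 v5033 w3888 v5799
theorem v13626 : PV l13626 := r13626 v4967 v4966 v3008 v325 v12754 v10977
theorem v13627 : PV l13627 := r13627 v7207 v5808 v8856 w5912
theorem v13628 : PV l13628 := r13628 w2393 w1647 v13627 w947 v11960 v4083 v12031 w5513 v5866 w3832 w3829 w6690 w4037 w6179 w6190
theorem v13629 : PV l13629 := r13629 v4438 w694 v11676 v11123 w714 v13052 w3671 w2269 v10156 w1465 w8229 w5733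
theorem v13630 : PV l13630 := r13630 w5300 w4745 v5871 v5751 v11275
theorem v13631 : PV l13631 := r13631 v2269 w695 w699 v3933 w1116 w1117 w3391 v2322 w3671 v13630 w5636 w5254 w5248 w5647 v10530 v12319 w1089 v11275
theorem v13632 : PV l13632 := r13632 v13581 v13579 w1153 v12277 v3933 w853 w929 v3736 v13622 v3727 v7703 v3000 v3001 v4143 w4898 v1210 v12314 w305 w4469 v12963 w4484 v4139 v12195 v2846 v12278 v12249 v12997 v4438 w776 v3002 v12123 w3229 w3813 v10352 v4172 w352 v3732 w4910 v4109 w4883 w4904 v4968 v4969 v476 v472 v12174 v12212 v3133 v13626 v4502 w122 w123 v5034 v4526 w1116 w297 v390 v485 v12227 w5335 w5470 v12135 w1152 w340 w8679 w3784 w8814 w3770 v4621 w2798 w777 v12248 w5333 w5168 v12300 v13089 v12226 w1117 w4479 w4465 v13587 w5380 v4967 v4966 v1209 v4149 v3008 v325 w2493 w2501 w2442 v9096 v3303 v4055 v12805 v10159 w1748 w4033 w3978 w4031 w3896 w1609 v3986 w6251 v3968 w1616 w6250 w2561 v8661 v4750 w8603 v13628 v9771 v8726 v9109 v4082 w5407 v13629 w730 w699 v2269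 w718 w725 w690 w336 w337 v5041 v13631 w3724 w3677 v2303 v10590 w5705 w5699 v11075 v26 w1089 w2283 w8087
theorem v13633 : PV l13633 := r13633 v13579 w1153 v7703 v13622 v3727 v3001 v4143 w4898 w4910 v3002 v4109 w4883 w4904 v4968 v4139 v13587 v1210 v12314 v12278 v12277 v3933 v12195 v12300 v476 v472 v12174 w4469 v12963 w4484 v2846 v12249 v12997 v390 v485 v12227 v12248 w2798 v3000 w305 v4438 w776 v12123 w3229 w3813 v10352 v4172 w352 v3732 v4969 v12212 v12888 v3133 v13626 v13625 v1244 v1247 v4967 v13632 w2444 w2451 v3075 v1085 v8096 v3308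
theorem v13634 : PV l13634 := r13634 v10801 v12056 v5178 v3308 v10068 v5033 w3888 v5799
theorem v13635 : PV l13635 := r13635 v3303 v5034 v3008 w2493 w2557 w2461 v4055 v12805 v3986 v4031 w4031 w1609 w818 w3876 w1616 w6250 w2441 w2561 w6075 v8661 w6065
theorem v13636 : PV l13636 := r13636 v5034 v3303 v10159 w1748 v13635 w2451 v3075 v8096
theorem v13637 : PV l13637 := r13637 v13580 v13579 w1153 v12277 v3933 w1116 v2259 v7703 v13622 v3001 v3727 v4143 w4898 v1210 v12314 v4139 v12278 w5381 v13304 w1970 w2381 w305 w4469 v12963 w4484 v12195 v2846 v12249 v12997 v4438 w777 w8507 w776 v390 v485 v12248 v12227 v12300 v11793 v4767 v4779 v12212 w5168 v476 v472 v12174 v13587 w4910 v4967 w4904 v4969 v4968 v1209 v3002 v4109 w4883 v3732 v12123 v3000 v7692 v3749 v7664 v3751 v3761 w2798 w3229 w2779 w3813 v1244 v12888 v10352 v1247 v4172 w352 v3133 v13626 v5034 v4502 v13625 w122 v13634 w853 v13633 w929 v13636 v3308 v1073 v12798 v3991 v9096 w2444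
theorem v13638 : PV l13638 := r13638 v13579 v13580 v13581 v3216 v7703 v13622 v3001 v3727 v4143 w4910 v4967 w4898 v1210 v4139 v3000 v12277 v12314 w5381 v12195 v2846 v12300 v11793 v4767 v13637 w4327 w4344 v2748 w4539 v3757 v1021 v3792 v3794 v2537 w2757 w6519
theorem v13639 : PV l13639 := r13639 v13579 v13580 v13581 v7703 v13622 v3001 v3727 v4143 w4904 v4969 w4898 v1210 v1209 v4139 v12123 v11453 v12134 v3000 w1153 v3216 v13638 v11270 v13562 v12288 v3011 w3480 w3468 w3469 w305 v35 w8660 w5769 w5806 w5770 v2308 w4967 w5327 w5003 w4989 w5007 v12199 v7664 v3933 v12158 v3761 w1116 v4438 w2798 w2757 w1546 w776 w6795 w8656 w351 w783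
theorem v13640 : PV l13640 := r13640 v13580 v13579 w5003 w5007 v3762 v3746 v13470
theorem v13641 : PV l13641 := r13641 v13581 v13579 v13639 v7703 v13622 v3001 v3727 v4143 w4898 v1210 v4139 v12123 v11453 v12135 v12134 v3002 w1152 w1153 v12277 v12314 w5380 w5382 v13587 v12278 w4469 w4484 v3933 w305 v12195 w8508 v12963 w1116 v2846 v12249 w1546 v12997 w297 v4438 w776 v13640 v2720 v2260 v2261 v10352 w3100 w3820 w3796 w3795 v12187 w8504 w8525 w759
theorem v13642 : PV l13642 := r13642 v13579 v7703 v13622 v3001 v3000 w1153 v12134 v12123 v3727 v4143 v4139 w4898 w4904 v1209 v4969 v13639 v13641 v11270 v13562 v12288 w3480 w3469 w305 v35 w8660 w5806 w5007 v13640 v3746 v3748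
theorem v13643 : PV l13643 := r13643 v13579 v13580 v13581 v7703 v13622 v3000 v3001 v13642 v3213 v3728 v3216 v1138 v4144 v1242 w4898 w4904 w4910 v1210 v4967 v7664 w4329 v7692 w4550 w4347 v2749 v1021 v3757 v2824 v3792 v3794 w2757 w6519
theorem v13644 : PV l13644 := r13644 v13580 v13500 v2818 v11373
theorem v13645 : PV l13645 := r13645 v13580 v3008 v325 v3216 v501 v13644 w2902 w2898 v5794 v13198 v5268
theorem v13646 : PV l13646 := r13646 v13580 v3216 v13645 w4898 w4910 v10323 v13500 v2820
theorem v13647 : PV l13647 := r13647 v13580 v3216 v5276 v5794 v5112 v5274 v2895 v4630 w4509 w4503 v1770 v5169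
theorem v13648 : PV l13648 := r13648 v13579 v13580 v3216 v13646 v5112 v4655 v5276 v433 v5794 v429 v13647 v5798 v1254 v3783 w4317 v5796 v1099 v4411
theorem v13649 : PV l13649 := r13649 v13580 v13579 w4542 w4547 v3775 v3748 v2907 w2776
theorem v13650 : PV l13650 := r13650 v13579 v13580 v13581 v501 v495 v13648 v5036 v2996 v2993 v2994 v2998 v3137 v13198 v3748 v3777 v5268 w4329 w4347 v3776 v5794 w6449
theorem v13651 : PV l13651 := r13651 v13579 v13581 v12123 v12135 w1152 w1153 v12277 v12300 v3933 v3012 w1116 w1548 w3467 w3469 v13615 w4974 v11800 v12186 w340 w8374 w8679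
theorem v13652 : PV l13652 := r13652 v13651 v11270 v13562 v12288 v12200
theorem v13653 : PV l13653 := r13653 v13579 v3729 v404 v13643 v13648 v5036 v3123 v13649 v429 v1146 w4897 v433 v4109 v1412 v13650 v13652
theorem v13654 : PV l13654 := r13654 v13579 v404 v12134 v13643 w1153 v3729 v13653 v503 w4898 v4766 v4106 v1210 v13587 v480 v11270 v13562 v12288 v485 v12304 v3009 w3480 w305 v12318 v12315 w8660 v11223 v11233 w4959
theorem v13655 : PV l13655 := r13655 v13579 v13580 v3123 w4530 v3775 w3231 w3211 v2911 v13198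
theorem v13656 : PV l13656 := r13656 v13579 w1153 v12277 w4469 w4484 w4492 w5380 v12314 v3933 v12963 v12195 v12278 w1116 v2846 w1555 v12249 v12997 w340 w788 w8377 w3107 w8528 v12182
theorem v13657 : PV l13657 := r13657 v13579 v13581 w1152 w1153 w1570 w1584
theorem v13658 : PV l13658 := r13658 v13579 v13580 v13643 v13648 v3729 v13654 v2820 v2997 v2999 v13650 v3748 v2722 v7692 v3776
theorem v13659 : PV l13659 := r13659 v13581 v13579 v13304 v12123 v11453 v12135 v13657 v13643 v13648 w353 v5036 w1152 v3008 v13658 v3000 v3001 v3002 v3727 v4109 w4887 w4897 w4903 w4883 v4106 v1217 v1218 v4969 v13655 v13656 v11270 v13562 w340 w3467 w3468 w3469 w781 w8374 v35 v6273 w8679 w8680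
theorem v13660 : PV l13660 := r13660 v13579 v13580 v13581 v5036 v3124 w4530 w4514 w4520 w4504 v13649 v3777 v7652 w2774 w2788 v5275 w2783 v4639 w6594
theorem v13661 : PV l13661 := r13661 v13579 v13657 v13659 v12292 v12277 w1117 w1560 v4655 v433 v426 v421 v429 w4495 v5112 v5274 v1360 v13304 v13643 v13648 w353 v5036 v3729 v2895 w3143 v4110 v4108 v13660 w5380 v12303 v7651 w340 w3202 w788 v12181 w8377
theorem v13662 : PV l13662 := r13662 v13580 v13579 v501 w4530 w4534 v13655 v3132 v3777 v7682 v13470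
theorem v13663 : PV l13663 := r13663 v13580 v13579 v13648 w3137 v2901 v4766 v3774 v3746 v7692
theorem v13664 : PV l13664 := r13664 v13579 v13580 v13581 v13648 v5036 v7692 v7682 v6354 w2799 w3236 w3214 v13470 v5798 v786 v3777 v5794 w4312 w6726
theorem v13665 : PV l13665 := r13665 v13579 v13580 v13581 v13643 v13648 v5036 v13659 v1360 v5112 v4655 v5276 v5274 v433 v426 v429 v421 v1254 v13661 v3727 v13662 v13663 v2820 v13664 w4327 w4344 w4553 v5793 v786 v2730 w2796 w2783 w6347
theorem v13666 : PV l13666 := r13666 v13643 v13648 v13665 v3213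
theorem v13667 : PV l13667 := r13667 v13580 v13579 v13666 v11362 v3008 v11371 v13562 w2869 v13287 v5039 v12192 v3935 v3933 v12132 w4685 v1218 v5178 w4327 v480 v11465 v4967 w4911 w4910 v4773 v13620 v4143 v3727
theorem v13668 : PV l13668 := r13668 v13579 v13666 v11362 v11371 v13562 v13287 v5039 v12192 v5178 w4329 v480 v11465 v4967 v1412 v878 v3729 w2776 v3748
theorem v13669 : PV l13669 := r13669 v13579 v13666 v11362 v11371 v480 v13287 v11465 v4967 w4910 v13667 v13668 v3001 v3727 v4143
theorem v13670 : PV l13670 := r13670 v13579 v13666 v11362 v3008 v11371 v13562 w2869 v13287 v5039 v12192 v3935 v3933 v12132 w4685 v1218 v5178 w4327 v11270 v12296 v1243 v1138 v13669 v3213 v3728 v13620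
theorem v13671 : PV l13671 := r13671 v13580 v13581 v13666 v3935 v11362 v11371 v13287 v480 v11270 v13562 v5039 v11465 v3012 v12236 v12192 v4967 v12321 v12228 v5178 v1412 v5269 w4488 v878 w4315 w4327 v3007 v13670 v5036 v5792 v3807 v4639
theorem v13672 : PV l13672 := r13672 v13580 v13579 v13671 v5035 v3216 v13646 v5112 v4655 v5276 v13647 v433 v5794 v426 v429 v5798 v421 v1254 v1138 v10365 w5188 v4630 v2817 v4411 v5796 v5165
theorem v13673 : PV l13673 := r13673 v13580 v13579 v13672 v13671 v5035 v7692 v3775 v3212 v2907 w2776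
theorem v13674 : PV l13674 := r13674 v13579 v13672 v13671 v12888 w2780 v3212 v3755
theorem v13675 : PV l13675 := r13675 v13579 v13672 v13671 v7692 v13673 v3212 v3211
theorem v13676 : PV l13676 := r13676 v13579 v13581 v13580 v13672 v13671 v5035 v5036 v3741 v13674 v13675 w4327 w4344 v2748 v3776 v5793 w2774 w2787 w2788 v1022 w6347 v4411
theorem v13677 : PV l13677 := r13677 v13579 v13580 v13671 v13676 v3738 v13672 v5035 v7692 v3211 v13470 v3212 v3777
theorem v13678 : PV l13678 := r13678 v13579 v13580 v13581 v13677 w4327 w4344 v13671 v13676 v3738 v13672 v5035 v5036 v3123 w4898 w4910 v4766 v5793 w4539 w4553 v3774 v1360 v2727 w3231 v4967 w3211 v2534 w6449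
theorem v13679 : PV l13679 := r13679 v13580 v13579 v13672 v13671 v5035 v13676 v3738 v13677 v13678 v3001 v1360 v5793 v3776 v13470 v3754 v3211
theorem v13680 : PV l13680 := r13680 v13672 v13679 v3213
theorem v13681 : PV l13681 := r13681 v13680 v13580 w4354 v3216 v7703 v5035 v501 w4569 w4557 v4771 v1412 v1145 v3761 v878 v3763 w2764 v13590
theorem v13682 : PV l13682 := r13682 v13579 v13657 w1153 v12123 v11453 v12134 w5363 v12314 w5382 w5364 w305 w8508 v35 w3820 w3796 w8504 w8526
theorem v13683 : PV l13683 := r13683 v13579 v12135 v2725 w340 w3467 w8374 w8679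
theorem v13684 : PV l13684 := r13684 v13581 v13579 v13657 w1152 v13304 v12123 v11453 v13682 v11270 v13562 v12288 v12304 w3478 v13683 v4170 w3468 w3469 v11461
theorem v13685 : PV l13685 := r13685 v13680 v13581 v13579 v7703 w4884 v1210 v1209 w5004 w5506 v4139 w4354 w4310 v5035 v3725 v13684 v4969 v433 v1412 v878 w2759 w6795 v2725 v4783
theorem v13686 : PV l13686 := r13686 v13579 w1153 v12314 w5382 w305 v12195 w8508 w3538
theorem v13687 : PV l13687 := r13687 v11270 v1210 v11960 v4082 v13562 v12265 w3460 v480 v12304 v3009 v12317 v12315 v4438 v12237 w1117 v485 v12207 v12288 v12202 v2992 v11364 v1209 v11440 v8170 v11437 v2708 v2619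
theorem v13688 : PV l13688 := r13688 w2393 v5035 w5826 v8562 v2619 v8242
theorem v13689 : PV l13689 := r13689 v13579 v13680 v5035 v12134 v3725 v4139 v7703 v1210 v13686 v13562 v12265 w3460 w1117 v11270 v480 v3009 v12317 v4438 v8185 v12288 w305 w776 v12304 v12315 v12237 v12198 v485 v12207 v12248 v12202 v2992 w297 v11364 v2726 v1209 v4149 v3733 w1647 v13627 w947 v11960 v13687 w730 v2269 w718 w336 w337 v5041 v13688 v11437 w3436 w3438 v9427 v10743 w3434 v10742 v5871 v10753
theorem v13690 : PV l13690 := r13690 v13579 v13680 v13581 w5006 v5035 v12134 v3725 v4139 v7703 w4884 v1210 v13686 v13562 w3478 v13304 w351 v11270 v12288 w305 w799 v1594 v4558 v480 v12304 w4568 v10818 v3009 w4843 w4499 v12317 v12315 v4438 w776 w1153 w4496 v12198 w1116 w1548 v12123 v2995 v3785 v3787 v12265 w3548 w8800 w5753 w3460 v12237 v433 v4968 w4497 v4967 v4966 w4354 w4310 w4321 v11364 v1244 v1139 v485 v12207 v12248 v12202 v2992 v3012 v13590 w5004 w5506 v2726 v2998 w352 v13685 v1209 w4868 v4149 v3733 v3008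 v12800 v5034 v4502 v10801 v11568 v4526 w122 w853 v12322 w2493 w2501 w2559 v4055 v12805 w929 v3303 w3952 w3978 w4028 w3907 w1609 w1748 v3986 v3968 v4031 w1616 w818 w2424 w6250 w3886 v6005 w5949 v13689 v9771 w1132 w1160 v8726 v11386 v11254 v4082 v4602 v12301 v11070 w5015 v2708 v10936
theorem v13691 : PV l13691 := r13691 v7703 v433 v4968 v4967 v4966 v3008 v5035 w853 v10992 v12322 v10756 w925 v5034 v4502 v3303 w2493 w2554 w2450 v4055 v12805 w119 w1748 w3952 w1609 v3986 w1615 v4751 w6248 w4024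
theorem v13692 : PV l13692 := r13692 v433 v4968 v4967 v10801 v10766 v7772 v12951 w3938
theorem v13693 : PV l13693 := r13693 w1117 v12277
theorem v13694 : PV l13694 := r13694 w1564 w1555
theorem v13695 : PV l13695 := r13695 v6354 v5798
theorem v13696 : PV l13696 := r13696 v785 v1021
theorem v13697 : PV l13697 := r13697 w2764 v2922
theorem v13698 : PV l13698 := r13698 w2764 w2785
theorem v13699 : PV l13699 := r13699 w2774 w2787
theorem v13700 : PV l13700 := r13700 w2776 v2907
theorem v13701 : PV l13701 := r13701 w2776 w2792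
theorem v13702 : PV l13702 := r13702 w2776 w2791
theorem v13703 : PV l13703 := r13703 w2758 w2799
theorem v13704 : PV l13704 := r13704 w2757 v2907
theorem v13705 : PV l13705 := r13705 w2761 v2907
theorem v13706 : PV l13706 := r13706 w2756 w2797
theorem v13707 : PV l13707 := r13707 v2251 w3791
theorem v13708 : PV l13708 := r13708 v2321 w3791
theorem v13709 : PV l13709 := r13709 v1145 v1209
theorem v13710 : PV l13710 := r13710 v1145 v1210
theorem v13711 : PV l13711 := r13711 v1146 v1210
theorem v13712 : PV l13712 := r13712 v4969 v3006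
theorem v13713 : PV l13713 := r13713 v4969 v3007
theorem v13714 : PV l13714 := r13714 w5805 v2264
theorem v13715 : PV l13715 := r13715 w5805 w5779
theorem v13716 : PV l13716 := r13716 v5643 v13696
theorem v13717 : PV l13717 := r13717 w1562 w1559
theorem v13718 : PV l13718 := r13718 v13680 w4564 w4570 v4655 v3007
theorem v13719 : PV l13719 := r13719 v13680 w4558 w4570 v4655 v1146
theorem v13720 : PV l13720 := r13720 v3935 v12277
theorem v13721 : PV l13721 := r13721 v13720 v3935 v11270 v12288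
theorem v13722 : PV l13722 := r13722 v13720 v3935 v11364
theorem v13723 : PV l13723 := r13723 v13720 v11270 v3935 v12304
theorem v13724 : PV l13724 := r13724 v13562 v12292 w2880
theorem v13725 : PV l13725 := r13725 v13562 v12292 v3011
theorem v13726 : PV l13726 := r13726 v13562 v12292 v3012
theorem v13727 : PV l13727 := r13727 v13562 v12292 v2992
theorem v13728 : PV l13728 := r13728 v3933 v13721 v13720 v13724 v13723 v12316
theorem v13729 : PV l13729 := r13729 v3933 v13723 v13721 v13720 v13724 v12172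
theorem v13730 : PV l13730 := r13730 v3933 v13723 v13720 v13562 v13721 v12198
theorem v13731 : PV l13731 := r13731 v13723 v13720 v13562 v13721 v12199
theorem v13732 : PV l13732 := r13732 v13729 v3933 v13720 w4685
theorem v13733 : PV l13733 := r13733 v13729 v3933 v13720 w4696
theorem v13734 : PV l13734 := r13734 v13730 v3933 v13720 w5158
theorem v13735 : PV l13735 := r13735 v13731 v13720 w5327
theorem v13736 : PV l13736 := r13736 v13732 v3933 v13720 v12292 v3008 v1218
theorem v13737 : PV l13737 := r13737 v13680 w4346 w4323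
theorem v13738 : PV l13738 := r13738 v13680 w4346 v11802 w4319
theorem v13739 : PV l13739 := r13739 v13680 v2740 w4311
theorem v13740 : PV l13740 := r13740 v12271 v12292 v13720 v3933 w1116
theorem v13741 : PV l13741 := r13741 v325 v3008 v12292 v5277 v1412 v13680 w4565 v490 v494 w5363
theorem v13742 : PV l13742 := r13742 v12292 v5112 v5274 w4452
theorem v13743 : PV l13743 := r13743 v13657 v13579 w1153 v13694
theorem v13744 : PV l13744 := r13744 v13740 v12271 v13579 w1153 v2259
theorem v13745 : PV l13745 := r13745 v13740 v12271 v13579 w1153 w1548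
theorem v13746 : PV l13746 := r13746 v13680 w4346 w4339
theorem v13747 : PV l13747 := r13747 v13562 v11371 v12239
theorem v13748 : PV l13748 := r13748 v13562 v11371 v12300
theorem v13749 : PV l13749 := r13749 v13562 v13748 v1412 w4498
theorem v13750 : PV l13750 := r13750 v13562 v13748 v1412 v433 w4476
theorem v13751 : PV l13751 := r13751 v13562 v13748 v1412 v433 w4487
theorem v13752 : PV l13752 := r13752 v13562 v13748 v1412 v433 v429 w4469
theorem v13753 : PV l13753 := r13753 v11371 v13693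
theorem v13754 : PV l13754 := r13754 v11371 v13720 v3933 w1116
theorem v13755 : PV l13755 := r13755 v13754 v11371 v13579 w1153 w1548
theorem v13756 : PV l13756 := r13756 v13287 v11371 v480 v11465
theorem v13757 : PV l13757 := r13757 v11371 v13562 v13287 v12236
theorem v13758 : PV l13758 := r13758 v11371 v13562 v11270 v12296
theorem v13759 : PV l13759 := r13759 v11371 v13726 v12271 v480 v11270 v12321
theorem v13760 : PV l13760 := r13760 v13287 v5039 v11371 v13562 v12192
theorem v13761 : PV l13761 := r13761 v13287 v5039 v11371 v13562 v12203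
theorem v13762 : PV l13762 := r13762 v13756 v12271 v4967
theorem v13763 : PV l13763 := r13763 v13756 v3935 v13287 v13757 v12228
theorem v13764 : PV l13764 := r13764 v13757 v13287 v11371 v480 v12223
theorem v13765 : PV l13765 := r13765 v13757 v390 v11371 v11270 v480 v485 v12208
theorem v13766 : PV l13766 := r13766 v13759 v11371 v11270 v13726 v12155
theorem v13767 : PV l13767 := r13767 v13759 v11371 v11270 v13726 v12156
theorem v13768 : PV l13768 := r13768 v13760 v12271 v5178
theorem v13769 : PV l13769 := r13769 v13760 v11371 v13725 v13287 v3935 v12129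
theorem v13770 : PV l13770 := r13770 v13760 v5274 v13758 v1243 w4389
theorem v13771 : PV l13771 := r13771 v13760 v5274 v13758 v1243 w4395
theorem v13772 : PV l13772 := r13772 v13762 v11373 v13768 v878
theorem v13773 : PV l13773 := r13773 v13763 v11371 w5331
theorem v13774 : PV l13774 := r13774 v13763 v13760 v5274 v13680 w4543 w5396
theorem v13775 : PV l13775 := r13775 v13763 v13759 w4488
theorem v13776 : PV l13776 := r13776 v13763 v13759 w4477
theorem v13777 : PV l13777 := r13777 v13766 v13758 v1243 v1138 v13765 v1276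
theorem v13778 : PV l13778 := r13778 v13766 v12271 v13710
theorem v13779 : PV l13779 := r13779 v13769 v13759 w4295
theorem v13780 : PV l13780 := r13780 v13760 v5274 v13680 w4543 v13758 v1243 w5196
theorem v13781 : PV l13781 := r13781 v13775 v12271 v3006
theorem v13782 : PV l13782 := r13782 v13775 v12271 v3007
theorem v13783 : PV l13783 := r13783 v13680 w4841 v13749 v13741 w2865
theorem v13784 : PV l13784 := r13784 v13730 v472 v477 v13763 w1116
theorem v13785 : PV l13785 := r13785 v476 v477 v13763 v11270 v12288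
theorem v13786 : PV l13786 := r13786 v476 v477 v13763 v11364
theorem v13787 : PV l13787 := r13787 v13731 v477 v13763 w1117
theorem v13788 : PV l13788 := r13788 v476 v11270 v477 v13763 v12304
theorem v13789 : PV l13789 := r13789 v13784 v472 v477 v13763 v13579 w1153 w1548
theorem v13790 : PV l13790 := r13790 v472 v13785 v476 v13562 v13730 v12173
theorem v13791 : PV l13791 := r13791 v13755 v13789 w5158
theorem v13792 : PV l13792 := r13792 v13721 v3933 v13785 v472 v13747 v12196
theorem v13793 : PV l13793 := r13793 v5039 v13287 v5038 v12288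
theorem v13794 : PV l13794 := r13794 v13793 v13747 v5039 v13287 v12229
theorem v13795 : PV l13795 := r13795 v13753 v13787 v472 w5158
theorem v13796 : PV l13796 := r13796 v13793 v11270 w297
theorem v13797 : PV l13797 := r13797 v13773 v13735 v3933 w1116
theorem v13798 : PV l13798 := r13798 v13580 v7703 v501 v13681 v2997 v4773 v3763
theorem v13799 : PV l13799 := r13799 v13579 v3736 v3008 w2563 v9759 v12805 w2569 v3303 w1647 v9184 w1748 w5815 w6251
theorem v13800 : PV l13800 := r13800 v13579 v13580 v4141 v4139 w5826 w4574 v5665 v10914 v13688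
theorem v13801 : PV l13801 := r13801 v13579 v13580 v2994 v3213 v10356 v3216 v10323 v5794 w4395 v5268
theorem v13802 : PV l13802 := r13802 v13680 v13579 v8837 v13746 v3790 v3781 v3725
theorem v13803 : PV l13803 := r13803 v13580 v5794 v3216 v13802 v3776 v3805 w4902 v13205
theorem v13804 : PV l13804 := r13804 v13680 v13579 v13801 v3000 v2996 v2995 v2994 v13748 v3011 v4967 v1145 w4395 v5268 v13803 v5035 v3725 v10349 v3134 v11364 v12333 v12331
theorem v13805 : PV l13805 := r13805 v13680 v13579 v13748 w5818 w5826 w4572 w4574 w4571 v3134 v1149 v11364 v12333 v12331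
theorem v13806 : PV l13806 := r13806 v13680 v13579 v13580 v13801 v3000 v2994 v2993 v13748 v3011 v3008 v13805 v20 v4083 v5035 v3740 v2725 w5195 w4555 v3134 v13198 v1145 v11364 v12333 v12331
theorem v13807 : PV l13807 := r13807 v13580 v13579 v13680 v13801 v3000 v2998 v2996 v5035 v3740 v2725 w5195 v3134 v13645 v3777 v3755 v11802
theorem v13808 : PV l13808 := r13808 v13680 v13579 v13801 v3000 v13807 v4083 v3725 v20 v13806 w5826 v13780
theorem v13809 : PV l13809 := r13809 v13580 v13680 v13579 v7495 v2994 v2995 v2996 v2998 v3000 v2707 v13801 w2393 v13808 v5036 v5035 v3725 v4170 v494 w4555 v4174 v1145 v10350 v3216 v4789 v10336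
theorem v13810 : PV l13810 := r13810 v13680 v13579 v12123 v13748 w3469 v3011 v13780 w4555 v4172 w1153 v13733 v1145 v1146 w4395 w1116 w1548 v13615 w5451 v12333 v12331
theorem v13811 : PV l13811 := r13811 v13680 v13579 v13580 v5035 v3723 v1145 w4880 w4874 v10349 w2764 v2922 v3788 v3791
theorem v13812 : PV l13812 := r13812 v13579 v12123 v11453 v12135 v13748 w3469 w3468 w3467 v1243 v5036 v13810 v4168 v13811 v1210 v13792 w301 w299 w300 v12216 v34 v768 v11270 v13774 v6273 v12304 v13657 w8656
theorem v13813 : PV l13813 := r13813 v13794 v13748 v35 v12216 v13774 w5358 w5375 w5379 v12200 v13731 v12175 v12317 v12245 v12228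
theorem v13814 : PV l13814 := r13814 v13581 w1152 v13683 v11270 v12021 w4462
theorem v13815 : PV l13815 := r13815 v13680 v13579 v498 v503 v4783 v12123 v2820 v404 v13748 w3469 v3009 v4967 v424 w4258 v1209 v1210 v878 v13813 v4106 v3737 v3740 w2776 v13814 v13759 v13760 v13774 w4965 v2906 v3755
theorem v13816 : PV l13816 := r13816 v13680 v13579 v13580 v503 v2820 v404 v4139 v4106 v13298 v3737 v3740 v3755 v3774 w2776 v2907
theorem v13817 : PV l13817 := r13817 v13579 v13581 v13580 v13812 v1243 v13748 v498 v4783 v13794 v13815 v13771 w4395 w4890 w4885 w4874 w1152 v5268 v13816 v13811 v12216 v13298 v11270 v5793 v13683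
theorem v13818 : PV l13818 := r13818 v13581 v13780 w1152 v11270 w5453 w340 w8679
theorem v13819 : PV l13819 := r13819 v13680 v12135 v13748 w3467 v1243 v3011 v13812 v13817 w4555 v1145 w4395 v13818 v12333 v12331
theorem v13820 : PV l13820 := r13820 v13581 v13748 w3467 v494 v13780 v13818 v490 w1152 v12251 w5169 v2533 v390 v12151 v12152 w340 w8679 w8374 v12189 w4941 w6449 w6347
theorem v13821 : PV l13821 := r13821 v13579 v13794 v498 v13304 v12123 v11453 v12134 v13748 w3472 w3470 w3469 w3468 v11371 v13755 w5380 w5382 w5363 w5364 v12216 v13657 v13743 w1153 w8377 w8354 w8350 w8376 v2300 w798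
theorem v13822 : PV l13822 := r13822 w8679 w8374
theorem v13823 : PV l13823 := r13823 v13581 v13822 w1152 v13767 v13777 w8623 w8323
theorem v13824 : PV l13824 := r13824 v13579 v12135 v13748 w3467 v13820 v4783 v13821 v11270 w340 v13823
theorem v13825 : PV l13825 := r13825 v13680 v13579 v13581 v2820 v404 v13748 w3470 w3469 w3468 w3467 v1243 v3010 v3011 v12123 v13819 v13824 v5036 v5035 v3725 v3723 v13728 v4139 v4168 v4106 w4557 v4143 v13780 v13719 w4543 v1145 v13657 v13743 w1153 w1152 w1116 w1548 v13615 w5451 v12331 v5039 w299 w300 w302 v12275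
theorem v13826 : PV l13826 := r13826 v13680 v13579 v3213 v2820 v5036 v4176 v5035 v4148 w4555 v3734 v13798 v1145 v11802 v3745 v3753
theorem v13827 : PV l13827 := r13827 v5038 v11270 v11371 v12251 w5169 v12122 v390 v12151
theorem v13828 : PV l13828 := r13828 v13581 v13580 v13680 v13579 v7495 v4967 v1243 v13809 v2820 v404 v13825 v3213 v3216 v13826 v2823 v2533 v498 v2822 w4896 w4892 v503 v4148 v4411 v4112 v13298 v4372 v2921 v13697
theorem v13829 : PV l13829 := r13829 v13580 v13581 v2533 w4892 w4886 v2532 v4411 v5794 v13716 w6537 v878 w2755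
theorem v13830 : PV l13830 := r13830 v13579 v13748 v4783 v13821 v13683 v11270
theorem v13831 : PV l13831 := r13831 v13579 v13580 v4967 v13829 v3216 v3213 v4783 v13815 v13830 w4885 v5793
theorem v13832 : PV l13832 := r13832 v13680 v13748 w3467 v3010 v3011 v4967 v13829 v12137 v3216 v3213 v13824 v13831 w4555 v13818 v1145 w4395 v12331 v12333
theorem v13833 : PV l13833 := r13833 v13680 v13748 v3011 w4555 v13818 v1145 w4395 v12331 v12333
theorem v13834 : PV l13834 := r13834 v13579 v13748 w3467 v3010 v12135 v13824 v13833 v4783 v13821 v13823 v11270 w340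
theorem v13835 : PV l13835 := r13835 v13581 v13680 v13580 v13579 v13828 v13758 w1152 v7495 v4967 v13809 v2820 v13832 v5035 v13834 v3213 v2823 v3216 v2536 v498 v2533 w4907 v4140 w4892 v3724 v10320 v3792 v13701 v3745
theorem v13836 : PV l13836 := r13836 v13580 v13680 v13579 v3213 v2823 v3216 w4880 w4874 v13829 v3792 v5035 v3724 v3782 v13697
theorem v13837 : PV l13837 := r13837 v13579 v12135 v13748 w3467 v4783 v13821 v13823 v11270 w340
theorem v13838 : PV l13838 := r13838 v13581 w1152 v13748 v13794 v13823 v12216 w340 v5038 v12169 v12170 v12333 w8655 v12282 w5473 v12151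
theorem v13839 : PV l13839 := r13839 v13581 v13734 v13795 w1115 v4967 w4409 w1152 v13748 v3011 v3012 v5038 v11800 v12333 v12233 v12282 v12151 w5482 w8679 w8655
theorem v13840 : PV l13840 := r13840 v13581 v4967 w4409 v1145 v13734 v13795 w1115 v1242 w1152 v13748 v3010 v3011 v2992 w3467 v13836 v12135 v13837 v494 v13818 v490 v476 v2533 v13838 v13839 w340 v12181 w8679 w5461 w5473 w5458 w4958 v12307 v12178 w6347 v390 w6449 v12152
theorem v13841 : PV l13841 := r13841 v494 v490 v13840 v13734 v13795 w1115 v4967 w4409 v13748 v3010 v3011 w3556 v2835 v13838 v13839 v12207 v485 v483 v12246 v12178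
theorem v13842 : PV l13842 := r13842 v13581 v13680 v13579 v11364 v13786 v12123 v11453 v12135 w1152 v13657 v13748 w340 v1127 w5461 w5473 w5458 w8525 v12307 v5039 v12333 v12178 w297 v3725 w3548 w3549 v5035 w342 v13199 v2274 w8526 w8818 v2264 w5773
theorem v13843 : PV l13843 := r13843 v13579 v13580 v5035 v3790 v2921 v5794
theorem v13844 : PV l13844 := r13844 v13579 v13680 v13580 v12135 v13840 v3000 v2995 v2994 v13734 v13795 w1115 v4967 w4409 v13791 v13748 v3011 v494 v3134 v490 v11364 v13841 v13842 v5038 v12333 v3725 v5035 v3740 v13843 v2746 v2744 v3807 v3806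
theorem v13845 : PV l13845 := r13845 v13680 v13579 v13840 v3000 v2995 v4967 w4409 v1145 v13844 v2725 v10349 v3740
theorem v13846 : PV l13846 := r13846 v13580 v13579 v13828 v13758 v7495 v4967 v13835 w4409 v1145 v13840 v2994 v2998 v13845 v3213 v10356 v3216 v13645 v5794 w4888 v2905 v3745
theorem v13847 : PV l13847 := r13847 v13579 v13680 v5036 v5035 w807 v7495 v4967 v2996 v2998 v3000 v2707 v13809 v10356 v3725 w4409 w2393 v4170 v20 v1145 v4174 w5824 v10350 v13798 v3745 v11802
theorem v13848 : PV l13848 := r13848 v13680 v13580 v13581 v5036 v13738 v13739 v2740 v3795 v3797 v878 w6795 w2755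
theorem v13849 : PV l13849 := r13849 v13581 v13579 v13680 v3216 v1145 v5036 v5035 v13748 v3011 v3012 w2792 v13701 w2755 v3723 w6519 w6795 v4106 v10336 w4543 v13592 v12331 v5039
theorem v13850 : PV l13850 := r13850 v13579 v13580 v3216 v1242 v1145 v404 v5036 v5035 v501 v4143 v495 v4771 v13788 w5159 v13848 v3745 v13849 v3792 v3795
theorem v13851 : PV l13851 := r13851 v13580 v13680 v13579 v1242 v1145 v5036 v5035 v13850 w4884 w4888 v4139 v3757 v3745 v3723 v13700
theorem v13852 : PV l13852 := r13852 v13580 v13680 v13579 v5035 w4884 v4139 v3723 v3756 v3725 v13700 v3744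
theorem v13853 : PV l13853 := r13853 v13579 v13680 v13581 v13580 v5036 v5035 v3744 v3725 v13703 v13470 v13695 v3758 w4354 w4310 w4313 v3762 w6707 w6795 v3797
theorem v13854 : PV l13854 := r13854 v13680 v13579 v13580 v5036 v5035 v13852 v4143 v13853 v3742 v3723 v6234 v13700
theorem v13855 : PV l13855 := r13855 v13680 v13580 v13579 v13581 v2820 v5036 v5035 v13854 v13739 v11802 w4905 w4908 v4770 v6736 v3760 v3748 v13704 w6707 v4193 v13848
theorem v13856 : PV l13856 := r13856 v13680 v13581 v13579 v5036 v5035 v1145 v3216 v13657 v13743 w1152 v2820 v13748 w3470 v13851 v1138 v13848 v3745 v404 v13700 v13704 v13705 v3723 w6519 v4168 w4870 v4172 v13849 v12304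
theorem v13857 : PV l13857 := r13857 v13581 v13579 v13580 v13748 w3470 v2820 v5036 v5035 w1152 v13743 v13657 v4967 v1145 v13855 v3216 v13851 v1138 w4395 v13848 v5274 v3745 v13827 v3743 v13856 v3757 v3761
theorem v13858 : PV l13858 := r13858 v13680 v13579 v13748 w3470 w3469 w3468 v13657 v11453 v12123 v13304 v13857 w4555 v1210 v4168 v13792 v11461 v12216 v12200
theorem v13859 : PV l13859 := r13859 v13579 v13680 v3213 v3216 v5036 v5035 w4555 w4258 v1210 v4169 v878 v3724 v10320 w2764 v13590
theorem v13860 : PV l13860 := r13860 v13680 v13579 v13580 v3213 v3216 v5036 v5035 v4169 w4890 w4874 v3724 v3745 v3792 v13701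
theorem v13861 : PV l13861 := r13861 v13680 v13579 v13580 v2619 v4595 v7495 v4967 v13828 v13758 v13846 v5036 v5035 v13847 v13858 v3213 v3216 v13859 v1145 v13860 v4173 v13848 v3745 v3743 v3724 v13701 v3792 v3795
theorem v13862 : PV l13862 := r13862 v13579 v11373 v5036 v7703 v10356 v13859 v1145 v13860 v4175 v2580 v3003 v5519 w6525 w6333
theorem v13863 : PV l13863 := r13863 v13580 v13680 v13579 v5036 v7703 v4967 v11373 v5035 v13771 v1145 v13858 v2994 v2995 v2996 v2998 v3000 v10349 v3725 v494 v4174 v10350 v3216 v4789 v10336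
theorem v13864 : PV l13864 := r13864 v5036 v7703 v4967 v13862 v13863 v1210 w4409 v7971 v1137
theorem v13865 : PV l13865 := r13865 v1210 w4409 v7971 v1137
theorem v13866 : PV l13866 := r13866 v13861 v13864 v4967 v11373 v13865 v13771 v1145 v13845 v1137 v2580 v3003 v5519 w6525 w6333
theorem v13867 : PV l13867 := r13867 v4655 v13211 v7495 v7646 w4576 w2924 w6333
theorem v13868 : PV l13868 := r13868 v13867 v3003 v5519 w6525 w6333
theorem v13869 : PV l13869 := r13869 v13579 v13580 v13861 v13864 v13867 v4967 v13866 v11373 v13865 v3213 v13771 v1145 v3216 v13868 v2580 v1137 v13840 v2994 v2998 v10356 v5794 v3807 v13738 v3745 v2905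
theorem v13870 : PV l13870 := r13870 v13580 v13579 v3213 v3216 v2994 v2998 v10356 v5794 v3807 v13738 v3745 v2905
theorem v13871 : PV l13871 := r13871 v13680 v13579 v13580 v1145 v13870 v3213 v3216 v13771 v4967 v11373 v1242 v13840 v5036 v13860 v5035 v4173 v3724 v13848 v3745 v13701 v3792 v3795
theorem v13872 : PV l13872 := r13872 v1145 v13771 v4967 v11373 v13748 v3011 w4395 v5274 v13827 v12304 v12331 v12272 v5039 w312 w8355 w8566
theorem v13873 : PV l13873 := r13873 v4967 v11373 v13771 v3318 v13872 v13871 v13863 v13845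
theorem v13874 : PV l13874 := r13874 v13748 v3318 v12200 w8566 v12216 w8355
theorem v13875 : PV l13875 := r13875 v4967 v11373 v13748 v13869 v12133 v2584 v2589 v2708 v13873 v1210 v13792 w312 v13874 v11371 v13760 w5730 w8611 w8566
theorem v13876 : PV l13876 := r13876 v13793 v12200
theorem v13877 : PV l13877 := r13877 v13680 v13579 v4967 v11373 v13748 v3010 v13863 v13845 v13824 v3000 v13807 v3725
theorem v13878 : PV l13878 := r13878 v13579 v2820 v3213 v3216 v11373 v13836 v13829 v2823 v4140 v498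
theorem v13879 : PV l13879 := r13879 v13680 v13579 v13580 v4967 v11373 v3008 v13869 v13875 v3003 v2576 w6374 w4572 w4574 w6435 v13770 v1149 v13877 v3213 v13870 v13871 v3216 v1138 v13878 v5036 v13860 v13848 v5035 w5195 v3745 v3743 v3724 v13798 v13700 v3757
theorem v13880 : PV l13880 := r13880 v13879 v4967 v11373 v13748 v3011 v3008 v325 v13869 v424 v421 v1149 v3029 v7935 v13178 v2561 v13722 v11364 v5274 v3003 v2559 v12331 v12122 v11648 v12241 v13877 v390 v13871 v12255 v13827
theorem v13881 : PV l13881 := r13881 v13579 v11373 v13748 v5269 v13801 w3467 v13859 v2822 w340 v9251 v13823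
theorem v13882 : PV l13882 := r13882 v13581 v13680 v13879 v4967 v11373 v13748 v3009 v3010 v3008 v13869 w1152 v13880 v418 v1218 w4572 v13178 v13792 w6478 v3006 v13712 w6731 v429 w4561 w4251 w4411 v13722 v13786 v11364 w4464 w5358 w4288 v12251 w5169 w5168 v13755 v12264 v12216 v12169 v390 v12249 v12152 v13881 v12123 v13683 v13821 w301 w3548 w8505
theorem v13883 : PV l13883 := r13883 v13869 v13879 v13882 v13760 v13781 v5274 v13178
theorem v13884 : PV l13884 := r13884 v13883 v12292 v13720 v12271 v3318 v5112 v13790 v4655 w4490 v7495 v13869 v12133 v12267 v6233 v5038 v12274 v483 w5729 v12228 v485 v12245 v12238 v6334 v12225 w8403 w8804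
theorem v13885 : PV l13885 := r13885 v4655 v433 v429 v1254 v12292 v13720 v3933 v5112 v13790 w4490 v13742 w3111 w3109 v12157 v12162 v12274 w312 w5729 w8422
theorem v13886 : PV l13886 := r13886 v13869 v12133 v13883 v4655 v12271 v12292 v7495 w4576 v3318 v13720 v13884 v2559 v2576 v8634 w6374 v13885 v2543 v6334
theorem v13887 : PV l13887 := r13887 v4655 v433 v429 v1254 v1138 v1242 w4576 v7495 v5112 v4598 v7509
theorem v13888 : PV l13888 := r13888 v13680 v13579 v12292 v476 v4655 w4565 w5348 v7703 v5036 w4567 v1360 v12135 v4783 w8525 w3556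
theorem v13889 : PV l13889 := r13889 v13680 v13579 v4655 v433 v429 v1254 v1138 v1242 v7703 v3213 v13647 v4372 v3724
theorem v13890 : PV l13890 := r13890 v13581 v13579 v13680 v7495 v13887 v2574 v4655 w4576 w6353 v12292 v13720 v3933 w1132 v433 v429 v1254 v5112 v13790 w4565 w5347 w5346 v476 w5350 w5828 v7703 v5036 w4570 w5394 w4490 v13745 v13744 v13742 v1360 w1153 v13743 w1160 w3111 w3109 v12157 v12162 v12274 w312 w5729 w8381 w8446 v13889 v12134 v12123 v13304 w2393 w2389 v8107 w3853 w3852 w3851 w3850 w8527 w8528 v7651 w8507 w8508 w766 w773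
theorem v13891 : PV l13891 := r13891 v12292 v13720 v5112 v13790 v4655 w4490 w3749 v2542 v12269 v5038 v12274 v483 v2543 v6334 v12245
theorem v13892 : PV l13892 := r13892 v12292 v13720 v12269 v12282
theorem v13893 : PV l13893 := r13893 v13579 v13680 v5112 v13790 v4655 w4565 w5346 w4570 w4569 v7703 v1360 v13304 v12303 v7651 w3563 w3571 v4766 v4106 v3737
theorem v13894 : PV l13894 := r13894 v13680 v13579 v13580 v7703 v5036 v4655 w4567 w4566 v5112 v3213 v4631 v13889 v2535
theorem v13895 : PV l13895 := r13895 v13581 v13680 w1152 v13743 v13886 v1360 v5112 v4655 v12292 v7703 v7495 v13790 v433 w4565 w4490 w4576 v476 v13720 v5036 v429 w5348 v1254 v13887 v13891 v13890 v4604 v6208 w6342 w3111 v12157 v12274 v483 v12228 v12245 v13892 v13894 v12135 v13893 w340 v13888 w8525 w8374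
theorem v13896 : PV l13896 := r13896 v13680 v13579 v13837 v3000 v13807 v3725
theorem v13897 : PV l13897 := r13897 v13680 v13579 v4967 v11373 v13877 w4555 w4409 v13896 v5036 v13858 v5035 v3000 v3725
theorem v13898 : PV l13898 := r13898 v13680 v13579 v4967 v11373 v13863 v13858 w4555 v4170
theorem v13899 : PV l13899 := r13899 v13581 v13579 v3216 w6726 v3744 v13739
theorem v13900 : PV l13900 := r13900 v13581 v13680 v13579 v13580 v13807 v2998 v2996 v2995 v2993 v1138 v11373 v13748 v5269 w1160 w4555 w4557 w4558 v1210 w4574 v2725 v13792 v12152 v12255 w5169 v12200 v13899 v13590 v3785 v13737 v3744 v10323 v3759 v4141 w4899 v10914 v9715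
theorem v13901 : PV l13901 := r13901 v13579 v13895 v4967 v11373 v13748 v3011 v3008 w1153 v13886 v13897 v13898 v13845 v13834 v13805 v2995 v3000 v13807 w3556 v13900 v13733 v1145 w1116 v10349 w1548 v494 v3134 v490 v13722 v13842
theorem v13902 : PV l13902 := r13902 v13579 v13580 v3213 v3216 v10356 v13801 v10323 v13871
theorem v13903 : PV l13903 := r13903 v13581 v13580 v13680 v13579 v2820 v3213 v3216 v11373 v13829 v2536 v2533 v5035 v495 w4907 w4892 v4767 v3792 v3724 v10320 v13701 v3745
theorem v13904 : PV l13904 := r13904 v13680 v13579 v13580 v4967 v11373 v3213 v3216 v13902 v13903 v5036 v13859 v5035 v1145 v13871 v1138 v13848 v3745 v3743 v3724 v13701 v3795 v3792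
theorem v13905 : PV l13905 := r13905 v4967 v11373 v13748 v3011 v5038 v11270 v11800 v12333 w4484
theorem v13906 : PV l13906 := r13906 v13895 v4967 v11373 v13748 v13904 v13897 v13898 v13845 v13905 v13901 v390 v12207 v12251 v485 v480
theorem v13907 : PV l13907 := r13907 v13581 v13580 v13579 v2998 v2995 v2994 w5826 w1160 v4170 v13807 v4108 v3781 v3744 v11386 v4106 v5794 v4593 w2393 v11211 v5848 v4141 v13147
theorem v13908 : PV l13908 := r13908 v13579 v13680 v13886 v13906 v3935 v12271 v11371 v13287 v13757 v13758 v13759 v13760 v13761 v13762 v13763 v13764 v13765 v13770 v13771 v13774 v13778 v13780 v3933 v13904 v13793 v390 v12177 v1243 w4955 w4965 v11373 w4548 w4473 w4557 w1132 v13825 v3000 v13907 v13896 v3725 v5036 v5035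
theorem v13909 : PV l13909 := r13909 v13680 v13579 v13896 v3725 v5036 v5035
theorem v13910 : PV l13910 := r13910 v13581 w1160 v9159 w1132 v13147 w2393 v4083 v11237 v8367 v4608
theorem v13911 : PV l13911 := r13911 v4967 w5099 v4597 w6561 v3003
theorem v13912 : PV l13912 := r13912 v13779 v13776 v13775 v13766 w2501 v9718
theorem v13913 : PV l13913 := r13913 v13757 v390 v13758 v1243 v1138 v13765 v3935 v3933 w853 v11371 v11270 v4504 v9065 w2652 v13772 v3303 v13912 v3075 v4029 v4025
theorem v13914 : PV l13914 := r13914 v13758 v1243 v1138 v13781 v13778 v13772 v13766 v13765 v5034 v13913 v9759 v7120 w2449 v5022 v4049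
theorem v13915 : PV l13915 := r13915 v13764 v13761 v8757 v5847
theorem v13916 : PV l13916 := r13916 v13779 v13776 v13764 v13761 v5269 v3008 v325 v13914 v13915 v3308 v3303 v9397 w4076 w3907 v8758 v9342
theorem v13917 : PV l13917 := r13917 v5034 v4763 w2449 v8118 v5841 v4760 w3895
theorem v13918 : PV l13918 := r13918 v3008 v325 w2488 w2501 v9578
theorem v13919 : PV l13919 := r13919 v3075 v5672 v3303 v9734 v4552
theorem v13920 : PV l13920 := r13920 v13919 v13610 v13918
theorem v13921 : PV l13921 := r13921 v4967 v11373 v3008 v4763 v13920 v5034 v4504 v13917 v4526 w752 w2442 w2492 w2501 w2569 v9659 v4700 v4759 w5094 w3888 v6061 w6192 w1647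
theorem v13922 : PV l13922 := r13922 v3008 v325 w2488 w2501 v9759 v13799 v9713 v5745
theorem v13923 : PV l13923 := r13923 v4504 w117 v13922 v3075 w2449 v8686 v4025 v6465 w3900 v2779 v6059
theorem v13924 : PV l13924 := r13924 v13581 v13580 v13579 v13680 v4967 v11373 v13904 v13758 v13825 v13767 v13908 v3000 v1243 v13780 v13909 v4170 v13807 v3733 v5269 v13760 v3008 v325 w5099 v13778 v11371 v13748 v12197 v3935 v3933 v13757 v390 v13759 v13770 w4473 v13771 w4557 v1138 v2995 v13774 w4955 v3781 w4965 v2998 v3744 v13761 v2994 v5794 v4593 v4141 v2730 w5511 v13910 v13911 v5661 v2707 w6701 w312 w358 w2393 w4548 v4108 v4113 v4106 w305 v2725 v2726 v1137 v5274 v11270 v13781 v13779 v13777 v13776 v13775 v13772 v13768 v13766 v13765 v13764 w8906 w9147 v13921 w876 v13916 v13923 v13915 v3308 v9755 v7793 v8471 w4065 v9342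
theorem v13925 : PV l13925 := r13925 v13581 v13580 v13579 v13680 v13908 v13904 v3008 v325 v4967 v5269 w5099 v13778 v11371 v11373 v13748 v13767 v12197 v3935 v3933 v13757 v390 v13758 v13825 v13759 v13770 w4473 v13771 w4557 v1243 v1138 v13780 v3000 v13909 v4170 v13807 v2995 v13774 w4955 v3781 w4965 v2998 v3744 v13761 v2994 v5794 v13760 v4593 v4141 v2730 w5511 v13910 v3733 w2393 v13911 w358 v5661 v13924 v10912
theorem v13926 : PV l13926 := r13926 v13680 v13581 v13580 v13579 v4967 v11373 v13748 v13908 w5099 v5269 v3008 v325 v13904 v3935 v11371 v13757 v13758 v13759 v13760 v13761 v13767 v13770 v13771 v13774 v13775 v13778 v13780 v12197 v3933 v390 v1243 v13825 w4955 w4965 w4548 w4473 w4557 v1138 v2994 v2995 v2998 v3000 v13909 v4170 v2726 v13807 v4108 v3733 v3781 v3744 v4113 v5794 v2730 v4593 v4141 w5511 v13910 v13925 v10372 w1975 v6124 v11376 v8633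
theorem v13927 : PV l13927 := r13927 v10372 w1975 v6124 v11376 v8633
theorem v13928 : PV l13928 := r13928 v13581 v13580 v13579 v13680 v4967 v11373 v13926 v13904 v13897 v13898 v13845 v5274 w4543 w5197 w4395 v1210 v13792 v13834 v13807 v12134 v4108 v4106 v13686 v13748 w2880 v12200 v2998 v2995 v2993 v11364 v13899 v3785 v13737 v3744 v13278 v4141 v4593 v13908 v2730 w5511 w4535 v4113 w5196 v2726 v3000 v3733 v1138 v5269 v13927 w2393 v13911 w358 v5661 v2707 v10912 w9147
theorem v13929 : PV l13929 := r13929 v13680 v13579 v13581 v13580 v13904 v4967 v11373 v13926 v13897 v13898 v13845 v13834 v2998 v2995 v2993 v1138 v13807 v13905 v13748 w2880 v12134 v5269 v13908 v5274 w4543 w4395 w5197 v4108 v1210 v4106 v13792 v13686 v12200 v11364 v13899 v2730 v3785 w5511 v13737 v3744 v13278 v4141 v13928 w1160 v9159 v10908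
theorem v13930 : PV l13930 := r13930 v13581 v13580 v13579 v13792 w2393 w1160 v11373 v13748 w5099 v325 v13590 v3785 v3794 v1149 w4520 w4987 w4892 v4141 v4139 w5496 v13181 v12201 v11237
theorem v13931 : PV l13931 := r13931 v13680 v13579 v13930 v3216 v3781 v10350 v3784
theorem v13932 : PV l13932 := r13932 v13579 v13580 v13680 v3781 v13899 v3806 v2746 v2744
theorem v13933 : PV l13933 := r13933 v13580 v13579 v2998 v2996 v2995 v2994 v2993 v3008 v13931 v13932 v13590 v3785 v1145 v13737 v10323 v3744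
theorem v13934 : PV l13934 := r13934 v13579 v13904 v4967 v11373 v13926 v13897 v13898 v13845 v13834 v3000 v2995 v13807 v13905 w340 w1153 v13748 v3011 v12135 v13736 v1210 v13710 w1116 v13804 v10349 w1548 v13823 v494 v3134 v490 v13722 v13842
theorem v13935 : PV l13935 := r13935 v13680 v13579 v13590 v7736 v3216 v13932 v7749 v10350
theorem v13936 : PV l13936 := r13936 v13581 v13680 v13579 v13580 v13792 v2998 v2996 v2995 v2994 v2993 v11373 v13748 w2880 v12134 w5099 w1160 v13933 v9932 v4602 v4083 v2707 v13935 v5272 v1145 w4543 w4555 w4557 v4108 v2726 v4106 v13686 v12201 v11364 v13899 v3785 w1975 v13737 v11376 v3744 w5015 v13278 v3759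
theorem v13937 : PV l13937 := r13937 v4597 v2539
theorem v13938 : PV l13938 := r13938 v13680 v13580 v13579 v13908 v4967 v13904 v13926 v13897 v13898 v11373 v13845 v13834 v13807 v1138 v13934 v13929 v13936 v13792 v3000 v3733 v2998 v2996 v2995 v2993 v13748 w2880 v12134 w5099 v5269 v5272 v1145 w4543 w4555 w4557 v4108 v2726 v4106 v4113 v13686 v12201 v11364 v13899 v3785 v13737 v3744 v13278 v3759 v4141 w4899 w4901 w5015 w4551 v13927 w2393 v10173 v13937 w358 v5661 w9147 v2707
theorem v13939 : PV l13939 := r13939 v13680 v13579 v3216 v3781 v13932 v10350 v3784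
theorem v13940 : PV l13940 := r13940 v13579 v4967 v13904 v11373 v13926 v13897 v13898 v13845 v13834 v13807 v2993 v2994 v2995 v2996 v2998 v13934 v13939 v13590 v3785 v13938 v3787
theorem v13941 : PV l13941 := r13941 v13680 v13894 v13304 v4655 w4569 v12292 w5380 v12271 v13743 v1360 v7651 v12278 w3555 w3563 v12269 v13892 v5038 v12244 v12245
theorem v13942 : PV l13942 := r13942 v13581 v13680 v13894 v12135 v7703 v5036 v4655 w4567 v12292 w5362 v12271 w1152 v1360 v12269 w340 w3556 w8525
theorem v13943 : PV l13943 := r13943 v13680 v13579 v13580 v13894 v13304 v7703 v5036 v4655 w4569 v12292 w5380 v12271 v13743 w4566 v5112 v1360 v4593 v13942 v5038 v12302 v12281 v5039 v7651 v13941 w3178 v4766 v3774 v3775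
theorem v13944 : PV l13944 := r13944 v13579 v13680 v13940 v4655 v7703 v13894 w4567 w4570 v5036 v13943 v2820 v2896 v4783 v404 v3737 v4106 v3723
theorem v13945 : PV l13945 := r13945 v13680 v13579 v7703 v5036 v4655 w4567 v13894 v2820 v2896 v4783 v404 v3737 v4106 v3723
theorem v13946 : PV l13946 := r13946 v13680 v13579 v4655 w4569 v13894 v7703 v404 v2895 v4766 v3737 v4106 v3723
theorem v13947 : PV l13947 := r13947 v13581 v13580 v13680 v13579 v13718 v13946 v5112 v7703 v5036 v4655 w4566 v13945 v4593 w4565 v2730 v13894 v13304 v12134 w4567 v12292 w5367 w4569 w5380 v1360 v13782 w1153 v13743 v13794 v5793 w4354 w4310 w6594 w6726 v3777 w2909 v13699 w3213 w3115 v3737 w305 v4108 v3723 w8354 v7651 w3821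
theorem v13948 : PV l13948 := r13948 v13579 v13680 v13581 v13947 v1089 v4655 w4565 v5112 v7703 v5036 v13718 v13945 v2730 v13894 v13304 v12134 w4567 v12292 w5367 w4569 w5380 v1360 v13782 w1153 v13743 w2789 v3723 v4106 v3780 v4108 v2746 w4309 v7651 w6594 w3164 w3084 w8354 w8379
theorem v13949 : PV l13949 := r13949 v13680 v13579 v4655 v433 v426 v13947 v4971 v13894 v13718 v13948 w3139 v3725 v4108
theorem v13950 : PV l13950 := r13950 v13580 v13680 v13579 v13718 v1360 v5112 v4655 v7703 v13894 w4566 v5036 v13945 v4593 v13947 v1089 v13949 v3740 w2790 v3754 v3211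
theorem v13951 : PV l13951 := r13951 v13680 v13579 v13581 v13944 v13950 v4967 v3007 v2767 v11373 v878 w4411 v13713 v5035 v3737 v5036 v3740 w2764 w2762 v13807 v13843 v13829 w4896 v3143
theorem v13952 : PV l13952 := r13952 v13579 v13951 v13944 v13950 v4967 v11373 v13748 v2992 v13713 v13794 v13782 v13718 v13905 v4108 v12183 v4106 w4726 v12216
theorem v13953 : PV l13953 := r13953 v13680 v13579 v13944 v13950 v13718 v13951 v13952 v3725 v3002 v3723 v4106
theorem v13954 : PV l13954 := r13954 v13944 v13950 v4967 v3007 v11373 v429 w4411 v13953 v13801 v13903 v13859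
theorem v13955 : PV l13955 := r13955 v13954 v13756
theorem v13956 : PV l13956 := r13956 v13955 v13657
theorem v13957 : PV l13957 := r13957 v13955 v13743
theorem v13958 : PV l13958 := r13958 v13955 v13579 w1153
theorem v13959 : PV l13959 := r13959 v13955 v13581 w1152
theorem v13960 : PV l13960 := r13960 v13680 v13579 v3213 v3216 v3000 v3002 v3724 v1242 v4107 v1138 w4570 w4558 v11373 v13903 v1145 v13848 v3745 v3743
theorem v13961 : PV l13961 := r13961 v13680 v13954 v13579 v503 w4570 v13645 v13798 v11373 v11802 v7840 v3745 w2776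
theorem v13962 : PV l13962 := r13962 v13579 v13680 v10336 v13590
theorem v13963 : PV l13963 := r13963 w2764 w2762 v13962
theorem v13964 : PV l13964 := r13964 v13579 v13680 v13954 v13580 v13581 v3213 v3216 v13960 v3726 v13870 v2820 v404 v13961 v4107 v13963 v1021 v7840 v11373 v433 w4565 v13500 v429 v2534 v1210 v13590 v13697 v13698 v3792 w4308 v3795 w6644
theorem v13965 : PV l13965 := r13965 v13680 v13954 v13579 v3213 v13964 v5035 v4637 v13645 v2897 v2816 v4657
theorem v13966 : PV l13966 := r13966 v13579 v13580 v13954 v13965 v13645 v2722 v2819 v13644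
theorem v13967 : PV l13967 := r13967 v13579 v13580 v5035 w2776 w2762 v3755 v13738 v3212 v3807 v3806
theorem v13968 : PV l13968 := r13968 v13581 v13954 v13680 v13579 v13580 v7840 v11373 w4565 v5035 v5036 w4566 v2727 v2534 w2792 v3755 v13738 v3212 v3806
theorem v13969 : PV l13969 := r13969 v13580 v13581 v5036 w4308 v3804 w6594
theorem v13970 : PV l13970 := r13970 v13579 v13680 v13581 v13954 v13580 v5035 v5036 v13965 v3740 v13966 v13967 v1021 v7840 v11373 v433 w4565 w4566 v2727 v2534 v13968 w2783 v13969 v4969 v3803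
theorem v13971 : PV l13971 := r13971 v13579 v8837 v13746 v3790 v3789
theorem v13972 : PV l13972 := r13972 v13680 v13580 v13746 v2746 v2744 w4309 v1267 v3804 v3806 v5785
theorem v13973 : PV l13973 := r13973 v13680 v13954 v13579 v13580 v13581 v13965 v5035 v5036 v13970 v3000 v3002 v3737 v4969 v13713 v4765 v433 w4543 v11373 v13829 v5268 v7840 v13971 v13972 v3789 v2916 v13706 v3805 v10252 v2747 w4308 w6726
theorem v13974 : PV l13974 := r13974 v13680 v13579 v13955 v13958 v13956 v13959 v13720 v13733 w1116 w1548 v3011 v1146 v1145 v13973 v13965 v12123 v11453 v12135 v12134 v3723 v4106 v3742 w4543 v4109 w3236 v3744 v5274 v12331 v13615 v5039 v12241 w5493 w305 v390 v12151 w8354 w340 v13714 v13715 v8387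
theorem v13975 : PV l13975 := r13975 v13954 v13680 v13579 v2820 v404 v3216 v5036 v13973 v13965 v12135 v4969 v13713 v4783 v433 v13972 w4555 v11373 v13737 v13748 v7840 w3480 w3467 w3469 v13818 v13974 v3725 w2776 v3744
theorem v13976 : PV l13976 := r13976 w2776 w2759 w2764 w2774 w2762 v13939
theorem v13977 : PV l13977 := r13977 v13958 v12123 v12134 w5364 w5367 v35 w8508 w3820
theorem v13978 : PV l13978 := r13978 v13581 v12135 w3214 w6594 v13977 v11270 v13562 w340 w3467 v13823
theorem v13979 : PV l13979 := r13979 v13680 v13954 v13579 v13973 v5036 v13965 v3725 v13976 v7840 v11373 v433 v429 v1209 v2820 v404 w4570 v4106 w4567 v13975 v13794 w305 v3216 v3744 v13739 v13978 v1770 v13932 w2785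
theorem v13980 : PV l13980 := r13980 v13680 v13579 v13954 v13580 v13975 v5036 v13973 v13965 v3725 v13976 v1021 v13979 v13702 v13701 v3803 v13969
theorem v13981 : PV l13981 := r13981 v13579 v13955 v13958 v13680 v3216 v5036 v13973 v13965 v12123 v12134 v2820 v404 v13975 v13794 w305 v13980 v3723 v13728 v4106 w1116 v13718 v13719 w4570 w4558 v4109 w1548 v11373 v13748 w3480 w3467 w3469 v13876 w8354 v13615 v13974 w4833 w4961
theorem v13982 : PV l13982 := r13982 v13680 v13579 v5036 v13973 v13965 v13981 v2993 v2994 v2995 v2998 v3000 v13932 v3725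
theorem v13983 : PV l13983 := r13983 v13579 v13580 v13982 v13973 v2994 v2995 v2998 v3807 v13962 v13738 v1145 v3744 v10323
theorem v13984 : PV l13984 := r13984 v13581 v13680 v13954 v2534 w4565 v2533 v11373
theorem v13985 : PV l13985 := r13985 v13680 v13579 v13973 v13965 v5036 v13982 v13984 v3000 v13983 v3725
theorem v13986 : PV l13986 := r13986 v13956 v13958 w1573 w1587
theorem v13987 : PV l13987 := r13987 v13986 v13957 v13717
theorem v13988 : PV l13988 := r13988 v5269 v13985 v13965 w358 v7741 v13865 w2393 v2588 w5514 v10173 w9147 v2707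
theorem v13989 : PV l13989 := r13989 v13579 v13680 v13954 v11373 v7840 v5269 v13710 v5272 v13965 v13973 v3723 v3725 v13794 w305 w876 v7862 v13923
theorem v13990 : PV l13990 := r13990 v13579 v13680 v13955 v13954 v4082 v3318 v11373 v7840 v5269 v13710 v1145 v13973 v13965 v3723 v3733 v3725 v13985 w5405 w5099 w5514 v13927 w8779 w6690 w8839 v13989 v11243 v13920
theorem v13991 : PV l13991 := r13991 v13579 v13680 v13955 v11373 v1145 v5272 v13794 v12195 v480 v485 v12318 v12248 v12202 v11364 v13965 v13973 v3723 v3725 v3008 v325 v13988 v4083 v6097 v2708 v2707 v13990 w5823 v5555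
theorem v13992 : PV l13992 := r13992 v13955 w4409 v13973 v13965 v13936 w5823 v13900
theorem v13993 : PV l13993 := r13993 v13973 v13965 w5823 v5555
theorem v13994 : PV l13994 := r13994 v13579 v13680 v13954 v7840 v13973 v13965 v3733 v3725 v11243 v13920
theorem v13995 : PV l13995 := r13995 v13955 v13579 v13680 v13954 v13965 v13973 v3723 v3725 v13794 v12195 v480 v485 v12318 v1145 v13710 v13992 v12248 v11373 w4251 w4250 v11364 v12202 v13988 v3008 v325 v5272 v4083 v6097 v2707 v13993 w5405 v2708 v4082 v3318 w8779 w8839 v13994 w876 v3736 v5269 v3733 w5514 v13985 v13927 w5099 w6690 v7840 w305 v13991 v7862 v4504 w117 v13922 v3075 v9961 v3308 v4054 w1647 w3888 w3907 w6166 v4030 w2562 w2568 w1748 w6251 v9184 w5815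
theorem v13996 : PV l13996 := r13996 v13579 v13680 v13955 v13954 w4251 v5269 v11373 v13710 v1145 v5272 v13794 v12195 v480 v485 v12318 v12202 v11364 v13973 v13965 v3723 v3733 v3725 v13985 v3008 v325 v13992 v13988 v4083 v6097 v2707 v13993 w5099 w5514 v13927 w6690 v13995 w6543
theorem v13997 : PV l13997 := r13997 w358 v5661 v2707 v10912 w9147
theorem v13998 : PV l13998 := r13998 v13579 v13680 v13954 v13965 v2726 v13985 v13973 w5818 w5826 v13927 w2393 v13997 w6690 w6561
theorem v13999 : PV l13999 := r13999 v13680 v13579 v5269 v11373 v13965 v13973 v3723 v3725 v4170 v2726 v2725 v13985 v4141 v3733 v13998 w5514 v13800 v8635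
theorem v14000 : PV l14000 := r14000 v13955 v13579 v13680 v13581 v13580 w4354 v13710 v1145 v5272 v13965 v13973 v3723 v3725 v4170 v2726 v2725 v13985 v4141 v13794 v12195 v11364 v11373 v5269 w4899 w4892 w4251 w4901 w4708 v4775 v4771 v13996 v13999 w1160 v9715 v13800 w5514 v10908
theorem v14001 : PV l14001 := r14001 v13579 v13680 v13581 v13958 v13954 v13955 v13730 w853 w929 w4565 v2730 v4794 v433 v4968 v4966 v1244 v5272 v13985 v13965 v13973 v3723 v3725 v4141 v13794 w305 v3008 v325 v10804 v5034 v4504 v10756 v12323 w116 w2560 w2492 v4055 w2450 v12805 v3303 w3952 w3907 w1609 w1748 v3986 v4031 w1616 v3085 w6250 v13690 w4032 v4746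
theorem v14002 : PV l14002 := r14002 v13954 v13958 v13691 v10974
theorem v14003 : PV l14003 := r14003 v13579 v13680 v13581 v13730 w4565 v2730 v4794 v1244 w4354 w4310 v13710 v3008 v1149 v5272 v13973 w352 v13965 v3723 v3725 v13985 v14001 v14002
theorem v14004 : PV l14004 := r14004 v13579 v13680 v13954 v4966 v13710 v1145 v5272 v13965 v13973 v3725 v13794 w305 v3008 v10974 v10994 v5034 v4504 v7115 w116 v3303 v9961 w1748 w2560 w2492 v4055 w2450 v12805 w3952 w1609 v3986 w1616 v4751 w6250 w4032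
theorem v14005 : PV l14005 := r14005 v3303 v5034 w2560 w2492 v4055 w2450 v12805 w3952 w3907 w4028 w1609 v3986 v4031 w1616 w818 w2424 w6250 w3886 w4032 w6165 v4746 w5936
theorem v14006 : PV l14006 := r14006 v13956 v13955 v13579 v13680 v13581 v13580 v13958 v13954 v13973 v13965 v3723 v3733 v3725 v13794 w305 v13985 v11453 v12134 v3008 v325 v13783 w4841 v13714 w3054 v13749 w8508 w9162 v13702 v13698 v1770 v13699 v2992 v3012 w3469 v12195 v13707 v12222 v480 v11364 v12202 w5448 w5478 w5465 w8817 v12179 v485 v4170 v4141 w8799 w8917 v12318 v12248 v2725 v2726 v13939 v10350 v13962 v3759 v5272 v1145 v13710 v3794 w4354 w4948 v3785 w4322 w4799 v1244 v14000 w4565 w4568 v4966 w4496 v4794 v2730 v4779 v4767 v13730 v13692 w853 w929 v14003 v14004 v10804 v4504 v7115 w116 v3303 w1748 v14005 w2460 v4057 v4025 v2779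
theorem v14007 : PV l14007 := r14007 v13580 v13680 v13579 v13958 v2998 v2996 v2995 v2994 v2993 v13965 v13973 v3723 v3725 v13985 v13304 v12134 w351 v13939 w799 v13962 v1145 v3794 w4557 w5001 v4141 w5805 v4558 w3573 w8508 v1594 w3822
theorem v14008 : PV l14008 := r14008 v13680 v13579 v13956 v13955 v13965 v13973 v3723 v3725 w305 v11453 v14007 v4170 w300 w5451 w8504 v12195 w3542
theorem v14009 : PV l14009 := r14009 v13579 v13680 v13958 v13955 v13956 v13959 v13965 v13973 v3723 v3725 v13794 w305 v13985 v11453 v12135 v12134 v3008 v14006 v14008 v2820 w3469 v4143 v13562 v13748 v13749 v13750 v13751 v13752 w5382 v13089 v13056 w4840 w4691 w4710 v12963 w8508 w5463 v12997 v1218 v13707 v13708 w297 v13682 w8504 w8525 w759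
theorem v14010 : PV l14010 := r14010 v13680 v13954 v13955 v13579 v13973 v13965 v3723 v1209 v13709 v429 v433 v11373 v13748 v7840 v12195 w2764 w5451 v10349
theorem v14011 : PV l14011 := r14011 v13680 v13579 v1146 w4555 v13711 v13973 v13965 v3012 v3011 w3469 w3078 w3090 w3072 w3069 w3082 v4170 v13939 v3785 v3787
theorem v14012 : PV l14012 := r14012 v13955 v13680 v13579 v13965 v13973 v3723 v3725 v13794 w305 v13985 v1146 v13711 w4555 v14011 v13562 v13587 v13977 w3228 w3232 v10350 v3752 v3749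
theorem v14013 : PV l14013 := r14013 v13956 v13973 v13965 v11453 v13562 w3538 w5363 w8504 w300 v13984 v13939
theorem v14014 : PV l14014 := r14014 v13955 v12195 v13876
theorem v14015 : PV l14015 := r14015 v13579 v13680 v13958 v13965 v13973 v3723 v3725 v13794 w305 v12134 v14010 v14012 v14009 v14014 v13562 v13748 v13749 v13089 w4845 w5463 w8508 v13977 v13707 w3219 w3220 w3226 w3228 w3232 v14013
theorem v14016 : PV l14016 := r14016 v13955 v13986 v12258 v12213 v4438 w8800 w776
theorem v14017 : PV l14017 := r14017 v13579 v13955 v13680 v13965 v13973 v3723 v3725 v13794 w305 v12123 v14015 w4842 w4831 v13749 v2992 v3011 v12195 v14014 v12222 v480 v11364 v14016 w3497 v12257 v4108 v13556 w4543 v5272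
theorem v14018 : PV l14018 := r14018 v13957 v1594 w8377
theorem v14019 : PV l14019 := r14019 v13987 v13797 w5760 w8814 w8659 w2346
theorem v14020 : PV l14020 := r14020 v13986 w8376 v34
theorem v14021 : PV l14021 := r14021 v13680 v13986 v13955 v13958 v13579 v13957 v13965 v13973 v3723 v3725 v13794 w305 v13985 v13304 v12123 v12135 v12134 v14017 v14020 w4842 w8681 v13749 w8657 v12195 v480 v13796 v11364 v485 v2275 v12318 w3572 w3464 w3491 v2323 w8660 w5465 w5769 w5770 v4141 v14019 w3478 v1594 w8377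
theorem v14022 : PV l14022 := r14022 v13680 v13955 w3203 v14020 w4842 w5364 v12183 v11270
theorem v14023 : PV l14023 := r14023 w5400 w5364 v14016 v11270
theorem v14024 : PV l14024 := r14024 v13579 v13680 v13958 v13965 v12123 v13973 v13794 w305 v14021 v13718 v3007 w4561 v3723 v14022 v3725 v4108 w3497 v14023 v13985 w4563 v4141 v13304 v12134 w5754 w5755 v14018 w8508 v644 w3478 w3192 w3196 w3201 w3095 w3099 w3074 w3077 w3068 v14013
theorem v14025 : PV l14025 := r14025 v13579 v13680 v13955 v13965 v12123 v13973 w305 v13718 v3007 w4561 v3723 v3725 v4108 w3497 v14023 w3469 v12195 v14008 v11270 w4841 v12183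
theorem v14026 : PV l14026 := r14026 v13579 v13680 v13955 v13965 v13973 v3723 v3725 v12134 v13686 v13056 w5333
theorem v14027 : PV l14027 := r14027 v13579 v13680 v13794 v13973 v13965 v12123 v3723 v14021 v3007 v429 w4561 w4563 v1210 v14022 v14024 v14026 v13562 v13727 v14025
theorem v14028 : PV l14028 := r14028 v13680 v13579 v13985 v13973 v13965 v4139 v3001 v4141 v3725
theorem v14029 : PV l14029 := r14029 v13954 v13680 v13579 v13581 w4569 v11373 v13748 v3011 v3012 v2992 v7840 v501 v495 v490 w4557 v1145 v13985 v13973 v13965 w3469 w3106 w3090 w3082 v3725 v13963 v3216 v13976 v10350 v4194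
theorem v14030 : PV l14030 := r14030 v13954 v13680 v13579 v13581 w4569 v11373 v7840 v501 v495 v490 w4557 v1145 v13985 v13973 v13965 v3725 v13963 w2776 w2774 v3216 v13976 v10350 v13855 v4194
theorem v14031 : PV l14031 := r14031 v13579 v13958 v13680 v13986 v13956 v13955 v13985 v13973 v13965 v12123 v11453 v12134 v13794 w305 v14027 v14028 w4569 w4563 w4557 v11373 v3007 v1145 v1146 v13748 v2992 v3011 v14029 v14030 v3001 v3002 w3108 w3107 v4143 v4106 w8354 v13723 v13615 w4543 w4833 v13714 v12218 w5481 v5274 v12241 v7680 v12249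
theorem v14032 : PV l14032 := r14032 v13579 v13680 v13955 v13986 v13956 v13958 v14031 v4969 v433 v11373 v13748 v3011 v2992 v13713 v13985 v13973 v13965 v12123 v11453 v12134 v14028 w4557 v14029 v14030 v1145 v1146 v3001 v3002 w3108 w3107 v4143 v4106 v13876 v13615 w4543 w5481 v12331 v12244 v5039 v12249 w305 v7680 w8354 v13714
theorem v14033 : PV l14033 := r14033 v13581 v13955 v13957 v13987 v13579 v13680 v13954 v13580 v14031 v4969 v433 v11373 v7840 v13973 v13965 v14032 v3723 w2776 v3725 v14030 w4894 v3744 w2774 v13985 v3745 v3759 v13748 v4141 w3479 v13710 v13792 v14014 v13304 w1970 w2381 w3478 v13713 v3008 v4971 w2762 w2764 w4867 v3781 v3794 w4865 v12195 w5462 w8682 w2759 v5272 w4255 w4308 w6795 w352 v2299 w8659 w4957 w4938 v3009 v3011 v12158 v12191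
theorem v14034 : PV l14034 := r14034 v13954 w8380 w8779
theorem v14035 : PV l14035 := r14035 v13581 v13958 v13580 v13954 v13579 v13680 v13955 v14031 v4969 v433 v11373 v13748 v14032 v13973 v13965 v3723 v14030 w4894 v7840 w2776 v3725 v3744 v3745 v13710 v13792 v12195 v14033 v12237 v13713 v11270 v480 v485 v12207 v3008 v4971 w2762 v13985 w2764 w4867 v3781 v3794 w4865 v12134 w305 v4141 w3480 v14014 w8660 w5454 w2759 v5272 w4255 w4308 w6795 v13984 v1145 w4555 v2726 v12202 v11364 w4405 v1138 w4892 v13709 v3752 v503 v13712 v325 v13992 v3318 v13988 v4082 v4083 v6097 v2708 v2707 v13993 w5405 v14034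
theorem v14036 : PV l14036 := r14036 v13955 v13581 v13680 v13954 v13579 v13580 v14035 v13973 v14031 v4969 v433 v11373 v7840 v13965 v14032 v3723 w2764 v3725 v3008 v4971 v14030 w4867 v3781 w2759 w4894 w2776 v3744 v3745 v13710 v5272 w4255 w2762 v13985 v3794 w4308 w6795 v13984 w4881 v13748 v13792 v12195 w5446 v11364 v11270 v14014 v1145 w4405 v1138 w4555 v3752 v4141 v4149 v3733 v5269 v13713 w5730 w5811 v13998 v11214 v10908
theorem v14037 : PV l14037 := r14037 v13954 v13580 v13680 v13581 v13958 v13579 v13957 v13987 v13955 v3008 v13965 v12134 v13304 v13973 v13985 v14031 v4969 v13712 v13713 v4971 v433 v11373 v13748 v7840 v14032 v3723 v3725 w2776 w2759 w2764 w2774 w2762 v14030 v4141 w4894 w4867 w3480 w3478 w3479 v3744 v3781 w1970 v3745 w2381 v5272 v1145 v13709 v13710 v3794 v3759 w4255 w4555 w4405 v13792 w4308 w4987 w4865 w4892 v1137 v1138 w305 v12195 v14014 w6795 v480 v11270 w5462 w8660 w352 v13984 v2726 v485 w8682 w5454 v2299 v12207 w8659 w5798 w4957 v14036 w5405 w5839 w4847 v13900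 v11049 v8635 v13688
theorem v14038 : PV l14038 := r14038 v14037 v4655
theorem v14039 : PV l14039 := r14039 v14037 v13950
theorem v14040 : PV l14040 := r14040 v14038 v13680 w4570
theorem v14041 : PV l14041 := r14041 v14039 v14037 v13943
theorem v14042 : PV l14042 := r14042 v14041 v14040 v14037 v13945

theorem fin : PV 0 := v14042

end Pool.Agent.BDD.A
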