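import Pool.Agent.BDD.St

/-! # BDD (helper6): the comparison of two points by the code of their position (MP_f4c717_co) -/

set_option autoImplicit false

namespace Pool.Agent.BDD

private theorem Cmp_bit (a0 a1 b0 b1 : ℕ) (u v : Bool) :
    (cd a0 a1 b0 b1).testBit (3 - 2 * (if u then 1 else 0) - (if v then 1 else 0)) =
      decide ((if u then a1 else a0) < (if v then b1 else b0)) := by
  unfold cd
  by_cases h1 : a0 < b0 <;> by_cases h2 : a0 < b1 <;> by_cases h3 : a1 < b0 <;>
    by_cases h4 : a1 < b1 <;> cases u <;> cases v <;> simp [h1, h2, h3, h4, Nat.testBit]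

private theorem Cmp_SC (a0 a1 b0 b1 : ℕ) (_ha : a0 < a1) (_hb : b0 < b1) (_n1 : a0 ≠ b0)
    (_n2 : a0 ≠ b1) (_n3 : a1 ≠ b0) (_n4 : a1 ≠ b1) : cd a0 a1 b0 b1 ∈ SC := by
  unfold cd SC
  by_cases h1 : a0 < b0 <;> by_cases h2 : a0 < b1 <;> by_cases h3 : a1 < b0 <;>
    by_cases h4 : a1 < b1 <;>
    first
      | (exfalso; omega)
      | (simp [h1, h2, h3, h4])

private theorem Cmp_seg (i : Fin 4) (A : Fin 8) : seg i A = 0 ∨ seg i A = 1 := by
  revert i A
  decide

private theorem Cmp_ind (i : Fin 4) : (i = 2 ∨ i = 3) ↔ ¬ (i = 0 ∨ i = 1) := by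
  revert i
  decide

private theorem Cmp_arith (a b P Q M : ℤ) (h1 h2 h3 : Prop) [Decidable h1] [Decidable h2]
    [Decidable h3] (ha : a = 0 ∨ a = 1) (hb : b = 0 ∨ b = 1) (hP : 0 ≤ P ∧ P < M)
    (hQ : 0 ≤ Q ∧ Q < M) (hne : P ≠ Q) (h12 : h2 ↔ ¬ h1) (hh : h3 ↔ P < Q) :
    (a * M * 4 + (if h1 then P else -P) < b * M * 4 + (if h1 then Q else -Q)) ↔
      (if a < b then true else if b < a then false else xor (decide h2) (decide h3)) = true := by
  obtain ⟨p0, p1⟩ := hP
  obtain ⟨q0, q1⟩ := hQ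
  by_cases c1 : h1
  · have c2 : ¬ h2 := fun h => (h12.1 h) c1
    rcases ha with rfl | rfl <;> rcases hb with rfl | rfl <;> simp [c1, c2, hh] <;> linarith
  · have c2 : h2 := h12.2 c1
    rcases ha with rfl | rfl <;> rcases hb with rfl | rfl <;> simp [c1, c2, hh]
    · omega
    · linarith
    · linarith
    · omega

private theorem Cmp_key {N : ℕ} (hKey : St_Key) {p q : Pt N} (hpq : p ≠ q) (a0 a1 b0 b1 : ℕ)
    (h : ∀ u v : Bool, (if u then a1 else a0) < (if v then b1 else b0) ↔ pos u p < pos v q)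
    (i : Fin 4) : key i p < key i q ↔ bitO i p.c q.c (cd a0 a1 b0 b1) = true := by
  obtain ⟨k1, k2, -, -, -⟩ := hKey N
  unfold key bitO
  rw [Cmp_bit a0 a1 b0 b1 (useR i p.c) (useR i q.c)]
  exact Cmp_arith (seg i p.c) (seg i q.c) _ _ _ (i = 0 ∨ i = 1) (i = 2 ∨ i = 3) _
    (Cmp_seg i p.c) (Cmp_seg i q.c) (k2 _ p) (k2 _ q) (fun e => hpq (k1 _ _ _ _ e).2)
    (Cmp_ind i) (h _ _)

theorem thm_Cmp (hKey : St_Key) : St_Cmp := by
  intro N
  obtain ⟨k1, k2, k3, k4, k5⟩ := hKey N
  constructor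
  · intro p q hpq
    have hp0 := (k2 false p).1
    have hp1 := (k2 true p).1
    have hq0 := (k2 false q).1
    have hq1 := (k2 true q).1
    have hp := k4 p
    have hq := k4 q
    have n1 : pos false p ≠ pos false q := fun e => hpq (k1 _ _ _ _ e).2
    have n2 : pos false p ≠ pos true q := fun e => hpq (k1 _ _ _ _ e).2
    have n3 : pos true p ≠ pos false q := fun e => hpq (k1 _ _ _ _ e).2
    have n4 : pos true p ≠ pos true q := fun e => hpq (k1 _ _ _ _ e).2
    refine ⟨cd (pos false p).toNat (pos true p).toNat (pos false q).toNat (pos true q).toNat,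
      Cmp_SC _ _ _ _ (by omega) (by omega) (by omega) (by omega) (by omega) (by omega), ?_⟩
    refine Cmp_key hKey hpq _ _ _ _ ?_
    intro u v
    cases u <;> cases v <;> simp only [if_true, Bool.false_eq_true, if_false] <;> omega
  · intro p q hnd
    simp only [List.nodup_cons, List.mem_cons, List.not_mem_nil, or_false, not_or,
      List.nodup_nil, and_true, not_false_eq_true] at hnd
    obtain ⟨⟨m0, m1, m2⟩, ⟨m3, m4⟩, m5⟩ := hnd
    have hp := p.h
    have hq := q.h
    have n1 : (p.l : ℕ) ≠ q.l := fun e => m1 (Fin.ext e)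
    have n2 : (p.l : ℕ) ≠ q.r := fun e => m2 (Fin.ext e)
    have n3 : (p.r : ℕ) ≠ q.l := fun e => m3 (Fin.ext e)
    have n4 : (p.r : ℕ) ≠ q.r := fun e => m4 (Fin.ext e)
    refine ⟨Cmp_SC _ _ _ _ hp hq n1 n2 n3 n4, ?_⟩
    have hpq : p ≠ q := by
      rintro rfl
      exact m1 rfl
    have key' := Cmp_key hKey hpq (p.l : ℕ) (p.r : ℕ) (q.l : ℕ) (q.r : ℕ) (by
      intro u v
      have e1 := k5 u v p q
      have e2 := k5 v u q p
      constructor
      · intro h
        apply e1
        cases u <;> cases v <;> simp only [if_true, Bool.false_eq_true, if_false] at h ⊢ <;>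
          exact h
      · intro h
        by_contra hc
        have e3 := e2 (by
          cases u <;> cases v <;> simp only [if_true, Bool.false_eq_true, if_false] at hc ⊢ <;>
            (rw [Fin.lt_def]; omega))
        omega)
    unfold cnt vt
    rw [decide_eq_true_iff]
    have e : (Finset.univ.filter fun i => key i p < key i q) =
        Finset.univ.filter fun i => bitO i p.c q.c (cd p.l p.r q.l q.r) = true :=
      Finset.filter_congr fun i _ => key' i
    rw [e]

end Pool.Agent.BDD
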