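import Pool.Agent.BDD.ACt
import Pool.Agent.BDD.AV3

/-!
# BDD, module CoA: the certificate A

The certificate files do not import Mathlib; here their context `A.K` is provided.
-/

set_option autoImplicit false

namespace Pool.Agent.BDD

private theorem CoA_chk : ∀ (L : List ℕ) (C : ℕ), A.chk C L = chk C L := by
  intro L
  induction L with
  | nil => intro C; rfl
  | cons H t ih =>
    intro C
    unfold A.chk chk
    rw [ih, ih]
    rfl

private theorem CoA_all {w : ℕ → Bool} {L : List ℕ} (h : A.All (V w) L) : All w L := by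
  induction h with
  | nil => exact .nil
  | cons ha _ ih => exact .cons ha ih

private theorem CoA_K {c : Can} (h : A.Ct c) : A.K (V (wv c)) where
  rup := fun h1 h2 => rup ((CoA_chk _ _).symm.trans h1) (CoA_all h2)
  t := fun j X Y Z a0 a1 b0 b1 c0 c1 _ hM => T3 c j X Y Z a0 a1 b0 b1 c0 c1 hM
  x := fun j X Y s _ hM => X3 c j X Y s hM
  p := fun X Y s p _ hM => P3 c X Y s p hM
  d := fun X p _ hM => D3 c X p hM
  u := fun X p _ hM => U3 c X p hM
  k9179 := L1 c 0 3 3 15 (h.pin.u 0) (by decide +kernel)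
  k9180 := L1 c 1 3 3 15 (h.pin.u 1) (by decide +kernel)
  k9181 := L1 c 2 3 3 15 (h.pin.u 2) (by decide +kernel)
  k9182 := L1 c 3 3 3 15 (h.pin.u 3) (by decide +kernel)
  k9183 := L1 c 4 3 3 15 (h.pin.u 4) (by decide +kernel)
  k9184 := L2 c 0 1 3 15 13 h.pin.p0 (by decide +kernel)
  k9185 := L3 c 0 1 3 15 13 h.pin.p0 (by decide +kernel)
  k9186 := L2 c 1 1 3 13 12 h.pin.p1 (by decide +kernel)
  k9187 := L3 c 1 1 3 13 12 h.pin.p1 (by decide +kernel)
  k9188 := L2 c 2 1 3 4 0 h.pin.p2 (by decide +kernel)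
  k9189 := L3 c 2 1 3 4 0 h.pin.p2 (by decide +kernel)
  k9190 := L1 c 3 3 3 12 h.a (by decide +kernel)

theorem thm_CoA : St_CoA := fun c hp h3 => Chk_empty (A.fin (V (wv c)) (CoA_K ⟨hp, h3⟩))

end Pool.Agent.BDD
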