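import Pool.Agent.BDD.BL0

/-! BDD, module CoB: the certificate B -/

set_option autoImplicit false

namespace Pool.Agent.BDD

theorem thm_CoB : St_CoB := fun _ hp h3 h4 => B.fin ⟨hp, h3, h4⟩

end Pool.Agent.BDD
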