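import Pool.Agent.BDD.St

/-!
# BDD Col (helper77): one column
-/

set_option autoImplicit false

namespace Pool.Agent.BDD

theorem thm_Col : St_Col := by
  intro c j h
  have t1 : c.m j 1 3 13 = true → c.m j 3 3 15 = true → c.m j 1 3 15 = true :=
    c.tr j 1 3 3 0 2 1 3 4 5 (by decide) (by decide) (by decide) (by decide)
      (by decide) (by decide) (by decide)
  have t2 : c.m j 1 3 15 = true → c.m j 3 3 5 = true → c.m j 1 3 13 = true :=
    c.tr j 1 3 3 0 2 3 4 1 5 (by decide) (by decide) (by decide) (by decide)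
      (by decide) (by decide) (by decide)
  have t3 : c.m j 1 3 12 = true → c.m j 3 3 15 = true → c.m j 1 3 13 = true :=
    c.tr j 1 3 3 0 4 1 2 3 5 (by decide) (by decide) (by decide) (by decide)
      (by decide) (by decide) (by decide)
  have t4 : c.m j 1 3 13 = true → c.m j 3 3 12 = true → c.m j 1 3 12 = true :=
    c.tr j 1 3 3 0 4 1 5 2 3 (by decide) (by decide) (by decide) (by decide)
      (by decide) (by decide) (by decide)
  have t5 : c.m j 1 1 13 = true → c.m j 1 1 13 = true → c.m j 1 1 15 = true :=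
    c.tr j 1 1 1 0 2 1 4 3 5 (by decide) (by decide) (by decide) (by decide)
      (by decide) (by decide) (by decide)
  have t6 : c.m j 1 1 12 = true → c.m j 1 3 13 = true → c.m j 1 3 12 = true :=
    c.tr j 1 1 3 0 5 1 3 2 4 (by decide) (by decide) (by decide) (by decide)
      (by decide) (by decide) (by decide)
  have t7 : c.m j 1 1 4 = true → c.m j 1 3 13 = true → c.m j 1 3 12 = true :=
    c.tr j 1 1 3 1 5 0 3 2 4 (by decide) (by decide) (by decide) (by decide)
      (by decide) (by decide) (by decide)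
  have t8 : c.m j 1 3 0 = true → c.m j 3 3 15 = true → c.m j 1 3 4 = true :=
    c.tr j 1 3 3 3 5 0 1 2 4 (by decide) (by decide) (by decide) (by decide)
      (by decide) (by decide) (by decide)
  have t9 : c.m j 1 3 4 = true → c.m j 3 3 12 = true → c.m j 1 3 0 = true :=
    c.tr j 1 3 3 3 5 0 4 1 2 (by decide) (by decide) (by decide) (by decide)
      (by decide) (by decide) (by decide)
  have t10 : c.m j 1 1 5 = true → c.m j 1 3 4 = true → c.m j 1 3 0 = true :=
    c.tr j 1 1 3 3 4 1 5 0 2 (by decide) (by decide) (by decide) (by decide)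
      (by decide) (by decide) (by decide)
  have t11 : c.m j 1 1 0 = true → c.m j 1 3 4 = true → c.m j 1 3 0 = true :=
    c.tr j 1 1 3 4 5 1 3 0 2 (by decide) (by decide) (by decide) (by decide)
      (by decide) (by decide) (by decide)
  have u0 : c.m j 3 3 5 = !c.m j 3 3 12 := c.anti j 3 3 5 (by decide)
  have u1 : c.m j 1 1 4 = !c.m j 1 1 13 := c.anti j 1 1 4 (by decide)
  have u2 : c.m j 1 1 5 = !c.m j 1 1 12 := c.anti j 1 1 5 (by decide)
  have u3 : c.m j 1 1 0 = !c.m j 1 1 15 := c.anti j 1 1 0 (by decide)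
  rw [u0] at t2
  rw [u1] at t7
  rw [u2] at t10
  rw [u3] at t11
  refine ⟨fun hn => ?_, fun hn => ⟨?_, ?_⟩, fun hn => ⟨?_, ?_⟩⟩
  · clear t3 t4 t5 t6 t7 t8 t9 t10 t11 u0 u1 u2 u3
    revert hn t1 t2 h
    generalize c.m j 1 3 15 = x
    generalize c.m j 1 3 13 = y
    generalize c.m j 3 3 15 = z
    generalize c.m j 3 3 12 = w
    revert x y z w
    decide
  · clear t1 t2 t5 t6 t7 t8 t9 t10 t11 u0 u1 u2 u3
    revert hn t3 t4 h
    generalize c.m j 1 3 12 = x
    generalize c.m j 1 3 13 = y
    generalize c.m j 3 3 15 = z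
    generalize c.m j 3 3 12 = w
    revert x y z w
    decide
  · clear t1 t2 t4 t8 t9 t10 t11 u0 u1 u2 u3
    revert hn t3 t5 t6 t7 h
    generalize c.m j 1 3 12 = x
    generalize c.m j 1 3 13 = y
    generalize c.m j 3 3 15 = z
    generalize c.m j 1 1 12 = w
    generalize c.m j 1 1 13 = a
    generalize c.m j 1 1 15 = b
    revert x y z w a b
    decide
  · clear t1 t2 t3 t4 t5 t6 t7 t10 t11 u0 u1 u2 u3
    revert hn t8 t9 h
    generalize c.m j 1 3 4 = x
    generalize c.m j 1 3 0 = y
    generalize c.m j 3 3 15 = z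
    generalize c.m j 3 3 12 = w
    revert x y z w
    decide
  · clear t1 t2 t3 t4 t5 t6 t7 t9 u0 u1 u2 u3
    revert hn t8 t10 t11 h
    generalize c.m j 1 3 4 = x
    generalize c.m j 1 3 0 = y
    generalize c.m j 3 3 15 = z
    generalize c.m j 1 1 12 = w
    generalize c.m j 1 1 15 = b
    revert x y z w b
    decide

end Pool.Agent.BDD
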