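import Pool.Agent.BDD.St

/-!
# BDD / Fin: the final theorem
-/

set_option autoImplicit false

namespace Pool.Agent.BDD

open Pool.Agent.Helper58.BDimDefs Pool.Agent.Helper58.BDim

private theorem Fin_finite (N : ℕ) : Finite (PP N) := by
  have h : Finite (Pt N) := by
    refine Finite.of_injective (fun p : Pt N => (p.c, p.l, p.r)) ?_
    rintro ⟨c, l, r, h⟩ ⟨c', l', r', h'⟩ e
    simp only [Prod.mk.injEq] at e
    obtain ⟨rfl, rfl, rfl⟩ := e
    rfl
  exact inferInstanceAs (Finite (Option (Pt N)))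

private theorem Fin_six {X : Type} [Finite X] [PartialOrder X] (x : X)
    (h4 : Nonempty (BooleanRealizer {y : X // y ≠ x} 4)) :
    Nonempty (BooleanRealizer X 2) ∨ Nonempty (BooleanRealizer X 6) := by
  by_cases hQ : ∀ y z : X, y ≠ x → z ≠ x → ¬ y < z
  · exact Or.inl (add_antichain x hQ)
  · push Not at hQ
    obtain ⟨y, z, hy, hz, hyz⟩ := hQ
    obtain ⟨R⟩ := h4
    exact Or.inr (add_two x R ⟨y, hy⟩ ⟨z, hz⟩ hyz)

theorem thm_Fin (hOrd : St_Ord) (hUp : St_Up) (hRed : St_Red) (hWlg : St_Wlg) (hCoA : St_CoA)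
    (hCoB : St_CoB) (hMon : St_Mon) : St_Fin := by
  obtain ⟨N, hN⟩ := hRed
  haveI : Std.Irrefl (ltP (N := N)) := ⟨(hOrd N).1⟩
  haveI : IsTrans (PP N) ltP := ⟨(hOrd N).2⟩
  haveI : IsStrictOrder (PP N) ltP := {}
  letI : PartialOrder (PP N) := partialOrderOfSO ltP
  have hlt : ∀ p q : PP N, p < q ↔ ltP p q := fun _ _ => Iff.rfl
  haveI : Finite (PP N) := Fin_finite N
  have hno : ∀ d ≤ 5, ¬ Nonempty (BooleanRealizer (PP N) d) := fun d hd h => by
    obtain ⟨c, hp, h1 | ⟨h2, h3⟩⟩ := hWlg (hN hlt (hMon (PP N) d 5 hd h))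
    · exact hCoA c hp h1
    · exact hCoB c hp h2 h3
  have h4 : Nonempty (BooleanRealizer {y : PP N // y ≠ (none : Option (Pt N))} 4) := hUp N hlt
  have h6 : Nonempty (BooleanRealizer (PP N) 6) := by
    rcases Fin_six (X := PP N) (none : Option (Pt N)) h4 with h | h
    · exact absurd h (hno 2 (by norm_num))
    · exact h
  have a1 : bdim (PP N) ≤ 6 := bdim_le h6
  have a2 : Nonempty (BooleanRealizer (PP N) (bdim (PP N))) :=
    Nat.sInf_mem (s := {d | Nonempty (BooleanRealizer (PP N) d)}) ⟨6, h6⟩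
  have a3 : ¬ bdim (PP N) ≤ 5 := fun h => hno _ h a2
  have b1 : bdimPos (PP N) ≤ 6 := bdimPos_le (by norm_num) h6
  have b2 : 1 ≤ bdimPos (PP N) ∧ Nonempty (BooleanRealizer (PP N) (bdimPos (PP N))) :=
    Nat.sInf_mem (s := {d | 1 ≤ d ∧ Nonempty (BooleanRealizer (PP N) d)}) ⟨6, by norm_num, h6⟩
  have b3 : ¬ bdimPos (PP N) ≤ 5 := fun h => hno _ h b2.2
  have c1 : bdim {y : PP N // y ≠ (none : Option (Pt N))} ≤ 4 := bdim_le h4
  have c2 : bdimPos {y : PP N // y ≠ (none : Option (Pt N))} ≤ 4 := bdimPos_le (by norm_num) h4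
  have d1 := drop_le_two (X := PP N) (none : Option (Pt N))
  have d2 := dropPos_le_two (X := PP N) (none : Option (Pt N))
  exact ⟨PP N, inferInstance, inferInstance, (none : Option (Pt N)), by omega, by omega, by omega,
    by omega⟩

end Pool.Agent.BDD
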