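import Pool.Agent.BDD.St

/-!
# BDD, module Flp: reverse the columns of a canonical realizer
-/

set_option autoImplicit false

namespace Pool.Agent.BDD

private theorem Flp_cd {a0 a1 b0 b1 : ℕ} (ha : a0 < a1) (hb : b0 < b1) (h00 : a0 ≠ b0)
    (h01 : a0 ≠ b1) (h10 : a1 ≠ b0) (h11 : a1 ≠ b1) :
    cd a0 a1 b0 b1 ∈ SC ∧ rv (cd a0 a1 b0 b1) = cd b0 b1 a0 a1 := by
  have e00 : (b0 < a0) ↔ ¬ (a0 < b0) := by omega
  have e01 : (b1 < a0) ↔ ¬ (a0 < b1) := by omega
  have e10 : (b0 < a1) ↔ ¬ (a1 < b0) := by omega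
  have e11 : (b1 < a1) ↔ ¬ (a1 < b1) := by omega
  unfold cd
  simp only [e00, e01, e10, e11]
  by_cases h1 : a0 < b0 <;> by_cases h2 : a0 < b1 <;> by_cases h3 : a1 < b0 <;>
    by_cases h4 : a1 < b1 <;> first
    | (exfalso; omega)
    | simp [h1, h2, h3, h4, SC, rv]

private theorem Flp_rv {s : ℕ} (hs : s ∈ SC) : rv s ∈ SC := by
  simp only [SC, List.mem_cons, List.not_mem_nil, or_false] at hs
  rcases hs with rfl | rfl | rfl | rfl | rfl | rfl <;> decide

theorem thm_Flp : St_Flp := by
  rintro ⟨c⟩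
  have hx : ∀ (j : Fin 5) (A B : Fin 8), ∀ s ∈ SC, c.m j A B s = false →
      c.m j B A (rv s) = true := by
    intro j A B s hs h
    have := c.anti j A B s hs
    rw [h] at this
    simpa using this.symm
  have hy : ∀ (j : Fin 5) (A B : Fin 8), ∀ s ∈ SC, c.m j B A (rv s) = true →
      c.m j A B s = false := by
    intro j A B s hs h
    have := c.anti j A B s hs
    rw [h] at this
    simpa using this
  refine ⟨
    { m := fun j A B s => if c.m j 3 3 15 = true then c.m j A B s else !c.m j A B s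
      xb := fun j A => if c.m j 3 3 15 = true then c.xb j A else !c.xb j A
      psi := fun v => c.psi fun j => if c.m j 3 3 15 = true then v j else !v j
      anti := ?_
      tr := ?_
      xtr := ?_
      ps := ?_
      psD := ?_
      psU := ?_ }, ?_⟩
  · intro j A B s hs
    by_cases h : c.m j 3 3 15 = true
    · simp only [h, if_true]
      exact c.anti j A B s hs
    · simp only [h, Bool.false_eq_true, if_false]
      rw [c.anti j A B s hs]
  · intro j A B C a0 a1 b0 b1 c0 c1 ha hb hc ha6 hb6 hc6 hn h1 h2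
    by_cases h : c.m j 3 3 15 = true
    · simp only [h, if_true] at h1 h2 ⊢
      exact c.tr j A B C a0 a1 b0 b1 c0 c1 ha hb hc ha6 hb6 hc6 hn h1 h2
    · simp only [h, Bool.false_eq_true, if_false] at h1 h2 ⊢
      simp only [List.nodup_cons, List.mem_cons, List.not_mem_nil, or_false, not_or,
        List.nodup_nil, and_true, not_false_eq_true] at hn
      obtain ⟨⟨n1, n2, n3, n4, n5⟩, ⟨n6, n7, n8, n9⟩, ⟨n10, n11, n12⟩, ⟨n13, n14⟩, n15⟩ := hn
      obtain ⟨s1, r1⟩ := Flp_cd ha hb n2 n3 n6 n7
      obtain ⟨s2, r2⟩ := Flp_cd hb hc n11 n12 n13 n14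
      obtain ⟨s3, r3⟩ := Flp_cd ha hc n4 n5 n8 n9
      have h1' : c.m j B A (cd b0 b1 a0 a1) = true := by
        rw [← r1]
        exact hx j A B _ s1 (by simpa using h1)
      have h2' : c.m j C B (cd c0 c1 b0 b1) = true := by
        rw [← r2]
        exact hx j B C _ s2 (by simpa using h2)
      have hn' : [c0, c1, b0, b1, a0, a1].Nodup := by
        simp only [List.nodup_cons, List.mem_cons, List.not_mem_nil, or_false, not_or,
          List.nodup_nil, and_true, not_false_eq_true]
        refine ⟨⟨?_, ?_, ?_, ?_, ?_⟩, ⟨?_, ?_, ?_, ?_⟩, ⟨?_, ?_, ?_⟩, ⟨?_, ?_⟩, ?_⟩ <;> omega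
      have h3 := c.tr j C B A c0 c1 b0 b1 a0 a1 hc hb ha hc6 hb6 ha6 hn' h2' h1'
      rw [← r3] at h3
      simpa using hy j A C _ s3 h3
  · intro j A B s hs h1 h2
    by_cases h : c.m j 3 3 15 = true
    · simp only [h, if_true] at h1 h2 ⊢
      exact c.xtr j A B s hs h1 h2
    · simp only [h, Bool.false_eq_true, if_false] at h1 h2 ⊢
      have h3 := hx j A B s hs (by simpa using h1)
      by_contra h4
      have h5 : c.xb j A = true := by simpa using h4
      have h6 := c.xtr j B A (rv s) (Flp_rv hs) h3 h5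
      rw [h6] at h2
      simp at h2
  · intro A B s hs
    rw [← c.ps A B s hs]
    congr 1
    funext j
    by_cases h : c.m j 3 3 15 = true
    · simp only [h, if_true]
    · simp only [h, Bool.false_eq_true, if_false, Bool.not_not]
  · intro A
    rw [← c.psD A]
    congr 1
    funext j
    by_cases h : c.m j 3 3 15 = true
    · simp only [h, if_true]
    · simp only [h, Bool.false_eq_true, if_false, Bool.not_not]
  · intro A
    rw [← c.psU A]
    congr 1
    funext j
    by_cases h : c.m j 3 3 15 = true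
    · simp only [h, if_true]
    · simp only [h, Bool.false_eq_true, if_false, Bool.not_not]
  · intro j
    by_cases h : c.m j 3 3 15 = true
    · simp [h]
    · simp [h]

end Pool.Agent.BDD
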