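import Pool.Agent.BDD.St

/-!
# BDD: module Mon (a Boolean realizer of size `d` gives one of every size `e ≥ d`)
-/

set_option autoImplicit false

namespace Pool.Agent.BDD

open Pool.Agent.Helper58.BDimDefs

theorem thm_Mon : St_Mon := by
  intro X hfin _ d e hde hR
  obtain ⟨R⟩ := hR
  obtain ⟨n, ⟨f⟩⟩ := Finite.exists_equiv_fin X
  let L : LinearOrder X := LinearOrder.lift' f f.injective
  refine ⟨⟨fun i => if h : (i : ℕ) < d then R.orders ⟨i, h⟩ else L,
    fun v => R.phi (fun j => v (Fin.castLE hde j)), ?_⟩⟩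
  intro x y hxy
  rw [R.realizes x y hxy]
  have h : (fun i => (R.orders i).lt x y) = (fun j : Fin d =>
      (if h : ((Fin.castLE hde j : Fin e) : ℕ) < d then R.orders ⟨(Fin.castLE hde j : Fin e), h⟩
        else L).lt x y) := by
    funext j
    have hj : ((Fin.castLE hde j : Fin e) : ℕ) < d := j.2
    rw [dif_pos hj]
  rw [h]

end Pool.Agent.BDD
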