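import Pool.Agent.BDD.St

/-!
# BDD Ord: `ltP` is a strict order
-/

set_option autoImplicit false

namespace Pool.Agent.BDD

private theorem Ord_lt : ∀ A B : Fin 8, ∀ s ∈ SC, vt A B s = true → lev A < lev B := by
  decide +kernel

private theorem Ord_ge : ∀ A B : Fin 8, ∀ s ∈ SC, lev A = 0 → lev B = 2 → vt A B s = true := by
  decide +kernel

private theorem Ord_cnt (hCmp : St_Cmp) {N : ℕ} {p q : Pt N} (hpq : p ≠ q) :
    ∃ s ∈ SC, (cnt p q = 3 ↔ vt p.c q.c s = true) := by
  obtain ⟨s, hs, h⟩ := (hCmp N).1 p q hpq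
  refine ⟨s, hs, ?_⟩
  unfold cnt vt
  rw [decide_eq_true_iff]
  have : (Finset.univ.filter fun i => key i p < key i q) =
      (Finset.univ.filter fun i => bitO i p.c q.c s = true) :=
    Finset.filter_congr fun i _ => h i
  rw [this]

private theorem Ord_self {N : ℕ} (p : Pt N) : cnt p p ≠ 3 := by
  unfold cnt
  simp

private theorem Ord_lev (hCmp : St_Cmp) {N : ℕ} {p q : Pt N} (h : cnt p q = 3) :
    lev p.c < lev q.c := by
  by_cases hpq : p = q
  · subst hpq
    exact absurd h (Ord_self p)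
  · obtain ⟨s, hs, e⟩ := Ord_cnt hCmp hpq
    exact Ord_lt _ _ s hs (e.1 h)

private theorem Ord_three (hCmp : St_Cmp) {N : ℕ} {p q : Pt N} (h0 : lev p.c = 0)
    (h2 : lev q.c = 2) : cnt p q = 3 := by
  have hpq : p ≠ q := by
    rintro rfl
    omega
  obtain ⟨s, hs, e⟩ := Ord_cnt hCmp hpq
  exact e.2 (Ord_ge _ _ s hs h0 h2)

private theorem Ord_le : ∀ A : Fin 8, lev A ≤ 2 := by decide

private theorem Ord_dn : ∀ A : Fin 8, (A = 0 ∨ A = 5) ↔ lev A = 0 := by decide

private theorem Ord_up : ∀ A : Fin 8, A = 3 → lev A = 2 := by decide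

theorem thm_Ord (hCmp : St_Cmp) : St_Ord := by
  intro N
  refine ⟨?_, ?_⟩
  · rintro (_ | p) h
    · exact h
    · exact Ord_self p h
  · rintro (_ | p) (_ | q) (_ | r) h1 h2
    · exact h1
    · exact absurd h1 id
    · -- none < q < none
      have h1' : q.c = 3 := h1
      have h2' : q.c = 0 ∨ q.c = 5 := h2
      rw [h1'] at h2'
      exact absurd h2' (by decide)
    · -- none < q < r
      have h1' : q.c = 3 := h1
      have h2' : cnt q r = 3 := h2
      have := Ord_lev hCmp h2'
      have h3 := Ord_up _ h1'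
      have h4 := Ord_le r.c
      omega
    · exact absurd h2 id
    · -- p < none < r
      have h1' : p.c = 0 ∨ p.c = 5 := h1
      have h2' : r.c = 3 := h2
      exact Ord_three hCmp ((Ord_dn _).1 h1') (Ord_up _ h2')
    · -- p < q < none
      have h1' : cnt p q = 3 := h1
      have h2' : q.c = 0 ∨ q.c = 5 := h2
      have := Ord_lev hCmp h1'
      have h3 := (Ord_dn _).1 h2'
      omega
    · -- p < q < r
      have h1' : cnt p q = 3 := h1
      have h2' : cnt q r = 3 := h2
      have a1 := Ord_lev hCmp h1'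
      have a2 := Ord_lev hCmp h2'
      have a3 := Ord_le r.c
      exact Ord_three hCmp (by omega) (by omega)

end Pool.Agent.BDD
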