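import Pool.Agent.BDD.St

set_option autoImplicit false

namespace Pool.Agent.BDD

theorem thm_Prm : St_Prm := by
  intro c σ
  refine ⟨{ m := fun j => c.m (σ j)
            xb := fun j => c.xb (σ j)
            psi := fun f => c.psi (fun j => f (σ.symm j))
            anti := fun j => c.anti (σ j)
            tr := fun j => c.tr (σ j)
            xtr := fun j => c.xtr (σ j)
            ps := ?_
            psD := ?_
            psU := ?_ }, fun j A B s => rfl⟩
  · intro A B s hs
    rw [← c.ps A B s hs]
    congr 1
    funext j
    simp only [Equiv.apply_symm_apply]
  · intro A
    rw [← c.psD A]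
    congr 1
    funext j
    simp only [Equiv.apply_symm_apply]
  · intro A
    rw [← c.psU A]
    congr 1
    funext j
    simp only [Equiv.apply_symm_apply]

end Pool.Agent.BDD
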