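import Pool.Agent.BDD.St

/-!
# BDD, module Red: a canonical realizer by Ramsey's theorem
-/

set_option autoImplicit false

namespace Pool.Agent.BDD

open Pool.Agent.Helper58.BDimDefs

/-- the places of the ends of the two pairs with the code `s` -/
private def Red_pl (s : ℕ) : Fin 4 × Fin 4 × Fin 4 × Fin 4 :=
  if s = 15 then (0, 1, 2, 3) else if s = 13 then (0, 2, 1, 3) else if s = 12 then (0, 3, 1, 2)
  else if s = 5 then (1, 2, 0, 3) else if s = 4 then (1, 3, 0, 2) else (2, 3, 0, 1)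

/-- the comparison of the points `(A, a0, a1)` and `(B, b0, b1)` -/
private def Red_L {N : ℕ} (o : LinearOrder (PP N)) (A B : Fin 8) (a0 a1 b0 b1 : ℕ) : Prop :=
  ∃ p q : Pt N, p.c = A ∧ (p.l : ℕ) = a0 ∧ (p.r : ℕ) = a1 ∧ q.c = B ∧ (q.l : ℕ) = b0 ∧
    (q.r : ℕ) = b1 ∧ o.lt (some p) (some q)

/-- the comparison of the point `(A, a0, a1)` with `x` -/
private def Red_X {N : ℕ} (o : LinearOrder (PP N)) (A : Fin 8) (a0 a1 : ℕ) : Prop :=
  ∃ p : Pt N, p.c = A ∧ (p.l : ℕ) = a0 ∧ (p.r : ℕ) = a1 ∧ o.lt (some p) none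

private theorem Red_ext {N : ℕ} {p q : Pt N} (hc : p.c = q.c) (hl : (p.l : ℕ) = q.l)
    (hr : (p.r : ℕ) = q.r) : p = q := by
  cases p
  cases q
  simp only [Pt.mk.injEq]
  exact ⟨hc, Fin.ext hl, Fin.ext hr⟩

private theorem Red_Liff {N : ℕ} (o : LinearOrder (PP N)) (p q : Pt N) :
    Red_L o p.c q.c p.l p.r q.l q.r ↔ o.lt (some p) (some q) := by
  constructor
  · rintro ⟨p', q', h1, h2, h3, h4, h5, h6, h7⟩
    rw [← Red_ext h1 h2 h3, ← Red_ext h4 h5 h6]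
    exact h7
  · intro h
    exact ⟨p, q, rfl, rfl, rfl, rfl, rfl, rfl, h⟩

private theorem Red_Xiff {N : ℕ} (o : LinearOrder (PP N)) (p : Pt N) :
    Red_X o p.c p.l p.r ↔ o.lt (some p) none := by
  constructor
  · rintro ⟨p', h1, h2, h3, h7⟩
    rw [← Red_ext h1 h2 h3]
    exact h7
  · intro h
    exact ⟨p, rfl, rfl, rfl, h⟩

private theorem Red_tri {X : Type} (o : LinearOrder X) (x y : X) (h : x ≠ y) :
    o.lt x y ↔ ¬ o.lt y x := by
  constructor
  · intro h1 h2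
    exact @lt_irrefl X o.toPreorder x (@lt_trans X o.toPreorder _ _ _ h1 h2)
  · intro h1
    exact @lt_of_le_of_ne X o.toPartialOrder _ _ ((@not_lt X o _ _).1 h1) h

private theorem Red_trans {X : Type} (o : LinearOrder X) {x y z : X} (h1 : o.lt x y)
    (h2 : o.lt y z) : o.lt x z :=
  @lt_trans X o.toPreorder _ _ _ h1 h2

/-- code of the reversed position -/
private theorem Red_cd {a0 a1 b0 b1 : ℕ} (ha : a0 < a1) (hb : b0 < b1) (h00 : a0 ≠ b0)
    (h01 : a0 ≠ b1) (h10 : a1 ≠ b0) (h11 : a1 ≠ b1) :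
    rv (cd a0 a1 b0 b1) = cd b0 b1 a0 a1 := by
  have e00 : (b0 < a0) ↔ ¬ (a0 < b0) := by omega
  have e01 : (b1 < a0) ↔ ¬ (a0 < b1) := by omega
  have e10 : (b0 < a1) ↔ ¬ (a1 < b0) := by omega
  have e11 : (b1 < a1) ↔ ¬ (a1 < b1) := by omega
  unfold cd
  simp only [e00, e01, e10, e11]
  by_cases h1 : a0 < b0 <;> by_cases h2 : a0 < b1 <;> by_cases h3 : a1 < b0 <;>
    by_cases h4 : a1 < b1 <;> first
    | (exfalso; omega)
    | simp [h1, h2, h3, h4, rv]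

/-- every code occurs on `0, 1, 2, 3` -/
private theorem Red_occ {s : ℕ} (hs : s ∈ SC) : ∃ a0 a1 b0 b1 : ℕ, a0 < a1 ∧ b0 < b1 ∧ a1 < 6 ∧
    b1 < 6 ∧ a0 ≠ b0 ∧ a0 ≠ b1 ∧ a1 ≠ b0 ∧ a1 ≠ b1 ∧ cd a0 a1 b0 b1 = s := by
  simp only [SC, List.mem_cons, List.not_mem_nil, or_false] at hs
  rcases hs with rfl | rfl | rfl | rfl | rfl | rfl
  · exact ⟨0, 1, 2, 3, by decide, by decide, by decide, by decide, by decide, by decide,
      by decide, by decide, by decide⟩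
  · exact ⟨0, 2, 1, 3, by decide, by decide, by decide, by decide, by decide, by decide,
      by decide, by decide, by decide⟩
  · exact ⟨0, 3, 1, 2, by decide, by decide, by decide, by decide, by decide, by decide,
      by decide, by decide, by decide⟩
  · exact ⟨1, 2, 0, 3, by decide, by decide, by decide, by decide, by decide, by decide,
      by decide, by decide, by decide⟩
  · exact ⟨1, 3, 0, 2, by decide, by decide, by decide, by decide, by decide, by decide,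
      by decide, by decide, by decide⟩
  · exact ⟨2, 3, 0, 1, by decide, by decide, by decide, by decide, by decide, by decide,
      by decide, by decide, by decide⟩

/-- the colour -/
private noncomputable def Red_c {N : ℕ} (o : Fin 5 → LinearOrder (PP N)) (i j k l : ℕ) :
    (Fin 5 → Fin 8 → Fin 8 → Fin 4 → Fin 4 → Fin 4 → Fin 4 → Prop) × (Fin 5 → Fin 8 → Prop) :=
  (fun t A B a0 a1 b0 b1 => Red_L (o t) A B (![i, j, k, l] a0) (![i, j, k, l] a1)
    (![i, j, k, l] b0) (![i, j, k, l] b1), fun t A => Red_X (o t) A i j)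

theorem thm_Red (hRam : St_Ram) (hCmp : St_Cmp) : St_Red := by
  classical
  have h0 : Finite (Fin 4 → Prop) := inferInstance
  have h1 : Finite (Fin 4 → Fin 4 → Prop) := inferInstance
  have h2 : Finite (Fin 4 → Fin 4 → Fin 4 → Prop) := inferInstance
  have h3 : Finite (Fin 4 → Fin 4 → Fin 4 → Fin 4 → Prop) := inferInstance
  have h4 : Finite (Fin 8 → Fin 4 → Fin 4 → Fin 4 → Fin 4 → Prop) := inferInstance
  have h5 : Finite (Fin 8 → Fin 8 → Fin 4 → Fin 4 → Fin 4 → Fin 4 → Prop) := inferInstance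
  have h6 : Finite (Fin 5 → Fin 8 → Fin 8 → Fin 4 → Fin 4 → Fin 4 → Fin 4 → Prop) :=
    inferInstance
  obtain ⟨n, hn⟩ := hRam
    ((Fin 5 → Fin 8 → Fin 8 → Fin 4 → Fin 4 → Fin 4 → Fin 4 → Prop) × (Fin 5 → Fin 8 → Prop))
  refine ⟨n, ?_⟩
  intro inst hlt ⟨R⟩
  obtain ⟨v, hv, hvn, κ, hκ⟩ := hn (Red_c R.orders)
  -- the points
  have hP : ∀ (A : Fin 8) (a0 a1 : ℕ), a0 < a1 → a1 < 8 →
      ∃ p : Pt n, p.c = A ∧ (p.l : ℕ) = v a0 ∧ (p.r : ℕ) = v a1 := by
    intro A a0 a1 h h8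
    exact ⟨⟨A, ⟨v a0, hvn _ (by omega)⟩, ⟨v a1, hvn _ h8⟩, hv _ _ h h8⟩, rfl, rfl, rfl⟩
  have hvv : ∀ i j : ℕ, i < 8 → j < 8 → (v i < v j ↔ i < j) := by
    intro i j hi hj
    constructor
    · intro h
      by_contra h'
      rcases Nat.lt_or_ge j i with h2 | h2
      · have := hv _ _ h2 hi
        omega
      · have : i = j := by omega
        subst this
        omega
    · intro h
      exact hv _ _ h hj
  have hcd : ∀ a0 a1 b0 b1 : ℕ, a0 < 8 → a1 < 8 → b0 < 8 → b1 < 8 →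
      cd (v a0) (v a1) (v b0) (v b1) = cd a0 a1 b0 b1 := by
    intro a0 a1 b0 b1 h1 h2 h3 h4
    unfold cd
    simp only [hvv _ _ h1 h3, hvv _ _ h1 h4, hvv _ _ h2 h3, hvv _ _ h2 h4]
  -- the canonical comparison
  set m : Fin 5 → Fin 8 → Fin 8 → ℕ → Prop := fun t A B s =>
    κ.1 t A B (Red_pl s).1 (Red_pl s).2.1 (Red_pl s).2.2.1 (Red_pl s).2.2.2 with hm
  have hmL : ∀ (t : Fin 5) (A B : Fin 8) (a0 a1 b0 b1 : ℕ), a0 < a1 → b0 < b1 → a1 < 6 →
      b1 < 6 → a0 ≠ b0 → a0 ≠ b1 → a1 ≠ b0 → a1 ≠ b1 →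
      (m t A B (cd a0 a1 b0 b1) ↔ Red_L (R.orders t) A B (v a0) (v a1) (v b0) (v b1)) := by
    intro t A B a0 a1 b0 b1 ha hb ha6 hb6 n1 n2 n3 n4
    rw [hm]
    simp only
    have hk : ∀ i j k l : ℕ, i < j → j < k → k < l → l < 8 → ∀ c0 c1 d0 d1 : Fin 4,
        κ.1 t A B c0 c1 d0 d1 = Red_L (R.orders t) A B (![v i, v j, v k, v l] c0)
          (![v i, v j, v k, v l] c1) (![v i, v j, v k, v l] d0) (![v i, v j, v k, v l] d1) := by
      intro i j k l h1 h2 h3 h4 c0 c1 d0 d1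
      rw [← hκ i j k l h1 h2 h3 h4]
      rfl
    by_cases h1 : a0 < b0 <;> by_cases h2 : a0 < b1 <;> by_cases h3 : a1 < b0 <;>
      by_cases h4 : a1 < b1 <;> try (exfalso; omega)
    · have : cd a0 a1 b0 b1 = 15 := by simp [cd, h1, h2, h3, h4]
      rw [this, hk a0 a1 b0 b1 (by omega) (by omega) (by omega) (by omega)]
      rfl
    · have : cd a0 a1 b0 b1 = 13 := by simp [cd, h1, h2, h3, h4]
      rw [this, hk a0 b0 a1 b1 (by omega) (by omega) (by omega) (by omega)]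
      rfl
    · have : cd a0 a1 b0 b1 = 12 := by simp [cd, h1, h2, h3, h4]
      rw [this, hk a0 b0 b1 a1 (by omega) (by omega) (by omega) (by omega)]
      rfl
    · have : cd a0 a1 b0 b1 = 5 := by simp [cd, h1, h2, h3, h4]
      rw [this, hk b0 a0 a1 b1 (by omega) (by omega) (by omega) (by omega)]
      rfl
    · have : cd a0 a1 b0 b1 = 4 := by simp [cd, h1, h2, h3, h4]
      rw [this, hk b0 a0 b1 a1 (by omega) (by omega) (by omega) (by omega)]
      rfl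
    · have : cd a0 a1 b0 b1 = 0 := by simp [cd, h1, h2, h3, h4]
      rw [this, hk b0 b1 a0 a1 (by omega) (by omega) (by omega) (by omega)]
      rfl
  have hxL : ∀ (t : Fin 5) (A : Fin 8) (a0 a1 : ℕ), a0 < a1 → a1 < 6 →
      (κ.2 t A ↔ Red_X (R.orders t) A (v a0) (v a1)) := by
    intro t A a0 a1 h h6
    rw [← hκ a0 a1 6 7 h h6 (by omega) (by omega)]
    rfl
  -- points and comparisons
  have hml : ∀ (t : Fin 5) (p q : Pt n) (a0 a1 b0 b1 : ℕ), a0 < a1 → b0 < b1 → a1 < 6 →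
      b1 < 6 → a0 ≠ b0 → a0 ≠ b1 → a1 ≠ b0 → a1 ≠ b1 → (p.l : ℕ) = v a0 → (p.r : ℕ) = v a1 →
      (q.l : ℕ) = v b0 → (q.r : ℕ) = v b1 →
      (m t p.c q.c (cd a0 a1 b0 b1) ↔ (R.orders t).lt (some p) (some q)) := by
    intro t p q a0 a1 b0 b1 ha hb ha6 hb6 n1 n2 n3 n4 e1 e2 e3 e4
    rw [hmL t _ _ a0 a1 b0 b1 ha hb ha6 hb6 n1 n2 n3 n4, ← e1, ← e2, ← e3, ← e4]
    exact Red_Liff _ p q
  have hne : ∀ (p q : Pt n) (a0 a1 b0 b1 : ℕ), a0 < a1 → b0 < b1 → a1 < 6 →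
      b1 < 6 → a0 ≠ b0 → a0 ≠ b1 → a1 ≠ b0 → a1 ≠ b1 → (p.l : ℕ) = v a0 → (p.r : ℕ) = v a1 →
      (q.l : ℕ) = v b0 → (q.r : ℕ) = v b1 → [p.l, p.r, q.l, q.r].Nodup := by
    intro p q a0 a1 b0 b1 ha hb ha6 hb6 n1 n2 n3 n4 e1 e2 e3 e4
    have hd : ∀ i j : ℕ, i < 8 → j < 8 → i ≠ j → v i ≠ v j := by
      intro i j hi hj hij h
      rcases Nat.lt_or_gt_of_ne hij with h2 | h2
      · have := hv _ _ h2 hj
        omega
      · have := hv _ _ h2 hi
        omega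
    have hd' : ∀ (x y : Fin n) (i j : ℕ), (x : ℕ) = v i → (y : ℕ) = v j → i < 8 → j < 8 → i ≠ j →
        x ≠ y := by
      intro x y i j hx hy hi hj hij h
      apply hd i j hi hj hij
      rw [← hx, ← hy, h]
    simp only [List.nodup_cons, List.mem_cons, List.not_mem_nil, or_false, not_or,
      List.nodup_nil, and_true, not_false_eq_true]
    exact ⟨⟨hd' _ _ a0 a1 e1 e2 (by omega) (by omega) (by omega),
      hd' _ _ a0 b0 e1 e3 (by omega) (by omega) n1, hd' _ _ a0 b1 e1 e4 (by omega) (by omega) n2⟩,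
      ⟨hd' _ _ a1 b0 e2 e3 (by omega) (by omega) n3, hd' _ _ a1 b1 e2 e4 (by omega) (by omega) n4⟩,
      hd' _ _ b0 b1 e3 e4 (by omega) (by omega) (by omega)⟩
  have hpq : ∀ p q : Pt n, [p.l, p.r, q.l, q.r].Nodup → (some p : PP n) ≠ some q := by
    intro p q h h2
    have h3 : p = q := Option.some.inj h2
    subst h3
    simp at h
  refine ⟨{ m := fun t A B s => decide (m t A B s)
            xb := fun t A => decide (κ.2 t A)
            psi := fun u => decide (R.phi fun t => u t = true)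
            anti := ?_
            tr := ?_
            xtr := ?_
            ps := ?_
            psD := ?_
            psU := ?_ }⟩
  · intro t A B s hs
    obtain ⟨a0, a1, b0, b1, ha, hb, ha6, hb6, n1, n2, n3, n4, rfl⟩ := Red_occ hs
    rw [Red_cd ha hb n1 n2 n3 n4]
    obtain ⟨p, rfl, p2, p3⟩ := hP A a0 a1 ha (by omega)
    obtain ⟨q, rfl, q2, q3⟩ := hP B b0 b1 hb (by omega)
    have hnd := hne p q a0 a1 b0 b1 ha hb ha6 hb6 n1 n2 n3 n4 p2 p3 q2 q3
    have e1 := hml t p q a0 a1 b0 b1 ha hb ha6 hb6 n1 n2 n3 n4 p2 p3 q2 q3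
    have e2 := hml t q p b0 b1 a0 a1 hb ha hb6 ha6 n1.symm n3.symm n2.symm n4.symm q2 q3 p2 p3
    rw [Bool.eq_iff_iff, decide_eq_true_iff, Bool.not_eq_true', decide_eq_false_iff_not, e1, e2]
    exact Red_tri _ _ _ (hpq p q hnd)
  · intro t A B C a0 a1 b0 b1 c0 c1 ha hb hc ha6 hb6 hc6 hn h1 h2
    simp only [List.nodup_cons, List.mem_cons, List.not_mem_nil, or_false, not_or,
      List.nodup_nil, and_true, not_false_eq_true] at hn
    obtain ⟨⟨n1, n2, n3, n4, n5⟩, ⟨n6, n7, n8, n9⟩, ⟨n10, n11, n12⟩, ⟨n13, n14⟩, n15⟩ := hn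
    obtain ⟨p, rfl, p2, p3⟩ := hP A a0 a1 ha (by omega)
    obtain ⟨q, rfl, q2, q3⟩ := hP B b0 b1 hb (by omega)
    obtain ⟨r, rfl, r2, r3⟩ := hP C c0 c1 hc (by omega)
    rw [decide_eq_true_iff] at h1 h2 ⊢
    rw [hml t p q a0 a1 b0 b1 ha hb ha6 hb6 n2 n3 n6 n7 p2 p3 q2 q3] at h1
    rw [hml t q r b0 b1 c0 c1 hb hc hb6 hc6 n11 n12 n13 n14 q2 q3 r2 r3] at h2
    rw [hml t p r a0 a1 c0 c1 ha hc ha6 hc6 n4 n5 n8 n9 p2 p3 r2 r3]
    exact Red_trans _ h1 h2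
  · intro t A B s hs h1 h2
    obtain ⟨a0, a1, b0, b1, ha, hb, ha6, hb6, n1, n2, n3, n4, rfl⟩ := Red_occ hs
    obtain ⟨p, rfl, p2, p3⟩ := hP A a0 a1 ha (by omega)
    obtain ⟨q, rfl, q2, q3⟩ := hP B b0 b1 hb (by omega)
    rw [decide_eq_true_iff] at h1 h2 ⊢
    rw [hml t p q a0 a1 b0 b1 ha hb ha6 hb6 n1 n2 n3 n4 p2 p3 q2 q3] at h1
    rw [hxL t _ b0 b1 hb hb6, ← q2, ← q3, Red_Xiff] at h2
    rw [hxL t _ a0 a1 ha ha6, ← p2, ← p3, Red_Xiff]
    exact Red_trans _ h1 h2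
  · intro A B s hs
    obtain ⟨a0, a1, b0, b1, ha, hb, ha6, hb6, n1, n2, n3, n4, rfl⟩ := Red_occ hs
    obtain ⟨p, rfl, p2, p3⟩ := hP A a0 a1 ha (by omega)
    obtain ⟨q, rfl, q2, q3⟩ := hP B b0 b1 hb (by omega)
    have hnd := hne p q a0 a1 b0 b1 ha hb ha6 hb6 n1 n2 n3 n4 p2 p3 q2 q3
    have e1 : (fun t : Fin 5 => decide (m t p.c q.c (cd a0 a1 b0 b1)) = true) =
        fun t => (R.orders t).lt (some p) (some q) := by
      funext t
      rw [decide_eq_true_eq, hml t p q a0 a1 b0 b1 ha hb ha6 hb6 n1 n2 n3 n4 p2 p3 q2 q3]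
    rw [Bool.eq_iff_iff, decide_eq_true_iff, e1, ← R.realizes _ _ (hpq p q hnd), hlt]
    have e2 := ((hCmp n).2 p q hnd).2
    rw [p2, p3, q2, q3, hcd a0 a1 b0 b1 (by omega) (by omega) (by omega) (by omega)] at e2
    exact e2
  · intro A
    obtain ⟨p, rfl, p2, p3⟩ := hP A 0 1 (by omega) (by omega)
    have e1 : (fun t : Fin 5 => decide (κ.2 t p.c) = true) =
        fun t => (R.orders t).lt (some p) none := by
      funext t
      rw [decide_eq_true_eq, hxL t _ 0 1 (by omega) (by omega), ← p2, ← p3, Red_Xiff]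
    rw [Bool.eq_iff_iff, decide_eq_true_iff, e1, ← R.realizes _ _ (Option.some_ne_none p), hlt,
      decide_eq_true_iff]
    rfl
  · intro A
    obtain ⟨p, rfl, p2, p3⟩ := hP A 0 1 (by omega) (by omega)
    have e1 : (fun t : Fin 5 => (!decide (κ.2 t p.c)) = true) =
        fun t => (R.orders t).lt none (some p) := by
      funext t
      rw [Bool.not_eq_true', decide_eq_false_iff_not, hxL t _ 0 1 (by omega) (by omega), ← p2,
        ← p3, Red_Xiff, Red_tri (X := PP n) (R.orders t) none (some p)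
          (Option.some_ne_none p).symm]
    rw [Bool.eq_iff_iff, decide_eq_true_iff, e1,
      ← R.realizes _ _ (Option.some_ne_none p).symm, hlt, decide_eq_true_iff]
    rfl

end Pool.Agent.BDD
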