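import Pool.Agent.BDD.St

/-!
# BDD, module Up (helper8): a Boolean realizer of size four of the points different from `x`
-/

set_option autoImplicit false

namespace Pool.Agent.BDD

open Pool.Agent.Helper58.BDimDefs

private def Up_pt {N : ℕ} : {y : PP N // y ≠ none} → Pt N
  | ⟨some p, _⟩ => p
  | ⟨none, h⟩ => absurd rfl h

private theorem Up_some {N : ℕ} (y : {y : PP N // y ≠ none}) : y.1 = some (Up_pt y) := by
  rcases y with ⟨y, hy⟩
  cases y with
  | none => exact absurd rfl hy
  | some p => rfl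

private theorem Up_inj {N : ℕ} (a b : {y : PP N // y ≠ none}) (h : Up_pt a = Up_pt b) : a = b := by
  apply Subtype.ext
  rw [Up_some a, Up_some b, h]

theorem thm_Up (hKey : St_Key) : St_Up := by
  intro N _ hlt
  obtain ⟨-, -, hk, -, -⟩ := hKey N
  have hinj : ∀ i : Fin 4, Function.Injective fun y : {y : PP N // y ≠ none} => key i (Up_pt y) :=
    fun i a b h => Up_inj a b (hk i _ _ h)
  refine ⟨⟨fun i => LinearOrder.lift' (fun y => key i (Up_pt y)) (hinj i),
    fun v => ∃ s : Finset (Fin 4), s.card = 3 ∧ ∀ i, i ∈ s ↔ v i, ?_⟩⟩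
  intro x y _
  have h1 : x < y ↔ cnt (Up_pt x) (Up_pt y) = 3 := by
    rw [← Subtype.coe_lt_coe, hlt, Up_some x, Up_some y]
    rfl
  rw [h1]
  have h2 : ∀ i, (LinearOrder.lift' (fun y => key i (Up_pt y)) (hinj i)).lt x y ↔
      key i (Up_pt x) < key i (Up_pt y) := fun i => Iff.rfl
  simp only [h2]
  constructor
  · intro h
    exact ⟨Finset.univ.filter fun i => key i (Up_pt x) < key i (Up_pt y), h, fun i => by simp⟩
  · rintro ⟨s, hs, hi⟩
    have h3 : s = Finset.univ.filter fun i => key i (Up_pt x) < key i (Up_pt y) := by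
      ext i
      rw [hi i]
      simp
    rw [cnt, ← h3]
    exact hs

end Pool.Agent.BDD
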