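import Pool.Agent.BDD.St

/-!
# BDD, [Wlg]: normalisation of the columns
-/

set_option autoImplicit false

namespace Pool.Agent.BDD

private lemma Wlg_col (c : Can) (A B : Fin 8) (s t : ℕ) (hs : s ∈ SC) (ht : t ∈ SC)
    (h : vt A B s ≠ vt A B t) : ∃ j, c.m j A B s ≠ c.m j A B t := by
  by_contra hne
  push Not at hne
  apply h
  rw [← c.ps A B s hs, ← c.ps A B t ht]
  congr 1
  funext j
  exact hne j

private lemma Wlg_perm (j : Fin 3 → Fin 5) (hj : Function.Injective j) :
    ∃ σ : Equiv.Perm (Fin 5), σ 0 = j 0 ∧ σ 1 = j 1 ∧ σ 2 = j 2 := by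
  obtain ⟨g, hg⟩ := Finset.exists_equiv_extend_of_card_eq (α := Fin 5) (β := Fin 5)
    (t := Finset.univ) (by simp) (s := {0, 1, 2})
    (f := fun i => if i = 0 then j 0 else if i = 1 then j 1 else j 2)
    (Finset.subset_univ _) (by
      intro a ha b hb hab
      have h01 : j 0 ≠ j 1 := fun h => absurd (hj h) (by decide)
      have h02 : j 0 ≠ j 2 := fun h => absurd (hj h) (by decide)
      have h12 : j 1 ≠ j 2 := fun h => absurd (hj h) (by decide)
      simp only [Finset.coe_insert, Finset.coe_singleton, Set.mem_insert_iff,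
        Set.mem_singleton_iff] at ha hb
      rcases ha with rfl | rfl | rfl <;> rcases hb with rfl | rfl | rfl <;>
        simp_all)
  refine ⟨g.trans (Equiv.subtypeUnivEquiv fun x => Finset.mem_univ x), ?_, ?_, ?_⟩
  · have := hg 0 (by simp)
    simpa using this
  · have := hg 1 (by simp)
    simpa using this
  · have := hg 2 (by simp)
    simpa using this

theorem thm_Wlg (hFlp : St_Flp) (hPrm : St_Prm) (hCol : St_Col) : St_Wlg := by
  intro hne
  obtain ⟨c, hu⟩ := hFlp hne
  obtain ⟨j0, h0⟩ := Wlg_col c 1 3 15 13 (by decide) (by decide) (by decide)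
  obtain ⟨j1, h1⟩ := Wlg_col c 1 3 13 12 (by decide) (by decide) (by decide)
  obtain ⟨j2, h2⟩ := Wlg_col c 1 3 4 0 (by decide) (by decide) (by decide)
  have c0 := (hCol c j0 (hu j0)).1 h0
  have c1 := (hCol c j1 (hu j1)).2.1 h1
  have c2 := (hCol c j2 (hu j2)).2.2 h2
  have h01 : j0 ≠ j1 := by
    rintro rfl
    rw [c0] at c1
    exact absurd c1.1 (by decide)
  have h02 : j0 ≠ j2 := by
    rintro rfl
    rw [c0] at c2
    exact absurd c2.1 (by decide)
  have h12 : j1 ≠ j2 := by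
    rintro rfl
    exact c1.2 c2.2
  obtain ⟨σ, s0, s1, s2⟩ := Wlg_perm ![j0, j1, j2] (by
    intro a b hab
    fin_cases a <;> fin_cases b <;> simp_all)
  simp only [Matrix.cons_val_zero, Matrix.cons_val_one, Matrix.cons_val] at s0 s1 s2
  -- the property for a permutation with the right values at 0, 1, 2
  have key : ∀ τ : Equiv.Perm (Fin 5), τ 0 = j0 → τ 1 = j1 → τ 2 = j2 →
      (c.m (τ 3) 3 3 12 = true ∨ (c.m (τ 3) 3 3 12 = false ∧ c.m (τ 4) 3 3 12 = false)) →
      ∃ c : Can, Pin c ∧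
        (c.m 3 3 3 12 = true ∨ (c.m 3 3 3 12 = false ∧ c.m 4 3 3 12 = false)) := by
    intro τ t0 t1 t2 h
    obtain ⟨c', hc'⟩ := hPrm c τ
    refine ⟨c', ⟨?_, ?_, ?_, ?_⟩, ?_⟩
    · intro j
      rw [hc']
      exact hu _
    · rw [hc', hc', t0]
      exact h0
    · rw [hc', hc', t1]
      exact h1
    · rw [hc', hc', t2]
      exact h2
    · rw [hc', hc']
      exact h
  rcases Bool.eq_false_or_eq_true (c.m (σ 3) 3 3 12) with h3 | h3
  · exact key σ s0 s1 s2 (Or.inl h3)
  · rcases Bool.eq_false_or_eq_true (c.m (σ 4) 3 3 12) with h4 | h4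
    · refine key (σ * Equiv.swap 3 4) ?_ ?_ ?_ (Or.inl ?_)
      · rw [Equiv.Perm.mul_apply, Equiv.swap_apply_of_ne_of_ne (by decide) (by decide), s0]
      · rw [Equiv.Perm.mul_apply, Equiv.swap_apply_of_ne_of_ne (by decide) (by decide), s1]
      · rw [Equiv.Perm.mul_apply, Equiv.swap_apply_of_ne_of_ne (by decide) (by decide), s2]
      · rw [Equiv.Perm.mul_apply, Equiv.swap_apply_left, h4]
    · exact key σ s0 s1 s2 (Or.inr ⟨h3, h4⟩)

end Pool.Agent.BDD
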