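import Pool.Agent.BDD.Key
import Pool.Agent.BDD.Cmp
import Pool.Agent.BDD.Ord
import Pool.Agent.BDD.Up
import Pool.Agent.BDD.Ram
import Pool.Agent.BDD.Red
import Pool.Agent.BDD.Flp
import Pool.Agent.BDD.Prm
import Pool.Agent.BDD.Col
import Pool.Agent.BDD.Wlg
import Pool.Agent.BDD.CoA
import Pool.Agent.BDD.CoB
import Pool.Agent.BDD.Mon
import Pool.Agent.BDD.Fin

/-!
# BDD: the assembly
-/

set_option autoImplicit false

namespace Pool.Agent.BDD

theorem thm_All : St_Fin :=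
  thm_Fin (thm_Ord (thm_Cmp thm_Key)) (thm_Up thm_Key) (thm_Red thm_Ram (thm_Cmp thm_Key))
    (thm_Wlg thm_Flp thm_Prm thm_Col) thm_CoA thm_CoB thm_Mon

end Pool.Agent.BDD
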