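import Pool.Agent.BDD.Gen

/-! BDD: the context of the certificate B -/

set_option autoImplicit false

namespace Pool.Agent.BDD.B

/-- the hypotheses -/
structure Ct (c : Can) : Prop where
  pin : Pin c
  b3 : c.m 3 3 3 12 = false
  b4 : c.m 4 3 3 12 = false

end Pool.Agent.BDD.B
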