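import Mathlib

/-!
# BDD, module Chk: a unit propagation checker on bit masks

A clause is a number; the bit `2 v` stands for the positive literal of the variable `v`, the bit
`2 v + 1` for the negative one.
-/

set_option autoImplicit false

namespace Pool.Agent.BDD

/-- the value of a literal -/
def lv (w : ℕ → Bool) (l : ℕ) : Bool := if l % 2 = 0 then w (l / 2) else !w (l / 2)

/-- the clause `H` holds -/
def V (w : ℕ → Bool) (H : ℕ) : Prop := ∃ l, H.testBit l = true ∧ lv w l = true

/-- the bits with even number -/
def evn : ℕ := 0x555555555555555555555555555555555555555555555555555555555555555555555555555555555555555555555555555555555555555555555555555555555555555555555555555555555555555555555555555555555555555555555555555555555555555555555555555555555555555555555555555555555555555555555555555555555555555555555555555555555555555555555555555555555555555555555555555555555555555555555555555555555555555555555555555555555555555555555555555555555555555555555555555555555555555555555555555555555555555555555555555555555555555555555555555555555555555555555555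

/-- the bits with odd number -/
def odd : ℕ := 0xaaaaaaaaaaaaaaaaaaaaaaaaaaaaaaaaaaaaaaaaaaaaaaaaaaaaaaaaaaaaaaaaaaaaaaaaaaaaaaaaaaaaaaaaaaaaaaaaaaaaaaaaaaaaaaaaaaaaaaaaaaaaaaaaaaaaaaaaaaaaaaaaaaaaaaaaaaaaaaaaaaaaaaaaaaaaaaaaaaaaaaaaaaaaaaaaaaaaaaaaaaaaaaaaaaaaaaaaaaaaaaaaaaaaaaaaaaaaaaaaaaaaaaaaaaaaaaaaaaaaaaaaaaaaaaaaaaaaaaaaaaaaaaaaaaaaaaaaaaaaaaaaaaaaaaaaaaaaaaaaaaaaaaaaaaaaaaaaaaaaaaaaaaaaaaaaaaaaaaaaaaaaaaaaaaaaaaaaaaaaaaaaaaaaaaaaaaaaaaaaaaaaaaaaaaaaaaaaaaaaaaaaaaaaaaaaaaaaaaaaaaaaaaaaaaaaaaaaaaaaaaaaaaaaaaaaaaaaaaaaaaaaaaaaaaaaaaaaaaaaaaaaaaaaaaaaaaaaaaaaaaaaaaaa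

/-- unit propagation: `A` is the set of the literals known to be false -/
def chk (A : ℕ) : List ℕ → Bool
  | [] => false
  | H :: t =>
    match Nat.beq (Nat.xor H (Nat.land H A)) 0 with
    | true => true
    | false =>
      match Nat.beq (Nat.land (Nat.xor H (Nat.land H A))
        (Nat.sub (Nat.xor H (Nat.land H A)) 1)) 0 with
      | false => false
      | true =>
        match Nat.beq (Nat.land (Nat.xor H (Nat.land H A)) evn) 0 with
        | false => chk (Nat.lor A (Nat.shiftLeft (Nat.xor H (Nat.land H A)) 1)) t
        | true =>
          match Nat.beq (Nat.land (Nat.xor H (Nat.land H A)) odd) 0 with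
          | false => chk (Nat.lor A (Nat.shiftRight (Nat.xor H (Nat.land H A)) 1)) t
          | true => false

theorem Chk_evn (k : ℕ) (h : evn.testBit k = true) : k % 2 = 0 := by
  by_cases hk : k < 2112
  · have H : ∀ k < 2112, evn.testBit k = true → k % 2 = 0 := by decide +kernel
    exact H k hk h
  · have h2 : evn < 2 ^ k := lt_of_lt_of_le (by decide +kernel : evn < 2 ^ 2112)
      (Nat.pow_le_pow_right (by norm_num) (by omega))
    rw [Nat.testBit_lt_two_pow h2] at h
    exact absurd h (by simp)

theorem Chk_odd (k : ℕ) (h : odd.testBit k = true) : k % 2 = 1 := by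
  by_cases hk : k < 2112
  · have H : ∀ k < 2112, odd.testBit k = true → k % 2 = 1 := by decide +kernel
    exact H k hk h
  · have h2 : odd < 2 ^ k := lt_of_lt_of_le (by decide +kernel : odd < 2 ^ 2112)
      (Nat.pow_le_pow_right (by norm_num) (by omega))
    rw [Nat.testBit_lt_two_pow h2] at h
    exact absurd h (by simp)

private theorem Chk_land {k E : ℕ} (h : Nat.land (2 ^ k) E ≠ 0) : E.testBit k = true := by
  by_contra hc
  apply h
  apply Nat.eq_of_testBit_eq
  intro i
  show (2 ^ k &&& E).testBit i = Nat.testBit 0 i
  rw [Nat.testBit_and, Nat.testBit_two_pow, Nat.zero_testBit]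
  by_cases hi : k = i
  · subst hi
    simp only [Bool.not_eq_true] at hc
    simp [hc]
  · simp [hi]

private theorem Chk_res (H A l : ℕ) :
    (Nat.xor H (Nat.land H A)).testBit l = (H.testBit l && !A.testBit l) := by
  show (H ^^^ (H &&& A)).testBit l = _
  rw [Nat.testBit_xor, Nat.testBit_and]
  cases H.testBit l <;> cases A.testBit l <;> rfl

theorem Chk_sound (w : ℕ → Bool) (L : List ℕ) : ∀ A : ℕ, (∀ l, A.testBit l = true → lv w l = false) →
    (∀ H ∈ L, V w H) → chk A L = true → False := by
  induction L with
  | nil =>
    intro A _ _ h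
    exact absurd h (by simp [chk])
  | cons H t ih =>
    intro A hA hL h
    obtain ⟨l, hl1, hl2⟩ := hL H (List.mem_cons_self ..)
    have ht : ∀ H ∈ t, V w H := fun H' h' => hL H' (List.mem_cons_of_mem _ h')
    have hlA : A.testBit l = false := by
      by_contra hc
      rw [Bool.not_eq_false] at hc
      rw [hA l hc] at hl2
      exact absurd hl2 (by simp)
    have hR := Chk_res H A l
    rw [hl1, hlA] at hR
    rw [chk] at h
    generalize Nat.xor H (Nat.land H A) = R at h hR
    have hR0 : R ≠ 0 := by
      rintro rfl
      rw [Nat.zero_testBit] at hR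
      exact absurd hR (by simp)
    have h0 : Nat.beq R 0 = false := by
      by_contra hc
      rw [Bool.not_eq_false] at hc
      exact hR0 (Nat.eq_of_beq_eq_true hc)
    rw [h0] at h
    simp only at h
    cases h1 : Nat.beq (Nat.land R (Nat.sub R 1)) 0 with
    | false => rw [h1] at h; exact absurd h (by simp)
    | true =>
      rw [h1] at h
      simp only at h
      have hp : (R &&& (R - 1)) = 0 := Nat.eq_of_beq_eq_true h1
      obtain ⟨k, hk⟩ := (Nat.and_sub_one_eq_zero_iff_isPowerOfTwo hR0).mp hp
      subst hk
      have hkl : k = l := by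
        rw [Nat.testBit_two_pow] at hR
        simpa using hR
      subst hkl
      cases h2 : Nat.beq (Nat.land (2 ^ k) evn) 0 with
      | false =>
        rw [h2] at h
        simp only at h
        have hne : Nat.land (2 ^ k) evn ≠ 0 := by
          intro hc
          rw [hc] at h2
          exact absurd h2 (by decide)
        have hk2 := Chk_evn k (Chk_land hne)
        refine ih _ ?_ ht h
        intro i hi
        have hi' : (A ||| (2 ^ k <<< 1)).testBit i = true := hi
        rw [Nat.testBit_or, Bool.or_eq_true] at hi'
        rcases hi' with hi' | hi'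
        · exact hA i hi'
        · rw [Nat.shiftLeft_eq, ← pow_succ, Nat.testBit_two_pow] at hi'
          have e : k + 1 = i := by simpa using hi'
          subst e
          rw [lv, if_pos hk2] at hl2
          rw [lv, if_neg (by omega), show (k + 1) / 2 = k / 2 by omega, hl2]
          rfl
      | true =>
        rw [h2] at h
        simp only at h
        cases h3 : Nat.beq (Nat.land (2 ^ k) odd) 0 with
        | true => rw [h3] at h; exact absurd h (by simp)
        | false =>
          rw [h3] at h
          simp only at h
          have hne : Nat.land (2 ^ k) odd ≠ 0 := by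
            intro hc
            rw [hc] at h3
            exact absurd h3 (by decide)
          have hk2 := Chk_odd k (Chk_land hne)
          refine ih _ ?_ ht h
          intro i hi
          have hi' : (A ||| (2 ^ k >>> 1)).testBit i = true := hi
          rw [Nat.testBit_or, Bool.or_eq_true] at hi'
          rcases hi' with hi' | hi'
          · exact hA i hi'
          · rw [Nat.testBit_shiftRight, Nat.testBit_two_pow] at hi'
            have e : k = 1 + i := by simpa using hi'
            subst e
            rw [lv, if_neg (by omega)] at hl2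
            rw [lv, if_pos (by omega), show i / 2 = (1 + i) / 2 by omega]
            simpa using hl2

/-- all clauses of a list hold -/
inductive All (w : ℕ → Bool) : List ℕ → Prop
  | nil : All w []
  | cons {a : ℕ} {l : List ℕ} : V w a → All w l → All w (a :: l)

theorem All.mem {w : ℕ → Bool} {L : List ℕ} (h : All w L) : ∀ H ∈ L, V w H := by
  induction h with
  | nil => intro H hH; exact absurd hH (by simp)
  | cons ha _ ih =>
    intro H hH
    rcases List.mem_cons.1 hH with h | h
    · rw [h]
      exact ha
    · exact ih H h

/-- a clause which follows by unit propagation holds -/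
theorem rup {w : ℕ → Bool} {C : ℕ} {L : List ℕ} (h : chk C L = true) (hL : All w L) : V w C := by
  by_contra hc
  refine Chk_sound w L C ?_ hL.mem h
  intro l hl
  by_contra hv
  rw [Bool.not_eq_false] at hv
  exact hc ⟨l, hl, hv⟩

/-- the empty clause does not hold -/
theorem Chk_empty {w : ℕ → Bool} (h : V w 0) : False := by
  obtain ⟨l, hl, -⟩ := h
  rw [Nat.zero_testBit] at hl
  exact absurd hl (by simp)

end Pool.Agent.BDD
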