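import Mathlib

/-!
# BDD (helper55): a point whose removal lowers the Boolean dimension by two (MP_f4c717_co)

Definitions. The poset `PP N` has the points `(c, l, r)`, `c < 8` a class and `l < r < N`, and one more
point `none` (called `x` below). Four linear orders on the points `(c, l, r)` are given by the keys
`key i`; a point is below another one if it comes first in exactly three of the four orders. The
classes `0, 5` are below `x`, the class `3` is above `x`, the others are incomparable to `x`.
-/

set_option autoImplicit false

namespace Pool.Agent.BDD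

/-- the points except `x`: a class and two elements of the chain `0 < 1 < .. < N - 1` -/
structure Pt (N : ℕ) where
  c : Fin 8
  l : Fin N
  r : Fin N
  h : l < r

/-- the ground set -/
def PP (N : ℕ) : Type := Option (Pt N)

/-- the segment of the class `c` in the order `i` -/
def seg : Fin 4 → Fin 8 → ℤ := ![
  ![0, 0, 0, 1, 1, 1, 1, 1],
  ![1, 1, 1, 1, 1, 0, 1, 1],
  ![0, 1, 1, 1, 1, 1, 1, 1],
  ![1, 1, 1, 1, 0, 0, 0, 1]]

/-- the end which the order `i` uses for the class `c` (`true`: the right end `r`) -/
def useR : Fin 4 → Fin 8 → Bool := ![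
  ![false, false, true, false, true, false, false, false],
  ![true, true, false, true, false, true, true, true],
  ![false, true, false, false, false, false, true, false],
  ![true, false, true, true, true, true, false, true]]

/-- the position of an end of a point: the end, then the class, then the other end -/
def pos {N : ℕ} (b : Bool) (p : Pt N) : ℤ :=
  if b then ((p.r : ℤ) * 8 + p.c) * N + p.l else ((p.l : ℤ) * 8 + p.c) * N + p.r

/-- the key of a point in the order `i`; the orders `2, 3` use the reversed chain -/
def key {N : ℕ} (i : Fin 4) (p : Pt N) : ℤ :=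
  seg i p.c * (8 * N * (N + 1)) * 4 + (if i = 0 ∨ i = 1 then pos (useR i p.c) p else - pos (useR i p.c) p)

/-- the number of the orders in which `p` comes before `q` -/
def cnt {N : ℕ} (p q : Pt N) : ℕ := (Finset.univ.filter fun i => key i p < key i q).card

/-- the level of a class -/
def lev : Fin 8 → ℕ := ![0, 1, 1, 2, 1, 0, 1, 2]

/-- the strict order of `PP N` -/
def ltP {N : ℕ} : PP N → PP N → Prop
  | some p, some q => cnt p q = 3
  | some p, none => p.c = 0 ∨ p.c = 5
  | none, some q => q.c = 3
  | none, none => False

/-! ### Canonical realizers with five orders -/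

/-- code of the relative position of the pairs `a0 < a1` and `b0 < b1` -/
def cd (a0 a1 b0 b1 : ℕ) : ℕ :=
  8 * (if a0 < b0 then 1 else 0) + 4 * (if a0 < b1 then 1 else 0) +
    2 * (if a1 < b0 then 1 else 0) + (if a1 < b1 then 1 else 0)

/-- the codes of two pairs without common elements: `aabb, abab, abba, baab, baba, bbaa` -/
def SC : List ℕ := [15, 13, 12, 5, 4, 0]

/-- the code of the opposite pair -/
def rv (s : ℕ) : ℕ :=
  if s = 15 then 0 else if s = 13 then 4 else if s = 12 then 5 else if s = 5 then 12 else
    if s = 4 then 13 else 15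

/-- the comparison of two points of classes `A`, `B` with code `s` in the order `i` -/
def bitO (i : Fin 4) (A B : Fin 8) (s : ℕ) : Bool :=
  if seg i A < seg i B then true else if seg i B < seg i A then false else
    xor (decide (i = 2 ∨ i = 3))
      (s.testBit (3 - 2 * (if useR i A then 1 else 0) - (if useR i B then 1 else 0)))

/-- the relation of two points of classes `A`, `B` with code `s` -/
def vt (A B : Fin 8) (s : ℕ) : Bool :=
  decide ((Finset.univ.filter fun i => bitO i A B s = true).card = 3)

/-- A canonical realizer with five orders: `m j A B s` says that in the order `j` a point of class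
`A` comes before a point of class `B` if their pairs have the code `s`, `xb j A` says that the points
of class `A` come before `x`, and `psi` is the Boolean function. -/
structure Can where
  m : Fin 5 → Fin 8 → Fin 8 → ℕ → Bool
  xb : Fin 5 → Fin 8 → Bool
  psi : (Fin 5 → Bool) → Bool
  anti : ∀ j A B, ∀ s ∈ SC, m j A B s = !m j B A (rv s)
  tr : ∀ j A B C, ∀ a0 a1 b0 b1 c0 c1 : ℕ, a0 < a1 → b0 < b1 → c0 < c1 → a1 < 6 → b1 < 6 →
    c1 < 6 → [a0, a1, b0, b1, c0, c1].Nodup → m j A B (cd a0 a1 b0 b1) = true →
    m j B C (cd b0 b1 c0 c1) = true → m j A C (cd a0 a1 c0 c1) = true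
  xtr : ∀ j A B, ∀ s ∈ SC, m j A B s = true → xb j B = true → xb j A = true
  ps : ∀ A B, ∀ s ∈ SC, psi (fun j => m j A B s) = vt A B s
  psD : ∀ A, psi (fun j => xb j A) = decide (A = 0 ∨ A = 5)
  psU : ∀ A, psi (fun j => !xb j A) = decide (A = 3)

/-- the normalisation of the columns `0, .., 4` -/
structure Pin (c : Can) : Prop where
  u : ∀ j, c.m j 3 3 15 = true
  p0 : c.m 0 1 3 15 ≠ c.m 0 1 3 13
  p1 : c.m 1 1 3 13 ≠ c.m 1 1 3 12
  p2 : c.m 2 1 3 4 ≠ c.m 2 1 3 0

end Pool.Agent.BDD
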