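import Pool.Agent.BDD.St
import Pool.Agent.BDD.Chk

/-!
# BDD, module Gen: the clauses which hold for a canonical realizer
-/

set_option autoImplicit false

namespace Pool.Agent.BDD

/-- number of a pair of classes `A < B` -/
def off (A B : ℕ) : ℕ := A * (15 - A) / 2 + (B - A - 1)

/-- number of a code -/
def ix (s : ℕ) : ℕ :=
  bif Nat.beq s 15 then 0 else bif Nat.beq s 13 then 1 else bif Nat.beq s 12 then 2 else
    bif Nat.beq s 5 then 3 else bif Nat.beq s 4 then 4 else 5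

/-- the opposite code -/
def rw' (s : ℕ) : ℕ :=
  bif Nat.beq s 15 then 0 else bif Nat.beq s 13 then 4 else bif Nat.beq s 12 then 5 else
    bif Nat.beq s 5 then 12 else bif Nat.beq s 4 then 13 else 15

/-- the literal which says that a point of class `A` comes before a point of class `B` (code `s`) -/
def lit (j A B s : ℕ) : ℕ :=
  bif Nat.blt A B then 2 * (j * 200 + (off A B * 6 + ix s)) else
    bif Nat.blt B A then 2 * (j * 200 + (off B A * 6 + ix (rw' s))) + 1 else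
      bif Nat.blt 11 s then 2 * (j * 200 + (168 + 3 * A + ix s)) else
        2 * (j * 200 + (168 + 3 * A + ix (rw' s))) + 1

/-- the literal which says that the points of class `A` come before `x` -/
def xl (j A : ℕ) : ℕ := 2 * (j * 200 + (192 + A))

/-- the pairs `A < B` -/
def PL : List (Fin 8 × Fin 8) :=
  (List.finRange 8).flatMap fun A => ((List.finRange 8).filter fun B => A < B).map fun B => (A, B)

/-- the valuation of the variables -/
def wv (c : Can) (k : ℕ) : Bool :=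
  if k < 1000 then
    (if k % 200 < 168 then c.m (Fin.ofNat 5 (k / 200)) (PL.getD (k % 200 / 6) (0, 0)).1
        (PL.getD (k % 200 / 6) (0, 0)).2 (SC.getD (k % 200 % 6) 0)
      else if k % 200 < 192 then c.m (Fin.ofNat 5 (k / 200)) (Fin.ofNat 8 ((k % 200 - 168) / 3))
        (Fin.ofNat 8 ((k % 200 - 168) / 3)) (SC.getD ((k % 200 - 168) % 3) 0)
      else c.xb (Fin.ofNat 5 (k / 200)) (Fin.ofNat 8 (k % 200 - 192)))
  else c.psi fun j => (k - 1000).testBit j

private theorem Gen_a : ∀ A B : Fin 8, A < B → ∀ s ∈ SC, off A B * 6 + ix s < 168 ∧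
    PL.getD ((off A B * 6 + ix s) / 6) (0, 0) = (A, B) ∧ SC.getD ((off A B * 6 + ix s) % 6) 0 = s := by
  decide +kernel

private theorem Gen_b : ∀ A : Fin 8, ∀ s ∈ SC, 11 < s → 168 + 3 * (A : ℕ) + ix s < 192 ∧
    168 ≤ 168 + 3 * (A : ℕ) + ix s ∧
    Fin.ofNat 8 ((168 + 3 * (A : ℕ) + ix s - 168) / 3) = A ∧
    SC.getD ((168 + 3 * (A : ℕ) + ix s - 168) % 3) 0 = s := by
  decide +kernel

private theorem Gen_rv : ∀ s ∈ SC, rw' s = rv s ∧ rv s ∈ SC ∧ (¬ 11 < s → 11 < rv s) := by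
  decide +kernel

private theorem Gen_j (j : Fin 5) (i : ℕ) (hi : i < 200) : (j : ℕ) * 200 + i < 1000 ∧
    Fin.ofNat 5 (((j : ℕ) * 200 + i) / 200) = j ∧ ((j : ℕ) * 200 + i) % 200 = i := by
  have h1 : ((j : ℕ) * 200 + i) / 200 = j := by omega
  refine ⟨by omega, ?_, by omega⟩
  rw [h1]
  apply Fin.ext
  show (j : ℕ) % 5 = j
  omega

theorem lv_even (w : ℕ → Bool) (k : ℕ) : lv w (2 * k) = w k := by
  rw [lv, if_pos (by omega), show 2 * k / 2 = k by omega]

theorem lv_odd (w : ℕ → Bool) (k : ℕ) : lv w (2 * k + 1) = !w k := by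
  rw [lv, if_neg (by omega), show (2 * k + 1) / 2 = k by omega]

private theorem Gen_xe (k : ℕ) : Nat.xor (2 * k) 1 = 2 * k + 1 := by
  apply Nat.eq_of_testBit_eq
  intro i
  show (2 * k ^^^ 1).testBit i = _
  rw [Nat.testBit_xor]
  cases i with
  | zero => simp
  | succ i => simp [Nat.testBit_succ, show (2 * k + 1) / 2 = k by omega]

theorem lv_xor (w : ℕ → Bool) (l : ℕ) : lv w (Nat.xor l 1) = !lv w l := by
  obtain ⟨k, hk | hk⟩ := Nat.even_or_odd' l
  · rw [hk, Gen_xe, lv_odd, lv_even]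
  · have h : Nat.xor (2 * k + 1) 1 = 2 * k := by
      rw [← Gen_xe]
      show (2 * k ^^^ 1) ^^^ 1 = 2 * k
      rw [Nat.xor_assoc, Nat.xor_self, Nat.xor_zero]
    rw [hk, h, lv_odd, lv_even, Bool.not_not]

theorem wv_lt (c : Can) (j : Fin 5) (A B : Fin 8) (h : A < B) (s : ℕ) (hs : s ∈ SC) :
    wv c (j * 200 + (off A B * 6 + ix s)) = c.m j A B s := by
  obtain ⟨h1, h2, h3⟩ := Gen_a A B h s hs
  obtain ⟨g1, g2, g3⟩ := Gen_j j (off A B * 6 + ix s) (by omega)
  rw [wv, if_pos g1, g3, if_pos h1, g2, h2, h3]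

theorem wv_eq (c : Can) (j : Fin 5) (A : Fin 8) (s : ℕ) (hs : s ∈ SC) (h : 11 < s) :
    wv c (j * 200 + (168 + 3 * A + ix s)) = c.m j A A s := by
  obtain ⟨h1, h1', h2, h3⟩ := Gen_b A s hs h
  obtain ⟨g1, g2, g3⟩ := Gen_j j (168 + 3 * A + ix s) (by omega)
  rw [wv, if_pos g1, g3, if_neg (by omega), if_pos h1, g2, h2, h3]

theorem wv_x (c : Can) (j : Fin 5) (A : Fin 8) : wv c (j * 200 + (192 + A)) = c.xb j A := by
  obtain ⟨g1, g2, g3⟩ := Gen_j j (192 + A) (by omega)
  have e : Fin.ofNat 8 (192 + (A : ℕ) - 192) = A := by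
    apply Fin.ext
    show (192 + (A : ℕ) - 192) % 8 = A
    omega
  rw [wv, if_pos g1, g3, if_neg (by omega), if_neg (by omega), g2, e]

theorem lv_lit (c : Can) (j : Fin 5) (A B : Fin 8) (s : ℕ) (hs : s ∈ SC) :
    lv (wv c) (lit j A B s) = c.m j A B s := by
  obtain ⟨r1, r2, r3⟩ := Gen_rv s hs
  rw [lit]
  rcases lt_trichotomy A B with h | h | h
  · have e : Nat.blt (A : ℕ) B = true := by
      rw [Nat.blt_eq]
      exact h
    rw [e, cond_true, lv_even, wv_lt c j A B h s hs]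
  · subst h
    have e : Nat.blt (A : ℕ) A = false := by
      rw [Bool.eq_false_iff, ne_eq, Nat.blt_eq]
      exact lt_irrefl _
    rw [e, cond_false, cond_false]
    by_cases h11 : 11 < s
    · rw [show Nat.blt 11 s = true from Nat.blt_eq.mpr h11, cond_true, lv_even,
        wv_eq c j A s hs h11]
    · have e2 : Nat.blt 11 s = false := by
        rw [Bool.eq_false_iff, ne_eq, Nat.blt_eq]
        exact h11
      rw [e2, cond_false, lv_odd, r1, wv_eq c j A _ r2 (r3 h11), c.anti j A A s hs]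
  · have e : Nat.blt (A : ℕ) B = false := by
      rw [Bool.eq_false_iff, ne_eq, Nat.blt_eq]
      exact not_lt.mpr (le_of_lt h)
    have e2 : Nat.blt (B : ℕ) A = true := by
      rw [Nat.blt_eq]
      exact h
    rw [e, cond_false, e2, cond_true, lv_odd, r1, wv_lt c j B A h _ r2, c.anti j A B s hs]

theorem lv_xl (c : Can) (j : Fin 5) (A : Fin 8) : lv (wv c) (xl j A) = c.xb j A := by
  rw [xl, lv_even, wv_x]

/-! ### masks -/

theorem V_one {w : ℕ → Bool} {l : ℕ} (h : lv w l = true) : V w (Nat.shiftLeft 1 l) := by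
  refine ⟨l, ?_, h⟩
  show (1 <<< l).testBit l = true
  rw [Nat.shiftLeft_eq, one_mul, Nat.testBit_two_pow]
  simp

theorem V_l {w : ℕ → Bool} {A B : ℕ} (h : V w A) : V w (Nat.lor A B) := by
  obtain ⟨l, h1, h2⟩ := h
  refine ⟨l, ?_, h2⟩
  show (A ||| B).testBit l = true
  rw [Nat.testBit_or, h1, Bool.true_or]

theorem V_r {w : ℕ → Bool} {A B : ℕ} (h : V w B) : V w (Nat.lor A B) := by
  obtain ⟨l, h1, h2⟩ := h
  refine ⟨l, ?_, h2⟩
  show (A ||| B).testBit l = true
  rw [Nat.testBit_or, h1, Bool.or_true]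

/-- a clause with three literals -/
def m3 (a b d : ℕ) : ℕ :=
  Nat.lor (Nat.shiftLeft 1 (Nat.xor a 1)) (Nat.lor (Nat.shiftLeft 1 (Nat.xor b 1)) (Nat.shiftLeft 1 d))

theorem V_m3 {w : ℕ → Bool} {a b d : ℕ} (h : lv w a = true → lv w b = true → lv w d = true) :
    V w (m3 a b d) := by
  cases ha : lv w a with
  | false => exact V_l (V_one (by rw [lv_xor, ha]; rfl))
  | true =>
    cases hb : lv w b with
    | false => exact V_r (V_l (V_one (by rw [lv_xor, hb]; rfl)))
    | true => exact V_r (V_r (V_one (h ha hb)))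

private theorem Gen_cd : ∀ a0 a1 b0 b1 : Fin 6, a0 < a1 → b0 < b1 → [a0, a1, b0, b1].Nodup →
    cd a0 a1 b0 b1 ∈ SC := by
  decide +kernel

theorem cd_mem {a0 a1 b0 b1 : ℕ} (h1 : a0 < a1) (h2 : b0 < b1) (ha : a1 < 6) (hb : b1 < 6)
    (hn : [a0, a1, b0, b1].Nodup) : cd a0 a1 b0 b1 ∈ SC := by
  refine Gen_cd ⟨a0, by omega⟩ ⟨a1, ha⟩ ⟨b0, by omega⟩ ⟨b1, hb⟩ h1 h2 ?_
  simp only [List.nodup_cons, List.mem_cons, Fin.mk.injEq, List.not_mem_nil, or_false,
    List.nodup_nil, not_false_eq_true, and_true] at hn ⊢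
  exact hn

/-- the check of a transitivity clause -/
def ok3 (j A B C a0 a1 b0 b1 c0 c1 M : ℕ) : Bool :=
  Nat.blt a0 a1 && Nat.blt b0 b1 && Nat.blt c0 c1 && Nat.blt a1 6 && Nat.blt b1 6 && Nat.blt c1 6 &&
    decide ([a0, a1, b0, b1, c0, c1].Nodup) &&
    Nat.beq M (m3 (lit j A B (cd a0 a1 b0 b1)) (lit j B C (cd b0 b1 c0 c1))
      (lit j A C (cd a0 a1 c0 c1)))

theorem T3 (c : Can) (j : Fin 5) (A B C : Fin 8) (a0 a1 b0 b1 c0 c1 : ℕ) {M : ℕ}
    (h : ok3 j A B C a0 a1 b0 b1 c0 c1 M = true) : V (wv c) M := by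
  simp only [ok3, Bool.and_eq_true, Nat.blt_eq, decide_eq_true_eq] at h
  obtain ⟨⟨⟨⟨⟨⟨⟨h1, h2⟩, h3⟩, h4⟩, h5⟩, h6⟩, hn⟩, hM⟩ := h
  rw [Nat.eq_of_beq_eq_true hM]
  have n1 : [a0, a1, b0, b1].Nodup := by
    simp only [List.nodup_cons, List.mem_cons, List.not_mem_nil, or_false, List.nodup_nil,
      not_false_eq_true, and_true, not_or] at hn ⊢
    tauto
  have n2 : [b0, b1, c0, c1].Nodup := by
    simp only [List.nodup_cons, List.mem_cons, List.not_mem_nil, or_false, List.nodup_nil,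
      not_false_eq_true, and_true, not_or] at hn ⊢
    tauto
  have n3 : [a0, a1, c0, c1].Nodup := by
    simp only [List.nodup_cons, List.mem_cons, List.not_mem_nil, or_false, List.nodup_nil,
      not_false_eq_true, and_true, not_or] at hn ⊢
    tauto
  apply V_m3
  rw [lv_lit c j A B _ (cd_mem h1 h2 h4 h5 n1), lv_lit c j B C _ (cd_mem h2 h3 h5 h6 n2),
    lv_lit c j A C _ (cd_mem h1 h3 h4 h6 n3)]
  exact c.tr j A B C a0 a1 b0 b1 c0 c1 h1 h2 h3 h4 h5 h6 hn

/-- the check of a transitivity clause with `x` -/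
def okX (j A B s M : ℕ) : Bool :=
  SC.contains s && Nat.beq M (m3 (lit j A B s) (xl j B) (xl j A))

theorem X3 (c : Can) (j : Fin 5) (A B : Fin 8) (s : ℕ) {M : ℕ} (h : okX j A B s M = true) :
    V (wv c) M := by
  simp only [okX, Bool.and_eq_true, List.contains_iff_mem] at h
  obtain ⟨hs, hM⟩ := h
  rw [Nat.eq_of_beq_eq_true hM]
  apply V_m3
  rw [lv_lit c j A B s hs, lv_xl, lv_xl]
  exact c.xtr j A B s hs

/-- the clause `(some f j is different from the bit j of p)` or `(psi p = v)` -/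
def mP (f : ℕ → ℕ) (p : ℕ) (v : Bool) : ℕ :=
  Nat.lor (Nat.shiftLeft 1 (Nat.xor (f 0) (Nat.land (Nat.shiftRight p 0) 1)))
  (Nat.lor (Nat.shiftLeft 1 (Nat.xor (f 1) (Nat.land (Nat.shiftRight p 1) 1)))
  (Nat.lor (Nat.shiftLeft 1 (Nat.xor (f 2) (Nat.land (Nat.shiftRight p 2) 1)))
  (Nat.lor (Nat.shiftLeft 1 (Nat.xor (f 3) (Nat.land (Nat.shiftRight p 3) 1)))
  (Nat.lor (Nat.shiftLeft 1 (Nat.xor (f 4) (Nat.land (Nat.shiftRight p 4) 1)))
  (Nat.shiftLeft 1 (bif v then 2 * (1000 + p) else 2 * (1000 + p) + 1))))))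

private theorem Gen_sh (p i : ℕ) : Nat.land (Nat.shiftRight p i) 1 = (p.testBit i).toNat := by
  show p >>> i &&& 1 = _
  rw [Nat.and_one_is_mod, Nat.shiftRight_eq_div_pow, Nat.testBit_eq_decide_div_mod_eq]
  rcases Nat.mod_two_eq_zero_or_one (p / 2 ^ i) with h | h <;> simp [h]

private theorem Gen_bit (w : ℕ → Bool) (l p i : ℕ) (b : Bool) (hb : lv w l = b)
    (h : b ≠ p.testBit i) : lv w (Nat.xor l (Nat.land (Nat.shiftRight p i) 1)) = true := by
  rw [Gen_sh]
  cases hp : p.testBit i with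
  | false =>
    rw [hp] at h
    have : Nat.xor l (Bool.toNat false) = l := Nat.xor_zero l
    rw [this, hb]
    simpa using h
  | true =>
    rw [hp] at h
    have : Nat.xor l (Bool.toNat true) = Nat.xor l 1 := rfl
    rw [this, lv_xor, hb]
    simpa using h

theorem V_mP (c : Can) (f : ℕ → ℕ) (g : Fin 5 → Bool) (p : ℕ) (hp : p < 32) (v : Bool)
    (hf : ∀ j : Fin 5, lv (wv c) (f j) = g j) (hv : c.psi g = v) : V (wv c) (mP f p v) := by
  by_cases h0 : g 0 = p.testBit 0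
  swap
  · exact V_l (V_one (Gen_bit (wv c) (f 0) p 0 _ (hf 0) h0))
  by_cases h1 : g 1 = p.testBit 1
  swap
  · exact V_r (V_l (V_one (Gen_bit (wv c) (f 1) p 1 _ (hf 1) h1)))
  by_cases h2 : g 2 = p.testBit 2
  swap
  · exact V_r (V_r (V_l (V_one (Gen_bit (wv c) (f 2) p 2 _ (hf 2) h2))))
  by_cases h3 : g 3 = p.testBit 3
  swap
  · exact V_r (V_r (V_r (V_l (V_one (Gen_bit (wv c) (f 3) p 3 _ (hf 3) h3)))))
  by_cases h4 : g 4 = p.testBit 4
  swap
  · exact V_r (V_r (V_r (V_r (V_l (V_one (Gen_bit (wv c) (f 4) p 4 _ (hf 4) h4))))))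
  have hg : g = fun j : Fin 5 => p.testBit j := by
    funext j
    fin_cases j
    · exact h0
    · exact h1
    · exact h2
    · exact h3
    · exact h4
  have hw : wv c (1000 + p) = v := by
    rw [wv, if_neg (by omega), show 1000 + p - 1000 = p by omega, ← hg, hv]
  refine V_r (V_r (V_r (V_r (V_r (V_one ?_)))))
  cases hv' : v with
  | true => rw [cond_true, lv_even, hw, hv']
  | false => rw [cond_false, lv_odd, hw, hv']; rfl

/-- the table of `vt` -/
def VT : ℕ := 0x90200000000000009020000000000000b031300100001021b03100310001000080300000000000008030000000000000000000000000000000000000000000001021000000000000102100000000000020210000000000002021000000000000b031a02000008000b031901090200000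

private theorem Gen_VT : ∀ A B : Fin 8, ∀ s ∈ SC, vt A B s = Nat.testBit VT ((A * 8 + B) * 16 + s) := by
  decide +kernel

/-- the check of a clause with `psi` -/
def okP (A B s p M : ℕ) : Bool :=
  SC.contains s && Nat.blt p 32 &&
    Nat.beq M (mP (fun j => lit j A B s) p
      (Nat.beq (Nat.land (Nat.shiftRight VT ((A * 8 + B) * 16 + s)) 1) 1))

theorem P3 (c : Can) (A B : Fin 8) (s p : ℕ) {M : ℕ} (h : okP A B s p M = true) : V (wv c) M := by
  simp only [okP, Bool.and_eq_true, List.contains_iff_mem, Nat.blt_eq] at h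
  obtain ⟨⟨hs, hp⟩, hM⟩ := h
  rw [Nat.eq_of_beq_eq_true hM]
  have e : Nat.beq (Nat.land (Nat.shiftRight VT (((A : ℕ) * 8 + B) * 16 + s)) 1) 1 =
      Nat.testBit VT ((A * 8 + B) * 16 + s) := by
    rw [Gen_sh]
    cases Nat.testBit VT (((A : ℕ) * 8 + B) * 16 + s) <;> rfl
  refine V_mP c _ (fun j => c.m j A B s) p hp _ (fun j => lv_lit c j A B s hs) ?_
  rw [c.ps A B s hs, e, Gen_VT A B s hs]

/-- the check of a clause with `psi` and `x` above -/
def okD (A p M : ℕ) : Bool :=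
  Nat.blt p 32 && Nat.beq M (mP (fun j => xl j A) p (Nat.beq A 0 || Nat.beq A 5))

theorem D3 (c : Can) (A : Fin 8) (p : ℕ) {M : ℕ} (h : okD A p M = true) : V (wv c) M := by
  simp only [okD, Bool.and_eq_true, Nat.blt_eq] at h
  obtain ⟨hp, hM⟩ := h
  rw [Nat.eq_of_beq_eq_true hM]
  refine V_mP c _ (fun j => c.xb j A) p hp _ (fun j => lv_xl c j A) ?_
  rw [c.psD A]
  fin_cases A <;> rfl

/-- the check of a clause with `psi` and `x` below -/
def okU (A p M : ℕ) : Bool :=
  Nat.blt p 32 && Nat.beq M (mP (fun j => Nat.xor (xl j A) 1) p (Nat.beq A 3))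

theorem U3 (c : Can) (A : Fin 8) (p : ℕ) {M : ℕ} (h : okU A p M = true) : V (wv c) M := by
  simp only [okU, Bool.and_eq_true, Nat.blt_eq] at h
  obtain ⟨hp, hM⟩ := h
  rw [Nat.eq_of_beq_eq_true hM]
  refine V_mP c _ (fun j => !c.xb j A) p hp _ (fun j => by rw [lv_xor, lv_xl]) ?_
  rw [c.psU A]
  fin_cases A <;> rfl

/-- a unit clause -/
theorem L1 (c : Can) (j : Fin 5) (A B : Fin 8) (s : ℕ) {M : ℕ} (hc : c.m j A B s = true)
    (h : (SC.contains s && Nat.beq M (Nat.shiftLeft 1 (lit j A B s))) = true) : V (wv c) M := by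
  simp only [Bool.and_eq_true, List.contains_iff_mem] at h
  obtain ⟨hs, hM⟩ := h
  rw [Nat.eq_of_beq_eq_true hM]
  exact V_one (by rw [lv_lit c j A B s hs, hc])

/-- a negative unit clause -/
theorem L0 (c : Can) (j : Fin 5) (A B : Fin 8) (s : ℕ) {M : ℕ} (hc : c.m j A B s = false)
    (h : (SC.contains s && Nat.beq M (Nat.shiftLeft 1 (Nat.xor (lit j A B s) 1))) = true) :
    V (wv c) M := by
  simp only [Bool.and_eq_true, List.contains_iff_mem] at h
  obtain ⟨hs, hM⟩ := h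
  rw [Nat.eq_of_beq_eq_true hM]
  exact V_one (by rw [lv_xor, lv_lit c j A B s hs, hc]; rfl)

/-- two different bits: one of them is true -/
theorem L2 (c : Can) (j : Fin 5) (A B : Fin 8) (s t : ℕ) {M : ℕ} (hc : c.m j A B s ≠ c.m j A B t)
    (h : (SC.contains s && SC.contains t && Nat.beq M (Nat.lor (Nat.shiftLeft 1 (lit j A B s))
      (Nat.shiftLeft 1 (lit j A B t)))) = true) : V (wv c) M := by
  simp only [Bool.and_eq_true, List.contains_iff_mem] at h
  obtain ⟨⟨hs, ht⟩, hM⟩ := h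
  rw [Nat.eq_of_beq_eq_true hM]
  cases e : c.m j A B s with
  | true => exact V_l (V_one (by rw [lv_lit c j A B s hs, e]))
  | false =>
    rw [e] at hc
    exact V_r (V_one (by rw [lv_lit c j A B t ht]; simpa using hc.symm))

/-- two different bits: one of them is false -/
theorem L3 (c : Can) (j : Fin 5) (A B : Fin 8) (s t : ℕ) {M : ℕ} (hc : c.m j A B s ≠ c.m j A B t)
    (h : (SC.contains s && SC.contains t && Nat.beq M (Nat.lor
      (Nat.shiftLeft 1 (Nat.xor (lit j A B s) 1)) (Nat.shiftLeft 1 (Nat.xor (lit j A B t) 1)))) =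
        true) : V (wv c) M := by
  simp only [Bool.and_eq_true, List.contains_iff_mem] at h
  obtain ⟨⟨hs, ht⟩, hM⟩ := h
  rw [Nat.eq_of_beq_eq_true hM]
  cases e : c.m j A B s with
  | false => exact V_l (V_one (by rw [lv_xor, lv_lit c j A B s hs, e]; rfl))
  | true =>
    rw [e] at hc
    exact V_r (V_one (by rw [lv_xor, lv_lit c j A B t ht]; simpa using hc.symm))

end Pool.Agent.BDD
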