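import Pool.Agent.BDD.St

/-!
# BDD, module Key (helper81): positions and keys are injective
-/

set_option autoImplicit false

namespace Pool.Agent.BDD

private theorem Key_div {N a a' x x' : ℤ} (hx : 0 ≤ x) (hx' : x < N) (hy : 0 ≤ x') (hy' : x' < N)
    (h : a * N + x = a' * N + x') : a = a' ∧ x = x' := by
  have h1 : a = a' := by
    rcases lt_trichotomy a a' with h2 | h2 | h2
    · have h3 : (a + 1) * N ≤ a' * N := mul_le_mul_of_nonneg_right h2 (by linarith)
      have h4 : (a + 1) * N = a * N + N := by ring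
      linarith
    · exact h2
    · have h3 : (a' + 1) * N ≤ a * N := mul_le_mul_of_nonneg_right h2 (by linarith)
      have h4 : (a' + 1) * N = a' * N + N := by ring
      linarith
  refine ⟨h1, ?_⟩
  rw [h1] at h
  linarith

/-- the used end -/
private def Key_e {N : ℕ} (b : Bool) (p : Pt N) : ℤ := if b then (p.r : ℤ) else (p.l : ℤ)

/-- the other end -/
private def Key_o {N : ℕ} (b : Bool) (p : Pt N) : ℤ := if b then (p.l : ℤ) else (p.r : ℤ)

private theorem Key_pos {N : ℕ} (b : Bool) (p : Pt N) :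
    pos b p = (Key_e b p * 8 + p.c) * N + Key_o b p := by
  cases b <;> rfl

private theorem Key_fin {N : ℕ} (a : Fin N) : 0 ≤ (a : ℤ) ∧ (a : ℤ) + 1 ≤ N := by
  have := a.isLt
  omega

private theorem Key_e_bd {N : ℕ} (b : Bool) (p : Pt N) : 0 ≤ Key_e b p ∧ Key_e b p + 1 ≤ N := by
  cases b
  · exact Key_fin p.l
  · exact Key_fin p.r

private theorem Key_o_bd {N : ℕ} (b : Bool) (p : Pt N) : 0 ≤ Key_o b p ∧ Key_o b p + 1 ≤ N := by
  cases b
  · exact Key_fin p.r
  · exact Key_fin p.l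

private theorem Key_c {N : ℕ} (p : Pt N) : 0 ≤ ((p.c : ℕ) : ℤ) ∧ ((p.c : ℕ) : ℤ) ≤ 7 := by
  have := p.c.isLt
  omega

private theorem Key_lt {N : ℕ} (b b' : Bool) (p q : Pt N) (h : Key_e b p + 1 ≤ Key_e b' q) :
    pos b p < pos b' q := by
  rw [Key_pos, Key_pos]
  obtain ⟨h1, h2⟩ := Key_o_bd b p
  obtain ⟨h3, h4⟩ := Key_o_bd b' q
  obtain ⟨h5, h6⟩ := Key_c p
  obtain ⟨h7, h8⟩ := Key_c q
  have h9 : (Key_e b p * 8 + ((p.c : ℕ) : ℤ) + 1) * (N : ℤ)
      ≤ (Key_e b' q * 8 + ((q.c : ℕ) : ℤ)) * (N : ℤ) :=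
    mul_le_mul_of_nonneg_right (by linarith) (by positivity)
  have h10 : (Key_e b p * 8 + ((p.c : ℕ) : ℤ) + 1) * (N : ℤ)
      = (Key_e b p * 8 + ((p.c : ℕ) : ℤ)) * (N : ℤ) + N := by ring
  linarith

private theorem Key_bd {N : ℕ} (b : Bool) (p : Pt N) : 0 ≤ pos b p ∧ pos b p < 8 * N * (N + 1) := by
  rw [Key_pos]
  obtain ⟨h1, h2⟩ := Key_o_bd b p
  obtain ⟨h3, h4⟩ := Key_e_bd b p
  obtain ⟨h5, h6⟩ := Key_c p
  have hN : (0 : ℤ) ≤ N := by positivity
  constructor
  · have h7 : 0 ≤ (Key_e b p * 8 + ((p.c : ℕ) : ℤ)) * (N : ℤ) := mul_nonneg (by linarith) hN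
    linarith
  · have h8 : (Key_e b p * 8 + ((p.c : ℕ) : ℤ)) * (N : ℤ) ≤ (8 * (N : ℤ)) * N :=
      mul_le_mul_of_nonneg_right (by linarith) hN
    have h9 : (8 : ℤ) * N * (N + 1) = 8 * N * N + 8 * N := by ring
    linarith

private theorem Key_inj {N : ℕ} (b b' : Bool) (p q : Pt N) (h : pos b p = pos b' q) :
    b = b' ∧ p = q := by
  rw [Key_pos, Key_pos] at h
  obtain ⟨h1, h2⟩ := Key_o_bd b p
  obtain ⟨h3, h4⟩ := Key_o_bd b' q
  obtain ⟨h5, h6⟩ := Key_c p
  obtain ⟨h7, h8⟩ := Key_c q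
  obtain ⟨h9, h10⟩ := Key_div h1 (by linarith) h3 (by linarith) h
  have h11 : Key_e b p = Key_e b' q ∧ ((p.c : ℕ) : ℤ) = ((q.c : ℕ) : ℤ) := by omega
  obtain ⟨h12, h13⟩ := h11
  have hp := p.h
  have hq := q.h
  have hp' : (p.l : ℕ) < p.r := hp
  have hq' : (q.l : ℕ) < q.r := hq
  have hc : p.c = q.c := Fin.ext (by exact_mod_cast h13)
  obtain ⟨pc, pl, pr, ph⟩ := p
  obtain ⟨qc, ql, qr, qh⟩ := q
  simp only [Key_e, Key_o] at h12 h10 hp' hq' hc
  cases b <;> cases b' <;> simp only [if_true, Bool.false_eq_true, if_false] at h12 h10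
  · have e1 : pl = ql := Fin.ext (by exact_mod_cast h12)
    have e2 : pr = qr := Fin.ext (by exact_mod_cast h10)
    subst e1 e2 hc
    exact ⟨rfl, rfl⟩
  · omega
  · omega
  · have e1 : pr = qr := Fin.ext (by exact_mod_cast h12)
    have e2 : pl = ql := Fin.ext (by exact_mod_cast h10)
    subst e1 e2 hc
    exact ⟨rfl, rfl⟩

private theorem Key_seg {K s s' x x' : ℤ} (hx : 0 ≤ x) (hx' : x < K) (hy : 0 ≤ x') (hy' : x' < K)
    (h : (s - s') * K * 4 = x' - x) : x = x' := by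
  have h1 : s = s' := by
    rcases lt_trichotomy s s' with h2 | h2 | h2
    · have h3 : K ≤ (s' - s) * K := by
        have : 1 * K ≤ (s' - s) * K := mul_le_mul_of_nonneg_right (by linarith) (by linarith)
        linarith
      have h4 : (s - s') * K = - ((s' - s) * K) := by ring
      linarith
    · exact h2
    · have h3 : K ≤ (s - s') * K := by
        have : 1 * K ≤ (s - s') * K := mul_le_mul_of_nonneg_right (by linarith) (by linarith)
        linarith
      linarith
  rw [h1] at h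
  linarith

theorem thm_Key : St_Key := by
  intro N
  refine ⟨fun b b' p q h => Key_inj b b' p q h, fun b p => Key_bd b p, fun i p q h => ?_,
    fun p => ?_, fun b b' p q h => ?_⟩
  · obtain ⟨h1, h2⟩ := Key_bd (useR i p.c) p
    obtain ⟨h3, h4⟩ := Key_bd (useR i q.c) q
    unfold key at h
    split_ifs at h with hi
    · exact (Key_inj _ _ p q (Key_seg h1 h2 h3 h4 (s := seg i p.c) (s' := seg i q.c)
        (by linarith))).2
    · exact (Key_inj _ _ p q (Key_seg h3 h4 h1 h2 (s := seg i p.c) (s' := seg i q.c)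
        (by linarith)).symm).2
  · refine Key_lt false true p p ?_
    have h := p.h
    have h' : (p.l : ℕ) < p.r := h
    simp only [Key_e, Bool.false_eq_true, if_false, if_true]
    omega
  · refine Key_lt b b' p q ?_
    unfold Key_e
    cases b <;> cases b' <;> simp only [Bool.false_eq_true, if_false, if_true] at h ⊢ <;>
      · rw [Fin.lt_def] at h
        omega

end Pool.Agent.BDD
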