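import Pool.Agent.BDD.Defs
import Pool.Agent.Helper58.BDimMain

/-!
# BDD: statements of the modules (MP_f4c717_co, the drop of the Boolean dimension is two)

Every module `Pool/Agent/BDD/<X>.lean` imports this file and proves `theorem thm_<X> : St_<X>` (with the
hypotheses named in the docstring). Proofs are in the docstrings.
-/

set_option autoImplicit false

namespace Pool.Agent.BDD

open Pool.Agent.Helper58.BDimDefs

/-- **Key**.  PROOF.  `pos b p` determines `p` and `b`: `pos true p = (r * 8 + c) * N + l` with `l < N`, `c < 8`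
(division with remainder); both ends: `pos true p = pos false q` would give `r_p = l_q`, `c_p = c_q`,
`l_p = r_q`, so `l_q < r_q = l_p < r_p = l_q`. (2) `0 ≤ pos b p < 8 * N * (N + 1)`. (3) From (1), (2) and the
definition of `key` (the segments are `0` or `1`). (4) `l < r`. (5) if the ends `x` of `p` and `y` of `q` are
different then `pos` compares like them. -/
def St_Key : Prop := ∀ N : ℕ,
  (∀ (b b' : Bool) (p q : Pt N), pos b p = pos b' q → b = b' ∧ p = q) ∧
  (∀ (b : Bool) (p : Pt N), 0 ≤ pos b p ∧ pos b p < 8 * N * (N + 1)) ∧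
  (∀ (i : Fin 4) (p q : Pt N), key i p = key i q → p = q) ∧
  (∀ p : Pt N, pos false p < pos true p) ∧
  (∀ (b b' : Bool) (p q : Pt N),
    ((if b then p.r else p.l : Fin N) < (if b' then q.r else q.l : Fin N)) → pos b p < pos b' q)

/-- **Cmp** (from `St_Key`).  PROOF.  For `p ≠ q` the comparison of the keys in the order `i` is given by the
segments, or (same segment) by the comparison of the positions of the used ends. So it is `bitO i p.c q.c s`
where `s` is the code of the four comparisons of the positions; `s ∈ SC` because `pos false p < pos true p`,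
`pos false q < pos true q` and all are different. (2) if the four ends are different, the positions
compare like the ends. -/
def St_Cmp : Prop := ∀ N : ℕ, (∀ p q : Pt N, p ≠ q → ∃ s ∈ SC, ∀ i, (key i p < key i q ↔
    bitO i p.c q.c s = true)) ∧
  (∀ p q : Pt N, [p.l, p.r, q.l, q.r].Nodup → cd p.l p.r q.l q.r ∈ SC ∧
    (cnt p q = 3 ↔ vt p.c q.c (cd p.l p.r q.l q.r) = true))

/-- **Ord** (from `St_Cmp`).  PROOF.  (1) By `St_Cmp` (1) and a finite check (`decide`) over the classes and the six
codes: `vt A B s = true → lev A < lev B`, and `lev A = 0 → lev B = 2 → vt A B s = true`. So for points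
`cnt p q = 3` implies `lev p.c < lev q.c`, and `lev p.c = 0`, `lev q.c = 2` imply `cnt p q = 3` (`p ≠ q`). Irreflexive: clear
(`cnt p p = 0`). Transitive: the levels are `0 < 1 < 2`, the levels of the classes below `x` are `0`, the
level of the class above `x` is `2`. -/
def St_Ord : Prop := ∀ N : ℕ, (∀ p : PP N, ¬ ltP p p) ∧
  (∀ p q r : PP N, ltP p q → ltP q r → ltP p r)

/-- **Up** (from `St_Key`).  PROOF.  The orders `LinearOrder.lift' (key i)` on the points `≠ none` and
`phi v :=` exactly three of `v 0, .., v 3` hold; `p < q ↔ ltP p q ↔ cnt p q = 3`. -/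
def St_Up : Prop := ∀ (N : ℕ) [PartialOrder (PP N)], (∀ p q : PP N, p < q ↔ ltP p q) →
  Nonempty (BooleanRealizer {y : PP N // y ≠ none} 4)

/-- **Ram**: finite Ramsey theorem for 4-subsets (copy of `Pool/Agent/IBN/Ram.lean`). -/
def St_Ram : Prop := ∀ (C : Type) [Finite C], ∃ n : ℕ, ∀ c : ℕ → ℕ → ℕ → ℕ → C, ∃ v : ℕ → ℕ,
  (∀ i j, i < j → j < 8 → v i < v j) ∧ (∀ i, i < 8 → v i < n) ∧ ∃ κ : C,
    ∀ i j k l : ℕ, i < j → j < k → k < l → l < 8 → c (v i) (v j) (v k) (v l) = κ

/-- **Red** (from `St_Ram`, `St_Cmp`).  PROOF.  Let `n` be the Ramsey number for the colours `(Fin 5 → Fin 8 → Fin 8 → ℕ-code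
in SC → Prop) × (Fin 5 → Fin 8 → Prop)`, `N = n`. The colour of `i < j < k < l`: in the order `col`, is the point of
class `A` with one of the six pairs (code `s`: `aabb` means the pair `i, j` for `A` and `k, l` for `B`, ..) before the
point of class `B` with the other pair; is the point `(A, i, j)` before `x`. On the homogeneous set `v 0 < .. < v 7`
these are constants: `m`, `xb` (extend pairs in `0..5` by `6, 7` for `xb`). `psi` is `phi` of the realizer. `anti`, `tr`,
`xtr`: the orders are linear, applied to points with ends in `v 0, .., v 5`; `ps`: `St_Cmp` (2). -/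
def St_Red : Prop := ∃ N : ℕ, ∀ [PartialOrder (PP N)], (∀ p q : PP N, p < q ↔ ltP p q) →
  Nonempty (BooleanRealizer (PP N) 5) → Nonempty Can

/-- **Flp**.  PROOF.  Reverse the columns `j` with `m j 3 3 15 = false` (replace `m j`, `xb j` by their negations and
`psi` accordingly; `tr` and `xtr` for the reversed column follow with `anti`). -/
def St_Flp : Prop := Nonempty Can → ∃ c : Can, ∀ j, c.m j 3 3 15 = true

/-- **Prm**.  PROOF.  Compose `m`, `xb` with the permutation, and `psi` with its inverse. -/
def St_Prm : Prop := ∀ (c : Can) (σ : Equiv.Perm (Fin 5)), ∃ c' : Can,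
  ∀ j A B s, c'.m j A B s = c.m (σ j) A B s

/-- **Col**.  PROOF.  All by two applications of `tr` on six elements. E.g. (1): if `m 15` (`ccbb`) is true and `m 13`
(`cbcb`) is false: for nested `b ⊃ b'` take `c` with `c_l < b_l < c_r < b'_l < b'_r < b_r`: `b` before `c` (code of
`(c, b)` is `13`), `c` before `b'` (`15`), so `b` before `b'`, which is code `12`. If `m 15` is false and `m 13` is true:
`c_l < b_l < c_r < b_r < b'_l < b'_r`: `c` before `b`, `b'` before `c`, so `b'` before `b`, against `m j 3 3 15 = true`.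
(2), (3) are similar (`m 13 ≠ m 12`: compare the right ends; `m 4 ≠ m 0`: the left end of `c` with the right end
of `b`). -/
def St_Col : Prop := ∀ (c : Can) (j : Fin 5), c.m j 3 3 15 = true →
  (c.m j 1 3 15 ≠ c.m j 1 3 13 → c.m j 3 3 12 = true) ∧
  (c.m j 1 3 13 ≠ c.m j 1 3 12 → c.m j 3 3 12 = false ∧ c.m j 1 1 12 ≠ c.m j 1 1 15) ∧
  (c.m j 1 3 4 ≠ c.m j 1 3 0 → c.m j 3 3 12 = false ∧ c.m j 1 1 12 = c.m j 1 1 15)

/-- **Wlg** (from `St_Flp`, `St_Prm`, `St_Col`).  PROOF.  `vt 1 3 15 ≠ vt 1 3 13`, `vt 1 3 13 ≠ vt 1 3 12`, `vt 1 3 4 ≠ vt 1 3 0`,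
so by `ps` there are columns `j0, j1, j2` where the bits are different; they are different columns
by `St_Col`. Permute them to `0, 1, 2`; if `m 3 3 3 12 = false` and `m 4 3 3 12 = true`, swap `3, 4`. -/
def St_Wlg : Prop := Nonempty Can → ∃ c : Can, Pin c ∧
  (c.m 3 3 3 12 = true ∨ (c.m 3 3 3 12 = false ∧ c.m 4 3 3 12 = false))

/-- **CoA**: certificate -/
def St_CoA : Prop := ∀ c : Can, Pin c → c.m 3 3 3 12 = true → False

/-- **CoB**: certificate -/
def St_CoB : Prop := ∀ c : Can, Pin c → c.m 3 3 3 12 = false → c.m 4 3 3 12 = false → False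

/-- **Mon**.  PROOF.  Add copies of the first order (or any linear order) and let `phi` ignore them. -/
def St_Mon : Prop := ∀ (X : Type) [Finite X] [PartialOrder X] (d e : ℕ), d ≤ e →
  Nonempty (BooleanRealizer X d) → Nonempty (BooleanRealizer X e)

/-- **Fin** (from `St_Ord`, `St_Up`, `St_Red`, `St_Wlg`, `St_CoA`, `St_CoB`, `St_Mon`).  PROOF.  `N` from `St_Red`; `PP N` is finite, the
order from `St_Ord`. `PP N` has no Boolean realizer of size `≤ 5` (`St_Mon`, `St_Red`, `St_Wlg`, `St_CoA`, `St_CoB`), it has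
one of size `6` at most: `bdimPos (PP N) ≤ bdimPos (PP N - none) + 2 ≤ 6` (`Helper58.BDim.dropPos_le_two`,
`drop_le_two`, `St_Up`), the set of the sizes is nonempty. So all values are as stated. -/
def St_Fin : Prop := ∃ (X : Type) (_ : Finite X) (_ : PartialOrder X) (x : X),
  bdim X = 6 ∧ bdim {y : X // y ≠ x} = 4 ∧ bdimPos X = 6 ∧ bdimPos {y : X // y ≠ x} = 4

end Pool.Agent.BDD
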